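import Pool.Agent.Lib.MP_8a95e3_al.CapQ

/-!
# CapF : the full cap
-/

namespace E4

section

variable {L Z E : Type} [AddCommGroup L] [CommRing Z] [AddCommGroup E] [Module Z E]

theorem CapF_zero (K : KAlg L Z E) (p q : L) : K.l (K.b p q) + K.l (K.b q p) = 0 := by
  rw [K.b_comm p q, K.two_E]

/-- the exchange of two values -/
def CapF_sw (p : ℕ → L) (b c : ℕ) : ℕ → L := Function.update (Function.update p b (p c)) c (p b)

omit [AddCommGroup L] in
theorem CapF_sw_c (p : ℕ → L) (b c : ℕ) : CapF_sw p b c c = p b := by
  rw [CapF_sw, Function.update_self]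

omit [AddCommGroup L] in
theorem CapF_sw_b (p : ℕ → L) {b c : ℕ} (h : b ≠ c) : CapF_sw p b c b = p c := by
  rw [CapF_sw, Function.update_of_ne h, Function.update_self]

omit [AddCommGroup L] in
theorem CapF_sw_ne (p : ℕ → L) {b c a : ℕ} (hb : a ≠ b) (hc : a ≠ c) : CapF_sw p b c a = p a := by
  rw [CapF_sw, Function.update_of_ne hc, Function.update_of_ne hb]

/-- no letter `b`, `c` -/
theorem CapF_none (K : KAlg L Z E) (p : ℕ → L) {b c : ℕ} (z : Sm) (hb : z.lets.count b = 0)
    (hc : z.lets.count c = 0) : z.val K (CapF_sw p b c) = z.val K p := by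
  refine val_congr K _ _ _ fun a ha => CapF_sw_ne p ?_ ?_
  · rintro rfl
    exact Multiset.count_eq_zero.1 hb ha
  · rintro rfl
    exact Multiset.count_eq_zero.1 hc ha

/-- no letter `b` -/
theorem CapF_nob (K : KAlg L Z E) (p : ℕ → L) {b c : ℕ} (z : Sm) (hb : z.lets.count b = 0) :
    z.val K (CapF_sw p b c) = z.val K (Function.update p c (p b)) := by
  refine val_congr K _ _ _ fun a ha => ?_
  have h : a ≠ b := by
    rintro rfl
    exact Multiset.count_eq_zero.1 hb ha
  by_cases h' : a = c
  · rw [h', CapF_sw_c, Function.update_self]
  · rw [CapF_sw_ne p h h', Function.update_of_ne h']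

/-- no letter `c` -/
theorem CapF_noc (K : KAlg L Z E) (p : ℕ → L) {b c : ℕ} (h : b ≠ c) (z : Sm) (hc : z.lets.count c = 0) :
    z.val K (CapF_sw p b c) = z.val K (Function.update p b (p c)) := by
  refine val_congr K _ _ _ fun a ha => ?_
  have h1 : a ≠ c := by
    rintro rfl
    exact Multiset.count_eq_zero.1 hc ha
  by_cases h' : a = b
  · rw [h', CapF_sw_b p h, Function.update_self]
  · rw [CapF_sw_ne p h' h1, Function.update_of_ne h']

end

/-- **Cap of one symbol.**  Let `b ≠ c` be letters of `z`, each occurring once.  If `p_y = [p_b,p_c]`, then `value(z; p) + value(z; p with p_b, p_c exchanged)` is the value of an expression whose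
letters are those of `z` with `b, c` replaced by `y`.

PROOF.  Induction on the list of pairs of `z`.  Write `p'` for the exchanged assignment.
* `z = ⟨[], two b c⟩` or `⟨[], two c b⟩`: `l([b,c]) + l([c,b]) = 0`: `s = []`.  (`⟨[], one _⟩` is impossible, and `two` with other letters as well.)
* `z = ⟨(b,c) :: ps, tl⟩` or `⟨(c,b) :: ps, tl⟩`: `k(b,c) W + k(c,b) W = 0` (`W = ⟨ps,tl⟩` has no letter `b, c`, `val_congr`): `s = []`.
* `z = ⟨(b,j) :: ps, tl⟩`, `j ≠ c` (`j ≠ b` as `b` occurs once): `W` contains `c` once and not `b`: `value = k(b,j) W(p) + k(c,j) W(p')` and `W(p') = W(update p c (p b))`: `half W b c y j`.  `(j,b)`: the same with `k_comm`.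
* `z = ⟨(c,j) :: ps, tl⟩`, `j ≠ b`: `half W c b y j` (`p_y = [p_c,p_b]` by `b_comm`).  `(j,c)`: the same.
* both letters of the first pair different from `b, c`: induction hypothesis for `⟨ps,tl⟩`, and prepend the pair to every symbol.
The letters: in each case from `half` / the induction hypothesis by multiset arithmetic. -/
theorem cap_one (z : Sm) (b c y : ℕ) (hb : z.lets.count b = 1) (hc : z.lets.count c = 1)
    (hbc : b ≠ c) :
    ∃ s : List Sm, (∀ z' ∈ s, b ::ₘ c ::ₘ z'.lets = y ::ₘ z.lets) ∧
      ∀ {L Z E : Type} [AddCommGroup L] [CommRing Z] [AddCommGroup E] [Module Z E]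
        (K : KAlg L Z E) (p : ℕ → L), p y = K.b (p b) (p c) →
        z.val K p + z.val K (Function.update (Function.update p b (p c)) c (p b))
          = evx K p s := by
  obtain ⟨ps, tl⟩ := z
  induction ps with
  | nil =>
    refine ⟨[], fun z' hz' => absurd hz' (List.not_mem_nil), ?_⟩
    cases tl with
    | one i =>
      exfalso
      have h0 : Sm.lets ⟨[], Tl.one i⟩ = {i} := by simp [Sm.lets, pletters, Tl.lets]
      rw [h0, Multiset.count_singleton] at hb hc
      have h1 : b = i := by
        by_contra h
        rw [if_neg h] at hb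
        omega
      have h2 : c = i := by
        by_contra h
        rw [if_neg h] at hc
        omega
      exact hbc (h1.trans h2.symm)
    | two i i' =>
      have h0 : Sm.lets ⟨[], Tl.two i i'⟩ = {i, i'} := by simp [Sm.lets, pletters, Tl.lets]
      rw [h0, Multiset.insert_eq_cons, Multiset.count_cons, Multiset.count_singleton] at hb hc
      have h1 : (b = i ∧ c = i') ∨ (b = i' ∧ c = i) := by
        split_ifs at hb hc <;> omega
      intro L Z E _ _ _ _ K p _
      show Sm.val K p _ + Sm.val K (CapF_sw p b c) _ = _
      rw [CapQ_evx_nil, CapQ_val_nil_two, CapQ_val_nil_two]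
      rcases h1 with ⟨rfl, rfl⟩ | ⟨rfl, rfl⟩
      · rw [CapF_sw_b p hbc, CapF_sw_c, CapF_zero]
      · rw [CapF_sw_b p hbc, CapF_sw_c, CapF_zero]
  | cons ij ps ih =>
    obtain ⟨i, i'⟩ := ij
    rw [lets_cons, Multiset.count_cons, Multiset.count_cons] at hb hc
    simp only at hb hc
    by_cases hib : b = i
    · subst hib
      have hbi' : b ≠ i' := by
        intro h
        rw [if_pos rfl, if_pos h] at hb
        omega
      rw [if_pos rfl, if_neg hbi'] at hb
      by_cases hic : c = i'
      · subst hic
        rw [if_pos rfl, if_neg (Ne.symm hbc)] at hc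
        refine ⟨[], fun z' hz' => absurd hz' (List.not_mem_nil), ?_⟩
        intro L Z E _ _ _ _ K p _
        show Sm.val K p _ + Sm.val K (CapF_sw p b c) _ = _
        rw [CapQ_evx_nil, val_cons, val_cons, CapF_none K p _ (by omega) (by omega)]
        simp only [CapF_sw_b p hbc, CapF_sw_c]
        rw [K.k_comm (p c) (p b), K.two_E]
      · rw [if_neg hic, if_neg (Ne.symm hbc)] at hc
        obtain ⟨s, e1, e2⟩ := half ⟨ps, tl⟩ b c y i' (by omega) hbc (Ne.symm hic)
        refine ⟨s, ?_, ?_⟩
        · intro z' hz'
          have e3 := congrArg (fun m => b ::ₘ m) (e1 z' hz')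
          rw [e3, lets_cons]
          refine Multiset.ext.2 fun a => ?_
          simp only [Multiset.count_cons]
          omega
        · intro L Z E _ _ _ _ K p hy
          show Sm.val K p _ + Sm.val K (CapF_sw p b c) _ = _
          rw [val_cons, val_cons, CapF_nob K p _ (by omega), ← e2 K p hy]
          simp only [CapF_sw_b p hbc, CapF_sw_ne p (Ne.symm hbi') (Ne.symm hic)]
    · rw [if_neg hib] at hb
      by_cases hic : c = i
      · subst hic
        have hci' : c ≠ i' := by
          intro h
          rw [if_pos rfl, if_pos h] at hc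
          omega
        rw [if_pos rfl, if_neg hci'] at hc
        by_cases hib' : b = i'
        · subst hib'
          rw [if_pos rfl] at hb
          refine ⟨[], fun z' hz' => absurd hz' (List.not_mem_nil), ?_⟩
          intro L Z E _ _ _ _ K p _
          show Sm.val K p _ + Sm.val K (CapF_sw p b c) _ = _
          rw [CapQ_evx_nil, val_cons, val_cons, CapF_none K p _ (by omega) (by omega)]
          simp only [CapF_sw_b p hbc, CapF_sw_c]
          rw [K.k_comm (p c) (p b), K.two_E]
        · rw [if_neg hib'] at hb
          obtain ⟨s, e1, e2⟩ := half ⟨ps, tl⟩ c b y i' (by omega) (Ne.symm hbc) (Ne.symm hib')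
          refine ⟨s, ?_, ?_⟩
          · intro z' hz'
            have e3 := congrArg (fun m => c ::ₘ m) (e1 z' hz')
            rw [Multiset.cons_swap, e3, lets_cons]
            refine Multiset.ext.2 fun a => ?_
            simp only [Multiset.count_cons]
            omega
          · intro L Z E _ _ _ _ K p hy
            show Sm.val K p _ + Sm.val K (CapF_sw p b c) _ = _
            rw [val_cons, val_cons, CapF_noc K p hbc _ (by omega), ← e2 K p (by rw [hy, K.b_comm])]
            simp only [CapF_sw_c, CapF_sw_ne p (Ne.symm hib') (Ne.symm hci')]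
      · rw [if_neg hic] at hc
        by_cases hib' : b = i'
        · subst hib'
          rw [if_pos rfl] at hb
          rw [if_neg (Ne.symm hbc)] at hc
          obtain ⟨s, e1, e2⟩ := half ⟨ps, tl⟩ b c y i (by omega) hbc (Ne.symm hic)
          refine ⟨s, ?_, ?_⟩
          · intro z' hz'
            have e3 := congrArg (fun m => b ::ₘ m) (e1 z' hz')
            rw [e3, lets_cons]
            refine Multiset.ext.2 fun a => ?_
            simp only [Multiset.count_cons]
            omega
          · intro L Z E _ _ _ _ K p hy
            show Sm.val K p _ + Sm.val K (CapF_sw p b c) _ = _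
            rw [val_cons, val_cons, CapF_nob K p _ (by omega), ← e2 K p hy]
            simp only [CapF_sw_b p hbc, CapF_sw_ne p (Ne.symm hib) (Ne.symm hic)]
            rw [K.k_comm (p i) (p b), K.k_comm (p i) (p c)]
        · rw [if_neg hib'] at hb
          by_cases hic' : c = i'
          · subst hic'
            rw [if_pos rfl] at hc
            obtain ⟨s, e1, e2⟩ := half ⟨ps, tl⟩ c b y i (by omega) (Ne.symm hbc) (Ne.symm hib)
            refine ⟨s, ?_, ?_⟩
            · intro z' hz'
              have e3 := congrArg (fun m => c ::ₘ m) (e1 z' hz')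
              rw [Multiset.cons_swap, e3, lets_cons]
              refine Multiset.ext.2 fun a => ?_
              simp only [Multiset.count_cons]
              omega
            · intro L Z E _ _ _ _ K p hy
              show Sm.val K p _ + Sm.val K (CapF_sw p b c) _ = _
              rw [val_cons, val_cons, CapF_noc K p hbc _ (by omega), ← e2 K p (by rw [hy, K.b_comm])]
              simp only [CapF_sw_c, CapF_sw_ne p (Ne.symm hib) (Ne.symm hic)]
              rw [K.k_comm (p i) (p b), K.k_comm (p i) (p c)]
          · rw [if_neg hic'] at hc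
            obtain ⟨s, e1, e2⟩ := ih (by omega) (by omega)
            refine ⟨s.map (CapQ_pre [(i, i')]), ?_, ?_⟩
            · intro z' hz'
              obtain ⟨z'', hz'', rfl⟩ := List.mem_map.1 hz'
              have e3 := e1 z'' hz''
              rw [CapQ_pre_lets, lets_cons]
              have h5 : pletters [(i, i')] = {i, i'} := by simp [pletters]
              rw [h5]
              refine Multiset.ext.2 fun a => ?_
              have e5 := congrArg (Multiset.count a) e3
              simp only [Multiset.count_cons, Multiset.count_add, Multiset.insert_eq_cons,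
                Multiset.count_singleton] at e5 ⊢
              omega
            · intro L Z E _ _ _ _ K p hy
              have e6 := e2 K p hy
              show Sm.val K p _ + Sm.val K (CapF_sw p b c) _ = _
              rw [CapQ_pre_evx, ← e6, CapQ_pval_one, val_cons, val_cons]
              simp only [CapF_sw_ne p (Ne.symm hib) (Ne.symm hic), CapF_sw_ne p (Ne.symm hib') (Ne.symm hic')]
              rw [smul_add]
              rfl

/-- **Cap of an expression in its last two letters.**

PROOF.  Apply `cap_one` to every symbol of `s` with `b = n`, `c = n+1`, `y = n+2`, concatenate, and rename `n+2 ↦ n` (`Sm.ren f`, `f i = if i = n+2 then n else i`).  Letters: `n ::ₘ (n+1) ::ₘ z'.lets = (n+2) ::ₘ range (n+2)`, so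
`z'.lets = (n+2) ::ₘ range n` and after renaming `n ::ₘ range n = range (n+1)`.
Value: let `P = update (update (update p n u) (n+1) v) (n+2) (K.b u v)`; `cap_one` for `P` gives `evx K P s + evx K (P exchanged) s = evx K P s₁`.  By `evx_congr` (letters `< n+2`) the left side is the left side of the claim.
`evx K (update p n (K.b u v)) (s₁.map (ren f)) = evx K ((update p n (K.b u v)) ∘ f) s₁` and the assignments `(update p n (K.b u v)) ∘ f` and `P` agree on the letters `{0..n-1, n+2}` of `s₁` (`val_congr`). -/
theorem cap (n : ℕ) (s : List Sm) (hs : Good (n + 2) s) :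
    ∃ s' : List Sm, Good (n + 1) s' ∧
      ∀ {L Z E : Type} [AddCommGroup L] [CommRing Z] [AddCommGroup E] [Module Z E]
        (K : KAlg L Z E) (p : ℕ → L) (u v : L),
        evx K (Function.update (Function.update p n u) (n + 1) v) s
          + evx K (Function.update (Function.update p n v) (n + 1) u) s
          = evx K (Function.update p n (K.b u v)) s' := by
  have h0 : ∃ s' : List Sm, (∀ z ∈ s', z.lets = (n + 2) ::ₘ Multiset.range n) ∧
      ∀ {L Z E : Type} [AddCommGroup L] [CommRing Z] [AddCommGroup E] [Module Z E]
        (K : KAlg L Z E) (p : ℕ → L), p (n + 2) = K.b (p n) (p (n + 1)) →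
        evx K p s + evx K (CapF_sw p n (n + 1)) s = evx K p s' := by
    induction s with
    | nil =>
      refine ⟨[], fun z hz => absurd hz (List.not_mem_nil), ?_⟩
      intro L Z E _ _ _ _ K p _
      simp only [CapQ_evx_nil, add_zero]
    | cons z s ih =>
      obtain ⟨s1, e1, e2⟩ := ih fun z' hz' => hs z' (List.mem_cons_of_mem _ hz')
      have hz := hs z List.mem_cons_self
      have hn : z.lets.count n = 1 := by
        rw [hz, Multiset.count_eq_one_of_mem (Multiset.nodup_range _) (Multiset.mem_range.2 (by omega))]
      have hn1 : z.lets.count (n + 1) = 1 := by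
        rw [hz, Multiset.count_eq_one_of_mem (Multiset.nodup_range _) (Multiset.mem_range.2 (by omega))]
      obtain ⟨s2, e3, e4⟩ := cap_one z n (n + 1) (n + 2) hn hn1 (by omega)
      refine ⟨s2 ++ s1, ?_, ?_⟩
      · intro z' hz'
        rcases List.mem_append.1 hz' with h | h
        · have e5 := e3 z' h
          rw [hz] at e5
          have e6 : n ::ₘ (n + 1) ::ₘ z'.lets = n ::ₘ (n + 1) ::ₘ ((n + 2) ::ₘ Multiset.range n) := by
            rw [e5, Multiset.range_succ, Multiset.range_succ]
            refine Multiset.ext.2 fun a => ?_
            simp only [Multiset.count_cons]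
            omega
          exact (Multiset.cons_inj_right _).1 ((Multiset.cons_inj_right _).1 e6)
        · exact e1 z' h
      · intro L Z E _ _ _ _ K p hp
        rw [CapQ_evx_cons, CapQ_evx_cons, evx_append, ← e2 K p hp, ← e4 K p hp]
        show _ + _ + (Sm.val K (CapF_sw p n (n + 1)) z + _) = _ + Sm.val K (CapF_sw p n (n + 1)) z + _
        abel
  obtain ⟨s', e1, e2⟩ := h0
  refine ⟨s'.map (Sm.ren fun i => if i = n + 2 then n else i), ?_, ?_⟩
  · intro z hz
    obtain ⟨z', hz', rfl⟩ := List.mem_map.1 hz
    rw [ren_lets, e1 z' hz', Multiset.map_cons, if_pos rfl, Multiset.range_succ]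
    congr 1
    have h3 : ∀ i ∈ Multiset.range n, (if i = n + 2 then n else i) = id i := by
      intro i hi
      have := Multiset.mem_range.1 hi
      rw [if_neg (by omega)]
      rfl
    rw [Multiset.map_congr rfl h3, Multiset.map_id]
  · intro L Z E _ _ _ _ K p u v
    obtain ⟨P, hP⟩ : ∃ P : ℕ → L,
      P = Function.update (Function.update (Function.update p n u) (n + 1) v) (n + 2) (K.b u v) := ⟨_, rfl⟩
    have P0 : P n = u := by
      rw [hP, Function.update_of_ne (by omega), Function.update_of_ne (by omega), Function.update_self]
    have P1 : P (n + 1) = v := by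
      rw [hP, Function.update_of_ne (by omega), Function.update_self]
    have P2 : P (n + 2) = K.b u v := by
      rw [hP, Function.update_self]
    have P3 : ∀ i, i < n → P i = p i := by
      intro i hi
      rw [hP, Function.update_of_ne (by omega), Function.update_of_ne (by omega), Function.update_of_ne (by omega)]
    have h1 : evx K P s = evx K (Function.update (Function.update p n u) (n + 1) v) s := by
      refine evx_congr K s hs _ _ fun i hi => ?_
      rw [hP, Function.update_of_ne (by omega)]
    have h2 : evx K (CapF_sw P n (n + 1)) s = evx K (Function.update (Function.update p n v) (n + 1) u) s := by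
      refine evx_congr K s hs _ _ fun i hi => ?_
      by_cases hi1 : i = n + 1
      · rw [hi1, CapF_sw_c, P0, Function.update_self]
      · by_cases hi0 : i = n
        · rw [hi0, CapF_sw_b P (by omega), P1, Function.update_of_ne (by omega), Function.update_self]
        · rw [CapF_sw_ne P hi0 hi1, P3 i (by omega), Function.update_of_ne hi1, Function.update_of_ne hi0]
    rw [← h1, ← h2, e2 K P (by rw [P0, P1, P2]), evx_ren]
    have h3 : ∀ z ∈ s', z.val K P = z.val K (Function.update p n (K.b u v) ∘ fun i => if i = n + 2 then n else i) := by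
      intro z hz
      refine val_congr K _ _ _ fun i hi => ?_
      rw [e1 z hz, Multiset.mem_cons, Multiset.mem_range] at hi
      simp only [Function.comp]
      rcases hi with rfl | hi
      · rw [if_pos rfl, Function.update_self, P2]
      · rw [if_neg (by omega), Function.update_of_ne (by omega), P3 i hi]
    rw [evx, evx, List.map_congr_left h3]

end E4
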