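import Pool.Agent.Lib.MP_8a95e3_al.SymV

/-!
# CapQ : quarter and half caps
-/

namespace E4

section prep

variable {L Z E : Type} [AddCommGroup L] [CommRing Z] [AddCommGroup E] [Module Z E]

/-- add pairs in front of a symbol -/
def CapQ_pre (ps : List (ℕ × ℕ)) (z : Sm) : Sm := ⟨ps ++ z.ps, z.tl⟩

theorem CapQ_pre_val (K : KAlg L Z E) (p : ℕ → L) (ps : List (ℕ × ℕ)) (z : Sm) :
    (CapQ_pre ps z).val K p = pval K p ps • z.val K p := by
  simp only [CapQ_pre, Sm.val, pval, List.map_append, List.prod_append, mul_smul]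

theorem CapQ_pre_lets (ps : List (ℕ × ℕ)) (z : Sm) : (CapQ_pre ps z).lets = pletters ps + z.lets := by
  simp only [CapQ_pre, Sm.lets, pletters, List.map_append, List.sum_append, add_assoc]

theorem CapQ_evx_nil (K : KAlg L Z E) (p : ℕ → L) : evx K p [] = 0 := by
  simp only [evx, List.map_nil, List.sum_nil]

theorem CapQ_evx_cons (K : KAlg L Z E) (p : ℕ → L) (z : Sm) (s : List Sm) :
    evx K p (z :: s) = z.val K p + evx K p s := by
  simp only [evx, List.map_cons, List.sum_cons]

theorem CapQ_pre_evx (K : KAlg L Z E) (p : ℕ → L) (ps : List (ℕ × ℕ)) (s : List Sm) :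
    evx K p (s.map (CapQ_pre ps)) = pval K p ps • evx K p s := by
  induction s with
  | nil => rw [List.map_nil, CapQ_evx_nil, smul_zero]
  | cons z s ih => rw [List.map_cons, CapQ_evx_cons, CapQ_evx_cons, ih, CapQ_pre_val, smul_add]

theorem CapQ_val_nil_one (K : KAlg L Z E) (p : ℕ → L) (i : ℕ) :
    Sm.val K p ⟨[], Tl.one i⟩ = K.l (p i) := by
  simp only [Sm.val, pval, List.map_nil, List.prod_nil, one_smul, Tl.val]

theorem CapQ_val_nil_two (K : KAlg L Z E) (p : ℕ → L) (i j : ℕ) :
    Sm.val K p ⟨[], Tl.two i j⟩ = K.l (K.b (p i) (p j)) := by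
  simp only [Sm.val, pval, List.map_nil, List.prod_nil, one_smul, Tl.val]

theorem CapQ_pval_one (K : KAlg L Z E) (p : ℕ → L) (i j : ℕ) :
    pval K p [(i, j)] = K.k (p i) (p j) := by
  simp only [pval, List.map_cons, List.map_nil, List.prod_cons, List.prod_nil, mul_one]

theorem CapQ_pval_of (K : KAlg L Z E) (p : ℕ → L) (z : Sm) :
    z.val K p = pval K p z.ps • Sm.val K p ⟨[], z.tl⟩ := by
  simp only [Sm.val, pval, List.map_nil, List.prod_nil, one_smul]

end prep

private theorem CapQ_lets_nil_one (i : ℕ) : Sm.lets ⟨[], Tl.one i⟩ = {i} := by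
  simp [Sm.lets, pletters, Tl.lets]

private theorem CapQ_lets_nil_two (i j : ℕ) : Sm.lets ⟨[], Tl.two i j⟩ = {i, j} := by
  simp [Sm.lets, pletters, Tl.lets]

private theorem CapQ_q0 (tl : Tl) (i j y : ℕ) :
    ∃ s : List Sm, (∀ z' ∈ s, z'.lets = y ::ₘ i ::ₘ j ::ₘ Sm.lets ⟨[], tl⟩) ∧
      ∀ {L Z E : Type} [AddCommGroup L] [CommRing Z] [AddCommGroup E] [Module Z E]
        (K : KAlg L Z E) (p : ℕ → L),
        K.k (K.b (p i) (p j)) (p y) • Sm.val K p ⟨[], tl⟩ = evx K p s := by
  cases tl with
  | one m =>
    refine ⟨[⟨[(m, y)], Tl.two i j⟩, ⟨[(j, m)], Tl.two i y⟩, ⟨[(i, m)], Tl.two j y⟩], ?_, ?_⟩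
    · intro z' hz'
      simp only [List.mem_cons, List.not_mem_nil, or_false] at hz'
      rcases hz' with rfl | rfl | rfl
      all_goals
        rw [lets_cons, CapQ_lets_nil_one, CapQ_lets_nil_two]
        refine Multiset.ext.2 fun a => ?_
        simp only [Multiset.count_cons, Multiset.insert_eq_cons, Multiset.count_singleton]
        omega
    · intro L Z E _ _ _ _ K p
      rw [CapQ_evx_cons, CapQ_evx_cons, CapQ_evx_cons, CapQ_evx_nil, val_cons, val_cons, val_cons,
        CapQ_val_nil_one, CapQ_val_nil_two, CapQ_val_nil_two, CapQ_val_nil_two, add_zero, K.E2, add_assoc]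
  | two m n =>
    refine ⟨[⟨[(m, y), (j, n)], Tl.one i⟩, ⟨[(m, y), (i, n)], Tl.one j⟩, ⟨[(j, m), (y, n)], Tl.one i⟩,
      ⟨[(j, m), (i, n)], Tl.one y⟩, ⟨[(i, m), (y, n)], Tl.one j⟩, ⟨[(i, m), (j, n)], Tl.one y⟩], ?_, ?_⟩
    · intro z' hz'
      simp only [List.mem_cons, List.not_mem_nil, or_false] at hz'
      rcases hz' with rfl | rfl | rfl | rfl | rfl | rfl
      all_goals
        rw [lets_cons, lets_cons, CapQ_lets_nil_one, CapQ_lets_nil_two]
        refine Multiset.ext.2 fun a => ?_
        simp only [Multiset.count_cons, Multiset.insert_eq_cons, Multiset.count_singleton]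
        omega
    · intro L Z E _ _ _ _ K p
      have h := congrArg (K.D (p n)) (K.E2 (p i) (p j) (p y) (p m))
      simp only [map_add, map_smul, K.D_l, K.R1] at h
      simp only [CapQ_evx_cons, CapQ_evx_nil, val_cons, CapQ_val_nil_one, CapQ_val_nil_two, h, smul_add, add_zero,
        add_assoc]

/-- **Quarter cap.**  `k([p_i,p_j], p_y) • value(z)` is the value of an expression.

PROOF.  `z = ⟨ps, tl⟩`.  For `ps = []`:
* `tl = one m`: (E2) (`K.E2 (p i) (p j) (p y) (p m)`): `s = [⟨[(m,y)], two i j⟩, ⟨[(j,m)], two i y⟩, ⟨[(i,m)], two j y⟩]`;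
* `tl = two m n`: apply `D (p n)` to (E2) for `m`: `k(m,y) l([[i,j],n]) + k(j,m) l([[i,y],n]) + k(i,m) l([[j,y],n])`, and (R1) for each:
  `s = [⟨[(m,y),(j,n)], one i⟩, ⟨[(m,y),(i,n)], one j⟩, ⟨[(j,m),(y,n)], one i⟩, ⟨[(j,m),(i,n)], one y⟩, ⟨[(i,m),(y,n)], one j⟩, ⟨[(i,m),(j,n)], one y⟩]`.
In general prepend `ps` to every symbol (`value ⟨ps ++ ps', tl⟩ = (value of the pairs ps) • value ⟨ps', tl⟩`). -/
theorem quarter (z : Sm) (i j y : ℕ) :
    ∃ s : List Sm, (∀ z' ∈ s, z'.lets = y ::ₘ i ::ₘ j ::ₘ z.lets) ∧
      ∀ {L Z E : Type} [AddCommGroup L] [CommRing Z] [AddCommGroup E] [Module Z E]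
        (K : KAlg L Z E) (p : ℕ → L),
        K.k (K.b (p i) (p j)) (p y) • z.val K p = evx K p s := by
  obtain ⟨s, h1, h2⟩ := CapQ_q0 z.tl i j y
  refine ⟨s.map (CapQ_pre z.ps), ?_, ?_⟩
  · intro z' hz'
    obtain ⟨z'', hz'', rfl⟩ := List.mem_map.1 hz'
    rw [CapQ_pre_lets, h1 z'' hz'']
    have h3 : z.lets = pletters z.ps + Sm.lets ⟨[], z.tl⟩ := by
      simp [Sm.lets, pletters]
    rw [h3]
    simp only [Multiset.add_cons]
  · intro L Z E _ _ _ _ K p
    rw [CapQ_pre_evx, ← h2, CapQ_pval_of K p z, smul_smul, smul_smul, mul_comm]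

/-- **Half cap.**  Let `c` be a letter of `z` (occurring once), `b, y` not letters of `z`, `j ≠ b, c`... (the letters `j, y` are arbitrary except as stated).  If `p_y = [p_b,p_c]` then
`k(p_b,p_j) value(z; p) + k(p_c,p_j) value(z; p with p_c replaced by p_b)` is the value of an expression, whose letters are those of `z` without `c`, and `y`, `j`.

PROOF.  Induction on the list of pairs of `z`.  Write `p'` for `Function.update p c (p b)`; values of symbols without the letter `c` are the same for `p` and `p'` (`val_congr`).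
* `z = ⟨[], one c⟩`: (R1) `k(b,j) l(c) + k(c,j) l(b) = l([[b,c],j]) = l([y,j])`: `s = [⟨[], two y j⟩]`.
* `z = ⟨[], two c i⟩` (`i ≠ c`): apply `D (p i)` to the previous: `k(b,j) l([c,i]) + k(c,j) l([b,i]) = l([[y,j],i]) = k(j,i) l(y) + k(y,i) l(j)`: `s = [⟨[(j,i)], one y⟩, ⟨[(y,i)], one j⟩]`.  `z = ⟨[], two i c⟩`: the same (`b_comm`).
* `z = ⟨(c,i) :: ps, tl⟩`, `W = ⟨ps,tl⟩` does not contain `c`: `k(b,j) k(c,i) W + k(c,j) k(b,i) W = k([b,c],[i,j]) W` by (K22) `= k([i,j], p_y) W`: `quarter`.  `z = ⟨(i,c) :: ps, tl⟩` the same (`k_comm`).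
* `z = ⟨(i,i') :: ps, tl⟩` with `i, i' ≠ c`: `k(p_i,p_{i'}) •` (induction hypothesis for `⟨ps,tl⟩`): prepend the pair to every symbol. -/
theorem half (z : Sm) (b c y j : ℕ) (hc : z.lets.count c = 1) (hbc : b ≠ c) (hjc : j ≠ c) :
    ∃ s : List Sm, (∀ z' ∈ s, c ::ₘ z'.lets = y ::ₘ j ::ₘ z.lets) ∧
      ∀ {L Z E : Type} [AddCommGroup L] [CommRing Z] [AddCommGroup E] [Module Z E]
        (K : KAlg L Z E) (p : ℕ → L), p y = K.b (p b) (p c) →
        K.k (p b) (p j) • z.val K p + K.k (p c) (p j) • z.val K (Function.update p c (p b))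
          = evx K p s := by
  obtain ⟨ps, tl⟩ := z
  induction ps with
  | nil =>
    cases tl with
    | one i =>
      rw [CapQ_lets_nil_one, Multiset.count_singleton] at hc
      have hi : i = c := by
        by_contra h
        rw [if_neg (fun h' => h h'.symm)] at hc
        exact absurd hc (by decide)
      subst hi
      refine ⟨[⟨[], Tl.two y j⟩], ?_, ?_⟩
      · intro z' hz'
        rw [List.mem_singleton] at hz'
        subst hz'
        rw [CapQ_lets_nil_one, CapQ_lets_nil_two]
        refine Multiset.ext.2 fun a => ?_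
        simp only [Multiset.count_cons, Multiset.insert_eq_cons, Multiset.count_singleton]
        omega
      · intro L Z E _ _ _ _ K p hy
        rw [CapQ_evx_cons, CapQ_evx_nil, CapQ_val_nil_one, CapQ_val_nil_one, CapQ_val_nil_two, add_zero,
          Function.update_self, hy, K.R1, add_comm]
    | two i i' =>
      rw [CapQ_lets_nil_two, Multiset.insert_eq_cons, Multiset.count_cons, Multiset.count_singleton] at hc
      have hi : (c = i ∧ c ≠ i') ∨ (c = i' ∧ c ≠ i) := by
        by_cases h1 : c = i
        · by_cases h2 : c = i'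
          · rw [if_pos h1, if_pos h2] at hc
            exact absurd hc (by decide)
          · exact Or.inl ⟨h1, h2⟩
        · by_cases h2 : c = i'
          · exact Or.inr ⟨h2, h1⟩
          · rw [if_neg h1, if_neg h2] at hc
            exact absurd hc (by decide)
      have key : ∀ n : ℕ, n ≠ c → ∀ {L Z E : Type} [AddCommGroup L] [CommRing Z] [AddCommGroup E] [Module Z E]
          (K : KAlg L Z E) (p : ℕ → L), p y = K.b (p b) (p c) →
          K.k (p b) (p j) • K.l (K.b (p c) (p n)) + K.k (p c) (p j) • K.l (K.b (p b) (p n))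
            = K.k (p j) (p n) • K.l (p y) + K.k (p y) (p n) • K.l (p j) := by
        intro n _ L Z E _ _ _ _ K p hy
        have h1 : K.k (p b) (p j) • K.l (p c) + K.k (p c) (p j) • K.l (p b) = K.l (K.b (p y) (p j)) := by
          rw [hy, K.R1, add_comm]
        have h2 := congrArg (K.D (p n)) h1
        simp only [map_add, map_smul, K.D_l] at h2
        rw [h2, K.R1]
      rcases hi with ⟨rfl, hn⟩ | ⟨rfl, hn⟩
      · refine ⟨[⟨[(j, i')], Tl.one y⟩, ⟨[(y, i')], Tl.one j⟩], ?_, ?_⟩
        · intro z' hz'
          simp only [List.mem_cons, List.not_mem_nil, or_false] at hz'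
          rcases hz' with rfl | rfl
          all_goals
            rw [lets_cons, CapQ_lets_nil_one, CapQ_lets_nil_two]
            refine Multiset.ext.2 fun a => ?_
            simp only [Multiset.count_cons, Multiset.insert_eq_cons, Multiset.count_singleton]
            omega
        · intro L Z E _ _ _ _ K p hy
          rw [CapQ_evx_cons, CapQ_evx_cons, CapQ_evx_nil, val_cons, val_cons, CapQ_val_nil_one, CapQ_val_nil_one,
            CapQ_val_nil_two, CapQ_val_nil_two, add_zero, Function.update_self, Function.update_of_ne hn.symm,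
            key i' hn.symm K p hy]
      · refine ⟨[⟨[(j, i)], Tl.one y⟩, ⟨[(y, i)], Tl.one j⟩], ?_, ?_⟩
        · intro z' hz'
          simp only [List.mem_cons, List.not_mem_nil, or_false] at hz'
          rcases hz' with rfl | rfl
          all_goals
            rw [lets_cons, CapQ_lets_nil_one, CapQ_lets_nil_two]
            refine Multiset.ext.2 fun a => ?_
            simp only [Multiset.count_cons, Multiset.insert_eq_cons, Multiset.count_singleton]
            omega
        · intro L Z E _ _ _ _ K p hy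
          rw [CapQ_evx_cons, CapQ_evx_cons, CapQ_evx_nil, val_cons, val_cons, CapQ_val_nil_one, CapQ_val_nil_one,
            CapQ_val_nil_two, CapQ_val_nil_two, add_zero, Function.update_self, Function.update_of_ne hn.symm,
            K.b_comm (p i) (p c), K.b_comm (p i) (p b), key i hn.symm K p hy]
  | cons ij ps ih =>
    obtain ⟨i, i'⟩ := ij
    rw [lets_cons, Multiset.count_cons, Multiset.count_cons] at hc
    by_cases h1 : c = i
    · have h2 : c ≠ i' := by
        intro h
        simp only at hc
        rw [if_pos h1, if_pos h] at hc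
        omega
      simp only at hc
      rw [if_pos h1, if_neg h2] at hc
      subst h1
      have h3 : c ∉ Sm.lets ⟨ps, tl⟩ := by
        rw [← Multiset.count_eq_zero]
        omega
      obtain ⟨s, e1, e2⟩ := quarter ⟨ps, tl⟩ i' j y
      refine ⟨s, ?_, ?_⟩
      · intro z' hz'
        rw [e1 z' hz', lets_cons]
        refine Multiset.ext.2 fun a => ?_
        simp only [Multiset.count_cons]
        omega
      · intro L Z E _ _ _ _ K p hy
        have h4 : Sm.val K (Function.update p c (p b)) ⟨ps, tl⟩ = Sm.val K p ⟨ps, tl⟩ :=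
          val_congr K _ _ _ fun a ha => Function.update_of_ne (fun h => by
            rw [h] at ha
            exact h3 ha) _ _
        rw [val_cons, val_cons, h4]
        simp only [Function.update_self, Function.update_of_ne h2.symm]
        rw [← e2, smul_smul, smul_smul, ← add_smul, K.k_comm _ (p y), hy, K.K22]
        congr 1
        ring
    · by_cases h2 : c = i'
      · simp only at hc
        rw [if_neg h1, if_pos h2] at hc
        subst h2
        have h3 : c ∉ Sm.lets ⟨ps, tl⟩ := by
          rw [← Multiset.count_eq_zero]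
          omega
        obtain ⟨s, e1, e2⟩ := quarter ⟨ps, tl⟩ i j y
        refine ⟨s, ?_, ?_⟩
        · intro z' hz'
          rw [e1 z' hz', lets_cons]
          refine Multiset.ext.2 fun a => ?_
          simp only [Multiset.count_cons]
          omega
        · intro L Z E _ _ _ _ K p hy
          have h4 : Sm.val K (Function.update p c (p b)) ⟨ps, tl⟩ = Sm.val K p ⟨ps, tl⟩ :=
            val_congr K _ _ _ fun a ha => Function.update_of_ne (fun h => by
            rw [h] at ha
            exact h3 ha) _ _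
          rw [val_cons, val_cons, h4]
          simp only [Function.update_self, Function.update_of_ne (Ne.symm h1)]
          rw [← e2, smul_smul, smul_smul, ← add_smul, K.k_comm _ (p y), hy, K.K22, K.k_comm (p i) (p c),
            K.k_comm (p i) (p b)]
          congr 1
          ring
      · simp only at hc
        rw [if_neg h1, if_neg h2] at hc
        obtain ⟨s, e1, e2⟩ := ih (by omega)
        refine ⟨s.map (CapQ_pre [(i, i')]), ?_, ?_⟩
        · intro z' hz'
          obtain ⟨z'', hz'', rfl⟩ := List.mem_map.1 hz'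
          have e3 := e1 z'' hz''
          rw [CapQ_pre_lets, lets_cons]
          have h5 : pletters [(i, i')] = {i, i'} := by simp [pletters]
          rw [h5]
          have e4 : ∀ a, Multiset.count a (c ::ₘ z''.lets) = Multiset.count a (y ::ₘ j ::ₘ Sm.lets ⟨ps, tl⟩) :=
            fun a => by rw [e3]
          refine Multiset.ext.2 fun a => ?_
          have e5 := e4 a
          simp only [Multiset.count_cons, Multiset.count_add, Multiset.insert_eq_cons,
            Multiset.count_singleton] at e5 ⊢
          omega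
        · intro L Z E _ _ _ _ K p hy
          rw [CapQ_pre_evx, ← e2 K p hy, CapQ_pval_one, val_cons, val_cons]
          simp only [Function.update_of_ne (Ne.symm h1), Function.update_of_ne (Ne.symm h2)]
          rw [smul_add, smul_smul, smul_smul, smul_smul, smul_smul, mul_comm, mul_comm (K.k (p c) (p j))]

end E4
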