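import Mathlib

/-!
# KDefs : the abstract structure `KAlg`, symbols and expressions
-/

namespace E4

/-- abstract structure (see the paper, section 4) -/
structure KAlg (L Z E : Type) [AddCommGroup L] [CommRing Z] [AddCommGroup E] [Module Z E] where
  b : L → L → L
  b_add_left : ∀ p q r, b (p + q) r = b p r + b q r
  b_add_right : ∀ p q r, b p (q + r) = b p q + b p r
  b_self : ∀ p, b p p = 0
  jac : ∀ p q r, b (b p q) r + b (b q r) p + b (b r p) q = 0
  two_L : ∀ p : L, p + p = 0
  two_Z : ∀ z : Z, z + z = 0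
  two_E : ∀ e : E, e + e = 0
  k : L → L → Z
  k_add_left : ∀ p q r, k (p + q) r = k p r + k q r
  k_comm : ∀ p q, k p q = k q p
  l : L → E
  l_add : ∀ p q, l (p + q) = l p + l q
  R1 : ∀ p q r, l (b (b p q) r) = k q r • l p + k p r • l q
  D : L → E →ₗ[Z] E
  D_l : ∀ p q, D p (l q) = l (b q p)
  faith : ∀ z : Z, (∀ s, z • l s = 0) → z = 0

/-- tails -/
inductive Tl where
  | one (i : ℕ) : Tl
  | two (i j : ℕ) : Tl

/-- symbols: a list of pairs and a tail -/
structure Sm where
  ps : List (ℕ × ℕ)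
  tl : Tl

/-- letters of a tail -/
def Tl.lets : Tl → Multiset ℕ
  | Tl.one i => {i}
  | Tl.two i j => {i, j}

/-- letters of the list of pairs -/
def pletters (ps : List (ℕ × ℕ)) : Multiset ℕ := (ps.map (fun ij => ({ij.1, ij.2} : Multiset ℕ))).sum

/-- letters of a symbol -/
def Sm.lets (z : Sm) : Multiset ℕ := pletters z.ps + z.tl.lets

/-- an expression on the letters `0, ..., n-1`, each occurring exactly once in each symbol -/
def Good (n : ℕ) (s : List Sm) : Prop := ∀ z ∈ s, z.lets = Multiset.range n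

section

variable {L Z E : Type} [AddCommGroup L] [CommRing Z] [AddCommGroup E] [Module Z E]

/-- value of a tail -/
def Tl.val (K : KAlg L Z E) (p : ℕ → L) : Tl → L
  | Tl.one i => p i
  | Tl.two i j => K.b (p i) (p j)

/-- value of the pairs -/
def pval (K : KAlg L Z E) (p : ℕ → L) (ps : List (ℕ × ℕ)) : Z :=
  (ps.map (fun ij => K.k (p ij.1) (p ij.2))).prod

/-- value of a symbol -/
def Sm.val (K : KAlg L Z E) (p : ℕ → L) (z : Sm) : E := pval K p z.ps • K.l (z.tl.val K p)

/-- value of an expression (a list of symbols) -/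
def evx (K : KAlg L Z E) (p : ℕ → L) (s : List Sm) : E := (s.map (Sm.val K p)).sum

/-- `XX 0 = p_0`, `XX (m+1) = [XX m, [p_{2m+1}, p_{2m+2}]]` -/
def XX (K : KAlg L Z E) (p : ℕ → L) : ℕ → L
  | 0 => p 0
  | m + 1 => K.b (XX K p m) (K.b (p (2 * m + 1)) (p (2 * m + 2)))

/-- `AA m = [XX m, p_{2m+1}]` -/
def AA (K : KAlg L Z E) (p : ℕ → L) (m : ℕ) : L := K.b (XX K p m) (p (2 * m + 1))

/-- left normed Lie monomial `[p_0, p_{j_1}, p_{j_2}, ...]` -/
def lie (K : KAlg L Z E) (p : ℕ → L) (js : List ℕ) : L :=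
  js.foldl (fun y j => K.b y (p j)) (p 0)

/-- the property (T1) -/
def T1P (K : KAlg L Z E) : Prop :=
  ∀ (n : ℕ) (s : List Sm), Good (n + 1) s →
    (∀ (p : ℕ → L) (u v : L), evx K (Function.update p n (K.b u v)) s = 0) →
    ∀ p : ℕ → L, evx K p s = 0

end

end E4
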