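import Pool.Agent.Lib.MP_8a95e3_al.TCons
import Pool.Agent.Lib.MP_8a95e3_al.KDefs

/-!
# CenM : the additive group `M` and the central operators `k(a,b)`
-/

namespace E4

namespace TPr

variable {A : Type} [Ring A] (P : TPr A)

/-- `Λ` as a subgroup of `A` -/
abbrev Lm : AddSubgroup A := Lam P.ρ

/-- words of length at least two in the `t(g)`, additively spanned -/
def M : AddSubgroup A :=
  AddSubgroup.closure {w | ∃ l : List F, 2 ≤ l.length ∧ w = (l.map P.t).prod}

/-- PROOF: a word of length `≥ 2`. -/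
theorem tt_mem (g h : F) : P.t g * P.t h ∈ P.M := by
  exact AddSubgroup.subset_closure ⟨[g, h], by simp, by simp⟩

/-- closure induction in the form used below: a property of elements of `M` which is additive and holds for all words `t(u) t(v) w`, `w` a product of `t`'s, holds for `M`. -/
theorem M_ind {p : A → Prop} (h0 : p 0) (hadd : ∀ a b, p a → p b → p (a + b)) (hneg : ∀ a, p a → p (-a))
    (hw : ∀ (u v : F) (l : List F), p (P.t u * P.t v * (l.map P.t).prod)) :
    ∀ m ∈ P.M, p m := by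
  intro m hm
  unfold M at hm
  induction hm using AddSubgroup.closure_induction with
  | mem y hy =>
    obtain ⟨l, hl, rfl⟩ := hy
    match l, hl with
    | u :: v :: l', _ =>
      have := hw u v l'
      simpa [mul_assoc] using this
  | zero => exact h0
  | add y z _ _ hy hz => exact hadd y z hy hz
  | neg y _ hy => exact hneg y hy

/-- PROOF: closure induction in both variables. -/
theorem lam_mul_mem {p m : A} (hp : p ∈ P.Lm) (hm : m ∈ P.M) : p * m ∈ P.M := by
  have h1 : ∀ g : F, ∀ m ∈ P.M, P.t g * m ∈ P.M := by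
    intro g
    refine P.M_ind ?_ ?_ ?_ ?_
    · rw [mul_zero]
      exact P.M.zero_mem
    · intro a b ha hb
      rw [mul_add]
      exact P.M.add_mem ha hb
    · intro a ha
      rw [mul_neg]
      exact P.M.neg_mem ha
    · intro u v l
      refine AddSubgroup.subset_closure ⟨g :: u :: v :: l, by simp, ?_⟩
      simp [mul_assoc]
  have h2 : p ∈ AddSubgroup.closure (Set.range (sqe P.ρ)) := hp
  induction h2 using AddSubgroup.closure_induction with
  | mem y hy =>
    obtain ⟨g, rfl⟩ := hy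
    exact h1 g m hm
  | zero =>
    rw [zero_mul]
    exact P.M.zero_mem
  | add y z hy1 hz1 hy hz =>
    rw [add_mul]
    exact P.M.add_mem (hy hy1) (hz hz1)
  | neg y hy1 hy =>
    rw [neg_mul]
    exact P.M.neg_mem (hy hy1)

theorem mul_t_mem {m : A} (hm : m ∈ P.M) (g : F) : m * P.t g ∈ P.M := by
  have h1 : ∀ m ∈ P.M, m * P.t g ∈ P.M := by
    refine P.M_ind ?_ ?_ ?_ ?_
    · rw [zero_mul]
      exact P.M.zero_mem
    · intro a b ha hb
      rw [add_mul]
      exact P.M.add_mem ha hb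
    · intro a ha
      rw [neg_mul]
      exact P.M.neg_mem ha
    · intro u v l
      refine AddSubgroup.subset_closure ⟨u :: v :: (l ++ [g]), by simp, ?_⟩
      simp [mul_assoc]
  exact h1 m hm

theorem mul_lam_mem {p m : A} (hp : p ∈ P.Lm) (hm : m ∈ P.M) : m * p ∈ P.M := by
  have h2 : p ∈ AddSubgroup.closure (Set.range (sqe P.ρ)) := hp
  induction h2 using AddSubgroup.closure_induction with
  | mem y hy =>
    obtain ⟨g, rfl⟩ := hy
    exact P.mul_t_mem hm g
  | zero =>
    rw [mul_zero]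
    exact P.M.zero_mem
  | add y z hy1 hz1 hy hz =>
    rw [mul_add]
    exact P.M.add_mem (hy hy1) (hz hz1)
  | neg y hy1 hy =>
    rw [mul_neg]
    exact P.M.neg_mem (hy hy1)

theorem mul_mem_M {m m' : A} (hm : m ∈ P.M) (hm' : m' ∈ P.M) : m * m' ∈ P.M := by
  have h0 : ∀ (l : List F) (y : A), y ∈ P.M → y * (l.map P.t).prod ∈ P.M := by
    intro l
    induction l with
    | nil =>
      intro y hy
      simpa using hy
    | cons g l ih =>
      intro y hy
      have := ih (y * P.t g) (P.mul_t_mem hy g)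
      simpa [mul_assoc] using this
  have h1 : ∀ m' ∈ P.M, m * m' ∈ P.M := by
    refine P.M_ind ?_ ?_ ?_ ?_
    · rw [mul_zero]
      exact P.M.zero_mem
    · intro a b ha hb
      rw [mul_add]
      exact P.M.add_mem ha hb
    · intro a ha
      rw [mul_neg]
      exact P.M.neg_mem ha
    · intro u v l
      have := h0 (u :: v :: l) m hm
      simpa [mul_assoc] using this
  exact h1 m' hm'

theorem lam_mul_lam_mem {p q : A} (hp : p ∈ P.Lm) (hq : q ∈ P.Lm) : p * q ∈ P.M := by
  have h1 : ∀ g : F, ∀ q ∈ AddSubgroup.closure (Set.range (sqe P.ρ)), P.t g * q ∈ P.M := by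
    intro g q hq
    induction hq using AddSubgroup.closure_induction with
    | mem y hy =>
      obtain ⟨h, rfl⟩ := hy
      exact P.tt_mem g h
    | zero =>
      rw [mul_zero]
      exact P.M.zero_mem
    | add y z _ _ hy hz =>
      rw [mul_add]
      exact P.M.add_mem hy hz
    | neg y _ hy =>
      rw [mul_neg]
      exact P.M.neg_mem hy
  have h2 : p ∈ AddSubgroup.closure (Set.range (sqe P.ρ)) := hp
  have h3 : ∀ p ∈ AddSubgroup.closure (Set.range (sqe P.ρ)), p * q ∈ P.M := by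
    intro p hp
    induction hp using AddSubgroup.closure_induction with
    | mem y hy =>
      obtain ⟨h, rfl⟩ := hy
      exact h1 h q hq
    | zero =>
      rw [zero_mul]
      exact P.M.zero_mem
    | add y z _ _ hy hz =>
      rw [add_mul]
      exact P.M.add_mem hy hz
    | neg y _ hy =>
      rw [neg_mul]
      exact P.M.neg_mem hy
  exact h3 p h2

/-- `q4` of elements of `Λ` is in `M` -/
theorem q4_mem {a b w v : A} (ha : a ∈ P.Lm) (hb : b ∈ P.Lm) (hw : w ∈ P.Lm) (hv : v ∈ P.Lm) :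
    q4 a b w v ∈ P.M := by
  have h4 : ∀ {c d e f : A}, c ∈ P.Lm → d ∈ P.Lm → e ∈ P.Lm → f ∈ P.Lm → c * d * e * f ∈ P.M := by
    intro c d e f hc hd he hf
    exact P.mul_lam_mem hf (P.mul_lam_mem he (P.lam_mul_lam_mem hc hd))
  unfold q4
  exact P.M.add_mem (P.M.add_mem (P.M.add_mem (P.M.add_mem (h4 ha hb hw hv) (h4 ha hb hv hw)) (h4 hw hb hv ha))
    (h4 hv ha hb hw)) (h4 hv hw hb ha)

/-- If `t(c) t(d) y = 0` for all `c, d` then `y = 0`.  PROOF: `left_zero` twice. -/
theorem tt_left_zero (y : A) (h : ∀ c d : F, P.t c * P.t d * y = 0) : y = 0 := by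
  refine P.left_zero y fun d => P.left_zero (P.t d * y) fun c => ?_
  rw [← mul_assoc]
  exact h c d

/-- If `y * (t(c) t(d)) = 0` for all `c, d` then `y = 0`.  PROOF: `right_zero` twice. -/
theorem tt_right_zero (y : A) (h : ∀ c d : F, y * (P.t c * P.t d) = 0) : y = 0 := by
  refine P.right_zero y fun c => P.right_zero (y * P.t c) fun d => ?_
  rw [mul_assoc]
  exact h c d

private theorem CenM_t (g : F) : P.t g ∈ P.Lm := sqe_mem g

private theorem CenM_ci {a b p q r s : A} (ha : a ∈ P.Lm) (hb : b ∈ P.Lm) (hp : p ∈ P.Lm) (hq : q ∈ P.Lm)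
    (hr : r ∈ P.Lm) (hs : s ∈ P.Lm) (m : A) : p * q * (q4 a b r s * m) = q4 a b p q * (r * s * m) := by
  have h1 : q * q4 a b r s = q4 a b q r * s := (q4_ci P.cub ha hb hq hr hs).symm
  have h2 : p * q4 a b q r = q4 a b p q * r := (q4_ci P.cub ha hb hp hq hr).symm
  calc p * q * (q4 a b r s * m) = p * (q * q4 a b r s) * m := by simp only [mul_assoc]
    _ = p * (q4 a b q r * s) * m := by rw [h1]
    _ = (p * q4 a b q r) * s * m := by simp only [mul_assoc]
    _ = (q4 a b p q * r) * s * m := by rw [h2]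
    _ = q4 a b p q * (r * s * m) := by simp only [mul_assoc]

/-- **Existence and uniqueness of `k(a,b) m`.**
PROOF.  Uniqueness: `tt_left_zero`.  Existence: `M_ind`; for `m = t(u) t(v) w`: `y = q4 a b (t u) (t v) * w` (in `M`: `q4_mem`, `mul_t_mem`) because by (CI) (`q4_ci`) twice
`t c * t d * q4 a b (t u) (t v) = t c * (q4 a b (t d) (t u) * t v) = q4 a b (t c) (t d) * t u * t v` (`q4 a b w v * u = w * q4 a b v u`). -/
theorem k_exu {a b : A} (ha : a ∈ P.Lm) (hb : b ∈ P.Lm) {m : A} (hm : m ∈ P.M) :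
    ∃! y : A, y ∈ P.M ∧ ∀ c d : F, P.t c * P.t d * y = q4 a b (P.t c) (P.t d) * m := by
  have huniq : ∀ y y' : A, (∀ c d : F, P.t c * P.t d * y = q4 a b (P.t c) (P.t d) * m) →
      (∀ c d : F, P.t c * P.t d * y' = q4 a b (P.t c) (P.t d) * m) → y = y' := by
    intro y y' h h'
    have h2 := P.tt_left_zero (y - y') fun c d => by rw [mul_sub, h, h', sub_self]
    exact sub_eq_zero.1 h2
  have hex : ∀ m ∈ P.M, ∃ y : A, y ∈ P.M ∧ ∀ c d : F, P.t c * P.t d * y = q4 a b (P.t c) (P.t d) * m := by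
    refine P.M_ind ?_ ?_ ?_ ?_
    · exact ⟨0, P.M.zero_mem, fun c d => by rw [mul_zero, mul_zero]⟩
    · rintro m m' ⟨y, hy, h⟩ ⟨y', hy', h'⟩
      exact ⟨y + y', P.M.add_mem hy hy', fun c d => by rw [mul_add, mul_add, h, h']⟩
    · rintro m ⟨y, hy, h⟩
      exact ⟨-y, P.M.neg_mem hy, fun c d => by rw [mul_neg, mul_neg, h]⟩
    · intro u v l
      refine ⟨q4 a b (P.t u) (P.t v) * (l.map P.t).prod, ?_, fun c d =>
        P.CenM_ci ha hb (P.CenM_t c) (P.CenM_t d) (P.CenM_t u) (P.CenM_t v) _⟩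
      have h0 : ∀ (l : List F) (y : A), y ∈ P.M → y * (l.map P.t).prod ∈ P.M := by
        intro l
        induction l with
        | nil =>
          intro y hy
          simpa using hy
        | cons g l ih =>
          intro y hy
          have := ih (y * P.t g) (P.mul_t_mem hy g)
          simpa [mul_assoc] using this
      exact h0 l _ (P.q4_mem ha hb (P.CenM_t u) (P.CenM_t v))
  obtain ⟨y, hy, h⟩ := hex m hm
  exact ⟨y, ⟨hy, h⟩, fun y' h' => huniq y' y h'.2 h⟩

/-- the function `k(a,b) : M → M` -/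
noncomputable def kf (a b : P.Lm) (m : P.M) : P.M :=
  ⟨(P.k_exu a.2 b.2 m.2).choose, (P.k_exu a.2 b.2 m.2).choose_spec.1.1⟩

theorem kf_spec (a b : P.Lm) (m : P.M) (c d : F) :
    P.t c * P.t d * (P.kf a b m : A) = q4 (a : A) b (P.t c) (P.t d) * m := by
  exact (P.k_exu a.2 b.2 m.2).choose_spec.1.2 c d

theorem kf_unique (a b : P.Lm) (m : P.M) (y : A)
    (h : ∀ c d : F, P.t c * P.t d * y = q4 (a : A) b (P.t c) (P.t d) * m) :
    (P.kf a b m : A) = y := by
  have h2 := P.tt_left_zero ((P.kf a b m : A) - y) fun c d => by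
    rw [mul_sub, P.kf_spec a b m c d, h, sub_self]
  exact sub_eq_zero.1 h2

/-- PROOF: `kf_unique` and (CI) as in `k_exu`. -/
theorem kf_tt (a b : P.Lm) (u v : F) (w : A) (h : P.t u * P.t v * w ∈ P.M) :
    (P.kf a b ⟨P.t u * P.t v * w, h⟩ : A) = q4 (a : A) b (P.t u) (P.t v) * w := by
  refine P.kf_unique a b _ _ fun c d => ?_
  exact P.CenM_ci a.2 b.2 (P.CenM_t c) (P.CenM_t d) (P.CenM_t u) (P.CenM_t v) w

/-- `k(a,b)(p q m) = q4(a,b,p,q) m` for `p, q ∈ Λ`. PROOF: `kf_unique`, (CI) twice with letters in `Λ`. -/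
theorem kf_pq (a b : P.Lm) (p q : P.Lm) (m : A) (h : (p : A) * q * m ∈ P.M) :
    (P.kf a b ⟨(p : A) * q * m, h⟩ : A) = q4 (a : A) b p q * m := by
  refine P.kf_unique a b _ _ fun c d => ?_
  exact P.CenM_ci a.2 b.2 (P.CenM_t c) (P.CenM_t d) p.2 q.2 m

end TPr

end E4
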