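import Pool.Agent.Lib.MP_8a95e3_al.CenM

/-!
# CenZ : the commutative ring `Z` of operators on `M`

All proofs of identities between operators: apply both sides to `m ∈ M`, use `kf_unique` / `kf_spec`, and the identities `q4_symm`, `br3_mul`, `q4_ci`.
-/

namespace E4

namespace TPr

variable {A : Type} [Ring A] (P : TPr A)

/-- operators on `M` -/
abbrev E0 : Type := AddMonoid.End P.M

/-- left multiplication by `p ∈ Λ` -/
def lm (p : P.Lm) : P.E0 where
  toFun m := ⟨(p : A) * m, P.lam_mul_mem p.2 m.2⟩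
  map_zero' := by
    apply Subtype.ext
    simp
  map_add' := by
    intro m m'
    apply Subtype.ext
    simp [mul_add]

/-- right multiplication by `t(g)` -/
def rm (g : F) : P.E0 where
  toFun m := ⟨(m : A) * P.t g, P.mul_t_mem m.2 g⟩
  map_zero' := by
    apply Subtype.ext
    simp
  map_add' := by
    intro m m'
    apply Subtype.ext
    simp [add_mul]

/-- `k(a,b)` as an operator.  PROOF of additivity: `kf_unique` with `y = kf m + kf m'`. -/
noncomputable def kop (a b : P.Lm) : P.E0 where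
  toFun m := P.kf a b m
  map_zero' := by
    apply Subtype.ext
    refine P.kf_unique a b 0 _ fun c d => ?_
    rw [ZeroMemClass.coe_zero, mul_zero, mul_zero]
  map_add' := by
    intro m m'
    apply Subtype.ext
    refine P.kf_unique a b (m + m') _ fun c d => ?_
    rw [AddSubgroup.coe_add, AddSubgroup.coe_add, mul_add, mul_add, P.kf_spec, P.kf_spec]

/-- `Z`: the operators commuting with all left multiplications by `Λ` and all right multiplications by `t(g)` -/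
def Zs : Subring P.E0 := Subring.centralizer (Set.range P.lm ∪ Set.range P.rm)

private theorem cz_t_mem (g : F) : P.t g ∈ P.Lm := sqe_mem g

private theorem cz_word_mem (u v : F) (l : List F) : P.t u * P.t v * (l.map P.t).prod ∈ P.M := by
  refine AddSubgroup.subset_closure ⟨u :: v :: l, ?_, ?_⟩
  · simp
  · rw [List.map_cons, List.map_cons, List.prod_cons, List.prod_cons, mul_assoc]

/-- endomorphisms which agree on the words are equal -/
private theorem cz_ext {f g : P.E0}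
    (h : ∀ (u v : F) (l : List F) (hm : P.t u * P.t v * (l.map P.t).prod ∈ P.M),
      (f ⟨P.t u * P.t v * (l.map P.t).prod, hm⟩ : A) = g ⟨P.t u * P.t v * (l.map P.t).prod, hm⟩) :
    f = g := by
  have key : ∀ m ∈ P.M, ∃ hm : m ∈ P.M, f ⟨m, hm⟩ = g ⟨m, hm⟩ := by
    refine P.M_ind (p := fun m => ∃ hm : m ∈ P.M, f ⟨m, hm⟩ = g ⟨m, hm⟩) ?_ ?_ ?_ ?_
    · exact ⟨P.M.zero_mem, (map_zero f).trans (map_zero g).symm⟩
    · rintro a b ⟨ha, ha'⟩ ⟨hb, hb'⟩
      exact ⟨P.M.add_mem ha hb, (map_add f ⟨a, ha⟩ ⟨b, hb⟩).trans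
        ((congrArg₂ (· + ·) ha' hb').trans (map_add g ⟨a, ha⟩ ⟨b, hb⟩).symm)⟩
    · rintro a ⟨ha, ha'⟩
      exact ⟨P.M.neg_mem ha, (map_neg f ⟨a, ha⟩).trans
        ((congrArg Neg.neg ha').trans (map_neg g ⟨a, ha⟩).symm)⟩
    · intro u v l
      exact ⟨P.cz_word_mem u v l, Subtype.ext (h u v l (P.cz_word_mem u v l))⟩
  refine AddMonoidHom.ext fun m => ?_
  obtain ⟨_, h1⟩ := key m m.2
  exact h1

private theorem cz_rm {z : P.E0} (hz : z ∈ P.Zs) (g : F) (m : P.M) :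
    (z (P.rm g m) : A) = (z m : A) * P.t g := by
  have h1 := Subring.mem_centralizer_iff.1 hz (P.rm g) (Or.inr ⟨g, rfl⟩)
  have h2 := congrArg (fun f : P.E0 => ((f m : P.M) : A)) h1
  exact h2.symm

private theorem cz_lm {z : P.E0} (hz : z ∈ P.Zs) (p : P.Lm) (m : P.M) :
    (z (P.lm p m) : A) = (p : A) * z m := by
  have h1 := Subring.mem_centralizer_iff.1 hz (P.lm p) (Or.inl ⟨p, rfl⟩)
  have h2 := congrArg (fun f : P.E0 => ((f m : P.M) : A)) h1
  exact h2.symm

private theorem cz_right_word {z : P.E0} (hz : z ∈ P.Zs) (l : List F) :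
    ∀ m : P.M, ∃ h : (m : A) * (l.map P.t).prod ∈ P.M,
      (z ⟨(m : A) * (l.map P.t).prod, h⟩ : A) = (z m : A) * (l.map P.t).prod := by
  induction l with
  | nil =>
    intro m
    have h0 : (m : A) * (([] : List F).map P.t).prod = m := by simp
    have hm : (m : A) * (([] : List F).map P.t).prod ∈ P.M := by rw [h0]; exact m.2
    refine ⟨hm, ?_⟩
    have h1 : (⟨(m : A) * (([] : List F).map P.t).prod, hm⟩ : P.M) = m := Subtype.ext h0
    rw [h1]
    simp
  | cons a l ih =>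
    intro m
    obtain ⟨h1, h2⟩ := ih (P.rm a m)
    have h0 : (m : A) * ((a :: l).map P.t).prod = (P.rm a m : A) * (l.map P.t).prod := by
      rw [List.map_cons, List.prod_cons, ← mul_assoc]
      rfl
    refine ⟨h0 ▸ h1, ?_⟩
    have h3 : (⟨(m : A) * ((a :: l).map P.t).prod, h0 ▸ h1⟩ : P.M) = ⟨(P.rm a m : A) * (l.map P.t).prod, h1⟩ :=
      Subtype.ext h0
    rw [h3, h2, P.cz_rm hz, List.map_cons, List.prod_cons, mul_assoc]

private theorem cz_left_word {z : P.E0} (hz : z ∈ P.Zs) (l : List F) (m : P.M) :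
    ∃ h : (l.map P.t).prod * (m : A) ∈ P.M,
      (z ⟨(l.map P.t).prod * (m : A), h⟩ : A) = (l.map P.t).prod * (z m : A) := by
  induction l with
  | nil =>
    have h0 : (([] : List F).map P.t).prod * (m : A) = m := by simp
    have hm : (([] : List F).map P.t).prod * (m : A) ∈ P.M := by rw [h0]; exact m.2
    refine ⟨hm, ?_⟩
    have h1 : (⟨(([] : List F).map P.t).prod * (m : A), hm⟩ : P.M) = m := Subtype.ext h0
    rw [h1]
    simp
  | cons a l ih =>
    obtain ⟨h1, h2⟩ := ih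
    have h0 : ((a :: l).map P.t).prod * (m : A)
        = (P.lm ⟨P.t a, P.cz_t_mem a⟩ ⟨(l.map P.t).prod * (m : A), h1⟩ : P.M) := by
      rw [List.map_cons, List.prod_cons, mul_assoc]
      rfl
    have h4 : ((a :: l).map P.t).prod * (m : A) ∈ P.M := by rw [h0]; exact Subtype.property _
    refine ⟨h4, ?_⟩
    have h3 : (⟨((a :: l).map P.t).prod * (m : A), h4⟩ : P.M)
        = P.lm ⟨P.t a, P.cz_t_mem a⟩ ⟨(l.map P.t).prod * (m : A), h1⟩ := Subtype.ext h0
    rw [h3, P.cz_lm hz, h2, List.map_cons, List.prod_cons, mul_assoc]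

/-- `z (m m') = z(m) m'` for `z ∈ Zs`, `m, m' ∈ M`; PROOF: closure induction on `m'` (words in `t`'s), `z` commutes with `rm g`. -/
theorem Zs_mul_right (z : P.E0) (hz : z ∈ P.Zs) (m m' : P.M) :
    (z ⟨(m : A) * m', P.mul_mem_M m.2 m'.2⟩ : A) = (z m : A) * m' := by
  have key : ∀ m' ∈ P.M, ∀ m : P.M, ∃ h : (m : A) * m' ∈ P.M, (z ⟨(m : A) * m', h⟩ : A) = (z m : A) * m' := by
    refine P.M_ind (p := fun m' => ∀ m : P.M, ∃ h : (m : A) * m' ∈ P.M,
      (z ⟨(m : A) * m', h⟩ : A) = (z m : A) * m') ?_ ?_ ?_ ?_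
    · intro m
      have h0 : (m : A) * 0 = ((0 : P.M) : A) := by simp
      refine ⟨h0 ▸ (0 : P.M).2, ?_⟩
      have h1 : (⟨(m : A) * 0, h0 ▸ (0 : P.M).2⟩ : P.M) = 0 := Subtype.ext h0
      rw [h1, map_zero, mul_zero]
      rfl
    · intro a b ha hb m
      obtain ⟨h1, h2⟩ := ha m
      obtain ⟨h3, h4⟩ := hb m
      have h0 : (m : A) * (a + b) = ((⟨(m : A) * a, h1⟩ + ⟨(m : A) * b, h3⟩ : P.M) : A) := mul_add _ _ _
      have h5 : (m : A) * (a + b) ∈ P.M := by rw [h0]; exact Subtype.property _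
      refine ⟨h5, ?_⟩
      have h6 : (⟨(m : A) * (a + b), h5⟩ : P.M) = ⟨(m : A) * a, h1⟩ + ⟨(m : A) * b, h3⟩ := Subtype.ext h0
      rw [h6, map_add, AddSubgroup.coe_add, h2, h4, mul_add]
    · intro a ha m
      obtain ⟨h1, h2⟩ := ha m
      have h0 : (m : A) * (-a) = ((-⟨(m : A) * a, h1⟩ : P.M) : A) := mul_neg _ _
      have h5 : (m : A) * (-a) ∈ P.M := by rw [h0]; exact Subtype.property _
      refine ⟨h5, ?_⟩
      have h6 : (⟨(m : A) * (-a), h5⟩ : P.M) = -⟨(m : A) * a, h1⟩ := Subtype.ext h0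
      rw [h6, map_neg, AddSubgroup.coe_neg, h2, mul_neg]
    · intro u v l m
      have h1 := P.cz_right_word hz (u :: v :: l) m
      have h2 : ((u :: v :: l).map P.t).prod = P.t u * P.t v * (l.map P.t).prod := by
        rw [List.map_cons, List.map_cons, List.prod_cons, List.prod_cons, mul_assoc]
      rw [h2] at h1
      exact h1
  obtain ⟨_, h⟩ := key m' m'.2 m
  exact h

/-- `z (m m') = m z(m')`; PROOF: closure induction on `m`, `z` commutes with `lm (t g)`. -/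
theorem Zs_mul_left (z : P.E0) (hz : z ∈ P.Zs) (m m' : P.M) :
    (z ⟨(m : A) * m', P.mul_mem_M m.2 m'.2⟩ : A) = (m : A) * z m' := by
  have key : ∀ m ∈ P.M, ∃ h : m * (m' : A) ∈ P.M, (z ⟨m * (m' : A), h⟩ : A) = m * (z m' : A) := by
    refine P.M_ind (p := fun m => ∃ h : m * (m' : A) ∈ P.M,
      (z ⟨m * (m' : A), h⟩ : A) = m * (z m' : A)) ?_ ?_ ?_ ?_
    · have h0 : 0 * (m' : A) = ((0 : P.M) : A) := by simp
      refine ⟨h0 ▸ (0 : P.M).2, ?_⟩
      have h1 : (⟨0 * (m' : A), h0 ▸ (0 : P.M).2⟩ : P.M) = 0 := Subtype.ext h0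
      rw [h1, map_zero, zero_mul]
      rfl
    · rintro a b ⟨h1, h2⟩ ⟨h3, h4⟩
      have h0 : (a + b) * (m' : A) = ((⟨a * (m' : A), h1⟩ + ⟨b * (m' : A), h3⟩ : P.M) : A) := add_mul _ _ _
      have h5 : (a + b) * (m' : A) ∈ P.M := by rw [h0]; exact Subtype.property _
      refine ⟨h5, ?_⟩
      have h6 : (⟨(a + b) * (m' : A), h5⟩ : P.M) = ⟨a * (m' : A), h1⟩ + ⟨b * (m' : A), h3⟩ := Subtype.ext h0
      rw [h6, map_add, AddSubgroup.coe_add, h2, h4, add_mul]
    · rintro a ⟨h1, h2⟩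
      have h0 : (-a) * (m' : A) = ((-⟨a * (m' : A), h1⟩ : P.M) : A) := neg_mul _ _
      have h5 : (-a) * (m' : A) ∈ P.M := by rw [h0]; exact Subtype.property _
      refine ⟨h5, ?_⟩
      have h6 : (⟨(-a) * (m' : A), h5⟩ : P.M) = -⟨a * (m' : A), h1⟩ := Subtype.ext h0
      rw [h6, map_neg, AddSubgroup.coe_neg, h2, neg_mul]
    · intro u v l
      have h1 := P.cz_left_word hz (u :: v :: l) m'
      have h2 : ((u :: v :: l).map P.t).prod = P.t u * P.t v * (l.map P.t).prod := by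
        rw [List.map_cons, List.map_cons, List.prod_cons, List.prod_cons, mul_assoc]
      rw [h2] at h1
      exact h1
  obtain ⟨_, h⟩ := key m m.2
  exact h

/-- **`Z` is commutative.**  PROOF: `z z'(m m') = z(m z'(m')) = z(m) z'(m')`, `z' z (m m') = z'(z(m) m') = z(m) z'(m')`.  So `y := z z' m - z' z m` satisfies `y * m' = 0` for all `m' ∈ M`, `tt_right_zero`. -/
theorem Zs_comm (z z' : P.Zs) : z * z' = z' * z := by
  obtain ⟨z, hz⟩ := z
  obtain ⟨z', hz'⟩ := z'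
  refine Subtype.ext (AddMonoidHom.ext fun m => Subtype.ext ?_)
  show (z (z' m) : A) = z' (z m)
  rw [← sub_eq_zero]
  refine P.tt_right_zero _ fun c d => ?_
  obtain ⟨m', hm'⟩ : ∃ m' : P.M, (m' : A) = P.t c * P.t d := ⟨⟨_, P.tt_mem c d⟩, rfl⟩
  rw [← hm', sub_mul, sub_eq_zero]
  have h1 : (z' m : A) * m' = (m : A) * z' m' := by
    rw [← P.Zs_mul_right z' hz' m m', P.Zs_mul_left z' hz' m m']
  have h2 : (⟨(z' m : A) * m', P.mul_mem_M (z' m).2 m'.2⟩ : P.M)
      = ⟨(m : A) * z' m', P.mul_mem_M m.2 (z' m').2⟩ := Subtype.ext h1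
  have h3 : (z (z' m) : A) * m' = (z m : A) * z' m' := by
    rw [← P.Zs_mul_right z hz (z' m) m', h2, P.Zs_mul_right z hz m (z' m')]
  have h4 : (z' (z m) : A) * m' = (z m : A) * z' m' := by
    rw [← P.Zs_mul_right z' hz' (z m) m', P.Zs_mul_left z' hz' (z m) m']
  rw [h3, h4]

/-- `k(a,b) ∈ Z`.
PROOF.  Commutes with `rm g`: `kf_unique` (`y = kf m * t g`).  Commutes with `lm p`: `k(a,b)(p m) = p k(a,b)(m)`: by `kf_unique` one needs `t c * t d * (p * kf m) = q4 a b (t c) (t d) * (p * m)`; by additivity in `m` (`M_ind`) let `m = t u * t v * w`, `kf m = q4 a b (t u) (t v) * w`; then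
`p * q4 a b (t u) (t v) = q4 a b p (t u) * t v` by (CI), and (CI) again twice: `t c * t d * q4 a b p (t u) = q4 a b (t c) (t d) * p * t u`. -/
theorem kop_mem (a b : P.Lm) : P.kop a b ∈ P.Zs := by
  refine Subring.mem_centralizer_iff.2 ?_
  rintro _ (⟨p, rfl⟩ | ⟨g, rfl⟩)
  · refine P.cz_ext fun u v l hm => ?_
    show (p : A) * (P.kf a b ⟨P.t u * P.t v * (l.map P.t).prod, hm⟩ : A)
      = (P.kf a b (P.lm p ⟨P.t u * P.t v * (l.map P.t).prod, hm⟩) : A)
    have h1 : (p : A) * (P.t u * P.t v * (l.map P.t).prod)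
        = (p : A) * ((⟨P.t u, P.cz_t_mem u⟩ : P.Lm) : A) * (P.t v * (l.map P.t).prod) := by
      simp only [mul_assoc]
    have h2 : (p : A) * ((⟨P.t u, P.cz_t_mem u⟩ : P.Lm) : A) * (P.t v * (l.map P.t).prod) ∈ P.M := by
      rw [← h1]
      exact P.lam_mul_mem p.2 hm
    have h3 : P.lm p ⟨P.t u * P.t v * (l.map P.t).prod, hm⟩
        = ⟨(p : A) * ((⟨P.t u, P.cz_t_mem u⟩ : P.Lm) : A) * (P.t v * (l.map P.t).prod), h2⟩ := Subtype.ext h1
    rw [h3, P.kf_pq, P.kf_tt, ← mul_assoc, ← mul_assoc]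
    show (p : A) * q4 (a : A) b (P.t u) (P.t v) * _ = q4 (a : A) b p (P.t u) * P.t v * _
    rw [q4_ci P.cub a.2 b.2 p.2 (P.cz_t_mem u) (P.cz_t_mem v)]
  · refine AddMonoidHom.ext fun m => Subtype.ext ?_
    show (P.kf a b m : A) * P.t g = (P.kf a b (P.rm g m) : A)
    refine (P.kf_unique a b (P.rm g m) _ fun c d => ?_).symm
    show P.t c * P.t d * ((P.kf a b m : A) * P.t g) = q4 (a : A) b (P.t c) (P.t d) * ((m : A) * P.t g)
    rw [← mul_assoc, P.kf_spec, mul_assoc]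

/-- `k(a,b) = k(b,a)`. PROOF: `q4_symm`, `kf_unique`. -/
theorem kop_symm (a b : P.Lm) : P.kop a b = P.kop b a := by
  refine AddMonoidHom.ext fun m => Subtype.ext ?_
  show (P.kf a b m : A) = P.kf b a m
  refine P.kf_unique a b m _ fun c d => ?_
  rw [P.kf_spec, q4_symm P.cub a.2 b.2 (P.cz_t_mem c) (P.cz_t_mem d)]

/-- PROOF: `q4` is additive in the first variable. -/
theorem kop_add (a a' b : P.Lm) : P.kop (a + a') b = P.kop a b + P.kop a' b := by
  refine AddMonoidHom.ext fun m => Subtype.ext ?_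
  show (P.kf (a + a') b m : A) = (P.kf a b m : A) + P.kf a' b m
  refine P.kf_unique (a + a') b m _ fun c d => ?_
  rw [mul_add, P.kf_spec, P.kf_spec, ← add_mul, AddSubgroup.coe_add]
  congr 1
  unfold q4
  noncomm_ring

/-- the bracket on `Λ` -/
def bL (p q : P.Lm) : P.Lm := ⟨br (p : A) q, br_mem P.cub p.2 q.2⟩

/-- **(R1)** `l([[a,b],c]) = k(b,c) l(a) + k(a,c) l(b)`.
PROOF.  Apply to `m ∈ M`, by `M_ind` `m = t u * (t v * w)`.  Left side: `[[a,b],c] * t u * (t v * w) = (q4 b c a (t u) + q4 a c b (t u)) * (t v * w)` (`br3_mul`).  Right side: `k(b,c)(a * m) = k(b,c)(a * t u * (t v * w)) = q4 b c a (t u) * (t v * w)` by `kf_pq`, and similarly for the other term. -/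
theorem R1_op (a b c : P.Lm) :
    P.lm (P.bL (P.bL a b) c) = P.kop b c * P.lm a + P.kop a c * P.lm b := by
  refine P.cz_ext fun u v l hm => ?_
  show br (br (a : A) b) c * (P.t u * P.t v * (l.map P.t).prod)
    = (P.kf b c (P.lm a ⟨P.t u * P.t v * (l.map P.t).prod, hm⟩) : A)
      + P.kf a c (P.lm b ⟨P.t u * P.t v * (l.map P.t).prod, hm⟩)
  have key : ∀ x y p : P.Lm, (P.kf x y (P.lm p ⟨P.t u * P.t v * (l.map P.t).prod, hm⟩) : A)
      = q4 (x : A) y p (P.t u) * (P.t v * (l.map P.t).prod) := by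
    intro x y p
    have h1 : (p : A) * (P.t u * P.t v * (l.map P.t).prod)
        = (p : A) * ((⟨P.t u, P.cz_t_mem u⟩ : P.Lm) : A) * (P.t v * (l.map P.t).prod) := by
      simp only [mul_assoc]
    have h2 : (p : A) * ((⟨P.t u, P.cz_t_mem u⟩ : P.Lm) : A) * (P.t v * (l.map P.t).prod) ∈ P.M := by
      rw [← h1]
      exact P.lam_mul_mem p.2 hm
    have h3 : P.lm p ⟨P.t u * P.t v * (l.map P.t).prod, hm⟩
        = ⟨(p : A) * ((⟨P.t u, P.cz_t_mem u⟩ : P.Lm) : A) * (P.t v * (l.map P.t).prod), h2⟩ := Subtype.ext h1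
    rw [h3, P.kf_pq]
  rw [key, key, ← add_mul, ← br3_mul P.cub a.2 b.2 c.2 (P.cz_t_mem u)]
  simp only [mul_assoc]

/-- **faithfulness**: `z l(s) = 0` for all `s ∈ Λ` implies `z = 0` (`z ∈ Zs`).
PROOF. `z (t u * m) = 0` for all `u`, `m ∈ M`, and `z (t u * m) = t u * z m` (`z` commutes with `lm`), so `z m = 0` by `left_zero`. -/
theorem faith_op (z : P.E0) (hz : z ∈ P.Zs) (h : ∀ s : P.Lm, z * P.lm s = 0) : z = 0 := by
  refine AddMonoidHom.ext fun m => Subtype.ext ?_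
  show (z m : A) = 0
  refine P.left_zero _ fun g => ?_
  have h1 := congrArg (fun f : P.E0 => ((f m : P.M) : A)) (h ⟨P.t g, P.cz_t_mem g⟩)
  rw [← P.cz_lm hz ⟨P.t g, P.cz_t_mem g⟩ m]
  exact h1

end TPr

end E4
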