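import Pool.Agent.Lib.MP_8a95e3_al.SymV

/-!
# LieEx : Lie monomials are values of expressions
-/

namespace E4

private def LieEx_b (j : ℕ) : Sm → List Sm
  | ⟨ps, Tl.one i⟩ => [⟨ps, Tl.two i j⟩]
  | ⟨ps, Tl.two i i'⟩ => [⟨(i', j) :: ps, Tl.one i⟩, ⟨(i, j) :: ps, Tl.one i'⟩]

private theorem LieEx_lets (j : ℕ) (z : Sm) : ∀ z' ∈ LieEx_b j z, z'.lets = j ::ₘ z.lets := by
  rcases z with ⟨ps, tl⟩
  cases tl with
  | one i =>
    intro z' hz'
    rw [LieEx_b, List.mem_singleton] at hz'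
    subst hz'
    show pletters ps + ({i, j} : Multiset ℕ) = j ::ₘ (pletters ps + {i})
    rw [← Multiset.singleton_add, show ({i, j} : Multiset ℕ) = {i} + {j} from rfl]
    abel
  | two i i' =>
    intro z' hz'
    rw [LieEx_b, List.mem_cons, List.mem_singleton] at hz'
    rcases hz' with hz' | hz'
    · subst hz'
      rw [lets_cons]
      show i' ::ₘ j ::ₘ (pletters ps + {i}) = j ::ₘ (pletters ps + ({i, i'} : Multiset ℕ))
      rw [← Multiset.singleton_add, ← Multiset.singleton_add, ← Multiset.singleton_add,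
        show ({i, i'} : Multiset ℕ) = {i} + {i'} from rfl]
      abel
    · subst hz'
      rw [lets_cons]
      show i ::ₘ j ::ₘ (pletters ps + {i'}) = j ::ₘ (pletters ps + ({i, i'} : Multiset ℕ))
      rw [← Multiset.singleton_add, ← Multiset.singleton_add, ← Multiset.singleton_add,
        show ({i, i'} : Multiset ℕ) = {i} + {i'} from rfl]
      abel

private theorem LieEx_val {L Z E : Type} [AddCommGroup L] [CommRing Z] [AddCommGroup E]
    [Module Z E] (K : KAlg L Z E) (p : ℕ → L) (j : ℕ) (z : Sm) :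
    K.D (p j) (z.val K p) = evx K p (LieEx_b j z) := by
  rcases z with ⟨ps, tl⟩
  cases tl with
  | one i =>
    show K.D (p j) (pval K p ps • K.l (p i)) =
      (List.map (Sm.val K p) [⟨ps, Tl.two i j⟩]).sum
    rw [List.map_singleton, List.sum_singleton, map_smul, K.D_l]
    rfl
  | two i i' =>
    show K.D (p j) (pval K p ps • K.l (K.b (p i) (p i'))) =
      (List.map (Sm.val K p) [⟨(i', j) :: ps, Tl.one i⟩, ⟨(i, j) :: ps, Tl.one i'⟩]).sum
    rw [List.map_cons, List.map_singleton, List.sum_cons, List.sum_singleton, val_cons, val_cons,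
      map_smul, K.D_l, K.R1, smul_add, smul_comm (pval K p ps), smul_comm (pval K p ps)]
    rfl

/-- bracketing an expression with a letter `j`.

PROOF.  For a symbol `⟨ps, one i⟩`: `D (p j)` of its value is `(pairs) l([i,j])`: symbol `⟨ps, two i j⟩`.  For `⟨ps, two i i'⟩`: `(pairs) l([[i,i'],j]) = (pairs)(k(i',j) l(i) + k(i,j) l(i'))`: symbols `⟨(i',j) :: ps, one i⟩`, `⟨(i,j) :: ps, one i'⟩`.
Concatenate over `s` (`D (p j)` is additive and `Z`-linear). -/
theorem brk (s : List Sm) (j : ℕ) :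
    ∃ s' : List Sm, (∀ z' ∈ s', ∃ z ∈ s, z'.lets = j ::ₘ z.lets) ∧
      ∀ {L Z E : Type} [AddCommGroup L] [CommRing Z] [AddCommGroup E] [Module Z E]
        (K : KAlg L Z E) (p : ℕ → L), K.D (p j) (evx K p s) = evx K p s' := by
  refine ⟨s.flatMap (LieEx_b j), ?_, ?_⟩
  · intro z' hz'
    rw [List.mem_flatMap] at hz'
    obtain ⟨z, hz, hz'⟩ := hz'
    exact ⟨z, hz, LieEx_lets j z z' hz'⟩
  · intro L Z E _ _ _ _ K p
    induction s with
    | nil =>
      show K.D (p j) 0 = 0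
      exact map_zero _
    | cons z s ih =>
      rw [List.flatMap_cons, evx_append, ← ih, ← LieEx_val, ← map_add]
      rfl

/-- left normed monomials.  PROOF: induction on `js` (from the right: `List.reverseRecOn`), `brk`, `D_l`; start `[⟨[], one 0⟩]`. -/
theorem lie_ex (js : List ℕ) :
    ∃ s : List Sm, (∀ z ∈ s, z.lets = 0 ::ₘ (js : Multiset ℕ)) ∧
      ∀ {L Z E : Type} [AddCommGroup L] [CommRing Z] [AddCommGroup E] [Module Z E]
        (K : KAlg L Z E) (p : ℕ → L), K.l (lie K p js) = evx K p s := by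
  induction js using List.reverseRecOn with
  | nil =>
    refine ⟨[⟨[], Tl.one 0⟩], ?_, ?_⟩
    · intro z hz
      rw [List.mem_singleton] at hz
      subst hz
      rfl
    · intro L Z E _ _ _ _ K p
      show K.l (p 0) = (List.map (Sm.val K p) [⟨[], Tl.one 0⟩]).sum
      rw [List.map_singleton, List.sum_singleton]
      show K.l (p 0) = (1 : Z) • K.l (p 0)
      rw [one_smul]
  | append_singleton js j ih =>
    obtain ⟨s, hs, hv⟩ := ih
    obtain ⟨s', hs', hv'⟩ := brk s j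
    refine ⟨s', ?_, ?_⟩
    · intro z' hz'
      obtain ⟨z, hz, h1⟩ := hs' z' hz'
      rw [h1, hs z hz, ← Multiset.coe_add, ← Multiset.singleton_add, ← Multiset.singleton_add,
        ← Multiset.singleton_add, show (([j] : List ℕ) : Multiset ℕ) = {j} from rfl]
      abel
    · intro L Z E _ _ _ _ K p
      rw [← hv', ← hv, K.D_l]
      congr 1
      unfold lie
      rw [List.foldl_append]
      rfl

private theorem LieEx_good {n j : ℕ} (hj : j = n) {s s' : List Sm} (hs : Good n s)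
    (h : ∀ z' ∈ s', ∃ z ∈ s, z'.lets = j ::ₘ z.lets) : Good (n + 1) s' := by
  intro z' hz'
  obtain ⟨z, hz, h1⟩ := h z' hz'
  rw [h1, hs z hz, hj, Multiset.range_succ]

private theorem LieEx_good2 {n a b : ℕ} (hab : (a = n ∧ b = n + 1) ∨ (a = n + 1 ∧ b = n))
    {s s1 s2 : List Sm} (hs : Good n s) (h1 : ∀ z' ∈ s1, ∃ z ∈ s, z'.lets = a ::ₘ z.lets)
    (h2 : ∀ z' ∈ s2, ∃ z ∈ s1, z'.lets = b ::ₘ z.lets) : Good (n + 2) s2 := by
  intro z' hz'
  obtain ⟨z, hz, h3⟩ := h2 z' hz'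
  obtain ⟨y, hy, h4⟩ := h1 z hz
  rw [h3, h4, hs y hy, Multiset.range_succ, Multiset.range_succ]
  rcases hab with ⟨rfl, rfl⟩ | ⟨rfl, rfl⟩
  · rfl
  · exact Multiset.cons_swap _ _ _

/-- `l(XX m)` is the value of an expression on the letters `0..2m`.
PROOF.  Induction on `m`; `[XX m, [a,b]] = [[XX m, a],b] + [[XX m, b],a]` (Jacobi, `a = p_{2m+1}`, `b = p_{2m+2}`): `brk` twice in both orders, append. -/
theorem XX_ex (m : ℕ) :
    ∃ s : List Sm, Good (2 * m + 1) s ∧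
      ∀ {L Z E : Type} [AddCommGroup L] [CommRing Z] [AddCommGroup E] [Module Z E]
        (K : KAlg L Z E) (p : ℕ → L), K.l (XX K p m) = evx K p s := by
  induction m with
  | zero =>
    refine ⟨[⟨[], Tl.one 0⟩], ?_, ?_⟩
    · intro z hz
      rw [List.mem_singleton] at hz
      subst hz
      rfl
    · intro L Z E _ _ _ _ K p
      show K.l (p 0) = (List.map (Sm.val K p) [⟨[], Tl.one 0⟩]).sum
      rw [List.map_singleton, List.sum_singleton]
      show K.l (p 0) = (1 : Z) • K.l (p 0)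
      rw [one_smul]
  | succ m ih =>
    obtain ⟨s, hs, hv⟩ := ih
    obtain ⟨s1, hs1, hv1⟩ := brk s (2 * m + 1)
    obtain ⟨s2, hs2, hv2⟩ := brk s1 (2 * m + 2)
    obtain ⟨s3, hs3, hv3⟩ := brk s (2 * m + 2)
    obtain ⟨s4, hs4, hv4⟩ := brk s3 (2 * m + 1)
    refine ⟨s2 ++ s4, ?_, ?_⟩
    · intro z hz
      rw [List.mem_append] at hz
      rcases hz with hz | hz
      · exact LieEx_good2 (Or.inl ⟨rfl, rfl⟩) hs hs1 hs2 z hz
      · exact LieEx_good2 (Or.inr ⟨rfl, rfl⟩) hs hs3 hs4 z hz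
    · intro L Z E _ _ _ _ K p
      rw [evx_append, ← hv2, ← hv1, ← hv4, ← hv3, ← hv, K.D_l, K.D_l, K.D_l, K.D_l, ← K.l_add,
        K.symB, K.b_comm (p (2 * m + 2)) (p (2 * m + 1))]
      rfl

/-- `l(AA m)`: PROOF: `brk` with `j = 2m+1`. -/
theorem AA_ex (m : ℕ) :
    ∃ s : List Sm, Good (2 * m + 2) s ∧
      ∀ {L Z E : Type} [AddCommGroup L] [CommRing Z] [AddCommGroup E] [Module Z E]
        (K : KAlg L Z E) (p : ℕ → L), K.l (AA K p m) = evx K p s := by
  obtain ⟨s, hs, hv⟩ := XX_ex m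
  obtain ⟨s1, hs1, hv1⟩ := brk s (2 * m + 1)
  refine ⟨s1, LieEx_good rfl hs hs1, ?_⟩
  intro L Z E _ _ _ _ K p
  rw [← hv1, ← hv, K.D_l]
  rfl

/-- `l([[XX m, p_{2m+2}], p_{2m+1}])`: PROOF: `brk` with `j = 2m+2`, then `j = 2m+1`. -/
theorem XYA_ex (m : ℕ) :
    ∃ s : List Sm, Good (2 * m + 3) s ∧
      ∀ {L Z E : Type} [AddCommGroup L] [CommRing Z] [AddCommGroup E] [Module Z E]
        (K : KAlg L Z E) (p : ℕ → L),
        K.l (K.b (K.b (XX K p m) (p (2 * m + 2))) (p (2 * m + 1))) = evx K p s := by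
  obtain ⟨s, hs, hv⟩ := XX_ex m
  obtain ⟨s1, hs1, hv1⟩ := brk s (2 * m + 2)
  obtain ⟨s2, hs2, hv2⟩ := brk s1 (2 * m + 1)
  refine ⟨s2, LieEx_good2 (Or.inr ⟨rfl, rfl⟩) hs hs1 hs2, ?_⟩
  intro L Z E _ _ _ _ K p
  rw [← hv2, ← hv1, ← hv, K.D_l, K.D_l]

end E4
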