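import Pool.Agent.Lib.MP_8a95e3_al.CapF
import Pool.Agent.Lib.MP_8a95e3_al.LieEx

/-!
# Chain : the chain argument
-/

namespace E4

section

variable {L Z E : Type} [AddCommGroup L] [CommRing Z] [AddCommGroup E] [Module Z E]

/-- `XX m` depends only on the letters `≤ 2m`. -/
theorem XX_congr (K : KAlg L Z E) (m : ℕ) (p p' : ℕ → L) (h : ∀ i ≤ 2 * m, p i = p' i) :
    XX K p m = XX K p' m := by
  induction m with
  | zero => exact h 0 (by omega)
  | succ m ih =>
    show K.b (XX K p m) (K.b (p (2 * m + 1)) (p (2 * m + 2))) = K.b (XX K p' m) (K.b (p' (2 * m + 1)) (p' (2 * m + 2)))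
    rw [ih fun i hi => h i (by omega), h (2 * m + 1) (by omega), h (2 * m + 2) (by omega)]

/-- First cap of `l(AA (m+1))`: with `n = 2m+2`,
`l(AA(m+1)(p_n = u, p_{n+1} = v)) + l(AA(m+1)(p_n = v, p_{n+1} = u)) = l([[XX m, [u,v]], p_{2m+1}])`.  PROOF: `AA (m+1) = [[XX m, [p_{2m+1}, p_{2m+2}]], p_{2m+3}]`, `K.symA`, `XX_congr`. -/
theorem capA (K : KAlg L Z E) (m : ℕ) (p : ℕ → L) (u v : L) :
    K.l (AA K (Function.update (Function.update p (2 * m + 2) u) (2 * m + 3) v) (m + 1))
      + K.l (AA K (Function.update (Function.update p (2 * m + 2) v) (2 * m + 3) u) (m + 1))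
      = K.l (K.b (K.b (XX K p m) (K.b u v)) (p (2 * m + 1))) := by
  have key : ∀ x y : L, AA K (Function.update (Function.update p (2 * m + 2) x) (2 * m + 3) y) (m + 1) =
      K.b (K.b (XX K p m) (K.b (p (2 * m + 1)) x)) y := by
    intro x y
    obtain ⟨P, hP⟩ : ∃ P : ℕ → L, P = Function.update (Function.update p (2 * m + 2) x) (2 * m + 3) y := ⟨_, rfl⟩
    rw [← hP]
    have e1 : P (2 * m + 1) = p (2 * m + 1) := by
      rw [hP, Function.update_of_ne (by omega), Function.update_of_ne (by omega)]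
    have e2 : P (2 * m + 2) = x := by
      rw [hP, Function.update_of_ne (by omega), Function.update_self]
    have e3 : P (2 * m + 3) = y := by
      rw [hP, Function.update_self]
    have e4 : XX K P m = XX K p m := XX_congr K m P p fun i hi => by
      rw [hP, Function.update_of_ne (by omega), Function.update_of_ne (by omega)]
    show K.b (K.b (XX K P m) (K.b (P (2 * m + 1)) (P (2 * m + 2)))) (P (2 * m + 3)) = _
    rw [e1, e2, e3, e4]
  rw [key, key]
  exact K.symA _ _ _ _

end

theorem Chain_pcard (ps : List (ℕ × ℕ)) : Multiset.card (pletters ps) = 2 * ps.length := by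
  induction ps with
  | nil => rfl
  | cons ij ps ih =>
    have e : pletters (ij :: ps) = ({ij.1, ij.2} : Multiset ℕ) + pletters ps := by
      unfold pletters
      rw [List.map_cons, List.sum_cons]
    rw [e, Multiset.card_add, ih, List.length_cons]
    show 2 + _ = _
    omega

theorem Chain_two (z : Sm) (h : z.lets = Multiset.range 2) : z = ⟨[], Tl.two 0 1⟩ ∨ z = ⟨[], Tl.two 1 0⟩ := by
  obtain ⟨ps, tl⟩ := z
  have hc : Multiset.card (pletters ps) + Multiset.card tl.lets = 2 := by
    have h1 := congrArg Multiset.card h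
    rw [Multiset.card_range] at h1
    have h2 : Multiset.card (pletters ps + tl.lets) = 2 := h1
    rwa [Multiset.card_add] at h2
  rw [Chain_pcard] at hc
  cases tl with
  | one i =>
    exfalso
    have h2 : Multiset.card (Tl.one i).lets = 1 := rfl
    omega
  | two i j =>
    have h2 : Multiset.card (Tl.two i j).lets = 2 := rfl
    have h3 : ps = [] := List.length_eq_zero_iff.1 (by omega)
    subst h3
    have h4 : (({i, j} : Multiset ℕ)) = Multiset.range 2 := by
      have h5 : (0 : Multiset ℕ) + {i, j} = Multiset.range 2 := h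
      rwa [zero_add] at h5
    have hi : i ∈ Multiset.range 2 := by rw [← h4]; exact Multiset.mem_cons_self _ _
    have hj : j ∈ Multiset.range 2 := by
      rw [← h4]; exact Multiset.mem_cons_of_mem (Multiset.mem_singleton_self _)
    have hnd : i ≠ j := by
      intro hij
      subst hij
      have h6 := Multiset.nodup_range 2
      rw [← h4] at h6
      exact (Multiset.nodup_cons.1 h6).1 (Multiset.mem_singleton_self _)
    rw [Multiset.mem_range] at hi hj
    have h7 : (i = 0 ∧ j = 1) ∨ (i = 1 ∧ j = 0) := by omega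
    rcases h7 with ⟨rfl, rfl⟩ | ⟨rfl, rfl⟩
    · left; rfl
    · right; rfl

theorem Chain_val {L Z E : Type} [AddCommGroup L] [CommRing Z] [AddCommGroup E] [Module Z E] (K : KAlg L Z E)
    (s : List Sm) (hs : Good 2 s) (p : ℕ → L) : evx K p s = s.length • K.l (K.b (p 0) (p 1)) := by
  induction s with
  | nil => exact (zero_smul ℕ _).symm
  | cons z s ih =>
    have h1 : evx K p (z :: s) = Sm.val K p z + evx K p s := by
      unfold evx
      rw [List.map_cons, List.sum_cons]
    have h2 : Sm.val K p z = K.l (K.b (p 0) (p 1)) := by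
      have h3 : ∀ i j, Sm.val K p ⟨[], Tl.two i j⟩ = K.l (K.b (p i) (p j)) := by
        intro i j
        show (1 : Z) • K.l (K.b (p i) (p j)) = _
        rw [one_smul]
      rcases Chain_two z (hs z List.mem_cons_self) with rfl | rfl
      · exact h3 0 1
      · rw [h3 1 0, K.b_comm]
    rw [h1, h2, ih fun z' hz' => hs z' (List.mem_cons_of_mem _ hz'), List.length_cons, succ_nsmul, add_comm]

theorem Chain_even {L Z E : Type} [AddCommGroup L] [CommRing Z] [AddCommGroup E] [Module Z E] (K : KAlg L Z E)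
    {n : ℕ} (hn : Even n) {e : E} : n • e = 0 := by
  obtain ⟨m, rfl⟩ := hn
  rw [add_nsmul]
  exact K.two_E _

theorem Chain_odd {L Z E : Type} [AddCommGroup L] [CommRing Z] [AddCommGroup E] [Module Z E] (K : KAlg L Z E)
    {n : ℕ} (hn : Odd n) {e : E} : n • e = e := by
  obtain ⟨m, rfl⟩ := hn
  rw [add_nsmul, Chain_even K (even_two_mul m), one_nsmul, zero_add]

/-- base case of the chain argument.
PROOF.  A symbol with letters `{0,1}` is `⟨[], two 0 1⟩` or `⟨[], two 1 0⟩` (a pair uses two letters and the tail at least one), with value `l([p_0,p_1])`.  So `evx K p s = (s.length) • l([p_0,p_1])` for every `K`.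
If `s.length` is even, `evx = 0` by `two_E`, so in `K₂` `l(AA 0) = l([p_0,p_1]) = 0` for all `p`, contradiction to `n₂`.  If it is odd, `evx = l([p_0,p_1])`, which vanishes in `K₁`: contradiction to `n₁`. -/
theorem chain_base {L₁ Z₁ E₁ L₂ Z₂ E₂ : Type}
    [AddCommGroup L₁] [CommRing Z₁] [AddCommGroup E₁] [Module Z₁ E₁]
    [AddCommGroup L₂] [CommRing Z₂] [AddCommGroup E₂] [Module Z₂ E₂]
    (K₁ : KAlg L₁ Z₁ E₁) (K₂ : KAlg L₂ Z₂ E₂)
    (n₁ : ∃ p q, K₁.l (K₁.b p q) ≠ 0) (n₂ : ∃ p q, K₂.l (K₂.b p q) ≠ 0)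
    (s : List Sm) (hs : Good 2 s)
    (z₁ : ∀ p, evx K₁ p s = 0) (z₂ : ∀ p, evx K₂ p s = K₂.l (AA K₂ p 0)) : False := by
  rcases Nat.even_or_odd s.length with h | h
  · obtain ⟨a, b, hab⟩ := n₂
    refine hab ?_
    have h1 := z₂ (fun i => if i = 0 then a else b)
    rw [Chain_val K₂ s hs, Chain_even K₂ h] at h1
    exact h1.symm
  · obtain ⟨a, b, hab⟩ := n₁
    refine hab ?_
    have h1 := z₁ (fun i => if i = 0 then a else b)
    rw [Chain_val K₁ s hs, Chain_odd K₁ h] at h1
    exact h1

/-- **Chain argument.**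

PROOF.  Induction on `m`, for all `s`.  `m = 0`: `chain_base`.  `m + 1`: put `n = 2m+2`, `s : Good (n+2)`.  Let `s'` be the cap of `s` (`cap n s`), `Good (n+1) s'`.
In `K₁`: `evx K₁ (update p n [u,v]) s' = 0 + 0`, so by (T1) `evx K₁ p s' = 0` for all `p`.
In `K₂`: `evx K₂ (update p n [u,v]) s' = l([[XX m, [u,v]], p_{2m+1}])` (`capA`).  Let `e` be the expression of `XYA_ex m` (`Good (2m+3)`), so `evx K₂ p e = l([[XX m, p_n], p_{2m+1}])`; then `evx K₂ (update p n [u,v]) (s' ++ e) = 0` (characteristic two; `XX_congr`), so by (T1)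
`evx K₂ p s' = l([[XX m, p_{2m+2}], p_{2m+1}])` for all `p`.
Second cap, `n' = 2m+1`, `s' : Good (n'+2)`: `s''`, `Good (n'+1) s''`, `2m+2 = n'+1`.  In `K₁`: zero on brackets, so zero by (T1).  In `K₂`: `evx K₂ (update p n' [u,v]) s'' = l([[XX m, v],u]) + l([[XX m,u],v]) = l([XX m,[u,v]])` (`symB`; values of `s'` at `p_{2m+1} = u, p_{2m+2} = v` and exchanged).
With the expression of `AA_ex m` (`l([XX m, p_{2m+1}]) = l(AA m)`) and (T1): `evx K₂ p s'' = l(AA m)`.  The induction hypothesis for `s''` gives `False`. -/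
theorem chain {L₁ Z₁ E₁ L₂ Z₂ E₂ : Type}
    [AddCommGroup L₁] [CommRing Z₁] [AddCommGroup E₁] [Module Z₁ E₁]
    [AddCommGroup L₂] [CommRing Z₂] [AddCommGroup E₂] [Module Z₂ E₂]
    (K₁ : KAlg L₁ Z₁ E₁) (K₂ : KAlg L₂ Z₂ E₂) (h₁ : T1P K₁) (h₂ : T1P K₂)
    (n₁ : ∃ p q, K₁.l (K₁.b p q) ≠ 0) (n₂ : ∃ p q, K₂.l (K₂.b p q) ≠ 0)
    (m : ℕ) (s : List Sm) (hs : Good (2 * m + 2) s)
    (z₁ : ∀ p, evx K₁ p s = 0) (z₂ : ∀ p, evx K₂ p s = K₂.l (AA K₂ p m)) : False := by
  induction m generalizing s with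
  | zero => exact chain_base K₁ K₂ n₁ n₂ s hs z₁ z₂
  | succ m ih =>
    have hadd : ∀ x y : E₂, x + y = 0 → x = y := by
      intro x y hxy
      have h2 := K₂.two_E y
      exact add_right_cancel (hxy.trans h2.symm)
    have happ : ∀ {n : ℕ} {t t' : List Sm}, Good n t → Good n t' → Good n (t ++ t') := by
      intro n t t' ht ht' z hz
      rcases List.mem_append.1 hz with h | h
      · exact ht z h
      · exact ht' z h
    obtain ⟨s', hs', hcap'⟩ := cap (2 * m + 2) s hs
    have hz1' : ∀ p, evx K₁ p s' = 0 := h₁ (2 * m + 2) s' hs' fun p u v => by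
      rw [← hcap' K₁ p u v, z₁, z₁, add_zero]
    obtain ⟨e, he, hev⟩ := XYA_ex m
    have hz2' : ∀ p, evx K₂ p s' = K₂.l (K₂.b (K₂.b (XX K₂ p m) (p (2 * m + 2))) (p (2 * m + 1))) := by
      intro p
      rw [hev K₂ p]
      refine hadd _ _ ?_
      rw [← evx_append]
      refine h₂ (2 * m + 2) (s' ++ e) (happ hs' he) ?_ p
      intro p u v
      rw [evx_append, ← hcap' K₂ p u v, z₂, z₂, ← hev K₂]
      have e1 : K₂.l (AA K₂ (Function.update (Function.update p (2 * m + 2) u) (2 * m + 2 + 1) v) (m + 1))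
          + K₂.l (AA K₂ (Function.update (Function.update p (2 * m + 2) v) (2 * m + 2 + 1) u) (m + 1)) =
          K₂.l (K₂.b (K₂.b (XX K₂ p m) (K₂.b u v)) (p (2 * m + 1))) := capA K₂ m p u v
      rw [e1, Function.update_self, Function.update_of_ne (by omega : 2 * m + 1 ≠ 2 * m + 2),
        XX_congr K₂ m (Function.update p (2 * m + 2) (K₂.b u v)) p fun i hi => Function.update_of_ne (by omega) _ _]
      exact K₂.two_E _
    obtain ⟨s'', hs'', hcap''⟩ := cap (2 * m + 1) s' hs'
    have hz1'' : ∀ p, evx K₁ p s'' = 0 := h₁ (2 * m + 1) s'' hs'' fun p u v => by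
      rw [← hcap'' K₁ p u v, hz1', hz1', add_zero]
    obtain ⟨e2, he2, hev2⟩ := AA_ex m
    have hz2'' : ∀ p, evx K₂ p s'' = K₂.l (AA K₂ p m) := by
      intro p
      rw [hev2 K₂ p]
      refine hadd _ _ ?_
      rw [← evx_append]
      refine h₂ (2 * m + 1) (s'' ++ e2) (happ hs'' he2) ?_ p
      intro p u v
      have key : ∀ x y : L₂, evx K₂ (Function.update (Function.update p (2 * m + 1) x) (2 * m + 1 + 1) y) s' =
          K₂.l (K₂.b (K₂.b (XX K₂ p m) y) x) := by
        intro x y
        rw [hz2']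
        have e5 : (2 * m + 1 + 1) = 2 * m + 2 := rfl
        rw [e5, Function.update_self, Function.update_of_ne (by omega : 2 * m + 1 ≠ 2 * m + 2), Function.update_self,
          XX_congr K₂ m (Function.update (Function.update p (2 * m + 1) x) (2 * m + 2) y) p fun i hi => by
            rw [Function.update_of_ne (by omega), Function.update_of_ne (by omega)]]
      have e3 : AA K₂ (Function.update p (2 * m + 1) (K₂.b u v)) m = K₂.b (XX K₂ p m) (K₂.b u v) := by
        show K₂.b (XX K₂ (Function.update p (2 * m + 1) (K₂.b u v)) m)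
          (Function.update p (2 * m + 1) (K₂.b u v) (2 * m + 1)) = _
        rw [Function.update_self,
          XX_congr K₂ m (Function.update p (2 * m + 1) (K₂.b u v)) p fun i hi => Function.update_of_ne (by omega) _ _]
      rw [evx_append, ← hcap'' K₂ p u v, key, key, ← hev2 K₂, e3, ← K₂.l_add, K₂.symB]
      exact K₂.two_E _
    exact ih s'' hs'' hz1'' hz2''

end E4
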