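import Pool.Agent.Lib.MP_8a95e3_al.CoreJ

/-!
# CoreF : the core situation, conclusion

`e(h;c,d) := C D H²`.
-/

namespace E4

section

variable {H R : Type*} [Group H] [Ring R] {ρ : H →* R}

/-- `e(yz;c,d) = e(y;c,d) + e(z;c,d) + T(c,d,[y,z])`.
PROOF. `X(yz) = Y + Z + YZ`, so `X(yz)² = Y² + Z² + (YZ + ZY) + Y²Z + YZY + ZYZ + YZ² + YZYZ`.  Multiply by `CD` on the left.
`CD(YZ + ZY) = CD(yz + zy) = T(c,d,[y,z]) =: τ` (`Core.cd_swap`).  `CDY²Z = 0`, `CDZ²Y = 0` by (I9).  `CDYZY`: `CDYZ = CDZY + τ` and `τY = 0`, so `CDYZY = CDZYY = CDZY²`; and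
`CDY(YZ + ZY) = CD y(yz+zy) + CD(yz+zy) = τ + τ = 0` (`cd_swap'` with `g = y` and `cd_swap`), so `CDYZY = CDY²Z = 0` and `CDZY² = 0`.
By symmetry (exchange `y, z`; `T(c,d,[z,y]) = T(c,d,[y,z])`) `CDZYZ = 0`, `CDYZ² = 0`.  `CDYZYZ = (CDYZY)Z = 0`. -/
theorem Core.e_mul (hC : Core ρ) {c d : H} (hc : c ∈ commutator H) (hd : d ∈ commutator H)
    (y z : H) :
    X ρ c * X ρ d * X ρ (y * z) ^ 2
      = X ρ c * X ρ d * X ρ y ^ 2 + X ρ c * X ρ d * X ρ z ^ 2
        + X ρ c * X ρ d * X ρ (cm y z) := by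
  have h2 := hC.cub.two
  have hsw := hC.cd_swap hc hd y z
  have hswy := hC.cd_swap' hc hd y y z
  have hswz := hC.cd_swap' hc hd z y z
  have i1 := hC.I9 hc hd y z
  have i2 := hC.I9 hc hd z y
  have r2 := hC.right z c hc d hd _ (cm_mem_all y z)
  rw [X_mul h2]
  have hY : X ρ y = ρ y + 1 := rfl
  have hZ : X ρ z = ρ z + 1 := rfl
  rw [hY, hZ] at i1 i2 ⊢
  rw [hZ] at r2
  generalize X ρ c * X ρ d * X ρ (cm y z) = τ at *
  generalize X ρ c * X ρ d = A at *
  generalize ρ y = y' at *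
  generalize ρ z = z' at *
  have s1 : A * (y' + 1) * (z' + 1) = A * (z' + 1) * (y' + 1) + τ := by
    linear_combination (norm := noncomm_ring) hsw
  have p1 : A * (y' + 1) * (z' + 1) * (y' + 1) = 0 := by
    linear_combination (norm := noncomm_ring) i2 - hswy - hsw - τ * h2
  have p2 : A * (z' + 1) * (y' + 1) * (z' + 1) = 0 := by
    linear_combination (norm := noncomm_ring) i1 + hswz + hsw + τ * h2
  have p3 : A * (y' + 1) * (z' + 1) * (z' + 1) = 0 := by
    linear_combination (norm := noncomm_ring) s1 * (z' + 1) + p2 + r2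
  linear_combination (norm := noncomm_ring) s1 + A * (z' + 1) * (y' + 1) * h2 + i2 + p2 + p1 + p3
    + p1 * (z' + 1)

omit [Ring R] in
private theorem CoreF_cm_mul (c y z : H) : cm c (y * z) = cm c z * cm c y * cm (cm c y) z := by
  unfold cm
  group

/-- `X ρ (cm c (y*z)) * D = C_z D + C_y D + C_{y,z} D`.
PROOF. `[c,yz] = [c,z][c,y]^z = [c,z][c,y][[c,y],z]`; expand with `X_mul`; products with three factors vanish by (S2). -/
theorem Core.cm_mul (hC : Core ρ) {c d : H} (hc : c ∈ commutator H) (hd : d ∈ commutator H)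
    (y z : H) :
    X ρ (cm c (y * z)) * X ρ d
      = X ρ (cm c z) * X ρ d + X ρ (cm c y) * X ρ d + X ρ (cm (cm c y) z) * X ρ d := by
  have hy := cm_mem hc y
  have hz := cm_mem hc z
  rw [CoreF_cm_mul, hC.add_cm (mul_mem hz hy) hy hd, hC.add_cm hz hc hd]

private theorem CoreF_cancel (hC : Core ρ) {a : H} (ha : a ∈ commutator H) {u v : R} (h : ρ a * u = ρ a * v) :
    u = v := by
  have h1 := hC.sq a ha
  calc u = ρ a * ρ a * u := by rw [h1, one_mul]
    _ = ρ a * (ρ a * v) := by rw [mul_assoc, h]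
    _ = v := by rw [← mul_assoc, h1, one_mul]

/-- `ρ([c,y,z]) = ρ([c,z,y])`. PROOF: `H` acts on the abelian group `ρ(K)` by conjugation and `K` acts trivially, so the actions of `y` and `z` on `ρ(K)` commute:
`ρ(c^{yz}) = ρ(c^{zy})`; `c^{yz} = c[c,z][c,y][c,y,z]` and `c^{zy} = c[c,y][c,z][c,z,y]`. -/
theorem Core.cm_comm (hC : Core ρ) {c : H} (hc : c ∈ commutator H) (y z : H) :
    ρ (cm (cm c y) z) = ρ (cm (cm c z) y) := by
  have hy := cm_mem hc y
  have hz := cm_mem hc z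
  have hk := cm_mem_all y z
  have hzy := conj_mem hc (z * y)
  have e1 : (y * z)⁻¹ * c * (y * z) = (cm y z)⁻¹ * ((z * y)⁻¹ * c * (z * y)) * cm y z := by
    unfold cm
    group
  have e2 : ρ ((y * z)⁻¹ * c * (y * z)) = ρ ((z * y)⁻¹ * c * (z * y)) := by
    have hinv : ρ (cm y z)⁻¹ * ρ (cm y z) = 1 := by rw [← map_mul, inv_mul_cancel, map_one]
    rw [e1, map_mul, map_mul, mul_assoc, hC.comm _ hzy _ hk, ← mul_assoc, hinv, one_mul]
  have e3 : ∀ g : H, g⁻¹ * c * g = c * cm c g := fun g => by unfold cm; group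
  rw [e3, e3, map_mul, map_mul] at e2
  have e4 := CoreF_cancel hC hc e2
  rw [CoreF_cm_mul, CoreF_cm_mul, map_mul, map_mul, map_mul, map_mul, hC.comm _ hz _ hy, mul_assoc, mul_assoc] at e4
  exact CoreF_cancel hC hz (CoreF_cancel hC hy e4)

/-- **`T(c,d,[y,z]) = 0`.**
PROOF.  Let `τ = T(c,d,[y,z])`.  (I17) for `h = yz`, expanded with `cm_mul` (both sides; the left factor and, after commuting, the right factor) and `e_mul`
(`T(c,[d,·],[y,z]) = 0`, so for the second term no `T` appears):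
`C_yD + C_zD + C_{y,z}D + CD_y + CD_z + CD_{y,z} = e(y;c,d) + e(z;c,d) + τ + e(y;c,d_y) + e(z;c,d_y) + e(y;c,d_z) + e(z;c,d_z) + e(y;c,d_{y,z}) + e(z;c,d_{y,z})`
where `d_y = [d,y]`, `d_{y,z} = [[d,y],z]`, and where `X ρ c * X ρ (cm d (yz)) * X ρ(yz)^2` was expanded with `cm_mul` first.
Subtract (I17) for `h = y` and for `h = z` (`C_yD + CD_y = e(y;c,d) + e(y;c,d_y)`):
`C_{y,z}D + CD_{y,z} = τ + e(z;c,d_y) + e(y;c,d_z) + e(y;c,d_{y,z}) + e(z;c,d_{y,z})`.   (1)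
Now (I17) for `(c, d_y; h = z)`: `C_zD_y + CD_{y,z} = e(z;c,d_y) + e(z;c,d_{y,z})`, and (I17) for `(c_z, d; h = y)`:
`C_{z,y}D + C_zD_y = e(y;c_z,d) + e(y;c_z,d_y)`; by (I18) `e(y;c_z,d) = e(y;c,d_z)` and `e(y;c_z,d_y) = e(y;c,d_{y,z})`.  Add the two and use `C_{z,y} = C_{y,z}` (`cm_comm`):
`CD_{y,z} + C_{y,z}D = e(z;c,d_y) + e(z;c,d_{y,z}) + e(y;c,d_z) + e(y;c,d_{y,z})`.   (2)
(1) and (2) give `τ = 0`. -/
theorem Core.tau_zero (hC : Core ρ) {c d : H} (hc : c ∈ commutator H) (hd : d ∈ commutator H)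
    (y z : H) : X ρ c * X ρ d * X ρ (cm y z) = 0 := by
  have h2 := hC.cub.two
  have hk := cm_mem_all y z
  have hcy := cm_mem hc y
  have hcz := cm_mem hc z
  have hcyz := cm_mem hcy z
  have hdy := cm_mem hd y
  have hdz := cm_mem hd z
  have hdyz := cm_mem hdy z
  have hdm := cm_mem hd (y * z)
  have E1 := hC.I17 hc hd (y * z)
  have m1 := hC.cm_mul hc hd y z
  have m2 : X ρ c * X ρ (cm d (y * z))
      = X ρ c * X ρ (cm d z) + X ρ c * X ρ (cm d y) + X ρ c * X ρ (cm (cm d y) z) := by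
    rw [hC.xcomm hc hdm, hC.cm_mul hd hc y z, hC.xcomm hdz hc, hC.xcomm hdy hc, hC.xcomm hdyz hc]
  have T0 : ∀ u ∈ commutator H, ∀ g : H, X ρ c * X ρ (cm u g) * X ρ (cm y z) = 0 := by
    intro u hu g
    rw [hC.xcomm hc (cm_mem hu g)]
    exact hC.S2 hu hc hk g
  have n1 := hC.e_mul hc hdz y z
  have n2 := hC.e_mul hc hdy y z
  have n3 := hC.e_mul hc hdyz y z
  rw [T0 _ hd z, add_zero] at n1
  rw [T0 _ hd y, add_zero] at n2
  rw [T0 _ hdy z, add_zero] at n3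
  rw [m1, m2, add_mul, add_mul, hC.e_mul hc hd y z, n1, n2, n3] at E1
  have E2 := hC.I17 hc hd y
  have E3 := hC.I17 hc hd z
  have E4 := hC.I17 hc hdy z
  have E5 := hC.I17 hcz hd y
  have E6 := hC.I18 hc hd z y
  have E7 := hC.I18 hc hdy z y
  have E8 : X ρ (cm (cm c z) y) = X ρ (cm (cm c y) z) := by
    unfold X
    rw [hC.cm_comm hc y z]
  rw [E8] at E5
  linear_combination (norm := noncomm_ring) -E1 + E2 + E3 + E4 + E5 + E6 + E7
    - X ρ (cm c z) * X ρ (cm d y) * h2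

/-- **Conclusion**: `C D E = 0` for all `c,d,e ∈ K`.
PROOF. The set of `e ∈ K` with `C D E = 0` is a subgroup (additivity `Core.tadd` (after commuting factors), `X(e⁻¹)` with `ρ e⁻¹ = ρ e`), it contains all `cm y z`, so all
generators `⁅y,z⁆ = cm y⁻¹ z⁻¹` of `K = commutator H` (`commutator H = ⁅⊤,⊤⁆ = closure of the commutators`). -/
theorem Core.final (hC : Core ρ) {c d e : H} (hc : c ∈ commutator H) (hd : d ∈ commutator H)
    (he : e ∈ commutator H) : X ρ c * X ρ d * X ρ e = 0 := by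
  have h2 := hC.cub.two
  rw [commutator_eq_closure] at he
  induction he using Subgroup.closure_induction with
  | mem e he =>
    obtain ⟨y, z, rfl⟩ := he
    have h1 := hC.tau_zero hc hd y⁻¹ z⁻¹
    have h3 : cm y⁻¹ z⁻¹ = y * z * y⁻¹ * z⁻¹ := by
      unfold cm
      rw [inv_inv, inv_inv]
    rw [h3] at h1
    exact h1
  | one =>
    unfold X
    rw [map_one, one_add_one_eq_two, h2, mul_zero]
  | mul a b _ _ iha ihb =>
    rw [X_mul h2, mul_add, mul_add, iha, ihb, ← mul_assoc, iha, zero_mul, add_zero, add_zero]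
  | inv a _ iha =>
    have h1 : X ρ a⁻¹ = X ρ a * ρ a⁻¹ := by
      unfold X
      rw [add_mul, one_mul, ← map_mul, mul_inv_cancel, map_one, add_comm]
    rw [h1, ← mul_assoc, iha, zero_mul]

end

end E4
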