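import Pool.Agent.Lib.MP_8a95e3_al.CoreS

/-!
# CoreI : the core situation, part 2 (identities (I5), (I7), (I9), (I10))

Conventions as in `CoreS`.  From `CoreS` we may use: `T(c,d,e) = C D E` is symmetric, additive in each argument, killed by `X ρ h` on both sides,
depends only on `ρ` of the arguments, and **`T = 0` if one argument is of the form `[c,h] = cm c h` with `c ∈ K`** (`Core.S2` and symmetry).
Also products of four factors `C D E F` vanish.  `D_h := X ρ (cm d h)`, `D_{h,k} := X ρ (cm (cm d h) k)`.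
-/

namespace E4

section

variable {H R : Type*} [Group H] [Ring R] {ρ : H →* R}

private theorem CoreI_self (h2 : (2 : R) = 0) (a : R) : a + a = 0 := by
  rw [← two_mul, h2, zero_mul]

private theorem CoreI_canc (h2 : (2 : R) = 0) (a b : R) : a + (a + b) = b := by
  rw [← add_assoc, CoreI_self h2, zero_add]

private theorem CoreI_sub (h2 : (2 : R) = 0) (a b : R) : a - b = a + b := by
  rw [sub_eq_iff_eq_add, add_assoc, CoreI_self h2, add_zero]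

private theorem CoreI_eq (h2 : (2 : R) = 0) {a b : R} (h : a + b = 0) : a = b := by
  rw [← sub_eq_zero, CoreI_sub h2, h]

/-- `T` is zero if the third argument is a commutator with an element of `K`. -/
private theorem CoreI_z3 (hC : Core ρ) {a b d : H} (ha : a ∈ commutator H) (hb : b ∈ commutator H)
    (hd : d ∈ commutator H) (h : H) : X ρ a * X ρ b * X ρ (cm d h) = 0 := by
  have hm := cm_mem hd h
  rw [mul_assoc, hC.xcomm hb hm, ← mul_assoc, hC.xcomm ha hm]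
  exact hC.S2 hd ha hb h

private theorem CoreI_z2 (hC : Core ρ) {a b d : H} (ha : a ∈ commutator H) (hb : b ∈ commutator H)
    (hd : d ∈ commutator H) (h : H) : X ρ a * X ρ (cm d h) * X ρ b = 0 := by
  rw [hC.xcomm ha (cm_mem hd h)]
  exact hC.S2 hd ha hb h

private theorem CoreI_conj (d h : H) : h⁻¹ * d * h = d * cm d h := by
  unfold cm
  group

private theorem CoreI_conj' (hC : Core ρ) {d : H} (hd : d ∈ commutator H) (h : H) :
    X ρ (h * d * h⁻¹) = X ρ d + X ρ (cm d h) + X ρ (cm (cm d h) h) + X ρ d * X ρ (cm d h) +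
      X ρ d * X ρ (cm (cm d h) h) + X ρ (cm d h) * X ρ (cm (cm d h) h) +
      X ρ d * X ρ (cm d h) * X ρ (cm (cm d h) h) := by
  have h2 := hC.cub.two
  have e : ∀ g : H, ρ g = X ρ g + 1 := fun g => by
    unfold X
    rw [add_assoc, CoreI_self h2, add_zero]
  have h1 : X ρ (h * d * h⁻¹) = ρ (h * d * h⁻¹) + 1 := rfl
  rw [h1, hC.conj_inv hd h, e d, e (cm d h), e (cm (cm d h) h)]
  simp only [mul_add, add_mul, mul_one, one_mul, mul_assoc]
  simp only [add_comm, add_left_comm, add_assoc, CoreI_self h2, CoreI_canc h2, add_zero, zero_add]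

/-- `ρ h ^ 4 = 1`. -/
private theorem CoreI_four (hC : Core ρ) (h : H) : ρ h * ρ h * ρ h = ρ h⁻¹ := by
  have h2 := hC.cub.two
  have e1 : ρ h⁻¹ * ρ h = 1 := by rw [← map_mul, inv_mul_cancel, map_one]
  rw [cub_sq hC.cub h, add_mul, add_mul, one_mul, cub_sq hC.cub h, e1]
  simp only [add_comm, add_left_comm, add_assoc, CoreI_self h2, CoreI_canc h2, add_zero, zero_add]

private theorem CoreI_inv3 (hC : Core ρ) (h : H) : ρ h⁻¹ * ρ h⁻¹ * ρ h⁻¹ = ρ h := by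
  have h1 := CoreI_four hC h⁻¹
  rwa [inv_inv] at h1

private theorem CoreI_invsq (hC : Core ρ) (h : H) : ρ h⁻¹ * ρ h⁻¹ = 1 + ρ h⁻¹ + ρ h := by
  have h1 := cub_sq hC.cub h⁻¹
  rwa [inv_inv] at h1

private theorem CoreI_X2 (hC : Core ρ) (h : H) : X ρ h ^ 2 = ρ h + ρ h⁻¹ := by
  have h2 := hC.cub.two
  rw [pow_two]
  unfold X
  rw [add_mul, mul_add, cub_sq hC.cub h, mul_one, one_mul]
  simp only [add_comm, add_left_comm, add_assoc, CoreI_self h2, CoreI_canc h2, add_zero, zero_add]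

private theorem CoreI_X2' (hC : Core ρ) (h : H) : X ρ h ^ 2 = X ρ (h * h) := by
  have h2 := hC.cub.two
  rw [CoreI_X2 hC]
  unfold X
  rw [map_mul, cub_sq hC.cub h]
  simp only [add_comm, add_left_comm, add_assoc, CoreI_self h2, CoreI_canc h2, add_zero, zero_add]

private theorem CoreI_Tr (hC : Core ρ) {a b d : H} (ha : a ∈ commutator H) (hb : b ∈ commutator H)
    (hd : d ∈ commutator H) (h : H) : X ρ a * X ρ b * X ρ d * ρ h = X ρ a * X ρ b * X ρ d := by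
  have h2 := hC.cub.two
  have h1 := hC.right h a ha b hb d hd
  have e : X ρ h = ρ h + 1 := rfl
  rw [e, mul_add, mul_one] at h1
  exact CoreI_eq h2 h1

/-- `C * X(d^h) = C D + C D_h`: `d^h = d [d,h]`, `X(d^h) = D + D_h + D D_h`, and `C D D_h = 0` by (S2). -/
theorem Core.cd_conj (hC : Core ρ) {c d : H} (hc : c ∈ commutator H) (hd : d ∈ commutator H) (h : H) :
    X ρ c * X ρ (h⁻¹ * d * h) = X ρ c * X ρ d + X ρ c * X ρ (cm d h) := by
  have h2 := hC.cub.two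
  have h3 := CoreI_z3 hC hc hd hd h
  rw [CoreI_conj, X_mul h2, mul_add, mul_add, ← mul_assoc, h3, add_zero]

/-- `C * X(d^{h⁻¹}) = C D + C D_h + C D_{h,h}`: `Core.conj_inv` and (S2) (all mixed products contain three factors one of which is an `X` of a `cm _ h`). -/
theorem Core.cd_conj_inv (hC : Core ρ) {c d : H} (hc : c ∈ commutator H) (hd : d ∈ commutator H)
    (h : H) :
    X ρ c * X ρ (h * d * h⁻¹)
      = X ρ c * X ρ d + X ρ c * X ρ (cm d h) + X ρ c * X ρ (cm (cm d h) h) := by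
  have h3 := CoreI_z3 hC hc hd hd h
  have h4 := CoreI_z3 hC hc hd (cm_mem hd h) h
  have h5 := CoreI_z3 hC hc (cm_mem hd h) (cm_mem hd h) h
  rw [CoreI_conj' hC hd h]
  simp only [mul_add, ← mul_assoc]
  rw [h3, h4, h5, zero_mul, add_zero, add_zero, add_zero, add_zero]

/-- more generally `X(c^a) * X(d^b)`-type expansions: `X(a b) X(d) = A D + B D` if `A B D = 0`; here for `b = cm _ _`:
`X ρ (a * cm b h) * X ρ d = X ρ a * X ρ d + X ρ (cm b h) * X ρ d` for `a, b, d ∈ K`.  PROOF: `X_mul` and (S2). -/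
theorem Core.add_cm (hC : Core ρ) {a b d : H} (ha : a ∈ commutator H) (hb : b ∈ commutator H)
    (hd : d ∈ commutator H) (h : H) :
    X ρ (a * cm b h) * X ρ d = X ρ a * X ρ d + X ρ (cm b h) * X ρ d := by
  have h2 := hC.cub.two
  rw [X_mul h2, add_mul, add_mul, CoreI_z2 hC ha hd hb h, add_zero]

/-- **(I4)** `C D^{h⁻¹} + C D^h h = C D (1 + h⁻¹)`.
PROOF.  Multiply (I1) for `d` by `C` on the left: `CD + ChD + CDh + Ch⁻¹Dh⁻¹ + CDhD = 0`.  Here `ChD = C D^{h⁻¹} h` (`D^{h⁻¹} = X(hdh⁻¹)`), `Ch⁻¹Dh⁻¹ = C D^h h⁻²`,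
and `CDhD = C D D^{h⁻¹} h = T(c,d,d^{h⁻¹}) h`; `d^{h⁻¹} = d [d,h⁻¹]` (`cm d h⁻¹ = d⁻¹ h d h⁻¹`) so `T(c,d,d^{h⁻¹}) = T(c,d,d) + T(c,d,[d,h⁻¹]) = 0`.
So `CD + C D^{h⁻¹} h + CDh + C D^h h⁻² = 0`; multiply by `h⁻¹` on the right and use `h⁻³ = h` (`ρ h ^ 4 = 1`). -/
theorem Core.I4 (hC : Core ρ) {c d : H} (hc : c ∈ commutator H) (hd : d ∈ commutator H) (h : H) :
    X ρ c * X ρ (h * d * h⁻¹) + X ρ c * X ρ (h⁻¹ * d * h) * ρ h
      = X ρ c * X ρ d * (1 + ρ h⁻¹) := by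
  have h2 := hC.cub.two
  have h1 := congrArg (fun r => X ρ c * r * ρ h⁻¹) (hC.I1 hd h)
  have e1 : ρ h * X ρ d = X ρ (h * d * h⁻¹) * ρ h := (X_conj' d h).symm
  have e2 : ρ h⁻¹ * X ρ d = X ρ (h⁻¹ * d * h) * ρ h⁻¹ := by
    have h3 := X_conj' (ρ := ρ) d h⁻¹
    rw [inv_inv] at h3
    exact h3.symm
  have e3 : ρ h * ρ h⁻¹ = 1 := by rw [← map_mul, mul_inv_cancel, map_one]
  have e4 : X ρ c * (X ρ d * X ρ (h * d * h⁻¹)) = 0 := by
    rw [hC.cd_conj_inv hd hd h, hC.xsq hd, zero_add, mul_add, ← mul_assoc, ← mul_assoc, CoreI_z3 hC hc hd hd h,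
      CoreI_z3 hC hc hd (cm_mem hd h) h, add_zero]
  have e5 : X ρ d * ρ h * X ρ d = X ρ d * X ρ (h * d * h⁻¹) * ρ h := by
    rw [mul_assoc, e1, ← mul_assoc]
  rw [e5, e1, e2] at h1
  have e6 : X ρ c * (X ρ d + X ρ (h * d * h⁻¹) * ρ h + X ρ d * ρ h + X ρ (h⁻¹ * d * h) * ρ h⁻¹ * ρ h⁻¹ +
      X ρ d * X ρ (h * d * h⁻¹) * ρ h) * ρ h⁻¹ =
      X ρ c * X ρ d * ρ h⁻¹ + X ρ c * X ρ (h * d * h⁻¹) * (ρ h * ρ h⁻¹) + X ρ c * X ρ d * (ρ h * ρ h⁻¹) +
      X ρ c * X ρ (h⁻¹ * d * h) * (ρ h⁻¹ * ρ h⁻¹ * ρ h⁻¹) + X ρ c * (X ρ d * X ρ (h * d * h⁻¹)) * (ρ h * ρ h⁻¹) := by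
    simp only [mul_add, add_mul, mul_assoc]
  rw [e6, e3, e4, CoreI_inv3 hC, zero_mul, add_zero, mul_one, mul_one, mul_zero, zero_mul] at h1
  refine CoreI_eq h2 ?_
  rw [← h1]
  simp only [mul_add, mul_one]
  simp only [add_comm, add_left_comm, add_assoc]

/-- **(I5)** `C D_{h,h} = C D H² + C D_h H` (`H = h + 1`).
PROOF. Insert `cd_conj`, `cd_conj_inv` in (I4): `CD + CD_h + CD_{hh} + (CD + CD_h) h = CD + CD h⁻¹`, so
`CD_{hh} = CD(h + h⁻¹) + CD_h(1 + h)`, and `h + h⁻¹ = h² + 1 = (h+1)²`. -/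
theorem Core.I5 (hC : Core ρ) {c d : H} (hc : c ∈ commutator H) (hd : d ∈ commutator H) (h : H) :
    X ρ c * X ρ (cm (cm d h) h)
      = X ρ c * X ρ d * X ρ h ^ 2 + X ρ c * X ρ (cm d h) * X ρ h := by
  have h2 := hC.cub.two
  have h1 := hC.I4 hc hd h
  rw [hC.cd_conj_inv hc hd h, hC.cd_conj hc hd h] at h1
  have e : X ρ h = ρ h + 1 := rfl
  rw [CoreI_X2 hC, e]
  refine CoreI_eq h2 ?_
  rw [← CoreI_sub h2, sub_eq_zero] at *
  linear_combination (norm := skip) h1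
  simp only [CoreI_sub h2, mul_add, add_mul, mul_one, one_mul]
  simp only [add_comm, add_left_comm, add_assoc, CoreI_self h2, CoreI_canc h2, add_zero, zero_add]

/-- **(I6)** with `f(a) := C * X(a⁻¹ d a)`: `f(ah) = f(a)(1 + h) + f(ah⁻¹) h⁻¹` for all `a, h ∈ H`.
PROOF. (I4) with `d` replaced by `d^a`: `f(ah⁻¹) + f(ah) h = f(a)(1 + h⁻¹)`; multiply by `h⁻¹` on the right:
`f(ah) = f(a)(h⁻¹ + h⁻²) + f(ah⁻¹)h⁻¹` and `h⁻¹ + h⁻² = 1 + h` as `h⁻² = h² = 1 + h + h⁻¹`. -/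
theorem Core.I6 (hC : Core ρ) {c d : H} (hc : c ∈ commutator H) (hd : d ∈ commutator H) (a h : H) :
    X ρ c * X ρ ((a * h)⁻¹ * d * (a * h))
      = X ρ c * X ρ (a⁻¹ * d * a) * (1 + ρ h)
        + X ρ c * X ρ ((a * h⁻¹)⁻¹ * d * (a * h⁻¹)) * ρ h⁻¹ := by
  have h2 := hC.cub.two
  have h1 := congrArg (fun r => r * ρ h⁻¹) (hC.I4 hc (conj_mem hd a) h)
  have e1 : h * (a⁻¹ * d * a) * h⁻¹ = (a * h⁻¹)⁻¹ * d * (a * h⁻¹) := by group
  have e2 : h⁻¹ * (a⁻¹ * d * a) * h = (a * h)⁻¹ * d * (a * h) := by group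
  have e3 : ρ h * ρ h⁻¹ = 1 := by rw [← map_mul, mul_inv_cancel, map_one]
  rw [e1, e2, add_mul, mul_assoc (X ρ c * X ρ ((a * h)⁻¹ * d * (a * h))), e3, mul_one, mul_assoc (X ρ c * X ρ (a⁻¹ * d * a)),
    add_mul, one_mul, CoreI_invsq hC] at h1
  linear_combination (norm := skip) h1
  simp only [CoreI_sub h2, mul_add, mul_one]
  simp only [add_comm, add_left_comm, add_assoc, CoreI_self h2, CoreI_canc h2, add_zero, zero_add]

private theorem CoreI_Tconj (hC : Core ρ) {c d k : H} (hc : c ∈ commutator H) (hd : d ∈ commutator H)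
    (hk : k ∈ commutator H) (w : H) : X ρ c * X ρ d * X ρ (w * k * w⁻¹) = X ρ c * X ρ d * X ρ k := by
  rw [mul_assoc, hC.cd_conj_inv hd hk, mul_add, mul_add, ← mul_assoc, ← mul_assoc, ← mul_assoc,
    CoreI_z3 hC hc hd hk _, CoreI_z3 hC hc hd (cm_mem hk _) _, add_zero, add_zero]

private theorem CoreI_swap (hC : Core ρ) {c d : H} (hc : c ∈ commutator H) (hd : d ∈ commutator H)
    (g y z : H) :
    X ρ c * X ρ d * ρ g * (ρ y * ρ z)
      = X ρ c * X ρ d * ρ g * (ρ z * ρ y) + X ρ c * X ρ d * X ρ (cm y z) := by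
  have h2 := hC.cub.two
  have hk := cm_mem_all y z
  have e1 : ρ y * ρ z = ρ z * ρ y * ρ (cm y z) := by
    rw [← map_mul, ← map_mul, ← map_mul]
    congr 1
    unfold cm
    group
  have e2 : ρ (cm y z) = 1 + X ρ (cm y z) := by
    unfold X
    rw [add_comm (ρ (cm y z)) 1]
    exact (CoreI_canc h2 _ _).symm
  have e3 : ρ g * (ρ z * ρ y) * X ρ (cm y z) = X ρ ((g * (z * y)) * cm y z * (g * (z * y))⁻¹) * ρ (g * (z * y)) := by
    rw [X_conj', map_mul, map_mul]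
  have e4 : X ρ c * X ρ d * X ρ ((g * (z * y)) * cm y z * (g * (z * y))⁻¹) = X ρ c * X ρ d * X ρ (cm y z) := by
    exact CoreI_Tconj hC hc hd hk _
  calc X ρ c * X ρ d * ρ g * (ρ y * ρ z) = X ρ c * X ρ d * (ρ g * (ρ z * ρ y) * ρ (cm y z)) := by
        rw [e1]
        simp only [mul_assoc]
    _ = X ρ c * X ρ d * (ρ g * (ρ z * ρ y)) + X ρ c * X ρ d * (ρ g * (ρ z * ρ y) * X ρ (cm y z)) := by
        rw [e2, mul_add, mul_one, mul_add]
    _ = X ρ c * X ρ d * (ρ g * (ρ z * ρ y)) +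
        X ρ c * X ρ d * X ρ ((g * (z * y)) * cm y z * (g * (z * y))⁻¹) * ρ (g * (z * y)) := by
        rw [e3]
        simp only [mul_assoc]
    _ = _ := by
        rw [e4, CoreI_Tr hC hc hd hk]
        simp only [mul_assoc]

/-- After `C D` an element of `K` acts as `X` does on `T`: for `y, z ∈ H`,
`C D (y z) = C D (z y) + T(c, d, [y,z])`.
PROOF. `y z = z y [y,z]`, so `CD yz = CD zy (1 + X[y,z]) = CD zy + CD·X([y,z]^{(zy)⁻¹})·zy`, and `T(c,d,[y,z]^{g}) zy = T(c,d,[y,z]^g)` by `Core.right`,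
`T(c,d,k^{g}) = T(c,d,k) + T(c,d,[k,g]) = T(c,d,k)` by additivity and (S2). -/
theorem Core.cd_swap (hC : Core ρ) {c d : H} (hc : c ∈ commutator H) (hd : d ∈ commutator H)
    (y z : H) :
    X ρ c * X ρ d * (ρ y * ρ z)
      = X ρ c * X ρ d * (ρ z * ρ y) + X ρ c * X ρ d * X ρ (cm y z) := by
  have h1 := CoreI_swap hC hc hd 1 y z
  rw [map_one, mul_one] at h1
  exact h1

/-- more generally `C D g (y z) = C D g (z y) + T(c,d,[y,z])` for every `g ∈ H`.  PROOF: same. -/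
theorem Core.cd_swap' (hC : Core ρ) {c d : H} (hc : c ∈ commutator H) (hd : d ∈ commutator H)
    (g y z : H) :
    X ρ c * X ρ d * ρ g * (ρ y * ρ z)
      = X ρ c * X ρ d * ρ g * (ρ z * ρ y) + X ρ c * X ρ d * X ρ (cm y z) := by
  exact CoreI_swap hC hc hd g y z

/-- `T(c,d,·)` on commutators: `T(c,d,[y⁻¹,z⁻¹]) = T(c,d,[y,z])`. PROOF: `[y⁻¹,z] = y z⁻¹ y⁻¹ z = ([y,z]⁻¹)^{y⁻¹}` and `[y,z⁻¹] = ([y,z]⁻¹)^{z⁻¹}`;
`T(c,d,k^g) = T(c,d,k)`, `T(c,d,k⁻¹) = T(c,d,k)` (`ρ k⁻¹ = ρ k`). -/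
theorem Core.t_inv_inv (hC : Core ρ) {c d : H} (hc : c ∈ commutator H) (hd : d ∈ commutator H)
    (y z : H) :
    X ρ c * X ρ d * X ρ (cm y⁻¹ z⁻¹) = X ρ c * X ρ d * X ρ (cm y z) := by
  have hk := cm_mem_all y z
  have e1 : cm y⁻¹ z⁻¹ = (z * y) * cm y z * (z * y)⁻¹ := by
    unfold cm
    group
  rw [e1]
  exact CoreI_Tconj hC hc hd hk _

/-- **(I7)** `T(c,d,[y,z]) = C D_z Y + C D_y Z`.
PROOF. Let `f(a) = C·X(d^a)`, `d^a = a⁻¹ d a`.  Because `ρ(K)` is abelian, `f(ab) = f(ba)` (`d^{ab} = d^{ba[a,b]}`, and `[a,b] ∈ K` commutes with `ρ(d^{ba})`).  Let `τ := T(c,d,[y,z])`.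
One step ((I6) with `a = 1`, `h = yz`): `f(yz) = CD(1 + yz) + f(z⁻¹y⁻¹) z⁻¹y⁻¹`.
Two steps ((I6) with `a = y`, `h = z`; then `f(yz⁻¹) = f(z⁻¹y)` and (I6) with `a = z⁻¹`, `h = y`):
`f(yz) = f(y)(1+z) + f(yz⁻¹)z⁻¹ = f(y)(1+z) + f(z⁻¹)(1+y)z⁻¹ + f(z⁻¹y⁻¹)y⁻¹z⁻¹`.
Compare, using `f(z⁻¹y⁻¹)(z⁻¹y⁻¹ + y⁻¹z⁻¹) = T(c,d^{..},[y⁻¹,z⁻¹]) = τ` (`cd_swap` for `d^{z⁻¹y⁻¹}`, `t_inv_inv`, and `T(c,d^g,k) = T(c,d,k)`):
`CD(1+yz) + τ = f(y)(1+z) + f(z⁻¹)(1+y)z⁻¹`.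
Next `f(z⁻¹)(1+y)z⁻¹ = f(z⁻¹)z⁻¹(1+y) + f(z⁻¹)(yz⁻¹ + z⁻¹y) = f(z⁻¹)z⁻¹(1+y) + τ` (`cd_swap` with `[y,z⁻¹]`; as in `t_inv_inv` `T(c,d,[y,z⁻¹]) = τ`), and by
(I6) with `a = 1, h = z`: `f(z⁻¹)z⁻¹ = f(z) + CD(1+z) = CD + CD_z + CD(1+z) = CD_z + CDz`.  And `f(y) = CD + CD_y`.  So
`CD(1+yz) = (CD + CD_y)(1+z) + (CD_z + CDz)(1+y)`, i.e. `CD + CDyz = CD + CDz + CD_yZ + CD_zY + CDz + CDzy`, so
`CD(yz + zy) = CD_yZ + CD_zY`, and the left side is `τ` by `cd_swap`. -/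
theorem Core.I7 (hC : Core ρ) {c d : H} (hc : c ∈ commutator H) (hd : d ∈ commutator H) (y z : H) :
    X ρ c * X ρ d * X ρ (cm y z)
      = X ρ c * X ρ (cm d z) * X ρ y + X ρ c * X ρ (cm d y) * X ρ z := by
  have h2 := hC.cub.two
  have hk := cm_mem_all y z
  -- `f(a) = C X(a⁻¹ d a)`
  obtain ⟨f, hf⟩ : ∃ f : H → R, ∀ a, f a = X ρ c * X ρ (a⁻¹ * d * a) := ⟨_, fun _ => rfl⟩
  have hI6 : ∀ a h, f (a * h) = f a * (1 + ρ h) + f (a * h⁻¹) * ρ h⁻¹ := by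
    intro a h
    rw [hf, hf, hf]
    exact hC.I6 hc hd a h
  have hf1 : f 1 = X ρ c * X ρ d := by
    rw [hf, inv_one, one_mul, mul_one]
  have hfy : ∀ w, f w = X ρ c * X ρ d + X ρ c * X ρ (cm d w) := by
    intro w
    rw [hf]
    exact hC.cd_conj hc hd w
  have hcomm : ∀ a b, f (a * b) = f (b * a) := by
    intro a b
    rw [hf, hf]
    congr 1
    have e1 : (a * b)⁻¹ * d * (a * b) = (cm a b)⁻¹ * ((b * a)⁻¹ * d * (b * a)) * cm a b := by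
      unfold cm
      group
    have hm := cm_mem_all a b
    have hd' := conj_mem hd (b * a)
    unfold X
    rw [e1, map_mul, map_mul, mul_assoc, ← hC.comm _ hm _ hd', ← mul_assoc, ← map_mul, inv_mul_cancel, map_one, one_mul]
  obtain ⟨τ, hτ⟩ : ∃ τ : R, τ = X ρ c * X ρ d * X ρ (cm y z) := ⟨_, rfl⟩
  have hTf : ∀ w k, k ∈ commutator H → X ρ c * X ρ (w⁻¹ * d * w) * X ρ k = X ρ c * X ρ d * X ρ k := by
    intro w k hk'
    rw [hC.cd_conj hc hd w, add_mul, CoreI_z2 hC hc hk' hd w, add_zero]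
  have hswap : ∀ w a b, f w * (ρ a * ρ b) = f w * (ρ b * ρ a) + X ρ c * X ρ d * X ρ (cm a b) := by
    intro w a b
    have h3 := CoreI_swap hC hc (conj_mem hd w) 1 a b
    rw [map_one, mul_one, hTf w _ (cm_mem_all a b)] at h3
    rw [hf]
    exact h3
  have hyz' : X ρ c * X ρ d * X ρ (cm y z⁻¹) = τ := by
    rw [hτ]
    have e1 : cm y z⁻¹ = z * (cm y z)⁻¹ * z⁻¹ := by
      unfold cm
      group
    have e2 : ρ (cm y z)⁻¹ = ρ (cm y z) := by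
      have h3 : ρ (cm y z)⁻¹ * ρ (cm y z) = 1 := by rw [← map_mul, inv_mul_cancel, map_one]
      calc ρ (cm y z)⁻¹ = ρ (cm y z)⁻¹ * (ρ (cm y z) * ρ (cm y z)) := by rw [hC.sq _ hk, mul_one]
        _ = ρ (cm y z) := by rw [← mul_assoc, h3, one_mul]
    rw [e1, CoreI_Tconj hC hc hd ((commutator H).inv_mem hk) z]
    unfold X
    rw [e2]
  -- the relations
  have r1 := hI6 1 (y * z)
  have r2 := hI6 y z
  have r3 := hcomm y z⁻¹
  have r4 := hI6 z⁻¹ y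
  have r5 := hswap (z⁻¹ * y⁻¹) y⁻¹ z⁻¹
  have r6 := hswap z⁻¹ y z⁻¹
  have r7 := hI6 1 z
  have r8 := hswap 1 y z
  rw [one_mul, one_mul, hf1, map_mul, mul_inv_rev, map_mul] at r1
  rw [r3, r4] at r2
  rw [hC.t_inv_inv hc hd y z, ← hτ] at r5
  rw [hyz'] at r6
  rw [one_mul, one_mul, hf1, hfy z] at r7
  rw [hf1, ← hτ] at r8
  rw [hfy y] at r2
  rw [← hτ]
  have e : ∀ w, X ρ w = ρ w + 1 := fun w => rfl
  rw [e y, e z]
  generalize f (y * z) = a1 at *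
  generalize f (z⁻¹ * y⁻¹) = a2 at *
  generalize f z⁻¹ = a3 at *
  generalize X ρ c * X ρ d = a4 at *
  generalize X ρ c * X ρ (cm d y) = a5 at *
  generalize X ρ c * X ρ (cm d z) = a6 at *
  have s7 : a3 * ρ z⁻¹ = a6 + a4 * ρ z := by
    linear_combination (norm := skip) r7
    simp only [CoreI_sub h2, mul_add, mul_one]
    simp only [add_comm, add_left_comm, add_assoc, CoreI_self h2, CoreI_canc h2, add_zero, zero_add]
  have s6 : a3 * ρ y * ρ z⁻¹ = (a6 + a4 * ρ z) * ρ y + τ := by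
    rw [mul_assoc, r6, ← mul_assoc, s7]
  have s5 : a2 * ρ y⁻¹ * ρ z⁻¹ = a2 * ρ z⁻¹ * ρ y⁻¹ + τ := by
    rw [mul_assoc, r5, ← mul_assoc]
  have s2 : a1 = (a4 + a5) * (1 + ρ z) + (a3 * ρ z⁻¹ + a3 * ρ y * ρ z⁻¹ + a2 * ρ y⁻¹ * ρ z⁻¹) := by
    rw [r2]
    simp only [mul_add, add_mul, mul_one, mul_assoc]
  rw [s7, s6, s5] at s2
  have s1 : a1 = a4 + a4 * (ρ y * ρ z) + a2 * ρ z⁻¹ * ρ y⁻¹ := by
    rw [r1, mul_add, mul_one, mul_assoc a2]
  rw [s1, r8] at s2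
  simp only [mul_add, add_mul, mul_one, mul_assoc] at s2 ⊢
  let _ : Module (ZMod 2) R := AddCommGroup.zmodModule fun x => by
    rw [two_nsmul]
    exact CoreI_self h2 x
  linear_combination (norm := (match_scalars <;> decide)) (1 : ZMod 2) • s2

/-- **(I8)** `C D_{z,z} Y = C D_y Z²`.
PROOF. (I7) with `z` replaced by `z²`.  Left side: `[y,z²] = [y,z][y,z]^z`, so `T(c,d,[y,z²]) = 2 T(c,d,[y,z]) = 0`.  `[d,z²] = [d,z][d,z]^z = [d,z]²[d,z,z]`, so `ρ([d,z²]) = ρ([d,z,z])`,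
and `X(z²) = z² + 1 = Z²`.  So `0 = C D_{z,z} Y + C D_y Z²`. -/
theorem Core.I8 (hC : Core ρ) {c d : H} (hc : c ∈ commutator H) (hd : d ∈ commutator H) (y z : H) :
    X ρ c * X ρ (cm (cm d z) z) * X ρ y = X ρ c * X ρ (cm d y) * X ρ z ^ 2 := by
  have h2 := hC.cub.two
  have hk := cm_mem_all y z
  have hdz := cm_mem hd z
  have h1 := hC.I7 hc hd y (z * z)
  have e1 : cm y (z * z) = cm y z * (z⁻¹ * cm y z * z) := by
    unfold cm
    group
  have e2 : cm d (z * z) = cm d z * (z⁻¹ * cm d z * z) := by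
    unfold cm
    group
  have e3 : X ρ c * X ρ d * X ρ (cm y (z * z)) = 0 := by
    rw [e1, X_mul h2, mul_add, mul_add, ← mul_assoc (X ρ c * X ρ d), hC.right _ c hc d hd _ hk, add_zero, CoreI_conj,
      mul_assoc (X ρ c) (X ρ d) (X ρ (cm y z * cm (cm y z) z)), ← CoreI_conj, hC.cd_conj hd hk z, mul_add, ← mul_assoc,
      ← mul_assoc, CoreI_z3 hC hc hd hk z, add_zero, CoreI_self h2]
  have e4 : X ρ (cm d (z * z)) = X ρ (cm (cm d z) z) := by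
    unfold X
    rw [e2, CoreI_conj, map_mul, map_mul, ← mul_assoc, hC.sq _ hdz, one_mul]
  rw [e3, e4, ← CoreI_X2' hC] at h1
  exact CoreI_eq h2 h1.symm

/-- **(I9)** `C D Z² Y = 0`.
PROOF.  By (I5) and (I8): `C D Z² Y + C D_z Z Y = C D_{z,z} Y = C D_y Z²`.  Multiply (I7) by `Z` on the right: `T(..) Z = 0`, so `C D_z Y Z = C D_y Z²`.
And `C D_z Y Z = C D_z Z Y` by `cd_swap` for `(c, [d,z])` (`YZ + ZY = yz + zy`) since `T(c,[d,z],·) = 0`.  Hence `CDZ²Y = 0`. -/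
theorem Core.I9 (hC : Core ρ) {c d : H} (hc : c ∈ commutator H) (hd : d ∈ commutator H) (y z : H) :
    X ρ c * X ρ d * X ρ z ^ 2 * X ρ y = 0 := by
  have h2 := hC.cub.two
  have hk := cm_mem_all y z
  have hdz := cm_mem hd z
  have h1 := congrArg (fun r => r * X ρ y) (hC.I5 hc hd z)
  have h3 := congrArg (fun r => r * X ρ z) (hC.I7 hc hd y z)
  rw [hC.right _ c hc d hd _ hk, add_mul, mul_assoc (X ρ c * X ρ (cm d y)), ← pow_two] at h3
  rw [hC.I8 hc hd y z, add_mul] at h1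
  have h4 := hC.cd_swap hc hdz y z
  rw [CoreI_z2 hC hc hk hd z, add_zero] at h4
  have h5 : X ρ c * X ρ (cm d z) * X ρ y * X ρ z = X ρ c * X ρ (cm d z) * X ρ z * X ρ y := by
    have e : ∀ w, X ρ w = ρ w + 1 := fun w => rfl
    rw [e y, e z]
    simp only [mul_add, add_mul, mul_one, mul_assoc] at h4 ⊢
    let _ : Module (ZMod 2) R := AddCommGroup.zmodModule fun x => by
      rw [two_nsmul]
      exact CoreI_self h2 x
    linear_combination (norm := (match_scalars <;> decide)) (1 : ZMod 2) • h4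
  rw [h5] at h3
  have h6 : X ρ c * X ρ d * X ρ z ^ 2 * X ρ y = 0 := by
    have h7 := CoreI_eq h2 h3.symm
    rw [h7] at h1
    have h8 := congrArg (fun r => r + X ρ c * X ρ (cm d y) * X ρ z ^ 2) h1
    rw [CoreI_self h2, add_assoc, CoreI_self h2, add_zero] at h8
    exact h8.symm
  exact h6

/-- **(I10)** `C D_{h,h} Y² = 0`.  PROOF: (I8) times `Y` on the right with `z = h`: `C D_{h,h} Y² = C D_y H² Y = 0` by (I9) with `d := [d,y]`. -/
theorem Core.I10 (hC : Core ρ) {c d : H} (hc : c ∈ commutator H) (hd : d ∈ commutator H) (h y : H) :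
    X ρ c * X ρ (cm (cm d h) h) * X ρ y ^ 2 = 0 := by
  rw [pow_two, ← mul_assoc, hC.I8 hc hd y h]
  exact hC.I9 hc (cm_mem hd y) y h

end

end E4
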