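import Pool.Agent.Lib.MP_8a95e3_al.CoreI

/-!
# CoreJ : the core situation, part 3 (identities (II), (I11), (I16), (I17), (I18))

Conventions as in `CoreS`, `CoreI`.  `C_h := X ρ (cm c h)`, `C_{h,h} := X ρ (cm (cm c h) h)`, `H := X ρ h`, small `h` is `ρ h`.
Available: `T = 0` when one argument is `cm _ _` (of an element of `K`), (I5): `C D_{h,h} = C D H² + C D_h H`, by symmetry (commuting the two factors) `C_{h,h} D = C D H² + C_h D H`;
(I9): `C D Z² Y = 0`, in particular `C D H² H = 0`, so `C D H² h = C D H²`; (I10): `C D_{h,h} Y² = 0 = C_{h,h} D Y²`; all for arbitrary `c, d ∈ K`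
(so one may replace `c` by `[c,h]` and so on).
-/

namespace E4

section

variable {H R : Type*} [Group H] [Ring R] {ρ : H →* R}

private theorem CoreJ_Xconj (c h : H) : X ρ (h⁻¹ * c * h) = X ρ (c * cm c h) := by
  have : h⁻¹ * c * h = c * cm c h := by
    unfold cm
    group
  rw [this]

private theorem CoreJ_Xconj' (hC : Core ρ) {c : H} (hc : c ∈ commutator H) (h : H) :
    X ρ (h * c * h⁻¹) = X ρ (c * cm c h * cm (cm c h) h) := by
  unfold X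
  rw [hC.conj_inv hc h, map_mul, map_mul]

/-- expansion of a product with two corrections -/
private theorem CoreJ_exp (hC : Core ρ) {c u : H} (hc : c ∈ commutator H) (hu : u ∈ commutator H) (h : H) :
    X ρ (h * c * h⁻¹) * X ρ u = X ρ c * X ρ u + X ρ (cm c h) * X ρ u + X ρ (cm (cm c h) h) * X ρ u := by
  have hn := cm_mem hc h
  rw [CoreJ_Xconj' hC hc h, hC.add_cm (mul_mem hc hn) hn hu, hC.add_cm hc hc hu]

private theorem CoreJ_exp1 (hC : Core ρ) {c u : H} (hc : c ∈ commutator H) (hu : u ∈ commutator H) (h : H) :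
    X ρ (h⁻¹ * c * h) * X ρ u = X ρ c * X ρ u + X ρ (cm c h) * X ρ u := by
  rw [CoreJ_Xconj, hC.add_cm hc hc hu]

private theorem CoreJ_cc (hC : Core ρ) {c u : H} (hc : c ∈ commutator H) (hu : u ∈ commutator H) (h : H) :
    X ρ c * X ρ (h * c * h⁻¹) * X ρ u = 0 := by
  have hn := cm_mem hc h
  have hnn := cm_mem hn h
  rw [mul_assoc, CoreJ_exp hC hc hu h, mul_add, mul_add, ← mul_assoc, ← mul_assoc, ← mul_assoc, hC.xsq hc,
    hC.xcomm hc hn, hC.xcomm hc hnn, hC.S2 hc hc hu h, hC.S2 hn hc hu h, zero_mul, add_zero, add_zero]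

private theorem CoreJ_cube (hC : Core ρ) (h : H) : (ρ h + 1) ^ 3 = 0 := hC.cub.cube h

private theorem CoreJ_yz (h : H) : ρ h * ρ h⁻¹ = 1 := by rw [← map_mul, mul_inv_cancel, map_one]

private theorem CoreJ_zy (h : H) : ρ h⁻¹ * ρ h = 1 := by rw [← map_mul, inv_mul_cancel, map_one]

/-- **(I2')** `C D^{h⁻¹} h + C^{h⁻¹} D h = CD + C^{h⁻¹}D^{h⁻¹}h + CDh + C^hD^h h⁻²`, where `C^{h⁻¹} = X(hch⁻¹)` etc.
PROOF.  (I2) (`Core.I2`).  Its last three terms vanish: `C h C D = C C^{h⁻¹} D^{h⁻¹} h = T(c,c^{h⁻¹},d^{h⁻¹}) h`, and `T(c,c^{h⁻¹},e) = T(c,c,e) + T(c,[c,h⁻¹],e) = 0`; `DhCD` similarly;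
`CDhC = C D C^{h⁻¹} h = 0`, `CDhD = 0`; `CDhCD = 0` (four factors).  Then move `h` to the right: `C h D = C D^{h⁻¹} h`, `D h C = D C^{h⁻¹} h = C^{h⁻¹} D h`,
`h C D = C^{h⁻¹} D^{h⁻¹} h`, `h⁻¹ C D h⁻¹ = C^h D^h h⁻² `. -/
theorem Core.I2' (hC : Core ρ) {c d : H} (hc : c ∈ commutator H) (hd : d ∈ commutator H) (h : H) :
    X ρ c * X ρ (h * d * h⁻¹) * ρ h + X ρ (h * c * h⁻¹) * X ρ d * ρ h
      = X ρ c * X ρ d + X ρ (h * c * h⁻¹) * X ρ (h * d * h⁻¹) * ρ h + X ρ c * X ρ d * ρ h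
        + X ρ (h⁻¹ * c * h) * X ρ (h⁻¹ * d * h) * ρ h⁻¹ * ρ h⁻¹ := by
  have hch := conj_mem' hc h
  have hdh := conj_mem' hd h
  have E := hC.I2 hc hd h
  have f1 : X ρ c * ρ h * X ρ d = X ρ c * X ρ (h * d * h⁻¹) * ρ h := by
    rw [mul_assoc, ← X_conj', ← mul_assoc]
  have f2 : X ρ d * ρ h * X ρ c = X ρ (h * c * h⁻¹) * X ρ d * ρ h := by
    rw [mul_assoc, ← X_conj', ← mul_assoc, hC.xcomm hd hch]
  have f3 : ρ h * (X ρ c * X ρ d) = X ρ (h * c * h⁻¹) * X ρ (h * d * h⁻¹) * ρ h := by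
    rw [mul_assoc (X ρ (h * c * h⁻¹)), X_conj', ← mul_assoc, ← mul_assoc, X_conj']
  have f5 : ρ h⁻¹ * (X ρ c * X ρ d) * ρ h⁻¹
      = X ρ (h⁻¹ * c * h) * X ρ (h⁻¹ * d * h) * ρ h⁻¹ * ρ h⁻¹ := by
    have e1 := X_conj' (ρ := ρ) c h⁻¹
    have e2 := X_conj' (ρ := ρ) d h⁻¹
    rw [inv_inv] at e1 e2
    rw [mul_assoc (X ρ (h⁻¹ * c * h)), e2, ← mul_assoc (X ρ (h⁻¹ * c * h)), e1, ← mul_assoc]
  have g1 : X ρ c * X ρ (h * c * h⁻¹) * X ρ (h * d * h⁻¹) = 0 := CoreJ_cc hC hc hdh h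
  have g2 : X ρ d * X ρ (h * c * h⁻¹) * X ρ (h * d * h⁻¹) = 0 := by
    rw [mul_assoc, hC.xcomm hch hdh, ← mul_assoc]
    exact CoreJ_cc hC hd hch h
  have g3 : X ρ c * X ρ d * X ρ (h * c * h⁻¹) = 0 := by
    rw [mul_assoc, hC.xcomm hd hch, ← mul_assoc]
    exact CoreJ_cc hC hc hd h
  have g4 : X ρ c * X ρ d * X ρ (h * d * h⁻¹) = 0 := by
    rw [hC.xcomm hc hd, mul_assoc, hC.xcomm hc hdh, ← mul_assoc]
    exact CoreJ_cc hC hd hc h
  have f6 : (X ρ c + X ρ d) * ρ h * (X ρ c * X ρ d) = 0 := by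
    rw [mul_assoc, f3, add_mul]
    calc X ρ c * (X ρ (h * c * h⁻¹) * X ρ (h * d * h⁻¹) * ρ h)
          + X ρ d * (X ρ (h * c * h⁻¹) * X ρ (h * d * h⁻¹) * ρ h)
        = X ρ c * X ρ (h * c * h⁻¹) * X ρ (h * d * h⁻¹) * ρ h
          + X ρ d * X ρ (h * c * h⁻¹) * X ρ (h * d * h⁻¹) * ρ h := by simp only [mul_assoc]
      _ = 0 := by rw [g1, g2, zero_mul, add_zero]
  have f7 : X ρ c * X ρ d * ρ h * (X ρ c + X ρ d) = 0 := by
    calc X ρ c * X ρ d * ρ h * (X ρ c + X ρ d)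
        = X ρ c * X ρ d * (ρ h * X ρ c) + X ρ c * X ρ d * (ρ h * X ρ d) := by
          rw [mul_add]; simp only [mul_assoc]
      _ = X ρ c * X ρ d * X ρ (h * c * h⁻¹) * ρ h + X ρ c * X ρ d * X ρ (h * d * h⁻¹) * ρ h := by
          rw [← X_conj', ← X_conj']; simp only [mul_assoc]
      _ = 0 := by rw [g3, g4, zero_mul, add_zero]
  have f8 : X ρ c * X ρ d * ρ h * (X ρ c * X ρ d) = 0 := by
    rw [mul_assoc, f3]
    calc X ρ c * X ρ d * (X ρ (h * c * h⁻¹) * X ρ (h * d * h⁻¹) * ρ h)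
        = X ρ c * (X ρ d * X ρ (h * c * h⁻¹) * X ρ (h * d * h⁻¹)) * ρ h := by simp only [mul_assoc]
      _ = 0 := by rw [g2, mul_zero, zero_mul]
  rw [f1, f2, f3, f5, f6, f7, f8, add_zero, add_zero, add_zero] at E
  exact E

/-- `C^{h⁻¹} D^{h⁻¹} = (C + C_h + C_{hh})(D + D_h + D_{hh})`. PROOF: `Core.conj_inv`; all products with three factors are `T` with an argument `cm _ _`, so vanish. -/
theorem Core.cc_conj_inv (hC : Core ρ) {c d : H} (hc : c ∈ commutator H) (hd : d ∈ commutator H)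
    (h : H) :
    X ρ (h * c * h⁻¹) * X ρ (h * d * h⁻¹)
      = (X ρ c + X ρ (cm c h) + X ρ (cm (cm c h) h))
        * (X ρ d + X ρ (cm d h) + X ρ (cm (cm d h) h)) := by
  have hdh := conj_mem' hd h
  have hn := cm_mem hc h
  have hnn := cm_mem hn h
  have hm := cm_mem hd h
  have hmm := cm_mem hm h
  have key : ∀ u ∈ commutator H, X ρ u * X ρ (h * d * h⁻¹)
      = X ρ u * X ρ d + X ρ u * X ρ (cm d h) + X ρ u * X ρ (cm (cm d h) h) := by
    intro u hu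
    rw [hC.xcomm hu hdh, CoreJ_exp hC hd hu h, hC.xcomm hd hu, hC.xcomm hm hu, hC.xcomm hmm hu]
  rw [CoreJ_exp hC hc hdh h, key _ hc, key _ hn, key _ hnn]
  noncomm_ring

/-- `C^h D^h = (C + C_h)(D + D_h)`. PROOF: `c^h = c [c,h]`. -/
theorem Core.cc_conj (hC : Core ρ) {c d : H} (hc : c ∈ commutator H) (hd : d ∈ commutator H)
    (h : H) :
    X ρ (h⁻¹ * c * h) * X ρ (h⁻¹ * d * h)
      = (X ρ c + X ρ (cm c h)) * (X ρ d + X ρ (cm d h)) := by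
  have hdh := conj_mem hd h
  have hn := cm_mem hc h
  have hm := cm_mem hd h
  have key : ∀ u ∈ commutator H, X ρ u * X ρ (h⁻¹ * d * h) = X ρ u * X ρ d + X ρ u * X ρ (cm d h) := by
    intro u hu
    rw [hC.xcomm hu hdh, CoreJ_exp1 hC hd hu h, hC.xcomm hd hu, hC.xcomm hm hu]
  rw [CoreJ_exp1 hC hc hdh h, key _ hc, key _ hn]
  noncomm_ring

/-- **(II)** `CDH² + C_hD_hH + (CD_h + C_hD)h + C_hD_{hh} + C_{hh}D_h + C_{hh}D_{hh} = 0`.
PROOF.  Multiply (I2') by `h²` on the right (`h³ = h⁻¹`): `CD^{h⁻¹}h⁻¹ + C^{h⁻¹}Dh⁻¹ = CDh² + C^{h⁻¹}D^{h⁻¹}h⁻¹ + CDh⁻¹ + C^hD^h`.  Insert the expansions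
`CD^{h⁻¹} = CD + CD_h + CD_{hh}`, `C^{h⁻¹}D = CD + C_hD + C_{hh}D`, `cc_conj_inv`, `cc_conj`:
`(CD_h + CD_{hh} + C_hD + C_{hh}D)h⁻¹ + CDh² + CDh⁻¹ + (CD + CD_h + CD_{hh} + C_hD + C_hD_h + C_hD_{hh} + C_{hh}D + C_{hh}D_h + C_{hh}D_{hh})h⁻¹ + CD + CD_h + C_hD + C_hD_h = 0`;
cancel: `CD(1+h²) + C_hD_h(1+h⁻¹) + (C_hD_{hh} + C_{hh}D_h + C_{hh}D_{hh})h⁻¹ + CD_h + C_hD = 0`.  Multiply by `h` on the right:
`CDH²h + C_hD_hH + C_hD_{hh} + C_{hh}D_h + C_{hh}D_{hh} + (CD_h + C_hD)h = 0` and `CDH²h = CDH²` by (I9). -/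
theorem Core.II (hC : Core ρ) {c d : H} (hc : c ∈ commutator H) (hd : d ∈ commutator H) (h : H) :
    X ρ c * X ρ d * X ρ h ^ 2 + X ρ (cm c h) * X ρ (cm d h) * X ρ h
      + (X ρ c * X ρ (cm d h) + X ρ (cm c h) * X ρ d) * ρ h
      + X ρ (cm c h) * X ρ (cm (cm d h) h) + X ρ (cm (cm c h) h) * X ρ (cm d h)
      + X ρ (cm (cm c h) h) * X ρ (cm (cm d h) h) = 0 := by
  have h2 := hC.cub.two
  have hch := conj_mem' hc h
  have hdh := conj_mem' hd h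
  have hn := cm_mem hc h
  have hnn := cm_mem hn h
  have hm := cm_mem hd h
  have hmm := cm_mem hm h
  have E := hC.I2' hc hd h
  have k1 : X ρ c * X ρ (h * d * h⁻¹)
      = X ρ c * X ρ d + X ρ c * X ρ (cm d h) + X ρ c * X ρ (cm (cm d h) h) := by
    rw [hC.xcomm hc hdh, CoreJ_exp hC hd hc h, hC.xcomm hd hc, hC.xcomm hm hc, hC.xcomm hmm hc]
  rw [hC.cc_conj_inv hc hd h, hC.cc_conj hc hd h, CoreJ_exp hC hc hd h, k1] at E
  have hyz := CoreJ_yz (ρ := ρ) h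
  have hzy := CoreJ_zy (ρ := ρ) h
  have hyy := cub_sq hC.cub h
  have hzz := cub_sq hC.cub h⁻¹
  rw [inv_inv] at hzz
  have hX : X ρ h = ρ h + 1 := rfl
  rw [hX]
  generalize ρ h = y at *
  generalize ρ h⁻¹ = z at *
  have hz3 : z * z * z = y := by
    linear_combination (norm := noncomm_ring) hzz * z + hyz + hzz + (1 + z) * h2
  simp only [add_mul, mul_add] at E
  generalize X ρ c * X ρ d = A00 at *
  generalize X ρ c * X ρ (cm d h) = A01 at *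
  generalize X ρ c * X ρ (cm (cm d h) h) = A02 at *
  generalize X ρ (cm c h) * X ρ d = A10 at *
  generalize X ρ (cm c h) * X ρ (cm d h) = A11 at *
  generalize X ρ (cm c h) * X ρ (cm (cm d h) h) = A12 at *
  generalize X ρ (cm (cm c h) h) * X ρ d = A20 at *
  generalize X ρ (cm (cm c h) h) * X ρ (cm d h) = A21 at *
  generalize X ρ (cm (cm c h) h) * X ρ (cm (cm d h) h) = A22 at *
  linear_combination (norm := noncomm_ring) -(E * z) - ((A00 + A01 + A02 + A10 + A11 + A12 + A20 + A21 + A22)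
    + A00 - ((A00 + A01 + A02) + (A00 + A10 + A20))) * hyz - (A00 + A01 + A10 + A11) * hz3 + A00 * hyy
    + (A00 + A00 * y) * h2

/-- `C_{hh}D_{hh} = C_hD_hH²`. PROOF: (I5) for `([c,h,h], d)`: `C_{hh}D_{hh} = C_{hh}DH² + C_{hh}D_hH`; `C_{hh}DH² = 0` by (I10) (with commuted factors);
(I5) with commuted factors for `(c, [d,h])`: `C_{hh}D_h = CD_hH² + C_hD_hH`; so `C_{hh}D_hH = C D_h H³ + C_hD_hH² = C_hD_hH²` (`H³ = 0`). -/
theorem Core.chh_dhh (hC : Core ρ) {c d : H} (hc : c ∈ commutator H) (hd : d ∈ commutator H)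
    (h : H) :
    X ρ (cm (cm c h) h) * X ρ (cm (cm d h) h) = X ρ (cm c h) * X ρ (cm d h) * X ρ h ^ 2 := by
  have hn := cm_mem hc h
  have hnn := cm_mem hn h
  have hm := cm_mem hd h
  have e1 := hC.I5 hnn hd h
  have e2 := hC.I10 hd hc h h
  rw [hC.xcomm hd hnn] at e2
  have e3 := hC.I5 hm hc h
  rw [hC.xcomm hm hnn, hC.xcomm hm hc, hC.xcomm hm hn] at e3
  have h3 : X ρ h ^ 3 = 0 := hC.cub.cube h
  linear_combination (norm := noncomm_ring) e1 + e2 + e3 * X ρ h + X ρ c * X ρ (cm d h) * h3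

/-- `C_hD_{hh} + C_{hh}D_h = (C_hD + CD_h)H²`. PROOF: `C_hD_{hh} = C_hDH² + C_hD_hH` (I5), `C_{hh}D_h = CD_hH² + C_hD_hH` ((I5) with commuted factors). -/
theorem Core.chh_dh (hC : Core ρ) {c d : H} (hc : c ∈ commutator H) (hd : d ∈ commutator H)
    (h : H) :
    X ρ (cm c h) * X ρ (cm (cm d h) h) + X ρ (cm (cm c h) h) * X ρ (cm d h)
      = (X ρ (cm c h) * X ρ d + X ρ c * X ρ (cm d h)) * X ρ h ^ 2 := by
  have h2 := hC.cub.two
  have hn := cm_mem hc h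
  have hnn := cm_mem hn h
  have hm := cm_mem hd h
  have e1 := hC.I5 hn hd h
  have e3 := hC.I5 hm hc h
  rw [hC.xcomm hm hnn, hC.xcomm hm hc, hC.xcomm hm hn] at e3
  linear_combination (norm := noncomm_ring) e1 + e3 + X ρ (cm c h) * X ρ (cm d h) * X ρ h * h2

/-- **(I11')** `(CD_h + C_hD)H = C_hD_hH²`.
PROOF.  Multiply (II) by `H` on the right, `H³ = 0`: `C_hD_hH² + (CD_h + C_hD)hH + (C_hD_{hh} + C_{hh}D_h)H + C_{hh}D_{hh}H = 0`; by `chh_dh` and `chh_dhh` the last two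
terms vanish (`H³ = 0`).  So `(CD_h + C_hD)hH = C_hD_hH²`; multiply by `h⁻¹` on the right (`h` and `H` commute and `H²h⁻¹ = H²` as `H³ = 0`). -/
theorem Core.I11' (hC : Core ρ) {c d : H} (hc : c ∈ commutator H) (hd : d ∈ commutator H) (h : H) :
    (X ρ c * X ρ (cm d h) + X ρ (cm c h) * X ρ d) * X ρ h
      = X ρ (cm c h) * X ρ (cm d h) * X ρ h ^ 2 := by
  have h2 := hC.cub.two
  have E := hC.II hc hd h
  have e1 := hC.chh_dh hc hd h
  have e2 := hC.chh_dhh hc hd h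
  have hyz := CoreJ_yz (ρ := ρ) h
  have h3 := CoreJ_cube hC h
  have hX : X ρ h = ρ h + 1 := rfl
  rw [hX] at E e1 e2 ⊢
  generalize ρ h = y at *
  generalize ρ h⁻¹ = z at *
  generalize X ρ c * X ρ d = A00 at *
  generalize X ρ c * X ρ (cm d h) = A01 at *
  generalize X ρ (cm c h) * X ρ d = A10 at *
  generalize X ρ (cm c h) * X ρ (cm d h) = A11 at *
  generalize X ρ (cm c h) * X ρ (cm (cm d h) h) = A12 at *
  generalize X ρ (cm (cm c h) h) * X ρ (cm d h) = A21 at *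
  generalize X ρ (cm (cm c h) h) * X ρ (cm (cm d h) h) = A22 at *
  linear_combination (norm := noncomm_ring) (E - e1 - e2) * ((y + 1) * z) - A00 * h3 * z
    - (A10 + A01) * h3 * z - A11 * h3 * z - A11 * h3 * z + A11 * (y + 1) ^ 2 * hyz
    - (A01 + A10) * (y + 1) * hyz

/-- **(I11)** `C_hD + CD_h = CDH² + C_hD_hH`.
PROOF.  (I11') times `H`: `(CD_h + C_hD)H² = C_hD_hH³ = 0`, so `C_hD_{hh} + C_{hh}D_h = 0` by `chh_dh`.  (II) becomes
`CDH² + C_hD_hH + (CD_h + C_hD)h + C_hD_hH² = 0` (`chh_dhh`), and `(CD_h + C_hD)h = (CD_h + C_hD) + (CD_h + C_hD)H = (CD_h + C_hD) + C_hD_hH²`. -/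
theorem Core.I11 (hC : Core ρ) {c d : H} (hc : c ∈ commutator H) (hd : d ∈ commutator H) (h : H) :
    X ρ (cm c h) * X ρ d + X ρ c * X ρ (cm d h)
      = X ρ c * X ρ d * X ρ h ^ 2 + X ρ (cm c h) * X ρ (cm d h) * X ρ h := by
  have h2 := hC.cub.two
  have E := hC.II hc hd h
  have e1 := hC.chh_dh hc hd h
  have e2 := hC.chh_dhh hc hd h
  have e3 := hC.I11' hc hd h
  have h3 := CoreJ_cube hC h
  have hX : X ρ h = ρ h + 1 := rfl
  rw [hX] at E e1 e2 e3 ⊢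
  generalize ρ h = y at *
  generalize X ρ c * X ρ d = A00 at *
  generalize X ρ c * X ρ (cm d h) = A01 at *
  generalize X ρ (cm c h) * X ρ d = A10 at *
  generalize X ρ (cm c h) * X ρ (cm d h) = A11 at *
  generalize X ρ (cm c h) * X ρ (cm (cm d h) h) = A12 at *
  generalize X ρ (cm (cm c h) h) * X ρ (cm d h) = A21 at *
  generalize X ρ (cm (cm c h) h) * X ρ (cm (cm d h) h) = A22 at *
  linear_combination (norm := noncomm_ring) -E + e3 + e1 + e2 + e3 * (y + 1) + A11 * h3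
    + A11 * (y + 1) ^ 2 * h2

/-- **(I16)** `C_hD_hH = CD_hH²`.
PROOF.  (I11) with `d := [d,h]`: `C_hD_h + CD_{hh} = CD_hH² + C_hD_{hh}H`.  Here `C_hD_{hh}H = (C_hDH² + C_hD_hH)H = C_hD_hH²` and `CD_{hh} = CDH² + CD_hH`.  So
`CDH² + CD_hH + C_hD_h = CD_hH² + C_hD_hH²`.  Multiply by `H` (`H³ = 0`): `CD_hH² + C_hD_hH = 0`. -/
theorem Core.I16 (hC : Core ρ) {c d : H} (hc : c ∈ commutator H) (hd : d ∈ commutator H) (h : H) :
    X ρ (cm c h) * X ρ (cm d h) * X ρ h = X ρ c * X ρ (cm d h) * X ρ h ^ 2 := by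
  have h2 := hC.cub.two
  have hn := cm_mem hc h
  have hm := cm_mem hd h
  have E := hC.I11 hc hm h
  have F1 := hC.I5 hn hd h
  have F2 := hC.I5 hc hd h
  have h3 : X ρ h ^ 3 = 0 := hC.cub.cube h
  generalize X ρ h = x at *
  generalize X ρ c * X ρ d = A00 at *
  generalize X ρ c * X ρ (cm d h) = A01 at *
  generalize X ρ c * X ρ (cm (cm d h) h) = A02 at *
  generalize X ρ (cm c h) * X ρ d = A10 at *
  generalize X ρ (cm c h) * X ρ (cm d h) = A11 at *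
  generalize X ρ (cm c h) * X ρ (cm (cm d h) h) = A12 at *
  linear_combination (norm := noncomm_ring) E * x - F2 * x + F1 * x ^ 2 + (-A00 + A01 + A11) * h3
    + A10 * h3 * x - A01 * x ^ 2 * h2

/-- **(I17)** `C_hD + CD_h = CDH² + CD_hH²`.  PROOF: (I11) and (I16). -/
theorem Core.I17 (hC : Core ρ) {c d : H} (hc : c ∈ commutator H) (hd : d ∈ commutator H) (h : H) :
    X ρ (cm c h) * X ρ d + X ρ c * X ρ (cm d h)
      = X ρ c * X ρ d * X ρ h ^ 2 + X ρ c * X ρ (cm d h) * X ρ h ^ 2 := by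
  rw [hC.I11 hc hd h, hC.I16 hc hd h]

/-- **(I18)** `C_hDK² = CD_hK²` for all `k ∈ H`.  PROOF: (I17) times `K²`, and `CDH²K² = 0`, `CD_hH²K² = 0` by (I9). -/
theorem Core.I18 (hC : Core ρ) {c d : H} (hc : c ∈ commutator H) (hd : d ∈ commutator H) (h k : H) :
    X ρ (cm c h) * X ρ d * X ρ k ^ 2 = X ρ c * X ρ (cm d h) * X ρ k ^ 2 := by
  have h2 := hC.cub.two
  have E := hC.I17 hc hd h
  have e1 := hC.I9 hc hd k h
  have e2 := hC.I9 hc (cm_mem hd h) k h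
  linear_combination (norm := noncomm_ring) E * X ρ k ^ 2 + e1 * X ρ k + e2 * X ρ k
    - X ρ c * X ρ (cm d h) * X ρ k ^ 2 * h2

end

end E4
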