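import Pool.Agent.Lib.MP_8a95e3_al.Defs

/-!
# CoreS : the core situation, part 1

`H` a group, `K = commutator H`, `ρ : H →* R` cubic, `ρ(K)` abelian of exponent 2, and every product `C D E`
(`C = X ρ c`, `c, d, e ∈ K`) is killed by `X ρ h` on both sides.  Goal of the files `CoreS, CoreI, CoreJ, CoreF`: `C D E = 0`.

CONVENTIONS IN THE PROOFS.  Write `h` for `ρ h` (`h ∈ H`), and a capital letter for `X ρ`: `C = c + 1`, `H = h + 1`, ....
`T(c,d,e) := C D E`.  `c^h := h⁻¹ c h`, `cm c h = [c,h] = c⁻¹ c^h` (so `c^h = c [c,h]`), all these are in `K` if `c ∈ K`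
(`K` is normal).  All elements of `ρ(K)` commute and have square 1.  All signs are irrelevant (`2 = 0`).
-/

namespace E4

/-- the core situation -/
structure Core {H R : Type*} [Group H] [Ring R] (ρ : H →* R) : Prop where
  cub : Cub ρ
  comm : ∀ c ∈ commutator H, ∀ d ∈ commutator H, ρ c * ρ d = ρ d * ρ c
  sq : ∀ c ∈ commutator H, ρ c * ρ c = 1
  left : ∀ h : H, ∀ c ∈ commutator H, ∀ d ∈ commutator H, ∀ e ∈ commutator H,
    X ρ h * (X ρ c * X ρ d * X ρ e) = 0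
  right : ∀ h : H, ∀ c ∈ commutator H, ∀ d ∈ commutator H, ∀ e ∈ commutator H,
    X ρ c * X ρ d * X ρ e * X ρ h = 0

section basics

variable {H R : Type*} [Group H] [Ring R] {ρ : H →* R}

/-- PROOF: `ab + 1 = (a+1) + (b+1) + (a+1)(b+1)` as `2 = 0`. -/
theorem X_mul (h2 : (2 : R) = 0) (a b : H) :
    X ρ (a * b) = X ρ a + X ρ b + X ρ a * X ρ b := by
  unfold X
  rw [map_mul]
  linear_combination (norm := noncomm_ring) -(ρ a + ρ b + 1) * h2

/-- PROOF: multiply out. -/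
theorem X_conj (c h : H) : ρ h * X ρ (h⁻¹ * c * h) = X ρ c * ρ h := by
  unfold X
  rw [mul_add, add_mul, ← map_mul, ← map_mul, mul_one, one_mul]
  have : h * (h⁻¹ * c * h) = c * h := by group
  rw [this]

/-- PROOF: multiply out. -/
theorem X_conj' (c h : H) : X ρ (h * c * h⁻¹) * ρ h = ρ h * X ρ c := by
  unfold X
  rw [mul_add, add_mul, ← map_mul, ← map_mul, mul_one, one_mul]
  have : h * c * h⁻¹ * h = h * c := by group
  rw [this]

/-- In a cubic representation `ρ h ^ 2 = 1 + ρ h + ρ h⁻¹`.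
PROOF: `(h+1)^3 = h^3 + h^2 + h + 1 = 0` (char 2); multiply by `h⁻¹`. -/
theorem cub_sq (hc : Cub ρ) (h : H) : ρ h * ρ h = 1 + ρ h + ρ h⁻¹ := by
  have hE := hc.cube h
  have h2 := hc.two
  unfold X at hE
  have h1 : ρ h⁻¹ * ρ h = 1 := by rw [← map_mul, inv_mul_cancel, map_one]
  generalize ρ h = y at *
  generalize ρ h⁻¹ = y' at *
  linear_combination (norm := noncomm_ring) y' * hE - h1 * (y * y + 3 * y + 3) - (y + y + 1 + 1 + y') * h2

/-- `K` is normal: conjugates and commutators of elements of `K` are in `K`. PROOF: `commutator H` is a normal subgroup;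
`cm c h = c⁻¹ * (h⁻¹ c h)`. -/
theorem conj_mem {c : H} (hc : c ∈ commutator H) (h : H) : h⁻¹ * c * h ∈ commutator H := by
  have := (inferInstance : (commutator H).Normal).conj_mem c hc h⁻¹
  rwa [inv_inv] at this

theorem conj_mem' {c : H} (hc : c ∈ commutator H) (h : H) : h * c * h⁻¹ ∈ commutator H :=
  (inferInstance : (commutator H).Normal).conj_mem c hc h

theorem cm_mem {c : H} (hc : c ∈ commutator H) (h : H) : cm c h ∈ commutator H := by
  have h1 : cm c h = c⁻¹ * (h⁻¹ * c * h) := by unfold cm; group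
  rw [h1]
  exact mul_mem (inv_mem hc) (conj_mem hc h)

open scoped commutatorElement in
/-- all commutators are in `commutator H`: `cm a b = ⁅a⁻¹, b⁻¹⁆`. -/
theorem cm_mem_all (a b : H) : cm a b ∈ commutator H := by
  have h1 : cm a b = ⁅a⁻¹, b⁻¹⁆ := by
    unfold cm
    rw [commutatorElement_def]
    group
  rw [h1]
  exact Subgroup.commutator_mem_commutator (Subgroup.mem_top _) (Subgroup.mem_top _)

end basics

section core

variable {H R : Type*} [Group H] [Ring R] {ρ : H →* R}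

/-- PROOF: `ρ c` and `ρ d` commute. -/
theorem Core.xcomm (hC : Core ρ) {c d : H} (hc : c ∈ commutator H) (hd : d ∈ commutator H) :
    X ρ c * X ρ d = X ρ d * X ρ c := by
  have h1 := hC.comm c hc d hd
  unfold X
  linear_combination (norm := noncomm_ring) h1

/-- PROOF: `(c+1)^2 = c^2 + 1 = 0`. -/
theorem Core.xsq (hC : Core ρ) {c : H} (hc : c ∈ commutator H) : X ρ c * X ρ c = 0 := by
  have h1 := hC.sq c hc
  have h2 := hC.cub.two
  unfold X
  linear_combination (norm := noncomm_ring) h1 + (ρ c + 1) * h2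

/-- Additivity of `T` in the first argument. PROOF: `X_mul`, and `C D E F = C (D E F) = 0` by `Core.left` with `h = c`. -/
theorem Core.tadd (hC : Core ρ) {a b d e : H} (ha : a ∈ commutator H) (hb : b ∈ commutator H)
    (hd : d ∈ commutator H) (he : e ∈ commutator H) :
    X ρ (a * b) * X ρ d * X ρ e = X ρ a * X ρ d * X ρ e + X ρ b * X ρ d * X ρ e := by
  rw [X_mul hC.cub.two]
  have h1 := hC.left a b hb d hd e he
  linear_combination (norm := noncomm_ring) h1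

private theorem CoreS_lh (hC : Core ρ) {c d e : H} (hc : c ∈ commutator H) (hd : d ∈ commutator H)
    (he : e ∈ commutator H) (h : H) : ρ h * (X ρ c * X ρ d * X ρ e) = X ρ c * X ρ d * X ρ e := by
  have h1 := hC.left h c hc d hd e he
  have h2 := hC.cub.two
  have h3 : X ρ h = ρ h + 1 := rfl
  rw [h3, add_mul, one_mul] at h1
  generalize X ρ c * X ρ d * X ρ e = t at *
  linear_combination (norm := noncomm_ring) h1 - t * h2

private theorem CoreS_rh (hC : Core ρ) {c d e : H} (hc : c ∈ commutator H) (hd : d ∈ commutator H)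
    (he : e ∈ commutator H) (h : H) : X ρ c * X ρ d * X ρ e * ρ h = X ρ c * X ρ d * X ρ e := by
  have h1 := hC.right h c hc d hd e he
  have h2 := hC.cub.two
  have h3 : X ρ h = ρ h + 1 := rfl
  rw [h3, mul_add, mul_one] at h1
  generalize X ρ c * X ρ d * X ρ e = t at *
  linear_combination (norm := noncomm_ring) h1 - t * h2

private theorem CoreS_s12 (hC : Core ρ) {c d : H} (e : H) (hc : c ∈ commutator H) (hd : d ∈ commutator H) :
    X ρ c * X ρ d * X ρ e = X ρ d * X ρ c * X ρ e := by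
  rw [hC.xcomm hc hd]

private theorem CoreS_s23 (hC : Core ρ) (c : H) {d e : H} (hd : d ∈ commutator H)
    (he : e ∈ commutator H) : X ρ c * X ρ d * X ρ e = X ρ c * X ρ e * X ρ d := by
  rw [mul_assoc, hC.xcomm hd he, ← mul_assoc]

private theorem CoreS_tadd2 (hC : Core ρ) {a b c e : H} (ha : a ∈ commutator H) (hb : b ∈ commutator H)
    (hc : c ∈ commutator H) (he : e ∈ commutator H) :
    X ρ c * X ρ (a * b) * X ρ e = X ρ c * X ρ a * X ρ e + X ρ c * X ρ b * X ρ e := by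
  rw [CoreS_s12 hC e hc (mul_mem ha hb), hC.tadd ha hb hc he, CoreS_s12 hC e ha hc, CoreS_s12 hC e hb hc]

private theorem CoreS_tadd3 (hC : Core ρ) {a b c d : H} (ha : a ∈ commutator H) (hb : b ∈ commutator H)
    (hc : c ∈ commutator H) (hd : d ∈ commutator H) :
    X ρ c * X ρ d * X ρ (a * b) = X ρ c * X ρ d * X ρ a + X ρ c * X ρ d * X ρ b := by
  rw [CoreS_s23 hC c hd (mul_mem ha hb), CoreS_tadd2 hC ha hb hc hd, CoreS_s23 hC c ha hd, CoreS_s23 hC c hb hd]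

/-- Invariance: `T(c^h, d^h, e^h) = T(c,d,e)`. PROOF: the left side is `h⁻¹ C D E h`; by `Core.left`, `Core.right`
`h⁻¹ (C D E) = C D E` and `(C D E) h = C D E`. -/
theorem Core.tinv (hC : Core ρ) {c d e : H} (hc : c ∈ commutator H) (hd : d ∈ commutator H)
    (he : e ∈ commutator H) (h : H) :
    X ρ (h⁻¹ * c * h) * X ρ (h⁻¹ * d * h) * X ρ (h⁻¹ * e * h) = X ρ c * X ρ d * X ρ e := by
  have h1 : ρ h⁻¹ * ρ h = 1 := by rw [← map_mul, inv_mul_cancel, map_one]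
  have hc' := X_conj (ρ := ρ) c h
  have hd' := X_conj (ρ := ρ) d h
  have he' := X_conj (ρ := ρ) e h
  calc X ρ (h⁻¹ * c * h) * X ρ (h⁻¹ * d * h) * X ρ (h⁻¹ * e * h)
      = ρ h⁻¹ * ρ h * X ρ (h⁻¹ * c * h) * X ρ (h⁻¹ * d * h) * X ρ (h⁻¹ * e * h) := by rw [h1, one_mul]
    _ = ρ h⁻¹ * (ρ h * X ρ (h⁻¹ * c * h)) * X ρ (h⁻¹ * d * h) * X ρ (h⁻¹ * e * h) := by simp only [mul_assoc]
    _ = ρ h⁻¹ * X ρ c * (ρ h * X ρ (h⁻¹ * d * h)) * X ρ (h⁻¹ * e * h) := by rw [hc']; simp only [mul_assoc]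
    _ = ρ h⁻¹ * X ρ c * X ρ d * (ρ h * X ρ (h⁻¹ * e * h)) := by rw [hd']; simp only [mul_assoc]
    _ = ρ h⁻¹ * (X ρ c * X ρ d * X ρ e * ρ h) := by rw [he']; simp only [mul_assoc]
    _ = X ρ c * X ρ d * X ρ e := by rw [CoreS_rh hC hc hd he, CoreS_lh hC hc hd he]

private theorem CoreS_four (hC : Core ρ) (h : H) : ρ (h ^ 4) = 1 := by
  have hE := hC.cub.cube h
  have h2 := hC.cub.two
  unfold X at hE
  rw [map_pow]
  generalize ρ h = y at *
  linear_combination (norm := noncomm_ring) (y + 1) * hE - (2 * y ^ 3 + 3 * y ^ 2 + 2 * y + 1) * h2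

private theorem CoreS_conj (c h : H) : h⁻¹ * c * h = c * cm c h := by
  unfold cm
  group

private theorem CoreS_perm {a b e : R} (hab : a * b = b * a) (hae : a * e = e * a) (hbe : b * e = e * b)
    (ha : a * a = 1) : (a * e) * (a * b) * a = a * b * e := by
  calc (a * e) * (a * b) * a = a * (e * a) * (b * a) := by simp only [mul_assoc]
    _ = (a * a) * e * (a * b) := by rw [← hae, ← hab]; simp only [mul_assoc]
    _ = e * (a * b) := by rw [ha, one_mul]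
    _ = (e * a) * b := by rw [mul_assoc]
    _ = a * (e * b) := by rw [← hae, mul_assoc]
    _ = a * b * e := by rw [← hbe, mul_assoc]

/-- `c^{h^3} c^{h^2} c^h c` acts trivially, hence `ρ (c^{h⁻¹}) = ρ(c [c,h] [[c,h],h])`.
PROOF: `ρ(hc)^4 = 1 = ρ(h)^4` (`(y+1)^4 = y^4+1` in characteristic 2) and `(hc)^4 = h^4 c^{h^3} c^{h^2} c^h c`.
So `ρ(c^{h^3}) ρ(c^{h^2}) ρ(c^h) ρ(c) = 1`.  Now `ρ(c^{h^3}) = ρ(c^{h⁻¹})` as `ρ(h^4) = 1`; `c^h = c[c,h]`,
`c^{h^2} = (c[c,h])^h = c [c,h] [c,h] [[c,h],h]`; use that `ρ(K)` is commutative of exponent two: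
`ρ(c^{h⁻¹}) = ρ(c) ρ(c^h) ρ(c^{h^2}) = ρ(c)·ρ(c)ρ([c,h])·ρ(c)ρ([c,h,h]) = ρ(c)ρ([c,h])ρ([c,h,h])`. -/
theorem Core.conj_inv (hC : Core ρ) {c : H} (hc : c ∈ commutator H) (h : H) :
    ρ (h * c * h⁻¹) = ρ c * ρ (cm c h) * ρ (cm (cm c h) h) := by
  have h4 : ρ (h ^ 4) = 1 := CoreS_four hC h
  have h4' : ρ (h⁻¹ ^ 4) = 1 := CoreS_four hC h⁻¹
  have hn1 := cm_mem hc h
  have hn2 := cm_mem hn1 h
  -- the squares
  have e1 : ρ (h⁻¹ * c * h) = ρ c * ρ (cm c h) := by rw [CoreS_conj, map_mul]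
  have e2 : ρ (h⁻¹ * (h⁻¹ * c * h) * h) = ρ c * ρ (cm (cm c h) h) := by
    have : h⁻¹ * (h⁻¹ * c * h) * h = (h⁻¹ * c * h) * (h⁻¹ * cm c h * h) := by
      unfold cm
      group
    rw [this, CoreS_conj c h, CoreS_conj (cm c h) h, map_mul, map_mul, map_mul]
    have h1 := hC.sq _ hn1
    calc ρ c * ρ (cm c h) * (ρ (cm c h) * ρ (cm (cm c h) h))
        = ρ c * (ρ (cm c h) * ρ (cm c h)) * ρ (cm (cm c h) h) := by simp only [mul_assoc]
      _ = ρ c * ρ (cm (cm c h) h) := by rw [h1, mul_one]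
  have e3 : ρ (h⁻¹ * (h⁻¹ * (h⁻¹ * c * h) * h) * h) = ρ (h * c * h⁻¹) := by
    have : h⁻¹ * (h⁻¹ * (h⁻¹ * c * h) * h) * h = h * (h⁻¹ ^ 4) * c * (h ^ 4) * h⁻¹ := by
      simp only [pow_succ, pow_zero, one_mul]
      group
    rw [this, map_mul, map_mul, map_mul, map_mul, h4, h4', mul_one, mul_one, ← map_mul, ← map_mul]
  have e4 : ρ (h⁻¹ * (h⁻¹ * (h⁻¹ * c * h) * h) * h) * (ρ (h⁻¹ * (h⁻¹ * c * h) * h) * ρ (h⁻¹ * c * h) * ρ c) = 1 := by
    have h5 : ρ ((h * c) ^ 4) = 1 := CoreS_four hC (h * c)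
    have : (h * c) ^ 4 = h ^ 4 * ((h⁻¹ * (h⁻¹ * (h⁻¹ * c * h) * h) * h) *
        ((h⁻¹ * (h⁻¹ * c * h) * h) * (h⁻¹ * c * h) * c)) := by
      simp only [pow_succ, pow_zero, one_mul]
      group
    rw [this, map_mul, h4, one_mul, map_mul ρ (h⁻¹ * (h⁻¹ * (h⁻¹ * c * h) * h) * h),
      map_mul ρ (h⁻¹ * (h⁻¹ * c * h) * h * (h⁻¹ * c * h)), map_mul ρ (h⁻¹ * (h⁻¹ * c * h) * h)] at h5
    exact h5
  rw [e3, e1, e2, CoreS_perm (hC.comm _ hc _ hn1) (hC.comm _ hc _ hn2) (hC.comm _ hn1 _ hn2) (hC.sq _ hc)] at e4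
  -- the product P squares to one
  have e5 : (ρ c * ρ (cm c h) * ρ (cm (cm c h) h)) * (ρ c * ρ (cm c h) * ρ (cm (cm c h) h)) = 1 := by
    have := hC.sq (c * cm c h * cm (cm c h) h) (mul_mem (mul_mem hc hn1) hn2)
    rwa [map_mul, map_mul] at this
  calc ρ (h * c * h⁻¹) = ρ (h * c * h⁻¹) * ((ρ c * ρ (cm c h) * ρ (cm (cm c h) h)) *
        (ρ c * ρ (cm c h) * ρ (cm (cm c h) h))) := by rw [e5, mul_one]
    _ = (ρ (h * c * h⁻¹) * (ρ c * ρ (cm c h) * ρ (cm (cm c h) h))) *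
        (ρ c * ρ (cm c h) * ρ (cm (cm c h) h)) := by rw [mul_assoc (ρ (h * c * h⁻¹))]
    _ = ρ c * ρ (cm c h) * ρ (cm (cm c h) h) := by rw [e4, one_mul]

/-- `ρ([c,h,h,h]) = 1`.  PROOF: from `Core.conj_inv`: conjugating by `h` gives `ρ(c) = ρ(c^h)ρ([c,h]^h)ρ([c,h,h]^h)`
`= ρ(c [c,h]) ρ([c,h][c,h,h]) ρ([c,h,h][c,h,h,h])` and everything except `ρ(c) ρ([c,h,h,h])` cancels. -/
theorem Core.nu3 (hC : Core ρ) {c : H} (hc : c ∈ commutator H) (h : H) :
    ρ (cm (cm (cm c h) h) h) = 1 := by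
  have hn1 := cm_mem hc h
  have hn2 := cm_mem hn1 h
  have h1 := hC.conj_inv hc h
  have h0 : ρ h⁻¹ * ρ (h * c * h⁻¹) * ρ h = ρ c := by
    rw [← map_mul, ← map_mul]
    have : h⁻¹ * (h * c * h⁻¹) * h = c := by group
    rw [this]
  have h3 : ρ c = ρ (h⁻¹ * c * h) * ρ (h⁻¹ * cm c h * h) * ρ (h⁻¹ * cm (cm c h) h * h) := by
    rw [← map_mul, ← map_mul]
    have : h⁻¹ * c * h * (h⁻¹ * cm c h * h) * (h⁻¹ * cm (cm c h) h * h) =
        h⁻¹ * (c * cm c h * cm (cm c h) h) * h := by group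
    rw [this, map_mul, map_mul, map_mul, map_mul, ← h1, h0]
  rw [CoreS_conj c h, CoreS_conj (cm c h) h, CoreS_conj (cm (cm c h) h) h, map_mul, map_mul, map_mul] at h3
  have s0 := hC.sq _ hc
  have s1 := hC.sq _ hn1
  have s2 := hC.sq _ hn2
  have h4 : ρ c = ρ c * ρ (cm (cm (cm c h) h) h) := by
    calc ρ c = ρ c * ρ (cm c h) * (ρ (cm c h) * ρ (cm (cm c h) h)) *
          (ρ (cm (cm c h) h) * ρ (cm (cm (cm c h) h) h)) := h3
      _ = ρ c * (ρ (cm c h) * ρ (cm c h)) * (ρ (cm (cm c h) h) * ρ (cm (cm c h) h)) *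
          ρ (cm (cm (cm c h) h) h) := by simp only [mul_assoc]
      _ = ρ c * ρ (cm (cm (cm c h) h) h) := by rw [s1, s2, mul_one, mul_one]
  calc ρ (cm (cm (cm c h) h) h) = (ρ c * ρ c) * ρ (cm (cm (cm c h) h) h) := by rw [s0, one_mul]
    _ = ρ c * (ρ c * ρ (cm (cm (cm c h) h) h)) := by rw [mul_assoc]
    _ = 1 := by rw [← h4, s0]

/-- **(I1)** `C + hC + Ch + h⁻¹Ch⁻¹ + ChC = 0` for `c ∈ K`.
PROOF. `(hc)^2 = 1 + hc + (hc)⁻¹` by `cub_sq`, with `(hc)⁻¹ = c⁻¹h⁻¹`, and `c⁻¹ = c = C + 1` in `R`.  Insert `c = C+1`: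
`hChC + hCh + h²C + h² = 1 + hC + h + Ch⁻¹ + h⁻¹` and use `h² = 1 + h + h⁻¹`: `hChC + hCh + C + hC + h⁻¹C = hC + Ch⁻¹`, i.e.
`hChC + hCh + C + h⁻¹C + Ch⁻¹ = 0`; multiply by `h⁻¹` on the left and use `h⁻² = h² = 1 + h + h⁻¹`:
`ChC + Ch + h⁻¹C + (C + hC + h⁻¹C) + h⁻¹Ch⁻¹ = 0`. -/
theorem Core.I1 (hC : Core ρ) {c : H} (hc : c ∈ commutator H) (h : H) :
    X ρ c + ρ h * X ρ c + X ρ c * ρ h + ρ h⁻¹ * X ρ c * ρ h⁻¹ + X ρ c * ρ h * X ρ c = 0 := by
  have h2 := hC.cub.two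
  have E1 := cub_sq hC.cub (h * c)
  have hcinv : ρ c⁻¹ = ρ c := by
    have h1 := hC.sq _ hc
    have h3 : ρ c⁻¹ * ρ c = 1 := by rw [← map_mul, inv_mul_cancel, map_one]
    calc ρ c⁻¹ = ρ c⁻¹ * (ρ c * ρ c) := by rw [h1, mul_one]
      _ = ρ c := by rw [← mul_assoc, h3, one_mul]
  rw [mul_inv_rev, map_mul, map_mul, hcinv] at E1
  have E2 := cub_sq hC.cub h⁻¹
  rw [inv_inv] at E2
  have E3 : ρ h⁻¹ * ρ h = 1 := by rw [← map_mul, inv_mul_cancel, map_one]
  unfold X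
  generalize ρ c = a at *
  generalize ρ h = y at *
  generalize ρ h⁻¹ = z at *
  linear_combination (norm := noncomm_ring) z * E1 - E3 * (a * y * a - a) + E2 +
    (a + 1 + y * a + 2 * y + a * y + z * a * z + z) * h2

/-- **(I2)** `ChD + DhC = CD + hCD + CDh + h⁻¹CDh⁻¹` for `c, d ∈ K`.
PROOF. (I1) for `cd` minus (I1) for `c` and for `d`, with `X(cd) = C + D + CD`, gives
`ChD + DhC = CD + hCD + CDh + h⁻¹CDh⁻¹ + (C+D)hCD + CDh(C+D) + CDhCD`.  Now
`C h C D = C C^{h⁻¹} D^{h⁻¹} h = T(c, c^{h⁻¹}, d^{h⁻¹}) h`, where `c^{h⁻¹} = h c h⁻¹`; by `tinv`-invariance this is `T(c^h, c, d)`-like; to see that all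
four extra terms vanish use that the value `T` is killed by `X`: e.g. `T(c,c^{h⁻¹},d^{h⁻¹}) h = T(c,c^{h⁻¹},d^{h⁻¹})` (`Core.right`).
HERE DO NOT simplify further: state (I2) with these terms kept, as below, they are removed in the file `CoreI`
(after `T([c,h],d,e) = 0` is known).  -/
theorem Core.I2 (hC : Core ρ) {c d : H} (hc : c ∈ commutator H) (hd : d ∈ commutator H) (h : H) :
    X ρ c * ρ h * X ρ d + X ρ d * ρ h * X ρ c
      = X ρ c * X ρ d + ρ h * (X ρ c * X ρ d) + X ρ c * X ρ d * ρ h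
        + ρ h⁻¹ * (X ρ c * X ρ d) * ρ h⁻¹
        + (X ρ c + X ρ d) * ρ h * (X ρ c * X ρ d) + X ρ c * X ρ d * ρ h * (X ρ c + X ρ d)
        + X ρ c * X ρ d * ρ h * (X ρ c * X ρ d) := by
  have h2 := hC.cub.two
  have E1 := hC.I1 (mul_mem hc hd) h
  have E2 := hC.I1 hc h
  have E3 := hC.I1 hd h
  rw [X_mul h2] at E1
  generalize X ρ c = a at *
  generalize X ρ d = b at *
  generalize ρ h = y at *
  generalize ρ h⁻¹ = z at *
  linear_combination (norm := noncomm_ring) E1 - E2 - E3 - (a * b + y * (a * b) + a * b * y + z * (a * b) * z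
    + (a + b) * y * (a * b) + a * b * y * (a + b) + a * b * y * (a * b)) * h2

/-- `y D E = D^{h⁻¹} E^{h⁻¹} y` -/
private theorem CoreS_mv (d e h : H) :
    ρ h * X ρ d * X ρ e = X ρ (h * d * h⁻¹) * X ρ (h * e * h⁻¹) * ρ h := by
  rw [mul_assoc (X ρ (h * d * h⁻¹)), X_conj', ← mul_assoc, X_conj']

/-- **(S0)** `T([c,h],d,e) + T(c,[d,h],e) = T(c,d,[e,h,h])`.
PROOF.  Multiply (I2) by `E` on the right.  `C h D E = C D^{h⁻¹} E^{h⁻¹} h = T(c, d^{h⁻¹}, e^{h⁻¹}) = T(c^h, d, e)` (use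
`Core.right` to drop the factor `h`, then `Core.tinv`); `D h C E = T(d^h, c, e) = T(c, d^h, e)` (commute factors); `h C D E = CDE`; `C D h E = CD E^{h⁻¹} h = T(c,d,e^{h⁻¹})`;
`h⁻¹ C D h⁻¹ E = h⁻¹ (C D E^{h}) h⁻¹ = T(c,d,e^h)`.  The last three terms of (I2) times `E` vanish:
`C h C D E = C (hCDE) = C (CDE) = 0` by `Core.left`; `C D h C E = C D C^{h⁻¹} E^{h⁻¹} h` is a product of four factors, `= C (D C^{h⁻¹} E^{h⁻¹}) h = 0` by `Core.left`; similarly the others.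
So `T(c^h,d,e) + T(c,d^h,e) = 2T(c,d,e) + T(c,d,e^{h⁻¹}) + T(c,d,e^h) = T(c,d,e^{h⁻¹}) + T(c,d,e^h)`.
By additivity (`Core.tadd` and its versions for the other arguments, obtained by commuting factors; `T` depends only on `ρ` of the arguments) and
`c^h = c[c,h]`, `ρ(e^{h⁻¹}) = ρ(e [e,h] [e,h,h])` (`Core.conj_inv`), `e^h = e[e,h]`:
left side `= T([c,h],d,e) + T(c,[d,h],e)` (the two `T(c,d,e)` cancel), right side `= T(c,d,[e,h,h])`. -/
theorem Core.S0 (hC : Core ρ) {c d e : H} (hc : c ∈ commutator H) (hd : d ∈ commutator H)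
    (he : e ∈ commutator H) (h : H) :
    X ρ (cm c h) * X ρ d * X ρ e + X ρ c * X ρ (cm d h) * X ρ e
      = X ρ c * X ρ d * X ρ (cm (cm e h) h) := by
  have h2 := hC.cub.two
  have hch := conj_mem' hc h
  have hdh := conj_mem' hd h
  have heh := conj_mem' he h
  have hch' := conj_mem hc h
  have hdh' := conj_mem hd h
  have heh' := conj_mem he h
  have hnc := cm_mem hc h
  have hnd := cm_mem hd h
  have hne := cm_mem he h
  have hnne := cm_mem hne h
  -- the terms of (I2) times E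
  have hinv : ∀ u : H, h⁻¹ * (h * u * h⁻¹) * h = u := fun u => by group
  have t1 : X ρ c * ρ h * X ρ d * X ρ e = X ρ (h⁻¹ * c * h) * X ρ d * X ρ e := by
    have := hC.tinv hc hdh heh h
    rw [hinv, hinv] at this
    rw [this]
    calc X ρ c * ρ h * X ρ d * X ρ e = X ρ c * (ρ h * X ρ d * X ρ e) := by simp only [mul_assoc]
      _ = X ρ c * X ρ (h * d * h⁻¹) * X ρ (h * e * h⁻¹) * ρ h := by rw [CoreS_mv]; simp only [mul_assoc]
      _ = X ρ c * X ρ (h * d * h⁻¹) * X ρ (h * e * h⁻¹) := CoreS_rh hC hc hdh heh h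
  have t2 : X ρ d * ρ h * X ρ c * X ρ e = X ρ c * X ρ (h⁻¹ * d * h) * X ρ e := by
    have := hC.tinv hd hch heh h
    rw [hinv, hinv] at this
    rw [CoreS_s12 hC e hc hdh', this]
    calc X ρ d * ρ h * X ρ c * X ρ e = X ρ d * (ρ h * X ρ c * X ρ e) := by simp only [mul_assoc]
      _ = X ρ d * X ρ (h * c * h⁻¹) * X ρ (h * e * h⁻¹) * ρ h := by rw [CoreS_mv]; simp only [mul_assoc]
      _ = X ρ d * X ρ (h * c * h⁻¹) * X ρ (h * e * h⁻¹) := CoreS_rh hC hd hch heh h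
  have t3 : ρ h * (X ρ c * X ρ d) * X ρ e = X ρ c * X ρ d * X ρ e := by
    rw [mul_assoc (ρ h), CoreS_lh hC hc hd he]
  have t4 : X ρ c * X ρ d * ρ h * X ρ e = X ρ c * X ρ d * X ρ (h * e * h⁻¹) := by
    rw [mul_assoc, ← X_conj', ← mul_assoc]
    exact CoreS_rh hC hc hd heh h
  have t5 : ρ h⁻¹ * (X ρ c * X ρ d) * ρ h⁻¹ * X ρ e = X ρ c * X ρ d * X ρ (h⁻¹ * e * h) := by
    have h5 := X_conj' (ρ := ρ) e h⁻¹
    rw [inv_inv] at h5
    rw [mul_assoc _ (ρ h⁻¹), ← h5, ← mul_assoc, mul_assoc (ρ h⁻¹), CoreS_lh hC hc hd heh']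
    exact CoreS_rh hC hc hd heh' h⁻¹
  have t6 : (X ρ c + X ρ d) * ρ h * (X ρ c * X ρ d) * X ρ e = 0 := by
    have e1 : (X ρ c + X ρ d) * ρ h * (X ρ c * X ρ d) * X ρ e
        = X ρ c * (ρ h * (X ρ c * X ρ d * X ρ e)) + X ρ d * (ρ h * (X ρ c * X ρ d * X ρ e)) := by
      simp only [add_mul, mul_assoc]
    rw [e1, CoreS_lh hC hc hd he, hC.left c c hc d hd e he, hC.left d c hc d hd e he, add_zero]
  have t7 : X ρ c * X ρ d * ρ h * (X ρ c + X ρ d) * X ρ e = 0 := by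
    have e1 : X ρ c * X ρ d * ρ h * (X ρ c + X ρ d) * X ρ e
        = X ρ c * X ρ d * (ρ h * X ρ c * X ρ e) + X ρ c * X ρ d * (ρ h * X ρ d * X ρ e) := by
      simp only [add_mul, mul_add, mul_assoc]
    rw [e1, CoreS_mv, CoreS_mv]
    have e2 : X ρ c * X ρ d * (X ρ (h * c * h⁻¹) * X ρ (h * e * h⁻¹) * ρ h)
        = X ρ c * (X ρ d * X ρ (h * c * h⁻¹) * X ρ (h * e * h⁻¹)) * ρ h := by simp only [mul_assoc]
    have e3 : X ρ c * X ρ d * (X ρ (h * d * h⁻¹) * X ρ (h * e * h⁻¹) * ρ h)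
        = X ρ c * (X ρ d * X ρ (h * d * h⁻¹) * X ρ (h * e * h⁻¹)) * ρ h := by simp only [mul_assoc]
    rw [e2, e3, hC.left c d hd _ hch _ heh, hC.left c d hd _ hdh _ heh, zero_mul, add_zero]
  have t8 : X ρ c * X ρ d * ρ h * (X ρ c * X ρ d) * X ρ e = 0 := by
    have e1 : X ρ c * X ρ d * ρ h * (X ρ c * X ρ d) * X ρ e
        = X ρ c * (X ρ d * (ρ h * (X ρ c * X ρ d * X ρ e))) := by simp only [mul_assoc]
    rw [e1, CoreS_lh hC hc hd he, hC.left d c hc d hd e he, mul_zero]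
  have hI2 := congrArg (fun t => t * X ρ e) (hC.I2 hc hd h)
  simp only [add_mul (c := X ρ e)] at hI2
  rw [t1, t2, t3, t4, t5, t6, t7, t8, add_zero, add_zero, add_zero] at hI2
  -- additivity
  rw [CoreS_conj c h, CoreS_conj d h, CoreS_conj e h, hC.tadd hc hnc hd he, CoreS_tadd2 hC hd hnd hc he,
    CoreS_tadd3 hC he hne hc hd] at hI2
  have hX : X ρ (h * e * h⁻¹) = X ρ (e * cm e h * cm (cm e h) h) := by
    unfold X
    rw [hC.conj_inv he h, map_mul, map_mul]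
  rw [hX, CoreS_tadd3 hC (mul_mem he hne) hnne hc hd, CoreS_tadd3 hC he hne hc hd] at hI2
  generalize X ρ c * X ρ d * X ρ (cm (cm e h) h) = q1 at *
  generalize X ρ (cm c h) * X ρ d * X ρ e = q2 at *
  generalize X ρ c * X ρ (cm d h) * X ρ e = q3 at *
  generalize X ρ c * X ρ d * X ρ (cm e h) = q4 at *
  generalize X ρ c * X ρ d * X ρ e = q5 at *
  linear_combination (norm := noncomm_ring) hI2 + (q5 + q4) * h2

private theorem CoreS_lin (h2 : (2 : R) = 0) (t : ℕ → ℕ → ℕ → R)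
    (ha : ∀ i j k, t (i + 1) j k + t i (j + 1) k = t i j (k + 2))
    (hb : ∀ i j k, t (i + 1) j k + t i j (k + 1) = t i (j + 2) k)
    (hc : ∀ i j k, t i (j + 1) k + t i j (k + 1) = t (i + 2) j k)
    (hd : ∀ i j k, t (i + 1) j k + t i (j + 1) k + t i j (k + 1) + t (i + 1) (j + 1) k + t (i + 1) j (k + 1)
      + t i (j + 1) (k + 1) + t (i + 1) (j + 1) (k + 1) = 0)
    (z1 : ∀ i j k, t (i + 3) j k = 0) (z2 : ∀ i j k, t i (j + 3) k = 0) (z3 : ∀ i j k, t i j (k + 3) = 0) :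
    t 1 0 0 = 0 := by
  have hneg : ∀ a b : R, a + b = 0 → a = b := by
    intro a b hab
    linear_combination (norm := noncomm_ring) hab - b * h2
  have m1 : ∀ i j k, t (i + 1) j (k + 1) = t i (j + 1) (k + 1) := fun i j k =>
    hneg _ _ (by rw [ha i j (k + 1)]; exact z3 i j k)
  have m2 : ∀ i j k, t (i + 1) (j + 1) k = t i (j + 1) (k + 1) := fun i j k =>
    hneg _ _ (by rw [hb i (j + 1) k]; exact z2 i j k)
  have m3 : ∀ i j k, t (i + 1) (j + 1) k = t (i + 1) j (k + 1) := fun i j k => (m2 i j k).trans (m1 i j k).symm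
  -- squares
  have s2 : ∀ i j k, t i (j + 2) k = t i (j + 1) (k + 1) + t (i + 1) (j + 1) (k + 1) := by
    intro i j k
    have h1 := hc i (j + 1) k
    have h3 : t (i + 2) (j + 1) k = t (i + 1) (j + 1) (k + 1) := m2 (i + 1) j k
    rw [h3] at h1
    linear_combination (norm := noncomm_ring) h1 - (t i (j + 1) (k + 1)) * h2
  have s3 : ∀ i j k, t i j (k + 2) = t i (j + 1) (k + 1) + t (i + 1) (j + 1) (k + 1) := by
    intro i j k
    have h1 := hc i j (k + 1)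
    have h3 : t (i + 2) j (k + 1) = t (i + 1) (j + 1) (k + 1) := m1 (i + 1) j k
    rw [h3] at h1
    linear_combination (norm := noncomm_ring) h1 - (t i (j + 1) (k + 1)) * h2
  have s1 : ∀ i j k, t (i + 2) j k = t i (j + 1) (k + 1) + t (i + 1) (j + 1) (k + 1) := by
    intro i j k
    have h1 := ha (i + 1) j k
    have h3 : t (i + 1) j (k + 2) = t (i + 1) (j + 1) (k + 1) := by
      have := m1 i j (k + 1)
      rw [this]
      have h4 := m2 i j (k + 1)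
      exact h4.symm
    rw [h3, m2 i j k] at h1
    linear_combination (norm := noncomm_ring) h1 - (t i (j + 1) (k + 1)) * h2
  have sg : ∀ i j k, t (i + 2) j k = 0 := by
    intro i j k
    have h1 := ha i j k
    have h3 := hb i j k
    have h4 := hc i j k
    rw [s3 i j k] at h1
    rw [s2 i j k] at h3
    rw [s1 i j k] at h4
    rw [s1 i j k]
    linear_combination (norm := noncomm_ring) -h1 - h3 - h4 + (t (i + 1) j k + t i (j + 1) k + t i j (k + 1)) * h2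
      - (t i (j + 1) (k + 1) + t (i + 1) (j + 1) (k + 1)) * h2
  have eq12 : ∀ i j k, t (i + 1) j k = t i (j + 1) k := by
    intro i j k
    refine hneg _ _ ?_
    rw [ha, s3, ← s1, sg]
  have eq13 : ∀ i j k, t (i + 1) j k = t i j (k + 1) := by
    intro i j k
    refine hneg _ _ ?_
    rw [hb, s2, ← s1, sg]
  have mu : t 1 1 0 = 0 := by
    rw [← eq12 1 0 0]
    exact sg 0 0 0
  have mu' : t 0 1 1 = 0 := by
    rw [← m2 0 0 0]
    exact mu
  have mu'' : t 1 0 1 = 0 := by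
    rw [m1 0 0 0]
    exact mu'
  have mu3 : t 1 1 1 = 0 := by
    have := s1 0 0 0
    rw [sg 0 0 0, mu', zero_add] at this
    exact this.symm
  have h1 := hd 0 0 0
  rw [mu, mu', mu'', mu3, ← eq12 0 0 0, ← eq13 0 0 0] at h1
  simp only [zero_add, add_zero] at h1
  linear_combination (norm := noncomm_ring) h1 - (t 1 0 0) * h2

/-- **(S2)** `T([c,h],d,e) = 0`.
PROOF.  Fix `h`.  Write `T_{ijk} = T(ν^i c, ν^j d, ν^k e)` where `ν(c) = [c,h]` (`ν^0 = id`); by `Core.nu3` (and `T` depends only on `ρ` of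
the arguments, `X ρ` of an element with `ρ = 1` is `0`) `T_{ijk} = 0` if one index is `≥ 3`.  Relations, for all `i,j,k ≥ 0` (apply (S0), with permuted roles of the
arguments since `T` is symmetric, to `ν^i c, ν^j d, ν^k e`):
  (a) `T_{i+1,j,k} + T_{i,j+1,k} = T_{i,j,k+2}`, (b) `T_{i+1,j,k} + T_{i,j,k+1} = T_{i,j+2,k}`, (c) `T_{i,j+1,k} + T_{i,j,k+1} = T_{i+2,j,k}`;
and invariance `T(c^h,d^h,e^h) = T(c,d,e)` expanded by additivity with `c^h = c ν(c)`:
  (d) `T_{i+1,j,k} + T_{i,j+1,k} + T_{i,j,k+1} + T_{i+1,j+1,k} + T_{i+1,j,k+1} + T_{i,j+1,k+1} + T_{i+1,j+1,k+1} = 0`.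
In operator form with commuting operators `ν1, ν2, ν3` acting on the three arguments (`νi^3 = 0`): `ν1+ν2 = ν3²`, `ν1+ν3 = ν2²`, `ν2+ν3 = ν1²`.
Multiply `ν1+ν2 = ν3²` by `ν3`: `ν1ν3 = ν2ν3`; similarly `ν1ν2 = ν3ν2` and `ν1ν2 = ν1ν3`; let `μ` be the common value.
`ν1²ν2 = (ν2+ν3)ν2 = ν2² + μ` and `ν1²ν2 = ν1(ν1ν2) = ν1(ν2ν3) = ν1ν2ν3`; so `ν2² = μ + ν1ν2ν3`, and in the same way `ν3² = ν1² = μ + ν1ν2ν3`.
So `ν1+ν2 = ν1+ν3 = ν2+ν3 = σ := ν1²`; the sum of the three left sides is `0`, so `3σ = σ = 0`.  So `ν1 = ν2 = ν3`, `μ = ν1ν2 = ν1² = 0`, and (d) becomes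
`ν1+ν2+ν3 + 3μ + ν1μ = 3ν1 = ν1 = 0`.  So `T_{100} = 0`. -/
theorem Core.S2 (hC : Core ρ) {c d e : H} (hc : c ∈ commutator H) (hd : d ∈ commutator H)
    (he : e ∈ commutator H) (h : H) :
    X ρ (cm c h) * X ρ d * X ρ e = 0 := by
  have h2 := hC.cub.two
  let ν : ℕ → H → H := fun n => (fun u => cm u h)^[n]
  have hν0 : ∀ u, ν 0 u = u := fun u => rfl
  have hνs : ∀ n u, ν (n + 1) u = cm (ν n u) h := fun n u => Function.iterate_succ_apply' _ _ _
  have hmem : ∀ n u, u ∈ commutator H → ν n u ∈ commutator H := by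
    intro n u hu
    induction n with
    | zero => exact hu
    | succ n ih =>
      rw [hνs]
      exact cm_mem ih h
  have hX3 : ∀ n u, u ∈ commutator H → X ρ (ν (n + 3) u) = 0 := by
    intro n u hu
    have h3 := hC.nu3 (hmem n u hu) h
    have : ν (n + 3) u = cm (cm (cm (ν n u) h) h) h := by rw [hνs, hνs, hνs]
    rw [this]
    unfold X
    rw [h3, one_add_one_eq_two, h2]
  have key := CoreS_lin h2 (fun i j k => X ρ (ν i c) * X ρ (ν j d) * X ρ (ν k e)) ?_ ?_ ?_ ?_ ?_ ?_ ?_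
  · simpa only [hν0, hνs, zero_add] using key
  · intro i j k
    have := hC.S0 (hmem i c hc) (hmem j d hd) (hmem k e he) h
    simp only [hνs]
    exact this
  · intro i j k
    have := hC.S0 (hmem i c hc) (hmem k e he) (hmem j d hd) h
    simp only [hνs]
    have m1 := cm_mem (hmem i c hc) h
    have m2 := cm_mem (hmem k e he) h
    have m3 := cm_mem (cm_mem (hmem j d hd) h) h
    rw [CoreS_s23 hC _ (hmem k e he) (hmem j d hd), CoreS_s23 hC _ m2 (hmem j d hd),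
      CoreS_s23 hC _ (hmem k e he) m3] at this
    exact this
  · intro i j k
    have := hC.S0 (hmem j d hd) (hmem k e he) (hmem i c hc) h
    simp only [hνs]
    have m1 := cm_mem (hmem j d hd) h
    have m2 := cm_mem (hmem k e he) h
    have m3 := cm_mem (cm_mem (hmem i c hc) h) h
    rw [CoreS_s23 hC _ (hmem k e he) (hmem i c hc), CoreS_s12 hC _ m1 (hmem i c hc),
      CoreS_s23 hC _ m2 (hmem i c hc), CoreS_s12 hC _ (hmem j d hd) (hmem i c hc),
      CoreS_s23 hC _ (hmem k e he) m3, CoreS_s12 hC _ (hmem j d hd) m3] at this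
    exact this
  · intro i j k
    have hi := hmem i c hc
    have hj := hmem j d hd
    have hk := hmem k e he
    have mi := cm_mem hi h
    have mj := cm_mem hj h
    have mk := cm_mem hk h
    have := hC.tinv hi hj hk h
    simp only [hνs]
    rw [CoreS_conj (ν i c) h, CoreS_conj (ν j d) h, CoreS_conj (ν k e) h,
      hC.tadd hi mi (mul_mem hj mj) (mul_mem hk mk), CoreS_tadd2 hC hj mj hi (mul_mem hk mk),
      CoreS_tadd2 hC hj mj mi (mul_mem hk mk), CoreS_tadd3 hC hk mk hi hj, CoreS_tadd3 hC hk mk hi mj,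
      CoreS_tadd3 hC hk mk mi hj, CoreS_tadd3 hC hk mk mi mj] at this
    linear_combination (norm := noncomm_ring) this
  · intro i j k
    show X ρ (ν (i + 3) c) * X ρ (ν j d) * X ρ (ν k e) = 0
    rw [hX3 i c hc, zero_mul, zero_mul]
  · intro i j k
    show X ρ (ν i c) * X ρ (ν (j + 3) d) * X ρ (ν k e) = 0
    rw [hX3 j d hd, mul_zero, zero_mul]
  · intro i j k
    show X ρ (ν i c) * X ρ (ν j d) * X ρ (ν (k + 3) e) = 0
    rw [hX3 k e he, mul_zero]

end core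

end E4
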