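import Pool.Agent.Lib.MP_8a95e3_al.TId

/-!
# DWord : the derived words
-/

open scoped commutatorElement

namespace E4

/-- `dl 0 = x_0`, `dl (d+1) = [dl d (x_0,x_2,...), dl d (x_1,x_3,...)]` -/
noncomputable def dl : ℕ → F
  | 0 => x 0
  | d + 1 => cm (ee 0 (dl d)) (ee 1 (dl d))

/-- PROOF: induction; homomorphisms map `derivedSeries` into `derivedSeries` (`map_derivedSeries_le_derivedSeries`). -/
theorem dl_mem (d : ℕ) : dl d ∈ derivedSeries F d := by
  induction d with
  | zero =>
    rw [derivedSeries_zero]
    exact Subgroup.mem_top _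
  | succ d ih =>
    have h : ∀ i : ℕ, ee i (dl d) ∈ derivedSeries F d := fun i =>
      map_derivedSeries_le_derivedSeries (ee i) d (Subgroup.mem_map_of_mem _ ih)
    have e : dl (d + 1) = ⁅(ee 0 (dl d))⁻¹, (ee 1 (dl d))⁻¹⁆ := by
      show cm (ee 0 (dl d)) (ee 1 (dl d)) = _
      rw [cm, commutatorElement_def, inv_inv, inv_inv]
    rw [e, derivedSeries_succ]
    exact Subgroup.commutator_mem_commutator (Subgroup.inv_mem _ (h 0)) (Subgroup.inv_mem _ (h 1))

private theorem DWord_pair {G : Type*} [Group G] (f f' : F →* G) (w : F) :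
    ∃ h : F →* G, cm (f w) (f' w) = h (cm (ee 0 w) (ee 1 w)) := by
  refine ⟨FreeGroup.lift (fun n => if n % 2 = 0 then f (x (n / 2)) else f' (x (n / 2))), ?_⟩
  have h0 : (FreeGroup.lift (fun n => if n % 2 = 0 then f (x (n / 2)) else f' (x (n / 2)))).comp (ee 0) = f := by
    apply FreeGroup.ext_hom
    intro j
    rw [MonoidHom.comp_apply, ee, FreeGroup.lift_apply_of, x, FreeGroup.lift_apply_of, if_pos (by omega)]
    rw [show (2 * j + 0) / 2 = j by omega]
    rfl
  have h1 : (FreeGroup.lift (fun n => if n % 2 = 0 then f (x (n / 2)) else f' (x (n / 2)))).comp (ee 1) = f' := by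
    apply FreeGroup.ext_hom
    intro j
    rw [MonoidHom.comp_apply, ee, FreeGroup.lift_apply_of, x, FreeGroup.lift_apply_of, if_neg (by omega)]
    rw [show (2 * j + 1) / 2 = j by omega]
    rfl
  have h0' := DFunLike.congr_fun h0 w
  have h1' := DFunLike.congr_fun h1 w
  rw [MonoidHom.comp_apply] at h0' h1'
  rw [cm, cm, map_mul, map_mul, map_mul, map_inv, map_inv, h0', h1']

private theorem DWord_normal {G : Type*} [Group G] (w : F) :
    (Subgroup.closure {g : G | ∃ f : F →* G, g = f w}).Normal := by
  constructor
  intro n hn g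
  induction hn using Subgroup.closure_induction with
  | mem y hy =>
    obtain ⟨f, rfl⟩ := hy
    apply Subgroup.subset_closure
    exact ⟨(MulAut.conj g).toMonoidHom.comp f, rfl⟩
  | one => simp
  | mul a b _ _ iha ihb =>
    have e : g * (a * b) * g⁻¹ = g * a * g⁻¹ * (g * b * g⁻¹) := by group
    rw [e]
    exact Subgroup.mul_mem _ iha ihb
  | inv a _ iha =>
    have e : g * a⁻¹ * g⁻¹ = (g * a * g⁻¹)⁻¹ := by group
    rw [e]
    exact Subgroup.inv_mem _ iha

/-- The values of `dl d` generate the `d`-th derived group of any group.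

PROOF.  Induction on `d`.  `d = 0`: every `g` is `f (x 0)` for `f = lift (fun _ => g)`.  Step: let `D = closure {f (dl d)}`, `D' = closure {f (dl (d+1))}`.  `derivedSeries G (d+1) = ⁅derivedSeries G d, derivedSeries G d⁆ ≤ ⁅D, D⁆`.
`D'` is normal (its generating set is closed under conjugation: `h (f w) h⁻¹ = (conj_h ∘ f) w`), and for two generators `a = f (dl d)`, `b = f' (dl d)` of `D`: `cm a b = F (dl (d+1))` where `F (x (2i)) = f (x i)`, `F (x (2i+1)) = f' (x i)`; so `cm a b ∈ D'` and (values of `dl d` at
inverse elements are not needed: if all generators of `D` commute modulo the normal subgroup `D'` then `⁅D,D⁆ ≤ D'`; e.g. `Subgroup.commutator_le` and closure induction, or map to `G ⧸ D'`: the image of `D` is generated by commuting elements so commutative). -/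
theorem dser_le {G : Type*} [Group G] (d : ℕ) :
    derivedSeries G d ≤ Subgroup.closure {g : G | ∃ f : F →* G, g = f (dl d)} := by
  induction d with
  | zero =>
    intro g _
    apply Subgroup.subset_closure
    refine ⟨FreeGroup.lift (fun _ => g), ?_⟩
    show g = FreeGroup.lift (fun _ => g) (x 0)
    rw [x, FreeGroup.lift_apply_of]
  | succ d ih =>
    rw [derivedSeries_succ]
    refine (Subgroup.commutator_mono ih ih).trans ?_
    have hN := DWord_normal (G := G) (dl (d + 1))
    have key : ∀ g₁ ∈ Subgroup.closure {g : G | ∃ f : F →* G, g = f (dl d)},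
        ∀ g₂ ∈ Subgroup.closure {g : G | ∃ f : F →* G, g = f (dl d)},
        Commute (QuotientGroup.mk' (Subgroup.closure {g : G | ∃ f : F →* G, g = f (dl (d + 1))}) g₁)
          (QuotientGroup.mk' (Subgroup.closure {g : G | ∃ f : F →* G, g = f (dl (d + 1))}) g₂) := by
      intro g₁ h₁ g₂ h₂
      induction h₁ using Subgroup.closure_induction with
      | mem a ha =>
        obtain ⟨f, rfl⟩ := ha
        induction h₂ using Subgroup.closure_induction with
        | mem b hb =>
          obtain ⟨f', rfl⟩ := hb
          obtain ⟨h, hh⟩ := DWord_pair f f' (dl d)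
          have hm : cm (f (dl d)) (f' (dl d)) ∈ Subgroup.closure {g : G | ∃ f : F →* G, g = f (dl (d + 1))} := by
            apply Subgroup.subset_closure
            exact ⟨h, hh⟩
          have h1 : QuotientGroup.mk' (Subgroup.closure {g : G | ∃ f : F →* G, g = f (dl (d + 1))})
              (cm (f (dl d)) (f' (dl d))) = 1 := by
            rw [QuotientGroup.mk'_apply, QuotientGroup.eq_one_iff]
            exact hm
          rw [cm, map_mul, map_mul, map_mul, map_inv, map_inv] at h1
          rw [Commute, SemiconjBy]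
          generalize QuotientGroup.mk' (Subgroup.closure {g : G | ∃ f : F →* G, g = f (dl (d + 1))})
              (f (dl d)) = u at h1 ⊢
          generalize QuotientGroup.mk' (Subgroup.closure {g : G | ∃ f : F →* G, g = f (dl (d + 1))})
              (f' (dl d)) = v at h1 ⊢
          calc u * v = v * u * (u⁻¹ * v⁻¹ * u * v) := by group
            _ = v * u := by rw [h1, mul_one]
        | one => rw [map_one]; exact Commute.one_right _
        | mul a b _ _ iha ihb => rw [map_mul]; exact iha.mul_right ihb
        | inv a _ iha => rw [map_inv]; exact iha.inv_right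
      | one => rw [map_one]; exact Commute.one_left _
      | mul a b _ _ iha ihb => rw [map_mul]; exact iha.mul_left ihb
      | inv a _ iha => rw [map_inv]; exact iha.inv_left
    rw [Subgroup.commutator_le]
    intro g₁ h₁ g₂ h₂
    rw [← QuotientGroup.eq_one_iff]
    have h := key g₁ h₁ g₂ h₂
    have e : ((⁅g₁, g₂⁆ : G) : G ⧸ Subgroup.closure {g : G | ∃ f : F →* G, g = f (dl (d + 1))}) =
        ⁅QuotientGroup.mk' (Subgroup.closure {g : G | ∃ f : F →* G, g = f (dl (d + 1))}) g₁,
          QuotientGroup.mk' (Subgroup.closure {g : G | ∃ f : F →* G, g = f (dl (d + 1))}) g₂⁆ := by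
      rw [← map_commutatorElement]
      rfl
    rw [e]
    exact h.commutator_eq

/-- PROOF: `dser_le` for `G = F`: all values `f (dl d)` are in `V`. -/
theorem dser_le_verb {V : Subgroup F} (hV : Verb4 V) (d : ℕ) (h : dl d ∈ V) :
    derivedSeries F d ≤ V := by
  refine (dser_le d).trans ?_
  rw [Subgroup.closure_le]
  rintro g ⟨f, rfl⟩
  exact hV.endo f _ h

end E4
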