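import Mathlib

/-!
# MP_8a95e3_al : basic definitions (helper34)

`F` = free group on `x_0, x_1, ...`.  `X rho h = rho h + 1`.  All rings have `2 = 0`.
-/

namespace E4

/-- `X rho h = rho h + 1` (in characteristic two this is `rho h - 1`). -/
def X {H R : Type*} [Group H] [Ring R] (ρ : H →* R) (h : H) : R := ρ h + 1

/-- cubic representation: `(rho h + 1)^3 = 0` for all `h`, in a ring with `2 = 0`. -/
structure Cub {H R : Type*} [Group H] [Ring R] (ρ : H →* R) : Prop where
  two : (2 : R) = 0
  cube : ∀ h : H, X ρ h ^ 3 = 0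

/-- the ring is additively spanned by the image of the group -/
def Spn {H R : Type*} [Group H] [Ring R] (ρ : H →* R) : Prop :=
  AddSubgroup.closure (Set.range ρ) = ⊤

/-- exponent dividing four -/
def Exp4 (G : Type*) [Group G] : Prop := ∀ g : G, g ^ 4 = 1

/-- commutator `[a,b] = a^{-1} b^{-1} a b` (right action convention). -/
def cm {G : Type*} [Group G] (a b : G) : G := a⁻¹ * b⁻¹ * a * b

/-- iterated commutator subgroup `[B,K,...,K]` (`n` times `K`) -/
def itc {G : Type*} [Group G] (B K : Subgroup G) : ℕ → Subgroup G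
  | 0 => B
  | n + 1 => ⁅itc B K n, K⁆

/-- lower central series of a subgroup `K` of `G`, as subgroups of `G`:
`lcs K 0 = K`, `lcs K (n+1) = [lcs K n, K]`. -/
def lcs {G : Type*} [Group G] (K : Subgroup G) (n : ℕ) : Subgroup G := itc K K n

/-- The free group of countable rank. -/
abbrev F : Type := FreeGroup ℕ

/-- the free generators -/
def x (i : ℕ) : F := FreeGroup.of i

/-- fully invariant (verbal) subgroups of `F` containing all fourth powers -/
structure Verb4 (V : Subgroup F) : Prop where
  endo : ∀ φ : F →* F, ∀ w ∈ V, φ w ∈ V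
  four : ∀ w : F, w ^ 4 ∈ V

/-- the verbal closure of a set of words -/
def vcl (S : Set F) : Subgroup F :=
  Subgroup.closure {w : F | ∃ s ∈ S, ∃ φ : F →* F, w = φ s}

/-- a group satisfies all laws in `S` -/
def Sat (G : Type*) [Group G] (S : Set F) : Prop :=
  ∀ w ∈ S, ∀ f : ℕ → G, FreeGroup.lift f w = 1

/-- a verbal subgroup is soluble if the quotient is -/
def Sol (V : Subgroup F) : Prop := ∃ d : ℕ, derivedSeries F d ≤ V

/-- the product of the `X` of the commutators `[x_0,x_1], [x_2,x_3], ...` (`m` factors) -/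
def wA {R : Type*} [Ring R] (ρ : F →* R) (m : ℕ) : R :=
  ((List.range m).map (fun i => X ρ (cm (x (2 * i)) (x (2 * i + 1))))).prod

/-- `T_g = rho(g)^2 + 1` -/
def sqe {H R : Type*} [Group H] [Ring R] (ρ : H →* R) (g : H) : R := ρ g ^ 2 + 1

/-- `Lambda`: the additive span of the `T_g` -/
def Lam {H R : Type*} [Group H] [Ring R] (ρ : H →* R) : AddSubgroup R :=
  AddSubgroup.closure (Set.range (sqe ρ))

/-- Lie bracket in characteristic two -/
def br {R : Type*} [Ring R] (a b : R) : R := a * b + b * a

/-- the polynomial `q(a,b;w,v)` -/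
def q4 {R : Type*} [Ring R] (a b w v : R) : R :=
  a * b * w * v + a * b * v * w + w * b * v * a + v * a * b * w + v * w * b * a

end E4
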