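import Pool.Agent.Lib.MP_8a95e3_al.Lam

/-!
# F4 : the identity `f_4 = 0`
-/

namespace E4

section

variable {H R : Type*} [Group H] [Ring R] {ρ : H →* R}

private def F4_ev (T : Fin 4 → R) (l : List (List (Fin 4))) : R :=
  (l.map fun w => (w.map T).prod).sum

private def F4_mul (l l' : List (List (Fin 4))) : List (List (Fin 4)) :=
  l.flatMap fun w => l'.map fun v => w ++ v

private def F4_nd : List (Fin 4) → Bool
  | [] => true
  | a :: l => !(l.elem a) && F4_nd l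

private theorem F4_ev_append (T : Fin 4 → R) (l l' : List (List (Fin 4))) :
    F4_ev T (l ++ l') = F4_ev T l + F4_ev T l' := by
  simp only [F4_ev, List.map_append, List.sum_append]

private theorem F4_ev_left (T : Fin 4 → R) (w : List (Fin 4)) (l : List (List (Fin 4))) :
    (w.map T).prod * F4_ev T l = F4_ev T (l.map fun v => w ++ v) := by
  induction l with
  | nil => simp only [F4_ev, List.map_nil, List.sum_nil, mul_zero]
  | cons v l ih =>
    have h3 : F4_ev T (v :: l) = (v.map T).prod + F4_ev T l := rfl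
    have h4 : F4_ev T ((v :: l).map fun v => w ++ v) = ((w ++ v).map T).prod +
      F4_ev T (l.map fun v => w ++ v) := rfl
    rw [h3, h4, mul_add, List.map_append, List.prod_append, ih]

private theorem F4_ev_mul (T : Fin 4 → R) (l l' : List (List (Fin 4))) :
    F4_ev T l * F4_ev T l' = F4_ev T (F4_mul l l') := by
  induction l with
  | nil => simp only [F4_ev, F4_mul, List.map_nil, List.sum_nil, zero_mul, List.flatMap_nil]
  | cons w l ih =>
    have h1 : F4_ev T (w :: l) = (w.map T).prod + F4_ev T l := rfl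
    have h2 : F4_mul (w :: l) l' = (l'.map fun v => w ++ v) ++ F4_mul l l' := rfl
    rw [h1, h2, F4_ev_append, add_mul, ih, F4_ev_left]

private theorem F4_zero (T : Fin 4 → R) (hT : ∀ (i : Fin 4) (l : List (Fin 4)),
    T i * (l.map T).prod * T i = 0) (w : List (Fin 4)) (h : F4_nd w = false) :
    (w.map T).prod = 0 := by
  induction w with
  | nil => exact absurd h (by decide)
  | cons a l ih =>
    rw [List.map_cons, List.prod_cons]
    have h1 : (!(l.elem a) && F4_nd l) = false := h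
    rcases Bool.and_eq_false_iff.1 h1 with h2 | h2
    · have h3 : a ∈ l := List.elem_iff.1 (by simpa using h2)
      obtain ⟨u, v, rfl⟩ := List.append_of_mem h3
      rw [List.map_append, List.prod_append, List.map_cons, List.prod_cons, ← mul_assoc, ← mul_assoc,
        hT, zero_mul]
    · rw [ih h2, mul_zero]

private theorem F4_filter (T : Fin 4 → R) (hT : ∀ (i : Fin 4) (l : List (Fin 4)),
    T i * (l.map T).prod * T i = 0) (l : List (List (Fin 4))) :
    F4_ev T l = F4_ev T (l.filter F4_nd) := by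
  induction l with
  | nil => rfl
  | cons w l ih =>
    have h1 : F4_ev T (w :: l) = (w.map T).prod + F4_ev T l := rfl
    rw [h1, List.filter_cons]
    split
    · have h2 : F4_ev T (w :: l.filter F4_nd) = (w.map T).prod + F4_ev T (l.filter F4_nd) := rfl
      rw [h2, ih]
    · next h =>
      rw [F4_zero T hT w (by simpa using h), zero_add, ih]

private def F4_Y : List (List (Fin 4)) := [[0], [1], [2], [3], [0, 1], [0, 2], [0, 3], [1, 2], [1, 3], [2, 3], [0, 1, 2], [0, 1, 3], [0, 2, 3], [1, 2, 3], [0, 1, 2, 3]]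

private def F4_Z : List (List (Fin 4)) := [[0, 1, 2], [0, 1, 3], [0, 1, 2, 3], [0, 2, 1], [0, 2, 3], [0, 2, 1, 3], [0, 3, 1], [0, 3, 2], [0, 3, 1, 2], [0, 1, 2, 3], [0, 1, 3, 2], [0, 2, 3, 1], [1, 0, 2], [1, 0, 3], [1, 0, 2, 3], [1, 2, 0], [1, 2, 3], [1, 2, 0, 3], [1, 3, 0], [1, 3, 2], [1, 3, 0, 2], [1, 0, 2, 3], [1, 0, 3, 2], [1, 2, 3, 0], [2, 0, 1], [2, 0, 3], [2, 0, 1, 3], [2, 1, 0], [2, 1, 3], [2, 1, 0, 3], [2, 3, 0], [2, 3, 1], [2, 3, 0, 1], [2, 0, 1, 3], [2, 0, 3, 1], [2, 1, 3, 0], [3, 0, 1], [3, 0, 2], [3, 0, 1, 2], [3, 1, 0], [3, 1, 2], [3, 1, 0, 2], [3, 2, 0], [3, 2, 1], [3, 2, 0, 1], [3, 0, 1, 2], [3, 0, 2, 1], [3, 1, 2, 0], [0, 1, 2, 3], [0, 1, 3, 2], [0, 2, 1, 3], [0, 2, 3, 1], [0, 3, 1, 2], [0, 3, 2, 1], [1, 2, 0, 3], [1, 2, 3, 0], [1, 3, 0, 2], [1, 3, 2, 0], [2, 3, 0, 1], [2, 3, 1, 0]]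

private theorem F4_comp : ((F4_mul ((F4_mul F4_Y F4_Y).filter F4_nd) F4_Y).filter F4_nd) = F4_Z := by
  decide +kernel

private theorem F4_cube (a b c d : R) (h2 : ∀ r : R, r + r = 0)
    (hT : ∀ (i : Fin 4) (l : List (Fin 4)), ![a, b, c, d] i * (l.map ![a, b, c, d]).prod * ![a, b, c, d] i = 0)
    (h3 : ((1 + a) * (1 + b) * (1 + c) * (1 + d) + 1) ^ 3 = 0)
    (s1 : s3 a b c = 0) (s2 : s3 a b d = 0) (s3' : s3 a c d = 0) (s4 : s3 b c d = 0) :
    f4 a b c d = 0 := by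
  have e1 : (1 + a) * (1 + b) * (1 + c) * (1 + d) + 1 = F4_ev ![a, b, c, d] F4_Y := by
    have e2 : (1 + a) * (1 + b) * (1 + c) * (1 + d) + 1 = (1 + a) * (1 + b) * (1 + c) * (1 + d) - 1 + ((1 : R) + 1) := by
      abel
    rw [e2, h2, add_zero]
    simp only [F4_ev, F4_Y, List.map_cons, List.map_nil, List.prod_cons, List.prod_nil, List.sum_cons,
      List.sum_nil, Matrix.cons_val, mul_one, add_zero, add_mul, mul_add, one_mul, mul_assoc]
    abel
  have e3 : F4_ev ![a, b, c, d] F4_Z = 0 := by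
    rw [← F4_comp, ← F4_filter _ hT, ← F4_ev_mul, ← F4_filter _ hT, ← F4_ev_mul, ← e1, ← pow_two, ← pow_succ]
    exact h3
  have e4 : F4_ev ![a, b, c, d] F4_Z = f4 a b c d + s3 a b c + s3 a b d + s3 a c d + s3 b c d +
      ((a * b * c * d + a * b * c * d) + (a * c * b * d + a * c * b * d) + (a * d * b * c + a * d * b * c) + (a * b * d * c + a * b * d * c) + (a * c * d * b + a * c * d * b) + (b * a * c * d + b * a * c * d) + (b * c * a * d + b * c * a * d) + (b * d * a * c + b * d * a * c) + (b * c * d * a + b * c * d * a) + (c * a * b * d + c * a * b * d) + (c * d * a * b + c * d * a * b) + (d * a * b * c + d * a * b * c)) := by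
    simp only [F4_ev, F4_Z, List.map_cons, List.map_nil, List.prod_cons, List.prod_nil, List.sum_cons,
      List.sum_nil, Matrix.cons_val, mul_one, add_zero, f4, s3, mul_assoc]
    abel
  rw [e3, s1, s2, s3', s4] at e4
  simp only [h2, add_zero] at e4
  exact e4.symm

private theorem F4_ind (f : R → R) (hadd : ∀ x y, f (x + y) = f x + f y) (hg : ∀ g, f (sqe ρ g) = 0)
    {a : R} (ha : a ∈ Lam ρ) : f a = 0 := by
  have h0 : f 0 = 0 := by
    have := hadd 0 0
    rw [add_zero] at this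
    exact left_eq_add.1 this
  induction ha using AddSubgroup.closure_induction with
  | mem x hx =>
    obtain ⟨g, rfl⟩ := hx
    exact hg g
  | zero => exact h0
  | add x y _ _ hx hy => rw [hadd, hx, hy, add_zero]
  | neg x _ hx =>
    have := hadd x (-x)
    rw [add_neg_cancel, h0, hx, zero_add] at this
    exact this.symm

/-- **`f_4(T_1,T_2,T_3,T_4) = 0`.**

PROOF.  Write `1,2,3,4` for `T_i = sqe ρ g_i`.  A monomial in which some `T_i` occurs twice is zero.  Let `α = 1 + 2 + 12` (i.e. `T_1 + T_2 + T_1T_2 = ρ(g_1²g_2²) + 1`), `β = 3 + 4 + 34`.  Then `α³ = 0`, `β³ = 0`,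
`P := α² = 12 + 21`, `Q := β² = 34 + 43` (repeated letters vanish), and `αP = Pα = 0 = βQ = Qβ`.  Also any product in which `α` occurs three times, or `P` and `α` both, or `P` twice, is zero (only two letters `1,2` available), the same for `β, Q`.
`X ρ (g_1²g_2²g_3²g_4²) = α + β + αβ` and its cube is zero.  Square: `P + Q + αβ + βα + Pβ + αβα + βαβ + αQ + αβαβ`.  Multiply by `α + β + αβ` and drop the zero products:
from `P`: `Pβ`; from `Q`: `Qα`; from `αβ`: `αβα + αQ + αβαβ`; from `βα`: `βP + βαβ + βPβ`; from `Pβ`: `PQ`; from `αβα`: `αβαβ`; from `βαβ`: `βαβα`; from `αQ`: `αQα`.  (`αβαβ` cancels.)  So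
(#) `Pβ + βP + αβα + Qα + αQ + βαβ + βPβ + PQ + βαβα + αQα = 0`.
`αβα = 1β2 + 2β1`; so `Pβ + βP + αβα = s_3(1,2,3) + s_3(1,2,4) + (12+21)34 + 34(12+21) + 1·34·2 + 2·34·1` and the `s_3` vanish (`s3_sqe`).  Similarly
`Qα + αQ + βαβ = (34+43)12 + 12(34+43) + 3·12·4 + 4·12·3` (+ two `s_3`'s).  `βPβ = 3(12+21)4 + 4(12+21)3`, `PQ = (12+21)(34+43)`, `βαβα = 3142 + 3241 + 4132 + 4231`, `αQα = 1(34+43)2 + 2(34+43)1`.
The sum of all these words is (after cancelling equal words) `1234 + 3421 + 4312 + 3214 + 4213 + 2143 + 3142 + 3241 + 4132 + 4231 + 1432 + 2431 = f4 1 2 3 4`. -/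
theorem f4_sqe (hc : Cub ρ) (g₁ g₂ g₃ g₄ : H) :
    f4 (sqe ρ g₁) (sqe ρ g₂) (sqe ρ g₃) (sqe ρ g₄) = 0 := by
  have hs : ∀ g : H, 1 + sqe ρ g = ρ (g ^ 2) := by
    intro g
    rw [map_pow]
    change 1 + (ρ g ^ 2 + 1) = _
    rw [add_comm (ρ g ^ 2) 1, ← add_assoc, two_zero hc, zero_add]
  refine F4_cube _ _ _ _ (two_zero hc) ?_ ?_ (s3_sqe hc _ _ _) (s3_sqe hc _ _ _) (s3_sqe hc _ _ _) (s3_sqe hc _ _ _)
  · intro i l
    have hv : ![sqe ρ g₁, sqe ρ g₂, sqe ρ g₃, sqe ρ g₄] = fun i => sqe ρ (![g₁, g₂, g₃, g₄] i) := by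
      funext i
      fin_cases i <;> rfl
    rw [hv]
    have := sqe_mid_list hc (![g₁, g₂, g₃, g₄] i) (l.map ![g₁, g₂, g₃, g₄])
    rw [List.map_map] at this
    exact this
  · rw [hs, hs, hs, hs, ← map_mul, ← map_mul, ← map_mul]
    exact hc.cube _

/-- PROOF: `f4` is additive in each variable; closure induction four times. -/
theorem f4_lam (hc : Cub ρ) {a b c d : R} (ha : a ∈ Lam ρ) (hb : b ∈ Lam ρ) (hcc : c ∈ Lam ρ)
    (hd : d ∈ Lam ρ) : f4 a b c d = 0 := by
  refine F4_ind (ρ := ρ) (fun a => f4 a b c d) (fun x y => ?_) (fun g₁ => ?_) ha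
  · simp only [f4, add_mul, mul_add]
    abel
  refine F4_ind (ρ := ρ) (fun b => f4 (sqe ρ g₁) b c d) (fun x y => ?_) (fun g₂ => ?_) hb
  · simp only [f4, add_mul, mul_add]
    abel
  refine F4_ind (ρ := ρ) (fun c => f4 (sqe ρ g₁) (sqe ρ g₂) c d) (fun x y => ?_) (fun g₃ => ?_) hcc
  · simp only [f4, add_mul, mul_add]
    abel
  refine F4_ind (ρ := ρ) (fun d => f4 (sqe ρ g₁) (sqe ρ g₂) (sqe ρ g₃) d) (fun x y => ?_) (fun g₄ => ?_) hd
  · simp only [f4, add_mul, mul_add]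
    abel
  exact f4_sqe hc g₁ g₂ g₃ g₄

end

end E4
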