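import Pool.Agent.Lib.MP_8a95e3_al.J12b

/-!
# JEnd : re-exports `E4.thmB` (Theorem B, proved in J12b)
-/
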