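import Pool.Agent.Lib.MP_8a95e3_al.WW
import Pool.Agent.Lib.MP_8a95e3_al.JEnd

/-!
# Fin : assembly of the main theorem
-/

open scoped commutatorElement

namespace E4

/-- a group satisfies `S` iff `vcl S` is contained in its laws. PROOF: `Sat G S` says `f w = 1` for all `w ∈ S` and all `f : F →* G` (every `f : F →* G` is `FreeGroup.lift` of its values); then `f (φ w) = (f ∘ φ) w = 1`. -/
theorem sat_iff (G : Type) [Group G] (S : Set F) : Sat G S ↔ vcl S ≤ lawG G := by
  constructor
  · intro h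
    rw [vcl, Subgroup.closure_le]
    rintro w ⟨s, hs, φ, rfl⟩
    intro f
    have h1 := h s hs (fun i => (f.comp φ) (FreeGroup.of i))
    have h2 : FreeGroup.lift (fun i => (f.comp φ) (FreeGroup.of i)) = f.comp φ := by
      apply FreeGroup.ext_hom
      intro i
      rw [FreeGroup.lift_apply_of]
    rw [h2] at h1
    exact h1
  · intro h w hw f
    exact h (subset_vcl S hw) (FreeGroup.lift f)

/-- `F ⧸ V` for verbal `V` has exponent 4 and its laws are `V`.
PROOF: `lawG (F ⧸ V) = V`: `w ∈ V`, `f : F →* F ⧸ V` lifts to an endomorphism `φ` of `F` with `mk ∘ φ = f` (choose preimages of `f (x i)`), `φ w ∈ V`.  Conversely `f = mk`. -/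
theorem law_quot {V : Subgroup F} (hV : Verb4 V) [V.Normal] :
    Exp4 (F ⧸ V) ∧ lawG (F ⧸ V) = V := by
  constructor
  · intro g
    obtain ⟨w, rfl⟩ := QuotientGroup.mk_surjective g
    rw [← QuotientGroup.mk_pow, QuotientGroup.eq_one_iff]
    exact hV.four w
  · apply le_antisymm
    · intro w hw
      have h := hw (QuotientGroup.mk' V)
      rwa [QuotientGroup.mk'_apply, QuotientGroup.eq_one_iff] at h
    · intro w hw f
      choose g hg using fun i : ℕ => QuotientGroup.mk_surjective (f (FreeGroup.of i))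
      have h2 : (QuotientGroup.mk' V).comp (FreeGroup.lift g) = f := by
        apply FreeGroup.ext_hom
        intro i
        rw [MonoidHom.comp_apply, FreeGroup.lift_apply_of, QuotientGroup.mk'_apply]
        exact hg i
      rw [← h2, MonoidHom.comp_apply, QuotientGroup.mk'_apply, QuotientGroup.eq_one_iff]
      exact hV.endo _ w hw

/-- soluble verbal subgroups are finitely generated as verbal subgroups. PROOF: `sol_lcs`, `thmB`. -/
theorem sol_fb {V : Subgroup F} (hV : Verb4 V) (hs : Sol V) : ∃ T : Finset F, V = vcl (T : Set F) := by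
  obtain ⟨n, hn⟩ := sol_lcs hV hs
  exact thmB n V hV hn

/-- PROOF.  Let `V = vcl S` (`vcl_verb`).  `Sol V`: otherwise `V ≤ WW` (`sol_of_not_le`), and `F ⧸ WW` satisfies `S` by `sat_iff` and `law_quot`.  `sol_fb`: `V = vcl T`; `Sat G S ↔ vcl S ≤ lawG G ↔ vcl T ≤ lawG G ↔ Sat G T`.
If `Sat G S` then `derivedSeries F d ≤ V ≤ lawG G`, so `Sol (lawG G)` and `lawG_sol`. -/
theorem main_S [WW.Normal] (S : Set F) (h4 : x 0 ^ 4 ∈ S) (hns : ¬ Sat (F ⧸ WW) S) :
    (∃ T : Finset F, ∀ (G : Type) [Group G], Sat G S ↔ Sat G (T : Set F)) ∧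
      ∀ (G : Type) [Group G], Sat G S → IsSolvable G := by
  have hV := vcl_verb h4
  have hs : Sol (vcl S) := by
    apply sol_of_not_le hV
    intro hle
    apply hns
    rw [sat_iff, (law_quot WW_verb).2]
    exact hle
  constructor
  · obtain ⟨T, hT⟩ := sol_fb hV hs
    refine ⟨T, ?_⟩
    intro G _
    rw [sat_iff, sat_iff, hT]
  · intro G _ hG
    rw [sat_iff] at hG
    obtain ⟨d, hd⟩ := hs
    exact lawG_sol ⟨d, hd.trans hG⟩

/-- PROOF.  If some group of exponent 4 is insoluble then `lawG G` is an insoluble verbal subgroup (`lawG_verb`, `lawG_sol`), so `WW` is insoluble; if `F ⧸ WW` were soluble then `derivedSeries F d ≤ WW`. -/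
theorem main_insol [WW.Normal]
    (h : ∃ (G : Type) (_ : Group G), Exp4 G ∧ ¬ IsSolvable G) : ¬ IsSolvable (F ⧸ WW) := by
  obtain ⟨G, _, h4, hns⟩ := h
  have hW : ¬ Sol WW := WW_insol ⟨lawG G, lawG_verb h4, fun hs => hns (lawG_sol hs)⟩
  rintro ⟨⟨d, hd⟩⟩
  apply hW
  refine ⟨d, ?_⟩
  intro w hw
  have h1 : QuotientGroup.mk' WW w ∈ derivedSeries (F ⧸ WW) d :=
    map_derivedSeries_le_derivedSeries (QuotientGroup.mk' WW) d (Subgroup.mem_map_of_mem _ hw)
  rw [hd, Subgroup.mem_bot, QuotientGroup.mk'_apply, QuotientGroup.eq_one_iff] at h1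
  exact h1

end E4
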