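import Mathlib

/-! (G1)-(G3) for MP_8a95e3_al (helper64). -/

set_option linter.unusedSectionVars false
set_option linter.unusedSimpArgs false

namespace E4.G64

open MulOpposite
open scoped RightActions

section aux
variable {M : Type*} [AddCommGroup M]

theorem lc2 (h2 : ∀ m : M, m + m = 0) {a b c d : M} (h : c = d) (h' : a + b + (c + d) = 0) :
    a = b := by
  subst h
  rw [h2, add_zero] at h'
  have : a = -b := eq_neg_of_add_eq_zero_left h'
  rw [this, neg_eq_iff_add_eq_zero, h2]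

theorem ad2 {a b c d : M} (h : a = b) (h' : c = d) : a + c = b + d := by rw [h, h']

theorem e2 (h2 : ∀ m : M, m + m = 0) (m : M) : (2 : ℤ) • m = 0 := by
  rw [two_smul, h2]
theorem e4 (h2 : ∀ m : M, m + m = 0) (m : M) : (4 : ℤ) • m = 0 := by
  rw [show (4 : ℤ) = 2 + 2 by norm_num, add_smul, e2 h2, add_zero]
theorem e6 (h2 : ∀ m : M, m + m = 0) (m : M) : (6 : ℤ) • m = 0 := by
  rw [show (6 : ℤ) = 4 + 2 by norm_num, add_smul, e2 h2, e4 h2, add_zero]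
theorem n2 (h2 : ∀ m : M, m + m = 0) (m : M) : (2 : ℕ) • m = 0 := by
  rw [two_smul, h2]
theorem n4 (h2 : ∀ m : M, m + m = 0) (m : M) : (4 : ℕ) • m = 0 := by
  rw [show (4 : ℕ) = 2 + 2 by norm_num, add_smul, n2 h2, add_zero]
theorem n6 (h2 : ∀ m : M, m + m = 0) (m : M) : (6 : ℕ) • m = 0 := by
  rw [show (6 : ℕ) = 4 + 2 by norm_num, add_smul, n2 h2, n4 h2, add_zero]

end aux

section
variable {G M : Type*} [Group G] [AddCommGroup M] [DistribMulAction G M]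
    [DistribMulAction Gᵐᵒᵖ M] [SMulCommClass G Gᵐᵒᵖ M]
    (h2 : ∀ m : M, m + m = 0)
    (cl : ∀ (x : G) (m : M), x •> (x •> m) = m + x •> m + x⁻¹ •> m)
    (cr : ∀ (x : G) (m : M), (m <• x) <• x = m + m <• x + m <• x⁻¹)
    (d : G → M)
    (K : ∀ x, x •> d x = d x) (K' : ∀ x, d x <• x = d x)
    (L : ∀ x w, x •> d (x * w) + d (x⁻¹ * w) = x⁻¹ •> d w + d w)
    (L' : ∀ x w, d (w * x) <• x + d (w * x⁻¹) = d w <• x⁻¹ + d w)
    (d1 : d 1 = 0)
    (R : ∀ x z : G, x •> ((z⁻¹ •> d z) <• x) + z⁻¹ •> d (z * x⁻¹) + x⁻¹ •> (d z⁻¹ <• z)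
      + (d z⁻¹ <• z) <• x⁻¹ + d (x⁻¹ * z⁻¹) <• z + d z⁻¹ <• z = 0)

include h2 in
theorem ll {x y z : M} (h : x + y = z) : x = y + z := by
  rw [← h, add_comm x y, ← add_assoc, h2, zero_add]

include d1 L K h2 in
theorem dinv (x : G) : d x⁻¹ = d x := by
  have := L x 1
  simp only [mul_one, d1, smul_zero, add_zero, K] at this
  exact lc2 h2 this (by
    abel_nf
    simp only [e2 h2, e4 h2, e6 h2, n2 h2, n4 h2, n6 h2, add_zero, zero_add])

include K in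
theorem Ki (x : G) : x⁻¹ •> d x = d x := by
  conv_lhs => rw [← K x]
  rw [smul_smul, inv_mul_cancel, one_smul]

include K' in
theorem Ki' (x : G) : d x <• x⁻¹ = d x := by
  conv_lhs => rw [← K' x]
  rw [smul_smul, ← op_mul, mul_inv_cancel, op_one, one_smul]

include h2 cl cr K K' L L' d1 R in
theorem alpha (x z : G) : x⁻¹ •> d (x * z) + d (x⁻¹ * z) <• x⁻¹
    = x •> (d z <• x) + x⁻¹ •> d z + d z <• x⁻¹ + d z := by
  have hR := R x z⁻¹
  simp only [inv_inv] at hR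
  have k1 : (z •> d z⁻¹) <• x = d z <• x := by
    rw [dinv h2 d K L d1 z, K]
  have k2 : z •> d (z⁻¹ * x⁻¹) = x⁻¹ •> d (x * z) := by
    have h1 : d (z⁻¹ * x⁻¹) = d (x * z) := by
      rw [← dinv h2 d K L d1 (x * z), mul_inv_rev]
    rw [h1]
    conv_lhs => rw [← Ki d K (x * z)]
    rw [mul_inv_rev, smul_smul, mul_inv_cancel_left]
  have k3 : d z <• z⁻¹ = d z := Ki' d K' z
  have k4 : d (x⁻¹ * z) <• z⁻¹ = d (x⁻¹ * z) <• x⁻¹ := by
    conv_lhs => rw [← K' (x⁻¹ * z)]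
    rw [smul_smul, ← op_mul, mul_assoc, mul_inv_cancel, mul_one]
  rw [k1, k2, k3, k4] at hR
  exact lc2 h2 hR (by
    abel_nf
    simp only [e2 h2, e4 h2, e6 h2, n2 h2, n4 h2, n6 h2, add_zero, zero_add])



include h2 cl cr K K' L L' d1 R in
theorem basic (x z : G) :
    (x⁻¹ •> d (x⁻¹ * z) = d (x * z) + (x •> d z + d z)) ∧
    (d (x⁻¹ * z) <• x = d (x * z) + (d z <• x⁻¹ + d z)) ∧
    (x •> d (x⁻¹ * z) = d (x⁻¹ * z) + d (x * z) + x⁻¹ •> d (x * z) + x •> d z + x⁻¹ •> d z) ∧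
    (x •> x •> d z = (d z <• x) <• x) := by
  -- the five basic equations
  have b1 : d (x⁻¹ * z) = x •> d (x * z) + (x⁻¹ •> d z + d z) := by
    have := L x z
    exact lc2 h2 this (by
    abel_nf
    simp only [e2 h2, e4 h2, e6 h2, n2 h2, n4 h2, n6 h2, add_zero, zero_add])
  have b2 : x⁻¹ •> d (x⁻¹ * z) = d (x * z) + (x •> d z + d z) := by
    have := L x⁻¹ z
    rw [inv_inv] at this
    exact lc2 h2 this (by
    abel_nf
    simp only [e2 h2, e4 h2, e6 h2, n2 h2, n4 h2, n6 h2, add_zero, zero_add])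
  have hb : d (z⁻¹ * x) = d (x⁻¹ * z) := by
    rw [← dinv h2 d K L d1 (x⁻¹ * z), mul_inv_rev, inv_inv]
  have hb1 : d (z⁻¹ * x⁻¹) = d (x * z) := by
    rw [← dinv h2 d K L d1 (x * z), mul_inv_rev]
  have dz := dinv h2 d K L d1 z
  have b3 : d (x⁻¹ * z) <• x = d (x * z) + (d z <• x⁻¹ + d z) := by
    have := L' x z⁻¹
    rw [hb, hb1, dz] at this
    exact lc2 h2 this (by
    abel_nf
    simp only [e2 h2, e4 h2, e6 h2, n2 h2, n4 h2, n6 h2, add_zero, zero_add])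
  have b4 : d (x * z) <• x⁻¹ = d (x⁻¹ * z) + (d z <• x + d z) := by
    have := L' x⁻¹ z⁻¹
    rw [inv_inv, hb, hb1, dz] at this
    exact lc2 h2 this (by
    abel_nf
    simp only [e2 h2, e4 h2, e6 h2, n2 h2, n4 h2, n6 h2, add_zero, zero_add])
  have b5 := alpha h2 cl cr d K K' L L' d1 R x z
  have b6 := alpha h2 cl cr d K K' L L' d1 R x⁻¹ z
  rw [inv_inv] at b6
  generalize d (x⁻¹ * z) = b at *
  generalize d (x * z) = b' at *
  generalize d z = e at *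
  have c1 : x •> b = b + b' + x⁻¹ •> b' + x •> e + x⁻¹ •> e := by
    have h1 := congrArg (x •> ·) b1
    simp only [smul_add, cl, smul_inv_smul] at h1
    exact lc2 h2 (ad2 h1 b1) (by
    abel_nf
    simp only [e2 h2, e4 h2, e6 h2, n2 h2, n4 h2, n6 h2, add_zero, zero_add])
  have c2 : b' <• x = b + b' + b <• x⁻¹ + e <• x + e <• x⁻¹ := by
    have h1 := congrArg (· <• x) b3
    simp only [smul_add, cr] at h1
    rw [smul_smul, ← op_mul, inv_mul_cancel, op_one, one_smul] at h1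
    exact lc2 h2 (ad2 h1 b3) (by
    abel_nf
    simp only [e2 h2, e4 h2, e6 h2, n2 h2, n4 h2, n6 h2, add_zero, zero_add])
  have q1 : x •> (e <• x) = x⁻¹ •> (e <• x⁻¹) := by
    rw [c1, c2] at b6
    exact lc2 h2 (ad2 b5 b6) (by
    abel_nf
    simp only [e2 h2, e4 h2, e6 h2, n2 h2, n4 h2, n6 h2, add_zero, zero_add])
  have q2a : x •> x •> (e <• x) = e <• x⁻¹ := by
    rw [q1, smul_inv_smul]
  have q2 : x •> x •> e = (e <• x) <• x := by
    have h1 : (x •> x •> (e <• x)) <• x⁻¹ = (e <• x⁻¹) <• x⁻¹ := by rw [q2a]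
    rw [← smul_comm (x : G) (op x⁻¹ : Gᵐᵒᵖ), ← smul_comm (x : G) (op x⁻¹ : Gᵐᵒᵖ), smul_smul (op x⁻¹),
      ← op_mul, mul_inv_cancel, op_one, one_smul] at h1
    rw [h1, cr, cr, inv_inv]
    abel
  exact ⟨b2, b3, c1, q2⟩

include h2 cl cr K K' L L' d1 R in
theorem Q3 (x z : G) : d (x⁻¹ * z) + d (x * z) = d z + x •> (d z <• x) := by
  obtain ⟨b2, b3, c1, -⟩ := basic h2 cl cr d K K' L L' d1 R x z
  obtain ⟨-, -, -, q2⟩ := basic h2 cl cr d K K' L L' d1 R x (x⁻¹ * z)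
  have b5 := alpha h2 cl cr d K K' L L' d1 R x z
  rw [cl, cr, b2, b3, c1] at q2
  exact lc2 h2 (ad2 q2 b5) (by
    abel_nf
    simp only [e2 h2, e4 h2, e6 h2, n2 h2, n4 h2, n6 h2, add_zero, zero_add])

include h2 cl cr K K' L L' d1 R in
theorem Q5 (x z : G) : x •> d (x⁻¹ * z) + d (x⁻¹ * z)
    = x •> x •> (d z <• x) + x •> x •> d z := by
  obtain ⟨b2, b3, c1, -⟩ := basic h2 cl cr d K K' L L' d1 R x z
  have q3 := Q3 h2 cl cr d K K' L L' d1 R x z
  have h1 : x⁻¹ •> d (x⁻¹ * z) + d (x⁻¹ * z) = x •> (d z <• x) + x •> d z :=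
    lc2 h2 (ad2 b2 q3) (by
    abel_nf
    simp only [e2 h2, e4 h2, e6 h2, n2 h2, n4 h2, n6 h2, add_zero, zero_add])
  have h3 := congrArg (x •> ·) h1
  simp only [smul_add, smul_inv_smul] at h3
  exact lc2 h2 h3 (by
    abel_nf
    simp only [e2 h2, e4 h2, e6 h2, n2 h2, n4 h2, n6 h2, add_zero, zero_add])

include h2 cl cr K K' L L' d1 R in
theorem Q6 (x z : G) : x •> x •> (d z <• x) + x •> x •> d z
    = z •> z •> (d x <• z) + z •> z •> d x := by
  have h1 := Q5 h2 cl cr d K K' L L' d1 R x z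
  have h3 := Q5 h2 cl cr d K K' L L' d1 R z x
  have hb : d (z⁻¹ * x) = d (x⁻¹ * z) := by
    rw [← dinv h2 d K L d1 (x⁻¹ * z), mul_inv_rev, inv_inv]
  have hk : z •> d (x⁻¹ * z) = x •> d (x⁻¹ * z) := by
    conv_rhs => rw [← K (x⁻¹ * z)]
    rw [mul_smul, smul_inv_smul]
  rw [hb, hk] at h3
  rw [← h1, ← h3]

include h2 cl cr K K' L L' d1 R in
theorem dT (x z : G) : d z <• x = d z <• x⁻¹ := by
  have h1 := Q6 h2 cl cr d K K' L L' d1 R x z
  have h3 := Q6 h2 cl cr d K K' L L' d1 R x⁻¹ z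
  have h4 : ∀ m : M, x⁻¹ •> x⁻¹ •> m = x •> x •> m := by
    intro m; rw [cl, cl, inv_inv]; abel
  rw [dinv h2 d K L d1 x, ← h1, h4, h4] at h3
  have h5 := add_right_cancel h3
  have h6 := congrArg (x⁻¹ •> ·) (congrArg (x⁻¹ •> ·) h5)
  simp only [inv_smul_smul] at h6
  exact h6.symm

include h2 cl cr K K' L L' d1 R in
theorem dT2 (x z : G) : (d z <• x) <• x = d z := by
  rw [cr, ← dT h2 cl cr d K K' L L' d1 R, add_assoc, h2, add_zero]

include h2 cl cr K K' L L' d1 R in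
theorem dT3 (x z : G) : x •> x •> d z = d z := by
  rw [(basic h2 cl cr d K K' L L' d1 R x z).2.2.2, dT2 h2 cl cr d K K' L L' d1 R]

include h2 cl cr K K' L L' d1 R in
theorem dT4 (x z : G) : x •> d z = x⁻¹ •> d z := by
  have h1 := dT3 h2 cl cr d K K' L L' d1 R x z
  have := congrArg (x⁻¹ •> ·) h1
  simpa only [inv_smul_smul] using this

include h2 cl cr K K' L L' d1 R in
theorem G3r (x z : G) : d z <• x + d z = d x <• z + d x := by
  have h1 := Q6 h2 cl cr d K K' L L' d1 R x z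
  rw [smul_comm x (op x), smul_comm x (op x), smul_comm z (op z), smul_comm z (op z),
    dT3 h2 cl cr d K K' L L' d1 R, dT3 h2 cl cr d K K' L L' d1 R] at h1
  exact h1

include h2 cl cr K K' L L' d1 R in
theorem G2 (x z : G) : x •> d z = d z <• x := by
  obtain ⟨-, b3, -, -⟩ := basic h2 cl cr d K K' L L' d1 R x z
  have q3 := Q3 h2 cl cr d K K' L L' d1 R x z
  have h1 := G3r h2 cl cr d K K' L L' d1 R x (x⁻¹ * z)
  have h3 := G3r h2 cl cr d K K' L L' d1 R x z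
  have h4 : d x <• (x⁻¹ * z) = d x <• z := by
    rw [op_mul, mul_smul, Ki' d K']
  rw [h4] at h1
  have h5 := dT h2 cl cr d K K' L L' d1 R x z
  rw [← h5] at b3
  have h6 : x •> (d z <• x) = d z :=
    lc2 h2 (ad2 (ad2 b3 q3) (ad2 h1 h3)) (by
    abel_nf
    simp only [e2 h2, e4 h2, e6 h2, n2 h2, n4 h2, n6 h2, add_zero, zero_add])
  have h7 := congrArg (x⁻¹ •> ·) h6
  simp only [inv_smul_smul] at h7
  rw [h7, dT4 h2 cl cr d K K' L L' d1 R]

include h2 cl cr K K' L L' d1 R in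
/-- `(c^2-1) D(z) = 0`, `D(z)(c^2-1) = 0`, `D((c^2-1)z) = 0`, `x D(z) = D(z) x`,
`(x-1)D(z) = (z-1)D(x)`. -/
theorem G123 (x z : G) : (x •> x •> d z = d z) ∧ ((d z <• x) <• x = d z) ∧
    (d (x * z) = d (x⁻¹ * z)) ∧ (x •> d z = d z <• x) ∧
    (x •> d z + d z = z •> d x + d x) := by
  have g2 := G2 h2 cl cr d K K' L L' d1 R x z
  have q3 := Q3 h2 cl cr d K K' L L' d1 R x z
  refine ⟨dT3 h2 cl cr d K K' L L' d1 R x z, dT2 h2 cl cr d K K' L L' d1 R x z, ?_, g2, ?_⟩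
  · rw [← g2, dT3 h2 cl cr d K K' L L' d1 R, h2] at q3
    exact lc2 h2 q3 (by
    abel_nf
    simp only [e2 h2, e4 h2, e6 h2, n2 h2, n4 h2, n6 h2, add_zero, zero_add])
  · rw [g2, G2 h2 cl cr d K K' L L' d1 R z x]
    exact G3r h2 cl cr d K K' L L' d1 R x z

end

section ring

variable {G R : Type*} [Group G] [Ring R] (φ : G →* R) (h2 : ∀ m : R, m + m = 0)
    (c3 : ∀ x : G, φ x * φ x + 1 + φ x + φ x⁻¹ = 0) (d : G → R)
    (K : ∀ x, φ x * d x = d x) (K' : ∀ x, d x * φ x = d x)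
    (L : ∀ x w, φ x * d (x * w) + d (x⁻¹ * w) = φ x⁻¹ * d w + d w)
    (L' : ∀ x w, d (w * x) * φ x + d (w * x⁻¹) = d w * φ x⁻¹ + d w)
    (d1 : d 1 = 0)
    (R3 : ∀ x z : G, φ x * (φ z⁻¹ * d z * φ x) + φ z⁻¹ * d (z * x⁻¹) + φ x⁻¹ * (d z⁻¹ * φ z)
      + d z⁻¹ * φ z * φ x⁻¹ + d (x⁻¹ * z⁻¹) * φ z + d z⁻¹ * φ z = 0)

include h2 c3 K K' L L' d1 R3 in
/-- ring form -/
theorem G123R (x z : G) : (φ x * (φ x * d z) = d z) ∧ (d z * φ x * φ x = d z) ∧
    (d (x * z) = d (x⁻¹ * z)) ∧ (φ x * d z = d z * φ x) ∧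
    (φ x * d z + d z = φ z * d x + d x) := by
  letI i1 : DistribMulAction G R := DistribMulAction.compHom R φ
  letI i2 : DistribMulAction Gᵐᵒᵖ R := DistribMulAction.compHom R (MonoidHom.op φ)
  have s1 : ∀ (g : G) (m : R), g • m = φ g * m := fun _ _ => rfl
  have s2 : ∀ (g : G) (m : R), op g • m = m * φ g := fun _ _ => rfl
  haveI i3 : SMulCommClass G Gᵐᵒᵖ R := ⟨fun g h m => by
    obtain ⟨k, rfl⟩ := op_surjective h
    rw [s1, s2, s1, s2, mul_assoc]⟩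
  have c3' : ∀ x : G, φ x * φ x = 1 + φ x + φ x⁻¹ := by
    intro x
    calc φ x * φ x = (φ x * φ x + 1 + φ x + φ x⁻¹) + ((1 + φ x + φ x⁻¹) + (φ x * φ x + φ x * φ x)) := by
          rw [h2 (φ x * φ x), add_zero]
          have e := h2 (1 + φ x + φ x⁻¹)
          calc φ x * φ x = φ x * φ x + ((1 + φ x + φ x⁻¹) + (1 + φ x + φ x⁻¹)) := by rw [e, add_zero]
            _ = _ := by abel
      _ = 1 + φ x + φ x⁻¹ := by rw [c3, h2, zero_add, add_zero]
  exact G123 h2 (fun x m => by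
      rw [s1, s1, s1, ← mul_assoc, c3', add_mul, add_mul, one_mul])
    (fun x m => by
      rw [s2, s2, s2, mul_assoc, c3', mul_add, mul_add, mul_one]) d K K' L L' d1 (fun x z => by
      simp only [s1, s2]
      exact R3 x z) x z

end ring

end E4.G64
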