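import Pool.Agent.Lib.MP_8a95e3_al.SqT

/-!
# GEval : the words `ω_m` and evaluation of words at squares

In this file `ρ : F →* R` is a cubic representation with `T_j r T_j = 0` for all `j` and `r : R`, where `T_j = sqe ρ (x j)`.
-/

namespace E4

/-- `omX 0 = x_0`, `omX (m+1) = [omX m, [x_{2m+1}, x_{2m+2}]]` -/
def omX : ℕ → F
  | 0 => x 0
  | m + 1 => cm (omX m) (cm (x (2 * m + 1)) (x (2 * m + 2)))

/-- `ω_m = [omX m, x_{2m+1}]` -/
def om (m : ℕ) : F := cm (omX m) (x (2 * m + 1))

/-- `x_j ↦ x_j²` -/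
noncomputable def sqh : F →* F := FreeGroup.lift (fun j => x j ^ 2)

/-- kill the letters in the set `U` -/
noncomputable def kl (U : Set ℕ) : F →* F :=
  FreeGroup.lift (fun j => by classical exact if j ∈ U then 1 else x j)

/-- hypotheses on the representation -/
structure HT {R : Type} [Ring R] (ρ : F →* R) : Prop where
  cub : Cub ρ
  mid : ∀ (j : ℕ) (r : R), sqe ρ (x j) * r * sqe ρ (x j) = 0

/-- left normed Lie monomial in the ring: `[T_0, T_{j_1}, T_{j_2}, ...]` -/
def rlie {R : Type} [Ring R] (T : ℕ → R) (js : List ℕ) : R :=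
  js.foldl (fun y j => br y (T j)) (T 0)

/-- `rX 0 = T_0`, `rX (m+1) = [rX m, [T_{2m+1},T_{2m+2}]]` -/
def rX {R : Type} [Ring R] (T : ℕ → R) : ℕ → R
  | 0 => T 0
  | m + 1 => br (rX T m) (br (T (2 * m + 1)) (T (2 * m + 2)))

/-- `rA m = [rX m, T_{2m+1}]` -/
def rA {R : Type} [Ring R] (T : ℕ → R) (m : ℕ) : R := br (rX T m) (T (2 * m + 1))

section

variable {R : Type} [Ring R] {ρ : F →* R}

private theorem GEval_self (h2 : (2 : R) = 0) (a : R) : a + a = 0 := by
  rw [← two_mul, h2, zero_mul]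

private theorem GEval_inv {a : F} {A : R} (h : ρ a = A) (hA : A * A = 1) : ρ a⁻¹ = A := by
  have h1 : ρ a⁻¹ * ρ a = 1 := by rw [← map_mul, inv_mul_cancel, map_one]
  calc ρ a⁻¹ = ρ a⁻¹ * (ρ a * ρ a) := by rw [h, hA, mul_one]
    _ = A := by rw [← mul_assoc, h1, one_mul, h]

private theorem GEval_br_zero (y : R) : br y 0 = 0 := by simp [br]

private theorem GEval_zero_br (y : R) : br 0 y = 0 := by simp [br]

private theorem GEval_br_add (a b c : R) : br (a + b) c = br a c + br b c := by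
  simp only [br, add_mul, mul_add]
  abel

/-- PROOF: `sqh (x j) = x j ^ 2`, `ρ (x j ^ 2) = ρ (x j) ^ 2 = T_j + 1`. -/
theorem rho_sqh_x (h : HT ρ) (j : ℕ) : ρ (sqh (x j)) = 1 + sqe ρ (x j) := by
  have h1 : sqh (x j) = x j ^ 2 := by simp [sqh, x]
  rw [h1, map_pow, sqe]
  have h2 := GEval_self h.cub.two (1 : R)
  calc ρ (x j) ^ 2 = ρ (x j) ^ 2 + (1 + 1) := by rw [h2, add_zero]
    _ = 1 + (ρ (x j) ^ 2 + 1) := by abel

/-- also for the inverse: `ρ (x j)^{-2} = ρ (x j)^2` (`ρ (x j) ^ 4 = 1`). -/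
theorem rho_sqh_x_inv (h : HT ρ) (j : ℕ) : ρ (sqh (x j)⁻¹) = 1 + sqe ρ (x j) := by
  rw [map_inv]
  refine GEval_inv (rho_sqh_x h j) ?_
  have h1 := sqe_sq h.cub (x j)
  have h2 := GEval_self h.cub.two (sqe ρ (x j))
  have h3 : (1 + sqe ρ (x j)) * (1 + sqe ρ (x j)) =
      1 + (sqe ρ (x j) + sqe ρ (x j)) + sqe ρ (x j) * sqe ρ (x j) := by noncomm_ring
  rw [h3, h1, h2, add_zero, add_zero]

private theorem GEval_fold (T : ℕ → R) (Q : R → Prop) (hs : ∀ y t, Q y → Q (br y t)) :
    ∀ (js : List ℕ) (y : R), Q y → Q (js.foldl (fun y j => br y (T j)) y)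
  | [], _, h => h
  | j :: js, y, h => GEval_fold T Q hs js (br y (T j)) (hs y (T j) h)

private theorem GEval_fold0 (T : ℕ → R) (js : List ℕ) :
    js.foldl (fun y j => br y (T j)) 0 = 0 :=
  GEval_fold T (fun y => y = 0) (fun y t h => by rw [h, GEval_zero_br]) js 0 rfl

private theorem GEval_left {a : R} (y t : R) (h : ∀ r, a * r * y = 0) :
    ∀ r, a * r * br y t = 0 := by
  intro r
  have h1 : a * r * br y t = a * r * y * t + a * (r * t) * y := by
    simp only [br, mul_add, mul_assoc]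
  rw [h1, h, h, zero_mul, add_zero]

private theorem GEval_right {a : R} (y t : R) (h : ∀ r, y * r * a = 0) :
    ∀ r, br y t * r * a = 0 := by
  intro r
  have h1 : br y t * r * a = y * (t * r) * a + t * (y * r * a) := by
    simp only [br, add_mul, mul_assoc]
  rw [h1, h, h, mul_zero, add_zero]

/-- every `rlie` monomial lies in the ideal generated by `T_0` : precisely `T_0 * rlie T js = 0`, and `rlie T js * r * rlie T js' = 0`.
PROOF.  Let `I` = additive closure of `{a * T_0 * b}`.  `T_0 ∈ I`, `I` is a two-sided ideal, so closed under `br · r`; and `i * r * i' = 0` for `i, i' ∈ I` because `T_0 r T_0 = 0`. -/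
theorem rlie_mul (h : HT ρ) (js js' : List ℕ) (r : R) :
    rlie (fun j => sqe ρ (x j)) js * r * rlie (fun j => sqe ρ (x j)) js' = 0 := by
  have h1 : ∀ r, sqe ρ (x 0) * r * rlie (fun j => sqe ρ (x j)) js' = 0 :=
    GEval_fold (fun j => sqe ρ (x j)) (fun y => ∀ r, sqe ρ (x 0) * r * y = 0)
      (fun y t hy => GEval_left y t hy) js' (sqe ρ (x 0)) (h.mid 0)
  exact GEval_fold (fun j => sqe ρ (x j))
    (fun y => ∀ r, y * r * rlie (fun j => sqe ρ (x j)) js' = 0)
    (fun y t hy => GEval_right y t hy) js (sqe ρ (x 0)) h1 r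

private theorem GEval_mem (T : ℕ → R) (j : ℕ) (hT : ∀ r, T j * r * T j = 0) :
    ∀ (js : List ℕ) (y : R), (∀ r, T j * r * y = 0) → (∀ r, y * r * T j = 0) → j ∈ js →
      js.foldl (fun y j => br y (T j)) y = 0
  | [], _, _, _, hm => absurd hm (List.not_mem_nil)
  | k :: js, y, h1, h2, hm => by
    by_cases hk : j = k
    · subst hk
      have h3 : br y (T j) = 0 := by
        have h4 := h1 1
        have h5 := h2 1
        rw [mul_one] at h4 h5
        rw [br, h4, h5, add_zero]
      rw [List.foldl_cons, h3]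
      exact GEval_fold0 T js
    · rw [List.foldl_cons]
      refine GEval_mem T j hT js (br y (T k)) (GEval_left y _ h1) (GEval_right y _ h2) ?_
      rcases List.mem_cons.1 hm with h | h
      · exact absurd h hk
      · exact h

private theorem GEval_dup (T : ℕ → R) (hT : ∀ j r, T j * r * T j = 0) :
    ∀ (js : List ℕ) (y : R), ¬ js.Nodup → js.foldl (fun y j => br y (T j)) y = 0
  | [], _, h => absurd List.nodup_nil h
  | k :: js, y, h => by
    rw [List.foldl_cons]
    by_cases hk : k ∈ js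
    · refine GEval_mem T k (hT k) js (br y (T k)) ?_ ?_ hk
      · intro r
        have h1 : T k * r * br y (T k) = T k * (r * y) * T k + T k * r * T k * y := by
          simp only [br, mul_add, mul_assoc]
        rw [h1, hT, hT, zero_mul, add_zero]
      · intro r
        have h1 : br y (T k) * r * T k = y * (T k * r * T k) + T k * (y * r) * T k := by
          simp only [br, add_mul, mul_assoc]
        rw [h1, hT, hT, mul_zero, add_zero]
    · refine GEval_dup T hT js (br y (T k)) fun hn => h (List.nodup_cons.2 ⟨hk, hn⟩)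

/-- If a letter occurs twice in `js` the monomial vanishes; also if the letter `0` occurs in `js`.
PROOF.  `T_j * y * T_j = 0`: expand the two brackets with `T_j`: every monomial contains `T_j` twice.  Precisely: let `y' = [.., T_j, ..]` lie in the ideal generated by `T_j` (`i ∈ I_j`); bracketing with further letters stays in `I_j`, and `br i T_j = i T_j + T_j i = 0` as `T_j r T_j = 0`.
For the letter `0`: the start `T_0` is in `I_0`. -/
theorem rlie_dup (h : HT ρ) (js : List ℕ) (hj : ¬ (0 :: js).Nodup) :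
    rlie (fun j => sqe ρ (x j)) js = 0 := by
  by_cases h0 : 0 ∈ js
  · exact GEval_mem (fun j => sqe ρ (x j)) 0 (h.mid 0) js (sqe ρ (x 0)) (h.mid 0) (h.mid 0) h0
  · exact GEval_dup (fun j => sqe ρ (x j)) h.mid js (sqe ρ (x 0))
      fun hn => hj (List.nodup_cons.2 ⟨h0, hn⟩)

private theorem GEval_fzero (T : ℕ → R) (j : ℕ) (hT : T j = 0) :
    ∀ (js : List ℕ) (y : R), j ∈ js → js.foldl (fun y j => br y (T j)) y = 0
  | [], _, hm => absurd hm (List.not_mem_nil)
  | k :: js, y, hm => by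
    rw [List.foldl_cons]
    by_cases hk : j = k
    · subst hk
      rw [hT, GEval_br_zero]
      exact GEval_fold0 T js
    · refine GEval_fzero T j hT js (br y (T k)) ?_
      rcases List.mem_cons.1 hm with h | h
      · exact absurd h hk
      · exact h

/-- if `T_j = 0` for some letter `j` of `js` then the monomial vanishes. PROOF: `br y 0 = 0`, and `0` stays `0`. -/
theorem rlie_zero (T : ℕ → R) (js : List ℕ) (j : ℕ) (hj : j ∈ js) (hT : T j = 0) : rlie T js = 0 :=
  GEval_fzero T j hT js (T 0) hj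

private theorem GEval_mul0 (h : HT ρ) (N : List (List ℕ)) :
    sqe ρ (x 0) * (N.map (rlie (fun j => sqe ρ (x j)))).sum = 0 := by
  induction N with
  | nil => simp
  | cons l N ih =>
    rw [List.map_cons, List.sum_cons, mul_add, ih, add_zero]
    have h1 := rlie_mul h [] l 1
    rw [mul_one] at h1
    exact h1

private theorem GEval_append (T : ℕ → R) (l : List ℕ) (j : ℕ) :
    rlie T (l ++ [j]) = br (rlie T l) (T j) := by
  rw [rlie, rlie, List.foldl_append, List.foldl_cons, List.foldl_nil]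

private theorem GEval_sum (T : ℕ → R) (j : ℕ) (N : List (List ℕ)) :
    ((N.map (· ++ [j])).map (rlie T)).sum = br ((N.map (rlie T)).sum) (T j) := by
  induction N with
  | nil => simp [br]
  | cons l N ih =>
    rw [List.map_cons, List.map_cons, List.sum_cons, ih, List.map_cons, List.sum_cons,
      GEval_br_add, GEval_append]

private theorem GEval_ring0 {a s : R} (h2 : (2 : R) = 0) {u : R} (hu : u + 1 = s)
    (has : a * s = 0) : (1 + a) * u + 1 = a + s := by
  have hu' : u = s + 1 := by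
    have h3 := GEval_self h2 (1 : R)
    calc u = u + (1 + 1) := by rw [h3, add_zero]
      _ = s + 1 := by rw [← add_assoc, hu]
  have h4 : (1 + a) * u + 1 = s + a * s + a + (1 + 1) := by
    rw [hu']
    noncomm_ring
  rw [h4, has, GEval_self h2, add_zero, add_zero, add_comm]

private theorem GEval_ring1 {a s : R} (h2 : (2 : R) = 0) {u : R} (hu : u + 1 = s)
    (haa : a * a = 0) (has : a * s * a = 0) : (1 + a) * u * (1 + a) + 1 = s + br s a := by
  have hu' : u = s + 1 := by
    have h3 := GEval_self h2 (1 : R)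
    calc u = u + (1 + 1) := by rw [h3, add_zero]
      _ = s + 1 := by rw [← add_assoc, hu]
  have h4 : (1 + a) * u * (1 + a) + 1 = s + (s * a + a * s) + a * s * a + a * a + (a + a) + (1 + 1) := by
    rw [hu']
    noncomm_ring
  rw [h4, has, haa, GEval_self h2, GEval_self h2, add_zero, add_zero, add_zero, add_zero, br]

end

private theorem GEval_kl_same (j : ℕ) (hj : j = 0) : kl {0} (x j) = 1 := by
  simp [kl, x, hj]

private theorem GEval_kl_ne (j : ℕ) (hj : j ≠ 0) : kl {0} (x j) = x j := by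
  simp [kl, x, hj]

/-- The statement proved by induction. -/
private def GEvalQ (w : F) : Prop := ∃ N : List (List ℕ),
    ∀ (R : Type) [Ring R] (ρ : F →* R), HT ρ →
      ρ (sqh (w * (kl {0} w)⁻¹)) + 1 = (N.map (rlie (fun j => sqe ρ (x j)))).sum

private theorem GEval_step (j : ℕ) (e : F) (he : e = x j ∨ e = (x j)⁻¹) (w : F) (hw : GEvalQ w) :
    GEvalQ (e * w) := by
  obtain ⟨N, hN⟩ := hw
  by_cases hj : j = 0
  · refine ⟨[] :: N, fun R _ ρ h => ?_⟩
    have h1 : kl {0} e = 1 := by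
      rcases he with he | he
      · rw [he, GEval_kl_same j hj]
      · rw [he, map_inv, GEval_kl_same j hj, inv_one]
    have h2 : ρ (sqh e) = 1 + sqe ρ (x j) := by
      rcases he with he | he
      · rw [he, rho_sqh_x h j]
      · rw [he, rho_sqh_x_inv h j]
    have h3 : e * w * (kl {0} (e * w))⁻¹ = e * (w * (kl {0} w)⁻¹) := by
      rw [map_mul, h1, one_mul, mul_assoc]
    rw [h3, map_mul, map_mul, h2, List.map_cons, List.sum_cons]
    subst hj
    exact GEval_ring0 h.cub.two (hN R ρ h) (GEval_mul0 h N)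
  · refine ⟨N ++ N.map (· ++ [j]), fun R _ ρ h => ?_⟩
    have h1 : kl {0} e = e := by
      rcases he with he | he
      · rw [he, GEval_kl_ne j hj]
      · rw [he, map_inv, GEval_kl_ne j hj]
    have h2 : ρ (sqh e) = 1 + sqe ρ (x j) := by
      rcases he with he | he
      · rw [he, rho_sqh_x h j]
      · rw [he, rho_sqh_x_inv h j]
    have h2' : ρ (sqh e⁻¹) = 1 + sqe ρ (x j) := by
      rcases he with he | he
      · rw [he, rho_sqh_x_inv h j]
      · rw [he, inv_inv, rho_sqh_x h j]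
    have h3 : e * w * (kl {0} (e * w))⁻¹ = e * (w * (kl {0} w)⁻¹) * e⁻¹ := by
      rw [map_mul, h1, mul_inv_rev]
      simp only [mul_assoc]
    rw [h3, map_mul, map_mul, map_mul, map_mul, h2, h2', List.map_append, List.sum_append,
      GEval_sum]
    exact GEval_ring1 h.cub.two (hN R ρ h) (sqe_sq h.cub _) (h.mid j _)

private theorem GEval_all (w : F) : ∀ w', GEvalQ w' → GEvalQ (w * w') := by
  induction w using FreeGroup.induction_on with
  | C1 => intro w' h; rwa [one_mul]
  | of j => exact fun w' h => GEval_step j _ (Or.inl rfl) w' h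
  | inv_of j _ => exact fun w' h => GEval_step j _ (Or.inr rfl) w' h
  | mul a b ha hb =>
    intro w' h
    rw [mul_assoc]
    exact ha _ (hb _ h)

/-- **Evaluation of elements of the kernel of `kl {0}` at squares.**

PROOF.  Prove by `FreeGroup` induction on `w : F`: there is `N : List (List ℕ)` such that in all such representations `ρ (sqh (w * (kl {0} w)⁻¹)) + 1 = Σ_{λ ∈ N} rlie T λ`.
`w = 1`: `N = []` (`1 + 1 = 0`).  `w = x 0 * w'` (or `(x 0)⁻¹ * w'`): `w * (kl w)⁻¹ = (x 0)^{±1} * (w' * (kl w')⁻¹)`, so the image is `(1 + T_0)(1 + Σ) = 1 + T_0 + Σ + T_0 Σ` and `T_0 Σ = 0` (`rlie_mul`, `rlie T [] = T_0`, `r = 1`): `N = [] :: N'`.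
`w = (x j)^{±1} * w'`, `j ≠ 0`: `w (kl w)⁻¹ = x_j^{±1} (w' (kl w')⁻¹) x_j^{∓1}`, image `(1+T_j)(1 + Σ)(1+T_j) = 1 + Σ_λ (rlie λ + [rlie λ, T_j] + T_j rlie λ T_j) = 1 + Σ (rlie λ + rlie (λ ++ [j]))` (`(1+T_j)² = 1`, `T_j r T_j = 0`): `N = N' ++ N'.map (· ++ [j])`.
(Use `FreeGroup.induction_on` in the form: property stable under left multiplication by generators and inverses.)  For `n` with `kl {0} n = 1` take `w = n`. -/
theorem eval_ker (n : F) (hn : kl {0} n = 1) : ∃ N : List (List ℕ),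
    ∀ (R : Type) [Ring R] (ρ : F →* R), HT ρ →
      ρ (sqh n) + 1 = (N.map (rlie (fun j => sqe ρ (x j)))).sum := by
  have h1 : GEvalQ 1 := by
    refine ⟨[], fun R _ ρ h => ?_⟩
    rw [map_one, inv_one, mul_one, map_one, map_one]
    exact GEval_self h.cub.two (1 : R)
  obtain ⟨N, hN⟩ := GEval_all n 1 h1
  refine ⟨N, fun R _ ρ h => ?_⟩
  have h2 := hN R ρ h
  rw [mul_one, hn, inv_one, mul_one] at h2
  exact h2

private theorem GEval_comm {R : Type} [Ring R] (h2 : (2 : R) = 0) {a b : R}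
    (ha : ∀ r, a * r * a = 0) (hb : ∀ r, b * r * b = 0) :
    (1 + a) * (1 + b) * (1 + a) * (1 + b) = 1 + br a b := by
  have a1 : a * a = 0 := by
    have := ha 1
    rwa [mul_one] at this
  have b1 : b * b = 0 := by
    have := hb 1
    rwa [mul_one] at this
  have h3 : (1 + a) * (1 + b) * (1 + a) * (1 + b) = 1 + (a * b + b * a) + (a + a) + (b + b) +
      (a * b + a * b) + a * a + b * b + a * a * b + b * a * b + a * b * a + a * (b * b) +
      a * b * a * b := by
    noncomm_ring
  rw [h3, ha b, hb a, a1, b1, GEval_self h2, GEval_self h2, GEval_self h2, br]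
  simp

private theorem GEval_sq1 {R : Type} [Ring R] (h2 : (2 : R) = 0) {a : R}
    (ha : ∀ r, a * r * a = 0) : (1 + a) * (1 + a) = 1 := by
  have a1 : a * a = 0 := by
    have := ha 1
    rwa [mul_one] at this
  have h3 : (1 + a) * (1 + a) = 1 + (a + a) + a * a := by noncomm_ring
  rw [h3, a1, GEval_self h2, add_zero, add_zero]

private theorem GEval_cm {R : Type} [Ring R] {ρ : F →* R} (h2 : (2 : R) = 0) {a b : R} {g k : F}
    (hg : ρ (sqh g) = 1 + a) (hk : ρ (sqh k) = 1 + b)
    (ha : ∀ r, a * r * a = 0) (hb : ∀ r, b * r * b = 0) :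
    ρ (sqh (cm g k)) = 1 + br a b := by
  have hg' : ρ (sqh g⁻¹) = 1 + a := by
    rw [map_inv]
    exact GEval_inv hg (GEval_sq1 h2 ha)
  have hk' : ρ (sqh k⁻¹) = 1 + b := by
    rw [map_inv]
    exact GEval_inv hk (GEval_sq1 h2 hb)
  rw [cm, map_mul, map_mul, map_mul, map_mul, map_mul, map_mul, hg, hg', hk, hk',
    GEval_comm h2 ha hb]

private theorem GEval_brsq {R : Type} [Ring R] {a b : R}
    (ha : ∀ r, a * r * a = 0) (hb : ∀ r, b * r * b = 0) (r : R) : br a b * r * br a b = 0 := by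
  have h3 : br a b * r * br a b = a * (b * r) * a * b + a * (b * r * b) * a +
      b * (a * r * a) * b + b * (a * r) * b * a := by
    simp only [br]
    noncomm_ring
  rw [h3, ha, ha, hb, hb]
  simp

private theorem GEval_rX {R : Type} [Ring R] (T : ℕ → R) (h0 : ∀ r, T 0 * r * T 0 = 0) (m : ℕ) :
    ∀ r, rX T m * r * rX T m = 0 := by
  have h1 : ∀ k, ∀ r, T 0 * r * rX T k = 0 := by
    intro k
    induction k with
    | zero => exact h0
    | succ k ih => exact GEval_left _ _ ih
  have h2 : ∀ k, ∀ r, rX T k * r * rX T m = 0 := by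
    intro k
    induction k with
    | zero => exact h1 m
    | succ k ih => exact GEval_right _ _ ih
  exact h2 m

private theorem GEval_omX (m : ℕ) {R : Type} [Ring R] {ρ : F →* R} (h : HT ρ) :
    ρ (sqh (omX m)) = 1 + rX (fun j => sqe ρ (x j)) m := by
  induction m with
  | zero => exact rho_sqh_x h 0
  | succ m ih =>
    rw [omX, rX]
    refine GEval_cm h.cub.two ih ?_ (GEval_rX _ (h.mid 0) m)
      (GEval_brsq (h.mid (2 * m + 1)) (h.mid (2 * m + 2)))
    exact GEval_cm h.cub.two (rho_sqh_x h _) (rho_sqh_x h _) (h.mid _) (h.mid _)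

/-- **Evaluation of `ω_m`.**

PROOF.  Claim: `ρ (sqh (omX m)) = 1 + ξ` with `ξ = rX T m`, `ξ` in the ideal generated by `T_0` (so `ξ r ξ = 0`, `(1+ξ)⁻¹ = 1 + ξ`, i.e. also `ρ (sqh (omX m)⁻¹) = 1 + ξ`).  `m = 0`: `rho_sqh_x`.  Step: `T = T_{2m+1}`, `T' = T_{2m+2}`,
`ρ sqh (cm (x (2m+1)) (x (2m+2))) = (1+T)(1+T')(1+T)(1+T') = 1 + [T,T'] =: 1 + β` (all terms with a repeated letter vanish) with inverse `1 + β` (`β² = 0`).  `cm X b = X⁻¹ b⁻¹ X b = (1+ξ)(1+β)(1+ξ)(1+β)`; `(1+β)ξ(1+β) = ξ + [ξ,β] + βξβ` and `βξβ = 0` (every term contains `T` twice or `T'` twice with something between);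
so it is `(1+ξ)(1+ξ+[ξ,β]) = 1 + [ξ,β]` as `ξ² = 0`, `ξ[ξ,β] = 0`.  The same computation with `β = T_{2m+1}` for `ω_m`. -/
theorem eval_om (m : ℕ) {R : Type} [Ring R] {ρ : F →* R} (h : HT ρ) :
    ρ (sqh (om m)) + 1 = rA (fun j => sqe ρ (x j)) m := by
  have h1 : ρ (sqh (om m)) = 1 + rA (fun j => sqe ρ (x j)) m :=
    GEval_cm h.cub.two (GEval_omX m h) (rho_sqh_x h _) (GEval_rX _ (h.mid 0) m) (h.mid _)
  rw [h1]
  calc 1 + rA (fun j => sqe ρ (x j)) m + 1 = rA (fun j => sqe ρ (x j)) m + (1 + 1) := by abel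
    _ = rA (fun j => sqe ρ (x j)) m := by rw [GEval_self h.cub.two, add_zero]

private theorem GEval_rX_zero {R : Type} [Ring R] (T : ℕ → R) (m j : ℕ) (h1 : 1 ≤ j)
    (h2 : j ≤ 2 * m) (hT : T j = 0) : rX T m = 0 := by
  induction m with
  | zero => omega
  | succ m ih =>
    rw [rX]
    by_cases h3 : j ≤ 2 * m
    · rw [ih h3, GEval_zero_br]
    · by_cases h4 : j = 2 * m + 1
      · rw [← h4, hT, GEval_zero_br, GEval_br_zero]
      · have h5 : j = 2 * m + 2 := by omega
        rw [← h5, hT, GEval_br_zero, GEval_br_zero]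

/-- if one of the letters `T_j`, `1 ≤ j ≤ 2m+1` is zero, then `rA m = 0`.  PROOF: `br y 0 = 0`, `br 0 y = 0`, induction. -/
theorem rA_zero {R : Type} [Ring R] (T : ℕ → R) (m j : ℕ) (h1 : 1 ≤ j) (h2 : j ≤ 2 * m + 1)
    (hT : T j = 0) : rA T m = 0 := by
  rw [rA]
  by_cases h3 : j = 2 * m + 1
  · rw [← h3, hT, GEval_br_zero]
  · rw [GEval_rX_zero T m j h1 (by omega) hT, GEval_zero_br]

end E4
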