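import Pool.Agent.Lib.MP_8a95e3_al.Quo

/-!
# Sec : conjugation representations on elementary abelian sections, and passage from elements to subgroups
-/

open scoped commutatorElement

namespace E4

universe u

private theorem sec_cub {G : Type*} {A : Type*} [Group G] [AddCommGroup A] (ρ : G →* AddMonoid.End A)
    (h2 : ∀ a : A, a + a = 0)
    (h4 : ∀ (g : G) (a : A), a + ρ g a + ρ g (ρ g a) + ρ g (ρ g (ρ g a)) = 0) : Cub ρ := by
  have htwo : (2 : AddMonoid.End A) = 0 := by
    rw [← one_add_one_eq_two]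
    ext a
    exact h2 a
  refine ⟨htwo, fun g => ?_⟩
  have h3 : (ρ g + 1) ^ 3 = (1 + ρ g + ρ g * ρ g + ρ g * (ρ g * ρ g)) + 2 * (ρ g + ρ g * ρ g) := by
    noncomm_ring
  unfold X
  rw [h3, htwo, zero_mul, add_zero]
  ext a
  exact h4 g a

private theorem sec_id {G : Type*} [Group G] (a g : G) :
    a * (g * a * g⁻¹) * (g * (g * a * g⁻¹) * g⁻¹) * (g * (g * (g * a * g⁻¹) * g⁻¹) * g⁻¹) = (a * g) ^ 4 * (g ^ 4)⁻¹ := by
  simp only [pow_succ, pow_zero, one_mul, mul_inv_rev, mul_assoc, inv_mul_cancel_left, mul_inv_cancel_left]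

private theorem sec_foldr_mem {G : Type*} [Group G] (B : Subgroup G) [B.Normal] (l : List G) {b : G} (hb : b ∈ B) :
    l.foldr (fun g y => ⁅g, y⁆) b ∈ B := by
  induction l with
  | nil => exact hb
  | cons g l ih =>
    rw [List.foldr_cons, commutatorElement_def]
    exact B.mul_mem ((inferInstance : B.Normal).conj_mem _ ih g) (B.inv_mem ih)

private theorem sec_foldr_mk {G H : Type*} [Group G] [Group H] (f : G →* H) (l : List G) (b : G) :
    (l.map f).foldr (fun g y => ⁅g, y⁆) (f b) = f (l.foldr (fun g y => ⁅g, y⁆) b) := by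
  induction l with
  | nil => rfl
  | cons g l ih => rw [List.map_cons, List.foldr_cons, List.foldr_cons, ih, map_commutatorElement]

private theorem sec_foldr_mul {G : Type*} [Group G] (B : Subgroup G) [B.Normal] (hBB : ∀ a ∈ B, ∀ b ∈ B, a * b = b * a)
    (l : List G) {a b : G} (ha : a ∈ B) (hb : b ∈ B) :
    l.foldr (fun g y => ⁅g, y⁆) (a * b) = l.foldr (fun g y => ⁅g, y⁆) a * l.foldr (fun g y => ⁅g, y⁆) b := by
  induction l with
  | nil => rfl
  | cons g l ih =>
    have h1 := sec_foldr_mem B l ha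
    have h2 := sec_foldr_mem B l hb
    rw [List.foldr_cons, List.foldr_cons, List.foldr_cons, ih]
    obtain ⟨u, hu⟩ : ∃ u, u = l.foldr (fun g y => ⁅g, y⁆) a := ⟨_, rfl⟩
    obtain ⟨v, hv⟩ : ∃ v, v = l.foldr (fun g y => ⁅g, y⁆) b := ⟨_, rfl⟩
    rw [← hu] at h1 ⊢
    rw [← hv] at h2 ⊢
    rw [commutatorElement_def, commutatorElement_def, commutatorElement_def]
    have h3 : g * v * g⁻¹ * v⁻¹ ∈ B := B.mul_mem ((inferInstance : B.Normal).conj_mem _ h2 g) (B.inv_mem h2)
    have h4 := hBB _ h3 _ (B.inv_mem h1)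
    calc g * (u * v) * g⁻¹ * (u * v)⁻¹ = g * u * g⁻¹ * ((g * v * g⁻¹ * v⁻¹) * u⁻¹) := by
          simp only [mul_inv_rev, mul_assoc, inv_mul_cancel_left]
      _ = g * u * g⁻¹ * (u⁻¹ * (g * v * g⁻¹ * v⁻¹)) := by rw [h4]
      _ = _ := by simp only [mul_assoc]

private theorem sec_foldr_one {G : Type*} [Group G] (l : List G) : l.foldr (fun g y => ⁅g, y⁆) (1 : G) = 1 := by
  induction l with
  | nil => rfl
  | cons g l ih => rw [List.foldr_cons, ih, commutatorElement_one_right]

/-- Elementary abelian normal subgroup `B` of a group `G` of exponent 4: the conjugation representation in `End(B)`.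

PROOF.  `R = AddMonoid.End (Additive B)` (`B` commutative by `hBB`, so `Additive ↥B` is an `AddCommGroup`; build the `CommGroup ↥B` instance by hand and keep the group structure of `↥B`),
`ρ g b = g b g⁻¹`.  `2 = 0` in `R` because `b² = 1`.
Cubic: `X ρ g ^ 3 = ρ g^3 + ρ g^2 + ρ g + 1` and `(ρ g^3 + ρ g^2 + ρ g + 1)(b) = b · gbg⁻¹ · g²bg⁻² · g³bg⁻³ = (b g)^4 g⁻⁴ = 1`.
`X ρ g (b) = g b g⁻¹ · b = ⁅g,b⁆ b² = ⁅g,b⁆`, and by induction on `l`: `((l.map (X ρ)).prod) b = l.foldr (fun g y => ⁅g, y⁆) b`. -/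
theorem sec_exists_bot {G : Type u} [Group G] (h4 : Exp4 G) (B : Subgroup G) [B.Normal]
    (hBB : ∀ a ∈ B, ∀ b ∈ B, a * b = b * a) (hB2 : ∀ b ∈ B, b ^ 2 = 1) :
    ∃ (R : Type u) (_ : Ring R) (ρ : G →* R), Cub ρ ∧
      (∀ g, (∀ b ∈ B, ⁅g, b⁆ = 1) → ρ g = 1) ∧
      ∀ l : List G, (l.map (X ρ)).prod = 0 →
        ∀ b ∈ B, l.foldr (fun g y => ⁅g, y⁆) b = 1 := by
  let _ : CommGroup B := { (inferInstance : Group B) with
    mul_comm := fun a b => Subtype.ext (hBB a.1 a.2 b.1 b.2) }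
  obtain ⟨ρ, hρ⟩ : ∃ ρ : G →* AddMonoid.End (Additive B), ∀ (g : G) (b : Additive B),
      ((ρ g b).toMul : G) = g * (b.toMul : G) * g⁻¹ := by
    refine ⟨{ toFun := fun g => MonoidHom.toAdditive (MulAut.conjNormal g : MulAut B).toMonoidHom
              map_one' := ?_
              map_mul' := ?_ }, ?_⟩
    · ext b
      show ((MulAut.conjNormal (1 : G) b.toMul : B) : G) = (b.toMul : G)
      rw [map_one]
      rfl
    · intro g h
      ext b
      show ((MulAut.conjNormal (g * h) b.toMul : B) : G) =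
        ((MulAut.conjNormal g (MulAut.conjNormal h b.toMul) : B) : G)
      rw [map_mul]
      rfl
    · intro g b
      exact MulAut.conjNormal_apply g b.toMul
  have hsq : ∀ b : G, b ∈ B → b * b = 1 := fun b hb => by
    rw [← sq]
    exact hB2 b hb
  have hext : ∀ a b : Additive B, (a.toMul : G) = (b.toMul : G) → a = b := fun a b h =>
    Subtype.ext h
  have hadd : ∀ a b : Additive B, ((a + b).toMul : G) = (a.toMul : G) * (b.toMul : G) := fun a b => rfl
  refine ⟨AddMonoid.End (Additive B), inferInstance, ρ, ?_, ?_, ?_⟩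
  · refine sec_cub ρ (fun a => ?_) fun g a => ?_
    · apply hext
      rw [hadd]
      exact hsq a.toMul.1 a.toMul.2
    · apply hext
      rw [hadd, hadd, hadd, hρ, hρ, hρ, hρ, hρ, hρ, sec_id, h4, h4, inv_one, mul_one]
      rfl
  · intro g hg
    refine DFunLike.ext _ _ fun b => ?_
    have h1 := hg b.toMul.1 b.toMul.2
    rw [commutatorElement_def, mul_inv_eq_one] at h1
    exact hext _ _ ((hρ g b).trans h1)
  · have key : ∀ (l : List G) (b : Additive B),
        (((l.map (X ρ)).prod b).toMul : G) = l.foldr (fun g y => ⁅g, y⁆) (b.toMul : G) := by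
      intro l b
      induction l with
      | nil => rfl
      | cons g l ih =>
        rw [List.map_cons, List.prod_cons, List.foldr_cons]
        have h1 : (X ρ g * (l.map (X ρ)).prod) b = ρ g ((l.map (X ρ)).prod b) + (l.map (X ρ)).prod b := rfl
        rw [h1, hadd, hρ, ih, commutatorElement_def]
        have h2 := hsq _ (sec_foldr_mem B l b.toMul.2)
        rw [eq_comm, mul_left_cancel_iff]
        exact (eq_inv_of_mul_eq_one_left h2).symm
    intro l hl b hb
    have h1 := key l (Additive.ofMul ⟨b, hb⟩)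
    rw [hl] at h1
    exact h1.symm

/-- The same for a section `B/C`.

PROOF.  Apply `sec_exists_bot` to the group `G ⧸ C` (exponent 4) and the image `B.map (QuotientGroup.mk' C)` (normal), and compose `ρ` with the projection `G →* G ⧸ C` (`cub_precomp`).
`⁅mk g, mk b⁆ = mk ⁅g,b⁆`, `foldr` commutes with `mk`, and `mk y = 1 ↔ y ∈ C`. -/
theorem sec_exists {G : Type u} [Group G] (h4 : Exp4 G) (B C : Subgroup G) [B.Normal] [C.Normal]
    (hBB : ⁅B, B⁆ ≤ C) (hB2 : ∀ b ∈ B, b ^ 2 ∈ C) :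
    ∃ (R : Type u) (_ : Ring R) (ρ : G →* R), Cub ρ ∧
      (∀ g, (∀ b ∈ B, ⁅g, b⁆ ∈ C) → ρ g = 1) ∧
      ∀ l : List G, (l.map (X ρ)).prod = 0 →
        ∀ b ∈ B, l.foldr (fun g y => ⁅g, y⁆) b ∈ C := by
  have hmap : ∀ b' ∈ B.map (QuotientGroup.mk' C), ∃ b ∈ B, QuotientGroup.mk' C b = b' := fun b' hb' =>
    Subgroup.mem_map.1 hb'
  have hn : (B.map (QuotientGroup.mk' C)).Normal :=
    Subgroup.Normal.map inferInstance _ (QuotientGroup.mk'_surjective C)
  have hone : ∀ y : G, QuotientGroup.mk' C y = 1 ↔ y ∈ C := fun y => by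
    rw [← MonoidHom.mem_ker, QuotientGroup.ker_mk']
  have h4' : Exp4 (G ⧸ C) := by
    intro q
    obtain ⟨g, rfl⟩ := QuotientGroup.mk'_surjective C q
    rw [← map_pow, h4, map_one]
  obtain ⟨R, hR, ρ, hc, h1, h2⟩ := sec_exists_bot h4' (B.map (QuotientGroup.mk' C)) (by
    intro a' ha' b' hb'
    obtain ⟨a, ha, rfl⟩ := hmap a' ha'
    obtain ⟨b, hb, rfl⟩ := hmap b' hb'
    have h1 : ⁅a, b⁆ ∈ C := hBB (Subgroup.commutator_mem_commutator ha hb)
    rw [← hone, map_commutatorElement, commutatorElement_eq_one_iff_mul_comm] at h1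
    exact h1) (by
    intro b' hb'
    obtain ⟨b, hb, rfl⟩ := hmap b' hb'
    rw [← map_pow, hone]
    exact hB2 b hb)
  refine ⟨R, hR, ρ.comp (QuotientGroup.mk' C), cub_precomp hc _, ?_, ?_⟩
  · intro g hg
    refine h1 _ fun b' hb' => ?_
    obtain ⟨b, hb, rfl⟩ := hmap b' hb'
    rw [← map_commutatorElement, hone]
    exact hg b hb
  · intro l hl b hb
    have h3 := h2 (l.map (QuotientGroup.mk' C)) (by
      rw [List.map_map]
      exact hl) _ (Subgroup.mem_map_of_mem _ hb)
    rw [sec_foldr_mk, hone] at h3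
    exact h3

/-- `itc` is monotone in the first variable and additive in `n`. PROOF: induction, `Subgroup.commutator_mono`. -/
theorem itc_mono {G : Type*} [Group G] {B B' K : Subgroup G} (h : B ≤ B') (n : ℕ) :
    itc B K n ≤ itc B' K n := by
  induction n with
  | zero => exact h
  | succ n ih => exact Subgroup.commutator_mono ih le_rfl

theorem itc_add {G : Type*} [Group G] (B K : Subgroup G) (m n : ℕ) :
    itc B K (m + n) = itc (itc B K m) K n := by
  induction n with
  | zero => rfl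
  | succ n ih =>
    show ⁅itc B K (m + n), K⁆ = ⁅itc (itc B K m) K n, K⁆
    rw [ih]

theorem itc_normal {G : Type*} [Group G] (B K : Subgroup G) [B.Normal] [K.Normal] (n : ℕ) :
    (itc B K n).Normal := by
  induction n with
  | zero => exact (inferInstance : B.Normal)
  | succ n ih =>
    have := ih
    exact Subgroup.commutator_normal (itc B K n) K

theorem itc_le {G : Type*} [Group G] (B K : Subgroup G) [B.Normal] (n : ℕ) : itc B K n ≤ B := by
  induction n with
  | zero => exact le_rfl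
  | succ n ih =>
    exact (Subgroup.commutator_mono ih le_rfl).trans (Subgroup.commutator_le_left B K)

/-- `itc (B ⊔ C) K n ≤ itc B K n ⊔ C` for normal `B, C, K`. PROOF: induction, `Subgroup.commutator` of a sup: `⁅A ⊔ C, K⁆ ≤ ⁅A,K⁆ ⊔ C`
(for normal subgroups: `Subgroup.sup_commutator` or check modulo `C`). -/
theorem itc_sup {G : Type*} [Group G] (B C K : Subgroup G) [B.Normal] [C.Normal] [K.Normal] (n : ℕ) :
    itc (B ⊔ C) K n ≤ itc B K n ⊔ C := by
  induction n with
  | zero => exact le_rfl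
  | succ n ih =>
    refine (Subgroup.commutator_mono ih le_rfl).trans ?_
    rw [Subgroup.commutator_le]
    intro x hx k hk
    obtain ⟨a, ha, c, hc, rfl⟩ := Subgroup.mem_sup_of_normal_right.1 hx
    have h1 : ⁅a * c, k⁆ = (a * (c * (k * c⁻¹ * k⁻¹)) * a⁻¹) * ⁅a, k⁆ := by
      simp only [commutatorElement_def, mul_inv_rev, mul_assoc, inv_mul_cancel_left]
    rw [h1]
    refine Subgroup.mul_mem _ ?_ ?_
    · refine Subgroup.mem_sup_right ?_
      exact (inferInstance : C.Normal).conj_mem _ (C.mul_mem hc ((inferInstance : C.Normal).conj_mem _ (C.inv_mem hc) k)) a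
    · exact Subgroup.mem_sup_left (Subgroup.commutator_mem_commutator ha hk)

/-- From elements to subgroups.

PROOF.  Induction on `m`, for all `B` (with `C`, `K` fixed).  `m = 0`: the empty list gives `b ∈ C`.  `m + 1`: `itc B K (m+1) = itc ⁅B,K⁆ K m` (`itc_add` with `1 + m`; `itc B K 1 = ⁅B,K⁆`).  Put
`B₁ = ⁅B,K⁆ ≤ B` (normal), `⁅B₁,B₁⁆ ≤ ⁅B,B⁆ ≤ C`.  To apply the induction hypothesis to `B₁` we need: for every list `l` of length `m` in `K` and `y ∈ B₁`: `l.foldr (⁅·,·⁆) y ∈ C`.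
Call `Φ_l(y) = l.foldr (fun g y => ⁅g,y⁆) y`.  For `y, y' ∈ B`: `⁅g, y y'⁆ = ⁅g,y⁆ · y⁅g,y'⁆y⁻¹ ≡ ⁅g,y⁆⁅g,y'⁆ mod C` (`B` abelian modulo `C`, `⁅g,y'⁆ ∈ B`), and `⁅g, y c⁆ ≡ ⁅g,y⁆` for `c ∈ C`; so by induction on `l`
`Φ_l(y y') ≡ Φ_l(y) Φ_l(y')`, `Φ_l(y⁻¹) ≡ Φ_l(y)⁻¹` mod `C` (`Φ_l` preserves `B`, and `Φ_l(y) ∈ C` if `y ∈ C`).  So `{y ∈ B | Φ_l(y) ∈ C}` is a subgroup.  It contains the generators `⁅b,k⁆` of `B₁`: `⁅b,k⁆ = ⁅k,b⁆⁻¹` and
`Φ_l(⁅k,b⁆) = Φ_{l ++ [k]}(b) ∈ C` by hypothesis (`List.foldr_append`). -/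
theorem itc_le_of_lists {G : Type*} [Group G] (B C K : Subgroup G) [B.Normal] [C.Normal]
    [K.Normal] (hBB : ⁅B, B⁆ ≤ C) (m : ℕ)
    (h : ∀ l : List G, l.length = m → (∀ k ∈ l, k ∈ K) → ∀ b ∈ B,
      l.foldr (fun g y => ⁅g, y⁆) b ∈ C) :
    itc B K m ≤ C := by
  have hone : ∀ y : G, QuotientGroup.mk' C y = 1 ↔ y ∈ C := fun y => by
    rw [← MonoidHom.mem_ker, QuotientGroup.ker_mk']
  have gen : ∀ (m : ℕ) (B : Subgroup G) (_ : B.Normal) (_ : ⁅B, B⁆ ≤ C)
      (_ : ∀ l : List G, l.length = m → (∀ k ∈ l, k ∈ K) → ∀ b ∈ B, l.foldr (fun g y => ⁅g, y⁆) b ∈ C),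
      itc B K m ≤ C := by
    intro m
    induction m with
    | zero =>
      intro B _ _ h b hb
      exact h [] rfl (fun k hk => absurd hk List.not_mem_nil) b hb
    | succ m ih =>
      intro B hB hBB h
      have e1 : itc B K (m + 1) = itc ⁅B, K⁆ K m := by
        rw [add_comm, itc_add]
        rfl
      have hle : ⁅B, K⁆ ≤ B := Subgroup.commutator_le_left B K
      rw [e1]
      refine ih ⁅B, K⁆ (Subgroup.commutator_normal B K) ((Subgroup.commutator_mono hle hle).trans hBB) ?_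
      intro l hl hlK y hy
      have hn : (B.map (QuotientGroup.mk' C)).Normal :=
        Subgroup.Normal.map inferInstance _ (QuotientGroup.mk'_surjective C)
      have hab : ∀ a ∈ B.map (QuotientGroup.mk' C), ∀ b ∈ B.map (QuotientGroup.mk' C), a * b = b * a := by
        intro a' ha' b' hb'
        obtain ⟨a, ha, rfl⟩ := Subgroup.mem_map.1 ha'
        obtain ⟨b, hb, rfl⟩ := Subgroup.mem_map.1 hb'
        have h1 : ⁅a, b⁆ ∈ C := hBB (Subgroup.commutator_mem_commutator ha hb)
        rw [← hone, map_commutatorElement, commutatorElement_eq_one_iff_mul_comm] at h1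
        exact h1
      have hmul : ∀ a ∈ B, ∀ b ∈ B, QuotientGroup.mk' C (l.foldr (fun g y => ⁅g, y⁆) (a * b)) =
          QuotientGroup.mk' C (l.foldr (fun g y => ⁅g, y⁆) a) * QuotientGroup.mk' C (l.foldr (fun g y => ⁅g, y⁆) b) := by
        intro a ha b hb
        rw [← sec_foldr_mk, ← sec_foldr_mk, ← sec_foldr_mk, map_mul]
        exact sec_foldr_mul (B.map (QuotientGroup.mk' C)) hab _ (Subgroup.mem_map_of_mem _ ha)
          (Subgroup.mem_map_of_mem _ hb)
      have hinv : ∀ a ∈ B, QuotientGroup.mk' C (l.foldr (fun g y => ⁅g, y⁆) a) = 1 →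
          QuotientGroup.mk' C (l.foldr (fun g y => ⁅g, y⁆) a⁻¹) = 1 := by
        intro a ha h1
        have h2 := hmul a ha a⁻¹ (B.inv_mem ha)
        rw [mul_inv_cancel, sec_foldr_one, map_one, h1, one_mul] at h2
        exact h2.symm
      let D : Subgroup G :=
        { carrier := {y | y ∈ B ∧ QuotientGroup.mk' C (l.foldr (fun g y => ⁅g, y⁆) y) = 1}
          mul_mem' := by
            rintro a b ⟨ha, ha'⟩ ⟨hb, hb'⟩
            exact ⟨B.mul_mem ha hb, by rw [hmul a ha b hb, ha', hb', one_mul]⟩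
          one_mem' := ⟨B.one_mem, by rw [sec_foldr_one, map_one]⟩
          inv_mem' := by
            rintro a ⟨ha, ha'⟩
            exact ⟨B.inv_mem ha, hinv a ha ha'⟩ }
      have hD : ⁅B, K⁆ ≤ D := by
        rw [Subgroup.commutator_le]
        intro b hb k hk
        have h1 : ⁅k, b⁆ ∈ B := by
          rw [commutatorElement_def]
          exact B.mul_mem (hB.conj_mem _ hb k) (B.inv_mem hb)
        have h2 : QuotientGroup.mk' C (l.foldr (fun g y => ⁅g, y⁆) ⁅k, b⁆) = 1 := by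
          rw [hone]
          have h3 := h (l ++ [k]) (by rw [List.length_append, hl]; rfl) (by
            intro k' hk'
            rcases List.mem_append.1 hk' with h4 | h4
            · exact hlK k' h4
            · rw [List.mem_singleton.1 h4]
              exact hk) b hb
          rw [List.foldr_append] at h3
          exact h3
        have h3 : ⁅b, k⁆ = ⁅k, b⁆⁻¹ := (commutatorElement_inv k b).symm
        rw [h3]
        exact ⟨B.inv_mem h1, hinv _ h1 h2⟩
      exact (hone _).1 (hD hy).2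
  exact gen m B inferInstance hBB h

end E4
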