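import Pool.Agent.Lib.MP_8a95e3_al.JNil
import Pool.Agent.Lib.MP_8a95e3_al.Sec

/-!
# SolNil : soluble groups of exponent 4 have nilpotent commutator subgroup
-/

open scoped commutatorElement

namespace E4

universe u

/-- PROOF.  `G' = commutator G`, and `lcs G' c` centralises `B` modulo `C`.  Take `ρ` from `sec_exists`.  For `g ∈ lcs G' c` `ρ g = 1` (`hcen`).  By `jnil` products of `5·3^c` elements `X ρ k`, `k ∈ G'` vanish, so the hypothesis of
`itc_le_of_lists` holds with `m = 5·3^c`. -/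
theorem sec_nil {G : Type u} [Group G] (h4 : Exp4 G) (B C : Subgroup G) [B.Normal] [C.Normal]
    (hBB : ⁅B, B⁆ ≤ C) (hB2 : ∀ b ∈ B, b ^ 2 ∈ C) (c : ℕ)
    (hcen : ∀ g ∈ lcs (commutator G) c, ∀ b ∈ B, ⁅g, b⁆ ∈ C) :
    itc B (commutator G) (5 * 3 ^ c) ≤ C := by
  obtain ⟨R, hR, ρ, hcub, hker, hl⟩ := sec_exists h4 B C hBB hB2
  refine itc_le_of_lists B C (commutator G) hBB _ ?_
  intro l hlen hlK b hb
  exact hl l (jnil hcub c (fun g hg => hker g (hcen g hg)) l hlK hlen.ge) b hb

private theorem sn_map_itc {G G' : Type*} [Group G] [Group G'] (f : G →* G') (B K : Subgroup G) (n : ℕ) :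
    (itc B K n).map f = itc (B.map f) (K.map f) n := by
  induction n with
  | zero => rfl
  | succ n ih =>
    change (⁅itc B K n, K⁆ : Subgroup G).map f = ⁅itc (B.map f) (K.map f) n, K.map f⁆
    rw [Subgroup.map_commutator, ih]

private theorem sn_exp4_quot {G : Type*} [Group G] (h4 : Exp4 G) (A : Subgroup G) [A.Normal] :
    Exp4 (G ⧸ A) := by
  intro g
  obtain ⟨h, rfl⟩ := QuotientGroup.mk'_surjective A g
  rw [← map_pow, h4 h, map_one]

private theorem sn_der_quot {G : Type*} [Group G] (A : Subgroup G) [A.Normal] (d : ℕ)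
    (h : derivedSeries G d ≤ A) : derivedSeries (G ⧸ A) d = ⊥ := by
  rw [← map_derivedSeries_eq (QuotientGroup.mk'_surjective A) d, Subgroup.map_eq_bot_iff,
    QuotientGroup.ker_mk']
  exact h

/-- `lcs` and quotients: if `lcs (commutator (G ⧸ A)) n = ⊥` then `lcs (commutator G) n ≤ A`.
PROOF: `map` of a commutator is the commutator of the maps (`Subgroup.map_commutator`), `map (mk' A) ⊤ = ⊤`. -/
theorem lcs_quot {G : Type u} [Group G] (A : Subgroup G) [A.Normal] (n : ℕ)
    (h : lcs (commutator (G ⧸ A)) n = ⊥) : lcs (commutator G) n ≤ A := by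
  have h1 : (commutator G).map (QuotientGroup.mk' A) = commutator (G ⧸ A) := by
    rw [commutator_def, commutator_def, Subgroup.map_commutator,
      Subgroup.map_top_of_surjective _ (QuotientGroup.mk'_surjective A)]
  have h2 : (lcs (commutator G) n).map (QuotientGroup.mk' A) = ⊥ := by
    unfold lcs
    rw [sn_map_itc, h1]
    exact h
  rw [Subgroup.map_eq_bot_iff, QuotientGroup.ker_mk'] at h2
  exact h2

/-- **Theorem A(4).**
PROOF.  Induction on `d`.  `d = 0`: `G` is trivial, `n = 0`.  `d+1`: `A = derivedSeries G d` is normal and abelian (`⁅A,A⁆ = ⊥`).  `G ⧸ A` has exponent 4 and `derivedSeries (G ⧸ A) d = ⊥` (`map_derivedSeries_eq` for the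
surjective projection).  So `lcs (commutator G) n ≤ A` for the `n = n(d)` of the induction hypothesis (`lcs_quot`), and `lcs (commutator G) n` centralises `A`.
Let `A₂ ≤ A` be the subgroup of the squares of elements of `A` (a subgroup since `A` is abelian; normal in `G`).  `sec_nil` for `(A, A₂)`: `itc A G' M ≤ A₂`, `M = 5·3^n`; `sec_nil` for `(A₂, ⊥)` (squares have square `1`
because of exponent 4): `itc A₂ G' M ≤ ⊥`.  So `lcs G' (n + 2M) = itc (lcs G' n) G' (2M) ≤ itc A G' (M+M) ≤ itc A₂ G' M = ⊥`.  The bound depends only on `d`. -/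
theorem sol_nil (d : ℕ) : ∃ n : ℕ, ∀ (G : Type u) [Group G], Exp4 G → derivedSeries G d = ⊥ →
    lcs (commutator G) n = ⊥ := by
  induction d with
  | zero =>
    refine ⟨0, fun G _ _ h => ?_⟩
    rw [derivedSeries_zero] at h
    rw [eq_bot_iff, ← h]
    exact le_top
  | succ d ih =>
    obtain ⟨n, hn⟩ := ih
    refine ⟨n + (5 * 3 ^ n + 5 * 3 ^ n), fun G _ h4 hd => ?_⟩
    have hnor : (derivedSeries G d).Normal := derivedSeries_normal G d
    have hAA : ⁅derivedSeries G d, derivedSeries G d⁆ = (⊥ : Subgroup G) := by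
      rw [← derivedSeries_succ]; exact hd
    have hcomm : ∀ a ∈ derivedSeries G d, ∀ b ∈ derivedSeries G d, a * b = b * a := by
      intro a ha b hb
      have h1 : ⁅a, b⁆ ∈ (⊥ : Subgroup G) := by
        rw [← hAA]; exact Subgroup.commutator_mem_commutator ha hb
      rw [Subgroup.mem_bot] at h1
      exact commutatorElement_eq_one_iff_mul_comm.1 h1
    have hle : lcs (commutator G) n ≤ derivedSeries G d :=
      lcs_quot (derivedSeries G d) n
        (hn (G ⧸ derivedSeries G d) (sn_exp4_quot h4 _) (sn_der_quot _ d le_rfl))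
    let A₂ : Subgroup G :=
      { carrier := {g | ∃ a ∈ derivedSeries G d, g = a ^ 2}
        mul_mem' := by
          rintro _ _ ⟨a, ha, rfl⟩ ⟨b, hb, rfl⟩
          refine ⟨a * b, mul_mem ha hb, ?_⟩
          rw [(show Commute a b from hcomm a ha b hb).mul_pow]
        one_mem' := ⟨1, one_mem _, by simp⟩
        inv_mem' := by
          rintro _ ⟨a, ha, rfl⟩
          exact ⟨a⁻¹, inv_mem ha, by simp⟩ }
    have hA₂n : A₂.Normal := by
      refine ⟨?_⟩
      rintro _ ⟨a, ha, rfl⟩ g
      exact ⟨g * a * g⁻¹, hnor.conj_mem a ha g, by rw [conj_pow]⟩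
    have hA₂le : A₂ ≤ derivedSeries G d := by
      rintro _ ⟨a, ha, rfl⟩
      exact pow_mem ha 2
    have s1 : itc (derivedSeries G d) (commutator G) (5 * 3 ^ n) ≤ A₂ := by
      refine sec_nil h4 (derivedSeries G d) A₂ (hAA.le.trans bot_le) (fun b hb => ⟨b, hb, rfl⟩) n ?_
      intro g hg b hb
      have h1 : ⁅g, b⁆ ∈ (⊥ : Subgroup G) := by
        rw [← hAA]; exact Subgroup.commutator_mem_commutator (hle hg) hb
      exact (bot_le : ⊥ ≤ A₂) h1
    have s2 : itc A₂ (commutator G) (5 * 3 ^ n) ≤ ⊥ := by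
      refine sec_nil h4 A₂ ⊥ ((Subgroup.commutator_mono hA₂le hA₂le).trans hAA.le) ?_ n ?_
      · rintro _ ⟨a, _, rfl⟩
        rw [Subgroup.mem_bot, ← pow_mul]
        exact h4 a
      · intro g hg b hb
        rw [← hAA]; exact Subgroup.commutator_mem_commutator (hle hg) (hA₂le hb)
    rw [eq_bot_iff]
    unfold lcs
    rw [itc_add, itc_add]
    exact (itc_mono ((itc_mono hle _).trans s1) _).trans s2

/-- For a cubic representation which is trivial on a term of the derived series of `H`, long products of `X ρ k`, `k ∈ H'`, vanish.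

PROOF.  Let `N = MonoidHom.ker (MonoidHom.toHomUnits ρ)` (so `g ∈ N ↔ ρ g = 1`), `G = H ⧸ N`.  `G` has exponent 4 because `ρ h ^ 4 = 1` (`cub_pow_four`, in `Nil`), and `derivedSeries G d = ⊥` because `derivedSeries H d ≤ N`.
By `sol_nil` and `lcs_quot`, `lcs (commutator H) n ≤ N`, i.e. `ρ g = 1` on it; apply `jnil`. -/
theorem rep_sol {H R : Type u} [Group H] [Ring R] {ρ : H →* R} (hc : Cub ρ) (d : ℕ)
    (hd : ∀ g ∈ derivedSeries H d, ρ g = 1) :
    ∃ N : ℕ, ∀ l : List H, (∀ k ∈ l, k ∈ commutator H) → N ≤ l.length →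
      (l.map (X ρ)).prod = 0 := by
  have hmem : ∀ g : H, g ∈ MonoidHom.ker (MonoidHom.toHomUnits ρ) ↔ ρ g = 1 := by
    intro g
    rw [MonoidHom.mem_ker, Units.ext_iff, MonoidHom.coe_toHomUnits, Units.val_one]
  obtain ⟨n, hn⟩ := sol_nil.{u} d
  have h4 : Exp4 (H ⧸ MonoidHom.ker (MonoidHom.toHomUnits ρ)) := by
    intro g
    obtain ⟨h, rfl⟩ := QuotientGroup.mk'_surjective _ g
    rw [← map_pow, QuotientGroup.mk'_apply, QuotientGroup.eq_one_iff, hmem, map_pow]
    exact cub_pow_four hc h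
  have hle := lcs_quot (MonoidHom.ker (MonoidHom.toHomUnits ρ)) n
    (hn _ h4 (sn_der_quot _ d fun g hg => (hmem g).2 (hd g hg)))
  exact ⟨5 * 3 ^ n, fun l hl hlen => jnil hc n (fun g hg => (hmem g).1 (hle hg)) l hl hlen⟩

end E4
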