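import Pool.Agent.Lib.MP_8a95e3_al.GEval
import Pool.Agent.Lib.MP_8a95e3_al.SolNil

/-!
# GOm : the word `ω_m` in a product of two verbal subgroups
-/

open scoped commutatorElement

namespace E4

/-- verbal subgroups are normal. PROOF: conjugation by `g` is an endomorphism of `F`. -/
theorem verb_normal {V : Subgroup F} (hV : Verb4 V) : V.Normal := by
  constructor
  intro n hn g
  have h := hV.endo (MulAut.conj g).toMonoidHom n hn
  simpa using h

/-- PROOF: elements of `V₁ ⊔ V₂` are products (`Subgroup.mul_normal`), endomorphisms are multiplicative. -/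
theorem verb_sup {V₁ V₂ : Subgroup F} (h₁ : Verb4 V₁) (h₂ : Verb4 V₂) : Verb4 (V₁ ⊔ V₂) := by
  constructor
  · intro φ w hw
    have hle : V₁ ⊔ V₂ ≤ (V₁ ⊔ V₂).comap φ := by
      apply sup_le
      · intro v hv
        exact Subgroup.mem_sup_left (h₁.endo φ v hv)
      · intro v hv
        exact Subgroup.mem_sup_right (h₂.endo φ v hv)
    exact hle hw
  · intro w
    exact Subgroup.mem_sup_left (h₁.four w)

/-- a soluble verbal subgroup contains some `lcs (commutator F) n`.  PROOF: `G = F ⧸ V` has exponent 4 and is soluble (`derivedSeries G d = ⊥`); `sol_nil`, `lcs_quot`. -/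
theorem sol_lcs {V : Subgroup F} (hV : Verb4 V) (hs : Sol V) :
    ∃ n, lcs (commutator F) n ≤ V := by
  have := verb_normal hV
  obtain ⟨d, hd⟩ := hs
  obtain ⟨n, hn⟩ := sol_nil d
  refine ⟨n, lcs_quot V n (hn (F ⧸ V) ?_ ?_)⟩
  · intro g
    obtain ⟨w, rfl⟩ := QuotientGroup.mk'_surjective V g
    rw [← map_pow]
    exact (QuotientGroup.eq_one_iff (N := V) (w ^ 4)).mpr (hV.four w)
  · rw [← map_derivedSeries_eq (QuotientGroup.mk'_surjective V) d, Subgroup.map_eq_bot_iff,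
      QuotientGroup.ker_mk']
    exact hd

private theorem lcs_normal' (n : ℕ) : (lcs (commutator F) n).Normal := by
  induction n with
  | zero => exact (inferInstance : (commutator F).Normal)
  | succ n ih =>
    have := ih
    exact (inferInstance : (⁅lcs (commutator F) n, commutator F⁆).Normal)

private theorem cm_eq {G : Type*} [Group G] (a b : G) : cm a b = ⁅a⁻¹, b⁻¹⁆ := by
  simp only [cm, commutatorElement_def, inv_inv]

private theorem cm_mem_comm {G : Type*} [Group G] (a b : G) : cm a b ∈ commutator G := by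
  rw [cm_eq]
  exact Subgroup.commutator_mem_commutator (Subgroup.mem_top _) (Subgroup.mem_top _)

private theorem omX_mem (m : ℕ) : omX (m + 1) ∈ lcs (commutator F) m := by
  induction m with
  | zero => exact cm_mem_comm _ _
  | succ m ih =>
    have h1 : omX (m + 1 + 1) = cm (omX (m + 1)) (cm (x (2 * (m + 1) + 1)) (x (2 * (m + 1) + 2))) := rfl
    rw [h1, cm_eq]
    exact Subgroup.commutator_mem_commutator (Subgroup.inv_mem _ ih)
      (Subgroup.inv_mem _ (cm_mem_comm _ _))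

/-- `ω_{k+1} ∈ lcs (commutator F) k`.
PROOF.  `omX (m+1) ∈ lcs (commutator F) m` for all `m`: `m = 0`: a commutator.  Step: `omX (m+2) = cm (omX (m+1)) (cm ..)`, in `⁅lcs F' m, F'⁆` (`cm a b = ⁅a⁻¹,b⁻¹⁆`).  `om (k+1) = cm (omX (k+1)) y = (omX (k+1))⁻¹ * (y⁻¹ omX (k+1) y)` and `lcs F' k` is normal. -/
theorem om_mem (k : ℕ) : om (k + 1) ∈ lcs (commutator F) k := by
  have hX := omX_mem k
  have hN := lcs_normal' k
  have h1 : om (k + 1) = (omX (k + 1))⁻¹ *
      ((x (2 * (k + 1) + 1))⁻¹ * omX (k + 1) * ((x (2 * (k + 1) + 1))⁻¹)⁻¹) := by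
    rw [inv_inv]
    simp only [om, cm, mul_assoc]
  rw [h1]
  exact Subgroup.mul_mem _ (Subgroup.inv_mem _ hX) (hN.conj_mem _ hX _)

private theorem kl_idem (U : Set ℕ) (a : F) : kl U (kl U a) = kl U a := by
  have h : (kl U).comp (kl U) = kl U := by
    apply FreeGroup.ext_hom
    intro j
    by_cases hj : j ∈ U
    · simp [kl, hj]
    · simp [kl, hj, x]
  have h2 := DFunLike.congr_fun h a
  simpa using h2

/-- If `w ∈ V₁ ⊔ V₂` and `kl {0} w = 1` then `w = n₁ n₂` with `nᵢ ∈ Vᵢ`, `kl {0} nᵢ = 1`.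
PROOF.  `w = v₁ v₂`, `κ = kl {0}` (idempotent: `κ (κ a) = κ a`): `1 = κ v₁ κ v₂`.  `n₁ = v₁ (κ v₁)⁻¹ ∈ V₁`, `n₂ = (κ v₁) v₂ = (κ v₂)⁻¹ v₂ ∈ V₂`. -/
theorem split {V₁ V₂ : Subgroup F} (h₁ : Verb4 V₁) (h₂ : Verb4 V₂) {w : F} (hw : w ∈ V₁ ⊔ V₂)
    (hk : kl {0} w = 1) :
    ∃ n₁ ∈ V₁, ∃ n₂ ∈ V₂, kl {0} n₁ = 1 ∧ kl {0} n₂ = 1 ∧ w = n₁ * n₂ := by
  have := verb_normal h₂
  obtain ⟨v₁, hv₁, v₂, hv₂, rfl⟩ := Subgroup.mem_sup_of_normal_right.mp hw
  have hk1 : kl {0} v₁ * kl {0} v₂ = 1 := by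
    rw [← map_mul]
    exact hk
  have hk2 : kl {0} v₁ = (kl {0} v₂)⁻¹ := eq_inv_of_mul_eq_one_left hk1
  refine ⟨v₁ * (kl {0} v₁)⁻¹, V₁.mul_mem hv₁ (V₁.inv_mem (h₁.endo _ _ hv₁)),
    kl {0} v₁ * v₂, ?_, ?_, ?_, ?_⟩
  · rw [hk2]
    exact V₂.mul_mem (V₂.inv_mem (h₂.endo _ _ hv₂)) hv₂
  · rw [map_mul, map_inv, kl_idem, mul_inv_cancel]
  · rw [map_mul, kl_idem]
    exact hk1
  · group

/-- `kl {0} (om m) = 1`. PROOF: `kl {0} (omX m) = 1` by induction, `cm 1 y = 1`. -/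
theorem kl_om (m : ℕ) : kl {0} (om m) = 1 := by
  have h0 : ∀ m : ℕ, kl {0} (omX m) = 1 := by
    intro m
    induction m with
    | zero => simp [omX, kl, x]
    | succ m ih =>
      simp only [omX, cm, map_mul, map_inv] at ih ⊢
      rw [ih]
      group
  simp only [om, cm, map_mul, map_inv]
  rw [h0 m]
  group

end E4
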