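import Pool.Agent.Lib.MP_8a95e3_al.GEval
import Pool.Agent.Lib.MP_8a95e3_al.GOm

/-!
# GInEx : the multilinear part by inclusion and exclusion
-/

open scoped commutatorElement

namespace E4

/-- the full lists: permutations of `1, ..., 2m+1` -/
noncomputable def full (m : ℕ) (N : List (List ℕ)) : List (List ℕ) := by
  classical
  exact N.filter (fun js => decide ((js : Multiset ℕ) = ((List.range' 1 (2 * m + 1) : List ℕ) : Multiset ℕ)))

/-- the killed set belonging to `U`: the letters in `U` and all letters `≥ 2m+2` -/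
def kset (m : ℕ) (U : Finset ℕ) : Set ℕ := {j | j ∈ U ∨ 2 * m + 2 ≤ j}

section

variable {R : Type} [Ring R] {ρ : F →* R}

private theorem GInEx_kl_mem (U : Set ℕ) (j : ℕ) (hj : j ∈ U) : kl U (x j) = 1 := by
  rw [kl, x, FreeGroup.lift_apply_of]
  exact if_pos hj

private theorem GInEx_kl_nmem (U : Set ℕ) (j : ℕ) (hj : j ∉ U) : kl U (x j) = x j := by
  rw [kl, x, FreeGroup.lift_apply_of]
  exact if_neg hj

theorem sqe_kl (h : HT ρ) (U : Set ℕ) (j : ℕ) [Decidable (j ∈ U)] :
    sqe (ρ.comp (kl U)) (x j) = if j ∈ U then 0 else sqe ρ (x j) := by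
  rw [sqe, MonoidHom.comp_apply]
  split_ifs with hj
  · rw [GInEx_kl_mem U j hj, map_one, one_pow, one_add_one_eq_two]
    exact h.cub.two
  · rw [GInEx_kl_nmem U j hj]
    rfl

/-- PROOF: `(ρ ∘ kl U) (x j)` is `ρ (x j)` or `1`; `sqe` is `T_j` or `1 + 1 = 0`. -/
theorem ht_kl (h : HT ρ) (U : Set ℕ) : HT (ρ.comp (kl U)) := by
  classical
  constructor
  · exact ⟨h.cub.two, fun g => h.cub.cube (kl U g)⟩
  · intro j r
    rw [sqe_kl h U j]
    split_ifs with hj
    · rw [mul_zero]
    · exact h.mid j r

/-- `kl U` and `sqh` commute.  PROOF: check on generators. -/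
theorem kl_sqh (U : Set ℕ) (w : F) : kl U (sqh w) = sqh (kl U w) := by
  have key : (kl U).comp sqh = sqh.comp (kl U) := by
    apply FreeGroup.ext_hom
    intro j
    rw [MonoidHom.comp_apply, MonoidHom.comp_apply]
    have e : sqh (FreeGroup.of j) = x j ^ 2 := by rw [sqh, FreeGroup.lift_apply_of]
    rw [e, map_pow]
    by_cases hj : j ∈ U
    · have e2 : kl U (FreeGroup.of j) = 1 := GInEx_kl_mem U j hj
      rw [GInEx_kl_mem U j hj, e2, map_one, one_pow]
    · have e2 : kl U (FreeGroup.of j) = x j := GInEx_kl_nmem U j hj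
      rw [GInEx_kl_nmem U j hj, e2]
      exact e.symm
  have h := DFunLike.congr_fun key w
  rw [MonoidHom.comp_apply, MonoidHom.comp_apply] at h
  exact h

private theorem GInEx_rlie_congr {T T' : ℕ → R} (js : List ℕ) (h0 : T 0 = T' 0) (h : ∀ j ∈ js, T j = T' j) :
    rlie T js = rlie T' js := by
  rw [rlie, rlie, h0]
  exact List.foldl_ext _ _ _ (fun a b hb => by rw [h b hb])

private theorem GInEx_full_one (m : ℕ) (js : List ℕ) (f : List ℕ → R) [Decidable ((js : Multiset ℕ) = ((List.range' 1 (2 * m + 1) : List ℕ) : Multiset ℕ))] :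
    ((full m [js]).map f).sum = if (js : Multiset ℕ) = ((List.range' 1 (2 * m + 1) : List ℕ) : Multiset ℕ)
      then f js else 0 := by
  rw [full, List.filter_cons, List.filter_nil]
  by_cases h : (js : Multiset ℕ) = ((List.range' 1 (2 * m + 1) : List ℕ) : Multiset ℕ)
  · rw [if_pos h, if_pos (by simpa using h)]
    simp
  · rw [if_neg h, if_neg (by simpa using h)]
    simp

/-- **One monomial.**  `Σ_{U ⊆ {1..2m+1}} rlie T^U λ` is `rlie T λ` if `λ` is a permutation of `1..2m+1` and `0` otherwise.

PROOF.  If `0 :: λ` has a repetition then all terms vanish (`rlie_dup`), and `λ` is not a permutation of `1..2m+1`.  If `λ` contains a letter `≥ 2m+2` all terms vanish (`rlie_zero`).  Otherwise `λ` is a duplicate free list of letters in `D = {1..2m+1}`; the term of `U` vanishes if `U` contains a letter of `λ` (`rlie_zero`) and equals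
`rlie T λ` otherwise (the values `T^U_j` agree with `T_j` for `j = 0` and all `j ∈ λ`).  The number of `U ⊆ D \ λ` is `2^{|D \ λ|}`, even unless `λ ⊇ D`; characteristic two. -/
theorem inex_one (h : HT ρ) (m : ℕ) (js : List ℕ) :
    ∑ U ∈ (Finset.Icc 1 (2 * m + 1)).powerset,
        rlie (fun j => sqe (ρ.comp (kl (kset m U))) (x j)) js
      = ((full m [js]).map (rlie (fun j => sqe ρ (x j)))).sum := by
  classical
  rw [GInEx_full_one]
  by_cases hnd : (0 :: js).Nodup
  swap
  · -- a repetition
    rw [if_neg]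
    · exact Finset.sum_eq_zero (fun U _ => rlie_dup (ht_kl h _) js hnd)
    · intro hp
      apply hnd
      have hp' : js.Perm (List.range' 1 (2 * m + 1)) := Multiset.coe_eq_coe.1 hp
      rw [List.nodup_cons]
      refine ⟨?_, hp'.nodup_iff.2 (List.nodup_range')⟩
      intro h0
      have := hp'.mem_iff.1 h0
      rw [List.mem_range'_1] at this
      omega
  by_cases hbig : ∃ j ∈ js, 2 * m + 2 ≤ j
  · obtain ⟨j, hj, hjm⟩ := hbig
    rw [if_neg]
    · refine Finset.sum_eq_zero (fun U _ => rlie_zero _ js j hj ?_)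
      rw [sqe_kl h, if_pos]
      exact Or.inr hjm
    · intro hp
      have hp' : js.Perm (List.range' 1 (2 * m + 1)) := Multiset.coe_eq_coe.1 hp
      have := hp'.mem_iff.1 hj
      rw [List.mem_range'_1] at this
      omega
  · push Not at hbig
    rw [List.nodup_cons] at hnd
    obtain ⟨h0, hjn⟩ := hnd
    have hsub : js.toFinset ⊆ Finset.Icc 1 (2 * m + 1) := by
      intro j hj
      rw [List.mem_toFinset] at hj
      have h1 := hbig j hj
      have h2 : j ≠ 0 := by
        rintro rfl
        exact h0 hj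
      rw [Finset.mem_Icc]
      omega
    -- the terms
    have hterm : ∀ U ∈ (Finset.Icc 1 (2 * m + 1)).powerset,
        rlie (fun j => sqe (ρ.comp (kl (kset m U))) (x j)) js =
          if U ∈ (Finset.Icc 1 (2 * m + 1) \ js.toFinset).powerset then rlie (fun j => sqe ρ (x j)) js else 0 := by
      intro U hU
      rw [Finset.mem_powerset] at hU
      split_ifs with hd
      · rw [Finset.mem_powerset] at hd
        apply GInEx_rlie_congr
        · rw [sqe_kl h, if_neg]
          rintro (h1 | h1)
          · have := hU h1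
            rw [Finset.mem_Icc] at this
            omega
          · omega
        · intro j hj
          rw [sqe_kl h, if_neg]
          rintro (h1 | h1)
          · have := hd h1
            rw [Finset.mem_sdiff, List.mem_toFinset] at this
            exact this.2 hj
          · have := hbig j hj
            omega
      · have hex : ∃ j ∈ U, j ∈ js := by
          by_contra hcon
          push Not at hcon
          apply hd
          rw [Finset.mem_powerset]
          intro j hj
          rw [Finset.mem_sdiff, List.mem_toFinset]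
          exact ⟨hU hj, hcon j hj⟩
        obtain ⟨j, hjU, hj⟩ := hex
        refine rlie_zero _ js j hj ?_
        rw [sqe_kl h, if_pos]
        exact Or.inl hjU
    rw [Finset.sum_congr rfl hterm, ← Finset.sum_filter]
    have hfil : (Finset.Icc 1 (2 * m + 1)).powerset.filter
        (fun U => U ∈ (Finset.Icc 1 (2 * m + 1) \ js.toFinset).powerset) =
        (Finset.Icc 1 (2 * m + 1) \ js.toFinset).powerset := by
      ext U
      rw [Finset.mem_filter]
      constructor
      · exact fun hh => hh.2
      · intro hh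
        refine ⟨?_, hh⟩
        rw [Finset.mem_powerset] at hh ⊢
        exact hh.trans Finset.sdiff_subset
    rw [hfil, Finset.sum_const, Finset.card_powerset]
    by_cases hD : Finset.Icc 1 (2 * m + 1) \ js.toFinset = ∅
    · rw [hD, Finset.card_empty, pow_zero, one_smul, if_pos]
      rw [Finset.sdiff_eq_empty_iff_subset] at hD
      have heq : js.toFinset = Finset.Icc 1 (2 * m + 1) := Finset.Subset.antisymm hsub hD
      rw [Multiset.coe_eq_coe]
      rw [List.perm_ext_iff_of_nodup hjn (List.nodup_range')]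
      intro j
      rw [← List.mem_toFinset, heq, Finset.mem_Icc, List.mem_range'_1]
      omega
    · rw [if_neg]
      · have hc : (Finset.Icc 1 (2 * m + 1) \ js.toFinset).card ≠ 0 := by
          rwa [Ne, Finset.card_eq_zero]
        obtain ⟨c, hcc⟩ := Nat.exists_eq_succ_of_ne_zero hc
        rw [hcc, pow_succ, nsmul_eq_mul, Nat.cast_mul]
        have h2 : ((2 : ℕ) : R) = 0 := by exact_mod_cast h.cub.two
        rw [h2, mul_zero, zero_mul]
      · intro hp
        have hp' : js.Perm (List.range' 1 (2 * m + 1)) := Multiset.coe_eq_coe.1 hp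
        apply hD
        rw [Finset.sdiff_eq_empty_iff_subset]
        intro j hj
        rw [List.mem_toFinset, hp'.mem_iff, List.mem_range'_1]
        rw [Finset.mem_Icc] at hj
        omega

private theorem GInEx_full_cons (m : ℕ) (js : List ℕ) (N : List (List ℕ)) (f : List ℕ → R) :
    ((full m (js :: N)).map f).sum = ((full m [js]).map f).sum + ((full m N).map f).sum := by
  rw [full, full, full, show js :: N = [js] ++ N from rfl, List.filter_append, List.map_append, List.sum_append]

/-- PROOF: `inex_one` and linearity (`full` is a filter). -/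
theorem inex (h : HT ρ) (m : ℕ) (N : List (List ℕ)) :
    ∑ U ∈ (Finset.Icc 1 (2 * m + 1)).powerset,
        (N.map (rlie (fun j => sqe (ρ.comp (kl (kset m U))) (x j)))).sum
      = ((full m N).map (rlie (fun j => sqe ρ (x j)))).sum := by
  induction N with
  | nil => simp [full]
  | cons js N ih =>
    rw [GInEx_full_cons, ← ih, ← inex_one h m js, ← Finset.sum_add_distrib]
    apply Finset.sum_congr rfl
    intro U _
    rw [List.map_cons, List.sum_cons]

/-- **First consequence**: if `ρ` is trivial on a verbal `V ∋ n` and `N` is the list of `eval_ker` for `n` then the full part vanishes.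
PROOF.  For every `U`, with `κ = kl (kset m U)`: `(ρ ∘ κ)(sqh n) = ρ (sqh (κ n)) = 1`, because `sqh (κ n) ∈ V`.  So `Σ_{λ∈N} rlie T^U λ = 1 + 1 = 0` by `eval_ker` for `ρ ∘ κ` (`ht_kl`).  Sum over `U` and use `inex`. -/
theorem full_zero (h : HT ρ) {V : Subgroup F} (hV : Verb4 V) (hρ : ∀ v ∈ V, ρ v = 1) {n : F}
    (hn : n ∈ V) (m : ℕ) (N : List (List ℕ))
    (hN : ∀ (R : Type) [Ring R] (ρ : F →* R), HT ρ →
      ρ (sqh n) + 1 = (N.map (rlie (fun j => sqe ρ (x j)))).sum) :
    ((full m N).map (rlie (fun j => sqe ρ (x j)))).sum = 0 := by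
  rw [← inex h m N]
  apply Finset.sum_eq_zero
  intro U _
  rw [← hN R _ (ht_kl h (kset m U)), MonoidHom.comp_apply]
  rw [hρ _ (hV.endo _ _ (hV.endo _ _ hn)), one_add_one_eq_two]
  exact h.cub.two

private theorem GInEx_rX_congr {T T' : ℕ → R} (m : ℕ) (h : ∀ j ≤ 2 * m, T j = T' j) : rX T m = rX T' m := by
  induction m with
  | zero => exact h 0 (by omega)
  | succ m ih =>
    rw [rX, rX, ih (fun j hj => h j (by omega)), h (2 * m + 1) (by omega), h (2 * m + 2) (by omega)]

/-- **Second consequence**: if `om m = n₁ n₂`, `ρ` is trivial on the verbal subgroup `V ∋ n₂`, `N` is the list for `n₁`, then the full part is `rA m`.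
PROOF.  For every `U`, `κ = kl (kset m U)`: `ρ (sqh (κ (om m))) = ρ (sqh (κ n₁)) * 1`.  So `Σ_{λ∈N} rlie T^U λ = (ρ∘κ)(sqh (om m)) + 1 = rA T^U m` (`eval_om`), which is `0` for `U ≠ ∅` (`rA_zero`) and `rA T m` for `U = ∅` (the letters of `rA m` are `≤ 2m+1`, not killed: `rA` depends only on `T_0..T_{2m+1}`). -/
theorem full_om (h : HT ρ) {V : Subgroup F} (hV : Verb4 V) (hρ : ∀ v ∈ V, ρ v = 1) {m : ℕ}
    {n₁ n₂ : F} (hn : n₂ ∈ V) (hom : om m = n₁ * n₂) (N : List (List ℕ))
    (hN : ∀ (R : Type) [Ring R] (ρ : F →* R), HT ρ →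
      ρ (sqh n₁) + 1 = (N.map (rlie (fun j => sqe ρ (x j)))).sum) :
    ((full m N).map (rlie (fun j => sqe ρ (x j)))).sum = rA (fun j => sqe ρ (x j)) m := by
  classical
  have hU : ∀ U : Finset ℕ, (N.map (rlie (fun j => sqe (ρ.comp (kl (kset m U))) (x j)))).sum =
      rA (fun j => sqe (ρ.comp (kl (kset m U))) (x j)) m := by
    intro U
    rw [← hN R _ (ht_kl h (kset m U)), ← eval_om m (ht_kl h (kset m U)), hom, map_mul, map_mul]
    have e : (ρ.comp (kl (kset m U))) (sqh n₂) = 1 := by
      rw [MonoidHom.comp_apply]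
      exact hρ _ (hV.endo _ _ (hV.endo _ _ hn))
    rw [e, mul_one]
  rw [← inex h m N, Finset.sum_congr rfl (fun U _ => hU U)]
  rw [Finset.sum_eq_single ∅]
  · have hT : ∀ j ≤ 2 * m + 1, sqe (ρ.comp (kl (kset m ∅))) (x j) = sqe ρ (x j) := by
      intro j hj
      rw [sqe_kl h, if_neg]
      rintro (h1 | h1)
      · exact absurd h1 (Finset.notMem_empty _)
      · omega
    rw [rA, rA, GInEx_rX_congr m (T' := fun j => sqe ρ (x j)) (fun j hj => hT j (by omega)), hT _ (by omega)]
  · intro U hUD hUne
    obtain ⟨j, hj⟩ := Finset.nonempty_iff_ne_empty.2 hUne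
    have hjD := Finset.mem_powerset.1 hUD hj
    rw [Finset.mem_Icc] at hjD
    refine rA_zero _ m j hjD.1 hjD.2 ?_
    rw [sqe_kl h, if_pos]
    exact Or.inl hj
  · intro hne
    exact absurd (Finset.mem_powerset.2 (Finset.empty_subset _)) hne

end

end E4
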