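import Mathlib

/-! Reflective checker for identities in rings generated by a group satisfying the cubic law. -/
namespace E4.RC

/-- push a letter on a word code (base 16, leading marker 1), with free reduction of group letters 2..7 -/
def push (w c : ℕ) : ℕ :=
  bif (Nat.ble 16 w) && ((Nat.ble 2 c && Nat.ble c 7) && (Nat.beq (w % 16) (Nat.xor c 1))) then
    w / 16 else w * 16 + c

def pushL : ℕ → List ℕ → ℕ
  | w, [] => w
  | w, c :: l => pushL (push w c) l

def invA : List ℕ → List ℕ → List ℕ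
  | [], acc => acc
  | c :: l, acc => invA l (Nat.xor c 1 :: acc)

def grp : List ℕ → Bool
  | [] => true
  | c :: l => (Nat.ble 2 c && Nat.ble c 7) && grp l

/-- unpack a number into base 16 digits (least significant first) -/
def digs : ℕ → ℕ → List ℕ
  | 0, _ => []
  | f + 1, n => bif Nat.beq n 0 then [] else (n % 16) :: digs f (n / 16)

def consH (c : ℕ) : List (List ℕ) → List (List ℕ)
  | [] => [[c]]
  | h :: t => (c :: h) :: t

def splt : List ℕ → List (List ℕ)
  | [] => [[]]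
  | c :: l => bif Nat.beq c 0 then [] :: splt l else consH c (splt l)

/-- words of one instance of the cubic law -/
def insG (P v Q : List ℕ) : List ℕ :=
  bif grp v then
    [pushL (pushL (pushL (pushL 1 P) v) v) Q, pushL (pushL 1 P) Q,
      pushL (pushL (pushL 1 P) v) Q, pushL (pushL (pushL 1 P) (invA v [])) Q]
  else []

/-- words of one instance of the linear law of the letter `a` -/
def insL (a : ℕ) (P v Q : List ℕ) : List ℕ :=
  bif grp v && (Nat.ble 8 a && Nat.ble a 15) then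
    [pushL (pushL (push (pushL 1 P) a) v) Q, pushL (push (pushL (pushL 1 P) v) a) Q,
      pushL (push (pushL 1 P) a) Q,
      pushL (pushL (push (pushL (pushL 1 P) (invA v [])) a) (invA v [])) Q]
  else []

/-- words of one instance of the bilinear law of the letters `a`, `b` -/
def insB (a b : ℕ) (P v w Q : List ℕ) : List ℕ :=
  bif (grp v && grp w) && ((Nat.ble 8 a && Nat.ble a 15) && (Nat.ble 8 b && Nat.ble b 15)) then
    [pushL (pushL (push (pushL (push (pushL 1 P) a) v) b) w) Q,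
     pushL (push (pushL (push (pushL (pushL 1 P) v) b) w) a) Q,
     pushL (pushL (pushL (push (pushL (push (pushL (pushL 1 P) (invA w [])) b) (invA v [])) a)
       (invA w [])) (invA v [])) Q,
     pushL (pushL (push (pushL (push (pushL (pushL (pushL 1 P) (invA w [])) (invA v [])) a)
       (invA w [])) b) (invA v [])) Q]
  else []

def instW : List (List ℕ) → List ℕ
  | [[2], P, v, Q, [1]] => insG P v Q
  | [[3, a], P, v, Q, [1]] => insL a P v Q
  | [[4, a, b], P, v, w, Q, [1]] => insB a b P v w Q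
  | _ => []

/-- merge two lists, cancelling equal heads -/
def mrg : ℕ → List ℕ → List ℕ → List ℕ
  | 0, a, b => a ++ b
  | _ + 1, [], b => b
  | _ + 1, a :: l, [] => a :: l
  | f + 1, x :: a, y :: b =>
      bif Nat.beq x y then mrg f a b else
      bif Nat.ble x y then x :: mrg f a (y :: b) else y :: mrg f (x :: a) b

def pairUp : List (List ℕ) → List (List ℕ)
  | a :: b :: t => mrg 1000000 a b :: pairUp t
  | l => l

def tree : ℕ → List (List ℕ) → List (List ℕ)
  | 0, l => l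
  | f + 1, l => tree f (pairUp l)

def sing : List ℕ → List (List ℕ)
  | [] => []
  | c :: l => [c] :: sing l

def allW (tgt : List ℕ) : List ℕ → List (List ℕ)
  | [] => sing tgt
  | c :: l => sing (instW (splt (digs 100 c))) ++ allW tgt l

def isE : List (List ℕ) → Bool
  | [] => true
  | [] :: l => isE l
  | (_ :: _) :: _ => false

def enc : ℕ → List ℕ → ℕ
  | w, [] => w
  | w, c :: l => enc (w * 16 + c) l

def encs : List (List ℕ) → List ℕ
  | [] => []
  | l :: t => enc 1 l :: encs t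

def check (tgt : List (List ℕ)) (cert : List ℕ) : Bool := isE (tree 20 (allW (encs tgt) cert))

/-! ## soundness -/

section
variable {R : Type*} [Ring R] (ρ : ℕ → R)

/-- value of a word code -/
def evC (n : ℕ) : R := if _h : n < 16 then 1 else evC (n / 16) * ρ (n % 16)
termination_by n
decreasing_by omega

/-- value of a list of letters -/
def evL : List ℕ → R
  | [] => 1
  | c :: l => ρ c * evL l

/-- sum of values of word codes -/
def evs : List ℕ → R
  | [] => 0
  | c :: l => evC ρ c + evs l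

def evss : List (List ℕ) → R
  | [] => 0
  | c :: l => evs ρ c + evss l

/-- sum of values of lists of letters -/
def evT : List (List ℕ) → R
  | [] => 0
  | l :: t => evL ρ l + evT t

variable {ρ}

theorem evC_one : evC ρ 1 = 1 := by rw [evC]; simp

theorem evC_app (w c : ℕ) (hw : 1 ≤ w) (hc : c < 16) : evC ρ (w * 16 + c) = evC ρ w * ρ c := by
  rw [evC, dif_neg (by omega)]
  have h1 : (w * 16 + c) / 16 = w := by omega
  have h2 : (w * 16 + c) % 16 = c := by omega
  rw [h1, h2]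

/-- the data of the interpretation -/
structure Ok (ρ : ℕ → R) (G : Subgroup Rˣ) : Prop where
  two : ∀ r : R, r + r = 0
  grp : ∀ c, 2 ≤ c → c ≤ 7 → ∃ u : Rˣ, u ∈ G ∧ (u : R) = ρ c ∧ ((u⁻¹ : Rˣ) : R) = ρ (Nat.xor c 1)
  cub : ∀ u : Rˣ, u ∈ G → (u : R) * u + 1 + u + ((u⁻¹ : Rˣ) : R) = 0
  lin : ∀ a, 8 ≤ a → a ≤ 15 → ∀ u : Rˣ, u ∈ G →
    ρ a * u + u * ρ a + ρ a + ((u⁻¹ : Rˣ) : R) * ρ a * ((u⁻¹ : Rˣ) : R) = 0
  bil : ∀ a b, 8 ≤ a → a ≤ 15 → 8 ≤ b → b ≤ 15 → ∀ u v : Rˣ, u ∈ G → v ∈ G →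
    ρ a * u * ρ b * v + u * ρ b * v * ρ a
      + ((v⁻¹ : Rˣ) : R) * ρ b * ((u⁻¹ : Rˣ) : R) * ρ a * ((v⁻¹ : Rˣ) : R) * ((u⁻¹ : Rˣ) : R)
      + ((v⁻¹ : Rˣ) : R) * ((u⁻¹ : Rˣ) : R) * ρ a * ((v⁻¹ : Rˣ) : R) * ρ b * ((u⁻¹ : Rˣ) : R) = 0

variable {G : Subgroup Rˣ}

theorem push_ev (H : Ok ρ G) (w c : ℕ) (hw : 1 ≤ w) (hc : c < 16) :
    1 ≤ push w c ∧ evC ρ (push w c) = evC ρ w * ρ c := by
  unfold push
  cases hb : (Nat.ble 16 w) && ((Nat.ble 2 c && Nat.ble c 7) && (Nat.beq (w % 16) (Nat.xor c 1)))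
  · simp only [cond_false]
    exact ⟨by omega, evC_app w c hw hc⟩
  · simp only [cond_true]
    simp only [Bool.and_eq_true, Nat.ble_eq, Nat.beq_eq] at hb
    obtain ⟨h16, ⟨h2, h7⟩, he⟩ := hb
    refine ⟨by omega, ?_⟩
    obtain ⟨u, -, hu1, hu2⟩ := H.grp c h2 h7
    conv_rhs => rw [evC, dif_neg (by omega)]
    rw [he, ← hu2, ← hu1, mul_assoc, Units.inv_mul, mul_one]

theorem pushL_ev (H : Ok ρ G) (l : List ℕ) : ∀ w : ℕ, 1 ≤ w → (∀ c ∈ l, c < 16) →
    1 ≤ pushL w l ∧ evC ρ (pushL w l) = evC ρ w * evL ρ l := by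
  induction l with
  | nil => intro w hw _; exact ⟨hw, by simp [pushL, evL]⟩
  | cons c l ih =>
    intro w hw hl
    obtain ⟨h1, h2⟩ := push_ev H w c hw (hl c (by simp))
    obtain ⟨h3, h4⟩ := ih (push w c) h1 (fun d hd => hl d (by simp [hd]))
    refine ⟨h3, ?_⟩
    show evC ρ (pushL (push w c) l) = _
    rw [h4, h2, evL, mul_assoc]

theorem invA_spec (H : Ok ρ G) (v : List ℕ) (hv : grp v = true) : ∀ acc : List ℕ,
    (∀ c ∈ acc, c < 16) →
    (∀ c ∈ invA v acc, c < 16) ∧ (∀ c ∈ v, c < 16) ∧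
    ∃ u : Rˣ, u ∈ G ∧ (u : R) = evL ρ v ∧ evL ρ (invA v acc) = ((u⁻¹ : Rˣ) : R) * evL ρ acc := by
  induction v with
  | nil =>
    intro acc hacc
    exact ⟨hacc, by simp, 1, G.one_mem, by simp [evL], by simp [invA]⟩
  | cons c v ih =>
    intro acc hacc
    simp only [grp, Bool.and_eq_true, Nat.ble_eq] at hv
    obtain ⟨⟨h2, h7⟩, hv⟩ := hv
    have hx : Nat.xor c 1 < 16 := by
      interval_cases c <;> decide
    obtain ⟨h3, h4, u, hu, hu1, hu2⟩ := ih hv (Nat.xor c 1 :: acc) (by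
      intro d hd
      rcases List.mem_cons.1 hd with rfl | hd
      · exact hx
      · exact hacc d hd)
    obtain ⟨t, ht, ht1, ht2⟩ := H.grp c h2 h7
    refine ⟨h3, ?_, t * u, G.mul_mem ht hu, ?_, ?_⟩
    · intro d hd
      rcases List.mem_cons.1 hd with rfl | hd
      · omega
      · exact h4 d hd
    · rw [Units.val_mul, ht1, hu1, evL]
    · show evL ρ (invA v (Nat.xor c 1 :: acc)) = _
      rw [hu2, evL, ← ht2, mul_inv_rev, Units.val_mul, mul_assoc]


theorem digs_lt : ∀ (f n : ℕ), ∀ c ∈ digs f n, c < 16 := by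
  intro f
  induction f with
  | zero => intro n c hc; simp [digs] at hc
  | succ f ih =>
    intro n c hc
    unfold digs at hc
    cases hb : Nat.beq n 0
    · rw [hb, cond_false] at hc
      rcases List.mem_cons.1 hc with rfl | hc
      · exact Nat.mod_lt _ (by norm_num)
      · exact ih _ c hc
    · rw [hb, cond_true] at hc
      simp at hc

theorem splt_lt (l : List ℕ) (hl : ∀ c ∈ l, c < 16) : ∀ m ∈ splt l, ∀ c ∈ m, c < 16 := by
  induction l with
  | nil => intro m hm c hc; simp [splt] at hm; subst hm; simp at hc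
  | cons d l ih =>
    have ih' := ih (fun c hc => hl c (by simp [hc]))
    intro m hm c hc
    unfold splt at hm
    cases hb : Nat.beq d 0
    · rw [hb, cond_false] at hm
      cases hs : splt l with
      | nil =>
        rw [hs] at hm
        simp only [consH, List.mem_singleton] at hm
        subst hm
        simp only [List.mem_singleton] at hc
        subst hc
        exact hl _ (by simp)
      | cons h t =>
        rw [hs] at hm
        simp only [consH, List.mem_cons] at hm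
        rcases hm with rfl | hm
        · rcases List.mem_cons.1 hc with rfl | hc
          · exact hl _ (by simp)
          · exact ih' h (by rw [hs]; simp) c hc
        · exact ih' m (by rw [hs]; simp [hm]) c hc
    · rw [hb, cond_true] at hm
      rcases List.mem_cons.1 hm with rfl | hm
      · simp at hc
      · exact ih' m hm c hc

theorem insG_ev (H : Ok ρ G) (P v Q : List ℕ) (hP : ∀ c ∈ P, c < 16) (hQ : ∀ c ∈ Q, c < 16) :
    evs ρ (insG P v Q) = 0 := by
  unfold insG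
  cases hb : grp v
  · simp [evs]
  · rw [cond_true]
    obtain ⟨hi, hv, u, hu, hu1, hu2⟩ := invA_spec H v hb [] (by simp)
    obtain ⟨a1, a2⟩ := pushL_ev H P 1 le_rfl hP
    obtain ⟨b1, b2⟩ := pushL_ev H v _ a1 hv
    obtain ⟨c1, c2⟩ := pushL_ev H v _ b1 hv
    obtain ⟨d1, d2⟩ := pushL_ev H (invA v []) _ a1 hi
    simp only [evs]
    rw [(pushL_ev H Q _ c1 hQ).2, (pushL_ev H Q _ a1 hQ).2, (pushL_ev H Q _ b1 hQ).2,
      (pushL_ev H Q _ d1 hQ).2, c2, b2, d2, a2, hu2, ← hu1, evC_one]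
    have := H.cub u hu
    calc _ = evL ρ P * ((u : R) * u + 1 + u + ((u⁻¹ : Rˣ) : R)) * evL ρ Q := by
          simp only [evL]; noncomm_ring
      _ = 0 := by rw [this]; simp

theorem insL_ev (H : Ok ρ G) (a : ℕ) (P v Q : List ℕ) (hP : ∀ c ∈ P, c < 16)
    (hQ : ∀ c ∈ Q, c < 16) : evs ρ (insL a P v Q) = 0 := by
  unfold insL
  cases hb : grp v && (Nat.ble 8 a && Nat.ble a 15)
  · simp [evs]
  · rw [cond_true]
    simp only [Bool.and_eq_true, Nat.ble_eq] at hb
    obtain ⟨hb, ha8, ha15⟩ := hb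
    obtain ⟨hi, hv, u, hu, hu1, hu2⟩ := invA_spec H v hb [] (by simp)
    obtain ⟨a1, a2⟩ := pushL_ev H P 1 le_rfl hP
    obtain ⟨b1, b2⟩ := push_ev H _ a a1 (by omega)
    obtain ⟨c1, c2⟩ := pushL_ev H v _ b1 hv
    obtain ⟨d1, d2⟩ := pushL_ev H v _ a1 hv
    obtain ⟨e1, e2⟩ := push_ev H _ a d1 (by omega)
    obtain ⟨f1, f2⟩ := pushL_ev H (invA v []) _ a1 hi
    obtain ⟨g1, g2⟩ := push_ev H _ a f1 (by omega)
    obtain ⟨h1, h2⟩ := pushL_ev H (invA v []) _ g1 hi
    simp only [evs]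
    rw [(pushL_ev H Q _ c1 hQ).2, (pushL_ev H Q _ e1 hQ).2, (pushL_ev H Q _ b1 hQ).2,
      (pushL_ev H Q _ h1 hQ).2, c2, e2, h2, b2, d2, g2, f2, a2, hu2, ← hu1, evC_one]
    have := H.lin a ha8 ha15 u hu
    calc _ = evL ρ P * (ρ a * u + u * ρ a + ρ a + ((u⁻¹ : Rˣ) : R) * ρ a * ((u⁻¹ : Rˣ) : R))
          * evL ρ Q := by
          simp only [evL]; noncomm_ring
      _ = 0 := by rw [this]; simp

theorem insB_ev (H : Ok ρ G) (a b : ℕ) (P v w Q : List ℕ) (hP : ∀ c ∈ P, c < 16)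
    (hQ : ∀ c ∈ Q, c < 16) : evs ρ (insB a b P v w Q) = 0 := by
  unfold insB
  cases hb : (grp v && grp w) && ((Nat.ble 8 a && Nat.ble a 15) && (Nat.ble 8 b && Nat.ble b 15))
  · simp [evs]
  · rw [cond_true]
    simp only [Bool.and_eq_true, Nat.ble_eq] at hb
    obtain ⟨⟨hbv, hbw⟩, ⟨ha8, ha15⟩, hb8, hb15⟩ := hb
    obtain ⟨vi, hv, u, hu, hu1, hu2⟩ := invA_spec H v hbv [] (by simp)
    obtain ⟨wi, hw, t, ht, ht1, ht2⟩ := invA_spec H w hbw [] (by simp)
    obtain ⟨p1, p2⟩ := pushL_ev H P 1 le_rfl hP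
    -- word 1
    obtain ⟨a1, a2⟩ := push_ev H _ a p1 (by omega)
    obtain ⟨a3, a4⟩ := pushL_ev H v _ a1 hv
    obtain ⟨a5, a6⟩ := push_ev H _ b a3 (by omega)
    obtain ⟨a7, a8⟩ := pushL_ev H w _ a5 hw
    -- word 2
    obtain ⟨b1, b2⟩ := pushL_ev H v _ p1 hv
    obtain ⟨b3, b4⟩ := push_ev H _ b b1 (by omega)
    obtain ⟨b5, b6⟩ := pushL_ev H w _ b3 hw
    obtain ⟨b7, b8⟩ := push_ev H _ a b5 (by omega)
    -- word 3
    obtain ⟨c1, c2⟩ := pushL_ev H (invA w []) _ p1 wi
    obtain ⟨c3, c4⟩ := push_ev H _ b c1 (by omega)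
    obtain ⟨c5, c6⟩ := pushL_ev H (invA v []) _ c3 vi
    obtain ⟨c7, c8⟩ := push_ev H _ a c5 (by omega)
    obtain ⟨c9, c10⟩ := pushL_ev H (invA w []) _ c7 wi
    obtain ⟨c11, c12⟩ := pushL_ev H (invA v []) _ c9 vi
    -- word 4
    obtain ⟨d3, d4⟩ := pushL_ev H (invA v []) _ c1 vi
    obtain ⟨d5, d6⟩ := push_ev H _ a d3 (by omega)
    obtain ⟨d7, d8⟩ := pushL_ev H (invA w []) _ d5 wi
    obtain ⟨d9, d10⟩ := push_ev H _ b d7 (by omega)
    obtain ⟨d11, d12⟩ := pushL_ev H (invA v []) _ d9 vi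
    simp only [evs]
    rw [(pushL_ev H Q _ a7 hQ).2, (pushL_ev H Q _ b7 hQ).2, (pushL_ev H Q _ c11 hQ).2,
      (pushL_ev H Q _ d11 hQ).2, a8, b8, c12, d12, a6, b6, c10, d10, a4, b4, c8, d8, a2, b2, c6, d6,
      c4, d4, c2, p2, hu2, ht2, ← hu1, ← ht1, evC_one]
    have := H.bil a b ha8 ha15 hb8 hb15 u t hu ht
    calc _ = evL ρ P * (ρ a * u * ρ b * t + u * ρ b * t * ρ a
      + ((t⁻¹ : Rˣ) : R) * ρ b * ((u⁻¹ : Rˣ) : R) * ρ a * ((t⁻¹ : Rˣ) : R) * ((u⁻¹ : Rˣ) : R)
      + ((t⁻¹ : Rˣ) : R) * ((u⁻¹ : Rˣ) : R) * ρ a * ((t⁻¹ : Rˣ) : R) * ρ b * ((u⁻¹ : Rˣ) : R))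
          * evL ρ Q := by
          simp only [evL]; noncomm_ring
      _ = 0 := by rw [this]; simp

theorem instW_ev (H : Ok ρ G) (l : List (List ℕ)) (hl : ∀ m ∈ l, ∀ c ∈ m, c < 16) :
    evs ρ (instW l) = 0 := by
  unfold instW
  split
  · exact insG_ev H _ _ _ (hl _ (by simp)) (hl _ (by simp))
  · exact insL_ev H _ _ _ _ (hl _ (by simp)) (hl _ (by simp))
  · exact insB_ev H _ _ _ _ _ _ (hl _ (by simp)) (hl _ (by simp))
  · rfl

theorem evs_append (a b : List ℕ) : evs ρ (a ++ b) = evs ρ a + evs ρ b := by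
  induction a with
  | nil => simp [evs]
  | cons c a ih => simp [evs, ih, add_assoc]

theorem evss_append (a b : List (List ℕ)) : evss ρ (a ++ b) = evss ρ a + evss ρ b := by
  induction a with
  | nil => simp [evss]
  | cons c a ih => simp [evss, ih, add_assoc]

theorem mrg_ev (H : Ok ρ G) : ∀ (f : ℕ) (a b : List ℕ),
    evs ρ (mrg f a b) = evs ρ a + evs ρ b := by
  intro f
  induction f with
  | zero => intro a b; simp [mrg, evs_append]
  | succ f ih =>
    intro a b
    match a, b with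
    | [], b => simp [mrg, evs]
    | a :: l, [] => simp [mrg, evs]
    | x :: a, y :: b =>
      simp only [mrg]
      cases hb : Nat.beq x y
      · rw [cond_false]
        cases hc : Nat.ble x y
        · rw [cond_false]
          simp only [evs, ih]
          abel
        · rw [cond_true]
          simp only [evs, ih]
          abel
      · rw [cond_true, ih]
        have hxy : x = y := Nat.eq_of_beq_eq_true hb
        subst hxy
        simp only [evs]
        have := H.two (evC ρ x)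
        calc evs ρ a + evs ρ b = (evC ρ x + evC ρ x) + (evs ρ a + evs ρ b) := by rw [this, zero_add]
          _ = _ := by abel

theorem pairUp_ev (H : Ok ρ G) : ∀ (l : List (List ℕ)), evss ρ (pairUp l) = evss ρ l
  | [] => rfl
  | [_] => rfl
  | a :: b :: t => by
    simp only [pairUp, evss, mrg_ev H, pairUp_ev H t]
    abel

theorem tree_ev (H : Ok ρ G) (f : ℕ) : ∀ (l : List (List ℕ)), evss ρ (tree f l) = evss ρ l := by
  induction f with
  | zero => intro l; rfl
  | succ f ih => intro l; rw [tree, ih, pairUp_ev H]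

theorem sing_ev (l : List ℕ) : evss ρ (sing l) = evs ρ l := by
  induction l with
  | nil => rfl
  | cons c l ih => simp [sing, evss, evs, ih]

theorem allW_ev (H : Ok ρ G) (tgt : List ℕ) (c : List ℕ) : evss ρ (allW tgt c) = evs ρ tgt := by
  induction c with
  | nil => simp [allW, sing_ev]
  | cons c l ih =>
    rw [allW, evss_append, ih, sing_ev, instW_ev H _ (splt_lt _ (digs_lt _ _)), zero_add]

theorem isE_ev (l : List (List ℕ)) (h : isE l = true) : evss ρ l = 0 := by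
  induction l with
  | nil => rfl
  | cons a l ih =>
    cases a with
    | nil => simp only [isE] at h; simp [evss, evs, ih h]
    | cons c a => simp [isE] at h

theorem enc_ev (l : List ℕ) (hl : ∀ c ∈ l, c < 16) : ∀ w, 1 ≤ w →
    evC ρ (enc w l) = evC ρ w * evL ρ l := by
  induction l with
  | nil => intro w _; simp [enc, evL]
  | cons c l ih =>
    intro w hw
    have hc : c < 16 := hl c (by simp)
    rw [enc, ih (fun d hd => hl d (by simp [hd])) _ (by omega), evC_app w c hw hc, evL, mul_assoc]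

theorem encs_ev (t : List (List ℕ)) (ht : ∀ l ∈ t, ∀ c ∈ l, c < 16) :
    evs ρ (encs t) = evT ρ t := by
  induction t with
  | nil => rfl
  | cons l t ih =>
    rw [encs, evs, evT, ih (fun m hm => ht m (by simp [hm])), enc_ev l (ht l (by simp)) 1 le_rfl,
      evC_one, one_mul]

/-- SOUNDNESS: a target with an accepted certificate has value zero -/
theorem check_sound (H : Ok ρ G) (t : List (List ℕ)) (c : List ℕ)
    (ht : ∀ l ∈ t, ∀ c ∈ l, c < 16) (hc : check t c = true) : evT ρ t = 0 := by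
  have h1 := isE_ev (ρ := ρ) _ hc
  rw [tree_ev H, allW_ev H, encs_ev t ht] at h1
  exact h1


/-- a letter: `p r p = 0` for all `r`, and `1 + p` is in the group -/
structure PL (G : Subgroup Rˣ) (p : R) : Prop where
  sq : ∀ r : R, p * r * p = 0
  mem : ∃ u : Rˣ, u ∈ G ∧ (u : R) = 1 + p

theorem PL.zero (G : Subgroup Rˣ) : PL G (0 : R) := ⟨by simp, 1, G.one_mem, by simp⟩

theorem cub_of (h2 : ∀ r : R, r + r = 0) {u : Rˣ} (hu : ((u : R) + 1) ^ 3 = 0) :
    (u : R) * u + 1 + u + ((u⁻¹ : Rˣ) : R) = 0 := by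
  have h1 : ((u : R) + 1) ^ 3 = (u : R) * u * u + u * u + u + 1
      + ((u : R) * u + u * u) + ((u : R) + u) := by noncomm_ring
  rw [h1, h2, h2, add_zero, add_zero] at hu
  calc (u : R) * u + 1 + u + ((u⁻¹ : Rˣ) : R)
      = ((u : R) * u * u + u * u + u + 1) * ((u⁻¹ : Rˣ) : R) := by
        simp only [add_mul, mul_assoc, Units.mul_inv, mul_one, one_mul]; abel
    _ = 0 := by rw [hu, zero_mul]

theorem lin_of (h2 : ∀ r : R, r + r = 0) (hc : ∀ u : Rˣ, u ∈ G → ((u : R) + 1) ^ 3 = 0)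
    {p : R} (hp : PL G p) {u : Rˣ} (hu : u ∈ G) :
    p * u + u * p + p + ((u⁻¹ : Rˣ) : R) * p * ((u⁻¹ : Rˣ) : R) = 0 := by
  obtain ⟨t, ht, ht1⟩ := hp.mem
  have hpp : p * p = 0 := by simpa using hp.sq 1
  have ht2 : ((t⁻¹ : Rˣ) : R) = 1 + p := by
    have h : (t : R) * (1 + p) = 1 := by
      rw [ht1]
      calc (1 + p) * (1 + p) = 1 + (p + p) + p * p := by noncomm_ring
        _ = 1 := by rw [h2, hpp]; simp
    calc ((t⁻¹ : Rˣ) : R) = ((t⁻¹ : Rˣ) : R) * ((t : R) * (1 + p)) := by rw [h, mul_one]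
      _ = 1 + p := by rw [← mul_assoc, Units.inv_mul, one_mul]
  have h1 := cub_of h2 (hc _ (G.mul_mem hu ht))
  have h0 := cub_of h2 (hc _ hu)
  rw [Units.val_mul, mul_inv_rev, Units.val_mul, ht1, ht2] at h1
  have hs : (p * (u : R)) * p = 0 := hp.sq _
  have e : (u : R) * (p * u + u * p + p + ((u⁻¹ : Rˣ) : R) * p * ((u⁻¹ : Rˣ) : R))
      = (((u : R) * (1 + p)) * (u * (1 + p)) + 1 + u * (1 + p) + (1 + p) * ((u⁻¹ : Rˣ) : R))
        - ((u : R) * u + 1 + u + ((u⁻¹ : Rˣ) : R)) - u * ((p * (u : R)) * p) := by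
    have : (u : R) * ((u⁻¹ : Rˣ) : R) = 1 := u.mul_inv
    have e2 : (u : R) * (((u⁻¹ : Rˣ) : R) * p * ((u⁻¹ : Rˣ) : R)) = p * ((u⁻¹ : Rˣ) : R) := by
      rw [← mul_assoc, ← mul_assoc, this, one_mul]
    rw [mul_add, e2]
    noncomm_ring
  rw [h1, h0, hs] at e
  simp only [mul_zero, sub_zero] at e
  calc _ = ((u⁻¹ : Rˣ) : R) * ((u : R) * (p * u + u * p + p
        + ((u⁻¹ : Rˣ) : R) * p * ((u⁻¹ : Rˣ) : R))) := by rw [← mul_assoc, Units.inv_mul, one_mul]
    _ = 0 := by rw [e, mul_zero]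

theorem bil_of (h2 : ∀ r : R, r + r = 0) (hc : ∀ u : Rˣ, u ∈ G → ((u : R) + 1) ^ 3 = 0)
    {p q : R} (hp : PL G p) (hq : PL G q) {u v : Rˣ} (hu : u ∈ G) (hv : v ∈ G) :
    p * u * q * v + u * q * v * p
      + ((v⁻¹ : Rˣ) : R) * q * ((u⁻¹ : Rˣ) : R) * p * ((v⁻¹ : Rˣ) : R) * ((u⁻¹ : Rˣ) : R)
      + ((v⁻¹ : Rˣ) : R) * ((u⁻¹ : Rˣ) : R) * p * ((v⁻¹ : Rˣ) : R) * q * ((u⁻¹ : Rˣ) : R) = 0 := by
  obtain ⟨t, ht, ht1⟩ := hq.mem
  have hqq : q * q = 0 := by simpa using hq.sq 1
  have ht2 : ((t⁻¹ : Rˣ) : R) = 1 + q := by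
    have h : (t : R) * (1 + q) = 1 := by
      rw [ht1]
      calc (1 + q) * (1 + q) = 1 + (q + q) + q * q := by noncomm_ring
        _ = 1 := by rw [h2, hqq]; simp
    calc ((t⁻¹ : Rˣ) : R) = ((t⁻¹ : Rˣ) : R) * ((t : R) * (1 + q)) := by rw [h, mul_one]
      _ = 1 + q := by rw [← mul_assoc, Units.inv_mul, one_mul]
  have h1 := lin_of h2 hc hp (G.mul_mem (G.mul_mem hu ht) hv)
  have h0 := lin_of h2 hc hp (G.mul_mem hu hv)
  simp only [mul_inv_rev, Units.val_mul, ht1, ht2] at h1 h0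
  have hs : q * (((u⁻¹ : Rˣ) : R) * p * ((v⁻¹ : Rˣ) : R)) * q = 0 := hq.sq _
  have e : p * u * q * v + u * q * v * p
      + ((v⁻¹ : Rˣ) : R) * q * ((u⁻¹ : Rˣ) : R) * p * ((v⁻¹ : Rˣ) : R) * ((u⁻¹ : Rˣ) : R)
      + ((v⁻¹ : Rˣ) : R) * ((u⁻¹ : Rˣ) : R) * p * ((v⁻¹ : Rˣ) : R) * q * ((u⁻¹ : Rˣ) : R)
      = (p * ((u : R) * (1 + q) * v) + (u : R) * (1 + q) * v * p + p
          + ((v⁻¹ : Rˣ) : R) * ((1 + q) * ((u⁻¹ : Rˣ) : R)) * p
            * (((v⁻¹ : Rˣ) : R) * ((1 + q) * ((u⁻¹ : Rˣ) : R))))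
        - (p * ((u : R) * v) + (u : R) * v * p + p
          + ((v⁻¹ : Rˣ) : R) * ((u⁻¹ : Rˣ) : R) * p * (((v⁻¹ : Rˣ) : R) * ((u⁻¹ : Rˣ) : R)))
        - ((v⁻¹ : Rˣ) : R) * (q * (((u⁻¹ : Rˣ) : R) * p * ((v⁻¹ : Rˣ) : R)) * q)
            * ((u⁻¹ : Rˣ) : R) := by
    noncomm_ring
  rw [e, h1, h0, hs]
  simp

/-- the interpretation: letters 2..7 = x, x⁻¹, y, y⁻¹, z, z⁻¹ and 8..11 = p, q, s, t -/
def rho (x y z : Rˣ) (p q s t : R) : ℕ → R
  | 2 => x
  | 3 => ((x⁻¹ : Rˣ) : R)
  | 4 => y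
  | 5 => ((y⁻¹ : Rˣ) : R)
  | 6 => z
  | 7 => ((z⁻¹ : Rˣ) : R)
  | 8 => p
  | 9 => q
  | 10 => s
  | 11 => t
  | _ => 0

theorem mkOk (h2 : ∀ r : R, r + r = 0) (hc : ∀ u : Rˣ, u ∈ G → ((u : R) + 1) ^ 3 = 0)
    {x y z : Rˣ} (hx : x ∈ G) (hy : y ∈ G) (hz : z ∈ G) {p q s t : R}
    (hp : PL G p) (hq : PL G q) (hs : PL G s) (ht : PL G t) : Ok (rho x y z p q s t) G := by
  have hP : ∀ a, 8 ≤ a → a ≤ 15 → PL G (rho x y z p q s t a) := by
    intro a h8 h15
    interval_cases a <;> simp only [rho] <;> first | assumption | exact PL.zero G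
  refine ⟨h2, ?_, fun u hu => cub_of h2 (hc u hu), fun a h8 h15 u hu => lin_of h2 hc (hP a h8 h15) hu,
    fun a b h8 h15 h8' h15' u v hu hv => bil_of h2 hc (hP a h8 h15) (hP b h8' h15') hu hv⟩
  intro c hc2 hc7
  interval_cases c
  · exact ⟨x, hx, rfl, rfl⟩
  · exact ⟨x⁻¹, G.inv_mem hx, rfl, by rw [inv_inv]; rfl⟩
  · exact ⟨y, hy, rfl, rfl⟩
  · exact ⟨y⁻¹, G.inv_mem hy, rfl, by rw [inv_inv]; rfl⟩
  · exact ⟨z, hz, rfl, rfl⟩
  · exact ⟨z⁻¹, G.inv_mem hz, rfl, by rw [inv_inv]; rfl⟩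


/-! ## polynomial targets -/

def addP (a b : List (List ℕ)) : List (List ℕ) := a ++ b

def mul1 (l : List ℕ) : List (List ℕ) → List (List ℕ)
  | [] => []
  | m :: b => (l ++ m) :: mul1 l b

def mulP : List (List ℕ) → List (List ℕ) → List (List ℕ)
  | [], _ => []
  | l :: a, b => mul1 l b ++ mulP a b

def lt16 : List (List ℕ) → Bool
  | [] => true
  | l :: t => (l.all fun c => Nat.blt c 16) && lt16 t

def encR : List (List ℕ) → List ℕ
  | [] => []
  | l :: t => pushL 1 l :: encR t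

/-- the checker for unreduced polynomial targets -/
def chk (tgt : List (List ℕ)) (cert : List ℕ) : Bool :=
  lt16 tgt && isE (tree 20 (allW (encR tgt) cert))

theorem evT_append (a b : List (List ℕ)) : evT ρ (a ++ b) = evT ρ a + evT ρ b := by
  induction a with
  | nil => simp [evT]
  | cons c a ih => simp [evT, ih, add_assoc]

theorem evL_append (a b : List ℕ) : evL ρ (a ++ b) = evL ρ a * evL ρ b := by
  induction a with
  | nil => simp [evL]
  | cons c a ih => simp [evL, ih, mul_assoc]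

theorem ev_mul1 (l : List ℕ) (b : List (List ℕ)) : evT ρ (mul1 l b) = evL ρ l * evT ρ b := by
  induction b with
  | nil => simp [mul1, evT]
  | cons c a ih => simp [mul1, evT, ih, evL_append, mul_add]

theorem ev_add (a b : List (List ℕ)) : evT ρ (addP a b) = evT ρ a + evT ρ b := evT_append a b

theorem ev_mul (a b : List (List ℕ)) : evT ρ (mulP a b) = evT ρ a * evT ρ b := by
  induction a with
  | nil => simp [mulP, evT]
  | cons c a ih => simp [mulP, evT, evT_append, ih, ev_mul1, add_mul]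

theorem encR_ev (H : Ok ρ G) (t : List (List ℕ)) (ht : lt16 t = true) :
    evs ρ (encR t) = evT ρ t := by
  induction t with
  | nil => rfl
  | cons l t ih =>
    rw [lt16, Bool.and_eq_true] at ht
    obtain ⟨h1, h2⟩ := ht
    have h3 : ∀ c ∈ l, c < 16 := fun c hc => by
      have := List.all_eq_true.1 h1 c hc
      simpa [Nat.blt_eq] using this
    rw [encR, evs, evT, ih h2, (pushL_ev H l 1 le_rfl h3).2, evC_one, one_mul]

/-- SOUNDNESS for polynomial targets -/
theorem chk_sound (H : Ok ρ G) (t : List (List ℕ)) (c : List ℕ) (hc : chk t c = true) :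
    evT ρ t = 0 := by
  unfold chk at hc
  rw [Bool.and_eq_true] at hc
  have h1 := isE_ev (ρ := ρ) _ hc.2
  rw [tree_ev H, allW_ev H, encR_ev H t hc.1] at h1
  exact h1


/-! ## packed certificates: many instances in one number, separated by the digit 1 -/

def spl1 : List ℕ → List (List ℕ)
  | [] => [[]]
  | c :: l => bif Nat.beq c 1 then [] :: spl1 l else consH c (spl1 l)

def instV : List (List ℕ) → List ℕ
  | [[2], P, v, Q, []] => insG P v Q
  | [[3, a], P, v, Q, []] => insL a P v Q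
  | [[4, a, b], P, v, w, Q, []] => insB a b P v w Q
  | _ => []

def allV : List (List ℕ) → List (List ℕ) → List (List ℕ)
  | acc, [] => acc
  | acc, l :: t => sing (instV (splt l)) ++ allV acc t

def allX (tgt : List ℕ) : List ℕ → List (List ℕ)
  | [] => sing tgt
  | c :: l => allV (allX tgt l) (spl1 (digs 100000 c))

/-- the checker with packed certificates -/
def chx (tgt : List (List ℕ)) (cert : List ℕ) : Bool :=
  lt16 tgt && isE (tree 20 (allX (encR tgt) cert))

theorem spl1_lt (l : List ℕ) (hl : ∀ c ∈ l, c < 16) : ∀ m ∈ spl1 l, ∀ c ∈ m, c < 16 := by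
  induction l with
  | nil => intro m hm c hc; simp [spl1] at hm; subst hm; simp at hc
  | cons d l ih =>
    have ih' := ih (fun c hc => hl c (by simp [hc]))
    intro m hm c hc
    unfold spl1 at hm
    cases hb : Nat.beq d 1
    · rw [hb, cond_false] at hm
      cases hs : spl1 l with
      | nil =>
        rw [hs] at hm
        simp only [consH, List.mem_singleton] at hm
        subst hm
        simp only [List.mem_singleton] at hc
        subst hc
        exact hl _ (by simp)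
      | cons h t =>
        rw [hs] at hm
        simp only [consH, List.mem_cons] at hm
        rcases hm with rfl | hm
        · rcases List.mem_cons.1 hc with rfl | hc
          · exact hl _ (by simp)
          · exact ih' h (by rw [hs]; simp) c hc
        · exact ih' m (by rw [hs]; simp [hm]) c hc
    · rw [hb, cond_true] at hm
      rcases List.mem_cons.1 hm with rfl | hm
      · simp at hc
      · exact ih' m hm c hc

theorem instV_ev (H : Ok ρ G) (l : List (List ℕ)) (hl : ∀ m ∈ l, ∀ c ∈ m, c < 16) :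
    evs ρ (instV l) = 0 := by
  unfold instV
  split
  · exact insG_ev H _ _ _ (hl _ (by simp)) (hl _ (by simp))
  · exact insL_ev H _ _ _ _ (hl _ (by simp)) (hl _ (by simp))
  · exact insB_ev H _ _ _ _ _ _ (hl _ (by simp)) (hl _ (by simp))
  · rfl

theorem allV_ev (H : Ok ρ G) (acc : List (List ℕ)) (t : List (List ℕ))
    (ht : ∀ l ∈ t, ∀ c ∈ l, c < 16) : evss ρ (allV acc t) = evss ρ acc := by
  induction t with
  | nil => rfl
  | cons l t ih =>
    rw [allV, evss_append, ih (fun m hm => ht m (by simp [hm])), sing_ev,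
      instV_ev H _ (splt_lt _ (ht l (by simp))), zero_add]

theorem allX_ev (H : Ok ρ G) (tgt : List ℕ) (c : List ℕ) : evss ρ (allX tgt c) = evs ρ tgt := by
  induction c with
  | nil => simp [allX, sing_ev]
  | cons c l ih =>
    rw [allX, allV_ev H _ _ (spl1_lt _ (digs_lt _ _)), ih]

theorem eq_of_two (h2 : ∀ r : R, r + r = 0) {a b : R} (h : a + b = 0) : a = b := by
  calc a = a + (b + b) := by rw [h2, add_zero]
    _ = b := by rw [← add_assoc, h, zero_add]

/-- SOUNDNESS for packed certificates -/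
theorem chx_sound (H : Ok ρ G) (t : List (List ℕ)) (c : List ℕ) (hc : chx t c = true) :
    evT ρ t = 0 := by
  unfold chx at hc
  rw [Bool.and_eq_true] at hc
  have h1 := isE_ev (ρ := ρ) _ hc.2
  rw [tree_ev H, allX_ev H, encR_ev H t hc.1] at h1
  exact h1

/-- SOUNDNESS for equations -/
theorem chx_eq (H : Ok ρ G) (t s : List (List ℕ)) (c : List ℕ) (hc : chx (addP t s) c = true) :
    evT ρ t = evT ρ s := by
  have h := chx_sound H _ c hc
  rw [ev_add] at h
  exact eq_of_two H.two h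

end

end E4.RC
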