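import Pool.Agent.Lib.MP_8a95e3_al.X02a
import Pool.Agent.Lib.MP_8a95e3_al.RC

/-!
# I00 : the quotient rings `FB / W` and the P-letters in them (helper63)
-/

noncomputable section

namespace E4.X

open E4

/-- `W` as a left ideal -/
def toI (W : AddSubgroup FB) (h : Bi W) : Ideal FB where
  carrier := W
  add_mem' := fun ha hb => W.add_mem ha hb
  zero_mem' := W.zero_mem
  smul_mem' := fun a _ hr => h.mul_left a hr

instance toI_two (W : AddSubgroup FB) (h : Bi W) : (toI W h).IsTwoSided :=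
  ⟨fun b ha => h.mul_right b ha⟩

/-- the quotient ring -/
abbrev QR (W : AddSubgroup FB) (h : Bi W) : Type := FB ⧸ toI W h

/-- the projection -/
def qm (W : AddSubgroup FB) (h : Bi W) : FB →+* QR W h := Ideal.Quotient.mk (toI W h)

theorem qm_zero {W : AddSubgroup FB} (h : Bi W) (f : FB) : qm W h f = 0 ↔ f ∈ W :=
  Ideal.Quotient.eq_zero_iff_mem

theorem qm_surj {W : AddSubgroup FB} (h : Bi W) : Function.Surjective (qm W h) :=
  Ideal.Quotient.mk_surjective

/-- the units of the quotient which come from the free group -/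
def qu (W : AddSubgroup FB) (h : Bi W) : F →* (QR W h)ˣ :=
  (Units.map ((qm W h : FB →+* QR W h) : FB →* QR W h)).comp (MonoidHom.toHomUnits o)

theorem qu_val {W : AddSubgroup FB} (h : Bi W) (g : F) :
    ((qu W h g : (QR W h)ˣ) : QR W h) = qm W h (o g) := rfl

theorem qu_inv {W : AddSubgroup FB} (h : Bi W) (g : F) :
    (((qu W h g)⁻¹ : (QR W h)ˣ) : QR W h) = qm W h (o g⁻¹) := by
  rw [← map_inv, qu_val]

/-- the group of these units -/
def qG (W : AddSubgroup FB) (h : Bi W) : Subgroup (QR W h)ˣ := (qu W h).range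

theorem qu_mem {W : AddSubgroup FB} (h : Bi W) (g : F) : qu W h g ∈ qG W h := ⟨g, rfl⟩

theorem q_two {W : AddSubgroup FB} (h : Bi W) (r : QR W h) : r + r = 0 := by
  obtain ⟨f, rfl⟩ := qm_surj h r
  rw [← map_add, fb_add_self, map_zero]

theorem q_cube {W : AddSubgroup FB} (h : Bi W) (hK : ∀ g : F, C g ^ 3 ∈ W) :
    ∀ u : (QR W h)ˣ, u ∈ qG W h → ((u : QR W h) + 1) ^ 3 = 0 := by
  rintro _ ⟨g, rfl⟩
  rw [qu_val, ← map_one (qm W h), ← map_add, ← map_pow, qm_zero]
  exact hK g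

theorem mul_o_mul {W : AddSubgroup FB} {a : FB} (hy : ∀ g : F, a * o g * a ∈ W) (f : FB) :
    a * f * a ∈ W := by
  induction f using fb_ind with
  | h1 g => exact hy g
  | h0 => simp
  | h2 u v hu hv =>
    rw [mul_add, add_mul]
    exact W.add_mem hu hv

/-- a P-letter of the quotient: `C g` such that `C g * r * C g = 0` -/
theorem q_PL {W : AddSubgroup FB} (h : Bi W) (g : F) (hg : ∀ v : F, C g * o v * C g ∈ W) :
    E4.RC.PL (qG W h) (qm W h (C g)) := by
  constructor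
  · intro r
    obtain ⟨f, rfl⟩ := qm_surj h r
    rw [← map_mul, ← map_mul, qm_zero]
    exact mul_o_mul hg f
  · refine ⟨qu W h g, qu_mem h g, ?_⟩
    rw [qu_val, ← map_one (qm W h), ← map_add]
    congr 1
    rw [C, add_comm (o g) 1, ← add_assoc, fb_add_self, zero_add]

/-- the ideal `P ⊔ I2 y ⊔ I2 z` -/
theorem N2_bi {P : AddSubgroup FB} (h : TI P) (y z : ℕ) : Bi (P ⊔ I2 y ⊔ I2 z) :=
  (h.bi.sup (I2_bi y)).sup (I2_bi z)

theorem I2_mem (y : ℕ) (v : F) : C (x y) * o v * C (x y) ∈ I2 y := sub_idl ⟨v, rfl⟩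

section
variable {P : AddSubgroup FB} (h : TI P) (y z : ℕ)
include h

theorem N2_cube (g : F) : C g ^ 3 ∈ P ⊔ I2 y ⊔ I2 z :=
  AddSubgroup.mem_sup_left (AddSubgroup.mem_sup_left (h.cube g))

theorem N2_PLy : E4.RC.PL (qG _ (N2_bi h y z)) (qm _ (N2_bi h y z) (Xl y)) :=
  q_PL _ _ fun v => AddSubgroup.mem_sup_left (AddSubgroup.mem_sup_right (I2_mem y v))

theorem N2_PLz : E4.RC.PL (qG _ (N2_bi h y z)) (qm _ (N2_bi h y z) (Xl z)) :=
  q_PL _ _ fun v => AddSubgroup.mem_sup_right (I2_mem z v)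

end

end E4.X
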