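import Pool.Agent.Lib.MP_8a95e3_al.I00
import Pool.Agent.Lib.MP_8a95e3_al.RK.E_esym
import Pool.Agent.Lib.MP_8a95e3_al.RK.E_ksym

/-!
# I01 : fields `esym`, `ksym` (helper63)
-/

noncomputable section

namespace E4.X

open E4

theorem f_esym {P : AddSubgroup FB} (h : TI P) : ∀ (y z : ℕ), y ≠ z → ∀ g : F,
    ee g y z + ee g z y ∈ P ⊔ I2 y ⊔ I2 z := by
  intro y z _ g
  have hb := N2_bi h y z
  have e := E4.RC.esym (q_two hb) (q_cube hb (N2_cube h y z)) (qu_mem hb g) (N2_PLy h y z) (N2_PLz h y z)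
  rw [← qm_zero hb]
  rw [qu_val, qu_inv] at e
  simp only [ee, T, C, map_add, map_mul, map_one, mul_assoc] at e ⊢
  rw [e, q_two]

theorem qm_tau {W : AddSubgroup FB} (hb : Bi W) (y z : ℕ) (g : F) :
    qm W hb (tau y z g) = E4.RC.tau (qm W hb (Xl y)) (qm W hb (Xl z)) (qu W hb g) := by
  simp only [E4.RC.tau, E4.RC.tau4]
  rw [qu_val, qu_inv]
  simp only [tau, map_add, map_mul, mul_assoc, add_assoc]

theorem f_ksym {P : AddSubgroup FB} (h : TI P) : ∀ (y z : ℕ), y ≠ z → ∀ g : F,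
    tau y z g + tau z y g ∈ NN P y z := by
  intro y z _ g
  have hb := N2_bi h y z
  have e := E4.RC.ksym (q_two hb) (q_cube hb (N2_cube h y z)) (qu_mem hb g) (N2_PLy h y z) (N2_PLz h y z)
  refine AddSubgroup.mem_sup_left ?_
  rw [← qm_zero hb, map_add, qm_tau, qm_tau, e, q_two]

end E4.X
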