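import Pool.Agent.Lib.MP_8a95e3_al.I01
import Pool.Agent.Lib.MP_8a95e3_al.RK.K_a1
import Pool.Agent.Lib.MP_8a95e3_al.RK.K_a2
import Pool.Agent.Lib.MP_8a95e3_al.RK.K_a3
import Pool.Agent.Lib.MP_8a95e3_al.RK.K_a4
import Pool.Agent.Lib.MP_8a95e3_al.RK.K_a5
import Pool.Agent.Lib.MP_8a95e3_al.RK.E_kcube
import Pool.Agent.Lib.MP_8a95e3_al.RK.E_e1a
import Pool.Agent.Lib.MP_8a95e3_al.RK.E_e1b
import Pool.Agent.Lib.MP_8a95e3_al.RK.E_e2
import Pool.Agent.Lib.MP_8a95e3_al.RK.E_e4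
import Pool.Agent.Lib.MP_8a95e3_al.RK.E_esq
import Pool.Agent.Lib.MP_8a95e3_al.RK.E_psi
import Pool.Agent.Lib.MP_8a95e3_al.RK.E_th2

/-!
# I02 : laws of `tau`, fields `e1a`, `e1b`, `e2`, `e4`, laws for `Θ` (helper63)
-/

noncomputable section

namespace E4.X

open E4

/-- a sum is in the ideal if the two images agree -/
theorem mem_of_eq {W : AddSubgroup FB} (hb : Bi W) {a b : FB} (e : qm W hb a = qm W hb b) : a + b ∈ W := by
  rw [← qm_zero hb, map_add, e, q_two]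

section
variable {P : AddSubgroup FB} (h : TI P) (y z : ℕ)
include h

theorem t_a1 (g : F) : tau y z g⁻¹ + tau y z g ∈ P ⊔ I2 y ⊔ I2 z := by
  have hb := N2_bi h y z
  refine mem_of_eq hb ?_
  rw [qm_tau, qm_tau, map_inv]
  exact E4.RC.K_a1 (q_two hb) (q_cube hb (N2_cube h y z)) (qu_mem hb g) (N2_PLy h y z) (N2_PLz h y z)

theorem t_a2 (g : F) : o g * tau y z g + tau y z g * o g ∈ P ⊔ I2 y ⊔ I2 z := by
  have hb := N2_bi h y z
  refine mem_of_eq hb ?_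
  rw [map_mul, map_mul, qm_tau]
  exact E4.RC.K_a2 (q_two hb) (q_cube hb (N2_cube h y z)) (qu_mem hb g) (N2_PLy h y z) (N2_PLz h y z)

theorem t_a3 (g k : F) : tau y z (g * k) + tau y z (g * k⁻¹) + o g * tau y z k + tau y z k * o g⁻¹ ∈
    P ⊔ I2 y ⊔ I2 z := by
  have hb := N2_bi h y z
  rw [add_assoc]
  refine mem_of_eq hb ?_
  have e := E4.RC.K_a3 (q_two hb) (q_cube hb (N2_cube h y z)) (qu_mem hb g) (qu_mem hb k)
    (N2_PLy h y z) (N2_PLz h y z)
  rw [map_add, map_add, map_mul, map_mul, qm_tau, qm_tau, qm_tau, map_mul, map_mul, map_inv, e]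
  rw [qu_inv, qu_val]

theorem t_a4 (g k : F) : T g * tau y z k + tau y z g * T k ∈ P ⊔ I2 y ⊔ I2 z := by
  have hb := N2_bi h y z
  refine mem_of_eq hb ?_
  have e := E4.RC.K_a4 (q_two hb) (q_cube hb (N2_cube h y z)) (qu_mem hb g) (qu_mem hb k)
    (N2_PLy h y z) (N2_PLz h y z)
  rw [map_mul, map_mul, qm_tau, qm_tau, T, T, map_add, map_add]
  rw [qu_inv, qu_val, qu_inv, qu_val] at e
  exact e

omit h in
/-- the image of `sigma` -/
theorem qm_sig {W : AddSubgroup FB} (hb : Bi W) (g : F) :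
    qm W hb (Xl y * Xl z * o g + o g⁻¹ * Xl y * o g * Xl z) =
      E4.RC.sig (qm W hb (Xl y)) (qm W hb (Xl z)) (qu W hb g) := by
  simp only [E4.RC.sig, E4.RC.sig4]
  rw [qu_val, qu_inv]
  simp only [map_add, map_mul, mul_assoc]

theorem t_a5 (g k : F) : tau y z (g * k) + o k * tau y z g + tau y z k * o g⁻¹ +
    (o k * (Xl y * Xl z * o g + o g⁻¹ * Xl y * o g * Xl z) +
      (Xl y * Xl z * o g + o g⁻¹ * Xl y * o g * Xl z) * o k) ∈ P ⊔ I2 y ⊔ I2 z := by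
  have hb := N2_bi h y z
  refine mem_of_eq hb ?_
  have e := E4.RC.K_a5 (q_two hb) (q_cube hb (N2_cube h y z)) (qu_mem hb k) (qu_mem hb g)
    (N2_PLy h y z) (N2_PLz h y z)
  rw [qu_inv, qu_val, ← add_assoc] at e
  rw [map_add, map_add, map_add, map_mul, map_mul, map_mul, map_mul, qm_tau, qm_tau, qm_tau, map_mul,
    qm_sig, e]

theorem t_cube (g : F) : C g * o g * tau y z g + ee g y z ∈ P ⊔ I2 y ⊔ I2 z := by
  have hb := N2_bi h y z
  refine mem_of_eq hb ?_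
  have e := E4.RC.kcube (q_two hb) (q_cube hb (N2_cube h y z)) (qu_mem hb g) (N2_PLy h y z) (N2_PLz h y z)
  have e2 := E4.RC.K_a2 (q_two hb) (q_cube hb (N2_cube h y z)) (qu_mem hb g) (N2_PLy h y z) (N2_PLz h y z)
  rw [qu_val, qu_inv] at e
  rw [qu_val] at e2
  have e3 : qm _ hb (C g * o g * tau y z g) = qm _ hb (o g) * (E4.RC.tau (qm _ hb (Xl y)) (qm _ hb (Xl z))
      (qu _ hb g) * (qm _ hb (o g) + 1)) := by
    rw [map_mul, map_mul, qm_tau, C, map_add, map_one, mul_add, mul_one, ← e2, add_mul, one_mul, mul_add,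
      add_mul, mul_assoc]
  rw [e3, e]
  simp only [ee, T, C, map_add, map_mul, map_one, mul_assoc]

theorem f_e1a' (c g : F) : C (c ^ 2) * ee g y z ∈ P ⊔ I2 y ⊔ I2 z := by
  have hb := N2_bi h y z
  have e := E4.RC.e1a (q_two hb) (q_cube hb (N2_cube h y z)) (qu_mem hb g) (qu_mem hb c)
    (N2_PLy h y z) (N2_PLz h y z)
  rw [← qm_zero hb]
  rw [qu_val, qu_inv, qu_val] at e
  rw [← e]
  simp only [ee, T, C, map_add, map_mul, map_one, mul_assoc, pow_two]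

theorem f_e1b' (c g : F) : ee g y z * C (c ^ 2) ∈ P ⊔ I2 y ⊔ I2 z := by
  have hb := N2_bi h y z
  have e := E4.RC.e1b (q_two hb) (q_cube hb (N2_cube h y z)) (qu_mem hb g) (qu_mem hb c)
    (N2_PLy h y z) (N2_PLz h y z)
  rw [← qm_zero hb]
  rw [qu_val, qu_inv, qu_val] at e
  rw [← e]
  simp only [ee, T, C, map_add, map_mul, map_one, mul_assoc, pow_two]

theorem f_e2' (g k : F) : o g * ee k y z + ee k y z * o g ∈ P ⊔ I2 y ⊔ I2 z := by
  have hb := N2_bi h y z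
  refine mem_of_eq hb ?_
  have e := E4.RC.e2 (q_two hb) (q_cube hb (N2_cube h y z)) (qu_mem hb g) (qu_mem hb k)
    (N2_PLy h y z) (N2_PLz h y z)
  rw [qu_val, qu_inv, qu_val] at e
  simp only [ee, T, C, map_add, map_mul, map_one, mul_assoc] at e ⊢
  exact e

theorem f_esq (g : F) : ee (g ^ 2) y z ∈ P ⊔ I2 y ⊔ I2 z := by
  have hb := N2_bi h y z
  have e := E4.RC.esq (q_two hb) (q_cube hb (N2_cube h y z)) (qu_mem hb g) (N2_PLy h y z) (N2_PLz h y z)
  rw [← qm_zero hb]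
  rw [qu_val, qu_inv] at e
  rw [← e]
  simp only [ee, T, C, map_add, map_mul, map_one, mul_assoc, pow_two, mul_inv_rev]

end

end E4.X
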