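import Pool.Agent.Lib.MP_8a95e3_al.XD

/-!
# XC : the generators `t_2, c_3, c_4` and the T-ideal `PG`

Compact form of `c_4` (helper69): exactly symmetric in its four letters.
-/

noncomputable section

namespace E4.X

open E4

/-- `t_2(a, b)` -/
def t2 (a b : F) : FB := T a * C b * C a * T b

/-- `κ(a, h)`, value `k(T_a, T_h) 1` -/
def kap (a h : F) : FB := C a * C h * C a + C a * T h * T a + T a * C h⁻¹ + C h⁻¹ * T a + C h * T a * T h

/-- `ν(T_a, h; g)`, value `k(T_a, T_h) G` -/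
def nuT (a h g : F) : FB :=
  o h * T a * C g⁻¹ * T h + C h * C g⁻¹ * (o h * T a + T a * o h⁻¹) + T g * T a * o h * C g + o h⁻¹ * C g * T a * T g

/-- `c_3(a, g, h)` -/
def c3 (a g h : F) : FB := C g * kap a h + nuT a h g

/-- `u_2(g, h)`, value `θ_g H + θ_h G` -/
def u2 (g h : F) : FB := C g * C h⁻¹ * T g + C h * C g⁻¹ * T h

/-- `T^(g; h, y)`, value `μ(h, y) G` -/
def tt (g h y : F) : FB := u2 (h * y) g + u2 h g + u2 y g + u2 h g * C y + C g * C h * C y⁻¹ * T h

/-- `c_4(g, w, h, y)` -/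
def c4 (g w h y : F) : FB := tt (g * w) h y + tt g h y + tt w h y + tt g h y * C w

/-- the three generators -/
def RG : Set FB := {t2 (x 0) (x 1), c3 (x 0) (x 1) (x 2), c4 (x 0) (x 1) (x 2) (x 3)}

/-- the T-ideal generated by the cubes and `R` -/
def PG (R : Set FB) : AddSubgroup FB :=
  idl ({r | ∃ h : F, r = C h ^ 3} ∪ {r | ∃ φ : F →* F, ∃ s ∈ R, r = eB φ s})

end E4.X
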