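import Pool.Agent.Lib.MP_8a95e3_al.I02
import Pool.Agent.Lib.MP_8a95e3_al.XC
import Pool.Agent.Lib.MP_8a95e3_al.RK.E_t2l
import Pool.Agent.Lib.MP_8a95e3_al.RK.E_t2r
import Pool.Agent.Lib.MP_8a95e3_al.RK.E_t2a
import Pool.Agent.Lib.MP_8a95e3_al.RK.E_t2b
import Pool.Agent.Lib.MP_8a95e3_al.RK.E_C3

/-!
# I03 : fields `e1a`, `e1b`, `e2`, `e4`; small identities for `Θ`; `GenF.t2*` (helper63)
-/

noncomputable section

namespace E4.X

open E4

theorem f_e1a {P : AddSubgroup FB} (h : TI P) : ∀ (y z : ℕ), y ≠ z → ∀ c g : F,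
    C (c ^ 2) * ee g y z ∈ P ⊔ I2 y ⊔ I2 z := fun y z _ c g => f_e1a' h y z c g

theorem f_e1b {P : AddSubgroup FB} (h : TI P) : ∀ (y z : ℕ), y ≠ z → ∀ c g : F,
    ee g y z * C (c ^ 2) ∈ P ⊔ I2 y ⊔ I2 z := fun y z _ c g => f_e1b' h y z c g

theorem f_e2 {P : AddSubgroup FB} (h : TI P) : ∀ (y z : ℕ), y ≠ z → ∀ g k : F,
    o g * ee k y z + ee k y z * o g ∈ P ⊔ I2 y ⊔ I2 z := fun y z _ g k => f_e2' h y z g k

/-- `e1c` follows from `e3` -/
theorem f_e1c {P : AddSubgroup FB} (h : TI P)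
    (e3 : ∀ (y z : ℕ), y ≠ z → ∀ g k : F,
      ee (g * k) y z + ee g y z + ee k y z + C k * ee g y z ∈ P ⊔ I2 y ⊔ I2 z) :
    ∀ (y z : ℕ), y ≠ z → ∀ c g : F, ee (g * c ^ 2) y z + ee g y z ∈ P ⊔ I2 y ⊔ I2 z := by
  intro y z hyz c g
  have a := e3 y z hyz g (c ^ 2)
  have b := f_esq h y z c
  have d := f_e1a h y z hyz c g
  have e : ee (g * c ^ 2) y z + ee g y z = (ee (g * c ^ 2) y z + ee g y z + ee (c ^ 2) y z +
      C (c ^ 2) * ee g y z) - (ee (c ^ 2) y z + C (c ^ 2) * ee g y z) := by abel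
  rw [e]
  exact sub_mem a (add_mem b d)

theorem P1_bi {P : AddSubgroup FB} (h : TI P) (z : ℕ) : Bi (P ⊔ I2 z) := h.bi.sup (I2_bi z)

theorem f_e4 {P : AddSubgroup FB} (h : TI P) : ∀ (y z : ℕ), y ≠ z → ∀ g : F,
    eB (sqs {y}) (ee g y z) ∈ P ⊔ I2 z := by
  intro y z hyz g
  have hb := P1_bi h z
  have hc : ∀ g : F, C g ^ 3 ∈ P ⊔ I2 z := fun g => AddSubgroup.mem_sup_left (h.cube g)
  have hp : E4.RC.PL (qG _ hb) (qm _ hb (Xl z)) :=
    q_PL hb _ fun v => AddSubgroup.mem_sup_right (I2_mem z v)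
  have e := E4.RC.e4 (q_two hb) (q_cube hb hc) (qu_mem hb (sqs {y} g)) (qu_mem hb (x y)) hp
  rw [← qm_zero hb]
  rw [qu_val, qu_inv, qu_val] at e
  rw [← e]
  have hy : eB (sqs {y}) (Xl y) = o (x y) * o (x y) + 1 := by
    rw [Xl, eB_C, sqs_x, if_pos (Finset.mem_singleton_self y), C, pow_two, map_mul]
  have hz : eB (sqs {y}) (Xl z) = Xl z := by
    rw [Xl, eB_C, sqs_x, if_neg (by rw [Finset.mem_singleton]; exact hyz.symm)]
  simp only [ee, map_add, map_mul, eB_T, eB_C, hy, hz]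
  simp only [T, C, map_add, map_one, mul_assoc]

/-- `T g = C g ^ 2` modulo the cubes -/
theorem T_sq {P : AddSubgroup FB} (h : TI P) (g : F) : C g ^ 2 + T g ∈ P := by
  have hb := h.bi
  rw [← qm_zero hb]
  have e := E4.RC.cub_of (q_two hb) (q_cube hb h.cube _ (qu_mem hb g))
  rw [qu_inv, qu_val] at e
  rw [← e, T, C]
  simp only [map_add, map_mul, map_one, pow_two, mul_add, add_mul, mul_one, one_mul]
  have h2 := q_two hb (qm P hb (o g))
  calc _ = qm P hb (o g) * qm P hb (o g) + 1 + (qm P hb (o g) + qm P hb (o g)) +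
      (qm P hb (o g) + qm P hb (o g⁻¹)) := by abel
    _ = _ := by rw [h2]; abel

theorem th1_of {P : AddSubgroup FB} (h : TI P) (a g : F) :
    C a * C a ^ 2 * o g + o g⁻¹ * C a ^ 2 * C a + o g⁻¹ * C a * o g * C a ^ 2
      + C a ^ 2 * o g⁻¹ * C a * o g + C a * T g * C a ^ 2 ∈ P := by
  have hb := h.bi
  rw [← C_sq]
  refine mem_of_eq hb ?_
  have e := E4.RC.psi (q_two hb) (q_cube hb h.cube) (qu_mem hb g) (qu_mem hb a)
  rw [qu_inv, qu_val, qu_val] at e
  simp only [T, C, map_add, map_mul, map_one, mul_assoc, pow_two, add_assoc] at e ⊢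
  exact e

theorem th2_of {P : AddSubgroup FB} (h : TI P) (ht : ∀ a b : F, t2 a b ∈ P) (a g : F) :
    T g * C a * C a ^ 2 * C g + T g * C a ^ 2 * C g * C a ∈ P := by
  have hb := h.bi
  refine add_mem ?_ ?_
  · have e : T g * C a * C a ^ 2 * C g = T g * C a ^ 3 * C g := by
      rw [pow_succ' (C a) 2]
      simp only [mul_assoc]
    rw [e]
    exact h.right _ _ (h.left _ _ (h.cube a))
  · have e := E4.RC.th2 (q_two hb) (q_cube hb h.cube) (qu_mem hb g) (qu_mem hb a)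
    have e2 : qm P hb (C a ^ 2) = qm P hb (T a) := by
      have := T_sq h a
      rw [← qm_zero hb, map_add] at this
      exact E4.RC.eq_of_two (q_two hb) this
    have e3 : qm P hb (t2 g a) = 0 := (qm_zero hb _).2 (ht g a)
    rw [← qm_zero hb, map_mul, map_mul, map_mul, e2, ← map_mul, ← map_mul, ← map_mul]
    rw [qu_inv, qu_inv, qu_val, qu_val] at e
    rw [← e3, t2]
    simp only [T, C, map_add, map_mul, map_one, mul_assoc] at e ⊢
    exact e

/-- `C (c ^ 2)` and `T c` agree modulo `P` -/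
theorem qm_sq {P : AddSubgroup FB} (h : TI P) (c : F) :
    qm P h.bi (C (c ^ 2)) = qm P h.bi (T c) := by
  have := T_sq h c
  rw [← C_sq, ← qm_zero h.bi, map_add] at this
  exact E4.RC.eq_of_two (q_two h.bi) this

/-- squares are P-letters modulo any T-ideal -/
theorem sq_PL {P : AddSubgroup FB} (h : TI P) (c : F) :
    E4.RC.PL (qG P h.bi) (qm P h.bi (C (c ^ 2))) := by
  refine q_PL h.bi _ fun v => ?_
  rw [← qm_zero h.bi, map_mul, map_mul, qm_sq h]
  have e := E4.RC.C3 (q_two h.bi) (q_cube h.bi h.cube) (qu_mem h.bi c) (qu_mem h.bi v)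
  rw [qu_inv, qu_val, qu_val] at e
  rw [T, map_add, mul_assoc]
  exact e

theorem gf_t2l {P : AddSubgroup FB} (h : TI P) (a b c : F) : C (c ^ 2) * t2 a b ∈ P := by
  have e := E4.RC.t2l (q_two h.bi) (q_cube h.bi h.cube) (qu_mem h.bi a) (qu_mem h.bi b) (sq_PL h c)
  rw [qu_inv, qu_inv, qu_val, qu_val] at e
  rw [← qm_zero h.bi, ← e, t2, map_mul]
  simp only [T, C, map_add, map_mul, map_one, mul_assoc]

theorem gf_t2r {P : AddSubgroup FB} (h : TI P) (a b c : F) : t2 a b * C (c ^ 2) ∈ P := by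
  have e := E4.RC.t2r (q_two h.bi) (q_cube h.bi h.cube) (qu_mem h.bi a) (qu_mem h.bi b) (sq_PL h c)
  rw [qu_inv, qu_inv, qu_val, qu_val] at e
  rw [← qm_zero h.bi, ← e, t2, map_mul]
  simp only [T, C, map_add, map_mul, map_one, mul_assoc]

/-- `o (a c²) = a + a p` -/
theorem qm_ac {P : AddSubgroup FB} (h : TI P) (a c : F) :
    qm P h.bi (o (a * c ^ 2)) = qm P h.bi (o a) + qm P h.bi (o a) * qm P h.bi (C (c ^ 2)) := by
  have e : o (a * c ^ 2) = o a + o a * C (c ^ 2) := by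
    rw [map_mul, C, mul_add, mul_one, add_left_comm, fb_add_self, add_zero]
  rw [e, map_add, map_mul]

/-- `o (a c²)⁻¹ = a' + p a'` modulo `P` -/
theorem qm_ac' {P : AddSubgroup FB} (h : TI P) (a c : F) :
    qm P h.bi (o (a * c ^ 2)⁻¹) = qm P h.bi (o a⁻¹) + qm P h.bi (C (c ^ 2)) * qm P h.bi (o a⁻¹) := by
  have hp := sq_PL h c
  have e1 : qm P h.bi (o (c ^ 2)⁻¹) = 1 + qm P h.bi (C (c ^ 2)) := by
    have e2 : (1 + qm P h.bi (C (c ^ 2))) * (1 + qm P h.bi (C (c ^ 2))) = 1 := by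
      have hs := hp.sq 1
      rw [mul_one] at hs
      rw [add_mul, one_mul, mul_add, mul_one, hs, add_zero, add_assoc, q_two, add_zero]
    have e3 : qm P h.bi (o (c ^ 2)) = 1 + qm P h.bi (C (c ^ 2)) := by
      rw [C, map_add, map_one, add_left_comm, q_two, add_zero]
    have e4 : qm P h.bi (o (c ^ 2)⁻¹) * qm P h.bi (o (c ^ 2)) = 1 := by
      rw [← map_mul, ← map_mul, inv_mul_cancel, map_one, map_one]
    calc qm P h.bi (o (c ^ 2)⁻¹) = qm P h.bi (o (c ^ 2)⁻¹) * ((1 + qm P h.bi (C (c ^ 2))) * (1 + qm P h.bi (C (c ^ 2)))) := by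
          rw [e2, mul_one]
      _ = _ := by rw [← mul_assoc, ← e3, e4, one_mul]
  rw [mul_inv_rev, map_mul, map_mul, e1, add_mul, one_mul]

/-- expansion of the first argument of `t_2` -/
theorem t2a_exp {R : Type*} [Ring R] (h2 : ∀ r : R, r + r = 0) {p : R} (hs : ∀ r : R, p * r * p = 0) (A A' B B' : R) :
    (A + A * p + (A' + p * A')) * (B + 1) * (A + A * p + 1) * (B + B') + (A + A') * (B + 1) * (A + 1) * (B + B') =
      (A * p + p * A') * ((B + 1) * ((A + 1) * (B + B'))) + (A + A') * ((B + 1) * (A * (p * (B + B')))) := by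
  have e1 : p * ((B + 1) * A) * p = 0 := hs _
  have e2 : p * (A' * (B + 1) * A) * p = 0 := hs _
  have e3 := h2 ((A + A') * (B + 1) * (A + 1) * (B + B'))
  have e : (A + A * p + (A' + p * A')) * (B + 1) * (A + A * p + 1) * (B + B') + (A + A') * (B + 1) * (A + 1) * (B + B') =
      ((A + A') * (B + 1) * (A + 1) * (B + B') + (A + A') * (B + 1) * (A + 1) * (B + B')) +
      ((A * p + p * A') * ((B + 1) * ((A + 1) * (B + B'))) + (A + A') * ((B + 1) * (A * (p * (B + B'))))) +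
      A * (p * ((B + 1) * A) * p) * (B + B') + (p * (A' * (B + 1) * A) * p) * (B + B') := by
    noncomm_ring
  rw [e, e1, e2, e3]
  simp

/-- expansion of the second argument of `t_2` -/
theorem t2b_exp {R : Type*} [Ring R] (h2 : ∀ r : R, r + r = 0) {p : R} (hs : ∀ r : R, p * r * p = 0) (A A' B B' : R) :
    (A + A') * (B + B * p + 1) * (A + 1) * (B + B * p + (B' + p * B')) + (A + A') * (B + 1) * (A + 1) * (B + B') =
      (A + A') * (B * (p * ((A + 1) * (B + B')))) + (A + A') * ((B + 1) * ((A + 1) * (B * p + p * B'))) := by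
  have e1 : p * ((A + 1) * B) * p = 0 := hs _
  have e2 : p * (A + 1) * p = 0 := hs _
  have e3 := h2 ((A + A') * (B + 1) * (A + 1) * (B + B'))
  have e : (A + A') * (B + B * p + 1) * (A + 1) * (B + B * p + (B' + p * B')) + (A + A') * (B + 1) * (A + 1) * (B + B') =
      ((A + A') * (B + 1) * (A + 1) * (B + B') + (A + A') * (B + 1) * (A + 1) * (B + B')) +
      ((A + A') * (B * (p * ((A + 1) * (B + B')))) + (A + A') * ((B + 1) * ((A + 1) * (B * p + p * B')))) +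
      (A + A') * B * (p * ((A + 1) * B) * p) + (A + A') * B * (p * (A + 1) * p) * B' := by
    noncomm_ring
  rw [e, e1, e2, e3]
  simp

theorem qm_T {W : AddSubgroup FB} (hb : Bi W) (g : F) : qm W hb (T g) = qm W hb (o g) + qm W hb (o g⁻¹) := by
  rw [T, map_add]

theorem qm_C {W : AddSubgroup FB} (hb : Bi W) (g : F) : qm W hb (C g) = qm W hb (o g) + 1 := by
  rw [C, map_add, map_one]

theorem gf_t2a {P : AddSubgroup FB} (h : TI P) (a b c : F) : t2 (a * c ^ 2) b + t2 a b ∈ P := by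
  have hp := sq_PL h c
  have e := E4.RC.t2a (q_two h.bi) (q_cube h.bi h.cube) (qu_mem h.bi a) (qu_mem h.bi b) hp
  rw [qu_inv, qu_inv, qu_val, qu_val, ← t2a_exp (q_two h.bi) hp.sq] at e
  have m : ∀ u v : FB, qm P h.bi (u * v) = qm P h.bi u * qm P h.bi v := map_mul _
  rw [← qm_zero h.bi, ← e, t2, t2, map_add]
  simp only [m]
  rw [qm_T, qm_T, qm_T, qm_C h.bi (a * c ^ 2), qm_C h.bi a, qm_C h.bi b, qm_ac h, qm_ac' h]

theorem gf_t2b {P : AddSubgroup FB} (h : TI P) (a b c : F) : t2 a (b * c ^ 2) + t2 a b ∈ P := by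
  have hp := sq_PL h c
  have e := E4.RC.t2b (q_two h.bi) (q_cube h.bi h.cube) (qu_mem h.bi a) (qu_mem h.bi b) hp
  rw [qu_inv, qu_inv, qu_val, qu_val, ← t2b_exp (q_two h.bi) hp.sq] at e
  have m : ∀ u v : FB, qm P h.bi (u * v) = qm P h.bi u * qm P h.bi v := map_mul _
  rw [← qm_zero h.bi, ← e, t2, t2, map_add]
  simp only [m]
  rw [qm_T, qm_T, qm_T, qm_C h.bi (b * c ^ 2), qm_C h.bi a, qm_C h.bi b, qm_ac h, qm_ac' h]

end E4.X
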