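import Pool.Agent.Lib.MP_8a95e3_al.I03
import Pool.Agent.Lib.MP_8a95e3_al.RK.E_fe

/-!
# I05 : fields `e3`, `s2a`, `s2b` (helper63)
-/

noncomputable section

namespace E4.X

open E4

section
variable {R : Type*} [Ring R]

theorem I05_c (h2 : ∀ r : R, r + r = 0) (p : R) : 1 + p + 1 = p := by
  rw [add_comm 1 p, add_assoc, h2, add_zero]

theorem I05_u (h2 : ∀ r : R, r + r = 0) (a b : R) : a + b + a = b := by
  rw [add_comm a b, add_assoc, h2, add_zero]

/-- value of `tt g (1+p) (1+q)` -/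
theorem tt_val (h2 : ∀ r : R, r + r = 0) {p q : R} (hp : ∀ r : R, p * r * p = 0) (hq : ∀ r : R, q * r * q = 0)
    (A A' : R) :
    ((1 + p) * (1 + q) + 1) * (A' + 1) * ((1 + p) * (1 + q) + (1 + q) * (1 + p)) +
        (A + 1) * ((1 + q) * (1 + p) + 1) * (A + A') +
      ((1 + p + 1) * (A' + 1) * ((1 + p) + (1 + p)) + (A + 1) * ((1 + p) + 1) * (A + A')) +
      ((1 + q + 1) * (A' + 1) * ((1 + q) + (1 + q)) + (A + 1) * ((1 + q) + 1) * (A + A')) +
      ((1 + p + 1) * (A' + 1) * ((1 + p) + (1 + p)) + (A + 1) * ((1 + p) + 1) * (A + A')) * ((1 + q) + 1) +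
      (A + 1) * (1 + p + 1) * ((1 + q) + 1) * ((1 + p) + (1 + p)) =
    (A + 1) * (q * (p * (A + A')) + p * ((A + A') * q)) := by
  have e1 : (1 + p) * (1 + q) + 1 = p + q + p * q := by
    calc (1 + p) * (1 + q) + 1 = (1 + 1) + (p + q + p * q) := by noncomm_ring
      _ = _ := by rw [h2, zero_add]
  have e2 : (1 + q) * (1 + p) + 1 = p + q + q * p := by
    calc (1 + q) * (1 + p) + 1 = (1 + 1) + (p + q + q * p) := by noncomm_ring
      _ = _ := by rw [h2, zero_add]
  have e3 : (1 + p) * (1 + q) + (1 + q) * (1 + p) = p * q + q * p := by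
    calc (1 + p) * (1 + q) + (1 + q) * (1 + p) = (1 + 1) + (p + p) + (q + q) + (p * q + q * p) := by noncomm_ring
      _ = _ := by rw [h2 1, h2 p, h2 q]; simp
  rw [e1, e2, e3, h2 (1 + p), h2 (1 + q), I05_c h2 p, I05_c h2 q]
  have f1 : (p + q + p * q) * (A' + 1) * (p * q + q * p) = 0 := by
    have g1 := hp (A' + 1)
    have g2 := hp ((A' + 1) * q)
    have g3 := hq ((A' + 1) * p)
    have g4 := hq (A' + 1)
    have g5 := hp (q * (A' + 1))
    calc (p + q + p * q) * (A' + 1) * (p * q + q * p) =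
        (p * (A' + 1) * p) * q + p * ((A' + 1) * q) * p + q * ((A' + 1) * p) * q + (q * (A' + 1) * q) * p +
          (p * (q * (A' + 1)) * p) * q + p * (q * (A' + 1) * q) * p := by noncomm_ring
      _ = 0 := by rw [g1, g2, g3, g4, g5]; simp
  rw [f1]
  simp only [mul_zero, zero_add, add_zero]
  calc (A + 1) * (p + q + q * p) * (A + A') + (A + 1) * p * (A + A') + (A + 1) * q * (A + A') +
        (A + 1) * p * (A + A') * q =
      ((A + 1) * p * (A + A') + (A + 1) * p * (A + A')) + ((A + 1) * q * (A + A') + (A + 1) * q * (A + A')) +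
        (A + 1) * (q * (p * (A + A')) + p * ((A + A') * q)) := by noncomm_ring
    _ = _ := by rw [h2, h2]; simp

end

/-- the letter `x y` modulo `I2 y` -/
theorem qm_let {W : AddSubgroup FB} (hb : Bi W) (g : F) : qm W hb (o g) = 1 + qm W hb (C g) := by
  rw [C, map_add, map_one, add_left_comm, q_two, add_zero]

theorem qm_let' {W : AddSubgroup FB} (hb : Bi W) (g : F) (hp : ∀ r, qm W hb (C g) * r * qm W hb (C g) = 0) :
    qm W hb (o g⁻¹) = 1 + qm W hb (C g) := by
  have hs := hp 1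
  rw [mul_one] at hs
  have e2 : (1 + qm W hb (C g)) * (1 + qm W hb (C g)) = 1 := by
    rw [add_mul, one_mul, mul_add, mul_one, hs, add_zero, add_assoc, q_two, add_zero]
  have e4 : qm W hb (o g⁻¹) * qm W hb (o g) = 1 := by
    rw [← map_mul, ← map_mul, inv_mul_cancel, map_one, map_one]
  calc qm W hb (o g⁻¹) = qm W hb (o g⁻¹) * ((1 + qm W hb (C g)) * (1 + qm W hb (C g))) := by rw [e2, mul_one]
    _ = _ := by rw [← mul_assoc, ← qm_let, e4, one_mul]

/-- the bilinear part of `T^` is `e` -/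
theorem qm_tt {P : AddSubgroup FB} (h : TI P) (y z : ℕ) (g : F) :
    qm _ (N2_bi h y z) (tt g (x y) (x z)) = qm _ (N2_bi h y z) (ee g y z) := by
  have hb := N2_bi h y z
  have hp := N2_PLy h y z
  have hq := N2_PLz h y z
  have hps : ∀ r, qm _ hb (C (x y)) * r * qm _ hb (C (x y)) = 0 := hp.sq
  have hqs : ∀ r, qm _ hb (C (x z)) * r * qm _ hb (C (x z)) = 0 := hq.sq
  have e := E4.RC.fe (q_two hb) (q_cube hb (N2_cube h y z)) (qu_mem hb g) hp hq
  rw [qu_inv, qu_val, ← tt_val (q_two hb) hp.sq hq.sq] at e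
  have hr : qm _ hb (ee g y z) = (qm _ hb (o g) + qm _ hb (o g⁻¹)) * (qm _ hb (Xl y) * (qm _ hb (Xl z) *
      (qm _ hb (o g) + 1))) + (qm _ hb (o g) + qm _ hb (o g⁻¹)) * (qm _ hb (Xl z) * ((qm _ hb (o g) + 1) *
      qm _ hb (Xl y))) := by
    simp only [ee, T, C, map_add, map_mul, map_one, mul_assoc]
  rw [hr, ← e]
  have l1 := qm_let hb (x y)
  have l2 := qm_let' hb (x y) hps
  have l3 := qm_let hb (x z)
  have l4 := qm_let' hb (x z) hqs
  have m : ∀ u v : FB, qm _ hb (u * v) = qm _ hb u * qm _ hb v := map_mul _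
  have mo : ∀ u v : F, o (u * v) = o u * o v := map_mul o
  simp only [tt, u2, map_add, m, qm_T, qm_C, mul_inv_rev, mo]
  rw [l1, l2, l3, l4]
  rfl

/-- **field `e3`** -/
theorem f_e3 {P : AddSubgroup FB} (h : TI P) (hc4 : ∀ g w a b : F, c4 g w a b ∈ P) :
    ∀ (y z : ℕ), y ≠ z → ∀ g k : F,
      ee (g * k) y z + ee g y z + ee k y z + C k * ee g y z ∈ P ⊔ I2 y ⊔ I2 z := by
  intro y z _ g k
  have hb := N2_bi h y z
  have e1 : qm _ hb (c4 g k (x y) (x z)) = 0 :=
    (qm_zero hb _).2 (AddSubgroup.mem_sup_left (AddSubgroup.mem_sup_left (hc4 _ _ _ _)))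
  have e2 : qm _ hb (C k * ee g y z) = qm _ hb (ee g y z * C k) := by
    have := f_e2' h y z k g
    rw [← qm_zero hb, map_add] at this
    have e3 := E4.RC.eq_of_two (q_two hb) this
    rw [C, add_mul, mul_add, one_mul, mul_one, map_add, map_add, e3]
  rw [← qm_zero hb, map_add, e2, ← map_add, ← e1, c4]
  simp only [map_add, map_mul, qm_tt h]

theorem T_W2 {P : AddSubgroup FB} (h : TI P) (j : ℕ) : T (x j) ∈ W2 P j := by
  have e : T (x j) = Xl j ^ 2 + (C (x j) ^ 2 + T (x j)) := by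
    rw [Xl, ← add_assoc, fb_add_self, zero_add]
  rw [e]
  refine add_mem ?_ ?_
  · exact AddSubgroup.mem_sup_left (AddSubgroup.mem_sup_left (sub_idl (Set.mem_singleton _)))
  · exact AddSubgroup.mem_sup_right (T_sq h (x j))

theorem sq_W2 {P : AddSubgroup FB} (j : ℕ) : Xl j * Xl j ∈ W2 P j := by
  rw [← pow_two]
  exact AddSubgroup.mem_sup_left (AddSubgroup.mem_sup_left (sub_idl (Set.mem_singleton _)))

/-- `X_j v X_j` is `kap (x j) v` modulo `T (x j)` -/
theorem kap_W2 {P : AddSubgroup FB} (h : TI P) (j : ℕ) (v : F) :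
    Xl j * o v * Xl j + kap (x j) v ∈ W2 P j := by
  have hb := W2_bi h j
  have ht := T_W2 h j
  have e : Xl j * o v * Xl j + kap (x j) v = (Xl j * Xl j) + (C (x j) * T v * T (x j) + T (x j) * C v⁻¹ +
      C v⁻¹ * T (x j) + C v * T (x j) * T v) := by
    have h2 := fb_add_self (Xl j * o v * Xl j)
    rw [kap]
    simp only [Xl, C] at h2 ⊢
    calc _ = ((o (x j) + 1) * o v * (o (x j) + 1) + (o (x j) + 1) * o v * (o (x j) + 1)) +
        (o (x j) + 1) * (o (x j) + 1) + ((o (x j) + 1) * T v * T (x j) + T (x j) * (o v⁻¹ + 1) +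
      (o v⁻¹ + 1) * T (x j) + (o v + 1) * T (x j) * T v) := by noncomm_ring
      _ = _ := by rw [h2, zero_add]
  rw [e]
  refine add_mem (sq_W2 j) (add_mem (add_mem (add_mem ?_ ?_) ?_) ?_)
  · exact hb.mul_left _ ht
  · exact hb.mul_right _ ht
  · exact hb.mul_left _ ht
  · exact hb.mul_right _ (hb.mul_left _ ht)

theorem Cg_kap_W2 {P : AddSubgroup FB} (h : TI P) (hc3 : ∀ a g b : F, c3 a g b ∈ P) (j : ℕ) (g v : F) :
    C g * kap (x j) v ∈ W2 P j := by
  have hb := W2_bi h j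
  have ht := T_W2 h j
  have e : C g * kap (x j) v = c3 (x j) g v - nuT (x j) v g := by
    rw [c3]; abel
  rw [e]
  refine sub_mem (AddSubgroup.mem_sup_right (hc3 _ _ _)) ?_
  rw [nuT]
  refine add_mem (add_mem (add_mem ?_ ?_) ?_) ?_
  · exact hb.mul_right _ (hb.mul_right _ (hb.mul_left _ ht))
  · exact hb.mul_left _ (add_mem (hb.mul_left _ ht) (hb.mul_right _ ht))
  · exact hb.mul_right _ (hb.mul_right _ (hb.mul_left _ ht))
  · exact hb.mul_right _ (hb.mul_left _ ht)

/-- **field `s2a`** -/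
theorem f_s2a {P : AddSubgroup FB} (h : TI P) (hc3 : ∀ a g b : F, c3 a g b ∈ P) :
    ∀ (j : ℕ) (g v : F), C g * (Xl j * o v * Xl j) ∈ W2 P j := by
  intro j g v
  have hb := W2_bi h j
  have e : C g * (Xl j * o v * Xl j) = C g * (Xl j * o v * Xl j + kap (x j) v) - C g * kap (x j) v := by
    noncomm_ring
  rw [e]
  exact sub_mem (hb.mul_left _ (kap_W2 h j v)) (Cg_kap_W2 h hc3 j g v)

section
variable {R : Type*} [Ring R]

/-- the linear law for `X = f t + 1`, `X² = 0` -/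
theorem I05_lam (f : F →* R) (hc : ∀ g, f g * f g + 1 + f g + f g⁻¹ = 0) {t : F} {X : R}
    (ht : f t = 1 + X) (ht' : f t⁻¹ = 1 + X) (g : F) :
    X * f g + f g * X + X + f g⁻¹ * X * f g⁻¹ + X * f g * X = 0 := by
  have a := hc (g * t)
  have b := hc g
  rw [mul_inv_rev, map_mul, map_mul, ht, ht'] at a
  have e1 : f g⁻¹ * f g = 1 := by rw [← map_mul, inv_mul_cancel, map_one]
  have e2 : f g * (1 + X) * (f g * (1 + X)) + 1 + f g * (1 + X) + (1 + X) * f g⁻¹ =
      (f g * f g + 1 + f g + f g⁻¹) + (f g * X * f g + f g * f g * X + f g * X * f g * X + f g * X + X * f g⁻¹) := by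
    noncomm_ring
  rw [e2, b, zero_add] at a
  calc X * f g + f g * X + X + f g⁻¹ * X * f g⁻¹ + X * f g * X
      = (f g⁻¹ * f g) * (X * f g) + (f g⁻¹ * f g) * (f g * X) + (f g⁻¹ * f g) * X + f g⁻¹ * X * f g⁻¹ +
        (f g⁻¹ * f g) * (X * f g * X) := by rw [e1]; simp only [one_mul]
    _ = f g⁻¹ * (f g * X * f g + f g * f g * X + f g * X * f g * X + f g * X + X * f g⁻¹) := by noncomm_ring
    _ = 0 := by rw [a, mul_zero]

/-- the right action on `X v X` is trivial if the left action is trivial -/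
theorem I05_right (h2 : ∀ r : R, r + r = 0) (f : F →* R) (hc : ∀ g, f g * f g + 1 + f g + f g⁻¹ = 0) {t : F} {X : R}
    (ht : f t = 1 + X) (ht' : f t⁻¹ = 1 + X) (hX : X * X = 0) (h3 : ∀ a b, X * f a * X * f b * X = 0)
    (hA : ∀ g v, f g * (X * f v * X) = X * f v * X) (hS : ∀ c v, X * f (v * c ^ 2) * X = X * f v * X) (v u : F) :
    X * f v * X * f u = X * f v * X := by
  have hinv : ∀ g, X * f g⁻¹ * X = X * f g * X := by
    intro g
    have := hS g⁻¹ g
    rw [← this]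
    congr 2
    congr 1
    group
  -- the relation (Q)
  have hQ : ∀ u v, X * f u * X * f v + X * f v * X + X * f u * X * (f v⁻¹ * f u⁻¹) + X * f v * X * f u⁻¹ = 0 := by
    intro u v
    have a := I05_lam f hc ht ht' (u * t * v)
    have b := I05_lam f hc ht ht' (u * v)
    simp only [mul_inv_rev, map_mul, ht, ht'] at a b
    have e3 := h3 u v
    have e4 := h3 u⁻¹ v⁻¹
    have e5 := hA u v
    have e6 := hA v⁻¹ u⁻¹
    have e7 := hA (v⁻¹ * u⁻¹) v⁻¹
    rw [map_mul] at e7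
    rw [hinv u] at e6
    rw [hinv v] at e7
    have e : X * (f u * (1 + X) * f v) + f u * (1 + X) * f v * X + X +
        f v⁻¹ * ((1 + X) * f u⁻¹) * X * (f v⁻¹ * ((1 + X) * f u⁻¹)) + X * (f u * (1 + X) * f v) * X =
        (X * (f u * f v) + f u * f v * X + X + f v⁻¹ * f u⁻¹ * X * (f v⁻¹ * f u⁻¹) + X * (f u * f v) * X) +
        (X * f u * X * f v + f u * (X * f v * X) + (f v⁻¹ * (X * f u⁻¹ * X)) * (f v⁻¹ * f u⁻¹) +
          (f v⁻¹ * f u⁻¹ * (X * f v⁻¹ * X)) * f u⁻¹) + (X * f u * X * f v * X) +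
          f v⁻¹ * (X * f u⁻¹ * X * f v⁻¹ * X) * f u⁻¹ := by
      noncomm_ring
    rw [e, b, e3, e4, e5, hinv u, hinv v, e6, e7] at a
    simpa using a
  have hone : X * f 1 * X = 0 := by rw [map_one, mul_one, hX]
  have hfix : ∀ u, X * f u * X * f u⁻¹ = X * f u * X := by
    intro u
    have := hQ u 1
    rw [hone, map_one, inv_one, map_one, mul_one, one_mul, zero_mul, add_zero, add_zero] at this
    exact (E4.RC.eq_of_two h2 this).symm
  have hfix' : ∀ u, X * f u * X * f u = X * f u * X := by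
    intro u
    have := hfix u⁻¹
    rw [inv_inv, hinv] at this
    exact this
  have hsq : ∀ u c, X * f u * X * f (c ^ 2) = X * f u * X := by
    intro u c
    have a := hfix' (u * c ^ 2)
    rw [hS] at a
    rw [map_mul, ← mul_assoc, hfix'] at a
    exact a
  have hvs : ∀ u v c, X * f u * X * f (v * c ^ 2) = X * f u * X * f v := by
    intro u v c
    have e : v * c ^ 2 = (v * c * v⁻¹) ^ 2 * v := by
      rw [pow_two, pow_two]; group
    rw [e, map_mul, ← mul_assoc, hsq]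
  have hcr : ∀ u v, X * f u * X * (f v⁻¹ * f u⁻¹) = X * f u * X * f v := by
    intro u v
    have e : v⁻¹ * u⁻¹ = u * v * ((u * v)⁻¹) ^ 2 := by
      rw [pow_two]; group
    rw [← map_mul, e, hvs, map_mul, ← mul_assoc, hfix']
  have := hQ u⁻¹ v
  rw [hcr, inv_inv] at this
  have h4 := h2 (X * f u⁻¹ * X * f v)
  have h5 : X * f v * X + X * f v * X * f u = 0 := by
    calc _ = (X * f u⁻¹ * X * f v + X * f v * X + X * f u⁻¹ * X * f v + X * f v * X * f u) -
        (X * f u⁻¹ * X * f v + X * f u⁻¹ * X * f v) := by abel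
      _ = 0 := by rw [this, h4, sub_zero]
  exact (E4.RC.eq_of_two h2 h5).symm

end

/-- **field `s2b`** from `s2a` and `s2c` -/
theorem f_s2b {P : AddSubgroup FB} (h : TI P) (hc3 : ∀ a g b : F, c3 a g b ∈ P)
    (s2c : ∀ (j : ℕ) (c v : F), Xl j * o v * C (c ^ 2) * Xl j ∈ W2 P j) :
    ∀ (j : ℕ) (g v : F), Xl j * o v * Xl j * C g ∈ W2 P j := by
  intro j g v
  have hb := W2_bi h j
  have hcube : ∀ g : F, C g ^ 3 ∈ W2 P j := fun g => AddSubgroup.mem_sup_right (h.cube g)
  have hX : qm _ hb (Xl j) * qm _ hb (Xl j) = 0 := by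
    rw [← map_mul, qm_zero]
    exact sq_W2 j
  have ht : qm _ hb (o (x j)) = 1 + qm _ hb (Xl j) := qm_let hb (x j)
  have ht' : qm _ hb (o (x j)⁻¹) = 1 + qm _ hb (Xl j) := by
    have e2 : (1 + qm _ hb (Xl j)) * (1 + qm _ hb (Xl j)) = 1 := by
      rw [add_mul, one_mul, mul_add, mul_one, hX, add_zero, add_assoc, q_two, add_zero]
    have e4 : qm _ hb (o (x j)⁻¹) * qm _ hb (o (x j)) = 1 := by
      rw [← map_mul, ← map_mul, inv_mul_cancel, map_one, map_one]
    calc qm _ hb (o (x j)⁻¹) = qm _ hb (o (x j)⁻¹) * ((1 + qm _ hb (Xl j)) * (1 + qm _ hb (Xl j))) := by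
          rw [e2, mul_one]
      _ = _ := by rw [← mul_assoc, ← ht, e4, one_mul]
  have key := I05_right (q_two hb) ((qm _ hb : FB →+* QR _ hb).toMonoidHom.comp o) (fun g => by
      have := E4.RC.cub_of (q_two hb) (q_cube hb hcube _ (qu_mem hb g))
      rw [qu_inv, qu_val] at this
      exact this) (t := x j) (X := qm _ hb (Xl j)) ht ht' hX (fun a b => by
      show qm _ hb (Xl j) * qm _ hb (o a) * qm _ hb (Xl j) * qm _ hb (o b) * qm _ hb (Xl j) = 0
      rw [← map_mul, ← map_mul, ← map_mul, ← map_mul, qm_zero]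
      exact AddSubgroup.mem_sup_left (AddSubgroup.mem_sup_right (sub_idl ⟨a, b, rfl⟩))) (fun g v => by
      show qm _ hb (o g) * (qm _ hb (Xl j) * qm _ hb (o v) * qm _ hb (Xl j)) =
        qm _ hb (Xl j) * qm _ hb (o v) * qm _ hb (Xl j)
      have := f_s2a h hc3 j g v
      rw [← qm_zero hb, C, add_mul, one_mul, map_add, map_mul, map_mul, map_mul] at this
      exact E4.RC.eq_of_two (q_two hb) this) (fun c v => by
      show qm _ hb (Xl j) * qm _ hb (o (v * c ^ 2)) * qm _ hb (Xl j) =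
        qm _ hb (Xl j) * qm _ hb (o v) * qm _ hb (Xl j)
      have := s2c j c v
      rw [← qm_zero hb] at this
      have e : Xl j * o v * C (c ^ 2) * Xl j = Xl j * o (v * c ^ 2) * Xl j + Xl j * o v * Xl j := by
        rw [C, map_mul]; noncomm_ring
      have m : ∀ u v : FB, qm _ hb (u * v) = qm _ hb u * qm _ hb v := fun u v => map_mul _ u v
      rw [e, map_add, m, m, m, m] at this
      exact E4.RC.eq_of_two (q_two hb) this) v g
  have key2 : qm _ hb (Xl j) * qm _ hb (o v) * qm _ hb (Xl j) * qm _ hb (o g) =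
      qm _ hb (Xl j) * qm _ hb (o v) * qm _ hb (Xl j) := key
  rw [← qm_zero hb, C, mul_add, mul_one, map_add, map_mul, map_mul, map_mul, key2, q_two]

end E4.X
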