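import Pool.Agent.Lib.MP_8a95e3_al.XK2

/-!
# XK3 : the maps `Θ_j` are well defined modulo `P`
-/

noncomputable section

namespace E4.X

open E4

/-- a word contains finitely many letters -/
theorem fresh_F (g : F) : ∃ N : ℕ, ∀ φ : F →* F, (∀ i < N, φ (x i) = x i) → φ g = g := by
  induction g using FreeGroup.induction_on with
  | C1 => exact ⟨0, fun φ _ => map_one φ⟩
  | of i => exact ⟨i + 1, fun φ h => h i (Nat.lt_succ_self i)⟩
  | inv_of i _ => exact ⟨i + 1, fun φ h => by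
      show φ (x i)⁻¹ = (x i)⁻¹
      rw [map_inv, h i (Nat.lt_succ_self i)]⟩
  | mul u v hu hv =>
    obtain ⟨N, hN⟩ := hu
    obtain ⟨N', hN'⟩ := hv
    refine ⟨max N N', fun φ h => ?_⟩
    rw [map_mul, hN φ fun i hi => h i (lt_of_lt_of_le hi (le_max_left _ _)),
      hN' φ fun i hi => h i (lt_of_lt_of_le hi (le_max_right _ _))]

/-- the substitution `x_y ↦ x_j`, `x_z ↦ x_j²` -/
def fj (y z j : ℕ) : F →* F := FreeGroup.lift fun i => if i = y then x j else if i = z then x j ^ 2 else x i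

theorem fj_x (y z j i : ℕ) : fj y z j (x i) = if i = y then x j else if i = z then x j ^ 2 else x i := by
  simp [fj, x]

theorem fj_y (y z j : ℕ) : fj y z j (x y) = x j := by rw [fj_x, if_pos rfl]

theorem fj_z {y z : ℕ} (hyz : y ≠ z) (j : ℕ) : fj y z j (x z) = x j ^ 2 := by
  rw [fj_x, if_neg hyz.symm, if_pos rfl]

/-- the small identities for `Θ` -/
structure ThLaws (P : AddSubgroup FB) : Prop where
  four : ∀ g a b c : F, C g * o a * C g * o b * C g * o c * C g ∈ P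
  th1 : ∀ a g : F, C a * C a ^ 2 * o g + o g⁻¹ * C a ^ 2 * C a + o g⁻¹ * C a * o g * C a ^ 2
    + C a ^ 2 * o g⁻¹ * C a * o g + C a * T g * C a ^ 2 ∈ P
  th2 : ∀ a g : F, T g * C a * C a ^ 2 * C g + T g * C a ^ 2 * C g * C a ∈ P

theorem tp_fresh {P : AddSubgroup FB} (hP : TI P) (hL : ThLaws P) {j : ℕ} {r : FB × FB} (hr : r ∈ TP j) :
    ∃ N : ℕ, ∀ y z : ℕ, N ≤ y → N ≤ z → y ≠ z → ∃ k', (r.1, k') ∈ KP y z ∧ eB (rp z 1) k' = 0 ∧
      eB (fj y z j) k' + r.2 ∈ P := by
  unfold TP at hr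
  induction hr using AddSubgroup.closure_induction with
  | mem r hr =>
    obtain ⟨u, g, v, rfl⟩ := hr
    obtain ⟨N1, h1⟩ := fresh_F u
    obtain ⟨N2, h2⟩ := fresh_F g
    obtain ⟨N3, h3⟩ := fresh_F v
    refine ⟨max N1 (max N2 N3), fun y z hy hz hyz => ⟨o u * tau y z g * o v, kp_mem u g v, ?_, ?_⟩⟩
    · have hy0 : eB (rp z 1) (Xl y) = Xl y := eB_Xl_rp_ne _ hyz
      have hz0 : eB (rp z 1) (Xl z) = 0 := by rw [eB_Xl_rp_self, C_one]
      unfold tau
      simp only [map_mul, map_add, hy0, hz0, mul_zero, zero_mul, add_zero]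
    · have hN : ∀ N, (N ≤ max N1 (max N2 N3)) → ∀ i < N, fj y z j (x i) = x i := by
        intro N hN i hi
        rw [fj_x, if_neg (by omega), if_neg (by omega)]
      have e1 : fj y z j u = u := h1 _ (hN N1 (by omega))
      have e2 : fj y z j g = g := h2 _ (hN N2 (by omega))
      have e3 : fj y z j v = v := h3 _ (hN N3 (by omega))
      have e4 : eB (fj y z j) (Xl y) = C (x j) := by
        unfold Xl
        rw [eB_C, fj_y]
      have e5 : eB (fj y z j) (Xl z) = C (x j) ^ 2 := by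
        unfold Xl
        rw [eB_C, fj_z hyz, C_sq]
      have e6 : eB (fj y z j) (tau y z g) = C (x j) * C (x j) ^ 2 * o g + o g⁻¹ * C (x j) ^ 2 * C (x j)
          + o g⁻¹ * C (x j) * o g * C (x j) ^ 2 + C (x j) ^ 2 * o g⁻¹ * C (x j) * o g := by
        unfold tau
        simp only [map_mul, map_add, e4, e5, eB_o, map_inv (fj y z j), e2]
      rw [map_mul, map_mul, eB_o, eB_o, e1, e3, e6]
      have e7 := hP.right (o v) _ (hP.left (o u) _ (hL.th1 (x j) g))
      rw [mul_add, add_mul] at e7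
      exact e7
  | zero =>
    refine ⟨0, fun y z _ _ _ => ⟨0, kp_zero y z, map_zero _, ?_⟩⟩
    rw [map_zero, Prod.snd_zero, add_zero]
    exact P.zero_mem
  | add a b _ _ ha hb =>
    obtain ⟨N1, h1⟩ := ha
    obtain ⟨N2, h2⟩ := hb
    refine ⟨max N1 N2, fun y z hy hz hyz => ?_⟩
    obtain ⟨k1, f1, f2, f3⟩ := h1 y z (by omega) (by omega) hyz
    obtain ⟨k2, f4, f5, f6⟩ := h2 y z (by omega) (by omega) hyz
    refine ⟨k1 + k2, kp_add f1 f4, by rw [map_add, f2, f5, add_zero], ?_⟩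
    rw [map_add, Prod.snd_add, add_add_add_comm]
    exact P.add_mem f3 f6
  | neg a _ ha =>
    obtain ⟨N1, h1⟩ := ha
    refine ⟨N1, fun y z hy hz hyz => ?_⟩
    obtain ⟨k1, f1, f2, f3⟩ := h1 y z hy hz hyz
    refine ⟨-k1, kp_neg f1, by rw [map_neg, f2, neg_zero], ?_⟩
    rw [map_neg, Prod.snd_neg, ← neg_add]
    exact P.neg_mem f3

/-- degree four -/
theorem i4 {P : AddSubgroup FB} (hP : TI P) (hL : ThLaws P) (j : ℕ) {d : FB} (hd : d ∈ I2 j) :
    (∀ c v : F, d * (Xl j * o c * Xl j) * o v ∈ P) ∧ (∀ u v : F, o u * Xl j * d * Xl j * o v ∈ P) ∧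
      (∀ u c : F, o u * (Xl j * o c * Xl j) * d ∈ P) := by
  unfold I2 idl at hd
  induction hd using AddSubgroup.closure_induction with
  | mem d hd =>
    obtain ⟨a, b, _, ⟨s, rfl⟩, rfl⟩ := hd
    have h4 := hL.four (x j)
    refine ⟨fun c v => ?_, fun u v => ?_, fun u c => ?_⟩
    · have e := hP.right (o v) _ (hP.left (o a) _ (h4 s b c))
      unfold Xl
      simp only [mul_assoc] at e ⊢
      exact e
    · have e := hP.right (o v) _ (hP.left (o u) _ (h4 a s b))
      unfold Xl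
      simp only [mul_assoc] at e ⊢
      exact e
    · have e := hP.right (o b) _ (hP.left (o u) _ (h4 c a s))
      unfold Xl
      simp only [mul_assoc] at e ⊢
      exact e
  | zero => simp [P.zero_mem]
  | add d d' _ _ hd hd' =>
    obtain ⟨h1, h2, h3⟩ := hd
    obtain ⟨h1', h2', h3'⟩ := hd'
    refine ⟨fun c v => ?_, fun u v => ?_, fun u c => ?_⟩
    · rw [add_mul, add_mul]
      exact P.add_mem (h1 c v) (h1' c v)
    · rw [mul_add, add_mul, add_mul]
      exact P.add_mem (h2 u v) (h2' u v)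
    · rw [mul_add]
      exact P.add_mem (h3 u c) (h3' u c)
  | neg d _ hd =>
    rw [fb_neg]
    exact hd

/-- the difference of the substitutions `x_z ↦ x_j²` and `x_z ↦ 1` -/
theorem fj_diff {y z : ℕ} (hyz : y ≠ z) (j : ℕ) (u : F) : o (fj y z j u) + o (fj y z j (rp z 1 u)) ∈ I2 j := by
  have hB := I2_bi j
  have hx : ∀ i, o (fj y z j (x i)) + o (fj y z j (rp z 1 (x i))) ∈ I2 j := by
    intro i
    rw [rp_x]
    by_cases hi : i = z
    · subst hi
      rw [if_pos rfl, fj_z hyz, map_one, map_one]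
      have e : o (x j ^ 2) + 1 = Xl j * o 1 * Xl j := by
        have e2 := C_sq (x j)
        unfold C at e2
        unfold Xl C
        rw [e2, map_one, mul_one, pow_two]
      rw [e]
      exact sub_idl ⟨1, rfl⟩
    · rw [if_neg hi, fb_add_self]
      exact (I2 j).zero_mem
  have key : ∀ a b c d : F, o a + o c ∈ I2 j → o b + o d ∈ I2 j → o (a * b) + o (c * d) ∈ I2 j := by
    intro a b c d h1 h2
    have e : o (a * b) + o (c * d) = (o a + o c) * o b + o c * (o b + o d) - 2 * (o c * o b) := by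
      rw [map_mul, map_mul]
      noncomm_ring
    have e2 : (2 : FB) * (o c * o b) = 0 := by rw [two_mul, fb_add_self]
    rw [e, e2, sub_zero]
    exact (I2 j).add_mem (hB.right _ _ h1) (hB.left _ _ h2)
  induction u using FreeGroup.induction_on with
  | C1 =>
    simp only [map_one, fb_add_self]
    exact (I2 j).zero_mem
  | of i => exact hx i
  | inv_of i _ =>
    have h1 := hx i
    show o (fj y z j (x i)⁻¹) + o (fj y z j (rp z 1 (x i)⁻¹)) ∈ I2 j
    rw [map_inv (rp z 1), map_inv (fj y z j), map_inv (fj y z j)]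
    have e := hB.right (fj y z j (x i))⁻¹ _ (hB.left (fj y z j (rp z 1 (x i)))⁻¹ _ h1)
    rw [mul_add, add_mul, ← map_mul, ← map_mul, ← map_mul, ← map_mul, inv_mul_cancel, one_mul, mul_assoc,
      mul_inv_cancel, mul_one, add_comm] at e
    exact e
  | mul u v hu hv =>
    rw [map_mul (rp z 1), map_mul (fj y z j), map_mul (fj y z j)]
    exact key _ _ _ _ hu hv

theorem lem1 {P : AddSubgroup FB} (hP : TI P) (hL : ThLaws P) {y z : ℕ} (hyz : y ≠ z) (j : ℕ) {a : FB} (ha : a ∈ I2 y) :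
    eB (fj y z j) (a + eB (rp z 1) a) ∈ P := by
  unfold I2 idl at ha
  induction ha using AddSubgroup.closure_induction with
  | mem a ha =>
    obtain ⟨u, v, _, ⟨c, rfl⟩, rfl⟩ := ha
    have e1 : eB (rp z 1) (Xl y) = Xl y := eB_Xl_rp_ne _ hyz
    have e2 : eB (fj y z j) (Xl y) = Xl j := by
      unfold Xl
      rw [eB_C, fj_y]
    rw [map_add]
    simp only [map_mul, e1, e2, eB_o]
    have hu := fj_diff hyz j u
    have hv := fj_diff hyz j v
    have hc := fj_diff hyz j c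
    have f1 := (i4 hP hL j hu).1 (fj y z j c) (fj y z j v)
    have f2 := (i4 hP hL j hc).2.1 (fj y z j (rp z 1 u)) (fj y z j v)
    have f3 := (i4 hP hL j hv).2.2 (fj y z j (rp z 1 u)) (fj y z j (rp z 1 c))
    have e : o (fj y z j u) * (Xl j * o (fj y z j c) * Xl j) * o (fj y z j v)
        + o (fj y z j (rp z 1 u)) * (Xl j * o (fj y z j (rp z 1 c)) * Xl j) * o (fj y z j (rp z 1 v))
        = (o (fj y z j u) + o (fj y z j (rp z 1 u))) * (Xl j * o (fj y z j c) * Xl j) * o (fj y z j v)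
          + o (fj y z j (rp z 1 u)) * Xl j * (o (fj y z j c) + o (fj y z j (rp z 1 c))) * Xl j * o (fj y z j v)
          + o (fj y z j (rp z 1 u)) * (Xl j * o (fj y z j (rp z 1 c)) * Xl j) * (o (fj y z j v) + o (fj y z j (rp z 1 v)))
          - 2 * (o (fj y z j (rp z 1 u)) * (Xl j * o (fj y z j c) * Xl j) * o (fj y z j v))
          - 2 * (o (fj y z j (rp z 1 u)) * (Xl j * o (fj y z j (rp z 1 c)) * Xl j) * o (fj y z j v)) := by
      noncomm_ring
    have e3 : ∀ a : FB, 2 * a = 0 := fun a => by rw [two_mul, fb_add_self]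
    rw [e, e3, e3, sub_zero, sub_zero]
    exact P.add_mem (P.add_mem f1 f2) f3
  | zero => simp [P.zero_mem]
  | add a b _ _ ha hb =>
    have e : a + b + eB (rp z 1) (a + b) = (a + eB (rp z 1) a) + (b + eB (rp z 1) b) := by
      rw [map_add]
      abel
    rw [e, map_add]
    exact P.add_mem ha hb
  | neg a _ ha =>
    rw [fb_neg]
    exact ha

theorem lem2 {P : AddSubgroup FB} (hP : TI P) (hL : ThLaws P) {y z : ℕ} (hyz : y ≠ z) (j : ℕ) {b : FB} (hb : b ∈ I2 z) :
    eB (fj y z j) b ∈ P := by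
  refine eB_idl hP.bi _ ?_ hb
  rintro s ⟨a, rfl⟩
  have e2 : eB (fj y z j) (Xl z) = Xl j * Xl j := by
    unfold Xl
    rw [eB_C, fj_z hyz, C_sq, pow_two]
  rw [map_mul, map_mul, e2, eB_o]
  have e := hL.four (x j) 1 (fj y z j a) 1
  rw [map_one, mul_one, mul_one] at e
  unfold Xl
  simp only [mul_assoc] at e ⊢
  exact e

theorem lem3 {P : AddSubgroup FB} (hP : TI P) (hL : ThLaws P) {y z : ℕ} (hyz : y ≠ z) (j : ℕ) {e : FB} (he : e ∈ EI y z) :
    eB (fj y z j) e ∈ P := by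
  refine eB_idl hP.bi _ ?_ he
  rintro s ⟨g, rfl⟩
  have e1 : eB (fj y z j) (Xl y) = C (x j) := by
    unfold Xl
    rw [eB_C, fj_y]
  have e2 : eB (fj y z j) (Xl z) = C (x j) ^ 2 := by
    unfold Xl
    rw [eB_C, fj_z hyz, C_sq]
  unfold ee
  rw [map_add, map_mul, map_mul, map_mul, map_mul, map_mul, map_mul, e1, e2, eB_T, eB_C]
  exact hL.th2 (x j) (fj y z j g)

theorem lem3' {y z : ℕ} {e : FB} (he : e ∈ EI y z) : eB (rp z 1) e = 0 := by
  have h0 : Bi (⊥ : AddSubgroup FB) := ⟨fun g r hr => by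
    rw [AddSubgroup.mem_bot] at hr ⊢
    rw [hr, mul_zero], fun g r hr => by
    rw [AddSubgroup.mem_bot] at hr ⊢
    rw [hr, zero_mul]⟩
  have h1 := eB_idl h0 (rp z 1) (S := {r | ∃ g : F, r = ee g y z}) (fun s hs => by
    obtain ⟨g, rfl⟩ := hs
    have hz0 : eB (rp z 1) (Xl z) = 0 := by rw [eB_Xl_rp_self, C_one]
    unfold ee
    rw [map_add, map_mul, map_mul, map_mul, map_mul, map_mul, map_mul, hz0, mul_zero, zero_mul, mul_zero, zero_mul,
      zero_mul, add_zero]
    exact AddSubgroup.zero_mem _) he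
  rwa [AddSubgroup.mem_bot] at h1

/-- **twd** -/
theorem twd_of {P : AddSubgroup FB} (hP : TI P) (hL : ThLaws P)
    (hK : ∀ y z : ℕ, y ≠ z → ∀ w k : FB, (w, k) ∈ KP y z → w ∈ P → k ∈ NN P y z)
    (j : ℕ) (w k : FB) (hk : (w, k) ∈ TP j) (hw : w ∈ P) : k ∈ P := by
  obtain ⟨N, hN⟩ := tp_fresh hP hL hk
  have hyz : N ≠ N + 1 := by omega
  obtain ⟨k', h1, h2, h3⟩ := hN N (N + 1) le_rfl (Nat.le_succ N) hyz
  have h4 := hK N (N + 1) hyz w k' h1 hw
  have h5 : eB (fj N (N + 1) j) k' ∈ P := by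
    unfold NN at h4
    obtain ⟨r1, hr1, e, he, rfl⟩ := AddSubgroup.mem_sup.1 h4
    obtain ⟨r2, hr2, b, hb, rfl⟩ := AddSubgroup.mem_sup.1 hr1
    obtain ⟨p, hp, a, ha, rfl⟩ := AddSubgroup.mem_sup.1 hr2
    have e1 : eB (rp (N + 1) 1) b = 0 := eB_kill_I2 hb
    have e2 : eB (rp (N + 1) 1) e = 0 := lem3' he
    rw [map_add, map_add, map_add, e1, e2, add_zero, add_zero] at h2
    have e3 : p + a + b + e = (p + eB (rp (N + 1) 1) p) + (a + eB (rp (N + 1) 1) a) + b + e := by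
      have e4 : (p + eB (rp (N + 1) 1) p) + (a + eB (rp (N + 1) 1) a) + b + e
          = p + a + b + e + (eB (rp (N + 1) 1) p + eB (rp (N + 1) 1) a) := by abel
      rw [e4, h2, add_zero]
    rw [e3, map_add, map_add, map_add]
    refine P.add_mem (P.add_mem (P.add_mem ?_ (lem1 hP hL hyz j ha)) (lem2 hP hL hyz j hb)) (lem3 hP hL hyz j he)
    exact hP.endo _ _ (P.add_mem hp (hP.endo _ _ hp))
  have h6 := P.add_mem h3 h5
  have e7 : eB (fj N (N + 1) j) k' + (w, k).2 + eB (fj N (N + 1) j) k' = k := by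
    show eB (fj N (N + 1) j) k' + k + eB (fj N (N + 1) j) k' = k
    rw [add_right_comm, fb_add_self, zero_add]
  rwa [e7] at h6

end E4.X
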