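import Pool.Agent.Lib.MP_8a95e3_al.I05
import Pool.Agent.Lib.MP_8a95e3_al.XK3

/-!
# I06 : the structures `TauLaws`, `ThLaws`; the cubes (helper63)
-/

noncomputable section

namespace E4.X

open E4

theorem tauLaws (y z : ℕ) : TauLaws y z :=
  ⟨fun g => t_a1 K0_TI y z g, fun g => t_a2 K0_TI y z g, fun g h => t_a3 K0_TI y z g h,
    fun g h => t_a4 K0_TI y z g h, fun g h => t_a5 K0_TI y z g h⟩

/-- `K(y,z)` of a cube is in `(e)` -/
theorem hcube_of {P : AddSubgroup FB} (h : TI P) (y z : ℕ) (g : F) : C g * o g * tau y z g ∈ NN P y z := by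
  have a := t_cube h y z g
  have b : ee g y z ∈ EI y z := sub_idl ⟨g, rfl⟩
  have e : C g * o g * tau y z g = (C g * o g * tau y z g + ee g y z) - ee g y z := by abel
  rw [e]
  exact sub_mem (AddSubgroup.mem_sup_left a) (AddSubgroup.mem_sup_right b)

theorem thLaws {P : AddSubgroup FB} (h : TI P) (four : ∀ g a b c : F, C g * o a * C g * o b * C g * o c * C g ∈ P)
    (ht : ∀ a b : F, t2 a b ∈ P) : ThLaws P :=
  ⟨four, fun a g => th1_of h a g, fun a g => th2_of h ht a g⟩

end E4.X
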