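import Pool.Agent.Lib.MP_8a95e3_al.G123
import Pool.Agent.Lib.MP_8a95e3_al.RK.E_C2
import Pool.Agent.Lib.MP_8a95e3_al.RK.E_C3
import Pool.Agent.Lib.MP_8a95e3_al.RK.E_C4a
import Pool.Agent.Lib.MP_8a95e3_al.RK.E_C4b
import Pool.Agent.Lib.MP_8a95e3_al.RK.D_lam
import Pool.Agent.Lib.MP_8a95e3_al.RK.D_BB
import Pool.Agent.Lib.MP_8a95e3_al.RK.D_K2
import Pool.Agent.Lib.MP_8a95e3_al.RK.D_K2r
import Pool.Agent.Lib.MP_8a95e3_al.RK.D_linT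

/-!
# I64a : the laws (G1), (G2), (G3) for the second layer, the third layer and for bilinear elements (helper64)
-/

set_option linter.unusedSectionVars false

namespace E4.G64

section units
variable {Γ R : Type*} [Group Γ] [Ring R] (φ : Γ →* R)

/-- the group of the units which come from `Γ` -/
def Gr : Subgroup Rˣ := (MonoidHom.toHomUnits φ).range

theorem Gr_mem (g : Γ) : MonoidHom.toHomUnits φ g ∈ Gr φ := ⟨g, rfl⟩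

theorem th_val (g : Γ) : ((MonoidHom.toHomUnits φ g : Rˣ) : R) = φ g := rfl

theorem th_inv (g : Γ) : (((MonoidHom.toHomUnits φ g)⁻¹ : Rˣ) : R) = φ g⁻¹ := by
  rw [← map_inv]
  rfl

theorem mul_inv' (g : Γ) : φ g * φ g⁻¹ = 1 := by rw [← map_mul, mul_inv_cancel, map_one]

theorem inv_mul' (g : Γ) : φ g⁻¹ * φ g = 1 := by rw [← map_mul, inv_mul_cancel, map_one]

theorem Gr_cube (hc : ∀ g : Γ, (φ g + 1) ^ 3 = 0) : ∀ u : Rˣ, u ∈ Gr φ → ((u : R) + 1) ^ 3 = 0 := by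
  rintro _ ⟨g, rfl⟩
  exact hc g

variable (h2 : ∀ r : R, r + r = 0) (hc : ∀ g : Γ, (φ g + 1) ^ 3 = 0)
include h2 hc

theorem pcub (g : Γ) : φ g * φ g + 1 + φ g + φ g⁻¹ = 0 := by
  have e := E4.RC.cub_of h2 (Gr_cube φ hc _ (Gr_mem φ g))
  rwa [th_inv, th_val] at e

theorem pC2 (x a : Γ) : (φ x + φ x⁻¹) * (φ a * (φ x + 1)) = (φ x + 1) * (φ a * (φ x + φ x⁻¹)) := by
  have e := E4.RC.C2 h2 (Gr_cube φ hc) (Gr_mem φ x) (Gr_mem φ a)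
  rwa [th_inv, th_val, th_val] at e

theorem pC3 (x a : Γ) : (φ x + φ x⁻¹) * (φ a * (φ x + φ x⁻¹)) = 0 := by
  have e := E4.RC.C3 h2 (Gr_cube φ hc) (Gr_mem φ x) (Gr_mem φ a)
  rwa [th_inv, th_val, th_val] at e

theorem pC4a (x a : Γ) : (φ x + 1) * (φ a⁻¹ * (φ x + φ x⁻¹)) =
    (φ x + 1) * (φ a * ((φ x + φ x⁻¹) * φ a)) := by
  have e := E4.RC.C4a h2 (Gr_cube φ hc) (Gr_mem φ x) (Gr_mem φ a)
  rwa [th_inv, th_inv, th_val, th_val] at e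

theorem pC4b (x a : Γ) : (φ x + 1) * (φ a⁻¹ * (φ x + φ x⁻¹)) =
    φ a * ((φ x + 1) * (φ a * (φ x + φ x⁻¹))) := by
  have e := E4.RC.C4b h2 (Gr_cube φ hc) (Gr_mem φ x) (Gr_mem φ a)
  rwa [th_inv, th_inv, th_val, th_val] at e

theorem plam (x a : Γ) : (φ x + 1) * (φ a * (φ x + 1)) = (φ x + 1) + (φ a * (φ x + 1) + ((φ x + 1) * φ a +
    (φ a⁻¹ * ((φ x + 1) * φ a⁻¹) + φ a⁻¹ * ((φ x + φ x⁻¹) * φ a⁻¹)))) := by
  have e := E4.RC.D_lam h2 (Gr_cube φ hc) (Gr_mem φ x) (Gr_mem φ a)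
  rwa [th_inv, th_inv, th_val, th_val] at e

theorem pK2 (x a : Γ) : (φ a + 1) * ((φ x + 1) * (φ a * (φ x + 1))) = (φ x + φ x⁻¹) +
    ((φ x + φ x⁻¹) * (φ a + φ a⁻¹) + φ a * (φ x + φ x⁻¹)) := by
  have e := E4.RC.D_K2 h2 (Gr_cube φ hc) (Gr_mem φ x) (Gr_mem φ a)
  rwa [th_inv, th_inv, th_val, th_val] at e

theorem pK2r (x a : Γ) : ((φ x + 1) * (φ a * (φ x + 1))) * (φ a + 1) = (φ x + φ x⁻¹) +
    ((φ a + φ a⁻¹) * (φ x + φ x⁻¹) + (φ x + φ x⁻¹) * φ a) := by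
  have e := E4.RC.D_K2r h2 (Gr_cube φ hc) (Gr_mem φ x) (Gr_mem φ a)
  rwa [th_inv, th_inv, th_val, th_val] at e

theorem plinT (x a : Γ) : (φ x + φ x⁻¹) * φ a + (φ a * (φ x + φ x⁻¹) + ((φ x + φ x⁻¹) +
    φ a⁻¹ * ((φ x + φ x⁻¹) * φ a⁻¹))) = 0 := by
  have e := E4.RC.D_linT h2 (Gr_cube φ hc) (Gr_mem φ x) (Gr_mem φ a)
  rwa [th_inv, th_inv, th_val, th_val] at e

theorem pT (x : Γ) : (φ x + 1) * (φ x + 1) = φ x + φ x⁻¹ := by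
  have e := pcub φ h2 hc x
  have e1 : (φ x + 1) * (φ x + 1) = (φ x * φ x + 1 + φ x + φ x⁻¹) + (φ x - φ x⁻¹) := by noncomm_ring
  have e3 : (φ x : R) - φ x⁻¹ = φ x + φ x⁻¹ := by
    rw [sub_eq_add_neg]
    congr 1
    exact neg_eq_of_add_eq_zero_left (h2 _)
  rw [e1, e, zero_add, e3]

end units

section alg
variable {R : Type*} [Ring R]

theorem ng (h2 : ∀ r : R, r + r = 0) (r : R) : -r = r := neg_eq_of_add_eq_zero_left (h2 r)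

theorem alg3 (h2 : ∀ r : R, r + r = 0) {q Y U V : R} (VU : V * U = 1)
    (F0 : q * U + (U * q + (q + V * (q * V))) = 0)
    (F1 : q * (U * (1 + Y)) + ((U * (1 + Y)) * q + (q + ((1 + Y + Y * Y) * V) * (q * ((1 + Y + Y * Y) * V)))) = 0)
    (f1 : Y * V * q * Y = 0) (f2 : Y * Y * V * q = 0) (f3 : q * Y * Y = 0) (f4 : q * Y * V * Y = 0)
    (f5 : q * U * Y * Y = 0)
    (lam : Y * (V * Y) = Y + (V * Y + (Y * V + (U * (Y * U) + U * (Y * Y * U))))) :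
    U * Y * q * U + Y * V * q + q * V * Y + V * q * Y + q * Y * V + q * Y = 0 := by
  have A : q * U * Y + U * Y * q + V * q * Y * V + Y * V * q * V = 0 := by
    have e : q * U * Y + U * Y * q + V * q * Y * V + Y * V * q * V =
        (q * (U * (1 + Y)) + ((U * (1 + Y)) * q + (q + ((1 + Y + Y * Y) * V) * (q * ((1 + Y + Y * Y) * V)))))
        - (q * U + (U * q + (q + V * (q * V)))) - V * (q * Y * Y) * V - (Y * V * q * Y) * V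
        - (Y * V * q * Y) * Y * V - (Y * Y * V * q) * V - (Y * Y * V * q) * Y * V
        - (Y * Y * V * q) * Y * Y * V := by noncomm_ring
    rw [e, F0, F1, f1, f2, f3]
    simp
  have e : U * Y * q * U + Y * V * q + q * V * Y + V * q * Y + q * Y * V + q * Y =
      (q * U * Y + U * Y * q + V * q * Y * V + Y * V * q * V) * U
      + q * ((Y + (V * Y + (Y * V + (U * (Y * U) + U * (Y * Y * U)))))) - (q * U * Y * Y) * U
      - (q * U * Y * U + q * U * Y * U)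
      - V * q * Y * (V * U - 1) - Y * V * q * (V * U - 1) := by noncomm_ring
  rw [e, A, ← lam, f5, VU, h2]
  have e2 : q * (Y * (V * Y)) = q * Y * V * Y := by noncomm_ring
  rw [e2, f4]
  simp

/-- (BB) from the bilinear part of the cubic law -/
theorem alg2 (h2 : ∀ r : R, r + r = 0) {p q U V : R}
    (E1 : U * p * q * U + U * p * U * q + U * q * U * p + U * U * p * q + U * p * q + q * p * V = 0)
    (lp : U * p * U * q = p * V * q + V * p * q + p * q)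
    (lq : U * q * U * p = q * V * p + V * q * p + q * p)
    (uu : U * U * p * q = p * q + U * p * q + V * p * q) :
    U * p * q * U + p * V * q + q * V * p + V * q * p + q * p * V + q * p = 0 := by
  have e : U * p * q * U + p * V * q + q * V * p + V * q * p + q * p * V + q * p =
      (U * p * q * U + U * p * U * q + U * q * U * p + U * U * p * q + U * p * q + q * p * V)
      + (p * V * q + V * p * q + p * q - U * p * U * q)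
      + (q * V * p + V * q * p + q * p - U * q * U * p)
      + (p * q + U * p * q + V * p * q - U * U * p * q)
      - (p * q + p * q) - (U * p * q + U * p * q) - (V * p * q + V * p * q) := by noncomm_ring
  rw [e, E1, lp, lq, uu]
  simp only [h2, sub_self, add_zero, sub_zero]

end alg

section third
variable {Γ R : Type*} [Group Γ] [Ring R] (φ : Γ →* R)
    (h2 : ∀ r : R, r + r = 0) (hc : ∀ g : Γ, (φ g + 1) ^ 3 = 0)
include h2 hc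

/-- `T a X b X = 0` -/
theorem pC5 (x a b : Γ) : (φ x + φ x⁻¹) * (φ a * ((φ x + 1) * (φ b * (φ x + 1)))) = 0 := by
  rw [plam φ h2 hc x b]
  have l := plinT φ h2 hc x b
  have c := fun g : Γ => pC2 φ h2 hc x g
  have c3 := pC3 φ h2 hc x (a * b⁻¹)
  rw [map_mul] at c3
  have e1 : (φ x + φ x⁻¹) * (φ a * (φ x + 1 + (φ b * (φ x + 1) + ((φ x + 1) * φ b +
      (φ b⁻¹ * ((φ x + 1) * φ b⁻¹) + φ b⁻¹ * ((φ x + φ x⁻¹) * φ b⁻¹)))))) =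
      (φ x + φ x⁻¹) * (φ a * (φ x + 1)) + (φ x + φ x⁻¹) * (φ (a * b) * (φ x + 1)) +
      (φ x + φ x⁻¹) * (φ a * (φ x + 1)) * φ b + (φ x + φ x⁻¹) * (φ (a * b⁻¹) * (φ x + 1)) * φ b⁻¹
      + (φ x + φ x⁻¹) * (φ a * φ b⁻¹ * (φ x + φ x⁻¹)) * φ b⁻¹ := by
    rw [map_mul, map_mul]
    noncomm_ring
  rw [e1, c3, c, c, c, zero_mul, add_zero]
  have e2 : (φ x + 1) * (φ a * (φ x + φ x⁻¹)) + (φ x + 1) * (φ (a * b) * (φ x + φ x⁻¹)) +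
      (φ x + 1) * (φ a * (φ x + φ x⁻¹)) * φ b + (φ x + 1) * (φ (a * b⁻¹) * (φ x + φ x⁻¹)) * φ b⁻¹ =
      (φ x + 1) * (φ a * ((φ x + φ x⁻¹) * φ b + (φ b * (φ x + φ x⁻¹) + ((φ x + φ x⁻¹) +
    φ b⁻¹ * ((φ x + φ x⁻¹) * φ b⁻¹))))) := by
    rw [map_mul, map_mul]
    noncomm_ring
  rw [e2, l, mul_zero, mul_zero]

/-- `X a T b X = 0` -/
theorem pC5' (x a b : Γ) : (φ x + 1) * (φ a * ((φ x + φ x⁻¹) * (φ b * (φ x + 1)))) = 0 := by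
  have e := pC5 φ h2 hc x a b
  have c := pC2 φ h2 hc x a
  calc (φ x + 1) * (φ a * ((φ x + φ x⁻¹) * (φ b * (φ x + 1)))) =
      ((φ x + 1) * (φ a * (φ x + φ x⁻¹))) * (φ b * (φ x + 1)) := by simp only [mul_assoc]
    _ = (φ x + φ x⁻¹) * (φ a * ((φ x + 1) * (φ b * (φ x + 1)))) := by rw [← c]; simp only [mul_assoc]
    _ = 0 := e

/-- `X a X b T = 0` -/
theorem pC5'' (x a b : Γ) : (φ x + 1) * (φ a * ((φ x + 1) * (φ b * (φ x + φ x⁻¹)))) = 0 := by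
  rw [← pC2 φ h2 hc x b]
  exact pC5' φ h2 hc x a b

/-- the law (BB) for `p = z⁻¹ X z`, `q = T` -/
theorem R3T (x z u : Γ) : φ u * (φ z⁻¹ * ((φ x + 1) * (φ z * (φ x + φ x⁻¹))) * φ u)
    + φ z⁻¹ * ((φ x + 1) * (φ (z * u⁻¹) * (φ x + φ x⁻¹)))
    + φ u⁻¹ * ((φ x + 1) * (φ z⁻¹ * (φ x + φ x⁻¹)) * φ z)
    + (φ x + 1) * (φ z⁻¹ * (φ x + φ x⁻¹)) * φ z * φ u⁻¹
    + (φ x + 1) * (φ (u⁻¹ * z⁻¹) * (φ x + φ x⁻¹)) * φ z
    + (φ x + 1) * (φ z⁻¹ * (φ x + φ x⁻¹)) * φ z = 0 := by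
  have zz : φ z * φ z⁻¹ = 1 := mul_inv' φ z
  have zz' : φ z⁻¹ * φ z = 1 := inv_mul' φ z
  obtain ⟨X, hX⟩ : ∃ X, X = φ x + 1 := ⟨_, rfl⟩
  obtain ⟨T, hT⟩ : ∃ T, T = φ x + φ x⁻¹ := ⟨_, rfl⟩
  have hy : φ (z⁻¹ * x * z) = 1 + φ z⁻¹ * X * φ z := by
    have e : φ (z⁻¹ * x * z) = φ z⁻¹ * φ z + φ z⁻¹ * X * φ z - (φ z⁻¹ * φ z + φ z⁻¹ * φ z) + φ z⁻¹ * φ z - φ z⁻¹ * φ z := by
      rw [map_mul, map_mul, hX]
      noncomm_ring
    rw [e, h2, zz', sub_zero, add_sub_cancel_right]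
  have XX : X * X = T := by rw [hX, hT]; exact pT φ h2 hc x
  have hy' : φ (z⁻¹ * x * z)⁻¹ = 1 + φ z⁻¹ * X * φ z + (φ z⁻¹ * X * φ z) * (φ z⁻¹ * X * φ z) := by
    have e := pcub φ h2 hc (z⁻¹ * x * z)
    rw [hy] at e
    have e1 : φ (z⁻¹ * x * z)⁻¹ = ((1 + φ z⁻¹ * X * φ z) * (1 + φ z⁻¹ * X * φ z) + 1 + (1 + φ z⁻¹ * X * φ z) +
        φ (z⁻¹ * x * z)⁻¹) - (1 + φ z⁻¹ * X * φ z + (φ z⁻¹ * X * φ z) * (φ z⁻¹ * X * φ z))
        - (1 + 1) - ((φ z⁻¹ * X * φ z) + (φ z⁻¹ * X * φ z)) := by noncomm_ring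
    rw [e1, e, h2, h2, zero_sub, sub_zero, sub_zero, ng h2]
  have F0 := plinT φ h2 hc x u
  have F1 := plinT φ h2 hc x (u * (z⁻¹ * x * z))
  rw [mul_inv_rev, map_mul φ u, map_mul φ (z⁻¹ * x * z)⁻¹, hy, hy', ← hT] at F1
  rw [← hT] at F0
  have Lm := plam φ h2 hc (z⁻¹ * x * z) u⁻¹
  have YY : (φ z⁻¹ * X * φ z) * (φ z⁻¹ * X * φ z) = φ z⁻¹ * T * φ z := by
    calc _ = φ z⁻¹ * (X * (φ z * φ z⁻¹) * X) * φ z := by noncomm_ring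
      _ = _ := by rw [zz, mul_one, XX]
  have lam : (φ z⁻¹ * X * φ z) * (φ u⁻¹ * (φ z⁻¹ * X * φ z)) = (φ z⁻¹ * X * φ z) + (φ u⁻¹ * (φ z⁻¹ * X * φ z) +
      ((φ z⁻¹ * X * φ z) * φ u⁻¹ + (φ u * ((φ z⁻¹ * X * φ z) * φ u) +
        φ u * ((φ z⁻¹ * X * φ z) * (φ z⁻¹ * X * φ z) * φ u)))) := by
    have e1 : φ (z⁻¹ * x * z) + 1 = φ z⁻¹ * X * φ z := by
      rw [hy, add_comm (1 : R), add_assoc, h2, add_zero]
    have e2 : φ (z⁻¹ * x * z) + φ (z⁻¹ * x * z)⁻¹ = (φ z⁻¹ * X * φ z) * (φ z⁻¹ * X * φ z) := by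
      rw [← pT φ h2 hc, e1]
    rw [e1, e2, inv_inv] at Lm
    exact Lm
  have c5 := fun a b : Γ => pC5 φ h2 hc x a b
  have c5' := fun a b : Γ => pC5' φ h2 hc x a b
  have c3 := fun a : Γ => pC3 φ h2 hc x a
  have c2 := fun a : Γ => pC2 φ h2 hc x a
  simp only [← hX, ← hT] at c5 c5' c3 c2 ⊢
  have f1 : (φ z⁻¹ * X * φ z) * φ u⁻¹ * T * (φ z⁻¹ * X * φ z) = 0 := by
    calc _ = φ z⁻¹ * (X * (φ (z * u⁻¹) * (T * (φ z⁻¹ * X)))) * φ z := by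
          rw [map_mul]; simp only [mul_assoc]
      _ = 0 := by rw [c5', mul_zero, zero_mul]
  have f2 : (φ z⁻¹ * X * φ z) * (φ z⁻¹ * X * φ z) * φ u⁻¹ * T = 0 := by
    calc _ = φ z⁻¹ * (T * (φ (z * u⁻¹) * T)) := by
          rw [YY, map_mul]; simp only [mul_assoc]
      _ = 0 := by rw [c3, mul_zero]
  have f3 : T * (φ z⁻¹ * X * φ z) * (φ z⁻¹ * X * φ z) = 0 := by
    calc _ = (T * (φ z⁻¹ * T)) * φ z := by
          rw [mul_assoc, YY]; simp only [mul_assoc]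
      _ = 0 := by rw [c3, zero_mul]
  have f4 : T * (φ z⁻¹ * X * φ z) * φ u⁻¹ * (φ z⁻¹ * X * φ z) = 0 := by
    calc _ = (T * (φ z⁻¹ * (X * (φ (z * u⁻¹ * z⁻¹) * X)))) * φ z := by
          rw [map_mul, map_mul]; simp only [mul_assoc]
      _ = 0 := by rw [c5, zero_mul]
  have f5 : T * φ u * (φ z⁻¹ * X * φ z) * (φ z⁻¹ * X * φ z) = 0 := by
    calc _ = (T * (φ (u * z⁻¹) * T)) * φ z := by
          rw [mul_assoc, YY, map_mul]; simp only [mul_assoc]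
      _ = 0 := by rw [c3, zero_mul]
  have key := alg3 h2 (inv_mul' φ u) F0 F1 f1 f2 f3 f4 f5 lam
  have k1 : T * (φ z⁻¹ * X) = X * (φ z⁻¹ * T) := c2 z⁻¹
  have k2 : T * (φ (u⁻¹ * z⁻¹) * X) = X * (φ (u⁻¹ * z⁻¹) * T) := c2 _
  have k3 : φ (u⁻¹ * z⁻¹) = φ u⁻¹ * φ z⁻¹ := map_mul _ _ _
  have k4 : φ (z * u⁻¹) = φ z * φ u⁻¹ := map_mul _ _ _
  rw [← key, ← k1, ← k2, k3, k4]
  noncomm_ring

variable (x : Γ) (hW : ∀ g : Γ, (φ x + 1) * ((φ g + φ g⁻¹) * (φ x + φ x⁻¹)) = 0)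
include hW

theorem third_inv (g : Γ) : (φ x + 1) * (φ g⁻¹ * (φ x + φ x⁻¹)) = (φ x + 1) * (φ g * (φ x + φ x⁻¹)) := by
  have e : (φ x + 1) * (φ g * (φ x + φ x⁻¹)) + (φ x + 1) * (φ g⁻¹ * (φ x + φ x⁻¹)) = 0 := by
    rw [← mul_add, ← add_mul]
    exact hW g
  exact (lc2 h2 (rfl : (0 : R) = 0) (by rw [add_zero, add_zero]; exact e)).symm

theorem third_K (g : Γ) : φ g * ((φ x + 1) * (φ g * (φ x + φ x⁻¹))) = (φ x + 1) * (φ g * (φ x + φ x⁻¹)) := by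
  rw [← pC4b φ h2 hc, third_inv φ h2 hc x hW]

/-- the laws of the third layer -/
theorem third_all (a z : Γ) :
    (φ a * (φ a * ((φ x + 1) * (φ z * (φ x + φ x⁻¹)))) = (φ x + 1) * (φ z * (φ x + φ x⁻¹))) ∧
    ((φ x + 1) * (φ z * (φ x + φ x⁻¹)) * φ a * φ a = (φ x + 1) * (φ z * (φ x + φ x⁻¹))) ∧
    ((φ x + 1) * (φ (a * z) * (φ x + φ x⁻¹)) = (φ x + 1) * (φ (a⁻¹ * z) * (φ x + φ x⁻¹))) ∧
    (φ a * ((φ x + 1) * (φ z * (φ x + φ x⁻¹))) = (φ x + 1) * (φ z * (φ x + φ x⁻¹)) * φ a) ∧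
    (φ a * ((φ x + 1) * (φ z * (φ x + φ x⁻¹))) + (φ x + 1) * (φ z * (φ x + φ x⁻¹)) =
      φ z * ((φ x + 1) * (φ a * (φ x + φ x⁻¹))) + (φ x + 1) * (φ a * (φ x + φ x⁻¹))) := by
  refine G123R φ h2 (fun g => pcub φ h2 hc g) (fun v => (φ x + 1) * (φ v * (φ x + φ x⁻¹)))
    (fun g => third_K φ h2 hc x hW g) (fun g => ?_) (fun g w => ?_) (fun g w => ?_) ?_ (fun u v => ?_) a z
  · have e := pC4a φ h2 hc x g
    rw [third_inv φ h2 hc x hW] at e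
    refine Eq.trans ?_ e.symm
    simp only [mul_assoc]
  · have l := plinT φ h2 hc x g⁻¹
    rw [inv_inv] at l
    have e : φ g * ((φ x + 1) * (φ (g * w) * (φ x + φ x⁻¹))) + (φ x + 1) * (φ (g⁻¹ * w) * (φ x + φ x⁻¹)) +
        (φ g⁻¹ * ((φ x + 1) * (φ w * (φ x + φ x⁻¹))) + (φ x + 1) * (φ w * (φ x + φ x⁻¹))) =
        ((φ x + φ x⁻¹) * φ g⁻¹ + (φ g⁻¹ * (φ x + φ x⁻¹) + ((φ x + φ x⁻¹) +
          φ g * ((φ x + φ x⁻¹) * φ g)))) * (φ w * (φ x + 1)) := by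
      rw [← pC2 φ h2 hc, ← pC2 φ h2 hc, ← pC2 φ h2 hc, map_mul, map_mul]
      noncomm_ring
    rw [l, zero_mul] at e
    exact lc2 h2 (rfl : (0 : R) = 0) (by rw [add_zero, add_zero]; exact e)
  · have l := plinT φ h2 hc x g⁻¹
    rw [inv_inv] at l
    have e : (φ x + 1) * (φ (w * g) * (φ x + φ x⁻¹)) * φ g + (φ x + 1) * (φ (w * g⁻¹) * (φ x + φ x⁻¹)) +
        ((φ x + 1) * (φ w * (φ x + φ x⁻¹)) * φ g⁻¹ + (φ x + 1) * (φ w * (φ x + φ x⁻¹))) =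
        ((φ x + 1) * φ w) * ((φ x + φ x⁻¹) * φ g⁻¹ + (φ g⁻¹ * (φ x + φ x⁻¹) + ((φ x + φ x⁻¹) +
          φ g * ((φ x + φ x⁻¹) * φ g)))) := by
      rw [map_mul, map_mul]
      noncomm_ring
    rw [l, mul_zero] at e
    exact lc2 h2 (rfl : (0 : R) = 0) (by rw [add_zero, add_zero]; exact e)
  · show (φ x + 1) * (φ 1 * (φ x + φ x⁻¹)) = 0
    rw [map_one, one_mul, ← pT φ h2 hc x, ← hc x]
    noncomm_ring
  · exact R3T φ h2 hc x v u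

end third

end E4.G64
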