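import Pool.Agent.Lib.MP_8a95e3_al.I64a

/-!
# I64b : the laws (G1), (G2), (G3) for the second layer and for bilinear elements (helper64)
-/

set_option linter.unusedSectionVars false

namespace E4.G64

section second
variable {Γ R : Type*} [Group Γ] [Ring R] (φ : Γ →* R)
    (h2 : ∀ r : R, r + r = 0) (hc : ∀ g : Γ, (φ g + 1) ^ 3 = 0)
    (x : Γ) (hX : (φ x + 1) * (φ x + 1) = 0)
    (hI : ∀ a b : Γ, (φ x + 1) * (φ a * ((φ x + 1) * (φ b * (φ x + 1)))) = 0)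

theorem eq_of_sum {R : Type*} [Ring R] (h2 : ∀ r : R, r + r = 0) {a b : R} (h : a + b = 0) : a = b :=
  lc2 h2 (rfl : (0 : R) = 0) (by rw [add_zero, add_zero]; exact h)

include h2 hc hX hI

/-- the law (BB) for `p = z⁻¹ X z`, `q = X` -/
theorem R3X (z u : Γ) : φ u * (φ z⁻¹ * ((φ x + 1) * (φ z * (φ x + 1))) * φ u)
    + φ z⁻¹ * ((φ x + 1) * (φ (z * u⁻¹) * (φ x + 1)))
    + φ u⁻¹ * ((φ x + 1) * (φ z⁻¹ * (φ x + 1)) * φ z)
    + (φ x + 1) * (φ z⁻¹ * (φ x + 1)) * φ z * φ u⁻¹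
    + (φ x + 1) * (φ (u⁻¹ * z⁻¹) * (φ x + 1)) * φ z
    + (φ x + 1) * (φ z⁻¹ * (φ x + 1)) * φ z = 0 := by
  have zz : φ z * φ z⁻¹ = 1 := mul_inv' φ z
  have zz' : φ z⁻¹ * φ z = 1 := inv_mul' φ z
  have hT : φ x + φ x⁻¹ = 0 := by rw [← pT φ h2 hc x, hX]
  have lx := plam φ h2 hc x u⁻¹
  have ly := plam φ h2 hc (z⁻¹ * x * z) u⁻¹
  have cu := pcub φ h2 hc u
  have cx := pcub φ h2 hc (u * x)
  have cy := pcub φ h2 hc (u * (z⁻¹ * x * z))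
  have ct := pcub φ h2 hc (u * (z⁻¹ * x * z) * x)
  have hx' : φ x⁻¹ = φ x := (eq_of_sum h2 hT).symm
  obtain ⟨q, hq⟩ : ∃ q, q = φ x + 1 := ⟨_, rfl⟩
  obtain ⟨p, hp⟩ : ∃ p, p = φ z⁻¹ * q * φ z := ⟨_, rfl⟩
  have hx1 : φ x = 1 + q := by
    rw [hq, add_comm (φ x) 1, ← add_assoc, h2, zero_add]
  have hy : φ (z⁻¹ * x * z) = 1 + p := by
    rw [map_mul, map_mul, hx1, hp, mul_add, mul_one, add_mul, zz']
  have hy' : φ (z⁻¹ * x * z)⁻¹ = 1 + p := by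
    have e : (z⁻¹ * x * z)⁻¹ = z⁻¹ * x⁻¹ * z := by
      rw [mul_inv_rev, mul_inv_rev, inv_inv, mul_assoc]
    rw [e, map_mul, map_mul, hx', hx1, hp, mul_add, mul_one, add_mul, zz']
  have hI' : ∀ a b : Γ, q * (φ a * (q * (φ b * q))) = 0 := by rw [hq]; exact hI
  rw [hT, zero_mul, mul_zero, add_zero, inv_inv, ← hq] at lx
  rw [hy, hy', inv_inv, h2, zero_mul, mul_zero, add_zero] at ly
  have e1 : 1 + p + 1 = p := by rw [add_comm (1 : R) p, add_assoc, h2, add_zero]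
  rw [e1] at ly
  rw [mul_inv_rev, map_mul φ u, map_mul φ x⁻¹, hx', hx1] at cx
  rw [mul_inv_rev, map_mul φ u, map_mul φ (z⁻¹ * x * z)⁻¹, hy, hy'] at cy
  rw [mul_inv_rev, mul_inv_rev, map_mul φ (u * (z⁻¹ * x * z)) x, map_mul φ u (z⁻¹ * x * z),
    map_mul φ x⁻¹, map_mul φ (z⁻¹ * x * z)⁻¹, hx', hx1, hy, hy'] at ct
  have g1 : p * q * φ u * p = 0 := by
    calc _ = φ z⁻¹ * (q * (φ z * (q * (φ (u * z⁻¹) * q)))) * φ z := by
          rw [hp, map_mul]; simp only [mul_assoc]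
      _ = 0 := by rw [hI', mul_zero, zero_mul]
  have g2 : p * q * φ u * q = 0 := by
    calc _ = φ z⁻¹ * (q * (φ z * (q * (φ u * q)))) := by
          rw [hp]; simp only [mul_assoc]
      _ = 0 := by rw [hI', mul_zero]
  have g3 : p * φ u * p * q = 0 := by
    calc _ = φ z⁻¹ * (q * (φ (z * u * z⁻¹) * (q * (φ z * q)))) := by
          rw [hp, map_mul, map_mul]; simp only [mul_assoc]
      _ = 0 := by rw [hI', mul_zero]
  have g4 : q * φ u * p * q = 0 := by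
    calc _ = q * (φ (u * z⁻¹) * (q * (φ z * q))) := by
          rw [hp, map_mul]; simp only [mul_assoc]
      _ = 0 := by rw [hI']
  have g5 : p * φ u⁻¹ * p * q = 0 := by
    calc _ = φ z⁻¹ * (q * (φ (z * u⁻¹ * z⁻¹) * (q * (φ z * q)))) := by
          rw [hp, map_mul, map_mul]; simp only [mul_assoc]
      _ = 0 := by rw [hI', mul_zero]
  have g6 : q * φ u⁻¹ * q * p = 0 := by
    calc _ = q * (φ u⁻¹ * (q * (φ z⁻¹ * q))) * φ z := by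
          rw [hp]; simp only [mul_assoc]
      _ = 0 := by rw [hI', zero_mul]
  have E1 : φ u * p * q * φ u + φ u * p * φ u * q + φ u * q * φ u * p + φ u * φ u * p * q + φ u * p * q +
      q * p * φ u⁻¹ = 0 := by
    have e : φ u * p * q * φ u + φ u * p * φ u * q + φ u * q * φ u * p + φ u * φ u * p * q + φ u * p * q +
      q * p * φ u⁻¹ = (φ u * (1 + p) * (1 + q) * (φ u * (1 + p) * (1 + q)) + 1 + φ u * (1 + p) * (1 + q) +
        (1 + q) * ((1 + p) * φ u⁻¹)) - (φ u * (1 + p) * (φ u * (1 + p)) + 1 + φ u * (1 + p) + (1 + p) * φ u⁻¹)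
        - (φ u * (1 + q) * (φ u * (1 + q)) + 1 + φ u * (1 + q) + (1 + q) * φ u⁻¹)
        + (φ u * φ u + 1 + φ u + φ u⁻¹) - φ u * (p * q * φ u * p) - φ u * (p * q * φ u * q)
        - φ u * (p * φ u * p * q) - φ u * (q * φ u * p * q) - φ u * (p * q * φ u * p) * q := by noncomm_ring
    rw [e, ct, cx, cy, cu, g1, g2, g3, g4]
    simp
  have lp : φ u * p * φ u * q = p * φ u⁻¹ * q + φ u⁻¹ * p * q + p * q := by
    have e : φ u * p * φ u * q = (p + (φ u⁻¹ * p + (p * φ u⁻¹ + φ u * (p * φ u)))) * q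
        + (p * φ u⁻¹ * q + φ u⁻¹ * p * q + p * q) - (p * q + p * q) - (φ u⁻¹ * p * q + φ u⁻¹ * p * q)
        - (p * φ u⁻¹ * q + p * φ u⁻¹ * q) := by noncomm_ring
    rw [e, ← ly, h2, h2, h2]
    have e3 : p * (φ u⁻¹ * p) * q = p * φ u⁻¹ * p * q := by simp only [mul_assoc]
    rw [e3, g5]
    simp
  have lq : φ u * q * φ u * p = q * φ u⁻¹ * p + φ u⁻¹ * q * p + q * p := by
    have e : φ u * q * φ u * p = (q + (φ u⁻¹ * q + (q * φ u⁻¹ + φ u * (q * φ u)))) * p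
        + (q * φ u⁻¹ * p + φ u⁻¹ * q * p + q * p) - (q * p + q * p) - (φ u⁻¹ * q * p + φ u⁻¹ * q * p)
        - (q * φ u⁻¹ * p + q * φ u⁻¹ * p) := by noncomm_ring
    rw [e, ← lx, h2, h2, h2]
    have e3 : q * (φ u⁻¹ * q) * p = q * φ u⁻¹ * q * p := by simp only [mul_assoc]
    rw [e3, g6]
    simp
  have uu : φ u * φ u * p * q = p * q + φ u * p * q + φ u⁻¹ * p * q := by
    have e : φ u * φ u * p * q = (φ u * φ u + 1 + φ u + φ u⁻¹) * p * q + (p * q + φ u * p * q + φ u⁻¹ * p * q)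
        - (p * q + p * q) - (φ u * p * q + φ u * p * q) - (φ u⁻¹ * p * q + φ u⁻¹ * p * q) := by noncomm_ring
    rw [e, cu, h2, h2, h2]
    simp
  have key := alg2 h2 E1 lp lq uu
  rw [← hq] at *
  have k3 : φ (u⁻¹ * z⁻¹) = φ u⁻¹ * φ z⁻¹ := map_mul _ _ _
  have k4 : φ (z * u⁻¹) = φ z * φ u⁻¹ := map_mul _ _ _
  rw [← key, k3, k4, hp]
  noncomm_ring

theorem second_K (g : Γ) : φ g * ((φ x + 1) * (φ g * (φ x + 1))) = (φ x + 1) * (φ g * (φ x + 1)) := by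
  have e := pK2 φ h2 hc x g
  rw [← pT φ h2 hc x, hX, zero_mul, mul_zero, add_zero, add_zero, add_mul, one_mul] at e
  exact eq_of_sum h2 e

/-- the laws of the second layer -/
theorem second_all (a z : Γ) :
    (φ a * (φ a * ((φ x + 1) * (φ z * (φ x + 1)))) = (φ x + 1) * (φ z * (φ x + 1))) ∧
    ((φ x + 1) * (φ z * (φ x + 1)) * φ a * φ a = (φ x + 1) * (φ z * (φ x + 1))) ∧
    ((φ x + 1) * (φ (a * z) * (φ x + 1)) = (φ x + 1) * (φ (a⁻¹ * z) * (φ x + 1))) ∧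
    (φ a * ((φ x + 1) * (φ z * (φ x + 1))) = (φ x + 1) * (φ z * (φ x + 1)) * φ a) ∧
    (φ a * ((φ x + 1) * (φ z * (φ x + 1))) + (φ x + 1) * (φ z * (φ x + 1)) =
      φ z * ((φ x + 1) * (φ a * (φ x + 1))) + (φ x + 1) * (φ a * (φ x + 1))) := by
  have hT : φ x + φ x⁻¹ = 0 := by rw [← pT φ h2 hc x, hX]
  refine G123R φ h2 (fun g => pcub φ h2 hc g) (fun v => (φ x + 1) * (φ v * (φ x + 1)))
    (fun g => second_K φ h2 hc x hX hI g) (fun g => ?_) (fun g w => ?_) (fun g w => ?_) ?_ (fun u v => ?_) a z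
  · have e := pK2r φ h2 hc x g
    rw [← pT φ h2 hc x, hX, zero_mul, mul_zero, add_zero, add_zero, mul_add, mul_one] at e
    exact eq_of_sum h2 e
  · have l := plam φ h2 hc x g⁻¹
    rw [inv_inv, hT, zero_mul, mul_zero, add_zero] at l
    have e : φ g * ((φ x + 1) * (φ (g * w) * (φ x + 1))) + (φ x + 1) * (φ (g⁻¹ * w) * (φ x + 1)) +
        (φ g⁻¹ * ((φ x + 1) * (φ w * (φ x + 1))) + (φ x + 1) * (φ w * (φ x + 1))) =
        ((φ x + 1) + (φ g⁻¹ * (φ x + 1) + ((φ x + 1) * φ g⁻¹ + φ g * ((φ x + 1) * φ g)))) * (φ w * (φ x + 1)) := by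
      rw [map_mul, map_mul]
      noncomm_ring
    rw [← l] at e
    have e2 : (φ x + 1) * (φ g⁻¹ * (φ x + 1)) * (φ w * (φ x + 1)) =
        (φ x + 1) * (φ g⁻¹ * ((φ x + 1) * (φ w * (φ x + 1)))) := by simp only [mul_assoc]
    rw [e2, hI] at e
    exact eq_of_sum h2 e
  · have l := plam φ h2 hc x g⁻¹
    rw [inv_inv, hT, zero_mul, mul_zero, add_zero] at l
    have e : (φ x + 1) * (φ (w * g) * (φ x + 1)) * φ g + (φ x + 1) * (φ (w * g⁻¹) * (φ x + 1)) +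
        ((φ x + 1) * (φ w * (φ x + 1)) * φ g⁻¹ + (φ x + 1) * (φ w * (φ x + 1))) =
        ((φ x + 1) * φ w) * ((φ x + 1) + (φ g⁻¹ * (φ x + 1) + ((φ x + 1) * φ g⁻¹ + φ g * ((φ x + 1) * φ g)))) := by
      rw [map_mul, map_mul]
      noncomm_ring
    rw [← l] at e
    have e2 : (φ x + 1) * φ w * ((φ x + 1) * (φ g⁻¹ * (φ x + 1))) =
        (φ x + 1) * (φ w * ((φ x + 1) * (φ g⁻¹ * (φ x + 1)))) := by simp only [mul_assoc]
    rw [e2, hI] at e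
    exact eq_of_sum h2 e
  · show (φ x + 1) * (φ 1 * (φ x + 1)) = 0
    rw [map_one, one_mul, hX]
  · exact R3X φ h2 hc x hX hI v u

theorem second_inv (g : Γ) : (φ x + 1) * (φ g⁻¹ * (φ x + 1)) = (φ x + 1) * (φ g * (φ x + 1)) := by
  have e := (second_all φ h2 hc x hX hI g 1).2.2.1
  rw [mul_one, mul_one] at e
  exact e.symm

end second

section bilin
variable {Γ R : Type*} [Group Γ] [Ring R] (φ : Γ →* R)
    (h2 : ∀ r : R, r + r = 0) (hc : ∀ g : Γ, (φ g + 1) ^ 3 = 0)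
    {Y Z : R} (hY : E4.RC.PL (Gr φ) Y) (hZ : E4.RC.PL (Gr φ) Z)
    (sym : ∀ v : Γ, Y * (φ v * Z) = Z * (φ v * Y)) (h0 : Y * Z = 0)
    (ht : ∀ g : Γ, Y * Z * φ g + φ g⁻¹ * Z * Y + φ g⁻¹ * Y * φ g * Z + Z * φ g⁻¹ * Y * φ g = 0)

theorem PL_conj {p : R} (hp : E4.RC.PL (Gr φ) p) (z : Γ) : E4.RC.PL (Gr φ) (φ z⁻¹ * p * φ z) := by
  obtain ⟨u, ⟨g, hg⟩, hu⟩ := hp.mem
  refine ⟨fun r => ?_, MonoidHom.toHomUnits φ (z⁻¹ * g * z), Gr_mem φ _, ?_⟩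
  · have e : φ z⁻¹ * p * φ z * r * (φ z⁻¹ * p * φ z) = φ z⁻¹ * (p * (φ z * r * φ z⁻¹) * p) * φ z := by
      simp only [mul_assoc]
    rw [e, hp.sq, mul_zero, zero_mul]
  · have e : φ g = 1 + p := by rw [← hu, ← hg]; rfl
    rw [th_val, map_mul, map_mul, e, mul_add, mul_one, add_mul, inv_mul']

include h2 hc hY hZ sym h0 ht

theorem bil_L (g w : Γ) : φ g * (Y * (φ (g * w) * Z)) + Y * (φ (g⁻¹ * w) * Z) =
    φ g⁻¹ * (Y * (φ w * Z)) + Y * (φ w * Z) := by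
  have l := E4.RC.lin_of h2 (Gr_cube φ hc) hY (Gr_mem φ g⁻¹)
  rw [th_inv, th_val, inv_inv] at l
  have e : φ g * (Y * (φ (g * w) * Z)) + Y * (φ (g⁻¹ * w) * Z) +
        (φ g⁻¹ * (Y * (φ w * Z)) + Y * (φ w * Z)) =
        (Y * φ g⁻¹ + φ g⁻¹ * Y + Y + φ g * Y * φ g) * (φ w * Z) := by
    rw [map_mul, map_mul]
    noncomm_ring
  rw [l, zero_mul] at e
  exact eq_of_sum h2 e

theorem bil_L' (g w : Γ) : Y * (φ (w * g) * Z) * φ g + Y * (φ (w * g⁻¹) * Z) =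
    Y * (φ w * Z) * φ g⁻¹ + Y * (φ w * Z) := by
  have l := E4.RC.lin_of h2 (Gr_cube φ hc) hZ (Gr_mem φ g⁻¹)
  rw [th_inv, th_val, inv_inv] at l
  have e : Y * (φ (w * g) * Z) * φ g + Y * (φ (w * g⁻¹) * Z) +
        (Y * (φ w * Z) * φ g⁻¹ + Y * (φ w * Z)) =
        (Y * φ w) * (Z * φ g⁻¹ + φ g⁻¹ * Z + Z + φ g * Z * φ g) := by
    rw [map_mul, map_mul]
    noncomm_ring
  rw [l, mul_zero] at e
  exact eq_of_sum h2 e

theorem bil_inv (g : Γ) : Y * (φ g⁻¹ * Z) = φ g * (Y * (φ g * Z)) := by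
  have e := bil_L φ h2 hc hY hZ sym h0 ht g 1
  rw [mul_one, mul_one, map_one, one_mul, h0, mul_zero, add_zero] at e
  exact (eq_of_sum h2 e).symm

theorem bil_inv' (g : Γ) : Y * (φ g⁻¹ * Z) = Y * (φ g * Z) * φ g := by
  have e := bil_L' φ h2 hc hY hZ sym h0 ht g 1
  rw [one_mul, one_mul, map_one, one_mul, h0, zero_mul, add_zero] at e
  exact (eq_of_sum h2 e).symm

theorem bil_K (g : Γ) : φ g * (Y * (φ g * Z)) = Y * (φ g * Z) := by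
  have t := ht g
  have h0' : Z * Y = 0 := by
    have := sym 1
    rw [map_one, one_mul, one_mul, h0] at this
    exact this.symm
  rw [h0, zero_mul, zero_add, mul_assoc (φ g⁻¹) Z Y, h0', mul_zero, zero_add] at t
  have e1 : φ g⁻¹ * Y * φ g * Z = φ g⁻¹ * (Y * (φ g * Z)) := by simp only [mul_assoc]
  have e2 : Z * φ g⁻¹ * Y * φ g = φ g * (φ g * (Y * (φ g * Z))) := by
    calc _ = Z * (φ g⁻¹ * Y) * φ g := by simp only [mul_assoc]
      _ = Y * (φ g⁻¹ * Z) * φ g := by rw [sym]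
      _ = φ g * (Y * (φ g * Z) * φ g) := by
        rw [bil_inv φ h2 hc hY hZ sym h0 ht g]; simp only [mul_assoc]
      _ = _ := by rw [← bil_inv' φ h2 hc hY hZ sym h0 ht g, bil_inv φ h2 hc hY hZ sym h0 ht g]
  rw [e1, e2] at t
  have c := pcub φ h2 hc g
  have e3 : φ g * (Y * (φ g * Z)) + Y * (φ g * Z) =
      (φ g * φ g + 1 + φ g + φ g⁻¹) * (Y * (φ g * Z)) -
        (φ g⁻¹ * (Y * (φ g * Z)) + φ g * (φ g * (Y * (φ g * Z)))) := by noncomm_ring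
  rw [c, t, zero_mul, sub_zero] at e3
  exact eq_of_sum h2 e3

theorem bil_K' (g : Γ) : Y * (φ g * Z) * φ g = Y * (φ g * Z) := by
  rw [← bil_inv' φ h2 hc hY hZ sym h0 ht, bil_inv φ h2 hc hY hZ sym h0 ht, bil_K φ h2 hc hY hZ sym h0 ht]

/-- the laws of the bilinear elements -/
theorem bil_all (a z : Γ) :
    (φ a * (φ a * (Y * (φ z * Z))) = Y * (φ z * Z)) ∧
    (Y * (φ z * Z) * φ a * φ a = Y * (φ z * Z)) ∧
    (Y * (φ (a * z) * Z) = Y * (φ (a⁻¹ * z) * Z)) ∧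
    (φ a * (Y * (φ z * Z)) = Y * (φ z * Z) * φ a) ∧
    (φ a * (Y * (φ z * Z)) + Y * (φ z * Z) = φ z * (Y * (φ a * Z)) + Y * (φ a * Z)) := by
  refine G123R φ h2 (fun g => pcub φ h2 hc g) (fun v => Y * (φ v * Z))
    (fun g => bil_K φ h2 hc hY hZ sym h0 ht g) (fun g => bil_K' φ h2 hc hY hZ sym h0 ht g)
    (fun g w => bil_L φ h2 hc hY hZ sym h0 ht g w) (fun g w => bil_L' φ h2 hc hY hZ sym h0 ht g w)
    ?_ (fun u v => ?_) a z
  · show Y * (φ 1 * Z) = 0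
    rw [map_one, one_mul, h0]
  · have e := E4.RC.D_BB h2 (Gr_cube φ hc) (Gr_mem φ u) (PL_conj φ hY v) hZ
    rw [th_inv, th_val] at e
    have k1 : Z * (φ v⁻¹ * Y) = Y * (φ v⁻¹ * Z) := (sym _).symm
    have k2 : Z * (φ (u⁻¹ * v⁻¹) * Y) = Y * (φ (u⁻¹ * v⁻¹) * Z) := (sym _).symm
    have k3 : φ (u⁻¹ * v⁻¹) = φ u⁻¹ * φ v⁻¹ := map_mul _ _ _
    have k4 : φ (v * u⁻¹) = φ v * φ u⁻¹ := map_mul _ _ _
    show φ u * (φ v⁻¹ * (Y * (φ v * Z)) * φ u) + φ v⁻¹ * (Y * (φ (v * u⁻¹) * Z)) +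
      φ u⁻¹ * (Y * (φ v⁻¹ * Z) * φ v) + Y * (φ v⁻¹ * Z) * φ v * φ u⁻¹ + Y * (φ (u⁻¹ * v⁻¹) * Z) * φ v +
      Y * (φ v⁻¹ * Z) * φ v = 0
    rw [← e, ← k1, ← k2, k3, k4]
    noncomm_ring

end bilin

end E4.G64
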