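import Pool.Agent.Lib.MP_8a95e3_al.X12a

/-!
# I64v : `VA` is a two-sided ideal (helper64; the proofs are those of X12a)
-/

noncomputable section

namespace E4.X

open E4

private theorem V64_cm {y j : ℕ} (hj : j ≠ y) (a : F) (h : rp y 1 a = a) : rp y 1 (rp j 1 a) = rp j 1 a := by
  have e : (rp y 1).comp (rp j 1) = (rp j 1).comp (rp y 1) := by
    refine hom_ext fun i => ?_
    rw [MonoidHom.comp_apply, MonoidHom.comp_apply, rp_x, rp_x]
    by_cases h1 : i = j
    · rw [if_pos h1, map_one, if_neg (by rw [h1]; exact hj), rp_x, if_pos h1]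
    · rw [if_neg h1, rp_x]
      by_cases h2 : i = y
      · rw [if_pos h2, map_one]
      · rw [if_neg h2, rp_x, if_neg h1]
  have h3 := congrArg (fun φ : F →* F => φ a) e
  simp only [MonoidHom.comp_apply] at h3
  rw [h3, h]

private theorem V64_e (a b c : FB) : a + c = (b + c) + (a + b) := by
  have h : (b + c) + (a + b) = a + c + (b + b) := by abel
  rw [h, fb_add_self, add_zero]

/-- the letters `y`, `z` are killed -/
private def V64_f (y z : ℕ) (g : F) : F := rp y 1 (rp z 1 g)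

private theorem V64_rr (y : ℕ) (a : F) : rp y 1 (rp y 1 a) = rp y 1 a := by
  have e : (rp y 1).comp (rp y 1) = rp y 1 := by
    refine hom_ext fun i => ?_
    rw [MonoidHom.comp_apply, rp_x]
    by_cases h1 : i = y
    · rw [if_pos h1, map_one]
    · rw [if_neg h1, rp_x, if_neg h1]
  have h3 := congrArg (fun φ : F →* F => φ a) e
  simp only [MonoidHom.comp_apply] at h3
  exact h3

private theorem V64_fr {y z : ℕ} (hyz : y ≠ z) (g : F) : Fr y z (V64_f y z g) :=
  ⟨V64_rr y _, V64_cm hyz (rp z 1 g) (V64_rr z g)⟩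

private theorem V64_fox (y z : ℕ) (g : F) : o g + o (V64_f y z g) ∈ I1 y ⊔ I1 z := by
  have h1 := fox z g
  have h2 := fox y (rp z 1 g)
  have h3 : o g + o (V64_f y z g) = (o (rp z 1 g) + o (rp y 1 (rp z 1 g))) + (o g + o (rp z 1 g)) :=
    V64_e _ _ _
  rw [h3]
  exact AddSubgroup.mem_sup.2 ⟨_, h2, _, h1, rfl⟩

private theorem V64_ml {y z : ℕ} {u r : FB} (hu : u ∈ I1 y ⊔ I1 z) (h1 : r ∈ I1 y) (h2 : r ∈ I1 z) :
    u * r ∈ I2 y ⊔ I2 z := by
  obtain ⟨a, ha, b, hb, rfl⟩ := AddSubgroup.mem_sup.1 hu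
  rw [add_mul]
  exact AddSubgroup.mem_sup.2 ⟨_, mul_I1_I1 ha h1, _, mul_I1_I1 hb h2, rfl⟩

private theorem V64_mr {y z : ℕ} {u r : FB} (hu : u ∈ I1 y ⊔ I1 z) (h1 : r ∈ I1 y) (h2 : r ∈ I1 z) :
    r * u ∈ I2 y ⊔ I2 z := by
  obtain ⟨a, ha, b, hb, rfl⟩ := AddSubgroup.mem_sup.1 hu
  rw [mul_add]
  exact AddSubgroup.mem_sup.2 ⟨_, mul_I1_I1 h1 ha, _, mul_I1_I1 h2 hb, rfl⟩

private theorem V64_X1 (j : ℕ) : Xl j ∈ I1 j := sub_idl rfl

private theorem V64_Bil1 {y z : ℕ} {s : FB} (hs : s ∈ Bil y z) : s ∈ I1 y := by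
  induction hs using AddSubgroup.closure_induction with
  | mem r hr =>
    obtain ⟨a, b, c, ha, hb, hc, h | h⟩ := hr
    · rw [h]
      exact (I1_bi y).mul_right _ ((I1_bi y).mul_right _ ((I1_bi y).mul_right _ ((I1_bi y).mul_left _ (V64_X1 y))))
    · rw [h]
      exact (I1_bi y).mul_right _ ((I1_bi y).mul_left _ (V64_X1 y))
  | zero => exact AddSubgroup.zero_mem _
  | add a b _ _ ha hb => exact AddSubgroup.add_mem _ ha hb
  | neg a _ ha => exact AddSubgroup.neg_mem _ ha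

private theorem V64_Bil2 {y z : ℕ} {s : FB} (hs : s ∈ Bil y z) : s ∈ I1 z := by
  induction hs using AddSubgroup.closure_induction with
  | mem r hr =>
    obtain ⟨a, b, c, ha, hb, hc, h | h⟩ := hr
    · rw [h]
      exact (I1_bi z).mul_right _ ((I1_bi z).mul_left _ (V64_X1 z))
    · rw [h]
      exact (I1_bi z).mul_right _ ((I1_bi z).mul_right _ ((I1_bi z).mul_right _ ((I1_bi z).mul_left _ (V64_X1 z))))
  | zero => exact AddSubgroup.zero_mem _
  | add a b _ _ ha hb => exact AddSubgroup.add_mem _ ha hb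
  | neg a _ ha => exact AddSubgroup.neg_mem _ ha

private theorem V64_Frm {y z : ℕ} {a b : F} (ha : Fr y z a) (hb : Fr y z b) : Fr y z (a * b) :=
  ⟨by rw [map_mul, ha.1, hb.1], by rw [map_mul, ha.2, hb.2]⟩

private theorem V64_Bl {y z : ℕ} {g : F} (hg : Fr y z g) {s : FB} (hs : s ∈ Bil y z) : o g * s ∈ Bil y z := by
  induction hs using AddSubgroup.closure_induction with
  | mem r hr =>
    obtain ⟨a, b, c, ha, hb, hc, h⟩ := hr
    refine AddSubgroup.subset_closure ⟨g * a, b, c, V64_Frm hg ha, hb, hc, ?_⟩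
    rcases h with h | h
    · left
      rw [h, map_mul]
      simp only [mul_assoc]
    · right
      rw [h, map_mul]
      simp only [mul_assoc]
  | zero => rw [mul_zero]; exact AddSubgroup.zero_mem _
  | add a b _ _ ha hb => rw [mul_add]; exact AddSubgroup.add_mem _ ha hb
  | neg a _ ha => rw [mul_neg]; exact AddSubgroup.neg_mem _ ha

private theorem V64_Br {y z : ℕ} {g : F} (hg : Fr y z g) {s : FB} (hs : s ∈ Bil y z) : s * o g ∈ Bil y z := by
  induction hs using AddSubgroup.closure_induction with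
  | mem r hr =>
    obtain ⟨a, b, c, ha, hb, hc, h⟩ := hr
    refine AddSubgroup.subset_closure ⟨a, b, c * g, ha, hb, V64_Frm hc hg, ?_⟩
    rcases h with h | h
    · left
      rw [h, map_mul]
      simp only [mul_assoc]
    · right
      rw [h, map_mul]
      simp only [mul_assoc]
  | zero => rw [zero_mul]; exact AddSubgroup.zero_mem _
  | add a b _ _ ha hb => rw [add_mul]; exact AddSubgroup.add_mem _ ha hb
  | neg a _ ha => rw [neg_mul]; exact AddSubgroup.neg_mem _ ha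

private theorem V64_le {P : AddSubgroup FB} {y z : ℕ} : I2 y ⊔ I2 z ≤ NN P y z := by
  unfold NN
  exact sup_le ((le_sup_right.trans le_sup_left).trans le_sup_left) (le_sup_right.trans le_sup_left)

private theorem V64_Sw {y z : ℕ} {r : FB} (hr : r ∈ Sw y z) : ∃ s ∈ Bil y z, r = s + eB (sw y z) s := by
  induction hr using AddSubgroup.closure_induction with
  | mem r hr => exact hr
  | zero => exact ⟨0, AddSubgroup.zero_mem _, by rw [map_zero, add_zero]⟩
  | add a b _ _ ha hb =>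
    obtain ⟨s, hs, h1⟩ := ha
    obtain ⟨t, ht, h2⟩ := hb
    refine ⟨s + t, AddSubgroup.add_mem _ hs ht, ?_⟩
    rw [h1, h2, map_add]
    abel
  | neg a _ ha =>
    obtain ⟨s, hs, h1⟩ := ha
    exact ⟨s, hs, by rw [fb_neg]; exact h1⟩

/-- the other three parts of `VA` -/
private def V64_R (P : AddSubgroup FB) (y z : ℕ) : AddSubgroup FB :=
  idl {r | ∃ g : F, r = tau y z g} ⊔ idl {Xl y * Xl z} ⊔ NN P y z

private theorem V64_R_bi {P : AddSubgroup FB} (hP : TI P) (y z : ℕ) : Bi (V64_R P y z) :=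
  ((idl_bi _).sup (idl_bi _)).sup (NN_bi hP y z)

private theorem V64_R_le (P : AddSubgroup FB) (y z : ℕ) : V64_R P y z ≤ VA P y z := by
  unfold V64_R VA
  exact sup_le_sup (sup_le_sup le_sup_right le_rfl) le_rfl

private theorem V64_VA {P : AddSubgroup FB} {y z : ℕ} {r : FB} (hr : r ∈ VA P y z) :
    ∃ s ∈ Bil y z, ∃ t ∈ V64_R P y z, r = (s + eB (sw y z) s) + t := by
  unfold VA at hr
  obtain ⟨r1, hr1, n, hn, h1⟩ := AddSubgroup.mem_sup.1 hr
  obtain ⟨r2, hr2, c, hc, h2⟩ := AddSubgroup.mem_sup.1 hr1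
  obtain ⟨u, hu, t, ht, h3⟩ := AddSubgroup.mem_sup.1 hr2
  obtain ⟨s, hs, h4⟩ := V64_Sw hu
  refine ⟨s, hs, t + c + n, ?_, ?_⟩
  · unfold V64_R
    exact AddSubgroup.add_mem _ (AddSubgroup.mem_sup_left (AddSubgroup.add_mem _ (AddSubgroup.mem_sup_left ht)
      (AddSubgroup.mem_sup_right hc))) (AddSubgroup.mem_sup_right hn)
  · rw [← h1, ← h2, ← h3, h4]
    abel

private theorem V64_Sw_le (P : AddSubgroup FB) (y z : ℕ) : Sw y z ≤ VA P y z := by
  unfold VA
  exact (le_sup_left.trans le_sup_left).trans le_sup_left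

private theorem V64_I2_le (P : AddSubgroup FB) (y z : ℕ) : I2 y ⊔ I2 z ≤ VA P y z := by
  unfold VA
  exact V64_le.trans le_sup_right

private theorem V64_VA_bi {P : AddSubgroup FB} (hP : TI P) {y z : ℕ} (hyz : y ≠ z) : Bi (VA P y z) := by
  refine ⟨fun g r hr => ?_, fun g r hr => ?_⟩
  · obtain ⟨s, hs, t, ht, rfl⟩ := V64_VA hr
    rw [mul_add]
    refine AddSubgroup.add_mem _ ?_ (V64_R_le P y z ((V64_R_bi hP y z).left g t ht))
    have h1 : o g * (s + eB (sw y z) s) = (o g + o (V64_f y z g)) * (s + eB (sw y z) s) +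
        (o (V64_f y z g) * s + eB (sw y z) (o (V64_f y z g) * s)) := by
      rw [map_mul, eB_o, sw_free (V64_fr hyz g), ← mul_add, add_mul, add_assoc, fb_add_self, add_zero]
    rw [h1]
    refine AddSubgroup.add_mem _ (V64_I2_le P y z (V64_ml (V64_fox y z g)
      (AddSubgroup.add_mem _ (V64_Bil1 hs) (V64_Bil1 (Bil_sw hyz hs)))
      (AddSubgroup.add_mem _ (V64_Bil2 hs) (V64_Bil2 (Bil_sw hyz hs))))) ?_
    exact V64_Sw_le P y z (AddSubgroup.subset_closure ⟨_, V64_Bl (V64_fr hyz g) hs, rfl⟩)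
  · obtain ⟨s, hs, t, ht, rfl⟩ := V64_VA hr
    rw [add_mul]
    refine AddSubgroup.add_mem _ ?_ (V64_R_le P y z ((V64_R_bi hP y z).right g t ht))
    have h1 : (s + eB (sw y z) s) * o g = (s + eB (sw y z) s) * (o g + o (V64_f y z g)) +
        (s * o (V64_f y z g) + eB (sw y z) (s * o (V64_f y z g))) := by
      rw [map_mul, eB_o, sw_free (V64_fr hyz g), ← add_mul, mul_add, add_assoc, fb_add_self, add_zero]
    rw [h1]
    refine AddSubgroup.add_mem _ (V64_I2_le P y z (V64_mr (V64_fox y z g)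
      (AddSubgroup.add_mem _ (V64_Bil1 hs) (V64_Bil1 (Bil_sw hyz hs)))
      (AddSubgroup.add_mem _ (V64_Bil2 hs) (V64_Bil2 (Bil_sw hyz hs))))) ?_
    exact V64_Sw_le P y z (AddSubgroup.subset_closure ⟨_, V64_Br (V64_fr hyz g) hs, rfl⟩)

theorem VA_bi {P : AddSubgroup FB} (hP : TI P) {y z : ℕ} (hyz : y ≠ z) : Bi (VA P y z) := V64_VA_bi hP hyz

/-- `Y v Z + Z v Y` is in `VA` for every `v` -/
theorem VA_sym {P : AddSubgroup FB} {y z : ℕ} (hyz : y ≠ z) (v : F) :
    Xl y * o v * Xl z + Xl z * o v * Xl y ∈ VA P y z := by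
  have h1 : ∀ r ∈ I1 y ⊔ I1 z, Xl y * r * Xl z + Xl z * r * Xl y ∈ VA P y z := by
    intro r hr
    refine V64_I2_le P y z ?_
    obtain ⟨a, ha, b, hb, rfl⟩ := AddSubgroup.mem_sup.1 hr
    have e : Xl y * (a + b) * Xl z + Xl z * (a + b) * Xl y = (Xl y * a * Xl z + Xl z * a * Xl y) +
        (Xl y * b * Xl z + Xl z * b * Xl y) := by noncomm_ring
    rw [e]
    refine AddSubgroup.add_mem _ (AddSubgroup.mem_sup_left (AddSubgroup.add_mem _ ?_ ?_))
      (AddSubgroup.mem_sup_right (AddSubgroup.add_mem _ ?_ ?_))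
    · exact (I2_bi y).mul_right _ (mul_I1_I1 (V64_X1 y) ha)
    · rw [mul_assoc]
      exact (I2_bi y).mul_left _ (mul_I1_I1 ha (V64_X1 y))
    · rw [mul_assoc]
      exact (I2_bi z).mul_left _ (mul_I1_I1 hb (V64_X1 z))
    · exact (I2_bi z).mul_right _ (mul_I1_I1 (V64_X1 z) hb)
  have h2 := h1 _ (V64_fox y z v)
  have h3 : Xl y * o (V64_f y z v) * Xl z + Xl z * o (V64_f y z v) * Xl y ∈ VA P y z := by
    refine V64_Sw_le P y z (AddSubgroup.subset_closure ⟨Xl y * o (V64_f y z v) * Xl z, ?_, ?_⟩)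
    · refine AddSubgroup.subset_closure ⟨1, V64_f y z v, 1, ⟨map_one _, map_one _⟩, V64_fr hyz v,
        ⟨map_one _, map_one _⟩, Or.inl ?_⟩
      rw [map_one, one_mul, mul_one]
    · have a1 : eB (sw y z) (Xl y) = Xl z := by
        unfold Xl
        rw [eB_C, sw_x, if_pos rfl]
      have a2 : eB (sw y z) (Xl z) = Xl y := by
        unfold Xl
        rw [eB_C, sw_x, if_neg hyz.symm, if_pos rfl]
      rw [map_mul, map_mul, eB_o, a1, a2, sw_free (V64_fr hyz v)]
  have e : Xl y * o v * Xl z + Xl z * o v * Xl y =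
      (Xl y * (o v + o (V64_f y z v)) * Xl z + Xl z * (o v + o (V64_f y z v)) * Xl y) -
      (Xl y * o (V64_f y z v) * Xl z + Xl z * o (V64_f y z v) * Xl y) := by noncomm_ring
  rw [e]
  exact AddSubgroup.sub_mem _ h2 h3

end E4.X
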