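import Pool.Agent.Lib.MP_8a95e3_al.I64b
import Pool.Agent.Lib.MP_8a95e3_al.I64v
import Pool.Agent.Lib.MP_8a95e3_al.I02
import Pool.Agent.Lib.MP_8a95e3_al.RK.D_c1
import Pool.Agent.Lib.MP_8a95e3_al.RK.D_g4

/-!
# I64c : fields `four`, `s2c`, `s2d`, `s3a` - `s3e`, `g1a` - `g4` of `Ids` (helper64)
-/

noncomputable section

namespace E4.X

open E4 E4.G64

section gen
variable {W : AddSubgroup FB} (hb : Bi W)

/-- the homomorphism from the free group to the quotient ring -/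
def fo : F →* QR W hb := ((qm W hb : FB →+* QR W hb) : FB →* QR W hb).comp o

theorem fo_eq (g : F) : qm W hb (o g) = fo hb g := rfl

theorem fo_C (g : F) : qm W hb (C g) = fo hb g + 1 := by rw [C, map_add, map_one, fo_eq]

theorem fo_T (g : F) : qm W hb (T g) = fo hb g + fo hb g⁻¹ := by rw [T, map_add, fo_eq, fo_eq]

theorem fo_C2 (c : F) : qm W hb (C (c ^ 2)) = fo hb c * fo hb c + 1 := by
  rw [fo_C, pow_two, map_mul]

theorem fo_cube (hK : ∀ g : F, C g ^ 3 ∈ W) (g : F) : (fo hb g + 1) ^ 3 = 0 := by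
  rw [← fo_C, ← map_pow, qm_zero]
  exact hK g

theorem fo_PL (g : F) (hg : ∀ v : F, C g * o v * C g ∈ W) : E4.RC.PL (Gr (fo hb)) (qm W hb (C g)) := by
  refine ⟨(q_PL hb g hg).sq, MonoidHom.toHomUnits (fo hb) g, Gr_mem _ g, ?_⟩
  rw [th_val, fo_C, add_comm (1 : QR W hb), add_assoc, q_two, add_zero]

end gen

/-- the explicit formula for `X v X w X` -/
theorem pC1 {Γ R : Type*} [Group Γ] [Ring R] (φ : Γ →* R) (h2 : ∀ r : R, r + r = 0)
    (hc : ∀ g : Γ, (φ g + 1) ^ 3 = 0) (x v w : Γ) :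
    (φ x + 1) * (φ v * ((φ x + 1) * (φ w * (φ x + 1)))) =
      ((φ x + 1) * (φ w * (φ x + φ x⁻¹))) + ((φ x + 1) * (φ v * (φ x + φ x⁻¹)) * φ w⁻¹ +
      ((φ x + 1) * (φ v⁻¹ * (φ x + φ x⁻¹)) * φ w⁻¹ + ((φ x + 1) * (φ w⁻¹ * (φ x + φ x⁻¹)) * φ w +
      ((φ x + 1) * (φ w⁻¹ * (φ x + φ x⁻¹)) * φ v + ((φ x + 1) * (φ w⁻¹ * (φ x + φ x⁻¹)) * φ v⁻¹ +
      (φ x + 1) * (φ (v⁻¹ * w⁻¹) * (φ x + φ x⁻¹)) * φ w))))) := by
  have e := E4.RC.D_c1 h2 (Gr_cube φ hc) (Gr_mem φ x) (Gr_mem φ v) (Gr_mem φ w)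
  rw [th_inv, th_inv, th_inv, th_val, th_val, th_val] at e
  rw [e, map_mul]
  simp only [mul_assoc]

/-- `X a X b X c X = 0` -/
theorem p4 {Γ R : Type*} [Group Γ] [Ring R] (φ : Γ →* R) (h2 : ∀ r : R, r + r = 0)
    (hc : ∀ g : Γ, (φ g + 1) ^ 3 = 0) (x a v w : Γ) :
    (φ x + 1) * (φ a * ((φ x + 1) * (φ v * ((φ x + 1) * (φ w * (φ x + 1)))))) = 0 := by
  rw [pC1 φ h2 hc x v w]
  have e : ∀ (u : Γ) (r : R), (φ x + 1) * (φ a * ((φ x + 1) * (φ u * (φ x + φ x⁻¹)) * r)) = 0 := by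
    intro u r
    have e1 := pC5'' φ h2 hc x a u
    calc _ = (φ x + 1) * (φ a * ((φ x + 1) * (φ u * (φ x + φ x⁻¹)))) * r := by simp only [mul_assoc]
      _ = 0 := by rw [e1, zero_mul]
  simp only [mul_add _ (_ * _) (_ + _), mul_add (φ a)]
  simp only [mul_add (φ x + 1), e, pC5'' φ h2 hc x a, add_zero]

theorem f_four {P : AddSubgroup FB} (h : TI P) : ∀ g a b c : F,
    C g * o a * C g * o b * C g * o c * C g ∈ P := by
  intro g a b c
  have hb := h.bi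
  rw [← qm_zero hb]
  have e := p4 (fo hb) (q_two hb) (fo_cube hb h.cube) g a b c
  simp only [map_mul, fo_C, fo_eq, mul_assoc]
  exact e

section second
variable {P : AddSubgroup FB} (h : TI P) (j : ℕ)
include h

theorem W2_cube (g : F) : C g ^ 3 ∈ W2 P j := AddSubgroup.mem_sup_right (h.cube g)

theorem W2_X : (fo (W2_bi h j) (x j) + 1) * (fo (W2_bi h j) (x j) + 1) = 0 := by
  have e : Xl j ^ 2 ∈ W2 P j := AddSubgroup.mem_sup_left (AddSubgroup.mem_sup_left (sub_idl rfl))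
  rw [← qm_zero (W2_bi h j), pow_two, map_mul, Xl, fo_C] at e
  exact e

theorem W2_I (a b : F) : (fo (W2_bi h j) (x j) + 1) * (fo (W2_bi h j) a * ((fo (W2_bi h j) (x j) + 1) *
    (fo (W2_bi h j) b * (fo (W2_bi h j) (x j) + 1)))) = 0 := by
  have e : Xl j * o a * Xl j * o b * Xl j ∈ W2 P j :=
    AddSubgroup.mem_sup_left (AddSubgroup.mem_sup_right (sub_idl ⟨a, b, rfl⟩))
  rw [← qm_zero (W2_bi h j)] at e
  simp only [map_mul, Xl, fo_C, fo_eq, mul_assoc] at e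
  exact e

/-- from the laws: insensitivity on the right -/
theorem f_s2c (c v : F) : Xl j * o v * C (c ^ 2) * Xl j ∈ W2 P j := by
  have hb := W2_bi h j
  have h2 := q_two hb
  have hc := fo_cube hb (W2_cube h j)
  have A := fun a z => (second_all (fo hb) h2 hc (x j) (W2_X h j) (W2_I h j) a z).2.2.1
  have I := second_inv (fo hb) h2 hc (x j) (W2_X h j) (W2_I h j)
  rw [← qm_zero hb]
  have e : qm (W2 P j) hb (Xl j * o v * C (c ^ 2) * Xl j) =
      (fo hb (x j) + 1) * (fo hb (v * c * c) * (fo hb (x j) + 1)) +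
      (fo hb (x j) + 1) * (fo hb v * (fo hb (x j) + 1)) := by
    rw [map_mul, map_mul, map_mul, fo_C2, Xl, fo_C, fo_eq, map_mul (fo hb) (v * c) c, map_mul (fo hb) v c]
    noncomm_ring
  have e1 : (fo hb (x j) + 1) * (fo hb (v * c * c) * (fo hb (x j) + 1)) =
      (fo hb (x j) + 1) * (fo hb v * (fo hb (x j) + 1)) := by
    rw [← I (v * c * c), mul_inv_rev, A, inv_inv, mul_inv_rev, mul_inv_cancel_left, I]
  rw [e, e1, h2]

theorem f_s2d (q : ℕ) : Xl j * Xl q * Xl j ∈ W2 P j ⊔ I2 q := by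
  have hb : Bi (W2 P j ⊔ I2 q) := (W2_bi h j).sup (I2_bi q)
  have h2 := q_two hb
  have hc := fo_cube hb (fun g => AddSubgroup.mem_sup_left (W2_cube h j g))
  have hp := fo_PL hb (x q) (fun v => AddSubgroup.mem_sup_right (I2_mem q v))
  have hX : (fo hb (x j) + 1) * (fo hb (x j) + 1) = 0 := by
    have e : Xl j ^ 2 ∈ W2 P j ⊔ I2 q :=
      AddSubgroup.mem_sup_left (AddSubgroup.mem_sup_left (AddSubgroup.mem_sup_left (sub_idl rfl)))
    rw [← qm_zero hb, pow_two, map_mul, Xl, fo_C] at e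
    exact e
  have hT := pT (fo hb) h2 hc (x j)
  rw [hX] at hT
  have hx' : fo hb (x j)⁻¹ = fo hb (x j) := (eq_of_sum h2 hT.symm).symm
  have l := E4.RC.lin_of h2 (Gr_cube (fo hb) hc) hp (Gr_mem (fo hb) (x j))
  rw [th_inv, th_val, hx', fo_C] at l
  rw [← qm_zero hb, map_mul, map_mul, Xl, Xl, fo_C, fo_C]
  obtain ⟨p, hp'⟩ : ∃ p, p = fo hb (x q) + 1 := ⟨_, rfl⟩
  rw [← hp'] at l ⊢
  have e : (fo hb (x j) + 1) * p * (fo hb (x j) + 1) =
      p * fo hb (x j) + fo hb (x j) * p + p + fo hb (x j) * p * fo hb (x j) := by noncomm_ring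
  rw [e, l]

end second

section third
variable {P : AddSubgroup FB} (h : TI P) (j : ℕ)
include h

theorem W3_cube (g : F) : C g ^ 3 ∈ W3 P j := AddSubgroup.mem_sup_right (h.cube g)

theorem fo_D3 {W : AddSubgroup FB} (hb : Bi W) (hK : ∀ g : F, C g ^ 3 ∈ W) (v : F) :
    qm W hb (D3 j v) = (fo hb (x j) + 1) * (fo hb v * (fo hb (x j) + fo hb (x j)⁻¹)) := by
  rw [← pT (fo hb) (q_two hb) (fo_cube hb hK), D3, map_mul, map_mul, map_pow, Xl, fo_C, fo_eq, pow_two, mul_assoc]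

theorem W3_hW (g : F) : (fo (W3_bi h j) (x j) + 1) * ((fo (W3_bi h j) g + fo (W3_bi h j) g⁻¹) *
    (fo (W3_bi h j) (x j) + fo (W3_bi h j) (x j)⁻¹)) = 0 := by
  have e : Xl j * T g * Xl j ^ 2 ∈ W3 P j := AddSubgroup.mem_sup_left (sub_idl ⟨g, rfl⟩)
  rw [← qm_zero (W3_bi h j), map_mul, map_mul, map_pow, Xl, fo_C, fo_T, pow_two,
    pT (fo (W3_bi h j)) (q_two _) (fo_cube _ (W3_cube h j)), mul_assoc] at e
  exact e

theorem f_s3a (v w : F) : Xl j * o v * Xl j * o w * Xl j ∈ idl {r | ∃ u : F, r = D3 j u} ⊔ W3 P j := by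
  have hb : Bi (idl {r | ∃ u : F, r = D3 j u} ⊔ W3 P j) := (idl_bi _).sup (W3_bi h j)
  have hK : ∀ g : F, C g ^ 3 ∈ idl {r | ∃ u : F, r = D3 j u} ⊔ W3 P j :=
    fun g => AddSubgroup.mem_sup_right (W3_cube h j g)
  have h2 := q_two hb
  have hc := fo_cube hb hK
  have z : ∀ u : F, (fo hb (x j) + 1) * (fo hb u * (fo hb (x j) + fo hb (x j)⁻¹)) = 0 := by
    intro u
    rw [← fo_D3 h j hb hK u, qm_zero]
    exact AddSubgroup.mem_sup_left (sub_idl ⟨u, rfl⟩)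
  have e := pC1 (fo hb) h2 hc (x j) v w
  simp only [z, zero_mul, add_zero] at e
  rw [← qm_zero hb]
  simp only [map_mul, Xl, fo_C, fo_eq, mul_assoc]
  exact e

theorem f_s3b (c v : F) : C (c ^ 2) * D3 j v ∈ W3 P j := by
  have hb := W3_bi h j
  have h2 := q_two hb
  have hc := fo_cube hb (W3_cube h j)
  have A := (third_all (fo hb) h2 hc (x j) (W3_hW h j) c v).1
  rw [← qm_zero hb, map_mul, fo_C2, fo_D3 h j hb (W3_cube h j), add_mul, one_mul, mul_assoc, A, h2]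

theorem f_s3b' (c v : F) : D3 j v * C (c ^ 2) ∈ W3 P j := by
  have hb := W3_bi h j
  have h2 := q_two hb
  have hc := fo_cube hb (W3_cube h j)
  have A := (third_all (fo hb) h2 hc (x j) (W3_hW h j) c v).2.1
  rw [← qm_zero hb, map_mul, fo_C2, fo_D3 h j hb (W3_cube h j), mul_add, mul_one, ← mul_assoc, A, h2]

theorem f_s3b'' (c v : F) : Xl j * o v * C (c ^ 2) * Xl j ^ 2 ∈ W3 P j := by
  have hb := W3_bi h j
  have h2 := q_two hb
  have hc := fo_cube hb (W3_cube h j)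
  have A := fun a z => (third_all (fo hb) h2 hc (x j) (W3_hW h j) a z).2.2.1
  have I := third_inv (fo hb) h2 hc (x j) (W3_hW h j)
  rw [← qm_zero hb]
  have e : qm (W3 P j) hb (Xl j * o v * C (c ^ 2) * Xl j ^ 2) =
      (fo hb (x j) + 1) * (fo hb (v * c * c) * (fo hb (x j) + fo hb (x j)⁻¹)) +
      (fo hb (x j) + 1) * (fo hb v * (fo hb (x j) + fo hb (x j)⁻¹)) := by
    rw [← pT (fo hb) h2 hc, map_mul, map_mul, map_mul, map_pow, fo_C2, Xl, fo_C, fo_eq, map_mul (fo hb) (v * c) c,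
      map_mul (fo hb) v c, pow_two]
    noncomm_ring
  have e1 : (fo hb (x j) + 1) * (fo hb (v * c * c) * (fo hb (x j) + fo hb (x j)⁻¹)) =
      (fo hb (x j) + 1) * (fo hb v * (fo hb (x j) + fo hb (x j)⁻¹)) := by
    rw [← I (v * c * c), mul_inv_rev, A, inv_inv, mul_inv_rev, mul_inv_cancel_left, I]
  rw [e, e1, h2]

theorem f_s3c (g v : F) : o g * D3 j v + D3 j v * o g ∈ W3 P j := by
  have hb := W3_bi h j
  have h2 := q_two hb
  have hc := fo_cube hb (W3_cube h j)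
  have A := (third_all (fo hb) h2 hc (x j) (W3_hW h j) g v).2.2.2.1
  rw [← qm_zero hb, map_add, map_mul, map_mul, fo_D3 h j hb (W3_cube h j), fo_eq, A, h2]

theorem f_s3d (g v : F) : C g * D3 j v + C v * D3 j g ∈ W3 P j := by
  have hb := W3_bi h j
  have h2 := q_two hb
  have hc := fo_cube hb (W3_cube h j)
  have A := (third_all (fo hb) h2 hc (x j) (W3_hW h j) g v).2.2.2.2
  rw [← qm_zero hb, map_add, map_mul, map_mul, fo_D3 h j hb (W3_cube h j), fo_D3 h j hb (W3_cube h j), fo_C, fo_C,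
    add_mul (fo hb g), add_mul (fo hb v), one_mul, one_mul, A, h2]

theorem f_s3e (g : F) : C g * D3 j g ∈ W3 P j := by
  have hb := W3_bi h j
  have h2 := q_two hb
  have hc := fo_cube hb (W3_cube h j)
  rw [← qm_zero hb, map_mul, fo_D3 h j hb (W3_cube h j), fo_C, add_mul, one_mul,
    third_K (fo hb) h2 hc (x j) (W3_hW h j), h2]

end third

section stepA
variable {P : AddSubgroup FB} (h : TI P) {y z : ℕ} (hyz : y ≠ z)
include h

theorem NN_cube (g : F) : C g ^ 3 ∈ NN P y z :=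
  AddSubgroup.mem_sup_left (AddSubgroup.mem_sup_left (AddSubgroup.mem_sup_left (h.cube g)))

theorem VA_cube (g : F) : C g ^ 3 ∈ VA P y z := AddSubgroup.mem_sup_right (NN_cube h g)

omit h in
theorem NN_y (v : F) : C (x y) * o v * C (x y) ∈ NN P y z :=
  AddSubgroup.mem_sup_left (AddSubgroup.mem_sup_left (AddSubgroup.mem_sup_right (I2_mem y v)))

omit h in
theorem NN_z (v : F) : C (x z) * o v * C (x z) ∈ NN P y z :=
  AddSubgroup.mem_sup_left (AddSubgroup.mem_sup_right (I2_mem z v))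

include hyz

theorem VA_all (a v : F) (hb : Bi (VA P y z)) :
    (fo hb a * (fo hb a * (qm _ hb (Xl y) * (fo hb v * qm _ hb (Xl z)))) = qm _ hb (Xl y) * (fo hb v * qm _ hb (Xl z))) ∧
    (qm _ hb (Xl y) * (fo hb v * qm _ hb (Xl z)) * fo hb a * fo hb a = qm _ hb (Xl y) * (fo hb v * qm _ hb (Xl z))) ∧
    (qm _ hb (Xl y) * (fo hb (a * v) * qm _ hb (Xl z)) = qm _ hb (Xl y) * (fo hb (a⁻¹ * v) * qm _ hb (Xl z))) ∧
    (fo hb a * (qm _ hb (Xl y) * (fo hb v * qm _ hb (Xl z))) = qm _ hb (Xl y) * (fo hb v * qm _ hb (Xl z)) * fo hb a) ∧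
    (fo hb a * (qm _ hb (Xl y) * (fo hb v * qm _ hb (Xl z))) + qm _ hb (Xl y) * (fo hb v * qm _ hb (Xl z)) =
      fo hb v * (qm _ hb (Xl y) * (fo hb a * qm _ hb (Xl z))) + qm _ hb (Xl y) * (fo hb a * qm _ hb (Xl z))) ∧
    (fo hb a * (qm _ hb (Xl y) * (fo hb a * qm _ hb (Xl z))) = qm _ hb (Xl y) * (fo hb a * qm _ hb (Xl z))) ∧
    (qm _ hb (Xl y) * (fo hb a⁻¹ * qm _ hb (Xl z)) = qm _ hb (Xl y) * (fo hb a * qm _ hb (Xl z))) := by
  have h2 := q_two hb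
  have hc := fo_cube hb (fun g => VA_cube h (y := y) (z := z) g)
  have hY := fo_PL hb (x y) (fun v => AddSubgroup.mem_sup_right (NN_y v))
  have hZ := fo_PL hb (x z) (fun v => AddSubgroup.mem_sup_right (NN_z v))
  have sym : ∀ v : F, qm _ hb (Xl y) * (fo hb v * qm _ hb (Xl z)) = qm _ hb (Xl z) * (fo hb v * qm _ hb (Xl y)) := by
    intro v
    have e := VA_sym (P := P) hyz v
    rw [← qm_zero hb, map_add, map_mul, map_mul, map_mul, map_mul, fo_eq, mul_assoc, mul_assoc] at e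
    exact eq_of_sum h2 e
  have h0 : qm _ hb (Xl y) * qm _ hb (Xl z) = 0 := by
    rw [← map_mul, qm_zero]
    exact AddSubgroup.mem_sup_left (AddSubgroup.mem_sup_right (sub_idl rfl))
  have ht : ∀ g : F, qm _ hb (Xl y) * qm _ hb (Xl z) * fo hb g + fo hb g⁻¹ * qm _ hb (Xl z) * qm _ hb (Xl y) +
      fo hb g⁻¹ * qm _ hb (Xl y) * fo hb g * qm _ hb (Xl z) + qm _ hb (Xl z) * fo hb g⁻¹ * qm _ hb (Xl y) * fo hb g = 0 := by
    intro g
    have e : tau y z g ∈ VA P y z :=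
      AddSubgroup.mem_sup_left (AddSubgroup.mem_sup_left (AddSubgroup.mem_sup_right (sub_idl ⟨g, rfl⟩)))
    rw [← qm_zero hb, tau] at e
    simp only [map_add, map_mul, fo_eq] at e
    exact e
  have A := bil_all (fo hb) h2 hc hY hZ sym h0 ht a v
  refine ⟨A.1, A.2.1, A.2.2.1, A.2.2.2.1, A.2.2.2.2, bil_K (fo hb) h2 hc hY hZ sym h0 ht a, ?_⟩
  have B := bil_inv (fo hb) h2 hc hY hZ sym h0 ht a
  rw [bil_K (fo hb) h2 hc hY hZ sym h0 ht a] at B
  exact B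

theorem f_g1a (c v : F) : C (c ^ 2) * (Xl y * o v * Xl z) ∈ VA P y z := by
  have hb := VA_bi h hyz
  have A := (VA_all h hyz c v hb).1
  rw [← qm_zero hb, map_mul, map_mul, map_mul, fo_C2, fo_eq, add_mul, one_mul, mul_assoc (fo hb c),
    mul_assoc (qm _ hb (Xl y)), A, q_two]

theorem f_g1b (c v : F) : Xl y * o v * Xl z * C (c ^ 2) ∈ VA P y z := by
  have hb := VA_bi h hyz
  have A := (VA_all h hyz c v hb).2.1
  rw [← qm_zero hb, map_mul, map_mul, map_mul, fo_C2, fo_eq, mul_add, mul_one, ← mul_assoc _ (fo hb c),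
    mul_assoc (qm _ hb (Xl y)), A, q_two]

theorem f_g1c (c v : F) : Xl y * o v * C (c ^ 2) * Xl z ∈ VA P y z := by
  have hb := VA_bi h hyz
  have A := fun a v => (VA_all h hyz a v hb).2.2.1
  have I := fun a => (VA_all h hyz a 1 hb).2.2.2.2.2.2
  have e : qm _ hb (Xl y * o v * C (c ^ 2) * Xl z) = qm _ hb (Xl y) * (fo hb (v * c * c) * qm _ hb (Xl z)) +
      qm _ hb (Xl y) * (fo hb v * qm _ hb (Xl z)) := by
    rw [map_mul, map_mul, map_mul, fo_C2, fo_eq, map_mul (fo hb) (v * c) c, map_mul (fo hb) v c]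
    noncomm_ring
  have e1 : qm _ hb (Xl y) * (fo hb (v * c * c) * qm _ hb (Xl z)) = qm _ hb (Xl y) * (fo hb v * qm _ hb (Xl z)) := by
    rw [← I (v * c * c), mul_inv_rev, A, inv_inv, mul_inv_rev, mul_inv_cancel_left, I]
  rw [← qm_zero hb, e, e1, q_two]

theorem f_g2 (g v : F) : o g * (Xl y * o v * Xl z) + Xl y * o v * Xl z * o g ∈ VA P y z := by
  have hb := VA_bi h hyz
  have A := (VA_all h hyz g v hb).2.2.2.1
  rw [← qm_zero hb, map_add, map_mul, map_mul _ (Xl y * o v * Xl z) (o g), map_mul, map_mul, fo_eq, fo_eq,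
    mul_assoc (qm _ hb (Xl y)), A, q_two]

theorem f_g3 (g v : F) : C g * (Xl y * o v * Xl z) + C v * (Xl y * o g * Xl z) ∈ VA P y z := by
  have hb := VA_bi h hyz
  have A := (VA_all h hyz g v hb).2.2.2.2.1
  rw [← qm_zero hb, map_add, map_mul, map_mul, map_mul, map_mul, map_mul, map_mul, fo_C, fo_C, fo_eq, fo_eq,
    add_mul, add_mul, one_mul, one_mul, mul_assoc (qm _ hb (Xl y)), mul_assoc (qm _ hb (Xl y)), A, q_two]

theorem f_g3' (g : F) : C g * (Xl y * o g * Xl z) ∈ VA P y z := by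
  have hb := VA_bi h hyz
  have A := (VA_all h hyz g 1 hb).2.2.2.2.2.1
  rw [← qm_zero hb, map_mul, map_mul, map_mul, fo_C, fo_eq, add_mul, one_mul, mul_assoc (qm _ hb (Xl y)), A, q_two]

omit hyz in
theorem f_g4 (g k : F) : C g * (Xl y * C k * Xl z + Xl z * C k * Xl y) ∈
    idl {Xl y * Xl z + Xl z * Xl y} ⊔ NN P y z := by
  have hb : Bi (idl {Xl y * Xl z + Xl z * Xl y} ⊔ NN P y z) := (idl_bi _).sup (NN_bi h y z)
  have h2 := q_two hb
  have hc := fo_cube hb (fun g => AddSubgroup.mem_sup_right (NN_cube h g))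
  have hY : E4.RC.PL (Gr (fo hb)) (qm _ hb (Xl y)) := fo_PL hb (x y) (fun v => AddSubgroup.mem_sup_right (NN_y v))
  have hZ : E4.RC.PL (Gr (fo hb)) (qm _ hb (Xl z)) := fo_PL hb (x z) (fun v => AddSubgroup.mem_sup_right (NN_z v))
  have h0 : qm _ hb (Xl y) * qm _ hb (Xl z) + qm _ hb (Xl z) * qm _ hb (Xl y) = 0 := by
    rw [← map_mul, ← map_mul, ← map_add, qm_zero]
    exact AddSubgroup.mem_sup_left (sub_idl rfl)
  have e := E4.RC.D_g4 h2 (Gr_cube (fo hb) hc) (Gr_mem (fo hb) g) (Gr_mem (fo hb) k) hY hZ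
  simp only [h0, zero_mul, mul_zero, add_zero] at e
  rw [th_val, th_val] at e
  rw [← qm_zero hb, map_mul, map_add, map_mul, map_mul, map_mul, map_mul, fo_C hb g, fo_C hb k]
  have e2 : (fo hb g + 1) * (qm _ hb (Xl y) * (fo hb k + 1) * qm _ hb (Xl z) +
      qm _ hb (Xl z) * (fo hb k + 1) * qm _ hb (Xl y)) =
      (fo hb g + 1) * ((qm _ hb (Xl y) * (fo hb k * qm _ hb (Xl z))) +
        (qm _ hb (Xl z) * (fo hb k * qm _ hb (Xl y)))) + (fo hb g + 1) * (qm _ hb (Xl y) * qm _ hb (Xl z) +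
        qm _ hb (Xl z) * qm _ hb (Xl y)) := by noncomm_ring
  rw [e2, e, h0, mul_zero, add_zero]

end stepA

end E4.X
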