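import Pool.Agent.Lib.MP_8a95e3_al.I64c

/-!
# I64t : the fields proved in I64c in exactly the form of `Ids` (helper64)
-/

namespace E4.X

open E4

/-- all fields of `Ids` proved in I64c; they hold for every T-ideal `P` -/
theorem ids64 {P : AddSubgroup FB} (h : TI P) :
    (∀ g a b c : F, C g * o a * C g * o b * C g * o c * C g ∈ P) ∧
    (∀ (j : ℕ) (c v : F), Xl j * o v * C (c ^ 2) * Xl j ∈ W2 P j) ∧
    (∀ (j q : ℕ), j ≠ q → Xl j * Xl q * Xl j ∈ W2 P j ⊔ I2 q) ∧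
    (∀ (j : ℕ) (v w : F), Xl j * o v * Xl j * o w * Xl j ∈ idl {r | ∃ u : F, r = D3 j u} ⊔ W3 P j) ∧
    (∀ (j : ℕ) (c v : F), C (c ^ 2) * D3 j v ∈ W3 P j) ∧
    (∀ (j : ℕ) (c v : F), D3 j v * C (c ^ 2) ∈ W3 P j) ∧
    (∀ (j : ℕ) (c v : F), Xl j * o v * C (c ^ 2) * Xl j ^ 2 ∈ W3 P j) ∧
    (∀ (j : ℕ) (g v : F), o g * D3 j v + D3 j v * o g ∈ W3 P j) ∧
    (∀ (j : ℕ) (g v : F), C g * D3 j v + C v * D3 j g ∈ W3 P j) ∧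
    (∀ (j : ℕ) (g : F), C g * D3 j g ∈ W3 P j) ∧
    (∀ (y z : ℕ), y ≠ z → ∀ c v : F, C (c ^ 2) * (Xl y * o v * Xl z) ∈ VA P y z) ∧
    (∀ (y z : ℕ), y ≠ z → ∀ c v : F, Xl y * o v * Xl z * C (c ^ 2) ∈ VA P y z) ∧
    (∀ (y z : ℕ), y ≠ z → ∀ c v : F, Xl y * o v * C (c ^ 2) * Xl z ∈ VA P y z) ∧
    (∀ (y z : ℕ), y ≠ z → ∀ g v : F, o g * (Xl y * o v * Xl z) + Xl y * o v * Xl z * o g ∈ VA P y z) ∧
    (∀ (y z : ℕ), y ≠ z → ∀ g v : F, C g * (Xl y * o v * Xl z) + C v * (Xl y * o g * Xl z) ∈ VA P y z) ∧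
    (∀ (y z : ℕ), y ≠ z → ∀ g : F, C g * (Xl y * o g * Xl z) ∈ VA P y z) ∧
    (∀ (y z : ℕ), y ≠ z → ∀ g h : F, C g * (Xl y * C h * Xl z + Xl z * C h * Xl y) ∈
      idl {Xl y * Xl z + Xl z * Xl y} ⊔ NN P y z) :=
  ⟨f_four h, f_s2c h, fun j q _ => f_s2d h j q, f_s3a h, f_s3b h, f_s3b' h, f_s3b'' h, f_s3c h, f_s3d h, f_s3e h,
    fun _ _ e => f_g1a h e, fun _ _ e => f_g1b h e, fun _ _ e => f_g1c h e, fun _ _ e => f_g2 h e,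
    fun _ _ e => f_g3 h e, fun _ _ e => f_g3' h e, fun _ _ _ => f_g4 h⟩

end E4.X
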