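import Pool.Agent.Lib.MP_8a95e3_al.JD

/-!
# J01a : lifting of insertions
-/

namespace E4.J

section

variable {L Γ : Type} {col : L → Γ} {unm : L → Prop} {X X' : Set Γ}

theorem ins_cons (c : L) {w w' : List L} (h : Relation.ReflTransGen (Ins col unm X) w w') :
    Relation.ReflTransGen (Ins col unm X) (c :: w) (c :: w') := by
  refine Relation.ReflTransGen.lift (fun w => c :: w) ?_ _ _ h
  rintro _ _ ⟨u, a, v, rfl, rfl, ha, hX⟩
  refine ⟨c :: u, a, v, rfl, rfl, ha, ?_⟩
  rcases hX with hX | ⟨b, hb, hab⟩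
  · exact Or.inl hX
  · exact Or.inr ⟨b, List.mem_cons_of_mem c hb, hab⟩

theorem ins_sublist {u u' : List L} (h : u.Sublist u') (hu : ∀ a ∈ u', unm a ∧ col a ∈ X) (z : List L) :
    Relation.ReflTransGen (Ins col unm X) (u ++ z) (u' ++ z) := by
  induction h with
  | slnil => exact Relation.ReflTransGen.refl
  | cons a _ ih =>
    have h1 := ih fun b hb => hu b (List.mem_cons_of_mem a hb)
    refine h1.tail ⟨[], a, _, rfl, rfl, (hu a List.mem_cons_self).1, Or.inl (hu a List.mem_cons_self).2⟩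
  | cons_cons a _ ih =>
    exact ins_cons a (ih fun b hb => hu b (List.mem_cons_of_mem a hb))

theorem ins_tail (u : List L) (a : L) (hX : ∀ c ∈ X', c ∈ X ∨ c = col a) {v v' : List L}
    (h : Relation.ReflTransGen (Ins col unm X') v v') :
    Relation.ReflTransGen (Ins col unm X) (u ++ a :: v) (u ++ a :: v') := by
  refine Relation.ReflTransGen.lift (fun w => u ++ a :: w) ?_ _ _ h
  rintro _ _ ⟨v₁, b, v₂, rfl, rfl, hb, hc⟩
  refine ⟨u ++ a :: v₁, b, v₂, by simp, by simp, hb, ?_⟩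
  rcases hc with hc | ⟨b', hb', hbb⟩
  · rcases hX _ hc with h1 | h1
    · exact Or.inl h1
    · exact Or.inr ⟨a, by simp, h1.symm⟩
  · exact Or.inr ⟨b', by simp [hb'], hbb⟩

theorem ins_comb {u u' : List L} (h : u.Sublist u') (hu : ∀ b ∈ u', unm b ∧ col b ∈ X) (a : L)
    (hX : ∀ c ∈ X', c ∈ X ∨ c = col a) {v v' : List L}
    (hv : Relation.ReflTransGen (Ins col unm X') v v') :
    Relation.ReflTransGen (Ins col unm X) (u ++ a :: v) (u' ++ a :: v') :=
  (ins_tail u a hX hv).trans (ins_sublist h hu (a :: v'))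

end

end E4.J
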