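import Pool.Agent.Lib.MP_8a95e3_al.J01a

/-!
# J01b : words with few marked letters are well quasi ordered by insertions
-/

namespace E4.J

/-- Higman for a finite alphabet.
PROOF. `Set.PartiallyWellOrderedOn.partiallyWellOrderedOn_sublistForall₂` for the relation `=` on the finite type `L` (`Set.Finite.partiallyWellOrderedOn`, reflexive), and
`List.SublistForall₂ (· = ·) u v` gives `u.Sublist v` (`List.sublistForall₂_iff`: a sublist of `v` which is `Forall₂ (=)` to `u`; `List.forall₂_eq_eq_eq`). -/
theorem higman {L : Type} [Finite L] (f : ℕ → List L) : ∃ a b, a < b ∧ (f a).Sublist (f b) := by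
  have h1 : (Set.univ : Set L).PartiallyWellOrderedOn (· = ·) := Set.finite_univ.partiallyWellOrderedOn
  have h2 := Set.PartiallyWellOrderedOn.partiallyWellOrderedOn_sublistForall₂ (· = ·) h1
  obtain ⟨a, b, hab, h3⟩ := h2 (fun n => ⟨f n, fun x _ => Set.mem_univ x⟩)
  refine ⟨a, b, hab, ?_⟩
  obtain ⟨l, hl, hs⟩ := List.sublistForall₂_iff.1 h3
  rw [List.forall₂_eq_eq_eq] at hl
  rw [← hl] at hs
  exact hs

/-- PROOF. If not all letters are good, take the longest initial segment of good letters: induction on `w`. -/
theorem split_word {L : Type} (P : L → Prop) (w : List L) :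
    (∀ a ∈ w, P a) ∨ ∃ u a v, w = u ++ a :: v ∧ (∀ b ∈ u, P b) ∧ ¬ P a := by
  induction w with
  | nil =>
    left
    simp
  | cons c w ih =>
    by_cases hc : P c
    · rcases ih with h | ⟨u, a, v, rfl, hu, ha⟩
      · left
        intro a ha
        rcases List.mem_cons.1 ha with rfl | h'
        · exact hc
        · exact h a h'
      · right
        refine ⟨c :: u, a, v, rfl, ?_, ha⟩
        intro b hb
        rcases List.mem_cons.1 hb with rfl | h'
        · exact hc
        · exact hu b h'
    · right
      exact ⟨[], c, w, rfl, by simp, hc⟩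

open scoped Classical in
private theorem J01b_marks {L : Type} (unm : L → Prop) (u v : List L) (c : L) :
    marks unm (u ++ c :: v) = marks unm u + (marks unm v + if unm c then 0 else 1) := by
  unfold marks
  rw [List.countP_append, List.countP_cons]
  by_cases h : unm c
  · simp [h]
  · simp [h]

private theorem J01b_sub {L Γ : Type} (col : L → Γ) (unm : L → Prop) (m : ℕ) (X : Set Γ)
    (h : ∀ f : ℕ → List L, (∀ n, marks unm (f n) ≤ m) →
      ∃ a b, a < b ∧ Relation.ReflTransGen (Ins col unm X) (f a) (f b)) (v : ℕ → List L)
    (hv : ∀ n, marks unm (v n) ≤ m) :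
    ∃ g : ℕ ↪o ℕ, ∀ a b : ℕ, a ≤ b → Relation.ReflTransGen (Ins col unm X) (v (g a)) (v (g b)) := by
  have hp : Set.PartiallyWellOrderedOn {w : List L | marks unm w ≤ m} (Relation.ReflTransGen (Ins col unm X)) := by
    intro f
    obtain ⟨a, b, hab, h1⟩ := h (fun n => (f n).1) (fun n => (f n).2)
    exact ⟨a, b, hab, h1⟩
  exact hp.exists_monotone_subseq hv

/-- **Insertions form a well quasi order on the words with at most `m` marked letters.**

PROOF. Induction on `m + Xᶜ.ncard` (for all `m`, `X`, `f`). Call a letter `b` good if `unm b ∧ col b ∈ X`.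
Case 1: infinitely many `f n` consist of good letters: on this subsequence (`Nat.orderEmbeddingOfSet` or `Filter`/`Nat.exists_strictMono_subsequence`) `higman` gives `a < b` with `f a <+ f b`, and `ins_sublist` with `z = []`.
Case 2: otherwise for infinitely many `n`: `f n = u n ++ c n :: v n` as in `split_word`; by the pigeonhole principle (`L` finite) we may pass to a subsequence with `c n = c` constant.
If `col c ∉ X`, put `X' = X ∪ {col c}`, `m' = m`: `X'ᶜ.ncard < Xᶜ.ncard`. If `col c ∈ X`, then `c` is marked (`¬ unm c`), so `marks (v n) + 1 ≤ marks (f n) ≤ m`; put `X' = X`, `m' = m - 1`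
(`List.countP_append`, `List.countP_cons`). In both cases the induction hypothesis holds for `m', X'` and all sequences, that is the set of the words with at most `m'` marked letters is
`Set.PartiallyWellOrderedOn` for the relation `ReflTransGen (Ins col unm X')`, which is reflexive and transitive, so (`Set.PartiallyWellOrderedOn.exists_monotone_subseq`; or the infinite Ramsey theorem
`exists_increasing_or_nonincreasing_subseq`) there is a subsequence on which `v` is increasing for it. On this subsequence `higman` gives `a < b` with `u a <+ u b`. `ins_comb` (every element of `X'` is in `X` or is `col c`).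
(Subsequences of subsequences: compose strictly monotone maps.) -/
theorem ins_wqo {L Γ : Type} [Finite L] [Finite Γ] (col : L → Γ) (unm : L → Prop) (m : ℕ) (X : Set Γ)
    (f : ℕ → List L) (hf : ∀ n, marks unm (f n) ≤ m) :
    ∃ a b, a < b ∧ Relation.ReflTransGen (Ins col unm X) (f a) (f b) := by
  obtain ⟨N, hN⟩ : ∃ N, N = m + Xᶜ.ncard := ⟨_, rfl⟩
  induction N using Nat.strong_induction_on generalizing m X f with
  | _ N ih =>
    by_cases hfr : ∃ᶠ n in Filter.atTop, ∀ b ∈ f n, unm b ∧ col b ∈ X
    · obtain ⟨φ, hφ, hφ2⟩ := Filter.extraction_of_frequently_atTop hfr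
      obtain ⟨a, b, hab, h1⟩ := higman (fun n => f (φ n))
      have h2 := ins_sublist h1 (hφ2 b) []
      rw [List.append_nil, List.append_nil] at h2
      exact ⟨φ a, φ b, hφ hab, h2⟩
    · rw [Filter.not_frequently, Filter.eventually_atTop] at hfr
      obtain ⟨N0, hN0⟩ := hfr
      have h1 : ∀ n, ∃ u a v, f (n + N0) = u ++ a :: v ∧ (∀ b ∈ u, unm b ∧ col b ∈ X) ∧
          ¬ (unm a ∧ col a ∈ X) := by
        intro n
        rcases split_word (fun b => unm b ∧ col b ∈ X) (f (n + N0)) with h | h
        · exact absurd h (hN0 (n + N0) (Nat.le_add_left _ _))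
        · exact h
      choose u c v hfe hu hc using h1
      obtain ⟨c0, hc0⟩ := Finite.exists_infinite_fiber c
      have h2 : ∃ᶠ n in Filter.atTop, c n = c0 := by
        rw [Nat.frequently_atTop_iff_infinite]
        exact Set.infinite_coe_iff.1 hc0
      obtain ⟨φ, hφ, hφ2⟩ := Filter.extraction_of_frequently_atTop h2
      -- the smaller parameters
      obtain ⟨m', X', hlt, hm', hX'⟩ : ∃ (m' : ℕ) (X' : Set Γ), m' + X'ᶜ.ncard < N ∧
          (∀ n, marks unm (v (φ n)) ≤ m') ∧ ∀ d ∈ X', d ∈ X ∨ d = col c0 := by
        by_cases hX : col c0 ∈ X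
        · have hun : ¬ unm c0 := by
            intro h
            have := hc (φ 0)
            rw [hφ2 0] at this
            exact this ⟨h, hX⟩
          have h3 : ∀ n, marks unm (v (φ n)) + 1 ≤ m := by
            intro n
            have h4 := hf (φ n + N0)
            rw [hfe, hφ2 n, J01b_marks, if_neg hun] at h4
            omega
          have h5 := h3 0
          refine ⟨m - 1, X, by omega, fun n => ?_, fun d hd => Or.inl hd⟩
          have := h3 n
          omega
        · refine ⟨m, insert (col c0) X, ?_, fun n => ?_, ?_⟩
          · have h3 : (insert (col c0) X)ᶜ.ncard < Xᶜ.ncard := by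
              refine Set.ncard_lt_ncard ?_ (Set.toFinite _)
              rw [Set.ssubset_iff_of_subset (Set.compl_subset_compl.2 (Set.subset_insert _ _))]
              exact ⟨col c0, hX, fun h => h (Set.mem_insert _ _)⟩
            omega
          · have h4 := hf (φ n + N0)
            rw [hfe, J01b_marks] at h4
            omega
          · intro d hd
            rcases Set.mem_insert_iff.1 hd with h | h
            · exact Or.inr h
            · exact Or.inl h
      obtain ⟨g, hg⟩ := J01b_sub col unm m' X' (fun f' hf' => ih _ hlt m' X' f' hf' rfl)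
        (fun n => v (φ n)) hm'
      obtain ⟨a, b, hab, h5⟩ := higman (fun n => u (φ (g n)))
      have h6 := ins_comb h5 (hu (φ (g b))) c0 hX' (hg a b hab.le)
      refine ⟨φ (g a) + N0, φ (g b) + N0, ?_, ?_⟩
      · have := hφ (g.strictMono hab)
        omega
      · rw [hfe, hfe, hφ2, hφ2]
        exact h6

end E4.J
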