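import Pool.Agent.Lib.MP_8a95e3_al.JD

/-!
# J02a : leading terms
-/

namespace E4.J

section

variable {𝔅 I : Type} {lt : 𝔅 → 𝔅 → Prop} {lev : ℕ → Set 𝔅} {ok : I → ℕ → Prop}
  {op : I → ((𝔅 →₀ ZMod 4) →ₗ[ZMod 4] (𝔅 →₀ ZMod 4))} {st : I → 𝔅 → 𝔅}

/-- PROOF. `f.support` is a nonempty finite set, linearly ordered by `lt` (`htri`), so it has a largest element (induction over finsets contained in `lev n`, or `Finset.exists_maximal`). -/
theorem exists_lead (htr : ∀ a b c, lt a b → lt b c → lt a c) (hirr : ∀ a, ¬ lt a a)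
    (htri : ∀ n, ∀ a ∈ lev n, ∀ b ∈ lev n, lt a b ∨ a = b ∨ lt b a) {n : ℕ} {f : 𝔅 →₀ ZMod 4} (hf : f ≠ 0)
    (hs : ∀ b ∈ f.support, b ∈ lev n) : ∃ a, Lead lt lev n a f := by
  classical
  have key : ∀ s : Finset 𝔅, s.Nonempty → (∀ b ∈ s, b ∈ lev n) → ∃ a ∈ s, ∀ b ∈ s, b = a ∨ lt b a := by
    intro s
    induction s using Finset.induction_on with
    | empty => intro h _; exact absurd h Finset.not_nonempty_empty
    | insert c s hc ih =>
      intro _ hl
      rcases s.eq_empty_or_nonempty with he | hne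
      · subst he
        refine ⟨c, Finset.mem_insert_self _ _, fun b hb => ?_⟩
        rw [Finset.mem_insert] at hb
        rcases hb with h | h
        · exact Or.inl h
        · exact absurd h (Finset.notMem_empty _)
      · obtain ⟨a, ha, hmax⟩ := ih hne fun b hb => hl b (Finset.mem_insert_of_mem hb)
        rcases htri n c (hl c (Finset.mem_insert_self _ _)) a (hl a (Finset.mem_insert_of_mem ha)) with h | h | h
        · refine ⟨a, Finset.mem_insert_of_mem ha, fun b hb => ?_⟩
          rw [Finset.mem_insert] at hb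
          rcases hb with h' | h'
          · rw [h']; exact Or.inr h
          · exact hmax b h'
        · refine ⟨a, Finset.mem_insert_of_mem ha, fun b hb => ?_⟩
          rw [Finset.mem_insert] at hb
          rcases hb with h' | h'
          · rw [h']; exact Or.inl h
          · exact hmax b h'
        · refine ⟨c, Finset.mem_insert_self _ _, fun b hb => ?_⟩
          rw [Finset.mem_insert] at hb
          rcases hb with h' | h'
          · exact Or.inl h'
          · rcases hmax b h' with h'' | h''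
            · rw [h'']; exact Or.inr h
            · exact Or.inr (htr _ _ _ h'' h)
  obtain ⟨a, ha, hmax⟩ := key f.support (Finsupp.support_nonempty_iff.2 hf) hs
  exact ⟨a, ⟨hs, ha, hmax⟩⟩

private theorem J02a_apply (L : (𝔅 →₀ ZMod 4) →ₗ[ZMod 4] (𝔅 →₀ ZMod 4)) (f : 𝔅 →₀ ZMod 4) (γ : 𝔅) :
    L f γ = ∑ β ∈ f.support, f β * L (Finsupp.single β 1) γ := by
  classical
  have h1 : f = ∑ β ∈ f.support, f β • Finsupp.single β (1 : ZMod 4) := by
    have h2 := (Finsupp.sum_single f).symm
    unfold Finsupp.sum at h2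
    refine h2.trans (Finset.sum_congr rfl fun β _ => ?_)
    rw [Finsupp.smul_single, smul_eq_mul, mul_one]
  have h3 : L f = ∑ β ∈ f.support, f β • L (Finsupp.single β (1 : ZMod 4)) := by
    conv_lhs => rw [h1]
    rw [map_sum]
    exact Finset.sum_congr rfl fun β _ => map_smul _ _ _
  rw [h3, Finsupp.finsetSum_apply]
  refine Finset.sum_congr rfl fun β _ => ?_
  rw [Finsupp.smul_apply, smul_eq_mul]

/-- One move.
PROOF. `g = op m f = Σ_β f β • op m (single β 1) = Σ_β f β • (single (st m β) 1 + E β)` (`Finsupp.sum_single`, `map_finsuppSum`), where every `γ ∈ (E β).support` is in `lev (n+1)` with `lt γ (st m β)` (`h2`), and for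
`β ∈ f.support`, `β ≠ a`: `lt β a`, so `lt (st m β) (st m a)` (`h3`). So every `γ` with `g γ ≠ 0` is in the support of some summand, hence in `lev (n+1)` (`h1`, `h2`), and `γ = st m a` or `lt γ (st m a)` (transitivity).
The value at `st m a`: only `β = a` contributes, by `f a * 1`: `E a` vanishes at `st m a` (`lt` is irreflexive), and for `β ≠ a` `single (st m β) 1 + E β` vanishes at `st m a` (all elements of its support are `lt` it). -/
theorem lead_step (htr : ∀ a b c, lt a b → lt b c → lt a c) (hirr : ∀ a, ¬ lt a a)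
    (h1 : ∀ m n β, ok m n → β ∈ lev n → st m β ∈ lev (n + 1))
    (h2 : ∀ m n β, ok m n → β ∈ lev n →
      ∀ γ ∈ (op m (Finsupp.single β 1) - Finsupp.single (st m β) 1).support, γ ∈ lev (n + 1) ∧ lt γ (st m β))
    (h3 : ∀ m n β β', ok m n → β ∈ lev n → β' ∈ lev n → lt β β' → lt (st m β) (st m β'))
    {m : I} {n : ℕ} {a : 𝔅} {f : 𝔅 →₀ ZMod 4} (hm : ok m n) (h : Lead lt lev n a f) :
    Lead lt lev (n + 1) (st m a) (op m f) ∧ op m f (st m a) = f a := by
  classical
  have hA : ∀ β ∈ lev n, ∀ γ, op m (Finsupp.single β 1) γ ≠ 0 →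
      γ = st m β ∨ (γ ∈ lev (n + 1) ∧ lt γ (st m β)) := by
    intro β hβ γ hγ
    by_cases he : γ = st m β
    · exact Or.inl he
    · right
      apply h2 m n β hm hβ
      rw [Finsupp.mem_support_iff, Finsupp.sub_apply, Finsupp.single_apply, if_neg (fun h => he h.symm), sub_zero]
      exact hγ
  have hB : ∀ β ∈ lev n, op m (Finsupp.single β 1) (st m β) = 1 := by
    intro β hβ
    by_contra hne
    have h4 := h2 m n β hm hβ (st m β) (by
      rw [Finsupp.mem_support_iff, Finsupp.sub_apply, Finsupp.single_eq_same]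
      exact sub_ne_zero.2 hne)
    exact hirr _ h4.2
  have hC : ∀ γ, op m f γ ≠ 0 → ∃ β ∈ f.support, op m (Finsupp.single β 1) γ ≠ 0 := by
    intro γ hγ
    by_contra hcon
    push Not at hcon
    apply hγ
    rw [J02a_apply]
    refine Finset.sum_eq_zero fun β hβ => ?_
    rw [hcon β hβ, mul_zero]
  have hD : ∀ β ∈ f.support, st m β = st m a ∨ lt (st m β) (st m a) := by
    intro β hβ
    rcases h.le β hβ with he | hl
    · left; rw [he]
    · exact Or.inr (h3 m n β a hm (h.sup β hβ) (h.sup a h.mem) hl)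
  have hval : op m f (st m a) = f a := by
    rw [J02a_apply, Finset.sum_eq_single a]
    · rw [hB a (h.sup a h.mem), mul_one]
    · intro β hβ hne
      have hl : lt β a := (h.le β hβ).resolve_left hne
      have hl' := h3 m n β a hm (h.sup β hβ) (h.sup a h.mem) hl
      by_contra hcon
      have hcon' : op m (Finsupp.single β 1) (st m a) ≠ 0 := fun h0 => hcon (by rw [h0, mul_zero])
      rcases hA β (h.sup β hβ) _ hcon' with he | ⟨_, hl2⟩
      · rw [← he] at hl'
        exact hirr _ hl'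
      · exact hirr _ (htr _ _ _ hl' hl2)
    · intro hna
      exact absurd h.mem hna
  refine ⟨⟨?_, ?_, ?_⟩, hval⟩
  · intro γ hγ
    obtain ⟨β, hβ, hne⟩ := hC γ (Finsupp.mem_support_iff.1 hγ)
    rcases hA β (h.sup β hβ) γ hne with he | ⟨hl, _⟩
    · rw [he]; exact h1 m n β hm (h.sup β hβ)
    · exact hl
  · rw [Finsupp.mem_support_iff, hval]
    exact Finsupp.mem_support_iff.1 h.mem
  · intro γ hγ
    obtain ⟨β, hβ, hne⟩ := hC γ (Finsupp.mem_support_iff.1 hγ)
    rcases hA β (h.sup β hβ) γ hne with he | ⟨_, hl⟩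
    · rw [he]; exact hD β hβ
    · rcases hD β hβ with h4 | h4
      · rw [h4] at hl; exact Or.inr hl
      · exact Or.inr (htr _ _ _ hl h4)

/-- Several moves. PROOF: induction on `Relation.ReflTransGen` (`head_induction_on` or the plain one). -/
theorem lead_reach (htr : ∀ a b c, lt a b → lt b c → lt a c) (hirr : ∀ a, ¬ lt a a)
    (h1 : ∀ m n β, ok m n → β ∈ lev n → st m β ∈ lev (n + 1))
    (h2 : ∀ m n β, ok m n → β ∈ lev n →
      ∀ γ ∈ (op m (Finsupp.single β 1) - Finsupp.single (st m β) 1).support, γ ∈ lev (n + 1) ∧ lt γ (st m β))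
    (h3 : ∀ m n β β', ok m n → β ∈ lev n → β' ∈ lev n → lt β β' → lt (st m β) (st m β'))
    {U : AddSubgroup (𝔅 →₀ ZMod 4)} (hcl : ∀ m f, f ∈ U → op m f ∈ U) {s s' : ℕ × 𝔅}
    (hr : Relation.ReflTransGen (Step ok st) s s') {f : 𝔅 →₀ ZMod 4} (hf : f ∈ U)
    (h : Lead lt lev s.1 s.2 f) : ∃ g ∈ U, Lead lt lev s'.1 s'.2 g ∧ g s'.2 = f s.2 := by
  induction hr with
  | refl => exact ⟨f, hf, h, rfl⟩
  | tail _ hst ih =>
    obtain ⟨g, hg, hl, hv⟩ := ih
    obtain ⟨m, hm, rfl⟩ := hst
    obtain ⟨h4, h5⟩ := lead_step htr hirr h1 h2 h3 hm hl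
    exact ⟨op m g, hcl m g hg, h4, h5.trans hv⟩

end

end E4.J
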