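import Pool.Agent.Lib.MP_8a95e3_al.J02a

/-!
# J02b : the abstract finiteness theorem
-/

namespace E4.J

/-- **Ascending sequences stabilise.**

PROOF. Suppose not. Then there is a strictly increasing `τ : ℕ → ℕ` with `U (τ t) < U (τ (t+1))` for all `t`; replace `U` by `U ∘ τ`: `U t < U (t+1)` for all `t`.
For each `t` there is `f ∈ U (t+1)`, `f ∉ U t`; it is supported in some `lev n` (`hsup`), so it has a leading term (`exists_lead`, `f ≠ 0`). For each `t` choose `n t` and then, among all `f ∈ U (t+1) \ U t` with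
`Lead lt lev (n t) a f` for some `a`, one with the smallest `a` (for `lt`; `a` is in the finite set `lev (n t)` on which `lt` is a strict linear order; a minimal element exists e.g. by `Set.Finite` and well-foundedness, or
`Set.Finite.exists_minimal`...): call it `f t`, `a t`, so that
(M) for every `g ∈ U (t+1)`, `g ∉ U t`, with `Lead lt lev (n t) b g`: not `lt b (a t)`.
The coefficients `f t (a t)` are in the finite type `ZMod 4`: there is a strictly increasing `σ` with `f (σ t) (a (σ t)) = c` for all `t`. Apply `hw` to the sequence `(n (σ t), a (σ t))`: `i < j` with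
`Reach (n s, a s) (n t, a t)`, `s = σ i < t = σ j`. `lead_reach` for `U (s+1)` and `f s`: `g ∈ U (s+1) ≤ U t` with `Lead lt lev (n t) (a t) g` and `g (a t) = f s (a s) = c = f t (a t)`.
`h := f t - g ∈ U (t+1)`, `h ∉ U t` (as `g ∈ U t`), so `h ≠ 0`; its support is in the union of the two supports, without `a t` (`h (a t) = 0`); so it is in `lev (n t)` and all its elements are `lt` `a t`. Its leading
term (`exists_lead`) is `lt` `a t`: contradiction to (M). -/
theorem leadACC {𝔅 I : Type} (lt : 𝔅 → 𝔅 → Prop) (lev : ℕ → Set 𝔅) (hfin : ∀ n, (lev n).Finite)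
    (htr : ∀ a b c, lt a b → lt b c → lt a c) (hirr : ∀ a, ¬ lt a a)
    (htri : ∀ n, ∀ a ∈ lev n, ∀ b ∈ lev n, lt a b ∨ a = b ∨ lt b a)
    (ok : I → ℕ → Prop) (op : I → ((𝔅 →₀ ZMod 4) →ₗ[ZMod 4] (𝔅 →₀ ZMod 4))) (st : I → 𝔅 → 𝔅)
    (h1 : ∀ m n β, ok m n → β ∈ lev n → st m β ∈ lev (n + 1))
    (h2 : ∀ m n β, ok m n → β ∈ lev n →
      ∀ γ ∈ (op m (Finsupp.single β 1) - Finsupp.single (st m β) 1).support, γ ∈ lev (n + 1) ∧ lt γ (st m β))
    (h3 : ∀ m n β β', ok m n → β ∈ lev n → β' ∈ lev n → lt β β' → lt (st m β) (st m β'))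
    (hw : ∀ s : ℕ → ℕ × 𝔅, (∀ t, (s t).2 ∈ lev (s t).1) →
      ∃ a b, a < b ∧ Relation.ReflTransGen (Step ok st) (s a) (s b))
    (U : ℕ → AddSubgroup (𝔅 →₀ ZMod 4)) (hU : Monotone U) (hcl : ∀ t m f, f ∈ U t → op m f ∈ U t)
    (hsup : ∀ t, ∀ f ∈ U t, ∃ n, ∀ β ∈ f.support, β ∈ lev n) : ∃ t, ∀ t' ≥ t, U t' = U t := by
  by_contra hcon
  push Not at hcon
  choose g0 hg0 hg1 using hcon
  -- a strictly increasing subsequence
  obtain ⟨τ, hτ⟩ : ∃ τ : ℕ → ℕ, ∀ t, τ (t + 1) = g0 (τ t) :=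
    ⟨fun t => Nat.rec 0 (fun _ y => g0 y) t, fun t => rfl⟩
  obtain ⟨V, hV⟩ : ∃ V : ℕ → AddSubgroup (𝔅 →₀ ZMod 4), ∀ t, V t = U (τ t) := ⟨fun t => U (τ t), fun t => rfl⟩
  have hlt : ∀ t, V t < V (t + 1) := by
    intro t
    rw [hV, hV, hτ]
    exact lt_of_le_of_ne (hU (hg0 (τ t))) (fun h => hg1 (τ t) h.symm)
  have hmono : Monotone V := (strictMono_nat_of_lt_succ hlt).monotone
  have hclV : ∀ t m f, f ∈ V t → op m f ∈ V t := by
    intro t m f hf
    rw [hV] at hf ⊢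
    exact hcl _ m f hf
  have hsupV : ∀ t, ∀ f ∈ V t, ∃ n, ∀ β ∈ f.support, β ∈ lev n := by
    intro t f hf
    rw [hV] at hf
    exact hsup _ f hf
  -- minimal leading terms
  have hmin : ∀ t, ∃ (n : ℕ) (a : 𝔅) (f : 𝔅 →₀ ZMod 4), f ∈ V (t + 1) ∧ f ∉ V t ∧ Lead lt lev n a f ∧
      ∀ g ∈ V (t + 1), g ∉ V t → ∀ b, Lead lt lev n b g → ¬ lt b a := by
    intro t
    obtain ⟨f, hf, hf'⟩ := SetLike.exists_of_lt (hlt t)
    obtain ⟨n, hn⟩ := hsupV _ f hf
    have hf0 : f ≠ 0 := fun h => hf' (by rw [h]; exact (V t).zero_mem)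
    obtain ⟨a, ha⟩ := exists_lead htr hirr htri hf0 hn
    obtain ⟨S, hS⟩ : ∃ S : Set 𝔅, S = {a | a ∈ lev n ∧ ∃ f ∈ V (t + 1), f ∉ V t ∧ Lead lt lev n a f} := ⟨_, rfl⟩
    have hSfin : S.Finite := (hfin n).subset fun b hb => by
      rw [hS] at hb
      exact hb.1
    have hmemS : ∀ b, b ∈ S ↔ b ∈ lev n ∧ ∃ f ∈ V (t + 1), f ∉ V t ∧ Lead lt lev n b f := by
      intro b
      rw [hS]
      exact Iff.rfl
    haveI : Finite S := hSfin
    haveI : IsTrans S (fun b c => lt b.1 c.1) := ⟨fun b c d h h' => htr _ _ _ h h'⟩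
    haveI : Std.Irrefl (fun b c : S => lt b.1 c.1) := ⟨fun b h => hirr _ h⟩
    have hwf : WellFounded (fun b c : S => lt b.1 c.1) := Finite.wellFounded_of_trans_of_irrefl _
    obtain ⟨m, -, hm⟩ := hwf.has_min (Set.univ : Set S) ⟨⟨a, (hmemS a).2 ⟨ha.sup a ha.mem, f, hf, hf', ha⟩⟩, trivial⟩
    obtain ⟨hm1, f', hf1, hf2, hf3⟩ := (hmemS m.1).1 m.2
    refine ⟨n, m.1, f', hf1, hf2, hf3, fun g hg hg' b hb hlt' => ?_⟩
    exact hm ⟨b, (hmemS b).2 ⟨hb.sup b hb.mem, g, hg, hg', hb⟩⟩ trivial hlt'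
  choose n a f hf hf' hlead hM using hmin
  -- pigeonhole
  obtain ⟨c, hc⟩ := Finite.exists_infinite_fiber (fun t => f t (a t))
  have hc' : (setOf fun t => f t (a t) = c).Infinite := Set.infinite_coe_iff.1 hc
  have hσ : StrictMono (Nat.nth fun t => f t (a t) = c) := Nat.nth_strictMono hc'
  have hσ' : ∀ k, f (Nat.nth (fun t => f t (a t) = c) k) (a (Nat.nth (fun t => f t (a t) = c) k)) = c :=
    fun k => Nat.nth_mem_of_infinite hc' k
  obtain ⟨σ, hσe⟩ : ∃ σ, σ = Nat.nth (fun t => f t (a t) = c) := ⟨_, rfl⟩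
  rw [← hσe] at hσ hσ'
  obtain ⟨i, j, hij, hreach⟩ := hw (fun t => (n (σ t), a (σ t))) (fun t => (hlead (σ t)).sup _ (hlead (σ t)).mem)
  obtain ⟨g, hg, hgl, hgv⟩ := lead_reach htr hirr h1 h2 h3 (U := V (σ i + 1)) (fun m f hf => hclV _ m f hf) hreach
    (hf (σ i)) (hlead (σ i))
  simp only at hgl hgv
  have hgV : g ∈ V (σ j) := hmono (hσ hij) hg
  have hgV' : g ∈ V (σ j + 1) := hmono (Nat.le_succ _) hgV
  have hh1 : f (σ j) - g ∈ V (σ j + 1) := (V (σ j + 1)).sub_mem (hf (σ j)) hgV'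
  have hh2 : f (σ j) - g ∉ V (σ j) := by
    intro h
    have := (V (σ j)).add_mem h hgV
    rw [sub_add_cancel] at this
    exact hf' (σ j) this
  have hh0 : f (σ j) - g ≠ 0 := fun h => hh2 (by rw [h]; exact (V (σ j)).zero_mem)
  have hval : (f (σ j) - g) (a (σ j)) = 0 := by
    rw [Finsupp.sub_apply, hσ' j, hgv, hσ' i, sub_self]
  have hsupp : ∀ b ∈ (f (σ j) - g).support, b ∈ (f (σ j)).support ∨ b ∈ g.support := by
    intro b hb
    by_contra h
    push Not at h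
    rw [Finsupp.notMem_support_iff, Finsupp.notMem_support_iff] at h
    rw [Finsupp.mem_support_iff, Finsupp.sub_apply, h.1, h.2, sub_zero] at hb
    exact hb rfl
  obtain ⟨b, hb⟩ := exists_lead (n := n (σ j)) htr hirr htri hh0 (fun b hb => by
    rcases hsupp b hb with h | h
    · exact (hlead (σ j)).sup b h
    · exact hgl.sup b h)
  have hba : b ≠ a (σ j) := by
    rintro rfl
    exact (Finsupp.mem_support_iff.1 hb.mem) hval
  have hlt' : lt b (a (σ j)) := by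
    rcases hsupp b hb.mem with h | h
    · exact ((hlead (σ j)).le b h).resolve_left hba
    · exact (hgl.le b h).resolve_left hba
  exact hM (σ j) _ hh1 hh2 b hb hlt'

end E4.J
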