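import Pool.Agent.Lib.MP_8a95e3_al.JD

/-!
# J03a : the abelianisation modulo 4 and the Magnus derivation
-/

namespace E4.J

theorem abv_mul (f g : F) : abv (f * g) = abv f + abv g := by
  unfold abv
  rw [map_mul, toAdd_mul]

theorem abv_one : abv 1 = 0 := by
  unfold abv
  rw [map_one, toAdd_one]

theorem abv_inv (f : F) : abv f⁻¹ = -abv f := by
  unfold abv
  rw [map_inv, toAdd_inv]

theorem abv_x (j : ℕ) : abv (x j) = Finsupp.single j 1 := by
  unfold abv ab x
  simp

theorem abv_pow (f : F) (n : ℕ) : abv (f ^ n) = (n : ZMod 4) • abv f := by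
  unfold abv
  rw [map_pow, toAdd_pow, Nat.cast_smul_eq_nsmul]

theorem mem_RR {f : F} : f ∈ RR ↔ abv f = 0 := by
  unfold RR abv
  rw [MonoidHom.mem_ker]
  exact toAdd_eq_zero.symm

theorem act_single (a : A4) (b : B4) (c : ZMod 4) :
    act a (Finsupp.single b c) = Finsupp.single (a + b.1, b.2) c := by
  unfold act
  rw [Finsupp.lmapDomain_apply, Finsupp.mapDomain_single]

private theorem J03a_of (j : ℕ) (z : M4) (c : A4) : Aff (FreeGroup.of j) (z, c) =
    (Finsupp.single (0, j) 1 + act (Finsupp.single j 1) z, Finsupp.single j 1 + c) := by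
  unfold Aff
  rw [FreeGroup.lift_apply_of]
  rfl

private theorem J03a_ex (f : F) : ∃ m : M4, ∀ (z : M4) (c : A4), Aff f (z, c) = (m + act (abv f) z, abv f + c) := by
  induction f using FreeGroup.induction_on with
  | C1 =>
    refine ⟨0, fun z c => ?_⟩
    rw [map_one, abv_one, act_zero, zero_add, zero_add]
    rfl
  | of j =>
    refine ⟨Finsupp.single (0, j) 1, fun z c => ?_⟩
    have h : abv (FreeGroup.of j) = Finsupp.single j 1 := abv_x j
    rw [J03a_of, h]
  | inv_of j _ =>
    refine ⟨-act (-Finsupp.single j 1) (Finsupp.single (0, j) 1), fun z c => ?_⟩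
    have h : abv (FreeGroup.of j)⁻¹ = -Finsupp.single j 1 := by
      rw [abv_inv]
      exact congrArg _ (abv_x j)
    rw [map_inv, h, Equiv.Perm.inv_eq_iff_eq, J03a_of, Prod.mk.injEq]
    constructor
    · rw [map_add, map_neg, ← act_add, ← act_add, add_neg_cancel, act_zero, act_zero]
      abel
    · abel
  | mul f g hf hg =>
    obtain ⟨m, hm⟩ := hf
    obtain ⟨m', hm'⟩ := hg
    refine ⟨m + act (abv f) m', fun z c => ?_⟩
    rw [map_mul, Equiv.Perm.mul_apply, hm', hm, abv_mul, map_add, act_add, add_assoc, add_assoc]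

/-- PROOF. Induction on `f` (`FreeGroup.induction_on`): `f = 1`; `f = of j` (definition of `affP`, `add_zero`, `act a 0 = 0`); inverse of a letter; products `Aff (f g) = Aff f * Aff g`,
`Aff f (Aff g (z, c)) = (D f + act (abv f) (D g + act (abv g) z), abv f + (abv g + c))`, and `D (f g)` is the first component for `z = 0`, `c = 0` (`act_add`).
It is convenient to prove: for every `f` there is `m` with `∀ z c, Aff f (z, c) = (m + act (abv f) z, abv f + c)`; then `m = D f`. -/
theorem Aff_apply (f : F) (z : M4) (c : A4) : Aff f (z, c) = (D f + act (abv f) z, abv f + c) := by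
  obtain ⟨m, hm⟩ := J03a_ex f
  have h : D f = m := by
    unfold D
    rw [hm, map_zero, add_zero]
  rw [h, hm]

/-- PROOF: `Aff_apply` for `f` and for `g` at `(0, 0)`. -/
theorem D_mul (f g : F) : D (f * g) = D f + act (abv f) (D g) := by
  have h : D (f * g) = (Aff (f * g) (0, 0)).1 := rfl
  rw [h, map_mul, Equiv.Perm.mul_apply, Aff_apply g, Aff_apply f, map_zero, add_zero]

theorem D_one : D 1 = 0 := by
  unfold D
  rw [map_one]
  rfl

theorem D_x (j : ℕ) : D (x j) = Finsupp.single (0, j) 1 := by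
  unfold D
  have h := J03a_of j 0 0
  change (Aff (FreeGroup.of j) (0, 0)).1 = _
  rw [h, map_zero, add_zero]

/-- PROOF: `0 = D (f⁻¹ f)`. -/
theorem D_inv (f : F) : D f⁻¹ = -act (-abv f) (D f) := by
  have h := D_mul f⁻¹ f
  rw [inv_mul_cancel, D_one, abv_inv] at h
  exact eq_neg_of_add_eq_zero_left h.symm

/-- PROOF: `abv r = 0`. -/
theorem D_mul_RR {r : F} (hr : r ∈ RR) (f : F) : D (r * f) = D r + D f := by
  rw [D_mul, mem_RR.1 hr, act_zero]

end E4.J
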