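import Pool.Agent.Lib.MP_8a95e3_al.J03a

/-!
# J03b : endomorphisms act on the Magnus module
-/

namespace E4.J

theorem phiA_single (φ : F →* F) (j : ℕ) (c : ZMod 4) : phiA φ (Finsupp.single j c) = c • abv (φ (x j)) := by
  unfold phiA
  rw [Finsupp.linearCombination_single]

/-- PROOF. Induction on `f` (`FreeGroup.induction_on`), or equality of two homomorphisms `F →* Multiplicative A4` on the generators. -/
theorem abv_map (φ : F →* F) (f : F) : abv (φ f) = phiA φ (abv f) := by
  induction f using FreeGroup.induction_on with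
  | C1 => rw [map_one, abv_one, map_zero]
  | of j =>
    change abv (φ (x j)) = phiA φ (abv (x j))
    rw [abv_x, phiA_single, one_smul]
  | inv_of j ih =>
    change abv (φ (x j)⁻¹) = phiA φ (abv (x j)⁻¹)
    change abv (φ (x j)) = phiA φ (abv (x j)) at ih
    rw [map_inv, abv_inv, abv_inv, map_neg, ih]
  | mul a b iha ihb => rw [map_mul, abv_mul, abv_mul, map_add, iha, ihb]

theorem RR_endo (φ : F →* F) {f : F} (hf : f ∈ RR) : φ f ∈ RR := by
  rw [mem_RR] at hf ⊢
  rw [abv_map, hf, map_zero]

theorem phiM_single (φ : F →* F) (b : B4) (c : ZMod 4) :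
    phiM φ (Finsupp.single b c) = c • act (phiA φ b.1) (D (φ (x b.2))) := by
  unfold phiM
  rw [Finsupp.linearCombination_single]

/-- PROOF: both sides are linear in `m`; for `m = single b c`: `phiA φ (a + b.1) = phiA φ a + phiA φ b.1`, `act_add`. -/
theorem phiM_act (φ : F →* F) (a : A4) (m : M4) : phiM φ (act a m) = act (phiA φ a) (phiM φ m) := by
  induction m using Finsupp.induction_linear with
  | zero => simp only [map_zero]
  | add m m' h h' => rw [map_add, map_add, map_add, map_add, h, h']
  | single b c =>
    rw [act_single, phiM_single, phiM_single, map_add, map_smul, act_add]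

/-- PROOF. Induction on `f` (`FreeGroup.induction_on`): `D_x` and `phiM_single` with `b = (0, j)`; inverses: `D_inv`, `phiM_act`; products: `D_mul`, `phiM_act`, `abv_map`. -/
theorem D_map (φ : F →* F) (f : F) : D (φ f) = phiM φ (D f) := by
  induction f using FreeGroup.induction_on with
  | C1 => rw [map_one, D_one, map_zero]
  | of j =>
    change D (φ (x j)) = phiM φ (D (x j))
    rw [D_x, phiM_single, one_smul, map_zero, act_zero]
  | inv_of j ih =>
    change D (φ (x j)⁻¹) = phiM φ (D (x j)⁻¹)
    change D (φ (x j)) = phiM φ (D (x j)) at ih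
    rw [map_inv, D_inv, D_inv, map_neg, phiM_act, map_neg, ih, abv_map]
  | mul a b iha ihb => rw [map_mul, D_mul, D_mul, map_add, phiM_act, iha, ihb, abv_map]

private theorem J03b_Zp_x (p j : ℕ) : Zp p (x j) = x (sp p j) := by
  unfold Zp x
  rw [FreeGroup.lift_apply_of]

private theorem J03b_Cp_x (k p j : ℕ) : Cp k p (x j) = if j = k then x k * x p else x j := by
  unfold Cp
  exact FreeGroup.lift_apply_of

/-- PROOF: `Finsupp.lhom_ext`/`Finsupp.linearCombination_single` on `single j 1`; `abv (x (sp p j)) = single (sp p j) 1`. -/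
theorem phiA_Zp (p : ℕ) (a : A4) : phiA (Zp p) a = a.mapDomain (sp p) := by
  induction a using Finsupp.induction_linear with
  | zero => rw [map_zero, Finsupp.mapDomain_zero]
  | add a b h h' => rw [map_add, Finsupp.mapDomain_add, h, h']
  | single j c =>
    rw [phiA_single, Finsupp.mapDomain_single, J03b_Zp_x, abv_x, Finsupp.smul_single, smul_eq_mul, mul_one]

/-- PROOF: linear in `a`; on `single j 1`: for `j = k` `abv (x k * x p) = single k 1 + single p 1`. -/
theorem phiA_Cp {k p : ℕ} (a : A4) : phiA (Cp k p) a = cA k p a := by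
  induction a using Finsupp.induction_linear with
  | zero =>
    unfold cA
    rw [map_zero, Finsupp.zero_apply, Finsupp.single_zero, add_zero]
  | add a b h h' =>
    rw [map_add, h, h']
    unfold cA
    rw [Finsupp.add_apply, Finsupp.single_add]
    abel
  | single j c =>
    unfold cA
    rw [phiA_single, J03b_Cp_x]
    by_cases hj : j = k
    · rw [if_pos hj, abv_mul, abv_x, abv_x, smul_add, Finsupp.smul_single, Finsupp.smul_single, smul_eq_mul, mul_one,
        hj, Finsupp.single_eq_same]
    · rw [if_neg hj, abv_x, Finsupp.smul_single, smul_eq_mul, mul_one, Finsupp.single_eq_of_ne (Ne.symm hj),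
        Finsupp.single_zero, add_zero]

theorem phiM_Zp (p : ℕ) : phiM (Zp p) = zM p := by
  refine Finsupp.lhom_ext fun b c => ?_
  unfold zM
  rw [phiM_single, phiA_Zp, J03b_Zp_x, D_x, act_single, Finsupp.smul_single, smul_eq_mul, mul_one,
    Finsupp.lmapDomain_apply, Finsupp.mapDomain_single, add_zero]
  rfl

/-- PROOF. On `single b 1`: for `b.2 ≠ k` `D (x b.2) = single (0, b.2) 1`; for `b.2 = k` `D (x k * x p) = single (0, k) 1 + single (single k 1, p) 1` (`D_mul`, `D_x`, `act_single`). -/
theorem phiM_Cp (k p : ℕ) : phiM (Cp k p) = cM k p := by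
  refine Finsupp.lhom_ext fun b c => ?_
  unfold cM
  rw [phiM_single, phiA_Cp, J03b_Cp_x, Finsupp.linearCombination_single]
  by_cases hj : b.2 = k
  · rw [if_pos hj, if_pos hj, D_mul, D_x, D_x, abv_x, act_single, map_add, act_single, act_single, add_zero, add_zero, hj]
  · rw [if_neg hj, if_neg hj, D_x, act_single, add_zero, add_zero]

end E4.J
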