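import Pool.Agent.Lib.MP_8a95e3_al.J03a

/-!
# J04 : the expansion lemma
-/

namespace E4.J

private theorem J04_surj (a : A4) : ∃ f : F, abv f = a := by
  induction a using Finsupp.induction_linear with
  | zero => exact ⟨1, abv_one⟩
  | add p q hp hq =>
    obtain ⟨f, hf⟩ := hp
    obtain ⟨g, hg⟩ := hq
    exact ⟨f * g, by rw [abv_mul, hf, hg]⟩
  | single j c =>
    refine ⟨x j ^ c.val, ?_⟩
    rw [abv_pow, abv_x, Finsupp.smul_single, smul_eq_mul, mul_one, ZMod.natCast_zmod_val]

/-- PROOF. `abv` is surjective: `abv` of a product of powers `x j ^ (a j).val` (induction on `a`, `Finsupp.induction_linear` or `Finsupp.induction`: `single j c = abv (x j ^ c.val)` by `abv_pow`, `abv_x`). -/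
theorem exists_section : ∃ t : A4 → F, t 0 = 1 ∧ ∀ a, abv (t a) = a := by
  classical
  choose t ht using J04_surj
  refine ⟨fun a => if a = 0 then 1 else t a, ?_, ?_⟩
  · simp only [if_true]
  · intro a
    by_cases h : a = 0
    · simp only [h, if_true]
      exact abv_one
    · simp only [if_neg h]
      exact ht a

/-- A section of `abv`. -/
noncomputable def tS : A4 → F := Classical.choose exists_section

private theorem J04_tS0 : tS 0 = 1 := (Classical.choose_spec exists_section).1

private theorem J04_tS (a : A4) : abv (tS a) = a := (Classical.choose_spec exists_section).2 a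

/-- The Schreier generators. -/
noncomputable def rho (b : B4) : F := tS b.1 * x b.2 * (tS (b.1 + Finsupp.single b.2 1))⁻¹

private theorem J04_mem (a : A4) (f : F) : tS a * f * (tS (a + abv f))⁻¹ ∈ RR := by
  rw [mem_RR, abv_mul, abv_mul, abv_inv, J04_tS, J04_tS]
  abel

theorem rho_mem (b : B4) : rho b ∈ RR := by
  have h := J04_mem b.1 (x b.2)
  rw [abv_x] at h
  exact h

/-- **Expansion.**

PROOF. (`θ 1 = 0` from `θ (1 * 1)`, `θ r⁻¹ = - θ r`.) For all `f : F` and all `a : A4`
(*) `θ (tS a * f * (tS (a + abv f))⁻¹) = Λ (act a (D f))`, `Λ := Finsupp.linearCombination (ZMod 4) fun b => θ (rho b)`.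
Induction on `f` (`FreeGroup.induction_on`): `f = 1`: both sides are zero. `f = x j`: the left side is `θ (rho (a, j))`, `act a (D (x j)) = single (a, j) 1`.
`f = (x j)⁻¹`: `tS a * (x j)⁻¹ * (tS (a - δ_j))⁻¹ = (rho (a - δ_j, j))⁻¹` and `act a (D (x j)⁻¹) = - single (a - δ_j, j) 1` (`D_inv`).
Products: `tS a * (f g) * (tS (a + abv f + abv g))⁻¹ = (tS a * f * (tS (a + abv f))⁻¹) * (tS (a + abv f) * g * (tS (a + abv f + abv g))⁻¹)`, both factors are in `RR`, and
`act a (D (f g)) = act a (D f) + act (a + abv f) (D g)`.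
Put `a = 0`, `f = r`: `abv r = 0`, `tS 0 = 1`, `act_zero`. -/
theorem expansion {Q : Type} [AddCommGroup Q] [Module (ZMod 4) Q] (θ : F → Q)
    (hθ : ∀ r ∈ RR, ∀ r' ∈ RR, θ (r * r') = θ r + θ r') {r : F} (hr : r ∈ RR) :
    θ r = Finsupp.linearCombination (ZMod 4) (fun b : B4 => θ (rho b)) (D r) := by
  have h1 : θ 1 = 0 := by
    have h := hθ 1 (Subgroup.one_mem _) 1 (Subgroup.one_mem _)
    rw [mul_one] at h
    exact left_eq_add.1 h
  have hinv : ∀ s ∈ RR, θ s⁻¹ = -θ s := by
    intro s hs
    have h := hθ s⁻¹ (Subgroup.inv_mem _ hs) s hs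
    rw [inv_mul_cancel, h1] at h
    exact eq_neg_of_add_eq_zero_left h.symm
  have key : ∀ f : F, ∀ a : A4, θ (tS a * f * (tS (a + abv f))⁻¹) =
      Finsupp.linearCombination (ZMod 4) (fun b : B4 => θ (rho b)) (act a (D f)) := by
    intro f
    induction f using FreeGroup.induction_on with
    | C1 =>
      intro a
      rw [abv_one, D_one, add_zero, map_zero, map_zero, mul_one, mul_inv_cancel, h1]
    | of j =>
      intro a
      have e : (FreeGroup.of j : F) = x j := rfl
      rw [e, abv_x, D_x, act_single, add_zero, Finsupp.linearCombination_single, one_smul]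
      rfl
    | inv_of j _ =>
      intro a
      have e : (FreeGroup.of j : F) = x j := rfl
      rw [e, D_inv, abv_inv, abv_x, D_x, act_single, add_zero, map_neg, act_single, map_neg,
        Finsupp.linearCombination_single, one_smul, ← hinv _ (rho_mem _)]
      refine congrArg θ ?_
      unfold rho
      simp only []
      have e3 : a + -Finsupp.single j (1 : ZMod 4) + Finsupp.single j 1 = a := by abel
      rw [e3]
      group
    | mul f g hf hg =>
      intro a
      have e4 : tS a * (f * g) * (tS (a + abv (f * g)))⁻¹ =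
          (tS a * f * (tS (a + abv f))⁻¹) *
            (tS (a + abv f) * g * (tS (a + abv f + abv g))⁻¹) := by
        rw [abv_mul, ← add_assoc]
        group
      rw [e4, hθ _ (J04_mem a f) _ (J04_mem (a + abv f) g), hf a, hg (a + abv f), D_mul, map_add,
        map_add, act_add]
  have h := key r 0
  rw [zero_add, mem_RR.1 hr, J04_tS0, one_mul, inv_one, mul_one, act_zero] at h
  exact h

end E4.J
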