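import Pool.Agent.Lib.MP_8a95e3_al.JD

/-!
# J05a : tensors
-/

namespace E4.J

theorem consL_single (b : B4) (c : ZMod 4) (X : T4) :
    consL (Finsupp.single b c) X = c • X.mapDomain (List.cons b) := by
  unfold consL
  rw [Finsupp.linearCombination_single, LinearMap.smul_apply, Finsupp.lmapDomain_apply]

theorem consL_single_single (b : B4) (β : List B4) :
    consL (Finsupp.single b 1) (Finsupp.single β 1) = Finsupp.single (b :: β) 1 := by
  rw [consL_single, one_smul, Finsupp.mapDomain_single]

theorem tmap_single (α : M4 →ₗ[ZMod 4] M4) (β : List B4) :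
    tmap α (Finsupp.single β 1) = prodT (β.map fun b => α (Finsupp.single b 1)) := by
  unfold tmap
  rw [Finsupp.linearCombination_single, one_smul]

private theorem J05a_single (b : B4) (c : ZMod 4) : (Finsupp.single b c : M4) = c • Finsupp.single b 1 := by
  rw [Finsupp.smul_single, smul_eq_mul, mul_one]

private theorem J05a_singleT (β : List B4) (c : ZMod 4) : (Finsupp.single β c : T4) = c • Finsupp.single β 1 := by
  rw [Finsupp.smul_single, smul_eq_mul, mul_one]

/-- PROOF. Both sides are bilinear in `m`, `X` (`Finsupp.induction_linear` twice, or `LinearMap.ext` with `Finsupp.lhom_ext'`); for `m = single b 1`, `X = single β 1` it is the definition of `prodT` on a `cons`. -/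
theorem tmap_consL (α : M4 →ₗ[ZMod 4] M4) (m : M4) (X : T4) :
    tmap α (consL m X) = consL (α m) (tmap α X) := by
  induction m using Finsupp.induction_linear with
  | zero => rw [map_zero, LinearMap.zero_apply, map_zero, map_zero, map_zero, LinearMap.zero_apply]
  | add m m' h h' => rw [map_add, LinearMap.add_apply, map_add, h, h', map_add, map_add, LinearMap.add_apply]
  | single b c =>
    rw [J05a_single b c, map_smul, LinearMap.smul_apply, map_smul, map_smul, map_smul, LinearMap.smul_apply]
    congr 1
    induction X using Finsupp.induction_linear with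
    | zero => rw [map_zero, map_zero, map_zero]
    | add X X' h h' => rw [map_add, map_add, h, h', map_add, map_add]
    | single β d =>
      rw [J05a_singleT β d, map_smul, map_smul, map_smul, map_smul, consL_single_single, tmap_single, tmap_single,
        List.map_cons]
      rfl

/-- PROOF: induction on `ms`, `tmap_consL`; `tmap α (single [] 1) = single [] 1`. -/
theorem tmap_prodT (α : M4 →ₗ[ZMod 4] M4) (ms : List M4) : tmap α (prodT ms) = prodT (ms.map α) := by
  induction ms with
  | nil =>
    change tmap α (Finsupp.single [] 1) = _
    rw [tmap_single]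
    rfl
  | cons m ms ih =>
    change tmap α (consL m (prodT ms)) = consL (α m) (prodT (ms.map α))
    rw [tmap_consL, ih]

/-- PROOF: induction on `bs`. -/
theorem prodT_single (bs : List B4) : prodT (bs.map fun b => Finsupp.single b 1) = Finsupp.single bs 1 := by
  induction bs with
  | nil => rfl
  | cons b bs ih =>
    change consL (Finsupp.single b 1) (prodT (bs.map fun b => Finsupp.single b 1)) = _
    rw [ih, consL_single_single]

private theorem J05a_sup {n : ℕ} (m : M4) (X : T4) (hX : ∀ β ∈ X.support, β.length = n) :
    ∀ β ∈ (consL m X).support, β.length = n + 1 := by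
  classical
  induction m using Finsupp.induction_linear with
  | zero =>
    intro β hβ
    rw [map_zero, LinearMap.zero_apply] at hβ
    exact absurd hβ (Finset.notMem_empty β)
  | add m m' h h' =>
    intro β hβ
    rw [map_add, LinearMap.add_apply] at hβ
    rcases Finset.mem_union.1 (Finsupp.support_add hβ) with h1 | h1
    · exact h β h1
    · exact h' β h1
  | single b c =>
    intro β hβ
    rw [consL_single] at hβ
    have h1 := Finsupp.support_smul hβ
    obtain ⟨β', h2, rfl⟩ := Finset.mem_image.1 (Finsupp.mapDomain_support h1)
    rw [List.length_cons, hX β' h2]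

private theorem J05a_len (ms : List M4) : ∀ β ∈ (prodT ms).support, β.length = ms.length := by
  induction ms with
  | nil =>
    intro β hβ
    change β ∈ (Finsupp.single ([] : List B4) (1 : ZMod 4)).support at hβ
    have h1 := Finset.mem_singleton.1 (Finsupp.support_single_subset hβ)
    rw [h1]
    rfl
  | cons m ms ih =>
    change ∀ β ∈ (consL m (prodT ms)).support, β.length = _
    rw [List.length_cons]
    exact J05a_sup m (prodT ms) ih

/-- PROOF. Induction on `ms`: the support of `consL m X` is contained in the set of the `b :: β`, `β ∈ X.support`. -/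
theorem prodT_length (ms : List M4) {β : List B4} (h : β ∈ (prodT ms).support) : β.length = ms.length :=
  J05a_len ms β h

/-- PROOF: `f = Σ f β • single β 1`, `tmap_single`, `prodT_length`. -/
theorem tmap_length (α : M4 →ₗ[ZMod 4] M4) {d : ℕ} {f : T4} (hf : ∀ β ∈ f.support, β.length = d)
    {β : List B4} (h : β ∈ (tmap α f).support) : β.length = d := by
  classical
  unfold tmap at h
  rw [Finsupp.linearCombination_apply, Finsupp.sum] at h
  obtain ⟨β', h1, h2⟩ := Finset.mem_biUnion.1 (Finsupp.support_finsetSum h)
  have h3 := Finsupp.support_smul h2
  rw [prodT_length _ h3, List.length_map, hf β' h1]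

/-- PROOF: `tmap (zM p) (single β 1) = prodT (β.map fun b => single (zB p b) 1) = single (β.map (zB p)) 1`. -/
theorem tmap_zM (p : ℕ) (β : List B4) :
    tmap (zM p) (Finsupp.single β 1) = Finsupp.single (β.map (zB p)) 1 := by
  rw [tmap_single, ← prodT_single, List.map_map]
  congr 1
  refine List.map_congr_left fun b _ => ?_
  change zM p (Finsupp.single b 1) = Finsupp.single (zB p b) 1
  unfold zM
  rw [Finsupp.lmapDomain_apply, Finsupp.mapDomain_single]

end E4.J
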