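import Pool.Agent.Lib.MP_8a95e3_al.J04
import Pool.Agent.Lib.MP_8a95e3_al.J05a

/-!
# J05b : the multilinear expansion
-/

namespace E4.J

/-- The general form.

PROOF. Induction on `rs`, for all `u` and `Ψ`. `rs = []`: `prodT [] = single [] 1`, `hΨ` for `w = []`.
`rs = r :: rs'`: for `b : B4` let `Ψ_b X := Ψ (consL (single b 1) X)` (a linear map). For `w.length = rs'.length`: `Ψ_b (single w 1) = Ψ (single (b :: w) 1) = β (u ++ rho b :: w.map rho) = β ((u ++ [rho b]) ++ w.map rho)`, so by the induction
hypothesis for `u ++ [rho b]` (`rho_mem`): `Ψ (consL (single b 1) (prodT (rs'.map D))) = β (u ++ rho b :: rs')`. The map `m ↦ Ψ (consL m (prodT (rs'.map D)))` is linear, so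
`Ψ (prodT ((r :: rs').map D)) = Ψ (consL (D r) (prodT (rs'.map D))) = Finsupp.linearCombination (ZMod 4) (fun b => β (u ++ rho b :: rs')) (D r)` (write `D r = Σ (D r b) • single b 1`; or both sides are linear maps of `m = D r` which agree on
`single b 1`). By `expansion` for `θ s := β (u ++ s :: rs')` (`hβ`: `u.length + rs'.length + 1 = d`) this is `β (u ++ r :: rs')`. -/
theorem multilin_aux {Q : Type} [AddCommGroup Q] [Module (ZMod 4) Q] (d : ℕ) (β : List F → Q)
    (hβ : ∀ (u v : List F) (r r' : F), u.length + v.length + 1 = d → (∀ s ∈ u, s ∈ RR) → (∀ s ∈ v, s ∈ RR) →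
      r ∈ RR → r' ∈ RR → β (u ++ (r * r') :: v) = β (u ++ r :: v) + β (u ++ r' :: v))
    (rs : List F) (hr : ∀ r ∈ rs, r ∈ RR) (u : List F) (hu : ∀ s ∈ u, s ∈ RR) (hd : u.length + rs.length = d)
    (Ψ : T4 →ₗ[ZMod 4] Q)
    (hΨ : ∀ w : List B4, w.length = rs.length → Ψ (Finsupp.single w 1) = β (u ++ w.map rho)) :
    Ψ (prodT (rs.map D)) = β (u ++ rs) := by
  induction rs generalizing u Ψ with
  | nil =>
    have h1 := hΨ [] rfl
    exact h1
  | cons r rs ih =>
    have hrs : ∀ s ∈ rs, s ∈ RR := fun s hs => hr s (List.mem_cons_of_mem _ hs)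
    have hrr : r ∈ RR := hr r List.mem_cons_self
    have hd' : u.length + rs.length + 1 = d := by
      rw [List.length_cons] at hd
      omega
    have hΦ : Ψ.comp (consL.flip (prodT (rs.map D))) =
        Finsupp.linearCombination (ZMod 4) (fun b : B4 => β (u ++ rho b :: rs)) := by
      refine Finsupp.lhom_ext' fun b => LinearMap.ext_ring ?_
      rw [LinearMap.comp_apply, LinearMap.comp_apply, Finsupp.lsingle_apply, LinearMap.comp_apply, Finsupp.lsingle_apply,
        Finsupp.linearCombination_single, one_smul, LinearMap.flip_apply]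
      have h1 := ih hrs (u ++ [rho b]) (by
        intro s hs
        rcases List.mem_append.1 hs with h2 | h2
        · exact hu s h2
        · rw [List.mem_singleton.1 h2]
          exact rho_mem b) (by
        rw [List.length_append, List.length_singleton]
        omega) (Ψ.comp (consL (Finsupp.single b 1))) (by
        intro w hw
        rw [LinearMap.comp_apply, consL_single_single, hΨ (b :: w) (by rw [List.length_cons, List.length_cons, hw]),
          List.map_cons, List.append_assoc, List.singleton_append])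
      rw [LinearMap.comp_apply, List.append_assoc, List.singleton_append] at h1
      exact h1
    have h2 := LinearMap.congr_fun hΦ (D r)
    rw [LinearMap.comp_apply, LinearMap.flip_apply] at h2
    have h3 := expansion (fun s => β (u ++ s :: rs)) (fun s hs s' hs' => hβ u rs s s' hd' hu hrs hs hs') hrr
    show Ψ (consL (D r) (prodT (rs.map D))) = β (u ++ r :: rs)
    rw [h2, h3]

/-- **Multilinear expansion.** PROOF: `multilin_aux` with `u = []`. -/
theorem multilin {Q : Type} [AddCommGroup Q] [Module (ZMod 4) Q] (d : ℕ) (β : List F → Q)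
    (hβ : ∀ (u v : List F) (r r' : F), u.length + v.length + 1 = d → (∀ s ∈ u, s ∈ RR) → (∀ s ∈ v, s ∈ RR) →
      r ∈ RR → r' ∈ RR → β (u ++ (r * r') :: v) = β (u ++ r :: v) + β (u ++ r' :: v))
    (Ψ : T4 →ₗ[ZMod 4] Q)
    (hΨ : ∀ w : List B4, w.length = d → Ψ (Finsupp.single w 1) = β (w.map rho))
    (rs : List F) (hd : rs.length = d) (hr : ∀ r ∈ rs, r ∈ RR) :
    Ψ (prodT (rs.map D)) = β rs := by
  have h1 := multilin_aux d β hβ rs hr [] (fun s hs => absurd hs List.not_mem_nil) (by
    rw [List.length_nil, zero_add]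
    exact hd) Ψ (fun w hw => by
    rw [List.nil_append]
    exact hΨ w (hw.trans hd))
  rw [List.nil_append] at h1
  exact h1

end E4.J
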