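import Pool.Agent.Lib.MP_8a95e3_al.JV

/-!
# J06a : left normed commutators
-/

open scoped commutatorElement

namespace E4.J

theorem cmt_singleton (r : F) : cmt [r] = r := by
  rfl

/-- PROOF: `List.foldl_append`. -/
theorem cmt_concat {rs : List F} (h : rs ≠ []) (r : F) : cmt (rs ++ [r]) = ⁅cmt rs, r⁆ := by
  cases rs with
  | nil => exact absurd rfl h
  | cons a l =>
    show (l ++ [r]).foldl (fun y s => ⁅y, s⁆) a = ⁅l.foldl (fun y s => ⁅y, s⁆) a, r⁆
    rw [List.foldl_append]
    rfl

/-- PROOF: `map_commutatorElement`, induction (`List.reverseRecOn`, `cmt_concat`) or directly for `foldl`. -/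
theorem cmt_map (φ : F →* F) (rs : List F) : cmt (rs.map φ) = φ (cmt rs) := by
  cases rs with
  | nil => exact (map_one φ).symm
  | cons a l =>
    show (l.map φ).foldl (fun y s => ⁅y, s⁆) (φ a) = φ (l.foldl (fun y s => ⁅y, s⁆) a)
    induction l generalizing a with
    | nil => rfl
    | cons s l ih =>
      have h1 := ih ⁅a, s⁆
      rw [map_commutatorElement] at h1
      exact h1

/-- PROOF: induction from the right (`List.reverseRecOn` / `List.eq_nil_or_concat`), `cmt_concat`, `comm_mem`. -/
theorem cmt_mem {rs : List F} {n : ℕ} (hn : rs.length = n + 1) (hr : ∀ r ∈ rs, r ∈ RR) : cmt rs ∈ lcs RR n := by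
  induction n generalizing rs with
  | zero =>
    obtain ⟨r, rfl⟩ := List.length_eq_one_iff.1 hn
    exact hr r (List.mem_singleton_self r)
  | succ n ih =>
    rcases List.eq_nil_or_concat rs with h | ⟨l, s, h⟩
    · rw [h] at hn
      exact absurd hn (by simp)
    · rw [h, List.concat_eq_append] at hn hr ⊢
      rw [List.length_append, List.length_singleton] at hn
      have hl : l.length = n + 1 := by omega
      have hne : l ≠ [] := by
        intro h1
        rw [h1] at hl
        exact absurd hl (by simp)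
      rw [cmt_concat hne]
      exact comm_mem (ih hl fun r hr' => hr r (List.mem_append_left _ hr'))
        (hr s (List.mem_append_right _ (List.mem_singleton_self s)))

/-- The commutator is multiplicative in each variable modulo the next term.

PROOF. Induction on `v` from the right (`List.reverseRecOn`), for all `n`.
`v = []`: for `u = []` the left side is `(r r')⁻¹ (r r') = 1`; for `u ≠ []`: `cmt (u ++ [s]) = ⁅cmt u, s⁆` with `cmt u ∈ lcs RR m`, `u.length = m + 1`, `n = m + 1`: this is `comm_mul_right`.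
`v = v' ++ [s]`: `n = n' + 1`, `n' = u.length + v'.length`. Put `A = cmt (u ++ r :: v')`, `A' = cmt (u ++ r' :: v')`, `A'' = cmt (u ++ (r * r') :: v')`, all in `lcs RR n'` (`cmt_mem`), and by the induction hypothesis
`A'' = A A' z` with `z ∈ lcs RR (n' + 1)`. By `comm_mul_left` (twice) modulo the normal subgroup `lcs RR (n' + 2)`: `⁅A A' z, s⁆ ≡ ⁅A A', s⁆ ⁅z, s⁆ ≡ ⁅A, s⁆ ⁅A', s⁆`, as `⁅z, s⁆ ∈ lcs RR (n' + 2)` (`comm_mem`). By `cmt_concat` this is the claim.
(Congruences modulo `N = lcs RR (n' + 2)`: work with `QuotientGroup.mk' N`, `QuotientGroup.eq`: `(mk a = mk b) ↔ a⁻¹ * b ∈ N`.) -/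
theorem cmt_mul (u v : List F) (r r' : F) {n : ℕ} (hn : u.length + v.length = n) (hu : ∀ s ∈ u, s ∈ RR)
    (hv : ∀ s ∈ v, s ∈ RR) (hr : r ∈ RR) (hr' : r' ∈ RR) :
    (cmt (u ++ r :: v) * cmt (u ++ r' :: v))⁻¹ * cmt (u ++ (r * r') :: v) ∈ lcs RR (n + 1) := by
  induction v using List.reverseRecOn generalizing n with
  | nil =>
    rcases u with _ | ⟨a, u⟩
    · show (r * r')⁻¹ * (r * r') ∈ _
      rw [inv_mul_cancel]
      exact one_mem _
    · have hne : a :: u ≠ [] := List.cons_ne_nil _ _
      have hm : (a :: u).length = u.length + 1 := rfl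
      rw [cmt_concat hne, cmt_concat hne, cmt_concat hne]
      have h1 := comm_mul_right (K := RR) (cmt_mem hm hu) hr hr'
      have h2 : n = u.length + 1 := by
        rw [← hn, hm]
        rfl
      rw [h2]
      exact h1
  | append_singleton v s ih =>
    have e : ∀ t : F, u ++ t :: (v ++ [s]) = (u ++ t :: v) ++ [s] := fun t => by
      rw [List.append_assoc]
      rfl
    have hne : ∀ t : F, u ++ t :: v ≠ [] := fun t h => by
      have h1 := congrArg List.length h
      rw [List.length_append, List.length_cons] at h1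
      exact absurd h1 (by simp)
    obtain ⟨m, hm⟩ : ∃ m, m = u.length + v.length := ⟨_, rfl⟩
    have hn' : n = m + 1 := by
      rw [← hn, hm, List.length_append, List.length_singleton]
      rfl
    have hv' : ∀ t ∈ v, t ∈ RR := fun t ht => hv t (List.mem_append_left _ ht)
    have hs : s ∈ RR := hv s (List.mem_append_right _ (List.mem_singleton_self s))
    have hmem : ∀ t ∈ RR, cmt (u ++ t :: v) ∈ lcs RR m := by
      intro t ht
      refine cmt_mem ?_ ?_
      · rw [List.length_append, List.length_cons, hm]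
        omega
      · intro a ha
        rcases List.mem_append.1 ha with h | h
        · exact hu a h
        · rcases List.mem_cons.1 h with h | h
          · rw [h]
            exact ht
          · exact hv' a h
    have hz := ih hm.symm hv'
    rw [e, e, e, cmt_concat (hne _), cmt_concat (hne _), cmt_concat (hne _), hn']
    obtain ⟨A, hA⟩ : ∃ A, A = cmt (u ++ r :: v) := ⟨_, rfl⟩
    obtain ⟨A', hA'⟩ : ∃ A', A' = cmt (u ++ r' :: v) := ⟨_, rfl⟩
    obtain ⟨A'', hA''⟩ : ∃ A'', A'' = cmt (u ++ (r * r') :: v) := ⟨_, rfl⟩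
    have m1 := hmem r hr
    have m2 := hmem r' hr'
    rw [← hA, ← hA', ← hA''] at hz ⊢
    rw [← hA] at m1
    rw [← hA'] at m2
    obtain ⟨z, hzz⟩ : ∃ z, z = (A * A')⁻¹ * A'' := ⟨_, rfl⟩
    rw [← hzz] at hz
    have hA2 : A'' = (A * A') * z := by
      rw [hzz, mul_inv_cancel_left]
    have e1 := comm_mul_left (K := RR) (mul_mem m1 m2) (lcs_anti RR (Nat.le_succ m) hz) hs
    have e2 := comm_mem hz hs
    have e3 := comm_mul_left (K := RR) m1 m2 hs
    rw [← hA2] at e1
    have e4 := mul_mem (mul_mem e3 e2) e1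
    have e5 : (⁅A, s⁆ * ⁅A', s⁆)⁻¹ * ⁅A * A', s⁆ * ⁅z, s⁆ * ((⁅A * A', s⁆ * ⁅z, s⁆)⁻¹ * ⁅A'', s⁆) =
        (⁅A, s⁆ * ⁅A', s⁆)⁻¹ * ⁅A'', s⁆ := by
      group
    rw [e5] at e4
    exact e4

end E4.J
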