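import Pool.Agent.Lib.MP_8a95e3_al.J06a

/-!
# J06b : generation of the sections by commutators
-/

open scoped commutatorElement

namespace E4.J

private def J06b_P (n : ℕ) (s : F) (hs : s ∈ RR) (W : Subgroup F) (hW : lcs RR (n + 2) ≤ W) : Subgroup F where
  carrier := {y | y ∈ lcs RR n ∧ ⁅y, s⁆ ∈ W}
  mul_mem' := by
    rintro y y' ⟨h1, h2⟩ ⟨h3, h4⟩
    refine ⟨(lcs RR n).mul_mem h1 h3, ?_⟩
    have h5 := hW (comm_mul_left h1 h3 hs)
    have h6 : ⁅y * y', s⁆ = (⁅y, s⁆ * ⁅y', s⁆) * ((⁅y, s⁆ * ⁅y', s⁆)⁻¹ * ⁅y * y', s⁆) := by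
      rw [mul_inv_cancel_left]
    rw [h6]
    exact W.mul_mem (W.mul_mem h2 h4) h5
  one_mem' := ⟨(lcs RR n).one_mem, by
    rw [commutatorElement_one_left]
    exact W.one_mem⟩
  inv_mem' := by
    rintro y ⟨h1, h2⟩
    refine ⟨(lcs RR n).inv_mem h1, ?_⟩
    have h5 := hW (comm_mul_left h1 ((lcs RR n).inv_mem h1) hs)
    rw [mul_inv_cancel, commutatorElement_one_left, mul_one] at h5
    have h6 := W.mul_mem (W.inv_mem h2) ((W.inv_mem_iff).1 h5)
    rwa [inv_mul_cancel_left] at h6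

/-- **Every element of `lcs RR n` is a product of values of `cmt` and an element of `lcs RR (n+1)`.**

PROOF. Induction on `n`. Let `C n` be the set of the `cmt rs`, `rs.length = n + 1`, `rs` in `RR`. `n = 0`: `lcs RR 0 = RR`, `r = cmt [r]`.
`n + 1`: `lcs RR (n+1) = ⁅lcs RR n, RR⁆`; by `Subgroup.commutator_le` it is enough that `⁅y, s⁆ ∈ W := closure (C (n+1)) ⊔ lcs RR (n+2)` for `y ∈ lcs RR n`, `s ∈ RR`. For fixed `s` let `P = {y ∈ lcs RR n | ⁅y, s⁆ ∈ W}`.
`P` is a subgroup (closed under products by `comm_mul_left`: `⁅y y', s⁆ = ⁅y, s⁆ ⁅y', s⁆ z` with `z ∈ lcs RR (n+2) ≤ W`; inverses: `1 = ⁅y y⁻¹, s⁆ = ⁅y, s⁆ ⁅y⁻¹, s⁆ z`). It contains `C n` (`⁅cmt rs, s⁆ = cmt (rs ++ [s])`, `cmt_concat`)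
and `lcs RR (n+1)` (`comm_mem`). By the induction hypothesis `lcs RR n ≤ closure (C n) ⊔ lcs RR (n+1) ≤ P`. -/
theorem lcs_gen (n : ℕ) : lcs RR n ≤
    Subgroup.closure {y : F | ∃ rs : List F, rs.length = n + 1 ∧ (∀ r ∈ rs, r ∈ RR) ∧ y = cmt rs} ⊔
      lcs RR (n + 1) := by

  induction n with
  | zero =>
    intro r hr
    refine Subgroup.mem_sup_left (Subgroup.subset_closure ⟨[r], rfl, ?_, (cmt_singleton r).symm⟩)
    intro r' hr'
    rw [List.mem_singleton] at hr'
    rw [hr']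
    exact hr
  | succ n ih =>
    rw [lcs_succ RR n, Subgroup.commutator_le]
    intro y hy s hs
    have hP : lcs RR n ≤ J06b_P n s hs (Subgroup.closure {y : F | ∃ rs : List F, rs.length = n + 1 + 1 ∧
        (∀ r ∈ rs, r ∈ RR) ∧ y = cmt rs} ⊔ lcs RR (n + 1 + 1)) le_sup_right := by
      refine ih.trans (sup_le ?_ ?_)
      · rw [Subgroup.closure_le]
        rintro _ ⟨rs, hl, hrs, rfl⟩
        refine ⟨cmt_mem hl hrs, Subgroup.mem_sup_left (Subgroup.subset_closure ⟨rs ++ [s], ?_, ?_, ?_⟩)⟩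
        · rw [List.length_append, hl, List.length_singleton]
        · intro r hr
          rcases List.mem_append.1 hr with h | h
          · exact hrs r h
          · rw [List.mem_singleton] at h
            rw [h]
            exact hs
        · rw [cmt_concat]
          intro h
          rw [h] at hl
          exact absurd hl (by simp)
      · intro z hz
        exact ⟨lcs_anti RR (Nat.le_succ n) hz, Subgroup.mem_sup_right (comm_mem hz hs)⟩
    exact (hP hy).2

end E4.J
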