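import Pool.Agent.Lib.MP_8a95e3_al.JV

/-!
# J07 : the sections as modules over `ZMod 4`
-/

open scoped commutatorElement

namespace E4.J

/-- **The additive group of `lcs RR n` modulo `(lcs RR (n+1)) F4`.**

PROOF. `N := lcs RR (n+1) ⊔ F4` is normal, `G := F ⧸ N`, `P := (lcs RR n).map (QuotientGroup.mk' N)`. The elements of `P` commute: `⁅y, z⁆ ∈ lcs RR (n+1)` for `y, z ∈ lcs RR n ≤ RR` (`comm_mem`, `lcs_le`), and `p ^ 4 = 1` for `p ∈ P` (`F4_pow`).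
`Q := Additive ↥P` (in `Type`, as `F` is), `AddCommGroup` from the `CommGroup ↥P` built by hand, `Module (ZMod 4) Q` by `AddCommGroup.zmodModule` (`4 • q = 0`). `κ y := ofMul ⟨mk y, _⟩` if `mk y ∈ P`, and `0` otherwise
(classical `dite`). For `y ∈ lcs RR n`: `κ y = 0 ↔ mk y = 1 ↔ y ∈ N` (`QuotientGroup.eq_one_iff`). -/
theorem exists_Q (n : ℕ) : ∃ (Q : Type) (_ : AddCommGroup Q) (_ : Module (ZMod 4) Q) (κ : F → Q),
    (∀ y ∈ lcs RR n, ∀ z ∈ lcs RR n, κ (y * z) = κ y + κ z) ∧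
    (∀ y ∈ lcs RR n, κ y = 0 ↔ y ∈ lcs RR (n + 1) ⊔ F4) ∧
    (∀ q : Q, ∃ y ∈ lcs RR n, κ y = q) := by
  classical
  obtain ⟨N, hNd⟩ : ∃ N : Subgroup F, N = lcs RR (n + 1) ⊔ F4 := ⟨_, rfl⟩
  rw [← hNd]
  haveI hN : N.Normal := by
    rw [hNd]
    exact Subgroup.sup_normal _ _
  obtain ⟨P, hPd⟩ : ∃ P : Subgroup (F ⧸ N), P = (lcs RR n).map (QuotientGroup.mk' N) := ⟨_, rfl⟩
  have hP : ∀ y ∈ lcs RR n, (QuotientGroup.mk' N y) ∈ P := by
    intro y hy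
    rw [hPd]
    exact ⟨y, hy, rfl⟩
  have hP' : ∀ p ∈ P, ∃ y ∈ lcs RR n, QuotientGroup.mk' N y = p := by
    intro p hp
    rw [hPd] at hp
    obtain ⟨y, hy, h⟩ := hp
    exact ⟨y, hy, h⟩
  have hone : ∀ y : F, QuotientGroup.mk' N y = 1 ↔ y ∈ N := fun y => QuotientGroup.eq_one_iff y
  have hcomm : ∀ p q : ↥P, p * q = q * p := by
    rintro ⟨p, hp⟩ ⟨q, hq⟩
    apply Subtype.ext
    show p * q = q * p
    obtain ⟨y, hy, rfl⟩ := hP' p hp
    obtain ⟨z, hz, rfl⟩ := hP' q hq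
    have h1 : ⁅y, z⁆ ∈ N := by
      rw [hNd]
      exact Subgroup.mem_sup_left (comm_mem hy (lcs_le RR n hz))
    have h2 : QuotientGroup.mk' N ⁅y, z⁆ = 1 := (hone _).2 h1
    rw [map_commutatorElement, commutatorElement_eq_one_iff_mul_comm] at h2
    exact h2
  letI : CommGroup ↥P := { (inferInstance : Group ↥P) with mul_comm := hcomm }
  have h4 : ∀ p : Additive ↥P, 4 • p = 0 := by
    intro p
    obtain ⟨⟨p, hp⟩, rfl⟩ : ∃ p', Additive.ofMul p' = p := ⟨Additive.toMul p, rfl⟩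
    obtain ⟨y, hy, rfl⟩ := hP' p hp
    rw [← ofMul_pow, ← ofMul_one]
    congr 1
    apply Subtype.ext
    show QuotientGroup.mk' N y ^ 4 = 1
    rw [← map_pow, hone, hNd]
    exact Subgroup.mem_sup_right (F4_pow y)
  refine ⟨Additive ↥P, inferInstance, AddCommGroup.zmodModule h4,
    fun y => if h : QuotientGroup.mk' N y ∈ P then Additive.ofMul ⟨_, h⟩ else 0, ?_, ?_, ?_⟩
  · intro y hy z hz
    simp only
    rw [dif_pos (hP _ (Subgroup.mul_mem _ hy hz)), dif_pos (hP y hy), dif_pos (hP z hz), ← ofMul_mul]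
    congr 1
  · intro y hy
    simp only
    rw [dif_pos (hP y hy), ofMul_eq_zero, ← hone]
    constructor
    · intro h
      exact congrArg Subtype.val h
    · intro h
      exact Subtype.ext h
  · intro q
    obtain ⟨⟨p, hp⟩, rfl⟩ : ∃ p', Additive.ofMul p' = q := ⟨Additive.toMul q, rfl⟩
    obtain ⟨y, hy, rfl⟩ := hP' p hp
    refine ⟨y, hy, ?_⟩
    simp only
    rw [dif_pos (hP y hy)]

end E4.J
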