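import Pool.Agent.Lib.MP_8a95e3_al.J05b
import Pool.Agent.Lib.MP_8a95e3_al.J06b
import Pool.Agent.Lib.MP_8a95e3_al.J03b

/-!
# J08a : tensors over a section
-/

open scoped commutatorElement

namespace E4.J

/-- PROOF: `KK d` is the closure of tensor products of lists of length `d`, `prodT_length`; the elements with this property form an additive subgroup (`Finsupp.support_add`). -/
theorem KK_length {d : ℕ} {τ : T4} (hτ : τ ∈ KK d) : ∀ β ∈ τ.support, β.length = d := by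
  unfold KK at hτ
  induction hτ using AddSubgroup.closure_induction with
  | mem t ht =>
    obtain ⟨rs, hl, _, rfl⟩ := ht
    intro β hβ
    have h := prodT_length (rs.map D) hβ
    rw [List.length_map, hl] at h
    exact h
  | zero =>
    intro β hβ
    rw [Finsupp.support_zero] at hβ
    exact absurd hβ (Finset.notMem_empty β)
  | add a b _ _ ha hb =>
    intro β hβ
    rcases Finset.mem_union.1 (Finsupp.support_add hβ) with h | h
    · exact ha β h
    · exact hb β h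
  | neg a _ ha =>
    intro β hβ
    rw [Finsupp.support_neg] at hβ
    exact ha β hβ

private theorem J08a_tmap_prod (φ : F →* F) (rs : List F) :
    tmap (phiM φ) (prodT (rs.map D)) = prodT ((rs.map φ).map D) := by
  rw [tmap_prodT, List.map_map, List.map_map]
  congr 1
  refine List.map_congr_left ?_
  intro a _
  simp only [Function.comp_apply]
  exact (D_map φ a).symm

/-- PROOF: closure induction; `tmap (phiM φ) (prodT (rs.map D)) = prodT ((rs.map D).map (phiM φ)) = prodT ((rs.map φ).map D)` (`tmap_prodT`, `D_map`), `RR_endo`. -/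
theorem KK_tmap {d : ℕ} (φ : F →* F) {τ : T4} (hτ : τ ∈ KK d) : tmap (phiM φ) τ ∈ KK d := by
  have hle : KK d ≤ (KK d).comap ((tmap (phiM φ)).toAddMonoidHom) := by
    conv_lhs => unfold KK
    rw [AddSubgroup.closure_le]
    rintro t ⟨rs, hl, hr, rfl⟩
    show tmap (phiM φ) (prodT (rs.map D)) ∈ KK d
    rw [J08a_tmap_prod]
    refine AddSubgroup.subset_closure ⟨rs.map φ, ?_, ?_, rfl⟩
    · rw [List.length_map, hl]
    · intro r hr'
      obtain ⟨s, hs, rfl⟩ := List.mem_map.1 hr'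
      exact RR_endo φ (hr s hs)
  exact hle hτ

section

variable {Q : Type} [AddCommGroup Q] [Module (ZMod 4) Q] {n : ℕ} {κ : F → Q}

/-- The evaluation of tensors. -/
noncomputable def Psi (κ : F → Q) : T4 →ₗ[ZMod 4] Q :=
  Finsupp.linearCombination (ZMod 4) fun w : List B4 => κ (cmt (w.map rho))

/-- PROOF. `multilin` for `d = n + 1`, `β rs = κ (cmt rs)`, `Ψ = Psi κ` (`Finsupp.linearCombination_single`, `one_smul`). Hypothesis `hβ`: `cmt (u ++ (r * r') :: v) = A A' z` with `A, A' ∈ lcs RR n` (`cmt_mem`),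
`z ∈ lcs RR (n+1)` (`cmt_mul`); `κ (A A' z) = κ A + κ A' + κ z` (`hadd`, `lcs_anti`) and `κ z = 0` (`hker`). -/
theorem Psi_prodT (hadd : ∀ y ∈ lcs RR n, ∀ z ∈ lcs RR n, κ (y * z) = κ y + κ z)
    (hker : ∀ y ∈ lcs RR n, κ y = 0 ↔ y ∈ lcs RR (n + 1) ⊔ F4) {rs : List F} (hl : rs.length = n + 1)
    (hr : ∀ r ∈ rs, r ∈ RR) : Psi κ (prodT (rs.map D)) = κ (cmt rs) := by
  refine multilin (n + 1) (fun l => κ (cmt l)) ?_ (Psi κ) ?_ rs hl hr
  · intro u v r r' huv hu hv hr1 hr2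
    have hlen : u.length + v.length = n := by omega
    have hz := cmt_mul u v r r' hlen hu hv hr1 hr2
    have hmem : ∀ s ∈ RR, cmt (u ++ s :: v) ∈ lcs RR n := by
      intro s hs
      refine cmt_mem ?_ ?_
      · rw [List.length_append, List.length_cons]
        omega
      · intro t ht
        rcases List.mem_append.1 ht with h | h
        · exact hu t h
        · rcases List.mem_cons.1 h with h | h
          · rw [h]
            exact hs
          · exact hv t h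
    have hA := hmem r hr1
    have hA' := hmem r' hr2
    have hzn : (cmt (u ++ r :: v) * cmt (u ++ r' :: v))⁻¹ * cmt (u ++ (r * r') :: v) ∈ lcs RR n :=
      lcs_anti RR (Nat.le_succ n) hz
    have h1 := hadd _ (mul_mem hA hA') _ hzn
    rw [mul_inv_cancel_left] at h1
    have h2 : κ ((cmt (u ++ r :: v) * cmt (u ++ r' :: v))⁻¹ * cmt (u ++ (r * r') :: v)) = 0 :=
      (hker _ hzn).2 (Subgroup.mem_sup_left hz)
    have h3 := hadd _ hA _ hA'
    show κ (cmt (u ++ (r * r') :: v)) = κ (cmt (u ++ r :: v)) + κ (cmt (u ++ r' :: v))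
    rw [h1, h2, add_zero, h3]
  · intro w _
    show Psi κ (Finsupp.single w 1) = κ (cmt (w.map rho))
    unfold Psi
    rw [Finsupp.linearCombination_single, one_smul]

omit [Module (ZMod 4) Q] in
private theorem J08a_one (hker : ∀ y ∈ lcs RR n, κ y = 0 ↔ y ∈ lcs RR (n + 1) ⊔ F4) : κ 1 = 0 :=
  (hker 1 (one_mem _)).2 (one_mem _)

private theorem J08a_inv (hadd : ∀ y ∈ lcs RR n, ∀ z ∈ lcs RR n, κ (y * z) = κ y + κ z)
    (hker : ∀ y ∈ lcs RR n, κ y = 0 ↔ y ∈ lcs RR (n + 1) ⊔ F4) {y : F} (hy : y ∈ lcs RR n) :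
    κ y⁻¹ = - κ y := by
  have h := hadd y hy y⁻¹ (inv_mem hy)
  rw [mul_inv_cancel, J08a_one hker] at h
  exact (neg_eq_of_add_eq_zero_right h.symm).symm

/-- PROOF. The set of the `y ∈ lcs RR n` for which there is such a `τ` is a subgroup (`κ y⁻¹ = - κ y`); it contains the `cmt rs` (`Psi_prodT`) and `lcs RR (n+1)` (`κ z = 0`, `τ = 0`); `lcs_gen`. -/
theorem Psi_surj (hadd : ∀ y ∈ lcs RR n, ∀ z ∈ lcs RR n, κ (y * z) = κ y + κ z)
    (hker : ∀ y ∈ lcs RR n, κ y = 0 ↔ y ∈ lcs RR (n + 1) ⊔ F4) {y : F} (hy : y ∈ lcs RR n) :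
    ∃ τ ∈ KK (n + 1), Psi κ τ = κ y := by
  let W : Subgroup F :=
    { carrier := {y | y ∈ lcs RR n ∧ ∃ τ ∈ KK (n + 1), Psi κ τ = κ y}
      one_mem' := ⟨one_mem _, 0, zero_mem _, by rw [map_zero, J08a_one hker]⟩
      mul_mem' := by
        rintro a b ⟨ha, τ, hτ, h⟩ ⟨hb, τ', hτ', h'⟩
        refine ⟨mul_mem ha hb, τ + τ', add_mem hτ hτ', ?_⟩
        rw [map_add, h, h', hadd a ha b hb]
      inv_mem' := by
        rintro a ⟨ha, τ, hτ, h⟩
        refine ⟨inv_mem ha, -τ, neg_mem hτ, ?_⟩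
        rw [map_neg, h, J08a_inv hadd hker ha] }
  have hW : lcs RR n ≤ W := by
    refine (lcs_gen n).trans (sup_le ?_ ?_)
    · rw [Subgroup.closure_le]
      rintro z ⟨rs, hl, hr, rfl⟩
      exact ⟨cmt_mem hl hr, prodT (rs.map D), AddSubgroup.subset_closure ⟨rs, hl, hr, rfl⟩,
        Psi_prodT hadd hker hl hr⟩
    · intro z hz
      have hzn : z ∈ lcs RR n := lcs_anti RR (Nat.le_succ n) hz
      refine ⟨hzn, 0, zero_mem _, ?_⟩
      rw [map_zero, (hker z hzn).2 (Subgroup.mem_sup_left hz)]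
  exact (hW hy).2

/-- PROOF. (1) An endomorphism `φ` induces `φQ : Q →+ Q` with `κ (φ y) = φQ (κ y)` for `y ∈ lcs RR n`: if `y, z ∈ lcs RR n` and `κ y = κ z` then `κ (y⁻¹ z) = 0`, `y⁻¹ z ∈ lcs RR (n+1) ⊔ F4`, so `φ (y⁻¹ z)` is in it
(`lcs_endo`, `vcl_endo`), so `κ (φ y) = κ (φ z)`; by `hsurj` every `q` is `κ y`; so `φQ q := κ (φ y)` for a chosen `y` is well defined and additive.
(2) For `τ ∈ KK (n+1)`: `Psi κ (tmap (phiM φ) τ) = φQ (Psi κ τ)`: closure induction; for `τ = prodT (rs.map D)` both sides are `κ (cmt (rs.map φ)) = κ (φ (cmt rs))` (`cmt_map`, `cmt_mem`, `Psi_prodT`).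
(3) So if `Psi κ τ = κ u`, then `Psi κ (tmap (phiM φ) τ) = κ (φ u)`. -/
theorem Psi_tmap (hadd : ∀ y ∈ lcs RR n, ∀ z ∈ lcs RR n, κ (y * z) = κ y + κ z)
    (hker : ∀ y ∈ lcs RR n, κ y = 0 ↔ y ∈ lcs RR (n + 1) ⊔ F4) (hsurj : ∀ q : Q, ∃ y ∈ lcs RR n, κ y = q)
    (φ : F →* F) {τ : T4} (hτ : τ ∈ KK (n + 1)) {u : F} (hu : u ∈ lcs RR n) (h : Psi κ τ = κ u) :
    Psi κ (tmap (phiM φ) τ) = κ (φ u) := by
  have _ := hsurj
  have hend : ∀ y ∈ lcs RR n, φ y ∈ lcs RR n := fun y hy => lcs_endo (fun ψ w hw => RR_endo ψ hw) φ n hy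
  have key : ∃ y ∈ lcs RR n, Psi κ τ = κ y ∧ Psi κ (tmap (phiM φ) τ) = κ (φ y) := by
    unfold KK at hτ
    clear h
    induction hτ using AddSubgroup.closure_induction with
    | mem t ht =>
      obtain ⟨rs, hl, hr, rfl⟩ := ht
      refine ⟨cmt rs, cmt_mem hl hr, Psi_prodT hadd hker hl hr, ?_⟩
      rw [J08a_tmap_prod, ← cmt_map]
      refine Psi_prodT hadd hker ?_ ?_
      · rw [List.length_map, hl]
      · intro r hr'
        obtain ⟨s, hs, rfl⟩ := List.mem_map.1 hr'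
        exact RR_endo φ (hr s hs)
    | zero =>
      refine ⟨1, one_mem _, ?_, ?_⟩
      · rw [map_zero, J08a_one hker]
      · rw [map_zero, map_zero, map_one, J08a_one hker]
    | add a b _ _ ha hb =>
      obtain ⟨y, hy, h1, h2⟩ := ha
      obtain ⟨z, hz, h3, h4⟩ := hb
      refine ⟨y * z, mul_mem hy hz, ?_, ?_⟩
      · rw [map_add, h1, h3, hadd y hy z hz]
      · rw [map_add, map_add, h2, h4, map_mul, hadd _ (hend y hy) _ (hend z hz)]
    | neg a _ ha =>
      obtain ⟨y, hy, h1, h2⟩ := ha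
      refine ⟨y⁻¹, inv_mem hy, ?_, ?_⟩
      · rw [map_neg, h1, J08a_inv hadd hker hy]
      · rw [map_neg, map_neg, h2, map_inv, J08a_inv hadd hker (hend y hy)]
  obtain ⟨y, hy, h1, h2⟩ := key
  rw [h2]
  have h3 : κ (y⁻¹ * u) = 0 := by
    rw [hadd _ (inv_mem hy) _ hu, J08a_inv hadd hker hy, ← h, h1, neg_add_cancel]
  have h4 := (hker _ (mul_mem (inv_mem hy) hu)).1 h3
  have hle : lcs RR (n + 1) ⊔ F4 ≤ (lcs RR (n + 1) ⊔ F4).comap φ := by
    refine sup_le ?_ ?_
    · intro z hz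
      exact Subgroup.mem_sup_left (lcs_endo (fun ψ w hw => RR_endo ψ hw) φ (n + 1) hz)
    · intro z hz
      exact Subgroup.mem_sup_right (vcl_endo _ φ hz)
  have h5 : φ (y⁻¹ * u) ∈ lcs RR (n + 1) ⊔ F4 := hle h4
  have h6 := (hker _ (hend _ (mul_mem (inv_mem hy) hu))).2 h5
  rw [map_mul, map_inv, hadd _ (inv_mem (hend y hy)) _ (hend u hu), J08a_inv hadd hker (hend y hy)] at h6
  exact (neg_add_eq_zero.1 h6)

end

end E4.J
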