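import Pool.Agent.Lib.MP_8a95e3_al.J09b
import Pool.Agent.Lib.MP_8a95e3_al.J05a

/-!
# J09c : the operators of the moves, leading terms
-/

namespace E4.J

private theorem J09c_supp_mapDomain {X : T4} {c : B4} {γ : List B4}
    (h : γ ∈ (X.mapDomain (List.cons c)).support) : ∃ γ' ∈ X.support, γ = c :: γ' := by
  classical
  have h1 := Finsupp.mapDomain_support h
  rw [Finset.mem_image] at h1
  obtain ⟨γ', h2, h3⟩ := h1
  exact ⟨γ', h2, h3.symm⟩

private theorem J09c_consL_apply (m : M4) (X : T4) :
    consL m X = m.sum fun c a => a • X.mapDomain (List.cons c) := by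
  unfold consL
  rw [Finsupp.linearCombination_apply, Finsupp.sum, Finsupp.sum, LinearMap.sum_apply]
  rfl

private theorem J09c_supp_consL {m : M4} {X : T4} {γ : List B4} (h : γ ∈ (consL m X).support) :
    ∃ c ∈ m.support, ∃ γ' ∈ X.support, γ = c :: γ' := by
  classical
  rw [J09c_consL_apply, Finsupp.sum, Finsupp.mem_support_iff, Finsupp.finsetSum_apply] at h
  obtain ⟨c, hc, h1⟩ := Finset.exists_ne_zero_of_sum_ne_zero h
  rw [Finsupp.smul_apply] at h1
  have h2 : (X.mapDomain (List.cons c)) γ ≠ 0 := fun e => h1 (by rw [e, smul_zero])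
  obtain ⟨γ', h3, h4⟩ := J09c_supp_mapDomain (Finsupp.mem_support_iff.mpr h2)
  exact ⟨c, hc, γ', h3, h4⟩

/-- The product of the elements `e_(bs) + E bs`.

PROOF. Induction on `bs`. `bs = []`: both sides are `single [] 1`, the support of `0` is empty. `b :: bs`: by induction `prodT (..) = single (bs.map g) 1 + X`, every `γ ∈ X.support` has `γ.length = bs.length`, letters in `S`, and
`lx (jv (bs.map g)) (jv γ)`. `consL (single (g b) 1 + E b) (single (bs.map g) 1 + X) = single (g b :: bs.map g) 1 + (X.mapDomain (cons (g b)) + consL (E b) (single (bs.map g) 1 + X))`. Elements of the support of the first: `g b :: γ` with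
`lx` in the tail; of the second: `c :: γ` with `c ∈ (E b).support`, so `(g b).2 < c.2`, `c ∈ S`, and `γ = bs.map g` or `γ ∈ X.support`. -/
theorem prodT_low (S : Set B4) (g : B4 → B4) (E : B4 → M4) (bs : List B4) (hg : ∀ b ∈ bs, g b ∈ S)
    (hE : ∀ b ∈ bs, ∀ c ∈ (E b).support, c ∈ S ∧ (g b).2 < c.2) :
    ∀ γ ∈ (prodT (bs.map fun b => Finsupp.single (g b) 1 + E b) - Finsupp.single (bs.map g) 1).support,
      γ.length = bs.length ∧ (∀ c ∈ γ, c ∈ S) ∧ lx (jv (bs.map g)) (jv γ) := by
  classical
  induction bs with
  | nil =>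
    intro γ hγ
    simp only [List.map_nil, prodT, sub_self, Finsupp.support_zero, Finset.notMem_empty] at hγ
  | cons b bs ih =>
    have ih' := ih (fun b' hb' => hg b' (List.mem_cons_of_mem b hb'))
      (fun b' hb' => hE b' (List.mem_cons_of_mem b hb'))
    intro γ hγ
    obtain ⟨P, hP⟩ : ∃ P, P = prodT (bs.map fun b => Finsupp.single (g b) 1 + E b) := ⟨_, rfl⟩
    rw [← hP] at ih'
    obtain ⟨X, hX⟩ : ∃ X, X = P - Finsupp.single (bs.map g) 1 := ⟨_, rfl⟩
    rw [← hX] at ih'
    have hPX : P = Finsupp.single (bs.map g) 1 + X := by rw [hX]; abel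
    have e1 : prodT ((b :: bs).map fun b => Finsupp.single (g b) 1 + E b) -
        Finsupp.single ((b :: bs).map g) 1 = X.mapDomain (List.cons (g b)) + consL (E b) P := by
      have e2 : prodT ((b :: bs).map fun b => Finsupp.single (g b) 1 + E b) =
          consL (Finsupp.single (g b) 1 + E b) P := by rw [hP]; rfl
      rw [e2, map_add, LinearMap.add_apply, J09c_consL_apply (Finsupp.single (g b) 1) P,
        Finsupp.sum_single_index (by rw [zero_smul]), one_smul]
      have e3 : P.mapDomain (List.cons (g b)) =
          Finsupp.single ((b :: bs).map g) 1 + X.mapDomain (List.cons (g b)) := by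
        rw [hPX, Finsupp.mapDomain_add, Finsupp.mapDomain_single]
        rfl
      rw [e3]
      abel
    rw [e1] at hγ
    have hPs : ∀ γ' ∈ P.support, γ'.length = bs.length ∧ ∀ c ∈ γ', c ∈ S := by
      intro γ' h
      rw [hPX] at h
      rcases Finset.mem_union.mp (Finsupp.support_add h) with h | h
      · have h1 := Finsupp.support_single_subset h
        rw [Finset.mem_singleton] at h1
        rw [h1]
        refine ⟨List.length_map _, fun c hc => ?_⟩
        rw [List.mem_map] at hc
        obtain ⟨b', hb', rfl⟩ := hc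
        exact hg b' (List.mem_cons_of_mem b hb')
      · exact ⟨(ih' γ' h).1, (ih' γ' h).2.1⟩
    rcases Finset.mem_union.mp (Finsupp.support_add hγ) with h | h
    · obtain ⟨γ', h1, rfl⟩ := J09c_supp_mapDomain h
      obtain ⟨h2, h3, h4⟩ := ih' γ' h1
      refine ⟨by rw [List.length_cons, List.length_cons, h2], fun c hc => ?_, ?_⟩
      · rcases List.mem_cons.mp hc with h5 | h5
        · rw [h5]; exact hg b List.mem_cons_self
        · exact h3 c h5
      · exact Or.inr ⟨rfl, h4⟩
    · obtain ⟨c, hc, γ', h1, rfl⟩ := J09c_supp_consL h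
      obtain ⟨h2, h3⟩ := hPs γ' h1
      obtain ⟨h4, h5⟩ := hE b List.mem_cons_self c hc
      refine ⟨by rw [List.length_cons, List.length_cons, h2], fun c' hc' => ?_, ?_⟩
      · rcases List.mem_cons.mp hc' with h6 | h6
        · rw [h6]; exact h4
        · exact h3 c' h6
      · exact Or.inl h5

/-- **Leading terms of the operators.**

PROOF. `m = (none, p)`: `opm m (single β 1) = single (stm m β) 1` (`tmap_zM`), the support is empty. `m = (some k, p)`, `k < p ≤ n`: `opm m (single β 1) = tmap (cM k p) (single (β.map (zB p)) 1) = prodT (β.map fun b => cM k p (single (zB p b) 1))` and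
`cM k p (single c 1) = single (cA k p c.1, c.2) 1 + (if c.2 = k then single (cA k p c.1 + single k 1, p) 1 else 0)`; so this is `prodT_low` with `g b = sB m b`, `E b =` the second term for `c = zB p b` (if it is not zero, `(g b).2 = k < p`), and
`S = {b | b.2 < n + 1 ∧ ∀ q, n + 1 ≤ q → b.1 q = 0}` (`stm_lev` for the letters; the place `k` is `< n + 1`). `lx (jv (stm m β)) (jv γ)` is the first case of `blt γ (stm m β)`. -/
theorem opm_low {d n : ℕ} {m : Mv} {β : List B4} (hm : okm m n) (h : β ∈ lev d n) :
    ∀ γ ∈ (opm m (Finsupp.single β 1) - Finsupp.single (stm m β) 1).support,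
      γ ∈ lev d (n + 1) ∧ blt γ (stm m β) := by
  classical
  intro γ hγ
  obtain ⟨m0, p⟩ := m
  have hlev := stm_lev hm h
  cases m0 with
  | none =>
    exfalso
    have e1 : opm (none, p) (Finsupp.single β 1) = Finsupp.single (stm (none, p) β) 1 := tmap_zM p β
    rw [e1, sub_self] at hγ
    simp at hγ
  | some k =>
    have hkp : k < p := hm.1
    have hpn : p ≤ n := hm.2
    obtain ⟨g, hgdef⟩ : ∃ g : B4 → B4, g = sB (some k, p) := ⟨_, rfl⟩
    obtain ⟨E, hEdef⟩ : ∃ E : B4 → M4, E = fun b => if (zB p b).2 = k then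
      Finsupp.single (cA k p (zB p b).1 + Finsupp.single k 1, p) 1 else 0 := ⟨_, rfl⟩
    have e0 : ∀ b, cM k p (Finsupp.single (zB p b) 1) = Finsupp.single (g b) 1 + E b := by
      intro b
      unfold cM
      rw [Finsupp.linearCombination_single, one_smul, hgdef, hEdef]
      rfl
    have e1 : opm (some k, p) (Finsupp.single β 1) =
        prodT (β.map fun b => Finsupp.single (g b) 1 + E b) := by
      have e2 : opm (some k, p) (Finsupp.single β 1) =
          tmap (cM k p) (tmap (zM p) (Finsupp.single β 1)) := rfl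
      rw [e2, tmap_zM, tmap_single, List.map_map]
      congr 1
      refine List.map_congr_left fun b _ => ?_
      exact e0 b
    have e2 : stm (some k, p) β = β.map g := by rw [hgdef]; rfl
    rw [e1, e2] at hγ
    rw [e2] at hlev ⊢
    have hS := prodT_low {c : B4 | c.2 < n + 1 ∧ ∀ q, n + 1 ≤ q → c.1 q = 0} g E β
      (fun b hb => hlev.2 (g b) (List.mem_map_of_mem hb))
      (fun b hb c hc => by
        have hgb := hlev.2 (g b) (List.mem_map_of_mem hb)
        rw [hEdef] at hc
        simp only at hc
        by_cases hk : (zB p b).2 = k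
        · rw [if_pos hk] at hc
          have hc1 := Finsupp.support_single_subset hc
          rw [Finset.mem_singleton] at hc1
          rw [hc1]
          refine ⟨⟨by simp only; omega, fun q hq => ?_⟩, ?_⟩
          · have e3 : (cA k p (zB p b).1) q = 0 := by
              have e4 : (g b).1 = cA k p (zB p b).1 := by rw [hgdef]; rfl
              rw [← e4]
              exact hgb.2 q hq
            simp only [Finsupp.add_apply]
            rw [e3, Finsupp.single_eq_of_ne (by omega), add_zero]
          · have e5 : (g b).2 = (zB p b).2 := by rw [hgdef]; rfl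
            rw [e5, hk]
            exact hkp
        · rw [if_neg hk] at hc
          simp at hc) γ hγ
    exact ⟨⟨hS.1.trans h.1, hS.2.1⟩, Or.inl hS.2.2⟩

end E4.J
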