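import Pool.Agent.Lib.MP_8a95e3_al.J10b
import Pool.Agent.Lib.MP_8a95e3_al.J09c
import Pool.Agent.Lib.MP_8a95e3_al.J02b

/-!
# J10c : Theorem N
-/

namespace E4.J

private theorem J10c_okm_self {m : Mv} {n : ℕ} (h : okm m n) : okm m m.2 := by
  obtain ⟨k, p⟩ := m
  cases k with
  | none => exact le_refl p
  | some k => exact ⟨h.1, le_refl p⟩

/-- **Theorem N.**

PROOF. `leadACC` with `lt = blt`, `lev = lev d`, `ok = okm`, `op = opm`, `st = stm`: `lev_finite`, `blt_trans`, `blt_irrefl`, `blt_tri` (elements of `lev d n` have length `d`), `stm_lev`, `opm_low`, `stm_blt`, `moves_wqo`.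
`hcl`: `m = (none, p)`: `hZ`. `m = (some k, p)`: if `k < p`: `hZ`, then `hC`. If not `k < p`: this is NOT covered by `hC`; therefore apply `leadACC` with `I = {m : Mv // okm m m.2}` (the moves with `k < p`) instead of `Mv`: `ok m n = okm m.1 n`,
and translate `moves_wqo` (a step `okm m n` gives `okm m m.2`). `hsup`: `exists_lev`. -/
theorem thmN (d : ℕ) (U : ℕ → AddSubgroup T4) (hU : Monotone U)
    (hl : ∀ t, ∀ f ∈ U t, ∀ β ∈ f.support, β.length = d)
    (hZ : ∀ t p, ∀ f ∈ U t, tmap (zM p) f ∈ U t)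
    (hC : ∀ t k p, k < p → ∀ f ∈ U t, tmap (cM k p) f ∈ U t) : ∃ t, ∀ t' ≥ t, U t' = U t := by
  refine leadACC (I := {m : Mv // okm m m.2}) blt (lev d) (lev_finite d)
    (fun a b c h h' => blt_trans h h') blt_irrefl ?_ (fun m n => okm m.1 n) (fun m => opm m.1)
    (fun m => stm m.1) ?_ ?_ ?_ ?_ U hU ?_ ?_
  · intro n a ha b hb
    exact blt_tri (ha.1.trans hb.1.symm)
  · intro m n β hm hβ
    exact stm_lev hm hβ
  · intro m n β hm hβ
    exact opm_low hm hβ
  · intro m n β β' hm _ _ hlt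
    exact stm_blt hm hlt
  · intro s hs
    obtain ⟨a, b, hab, hr⟩ := moves_wqo d s hs
    refine ⟨a, b, hab, Relation.ReflTransGen.mono ?_ _ _ hr⟩
    rintro y z ⟨m, hm, rfl⟩
    exact ⟨⟨m, J10c_okm_self hm⟩, hm, rfl⟩
  · rintro t ⟨⟨k, p⟩, hm⟩ f hf
    cases k with
    | none => exact hZ t p f hf
    | some k => exact hC t k p hm.1 _ (hZ t p f hf)
  · intro t f hf
    exact exists_lev f.support (hl t f hf)

end E4.J
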