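import Pool.Agent.Lib.MP_8a95e3_al.J08a
import Pool.Agent.Lib.MP_8a95e3_al.J07
import Pool.Agent.Lib.MP_8a95e3_al.J10c

/-!
# J08b : ascending sequences in a section
-/

open scoped commutatorElement

namespace E4.J

/-- **Ascending sequences of verbal subgroups stabilise in every section.**

PROOF. `Q`, `κ` as in `exists_Q n`. For a verbal subgroup `U` let `TU U` be the additive subgroup of `T4` of the `τ ∈ KK (n+1)` such that `Psi κ τ = κ u` for some `u ∈ U ⊓ lcs RR n` (closed under sums and negatives: `κ (u u') = κ u + κ u'`,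
`κ u⁻¹ = - κ u`). It is monotone in `U`. `thmN` for `d = n + 1` and the sequence `TU (U t)`: `hl` is `KK_length`; `hZ`: `zM p = phiM (Zp p)` (`phiM_Zp`), `KK_tmap`, and `Psi_tmap`: `Psi κ (tmap (phiM φ) τ) = κ (φ u)`,
`φ u ∈ U ⊓ lcs RR n` (`Verb4.endo`, `lcs_endo`, `RR_endo`); `hC`: the same with `phiM_Cp`. So there is `t` with `TU (U t') = TU (U t)` for `t' ≥ t`.
Let `t' ≥ t`, `u' ∈ U t' ⊓ lcs RR n`. By `Psi_surj` `κ u' = Psi κ τ` with `τ ∈ KK (n+1)`, so `τ ∈ TU (U t') = TU (U t)`, so `κ u' = κ u` with `u ∈ U t ⊓ lcs RR n`. So `κ (u⁻¹ u') = 0`, `u⁻¹ u' ∈ lcs RR (n+1) ⊔ F4`: `u⁻¹ u' = l f` with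
`l ∈ lcs RR (n+1)`, `f ∈ F4 ≤ U t` (`Subgroup.mem_sup` with a normal subgroup, `F4_le`), and `f = l⁻¹ u⁻¹ u' ∈ lcs RR n`. So `u' = u l f ∈ (U t ⊓ lcs RR n) ⊔ lcs RR (n+1)`. The other inclusion is monotonicity. -/
theorem section_acc (n : ℕ) (U : ℕ → Subgroup F) (hU : Monotone U) (hV : ∀ t, Verb4 (U t)) :
    ∃ t, ∀ t' ≥ t, (U t' ⊓ lcs RR n) ⊔ lcs RR (n + 1) = (U t ⊓ lcs RR n) ⊔ lcs RR (n + 1) := by
  obtain ⟨Q, _, _, κ, hadd, hker, hsurj⟩ := exists_Q n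
  have h1 : κ 1 = 0 := (hker 1 (one_mem _)).2 (one_mem _)
  have hinv : ∀ y ∈ lcs RR n, κ y⁻¹ = -κ y := by
    intro y hy
    have h2 := hadd y hy y⁻¹ (inv_mem hy)
    rw [mul_inv_cancel, h1] at h2
    exact (neg_eq_of_add_eq_zero_right h2.symm).symm
  let TU : Subgroup F → AddSubgroup T4 := fun W =>
    { carrier := {τ | τ ∈ KK (n + 1) ∧ ∃ u, u ∈ W ∧ u ∈ lcs RR n ∧ Psi κ τ = κ u}
      zero_mem' := ⟨zero_mem _, 1, one_mem _, one_mem _, by rw [map_zero, h1]⟩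
      add_mem' := by
        rintro τ τ' ⟨hτ, u, hu, hul, he⟩ ⟨hτ', u', hu', hul', he'⟩
        exact ⟨add_mem hτ hτ', u * u', mul_mem hu hu', mul_mem hul hul', by
          rw [map_add, he, he', hadd u hul u' hul']⟩
      neg_mem' := by
        rintro τ ⟨hτ, u, hu, hul, he⟩
        exact ⟨neg_mem hτ, u⁻¹, inv_mem hu, inv_mem hul, by rw [map_neg, he, hinv u hul]⟩ }
  have hmv : ∀ (φ : F →* F) (t : ℕ), ∀ f ∈ TU (U t), tmap (phiM φ) f ∈ TU (U t) := by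
    rintro φ t f ⟨hτ, u, hu, hul, he⟩
    exact ⟨KK_tmap φ hτ, φ u, (hV t).endo φ u hu, lcs_endo (fun φ w hw => RR_endo φ hw) φ n hul,
      Psi_tmap hadd hker hsurj φ hτ hul he⟩
  obtain ⟨t, ht⟩ := thmN (n + 1) (fun t => TU (U t))
    (fun a b hab f hf => by
      obtain ⟨hτ, u, hu, hul, he⟩ := hf
      exact ⟨hτ, u, hU hab hu, hul, he⟩)
    (fun t f hf => KK_length hf.1)
    (fun t p f hf => by
      have h2 := hmv (Zp p) t f hf
      rw [phiM_Zp] at h2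
      exact h2)
    (fun t k p _ f hf => by
      have h2 := hmv (Cp k p) t f hf
      rw [phiM_Cp] at h2
      exact h2)
  refine ⟨t, fun t' ht' => le_antisymm ?_ ?_⟩
  · refine sup_le ?_ le_sup_right
    rintro u' ⟨hu', hul'⟩
    obtain ⟨τ, hτ, he⟩ := Psi_surj hadd hker hul'
    have h2 : τ ∈ TU (U t') := ⟨hτ, u', hu', hul', he⟩
    have h3 : TU (U t') = TU (U t) := ht t' ht'
    rw [h3] at h2
    obtain ⟨_, u, hu, hul, he'⟩ := h2
    have h4 : κ (u⁻¹ * u') = 0 := by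
      rw [hadd u⁻¹ (inv_mem hul) u' hul', hinv u hul, ← he, he', neg_add_cancel]
    have h5 := (hker (u⁻¹ * u') (mul_mem (inv_mem hul) hul')).1 h4
    obtain ⟨l, hl, f, hf, hlf⟩ := Subgroup.mem_sup_of_normal_left.1 h5
    have hf' : f ∈ lcs RR n := by
      have h6 : f = l⁻¹ * (u⁻¹ * u') := by
        rw [← hlf, inv_mul_cancel_left]
      rw [h6]
      exact mul_mem (inv_mem (lcs_anti RR (Nat.le_succ n) hl)) (mul_mem (inv_mem hul) hul')
    have h7 : u' = u * l * f := by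
      rw [mul_assoc, hlf, mul_inv_cancel_left]
    rw [h7]
    refine mul_mem (mul_mem ?_ ?_) ?_
    · exact Subgroup.mem_sup_left ⟨hu, hul⟩
    · exact Subgroup.mem_sup_right hl
    · exact Subgroup.mem_sup_left ⟨F4_le (hV t) hf, hf'⟩
  · exact sup_le_sup_right (inf_le_inf_right _ (hU ht')) _

end E4.J
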