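import Pool.Agent.Lib.MP_8a95e3_al.JD

/-!
# J09a : the order on the basis of the tensors
-/

namespace E4.J

theorem lx_irrefl (l : List ℕ) : ¬ lx l l := by
  induction l with
  | nil => exact fun h => h
  | cons a l ih =>
    intro h
    have h' : a < a ∨ (a = a ∧ lx l l) := h
    rcases h' with h1 | h1
    · exact lt_irrefl a h1
    · exact ih h1.2

theorem lx_trans {a b c : List ℕ} (h : lx a b) (h' : lx b c) : lx a c := by
  induction a generalizing b c with
  | nil => cases b <;> exact h.elim
  | cons x l ih =>
    cases b with
    | nil => exact h.elim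
    | cons y m =>
      cases c with
      | nil => exact h'.elim
      | cons z k =>
        have h1 : x < y ∨ (x = y ∧ lx l m) := h
        have h2 : y < z ∨ (y = z ∧ lx m k) := h'
        show x < z ∨ (x = z ∧ lx l k)
        rcases h1 with h1 | ⟨h1, h3⟩
        · rcases h2 with h2 | ⟨h2, h4⟩
          · exact Or.inl (h1.trans h2)
          · exact Or.inl (h2 ▸ h1)
        · rcases h2 with h2 | ⟨h2, h4⟩
          · exact Or.inl (h1 ▸ h2)
          · exact Or.inr ⟨h1.trans h2, ih h3 h4⟩

theorem lx_tri {a b : List ℕ} (h : a.length = b.length) : lx a b ∨ a = b ∨ lx b a := by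
  induction a generalizing b with
  | nil =>
    cases b with
    | nil => exact Or.inr (Or.inl rfl)
    | cons y m => exact absurd h (by simp)
  | cons x l ih =>
    cases b with
    | nil => exact absurd h (by simp)
    | cons y m =>
      have hl : l.length = m.length := by
        rw [List.length_cons, List.length_cons] at h
        exact Nat.succ_injective h
      show (x < y ∨ (x = y ∧ lx l m)) ∨ x :: l = y :: m ∨ (y < x ∨ (y = x ∧ lx m l))
      rcases lt_trichotomy x y with h1 | h1 | h1
      · exact Or.inl (Or.inl h1)
      · rcases ih hl with h2 | h2 | h2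
        · exact Or.inl (Or.inr ⟨h1, h2⟩)
        · exact Or.inr (Or.inl (by rw [h1, h2]))
        · exact Or.inr (Or.inr (Or.inr ⟨h1.symm, h2⟩))
      · exact Or.inr (Or.inr (Or.inl h1))

theorem lx_map {f : ℕ → ℕ} (hf : StrictMono f) {a b : List ℕ} (h : lx a b) : lx (a.map f) (b.map f) := by
  induction a generalizing b with
  | nil => cases b <;> exact h.elim
  | cons x l ih =>
    cases b with
    | nil => exact h.elim
    | cons y m =>
      have h1 : x < y ∨ (x = y ∧ lx l m) := h
      show f x < f y ∨ (f x = f y ∧ lx (l.map f) (m.map f))
      rcases h1 with h1 | ⟨h1, h2⟩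
      · exact Or.inl (hf h1)
      · exact Or.inr ⟨congrArg f h1, ih h2⟩

/-- PROOF: `lx_irrefl`. -/
theorem blt_irrefl (β : List B4) : ¬ blt β β := by
  rintro (h | ⟨-, q, -, h⟩)
  · exact lx_irrefl _ h
  · exact lx_irrefl _ h

/-- PROOF. Four cases. If both are of the second kind, with `q` and `q'`, take `min q q'` (`lx_trans` if `q = q'`, otherwise one of the two columns is equal and can be substituted). -/
theorem blt_trans {β β' β'' : List B4} (h : blt β β') (h' : blt β' β'') : blt β β'' := by
  rcases h with h | ⟨h, q, hq, hl⟩
  · rcases h' with h' | ⟨h', q', hq', hl'⟩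
    · exact Or.inl (lx_trans h' h)
    · rw [h'] at h
      exact Or.inl h
  · rcases h' with h' | ⟨h', q', hq', hl'⟩
    · rw [← h] at h'
      exact Or.inl h'
    · refine Or.inr ⟨h.trans h', ?_⟩
      rcases lt_trichotomy q q' with h1 | h1 | h1
      · refine ⟨q, fun r hr => (hq r hr).trans (hq' r (hr.trans h1)), ?_⟩
        rw [← hq' q h1]
        exact hl
      · subst h1
        exact ⟨q, fun r hr => (hq r hr).trans (hq' r hr), lx_trans hl hl'⟩
      · refine ⟨q', fun r hr => (hq r (hr.trans h1)).trans (hq' r hr), ?_⟩
        rw [hq q' h1]
        exact hl'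

private theorem J09a_ext {β β' : List B4} (hj : jv β = jv β') (hc : ∀ q, colv q β = colv q β') : β = β' := by
  induction β generalizing β' with
  | nil =>
    cases β' with
    | nil => rfl
    | cons b t =>
      have h1 := congrArg List.length hj
      exact absurd h1 (by simp [jv])
  | cons b t ih =>
    cases β' with
    | nil =>
      have h1 := congrArg List.length hj
      exact absurd h1 (by simp [jv])
    | cons b' t' =>
      have hj' : b.2 :: jv t = b'.2 :: jv t' := hj
      have hc' : ∀ q, (b.1 q).val :: colv q t = (b'.1 q).val :: colv q t' := hc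
      rw [List.cons.injEq] at hj'
      have h1 : b = b' := by
        refine Prod.ext (Finsupp.ext fun q => ?_) hj'.1
        have h2 := hc' q
        rw [List.cons.injEq] at h2
        exact ZMod.val_injective 4 h2.1
      have h3 : t = t' := ih hj'.2 fun q => by
        have h2 := hc' q
        rw [List.cons.injEq] at h2
        exact h2.2
      rw [h1, h3]

/-- PROOF. `lx_tri` for `jv`. If `jv β = jv β'`: if all columns agree, then `β = β'` (same length; the entries agree at every `q` since `ZMod.val` is injective; the indices agree as `jv β = jv β'`). Otherwise let `q` be the smallest with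
`colv q β ≠ colv q β'` (`Nat.find`), and `lx_tri` for these columns. -/
theorem blt_tri {β β' : List B4} (h : β.length = β'.length) : blt β β' ∨ β = β' ∨ blt β' β := by
  have hj : (jv β).length = (jv β').length := by
    unfold jv
    rw [List.length_map, List.length_map, h]
  rcases lx_tri hj with h1 | h1 | h1
  · exact Or.inr (Or.inr (Or.inl h1))
  · classical
    by_cases hc : ∀ q, colv q β = colv q β'
    · exact Or.inr (Or.inl (J09a_ext h1 hc))
    · have hex : ∃ q, colv q β ≠ colv q β' := not_forall.1 hc
      have hne := Nat.find_spec hex
      have hmin : ∀ r < Nat.find hex, colv r β = colv r β' := fun r hr => by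
        by_contra h2
        exact Nat.find_min hex hr h2
      have hl : (colv (Nat.find hex) β).length = (colv (Nat.find hex) β').length := by
        unfold colv
        rw [List.length_map, List.length_map, h]
      rcases lx_tri hl with h2 | h2 | h2
      · exact Or.inl (Or.inr ⟨h1, _, hmin, h2⟩)
      · exact absurd h2 hne
      · exact Or.inr (Or.inr (Or.inr ⟨h1.symm, _, fun r hr => (hmin r hr).symm, h2⟩))
  · exact Or.inl (Or.inl h1)

end E4.J
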