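import Pool.Agent.Lib.MP_8a95e3_al.J09a

/-!
# J09b : levels and moves
-/

namespace E4.J

theorem sp_strictMono (p : ℕ) : StrictMono (sp p) := by
  intro a b hab
  unfold sp
  split_ifs <;> omega

/-- PROOF: `Finsupp.mapDomain_apply` for the injective map `sp p` (`q = sp p q`); at `q = p` `Finsupp.mapDomain_notin_range`. -/
theorem zB_lt {p q : ℕ} (b : B4) (h : q < p) : (zB p b).1 q = b.1 q := by
  have h1 : sp p q = q := by
    unfold sp
    rw [if_pos h]
  have h2 := Finsupp.mapDomain_apply (sp_strictMono p).injective b.1 q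
  rw [h1] at h2
  exact h2

theorem zB_eq (p : ℕ) (b : B4) : (zB p b).1 p = 0 := by
  refine Finsupp.mapDomain_of_notMem_range b.1 p ?_
  rintro ⟨j, hj⟩
  unfold sp at hj
  split_ifs at hj <;> omega

theorem zB_gt {p q : ℕ} (b : B4) (h : p ≤ q) : (zB p b).1 (q + 1) = b.1 q := by
  have h1 : sp p q = q + 1 := by
    unfold sp
    rw [if_neg (by omega)]
  have h2 := Finsupp.mapDomain_apply (sp_strictMono p).injective b.1 q
  rw [h1] at h2
  exact h2

private theorem J09b_cA_ne {k p q : ℕ} (a : A4) (h : q ≠ p) : (cA k p a) q = a q := by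
  unfold cA
  rw [Finsupp.add_apply, Finsupp.single_eq_of_ne h, add_zero]

/-- The columns of `sB m b`. PROOF: the two cases of `m`, `zB_lt`, `zB_eq`, `zB_gt`; `cA` changes only the place `p`, there `(zB p b).1 k = b.1 k` as `k < p`. -/
theorem sB_lt {m : Mv} {q : ℕ} (b : B4) (h : q < m.2) : (sB m b).1 q = b.1 q := by
  obtain ⟨_ | k, p⟩ := m
  · exact zB_lt b h
  · show (cA k p (zB p b).1) q = b.1 q
    have h' : q < p := h
    rw [J09b_cA_ne _ (by omega)]
    exact zB_lt b h'

theorem sB_none (p : ℕ) (b : B4) : (sB (none, p) b).1 p = 0 := zB_eq p b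

theorem sB_some {k p : ℕ} (hk : k < p) (b : B4) : (sB (some k, p) b).1 p = b.1 k := by
  show (cA k p (zB p b).1) p = b.1 k
  unfold cA
  rw [Finsupp.add_apply, Finsupp.single_eq_same, zB_eq, zero_add]
  exact zB_lt b hk

theorem sB_gt {m : Mv} {q : ℕ} (b : B4) (h : m.2 ≤ q) : (sB m b).1 (q + 1) = b.1 q := by
  obtain ⟨_ | k, p⟩ := m
  · exact zB_gt b h
  · show (cA k p (zB p b).1) (q + 1) = b.1 q
    have h' : p ≤ q := h
    rw [J09b_cA_ne _ (by omega)]
    exact zB_gt b h'

theorem sB_snd (m : Mv) (b : B4) : (sB m b).2 = sp m.2 b.2 := by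
  obtain ⟨_ | k, p⟩ := m
  · rfl
  · rfl

/-- PROOF. The set of the `b : B4` with `b.2 < n` and `b.1 q = 0` for `q ≥ n` is finite (injects into `(Fin n → ZMod 4) × Fin n`); lists of length `d` over a finite set form a finite set (induction on `d`, `Set.Finite.image2` of `List.cons`;
or `List.finite_length_eq` for the subtype). -/
theorem lev_finite (d n : ℕ) : (lev d n).Finite := by
  let S : Set B4 := {b | b.2 < n ∧ ∀ q, n ≤ q → b.1 q = 0}
  have hS : Finite S := by
    refine Finite.of_injective
      (fun b : S => ((fun i : Fin n => b.1.1 i, ⟨b.1.2, b.2.1⟩) : (Fin n → ZMod 4) × Fin n)) ?_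
    rintro ⟨b, hb⟩ ⟨b', hb'⟩ h
    have h1 := congrArg Prod.fst h
    have h2 := congrArg Prod.snd h
    refine Subtype.ext (Prod.ext (Finsupp.ext fun q => ?_) (congrArg Fin.val h2))
    by_cases hq : q < n
    · exact congrFun h1 ⟨q, hq⟩
    · show b.1 q = b'.1 q
      rw [hb.2 q (not_lt.1 hq), hb'.2 q (not_lt.1 hq)]
  refine ((List.finite_length_eq S d).image (List.map Subtype.val)).subset ?_
  rintro β ⟨hd, hβ⟩
  have hβ' : ∀ b ∈ β, b ∈ S := hβ
  lift β to List S using hβ'
  exact ⟨β, by simpa using hd, rfl⟩

theorem lev_mono (d : ℕ) {n n' : ℕ} (h : n ≤ n') : lev d n ⊆ lev d n' := fun _ hβ =>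
  ⟨hβ.1, fun b hb => ⟨lt_of_lt_of_le (hβ.2 b hb).1 h, fun q hq => (hβ.2 b hb).2 q (h.trans hq)⟩⟩

private theorem J09b_one (β : List B4) : ∃ n, ∀ b ∈ β, b.2 < n ∧ ∀ q, n ≤ q → b.1 q = 0 := by
  induction β with
  | nil => exact ⟨0, fun b hb => absurd hb List.not_mem_nil⟩
  | cons b β ih =>
    obtain ⟨n, hn⟩ := ih
    refine ⟨max n (max (b.2 + 1) (b.1.support.sup id + 1)), fun b' hb' => ?_⟩
    rcases List.mem_cons.1 hb' with h | h
    · subst h
      refine ⟨?_, fun q hq => ?_⟩
      · have h1 : b'.2 + 1 ≤ max n (max (b'.2 + 1) (b'.1.support.sup id + 1)) :=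
          le_trans (le_max_left _ _) (le_max_right _ _)
        omega
      · by_contra h0
        have h1 : q ∈ b'.1.support := Finsupp.mem_support_iff.2 h0
        have h2 : q ≤ b'.1.support.sup id := Finset.le_sup (f := id) h1
        have h3 : b'.1.support.sup id + 1 ≤ max n (max (b'.2 + 1) (b'.1.support.sup id + 1)) :=
          le_trans (le_max_right _ _) (le_max_right _ _)
        omega
    · obtain ⟨h1, h2⟩ := hn b' h
      have h3 : n ≤ max n (max (b.2 + 1) (b.1.support.sup id + 1)) := le_max_left _ _
      exact ⟨lt_of_lt_of_le h1 h3, fun q hq => h2 q (h3.trans hq)⟩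

/-- PROOF: a finite list has bounded indices and supports. -/
theorem exists_lev {d : ℕ} (s : Finset (List B4)) (hs : ∀ β ∈ s, β.length = d) :
    ∃ n, ∀ β ∈ s, β ∈ lev d n := by
  classical
  induction s using Finset.induction_on with
  | empty => exact ⟨0, fun β hβ => absurd hβ (Finset.notMem_empty β)⟩
  | insert a s _ ih =>
    obtain ⟨n, hn⟩ := ih fun β hβ => hs β (Finset.mem_insert_of_mem hβ)
    obtain ⟨n', hn'⟩ := J09b_one a
    refine ⟨max n n', fun β hβ => ?_⟩
    rcases Finset.mem_insert.1 hβ with h | h
    · subst h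
      exact lev_mono d (le_max_right n n') ⟨hs β (Finset.mem_insert_self β s), hn'⟩
    · exact lev_mono d (le_max_left n n') (hn β h)

private theorem J09b_okm {m : Mv} {n : ℕ} (hm : okm m n) : m.2 ≤ n := by
  obtain ⟨_ | k, p⟩ := m
  · exact hm
  · exact hm.2

/-- PROOF: `m.2 ≤ n`; `sB_snd` (`sp p j ≤ j + 1`), and for `q ≥ n + 1` `sB_gt` with `q - 1 ≥ n ≥ m.2`. -/
theorem stm_lev {d n : ℕ} {m : Mv} {β : List B4} (hm : okm m n) (h : β ∈ lev d n) :
    stm m β ∈ lev d (n + 1) := by
  refine ⟨?_, fun b' hb' => ?_⟩
  · unfold stm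
    rw [List.length_map]
    exact h.1
  · obtain ⟨b, hb, rfl⟩ := List.mem_map.1 hb'
    obtain ⟨h1, h2⟩ := h.2 b hb
    refine ⟨?_, fun q hq => ?_⟩
    · rw [sB_snd]
      unfold sp
      split_ifs <;> omega
    · obtain ⟨r, rfl⟩ : ∃ r, q = r + 1 := ⟨q - 1, by omega⟩
      have h3 := J09b_okm hm
      rw [sB_gt b (by omega)]
      exact h2 r (by omega)

private theorem J09b_jv (m : Mv) (β : List B4) : jv (stm m β) = (jv β).map (sp m.2) := by
  unfold jv stm
  rw [List.map_map, List.map_map]
  refine List.map_congr_left fun b _ => ?_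
  exact sB_snd m b

private theorem J09b_lt {m : Mv} {q : ℕ} (h : q < m.2) (β : List B4) :
    colv q (stm m β) = colv q β := by
  unfold colv stm
  rw [List.map_map]
  refine List.map_congr_left fun b _ => ?_
  simp only [Function.comp_apply]
  rw [sB_lt b h]

private theorem J09b_gt {m : Mv} {q : ℕ} (h : m.2 ≤ q) (β : List B4) :
    colv (q + 1) (stm m β) = colv q β := by
  unfold colv stm
  rw [List.map_map]
  refine List.map_congr_left fun b _ => ?_
  simp only [Function.comp_apply]
  rw [sB_gt b h]

/-- **The moves are strictly monotone.**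

PROOF. `jv (stm m β) = (jv β).map (sp p)`, `p = m.2`. If `lx (jv β') (jv β)`: `lx_map`, `sp_strictMono`. If `jv β = jv β'` and the columns agree below `q` and `lx (colv q β) (colv q β')`: the columns of `stm m β` are: `colv r β` for `r < p`,
at `p` the zero column or `colv k β` (`k < p`), `colv (r - 1) β` for `r > p`. If `q < p`: the first difference is at `q`. If `p ≤ q`: the columns below `p` agree, the columns at `p` agree (`k < p ≤ q`), the columns `r` with `p < r < q + 1` agree, and
the column `q + 1` is `colv q`: `lx`. -/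
theorem stm_blt {n : ℕ} {m : Mv} {β β' : List B4} (hm : okm m n) (h : blt β β') :
    blt (stm m β) (stm m β') := by
  rcases h with h | ⟨hj, q, hq, hl⟩
  · refine Or.inl ?_
    rw [J09b_jv, J09b_jv]
    exact lx_map (sp_strictMono m.2) h
  · refine Or.inr ⟨by rw [J09b_jv, J09b_jv, hj], ?_⟩
    have hlen : β.length = β'.length := by
      have := congrArg List.length hj
      unfold jv at this
      rwa [List.length_map, List.length_map] at this
    by_cases hqm : q < m.2
    · refine ⟨q, fun r hr => ?_, ?_⟩
      · rw [J09b_lt (by omega), J09b_lt (by omega)]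
        exact hq r hr
      · rw [J09b_lt hqm, J09b_lt hqm]
        exact hl
    · refine ⟨q + 1, fun r hr => ?_, ?_⟩
      · rcases lt_trichotomy r m.2 with h1 | h1 | h1
        · rw [J09b_lt h1, J09b_lt h1]
          exact hq r (by omega)
        · rw [h1]
          obtain ⟨_ | k, p⟩ := m
          · have h2 : ∀ γ : List B4, colv p (stm (none, p) γ) = List.replicate γ.length 0 := by
              intro γ
              rw [← List.map_const']
              unfold colv stm
              rw [List.map_map]
              refine List.map_congr_left fun b _ => ?_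
              simp only [Function.comp_apply]
              rw [sB_none]
              rfl
            show colv p (stm (none, p) β) = colv p (stm (none, p) β')
            rw [h2, h2, hlen]
          · have hk : k < p := hm.1
            have h2 : ∀ γ : List B4, colv p (stm (some k, p) γ) = colv k γ := by
              intro γ
              unfold colv stm
              rw [List.map_map]
              refine List.map_congr_left fun b _ => ?_
              simp only [Function.comp_apply]
              rw [sB_some hk]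
            show colv p (stm (some k, p) β) = colv p (stm (some k, p) β')
            rw [h2, h2]
            have h3 : ¬ q < p := hqm
            exact hq k (by omega)
        · obtain ⟨r', rfl⟩ : ∃ r', r = r' + 1 := ⟨r - 1, by omega⟩
          rw [J09b_gt (by omega), J09b_gt (by omega)]
          exact hq r' (by omega)
      · rw [J09b_gt (by omega), J09b_gt (by omega)]
        exact hl

end E4.J
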