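import Pool.Agent.Lib.MP_8a95e3_al.J09b

/-!
# J10a : moves are insertions of letters
-/

namespace E4.J

private theorem J10a_getD {d n : ℕ} {m : Mv} {β : List B4} (h : β ∈ lev d n) (i : Fin d) :
    (stm m β).getD i (0, 0) = sB m (β.getD i (0, 0)) := by
  have h1 : (i : ℕ) < β.length := by rw [h.1]; exact i.2
  unfold stm
  rw [List.getD_eq_getElem _ _ (by rw [List.length_map]; exact h1), List.getElem_map, List.getD_eq_getElem _ _ h1]

private theorem J10a_sp_lt {p q : ℕ} (hq : q < p) (j : ℕ) : sp p j = q ↔ j = q := by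
  unfold sp
  split_ifs <;> omega

private theorem J10a_sp_eq (p j : ℕ) : sp p j ≠ p := by
  unfold sp
  split_ifs <;> omega

private theorem J10a_sp_gt {p q : ℕ} (hq : p ≤ q) (j : ℕ) : sp p j = q + 1 ↔ j = q := by
  unfold sp
  split_ifs <;> omega

/-- PROOF: `(stm m β).getD i (0,0) = sB m (β.getD i (0,0))` for `i < β.length = d` (`List.getD_eq_getElem`, `List.getElem_map`), `sB_lt`, `sB_snd`: `sp p j = q ↔ j = q` for `q < p`. -/
theorem ltr_lt {d n : ℕ} {m : Mv} {β : List B4} (h : β ∈ lev d n) {q : ℕ} (hq : q < m.2) :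
    ltr d (stm m β) q = ltr d β q := by
  funext i
  unfold ltr
  rw [J10a_getD h, sB_lt _ hq, sB_snd]
  refine Prod.ext rfl ?_
  exact decide_eq_decide.2 (J10a_sp_lt hq _)

/-- PROOF: `sB_none`; `sp p j ≠ p`. -/
theorem ltr_none {d n p : ℕ} {β : List B4} (h : β ∈ lev d n) : ltr d (stm (none, p) β) p = fun _ => (0, false) := by
  funext i
  unfold ltr
  rw [J10a_getD h, sB_none, sB_snd]
  refine Prod.ext rfl ?_
  exact decide_eq_false (J10a_sp_eq _ _)

/-- PROOF: `sB_some`; `sp p j ≠ p`. -/
theorem ltr_some {d n k p : ℕ} (hk : k < p) {β : List B4} (h : β ∈ lev d n) :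
    ltr d (stm (some k, p) β) p = fun i => (lcol (ltr d β k) i, false) := by
  funext i
  unfold lcol ltr
  rw [J10a_getD h, sB_some hk, sB_snd]
  refine Prod.ext rfl ?_
  exact decide_eq_false (J10a_sp_eq _ _)

/-- PROOF: `sB_gt`, `sp p j = q + 1 ↔ j = q` for `p ≤ q`. -/
theorem ltr_gt {d n : ℕ} {m : Mv} {β : List B4} (h : β ∈ lev d n) {q : ℕ} (hq : m.2 ≤ q) :
    ltr d (stm m β) (q + 1) = ltr d β q := by
  funext i
  unfold ltr
  rw [J10a_getD h, sB_gt _ hq, sB_snd]
  refine Prod.ext rfl ?_
  exact decide_eq_decide.2 (J10a_sp_gt hq _)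

private theorem J10a_enc_get {d n : ℕ} (β : List B4) (q : ℕ) :
    (enc d n β)[q]? = if q < n then some (ltr d β q) else none := by
  unfold enc
  rw [List.getElem?_map]
  by_cases hq : q < n
  · rw [List.getElem?_range hq, if_pos hq]
    rfl
  · rw [if_neg hq, List.getElem?_eq_none (by rw [List.length_range]; exact not_lt.1 hq)]
    rfl

private theorem J10a_main {d n : ℕ} {m : Mv} {β : List B4} (h : β ∈ lev d n) {u v : List (Ltr d)} {a : Ltr d}
    (he : enc d n β = u ++ v) (hp : m.2 = u.length) (ha : ltr d (stm m β) m.2 = a) :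
    u ++ a :: v = enc d (n + 1) (stm m β) := by
  have hlen : u.length + v.length = n := by
    have h1 := congrArg List.length he
    rw [List.length_append] at h1
    rw [← h1]
    unfold enc
    rw [List.length_map, List.length_range]
  refine List.ext_getElem? fun q => ?_
  rw [J10a_enc_get]
  rcases lt_trichotomy q m.2 with hq | hq | hq
  · rw [List.getElem?_append_left (by omega), if_pos (by omega), ltr_lt h hq]
    have h1 := J10a_enc_get (d := d) (n := n) β q
    rw [he, List.getElem?_append_left (by omega), if_pos (by omega)] at h1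
    exact h1
  · rw [List.getElem?_append_right (by omega), if_pos (by omega), hq, ha, hp, Nat.sub_self]
    rfl
  · obtain ⟨r, rfl⟩ : ∃ r, q = r + 1 := ⟨q - 1, by omega⟩
    rw [List.getElem?_append_right (by omega), ltr_gt h (by omega)]
    have h2 : r + 1 - u.length = (r - u.length) + 1 := by omega
    rw [h2, List.getElem?_cons_succ]
    have h1 := J10a_enc_get (d := d) (n := n) β r
    rw [he, List.getElem?_append_right (by omega)] at h1
    rw [h1]
    by_cases hr : r < n
    · rw [if_pos hr, if_pos (by omega)]
    · rw [if_neg hr, if_neg (by omega)]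

/-- **Every allowed insertion comes from a move.**

PROOF. `enc d n β = u ++ v`, `w' = u ++ a :: v`, `a` unmarked. Put `p = u.length ≤ n`. If `lcol a = 0`: `m = (none, p)`; then `a = fun _ => (0, false)`. If `lcol a = lcol b`, `b ∈ u`: `b = ltr d β k` with `k < p`; `m = (some k, p)`;
`a = fun i => (lcol (ltr d β k) i, false)`. Both lists `enc d (n+1) (stm m β)` and `u ++ a :: v` have length `n + 1`; compare the entries number `q` (`List.ext_getElem`): `q < p`: `ltr_lt` and the entry of `u`, which is the entry `q` of `enc d n β`;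
`q = p`: `ltr_none`, `ltr_some`; `q = r + 1 > p`: `ltr_gt` and the entry `r` of `u ++ v`. -/
theorem enc_ins {d n : ℕ} {β : List B4} (h : β ∈ lev d n) {w' : List (Ltr d)}
    (hi : Ins lcol lunm {(0 : Fin d → ZMod 4)} (enc d n β) w') :
    ∃ m : Mv, okm m n ∧ w' = enc d (n + 1) (stm m β) := by
  obtain ⟨u, a, v, he, rfl, hun, hcol⟩ := hi
  have hlen : u.length + v.length = n := by
    have h1 := congrArg List.length he
    rw [List.length_append] at h1
    rw [← h1]
    unfold enc
    rw [List.length_map, List.length_range]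
  rcases hcol with hz | ⟨b, hb, hba⟩
  · refine ⟨(none, u.length), ?_, ?_⟩
    · change u.length ≤ n
      omega
    · refine J10a_main h he rfl ?_
      change ltr d (stm (none, u.length) β) u.length = a
      rw [ltr_none h]
      funext i
      have h1 : lcol a i = 0 := by
        have h2 : lcol a = 0 := hz
        rw [h2]
        rfl
      exact Prod.ext h1.symm (hun i).symm
  · obtain ⟨k, hk, hkb⟩ := List.getElem_of_mem hb
    refine ⟨(some k, u.length), ?_, ?_⟩
    · change k < u.length ∧ u.length ≤ n
      omega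
    · refine J10a_main h he rfl ?_
      change ltr d (stm (some k, u.length) β) u.length = a
      rw [ltr_some hk h]
      have h1 : ltr d β k = b := by
        have h2 := J10a_enc_get (d := d) (n := n) β k
        rw [he, List.getElem?_append_left hk, if_pos (by omega), List.getElem?_eq_getElem hk, hkb] at h2
        exact (Option.some.inj h2).symm
      rw [h1]
      funext i
      exact Prod.ext (congrFun hba i) (hun i).symm

end E4.J
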