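import Pool.Agent.Lib.MP_8a95e3_al.J10a
import Pool.Agent.Lib.MP_8a95e3_al.J01b

/-!
# J10b : the moves form a well quasi order
-/

namespace E4.J

/-- PROOF. The lengths are `n` and `n'`. For `i < d` let `b`, `b'` be the entries number `i` of `β`, `β'`. The letters number `q < n` agree: `b.1 q = b'.1 q` and `b.2 = q ↔ b'.2 = q`; for `q ≥ n` `b.1 q = 0 = b'.1 q`; `b.2 < n`, so `b'.2 = b.2`.
So `b = b'`; both lists have length `d` (`List.ext_getElem`). -/
theorem enc_inj {d n n' : ℕ} {β β' : List B4} (h : β ∈ lev d n) (h' : β' ∈ lev d n')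
    (he : enc d n β = enc d n' β') : n = n' ∧ β = β' := by
  have hlen : n = n' := by
    have h1 := congrArg List.length he
    simpa [enc] using h1
  subst hlen
  refine ⟨rfl, ?_⟩
  have hq : ∀ q < n, ltr d β q = ltr d β' q := by
    intro q hq
    have h1 : (enc d n β)[q]? = (enc d n β')[q]? := by rw [he]
    simpa [enc, List.getElem?_map, List.getElem?_range hq] using h1
  refine List.ext_getElem (h.1.trans h'.1.symm) fun i hi hi' => ?_
  have hid : i < d := by
    rw [← h.1]
    exact hi
  have e1 : β.getD i (0, 0) = β[i] := by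
    rw [List.getD_eq_getElem _ _ hi]
  have e2 : β'.getD i (0, 0) = β'[i] := by
    rw [List.getD_eq_getElem _ _ hi']
  have h2 : ∀ q < n, (β[i]).1 q = (β'[i]).1 q ∧ decide ((β[i]).2 = q) = decide ((β'[i]).2 = q) := by
    intro q hq'
    have h3 := congrFun (hq q hq') (⟨i, hid⟩ : Fin d)
    simp only [ltr] at h3
    rw [e1, e2] at h3
    exact Prod.mk.inj h3
  obtain ⟨h4, h5⟩ := h.2 _ (List.getElem_mem hi)
  obtain ⟨h6, h7⟩ := h'.2 _ (List.getElem_mem hi')
  refine Prod.ext ?_ ?_
  · ext q
    rcases Nat.lt_or_ge q n with hqn | hqn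
    · exact (h2 q hqn).1
    · rw [h5 q hqn, h7 q hqn]
  · have h8 := (h2 _ h4).2
    rw [decide_eq_true rfl] at h8
    exact (of_decide_eq_true h8.symm).symm

/-- PROOF. The letter number `q` is marked only if `q = (β.getD i _).2` for some `i : Fin d`. `List.countP_map`, and `List.countP` of a predicate on `List.range n` is the cardinality of the finset of the `q < n` with the predicate,
which is contained in the image of `Finset.univ : Finset (Fin d)`. -/
theorem enc_marks (d n : ℕ) (β : List B4) : marks lunm (enc d n β) ≤ d := by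
  classical
  unfold marks enc
  rw [List.countP_map, List.countP_eq_length_filter]
  have hnd : ((List.range n).filter ((fun a => decide (¬ lunm a)) ∘ ltr d β)).Nodup :=
    (List.nodup_range).filter _
  rw [← List.toFinset_card_of_nodup hnd]
  have hsub : ((List.range n).filter ((fun a => decide (¬ lunm a)) ∘ ltr d β)).toFinset ⊆
      Finset.univ.image fun i : Fin d => (β.getD i (0, 0)).2 := by
    intro q hq
    rw [List.mem_toFinset, List.mem_filter] at hq
    have h1 : ¬ lunm (ltr d β q) := of_decide_eq_true hq.2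
    unfold lunm at h1
    push Not at h1
    obtain ⟨i, hi⟩ := h1
    rw [Finset.mem_image]
    refine ⟨i, Finset.mem_univ _, ?_⟩
    have h2 : decide ((β.getD i (0, 0)).2 = q) ≠ false := hi
    by_contra h3
    exact h2 (decide_eq_false h3)
  refine (Finset.card_le_card hsub).trans (Finset.card_image_le.trans ?_)
  rw [Finset.card_univ, Fintype.card_fin]

/-- PROOF. Induction on `ReflTransGen` (tail): the statement for `w`: there are `n''`, `β'' ∈ lev d n''` with `w = enc d n'' β''` and `ReflTransGen (Step okm stm) (n, β) (n'', β'')`; one more step: `enc_ins`, `stm_lev`. -/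
theorem reach_of_ins {d n : ℕ} {β : List B4} (h : β ∈ lev d n) {w : List (Ltr d)}
    (hw : Relation.ReflTransGen (Ins lcol lunm {(0 : Fin d → ZMod 4)}) (enc d n β) w) :
    ∃ n' β', β' ∈ lev d n' ∧ w = enc d n' β' ∧
      Relation.ReflTransGen (Step okm stm) (n, β) (n', β') := by
  induction hw with
  | refl => exact ⟨n, β, h, rfl, Relation.ReflTransGen.refl⟩
  | tail _ hi ih =>
    obtain ⟨n', β', h1, rfl, h2⟩ := ih
    obtain ⟨m, hm, rfl⟩ := enc_ins h1 hi
    exact ⟨n' + 1, stm m β', stm_lev hm h1, rfl, h2.tail ⟨m, hm, rfl⟩⟩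

/-- PROOF. `ins_wqo` for the sequence `enc d (s t).1 (s t).2` (`m = d`, `enc_marks`; `Ltr d` and `Fin d → ZMod 4` are finite), `reach_of_ins`, `enc_inj`. -/
theorem moves_wqo (d : ℕ) (s : ℕ → ℕ × List B4) (hs : ∀ t, (s t).2 ∈ lev d (s t).1) :
    ∃ a b, a < b ∧ Relation.ReflTransGen (Step okm stm) (s a) (s b) := by
  obtain ⟨a, b, hab, h1⟩ := ins_wqo (lcol (d := d)) (lunm (d := d)) d {(0 : Fin d → ZMod 4)}
    (fun t => enc d (s t).1 (s t).2) (fun t => enc_marks d _ _)
  refine ⟨a, b, hab, ?_⟩
  obtain ⟨n', β', h2, h3, h4⟩ := reach_of_ins (hs a) h1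
  obtain ⟨h5, h6⟩ := enc_inj (hs b) h2 h3
  rw [← h5, ← h6] at h4
  exact h4

end E4.J
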