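import Pool.Agent.Lib.MP_8a95e3_al.JV
import Pool.Agent.Lib.MP_8a95e3_al.J03b

/-!
# J11a : the top section
-/

open scoped commutatorElement

namespace E4.J

/-- PROOF. Let `w ∈ U'`, `e j := abv w j`. For every `j` let `φ` be the endomorphism `x j ↦ x 0`, `x i ↦ 1` for `i ≠ j`. `φ w ∈ U'` and `abv (φ w) = phiA φ (abv w) = single 0 (e j) = abv (x 0 ^ (e j).val)` (`abv_pow`), so
`x 0 ^ (e j).val ∈ U' ⊔ RR` (`mem_RR`: two elements with the same `abv` differ by an element of `RR`). By hypothesis `x 0 ^ (e j).val ∈ U ⊔ RR`. With the endomorphism `x 0 ↦ x j` (`x i ↦ 1` otherwise), `U ⊔ RR` is closed under endomorphisms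
(`Subgroup.mem_sup` with `RR` normal, `RR_endo`): `x j ^ (e j).val ∈ U ⊔ RR`. The element `y := ` product over a list of the support of `abv w` of the `x j ^ (e j).val` is in `U ⊔ RR`, and `abv y = Σ_j single j (e j) = abv w`, so
`w ∈ U ⊔ RR`. -/
theorem top_le {U U' : Subgroup F} (hU : Verb4 U) (hU' : Verb4 U')
    (h : ∀ k : ℕ, k < 4 → x 0 ^ k ∈ U' ⊔ RR → x 0 ^ k ∈ U ⊔ RR) : U' ≤ U ⊔ RR := by
  intro w hw
  have hRN : (RR).Normal := inferInstance
  have hsup : ∀ (V : Subgroup F), Verb4 V → ∀ (φ : F →* F), ∀ y ∈ V ⊔ RR, φ y ∈ V ⊔ RR := by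
    intro V hV φ y hy
    have h1 : V ⊔ RR ≤ (V ⊔ RR).comap φ := by
      refine sup_le (fun v hv => ?_) (fun v hv => ?_)
      · exact Subgroup.mem_comap.2 (Subgroup.mem_sup_left (hV.endo φ v hv))
      · exact Subgroup.mem_comap.2 (Subgroup.mem_sup_right (RR_endo φ hv))
    exact h1 hy
  have hdiff : ∀ (V : Subgroup F) (y z : F), y ∈ V ⊔ RR → abv y = abv z → z ∈ V ⊔ RR := by
    intro V y z hy hyz
    have h1 : y⁻¹ * z ∈ RR := by
      rw [mem_RR, abv_mul, abv_inv, hyz, neg_add_cancel]
    have h2 : z = y * (y⁻¹ * z) := by group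
    rw [h2]
    exact mul_mem hy (Subgroup.mem_sup_right h1)
  set e := abv w with he
  have hk : ∀ j, x 0 ^ (e j).val ∈ U ⊔ RR := by
    intro j
    refine h _ (ZMod.val_lt (e j)) ?_
    refine hdiff U' (FreeGroup.lift (fun i => if i = j then x 0 else 1) w) _
      (Subgroup.mem_sup_left (hU'.endo _ w hw)) ?_
    rw [abv_map, ← he, abv_pow, abv_x]
    have h1 : ∀ a : A4, phiA (FreeGroup.lift (fun i => if i = j then x 0 else 1)) a =
        Finsupp.single 0 (a j) := by
      intro a
      induction a using Finsupp.induction_linear with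
      | zero => simp
      | add a b ha hb => rw [map_add, ha, hb, Finsupp.add_apply, Finsupp.single_add]
      | single i c =>
        rw [phiA_single]
        have h2 : FreeGroup.lift (fun i => if i = j then x 0 else 1) (x i) =
            if i = j then x 0 else 1 := by
          unfold E4.x
          rw [FreeGroup.lift_apply_of]
        rw [h2]
        by_cases hij : i = j
        · rw [if_pos hij, abv_x, hij, Finsupp.single_eq_same, Finsupp.smul_single, smul_eq_mul,
            mul_one]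
        · rw [if_neg hij, abv_one, smul_zero, Finsupp.single_eq_of_ne (Ne.symm hij),
            Finsupp.single_zero]
    rw [h1, ZMod.natCast_zmod_val, Finsupp.smul_single, smul_eq_mul, mul_one]
  have hj : ∀ j, x j ^ (e j).val ∈ U ⊔ RR := by
    intro j
    have h1 := hsup U hU (FreeGroup.lift (fun i => if i = 0 then x j else 1)) _ (hk j)
    rw [map_pow] at h1
    have h2 : FreeGroup.lift (fun i => if i = 0 then x j else 1) (x 0) = x j := by
      unfold E4.x
      rw [FreeGroup.lift_apply_of]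
      simp
    rwa [h2] at h1
  have hlist : ∀ l : List ℕ, (l.map fun j => x j ^ (e j).val).prod ∈ U ⊔ RR ∧
      abv (l.map fun j => x j ^ (e j).val).prod = (l.map fun j => Finsupp.single j (e j)).sum := by
    intro l
    induction l with
    | nil => exact ⟨one_mem _, abv_one⟩
    | cons j l ih =>
      rw [List.map_cons, List.prod_cons, List.map_cons, List.sum_cons, abv_mul, ih.2, abv_pow,
        abv_x, ZMod.natCast_zmod_val, Finsupp.smul_single, smul_eq_mul, mul_one]
      exact ⟨mul_mem (hj j) ih.1, rfl⟩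
  obtain ⟨h3, h4⟩ := hlist e.support.toList
  refine hdiff U _ w h3 ?_
  rw [h4, Finset.sum_map_toList]
  exact Finsupp.sum_single e

/-- PROOF. `S t := {k : Fin 4 | x 0 ^ k.val ∈ U t ⊔ RR}` is a monotone sequence of subsets of a finite type, so it is constant for `t ≥ t₀` (`Finset`/`Set` of a finite type: `monotone_stabilizes_iff_noetherian` or the maximal cardinality).
`top_le` for `U t₀ ≤ U t'`. -/
theorem top_acc (U : ℕ → Subgroup F) (hU : Monotone U) (hV : ∀ t, Verb4 (U t)) :
    ∃ t, ∀ t' ≥ t, U t' ⊔ RR = U t ⊔ RR := by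
  obtain ⟨t, ht⟩ := WellFoundedGT.monotone_chain_condition
    (⟨fun t => {k : Fin 4 | x 0 ^ k.val ∈ U t ⊔ RR}, fun a b hab k hk =>
      (sup_le_sup_right (hU hab) RR) hk⟩ : ℕ →o Set (Fin 4))
  refine ⟨t, fun t' ht' => le_antisymm ?_ (sup_le_sup_right (hU ht') RR)⟩
  refine sup_le (top_le (hV t) (hV t') fun k hk hx => ?_) le_sup_right
  have h1 := ht t' ht'
  have h2 : (⟨k, hk⟩ : Fin 4) ∈ {k : Fin 4 | x 0 ^ k.val ∈ U t' ⊔ RR} := hx
  have h3 : {k : Fin 4 | x 0 ^ k.val ∈ U t ⊔ RR} = {k : Fin 4 | x 0 ^ k.val ∈ U t' ⊔ RR} := h1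
  rw [← h3] at h2
  exact h2

end E4.J
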