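import Pool.Agent.Lib.MP_8a95e3_al.JV
import Pool.Agent.Lib.MP_8a95e3_al.J03a

/-!
# J11b : `RR = F' F4`
-/

open scoped commutatorElement

namespace E4.J

private theorem J11b_aux {G : Type} [CommGroup G] (h4 : ∀ g : G, g ^ 4 = 1) (π : F →* G) {f : F}
    (hf : abv f = 0) : π f = 1 := by
  let _ : Module (ZMod 4) (Additive G) := AddCommGroup.zmodModule (n := 4) (fun g => h4 g.toMul)
  have key : ∀ f : F, Finsupp.linearCombination (ZMod 4)
      (fun j : ℕ => Additive.ofMul (π (x j))) (abv f) = Additive.ofMul (π f) := by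
    intro f
    induction f using FreeGroup.induction_on with
    | C1 => rw [abv_one, map_zero, map_one, ofMul_one]
    | of j =>
      have e : (FreeGroup.of j : F) = x j := rfl
      rw [e, abv_x, Finsupp.linearCombination_single, one_smul]
    | inv_of j h => rw [abv_inv, map_neg, h, map_inv, ofMul_inv]
    | mul f g hf hg => rw [abv_mul, map_add, hf, hg, map_mul, ofMul_mul]
  have h := key f
  rw [hf, map_zero] at h
  exact (congrArg Additive.toMul h).symm

/-- PROOF. `N := commutator F ⊔ F4` is normal; in `G := F ⧸ N` all elements commute and `g ^ 4 = 1`. Make `Additive G` a module over `ZMod 4` (`AddCommGroup.zmodModule`) and let `Λ : A4 →ₗ[ZMod 4] Additive G` be the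
`Finsupp.linearCombination` of `j ↦ ofMul (mk (x j))`. The two homomorphisms `f ↦ mk f` and `f ↦ toMul (Λ (abv f))` from `F` to `G` agree on the generators, so they are equal (`FreeGroup.ext_hom`; or induction on `f`). For `f ∈ RR`: `abv f = 0`,
so `mk f = 1`, `f ∈ N`. -/
theorem RR_le : RR ≤ commutator F ⊔ F4 := by
  intro f hf
  have hn : (commutator F ⊔ F4).Normal := inferInstance
  let _ : CommGroup (F ⧸ (commutator F ⊔ F4)) :=
    { (inferInstance : Group (F ⧸ (commutator F ⊔ F4))) with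
      mul_comm := by
        intro a b
        induction a using QuotientGroup.induction_on with
        | H a =>
        induction b using QuotientGroup.induction_on with
        | H b =>
        refine QuotientGroup.eq.2 ?_
        have e : (a * b)⁻¹ * (b * a) = ⁅b⁻¹, a⁻¹⁆ := by
          rw [commutatorElement_def]
          group
        rw [e]
        exact Subgroup.mem_sup_left (Subgroup.commutator_mem_commutator (Subgroup.mem_top _)
          (Subgroup.mem_top _)) }
  have h4 : ∀ g : F ⧸ (commutator F ⊔ F4), g ^ 4 = 1 := by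
    intro g
    induction g using QuotientGroup.induction_on with
    | H g => exact (QuotientGroup.eq_one_iff (g ^ 4)).2 (Subgroup.mem_sup_right (F4_pow g))
  have h := J11b_aux h4 (QuotientGroup.mk' (commutator F ⊔ F4)) (mem_RR.1 hf)
  exact (QuotientGroup.eq_one_iff f).1 h

/-- PROOF. For normal subgroups `H`, `K`, `N`: `⁅H ⊔ N, K ⊔ N⁆ ≤ ⁅H, K⁆ ⊔ N`: by `Subgroup.commutator_le` take `h n`, `k m`; modulo the normal subgroup `⁅H, K⁆ ⊔ N` the elements are `h`, `k`, and `⁅h, k⁆ ∈ ⁅H, K⁆`. -/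
theorem comm_sup_le (H K N : Subgroup F) [H.Normal] [K.Normal] [N.Normal] :
    ⁅H ⊔ N, K ⊔ N⁆ ≤ ⁅H, K⁆ ⊔ N := by
  rw [Subgroup.commutator_le]
  intro a ha b hb
  obtain ⟨h, hh, n, hn, rfl⟩ := Subgroup.mem_sup_of_normal_right.1 ha
  obtain ⟨k, hk, m, hm, rfl⟩ := Subgroup.mem_sup_of_normal_right.1 hb
  have hnor : (⁅H, K⁆ ⊔ N).Normal := inferInstance
  have h1 : QuotientGroup.mk' (⁅H, K⁆ ⊔ N) n = 1 :=
    (QuotientGroup.eq_one_iff n).2 (Subgroup.mem_sup_right hn)
  have h2 : QuotientGroup.mk' (⁅H, K⁆ ⊔ N) m = 1 :=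
    (QuotientGroup.eq_one_iff m).2 (Subgroup.mem_sup_right hm)
  have h3 : QuotientGroup.mk' (⁅H, K⁆ ⊔ N) ⁅h, k⁆ = 1 :=
    (QuotientGroup.eq_one_iff ⁅h, k⁆).2
      (Subgroup.mem_sup_left (Subgroup.commutator_mem_commutator hh hk))
  have h4 : QuotientGroup.mk' (⁅H, K⁆ ⊔ N) ⁅h * n, k * m⁆ = 1 := by
    rw [map_commutatorElement, map_mul, map_mul, h1, h2, mul_one, mul_one,
      ← map_commutatorElement, h3]
  exact (QuotientGroup.eq_one_iff _).1 h4

/-- PROOF: induction on `n`, `RR_le`, `comm_sup_le`. -/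
theorem lcsRR_le (n : ℕ) : lcs RR n ≤ lcs (commutator F) n ⊔ F4 := by
  induction n with
  | zero => exact RR_le
  | succ n ih =>
    have _ : (lcs (commutator F) n).Normal := lcs_normal (commutator F) n
    rw [lcs_succ, lcs_succ]
    exact (Subgroup.commutator_mono ih RR_le).trans (comm_sup_le _ _ _)

/-- PROOF: `lcsRR_le`, `F4_le`. -/
theorem lcsRR_le_of {c : ℕ} {V : Subgroup F} (hV : Verb4 V) (hc : lcs (commutator F) c ≤ V) : lcs RR c ≤ V :=
  (lcsRR_le c).trans (sup_le hc (F4_le hV))

end E4.J
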