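import Pool.Agent.Lib.MP_8a95e3_al.J08b
import Pool.Agent.Lib.MP_8a95e3_al.J11a
import Pool.Agent.Lib.MP_8a95e3_al.J11b

/-!
# J11c : ascending sequences of verbal subgroups stabilise
-/

open scoped commutatorElement

namespace E4.J

/-- PROOF. By induction on `n ≤ c`: every `w ∈ U'` is `u y` with `u ∈ U`, `y ∈ U' ⊓ lcs RR n`. `n = 0`: `lcs RR 0 = RR`, `w ∈ U' ⊔ RR = U ⊔ RR`, so `w = u y`, `y ∈ RR` (`Subgroup.mem_sup` with `RR` normal), `y = u⁻¹ w ∈ U'`.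
`n → n + 1`: `y ∈ U' ⊓ lcs RR n ≤ (U ⊓ lcs RR n) ⊔ lcs RR (n+1)`: `y = u' y'`, `u' ∈ U`, `y' ∈ lcs RR (n+1)`, `y' = u'⁻¹ y ∈ U'`. For `n = c`: `y ∈ lcs RR c ≤ U`. -/
theorem sections_le {c : ℕ} {U U' : Subgroup F} (h : U ≤ U') (hc : lcs RR c ≤ U) (h0 : U' ⊔ RR = U ⊔ RR)
    (hs : ∀ n < c, (U' ⊓ lcs RR n) ⊔ lcs RR (n + 1) = (U ⊓ lcs RR n) ⊔ lcs RR (n + 1)) : U' ≤ U := by

  have key : ∀ n ≤ c, ∀ w ∈ U', ∃ u ∈ U, ∃ y ∈ U' ⊓ lcs RR n, u * y = w := by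
    intro n
    induction n with
    | zero =>
      intro _ w hw
      have h1 : w ∈ U ⊔ RR := by
        rw [← h0]
        exact Subgroup.mem_sup_left hw
      obtain ⟨u, hu, y, hy, hz⟩ := Subgroup.mem_sup_of_normal_right.1 h1
      refine ⟨u, hu, y, ⟨?_, hy⟩, hz⟩
      have h2 : y = u⁻¹ * w := by rw [← hz, inv_mul_cancel_left]
      rw [h2]
      exact U'.mul_mem (U'.inv_mem (h hu)) hw
    | succ n ih =>
      intro hn w hw
      obtain ⟨u, hu, y, hy, hz⟩ := ih (Nat.le_of_succ_le hn) w hw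
      have h1 : y ∈ (U ⊓ lcs RR n) ⊔ lcs RR (n + 1) := by
        rw [← hs n hn]
        exact Subgroup.mem_sup_left hy
      obtain ⟨u', hu', y', hy', hz'⟩ := Subgroup.mem_sup_of_normal_right.1 h1
      refine ⟨u * u', U.mul_mem hu hu'.1, y', ⟨?_, hy'⟩, by rw [mul_assoc, hz', hz]⟩
      have h2 : y' = u'⁻¹ * y := by rw [← hz', inv_mul_cancel_left]
      rw [h2]
      exact U'.mul_mem (U'.inv_mem (h hu'.1)) hy.1
  intro w hw
  obtain ⟨u, hu, y, hy, hz⟩ := key c le_rfl w hw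
  rw [← hz]
  exact U.mul_mem hu (hc hy.2)

/-- PROOF. `top_acc`, `section_acc n` for `n < c`: let `t` be the maximum of the finitely many bounds. `sections_le` (`lcsRR_le_of`). -/
theorem verb_acc (c : ℕ) (U : ℕ → Subgroup F) (hU : Monotone U) (hV : ∀ t, Verb4 (U t))
    (hc : ∀ t, lcs (commutator F) c ≤ U t) : ∃ t, ∀ t' ≥ t, U t' = U t := by

  obtain ⟨t0, h0⟩ := top_acc U hU hV
  choose T hT using fun n => section_acc n U hU hV
  refine ⟨max t0 ((Finset.range c).sup T), fun t' ht' => ?_⟩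
  have hle := hU ht'
  have ht0 : t0 ≤ max t0 ((Finset.range c).sup T) := le_max_left _ _
  refine le_antisymm (sections_le hle (lcsRR_le_of (hV _) (hc _)) ?_ fun n hn => ?_) hle
  · rw [h0 t' (ht0.trans ht'), h0 _ ht0]
  · have hTn : T n ≤ max t0 ((Finset.range c).sup T) :=
      (Finset.le_sup (f := T) (Finset.mem_range.2 hn)).trans (le_max_right _ _)
    rw [hT n t' (hTn.trans ht'), hT n _ hTn]

end E4.J
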