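import Pool.Agent.Lib.MP_8a95e3_al.JV

/-!
# J12a : the words `γ_n`
-/

open scoped commutatorElement

namespace E4.J

private theorem J12a_closure {W : Subgroup F} [W.Normal] {A B : Set F} (h : ∀ a ∈ A, ∀ b ∈ B, ⁅a, b⁆ ∈ W) :
    ⁅Subgroup.closure A, Subgroup.closure B⁆ ≤ W := by
  have key : ∀ y z : F, ⁅y, z⁆ ∈ W ↔ Commute (QuotientGroup.mk' W y) (QuotientGroup.mk' W z) := by
    intro y z
    rw [← commutatorElement_eq_one_iff_commute, ← map_commutatorElement, QuotientGroup.mk'_apply,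
      QuotientGroup.eq_one_iff]
  rw [Subgroup.commutator_le]
  intro y hy z hz
  rw [key]
  induction hy using Subgroup.closure_induction with
  | mem a ha =>
    induction hz using Subgroup.closure_induction with
    | mem b hb => exact (key a b).1 (h a ha b hb)
    | one =>
      rw [map_one]
      exact Commute.one_right _
    | mul b c _ _ ihb ihc =>
      rw [map_mul]
      exact ihb.mul_right ihc
    | inv b _ ihb =>
      rw [map_inv]
      exact ihb.inv_right
  | one =>
    rw [map_one]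
    exact Commute.one_left _
  | mul b c _ _ ihb ihc =>
    rw [map_mul]
    exact ihb.mul_left ihc
  | inv b _ ihb =>
    rw [map_inv]
    exact ihb.inv_left

private theorem J12a_lift (c : ℕ → F) (j : ℕ) : (FreeGroup.lift c) (x j) = c j := FreeGroup.lift_apply_of

/-- PROOF: induction on `n`; `gw n` is a word in `x i`, `i < 2 n + 2`. -/
theorem gw_congr (n : ℕ) (φ ψ : F →* F) (h : ∀ i < 2 * n + 2, φ (x i) = ψ (x i)) : φ (gw n) = ψ (gw n) := by
  induction n generalizing φ ψ with
  | zero =>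
    show φ ⁅x 0, x 1⁆ = ψ ⁅x 0, x 1⁆
    rw [map_commutatorElement, map_commutatorElement, h 0 (by omega), h 1 (by omega)]
  | succ n ih =>
    show φ ⁅gw n, ⁅x (2 * n + 2), x (2 * n + 3)⁆⁆ = ψ ⁅gw n, ⁅x (2 * n + 2), x (2 * n + 3)⁆⁆
    rw [map_commutatorElement, map_commutatorElement, map_commutatorElement, map_commutatorElement,
      h (2 * n + 2) (by omega), h (2 * n + 3) (by omega), ih φ ψ fun i hi => h i (by omega)]

/-- PROOF: induction on `n`: `gw n ∈ lcs (commutator F) n` and `⁅x i, x j⁆ ∈ commutator F`. -/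
theorem gw_mem (n : ℕ) : gw n ∈ lcs (commutator F) n := by
  have h2 : ∀ a b : F, ⁅a, b⁆ ∈ commutator F := fun a b =>
    Subgroup.commutator_mem_commutator (Subgroup.mem_top a) (Subgroup.mem_top b)
  induction n with
  | zero => exact h2 _ _
  | succ n ih =>
    show ⁅gw n, ⁅x (2 * n + 2), x (2 * n + 3)⁆⁆ ∈ ⁅lcs (commutator F) n, commutator F⁆
    exact Subgroup.commutator_mem_commutator ih (h2 _ _)

/-- PROOF. Induction on `n`. `n = 0`: `commutator F` is generated by the `⁅a, b⁆ = φ (gw 0)`, `φ = FreeGroup.lift` with `x 0 ↦ a`, `x 1 ↦ b` (`commutator_def`, `Subgroup.commutator_le`).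
`n + 1`: let `W = vcl {gw (n+1)}`, normal. `⁅lcs (commutator F) n, commutator F⁆ ≤ ⁅vcl {gw n}, vcl {gw 0}⁆ ≤ W`: by `Subgroup.commutator_le` and closure induction in both variables modulo `W` (in `F ⧸ W` the images of the two generating sets commute
elementwise, so the images of the subgroups commute) it is enough that `⁅φ (gw n), ψ (gw 0)⁆ ∈ W` for all endomorphisms `φ, ψ`; and this is `θ (gw (n+1))` for `θ = FreeGroup.lift` with `x i ↦ φ (x i)` for `i < 2 n + 2`, `x (2n+2) ↦ ψ (x 0)`,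
`x (2n+3) ↦ ψ (x 1)` (`gw_congr`; `map_commutatorElement`). -/
theorem lcs_le_vcl (n : ℕ) : lcs (commutator F) n ≤ vcl {gw n} := by
  have h0 : lcs (commutator F) 0 ≤ vcl {gw 0} := by
    show ⁅(⊤ : Subgroup F), (⊤ : Subgroup F)⁆ ≤ vcl {gw 0}
    rw [Subgroup.commutator_le]
    intro a _ b _
    refine Subgroup.subset_closure ⟨gw 0, rfl, FreeGroup.lift (fun i => if i = 0 then a else b), ?_⟩
    show ⁅a, b⁆ = (FreeGroup.lift fun i => if i = 0 then a else b) ⁅x 0, x 1⁆
    rw [map_commutatorElement, J12a_lift, J12a_lift, if_pos rfl, if_neg one_ne_zero]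
  induction n with
  | zero => exact h0
  | succ n ih =>
    show ⁅lcs (commutator F) n, commutator F⁆ ≤ vcl {gw (n + 1)}
    refine (Subgroup.commutator_mono ih h0).trans ?_
    have hW : (vcl {gw (n + 1)}).Normal := vcl_normal _
    refine J12a_closure ?_
    rintro _ ⟨_, rfl, φ, rfl⟩ _ ⟨_, rfl, ψ, rfl⟩
    obtain ⟨θ, hθ⟩ : ∃ θ : F →* F, θ = FreeGroup.lift (fun i => if i < 2 * n + 2 then φ (x i) else
      if i = 2 * n + 2 then ψ (x 0) else ψ (x 1)) := ⟨_, rfl⟩
    refine Subgroup.subset_closure ⟨gw (n + 1), rfl, θ, ?_⟩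
    show ⁅φ (gw n), ψ ⁅x 0, x 1⁆⁆ = θ ⁅gw n, ⁅x (2 * n + 2), x (2 * n + 3)⁆⁆
    rw [map_commutatorElement θ, map_commutatorElement θ, map_commutatorElement ψ]
    have h1 : θ (gw n) = φ (gw n) := by
      refine gw_congr n θ φ fun i hi => ?_
      rw [hθ, J12a_lift, if_pos hi]
    have h2 : θ (x (2 * n + 2)) = ψ (x 0) := by
      rw [hθ, J12a_lift, if_neg (lt_irrefl _), if_pos rfl]
    have h3 : θ (x (2 * n + 3)) = ψ (x 1) := by
      rw [hθ, J12a_lift, if_neg (by omega), if_neg (by omega)]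
    rw [h1, h2, h3]

end E4.J
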