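import Pool.Agent.Lib.MP_8a95e3_al.J11c
import Pool.Agent.Lib.MP_8a95e3_al.J12a

/-!
# J12b : THEOREM B
-/

open scoped commutatorElement

namespace E4

open E4.J

/-- PROOF: `vcl_endo`; `w ^ 4 = φ (x 0 ^ 4)`. -/
theorem verb4_vcl {S : Set F} (h : x 0 ^ 4 ∈ vcl S) : Verb4 (vcl S) := by
  refine ⟨fun φ w hw => vcl_endo S φ hw, fun w => ?_⟩
  have h1 := vcl_endo S (FreeGroup.lift fun _ : ℕ => w) h
  have e : (FreeGroup.lift fun _ : ℕ => w) (x 0 ^ 4) = w ^ 4 := by
    rw [map_pow]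
    unfold x
    rw [FreeGroup.lift_apply_of]
  rw [e] at h1
  exact h1

/-- **Theorem B.**

PROOF. Suppose not. For every finite `T ⊆ V` we have `vcl T ≤ V` (`vcl_le`), `vcl T ≠ V`, so there is `w T ∈ V`, `w T ∉ vcl T`. Define `T_0 = {x 0 ^ 4, gw c}` (contained in `V` by `hV.four` and `gw_mem`) and `T_(n+1) = insert (w T_n) T_n` (recursion; carry along
`T_n ⊆ V`, e.g. recursion in the subtype `{T : Finset F // (T : Set F) ⊆ V}`). `U n := vcl T_n` is monotone (`vcl_mono`), `Verb4` (`verb4_vcl`), and contains `lcs (commutator F) c` (`lcs_le_vcl`, `vcl_mono`). By `verb_acc` `U (t+1) = U t` for some `t`, but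
`w T_t ∈ U (t+1)` (`subset_vcl`) and `w T_t ∉ U t`: contradiction. -/
theorem thmB (c : ℕ) (V : Subgroup F) (hV : Verb4 V) (hc : lcs (commutator F) c ≤ V) :
    ∃ T : Finset F, V = vcl (T : Set F) := by
  classical
  by_contra hne
  push Not at hne
  have key : ∀ T : {T : Finset F // (T : Set F) ⊆ V}, ∃ w ∈ V, w ∉ vcl (T.1 : Set F) := by
    intro T
    by_contra h
    push Not at h
    exact hne T.1 (le_antisymm h (vcl_le hV.endo fun s hs => T.2 hs))
  choose w hw1 hw2 using key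
  have h0 : ((({x 0 ^ 4, gw c} : Finset F)) : Set F) ⊆ V := by
    intro s hs
    rw [Finset.mem_coe, Finset.mem_insert, Finset.mem_singleton] at hs
    rcases hs with rfl | rfl
    · exact hV.four _
    · exact hc (gw_mem c)
  have hn : ∀ T : {T : Finset F // (T : Set F) ⊆ V}, ((insert (w T) T.1 : Finset F) : Set F) ⊆ V := by
    intro T s hs
    rw [Finset.mem_coe, Finset.mem_insert] at hs
    rcases hs with rfl | hs
    · exact hw1 T
    · exact T.2 hs
  obtain ⟨T, hT0, hTs⟩ : ∃ T : ℕ → {T : Finset F // (T : Set F) ⊆ V},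
      T 0 = ⟨{x 0 ^ 4, gw c}, h0⟩ ∧ ∀ n, T (n + 1) = ⟨insert (w (T n)) (T n).1, hn (T n)⟩ :=
    ⟨fun n => Nat.rec ⟨{x 0 ^ 4, gw c}, h0⟩ (fun _ S => ⟨insert (w S) S.1, hn S⟩) n, rfl, fun n => rfl⟩
  have hsub : ∀ n, (T n).1 ⊆ (T (n + 1)).1 := by
    intro n
    rw [hTs n]
    exact Finset.subset_insert _ _
  have hmono : Monotone fun n => vcl ((T n).1 : Set F) :=
    monotone_nat_of_le_succ fun n => vcl_mono (Finset.coe_subset.mpr (hsub n))
  have hz : ∀ n, (T 0).1 ⊆ (T n).1 := by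
    intro n
    induction n with
    | zero => exact Finset.Subset.refl _
    | succ n ih => exact ih.trans (hsub n)
  have m1 : ∀ n, x 0 ^ 4 ∈ (T n).1 := by
    intro n
    refine hz n ?_
    rw [hT0]
    exact Finset.mem_insert_self _ _
  have m2 : ∀ n, gw c ∈ (T n).1 := by
    intro n
    refine hz n ?_
    rw [hT0]
    exact Finset.mem_insert_of_mem (Finset.mem_singleton_self _)
  obtain ⟨t, ht⟩ := verb_acc c (fun n => vcl ((T n).1 : Set F)) hmono
    (fun n => verb4_vcl (subset_vcl (Finset.mem_coe.mpr (m1 n))))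
    (fun n => (lcs_le_vcl c).trans (vcl_mono (Set.singleton_subset_iff.mpr (Finset.mem_coe.mpr (m2 n)))))
  have h1 := ht (t + 1) (Nat.le_succ t)
  have h2 : w (T t) ∈ vcl ((T (t + 1)).1 : Set F) := by
    refine subset_vcl ?_
    rw [hTs t]
    exact Finset.mem_coe.mpr (Finset.mem_insert_self _ _)
  have h3 : vcl ((T (t + 1)).1 : Set F) = vcl ((T t).1 : Set F) := h1
  rw [h3] at h2
  exact hw2 (T t) h2

end E4
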