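import Pool.Agent.Lib.MP_8a95e3_al.San

/-!
# Nil : nilpotency of the augmentation of a finitely generated cubic representation
-/

namespace E4

open scoped commutatorElement

private theorem nil_finite_ring {P A : Type*} [Group P] [Finite P] (hP : IsPGroup 2 P) [Ring A] [Finite A]
    (h2 : (2 : A) = 0) (ρ : P →* A) :
    ∃ n : ℕ, ∀ l : List P, n ≤ l.length → (l.map (X ρ)).prod = 0 := by
  have hadd : ∀ a : A, a + a = 0 := fun a => by
    rw [← two_mul, h2, zero_mul]
  let φ : P →* MulAut (Multiplicative A) :=
    { toFun := fun p =>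
        { toFun := fun a => Multiplicative.ofAdd (ρ p * Multiplicative.toAdd a)
          invFun := fun a => Multiplicative.ofAdd (ρ p⁻¹ * Multiplicative.toAdd a)
          left_inv := fun a => by
            change Multiplicative.ofAdd (ρ p⁻¹ * (ρ p * Multiplicative.toAdd a)) = a
            rw [← mul_assoc, ← map_mul, inv_mul_cancel, map_one, one_mul]
            rfl
          right_inv := fun a => by
            change Multiplicative.ofAdd (ρ p * (ρ p⁻¹ * Multiplicative.toAdd a)) = a
            rw [← mul_assoc, ← map_mul, mul_inv_cancel, map_one, one_mul]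
            rfl
          map_mul' := fun a b => by
            change Multiplicative.ofAdd (ρ p * (Multiplicative.toAdd a + Multiplicative.toAdd b)) = _
            rw [mul_add]
            rfl }
      map_one' := by
        refine MulEquiv.ext fun a => ?_
        change Multiplicative.ofAdd (ρ 1 * Multiplicative.toAdd a) = a
        rw [map_one, one_mul]
        rfl
      map_mul' := fun p q => by
        refine MulEquiv.ext fun a => ?_
        change Multiplicative.ofAdd (ρ (p * q) * Multiplicative.toAdd a) =
          Multiplicative.ofAdd (ρ p * (ρ q * Multiplicative.toAdd a))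
        rw [map_mul ρ, mul_assoc] }
  have hφ : ∀ p (a : A), φ p (Multiplicative.ofAdd a) = Multiplicative.ofAdd (ρ p * a) := fun p a => rfl
  let S : Type _ := Multiplicative A ⋊[φ] P
  have hfin : Finite S := Finite.of_equiv (Multiplicative A × P) SemidirectProduct.equivProd.symm
  have hS : IsPGroup 2 S := by
    intro s
    obtain ⟨k, hk⟩ := hP s.right
    refine ⟨k + 1, ?_⟩
    have h1 : (s ^ 2 ^ k).right = 1 := by
      have h := map_pow (SemidirectProduct.rightHom (φ := φ)) s (2 ^ k)
      exact h.trans hk
    have h3 : s ^ 2 ^ k = SemidirectProduct.inl (s ^ 2 ^ k).left := by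
      refine SemidirectProduct.ext rfl ?_
      exact h1
    rw [pow_succ, pow_mul, h3, ← map_pow]
    have h4 : ((s ^ 2 ^ k).left) ^ 2 = 1 := by
      rw [pow_two]
      exact hadd (Multiplicative.toAdd (s ^ 2 ^ k).left)
    rw [h4, map_one]
  have hnil : Group.IsNilpotent S := IsPGroup.isNilpotent hS
  obtain ⟨n, hn⟩ := Subgroup.nilpotent_iff_lowerCentralSeries.1 hnil
  have key : ∀ l : List P, (SemidirectProduct.inl (Multiplicative.ofAdd (l.map (X ρ)).prod) : S) ∈
      (⊤ : Subgroup S).lowerCentralSeries l.length := by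
    intro l
    induction l with
    | nil => exact Subgroup.mem_top _
    | cons p l ih =>
      rw [List.length_cons, Subgroup.lowerCentralSeries_succ]
      have h1 := Subgroup.commutator_mem_commutator ih (Subgroup.mem_top (SemidirectProduct.inr p : S))
      have h2' : ⁅(SemidirectProduct.inl (Multiplicative.ofAdd (l.map (X ρ)).prod) : S), (SemidirectProduct.inr p : S)⁆ =
          SemidirectProduct.inl (Multiplicative.ofAdd ((p :: l).map (X ρ)).prod) := by
        rw [commutatorElement_def, ← map_inv (SemidirectProduct.inl : Multiplicative A →* S), mul_assoc, mul_assoc,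
          ← mul_assoc (SemidirectProduct.inr p : S), ← map_inv (SemidirectProduct.inr : P →* S),
          ← SemidirectProduct.inl_aut, ← map_mul]
        refine congrArg _ ?_
        rw [← ofAdd_neg, hφ, ← ofAdd_add]
        refine congrArg _ ?_
        rw [List.map_cons, List.prod_cons, X, add_mul, one_mul, mul_neg, add_comm,
          neg_eq_of_add_eq_zero_left (hadd _)]
      rw [← h2']
      exact h1
  refine ⟨n, fun l hl => ?_⟩
  have h1 := (⊤ : Subgroup S).lowerCentralSeries_antitone hl (key l)
  rw [hn, Subgroup.mem_bot] at h1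
  have h3 : Multiplicative.ofAdd (l.map (X ρ)).prod = 1 := by
    apply SemidirectProduct.inl_injective (φ := φ)
    rw [map_one]
    exact h1
  exact h3

/-- For a finite 2-group `P` and a homomorphism into a ring with `2 = 0`, long products of elements `ρ p + 1` vanish.

PROOF (one possibility).  It is enough to do it in the group algebra `A = MonoidAlgebra (ZMod 2) P` with
`ρ₀ = MonoidAlgebra.of`, because `R` is a `ZMod 2`-algebra (`CharP R 2` or `R` trivial; or use the ring hom
`MonoidAlgebra ℤ P → R` and reduce, or `ZMod.castHom`; an alternative that avoids this is to let `P` act on the finite abelian group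
below).  Let `M` be the additive group of `A` (finite, order a power of 2), and let `P` act on `M` by left
multiplication.  The semidirect product `S = Multiplicative M ⋊ P` is a finite 2-group, hence nilpotent
(`IsPGroup.isNilpotent`).  For `p ∈ P`, `m ∈ M` the commutator `⁅(0,p), (m,1)⁆` is `(p m - m, 1) = ((p+1) m, 1)`.  So the element
`((p_1 + 1)(p_2 + 1)⋯(p_n + 1)·1, 1)` is an `n`-fold commutator with `(1_A, 1)`, and is trivial as soon as `n ≥` nilpotency class.
Hence `(p_1 + 1)⋯(p_n + 1) = 0` in `A`.  (Longer products contain a product of `n` factors.)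

ANOTHER POSSIBILITY: strong induction on `|P|`: if `P` is trivial then `X ρ p = 1 + 1 = 0`, `n = 1`.  Otherwise take a central
element `z` of order 2 (`IsPGroup.center_nontrivial`).  In `A = MonoidAlgebra (ZMod 2) P`, the kernel of `A → MonoidAlgebra (ZMod 2) (P/⟨z⟩)`
is `(z + 1) A`, and `(z+1)` is central with square `z^2 + 1 = 0`. By induction products of `n` factors lie in
`(z+1)A`, so products of `2n` factors vanish. -/
theorem nil_two_group {P R : Type*} [Group P] [Finite P] (hP : IsPGroup 2 P) [Ring R]
    (h2 : (2 : R) = 0) (ρ : P →* R) :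
    ∃ n : ℕ, ∀ l : List P, n ≤ l.length → (l.map (X ρ)).prod = 0 := by
  rcases subsingleton_or_nontrivial R with hR | hR
  · exact ⟨0, fun l _ => Subsingleton.elim _ _⟩
  have hchar : CharP R 2 := CharTwo.of_one_ne_zero_of_two_eq_zero one_ne_zero h2
  let _ : Algebra (ZMod 2) R := ZMod.algebra R 2
  have hfin0 : Finite (P →₀ ZMod 2) :=
    Finite.of_injective (fun a : P →₀ ZMod 2 => (a : P → ZMod 2)) DFunLike.coe_injective
  have hfin : Finite (MonoidAlgebra (ZMod 2) P) := Finite.of_equiv _ MonoidAlgebra.coeffEquiv.symm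
  have h2' : (2 : MonoidAlgebra (ZMod 2) P) = 0 := by
    have h := map_ofNat (algebraMap (ZMod 2) (MonoidAlgebra (ZMod 2) P)) 2
    rw [← h]
    have h' : (OfNat.ofNat 2 : ZMod 2) = 0 := by decide
    rw [h', map_zero]
  obtain ⟨n, hn⟩ := nil_finite_ring hP h2' (MonoidAlgebra.of (ZMod 2) P)
  refine ⟨n, fun l hl => ?_⟩
  have h3 := congrArg (MonoidAlgebra.lift (ZMod 2) R P ρ) (hn l hl)
  rw [map_zero, map_list_prod, List.map_map] at h3
  have h4 : (MonoidAlgebra.lift (ZMod 2) R P ρ) ∘ X (MonoidAlgebra.of (ZMod 2) P) = X ρ := by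
    funext p
    change MonoidAlgebra.lift (ZMod 2) R P ρ (MonoidAlgebra.of (ZMod 2) P p + 1) = ρ p + 1
    rw [map_add, map_one, MonoidAlgebra.lift_of]
  rw [h4] at h3
  exact h3

/-- in a cubic representation `ρ h ^ 4 = 1`.  PROOF: `(y+1)^4 = y^4 + 1` if `2 = 0`, and `(y+1)^4 = (y+1)^3 (y+1) = 0`. -/
theorem cub_pow_four {H R : Type*} [Group H] [Ring R] {ρ : H →* R} (hc : Cub ρ) (h : H) :
    ρ h ^ 4 = 1 := by
  have h1 : (ρ h + 1) ^ 3 = 0 := hc.cube h
  have h2 : (ρ h + 1) ^ 4 = 0 := by
    rw [pow_succ, h1, zero_mul]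
  have h3 : ∀ y : R, (y + 1) ^ 4 = y ^ 4 - 1 + 2 * (2 * y ^ 3 + 3 * y ^ 2 + 2 * y + 1) := fun y => by
    noncomm_ring
  rw [h3, hc.two, zero_mul, add_zero, sub_eq_zero] at h2
  exact h2

/-- PROOF.  Let `u : H →* Rˣ` be `MonoidHom.toHomUnits ρ` and `P = u.range`. By `cub_pow_four` the group `P` has exponent 4 (`Exp4 P`);
it is generated by the image of `s`, so `P` is finite by `sanov` (`Subgroup.closure` of the image of `s` in `P` is everything, or apply
`sanov` to the group `P`), and it is a 2-group (`IsPGroup 2 P`: `g^(2^2) = 1`).  Apply `nil_two_group` to `P` and the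
homomorphism `P →* R` (units inclusion `Units.coeHom R` composed with `P.subtype`), and use `X ρ h = X ρ' (u h)`. -/
theorem nil_fg {H R : Type*} [Group H] [Ring R] {ρ : H →* R} (hc : Cub ρ) (s : Finset H)
    (hs : Subgroup.closure (s : Set H) = ⊤) :
    ∃ n : ℕ, ∀ l : List H, n ≤ l.length → (l.map (X ρ)).prod = 0 := by
  classical
  have hval : ∀ h : H, ((MonoidHom.toHomUnits ρ h : Rˣ) : R) = ρ h := fun h => rfl
  have hE : Exp4 (MonoidHom.toHomUnits ρ).range := by
    rintro ⟨g, h, rfl⟩
    refine Subtype.ext ?_
    refine Units.ext ?_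
    change ((MonoidHom.toHomUnits ρ h : Rˣ) : R) ^ 4 = 1
    rw [hval]
    exact cub_pow_four hc h
  have hcl : Subgroup.closure ((s.image (MonoidHom.toHomUnits ρ).rangeRestrict :
      Finset (MonoidHom.toHomUnits ρ).range) : Set (MonoidHom.toHomUnits ρ).range) = ⊤ := by
    rw [Finset.coe_image, ← MonoidHom.map_closure, hs]
    exact Subgroup.map_top_of_surjective _ (MonoidHom.rangeRestrict_surjective _)
  have hfin : Finite (MonoidHom.toHomUnits ρ).range := by
    have h1 := sanov hE (s.image (MonoidHom.toHomUnits ρ).rangeRestrict)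
    rw [hcl] at h1
    exact Finite.of_equiv _ Subgroup.topEquiv.toEquiv
  have hP : IsPGroup 2 (MonoidHom.toHomUnits ρ).range := fun g => ⟨2, hE g⟩
  obtain ⟨n, hn⟩ := nil_two_group hP hc.two
    ((Units.coeHom R).comp (MonoidHom.toHomUnits ρ).range.subtype)
  refine ⟨n, fun l hl => ?_⟩
  have h1 := hn (l.map (MonoidHom.toHomUnits ρ).rangeRestrict) (by rw [List.length_map]; exact hl)
  rw [List.map_map] at h1
  exact h1

end E4
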