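import Pool.Agent.Lib.MP_8a95e3_al.Defs

/-!
# Quo : quotient rings and the subring spanned by the group
-/

namespace E4

universe u v

/-- Replace `R` by the subring spanned by `ρ(H)`.

PROOF. `R₁ = Subring.closure (Set.range ρ)`, `ι` = inclusion, `ρ₁` = codRestrict.  The additive closure of
`Set.range ρ` is closed under multiplication (the product of two elements `ρ g`, `ρ g'` is `ρ (g g')`; `AddSubgroup.closure_induction` twice), contains `1 = ρ 1`, so it is the
carrier of the subring; pull back to `R₁`. -/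
theorem spn_red {H : Type v} {R : Type u} [Group H] [Ring R] (ρ : H →* R) :
    ∃ (R₁ : Type u) (_ : Ring R₁) (ι : R₁ →+* R) (ρ₁ : H →* R₁),
      Function.Injective ι ∧ (∀ h, ι (ρ₁ h) = ρ h) ∧ Spn ρ₁ := by
  obtain ⟨A, hA⟩ : ∃ A : AddSubgroup R, A = AddSubgroup.closure (Set.range ρ) := ⟨_, rfl⟩
  have hρ : ∀ h, ρ h ∈ A := fun h => by
    rw [hA]
    exact AddSubgroup.subset_closure ⟨h, rfl⟩
  have hone : (1 : R) ∈ A := by
    rw [← ρ.map_one]
    exact hρ 1
  have hmul1 : ∀ (h : H) (b : R), b ∈ A → ρ h * b ∈ A := by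
    intro h b hb
    rw [hA] at hb
    induction hb using AddSubgroup.closure_induction with
    | mem x hx =>
      obtain ⟨g, rfl⟩ := hx
      rw [← ρ.map_mul]
      exact hρ _
    | zero =>
      rw [mul_zero]
      exact A.zero_mem
    | add x y _ _ hx hy =>
      rw [mul_add]
      exact A.add_mem hx hy
    | neg x _ hx =>
      rw [mul_neg]
      exact A.neg_mem hx
  have hmul : ∀ a b : R, a ∈ A → b ∈ A → a * b ∈ A := by
    intro a b ha hb
    rw [hA] at ha
    induction ha using AddSubgroup.closure_induction with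
    | mem x hx =>
      obtain ⟨g, rfl⟩ := hx
      exact hmul1 g b hb
    | zero =>
      rw [zero_mul]
      exact A.zero_mem
    | add x y _ _ hx hy =>
      rw [add_mul]
      exact A.add_mem hx hy
    | neg x _ hx =>
      rw [neg_mul]
      exact A.neg_mem hx
  let S : Subring R :=
    { carrier := A
      mul_mem' := fun {a b} ha hb => hmul a b ha hb
      one_mem' := hone
      add_mem' := fun {a b} ha hb => A.add_mem ha hb
      zero_mem' := A.zero_mem
      neg_mem' := fun {a} ha => A.neg_mem ha }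
  let ρ₁ : H →* S :=
    { toFun := fun h => ⟨ρ h, hρ h⟩
      map_one' := Subtype.ext ρ.map_one
      map_mul' := fun a b => Subtype.ext (ρ.map_mul a b) }
  refine ⟨S, inferInstance, S.subtype, ρ₁, Subtype.val_injective, fun h => rfl, ?_⟩
  unfold Spn
  rw [eq_top_iff]
  intro x _
  have h1 : (AddSubgroup.closure (Set.range ρ₁)).map (S.subtype : S →+* R).toAddMonoidHom = A := by
    rw [AddMonoidHom.map_closure, hA]
    congr 1
    ext y
    constructor
    · rintro ⟨_, ⟨h, rfl⟩, rfl⟩
      exact ⟨h, rfl⟩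
    · rintro ⟨h, rfl⟩
      exact ⟨ρ₁ h, ⟨h, rfl⟩, rfl⟩
  have h2 : x.1 ∈ (AddSubgroup.closure (Set.range ρ₁)).map (S.subtype : S →+* R).toAddMonoidHom := by
    rw [h1]
    exact x.2
  obtain ⟨y, hy, hyx⟩ := h2
  have h3 : y = x := Subtype.ext hyx
  rw [← h3]
  exact hy

/-- Quotient by a two-sided ideal given as an additive subgroup.

PROOF.  Use `TwoSidedIdeal` / `RingCon` with relation `a - b ∈ P`. -/
theorem quo_ideal {R : Type u} [Ring R] (P : AddSubgroup R)
    (hl : ∀ a : R, ∀ p ∈ P, a * p ∈ P) (hr : ∀ a : R, ∀ p ∈ P, p * a ∈ P) :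
    ∃ (R₁ : Type u) (_ : Ring R₁) (π : R →+* R₁),
      Function.Surjective π ∧ ∀ r, π r = 0 ↔ r ∈ P := by
  let I : Ideal R :=
    { carrier := P
      add_mem' := fun {a b} ha hb => P.add_mem ha hb
      zero_mem' := P.zero_mem
      smul_mem' := fun a p hp => hl a p hp }
  have hI : I.IsTwoSided := ⟨fun {a} b ha => hr b a ha⟩
  exact ⟨R ⧸ I, inferInstance, Ideal.Quotient.mk I, Ideal.Quotient.mk_surjective,
    fun r => Ideal.Quotient.eq_zero_iff_mem⟩

/-- Quotient of a spanned ring by the two-sided ideal generated by a set.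

PROOF.  Let `P` be the additive closure of `{ρ g * s * ρ g' | g, g' ∈ H, s ∈ S}`.  Because `R` is additively spanned by `ρ(H)`, `P` is a
two-sided ideal (closure induction in both variables).  Apply `quo_ideal`.  `S ⊆ P` (`g = g' = 1`).
`Spn (π ∘ ρ)`: the additive closure of the range of `π ∘ ρ` is the image of the additive closure of the range of `ρ`, which is everything as `π` is surjective. -/
theorem quo_spn {H : Type v} {R : Type u} [Group H] [Ring R] {ρ : H →* R} (hs : Spn ρ)
    (S : Set R) :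
    ∃ (R₁ : Type u) (_ : Ring R₁) (π : R →+* R₁),
      Function.Surjective π ∧ (∀ s ∈ S, π s = 0) ∧
      (∀ r, π r = 0 → r ∈ AddSubgroup.closure {y | ∃ g g' : H, ∃ s ∈ S, y = ρ g * s * ρ g'}) ∧
      Spn ((π : R →* R₁).comp ρ) := by
  obtain ⟨P, hP⟩ : ∃ P : AddSubgroup R,
    P = AddSubgroup.closure {y | ∃ g g' : H, ∃ s ∈ S, y = ρ g * s * ρ g'} := ⟨_, rfl⟩
  have hl1 : ∀ (h : H) (b : R), b ∈ P → ρ h * b ∈ P := by
    intro h b hb
    rw [hP] at hb
    induction hb using AddSubgroup.closure_induction with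
    | mem x hx =>
      obtain ⟨g, g', s, hs, rfl⟩ := hx
      rw [hP]
      refine AddSubgroup.subset_closure ⟨h * g, g', s, hs, ?_⟩
      rw [ρ.map_mul, mul_assoc, mul_assoc, mul_assoc]
    | zero =>
      rw [mul_zero]
      exact P.zero_mem
    | add x y _ _ hx hy =>
      rw [mul_add]
      exact P.add_mem hx hy
    | neg x _ hx =>
      rw [mul_neg]
      exact P.neg_mem hx
  have hr1 : ∀ (h : H) (b : R), b ∈ P → b * ρ h ∈ P := by
    intro h b hb
    rw [hP] at hb
    induction hb using AddSubgroup.closure_induction with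
    | mem x hx =>
      obtain ⟨g, g', s, hs, rfl⟩ := hx
      rw [hP]
      refine AddSubgroup.subset_closure ⟨g, g' * h, s, hs, ?_⟩
      rw [ρ.map_mul, ← mul_assoc]
    | zero =>
      rw [zero_mul]
      exact P.zero_mem
    | add x y _ _ hx hy =>
      rw [add_mul]
      exact P.add_mem hx hy
    | neg x _ hx =>
      rw [neg_mul]
      exact P.neg_mem hx
  have hl : ∀ a : R, ∀ p ∈ P, a * p ∈ P := by
    intro a p hp
    have ha : a ∈ AddSubgroup.closure (Set.range ρ) := by
      rw [show AddSubgroup.closure (Set.range ρ) = ⊤ from hs]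
      exact AddSubgroup.mem_top a
    induction ha using AddSubgroup.closure_induction with
    | mem x hx =>
      obtain ⟨g, rfl⟩ := hx
      exact hl1 g p hp
    | zero =>
      rw [zero_mul]
      exact P.zero_mem
    | add x y _ _ hx hy =>
      rw [add_mul]
      exact P.add_mem hx hy
    | neg x _ hx =>
      rw [neg_mul]
      exact P.neg_mem hx
  have hr : ∀ a : R, ∀ p ∈ P, p * a ∈ P := by
    intro a p hp
    have ha : a ∈ AddSubgroup.closure (Set.range ρ) := by
      rw [show AddSubgroup.closure (Set.range ρ) = ⊤ from hs]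
      exact AddSubgroup.mem_top a
    induction ha using AddSubgroup.closure_induction with
    | mem x hx =>
      obtain ⟨g, rfl⟩ := hx
      exact hr1 g p hp
    | zero =>
      rw [mul_zero]
      exact P.zero_mem
    | add x y _ _ hx hy =>
      rw [mul_add]
      exact P.add_mem hx hy
    | neg x _ hx =>
      rw [mul_neg]
      exact P.neg_mem hx
  obtain ⟨R₁, inst, π, hπ, hker⟩ := quo_ideal P hl hr
  refine ⟨R₁, inst, π, hπ, fun s hsS => ?_, fun r hr0 => ?_, ?_⟩
  · rw [hker, hP]
    refine AddSubgroup.subset_closure ⟨1, 1, s, hsS, ?_⟩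
    rw [ρ.map_one, one_mul, mul_one]
  · rw [← hP]
    exact (hker r).1 hr0
  · unfold Spn
    have h1 : Set.range ((π : R →* R₁).comp ρ) = π.toAddMonoidHom '' Set.range ρ := by
      ext y
      constructor
      · rintro ⟨h, rfl⟩
        exact ⟨ρ h, ⟨h, rfl⟩, rfl⟩
      · rintro ⟨_, ⟨h, rfl⟩, rfl⟩
        exact ⟨h, rfl⟩
    rw [h1, ← AddMonoidHom.map_closure, show AddSubgroup.closure (Set.range ρ) = ⊤ from hs,
      ← AddMonoidHom.range_eq_map, AddMonoidHom.range_eq_top]
    exact hπ

/-- `X` commutes with ring homomorphisms, and cubicity passes to images.  PROOF: immediate. -/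
theorem X_comp {H R R₁ : Type*} [Group H] [Ring R] [Ring R₁] (ρ : H →* R) (π : R →+* R₁)
    (h : H) : X ((π : R →* R₁).comp ρ) h = π (X ρ h) := by
  unfold X
  rw [map_add, map_one]
  rfl

theorem cub_comp {H R R₁ : Type*} [Group H] [Ring R] [Ring R₁] {ρ : H →* R} (hc : Cub ρ)
    (π : R →+* R₁) : Cub ((π : R →* R₁).comp ρ) := by
  refine ⟨?_, fun h => ?_⟩
  · have h1 : π (2 : R) = 2 := map_ofNat π 2
    rw [← h1, hc.two, map_zero]
  · rw [X_comp, ← map_pow, hc.cube, map_zero]

/-- cubicity passes to compositions with group homomorphisms.  PROOF: immediate. -/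
theorem cub_precomp {H H' R : Type*} [Group H] [Group H'] [Ring R] {ρ : H →* R} (hc : Cub ρ)
    (φ : H' →* H) : Cub (ρ.comp φ) := by
  exact ⟨hc.two, fun h => hc.cube (φ h)⟩

/-- cubicity can be tested after an injective ring homomorphism.  PROOF: immediate. -/
theorem cub_of_inj {H R R₁ : Type*} [Group H] [Ring R] [Ring R₁] {ρ : H →* R} {ρ₁ : H →* R₁}
    (ι : R₁ →+* R) (hi : Function.Injective ι) (hρ : ∀ h, ι (ρ₁ h) = ρ h) (hc : Cub ρ) :
    Cub ρ₁ := by
  refine ⟨hi ?_, fun h => hi ?_⟩
  · rw [map_ofNat, map_zero]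
    exact hc.two
  · have h1 : ι (X ρ₁ h) = X ρ h := by
      unfold X
      rw [map_add, map_one, hρ]
    rw [map_pow, map_zero, h1]
    exact hc.cube h

end E4
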