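import Pool.Agent.Lib.MP_8a95e3_al.CoreF
import Pool.Agent.Lib.MP_8a95e3_al.Nil
import Pool.Agent.Lib.MP_8a95e3_al.Quo

/-!
# JCube : `H'` elementary abelian implies `J^3 = 0`
-/

namespace E4

private theorem jc_move_list {H R : Type*} [Group H] [Ring R] (ρ : H →* R) (g : H) (l : List H) :
    ρ g * (l.map (X ρ)).prod = ((l.map (fun h => g * h * g⁻¹)).map (X ρ)).prod * ρ g := by
  induction l with
  | nil => simp
  | cons a l ih =>
    simp only [List.map_cons, List.prod_cons]
    rw [← mul_assoc, ← X_conj' (ρ := ρ) a g, mul_assoc (X ρ (g * a * g⁻¹)) (ρ g), ih,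
      mul_assoc (X ρ (g * a * g⁻¹)) _ (ρ g)]

private theorem jc_move3 {H R : Type*} [Group H] [Ring R] (ρ : H →* R) (g c d e : H) :
    ρ g * (X ρ c * X ρ d * X ρ e)
      = X ρ (g * c * g⁻¹) * X ρ (g * d * g⁻¹) * X ρ (g * e * g⁻¹) * ρ g := by
  calc ρ g * (X ρ c * X ρ d * X ρ e) = ρ g * X ρ c * X ρ d * X ρ e := by simp only [mul_assoc]
    _ = X ρ (g * c * g⁻¹) * (ρ g * X ρ d) * X ρ e := by rw [← X_conj' c g]; simp only [mul_assoc]
    _ = X ρ (g * c * g⁻¹) * X ρ (g * d * g⁻¹) * (ρ g * X ρ e) := by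
        rw [← X_conj' d g]; simp only [mul_assoc]
    _ = X ρ (g * c * g⁻¹) * X ρ (g * d * g⁻¹) * X ρ (g * e * g⁻¹) * ρ g := by
        rw [← X_conj' e g]; simp only [mul_assoc]

private theorem jc_step {H R : Type*} [Group H] [Ring R] {ρ : H →* R} (hc : Cub ρ) (hs : Spn ρ)
    (comm : ∀ c ∈ commutator H, ∀ d ∈ commutator H, ρ c * ρ d = ρ d * ρ c)
    (sq : ∀ c ∈ commutator H, ρ c * ρ c = 1) (n : ℕ)
    (ih : ∀ l l' : List H, l.length + l'.length = n + 1 → ∀ c ∈ commutator H,
      ∀ d ∈ commutator H, ∀ e ∈ commutator H,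
      (l.map (X ρ)).prod * (X ρ c * X ρ d * X ρ e) * (l'.map (X ρ)).prod = 0) :
    ∀ l l' : List H, l.length + l'.length = n → ∀ c ∈ commutator H,
      ∀ d ∈ commutator H, ∀ e ∈ commutator H,
      (l.map (X ρ)).prod * (X ρ c * X ρ d * X ρ e) * (l'.map (X ρ)).prod = 0 := by
  intro l l' hl c hcK d hdK e heK
  obtain ⟨R₁, hR₁, π, -, hS, hker, -⟩ := quo_spn hs
    {s : R | ∃ h : H, ∃ c ∈ commutator H, ∃ d ∈ commutator H, ∃ e ∈ commutator H,
      s = X ρ h * (X ρ c * X ρ d * X ρ e) ∨ s = X ρ c * X ρ d * X ρ e * X ρ h}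
  have hcore : Core ((π : R →* R₁).comp ρ) := by
    refine ⟨cub_comp hc π, ?_, ?_, ?_, ?_⟩
    · intro c hc d hd
      have h1 := congrArg π (comm c hc d hd)
      rw [map_mul, map_mul] at h1
      exact h1
    · intro c hc
      have h1 := congrArg π (sq c hc)
      rw [map_mul, map_one] at h1
      exact h1
    · intro h c hc d hd e he
      rw [X_comp, X_comp, X_comp, X_comp, ← map_mul, ← map_mul, ← map_mul]
      exact hS _ ⟨h, c, hc, d, hd, e, he, Or.inl rfl⟩
    · intro h c hc d hd e he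
      rw [X_comp, X_comp, X_comp, X_comp, ← map_mul, ← map_mul, ← map_mul]
      exact hS _ ⟨h, c, hc, d, hd, e, he, Or.inr rfl⟩
  have h0 := hcore.final hcK hdK heK
  rw [X_comp, X_comp, X_comp, ← map_mul, ← map_mul] at h0
  have h1 := hker _ h0
  refine AddSubgroup.closure_induction
    (p := fun z _ => (l.map (X ρ)).prod * z * (l'.map (X ρ)).prod = 0) ?_ ?_ ?_ ?_ h1
  · rintro y ⟨g, g', s, ⟨h, c, hc, d, hd, e, he, hsq⟩, rfl⟩
    have hc' : g * c * g⁻¹ ∈ commutator H := conj_mem' hc g
    have hd' : g * d * g⁻¹ ∈ commutator H := conj_mem' hd g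
    have he' : g * e * g⁻¹ ∈ commutator H := conj_mem' he g
    rcases hsq with rfl | rfl
    · have h2 := ih (l ++ [g * h * g⁻¹]) (l'.map (fun h => (g * g') * h * (g * g')⁻¹))
        (by simp only [List.length_append, List.length_map, List.length_cons, List.length_nil]; omega)
        _ hc' _ hd' _ he'
      have h3 : (l.map (X ρ)).prod * (ρ g * (X ρ h * (X ρ c * X ρ d * X ρ e)) * ρ g')
            * (l'.map (X ρ)).prod
          = ((l ++ [g * h * g⁻¹]).map (X ρ)).prod
            * (X ρ (g * c * g⁻¹) * X ρ (g * d * g⁻¹) * X ρ (g * e * g⁻¹))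
            * ((l'.map (fun h => (g * g') * h * (g * g')⁻¹)).map (X ρ)).prod * ρ (g * g') := by
        rw [List.map_append, List.prod_append, List.map_singleton, List.prod_singleton]
        calc (l.map (X ρ)).prod * (ρ g * (X ρ h * (X ρ c * X ρ d * X ρ e)) * ρ g')
            * (l'.map (X ρ)).prod
            = (l.map (X ρ)).prod * (ρ g * X ρ h) * (X ρ c * X ρ d * X ρ e)
              * (ρ g' * (l'.map (X ρ)).prod) := by simp only [mul_assoc]
          _ = (l.map (X ρ)).prod * X ρ (g * h * g⁻¹) * (ρ g * (X ρ c * X ρ d * X ρ e))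
              * (ρ g' * (l'.map (X ρ)).prod) := by rw [← X_conj' h g]; simp only [mul_assoc]
          _ = (l.map (X ρ)).prod * X ρ (g * h * g⁻¹)
              * (X ρ (g * c * g⁻¹) * X ρ (g * d * g⁻¹) * X ρ (g * e * g⁻¹))
              * (ρ (g * g') * (l'.map (X ρ)).prod) := by
                rw [jc_move3, map_mul]; simp only [mul_assoc]
          _ = _ := by rw [jc_move_list]; simp only [mul_assoc]
      rw [h3, h2, zero_mul]
    · have h2 := ih l (g * h * g⁻¹ :: l'.map (fun h => (g * g') * h * (g * g')⁻¹))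
        (by simp only [List.length_map, List.length_cons]; omega)
        _ hc' _ hd' _ he'
      have h3 : (l.map (X ρ)).prod * (ρ g * (X ρ c * X ρ d * X ρ e * X ρ h) * ρ g')
            * (l'.map (X ρ)).prod
          = (l.map (X ρ)).prod
            * (X ρ (g * c * g⁻¹) * X ρ (g * d * g⁻¹) * X ρ (g * e * g⁻¹))
            * ((g * h * g⁻¹ :: l'.map (fun h => (g * g') * h * (g * g')⁻¹)).map (X ρ)).prod
            * ρ (g * g') := by
        rw [List.map_cons, List.prod_cons]
        calc (l.map (X ρ)).prod * (ρ g * (X ρ c * X ρ d * X ρ e * X ρ h) * ρ g')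
            * (l'.map (X ρ)).prod
            = (l.map (X ρ)).prod * (ρ g * (X ρ c * X ρ d * X ρ e)) * X ρ h
              * (ρ g' * (l'.map (X ρ)).prod) := by simp only [mul_assoc]
          _ = (l.map (X ρ)).prod * (X ρ (g * c * g⁻¹) * X ρ (g * d * g⁻¹) * X ρ (g * e * g⁻¹))
              * (ρ g * X ρ h) * (ρ g' * (l'.map (X ρ)).prod) := by
                rw [jc_move3]; simp only [mul_assoc]
          _ = (l.map (X ρ)).prod * (X ρ (g * c * g⁻¹) * X ρ (g * d * g⁻¹) * X ρ (g * e * g⁻¹))
              * X ρ (g * h * g⁻¹) * (ρ (g * g') * (l'.map (X ρ)).prod) := by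
                rw [← X_conj' h g, map_mul]; simp only [mul_assoc]
          _ = _ := by rw [jc_move_list]; simp only [mul_assoc]
      rw [h3, h2, zero_mul]
  · simp
  · intro a b _ _ ha hb
    rw [mul_add, add_mul, ha, hb, add_zero]
  · intro a _ ha
    rw [mul_neg, neg_mul, ha, neg_zero]

/-- Finitely generated, spanned case.

PROOF.  Write `C = X ρ c` etc., `c,d,e ∈ K = commutator H`.  For `n : ℕ` let `P(n)` be the statement: for all lists `l, l'` of elements of `H` with
`l.length + l'.length = n` and all `c,d,e ∈ K`: `(l.map (X ρ)).prod * (C * D * E) * (l'.map (X ρ)).prod = 0`.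
`P(N)` holds for `N = 2n₀`, with `n₀` from `nil_fg` (one of the lists has length `≥ n₀`).  Claim `P(n+1) → P(n)`; then `P(0)` is the theorem.
Let `q` be given by `quo_spn` for `S = {X ρ h * (C*D*E)} ∪ {C*D*E * X ρ h}` (`h ∈ H`, `c,d,e ∈ K`); `π : R → R₁`, `ρ₁ = π ∘ ρ`.  Then `Core ρ₁`
(`cub_comp`; `comm`, `sq` are inherited; `left`, `right` because `S ↦ 0`, `X_comp`).  `Core.final` gives `π(CDE) = 0`, so `CDE` is in the additive closure of the elements `ρ g * s * ρ g'`, `s ∈ S`.
So it is enough that for lists `l, l'` of total length `n`, `U = (l.map (X ρ)).prod`, `U' = (l'.map (X ρ)).prod`: `U * ρ g * s * ρ g' * U' = 0` for `s ∈ S`.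
Take `s = X ρ h * (C D E)` (the other case is symmetric).  Move `ρ g` to the right through all factors `X ρ h`, `C`, `D`, `E` (`ρ g * X ρ c = X ρ (g c g⁻¹) * ρ g`, `K` normal), and then `ρ (g g')` to the right through `U'`
(`ρ g * X ρ h = X ρ (g h g⁻¹) * ρ g`, again a product of the same number of `X`'s): the element becomes
`U * X ρ h₁ * (C₁ D₁ E₁) * U'₁ * ρ(g g')` and `U * X ρ h₁ = ((l ++ [h₁]).map (X ρ)).prod`; this vanishes by `P(n+1)`.
For `s = (C D E) X ρ h` in the same way one gets `U (C₁D₁E₁) (X ρ h₁) U'₁ ρ(g g')`. -/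
theorem jcube_fg {H R : Type*} [Group H] [Ring R] {ρ : H →* R} (hc : Cub ρ) (hs : Spn ρ)
    (s : Finset H) (hfg : Subgroup.closure (s : Set H) = ⊤)
    (comm : ∀ c ∈ commutator H, ∀ d ∈ commutator H, ρ c * ρ d = ρ d * ρ c)
    (sq : ∀ c ∈ commutator H, ρ c * ρ c = 1)
    {c d e : H} (hcK : c ∈ commutator H) (hdK : d ∈ commutator H) (heK : e ∈ commutator H) :
    X ρ c * X ρ d * X ρ e = 0 := by
  obtain ⟨n₀, hn₀⟩ := nil_fg hc s hfg
  have hbase : ∀ l l' : List H, l.length + l'.length = 2 * n₀ → ∀ c ∈ commutator H,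
      ∀ d ∈ commutator H, ∀ e ∈ commutator H,
      (l.map (X ρ)).prod * (X ρ c * X ρ d * X ρ e) * (l'.map (X ρ)).prod = 0 := by
    intro l l' hl c _ d _ e _
    rcases le_total n₀ l.length with h | h
    · rw [hn₀ l h, zero_mul, zero_mul]
    · rw [hn₀ l' (by omega), mul_zero]
  have hdown : ∀ k : ℕ, ∀ n : ℕ, n + k = 2 * n₀ → ∀ l l' : List H, l.length + l'.length = n →
      ∀ c ∈ commutator H, ∀ d ∈ commutator H, ∀ e ∈ commutator H,
      (l.map (X ρ)).prod * (X ρ c * X ρ d * X ρ e) * (l'.map (X ρ)).prod = 0 := by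
    intro k
    induction k with
    | zero => intro n hn; rw [add_zero] at hn; subst hn; exact hbase
    | succ k ih =>
      intro n hn
      exact jc_step hc hs comm sq n (ih (n + 1) (by omega))
  have h := hdown (2 * n₀) 0 (by omega) [] [] rfl c hcK d hdK e heK
  simpa using h

/-- every element of the commutator subgroup is in the commutator subgroup of a finitely generated subgroup.
PROOF: `Subgroup.closure_induction` on `commutator H = closure {⁅a,b⁆}`: `⁅a,b⁆` with `s = {a,b}`; products: union of the sets; inverses: same set; use `Subgroup.commutator_mono`. -/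
theorem fg_comm {H : Type*} [Group H] {c : H} (hc : c ∈ commutator H) :
    ∃ s : Finset H, c ∈ ⁅Subgroup.closure (s : Set H), Subgroup.closure (s : Set H)⁆ := by
  rw [commutator_def, Subgroup.commutator_def] at hc
  refine Subgroup.closure_induction
    (p := fun c _ => ∃ s : Finset H, c ∈ ⁅Subgroup.closure (s : Set H), Subgroup.closure (s : Set H)⁆)
    ?_ ?_ ?_ ?_ hc
  · rintro y ⟨a, -, b, -, rfl⟩
    classical
    refine ⟨{a, b}, Subgroup.commutator_mem_commutator (Subgroup.subset_closure ?_)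
      (Subgroup.subset_closure ?_)⟩ <;> simp
  · exact ⟨∅, Subgroup.one_mem _⟩
  · rintro a b _ _ ⟨s, hs⟩ ⟨t, ht⟩
    classical
    refine ⟨s ∪ t, Subgroup.mul_mem _ ?_ ?_⟩
    · have h1 : Subgroup.closure (s : Set H) ≤ Subgroup.closure ((s ∪ t : Finset H) : Set H) :=
        Subgroup.closure_mono (by simp)
      exact Subgroup.commutator_mono h1 h1 hs
    · have h1 : Subgroup.closure (t : Set H) ≤ Subgroup.closure ((s ∪ t : Finset H) : Set H) :=
        Subgroup.closure_mono (by simp)
      exact Subgroup.commutator_mono h1 h1 ht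
  · rintro a _ ⟨s, hs⟩
    exact ⟨s, Subgroup.inv_mem _ hs⟩

/-- **General case**, without finiteness and spanning.

PROOF.  Take finite sets for `c, d, e` by `fg_comm`, let `s` be the union and `H₁ = closure s`; `c,d,e ∈ ⁅H₁,H₁⁆`, i.e. they are images of elements of `commutator H₁` (the
image of `commutator ↥H₁` under `H₁.subtype` is `⁅H₁,H₁⁆`: `Subgroup.map_subtype_commutator` or `Subgroup.map_commutator` with `⊤`).  Let `ρ' = ρ ∘ H₁.subtype` (`cub_precomp`), and replace `R` by the ring spanned by `ρ'`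
(`spn_red`, `cub_of_inj`); the hypotheses `comm`, `sq` are inherited because `commutator H₁` maps into `commutator H`, and `ι` is injective.  `H₁` is generated by a finite set (the preimage of `s` in `↥H₁`;
`Subgroup.closure_closure_coe_preimage`).  Apply `jcube_fg`, and map with `ι`. -/
theorem jcube {H R : Type*} [Group H] [Ring R] {ρ : H →* R} (hc : Cub ρ)
    (comm : ∀ c ∈ commutator H, ∀ d ∈ commutator H, ρ c * ρ d = ρ d * ρ c)
    (sq : ∀ c ∈ commutator H, ρ c * ρ c = 1)
    {c d e : H} (hcK : c ∈ commutator H) (hdK : d ∈ commutator H) (heK : e ∈ commutator H) :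
    X ρ c * X ρ d * X ρ e = 0 := by
  obtain ⟨s1, h1⟩ := fg_comm hcK
  obtain ⟨s2, h2⟩ := fg_comm hdK
  obtain ⟨s3, h3⟩ := fg_comm heK
  classical
  let s : Finset H := s1 ∪ s2 ∪ s3
  let H₁ : Subgroup H := Subgroup.closure (s : Set H)
  have e1 : Subgroup.closure (s1 : Set H) ≤ H₁ := Subgroup.closure_mono (by
    intro x hx; simp only [s, Finset.coe_union]; exact Or.inl (Or.inl hx))
  have e2 : Subgroup.closure (s2 : Set H) ≤ H₁ := Subgroup.closure_mono (by
    intro x hx; simp only [s, Finset.coe_union]; exact Or.inl (Or.inr hx))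
  have e3 : Subgroup.closure (s3 : Set H) ≤ H₁ := Subgroup.closure_mono (by
    intro x hx; simp only [s, Finset.coe_union]; exact Or.inr hx)
  have key : ∀ c ∈ ⁅H₁, H₁⁆, ∃ c' ∈ commutator H₁, (c' : H) = c := by
    intro c hc
    have h4 : (commutator H₁).map H₁.subtype = ⁅H₁, H₁⁆ := by
      rw [commutator_def, Subgroup.map_commutator]
      simp [← MonoidHom.range_eq_map]
    rw [← h4] at hc
    obtain ⟨c', hc', h5⟩ := hc
    exact ⟨c', hc', h5⟩
  obtain ⟨c', hc', rfl⟩ := key c (Subgroup.commutator_mono e1 e1 h1)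
  obtain ⟨d', hd', rfl⟩ := key d (Subgroup.commutator_mono e2 e2 h2)
  obtain ⟨e', he', rfl⟩ := key e (Subgroup.commutator_mono e3 e3 h3)
  have hmap : ∀ c' ∈ commutator H₁, (c' : H) ∈ commutator H := by
    intro c' hc'
    have h4 : (commutator H₁).map H₁.subtype ≤ commutator H := by
      rw [commutator_def, Subgroup.map_commutator, commutator_def]
      exact Subgroup.commutator_mono le_top le_top
    exact h4 ⟨c', hc', rfl⟩
  obtain ⟨R₁, hR₁, ι, ρ₁, hinj, hι, hsp⟩ := spn_red (ρ.comp H₁.subtype)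
  have hc₁ : Cub ρ₁ := cub_of_inj ι hinj hι (cub_precomp hc H₁.subtype)
  have hX : ∀ h : H₁, ι (X ρ₁ h) = X ρ (h : H) := by
    intro h
    unfold X
    rw [map_add, map_one, hι]
    rfl
  have hgen : Subgroup.closure (((s.preimage H₁.subtype (H₁.subtype_injective.injOn)) : Finset H₁) : Set H₁) = ⊤ := by
    rw [Finset.coe_preimage]
    exact Subgroup.closure_closure_coe_preimage
  have hfin := jcube_fg hc₁ hsp (s.preimage H₁.subtype (H₁.subtype_injective.injOn)) hgen
    (fun c hc d hd => hinj (by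
      rw [map_mul, map_mul, hι, hι]
      exact comm _ (hmap c hc) _ (hmap d hd)))
    (fun c hc => hinj (by
      rw [map_mul, map_one, hι]
      exact sq _ (hmap c hc))) hc' hd' he'
  have h6 := congrArg ι hfin
  rw [map_mul, map_mul, map_zero, hX, hX, hX] at h6
  exact h6

end E4
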