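import Pool.Agent.Lib.MP_8a95e3_al.Defs

/-!
# JD : definitions for block J (Theorem B: finite basis in the soluble case)

Words and insertions; leading terms; the Magnus module `M4` of `F/RR = ⊕ ZMod 4`, the derivation `D`; tensors
`T4`; left normed commutators; levels, order and moves on the basis of the tensors.
-/

open scoped commutatorElement

namespace E4.J

/-! ### words -/

/-- One insertion of the unmarked letter `a`, whose column is in `X` or occurs before. -/
def Ins {L Γ : Type} (col : L → Γ) (unm : L → Prop) (X : Set Γ) (w w' : List L) : Prop :=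
  ∃ (u : List L) (a : L) (v : List L), w = u ++ v ∧ w' = u ++ a :: v ∧ unm a ∧
    (col a ∈ X ∨ ∃ b ∈ u, col b = col a)

open scoped Classical in
/-- The number of marked letters. -/
noncomputable def marks {L : Type} (unm : L → Prop) (w : List L) : ℕ :=
  w.countP fun a => decide (¬ unm a)

/-! ### leading terms -/

/-- One move. -/
def Step {𝔅 I : Type} (ok : I → ℕ → Prop) (st : I → 𝔅 → 𝔅) (s s' : ℕ × 𝔅) : Prop :=
  ∃ m, ok m s.1 ∧ s' = (s.1 + 1, st m s.2)

/-- `f` is supported in the level `n` and has the leading term `a`. -/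
structure Lead {𝔅 : Type} (lt : 𝔅 → 𝔅 → Prop) (lev : ℕ → Set 𝔅) (n : ℕ) (a : 𝔅)
    (f : 𝔅 →₀ ZMod 4) : Prop where
  sup : ∀ b ∈ f.support, b ∈ lev n
  mem : a ∈ f.support
  le : ∀ b ∈ f.support, b = a ∨ lt b a

/-! ### the Magnus module -/

/-- The free `ZMod 4`-module on the letters, the image of `F`. -/
abbrev A4 : Type := ℕ →₀ ZMod 4

/-- The basis of the Magnus module. -/
abbrev B4 : Type := A4 × ℕ

/-- The Magnus module. -/
abbrev M4 : Type := B4 →₀ ZMod 4

/-- The tensor algebra (of the module `M4` over `ZMod 4`). -/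
abbrev T4 : Type := List B4 →₀ ZMod 4

/-- The exponent sums modulo 4. -/
noncomputable def ab : F →* Multiplicative A4 :=
  FreeGroup.lift fun j => Multiplicative.ofAdd (Finsupp.single j 1)

/-- The exponent sums modulo 4, additive version. -/
noncomputable def abv (f : F) : A4 := Multiplicative.toAdd (ab f)

/-- The kernel of `ab`. -/
noncomputable def RR : Subgroup F := ab.ker

/-- The action of `A4` on the Magnus module. -/
noncomputable def act (a : A4) : M4 →ₗ[ZMod 4] M4 :=
  Finsupp.lmapDomain (ZMod 4) (ZMod 4) fun b : B4 => (a + b.1, b.2)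

theorem act_add (a a' : A4) (m : M4) : act (a + a') m = act a (act a' m) := by
  unfold act
  rw [Finsupp.lmapDomain_apply, Finsupp.lmapDomain_apply, Finsupp.lmapDomain_apply, ← Finsupp.mapDomain_comp]
  congr 1
  funext b
  simp only [Function.comp_apply, add_assoc]

theorem act_zero (m : M4) : act 0 m = m := by
  unfold act
  have h : (fun b : B4 => ((0 : A4) + b.1, b.2)) = id := by
    funext b
    simp only [zero_add, id]
  rw [h, Finsupp.lmapDomain_apply, Finsupp.mapDomain_id]

/-- The affine permutation which belongs to the letter `x j`. -/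
noncomputable def affP (j : ℕ) : Equiv.Perm (M4 × A4) where
  toFun p := (Finsupp.single (0, j) 1 + act (Finsupp.single j 1) p.1, Finsupp.single j 1 + p.2)
  invFun p := (act (-Finsupp.single j 1) (p.1 - Finsupp.single (0, j) 1), p.2 - Finsupp.single j 1)
  left_inv p := by
    refine Prod.ext ?_ ?_
    · simp only [add_sub_cancel_left]
      rw [← act_add, neg_add_cancel, act_zero]
    · simp only [add_sub_cancel_left]
  right_inv p := by
    refine Prod.ext ?_ ?_
    · simp only []
      rw [← act_add, add_neg_cancel, act_zero, add_sub_cancel]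
    · simp only [add_sub_cancel]

/-- The affine permutations. -/
noncomputable def Aff : F →* Equiv.Perm (M4 × A4) := FreeGroup.lift affP

/-- The Magnus derivation: `D (x j) = e_(0,j)`, `D (f g) = D f + ab f • D g` (see `D_mul`). -/
noncomputable def D (f : F) : M4 := (Aff f (0, 0)).1

/-- The map of `A4` induced by an endomorphism. -/
noncomputable def phiA (φ : F →* F) : A4 →ₗ[ZMod 4] A4 :=
  Finsupp.linearCombination (ZMod 4) fun j => abv (φ (x j))

/-- The map of `M4` induced by an endomorphism. -/
noncomputable def phiM (φ : F →* F) : M4 →ₗ[ZMod 4] M4 :=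
  Finsupp.linearCombination (ZMod 4) fun b : B4 => act (phiA φ b.1) (D (φ (x b.2)))

/-! ### tensors -/

/-- Tensor product with an element of `M4` on the left. -/
noncomputable def consL : M4 →ₗ[ZMod 4] (T4 →ₗ[ZMod 4] T4) :=
  Finsupp.linearCombination (ZMod 4) fun b : B4 => Finsupp.lmapDomain (ZMod 4) (ZMod 4) (List.cons b)

/-- The tensor product of a list of elements of `M4`. -/
noncomputable def prodT : List M4 → T4
  | [] => Finsupp.single [] 1
  | m :: ms => consL m (prodT ms)

/-- The tensor power of a linear map. -/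
noncomputable def tmap (α : M4 →ₗ[ZMod 4] M4) : T4 →ₗ[ZMod 4] T4 :=
  Finsupp.linearCombination (ZMod 4) fun β : List B4 => prodT (β.map fun b => α (Finsupp.single b 1))

/-! ### commutators -/

/-- Left normed commutators. -/
def cmt : List F → F
  | [] => 1
  | r :: rs => rs.foldl (fun y s => ⁅y, s⁆) r

/-- The verbal subgroup of the fourth powers. -/
def F4 : Subgroup F := vcl {x 0 ^ 4}

/-- The additive span of the tensor products of the `D r`, `r ∈ RR`. -/
noncomputable def KK (d : ℕ) : AddSubgroup T4 :=
  AddSubgroup.closure {τ | ∃ rs : List F, rs.length = d ∧ (∀ r ∈ rs, r ∈ RR) ∧ τ = prodT (rs.map D)}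

/-! ### moves -/

/-- The increasing map with the gap `p`. -/
def sp (p j : ℕ) : ℕ := if j < p then j else j + 1

/-- The endomorphism `x_j ↦ x_(sp p j)`. -/
noncomputable def Zp (p : ℕ) : F →* F := FreeGroup.lift fun j => x (sp p j)

/-- The endomorphism `x_k ↦ x_k x_p`. -/
noncomputable def Cp (k p : ℕ) : F →* F := FreeGroup.lift fun j => if j = k then x k * x p else x j

/-- Insertion of a zero column at the place `p`. -/
noncomputable def zB (p : ℕ) (b : B4) : B4 := (b.1.mapDomain (sp p), sp p b.2)

/-- The column `k` is added to the column `p`. -/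
noncomputable def cA (k p : ℕ) (a : A4) : A4 := a + Finsupp.single p (a k)

/-- The map induced by `Zp p`. -/
noncomputable def zM (p : ℕ) : M4 →ₗ[ZMod 4] M4 := Finsupp.lmapDomain (ZMod 4) (ZMod 4) (zB p)

/-- The map induced by `Cp k p`. -/
noncomputable def cM (k p : ℕ) : M4 →ₗ[ZMod 4] M4 :=
  Finsupp.linearCombination (ZMod 4) fun b : B4 => Finsupp.single (cA k p b.1, b.2) 1 +
    if b.2 = k then Finsupp.single (cA k p b.1 + Finsupp.single k 1, p) 1 else 0

/-- The moves: insertion at the place `p` of a zero column or of a copy of the column `k`. -/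
abbrev Mv : Type := Option ℕ × ℕ

/-- The move `m` is allowed at the level `n`. -/
def okm (m : Mv) (n : ℕ) : Prop :=
  match m with
  | (none, p) => p ≤ n
  | (some k, p) => k < p ∧ p ≤ n

/-- The operator of a move. -/
noncomputable def opm (m : Mv) : T4 →ₗ[ZMod 4] T4 :=
  match m with
  | (none, p) => tmap (zM p)
  | (some k, p) => (tmap (cM k p)).comp (tmap (zM p))

/-- The action of a move on the basis of the Magnus module. -/
noncomputable def sB (m : Mv) (b : B4) : B4 :=
  match m with
  | (none, p) => zB p b
  | (some k, p) => (cA k p (zB p b).1, (zB p b).2)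

/-- The action of a move on the basis of the tensors. -/
noncomputable def stm (m : Mv) (β : List B4) : List B4 := β.map (sB m)

/-- The levels. -/
def lev (d n : ℕ) : Set (List B4) :=
  {β | β.length = d ∧ ∀ b ∈ β, b.2 < n ∧ ∀ q, n ≤ q → b.1 q = 0}

/-- The strict lexicographic order on lists of the same length. -/
def lx : List ℕ → List ℕ → Prop
  | a :: l, b :: l' => a < b ∨ (a = b ∧ lx l l')
  | _, _ => False

/-- The index vector. -/
def jv (β : List B4) : List ℕ := β.map Prod.snd

/-- The column `q`. -/
def colv (q : ℕ) (β : List B4) : List ℕ := β.map fun b => (b.1 q).val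

/-- The order on the basis of the tensors: a smaller index vector is bigger. -/
def blt (β β' : List B4) : Prop :=
  lx (jv β') (jv β) ∨ (jv β = jv β' ∧ ∃ q, (∀ r < q, colv r β = colv r β') ∧ lx (colv q β) (colv q β'))

/-! ### encoding by words -/

/-- The letters. -/
abbrev Ltr (d : ℕ) : Type := Fin d → ZMod 4 × Bool

/-- The column of a letter. -/
def lcol {d : ℕ} (a : Ltr d) : Fin d → ZMod 4 := fun i => (a i).1

/-- Unmarked letters. -/
def lunm {d : ℕ} (a : Ltr d) : Prop := ∀ i, (a i).2 = false

/-- The letter number `q` of the word of `β`. -/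
def ltr (d : ℕ) (β : List B4) (q : ℕ) : Ltr d := fun i =>
  ((β.getD i (0, 0)).1 q, decide ((β.getD i (0, 0)).2 = q))

/-- The word of `β`. -/
def enc (d n : ℕ) (β : List B4) : List (Ltr d) := (List.range n).map (ltr d β)

/-! ### the words `γ_n` -/

/-- The words `γ_0 = [x_0, x_1]`, `γ_(n+1) = [γ_n, [x_(2n+2), x_(2n+3)]]`. -/
def gw : ℕ → F
  | 0 => ⁅x 0, x 1⁆
  | n + 1 => ⁅gw n, ⁅x (2 * n + 2), x (2 * n + 3)⁆⁆

end E4.J
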