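import Pool.Agent.Lib.MP_8a95e3_al.JCube

/-!
# JFive : `H'` abelian implies `J^5 = 0`
-/

namespace E4

universe w

section comm3

variable {H R : Type*} [Group H] [Ring R] {ρ : H →* R}

open scoped IsMulCommutative in
/-- Commuting elements lie in a commutative subring. -/
private theorem JFive_transfer {R : Type w} [Ring R] (A B C : R) (hAB : A * B = B * A) (hAC : A * C = C * A) (hBC : B * C = C * B) :
    ∃ (K : Type w) (_ : CommRing K) (f : K →+* R) (A' B' C' : K),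
      Function.Injective f ∧ f A' = A ∧ f B' = B ∧ f C' = C := by
  have hcomm : ∀ x ∈ ({A, B, C} : Set R), ∀ y ∈ ({A, B, C} : Set R), x * y = y * x := by
    intro x hx y hy
    simp only [Set.mem_insert_iff, Set.mem_singleton_iff] at hx hy
    rcases hx with rfl | rfl | rfl <;> rcases hy with rfl | rfl | rfl <;>
      first | rfl | assumption | (symm; assumption)
  have hK := Subring.isMulCommutative_closure hcomm
  refine ⟨Subring.closure ({A, B, C} : Set R), inferInstance,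
    (Subring.closure ({A, B, C} : Set R)).subtype, ⟨A, Subring.subset_closure (by simp)⟩,
    ⟨B, Subring.subset_closure (by simp)⟩, ⟨C, Subring.subset_closure (by simp)⟩,
    Subtype.val_injective, rfl, rfl, rfl⟩

private theorem JFive_mul (hc : Cub ρ) (a b : H) :
    X ρ (a * b) = X ρ a + X ρ b + X ρ a * X ρ b := by
  unfold X
  rw [ρ.map_mul]
  have h1 : ρ a + 1 + (ρ b + 1) + (ρ a + 1) * (ρ b + 1) = ρ a * ρ b + 1 + 2 * (ρ a + ρ b + 1) := by
    noncomm_ring
  rw [h1, hc.two, zero_mul, add_zero]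

private theorem JFive_comm {a b : H} (hab : ρ a * ρ b = ρ b * ρ a) : X ρ a * X ρ b = X ρ b * X ρ a := by
  unfold X
  have h1 : (ρ a + 1) * (ρ b + 1) = ρ a * ρ b + (ρ a + ρ b + 1) := by noncomm_ring
  have h2 : (ρ b + 1) * (ρ a + 1) = ρ b * ρ a + (ρ a + ρ b + 1) := by noncomm_ring
  rw [h1, h2, hab]

/-- `A²B = AB²` for commuting `ρ a, ρ b`.
PROOF.  `A³ = B³ = 0` and `X(ab) = A + B + AB` with cube `0`.  `(A+B+AB)³ = (A²+B²+A²B²)(A+B+AB)` (char 2, commuting) `= A²B + AB²` (all other terms contain `A³` or `B³`). -/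
theorem cub_two (hc : Cub ρ) {a b : H} (hab : ρ a * ρ b = ρ b * ρ a) :
    X ρ a ^ 2 * X ρ b = X ρ a * X ρ b ^ 2 := by
  obtain ⟨K, instK, f, A, B, B', hf, hA, hB, -⟩ := JFive_transfer (X ρ a) (X ρ b) (X ρ b)
    (JFive_comm hab) (JFive_comm hab) rfl
  have h2 : (2 : K) = 0 := hf (by rw [map_ofNat, map_zero]; exact hc.two)
  have hA3 : A ^ 3 = 0 := hf (by rw [map_pow, map_zero, hA]; exact hc.cube a)
  have hB3 : B ^ 3 = 0 := hf (by rw [map_pow, map_zero, hB]; exact hc.cube b)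
  have hAB3 : (A + B + A * B) ^ 3 = 0 := hf (by
    rw [map_pow, map_zero, map_add, map_add, map_mul, hA, hB, ← JFive_mul hc]; exact hc.cube _)
  have key : A ^ 2 * B = A * B ^ 2 := by
    linear_combination hAB3 - (1 + 3 * B + 3 * B ^ 2 + B ^ 3) * hA3 - (1 + 3 * A + 3 * A ^ 2) * hB3 -
      (A ^ 2 * B + 2 * A * B ^ 2 + 3 * A ^ 2 * B ^ 2) * h2
  have h := congrArg f key
  rwa [map_mul, map_mul, map_pow, map_pow, hA, hB] at h

/-- `A²B² = 0` for commuting `ρ a, ρ b`.  PROOF: `A²B² = A(AB²) = A(A²B) = A³B = 0`. -/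
theorem cub_two' (hc : Cub ρ) {a b : H} (hab : ρ a * ρ b = ρ b * ρ a) :
    X ρ a ^ 2 * X ρ b ^ 2 = 0 := by
  have h1 : X ρ a ^ 2 * X ρ b ^ 2 = X ρ a * (X ρ a * X ρ b ^ 2) := by
    rw [sq (X ρ a), mul_assoc]
  have h2 : X ρ a * (X ρ a ^ 2 * X ρ b) = X ρ a ^ 3 * X ρ b := by
    rw [← mul_assoc, ← pow_succ']
  rw [h1, ← cub_two hc hab, h2, hc.cube a, zero_mul]

/-- `A B C² = 0` for pairwise commuting `ρ a, ρ b, ρ c`.
PROOF.  `cub_two` for `(ab, c)`: `X(ab)² C = X(ab) C²`; `X(ab)² = A² + B² + A²B²`, `X(ab) = A + B + AB`; so `A²C + B²C + A²B²C = AC² + BC² + ABC²`; use `A²B² = 0`, `A²C = AC²`, `B²C = BC²`. -/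
theorem cub_three (hc : Cub ρ) {a b c : H} (hab : ρ a * ρ b = ρ b * ρ a)
    (hac : ρ a * ρ c = ρ c * ρ a) (hbc : ρ b * ρ c = ρ c * ρ b) :
    X ρ a * X ρ b * X ρ c ^ 2 = 0 := by
  have habc : ρ (a * b) * ρ c = ρ c * ρ (a * b) := by
    rw [ρ.map_mul, mul_assoc, hbc, ← mul_assoc, hac, mul_assoc]
  obtain ⟨K, instK, f, A, B, C, hf, hA, hB, hC⟩ := JFive_transfer (X ρ a) (X ρ b) (X ρ c)
    (JFive_comm hab) (JFive_comm hac) (JFive_comm hbc)
  have h2 : (2 : K) = 0 := hf (by rw [map_ofNat, map_zero]; exact hc.two)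
  have k1 : A ^ 2 * C = A * C ^ 2 := hf (by
    rw [map_mul, map_mul, map_pow, map_pow, hA, hC]; exact cub_two hc hac)
  have k2 : B ^ 2 * C = B * C ^ 2 := hf (by
    rw [map_mul, map_mul, map_pow, map_pow, hB, hC]; exact cub_two hc hbc)
  have k3 : A ^ 2 * B ^ 2 = 0 := hf (by
    rw [map_mul, map_pow, map_pow, hA, hB, map_zero]; exact cub_two' hc hab)
  have k4 : (A + B + A * B) ^ 2 * C = (A + B + A * B) * C ^ 2 := hf (by
    rw [map_mul, map_mul, map_pow, map_pow, map_add, map_add, map_mul, hA, hB, hC, ← JFive_mul hc]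
    exact cub_two hc habc)
  have key : A * B * C ^ 2 = 0 := by
    linear_combination (-1 : K) * k4 + k1 + k2 + C * k3 + (A * B + A ^ 2 * B + A * B ^ 2) * C * h2
  have h := congrArg f key
  rwa [map_mul, map_mul, map_pow, hA, hB, hC, map_zero] at h

end comm3

private theorem JFive_conj {H R : Type*} [Group H] [Ring R] {ρ : H →* R} (a g : H) :
    X ρ a * ρ g = ρ g * X ρ (g⁻¹ * a * g) := by
  unfold X
  rw [add_mul, one_mul, mul_add, mul_one, ← ρ.map_mul, ← ρ.map_mul]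
  congr 2
  group

/-- The spanned case. -/
private theorem JFive_spn {H R : Type*} [Group H] [Ring R] {ρ : H →* R} (hc : Cub ρ) (hs : Spn ρ)
    (comm : ∀ c ∈ commutator H, ∀ d ∈ commutator H, ρ c * ρ d = ρ d * ρ c)
    {a b c d e : H} (ha : a ∈ commutator H) (hb : b ∈ commutator H)
    (hcK : c ∈ commutator H) (hdK : d ∈ commutator H) (heK : e ∈ commutator H) :
    X ρ a * X ρ b * X ρ c * X ρ d * X ρ e = 0 := by
  obtain ⟨R₁, inst, π, hπ, hS, hker, hspn⟩ := quo_spn hs {y | ∃ k ∈ commutator H, y = X ρ k ^ 2}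
  have hc1 : Cub ((π : R →* R₁).comp ρ) := cub_comp hc π
  have hcomm1 : ∀ c ∈ commutator H, ∀ d ∈ commutator H, ((π : R →* R₁).comp ρ) c * ((π : R →* R₁).comp ρ) d =
      ((π : R →* R₁).comp ρ) d * ((π : R →* R₁).comp ρ) c := by
    intro c hc d hd
    show π (ρ c) * π (ρ d) = π (ρ d) * π (ρ c)
    rw [← π.map_mul, ← π.map_mul, comm c hc d hd]
  have hsq : ∀ c ∈ commutator H, ((π : R →* R₁).comp ρ) c * ((π : R →* R₁).comp ρ) c = 1 := by
    intro c hcc
    have h1 := hS (X ρ c ^ 2) ⟨c, hcc, rfl⟩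
    have h2 : X ρ c ^ 2 = ρ c * ρ c + 1 := by
      unfold X
      have h3 : (ρ c + 1) ^ 2 = ρ c * ρ c + 1 + 2 * ρ c := by noncomm_ring
      rw [h3, hc.two, zero_mul, add_zero]
    rw [h2, map_add, map_one, map_mul] at h1
    have h4 : (1 : R₁) + 1 = 0 := by
      rw [one_add_one_eq_two]
      exact hc1.two
    show π (ρ c) * π (ρ c) = 1
    exact add_right_cancel (h1.trans h4.symm)
  have h3 := jcube hc1 hcomm1 hsq hcK hdK heK
  rw [X_comp, X_comp, X_comp, ← map_mul, ← map_mul] at h3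
  have h4 := hker _ h3
  have key : ∀ z ∈ AddSubgroup.closure {y | ∃ g g' : H, ∃ s ∈ {y | ∃ k ∈ commutator H, y = X ρ k ^ 2},
      y = ρ g * s * ρ g'}, X ρ a * X ρ b * z = 0 := by
    intro z hz
    induction hz using AddSubgroup.closure_induction with
    | mem x hx =>
      obtain ⟨g, g', s, ⟨k, hk, rfl⟩, rfl⟩ := hx
      have hag : g⁻¹ * a * g ∈ commutator H := by
        have := (inferInstance : (commutator H).Normal).conj_mem a ha g⁻¹
        rwa [inv_inv] at this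
      have hbg : g⁻¹ * b * g ∈ commutator H := by
        have := (inferInstance : (commutator H).Normal).conj_mem b hb g⁻¹
        rwa [inv_inv] at this
      have h5 := cub_three hc (comm _ hag _ hbg) (comm _ hag _ hk) (comm _ hbg _ hk)
      calc X ρ a * X ρ b * (ρ g * X ρ k ^ 2 * ρ g')
          = X ρ a * (X ρ b * ρ g) * X ρ k ^ 2 * ρ g' := by simp only [mul_assoc]
        _ = (X ρ a * ρ g) * X ρ (g⁻¹ * b * g) * X ρ k ^ 2 * ρ g' := by
            rw [JFive_conj b g]; simp only [mul_assoc]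
        _ = ρ g * (X ρ (g⁻¹ * a * g) * X ρ (g⁻¹ * b * g) * X ρ k ^ 2) * ρ g' := by
            rw [JFive_conj a g]; simp only [mul_assoc]
        _ = 0 := by rw [h5, mul_zero, zero_mul]
    | zero => rw [mul_zero]
    | add x y _ _ hx hy => rw [mul_add, hx, hy, add_zero]
    | neg x _ hx => rw [mul_neg, hx, neg_zero]
  have h6 := key _ h4
  rw [← h6]
  simp only [mul_assoc]

/-- **`ρ(H')` abelian implies `J^5 = 0`.**

PROOF.  By `spn_red`/`cub_of_inj` we may assume `Spn ρ` (the conclusion can be tested after the injective `ι`).  Let `S = {X ρ c ^ 2 | c ∈ commutator H}`, `q` from `quo_spn`, `π : R → R₁`, `ρ₁ = π ∘ ρ`.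
In `R₁`: `ρ₁ c * ρ₁ c = 1` for `c ∈ commutator H` (`X ρ c ^ 2 = ρ c * ρ c + 1`), so `jcube` gives `π (C D E) = 0` for `c,d,e ∈ commutator H`.  Hence `C D E` is in the additive closure of the
elements `ρ g * X ρ k ^ 2 * ρ g'`, `k ∈ commutator H`.  And `A * B * (ρ g * X ρ k ^ 2 * ρ g') = ρ g * A' B' X ρ k ^ 2 * ρ g' = 0` where `A' = X ρ (g⁻¹ a g)` etc. by `cub_three`.
So `A * B * (C * D * E) = 0`. -/
theorem jfive {H R : Type*} [Group H] [Ring R] {ρ : H →* R} (hc : Cub ρ)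
    (comm : ∀ c ∈ commutator H, ∀ d ∈ commutator H, ρ c * ρ d = ρ d * ρ c)
    {a b c d e : H} (ha : a ∈ commutator H) (hb : b ∈ commutator H)
    (hcK : c ∈ commutator H) (hdK : d ∈ commutator H) (heK : e ∈ commutator H) :
    X ρ a * X ρ b * X ρ c * X ρ d * X ρ e = 0 := by
  obtain ⟨R₁, inst, ι, ρ₁, hι, hρ, hs⟩ := spn_red ρ
  have hc1 : Cub ρ₁ := cub_of_inj ι hι hρ hc
  have hX : ∀ h, ι (X ρ₁ h) = X ρ h := fun h => by
    unfold X
    rw [map_add, map_one, hρ]
  have hcomm1 : ∀ c ∈ commutator H, ∀ d ∈ commutator H, ρ₁ c * ρ₁ d = ρ₁ d * ρ₁ c := by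
    intro c hc d hd
    apply hι
    rw [map_mul, map_mul, hρ, hρ, comm c hc d hd]
  have h := congrArg ι (JFive_spn hc1 hs hcomm1 ha hb hcK hdK heK)
  rwa [map_mul, map_mul, map_mul, map_mul, map_zero, hX, hX, hX, hX, hX] at h

end E4
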