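import Pool.Agent.Lib.MP_8a95e3_al.JFive

/-!
# JNil : `ρ(H')` nilpotent implies `J` nilpotent
-/

namespace E4

open scoped commutatorElement

private theorem JNil_alg {R : Type*} [Ring R] {z U V : R} (zU : z * U = U * z)
    (zV : z * V = V * z) (hU : z * (U * U) = 0) (hV : z * (V * V) = 0)
    (h3 : z * ((U + V + U * V) * (U + V + U * V)) = 0) : z * (U * V + V * U) = 0 := by
  have f1 : z * (U * (V * V)) = 0 := by
    rw [← mul_assoc, zU, mul_assoc, hV, mul_zero]
  have e1 : z * (U * V + V * U + U * V * U + V * U * V + U * V * U * V) = 0 := by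
    have g1 : z * ((U + V + U * V) * (U + V + U * V)) = z * (U * U) + z * (V * V) +
        z * (U * U) * V + z * (U * (V * V)) +
        z * (U * V + V * U + U * V * U + V * U * V + U * V * U * V) := by noncomm_ring
    rw [h3, hU, hV, f1, zero_mul, zero_add, zero_add, zero_add, zero_add] at g1
    exact g1.symm
  have e2 : z * (U * V * U + U * V * U * V) = 0 := by
    have g1 : z * U * (U * V + V * U + U * V * U + V * U * V + U * V * U * V) =
        z * (U * U) * V + z * (U * U) * (V * U) + z * (U * U) * (V * U * V) +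
        z * (U * V * U + U * V * U * V) := by noncomm_ring
    rw [hU, zero_mul, zero_mul, zero_mul, zero_add, zero_add, zero_add] at g1
    rw [← g1, zU, mul_assoc, e1, mul_zero]
  have e3 : z * (U * V + V * U + V * U * V) = 0 := by
    have g1 : z * (U * V + V * U + V * U * V) =
        z * (U * V + V * U + U * V * U + V * U * V + U * V * U * V) -
        z * (U * V * U + U * V * U * V) := by noncomm_ring
    rw [g1, e1, e2, sub_zero]
  have e4 : z * (V * U * V) = 0 := by
    have g1 : z * V * (U * V + V * U + V * U * V) =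
        z * (V * V) * U + z * (V * V) * (U * V) + z * (V * U * V) := by noncomm_ring
    rw [hV, zero_mul, zero_mul, zero_add, zero_add] at g1
    rw [← g1, zV, mul_assoc, e3, mul_zero]
  have g2 : z * (U * V + V * U) = z * (U * V + V * U + V * U * V) - z * (V * U * V) := by
    noncomm_ring
  rw [g2, e3, e4, sub_zero]

private theorem JNil_rho {H R : Type*} [Group H] [Ring R] (ρ : H →* R) (h2 : (2 : R) = 0) (g : H) :
    ρ g = X ρ g + 1 := by
  have h3 : (1 : R) + 1 = 0 := by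
    rw [one_add_one_eq_two, h2]
  unfold X
  rw [add_assoc, h3, add_zero]

private theorem JNil_one {H R : Type*} [Group H] [Ring R] (ρ : H →* R) (h2 : (2 : R) = 0) {g : H}
    (hg : ρ g = 1) : X ρ g = 0 := by
  unfold X
  rw [hg, one_add_one_eq_two, h2]

private theorem JNil_inv {H R : Type*} [Group H] [Ring R] (ρ : H →* R) (g : H) :
    X ρ g⁻¹ = X ρ g * ρ g⁻¹ := by
  unfold X
  rw [add_mul, ← map_mul, mul_inv_cancel, map_one, one_mul, add_comm]

/-- For `z₁, z₂ ∈ H` whose images commute with `ρ(K)` and with each other, and `u, v ∈ K = commutator H`: `ζ₁ ζ₂ X([u,v]) = 0` (`ζᵢ = X ρ zᵢ`).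

PROOF.  Write `zz = ζ₁ζ₂`, it commutes with `ρ k`, `k ∈ K`.  By `cub_three` for `(z₁, z₂, k)`: `zz K² = 0` for every `k ∈ K` (`K = X ρ k`).  So `zz U² = zz V² = 0` and `zz X(uv)² = 0`;
`X(uv) = U + V + UV`, `X(uv)² = U² + V² + UVUV + UV + VU + U²V + UVU + VUV + UV²`.  Terms containing `U²`, `V²` vanish after multiplication by `zz` (move `zz` next to the square).  So
`zz (UV + VU + UVU + VUV + UVUV) = 0` (1).  Multiply by `U` on the left: `zz (UVU + UVUV) = 0` (2) (all terms with `U²` vanish).  (1)+(2): `zz (UV + VU + VUV) = 0` (3).  Exchange `u,v`: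
`zz (VU + UV + UVU) = 0`.  Multiply (3) by `V` on the left: `zz VUV = 0` (`V²U`, `V²UV` vanish).  So `zz (UV + VU) = 0`, and `X([u,v]) = u⁻¹v⁻¹uv + 1 = u⁻¹v⁻¹(uv + vu) = u⁻¹v⁻¹(UV + VU)`. -/
theorem zz_comm {H R : Type*} [Group H] [Ring R] {ρ : H →* R} (hc : Cub ρ)
    {z₁ z₂ : H} (h12 : ρ z₁ * ρ z₂ = ρ z₂ * ρ z₁)
    (h1 : ∀ k ∈ commutator H, ρ z₁ * ρ k = ρ k * ρ z₁)
    (h2 : ∀ k ∈ commutator H, ρ z₂ * ρ k = ρ k * ρ z₂)
    {u v : H} (hu : u ∈ commutator H) (hv : v ∈ commutator H) :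
    X ρ z₁ * X ρ z₂ * X ρ (cm u v) = 0 := by
  obtain ⟨z, hz⟩ : ∃ z : R, z = X ρ z₁ * X ρ z₂ := ⟨_, rfl⟩
  have hcom : ∀ k ∈ commutator H, z * ρ k = ρ k * z := by
    intro k hk
    have g1 : X ρ z₁ * ρ k = ρ k * X ρ z₁ := by
      unfold X
      rw [add_mul, mul_add, h1 k hk, one_mul, mul_one]
    have g2 : X ρ z₂ * ρ k = ρ k * X ρ z₂ := by
      unfold X
      rw [add_mul, mul_add, h2 k hk, one_mul, mul_one]
    rw [hz, mul_assoc, g2, ← mul_assoc, g1, mul_assoc]
  have hcomX : ∀ k ∈ commutator H, z * X ρ k = X ρ k * z := by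
    intro k hk
    unfold X
    rw [mul_add, add_mul, hcom k hk, one_mul, mul_one]
  have hsq : ∀ k ∈ commutator H, z * (X ρ k * X ρ k) = 0 := by
    intro k hk
    rw [hz, ← sq]
    exact cub_three hc h12 (h1 k hk) (h2 k hk)
  have hm := hsq (u * v) (mul_mem hu hv)
  rw [X_mul hc.two] at hm
  have key : z * (X ρ u * X ρ v + X ρ v * X ρ u) = 0 :=
    JNil_alg (hcomX u hu) (hcomX v hv) (hsq u hu) (hsq v hv) hm
  have h3 : X ρ u * X ρ v + X ρ v * X ρ u = ρ u * ρ v + ρ v * ρ u := by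
    have e2 : ∀ a : R, a + a = 0 := by
      intro a
      rw [← two_mul, hc.two, zero_mul]
    unfold X
    have e3 : (ρ u + 1) * (ρ v + 1) + (ρ v + 1) * (ρ u + 1) =
        ρ u * ρ v + ρ v * ρ u + (ρ u + ρ u) + (ρ v + ρ v) + (1 + 1) := by noncomm_ring
    rw [e3, e2, e2, e2, add_zero, add_zero, add_zero]
  have h4 : X ρ (cm u v) = ρ (u⁻¹ * v⁻¹) * (ρ u * ρ v + ρ v * ρ u) := by
    unfold X cm
    rw [mul_add, ← map_mul, ← map_mul, ← map_mul, ← map_mul]
    have e4 : u⁻¹ * v⁻¹ * (v * u) = 1 := by group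
    have e5 : u⁻¹ * v⁻¹ * (u * v) = u⁻¹ * v⁻¹ * u * v := by group
    rw [e4, e5, map_one]
  rw [← hz, h4, ← mul_assoc, hcom _ (mul_mem (inv_mem hu) (inv_mem hv)), mul_assoc, ← h3, key,
    mul_zero]

/-- `lcs (commutator H) n` is normal in `H`, contained in `commutator H`, and decreasing.
PROOF: induction; `⁅·,·⁆` of normal subgroups is normal (`Subgroup.commutator_normal`), `Subgroup.commutator_le_left`. -/
theorem lcs_normal {H : Type*} [Group H] (K : Subgroup H) [K.Normal] (n : ℕ) :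
    (lcs K n).Normal := by
  induction n with
  | zero =>
    change K.Normal
    infer_instance
  | succ n ih =>
    change (⁅lcs K n, K⁆ : Subgroup H).Normal
    have := ih
    exact Subgroup.commutator_normal _ _

theorem lcs_le {H : Type*} [Group H] (K : Subgroup H) [K.Normal] (n : ℕ) : lcs K n ≤ K := by
  cases n with
  | zero => exact le_refl K
  | succ n =>
    change (⁅lcs K n, K⁆ : Subgroup H) ≤ K
    exact Subgroup.commutator_le_right _ _

theorem lcs_succ_le {H : Type*} [Group H] (K : Subgroup H) [K.Normal] (n : ℕ) :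
    lcs K (n + 1) ≤ lcs K n := by
  change (⁅lcs K n, K⁆ : Subgroup H) ≤ lcs K n
  have := lcs_normal K n
  exact Subgroup.commutator_le_left _ _

private theorem JNil_add3 {R : Type*} [Ring R] {T : Set R}
    (h : ∀ a ∈ T, ∀ b ∈ T, ∀ c ∈ T, a * b * c = 0) {a b c : R} (ha : a ∈ AddSubgroup.closure T)
    (hb : b ∈ AddSubgroup.closure T) (hc : c ∈ AddSubgroup.closure T) : a * b * c = 0 := by
  induction ha using AddSubgroup.closure_induction with
  | mem a ha =>
    induction hb using AddSubgroup.closure_induction with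
    | mem b hb =>
      induction hc using AddSubgroup.closure_induction with
      | mem c hc => exact h a ha b hb c hc
      | zero => rw [mul_zero]
      | add x y _ _ hx hy => rw [mul_add, hx, hy, add_zero]
      | neg x _ hx => rw [mul_neg, hx, neg_zero]
    | zero => rw [mul_zero, zero_mul]
    | add x y _ _ hx hy => rw [mul_add, add_mul, hx, hy, add_zero]
    | neg x _ hx => rw [mul_neg, neg_mul, hx, neg_zero]
  | zero => rw [zero_mul, zero_mul]
  | add x y _ _ hx hy => rw [add_mul, add_mul, hx, hy, add_zero]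
  | neg x _ hx => rw [neg_mul, neg_mul, hx, neg_zero]

private theorem JNil_step {H : Type*} {R : Type*} [Group H] [Ring R] {ρ : H →* R} (hc : Cub ρ)
    (c : ℕ) (hker : ∀ g ∈ lcs (commutator H) (c + 2), ρ g = 1) {z₁ z₂ z₃ : H}
    (h1 : z₁ ∈ lcs (commutator H) (c + 1)) (h2 : z₂ ∈ lcs (commutator H) (c + 1))
    (h3 : z₃ ∈ lcs (commutator H) (c + 1)) : X ρ z₁ * X ρ z₂ * X ρ z₃ = 0 := by
  have hcomm : ∀ z ∈ lcs (commutator H) (c + 1), ∀ k ∈ commutator H, ρ z * ρ k = ρ k * ρ z := by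
    intro z hz k hk
    have g1 : ρ ⁅z, k⁆ = 1 := hker _ (Subgroup.commutator_mem_commutator hz hk)
    have g2 : z * k = ⁅z, k⁆ * (k * z) := by
      rw [commutatorElement_def]
      group
    rw [← map_mul, g2, map_mul, g1, one_mul, map_mul]
  have hK := lcs_le (commutator H) (c + 1)
  have h3' : z₃ ∈ Subgroup.closure {g : H | ∃ a ∈ lcs (commutator H) c, ∃ b ∈ commutator H, ⁅a, b⁆ = g} := by
    have : lcs (commutator H) (c + 1) = ⁅lcs (commutator H) c, commutator H⁆ := rfl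
    rw [this, Subgroup.commutator_def] at h3
    exact h3
  clear h3
  induction h3' using Subgroup.closure_induction with
  | mem x hx =>
    obtain ⟨a, ha, b, hb, rfl⟩ := hx
    have e1 : ⁅a, b⁆ = cm a⁻¹ b⁻¹ := by
      rw [commutatorElement_def]
      unfold cm
      rw [inv_inv, inv_inv]
    rw [e1]
    exact zz_comm hc (hcomm z₁ h1 z₂ (hK h2)) (hcomm z₁ h1) (hcomm z₂ h2)
      (inv_mem (lcs_le (commutator H) c ha)) (inv_mem hb)
  | one => rw [JNil_one ρ hc.two (map_one ρ), mul_zero]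
  | mul x y _ _ hx hy =>
    rw [X_mul hc.two, mul_add, mul_add, hx, hy, ← mul_assoc, hx, zero_mul, add_zero, add_zero]
  | inv x _ hx => rw [JNil_inv, ← mul_assoc, hx, zero_mul]

universe u v

private theorem JNil_aux {H : Type v} [Group H] (c : ℕ) : ∀ (R : Type u) [Ring R] (ρ : H →* R),
    Cub ρ → (∀ g ∈ lcs (commutator H) c, ρ g = 1) → ∀ l : List H, (∀ k ∈ l, k ∈ commutator H) →
    5 * 3 ^ c ≤ l.length → (l.map (X ρ)).prod = 0 := by
  induction c with
  | zero =>
    intro R _ ρ hc hker l hl hlen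
    cases l with
    | nil =>
      simp only [List.length_nil] at hlen
      omega
    | cons a l =>
      rw [List.map_cons, List.prod_cons, JNil_one ρ hc.two (hker a (hl a List.mem_cons_self)),
        zero_mul]
  | succ c ih =>
    intro R _ ρ hc hker l hl hlen
    cases c with
    | zero =>
      have hcomm : ∀ z ∈ commutator H, ∀ k ∈ commutator H, ρ z * ρ k = ρ k * ρ z := by
        intro z hz k hk
        have g1 : ρ ⁅z, k⁆ = 1 := hker _ (Subgroup.commutator_mem_commutator hz hk)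
        have g2 : z * k = ⁅z, k⁆ * (k * z) := by
          rw [commutatorElement_def]
          group
        rw [← map_mul, g2, map_mul, g1, one_mul, map_mul]
      match l, hl, hlen with
      | [], _, h => simp only [List.length_nil] at h; omega
      | [_], _, h => simp only [List.length_cons, List.length_nil] at h; omega
      | [_, _], _, h => simp only [List.length_cons, List.length_nil] at h; omega
      | [_, _, _], _, h => simp only [List.length_cons, List.length_nil] at h; omega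
      | [_, _, _, _], _, h => simp only [List.length_cons, List.length_nil] at h; omega
      | a :: b :: c :: d :: e :: l, hl, _ =>
        have ha : a ∈ commutator H := hl a (by simp)
        have hb : b ∈ commutator H := hl b (by simp)
        have hc' : c ∈ commutator H := hl c (by simp)
        have hd : d ∈ commutator H := hl d (by simp)
        have he : e ∈ commutator H := hl e (by simp)
        have h5 := jfive hc hcomm ha hb hc' hd he
        simp only [List.map_cons, List.prod_cons]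
        rw [← mul_assoc, ← mul_assoc, ← mul_assoc, ← mul_assoc, h5, zero_mul]
    | succ c =>
      obtain ⟨R₀, _, ι, ρ₀, hι, hρ₀, hs⟩ := spn_red ρ
      have hc₀ : Cub ρ₀ := cub_of_inj ι hι hρ₀ hc
      have hker₀ : ∀ g ∈ lcs (commutator H) (c + 1 + 1), ρ₀ g = 1 := by
        intro g hg
        apply hι
        rw [hρ₀, hker g hg, map_one]
      have hX : ∀ g : H, ι (X ρ₀ g) = X ρ g := by
        intro g
        unfold X
        rw [map_add, hρ₀, map_one]
      have hgoal : (l.map (X ρ)).prod = ι ((l.map (X ρ₀)).prod) := by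
        rw [map_list_prod, List.map_map]
        refine congrArg List.prod (List.map_congr_left fun g _ => ?_)
        exact (hX g).symm
      rw [hgoal]
      obtain ⟨R₁, _, π, hπ, hS, hkerπ, hs₁⟩ := quo_spn hs {s | ∃ z ∈ lcs (commutator H) (c + 1), s = X ρ₀ z}
      have hc₁ : Cub ((π : R₀ →* R₁).comp ρ₀) := cub_comp hc₀ π
      have hker₁ : ∀ g ∈ lcs (commutator H) (c + 1), ((π : R₀ →* R₁).comp ρ₀) g = 1 := by
        intro g hg
        rw [JNil_rho _ hc₁.two, X_comp, hS _ ⟨g, hg, rfl⟩, zero_add]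
      have hN : ∀ l : List H, (∀ k ∈ l, k ∈ commutator H) → 5 * 3 ^ (c + 1) ≤ l.length →
          (l.map (X ρ₀)).prod ∈ AddSubgroup.closure {y | ∃ g g' : H,
            ∃ s ∈ {s | ∃ z ∈ lcs (commutator H) (c + 1), s = X ρ₀ z}, y = ρ₀ g * s * ρ₀ g'} := by
        intro l hl hlen
        refine hkerπ _ ?_
        rw [map_list_prod, List.map_map]
        refine Eq.trans ?_ (ih R₁ ((π : R₀ →* R₁).comp ρ₀) hc₁ hker₁ l hl hlen)
        refine congrArg List.prod (List.map_congr_left fun g _ => ?_)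
        exact (X_comp ρ₀ π g).symm
      obtain ⟨N, hNe⟩ : ∃ N : ℕ, N = 5 * 3 ^ (c + 1) := ⟨_, rfl⟩
      rw [← hNe] at hN
      have hlen' : 3 * N ≤ l.length := by
        rw [hNe]
        refine le_trans (le_of_eq ?_) hlen
        ring
      have hsplit : l = l.take N ++ ((l.drop N).take N ++ (l.drop N).drop N) := by
        rw [List.take_append_drop, List.take_append_drop]
      have hl1 : ∀ k ∈ l.take N, k ∈ commutator H := fun k hk => hl k (List.mem_of_mem_take hk)
      have hl2 : ∀ k ∈ (l.drop N).take N, k ∈ commutator H :=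
        fun k hk => hl k (List.mem_of_mem_drop (List.mem_of_mem_take hk))
      have hl3 : ∀ k ∈ (l.drop N).drop N, k ∈ commutator H :=
        fun k hk => hl k (List.mem_of_mem_drop (List.mem_of_mem_drop hk))
      have m1 := hN _ hl1 (by rw [List.length_take]; omega)
      have m2 := hN _ hl2 (by rw [List.length_take, List.length_drop]; omega)
      have m3 := hN _ hl3 (by rw [List.length_drop, List.length_drop]; omega)
      have hzero : (l.map (X ρ₀)).prod = 0 := by
        rw [hsplit, List.map_append, List.map_append, List.prod_append, List.prod_append,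
          ← mul_assoc]
        refine JNil_add3 ?_ m1 m2 m3
        rintro _ ⟨g₁, g₁', _, ⟨z₁, hz₁, rfl⟩, rfl⟩ _ ⟨g₂, g₂', _, ⟨z₂, hz₂, rfl⟩, rfl⟩ _
          ⟨g₃, g₃', _, ⟨z₃, hz₃, rfl⟩, rfl⟩
        have hconj : ∀ z ∈ lcs (commutator H) (c + 1), ∀ h : H,
            h⁻¹ * z * h ∈ lcs (commutator H) (c + 1) := by
          intro z hz h
          have := (lcs_normal (commutator H) (c + 1)).conj_mem z hz h⁻¹
          rwa [inv_inv] at this
        obtain ⟨a, ha⟩ : ∃ a : H, a = g₁' * g₂ := ⟨_, rfl⟩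
        obtain ⟨b, hb⟩ : ∃ b : H, b = g₂' * g₃ := ⟨_, rfl⟩
        have ea : ρ₀ g₁' * ρ₀ g₂ = ρ₀ a := by rw [ha, map_mul]
        have eb : ρ₀ g₂' * ρ₀ g₃ = ρ₀ b := by rw [hb, map_mul]
        have w1 : X ρ₀ z₁ * ρ₀ a = ρ₀ a * X ρ₀ (a⁻¹ * z₁ * a) := (X_conj z₁ a).symm
        have w2 : X ρ₀ (a⁻¹ * z₁ * a) * X ρ₀ z₂ * ρ₀ b =
            ρ₀ b * (X ρ₀ (b⁻¹ * (a⁻¹ * z₁ * a) * b) * X ρ₀ (b⁻¹ * z₂ * b)) := by
          rw [mul_assoc, ← X_conj z₂ b, ← mul_assoc, ← X_conj (a⁻¹ * z₁ * a) b, mul_assoc]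
        have w3 := JNil_step hc₀ c hker₀ (hconj _ (hconj _ hz₁ a) b) (hconj _ hz₂ b) hz₃
        have w4 : ρ₀ g₁ * X ρ₀ z₁ * ρ₀ g₁' * (ρ₀ g₂ * X ρ₀ z₂ * ρ₀ g₂') *
            (ρ₀ g₃ * X ρ₀ z₃ * ρ₀ g₃') =
            ρ₀ g₁ * (X ρ₀ z₁ * (ρ₀ g₁' * ρ₀ g₂)) * X ρ₀ z₂ * (ρ₀ g₂' * ρ₀ g₃) * X ρ₀ z₃ *
              ρ₀ g₃' := by
          simp only [mul_assoc]
        rw [w4, ea, eb, w1]
        have w5 : ρ₀ g₁ * (ρ₀ a * X ρ₀ (a⁻¹ * z₁ * a)) * X ρ₀ z₂ * ρ₀ b * X ρ₀ z₃ * ρ₀ g₃' =
            ρ₀ g₁ * ρ₀ a * (X ρ₀ (a⁻¹ * z₁ * a) * X ρ₀ z₂ * ρ₀ b) * X ρ₀ z₃ * ρ₀ g₃' := by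
          simp only [mul_assoc]
        rw [w5, w2]
        have w6 : ρ₀ g₁ * ρ₀ a * (ρ₀ b * (X ρ₀ (b⁻¹ * (a⁻¹ * z₁ * a) * b) *
            X ρ₀ (b⁻¹ * z₂ * b))) * X ρ₀ z₃ * ρ₀ g₃' =
            ρ₀ g₁ * ρ₀ a * ρ₀ b * (X ρ₀ (b⁻¹ * (a⁻¹ * z₁ * a) * b) *
            X ρ₀ (b⁻¹ * z₂ * b) * X ρ₀ z₃) * ρ₀ g₃' := by
          simp only [mul_assoc]
        rw [w6, w3, mul_zero, zero_mul]
      rw [hzero, map_zero]

/-- **Theorem A(3).**  If `ρ` is trivial on `lcs (commutator H) c` then products of `5·3^c` elements `X ρ k`, `k ∈ H'`, vanish.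

PROOF.  By `spn_red` assume `Spn ρ`.  Induction on `c` for all spanned cubic `ρ` (`R` in a fixed universe; `H` fixed).
`c = 0`: `ρ = 1` on `commutator H`, `X ρ k = 0`, list nonempty.
`c = 1`: `lcs K 1 = ⁅K,K⁆` is in the kernel so `ρ(K)` is abelian, `jfive`; lists of length `≥ 5` (here `5·3 = 15`).
`c+1` with `c ≥ 1`: let `Z = lcs K c`; for `z ∈ Z`, `k ∈ K`: `⁅z,k⁆ ∈ lcs K (c+1)` so `ρ z`, `ρ k` commute.  For `z₁,z₂,z₃ ∈ Z`: `ζ₁ζ₂ζ₃ = 0`: the set of `z ∈ K` (say `z ∈ H`) with `ζ₁ζ₂ X ρ z = 0` is closed under products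
(`X_mul`) and inverses (`X ρ z⁻¹ = ρ z⁻¹ * X ρ z`, and `ζ₁ζ₂` commutes with `ρ z`; it is enough to use elements `z ∈ K`), and contains the generators `⁅u,v⁆`, `u ∈ lcs K (c-1) ≤ K`, `v ∈ K` of `Z` by `zz_comm` (`⁅u,v⁆ = cm u⁻¹ v⁻¹`).
Let `π : R → R₁` be the quotient by `S = {X ρ z | z ∈ Z}` (`quo_spn`).  By induction products of `N = 5·3^c` elements `X ρ k` vanish in `R₁`, so in `R` they are in the additive closure of elements
`ρ g * ζ * ρ g'`.  A product of `3N` elements `X ρ k` is a product of three such (split the list), so a sum of elements `ρ g₁ ζ₁ ρ g₁' ρ g₂ ζ₂ ρ g₂' ρ g₃ ζ₃ ρ g₃' = ρ g ζ₁' ζ₂' ζ₃' ρ g'` (conjugates; `Z` is normal) `= 0`.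
Longer lists: a product of more factors contains such a product. -/
theorem jnil {H R : Type*} [Group H] [Ring R] {ρ : H →* R} (hc : Cub ρ) (c : ℕ)
    (hker : ∀ g ∈ lcs (commutator H) c, ρ g = 1) (l : List H) (hl : ∀ k ∈ l, k ∈ commutator H)
    (hlen : 5 * 3 ^ c ≤ l.length) : (l.map (X ρ)).prod = 0 := by
  exact JNil_aux c R ρ hc hker l hl hlen

end E4
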