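import Pool.Agent.Lib.MP_8a95e3_al.JD

/-!
# JV : verbal subgroups and the series `lcs RR n`, elementary facts
-/

open scoped commutatorElement

namespace E4.J

/-- PROOF: closure induction. -/
theorem vcl_endo (S : Set F) (φ : F →* F) {w : F} (hw : w ∈ vcl S) : φ w ∈ vcl S := by
  have h : vcl S ≤ (vcl S).comap φ := by
    refine (Subgroup.closure_le _).2 ?_
    rintro w ⟨s, hs, ψ, rfl⟩
    show φ (ψ s) ∈ vcl S
    exact Subgroup.subset_closure ⟨s, hs, φ.comp ψ, rfl⟩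
  exact h hw

/-- PROOF: `s = φ s` for the identity `φ`. -/
theorem subset_vcl {S : Set F} {s : F} (hs : s ∈ S) : s ∈ vcl S := by
  exact Subgroup.subset_closure ⟨s, hs, MonoidHom.id F, rfl⟩

theorem vcl_le {S : Set F} {V : Subgroup F} (hV : ∀ φ : F →* F, ∀ w ∈ V, φ w ∈ V) (hS : ∀ s ∈ S, s ∈ V) :
    vcl S ≤ V := by
  refine (Subgroup.closure_le _).2 ?_
  rintro w ⟨s, hs, φ, rfl⟩
  exact hV φ s (hS s hs)

theorem vcl_mono {S T : Set F} (h : S ⊆ T) : vcl S ≤ vcl T := by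
  refine Subgroup.closure_mono ?_
  rintro w ⟨s, hs, φ, rfl⟩
  exact ⟨s, h hs, φ, rfl⟩

/-- A subgroup which is closed under endomorphisms is normal. PROOF: conjugation by `g` is an endomorphism (`MulAut.conj g`). -/
theorem endo_normal {V : Subgroup F} (hV : ∀ φ : F →* F, ∀ w ∈ V, φ w ∈ V) : V.Normal := by
  constructor
  intro n hn g
  exact hV (MulAut.conj g).toMonoidHom n hn

theorem vcl_normal (S : Set F) : (vcl S).Normal := by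
  exact endo_normal fun φ w hw => vcl_endo S φ hw

/-- PROOF: `w ^ 4 = φ (x 0 ^ 4)` with `φ = FreeGroup.lift fun _ => w`. -/
theorem F4_pow (w : F) : w ^ 4 ∈ F4 := by
  have h : w ^ 4 = FreeGroup.lift (fun _ : ℕ => w) (x 0 ^ 4) := by
    rw [map_pow, x, FreeGroup.lift_apply_of]
  exact Subgroup.subset_closure ⟨x 0 ^ 4, rfl, FreeGroup.lift (fun _ : ℕ => w), h⟩

theorem F4_le {V : Subgroup F} (hV : Verb4 V) : F4 ≤ V := by
  refine vcl_le hV.endo ?_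
  intro s hs
  rw [Set.mem_singleton_iff] at hs
  rw [hs]
  exact hV.four _

instance F4_normal : (F4).Normal := by
  exact vcl_normal _

instance RR_normal : (RR).Normal := by
  exact MonoidHom.normal_ker ab

/-- `lcs K n` is normal if `K` is. PROOF: induction, `Subgroup.commutator_normal`. -/
theorem lcs_normal (K : Subgroup F) [K.Normal] (n : ℕ) : (lcs K n).Normal := by
  induction n with
  | zero => exact inferInstanceAs K.Normal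
  | succ n ih =>
    have h : (lcs K n).Normal := ih
    exact inferInstanceAs (⁅lcs K n, K⁆).Normal

instance lcsRR_normal (n : ℕ) : (lcs RR n).Normal := lcs_normal RR n

theorem lcs_succ (K : Subgroup F) (n : ℕ) : lcs K (n + 1) = ⁅lcs K n, K⁆ := by
  rfl

/-- PROOF: `⁅lcs K n, K⁆ ≤ lcs K n` (`Subgroup.commutator_le_left`, normality). -/
theorem lcs_anti (K : Subgroup F) [K.Normal] {m n : ℕ} (h : m ≤ n) : lcs K n ≤ lcs K m := by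
  induction n, h using Nat.le_induction with
  | base => exact le_rfl
  | succ n _ ih =>
    have h : (lcs K n).Normal := lcs_normal K n
    refine le_trans ?_ ih
    rw [lcs_succ]
    exact Subgroup.commutator_le_left _ _

theorem lcs_le (K : Subgroup F) [K.Normal] (n : ℕ) : lcs K n ≤ K := by
  exact lcs_anti K (Nat.zero_le n)

/-- `⁅y, s⁆ ∈ lcs K (n+1)` for `y ∈ lcs K n`, `s ∈ K`. -/
theorem comm_mem {K : Subgroup F} {n : ℕ} {y s : F} (hy : y ∈ lcs K n) (hs : s ∈ K) :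
    ⁅y, s⁆ ∈ lcs K (n + 1) := by
  exact Subgroup.commutator_mem_commutator hy hs

/-- `⁅s, y⁆ = ⁅y, s⁆⁻¹`. -/
theorem comm_mem' {K : Subgroup F} {n : ℕ} {y s : F} (hy : y ∈ lcs K n) (hs : s ∈ K) :
    ⁅s, y⁆ ∈ lcs K (n + 1) := by
  rw [← commutatorElement_inv]
  exact Subgroup.inv_mem _ (comm_mem hy hs)

/-- The series is closed under endomorphisms if `K` is. PROOF: induction, `Subgroup.commutator_def` / closure induction, or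
`Subgroup.map_commutator`: `(lcs K (n+1)).map φ = ⁅(lcs K n).map φ, K.map φ⁆ ≤ ⁅lcs K n, K⁆`. -/
theorem lcs_endo {K : Subgroup F} (hK : ∀ φ : F →* F, ∀ w ∈ K, φ w ∈ K) (φ : F →* F) (n : ℕ) {w : F}
    (hw : w ∈ lcs K n) : φ w ∈ lcs K n := by
  have hK' : K.map φ ≤ K := by
    rintro _ ⟨w, hw, rfl⟩
    exact hK φ w hw
  have h : ∀ n, (lcs K n).map φ ≤ lcs K n := by
    intro n
    induction n with
    | zero => exact hK'
    | succ n ih =>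
      rw [lcs_succ, Subgroup.map_commutator]
      exact Subgroup.commutator_mono ih hK'
  exact h n ⟨w, hw, rfl⟩

/-- The general lemma: `⁅y y', s⁆` is `⁅y, s⁆ ⁅y', s⁆` modulo `lcs K (n+2)` for `y, y' ∈ lcs K n`, `s ∈ K`.
PROOF: `⁅y y', s⁆ = y ⁅y', s⁆ y⁻¹ ⁅y, s⁆ = ⁅y, ⁅y', s⁆⁆ ⁅y', s⁆ ⁅y, s⁆`, where `⁅y, ⁅y', s⁆⁆ ∈ lcs K (n+2)` (`comm_mem'`, `y ∈ K`), and `⁅y', s⁆ ⁅y, s⁆` and
`⁅y, s⁆ ⁅y', s⁆` differ by a commutator of two elements of `lcs K (n+1) ≤ K`, which is in `lcs K (n+2)`. Work in the quotient group by the normal subgroup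
`lcs K (n+2)`: there `⁅y', s⁆` is central relative to `K`. -/
theorem comm_mul_left {K : Subgroup F} [K.Normal] {n : ℕ} {y y' s : F} (hy : y ∈ lcs K n) (hy' : y' ∈ lcs K n)
    (hs : s ∈ K) : (⁅y, s⁆ * ⁅y', s⁆)⁻¹ * ⁅y * y', s⁆ ∈ lcs K (n + 2) := by
  have hN : (lcs K (n + 2)).Normal := lcs_normal K (n + 2)
  have ha : ⁅y, s⁆ ∈ lcs K (n + 1) := comm_mem hy hs
  have ha' : ⁅y', s⁆ ∈ lcs K (n + 1) := comm_mem hy' hs
  have hyK : y ∈ K := lcs_le K n hy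
  have h1 : ⁅y, ⁅y', s⁆⁆ ∈ lcs K (n + 2) := comm_mem' ha' hyK
  have h2 : ⁅(⁅y', s⁆)⁻¹, (⁅y, s⁆)⁻¹⁆ ∈ lcs K (n + 2) :=
    comm_mem (Subgroup.inv_mem _ ha') (Subgroup.inv_mem _ (lcs_le K (n + 1) ha))
  have h3 := hN.conj_mem _ h1 (⁅y, s⁆ * ⁅y', s⁆)⁻¹
  have h4 : (⁅y, s⁆ * ⁅y', s⁆)⁻¹ * ⁅y * y', s⁆ =
      ((⁅y, s⁆ * ⁅y', s⁆)⁻¹ * ⁅y, ⁅y', s⁆⁆ * ((⁅y, s⁆ * ⁅y', s⁆)⁻¹)⁻¹) * ⁅(⁅y', s⁆)⁻¹, (⁅y, s⁆)⁻¹⁆ := by
    simp only [commutatorElement_def]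
    group
  rw [h4]
  exact Subgroup.mul_mem _ h3 h2

/-- `⁅y, s s'⁆` is `⁅y, s⁆ ⁅y, s'⁆` modulo `lcs K (n+2)`.
PROOF: `⁅y, s s'⁆ = ⁅y, s⁆ s ⁅y, s'⁆ s⁻¹ = ⁅y, s⁆ ⁅s, ⁅y, s'⁆⁆ ⁅y, s'⁆` with `⁅s, ⁅y, s'⁆⁆ ∈ lcs K (n+2)`, which is normal. -/
theorem comm_mul_right {K : Subgroup F} [K.Normal] {n : ℕ} {y s s' : F} (hy : y ∈ lcs K n) (hs : s ∈ K)
    (hs' : s' ∈ K) : (⁅y, s⁆ * ⁅y, s'⁆)⁻¹ * ⁅y, s * s'⁆ ∈ lcs K (n + 2) := by
  have hN : (lcs K (n + 2)).Normal := lcs_normal K (n + 2)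
  have ha' : ⁅y, s'⁆ ∈ lcs K (n + 1) := comm_mem hy hs'
  have h1 : ⁅s, ⁅y, s'⁆⁆ ∈ lcs K (n + 2) := comm_mem' ha' hs
  have h3 := hN.conj_mem _ h1 (⁅y, s'⁆)⁻¹
  have h4 : (⁅y, s⁆ * ⁅y, s'⁆)⁻¹ * ⁅y, s * s'⁆ = (⁅y, s'⁆)⁻¹ * ⁅s, ⁅y, s'⁆⁆ * ((⁅y, s'⁆)⁻¹)⁻¹ := by
    simp only [commutatorElement_def]
    group
  rw [h4]
  exact h3

end E4.J
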