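import Pool.Agent.Lib.MP_8a95e3_al.KDefs

/-!
# KDer : formal consequences in a `KAlg`
-/

namespace E4

namespace KAlg

private theorem kder_eq {A : Type*} [AddCommGroup A] {a b : A} (h2 : b + b = 0) (h : a + b = 0) : a = b := by
  have h3 : a + b = b + b := by rw [h, h2]
  exact add_right_cancel h3


variable {L Z E : Type} [AddCommGroup L] [CommRing Z] [AddCommGroup E] [Module Z E]
variable (K : KAlg L Z E)

/-- PROOF: `b (p+q) (p+q) = 0` and characteristic two. -/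
theorem b_comm (p q : L) : K.b p q = K.b q p := by
  have h := K.b_self (p + q)
  rw [K.b_add_left, K.b_add_right, K.b_add_right, K.b_self, K.b_self, zero_add, add_zero] at h
  exact kder_eq (K.two_L _) h

theorem b_zero_left (q : L) : K.b 0 q = 0 := by
  have h := K.b_add_left 0 0 q
  rw [add_zero] at h
  exact (left_eq_add.mp h)

theorem b_zero_right (q : L) : K.b q 0 = 0 := by
  have h := K.b_add_right q 0 0
  rw [add_zero] at h
  exact (left_eq_add.mp h)

theorem k_add_right (p q r : L) : K.k p (q + r) = K.k p q + K.k p r := by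
  rw [K.k_comm p, K.k_add_left, K.k_comm q, K.k_comm r]

theorem k_zero_left (q : L) : K.k 0 q = 0 := by
  have h := K.k_add_left 0 0 q
  rw [add_zero] at h
  exact (left_eq_add.mp h)

theorem l_zero : K.l 0 = 0 := by
  have h := K.l_add 0 0
  rw [add_zero] at h
  exact (left_eq_add.mp h)

/-- PROOF: `faith` for `z + z'` (characteristic two: `z + z' = 0 → z = z'`). -/
theorem faith_eq (z z' : Z) (h : ∀ s, z • K.l s = z' • K.l s) : z = z' := by
  refine kder_eq (K.two_Z _) (K.faith _ fun s => ?_)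
  rw [add_smul, h s]
  exact K.two_E _

/-- **(E2)** `k([p,q],i) l(s) = k(s,i) l([p,q]) + k(q,s) l([p,i]) + k(p,s) l([q,i])`.
PROOF.  `R1` for `(s,[p,q],i)`: `l([[s,[p,q]],i]) = k([p,q],i) l(s) + k(s,i) l([p,q])`.  On the other hand `l([s,[p,q]]) = l([[p,q],s]) = k(q,s) l(p) + k(p,s) l(q)`; apply the `Z`-linear map `D i` and `D_l`:
`l([[s,[p,q]],i]) = k(q,s) l([p,i]) + k(p,s) l([q,i])`. -/
theorem E2 (p q i s : L) :
    K.k (K.b p q) i • K.l s
      = K.k s i • K.l (K.b p q) + K.k q s • K.l (K.b p i) + K.k p s • K.l (K.b q i) := by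
  have h1 := K.R1 s (K.b p q) i
  have h2 : K.l (K.b (K.b s (K.b p q)) i) = K.k q s • K.l (K.b p i) + K.k p s • K.l (K.b q i) := by
    rw [← K.D_l, K.b_comm s, K.R1, map_add, map_smul, map_smul, K.D_l, K.D_l]
  rw [h2] at h1
  rw [add_assoc, h1, ← add_assoc, add_comm (K.k s i • K.l (K.b p q)), add_assoc, K.two_E, add_zero]

/-- `k([p,q],i) = k([p,i],q)`. PROOF: the right side of (E2) is symmetric in `q, i`; `faith_eq`. -/
theorem tau_symm (p q i : L) : K.k (K.b p q) i = K.k (K.b p i) q := by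
  refine K.faith_eq _ _ fun s => ?_
  rw [K.E2 p q i s, K.E2 p i q s, K.k_comm s i, K.k_comm s q, K.b_comm q i,
    add_comm (K.k i s • K.l (K.b p q))]

/-- **(K3)** `k([[p,q],c],i) = k(q,c) k(p,i) + k(p,c) k(q,i)`.
PROOF.  Let `x = [[p,q],c]`, `l(x) = k(q,c) l(p) + k(p,c) l(q)`.  For `u : L`: (R1) for `(u,x,i)`: `l([[u,x],i]) = k(x,i) l(u) + k(u,i) l(x) = k(x,i) l(u) + k(u,i)(k(q,c) l(p) + k(p,c) l(q))`.
Also `l([u,x]) = l([x,u]) = D u (l x) = k(q,c) l([p,u]) + k(p,c) l([q,u])`, and applying `D i` and (R1):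
`l([[u,x],i]) = k(q,c)(k(u,i) l(p) + k(p,i) l(u)) + k(p,c)(k(u,i) l(q) + k(q,i) l(u))`.  Compare: `k(x,i) l(u) = (k(q,c)k(p,i) + k(p,c)k(q,i)) l(u)` for all `u`; `faith_eq`. -/
theorem K3 (p q c i : L) :
    K.k (K.b (K.b p q) c) i = K.k q c * K.k p i + K.k p c * K.k q i := by
  refine K.faith_eq _ _ fun u => ?_
  have h1 := K.R1 u (K.b (K.b p q) c) i
  have h2 : K.l (K.b (K.b u (K.b (K.b p q) c)) i) =
      K.k q c • (K.k u i • K.l p + K.k p i • K.l u) + K.k p c • (K.k u i • K.l q + K.k q i • K.l u) := by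
    rw [← K.D_l, K.b_comm u, ← K.D_l, K.R1, map_add, map_smul, map_smul, K.D_l, K.D_l, map_add, map_smul, map_smul,
      K.D_l, K.D_l, K.R1, K.R1]
  rw [h2, K.R1 p q c] at h1
  linear_combination (norm := module) -h1

/-- **(K22)** `k([p,q],[i,j]) = k(p,i) k(q,j) + k(p,j) k(q,i)`.
PROOF. `k([i,j],[p,q]) = k([i,[p,q]],j)` (`tau_symm`) `= k([[p,q],i],j)`, then (K3). -/
theorem K22 (p q i j : L) :
    K.k (K.b p q) (K.b i j) = K.k p i * K.k q j + K.k p j * K.k q i := by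
  rw [K.k_comm, K.tau_symm, K.b_comm i, K.K3]
  ring

/-- Symmetrisation used in the chain argument: `l([[X,[a,u]],v]) + l([[X,[a,v]],u]) = l([[X,[u,v]],a])`.
PROOF.  (R1): `l([[X,[a,u]],v]) = k([a,u],v) l(X) + k(X,v) l([a,u])`, `l([[X,[a,v]],u]) = k([a,v],u) l(X) + k(X,u) l([a,v])`; the first terms cancel (`tau_symm`).  `l([[X,[u,v]],a]) = k([u,v],a) l(X) + k(X,a) l([u,v])`
and by (E2) `k([u,v],a) l(X) = k(X,a) l([u,v]) + k(v,X) l([u,a]) + k(u,X) l([v,a])`. -/
theorem symA (X' a u v : L) :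
    K.l (K.b (K.b X' (K.b a u)) v) + K.l (K.b (K.b X' (K.b a v)) u)
      = K.l (K.b (K.b X' (K.b u v)) a) := by
  rw [K.R1, K.R1, K.R1, K.E2 u v a X', K.tau_symm a v u, K.k_comm v X', K.k_comm u X', K.b_comm u a, K.b_comm v a]
  have h1 := K.two_E (K.k (K.b a u) v • K.l X')
  have h2 := K.two_E (K.k X' a • K.l (K.b u v))
  linear_combination (norm := module) h1 - h2

/-- `[[X,v],u] + [[X,u],v] = [X,[u,v]]` (Jacobi). -/
theorem symB (X' u v : L) :
    K.b (K.b X' v) u + K.b (K.b X' u) v = K.b X' (K.b u v) := by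
  have h1 := K.jac X' u v
  rw [K.b_comm v X', K.b_comm (K.b u v) X'] at h1
  refine kder_eq (K.two_L _) ?_
  rw [← h1]
  abel

end KAlg

end E4
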