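import Pool.Agent.Lib.MP_8a95e3_al.CenZ

/-!
# KInst : the structure `KAlg` of a T-prime quotient
-/

namespace E4

namespace TPr

variable {A : Type} [Ring A] (P : TPr A)

/-- the commutative ring structure on `Z` -/
noncomputable instance instCommRingZs : CommRing P.Zs :=
  { (inferInstance : Ring P.Zs) with
    mul_comm := fun z z' => P.Zs_comm z z' }

/-- `E0` is a module over `Z` by left multiplication -/
noncomputable instance instModuleZs : Module P.Zs P.E0 where
  smul z e := (z : P.E0) * e
  one_smul e := one_mul e
  mul_smul z z' e := mul_assoc (z : P.E0) z' e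
  smul_zero z := mul_zero (z : P.E0)
  smul_add z e e' := mul_add (z : P.E0) e e'
  add_smul z z' e := add_mul (z : P.E0) z' e
  zero_smul e := zero_mul e

theorem smul_def (z : P.Zs) (e : P.E0) : z • e = (z : P.E0) * e := rfl

include P in
private theorem KInst_two (x : A) : x + x = 0 := by
  have h : (2 : A) = 0 := P.cub.two
  rw [← two_mul, h, zero_mul]

private theorem KInst_two_E (e : P.E0) : e + e = 0 := by
  refine AddMonoidHom.ext fun m => Subtype.ext ?_
  show ((e m : P.M) : A) + ((e m : P.M) : A) = 0
  exact KInst_two P _

include P in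
private theorem KInst_jac (p q r : A) : br (br p q) r + br (br q r) p + br (br r p) q = 0 := by
  have h := KInst_two P (p * q * r + q * p * r + r * p * q + r * q * p + q * r * p + p * r * q)
  rw [← h]
  simp only [br, add_mul, mul_add, mul_assoc]
  abel

private theorem KInst_comm (z : P.Zs) (p : P.Lm) : P.lm p * (z : P.E0) = (z : P.E0) * P.lm p :=
  Subring.mem_centralizer_iff.1 z.2 (P.lm p) (Or.inl ⟨p, rfl⟩)

/-- the structure.  PROOFS: `b_*`, `jac`, `two_*`: the ring `A` has `2 = 0` (`P.cub.two`), `br` is the Lie bracket.  `D p e = e * lm p + lm p * e`, linear over `Z` because `Z` commutes with `lm p`.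
`D_l`: `lm q * lm p + lm p * lm q = lm [q,p]`.  `R1`: `R1_op`.  `faith`: `faith_op`. -/
noncomputable def K : KAlg P.Lm P.Zs P.E0 where
  b := P.bL
  b_add_left := by
    intro p q r
    refine Subtype.ext ?_
    show br ((p : A) + q) r = br (p : A) r + br (q : A) r
    simp only [br, add_mul, mul_add]
    abel
  b_add_right := by
    intro p q r
    refine Subtype.ext ?_
    show br (p : A) ((q : A) + r) = br (p : A) q + br (p : A) r
    simp only [br, add_mul, mul_add]
    abel
  b_self := by
    intro p
    refine Subtype.ext ?_
    exact KInst_two P ((p : A) * p)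
  jac := by
    intro p q r
    refine Subtype.ext ?_
    exact KInst_jac P (p : A) q r
  two_L := by
    intro p
    exact Subtype.ext (KInst_two P (p : A))
  two_Z := by
    intro z
    exact Subtype.ext (KInst_two_E P (z : P.E0))
  two_E := by
    intro e
    exact KInst_two_E P e
  k p q := ⟨P.kop p q, P.kop_mem p q⟩
  k_add_left := by
    intro p q r
    exact Subtype.ext (P.kop_add p q r)
  k_comm := by
    intro p q
    exact Subtype.ext (P.kop_symm p q)
  l := P.lm
  l_add := by
    intro p q
    refine AddMonoidHom.ext fun m => Subtype.ext ?_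
    show ((p : A) + q) * m = (p : A) * m + (q : A) * m
    exact add_mul _ _ _
  R1 := by
    intro p q r
    exact P.R1_op p q r
  D p :=
    { toFun := fun e => e * P.lm p + P.lm p * e
      map_add' := by
        intro e e'
        rw [add_mul, mul_add]
        abel
      map_smul' := by
        intro z e
        show ((z : P.E0) * e) * P.lm p + P.lm p * ((z : P.E0) * e) =
          (z : P.E0) * (e * P.lm p + P.lm p * e)
        rw [← mul_assoc (P.lm p), KInst_comm P z p, mul_add, mul_assoc, mul_assoc] }
  D_l := by
    intro p q
    refine AddMonoidHom.ext fun m => Subtype.ext ?_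
    show (q : A) * ((p : A) * m) + (p : A) * ((q : A) * m) = ((q : A) * p + (p : A) * q) * m
    rw [add_mul, mul_assoc, mul_assoc]
  faith := by
    intro z h
    exact Subtype.ext (P.faith_op (z : P.E0) z.2 h)

end TPr

end E4
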