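import Mathlib

/-!
# LP1 : the algebra of Lemma P (helper63, section 1.1)
-/

namespace E4.LP

/-- `C(x,y) = t(xy) + y t(x) + t(y) x⁻¹` -/
def CC {G S : Type*} [Group G] [Ring S] (ρ : G →* S) (t : G → S) (x y : G) : S :=
  t (x * y) + ρ y * t x + t y * ρ x⁻¹

/-- `Sq(x) = x t(x)` -/
def SQ {G S : Type*} [Group G] [Ring S] (ρ : G →* S) (t : G → S) (x : G) : S := ρ x * t x

/-- the hypotheses of Lemma P -/
structure LPD {G S : Type*} [Group G] [Ring S] (ρ : G →* S) (t : G → S) : Prop where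
  two : (2 : S) = 0
  a1 : t 1 = 0
  inv : ∀ g, t g⁻¹ = t g
  a2 : ∀ g, ρ g * t g = t g * ρ g
  a3 : ∀ g h, t (g * h) + t (g * h⁻¹) = ρ g * t h + t h * ρ g⁻¹
  a4 : ∀ g h, (ρ g + ρ g⁻¹) * t h = t g * (ρ h + ρ h⁻¹)
  a5 : ∀ x y z, CC ρ t x (y * z) = ρ y * CC ρ t x z + CC ρ t x y * ρ z

/-- (a5) from `σ` -/
theorem a5_of_sigma {G S : Type*} [Group G] [Ring S] (ρ : G →* S) (t σ : G → S)
    (h2 : (2 : S) = 0) (h : ∀ x y, CC ρ t x y = ρ y * σ x + σ x * ρ y) (x y z : G) :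
    CC ρ t x (y * z) = ρ y * CC ρ t x z + CC ρ t x y * ρ z := by
  have hs : ∀ a : S, a + a = 0 := fun a => by rw [← two_mul, h2, zero_mul]
  rw [h, h, h, map_mul, mul_add, add_mul]
  have e : ρ y * (ρ z * σ x) + ρ y * (σ x * ρ z) + (ρ y * σ x * ρ z + σ x * ρ y * ρ z)
    = ρ y * ρ z * σ x + σ x * (ρ y * ρ z) + (ρ y * (σ x * ρ z) + ρ y * (σ x * ρ z)) := by
    noncomm_ring
  rw [e, hs, add_zero]

/-- sums, left and right multiples of pairs `(T_g, t(g))` -/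
def PF {G S : Type*} [Group G] [Ring S] (ρ : G →* S) (t : G → S) : AddSubgroup (S × S) :=
  AddSubgroup.closure {z | ∃ u g v : G, z = (ρ u * (ρ g + ρ g⁻¹) * ρ v, ρ u * t g * ρ v)}

namespace LPD

variable {G S : Type*} [Group G] [Ring S] {ρ : G →* S} {t : G → S}

theorem hs (h : LPD ρ t) (a : S) : a + a = 0 := by rw [← two_mul, h.two, zero_mul]

theorem hs' (h : LPD ρ t) (a b : S) : a + (a + b) = b := by rw [← add_assoc, h.hs, zero_add]

theorem hneg (h : LPD ρ t) (a : S) : -a = a := neg_eq_of_add_eq_zero_left (h.hs a)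

theorem hsub (h : LPD ρ t) (a b : S) : a - b = a + b := by rw [sub_eq_add_neg, h.hneg]

theorem eq_of (h : LPD ρ t) {a b : S} (e : a + b = 0) : a = b := by
  rw [← h.hneg b]
  exact eq_neg_of_add_eq_zero_left e

theorem rinv (_ : LPD ρ t) (g : G) : ρ g * ρ g⁻¹ = 1 := by rw [← map_mul, mul_inv_cancel, map_one]

theorem linv (_ : LPD ρ t) (g : G) : ρ g⁻¹ * ρ g = 1 := by rw [← map_mul, inv_mul_cancel, map_one]

theorem rinv' (h : LPD ρ t) (g : G) (a : S) : ρ g * (ρ g⁻¹ * a) = a := by rw [← mul_assoc, h.rinv, one_mul]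

theorem linv' (h : LPD ρ t) (g : G) (a : S) : ρ g⁻¹ * (ρ g * a) = a := by rw [← mul_assoc, h.linv, one_mul]

theorem z2 (h : LPD ρ t) (a : S) : (2 : ℤ) • a = 0 := by rw [two_zsmul, h.hs]

theorem z4 (h : LPD ρ t) (a : S) : (4 : ℤ) • a = 0 := by
  have e : (4 : ℤ) • a = (2 : ℤ) • ((2 : ℤ) • a) := by rw [smul_smul]; norm_num
  rw [e, h.z2]

theorem z6 (h : LPD ρ t) (a : S) : (6 : ℤ) • a = 0 := by
  have e : (6 : ℤ) • a = (2 : ℤ) • ((3 : ℤ) • a) := by rw [smul_smul]; norm_num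
  rw [e, h.z2]

theorem z8 (h : LPD ρ t) (a : S) : (8 : ℤ) • a = 0 := by
  have e : (8 : ℤ) • a = (2 : ℤ) • ((4 : ℤ) • a) := by rw [smul_smul]; norm_num
  rw [e, h.z2]

/-- (c1) -/
theorem c1 (h : LPD ρ t) (g k : G) : CC ρ t g k = CC ρ t k g := by
  have e3 : t (k * g⁻¹) = t (g * k⁻¹) := by
    rw [← h.inv (k * g⁻¹), mul_inv_rev, inv_inv]
  unfold CC
  linear_combination (norm := skip) h.a3 g k + h.a3 k g + e3
  try rw [← sub_eq_zero]
  simp only [LPD.hsub h, LPD.hneg h, mul_add, add_mul, mul_assoc, mul_one, one_mul, mul_zero, zero_mul, map_mul,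
    mul_inv_rev, inv_inv, inv_one, map_one, LPD.rinv h, LPD.linv h, LPD.rinv' h, LPD.linv' h, add_zero, zero_add,
    mul_inv_cancel, inv_mul_cancel, mul_inv_cancel_left, inv_mul_cancel_left, sub_zero, neg_zero, LPD.a1 h, LPD.inv h]
  try abel_nf
  try simp only [LPD.z2 h, LPD.z4 h, LPD.z6 h, LPD.z8 h, add_zero, zero_add]

/-- (E1) -/
theorem E1 (h : LPD ρ t) (g k : G) :
    t (g * k) + t (k * g) = ρ g * t k + t k * ρ g⁻¹ + ρ k * t g + t g * ρ k⁻¹ := by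
  have e := h.c1 g k
  unfold CC at e
  linear_combination (norm := skip) e
  try rw [← sub_eq_zero]
  simp only [LPD.hsub h, LPD.hneg h, mul_add, add_mul, mul_assoc, mul_one, one_mul, mul_zero, zero_mul, map_mul,
    mul_inv_rev, inv_inv, inv_one, map_one, LPD.rinv h, LPD.linv h, LPD.rinv' h, LPD.linv' h, add_zero, zero_add,
    mul_inv_cancel, inv_mul_cancel, mul_inv_cancel_left, inv_mul_cancel_left, sub_zero, neg_zero, LPD.a1 h, LPD.inv h]
  try abel_nf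
  try simp only [LPD.z2 h, LPD.z4 h, LPD.z6 h, LPD.z8 h, add_zero, zero_add]

theorem a5' (h : LPD ρ t) (x y z : G) :
    CC ρ t (x * y) z = ρ x * CC ρ t y z + CC ρ t x z * ρ y := by
  rw [h.c1, h.a5, h.c1 z y, h.c1 z x]

theorem C_one_left (h : LPD ρ t) (x : G) : CC ρ t 1 x = 0 := by
  unfold CC
  try rw [← sub_eq_zero]
  simp only [LPD.hsub h, LPD.hneg h, mul_add, add_mul, mul_assoc, mul_one, one_mul, mul_zero, zero_mul, map_mul,
    mul_inv_rev, inv_inv, inv_one, map_one, LPD.rinv h, LPD.linv h, LPD.rinv' h, LPD.linv' h, add_zero, zero_add,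
    mul_inv_cancel, inv_mul_cancel, mul_inv_cancel_left, inv_mul_cancel_left, sub_zero, neg_zero, LPD.a1 h, LPD.inv h]
  try abel_nf
  try simp only [LPD.z2 h, LPD.z4 h, LPD.z6 h, LPD.z8 h, add_zero, zero_add]

theorem C_one_right (h : LPD ρ t) (x : G) : CC ρ t x 1 = 0 := by rw [h.c1, h.C_one_left]

theorem C_self (h : LPD ρ t) (x : G) : CC ρ t x x = 0 := by
  have e := h.a3 x x
  unfold CC
  linear_combination (norm := skip) e
  try rw [← sub_eq_zero]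
  simp only [LPD.hsub h, LPD.hneg h, mul_add, add_mul, mul_assoc, mul_one, one_mul, mul_zero, zero_mul, map_mul,
    mul_inv_rev, inv_inv, inv_one, map_one, LPD.rinv h, LPD.linv h, LPD.rinv' h, LPD.linv' h, add_zero, zero_add,
    mul_inv_cancel, inv_mul_cancel, mul_inv_cancel_left, inv_mul_cancel_left, sub_zero, neg_zero, LPD.a1 h, LPD.inv h]
  try abel_nf
  try simp only [LPD.z2 h, LPD.z4 h, LPD.z6 h, LPD.z8 h, add_zero, zero_add]

theorem a2' (h : LPD ρ t) (x : G) : ρ x⁻¹ * t x = t x * ρ x⁻¹ := by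
  have e := h.a2 x⁻¹
  rw [h.inv] at e
  exact e

theorem C_inv (h : LPD ρ t) (x : G) : CC ρ t x x⁻¹ = 0 := by
  unfold CC
  linear_combination (norm := skip) h.a2' x
  try rw [← sub_eq_zero]
  simp only [LPD.hsub h, LPD.hneg h, mul_add, add_mul, mul_assoc, mul_one, one_mul, mul_zero, zero_mul, map_mul,
    mul_inv_rev, inv_inv, inv_one, map_one, LPD.rinv h, LPD.linv h, LPD.rinv' h, LPD.linv' h, add_zero, zero_add,
    mul_inv_cancel, inv_mul_cancel, mul_inv_cancel_left, inv_mul_cancel_left, sub_zero, neg_zero, LPD.a1 h, LPD.inv h]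
  try abel_nf
  try simp only [LPD.z2 h, LPD.z4 h, LPD.z6 h, LPD.z8 h, add_zero, zero_add]

/-- (c3) -/
theorem c3 (h : LPD ρ t) (g k : G) : t (k * g * k⁻¹) = ρ k * t g * ρ k⁻¹ := by
  have e1 : CC ρ t k (g * k⁻¹) = ρ g * CC ρ t k k⁻¹ + CC ρ t k g * ρ k⁻¹ := h.a5 k g k⁻¹
  rw [h.C_inv] at e1
  unfold CC at e1
  linear_combination (norm := skip) e1 + h.a3 g k * ρ k⁻¹ + h.E1 g k * ρ k⁻¹ + ρ g * h.a2' k
  try rw [← sub_eq_zero]
  simp only [LPD.hsub h, LPD.hneg h, mul_add, add_mul, mul_assoc, mul_one, one_mul, mul_zero, zero_mul, map_mul,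
    mul_inv_rev, inv_inv, inv_one, map_one, LPD.rinv h, LPD.linv h, LPD.rinv' h, LPD.linv' h, add_zero, zero_add,
    mul_inv_cancel, inv_mul_cancel, mul_inv_cancel_left, inv_mul_cancel_left, sub_zero, neg_zero, LPD.a1 h, LPD.inv h]
  try abel_nf
  try simp only [LPD.z2 h, LPD.z4 h, LPD.z6 h, LPD.z8 h, add_zero, zero_add]

/-- `k t(gk) = t(kg) k` -/
theorem c3' (h : LPD ρ t) (g k : G) : ρ k * t (g * k) = t (k * g) * ρ k := by
  have e := h.c3 (g * k) k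
  have e2 : k * (g * k) * k⁻¹ = k * g := by group
  rw [e2] at e
  rw [e]
  try rw [← sub_eq_zero]
  simp only [LPD.hsub h, LPD.hneg h, mul_add, add_mul, mul_assoc, mul_one, one_mul, mul_zero, zero_mul, map_mul,
    mul_inv_rev, inv_inv, inv_one, map_one, LPD.rinv h, LPD.linv h, LPD.rinv' h, LPD.linv' h, add_zero, zero_add,
    mul_inv_cancel, inv_mul_cancel, mul_inv_cancel_left, inv_mul_cancel_left, sub_zero, neg_zero, LPD.a1 h, LPD.inv h]
  try abel_nf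
  try simp only [LPD.z2 h, LPD.z4 h, LPD.z6 h, LPD.z8 h, add_zero, zero_add]

/-- (c4) -/
theorem c4 (h : LPD ρ t) (g k : G) :
    SQ ρ t (g * k) = SQ ρ t g + ρ g * ρ g * SQ ρ t k + ρ g * CC ρ t g k * ρ k := by
  unfold SQ CC
  linear_combination (norm := skip) ρ g * h.c3' g k + ρ g * h.E1 g k * ρ k + ρ g * ρ g * h.a2 k
  try rw [← sub_eq_zero]
  simp only [LPD.hsub h, LPD.hneg h, mul_add, add_mul, mul_assoc, mul_one, one_mul, mul_zero, zero_mul, map_mul,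
    mul_inv_rev, inv_inv, inv_one, map_one, LPD.rinv h, LPD.linv h, LPD.rinv' h, LPD.linv' h, add_zero, zero_add,
    mul_inv_cancel, inv_mul_cancel, mul_inv_cancel_left, inv_mul_cancel_left, sub_zero, neg_zero, LPD.a1 h, LPD.inv h]
  try abel_nf
  try simp only [LPD.z2 h, LPD.z4 h, LPD.z6 h, LPD.z8 h, add_zero, zero_add]

/-- (c5) -/
theorem c5 (h : LPD ρ t) (u v : G) :
    ρ u * CC ρ t u v + CC ρ t u v * ρ u = SQ ρ t u * ρ v + ρ v * SQ ρ t u := by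
  unfold SQ CC
  linear_combination (norm := skip) h.c3' v u + ρ u * h.E1 u v + ρ v * h.a2 u + ρ u * h.a4 u v
  try rw [← sub_eq_zero]
  simp only [LPD.hsub h, LPD.hneg h, mul_add, add_mul, mul_assoc, mul_one, one_mul, mul_zero, zero_mul, map_mul,
    mul_inv_rev, inv_inv, inv_one, map_one, LPD.rinv h, LPD.linv h, LPD.rinv' h, LPD.linv' h, add_zero, zero_add,
    mul_inv_cancel, inv_mul_cancel, mul_inv_cancel_left, inv_mul_cancel_left, sub_zero, neg_zero, LPD.a1 h, LPD.inv h]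
  try abel_nf
  try simp only [LPD.z2 h, LPD.z4 h, LPD.z6 h, LPD.z8 h, add_zero, zero_add]

/-- the Peiffer identity with a group element in the middle -/
theorem peif (h : LPD ρ t) (g f k : G) : t g * ρ f * (ρ k + ρ k⁻¹) = (ρ g + ρ g⁻¹) * ρ f * t k := by
  have e := h.a4 g (f * k * f⁻¹)
  rw [h.c3] at e
  linear_combination (norm := skip) e * ρ f
  try rw [← sub_eq_zero]
  simp only [LPD.hsub h, LPD.hneg h, mul_add, add_mul, mul_assoc, mul_one, one_mul, mul_zero, zero_mul, map_mul,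
    mul_inv_rev, inv_inv, inv_one, map_one, LPD.rinv h, LPD.linv h, LPD.rinv' h, LPD.linv' h, add_zero, zero_add,
    mul_inv_cancel, inv_mul_cancel, mul_inv_cancel_left, inv_mul_cancel_left, sub_zero, neg_zero, LPD.a1 h, LPD.inv h]
  try abel_nf
  try simp only [LPD.z2 h, LPD.z4 h, LPD.z6 h, LPD.z8 h, add_zero, zero_add]

/-- (c6) -/
theorem c6 (h : LPD ρ t) {z z' : S × S} (hz : z ∈ PF ρ t) (hz' : z' ∈ PF ρ t) (f : G) :
    z.2 * ρ f * z'.1 = z.1 * ρ f * z'.2 := by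
  unfold PF at hz hz'
  induction hz using AddSubgroup.closure_induction with
  | mem z hz =>
    obtain ⟨u, g, v, rfl⟩ := hz
    induction hz' using AddSubgroup.closure_induction with
    | mem z' hz' =>
      obtain ⟨u', g', v', rfl⟩ := hz'
      have e := h.peif g (v * f * u') g'
      show ρ u * t g * ρ v * ρ f * (ρ u' * (ρ g' + ρ g'⁻¹) * ρ v')
        = ρ u * (ρ g + ρ g⁻¹) * ρ v * ρ f * (ρ u' * t g' * ρ v')
      linear_combination (norm := skip) ρ u * e * ρ v'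
      try rw [← sub_eq_zero]
      simp only [LPD.hsub h, LPD.hneg h, mul_add, add_mul, mul_assoc, mul_one, one_mul, mul_zero, zero_mul, map_mul,
        mul_inv_rev, inv_inv, inv_one, map_one, LPD.rinv h, LPD.linv h, LPD.rinv' h, LPD.linv' h, add_zero, zero_add,
        mul_inv_cancel, inv_mul_cancel, mul_inv_cancel_left, inv_mul_cancel_left, sub_zero, neg_zero, LPD.a1 h, LPD.inv h]
      try abel_nf
      try simp only [LPD.z2 h, LPD.z4 h, LPD.z6 h, LPD.z8 h, add_zero, zero_add]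
    | zero => simp
    | add a b _ _ ha hb =>
      rw [Prod.fst_add, Prod.snd_add, mul_add (_ * ρ f), mul_add (_ * ρ f), ha, hb]
    | neg a _ ha =>
      rw [Prod.fst_neg, Prod.snd_neg, mul_neg, mul_neg, ha]
  | zero => simp
  | add a b _ _ ha hb =>
    rw [Prod.fst_add, Prod.snd_add, add_mul, add_mul, add_mul, add_mul, ha, hb]
  | neg a _ ha =>
    rw [Prod.fst_neg, Prod.snd_neg, neg_mul, neg_mul, neg_mul, neg_mul, ha]

theorem pf_T (_ : LPD ρ t) (u g v : G) : (ρ u * (ρ g + ρ g⁻¹) * ρ v, ρ u * t g * ρ v) ∈ PF ρ t :=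
  AddSubgroup.subset_closure ⟨u, g, v, rfl⟩

theorem pf_C (h : LPD ρ t) (g k : G) : (ρ g * ρ k + ρ k * ρ g, CC ρ t g k) ∈ PF ρ t := by
  have e := add_mem (add_mem (h.pf_T 1 (g * k) 1) (h.pf_T k g 1)) (h.pf_T 1 k g⁻¹)
  have e2 : (ρ g * ρ k + ρ k * ρ g, CC ρ t g k)
      = (ρ 1 * (ρ (g * k) + ρ (g * k)⁻¹) * ρ 1, ρ 1 * t (g * k) * ρ 1) + (ρ k * (ρ g + ρ g⁻¹) * ρ 1, ρ k * t g * ρ 1)
        + (ρ 1 * (ρ k + ρ k⁻¹) * ρ g⁻¹, ρ 1 * t k * ρ g⁻¹) := by
    refine Prod.ext ?_ ?_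
    · show ρ g * ρ k + ρ k * ρ g = ρ 1 * (ρ (g * k) + ρ (g * k)⁻¹) * ρ 1 + ρ k * (ρ g + ρ g⁻¹) * ρ 1
        + ρ 1 * (ρ k + ρ k⁻¹) * ρ g⁻¹
      try rw [← sub_eq_zero]
      simp only [LPD.hsub h, LPD.hneg h, mul_add, add_mul, mul_assoc, mul_one, one_mul, mul_zero, zero_mul, map_mul,
        mul_inv_rev, inv_inv, inv_one, map_one, LPD.rinv h, LPD.linv h, LPD.rinv' h, LPD.linv' h, add_zero, zero_add,
        mul_inv_cancel, inv_mul_cancel, mul_inv_cancel_left, inv_mul_cancel_left, sub_zero, neg_zero, LPD.a1 h, LPD.inv h]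
      try abel_nf
      try simp only [LPD.z2 h, LPD.z4 h, LPD.z6 h, LPD.z8 h, add_zero, zero_add]
    · show CC ρ t g k = ρ 1 * t (g * k) * ρ 1 + ρ k * t g * ρ 1 + ρ 1 * t k * ρ g⁻¹
      unfold CC
      try rw [← sub_eq_zero]
      simp only [LPD.hsub h, LPD.hneg h, mul_add, add_mul, mul_assoc, mul_one, one_mul, mul_zero, zero_mul, map_mul,
        mul_inv_rev, inv_inv, inv_one, map_one, LPD.rinv h, LPD.linv h, LPD.rinv' h, LPD.linv' h, add_zero, zero_add,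
        mul_inv_cancel, inv_mul_cancel, mul_inv_cancel_left, inv_mul_cancel_left, sub_zero, neg_zero, LPD.a1 h, LPD.inv h]
      try abel_nf
      try simp only [LPD.z2 h, LPD.z4 h, LPD.z6 h, LPD.z8 h, add_zero, zero_add]
  rw [e2]
  exact e

theorem pf_S (h : LPD ρ t) (g : G) : (ρ g * ρ g + 1, SQ ρ t g) ∈ PF ρ t := by
  have e := h.pf_T g g 1
  have e2 : (ρ g * ρ g + 1, SQ ρ t g) = (ρ g * (ρ g + ρ g⁻¹) * ρ 1, ρ g * t g * ρ 1) := by
    refine Prod.ext ?_ ?_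
    · show ρ g * ρ g + 1 = ρ g * (ρ g + ρ g⁻¹) * ρ 1
      try rw [← sub_eq_zero]
      simp only [LPD.hsub h, LPD.hneg h, mul_add, add_mul, mul_assoc, mul_one, one_mul, mul_zero, zero_mul, map_mul,
        mul_inv_rev, inv_inv, inv_one, map_one, LPD.rinv h, LPD.linv h, LPD.rinv' h, LPD.linv' h, add_zero, zero_add,
        mul_inv_cancel, inv_mul_cancel, mul_inv_cancel_left, inv_mul_cancel_left, sub_zero, neg_zero, LPD.a1 h, LPD.inv h]
      try abel_nf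
      try simp only [LPD.z2 h, LPD.z4 h, LPD.z6 h, LPD.z8 h, add_zero, zero_add]
    · show SQ ρ t g = ρ g * t g * ρ 1
      unfold SQ
      try rw [← sub_eq_zero]
      simp only [LPD.hsub h, LPD.hneg h, mul_add, add_mul, mul_assoc, mul_one, one_mul, mul_zero, zero_mul, map_mul,
        mul_inv_rev, inv_inv, inv_one, map_one, LPD.rinv h, LPD.linv h, LPD.rinv' h, LPD.linv' h, add_zero, zero_add,
        mul_inv_cancel, inv_mul_cancel, mul_inv_cancel_left, inv_mul_cancel_left, sub_zero, neg_zero, LPD.a1 h, LPD.inv h]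
      try abel_nf
      try simp only [LPD.z2 h, LPD.z4 h, LPD.z6 h, LPD.z8 h, add_zero, zero_add]
  rw [e2]
  exact e

/-- (c6) for two commutators etc. -/
theorem c6CC (h : LPD ρ t) (a b f c d : G) :
    CC ρ t a b * ρ f * (ρ c * ρ d + ρ d * ρ c) = (ρ a * ρ b + ρ b * ρ a) * ρ f * CC ρ t c d :=
  h.c6 (h.pf_C a b) (h.pf_C c d) f

theorem c6CS (h : LPD ρ t) (a b f c : G) :
    CC ρ t a b * ρ f * (ρ c * ρ c + 1) = (ρ a * ρ b + ρ b * ρ a) * ρ f * SQ ρ t c :=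
  h.c6 (h.pf_C a b) (h.pf_S c) f

theorem c6SC (h : LPD ρ t) (a f c d : G) :
    SQ ρ t a * ρ f * (ρ c * ρ d + ρ d * ρ c) = (ρ a * ρ a + 1) * ρ f * CC ρ t c d :=
  h.c6 (h.pf_S a) (h.pf_C c d) f

theorem c6SS (h : LPD ρ t) (a f c : G) :
    SQ ρ t a * ρ f * (ρ c * ρ c + 1) = (ρ a * ρ a + 1) * ρ f * SQ ρ t c :=
  h.c6 (h.pf_S a) (h.pf_S c) f

/-- (A) -/
theorem c7A (h : LPD ρ t) (a b c : G) :
    t (a * b * c) + t (a * c * b) = ρ a * CC ρ t b c + CC ρ t b⁻¹ c⁻¹ * ρ a⁻¹ := by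
  have e1 := h.a3 a (b * c)
  have e2 := h.a3 (a * c⁻¹) b
  have e3 := h.c3 (b * a * c⁻¹) b⁻¹
  have e4 := h.a3 (b * a) c
  have e5 := h.c3 (b * a * c) b⁻¹
  have e6 := h.a4 c b
  have e7 := h.c1 b⁻¹ c⁻¹
  have f3 : b⁻¹ * (b * a * c⁻¹) * b⁻¹⁻¹ = a * c⁻¹ * b := by group
  have f5 : b⁻¹ * (b * a * c) * b⁻¹⁻¹ = a * c * b := by group
  rw [f3] at e3
  rw [f5] at e5
  have e8 : t (c⁻¹ * b⁻¹) = t (b * c) := by rw [← h.inv (b * c), mul_inv_rev]
  unfold CC at e7 ⊢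
  linear_combination (norm := skip) e1 + e2 + e3 + ρ b⁻¹ * e4 * ρ b + e5 + ρ a * e6 + e7 * ρ a⁻¹ + e8 * ρ a⁻¹
  try rw [← sub_eq_zero]
  simp only [LPD.hsub h, LPD.hneg h, mul_add, add_mul, mul_assoc, mul_one, one_mul, mul_zero, zero_mul, map_mul,
    mul_inv_rev, inv_inv, inv_one, map_one, LPD.rinv h, LPD.linv h, LPD.rinv' h, LPD.linv' h, add_zero, zero_add,
    mul_inv_cancel, inv_mul_cancel, mul_inv_cancel_left, inv_mul_cancel_left, sub_zero, neg_zero, LPD.a1 h, LPD.inv h]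
  try abel_nf
  try simp only [LPD.z2 h, LPD.z4 h, LPD.z6 h, LPD.z8 h, add_zero, zero_add]

/-- (B) -/
theorem c7B (h : LPD ρ t) (u v g : G) :
    t (u * v * g) + t (v * u * g) = CC ρ t u v * ρ g + ρ g⁻¹ * CC ρ t u⁻¹ v⁻¹ := by
  have e1 := h.c7A g u v
  have e2 := h.c3 (g * u * v) g⁻¹
  have e3 := h.c3 (g * v * u) g⁻¹
  have f2 : g⁻¹ * (g * u * v) * g⁻¹⁻¹ = u * v * g := by group
  have f3 : g⁻¹ * (g * v * u) * g⁻¹⁻¹ = v * u * g := by group
  rw [f2] at e2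
  rw [f3] at e3
  linear_combination (norm := skip) e2 + e3 + ρ g⁻¹ * e1 * ρ g
  try rw [← sub_eq_zero]
  simp only [LPD.hsub h, LPD.hneg h, mul_add, add_mul, mul_assoc, mul_one, one_mul, mul_zero, zero_mul, map_mul,
    mul_inv_rev, inv_inv, inv_one, map_one, LPD.rinv h, LPD.linv h, LPD.rinv' h, LPD.linv' h, add_zero, zero_add,
    mul_inv_cancel, inv_mul_cancel, mul_inv_cancel_left, inv_mul_cancel_left, sub_zero, neg_zero, LPD.a1 h, LPD.inv h]
  try abel_nf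
  try simp only [LPD.z2 h, LPD.z4 h, LPD.z6 h, LPD.z8 h, add_zero, zero_add]

/-- (Jac) -/
theorem jac (h : LPD ρ t) (u v g : G) :
    ρ u * CC ρ t v g + CC ρ t v g * ρ u + (ρ v * CC ρ t u g + CC ρ t u g * ρ v)
      + (ρ g * CC ρ t u v + CC ρ t u v * ρ g) = 0 := by
  have e1 := h.a5' u v g
  have e2 := h.a5' v u g
  have e3 := h.c7B u v g
  have e4 := h.c7B u v 1
  have e5 := h.c6 (h.pf_T 1 g 1) (h.pf_C u⁻¹ v⁻¹) 1
  change ρ 1 * t g * ρ 1 * ρ 1 * (ρ u⁻¹ * ρ v⁻¹ + ρ v⁻¹ * ρ u⁻¹) = ρ 1 * (ρ g + ρ g⁻¹) * ρ 1 * ρ 1 * CC ρ t u⁻¹ v⁻¹ at e5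
  have e6 : CC ρ t (u * v) g = t (u * v * g) + ρ g * t (u * v) + t g * ρ (u * v)⁻¹ := rfl
  have e7 : CC ρ t (v * u) g = t (v * u * g) + ρ g * t (v * u) + t g * ρ (v * u)⁻¹ := rfl
  linear_combination (norm := skip) e1 + e2 + e3 + ρ g * e4 + e5 + e6 + e7
  try rw [← sub_eq_zero]
  simp only [LPD.hsub h, LPD.hneg h, mul_add, add_mul, mul_assoc, mul_one, one_mul, mul_zero, zero_mul, map_mul,
    mul_inv_rev, inv_inv, inv_one, map_one, LPD.rinv h, LPD.linv h, LPD.rinv' h, LPD.linv' h, add_zero, zero_add,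
    mul_inv_cancel, inv_mul_cancel, mul_inv_cancel_left, inv_mul_cancel_left, sub_zero, neg_zero, LPD.a1 h, LPD.inv h]
  try abel_nf
  try simp only [LPD.z2 h, LPD.z4 h, LPD.z6 h, LPD.z8 h, add_zero, zero_add]

end LPD

end E4.LP
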