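import Pool.Agent.Lib.MP_8a95e3_al.LP1

/-!
# LP2 : the compatibility of the left and the right action (helper63, section 1.2)
-/

namespace E4.LP

/-- `a` or `1` -/
def pw {G : Type*} [Group G] (a : G) (e : Bool) : G := if e then a else 1

def lam {G S : Type*} [Group G] [Ring S] (ρ : G →* S) (t : G → S) (a g1 : G) (e : Bool) (g3 : G) : S :=
  CC ρ t a g1 * ρ (pw a e) * ρ g3 + (if e then ρ g1 * SQ ρ t a * ρ g3 else 0)

def rr {G S : Type*} [Group G] [Ring S] (ρ : G →* S) (t : G → S) (g1 : G) (e : Bool) (a g3 : G) : S :=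
  ρ g1 * ρ (pw a e) * CC ρ t g3 a + (if e then ρ g1 * SQ ρ t a * ρ g3 else 0)

namespace LPD

variable {G S : Type*} [Group G] [Ring S] {ρ : G →* S} {t : G → S}

theorem sqc (h : LPD ρ t) (a : G) : ρ a * SQ ρ t a = SQ ρ t a * ρ a := by
  unfold SQ
  linear_combination (norm := skip) ρ a * h.a2 a
  try rw [← sub_eq_zero]
  simp only [LPD.hsub h, LPD.hneg h, mul_add, add_mul, mul_assoc, mul_one, one_mul, mul_zero, zero_mul, map_mul,
    mul_inv_rev, inv_inv, inv_one, map_one, LPD.rinv h, LPD.linv h, LPD.rinv' h, LPD.linv' h, add_zero, zero_add,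
    mul_inv_cancel, inv_mul_cancel, mul_inv_cancel_left, inv_mul_cancel_left, sub_zero, neg_zero, LPD.a1 h, LPD.inv h]
  try abel_nf
  try simp only [LPD.z2 h, LPD.z4 h, LPD.z6 h, LPD.z8 h, add_zero, zero_add]

theorem cc_lt (h : LPD ρ t) (a b g1 g2 g3 : G) (e f : Bool) :
    lam ρ t a g1 e (g2 * pw b f * g3) * ρ b + lam ρ t a g1 e (g2 * pw b (!f) * g3)
      = ρ a * rr ρ t (g1 * pw a e * g2) f b g3 + rr ρ t (g1 * pw a (!e) * g2) f b g3 := by
  cases e <;> cases f <;> simp only [lam, rr, pw, Bool.not_false, Bool.not_true, if_true, if_false, Bool.false_eq_true]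
  · linear_combination (norm := skip) h.c6CC a g1 g2 g3 b
    try rw [← sub_eq_zero]
    simp only [LPD.hsub h, LPD.hneg h, mul_add, add_mul, mul_assoc, mul_one, one_mul, mul_zero, zero_mul, map_mul,
      mul_inv_rev, inv_inv, inv_one, map_one, LPD.rinv h, LPD.linv h, LPD.rinv' h, LPD.linv' h, add_zero, zero_add,
      mul_inv_cancel, inv_mul_cancel, mul_inv_cancel_left, inv_mul_cancel_left, sub_zero, neg_zero, LPD.a1 h, LPD.inv h]
    try abel_nf
    try simp only [LPD.z2 h, LPD.z4 h, LPD.z6 h, LPD.z8 h, add_zero, zero_add]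
  · linear_combination (norm := skip) h.c6CC a g1 (g2 * b) g3 b + h.c6CS a g1 g2 b * ρ g3
    try rw [← sub_eq_zero]
    simp only [LPD.hsub h, LPD.hneg h, mul_add, add_mul, mul_assoc, mul_one, one_mul, mul_zero, zero_mul, map_mul,
      mul_inv_rev, inv_inv, inv_one, map_one, LPD.rinv h, LPD.linv h, LPD.rinv' h, LPD.linv' h, add_zero, zero_add,
      mul_inv_cancel, inv_mul_cancel, mul_inv_cancel_left, inv_mul_cancel_left, sub_zero, neg_zero, LPD.a1 h, LPD.inv h]
    try abel_nf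
    try simp only [LPD.z2 h, LPD.z4 h, LPD.z6 h, LPD.z8 h, add_zero, zero_add]
  · linear_combination (norm := skip) h.c6CC a g1 (a * g2) g3 b + ρ g1 * h.c6SC a g2 g3 b
    try rw [← sub_eq_zero]
    simp only [LPD.hsub h, LPD.hneg h, mul_add, add_mul, mul_assoc, mul_one, one_mul, mul_zero, zero_mul, map_mul,
      mul_inv_rev, inv_inv, inv_one, map_one, LPD.rinv h, LPD.linv h, LPD.rinv' h, LPD.linv' h, add_zero, zero_add,
      mul_inv_cancel, inv_mul_cancel, mul_inv_cancel_left, inv_mul_cancel_left, sub_zero, neg_zero, LPD.a1 h, LPD.inv h]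
    try abel_nf
    try simp only [LPD.z2 h, LPD.z4 h, LPD.z6 h, LPD.z8 h, add_zero, zero_add]
  · linear_combination (norm := skip) h.c6CC a g1 (a * g2 * b) g3 b + h.c6CS a g1 (a * g2) b * ρ g3
      + ρ g1 * h.c6SC a (g2 * b) g3 b + ρ g1 * h.c6SS a g2 b * ρ g3
    try rw [← sub_eq_zero]
    simp only [LPD.hsub h, LPD.hneg h, mul_add, add_mul, mul_assoc, mul_one, one_mul, mul_zero, zero_mul, map_mul,
      mul_inv_rev, inv_inv, inv_one, map_one, LPD.rinv h, LPD.linv h, LPD.rinv' h, LPD.linv' h, add_zero, zero_add,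
      mul_inv_cancel, inv_mul_cancel, mul_inv_cancel_left, inv_mul_cancel_left, sub_zero, neg_zero, LPD.a1 h, LPD.inv h]
    try abel_nf
    try simp only [LPD.z2 h, LPD.z4 h, LPD.z6 h, LPD.z8 h, add_zero, zero_add]

theorem cc_eq (h : LPD ρ t) (a g1 g3 : G) (e : Bool) :
    lam ρ t a g1 e g3 * ρ a + lam ρ t a g1 (!e) g3
      = ρ a * rr ρ t g1 e a g3 + rr ρ t g1 (!e) a g3 := by
  cases e <;> simp only [lam, rr, pw, Bool.not_false, Bool.not_true, if_true, if_false, Bool.false_eq_true]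
  · linear_combination (norm := skip) h.c6CC a g1 1 g3 a
    try rw [← sub_eq_zero]
    simp only [LPD.hsub h, LPD.hneg h, mul_add, add_mul, mul_assoc, mul_one, one_mul, mul_zero, zero_mul, map_mul,
      mul_inv_rev, inv_inv, inv_one, map_one, LPD.rinv h, LPD.linv h, LPD.rinv' h, LPD.linv' h, add_zero, zero_add,
      mul_inv_cancel, inv_mul_cancel, mul_inv_cancel_left, inv_mul_cancel_left, sub_zero, neg_zero, LPD.a1 h, LPD.inv h]
    try abel_nf
    try simp only [LPD.z2 h, LPD.z4 h, LPD.z6 h, LPD.z8 h, add_zero, zero_add]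
  · linear_combination (norm := skip) h.c6CC a g1 a g3 a + h.c6CS a g1 1 a * ρ g3 + ρ g1 * h.c6SC a 1 g3 a
      + ρ g1 * h.sqc a * ρ g3
    try rw [← sub_eq_zero]
    simp only [LPD.hsub h, LPD.hneg h, mul_add, add_mul, mul_assoc, mul_one, one_mul, mul_zero, zero_mul, map_mul,
      mul_inv_rev, inv_inv, inv_one, map_one, LPD.rinv h, LPD.linv h, LPD.rinv' h, LPD.linv' h, add_zero, zero_add,
      mul_inv_cancel, inv_mul_cancel, mul_inv_cancel_left, inv_mul_cancel_left, sub_zero, neg_zero, LPD.a1 h, LPD.inv h]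
    try abel_nf
    try simp only [LPD.z2 h, LPD.z4 h, LPD.z6 h, LPD.z8 h, add_zero, zero_add]

theorem cc_gt (h : LPD ρ t) (u v p g q : G) (e f : Bool) :
    lam ρ t u (p * pw v f * g) e q * ρ v + lam ρ t u (p * pw v (!f) * g) e q
      = ρ u * rr ρ t p f v (g * pw u e * q) + rr ρ t p f v (g * pw u (!e) * q) := by
  cases e <;> cases f <;> simp only [lam, rr, pw, Bool.not_false, Bool.not_true, if_true, if_false, Bool.false_eq_true,
    mul_one]
  · have e1 := h.c6CC u p 1 (g * q) v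
    have e2 := h.c6CC u g 1 q v
    have e3 := h.jac u v g
    have e4 := h.c1 v g
    simp only [h.a5, h.a5'] at e1 e2 ⊢
    linear_combination (norm := skip) e1 + ρ p * e2 + ρ p * e3 * ρ q + ρ p * ρ u * e4 * ρ q + ρ p * e4 * ρ u * ρ q
    try rw [← sub_eq_zero]
    simp only [LPD.hsub h, LPD.hneg h, mul_add, add_mul, mul_assoc, mul_one, one_mul, mul_zero, zero_mul, map_mul,
      mul_inv_rev, inv_inv, inv_one, map_one, LPD.rinv h, LPD.linv h, LPD.rinv' h, LPD.linv' h, add_zero, zero_add,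
      mul_inv_cancel, inv_mul_cancel, mul_inv_cancel_left, inv_mul_cancel_left, sub_zero, neg_zero, LPD.a1 h, LPD.inv h]
    try abel_nf
    try simp only [LPD.z2 h, LPD.z4 h, LPD.z6 h, LPD.z8 h, add_zero, zero_add]
  · have e1 := h.c6CC u p v (g * q) v
    have e1' := h.c6CS u p 1 v
    have e2 := h.c6CC u (v * g) 1 q v
    have e3 := h.jac u v g
    have e4 := h.c6CC u v 1 g v
    have e5 := h.c5 v u
    have e6 := h.c6SC v 1 u g
    rw [h.c1 v g] at e3
    rw [h.c1 v u] at e5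
    simp only [h.a5, h.a5'] at e1 e2 e3 e4 e5 e6 ⊢
    linear_combination (norm := skip) e1 + e1' * ρ g * ρ q + ρ p * e2 + ρ p * ρ v * e3 * ρ q + ρ p * e4 * ρ q
      + ρ p * e5 * ρ g * ρ q + ρ p * e6 * ρ q
    try rw [← sub_eq_zero]
    simp only [LPD.hsub h, LPD.hneg h, mul_add, add_mul, mul_assoc, mul_one, one_mul, mul_zero, zero_mul, map_mul,
      mul_inv_rev, inv_inv, inv_one, map_one, LPD.rinv h, LPD.linv h, LPD.rinv' h, LPD.linv' h, add_zero, zero_add,
      mul_inv_cancel, inv_mul_cancel, mul_inv_cancel_left, inv_mul_cancel_left, sub_zero, neg_zero, LPD.a1 h, LPD.inv h]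
    try abel_nf
    try simp only [LPD.z2 h, LPD.z4 h, LPD.z6 h, LPD.z8 h, add_zero, zero_add]
  · have e1 := h.c6CC u p 1 (g * u * q) v
    have e2 := h.c6CC u g u q v
    have e2' := h.c6SC u 1 q v
    have e3 := h.jac u v g
    have e4 := h.c6CC u g 1 u v
    have e5 := h.c5 u v
    have e6 := h.c6CS g v 1 u
    rw [h.c1 v g] at e3
    simp only [h.a5, h.a5'] at e1 e2 e3 e4 e5 e6 ⊢
    linear_combination (norm := skip) e1 + ρ p * e2 + ρ p * ρ g * e2' + ρ p * e3 * ρ u * ρ q + ρ p * e4 * ρ q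
      + ρ p * ρ g * e5 * ρ q + ρ p * e6 * ρ q
    try rw [← sub_eq_zero]
    simp only [LPD.hsub h, LPD.hneg h, mul_add, add_mul, mul_assoc, mul_one, one_mul, mul_zero, zero_mul, map_mul,
      mul_inv_rev, inv_inv, inv_one, map_one, LPD.rinv h, LPD.linv h, LPD.rinv' h, LPD.linv' h, add_zero, zero_add,
      mul_inv_cancel, inv_mul_cancel, mul_inv_cancel_left, inv_mul_cancel_left, sub_zero, neg_zero, LPD.a1 h, LPD.inv h]
    try abel_nf
    try simp only [LPD.z2 h, LPD.z4 h, LPD.z6 h, LPD.z8 h, add_zero, zero_add]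
  · have e1 := h.c6CC u p v (g * u * q) v
    have e1' := h.c6CS u p 1 v
    have e2 := h.c6CC u (v * g) u q v
    have e2' := h.c6SC u 1 q v
    have e3 := h.jac u v g
    have e4 := h.c6CC u g 1 u v
    have e5 := h.c5 u v
    have e6 := h.c6CS g v 1 u
    have f1 := h.c6CC u v g u v
    have f2 := h.c6CC u v 1 g v
    have f3 := h.c6SC v 1 u g
    have f4 := h.c6SS v g u
    have f5 := h.c5 v u
    rw [h.c1 v g] at e3
    rw [h.c1 v u] at f5
    simp only [h.a5, h.a5'] at e1 e2 e3 e4 e5 e6 f1 f2 f3 f4 f5 ⊢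
    linear_combination (norm := skip) e1 + e1' * ρ g * ρ u * ρ q + ρ p * e2 + ρ p * ρ v * ρ g * e2'
      + ρ p * ρ v * (e3 * ρ u + e4 + ρ g * e5 + e6) * ρ q
      + ρ p * (f1 + f2 * ρ u + f3 * ρ u + f4 + f5 * ρ g * ρ u) * ρ q
    try rw [← sub_eq_zero]
    simp only [LPD.hsub h, LPD.hneg h, mul_add, add_mul, mul_assoc, mul_one, one_mul, mul_zero, zero_mul, map_mul,
      mul_inv_rev, inv_inv, inv_one, map_one, LPD.rinv h, LPD.linv h, LPD.rinv' h, LPD.linv' h, add_zero, zero_add,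
      mul_inv_cancel, inv_mul_cancel, mul_inv_cancel_left, inv_mul_cancel_left, sub_zero, neg_zero, LPD.a1 h, LPD.inv h]
    try abel_nf
    try simp only [LPD.z2 h, LPD.z4 h, LPD.z6 h, LPD.z8 h, add_zero, zero_add]

end LPD

end E4.LP
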