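import Pool.Agent.Lib.MP_8a95e3_al.NArg2

/-!
# TId : T-ideals of the integral group ring of `F`
-/

namespace E4

/-- the integral group ring of `F` -/
abbrev FA : Type := MonoidAlgebra ℤ F

/-- inclusion of `F` -/
noncomputable def ofF : F →* FA := MonoidAlgebra.of ℤ F

/-- extension of a representation to the group ring -/
noncomputable def ev {A : Type*} [Ring A] (ρ : F →* A) : FA →+* A :=
  (MonoidAlgebra.lift ℤ A F ρ : FA →ₐ[ℤ] A).toRingHom

/-- action of an endomorphism of `F` on the group ring -/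
noncomputable def eA (φ : F →* F) : FA →+* FA := MonoidAlgebra.mapDomainRingHom ℤ φ

/-- the endomorphism `x_j ↦ x_{2j+i}` (used for `i = 0, 1`) -/
noncomputable def ee (i : ℕ) : F →* F := FreeGroup.lift (fun j => x (2 * j + i))

/-- T-ideals -/
structure TIdl (P : AddSubgroup FA) : Prop where
  left : ∀ a : FA, ∀ p ∈ P, a * p ∈ P
  right : ∀ a : FA, ∀ p ∈ P, p * a ∈ P
  endo : ∀ φ : F →* F, ∀ p ∈ P, eA φ p ∈ P
  two : (2 : FA) ∈ P
  cube : ∀ h : F, X ofF h ^ 3 ∈ P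

theorem ev_of {A : Type*} [Ring A] (ρ : F →* A) (g : F) : ev ρ (ofF g) = ρ g := by
  show MonoidAlgebra.lift ℤ A F ρ (MonoidAlgebra.of ℤ F g) = ρ g
  rw [MonoidAlgebra.lift_of]

theorem eA_of (φ : F →* F) (g : F) : eA φ (ofF g) = ofF (φ g) := by
  simp only [eA, ofF, MonoidAlgebra.of_apply, MonoidAlgebra.mapDomainRingHom_apply, MonoidAlgebra.mapDomain_single]

/-- `ev ρ (eA φ p) = ev (ρ ∘ φ) p`.  PROOF: both sides are ring homomorphisms in `p` that agree on `ofF g` (and `ℤ`); `MonoidAlgebra` induction. -/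
theorem ev_eA {A : Type*} [Ring A] (ρ : F →* A) (φ : F →* F) (p : FA) :
    ev ρ (eA φ p) = ev (ρ.comp φ) p := by
  induction p using MonoidAlgebra.induction_on with
  | of g =>
    show ev ρ (eA φ (ofF g)) = ev (ρ.comp φ) (ofF g)
    rw [eA_of, ev_of, ev_of]
    rfl
  | add a b ha hb => rw [map_add, map_add, map_add, ha, hb]
  | smul r a ha => rw [map_zsmul, map_zsmul, map_zsmul, ha]

/-- every element of `FA` is in the additive closure of `ofF(F)`. PROOF: an element is a finite sum of integer multiples of `ofF g`. -/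
theorem fa_spn : Spn ofF := by
  unfold Spn
  rw [eq_top_iff]
  intro p _
  induction p using MonoidAlgebra.induction_on with
  | of g => exact AddSubgroup.subset_closure ⟨g, rfl⟩
  | add a b ha hb => exact add_mem (ha trivial) (hb trivial)
  | smul r a ha => exact zsmul_mem (ha trivial) r

/-- `ev ρ (wA ofF m) = wA ρ m`. PROOF: `map_list_prod`, `ev_of`. -/
theorem ev_wA {A : Type*} [Ring A] (ρ : F →* A) (m : ℕ) : ev ρ (wA ofF m) = wA ρ m := by
  unfold wA
  rw [map_list_prod, List.map_map]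
  congr 1
  refine List.map_congr_left fun i _ => ?_
  simp only [Function.comp_apply, X]
  rw [map_add, map_one, ev_of]

/-- the T-ideal of a verbal subgroup: all elements which vanish in all cubic representations of `F` trivial on `V` -/
noncomputable def JV (V : Subgroup F) : AddSubgroup FA where
  carrier := {p | ∀ (R : Type) (_ : Ring R) (ρ : F →* R), Cub ρ → (∀ v ∈ V, ρ v = 1) → ev ρ p = 0}
  add_mem' := by
    intro a b ha hb R _ ρ h1 h2
    rw [map_add, ha R _ ρ h1 h2, hb R _ ρ h1 h2, add_zero]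
  zero_mem' := by
    intro R _ ρ _ _
    exact map_zero _
  neg_mem' := by
    intro a ha R _ ρ h1 h2
    rw [map_neg, ha R _ ρ h1 h2, neg_zero]

/-- PROOF.  `endo`: `ev ρ (eA φ p) = ev (ρ ∘ φ) p`, and `ρ ∘ φ` is cubic and trivial on `V` (as `φ(V) ≤ V`).  `two`: `ev ρ 2 = 2 = 0`.  `cube`: `ev ρ (X ofF h) = X ρ h`. -/
theorem JV_tidl (V : Subgroup F) (hV : Verb4 V) : TIdl (JV V) where
  left := by
    intro a p hp R _ ρ h1 h2
    rw [map_mul, hp R _ ρ h1 h2, mul_zero]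
  right := by
    intro a p hp R _ ρ h1 h2
    rw [map_mul, hp R _ ρ h1 h2, zero_mul]
  endo := by
    intro φ p hp R _ ρ h1 h2
    rw [ev_eA]
    refine hp R _ (ρ.comp φ) ⟨h1.two, fun h => h1.cube (φ h)⟩ fun v hv => ?_
    exact h2 _ (hV.endo φ v hv)
  two := by
    intro R _ ρ h1 _
    rw [map_ofNat]
    exact h1.two
  cube := by
    intro h R _ ρ h1 _
    have h3 : ev ρ (X ofF h) = X ρ h := by
      unfold X
      rw [map_add, map_one, ev_of]
    rw [map_pow, h3]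
    exact h1.cube h

/-- PROOF: `ev ρ (X ofF v) = ρ v + 1 = 1 + 1 = 0`. -/
theorem JV_mem (V : Subgroup F) (v : F) (hv : v ∈ V) : X ofF v ∈ JV V := by
  intro R _ ρ h1 h2
  unfold X
  rw [map_add, map_one, ev_of, h2 v hv, one_add_one_eq_two]
  exact h1.two

/-- PROOF: contrapositive of `narg` (and `ev_wA`). -/
theorem JV_w (V : Subgroup F) (hV : Verb4 V) (hns : ¬ Sol V) (m : ℕ) : wA ofF m ∉ JV V := by
  intro h
  apply hns
  refine narg V hV m fun R _ ρ h1 h2 => ?_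
  rw [← ev_wA]
  exact h R _ ρ h1 h2

/-- **Zorn.**  PROOF: the set of T-ideals `Q ⊇ JV V` with `wA ofF m ∉ Q` for all `m`, ordered by inclusion; the union of a nonempty chain of such is such (`zorn_le_nonempty₀`; supremum of a chain of additive subgroups = union,
`AddSubgroup.mem_sSup_of_directedOn`). -/
theorem exists_max (V : Subgroup F) (hV : Verb4 V) (hns : ¬ Sol V) :
    ∃ P : AddSubgroup FA, TIdl P ∧ (∀ v ∈ V, X ofF v ∈ P) ∧ (∀ m, wA ofF m ∉ P) ∧
      ∀ Q : AddSubgroup FA, TIdl Q → P ≤ Q → (∀ m, wA ofF m ∉ Q) → Q ≤ P := by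
  let S : Set (AddSubgroup FA) := {Q | TIdl Q ∧ JV V ≤ Q ∧ ∀ m, wA ofF m ∉ Q}
  have hJ : JV V ∈ S := ⟨JV_tidl V hV, le_rfl, JV_w V hV hns⟩
  obtain ⟨P, -, hP⟩ := zorn_le_nonempty₀ S (fun c hcS hc y hy => by
    have hdir : DirectedOn (· ≤ ·) c := hc.directedOn
    have hne : c.Nonempty := ⟨y, hy⟩
    have hmem : ∀ {z : FA}, z ∈ sSup c ↔ ∃ Q ∈ c, z ∈ Q := AddSubgroup.mem_sSup_of_directedOn hne hdir
    refine ⟨sSup c, ⟨?_, ?_, ?_⟩, fun z hz => le_sSup hz⟩
    · constructor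
      · intro a p hp
        obtain ⟨Q, hQ, hpQ⟩ := hmem.1 hp
        exact hmem.2 ⟨Q, hQ, (hcS hQ).1.left a p hpQ⟩
      · intro a p hp
        obtain ⟨Q, hQ, hpQ⟩ := hmem.1 hp
        exact hmem.2 ⟨Q, hQ, (hcS hQ).1.right a p hpQ⟩
      · intro φ p hp
        obtain ⟨Q, hQ, hpQ⟩ := hmem.1 hp
        exact hmem.2 ⟨Q, hQ, (hcS hQ).1.endo φ p hpQ⟩
      · exact hmem.2 ⟨y, hy, (hcS hy).1.two⟩
      · intro h
        exact hmem.2 ⟨y, hy, (hcS hy).1.cube h⟩
    · exact (hcS hy).2.1.trans (le_sSup hy)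
    · intro m hm
      obtain ⟨Q, hQ, hpQ⟩ := hmem.1 hm
      exact (hcS hQ).2.2 m hpQ) (JV V) hJ
  refine ⟨P, hP.prop.1, fun v hv => hP.prop.2.1 (JV_mem V v hv), hP.prop.2.2, fun Q hQ hPQ hw => ?_⟩
  exact hP.le_of_ge ⟨hQ, hP.prop.2.1.trans hPQ, hw⟩ hPQ

end E4
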