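import Pool.Agent.Lib.MP_8a95e3_al.LP2
import Pool.Agent.Lib.MP_8a95e3_al.TId

/-!
# LP3 : Lemma P, the two commuting actions of the free group
-/

namespace E4.LP

open E4

/-- the `i`-th factor of the ordered product `x_T` -/
def fl (T : Finset ℕ) (i : ℕ) : F := pw (x i) (decide (i ∈ T))

/-- the part of the ordered product with `a ≤ i < b` -/
def seg (T : Finset ℕ) (a b : ℕ) : F := ((List.range' a (b - a)).map (fl T)).prod

def bd (T : Finset ℕ) : ℕ := T.sup id + 1

def lo (k : ℕ) (T : Finset ℕ) : F := seg T 0 k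

def hi (k : ℕ) (T : Finset ℕ) : F := seg T (k + 1) (bd T)

def tg (T : Finset ℕ) (k : ℕ) : Finset ℕ := symmDiff T {k}

theorem mem_tg {T : Finset ℕ} {k i : ℕ} : i ∈ tg T k ↔ (i ∈ T ∧ i ≠ k ∨ i = k ∧ i ∉ T) := by
  unfold tg
  rw [Finset.mem_symmDiff, Finset.mem_singleton]

theorem dec_ne (T : Finset ℕ) {k i : ℕ} (h : i ≠ k) : decide (i ∈ tg T k) = decide (i ∈ T) := by
  rw [decide_eq_decide, mem_tg]
  tauto

theorem dec_eq (T : Finset ℕ) (k : ℕ) : decide (k ∈ tg T k) = !decide (k ∈ T) := by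
  rw [← decide_not, decide_eq_decide, mem_tg]
  tauto

theorem fl_ne (T : Finset ℕ) {k i : ℕ} (h : i ≠ k) : fl (tg T k) i = fl T i := by
  unfold fl
  rw [dec_ne T h]

theorem fl_eq (T : Finset ℕ) (k : ℕ) : fl (tg T k) k = pw (x k) (!decide (k ∈ T)) := by
  unfold fl
  rw [dec_eq]

theorem fl_one {T : Finset ℕ} {i : ℕ} (h : i ∉ T) : fl T i = 1 := by
  unfold fl pw
  rw [decide_eq_false h]
  rfl

theorem seg_congr {T T' : Finset ℕ} {a b : ℕ} (h : ∀ i, a ≤ i → i < b → fl T i = fl T' i) : seg T a b = seg T' a b := by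
  unfold seg
  congr 1
  refine List.map_congr_left fun i hi => ?_
  rw [List.mem_range'_1] at hi
  exact h i hi.1 (by omega)

theorem seg_split (T : Finset ℕ) {a b c : ℕ} (h1 : a ≤ b) (h2 : b ≤ c) : seg T a c = seg T a b * seg T b c := by
  unfold seg
  rw [← List.prod_append, ← List.map_append]
  congr 2
  have e : c - a = (b - a) + (c - b) := by omega
  rw [e, ← List.range'_append_1]
  congr 2
  omega

theorem seg_one (T : Finset ℕ) (a : ℕ) : seg T a (a + 1) = fl T a := by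
  unfold seg
  have e : a + 1 - a = 1 := by omega
  rw [e, List.range'_one, List.map_singleton, List.prod_singleton]

theorem seg_self (T : Finset ℕ) (a b : ℕ) (h : b ≤ a) : seg T a b = 1 := by
  unfold seg
  have e : b - a = 0 := by omega
  rw [e]
  rfl

theorem not_mem_of_bd {T : Finset ℕ} {i : ℕ} (h : bd T ≤ i) : i ∉ T := by
  intro hi
  have h1 : id i ≤ T.sup id := Finset.le_sup hi
  unfold bd at h
  have h2 : id i = i := rfl
  omega

theorem seg_triv {T : Finset ℕ} {a b : ℕ} (h : ∀ i, a ≤ i → i < b → i ∉ T) : seg T a b = 1 := by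
  unfold seg
  refine List.prod_eq_one fun y hy => ?_
  obtain ⟨i, hi, rfl⟩ := List.mem_map.1 hy
  rw [List.mem_range'_1] at hi
  exact fl_one (h i hi.1 (by omega))

theorem hi_eq (T : Finset ℕ) (k : ℕ) {N : ℕ} (h : bd T ≤ N) : hi k T = seg T (k + 1) N := by
  unfold hi
  rcases le_total (k + 1) (bd T) with h1 | h1
  · rw [seg_split T h1 h, seg_triv (a := bd T) (b := N) fun i h2 _ => not_mem_of_bd h2, mul_one]
  · rw [seg_self T _ _ h1, seg_triv fun i h2 _ => not_mem_of_bd (h1.trans h2)]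

theorem lo_tg (T : Finset ℕ) {k j : ℕ} (h : k ≤ j) : lo k (tg T j) = lo k T :=
  seg_congr fun i _ h2 => fl_ne T (by omega)

theorem hi_tg (T : Finset ℕ) {k j : ℕ} (h : k ≤ j) : hi j (tg T k) = hi j T := by
  have h1 : bd T ≤ max (bd T) (bd (tg T k)) := le_max_left _ _
  have h2 : bd (tg T k) ≤ max (bd T) (bd (tg T k)) := le_max_right _ _
  rw [hi_eq T j h1, hi_eq (tg T k) j h2]
  exact seg_congr fun i h3 _ => fl_ne T (by omega)

theorem lo_split (T : Finset ℕ) {k j : ℕ} (h : k < j) : lo j T = lo k T * fl T k * seg T (k + 1) j := by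
  unfold lo
  rw [seg_split T (Nat.zero_le k) h.le, seg_split T (Nat.le_succ k) h, seg_one, mul_assoc]

theorem hi_split (T : Finset ℕ) {k j : ℕ} (h : k < j) : hi k T = seg T (k + 1) j * fl T j * hi j T := by
  have h1 : bd T ≤ max (bd T) (j + 1) := le_max_left _ _
  have h2 : j + 1 ≤ max (bd T) (j + 1) := le_max_right _ _
  rw [hi_eq T k h1, hi_eq T j h1, seg_split T (show k + 1 ≤ j from h) (show j ≤ max (bd T) (j + 1) by omega),
    seg_split T (Nat.le_succ j) h2, seg_one, mul_assoc]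

theorem seg_tg_l (T : Finset ℕ) {k j : ℕ} : seg (tg T k) (k + 1) j = seg T (k + 1) j :=
  seg_congr fun i h1 _ => fl_ne T (by omega)

theorem seg_tg_r (T : Finset ℕ) {k j : ℕ} : seg (tg T j) k j = seg T k j :=
  seg_congr fun i _ h2 => fl_ne T (by omega)

variable {S : Type*} [Ring S]

/-- `λ_k(T)` -/
def lamT (ρ : F →* S) (t : F → S) (k : ℕ) (T : Finset ℕ) : S := lam ρ t (x k) (lo k T) (decide (k ∈ T)) (hi k T)

/-- `ρ_j(T)` -/
def rrT (ρ : F →* S) (t : F → S) (j : ℕ) (T : Finset ℕ) : S := rr ρ t (lo j T) (decide (j ∈ T)) (x j) (hi j T)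

/-- the compatibility (CC) -/
theorem comp_T {ρ : F →* S} {t : F → S} (h : LPD ρ t) (k j : ℕ) (T : Finset ℕ) :
    lamT ρ t k T * ρ (x j) + lamT ρ t k (tg T j) = ρ (x k) * rrT ρ t j T + rrT ρ t j (tg T k) := by
  unfold lamT rrT
  rcases lt_trichotomy k j with hkj | hkj | hkj
  · have e := h.cc_lt (x k) (x j) (lo k T) (seg T (k + 1) j) (hi j T) (decide (k ∈ T)) (decide (j ∈ T))
    rw [lo_tg T hkj.le, dec_ne T hkj.ne, hi_split T hkj, hi_split (tg T j) hkj, seg_tg_r, fl_eq, hi_tg T le_rfl,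
      hi_tg T hkj.le, dec_ne T hkj.ne', lo_split T hkj, lo_split (tg T k) hkj, lo_tg T le_rfl, fl_eq, seg_tg_l]
    exact e
  · subst hkj
    rw [lo_tg T le_rfl, dec_eq, hi_tg T le_rfl]
    exact h.cc_eq (x k) (lo k T) (hi k T) (decide (k ∈ T))
  · have e := h.cc_gt (x k) (x j) (lo j T) (seg T (j + 1) k) (hi k T) (decide (k ∈ T)) (decide (j ∈ T))
    rw [dec_ne T hkj.ne', hi_tg T hkj.le, lo_split T hkj, lo_split (tg T j) hkj, lo_tg T le_rfl, fl_eq, seg_tg_l,
      lo_tg T hkj.le, dec_ne T hkj.ne, hi_split T hkj, hi_split (tg T k) hkj, seg_tg_r, fl_eq, hi_tg T le_rfl]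
    exact e

end E4.LP
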