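import Pool.Agent.Lib.MP_8a95e3_al.LP3

/-!
# LP4 : Lemma P
-/

namespace E4.LP

open E4

variable {S : Type*} [Ring S]

theorem tg_tg (T : Finset ℕ) (k : ℕ) : tg (tg T k) k = T := by
  unfold tg
  rw [symmDiff_assoc, symmDiff_self, symmDiff_bot]

theorem tg_comm (T : Finset ℕ) (k j : ℕ) : tg (tg T k) j = tg (tg T j) k := by
  unfold tg
  rw [symmDiff_right_comm]

/-- left action of a letter -/
def Lk (ρ : F →* S) (t : F → S) (k : ℕ) : Equiv.Perm (S × Finset ℕ) where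
  toFun s := (ρ (x k) * s.1 + lamT ρ t k s.2, tg s.2 k)
  invFun s := (ρ (x k)⁻¹ * (s.1 - lamT ρ t k (tg s.2 k)), tg s.2 k)
  left_inv s := by
    refine Prod.ext ?_ (tg_tg _ _)
    show ρ (x k)⁻¹ * (ρ (x k) * s.1 + lamT ρ t k s.2 - lamT ρ t k (tg (tg s.2 k) k)) = s.1
    rw [tg_tg, add_sub_cancel_right, ← mul_assoc, ← map_mul, inv_mul_cancel, map_one, one_mul]
  right_inv s := by
    refine Prod.ext ?_ (tg_tg _ _)
    show ρ (x k) * (ρ (x k)⁻¹ * (s.1 - lamT ρ t k (tg s.2 k))) + lamT ρ t k (tg s.2 k) = s.1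
    rw [← mul_assoc, ← map_mul, mul_inv_cancel, map_one, one_mul, sub_add_cancel]

/-- right action of a letter -/
def Rk (ρ : F →* S) (t : F → S) (j : ℕ) : Equiv.Perm (S × Finset ℕ) where
  toFun s := (s.1 * ρ (x j) + rrT ρ t j s.2, tg s.2 j)
  invFun s := ((s.1 - rrT ρ t j (tg s.2 j)) * ρ (x j)⁻¹, tg s.2 j)
  left_inv s := by
    refine Prod.ext ?_ (tg_tg _ _)
    show (s.1 * ρ (x j) + rrT ρ t j s.2 - rrT ρ t j (tg (tg s.2 j) j)) * ρ (x j)⁻¹ = s.1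
    rw [tg_tg, add_sub_cancel_right, mul_assoc, ← map_mul, mul_inv_cancel, map_one, mul_one]
  right_inv s := by
    refine Prod.ext ?_ (tg_tg _ _)
    show (s.1 - rrT ρ t j (tg s.2 j)) * ρ (x j)⁻¹ * ρ (x j) + rrT ρ t j (tg s.2 j) = s.1
    rw [mul_assoc, ← map_mul, inv_mul_cancel, map_one, mul_one, sub_add_cancel]

theorem Lk_Rk {ρ : F →* S} {t : F → S} (h : LPD ρ t) (k j : ℕ) (s : S × Finset ℕ) :
    Lk ρ t k (Rk ρ t j s) = Rk ρ t j (Lk ρ t k s) := by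
  refine Prod.ext ?_ (tg_comm _ _ _)
  show ρ (x k) * (s.1 * ρ (x j) + rrT ρ t j s.2) + lamT ρ t k (tg s.2 j)
    = (ρ (x k) * s.1 + lamT ρ t k s.2) * ρ (x j) + rrT ρ t j (tg s.2 k)
  linear_combination (norm := skip) comp_T h k j s.2
  try rw [← sub_eq_zero]
  simp only [LPD.hsub h, LPD.hneg h, mul_add, add_mul, mul_assoc, mul_one, one_mul, mul_zero, zero_mul, map_mul,
    mul_inv_rev, inv_inv, inv_one, map_one, LPD.rinv h, LPD.linv h, LPD.rinv' h, LPD.linv' h, add_zero, zero_add,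
    mul_inv_cancel, inv_mul_cancel, mul_inv_cancel_left, inv_mul_cancel_left, sub_zero, neg_zero, LPD.a1 h, LPD.inv h]
  try abel_nf
  try simp only [LPD.z2 h, LPD.z4 h, LPD.z6 h, LPD.z8 h, add_zero, zero_add]

/-- the left action of the free group -/
def LL (ρ : F →* S) (t : F → S) : F →* Equiv.Perm (S × Finset ℕ) := FreeGroup.lift (Lk ρ t)

/-- the right action of the free group -/
def RR (ρ : F →* S) (t : F → S) : F →* (Equiv.Perm (S × Finset ℕ))ᵐᵒᵖ := FreeGroup.lift fun j => MulOpposite.op (Rk ρ t j)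

theorem LL_x (ρ : F →* S) (t : F → S) (k : ℕ) : LL ρ t (x k) = Lk ρ t k := by
  unfold LL x
  rw [FreeGroup.lift_apply_of]

theorem RR_x (ρ : F →* S) (t : F → S) (k : ℕ) : (RR ρ t (x k)).unop = Rk ρ t k := by
  unfold RR x
  rw [FreeGroup.lift_apply_of]
  rfl

theorem LL_mul (ρ : F →* S) (t : F → S) (u v : F) (s : S × Finset ℕ) : LL ρ t (u * v) s = LL ρ t u (LL ρ t v s) := by
  rw [map_mul]
  rfl

theorem RR_mul (ρ : F →* S) (t : F → S) (u v : F) (s : S × Finset ℕ) :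
    (RR ρ t (u * v)).unop s = (RR ρ t v).unop ((RR ρ t u).unop s) := by
  rw [map_mul]
  rfl

theorem LL_inv (ρ : F →* S) (t : F → S) (u : F) (s : S × Finset ℕ) : LL ρ t u⁻¹ (LL ρ t u s) = s := by
  rw [← LL_mul, inv_mul_cancel, map_one]
  rfl

theorem LL_inv' (ρ : F →* S) (t : F → S) (u : F) (s : S × Finset ℕ) : LL ρ t u (LL ρ t u⁻¹ s) = s := by
  rw [← LL_mul, mul_inv_cancel, map_one]
  rfl

theorem RR_inv (ρ : F →* S) (t : F → S) (u : F) (s : S × Finset ℕ) : (RR ρ t u⁻¹).unop ((RR ρ t u).unop s) = s := by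
  rw [← RR_mul, mul_inv_cancel, map_one]
  rfl

theorem RR_inv' (ρ : F →* S) (t : F → S) (u : F) (s : S × Finset ℕ) : (RR ρ t u).unop ((RR ρ t u⁻¹).unop s) = s := by
  rw [← RR_mul, inv_mul_cancel, map_one]
  rfl

/-- induction over the free group, multiplicative form -/
theorem f_ind {P : F → Prop} (h1 : P 1) (hx : ∀ i, P (x i)) (hi : ∀ i, P (x i) → P (x i)⁻¹)
    (hm : ∀ u v, P u → P v → P (u * v)) (u : F) : P u := by
  induction u using FreeGroup.induction_on with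
  | C1 => exact h1
  | of i => exact hx i
  | inv_of i _ => exact hi i (hx i)
  | mul u v hu hv => exact hm u v hu hv

theorem LL_RR {ρ : F →* S} {t : F → S} (h : LPD ρ t) (u v : F) (s : S × Finset ℕ) :
    LL ρ t u ((RR ρ t v).unop s) = (RR ρ t v).unop (LL ρ t u s) := by
  have h1 : ∀ (k : ℕ) (v : F) (s : S × Finset ℕ), LL ρ t (x k) ((RR ρ t v).unop s) = (RR ρ t v).unop (LL ρ t (x k) s) := by
    intro k v
    rw [LL_x]
    refine f_ind (P := fun v => ∀ s, Lk ρ t k ((RR ρ t v).unop s) = (RR ρ t v).unop (Lk ρ t k s)) ?_ ?_ ?_ ?_ v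
    · intro s
      rw [map_one]
      rfl
    · intro j s
      rw [RR_x]
      exact Lk_Rk h k j s
    · intro j hj s
      have e := hj ((RR ρ t (x j)⁻¹).unop s)
      rw [RR_inv'] at e
      rw [e, RR_inv]
    · intro u v hu hv s
      rw [RR_mul, RR_mul, hv, hu]
  refine f_ind (P := fun u => ∀ s, LL ρ t u ((RR ρ t v).unop s) = (RR ρ t v).unop (LL ρ t u s)) ?_ ?_ ?_ ?_ u s
  · intro s
    rw [map_one]
    rfl
  · exact fun k s => h1 k v s
  · intro k hk s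
    have e := hk (LL ρ t (x k)⁻¹ s)
    rw [LL_inv'] at e
    rw [← e, LL_inv]
  · intro u u' hu hu' s
    rw [LL_mul, LL_mul, hu', hu]

theorem lamT_empty {ρ : F →* S} {t : F → S} (h : LPD ρ t) (k : ℕ) : lamT ρ t k ∅ = 0 := by
  unfold lamT lam
  have e1 : lo k ∅ = 1 := seg_triv fun i _ _ => Finset.notMem_empty i
  have e2 : decide (k ∈ (∅ : Finset ℕ)) = false := decide_eq_false (Finset.notMem_empty k)
  rw [e1, e2, h.C_one_right]
  simp

theorem rrT_empty {ρ : F →* S} {t : F → S} (h : LPD ρ t) (k : ℕ) : rrT ρ t k ∅ = 0 := by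
  unfold rrT rr
  have e1 : hi k ∅ = 1 := seg_triv fun i _ _ => Finset.notMem_empty i
  have e2 : decide (k ∈ (∅ : Finset ℕ)) = false := decide_eq_false (Finset.notMem_empty k)
  rw [e1, e2, h.C_one_left]
  simp

/-- the base point -/
def m0 : S × Finset ℕ := (0, ∅)

theorem LL_m0 {ρ : F →* S} {t : F → S} (h : LPD ρ t) (u : F) :
    LL ρ t u m0 = (RR ρ t u).unop m0 := by
  refine f_ind (P := fun u => LL ρ t u m0 = (RR ρ t u).unop m0) ?_ ?_ ?_ ?_ u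
  · rw [map_one, map_one]
    rfl
  · intro k
    rw [LL_x, RR_x]
    refine Prod.ext ?_ rfl
    show ρ (x k) * 0 + lamT ρ t k ∅ = 0 * ρ (x k) + rrT ρ t k ∅
    rw [lamT_empty h, rrT_empty h, mul_zero, zero_mul]
  · intro k hk
    have e : LL ρ t (x k)⁻¹ (LL ρ t (x k) m0) = m0 := LL_inv ρ t (x k) m0
    rw [hk, LL_RR h] at e
    have e2 : (RR ρ t (x k)⁻¹).unop ((RR ρ t (x k)).unop (LL ρ t (x k)⁻¹ m0)) = (RR ρ t (x k)⁻¹).unop m0 := by rw [e]
    rw [RR_inv] at e2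
    exact e2
  · intro u v hu hv
    rw [LL_mul, RR_mul, hv, LL_RR h, hu]

theorem LL_snd (ρ : F →* S) (t : F → S) (u : F) (s : S × Finset ℕ) :
    (LL ρ t u s).2 = symmDiff s.2 (LL ρ t u m0).2 := by
  refine f_ind (P := fun u => ∀ s, (LL ρ t u s).2 = symmDiff s.2 (LL ρ t u m0).2) ?_ ?_ ?_ ?_ u s
  · intro s
    rw [map_one]
    show s.2 = symmDiff s.2 ∅
    exact (symmDiff_bot s.2).symm
  · intro k s
    rw [LL_x]
    show symmDiff s.2 {k} = symmDiff s.2 (symmDiff ∅ {k})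
    rw [← Finset.bot_eq_empty, bot_symmDiff]
  · intro k hk s
    have e1 := hk (LL ρ t (x k)⁻¹ s)
    rw [LL_inv'] at e1
    have e2 := hk (LL ρ t (x k)⁻¹ m0)
    rw [LL_inv'] at e2
    have e3 : (m0 : S × Finset ℕ).2 = ∅ := rfl
    rw [e3] at e2
    have e4 : (LL ρ t (x k)⁻¹ m0).2 = (LL ρ t (x k) m0).2 := (symmDiff_eq_bot.1 e2.symm)
    rw [e4, e1, symmDiff_assoc, symmDiff_self, symmDiff_bot]
  · intro u v hu hv s
    rw [LL_mul, LL_mul, hu, hv, hu (LL ρ t v m0), symmDiff_assoc]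

theorem LL_aff (ρ : F →* S) (t : F → S) (u : F) (m m' : S) (T : Finset ℕ) :
    (LL ρ t u (m, T)).1 - (LL ρ t u (m', T)).1 = ρ u * (m - m') := by
  refine f_ind (P := fun u => ∀ m m' T, (LL ρ t u (m, T)).1 - (LL ρ t u (m', T)).1 = ρ u * (m - m')) ?_ ?_ ?_ ?_ u m m' T
  · intro m m' T
    rw [map_one, map_one, one_mul]
    rfl
  · intro k m m' T
    rw [LL_x]
    show (ρ (x k) * m + lamT ρ t k T) - (ρ (x k) * m' + lamT ρ t k T) = ρ (x k) * (m - m')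
    rw [add_sub_add_right_eq_sub, mul_sub]
  · intro k hk m m' T
    have e1 := hk (LL ρ t (x k)⁻¹ (m, T)).1 (LL ρ t (x k)⁻¹ (m', T)).1 (LL ρ t (x k)⁻¹ (m, T)).2
    have e2 : (LL ρ t (x k)⁻¹ (m, T)).2 = (LL ρ t (x k)⁻¹ (m', T)).2 := by
      rw [LL_snd ρ t _ (m, T), LL_snd ρ t _ (m', T)]
    have e3 : ((LL ρ t (x k)⁻¹ (m, T)).1, (LL ρ t (x k)⁻¹ (m, T)).2) = LL ρ t (x k)⁻¹ (m, T) := rfl
    have e4 : ((LL ρ t (x k)⁻¹ (m', T)).1, (LL ρ t (x k)⁻¹ (m, T)).2) = LL ρ t (x k)⁻¹ (m', T) := by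
      rw [e2]
    rw [e3, e4, LL_inv', LL_inv'] at e1
    show _ = ρ (x k)⁻¹ * (m - m')
    have e5 : m - m' = ρ (x k) * ((LL ρ t (x k)⁻¹ (m, T)).1 - (LL ρ t (x k)⁻¹ (m', T)).1) := e1
    rw [e5, ← mul_assoc, ← map_mul, inv_mul_cancel, map_one, one_mul]
  · intro u v hu hv m m' T
    rw [LL_mul, LL_mul]
    have e2 : (LL ρ t v (m, T)).2 = (LL ρ t v (m', T)).2 := by
      rw [LL_snd ρ t _ (m, T), LL_snd ρ t _ (m', T)]
    have e3 := hu (LL ρ t v (m, T)).1 (LL ρ t v (m', T)).1 (LL ρ t v (m, T)).2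
    have e4 : ((LL ρ t v (m', T)).1, (LL ρ t v (m, T)).2) = LL ρ t v (m', T) := by
      rw [e2]
    rw [e4] at e3
    rw [map_mul, mul_assoc, ← hv m m' T]
    exact e3

end E4.LP
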