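import Pool.Agent.Lib.MP_8a95e3_al.LP4

/-!
# LP5 : Lemma P, end
-/

namespace E4.LP

open E4

variable {S : Type*} [Ring S]

theorem RR_snd (ρ : F →* S) (t : F → S) (u : F) (s : S × Finset ℕ) :
    ((RR ρ t u).unop s).2 = symmDiff s.2 ((RR ρ t u).unop m0).2 := by
  refine f_ind (P := fun u => ∀ s, ((RR ρ t u).unop s).2 = symmDiff s.2 ((RR ρ t u).unop m0).2) ?_ ?_ ?_ ?_ u s
  · intro s
    rw [map_one]
    show s.2 = symmDiff s.2 ∅
    exact (symmDiff_bot s.2).symm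
  · intro k s
    rw [RR_x]
    show symmDiff s.2 {k} = symmDiff s.2 (symmDiff ∅ {k})
    rw [← Finset.bot_eq_empty, bot_symmDiff]
  · intro k hk s
    have e1 := hk ((RR ρ t (x k)⁻¹).unop s)
    rw [RR_inv'] at e1
    have e2 := hk ((RR ρ t (x k)⁻¹).unop m0)
    rw [RR_inv'] at e2
    have e3 : (m0 : S × Finset ℕ).2 = ∅ := rfl
    rw [e3] at e2
    have e4 : ((RR ρ t (x k)⁻¹).unop m0).2 = ((RR ρ t (x k)).unop m0).2 := (symmDiff_eq_bot.1 e2.symm)
    rw [e4, e1, symmDiff_assoc, symmDiff_self, symmDiff_bot]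
  · intro u v hu hv s
    rw [RR_mul, RR_mul, hv, hu, hv ((RR ρ t u).unop m0), symmDiff_assoc]

theorem RR_aff (ρ : F →* S) (t : F → S) (u : F) (m m' : S) (T : Finset ℕ) :
    ((RR ρ t u).unop (m, T)).1 - ((RR ρ t u).unop (m', T)).1 = (m - m') * ρ u := by
  refine f_ind (P := fun u => ∀ m m' T, ((RR ρ t u).unop (m, T)).1 - ((RR ρ t u).unop (m', T)).1 = (m - m') * ρ u)
    ?_ ?_ ?_ ?_ u m m' T
  · intro m m' T
    rw [map_one, map_one, mul_one]
    rfl
  · intro k m m' T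
    rw [RR_x]
    show (m * ρ (x k) + rrT ρ t k T) - (m' * ρ (x k) + rrT ρ t k T) = (m - m') * ρ (x k)
    rw [add_sub_add_right_eq_sub, sub_mul]
  · intro k hk m m' T
    have e1 := hk ((RR ρ t (x k)⁻¹).unop (m, T)).1 ((RR ρ t (x k)⁻¹).unop (m', T)).1 ((RR ρ t (x k)⁻¹).unop (m, T)).2
    have e2 : ((RR ρ t (x k)⁻¹).unop (m, T)).2 = ((RR ρ t (x k)⁻¹).unop (m', T)).2 := by
      rw [RR_snd ρ t _ (m, T), RR_snd ρ t _ (m', T)]
    have e3 : (((RR ρ t (x k)⁻¹).unop (m, T)).1, ((RR ρ t (x k)⁻¹).unop (m, T)).2) = (RR ρ t (x k)⁻¹).unop (m, T) := rfl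
    have e4 : (((RR ρ t (x k)⁻¹).unop (m', T)).1, ((RR ρ t (x k)⁻¹).unop (m, T)).2) = (RR ρ t (x k)⁻¹).unop (m', T) := by
      rw [e2]
    rw [e3, e4, RR_inv', RR_inv'] at e1
    have e5 : m - m' = (((RR ρ t (x k)⁻¹).unop (m, T)).1 - ((RR ρ t (x k)⁻¹).unop (m', T)).1) * ρ (x k) := e1
    rw [e5, mul_assoc, ← map_mul, mul_inv_cancel, map_one, mul_one]
  · intro u v hu hv m m' T
    rw [RR_mul, RR_mul]
    have e2 : ((RR ρ t u).unop (m, T)).2 = ((RR ρ t u).unop (m', T)).2 := by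
      rw [RR_snd ρ t _ (m, T), RR_snd ρ t _ (m', T)]
    have e3 := hv ((RR ρ t u).unop (m, T)).1 ((RR ρ t u).unop (m', T)).1 ((RR ρ t u).unop (m, T)).2
    have e4 : (((RR ρ t u).unop (m', T)).1, ((RR ρ t u).unop (m, T)).2) = (RR ρ t u).unop (m', T) := by
      rw [e2]
    rw [e4] at e3
    rw [map_mul, ← mul_assoc, ← hu m m' T]
    exact e3

/-- the value of `κ` on a group element -/
def kk (ρ : F →* S) (t : F → S) (u : F) : S := (LL ρ t u m0).1

def cs (ρ : F →* S) (t : F → S) (u : F) : Finset ℕ := (LL ρ t u m0).2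

theorem cs_mul (ρ : F →* S) (t : F → S) (u v : F) : cs ρ t (u * v) = symmDiff (cs ρ t v) (cs ρ t u) := by
  unfold cs
  rw [LL_mul, LL_snd]

theorem cs_one (ρ : F →* S) (t : F → S) : cs ρ t 1 = ∅ := by
  unfold cs
  rw [map_one]
  rfl

theorem cs_inv (ρ : F →* S) (t : F → S) (u : F) : cs ρ t u⁻¹ = cs ρ t u := by
  have e := cs_mul ρ t u u⁻¹
  rw [mul_inv_cancel, cs_one] at e
  exact symmDiff_eq_bot.1 e.symm

theorem kk_one (ρ : F →* S) (t : F → S) : kk ρ t 1 = 0 := by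
  unfold kk
  rw [map_one]
  rfl

theorem kk_left (ρ : F →* S) (t : F → S) (u g g' : F) (hg : cs ρ t g = cs ρ t g') :
    kk ρ t (u * g) - kk ρ t (u * g') = ρ u * (kk ρ t g - kk ρ t g') := by
  unfold kk
  rw [LL_mul, LL_mul]
  unfold cs at hg
  have e := LL_aff ρ t u (LL ρ t g m0).1 (LL ρ t g' m0).1 (LL ρ t g m0).2
  have e2 : ((LL ρ t g' m0).1, (LL ρ t g m0).2) = LL ρ t g' m0 := by rw [hg]
  rw [e2] at e
  exact e

theorem kk_right {ρ : F →* S} {t : F → S} (h : LPD ρ t) (v g g' : F) (hg : cs ρ t g = cs ρ t g') :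
    kk ρ t (g * v) - kk ρ t (g' * v) = (kk ρ t g - kk ρ t g') * ρ v := by
  unfold kk
  rw [LL_m0 h (g * v), LL_m0 h (g' * v), RR_mul, RR_mul, ← LL_m0 h g, ← LL_m0 h g']
  unfold cs at hg
  have e := RR_aff ρ t v (LL ρ t g m0).1 (LL ρ t g' m0).1 (LL ρ t g m0).2
  have e2 : ((LL ρ t g' m0).1, (LL ρ t g m0).2) = LL ρ t g' m0 := by rw [hg]
  rw [e2] at e
  exact e

theorem kk_xx (ρ : F →* S) (t : F → S) (k j : ℕ) (h : LPD ρ t) : kk ρ t (x k * x j) = lamT ρ t k {j} := by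
  unfold kk
  rw [LL_mul, LL_x, LL_x]
  show ρ (x k) * (ρ (x j) * 0 + lamT ρ t j ∅) + lamT ρ t k (tg ∅ j) = _
  rw [lamT_empty h, mul_zero, add_zero, mul_zero, zero_add]
  unfold tg
  rw [← Finset.bot_eq_empty, bot_symmDiff]

theorem lamT_lt {ρ : F →* S} {t : F → S} (h : LPD ρ t) {k j : ℕ} (hjk : j < k) : lamT ρ t k {j} = CC ρ t (x k) (x j) := by
  unfold lamT lam
  have e1 : lo k {j} = x j := by
    rw [lo_split _ hjk]
    have e1 : lo j {j} = 1 := seg_triv fun i _ h2 => by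
      rw [Finset.mem_singleton]
      omega
    have e2 : seg {j} (j + 1) k = 1 := seg_triv fun i h1 _ => by
      rw [Finset.mem_singleton]
      omega
    have e3 : fl {j} j = x j := by
      unfold fl pw
      rw [decide_eq_true (Finset.mem_singleton_self j)]
      rfl
    rw [e1, e2, e3, one_mul, mul_one]
  have e2 : hi k {j} = 1 := seg_triv fun i h1 _ => by
    rw [Finset.mem_singleton]
    omega
  have e3 : decide (k ∈ ({j} : Finset ℕ)) = false := decide_eq_false (by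
    rw [Finset.mem_singleton]
    omega)
  rw [e1, e2, e3]
  simp [pw]

theorem lamT_gt {ρ : F →* S} {t : F → S} (h : LPD ρ t) {k j : ℕ} (hjk : k < j) : lamT ρ t k {j} = 0 := by
  unfold lamT lam
  have e1 : lo k {j} = 1 := seg_triv fun i _ h2 => by
    rw [Finset.mem_singleton]
    omega
  have e3 : decide (k ∈ ({j} : Finset ℕ)) = false := decide_eq_false (by
    rw [Finset.mem_singleton]
    omega)
  rw [e1, e3, h.C_one_right]
  simp [pw]

theorem lamT_eq {ρ : F →* S} {t : F → S} (h : LPD ρ t) (k : ℕ) : lamT ρ t k {k} = SQ ρ t (x k) := by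
  unfold lamT lam
  have e1 : lo k {k} = 1 := seg_triv fun i _ h2 => by
    rw [Finset.mem_singleton]
    omega
  have e2 : hi k {k} = 1 := seg_triv fun i h1 _ => by
    rw [Finset.mem_singleton]
    omega
  have e3 : decide (k ∈ ({k} : Finset ℕ)) = true := decide_eq_true (Finset.mem_singleton_self k)
  rw [e1, e2, e3, h.C_one_right]
  simp [pw]

theorem cs_comm (ρ : F →* S) (t : F → S) (u v : F) : cs ρ t (u * v) = cs ρ t (v * u) := by
  rw [cs_mul, cs_mul, symmDiff_comm]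

/-- `κ(gh + hg) = C(g,h)` -/
theorem kk_comm {ρ : F →* S} {t : F → S} (h : LPD ρ t) (u v : F) :
    kk ρ t (u * v) - kk ρ t (v * u) = CC ρ t u v := by
  have hxx : ∀ k j, kk ρ t (x k * x j) - kk ρ t (x j * x k) = CC ρ t (x k) (x j) := by
    intro k j
    rw [kk_xx ρ t k j h, kk_xx ρ t j k h]
    rcases lt_trichotomy j k with hjk | hjk | hjk
    · rw [lamT_lt h hjk, lamT_gt h hjk, sub_zero]
    · subst hjk
      rw [sub_self, h.C_self]
    · rw [lamT_gt h hjk, lamT_lt h hjk, h.c1, zero_sub, h.hneg]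
  have hd : ∀ a b y, kk ρ t (a * b * y) - kk ρ t (y * (a * b))
      = ρ a * (kk ρ t (b * y) - kk ρ t (y * b)) + (kk ρ t (a * y) - kk ρ t (y * a)) * ρ b := by
    intro a b y
    have e1 := kk_left ρ t a (b * y) (y * b) (cs_comm ρ t b y)
    have e2 := kk_right h b (a * y) (y * a) (cs_comm ρ t a y)
    rw [← e1, ← e2, mul_assoc a b y, ← mul_assoc a y b, ← mul_assoc y a b, sub_add_sub_cancel]
  have hsw : ∀ a b, (kk ρ t (a * b) - kk ρ t (b * a) = CC ρ t a b) → kk ρ t (b * a) - kk ρ t (a * b) = CC ρ t b a := by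
    intro a b e
    rw [h.c1 b a, ← e, ← neg_sub, h.hneg]
  have hgen : ∀ y, (∀ k, kk ρ t (x k * y) - kk ρ t (y * x k) = CC ρ t (x k) y) →
      ∀ a, kk ρ t (a * y) - kk ρ t (y * a) = CC ρ t a y := by
    intro y hy a
    refine f_ind (P := fun a => kk ρ t (a * y) - kk ρ t (y * a) = CC ρ t a y) ?_ hy ?_ ?_ a
    · rw [one_mul, mul_one, sub_self, h.C_one_left]
    · intro i hi
      have e1 := hd (x i) (x i)⁻¹ y
      have e2 := h.a5' (x i) (x i)⁻¹ y
      rw [mul_inv_cancel, h.C_one_left] at e2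
      rw [mul_inv_cancel, one_mul, mul_one, sub_self, hi] at e1
      have e3 : ρ (x i) * (kk ρ t ((x i)⁻¹ * y) - kk ρ t (y * (x i)⁻¹)) = ρ (x i) * CC ρ t (x i)⁻¹ y :=
        add_right_cancel (e1.symm.trans e2)
      have e4 := congrArg (fun m => ρ (x i)⁻¹ * m) e3
      simp only [h.linv'] at e4
      exact e4
    · intro a b ha hb
      rw [hd, ha, hb, h.a5']
  refine hgen v (fun k => ?_) u
  exact hsw v (x k) (hgen (x k) (fun j => hxx j k) v)

theorem cs_sq (ρ : F →* S) (t : F → S) (u : F) : cs ρ t (u * u) = cs ρ t 1 := by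
  rw [cs_mul, symmDiff_self, cs_one]
  rfl

/-- `κ(g² + 1) = Sq(g)` -/
theorem kk_sq {ρ : F →* S} {t : F → S} (h : LPD ρ t) (u : F) : kk ρ t (u * u) = SQ ρ t u := by
  have hm : ∀ a b, kk ρ t (a * b * (a * b)) = kk ρ t (a * a) + ρ a * ρ a * kk ρ t (b * b) + ρ a * CC ρ t a b * ρ b := by
    intro a b
    have e1 := kk_left ρ t a (b * a) (a * b) (cs_comm ρ t b a)
    have e2 := kk_right h b (a * (b * a)) (a * (a * b)) (by rw [cs_mul, cs_mul ρ t a (a * b), cs_comm ρ t b a])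
    have e3 := kk_left ρ t (a * a) (b * b) 1 (cs_sq ρ t b)
    have e4 := kk_comm h b a
    rw [kk_one, sub_zero, mul_one, map_mul] at e3
    rw [h.c1 b a] at e4
    have f1 : a * b * (a * b) = a * (b * a) * b := by group
    have f2 : a * (a * b) * b = a * a * (b * b) := by group
    rw [f1]
    rw [f2, e1, e4] at e2
    rw [← e3, ← e2]
    abel
  refine f_ind (P := fun u => kk ρ t (u * u) = SQ ρ t u) ?_ ?_ ?_ ?_ u
  · unfold SQ
    rw [mul_one, kk_one, h.a1, mul_zero]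
  · intro k
    rw [kk_xx ρ t k k h, lamT_eq h]
  · intro i hi
    have e1 := hm (x i) (x i)⁻¹
    have e2 := h.c4 (x i) (x i)⁻¹
    have e3 : SQ ρ t (x i * (x i)⁻¹) = 0 := by
      unfold SQ
      rw [mul_inv_cancel, h.a1, mul_zero]
    rw [e3] at e2
    rw [mul_inv_cancel, mul_one, kk_one, hi] at e1
    have e4 : ρ (x i) * ρ (x i) * kk ρ t ((x i)⁻¹ * (x i)⁻¹) = ρ (x i) * ρ (x i) * SQ ρ t (x i)⁻¹ :=
      add_left_cancel (add_right_cancel (e1.symm.trans e2))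
    have e5 := congrArg (fun m => ρ (x i)⁻¹ * (ρ (x i)⁻¹ * m)) e4
    simp only [mul_assoc, h.linv'] at e5
    exact e5
  · intro a b ha hb
    rw [hm, ha, hb, h.c4]

theorem kk_T {ρ : F →* S} {t : F → S} (h : LPD ρ t) (g : F) : kk ρ t g - kk ρ t g⁻¹ = t g := by
  have e := kk_left ρ t g⁻¹ (g * g) 1 (cs_sq ρ t g)
  rw [kk_one, sub_zero, kk_sq h, inv_mul_cancel_left, mul_one] at e
  rw [e]
  unfold SQ
  rw [h.linv']

/-- **Lemma P.**  The additive map `κ`. -/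
theorem lemmaP {ρ : F →* S} {t : F → S} (h : LPD ρ t) :
    ∃ κ : FA →+ S, ∀ u g v : F, κ (ofF u * (ofF g + ofF g⁻¹) * ofF v) = ρ u * t g * ρ v := by
  obtain ⟨κ, hκ⟩ : ∃ κ : FA →+ S, ∀ g, κ (ofF g) = kk ρ t g := by
    refine ⟨MonoidAlgebra.liftNC (Int.castAddHom S) (kk ρ t), fun g => ?_⟩
    show MonoidAlgebra.liftNC (Int.castAddHom S) (kk ρ t) (MonoidAlgebra.single g 1) = kk ρ t g
    rw [MonoidAlgebra.liftNC_single]
    simp
  refine ⟨κ, fun u g v => ?_⟩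
  have e : ofF u * (ofF g + ofF g⁻¹) * ofF v = ofF (u * g * v) + ofF (u * g⁻¹ * v) := by
    rw [map_mul, map_mul, map_mul, map_mul]
    noncomm_ring
  have hc : cs ρ t g = cs ρ t g⁻¹ := (cs_inv ρ t g).symm
  have e1 := kk_left ρ t u g g⁻¹ hc
  have e2 := kk_right h v (u * g) (u * g⁻¹) (by rw [cs_mul, cs_mul ρ t u g⁻¹, hc])
  rw [e, map_add, hκ, hκ, ← h.hsub, e2, e1, kk_T h]

end E4.LP
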