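import Pool.Agent.Lib.MP_8a95e3_al.SqT

/-!
# Lam : the additive group `Λ` spanned by the `T_g`; the identities `s_3 = 0` and `f_4 = 0`
-/

namespace E4

section

variable {H R : Type*} [Group H] [Ring R] {ρ : H →* R}

/-- `x + x = 0` in characteristic two. -/
theorem two_zero (hc : Cub ρ) (r : R) : r + r = 0 := by
  rw [← two_mul, hc.two, zero_mul]

theorem sqe_mem (g : H) : sqe ρ g ∈ Lam ρ := by
  exact AddSubgroup.subset_closure ⟨g, rfl⟩

private theorem Lam_br_add_left (a b c : R) : br (a + b) c = br a c + br b c := by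
  unfold br
  noncomm_ring

private theorem Lam_br_add_right (a b c : R) : br a (b + c) = br a b + br a c := by
  unfold br
  noncomm_ring

private theorem Lam_br_neg_left (a b : R) : br (-a) b = -br a b := by
  unfold br
  noncomm_ring

private theorem Lam_br_neg_right (a b : R) : br a (-b) = -br a b := by
  unfold br
  noncomm_ring

private theorem Lam_br_zero_left (b : R) : br 0 b = 0 := by
  unfold br
  simp

private theorem Lam_br_zero_right (b : R) : br b 0 = 0 := by
  unfold br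
  simp

private theorem Lam_br_gen (hc : Cub ρ) (g h : H) : br (sqe ρ g) (sqe ρ h) ∈ Lam ρ := by
  have h1 := sqe_conj_sq hc g h
  have h2 : br (sqe ρ g) (sqe ρ h) = sqe ρ ((h ^ 2)⁻¹ * g * h ^ 2) - sqe ρ g := by
    rw [h1]
    abel
  rw [h2]
  exact sub_mem (sqe_mem _) (sqe_mem _)

/-- `Λ` is closed under `br`.  PROOF: closure induction in both variables (`br` is biadditive), `br (T_g) (T_h) = T_{h⁻²gh²} + T_g` by `sqe_conj_sq`. -/
theorem br_mem (hc : Cub ρ) {a b : R} (ha : a ∈ Lam ρ) (hb : b ∈ Lam ρ) : br a b ∈ Lam ρ := by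
  have h1 : ∀ g : H, ∀ b ∈ Lam ρ, br (sqe ρ g) b ∈ Lam ρ := by
    intro g b hb
    refine AddSubgroup.closure_induction (p := fun b _ => br (sqe ρ g) b ∈ Lam ρ) ?_ ?_ ?_ ?_ hb
    · rintro _ ⟨h, rfl⟩
      exact Lam_br_gen hc g h
    · rw [Lam_br_zero_right]
      exact zero_mem _
    · intro x y _ _ hx hy
      rw [Lam_br_add_right]
      exact add_mem hx hy
    · intro x _ hx
      rw [Lam_br_neg_right]
      exact neg_mem hx
  refine AddSubgroup.closure_induction (p := fun a _ => br a b ∈ Lam ρ) ?_ ?_ ?_ ?_ ha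
  · rintro _ ⟨g, rfl⟩
    exact h1 g b hb
  · rw [Lam_br_zero_left]
    exact zero_mem _
  · intro x y _ _ hx hy
    rw [Lam_br_add_left]
    exact add_mem hx hy
  · intro x _ hx
    rw [Lam_br_neg_left]
    exact neg_mem hx

private theorem Lam_W_mul {a b : R} (ha : a ∈ AddSubgroup.closure (Set.range ρ))
    (hb : b ∈ AddSubgroup.closure (Set.range ρ)) : a * b ∈ AddSubgroup.closure (Set.range ρ) := by
  have h1 : ∀ g : H, ∀ b ∈ AddSubgroup.closure (Set.range ρ), ρ g * b ∈ AddSubgroup.closure (Set.range ρ) := by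
    intro g b hb
    refine AddSubgroup.closure_induction
      (p := fun b _ => ρ g * b ∈ AddSubgroup.closure (Set.range ρ)) ?_ ?_ ?_ ?_ hb
    · rintro _ ⟨h, rfl⟩
      rw [← map_mul]
      exact AddSubgroup.subset_closure ⟨g * h, rfl⟩
    · rw [mul_zero]
      exact zero_mem _
    · intro x y _ _ hx hy
      rw [mul_add]
      exact add_mem hx hy
    · intro x _ hx
      rw [mul_neg]
      exact neg_mem hx
  refine AddSubgroup.closure_induction
    (p := fun a _ => a * b ∈ AddSubgroup.closure (Set.range ρ)) ?_ ?_ ?_ ?_ ha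
  · rintro _ ⟨g, rfl⟩
    exact h1 g b hb
  · rw [zero_mul]
    exact zero_mem _
  · intro x y _ _ hx hy
    rw [add_mul]
    exact add_mem hx hy
  · intro x _ hx
    rw [neg_mul]
    exact neg_mem hx

private theorem Lam_W_mid (hc : Cub ρ) (g : H) {w : R} (hw : w ∈ AddSubgroup.closure (Set.range ρ)) :
    sqe ρ g * w * sqe ρ g = 0 := by
  refine AddSubgroup.closure_induction (p := fun w _ => sqe ρ g * w * sqe ρ g = 0) ?_ ?_ ?_ ?_ hw
  · rintro _ ⟨h, rfl⟩
    exact sqe_mid hc g h
  · rw [mul_zero, zero_mul]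
  · intro x y _ _ hx hy
    rw [mul_add, add_mul, hx, hy, add_zero]
  · intro x _ hx
    rw [mul_neg, neg_mul, hx, neg_zero]

private theorem Lam_sqe_W (g : H) : sqe ρ g ∈ AddSubgroup.closure (Set.range ρ) := by
  have h1 : sqe ρ g = ρ (g ^ 2) + ρ 1 := by
    rw [map_pow, map_one]
    rfl
  rw [h1]
  exact add_mem (AddSubgroup.subset_closure ⟨_, rfl⟩) (AddSubgroup.subset_closure ⟨_, rfl⟩)

private theorem Lam_prod_W (l : List H) : (l.map (sqe ρ)).prod ∈ AddSubgroup.closure (Set.range ρ) := by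
  induction l with
  | nil =>
    rw [List.map_nil, List.prod_nil]
    exact AddSubgroup.subset_closure ⟨1, map_one ρ⟩
  | cons h l ih =>
    rw [List.map_cons, List.prod_cons]
    exact Lam_W_mul (Lam_sqe_W h) ih

/-- `T_g w T_g = 0` where `w` is a product of elements `1 + T_{h_i}` = product of `ρ(h_i^2)`, hence also for `w` a product of `T_{h_i}`'s.
PROOF: let `W` be the additive closure of `Set.range ρ`: it is closed under multiplication, contains every `T_h = ρ(h^2) + ρ 1`, so it contains every product of `T`'s; and `T_g w T_g = 0` for all `w ∈ W` by `sqe_mid` and closure induction. -/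
theorem sqe_mid_list (hc : Cub ρ) (g : H) (l : List H) :
    sqe ρ g * (l.map (sqe ρ)).prod * sqe ρ g = 0 := by
  exact Lam_W_mid hc g (Lam_prod_W l)

/-- the symmetric polynomial `s_3` -/
def s3 (a b c : R) : R := a * b * c + a * c * b + b * a * c + b * c * a + c * a * b + c * b * a

/-- the polynomial `f_4` (identity permutation and the eleven permutations with exactly two descents) -/
def f4 (a b c d : R) : R :=
  a * b * c * d + c * d * b * a + d * c * a * b + c * b * a * d + d * b * a * c + b * a * d * c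
    + c * a * d * b + c * b * d * a + d * a * c * b + d * b * c * a + a * d * c * b + b * d * c * a

private theorem Lam_y {a b c : R} (h2 : (2 : R) = 0) :
    (1 + a) * (1 + b) * (1 + c) + 1 = a + b + c + a * b + a * c + b * c + a * b * c := by
  have h : (1 + a) * (1 + b) * (1 + c) + 1 =
      (a + b + c + a * b + a * c + b * c + a * b * c) + (1 + 1) := by
    simp only [mul_add, add_mul, mul_one, one_mul]
    abel
  rw [h, one_add_one_eq_two, h2, add_zero]

private theorem Lam_cube {a b c : R} (aa : a * a = 0) (bb : b * b = 0) (cc : c * c = 0)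
    (aba : a * b * a = 0) (aca : a * c * a = 0) (bab : b * a * b = 0) (bcb : b * c * b = 0)
    (cac : c * a * c = 0) (cbc : c * b * c = 0) (abca : a * b * c * a = 0) (acba : a * c * b * a = 0)
    (bacb : b * a * c * b = 0) (bcab : b * c * a * b = 0) (cabc : c * a * b * c = 0)
    (cbac : c * b * a * c = 0) :
    (a + b + c + a * b + a * c + b * c + a * b * c) * (a + b + c + a * b + a * c + b * c + a * b * c) *
      (a + b + c + a * b + a * c + b * c + a * b * c) = s3 a b c := by
  have aa' : ∀ r : R, r * a * a = 0 := fun r => by rw [mul_assoc, aa, mul_zero]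
  have bb' : ∀ r : R, r * b * b = 0 := fun r => by rw [mul_assoc, bb, mul_zero]
  have cc' : ∀ r : R, r * c * c = 0 := fun r => by rw [mul_assoc, cc, mul_zero]
  have aba' : ∀ r : R, r * a * b * a = 0 := fun r => by
    rw [mul_assoc r, mul_assoc r, aba, mul_zero]
  have aca' : ∀ r : R, r * a * c * a = 0 := fun r => by
    rw [mul_assoc r, mul_assoc r, aca, mul_zero]
  have bab' : ∀ r : R, r * b * a * b = 0 := fun r => by
    rw [mul_assoc r, mul_assoc r, bab, mul_zero]
  have bcb' : ∀ r : R, r * b * c * b = 0 := fun r => by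
    rw [mul_assoc r, mul_assoc r, bcb, mul_zero]
  have cac' : ∀ r : R, r * c * a * c = 0 := fun r => by
    rw [mul_assoc r, mul_assoc r, cac, mul_zero]
  have cbc' : ∀ r : R, r * c * b * c = 0 := fun r => by
    rw [mul_assoc r, mul_assoc r, cbc, mul_zero]
  unfold s3
  simp only [mul_add, add_mul, ← mul_assoc, aa, bb, cc, aba, aca, bab, bcb, cac, cbc, abca, acba, bacb, bcab,
    cabc, cbac, aa', bb', cc', aba', aca', bab', bcb', cac', cbc',
    zero_mul, add_zero, zero_add]
  abel

private theorem Lam_mid1 (hc : Cub ρ) (g h : H) : sqe ρ g * sqe ρ h * sqe ρ g = 0 := by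
  have h1 := sqe_mid_list hc g [h]
  simpa using h1

private theorem Lam_mid2 (hc : Cub ρ) (g h k : H) : sqe ρ g * sqe ρ h * sqe ρ k * sqe ρ g = 0 := by
  have h1 := sqe_mid_list hc g [h, k]
  simpa [mul_assoc] using h1

/-- `s_3(T_1,T_2,T_3) = 0`.
PROOF.  `T_i = sqe ρ g_i`, `1 + T_i = ρ(g_i²)`.  `y = (1+T_1)(1+T_2)(1+T_3) + 1 = X ρ (g_1²g_2²g_3²)` has cube `0`.  Expand; every monomial in which some `T_i` occurs twice is zero (`sqe_mid_list`, `sqe_sq`).
The remaining terms of `y³`: `y = T_1 + T_2 + T_3 + (products of at least two)`, so `y³` has only the terms with the three factors taken from the linear part, with distinct indices (total degree 3, all three letters): this is `s_3`.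
Suggestion: split `y = α + T_3 + αT_3` with `α = T_1 + T_2 + T_1T_2` etc., or first show: `α² = T_1T_2 + T_2T_1`, `α³ = 0`, `T_3 r T_3 = 0`; `y² = α² + αT_3 + T_3α + α²T_3 + αT_3α + (0)`, `y³ = y²·y`, and the only surviving terms are
`α²T_3 + αT_3α + T_3α²`. With `α² = T_1T_2 + T_2T_1` and `αT_3α = T_1T_3T_2 + T_2T_3T_1` (letters may not repeat) this is `s_3`. -/
theorem s3_sqe (hc : Cub ρ) (g₁ g₂ g₃ : H) : s3 (sqe ρ g₁) (sqe ρ g₂) (sqe ρ g₃) = 0 := by
  have h2 : (2 : R) = 0 := hc.two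
  have hone : ∀ g : H, 1 + sqe ρ g = ρ (g ^ 2) := by
    intro g
    have e1 : 1 + sqe ρ g = ρ g ^ 2 + (1 + 1) := by
      unfold sqe
      abel
    rw [e1, one_add_one_eq_two, h2, add_zero, map_pow]
  have hy : (1 + sqe ρ g₁) * (1 + sqe ρ g₂) * (1 + sqe ρ g₃) + 1 = X ρ (g₁ ^ 2 * g₂ ^ 2 * g₃ ^ 2) := by
    rw [hone, hone, hone, ← map_mul, ← map_mul]
    rfl
  have hcube := hc.cube (g₁ ^ 2 * g₂ ^ 2 * g₃ ^ 2)
  rw [← hy, Lam_y h2, pow_succ, pow_two] at hcube
  rw [← hcube]
  exact (Lam_cube (sqe_sq hc g₁) (sqe_sq hc g₂) (sqe_sq hc g₃) (Lam_mid1 hc g₁ g₂) (Lam_mid1 hc g₁ g₃)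
    (Lam_mid1 hc g₂ g₁) (Lam_mid1 hc g₂ g₃) (Lam_mid1 hc g₃ g₁) (Lam_mid1 hc g₃ g₂) (Lam_mid2 hc g₁ g₂ g₃)
    (Lam_mid2 hc g₁ g₃ g₂) (Lam_mid2 hc g₂ g₁ g₃) (Lam_mid2 hc g₂ g₃ g₁) (Lam_mid2 hc g₃ g₁ g₂)
    (Lam_mid2 hc g₃ g₂ g₁)).symm

private theorem Lam_s3_add1 (a a' b c : R) : s3 (a + a') b c = s3 a b c + s3 a' b c := by
  unfold s3
  noncomm_ring

private theorem Lam_s3_add2 (a b b' c : R) : s3 a (b + b') c = s3 a b c + s3 a b' c := by
  unfold s3
  noncomm_ring

private theorem Lam_s3_add3 (a b c c' : R) : s3 a b (c + c') = s3 a b c + s3 a b c' := by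
  unfold s3
  noncomm_ring

private theorem Lam_s3_neg1 (a b c : R) : s3 (-a) b c = -s3 a b c := by
  unfold s3
  noncomm_ring

private theorem Lam_s3_neg2 (a b c : R) : s3 a (-b) c = -s3 a b c := by
  unfold s3
  noncomm_ring

private theorem Lam_s3_neg3 (a b c : R) : s3 a b (-c) = -s3 a b c := by
  unfold s3
  noncomm_ring

/-- PROOF: `s3` is additive in each variable; closure induction three times. -/
theorem s3_lam (hc : Cub ρ) {a b c : R} (ha : a ∈ Lam ρ) (hb : b ∈ Lam ρ) (hd : c ∈ Lam ρ) :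
    s3 a b c = 0 := by
  have h1 : ∀ g h : H, ∀ c ∈ Lam ρ, s3 (sqe ρ g) (sqe ρ h) c = 0 := by
    intro g h c hd
    refine AddSubgroup.closure_induction (p := fun c _ => s3 (sqe ρ g) (sqe ρ h) c = 0) ?_ ?_ ?_ ?_ hd
    · rintro _ ⟨k, rfl⟩
      exact s3_sqe hc g h k
    · unfold s3
      simp
    · intro x y _ _ hx hy
      rw [Lam_s3_add3, hx, hy, add_zero]
    · intro x _ hx
      rw [Lam_s3_neg3, hx, neg_zero]
  have h2 : ∀ g : H, ∀ b ∈ Lam ρ, s3 (sqe ρ g) b c = 0 := by
    intro g b hb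
    refine AddSubgroup.closure_induction (p := fun b _ => s3 (sqe ρ g) b c = 0) ?_ ?_ ?_ ?_ hb
    · rintro _ ⟨k, rfl⟩
      exact h1 g k c hd
    · unfold s3
      simp
    · intro x y _ _ hx hy
      rw [Lam_s3_add2, hx, hy, add_zero]
    · intro x _ hx
      rw [Lam_s3_neg2, hx, neg_zero]
  refine AddSubgroup.closure_induction (p := fun a _ => s3 a b c = 0) ?_ ?_ ?_ ?_ ha
  · rintro _ ⟨k, rfl⟩
    exact h2 k b hb
  · unfold s3
    simp
  · intro x y _ _ hx hy
    rw [Lam_s3_add1, hx, hy, add_zero]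
  · intro x _ hx
    rw [Lam_s3_neg1, hx, neg_zero]

end

end E4
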