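import Pool.Agent.Lib.MP_8a95e3_al.M01b

/-!
# M01 : contractions in normal form, relabelling
-/

namespace E4.M

/-- **Contraction in normal form.** -/
theorem cc_ed_ed {p q p' q' : ℕ} {β : ℕ → ℕ} (hf : ∀ x ∈ [p, q, p', q'], β x = x) (hn : [p, q, p', q'].Nodup) :
    cc p q (ed p p' (ed q q' β)) = ed p' q' β := by
  have h1 := hf p (by simp)
  have h2 := hf q (by simp)
  have h3 := hf p' (by simp)
  have h4 := hf q' (by simp)
  clear hf
  simp at hn
  funext x
  simp only [cc, ed]
  grind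

/-- Contraction of `p`, `q` commutes with an edge `a - b` away from `p`, `q`, `τ p`, `τ q`. PROOF: `ed a b τ` has the same values at `p` and `q` as `τ`. -/
theorem cc_ed_comm {p q a b : ℕ} {τ : ℕ → ℕ} (h : ∀ x ∈ [p, q, τ p, τ q], x ≠ a ∧ x ≠ b) :
    cc p q (ed a b τ) = ed a b (cc p q τ) := by
  have h1 := h p (by simp)
  have h2 := h q (by simp)
  have h3 := h (τ p) (by simp)
  have h4 := h (τ q) (by simp)
  clear h
  funext x
  simp only [cc, ed]
  grind

/-- Contraction of an end of the edge `p - p'` with an outside point `q`, whose partner is `y`: the edge `p - p'` becomes `y - p'`, the points `q`, `y` are removed from the rest. -/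
theorem cc_ed_out {p q p' : ℕ} {β : ℕ → ℕ} (h : Inv β) (hp : β p = p) (hp' : β p' = p') (hpp : p ≠ p') (hq : β q ≠ q) :
    cc p q (ed p p' β) = ed (β q) p' (ed q q (ed (β q) (β q) β)) := by
  have e := h q
  funext x
  simp only [cc, ed]
  grind

theorem rl_ed (σ : Equiv.Perm ℕ) (a b : ℕ) (τ : ℕ → ℕ) : rl σ (ed a b τ) = ed (σ a) (σ b) (rl σ τ) := by
  funext x
  simp only [rl, ed]
  grind

theorem rl_cc (σ : Equiv.Perm ℕ) (p q : ℕ) (τ : ℕ → ℕ) : rl σ (cc p q τ) = cc (σ p) (σ q) (rl σ τ) := by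
  simp only [cc, rl_ed]
  have h1 : rl σ τ (σ p) = σ (τ p) := by simp [rl]
  have h2 : rl σ τ (σ q) = σ (τ q) := by simp [rl]
  rw [h1, h2]

theorem rl_Inv (σ : Equiv.Perm ℕ) (τ : ℕ → ℕ) : Inv (rl σ τ) ↔ Inv τ := by
  constructor
  · intro h x
    have e := h (σ x)
    simp only [rl, Equiv.symm_apply_apply] at e
    exact σ.injective e
  · intro h x
    simp only [rl, Equiv.symm_apply_apply]
    rw [h, Equiv.apply_symm_apply]

theorem rl_apply_eq (σ : Equiv.Perm ℕ) (τ : ℕ → ℕ) (x y : ℕ) : rl σ τ (σ x) = σ y ↔ τ x = y := by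
  simp only [rl, Equiv.symm_apply_apply]
  exact σ.injective.eq_iff

/-- If `τ` fixes `a` and `b`, relabelling by `swap a b` does not change `τ`. -/
theorem rl_swap {a b : ℕ} {τ : ℕ → ℕ} (h : Inv τ) (ha : τ a = a) (hb : τ b = b) : rl (Equiv.swap a b) τ = τ := by
  have hne : ∀ x, x ≠ a → x ≠ b → τ x ≠ a ∧ τ x ≠ b := by
    intro x h1 h2
    constructor
    · intro e
      apply h1
      rw [← h x, e, ha]
    · intro e
      apply h2
      rw [← h x, e, hb]
  funext x
  simp only [rl, Equiv.symm_swap]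
  by_cases h1 : x = a
  · subst h1
    rw [Equiv.swap_apply_left, hb, Equiv.swap_apply_right, ha]
  · by_cases h2 : x = b
    · subst h2
      rw [Equiv.swap_apply_right, ha, Equiv.swap_apply_left, hb]
    · rw [Equiv.swap_apply_of_ne_of_ne h1 h2, Equiv.swap_apply_of_ne_of_ne (hne x h1 h2).1 (hne x h1 h2).2]

end E4.M
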