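import Pool.Agent.Lib.MP_8a95e3_al.MD

/-!
# M01a : edges (all proofs: function extensionality, unfold `ed`, case distinction)
-/

namespace E4.M

theorem ed_left (a b : ℕ) (τ : ℕ → ℕ) : ed a b τ a = b := by
  simp [ed]

theorem ed_right (a b : ℕ) (τ : ℕ → ℕ) : ed a b τ b = a := by
  simp only [ed]
  split_ifs with h
  · exact h
  · rfl

theorem ed_ne {a b x : ℕ} (τ : ℕ → ℕ) (ha : x ≠ a) (hb : x ≠ b) : ed a b τ x = τ x := by
  simp only [ed]
  rw [if_neg ha, if_neg hb]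

theorem ed_comm (a b : ℕ) (τ : ℕ → ℕ) : ed a b τ = ed b a τ := by
  funext x
  simp only [ed]
  grind

theorem ed_ed_comm {a b c d : ℕ} (h1 : a ≠ c) (h2 : a ≠ d) (h3 : b ≠ c) (h4 : b ≠ d) (τ : ℕ → ℕ) :
    ed a b (ed c d τ) = ed c d (ed a b τ) := by
  funext x
  simp only [ed]
  grind

/-- The new edge overwrites the old values. -/
theorem ed_ed_self (a b : ℕ) (τ : ℕ → ℕ) : ed a b (ed a b τ) = ed a b τ := by
  funext x
  simp only [ed]
  grind

theorem ed_eq_self {a b : ℕ} {τ : ℕ → ℕ} (ha : τ a = b) (hb : τ b = a) : ed a b τ = τ := by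
  funext x
  simp only [ed]
  grind

theorem ed_Inv {a b : ℕ} {τ : ℕ → ℕ} (h : Inv τ) (ha : τ a = a) (hb : τ b = b) : Inv (ed a b τ) := by
  intro x
  have e := h x
  simp only [ed]
  grind [Inv]

/-- Removal of an edge. -/
theorem rem_Inv {a b : ℕ} {τ : ℕ → ℕ} (h : Inv τ) (ha : τ a = b) : Inv (ed a a (ed b b τ)) := by
  intro x
  have e := h x
  have e1 := h a
  simp only [ed]
  grind [Inv]

/-- **Normal form.** A closing with the edge `a - b` is `ed a b β` where `β` fixes `a` and `b`. PROOF: `β = ed a a (ed b b τ)`. -/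
theorem exists_base {τ : ℕ → ℕ} (h : Inv τ) {a b : ℕ} (hab : τ a = b) (hne : a ≠ b) :
    ∃ β, Inv β ∧ β a = a ∧ β b = b ∧ τ = ed a b β ∧ ∀ x, x ≠ a → x ≠ b → β x = τ x := by
  have hb : τ b = a := by rw [← hab]; exact h a
  refine ⟨ed a a (ed b b τ), rem_Inv h hab, ed_left _ _ _, ?_, ?_, ?_⟩
  · simp only [ed]
    grind
  · funext x
    simp only [ed]
    grind
  · intro x hx1 hx2
    simp only [ed]
    grind

end E4.M
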