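import Pool.Agent.Lib.MP_8a95e3_al.M01a

/-!
# M01b : contractions (function extensionality, unfold `cc`, `ed`, case distinction, using that closings are injective)
-/

namespace E4.M

theorem M01b_cc_app (p q : ℕ) (τ : ℕ → ℕ) (x : ℕ) :
    cc p q τ x = if x = q then q else if x = τ p then τ q else if x = τ q then τ p else if x = p then p else τ x := by
  simp only [cc, ed]
  grind

theorem Inv_inj {τ : ℕ → ℕ} (h : Inv τ) {x y : ℕ} (e : τ x = τ y) : x = y := by
  rw [← h x, e, h y]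

theorem cc_q (p q : ℕ) (τ : ℕ → ℕ) : cc p q τ q = q := by
  rw [M01b_cc_app, if_pos rfl]

theorem cc_p {p q : ℕ} {τ : ℕ → ℕ} (h : Inv τ) (hp : τ p ≠ p) (hpq : τ p ≠ q) : cc p q τ p = p := by
  simp only [M01b_cc_app]
  grind [Inv]

/-- The contraction is a closing. PROOF: the points `p' = τ p`, `q' = τ q` are different, different from `q`, and `q' ≠ p`; `τ` maps the complement of `{p, q, p', q'}` to itself. -/
theorem cc_Inv {p q : ℕ} {τ : ℕ → ℕ} (h : Inv τ) (hne : p ≠ q) (hq : τ q ≠ q) (hpq : τ p ≠ q) : Inv (cc p q τ) := by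
  intro x
  simp only [M01b_cc_app]
  grind [Inv]

theorem cc_symm {p q : ℕ} {τ : ℕ → ℕ} (h : Inv τ) (hne : p ≠ q) (hp : τ p ≠ p) (hq : τ q ≠ q) (hpq : τ p ≠ q) :
    cc p q τ = cc q p τ := by
  funext x
  simp only [M01b_cc_app]
  grind [Inv]

/-- Other fixed points stay fixed. -/
theorem cc_fix {p q x : ℕ} {τ : ℕ → ℕ} (h : Inv τ) (hx : τ x = x) (hxp : x ≠ p) (hxq : x ≠ q) : cc p q τ x = x := by
  simp only [M01b_cc_app]
  grind [Inv]

/-- Other points which are not fixed do not become fixed. -/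
theorem cc_nfix {p q x : ℕ} {τ : ℕ → ℕ} (h : Inv τ) (hne : p ≠ q) (hx : τ x ≠ x) (hxp : x ≠ p) (hxq : x ≠ q) :
    cc p q τ x ≠ x := by
  simp only [M01b_cc_app]
  grind [Inv]

end E4.M
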