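import Pool.Agent.Lib.MP_8a95e3_al.M01

/-!
# M02 : simple closure properties of the relations
-/

namespace E4.M

private theorem M02_fix4 {a b c d : ℕ} (β : ℕ → ℕ) (hn : [a, b, c, d].Nodup) (x : ℕ) :
    ed a b (ed c d β) x = x ↔ (x ≠ a ∧ x ≠ b ∧ x ≠ c ∧ x ≠ d ∧ β x = x) := by
  simp only [List.nodup_cons, List.mem_cons, List.not_mem_nil, or_false, not_or] at hn
  obtain ⟨⟨h1, h2, h3⟩, ⟨h4, h5⟩, h6, -⟩ := hn
  unfold ed
  grind

private theorem M02_fix6 {x0 x1 x2 y0 y1 y2 : ℕ} (β : ℕ → ℕ) (hn : [x0, x1, x2, y0, y1, y2].Nodup) (x : ℕ) :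
    ed x0 y0 (ed x1 y1 (ed x2 y2 β)) x = x ↔
      (x ≠ x0 ∧ x ≠ x1 ∧ x ≠ x2 ∧ x ≠ y0 ∧ x ≠ y1 ∧ x ≠ y2 ∧ β x = x) := by
  simp only [List.nodup_cons, List.mem_cons, List.not_mem_nil, or_false, not_or] at hn
  obtain ⟨⟨h1, h2, h3, h4, h5⟩, ⟨h6, h7, h8, h9⟩, ⟨h10, h11, h12⟩, ⟨h13, h14⟩, h15, -⟩ := hn
  unfold ed
  grind

/-- PROOF: `rl_ed`, `rl_Inv`; the relation for `β`, `a`, ... goes to the relation for `rl σ β`, `σ a`, .... -/
theorem InG_sO (σ : Equiv.Perm ℕ) {f : VV} (hf : InG f) : InG (sO σ f) := by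
  refine ⟨fun τ A h => ?_, fun β A a b c d h1 h2 h3 => ?_, fun β A x0 x1 x2 y0 y1 y2 h1 h2 h3 => ?_⟩
  · exact hf.g0 _ A fun h' => h ((rl_Inv σ τ).1 h')
  · have hfix : ∀ x ∈ [σ a, σ b, σ c, σ d], rl σ β x = x := by
      intro x hx
      obtain ⟨y, hy, rfl⟩ := List.mem_map.1 (show x ∈ [a, b, c, d].map σ from hx)
      exact (rl_apply_eq σ β y y).2 (h2 y hy)
    have hn : [σ a, σ b, σ c, σ d].Nodup := h3.map σ.injective
    have e := hf.g4 (rl σ β) A (σ a) (σ b) (σ c) (σ d) ((rl_Inv σ β).2 h1) hfix hn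
    show f (rl σ _) A + f (rl σ _) A + f (rl σ _) A = 0
    rw [rl_ed, rl_ed, rl_ed, rl_ed, rl_ed, rl_ed]
    exact e
  · have hfix : ∀ x ∈ [σ x0, σ x1, σ x2, σ y0, σ y1, σ y2], rl σ β x = x := by
      intro x hx
      obtain ⟨y, hy, rfl⟩ := List.mem_map.1 (show x ∈ [x0, x1, x2, y0, y1, y2].map σ from hx)
      exact (rl_apply_eq σ β y y).2 (h2 y hy)
    have hn : [σ x0, σ x1, σ x2, σ y0, σ y1, σ y2].Nodup := h3.map σ.injective
    have e := hf.g6 (rl σ β) A (σ x0) (σ x1) (σ x2) (σ y0) (σ y1) (σ y2) ((rl_Inv σ β).2 h1) hfix hn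
    show f (rl σ _) A + f (rl σ _) A + f (rl σ _) A = 0
    rw [rl_ed, rl_ed, rl_ed, rl_ed, rl_ed, rl_ed, rl_ed, rl_ed, rl_ed]
    exact e

/-- Multiplication with a condition which depends only on the set of fixed points.
PROOF. `g0`: clear. `g4`, `g6`: the three closings in a relation have the same fixed points (the points `a, b, c, d` are not fixed, the others as for `β`), so the condition holds for all three or for none. -/
theorem InG_cond (w : (ℕ → ℕ) → Prop) [DecidablePred w]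
    (hw : ∀ τ τ' : ℕ → ℕ, (∀ x, τ x = x ↔ τ' x = x) → (w τ ↔ w τ')) {f : VV} (hf : InG f) :
    InG (fun τ A => if w τ then f τ A else 0) := by
  refine ⟨fun τ A h => ?_, fun β A a b c d h1 h2 h3 => ?_, fun β A x0 x1 x2 y0 y1 y2 h1 h2 h3 => ?_⟩
  · show (if w τ then f τ A else 0) = 0
    rw [hf.g0 τ A h, ite_self]
  · have n2 : [a, c, b, d].Nodup := by
      simp only [List.nodup_cons, List.mem_cons, List.not_mem_nil, or_false, not_or] at h3 ⊢
      grind
    have n3 : [a, d, b, c].Nodup := by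
      simp only [List.nodup_cons, List.mem_cons, List.not_mem_nil, or_false, not_or] at h3 ⊢
      grind
    have e2 : w (ed a b (ed c d β)) ↔ w (ed a c (ed b d β)) := hw _ _ fun x => by
      rw [M02_fix4 β h3 x, M02_fix4 β n2 x]
      tauto
    have e3 : w (ed a b (ed c d β)) ↔ w (ed a d (ed b c β)) := hw _ _ fun x => by
      rw [M02_fix4 β h3 x, M02_fix4 β n3 x]
      tauto
    show (if w (ed a b (ed c d β)) then f (ed a b (ed c d β)) A else 0) +
      (if w (ed a c (ed b d β)) then f (ed a c (ed b d β)) A else 0) +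
      (if w (ed a d (ed b c β)) then f (ed a d (ed b c β)) A else 0) = 0
    by_cases h : w (ed a b (ed c d β))
    · rw [if_pos h, if_pos (e2.1 h), if_pos (e3.1 h)]
      exact hf.g4 β A a b c d h1 h2 h3
    · rw [if_neg h, if_neg (fun h' => h (e2.2 h')), if_neg (fun h' => h (e3.2 h'))]
      rfl
  · have n2 : [x0, x1, x2, y1, y2, y0].Nodup := by
      simp only [List.nodup_cons, List.mem_cons, List.not_mem_nil, or_false, not_or] at h3 ⊢
      grind
    have n3 : [x0, x1, x2, y2, y0, y1].Nodup := by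
      simp only [List.nodup_cons, List.mem_cons, List.not_mem_nil, or_false, not_or] at h3 ⊢
      grind
    have e2 : w (ed x0 y0 (ed x1 y1 (ed x2 y2 β))) ↔ w (ed x0 y1 (ed x1 y2 (ed x2 y0 β))) := hw _ _ fun x => by
      rw [M02_fix6 β h3 x, M02_fix6 β n2 x]
      tauto
    have e3 : w (ed x0 y0 (ed x1 y1 (ed x2 y2 β))) ↔ w (ed x0 y2 (ed x1 y0 (ed x2 y1 β))) := hw _ _ fun x => by
      rw [M02_fix6 β h3 x, M02_fix6 β n3 x]
      tauto
    show (if w (ed x0 y0 (ed x1 y1 (ed x2 y2 β))) then f (ed x0 y0 (ed x1 y1 (ed x2 y2 β))) A else 0) +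
      (if w (ed x0 y1 (ed x1 y2 (ed x2 y0 β))) then f (ed x0 y1 (ed x1 y2 (ed x2 y0 β))) A else 0) +
      (if w (ed x0 y2 (ed x1 y0 (ed x2 y1 β))) then f (ed x0 y2 (ed x1 y0 (ed x2 y1 β))) A else 0) = 0
    by_cases h : w (ed x0 y0 (ed x1 y1 (ed x2 y2 β)))
    · rw [if_pos h, if_pos (e2.1 h), if_pos (e3.1 h)]
      exact hf.g6 β A x0 x1 x2 y0 y1 y2 h1 h2 h3
    · rw [if_neg h, if_neg (fun h' => h (e2.2 h')), if_neg (fun h' => h (e3.2 h'))]
      rfl

theorem InG_nO {f : VV} (hf : InG f) : InG (nO f) := by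
  have e : nO f = fun τ A => if τ 0 ≠ 0 then f τ A else 0 := by
    funext τ A
    unfold nO
    by_cases h : τ 0 = 0
    · rw [if_pos h, if_neg (not_not.2 h)]
    · rw [if_neg h, if_pos h]
  rw [e]
  exact InG_cond (fun τ => τ 0 ≠ 0) (fun τ τ' h => not_congr (h 0)) hf

theorem InG_pO (p : ℕ) {f : VV} (hf : InG f) : InG (pO p f) := by
  exact InG_cond (fun τ => τ p = p) (fun τ τ' h => h p) hf

theorem InG_aO (i : ℕ) {f : VV} (hf : InG f) : InG (aO i f) := by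
  refine ⟨fun τ A h => ?_, fun β A a b c d h1 h2 h3 => ?_, fun β A x0 x1 x2 y0 y1 y2 h1 h2 h3 => ?_⟩
  · unfold aO
    rw [hf.g0 τ _ h, ite_self]
  · unfold aO
    by_cases h : i ∈ A
    · rw [if_pos h, if_pos h, if_pos h]
      exact hf.g4 β (A.erase i) a b c d h1 h2 h3
    · rw [if_neg h, if_neg h, if_neg h]
      rfl
  · unfold aO
    by_cases h : i ∈ A
    · rw [if_pos h, if_pos h, if_pos h]
      exact hf.g6 β (A.erase i) x0 x1 x2 y0 y1 y2 h1 h2 h3
    · rw [if_neg h, if_neg h, if_neg h]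
      rfl

end E4.M
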