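import Pool.Agent.Lib.MP_8a95e3_al.M03c

/-!
# M03 : contractions preserve (g4)
-/

namespace E4.M

/-- PROOF: `cc_symm` (and the symmetry of the conditions, `τ p = q ↔ τ q = p`). -/
theorem cO_symm (p q : ℕ) (f : VV) : cO p q f = cO q p f := by
  funext τ A
  simp only [cO]
  by_cases h : p ≠ q ∧ Inv τ ∧ τ p ≠ p ∧ τ q ≠ q ∧ τ p ≠ q
  · obtain ⟨h1, h2, h3, h4, h5⟩ := h
    have h6 : τ q ≠ p := fun e => h5 (by rw [← e, h2])
    rw [if_pos ⟨h1, h2, h3, h4, h5⟩, if_pos ⟨h1.symm, h2, h4, h3, h6⟩, cc_symm h2 h1 h3 h4 h5]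
  · rw [if_neg h, if_neg]
    rintro ⟨h1, h2, h3, h4, h5⟩
    exact h ⟨h1.symm, h2, h4, h3, fun e => h5 (by rw [← e, h2])⟩

/-- **Contractions preserve (g4).**

PROOF. If `p` is one of `a, b, c, d`: by `g4_rot`, `g4_swap`, `g4_swap'` we may assume `p = a`; if `q` is one of the others, by `g4_swap`, `g4_swap'` we may assume `q = b`: `cO_g4_in`; otherwise `cO_g4_out`. If `p` is outside and `q` is one of them: `cO_symm`.
Both outside: `cO_g4_off`. (`p = q`: all values are `0`.) -/
theorem cO_g4 (p q : ℕ) {f : VV} (hf : InG f) (β : ℕ → ℕ) (A : Finset ℕ) (a b c d : ℕ) (hβ : Inv β)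
    (hx : ∀ x ∈ [a, b, c, d], β x = x) (hn : [a, b, c, d].Nodup) :
    cO p q f (ed a b (ed c d β)) A + cO p q f (ed a c (ed b d β)) A + cO p q f (ed a d (ed b c β)) A = 0 := by
  have L1 : ∀ (q a b c d : ℕ), (∀ x ∈ [a, b, c, d], β x = x) → [a, b, c, d].Nodup →
      cO a q f (ed a b (ed c d β)) A + cO a q f (ed a c (ed b d β)) A + cO a q f (ed a d (ed b c β)) A = 0 := by
    intro q a b c d hx hn
    have z : ∀ τ, cO a a f τ A = 0 := by
      intro τ
      simp only [cO]
      rw [if_neg]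
      rintro ⟨h, -⟩
      exact h rfl
    by_cases qa : q = a
    · subst qa
      rw [z, z, z]
      rfl
    by_cases qb : q = b
    · subst qb
      exact cO_g4_in hf A hβ hx hn
    by_cases qc : q = c
    · subst qc
      apply g4_swap (F := fun τ => cO a q f τ A) hn
      exact cO_g4_in hf A hβ (by intro x hx'; apply hx; simp at hx' ⊢; tauto) (by simp at hn ⊢; grind)
    by_cases qd : q = d
    · subst qd
      apply g4_swap' (F := fun τ => cO a q f τ A) hn
      apply g4_swap (F := fun τ => cO a q f τ A) (a := a) (b := b) (c := q) (d := c) (by simp at hn ⊢; grind)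
      exact cO_g4_in hf A hβ (by intro x hx'; apply hx; simp at hx' ⊢; tauto) (by simp at hn ⊢; grind)
    exact cO_g4_out hf A hβ hx hn (by simp; tauto)
  have L2 : ∀ (p q : ℕ), p ∈ [a, b, c, d] →
      cO p q f (ed a b (ed c d β)) A + cO p q f (ed a c (ed b d β)) A + cO p q f (ed a d (ed b c β)) A = 0 := by
    intro p q hp
    simp at hp
    rcases hp with rfl | rfl | rfl | rfl
    · exact L1 q _ _ _ _ hx hn
    · apply g4_rot (F := fun τ => cO p q f τ A) hn
      exact L1 q _ _ _ _ (by intro x hx'; apply hx; simp at hx' ⊢; tauto) (by simp at hn ⊢; grind)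
    · apply g4_swap (F := fun τ => cO p q f τ A) hn
      apply g4_rot (F := fun τ => cO p q f τ A) (a := a) (b := p) (c := b) (d := d) (by simp at hn ⊢; grind)
      exact L1 q _ _ _ _ (by intro x hx'; apply hx; simp at hx' ⊢; tauto) (by simp at hn ⊢; grind)
    · apply g4_swap' (F := fun τ => cO p q f τ A) hn
      apply g4_swap (F := fun τ => cO p q f τ A) (a := a) (b := b) (c := p) (d := c) (by simp at hn ⊢; grind)
      apply g4_rot (F := fun τ => cO p q f τ A) (a := a) (b := p) (c := b) (d := c) (by simp at hn ⊢; grind)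
      exact L1 q _ _ _ _ (by intro x hx'; apply hx; simp at hx' ⊢; tauto) (by simp at hn ⊢; grind)
  by_cases hp : p ∈ [a, b, c, d]
  · exact L2 p q hp
  · by_cases hq : q ∈ [a, b, c, d]
    · rw [cO_symm p q]
      exact L2 q p hq
    · exact cO_g4_off hf A hβ hx hn hp hq

end E4.M
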