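import Pool.Agent.Lib.MP_8a95e3_al.M02

/-!
# M03a : contractions and the relation (g4), symmetries and the first case
-/

namespace E4.M

/-- The symmetries of the relation (g4). PROOF: `ed_comm`, `ed_ed_comm`, commutativity of addition. -/
theorem g4_rot {F : (ℕ → ℕ) → ZMod 2} {β : ℕ → ℕ} {a b c d : ℕ} (hn : [a, b, c, d].Nodup)
    (h : F (ed b a (ed c d β)) + F (ed b c (ed a d β)) + F (ed b d (ed a c β)) = 0) :
    F (ed a b (ed c d β)) + F (ed a c (ed b d β)) + F (ed a d (ed b c β)) = 0 := by
  have e1 : ed b a (ed c d β) = ed a b (ed c d β) := ed_comm _ _ _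
  have e2 : ed b c (ed a d β) = ed a d (ed b c β) := by
    funext x
    simp at hn
    simp only [ed]
    grind
  have e3 : ed b d (ed a c β) = ed a c (ed b d β) := by
    funext x
    simp at hn
    simp only [ed]
    grind
  rw [e1, e2, e3] at h
  linear_combination h

theorem g4_swap {F : (ℕ → ℕ) → ZMod 2} {β : ℕ → ℕ} {a b c d : ℕ} (hn : [a, b, c, d].Nodup)
    (h : F (ed a c (ed b d β)) + F (ed a b (ed c d β)) + F (ed a d (ed c b β)) = 0) :
    F (ed a b (ed c d β)) + F (ed a c (ed b d β)) + F (ed a d (ed b c β)) = 0 := by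
  have e1 : ed a d (ed c b β) = ed a d (ed b c β) := by rw [ed_comm c b]
  rw [e1] at h
  linear_combination h

theorem g4_swap' {F : (ℕ → ℕ) → ZMod 2} {β : ℕ → ℕ} {a b c d : ℕ} (hn : [a, b, c, d].Nodup)
    (h : F (ed a b (ed d c β)) + F (ed a d (ed b c β)) + F (ed a c (ed b d β)) = 0) :
    F (ed a b (ed c d β)) + F (ed a c (ed b d β)) + F (ed a d (ed b c β)) = 0 := by
  rw [ed_comm d c] at h
  linear_combination h

/-- `p = a`, `q = b`: the first value is `0` (the edge `p - q`), the contractions of the other two closings are both `ed c d β` (`cc_ed_ed`; `ed_comm`). -/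
theorem cO_g4_in {f : VV} (hf : InG f) {β : ℕ → ℕ} (A : Finset ℕ) {a b c d : ℕ} (hβ : Inv β)
    (hx : ∀ x ∈ [a, b, c, d], β x = x) (hn : [a, b, c, d].Nodup) :
    cO a b f (ed a b (ed c d β)) A + cO a b f (ed a c (ed b d β)) A + cO a b f (ed a d (ed b c β)) A = 0 := by
  have h1 := hx a (by simp)
  have h2 := hx b (by simp)
  have h3 := hx c (by simp)
  have h4 := hx d (by simp)
  clear hx
  simp at hn
  have e1 : cO a b f (ed a b (ed c d β)) A = 0 := by
    simp only [cO]
    rw [if_neg]
    rintro ⟨-, -, -, -, h⟩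
    exact h (ed_left _ _ _)
  have e2 : cO a b f (ed a c (ed b d β)) A = f (ed c d β) A := by
    simp only [cO]
    rw [if_pos]
    · congr 1
      funext x
      simp only [cc, ed]
      grind
    · refine ⟨hn.1.1, ?_, ?_, ?_, ?_⟩
      · apply ed_Inv (ed_Inv hβ h2 h4) <;> (simp only [ed]; grind)
      · simp only [ed]; grind
      · simp only [ed]; grind
      · simp only [ed]; grind
  have e3 : cO a b f (ed a d (ed b c β)) A = f (ed c d β) A := by
    simp only [cO]
    rw [if_pos]
    · congr 1
      funext x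
      simp only [cc, ed]
      grind
    · refine ⟨hn.1.1, ?_, ?_, ?_, ?_⟩
      · apply ed_Inv (ed_Inv hβ h2 h3) <;> (simp only [ed]; grind)
      · simp only [ed]; grind
      · simp only [ed]; grind
      · simp only [ed]; grind
  rw [e1, e2, e3, zero_add]
  exact CharTwo.add_self_eq_zero _

end E4.M
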