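import Pool.Agent.Lib.MP_8a95e3_al.M03a

/-!
# M03b : contractions and the relation (g4), the second case
-/

namespace E4.M

theorem M03b_val {p q : ℕ} {f : VV} {τ τ' : ℕ → ℕ} {A : Finset ℕ} (h1 : p ≠ q) (h2 : Inv τ) (h3 : τ p ≠ p) (h4 : τ q ≠ q)
    (h5 : τ p ≠ q) (e : cc p q τ = τ') : cO p q f τ A = f τ' A := by
  subst e
  simp only [cO]
  exact if_pos ⟨h1, h2, h3, h4, h5⟩

theorem M03b_zero {p q : ℕ} {f : VV} {τ : ℕ → ℕ} {A : Finset ℕ} (h : τ q = q) : cO p q f τ A = 0 := by
  simp only [cO]
  rw [if_neg]
  rintro ⟨-, -, -, h', -⟩
  exact h' h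

/-- `p = a`, `q` outside, `y = β q` (if `y = q` all values are `0`): the contractions are the closings of (g4) for `y, b, c, d` and the base `β' = ed q q (ed y y β)` (`cc_ed_out`; `cc_ed_comm` for the other edge, or directly by function extensionality). -/
theorem cO_g4_out {f : VV} (hf : InG f) {β : ℕ → ℕ} (A : Finset ℕ) {a b c d q : ℕ} (hβ : Inv β)
    (hx : ∀ x ∈ [a, b, c, d], β x = x) (hn : [a, b, c, d].Nodup) (hq : q ∉ [a, b, c, d]) :
    cO a q f (ed a b (ed c d β)) A + cO a q f (ed a c (ed b d β)) A + cO a q f (ed a d (ed b c β)) A = 0 := by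
  have h1 := hx a (by simp)
  have h2 := hx b (by simp)
  have h3 := hx c (by simp)
  have h4 := hx d (by simp)
  clear hx
  simp at hn hq
  by_cases hy : β q = q
  · rw [M03b_zero, M03b_zero, M03b_zero]
    · rfl
    all_goals
      simp only [ed]
      grind
  · have hyy := hβ q
    have hI : Inv (ed q q (ed (β q) (β q) β)) := rem_Inv hβ rfl
    have key := hf.g4 (ed q q (ed (β q) (β q) β)) A (β q) b c d hI
      (by
        intro x hx
        simp at hx
        rcases hx with rfl | rfl | rfl | rfl <;> (simp only [ed]; grind))
      (by
        simp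
        grind)
    rw [← key]
    congr 1
    · congr 1
      · apply M03b_val
        · grind
        · apply ed_Inv (ed_Inv hβ h3 h4) <;> (simp only [ed]; grind)
        · simp only [ed]; grind
        · simp only [ed]; grind
        · simp only [ed]; grind
        · funext x
          simp only [cc, ed]
          grind
      · apply M03b_val
        · grind
        · apply ed_Inv (ed_Inv hβ h2 h4) <;> (simp only [ed]; grind)
        · simp only [ed]; grind
        · simp only [ed]; grind
        · simp only [ed]; grind
        · funext x
          simp only [cc, ed]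
          grind
    · apply M03b_val
      · grind
      · apply ed_Inv (ed_Inv hβ h2 h3) <;> (simp only [ed]; grind)
      · simp only [ed]; grind
      · simp only [ed]; grind
      · simp only [ed]; grind
      · funext x
        simp only [cc, ed]
        grind

end E4.M
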