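import Pool.Agent.Lib.MP_8a95e3_al.M03b

/-!
# M03c : contractions and the relation (g4), the third case
-/

namespace E4.M

/-- `p, q` both outside: if `β p = p` or `β q = q` or `β p = q` all values are `0`; otherwise `cc_ed_comm` (twice) and (g4) for the base `cc p q β` (`cc_Inv`, `cc_fix`). -/
theorem cO_g4_off {f : VV} (hf : InG f) {β : ℕ → ℕ} (A : Finset ℕ) {a b c d p q : ℕ} (hβ : Inv β)
    (hx : ∀ x ∈ [a, b, c, d], β x = x) (hn : [a, b, c, d].Nodup) (hp : p ∉ [a, b, c, d]) (hq : q ∉ [a, b, c, d]) :
    cO p q f (ed a b (ed c d β)) A + cO p q f (ed a c (ed b d β)) A + cO p q f (ed a d (ed b c β)) A = 0 := by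
  have h1 := hx a (by simp)
  have h2 := hx b (by simp)
  have h3 := hx c (by simp)
  have h4 := hx d (by simp)
  clear hx
  simp at hn hp hq
  by_cases hc : p ≠ q ∧ β p ≠ p ∧ β q ≠ q ∧ β p ≠ q
  · obtain ⟨hpq, hcp, hcq, hcpq⟩ := hc
    have ip := hβ p
    have iq := hβ q
    have key := hf.g4 (cc p q β) A a b c d (cc_Inv hβ hpq hcq hcpq)
      (by
        intro x hx
        simp at hx
        rcases hx with rfl | rfl | rfl | rfl
        · exact cc_fix hβ h1 (by grind) (by grind)
        · exact cc_fix hβ h2 (by grind) (by grind)
        · exact cc_fix hβ h3 (by grind) (by grind)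
        · exact cc_fix hβ h4 (by grind) (by grind))
      (by
        simp
        grind)
    rw [← key]
    congr 1
    · congr 1
      · apply M03b_val hpq
        · apply ed_Inv (ed_Inv hβ h3 h4) <;> (simp only [ed]; grind)
        · simp only [ed]; grind
        · simp only [ed]; grind
        · simp only [ed]; grind
        · funext x
          simp only [cc, ed]
          grind
      · apply M03b_val hpq
        · apply ed_Inv (ed_Inv hβ h2 h4) <;> (simp only [ed]; grind)
        · simp only [ed]; grind
        · simp only [ed]; grind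
        · simp only [ed]; grind
        · funext x
          simp only [cc, ed]
          grind
    · apply M03b_val hpq
      · apply ed_Inv (ed_Inv hβ h2 h3) <;> (simp only [ed]; grind)
      · simp only [ed]; grind
      · simp only [ed]; grind
      · simp only [ed]; grind
      · funext x
        simp only [cc, ed]
        grind
  · have z : ∀ τ : ℕ → ℕ, τ p = β p → τ q = β q → cO p q f τ A = 0 := by
      intro τ e1 e2
      simp only [cO]
      rw [if_neg]
      rintro ⟨g1, -, g2, g3, g4⟩
      apply hc
      rw [← e1, ← e2]
      exact ⟨g1, g2, g3, g4⟩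
    rw [z, z, z]
    · rfl
    all_goals
      simp only [ed]
      grind

end E4.M
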