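import Pool.Agent.Lib.MP_8a95e3_al.M04d

/-!
# M04 : contractions preserve (g6)
-/

namespace E4.M

/-- **Contractions preserve (g6).**

PROOF. If `p` is one of the six points, we may assume `p = x0` (`S6_XY`, `S6_rot`). If `q` is one of the `y`, we may assume `q = y0` (`S6_rotY`): `cO_S6_opp`. If `q = x1`: `cO_S6_same`; `q = x2`: `S6_tr`. `q` outside: `cO_S6_out`. If `p` is outside and `q` is one
of the six points: `cO_symm`. Both outside: `cO_S6_off`. `p = q`: all values are `0`. -/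
theorem cO_S6 (p q : ℕ) {f : VV} (hf : InG f) (β : ℕ → ℕ) (A : Finset ℕ) (x0 x1 x2 y0 y1 y2 : ℕ) (hβ : Inv β)
    (hx : ∀ x ∈ [x0, x1, x2, y0, y1, y2], β x = x) (hn : [x0, x1, x2, y0, y1, y2].Nodup) :
    S6 (fun τ => cO p q f τ A) β x0 x1 x2 y0 y1 y2 = 0 := by
  have L1 : ∀ (q x0 x1 x2 y0 y1 y2 : ℕ), (∀ x ∈ [x0, x1, x2, y0, y1, y2], β x = x) → [x0, x1, x2, y0, y1, y2].Nodup →
      S6 (fun τ => cO x0 q f τ A) β x0 x1 x2 y0 y1 y2 = 0 := by
    intro q x0 x1 x2 y0 y1 y2 hx hn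
    by_cases q0 : q = x0
    · subst q0
      have z : ∀ τ, cO q q f τ A = 0 := by
        intro τ
        simp only [cO]
        rw [if_neg]
        rintro ⟨h, -⟩
        exact h rfl
      simp only [S6]
      rw [z, z, z]
      rfl
    by_cases q1 : q = x1
    · subst q1
      exact cO_S6_same hf A hβ hx hn
    by_cases q2 : q = x2
    · subst q2
      rw [S6_tr _ _ hn]
      exact cO_S6_same hf A hβ (by intro x hx'; apply hx; simp at hx' ⊢; tauto) (by simp at hn ⊢; grind)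
    by_cases q3 : q = y0
    · subst q3
      exact cO_S6_opp hf A hβ hx hn
    by_cases q4 : q = y1
    · subst q4
      rw [S6_rotY _ _ hn]
      exact cO_S6_opp hf A hβ (by intro x hx'; apply hx; simp at hx' ⊢; tauto) (by simp at hn ⊢; grind)
    by_cases q5 : q = y2
    · subst q5
      rw [S6_rotY _ _ hn, S6_rotY _ _ (by simp at hn ⊢; grind)]
      exact cO_S6_opp hf A hβ (by intro x hx'; apply hx; simp at hx' ⊢; tauto) (by simp at hn ⊢; grind)
    exact cO_S6_out hf A hβ hx hn (by simp; tauto)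
  have L2 : ∀ (p q x0 x1 x2 y0 y1 y2 : ℕ), (∀ x ∈ [x0, x1, x2, y0, y1, y2], β x = x) → [x0, x1, x2, y0, y1, y2].Nodup →
      p ∈ [x0, x1, x2] → S6 (fun τ => cO p q f τ A) β x0 x1 x2 y0 y1 y2 = 0 := by
    intro p q x0 x1 x2 y0 y1 y2 hx hn hp
    simp at hp
    rcases hp with rfl | rfl | rfl
    · exact L1 q _ _ _ _ _ _ hx hn
    · rw [S6_rot _ _ hn]
      exact L1 q _ _ _ _ _ _ (by intro x hx'; apply hx; simp at hx' ⊢; tauto) (by simp at hn ⊢; grind)
    · rw [S6_rot _ _ hn, S6_rot _ _ (by simp at hn ⊢; grind)]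
      exact L1 q _ _ _ _ _ _ (by intro x hx'; apply hx; simp at hx' ⊢; tauto) (by simp at hn ⊢; grind)
  have L3 : ∀ (p q : ℕ), p ∈ [x0, x1, x2, y0, y1, y2] → S6 (fun τ => cO p q f τ A) β x0 x1 x2 y0 y1 y2 = 0 := by
    intro p q hp
    by_cases h : p ∈ [x0, x1, x2]
    · exact L2 p q _ _ _ _ _ _ hx hn h
    · rw [S6_XY _ _ hn]
      apply L2 p q _ _ _ _ _ _ (by intro x hx'; apply hx; simp at hx' ⊢; tauto) (by simp at hn ⊢; grind)
      simp at hp h ⊢
      tauto
  by_cases hp : p ∈ [x0, x1, x2, y0, y1, y2]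
  · exact L3 p q hp
  · by_cases hq : q ∈ [x0, x1, x2, y0, y1, y2]
    · rw [cO_symm p q]
      exact L3 q p hq
    · exact cO_S6_off hf A hβ hx hn hp hq

end E4.M
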