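import Pool.Agent.Lib.MP_8a95e3_al.M03

/-!
# M04a : the relation (g6): symmetries
-/

namespace E4.M

theorem M04a_three (F : (ℕ → ℕ) → ZMod 2) {a b c a' b' c' : ℕ → ℕ} (h : (a = a' ∧ b = b' ∧ c = c') ∨ (a = b' ∧ b = c' ∧ c = a') ∨
    (a = a' ∧ b = c' ∧ c = b')) : F a + F b + F c = F a' + F b' + F c' := by
  rcases h with ⟨rfl, rfl, rfl⟩ | ⟨rfl, rfl, rfl⟩ | ⟨rfl, rfl, rfl⟩ <;> ring

/-- The sum of the three values. -/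
def S6 (F : (ℕ → ℕ) → ZMod 2) (β : ℕ → ℕ) (x0 x1 x2 y0 y1 y2 : ℕ) : ZMod 2 :=
  F (ed x0 y0 (ed x1 y1 (ed x2 y2 β))) + F (ed x0 y1 (ed x1 y2 (ed x2 y0 β))) +
    F (ed x0 y2 (ed x1 y0 (ed x2 y1 β)))

/-- Rotation of the `x` and the `y`: the same three closings. PROOF: `ed_ed_comm`. -/
theorem S6_rot (F : (ℕ → ℕ) → ZMod 2) (β : ℕ → ℕ) {x0 x1 x2 y0 y1 y2 : ℕ} (hn : [x0, x1, x2, y0, y1, y2].Nodup) :
    S6 F β x0 x1 x2 y0 y1 y2 = S6 F β x1 x2 x0 y1 y2 y0 := by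
  simp only [S6]
  simp at hn
  apply M04a_three
  left
  refine ⟨?_, ?_, ?_⟩ <;> (funext x; simp only [ed]; grind)

/-- Rotation of the `y`: `m0, m1, m2` are permuted cyclically. -/
theorem S6_rotY (F : (ℕ → ℕ) → ZMod 2) (β : ℕ → ℕ) {x0 x1 x2 y0 y1 y2 : ℕ} (hn : [x0, x1, x2, y0, y1, y2].Nodup) :
    S6 F β x0 x1 x2 y0 y1 y2 = S6 F β x0 x1 x2 y1 y2 y0 := by
  simp only [S6]
  simp at hn
  ring

/-- Exchange of the `x` and the `y`: `m1` and `m2` are exchanged. -/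
theorem S6_XY (F : (ℕ → ℕ) → ZMod 2) (β : ℕ → ℕ) {x0 x1 x2 y0 y1 y2 : ℕ} (hn : [x0, x1, x2, y0, y1, y2].Nodup) :
    S6 F β x0 x1 x2 y0 y1 y2 = S6 F β y0 y1 y2 x0 x1 x2 := by
  simp only [S6]
  simp at hn
  apply M04a_three
  right
  right
  refine ⟨?_, ?_, ?_⟩ <;> (funext x; simp only [ed]; grind)

/-- Exchange of the indices 1 and 2: `m1` and `m2` are exchanged. -/
theorem S6_tr (F : (ℕ → ℕ) → ZMod 2) (β : ℕ → ℕ) {x0 x1 x2 y0 y1 y2 : ℕ} (hn : [x0, x1, x2, y0, y1, y2].Nodup) :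
    S6 F β x0 x1 x2 y0 y1 y2 = S6 F β x0 x2 x1 y0 y2 y1 := by
  simp only [S6]
  simp at hn
  apply M04a_three
  right
  right
  refine ⟨?_, ?_, ?_⟩ <;> (funext x; simp only [ed]; grind)

end E4.M
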