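import Pool.Agent.Lib.MP_8a95e3_al.M04a

/-!
# M04b : contractions and the relation (g6), both points inside
-/

namespace E4.M

/-- `p = x0`, `q = y0`: `m0` gives `0`; the contraction of `m1` (`x0 - y1`, `x2 - y0`) and the contraction of `m2` (`x0 - y2`, `x1 - y0`) are both `ed x1 y2 (ed x2 y1 β)`. -/
theorem cO_S6_opp {f : VV} (hf : InG f) {β : ℕ → ℕ} (A : Finset ℕ) {x0 x1 x2 y0 y1 y2 : ℕ} (hβ : Inv β)
    (hx : ∀ x ∈ [x0, x1, x2, y0, y1, y2], β x = x) (hn : [x0, x1, x2, y0, y1, y2].Nodup) :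
    S6 (fun τ => cO x0 y0 f τ A) β x0 x1 x2 y0 y1 y2 = 0 := by
  simp only [S6]
  have h1 := hx x0 (by simp)
  have h2 := hx x1 (by simp)
  have h3 := hx x2 (by simp)
  have h4 := hx y0 (by simp)
  have h5 := hx y1 (by simp)
  have h6 := hx y2 (by simp)
  clear hx
  simp at hn
  have e1 : cO x0 y0 f (ed x0 y0 (ed x1 y1 (ed x2 y2 β))) A = 0 := by
    simp only [cO]
    rw [if_neg]
    rintro ⟨-, -, -, -, h⟩
    exact h (ed_left _ _ _)
  have e2 : cO x0 y0 f (ed x0 y1 (ed x1 y2 (ed x2 y0 β))) A = f (ed x1 y2 (ed x2 y1 β)) A := by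
    apply M03b_val
    · grind
    · apply ed_Inv (ed_Inv (ed_Inv hβ h3 h4) _ _) <;> (simp only [ed]; grind)
    · simp only [ed]; grind
    · simp only [ed]; grind
    · simp only [ed]; grind
    · funext x
      simp only [cc, ed]
      grind
  have e3 : cO x0 y0 f (ed x0 y2 (ed x1 y0 (ed x2 y1 β))) A = f (ed x1 y2 (ed x2 y1 β)) A := by
    apply M03b_val
    · grind
    · apply ed_Inv (ed_Inv (ed_Inv hβ h3 h5) _ _) <;> (simp only [ed]; grind)
    · simp only [ed]; grind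
    · simp only [ed]; grind
    · simp only [ed]; grind
    · funext x
      simp only [cc, ed]
      grind
  rw [e1, e2, e3, zero_add]
  exact CharTwo.add_self_eq_zero _

/-- `p = x0`, `q = x1`: the contractions are `ed y0 y1 (ed x2 y2 β)`, `ed y1 y2 (ed x2 y0 β)`, `ed y2 y0 (ed x2 y1 β)`: (g4) for `x2, y0, y1, y2`. -/
theorem cO_S6_same {f : VV} (hf : InG f) {β : ℕ → ℕ} (A : Finset ℕ) {x0 x1 x2 y0 y1 y2 : ℕ} (hβ : Inv β)
    (hx : ∀ x ∈ [x0, x1, x2, y0, y1, y2], β x = x) (hn : [x0, x1, x2, y0, y1, y2].Nodup) :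
    S6 (fun τ => cO x0 x1 f τ A) β x0 x1 x2 y0 y1 y2 = 0 := by
  simp only [S6]
  have key := hf.g4 β A x2 y0 y1 y2 hβ (by intro x hx'; apply hx; simp at hx' ⊢; tauto) (by simp at hn ⊢; grind)
  have h1 := hx x0 (by simp)
  have h2 := hx x1 (by simp)
  have h3 := hx x2 (by simp)
  have h4 := hx y0 (by simp)
  have h5 := hx y1 (by simp)
  have h6 := hx y2 (by simp)
  clear hx
  simp at hn
  have e1 : cO x0 x1 f (ed x0 y0 (ed x1 y1 (ed x2 y2 β))) A = f (ed x2 y2 (ed y0 y1 β)) A := by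
    apply M03b_val
    · grind
    · apply ed_Inv (ed_Inv (ed_Inv hβ h3 h6) _ _) <;> (simp only [ed]; grind)
    · simp only [ed]; grind
    · simp only [ed]; grind
    · simp only [ed]; grind
    · funext x
      simp only [cc, ed]
      grind
  have e2 : cO x0 x1 f (ed x0 y1 (ed x1 y2 (ed x2 y0 β))) A = f (ed x2 y0 (ed y1 y2 β)) A := by
    apply M03b_val
    · grind
    · apply ed_Inv (ed_Inv (ed_Inv hβ h3 h4) _ _) <;> (simp only [ed]; grind)
    · simp only [ed]; grind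
    · simp only [ed]; grind
    · simp only [ed]; grind
    · funext x
      simp only [cc, ed]
      grind
  have e3 : cO x0 x1 f (ed x0 y2 (ed x1 y0 (ed x2 y1 β))) A = f (ed x2 y1 (ed y0 y2 β)) A := by
    apply M03b_val
    · grind
    · apply ed_Inv (ed_Inv (ed_Inv hβ h3 h5) _ _) <;> (simp only [ed]; grind)
    · simp only [ed]; grind
    · simp only [ed]; grind
    · simp only [ed]; grind
    · funext x
      simp only [cc, ed]
      grind
  rw [e1, e2, e3, ← key]
  ring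

end E4.M
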