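import Pool.Agent.Lib.MP_8a95e3_al.M04b

/-!
# M04c : contractions and the relation (g6), one point inside
-/

namespace E4.M

/-- `p = x0`, `q` outside, `y = β q` (if `y = q` all values are `0`): (g6) for `y, x1, x2, y0, y1, y2` and the base `ed q q (ed y y β)`. -/
theorem cO_S6_out {f : VV} (hf : InG f) {β : ℕ → ℕ} (A : Finset ℕ) {x0 x1 x2 y0 y1 y2 q : ℕ} (hβ : Inv β)
    (hx : ∀ x ∈ [x0, x1, x2, y0, y1, y2], β x = x) (hn : [x0, x1, x2, y0, y1, y2].Nodup)
    (hq : q ∉ [x0, x1, x2, y0, y1, y2]) :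
    S6 (fun τ => cO x0 q f τ A) β x0 x1 x2 y0 y1 y2 = 0 := by
  simp only [S6]
  have h1 := hx x0 (by simp)
  have h2 := hx x1 (by simp)
  have h3 := hx x2 (by simp)
  have h4 := hx y0 (by simp)
  have h5 := hx y1 (by simp)
  have h6 := hx y2 (by simp)
  clear hx
  simp at hn hq
  by_cases hy : β q = q
  · rw [M03b_zero, M03b_zero, M03b_zero]
    · rfl
    all_goals
      simp only [ed]
      grind
  have hyy := hβ q
  have hI : Inv (ed q q (ed (β q) (β q) β)) := rem_Inv hβ rfl
  have key := hf.g6 (ed q q (ed (β q) (β q) β)) A (β q) x1 x2 y0 y1 y2 hI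
    (by
      intro x hx
      simp at hx
      rcases hx with rfl | rfl | rfl | rfl | rfl | rfl <;> (simp only [ed]; grind))
    (by
      simp
      grind)
  have e1 : cO x0 q f (ed x0 y0 (ed x1 y1 (ed x2 y2 β))) A = f (ed (β q) y0 (ed x1 y1 (ed x2 y2 (ed q q (ed (β q) (β q) β))))) A := by
    apply M03b_val
    · grind
    · apply ed_Inv (ed_Inv (ed_Inv hβ h3 h6) _ _) <;> (simp only [ed]; grind)
    · simp only [ed]; grind
    · simp only [ed]; grind
    · simp only [ed]; grind
    · funext x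
      simp only [cc, ed]
      grind
  have e2 : cO x0 q f (ed x0 y1 (ed x1 y2 (ed x2 y0 β))) A = f (ed (β q) y1 (ed x1 y2 (ed x2 y0 (ed q q (ed (β q) (β q) β))))) A := by
    apply M03b_val
    · grind
    · apply ed_Inv (ed_Inv (ed_Inv hβ h3 h4) _ _) <;> (simp only [ed]; grind)
    · simp only [ed]; grind
    · simp only [ed]; grind
    · simp only [ed]; grind
    · funext x
      simp only [cc, ed]
      grind
  have e3 : cO x0 q f (ed x0 y2 (ed x1 y0 (ed x2 y1 β))) A = f (ed (β q) y2 (ed x1 y0 (ed x2 y1 (ed q q (ed (β q) (β q) β))))) A := by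
    apply M03b_val
    · grind
    · apply ed_Inv (ed_Inv (ed_Inv hβ h3 h5) _ _) <;> (simp only [ed]; grind)
    · simp only [ed]; grind
    · simp only [ed]; grind
    · simp only [ed]; grind
    · funext x
      simp only [cc, ed]
      grind
  rw [e1, e2, e3, key]

end E4.M
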