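import Pool.Agent.Lib.MP_8a95e3_al.M04c

/-!
# M04d : contractions and the relation (g6), both points outside
-/

namespace E4.M

/-- `p, q` outside: `cc_ed_comm` (three times) and (g6) for the base `cc p q β`. -/
theorem cO_S6_off {f : VV} (hf : InG f) {β : ℕ → ℕ} (A : Finset ℕ) {x0 x1 x2 y0 y1 y2 p q : ℕ} (hβ : Inv β)
    (hx : ∀ x ∈ [x0, x1, x2, y0, y1, y2], β x = x) (hn : [x0, x1, x2, y0, y1, y2].Nodup)
    (hp : p ∉ [x0, x1, x2, y0, y1, y2]) (hq : q ∉ [x0, x1, x2, y0, y1, y2]) :
    S6 (fun τ => cO p q f τ A) β x0 x1 x2 y0 y1 y2 = 0 := by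
  simp only [S6]
  have h1 := hx x0 (by simp)
  have h2 := hx x1 (by simp)
  have h3 := hx x2 (by simp)
  have h4 := hx y0 (by simp)
  have h5 := hx y1 (by simp)
  have h6 := hx y2 (by simp)
  clear hx
  simp at hn hp hq
  by_cases hc : p ≠ q ∧ β p ≠ p ∧ β q ≠ q ∧ β p ≠ q
  · obtain ⟨hpq, hcp, hcq, hcpq⟩ := hc
    have ip := hβ p
    have iq := hβ q
    have comm : ∀ (τ : ℕ → ℕ) (u v : ℕ), τ p = β p → τ q = β q → β u = u → β v = v → u ≠ p → u ≠ q → v ≠ p → v ≠ q →
        cc p q (ed u v τ) = ed u v (cc p q τ) := by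
      intro τ u v e1 e2 hu hv g1 g2 g3 g4
      apply cc_ed_comm
      intro x hx
      simp at hx
      rcases hx with rfl | rfl | rfl | rfl
      · exact ⟨g1.symm, g3.symm⟩
      · exact ⟨g2.symm, g4.symm⟩
      · rw [e1]
        constructor
        · intro e
          exact g1 (by rw [← ip, e, hu])
        · intro e
          exact g3 (by rw [← ip, e, hv])
      · rw [e2]
        constructor
        · intro e
          exact g2 (by rw [← iq, e, hu])
        · intro e
          exact g4 (by rw [← iq, e, hv])
    have key := hf.g6 (cc p q β) A x0 x1 x2 y0 y1 y2 (cc_Inv hβ hpq hcq hcpq)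
      (by
        intro x hx
        simp at hx
        rcases hx with rfl | rfl | rfl | rfl | rfl | rfl
        · exact cc_fix hβ h1 (by grind) (by grind)
        · exact cc_fix hβ h2 (by grind) (by grind)
        · exact cc_fix hβ h3 (by grind) (by grind)
        · exact cc_fix hβ h4 (by grind) (by grind)
        · exact cc_fix hβ h5 (by grind) (by grind)
        · exact cc_fix hβ h6 (by grind) (by grind))
      (by
        simp
        grind)
    have e1 : cO p q f (ed x0 y0 (ed x1 y1 (ed x2 y2 β))) A = f (ed x0 y0 (ed x1 y1 (ed x2 y2 (cc p q β)))) A := by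
      apply M03b_val
      · grind
      · apply ed_Inv (ed_Inv (ed_Inv hβ h3 h6) _ _) <;> (simp only [ed]; grind)
      · simp only [ed]; grind
      · simp only [ed]; grind
      · simp only [ed]; grind
      · rw [comm (ed x1 y1 (ed x2 y2 β)) x0 y0 (by simp only [ed]; grind) (by simp only [ed]; grind) h1 h4 (by grind) (by grind) (by grind) (by grind),
          comm (ed x2 y2 β) x1 y1 (by simp only [ed]; grind) (by simp only [ed]; grind) h2 h5 (by grind) (by grind) (by grind) (by grind),
          comm β x2 y2 rfl rfl h3 h6 (by grind) (by grind) (by grind) (by grind)]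
    have e2 : cO p q f (ed x0 y1 (ed x1 y2 (ed x2 y0 β))) A = f (ed x0 y1 (ed x1 y2 (ed x2 y0 (cc p q β)))) A := by
      apply M03b_val
      · grind
      · apply ed_Inv (ed_Inv (ed_Inv hβ h3 h4) _ _) <;> (simp only [ed]; grind)
      · simp only [ed]; grind
      · simp only [ed]; grind
      · simp only [ed]; grind
      · rw [comm (ed x1 y2 (ed x2 y0 β)) x0 y1 (by simp only [ed]; grind) (by simp only [ed]; grind) h1 h5 (by grind) (by grind) (by grind) (by grind),
          comm (ed x2 y0 β) x1 y2 (by simp only [ed]; grind) (by simp only [ed]; grind) h2 h6 (by grind) (by grind) (by grind) (by grind),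
          comm β x2 y0 rfl rfl h3 h4 (by grind) (by grind) (by grind) (by grind)]
    have e3 : cO p q f (ed x0 y2 (ed x1 y0 (ed x2 y1 β))) A = f (ed x0 y2 (ed x1 y0 (ed x2 y1 (cc p q β)))) A := by
      apply M03b_val
      · grind
      · apply ed_Inv (ed_Inv (ed_Inv hβ h3 h5) _ _) <;> (simp only [ed]; grind)
      · simp only [ed]; grind
      · simp only [ed]; grind
      · simp only [ed]; grind
      · rw [comm (ed x1 y0 (ed x2 y1 β)) x0 y2 (by simp only [ed]; grind) (by simp only [ed]; grind) h1 h6 (by grind) (by grind) (by grind) (by grind),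
          comm (ed x2 y1 β) x1 y0 (by simp only [ed]; grind) (by simp only [ed]; grind) h2 h4 (by grind) (by grind) (by grind) (by grind),
          comm β x2 y1 rfl rfl h3 h5 (by grind) (by grind) (by grind) (by grind)]
    rw [e1, e2, e3, key]
  · have z : ∀ τ : ℕ → ℕ, τ p = β p → τ q = β q → cO p q f τ A = 0 := by
      intro τ e1 e2
      simp only [cO]
      rw [if_neg]
      rintro ⟨g1, -, g2, g3, g4⟩
      apply hc
      rw [← e1, ← e2]
      exact ⟨g1, g2, g3, g4⟩
    rw [z, z, z]
    · rfl
    all_goals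
      simp only [ed]
      grind

end E4.M
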