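import Pool.Agent.Lib.MP_8a95e3_al.M05a

/-!
# M05 : the operators map `GG` into itself
-/

namespace E4.M

/-- PROOF: `qO_eq`, `InG_cO`, `InG_sO`, `InG_cond`, `InG_add`. -/
theorem InG_qO (j : ℕ) {f : VV} (hf : InG f) : InG (qO j f) := by
  have e : qO j f = cO 0 (j + 3) f + fun τ A => if τ (j + 3) ≠ j + 3 ∧ τ 0 = 0 then sO (Equiv.swap 0 (j + 3)) f τ A else 0 := by
    funext τ A
    exact qO_eq j hf τ A
  rw [e]
  apply InG_add (InG_cO _ _ hf)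
  apply InG_cond (fun τ => τ (j + 3) ≠ j + 3 ∧ τ 0 = 0)
  · intro τ τ' h
    rw [ne_eq, ne_eq, h (j + 3), h 0]
  · exact InG_sO _ hf

end E4.M
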