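import Pool.Agent.Lib.MP_8a95e3_al.M04

/-!
# M05a : the operator of a letter as a sum
-/

namespace E4.M

theorem M05a_cc_app (p q : ℕ) (τ : ℕ → ℕ) (x : ℕ) :
    cc p q τ x = if x = q then q else if x = τ p then τ q else if x = τ q then τ p else if x = p then p else τ x := by
  simp only [cc, ed]
  grind

theorem M05a_rl {J : ℕ} (hJ : J ≠ 0) {τ : ℕ → ℕ} (h : Inv τ) (h0 : τ 0 = 0) (h1 : τ J ≠ J) : cc 0 J τ = rl (Equiv.swap 0 J) τ := by
  funext x
  have e1 := h x
  have e2 := h J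
  simp only [rl, Equiv.symm_swap, M05a_cc_app, h0]
  by_cases hx0 : x = 0
  · subst hx0
    rw [Equiv.swap_apply_left, if_neg hJ.symm, if_pos rfl, Equiv.swap_apply_of_ne_of_ne (by grind) h1]
  · by_cases hxJ : x = J
    · subst hxJ
      rw [Equiv.swap_apply_right, h0, Equiv.swap_apply_left, if_pos rfl]
    · rw [Equiv.swap_apply_of_ne_of_ne hx0 hxJ, if_neg hxJ, if_neg hx0, if_neg hx0]
      by_cases hxt : x = τ J
      · rw [if_pos hxt, hxt, e2, Equiv.swap_apply_right]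
      · rw [if_neg hxt, Equiv.swap_apply_of_ne_of_ne (by grind) (by grind)]

/-- PROOF: `cO_g4`, `cO_S6` (unfold `S6`), `g0` by definition. -/
theorem InG_cO (p q : ℕ) {f : VV} (hf : InG f) : InG (cO p q f) := by
  refine ⟨?_, ?_, ?_⟩
  · intro τ A h
    simp only [cO]
    rw [if_neg]
    rintro ⟨-, h', -⟩
    exact h h'
  · intro β A a b c d h1 h2 h3
    exact cO_g4 p q hf β A a b c d h1 h2 h3
  · intro β A x0 x1 x2 y0 y1 y2 h1 h2 h3
    exact cO_S6 p q hf β A x0 x1 x2 y0 y1 y2 h1 h2 h3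

/-- PROOF. Let `J = j + 3`. If `τ` is an involution with `τ J ≠ J`, `τ 0 ≠ J`: for `τ 0 ≠ 0` the first summand is `f (cc 0 J τ)` and the second is `0`. For `τ 0 = 0` the first summand is `0` and `cc 0 J τ = rl (swap 0 J) τ` (both fix `J`, join `0` with `τ J`
and agree with `τ` elsewhere). If `τ` is an involution with `τ J = J` all terms are `0`. If `τ 0 = J`: the left side is `0`, `cO` is `0` and `τ 0 ≠ 0`. If `τ` is not an involution, `f (rl _ τ) A = 0` (`g0`, `rl_Inv`). -/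
theorem qO_eq (j : ℕ) {f : VV} (hf : InG f) (τ : ℕ → ℕ) (A : Finset ℕ) :
    qO j f τ A = cO 0 (j + 3) f τ A +
      (if τ (j + 3) ≠ j + 3 ∧ τ 0 = 0 then sO (Equiv.swap 0 (j + 3)) f τ A else 0) := by
  simp only [qO, cO, sO]
  by_cases h : Inv τ
  · have e2 := h 0
    have e3 := h (j + 3)
    by_cases h0 : τ 0 = 0
    · by_cases h1 : τ (j + 3) = j + 3
      · rw [if_neg (by tauto), if_neg (by tauto), if_neg (by tauto), add_zero]
      · rw [if_pos ⟨h, h1, by omega⟩, if_neg (by tauto), if_pos ⟨h1, h0⟩, zero_add, M05a_rl (by omega) h h0 h1]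
    · rw [if_neg (c := τ (j + 3) ≠ j + 3 ∧ τ 0 = 0) (by tauto), add_zero]
      by_cases hc : τ (j + 3) ≠ j + 3 ∧ τ 0 ≠ j + 3
      · rw [if_pos ⟨h, hc⟩, if_pos ⟨by omega, h, h0, hc.1, hc.2⟩]
      · rw [if_neg (by tauto), if_neg (by tauto)]
  · rw [if_neg (by tauto), if_neg (by tauto), zero_add]
    split_ifs
    · rw [hf.g0]
      rw [rl_Inv]
      exact h
    · rfl

end E4.M
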