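import Pool.Agent.Lib.MP_8a95e3_al.MOp

/-!
# M06 : simple relations between the operators

All proofs: `EE_ext`, then `intro f τ A`, the values are `qO`, `cO`, `nO`, `aO` of `f.1` by definition (`show ...`, `simp only [qO, nO, ...]`), case distinctions.
-/

namespace E4.M

theorem M06_cc_app (p q : ℕ) (τ : ℕ → ℕ) (x : ℕ) :
    cc p q τ x = if x = q then q else if x = τ p then τ q else if x = τ q then τ p else if x = p then p else τ x := by
  simp only [cc, ed]
  grind

theorem N_N : N * N = N := by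
  apply EE_ext
  intro f τ A
  show nO (nO f.1) τ A = nO f.1 τ A
  simp only [nO]
  split_ifs <;> rfl

/-- The value of the contraction `cc 0 (j + 3) τ` at `0`: it is `0` if and only if `τ 0 ≠ 0`. -/
theorem cc_zero {j : ℕ} {τ : ℕ → ℕ} (h : Inv τ) (h1 : τ (j + 3) ≠ j + 3) (h2 : τ 0 ≠ j + 3) :
    cc 0 (j + 3) τ 0 = 0 ↔ τ 0 ≠ 0 := by
  have e := h 0
  have e1 := h (j + 3)
  simp only [M06_cc_app]
  grind

/-- PROOF: `cc_zero`. -/
theorem N_Q (j : ℕ) : N * Q j + Q j * N = Q j := by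
  apply EE_ext
  intro f τ A
  show nO (qO j f.1) τ A + qO j (nO f.1) τ A = qO j f.1 τ A
  simp only [nO, qO]
  by_cases h : Inv τ ∧ τ (j + 3) ≠ j + 3 ∧ τ 0 ≠ j + 3
  · have e := cc_zero h.1 h.2.1 h.2.2
    rw [if_pos h, if_pos h]
    by_cases h0 : τ 0 = 0
    · rw [if_pos h0, if_neg (by rw [e]; exact fun h' => h' h0), zero_add]
    · rw [if_neg h0, if_pos (e.2 h0), add_zero]
  · rw [if_neg h, if_neg h, add_zero]
    split_ifs <;> rfl

theorem a_Q (i j : ℕ) : a i * Q j = Q j * a i := by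
  apply EE_ext
  intro f τ A
  show aO i (qO j f.1) τ A = qO j (aO i f.1) τ A
  simp only [aO, qO]
  split_ifs <;> rfl

theorem a_N (i : ℕ) : a i * N = N * a i := by
  apply EE_ext
  intro f τ A
  show aO i (nO f.1) τ A = nO (aO i f.1) τ A
  simp only [aO, nO]
  split_ifs <;> rfl

theorem a_b (i j k : ℕ) : a i * b j k = b j k * a i := by
  apply EE_ext
  intro f τ A
  show aO i (cO _ _ f.1) τ A = cO _ _ (aO i f.1) τ A
  simp only [aO, cO]
  split_ifs <;> rfl

theorem a_a (i i' : ℕ) : a i * a i' = a i' * a i := by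
  apply EE_ext
  intro f τ A
  show aO i (aO i' f.1) τ A = aO i' (aO i f.1) τ A
  by_cases hii : i = i'
  · rw [hii]
  · simp only [aO, Finset.mem_erase]
    rw [Finset.erase_right_comm]
    have : i' ≠ i := fun h => hii h.symm
    by_cases h1 : i ∈ A <;> by_cases h2 : i' ∈ A <;> simp [h1, h2, hii, this]

theorem a_sq (i : ℕ) : a i * a i = 0 := by
  apply EE_ext
  intro f τ A
  show aO i (aO i f.1) τ A = 0
  simp [aO]

theorem b_symm (j k : ℕ) : b j k = b k j := by
  apply EE_ext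
  intro f τ A
  show cO _ _ f.1 τ A = cO _ _ f.1 τ A
  rw [cO_symm]

theorem b_self (j : ℕ) : b j j = 0 := by
  apply EE_ext
  intro f τ A
  show cO _ _ f.1 τ A = 0
  simp only [cO]
  rw [if_neg]
  rintro ⟨h, -⟩
  exact h rfl

end E4.M
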