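import Pool.Agent.Lib.MP_8a95e3_al.M07b

/-!
# M07 : the product of two letters
-/

namespace E4.M

/-- If `τ 0 ≠ 0`. PROOF. Not an involution: all values are `0`. `τ J = J` or `τ K = K`: `r2_fix` (and its mirror image). `τ J = K`: `r2_JK`, the right side is `0` and `x + x = 0`. `τ 0 = J`: `r2_0J` and `qO j _ τ A = 0`. `τ 0 = K`: `r2_0J` for `k`, `j` and `cO_symm`.
Otherwise normal form (`exists_base` three times) and `r2_gen`. -/
theorem r2_odd {j k : ℕ} (h : j ≠ k) {f : VV} (hf : InG f) {τ : ℕ → ℕ} (A : Finset ℕ) (h0 : τ 0 ≠ 0) :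
    qO j (qO k f) τ A + qO k (qO j f) τ A = cO (j + 3) (k + 3) f τ A := by
  by_cases h' : Inv τ
  swap
  · rw [M07a_neg (fun h => absurd h h'), M07a_neg (fun h => absurd h h'), M07a_cneg (fun h => absurd h h'), add_zero]
  by_cases h1 : τ (j + 3) = j + 3
  · obtain ⟨e1, e2⟩ := r2_fix h f A h1
    rw [e1, e2, M07a_cneg (fun _ h => absurd h1 h), add_zero]
  by_cases h2 : τ (k + 3) = k + 3
  · obtain ⟨e1, e2⟩ := r2_fix h.symm f A h2
    rw [e1, e2, M07a_cneg (fun _ _ h => absurd h2 h), add_zero]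
  by_cases h3 : τ (j + 3) = k + 3
  · rw [r2_JK h f A h0 h3, M07a_cneg (fun _ _ _ => h3)]
    exact CharTwo.add_self_eq_zero _
  by_cases h4 : τ 0 = j + 3
  · rw [r2_0J h f A h4, M07a_neg (fun _ _ => h4), zero_add]
  by_cases h5 : τ 0 = k + 3
  · rw [r2_0J h.symm f A h5, M07a_neg (j := k) (fun _ _ => h5), add_zero, cO_symm]
  have i0 := h' 0
  have ij := h' (j + 3)
  have ik := h' (k + 3)
  obtain ⟨β1, hβ1, b1, b2, b3, b4⟩ := exists_base h' (a := 0) (b := τ 0) rfl (fun e => h0 e.symm)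
  have c1 : β1 (j + 3) = τ (j + 3) := b4 _ (by omega) (by omega)
  obtain ⟨β2, hβ2, d1, d2, d3, d4⟩ := exists_base hβ1 (a := j + 3) (b := τ (j + 3)) c1 (fun e => h1 e.symm)
  have c2 : β2 (k + 3) = τ (k + 3) := by
    rw [d4 _ (by omega) (by omega), b4 _ (by omega) (by omega)]
  obtain ⟨β3, hβ3, g1, g2, g3, g4⟩ := exists_base hβ2 (a := k + 3) (b := τ (k + 3)) c2 (fun e => h2 e.symm)
  have hn : [0, τ 0, j + 3, τ (j + 3), k + 3, τ (k + 3)].Nodup := by
    simp only [List.nodup_cons, List.mem_cons, List.not_mem_nil, or_false, not_or, not_false_eq_true, List.nodup_nil, and_true]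
    grind
  have hn' := hn
  simp only [List.nodup_cons, List.mem_cons, List.not_mem_nil, or_false, not_or, not_false_eq_true, List.nodup_nil, and_true] at hn'
  have key := r2_gen (j := j) (k := k) (p := τ 0) (q := τ (j + 3)) (r := τ (k + 3)) hf A hβ3 (by
    intro x hx
    simp only [List.mem_cons, List.not_mem_nil, or_false] at hx
    rcases hx with rfl | rfl | rfl | rfl | rfl | rfl
    · rw [g4 _ (by grind) (by grind), d4 _ (by grind) (by grind), b1]
    · rw [g4 _ (by grind) (by grind), d4 _ (by grind) (by grind), b2]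
    · rw [g4 _ (by grind) (by grind), d1]
    · rw [g4 _ (by grind) (by grind), d2]
    · exact g1
    · exact g2) hn
  rw [← g3, ← d3, ← b3] at key
  exact key

/-- **The product of two letters.**

PROOF. `τ 0 = 0`: `r2_even` for `j, k` and `k, j`, `cO_symm`: the left side is `x + x = 0`; the right side is `cO J K (nO f) τ A = 0` because `cc J K τ` fixes `0`. `τ 0 ≠ 0`: `r2_odd`, and `cO J K (nO f) τ A = cO J K f τ A` because `cc J K τ 0 ≠ 0` (`cc_nfix`). -/
theorem Q_Q {j k : ℕ} (h : j ≠ k) : Q j * Q k + Q k * Q j = b j k * N := by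
  apply EE_ext
  intro f τ A
  show qO j (qO k f.1) τ A + qO k (qO j f.1) τ A = cO (j + 3) (k + 3) (nO f.1) τ A
  by_cases h0 : τ 0 = 0
  · rw [r2_even h f.1 A h0, r2_even h.symm f.1 A h0, cO_symm (k + 3) (j + 3)]
    have e : cO (j + 3) (k + 3) (nO f.1) τ A = 0 := by
      by_cases hc : j + 3 ≠ k + 3 ∧ Inv τ ∧ τ (j + 3) ≠ j + 3 ∧ τ (k + 3) ≠ k + 3 ∧ τ (j + 3) ≠ k + 3
      · rw [M07a_cpos hc.1 hc.2.1 hc.2.2.1 hc.2.2.2.1 hc.2.2.2.2 rfl]
        simp only [nO]
        rw [if_pos (cc_fix hc.2.1 h0 (by omega) (by omega))]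
      · rw [M07a_cneg]
        intro g1 g2 g3
        by_contra g4
        exact hc ⟨by omega, g1, g2, g3, g4⟩
    rw [e]
    exact CharTwo.add_self_eq_zero _
  · rw [r2_odd h f.2 A h0]
    by_cases hc : j + 3 ≠ k + 3 ∧ Inv τ ∧ τ (j + 3) ≠ j + 3 ∧ τ (k + 3) ≠ k + 3 ∧ τ (j + 3) ≠ k + 3
    · rw [M07a_cpos hc.1 hc.2.1 hc.2.2.1 hc.2.2.2.1 hc.2.2.2.2 rfl, M07a_cpos hc.1 hc.2.1 hc.2.2.1 hc.2.2.2.1 hc.2.2.2.2 rfl]
      simp only [nO]
      rw [if_neg (cc_nfix hc.2.1 hc.1 h0 (by omega) (by omega))]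
    · rw [M07a_cneg, M07a_cneg]
      · intro g1 g2 g3
        by_contra g4
        exact hc ⟨by omega, g1, g2, g3, g4⟩
      · intro g1 g2 g3
        by_contra g4
        exact hc ⟨by omega, g1, g2, g3, g4⟩

end E4.M
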