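import Pool.Agent.Lib.MP_8a95e3_al.M06

/-!
# M07a : the product of two letters, special cases (`J = j + 3`, `K = k + 3`)
-/

namespace E4.M

theorem M07a_cc_app (p q : ℕ) (τ : ℕ → ℕ) (x : ℕ) :
    cc p q τ x = if x = q then q else if x = τ p then τ q else if x = τ q then τ p else if x = p then p else τ x := by
  simp only [cc, ed]
  grind

theorem M07a_pos {j : ℕ} {f : VV} {τ τ' : ℕ → ℕ} {A : Finset ℕ} (h : Inv τ) (h1 : τ (j + 3) ≠ j + 3) (h2 : τ 0 ≠ j + 3)
    (e : cc 0 (j + 3) τ = τ') : qO j f τ A = f τ' A := by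
  subst e
  simp only [qO]
  exact if_pos ⟨h, h1, h2⟩

theorem M07a_neg {j : ℕ} {f : VV} {τ : ℕ → ℕ} {A : Finset ℕ} (h : Inv τ → τ (j + 3) ≠ j + 3 → τ 0 = j + 3) :
    qO j f τ A = 0 := by
  simp only [qO]
  rw [if_neg]
  rintro ⟨h1, h2, h3⟩
  exact h3 (h h1 h2)

theorem M07a_cpos {p q : ℕ} {f : VV} {τ τ' : ℕ → ℕ} {A : Finset ℕ} (h1 : p ≠ q) (h2 : Inv τ) (h3 : τ p ≠ p) (h4 : τ q ≠ q)
    (h5 : τ p ≠ q) (e : cc p q τ = τ') : cO p q f τ A = f τ' A := by
  subst e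
  simp only [cO]
  exact if_pos ⟨h1, h2, h3, h4, h5⟩

theorem M07a_cneg {p q : ℕ} {f : VV} {τ : ℕ → ℕ} {A : Finset ℕ} (h : Inv τ → τ p ≠ p → τ q ≠ q → τ p = q) :
    cO p q f τ A = 0 := by
  simp only [cO]
  rw [if_neg]
  rintro ⟨-, h1, h2, h3, h4⟩
  exact h4 (h h1 h2 h3)

/-- If `τ 0 = 0`, both sides are `f (cc J K τ) A`, or `0` if `τ J = J` or `τ K = K` or `τ J = K`.
PROOF. Not an involution or `τ J = J`: clear. `τ K = K`: `cc 0 J τ` fixes `K` (`cc_fix`). Otherwise `cc 0 J τ` joins `0` with `τ J`, and fixes `J`; if `τ J = K` then it joins `0` with `K`, the value is `0`; otherwise `cc 0 K (cc 0 J τ) = cc J K τ`. -/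
theorem r2_even {j k : ℕ} (h : j ≠ k) (f : VV) {τ : ℕ → ℕ} (A : Finset ℕ) (h0 : τ 0 = 0) :
    qO j (qO k f) τ A = cO (j + 3) (k + 3) f τ A := by
  by_cases h' : Inv τ
  swap
  · rw [M07a_neg (fun h => absurd h h'), M07a_cneg (fun h => absurd h h')]
  have ej := h' (j + 3)
  have ek := h' (k + 3)
  by_cases h1 : τ (j + 3) = j + 3
  · rw [M07a_neg (fun _ h => absurd h1 h), M07a_cneg (fun _ h => absurd h1 h)]
  have hI : Inv (cc 0 (j + 3) τ) := cc_Inv h' (by omega) h1 (by omega)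
  rw [M07a_pos h' h1 (by omega) rfl]
  by_cases h2 : τ (k + 3) = k + 3
  · rw [M07a_cneg (fun _ _ h => absurd h2 h), M07a_neg]
    intro _ h3
    exact absurd (cc_fix h' h2 (by omega) (by omega)) h3
  by_cases h3 : τ (j + 3) = k + 3
  · rw [M07a_cneg (fun _ _ _ => h3), M07a_neg]
    intro _ h4
    rw [M07a_cc_app]
    grind
  rw [M07a_cpos (by omega) h' h1 h2 h3 rfl]
  apply M07a_pos hI
  · rw [M07a_cc_app]
    grind
  · rw [M07a_cc_app]
    grind
  · funext x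
    simp only [M07a_cc_app]
    grind

/-- `τ J = J`: both values are `0`. -/
theorem r2_fix {j k : ℕ} (h : j ≠ k) (f : VV) {τ : ℕ → ℕ} (A : Finset ℕ) (h0 : τ (j + 3) = j + 3) :
    qO j (qO k f) τ A = 0 ∧ qO k (qO j f) τ A = 0 := by
  constructor
  · exact M07a_neg (fun _ h => absurd h0 h)
  · by_cases hc : Inv τ ∧ τ (k + 3) ≠ k + 3 ∧ τ 0 ≠ k + 3
    · rw [M07a_pos hc.1 hc.2.1 hc.2.2 rfl, M07a_neg]
      intro _ h3
      exact absurd (cc_fix hc.1 h0 (by omega) (by omega)) h3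
    · rw [M07a_neg]
      tauto

/-- `τ 0 = p ≠ 0`, `τ J = K`: both values are `f (τ'') A` where `τ''` is `τ` without the edge `J - K` (`J`, `K` fixed): `cc 0 J τ` joins `p` with `K` and fixes `0`, `J`, then `cc 0 K` joins `0` with `p`. -/
theorem r2_JK {j k : ℕ} (h : j ≠ k) (f : VV) {τ : ℕ → ℕ} (A : Finset ℕ) (h0 : τ 0 ≠ 0) (h1 : τ (j + 3) = k + 3) :
    qO j (qO k f) τ A = qO k (qO j f) τ A := by
  by_cases h' : Inv τ
  swap
  · rw [M07a_neg (fun h => absurd h h'), M07a_neg (fun h => absurd h h')]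
  have ej := h' (j + 3)
  have e0 := h' 0
  rw [h1] at ej
  rw [M07a_pos h' (by omega) (by grind) rfl, M07a_pos h' (by omega) (by grind) rfl]
  rw [M07a_pos (cc_Inv h' (by omega) (by omega) (by grind)) (by simp only [M07a_cc_app]; grind) (by simp only [M07a_cc_app]; grind) rfl,
    M07a_pos (cc_Inv h' (by omega) (by omega) (by grind)) (by simp only [M07a_cc_app]; grind) (by simp only [M07a_cc_app]; grind) rfl]
  congr 1
  funext x
  simp only [M07a_cc_app]
  grind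

/-- `τ 0 = J`: `cc 0 K τ` fixes `0`, `K` and joins `J` with `r = τ K`; then `cc 0 J` joins `0` with `r`. The right side: `cc J K τ` joins `0` with `r`, too. (`τ K = K`: both sides are `0`.) -/
theorem r2_0J {j k : ℕ} (h : j ≠ k) (f : VV) {τ : ℕ → ℕ} (A : Finset ℕ) (h1 : τ 0 = j + 3) :
    qO k (qO j f) τ A = cO (j + 3) (k + 3) f τ A := by
  by_cases h' : Inv τ
  swap
  · rw [M07a_neg (fun h => absurd h h'), M07a_cneg (fun h => absurd h h')]
  have e0 := h' 0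
  rw [h1] at e0
  have ek := h' (k + 3)
  by_cases h2 : τ (k + 3) = k + 3
  · rw [M07a_cneg (fun _ _ h => absurd h2 h), M07a_neg (fun _ h => absurd h2 h)]
  rw [M07a_pos h' h2 (by omega) rfl]
  rw [M07a_pos (cc_Inv h' (by omega) (by omega) (by omega)) (by simp only [M07a_cc_app]; grind) (by simp only [M07a_cc_app]; grind) rfl,
    M07a_cpos (by omega) h' (by omega) h2 (by omega) rfl]
  congr 1
  funext x
  simp only [M07a_cc_app]
  grind

end E4.M
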