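import Pool.Agent.Lib.MP_8a95e3_al.M07a

/-!
# M07b : the product of two letters, general case
-/

namespace E4.M

/-- **The general case in normal form**: `τ = ed 0 p (ed J q (ed K r β))`. The three values are `f (ed 0 r (ed p q β))`, `f (ed 0 q (ed p r β))`, `f (ed 0 p (ed q r β))`; (g4) for `0, p, q, r`. -/
theorem r2_gen {j k p q r : ℕ} {f : VV} (hf : InG f) {β : ℕ → ℕ} (A : Finset ℕ) (hβ : Inv β)
    (hx : ∀ x ∈ [0, p, j + 3, q, k + 3, r], β x = x) (hn : [0, p, j + 3, q, k + 3, r].Nodup) :
    qO j (qO k f) (ed 0 p (ed (j + 3) q (ed (k + 3) r β))) A + qO k (qO j f) (ed 0 p (ed (j + 3) q (ed (k + 3) r β))) A =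
      cO (j + 3) (k + 3) f (ed 0 p (ed (j + 3) q (ed (k + 3) r β))) A := by
  have key := hf.g4 β A 0 p q r hβ (by intro x hx'; apply hx; simp at hx' ⊢; tauto) (by simp at hn ⊢; grind)
  have h1 := hx 0 (by simp)
  have h2 := hx p (by simp)
  have h3 := hx (j + 3) (by simp)
  have h4 := hx q (by simp)
  have h5 := hx (k + 3) (by simp)
  have h6 := hx r (by simp)
  clear hx
  simp only [List.nodup_cons, List.mem_cons, List.not_mem_nil, or_false, not_or, not_false_eq_true, List.nodup_nil, and_true] at hn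
  obtain ⟨⟨a1, a2, a3, a4, a5⟩, ⟨a6, a7, a8, a9⟩, ⟨a10, a11, a12⟩, ⟨a13, a14⟩, a15⟩ := hn
  have hI : Inv (ed 0 p (ed (j + 3) q (ed (k + 3) r β))) := by
    apply ed_Inv (ed_Inv (ed_Inv hβ h5 h6) _ _) <;> (simp only [ed]; grind)
  have v0 : (ed 0 p (ed (j + 3) q (ed (k + 3) r β))) 0 = p := by simp only [ed]; grind
  have vj : (ed 0 p (ed (j + 3) q (ed (k + 3) r β))) (j + 3) = q := by simp only [ed]; grind
  have vk : (ed 0 p (ed (j + 3) q (ed (k + 3) r β))) (k + 3) = r := by simp only [ed]; grind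
  have c1 : cc 0 (j + 3) (ed 0 p (ed (j + 3) q (ed (k + 3) r β))) = ed p q (ed (k + 3) r β) := by
    simp only [cc]
    rw [v0, vj]
    funext x
    simp only [ed]
    grind
  have c2 : cc 0 (k + 3) (ed 0 p (ed (j + 3) q (ed (k + 3) r β))) = ed p r (ed (j + 3) q β) := by
    simp only [cc]
    rw [v0, vk]
    funext x
    simp only [ed]
    grind
  have I1 : Inv (ed p q (ed (k + 3) r β)) := by
    rw [← c1]
    exact cc_Inv hI (by omega) (by rw [vj]; grind) (by rw [v0]; grind)
  have I2 : Inv (ed p r (ed (j + 3) q β)) := by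
    rw [← c2]
    exact cc_Inv hI (by omega) (by rw [vk]; grind) (by rw [v0]; grind)
  rw [M07a_pos hI (by rw [vj]; grind) (by rw [v0]; grind) c1, M07a_pos hI (by rw [vk]; grind) (by rw [v0]; grind) c2]
  have t1 : qO k f (ed p q (ed (k + 3) r β)) A = f (ed 0 r (ed p q β)) A := by
    apply M07a_pos I1
    · simp only [ed]; grind
    · simp only [ed]; grind
    · have w0 : (ed p q (ed (k + 3) r β)) 0 = 0 := by simp only [ed]; grind
      have wk : (ed p q (ed (k + 3) r β)) (k + 3) = r := by simp only [ed]; grind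
      simp only [cc]
      rw [w0, wk]
      funext x
      simp only [ed]
      grind
  have t2 : qO j f (ed p r (ed (j + 3) q β)) A = f (ed 0 q (ed p r β)) A := by
    apply M07a_pos I2
    · simp only [ed]; grind
    · simp only [ed]; grind
    · have w0 : (ed p r (ed (j + 3) q β)) 0 = 0 := by simp only [ed]; grind
      have wk : (ed p r (ed (j + 3) q β)) (j + 3) = q := by simp only [ed]; grind
      simp only [cc]
      rw [w0, wk]
      funext x
      simp only [ed]
      grind
  have t3 : cO (j + 3) (k + 3) f (ed 0 p (ed (j + 3) q (ed (k + 3) r β))) A = f (ed 0 p (ed q r β)) A := by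
    apply M07a_cpos (by grind) hI (by rw [vj]; grind) (by rw [vk]; grind) (by rw [vj]; grind)
    simp only [cc]
    rw [vj, vk]
    funext x
    simp only [ed]
    grind
  rw [t1, t2, t3]
  have two : ∀ z : ZMod 2, z + z = 0 := fun z => CharTwo.add_self_eq_zero z
  have hz := two (f (ed 0 p (ed q r β)) A)
  linear_combination key - hz

end E4.M
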