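import Pool.Agent.Lib.MP_8a95e3_al.M08b

/-!
# M08 : contractions commute: operators
-/

namespace E4.M

/-- PROOF: `EE_ext`, `qO_eq` for `f` and for `b j k f`, `cO_add`, `cO_comm`, `cO_even`. (`j = k`: `b_self`.) -/
theorem b_Q {j k l : ℕ} (h1 : j ≠ l) (h2 : k ≠ l) : b j k * Q l = Q l * b j k := by
  by_cases hjk : j = k
  · subst hjk
    rw [b_self, zero_mul, mul_zero]
  apply EE_ext
  intro f τ A
  show cO (j + 3) (k + 3) (qO l f.1) τ A = qO l (cO (j + 3) (k + 3) f.1) τ A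
  have e1 : qO l f.1 = cO 0 (l + 3) f.1 + fun τ A => if τ (l + 3) ≠ l + 3 ∧ τ 0 = 0 then sO (Equiv.swap 0 (l + 3)) f.1 τ A else 0 := by
    funext τ A
    exact qO_eq l f.2 τ A
  have hn : [j + 3, k + 3, l + 3, 0].Nodup := by
    simp
    omega
  have hn' : [j + 3, k + 3, 0, l + 3].Nodup := by
    simp
    omega
  rw [qO_eq l (InG_cO _ _ f.2), e1, cO_add, Pi.add_apply, Pi.add_apply, cO_comm hn', cO_even hn]

/-- PROOF: `cc_fix`, `cc_nfix` at the point `0`. -/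
theorem b_N (j k : ℕ) : b j k * N = N * b j k := by
  apply EE_ext
  intro f τ A
  show cO (j + 3) (k + 3) (nO f.1) τ A = nO (cO (j + 3) (k + 3) f.1) τ A
  simp only [cO, nO]
  by_cases h : j + 3 ≠ k + 3 ∧ Inv τ ∧ τ (j + 3) ≠ j + 3 ∧ τ (k + 3) ≠ k + 3 ∧ τ (j + 3) ≠ k + 3
  · rw [if_pos h, if_pos h]
    by_cases h0 : τ 0 = 0
    · rw [if_pos h0, if_pos (cc_fix h.2.1 h0 (by omega) (by omega))]
    · rw [if_neg h0, if_neg (cc_nfix h.2.1 h.1 h0 (by omega) (by omega))]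
  · rw [if_neg h, if_neg h]
    split_ifs <;> rfl

/-- PROOF: `cO_comm`. (`j = k` or `l = m`: `b_self`.) -/
theorem b_b {j k l m : ℕ} (h1 : j ≠ l) (h2 : j ≠ m) (h3 : k ≠ l) (h4 : k ≠ m) : b j k * b l m = b l m * b j k := by
  by_cases hjk : j = k
  · subst hjk
    rw [b_self, zero_mul, mul_zero]
  by_cases hlm : l = m
  · subst hlm
    rw [b_self, zero_mul, mul_zero]
  apply EE_ext
  intro f τ A
  show cO (j + 3) (k + 3) (cO (l + 3) (m + 3) f.1) τ A = cO (l + 3) (m + 3) (cO (j + 3) (k + 3) f.1) τ A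
  rw [cO_comm]
  simp
  omega

end E4.M
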