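import Pool.Agent.Lib.MP_8a95e3_al.M07

/-!
# M08a : contractions commute: closings
-/

namespace E4.M

theorem M08a_cc_app (p q : ℕ) (τ : ℕ → ℕ) (x : ℕ) :
    cc p q τ x = if x = q then q else if x = τ p then τ q else if x = τ q then τ p else if x = p then p else τ x := by
  simp only [cc, ed]
  grind

/-- PROOF. `τ r ≠ r`, `τ s ≠ s`: otherwise `cc p q τ` fixes `r` or `s` (`cc_fix`). `τ r ≠ s`: otherwise `cc p q τ r = s` (`r`, `s` are different from `p`, `q`, `τ p`, `τ q`). `cc r s τ p ≠ p`, `cc r s τ q ≠ q`: `cc_nfix`. `cc r s τ p ≠ q`: the value of `cc r s τ` at `p` is `τ s` if `p = τ r`, `τ r` if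
`p = τ s`, else `τ p`; in the first two cases the value `q` would mean that `cc p q τ` joins `r` with `s`. -/
theorem cc_cond {p q r s : ℕ} (hn : [p, q, r, s].Nodup) {τ : ℕ → ℕ} (h : Inv τ) (h1 : τ p ≠ p) (h2 : τ q ≠ q) (h3 : τ p ≠ q)
    (h4 : cc p q τ r ≠ r) (h5 : cc p q τ s ≠ s) (h6 : cc p q τ r ≠ s) :
    τ r ≠ r ∧ τ s ≠ s ∧ τ r ≠ s ∧ cc r s τ p ≠ p ∧ cc r s τ q ≠ q ∧ cc r s τ p ≠ q := by
  simp only [M08a_cc_app] at *
  simp at hn
  refine ⟨?_, ?_, ?_, ?_, ?_, ?_⟩ <;> grind [Inv]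

/-- Under the same conditions the two contractions commute. PROOF: function extensionality, values (`grind` or case distinction), or by normal forms according to which of the points `p, q` are joined to `r, s`. -/
theorem cc_cc {p q r s : ℕ} (hn : [p, q, r, s].Nodup) {τ : ℕ → ℕ} (h : Inv τ) (h1 : τ p ≠ p) (h2 : τ q ≠ q) (h3 : τ p ≠ q)
    (h4 : cc p q τ r ≠ r) (h5 : cc p q τ s ≠ s) (h6 : cc p q τ r ≠ s) :
    cc r s (cc p q τ) = cc p q (cc r s τ) := by
  funext x
  simp only [M08a_cc_app] at *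
  simp at hn
  have e1 := h p
  have e2 := h q
  have e3 := h r
  have e4 := h s
  have e5 := h x
  clear h
  grind (splits := 30)

end E4.M
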