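import Pool.Agent.Lib.MP_8a95e3_al.M08a

/-!
# M08b : contractions commute: functions
-/

namespace E4.M

private theorem M08b_perm {p q r s : ℕ} (hn : [p, q, r, s].Nodup) : [r, s, p, q].Nodup := by
  have e : [p, q, r, s].Perm [r, s, p, q] := (List.perm_append_comm : ([p, q] ++ [r, s]).Perm ([r, s] ++ [p, q]))
  exact e.nodup_iff.1 hn

private theorem M08b_ne {p q r s : ℕ} (hn : [p, q, r, s].Nodup) :
    p ≠ q ∧ p ≠ r ∧ p ≠ s ∧ q ≠ r ∧ q ≠ s ∧ r ≠ s := by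
  simp only [List.nodup_cons, List.mem_cons, List.not_mem_nil, or_false, not_or, List.nodup_nil, not_false_eq_true,
    and_true] at hn
  obtain ⟨⟨h1, h2, h3⟩, ⟨h4, h5⟩, h6⟩ := hn
  exact ⟨h1, h2, h3, h4, h5, h6⟩

/-- one of the two sides is the other one, or is zero -/
private theorem M08b_half {p q r s : ℕ} (hn : [p, q, r, s].Nodup) (f : VV) (τ : ℕ → ℕ) (A : Finset ℕ) :
    cO p q (cO r s f) τ A = cO r s (cO p q f) τ A ∨ cO p q (cO r s f) τ A = 0 := by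
  obtain ⟨n1, n2, n3, n4, n5, n6⟩ := M08b_ne hn
  unfold cO
  by_cases h : p ≠ q ∧ Inv τ ∧ τ p ≠ p ∧ τ q ≠ q ∧ τ p ≠ q
  · rw [if_pos h]
    obtain ⟨-, hI, h1, h2, h3⟩ := h
    by_cases h' : r ≠ s ∧ Inv (cc p q τ) ∧ cc p q τ r ≠ r ∧ cc p q τ s ≠ s ∧ cc p q τ r ≠ s
    · rw [if_pos h']
      obtain ⟨-, hI', h4, h5, h6⟩ := h'
      obtain ⟨k1, k2, k3, k4, k5, k6⟩ := cc_cond hn hI h1 h2 h3 h4 h5 h6
      left
      rw [if_pos ⟨n6, hI, k1, k2, k3⟩, if_pos ⟨n1, cc_Inv hI n6 k2 k3, k4, k5, k6⟩, cc_cc hn hI h1 h2 h3 h4 h5 h6]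
    · right
      rw [if_neg h']
  · right
    rw [if_neg h]

/-- PROOF: `cc_cond` (in both directions), `cc_cc`, `cc_Inv`. -/
theorem cO_comm {p q r s : ℕ} (hn : [p, q, r, s].Nodup) (f : VV) : cO p q (cO r s f) = cO r s (cO p q f) := by
  funext τ A
  rcases M08b_half hn f τ A with h | h
  · exact h
  · rcases M08b_half (M08b_perm hn) f τ A with h' | h'
    · exact h'.symm
    · rw [h, h']

/-- The even part of `qO` (see `qO_eq`) commutes with contractions away from `0` and `L`. PROOF: `rl_cc`, `cc_fix`, `cc_nfix`, `rl_Inv`, `rl_apply_eq`. -/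
theorem cO_even {p q l : ℕ} (hn : [p, q, l, 0].Nodup) (f : VV) (τ : ℕ → ℕ) (A : Finset ℕ) :
    cO p q (fun τ A => if τ l ≠ l ∧ τ 0 = 0 then sO (Equiv.swap 0 l) f τ A else 0) τ A =
      if τ l ≠ l ∧ τ 0 = 0 then sO (Equiv.swap 0 l) (cO p q f) τ A else 0 := by
  obtain ⟨n1, n2, n3, n4, n5, n6⟩ := M08b_ne hn
  have sp : Equiv.swap 0 l p = p := Equiv.swap_apply_of_ne_of_ne n3 n2
  have sq : Equiv.swap 0 l q = q := Equiv.swap_apply_of_ne_of_ne n5 n4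
  have e1 := rl_cc (Equiv.swap 0 l) p q τ
  have e2 := rl_apply_eq (Equiv.swap 0 l) τ p p
  have e3 := rl_apply_eq (Equiv.swap 0 l) τ q q
  have e4 := rl_apply_eq (Equiv.swap 0 l) τ p q
  rw [sp, sq] at e1 e4
  rw [sp] at e2
  rw [sq] at e3
  have e5 := rl_Inv (Equiv.swap 0 l) τ
  unfold sO cO
  by_cases h : p ≠ q ∧ Inv τ ∧ τ p ≠ p ∧ τ q ≠ q ∧ τ p ≠ q
  · have h' : p ≠ q ∧ Inv (rl (Equiv.swap 0 l) τ) ∧ rl (Equiv.swap 0 l) τ p ≠ p ∧ rl (Equiv.swap 0 l) τ q ≠ q ∧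
        rl (Equiv.swap 0 l) τ p ≠ q :=
      ⟨h.1, e5.2 h.2.1, fun k => h.2.2.1 (e2.1 k), fun k => h.2.2.2.1 (e3.1 k), fun k => h.2.2.2.2 (e4.1 k)⟩
    rw [if_pos h, if_pos h', ← e1]
    show (if cc p q τ l ≠ l ∧ cc p q τ 0 = 0 then f (rl (Equiv.swap 0 l) (cc p q τ)) A else 0) = _
    obtain ⟨-, hI, h1, h2, h3⟩ := h
    have c1 : cc p q τ l ≠ l ↔ τ l ≠ l :=
      ⟨fun k1 k2 => k1 (cc_fix hI k2 (Ne.symm n2) (Ne.symm n4)), fun k1 => cc_nfix hI n1 k1 (Ne.symm n2) (Ne.symm n4)⟩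
    have c2 : cc p q τ 0 = 0 ↔ τ 0 = 0 := by
      constructor
      · intro k1
        by_contra k2
        exact cc_nfix hI n1 k2 (Ne.symm n3) (Ne.symm n5) k1
      · intro k1
        exact cc_fix hI k1 (Ne.symm n3) (Ne.symm n5)
    by_cases g : τ l ≠ l ∧ τ 0 = 0
    · rw [if_pos g, if_pos ⟨c1.2 g.1, c2.2 g.2⟩]
    · rw [if_neg g, if_neg fun k => g ⟨c1.1 k.1, c2.1 k.2⟩]
  · have h' : ¬ (p ≠ q ∧ Inv (rl (Equiv.swap 0 l) τ) ∧ rl (Equiv.swap 0 l) τ p ≠ p ∧ rl (Equiv.swap 0 l) τ q ≠ q ∧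
        rl (Equiv.swap 0 l) τ p ≠ q) := fun k =>
      h ⟨k.1, e5.1 k.2.1, fun k' => k.2.2.1 (e2.2 k'), fun k' => k.2.2.2.1 (e3.2 k'), fun k' => k.2.2.2.2 (e4.2 k')⟩
    rw [if_neg h, if_neg h', ite_self]

end E4.M
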