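import Pool.Agent.Lib.MP_8a95e3_al.M09a

/-!
# M09 : the operators belong to `GR`
-/

namespace E4.M

theorem N_GR : N ∈ GR := by
  refine ⟨fun j f hf τ A h => ?_, fun i => (a_N i).symm⟩
  show nO f.1 τ A = 0
  simp only [nO]
  split_ifs
  · rfl
  · exact hf τ A h

theorem a_GR (i : ℕ) : a i ∈ GR := by
  refine ⟨fun j f hf τ A h => ?_, fun i' => a_a i i'⟩
  show aO i f.1 τ A = 0
  simp only [aO]
  split_ifs
  · exact hf τ _ h
  · rfl

/-- PROOF: `cc_fix`; for `GJ k` itself the value of `qO k` at `τ` is `0` if `τ (k + 3) = k + 3`. -/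
theorem Q_GR (k : ℕ) : Q k ∈ GR := by
  refine ⟨fun j f hf τ A h => ?_, fun i => (a_Q i k).symm⟩
  show qO k f.1 τ A = 0
  by_cases hjk : j = k
  · subst hjk
    exact M09a_neg h
  simp only [qO]
  split_ifs with h'
  · exact hf _ _ (cc_fix h'.1 h (by omega) (by omega))
  · rfl

theorem b_GR (k l : ℕ) : b k l ∈ GR := by
  refine ⟨fun j f hf τ A h => ?_, fun i => (a_b i k l).symm⟩
  show cO (k + 3) (l + 3) f.1 τ A = 0
  simp only [cO]
  split_ifs with h'
  · by_cases hjk : j = k
    · subst hjk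
      exact absurd h h'.2.2.1
    by_cases hjl : j = l
    · subst hjl
      exact absurd h h'.2.2.2.1
    exact hf _ _ (cc_fix h'.2.1 h (by omega) (by omega))
  · rfl

theorem op_GR (x : Lt) : op x ∈ GR := by
  cases x with
  | inl j => exact Q_GR j
  | inr i => exact GR.mul_mem (a_GR i) N_GR

theorem hh_GR (l : List Lt) : hh l ∈ GR := by
  induction l with
  | nil => exact GR.one_mem
  | cons x l ih =>
    rw [hh_cons]
    exact GR.mul_mem (GR.add_mem GR.one_mem (op_GR x)) ih

theorem Phi_GR (l : List Lt) : Phi l ∈ GR := by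
  exact GR.pow_mem (GR.add_mem (hh_GR l) GR.one_mem) 3

theorem Q_mem_GJ (j : ℕ) (f : GG) : Q j f ∈ GJ j := by
  intro τ A h
  exact M09a_neg h

/-- PROOF: `cc 0 (j + 3) τ` fixes `j + 3`. -/
theorem Q_kill {j : ℕ} {f : GG} (h : f ∈ GJ j) : Q j f = 0 := by
  apply Subtype.ext
  funext τ A
  show qO j f.1 τ A = 0
  simp only [qO]
  split_ifs with h'
  · exact h _ _ (cc_q _ _ _)
  · rfl

theorem Q_W_Q (j : ℕ) {W : EE} (h : W ∈ GR) : Q j * W * Q j = 0 := by
  apply AddMonoidHom.ext
  intro f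
  show Q j (W (Q j f)) = 0
  exact Q_kill (h.1 j _ (Q_mem_GJ j f))

theorem Q_sq (j : ℕ) : Q j * Q j = 0 := by
  have e := Q_W_Q j GR.one_mem
  rw [mul_one] at e
  exact e

/-- PROOF. Vector letter: `Q_W_Q`. Marker letter: `a i` commutes with `N` and `W`, and `a i * a i = 0`. -/
theorem op_W_op (x : Lt) {W : EE} (h : W ∈ GR) : op x * W * op x = 0 := by
  cases x with
  | inl j => exact Q_W_Q j h
  | inr i =>
    show a i * N * W * (a i * N) = 0
    have h1 : N * W ∈ GR := GR.mul_mem N_GR h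
    calc a i * N * W * (a i * N) = a i * (N * W * a i) * N := by simp only [mul_assoc]
      _ = a i * (a i * (N * W)) * N := by rw [h1.2 i]
      _ = a i * a i * (N * W) * N := by simp only [mul_assoc]
      _ = 0 := by rw [a_sq, zero_mul, zero_mul]

theorem op_sq (x : Lt) : op x * op x = 0 := by
  have e := op_W_op x GR.one_mem
  rw [mul_one] at e
  exact e

end E4.M
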