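import Pool.Agent.Lib.MP_8a95e3_al.M08

/-!
# M09a : vanishing products
-/

namespace E4.M

theorem M09a_neg {j : ℕ} {f : VV} {τ : ℕ → ℕ} {A : Finset ℕ} (h : τ (j + 3) = j + 3) : qO j f τ A = 0 := by
  simp only [qO]
  rw [if_neg]
  rintro ⟨-, h2, -⟩
  exact h2 h

theorem M09a_cneg {p q : ℕ} {f : VV} {τ : ℕ → ℕ} {A : Finset ℕ} (h : τ p = p) : cO p q f τ A = 0 := by
  simp only [cO]
  rw [if_neg]
  rintro ⟨-, -, h2, -⟩
  exact h2 h

/-- PROOF: `cc (j + 3) (k + 3) τ` fixes `j + 3` (`cc_p`). -/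
theorem b_Q_left (j k : ℕ) : b j k * Q j = 0 := by
  apply EE_ext
  intro f τ A
  show cO (j + 3) (k + 3) (qO j f.1) τ A = 0
  simp only [cO]
  split_ifs with h
  · exact M09a_neg (cc_p h.2.1 h.2.2.1 h.2.2.2.2)
  · rfl

theorem b_Q_right (j k : ℕ) : b j k * Q k = 0 := by
  rw [b_symm, b_Q_left]

/-- PROOF: `cc 0 (j + 3) τ` fixes `j + 3` (`cc_q`). -/
theorem Q_b_left (j k : ℕ) : Q j * b j k = 0 := by
  apply EE_ext
  intro f τ A
  show qO j (cO (j + 3) (k + 3) f.1) τ A = 0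
  simp only [qO]
  split_ifs with h
  · exact M09a_cneg (cc_q _ _ _)
  · rfl

theorem Q_b_right (j k : ℕ) : Q k * b j k = 0 := by
  rw [b_symm, Q_b_left]

theorem b_sq (j k : ℕ) : b j k * b j k = 0 := by
  apply EE_ext
  intro f τ A
  show cO (j + 3) (k + 3) (cO (j + 3) (k + 3) f.1) τ A = 0
  simp only [cO]
  split_ifs with h h'
  · exact absurd (cc_p h.2.1 h.2.2.1 h.2.2.2.2) h'.2.2.1
  · rfl
  · rfl

end E4.M
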