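import Pool.Agent.Lib.MP_8a95e3_al.M10a

/-!
# M10 : restriction
-/

namespace E4.M

theorem pi_add_GJ (j : ℕ) (f : GG) : f + pi j f ∈ GJ j := by
  intro τ A h
  show f.1 τ A + pO (j + 3) f.1 τ A = 0
  unfold pO
  rw [if_pos h]
  exact CharTwo.add_self_eq_zero _

/-- A function supported on closings which fix the letters `j` and `k` is invariant. PROOF: `rl_swap`, `rl_apply_eq`, `g0`. -/
theorem sg_inv {j k : ℕ} {f : GG} (h : ∀ τ A, f.1 τ A ≠ 0 → τ (j + 3) = j + 3 ∧ τ (k + 3) = k + 3) : sg j k f = f := by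
  apply Subtype.ext
  funext τ A
  show f.1 (rl (Equiv.swap (j + 3) (k + 3)) τ) A = f.1 τ A
  have sj : Equiv.swap (j + 3) (k + 3) (j + 3) = k + 3 := Equiv.swap_apply_left _ _
  have sk : Equiv.swap (j + 3) (k + 3) (k + 3) = j + 3 := Equiv.swap_apply_right _ _
  by_cases hI : Inv τ
  · by_cases hfix : τ (j + 3) = j + 3 ∧ τ (k + 3) = k + 3
    · rw [rl_swap hI hfix.1 hfix.2]
    · have h1 : f.1 τ A = 0 := by
        by_contra hc
        exact hfix (h τ A hc)
      have h2 : f.1 (rl (Equiv.swap (j + 3) (k + 3)) τ) A = 0 := by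
        by_contra hc
        obtain ⟨a1, a2⟩ := h _ A hc
        have e1 := rl_apply_eq (Equiv.swap (j + 3) (k + 3)) τ (k + 3) (k + 3)
        have e2 := rl_apply_eq (Equiv.swap (j + 3) (k + 3)) τ (j + 3) (j + 3)
        rw [sk] at e1
        rw [sj] at e2
        exact hfix ⟨e2.1 a2, e1.1 a1⟩
      rw [h1, h2]
  · have hI' : ¬ Inv (rl (Equiv.swap (j + 3) (k + 3)) τ) := fun h' => hI ((rl_Inv _ _).1 h')
    rw [(show InG f.1 from f.2).g0 τ A hI, (show InG f.1 from f.2).g0 _ A hI']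

/-- PROOF: `sg_inv`. -/
theorem sg_pi3 (j1 j2 j3 : ℕ) (f : GG) :
    sg j1 j2 (pi j1 (pi j2 (pi j3 f))) = pi j1 (pi j2 (pi j3 f)) ∧
      sg j1 j3 (pi j1 (pi j2 (pi j3 f))) = pi j1 (pi j2 (pi j3 f)) ∧
      sg j2 j3 (pi j1 (pi j2 (pi j3 f))) = pi j1 (pi j2 (pi j3 f)) := by
  have key : ∀ τ A, (pi j1 (pi j2 (pi j3 f))).1 τ A ≠ 0 → τ (j1 + 3) = j1 + 3 ∧ τ (j2 + 3) = j2 + 3 ∧ τ (j3 + 3) = j3 + 3 := by
    intro τ A h
    have e : (pi j1 (pi j2 (pi j3 f))).1 τ A = (if τ (j1 + 3) = j1 + 3 then (if τ (j2 + 3) = j2 + 3 then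
        (if τ (j3 + 3) = j3 + 3 then f.1 τ A else 0) else 0) else 0) := rfl
    rw [e] at h
    by_cases h1 : τ (j1 + 3) = j1 + 3
    · rw [if_pos h1] at h
      by_cases h2 : τ (j2 + 3) = j2 + 3
      · rw [if_pos h2] at h
        by_cases h3 : τ (j3 + 3) = j3 + 3
        · exact ⟨h1, h2, h3⟩
        · rw [if_neg h3] at h
          exact absurd rfl h
      · rw [if_neg h2] at h
        exact absurd rfl h
    · rw [if_neg h1] at h
      exact absurd rfl h
  exact ⟨sg_inv fun τ A h => ⟨(key τ A h).1, (key τ A h).2.1⟩, sg_inv fun τ A h => ⟨(key τ A h).1, (key τ A h).2.2⟩,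
    sg_inv fun τ A h => ⟨(key τ A h).2.1, (key τ A h).2.2⟩⟩

/-- If the letters `j`, `k` both occur, the exchange permutes the list. PROOF: `List.perm_ext_iff_of_nodup` (both lists have no repetition and the same elements). -/
theorem map_ren_perm {j k : ℕ} {l : List Lt} (hl : l.Nodup) (hj : Sum.inl j ∈ l) (hk : Sum.inl k ∈ l) :
    (l.map (ren j k)).Perm l := by
  have hinv : ∀ x : Lt, ren j k (ren j k x) = x := by
    rintro (i | i)
    · show Sum.inl (Equiv.swap j k (Equiv.swap j k i)) = Sum.inl i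
      rw [Equiv.swap_apply_self]
    · rfl
  have hmem : ∀ x ∈ l, ren j k x ∈ l := by
    rintro (i | i) hx
    · show Sum.inl (Equiv.swap j k i) ∈ l
      by_cases h1 : i = j
      · rw [h1, Equiv.swap_apply_left]
        exact hk
      · by_cases h2 : i = k
        · rw [h2, Equiv.swap_apply_right]
          exact hj
        · rw [Equiv.swap_apply_of_ne_of_ne h1 h2]
          exact hx
    · exact hx
  have hinj : Function.Injective (ren j k) := fun x y h => by
    rw [← hinv x, h, hinv y]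
  refine (List.perm_ext_iff_of_nodup (hl.map hinj) hl).2 fun a => ?_
  rw [List.mem_map]
  constructor
  · rintro ⟨x, hx, rfl⟩
    exact hmem x hx
  · intro ha
    exact ⟨ren j k a, hmem a ha, hinv a⟩

end E4.M
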