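import Pool.Agent.Lib.MP_8a95e3_al.M09

/-!
# M10a : cancellation of markers, exchange of letters
-/

namespace E4.M

private theorem M10a_swap (j k x : ℕ) : Equiv.swap (j + 3) (k + 3) (x + 3) = Equiv.swap j k x + 3 := by
  by_cases h1 : x = j
  · rw [h1, Equiv.swap_apply_left, Equiv.swap_apply_left]
  · by_cases h2 : x = k
    · rw [h2, Equiv.swap_apply_right, Equiv.swap_apply_right]
    · rw [Equiv.swap_apply_of_ne_of_ne h1 h2, Equiv.swap_apply_of_ne_of_ne (by omega) (by omega)]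

private theorem M10a_zero (j k : ℕ) : Equiv.swap (j + 3) (k + 3) 0 = 0 :=
  Equiv.swap_apply_of_ne_of_ne (by omega) (by omega)

/-- PROOF. `(X f) τ A = (a i (X f)) τ (insert i A)` for `i ∉ s`, `i ∉ A`. -/
theorem a_cancel {X : EE} (s : Finset ℕ) (h : ∀ i ∉ s, a i * X = 0) : X = 0 := by
  refine EE_ext fun f τ A => ?_
  obtain ⟨i, hi⟩ := Infinite.exists_notMem_finset (s ∪ A)
  rw [Finset.mem_union, not_or] at hi
  have h1 : ((a i * X) f).1 τ (insert i A) = 0 := by
    rw [h i hi.1]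
    rfl
  have h2 : ((a i * X) f).1 τ (insert i A) =
      if i ∈ insert i A then (X f).1 τ ((insert i A).erase i) else 0 := rfl
  rw [if_pos (Finset.mem_insert_self i A), Finset.erase_insert hi.2] at h2
  rw [← h2, h1]
  rfl

theorem sg_sg (j k : ℕ) : sg j k * sg j k = 1 := by
  refine EE_ext fun f τ A => ?_
  show f.1 (rl (Equiv.swap (j + 3) (k + 3)) (rl (Equiv.swap (j + 3) (k + 3)) τ)) A = f.1 τ A
  have e : rl (Equiv.swap (j + 3) (k + 3)) (rl (Equiv.swap (j + 3) (k + 3)) τ) = τ := by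
    funext x
    unfold rl
    rw [Equiv.symm_swap, Equiv.swap_apply_self, Equiv.swap_apply_self]
  rw [e]

/-- PROOF: `rl_cc`, `rl_Inv`, `rl_apply_eq`; `Equiv.swap (j + 3) (k + 3)` fixes `0` and sends `l + 3` to `Equiv.swap j k l + 3`. -/
theorem sg_Q (j k l : ℕ) : sg j k * Q l = Q (Equiv.swap j k l) * sg j k := by
  refine EE_ext fun f τ A => ?_
  show qO l f.1 (rl (Equiv.swap (j + 3) (k + 3)) τ) A =
    qO (Equiv.swap j k l) (sO (Equiv.swap (j + 3) (k + 3)) f.1) τ A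
  have s0 := M10a_zero j k
  have s1 : Equiv.swap (j + 3) (k + 3) (Equiv.swap j k l + 3) = l + 3 := by
    rw [M10a_swap, Equiv.swap_apply_self]
  have e1 := rl_cc (Equiv.swap (j + 3) (k + 3)) 0 (Equiv.swap j k l + 3) τ
  have e2 := rl_apply_eq (Equiv.swap (j + 3) (k + 3)) τ (Equiv.swap j k l + 3) (Equiv.swap j k l + 3)
  have e3 := rl_apply_eq (Equiv.swap (j + 3) (k + 3)) τ 0 (Equiv.swap j k l + 3)
  rw [s0, s1] at e1 e3
  rw [s1] at e2
  have e4 := rl_Inv (Equiv.swap (j + 3) (k + 3)) τ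
  unfold qO sO
  by_cases h : Inv τ ∧ τ (Equiv.swap j k l + 3) ≠ Equiv.swap j k l + 3 ∧ τ 0 ≠ Equiv.swap j k l + 3
  · rw [if_pos h, if_pos ⟨e4.2 h.1, fun h' => h.2.1 (e2.1 h'), fun h' => h.2.2 (e3.1 h')⟩, e1]
  · rw [if_neg h, if_neg fun h' => h ⟨e4.1 h'.1, fun h'' => h'.2.1 (e2.2 h''), fun h'' => h'.2.2 (e3.2 h'')⟩]

theorem sg_N (j k : ℕ) : sg j k * N = N * sg j k := by
  refine EE_ext fun f τ A => ?_
  show (if rl (Equiv.swap (j + 3) (k + 3)) τ 0 = 0 then 0 else f.1 (rl (Equiv.swap (j + 3) (k + 3)) τ) A) =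
    (if τ 0 = 0 then 0 else f.1 (rl (Equiv.swap (j + 3) (k + 3)) τ) A)
  have e := rl_apply_eq (Equiv.swap (j + 3) (k + 3)) τ 0 0
  rw [M10a_zero] at e
  by_cases h : τ 0 = 0
  · rw [if_pos h, if_pos (e.2 h)]
  · rw [if_neg h, if_neg fun h' => h (e.1 h')]

theorem sg_a (j k i : ℕ) : sg j k * a i = a i * sg j k := by
  exact EE_ext fun f τ A => rfl

/-- Exchange of the vector letters `j` and `k`. -/
def ren (j k : ℕ) : Lt → Lt := Sum.map (Equiv.swap j k) id

theorem sg_op (j k : ℕ) (x : Lt) : sg j k * op x = op (ren j k x) * sg j k := by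
  rcases x with l | i
  · exact sg_Q j k l
  · show sg j k * (a i * N) = a i * N * sg j k
    rw [← mul_assoc, sg_a, mul_assoc, sg_N, ← mul_assoc]

theorem sg_hh (j k : ℕ) (l : List Lt) : sg j k * hh l = hh (l.map (ren j k)) * sg j k := by
  induction l with
  | nil =>
    show sg j k * hh [] = hh [] * sg j k
    rw [hh_nil, mul_one, one_mul]
  | cons x l ih =>
    rw [List.map_cons, hh_cons, hh_cons, mul_assoc (1 + op (ren j k x)), ← ih, ← mul_assoc, ← mul_assoc, mul_add,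
      mul_one, sg_op, add_mul 1, one_mul]

theorem sg_Phi (j k : ℕ) (l : List Lt) : sg j k * Phi l = Phi (l.map (ren j k)) * sg j k := by
  have h : SemiconjBy (sg j k) (hh l + 1) (hh (l.map (ren j k)) + 1) := by
    show sg j k * (hh l + 1) = (hh (l.map (ren j k)) + 1) * sg j k
    rw [mul_add, mul_one, sg_hh, add_mul, one_mul]
  exact h.pow_right 3

end E4.M
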