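import Pool.Agent.Lib.MP_8a95e3_al.M10

/-!
# M11 : the cube of a sum; insertion of a letter
-/

namespace E4.M

theorem cube_add {R : Type*} [Ring R] {g Y : R} (h1 : Y * Y = 0) (h2 : Y * g * Y = 0) : (g + Y) ^ 3 = g ^ 3 + dl g Y := by
  have h3 : ∀ Z : R, Y * (Y * Z) = 0 := fun Z => by rw [← mul_assoc, h1, zero_mul]
  have h4 : ∀ Z : R, Y * (g * (Y * Z)) = 0 := fun Z => by rw [← mul_assoc, ← mul_assoc, h2, zero_mul]
  have h5 : Y * (g * Y) = 0 := by rw [← mul_assoc, h2]
  simp only [dl, pow_succ, pow_zero, one_mul, mul_add, add_mul, mul_assoc, h1, h5, mul_zero, add_zero]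
  abel

theorem dl_add {R : Type*} [Ring R] (g X Y : R) : dl g (X + Y) = dl g X + dl g Y := by
  simp only [dl, mul_add, add_mul]
  abel

/-- A factor which commutes with `g` can be taken out. -/
theorem dl_mul {R : Type*} [Ring R] {c g : R} (h : c * g = g * c) (Y : R) : dl g (c * Y) = c * dl g Y := by
  have h2 : c * g ^ 2 = g ^ 2 * c := by rw [pow_two, ← mul_assoc, h, mul_assoc, h, ← mul_assoc]
  simp only [dl, mul_add]
  rw [← mul_assoc (g ^ 2) c Y, ← h2, ← mul_assoc g c Y, ← h]
  simp only [mul_assoc]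

/-- If `c g = c g'` and `c` commutes with `g`, `g'` and `Y`, then `c dl g Y = c dl g' Y`. -/
theorem dl_congr {R : Type*} [Ring R] {c g g' : R} (h : c * g = g * c) (h' : c * g' = g' * c) (e : c * g = c * g') {Y : R}
    (hY : c * Y = Y * c) : c * dl g Y = c * dl g' Y := by
  have t1 : c * (g ^ 2 * Y) = c * (g' ^ 2 * Y) := by
    calc c * (g ^ 2 * Y) = (c * g) * (g * Y) := by simp only [pow_two, mul_assoc]
      _ = (c * g') * (g * Y) := by rw [e]
      _ = (g' * c) * (g * Y) := by rw [h']
      _ = g' * ((c * g) * Y) := by simp only [mul_assoc]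
      _ = g' * ((c * g') * Y) := by rw [e]
      _ = (g' * c) * (g' * Y) := by simp only [mul_assoc]
      _ = (c * g') * (g' * Y) := by rw [h']
      _ = c * (g' ^ 2 * Y) := by simp only [pow_two, mul_assoc]
  have t2 : c * (g * Y * g) = c * (g' * Y * g') := by
    calc c * (g * Y * g) = (c * g) * (Y * g) := by simp only [mul_assoc]
      _ = (c * g') * (Y * g) := by rw [e]
      _ = (g' * c) * (Y * g) := by rw [h']
      _ = g' * ((c * Y) * g) := by simp only [mul_assoc]
      _ = g' * ((Y * c) * g) := by rw [hY]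
      _ = g' * (Y * (c * g)) := by simp only [mul_assoc]
      _ = g' * (Y * (c * g')) := by rw [e]
      _ = g' * ((Y * c) * g') := by simp only [mul_assoc]
      _ = g' * ((c * Y) * g') := by rw [hY]
      _ = (g' * c) * (Y * g') := by simp only [mul_assoc]
      _ = (c * g') * (Y * g') := by rw [h']
      _ = c * (g' * Y * g') := by simp only [mul_assoc]
  have t3 : c * (Y * g ^ 2) = c * (Y * g' ^ 2) := by
    calc c * (Y * g ^ 2) = (c * Y) * (g * g) := by simp only [pow_two, mul_assoc]
      _ = (Y * c) * (g * g) := by rw [hY]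
      _ = Y * ((c * g) * g) := by simp only [mul_assoc]
      _ = Y * ((c * g') * g) := by rw [e]
      _ = Y * ((g' * c) * g) := by rw [h']
      _ = Y * (g' * (c * g)) := by simp only [mul_assoc]
      _ = Y * (g' * (c * g')) := by rw [e]
      _ = Y * ((g' * c) * g') := by simp only [mul_assoc]
      _ = Y * ((c * g') * g') := by rw [h']
      _ = (Y * c) * (g' * g') := by simp only [mul_assoc]
      _ = (c * Y) * (g' * g') := by rw [hY]
      _ = c * (Y * g' ^ 2) := by simp only [pow_two, mul_assoc]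
  simp only [dl, mul_add]
  rw [t1, t2, t3]

/-- PROOF: expand, `Y * Y = 0` and `Y * g * Y = 0`. -/
theorem dl_self {R : Type*} [Ring R] {g Y : R} (h1 : Y * Y = 0) (h2 : Y * g * Y = 0) : dl (g + Y) Y = dl g Y := by
  have h3 : ∀ Z : R, Y * (Y * Z) = 0 := fun Z => by rw [← mul_assoc, h1, zero_mul]
  have h4 : ∀ Z : R, Y * (g * (Y * Z)) = 0 := fun Z => by rw [← mul_assoc, ← mul_assoc, h2, zero_mul]
  have h5 : Y * (g * Y) = 0 := by rw [← mul_assoc, h2]
  simp only [dl, pow_two, mul_add, add_mul, mul_assoc, h1, h3, h4, h5, mul_zero, add_zero, zero_add]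

theorem dl_GR {g Y : EE} (hg : g ∈ GR) (hY : Y ∈ GR) : dl g Y ∈ GR := by
  exact GR.add_mem (GR.add_mem (GR.mul_mem (GR.pow_mem hg 2) hY) (GR.mul_mem (GR.mul_mem hg hY) hg)) (GR.mul_mem hY (GR.pow_mem hg 2))

/-- Insertion of a letter in the product. -/
theorem hh_ins (u v : List Lt) (x : Lt) : hh (u ++ x :: v) = hh (u ++ v) + hh u * op x * hh v := by
  rw [hh_append, hh_cons, hh_append, add_mul, one_mul, mul_add, mul_assoc (hh u)]

/-- Two occurrences of the operator `op x` give `0`. PROOF: `op_W_op`, `hh_GR`. -/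
theorem ins_mul (u v u' v' : List Lt) (x : Lt) {W : EE} (h : W ∈ GR) :
    (hh u * op x * hh v) * W * (hh u' * op x * hh v') = 0 := by
  have hW : hh v * W * hh u' ∈ GR := GR.mul_mem (GR.mul_mem (hh_GR v) h) (hh_GR u')
  have e := op_W_op x hW
  calc (hh u * op x * hh v) * W * (hh u' * op x * hh v') = hh u * (op x * (hh v * W * hh u') * op x) * hh v' := by
        simp only [mul_assoc]
    _ = 0 := by rw [e, mul_zero, zero_mul]

/-- **Insertion of a letter in the cube.** PROOF: `hh_ins`, `cube_add` with `g = hh (u ++ v) + 1`, `ins_mul`. -/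
theorem Phi_ins (u v : List Lt) (x : Lt) :
    Phi (u ++ x :: v) = Phi (u ++ v) + dl (hh (u ++ v) + 1) (hh u * op x * hh v) := by
  have h1 : (hh u * op x * hh v) * (hh u * op x * hh v) = 0 := by
    have e := ins_mul u v u v x GR.one_mem
    rw [mul_one] at e
    exact e
  have h2 : (hh u * op x * hh v) * (hh (u ++ v) + 1) * (hh u * op x * hh v) = 0 :=
    ins_mul u v u v x (GR.add_mem (hh_GR _) GR.one_mem)
  have e := cube_add h1 h2
  have e2 : hh (u ++ x :: v) + 1 = hh (u ++ v) + 1 + hh u * op x * hh v := by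
    rw [hh_ins]
    abel
  unfold Phi
  rw [e2, e]

/-- A consequence: PROOF: `Phi_ins`. -/
theorem dl_ins_zero {u v : List Lt} {x : Lt} (h1 : Phi (u ++ x :: v) = 0) (h2 : Phi (u ++ v) = 0) :
    dl (hh (u ++ v) + 1) (hh u * op x * hh v) = 0 := by
  have e := Phi_ins u v x
  rw [h1, h2, zero_add] at e
  exact e.symm

end E4.M
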