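import Pool.Agent.Lib.MP_8a95e3_al.M12b

/-!
# M12 : exchange of vector and marker letters
-/

namespace E4.M

private theorem M12_swap {R : Type*} [Ring R] (h2 : ∀ r : R, r + r = 0) {A B q c n : R} (hcA : A * c = c * A)
    (hcq : c * q = q * c) (hnq : n * q + q * n = q) :
    A * ((1 + c * n) * ((1 + q) * B)) = A * ((1 + q) * ((1 + c * n) * B)) + c * (A * q * B) := by
  have e1 : A * ((1 + c * n) * ((1 + q) * B)) = A * B + A * q * B + A * (c * n) * B + A * (c * (n * q)) * B := by
    noncomm_ring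
  have e2 : A * ((1 + q) * ((1 + c * n) * B)) = A * B + A * q * B + A * (c * n) * B + A * (q * c * n) * B := by
    noncomm_ring
  have e3 : c * (A * q * B) = A * (c * (n * q)) * B + A * (q * c * n) * B := by
    calc c * (A * q * B) = c * A * q * B := by noncomm_ring
      _ = A * c * q * B := by rw [← hcA]
      _ = A * (c * (n * q + q * n)) * B := by rw [hnq, mul_assoc A c q]
      _ = A * (c * (n * q)) * B + A * (c * q * n) * B := by noncomm_ring
      _ = _ := by rw [hcq]
  rw [e1, e2, e3]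
  have e4 : A * B + A * q * B + A * (c * n) * B + A * (q * c * n) * B + (A * (c * (n * q)) * B + A * (q * c * n) * B) =
      A * B + A * q * B + A * (c * n) * B + A * (c * (n * q)) * B + (A * (q * c * n) * B + A * (q * c * n) * B) := by abel
  rw [e4, h2, add_zero]

private theorem M12_c {R : Type*} [Ring R] {A B q c n : R} (hcA : A * c = c * A)
    (hcq : c * q = q * c) (hcc : c * c = 0) :
    c * (A * ((1 + q) * ((1 + c * n) * B)) + 1) = c * (A * B + 1 + A * q * B) := by
  have e1 : A * ((1 + q) * ((1 + c * n) * B)) = A * B + A * q * B + A * c * (n * B) + A * (q * c) * (n * B) := by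
    noncomm_ring
  have e2 : c * (A * c * (n * B)) = 0 := by
    calc c * (A * c * (n * B)) = c * (A * c) * (n * B) := by noncomm_ring
      _ = c * c * A * (n * B) := by rw [hcA, mul_assoc c c A]
      _ = 0 := by rw [hcc, zero_mul, zero_mul]
  have e3 : c * (A * (q * c) * (n * B)) = 0 := by
    calc c * (A * (q * c) * (n * B)) = c * (A * c) * q * (n * B) := by
          rw [← hcq]
          noncomm_ring
      _ = c * c * A * q * (n * B) := by rw [hcA, mul_assoc c c A]
      _ = 0 := by rw [hcc, zero_mul, zero_mul, zero_mul]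
  rw [e1]
  have e4 : c * (A * B + A * q * B + A * c * (n * B) + A * (q * c) * (n * B) + 1) =
      c * (A * B + 1 + A * q * B) + c * (A * c * (n * B)) + c * (A * (q * c) * (n * B)) := by noncomm_ring
  rw [e4, e2, e3, add_zero, add_zero]

/-- **Exchange of a vector letter and a marker letter.**

PROOF. `A = hh u`, `B = hh v`, `c = a i`, `h = A (1 + Q j) (1 + c N) B`, `h' = A (1 + c N) (1 + Q j) B = h + c A Q j B` (`N_Q`, `a_Q`, `EE_two`; `c` commutes with everything: `hh_GR`). `Z = A Q j B`, `Y = c Z`: `Y W Y = 0` for `W ∈ GR` (`ins_mul`), so `(h' + 1)^3 = (h + 1)^3 + c dl (h + 1) Z`; `c (h + 1) = c (A B + 1 + Z)` because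
`c c = 0`, so `c dl (h + 1) Z = c dl (A B + 1 + Z) Z = c dl (A B + 1) Z = 0` (`dl_congr`, `dl_self`, `dl_ins_zero`). -/
theorem C_swapVZ (u v : List Lt) (j i : ℕ) (h1 : Phi (u ++ Sum.inl j :: v) = 0) (h2 : Phi (u ++ v) = 0) :
    Phi (u ++ Sum.inl j :: Sum.inr i :: v) = Phi (u ++ Sum.inr i :: Sum.inl j :: v) := by
  obtain ⟨A, hA⟩ : ∃ A : EE, A = hh u := ⟨_, rfl⟩
  obtain ⟨B, hB⟩ : ∃ B : EE, B = hh v := ⟨_, rfl⟩
  obtain ⟨Z, hZ⟩ : ∃ Z : EE, Z = A * Q j * B := ⟨_, rfl⟩
  obtain ⟨g, hg⟩ : ∃ g : EE, g = A * ((1 + Q j) * ((1 + a i * N) * B)) + 1 := ⟨_, rfl⟩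
  have hAG : A ∈ GR := by
    rw [hA]
    exact hh_GR u
  have hBG : B ∈ GR := by
    rw [hB]
    exact hh_GR v
  have hZG : Z ∈ GR := by
    rw [hZ]
    exact GR.mul_mem (GR.mul_mem hAG (Q_GR j)) hBG
  have hgG : g ∈ GR := by
    rw [hg]
    exact GR.add_mem (GR.mul_mem hAG (GR.mul_mem (GR.add_mem GR.one_mem (Q_GR j))
      (GR.mul_mem (GR.add_mem GR.one_mem (GR.mul_mem (a_GR i) N_GR)) hBG))) GR.one_mem
  have hAB : A * B + 1 ∈ GR := GR.add_mem (GR.mul_mem hAG hBG) GR.one_mem
  have hcA : A * a i = a i * A := hAG.2 i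
  have hcZ : Z * a i = a i * Z := hZG.2 i
  have hcg : g * a i = a i * g := hgG.2 i
  have hcc : a i * a i = 0 := a_sq i
  have e1 : hh (u ++ Sum.inl j :: Sum.inr i :: v) + 1 = g := by
    rw [hh_append, hh_cons, hh_cons, ← hA, ← hB, hg]
    rfl
  have e2 : hh (u ++ Sum.inr i :: Sum.inl j :: v) + 1 = g + a i * Z := by
    rw [hh_append, hh_cons, hh_cons, ← hA, ← hB, hg]
    have e3 := M12_swap EE_two (A := A) (B := B) (q := Q j) (c := a i) (n := N) hcA (a_Q i j) (N_Q j)
    have e4 : A * ((1 + op (Sum.inr i)) * ((1 + op (Sum.inl j)) * B)) = A * ((1 + a i * N) * ((1 + Q j) * B)) := rfl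
    rw [e4, e3, hZ]
    abel
  have hYY : a i * Z * (a i * Z) = 0 := by
    calc a i * Z * (a i * Z) = a i * (Z * a i) * Z := by simp only [mul_assoc]
      _ = a i * a i * Z * Z := by
        rw [hcZ]
        simp only [mul_assoc]
      _ = 0 := by rw [hcc, zero_mul, zero_mul]
  have hYgY : a i * Z * g * (a i * Z) = 0 := by
    calc a i * Z * g * (a i * Z) = a i * Z * (g * a i) * Z := by simp only [mul_assoc]
      _ = a i * (Z * a i) * g * Z := by
        rw [hcg]
        simp only [mul_assoc]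
      _ = a i * a i * Z * g * Z := by
        rw [hcZ]
        simp only [mul_assoc]
      _ = 0 := by rw [hcc, zero_mul, zero_mul, zero_mul]
  have e5 : dl g (a i * Z) = 0 := by
    rw [dl_mul hcg.symm]
    have hg' : A * B + 1 + Z ∈ GR := GR.add_mem hAB hZG
    have e6 : a i * g = a i * (A * B + 1 + Z) := by
      rw [hg, hZ]
      exact M12_c hcA (a_Q i j) hcc
    rw [dl_congr hcg.symm (hg'.2 i).symm e6 hcZ.symm]
    have e7 : Z * Z = 0 := by
      have h := ins_mul u v u v (Sum.inl j) GR.one_mem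
      rw [mul_one, ← hA, ← hB] at h
      rw [hZ]
      exact h
    have e8 : Z * (A * B + 1) * Z = 0 := by
      have h := ins_mul u v u v (Sum.inl j) hAB
      rw [← hA, ← hB] at h
      rw [hZ]
      exact h
    rw [dl_self e7 e8]
    have e9 := dl_ins_zero h1 h2
    rw [hh_append, ← hA, ← hB] at e9
    have e10 : dl (A * B + 1) Z = 0 := by
      rw [hZ]
      exact e9
    rw [e10, mul_zero]
  unfold Phi
  rw [e1, e2, cube_add hYY hYgY, e5, add_zero]

/-- PROOF: the operators `a i * N`, `a i' * N` commute. -/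
theorem C_swapZZ (u v : List Lt) (i i' : ℕ) :
    Phi (u ++ Sum.inr i :: Sum.inr i' :: v) = Phi (u ++ Sum.inr i' :: Sum.inr i :: v) := by
  have hc : (a i * N) * (a i' * N) = (a i' * N) * (a i * N) := by
    calc (a i * N) * (a i' * N) = a i * (N * a i') * N := by simp only [mul_assoc]
      _ = a i * a i' * (N * N) := by
        rw [← a_N i']
        simp only [mul_assoc]
      _ = a i' * a i * (N * N) := by rw [a_a]
      _ = a i' * (a i * N) * N := by simp only [mul_assoc]
      _ = a i' * (N * a i) * N := by rw [a_N i]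
      _ = (a i' * N) * (a i * N) := by simp only [mul_assoc]
  have h : hh (u ++ Sum.inr i :: Sum.inr i' :: v) = hh (u ++ Sum.inr i' :: Sum.inr i :: v) := by
    rw [hh_append, hh_append, hh_cons, hh_cons, hh_cons, hh_cons]
    have e1 : (1 + op (Sum.inr i)) * ((1 + op (Sum.inr i')) * hh v) = (1 + op (Sum.inr i')) * ((1 + op (Sum.inr i)) * hh v) := by
      show (1 + a i * N) * ((1 + a i' * N) * hh v) = (1 + a i' * N) * ((1 + a i * N) * hh v)
      rw [← mul_assoc, ← mul_assoc]
      have e2 : (1 + a i * N) * (1 + a i' * N) = (1 + a i' * N) * (1 + a i * N) := by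
        have e3 : ∀ x y : EE, (1 + x) * (1 + y) = 1 + x + y + x * y := by
          intro x y
          noncomm_ring
        rw [e3, e3, hc]
        abel
      rw [e2]
    rw [e1]
  unfold Phi
  rw [h]

end E4.M
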