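import Pool.Agent.Lib.MP_8a95e3_al.M11

/-!
# M12a : repeated letters
-/

namespace E4.M

/-- **Repeated letter.**

PROOF. `A = hh u`, `B = hh v`, `C = hh w`, `O = op x`, `g = A B C + 1`, `Y1 = A O B C`, `Y2 = A B O C`. `hh (u ++ x :: v ++ x :: w) = A B C + Y1 + Y2` because `A O B O C = 0`. All products `Y_i W Y_j` (`W ∈ GR`, or `W` missing) are `0` (`ins_mul`, write `B C = hh (v ++ w)`). So (`cube_add` with
`Y = Y1 + Y2`, `dl_add`) the left side is `g^3 + dl g Y1 + dl g Y2`; `g^3 = Phi (u ++ v ++ w) = 0`, `dl g Y1 = 0` and `dl g Y2 = 0` by `dl_ins_zero`. -/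
theorem C_rep (u v w : List Lt) (x : Lt) (h0 : Phi (u ++ v ++ w) = 0) (h1 : Phi (u ++ x :: v ++ w) = 0)
    (h2 : Phi (u ++ v ++ x :: w) = 0) : Phi (u ++ x :: v ++ x :: w) = 0 := by
  have h1' : Phi (u ++ x :: (v ++ w)) = 0 := by
    rw [← h1, List.append_assoc, List.cons_append]
  have h0' : Phi (u ++ (v ++ w)) = 0 := by rw [← h0, List.append_assoc]
  have d1 := dl_ins_zero h1' h0'
  have d2 := dl_ins_zero h2 h0
  have eg : hh (u ++ (v ++ w)) = hh (u ++ v ++ w) := by rw [List.append_assoc]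
  rw [eg] at d1
  obtain ⟨g, hg⟩ : ∃ g : EE, g = hh (u ++ v ++ w) + 1 := ⟨_, rfl⟩
  obtain ⟨Y1, hY1⟩ : ∃ Y : EE, Y = hh u * op x * hh (v ++ w) := ⟨_, rfl⟩
  obtain ⟨Y2, hY2⟩ : ∃ Y : EE, Y = hh (u ++ v) * op x * hh w := ⟨_, rfl⟩
  rw [← hg, ← hY1] at d1
  rw [← hg, ← hY2] at d2
  have hgR : g ∈ GR := by
    rw [hg]
    exact GR.add_mem (hh_GR _) GR.one_mem
  have key : ∀ W ∈ GR, (Y1 + Y2) * W * (Y1 + Y2) = 0 := by
    intro W hW
    have a1 : Y1 * W * Y1 = 0 := by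
      rw [hY1]
      exact ins_mul _ _ _ _ _ hW
    have a2 : Y1 * W * Y2 = 0 := by
      rw [hY1, hY2]
      exact ins_mul _ _ _ _ _ hW
    have a3 : Y2 * W * Y1 = 0 := by
      rw [hY1, hY2]
      exact ins_mul _ _ _ _ _ hW
    have a4 : Y2 * W * Y2 = 0 := by
      rw [hY2]
      exact ins_mul _ _ _ _ _ hW
    rw [add_mul, mul_add, add_mul, add_mul, a1, a2, a3, a4, add_zero, add_zero]
  have k1 : (Y1 + Y2) * (Y1 + Y2) = 0 := by
    have := key 1 GR.one_mem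
    rwa [mul_one] at this
  have e : hh (u ++ x :: v ++ x :: w) + 1 = g + (Y1 + Y2) := by
    have h3 : op x * hh v * op x = 0 := op_W_op x (hh_GR v)
    have h4 : hh (u ++ x :: v ++ x :: w) = hh u * hh v * hh w + hh u * op x * (hh v * hh w) +
        hh u * hh v * op x * hh w + hh u * (op x * hh v * op x) * hh w := by
      rw [hh_append, hh_append, hh_cons, hh_cons]
      noncomm_ring
    rw [h3, mul_zero, zero_mul, add_zero] at h4
    rw [hg, hY1, hY2, h4, hh_append, hh_append, hh_append]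
    abel
  show (hh (u ++ x :: v ++ x :: w) + 1) ^ 3 = 0
  rw [e, cube_add k1 (key g hgR), dl_add, d1, d2, add_zero, add_zero, hg]
  exact h0

end E4.M
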