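import Pool.Agent.Lib.MP_8a95e3_al.M12a

/-!
# M12b : exchange of two vector letters
-/

namespace E4.M

/-- The contraction of `j`, `k` commutes with words without these letters. PROOF: `b_Q`, `b_N`, `a_b`. -/
theorem b_hh {j k : ℕ} {l : List Lt} (hj : Sum.inl j ∉ l) (hk : Sum.inl k ∉ l) : b j k * hh l = hh l * b j k := by
  induction l with
  | nil => rw [hh_nil, one_mul, mul_one]
  | cons x l ih =>
    rw [List.mem_cons, not_or] at hj hk
    have h1 := ih hj.2 hk.2
    have h2 : b j k * op x = op x * b j k := by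
      rcases x with m | i
      · have e1 : j ≠ m := fun h => hj.1 (by rw [h])
        have e2 : k ≠ m := fun h => hk.1 (by rw [h])
        exact b_Q e1 e2
      · show b j k * (a i * N) = a i * N * b j k
        rw [← mul_assoc, ← a_b, mul_assoc, b_N, mul_assoc]
    have h3 : b j k * (1 + op x) = (1 + op x) * b j k := by
      rw [mul_add, add_mul, mul_one, one_mul, h2]
    rw [hh_cons, mul_assoc, ← h1, ← mul_assoc, ← mul_assoc, h3]

/-- PROOF: `A * N * B` with `A = hh u`, `B = hh v`; `a i * dl g (A * N * B) = dl g (A * (a i * N) * B) = dl g (hh u * op (Sum.inr i) * hh v) = 0` for `i ∉ s` (`dl_mul`, `dl_ins_zero`; `a i` commutes with elements of `GR`), then `a_cancel`. -/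
theorem dl_N_zero {u v : List Lt} (s : Finset ℕ) (h1 : ∀ i ∉ s, Phi (u ++ Sum.inr i :: v) = 0) (h2 : Phi (u ++ v) = 0) :
    dl (hh (u ++ v) + 1) (hh u * N * hh v) = 0 := by
  refine a_cancel s fun i hi => ?_
  have hc : ∀ l : List Lt, a i * hh l = hh l * a i := fun l => ((hh_GR l).2 i).symm
  have hg : a i * (hh (u ++ v) + 1) = (hh (u ++ v) + 1) * a i := by
    rw [mul_add, add_mul, hc, mul_one, one_mul]
  rw [← dl_mul hg]
  have h3 : a i * (hh u * N * hh v) = hh u * op (Sum.inr i) * hh v := by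
    show a i * (hh u * N * hh v) = hh u * (a i * N) * hh v
    rw [← mul_assoc, ← mul_assoc, hc, mul_assoc (hh u)]
  rw [h3]
  exact dl_ins_zero (h1 i hi) h2

/-- **Exchange of two neighbouring vector letters.**

PROOF. `A = hh u`, `B = hh v`, `c = b j k`, `h = A (1 + Q j) (1 + Q k) B`, `h' = A (1 + Q k) (1 + Q j) B`. By `Q_Q` and `EE_two`, `h' = h + A c N B = h + c A N B`. `c` commutes with `A`, `B` (`b_hh`), `N`; `c Q j = Q j c = c Q k = Q k c = 0`: `c h = h c = c A B`. `Y = c A N B`: `Y Y = 0`, `Y (h + 1) Y = 0`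
(`c` can be moved, `c c = 0`: `b_sq`). So `(h' + 1)^3 = (h + 1)^3 + dl (h + 1) Y` and `dl (h + 1) Y = c dl (h + 1) (A N B) = c dl (A B + 1) (A N B) = 0` (`dl_mul`, `dl_congr`, `dl_N_zero`). -/
theorem C_swapVV (u v : List Lt) {j k : ℕ} (hjk : j ≠ k) (hju : Sum.inl j ∉ u) (hku : Sum.inl k ∉ u)
    (hjv : Sum.inl j ∉ v) (hkv : Sum.inl k ∉ v) (s : Finset ℕ) (h1 : ∀ i ∉ s, Phi (u ++ Sum.inr i :: v) = 0)
    (h2 : Phi (u ++ v) = 0) : Phi (u ++ Sum.inl j :: Sum.inl k :: v) = Phi (u ++ Sum.inl k :: Sum.inl j :: v) := by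
  have hcA : b j k * hh u = hh u * b j k := b_hh hju hku
  have hcB : b j k * hh v = hh v * b j k := b_hh hjv hkv
  have hz := dl_N_zero (u := u) (v := v) s h1 h2
  have hcN : b j k * N = N * b j k := b_N j k
  have e1 : hh (u ++ Sum.inl j :: Sum.inl k :: v) = hh u * ((1 + Q j) * ((1 + Q k) * hh v)) := by
    rw [hh_append, hh_cons, hh_cons]
    rfl
  have e2 : hh (u ++ Sum.inl k :: Sum.inl j :: v) = hh u * ((1 + Q k) * ((1 + Q j) * hh v)) := by
    rw [hh_append, hh_cons, hh_cons]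
    rfl
  have e3 : hh (u ++ v) = hh u * hh v := hh_append u v
  have hq : Q k * Q j = Q j * Q k + b j k * N := by
    rw [← Q_Q hjk, ← add_assoc, EE_two, zero_add]
  unfold Phi
  rw [e3] at hz
  rw [e1, e2]
  generalize hA : hh u = A at *
  generalize hB : hh v = B at *
  obtain ⟨h, hh'⟩ : ∃ h, h = A * ((1 + Q j) * ((1 + Q k) * B)) := ⟨_, rfl⟩
  obtain ⟨c, hc'⟩ : ∃ c, c = b j k := ⟨_, rfl⟩
  have c1 : c * Q j = 0 := by rw [hc']; exact b_Q_left j k
  have c2 : c * Q k = 0 := by rw [hc']; exact b_Q_right j k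
  have c3 : Q j * c = 0 := by rw [hc']; exact Q_b_left j k
  have c4 : Q k * c = 0 := by rw [hc']; exact Q_b_right j k
  have c5 : c * c = 0 := by rw [hc']; exact b_sq j k
  rw [← hc'] at hcA hcB hcN hq
  have f1 : A * ((1 + Q k) * ((1 + Q j) * B)) = h + c * (A * N * B) := by
    have g1 : (1 + Q k) * ((1 + Q j) * B) = (1 + Q j) * ((1 + Q k) * B) + c * N * B := by
      have g2 : (1 + Q k) * (1 + Q j) = (1 + Q j) * (1 + Q k) + c * N := by
        have g3 : (1 + Q k) * (1 + Q j) = 1 + Q j + Q k + Q k * Q j := by noncomm_ring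
        have g4 : (1 + Q j) * (1 + Q k) = 1 + Q j + Q k + Q j * Q k := by noncomm_ring
        rw [g3, g4, hq, ← add_assoc]
      rw [← mul_assoc, g2, add_mul, mul_assoc (1 + Q j)]
    rw [g1, mul_add, ← hh']
    congr 1
    rw [← mul_assoc, ← mul_assoc, ← hcA, mul_assoc c A N, mul_assoc c (A * N) B]
  have f2 : c * h = c * (A * B) := by
    have d1 : c * (1 + Q j) = c := by rw [mul_add, mul_one, c1, add_zero]
    have d2 : c * (1 + Q k) = c := by rw [mul_add, mul_one, c2, add_zero]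
    rw [hh', ← mul_assoc, hcA, mul_assoc, ← mul_assoc c (1 + Q j), d1,
      ← mul_assoc c (1 + Q k), d2, ← mul_assoc, ← hcA, mul_assoc]
  have f3 : h * c = A * B * c := by
    have d1 : (1 + Q k) * c = c := by rw [add_mul, one_mul, c4, add_zero]
    have d2 : (1 + Q j) * c = c := by rw [add_mul, one_mul, c3, add_zero]
    rw [hh', mul_assoc, mul_assoc (1 + Q j), mul_assoc (1 + Q k), ← hcB, ← mul_assoc (1 + Q k), d1,
      ← mul_assoc (1 + Q j), d2, hcB, mul_assoc]
  have f4 : c * (A * B) = A * B * c := by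
    rw [← mul_assoc, hcA, mul_assoc, hcB, mul_assoc]
  have f5 : c * (A * N * B) = A * N * B * c := by
    rw [← mul_assoc, ← mul_assoc, hcA, mul_assoc A, hcN, ← mul_assoc, mul_assoc (A * N), hcB, ← mul_assoc]
  have f6 : c * (h + 1) = (h + 1) * c := by
    rw [mul_add, add_mul, mul_one, one_mul, f2, f3, f4]
  have f7 : c * (A * B + 1) = (A * B + 1) * c := by
    rw [mul_add, add_mul, mul_one, one_mul, f4]
  have f8 : c * (h + 1) = c * (A * B + 1) := by
    rw [mul_add, mul_add, f2]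
  rw [← hh', f1]
  have k1 : c * (A * N * B) * (c * (A * N * B)) = 0 := by
    rw [mul_assoc c (A * N * B), ← mul_assoc (A * N * B) c, ← f5, ← mul_assoc c, ← mul_assoc c c, c5,
      zero_mul, zero_mul]
  have k2 : c * (A * N * B) * (h + 1) * (c * (A * N * B)) = 0 := by
    have k3 : c * (A * N * B) * (h + 1) * c = 0 := by
      rw [mul_assoc, ← f6, ← mul_assoc, mul_assoc c, ← f5, ← mul_assoc, c5, zero_mul, zero_mul]
    rw [← mul_assoc, k3, zero_mul]
  have k4 : h + c * (A * N * B) + 1 = h + 1 + c * (A * N * B) := by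
    rw [add_assoc, add_comm (c * (A * N * B)) 1, ← add_assoc]
  rw [k4, cube_add k1 k2, dl_mul f6, dl_congr f6 f7 f8 f5, hz, mul_zero, add_zero]

end E4.M
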