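import Pool.Agent.Lib.MP_8a95e3_al.M12

/-!
# M13 : permutation of the letters
-/

namespace E4.M

/-- Exchange of two neighbours. PROOF: cases on `x`, `y`: `C_swapVV` (with `s = ∅`; `j ≠ k`, and `inl j`, `inl k` do not occur in `u`, `v`, by `hn`), `C_swapVZ` (or its mirror image), `C_swapZZ`; the needed values are `0` by `IH` (shorter lists). -/
theorem C_swap {u v : List Lt} {x y : Lt} (hn : (u ++ x :: y :: v).Nodup)
    (IH : ∀ w : List Lt, w.length < (u ++ x :: y :: v).length → Phi w = 0) :
    Phi (u ++ x :: y :: v) = Phi (u ++ y :: x :: v) := by
  have hlen : ∀ w : List Lt, w.length < u.length + (v.length + 2) → Phi w = 0 := by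
    intro w hw
    apply IH
    simp only [List.length_append, List.length_cons]
    omega
  rw [List.nodup_append] at hn
  obtain ⟨hu, hv, huv⟩ := hn
  rw [List.nodup_cons, List.nodup_cons, List.mem_cons] at hv
  cases x with
  | inl j =>
    cases y with
    | inl k =>
      have hjk : j ≠ k := fun e => hv.1 (Or.inl (by rw [e]))
      apply C_swapVV u v hjk _ _ _ _ ∅
      · intro i _
        apply hlen
        simp
      · apply hlen
        simp
      · intro h
        exact huv _ h _ (List.mem_cons_self) rfl
      · intro h
        exact huv _ h _ (List.mem_cons_of_mem _ List.mem_cons_self) rfl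
      · intro h
        exact hv.1 (Or.inr h)
      · exact hv.2.1
    | inr i =>
      apply C_swapVZ
      · apply hlen
        simp
      · apply hlen
        simp
  | inr i =>
    cases y with
    | inl k =>
      symm
      apply C_swapVZ
      · apply hlen
        simp
      · apply hlen
        simp
    | inr i' => exact C_swapZZ u v i i'

/-- PROOF: induction on the permutation: `cons x`: use `u ++ [x]`; `swap`: `C_swap`; `trans`: the middle list has the same length and no repetition (`List.Perm.nodup_iff`). -/
theorem C_perm' {l l' : List Lt} (hp : l.Perm l') : ∀ u : List Lt, (u ++ l).Nodup →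
    (∀ w : List Lt, w.length < (u ++ l).length → Phi w = 0) → Phi (u ++ l) = Phi (u ++ l') := by
  induction hp with
  | nil => intro u _ _; rfl
  | cons x _ ih =>
    intro u hn IH
    have e := ih (u ++ [x]) (by simpa using hn) (by simpa using IH)
    simpa using e
  | swap x y l =>
    intro u hn IH
    exact C_swap hn IH
  | trans h1 _ ih1 ih2 =>
    intro u hn IH
    rw [ih1 u hn IH]
    apply ih2 u
    · exact (List.Perm.nodup_iff (h1.append_left u)).1 hn
    · intro w hw
      apply IH
      rw [(h1.append_left u).length_eq]
      exact hw

theorem C_perm {l l' : List Lt} (hp : l.Perm l') (hn : l.Nodup)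
    (IH : ∀ w : List Lt, w.length < l.length → Phi w = 0) : Phi l = Phi l' := by
  exact C_perm' hp [] hn IH

end E4.M
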