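import Pool.Agent.Lib.MP_8a95e3_al.M11

/-!
# M14 : the values of the cube
-/

namespace E4.M

theorem M14_split {l : List Lt} {j : ℕ} (hj : Sum.inl j ∈ l) (IH : ∀ w : List Lt, w.length < l.length → Phi w = 0) :
    ∃ u w : List Lt, Phi l = dl (hh (u ++ w) + 1) (hh u * Q j * hh w) := by
  obtain ⟨u, w, rfl⟩ := List.append_of_mem hj
  refine ⟨u, w, ?_⟩
  rw [Phi_ins, IH (u ++ w) (by simp), zero_add]
  rfl

/-- PROOF. `l = u ++ inl j :: w` (`List.append_of_mem`), `Phi l = dl g (hh u * Q j * hh w)` with `g = hh (u ++ w) + 1` (`Phi_ins`, `IH` for `u ++ w`); all three terms of `dl` map `f` into `GJ j`: `Q_mem_GJ` and the operators of `GR` preserve `GJ j`. -/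
theorem Phi_mem_GJ {l : List Lt} {j : ℕ} (hj : Sum.inl j ∈ l) (IH : ∀ w : List Lt, w.length < l.length → Phi w = 0)
    (f : GG) : Phi l f ∈ GJ j := by
  obtain ⟨u, w, e⟩ := M14_split hj IH
  rw [e]
  have hg : hh (u ++ w) + 1 ∈ GR := GR.add_mem (hh_GR _) GR.one_mem
  generalize hh (u ++ w) + 1 = g at *
  have hA := hh_GR u
  have hB := hh_GR w
  have hY : ∀ f : GG, (hh u * Q j * hh w) f ∈ GJ j := fun f => hA.1 j _ (Q_mem_GJ j _)
  have h2 := (GR.pow_mem hg 2)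
  have e2 : dl g (hh u * Q j * hh w) f = (g ^ 2) ((hh u * Q j * hh w) f) + g ((hh u * Q j * hh w) (g f)) +
      (hh u * Q j * hh w) ((g ^ 2) f) := rfl
  rw [e2]
  exact (GJ j).add_mem ((GJ j).add_mem (h2.1 j _ (hY f)) (hg.1 j _ (hY _))) (hY _)

/-- PROOF: as before, with `Q_kill`. -/
theorem Phi_kill {l : List Lt} {j : ℕ} (hj : Sum.inl j ∈ l) (IH : ∀ w : List Lt, w.length < l.length → Phi w = 0)
    {f : GG} (hf : f ∈ GJ j) : Phi l f = 0 := by
  obtain ⟨u, w, e⟩ := M14_split hj IH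
  rw [e]
  have hg : hh (u ++ w) + 1 ∈ GR := GR.add_mem (hh_GR _) GR.one_mem
  generalize hh (u ++ w) + 1 = g at *
  have hA := hh_GR u
  have hB := hh_GR w
  have hY : ∀ f ∈ GJ j, (hh u * Q j * hh w) f = 0 := fun f hf => by
    show hh u (Q j (hh w f)) = 0
    rw [Q_kill (hB.1 j f hf), map_zero]
  have h2 := (GR.pow_mem hg 2)
  have e2 : dl g (hh u * Q j * hh w) f = (g ^ 2) ((hh u * Q j * hh w) f) + g ((hh u * Q j * hh w) (g f)) +
      (hh u * Q j * hh w) ((g ^ 2) f) := rfl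
  rw [e2, hY f hf, hY _ (hg.1 j f hf), hY _ (h2.1 j f hf), map_zero, map_zero, add_zero, add_zero]

/-- PROOF: `pi_add_GJ`, `Phi_kill`. -/
theorem Phi_pi {l : List Lt} {j : ℕ} (hj : Sum.inl j ∈ l) (IH : ∀ w : List Lt, w.length < l.length → Phi w = 0)
    (f : GG) : Phi l (pi j f) = Phi l f := by
  have h := Phi_kill hj IH (pi_add_GJ j f)
  rw [map_add] at h
  have h2 := GG_two (Phi l f)
  have h3 : Phi l f + Phi l (pi j f) = Phi l f + Phi l f := by rw [h, h2]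
  exact add_left_cancel h3

end E4.M
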