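import Pool.Agent.Lib.MP_8a95e3_al.M15a

/-!
# M15 : three symmetric letters
-/

namespace E4.M

private theorem M15_ev {a b x : ℕ} {τ : ℕ → ℕ} (ha : x ≠ a) (hb : x ≠ b) {y : ℕ} (h : τ x = y) : ed a b τ x = y := by
  rw [ed_ne τ ha hb, h]

/-- the six points in normal form -/
private theorem M15_g6 {j1 j2 j3 : ℕ} (h12 : j1 ≠ j2) (h13 : j1 ≠ j3) (h23 : j2 ≠ j3) {g : GG} (s12 : sg j1 j2 g = g)
    (s23 : sg j2 j3 g = g) {β : ℕ → ℕ} (A : Finset ℕ) (h : Inv β) {p q r J1 J2 J3 : ℕ} (k1 : J1 = j1 + 3) (k2 : J2 = j2 + 3)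
    (k3 : J3 = j3 + 3) (b1 : β J1 = J1) (b2 : β J2 = J2) (b3 : β J3 = J3) (bp : β p = p) (bq : β q = q) (br : β r = r)
    (hn : [J1, q, J3, p, J2, r].Nodup) : g.1 (ed J1 p (ed J2 q (ed J3 r β))) A = 0 := by
  have hx : ∀ x ∈ [J1, q, J3, p, J2, r], β x = x := by
    intro x hx
    simp only [List.mem_cons, List.not_mem_nil, or_false] at hx
    rcases hx with rfl | rfl | rfl | rfl | rfl | rfl
    · exact b1
    · exact bq
    · exact b3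
    · exact bp
    · exact b2
    · exact br
  have hg := (show InG g.1 from g.2).g6 β A J1 q J3 p J2 r h hx hn
  simp only [List.nodup_cons, List.mem_cons, List.not_mem_nil, or_false, not_or, List.nodup_nil, not_false_eq_true,
    and_true] at hn
  obtain ⟨⟨n1q, n13, n1p, n12, n1r⟩, ⟨nq3, nqp, nq2, nqr⟩, ⟨n3p, n32, n3r⟩, ⟨np2, npr⟩, n2r⟩ := hn
  have v1 : g.1 (ed J1 J2 (ed q r (ed J3 p β))) A = 0 := by
    have I1 : Inv (ed J3 p β) := ed_Inv h b3 bp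
    have I2 : Inv (ed q r (ed J3 p β)) := ed_Inv I1 (M15_ev nq3 nqp bq) (M15_ev (Ne.symm n3r) (Ne.symm npr) br)
    have I3 : Inv (ed J1 J2 (ed q r (ed J3 p β))) :=
      ed_Inv I2 (M15_ev n1q n1r (M15_ev n13 n1p b1)) (M15_ev (Ne.symm nq2) n2r (M15_ev (Ne.symm n32) (Ne.symm np2) b2))
    refine T1 h12 h13 h23 s12 A I3 ?_ ?_
    · rw [← k1, ← k2, ed_left]
    · rw [← k3, M15_ev (Ne.symm n13) n32 (M15_ev (Ne.symm nq3) n3r (ed_left J3 p β))]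
      exact Ne.symm n3p
  have v2 : g.1 (ed J1 r (ed q p (ed J3 J2 β))) A = 0 := by
    have I1 : Inv (ed J3 J2 β) := ed_Inv h b3 b2
    have I2 : Inv (ed q p (ed J3 J2 β)) := ed_Inv I1 (M15_ev nq3 nq2 bq) (M15_ev (Ne.symm n3p) np2 bp)
    have I3 : Inv (ed J1 r (ed q p (ed J3 J2 β))) :=
      ed_Inv I2 (M15_ev n1q n1p (M15_ev n13 n12 b1)) (M15_ev (Ne.symm nqr) (Ne.symm npr) (M15_ev (Ne.symm n3r) (Ne.symm n2r) br))
    refine T1 h23 (Ne.symm h12) (Ne.symm h13) s23 A I3 ?_ ?_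
    · rw [← k2, ← k3]
      exact M15_ev (Ne.symm n12) n2r (M15_ev (Ne.symm nq2) (Ne.symm np2) (ed_right J3 J2 β))
    · rw [← k1, ed_left]
      exact Ne.symm n1r
  rw [v1, v2, add_zero, add_zero] at hg
  rw [ed_comm J2 q]
  exact hg

/-- **No two of the letters are joined.**

PROOF. Normal form: `τ = ed J1 p (ed J2 q (ed J3 r β))`. (g6) for `x0 = J1, x1 = q, x2 = J3, y0 = p, y1 = J2, y2 = r`: the first closing is `τ` (`ed_comm`), the second has the edge `J1 - J2` and the third the edge `J3 - J2`: both values are `0` by `T1` (all of `J1, J2, J3` are moved by them). -/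
theorem T2 {j1 j2 j3 : ℕ} (h12 : j1 ≠ j2) (h13 : j1 ≠ j3) (h23 : j2 ≠ j3) {g : GG} (s12 : sg j1 j2 g = g)
    (s23 : sg j2 j3 g = g) {τ : ℕ → ℕ} (A : Finset ℕ) (h : Inv τ) (e1 : τ (j1 + 3) ≠ j1 + 3) (e2 : τ (j2 + 3) ≠ j2 + 3)
    (e3 : τ (j3 + 3) ≠ j3 + 3) (n12 : τ (j1 + 3) ≠ j2 + 3) (n13 : τ (j1 + 3) ≠ j3 + 3) (n23 : τ (j2 + 3) ≠ j3 + 3) :
    g.1 τ A = 0 := by
  obtain ⟨J1, k1⟩ : ∃ J, J = j1 + 3 := ⟨_, rfl⟩
  obtain ⟨J2, k2⟩ : ∃ J, J = j2 + 3 := ⟨_, rfl⟩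
  obtain ⟨J3, k3⟩ : ∃ J, J = j3 + 3 := ⟨_, rfl⟩
  rw [← k1] at e1 n12 n13
  rw [← k2] at e2 n12 n23
  rw [← k3] at e3 n13 n23
  have m12 : J1 ≠ J2 := by omega
  have m13 : J1 ≠ J3 := by omega
  have m23 : J2 ≠ J3 := by omega
  obtain ⟨p, hp⟩ : ∃ p, τ J1 = p := ⟨_, rfl⟩
  obtain ⟨q, hq⟩ : ∃ q, τ J2 = q := ⟨_, rfl⟩
  obtain ⟨r, hr⟩ : ∃ r, τ J3 = r := ⟨_, rfl⟩
  have hp' : τ p = J1 := by rw [← hp]; exact h J1
  have hq' : τ q = J2 := by rw [← hq]; exact h J2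
  have hr' : τ r = J3 := by rw [← hr]; exact h J3
  rw [hp] at e1 n12 n13
  rw [hq] at e2 n23
  rw [hr] at e3
  have n21 : q ≠ J1 := by
    intro e
    rw [e, hp] at hq'
    exact n12 hq'
  have n31 : r ≠ J1 := by
    intro e
    rw [e, hp] at hr'
    exact n13 hr'
  have n32 : r ≠ J2 := by
    intro e
    rw [e, hq] at hr'
    exact n23 hr'
  have npq : p ≠ q := by
    intro e
    rw [e, hq'] at hp'
    exact m12 hp'.symm
  have npr : p ≠ r := by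
    intro e
    rw [e, hr'] at hp'
    exact m13 hp'.symm
  have nqr : q ≠ r := by
    intro e
    rw [e, hr'] at hq'
    exact m23 hq'.symm
  obtain ⟨β1, I1, f1, f1', eq1, o1⟩ := exists_base h hp (Ne.symm e1)
  have q1 : β1 J2 = q := by rw [o1 J2 (Ne.symm m12) (Ne.symm n12), hq]
  obtain ⟨β2, I2, f2, f2', eq2, o2⟩ := exists_base I1 q1 (Ne.symm e2)
  have r1 : β2 J3 = r := by rw [o2 J3 (Ne.symm m23) (Ne.symm n23), o1 J3 (Ne.symm m13) (Ne.symm n13), hr]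
  obtain ⟨β3, I3, f3, f3', eq3, o3⟩ := exists_base I2 r1 (Ne.symm e3)
  rw [eq1, eq2, eq3]
  refine M15_g6 h12 h13 h23 s12 s23 A I3 k1 k2 k3 ?_ ?_ f3 ?_ ?_ f3' ?_
  · rw [o3 J1 m13 (Ne.symm n31), o2 J1 m12 (Ne.symm n21), f1]
  · rw [o3 J2 m23 (Ne.symm n32), f2]
  · rw [o3 p n13 npr, o2 p n12 npq, f1']
  · rw [o3 q n23 nqr, f2']
  · simp only [List.nodup_cons, List.mem_cons, List.not_mem_nil, or_false, not_or, List.nodup_nil, not_false_eq_true,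
      and_true]
    exact ⟨⟨Ne.symm n21, m13, Ne.symm e1, m12, Ne.symm n31⟩, ⟨n23, Ne.symm npq, e2, nqr⟩,
      ⟨Ne.symm n13, Ne.symm m23, Ne.symm e3⟩, ⟨n12, npr⟩, Ne.symm n32⟩

/-- **Three symmetric letters.**

PROOF. Value at `τ`: not an involution: `g0`. If `τ` fixes one of `J1, J2, J3`: `GJ`. If two of them are joined: `T1` (for a permutation of the indices; `sg j k = sg k j` because `Equiv.swap_comm`). Otherwise `T2`. -/
theorem three_zero {j1 j2 j3 : ℕ} (h12 : j1 ≠ j2) (h13 : j1 ≠ j3) (h23 : j2 ≠ j3) {g : GG} (g1 : g ∈ GJ j1)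
    (g2 : g ∈ GJ j2) (g3 : g ∈ GJ j3) (s12 : sg j1 j2 g = g) (s13 : sg j1 j3 g = g) (s23 : sg j2 j3 g = g) : g = 0 := by
  apply Subtype.ext
  funext τ A
  show g.1 τ A = 0
  by_cases h : Inv τ
  · by_cases e1 : τ (j1 + 3) = j1 + 3
    · exact g1 τ A e1
    by_cases e2 : τ (j2 + 3) = j2 + 3
    · exact g2 τ A e2
    by_cases e3 : τ (j3 + 3) = j3 + 3
    · exact g3 τ A e3
    by_cases n12 : τ (j1 + 3) = j2 + 3
    · exact T1 h12 h13 h23 s12 A h n12 e3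
    by_cases n13 : τ (j1 + 3) = j3 + 3
    · exact T1 h13 h12 (Ne.symm h23) s13 A h n13 e2
    by_cases n23 : τ (j2 + 3) = j3 + 3
    · exact T1 h23 (Ne.symm h12) (Ne.symm h13) s23 A h n23 e1
    exact T2 h12 h13 h23 s12 s23 A h e1 e2 e3 n12 n13 n23
  · exact (show InG g.1 from g.2).g0 τ A h

end E4.M
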