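import Pool.Agent.Lib.MP_8a95e3_al.M10

/-!
# M15a : three symmetric letters, two of them joined (`J1 = j1 + 3`, ...)
-/

namespace E4.M

/-- `g` is invariant under the exchange of `j`, `k`: the values. -/
theorem sg_inv_val {j k : ℕ} {g : GG} (h : sg j k g = g) (τ : ℕ → ℕ) (A : Finset ℕ) :
    g.1 (rl (Equiv.swap (j + 3) (k + 3)) τ) A = g.1 τ A := by
  have e := congrArg (fun u : GG => u.1 τ A) h
  exact e

/-- **The letters `j1`, `j2` are joined.**

PROOF. Normal form (`exists_base` twice): `τ = ed J1 J2 (ed J3 y β)`, `y = τ J3` different from `J1, J2, J3`. (g4) for `J1, J2, J3, y`: `g(τ) + g(ed J1 J3 (ed J2 y β)) + g(ed J1 y (ed J2 J3 β)) = 0`, and the last two closings are exchanged by `swap J1 J2` (`rl_ed`, `rl_swap` for `β`, `ed_ed_comm`), so the two values are equal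
and their sum is `0`. -/
theorem T1 {j1 j2 j3 : ℕ} (h12 : j1 ≠ j2) (h13 : j1 ≠ j3) (h23 : j2 ≠ j3) {g : GG} (s12 : sg j1 j2 g = g)
    {τ : ℕ → ℕ} (A : Finset ℕ) (h : Inv τ) (e : τ (j1 + 3) = j2 + 3) (h3 : τ (j3 + 3) ≠ j3 + 3) : g.1 τ A = 0 := by
  have i3 := h (j3 + 3)
  have i1 := h (j1 + 3)
  have i2 := h (j2 + 3)
  rw [e] at i1
  obtain ⟨β1, hβ1, b1, b2, b3, b4⟩ := exists_base h e (by omega)
  have c1 : β1 (j3 + 3) = τ (j3 + 3) := b4 _ (by omega) (by omega)
  obtain ⟨β2, hβ2, d1, d2, d3, d4⟩ := exists_base hβ1 (a := j3 + 3) (b := τ (j3 + 3)) c1 (fun e => h3 e.symm)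
  have n1 : τ (j3 + 3) ≠ j1 + 3 := by grind
  have n2 : τ (j3 + 3) ≠ j2 + 3 := by grind
  generalize hy : τ (j3 + 3) = y at *
  have g1 : β2 (j1 + 3) = j1 + 3 := by rw [d4 _ (by omega) (by omega), b1]
  have g2 : β2 (j2 + 3) = j2 + 3 := by rw [d4 _ (by omega) (by omega), b2]
  have key := g.2.g4 β2 A (j1 + 3) (j2 + 3) (j3 + 3) y hβ2
    (by
      intro x hx
      simp only [List.mem_cons, List.not_mem_nil, or_false] at hx
      rcases hx with rfl | rfl | rfl | rfl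
      · exact g1
      · exact g2
      · exact d1
      · exact d2)
    (by
      simp
      omega)
  have ex : rl (Equiv.swap (j1 + 3) (j2 + 3)) (ed (j1 + 3) (j3 + 3) (ed (j2 + 3) y β2)) =
      ed (j1 + 3) y (ed (j2 + 3) (j3 + 3) β2) := by
    rw [rl_ed, rl_ed, rl_swap hβ2 g1 g2, Equiv.swap_apply_left, Equiv.swap_apply_right,
      Equiv.swap_apply_of_ne_of_ne (by omega) (by omega), Equiv.swap_apply_of_ne_of_ne n1 n2]
    exact ed_ed_comm (by omega) (by omega) (by omega) (by omega) _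
  have ev := sg_inv_val s12 (ed (j1 + 3) (j3 + 3) (ed (j2 + 3) y β2)) A
  rw [ex] at ev
  rw [ev] at key
  rw [b3, d3]
  have two : ∀ z : ZMod 2, z + z = 0 := fun z => CharTwo.add_self_eq_zero z
  have hz := two ((g : GG).1 (ed (j1 + 3) (j3 + 3) (ed (j2 + 3) y β2)) A)
  linear_combination key - hz

end E4.M
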