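import Pool.Agent.Lib.MP_8a95e3_al.M16c

/-!
# M16 : few vector letters
-/

namespace E4.M

/-- **Few vector letters.**

PROOF. `zs = l.filter (fun x => x.isRight)`, `vs = l.filter (fun x => !x.isRight)`; `(zs ++ vs).Perm l` (`List.filter_append_perm`), so `Phi l = Phi (zs ++ vs)` (`C_perm`). `zs = inr i :: inr i' :: zs'`: `C_zz` with the values `0` by `IH` (`zs ++ vs` has the length of `l`). Otherwise `zs` is `[]` or `[inr i]` and
`vs` has at most two elements: `C_nil`, `C_one`, `C_two`, `C_zvv` (`j ≠ k` because `vs` has no repetition). -/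
theorem C_few {l : List Lt} (hn : l.Nodup) (IH : ∀ w : List Lt, w.length < l.length → Phi w = 0)
    (h : (l.filter fun x => !x.isRight).length ≤ 2) : Phi l = 0 := by
  obtain ⟨zs, hzs⟩ : ∃ zs, zs = l.filter fun x : Lt => x.isRight := ⟨_, rfl⟩
  obtain ⟨vs, hvs⟩ : ∃ vs, vs = l.filter fun x : Lt => !x.isRight := ⟨_, rfl⟩
  have hperm : (zs ++ vs).Perm l := by
    rw [hzs, hvs]
    exact List.filter_append_perm _ _
  have hlen : (zs ++ vs).length = l.length := hperm.length_eq
  have hnd : (zs ++ vs).Nodup := hperm.nodup_iff.2 hn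
  have hz : ∀ x ∈ zs, ∃ i, x = Sum.inr i := by
    intro x hx
    rw [hzs, List.mem_filter] at hx
    rcases x with j | i
    · simp at hx
    · exact ⟨i, rfl⟩
  have hv : ∀ x ∈ vs, ∃ i, x = Sum.inl i := by
    intro x hx
    rw [hvs, List.mem_filter] at hx
    rcases x with j | i
    · exact ⟨j, rfl⟩
    · simp at hx
  rw [← hvs] at h
  rw [C_perm hperm.symm hn IH]
  clear hzs hvs
  rw [← hlen] at IH
  clear hlen hperm hn
  rcases zs with _ | ⟨z, _ | ⟨z', zs'⟩⟩
  · rcases vs with _ | ⟨x, _ | ⟨y, _ | ⟨w, t⟩⟩⟩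
    · exact C_nil
    · exact C_one x
    · exact C_two x y
    · simp only [List.length_cons] at h
      omega
  · obtain ⟨i, rfl⟩ := hz z (by simp)
    rcases vs with _ | ⟨x, _ | ⟨y, _ | ⟨w, t⟩⟩⟩
    · exact C_one _
    · exact C_two _ _
    · obtain ⟨j, rfl⟩ := hv x (by simp)
      obtain ⟨k, rfl⟩ := hv y (by simp)
      refine C_zvv i ?_
      rintro rfl
      simp at hnd
    · simp only [List.length_cons] at h
      omega
  · obtain ⟨i, rfl⟩ := hz z (by simp)
    obtain ⟨i', rfl⟩ := hz z' (by simp)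
    refine C_zz i i' (zs' ++ vs) (IH _ ?_) (IH _ ?_) (IH _ ?_)
    · simp only [List.length_cons, List.length_append]
      omega
    · simp only [List.length_cons, List.length_append]
      omega
    · simp only [List.length_cons, List.length_append]
      omega

end E4.M
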