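import Pool.Agent.Lib.MP_8a95e3_al.M13
import Pool.Agent.Lib.MP_8a95e3_al.M14
import Pool.Agent.Lib.MP_8a95e3_al.M15

/-!
# M16a : three vector letters
-/

namespace E4.M

private theorem M16a_sg {l : List Lt} (hn : l.Nodup) (IH : ∀ w : List Lt, w.length < l.length → Phi w = 0) {j k : ℕ}
    (hj : Sum.inl j ∈ l) (hk : Sum.inl k ∈ l) {f : GG} (hf : sg j k f = f) : sg j k (Phi l f) = Phi l f := by
  have h1 : sg j k (Phi l f) = Phi (l.map (ren j k)) (sg j k f) := by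
    rw [← EE_mul, sg_Phi, EE_mul]
  have h2 : Phi (l.map (ren j k)) = Phi l := (C_perm (map_ren_perm hn hj hk).symm hn IH).symm
  rw [h1, hf, h2]

/-- **Three vector letters.**

PROOF. `EE_ext` / for all `f`: `f' = pi j1 (pi j2 (pi j3 f))`, `g = Phi l f = Phi l f'` (`Phi_pi` three times). For `j, k` two of the letters: `sg j k g = (sg j k * Phi l) f' = Phi (l.map (ren j k)) (sg j k f') = Phi (l.map (ren j k)) f' = Phi l f' = g` (`sg_Phi`, `sg_pi3`, `map_ren_perm`, `C_perm`). `g ∈ GJ j1, GJ j2, GJ j3` (`Phi_mem_GJ`).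
`three_zero`: `g = 0`. -/
theorem C_three {l : List Lt} (hn : l.Nodup) (IH : ∀ w : List Lt, w.length < l.length → Phi w = 0) {j1 j2 j3 : ℕ}
    (h12 : j1 ≠ j2) (h13 : j1 ≠ j3) (h23 : j2 ≠ j3) (m1 : Sum.inl j1 ∈ l) (m2 : Sum.inl j2 ∈ l) (m3 : Sum.inl j3 ∈ l) :
    Phi l = 0 := by
  apply AddMonoidHom.ext
  intro f
  have h1 : Phi l (pi j1 (pi j2 (pi j3 f))) = Phi l f := by
    rw [Phi_pi m1 IH, Phi_pi m2 IH, Phi_pi m3 IH]
  obtain ⟨s12, s13, s23⟩ := sg_pi3 j1 j2 j3 f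
  have h2 : Phi l (pi j1 (pi j2 (pi j3 f))) = 0 :=
    three_zero h12 h13 h23 (Phi_mem_GJ m1 IH _) (Phi_mem_GJ m2 IH _) (Phi_mem_GJ m3 IH _)
      (M16a_sg hn IH m1 m2 s12) (M16a_sg hn IH m1 m3 s13) (M16a_sg hn IH m2 m3 s23)
  exact h1.symm.trans h2

end E4.M
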