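import Pool.Agent.Lib.MP_8a95e3_al.M16a

/-!
# M16b : two marker letters
-/

namespace E4.M

/-- **Two marker letters at the beginning.**

PROOF. `c = a i`, `c' = a i'`, `s = c + c' + c c'`, `B = hh w`, `g = B + 1`. `(1 + c N) (1 + c' N) = 1 + s N` (`N_N`, `a_N`), `s s = 0` (`a_sq`, `a_a`, `EE_two`), `s` commutes with `GR`. `Y = s N B`: `Y Y = 0`, `Y g Y = 0`; `Phi = g^3 + dl g Y = Phi w + s dl g (N B)`. `c dl g (N B) = dl g (c N B) = 0` and `c' dl g (N B) = 0`
(`dl_ins_zero` with `u = []`), so `s dl g (N B) = 0`. -/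
theorem C_zz (i i' : ℕ) (w : List Lt) (h1 : Phi (Sum.inr i :: w) = 0) (h2 : Phi (Sum.inr i' :: w) = 0)
    (h3 : Phi w = 0) : Phi (Sum.inr i :: Sum.inr i' :: w) = 0 := by
  have hB := hh_GR w
  have hg : hh w + 1 ∈ GR := GR.add_mem hB GR.one_mem
  have hNB : N * hh w ∈ GR := GR.mul_mem N_GR hB
  -- the element s
  have hs : ∀ W ∈ GR, (a i + a i' + a i * a i') * W = W * (a i + a i' + a i * a i') := by
    intro W hW
    have e1 := hW.2 i
    have e2 := hW.2 i'
    rw [add_mul, add_mul, mul_add, mul_add, ← e1, ← e2, mul_assoc (a i) (a i') W, ← e2, ← mul_assoc (a i) W, ← e1, mul_assoc W]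
  have hss : (a i + a i' + a i * a i') * (a i + a i' + a i * a i') = 0 := by
    have e1 := a_sq i
    have e2 := a_sq i'
    have e3 := a_a i i'
    have e4 : a i * a i' * a i = 0 := by rw [e3, mul_assoc, e1, mul_zero]
    have e5 : a i * a i' * a i' = 0 := by rw [mul_assoc, e2, mul_zero]
    have e6 : a i * (a i * a i') = 0 := by rw [← mul_assoc, e1, zero_mul]
    have e7 : a i' * (a i * a i') = 0 := by rw [e3, ← mul_assoc, e2, zero_mul]
    have e8 : a i * a i' * (a i * a i') = 0 := by rw [← mul_assoc, e4, zero_mul]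
    simp only [add_mul, mul_add, e1, e2, e4, e5, e6, e7, e8, add_zero, zero_add]
    rw [← e3]
    exact EE_two _
  have hh1 : hh (Sum.inr i :: Sum.inr i' :: w) + 1 = hh w + 1 + (a i + a i' + a i * a i') * (N * hh w) := by
    rw [hh_cons, hh_cons]
    show (1 + a i * N) * ((1 + a i' * N) * hh w) + 1 = _
    have e : a i * N * (a i' * N) = a i * a i' * N := by
      rw [mul_assoc, ← mul_assoc N, ← a_N, mul_assoc (a i'), N_N, ← mul_assoc]
    have e2 : (1 + a i * N) * (1 + a i' * N) = 1 + (a i + a i' + a i * a i') * N := by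
      rw [add_mul, one_mul, mul_add, mul_one, e, add_mul, add_mul]
      abel
    rw [← mul_assoc, e2, add_mul, one_mul, mul_assoc]
    abel
  have hY1 : ∀ W ∈ GR, (a i + a i' + a i * a i') * (N * hh w) * W * ((a i + a i' + a i * a i') * (N * hh w)) = 0 := by
    intro W hW
    have hZ : N * hh w * W ∈ GR := GR.mul_mem hNB hW
    calc (a i + a i' + a i * a i') * (N * hh w) * W * ((a i + a i' + a i * a i') * (N * hh w)) =
        (a i + a i' + a i * a i') * ((N * hh w * W) * (a i + a i' + a i * a i')) * (N * hh w) := by simp only [mul_assoc]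
      _ = (a i + a i' + a i * a i') * ((a i + a i' + a i * a i') * (N * hh w * W)) * (N * hh w) := by rw [hs _ hZ]
      _ = (a i + a i' + a i * a i') * (a i + a i' + a i * a i') * (N * hh w * W) * (N * hh w) := by simp only [mul_assoc]
      _ = 0 := by rw [hss, zero_mul, zero_mul]
  have hYY := hY1 1 GR.one_mem
  rw [mul_one] at hYY
  have hYgY := hY1 _ hg
  have e := cube_add hYY hYgY
  have f1 : a i * dl (hh w + 1) (N * hh w) = 0 := by
    rw [← dl_mul (hg.2 i).symm]
    have e := dl_ins_zero (u := []) (v := w) (x := Sum.inr i) h1 h3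
    rw [hh_nil, one_mul, List.nil_append] at e
    rw [← mul_assoc]
    exact e
  have f2 : a i' * dl (hh w + 1) (N * hh w) = 0 := by
    rw [← dl_mul (hg.2 i').symm]
    have e := dl_ins_zero (u := []) (v := w) (x := Sum.inr i') h2 h3
    rw [hh_nil, one_mul, List.nil_append] at e
    rw [← mul_assoc]
    exact e
  have f3 : dl (hh w + 1) ((a i + a i' + a i * a i') * (N * hh w)) = 0 := by
    rw [dl_mul (hs _ hg), add_mul, add_mul, f1, f2, mul_assoc, f2, mul_zero, add_zero, add_zero]
  unfold Phi at h3 ⊢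
  rw [hh1, e, h3, f3, add_zero]

end E4.M
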