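import Pool.Agent.Lib.MP_8a95e3_al.M16b

/-!
# M16c : short words
-/

namespace E4.M

private theorem M16c_plus (X : EE) : 1 + X + 1 = X := by
  have h1 : 1 + X + 1 = X + (1 + 1) := by abel
  rw [h1, EE_two, add_zero]

theorem C_nil : Phi [] = 0 := by
  unfold Phi
  rw [hh_nil, EE_two, zero_pow (by norm_num)]

/-- PROOF: `hh [x] + 1 = op x` (`EE_two`), `op_sq`. -/
theorem C_one (x : Lt) : Phi [x] = 0 := by
  unfold Phi
  rw [hh_cons, hh_nil, mul_one, M16c_plus, pow_succ, pow_two, op_sq, zero_mul]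

private theorem M16c_sq {R : Type*} [Ring R] {X Y : R} (XX : X * X = 0) (YY : Y * Y = 0) (XYX : X * Y * X = 0)
    (YXY : Y * X * Y = 0) : (X + Y + X * Y) * (X + Y + X * Y) = X * Y + Y * X := by
  have e1 : (X + Y + X * Y) * (X + Y + X * Y) = X * X + X * Y + X * X * Y + Y * X + Y * Y + Y * X * Y + X * Y * X +
      X * (Y * Y) + X * Y * X * Y := by noncomm_ring
  rw [e1, XX, YY, XYX, YXY]
  noncomm_ring

private theorem M16c_cube {R : Type*} [Ring R] {X Y : R} (XX : X * X = 0) (YY : Y * Y = 0) (XYX : X * Y * X = 0)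
    (YXY : Y * X * Y = 0) : (X * Y + Y * X) * (X + Y + X * Y) = 0 := by
  have e1 : (X * Y + Y * X) * (X + Y + X * Y) = X * Y * X + X * (Y * Y) + X * Y * X * Y + Y * (X * X) + Y * X * Y +
      Y * (X * X) * Y := by noncomm_ring
  rw [e1, XX, YY, XYX, YXY]
  noncomm_ring

private theorem M16c_hh (x y : Lt) : hh [x, y] + 1 = op x + op y + op x * op y := by
  rw [hh_cons, hh_cons, hh_nil, mul_one]
  have e1 : (1 + op x) * (1 + op y) + 1 = 1 + (op x + op y + op x * op y) + 1 := by noncomm_ring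
  rw [e1, M16c_plus]

/-- PROOF: `Phi_ins [] [y] x`, `C_one`: `Phi [x, y] = dl Y (X (1 + Y))`, `X = op x`, `Y = op y`, and `Y Y = 0`, `Y X Y = 0` (`op_W_op`). -/
theorem C_two (x y : Lt) : Phi [x, y] = 0 := by
  unfold Phi
  rw [M16c_hh, pow_succ, pow_two, M16c_sq (op_sq x) (op_sq y) (op_W_op x (op_GR y)) (op_W_op y (op_GR x)),
    M16c_cube (op_sq x) (op_sq y) (op_W_op x (op_GR y)) (op_W_op y (op_GR x))]

private theorem M16c_dl {R : Type*} [Ring R] {X y w D : R} (hD : D = y * w + w * y)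
    (hgg : (y + w + y * w) * (y + w + y * w) = D) (hgD : (y + w + y * w) * D = 0)
    (yXy : y * X * y = 0) (wXw : w * X * w = 0) (yXwy : y * (X * w) * y = 0) (ywXy : y * (w * X) * y = 0)
    (wXyw : w * (X * y) * w = 0) (wyXw : w * (y * X) * w = 0) :
    dl (y + w + y * w) (X * (1 + (y + w + y * w))) = D * X + X * D + (y * X * w + w * X * y) := by
  have e0 : dl (y + w + y * w) (X * (1 + (y + w + y * w))) =
      ((y + w + y * w) * (y + w + y * w)) * X + ((y + w + y * w) * (y + w + y * w)) * X * (y + w + y * w) +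
      (y + w + y * w) * X * (y + w + y * w) + (y + w + y * w) * X * ((y + w + y * w) * (y + w + y * w)) +
      X * ((y + w + y * w) * (y + w + y * w)) + X * ((y + w + y * w) * ((y + w + y * w) * (y + w + y * w))) := by
    unfold dl
    noncomm_ring
  have e1 : D * X * (y + w + y * w) = 0 := by
    rw [hD]
    have e2 : (y * w + w * y) * X * (y + w + y * w) = y * (w * X) * y + y * (w * X * w) + y * (w * X) * y * w +
        w * (y * X * y) + w * (y * X) * w + w * (y * X * y) * w := by noncomm_ring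
    rw [e2, ywXy, wXw, yXy, wyXw]
    noncomm_ring
  have e3 : (y + w + y * w) * X * (y + w + y * w) = y * X * w + w * X * y := by
    have e4 : (y + w + y * w) * X * (y + w + y * w) = y * X * y + y * X * w + y * X * y * w + w * X * y + w * X * w +
        w * (X * y) * w + y * (w * X) * y + y * (w * X * w) + y * (w * X) * y * w := by noncomm_ring
    rw [e4, yXy, wXw, wXyw, ywXy]
    noncomm_ring
  have e5 : (y + w + y * w) * X * D = 0 := by
    rw [hD]
    have e6 : (y + w + y * w) * X * (y * w + w * y) = y * X * y * w + y * (X * w) * y + w * (X * y) * w +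
        w * X * w * y + y * (w * X) * y * w + y * (w * X * w) * y := by noncomm_ring
    rw [e6, yXy, wXw, wXyw, ywXy, yXwy]
    noncomm_ring
  rw [e0, hgg, e1, e3, e5, hgD]
  noncomm_ring

/-- PROOF. `x = c N`, `c = a i`, `y = Q j`, `w = Q k`; `Phi_ins [] [inl j, inl k] (inr i)` and `C_two`: `Phi = dl g (x (1 + g))` with `g = y + w + y w`, `g g = y w + w y`. Using `y W y = 0`, `w W w = 0` (`W ∈ GR`): `Phi = x (y w + w y) + (y w + w y) x + y x w + w x y = c (N D + D N + y N w + w N y)`, `D = y w + w y = b j k N` (`Q_Q`). `D` commutes with `N`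
(`b_N`, `N_N`): `N D + D N = 0`; `y N = N y + y`, `w N = N w + w` (`N_Q`, `EE_two`): `y N w + w N y = N D + D = D + D = 0`. -/
theorem C_zvv (i : ℕ) {j k : ℕ} (h : j ≠ k) : Phi [Sum.inr i, Sum.inl j, Sum.inl k] = 0 := by
  have hX : op (Sum.inr i) ∈ GR := op_GR _
  have h1 := Phi_ins [] [Sum.inl j, Sum.inl k] (Sum.inr i)
  rw [List.nil_append, List.nil_append, C_two, zero_add, hh_nil, one_mul] at h1
  have e1 : hh [Sum.inl j, Sum.inl k] = 1 + (Q j + Q k + Q j * Q k) := by
    rw [hh_cons, hh_cons, hh_nil, mul_one]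
    show (1 + Q j) * (1 + Q k) = _
    noncomm_ring
  have e2 : hh [Sum.inl j, Sum.inl k] + 1 = Q j + Q k + Q j * Q k := M16c_hh (Sum.inl j) (Sum.inl k)
  have e3 : op (Sum.inr i) = a i * N := rfl
  rw [e2, e1, e3] at h1
  rw [e3] at hX
  have gj : ∀ l, Q l ∈ GR := Q_GR
  have hD := M16c_sq (Q_sq j) (Q_sq k) (Q_W_Q j (gj k)) (Q_W_Q k (gj j))
  have hDg := M16c_cube (Q_sq j) (Q_sq k) (Q_W_Q j (gj k)) (Q_W_Q k (gj j))
  have hgD : (Q j + Q k + Q j * Q k) * (Q j * Q k + Q k * Q j) = 0 := by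
    rw [← hD, ← mul_assoc, hD, hDg]
  rw [M16c_dl (D := Q j * Q k + Q k * Q j) rfl hD hgD (Q_W_Q j hX) (Q_W_Q k hX) (Q_W_Q j (GR.mul_mem hX (gj k)))
    (Q_W_Q j (GR.mul_mem (gj k) hX)) (Q_W_Q k (GR.mul_mem hX (gj j))) (Q_W_Q k (GR.mul_mem (gj j) hX))] at h1
  rw [h1]
  have hcj : Q j * a i = a i * Q j := (a_Q i j).symm
  have hck : Q k * a i = a i * Q k := (a_Q i k).symm
  have hDN : (Q j * Q k + Q k * Q j) * N = Q j * Q k + Q k * Q j := by
    rw [Q_Q h, mul_assoc, N_N]
  have hND : N * (Q j * Q k + Q k * Q j) = Q j * Q k + Q k * Q j := by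
    rw [Q_Q h, ← mul_assoc, ← b_N, mul_assoc, N_N]
  have hQN : ∀ l, Q l * N = Q l + N * Q l := by
    intro l
    have e5 : Q l * N = (N * Q l + Q l * N) + N * Q l := by
      have e6 : N * Q l + Q l * N + N * Q l = Q l * N + (N * Q l + N * Q l) := by abel
      rw [e6, EE_two, add_zero]
    rw [e5, N_Q]
  have e7 : (Q j * Q k + Q k * Q j) * (a i * N) = a i * ((Q j * Q k + Q k * Q j) * N) := by
    have e8 : (Q j * Q k + Q k * Q j) * (a i * N) = (Q j * (Q k * a i) + Q k * (Q j * a i)) * N := by noncomm_ring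
    rw [e8, hck, hcj]
    have e9 : (Q j * (a i * Q k) + Q k * (a i * Q j)) * N = (Q j * a i * Q k + Q k * a i * Q j) * N := by noncomm_ring
    rw [e9, hcj, hck]
    noncomm_ring
  have e10 : Q j * (a i * N) * Q k = a i * (Q j * N * Q k) := by
    have e11 : Q j * (a i * N) * Q k = Q j * a i * N * Q k := by noncomm_ring
    rw [e11, hcj]
    noncomm_ring
  have e12 : Q k * (a i * N) * Q j = a i * (Q k * N * Q j) := by
    have e13 : Q k * (a i * N) * Q j = Q k * a i * N * Q j := by noncomm_ring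
    rw [e13, hck]
    noncomm_ring
  rw [e7, e10, e12, hDN, hQN, hQN]
  have e14 : a i * (Q j * Q k + Q k * Q j) + a i * N * (Q j * Q k + Q k * Q j) +
      (a i * ((Q j + N * Q j) * Q k) + a i * ((Q k + N * Q k) * Q j)) =
      (a i * (Q j * Q k + Q k * Q j) + a i * (Q j * Q k + Q k * Q j)) +
      (a i * (N * (Q j * Q k + Q k * Q j)) + a i * (N * (Q j * Q k + Q k * Q j))) := by noncomm_ring
  rw [e14, EE_two, EE_two, add_zero]

end E4.M
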