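import Pool.Agent.Lib.MP_8a95e3_al.M16

/-!
# M17 : the cubic law
-/

namespace E4.M

/-- PROOF: induction on `l` (`List.nodup_cons`, `List.append_of_mem`). -/
theorem exists_rep {α : Type*} {l : List α} (h : ¬ l.Nodup) : ∃ u v w x, l = u ++ x :: v ++ x :: w := by
  induction l with
  | nil => exact absurd List.nodup_nil h
  | cons a l ih =>
    by_cases ha : a ∈ l
    · obtain ⟨s, t, e⟩ := List.append_of_mem ha
      exact ⟨[], s, t, a, by rw [e]; rfl⟩
    · have h1 : ¬ l.Nodup := fun h2 => h (List.nodup_cons.2 ⟨ha, h2⟩)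
      obtain ⟨u, v, w, x, e⟩ := ih h1
      exact ⟨a :: u, v, w, x, by rw [e]; rfl⟩

/-- PROOF: the elements of the filtered list are different and of the form `inl j`. -/
theorem exists_three {l : List Lt} (hn : l.Nodup) (h : ¬ (l.filter fun x => !x.isRight).length ≤ 2) :
    ∃ j1 j2 j3, j1 ≠ j2 ∧ j1 ≠ j3 ∧ j2 ≠ j3 ∧ Sum.inl j1 ∈ l ∧ Sum.inl j2 ∈ l ∧ Sum.inl j3 ∈ l := by
  obtain ⟨f, hf⟩ : ∃ f, f = l.filter fun x => !x.isRight := ⟨_, rfl⟩
  rw [← hf] at h
  have hnf : f.Nodup := by rw [hf]; exact hn.filter _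
  have hmem : ∀ x ∈ f, x ∈ l ∧ ∃ j, x = Sum.inl j := by
    intro x hx
    rw [hf, List.mem_filter] at hx
    refine ⟨hx.1, ?_⟩
    rcases x with j | i
    · exact ⟨j, rfl⟩
    · exact absurd hx.2 (by simp)
  match f, h, hnf, hmem with
  | [], h, _, _ => exact absurd (by simp) h
  | [a], h, _, _ => exact absurd (by simp) h
  | [a, b'], h, _, _ => exact absurd (by simp) h
  | a :: b' :: c :: t, h, hnf, hmem =>
    obtain ⟨m1, j1, rfl⟩ := hmem a (by simp)
    obtain ⟨m2, j2, rfl⟩ := hmem b' (by simp)
    obtain ⟨m3, j3, rfl⟩ := hmem c (by simp)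
    simp only [List.nodup_cons, List.mem_cons, not_or] at hnf
    refine ⟨j1, j2, j3, ?_, ?_, ?_, m1, m2, m3⟩
    · exact fun e => hnf.1.1 (by rw [e])
    · exact fun e => hnf.1.2.1 (by rw [e])
    · exact fun e => hnf.2.1.1 (by rw [e])

/-- **The cubic law.**

PROOF. Strong induction on the length. Repetition: `exists_rep`, `C_rep` (the three lists are shorter). Otherwise `C_three` (`exists_three`) or `C_few`. -/
theorem thmC (l : List Lt) : Phi l = 0 := by
  induction hlen : l.length using Nat.strong_induction_on generalizing l with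
  | _ n ih =>
    have IH : ∀ w : List Lt, w.length < l.length → Phi w = 0 := fun w hw => ih w.length (hlen ▸ hw) w rfl
    by_cases hn : l.Nodup
    · by_cases h2 : (l.filter fun x => !x.isRight).length ≤ 2
      · exact C_few hn IH h2
      · obtain ⟨j1, j2, j3, h12, h13, h23, m1, m2, m3⟩ := exists_three hn h2
        exact C_three hn IH h12 h13 h23 m1 m2 m3
    · obtain ⟨u, v, w, x, e⟩ := exists_rep hn
      rw [e] at IH ⊢
      refine C_rep u v w x (IH _ ?_) (IH _ ?_) (IH _ ?_)
      · simp only [List.length_append, List.length_cons]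
        omega
      · simp only [List.length_append, List.length_cons]
        omega
      · simp only [List.length_append, List.length_cons]
        omega

end E4.M
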