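import Pool.Agent.Lib.MP_8a95e3_al.M17

/-!
# M18 : the group
-/

namespace E4.M

theorem one_add_Q_sq (j : ℕ) : (1 + Q j) * (1 + Q j) = 1 := by
  rw [mul_add, add_mul, mul_one, add_mul, one_mul, Q_sq, add_zero, mul_one, add_assoc, EE_two, add_zero]

/-- The generators. -/
noncomputable def gU (j : ℕ) : EEˣ := ⟨1 + Q j, 1 + Q j, one_add_Q_sq j, one_add_Q_sq j⟩

theorem gU_val (j : ℕ) : ((gU j : EEˣ) : EE) = 1 + Q j := rfl

/-- The group. -/
noncomputable def GS : Subgroup EEˣ := Subgroup.closure (Set.range gU)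

theorem gU_mem (j : ℕ) : gU j ∈ GS := Subgroup.subset_closure ⟨j, rfl⟩

/-- PROOF: induction, `one_add_Q_sq`. -/
theorem hh_inv (l : List ℕ) : hh (l.map Sum.inl) * hh (l.reverse.map Sum.inl) = 1 := by
  induction l with
  | nil =>
    rw [List.reverse_nil, List.map_nil, hh_nil, mul_one]
  | cons x l ih =>
    have h1 : hh [Sum.inl x] = 1 + Q x := by
      rw [hh_cons, hh_nil, mul_one]
      rfl
    rw [List.reverse_cons, List.map_append, List.map_cons, List.map_cons, List.map_nil, hh_cons, hh_append, h1]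
    calc (1 + op (Sum.inl x)) * hh (l.map Sum.inl) * (hh (l.reverse.map Sum.inl) * (1 + Q x))
        = (1 + Q x) * (hh (l.map Sum.inl) * hh (l.reverse.map Sum.inl)) * (1 + Q x) := by
          simp only [mul_assoc]
          rfl
      _ = 1 := by rw [ih, mul_one, one_add_Q_sq]

/-- PROOF: `Subgroup.closure_induction`; inverse: `hh_inv` for `l` (the inverse of a unit is unique). -/
theorem GS_hh {x : EEˣ} (h : x ∈ GS) : ∃ l : List ℕ, (x : EE) = hh (l.map Sum.inl) := by
  unfold GS at h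
  induction h using Subgroup.closure_induction with
  | mem y hy =>
    obtain ⟨j, rfl⟩ := hy
    refine ⟨[j], ?_⟩
    rw [gU_val, List.map_cons, List.map_nil, hh_cons, hh_nil, mul_one]
    rfl
  | one =>
    refine ⟨[], ?_⟩
    rw [List.map_nil, hh_nil, Units.val_one]
  | mul y z _ _ hy hz =>
    obtain ⟨l, hl⟩ := hy
    obtain ⟨l', hl'⟩ := hz
    refine ⟨l ++ l', ?_⟩
    rw [List.map_append, hh_append, Units.val_mul, hl, hl']
  | inv y _ hy =>
    obtain ⟨l, hl⟩ := hy
    refine ⟨l.reverse, ?_⟩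
    have h1 := hh_inv l
    rw [← hl] at h1
    calc ((y⁻¹ : EEˣ) : EE) = ((y⁻¹ : EEˣ) : EE) * ((y : EE) * hh (l.reverse.map Sum.inl)) := by rw [h1, mul_one]
      _ = hh (l.reverse.map Sum.inl) := by rw [← mul_assoc, Units.inv_mul, one_mul]

private theorem M18_sq (x : EE) : (x + 1) * (x + 1) = x * x + 1 := by
  rw [mul_add, add_mul, mul_one, one_mul, ← add_assoc, add_assoc (x * x) x x, EE_two, add_zero]

/-- PROOF: `Units.ext`, `(h + 1)^4 = 0` by `thmC`, and `(h + 1)^4 = h^4 + 1` in characteristic two (`EE_two`). -/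
theorem GS_exp {x : EEˣ} (h : x ∈ GS) : x ^ 4 = 1 := by
  obtain ⟨l, hl⟩ := GS_hh h
  have h1 : ((x : EE) + 1) ^ 3 = 0 := by
    rw [hl]
    exact thmC (l.map Sum.inl)
  have h2 : ((x : EE) + 1) ^ 4 = 0 := by
    rw [pow_succ, h1, zero_mul]
  have h3 : ((x : EE) + 1) ^ 4 = (x : EE) ^ 4 + 1 := by
    have e : ∀ y : EE, y ^ 4 = (y * y) * (y * y) := by
      intro y
      rw [show (4 : ℕ) = 2 + 2 from rfl, pow_add, pow_two]
    rw [e, e, M18_sq, M18_sq]
  apply Units.ext
  rw [Units.val_pow_eq_pow_val, Units.val_one]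
  calc (x : EE) ^ 4 = (x : EE) ^ 4 + (1 + 1) := by rw [EE_two, add_zero]
    _ = ((x : EE) + 1) ^ 4 + 1 := by rw [h3, add_assoc]
    _ = 1 := by rw [h2, zero_add]

end E4.M
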