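import Pool.Agent.Lib.MP_8a95e3_al.M19b

/-!
# M19 : the two commutators
-/

open scoped commutatorElement

namespace E4.M

private theorem M19_gen {R : Type*} [Ring R] (h2 : ∀ r : R, r + r = 0) {x y : Rˣ} {A B q r : R}
    (hx : (x : R) = 1 + A * q) (hy : (y : R) = 1 + B * r) (Aq : A * q = q * A) (Ar : A * r = r * A)
    (Bq : B * q = q * B) (Br : B * r = r * B) (AB : A * B = B * A) (h11 : A * A * (q * q) = 0)
    (h22 : B * B * (r * r) = 0) (h121 : A * A * B * (q * r * q) = 0) (h212 : A * B * B * (r * q * r) = 0) :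
    ((⁅x, y⁆ : Rˣ) : R) = 1 + A * B * (q * r + r * q) := by
  have e1 : A * q * (A * q) = 0 := by
    rw [← h11]
    calc A * q * (A * q) = A * (q * A) * q := by noncomm_ring
      _ = A * (A * q) * q := by rw [Aq]
      _ = A * A * (q * q) := by noncomm_ring
  have e2 : B * r * (B * r) = 0 := by
    rw [← h22]
    calc B * r * (B * r) = B * (r * B) * r := by noncomm_ring
      _ = B * (B * r) * r := by rw [Br]
      _ = B * B * (r * r) := by noncomm_ring
  have e3 : A * q * (B * r) = A * B * (q * r) := by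
    calc A * q * (B * r) = A * (q * B) * r := by noncomm_ring
      _ = A * (B * q) * r := by rw [Bq]
      _ = A * B * (q * r) := by noncomm_ring
  have e4 : B * r * (A * q) = A * B * (r * q) := by
    calc B * r * (A * q) = B * (r * A) * q := by noncomm_ring
      _ = B * (A * r) * q := by rw [Ar]
      _ = (B * A) * (r * q) := by noncomm_ring
      _ = A * B * (r * q) := by rw [AB]
  have e5 : A * q * (B * r) * (A * q) = 0 := by
    rw [← h121, e3]
    calc A * B * (q * r) * (A * q) = A * B * (q * (r * A)) * q := by noncomm_ring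
      _ = A * B * (q * (A * r)) * q := by rw [Ar]
      _ = A * B * (q * A) * (r * q) := by noncomm_ring
      _ = A * B * (A * q) * (r * q) := by rw [Aq]
      _ = A * (B * A) * (q * (r * q)) := by noncomm_ring
      _ = A * (A * B) * (q * (r * q)) := by rw [AB]
      _ = A * A * B * (q * r * q) := by noncomm_ring
  have e6 : B * r * (A * q) * (B * r) = 0 := by
    rw [← h212, e4]
    calc A * B * (r * q) * (B * r) = A * B * (r * (q * B)) * r := by noncomm_ring
      _ = A * B * (r * (B * q)) * r := by rw [Bq]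
      _ = A * B * (r * B) * (q * r) := by noncomm_ring
      _ = A * B * (B * r) * (q * r) := by rw [Br]
      _ = A * B * B * (r * q * r) := by noncomm_ring
  rw [comm_val h2 hx hy e1 e2 e5 e6, e3, e4, mul_add]

/-- **The first commutator.** PROOF: `comm_val` with `X = bM M0 * Q d0`, `Y = bM M1 * Q d1`: all factors `bM` commute with all others (`bM_Q`, `bM_bM`), `Q_sq`, `Q_W_Q`; `X Y + Y X = bM M0 * bM M1 * (Q d0 * Q d1 + Q d1 * Q d0)`, `Q_Q`. -/
theorem step_one {x0 x1 : EEˣ} {M0 M1 : List (ℕ × ℕ)} {d0 d1 : ℕ} (hn : (d0 :: d1 :: (lets M0 ++ lets M1)).Nodup)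
    (h0 : (x0 : EE) = 1 + bM M0 * Q d0) (h1 : (x1 : EE) = 1 + bM M1 * Q d1) :
    ((⁅x0, x1⁆ : EEˣ) : EE) = 1 + bM (M0 ++ M1 ++ [(d0, d1)]) * N := by
  rw [List.nodup_cons, List.nodup_cons] at hn
  obtain ⟨k0, k1, k2⟩ := hn
  have n0 : d0 ∉ lets M0 := fun h => k0 (List.mem_cons_of_mem _ (List.mem_append_left _ h))
  have n0' : d0 ∉ lets M1 := fun h => k0 (List.mem_cons_of_mem _ (List.mem_append_right _ h))
  have n1 : d1 ∉ lets M0 := fun h => k1 (List.mem_append_left _ h)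
  have n1' : d1 ∉ lets M1 := fun h => k1 (List.mem_append_right _ h)
  have nd : d0 ≠ d1 := fun h => k0 (h ▸ List.mem_cons_self)
  have ndis : ∀ x ∈ lets M0, x ∉ lets M1 := fun x hx hx' => (List.nodup_append.1 k2).2.2 x hx x hx' rfl
  rw [M19_gen EE_two h0 h1 (bM_Q n0) (bM_Q n1) (bM_Q n0') (bM_Q n1') (bM_bM ndis)
    (by rw [Q_sq, mul_zero]) (by rw [Q_sq, mul_zero]) (by rw [Q_W_Q d0 (Q_GR d1), mul_zero])
    (by rw [Q_W_Q d1 (Q_GR d0), mul_zero]), Q_Q nd, bM_append, bM_append, bM_cons, bM_nil, mul_one, mul_assoc, mul_assoc,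
    mul_assoc]

/-- **The second commutator.** PROOF: `comm_val` with `X = bM E * N`, `Y = bM M2 * Q d2`: `bM E` commutes with `N`, `bM M2`, `Q d2`, and `bM E * bM E = 0` by hypothesis; `Q_sq`, `Q_W_Q` with `W = N`; `X Y + Y X = bM E * bM M2 * (N * Q d2 + Q d2 * N)`, `N_Q`. -/
theorem step_two {x2 y : EEˣ} {E M2 : List (ℕ × ℕ)} {d2 : ℕ} (hn : (d2 :: (lets E ++ lets M2)).Nodup)
    (hE : bM E * bM E = 0) (hy : (y : EE) = 1 + bM E * N) (h2 : (x2 : EE) = 1 + bM M2 * Q d2) :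
    ((⁅y, x2⁆ : EEˣ) : EE) = 1 + bM (E ++ M2) * Q d2 := by
  rw [List.nodup_cons] at hn
  obtain ⟨k0, k2⟩ := hn
  have n0 : d2 ∉ lets E := fun h => k0 (List.mem_append_left _ h)
  have n0' : d2 ∉ lets M2 := fun h => k0 (List.mem_append_right _ h)
  have ndis : ∀ x ∈ lets E, x ∉ lets M2 := fun x hx hx' => (List.nodup_append.1 k2).2.2 x hx x hx' rfl
  rw [M19_gen EE_two hy h2 (bM_N E) (bM_Q n0) (bM_N M2) (bM_Q n0') (bM_bM ndis)
    (by rw [hE, zero_mul]) (by rw [Q_sq, mul_zero]) (by rw [hE, zero_mul, zero_mul])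
    (by rw [Q_W_Q d2 N_GR, mul_zero]), N_Q, bM_append]

/-- PROOF: the factor `b d0 d1` commutes with `bM (M0 ++ M1)`, `b_sq`. -/
theorem bM_sq {M : List (ℕ × ℕ)} {d0 d1 : ℕ} (hn : (d0 :: d1 :: lets M).Nodup) :
    bM (M ++ [(d0, d1)]) * bM (M ++ [(d0, d1)]) = 0 := by
  rw [List.nodup_cons, List.nodup_cons] at hn
  obtain ⟨k0, k1, k2⟩ := hn
  have n0 : d0 ∉ lets M := fun h => k0 (List.mem_cons_of_mem _ h)
  rw [bM_append, bM_cons, bM_nil, mul_one]
  calc bM M * b d0 d1 * (bM M * b d0 d1) = bM M * (b d0 d1 * bM M) * b d0 d1 := by noncomm_ring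
    _ = bM M * (bM M * b d0 d1) * b d0 d1 := by rw [bM_b n0 k1]
    _ = bM M * bM M * (b d0 d1 * b d0 d1) := by noncomm_ring
    _ = 0 := by rw [b_sq, mul_zero]

end E4.M
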