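import Pool.Agent.Lib.MP_8a95e3_al.M18

/-!
# M19a : commutators
-/

open scoped commutatorElement

namespace E4.M

/-- PROOF. `x⁻¹ = x`, `y⁻¹ = y` (squares are `1`), `⁅x, y⁆ = (x y)^2` and `x y = 1 + (X + Y + X Y)`, whose square is `1 + (X + Y + X Y)^2 = 1 + X Y + Y X`. -/
theorem comm_val {R : Type*} [Ring R] (h2 : ∀ r : R, r + r = 0) {x y : Rˣ} {X Y : R} (hx : (x : R) = 1 + X)
    (hy : (y : R) = 1 + Y) (XX : X * X = 0) (YY : Y * Y = 0) (XYX : X * Y * X = 0) (YXY : Y * X * Y = 0) :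
    ((⁅x, y⁆ : Rˣ) : R) = 1 + (X * Y + Y * X) := by
  have inv1 : ∀ (u : Rˣ) (U : R), (u : R) = 1 + U → U * U = 0 → u⁻¹ = u := by
    intro u U hu UU
    have h1 : u * u = 1 := by
      apply Units.ext
      rw [Units.val_mul, Units.val_one, hu]
      have h3 : (1 + U) * (1 + U) = 1 + (U + U) + U * U := by noncomm_ring
      rw [h3, h2, UU, add_zero, add_zero]
    exact inv_eq_of_mul_eq_one_left h1
  have e1 : ((⁅x, y⁆ : Rˣ) : R) = (1 + X) * (1 + Y) * ((1 + X) * (1 + Y)) := by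
    rw [commutatorElement_def, inv1 x X hx XX, inv1 y Y hy YY, Units.val_mul, Units.val_mul, Units.val_mul, hx, hy,
      mul_assoc ((1 + X) * (1 + Y))]
  have e2 : (1 + X) * (1 + Y) * ((1 + X) * (1 + Y)) = 1 + (X * Y + Y * X) + ((X + Y + X * Y) + (X + Y + X * Y)) +
      (X * X + X * X * Y + Y * Y + Y * X * Y + X * Y * X + X * (Y * Y) + X * Y * X * Y) := by noncomm_ring
  rw [e1, e2, h2, XX, YY, XYX, YXY]
  simp only [zero_mul, mul_zero, add_zero]

end E4.M
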