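import Pool.Agent.Lib.MP_8a95e3_al.M19a

/-!
# M19b : products of contractions
-/

open scoped commutatorElement

namespace E4.M

theorem bM_nil : bM [] = 1 := rfl

theorem bM_cons (p : ℕ × ℕ) (M : List (ℕ × ℕ)) : bM (p :: M) = b p.1 p.2 * bM M := by
  simp only [bM, List.map_cons, List.prod_cons]

theorem bM_append (M M' : List (ℕ × ℕ)) : bM (M ++ M') = bM M * bM M' := by
  simp only [bM, List.map_append, List.prod_append]

theorem lets_cons (p : ℕ × ℕ) (M : List (ℕ × ℕ)) : lets (p :: M) = p.1 :: p.2 :: lets M := by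
  rfl

theorem lets_append (M M' : List (ℕ × ℕ)) : lets (M ++ M') = lets M ++ lets M' := by
  simp only [lets, List.flatMap_append]

theorem lets_mapM (φ : ℕ → ℕ) (M : List (ℕ × ℕ)) : lets (mapM φ M) = (lets M).map φ := by
  induction M with
  | nil => rfl
  | cons p M ih =>
    have h1 : mapM φ (p :: M) = (φ p.1, φ p.2) :: mapM φ M := rfl
    rw [h1, lets_cons, lets_cons, ih, List.map_cons, List.map_cons]

theorem mapM_append (φ : ℕ → ℕ) (M M' : List (ℕ × ℕ)) : mapM φ (M ++ M') = mapM φ M ++ mapM φ M' := by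
  simp only [mapM, List.map_append]

theorem mapM_mapM (φ ψ : ℕ → ℕ) (M : List (ℕ × ℕ)) : mapM φ (mapM ψ M) = mapM (fun x => φ (ψ x)) M := by
  simp only [mapM, List.map_map]
  rfl

theorem mapM_id (M : List (ℕ × ℕ)) : mapM (fun x => x) M = M := by
  simp only [mapM]
  exact List.map_id M

/-- PROOF: induction, `b_Q`. -/
theorem bM_Q {M : List (ℕ × ℕ)} {l : ℕ} (h : l ∉ lets M) : bM M * Q l = Q l * bM M := by
  induction M with
  | nil => rw [bM_nil, one_mul, mul_one]
  | cons p M ih =>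
    rw [lets_cons, List.mem_cons, List.mem_cons, not_or, not_or] at h
    obtain ⟨h1, h2, h3⟩ := h
    rw [bM_cons, mul_assoc, ih h3, ← mul_assoc, b_Q (Ne.symm h1) (Ne.symm h2), mul_assoc]

theorem bM_N (M : List (ℕ × ℕ)) : bM M * N = N * bM M := by
  induction M with
  | nil => rw [bM_nil, one_mul, mul_one]
  | cons p M ih => rw [bM_cons, mul_assoc, ih, ← mul_assoc, b_N, mul_assoc]

/-- PROOF: induction, `b_b`. -/
theorem bM_b {M : List (ℕ × ℕ)} {j k : ℕ} (hj : j ∉ lets M) (hk : k ∉ lets M) : bM M * b j k = b j k * bM M := by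
  induction M with
  | nil => rw [bM_nil, one_mul, mul_one]
  | cons p M ih =>
    rw [lets_cons, List.mem_cons, List.mem_cons, not_or, not_or] at hj hk
    obtain ⟨h1, h2, h3⟩ := hj
    obtain ⟨k1, k2, k3⟩ := hk
    rw [bM_cons, mul_assoc, ih h3 k3, ← mul_assoc,
      b_b (Ne.symm h1) (Ne.symm k1) (Ne.symm h2) (Ne.symm k2), mul_assoc]

/-- PROOF: induction, `bM_b`. -/
theorem bM_bM {M M' : List (ℕ × ℕ)} (h : ∀ x ∈ lets M, x ∉ lets M') : bM M * bM M' = bM M' * bM M := by
  induction M with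
  | nil => rw [bM_nil, one_mul, mul_one]
  | cons p M ih =>
    have h1 : p.1 ∉ lets M' := h _ (by rw [lets_cons]; exact List.mem_cons_self)
    have h2 : p.2 ∉ lets M' := h _ (by rw [lets_cons]; exact List.mem_cons_of_mem _ List.mem_cons_self)
    have h3 : ∀ x ∈ lets M, x ∉ lets M' := fun x hx =>
      h x (by rw [lets_cons]; exact List.mem_cons_of_mem _ (List.mem_cons_of_mem _ hx))
    rw [bM_cons, mul_assoc, ih h3, ← mul_assoc, ← bM_b h1 h2, mul_assoc]

end E4.M
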