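import Pool.Agent.Lib.MP_8a95e3_al.M19

/-!
# M20 : elements of the derived series
-/

open scoped commutatorElement

namespace E4.M

/-- The letters of the new list. -/
theorem nodup_step {M : List (ℕ × ℕ)} {d : ℕ} (hn : (d :: lets M).Nodup) :
    ((3 * d + 2) :: lets (mapM (fun x => 3 * x) M ++ mapM (fun x => 3 * x + 1) M ++ [(3 * d, 3 * d + 1)] ++
      mapM (fun x => 3 * x + 2) M)).Nodup := by
  rw [List.nodup_cons] at hn
  obtain ⟨hd, hL⟩ := hn
  rw [lets_append, lets_append, lets_append, lets_mapM, lets_mapM, lets_mapM, lets_cons]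
  have e : lets [] = [] := rfl
  rw [e, List.nodup_cons]
  have i0 : ((lets M).map fun x => 3 * x).Nodup := hL.map fun x y h => by
    have h' : 3 * x = 3 * y := h
    omega
  have i1 : ((lets M).map fun x => 3 * x + 1).Nodup := hL.map fun x y h => by
    have h' : 3 * x + 1 = 3 * y + 1 := h
    omega
  have i2 : ((lets M).map fun x => 3 * x + 2).Nodup := hL.map fun x y h => by
    have h' : 3 * x + 2 = 3 * y + 2 := h
    omega
  have i3 : [3 * d, 3 * d + 1].Nodup := by
    simp
  refine ⟨?_, ?_⟩
  · intro h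
    simp only [List.mem_append, List.mem_map, List.mem_cons, List.not_mem_nil, or_false] at h
    rcases h with ((⟨x, -, hx⟩ | ⟨x, -, hx⟩) | (hx | hx)) | ⟨x, hx', hx⟩
    · omega
    · omega
    · omega
    · omega
    · have : x = d := by omega
      exact hd (this ▸ hx')
  · refine (List.Nodup.append (List.Nodup.append i0 i1 ?_) i3 ?_).append i2 ?_
    · intro y h1 h2
      simp only [List.mem_map] at h1 h2
      obtain ⟨x, -, hx⟩ := h1
      obtain ⟨x', -, hx'⟩ := h2
      omega
    · intro y h1 h2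
      simp only [List.mem_append, List.mem_map, List.mem_cons, List.not_mem_nil, or_false] at h1 h2
      rcases h1 with ⟨x, hxL, hx⟩ | ⟨x, hxL, hx⟩
      · rcases h2 with h2 | h2
        · have : x = d := by omega
          exact hd (this ▸ hxL)
        · omega
      · rcases h2 with h2 | h2
        · omega
        · have : x = d := by omega
          exact hd (this ▸ hxL)
    · intro y h1 h2
      simp only [List.mem_append, List.mem_map, List.mem_cons, List.not_mem_nil, or_false] at h1 h2
      obtain ⟨x', -, hx'⟩ := h2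
      rcases h1 with (⟨x, -, hx⟩ | ⟨x, -, hx⟩) | (hx | hx) <;> omega

/-- **Elements of the derived series.**

PROOF. Induction on `m`. `m = 0`: `M = []`, `d = 0`, `u = gU (φ 0)`. Step: `M' = mapM (3 x) M ++ mapM (3 x + 1) M ++ [(3 d, 3 d + 1)] ++ mapM (3 x + 2) M`, `d' = 3 d + 2` (`nodup_step`). Given `φ`, the induction hypothesis for `φ_i = φ (3 x + i)`, `i = 0, 1, 2`, gives `u_i ∈ derivedSeries GS m`; `w = ⁅u_0, u_1⁆ ∈ derivedSeries GS (m + 1)`
(`derivedSeries_succ`, `Subgroup.commutator_mem_commutator`) and `⁅w, u_2⁆ ∈ derivedSeries GS (m + 1)` because the subgroup is normal. The value: `step_one`, `bM_sq`, `step_two` (all letters are different: `φ` is injective; `lets_mapM`, `lets_append`; `mapM_mapM`). -/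
theorem der_claim (m : ℕ) : ∃ (M : List (ℕ × ℕ)) (d : ℕ), (d :: lets M).Nodup ∧
    ∀ φ : ℕ → ℕ, Function.Injective φ → ∃ u ∈ derivedSeries GS m,
      (((u : GS) : EEˣ) : EE) = 1 + bM (mapM φ M) * Q (φ d) := by
  induction m with
  | zero =>
    refine ⟨[], 0, ?_, fun φ _ => ⟨⟨gU (φ 0), gU_mem _⟩, ?_, ?_⟩⟩
    · have e : lets [] = [] := rfl
      rw [e]
      simp
    · rw [derivedSeries_zero]
      exact Subgroup.mem_top _
    · have e : mapM φ [] = [] := rfl
      rw [e, bM_nil, one_mul]
      exact gU_val _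
  | succ m ih =>
    obtain ⟨M, d, hn, h⟩ := ih
    refine ⟨mapM (fun x => 3 * x) M ++ mapM (fun x => 3 * x + 1) M ++ [(3 * d, 3 * d + 1)] ++
      mapM (fun x => 3 * x + 2) M, 3 * d + 2, nodup_step hn, fun φ hφ => ?_⟩
    obtain ⟨u0, hu0, v0⟩ := h (fun x => φ (3 * x)) fun x y hxy => by
      have := hφ hxy
      omega
    obtain ⟨u1, hu1, v1⟩ := h (fun x => φ (3 * x + 1)) fun x y hxy => by
      have := hφ hxy
      omega
    obtain ⟨u2, hu2, v2⟩ := h (fun x => φ (3 * x + 2)) fun x y hxy => by
      have := hφ hxy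
      omega
    have eM : mapM φ (mapM (fun x => 3 * x) M ++ mapM (fun x => 3 * x + 1) M ++ [(3 * d, 3 * d + 1)] ++
        mapM (fun x => 3 * x + 2) M) = mapM (fun x => φ (3 * x)) M ++ mapM (fun x => φ (3 * x + 1)) M ++
        [(φ (3 * d), φ (3 * d + 1))] ++ mapM (fun x => φ (3 * x + 2)) M := by
      rw [mapM_append, mapM_append, mapM_append, mapM_mapM, mapM_mapM, mapM_mapM]
      rfl
    have hN := (nodup_step hn).map hφ
    rw [List.map_cons, ← lets_mapM, eM, lets_append] at hN
    have hN1 : (φ (3 * d) :: φ (3 * d + 1) ::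
        (lets (mapM (fun x => φ (3 * x)) M) ++ lets (mapM (fun x => φ (3 * x + 1)) M))).Nodup := by
      have h1 := (List.nodup_cons.1 hN).2.of_append_left
      rw [lets_append, lets_append, lets_cons] at h1
      have h2 := (List.perm_append_comm.nodup_iff).1 h1
      exact h2
    have s1 := step_one hN1 v0 v1
    have hE : bM (mapM (fun x => φ (3 * x)) M ++ mapM (fun x => φ (3 * x + 1)) M ++ [(φ (3 * d), φ (3 * d + 1))]) *
        bM (mapM (fun x => φ (3 * x)) M ++ mapM (fun x => φ (3 * x + 1)) M ++ [(φ (3 * d), φ (3 * d + 1))]) = 0 := by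
      refine bM_sq ?_
      rw [lets_append]
      exact hN1
    have s2 := step_two hN hE s1 v2
    have hw : ⁅u0, u1⁆ ∈ derivedSeries GS (m + 1) := by
      rw [derivedSeries_succ]
      exact Subgroup.commutator_mem_commutator hu0 hu1
    refine ⟨⁅⁅u0, u1⁆, u2⁆, ?_, ?_⟩
    · rw [derivedSeries_succ]
      exact Subgroup.commutator_mem_commutator (derivedSeries_antitone GS (Nat.le_succ m) hw) hu2
    · rw [eM]
      exact s2

end E4.M
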