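import Pool.Agent.Lib.MP_8a95e3_al.M21b

/-!
# M21 : the operators `bM M * Q d` are not zero
-/

namespace E4.M

private theorem M21_aux (M : List (ℕ × ℕ)) (d : ℕ) (hn : (d :: lets M).Nodup) :
    ∃ τ : ℕ → ℕ, Inv τ ∧ τ 0 ≠ 0 ∧ (∀ l, l ∉ d :: lets M → τ (l + 3) = l + 3) ∧
      ((bM M * Q d) ⟨f0, InG_f0⟩).1 τ ∅ ≠ 0 := by
  induction M with
  | nil =>
    obtain ⟨τ, h1, h2, h3, h4⟩ := Q_f0 d
    refine ⟨τ, h1, h2, fun l hl => h3 l fun e => hl (by rw [e]; exact List.mem_cons_self), ?_⟩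
    rw [bM_nil, one_mul]
    exact h4
  | cons p M ih =>
    rw [lets_cons] at hn ⊢
    rw [List.nodup_cons, List.nodup_cons, List.nodup_cons] at hn
    obtain ⟨n1, n2, n3, n4⟩ := hn
    simp only [List.mem_cons, not_or] at n1 n2
    have hn' : (d :: lets M).Nodup := List.nodup_cons.2 ⟨n1.2.2, n4⟩
    have hj : p.1 ∉ d :: lets M := by
      rw [List.mem_cons, not_or]
      exact ⟨fun e => n1.1 e.symm, n2.2⟩
    have hk : p.2 ∉ d :: lets M := by
      rw [List.mem_cons, not_or]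
      exact ⟨fun e => n1.2.1 e.symm, n3⟩
    obtain ⟨τ, h1, h2, h3, h4⟩ := b_step n2.1 hj hk (ih hn')
    refine ⟨τ, h1, h2, fun l hl => h3 l ?_, ?_⟩
    · simp only [List.mem_cons, not_or] at hl ⊢
      exact ⟨hl.2.1, hl.2.2.1, hl.1, hl.2.2.2⟩
    · rw [bM_cons, mul_assoc, EE_mul]
      exact h4

/-- PROOF: induction on `M`: `(bM M * Q d) f0` has a nonzero value at a closing as in `b_step` with `s = d :: lets M` (order of the letters irrelevant). -/
theorem bM_Q_ne {M : List (ℕ × ℕ)} {d : ℕ} (hn : (d :: lets M).Nodup) : bM M * Q d ≠ 0 := by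
  obtain ⟨τ, _, _, _, h4⟩ := M21_aux M d hn
  intro h
  rw [h, EE_zero] at h4
  exact h4 rfl

end E4.M
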