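import Pool.Agent.Lib.MP_8a95e3_al.M19

/-!
# M21a : a function in `GG`
-/

namespace E4.M

open scoped Classical in
/-- The function with the value `1` at the closing `1 - 2` and the empty set of markers. -/
noncomputable def f0 : VV := fun τ A => if τ = ed 1 2 (fun x => x) ∧ A = ∅ then 1 else 0

private theorem M21a_ne {τ : ℕ → ℕ} {a b c : ℕ} (A : Finset ℕ) (ha : τ a ≠ a) (hb : τ b ≠ b) (hc : τ c ≠ c)
    (hab : a ≠ b) (hac : a ≠ c) (hbc : b ≠ c) : f0 τ A = 0 := by
  unfold f0
  refine if_neg ?_
  rintro ⟨rfl, -⟩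
  simp only [ed] at ha hb hc
  grind

/-- PROOF: the closings in the relations move at least four points, `ed 1 2 id` moves only `1` and `2`. -/
theorem InG_f0 : InG f0 := by
  refine ⟨fun τ A h => ?_, fun β A a b c d h1 h2 h3 => ?_, fun β A x0 x1 x2 y0 y1 y2 h1 h2 h3 => ?_⟩
  · unfold f0
    refine if_neg ?_
    rintro ⟨rfl, -⟩
    refine h fun x => ?_
    simp only [ed]
    grind
  · simp at h3
    rw [M21a_ne (a := a) (b := b) (c := c) A, M21a_ne (a := a) (b := b) (c := c) A,
      M21a_ne (a := a) (b := b) (c := c) A, add_zero, add_zero] <;>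
    grind [ed]
  · simp at h3
    rw [M21a_ne (a := x0) (b := x1) (c := x2) A, M21a_ne (a := x0) (b := x1) (c := x2) A,
      M21a_ne (a := x0) (b := x1) (c := x2) A, add_zero, add_zero] <;>
    grind [ed]

end E4.M
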