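import Pool.Agent.Lib.MP_8a95e3_al.M21a

/-!
# M21b : the operators `bM M * Q d` are not zero: steps
-/

namespace E4.M

/-- PROOF: `τ = ed 0 1 (ed (d + 3) 2 id)`, `cc_ed_ed`. -/
theorem Q_f0 (d : ℕ) : ∃ τ : ℕ → ℕ, Inv τ ∧ τ 0 ≠ 0 ∧ (∀ l, l ≠ d → τ (l + 3) = l + 3) ∧ (Q d ⟨f0, InG_f0⟩).1 τ ∅ ≠ 0 := by
  have hid : Inv (fun x : ℕ => x) := fun _ => rfl
  have e1 : ed 0 1 (ed (d + 3) 2 fun x => x) 0 = 1 := ed_left _ _ _
  have e2 : ed 0 1 (ed (d + 3) 2 fun x => x) (d + 3) = 2 := by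
    rw [ed_ne _ (by omega) (by omega), ed_left]
  have hI : Inv (ed 0 1 (ed (d + 3) 2 fun x => x)) := by
    refine ed_Inv (ed_Inv hid rfl rfl) ?_ ?_
    · rw [ed_ne _ (by omega) (by omega)]
    · rw [ed_ne _ (by omega) (by omega)]
  refine ⟨ed 0 1 (ed (d + 3) 2 fun x => x), hI, ?_, fun l hl => ?_, ?_⟩
  · rw [e1]
    omega
  · rw [ed_ne _ (by omega) (by omega), ed_ne _ (by omega) (by omega)]
  · rw [Q_val]
    have h1 : qO d f0 (ed 0 1 (ed (d + 3) 2 fun x => x)) ∅ =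
        f0 (cc 0 (d + 3) (ed 0 1 (ed (d + 3) 2 fun x => x))) ∅ := by
      unfold qO
      rw [if_pos]
      refine ⟨hI, ?_, ?_⟩
      · rw [e2]
        omega
      · rw [e1]
        omega
    have h2 : cc 0 (d + 3) (ed 0 1 (ed (d + 3) 2 fun x => x)) = ed 1 2 fun x => x :=
      cc_ed_ed (fun _ _ => rfl) (by
        simp only [List.nodup_cons, List.mem_cons, List.not_mem_nil, not_or]
        refine ⟨⟨by omega, by omega, by omega, not_false⟩, ⟨by omega, by omega, not_false⟩,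
          ⟨by omega, not_false⟩, not_false, List.nodup_nil⟩)
    show qO d f0 (ed 0 1 (ed (d + 3) 2 fun x => x)) ∅ ≠ 0
    rw [h1, h2]
    unfold f0
    rw [if_pos ⟨rfl, rfl⟩]
    exact one_ne_zero

/-- PROOF: `r = τ 0`, `β = ed 0 0 (ed r r τ)`, `τ' = ed 0 (j + 3) (ed (k + 3) r β)`, `cc (j + 3) (k + 3) τ' = τ` (`cc_ed_ed`, after `ed_comm`). -/
theorem b_step {g : GG} {s : List ℕ} {j k : ℕ} (hjk : j ≠ k) (hj : j ∉ s) (hk : k ∉ s)
    (h : ∃ τ : ℕ → ℕ, Inv τ ∧ τ 0 ≠ 0 ∧ (∀ l, l ∉ s → τ (l + 3) = l + 3) ∧ g.1 τ ∅ ≠ 0) :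
    ∃ τ : ℕ → ℕ, Inv τ ∧ τ 0 ≠ 0 ∧ (∀ l, l ∉ j :: k :: s → τ (l + 3) = l + 3) ∧ (b j k g).1 τ ∅ ≠ 0 := by
  obtain ⟨τ, hI, h0, hf, hg⟩ := h
  obtain ⟨β, hβ, hβ0, hβr, hτ, hβx⟩ := exists_base (a := 0) (b := τ 0) hI rfl (Ne.symm h0)
  have hr : ∀ l, l ∉ s → l + 3 ≠ τ 0 := by
    intro l hl e
    have h1 := hf l hl
    have h2 : τ (τ 0) = 0 := hI 0
    rw [← e, h1] at h2
    omega
  have hrj := hr j hj
  have hrk := hr k hk
  have bj : β (j + 3) = j + 3 := by rw [hβx _ (by omega) hrj, hf j hj]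
  have bk : β (k + 3) = k + 3 := by rw [hβx _ (by omega) hrk, hf k hk]
  have e1 : ed 0 (j + 3) (ed (k + 3) (τ 0) β) 0 = j + 3 := ed_left _ _ _
  have e2 : ed 0 (j + 3) (ed (k + 3) (τ 0) β) (j + 3) = 0 := ed_right _ _ _
  have e3 : ed 0 (j + 3) (ed (k + 3) (τ 0) β) (k + 3) = τ 0 := by
    rw [ed_ne _ (by omega) (by omega), ed_left]
  have hI' : Inv (ed 0 (j + 3) (ed (k + 3) (τ 0) β)) := by
    refine ed_Inv (ed_Inv hβ bk hβr) ?_ ?_
    · rw [ed_ne _ (by omega) (Ne.symm h0), hβ0]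
    · rw [ed_ne _ (by omega) hrj, bj]
  refine ⟨ed 0 (j + 3) (ed (k + 3) (τ 0) β), hI', ?_, fun l hl => ?_, ?_⟩
  · rw [e1]
    omega
  · rw [List.mem_cons, List.mem_cons, not_or, not_or] at hl
    obtain ⟨h1, h2, h3⟩ := hl
    rw [ed_ne _ (by omega) (by omega), ed_ne _ (by omega) (hr l h3), hβx _ (by omega) (hr l h3), hf l h3]
  · rw [b_val]
    have h1 : cO (j + 3) (k + 3) g.1 (ed 0 (j + 3) (ed (k + 3) (τ 0) β)) ∅ =
        g.1 (cc (j + 3) (k + 3) (ed 0 (j + 3) (ed (k + 3) (τ 0) β))) ∅ := by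
      unfold cO
      rw [if_pos]
      refine ⟨by omega, hI', ?_, ?_, ?_⟩
      · rw [e2]
        omega
      · rw [e3]
        exact Ne.symm hrk
      · rw [e2]
        omega
    have h2 : cc (j + 3) (k + 3) (ed 0 (j + 3) (ed (k + 3) (τ 0) β)) = τ := by
      rw [ed_comm 0 (j + 3), cc_ed_ed ?_ ?_, ← hτ]
      · intro x hx
        simp only [List.mem_cons, List.not_mem_nil, or_false] at hx
        rcases hx with rfl | rfl | rfl | rfl
        · exact bj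
        · exact bk
        · exact hβ0
        · exact hβr
      · simp only [List.nodup_cons, List.mem_cons, List.not_mem_nil, not_or]
        refine ⟨⟨by omega, by omega, hrj, not_false⟩, ⟨by omega, hrk, not_false⟩,
          ⟨Ne.symm h0, not_false⟩, not_false, List.nodup_nil⟩
    rw [h1, h2]
    exact hg

end E4.M
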