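import Pool.Agent.Lib.MP_8a95e3_al.Defs

/-!
# MD : definitions for block M (an insoluble group of exponent 4)

Closings are involutions `τ : ℕ → ℕ` (`Inv τ`); the pairs `{x, τ x}`, `x ≠ τ x`, are the edges. `ed a b τ` is `τ` with the edge `a - b` (and `a`
fixed if `a = b`), `cc p q τ` is the contraction: `p` and `q` are removed and their partners are joined. The points are: `0` special, `1`, `2` reserved, `j + 3` the
point of the letter `j`.
-/

namespace E4.M

/-- Involutions. -/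
def Inv (τ : ℕ → ℕ) : Prop := ∀ x, τ (τ x) = x

/-- `τ` changed at `a` and `b`: the edge `a - b` (the fixed point `a` if `a = b`). -/
def ed (a b : ℕ) (τ : ℕ → ℕ) : ℕ → ℕ := fun x => if x = a then b else if x = b then a else τ x

/-- Contraction of `p` and `q`: both become fixed points and their partners are joined (if `τ p = p`, then `p` is joined with the partner of `q`). -/
def cc (p q : ℕ) (τ : ℕ → ℕ) : ℕ → ℕ := ed q q (ed (τ p) (τ q) (ed p p τ))

/-- Relabelling of the points. -/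
def rl (σ : Equiv.Perm ℕ) (τ : ℕ → ℕ) : ℕ → ℕ := fun x => σ (τ (σ.symm x))

/-- Functions of a closing and a finite set of markers. -/
abbrev VV : Type := (ℕ → ℕ) → Finset ℕ → ZMod 2

open scoped Classical in
/-- Contraction operator. -/
noncomputable def cO (p q : ℕ) (f : VV) : VV := fun τ A =>
  if p ≠ q ∧ Inv τ ∧ τ p ≠ p ∧ τ q ≠ q ∧ τ p ≠ q then f (cc p q τ) A else 0

open scoped Classical in
/-- The operator of the letter `j`. -/
noncomputable def qO (j : ℕ) (f : VV) : VV := fun τ A =>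
  if Inv τ ∧ τ (j + 3) ≠ j + 3 ∧ τ 0 ≠ j + 3 then f (cc 0 (j + 3) τ) A else 0

/-- Restriction to the closings with an edge at `0`. -/
def nO (f : VV) : VV := fun τ A => if τ 0 = 0 then 0 else f τ A

/-- The marker `i`. -/
def aO (i : ℕ) (f : VV) : VV := fun τ A => if i ∈ A then f τ (A.erase i) else 0

/-- Relabelling operator. -/
def sO (σ : Equiv.Perm ℕ) (f : VV) : VV := fun τ A => f (rl σ τ) A

/-- Restriction to the closings which fix `p`. -/
def pO (p : ℕ) (f : VV) : VV := fun τ A => if τ p = p then f τ A else 0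

/-- The relations. -/
structure InG (f : VV) : Prop where
  g0 : ∀ τ A, ¬ Inv τ → f τ A = 0
  g4 : ∀ (β : ℕ → ℕ) (A : Finset ℕ) (a b c d : ℕ), Inv β → (∀ x ∈ [a, b, c, d], β x = x) → [a, b, c, d].Nodup →
    f (ed a b (ed c d β)) A + f (ed a c (ed b d β)) A + f (ed a d (ed b c β)) A = 0
  g6 : ∀ (β : ℕ → ℕ) (A : Finset ℕ) (x0 x1 x2 y0 y1 y2 : ℕ), Inv β → (∀ x ∈ [x0, x1, x2, y0, y1, y2], β x = x) →
    [x0, x1, x2, y0, y1, y2].Nodup →
    f (ed x0 y0 (ed x1 y1 (ed x2 y2 β))) A + f (ed x0 y1 (ed x1 y2 (ed x2 y0 β))) A +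
      f (ed x0 y2 (ed x1 y0 (ed x2 y1 β))) A = 0

theorem InG_zero : InG (0 : VV) :=
  ⟨fun _ _ _ => rfl, fun _ _ _ _ _ _ _ _ _ => by simp, fun _ _ _ _ _ _ _ _ _ _ _ => by simp⟩

theorem InG_add {f g : VV} (hf : InG f) (hg : InG g) : InG (f + g) := by
  refine ⟨fun τ A h => ?_, fun β A a b c d h1 h2 h3 => ?_, fun β A x0 x1 x2 y0 y1 y2 h1 h2 h3 => ?_⟩
  · rw [Pi.add_apply, Pi.add_apply, hf.g0 τ A h, hg.g0 τ A h, add_zero]
  · have e1 := hf.g4 β A a b c d h1 h2 h3
    have e2 := hg.g4 β A a b c d h1 h2 h3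
    simp only [Pi.add_apply]
    calc _ = (f (ed a b (ed c d β)) A + f (ed a c (ed b d β)) A + f (ed a d (ed b c β)) A) +
          (g (ed a b (ed c d β)) A + g (ed a c (ed b d β)) A + g (ed a d (ed b c β)) A) := by ring
      _ = 0 := by rw [e1, e2, add_zero]
  · have e1 := hf.g6 β A x0 x1 x2 y0 y1 y2 h1 h2 h3
    have e2 := hg.g6 β A x0 x1 x2 y0 y1 y2 h1 h2 h3
    simp only [Pi.add_apply]
    calc _ = (f (ed x0 y0 (ed x1 y1 (ed x2 y2 β))) A + f (ed x0 y1 (ed x1 y2 (ed x2 y0 β))) A +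
          f (ed x0 y2 (ed x1 y0 (ed x2 y1 β))) A) +
          (g (ed x0 y0 (ed x1 y1 (ed x2 y2 β))) A + g (ed x0 y1 (ed x1 y2 (ed x2 y0 β))) A +
          g (ed x0 y2 (ed x1 y0 (ed x2 y1 β))) A) := by ring
      _ = 0 := by rw [e1, e2, add_zero]

theorem VV_neg (f : VV) : -f = f := by
  funext τ A
  show -(f τ A) = f τ A
  exact CharTwo.neg_eq _

/-- The group of all functions satisfying the relations. -/
def GG : AddSubgroup VV where
  carrier := {f | InG f}
  add_mem' := fun hf hg => InG_add hf hg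
  zero_mem' := InG_zero
  neg_mem' := fun {f} hf => by rw [VV_neg]; exact hf

/-- The endomorphisms of `GG`. -/
abbrev EE : Type := AddMonoid.End GG

end E4.M
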