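import Pool.Agent.Lib.MP_8a95e3_al.M20
import Pool.Agent.Lib.MP_8a95e3_al.M21

/-!
# MEnd : an insoluble group of exponent 4
-/

namespace E4

open E4.M in
/-- **There is an insoluble group of exponent 4.**

PROOF. `G = GS`; `x ^ 4 = 1` by `GS_exp`. If it is solvable, `derivedSeries GS m = ⊥` for some `m`; `der_claim m` with `φ = id` gives `u = 1` with the value `1 + bM M * Q d`, so `bM M * Q d = 0` (`mapM_id`), against `bM_Q_ne`. -/
theorem exists_insol : ∃ (G : Type) (_ : Group G), (∀ g : G, g ^ 4 = 1) ∧ ¬ IsSolvable G := by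
  refine ⟨GS, inferInstance, fun g => Subtype.ext (GS_exp g.2), fun hs => ?_⟩
  obtain ⟨m, hm⟩ := hs.solvable
  obtain ⟨M, d, hn, h⟩ := der_claim m
  obtain ⟨u, hu, hv⟩ := h id Function.injective_id
  rw [hm, Subgroup.mem_bot] at hu
  have hid : mapM id M = M := mapM_id M
  rw [hu, hid] at hv
  refine bM_Q_ne hn ?_
  have h1 : (1 : EE) = 1 + bM M * Q d := hv
  exact left_eq_add.1 h1

end E4
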