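import Pool.Agent.Lib.MP_8a95e3_al.M05

/-!
# MOp : the operators as elements of the ring `EE = AddMonoid.End GG` (complete)
-/

namespace E4.M

/-- Restriction of an additive operator to `GG`. -/
def opE (T : VV → VV) (hadd : ∀ f g, T (f + g) = T f + T g) (hG : ∀ f, InG f → InG (T f)) : EE where
  toFun f := ⟨T f.1, hG _ f.2⟩
  map_zero' := by
    have h : T 0 = 0 := by
      have h1 := hadd 0 0
      rw [add_zero] at h1
      exact left_eq_add.1 h1
    exact Subtype.ext h
  map_add' f g := Subtype.ext (hadd _ _)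

theorem cO_add (p q : ℕ) (f g : VV) : cO p q (f + g) = cO p q f + cO p q g := by
  funext τ A
  simp only [cO, Pi.add_apply]
  split_ifs
  · rfl
  · rw [add_zero]

theorem qO_add (j : ℕ) (f g : VV) : qO j (f + g) = qO j f + qO j g := by
  funext τ A
  simp only [qO, Pi.add_apply]
  split_ifs
  · rfl
  · rw [add_zero]

theorem nO_add (f g : VV) : nO (f + g) = nO f + nO g := by
  funext τ A
  simp only [nO, Pi.add_apply]
  split_ifs
  · rw [add_zero]
  · rfl

theorem aO_add (i : ℕ) (f g : VV) : aO i (f + g) = aO i f + aO i g := by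
  funext τ A
  simp only [aO, Pi.add_apply]
  split_ifs
  · rfl
  · rw [add_zero]

theorem sO_add (σ : Equiv.Perm ℕ) (f g : VV) : sO σ (f + g) = sO σ f + sO σ g := rfl

theorem pO_add (p : ℕ) (f g : VV) : pO p (f + g) = pO p f + pO p g := by
  funext τ A
  simp only [pO, Pi.add_apply]
  split_ifs
  · rfl
  · rw [add_zero]

/-- The operator of the letter `j`. -/
noncomputable def Q (j : ℕ) : EE := opE (qO j) (qO_add j) fun _ => InG_qO j

/-- The contraction of the letters `j`, `k`. -/
noncomputable def b (j k : ℕ) : EE := opE (cO (j + 3) (k + 3)) (cO_add _ _) fun _ => InG_cO _ _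

/-- The projection. -/
def N : EE := opE nO nO_add fun _ => InG_nO

/-- The markers. -/
def a (i : ℕ) : EE := opE (aO i) (aO_add i) fun _ => InG_aO i

/-- Exchange of the letters `j`, `k`. -/
def sg (j k : ℕ) : EE := opE (sO (Equiv.swap (j + 3) (k + 3))) (sO_add _) fun _ => InG_sO _

/-- Restriction to closings which fix the letter `j`. -/
def pi (j : ℕ) : EE := opE (pO (j + 3)) (pO_add _) fun _ => InG_pO _

theorem Q_val (j : ℕ) (f : GG) : (Q j f).1 = qO j f.1 := rfl

theorem b_val (j k : ℕ) (f : GG) : (b j k f).1 = cO (j + 3) (k + 3) f.1 := rfl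

theorem N_val (f : GG) : (N f).1 = nO f.1 := rfl

theorem a_val (i : ℕ) (f : GG) : (a i f).1 = aO i f.1 := rfl

theorem sg_val (j k : ℕ) (f : GG) : (sg j k f).1 = sO (Equiv.swap (j + 3) (k + 3)) f.1 := rfl

theorem pi_val (j : ℕ) (f : GG) : (pi j f).1 = pO (j + 3) f.1 := rfl

/-- Equality of two endomorphisms can be checked on the values. -/
theorem EE_ext {S T : EE} (h : ∀ (f : GG) (τ : ℕ → ℕ) (A : Finset ℕ), (S f).1 τ A = (T f).1 τ A) : S = T := by
  apply AddMonoidHom.ext
  intro f
  apply Subtype.ext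
  funext τ A
  exact h f τ A

theorem EE_mul (S T : EE) (f : GG) : (S * T) f = S (T f) := rfl

theorem EE_add (S T : EE) (f : GG) : (S + T) f = S f + T f := rfl

theorem EE_one (f : GG) : (1 : EE) f = f := rfl

theorem EE_zero (f : GG) : (0 : EE) f = 0 := rfl

theorem GG_add (f g : GG) (τ : ℕ → ℕ) (A : Finset ℕ) : (f + g).1 τ A = f.1 τ A + g.1 τ A := rfl

theorem GG_two (f : GG) : f + f = 0 := by
  apply Subtype.ext
  funext τ A
  show f.1 τ A + f.1 τ A = 0
  exact CharTwo.add_self_eq_zero _

/-- The ring has characteristic two. -/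
theorem EE_two (r : EE) : r + r = 0 := by
  apply AddMonoidHom.ext
  intro f
  exact GG_two (r f)

/-- The subgroup of the functions which vanish at closings fixing the letter `j`. -/
def GJ (j : ℕ) : AddSubgroup GG where
  carrier := {f | ∀ τ A, τ (j + 3) = j + 3 → f.1 τ A = 0}
  add_mem' := fun {f g} hf hg τ A h => by
    show f.1 τ A + g.1 τ A = 0
    rw [hf τ A h, hg τ A h, add_zero]
  zero_mem' := fun _ _ _ => rfl
  neg_mem' := fun {f} hf τ A h => by
    show -(f.1 τ A) = 0
    rw [hf τ A h, neg_zero]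

/-- The operators which preserve all `GJ j` and commute with the markers. -/
def GR : Subring EE where
  carrier := {W | (∀ j, ∀ f ∈ GJ j, W f ∈ GJ j) ∧ ∀ i, W * a i = a i * W}
  mul_mem' := fun {S T} hS hT => ⟨fun j f hf => hS.1 j _ (hT.1 j f hf), fun i => by
    rw [mul_assoc, hT.2 i, ← mul_assoc, hS.2 i, mul_assoc]⟩
  one_mem' := ⟨fun _ _ hf => hf, fun i => by rw [one_mul, mul_one]⟩
  add_mem' := fun {S T} hS hT => ⟨fun j f hf => (GJ j).add_mem (hS.1 j f hf) (hT.1 j f hf), fun i => by
    rw [add_mul, mul_add, hS.2 i, hT.2 i]⟩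
  zero_mem' := ⟨fun j _ _ => (GJ j).zero_mem, fun i => by rw [zero_mul, mul_zero]⟩
  neg_mem' := fun {S} hS => by
    have e : -S = S := neg_eq_of_add_eq_zero_left (EE_two S)
    rw [e]
    exact hS

/-! ### letters and words -/

/-- The letters: `inl j` is the vector letter `v j`, `inr i` the marker letter `z i`. -/
abbrev Lt : Type := ℕ ⊕ ℕ

/-- The operator of a letter. -/
noncomputable def op : Lt → EE
  | Sum.inl j => Q j
  | Sum.inr i => a i * N

/-- The product of the `1 + op x`. -/
noncomputable def hh (l : List Lt) : EE := (l.map fun x => 1 + op x).prod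

/-- The cube. -/
noncomputable def Phi (l : List Lt) : EE := (hh l + 1) ^ 3

/-- The linear part of the cube. -/
def dl {R : Type*} [Ring R] (g Y : R) : R := g ^ 2 * Y + g * Y * g + Y * g ^ 2

theorem hh_nil : hh [] = 1 := rfl

theorem hh_cons (x : Lt) (l : List Lt) : hh (x :: l) = (1 + op x) * hh l := by
  unfold hh
  rw [List.map_cons, List.prod_cons]

theorem hh_append (l l' : List Lt) : hh (l ++ l') = hh l * hh l' := by
  unfold hh
  rw [List.map_append, List.prod_append]

/-! ### lists of pairs of letters -/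

/-- The letters of a list of pairs. -/
def lets (M : List (ℕ × ℕ)) : List ℕ := M.flatMap fun p => [p.1, p.2]

/-- The product of the contractions. -/
noncomputable def bM (M : List (ℕ × ℕ)) : EE := (M.map fun p => b p.1 p.2).prod

/-- Renaming of the letters. -/
def mapM (φ : ℕ → ℕ) (M : List (ℕ × ℕ)) : List (ℕ × ℕ) := M.map fun p => (φ p.1, φ p.2)

end E4.M
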