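import Pool.Agent.Lib.MP_8a95e3_al.ND5

/-!
# NA1 : chains of subgroups of a group which is generated, modulo `K`, by a functor of the letters
-/

namespace E4.N

open E4.J

variable {s t : ℕ}

/-- The homomorphism attached to a function on the basis. -/
noncomputable def psiQ {M : Type} [AddCommGroup M] (K : AddSubgroup M) (v : BT s t → M)
    (h4 : ∀ b, (4 : ℕ) • v b ∈ K) : QT s t →+ M ⧸ K :=
  Finsupp.liftAddHom fun b => ZMod.lift 4 ⟨zmultiplesHom (M ⧸ K) (QuotientAddGroup.mk (v b)), by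
    show (((4 : ℕ) : ℤ)) • (QuotientAddGroup.mk (v b) : M ⧸ K) = 0
    rw [natCast_zsmul, ← QuotientAddGroup.mk_nsmul, QuotientAddGroup.eq_zero_iff]
    exact h4 b⟩

theorem psiQ_single {M : Type} [AddCommGroup M] (K : AddSubgroup M) (v : BT s t → M)
    (h4 : ∀ b, (4 : ℕ) • v b ∈ K) (b : BT s t) :
    psiQ K v h4 (Finsupp.single b 1) = QuotientAddGroup.mk (v b) := by
  unfold psiQ
  rw [Finsupp.liftAddHom_apply_single]
  have h := ZMod.lift_coe 4 (⟨zmultiplesHom (M ⧸ K) (QuotientAddGroup.mk (v b)), by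
    show (((4 : ℕ) : ℤ)) • (QuotientAddGroup.mk (v b) : M ⧸ K) = 0
    rw [natCast_zsmul, ← QuotientAddGroup.mk_nsmul, QuotientAddGroup.eq_zero_iff]
    exact h4 b⟩ : {f : ℤ →+ M ⧸ K // f (4 : ℕ) = 0}) 1
  rw [Int.cast_one] at h
  rw [h]
  show (1 : ℤ) • (QuotientAddGroup.mk (v b) : M ⧸ K) = _
  rw [one_zsmul]

theorem qt_ext {N : Type} [AddCommGroup N] {f g : QT s t →+ N}
    (h : ∀ b, f (Finsupp.single b 1) = g (Finsupp.single b 1)) : f = g := by
  refine Finsupp.addHom_ext fun b y => ?_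
  have e : Finsupp.single b y = y.val • (Finsupp.single b 1 : QT s t) := by
    rw [Finsupp.smul_single, nsmul_eq_mul, mul_one, ZMod.natCast_zmod_val]
  rw [e, map_nsmul, map_nsmul, h]

/-- Chains of subgroups between `K` and the group generated by `K` and the values of `v`. -/
theorem acc_of_gen {M : Type} [AddCommGroup M] (K : AddSubgroup M) (v : BT s t → M)
    (h4 : ∀ b, (4 : ℕ) • v b ∈ K) (zM : ℕ → M →+ M) (cM : ℕ → ℕ → M →+ M)
    (hzK : ∀ p, ∀ m ∈ K, zM p m ∈ K) (hcK : ∀ k p, k < p → ∀ m ∈ K, cM k p m ∈ K)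
    (hz : ∀ p b, zM p (v b) - v (zT p b) ∈ K)
    (hc : ∀ k p b, k < p → cM k p (v b) - (v (cT k p b) + if b.2.2 = k then v (eT k p b) else 0) ∈ K)
    (U : ℕ → AddSubgroup M) (hU : Monotone U) (hKU : ∀ n, K ≤ U n)
    (hs : ∀ n, U n ≤ K ⊔ AddSubgroup.closure (Set.range v))
    (hZ : ∀ n p, ∀ m ∈ U n, zM p m ∈ U n) (hC : ∀ n k p, k < p → ∀ m ∈ U n, cM k p m ∈ U n) :
    ∃ n, ∀ m ≥ n, U m = U n := by
  classical
  obtain ⟨Ψ, hΨ⟩ : ∃ Ψ : QT s t →+ M ⧸ K, ∀ b, Ψ (Finsupp.single b 1) = QuotientAddGroup.mk (v b) :=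
    ⟨psiQ K v h4, psiQ_single K v h4⟩
  -- the induced maps
  have hzq : ∀ p, ∃ f : M ⧸ K →+ M ⧸ K, ∀ m : M, f (QuotientAddGroup.mk m) = QuotientAddGroup.mk (zM p m) :=
    fun p => ⟨QuotientAddGroup.map K K (zM p) (fun m hm => hzK p m hm), fun m => rfl⟩
  have hcq : ∀ k p, k < p → ∃ f : M ⧸ K →+ M ⧸ K, ∀ m : M,
      f (QuotientAddGroup.mk m) = QuotientAddGroup.mk (cM k p m) :=
    fun k p hkp => ⟨QuotientAddGroup.map K K (cM k p) (fun m hm => hcK k p hkp m hm), fun m => rfl⟩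
  have hzc : ∀ p f m, Ψ f = QuotientAddGroup.mk m → Ψ (opZ p f) = QuotientAddGroup.mk (zM p m) := by
    intro p f m hm
    obtain ⟨zq, hzq'⟩ := hzq p
    have e : Ψ.comp (opZ p : QT s t →ₗ[ZMod 4] QT s t).toAddMonoidHom = zq.comp Ψ := by
      refine qt_ext fun b => ?_
      show Ψ (opZ p (Finsupp.single b 1)) = zq (Ψ (Finsupp.single b 1))
      rw [opZ_single, hΨ, hΨ, hzq', eq_comm, QuotientAddGroup.eq_iff_sub_mem]
      exact hz p b
    have e1 := DFunLike.congr_fun e f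
    have e2 : Ψ (opZ p f) = zq (Ψ f) := e1
    rw [e2, hm, hzq']
  have hcc : ∀ k p f m, k < p → Ψ f = QuotientAddGroup.mk m → Ψ (opC k p f) = QuotientAddGroup.mk (cM k p m) := by
    intro k p f m hkp hm
    obtain ⟨cq, hcq'⟩ := hcq k p hkp
    have e : Ψ.comp (opC k p : QT s t →ₗ[ZMod 4] QT s t).toAddMonoidHom = cq.comp Ψ := by
      refine qt_ext fun b => ?_
      show Ψ (opC k p (Finsupp.single b 1)) = cq (Ψ (Finsupp.single b 1))
      have e3 : Ψ (opC k p (Finsupp.single b 1)) =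
          QuotientAddGroup.mk (v (cT k p b) + if b.2.2 = k then v (eT k p b) else 0) := by
        rw [opC_single, map_add, hΨ, QuotientAddGroup.mk_add]
        by_cases hk : b.2.2 = k
        · rw [if_pos hk, if_pos hk, hΨ]
        · rw [if_neg hk, if_neg hk, map_zero, QuotientAddGroup.mk_zero]
      rw [e3, hΨ, hcq', eq_comm, QuotientAddGroup.eq_iff_sub_mem]
      exact hc k p b hkp
    have e1 := DFunLike.congr_fun e f
    have e2 : Ψ (opC k p f) = cq (Ψ f) := e1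
    rw [e2, hm, hcq']
  obtain ⟨U', hU'⟩ : ∃ U' : ℕ → AddSubgroup (QT s t), ∀ n f, f ∈ U' n ↔ ∃ m ∈ U n, Ψ f = QuotientAddGroup.mk m :=
    ⟨fun n => ((U n).map (QuotientAddGroup.mk' K)).comap Ψ, fun n f => by
      rw [AddSubgroup.mem_comap, AddSubgroup.mem_map]
      constructor
      · rintro ⟨m, hm, h⟩
        exact ⟨m, hm, h.symm⟩
      · rintro ⟨m, hm, h⟩
        exact ⟨m, hm, h.symm⟩⟩
  obtain ⟨n, hn⟩ := thmNL s t U' (by
    intro a b hab f hf
    obtain ⟨m, hm, h⟩ := (hU' a f).1 hf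
    exact (hU' b f).2 ⟨m, hU hab hm, h⟩) (by
    intro n p f hf
    obtain ⟨m, hm, h⟩ := (hU' n f).1 hf
    exact (hU' n _).2 ⟨_, hZ n p m hm, hzc p f m h⟩) (by
    intro n k p hkp f hf
    obtain ⟨m, hm, h⟩ := (hU' n f).1 hf
    exact (hU' n _).2 ⟨_, hC n k p hkp m hm, hcc k p f m hkp h⟩)
  refine ⟨n, fun m hm => le_antisymm ?_ (hU hm)⟩
  intro u hu
  have hr : (QuotientAddGroup.mk u : M ⧸ K) ∈ Ψ.range := by
    have h1 : (K ⊔ AddSubgroup.closure (Set.range v)).map (QuotientAddGroup.mk' K) ≤ Ψ.range := by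
      rw [AddSubgroup.map_sup, sup_le_iff]
      constructor
      · rintro _ ⟨k, hk, rfl⟩
        have h2 : (QuotientAddGroup.mk' K) k = 0 := (QuotientAddGroup.eq_zero_iff k).2 hk
        rw [h2]
        exact Ψ.range.zero_mem
      · rw [AddMonoidHom.map_closure, AddSubgroup.closure_le]
        rintro _ ⟨_, ⟨b, rfl⟩, rfl⟩
        exact ⟨_, hΨ b⟩
    exact h1 ⟨u, hs m hu, rfl⟩
  obtain ⟨f, hf⟩ := hr
  have h3 : f ∈ U' m := (hU' m f).2 ⟨u, hu, hf⟩
  rw [hn m hm] at h3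
  obtain ⟨u', hu', h4'⟩ := (hU' n f).1 h3
  rw [hf, QuotientAddGroup.eq_iff_sub_mem] at h4'
  have h5 := (U n).add_mem (hKU n h4') hu'
  rwa [sub_add_cancel] at h5

end E4.N
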