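import Pool.Agent.Lib.MP_8a95e3_al.JNil
import Pool.Agent.Lib.MP_8a95e3_al.Sec

/-!
# NArg1 : from vanishing of `wA` to `[B, m G'] ≤ B'B²`
-/

open scoped commutatorElement

namespace E4

/-- the product of the `X` of the commutators of the pairs in a list -/
private def NArg1_PP {G R : Type*} [Group G] [Ring R] (ρ : G →* R) (q : List (G × G)) : R :=
  (q.map (fun p => X ρ (cm p.1 p.2))).prod

private theorem NArg1_conj {G R : Type*} [Group G] [Ring R] (ρ : G →* R) (k : G)
    (q : List (G × G)) :
    ρ k * NArg1_PP ρ q =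
      NArg1_PP ρ (q.map (fun p => (k * p.1 * k⁻¹, k * p.2 * k⁻¹))) * ρ k := by
  induction q with
  | nil => simp [NArg1_PP]
  | cons p q ih =>
    have h1 : NArg1_PP ρ (p :: q) = X ρ (cm p.1 p.2) * NArg1_PP ρ q := by
      simp [NArg1_PP]
    have h2 : NArg1_PP ρ ((p :: q).map (fun p => (k * p.1 * k⁻¹, k * p.2 * k⁻¹))) =
        X ρ (cm (k * p.1 * k⁻¹) (k * p.2 * k⁻¹)) *
          NArg1_PP ρ (q.map (fun p => (k * p.1 * k⁻¹, k * p.2 * k⁻¹))) := by
      simp [NArg1_PP]
    have h3 : cm (k * p.1 * k⁻¹) (k * p.2 * k⁻¹) * k = k * cm p.1 p.2 := by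
      unfold cm
      group
    have h4 : ρ k * X ρ (cm p.1 p.2) = X ρ (cm (k * p.1 * k⁻¹) (k * p.2 * k⁻¹)) * ρ k := by
      unfold X
      rw [mul_add, add_mul, ← map_mul, ← map_mul, h3, mul_one, one_mul]
    rw [h1, h2, ← mul_assoc, h4, mul_assoc, ih, ← mul_assoc]

private theorem NArg1_first {G : Type} [Group G] {m : ℕ}
    (hw : ∀ (R : Type) [Ring R] (ρ : F →* R), Cub ρ → (∀ w : F, (∀ f : F →* G, f w = 1) → ρ w = 1) →
      wA ρ m = 0)
    {R : Type} [Ring R] {ρ : G →* R} (hc : Cub ρ) (q : List (G × G)) (hq : q.length = m) :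
    NArg1_PP ρ q = 0 := by
  obtain ⟨t, ht⟩ : ∃ t : ℕ → G, ∀ n, t n =
      if n % 2 = 0 then (q.getD (n / 2) (1, 1)).1 else (q.getD (n / 2) (1, 1)).2 := ⟨_, fun _ => rfl⟩
  have h0 := hw R (ρ.comp (FreeGroup.lift t)) (cub_precomp hc _) (fun w h => by
    rw [MonoidHom.comp_apply, h, map_one])
  rw [← h0]
  unfold NArg1_PP wA
  congr 1
  apply List.ext_getElem
  · simp [hq]
  · intro i h1 h2
    rw [List.getElem_map, List.getElem_map, List.getElem_range]
    have hi : i < q.length := by simpa using h1
    have e1 : FreeGroup.lift t (x (2 * i)) = q[i].1 := by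
      rw [x, FreeGroup.lift_apply_of, ht, if_pos (by omega), Nat.mul_div_cancel_left _ (by norm_num),
        List.getD_eq_getElem _ _ hi]
    have e2 : FreeGroup.lift t (x (2 * i + 1)) = q[i].2 := by
      have h5 : (2 * i + 1) / 2 = i := by omega
      rw [x, FreeGroup.lift_apply_of, ht, if_neg (by omega), h5, List.getD_eq_getElem _ _ hi]
    unfold X cm
    rw [MonoidHom.comp_apply]
    simp only [map_mul, map_inv, e1, e2]

private theorem NArg1_all {G : Type} [Group G] {m : ℕ}
    (hw : ∀ (R : Type) [Ring R] (ρ : F →* R), Cub ρ → (∀ w : F, (∀ f : F →* G, f w = 1) → ρ w = 1) →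
      wA ρ m = 0)
    {R : Type} [Ring R] {ρ : G →* R} (hc : Cub ρ) (l : List G) :
    (∀ k ∈ l, k ∈ commutator G) → ∀ q : List (G × G), l.length + q.length = m →
      (l.map (X ρ)).prod * NArg1_PP ρ q = 0 := by
  induction l using List.reverseRecOn with
  | nil =>
    intro _ q hq
    rw [NArg1_first hw hc q (by simpa using hq), mul_zero]
  | append_singleton l k ih =>
    intro hl q hq
    have hl' : ∀ k ∈ l, k ∈ commutator G := fun k' hk' => hl k' (by simp [hk'])
    have hk : k ∈ commutator G := hl k (by simp)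
    have ih' := ih hl'
    have hq' : l.length + (q.length + 1) = m := by
      rw [List.length_append, List.length_singleton] at hq
      omega
    have key : ∀ k ∈ commutator G, ∀ q : List (G × G), l.length + (q.length + 1) = m →
        (l.map (X ρ)).prod * (X ρ k * NArg1_PP ρ q) = 0 := by
      clear hl hq hq' hk k ih
      intro k hk
      rw [commutator_eq_closure] at hk
      induction hk using Subgroup.closure_induction with
      | mem k hk =>
        intro q hq
        obtain ⟨a, b, rfl⟩ := hk
        have h1 : ⁅a, b⁆ = cm a⁻¹ b⁻¹ := by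
          unfold cm
          rw [commutatorElement_def, inv_inv, inv_inv]
        have h2 : X ρ ⁅a, b⁆ * NArg1_PP ρ q = NArg1_PP ρ ((a⁻¹, b⁻¹) :: q) := by
          rw [h1]
          simp [NArg1_PP]
        rw [h2]
        exact ih' _ (by rw [List.length_cons]; exact hq)
      | one =>
        intro q _
        have h1 : X ρ (1 : G) = 0 := by
          unfold X
          rw [map_one, one_add_one_eq_two, hc.two]
        rw [h1, zero_mul, mul_zero]
      | mul a b _ _ ha hb =>
        intro q hq
        have h1 : X ρ (a * b) = X ρ a * ρ b + X ρ b := by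
          unfold X
          have h3 : (ρ a + 1) * ρ b + (ρ b + 1) = ρ a * ρ b + 1 + 2 * ρ b := by
            rw [add_mul, one_mul, two_mul]
            abel
          rw [h3, hc.two, zero_mul, add_zero, map_mul]
        rw [h1, add_mul, mul_add, hb q hq, add_zero, mul_assoc, NArg1_conj, ← mul_assoc,
          ← mul_assoc, mul_assoc _ (X ρ a), ha _ (by rw [List.length_map]; exact hq), zero_mul]
      | inv a _ ha =>
        intro q hq
        have h1 : X ρ a⁻¹ = X ρ a * ρ a⁻¹ := by
          unfold X
          rw [add_mul, one_mul, ← map_mul, mul_inv_cancel, map_one, add_comm]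
        rw [h1, mul_assoc, NArg1_conj, ← mul_assoc, ← mul_assoc, mul_assoc _ (X ρ a),
          ha _ (by rw [List.length_map]; exact hq), zero_mul]
    rw [List.map_append, List.prod_append, List.map_singleton, List.prod_singleton, mul_assoc]
    exact key k hk q hq'

/-- `G` is a group (quotient of `F` by a verbal subgroup, see the hypothesis) such that `wA` of length `m` vanishes in all cubic representations of `F` which factor through `G`.

PROOF.  First, for all `u v : ℕ → G`, `Π_{i<m} X ρ (cm (u i) (v i)) = 0` in `R`: let `f : F →* G` be the homomorphism with `f (x (2i)) = u i`, `f (x (2i+1)) = v i`; then `ρ ∘ f` is cubic and `wA (ρ ∘ f) m` is this product; use `hw`.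
Second, by `spn_red` we may assume `Spn ρ`.  Claim: for every list `l` of length `m` of elements of `commutator G`, the product vanishes.  More generally prove by induction on `j ≤ m`... : let `A_j` be the statement: for all lists `l` of length `j` in `commutator G` and all
`u v` (families of `m - j` pairs): `(l.map (X ρ)).prod * Π_{i < m-j} X ρ (cm (u i) (v i)) = 0`.  `A_0` holds.  `A_j → A_{j+1}`: the set of `k ∈ commutator G` such that for all `l` (length `j`), `u, v` the product `L * X ρ k * P = 0` (`P` with `m-j-1` factors) contains the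
commutators `cm a b`, and it is closed under products: `X(k k') = X(k) + X(k') + X(k)X(k') = X(k) ρ(k') + X(k')`, and `X(k) ρ(k') P = X(k) P' ρ(k')`, `P'` = product of the conjugates (`ρ k' * X ρ (cm a b) = X ρ (cm (k' a k'⁻¹) (k' b k'⁻¹)) * ρ k'`);
closed under inverses: `X(k⁻¹) = X(k) ρ(k⁻¹)`, the same. -/
theorem lists_vanish {G : Type} [Group G] {m : ℕ}
    (hw : ∀ (R : Type) [Ring R] (ρ : F →* R), Cub ρ → (∀ w : F, (∀ f : F →* G, f w = 1) → ρ w = 1) →
      wA ρ m = 0)
    {R : Type} [Ring R] {ρ : G →* R} (hc : Cub ρ) (l : List G) (hl : ∀ k ∈ l, k ∈ commutator G)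
    (hlen : l.length = m) : (l.map (X ρ)).prod = 0 := by
  have h := NArg1_all hw hc l hl [] (by simpa using hlen)
  have h1 : NArg1_PP ρ ([] : List (G × G)) = 1 := rfl
  rwa [h1, mul_one] at h

/-- PROOF: `sec_exists`, `lists_vanish`, `itc_le_of_lists` with `K = commutator G`. -/
theorem sec_m {G : Type} [Group G] (h4 : Exp4 G) {m : ℕ}
    (hw : ∀ (R : Type) [Ring R] (ρ : F →* R), Cub ρ → (∀ w : F, (∀ f : F →* G, f w = 1) → ρ w = 1) →
      wA ρ m = 0)
    (B C : Subgroup G) [B.Normal] [C.Normal] (hBB : ⁅B, B⁆ ≤ C) (hB2 : ∀ b ∈ B, b ^ 2 ∈ C) :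
    itc B (commutator G) m ≤ C := by
  obtain ⟨R, _, ρ, hc, -, h⟩ := sec_exists h4 B C hBB hB2
  exact itc_le_of_lists B C (commutator G) hBB m fun l hl hk b hb =>
    h l (lists_vanish hw hc l hk hl) b hb

end E4
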