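import Pool.Agent.Lib.MP_8a95e3_al.Defs

/-!
# San : Sanov's theorem (finitely generated groups of exponent 4 are finite)
-/

namespace E4

/-- `x w_1 x w_2 ⋯ x w_n` -/
private def SanF {G : Type*} [Group G] (x : G) {H : Subgroup G} (w : List H) : G :=
  (w.map (fun h : H => x * (h : G))).prod

private theorem SanF_cons {G : Type*} [Group G] (x : G) {H : Subgroup G} (h : H) (w : List H) :
    SanF x (h :: w) = x * h * SanF x w := by
  unfold SanF
  rw [List.map_cons, List.prod_cons]

private theorem SanF_append {G : Type*} [Group G] (x : G) {H : Subgroup G} (v w : List H) :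
    SanF x (v ++ w) = SanF x v * SanF x w := by
  unfold SanF
  rw [List.map_append, List.prod_append]

/-- the elements `c(i,j)` -/
private def SanC {H : Type*} [Group H] : List H → H
  | [] => 1
  | h :: t => h * (SanC t)⁻¹

private theorem SanC_cancel {H : Type*} [Group H] (a t : List H) (h : SanC (a ++ t) = SanC a) : SanC t = 1 := by
  induction a with
  | nil => exact h
  | cons u a ih =>
    apply ih
    rw [List.cons_append] at h
    simp only [SanC] at h
    exact inv_injective (mul_left_cancel h)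

private theorem San_pigeon {H : Type*} [Group H] [Finite H] (m : List H) (hm : Nat.card H ≤ m.length) :
    ∃ q t r : List H, t ≠ [] ∧ m = q ++ t ++ r ∧ SanC t = 1 := by
  have hcard : Nat.card H < Nat.card (Fin (m.length + 1)) := by
    rw [Nat.card_fin]
    omega
  have hex : ∃ i j : Fin (m.length + 1), i ≠ j ∧ SanC (m.take i) = SanC (m.take j) := by
    by_contra hno
    push Not at hno
    have hinj : Function.Injective (fun i : Fin (m.length + 1) => SanC (m.take i)) := by
      intro i j hij
      by_contra hne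
      exact hno i j hne hij
    exact absurd (Nat.card_le_card_of_injective _ hinj) (not_le.2 hcard)
  obtain ⟨i, j, hne, hij⟩ := hex
  have key : ∀ i j : ℕ, i < j → j ≤ m.length → SanC (m.take i) = SanC (m.take j) →
      ∃ q t r : List H, t ≠ [] ∧ m = q ++ t ++ r ∧ SanC t = 1 := by
    intro i j hlt hj h
    have h1 : (m.take j).take i = m.take i := by
      rw [List.take_take, min_eq_left hlt.le]
    refine ⟨m.take i, (m.take j).drop i, m.drop j, ?_, ?_, ?_⟩
    · intro h0
      have := congrArg List.length h0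
      rw [List.length_drop, List.length_take, List.length_nil] at this
      omega
    · rw [← h1, List.take_append_drop, List.take_append_drop]
    · apply SanC_cancel (m.take i)
      rw [← h1, List.take_append_drop, h1, ← h]
  rcases lt_or_gt_of_ne hne with hlt | hlt
  · exact key i j hlt (by have := j.2; omega) hij
  · exact key j i hlt (by have := i.2; omega) hij.symm

private theorem San_move {G : Type*} [Group G] (h4 : Exp4 G) {H : Subgroup G} (x : G) (hx : x ^ 2 ∈ H)
    (h c u : H) (rest : List H) :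
    SanF x (h :: c :: u :: rest)
      = SanF x ((h * c⁻¹) :: ((⟨x ^ 2, hx⟩ : H)⁻¹ * c⁻¹ * (⟨x ^ 2, hx⟩ : H)⁻¹) :: (c⁻¹ * u) :: rest) := by
  simp only [SanF_cons]
  push_cast
  have h1 : (x * (c : G)) ^ 4 = 1 := h4 _
  have h2 : x * (c : G) * x = (c : G)⁻¹ * x⁻¹ * (c : G)⁻¹ * x⁻¹ * (c : G)⁻¹ := by
    have h3 : x * (c : G) * x * ((c : G) * x * (c : G) * x * (c : G)) = 1 := by
      rw [← h1]
      simp only [pow_succ, pow_zero, one_mul, mul_assoc]
    rw [eq_inv_of_mul_eq_one_left h3]
    group
  calc x * (h : G) * (x * (c : G) * (x * (u : G) * SanF x rest))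
      = x * (h : G) * (x * (c : G) * x) * ((u : G) * SanF x rest) := by group
    _ = x * (h : G) * ((c : G)⁻¹ * x⁻¹ * (c : G)⁻¹ * x⁻¹ * (c : G)⁻¹) * ((u : G) * SanF x rest) := by rw [h2]
    _ = _ := by group

private theorem San_moves {G : Type*} [Group G] (h4 : Exp4 G) {H : Subgroup G} (x : G) (hx : x ^ 2 ∈ H)
    (t : List H) : ∀ (h : H) (L : List H), L ≠ [] →
    ∃ L' : List H, L'.length = t.length + L.length ∧ SanF x (h :: (t ++ L)) = SanF x (SanC (h :: t) :: L') := by
  induction t with
  | nil =>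
    intro h L hL
    refine ⟨L, by simp, ?_⟩
    simp [SanC]
  | cons a t ih =>
    intro h L hL
    obtain ⟨L₁, hlen, heq⟩ := ih a L hL
    have hL₁ : L₁ ≠ [] := by
      rintro rfl
      rw [List.length_nil] at hlen
      have := List.length_pos_of_ne_nil hL
      omega
    obtain ⟨u, rest, rfl⟩ := List.exists_cons_of_ne_nil hL₁
    refine ⟨((⟨x ^ 2, hx⟩ : H)⁻¹ * (SanC (a :: t))⁻¹ * (⟨x ^ 2, hx⟩ : H)⁻¹) :: ((SanC (a :: t))⁻¹ * u) :: rest, ?_, ?_⟩
    · simp only [List.length_cons] at hlen ⊢
      omega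
    · rw [List.cons_append, SanF_cons, heq, ← SanF_cons, San_move h4 x hx]
      rfl

private theorem San_short {G : Type*} [Group G] (h4 : Exp4 G) {H : Subgroup G} (hH : Finite H) (x : G)
    (hx : x ^ 2 ∈ H) (w : List H) (hw : Nat.card H + 2 ≤ w.length) :
    ∃ w' : List H, w' ≠ [] ∧ w'.length < w.length ∧ SanF x w' = SanF x w := by
  obtain ⟨v0, w1, rfl⟩ := List.exists_cons_of_ne_nil (l := w) (by rintro rfl; simp at hw)
  rw [List.length_cons] at hw
  have hw1 : w1 ≠ [] := by
    rintro rfl
    simp at hw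
  obtain ⟨m, last, rfl⟩ : ∃ m last, w1 = m ++ [last] := ⟨w1.dropLast, w1.getLast hw1, (List.dropLast_append_getLast hw1).symm⟩
  rw [List.length_append, List.length_singleton] at hw
  obtain ⟨q, t, r, ht, hm, hc⟩ := San_pigeon m (by omega)
  obtain ⟨h, t', rfl⟩ := List.exists_cons_of_ne_nil ht
  obtain ⟨L', hlen, heq⟩ := San_moves h4 x hx t' h (r ++ [last]) (by simp)
  have hL' : L' ≠ [] := by
    rintro rfl
    simp at hlen
  obtain ⟨u, rest, rfl⟩ := List.exists_cons_of_ne_nil hL'
  -- the letter before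
  have hv : ∃ q' v, v0 :: q = q' ++ [v] :=
    ⟨(v0 :: q).dropLast, (v0 :: q).getLast (by simp), (List.dropLast_append_getLast (by simp)).symm⟩
  obtain ⟨q', v, hqv⟩ := hv
  refine ⟨q' ++ (v * ⟨x ^ 2, hx⟩ * u) :: rest, by simp, ?_, ?_⟩
  · have e1 := congrArg List.length hqv
    have e2 := congrArg List.length hm
    simp only [List.length_append, List.length_cons, List.length_nil] at e1 e2 hlen ⊢
    omega
  · have e3 : v0 :: (m ++ [last]) = q' ++ (v :: (h :: (t' ++ (r ++ [last])))) := by
      rw [hm]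
      calc v0 :: (q ++ h :: t' ++ r ++ [last]) = (v0 :: q) ++ (h :: (t' ++ (r ++ [last]))) := by simp
        _ = q' ++ [v] ++ (h :: (t' ++ (r ++ [last]))) := by rw [hqv]
        _ = q' ++ (v :: (h :: (t' ++ (r ++ [last])))) := by simp
    rw [e3, SanF_append, SanF_append, SanF_cons, SanF_cons x v, heq, hc, SanF_cons x 1, SanF_cons x u]
    push_cast
    simp only [pow_two, mul_assoc, one_mul]

private theorem San_norm {G : Type*} [Group G] (h4 : Exp4 G) {H : Subgroup G} (hH : Finite H) (x : G)
    (hx : x ^ 2 ∈ H) : ∀ n : ℕ, ∀ w : List H, w ≠ [] → w.length = n →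
      ∃ w' : List H, w' ≠ [] ∧ w'.length ≤ Nat.card H + 1 ∧ SanF x w' = SanF x w := by
  intro n
  induction n using Nat.strong_induction_on with
  | _ n ih =>
    intro w hw hn
    by_cases hle : w.length ≤ Nat.card H + 1
    · exact ⟨w, hw, hle, rfl⟩
    · obtain ⟨w', hw', hlt, heq⟩ := San_short h4 hH x hx w (by omega)
      obtain ⟨w'', h1, h2, h3⟩ := ih w'.length (by omega) w' hw' rfl
      exact ⟨w'', h1, h2, h3.trans heq⟩

private theorem San_word {G : Type*} [Group G] (h4 : Exp4 G) {H : Subgroup G} (x : G) {g : G}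
    (hg : g ∈ Subgroup.closure ((H : Set G) ∪ {x})) : ∃ w : List H, w ≠ [] ∧ x * g = SanF x w := by
  have hmul : ∀ g g' : G, (∃ w : List H, w ≠ [] ∧ x * g = SanF x w) → (∃ w : List H, w ≠ [] ∧ x * g' = SanF x w) →
      ∃ w : List H, w ≠ [] ∧ x * (g * g') = SanF x w := by
    rintro g g' ⟨w, hw, h1⟩ ⟨w', hw', h2⟩
    obtain ⟨a, v, rfl⟩ : ∃ a v, w = a ++ [v] := ⟨w.dropLast, w.getLast hw, (List.dropLast_append_getLast hw).symm⟩
    obtain ⟨u, b, rfl⟩ := List.exists_cons_of_ne_nil hw'
    refine ⟨a ++ (v * u) :: b, by simp, ?_⟩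
    rw [SanF_append, SanF_cons] at h1
    rw [SanF_cons] at h2
    rw [SanF_append, SanF_cons]
    have h3 : g' = u * SanF x b := by
      have : x * g' = x * (u * SanF x b) := by rw [h2, mul_assoc]
      exact mul_left_cancel this
    have h4' : SanF x ([] : List H) = 1 := by simp [SanF]
    rw [h4', mul_one] at h1
    rw [← mul_assoc, h1, h3]
    push_cast
    group
  induction hg using Subgroup.closure_induction with
  | mem g hg =>
    rcases hg with hg | hg
    · refine ⟨[⟨g, hg⟩], by simp, ?_⟩
      simp [SanF]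
    · rw [Set.mem_singleton_iff] at hg
      subst hg
      refine ⟨[1, 1], by simp, ?_⟩
      simp [SanF]
  | one =>
    refine ⟨[1], by simp, ?_⟩
    simp [SanF]
  | mul g g' _ _ ihg ihg' => exact hmul g g' ihg ihg'
  | inv g _ ihg =>
    have h1 : g⁻¹ = g * (g * g) := by
      have := h4 g
      rw [inv_eq_iff_mul_eq_one]
      rw [← this]
      simp only [pow_succ, pow_zero, one_mul, mul_assoc]
    rw [h1]
    exact hmul _ _ ihg (hmul _ _ ihg ihg)

/-- **One step.**  `G` of exponent 4, `H` a finite subgroup, `x^2 ∈ H`; then `⟨H, x⟩` is finite.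

PROOF.  (1) Every element of `⟨H,x⟩` has the form `h_0 x h_1 x ⋯ x h_n` with `h_i ∈ H` (`n ≥ 0`): the set of
such elements is closed under multiplication, contains `H` and `x = 1·x·1`, and contains `x⁻¹ = x · x⁻²`
(`x⁻² ∈ H`); use `Subgroup.closure_induction` / `closure (H ∪ {x})`.
(2) THE MOVE.  For `h ∈ H`, `(x h)^4 = 1` gives `x h x = h⁻¹ x⁻¹ h⁻¹ x⁻¹ h⁻¹` and `x⁻¹ = x x⁻² = x⁻² x`, so
  `x h x = h⁻¹ · x · (x⁻² h⁻¹ x⁻²) · x · h⁻¹`,   with `x⁻² h⁻¹ x⁻² ∈ H`.
Therefore in a word `h_0 x h_1 x ⋯ x h_n` one may, for any `1 ≤ j ≤ n-1`, replace `h_{j-1}` by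
`h_{j-1} h_j⁻¹`, `h_j` by `x⁻² h_j⁻¹ x⁻²`, `h_{j+1}` by `h_j⁻¹ h_{j+1}` without changing the element or `n`.
(3) For `g ∈ ⟨H,x⟩` let `n` be minimal such that `g` has a word with `n` letters `x`.  Then in no word
for `g` with `n` letters `x` is an interior letter `h_j` (`1 ≤ j ≤ n-1`) equal to `1` (otherwise
`h_{j-1} x 1 x h_{j+1} = h_{j-1} x² h_{j+1}` is one letter of `H` and the word becomes shorter by two).
For `1 ≤ i ≤ j ≤ n-1` define `c(j,j) = h_j`, `c(i,j) = h_i c(i+1,j)⁻¹`.  Applying the move at positions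
`j, j-1, ..., i+1` produces a word for `g` with the same `n` whose letter at position `i` is `c(i,j)`
(and the letters at positions `< i` are unchanged); so `c(i,j) ≠ 1` for all `1 ≤ i ≤ j ≤ n-1`.
If `c(1,j) = c(1,k)` with `j < k`, then cancelling `h_1, h_2, ...` successively
(`h_1 c(2,j)⁻¹ = h_1 c(2,k)⁻¹ ⇒ c(2,j) = c(2,k)`, ...) gives `c(j,j) = c(j,k)`, i.e.
`h_j = h_j c(j+1,k)⁻¹`, so `c(j+1,k) = 1`, contradiction.  So `c(1,1), ..., c(1,n-1)` are distinct elements of `H` different
from `1`, hence `n - 1 ≤ |H| - 1` and `n ≤ |H|`.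
(4) So every element of `⟨H,x⟩` is the product of a word with `n ≤ |H|`, and there are finitely many such words.

Suggestion for Lean: represent a word by `h : ℕ → H` and `n`, with value defined by recursion, or by a
`List H` with value `wv [h] = h`, `wv (h :: l) = h * x * wv l`. The `c(i,j)` statement is best proved in the form:
for all words `l = p ++ [h_i, ..., h_j] ++ s` with `s ≠ []`, `p ≠ []`, minimal for its value, `c ≠ 1`, by induction on
the length of the middle part (apply the move at the last letter of the middle part). -/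
theorem sanov_step {G : Type*} [Group G] (h4 : Exp4 G) (H : Subgroup G) (hH : Finite H)
    (x : G) (hx : x ^ 2 ∈ H) :
    Finite (Subgroup.closure ((H : Set G) ∪ {x})) := by
  have hfin : {l : List H | l.length ≤ Nat.card H + 1}.Finite := List.finite_length_le H _
  have himg := hfin.image (fun l => x⁻¹ * SanF x l)
  have hsub : ((Subgroup.closure ((H : Set G) ∪ {x}) : Subgroup G) : Set G) ⊆
      (fun l => x⁻¹ * SanF x l) '' {l : List H | l.length ≤ Nat.card H + 1} := by
    intro g hg
    obtain ⟨w, hw, h1⟩ := San_word h4 x hg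
    obtain ⟨w', _, h2, h3⟩ := San_norm h4 hH x hx _ w hw rfl
    refine ⟨w', h2, ?_⟩
    show x⁻¹ * SanF x w' = g
    rw [h3, ← h1, inv_mul_cancel_left]
  exact (himg.subset hsub).to_subtype

/-- **Sanov's theorem.**

PROOF.  Induction on the finite set `s`: empty set: trivial.  For `insert a s`: let
`H = closure s`, finite by induction.  Put `H1 = closure (H ∪ {a^2})`: finite by `sanov_step` because `(a^2)^2 = a^4 = 1 ∈ H`.
Put `H2 = closure (H1 ∪ {a})`: finite by `sanov_step` because `a^2 ∈ H1`.  `closure (insert a s) ≤ H2`; a subgroup of a finite group is finite. -/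
theorem sanov {G : Type*} [Group G] (h4 : Exp4 G) (s : Finset G) :
    Finite (Subgroup.closure (s : Set G)) := by
  classical
  induction s using Finset.induction_on with
  | empty =>
    rw [Finset.coe_empty, Subgroup.closure_empty]
    infer_instance
  | insert a s _ ih =>
    have hH1 := sanov_step h4 _ ih (a ^ 2) (by
      have : (a ^ 2) ^ 2 = 1 := by rw [← pow_mul]; exact h4 a
      rw [this]
      exact one_mem _)
    have hH2 := sanov_step h4 _ hH1 a (Subgroup.subset_closure (Or.inr rfl))
    have hle : Subgroup.closure ((insert a s : Finset G) : Set G) ≤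
        Subgroup.closure ((Subgroup.closure ((Subgroup.closure (s : Set G) : Set G) ∪ {a ^ 2}) : Set G) ∪ {a}) := by
      rw [Subgroup.closure_le]
      intro g hg
      rw [Finset.coe_insert] at hg
      rcases hg with hg | hg
      · subst hg
        exact Subgroup.subset_closure (Or.inr rfl)
      · exact Subgroup.subset_closure (Or.inl (Subgroup.subset_closure (Or.inl (Subgroup.subset_closure hg))))
    exact Finite.of_injective (Subgroup.inclusion hle) (Subgroup.inclusion_injective hle)

end E4
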