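import Pool.Agent.Lib.MP_8a95e3_al.SqN1
import Pool.Agent.Lib.MP_8a95e3_al.San

/-!
# SqN2 : the normal closure of a square is nilpotent of class at most 8
-/

open scoped commutatorElement

namespace E4

universe u

private theorem sq2_three {G : Type*} [Group G] (A B C N : Subgroup G) [N.Normal]
    (h1 : ⁅⁅B, C⁆, A⁆ ≤ N) (h2 : ⁅⁅C, A⁆, B⁆ ≤ N) : ⁅⁅A, B⁆, C⁆ ≤ N := by
  have key : ∀ P : Subgroup G, P.map (QuotientGroup.mk' N) = ⊥ ↔ P ≤ N := by
    intro P
    rw [Subgroup.map_eq_bot_iff, QuotientGroup.ker_mk']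
  rw [← key, Subgroup.map_commutator, Subgroup.map_commutator]
  rw [← key, Subgroup.map_commutator, Subgroup.map_commutator] at h1 h2
  exact Subgroup.commutator_commutator_eq_bot_of_rotate h1 h2

private theorem sq2_anti {G : Type*} [Group G] (K : Subgroup G) {m n : ℕ} (h : m ≤ n) :
    lcs K n ≤ lcs K m := by
  have h1 : ∀ n, lcs K n = K.lowerCentralSeries n := by
    intro n
    induction n with
    | zero => rfl
    | succ n ih =>
      change (⁅lcs K n, K⁆ : Subgroup G) = ⁅K.lowerCentralSeries n, K⁆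
      rw [ih]
  rw [h1, h1]
  exact K.lowerCentralSeries_antitone h

private theorem sq2_mono {G : Type*} [Group G] {K K' : Subgroup G} (h : K ≤ K') (n : ℕ) :
    lcs K n ≤ lcs K' n := by
  induction n with
  | zero => exact h
  | succ n ih => exact Subgroup.commutator_mono ih h

private theorem sq2_map {G G' : Type*} [Group G] [Group G'] (f : G →* G') (K : Subgroup G) (n : ℕ) :
    (lcs K n).map f = lcs (K.map f) n := by
  induction n with
  | zero => rfl
  | succ n ih =>
    change (⁅lcs K n, K⁆ : Subgroup G).map f = ⁅lcs (K.map f) n, K.map f⁆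
    rw [Subgroup.map_commutator, ih]

/-- the subgroup generated by the conjugates of `g ^ 2` by elements of `T` -/
private def sq2S {G : Type*} [Group G] (g : G) (T : Subgroup G) : Subgroup G :=
  Subgroup.closure {y | ∃ k ∈ T, y = k * g ^ 2 * k⁻¹}

private theorem sq2S_mono {G : Type*} [Group G] (g : G) {T T' : Subgroup G} (h : T ≤ T') :
    sq2S g T ≤ sq2S g T' :=
  Subgroup.closure_mono (by rintro y ⟨k, hk, rfl⟩; exact ⟨k, h hk, rfl⟩)

private theorem sq2_local {G : Type*} [Group G] (g : G) (n : ℕ) :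
    ∀ y ∈ lcs (Subgroup.normalClosure {g ^ 2}) n,
      ∃ s : Finset G, y ∈ lcs (sq2S g (Subgroup.closure (s : Set G))) n := by
  classical
  have hmono : ∀ (n : ℕ) (s t : Finset G), s ⊆ t →
      lcs (sq2S g (Subgroup.closure (s : Set G))) n
        ≤ lcs (sq2S g (Subgroup.closure (t : Set G))) n := fun n s t hst =>
    sq2_mono (sq2S_mono g (Subgroup.closure_mono (by exact_mod_cast hst))) n
  induction n with
  | zero =>
    intro y hy
    refine Subgroup.closure_induction
      (p := fun y _ => ∃ s : Finset G, y ∈ lcs (sq2S g (Subgroup.closure (s : Set G))) 0)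
      ?_ ?_ ?_ ?_ hy
    · intro y hy
      rw [Group.mem_conjugatesOfSet_iff] at hy
      obtain ⟨a, ha, hconj⟩ := hy
      rw [Set.mem_singleton_iff] at ha
      subst ha
      obtain ⟨k, rfl⟩ := isConj_iff.1 hconj
      exact ⟨{k}, Subgroup.subset_closure ⟨k, Subgroup.subset_closure (by simp), rfl⟩⟩
    · exact ⟨∅, Subgroup.one_mem _⟩
    · rintro a b _ _ ⟨s, hs⟩ ⟨t, ht⟩
      exact ⟨s ∪ t, Subgroup.mul_mem _ (hmono 0 s _ Finset.subset_union_left hs)
        (hmono 0 t _ Finset.subset_union_right ht)⟩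
    · rintro a _ ⟨s, hs⟩
      exact ⟨s, Subgroup.inv_mem _ hs⟩
  | succ n ih =>
    have ih0 : ∀ y ∈ Subgroup.normalClosure {g ^ 2},
        ∃ s : Finset G, y ∈ sq2S g (Subgroup.closure (s : Set G)) := by
      intro y hy
      refine Subgroup.closure_induction
        (p := fun y _ => ∃ s : Finset G, y ∈ sq2S g (Subgroup.closure (s : Set G)))
        ?_ ?_ ?_ ?_ hy
      · intro y hy
        rw [Group.mem_conjugatesOfSet_iff] at hy
        obtain ⟨a, ha, hconj⟩ := hy
        rw [Set.mem_singleton_iff] at ha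
        subst ha
        obtain ⟨k, rfl⟩ := isConj_iff.1 hconj
        exact ⟨{k}, Subgroup.subset_closure ⟨k, Subgroup.subset_closure (by simp), rfl⟩⟩
      · exact ⟨∅, Subgroup.one_mem _⟩
      · rintro a b _ _ ⟨s, hs⟩ ⟨t, ht⟩
        exact ⟨s ∪ t, Subgroup.mul_mem _ (hmono 0 s _ Finset.subset_union_left hs)
          (hmono 0 t _ Finset.subset_union_right ht)⟩
      · rintro a _ ⟨s, hs⟩
        exact ⟨s, Subgroup.inv_mem _ hs⟩
    intro y hy
    have hy' : y ∈ Subgroup.closure
        {z | ∃ a ∈ lcs (Subgroup.normalClosure {g ^ 2}) n,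
          ∃ b ∈ Subgroup.normalClosure {g ^ 2}, ⁅a, b⁆ = z} := hy
    refine Subgroup.closure_induction
      (p := fun y _ => ∃ s : Finset G, y ∈ lcs (sq2S g (Subgroup.closure (s : Set G))) (n + 1))
      ?_ ?_ ?_ ?_ hy'
    · rintro z ⟨a, ha, b, hb, rfl⟩
      obtain ⟨s, hs⟩ := ih a ha
      obtain ⟨t, ht⟩ := ih0 b hb
      exact ⟨s ∪ t, Subgroup.commutator_mem_commutator (hmono n s _ Finset.subset_union_left hs)
        (hmono 0 t _ Finset.subset_union_right ht)⟩
    · exact ⟨∅, Subgroup.one_mem _⟩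
    · rintro a b _ _ ⟨s, hs⟩ ⟨t, ht⟩
      exact ⟨s ∪ t, Subgroup.mul_mem _ (hmono (n + 1) s _ Finset.subset_union_left hs)
        (hmono (n + 1) t _ Finset.subset_union_right ht)⟩
    · rintro a _ ⟨s, hs⟩
      exact ⟨s, Subgroup.inv_mem _ hs⟩

/-- `⁅lcs K m, lcs K n⁆ ≤ lcs K (m+n+1)` for a normal subgroup `K` (three subgroups lemma).
PROOF: as for the lower central series (`lcs K n` is the image of `lowerCentralSeries ↥K n` under `K.subtype`; Mathlib may have the statement for `lowerCentralSeries`; otherwise induction on `n` with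
`Subgroup.commutator_commutator_eq_bot_of_rotate` modulo `lcs K (m+n+1)`, or directly the three subgroups lemma for normal subgroups). -/
theorem lcs_comm {G : Type u} [Group G] (K : Subgroup G) [K.Normal] (m n : ℕ) :
    ⁅lcs K m, lcs K n⁆ ≤ lcs K (m + n + 1) := by
  induction n generalizing m with
  | zero => exact le_rfl
  | succ n ih =>
    have hn : ∀ j, (lcs K j).Normal := fun j => itc_normal K K j
    have := hn (m + (n + 1) + 1)
    change ⁅lcs K m, ⁅lcs K n, K⁆⁆ ≤ lcs K (m + (n + 1) + 1)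
    rw [Subgroup.commutator_comm]
    refine sq2_three (lcs K n) K (lcs K m) _ ?_ ?_
    · rw [Subgroup.commutator_comm K (lcs K m)]
      have h1 := ih (m + 1)
      have h2 : m + 1 + n + 1 = m + (n + 1) + 1 := by omega
      rw [h2] at h1
      exact h1
    · have h1 : ⁅⁅lcs K m, lcs K n⁆, K⁆ ≤ ⁅lcs K (m + n + 1), K⁆ :=
        Subgroup.commutator_mono (ih m) le_rfl
      exact h1

/-- Finite case.
PROOF.  `S = normalClosure {g²}`; `G` is a finite 2-group so `S` is nilpotent: there is `n` with `lcs S n = ⊥`; let `n` be minimal.  Suppose `n ≥ 9`.  Let `k` be the least integer with `2k + 1 ≥ n`, i.e. `k = n / 2` (so `n ≤ 2k+1 ≤ n+1`), `B = lcs S k` is normal,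
and `⁅B,B⁆ ≤ lcs S (2k+1) ≤ lcs S n = ⊥` (`lcs_comm`).  By `ab_ssss` `lcs S (k+4) = itc B S 4 = ⊥`.  So `n ≤ k + 4 = n/2 + 4`, so `n ≤ 8`, a contradiction.  So `n ≤ 8` and `lcs S 8 = ⊥` (decreasing). -/
theorem sq_nil_fin {G : Type u} [Group G] [Finite G] (h4 : Exp4 G) (g : G) :
    lcs (Subgroup.normalClosure {g ^ 2}) 8 = ⊥ := by
  have hN : ∀ j, (lcs (Subgroup.normalClosure {g ^ 2}) j).Normal := fun j => itc_normal _ _ j
  have h2 : IsPGroup 2 G := fun x => ⟨2, by simpa using h4 x⟩
  have : Fact (Nat.Prime 2) := ⟨Nat.prime_two⟩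
  have hnil : Group.IsNilpotent G := h2.isNilpotent
  obtain ⟨n₀, hn₀⟩ := Subgroup.nilpotent_iff_lowerCentralSeries.1 hnil
  have hex : ∃ n, lcs (Subgroup.normalClosure {g ^ 2}) n = ⊥ := by
    refine ⟨n₀, ?_⟩
    rw [eq_bot_iff, ← hn₀]
    have h3 : ∀ j, lcs (Subgroup.normalClosure {g ^ 2}) j ≤ Subgroup.lowerCentralSeries ⊤ j := by
      intro j
      induction j with
      | zero => exact le_top
      | succ j ih => exact Subgroup.commutator_mono ih le_top
    exact h3 n₀
  classical
  have hspec := Nat.find_spec hex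
  have hmin : ∀ m, lcs (Subgroup.normalClosure {g ^ 2}) m = ⊥ → Nat.find hex ≤ m :=
    fun m hm => Nat.find_min' hex hm
  generalize Nat.find hex = n at hspec hmin
  have hle8 : n ≤ 8 := by
    by_contra hcon
    have h5 : ⁅lcs (Subgroup.normalClosure {g ^ 2}) (n / 2),
        lcs (Subgroup.normalClosure {g ^ 2}) (n / 2)⁆ = ⊥ := by
      rw [eq_bot_iff, ← hspec]
      exact (lcs_comm _ _ _).trans (sq2_anti _ (by omega))
    have := hN (n / 2)
    have h6 := ab_ssss h4 (lcs (Subgroup.normalClosure {g ^ 2}) (n / 2)) h5 g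
    have h7 := hmin (n / 2 + 4) (by unfold lcs; rw [itc_add]; exact h6)
    omega
  rw [eq_bot_iff, ← hspec]
  exact sq2_anti _ hle8

/-- **General case.**
PROOF.  `lcs S 8` is generated (as `S = normalClosure` is normal; by induction on `n`) — it is enough to show: for every element `y ∈ lcs S 8` there is a finitely generated subgroup `G₁ ∋ g` of `G` with
`y ∈` the image of `lcs (normalClosure_{G₁} {g²}) 8`; then `G₁` is finite by `sanov`, so `y = 1` by `sq_nil_fin`.
Local statement (by induction on `n`): for all `y ∈ lcs S n` there is a finite set `s ⊆ G` such that for every finite set `s' ⊇ s` (`g ∈ s`) `y` is in the image in `G` of `lcs (normalClosure_{G₁} {g²}) n`, `G₁ = closure s'`.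
`n = 0`: `y` is a product of conjugates `k g^{±2} k⁻¹` (closure induction on `normalClosure = closure (conjugatesOfSet)`): take `s = {g} ∪ {k's}`.
`n+1`: `y` is a product of `⁅a,b⁆^{±1}` with `a ∈ lcs S n`, `b ∈ S` (closure induction): take the union of the finite sets. -/
theorem sq_nil {G : Type u} [Group G] (h4 : Exp4 G) (g : G) :
    lcs (Subgroup.normalClosure {g ^ 2}) 8 = ⊥ := by
  classical
  rw [eq_bot_iff]
  intro y hy
  obtain ⟨s, hs⟩ := sq2_local g 8 y hy
  have hfin : Finite (Subgroup.closure ((insert g s : Finset G) : Set G)) := sanov h4 (insert g s)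
  have hg : g ∈ Subgroup.closure ((insert g s : Finset G) : Set G) :=
    Subgroup.subset_closure (by simp)
  have h4' : Exp4 (Subgroup.closure ((insert g s : Finset G) : Set G)) := by
    intro x
    ext
    rw [Subgroup.coe_pow, Subgroup.coe_one]
    exact h4 x
  have h8 := sq_nil_fin h4' (⟨g, hg⟩ : Subgroup.closure ((insert g s : Finset G) : Set G))
  have h9 : sq2S g (Subgroup.closure ((insert g s : Finset G) : Set G))
      ≤ (Subgroup.normalClosure
          {(⟨g, hg⟩ : Subgroup.closure ((insert g s : Finset G) : Set G)) ^ 2}).map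
        (Subgroup.closure ((insert g s : Finset G) : Set G)).subtype := by
    unfold sq2S
    rw [Subgroup.closure_le]
    rintro z ⟨k, hk, rfl⟩
    exact ⟨⟨k, hk⟩ * ⟨g, hg⟩ ^ 2 * ⟨k, hk⟩⁻¹,
      Subgroup.normalClosure_normal.conj_mem _
        (Subgroup.subset_normalClosure (Set.mem_singleton _)) _, rfl⟩
  have h10 : y ∈ lcs (sq2S g (Subgroup.closure ((insert g s : Finset G) : Set G))) 8 :=
    sq2_mono (sq2S_mono g (Subgroup.closure_mono (by simp))) 8 hs
  have h11 := sq2_mono h9 8 h10
  rw [← sq2_map, h8, Subgroup.map_bot] at h11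
  exact h11

end E4
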