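import Pool.Agent.Lib.MP_8a95e3_al.NArg1
import Pool.Agent.Lib.MP_8a95e3_al.SqN2

/-!
# NArg2 : the N-argument
-/

open scoped commutatorElement

namespace E4

/-- `Φ(B) = B' B²` (as a subgroup of `G`). -/
def phi {G : Type*} [Group G] (B : Subgroup G) : Subgroup G :=
  ⁅B, B⁆ ⊔ Subgroup.closure {y | ∃ b ∈ B, y = b ^ 2}

/-- PROOF: both parts are normal; monotone. -/
theorem phi_normal {G : Type*} [Group G] (B : Subgroup G) [B.Normal] : (phi B).Normal := by
  have h1 : (Subgroup.closure {y | ∃ b ∈ B, y = b ^ 2}).Normal := by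
    constructor
    intro n hn g
    induction hn using Subgroup.closure_induction with
    | mem y hy =>
      obtain ⟨b, hb, rfl⟩ := hy
      apply Subgroup.subset_closure
      refine ⟨g * b * g⁻¹, ‹B.Normal›.conj_mem b hb g, ?_⟩
      rw [pow_two, pow_two]
      group
    | one =>
      have e : g * 1 * g⁻¹ = 1 := by group
      rw [e]
      exact Subgroup.one_mem _
    | mul a b _ _ ha hb =>
      have e : g * (a * b) * g⁻¹ = (g * a * g⁻¹) * (g * b * g⁻¹) := by group
      rw [e]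
      exact Subgroup.mul_mem _ ha hb
    | inv a _ ha =>
      have e : g * a⁻¹ * g⁻¹ = (g * a * g⁻¹)⁻¹ := by group
      rw [e]
      exact Subgroup.inv_mem _ ha
  unfold phi
  exact Subgroup.sup_normal _ _

theorem phi_mono {G : Type*} [Group G] {B B' : Subgroup G} (h : B ≤ B') : phi B ≤ phi B' := by
  refine sup_le_sup (Subgroup.commutator_mono h h) (Subgroup.closure_mono ?_)
  rintro y ⟨b, hb, rfl⟩
  exact ⟨b, h hb, rfl⟩

theorem phi_le {G : Type*} [Group G] (B : Subgroup G) : phi B ≤ B := by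
  refine sup_le ?_ ?_
  · rw [Subgroup.commutator_le]
    intro a ha b hb
    rw [commutatorElement_def]
    exact B.mul_mem (B.mul_mem (B.mul_mem ha hb) (B.inv_mem ha)) (B.inv_mem hb)
  · rw [Subgroup.closure_le]
    rintro y ⟨b, hb, rfl⟩
    exact B.pow_mem hb 2

private theorem NArg2_sq {G : Type*} [Group G] (B : Subgroup G) [B.Normal] {y : G} (hy : y ∈ phi B) :
    ∃ b ∈ B, ((y : G) : G ⧸ ⁅B, B⁆) = ((b : G) : G ⧸ ⁅B, B⁆) ^ 2 := by
  have hcomm : ∀ a ∈ B, ∀ b ∈ B, ((a : G) : G ⧸ ⁅B, B⁆) * ((b : G) : G ⧸ ⁅B, B⁆)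
      = ((b : G) : G ⧸ ⁅B, B⁆) * ((a : G) : G ⧸ ⁅B, B⁆) := by
    intro a ha b hb
    rw [← QuotientGroup.mk_mul, ← QuotientGroup.mk_mul, QuotientGroup.eq]
    have e : (a * b)⁻¹ * (b * a) = ⁅b⁻¹, a⁻¹⁆ := by
      rw [commutatorElement_def]
      group
    rw [e]
    exact Subgroup.commutator_mem_commutator (B.inv_mem hb) (B.inv_mem ha)
  let K : Subgroup G :=
    { carrier := {y | ∃ b ∈ B, ((y : G) : G ⧸ ⁅B, B⁆) = ((b : G) : G ⧸ ⁅B, B⁆) ^ 2}
      mul_mem' := by
        rintro y z ⟨b, hb, e1⟩ ⟨c, hc, e2⟩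
        refine ⟨b * c, B.mul_mem hb hc, ?_⟩
        rw [QuotientGroup.mk_mul, QuotientGroup.mk_mul, e1, e2]
        exact (Commute.mul_pow (hcomm b hb c hc) 2).symm
      one_mem' := ⟨1, B.one_mem, by rw [QuotientGroup.mk_one, one_pow]⟩
      inv_mem' := by
        rintro y ⟨b, hb, e1⟩
        refine ⟨b⁻¹, B.inv_mem hb, ?_⟩
        rw [QuotientGroup.mk_inv, QuotientGroup.mk_inv, e1, inv_pow] }
  have hle : phi B ≤ K := by
    refine sup_le ?_ ?_
    · intro z hz
      refine ⟨1, B.one_mem, ?_⟩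
      rw [QuotientGroup.mk_one, one_pow, QuotientGroup.eq_one_iff]
      exact hz
    · rw [Subgroup.closure_le]
      rintro z ⟨b, hb, rfl⟩
      exact ⟨b, hb, by rw [QuotientGroup.mk_pow]⟩
  exact hle hy

/-- In exponent 4: `Φ(Φ(B)) ≤ B'`. PROOF: modulo the normal subgroup `⁅B,B⁆` (of `B`; or of `G` if `B` is normal) the group `B` is abelian, so `Φ(B) ≡ {b²}`; commutators in `Φ(B)` are in `B'`, and squares of elements of `Φ(B)`:
an element of `Φ(B)` is `b² c` with `c ∈ B'`, its square is `≡ b⁴ = 1` modulo `B'`. -/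
theorem phi_phi {G : Type*} [Group G] (h4 : Exp4 G) (B : Subgroup G) [B.Normal] :
    phi (phi B) ≤ ⁅B, B⁆ := by
  refine sup_le (Subgroup.commutator_mono (phi_le B) (phi_le B)) ?_
  rw [Subgroup.closure_le]
  rintro z ⟨y, hy, rfl⟩
  obtain ⟨b, hb, e⟩ := NArg2_sq B hy
  change y ^ 2 ∈ ⁅B, B⁆
  rw [← QuotientGroup.eq_one_iff, QuotientGroup.mk_pow, e, ← pow_mul, ← QuotientGroup.mk_pow, h4 b,
    QuotientGroup.mk_one]

private theorem NArg2_iterN {G : Type*} [Group G] (S : Subgroup G) [S.Normal] (i : ℕ) :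
    (phi^[i] S).Normal := by
  induction i with
  | zero => exact ‹S.Normal›
  | succ i ih =>
    rw [Function.iterate_succ_apply']
    exact phi_normal _

private theorem NArg2_anti {G : Type*} [Group G] (S : Subgroup G) [S.Normal] {i j : ℕ} (h : i ≤ j) :
    lcs S j ≤ lcs S i := by
  induction j, h using Nat.le_induction with
  | base => exact le_rfl
  | succ j _ ih => exact le_trans (lcs_succ_le S j) ih

/-- iterates of `Φ` on `S`: `Φ^8(S) = ⊥` if `S` is normal with `lcs S 8 = ⊥`.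
PROOF.  By `phi_phi` and `phi_mono`, `Φ^{2i}(S) ≤ D_i` where `D_0 = S`, `D_{i+1} = ⁅D_i,D_i⁆`; and `D_i ≤ lcs S (2^i - 1)` by `lcs_comm`: `D_{i+1} ≤ ⁅lcs S (2^i-1), lcs S (2^i-1)⁆ ≤ lcs S (2^{i+1}-1)`; so `D_4 ≤ lcs S 15 ≤ lcs S 8 = ⊥`. -/
theorem phi_iter {G : Type} [Group G] (h4 : Exp4 G) (S : Subgroup G) [S.Normal]
    (hS : lcs S 8 = ⊥) : phi^[8] S = ⊥ := by
  have hN : ∀ i, (phi^[i] S).Normal := NArg2_iterN S
  have key : ∀ i, phi^[2 * i] S ≤ lcs S (2 ^ i - 1) := by
    intro i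
    induction i with
    | zero => exact le_of_eq rfl
    | succ i ih =>
      have e : phi^[2 * (i + 1)] S = phi (phi (phi^[2 * i] S)) := by
        have e2 : 2 * (i + 1) = (2 * i + 1) + 1 := by ring
        rw [e2, Function.iterate_succ_apply', Function.iterate_succ_apply']
      have hn : (phi^[2 * i] S).Normal := hN (2 * i)
      rw [e]
      refine le_trans (phi_phi h4 _) (le_trans (Subgroup.commutator_mono ih ih) ?_)
      refine le_trans (lcs_comm S _ _) (le_of_eq ?_)
      have e3 : 2 ^ i - 1 + (2 ^ i - 1) + 1 = 2 ^ (i + 1) - 1 := by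
        have hp : 1 ≤ 2 ^ i := Nat.one_le_two_pow
        rw [pow_succ]
        omega
      rw [e3]
  have h8 := key 4
  have hdec : lcs S 15 ≤ lcs S 8 := NArg2_anti S (by norm_num)
  rw [eq_bot_iff]
  exact le_trans h8 (le_trans hdec hS.le)

/-- `[x², G', ..., G'] = 1` (`8m` times).
PROOF. Let `S = normalClosure {g²}`, `S_i = Φ^i(S)`; `itc S_i G' m ≤ S_{i+1}` by `sec_m` (`⁅S_i,S_i⁆ ≤ Φ(S_i)`, squares in `Φ(S_i)`).  So `itc S G' (8m) ≤ S_8 = ⊥` (`itc_add`, `itc_mono`; `sq_nil` for `lcs S 8 = ⊥`). -/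
theorem sq_m {G : Type} [Group G] (h4 : Exp4 G) {m : ℕ}
    (hw : ∀ (R : Type) [Ring R] (ρ : F →* R), Cub ρ → (∀ w : F, (∀ f : F →* G, f w = 1) → ρ w = 1) →
      wA ρ m = 0) (g : G) :
    itc (Subgroup.normalClosure {g ^ 2}) (commutator G) (8 * m) = ⊥ := by
  have hN : ∀ i, (phi^[i] (Subgroup.normalClosure {g ^ 2})).Normal :=
    NArg2_iterN (Subgroup.normalClosure {g ^ 2})
  have key : ∀ i, itc (Subgroup.normalClosure {g ^ 2}) (commutator G) (i * m)
      ≤ phi^[i] (Subgroup.normalClosure {g ^ 2}) := by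
    intro i
    induction i with
    | zero =>
      rw [zero_mul]
      exact le_of_eq rfl
    | succ i ih =>
      have h1 : (phi^[i] (Subgroup.normalClosure {g ^ 2})).Normal := hN i
      have h2 : (phi (phi^[i] (Subgroup.normalClosure {g ^ 2}))).Normal := phi_normal _
      rw [add_mul, one_mul, itc_add, Function.iterate_succ_apply']
      refine le_trans (itc_mono ih m) ?_
      refine sec_m h4 hw _ _ le_sup_left ?_
      intro b hb
      exact (le_sup_right : Subgroup.closure {y | ∃ b ∈ phi^[i] (Subgroup.normalClosure {g ^ 2}), y = b ^ 2} ≤ _)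
        (Subgroup.subset_closure ⟨b, hb, rfl⟩)
  rw [eq_bot_iff]
  exact le_trans (key 8) (phi_iter h4 _ (sq_nil h4 g)).le

private def NArg2_S {G : Type*} [Group G] (K : Subgroup G) [K.Normal] (Z : {Z : Subgroup G // Z.Normal}) :
    {Z : Subgroup G // Z.Normal} :=
  ⟨{ carrier := {z | ∀ c ∈ K, ⁅z, c⁆ ∈ Z.1}
     mul_mem' := by
       intro a b ha hb c hc
       have e : ⁅a * b, c⁆ = a * ⁅b, c⁆ * a⁻¹ * ⁅a, c⁆ := by
         rw [commutatorElement_def, commutatorElement_def, commutatorElement_def]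
         group
       rw [e]
       exact Z.1.mul_mem (Z.2.conj_mem _ (hb c hc) a) (ha c hc)
     one_mem' := by
       intro c _
       rw [commutatorElement_one_left]
       exact Z.1.one_mem
     inv_mem' := by
       intro a ha c hc
       have e : ⁅a⁻¹, c⁆ = a⁻¹ * ⁅a, c⁆⁻¹ * (a⁻¹)⁻¹ := by
         rw [commutatorElement_def, commutatorElement_def]
         group
       rw [e]
       exact Z.2.conj_mem _ (Z.1.inv_mem (ha c hc)) _ },
   by
     constructor
     intro z hz g c hc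
     have e : ⁅g * z * g⁻¹, c⁆ = g * ⁅z, g⁻¹ * c * (g⁻¹)⁻¹⁆ * g⁻¹ := by
       rw [commutatorElement_def, commutatorElement_def]
       group
     rw [e]
     exact Z.2.conj_mem _ (hz _ (‹K.Normal›.conj_mem c hc g⁻¹)) g⟩

private def NArg2_Y {G : Type*} [Group G] (K : Subgroup G) [K.Normal] : ℕ → {Z : Subgroup G // Z.Normal}
  | 0 => ⟨⊥, inferInstance⟩
  | n + 1 => NArg2_S K (NArg2_Y K n)

private def NArg2_Z {G : Type*} [Group G] (K : Subgroup G) [K.Normal] (n : ℕ) : Subgroup G :=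
  (NArg2_Y K n).1

private theorem NArg2_Z_normal {G : Type*} [Group G] (K : Subgroup G) [K.Normal] (n : ℕ) :
    (NArg2_Z K n).Normal := (NArg2_Y K n).2

private theorem NArg2_Z_succ {G : Type*} [Group G] (K : Subgroup G) [K.Normal] (n : ℕ) (z : G) :
    z ∈ NArg2_Z K (n + 1) ↔ ∀ c ∈ K, ⁅z, c⁆ ∈ NArg2_Z K n := Iff.rfl

/-- If all squares `g²` of a group satisfy `itc (normalClosure {g²}) G' n = ⊥` then `lcs G' n = ⊥`.
PROOF.  Define `Z_0 = ⊥`, `Z_{j+1} = {z : G | ∀ c ∈ G', ⁅z,c⁆ ∈ Z_j}`; by induction `Z_j` is a normal subgroup of `G` (`Z_{j+1}` is the preimage of the centraliser of the image of `G'` in `G ⧸ Z_j`; or check directly: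
`⁅z z', c⁆ = z⁅z',c⁆z⁻¹ · ⁅z,c⁆`).  For a normal subgroup `N` with `itc N G' n = ⊥` one has `N ≤ Z_n`: by induction `itc N G' (n-j) ≤ Z_j`.  So `g² ∈ Z_n` for all `g`; `G ⧸ Z_n` has exponent 2 so it is abelian, so
`G' ≤ Z_n`.  And `itc Z_j G' j = ⊥` (`⁅Z_{j+1}, G'⁆ ≤ Z_j`), so `lcs G' n = itc G' G' n ≤ itc Z_n G' n = ⊥`. -/
theorem lcs_of_sq {G : Type} [Group G] (n : ℕ)
    (h : ∀ g : G, itc (Subgroup.normalClosure {g ^ 2}) (commutator G) n = ⊥) :
    lcs (commutator G) n = ⊥ := by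
  have hle : ∀ g : G, g ^ 2 ∈ NArg2_Z (commutator G) n := by
    intro g
    have key : ∀ j, j ≤ n → itc (Subgroup.normalClosure {g ^ 2}) (commutator G) (n - j)
        ≤ NArg2_Z (commutator G) j := by
      intro j
      induction j with
      | zero =>
        intro _
        rw [Nat.sub_zero, h g]
        exact bot_le
      | succ j ih =>
        intro hj z hz
        rw [NArg2_Z_succ]
        intro c hc
        apply ih (by omega)
        have e : n - j = (n - (j + 1)) + 1 := by omega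
        rw [e]
        exact Subgroup.commutator_mem_commutator hz hc
    have h1 := key n le_rfl
    rw [Nat.sub_self] at h1
    exact h1 (Subgroup.subset_normalClosure rfl)
  have hN : (NArg2_Z (commutator G) n).Normal := NArg2_Z_normal _ n
  have hK : commutator G ≤ NArg2_Z (commutator G) n := by
    refine le_trans (le_of_eq (commutator_def G)) ?_
    rw [Subgroup.commutator_le]
    intro a _ b _
    have e : ⁅a, b⁆ = (a * b) ^ 2 * (b⁻¹ * (a ^ 2)⁻¹ * (b⁻¹)⁻¹) * (b ^ 2)⁻¹ := by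
      rw [commutatorElement_def, pow_two, pow_two, pow_two]
      group
    rw [e]
    refine Subgroup.mul_mem _ (Subgroup.mul_mem _ (hle _) ?_) (Subgroup.inv_mem _ (hle _))
    exact hN.conj_mem _ (Subgroup.inv_mem _ (hle a)) _
  have hZ : ∀ j, itc (NArg2_Z (commutator G) j) (commutator G) j ≤ ⊥ := by
    intro j
    induction j with
    | zero => exact le_of_eq rfl
    | succ j ih =>
      rw [Nat.add_comm j 1, itc_add]
      refine le_trans (itc_mono ?_ j) ih
      change ⁅itc (NArg2_Z (commutator G) (1 + j)) (commutator G) 0, commutator G⁆ ≤ _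
      rw [Subgroup.commutator_le]
      intro z hz c hc
      have hz' : z ∈ NArg2_Z (commutator G) (j + 1) := by
        rw [Nat.add_comm j 1]
        exact hz
      rw [NArg2_Z_succ] at hz'
      exact hz' c hc
  rw [eq_bot_iff]
  exact le_trans (itc_mono hK n) (hZ n)

/-- **N-argument.**  `V` verbal; if for some `m` `wA ρ m = 0` in all cubic representations of `F` trivial on `V`, then `V` is soluble.

PROOF.  `V` is normal (conjugations are endomorphisms).  `G = F ⧸ V` has exponent 4.  If `w : F` is killed by all `f : F →* G` then in particular `mk w = 1`, i.e. `w ∈ V`; conversely, if `w ∈ V`, then `f w = 1` for all `f : F →* G` (lift `f` to an endomorphism `φ` of `F`,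
`mk ∘ φ = f`, and `φ w ∈ V`).  So the hypothesis `hw` of `sq_m` holds: if `∀ w, (∀ f : F →* G, f w = 1) → ρ w = 1` then `ρ v = 1` for `v ∈ V`.  By `sq_m`, `lcs_of_sq`: `lcs (commutator G) (8m) = ⊥`, so `commutator G` is nilpotent hence soluble: `derivedSeries G (i+1) ≤ lcs (commutator G) i`
by induction, so `derivedSeries G (8m+1) = ⊥`, and `derivedSeries F (8m+1) ≤ V`. -/
theorem narg (V : Subgroup F) (hV : Verb4 V) (m : ℕ)
    (hw : ∀ (R : Type) [Ring R] (ρ : F →* R), Cub ρ → (∀ v ∈ V, ρ v = 1) → wA ρ m = 0) :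
    Sol V := by
  have hn : V.Normal := by
    constructor
    intro w hw' g
    exact hV.endo (MulAut.conj g).toMonoidHom w hw'
  have h4 : Exp4 (F ⧸ V) := by
    intro g
    obtain ⟨w, rfl⟩ := QuotientGroup.mk_surjective g
    rw [← QuotientGroup.mk_pow, QuotientGroup.eq_one_iff]
    exact hV.four w
  have hf : ∀ v ∈ V, ∀ f : F →* (F ⧸ V), f v = 1 := by
    intro v hv f
    choose y hy using fun i : ℕ => QuotientGroup.mk_surjective (f (FreeGroup.of i))
    have e : (QuotientGroup.mk' V).comp (FreeGroup.lift y) = f := by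
      refine FreeGroup.ext_hom _ _ fun i => ?_
      rw [MonoidHom.comp_apply, FreeGroup.lift_apply_of]
      exact hy i
    rw [← e, MonoidHom.comp_apply]
    exact (QuotientGroup.eq_one_iff _).mpr (hV.endo _ v hv)
  have hw' : ∀ (R : Type) [Ring R] (ρ : F →* R), Cub ρ →
      (∀ w : F, (∀ f : F →* (F ⧸ V), f w = 1) → ρ w = 1) → wA ρ m = 0 := by
    intro R _ ρ hc hρ
    exact hw R ρ hc fun v hv => hρ v (hf v hv)
  have hl : lcs (commutator (F ⧸ V)) (8 * m) = ⊥ :=
    lcs_of_sq (8 * m) fun g => sq_m h4 hw' g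
  have hd : ∀ i, derivedSeries (F ⧸ V) (i + 1) ≤ lcs (commutator (F ⧸ V)) i := by
    intro i
    induction i with
    | zero =>
      rw [zero_add, derivedSeries_one]
      exact le_of_eq rfl
    | succ i ih =>
      rw [derivedSeries_succ]
      change _ ≤ ⁅lcs (commutator (F ⧸ V)) i, commutator (F ⧸ V)⁆
      refine Subgroup.commutator_mono ih ?_
      refine le_trans (derivedSeries_antitone (F ⧸ V) (show 1 ≤ i + 1 by omega)) ?_
      rw [derivedSeries_one]
  refine ⟨8 * m + 1, fun y hy => ?_⟩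
  have h1 : (QuotientGroup.mk' V) y ∈ derivedSeries (F ⧸ V) (8 * m + 1) :=
    map_derivedSeries_le_derivedSeries (QuotientGroup.mk' V) _ (Subgroup.mem_map_of_mem _ hy)
  have h2 := hd (8 * m) h1
  rw [hl, Subgroup.mem_bot] at h2
  exact (QuotientGroup.eq_one_iff y).mp h2

end E4
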