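import Pool.Agent.Lib.MP_8a95e3_al.J09a

/-!
# ND : definitions for Theorem D (finite generation over the elementary abelian group)
-/

namespace E4.N

open E4.J

/-- The elementary abelian group on the letters. -/
abbrev A2 : Type := ℕ →₀ ZMod 2

/-- The basis: a label, `t + 1` vectors (the vector number `0` is the coefficient), an index. -/
abbrev BT (s t : ℕ) : Type := Fin s × (Fin (t + 1) → A2) × ℕ

/-- The free module on the basis. -/
abbrev QT (s t : ℕ) : Type := BT s t →₀ ZMod 4

/-- Insertion of a zero column at the place `p`. -/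
noncomputable def zV (p : ℕ) (a : A2) : A2 := a.mapDomain (sp p)

/-- The entry `k` is added to the entry `p`. -/
noncomputable def cV (k p : ℕ) (a : A2) : A2 := a + Finsupp.single p (a k)

variable {s t : ℕ}

noncomputable def zT (p : ℕ) (b : BT s t) : BT s t := (b.1, fun i => zV p (b.2.1 i), sp p b.2.2)

noncomputable def cT (k p : ℕ) (b : BT s t) : BT s t := (b.1, fun i => cV k p (b.2.1 i), b.2.2)

/-- The second term. -/
noncomputable def eT (k p : ℕ) (b : BT s t) : BT s t :=
  (b.1, fun i => if i = 0 then cV k p (b.2.1 i) + Finsupp.single k 1 else cV k p (b.2.1 i), p)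

noncomputable def opZ (p : ℕ) : QT s t →ₗ[ZMod 4] QT s t := Finsupp.lmapDomain (ZMod 4) (ZMod 4) (zT p)

noncomputable def opC (k p : ℕ) : QT s t →ₗ[ZMod 4] QT s t :=
  Finsupp.linearCombination (ZMod 4) fun b : BT s t => Finsupp.single (cT k p b) 1 +
    if b.2.2 = k then Finsupp.single (eT k p b) 1 else 0

/-- The operator of a move. -/
noncomputable def opt (m : Mv) : QT s t →ₗ[ZMod 4] QT s t :=
  match m with
  | (none, p) => opZ p
  | (some k, p) => (opC k p).comp (opZ p)

/-- The first term of a move. -/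
noncomputable def stt (m : Mv) (b : BT s t) : BT s t :=
  match m with
  | (none, p) => zT p b
  | (some k, p) => cT k p (zT p b)

/-- The levels. -/
def levt (s t n : ℕ) : Set (BT s t) := {b | b.2.2 < n ∧ ∀ i q, n ≤ q → b.2.1 i q = 0}

/-- The column `q`. -/
def colt (q : ℕ) (b : BT s t) : List ℕ := List.ofFn fun i => (b.2.1 i q).val

/-- The order on the basis: a smaller index is bigger. -/
def bltt (b b' : BT s t) : Prop :=
  b.1 < b'.1 ∨ (b.1 = b'.1 ∧ (b'.2.2 < b.2.2 ∨ (b.2.2 = b'.2.2 ∧
    ∃ q, (∀ r < q, colt r b = colt r b') ∧ lx (colt q b) (colt q b'))))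

/-- The letters. -/
abbrev Lt (t : ℕ) : Type := (Fin (t + 1) → ZMod 2) × Bool

def ltcol (a : Lt t) : Fin (t + 1) → ZMod 2 := a.1

def ltunm (a : Lt t) : Prop := a.2 = false

/-- The letter number `q` of the word of `b`. -/
def lett (b : BT s t) (q : ℕ) : Lt t := (fun i => b.2.1 i q, decide (b.2.2 = q))

/-- The word of `b`. -/
def enct (n : ℕ) (b : BT s t) : List (Lt t) := (List.range n).map (lett b)

end E4.N
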