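import Pool.Agent.Lib.MP_8a95e3_al.ND
import Pool.Agent.Lib.MP_8a95e3_al.J09b

/-!
# ND1 : the order, the levels and the moves
-/

namespace E4.N

open E4.J

variable {s t : ℕ}

theorem colt_length (q : ℕ) (b : BT s t) : (colt q b).length = t + 1 := by
  unfold colt
  rw [List.length_ofFn]

theorem colt_inj {q : ℕ} {b b' : BT s t} (h : colt q b = colt q b') (i : Fin (t + 1)) :
    b.2.1 i q = b'.2.1 i q := by
  have h1 := List.ofFn_injective h
  exact ZMod.val_injective 2 (congrFun h1 i)

theorem bltt_irrefl (b : BT s t) : ¬ bltt b b := by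
  rintro (h | ⟨-, h | ⟨-, q, -, h⟩⟩)
  · exact lt_irrefl _ h
  · exact lt_irrefl _ h
  · exact lx_irrefl _ h

theorem bltt_trans {a b c : BT s t} (h : bltt a b) (h' : bltt b c) : bltt a c := by
  rcases h with h | ⟨h1, h⟩
  · rcases h' with h' | ⟨h2, -⟩
    · exact Or.inl (h.trans h')
    · exact Or.inl (h2 ▸ h)
  · rcases h' with h' | ⟨h2, h'⟩
    · exact Or.inl (h1 ▸ h')
    · refine Or.inr ⟨h1.trans h2, ?_⟩
      rcases h with h | ⟨h3, q, hq, hl⟩
      · rcases h' with h' | ⟨h4, -⟩
        · exact Or.inl (h'.trans h)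
        · exact Or.inl (h4 ▸ h)
      · rcases h' with h' | ⟨h4, q', hq', hl'⟩
        · exact Or.inl (h3 ▸ h')
        · refine Or.inr ⟨h3.trans h4, ?_⟩
          rcases lt_trichotomy q q' with hqq | hqq | hqq
          · refine ⟨q, fun r hr => (hq r hr).trans (hq' r (hr.trans hqq)), ?_⟩
            rw [← hq' q hqq]
            exact hl
          · subst hqq
            exact ⟨q, fun r hr => (hq r hr).trans (hq' r hr), lx_trans hl hl'⟩
          · refine ⟨q', fun r hr => (hq r (hr.trans hqq)).trans (hq' r hr), ?_⟩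
            rw [hq q' hqq]
            exact hl'

theorem bltt_tri (b b' : BT s t) : bltt b b' ∨ b = b' ∨ bltt b' b := by
  classical
  rcases lt_trichotomy b.1 b'.1 with h | h | h
  · exact Or.inl (Or.inl h)
  · rcases lt_trichotomy b.2.2 b'.2.2 with h2 | h2 | h2
    · exact Or.inr (Or.inr (Or.inr ⟨h.symm, Or.inl h2⟩))
    · by_cases hc : ∀ q, colt q b = colt q b'
      · refine Or.inr (Or.inl (Prod.ext h (Prod.ext ?_ h2)))
        funext i
        ext q
        exact colt_inj (hc q) i
      · push Not at hc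
        have hm : ∀ m, m < Nat.find hc → ¬ (colt m b ≠ colt m b') := fun m h => Nat.find_min hc h
        have hs := Nat.find_spec hc
        obtain ⟨q, hqd⟩ : ∃ q, q = Nat.find hc := ⟨_, rfl⟩
        rw [← hqd] at hm hs
        have hq : ∀ r < q, colt r b = colt r b' := by
          intro r hr
          by_contra h3
          exact hm r hr h3
        rcases lx_tri ((colt_length q b).trans (colt_length q b').symm) with h3 | h3 | h3
        · exact Or.inl (Or.inr ⟨h, Or.inr ⟨h2, q, hq, h3⟩⟩)
        · exact absurd h3 hs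
        · exact Or.inr (Or.inr (Or.inr ⟨h.symm, Or.inr ⟨h2.symm, q, fun r hr => (hq r hr).symm, h3⟩⟩))
    · exact Or.inl (Or.inr ⟨h, Or.inl h2⟩)
  · exact Or.inr (Or.inr (Or.inl h))

theorem zV_lt {p q : ℕ} (a : A2) (h : q < p) : zV p a q = a q := by
  have h1 : sp p q = q := by
    unfold sp
    rw [if_pos h]
  have h2 := Finsupp.mapDomain_apply (sp_strictMono p).injective a q
  rw [h1] at h2
  exact h2

theorem zV_eq (p : ℕ) (a : A2) : zV p a p = 0 := by
  refine Finsupp.mapDomain_of_notMem_range a p ?_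
  rintro ⟨j, hj⟩
  unfold sp at hj
  split_ifs at hj <;> omega

theorem zV_gt {p q : ℕ} (a : A2) (h : p ≤ q) : zV p a (q + 1) = a q := by
  have h1 : sp p q = q + 1 := by
    unfold sp
    rw [if_neg (by omega)]
  have h2 := Finsupp.mapDomain_apply (sp_strictMono p).injective a q
  rw [h1] at h2
  exact h2

theorem cV_ne {k p q : ℕ} (a : A2) (h : q ≠ p) : cV k p a q = a q := by
  unfold cV
  rw [Finsupp.add_apply, Finsupp.single_eq_of_ne h, add_zero]

theorem cV_eq {k p : ℕ} (a : A2) : cV k p a p = a p + a k := by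
  unfold cV
  rw [Finsupp.add_apply, Finsupp.single_eq_same]

theorem stt_fst (m : Mv) (b : BT s t) : (stt m b).1 = b.1 := by
  obtain ⟨_ | k, p⟩ := m
  · rfl
  · rfl

theorem stt_ix (m : Mv) (b : BT s t) : (stt m b).2.2 = sp m.2 b.2.2 := by
  obtain ⟨_ | k, p⟩ := m
  · rfl
  · rfl

theorem stt_lt {m : Mv} {q : ℕ} (b : BT s t) (i : Fin (t + 1)) (h : q < m.2) :
    (stt m b).2.1 i q = b.2.1 i q := by
  obtain ⟨_ | k, p⟩ := m
  · exact zV_lt _ h
  · show (cV k p (zV p (b.2.1 i))) q = b.2.1 i q
    have h' : q < p := h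
    rw [cV_ne _ (by omega)]
    exact zV_lt _ h'

theorem stt_none (p : ℕ) (b : BT s t) (i : Fin (t + 1)) : (stt (none, p) b).2.1 i p = 0 := zV_eq p _

theorem stt_some {k p : ℕ} (hk : k < p) (b : BT s t) (i : Fin (t + 1)) :
    (stt (some k, p) b).2.1 i p = b.2.1 i k := by
  show (cV k p (zV p (b.2.1 i))) p = b.2.1 i k
  rw [cV_eq, zV_eq, zero_add]
  exact zV_lt _ hk

theorem stt_gt {m : Mv} {q : ℕ} (b : BT s t) (i : Fin (t + 1)) (h : m.2 ≤ q) :
    (stt m b).2.1 i (q + 1) = b.2.1 i q := by
  obtain ⟨_ | k, p⟩ := m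
  · exact zV_gt _ h
  · show (cV k p (zV p (b.2.1 i))) (q + 1) = b.2.1 i q
    have h' : p ≤ q := h
    rw [cV_ne _ (by omega)]
    exact zV_gt _ h'

theorem levt_finite (n : ℕ) : (levt s t n).Finite := by
  have hS : Finite (levt s t n) := by
    let f : levt s t n → Fin s × (Fin (t + 1) → Fin n → ZMod 2) × Fin n :=
      fun b => (b.1.1, (fun i (j : Fin n) => b.1.2.1 i j), ⟨b.1.2.2, b.2.1⟩)
    refine Finite.of_injective f ?_
    rintro ⟨b, hb⟩ ⟨b', hb'⟩ h
    have h1 : b.1 = b'.1 := congrArg (fun z : Fin s × (Fin (t + 1) → Fin n → ZMod 2) × Fin n => z.1) h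
    have h2 : (fun i (j : Fin n) => b.2.1 i j) = fun i (j : Fin n) => b'.2.1 i j :=
      congrArg (fun z : Fin s × (Fin (t + 1) → Fin n → ZMod 2) × Fin n => z.2.1) h
    have h3 : b.2.2 = b'.2.2 :=
      congrArg (fun z : Fin s × (Fin (t + 1) → Fin n → ZMod 2) × Fin n => (z.2.2 : ℕ)) h
    refine Subtype.ext (Prod.ext h1 (Prod.ext ?_ h3))
    funext i
    ext q
    by_cases hq : q < n
    · exact congrFun (congrFun h2 i) ⟨q, hq⟩
    · show b.2.1 i q = b'.2.1 i q
      rw [hb.2 i q (not_lt.1 hq), hb'.2 i q (not_lt.1 hq)]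
  exact Set.toFinite _

theorem levt_mono {n n' : ℕ} (h : n ≤ n') : levt s t n ⊆ levt s t n' := fun _ hb =>
  ⟨lt_of_lt_of_le hb.1 h, fun i q hq => hb.2 i q (h.trans hq)⟩

theorem exists_levt_one (b : BT s t) : ∃ n, b ∈ levt s t n := by
  refine ⟨max (b.2.2 + 1) (Finset.univ.sup fun i => (b.2.1 i).support.sup id + 1), ?_, fun i q hq => ?_⟩
  · exact lt_of_lt_of_le (Nat.lt_succ_self _) (le_max_left _ _)
  · by_contra h0
    have h1 : q ∈ (b.2.1 i).support := Finsupp.mem_support_iff.2 h0
    have h2 : q ≤ (b.2.1 i).support.sup id := Finset.le_sup (f := id) h1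
    have h3 : (b.2.1 i).support.sup id + 1 ≤ Finset.univ.sup fun i => (b.2.1 i).support.sup id + 1 :=
      Finset.le_sup (f := fun i => (b.2.1 i).support.sup id + 1) (Finset.mem_univ i)
    have h4 := le_trans h3 (le_max_right (b.2.2 + 1) _)
    omega

theorem exists_levt (S : Finset (BT s t)) : ∃ n, ∀ b ∈ S, b ∈ levt s t n := by
  classical
  induction S using Finset.induction_on with
  | empty => exact ⟨0, fun b hb => absurd hb (Finset.notMem_empty b)⟩
  | insert a S _ ih =>
    obtain ⟨n, hn⟩ := ih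
    obtain ⟨n', hn'⟩ := exists_levt_one a
    refine ⟨max n n', fun b hb => ?_⟩
    rcases Finset.mem_insert.1 hb with h | h
    · subst h
      exact levt_mono (le_max_right n n') hn'
    · exact levt_mono (le_max_left n n') (hn b h)

theorem okm_le {m : Mv} {n : ℕ} (hm : okm m n) : m.2 ≤ n := by
  obtain ⟨_ | k, p⟩ := m
  · exact hm
  · exact hm.2

theorem stt_lev {n : ℕ} {m : Mv} {b : BT s t} (hm : okm m n) (h : b ∈ levt s t n) :
    stt m b ∈ levt s t (n + 1) := by
  obtain ⟨h1, h2⟩ := h
  have h3 := okm_le hm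
  refine ⟨?_, fun i q hq => ?_⟩
  · rw [stt_ix]
    unfold sp
    split_ifs <;> omega
  · obtain ⟨r, rfl⟩ : ∃ r, q = r + 1 := ⟨q - 1, by omega⟩
    rw [stt_gt b i (by omega)]
    exact h2 i r (by omega)

theorem colt_lt {m : Mv} {q : ℕ} (h : q < m.2) (b : BT s t) : colt q (stt m b) = colt q b := by
  unfold colt
  congr 1
  funext i
  rw [stt_lt b i h]

theorem colt_gt {m : Mv} {q : ℕ} (h : m.2 ≤ q) (b : BT s t) : colt (q + 1) (stt m b) = colt q b := by
  unfold colt
  congr 1
  funext i
  rw [stt_gt b i h]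

/-- The moves are strictly monotone. -/
theorem stt_blt {n : ℕ} {m : Mv} {b b' : BT s t} (hm : okm m n) (h : bltt b b') :
    bltt (stt m b) (stt m b') := by
  rcases h with h | ⟨h0, h | ⟨hj, q, hq, hl⟩⟩
  · refine Or.inl ?_
    rw [stt_fst, stt_fst]
    exact h
  · refine Or.inr ⟨by rw [stt_fst, stt_fst, h0], Or.inl ?_⟩
    rw [stt_ix, stt_ix]
    exact sp_strictMono m.2 h
  · refine Or.inr ⟨by rw [stt_fst, stt_fst, h0], Or.inr ⟨by rw [stt_ix, stt_ix, hj], ?_⟩⟩
    by_cases hqm : q < m.2
    · refine ⟨q, fun r hr => ?_, ?_⟩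
      · rw [colt_lt (by omega), colt_lt (by omega)]
        exact hq r hr
      · rw [colt_lt hqm, colt_lt hqm]
        exact hl
    · refine ⟨q + 1, fun r hr => ?_, ?_⟩
      · rcases lt_trichotomy r m.2 with h1 | h1 | h1
        · rw [colt_lt h1, colt_lt h1]
          exact hq r (by omega)
        · rw [h1]
          obtain ⟨_ | k, p⟩ := m
          · show colt p (stt (none, p) b) = colt p (stt (none, p) b')
            unfold colt
            congr 1
            funext i
            rw [stt_none, stt_none]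
          · have hk : k < p := hm.1
            have h2 : ∀ c : BT s t, colt p (stt (some k, p) c) = colt k c := by
              intro c
              unfold colt
              congr 1
              funext i
              rw [stt_some hk]
            show colt p (stt (some k, p) b) = colt p (stt (some k, p) b')
            rw [h2, h2]
            have h3 : ¬ q < p := hqm
            exact hq k (by omega)
        · obtain ⟨r', rfl⟩ : ∃ r', r = r' + 1 := ⟨r - 1, by omega⟩
          rw [colt_gt (by omega), colt_gt (by omega)]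
          exact hq r' (by omega)
      · rw [colt_gt (by omega), colt_gt (by omega)]
        exact hl

end E4.N
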