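import Pool.Agent.Lib.MP_8a95e3_al.ND1
import Pool.Agent.Lib.MP_8a95e3_al.J09c

/-!
# ND3 : leading terms of the operators of the moves
-/

namespace E4.N

open E4.J

variable {s t : ℕ}

theorem opZ_single (p : ℕ) (b : BT s t) : opZ p (Finsupp.single b 1) = Finsupp.single (zT p b) 1 := by
  unfold opZ
  rw [Finsupp.lmapDomain_apply, Finsupp.mapDomain_single]

theorem opC_single (k p : ℕ) (b : BT s t) : opC k p (Finsupp.single b 1) =
    Finsupp.single (cT k p b) 1 + if b.2.2 = k then Finsupp.single (eT k p b) 1 else 0 := by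
  unfold opC
  rw [Finsupp.linearCombination_single, one_smul]

theorem eT_lev {k p n : ℕ} {b : BT s t} (hk : k < n) (hp : p < n) (h : cT k p b ∈ levt s t n) :
    eT k p b ∈ levt s t n := by
  refine ⟨hp, fun i q hq => ?_⟩
  have h1 : (cV k p (b.2.1 i)) q = 0 := h.2 i q hq
  show (if i = 0 then cV k p (b.2.1 i) + Finsupp.single k 1 else cV k p (b.2.1 i)) q = 0
  split_ifs with hi
  · rw [Finsupp.add_apply, h1, Finsupp.single_eq_of_ne (by omega), add_zero]
  · exact h1

/-- Leading terms. -/
theorem opt_low {n : ℕ} {m : Mv} {b : BT s t} (hm : okm m n) (h : b ∈ levt s t n) :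
    ∀ c ∈ (opt m (Finsupp.single b 1) - Finsupp.single (stt m b) 1).support,
      c ∈ levt s t (n + 1) ∧ bltt c (stt m b) := by
  classical
  intro c hc
  obtain ⟨m0, p⟩ := m
  have hlev := stt_lev hm h
  cases m0 with
  | none =>
    exfalso
    have e1 : opt (none, p) (Finsupp.single b 1) = Finsupp.single (stt (none, p) b) 1 := opZ_single p b
    rw [e1, sub_self] at hc
    simp at hc
  | some k =>
    have hkp : k < p := hm.1
    have hpn : p ≤ n := hm.2
    have e1 : opt (some k, p) (Finsupp.single b 1) = Finsupp.single (stt (some k, p) b) 1 +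
        if (zT p b).2.2 = k then Finsupp.single (eT k p (zT p b)) 1 else 0 := by
      show (opC k p) (opZ p (Finsupp.single b 1)) = _
      rw [opZ_single, opC_single]
      rfl
    rw [e1, add_sub_cancel_left] at hc
    by_cases hk : (zT p b).2.2 = k
    · rw [if_pos hk] at hc
      have hc1 := Finsupp.support_single_subset hc
      rw [Finset.mem_singleton] at hc1
      rw [hc1]
      refine ⟨eT_lev (by omega) (by omega) hlev, Or.inr ⟨rfl, Or.inl ?_⟩⟩
      show (zT p b).2.2 < p
      omega
    · rw [if_neg hk] at hc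
      simp at hc

end E4.N
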