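import Pool.Agent.Lib.MP_8a95e3_al.ND1
import Pool.Agent.Lib.MP_8a95e3_al.J01b

/-!
# ND4 : the moves form a well quasi order
-/

namespace E4.N

open E4.J

variable {s t : ℕ}

theorem sp_lt_iff {p q : ℕ} (hq : q < p) (j : ℕ) : sp p j = q ↔ j = q := by
  unfold sp
  split_ifs <;> omega

theorem sp_ne_self (p j : ℕ) : sp p j ≠ p := by
  unfold sp
  split_ifs <;> omega

theorem sp_gt_iff {p q : ℕ} (hq : p ≤ q) (j : ℕ) : sp p j = q + 1 ↔ j = q := by
  unfold sp
  split_ifs <;> omega

theorem lett_lt {m : Mv} (b : BT s t) {q : ℕ} (hq : q < m.2) : lett (stt m b) q = lett b q := by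
  unfold lett
  refine Prod.ext ?_ ?_
  · funext i
    exact stt_lt b i hq
  · show decide ((stt m b).2.2 = q) = decide (b.2.2 = q)
    rw [stt_ix]
    exact decide_eq_decide.2 (sp_lt_iff hq _)

theorem lett_none (p : ℕ) (b : BT s t) : lett (stt (none, p) b) p = (fun _ => 0, false) := by
  unfold lett
  refine Prod.ext ?_ ?_
  · funext i
    exact stt_none p b i
  · show decide ((stt (none, p) b).2.2 = p) = false
    rw [stt_ix]
    exact decide_eq_false (sp_ne_self _ _)

theorem lett_some {k p : ℕ} (hk : k < p) (b : BT s t) :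
    lett (stt (some k, p) b) p = (ltcol (lett b k), false) := by
  unfold ltcol lett
  refine Prod.ext ?_ ?_
  · funext i
    exact stt_some hk b i
  · show decide ((stt (some k, p) b).2.2 = p) = false
    rw [stt_ix]
    exact decide_eq_false (sp_ne_self _ _)

theorem lett_gt {m : Mv} (b : BT s t) {q : ℕ} (hq : m.2 ≤ q) : lett (stt m b) (q + 1) = lett b q := by
  unfold lett
  refine Prod.ext ?_ ?_
  · funext i
    exact stt_gt b i hq
  · show decide ((stt m b).2.2 = q + 1) = decide (b.2.2 = q)
    rw [stt_ix]
    exact decide_eq_decide.2 (sp_gt_iff hq _)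

theorem enct_length (n : ℕ) (b : BT s t) : (enct n b).length = n := by
  unfold enct
  rw [List.length_map, List.length_range]

theorem enct_get {n : ℕ} (b : BT s t) (q : ℕ) :
    (enct n b)[q]? = if q < n then some (lett b q) else none := by
  unfold enct
  rw [List.getElem?_map]
  by_cases hq : q < n
  · rw [List.getElem?_range hq, if_pos hq]
    rfl
  · rw [if_neg hq, List.getElem?_eq_none (by rw [List.length_range]; exact not_lt.1 hq)]
    rfl

theorem enct_main {n : ℕ} {m : Mv} {b : BT s t} {u v : List (Lt t)} {a : Lt t}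
    (he : enct n b = u ++ v) (hp : m.2 = u.length) (ha : lett (stt m b) m.2 = a) :
    u ++ a :: v = enct (n + 1) (stt m b) := by
  have hlen : u.length + v.length = n := by
    have h1 := congrArg List.length he
    rw [List.length_append, enct_length] at h1
    exact h1.symm
  refine List.ext_getElem? fun q => ?_
  rw [enct_get]
  rcases lt_trichotomy q m.2 with hq | hq | hq
  · rw [List.getElem?_append_left (by omega), if_pos (by omega), lett_lt b hq]
    have h1 := enct_get (n := n) b q
    rw [he, List.getElem?_append_left (by omega), if_pos (by omega)] at h1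
    exact h1
  · rw [List.getElem?_append_right (by omega), if_pos (by omega), hq, ha, hp, Nat.sub_self]
    rfl
  · obtain ⟨r, rfl⟩ : ∃ r, q = r + 1 := ⟨q - 1, by omega⟩
    rw [List.getElem?_append_right (by omega), lett_gt b (by omega)]
    have h2 : r + 1 - u.length = (r - u.length) + 1 := by omega
    rw [h2, List.getElem?_cons_succ]
    have h1 := enct_get (n := n) b r
    rw [he, List.getElem?_append_right (by omega)] at h1
    rw [h1]
    by_cases hr : r < n
    · rw [if_pos hr, if_pos (by omega)]
    · rw [if_neg hr, if_neg (by omega)]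

/-- Every allowed insertion comes from a move. -/
theorem enct_ins {n : ℕ} {b : BT s t} {w' : List (Lt t)}
    (hi : Ins ltcol ltunm {(0 : Fin (t + 1) → ZMod 2)} (enct n b) w') :
    ∃ m : Mv, okm m n ∧ w' = enct (n + 1) (stt m b) := by
  obtain ⟨u, a, v, he, rfl, hun, hcol⟩ := hi
  have hlen : u.length + v.length = n := by
    have h1 := congrArg List.length he
    rw [List.length_append, enct_length] at h1
    exact h1.symm
  have hun' : a.2 = false := hun
  rcases hcol with hz | ⟨c, hc, hca⟩
  · refine ⟨(none, u.length), ?_, ?_⟩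
    · change u.length ≤ n
      omega
    · refine enct_main he rfl ?_
      change lett (stt (none, u.length) b) u.length = a
      rw [lett_none]
      have h2 : a.1 = 0 := hz
      exact Prod.ext h2.symm hun'.symm
  · obtain ⟨k, hk, hkb⟩ := List.getElem_of_mem hc
    refine ⟨(some k, u.length), ?_, ?_⟩
    · change k < u.length ∧ u.length ≤ n
      omega
    · refine enct_main he rfl ?_
      change lett (stt (some k, u.length) b) u.length = a
      rw [lett_some hk]
      have h1 : lett b k = c := by
        have h2 := enct_get (n := n) b k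
        rw [he, List.getElem?_append_left hk, if_pos (by omega), List.getElem?_eq_getElem hk, hkb] at h2
        exact (Option.some.inj h2).symm
      rw [h1]
      exact Prod.ext hca hun'.symm

theorem enct_inj {n n' : ℕ} {b b' : BT s t} (h : b ∈ levt s t n) (h' : b' ∈ levt s t n')
    (hl : b.1 = b'.1) (he : enct n b = enct n' b') : n = n' ∧ b = b' := by
  have hlen : n = n' := by
    have h1 := congrArg List.length he
    rw [enct_length, enct_length] at h1
    exact h1
  subst hlen
  refine ⟨rfl, ?_⟩
  have hq : ∀ q < n, lett b q = lett b' q := by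
    intro q hq
    have h1 : (enct n b)[q]? = (enct n b')[q]? := by rw [he]
    rw [enct_get, enct_get, if_pos hq, if_pos hq] at h1
    exact Option.some.inj h1
  refine Prod.ext hl (Prod.ext ?_ ?_)
  · funext i
    ext q
    rcases Nat.lt_or_ge q n with hqn | hqn
    · have h2 : (lett b q).1 i = (lett b' q).1 i := by rw [hq q hqn]
      exact h2
    · rw [h.2 i q hqn, h'.2 i q hqn]
  · have h2 : decide (b.2.2 = b.2.2) = decide (b'.2.2 = b.2.2) := congrArg Prod.snd (hq _ h.1)
    rw [decide_eq_true rfl] at h2
    exact (of_decide_eq_true h2.symm).symm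

theorem enct_marks (n : ℕ) (b : BT s t) : marks ltunm (enct n b) ≤ 1 := by
  classical
  unfold marks enct
  rw [List.countP_map, List.countP_eq_length_filter]
  have hnd : ((List.range n).filter ((fun a => decide (¬ ltunm a)) ∘ lett b)).Nodup :=
    (List.nodup_range).filter _
  rw [← List.toFinset_card_of_nodup hnd]
  have hsub : ((List.range n).filter ((fun a => decide (¬ ltunm a)) ∘ lett b)).toFinset ⊆ {b.2.2} := by
    intro q hq
    rw [List.mem_toFinset, List.mem_filter] at hq
    have h1 : ¬ ltunm (lett b q) := of_decide_eq_true hq.2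
    unfold ltunm at h1
    have h2 : decide (b.2.2 = q) ≠ false := h1
    rw [Finset.mem_singleton]
    by_contra h3
    exact h2 (decide_eq_false fun h => h3 h.symm)
  refine (Finset.card_le_card hsub).trans ?_
  rw [Finset.card_singleton]

theorem reacht_of_ins {n : ℕ} {b : BT s t} (h : b ∈ levt s t n) {w : List (Lt t)}
    (hw : Relation.ReflTransGen (Ins ltcol ltunm {(0 : Fin (t + 1) → ZMod 2)}) (enct n b) w) :
    ∃ n' b', b' ∈ levt s t n' ∧ b'.1 = b.1 ∧ w = enct n' b' ∧
      Relation.ReflTransGen (Step okm stt) (n, b) (n', b') := by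
  induction hw with
  | refl => exact ⟨n, b, h, rfl, rfl, Relation.ReflTransGen.refl⟩
  | tail _ hi ih =>
    obtain ⟨n', b', h1, h3, rfl, h2⟩ := ih
    obtain ⟨m, hm, rfl⟩ := enct_ins hi
    exact ⟨n' + 1, stt m b', stt_lev hm h1, by rw [stt_fst, h3], rfl, h2.tail ⟨m, hm, rfl⟩⟩

theorem movest_wqo (f : ℕ → ℕ × BT s t) (hf : ∀ k, (f k).2 ∈ levt s t (f k).1) :
    ∃ a b, a < b ∧ Relation.ReflTransGen (Step okm stt) (f a) (f b) := by
  obtain ⟨c0, hc0⟩ := Finite.exists_infinite_fiber (fun k => (f k).2.1)
  have h2 : ∃ᶠ n in Filter.atTop, (f n).2.1 = c0 := by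
    rw [Nat.frequently_atTop_iff_infinite]
    exact Set.infinite_coe_iff.1 hc0
  obtain ⟨φ, hφ, hφ2⟩ := Filter.extraction_of_frequently_atTop h2
  obtain ⟨a, b, hab, h1⟩ := ins_wqo (ltcol (t := t)) (ltunm (t := t)) 1 {(0 : Fin (t + 1) → ZMod 2)}
    (fun k => enct (f (φ k)).1 (f (φ k)).2) (fun k => enct_marks _ _)
  refine ⟨φ a, φ b, hφ hab, ?_⟩
  obtain ⟨n', b', h3, h4, h5, h6⟩ := reacht_of_ins (hf (φ a)) h1
  obtain ⟨h7, h8⟩ := enct_inj (hf (φ b)) h3 (by rw [h4, hφ2, hφ2]) h5
  rw [← h7, ← h8] at h6
  exact h6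

end E4.N
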