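import Pool.Agent.Lib.MP_8a95e3_al.ND3
import Pool.Agent.Lib.MP_8a95e3_al.ND4
import Pool.Agent.Lib.MP_8a95e3_al.J02b

/-!
# ND5 : the ascending chain condition for the free modules
-/

namespace E4.N

open E4.J

theorem okm_self' {m : Mv} {n : ℕ} (h : okm m n) : okm m m.2 := by
  obtain ⟨k, p⟩ := m
  cases k with
  | none => exact le_refl p
  | some k => exact ⟨h.1, le_refl p⟩

/-- Ascending sequences of subgroups closed under the operators stabilise. -/
theorem thmNL (s t : ℕ) (U : ℕ → AddSubgroup (QT s t)) (hU : Monotone U)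
    (hZ : ∀ n p, ∀ f ∈ U n, opZ p f ∈ U n)
    (hC : ∀ n k p, k < p → ∀ f ∈ U n, opC k p f ∈ U n) : ∃ n, ∀ m ≥ n, U m = U n := by
  refine leadACC (I := {m : Mv // okm m m.2}) bltt (levt s t) levt_finite
    (fun a b c h h' => bltt_trans h h') bltt_irrefl ?_ (fun m n => okm m.1 n) (fun m => opt m.1)
    (fun m => stt m.1) ?_ ?_ ?_ ?_ U hU ?_ ?_
  · intro n a _ b _
    exact bltt_tri a b
  · intro m n β hm hβ
    exact stt_lev hm hβ
  · intro m n β hm hβ
    exact opt_low hm hβ
  · intro m n β β' hm _ _ hlt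
    exact stt_blt hm hlt
  · intro f hf
    obtain ⟨a, b, hab, hr⟩ := movest_wqo f hf
    refine ⟨a, b, hab, Relation.ReflTransGen.mono ?_ _ _ hr⟩
    rintro y z ⟨m, hm, rfl⟩
    exact ⟨⟨m, okm_self' hm⟩, hm, rfl⟩
  · rintro n ⟨⟨k, p⟩, hm⟩ f hf
    cases k with
    | none => exact hZ n p f hf
    | some k => exact hC n k p hm.1 _ (hZ n p f hf)
  · intro n f _
    exact exists_levt f.support

end E4.N
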