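import Pool.Agent.Lib.MP_8a95e3_al.TId

/-!
# NF1 : Fox derivatives with values in the integral group ring
-/

namespace E4.N

/-- the free left module on the differentials of the letters -/
abbrev Om : Type := ℕ →₀ FA

/-- the affine map attached to a letter -/
noncomputable def foxE (j : ℕ) : Equiv.Perm Om where
  toFun m := Finsupp.single j 1 + ofF (x j) • m
  invFun m := ofF (x j)⁻¹ • (m - Finsupp.single j 1)
  left_inv m := by
    show ofF (x j)⁻¹ • (Finsupp.single j 1 + ofF (x j) • m - Finsupp.single j 1) = m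
    rw [add_sub_cancel_left, smul_smul, ← map_mul, inv_mul_cancel, map_one, one_smul]
  right_inv m := by
    show Finsupp.single j 1 + ofF (x j) • (ofF (x j)⁻¹ • (m - Finsupp.single j 1)) = m
    rw [smul_smul, ← map_mul, mul_inv_cancel, map_one, one_smul, add_sub_cancel]

noncomputable def foxP : F →* Equiv.Perm Om := FreeGroup.lift foxE

/-- all Fox derivatives of a word: `fox w j` is the derivative with respect to `x j` -/
noncomputable def fox (w : F) : Om := foxP w 0

theorem foxP_x (j : ℕ) (m : Om) : foxP (x j) m = Finsupp.single j 1 + ofF (x j) • m := by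
  unfold foxP x
  rw [FreeGroup.lift_apply_of]
  rfl

theorem foxP_xinv (j : ℕ) (m : Om) : foxP (x j)⁻¹ m = ofF (x j)⁻¹ • (m - Finsupp.single j 1) := by
  unfold foxP
  rw [map_inv]
  unfold x
  rw [FreeGroup.lift_apply_of]
  rfl

theorem foxP_apply (w : F) : ∀ m : Om, foxP w m = fox w + ofF w • m := by
  induction w using FreeGroup.induction_on with
  | C1 =>
    intro m
    unfold fox
    rw [map_one, map_one, one_smul]
    show m = 0 + m
    rw [zero_add]
  | of j =>
    intro m
    have h1 := foxP_x j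
    unfold x at h1
    unfold fox
    show foxP (FreeGroup.of j) m = foxP (FreeGroup.of j) 0 + ofF (FreeGroup.of j) • m
    rw [h1, h1, smul_zero, add_zero]
  | inv_of j _ =>
    intro m
    have h1 := foxP_xinv j
    unfold x at h1
    unfold fox
    show foxP (FreeGroup.of j)⁻¹ m = foxP (FreeGroup.of j)⁻¹ 0 + ofF (FreeGroup.of j)⁻¹ • m
    rw [h1, h1, zero_sub, smul_sub, smul_neg]
    abel
  | mul u v hu hv =>
    intro m
    have h1 : ∀ m, foxP (u * v) m = foxP u (foxP v m) := fun m => by
      rw [map_mul]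
      rfl
    have h2 : fox (u * v) = fox u + ofF u • fox v := by
      show foxP (u * v) 0 = _
      rw [h1, hu]
      rfl
    rw [h1, hu, hv, h2, map_mul, smul_add, smul_smul, add_assoc]

theorem fox_one : fox 1 = 0 := by
  unfold fox
  rw [map_one]
  rfl

theorem fox_mul (u v : F) : fox (u * v) = fox u + ofF u • fox v := by
  show foxP (u * v) 0 = _
  rw [map_mul]
  show foxP u (foxP v 0) = _
  rw [foxP_apply u]
  rfl

theorem fox_x (j : ℕ) : fox (x j) = Finsupp.single j 1 := by
  show foxP (x j) 0 = _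
  rw [foxP_x, smul_zero, add_zero]

theorem fox_inv (u : F) : fox u⁻¹ = -(ofF u⁻¹ • fox u) := by
  have h := fox_mul u⁻¹ u
  rw [inv_mul_cancel, fox_one] at h
  exact eq_neg_of_add_eq_zero_left h.symm

/-- the action of an endomorphism on the differentials -/
noncomputable def pOm (φ : F →* F) : Om →+ Om :=
  Finsupp.liftAddHom fun j => {
    toFun := fun p => eA φ p • fox (φ (x j))
    map_zero' := by rw [map_zero, zero_smul]
    map_add' := fun p q => by rw [map_add, add_smul] }

theorem pOm_single (φ : F →* F) (j : ℕ) (p : FA) : pOm φ (Finsupp.single j p) = eA φ p • fox (φ (x j)) := by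
  unfold pOm
  rw [Finsupp.liftAddHom_apply_single]
  rfl

theorem pOm_smul (φ : F →* F) (p : FA) (m : Om) : pOm φ (p • m) = eA φ p • pOm φ m := by
  induction m using Finsupp.induction_linear with
  | zero => rw [smul_zero, map_zero, smul_zero]
  | add f g hf hg => rw [smul_add, map_add, map_add, smul_add, hf, hg]
  | single j q => rw [Finsupp.smul_single, pOm_single, pOm_single, smul_eq_mul, map_mul, mul_smul]

/-- the chain rule -/
theorem fox_endo (φ : F →* F) (w : F) : fox (φ w) = pOm φ (fox w) := by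
  have hx : ∀ j, fox (φ (FreeGroup.of j)) = pOm φ (fox (FreeGroup.of j)) := by
    intro j
    have h := fox_x j
    unfold x at h
    rw [h, pOm_single, map_one, one_smul]
    rfl
  induction w using FreeGroup.induction_on with
  | C1 => rw [map_one, fox_one, map_zero]
  | of j => exact hx j
  | inv_of j _ =>
    show fox (φ (FreeGroup.of j)⁻¹) = pOm φ (fox (FreeGroup.of j)⁻¹)
    rw [map_inv φ, fox_inv, fox_inv, map_neg, pOm_smul, eA_of, map_inv φ, hx]
  | mul u v hu hv => rw [map_mul, fox_mul, fox_mul, map_add, pOm_smul, eA_of, hu, hv]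

/-- the differentials with coefficients in `K` -/
def OmS (K : AddSubgroup FA) : AddSubgroup Om where
  carrier := {m | ∀ j, m j ∈ K}
  add_mem' := by
    intro a b ha hb j
    rw [Finsupp.add_apply]
    exact K.add_mem (ha j) (hb j)
  zero_mem' := by
    intro j
    rw [Finsupp.zero_apply]
    exact K.zero_mem
  neg_mem' := by
    intro a ha j
    rw [Finsupp.neg_apply]
    exact K.neg_mem (ha j)

theorem mem_OmS {K : AddSubgroup FA} {m : Om} : m ∈ OmS K ↔ ∀ j, m j ∈ K := Iff.rfl

theorem OmS_mono {K P : AddSubgroup FA} (h : K ≤ P) : OmS K ≤ OmS P := fun _ hm j => h (hm j)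

theorem OmS_smul {K : AddSubgroup FA} (hK : ∀ a : FA, ∀ p ∈ K, a * p ∈ K) (a : FA) {m : Om} (hm : m ∈ OmS K) :
    a • m ∈ OmS K := by
  intro j
  rw [Finsupp.smul_apply, smul_eq_mul]
  exact hK a _ (hm j)

theorem OmS_smul_mem {K : AddSubgroup FA} (hK : ∀ a : FA, ∀ p ∈ K, p * a ∈ K) {p : FA} (hp : p ∈ K) (m : Om) :
    p • m ∈ OmS K := by
  intro j
  rw [Finsupp.smul_apply, smul_eq_mul]
  exact hK _ _ hp

theorem OmS_single {K : AddSubgroup FA} {p : FA} (hp : p ∈ K) (j : ℕ) : Finsupp.single j p ∈ OmS K := by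
  classical
  intro i
  rw [Finsupp.single_apply]
  split_ifs
  · exact hp
  · exact K.zero_mem

theorem OmS_pOm {K : AddSubgroup FA} (hK : TIdl K) (φ : F →* F) {m : Om} (hm : m ∈ OmS K) : pOm φ m ∈ OmS K := by
  have h1 : pOm φ m = m.sum fun j p => eA φ p • fox (φ (x j)) := rfl
  rw [h1, Finsupp.sum]
  refine AddSubgroup.sum_mem _ fun j _ => ?_
  exact OmS_smul_mem hK.right (hK.endo φ _ (hm j)) _

/-- words all of whose Fox derivatives are in `K` -/
def YK (K : AddSubgroup FA) (hK : TIdl K) : Subgroup F where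
  carrier := {w | fox w ∈ OmS K}
  one_mem' := by
    show fox 1 ∈ OmS K
    rw [fox_one]
    exact (OmS K).zero_mem
  mul_mem' := by
    intro a b ha hb
    show fox (a * b) ∈ OmS K
    rw [fox_mul]
    exact (OmS K).add_mem ha (OmS_smul hK.left _ hb)
  inv_mem' := by
    intro a ha
    show fox a⁻¹ ∈ OmS K
    rw [fox_inv]
    exact (OmS K).neg_mem (OmS_smul hK.left _ ha)

theorem mem_YK {K : AddSubgroup FA} {hK : TIdl K} {w : F} : w ∈ YK K hK ↔ fox w ∈ OmS K := Iff.rfl

theorem YK_verb {K : AddSubgroup FA} (hK : TIdl K) : Verb4 (YK K hK) where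
  endo := by
    intro φ w hw
    rw [mem_YK, fox_endo]
    exact OmS_pOm hK φ hw
  four := by
    intro w
    rw [mem_YK]
    have h1 : fox (w ^ 4) = (1 + ofF w + ofF w ^ 2 + ofF w ^ 3) • fox w := by
      have e : w ^ 4 = w * (w * (w * w)) := by simp only [pow_succ, pow_zero, one_mul, mul_assoc]
      rw [e, fox_mul, fox_mul, fox_mul]
      simp only [smul_add, smul_smul, add_smul, one_smul, pow_succ, pow_zero, one_mul]
      simp only [add_assoc, mul_assoc]
    rw [h1]
    refine OmS_smul_mem hK.right ?_ _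
    have h2 := hK.cube w
    have h3 : ∀ a : FA, (2 : FA) * a ∈ K := fun a => hK.right a _ hK.two
    have e2 : 1 + ofF w + ofF w ^ 2 + ofF w ^ 3 = X ofF w ^ 3 - 2 * (ofF w + ofF w ^ 2) := by
      unfold X
      noncomm_ring
    rw [e2]
    exact K.sub_mem h2 (h3 _)

end E4.N
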