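import Pool.Agent.Lib.MP_8a95e3_al.NF1
import Pool.Agent.Lib.MP_8a95e3_al.ND3

/-!
# NF2 : the classes of the words modulo squares
-/

namespace E4.N

open E4.J

/-- the subgroup generated by the squares -/
def N2 : Subgroup F := Subgroup.closure {w | ∃ g : F, w = g ^ 2}

theorem sq_mem_N2 (g : F) : g ^ 2 ∈ N2 := Subgroup.subset_closure ⟨g, rfl⟩

theorem N2_normal : N2.Normal := by
  refine ⟨fun n hn g => ?_⟩
  unfold N2 at hn ⊢
  induction hn using Subgroup.closure_induction with
  | mem y hy =>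
    obtain ⟨h, rfl⟩ := hy
    refine Subgroup.subset_closure ⟨g * h * g⁻¹, ?_⟩
    rw [conj_pow]
  | one =>
    rw [mul_one, mul_inv_cancel]
    exact Subgroup.one_mem _
  | mul a b _ _ ha hb =>
    have e : g * (a * b) * g⁻¹ = (g * a * g⁻¹) * (g * b * g⁻¹) := by group
    rw [e]
    exact Subgroup.mul_mem _ ha hb
  | inv a _ ha =>
    have e : g * a⁻¹ * g⁻¹ = (g * a * g⁻¹)⁻¹ := by group
    rw [e]
    exact Subgroup.inv_mem _ ha

/-- the class of a word: its exponent sums modulo two -/
noncomputable def clm : F →* Multiplicative A2 := FreeGroup.lift fun j => Multiplicative.ofAdd (Finsupp.single j 1)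

noncomputable def cl (w : F) : A2 := Multiplicative.toAdd (clm w)

theorem cl_one : cl 1 = 0 := by
  unfold cl
  rw [map_one]
  rfl

theorem cl_mul (u v : F) : cl (u * v) = cl u + cl v := by
  unfold cl
  rw [map_mul]
  rfl

theorem cl_inv (u : F) : cl u⁻¹ = -cl u := by
  unfold cl
  rw [map_inv]
  rfl

theorem cl_x (j : ℕ) : cl (x j) = Finsupp.single j 1 := by
  unfold cl clm x
  rw [FreeGroup.lift_apply_of]
  rfl

theorem a2_two (a : A2) : a + a = 0 := by
  ext q
  rw [Finsupp.add_apply, Finsupp.zero_apply]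
  exact CharTwo.add_self_eq_zero (a q)

theorem cl_sq (g : F) : cl (g ^ 2) = 0 := by
  rw [pow_two, cl_mul, a2_two]

theorem cl_N2 {n : F} (hn : n ∈ N2) : cl n = 0 := by
  unfold N2 at hn
  induction hn using Subgroup.closure_induction with
  | mem y hy =>
    obtain ⟨h, rfl⟩ := hy
    exact cl_sq h
  | one => exact cl_one
  | mul a b _ _ ha hb => rw [cl_mul, ha, hb, add_zero]
  | inv a _ ha => rw [cl_inv, ha, neg_zero]

/-- words with even exponent sums are products of squares -/
theorem mem_N2_of_cl {w : F} (h : cl w = 0) : w ∈ N2 := by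
  have := N2_normal
  -- the quotient is abelian
  have hsq : ∀ a : F ⧸ N2, a * a = 1 := by
    intro a
    obtain ⟨g, rfl⟩ := QuotientGroup.mk_surjective a
    rw [← QuotientGroup.mk_mul, QuotientGroup.eq_one_iff, ← pow_two]
    exact sq_mem_N2 g
  have hcomm : ∀ a b : F ⧸ N2, a * b = b * a := by
    intro a b
    have h1 := hsq (a * b)
    have h2 : a * b = (a * b)⁻¹ := eq_inv_of_mul_eq_one_left h1
    have ha : a⁻¹ = a := (eq_inv_of_mul_eq_one_left (hsq a)).symm
    have hb : b⁻¹ = b := (eq_inv_of_mul_eq_one_left (hsq b)).symm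
    rw [h2, mul_inv_rev, ha, hb]
  let _ : CommGroup (F ⧸ N2) := { (inferInstance : Group (F ⧸ N2)) with mul_comm := hcomm }
  -- the homomorphism from the elementary abelian group
  obtain ⟨f, hf⟩ : ∃ f : A2 →+ Additive (F ⧸ N2), ∀ j, f (Finsupp.single j 1) =
      Additive.ofMul (QuotientGroup.mk (x j)) := by
    refine ⟨Finsupp.liftAddHom fun j => ZMod.lift 2 ⟨zmultiplesHom (Additive (F ⧸ N2))
      (Additive.ofMul (QuotientGroup.mk (x j))), ?_⟩, fun j => ?_⟩
    · show (((2 : ℕ) : ℤ)) • Additive.ofMul (QuotientGroup.mk (x j) : F ⧸ N2) = 0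
      rw [natCast_zsmul, two_nsmul]
      exact congrArg Additive.ofMul (hsq (QuotientGroup.mk (x j)))
    · rw [Finsupp.liftAddHom_apply_single]
      have h0 : (((2 : ℕ) : ℤ)) • Additive.ofMul (QuotientGroup.mk (x j) : F ⧸ N2) = 0 := by
        rw [natCast_zsmul, two_nsmul]
        exact congrArg Additive.ofMul (hsq (QuotientGroup.mk (x j)))
      have h := ZMod.lift_coe 2 (⟨zmultiplesHom (Additive (F ⧸ N2))
        (Additive.ofMul (QuotientGroup.mk (x j))), h0⟩ : {f : ℤ →+ Additive (F ⧸ N2) // f (2 : ℕ) = 0}) 1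
      rw [Int.cast_one] at h
      rw [h]
      show (1 : ℤ) • Additive.ofMul (QuotientGroup.mk (x j) : F ⧸ N2) = _
      rw [one_zsmul]
  have key : ∀ w : F, f (cl w) = Additive.ofMul (QuotientGroup.mk w) := by
    intro w
    induction w using FreeGroup.induction_on with
    | C1 =>
      rw [cl_one, map_zero]
      rfl
    | of j =>
      have h1 := cl_x j
      have h2 := hf j
      unfold x at h1 h2
      show f (cl (FreeGroup.of j)) = _
      rw [h1, h2]
    | inv_of j ih =>
      show f (cl (FreeGroup.of j)⁻¹) = Additive.ofMul (QuotientGroup.mk (FreeGroup.of j)⁻¹)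
      have ih' : f (cl (FreeGroup.of j)) = Additive.ofMul (QuotientGroup.mk (FreeGroup.of j)) := ih
      rw [cl_inv, map_neg, ih']
      rfl
    | mul u v hu hv =>
      rw [cl_mul, map_add, hu, hv]
      rfl
  have h1 := key w
  rw [h, map_zero] at h1
  have h2 : (QuotientGroup.mk w : F ⧸ N2) = 1 := h1.symm
  exact (QuotientGroup.eq_one_iff w).1 h2

theorem cl_surj (a : A2) : ∃ w : F, cl w = a := by
  induction a using Finsupp.induction_linear with
  | zero => exact ⟨1, cl_one⟩
  | add f g hf hg =>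
    obtain ⟨u, hu⟩ := hf
    obtain ⟨v, hv⟩ := hg
    exact ⟨u * v, by rw [cl_mul, hu, hv]⟩
  | single j c =>
    have hc : c = 0 ∨ c = 1 := by
      revert c
      decide
    rcases hc with rfl | rfl
    · exact ⟨1, by rw [cl_one, Finsupp.single_zero]⟩
    · exact ⟨x j, cl_x j⟩

/-- a word with the given class -/
noncomputable def sec (a : A2) : F := (cl_surj a).choose

theorem cl_sec (a : A2) : cl (sec a) = a := (cl_surj a).choose_spec

/-- insertion of a letter -/
noncomputable def zE (p : ℕ) : F →* F := FreeGroup.lift fun j => x (sp p j)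

/-- `x k` is replaced by `x k * x p` -/
noncomputable def cE (k p : ℕ) : F →* F := FreeGroup.lift fun j => if j = k then x k * x p else x j

theorem zE_x (p j : ℕ) : zE p (x j) = x (sp p j) := by
  unfold zE
  exact FreeGroup.lift_apply_of

theorem cE_x (k p j : ℕ) : cE k p (x j) = if j = k then x k * x p else x j := by
  unfold cE
  exact FreeGroup.lift_apply_of

theorem zV_add (p : ℕ) (a b : A2) : zV p (a + b) = zV p a + zV p b := Finsupp.mapDomain_add

theorem zV_zero (p : ℕ) : zV p 0 = 0 := Finsupp.mapDomain_zero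

theorem cV_add (k p : ℕ) (a b : A2) : cV k p (a + b) = cV k p a + cV k p b := by
  unfold cV
  rw [Finsupp.add_apply, Finsupp.single_add]
  abel

theorem cV_zero (k p : ℕ) : cV k p 0 = 0 := by
  unfold cV
  rw [Finsupp.zero_apply, Finsupp.single_zero, add_zero]

theorem a2_neg (a : A2) : -a = a := (eq_neg_of_add_eq_zero_left (a2_two a)).symm

theorem cl_zE (p : ℕ) (w : F) : cl (zE p w) = zV p (cl w) := by
  have hx : ∀ j, cl (zE p (FreeGroup.of j)) = zV p (cl (FreeGroup.of j)) := by
    intro j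
    have h1 := zE_x p j
    have h2 := cl_x j
    unfold x at h2
    have h3 : zE p (FreeGroup.of j) = x (sp p j) := h1
    rw [h3, cl_x, h2]
    unfold zV
    rw [Finsupp.mapDomain_single]
  induction w using FreeGroup.induction_on with
  | C1 => rw [map_one, cl_one, zV_zero]
  | of j => exact hx j
  | inv_of j _ =>
    show cl (zE p (FreeGroup.of j)⁻¹) = zV p (cl (FreeGroup.of j)⁻¹)
    rw [map_inv, cl_inv, cl_inv, a2_neg, a2_neg, hx]
  | mul u v hu hv => rw [map_mul, cl_mul, cl_mul, zV_add, hu, hv]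

theorem cl_cE (k p : ℕ) (w : F) : cl (cE k p w) = cV k p (cl w) := by
  have hx : ∀ j, cl (cE k p (FreeGroup.of j)) = cV k p (cl (FreeGroup.of j)) := by
    intro j
    have h2 := cl_x j
    unfold x at h2
    have h3 : cE k p (FreeGroup.of j) = if j = k then x k * x p else x j := cE_x k p j
    rw [h3, h2]
    unfold cV
    by_cases hj : j = k
    · rw [if_pos hj, hj, Finsupp.single_eq_same, cl_mul, cl_x, cl_x]
    · rw [if_neg hj, Finsupp.single_eq_of_ne (fun h => hj h.symm), Finsupp.single_zero, add_zero, cl_x]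
  induction w using FreeGroup.induction_on with
  | C1 => rw [map_one, cl_one, cV_zero]
  | of j => exact hx j
  | inv_of j _ =>
    show cl (cE k p (FreeGroup.of j)⁻¹) = cV k p (cl (FreeGroup.of j)⁻¹)
    rw [map_inv, cl_inv, cl_inv, a2_neg, a2_neg, hx]
  | mul u v hu hv => rw [map_mul, cl_mul, cl_mul, cV_add, hu, hv]

/-- a word involves finitely many letters -/
theorem word_vars (w : F) : ∃ T : ℕ, ∀ φ ψ : F →* F, (∀ j < T, φ (x j) = ψ (x j)) → φ w = ψ w := by
  induction w using FreeGroup.induction_on with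
  | C1 => exact ⟨0, fun φ ψ _ => by rw [map_one, map_one]⟩
  | of j => exact ⟨j + 1, fun φ ψ h => h j (Nat.lt_succ_self j)⟩
  | inv_of j _ =>
    refine ⟨j + 1, fun φ ψ h => ?_⟩
    have h1 : φ (FreeGroup.of j) = ψ (FreeGroup.of j) := h j (Nat.lt_succ_self j)
    show φ (FreeGroup.of j)⁻¹ = ψ (FreeGroup.of j)⁻¹
    rw [map_inv, map_inv, h1]
  | mul u v hu hv =>
    obtain ⟨T, hT⟩ := hu
    obtain ⟨T', hT'⟩ := hv
    refine ⟨max T T', fun φ ψ h => ?_⟩
    rw [map_mul, map_mul, hT φ ψ fun j hj => h j (lt_of_lt_of_le hj (le_max_left _ _)),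
      hT' φ ψ fun j hj => h j (lt_of_lt_of_le hj (le_max_right _ _))]

/-- an element of the group ring involves finitely many letters -/
theorem elt_vars (p : FA) : ∃ T : ℕ, ∀ φ ψ : F →* F, (∀ j < T, φ (x j) = ψ (x j)) → eA φ p = eA ψ p := by
  induction p using MonoidAlgebra.induction_on with
  | of g =>
    obtain ⟨T, hT⟩ := word_vars g
    refine ⟨T, fun φ ψ h => ?_⟩
    show eA φ (ofF g) = eA ψ (ofF g)
    rw [eA_of, eA_of, hT φ ψ h]
  | add a b ha hb =>
    obtain ⟨T, hT⟩ := ha
    obtain ⟨T', hT'⟩ := hb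
    refine ⟨max T T', fun φ ψ h => ?_⟩
    rw [map_add, map_add, hT φ ψ fun j hj => h j (lt_of_lt_of_le hj (le_max_left _ _)),
      hT' φ ψ fun j hj => h j (lt_of_lt_of_le hj (le_max_right _ _))]
  | smul r a ha =>
    obtain ⟨T, hT⟩ := ha
    refine ⟨T, fun φ ψ h => ?_⟩
    rw [map_zsmul, map_zsmul, hT φ ψ h]

/-- finitely many elements of the group ring involve finitely many letters -/
theorem elts_vars {s : ℕ} (r : Fin s → FA) :
    ∃ T : ℕ, ∀ i, ∀ φ ψ : F →* F, (∀ j < T, φ (x j) = ψ (x j)) → eA φ (r i) = eA ψ (r i) := by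
  choose T hT using fun i => elt_vars (r i)
  refine ⟨Finset.univ.sup T, fun i φ ψ h => hT i φ ψ fun j hj => h j (lt_of_lt_of_le hj ?_)⟩
  exact Finset.le_sup (Finset.mem_univ i)

end E4.N
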