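import Pool.Agent.Lib.MP_8a95e3_al.NF2
import Pool.Agent.Lib.MP_8a95e3_al.NA1

/-!
# NF3 : chains between the differentials with coefficients in `K` and in `P`
-/

namespace E4.N

open E4.J

/-- multiplication by an element of `N2` from the left -/
theorem left_N2 {K P : AddSubgroup FA} (hK : TIdl K) (hJ : ∀ g : F, ∀ p ∈ P, sqe ofF g * p ∈ K) {n : F} (hn : n ∈ N2)
    {p : FA} (hp : p ∈ P) : (ofF n - 1) * p ∈ K := by
  unfold N2 at hn
  induction hn using Subgroup.closure_induction with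
  | mem y hy =>
    obtain ⟨g, rfl⟩ := hy
    have e : (ofF (g ^ 2) - 1) * p = sqe ofF g * p - 2 * p := by
      unfold sqe
      rw [map_pow]
      noncomm_ring
    rw [e]
    exact K.sub_mem (hJ g p hp) (hK.right p _ hK.two)
  | one =>
    rw [map_one, sub_self, zero_mul]
    exact K.zero_mem
  | mul a b _ _ ha hb =>
    have e : (ofF (a * b) - 1) * p = ofF a * ((ofF b - 1) * p) + (ofF a - 1) * p := by
      rw [map_mul]
      noncomm_ring
    rw [e]
    exact K.add_mem (hK.left _ _ hb) ha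
  | inv a _ ha =>
    have e : (ofF a⁻¹ - 1) * p = -(ofF a⁻¹ * ((ofF a - 1) * p)) := by
      have e1 : ofF a⁻¹ * ofF a = 1 := by rw [← map_mul, inv_mul_cancel, map_one]
      have e2 : ofF a⁻¹ * ((ofF a - 1) * p) = (ofF a⁻¹ * ofF a) * p - ofF a⁻¹ * p := by noncomm_ring
      rw [e2, e1]
      noncomm_ring
    rw [e]
    exact K.neg_mem (hK.left _ _ ha)

/-- multiplication by an element of `N2` from the right -/
theorem right_N2 {K P : AddSubgroup FA} (hK : TIdl K) (hJ : ∀ g : F, ∀ p ∈ P, p * sqe ofF g ∈ K) {n : F} (hn : n ∈ N2)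
    {p : FA} (hp : p ∈ P) : p * (ofF n - 1) ∈ K := by
  unfold N2 at hn
  induction hn using Subgroup.closure_induction with
  | mem y hy =>
    obtain ⟨g, rfl⟩ := hy
    have e : p * (ofF (g ^ 2) - 1) = p * sqe ofF g - p * 2 := by
      unfold sqe
      rw [map_pow]
      noncomm_ring
    rw [e]
    exact K.sub_mem (hJ g p hp) (hK.left p _ hK.two)
  | one =>
    rw [map_one, sub_self, mul_zero]
    exact K.zero_mem
  | mul a b _ _ ha hb =>
    have e : p * (ofF (a * b) - 1) = p * (ofF a - 1) * ofF b + p * (ofF b - 1) := by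
      rw [map_mul]
      noncomm_ring
    rw [e]
    exact K.add_mem (hK.right _ _ ha) hb
  | inv a _ ha =>
    have e : p * (ofF a⁻¹ - 1) = -(p * (ofF a - 1) * ofF a⁻¹) := by
      have e1 : ofF a * ofF a⁻¹ = 1 := by rw [← map_mul, mul_inv_cancel, map_one]
      have e2 : p * (ofF a - 1) * ofF a⁻¹ = p * (ofF a * ofF a⁻¹) - p * ofF a⁻¹ := by noncomm_ring
      rw [e2, e1]
      noncomm_ring
    rw [e]
    exact K.neg_mem (hK.right _ _ ha)

theorem a2_eq_of_neg_add {a b : A2} (h : -a + b = 0) : a = b := neg_add_eq_zero.1 h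

theorem cl_diff {u v : F} (h : cl u = cl v) : u⁻¹ * v ∈ N2 := by
  refine mem_N2_of_cl ?_
  rw [cl_mul, cl_inv, h, neg_add_cancel]

theorem cl_diff' {u v : F} (h : cl u = cl v) : v * u⁻¹ ∈ N2 := by
  refine mem_N2_of_cl ?_
  rw [cl_mul, cl_inv, h, add_neg_cancel]

/-- the values depend on the classes of the letters only, modulo `K` -/
theorem cong_val {K P : AddSubgroup FA} (hK : TIdl K) (hP : TIdl P) {s : ℕ} (r : Fin s → FA) (hr : ∀ i, r i ∈ P)
    (hins : ∀ i, ∀ φ ψ : F →* F, (∀ j, cl (φ (x j)) = cl (ψ (x j))) → eA φ (r i) - eA ψ (r i) ∈ K)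
    (hJl : ∀ g : F, ∀ p ∈ P, sqe ofF g * p ∈ K) (hJr : ∀ g : F, ∀ p ∈ P, p * sqe ofF g ∈ K)
    {T : ℕ} (hT : ∀ i, ∀ φ ψ : F →* F, (∀ j < T, φ (x j) = ψ (x j)) → eA φ (r i) = eA ψ (r i))
    (i : Fin s) {u u' c c' : F} {φ ψ : F →* F} (hu : cl u = cl u') (hc : cl c = cl c')
    (hφ : ∀ j < T, cl (φ (x j)) = cl (ψ (x j))) :
    ofF u * eA φ (r i) * ofF c - ofF u' * eA ψ (r i) * ofF c' ∈ K := by
  obtain ⟨ψ', hψ'⟩ : ∃ ψ' : F →* F, ∀ j, ψ' (x j) = if j < T then ψ (x j) else φ (x j) :=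
    ⟨FreeGroup.lift fun j => if j < T then ψ (x j) else φ (x j), fun j => FreeGroup.lift_apply_of⟩
  have h1 : eA ψ (r i) = eA ψ' (r i) := by
    refine hT i ψ ψ' fun j hj => ?_
    rw [hψ', if_pos hj]
  have h2 : eA φ (r i) - eA ψ (r i) ∈ K := by
    rw [h1]
    refine hins i φ ψ' fun j => ?_
    rw [hψ']
    by_cases hj : j < T
    · rw [if_pos hj]
      exact hφ j hj
    · rw [if_neg hj]
  have hb : eA ψ (r i) ∈ P := hP.endo ψ _ (hr i)
  have h3 : (ofF u - ofF u') * (eA ψ (r i) * ofF c) ∈ K := by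
    have e1 : ofF u' = ofF u * ofF (u⁻¹ * u') := by rw [← map_mul, mul_inv_cancel_left]
    have e2 : (ofF u - ofF u') * (eA ψ (r i) * ofF c) =
        -(ofF u * ((ofF (u⁻¹ * u') - 1) * (eA ψ (r i) * ofF c))) := by
      rw [e1]
      noncomm_ring
    rw [e2]
    exact K.neg_mem (hK.left _ _ (left_N2 hK hJl (cl_diff hu) (hP.right _ _ hb)))
  have h4 : ofF u' * (eA ψ (r i) * (ofF c - ofF c')) ∈ K := by
    have e1 : ofF c' = ofF (c' * c⁻¹) * ofF c := by rw [← map_mul, inv_mul_cancel_right]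
    have e2 : eA ψ (r i) * (ofF c - ofF c') = -(eA ψ (r i) * (ofF (c' * c⁻¹) - 1) * ofF c) := by
      rw [e1]
      noncomm_ring
    rw [e2]
    exact hK.left _ _ (K.neg_mem (hK.right _ _ (right_N2 hK hJr (cl_diff' hc) hb)))
  have e : ofF u * eA φ (r i) * ofF c - ofF u' * eA ψ (r i) * ofF c' =
      ofF u * (eA φ (r i) - eA ψ (r i)) * ofF c + (ofF u - ofF u') * (eA ψ (r i) * ofF c) +
        ofF u' * (eA ψ (r i) * (ofF c - ofF c')) := by
    noncomm_ring
  rw [e]
  exact K.add_mem (K.add_mem (hK.right _ _ (hK.left _ _ h2)) h3) h4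

/-- the vector number `i`, zero outside of the range -/
noncomputable def vc {t : ℕ} (a : Fin (t + 1) → A2) (i : ℕ) : A2 := if h : i < t + 1 then a ⟨i, h⟩ else 0

theorem vc_zT {s t : ℕ} (p : ℕ) (b : BT s t) (i : ℕ) : vc (zT p b).2.1 i = zV p (vc b.2.1 i) := by
  unfold vc
  by_cases h : i < t + 1
  · rw [dif_pos h, dif_pos h]
    rfl
  · rw [dif_neg h, dif_neg h, zV_zero]

theorem vc_cT {s t : ℕ} (k p : ℕ) (b : BT s t) (i : ℕ) : vc (cT k p b).2.1 i = cV k p (vc b.2.1 i) := by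
  unfold vc
  by_cases h : i < t + 1
  · rw [dif_pos h, dif_pos h]
    rfl
  · rw [dif_neg h, dif_neg h, cV_zero]

theorem vc_eT {s t : ℕ} (k p : ℕ) (b : BT s t) (i : ℕ) :
    vc (eT k p b).2.1 i = if i = 0 then cV k p (vc b.2.1 i) + Finsupp.single k 1 else cV k p (vc b.2.1 i) := by
  unfold vc
  by_cases h : i < t + 1
  · rw [dif_pos h, dif_pos h]
    show (if (⟨i, h⟩ : Fin (t + 1)) = 0 then cV k p (b.2.1 ⟨i, h⟩) + Finsupp.single k 1 else cV k p (b.2.1 ⟨i, h⟩)) = _
    by_cases h0 : i = 0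
    · subst h0
      rw [if_pos rfl]
      exact if_pos rfl
    · rw [if_neg h0, if_neg (fun h1 => h0 (congrArg Fin.val h1))]
  · rw [dif_neg h, dif_neg h, cV_zero]
    have h0 : i ≠ 0 := by omega
    rw [if_neg h0]

/-- the endomorphism with given classes of the values of the letters -/
noncomputable def asg {t : ℕ} (a : Fin (t + 1) → A2) : F →* F := FreeGroup.lift fun j => sec (vc a (j + 2))

theorem cl_asg {t : ℕ} (a : Fin (t + 1) → A2) (j : ℕ) : cl (asg a (x j)) = vc a (j + 2) := by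
  have h : asg a (x j) = sec (vc a (j + 2)) := FreeGroup.lift_apply_of
  rw [h, cl_sec]

/-- the coefficient attached to an element of the basis -/
noncomputable def pv {s t : ℕ} (r : Fin s → FA) (b : BT s t) : FA :=
  ofF (sec (vc b.2.1 1)) * eA (asg b.2.1) (r b.1) * ofF (sec (vc b.2.1 0))

theorem eA_comp (φ ψ : F →* F) (p : FA) : eA φ (eA ψ p) = eA (φ.comp ψ) p := by
  induction p using MonoidAlgebra.induction_on with
  | of g =>
    show eA φ (eA ψ (ofF g)) = eA (φ.comp ψ) (ofF g)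
    rw [eA_of, eA_of, eA_of]
    rfl
  | add a b ha hb => rw [map_add, map_add, map_add, ha, hb]
  | smul r a ha => rw [map_zsmul, map_zsmul, map_zsmul, ha]

/-- **Chains between `OmS K` and `OmS P` stabilise.** -/
theorem omega_acc {K P : AddSubgroup FA} (hK : TIdl K) (hP : TIdl P) {s : ℕ} (r : Fin s → FA) (hr : ∀ i, r i ∈ P)
    (hgen : P ≤ K ⊔ AddSubgroup.closure
      {p | ∃ (a b : F) (φ : F →* F) (i : Fin s), p = ofF a * eA φ (r i) * ofF b})
    (hins : ∀ i, ∀ φ ψ : F →* F, (∀ j, cl (φ (x j)) = cl (ψ (x j))) → eA φ (r i) - eA ψ (r i) ∈ K)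
    (hJl : ∀ g : F, ∀ p ∈ P, sqe ofF g * p ∈ K) (hJr : ∀ g : F, ∀ p ∈ P, p * sqe ofF g ∈ K)
    (U : ℕ → AddSubgroup Om) (hU : Monotone U) (hKU : ∀ n, OmS K ≤ U n) (hUP : ∀ n, U n ≤ OmS P)
    (hend : ∀ n, ∀ φ : F →* F, ∀ m ∈ U n, pOm φ m ∈ U n) : ∃ n, ∀ m ≥ n, U m = U n := by
  classical
  obtain ⟨T, hT⟩ := elts_vars r
  have hcong := fun (i : Fin s) {u u' c c' : F} {φ ψ : F →* F} =>
    cong_val hK hP r hr hins hJl hJr hT i (u := u) (u' := u') (c := c) (c' := c') (φ := φ) (ψ := ψ)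
  have hpvP : ∀ b : BT s (T + 1), pv r b ∈ P := fun b =>
    hP.right _ _ (hP.left _ _ (hP.endo _ _ (hr _)))
  have h2P : ∀ q : FA, (2 : FA) * q ∈ K := fun q => hK.right q _ hK.two
  have eqE : ∀ (θ : F →* F) (b : BT s (T + 1)), eA θ (pv r b) = ofF (θ (sec (vc b.2.1 1))) *
      eA (θ.comp (asg b.2.1)) (r b.1) * ofF (θ (sec (vc b.2.1 0))) := by
    intro θ b
    unfold pv
    rw [map_mul, map_mul, eA_of, eA_of, eA_comp]
  refine acc_of_gen (s := s) (t := T + 1) (OmS K) (fun b => Finsupp.single b.2.2 (pv r b)) ?_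
    (fun p => pOm (zE p)) (fun k p => pOm (cE k p)) (fun p m hm => OmS_pOm hK _ hm)
    (fun k p _ m hm => OmS_pOm hK _ hm) ?_ ?_ U hU hKU ?_ (fun n p m hm => hend n _ m hm)
    (fun n k p _ m hm => hend n _ m hm)
  · -- four times
    intro b
    have e : (4 : ℕ) • (Finsupp.single b.2.2 (pv r b) : Om) = Finsupp.single b.2.2 (2 * (2 * pv r b)) := by
      rw [Finsupp.smul_single, nsmul_eq_mul]
      congr 1
      push_cast
      noncomm_ring
    show (4 : ℕ) • (Finsupp.single b.2.2 (pv r b) : Om) ∈ OmS K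
    rw [e]
    exact OmS_single (h2P _) _
  · -- insertion of a letter
    intro p b
    show pOm (zE p) (Finsupp.single b.2.2 (pv r b)) - Finsupp.single (zT p b).2.2 (pv r (zT p b)) ∈ OmS K
    have e : pOm (zE p) (Finsupp.single b.2.2 (pv r b)) = Finsupp.single (zT p b).2.2 (eA (zE p) (pv r b)) := by
      rw [pOm_single, zE_x, fox_x, Finsupp.smul_single, smul_eq_mul, mul_one]
      rfl
    rw [e, ← Finsupp.single_sub]
    refine OmS_single ?_ _
    rw [eqE]
    refine hcong b.1 ?_ ?_ fun j _ => ?_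
    · rw [cl_zE, cl_sec, cl_sec, vc_zT]
    · rw [cl_zE, cl_sec, cl_sec, vc_zT]
    · have e1 : ((zE p).comp (asg b.2.1)) (x j) = zE p (asg b.2.1 (x j)) := rfl
      rw [e1, cl_zE, cl_asg, cl_asg, vc_zT]
  · -- the second operator
    intro k p b hkp
    show pOm (cE k p) (Finsupp.single b.2.2 (pv r b)) - (Finsupp.single (cT k p b).2.2 (pv r (cT k p b)) +
      if b.2.2 = k then Finsupp.single (eT k p b).2.2 (pv r (eT k p b)) else 0) ∈ OmS K
    have h1 : eA (cE k p) (pv r b) - pv r (cT k p b) ∈ K := by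
      rw [eqE]
      refine hcong b.1 ?_ ?_ fun j _ => ?_
      · rw [cl_cE, cl_sec, cl_sec, vc_cT]
      · rw [cl_cE, cl_sec, cl_sec, vc_cT]
      · have e1 : ((cE k p).comp (asg b.2.1)) (x j) = cE k p (asg b.2.1 (x j)) := rfl
        rw [e1, cl_cE, cl_asg, cl_asg, vc_cT]
    have h2 : eA (cE k p) (pv r b) * ofF (x k) - pv r (eT k p b) ∈ K := by
      rw [eqE]
      have e1 : ofF ((cE k p) (sec (vc b.2.1 1))) * eA ((cE k p).comp (asg b.2.1)) (r b.1) *
          ofF ((cE k p) (sec (vc b.2.1 0))) * ofF (x k) = ofF ((cE k p) (sec (vc b.2.1 1))) *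
          eA ((cE k p).comp (asg b.2.1)) (r b.1) * ofF ((cE k p) (sec (vc b.2.1 0)) * x k) := by
        rw [map_mul (f := ofF), ← mul_assoc]
      rw [e1]
      refine hcong b.1 ?_ ?_ fun j _ => ?_
      · rw [cl_cE, cl_sec, cl_sec, vc_eT, if_neg one_ne_zero]
      · rw [cl_mul, cl_cE, cl_sec, cl_sec, vc_eT, if_pos rfl, cl_x]
      · have e2 : ((cE k p).comp (asg b.2.1)) (x j) = cE k p (asg b.2.1 (x j)) := rfl
        rw [e2, cl_cE, cl_asg, cl_asg, vc_eT, if_neg (by omega)]
    by_cases hk : b.2.2 = k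
    · have e : pOm (cE k p) (Finsupp.single b.2.2 (pv r b)) =
          Finsupp.single k (eA (cE k p) (pv r b)) + Finsupp.single p (eA (cE k p) (pv r b) * ofF (x k)) := by
        rw [pOm_single, cE_x, if_pos hk, fox_mul, fox_x, fox_x, smul_add, Finsupp.smul_single, smul_smul,
          Finsupp.smul_single, smul_eq_mul, smul_eq_mul, mul_one, mul_one]
      rw [e, if_pos hk]
      have e3 : (cT k p b).2.2 = k := hk
      have e4 : (eT k p b).2.2 = p := rfl
      rw [e3, e4]
      have e5 : Finsupp.single k (eA (cE k p) (pv r b)) + Finsupp.single p (eA (cE k p) (pv r b) * ofF (x k)) -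
          (Finsupp.single k (pv r (cT k p b)) + Finsupp.single p (pv r (eT k p b))) =
          Finsupp.single k (eA (cE k p) (pv r b) - pv r (cT k p b)) +
          Finsupp.single p (eA (cE k p) (pv r b) * ofF (x k) - pv r (eT k p b)) := by
        rw [Finsupp.single_sub, Finsupp.single_sub]
        abel
      rw [e5]
      exact (OmS K).add_mem (OmS_single h1 _) (OmS_single h2 _)
    · have e : pOm (cE k p) (Finsupp.single b.2.2 (pv r b)) =
          Finsupp.single (cT k p b).2.2 (eA (cE k p) (pv r b)) := by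
        rw [pOm_single, cE_x, if_neg hk, fox_x, Finsupp.smul_single, smul_eq_mul, mul_one]
        rfl
      rw [e, if_neg hk, add_zero, ← Finsupp.single_sub]
      exact OmS_single h1 _
  · -- generation
    intro n m hm
    have hm' := hUP n hm
    have e : m = m.sum fun j q => Finsupp.single j q := (Finsupp.sum_single m).symm
    rw [e, Finsupp.sum]
    refine AddSubgroup.sum_mem _ fun j _ => ?_
    have h1 : m j ∈ K ⊔ AddSubgroup.closure {p | ∃ (a b : F) (φ : F →* F) (i : Fin s),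
      p = ofF a * eA φ (r i) * ofF b} := hgen (hm' j)
    have h2 : (K ⊔ AddSubgroup.closure {p | ∃ (a b : F) (φ : F →* F) (i : Fin s),
        p = ofF a * eA φ (r i) * ofF b}).map (Finsupp.singleAddHom j) ≤
        OmS K ⊔ AddSubgroup.closure (Set.range fun b : BT s (T + 1) => Finsupp.single b.2.2 (pv r b)) := by
      rw [AddSubgroup.map_sup, sup_le_iff]
      constructor
      · rintro _ ⟨q, hq, rfl⟩
        exact AddSubgroup.mem_sup_left (OmS_single hq j)
      · rw [AddMonoidHom.map_closure, AddSubgroup.closure_le]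
        rintro _ ⟨_, ⟨a, b, φ, i, rfl⟩, rfl⟩
        obtain ⟨β, hβ⟩ : ∃ β : BT s (T + 1), β = (i, (fun l : Fin (T + 1 + 1) =>
          if (l : ℕ) = 0 then cl b else if (l : ℕ) = 1 then cl a else cl (φ (x ((l : ℕ) - 2)))), j) := ⟨_, rfl⟩
        have hb0 : vc β.2.1 0 = cl b := by
          rw [hβ]
          rfl
        have hb1 : vc β.2.1 1 = cl a := by
          rw [hβ]
          unfold vc
          rw [dif_pos (by omega)]
          rfl
        have hb2 : ∀ l < T, vc β.2.1 (l + 2) = cl (φ (x l)) := by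
          intro l hl
          rw [hβ]
          unfold vc
          rw [dif_pos (by omega)]
          show (if l + 2 = 0 then cl b else if l + 2 = 1 then cl a else cl (φ (x (l + 2 - 2)))) = _
          rw [if_neg (by omega), if_neg (by omega), Nat.add_sub_cancel]
        have h3 : Finsupp.single j (ofF a * eA φ (r i) * ofF b - pv r β) ∈ OmS K := by
          refine OmS_single ?_ _
          have hi : β.1 = i := by rw [hβ]
          unfold pv
          rw [hi]
          refine hcong i ?_ ?_ fun l hl => ?_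
          · rw [cl_sec, hb1]
          · rw [cl_sec, hb0]
          · rw [cl_asg, hb2 l hl]
        have hj : β.2.2 = j := by rw [hβ]
        have e4 : (Finsupp.singleAddHom j) (ofF a * eA φ (r i) * ofF b) =
            Finsupp.single j (ofF a * eA φ (r i) * ofF b - pv r β) + Finsupp.single β.2.2 (pv r β) := by
          rw [hj, ← Finsupp.single_add, sub_add_cancel]
          rfl
        show (Finsupp.singleAddHom j) (ofF a * eA φ (r i) * ofF b) ∈ _
        rw [e4]
        exact add_mem (AddSubgroup.mem_sup_left h3)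
          (AddSubgroup.mem_sup_right (AddSubgroup.subset_closure ⟨β, rfl⟩))
    exact h2 ⟨m j, h1, rfl⟩

end E4.N
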