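import Pool.Agent.Lib.MP_8a95e3_al.NF3
import Pool.Agent.Lib.MP_8a95e3_al.Fin

/-!
# NF4 : THEOREM D (the final deduction)
-/

namespace E4.N

/-- A proper verbal subgroup (containing the fourth powers) consists of words with even exponent sums. -/
theorem cl_of_verb {W : Subgroup F} (hW : Verb4 W) (hWs : ¬ Sol W) {w : F} (hw : w ∈ W) : cl w = 0 := by
  classical
  by_contra hne
  obtain ⟨j, hj⟩ : ∃ j, cl w j ≠ 0 := by
    by_contra h
    push Not at h
    exact hne (Finsupp.ext h)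
  obtain ⟨φ, hφ⟩ : ∃ φ : F →* F, ∀ i, φ (x i) = if i = j then x 0 else 1 :=
    ⟨FreeGroup.lift fun i => if i = j then x 0 else 1, fun i => FreeGroup.lift_apply_of⟩
  have h1 : ∀ u : F, cl (φ u) = Finsupp.single 0 (cl u j) := by
    intro u
    have hx : ∀ i, cl (φ (x i)) = Finsupp.single 0 (cl (x i) j) := by
      intro i
      rw [hφ, cl_x]
      by_cases hij : i = j
      · rw [if_pos hij, hij, Finsupp.single_eq_same, cl_x]
      · rw [if_neg hij, cl_one, Finsupp.single_eq_of_ne (fun h => hij h.symm), Finsupp.single_zero]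
    induction u using FreeGroup.induction_on with
    | C1 => rw [map_one, cl_one, Finsupp.zero_apply, Finsupp.single_zero]
    | of i => exact hx i
    | inv_of i _ =>
      show cl (φ (x i)⁻¹) = Finsupp.single 0 (cl (x i)⁻¹ j)
      rw [map_inv, cl_inv, cl_inv, a2_neg, a2_neg, hx]
    | mul a b ha hb => rw [map_mul, cl_mul, cl_mul, Finsupp.add_apply, Finsupp.single_add, ha, hb]
  have h2 : ∀ u : F, φ u ∈ Subgroup.zpowers (x 0) := by
    intro u
    have hx : ∀ i, φ (x i) ∈ Subgroup.zpowers (x 0) := by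
      intro i
      rw [hφ]
      by_cases hij : i = j
      · rw [if_pos hij]
        exact Subgroup.mem_zpowers _
      · rw [if_neg hij]
        exact Subgroup.one_mem _
    induction u using FreeGroup.induction_on with
    | C1 =>
      rw [map_one]
      exact Subgroup.one_mem _
    | of i => exact hx i
    | inv_of i _ =>
      show φ (x i)⁻¹ ∈ Subgroup.zpowers (x 0)
      rw [map_inv]
      exact Subgroup.inv_mem _ (hx i)
    | mul a b ha hb =>
      rw [map_mul]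
      exact Subgroup.mul_mem _ ha hb
  obtain ⟨e, he⟩ := Subgroup.mem_zpowers_iff.1 (h2 w)
  have hcz : ∀ n : ℤ, cl (x 0 ^ n) = Finsupp.single 0 (n : ZMod 2) := by
    intro n
    have h3 : clm (x 0 ^ n) = clm (x 0) ^ n := map_zpow _ _ _
    have h4 : cl (x 0 ^ n) = n • cl (x 0) := by
      unfold cl
      rw [h3]
      rfl
    rw [h4, cl_x, Finsupp.smul_single, zsmul_eq_mul, mul_one]
  have h3 : Finsupp.single 0 (e : ZMod 2) = (Finsupp.single 0 (cl w j) : A2) := by
    rw [← hcz, he, h1]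
  have h4 : (e : ZMod 2) = cl w j := Finsupp.single_injective 0 h3
  have h5 : ¬ Even e := by
    intro h
    rw [← ZMod.intCast_eq_zero_iff_even] at h
    exact hj (h4 ▸ h)
  rw [Int.not_even_iff_odd] at h5
  obtain ⟨d, hd⟩ := h5
  have h6 : x 0 ^ e ∈ W := by
    rw [he]
    exact hW.endo φ w hw
  have h7 : x 0 ∈ W := by
    have h8 : (x 0 ^ e) ^ e ∈ W := W.zpow_mem h6 e
    have h9 : ((x 0) ^ 4) ^ (-(d * d + d)) ∈ W := W.zpow_mem (hW.four _) _
    have h10 := W.mul_mem h8 h9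
    have e1 : (x 0 ^ e) ^ e * ((x 0) ^ 4) ^ (-(d * d + d)) = x 0 := by
      rw [← zpow_natCast, ← zpow_mul, ← zpow_mul, ← zpow_add]
      have e2 : e * e + ((4 : ℕ) : ℤ) * (-(d * d + d)) = 1 := by
        rw [hd]
        push_cast
        ring
      rw [e2, zpow_one]
    rwa [e1] at h10
  refine hWs ⟨0, fun g _ => ?_⟩
  have h8 := hW.endo (FreeGroup.lift fun _ : ℕ => g) _ h7
  have h9 : (FreeGroup.lift fun _ : ℕ => g) (x 0) = g := FreeGroup.lift_apply_of
  rwa [h9] at h8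

/-- verbal subgroups below `W` are finitely generated as verbal subgroups if ascending sequences stabilise -/
theorem fb_of_acc {W : Subgroup F}
    (hacc : ∀ U : ℕ → Subgroup F, Monotone U → (∀ n, Verb4 (U n)) → (∀ n, U n ≤ W) → ∃ n, ∀ m ≥ n, U m = U n)
    (V : Subgroup F) (hV : Verb4 V) (hVW : V ≤ W) : ∃ T : Finset F, V = vcl (T : Set F) := by
  classical
  by_contra hne
  push Not at hne
  have key : ∀ T : {T : Finset F // (T : Set F) ⊆ V}, ∃ w ∈ V, w ∉ vcl (T.1 : Set F) := by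
    intro T
    by_contra h
    push Not at h
    exact hne T.1 (le_antisymm h (E4.vcl_le hV T.2))
  choose w hw1 hw2 using key
  have h0 : ((({x 0 ^ 4} : Finset F)) : Set F) ⊆ V := by
    intro s hs
    rw [Finset.mem_coe, Finset.mem_singleton] at hs
    rw [hs]
    exact hV.four _
  have hn : ∀ T : {T : Finset F // (T : Set F) ⊆ V}, ((insert (w T) T.1 : Finset F) : Set F) ⊆ V := by
    intro T s hs
    rw [Finset.mem_coe, Finset.mem_insert] at hs
    rcases hs with rfl | hs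
    · exact hw1 T
    · exact T.2 hs
  obtain ⟨T, hT0, hTs⟩ : ∃ T : ℕ → {T : Finset F // (T : Set F) ⊆ V},
      T 0 = ⟨{x 0 ^ 4}, h0⟩ ∧ ∀ n, T (n + 1) = ⟨insert (w (T n)) (T n).1, hn (T n)⟩ :=
    ⟨fun n => Nat.rec ⟨{x 0 ^ 4}, h0⟩ (fun _ S => ⟨insert (w S) S.1, hn S⟩) n, rfl, fun n => rfl⟩
  have hsub : ∀ n, (T n).1 ⊆ (T (n + 1)).1 := by
    intro n
    rw [hTs n]
    exact Finset.subset_insert _ _
  have hmono' : ∀ S S' : Set F, S ⊆ S' → vcl S ≤ vcl S' := by
    intro S S' h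
    refine Subgroup.closure_mono ?_
    rintro y ⟨s, hs, φ, rfl⟩
    exact ⟨s, h hs, φ, rfl⟩
  have hmono : Monotone fun n => vcl ((T n).1 : Set F) :=
    monotone_nat_of_le_succ fun n => hmono' _ _ (Finset.coe_subset.mpr (hsub n))
  have m1 : ∀ n, x 0 ^ 4 ∈ (T n).1 := by
    intro n
    induction n with
    | zero =>
      rw [hT0]
      exact Finset.mem_singleton_self _
    | succ n ih => exact hsub n ih
  obtain ⟨t, ht⟩ := hacc (fun n => vcl ((T n).1 : Set F)) hmono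
    (fun n => vcl_verb (Finset.mem_coe.mpr (m1 n)))
    (fun n => (E4.vcl_le hV (T n).2).trans hVW)
  have h1 := ht (t + 1) (Nat.le_succ t)
  have h2 : w (T t) ∈ vcl ((T (t + 1)).1 : Set F) := by
    refine E4.subset_vcl _ ?_
    rw [hTs t]
    exact Finset.mem_coe.mpr (Finset.mem_insert_self _ _)
  have h3 : vcl ((T (t + 1)).1 : Set F) = vcl ((T t).1 : Set F) := h1
  rw [h3] at h2
  exact hw2 (T t) h2

/-- the differentials of the words of `V`, modulo `K` -/
noncomputable def DV (K : AddSubgroup FA) (V : Subgroup F) : AddSubgroup Om :=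
  OmS K ⊔ AddSubgroup.closure {m | ∃ w ∈ V, m = fox w}

theorem smul_N2 {K P : AddSubgroup FA} (hK : TIdl K) (hJl : ∀ g : F, ∀ p ∈ P, sqe ofF g * p ∈ K) {n : F} (hn : n ∈ N2)
    {m : Om} (hm : m ∈ OmS P) : ofF n • m - m ∈ OmS K := by
  intro j
  have e : (ofF n • m - m) j = (ofF n - 1) * m j := by
    rw [Finsupp.sub_apply, Finsupp.smul_apply, smul_eq_mul, sub_mul, one_mul]
  rw [e]
  exact left_N2 hK hJl hn (hm j)

theorem mem_DV {K P : AddSubgroup FA} (hK : TIdl K) (hJl : ∀ g : F, ∀ p ∈ P, sqe ofF g * p ∈ K)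
    {V : Subgroup F} (hVN : ∀ w ∈ V, w ∈ N2) (hVP : ∀ w ∈ V, fox w ∈ OmS P) {m : Om} (hm : m ∈ DV K V) :
    ∃ w ∈ V, m - fox w ∈ OmS K := by
  unfold DV at hm
  obtain ⟨k, hk, c, hc, rfl⟩ := AddSubgroup.mem_sup.1 hm
  have h1 : ∃ w ∈ V, c - fox w ∈ OmS K := by
    clear hm
    induction hc using AddSubgroup.closure_induction with
    | mem y hy =>
      obtain ⟨w, hw, rfl⟩ := hy
      refine ⟨w, hw, ?_⟩
      rw [sub_self]
      exact (OmS K).zero_mem
    | zero =>
      refine ⟨1, V.one_mem, ?_⟩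
      rw [fox_one, sub_self]
      exact (OmS K).zero_mem
    | add a b _ _ ha hb =>
      obtain ⟨u, hu, hu'⟩ := ha
      obtain ⟨v, hv, hv'⟩ := hb
      refine ⟨u * v, V.mul_mem hu hv, ?_⟩
      have e : a + b - fox (u * v) = (a - fox u) + (b - fox v) - (ofF u • fox v - fox v) := by
        rw [fox_mul]
        abel
      rw [e]
      exact (OmS K).sub_mem ((OmS K).add_mem hu' hv') (smul_N2 hK hJl (hVN u hu) (hVP v hv))
    | neg a _ ha =>
      obtain ⟨u, hu, hu'⟩ := ha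
      refine ⟨u⁻¹, V.inv_mem hu, ?_⟩
      have e : -a - fox u⁻¹ = -(a - fox u) + (ofF u⁻¹ • fox u - fox u) := by
        rw [fox_inv]
        abel
      rw [e]
      exact (OmS K).add_mem ((OmS K).neg_mem hu') (smul_N2 hK hJl (hVN _ (V.inv_mem hu)) (hVP u hu))
  obtain ⟨w, hw, h2⟩ := h1
  refine ⟨w, hw, ?_⟩
  rw [add_sub_assoc]
  exact (OmS K).add_mem hk h2

/-- chains of stable subgroups between `Ω K` and `Ω P` stabilise -/
def OAcc (K P : AddSubgroup FA) : Prop :=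
  ∀ U : ℕ → AddSubgroup Om, Monotone U → (∀ n, OmS K ≤ U n) → (∀ n, U n ≤ OmS P) →
    (∀ n, ∀ φ : F →* F, ∀ m ∈ U n, pOm φ m ∈ U n) → ∃ n, ∀ m ≥ n, U m = U n

/-- two steps -/
theorem OAcc.trans {K Q P : AddSubgroup FA} (hQ : TIdl Q) (hKQ : K ≤ Q) (hQP : Q ≤ P) (h1 : OAcc K Q)
    (h2 : OAcc Q P) : OAcc K P := by
  intro U hU hKU hUP hend
  obtain ⟨n1, hn1⟩ := h1 (fun n => U n ⊓ OmS Q) (fun a b hab => inf_le_inf_right _ (hU hab))
    (fun n => le_inf (hKU n) (OmS_mono hKQ)) (fun n => inf_le_right)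
    (fun n φ m hm => ⟨hend n φ m hm.1, OmS_pOm hQ φ hm.2⟩)
  obtain ⟨n2, hn2⟩ := h2 (fun n => U n ⊔ OmS Q) (fun a b hab => sup_le_sup_right (hU hab) _) (fun n => le_sup_right)
    (fun n => sup_le (hUP n) (OmS_mono hQP)) (by
      intro n φ m hm
      have h3 : (U n ⊔ OmS Q).map (pOm φ) ≤ U n ⊔ OmS Q := by
        rw [AddSubgroup.map_sup]
        refine sup_le_sup ?_ ?_
        · rintro _ ⟨m, hm, rfl⟩
          exact hend n φ m hm
        · rintro _ ⟨m, hm, rfl⟩
          exact OmS_pOm hQ φ hm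
      exact h3 ⟨m, hm, rfl⟩)
  refine ⟨max n1 n2, fun m hm => le_antisymm (fun w hw => ?_) (hU hm)⟩
  have h3 : w ∈ U (max n1 n2) ⊔ OmS Q := by
    have h4 : w ∈ U m ⊔ OmS Q := AddSubgroup.mem_sup_left hw
    have h5 := hn2 m (le_trans (le_max_right _ _) hm)
    have h6 := hn2 (max n1 n2) (le_max_right _ _)
    rw [h5, ← h6] at h4
    exact h4
  obtain ⟨u, hu, c, hc, huc⟩ := AddSubgroup.mem_sup.1 h3
  have h4 : c ∈ U m ⊓ OmS Q := by
    refine ⟨?_, hc⟩
    have e : c = w - u := by rw [← huc, add_sub_cancel_left]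
    rw [e]
    exact (U m).sub_mem hw (hU hm hu)
  have h5 := hn1 m (le_trans (le_max_left _ _) hm)
  have h6 := hn1 (max n1 n2) (le_max_left _ _)
  rw [h5, ← h6] at h4
  rw [← huc]
  exact (U (max n1 n2)).add_mem hu h4.1

/-- **THEOREM D.** -/
theorem thmD {W : Subgroup F} (hW : Verb4 W) (hWs : ¬ Sol W)
    (hmax : ∀ V : Subgroup F, Verb4 V → ¬ V ≤ W → Sol V)
    {K P : AddSubgroup FA} (hK : TIdl K) (hKP : K ≤ P) (hacc : OAcc K P)
    (hJl : ∀ g : F, ∀ p ∈ P, sqe ofF g * p ∈ K)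
    (hF3 : ∀ w ∈ W, fox w ∈ OmS P)
    (hF4 : ∀ U : ℕ → Subgroup F, Monotone U → (∀ n, Verb4 (U n)) → (∀ n, U n ≤ YK K hK) →
      ∃ n, ∀ m ≥ n, U m = U n)
    (V : Subgroup F) (hV : Verb4 V) : ∃ T : Finset F, V = vcl (T : Set F) := by
  by_cases hVW : V ≤ W
  · refine fb_of_acc (W := W) ?_ V hV hVW
    intro U hU hUv hUW
    have hN : ∀ n, ∀ w ∈ U n, w ∈ N2 := fun n w hw => mem_N2_of_cl (cl_of_verb hW hWs (hUW n hw))
    have hUP : ∀ n, ∀ w ∈ U n, fox w ∈ OmS P := fun n w hw => hF3 w (hUW n hw)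
    obtain ⟨n1, hn1⟩ := hacc (fun n => DV K (U n)) (by
      intro a b hab
      refine sup_le_sup le_rfl (AddSubgroup.closure_mono ?_)
      rintro m ⟨w, hw, rfl⟩
      exact ⟨w, hU hab hw, rfl⟩) (fun n => le_sup_left) (by
      intro n
      refine sup_le (OmS_mono hKP) ?_
      rw [AddSubgroup.closure_le]
      rintro m ⟨w, hw, rfl⟩
      exact hUP n w hw) (by
      intro n φ m hm
      have h1 : (DV K (U n)).map (pOm φ) ≤ DV K (U n) := by
        unfold DV
        rw [AddSubgroup.map_sup]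
        refine sup_le_sup ?_ ?_
        · rintro _ ⟨m, hm, rfl⟩
          exact OmS_pOm hK φ hm
        · rw [AddMonoidHom.map_closure, AddSubgroup.closure_le]
          rintro _ ⟨_, ⟨w, hw, rfl⟩, rfl⟩
          refine AddSubgroup.subset_closure ⟨φ w, (hUv n).endo φ w hw, ?_⟩
          exact (fox_endo φ w).symm
      exact h1 ⟨m, hm, rfl⟩)
    obtain ⟨n2, hn2⟩ := hF4 (fun n => U n ⊓ YK K hK) (fun a b hab => inf_le_inf_right _ (hU hab))
      (fun n => ⟨fun φ w hw => ⟨(hUv n).endo φ w hw.1, (YK_verb hK).endo φ w hw.2⟩,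
        fun w => ⟨(hUv n).four w, (YK_verb hK).four w⟩⟩) (fun n => inf_le_right)
    refine ⟨max n1 n2, fun m hm => le_antisymm ?_ (hU hm)⟩
    intro w hw
    have hw1 : fox w ∈ DV K (U (max n1 n2)) := by
      have h1 : fox w ∈ DV K (U m) := AddSubgroup.mem_sup_right (AddSubgroup.subset_closure ⟨w, hw, rfl⟩)
      have h2 := hn1 m (le_trans (le_max_left _ _) hm)
      have h3 := hn1 (max n1 n2) (le_max_left _ _)
      rw [h2, ← h3] at h1
      exact h1
    obtain ⟨w', hw', h4⟩ := mem_DV hK hJl (hN _) (hUP _) hw1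
    have hw'm : w' ∈ U m := hU hm hw'
    have h5 : w * w'⁻¹ ∈ U m := (U m).mul_mem hw ((U m).inv_mem hw'm)
    have h6 : w * w'⁻¹ ∈ YK K hK := by
      rw [mem_YK, fox_mul, fox_inv]
      have e : fox w + ofF w • -(ofF w'⁻¹ • fox w') = (fox w - fox w') - (ofF (w * w'⁻¹) • fox w' - fox w') := by
        rw [map_mul, mul_smul, smul_neg]
        abel
      rw [e]
      exact (OmS K).sub_mem h4 (smul_N2 hK hJl (hN m _ h5) (hUP m _ hw'm))
    have h7 : w * w'⁻¹ ∈ U m ⊓ YK K hK := ⟨h5, h6⟩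
    have h8 := hn2 m (le_trans (le_max_right _ _) hm)
    have h9 := hn2 (max n1 n2) (le_max_right _ _)
    rw [h8, ← h9] at h7
    have h10 := (U (max n1 n2)).mul_mem h7.1 hw'
    rwa [inv_mul_cancel_right] at h10
  · exact sol_fb hV (hmax V hV hVW)

end E4.N
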