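import Pool.Agent.Lib.MP_8a95e3_al.NF1

/-!
# NF5 : the module of a section, and the N-argument from elements
-/

open scoped commutatorElement

namespace E4.N

/-- the data of the section `B/Φ(B)`: `c` is the class of an element of `B`, `ρ` the conjugation -/
structure SD {G : Type} [Group G] (B : Subgroup G) (M : Type) [AddCommGroup M] (ρ : G →* AddMonoid.End M)
    (c : G → M) : Prop where
  cub : Cub ρ
  add : ∀ a ∈ B, ∀ b ∈ B, c (a * b) = c a + c b
  ker : ∀ b ∈ B, c b = 0 ↔ b ∈ phi B
  conj : ∀ g : G, ∀ b ∈ B, c (g * b * g⁻¹) = ρ g (c b)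
  surj : ∀ m : M, ∃ b ∈ B, c b = m

private theorem sec_cub {G : Type*} {A : Type*} [Group G] [AddCommGroup A] (ρ : G →* AddMonoid.End A)
    (h2 : ∀ a : A, a + a = 0)
    (h4 : ∀ (g : G) (a : A), a + ρ g a + ρ g (ρ g a) + ρ g (ρ g (ρ g a)) = 0) : Cub ρ := by
  have htwo : (2 : AddMonoid.End A) = 0 := by
    rw [← one_add_one_eq_two]
    ext a
    exact h2 a
  refine ⟨htwo, fun g => ?_⟩
  have h3 : (ρ g + 1) ^ 3 = (1 + ρ g + ρ g * ρ g + ρ g * (ρ g * ρ g)) + 2 * (ρ g + ρ g * ρ g) := by
    noncomm_ring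
  unfold X
  rw [h3, htwo, zero_mul, add_zero]
  ext a
  exact h4 g a

private theorem sec_id {G : Type*} [Group G] (a g : G) :
    a * (g * a * g⁻¹) * (g * (g * a * g⁻¹) * g⁻¹) * (g * (g * (g * a * g⁻¹) * g⁻¹) * g⁻¹) = (a * g) ^ 4 * (g ^ 4)⁻¹ := by
  simp only [pow_succ, pow_zero, one_mul, mul_inv_rev, mul_assoc, inv_mul_cancel_left, mul_inv_cancel_left]

/-- elementary abelian normal subgroup -/
private theorem sec_mod_bot {G : Type} [Group G] (h4 : Exp4 G) (B : Subgroup G) [B.Normal]
    (hBB : ∀ a ∈ B, ∀ b ∈ B, a * b = b * a) (hB2 : ∀ b ∈ B, b ^ 2 = 1) :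
    ∃ (M : Type) (_ : AddCommGroup M) (ρ : G →* AddMonoid.End M) (c : G → M), Cub ρ ∧
      (∀ a ∈ B, ∀ b ∈ B, c (a * b) = c a + c b) ∧ (∀ b ∈ B, c b = 0 ↔ b = 1) ∧
      (∀ g : G, ∀ b ∈ B, c (g * b * g⁻¹) = ρ g (c b)) ∧ (∀ m : M, ∃ b ∈ B, c b = m) := by
  classical
  let _ : CommGroup B := { (inferInstance : Group B) with
    mul_comm := fun a b => Subtype.ext (hBB a.1 a.2 b.1 b.2) }
  obtain ⟨ρ, hρ⟩ : ∃ ρ : G →* AddMonoid.End (Additive B), ∀ (g : G) (b : Additive B),
      ((ρ g b).toMul : G) = g * (b.toMul : G) * g⁻¹ := by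
    refine ⟨{ toFun := fun g => MonoidHom.toAdditive (MulAut.conjNormal g : MulAut B).toMonoidHom
              map_one' := ?_
              map_mul' := ?_ }, ?_⟩
    · ext b
      show ((MulAut.conjNormal (1 : G) b.toMul : B) : G) = (b.toMul : G)
      rw [map_one]
      rfl
    · intro g h
      ext b
      show ((MulAut.conjNormal (g * h) b.toMul : B) : G) =
        ((MulAut.conjNormal g (MulAut.conjNormal h b.toMul) : B) : G)
      rw [map_mul]
      rfl
    · intro g b
      exact MulAut.conjNormal_apply g b.toMul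
  have hsq : ∀ b : G, b ∈ B → b * b = 1 := fun b hb => by
    rw [← sq]
    exact hB2 b hb
  have hext : ∀ a b : Additive B, (a.toMul : G) = (b.toMul : G) → a = b := fun a b h =>
    Subtype.ext h
  have hadd : ∀ a b : Additive B, ((a + b).toMul : G) = (a.toMul : G) * (b.toMul : G) := fun a b => rfl
  obtain ⟨c, hc⟩ : ∃ c : G → Additive B, ∀ g (h : g ∈ B), c g = Additive.ofMul ⟨g, h⟩ :=
    ⟨fun g => if h : g ∈ B then Additive.ofMul ⟨g, h⟩ else 0, fun g h => dif_pos h⟩
  refine ⟨Additive B, inferInstance, ρ, c, ?_, ?_, ?_, ?_, ?_⟩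
  · refine sec_cub ρ (fun a => ?_) fun g a => ?_
    · apply hext
      rw [hadd]
      exact hsq a.toMul.1 a.toMul.2
    · apply hext
      rw [hadd, hadd, hadd, hρ, hρ, hρ, hρ, hρ, hρ, sec_id, h4, h4, inv_one, mul_one]
      rfl
  · intro a ha b hb
    rw [hc a ha, hc b hb, hc (a * b) (B.mul_mem ha hb)]
    rfl
  · intro b hb
    rw [hc b hb]
    constructor
    · intro h
      have h1 : ((Additive.ofMul (⟨b, hb⟩ : B)).toMul : G) = ((0 : Additive B).toMul : G) := by rw [h]
      exact h1
    · intro h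
      apply hext
      exact h
  · intro g b hb
    apply hext
    rw [hρ, hc b hb, hc _ ((inferInstance : B.Normal).conj_mem b hb g)]
    rfl
  · intro m
    exact ⟨m.toMul.1, m.toMul.2, hc _ m.toMul.2⟩

/-- the section `B/Φ(B)` -/
theorem sec_mod {G : Type} [Group G] (h4 : Exp4 G) (B : Subgroup G) [B.Normal] :
    ∃ (M : Type) (_ : AddCommGroup M) (ρ : G →* AddMonoid.End M) (c : G → M), SD B M ρ c := by
  have hC : (phi B).Normal := phi_normal B
  have hmap : ∀ b' ∈ B.map (QuotientGroup.mk' (phi B)), ∃ b ∈ B, QuotientGroup.mk' (phi B) b = b' := fun b' hb' =>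
    Subgroup.mem_map.1 hb'
  have hn : (B.map (QuotientGroup.mk' (phi B))).Normal :=
    Subgroup.Normal.map inferInstance _ (QuotientGroup.mk'_surjective (phi B))
  have hone : ∀ y : G, QuotientGroup.mk' (phi B) y = 1 ↔ y ∈ phi B := fun y => by
    rw [← MonoidHom.mem_ker, QuotientGroup.ker_mk']
  have h4' : Exp4 (G ⧸ phi B) := by
    intro q
    obtain ⟨g, rfl⟩ := QuotientGroup.mk'_surjective (phi B) q
    rw [← map_pow, h4, map_one]
  obtain ⟨M, _, ρ, c, h1, h2, h3, h5, h6⟩ := sec_mod_bot h4' (B.map (QuotientGroup.mk' (phi B))) (by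
    intro a' ha' b' hb'
    obtain ⟨a, ha, rfl⟩ := hmap a' ha'
    obtain ⟨b, hb, rfl⟩ := hmap b' hb'
    have h1 : ⁅a, b⁆ ∈ phi B := (le_sup_left : ⁅B, B⁆ ≤ phi B) (Subgroup.commutator_mem_commutator ha hb)
    rw [← hone, map_commutatorElement, commutatorElement_eq_one_iff_mul_comm] at h1
    exact h1) (by
    intro b' hb'
    obtain ⟨b, hb, rfl⟩ := hmap b' hb'
    rw [← map_pow, hone]
    exact (le_sup_right : Subgroup.closure {y | ∃ b ∈ B, y = b ^ 2} ≤ phi B)
      (Subgroup.subset_closure ⟨b, hb, rfl⟩))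
  have hm : ∀ b ∈ B, QuotientGroup.mk' (phi B) b ∈ B.map (QuotientGroup.mk' (phi B)) := fun b hb =>
    Subgroup.mem_map_of_mem _ hb
  refine ⟨M, inferInstance, ρ.comp (QuotientGroup.mk' (phi B)), fun g => c (QuotientGroup.mk' (phi B) g), ?_, ?_, ?_, ?_, ?_⟩
  · exact ⟨h1.two, fun h => h1.cube _⟩
  · intro a ha b hb
    rw [map_mul]
    exact h2 _ (hm a ha) _ (hm b hb)
  · intro b hb
    rw [h3 _ (hm b hb), hone]
  · intro g b hb
    rw [map_mul, map_mul, map_inv]
    exact h5 _ _ (hm b hb)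
  · intro m
    obtain ⟨b', hb', e⟩ := h6 m
    obtain ⟨b, hb, rfl⟩ := hmap b' hb'
    exact ⟨b, hb, e⟩

namespace SD

variable {G : Type} [Group G] {B : Subgroup G} [B.Normal] {M : Type} [AddCommGroup M] {ρ : G →* AddMonoid.End M}
  {c : G → M}

omit [B.Normal] in
theorem c_one (h : SD B M ρ c) : c 1 = 0 := by
  have h1 := h.add 1 B.one_mem 1 B.one_mem
  rw [mul_one] at h1
  exact left_eq_add.1 h1

omit [B.Normal] in
theorem c_inv (h : SD B M ρ c) {b : G} (hb : b ∈ B) : c b⁻¹ = -c b := by
  have h1 := h.add b⁻¹ (B.inv_mem hb) b hb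
  rw [inv_mul_cancel, h.c_one] at h1
  exact eq_neg_of_add_eq_zero_left h1.symm

omit [B.Normal] in
theorem two (h : SD B M ρ c) (m : M) : m + m = 0 := by
  have h1 : (2 : AddMonoid.End M) m = 0 := by
    rw [h.cub.two]
    rfl
  rw [← one_add_one_eq_two] at h1
  exact h1

theorem c_comm (h : SD B M ρ c) (g : G) {b : G} (hb : b ∈ B) : c ⁅g, b⁆ = X ρ g (c b) := by
  have h1 : g * b * g⁻¹ ∈ B := (inferInstance : B.Normal).conj_mem b hb g
  rw [commutatorElement_def, h.add _ h1 _ (B.inv_mem hb), h.conj g b hb, h.c_inv hb]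
  show ρ g (c b) + -c b = ρ g (c b) + c b
  rw [neg_eq_of_add_eq_zero_left (h.two (c b))]

theorem foldr_mem (l : List G) {b : G} (hb : b ∈ B) :
    l.foldr (fun g y => ⁅g, y⁆) b ∈ B := by
  induction l with
  | nil => exact hb
  | cons g l ih =>
    rw [List.foldr_cons, commutatorElement_def]
    exact B.mul_mem ((inferInstance : B.Normal).conj_mem _ ih g) (B.inv_mem ih)

theorem c_foldr (h : SD B M ρ c) (l : List G) {b : G} (hb : b ∈ B) :
    c (l.foldr (fun g y => ⁅g, y⁆) b) = (l.map (X ρ)).prod (c b) := by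
  induction l with
  | nil => rfl
  | cons g l ih =>
    rw [List.foldr_cons, h.c_comm g (foldr_mem l hb), ih, List.map_cons, List.prod_cons]
    rfl

end SD

/-- the product of the `X` of the commutators of the pairs in a list -/
def PP {G R : Type*} [Group G] [Ring R] (ρ : G →* R) (q : List (G × G)) : R :=
  (q.map (fun p => X ρ (cm p.1 p.2))).prod

private theorem PP_conj {G R : Type*} [Group G] [Ring R] (ρ : G →* R) (k : G)
    (q : List (G × G)) :
    ρ k * PP ρ q = PP ρ (q.map (fun p => (k * p.1 * k⁻¹, k * p.2 * k⁻¹))) * ρ k := by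
  induction q with
  | nil => simp [PP]
  | cons p q ih =>
    have h1 : PP ρ (p :: q) = X ρ (cm p.1 p.2) * PP ρ q := by
      simp [PP]
    have h2 : PP ρ ((p :: q).map (fun p => (k * p.1 * k⁻¹, k * p.2 * k⁻¹))) =
        X ρ (cm (k * p.1 * k⁻¹) (k * p.2 * k⁻¹)) *
          PP ρ (q.map (fun p => (k * p.1 * k⁻¹, k * p.2 * k⁻¹))) := by
      simp [PP]
    have h3 : cm (k * p.1 * k⁻¹) (k * p.2 * k⁻¹) * k = k * cm p.1 p.2 := by
      unfold cm
      group
    have h4 : ρ k * X ρ (cm p.1 p.2) = X ρ (cm (k * p.1 * k⁻¹) (k * p.2 * k⁻¹)) * ρ k := by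
      unfold X
      rw [mul_add, add_mul, ← map_mul, ← map_mul, h3, mul_one, one_mul]
    rw [h1, h2, ← mul_assoc, h4, mul_assoc, ih, ← mul_assoc]

private theorem PP_all {G : Type} [Group G] {m : ℕ} {R : Type} [Ring R] {ρ : G →* R} (hc : Cub ρ)
    (hw : ∀ q : List (G × G), q.length = m → PP ρ q = 0) (l : List G) :
    (∀ k ∈ l, k ∈ commutator G) → ∀ q : List (G × G), l.length + q.length = m →
      (l.map (X ρ)).prod * PP ρ q = 0 := by
  induction l using List.reverseRecOn with
  | nil =>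
    intro _ q hq
    rw [hw q (by simpa using hq), mul_zero]
  | append_singleton l k ih =>
    intro hl q hq
    have hl' : ∀ k ∈ l, k ∈ commutator G := fun k' hk' => hl k' (by simp [hk'])
    have hk : k ∈ commutator G := hl k (by simp)
    have ih' := ih hl'
    have hq' : l.length + (q.length + 1) = m := by
      rw [List.length_append, List.length_singleton] at hq
      omega
    have key : ∀ k ∈ commutator G, ∀ q : List (G × G), l.length + (q.length + 1) = m →
        (l.map (X ρ)).prod * (X ρ k * PP ρ q) = 0 := by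
      clear hl hq hq' hk k ih
      intro k hk
      rw [commutator_eq_closure] at hk
      induction hk using Subgroup.closure_induction with
      | mem k hk =>
        intro q hq
        obtain ⟨a, b, rfl⟩ := hk
        have h1 : ⁅a, b⁆ = cm a⁻¹ b⁻¹ := by
          unfold cm
          rw [commutatorElement_def, inv_inv, inv_inv]
        have h2 : X ρ ⁅a, b⁆ * PP ρ q = PP ρ ((a⁻¹, b⁻¹) :: q) := by
          rw [h1]
          simp [PP]
        rw [h2]
        exact ih' _ (by rw [List.length_cons]; exact hq)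
      | one =>
        intro q _
        have h1 : X ρ (1 : G) = 0 := by
          unfold X
          rw [map_one, one_add_one_eq_two, hc.two]
        rw [h1, zero_mul, mul_zero]
      | mul a b _ _ ha hb =>
        intro q hq
        have h1 : X ρ (a * b) = X ρ a * ρ b + X ρ b := by
          unfold X
          have h3 : (ρ a + 1) * ρ b + (ρ b + 1) = ρ a * ρ b + 1 + 2 * ρ b := by
            rw [add_mul, one_mul, two_mul]
            abel
          rw [h3, hc.two, zero_mul, add_zero, map_mul]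
        rw [h1, add_mul, mul_add, hb q hq, add_zero, mul_assoc, PP_conj, ← mul_assoc,
          ← mul_assoc, mul_assoc _ (X ρ a), ha _ (by rw [List.length_map]; exact hq), zero_mul]
      | inv a _ ha =>
        intro q hq
        have h1 : X ρ a⁻¹ = X ρ a * ρ a⁻¹ := by
          unfold X
          rw [add_mul, one_mul, ← map_mul, mul_inv_cancel, map_one, add_comm]
        rw [h1, mul_assoc, PP_conj, ← mul_assoc, ← mul_assoc, mul_assoc _ (X ρ a),
          ha _ (by rw [List.length_map]; exact hq), zero_mul]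
    rw [List.map_append, List.prod_append, List.map_singleton, List.prod_singleton, mul_assoc]
    exact key k hk q hq'

/-- the hypothesis on elements gives the inclusion of subgroups -/
theorem sec_m' {G : Type} [Group G] (h4 : Exp4 G) {m : ℕ}
    (H : ∀ (b : G) (q : List (G × G)), q.length = m →
      (q.map (fun p => cm p.1 p.2)).foldr (fun g y => ⁅g, y⁆) b ∈ phi (Subgroup.normalClosure {b}))
    (B : Subgroup G) [B.Normal] : itc B (commutator G) m ≤ phi B := by
  obtain ⟨M, _, ρ, c, h⟩ := sec_mod h4 B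
  have hn : (phi B).Normal := phi_normal B
  have hPP : ∀ q : List (G × G), q.length = m → PP ρ q = 0 := by
    intro q hq
    refine DFunLike.ext _ _ fun y => ?_
    obtain ⟨b, hb, rfl⟩ := h.surj y
    have h1 := h.c_foldr (q.map fun p => cm p.1 p.2) hb
    rw [List.map_map] at h1
    have h2 : PP ρ q = ((List.map (X ρ ∘ fun p => cm p.1 p.2) q).prod : AddMonoid.End M) := rfl
    rw [h2, ← h1]
    show _ = (0 : M)
    rw [h.ker _ (SD.foldr_mem _ hb)]
    refine phi_mono ?_ (H b q hq)
    exact Subgroup.normalClosure_le_normal (Set.singleton_subset_iff.2 hb)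
  refine itc_le_of_lists B (phi B) (commutator G) le_sup_left m fun l hl hk b hb => ?_
  rw [← h.ker _ (SD.foldr_mem _ hb), h.c_foldr l hb]
  have h3 := PP_all h.cub hPP l hk [] (by simpa using hl)
  have h4 : PP ρ ([] : List (G × G)) = 1 := rfl
  rw [h4, mul_one] at h3
  rw [h3]
  rfl

private theorem iterN {G : Type*} [Group G] (S : Subgroup G) [S.Normal] (i : ℕ) :
    (phi^[i] S).Normal := by
  induction i with
  | zero => exact ‹S.Normal›
  | succ i ih =>
    rw [Function.iterate_succ_apply']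
    exact phi_normal _

theorem sq_m' {G : Type} [Group G] (h4 : Exp4 G) {m : ℕ}
    (H : ∀ (b : G) (q : List (G × G)), q.length = m →
      (q.map (fun p => cm p.1 p.2)).foldr (fun g y => ⁅g, y⁆) b ∈ phi (Subgroup.normalClosure {b})) (g : G) :
    itc (Subgroup.normalClosure {g ^ 2}) (commutator G) (8 * m) = ⊥ := by
  have hN : ∀ i, (phi^[i] (Subgroup.normalClosure {g ^ 2})).Normal :=
    iterN (Subgroup.normalClosure {g ^ 2})
  have key : ∀ i, itc (Subgroup.normalClosure {g ^ 2}) (commutator G) (i * m)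
      ≤ phi^[i] (Subgroup.normalClosure {g ^ 2}) := by
    intro i
    induction i with
    | zero =>
      rw [zero_mul]
      exact le_of_eq rfl
    | succ i ih =>
      have h1 : (phi^[i] (Subgroup.normalClosure {g ^ 2})).Normal := hN i
      rw [add_mul, one_mul, itc_add, Function.iterate_succ_apply']
      exact le_trans (itc_mono ih m) (sec_m' h4 H _)
  rw [eq_bot_iff]
  exact le_trans (key 8) (phi_iter h4 _ (sq_nil h4 g)).le

/-- every homomorphism to `F/W` kills `W` -/
theorem kills {W : Subgroup F} (hW : Verb4 W) [W.Normal] {w : F} (hw : w ∈ W) (f : F →* (F ⧸ W)) : f w = 1 := by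
  choose y hy using fun i : ℕ => QuotientGroup.mk_surjective (f (FreeGroup.of i))
  have e : (QuotientGroup.mk' W).comp (FreeGroup.lift y) = f := by
    refine FreeGroup.ext_hom _ _ fun i => ?_
    rw [MonoidHom.comp_apply, FreeGroup.lift_apply_of]
    exact hy i
  rw [← e, MonoidHom.comp_apply]
  exact (QuotientGroup.eq_one_iff _).mpr (hW.endo _ w hw)

theorem verb_normal {W : Subgroup F} (hW : Verb4 W) : W.Normal := by
  constructor
  intro w hw' g
  exact hW.endo (MulAut.conj g).toMonoidHom w hw'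

theorem exp4_quot {W : Subgroup F} (hW : Verb4 W) [W.Normal] : Exp4 (F ⧸ W) := by
  intro g
  obtain ⟨w, rfl⟩ := QuotientGroup.mk_surjective g
  rw [← QuotientGroup.mk_pow, QuotientGroup.eq_one_iff]
  exact hW.four w

/-- **N-argument, version for elements.** -/
theorem narg' (W : Subgroup F) (hW : Verb4 W) [W.Normal] (m : ℕ)
    (H : ∀ (b : F ⧸ W) (q : List ((F ⧸ W) × (F ⧸ W))), q.length = m →
      (q.map (fun p => cm p.1 p.2)).foldr (fun g y => ⁅g, y⁆) b ∈ phi (Subgroup.normalClosure {b})) :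
    Sol W := by
  have h4 : Exp4 (F ⧸ W) := exp4_quot hW
  have hl : lcs (commutator (F ⧸ W)) (8 * m) = ⊥ :=
    lcs_of_sq (8 * m) fun g => sq_m' h4 H g
  have hd : ∀ i, derivedSeries (F ⧸ W) (i + 1) ≤ lcs (commutator (F ⧸ W)) i := by
    intro i
    induction i with
    | zero =>
      rw [zero_add, derivedSeries_one]
      exact le_of_eq rfl
    | succ i ih =>
      rw [derivedSeries_succ]
      change _ ≤ ⁅lcs (commutator (F ⧸ W)) i, commutator (F ⧸ W)⁆
      refine Subgroup.commutator_mono ih ?_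
      refine le_trans (derivedSeries_antitone (F ⧸ W) (show 1 ≤ i + 1 by omega)) ?_
      rw [derivedSeries_one]
  refine ⟨8 * m + 1, fun y hy => ?_⟩
  have h1 : (QuotientGroup.mk' W) y ∈ derivedSeries (F ⧸ W) (8 * m + 1) :=
    map_derivedSeries_le_derivedSeries (QuotientGroup.mk' W) _ (Subgroup.mem_map_of_mem _ hy)
  have h2 := hd (8 * m) h1
  rw [hl, Subgroup.mem_bot] at h2
  exact (QuotientGroup.eq_one_iff y).mp h2

end E4.N
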