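import Pool.Agent.Lib.MP_8a95e3_al.NF5

/-!
# NF6 : theorem F3, the Fox derivatives of the words of `W` lie in a maximal insoluble T-ideal
-/

open scoped commutatorElement

namespace E4.N

/-- the elements of the group ring which, for all homomorphisms `f : F →* F/W` and all `b`, kill the class of `b` in
`B/Φ(B)`, `B` the normal closure of `b` -/
noncomputable def LW (W : Subgroup F) [W.Normal] : AddSubgroup FA where
  carrier := {p | ∀ (b : F ⧸ W) (M : Type) (_ : AddCommGroup M) (ρ : (F ⧸ W) →* AddMonoid.End M) (c : (F ⧸ W) → M),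
    SD (Subgroup.normalClosure {b}) M ρ c → ∀ f : F →* (F ⧸ W), ev (ρ.comp f) p (c b) = 0}
  add_mem' := by
    intro a a' ha ha' b M _ ρ c h f
    rw [map_add]
    show ev (ρ.comp f) a (c b) + ev (ρ.comp f) a' (c b) = 0
    rw [ha b M _ ρ c h f, ha' b M _ ρ c h f, add_zero]
  zero_mem' := by
    intro b M _ ρ c h f
    rw [map_zero]
    rfl
  neg_mem' := by
    intro a ha b M _ ρ c h f
    rw [map_neg]
    show -(ev (ρ.comp f) a (c b)) = 0
    rw [ha b M _ ρ c h f, neg_zero]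

private theorem nc_conj {G : Type} [Group G] (g b : G) :
    Subgroup.normalClosure {g * b * g⁻¹} = Subgroup.normalClosure {b} := by
  have h1 : ∀ (g b : G), Subgroup.normalClosure {g * b * g⁻¹} ≤ Subgroup.normalClosure {b} := by
    intro g b
    have hN : (Subgroup.normalClosure {b}).Normal := Subgroup.normalClosure_normal
    exact Subgroup.normalClosure_le_normal (Set.singleton_subset_iff.2
      (hN.conj_mem b (Subgroup.subset_normalClosure (Set.mem_singleton b)) g))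
  refine le_antisymm (h1 g b) ?_
  have h2 := h1 g⁻¹ (g * b * g⁻¹)
  have e : g⁻¹ * (g * b * g⁻¹) * g⁻¹⁻¹ = b := by group
  rw [e] at h2
  exact h2

theorem LW_tidl {W : Subgroup F} [W.Normal] : TIdl (LW W) where
  left := by
    intro a p hp b M _ ρ c h f
    rw [map_mul]
    show ev (ρ.comp f) a (ev (ρ.comp f) p (c b)) = 0
    rw [hp b M _ ρ c h f, map_zero]
  right := by
    intro a p hp
    have ha : a ∈ AddSubgroup.closure (Set.range ofF) := by
      have h1 := fa_spn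
      unfold Spn at h1
      rw [h1]
      trivial
    induction ha using AddSubgroup.closure_induction with
    | mem a ha =>
      obtain ⟨g, rfl⟩ := ha
      intro b M _ ρ c h f
      have hb : b ∈ Subgroup.normalClosure {b} := Subgroup.subset_normalClosure (Set.mem_singleton b)
      rw [map_mul, ev_of]
      show ev (ρ.comp f) p (ρ (f g) (c b)) = 0
      rw [← h.conj (f g) b hb]
      refine hp (f g * b * (f g)⁻¹) M _ ρ c ?_ f
      rw [nc_conj]
      exact h
    | zero =>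
      rw [mul_zero]
      exact (LW W).zero_mem
    | add a a' _ _ h h' =>
      rw [mul_add]
      exact (LW W).add_mem h h'
    | neg a _ h =>
      rw [mul_neg]
      exact (LW W).neg_mem h
  endo := by
    intro φ p hp b M _ ρ c h f
    rw [ev_eA]
    exact hp b M _ ρ c h (f.comp φ)
  two := by
    intro b M _ ρ c h f
    rw [map_ofNat, h.cub.two]
    rfl
  cube := by
    intro g b M _ ρ c h f
    have h3 : ev (ρ.comp f) (X ofF g) = X ρ (f g) := by
      unfold X
      rw [map_add, map_one, ev_of]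
      rfl
    rw [map_pow, h3, h.cub.cube]
    rfl

private theorem fox_class {G : Type} [Group G] {b : G} {M : Type} [AddCommGroup M] {ρ : G →* AddMonoid.End M} {c : G → M}
    (h : SD (Subgroup.normalClosure {b}) M ρ c) (f : F →* G) (j : ℕ) (f' : F →* G)
    (hf' : ∀ i, f' (x i) = if i = j then b * f (x i) else f (x i)) (u : F) :
    f' u * (f u)⁻¹ ∈ Subgroup.normalClosure {b} ∧ c (f' u * (f u)⁻¹) = ev (ρ.comp f) (fox u j) (c b) := by
  have hb : b ∈ Subgroup.normalClosure {b} := Subgroup.subset_normalClosure (Set.mem_singleton b)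
  have hN : (Subgroup.normalClosure {b}).Normal := Subgroup.normalClosure_normal
  have hx : ∀ i, f' (x i) * (f (x i))⁻¹ ∈ Subgroup.normalClosure {b} ∧
      c (f' (x i) * (f (x i))⁻¹) = ev (ρ.comp f) (fox (x i) j) (c b) := by
    intro i
    rw [hf', fox_x]
    by_cases hij : i = j
    · subst hij
      rw [if_pos rfl, mul_inv_cancel_right, Finsupp.single_eq_same, map_one]
      exact ⟨hb, rfl⟩
    · rw [if_neg hij, mul_inv_cancel, Finsupp.single_eq_of_ne (fun e => hij e.symm), map_zero, h.c_one]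
      exact ⟨Subgroup.one_mem _, rfl⟩
  have hmul : ∀ u v : F, f' (u * v) * (f (u * v))⁻¹ = (f' u * (f u)⁻¹) * (f u * (f' v * (f v)⁻¹) * (f u)⁻¹) := by
    intro u v
    rw [map_mul, map_mul]
    group
  induction u using FreeGroup.induction_on with
  | C1 =>
    rw [map_one, map_one, inv_one, mul_one, fox_one, Finsupp.zero_apply, map_zero, h.c_one]
    exact ⟨Subgroup.one_mem _, rfl⟩
  | of i => exact hx i
  | inv_of i _ =>
    show f' (x i)⁻¹ * (f (x i)⁻¹)⁻¹ ∈ Subgroup.normalClosure {b} ∧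
      c (f' (x i)⁻¹ * (f (x i)⁻¹)⁻¹) = ev (ρ.comp f) (fox (x i)⁻¹ j) (c b)
    obtain ⟨h1, h2⟩ := hx i
    have e : f' (x i)⁻¹ * (f (x i)⁻¹)⁻¹ = (f (x i))⁻¹ * (f' (x i) * (f (x i))⁻¹)⁻¹ * (f (x i))⁻¹⁻¹ := by
      rw [map_inv, map_inv]
      group
    have h3 := (Subgroup.normalClosure {b}).inv_mem h1
    rw [e, h.conj _ _ h3, h.c_inv h1, h2, fox_inv]
    refine ⟨hN.conj_mem _ h3 _, ?_⟩
    rw [Finsupp.neg_apply, Finsupp.smul_apply, smul_eq_mul, map_neg (ev (ρ.comp f)), map_mul, ev_of]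
    show ρ (f (x i))⁻¹ (-(ev (ρ.comp f) (fox (x i) j) (c b))) = -(ρ (f (x i)⁻¹) (ev (ρ.comp f) (fox (x i) j) (c b)))
    rw [map_neg, map_inv f]
  | mul u v hu hv =>
    obtain ⟨h1, h2⟩ := hu
    obtain ⟨h3, h4⟩ := hv
    have h5 := hN.conj_mem _ h3 (f u)
    rw [hmul, h.add _ h1 _ h5, h.conj _ _ h3, h2, h4, fox_mul, Finsupp.add_apply, map_add, Finsupp.smul_apply,
      smul_eq_mul, map_mul, ev_of]
    exact ⟨Subgroup.mul_mem _ h1 h5, rfl⟩

theorem LW_fox {W : Subgroup F} (hW : Verb4 W) [W.Normal] {w : F} (hw : w ∈ W) : fox w ∈ OmS (LW W) := by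
  intro j b M _ ρ c h f
  obtain ⟨f', hf'⟩ : ∃ f' : F →* (F ⧸ W), ∀ i, f' (x i) = if i = j then b * f (x i) else f (x i) :=
    ⟨FreeGroup.lift fun i => if i = j then b * f (x i) else f (x i), fun i => by
      show FreeGroup.lift _ (FreeGroup.of i) = _
      rw [FreeGroup.lift_apply_of]⟩
  obtain ⟨-, h2⟩ := fox_class h f j f' hf' w
  rw [← h2, kills hW hw f, kills hW hw f', inv_one, mul_one, h.c_one]

theorem LW_w {W : Subgroup F} (hW : Verb4 W) [W.Normal] (hns : ¬ Sol W) (m : ℕ) : wA ofF m ∉ LW W := by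
  intro hm
  apply hns
  refine narg' W hW m fun b q hq => ?_
  obtain ⟨M, _, ρ, c, h⟩ := sec_mod (exp4_quot hW) (Subgroup.normalClosure {b})
  have hb : b ∈ Subgroup.normalClosure {b} := Subgroup.subset_normalClosure (Set.mem_singleton b)
  obtain ⟨t, ht⟩ : ∃ t : ℕ → F ⧸ W, ∀ n, t n =
      if n % 2 = 0 then (q.getD (n / 2) (1, 1)).1 else (q.getD (n / 2) (1, 1)).2 := ⟨_, fun _ => rfl⟩
  have h0 := hm b M _ ρ c h (FreeGroup.lift t)
  have h1 : ev (ρ.comp (FreeGroup.lift t)) (wA ofF m) = PP ρ q := by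
    rw [ev_wA]
    unfold PP wA
    congr 1
    apply List.ext_getElem
    · simp [hq]
    · intro i h1 h2
      rw [List.getElem_map, List.getElem_map, List.getElem_range]
      have hi : i < q.length := by simpa using h2
      have e1 : FreeGroup.lift t (x (2 * i)) = q[i].1 := by
        rw [x, FreeGroup.lift_apply_of, ht, if_pos (by omega), Nat.mul_div_cancel_left _ (by norm_num),
          List.getD_eq_getElem _ _ hi]
      have e2 : FreeGroup.lift t (x (2 * i + 1)) = q[i].2 := by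
        have h5 : (2 * i + 1) / 2 = i := by omega
        rw [x, FreeGroup.lift_apply_of, ht, if_neg (by omega), h5, List.getD_eq_getElem _ _ hi]
      unfold X cm
      rw [MonoidHom.comp_apply]
      simp only [map_mul, map_inv, e1, e2]
  rw [h1] at h0
  have h2 := h.c_foldr (q.map fun p => cm p.1 p.2) hb
  rw [List.map_map] at h2
  have h3 : PP ρ q = ((List.map (X ρ ∘ fun p => cm p.1 p.2) q).prod : AddMonoid.End M) := rfl
  rw [h3, ← h2, h.ker _ (SD.foldr_mem _ hb)] at h0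
  exact h0

/-- **Theorem F3.** -/
theorem thmF3 {W : Subgroup F} (hW : Verb4 W) (hns : ¬ Sol W) :
    ∃ P : AddSubgroup FA, TIdl P ∧ (∀ m, wA ofF m ∉ P) ∧
      (∀ Q : AddSubgroup FA, TIdl Q → P ≤ Q → (∀ m, wA ofF m ∉ Q) → Q ≤ P) ∧ ∀ w ∈ W, fox w ∈ OmS P := by
  have hn : W.Normal := verb_normal hW
  let S : Set (AddSubgroup FA) := {Q | TIdl Q ∧ LW W ≤ Q ∧ ∀ m, wA ofF m ∉ Q}
  have hJ : LW W ∈ S := ⟨LW_tidl, le_rfl, LW_w hW hns⟩
  obtain ⟨P, -, hP⟩ := zorn_le_nonempty₀ S (fun c hcS hc y hy => by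
    have hdir : DirectedOn (· ≤ ·) c := hc.directedOn
    have hne : c.Nonempty := ⟨y, hy⟩
    have hmem : ∀ {z : FA}, z ∈ sSup c ↔ ∃ Q ∈ c, z ∈ Q := AddSubgroup.mem_sSup_of_directedOn hne hdir
    refine ⟨sSup c, ⟨?_, ?_, ?_⟩, fun z hz => le_sSup hz⟩
    · constructor
      · intro a p hp
        obtain ⟨Q, hQ, hpQ⟩ := hmem.1 hp
        exact hmem.2 ⟨Q, hQ, (hcS hQ).1.left a p hpQ⟩
      · intro a p hp
        obtain ⟨Q, hQ, hpQ⟩ := hmem.1 hp
        exact hmem.2 ⟨Q, hQ, (hcS hQ).1.right a p hpQ⟩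
      · intro φ p hp
        obtain ⟨Q, hQ, hpQ⟩ := hmem.1 hp
        exact hmem.2 ⟨Q, hQ, (hcS hQ).1.endo φ p hpQ⟩
      · exact hmem.2 ⟨y, hy, (hcS hy).1.two⟩
      · intro h
        exact hmem.2 ⟨y, hy, (hcS hy).1.cube h⟩
    · exact (hcS hy).2.1.trans (le_sSup hy)
    · intro m hm
      obtain ⟨Q, hQ, hpQ⟩ := hmem.1 hm
      exact (hcS hQ).2.2 m hpQ) (LW W) hJ
  refine ⟨P, hP.prop.1, hP.prop.2.2, fun Q hQ hPQ hw => ?_, fun w hw => OmS_mono hP.prop.2.1 (LW_fox hW hw)⟩
  exact hP.le_of_ge ⟨hQ, hP.prop.2.1.trans hPQ, hw⟩ hPQ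

end E4.N
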