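import Pool.Agent.Lib.MP_8a95e3_al.NY11

/-!
# NJ1 : in the normal closure of an involution the squares centralise the commutators
-/

namespace E4.N

open scoped commutatorElement

section

variable {Q : Type} [Group Q]

theorem cm_mul_left {a b c : Q} (h : Commute a ⁅b, c⁆) : ⁅a * b, c⁆ = ⁅b, c⁆ * ⁅a, c⁆ := by
  have e : ⁅a * b, c⁆ = a * ⁅b, c⁆ * a⁻¹ * ⁅a, c⁆ := by
    rw [commutatorElement_def, commutatorElement_def, commutatorElement_def]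
    group
  rw [e, h.eq, mul_inv_cancel_right]

theorem cm_mul_right {a b c : Q} (h : Commute b ⁅a, c⁆) : ⁅a, b * c⁆ = ⁅a, b⁆ * ⁅a, c⁆ := by
  have e : ⁅a, b * c⁆ = ⁅a, b⁆ * (b * ⁅a, c⁆ * b⁻¹) := by
    rw [commutatorElement_def, commutatorElement_def, commutatorElement_def]
    group
  rw [e, h.eq, mul_inv_cancel_right]

theorem sw_el {p a b r : Q} (ha : a * a = 1) (hb : b * b = 1) (h : Commute ⁅b, a⁆ r) :
    p * (b * a) * r = p * (a * b) * r * ⁅b, a⁆ := by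
  have ha' : a⁻¹ = a := inv_eq_of_mul_eq_one_left ha
  have hb' : b⁻¹ = b := inv_eq_of_mul_eq_one_left hb
  have e1 : a * b * ⁅b, a⁆ = b * a := by
    rw [commutatorElement_def, ha', hb']
    have e : a * b * (b * a * b * a) = a * (b * b) * a * (b * a) := by group
    rw [e, hb, mul_one, ha, one_mul]
  calc p * (b * a) * r = p * (a * b * ⁅b, a⁆) * r := by rw [e1]
    _ = p * (a * b) * (⁅b, a⁆ * r) := by simp only [mul_assoc]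
    _ = p * (a * b) * (r * ⁅b, a⁆) := by rw [h.eq]
    _ = p * (a * b) * r * ⁅b, a⁆ := by simp only [mul_assoc]

/-- the eight involutions -/
theorem eight {a b : ℕ → Q} {N : Subgroup Q} (ha : ∀ i, a i ∈ N) (hb : ∀ i, b i ∈ N)
    (hN : ∀ n ∈ N, ∀ m ∈ N, ∀ l ∈ N, Commute ⁅n, m⁆ l) (ha2 : ∀ i, a i * a i = 1) (hb2 : ∀ i, b i * b i = 1)
    (hA : a 0 * a 1 * a 2 * a 3 = 1) (hB : b 0 * b 1 * b 2 * b 3 = 1)
    (hAB : a 0 * b 0 * a 1 * b 1 * a 2 * b 2 * a 3 * b 3 = 1) (hJ : Commute (a 0 * a 1) (b 1 * b 2)) :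
    ⁅b 0, a 0⁆ = ⁅b 2, a 2⁆ := by
  obtain ⟨z, hz⟩ : ∃ z : ℕ → ℕ → Q, ∀ i j, z i j = ⁅b j, a i⁆ := ⟨_, fun i j => rfl⟩
  have hzN : ∀ i j, z i j ∈ N := fun i j => by
    rw [hz, commutatorElement_def]
    exact N.mul_mem (N.mul_mem (N.mul_mem (hb j) (ha i)) (N.inv_mem (hb j))) (N.inv_mem (ha i))
  have hzc : ∀ i j, ∀ l ∈ N, Commute (z i j) l := fun i j l hl => by
    rw [hz]
    exact hN _ (hb j) _ (ha i) l hl
  have hz2 : ∀ i j, z i j * z i j = 1 := by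
    intro i j
    have h1 : ⁅b j * b j, a i⁆ = ⁅b j, a i⁆ * ⁅b j, a i⁆ := cm_mul_left (hN _ (hb j) _ (ha i) _ (hb j)).symm
    rw [hb2, commutatorElement_one_left] at h1
    rw [hz]
    exact h1.symm
  -- the product
  have hprod : a 0 * b 0 * a 1 * b 1 * a 2 * b 2 * a 3 * b 3 =
      (a 0 * a 1 * a 2 * a 3) * (b 0 * b 1 * b 2 * b 3) * (z 3 0 * z 3 1 * z 3 2 * z 2 0 * z 2 1 * z 1 0) := by
    have s1 : a 0 * b 0 * a 1 * b 1 * a 2 * b 2 * a 3 * b 3 =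
        a 0 * (a 1 * b 0) * (b 1 * a 2 * b 2 * a 3 * b 3) * z 1 0 := by
      rw [hz, ← sw_el (ha2 1) (hb2 0) (hN _ (hb 0) _ (ha 1) _ (by
        exact N.mul_mem (N.mul_mem (N.mul_mem (N.mul_mem (hb 1) (ha 2)) (hb 2)) (ha 3)) (hb 3)))]
      simp only [mul_assoc]
    have s2 : a 0 * (a 1 * b 0) * (b 1 * a 2 * b 2 * a 3 * b 3) =
        (a 0 * a 1 * b 0) * (a 2 * b 1) * (b 2 * a 3 * b 3) * z 2 1 := by
      rw [hz, ← sw_el (ha2 2) (hb2 1) (hN _ (hb 1) _ (ha 2) _ (by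
        exact N.mul_mem (N.mul_mem (hb 2) (ha 3)) (hb 3)))]
      simp only [mul_assoc]
    have s3 : (a 0 * a 1 * b 0) * (a 2 * b 1) * (b 2 * a 3 * b 3) =
        (a 0 * a 1) * (a 2 * b 0) * (b 1 * b 2 * a 3 * b 3) * z 2 0 := by
      rw [hz, ← sw_el (ha2 2) (hb2 0) (hN _ (hb 0) _ (ha 2) _ (by
        exact N.mul_mem (N.mul_mem (N.mul_mem (hb 1) (hb 2)) (ha 3)) (hb 3)))]
      simp only [mul_assoc]
    have s4 : (a 0 * a 1) * (a 2 * b 0) * (b 1 * b 2 * a 3 * b 3) =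
        (a 0 * a 1 * a 2 * b 0 * b 1) * (a 3 * b 2) * b 3 * z 3 2 := by
      rw [hz, ← sw_el (ha2 3) (hb2 2) (hN _ (hb 2) _ (ha 3) _ (hb 3))]
      simp only [mul_assoc]
    have s5 : (a 0 * a 1 * a 2 * b 0 * b 1) * (a 3 * b 2) * b 3 =
        (a 0 * a 1 * a 2 * b 0) * (a 3 * b 1) * (b 2 * b 3) * z 3 1 := by
      rw [hz, ← sw_el (ha2 3) (hb2 1) (hN _ (hb 1) _ (ha 3) _ (N.mul_mem (hb 2) (hb 3)))]
      simp only [mul_assoc]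
    have s6 : (a 0 * a 1 * a 2 * b 0) * (a 3 * b 1) * (b 2 * b 3) =
        (a 0 * a 1 * a 2) * (a 3 * b 0) * (b 1 * b 2 * b 3) * z 3 0 := by
      rw [hz, ← sw_el (ha2 3) (hb2 0) (hN _ (hb 0) _ (ha 3) _ (N.mul_mem (N.mul_mem (hb 1) (hb 2)) (hb 3)))]
      simp only [mul_assoc]
    rw [s1, s2, s3, s4, s5, s6]
    simp only [mul_assoc]
  rw [hAB, hA, hB, one_mul, one_mul] at hprod
  -- linear relations
  have ha3 : a 3 = a 2 * a 1 * a 0 := by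
    have h1 := eq_inv_of_mul_eq_one_right hA
    rw [h1, mul_inv_rev, mul_inv_rev, inv_eq_of_mul_eq_one_left (ha2 0), inv_eq_of_mul_eq_one_left (ha2 1),
      inv_eq_of_mul_eq_one_left (ha2 2), mul_assoc]
  have h3j : ∀ j, z 3 j = z 2 j * z 1 j * z 0 j := by
    intro j
    rw [hz, hz, hz, hz, ha3, cm_mul_right (hN _ (hb j) _ (ha 0) _ (N.mul_mem (ha 2) (ha 1))).symm,
      cm_mul_right (hN _ (hb j) _ (ha 1) _ (ha 2)).symm]
  have hJ' : z 0 1 * z 1 1 * (z 0 2 * z 1 2) = 1 := by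
    have h1 : ⁅b 1 * b 2, a 0 * a 1⁆ = 1 := commutatorElement_eq_one_iff_mul_comm.2 hJ.symm.eq
    rw [cm_mul_left (hN _ (hb 2) _ (N.mul_mem (ha 0) (ha 1)) _ (hb 1)).symm,
      cm_mul_right (hN _ (hb 2) _ (ha 1) _ (ha 0)).symm, cm_mul_right (hN _ (hb 1) _ (ha 1) _ (ha 0)).symm,
      ← hz, ← hz, ← hz, ← hz] at h1
    rw [← (hzc 0 2 _ (N.mul_mem (hzN 0 1) (hzN 1 1))).mul_left (hzc 1 2 _ (N.mul_mem (hzN 0 1) (hzN 1 1))) |>.eq]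
    exact h1
  -- an abelian computation
  obtain ⟨A, hA'⟩ : ∃ A : Subgroup Q, A = Subgroup.closure {y | ∃ i j, y = z i j} := ⟨_, rfl⟩
  have hAc : ∀ p ∈ A, ∀ q ∈ A, p * q = q * p := by
    rw [hA']
    refine comm_closure ?_
    rintro _ ⟨i, j, rfl⟩ _ ⟨k, l, rfl⟩
    exact (hzc i j _ (hzN k l)).eq
  let _ : CommGroup A := { (inferInstance : Group A) with mul_comm := fun p q => Subtype.ext (hAc p p.2 q q.2) }
  obtain ⟨Z, hZ⟩ : ∃ Z : ℕ → ℕ → A, ∀ i j, ((Z i j : A) : Q) = z i j :=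
    ⟨fun i j => ⟨z i j, by rw [hA']; exact Subgroup.subset_closure ⟨i, j, rfl⟩⟩, fun i j => rfl⟩
  have hZ2 : ∀ i j, Z i j * Z i j = 1 := by
    intro i j
    apply Subtype.ext
    show ((Z i j : A) : Q) * ((Z i j : A) : Q) = 1
    rw [hZ, hz2]
  have hZ3 : ∀ j, Z 3 j = Z 2 j * Z 1 j * Z 0 j := by
    intro j
    apply Subtype.ext
    show ((Z 3 j : A) : Q) = ((Z 2 j : A) : Q) * ((Z 1 j : A) : Q) * ((Z 0 j : A) : Q)
    rw [hZ, hZ, hZ, hZ, h3j]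
  have hZJ : Z 0 1 * Z 1 1 * (Z 0 2 * Z 1 2) = 1 := by
    apply Subtype.ext
    show ((Z 0 1 : A) : Q) * ((Z 1 1 : A) : Q) * (((Z 0 2 : A) : Q) * ((Z 1 2 : A) : Q)) = 1
    rw [hZ, hZ, hZ, hZ, hJ']
  have hZP : Z 3 0 * Z 3 1 * Z 3 2 * Z 2 0 * Z 2 1 * Z 1 0 = 1 := by
    apply Subtype.ext
    show ((Z 3 0 : A) : Q) * ((Z 3 1 : A) : Q) * ((Z 3 2 : A) : Q) * ((Z 2 0 : A) : Q) * ((Z 2 1 : A) : Q) *
      ((Z 1 0 : A) : Q) = 1
    rw [hZ, hZ, hZ, hZ, hZ, hZ, ← hprod]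
  have hfin : Z 0 0 * Z 2 2 = 1 := by
    have e : Z 3 0 * Z 3 1 * Z 3 2 * Z 2 0 * Z 2 1 * Z 1 0 = (Z 0 0 * Z 2 2) * (Z 0 1 * Z 1 1 * (Z 0 2 * Z 1 2)) *
        (Z 2 0 * Z 2 0) * (Z 1 0 * Z 1 0) * (Z 2 1 * Z 2 1) := by
      rw [hZ3, hZ3, hZ3]
      simp only [mul_assoc, mul_comm, mul_left_comm]
    rw [e, hZJ, hZ2, hZ2, hZ2, mul_one, mul_one, mul_one, mul_one] at hZP
    exact hZP
  have hfin' : z 0 0 * z 2 2 = 1 := by
    have h1 := congrArg (fun y : A => (y : Q)) hfin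
    have h2 : ((Z 0 0 : A) : Q) * ((Z 2 2 : A) : Q) = 1 := h1
    rwa [hZ, hZ] at h2
  rw [← hz, ← hz]
  calc z 0 0 = z 0 0 * (z 2 2 * z 2 2) := by rw [hz2, mul_one]
    _ = z 2 2 := by rw [← mul_assoc, hfin', one_mul]

end

end E4.N
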