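import Pool.Agent.Lib.MP_8a95e3_al.YA3

/-!
# YA4 : the class two theorem, final form (helper11)

* `cl2` : `G` of exponent four and every conjugate of `x` commutes with every `(ex x u) ^ 2` : the normal closure of `x` is
  nilpotent of class at most two (`lcs (normalClosure {x}) 2 = ⊥`);
* `cl2_inv` : the same for `x ^ 2 = 1`;
* `cl2_gen` : for every `x`, `lcs (normalClosure {x}) 2 ≤ ⁅normalClosure {x ^ 2}, normalClosure {x}⁆`.
-/

universe u

open scoped commutatorElement

namespace E4.YA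

theorem nc_eq {G : Type*} [Group G] (x : G) :
    Subgroup.normalClosure {x} = Subgroup.closure (Set.range (ex x)) := by
  unfold Subgroup.normalClosure
  congr 1
  ext y
  rw [Group.mem_conjugatesOfSet_iff]
  constructor
  · rintro ⟨a, ha, hc⟩
    rw [Set.mem_singleton_iff.1 ha] at hc
    obtain ⟨k, hk⟩ := isConj_iff.1 hc
    exact ⟨k, hk⟩
  · rintro ⟨k, rfl⟩
    exact ⟨x, rfl, isConj_iff.2 ⟨k, rfl⟩⟩

theorem gen3 {G : Type u} [Group G] {x : G} (h : ∀ u v w, ⁅ex x w, ⁅ex x u, ex x v⁆⁆ = 1) :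
    lcs (Subgroup.normalClosure {x}) 2 = ⊥ := by
  obtain ⟨N, hN⟩ : ∃ N, N = Subgroup.normalClosure {x} := ⟨_, rfl⟩
  have hNn : N.Normal := by
    rw [hN]
    exact Subgroup.normalClosure_normal
  have hC : ∀ u v, kp x u v ∈ Subgroup.centralizer (N : Set G) := by
    intro u v
    have h1 : N ≤ Subgroup.centralizer {kp x u v} := by
      rw [hN, nc_eq, Subgroup.closure_le]
      rintro _ ⟨w, rfl⟩
      rw [SetLike.mem_coe, Subgroup.mem_centralizer_iff]
      intro c hc
      rw [Set.mem_singleton_iff.1 hc]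
      exact (commutatorElement_eq_one_iff_mul_comm.1 (h u v w)).symm
    rw [Subgroup.mem_centralizer_iff]
    intro n hn
    exact (Subgroup.mem_centralizer_iff.1 (h1 hn) _ rfl).symm
  have hCn : (Subgroup.centralizer (N : Set G)).Normal := inferInstance
  obtain ⟨π, hπ⟩ : ∃ π : G →* G ⧸ Subgroup.centralizer (N : Set G), π = QuotientGroup.mk' _ := ⟨_, rfl⟩
  have hker : ∀ g, π g = 1 ↔ g ∈ Subgroup.centralizer (N : Set G) := by
    intro g
    rw [hπ]
    exact QuotientGroup.eq_one_iff g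
  have hS : ∀ a ∈ Set.range (fun u => π (ex x u)), ∀ b ∈ Set.range (fun u => π (ex x u)), a * b = b * a := by
    rintro _ ⟨u, rfl⟩ _ ⟨v, rfl⟩
    show π (ex x u) * π (ex x v) = π (ex x v) * π (ex x u)
    rw [← commutatorElement_eq_one_iff_mul_comm, ← map_commutatorElement, hker]
    exact hC u v
  have hmem : ∀ n ∈ N, π n ∈ Subgroup.closure (Set.range (fun u => π (ex x u))) := by
    intro n hn
    have h1 : Subgroup.closure (Set.range (ex x)) ≤ (Subgroup.closure (Set.range (fun u => π (ex x u)))).comap π := by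
      rw [Subgroup.closure_le]
      rintro _ ⟨w, rfl⟩
      exact Subgroup.subset_closure ⟨w, rfl⟩
    have h2 : n ∈ Subgroup.closure (Set.range (ex x)) := by
      rw [← nc_eq, ← hN]
      exact hn
    exact h1 h2
  have h1 : ⁅N, N⁆ ≤ Subgroup.centralizer (N : Set G) := by
    rw [Subgroup.commutator_le]
    intro a ha b hb
    rw [← hker, map_commutatorElement, commutatorElement_eq_one_iff_mul_comm]
    exact closure_comm hS _ (hmem a ha) _ (hmem b hb)
  have h2 : (⁅⁅N, N⁆, N⁆ : Subgroup G) = ⊥ := by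
    rw [Subgroup.commutator_eq_bot_iff_le_centralizer]
    exact h1
  rw [← hN]
  exact h2

theorem lcs_map {G G' : Type*} [Group G] [Group G'] (f : G →* G') (K : Subgroup G) (n : ℕ) :
    (lcs K n).map f = lcs (K.map f) n := by
  induction n with
  | zero => rfl
  | succ n ih =>
    change (⁅lcs K n, K⁆ : Subgroup G).map f = ⁅lcs (K.map f) n, K.map f⁆
    rw [Subgroup.map_commutator, ih]

theorem ex_map {G G' : Type*} [Group G] [Group G'] (f : G →* G') (x u : G) : f (ex x u) = ex (f x) (f u) := by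
  unfold ex
  rw [map_mul, map_mul, map_inv]

theorem nc_map {G G' : Type*} [Group G] [Group G'] (f : G →* G') (hf : Function.Surjective f) (x : G) :
    (Subgroup.normalClosure {x}).map f = Subgroup.normalClosure {f x} := by
  rw [nc_eq, nc_eq, MonoidHom.map_closure]
  congr 1
  ext y
  constructor
  · rintro ⟨_, ⟨u, rfl⟩, rfl⟩
    exact ⟨f u, (ex_map f x u).symm⟩
  · rintro ⟨v, rfl⟩
    obtain ⟨u, rfl⟩ := hf v
    exact ⟨ex x u, ⟨u, rfl⟩, ex_map f x u⟩

theorem exp4_quot {G : Type u} [Group G] (h4 : Exp4 G) (L : Subgroup G) [L.Normal] : Exp4 (G ⧸ L) := by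
  intro y
  obtain ⟨g, rfl⟩ := QuotientGroup.mk'_surjective L y
  rw [← map_pow, h4, map_one]

theorem cl2_fin {G : Type u} [Group G] [Finite G] (h4 : Exp4 G) {x : G}
    (hS : ∀ u v, Commute (ex x u ^ 2) (ex x v)) : lcs (Subgroup.normalClosure {x}) 2 = ⊥ := by
  have hstep : lcs (Subgroup.normalClosure {x}) 2 ≤ lcs (Subgroup.normalClosure {x}) 3 := by
    have hL : (lcs (Subgroup.normalClosure {x}) 3).Normal := itc_normal _ _ 3
    obtain ⟨L, hLdef⟩ : ∃ L, L = lcs (Subgroup.normalClosure {x}) 3 := ⟨_, rfl⟩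
    rw [← hLdef] at hL
    have hsurj := QuotientGroup.mk'_surjective L
    have hS' : ∀ u v, Commute (ex (QuotientGroup.mk' L x) u ^ 2) (ex (QuotientGroup.mk' L x) v) := by
      intro u v
      obtain ⟨u, rfl⟩ := hsurj u
      obtain ⟨v, rfl⟩ := hsurj v
      rw [← ex_map, ← ex_map, ← map_pow]
      exact (hS u v).map _
    have hN' : lcs (Subgroup.normalClosure {QuotientGroup.mk' L x}) 3 = ⊥ := by
      rw [← nc_map _ hsurj, ← lcs_map, ← hLdef, Subgroup.map_eq_bot_iff, QuotientGroup.ker_mk']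
    have h1 := gen3 (cl2_core (exp4_quot h4 L) hS' hN')
    rw [← nc_map _ hsurj, ← lcs_map, Subgroup.map_eq_bot_iff, QuotientGroup.ker_mk'] at h1
    rw [← hLdef]
    exact h1
  have hall : ∀ j, lcs (Subgroup.normalClosure {x}) 2 ≤ lcs (Subgroup.normalClosure {x}) (2 + j) := by
    intro j
    induction j with
    | zero => exact le_rfl
    | succ j ih =>
      have h1 : (⁅lcs (Subgroup.normalClosure {x}) 2, Subgroup.normalClosure {x}⁆ : Subgroup G) ≤
        ⁅lcs (Subgroup.normalClosure {x}) (2 + j), Subgroup.normalClosure {x}⁆ := Subgroup.commutator_mono ih le_rfl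
      exact hstep.trans h1
  have h2 : IsPGroup 2 G := fun x => ⟨2, by simpa using h4 x⟩
  have : Fact (Nat.Prime 2) := ⟨Nat.prime_two⟩
  have hnil : Group.IsNilpotent G := h2.isNilpotent
  obtain ⟨n₀, hn₀⟩ := Subgroup.nilpotent_iff_lowerCentralSeries.1 hnil
  have h3 : ∀ j, lcs (Subgroup.normalClosure {x}) j ≤ Subgroup.lowerCentralSeries ⊤ j := by
    intro j
    induction j with
    | zero => exact le_top
    | succ j ih => exact Subgroup.commutator_mono ih le_top
  rw [eq_bot_iff]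
  refine (hall n₀).trans ((h3 _).trans ?_)
  rw [← hn₀]
  exact Subgroup.lowerCentralSeries_antitone _ (by omega)

/-- **Class two theorem.** -/
theorem cl2 {G : Type u} [Group G] (h4 : Exp4 G) {x : G} (hS : ∀ u v, Commute (ex x u ^ 2) (ex x v)) :
    lcs (Subgroup.normalClosure {x}) 2 = ⊥ := by
  classical
  refine gen3 fun u v w => ?_
  obtain ⟨H, hH⟩ : ∃ H : Subgroup G, H = Subgroup.closure ((({x, u, v, w} : Finset G)) : Set G) := ⟨_, rfl⟩
  have hfin : Finite H := by
    rw [hH]
    exact sanov h4 _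
  have hx : x ∈ H := by
    rw [hH]
    exact Subgroup.subset_closure (by simp)
  have hu : u ∈ H := by
    rw [hH]
    exact Subgroup.subset_closure (by simp)
  have hv : v ∈ H := by
    rw [hH]
    exact Subgroup.subset_closure (by simp)
  have hw : w ∈ H := by
    rw [hH]
    exact Subgroup.subset_closure (by simp)
  have h4' : Exp4 H := by
    intro y
    ext
    rw [Subgroup.coe_pow, Subgroup.coe_one]
    exact h4 y
  have hS' : ∀ u v, Commute (ex (⟨x, hx⟩ : H) u ^ 2) (ex (⟨x, hx⟩ : H) v) := by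
    intro u v
    have h := hS u v
    ext
    exact h.eq
  have h1 := cl2_fin h4' hS'
  have hm : ⁅⁅ex (⟨x, hx⟩ : H) ⟨u, hu⟩, ex (⟨x, hx⟩ : H) ⟨v, hv⟩⁆, ex (⟨x, hx⟩ : H) ⟨w, hw⟩⁆ ∈
      lcs (Subgroup.normalClosure {(⟨x, hx⟩ : H)}) 2 :=
    Subgroup.commutator_mem_commutator (Subgroup.commutator_mem_commutator (ex_mem _ _) (ex_mem _ _)) (ex_mem _ _)
  rw [h1, Subgroup.mem_bot] at hm
  have h2 := congrArg (H.subtype) hm
  rw [map_commutatorElement, map_commutatorElement, ex_map, ex_map, ex_map, map_one] at h2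
  have h3 : ⁅⁅ex x u, ex x v⁆, ex x w⁆ = 1 := h2
  rw [← commutatorElement_inv, h3, inv_one]

/-- normal closures of involutions have class two -/
theorem cl2_inv {G : Type u} [Group G] (h4 : Exp4 G) {x : G} (hx : x ^ 2 = 1) :
    lcs (Subgroup.normalClosure {x}) 2 = ⊥ := by
  refine cl2 h4 fun u v => ?_
  have h : ex x u ^ 2 = 1 := by
    unfold ex
    rw [conj_pow, hx, mul_one, mul_inv_cancel]
  rw [h]
  exact Commute.one_left _

/-- **`γ₃(N_x) ≤ [S_x, N_x]`** for every `x`. -/
theorem cl2_gen {G : Type u} [Group G] (h4 : Exp4 G) (x : G) :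
    lcs (Subgroup.normalClosure {x}) 2 ≤ ⁅Subgroup.normalClosure {x ^ 2}, Subgroup.normalClosure {x}⁆ := by
  obtain ⟨L, hL⟩ : ∃ L : Subgroup G, L = ⁅Subgroup.normalClosure {x ^ 2}, Subgroup.normalClosure {x}⁆ := ⟨_, rfl⟩
  have hLn : L.Normal := by
    rw [hL]
    infer_instance
  have hsurj := QuotientGroup.mk'_surjective L
  have hS' : ∀ u v, Commute (ex (QuotientGroup.mk' L x) u ^ 2) (ex (QuotientGroup.mk' L x) v) := by
    intro u v
    obtain ⟨u, rfl⟩ := hsurj u
    obtain ⟨v, rfl⟩ := hsurj v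
    rw [← ex_map, ← ex_map, ← map_pow]
    show _ * _ = _ * _
    rw [← commutatorElement_eq_one_iff_mul_comm, ← map_commutatorElement]
    refine (QuotientGroup.eq_one_iff _).2 ?_
    rw [hL]
    refine Subgroup.commutator_mem_commutator ?_ (ex_mem x v)
    have e : ex x u ^ 2 = ex (x ^ 2) u := by
      unfold ex
      exact conj_pow
    rw [e]
    exact ex_mem _ _
  have h1 := cl2 (exp4_quot h4 L) hS'
  rw [← nc_map _ hsurj, ← lcs_map, Subgroup.map_eq_bot_iff, QuotientGroup.ker_mk'] at h1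
  rw [← hL]
  exact h1

end E4.YA
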