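import Pool.Agent.Lib.MP_8a95e3_al.NJ1
import Pool.Agent.Lib.MP_8a95e3_al.YA4
import Pool.Agent.Lib.MP_8a95e3_al.C2.JTh

/-!
# NJ2 : the first two facts about the involutions of the groups of exponent four
-/

namespace E4.N

open scoped commutatorElement

section

variable {Q : Type} [Group Q]

theorem cj_mem (e u : Q) : u * e * u⁻¹ ∈ Subgroup.normalClosure {e} :=
  (Subgroup.normalClosure_normal (s := {e})).conj_mem _ (Subgroup.subset_normalClosure rfl) _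

/-- the normal closure of an involution has class two -/
theorem nc_class2 (h4 : ∀ g : Q, g ^ 4 = 1) {e : Q} (he : e ^ 2 = 1) : ∀ n ∈ Subgroup.normalClosure {e},
    ∀ m ∈ Subgroup.normalClosure {e}, ∀ l ∈ Subgroup.normalClosure {e}, Commute ⁅n, m⁆ l := by
  intro n hn m hm l hl
  have h1 : lcs (Subgroup.normalClosure {e}) 2 = ⊥ := E4.YA.cl2_inv h4 he
  have h2 : ⁅⁅n, m⁆, l⁆ ∈ lcs (Subgroup.normalClosure {e}) 2 :=
    Subgroup.commutator_mem_commutator (Subgroup.commutator_mem_commutator hn hm) hl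
  rw [h1, Subgroup.mem_bot] at h2
  exact commutatorElement_eq_one_iff_mul_comm.1 h2

theorem E0_all (h4 : ∀ g : Q, g ^ 4 = 1) {e : Q} (he : e ^ 2 = 1) (u v w : Q) :
    Commute (cc e u v) (w * e * w⁻¹) :=
  nc_class2 h4 he _ (cj_mem e u) _ (cj_mem e v) _ (cj_mem e w)

theorem prod4 (h4 : ∀ g : Q, g ^ 4 = 1) (n g : Q) :
    n * (g * n * g⁻¹) * (g ^ 2 * n * (g ^ 2)⁻¹) * (g ^ 3 * n * (g ^ 3)⁻¹) = 1 := by
  have e : n * (g * n * g⁻¹) * (g ^ 2 * n * (g ^ 2)⁻¹) * (g ^ 3 * n * (g ^ 3)⁻¹) = (n * g) ^ 4 * (g ^ 4)⁻¹ := by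
    simp only [pow_succ, pow_zero, one_mul, mul_inv_rev]
    group
  rw [e, h4, h4, inv_one, mul_one]

/-- **squares centralise the commutators** -/
theorem E1_all (h4 : ∀ g : Q, g ^ 4 = 1) {e : Q} (he : e ^ 2 = 1) (u v g : Q) : Commute (g ^ 2) (cc e u v) := by
  obtain ⟨N, hN⟩ : ∃ N : Subgroup Q, N = Subgroup.normalClosure {e} := ⟨_, rfl⟩
  have hee : e * e = 1 := by rw [← pow_two]; exact he
  have hinv : ∀ w : Q, (w * e * w⁻¹) * (w * e * w⁻¹) = 1 := by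
    intro w
    have e1 : (w * e * w⁻¹) * (w * e * w⁻¹) = w * (e * e) * w⁻¹ := by group
    rw [e1, hee, mul_one, mul_inv_cancel]
  have hmem : ∀ w : Q, w * e * w⁻¹ ∈ N := fun w => by rw [hN]; exact cj_mem e w
  have hcl : ∀ n ∈ N, ∀ m ∈ N, ∀ l ∈ N, Commute ⁅n, m⁆ l := by
    rw [hN]
    exact nc_class2 h4 he
  obtain ⟨a, ha⟩ : ∃ a : ℕ → Q, ∀ i, a i = (g ^ i * v) * e * (g ^ i * v)⁻¹ := ⟨_, fun i => rfl⟩
  obtain ⟨b, hb⟩ : ∃ b : ℕ → Q, ∀ i, b i = (g ^ i * u) * e * (g ^ i * u)⁻¹ := ⟨_, fun i => rfl⟩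
  have hJ : Commute (a 0 * a 1) (b 1 * b 2) := by
    have h1 := E4.C2.jt h4 hee (fun p q r => by
      have hpp : ∀ p : Q, p⁻¹ * e * p = p⁻¹ * e * p⁻¹⁻¹ := fun p => by rw [inv_inv]
      have h5 : (p⁻¹ * e * p) * (q⁻¹ * e * q) * (p⁻¹ * e * p) * (q⁻¹ * e * q) = ⁅p⁻¹ * e * p⁻¹⁻¹, q⁻¹ * e * q⁻¹⁻¹⁆ := by
        rw [commutatorElement_def, inv_eq_of_mul_eq_one_left (hinv p⁻¹), inv_eq_of_mul_eq_one_left (hinv q⁻¹),
          ← hpp, ← hpp]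
      rw [h5, hpp r]
      exact hcl _ (hmem _) _ (hmem _) _ (hmem _)) v⁻¹ (g * u)⁻¹ g⁻¹
    have e1 : v⁻¹⁻¹ * e * v⁻¹ * ((v⁻¹ * g⁻¹)⁻¹ * e * (v⁻¹ * g⁻¹)) = a 0 * a 1 := by
      rw [ha, ha, pow_zero, pow_one, one_mul]
      group
    have e2 : (g * u)⁻¹⁻¹ * e * (g * u)⁻¹ * (((g * u)⁻¹ * g⁻¹)⁻¹ * e * ((g * u)⁻¹ * g⁻¹)) = b 1 * b 2 := by
      rw [hb, hb, pow_one, pow_two]
      group
    rw [e1, e2] at h1
    exact h1
  have hA : a 0 * a 1 * a 2 * a 3 = 1 := by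
    have h1 := prod4 h4 (v * e * v⁻¹) g
    rw [← h1, ha, ha, ha, ha]
    group
  have hB : b 0 * b 1 * b 2 * b 3 = 1 := by
    have h1 := prod4 h4 (u * e * u⁻¹) g
    rw [← h1, hb, hb, hb, hb]
    group
  have hAB : a 0 * b 0 * a 1 * b 1 * a 2 * b 2 * a 3 * b 3 = 1 := by
    have h1 := prod4 h4 ((v * e * v⁻¹) * (u * e * u⁻¹)) g
    rw [← h1, ha, ha, ha, ha, hb, hb, hb, hb]
    group
  have h := eight (N := N) (fun i => by rw [ha]; exact hmem _) (fun i => by rw [hb]; exact hmem _) hcl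
    (fun i => by rw [ha]; exact hinv _) (fun i => by rw [hb]; exact hinv _) hA hB hAB hJ
  have h0 : ⁅b 0, a 0⁆ = cc e u v := by
    unfold cc
    rw [ha, hb, pow_zero, one_mul, one_mul]
  have h2 : ⁅b 2, a 2⁆ = g ^ 2 * cc e u v * (g ^ 2)⁻¹ := by
    rw [cc_conj]
    unfold cc
    rw [ha, hb]
  rw [h0, h2] at h
  show g ^ 2 * cc e u v = cc e u v * g ^ 2
  nth_rewrite 2 [h]
  rw [inv_mul_cancel_right]

end

end E4.N
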