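import Pool.Agent.Lib.MP_8a95e3_al.YE3

/-!
# YE4 : Lemma E, final form (left conjugation)
-/

namespace E4.YE

open scoped commutatorElement

/-- **(E2)** from (E0) and (E1) : the function `u ↦ [e, u e u⁻¹]` is additive on the squares. -/
theorem lemE2 {Q : Type*} [Group Q] (h4 : ∀ g : Q, g ^ 4 = 1) {e : Q} (he : e ^ 2 = 1)
    (h0 : ∀ u v w, Commute ⁅u * e * u⁻¹, v * e * v⁻¹⁆ (w * e * w⁻¹))
    (h1 : ∀ u v g, Commute (g ^ 2) ⁅u * e * u⁻¹, v * e * v⁻¹⁆) (h k u : Q) :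
    ⁅1 * e * 1⁻¹, u * e * u⁻¹⁆ * ⁅1 * e * 1⁻¹, h ^ 2 * u * e * (h ^ 2 * u)⁻¹⁆ *
      ⁅1 * e * 1⁻¹, k ^ 2 * u * e * (k ^ 2 * u)⁻¹⁆ *
      ⁅1 * e * 1⁻¹, k ^ 2 * h ^ 2 * u * e * (k ^ 2 * h ^ 2 * u)⁻¹⁆ = 1 := by
  have H : EHyp e := ⟨h4, by rw [← pow_two]; exact he, fun u v w => (h0 u v w).eq, fun u v g => by
    have h2 := h1 u v g
    rw [pow_two] at h2
    exact h2.eq.symm⟩
  have h2 := H.j2_mul h k u 1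
  rw [H.val_symm u 1, H.val_symm (h * h * u) 1, H.val_symm (k * k * u) 1, H.val_symm (k * k * (h * h * u)) 1] at h2
  rw [pow_two, pow_two, mul_assoc (k * k) (h * h) u]
  exact h2

/-- `c (J, J) = 0` -/
theorem lemE_jj {Q : Type*} [Group Q] (h4 : ∀ g : Q, g ^ 4 = 1) {e : Q} (he : e ^ 2 = 1)
    (h0 : ∀ u v w, Commute ⁅u * e * u⁻¹, v * e * v⁻¹⁆ (w * e * w⁻¹))
    (h1 : ∀ u v g, Commute (g ^ 2) ⁅u * e * u⁻¹, v * e * v⁻¹⁆) (h k a b : Q) :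
    ⁅a * e * a⁻¹, b * e * b⁻¹⁆ * ⁅h ^ 2 * a * e * (h ^ 2 * a)⁻¹, b * e * b⁻¹⁆ *
      ⁅a * e * a⁻¹, k ^ 2 * b * e * (k ^ 2 * b)⁻¹⁆ *
      ⁅h ^ 2 * a * e * (h ^ 2 * a)⁻¹, k ^ 2 * b * e * (k ^ 2 * b)⁻¹⁆ = 1 := by
  have H : EHyp e := ⟨h4, by rw [← pow_two]; exact he, fun u v w => (h0 u v w).eq, fun u v g => by
    have h2 := h1 u v g
    rw [pow_two] at h2
    exact h2.eq.symm⟩
  have h2 := H.jj_mul h k a b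
  rw [pow_two, pow_two]
  exact h2

/-- a square commutes with a letter -/
theorem lemE_xy {Q : Type*} [Group Q] (h4 : ∀ g : Q, g ^ 4 = 1) {e : Q} (he : e ^ 2 = 1)
    (h0 : ∀ u v w, Commute ⁅u * e * u⁻¹, v * e * v⁻¹⁆ (w * e * w⁻¹))
    (h1 : ∀ u v g, Commute (g ^ 2) ⁅u * e * u⁻¹, v * e * v⁻¹⁆) (g k : Q) :
    ⁅g * k ^ 2 * e * (g * k ^ 2)⁻¹, e⁆ = ⁅k ^ 2 * g * e * (k ^ 2 * g)⁻¹, e⁆ := by
  have H : EHyp e := ⟨h4, by rw [← pow_two]; exact he, fun u v w => (h0 u v w).eq, fun u v g => by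
    have h2 := h1 u v g
    rw [pow_two] at h2
    exact h2.eq.symm⟩
  rw [pow_two]
  exact H.xy2_mul g k

end E4.YE
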