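import Pool.Agent.Lib.MP_8a95e3_al.NJ2
import Pool.Agent.Lib.MP_8a95e3_al.YE4

/-!
# NJ3 : the facts about the involutions of the groups of exponent four
-/

namespace E4.N

/-- **Lemma E** -/
theorem lemE : LemE := by
  intro Q _ h4 e he
  refine ⟨fun u v w => E0_all h4 he u v w, fun u v g => E1_all h4 he u v g, fun h k u => ?_⟩
  exact E4.YE.lemE2 h4 he (fun u v w => E0_all h4 he u v w) (fun u v g => E1_all h4 he u v g) h k u

end E4.N
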