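import Pool.Agent.Lib.MP_8a95e3_al.NA1

/-!
# NY1 : the noetherian lemma without the distinguished index
-/

namespace E4.N

open E4.J

variable {s t : ℕ}

/-- the basis without index -/
abbrev BU (s t : ℕ) : Type := Fin s × (Fin t → A2)

/-- insertion of a zero column -/
noncomputable def zU (p : ℕ) (b : BU s t) : BU s t := (b.1, fun i => zV p (b.2 i))

/-- a column operation -/
noncomputable def cU (k p : ℕ) (b : BU s t) : BU s t := (b.1, fun i => cV k p (b.2 i))

/-- forget the index and the coefficient -/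
def fgU (b : BT s t) : BU s t := (b.1, fun i => b.2.1 i.succ)

theorem fgU_zT (p : ℕ) (b : BT s t) : fgU (zT p b) = zU p (fgU b) := rfl

theorem fgU_cT (k p : ℕ) (b : BT s t) : fgU (cT k p b) = cU k p (fgU b) := rfl

theorem fgU_eT (k p : ℕ) (b : BT s t) : fgU (eT k p b) = cU k p (fgU b) := by
  unfold fgU eT cU
  refine Prod.ext rfl ?_
  funext i
  have e : ∀ f g : A2, (if i.succ = 0 then f else g) = g := fun f g => if_neg (Fin.succ_ne_zero i)
  exact e (cV k p (b.2.1 i.succ) + Finsupp.single k 1) _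

/-- Chains of subgroups of an additive group which is generated by a functor of the letters. -/
theorem acc_unm {M : Type} [AddCommGroup M] (v : BU s t → M) (h4 : ∀ b, (4 : ℕ) • v b = 0)
    (zM : ℕ → M →+ M) (cM : ℕ → ℕ → M →+ M)
    (hz : ∀ p b, zM p (v b) = v (zU p b)) (hc : ∀ k p b, k < p → cM k p (v b) = v (cU k p b))
    (U : ℕ → AddSubgroup M) (hU : Monotone U) (hs : ∀ n, U n ≤ AddSubgroup.closure (Set.range v))
    (hZ : ∀ n p, ∀ m ∈ U n, zM p m ∈ U n) (hC : ∀ n k p, k < p → ∀ m ∈ U n, cM k p m ∈ U n) :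
    ∃ n, ∀ m ≥ n, U m = U n := by
  classical
  -- the operators on the sum
  obtain ⟨zN, hzN⟩ : ∃ zN : ℕ → (ℕ →₀ M) →+ (ℕ →₀ M), ∀ p j m, zN p (Finsupp.single j m) =
      Finsupp.single (sp p j) (zM p m) := by
    refine ⟨fun p => Finsupp.liftAddHom fun j => (Finsupp.singleAddHom (sp p j)).comp (zM p), fun p j m => ?_⟩
    rw [Finsupp.liftAddHom_apply_single]
    rfl
  obtain ⟨cN, hcN⟩ : ∃ cN : ℕ → ℕ → (ℕ →₀ M) →+ (ℕ →₀ M), ∀ k p j m, cN k p (Finsupp.single j m) =
      Finsupp.single j (cM k p m) + if j = k then Finsupp.single p (cM k p m) else 0 := by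
    refine ⟨fun k p => Finsupp.liftAddHom fun j => (Finsupp.singleAddHom j).comp (cM k p) +
      if j = k then (Finsupp.singleAddHom p).comp (cM k p) else 0, fun k p j m => ?_⟩
    rw [Finsupp.liftAddHom_apply_single]
    by_cases h : j = k
    · rw [if_pos h, if_pos h]
      rfl
    · rw [if_neg h, if_neg h]
      show Finsupp.single j (cM k p m) + 0 = _
      rw [add_zero]
  obtain ⟨w, hw⟩ : ∃ w : BT s t → (ℕ →₀ M), ∀ b, w b = Finsupp.single b.2.2 (v (fgU b)) := ⟨_, fun b => rfl⟩
  -- the subgroups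
  obtain ⟨W, hW⟩ : ∃ W : AddSubgroup M → AddSubgroup (ℕ →₀ M), ∀ S f, f ∈ W S ↔ ∀ j, f j ∈ S :=
    ⟨fun S => { carrier := {f | ∀ j, f j ∈ S}
                zero_mem' := fun j => S.zero_mem
                add_mem' := fun ha hb j => S.add_mem (ha j) (hb j)
                neg_mem' := fun ha j => S.neg_mem (ha j) }, fun S f => Iff.rfl⟩
  have hsingle : ∀ S : AddSubgroup M, ∀ j, ∀ m ∈ S, Finsupp.single j m ∈ W S := by
    intro S j m hm
    rw [hW]
    intro i
    rw [Finsupp.single_apply]
    split_ifs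
    · exact hm
    · exact S.zero_mem
  have hind : ∀ S : AddSubgroup M, ∀ (T : AddSubgroup (ℕ →₀ M)), (∀ j, ∀ m ∈ S, Finsupp.single j m ∈ T) →
      W S ≤ T := by
    intro S T hT f hf
    rw [hW] at hf
    rw [← Finsupp.sum_single f]
    exact AddSubgroup.sum_mem _ fun j _ => hT j _ (hf j)
  have hclos : ∀ (f : (ℕ →₀ M) →+ (ℕ →₀ M)) (S T : AddSubgroup M), (∀ j, ∀ m ∈ S, f (Finsupp.single j m) ∈ W T) →
      ∀ g ∈ W S, f g ∈ W T := by
    intro f S T h g hg
    exact hind S ((W T).comap f) h hg
  obtain ⟨n, hn⟩ := acc_of_gen (s := s) (t := t) (W ⊥) w (by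
      intro b
      rw [hw]
      have e : (4 : ℕ) • Finsupp.single b.2.2 (v (fgU b)) = Finsupp.single b.2.2 ((4 : ℕ) • v (fgU b)) :=
        Finsupp.smul_single _ _ _
      rw [e, h4, Finsupp.single_zero]
      exact (W ⊥).zero_mem) zN cN
    (by
      intro p
      refine hclos (zN p) ⊥ ⊥ fun j m hm => ?_
      rw [AddSubgroup.mem_bot] at hm
      rw [hm, Finsupp.single_zero, map_zero]
      exact (W ⊥).zero_mem)
    (by
      intro k p _
      refine hclos (cN k p) ⊥ ⊥ fun j m hm => ?_
      rw [AddSubgroup.mem_bot] at hm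
      rw [hm, Finsupp.single_zero, map_zero]
      exact (W ⊥).zero_mem)
    (by
      intro p b
      rw [hw, hw, hzN, hz, fgU_zT]
      show Finsupp.single (sp p b.2.2) (v (zU p (fgU b))) - Finsupp.single (sp p b.2.2) (v (zU p (fgU b))) ∈ W ⊥
      rw [sub_self]
      exact (W ⊥).zero_mem)
    (by
      intro k p b hkp
      rw [hw, hw, hw, hcN, hc k p _ hkp, fgU_cT, fgU_eT]
      show Finsupp.single b.2.2 (v (cU k p (fgU b))) + (if b.2.2 = k then Finsupp.single p (v (cU k p (fgU b))) else 0) -
        (Finsupp.single b.2.2 (v (cU k p (fgU b))) + if b.2.2 = k then Finsupp.single p (v (cU k p (fgU b))) else 0) ∈ W ⊥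
      rw [sub_self]
      exact (W ⊥).zero_mem)
    (fun n => W (U n)) (fun a b hab f hf => by
      show f ∈ W (U b)
      have hf' : f ∈ W (U a) := hf
      rw [hW] at hf' ⊢
      exact fun j => hU hab (hf' j))
    (fun n f hf => by
      show f ∈ W (U n)
      rw [hW] at hf ⊢
      intro j
      have h1 := hf j
      rw [AddSubgroup.mem_bot] at h1
      rw [h1]
      exact (U n).zero_mem)
    (fun n => by
      refine le_trans (hind (U n) _ fun j m hm => ?_) (le_sup_right (a := W ⊥))
      have key : ∀ m ∈ AddSubgroup.closure (Set.range v), Finsupp.single j m ∈ AddSubgroup.closure (Set.range w) := by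
        intro m hm
        induction hm using AddSubgroup.closure_induction with
        | mem y hy =>
          obtain ⟨b, rfl⟩ := hy
          refine AddSubgroup.subset_closure ⟨(b.1, fun i => Fin.cases 0 b.2 i, j), ?_⟩
          rw [hw]
          rfl
        | zero =>
          rw [Finsupp.single_zero]
          exact AddSubgroup.zero_mem _
        | add a b _ _ ha hb =>
          rw [Finsupp.single_add]
          exact AddSubgroup.add_mem _ ha hb
        | neg a _ ha =>
          rw [Finsupp.single_neg]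
          exact AddSubgroup.neg_mem _ ha
      exact key m (hs n hm))
    (by
      intro n p
      refine hclos (zN p) (U n) (U n) fun j m hm => ?_
      rw [hzN]
      exact hsingle _ _ _ (hZ n p m hm))
    (by
      intro n k p hkp
      refine hclos (cN k p) (U n) (U n) fun j m hm => ?_
      rw [hcN]
      refine (W (U n)).add_mem (hsingle _ _ _ (hC n k p hkp m hm)) ?_
      split_ifs
      · exact hsingle _ _ _ (hC n k p hkp m hm)
      · exact (W (U n)).zero_mem)
  refine ⟨n, fun m hm => le_antisymm ?_ (hU hm)⟩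
  intro a ha
  have h1 : Finsupp.single 0 a ∈ W (U n) := by
    have h2 : W (U m) = W (U n) := hn m hm
    rw [← h2]
    exact hsingle _ _ _ ha
  rw [hW] at h1
  have h3 := h1 0
  rwa [Finsupp.single_eq_same] at h3

end E4.N
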