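import Pool.Agent.Lib.MP_8a95e3_al.NY9

/-!
# NY10 : the layer of the commutators of the conjugates of an involution
-/

namespace E4.N

open E4.J
open scoped commutatorElement

/-- the commutators of the conjugates of `e` -/
def cc {Q : Type} [Group Q] (e u v : Q) : Q := ⁅u * e * u⁻¹, v * e * v⁻¹⁆

section

variable {Q : Type} [Group Q] {e : Q}

theorem cc_conj (e u v w : Q) : w * cc e u v * w⁻¹ = cc e (w * u) (w * v) := by
  unfold cc
  rw [commutatorElement_def, commutatorElement_def]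
  group

theorem cc_one (e u v : Q) : cc e u v = u * cc e 1 (u⁻¹ * v) * u⁻¹ := by
  rw [cc_conj, mul_one, mul_inv_cancel_left]

theorem cc_comm (hE0 : ∀ u v w : Q, Commute (cc e u v) (w * e * w⁻¹)) (u v u' v' : Q) :
    Commute (cc e u v) (cc e u' v') := by
  have h1 : cc e u' v' = (u' * e * u'⁻¹) * (v' * e * v'⁻¹) * (u' * e * u'⁻¹)⁻¹ * (v' * e * v'⁻¹)⁻¹ := by
    unfold cc
    rw [commutatorElement_def]
  rw [h1]
  exact (((hE0 u v u').mul_right (hE0 u v v')).mul_right (hE0 u v u').inv_right).mul_right (hE0 u v v').inv_right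

theorem cc_sq (he2 : e ^ 2 = 1) (hE0 : ∀ u v w : Q, Commute (cc e u v) (w * e * w⁻¹)) (u : Q) :
    cc e 1 u * cc e 1 u = 1 := by
  have h1 : e * e = 1 := by rw [← pow_two]; exact he2
  have h2 : e⁻¹ = e := inv_eq_of_mul_eq_one_left h1
  have h3 : Commute (cc e 1 u) e := by
    have h := hE0 1 u 1
    rwa [one_mul, inv_one, mul_one] at h
  obtain ⟨b, hb⟩ : ∃ b, b = u * e * u⁻¹ := ⟨_, rfl⟩
  have hbb : b * b = 1 := by
    rw [hb]
    have e1 : u * e * u⁻¹ * (u * e * u⁻¹) = u * (e * e) * u⁻¹ := by group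
    rw [e1, h1, mul_one, mul_inv_cancel]
  have hb2 : b⁻¹ = b := inv_eq_of_mul_eq_one_left hbb
  have h4 : cc e 1 u = e * b * e * b := by
    unfold cc
    rw [commutatorElement_def, ← hb, hb2, one_mul, inv_one, mul_one, h2]
  have h5 : e * cc e 1 u * e = cc e 1 u := by
    rw [← h3.eq, mul_assoc, h1, mul_one]
  rw [h4] at h5 ⊢
  have h6 : e * (e * b * e * b) * e = b * e * b * e := by
    have e1 : e * (e * b * e * b) * e = (e * e) * (b * e * b * e) := by group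
    rw [e1, h1, one_mul]
  rw [h6] at h5
  nth_rewrite 2 [← h5]
  have e1 : e * b * e * b * (b * e * b * e) = e * b * e * (b * b) * e * b * e := by group
  rw [e1, hbb, mul_one]
  have e2 : e * b * e * e * b * e = e * b * (e * e) * b * e := by group
  rw [e2, h1, mul_one]
  have e3 : e * b * b * e = e * (b * b) * e := by group
  rw [e3, hbb, mul_one, h1]

end

/-- conjugation invariant generating sets -/
theorem closure_normal_of {G : Type} [Group G] {S : Set G} (h : ∀ s ∈ S, ∀ g : G, g * s * g⁻¹ ∈ S) :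
    (Subgroup.closure S).Normal := by
  refine ⟨fun n hn g => ?_⟩
  induction hn using Subgroup.closure_induction with
  | mem y hy => exact Subgroup.subset_closure (h y hy g)
  | one =>
    rw [mul_one, mul_inv_cancel]
    exact Subgroup.one_mem _
  | mul a b _ _ ha hb =>
    have e : g * (a * b) * g⁻¹ = (g * a * g⁻¹) * (g * b * g⁻¹) := by group
    rw [e]
    exact Subgroup.mul_mem _ ha hb
  | inv a _ ha =>
    have e : g * a⁻¹ * g⁻¹ = (g * a * g⁻¹)⁻¹ := by group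
    rw [e]
    exact Subgroup.inv_mem _ ha

/-- **THE E-LAYER.** -/
theorem e_layer {C' : Subgroup F} (hn : C'.Normal) (hst : StX C') (h4 : ∀ w : F, w ^ 4 ∈ C') (e : F)
    (he : ∀ θ : F →* F, θ (x 0) = x 0 → θ e = e) (he2 : e ^ 2 ∈ C')
    (hE0 : ∀ u v w : F ⧸ C', Commute (cc (QuotientGroup.mk e) u v) (w * QuotientGroup.mk e * w⁻¹))
    (hE1 : ∀ u v g : F ⧸ C', Commute (g ^ 2) (cc (QuotientGroup.mk e) u v))
    (hE2 : ∀ h k u : F ⧸ C', cc (QuotientGroup.mk e) 1 u * cc (QuotientGroup.mk e) 1 (h ^ 2 * u) *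
      cc (QuotientGroup.mk e) 1 (k ^ 2 * u) * cc (QuotientGroup.mk e) 1 (k ^ 2 * h ^ 2 * u) = 1) :
    LAcc ⁅Subgroup.normalClosure {e}, Subgroup.normalClosure {e}⁆ C' := by
  classical
  obtain ⟨q, hq⟩ : ∃ q : F →* F ⧸ C', q = QuotientGroup.mk' C' := ⟨_, rfl⟩
  have hqk : ∀ w, q w = 1 ↔ w ∈ C' := fun w => by
    rw [hq]
    exact QuotientGroup.eq_one_iff w
  have hqmk : ∀ w, (QuotientGroup.mk w : F ⧸ C') = q w := fun w => by rw [hq]; rfl
  rw [hqmk] at hE0 hE1 hE2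
  have hqe2 : (q e) ^ 2 = 1 := by
    rw [← map_pow, hqk]
    exact he2
  have hmem : ∀ a b : F, q a = q b → a⁻¹ * b ∈ C' := by
    intro a b h
    rw [← hqk, map_mul, map_inv, h, inv_mul_cancel]
  -- the function f
  obtain ⟨f, hf⟩ : ∃ f : F → F ⧸ C', ∀ u, f u = cc (q e) 1 (q u) := ⟨_, fun u => rfl⟩
  have hff : ∀ u, f u * f u = 1 := fun u => by rw [hf]; exact cc_sq hqe2 hE0 _
  have hfc : ∀ u v, f u * f v = f v * f u := fun u v => by rw [hf, hf]; exact (cc_comm hE0 _ _ _ _).eq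
  obtain ⟨D, hD⟩ : ∃ D : F → F → F ⧸ C', ∀ m u, D m u = f (m * u) * f u := ⟨_, fun m u => rfl⟩
  have hDsq : ∀ h k u, D (h ^ 2) (k ^ 2 * u) = D (h ^ 2) u := by
    intro h k u
    have h1 := hE2 (q k) (q h) (q u)
    have e1 : cc (q e) 1 (q u) = f u := (hf _).symm
    have e2 : cc (q e) 1 (q k ^ 2 * q u) = f (k ^ 2 * u) := by rw [hf, map_mul, map_pow]
    have e3 : cc (q e) 1 (q h ^ 2 * q u) = f (h ^ 2 * u) := by rw [hf, map_mul, map_pow]
    have e4 : cc (q e) 1 (q h ^ 2 * q k ^ 2 * q u) = f (h ^ 2 * (k ^ 2 * u)) := by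
      rw [hf, map_mul, map_mul, map_pow, map_pow, mul_assoc]
    rw [e1, e2, e3, e4] at h1
    rw [hD, hD]
    have h2 : f (h ^ 2 * (k ^ 2 * u)) = (f u * f (k ^ 2 * u) * f (h ^ 2 * u))⁻¹ := by
      exact (inv_eq_of_mul_eq_one_right h1).symm
    have h3 : ∀ v, (f v)⁻¹ = f v := fun v => inv_eq_of_mul_eq_one_left (hff v)
    rw [h2, mul_inv_rev, mul_inv_rev, h3, h3, h3]
    calc f (h ^ 2 * u) * (f (k ^ 2 * u) * f u) * f (k ^ 2 * u)
        = f (h ^ 2 * u) * (f (k ^ 2 * u) * (f u * f (k ^ 2 * u))) := by simp only [mul_assoc]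
      _ = f (h ^ 2 * u) * (f (k ^ 2 * u) * (f (k ^ 2 * u) * f u)) := by rw [hfc u]
      _ = f (h ^ 2 * u) * ((f (k ^ 2 * u) * f (k ^ 2 * u)) * f u) := by simp only [mul_assoc]
      _ = f (h ^ 2 * u) * f u := by rw [hff, one_mul]
  have hDmul : ∀ m m' u, D (m * m') u = D m (m' * u) * D m' u := by
    intro m m' u
    rw [hD, hD, hD, mul_assoc m m' u]
    calc f (m * (m' * u)) * f u = f (m * (m' * u)) * ((f (m' * u) * f (m' * u)) * f u) := by rw [hff, one_mul]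
      _ = f (m * (m' * u)) * f (m' * u) * (f (m' * u) * f u) := by simp only [mul_assoc]
  have hDone : ∀ u, D 1 u = 1 := fun u => by rw [hD, one_mul, hff]
  have hDinv : ∀ m u, D m⁻¹ u = D m (m⁻¹ * u) := by
    intro m u
    rw [hD, hD, mul_inv_cancel_left, hfc]
  have hP : ∀ m ∈ N2, ∀ k u, D m (k ^ 2 * u) = D m u := by
    intro m hm
    unfold N2 at hm
    induction hm using Subgroup.closure_induction with
    | mem y hy =>
      obtain ⟨g, rfl⟩ := hy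
      intro k u
      exact hDsq g k u
    | one =>
      intro k u
      rw [hDone, hDone]
    | mul a b _ _ ha hb =>
      intro k u
      rw [hDmul, hDmul, hb]
      have e1 : b * (k ^ 2 * u) = (b * k * b⁻¹) ^ 2 * (b * u) := by
        rw [pow_two, pow_two]
        group
      rw [e1, ha]
    | inv a _ ha =>
      intro k u
      rw [hDinv, hDinv]
      have e1 : a⁻¹ * (k ^ 2 * u) = (a⁻¹ * k * a) ^ 2 * (a⁻¹ * u) := by
        rw [pow_two, pow_two]
        group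
      rw [e1, ha]
  have hR : ∀ n ∈ N2, ∀ m ∈ N2, ∀ u, D m (n * u) = D m u := by
    intro n hn'
    unfold N2 at hn'
    induction hn' using Subgroup.closure_induction with
    | mem y hy =>
      obtain ⟨g, rfl⟩ := hy
      intro m hm u
      exact hP m hm g u
    | one =>
      intro m hm u
      rw [one_mul]
    | mul a b _ _ ha hb =>
      intro m hm u
      rw [mul_assoc, ha m hm, hb m hm]
    | inv a _ ha =>
      intro m hm u
      rw [← ha m hm (a⁻¹ * u), mul_inv_cancel_left]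
  have hadd : ∀ m ∈ N2, ∀ m' ∈ N2, ∀ u, D (m * m') u = D m u * D m' u := by
    intro m hm m' hm' u
    rw [hDmul, hR m' hm' m hm]
  -- the squares act trivially
  have hN2c : ∀ n ∈ N2, ∀ u v, Commute (q n) (cc (q e) u v) := by
    intro n hn' u v
    unfold N2 at hn'
    induction hn' using Subgroup.closure_induction with
    | mem y hy =>
      obtain ⟨g, rfl⟩ := hy
      rw [map_pow]
      exact hE1 u v (q g)
    | one =>
      rw [map_one]
      exact Commute.one_left _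
    | mul a b _ _ ha hb =>
      rw [map_mul]
      exact ha.mul_left hb
    | inv a _ ha =>
      rw [map_inv]
      exact ha.inv_left
  have hfN : ∀ n ∈ N2, ∀ w u, q (n * w) * f u * (q (n * w))⁻¹ = q w * f u * (q w)⁻¹ := by
    intro n hn' w u
    rw [hf, map_mul]
    have e1 : q n * q w * cc (q e) 1 (q u) * (q n * q w)⁻¹ = q n * (q w * cc (q e) 1 (q u) * (q w)⁻¹) * (q n)⁻¹ := by
      group
    rw [e1, cc_conj, (hN2c n hn' _ _).eq, mul_inv_cancel_right]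
  have hDN : ∀ n ∈ N2, ∀ w m u, q (n * w) * D m u * (q (n * w))⁻¹ = q w * D m u * (q w)⁻¹ := by
    intro n hn' w m u
    rw [hD]
    have e1 : ∀ g : F ⧸ C', ∀ a b, g * (a * b) * g⁻¹ = (g * a * g⁻¹) * (g * b * g⁻¹) := fun g a b => by group
    rw [e1, e1, hfN n hn', hfN n hn']
  -- conjugates of values of f commute
  have hcf : ∀ w w' u u', Commute (q w * f u * (q w)⁻¹) (q w' * f u' * (q w')⁻¹) := by
    intro w w' u u'
    rw [hf, hf, cc_conj, cc_conj]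
    exact cc_comm hE0 _ _ _ _
  have hcD : ∀ w w' m u m' u', Commute (q w * D m u * (q w)⁻¹) (q w' * D m' u' * (q w')⁻¹) := by
    intro w w' m u m' u'
    rw [hD, hD]
    have e1 : ∀ g : F ⧸ C', ∀ a b, g * (a * b) * g⁻¹ = (g * a * g⁻¹) * (g * b * g⁻¹) := fun g a b => by group
    rw [e1, e1]
    exact ((hcf _ _ _ _).mul_right (hcf _ _ _ _)).mul_left ((hcf _ _ _ _).mul_right (hcf _ _ _ _))
  -- the words
  obtain ⟨rA, hrA⟩ : ∃ rA : Fin 1 → F, ∀ i, rA i = x 2 * ⁅e, x 1 * e * (x 1)⁻¹⁆ * (x 2)⁻¹ := ⟨_, fun i => rfl⟩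
  obtain ⟨rB, hrB⟩ : ∃ rB : Fin 1 → F, ∀ i, rB i = x 3 * (⁅e, (x 1 * x 2) * e * (x 1 * x 2)⁻¹⁆ *
    ⁅e, x 2 * e * (x 2)⁻¹⁆) * (x 3)⁻¹ := ⟨_, fun i => rfl⟩
  have hcce : ∀ u : F, q ⁅e, u * e * u⁻¹⁆ = f u := by
    intro u
    rw [hf]
    unfold cc
    rw [map_commutatorElement, map_mul, map_mul, map_inv, one_mul, inv_one, mul_one]
  have hqA : ∀ (θ : F →* F) i, θ (x 0) = x 0 → q (θ (rA i)) = q (θ (x 2)) * f (θ (x 1)) * (q (θ (x 2)))⁻¹ := by
    intro θ i h0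
    rw [hrA, map_mul, map_mul, map_inv, map_mul, map_mul, map_inv, map_commutatorElement, map_mul, map_mul, map_inv,
      he θ h0, hcce]
  have hqB : ∀ (θ : F →* F) i, θ (x 0) = x 0 →
      q (θ (rB i)) = q (θ (x 3)) * D (θ (x 1)) (θ (x 2)) * (q (θ (x 3)))⁻¹ := by
    intro θ i h0
    rw [hrB, map_mul, map_mul, map_inv, map_mul, map_mul, map_mul, map_inv, map_commutatorElement,
      map_commutatorElement, map_mul θ (x 1 * x 2 * e), map_mul θ (x 1 * x 2), map_mul θ (x 2 * e), map_mul θ (x 2) e,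
      map_inv θ (x 1 * x 2), map_inv θ (x 2), map_mul θ (x 1) (x 2), he θ h0, map_mul q ⁅e, _⁆, hcce, hcce, hD]
  have hcommB : ∀ θ θ' : F →* F, ∀ i j, θ (x 0) = x 0 → θ' (x 0) = x 0 →
      θ (rB i) * θ' (rB j) * (θ (rB i))⁻¹ * (θ' (rB j))⁻¹ ∈ C' := by
    intro θ θ' i j h0 h0'
    rw [← hqk, map_mul, map_mul, map_mul, map_inv, map_inv, hqB θ i h0, hqB θ' j h0', (hcD _ _ _ _ _ _).eq,
      mul_inv_cancel_right, mul_inv_cancel]
  have hLB := lacc_sqX hn hst h4 rB (fun θ θ' i j h0 h0' _ _ => hcommB θ θ' i j h0 h0')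
    (by
      intro θ θ' i h0 h0' h1 h11 hcl
      refine hmem _ _ ?_
      rw [hqB θ i h0, hqB θ' i h0', ← h11]
      obtain ⟨n, hn', hn2⟩ : ∃ n ∈ N2, θ (x 2) = n * θ' (x 2) :=
        ⟨θ (x 2) * (θ' (x 2))⁻¹, mem_N2_of_cl (by rw [cl_mul, cl_inv, a2_neg, hcl 0, a2_two]), by
          rw [inv_mul_cancel_right]⟩
      obtain ⟨n', hn'', hn3⟩ : ∃ n ∈ N2, θ (x 3) = n * θ' (x 3) :=
        ⟨θ (x 3) * (θ' (x 3))⁻¹, mem_N2_of_cl (by rw [cl_mul, cl_inv, a2_neg, hcl 1, a2_two]), by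
          rw [inv_mul_cancel_right]⟩
      rw [hn2, hn3, hR n hn' _ (mem_N2_of_cl h1), hDN n' hn''])
    (by
      intro θ θ' θ'' i h0 h0' h0'' h1 h1' h1'' h2 h2'
      refine hmem _ _ ?_
      rw [map_mul q (θ (rB i)), hqB θ i h0, hqB θ' i h0', hqB θ'' i h0'', h1'', h2 0, h2 1, h2' 0, h2' 1,
        hadd _ (mem_N2_of_cl h1) _ (mem_N2_of_cl h1')]
      group)
  obtain ⟨EB, hEB⟩ : ∃ EB : Subgroup F, EB = Subgroup.closure {w | ∃ (θ : F →* F) (i : Fin 1),
      θ (x 0) = x 0 ∧ cl (θ (x 1)) = 0 ∧ w = θ (rB i)} := ⟨_, rfl⟩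
  rw [← hEB] at hLB
  -- substitution in the last slot
  have hsub : ∀ (j0 : ℕ) (θ : F →* F) (g : F), 1 < j0 → θ (x 0) = x 0 → ∃ θ' : F →* F, θ' (x 0) = x 0 ∧
      θ' (x j0) = g * θ (x j0) ∧ ∀ j, j ≠ j0 → θ' (x j) = θ (x j) := by
    intro j0 θ g hj0 h0
    have h1 : ∀ j, (FreeGroup.lift fun j => if j = j0 then g * θ (x j) else θ (x j)) (x j) =
      if j = j0 then g * θ (x j) else θ (x j) := fun j => FreeGroup.lift_apply_of
    refine ⟨FreeGroup.lift fun j => if j = j0 then g * θ (x j) else θ (x j), ?_, ?_, ?_⟩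
    · rw [h1, if_neg (by omega), h0]
    · rw [h1, if_pos rfl]
    · intro j hj
      rw [h1, if_neg hj]
  have hEBn : EB.Normal := by
    rw [hEB]
    refine closure_normal_of ?_
    rintro _ ⟨θ, i, h0, h1, rfl⟩ g
    obtain ⟨θ', h0', h3, hj⟩ := hsub 3 θ g (by omega) h0
    refine ⟨θ', i, h0', by rw [hj 1 (by omega)]; exact h1, ?_⟩
    rw [hrB]
    have e1 : ∀ φ : F →* F, φ (x 3 * (⁅e, (x 1 * x 2) * e * (x 1 * x 2)⁻¹⁆ * ⁅e, x 2 * e * (x 2)⁻¹⁆) * (x 3)⁻¹) =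
        φ (x 3) * φ (⁅e, (x 1 * x 2) * e * (x 1 * x 2)⁻¹⁆ * ⁅e, x 2 * e * (x 2)⁻¹⁆) * (φ (x 3))⁻¹ := fun φ => by
      rw [map_mul, map_mul φ (x 3), map_inv]
    have e2 : θ' (⁅e, (x 1 * x 2) * e * (x 1 * x 2)⁻¹⁆ * ⁅e, x 2 * e * (x 2)⁻¹⁆) =
        θ (⁅e, (x 1 * x 2) * e * (x 1 * x 2)⁻¹⁆ * ⁅e, x 2 * e * (x 2)⁻¹⁆) := by
      simp only [map_mul, map_commutatorElement, map_inv, he θ h0, he θ' h0', hj 1 (by omega), hj 2 (by omega)]
    rw [e1, e1, h3, e2]
    group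
  have hEBst : StX EB := by
    intro φ hφ w hw
    rw [hEB] at hw ⊢
    induction hw using Subgroup.closure_induction with
    | mem y hy =>
      obtain ⟨θ, i, h0, h1, rfl⟩ := hy
      refine Subgroup.subset_closure ⟨φ.comp θ, i, ?_, ?_, rfl⟩
      · show φ (θ (x 0)) = x 0
        rw [h0, hφ]
      · exact cl_endo (θ := φ) h1
    | one =>
      rw [map_one]
      exact Subgroup.one_mem _
    | mul a b _ _ ha hb =>
      rw [map_mul]
      exact Subgroup.mul_mem _ ha hb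
    | inv a _ ha =>
      rw [map_inv]
      exact Subgroup.inv_mem _ ha
  have hC''n : (C' ⊔ EB).Normal := Subgroup.sup_normal C' EB
  have hC''st : StX (C' ⊔ EB) := by
    intro φ hφ w hw
    have h1 : C' ⊔ EB ≤ (C' ⊔ EB).comap φ := by
      refine sup_le ?_ ?_
      · intro w hw
        exact Subgroup.mem_sup_left (hst φ hφ w hw)
      · intro w hw
        exact Subgroup.mem_sup_right (hEBst φ hφ w hw)
    exact h1 hw
  -- second step
  have hLC : LAcc (C' ⊔ EB) C' := lacc_mono le_rfl hLB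
  have hLA := lacc_layerX hC''n hC''st.stP (fun w => Subgroup.mem_sup_left (h4 w)) rA
    (by
      intro θ θ' i j h0 h0'
      refine Subgroup.mem_sup_left ?_
      rw [← hqk, map_mul, map_mul, map_mul, map_inv, map_inv, hqA θ i h0, hqA θ' j h0', (hcf _ _ _ _).eq,
        mul_inv_cancel_right, mul_inv_cancel])
    (by
      intro θ θ' i h0 h0' hcl
      obtain ⟨m, hm, hm1⟩ : ∃ n ∈ N2, θ (x 1) = n * θ' (x 1) :=
        ⟨θ (x 1) * (θ' (x 1))⁻¹, mem_N2_of_cl (by rw [cl_mul, cl_inv, a2_neg, hcl 0, a2_two]), by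
          rw [inv_mul_cancel_right]⟩
      obtain ⟨n, hn', hn2⟩ : ∃ n ∈ N2, θ (x 2) = n * θ' (x 2) :=
        ⟨θ (x 2) * (θ' (x 2))⁻¹, mem_N2_of_cl (by rw [cl_mul, cl_inv, a2_neg, hcl 1, a2_two]), by
          rw [inv_mul_cancel_right]⟩
      -- the difference word
      obtain ⟨φ, hφ⟩ : ∃ φ : F →* F, ∀ j, φ (x j) = if j = 0 then x 0 else if j = 1 then m else
          if j = 2 then θ' (x 1) else θ (x 2) := by
        refine ⟨FreeGroup.lift fun j => if j = 0 then x 0 else if j = 1 then m else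
          if j = 2 then θ' (x 1) else θ (x 2), fun j => ?_⟩
        exact FreeGroup.lift_apply_of
      have hφ0 : φ (x 0) = x 0 := hφ 0
      have hφ1 : φ (x 1) = m := hφ 1
      have hφ2 : φ (x 2) = θ' (x 1) := hφ 2
      have hφ3 : φ (x 3) = θ (x 2) := hφ 3
      have h1 : φ (rB 0) ∈ EB := by
        rw [hEB]
        refine Subgroup.subset_closure ⟨φ, 0, hφ0, ?_, rfl⟩
        rw [hφ1]
        exact cl_N2 hm
      have h2 : q (θ (rA i)) = q (φ (rB 0)) * q (θ' (rA i)) := by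
        rw [hqA θ i h0, hqA θ' i h0', hqB φ 0 hφ0, hφ1, hφ2, hφ3, hD, hm1]
        have e1 : q (θ' (x 2)) * f (θ' (x 1)) * (q (θ' (x 2)))⁻¹ = q (θ (x 2)) * f (θ' (x 1)) * (q (θ (x 2)))⁻¹ := by
          rw [hn2, hfN n hn']
        rw [e1]
        have e2 : q (θ (x 2)) * (f (m * θ' (x 1)) * f (θ' (x 1))) * (q (θ (x 2)))⁻¹ *
            (q (θ (x 2)) * f (θ' (x 1)) * (q (θ (x 2)))⁻¹) =
            q (θ (x 2)) * (f (m * θ' (x 1)) * (f (θ' (x 1)) * f (θ' (x 1)))) * (q (θ (x 2)))⁻¹ := by group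
        rw [e2, hff, mul_one]
      have h3 : (θ (rA i))⁻¹ * (φ (rB 0) * θ' (rA i)) ∈ C' := by
        refine hmem _ _ ?_
        rw [h2, map_mul]
      have h5 : (θ (rA i))⁻¹ * θ' (rA i) =
          ((θ (rA i))⁻¹ * (φ (rB 0) * θ' (rA i))) * ((θ' (rA i))⁻¹ * (φ (rB 0))⁻¹ * (θ' (rA i))⁻¹⁻¹) := by group
      rw [h5]
      refine Subgroup.mul_mem _ (Subgroup.mem_sup_left h3) (Subgroup.mem_sup_right ?_)
      exact hEBn.conj_mem _ (EB.inv_mem h1) _)
  obtain ⟨EA, hEA⟩ : ∃ EA : Subgroup F, EA = Subgroup.closure {w | ∃ (θ : F →* F) (i : Fin 1),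
      θ (x 0) = x 0 ∧ w = θ (rA i)} := ⟨_, rfl⟩
  rw [← hEA] at hLA
  have hEAn : EA.Normal := by
    rw [hEA]
    refine closure_normal_of ?_
    rintro _ ⟨θ, i, h0, rfl⟩ g
    obtain ⟨θ', h0', h3, hj⟩ := hsub 2 θ g (by omega) h0
    refine ⟨θ', i, h0', ?_⟩
    rw [hrA]
    have e1 : ∀ φ : F →* F, φ (x 2 * ⁅e, x 1 * e * (x 1)⁻¹⁆ * (x 2)⁻¹) =
        φ (x 2) * φ ⁅e, x 1 * e * (x 1)⁻¹⁆ * (φ (x 2))⁻¹ := fun φ => by
      rw [map_mul, map_mul φ (x 2), map_inv]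
    have e2 : θ' ⁅e, x 1 * e * (x 1)⁻¹⁆ = θ ⁅e, x 1 * e * (x 1)⁻¹⁆ := by
      simp only [map_mul, map_commutatorElement, map_inv, he θ h0, he θ' h0', hj 1 (by omega)]
    rw [e1, e1, h3, e2]
    group
  refine lacc_trans hC''n hC''st.stP le_sup_left (lacc_mono ?_ hLA) hLC
  -- the commutator subgroup
  have hBn : ((C' ⊔ EB) ⊔ EA).Normal := Subgroup.sup_normal (C' ⊔ EB) EA
  rw [Subgroup.commutator_le]
  obtain ⟨p, hp⟩ : ∃ p : F →* F ⧸ ((C' ⊔ EB) ⊔ EA), p = QuotientGroup.mk' _ := ⟨_, rfl⟩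
  have hpk : ∀ w, p w = 1 ↔ w ∈ (C' ⊔ EB) ⊔ EA := fun w => by
    rw [hp]
    exact QuotientGroup.eq_one_iff w
  obtain ⟨S, hS⟩ : ∃ S : Set (F ⧸ ((C' ⊔ EB) ⊔ EA)), S = {y | ∃ u, y = p (u * e * u⁻¹)} := ⟨_, rfl⟩
  have hSc : ∀ a ∈ S, ∀ b ∈ S, a * b = b * a := by
    rw [hS]
    rintro _ ⟨u, rfl⟩ _ ⟨v, rfl⟩
    have h1 : ⁅u * e * u⁻¹, v * e * v⁻¹⁆ ∈ EA := by
      have h2 : ⁅u * e * u⁻¹, v * e * v⁻¹⁆ = u * ⁅e, (u⁻¹ * v) * e * (u⁻¹ * v)⁻¹⁆ * u⁻¹ := by
        rw [commutatorElement_def, commutatorElement_def]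
        group
      obtain ⟨φ, hφ⟩ : ∃ φ : F →* F, ∀ j, φ (x j) = if j = 0 then x 0 else if j = 1 then u⁻¹ * v else u := by
        refine ⟨FreeGroup.lift fun j => if j = 0 then x 0 else if j = 1 then u⁻¹ * v else u, fun j => ?_⟩
        exact FreeGroup.lift_apply_of
      have hφ0 : φ (x 0) = x 0 := hφ 0
      have hφ1 : φ (x 1) = u⁻¹ * v := hφ 1
      have hφ2 : φ (x 2) = u := hφ 2
      rw [h2, hEA]
      refine Subgroup.subset_closure ⟨φ, 0, hφ0, ?_⟩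
      rw [hrA, map_mul, map_mul, map_inv, map_commutatorElement, map_mul φ (x 1 * e), map_mul φ (x 1) e, map_inv φ (x 1),
        he φ hφ0, hφ1, hφ2]
    have h3 : p ⁅u * e * u⁻¹, v * e * v⁻¹⁆ = 1 := (hpk _).2 (Subgroup.mem_sup_right h1)
    rw [map_commutatorElement, commutatorElement_eq_one_iff_mul_comm] at h3
    exact h3
  have hNS : ∀ a ∈ Subgroup.normalClosure {e}, p a ∈ Subgroup.closure S := by
    have h1 : Subgroup.normalClosure {e} ≤ (Subgroup.closure S).comap p := by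
      unfold Subgroup.normalClosure
      rw [Subgroup.closure_le]
      intro y hy
      obtain ⟨a, ha, hay⟩ := Group.mem_conjugatesOfSet_iff.1 hy
      rw [Set.mem_singleton_iff] at ha
      rw [ha] at hay
      obtain ⟨c, hc⟩ := isConj_iff.1 hay
      show p y ∈ Subgroup.closure S
      rw [← hc, hS]
      exact Subgroup.subset_closure ⟨c, rfl⟩
    exact h1
  intro a ha b hb
  rw [← hpk, map_commutatorElement, commutatorElement_eq_one_iff_mul_comm]
  exact comm_closure hSc _ (hNS a ha) _ (hNS b hb)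

end E4.N
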