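import Pool.Agent.Lib.MP_8a95e3_al.NY10

/-!
# NY11 : the layer of an involution, from the facts about involutions of groups of exponent four
-/

namespace E4.N

open E4.J

/-- The facts about the involutions of the groups of exponent four. -/
def LemE : Prop := ∀ (Q : Type) [Group Q], (∀ g : Q, g ^ 4 = 1) → ∀ e : Q, e ^ 2 = 1 →
  (∀ u v w : Q, Commute (cc e u v) (w * e * w⁻¹)) ∧
  (∀ u v g : Q, Commute (g ^ 2) (cc e u v)) ∧
  (∀ h k u : Q, cc e 1 u * cc e 1 (h ^ 2 * u) * cc e 1 (k ^ 2 * u) * cc e 1 (k ^ 2 * h ^ 2 * u) = 1)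

theorem exp4_mod {C' : Subgroup F} (hn : C'.Normal) (h4 : ∀ w : F, w ^ 4 ∈ C') (g : F ⧸ C') : g ^ 4 = 1 := by
  obtain ⟨w, rfl⟩ := QuotientGroup.mk_surjective g
  rw [← QuotientGroup.mk_pow, QuotientGroup.eq_one_iff]
  exact h4 w

/-- **The layer of an involution.** -/
theorem e_layer' (hL : LemE) {C' : Subgroup F} (hn : C'.Normal) (hst : StX C') (h4 : ∀ w : F, w ^ 4 ∈ C') (e : F)
    (he : ∀ θ : F →* F, θ (x 0) = x 0 → θ e = e) (he2 : e ^ 2 ∈ C') :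
    LAcc ⁅Subgroup.normalClosure {e}, Subgroup.normalClosure {e}⁆ C' := by
  obtain ⟨h0, h1, h2⟩ := hL (F ⧸ C') (exp4_mod hn h4) (QuotientGroup.mk e) (by
    rw [← QuotientGroup.mk_pow, QuotientGroup.eq_one_iff]
    exact he2)
  exact e_layer hn hst h4 e he he2 h0 h1 h2

/-- the layer (b) : `C'` contains the squares of the conjugates of `x_0` -/
theorem layer_b (hL : LemE) {C' : Subgroup F} (hn : C'.Normal) (hst : StX C') (h4 : ∀ w : F, w ^ 4 ∈ C')
    (h2 : x 0 ^ 2 ∈ C') : LAcc ⁅Subgroup.normalClosure {x 0}, Subgroup.normalClosure {x 0}⁆ C' :=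
  e_layer' hL hn hst h4 (x 0) (fun _ h => h) h2

/-- the layer (e) -/
theorem layer_e (hL : LemE) {C' : Subgroup F} (hn : C'.Normal) (hst : StX C') (h4 : ∀ w : F, w ^ 4 ∈ C') :
    LAcc ⁅Subgroup.normalClosure {x 0 ^ 2}, Subgroup.normalClosure {x 0 ^ 2}⁆ C' := by
  refine e_layer' hL hn hst h4 (x 0 ^ 2) (fun θ h => by rw [map_pow, h]) ?_
  have e : (x 0 ^ 2) ^ 2 = x 0 ^ 4 := by rw [← pow_mul]
  rw [e]
  exact h4 _

end E4.N
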