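import Pool.Agent.Lib.MP_8a95e3_al.NY1
import Pool.Agent.Lib.MP_8a95e3_al.NF4

/-!
# NY2 : chains of subgroups in a layer
-/

namespace E4.N

open E4.J

/-- the shift of the letters -/
noncomputable def sh : F →* F := FreeGroup.lift fun j => x (j + 1)

theorem sh_x (j : ℕ) : sh (x j) = x (j + 1) := by
  unfold sh
  exact FreeGroup.lift_apply_of

/-- The endomorphism of the free group which fixes `x_0` and acts as `φ` on the group of the other letters. -/
noncomputable def pls (φ : F →* F) : F →* F := FreeGroup.lift fun j => if j = 0 then x 0 else sh (φ (x (j - 1)))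

theorem pls_zero (φ : F →* F) : pls φ (x 0) = x 0 := by
  unfold pls
  exact FreeGroup.lift_apply_of

theorem pls_succ (φ : F →* F) (j : ℕ) : pls φ (x (j + 1)) = sh (φ (x j)) := by
  unfold pls
  exact FreeGroup.lift_apply_of

theorem hom_ext' {φ ψ : F →* F} (h : ∀ j, φ (x j) = ψ (x j)) (w : F) : φ w = ψ w := by
  have e : φ = ψ := FreeGroup.ext_hom _ _ h
  rw [e]

theorem pls_sh (φ : F →* F) (w : F) : pls φ (sh w) = sh (φ w) := by
  have h := hom_ext' (φ := (pls φ).comp sh) (ψ := sh.comp φ) (fun j => by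
    show pls φ (sh (x j)) = sh (φ (x j))
    rw [sh_x, pls_succ]) w
  exact h

theorem pls_pls (φ ψ : F →* F) (w : F) : pls φ (pls ψ w) = pls (φ.comp ψ) w := by
  refine hom_ext' (φ := (pls φ).comp (pls ψ)) (ψ := pls (φ.comp ψ)) (fun j => ?_) w
  show pls φ (pls ψ (x j)) = pls (φ.comp ψ) (x j)
  rcases j with _ | j
  · rw [pls_zero, pls_zero, pls_zero]
  · rw [pls_succ, pls_succ, pls_sh]
    rfl

variable {s t : ℕ}

/-- the vector number `i` -/
noncomputable def uc (a : Fin t → A2) (i : ℕ) : A2 := if h : i < t then a ⟨i, h⟩ else 0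

theorem uc_zU (p : ℕ) (b : BU s t) (i : ℕ) : uc (zU p b).2 i = zV p (uc b.2 i) := by
  unfold uc
  by_cases h : i < t
  · rw [dif_pos h, dif_pos h]
    rfl
  · rw [dif_neg h, dif_neg h, zV_zero]

theorem uc_cU (k p : ℕ) (b : BU s t) (i : ℕ) : uc (cU k p b).2 i = cV k p (uc b.2 i) := by
  unfold uc
  by_cases h : i < t
  · rw [dif_pos h, dif_pos h]
    rfl
  · rw [dif_neg h, dif_neg h, cV_zero]

/-- the substitution -/
noncomputable def asu (a : Fin t → A2) : F →* F := FreeGroup.lift fun j => sec (uc a j)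

theorem cl_asu (a : Fin t → A2) (j : ℕ) : cl (asu a (x j)) = uc a j := by
  have h : asu a (x j) = sec (uc a j) := by
    unfold asu
    exact FreeGroup.lift_apply_of
  rw [h, cl_sec]

theorem words_vars {s : ℕ} (r : Fin s → F) :
    ∃ T : ℕ, ∀ i, ∀ φ ψ : F →* F, (∀ j < T, φ (x j) = ψ (x j)) → φ (r i) = ψ (r i) := by
  choose T hT using fun i => word_vars (r i)
  refine ⟨Finset.univ.sup T, fun i φ ψ h => hT i φ ψ fun j hj => h j (lt_of_lt_of_le hj ?_)⟩
  exact Finset.le_sup (Finset.mem_univ i)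

/-- **Chains in a layer.** -/
theorem layer_acc (C' : Subgroup F) (hn : C'.Normal) (hst : ∀ φ, ∀ w ∈ C', pls φ w ∈ C') (h4 : ∀ w : F, w ^ 4 ∈ C')
    {s : ℕ} (r : Fin s → F)
    (hcomm : ∀ φ ψ i j, pls φ (r i) * pls ψ (r j) * (pls φ (r i))⁻¹ * (pls ψ (r j))⁻¹ ∈ C')
    (hins : ∀ φ ψ : F →* F, ∀ i, (∀ j, cl (φ (x j)) = cl (ψ (x j))) → (pls φ (r i))⁻¹ * pls ψ (r i) ∈ C')
    (U : ℕ → Subgroup F) (hU : Monotone U) (hCU : ∀ n, C' ≤ U n)
    (hUg : ∀ n, U n ≤ C' ⊔ Subgroup.closure {w | ∃ (φ : F →* F) (i : Fin s), w = pls φ (r i)})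
    (hUs : ∀ n φ, ∀ w ∈ U n, pls φ w ∈ U n) : ∃ n, ∀ m ≥ n, U m = U n := by
  classical
  obtain ⟨T, hT⟩ := words_vars r
  obtain ⟨v, hv⟩ : ∃ v : BU s T → F ⧸ C', ∀ b, v b = QuotientGroup.mk (pls (asu b.2) (r b.1)) := ⟨_, fun b => rfl⟩
  -- the value of a generator
  have hval : ∀ (φ : F →* F) (i : Fin s), (QuotientGroup.mk (pls φ (r i)) : F ⧸ C') =
      v (i, fun j => cl (φ (x j))) := by
    intro φ i
    obtain ⟨ψ, hψ⟩ : ∃ ψ : F →* F, ∀ j, ψ (x j) = if j < T then φ (x j) else 1 := by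
      refine ⟨FreeGroup.lift fun j => if j < T then φ (x j) else 1, fun j => ?_⟩
      exact FreeGroup.lift_apply_of
    have e : pls φ (r i) = pls ψ (r i) := by
      refine hT i _ _ fun j hj => ?_
      rcases j with _ | j
      · rw [pls_zero, pls_zero]
      · rw [pls_succ, pls_succ, hψ, if_pos (by omega)]
    rw [e, hv, QuotientGroup.eq]
    refine hins _ _ _ fun j => ?_
    rw [cl_asu, hψ]
    unfold uc
    by_cases hj : j < T
    · rw [if_pos hj, dif_pos hj]
    · rw [if_neg hj, dif_neg hj, cl_one]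
  have hcv : ∀ b b', v b * v b' = v b' * v b := by
    intro b b'
    rw [hv, hv, ← QuotientGroup.mk_mul, ← QuotientGroup.mk_mul, QuotientGroup.eq]
    have h1 := hcomm (asu b'.2) (asu b.2) b'.1 b.1
    have h2 := hn.conj_mem _ h1 ((pls (asu b'.2) (r b'.1) * pls (asu b.2) (r b.1))⁻¹)
    have e : (pls (asu b.2) (r b.1) * pls (asu b'.2) (r b'.1))⁻¹ * (pls (asu b'.2) (r b'.1) * pls (asu b.2) (r b.1)) =
        (pls (asu b'.2) (r b'.1) * pls (asu b.2) (r b.1))⁻¹ * (pls (asu b'.2) (r b'.1) * pls (asu b.2) (r b.1) *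
          (pls (asu b'.2) (r b'.1))⁻¹ * (pls (asu b.2) (r b.1))⁻¹) *
          (pls (asu b'.2) (r b'.1) * pls (asu b.2) (r b.1))⁻¹⁻¹ := by group
    rw [e]
    exact h2
  obtain ⟨A, hA⟩ : ∃ A : Subgroup (F ⧸ C'), A = Subgroup.closure (Set.range v) := ⟨_, rfl⟩
  have hAc : ∀ a ∈ A, ∀ b ∈ A, a * b = b * a := by
    intro a ha b hb
    rw [hA] at ha hb
    refine Subgroup.closure_induction₂ (p := fun a b _ _ => a * b = b * a) ?_ ?_ ?_ ?_ ?_ ?_ ?_ ha hb
    · rintro _ _ ⟨b, rfl⟩ ⟨b', rfl⟩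
      exact hcv b b'
    · intro a _
      rw [one_mul, mul_one]
    · intro a _
      rw [one_mul, mul_one]
    · intro a b c _ _ _ h1 h2
      rw [mul_assoc, h2, ← mul_assoc, h1, mul_assoc]
    · intro a b c _ _ _ h1 h2
      rw [← mul_assoc, h1, mul_assoc, h2, mul_assoc]
    · intro a b _ _ h1
      exact (Commute.inv_left (show Commute a b from h1)).eq
    · intro a b _ _ h1
      exact (Commute.inv_right (show Commute a b from h1)).eq
  let _ : CommGroup A := { (inferInstance : Group A) with mul_comm := fun a b => Subtype.ext (hAc a a.2 b b.2) }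
  -- the endomorphisms
  have hq : ∀ φ : F →* F, ∃ f : F ⧸ C' →* F ⧸ C', ∀ w : F, f (QuotientGroup.mk w) = QuotientGroup.mk (pls φ w) :=
    fun φ => ⟨QuotientGroup.map C' C' (pls φ) (fun w hw => hst φ w hw), fun w => rfl⟩
  choose q hq using hq
  have hqv : ∀ φ b, q φ (v b) ∈ A := by
    intro φ b
    rw [hv, hq, pls_pls, hval, hA]
    exact Subgroup.subset_closure ⟨_, rfl⟩
  have hqA : ∀ φ, ∀ a ∈ A, q φ a ∈ A := by
    intro φ a ha
    rw [hA] at ha
    induction ha using Subgroup.closure_induction with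
    | mem y hy =>
      obtain ⟨b, rfl⟩ := hy
      exact hqv φ b
    | one =>
      rw [map_one]
      exact A.one_mem
    | mul a b _ _ ha hb =>
      rw [map_mul]
      exact A.mul_mem ha hb
    | inv a _ ha =>
      rw [map_inv]
      exact A.inv_mem ha
  obtain ⟨qM, hqM⟩ : ∃ qM : (F →* F) → (Additive A →+ Additive A), ∀ φ (a : A),
      ((Additive.toMul (qM φ (Additive.ofMul a)) : A) : F ⧸ C') = q φ a := by
    refine ⟨fun φ => MonoidHom.toAdditive (((q φ).comp A.subtype).codRestrict A fun a => hqA φ a a.2), fun φ a => rfl⟩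
  have hvA : ∀ b, v b ∈ A := fun b => by rw [hA]; exact Subgroup.subset_closure ⟨b, rfl⟩
  obtain ⟨w, hw⟩ : ∃ w : BU s T → Additive A, ∀ b, ((Additive.toMul (w b) : A) : F ⧸ C') = v b :=
    ⟨fun b => Additive.ofMul ⟨v b, hvA b⟩, fun b => rfl⟩
  have hM : ∀ a b : Additive A, ((Additive.toMul a : A) : F ⧸ C') = (Additive.toMul b : A) → a = b := by
    intro a b h
    exact Additive.toMul.injective (Subtype.ext h)
  obtain ⟨UM, hUM⟩ : ∃ UM : ℕ → AddSubgroup (Additive A), ∀ n a, a ∈ UM n ↔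
      ∃ u ∈ U n, ((Additive.toMul a : A) : F ⧸ C') = QuotientGroup.mk u := by
    refine ⟨fun n => { carrier := {a | ∃ u ∈ U n, ((Additive.toMul a : A) : F ⧸ C') = QuotientGroup.mk u}
                       zero_mem' := ⟨1, (U n).one_mem, rfl⟩
                       add_mem' := ?_
                       neg_mem' := ?_ }, fun n a => Iff.rfl⟩
    · rintro a b ⟨u, hu, h1⟩ ⟨u', hu', h2⟩
      refine ⟨u * u', (U n).mul_mem hu hu', ?_⟩
      show ((Additive.toMul a : A) : F ⧸ C') * (Additive.toMul b : A) = _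
      rw [h1, h2, QuotientGroup.mk_mul]
    · rintro a ⟨u, hu, h1⟩
      refine ⟨u⁻¹, (U n).inv_mem hu, ?_⟩
      show ((Additive.toMul a : A) : F ⧸ C')⁻¹ = _
      rw [h1, QuotientGroup.mk_inv]
  have hwtop : ∀ a : Additive A, a ∈ AddSubgroup.closure (Set.range w) := by
    intro a
    have key : ∀ y ∈ A, ∃ a : Additive A, ((Additive.toMul a : A) : F ⧸ C') = y ∧ a ∈ AddSubgroup.closure (Set.range w) := by
      intro y hy
      rw [hA] at hy
      induction hy using Subgroup.closure_induction with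
      | mem y hy =>
        obtain ⟨b, rfl⟩ := hy
        exact ⟨w b, hw b, AddSubgroup.subset_closure ⟨b, rfl⟩⟩
      | one => exact ⟨0, rfl, AddSubgroup.zero_mem _⟩
      | mul y z _ _ hy hz =>
        obtain ⟨a, ha, ha'⟩ := hy
        obtain ⟨b, hb, hb'⟩ := hz
        refine ⟨a + b, ?_, AddSubgroup.add_mem _ ha' hb'⟩
        show ((Additive.toMul a : A) : F ⧸ C') * (Additive.toMul b : A) = _
        rw [ha, hb]
      | inv y _ hy =>
        obtain ⟨a, ha, ha'⟩ := hy
        refine ⟨-a, ?_, AddSubgroup.neg_mem _ ha'⟩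
        show ((Additive.toMul a : A) : F ⧸ C')⁻¹ = _
        rw [ha]
    obtain ⟨b, hb, hb'⟩ := key _ (Additive.toMul a : A).2
    have e : b = a := hM _ _ hb
    rw [← e]
    exact hb'
  have hasu_z : ∀ (p : ℕ) (b : BU s T) (j : ℕ), cl (((zE p).comp (asu b.2)) (x j)) = cl (asu (zU p b).2 (x j)) := by
    intro p b j
    show cl (zE p (asu b.2 (x j))) = _
    rw [cl_zE, cl_asu, cl_asu, uc_zU]
  have hasu_c : ∀ (k p : ℕ) (b : BU s T) (j : ℕ), cl (((cE k p).comp (asu b.2)) (x j)) = cl (asu (cU k p b).2 (x j)) := by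
    intro k p b j
    show cl (cE k p (asu b.2 (x j))) = _
    rw [cl_cE, cl_asu, cl_asu, uc_cU]
  obtain ⟨n, hn'⟩ := acc_unm (s := s) (t := T) w (by
      intro b
      apply hM
      show ((Additive.toMul (w b) : A) : F ⧸ C') ^ 4 = 1
      rw [hw, hv, ← QuotientGroup.mk_pow, QuotientGroup.eq_one_iff]
      exact h4 _) (fun p => qM (zE p)) (fun k p => qM (cE k p))
    (by
      intro p b
      apply hM
      have h1 := hqM (zE p) (Additive.toMul (w b))
      refine h1.trans ?_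
      rw [hw, hw, hv, hq, pls_pls, hv, QuotientGroup.eq]
      exact hins _ _ _ (hasu_z p b))
    (by
      intro k p b _
      apply hM
      have h1 := hqM (cE k p) (Additive.toMul (w b))
      refine h1.trans ?_
      rw [hw, hw, hv, hq, pls_pls, hv, QuotientGroup.eq]
      exact hins _ _ _ (hasu_c k p b)) UM
    (by
      intro a b hab m hm
      rw [hUM] at hm ⊢
      obtain ⟨u, hu, h1⟩ := hm
      exact ⟨u, hU hab hu, h1⟩)
    (fun n m _ => hwtop m)
    (by
      intro n p m hm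
      rw [hUM] at hm ⊢
      obtain ⟨u, hu, h1⟩ := hm
      refine ⟨pls (zE p) u, hUs n _ u hu, ?_⟩
      have h2 := hqM (zE p) (Additive.toMul m)
      refine h2.trans ?_
      rw [h1, hq])
    (by
      intro n k p _ m hm
      rw [hUM] at hm ⊢
      obtain ⟨u, hu, h1⟩ := hm
      refine ⟨pls (cE k p) u, hUs n _ u hu, ?_⟩
      have h2 := hqM (cE k p) (Additive.toMul m)
      refine h2.trans ?_
      rw [h1, hq])
  refine ⟨n, fun m hm => le_antisymm (fun u hu => ?_) (hU hm)⟩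
  -- the class of `u` is in `A`
  have h1 : (QuotientGroup.mk u : F ⧸ C') ∈ A := by
    have h2 := hUg m hu
    have h3 : C' ⊔ Subgroup.closure {w | ∃ (φ : F →* F) (i : Fin s), w = pls φ (r i)} ≤ A.comap (QuotientGroup.mk' C') := by
      refine sup_le ?_ ?_
      · intro c hc
        show (QuotientGroup.mk c : F ⧸ C') ∈ A
        rw [(QuotientGroup.eq_one_iff c).2 hc]
        exact A.one_mem
      · rw [Subgroup.closure_le]
        rintro _ ⟨φ, i, rfl⟩
        show (QuotientGroup.mk (pls φ (r i)) : F ⧸ C') ∈ A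
        rw [hval]
        exact hvA _
    exact h3 h2
  have h2 : Additive.ofMul (⟨QuotientGroup.mk u, h1⟩ : A) ∈ UM m := (hUM m _).2 ⟨u, hu, rfl⟩
  rw [hn' m hm, hUM] at h2
  obtain ⟨u', hu', h3⟩ := h2
  have h4' : (QuotientGroup.mk u : F ⧸ C') = QuotientGroup.mk u' := h3
  rw [QuotientGroup.eq] at h4'
  have h5 := (U n).mul_mem hu' ((U n).inv_mem (hCU n h4'))
  have e : u' * (u⁻¹ * u')⁻¹ = u := by group
  rwa [e] at h5

end E4.N
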