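import Pool.Agent.Lib.MP_8a95e3_al.NY2

/-!
# NY3 : chains of verbal subgroups from the layers of the normal closure of a letter
-/

namespace E4.N

open E4.J

/-- kills the letter `x_0` -/
noncomputable def kx : F →* F := FreeGroup.lift fun j => if j = 0 then 1 else x j

theorem kx_x (j : ℕ) : kx (x j) = if j = 0 then 1 else x j := by
  unfold kx
  exact FreeGroup.lift_apply_of

theorem kx_sh (w : F) : kx (sh w) = sh w := by
  refine hom_ext' (φ := kx.comp sh) (ψ := sh) (fun j => ?_) w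
  show kx (sh (x j)) = sh (x j)
  rw [sh_x, kx_x, if_neg (Nat.succ_ne_zero j)]

theorem kx_pls (φ : F →* F) (w : F) : kx (pls φ w) = pls φ (kx w) := by
  refine hom_ext' (φ := kx.comp (pls φ)) (ψ := (pls φ).comp kx) (fun j => ?_) w
  show kx (pls φ (x j)) = pls φ (kx (x j))
  rcases j with _ | j
  · rw [pls_zero, kx_x, if_pos rfl, map_one]
  · rw [pls_succ, kx_sh, kx_x, if_neg (Nat.succ_ne_zero j), pls_succ]

theorem kx_kx (w : F) : kx (kx w) = kx w := by
  refine hom_ext' (φ := kx.comp kx) (ψ := kx) (fun j => ?_) w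
  show kx (kx (x j)) = kx (x j)
  rw [kx_x]
  split_ifs with h
  · rw [map_one]
  · rw [kx_x, if_neg h]

/-- keeps the first letters -/
noncomputable def kp (n : ℕ) : F →* F := FreeGroup.lift fun j => if j < n then x j else 1

theorem kp_x (n j : ℕ) : kp n (x j) = if j < n then x j else 1 := by
  unfold kp
  exact FreeGroup.lift_apply_of

/-- exchanges two letters -/
noncomputable def sv (n : ℕ) : F →* F := FreeGroup.lift fun j => if j = 0 then x n else if j = n then x 0 else x j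

theorem sv_x (n j : ℕ) : sv n (x j) = if j = 0 then x n else if j = n then x 0 else x j := by
  unfold sv
  exact FreeGroup.lift_apply_of

theorem sv_sv (n : ℕ) (w : F) : sv n (sv n w) = w := by
  refine hom_ext' (φ := (sv n).comp (sv n)) (ψ := MonoidHom.id F) (fun j => ?_) w
  show sv n (sv n (x j)) = x j
  by_cases h0 : j = 0
  · subst h0
    rw [sv_x, if_pos rfl, sv_x]
    by_cases hn : n = 0
    · rw [if_pos hn, hn]
    · rw [if_neg hn, if_pos rfl]
  · by_cases hn : j = n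
    · rw [sv_x, if_neg h0, if_pos hn, sv_x, if_pos rfl, hn]
    · rw [sv_x, if_neg h0, if_neg hn, sv_x, if_neg h0, if_neg hn]

/-- A verbal subgroup is determined by its elements which vanish if `x_0` is killed. -/
theorem verb_le {U U' : Subgroup F} (hU : ∀ φ : F →* F, ∀ w ∈ U, φ w ∈ U) (hU' : ∀ φ : F →* F, ∀ w ∈ U', φ w ∈ U')
    (h : ∀ w ∈ U', kx w = 1 → w ∈ U) : U' ≤ U := by
  have key : ∀ n, ∀ w ∈ U', kp n w = w → w ∈ U := by
    intro n
    induction n with
    | zero =>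
      intro w _ hw
      have h1 : kp 0 w = 1 := by
        refine hom_ext' (φ := kp 0) (ψ := 1) (fun j => ?_) w
        rw [kp_x, if_neg (Nat.not_lt_zero j)]
        rfl
      rw [← hw, h1]
      exact U.one_mem
    | succ n ih =>
      intro w hw hwn
      -- kill the letter `x_n`
      obtain ⟨v, hv⟩ : ∃ v, v = sv n (kx (sv n w)) := ⟨_, rfl⟩
      have hv' : v ∈ U' := by
        rw [hv]
        exact hU' _ _ (hU' _ _ (hU' _ _ hw))
      have hkv : kp n v = v := by
        rw [hv, ← hwn]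
        refine hom_ext' (φ := (kp n).comp ((sv n).comp (kx.comp ((sv n).comp (kp (n + 1))))))
          (ψ := (sv n).comp (kx.comp ((sv n).comp (kp (n + 1))))) (fun j => ?_) w
        show kp n (sv n (kx (sv n (kp (n + 1) (x j))))) = sv n (kx (sv n (kp (n + 1) (x j))))
        rw [kp_x]
        by_cases hj : j < n + 1
        · rw [if_pos hj]
          by_cases hjn : j = n
          · have e : sv n (x j) = x 0 := by
              rw [sv_x]
              by_cases h0 : j = 0
              · rw [if_pos h0, ← hjn, h0]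
              · rw [if_neg h0, if_pos hjn]
            rw [e, kx_x, if_pos rfl, map_one, map_one]
          · by_cases h0 : j = 0
            · have hn0 : n ≠ 0 := by omega
              rw [sv_x, if_pos h0, kx_x, if_neg hn0, sv_x, if_neg hn0, if_pos rfl, kp_x, if_pos (by omega)]
            · rw [sv_x, if_neg h0, if_neg hjn, kx_x, if_neg h0, sv_x, if_neg h0, if_neg hjn, kp_x, if_pos (by omega)]
        · rw [if_neg hj]
          simp only [map_one]
      have hvU := ih v hv' hkv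
      have h1 : sv n (w * v⁻¹) ∈ U := by
        refine h _ (hU' _ _ (U'.mul_mem hw (U'.inv_mem hv'))) ?_
        rw [map_mul, map_inv, map_mul, map_inv, hv, sv_sv, kx_kx, mul_inv_cancel]
      have h2 := hU (sv n) _ h1
      rw [sv_sv] at h2
      have h3 := U.mul_mem h2 hvU
      rwa [inv_mul_cancel_right] at h3
  intro w hw
  obtain ⟨T, hT⟩ := word_vars w
  refine key T w hw ?_
  have h1 := hT (kp T) (MonoidHom.id F) (fun j hj => by rw [kp_x, if_pos hj]; rfl)
  exact h1

/-- The data of a layer. -/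
structure Layer (C' : Subgroup F) {s : ℕ} (r : Fin s → F) : Prop where
  comm : ∀ φ ψ i j, pls φ (r i) * pls ψ (r j) * (pls φ (r i))⁻¹ * (pls ψ (r j))⁻¹ ∈ C'
  ins : ∀ φ ψ : F →* F, ∀ i, (∀ j, cl (φ (x j)) = cl (ψ (x j))) → (pls φ (r i))⁻¹ * pls ψ (r i) ∈ C'

theorem layer_empty (C' : Subgroup F) : Layer C' (fun i : Fin 0 => (Fin.elim0 i : F)) :=
  ⟨fun _ _ i => Fin.elim0 i, fun _ _ i => Fin.elim0 i⟩

/-- **Chains of verbal subgroups from the layers.** -/
theorem acc_frame (Y : Subgroup F) (K : ℕ) (C : ℕ → Subgroup F) (hn : ∀ k, (C k).Normal)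
    (hst : ∀ k φ, ∀ w ∈ C k, pls φ w ∈ C k) (h4 : ∀ k, ∀ w : F, w ^ 4 ∈ C k)
    (h0 : ∀ w ∈ Y, kx w = 1 → w ∈ C 0) (hK : ∀ w ∈ Y, kx w = 1 → w ∈ C K → ∀ V : Subgroup F, Verb4 V → w ∈ V)
    (lay : ∀ k < K, ∃ (s : ℕ) (r : Fin s → F), Layer (C (k + 1)) r ∧
      ∀ w ∈ Y, kx w = 1 → w ∈ C k → w ∈ C (k + 1) ⊔ Subgroup.closure {w | ∃ (φ : F →* F) (i : Fin s), w = pls φ (r i)})
    (U : ℕ → Subgroup F) (hU : Monotone U) (hUv : ∀ n, Verb4 (U n)) (hUY : ∀ n, U n ≤ Y) :
    ∃ n, ∀ m ≥ n, U m = U n := by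
  obtain ⟨N, hN⟩ : ∃ N : Subgroup F, ∀ w, w ∈ N ↔ kx w = 1 := ⟨kx.ker, fun w => MonoidHom.mem_ker⟩
  -- the layers
  have hlay : ∀ k < K, ∃ n, ∀ m ≥ n, ((U m ⊓ N ⊓ C k) ⊔ C (k + 1)) = ((U n ⊓ N ⊓ C k) ⊔ C (k + 1)) := by
    intro k hk
    obtain ⟨s, r, hL, hg⟩ := lay k hk
    refine layer_acc (C (k + 1)) (hn _) (hst _) (h4 _) r hL.comm hL.ins
      (fun n => (U n ⊓ N ⊓ C k) ⊔ C (k + 1)) ?_ (fun n => le_sup_right) ?_ ?_
    · intro a b hab
      exact sup_le_sup_right (inf_le_inf_right _ (inf_le_inf_right _ (hU hab))) _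
    · intro n
      refine sup_le ?_ le_sup_left
      rintro w ⟨⟨hw1, hw2⟩, hw3⟩
      exact hg w (hUY n hw1) ((hN w).1 hw2) hw3
    · intro n φ w hw
      have h1 : (U n ⊓ N ⊓ C k) ⊔ C (k + 1) ≤ ((U n ⊓ N ⊓ C k) ⊔ C (k + 1)).comap (pls φ) := by
        refine sup_le ?_ ?_
        · rintro w ⟨⟨hw1, hw2⟩, hw3⟩
          refine Subgroup.mem_sup_left ⟨⟨(hUv n).endo _ w hw1, ?_⟩, hst k φ w hw3⟩
          show pls φ w ∈ N
          rw [hN, kx_pls, (hN w).1 hw2, map_one]
        · intro w hw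
          exact Subgroup.mem_sup_right (hst _ φ w hw)
      exact h1 hw
  choose! nk hnk using hlay
  obtain ⟨n, hnn⟩ : ∃ n, ∀ k < K, nk k ≤ n :=
    ⟨(Finset.range K).sup nk, fun k hk => Finset.le_sup (f := nk) (Finset.mem_range.2 hk)⟩
  refine ⟨n, fun m hm => le_antisymm ?_ (hU hm)⟩
  have key : ∀ d k, k + d = K → ∀ w ∈ U m, w ∈ N → w ∈ C k → w ∈ U n := by
    intro d
    induction d with
    | zero =>
      intro k hk w hw1 hw2 hw3
      rw [add_zero] at hk
      subst hk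
      exact hK w (hUY m hw1) ((hN w).1 hw2) hw3 _ (hUv n)
    | succ d ih =>
      intro k hk w hw1 hw2 hw3
      have hkK : k < K := by omega
      have h1 : w ∈ (U m ⊓ N ⊓ C k) ⊔ C (k + 1) := Subgroup.mem_sup_left ⟨⟨hw1, hw2⟩, hw3⟩
      rw [hnk k hkK m (le_trans (hnn k hkK) hm), ← hnk k hkK n (hnn k hkK)] at h1
      have := hn (k + 1)
      obtain ⟨u, hu, c, hc, huc⟩ := Subgroup.mem_sup_of_normal_right.1 h1
      obtain ⟨⟨hu1, hu2⟩, hu3⟩ := hu
      have hc' : c = u⁻¹ * w := by rw [← huc, inv_mul_cancel_left]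
      have h2 : c ∈ U m := by
        rw [hc']
        exact (U m).mul_mem ((U m).inv_mem (hU hm hu1)) hw1
      have h3 : c ∈ N := by
        rw [hc']
        exact N.mul_mem (N.inv_mem hu2) hw2
      have h4 := ih (k + 1) (by omega) c h2 h3 hc
      rw [← huc]
      exact (U n).mul_mem hu1 h4
  refine verb_le (hUv n).endo (hUv m).endo fun w hw hk => ?_
  exact key K 0 (by omega) w hw ((hN w).2 hk) (h0 w (hUY m hw) hk)

end E4.N
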