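import Pool.Agent.Lib.MP_8a95e3_al.NY3

/-!
# NY4 : chains in a layer, general form
-/

namespace E4.N

open E4.J

/-- stable under the endomorphisms which fix `x_0` and come from the other letters -/
def StP (C : Subgroup F) : Prop := ∀ φ, ∀ w ∈ C, pls φ w ∈ C

/-- chains of stable subgroups between `C'` and `C' ⊔ D` stabilise -/
def LAcc (D C' : Subgroup F) : Prop :=
  ∀ U : ℕ → Subgroup F, Monotone U → (∀ n, C' ≤ U n) → (∀ n, U n ≤ C' ⊔ D) → (∀ n, StP (U n)) →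
    ∃ n, ∀ m ≥ n, U m = U n

theorem lacc_mono {D D' C' : Subgroup F} (h : D' ≤ C' ⊔ D) (hD : LAcc D C') : LAcc D' C' := by
  intro U hU hC hUg hUs
  exact hD U hU hC (fun n => le_trans (hUg n) (sup_le le_sup_left h)) hUs

theorem lacc_bot (C' : Subgroup F) : LAcc ⊥ C' := by
  intro U hU hC hUg hUs
  refine ⟨0, fun m _ => le_antisymm ?_ (hU (Nat.zero_le m))⟩
  have h1 := hUg m
  rw [sup_bot_eq] at h1
  exact le_trans h1 (hC 0)

/-- A layer of words. -/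
theorem lacc_layer {C' : Subgroup F} (hn : C'.Normal) (hst : StP C') (h4 : ∀ w : F, w ^ 4 ∈ C')
    {s : ℕ} {r : Fin s → F} (hL : Layer C' r) :
    LAcc (Subgroup.closure {w | ∃ (φ : F →* F) (i : Fin s), w = pls φ (r i)}) C' :=
  fun U hU hC hUg hUs => layer_acc C' hn hst h4 r hL.comm hL.ins U hU hC hUg hUs

/-- **Chains of verbal subgroups from the layers**, general form. -/
theorem acc_frame' (Y : Subgroup F) (K : ℕ) (C : ℕ → Subgroup F) (hn : ∀ k, (C k).Normal)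
    (hst : ∀ k, StP (C k))
    (h0 : ∀ w ∈ Y, kx w = 1 → w ∈ C 0) (hK : ∀ w ∈ Y, kx w = 1 → w ∈ C K → ∀ V : Subgroup F, Verb4 V → w ∈ V)
    (lay : ∀ k < K, ∃ D : Subgroup F, LAcc D (C (k + 1)) ∧
      ∀ w ∈ Y, kx w = 1 → w ∈ C k → w ∈ C (k + 1) ⊔ D)
    (U : ℕ → Subgroup F) (hU : Monotone U) (hUv : ∀ n, Verb4 (U n)) (hUY : ∀ n, U n ≤ Y) :
    ∃ n, ∀ m ≥ n, U m = U n := by
  obtain ⟨N, hN⟩ : ∃ N : Subgroup F, ∀ w, w ∈ N ↔ kx w = 1 := ⟨kx.ker, fun w => MonoidHom.mem_ker⟩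
  -- the layers
  have hlay : ∀ k < K, ∃ n, ∀ m ≥ n, ((U m ⊓ N ⊓ C k) ⊔ C (k + 1)) = ((U n ⊓ N ⊓ C k) ⊔ C (k + 1)) := by
    intro k hk
    obtain ⟨D, hL, hg⟩ := lay k hk
    refine hL (fun n => (U n ⊓ N ⊓ C k) ⊔ C (k + 1)) ?_ (fun n => le_sup_right) ?_ ?_
    · intro a b hab
      exact sup_le_sup_right (inf_le_inf_right _ (inf_le_inf_right _ (hU hab))) _
    · intro n
      refine sup_le ?_ le_sup_left
      rintro w ⟨⟨hw1, hw2⟩, hw3⟩
      exact hg w (hUY n hw1) ((hN w).1 hw2) hw3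
    · intro n φ w hw
      have h1 : (U n ⊓ N ⊓ C k) ⊔ C (k + 1) ≤ ((U n ⊓ N ⊓ C k) ⊔ C (k + 1)).comap (pls φ) := by
        refine sup_le ?_ ?_
        · rintro w ⟨⟨hw1, hw2⟩, hw3⟩
          refine Subgroup.mem_sup_left ⟨⟨(hUv n).endo _ w hw1, ?_⟩, hst k φ w hw3⟩
          show pls φ w ∈ N
          rw [hN, kx_pls, (hN w).1 hw2, map_one]
        · intro w hw
          exact Subgroup.mem_sup_right (hst _ φ w hw)
      exact h1 hw
  choose! nk hnk using hlay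
  obtain ⟨n, hnn⟩ : ∃ n, ∀ k < K, nk k ≤ n :=
    ⟨(Finset.range K).sup nk, fun k hk => Finset.le_sup (f := nk) (Finset.mem_range.2 hk)⟩
  refine ⟨n, fun m hm => le_antisymm ?_ (hU hm)⟩
  have key : ∀ d k, k + d = K → ∀ w ∈ U m, w ∈ N → w ∈ C k → w ∈ U n := by
    intro d
    induction d with
    | zero =>
      intro k hk w hw1 hw2 hw3
      rw [add_zero] at hk
      subst hk
      exact hK w (hUY m hw1) ((hN w).1 hw2) hw3 _ (hUv n)
    | succ d ih =>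
      intro k hk w hw1 hw2 hw3
      have hkK : k < K := by omega
      have h1 : w ∈ (U m ⊓ N ⊓ C k) ⊔ C (k + 1) := Subgroup.mem_sup_left ⟨⟨hw1, hw2⟩, hw3⟩
      rw [hnk k hkK m (le_trans (hnn k hkK) hm), ← hnk k hkK n (hnn k hkK)] at h1
      have := hn (k + 1)
      obtain ⟨u, hu, c, hc, huc⟩ := Subgroup.mem_sup_of_normal_right.1 h1
      obtain ⟨⟨hu1, hu2⟩, hu3⟩ := hu
      have hc' : c = u⁻¹ * w := by rw [← huc, inv_mul_cancel_left]
      have h2 : c ∈ U m := by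
        rw [hc']
        exact (U m).mul_mem ((U m).inv_mem (hU hm hu1)) hw1
      have h3 : c ∈ N := by
        rw [hc']
        exact N.mul_mem (N.inv_mem hu2) hw2
      have h4 := ih (k + 1) (by omega) c h2 h3 hc
      rw [← huc]
      exact (U n).mul_mem hu1 h4
  refine verb_le (hUv n).endo (hUv m).endo fun w hw hk => ?_
  exact key K 0 (by omega) w hw ((hN w).2 hk) (h0 w (hUY m hw) hk)

/-- **Transfer.**  `Γ` is the graph, modulo `C'`, of a homomorphism from a subgroup of the free module to the layer. -/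
theorem lacc_transfer {s t : ℕ} {D C' : Subgroup F} (hn : C'.Normal) (Γ : Subgroup (Multiplicative (QT s t) × F))
    (hzero : ∀ w, (Multiplicative.ofAdd (0 : QT s t), w) ∈ Γ → w ∈ C')
    (hD : ∀ w ∈ D, ∃ m, (m, w) ∈ Γ)
    (hz : ∀ p m w, (m, w) ∈ Γ → ∃ w', w'⁻¹ * pls (zE p) w ∈ C' ∧
      (Multiplicative.ofAdd (opZ p (Multiplicative.toAdd m)), w') ∈ Γ)
    (hc : ∀ k p m w, k < p → (m, w) ∈ Γ → ∃ w', w'⁻¹ * pls (cE k p) w ∈ C' ∧
      (Multiplicative.ofAdd (opC k p (Multiplicative.toAdd m)), w') ∈ Γ) : LAcc D C' := by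
  intro U hU hC hUg hUs
  obtain ⟨V, hV⟩ : ∃ V : ℕ → AddSubgroup (QT s t), ∀ n m, m ∈ V n ↔ ∃ w ∈ U n, (Multiplicative.ofAdd m, w) ∈ Γ := by
    refine ⟨fun n => { carrier := {m | ∃ w ∈ U n, (Multiplicative.ofAdd m, w) ∈ Γ}
                       zero_mem' := ⟨1, (U n).one_mem, Γ.one_mem⟩
                       add_mem' := ?_
                       neg_mem' := ?_ }, fun n m => Iff.rfl⟩
    · rintro a b ⟨u, hu, h1⟩ ⟨v, hv, h2⟩
      exact ⟨u * v, (U n).mul_mem hu hv, Γ.mul_mem h1 h2⟩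
    · rintro a ⟨u, hu, h1⟩
      exact ⟨u⁻¹, (U n).inv_mem hu, Γ.inv_mem h1⟩
  obtain ⟨n, hn'⟩ := thmNL s t V (by
      intro a b hab m hm
      rw [hV] at hm ⊢
      obtain ⟨w, hw, h1⟩ := hm
      exact ⟨w, hU hab hw, h1⟩)
    (by
      intro n p m hm
      rw [hV] at hm ⊢
      obtain ⟨w, hw, h1⟩ := hm
      obtain ⟨w', h2, h3⟩ := hz p _ w h1
      refine ⟨w', ?_, h3⟩
      have h4 := (U n).mul_mem (hUs n (zE p) w hw) ((U n).inv_mem (hC n h2))
      have e : pls (zE p) w * (w'⁻¹ * pls (zE p) w)⁻¹ = w' := by group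
      rwa [e] at h4)
    (by
      intro n k p hkp m hm
      rw [hV] at hm ⊢
      obtain ⟨w, hw, h1⟩ := hm
      obtain ⟨w', h2, h3⟩ := hc k p _ w hkp h1
      refine ⟨w', ?_, h3⟩
      have h4 := (U n).mul_mem (hUs n (cE k p) w hw) ((U n).inv_mem (hC n h2))
      have e : pls (cE k p) w * (w'⁻¹ * pls (cE k p) w)⁻¹ = w' := by group
      rwa [e] at h4)
  refine ⟨n, fun m hm => le_antisymm (fun u hu => ?_) (hU hm)⟩
  obtain ⟨c, hc', d, hd, hcd⟩ := Subgroup.mem_sup_of_normal_left.1 (hUg m hu)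
  obtain ⟨q, hq⟩ := hD d hd
  have hdm : d ∈ U m := by
    have e : d = c⁻¹ * u := by rw [← hcd, inv_mul_cancel_left]
    rw [e]
    exact (U m).mul_mem ((U m).inv_mem (hC m hc')) hu
  have h1 : Multiplicative.toAdd q ∈ V m := (hV m _).2 ⟨d, hdm, hq⟩
  rw [hn' m hm, hV] at h1
  obtain ⟨d', hd', h2⟩ := h1
  have h3 : (Multiplicative.ofAdd (0 : QT s t), d * d'⁻¹) ∈ Γ := by
    have h4 := Γ.mul_mem hq (Γ.inv_mem h2)
    have e : (q, d) * (Multiplicative.ofAdd (Multiplicative.toAdd q), d')⁻¹ =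
        (Multiplicative.ofAdd (0 : QT s t), d * d'⁻¹) := by
      refine Prod.ext ?_ rfl
      show q * q⁻¹ = 1
      rw [mul_inv_cancel]
    rwa [e] at h4
  have h4 := hzero _ h3
  rw [← hcd]
  refine (U n).mul_mem (hC n hc') ?_
  have h5 := (U n).mul_mem (hC n h4) hd'
  rwa [inv_mul_cancel_right] at h5

end E4.N
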