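import Pool.Agent.Lib.MP_8a95e3_al.NY4

/-!
# NY5 : Fox derivatives modulo the squares, and the rewriting homomorphism
-/

namespace E4.N

open E4.J

variable {s t : ℕ}

/-- a basis element with the coefficient `a`, the vectors `v` and the index `j` -/
def bs (i : Fin s) (v : Fin t → A2) (a : A2) (j : ℕ) : BT s t := (i, fun k => Fin.cases a v k, j)

/-- the translation of the coefficient -/
noncomputable def shB (a : A2) (b : BT s t) : BT s t := (b.1, fun k => if k = 0 then a + b.2.1 k else b.2.1 k, b.2.2)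

theorem shB_bs (i : Fin s) (v : Fin t → A2) (a c : A2) (j : ℕ) : shB a (bs i v c j) = bs i v (a + c) j := by
  unfold shB bs
  refine Prod.ext rfl (Prod.ext ?_ rfl)
  funext k
  refine Fin.cases ?_ (fun k => ?_) k
  · rfl
  · show (if k.succ = 0 then a + v k else v k) = v k
    rw [if_neg (Fin.succ_ne_zero k)]

theorem zT_bs (p : ℕ) (i : Fin s) (v : Fin t → A2) (a : A2) (j : ℕ) :
    zT p (bs i v a j) = bs i (fun k => zV p (v k)) (zV p a) (sp p j) := by
  unfold zT bs
  refine Prod.ext rfl (Prod.ext ?_ rfl)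
  funext k
  refine Fin.cases ?_ (fun k => ?_) k
  · rfl
  · rfl

theorem cT_bs (k p : ℕ) (i : Fin s) (v : Fin t → A2) (a : A2) (j : ℕ) :
    cT k p (bs i v a j) = bs i (fun l => cV k p (v l)) (cV k p a) j := by
  unfold cT bs
  refine Prod.ext rfl (Prod.ext ?_ rfl)
  funext l
  refine Fin.cases ?_ (fun l => ?_) l
  · rfl
  · rfl

theorem eT_bs (k p : ℕ) (i : Fin s) (v : Fin t → A2) (a : A2) (j : ℕ) :
    eT k p (bs i v a j) = bs i (fun l => cV k p (v l)) (cV k p a + Finsupp.single k 1) p := by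
  unfold eT bs
  refine Prod.ext rfl (Prod.ext ?_ rfl)
  funext l
  refine Fin.cases ?_ (fun l => ?_) l
  · rfl
  · show (if l.succ = 0 then cV k p (v l) + Finsupp.single k 1 else cV k p (v l)) = cV k p (v l)
    rw [if_neg (Fin.succ_ne_zero l)]

/-- the translation of the coefficient, on the free module -/
noncomputable def shQ (a : A2) : QT s t →+ QT s t :=
  (Finsupp.lmapDomain (ZMod 4) (ZMod 4) (shB a) : QT s t →ₗ[ZMod 4] QT s t).toAddMonoidHom

theorem shQ_single (a : A2) (b : BT s t) : shQ a (Finsupp.single b 1) = Finsupp.single (shB a b) 1 := by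
  show (Finsupp.lmapDomain (ZMod 4) (ZMod 4) (shB a)) (Finsupp.single b 1) = _
  rw [Finsupp.lmapDomain_apply, Finsupp.mapDomain_single]

theorem shQ_shQ (a c : A2) (m : QT s t) : shQ a (shQ c m) = shQ (a + c) m := by
  have e : (shQ a).comp (shQ c) = (shQ (a + c) : QT s t →+ QT s t) := by
    refine qt_ext fun b => ?_
    show shQ a (shQ c (Finsupp.single b 1)) = shQ (a + c) (Finsupp.single b 1)
    rw [shQ_single, shQ_single, shQ_single]
    have e1 : shB a (shB c b) = shB (a + c) b := by
      unfold shB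
      refine Prod.ext rfl (Prod.ext ?_ rfl)
      funext k
      show (if k = 0 then a + (if k = 0 then c + b.2.1 k else b.2.1 k) else (if k = 0 then c + b.2.1 k else b.2.1 k)) =
        if k = 0 then a + c + b.2.1 k else b.2.1 k
      by_cases h : k = 0
      · rw [if_pos h, if_pos h, if_pos h, add_assoc]
      · rw [if_neg h, if_neg h, if_neg h]
    rw [e1]
  exact DFunLike.congr_fun e m

theorem shQ_zero (m : QT s t) : shQ 0 m = m := by
  have e : shQ 0 = AddMonoidHom.id (QT s t) := by
    refine qt_ext fun b => ?_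
    show shQ 0 (Finsupp.single b 1) = Finsupp.single b 1
    rw [shQ_single]
    have e1 : shB 0 b = b := by
      unfold shB
      refine Prod.ext rfl (Prod.ext ?_ rfl)
      funext k
      show (if k = 0 then 0 + b.2.1 k else b.2.1 k) = b.2.1 k
      by_cases h : k = 0
      · rw [if_pos h, zero_add]
      · rw [if_neg h]
    rw [e1]
  exact DFunLike.congr_fun e m

theorem opZ_shQ (p : ℕ) (a : A2) (m : QT s t) : opZ p (shQ a m) = shQ (zV p a) (opZ p m) := by
  have e : ((opZ p : QT s t →ₗ[ZMod 4] QT s t).toAddMonoidHom).comp (shQ a) =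
      (shQ (zV p a)).comp ((opZ p : QT s t →ₗ[ZMod 4] QT s t).toAddMonoidHom) := by
    refine qt_ext fun b => ?_
    show opZ p (shQ a (Finsupp.single b 1)) = shQ (zV p a) (opZ p (Finsupp.single b 1))
    rw [shQ_single, opZ_single, opZ_single, shQ_single]
    have e1 : zT p (shB a b) = shB (zV p a) (zT p b) := by
      unfold zT shB
      refine Prod.ext rfl (Prod.ext ?_ rfl)
      funext k
      show zV p (if k = 0 then a + b.2.1 k else b.2.1 k) = if k = 0 then zV p a + zV p (b.2.1 k) else zV p (b.2.1 k)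
      by_cases h : k = 0
      · rw [if_pos h, if_pos h, zV_add]
      · rw [if_neg h, if_neg h]
    rw [e1]
  exact DFunLike.congr_fun e m

theorem opC_shQ (k p : ℕ) (a : A2) (m : QT s t) : opC k p (shQ a m) = shQ (cV k p a) (opC k p m) := by
  have e : ((opC k p : QT s t →ₗ[ZMod 4] QT s t).toAddMonoidHom).comp (shQ a) =
      (shQ (cV k p a)).comp ((opC k p : QT s t →ₗ[ZMod 4] QT s t).toAddMonoidHom) := by
    refine qt_ext fun b => ?_
    show opC k p (shQ a (Finsupp.single b 1)) = shQ (cV k p a) (opC k p (Finsupp.single b 1))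
    rw [shQ_single, opC_single, opC_single, map_add, shQ_single]
    have e1 : cT k p (shB a b) = shB (cV k p a) (cT k p b) := by
      unfold cT shB
      refine Prod.ext rfl (Prod.ext ?_ rfl)
      funext l
      show cV k p (if l = 0 then a + b.2.1 l else b.2.1 l) =
        if l = 0 then cV k p a + cV k p (b.2.1 l) else cV k p (b.2.1 l)
      by_cases h : l = 0
      · rw [if_pos h, if_pos h, cV_add]
      · rw [if_neg h, if_neg h]
    have e2 : eT k p (shB a b) = shB (cV k p a) (eT k p b) := by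
      unfold eT shB
      refine Prod.ext rfl (Prod.ext ?_ rfl)
      funext l
      show (if l = 0 then cV k p (if l = 0 then a + b.2.1 l else b.2.1 l) + Finsupp.single k 1
          else cV k p (if l = 0 then a + b.2.1 l else b.2.1 l)) =
        if l = 0 then cV k p a + (if l = 0 then cV k p (b.2.1 l) + Finsupp.single k 1 else cV k p (b.2.1 l))
          else (if l = 0 then cV k p (b.2.1 l) + Finsupp.single k 1 else cV k p (b.2.1 l))
      by_cases h : l = 0
      · rw [if_pos h, if_pos h, if_pos h, if_pos h, cV_add, add_assoc]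
      · rw [if_neg h, if_neg h, if_neg h, if_neg h]
    rw [e1, e2]
    by_cases h : b.2.2 = k
    · have h' : (shB a b).2.2 = k := h
      rw [if_pos h, if_pos h', shQ_single]
    · have h' : ¬ (shB a b).2.2 = k := h
      rw [if_neg h, if_neg h', map_zero]
  exact DFunLike.congr_fun e m

/-- the affine map of a letter -/
noncomputable def dE (i : Fin s) (v : Fin t → A2) (j : ℕ) : Equiv.Perm (QT s t) where
  toFun m := Finsupp.single (bs i v 0 j) 1 + shQ (Finsupp.single j 1) m
  invFun m := shQ (Finsupp.single j 1) (m - Finsupp.single (bs i v 0 j) 1)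
  left_inv m := by
    show shQ (Finsupp.single j 1) (Finsupp.single (bs i v 0 j) 1 + shQ (Finsupp.single j 1) m -
      Finsupp.single (bs i v 0 j) 1) = m
    rw [add_sub_cancel_left, shQ_shQ, a2_two, shQ_zero]
  right_inv m := by
    show Finsupp.single (bs i v 0 j) 1 + shQ (Finsupp.single j 1) (shQ (Finsupp.single j 1)
      (m - Finsupp.single (bs i v 0 j) 1)) = m
    rw [shQ_shQ, a2_two, shQ_zero, add_sub_cancel]

noncomputable def dP (i : Fin s) (v : Fin t → A2) : F →* Equiv.Perm (QT s t) := FreeGroup.lift (dE i v)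

/-- the derivative of a word, modulo the squares -/
noncomputable def dQ (i : Fin s) (v : Fin t → A2) (w : F) : QT s t := dP i v w 0

theorem dP_x (i : Fin s) (v : Fin t → A2) (j : ℕ) (m : QT s t) :
    dP i v (x j) m = Finsupp.single (bs i v 0 j) 1 + shQ (Finsupp.single j 1) m := by
  unfold dP x
  rw [FreeGroup.lift_apply_of]
  rfl

theorem dP_xinv (i : Fin s) (v : Fin t → A2) (j : ℕ) (m : QT s t) :
    dP i v (x j)⁻¹ m = shQ (Finsupp.single j 1) (m - Finsupp.single (bs i v 0 j) 1) := by
  unfold dP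
  rw [map_inv]
  unfold x
  rw [FreeGroup.lift_apply_of]
  rfl

theorem dP_apply (i : Fin s) (v : Fin t → A2) (w : F) : ∀ m : QT s t, dP i v w m = dQ i v w + shQ (cl w) m := by
  induction w using FreeGroup.induction_on with
  | C1 =>
    intro m
    unfold dQ
    rw [map_one, cl_one, shQ_zero]
    show m = 0 + m
    rw [zero_add]
  | of j =>
    intro m
    have h1 := dP_x i v j
    have h2 := cl_x j
    unfold x at h1 h2
    unfold dQ
    show dP i v (FreeGroup.of j) m = dP i v (FreeGroup.of j) 0 + shQ (cl (FreeGroup.of j)) m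
    rw [h1, h1, map_zero, add_zero, h2]
  | inv_of j _ =>
    intro m
    have h1 := dP_xinv i v j
    have h2 := cl_x j
    unfold x at h1 h2
    unfold dQ
    show dP i v (FreeGroup.of j)⁻¹ m = dP i v (FreeGroup.of j)⁻¹ 0 + shQ (cl (FreeGroup.of j)⁻¹) m
    rw [h1, h1, zero_sub, map_sub, map_neg, cl_inv, a2_neg, h2]
    abel
  | mul u v' hu hv =>
    intro m
    have h1 : ∀ m, dP i v (u * v') m = dP i v u (dP i v v' m) := fun m => by
      rw [map_mul]
      rfl
    have h2 : dQ i v (u * v') = dQ i v u + shQ (cl u) (dQ i v v') := by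
      show dP i v (u * v') 0 = _
      rw [h1, hu]
      rfl
    rw [h1, hu, hv, h2, cl_mul, map_add, shQ_shQ, add_assoc]

theorem dQ_one (i : Fin s) (v : Fin t → A2) : dQ i v 1 = 0 := by
  unfold dQ
  rw [map_one]
  rfl

theorem dQ_mul (i : Fin s) (v : Fin t → A2) (u w : F) : dQ i v (u * w) = dQ i v u + shQ (cl u) (dQ i v w) := by
  show dP i v (u * w) 0 = _
  rw [map_mul]
  show dP i v u (dP i v w 0) = _
  rw [dP_apply i v u]
  rfl

theorem dQ_x (i : Fin s) (v : Fin t → A2) (j : ℕ) : dQ i v (x j) = Finsupp.single (bs i v 0 j) 1 := by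
  show dP i v (x j) 0 = _
  rw [dP_x, map_zero, add_zero]

theorem dQ_inv (i : Fin s) (v : Fin t → A2) (u : F) : dQ i v u⁻¹ = -(shQ (cl u) (dQ i v u)) := by
  have h := dQ_mul i v u⁻¹ u
  rw [inv_mul_cancel, dQ_one, cl_inv, a2_neg] at h
  exact eq_neg_of_add_eq_zero_left h.symm

theorem dQ_zE (p : ℕ) (i : Fin s) (v : Fin t → A2) (w : F) :
    opZ p (dQ i v w) = dQ i (fun k => zV p (v k)) (zE p w) := by
  have hx : ∀ j, opZ p (dQ i v (x j)) = dQ i (fun k => zV p (v k)) (zE p (x j)) := by
    intro j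
    rw [dQ_x, opZ_single, zE_x, dQ_x, zT_bs, zV_zero]
  induction w using FreeGroup.induction_on with
  | C1 => rw [map_one, dQ_one, dQ_one, map_zero]
  | of j => exact hx j
  | inv_of j _ =>
    show opZ p (dQ i v (x j)⁻¹) = dQ i (fun k => zV p (v k)) (zE p (x j)⁻¹)
    rw [map_inv (zE p), dQ_inv, dQ_inv, map_neg, opZ_shQ, hx, cl_zE]
  | mul u w hu hw => rw [map_mul, dQ_mul, dQ_mul, map_add, opZ_shQ, hu, hw, cl_zE]

theorem dQ_cE (k p : ℕ) (i : Fin s) (v : Fin t → A2) (w : F) :
    opC k p (dQ i v w) = dQ i (fun l => cV k p (v l)) (cE k p w) := by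
  have hx : ∀ j, opC k p (dQ i v (x j)) = dQ i (fun l => cV k p (v l)) (cE k p (x j)) := by
    intro j
    rw [dQ_x, opC_single, cE_x, cT_bs, cV_zero, eT_bs, cV_zero, zero_add]
    by_cases h : j = k
    · have h' : (bs i v 0 j).2.2 = k := h
      rw [if_pos h, if_pos h', dQ_mul, dQ_x, dQ_x, cl_x, shQ_single, shB_bs, add_zero, h]
    · have h' : ¬ (bs i v 0 j).2.2 = k := h
      rw [if_neg h, if_neg h', add_zero, dQ_x]
  induction w using FreeGroup.induction_on with
  | C1 => rw [map_one, dQ_one, dQ_one, map_zero]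
  | of j => exact hx j
  | inv_of j _ =>
    show opC k p (dQ i v (x j)⁻¹) = dQ i (fun l => cV k p (v l)) (cE k p (x j)⁻¹)
    rw [map_inv (cE k p), dQ_inv, dQ_inv, map_neg, opC_shQ, hx, cl_cE]
  | mul u w hu hw => rw [map_mul, dQ_mul, dQ_mul, map_add, opC_shQ, hu, hw, cl_cE]

/-- a section with value `1` at `0` -/
noncomputable def s0 (a : A2) : F := by
  classical exact if a = 0 then 1 else sec a

theorem s0_zero : s0 0 = 1 := by
  unfold s0
  rw [if_pos rfl]

theorem cl_s0 (a : A2) : cl (s0 a) = a := by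
  unfold s0
  split_ifs with h
  · rw [cl_one, h]
  · exact cl_sec a

/-- **The rewriting homomorphism.** -/
theorem exists_rw {B : Type} [AddCommGroup B] (val : Fin s → (Fin t → A2) → F → B)
    (h4 : ∀ i v n, (4 : ℕ) • val i v n = 0)
    (hm : ∀ i v n m, cl n = 0 → cl m = 0 → val i v (n * m) = val i v n + val i v m) :
    ∃ τ : QT s t →+ B, ∀ i v n, cl n = 0 → τ (dQ i v n) = val i v n := by
  have h0 : ∀ i v, val i v 1 = 0 := by
    intro i v
    have h := hm i v 1 1 cl_one cl_one
    rw [mul_one] at h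
    exact left_eq_add.1 h
  obtain ⟨g, hg⟩ : ∃ g : BT s t → B, ∀ b, g b = val b.1 (fun k => b.2.1 k.succ)
      (s0 (b.2.1 0) * x b.2.2 * (s0 (b.2.1 0 + Finsupp.single b.2.2 1))⁻¹) := ⟨_, fun b => rfl⟩
  have hg4 : ∀ b, (4 : ℕ) • g b = 0 := fun b => by rw [hg, h4]
  obtain ⟨τ, hτ⟩ : ∃ τ : QT s t →+ B, ∀ b, τ (Finsupp.single b 1) = g b := by
    refine ⟨Finsupp.liftAddHom fun b => ZMod.lift 4 ⟨zmultiplesHom B (g b), by
      show (((4 : ℕ) : ℤ)) • g b = 0
      rw [natCast_zsmul]
      exact hg4 b⟩, fun b => ?_⟩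
    rw [Finsupp.liftAddHom_apply_single]
    have h := ZMod.lift_coe 4 (⟨zmultiplesHom B (g b), by
      show (((4 : ℕ) : ℤ)) • g b = 0
      rw [natCast_zsmul]
      exact hg4 b⟩ : {f : ℤ →+ B // f (4 : ℕ) = 0}) 1
    rw [Int.cast_one] at h
    rw [h]
    show (1 : ℤ) • g b = _
    rw [one_zsmul]
  refine ⟨τ, fun i v => ?_⟩
  obtain ⟨Q, hQ⟩ : ∃ Q : F → Prop, ∀ w, Q w ↔ τ (dQ i v w) = val i v (w * (s0 (cl w))⁻¹) := ⟨_, fun w => Iff.rfl⟩
  have hs : ∀ j w, Q (w * x j) ↔ Q w := by
    intro j w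
    rw [hQ, hQ]
    have e1 : τ (dQ i v (w * x j)) = τ (dQ i v w) +
        val i v (s0 (cl w) * x j * (s0 (cl w + Finsupp.single j 1))⁻¹) := by
      rw [dQ_mul, dQ_x, shQ_single, shB_bs, add_zero, map_add, hτ, hg]
      rfl
    have e2 : val i v (w * x j * (s0 (cl (w * x j)))⁻¹) = val i v (w * (s0 (cl w))⁻¹) +
        val i v (s0 (cl w) * x j * (s0 (cl w + Finsupp.single j 1))⁻¹) := by
      rw [← hm]
      · congr 1
        rw [cl_mul, cl_x]
        group
      · rw [cl_mul, cl_inv, cl_s0, a2_neg, a2_two]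
      · rw [cl_mul, cl_mul, cl_inv, cl_s0, cl_s0, cl_x, a2_neg, a2_two]
    rw [e1, e2]
    exact add_left_inj _
  have key : ∀ u w, Q (w * u) ↔ Q w := by
    intro u
    induction u using FreeGroup.induction_on with
    | C1 =>
      intro w
      rw [mul_one]
    | of j => exact hs j
    | inv_of j _ =>
      intro w
      have h := hs j (w * (FreeGroup.of j)⁻¹)
      unfold x at h
      rw [inv_mul_cancel_right] at h
      exact h.symm
    | mul a b ha hb =>
      intro w
      rw [← mul_assoc, hb, ha]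
  intro n hn
  have h1 : Q n := by
    have h2 := (key n 1).2 (by
      rw [hQ, dQ_one, map_zero, cl_one, s0_zero, inv_one, mul_one, h0])
    rwa [one_mul] at h2
  rw [hQ, hn, s0_zero, inv_one, mul_one] at h1
  exact h1

end E4.N
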