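import Pool.Agent.Lib.MP_8a95e3_al.NY5

/-!
# NY6 : a layer of words with one letter in the subgroup of the squares
-/

namespace E4.N

open E4.J

variable {s t : ℕ}

/-- the substitution -/
noncomputable def asn (v : Fin t → A2) (n : F) : F →* F :=
  FreeGroup.lift fun j => if j = 0 then n else sec (uc v (j - 1))

theorem asn_zero (v : Fin t → A2) (n : F) : asn v n (x 0) = n := by
  unfold asn
  exact FreeGroup.lift_apply_of

theorem asn_succ (v : Fin t → A2) (n : F) (j : ℕ) : cl (asn v n (x (j + 1))) = uc v j := by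
  have h : asn v n (x (j + 1)) = sec (uc v j) := by
    unfold asn
    exact FreeGroup.lift_apply_of
  rw [h, cl_sec]

theorem comm_closure {G : Type} [Group G] {S : Set G} (h : ∀ a ∈ S, ∀ b ∈ S, a * b = b * a) :
    ∀ a ∈ Subgroup.closure S, ∀ b ∈ Subgroup.closure S, a * b = b * a := by
  intro a ha b hb
  refine Subgroup.closure_induction₂ (p := fun a b _ _ => a * b = b * a) ?_ ?_ ?_ ?_ ?_ ?_ ?_ ha hb
  · intro a b ha hb
    exact h a ha b hb
  · intro a _
    rw [one_mul, mul_one]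
  · intro a _
    rw [one_mul, mul_one]
  · intro a b c _ _ _ h1 h2
    rw [mul_assoc, h2, ← mul_assoc, h1, mul_assoc]
  · intro a b c _ _ _ h1 h2
    rw [← mul_assoc, h1, mul_assoc, h2, mul_assoc]
  · intro a b _ _ h1
    exact (Commute.inv_left (show Commute a b from h1)).eq
  · intro a b _ _ h1
    exact (Commute.inv_right (show Commute a b from h1)).eq

theorem mk_comm {C' : Subgroup F} (hn : C'.Normal) {a b : F} (h : a * b * a⁻¹ * b⁻¹ ∈ C') :
    (QuotientGroup.mk a * QuotientGroup.mk b : F ⧸ C') = QuotientGroup.mk b * QuotientGroup.mk a := by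
  rw [← QuotientGroup.mk_mul, ← QuotientGroup.mk_mul, QuotientGroup.eq]
  have h2 := hn.conj_mem _ (C'.inv_mem h) (a * b)⁻¹
  have e : (a * b)⁻¹ * (b * a) = (a * b)⁻¹ * (a * b * a⁻¹ * b⁻¹)⁻¹ * (a * b)⁻¹⁻¹ := by group
  rw [e]
  exact h2

/-- **Chains in a layer of words with one letter in the subgroup of the squares.** -/
theorem lacc_sq {C' : Subgroup F} (hn : C'.Normal) (hst : StP C') (h4 : ∀ w : F, w ^ 4 ∈ C') (r : Fin s → F)
    (hcomm : ∀ φ ψ : F →* F, ∀ i j, cl (φ (x 0)) = 0 → cl (ψ (x 0)) = 0 →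
      pls φ (r i) * pls ψ (r j) * (pls φ (r i))⁻¹ * (pls ψ (r j))⁻¹ ∈ C')
    (hins : ∀ φ ψ : F →* F, ∀ i, cl (φ (x 0)) = 0 → φ (x 0) = ψ (x 0) →
      (∀ j, cl (φ (x (j + 1))) = cl (ψ (x (j + 1)))) → (pls φ (r i))⁻¹ * pls ψ (r i) ∈ C')
    (hmul : ∀ φ ψ χ : F →* F, ∀ i, cl (φ (x 0)) = 0 → cl (ψ (x 0)) = 0 → χ (x 0) = φ (x 0) * ψ (x 0) →
      (∀ j, ψ (x (j + 1)) = φ (x (j + 1))) → (∀ j, χ (x (j + 1)) = φ (x (j + 1))) →
      (pls χ (r i))⁻¹ * (pls φ (r i) * pls ψ (r i)) ∈ C') :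
    LAcc (Subgroup.closure {w | ∃ (φ : F →* F) (i : Fin s), cl (φ (x 0)) = 0 ∧ w = pls φ (r i)}) C' := by
  classical
  obtain ⟨T, hT⟩ := words_vars r
  obtain ⟨vF, hvF⟩ : ∃ vF : Fin s → (Fin T → A2) → F → F ⧸ C', ∀ i v n, vF i v n =
      QuotientGroup.mk (pls (asn v n) (r i)) := ⟨_, fun i v n => rfl⟩
  have hval : ∀ (φ : F →* F) (i : Fin s), cl (φ (x 0)) = 0 → (QuotientGroup.mk (pls φ (r i)) : F ⧸ C') =
      vF i (fun j => cl (φ (x (j + 1)))) (φ (x 0)) := by
    intro φ i hφ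
    obtain ⟨ψ, hψ⟩ : ∃ ψ : F →* F, ∀ j, ψ (x j) = if j ≤ T then φ (x j) else 1 := by
      refine ⟨FreeGroup.lift fun j => if j ≤ T then φ (x j) else 1, fun j => ?_⟩
      exact FreeGroup.lift_apply_of
    have e : pls φ (r i) = pls ψ (r i) := by
      refine hT i _ _ fun j hj => ?_
      rcases j with _ | j
      · rw [pls_zero, pls_zero]
      · rw [pls_succ, pls_succ, hψ, if_pos (by omega)]
    have h0 : ψ (x 0) = φ (x 0) := by rw [hψ, if_pos (Nat.zero_le T)]
    rw [e, hvF, QuotientGroup.eq]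
    refine hins _ _ _ (by rw [h0]; exact hφ) (by rw [h0, asn_zero]) fun j => ?_
    rw [asn_succ, hψ]
    unfold uc
    by_cases hj : j < T
    · rw [if_pos (by omega), dif_pos hj]
    · rw [if_neg (by omega), dif_neg hj, cl_one]
  obtain ⟨A, hA⟩ : ∃ A : Subgroup (F ⧸ C'), A = Subgroup.closure {y | ∃ i v n, cl n = 0 ∧ y = vF i v n} := ⟨_, rfl⟩
  have hAc : ∀ a ∈ A, ∀ b ∈ A, a * b = b * a := by
    rw [hA]
    refine comm_closure ?_
    rintro _ ⟨i, v, n, hn', rfl⟩ _ ⟨j, v', m, hm', rfl⟩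
    rw [hvF, hvF]
    refine mk_comm hn ?_
    exact hcomm _ _ _ _ (by rw [asn_zero]; exact hn') (by rw [asn_zero]; exact hm')
  let _ : CommGroup A := { (inferInstance : Group A) with mul_comm := fun a b => Subtype.ext (hAc a a.2 b b.2) }
  have hvA : ∀ i v n, cl n = 0 → vF i v n ∈ A := fun i v n h => by rw [hA]; exact Subgroup.subset_closure ⟨i, v, n, h, rfl⟩
  have hM : ∀ a b : Additive A, ((Additive.toMul a : A) : F ⧸ C') = (Additive.toMul b : A) → a = b := by
    intro a b h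
    exact Additive.toMul.injective (Subtype.ext h)
  obtain ⟨val, hv⟩ : ∃ val : Fin s → (Fin T → A2) → F → Additive A, ∀ i v n, cl n = 0 →
      ((Additive.toMul (val i v n) : A) : F ⧸ C') = vF i v n :=
    ⟨fun i v n => if h : cl n = 0 then Additive.ofMul ⟨vF i v n, hvA i v n h⟩ else 0, fun i v n h => by
      show ((Additive.toMul (if h : cl n = 0 then Additive.ofMul (⟨vF i v n, hvA i v n h⟩ : A) else 0) : A) : F ⧸ C') = _
      rw [dif_pos h]
      rfl⟩
  obtain ⟨val', hv', hv0⟩ : ∃ val' : Fin s → (Fin T → A2) → F → Additive A, (∀ i v n, cl n = 0 → val' i v n = val i v n) ∧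
      ∀ i v n, ¬ cl n = 0 → val' i v n = 0 :=
    ⟨fun i v n => if cl n = 0 then val i v n else 0, fun i v n h => if_pos h, fun i v n h => if_neg h⟩
  obtain ⟨τ, hτ⟩ := exists_rw (s := s) (t := T) val' (by
      intro i v n
      by_cases h : cl n = 0
      · rw [hv' i v n h]
        apply hM
        show ((Additive.toMul (val i v n) : A) : F ⧸ C') ^ 4 = 1
        rw [hv i v n h, hvF, ← QuotientGroup.mk_pow, QuotientGroup.eq_one_iff]
        exact h4 _
      · rw [hv0 i v n h, smul_zero])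
    (by
      intro i v n m hn' hm'
      have hnm : cl (n * m) = 0 := by rw [cl_mul, hn', hm', add_zero]
      rw [hv' i v _ hnm, hv' i v _ hn', hv' i v _ hm']
      apply hM
      show ((Additive.toMul (val i v (n * m)) : A) : F ⧸ C') =
        ((Additive.toMul (val i v n) : A) : F ⧸ C') * ((Additive.toMul (val i v m) : A) : F ⧸ C')
      rw [hv i v _ hnm, hv i v _ hn', hv i v _ hm', hvF, hvF, hvF, ← QuotientGroup.mk_mul, QuotientGroup.eq]
      have hsucc : ∀ a b j, asn v a (x (j + 1)) = asn v b (x (j + 1)) := by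
        intro a b j
        unfold asn x
        rw [FreeGroup.lift_apply_of, FreeGroup.lift_apply_of, if_neg (Nat.succ_ne_zero j), if_neg (Nat.succ_ne_zero j)]
      refine hmul _ _ _ _ (by rw [asn_zero]; exact hn') (by rw [asn_zero]; exact hm')
        (by rw [asn_zero, asn_zero, asn_zero]) (fun j => hsucc _ _ j) fun j => hsucc _ _ j)
  have hτ' : ∀ i v n, cl n = 0 → ((Additive.toMul (τ (dQ i v n)) : A) : F ⧸ C') = vF i v n := by
    intro i v n h
    rw [hτ i v n h, hv' i v n h, hv i v n h]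
  -- the endomorphisms
  have hq : ∀ φ : F →* F, ∃ f : F ⧸ C' →* F ⧸ C', ∀ w : F, f (QuotientGroup.mk w) = QuotientGroup.mk (pls φ w) :=
    fun φ => ⟨QuotientGroup.map C' C' (pls φ) (fun w hw => hst φ w hw), fun w => rfl⟩
  choose q hq using hq
  have hqv : ∀ φ i v n, cl n = 0 → cl (φ n) = 0 → (∀ a, cl (φ (sec a)) = cl (φ (sec a))) →
      q φ (vF i v n) = vF i (fun j => cl (φ (asn v n (x (j + 1))))) (φ n) := by
    intro φ i v n h1 h2 _
    have h3 : cl ((φ.comp (asn v n)) (x 0)) = 0 := by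
      show cl (φ (asn v n (x 0))) = 0
      rw [asn_zero]
      exact h2
    rw [hvF, hq, pls_pls, hval _ _ h3]
    have e : (φ.comp (asn v n)) (x 0) = φ n := by
      show φ (asn v n (x 0)) = φ n
      rw [asn_zero]
    rw [e]
    rfl
  have hzv : ∀ p i v n, cl n = 0 → q (zE p) (vF i v n) = vF i (fun k => zV p (v k)) (zE p n) := by
    intro p i v n h
    rw [hqv (zE p) i v n h (by rw [cl_zE, h, zV_zero]) fun _ => rfl]
    congr 1
    funext j
    rw [cl_zE, asn_succ]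
    unfold uc
    rw [dif_pos j.2]
  have hcv : ∀ k p i v n, cl n = 0 → q (cE k p) (vF i v n) = vF i (fun l => cV k p (v l)) (cE k p n) := by
    intro k p i v n h
    rw [hqv (cE k p) i v n h (by rw [cl_cE, h, cV_zero]) fun _ => rfl]
    congr 1
    funext j
    rw [cl_cE, asn_succ]
    unfold uc
    rw [dif_pos j.2]
  -- the submodule
  obtain ⟨M', hM'⟩ : ∃ M' : AddSubgroup (QT s T), M' = AddSubgroup.closure {m | ∃ i v n, cl n = 0 ∧ m = dQ i v n} :=
    ⟨_, rfl⟩
  have hgM : ∀ i v n, cl n = 0 → dQ i v n ∈ M' := fun i v n h => by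
    rw [hM']
    exact AddSubgroup.subset_closure ⟨i, v, n, h, rfl⟩
  have hop : ∀ (o : QT s T →+ QT s T) (f : F ⧸ C' →* F ⧸ C')
      (_ : ∀ i v n, cl n = 0 → o (dQ i v n) ∈ M' ∧ ((Additive.toMul (τ (o (dQ i v n))) : A) : F ⧸ C') = f (vF i v n)),
      ∀ m ∈ M', o m ∈ M' ∧ ((Additive.toMul (τ (o m)) : A) : F ⧸ C') = f (Additive.toMul (τ m) : A) := by
    intro o f h m hm
    rw [hM'] at hm
    induction hm using AddSubgroup.closure_induction with
    | mem y hy =>
      obtain ⟨i, v, n, hn', rfl⟩ := hy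
      refine ⟨(h i v n hn').1, ?_⟩
      rw [(h i v n hn').2, hτ' i v n hn']
    | zero =>
      have e1 : o 0 = 0 := map_zero o
      have e2 : τ 0 = 0 := map_zero τ
      rw [e1, e2]
      refine ⟨M'.zero_mem, ?_⟩
      show (1 : F ⧸ C') = f 1
      rw [map_one]
    | add a b _ _ ha hb =>
      have e1 : o (a + b) = o a + o b := map_add o a b
      have e2 : τ (o a + o b) = τ (o a) + τ (o b) := map_add τ _ _
      have e3 : τ (a + b) = τ a + τ b := map_add τ a b
      rw [e1, e2, e3]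
      refine ⟨M'.add_mem ha.1 hb.1, ?_⟩
      show ((Additive.toMul (τ (o a)) : A) : F ⧸ C') * ((Additive.toMul (τ (o b)) : A) : F ⧸ C') =
        f (((Additive.toMul (τ a) : A) : F ⧸ C') * ((Additive.toMul (τ b) : A) : F ⧸ C'))
      rw [map_mul, ha.2, hb.2]
    | neg a _ ha =>
      have e1 : o (-a) = -o a := map_neg o a
      have e2 : τ (-o a) = -τ (o a) := map_neg τ _
      have e3 : τ (-a) = -τ a := map_neg τ a
      rw [e1, e2, e3]
      refine ⟨M'.neg_mem ha.1, ?_⟩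
      show ((Additive.toMul (τ (o a)) : A) : F ⧸ C')⁻¹ = f (((Additive.toMul (τ a) : A) : F ⧸ C')⁻¹)
      rw [map_inv, ha.2]
  have hzM : ∀ p, ∀ m ∈ M', (opZ p m : QT s T) ∈ M' ∧ ((Additive.toMul (τ (opZ p m)) : A) : F ⧸ C') =
      q (zE p) (Additive.toMul (τ m) : A) := by
    intro p
    refine hop (opZ p : QT s T →ₗ[ZMod 4] QT s T).toAddMonoidHom (q (zE p)) fun i v n h => ?_
    have e : (opZ p : QT s T →ₗ[ZMod 4] QT s T).toAddMonoidHom (dQ i v n) = dQ i (fun k => zV p (v k)) (zE p n) :=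
      dQ_zE p i v n
    have h1 : cl (zE p n) = 0 := by rw [cl_zE, h, zV_zero]
    rw [e]
    exact ⟨hgM _ _ _ h1, by rw [hτ' _ _ _ h1, hzv p i v n h]⟩
  have hcM : ∀ k p, ∀ m ∈ M', (opC k p m : QT s T) ∈ M' ∧ ((Additive.toMul (τ (opC k p m)) : A) : F ⧸ C') =
      q (cE k p) (Additive.toMul (τ m) : A) := by
    intro k p
    refine hop (opC k p : QT s T →ₗ[ZMod 4] QT s T).toAddMonoidHom (q (cE k p)) fun i v n h => ?_
    have e : (opC k p : QT s T →ₗ[ZMod 4] QT s T).toAddMonoidHom (dQ i v n) = dQ i (fun l => cV k p (v l)) (cE k p n) :=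
      dQ_cE k p i v n
    have h1 : cl (cE k p n) = 0 := by rw [cl_cE, h, cV_zero]
    rw [e]
    exact ⟨hgM _ _ _ h1, by rw [hτ' _ _ _ h1, hcv k p i v n h]⟩
  obtain ⟨Γ, hΓ⟩ : ∃ Γ : Subgroup (Multiplicative (QT s T) × F), ∀ m w, (m, w) ∈ Γ ↔
      (Multiplicative.toAdd m ∈ M' ∧ ((Additive.toMul (τ (Multiplicative.toAdd m)) : A) : F ⧸ C') = QuotientGroup.mk w) := by
    refine ⟨{ carrier := {y | Multiplicative.toAdd y.1 ∈ M' ∧
                ((Additive.toMul (τ (Multiplicative.toAdd y.1)) : A) : F ⧸ C') = QuotientGroup.mk y.2}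
              one_mem' := ⟨M'.zero_mem, ?_⟩
              mul_mem' := ?_
              inv_mem' := ?_ }, fun m w => Iff.rfl⟩
    · rintro ⟨a, u⟩ ⟨b, v⟩ ⟨h1, h2⟩ ⟨h3, h5⟩
      refine ⟨M'.add_mem h1 h3, ?_⟩
      show ((Additive.toMul (τ (Multiplicative.toAdd a + Multiplicative.toAdd b)) : A) : F ⧸ C') = QuotientGroup.mk (u * v)
      rw [map_add]
      show ((Additive.toMul (τ (Multiplicative.toAdd a)) : A) : F ⧸ C') *
        ((Additive.toMul (τ (Multiplicative.toAdd b)) : A) : F ⧸ C') = _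
      rw [QuotientGroup.mk_mul]
      exact congrArg₂ (· * ·) h2 h5
    · show ((Additive.toMul (τ (0 : QT s T)) : A) : F ⧸ C') = QuotientGroup.mk (1 : F)
      rw [map_zero]
      rfl
    · rintro ⟨a, u⟩ ⟨h1, h2⟩
      refine ⟨M'.neg_mem h1, ?_⟩
      show ((Additive.toMul (τ (-Multiplicative.toAdd a)) : A) : F ⧸ C') = QuotientGroup.mk (u⁻¹)
      rw [map_neg]
      show ((Additive.toMul (τ (Multiplicative.toAdd a)) : A) : F ⧸ C')⁻¹ = _
      rw [QuotientGroup.mk_inv]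
      exact congrArg (·⁻¹) h2
  refine lacc_transfer hn Γ ?_ ?_ ?_ ?_
  · intro w hw
    rw [hΓ] at hw
    have h1 := hw.2
    have e : τ (Multiplicative.toAdd (Multiplicative.ofAdd (0 : QT s T))) = 0 := map_zero τ
    rw [e] at h1
    have h2 : (1 : F ⧸ C') = QuotientGroup.mk w := h1
    exact (QuotientGroup.eq_one_iff w).1 h2.symm
  · intro w hw
    induction hw using Subgroup.closure_induction with
    | mem y hy =>
      obtain ⟨φ, i, hφ, rfl⟩ := hy
      refine ⟨Multiplicative.ofAdd (dQ i (fun j => cl (φ (x (j + 1)))) (φ (x 0))), ?_⟩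
      rw [hΓ]
      exact ⟨hgM _ _ _ hφ, by rw [hval φ i hφ]; exact hτ' _ _ _ hφ⟩
    | one => exact ⟨1, Γ.one_mem⟩
    | mul a b _ _ ha hb =>
      obtain ⟨m, hm⟩ := ha
      obtain ⟨m', hm'⟩ := hb
      exact ⟨m * m', Γ.mul_mem hm hm'⟩
    | inv a _ ha =>
      obtain ⟨m, hm⟩ := ha
      exact ⟨m⁻¹, Γ.inv_mem hm⟩
  · intro p m w h
    rw [hΓ] at h
    refine ⟨pls (zE p) w, by rw [inv_mul_cancel]; exact C'.one_mem, ?_⟩
    rw [hΓ]
    obtain ⟨h1, h2⟩ := hzM p _ h.1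
    exact ⟨h1, by rw [← hq, ← h.2]; exact h2⟩
  · intro k p m w _ h
    rw [hΓ] at h
    refine ⟨pls (cE k p) w, by rw [inv_mul_cancel]; exact C'.one_mem, ?_⟩
    rw [hΓ]
    obtain ⟨h1, h2⟩ := hcM k p _ h.1
    exact ⟨h1, by rw [← hq, ← h.2]; exact h2⟩

end E4.N
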