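import Pool.Agent.Lib.MP_8a95e3_al.NY6

/-!
# NY7 : chains which are stable under the operators that do not touch the first letter
-/

namespace E4.N

open E4.J

variable {s t : ℕ}

/-- the shift of the letters, on `A2` -/
noncomputable def shA (a : A2) : A2 := a.mapDomain Nat.succ

theorem shA_zero : shA 0 = 0 := Finsupp.mapDomain_zero

theorem shA_add (a b : A2) : shA (a + b) = shA a + shA b := Finsupp.mapDomain_add

theorem shA_single (j : ℕ) (c : ZMod 2) : shA (Finsupp.single j c) = Finsupp.single (j + 1) c := by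
  unfold shA
  exact Finsupp.mapDomain_single

theorem shA_succ (a : A2) (j : ℕ) : shA a (j + 1) = a j :=
  Finsupp.mapDomain_apply Nat.succ_injective a j

theorem shA_at_zero (a : A2) : shA a 0 = 0 := by
  refine Finsupp.mapDomain_of_notMem_range a 0 ?_
  rintro ⟨j, hj⟩
  exact Nat.succ_ne_zero j hj

theorem a2_split (a : A2) : ∃ a' : A2, a = Finsupp.single 0 (a 0) + shA a' := by
  refine ⟨a.comapDomain Nat.succ Nat.succ_injective.injOn, ?_⟩
  ext j
  rcases j with _ | j
  · rw [Finsupp.add_apply, Finsupp.single_eq_same, shA_at_zero, add_zero]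
  · rw [Finsupp.add_apply, Finsupp.single_eq_of_ne (Nat.succ_ne_zero j), shA_succ, zero_add]
    rfl

theorem sp_succ (p j : ℕ) : sp (p + 1) (j + 1) = sp p j + 1 := by
  unfold sp
  split_ifs <;> omega

theorem sp_succ_zero (p : ℕ) : sp (p + 1) 0 = 0 := by
  unfold sp
  rw [if_pos (Nat.succ_pos p)]

theorem zV_succ (p : ℕ) (c : ZMod 2) (a : A2) :
    zV (p + 1) (Finsupp.single 0 c + shA a) = Finsupp.single 0 c + shA (zV p a) := by
  rw [zV_add]
  have h1 : zV (p + 1) (Finsupp.single 0 c) = Finsupp.single 0 c := by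
    unfold zV
    rw [Finsupp.mapDomain_single, sp_succ_zero]
  have h2 : zV (p + 1) (shA a) = shA (zV p a) := by
    unfold zV shA
    rw [← Finsupp.mapDomain_comp, ← Finsupp.mapDomain_comp]
    congr 1
    funext j
    exact sp_succ p j
  rw [h1, h2]

theorem cV_succ (k p : ℕ) (c : ZMod 2) (a : A2) :
    cV (k + 1) (p + 1) (Finsupp.single 0 c + shA a) = Finsupp.single 0 c + shA (cV k p a) := by
  unfold cV
  rw [Finsupp.add_apply, Finsupp.single_eq_of_ne (Nat.succ_ne_zero k), zero_add, shA_succ, shA_add, shA_single,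
    add_assoc]

/-- **ACC for the operators which do not touch the first letter.** -/
theorem thmNL' (s t : ℕ) (U : ℕ → AddSubgroup (QT s t)) (hU : Monotone U)
    (hZ : ∀ n p, ∀ f ∈ U n, opZ (p + 1) f ∈ U n)
    (hC : ∀ n k p, k < p → ∀ f ∈ U n, opC (k + 1) (p + 1) f ∈ U n) : ∃ n, ∀ m ≥ n, U m = U n := by
  classical
  obtain ⟨s', ⟨lab⟩⟩ : ∃ s' : ℕ, Nonempty (Fin s' ≃ Fin s × (Fin (t + 1) → ZMod 2)) :=
    ⟨Fintype.card (Fin s × (Fin (t + 1) → ZMod 2)), ⟨(Fintype.equivFin _).symm⟩⟩
  -- operators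
  obtain ⟨oz, hoz⟩ : ∃ oz : ℕ → QT s t →+ QT s t, ∀ p f, oz p f = opZ (p + 1) f :=
    ⟨fun p => (opZ (p + 1) : QT s t →ₗ[ZMod 4] QT s t).toAddMonoidHom, fun p f => rfl⟩
  obtain ⟨oc, hoc⟩ : ∃ oc : ℕ → ℕ → QT s t →+ QT s t, ∀ k p f, oc k p f = opC (k + 1) (p + 1) f :=
    ⟨fun k p => (opC (k + 1) (p + 1) : QT s t →ₗ[ZMod 4] QT s t).toAddMonoidHom, fun k p f => rfl⟩
  -- the marked part
  obtain ⟨β, hβ⟩ : ∃ β : (Fin s × (Fin (t + 1) → ZMod 2)) → (Fin (t + 1) → A2) → ℕ → BT s t, ∀ l a j,
      β l a j = (l.1, fun i => Finsupp.single 0 (l.2 i) + shA (a i), j) := ⟨_, fun l a j => rfl⟩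
  have hβz : ∀ l a j p, zT (p + 1) (β l a j) = β l (fun i => zV p (a i)) (sp (p + 1) j) := by
    intro l a j p
    rw [hβ, hβ]
    unfold zT
    refine Prod.ext rfl (Prod.ext ?_ rfl)
    funext i
    exact zV_succ _ _ _
  have hβc : ∀ l a j k p, cT (k + 1) (p + 1) (β l a j) = β l (fun i => cV k p (a i)) j := by
    intro l a j k p
    rw [hβ, hβ]
    unfold cT
    refine Prod.ext rfl (Prod.ext ?_ rfl)
    funext i
    exact cV_succ _ _ _ _
  have hβe : ∀ l a j k p, eT (k + 1) (p + 1) (β l a j) =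
      β l (fun i => if i = 0 then cV k p (a i) + Finsupp.single k 1 else cV k p (a i)) (p + 1) := by
    intro l a j k p
    rw [hβ, hβ]
    unfold eT
    refine Prod.ext rfl (Prod.ext ?_ rfl)
    funext i
    show (if i = 0 then cV (k + 1) (p + 1) (Finsupp.single 0 (l.2 i) + shA (a i)) + Finsupp.single (k + 1) 1
      else cV (k + 1) (p + 1) (Finsupp.single 0 (l.2 i) + shA (a i))) =
      Finsupp.single 0 (l.2 i) + shA (if i = 0 then cV k p (a i) + Finsupp.single k 1 else cV k p (a i))
    by_cases h : i = 0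
    · rw [if_pos h, if_pos h, cV_succ, shA_add, shA_single, add_assoc]
    · rw [if_neg h, if_neg h, cV_succ]
  have hβs : ∀ b : BT s t, ∃ l a, b = β l a b.2.2 := by
    intro b
    choose a' ha' using fun i => a2_split (b.2.1 i)
    refine ⟨(b.1, fun i => b.2.1 i 0), a', ?_⟩
    rw [hβ]
    refine Prod.ext rfl (Prod.ext ?_ rfl)
    funext i
    exact ha' i
  obtain ⟨K, hK⟩ : ∃ K : AddSubgroup (QT s t), K = AddSubgroup.closure {f | ∃ l a, f = Finsupp.single (β l a 0) 1} :=
    ⟨_, rfl⟩
  have hKop : ∀ (o : QT s t →+ QT s t), (∀ l a, o (Finsupp.single (β l a 0) 1) ∈ K) → ∀ f ∈ K, o f ∈ K := by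
    intro o h f hf
    have h1 : K ≤ K.comap o := by
      nth_rewrite 1 [hK]
      rw [AddSubgroup.closure_le]
      rintro _ ⟨l, a, rfl⟩
      exact h l a
    exact h1 hf
  have hKg : ∀ l a, Finsupp.single (β l a 0) 1 ∈ K := by
    intro l a
    rw [hK]
    exact AddSubgroup.subset_closure ⟨l, a, rfl⟩
  have hKz : ∀ p, ∀ f ∈ K, oz p f ∈ K := by
    intro p
    refine hKop _ fun l a => ?_
    rw [hoz, opZ_single, hβz, sp_succ_zero]
    exact hKg _ _
  have hcK : ∀ k p l a, oc k p (Finsupp.single (β l a 0) 1) = Finsupp.single (β l (fun i => cV k p (a i)) 0) 1 := by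
    intro k p l a
    rw [hoc, opC_single, hβc, if_neg, add_zero]
    rw [hβ]
    exact (Nat.succ_ne_zero k).symm
  have hKc : ∀ k p, ∀ f ∈ K, oc k p f ∈ K := by
    intro k p
    refine hKop _ fun l a => ?_
    rw [hcK]
    exact hKg _ _
  have h4 : ∀ b : BT s t, (4 : ℕ) • (Finsupp.single b 1 : QT s t) = 0 := by
    intro b
    rw [Finsupp.smul_single, nsmul_eq_mul, mul_one]
    have e : ((4 : ℕ) : ZMod 4) = 0 := by decide
    rw [e, Finsupp.single_zero]
  obtain ⟨n1, hn1⟩ := acc_of_gen (s := s') (t := t) K (fun b => Finsupp.single (β (lab b.1) b.2.1 (b.2.2 + 1)) 1)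
    (by
      intro b
      show (4 : ℕ) • (Finsupp.single _ 1 : QT s t) ∈ K
      rw [h4]
      exact K.zero_mem) oz oc hKz (fun k p _ => hKc k p)
    (by
      intro p b
      have e : oz p (Finsupp.single (β (lab b.1) b.2.1 (b.2.2 + 1)) 1) =
          Finsupp.single (β (lab (zT p b).1) (zT p b).2.1 ((zT p b).2.2 + 1)) 1 := by
        rw [hoz, opZ_single, hβz, sp_succ]
        rfl
      show oz p (Finsupp.single (β (lab b.1) b.2.1 (b.2.2 + 1)) 1) - _ ∈ K
      rw [e, sub_self]
      exact K.zero_mem)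
    (by
      intro k p b hkp
      have e : oc k p (Finsupp.single (β (lab b.1) b.2.1 (b.2.2 + 1)) 1) =
          Finsupp.single (β (lab (cT k p b).1) (cT k p b).2.1 ((cT k p b).2.2 + 1)) 1 +
          if b.2.2 = k then Finsupp.single (β (lab (eT k p b).1) (eT k p b).2.1 ((eT k p b).2.2 + 1)) 1 else 0 := by
        rw [hoc, opC_single, hβc]
        by_cases h : b.2.2 = k
        · have h' : (β (lab b.1) b.2.1 (b.2.2 + 1)).2.2 = k + 1 := by
            rw [hβ, h]
          rw [if_pos h, if_pos h', hβe]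
          rfl
        · have h' : ¬ (β (lab b.1) b.2.1 (b.2.2 + 1)).2.2 = k + 1 := by
            rw [hβ]
            intro h2
            exact h (Nat.succ.inj h2)
          rw [if_neg h, if_neg h']
          rfl
      show oc k p (Finsupp.single (β (lab b.1) b.2.1 (b.2.2 + 1)) 1) - _ ∈ K
      rw [e]
      show _ - (_ + if b.2.2 = k then _ else 0) ∈ K
      rw [sub_self]
      exact K.zero_mem)
    (fun n => U n ⊔ K) (fun a b hab => sup_le_sup_right (hU hab) K) (fun n => le_sup_right)
    (by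
      intro n f hff
      clear hff
      have h1 : ∀ b : BT s t, Finsupp.single b (1 : ZMod 4) ∈ K ⊔ AddSubgroup.closure
          (Set.range fun b : BT s' t => (Finsupp.single (β (lab b.1) b.2.1 (b.2.2 + 1)) 1 : QT s t)) := by
        intro b
        obtain ⟨l, a, hb⟩ := hβs b
        rw [hb]
        rcases b.2.2 with _ | j
        · exact AddSubgroup.mem_sup_left (hKg _ _)
        · refine AddSubgroup.mem_sup_right (AddSubgroup.subset_closure ⟨(lab.symm l, a, j), ?_⟩)
          show Finsupp.single (β (lab (lab.symm l)) a (j + 1)) 1 = _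
          rw [Equiv.apply_symm_apply]
      induction f using Finsupp.induction_linear with
      | zero => exact AddSubgroup.zero_mem _
      | add f g hf hg => exact AddSubgroup.add_mem _ hf hg
      | single b c =>
        have e : (Finsupp.single b c : QT s t) = c.val • Finsupp.single b 1 := by
          rw [Finsupp.smul_single, nsmul_eq_mul, mul_one, ZMod.natCast_zmod_val]
        rw [e]
        exact AddSubgroup.nsmul_mem _ (h1 b) _)
    (by
      intro n p f hf
      have h1 : U n ⊔ K ≤ (U n ⊔ K).comap (oz p) := by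
        refine sup_le ?_ ?_
        · intro f hf
          refine AddSubgroup.mem_sup_left ?_
          rw [hoz]
          exact hZ n p f hf
        · intro f hf
          exact AddSubgroup.mem_sup_right (hKz p f hf)
      exact h1 hf)
    (by
      intro n k p hkp f hf
      have h1 : U n ⊔ K ≤ (U n ⊔ K).comap (oc k p) := by
        refine sup_le ?_ ?_
        · intro f hf
          refine AddSubgroup.mem_sup_left ?_
          rw [hoc]
          exact hC n k p hkp f hf
        · intro f hf
          exact AddSubgroup.mem_sup_right (hKc k p f hf)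
      exact h1 hf)
  obtain ⟨n2, hn2⟩ := acc_unm (s := s') (t := t + 1) (fun b => Finsupp.single (β (lab b.1) b.2 0) 1)
    (fun b => h4 _) oz oc
    (by
      intro p b
      show oz p (Finsupp.single (β (lab b.1) b.2 0) 1) = _
      rw [hoz, opZ_single, hβz, sp_succ_zero]
      rfl)
    (by
      intro k p b _
      exact hcK k p _ _)
    (fun n => U n ⊓ K) (fun a b hab => inf_le_inf_right K (hU hab))
    (by
      intro n
      refine le_trans inf_le_right ?_
      rw [hK]
      refine AddSubgroup.closure_mono ?_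
      rintro _ ⟨l, a, rfl⟩
      refine ⟨(lab.symm l, a), ?_⟩
      show Finsupp.single (β (lab (lab.symm l)) a 0) 1 = _
      rw [Equiv.apply_symm_apply])
    (by
      intro n p f hf
      refine ⟨?_, hKz p f hf.2⟩
      show oz p f ∈ U n
      rw [hoz]
      exact hZ n p f hf.1)
    (by
      intro n k p hkp f hf
      refine ⟨?_, hKc k p f hf.2⟩
      show oc k p f ∈ U n
      rw [hoc]
      exact hC n k p hkp f hf.1)
  refine ⟨max n1 n2, fun m hm => le_antisymm ?_ (hU hm)⟩
  intro f hf
  have h1 : f ∈ U (max n1 n2) ⊔ K := by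
    have h2 : f ∈ U m ⊔ K := AddSubgroup.mem_sup_left hf
    have h3 := hn1 m (le_trans (le_max_left _ _) hm)
    have h5 := hn1 (max n1 n2) (le_max_left _ _)
    rw [h3, ← h5] at h2
    exact h2
  obtain ⟨g, hg, k, hk, hgk⟩ := AddSubgroup.mem_sup.1 h1
  have h2 : k ∈ U m ⊓ K := by
    refine ⟨?_, hk⟩
    have e : k = f - g := by rw [← hgk, add_sub_cancel_left]
    rw [e]
    exact (U m).sub_mem hf (hU hm hg)
  have h3 := hn2 m (le_trans (le_max_right _ _) hm)
  have h5 := hn2 (max n1 n2) (le_max_right _ _)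
  rw [h3, ← h5] at h2
  rw [← hgk]
  exact (U (max n1 n2)).add_mem hg h2.1

end E4.N
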