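import Pool.Agent.Lib.MP_8a95e3_al.NY7

/-!
# NY8 : layers of words with substitutions which only fix the first letter
-/

namespace E4.N

open E4.J

variable {s t : ℕ}

/-- stable under all endomorphisms which fix `x_0` -/
def StX (C : Subgroup F) : Prop := ∀ θ : F →* F, θ (x 0) = x 0 → ∀ w ∈ C, θ w ∈ C

theorem StX.stP {C : Subgroup F} (h : StX C) : StP C := fun φ w hw => h (pls φ) (pls_zero φ) w hw

theorem pls_zE (p : ℕ) (w : F) : pls (zE p) w = zE (p + 1) w := by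
  refine hom_ext' (φ := pls (zE p)) (ψ := zE (p + 1)) (fun j => ?_) w
  rcases j with _ | j
  · rw [pls_zero, zE_x, sp_succ_zero]
  · rw [pls_succ, zE_x, zE_x, sh_x, sp_succ]

theorem pls_cE (k p : ℕ) (w : F) : pls (cE k p) w = cE (k + 1) (p + 1) w := by
  refine hom_ext' (φ := pls (cE k p)) (ψ := cE (k + 1) (p + 1)) (fun j => ?_) w
  rcases j with _ | j
  · rw [pls_zero, cE_x, if_neg (Nat.succ_ne_zero k).symm]
  · rw [pls_succ, cE_x, cE_x]
    by_cases h : j = k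
    · rw [if_pos h, if_pos (by omega), map_mul, sh_x, sh_x]
    · rw [if_neg h, if_neg (by omega), sh_x]

theorem cl_endo {θ : F →* F} {n : F} (h : cl n = 0) : cl (θ n) = 0 := by
  have h1 := mem_N2_of_cl h
  have h2 : N2 ≤ N2.comap θ := by
    unfold N2
    rw [Subgroup.closure_le]
    rintro _ ⟨g, rfl⟩
    show θ (g ^ 2) ∈ N2
    rw [map_pow]
    exact sq_mem_N2 _
  exact cl_N2 (h2 h1)

theorem cl_sh (w : F) : cl (sh w) = shA (cl w) := by
  induction w using FreeGroup.induction_on with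
  | C1 => rw [map_one, cl_one, shA_zero]
  | of j =>
    show cl (sh (x j)) = shA (cl (x j))
    rw [sh_x, cl_x, cl_x, shA_single]
  | inv_of j _ =>
    show cl (sh (x j)⁻¹) = shA (cl (x j)⁻¹)
    rw [map_inv, cl_inv, cl_inv, a2_neg, a2_neg, sh_x, cl_x, cl_x, shA_single]
  | mul a b ha hb => rw [map_mul, cl_mul, cl_mul, ha, hb, shA_add]

/-- Layers are transitive. -/
theorem lacc_trans {D C' C'' : Subgroup F} (hn : C''.Normal) (hst : StP C'') (hC : C' ≤ C'')
    (h1 : LAcc D C'') (h2 : LAcc C'' C') : LAcc D C' := by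
  intro U hU hCU hUg hUs
  obtain ⟨n1, hn1⟩ := h1 (fun n => U n ⊔ C'') (fun a b hab => sup_le_sup_right (hU hab) _) (fun n => le_sup_right)
    (fun n => sup_le (le_trans (hUg n) (sup_le (le_trans hC le_sup_left) le_sup_right)) le_sup_left) (by
      intro n φ w hw
      have h3 : U n ⊔ C'' ≤ (U n ⊔ C'').comap (pls φ) := by
        refine sup_le ?_ ?_
        · intro w hw
          exact Subgroup.mem_sup_left (hUs n φ w hw)
        · intro w hw
          exact Subgroup.mem_sup_right (hst φ w hw)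
      exact h3 hw)
  obtain ⟨n2, hn2⟩ := h2 (fun n => U n ⊓ C'') (fun a b hab => inf_le_inf_right _ (hU hab))
    (fun n => le_inf (hCU n) hC) (fun n => le_trans inf_le_right le_sup_right)
    (fun n φ w hw => ⟨hUs n φ w hw.1, hst φ w hw.2⟩)
  refine ⟨max n1 n2, fun m hm => le_antisymm ?_ (hU hm)⟩
  intro w hw
  have h3 : w ∈ U (max n1 n2) ⊔ C'' := by
    have h4 : w ∈ U m ⊔ C'' := Subgroup.mem_sup_left hw
    have h5 := hn1 m (le_trans (le_max_left _ _) hm)
    have h6 := hn1 (max n1 n2) (le_max_left _ _)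
    rw [h5, ← h6] at h4
    exact h4
  obtain ⟨u, hu, c, hc, huc⟩ := Subgroup.mem_sup_of_normal_right.1 h3
  have hc' : c = u⁻¹ * w := by rw [← huc, inv_mul_cancel_left]
  have h4 : c ∈ U m ⊓ C'' := by
    refine ⟨?_, hc⟩
    rw [hc']
    exact (U m).mul_mem ((U m).inv_mem (hU hm hu)) hw
  have h5 := hn2 m (le_trans (le_max_right _ _) hm)
  have h6 := hn2 (max n1 n2) (le_max_right _ _)
  rw [h5, ← h6] at h4
  rw [← huc]
  exact (U (max n1 n2)).mul_mem hu h4.1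

/-- **Transfer**, for substitutions fixing the first letter only. -/
theorem lacc_transferX {D C' : Subgroup F} (hn : C'.Normal) (Γ : Subgroup (Multiplicative (QT s t) × F))
    (hzero : ∀ w, (Multiplicative.ofAdd (0 : QT s t), w) ∈ Γ → w ∈ C')
    (hD : ∀ w ∈ D, ∃ m, (m, w) ∈ Γ)
    (hz : ∀ p m w, (m, w) ∈ Γ → (Multiplicative.ofAdd (opZ (p + 1) (Multiplicative.toAdd m)), zE (p + 1) w) ∈ Γ)
    (hc : ∀ k p m w, k < p → (m, w) ∈ Γ →
      (Multiplicative.ofAdd (opC (k + 1) (p + 1) (Multiplicative.toAdd m)), cE (k + 1) (p + 1) w) ∈ Γ) : LAcc D C' := by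
  intro U hU hC hUg hUs
  obtain ⟨V, hV⟩ : ∃ V : ℕ → AddSubgroup (QT s t), ∀ n m, m ∈ V n ↔ ∃ w ∈ U n, (Multiplicative.ofAdd m, w) ∈ Γ := by
    refine ⟨fun n => { carrier := {m | ∃ w ∈ U n, (Multiplicative.ofAdd m, w) ∈ Γ}
                       zero_mem' := ⟨1, (U n).one_mem, Γ.one_mem⟩
                       add_mem' := ?_
                       neg_mem' := ?_ }, fun n m => Iff.rfl⟩
    · rintro a b ⟨u, hu, h1⟩ ⟨v, hv, h2⟩
      exact ⟨u * v, (U n).mul_mem hu hv, Γ.mul_mem h1 h2⟩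
    · rintro a ⟨u, hu, h1⟩
      exact ⟨u⁻¹, (U n).inv_mem hu, Γ.inv_mem h1⟩
  obtain ⟨n, hn'⟩ := thmNL' s t V (by
      intro a b hab m hm
      rw [hV] at hm ⊢
      obtain ⟨w, hw, h1⟩ := hm
      exact ⟨w, hU hab hw, h1⟩)
    (by
      intro n p m hm
      rw [hV] at hm ⊢
      obtain ⟨w, hw, h1⟩ := hm
      refine ⟨zE (p + 1) w, ?_, hz p _ w h1⟩
      rw [← pls_zE]
      exact hUs n _ w hw)
    (by
      intro n k p hkp m hm
      rw [hV] at hm ⊢
      obtain ⟨w, hw, h1⟩ := hm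
      refine ⟨cE (k + 1) (p + 1) w, ?_, hc k p _ w hkp h1⟩
      rw [← pls_cE]
      exact hUs n _ w hw)
  refine ⟨n, fun m hm => le_antisymm (fun u hu => ?_) (hU hm)⟩
  obtain ⟨c, hc', d, hd, hcd⟩ := Subgroup.mem_sup_of_normal_left.1 (hUg m hu)
  obtain ⟨q, hq⟩ := hD d hd
  have hdm : d ∈ U m := by
    have e : d = c⁻¹ * u := by rw [← hcd, inv_mul_cancel_left]
    rw [e]
    exact (U m).mul_mem ((U m).inv_mem (hC m hc')) hu
  have h1 : Multiplicative.toAdd q ∈ V m := (hV m _).2 ⟨d, hdm, hq⟩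
  rw [hn' m hm, hV] at h1
  obtain ⟨d', hd', h2⟩ := h1
  have h3 : (Multiplicative.ofAdd (0 : QT s t), d * d'⁻¹) ∈ Γ := by
    have h4 := Γ.mul_mem hq (Γ.inv_mem h2)
    have e : (q, d) * (Multiplicative.ofAdd (Multiplicative.toAdd q), d')⁻¹ =
        (Multiplicative.ofAdd (0 : QT s t), d * d'⁻¹) := by
      refine Prod.ext ?_ rfl
      show q * q⁻¹ = 1
      rw [mul_inv_cancel]
    rwa [e] at h4
  have h4 := hzero _ h3
  rw [← hcd]
  refine (U n).mul_mem (hC n hc') ?_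
  have h5 := (U n).mul_mem (hC n h4) hd'
  rwa [inv_mul_cancel_right] at h5

/-- letters with a power of `x_0` in front -/
noncomputable def sg (ε : Fin t → ZMod 2) : F →* F :=
  FreeGroup.lift fun j => if h : 0 < j ∧ j - 1 < t then x 0 ^ (ε ⟨j - 1, h.2⟩).val * x j else x j

theorem sg_zero (ε : Fin t → ZMod 2) : sg ε (x 0) = x 0 := by
  unfold sg
  have h : FreeGroup.lift (fun j => if h : 0 < j ∧ j - 1 < t then x 0 ^ (ε ⟨j - 1, h.2⟩).val * x j else x j) (x 0) =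
      _ := FreeGroup.lift_apply_of
  rw [h, dif_neg (fun h => lt_irrefl _ h.1)]

theorem sg_succ (ε : Fin t → ZMod 2) {j : ℕ} (h : j < t) : sg ε (x (j + 1)) = x 0 ^ (ε ⟨j, h⟩).val * x (j + 1) := by
  unfold sg
  have h1 : FreeGroup.lift (fun j => if h : 0 < j ∧ j - 1 < t then x 0 ^ (ε ⟨j - 1, h.2⟩).val * x j else x j)
      (x (j + 1)) = _ := FreeGroup.lift_apply_of
  rw [h1, dif_pos ⟨Nat.succ_pos j, h⟩]
  rfl

theorem sg_succ' (ε : Fin t → ZMod 2) {j : ℕ} (h : ¬ j < t) : sg ε (x (j + 1)) = x (j + 1) := by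
  unfold sg
  have h1 : FreeGroup.lift (fun j => if h : 0 < j ∧ j - 1 < t then x 0 ^ (ε ⟨j - 1, h.2⟩).val * x j else x j)
      (x (j + 1)) = _ := FreeGroup.lift_apply_of
  rw [h1, dif_neg (fun h' => h h'.2)]

/-- **Insensitive words, substitutions fixing the first letter only.** -/
theorem lacc_layerX {C' : Subgroup F} (hn : C'.Normal) (hst : StP C') (h4 : ∀ w : F, w ^ 4 ∈ C') (r : Fin s → F)
    (hcomm : ∀ θ θ' : F →* F, ∀ i j, θ (x 0) = x 0 → θ' (x 0) = x 0 →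
      θ (r i) * θ' (r j) * (θ (r i))⁻¹ * (θ' (r j))⁻¹ ∈ C')
    (hins : ∀ θ θ' : F →* F, ∀ i, θ (x 0) = x 0 → θ' (x 0) = x 0 →
      (∀ j, cl (θ (x (j + 1))) = cl (θ' (x (j + 1)))) → (θ (r i))⁻¹ * θ' (r i) ∈ C') :
    LAcc (Subgroup.closure {w | ∃ (θ : F →* F) (i : Fin s), θ (x 0) = x 0 ∧ w = θ (r i)}) C' := by
  classical
  obtain ⟨T, hT⟩ := words_vars r
  obtain ⟨s', ⟨lab⟩⟩ : ∃ s' : ℕ, Nonempty (Fin s' ≃ Fin s × (Fin T → ZMod 2)) :=
    ⟨Fintype.card (Fin s × (Fin T → ZMod 2)), ⟨(Fintype.equivFin _).symm⟩⟩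
  have hz : ∀ (φ : F →* F) (ε : Fin T → ZMod 2), ((pls φ).comp (sg ε)) (x 0) = x 0 := by
    intro φ ε
    show pls φ (sg ε (x 0)) = x 0
    rw [sg_zero, pls_zero]
  have hcx : ∀ (φ : F →* F) (ε : Fin T → ZMod 2) (j : ℕ), cl (((pls φ).comp (sg ε)) (x (j + 1))) =
      (if h : j < T then Finsupp.single 0 (ε ⟨j, h⟩) else 0) + shA (cl (φ (x j))) := by
    intro φ ε j
    show cl (pls φ (sg ε (x (j + 1)))) = _
    have hpow : ∀ c : ZMod 2, cl (x 0 ^ c.val) = Finsupp.single 0 c := by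
      intro c
      have h01 : c = 0 ∨ c = 1 := by
        revert c
        decide
      rcases h01 with h | h
      · rw [h]
        show cl (x 0 ^ 0) = _
        rw [pow_zero, cl_one, Finsupp.single_zero]
      · rw [h]
        show cl (x 0 ^ 1) = _
        rw [pow_one, cl_x]
    by_cases h : j < T
    · rw [sg_succ ε h, map_mul, map_pow, pls_zero, pls_succ, cl_mul, cl_sh, hpow, dif_pos h]
    · rw [sg_succ' ε h, pls_succ, cl_sh, dif_neg h, zero_add]
  have hL : Layer C' (fun i' : Fin s' => sg (lab i').2 (r (lab i').1)) := by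
    constructor
    · intro φ ψ i j
      exact hcomm ((pls φ).comp (sg (lab i).2)) ((pls ψ).comp (sg (lab j).2)) _ _ (hz _ _) (hz _ _)
    · intro φ ψ i h
      refine hins ((pls φ).comp (sg (lab i).2)) ((pls ψ).comp (sg (lab i).2)) _ (hz _ _) (hz _ _) fun j => ?_
      rw [hcx, hcx, h]
  refine lacc_mono ?_ (lacc_layer hn hst h4 hL)
  rw [Subgroup.closure_le]
  rintro _ ⟨θ, i, hθ, rfl⟩
  choose a' ha' using fun j => a2_split (cl (θ (x (j + 1))))
  obtain ⟨θ', hθ'⟩ : ∃ θ' : F →* F, ∀ j, θ' (x j) = if j < T + 1 then θ (x j) else 1 := by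
    refine ⟨FreeGroup.lift fun j => if j < T + 1 then θ (x j) else 1, fun j => ?_⟩
    exact FreeGroup.lift_apply_of
  have e1 : θ (r i) = θ' (r i) := hT i _ _ fun j hj => by rw [hθ', if_pos (by omega)]
  have e2 : θ' (x 0) = x 0 := by rw [hθ', if_pos (Nat.succ_pos T), hθ]
  obtain ⟨φ, hφ⟩ : ∃ φ : F →* F, ∀ j, φ (x j) = if j < T then sec (a' j) else 1 := by
    refine ⟨FreeGroup.lift fun j => if j < T then sec (a' j) else 1, fun j => ?_⟩
    exact FreeGroup.lift_apply_of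
  obtain ⟨ε, hε⟩ : ∃ ε : Fin T → ZMod 2, ∀ j, ε j = cl (θ (x (j + 1))) 0 := ⟨_, fun j => rfl⟩
  have h1 : (((pls φ).comp (sg ε)) (r i))⁻¹ * θ' (r i) ∈ C' := by
    refine hins _ _ _ (hz _ _) e2 fun j => ?_
    rw [hcx, hφ, hθ']
    by_cases h : j < T
    · rw [dif_pos h, if_pos h, if_pos (by omega), cl_sec, hε]
      exact (ha' j).symm
    · rw [dif_neg h, if_neg h, if_neg (by omega), cl_one, shA_zero, add_zero]
  have h2 : ((pls φ).comp (sg ε)) (r i) ∈ Subgroup.closure {w | ∃ (φ : F →* F) (i : Fin s'),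
      w = pls φ (sg (lab i).2 (r (lab i).1))} := by
    refine Subgroup.subset_closure ⟨φ, lab.symm (i, ε), ?_⟩
    rw [Equiv.apply_symm_apply]
    rfl
  rw [e1]
  have e3 : θ' (r i) = ((pls φ).comp (sg ε)) (r i) * ((((pls φ).comp (sg ε)) (r i))⁻¹ * θ' (r i)) := by
    rw [mul_inv_cancel_left]
  rw [e3]
  exact Subgroup.mul_mem _ (Subgroup.mem_sup_right h2) (Subgroup.mem_sup_left h1)

end E4.N
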