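import Pool.Agent.Lib.MP_8a95e3_al.NY8

/-!
# NY9 : words with one slot in the subgroup of the squares, substitutions fixing the first letter only
-/

namespace E4.N

open E4.J

variable {s t : ℕ}

/-- the substitution -/
noncomputable def asx (v : Fin t → A2) (n : F) : F →* F :=
  FreeGroup.lift fun j => if j = 0 then x 0 else if j = 1 then n else sec (uc v (j - 2))

theorem asx_zero (v : Fin t → A2) (n : F) : asx v n (x 0) = x 0 := by
  unfold asx
  exact FreeGroup.lift_apply_of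

theorem asx_one (v : Fin t → A2) (n : F) : asx v n (x 1) = n := by
  unfold asx
  exact FreeGroup.lift_apply_of

theorem asx_succ (v : Fin t → A2) (n : F) (j : ℕ) : asx v n (x (j + 2)) = sec (uc v j) := by
  unfold asx
  exact FreeGroup.lift_apply_of

/-- **Chains in a layer of words with one slot in the subgroup of the squares.** -/
theorem lacc_sqX {C' : Subgroup F} (hn : C'.Normal) (hst : StX C') (h4 : ∀ w : F, w ^ 4 ∈ C') (r : Fin s → F)
    (hcomm : ∀ θ θ' : F →* F, ∀ i j, θ (x 0) = x 0 → θ' (x 0) = x 0 → cl (θ (x 1)) = 0 → cl (θ' (x 1)) = 0 →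
      θ (r i) * θ' (r j) * (θ (r i))⁻¹ * (θ' (r j))⁻¹ ∈ C')
    (hins : ∀ θ θ' : F →* F, ∀ i, θ (x 0) = x 0 → θ' (x 0) = x 0 → cl (θ (x 1)) = 0 → θ (x 1) = θ' (x 1) →
      (∀ j, cl (θ (x (j + 2))) = cl (θ' (x (j + 2)))) → (θ (r i))⁻¹ * θ' (r i) ∈ C')
    (hmul : ∀ θ θ' θ'' : F →* F, ∀ i, θ (x 0) = x 0 → θ' (x 0) = x 0 → θ'' (x 0) = x 0 →
      cl (θ (x 1)) = 0 → cl (θ' (x 1)) = 0 → θ'' (x 1) = θ (x 1) * θ' (x 1) →
      (∀ j, θ' (x (j + 2)) = θ (x (j + 2))) → (∀ j, θ'' (x (j + 2)) = θ (x (j + 2))) →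
      (θ'' (r i))⁻¹ * (θ (r i) * θ' (r i)) ∈ C') :
    LAcc (Subgroup.closure {w | ∃ (θ : F →* F) (i : Fin s), θ (x 0) = x 0 ∧ cl (θ (x 1)) = 0 ∧ w = θ (r i)}) C' := by
  classical
  obtain ⟨T, hT⟩ := words_vars r
  obtain ⟨vF, hvF⟩ : ∃ vF : Fin s → (Fin T → A2) → F → F ⧸ C', ∀ i v n, vF i v n =
      QuotientGroup.mk (asx v n (r i)) := ⟨_, fun i v n => rfl⟩
  have hval : ∀ (θ : F →* F) (i : Fin s), θ (x 0) = x 0 → cl (θ (x 1)) = 0 → (QuotientGroup.mk (θ (r i)) : F ⧸ C') =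
      vF i (fun j => cl (θ (x (j + 2)))) (θ (x 1)) := by
    intro θ i h0 h1
    obtain ⟨ψ, hψ⟩ : ∃ ψ : F →* F, ∀ j, ψ (x j) = if j < T + 2 then θ (x j) else 1 := by
      refine ⟨FreeGroup.lift fun j => if j < T + 2 then θ (x j) else 1, fun j => ?_⟩
      exact FreeGroup.lift_apply_of
    have e : θ (r i) = ψ (r i) := hT i _ _ fun j hj => by rw [hψ, if_pos (by omega)]
    have h0' : ψ (x 0) = x 0 := by rw [hψ, if_pos (by omega), h0]
    have h1' : ψ (x 1) = θ (x 1) := by rw [hψ, if_pos (by omega)]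
    rw [e, hvF, QuotientGroup.eq]
    refine hins _ _ _ h0' (asx_zero _ _) (by rw [h1']; exact h1) (by rw [h1', asx_one]) fun j => ?_
    rw [asx_succ, cl_sec, hψ]
    unfold uc
    by_cases hj : j < T
    · rw [if_pos (by omega), dif_pos hj]
    · rw [if_neg (by omega), dif_neg hj, cl_one]
  obtain ⟨A, hA⟩ : ∃ A : Subgroup (F ⧸ C'), A = Subgroup.closure {y | ∃ i v n, cl n = 0 ∧ y = vF i v n} := ⟨_, rfl⟩
  have hAc : ∀ a ∈ A, ∀ b ∈ A, a * b = b * a := by
    rw [hA]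
    refine comm_closure ?_
    rintro _ ⟨i, v, n, hn', rfl⟩ _ ⟨j, v', m, hm', rfl⟩
    rw [hvF, hvF]
    refine mk_comm hn ?_
    exact hcomm _ _ _ _ (asx_zero _ _) (asx_zero _ _) (by rw [asx_one]; exact hn') (by rw [asx_one]; exact hm')
  let _ : CommGroup A := { (inferInstance : Group A) with mul_comm := fun a b => Subtype.ext (hAc a a.2 b b.2) }
  have hvA : ∀ i v n, cl n = 0 → vF i v n ∈ A := fun i v n h => by rw [hA]; exact Subgroup.subset_closure ⟨i, v, n, h, rfl⟩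
  have hM : ∀ a b : Additive A, ((Additive.toMul a : A) : F ⧸ C') = (Additive.toMul b : A) → a = b := by
    intro a b h
    exact Additive.toMul.injective (Subtype.ext h)
  obtain ⟨val, hv⟩ : ∃ val : Fin s → (Fin T → A2) → F → Additive A, ∀ i v n, cl n = 0 →
      ((Additive.toMul (val i v n) : A) : F ⧸ C') = vF i v n :=
    ⟨fun i v n => if h : cl n = 0 then Additive.ofMul ⟨vF i v n, hvA i v n h⟩ else 0, fun i v n h => by
      show ((Additive.toMul (if h : cl n = 0 then Additive.ofMul (⟨vF i v n, hvA i v n h⟩ : A) else 0) : A) : F ⧸ C') = _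
      rw [dif_pos h]
      rfl⟩
  obtain ⟨val', hv', hv0⟩ : ∃ val' : Fin s → (Fin T → A2) → F → Additive A, (∀ i v n, cl n = 0 → val' i v n = val i v n) ∧
      ∀ i v n, ¬ cl n = 0 → val' i v n = 0 :=
    ⟨fun i v n => if cl n = 0 then val i v n else 0, fun i v n h => if_pos h, fun i v n h => if_neg h⟩
  obtain ⟨τ, hτ⟩ := exists_rw (s := s) (t := T) val' (by
      intro i v n
      by_cases h : cl n = 0
      · rw [hv' i v n h]
        apply hM
        show ((Additive.toMul (val i v n) : A) : F ⧸ C') ^ 4 = 1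
        rw [hv i v n h, hvF, ← QuotientGroup.mk_pow, QuotientGroup.eq_one_iff]
        exact h4 _
      · rw [hv0 i v n h, smul_zero])
    (by
      intro i v n m hn' hm'
      have hnm : cl (n * m) = 0 := by rw [cl_mul, hn', hm', add_zero]
      rw [hv' i v _ hnm, hv' i v _ hn', hv' i v _ hm']
      apply hM
      show ((Additive.toMul (val i v (n * m)) : A) : F ⧸ C') =
        ((Additive.toMul (val i v n) : A) : F ⧸ C') * ((Additive.toMul (val i v m) : A) : F ⧸ C')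
      rw [hv i v _ hnm, hv i v _ hn', hv i v _ hm', hvF, hvF, hvF, ← QuotientGroup.mk_mul, QuotientGroup.eq]
      refine hmul _ _ _ _ (asx_zero _ _) (asx_zero _ _) (asx_zero _ _) (by rw [asx_one]; exact hn')
        (by rw [asx_one]; exact hm') (by rw [asx_one, asx_one, asx_one]) (fun j => ?_) fun j => ?_
      · rw [asx_succ, asx_succ]
      · rw [asx_succ, asx_succ])
  have hτ' : ∀ i v n, cl n = 0 → ((Additive.toMul (τ (dQ i v n)) : A) : F ⧸ C') = vF i v n := by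
    intro i v n h
    rw [hτ i v n h, hv' i v n h, hv i v n h]
  -- the endomorphisms
  have hq : ∀ φ : F →* F, φ (x 0) = x 0 → ∃ f : F ⧸ C' →* F ⧸ C', ∀ w : F, f (QuotientGroup.mk w) = QuotientGroup.mk (φ w) :=
    fun φ h => ⟨QuotientGroup.map C' C' φ (fun w hw => hst φ h w hw), fun w => rfl⟩
  have hqv : ∀ (φ : F →* F) (f : F ⧸ C' →* F ⧸ C'), φ (x 0) = x 0 →
      (∀ w : F, f (QuotientGroup.mk w) = QuotientGroup.mk (φ w)) → ∀ i v n, cl n = 0 →
      f (vF i v n) = vF i (fun j => cl (φ (sec (uc v j)))) (φ n) := by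
    intro φ f h0 hf i v n h1
    have h2 : cl (φ n) = 0 := cl_endo h1
    have h3 : (φ.comp (asx v n)) (x 0) = x 0 := by
      show φ (asx v n (x 0)) = x 0
      rw [asx_zero, h0]
    have h5 : (φ.comp (asx v n)) (x 1) = φ n := by
      show φ (asx v n (x 1)) = φ n
      rw [asx_one]
    have h6 : (QuotientGroup.mk (φ (asx v n (r i))) : F ⧸ C') = vF i (fun j => cl ((φ.comp (asx v n)) (x (j + 2))))
        ((φ.comp (asx v n)) (x 1)) := hval (φ.comp (asx v n)) i h3 (by rw [h5]; exact h2)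
    rw [hvF, hf, h6, h5]
    congr 1
    funext j
    show cl (φ (asx v n (x (j + 2)))) = _
    rw [asx_succ]
  have hz0 : ∀ p, zE (p + 1) (x 0) = x 0 := fun p => by rw [zE_x, sp_succ_zero]
  have hc0 : ∀ k p, cE (k + 1) (p + 1) (x 0) = x 0 := fun k p => by rw [cE_x, if_neg (Nat.succ_ne_zero k).symm]
  -- the submodule
  obtain ⟨M', hM'⟩ : ∃ M' : AddSubgroup (QT s T), M' = AddSubgroup.closure {m | ∃ i v n, cl n = 0 ∧ m = dQ i v n} :=
    ⟨_, rfl⟩
  have hgM : ∀ i v n, cl n = 0 → dQ i v n ∈ M' := fun i v n h => by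
    rw [hM']
    exact AddSubgroup.subset_closure ⟨i, v, n, h, rfl⟩
  have hop : ∀ (o : QT s T →+ QT s T) (f : F ⧸ C' →* F ⧸ C')
      (_ : ∀ i v n, cl n = 0 → o (dQ i v n) ∈ M' ∧ ((Additive.toMul (τ (o (dQ i v n))) : A) : F ⧸ C') = f (vF i v n)),
      ∀ m ∈ M', o m ∈ M' ∧ ((Additive.toMul (τ (o m)) : A) : F ⧸ C') = f (Additive.toMul (τ m) : A) := by
    intro o f h m hm
    rw [hM'] at hm
    induction hm using AddSubgroup.closure_induction with
    | mem y hy =>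
      obtain ⟨i, v, n, hn', rfl⟩ := hy
      refine ⟨(h i v n hn').1, ?_⟩
      rw [(h i v n hn').2, hτ' i v n hn']
    | zero =>
      have e1 : o 0 = 0 := map_zero o
      have e2 : τ 0 = 0 := map_zero τ
      rw [e1, e2]
      refine ⟨M'.zero_mem, ?_⟩
      show (1 : F ⧸ C') = f 1
      rw [map_one]
    | add a b _ _ ha hb =>
      have e1 : o (a + b) = o a + o b := map_add o a b
      have e2 : τ (o a + o b) = τ (o a) + τ (o b) := map_add τ _ _
      have e3 : τ (a + b) = τ a + τ b := map_add τ a b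
      rw [e1, e2, e3]
      refine ⟨M'.add_mem ha.1 hb.1, ?_⟩
      show ((Additive.toMul (τ (o a)) : A) : F ⧸ C') * ((Additive.toMul (τ (o b)) : A) : F ⧸ C') =
        f (((Additive.toMul (τ a) : A) : F ⧸ C') * ((Additive.toMul (τ b) : A) : F ⧸ C'))
      rw [map_mul, ha.2, hb.2]
    | neg a _ ha =>
      have e1 : o (-a) = -o a := map_neg o a
      have e2 : τ (-o a) = -τ (o a) := map_neg τ _
      have e3 : τ (-a) = -τ a := map_neg τ a
      rw [e1, e2, e3]
      refine ⟨M'.neg_mem ha.1, ?_⟩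
      show ((Additive.toMul (τ (o a)) : A) : F ⧸ C')⁻¹ = f (((Additive.toMul (τ a) : A) : F ⧸ C')⁻¹)
      rw [map_inv, ha.2]
  have hzM : ∀ p, ∀ m ∈ M', (opZ (p + 1) m : QT s T) ∈ M' ∧ ∀ w : F,
      ((Additive.toMul (τ m) : A) : F ⧸ C') = QuotientGroup.mk w →
      ((Additive.toMul (τ (opZ (p + 1) m)) : A) : F ⧸ C') = QuotientGroup.mk (zE (p + 1) w) := by
    intro p m hm
    obtain ⟨f, hf⟩ := hq (zE (p + 1)) (hz0 p)
    obtain ⟨h1, h2⟩ := hop (opZ (p + 1) : QT s T →ₗ[ZMod 4] QT s T).toAddMonoidHom f (by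
      intro i v n h
      have e : (opZ (p + 1) : QT s T →ₗ[ZMod 4] QT s T).toAddMonoidHom (dQ i v n) =
          dQ i (fun k => zV (p + 1) (v k)) (zE (p + 1) n) := dQ_zE (p + 1) i v n
      have h1 : cl (zE (p + 1) n) = 0 := cl_endo h
      rw [e]
      refine ⟨hgM _ _ _ h1, ?_⟩
      rw [hτ' _ _ _ h1, hqv _ f (hz0 p) hf i v n h]
      congr 1
      funext j
      rw [cl_zE, cl_sec]
      unfold uc
      rw [dif_pos j.2]) m hm
    refine ⟨h1, fun w hw => ?_⟩
    rw [hw, hf] at h2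
    exact h2
  have hcM : ∀ k p, ∀ m ∈ M', (opC (k + 1) (p + 1) m : QT s T) ∈ M' ∧ ∀ w : F,
      ((Additive.toMul (τ m) : A) : F ⧸ C') = QuotientGroup.mk w →
      ((Additive.toMul (τ (opC (k + 1) (p + 1) m)) : A) : F ⧸ C') = QuotientGroup.mk (cE (k + 1) (p + 1) w) := by
    intro k p m hm
    obtain ⟨f, hf⟩ := hq (cE (k + 1) (p + 1)) (hc0 k p)
    obtain ⟨h1, h2⟩ := hop (opC (k + 1) (p + 1) : QT s T →ₗ[ZMod 4] QT s T).toAddMonoidHom f (by
      intro i v n h
      have e : (opC (k + 1) (p + 1) : QT s T →ₗ[ZMod 4] QT s T).toAddMonoidHom (dQ i v n) =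
          dQ i (fun l => cV (k + 1) (p + 1) (v l)) (cE (k + 1) (p + 1) n) := dQ_cE (k + 1) (p + 1) i v n
      have h1 : cl (cE (k + 1) (p + 1) n) = 0 := cl_endo h
      rw [e]
      refine ⟨hgM _ _ _ h1, ?_⟩
      rw [hτ' _ _ _ h1, hqv _ f (hc0 k p) hf i v n h]
      congr 1
      funext j
      rw [cl_cE, cl_sec]
      unfold uc
      rw [dif_pos j.2]) m hm
    refine ⟨h1, fun w hw => ?_⟩
    rw [hw, hf] at h2
    exact h2
  obtain ⟨Γ, hΓ⟩ : ∃ Γ : Subgroup (Multiplicative (QT s T) × F), ∀ m w, (m, w) ∈ Γ ↔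
      (Multiplicative.toAdd m ∈ M' ∧ ((Additive.toMul (τ (Multiplicative.toAdd m)) : A) : F ⧸ C') = QuotientGroup.mk w) := by
    refine ⟨{ carrier := {y | Multiplicative.toAdd y.1 ∈ M' ∧
                ((Additive.toMul (τ (Multiplicative.toAdd y.1)) : A) : F ⧸ C') = QuotientGroup.mk y.2}
              one_mem' := ⟨M'.zero_mem, ?_⟩
              mul_mem' := ?_
              inv_mem' := ?_ }, fun m w => Iff.rfl⟩
    · rintro ⟨a, u⟩ ⟨b, v⟩ ⟨h1, h2⟩ ⟨h3, h5⟩
      refine ⟨M'.add_mem h1 h3, ?_⟩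
      show ((Additive.toMul (τ (Multiplicative.toAdd a + Multiplicative.toAdd b)) : A) : F ⧸ C') = QuotientGroup.mk (u * v)
      rw [map_add]
      show ((Additive.toMul (τ (Multiplicative.toAdd a)) : A) : F ⧸ C') *
        ((Additive.toMul (τ (Multiplicative.toAdd b)) : A) : F ⧸ C') = _
      rw [QuotientGroup.mk_mul]
      exact congrArg₂ (· * ·) h2 h5
    · show ((Additive.toMul (τ (0 : QT s T)) : A) : F ⧸ C') = QuotientGroup.mk (1 : F)
      rw [map_zero]
      rfl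
    · rintro ⟨a, u⟩ ⟨h1, h2⟩
      refine ⟨M'.neg_mem h1, ?_⟩
      show ((Additive.toMul (τ (-Multiplicative.toAdd a)) : A) : F ⧸ C') = QuotientGroup.mk (u⁻¹)
      rw [map_neg]
      show ((Additive.toMul (τ (Multiplicative.toAdd a)) : A) : F ⧸ C')⁻¹ = _
      rw [QuotientGroup.mk_inv]
      exact congrArg (·⁻¹) h2
  refine lacc_transferX hn Γ ?_ ?_ ?_ ?_
  · intro w hw
    rw [hΓ] at hw
    have h1 := hw.2
    have e : τ (Multiplicative.toAdd (Multiplicative.ofAdd (0 : QT s T))) = 0 := map_zero τ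
    rw [e] at h1
    have h2 : (1 : F ⧸ C') = QuotientGroup.mk w := h1
    exact (QuotientGroup.eq_one_iff w).1 h2.symm
  · intro w hw
    induction hw using Subgroup.closure_induction with
    | mem y hy =>
      obtain ⟨θ, i, h0, h1, rfl⟩ := hy
      refine ⟨Multiplicative.ofAdd (dQ i (fun j => cl (θ (x (j + 2)))) (θ (x 1))), ?_⟩
      rw [hΓ]
      exact ⟨hgM _ _ _ h1, by rw [hval θ i h0 h1]; exact hτ' _ _ _ h1⟩
    | one => exact ⟨1, Γ.one_mem⟩
    | mul a b _ _ ha hb =>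
      obtain ⟨m, hm⟩ := ha
      obtain ⟨m', hm'⟩ := hb
      exact ⟨m * m', Γ.mul_mem hm hm'⟩
    | inv a _ ha =>
      obtain ⟨m, hm⟩ := ha
      exact ⟨m⁻¹, Γ.inv_mem hm⟩
  · intro p m w h
    rw [hΓ] at h
    rw [hΓ]
    obtain ⟨h1, h2⟩ := hzM p _ h.1
    exact ⟨h1, h2 w h.2⟩
  · intro k p m w _ h
    rw [hΓ] at h
    rw [hΓ]
    obtain ⟨h1, h2⟩ := hcM k p _ h.1
    exact ⟨h1, h2 w h.2⟩

end E4.N
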