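import Pool.Agent.Lib.MP_8a95e3_al.NY6

/-!
# NYa : chains of subgroups of an additive group, one slot in the subgroup of the squares
-/

namespace E4.N

open E4.J

variable {s t : ℕ}

theorem acc_sq {M : Type} [AddCommGroup M] (val : Fin s → (Fin t → A2) → F → M) (h4 : ∀ i v n, (4 : ℕ) • val i v n = 0)
    (hadd : ∀ i v n m, cl n = 0 → cl m = 0 → val i v (n * m) = val i v n + val i v m)
    (zM : ℕ → M →+ M) (cM : ℕ → ℕ → M →+ M)
    (hz : ∀ p i v n, cl n = 0 → zM p (val i v n) = val i (fun k => zV p (v k)) (zE p n))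
    (hc : ∀ k p i v n, k < p → cl n = 0 → cM k p (val i v n) = val i (fun l => cV k p (v l)) (cE k p n))
    (U : ℕ → AddSubgroup M) (hU : Monotone U)
    (hs : ∀ n, U n ≤ AddSubgroup.closure {m | ∃ i v n, cl n = 0 ∧ m = val i v n})
    (hZ : ∀ n p, ∀ m ∈ U n, zM p m ∈ U n) (hC : ∀ n k p, k < p → ∀ m ∈ U n, cM k p m ∈ U n) :
    ∃ n, ∀ m ≥ n, U m = U n := by
  obtain ⟨τ, hτ⟩ := exists_rw val h4 hadd
  obtain ⟨M', hM'⟩ : ∃ M' : AddSubgroup (QT s t), M' = AddSubgroup.closure {m | ∃ i v n, cl n = 0 ∧ m = dQ i v n} :=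
    ⟨_, rfl⟩
  have hgM : ∀ i v n, cl n = 0 → dQ i v n ∈ M' := fun i v n h => by
    rw [hM']
    exact AddSubgroup.subset_closure ⟨i, v, n, h, rfl⟩
  have hop : ∀ (op : QT s t →+ QT s t) (f : M →+ M)
      (_ : ∀ i v n, cl n = 0 → op (dQ i v n) ∈ M' ∧ τ (op (dQ i v n)) = f (val i v n)),
      ∀ m ∈ M', op m ∈ M' ∧ τ (op m) = f (τ m) := by
    intro op f h m hm
    rw [hM'] at hm
    induction hm using AddSubgroup.closure_induction with
    | mem y hy =>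
      obtain ⟨i, v, n, hn', rfl⟩ := hy
      refine ⟨(h i v n hn').1, ?_⟩
      rw [(h i v n hn').2, hτ i v n hn']
    | zero =>
      rw [map_zero, map_zero, map_zero]
      exact ⟨M'.zero_mem, rfl⟩
    | add a b _ _ ha hb =>
      rw [map_add, map_add, map_add, map_add, ha.2, hb.2]
      exact ⟨M'.add_mem ha.1 hb.1, rfl⟩
    | neg a _ ha =>
      rw [map_neg, map_neg, map_neg, map_neg, ha.2]
      exact ⟨M'.neg_mem ha.1, rfl⟩
  have hzM : ∀ p, ∀ m ∈ M', (opZ p m : QT s t) ∈ M' ∧ τ (opZ p m) = zM p (τ m) := by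
    intro p
    refine hop (opZ p : QT s t →ₗ[ZMod 4] QT s t).toAddMonoidHom (zM p) fun i v n h => ?_
    have e : (opZ p : QT s t →ₗ[ZMod 4] QT s t).toAddMonoidHom (dQ i v n) = dQ i (fun k => zV p (v k)) (zE p n) :=
      dQ_zE p i v n
    have h1 : cl (zE p n) = 0 := by rw [cl_zE, h, zV_zero]
    rw [e]
    exact ⟨hgM _ _ _ h1, by rw [hτ _ _ _ h1, hz p i v n h]⟩
  have hcM : ∀ k p, k < p → ∀ m ∈ M', (opC k p m : QT s t) ∈ M' ∧ τ (opC k p m) = cM k p (τ m) := by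
    intro k p hkp
    refine hop (opC k p : QT s t →ₗ[ZMod 4] QT s t).toAddMonoidHom (cM k p) fun i v n h => ?_
    have e : (opC k p : QT s t →ₗ[ZMod 4] QT s t).toAddMonoidHom (dQ i v n) = dQ i (fun l => cV k p (v l)) (cE k p n) :=
      dQ_cE k p i v n
    have h1 : cl (cE k p n) = 0 := by rw [cl_cE, h, cV_zero]
    rw [e]
    exact ⟨hgM _ _ _ h1, by rw [hτ _ _ _ h1, hc k p i v n hkp h]⟩
  obtain ⟨n, hn⟩ := thmNL s t (fun n => M' ⊓ (U n).comap τ)
    (fun a b hab m hm => ⟨hm.1, hU hab hm.2⟩)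
    (fun n p m hm => by
      obtain ⟨h1, h2⟩ := hzM p m hm.1
      refine ⟨h1, ?_⟩
      show τ (opZ p m) ∈ U n
      rw [h2]
      exact hZ n p _ hm.2)
    (fun n k p hkp m hm => by
      obtain ⟨h1, h2⟩ := hcM k p hkp m hm.1
      refine ⟨h1, ?_⟩
      show τ (opC k p m) ∈ U n
      rw [h2]
      exact hC n k p hkp _ hm.2)
  refine ⟨n, fun m hm => le_antisymm (fun u hu => ?_) (hU hm)⟩
  have key : ∀ y ∈ AddSubgroup.closure {m | ∃ i v n, cl n = 0 ∧ m = val i v n}, ∃ q ∈ M', τ q = y := by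
    intro y hy
    induction hy using AddSubgroup.closure_induction with
    | mem y hy =>
      obtain ⟨i, v, n, hn', rfl⟩ := hy
      exact ⟨dQ i v n, hgM i v n hn', hτ i v n hn'⟩
    | zero => exact ⟨0, M'.zero_mem, map_zero τ⟩
    | add a b _ _ ha hb =>
      obtain ⟨a', ha', rfl⟩ := ha
      obtain ⟨b', hb', rfl⟩ := hb
      exact ⟨a' + b', M'.add_mem ha' hb', map_add τ _ _⟩
    | neg a _ ha =>
      obtain ⟨a', ha', rfl⟩ := ha
      exact ⟨-a', M'.neg_mem ha', map_neg τ _⟩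
  obtain ⟨q, hq, rfl⟩ := key u (hs m hu)
  have h1 : q ∈ M' ⊓ (U m).comap τ := ⟨hq, hu⟩
  have h2 : M' ⊓ (U m).comap τ = M' ⊓ (U n).comap τ := hn m hm
  rw [h2] at h1
  exact h1.2

end E4.N
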