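import Pool.Agent.Lib.MP_8a95e3_al.X03b

/-!
# X04a : the projection `QL`, full decompositions
-/

noncomputable section

namespace E4.X

open E4

theorem QL_apply (L : Finset ℕ) (f : FB) : QL L f = ∑ U ∈ L.powerset, eB (kls U) f := by
  simp [QL]

private theorem X04a_rp_kls (j : ℕ) (U : Finset ℕ) (f : FB) :
    eB (rp j 1) (eB (kls U) f) = eB (kls (insert j U)) f := by
  rw [eB_comp]
  congr 1
  refine congrArg eB (hom_ext fun i => ?_)
  rw [MonoidHom.comp_apply, kls_x, kls_x]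
  by_cases h1 : i ∈ U
  · rw [if_pos h1, if_pos (Finset.mem_insert_of_mem h1), map_one]
  · rw [if_neg h1, rp_x]
    by_cases h2 : i = j
    · rw [if_pos h2, if_pos (by rw [h2]; exact Finset.mem_insert_self _ _)]
    · rw [if_neg h2, if_neg (by simp [h1, h2])]

private theorem X04a_kls_empty (f : FB) : eB (kls ∅) f = f := by
  refine eB_id _ (fun i => ?_) f
  simp

/-- PROOF.  `eB (rp j 1) (eB (kls U) f) = eB (kls (insert j U)) f` (`eB_comp`, `hom_ext`); the sum over `U ∈ L.powerset` of `eB (kls (insert j U)) f` is zero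
because `U` and `U ∆ {j}` give the same term (`Finset.sum_involution`, `fb_add_self`). -/
theorem QL_kill {L : Finset ℕ} {j : ℕ} (hj : j ∈ L) (f : FB) : eB (rp j 1) (QL L f) = 0 := by
  rw [QL_apply, map_sum]
  obtain ⟨M, hM, rfl⟩ : ∃ M : Finset ℕ, j ∉ M ∧ insert j M = L :=
    ⟨L.erase j, Finset.notMem_erase j L, Finset.insert_erase hj⟩
  rw [Finset.sum_powerset_insert hM]
  have h1 : ∑ t ∈ M.powerset, eB (rp j 1) (eB (kls (insert j t)) f) =
      ∑ t ∈ M.powerset, eB (rp j 1) (eB (kls t) f) := by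
    refine Finset.sum_congr rfl fun t _ => ?_
    rw [X04a_rp_kls, X04a_rp_kls, Finset.insert_idem]
  rw [h1]
  exact fb_add_self _

/-- PROOF: `eB (kls U) f = 0` for `U ≠ ∅` (`kls U = (kls (U.erase j)).comp (rp j 1)`-type factorisation: `eB (kls U) f = eB (kls U) (eB (rp j 1) f)` for `j ∈ U`), and `kls ∅ = id`. -/
theorem QL_eq {L : Finset ℕ} {f : FB} (h : ∀ j ∈ L, eB (rp j 1) f = 0) : QL L f = f := by
  rw [QL_apply, Finset.sum_eq_single ∅]
  · exact X04a_kls_empty f
  · intro U hU hU0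
    obtain ⟨j, hj⟩ := Finset.nonempty_iff_ne_empty.2 hU0
    have h1 : eB (kls U) f = eB (kls U) (eB (rp j 1) f) := by
      rw [eB_comp]
      congr 1
      refine congrArg eB (hom_ext fun i => ?_)
      rw [MonoidHom.comp_apply, rp_x]
      by_cases h2 : i = j
      · rw [if_pos h2, map_one, kls_x, if_pos (by rw [h2]; exact hj)]
      · rw [if_neg h2]
    rw [h1, h j (Finset.mem_powerset.1 hU hj), map_zero]
  · intro h0
    exact absurd (Finset.empty_mem_powerset L) h0

/-- PROOF: `kls U` is a composition of `rp j 1`, `j ∈ U`: induction on `U` (`eB (kls (insert j U)) f = eB (rp j 1) (eB (kls U) f)`). -/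
theorem kls_mem {W : AddSubgroup FB} {L : Finset ℕ} (hW : ∀ j ∈ L, ∀ w ∈ W, eB (rp j 1) w ∈ W) {U : Finset ℕ} (hU : U ⊆ L)
    {w : FB} (hw : w ∈ W) : eB (kls U) w ∈ W := by
  induction U using Finset.induction_on with
  | empty =>
    rw [X04a_kls_empty]
    exact hw
  | insert j U _ ih =>
    rw [← X04a_rp_kls]
    exact hW j (hU (Finset.mem_insert_self _ _)) _
      (ih ((Finset.subset_insert _ _).trans hU))

theorem QL_mem {W : AddSubgroup FB} {L : Finset ℕ} (hW : ∀ j ∈ L, ∀ w ∈ W, eB (rp j 1) w ∈ W) {w : FB} (hw : w ∈ W) :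
    QL L w ∈ W := by
  rw [QL_apply]
  exact sum_mem fun U hU => kls_mem hW (Finset.mem_powerset.1 hU) hw

/-- `QL` commutes with an endomorphism which commutes with the killing of the letters in `L`.  PROOF: `kls U` commutes with `φ` for `U ⊆ L` (induction on `U`, `hom_ext`). -/
theorem QL_comm {L : Finset ℕ} (φ : F →* F) (h : ∀ j ∈ L, (rp j 1).comp φ = φ.comp (rp j 1)) (f : FB) :
    eB φ (QL L f) = QL L (eB φ f) := by
  have key : ∀ U : Finset ℕ, U ⊆ L → ∀ g : FB, eB φ (eB (kls U) g) = eB (kls U) (eB φ g) := by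
    intro U
    induction U using Finset.induction_on with
    | empty =>
      intro _ g
      rw [X04a_kls_empty, X04a_kls_empty]
    | insert j U _ ih =>
      intro hU g
      have h1 := ih ((Finset.subset_insert _ _).trans hU) g
      rw [← X04a_rp_kls, ← X04a_rp_kls, ← h1, eB_comp φ (rp j 1), eB_comp (rp j 1) φ,
        h j (hU (Finset.mem_insert_self _ _))]
  rw [QL_apply, QL_apply, map_sum]
  exact Finset.sum_congr rfl fun U hU => key U (Finset.mem_powerset.1 hU) f

/-- `QL` keeps functions of the letters `M`.  PROOF: `QL_comm` with `φ = ret M`. -/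
theorem QL_ret {L M : Finset ℕ} {f : FB} (h : eB (ret M) f = f) : eB (ret M) (QL L f) = QL L f := by
  rw [QL_comm (ret M), h]
  intro j _
  refine hom_ext fun i => ?_
  rw [MonoidHom.comp_apply, MonoidHom.comp_apply, ret_x, rp_x]
  by_cases h1 : i = j
  · rw [if_pos h1, map_one]
    split_ifs
    · rw [rp_x, if_pos h1]
    · rw [map_one]
  · rw [if_neg h1, ret_x]
    split_ifs
    · rw [rp_x, if_neg h1]
    · rw [map_one]

/-- projecting a decomposition: if `f = a + b` is full (letters `M`), `a ∈ A`, `b ∈ B` and `A`, `B` are stable under `ret M` and the killing of the letters of `M`, then `a`, `b` may be taken full.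
PROOF: apply `eB (ret M)` and `QL M` (`QL_eq`, `QL_mem`, `QL_kill`, `QL_ret`). -/
theorem full_dec {A B : AddSubgroup FB} {M : Finset ℕ} {f : FB} (hf : Full M f) (h : f ∈ A ⊔ B)
    (hA : ∀ a ∈ A, eB (ret M) a ∈ A) (hA' : ∀ j ∈ M, ∀ a ∈ A, eB (rp j 1) a ∈ A)
    (hB : ∀ a ∈ B, eB (ret M) a ∈ B) (hB' : ∀ j ∈ M, ∀ a ∈ B, eB (rp j 1) a ∈ B) :
    ∃ a ∈ A, ∃ b ∈ B, f = a + b ∧ Full M a ∧ Full M b := by
  obtain ⟨a, ha, b, hb, hab⟩ := AddSubgroup.mem_sup.1 h
  have hr : ∀ g : FB, eB (ret M) (eB (ret M) g) = eB (ret M) g := fun g => by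
    rw [eB_comp, ret_ret, Finset.inter_self]
  refine ⟨QL M (eB (ret M) a), QL_mem hA' (hA a ha), QL M (eB (ret M) b), QL_mem hB' (hB b hb), ?_,
    ⟨fun j hj => QL_kill hj _, QL_ret (hr a)⟩, ⟨fun j hj => QL_kill hj _, QL_ret (hr b)⟩⟩
  rw [← map_add, ← map_add, hab, hf.inn, QL_eq hf.kill]

/-- PROOF: `(sqs Q).comp (rp j g)` etc. on the letters (`hom_ext`). -/
theorem sqs_union (Q Q' : Finset ℕ) (h : Disjoint Q Q') (f : FB) : eB (sqs Q) (eB (sqs Q') f) = eB (sqs (Q ∪ Q')) f := by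
  rw [eB_comp]
  congr 1
  refine congrArg eB (hom_ext fun i => ?_)
  rw [MonoidHom.comp_apply, sqs_x, sqs_x]
  by_cases h1 : i ∈ Q'
  · rw [if_pos h1, map_pow, sqs_x, if_neg (fun h2 => Finset.disjoint_left.1 h h2 h1),
      if_pos (Finset.mem_union_right _ h1)]
  · rw [if_neg h1, sqs_x]
    by_cases h2 : i ∈ Q
    · rw [if_pos h2, if_pos (Finset.mem_union_left _ h2)]
    · rw [if_neg h2, if_neg (by simp [h1, h2])]

end E4.X
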