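import Pool.Agent.Lib.MP_8a95e3_al.PX1b

/-!
# PX4b : the cross effect `x_m ↦ x_m x_m'`
-/

noncomputable section

namespace E4.X

open E4

/-- cross effect: `f(x_m x_m') + f(x_m) + f(x_m')` -/
def crs (m m' : ℕ) (f : FB) : FB := eB (rp m (x m * x m')) f + f + eB (rp m (x m')) f

theorem crs_add (m m' : ℕ) (f g : FB) : crs m m' (f + g) = crs m m' f + crs m m' g := by
  unfold crs
  rw [map_add, map_add]
  abel

theorem crs_smul (m m' : ℕ) (c : ZMod 2) (f : FB) : crs m m' (c • f) = c • crs m m' f := by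
  have hc : c = 0 ∨ c = 1 := by
    revert c
    decide
  rcases hc with rfl | rfl
  · rw [zero_smul, zero_smul]
    unfold crs
    rw [map_zero, map_zero, add_zero, add_zero]
  · rw [one_smul, one_smul]

private theorem PX4b_rp_ret {M N : Finset ℕ} {m : ℕ} {g : F} {f : FB} (hr : eB (ret N) f = f) (hNM : N ⊆ M)
    (hg : ret M g = g) : eB (ret M) (eB (rp m g) f) = eB (rp m g) f := by
  have e : ((ret M).comp (rp m g)).comp (ret N) = (rp m g).comp (ret N) := by
    refine hom_ext fun i => ?_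
    simp only [MonoidHom.comp_apply, ret_x]
    by_cases hi : i ∈ N
    · rw [if_pos hi, rp_x]
      by_cases him : i = m
      · rw [if_pos him]
        exact hg
      · rw [if_neg him, ret_x, if_pos (hNM hi)]
    · rw [if_neg hi, map_one, map_one]
  have h : eB (ret M) (eB (rp m g) (eB (ret N) f)) = eB (rp m g) (eB (ret N) f) := by
    rw [eB_comp (ret M), eB_comp _ (ret N) f, e, eB_comp]
  rwa [hr] at h

private theorem PX4b_comm {j m : ℕ} {g : F} (hjm : j ≠ m) (hg : rp j 1 g = g) (f : FB) :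
    eB (rp j 1) (eB (rp m g) f) = eB (rp m g) (eB (rp j 1) f) := by
  have e : (rp j 1).comp (rp m g) = (rp m g).comp (rp j 1) := by
    refine hom_ext fun i => ?_
    simp only [MonoidHom.comp_apply, rp_x]
    by_cases him : i = m
    · have hij : i ≠ j := fun h => hjm (h.symm.trans him)
      rw [if_pos him, if_neg hij, rp_x, if_pos him, hg]
    · rw [if_neg him, rp_x]
      by_cases hij : i = j
      · rw [if_pos hij, map_one]
      · rw [if_neg hij, rp_x, if_neg him]
  rw [eB_comp, eB_comp, e]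

private theorem PX4b_rp_rp {m : ℕ} {g g' : F} (hg : rp m 1 g = g') (f : FB) :
    eB (rp m 1) (eB (rp m g) f) = eB (rp m g') f := by
  have e : (rp m 1).comp (rp m g) = rp m g' := by
    refine hom_ext fun i => ?_
    simp only [MonoidHom.comp_apply, rp_x]
    by_cases him : i = m
    · rw [if_pos him, if_pos him, hg]
    · rw [if_neg him, if_neg him, rp_x, if_neg him]
  rw [eB_comp, e]

private theorem PX4b_kill_ret {N : Finset ℕ} {m m' : ℕ} {g g' : F} {f : FB} (hr : eB (ret N) f = f) (hm' : m' ∉ N)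
    (hg : rp m' 1 g = g') : eB (rp m' 1) (eB (rp m g) f) = eB (rp m g') f := by
  have e : ((rp m' 1).comp (rp m g)).comp (ret N) = (rp m g').comp (ret N) := by
    refine hom_ext fun i => ?_
    simp only [MonoidHom.comp_apply, ret_x]
    by_cases hi : i ∈ N
    · rw [if_pos hi, rp_x, rp_x]
      by_cases him : i = m
      · rw [if_pos him, if_pos him, hg]
      · have him' : i ≠ m' := fun h => hm' (h ▸ hi)
        rw [if_neg him, if_neg him, rp_x, if_neg him']
    · rw [if_neg hi, map_one, map_one, map_one]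
  have h : eB (rp m' 1) (eB (rp m g) (eB (ret N) f)) = eB (rp m g') (eB (ret N) f) := by
    rw [eB_comp (rp m' 1), eB_comp _ (ret N) f, e, eB_comp]
  rwa [hr] at h

/-- PROOF: `j ∈ H`, `j ≠ m`: `rp j 1` commutes with the two substitutions (`hom_ext`), all three summands are `0`.
`j = m`: the first summand becomes `eB (rp m (x m')) f`, the second `0`, the third `eB (rp m (x m')) f`; the sum is `0` (`fb_add_self`).
`j = m'`: `rp m' 1` fixes `f` (`kill_of_ret`), the first summand becomes `f`, the second `f`, the third `eB (rp m 1) f = 0`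
(here use that `eB (rp m' 1) f = f` and composition of endomorphisms, `eB_comp`, `hom_ext`). -/
theorem crs_kill {N H : Finset ℕ} {m m' : ℕ} {f : FB} (hr : eB (ret N) f = f) (hm : m ∈ H) (hm' : m' ∉ N)
    (hH : H ⊆ N) (hk : ∀ j ∈ H, eB (rp j 1) f = 0) : ∀ j ∈ insert m' H, eB (rp j 1) (crs m m' f) = 0 := by
  have hmm' : m ≠ m' := fun h => hm' (h ▸ hH hm)
  have e1 : rp m' 1 (x m * x m') = x m := by
    rw [map_mul, rp_x, rp_x, if_neg hmm', if_pos rfl, mul_one]
  have e2 : rp m' 1 (x m') = 1 := by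
    rw [rp_x, if_pos rfl]
  have e3 : rp m 1 (x m * x m') = x m' := by
    rw [map_mul, rp_x, rp_x, if_pos rfl, if_neg hmm'.symm, one_mul]
  have e4 : rp m 1 (x m') = x m' := by
    rw [rp_x, if_neg hmm'.symm]
  intro j hj
  unfold crs
  rw [map_add, map_add]
  rcases Finset.mem_insert.mp hj with rfl | hjH
  · rw [PX4b_kill_ret hr hm' e1, PX4b_kill_ret hr hm' e2, kill_of_ret hr hm', hk m hm, add_zero]
    have e5 : eB (rp m (x m)) f = f := by
      refine eB_id _ (fun i => ?_) f
      rw [rp_x]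
      by_cases him : i = m
      · rw [if_pos him, him]
      · rw [if_neg him]
    rw [e5, fb_add_self]
  · by_cases hjm : j = m
    · subst hjm
      rw [PX4b_rp_rp e3, PX4b_rp_rp e4, hk j hm, add_zero, fb_add_self]
    · have hjm' : j ≠ m' := fun h => hm' (h ▸ hH hjH)
      have e6 : rp j 1 (x m') = x m' := by
        rw [rp_x, if_neg hjm'.symm]
      have e7 : rp j 1 (x m * x m') = x m * x m' := by
        rw [map_mul, e6, rp_x, if_neg (Ne.symm hjm)]
      rw [PX4b_comm hjm e7, PX4b_comm hjm e6, hk j hjH, map_zero, map_zero, add_zero, add_zero]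

/-- PROOF: `eB_comp`, `hom_ext`, `ret_mono` and the hypothesis: e.g. `(ret (insert m' N)) ∘ rp m (x m * x m') ∘ ret N` and
`rp m (x m * x m') ∘ ret N` agree on the letters (`m ∈ N`). -/
theorem crs_ret {N : Finset ℕ} {m m' : ℕ} {f : FB} (hr : eB (ret N) f = f) (hm : m ∈ N) :
    eB (ret (insert m' N)) (crs m m' f) = crs m m' f := by
  have hNM : N ⊆ insert m' N := Finset.subset_insert m' N
  have e1 : ret (insert m' N) (x m') = x m' := by
    rw [ret_x, if_pos (Finset.mem_insert_self m' N)]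
  have e2 : ret (insert m' N) (x m * x m') = x m * x m' := by
    rw [map_mul, e1, ret_x, if_pos (hNM hm)]
  unfold crs
  rw [map_add, map_add, PX4b_rp_ret hr hNM e2, PX4b_rp_ret hr hNM e1, ret_mono hNM hr]

/-- PROOF: `kill`: `crs_kill` with `N = H`; `inn`: `crs_ret`. -/
theorem crs_full {H : Finset ℕ} {m m' : ℕ} {f : FB} (hf : Full H f) (hm : m ∈ H) (hm' : m' ∉ H) :
    Full (insert m' H) (crs m m' f) :=
  ⟨crs_kill hf.inn hm hm' (Finset.Subset.refl H) hf.kill, crs_ret hf.inn hm⟩

/-- PROOF: `eB_idl` with `W = idl {s0}` (`idl_bi`), and `s ∈ idl {s0}`. -/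
theorem crs_idl {s0 s : FB} {m m' : ℕ} (h0 : ∀ g, eB (rp m g) s0 = s0) (hs : s ∈ idl {s0}) : crs m m' s ∈ idl {s0} := by
  have h : ∀ g : F, eB (rp m g) s ∈ idl {s0} := by
    intro g
    refine eB_idl (idl_bi _) (rp m g) ?_ hs
    intro r hr
    rw [Set.mem_singleton_iff.mp hr, h0 g]
    exact sub_idl (Set.mem_singleton s0)
  unfold crs
  exact AddSubgroup.add_mem _ (AddSubgroup.add_mem _ (h _) hs) (h _)

private theorem PX4b_XL_cons (j : ℕ) (L : List ℕ) : XL (j :: L) = Xl j * XL L := by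
  unfold XL
  rw [List.map_cons, List.prod_cons]

private theorem PX4b_XL_fix {m : ℕ} (g : F) {A : List ℕ} (hA : m ∉ A) : eB (rp m g) (XL A) = XL A := by
  induction A with
  | nil => exact map_one _
  | cons a A ih =>
    have h1 : a ≠ m := fun h => hA (h ▸ List.mem_cons_self)
    have h2 : m ∉ A := fun h => hA (List.mem_cons_of_mem a h)
    rw [PX4b_XL_cons, map_mul, ih h2, eB_Xl_rp_ne g h1]

/-- the cross effect of a product which contains `Xl m` once.
PROOF: all factors except `Xl m` are fixed by `rp m g`; `C (x m * x m') + C (x m) + C (x m') = Xl m * Xl m'` (`C_mul`, `fb_add_self`). -/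
theorem crs_mul {m m' : ℕ} (p q : FB) (A B : List ℕ) (hp : ∀ g, eB (rp m g) p = p) (hq : ∀ g, eB (rp m g) q = q)
    (hA : m ∉ A) (hB : m ∉ B) :
    crs m m' (p * XL (A ++ m :: B) * q) = p * XL (A ++ m :: m' :: B) * q := by
  have h1 : ∀ g, eB (rp m g) (p * XL (A ++ m :: B) * q) = p * (XL A * (C g * XL B)) * q := by
    intro g
    rw [XL_append, PX4b_XL_cons, map_mul, map_mul, map_mul, map_mul, hp g, hq g, PX4b_XL_fix g hA, PX4b_XL_fix g hB,
      eB_Xl_rp_self]
  have h2 : p * XL (A ++ m :: B) * q = p * (XL A * (C (x m) * XL B)) * q := by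
    rw [XL_append, PX4b_XL_cons]
    rfl
  have h3 : C (x m * x m') + C (x m) + C (x m') = C (x m) * C (x m') := by
    rw [C_mul]
    have h4 : C (x m) + C (x m') + C (x m) * C (x m') + C (x m) + C (x m') =
        C (x m) * C (x m') + (C (x m) + C (x m)) + (C (x m') + C (x m')) := by abel
    rw [h4, fb_add_self, fb_add_self, add_zero, add_zero]
  unfold crs
  rw [h1, h1, h2, ← add_mul, ← add_mul, ← mul_add, ← mul_add, ← mul_add, ← mul_add, ← add_mul, ← add_mul, h3,
    XL_append, PX4b_XL_cons, PX4b_XL_cons, mul_assoc (C (x m))]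
  rfl

/-- PROOF: `eB (rp m (x m * x m'))` and `eB (rp m (x m'))` commute with `eB (sqs Q)` since `m ∉ Q`, `m' ∉ Q` (`eB_comp`, `hom_ext`); `TI.endo`,
`AddSubgroup.add_mem`. -/
theorem crs_P0 {P : AddSubgroup FB} (hP : TI P) {Q : Finset ℕ} {m m' : ℕ} (hm : m ∉ Q) (hm' : m' ∉ Q) {f : FB}
    (h : eB (sqs Q) f ∈ P) : eB (sqs Q) (crs m m' f) ∈ P := by
  have hc : ∀ g : F, sqs Q g = g → eB (sqs Q) (eB (rp m g) f) = eB (rp m g) (eB (sqs Q) f) := by
    intro g hg
    have e : (sqs Q).comp (rp m g) = (rp m g).comp (sqs Q) := by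
      refine hom_ext fun i => ?_
      simp only [MonoidHom.comp_apply, rp_x, sqs_x]
      by_cases him : i = m
      · have hiQ : i ∉ Q := him ▸ hm
        rw [if_pos him, if_neg hiQ, hg, rp_x, if_pos him]
      · rw [if_neg him, sqs_x]
        by_cases hiQ : i ∈ Q
        · rw [if_pos hiQ, map_pow, rp_x, if_neg him]
        · rw [if_neg hiQ, rp_x, if_neg him]
    rw [eB_comp, eB_comp, e]
  have e1 : sqs Q (x m') = x m' := by
    rw [sqs_x, if_neg hm']
  have e2 : sqs Q (x m * x m') = x m * x m' := by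
    rw [map_mul, e1, sqs_x, if_neg hm]
  unfold crs
  rw [map_add, map_add, hc _ e2, hc _ e1]
  exact P.add_mem (P.add_mem (hP.endo _ _ h) h) (hP.endo _ _ h)

/-- a letter of a finite set in its ordered list.  PROOF: `List.append_of_mem` for `m ∈ H.sort (· ≤ ·)` (`Finset.mem_sort`); the list is
nodup (`Finset.sort_nodup`); `H.erase m` has the ordered list `A ++ B` (not needed). -/
theorem sort_split {H : Finset ℕ} {m : ℕ} (hm : m ∈ H) :
    ∃ A B : List ℕ, H.sort (· ≤ ·) = A ++ m :: B ∧ m ∉ A ∧ m ∉ B := by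
  have h1 : m ∈ H.sort (· ≤ ·) := (Finset.mem_sort (· ≤ ·)).mpr hm
  obtain ⟨A, B, h⟩ := List.append_of_mem h1
  have h2 : (H.sort (· ≤ ·)).Nodup := Finset.sort_nodup H (· ≤ ·)
  rw [h, List.nodup_middle, List.nodup_cons, List.mem_append] at h2
  exact ⟨A, B, h, fun hA => h2.1 (Or.inl hA), fun hB => h2.1 (Or.inr hB)⟩

end E4.X
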