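import Pool.Agent.Lib.MP_8a95e3_al.PX4a
import Pool.Agent.Lib.MP_8a95e3_al.PX4b

/-!
# PX4c : parity (the fields `par` and `par_even`)
-/

noncomputable section

namespace E4

namespace P

open E4.X (FB eB o C T Xl rp ret kls sqs sw Pp pr XL XP Full Ew Ex ps idl)

variable {V Z E : Type} [AddCommGroup V] [CommRing Z] [Module Z V] [Ring E] [Algebra Z E]

section

variable {K : PAlg F V Z E} {e : FB →+* E} {P0 : AddSubgroup FB} (M : Md K e P0)

include M

/-- PROOF: `parL` with `v = H.sort (· ≤ ·)` (`Finset.sort_toFinset`, `Finset.length_sort`, `E4.X.XP_XL`), and `Md.sqv_van`. -/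
theorem Md.par_even [Nontrivial E] (H Q : Finset ℕ) (y z : ℕ) (hyz : y ≠ z) (hy : y ∉ H) (hz : z ∉ H)
    (hev : H.card.bodd = false) (h2 : 2 ≤ H.card) :
    ∀ s ∈ idl {Xl y * Xl z + Xl z * Xl y}, (∀ j ∈ H, eB (rp j 1) s = 0) → eB (ret (insert y (insert z H))) s = s →
    eB (sqs (insert y (insert z Q))) (s + Xl y * XP H * Xl z + Xl z * XP H * Xl y) ∉ P0 := by
  intro s hs kill inn hP
  have hn : (y :: z :: H.sort (· ≤ ·)).Nodup := by
    rw [List.nodup_cons, List.nodup_cons, List.mem_cons, Finset.mem_sort, Finset.mem_sort]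
    exact ⟨fun h => h.elim hyz hy, hz, Finset.sort_nodup _ _⟩
  refine parL M (H.sort (· ≤ ·)) y z hn ?_ ?_ hs ?_ ?_ fun u => ?_
  · rw [Finset.length_sort]
    exact hev
  · rw [Finset.length_sort]
    exact h2
  · intro j hj
    exact kill j ((Finset.mem_sort _).1 hj)
  · rw [Finset.sort_toFinset]
    exact inn
  · exact M.sqv_van hP u

/-- **the field `par`**.
PROOF: `H` is nonempty (`Q ⊆ H`, `Q ≠ H`).  If `H.card` is even: `Md.par_even`.  If it is odd: choose `m ∈ H`, `m ∉ Q`, and a natural number `m'`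
outside `insert y (insert z H)`.  Suppose the element `f` is such that `eB (sqs (insert y (insert z Q))) f ∈ P0`.  By `E4.X.crs_P0` (with `M.ti`)
the same holds for `crs m m' f`, and by `E4.X.crs_add`, `E4.X.crs_mul` (`H.sort = A ++ m :: B` by `E4.X.sort_split`)
`crs m m' f = crs m m' s + Xl y * XL (A ++ m :: m' :: B) * Xl z + Xl z * XL (A ++ m :: m' :: B) * Xl y`.  Apply `parL` with `v = A ++ m :: m' :: B`
(length `H.card + 1`, `v.toFinset = insert m' H`), `E4.X.crs_idl`, `E4.X.crs_kill` (`N = insert y (insert z H)`), `E4.X.crs_ret`, `Md.sqv_van`. -/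
theorem Md.par [Nontrivial E] (H Q : Finset ℕ) (y z : ℕ) (hyz : y ≠ z) (hy : y ∉ H) (hz : z ∉ H) (hQ : Q ⊆ H) (hne : Q ≠ H) :
    ∀ s ∈ idl {Xl y * Xl z + Xl z * Xl y}, (∀ j ∈ H, eB (rp j 1) s = 0) → eB (ret (insert y (insert z H))) s = s →
    eB (sqs (insert y (insert z Q))) (s + Xl y * XP H * Xl z + Xl z * XP H * Xl y) ∉ P0 := by
  obtain ⟨m, hm, hmQ⟩ : ∃ m ∈ H, m ∉ Q := by
    by_contra hcon
    push Not at hcon
    exact hne (Finset.Subset.antisymm hQ hcon)
  have hcard : 0 < H.card := Finset.card_pos.2 ⟨m, hm⟩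
  rcases hb : H.card.bodd with _ | _
  · refine M.par_even H Q y z hyz hy hz hb ?_
    by_contra hc
    have h1 : H.card = 1 := by omega
    rw [h1] at hb
    exact absurd hb (by decide)
  · intro s hs kill inn hP
    obtain ⟨m', hm'⟩ := Infinite.exists_notMem_finset (insert y (insert z H))
    have hm'2 := hm'
    rw [Finset.mem_insert, Finset.mem_insert, not_or, not_or] at hm'2
    obtain ⟨hm'y, hm'z, hm'H⟩ := hm'2
    have hmy : m ≠ y := fun e => hy (e ▸ hm)
    have hmz : m ≠ z := fun e => hz (e ▸ hm)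
    have hmS : m ∉ insert y (insert z Q) := by
      rw [Finset.mem_insert, Finset.mem_insert, not_or, not_or]
      exact ⟨hmy, hmz, hmQ⟩
    have hm'S : m' ∉ insert y (insert z Q) := by
      rw [Finset.mem_insert, Finset.mem_insert, not_or, not_or]
      exact ⟨hm'y, hm'z, fun h => hm'H (hQ h)⟩
    have hP' := E4.X.crs_P0 M.ti hmS hm'S hP
    obtain ⟨A, B, hAB, hA, hB⟩ := E4.X.sort_split hm
    have fixy : ∀ g, eB (rp m g) (Xl y) = Xl y := fun g => E4.X.eB_Xl_rp_ne g hmy.symm
    have fixz : ∀ g, eB (rp m g) (Xl z) = Xl z := fun g => E4.X.eB_Xl_rp_ne g hmz.symm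
    have hcr : E4.X.crs m m' (s + Xl y * XP H * Xl z + Xl z * XP H * Xl y) = E4.X.crs m m' s +
        Xl y * XL (A ++ m :: m' :: B) * Xl z + Xl z * XL (A ++ m :: m' :: B) * Xl y := by
      rw [E4.X.crs_add, E4.X.crs_add, E4.X.XP_XL, hAB, E4.X.crs_mul _ _ A B fixy fixz hA hB,
        E4.X.crs_mul _ _ A B fixz fixy hA hB]
    rw [hcr] at hP'
    have hperm : (A ++ m :: m' :: B).Perm (m' :: H.sort (· ≤ ·)) := by
      rw [hAB]
      have h1 : A ++ m :: m' :: B = (A ++ [m]) ++ m' :: B := by
        rw [List.append_assoc]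
        rfl
      have h2 : m' :: (A ++ m :: B) = m' :: ((A ++ [m]) ++ B) := by
        rw [List.append_assoc]
        rfl
      rw [h1, h2]
      exact List.perm_middle
    have hmemv : ∀ j, j ∈ A ++ m :: m' :: B ↔ j ∈ insert m' H := by
      intro j
      rw [hperm.mem_iff, List.mem_cons, Finset.mem_sort, Finset.mem_insert]
    have hlen : (A ++ m :: m' :: B).length = H.card + 1 := by
      rw [hperm.length_eq, List.length_cons, Finset.length_sort]
    have hn : (y :: z :: (A ++ m :: m' :: B)).Nodup := by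
      rw [List.nodup_cons, List.nodup_cons, List.mem_cons, hmemv, hmemv, hperm.nodup_iff, List.nodup_cons, Finset.mem_sort,
        Finset.mem_insert, Finset.mem_insert]
      refine ⟨?_, ?_, hm'H, Finset.sort_nodup _ _⟩
      · rintro (h | h | h)
        · exact hyz h
        · exact hm'y h.symm
        · exact hy h
      · rintro (h | h)
        · exact hm'z h.symm
        · exact hz h
    have h0 : ∀ g, eB (rp m g) (Xl y * Xl z + Xl z * Xl y) = Xl y * Xl z + Xl z * Xl y := by
      intro g
      rw [map_add, map_mul, map_mul, fixy, fixz]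
    have hmN : m ∈ insert y (insert z H) := Finset.mem_insert_of_mem (Finset.mem_insert_of_mem hm)
    have hHN : H ⊆ insert y (insert z H) := fun j hj => Finset.mem_insert_of_mem (Finset.mem_insert_of_mem hj)
    refine parL M (A ++ m :: m' :: B) y z hn ?_ ?_ (E4.X.crs_idl (m' := m') h0 hs) ?_ ?_ fun u => M.sqv_van hP' u
    · rw [hlen, Nat.bodd_succ, hb]
      rfl
    · rw [hlen]
      omega
    · intro j hj
      exact E4.X.crs_kill inn hm hm' hHN kill j ((hmemv j).1 hj)
    · have hset : insert y (insert z (A ++ m :: m' :: B).toFinset) = insert m' (insert y (insert z H)) := by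
        ext j
        rw [Finset.mem_insert, Finset.mem_insert, List.mem_toFinset, hmemv, Finset.mem_insert, Finset.mem_insert,
          Finset.mem_insert, Finset.mem_insert]
        tauto
      rw [hset]
      exact E4.X.crs_ret inn hmN

end

end P

end E4
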