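import Pool.Agent.Lib.MP_8a95e3_al.PX6a

/-!
# PX6c : the contraction `y ↦ a`, `z ↦ b² c²`
-/

noncomputable section

namespace E4

namespace P

open E4.X (FB eB o C T Xl rp ret kls sqs sw Pp pr XL XP Full Ew Ex ps idl KP Bil swl)

variable {V Z E : Type} [AddCommGroup V] [CommRing Z] [Module Z V] [Ring E] [Algebra Z E]

/-- bracket of two squares is a square.
PROOF: `K.l_eq`; `K.l (K.t (b ^ 2 * c ^ 2)) = K.ρ (b² c²) + K.ρ (c⁻² b⁻²)` (`K.l_t`), and `K.ρ (b ^ 2) = 1 + B` with `B = K.l (K.t b)` (`K.sq`), `B * B = 0`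
(`K.TT`), so `K.ρ (b⁻¹ ^ 2) = 1 + B` (`K.sq`, `K.t_inv`); `(1 + B)(1 + C) + (1 + C)(1 + B) = B C + C B` in characteristic two. -/
theorem t_sqsq {G : Type} [Group G] (K : PAlg G V Z E) (b c : G) : K.t (b ^ 2 * c ^ 2) = K.b (K.t b) (K.t c) := by
  apply K.l_eq
  have hb := K.sq b
  have hc := K.sq c
  have hb' := K.sq b⁻¹
  have hc' := K.sq c⁻¹
  rw [K.t_inv] at hb' hc'
  rw [K.l_t, K.l_b, mul_inv_rev, map_mul, map_mul, pow_two, pow_two, mul_inv_rev, mul_inv_rev, map_mul, map_mul, map_mul,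
    map_mul, hb, hc, hb', hc']
  obtain ⟨B, hB⟩ : ∃ B, B = K.l (K.t b) := ⟨_, rfl⟩
  obtain ⟨D, hD⟩ : ∃ D, D = K.l (K.t c) := ⟨_, rfl⟩
  rw [← hB, ← hD]
  have e1 : (1 + B) * (1 + D) + (1 + D) * (1 + B) = (B * D + D * B) + ((1 + 1) + (B + B) + (D + D)) := by noncomm_ring
  rw [e1, K.ee 1, K.ee B, K.ee D, add_zero, add_zero, add_zero]

/-- the evaluation `y ↦ a²`, `z ↦ (b² c²)²` -/
def ctv (u : ℕ → F) (y z : ℕ) (a b c : F) : ℕ → F := Function.update (Function.update u y a) z (b ^ 2 * c ^ 2)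

private theorem PX6c_app (K : PAlg F V Z E) (p : ℕ → V) (α β : List ℕ) : wE K p (α ++ β) = wE K p α * wE K p β := by
  unfold wE
  rw [List.map_append, List.prod_append]

private theorem PX6c_cons (K : PAlg F V Z E) (p : ℕ → V) (j : ℕ) (β : List ℕ) : wE K p (j :: β) = K.l (p j) * wE K p β := by
  unfold wE
  rw [List.map_cons, List.prod_cons]

private theorem PX6c_nil (K : PAlg F V Z E) (p : ℕ → V) : wE K p [] = 1 := by
  unfold wE
  rw [List.map_nil, List.prod_nil]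

private theorem PX6c_congr (K : PAlg F V Z E) {p q : ℕ → V} {α : List ℕ} (h : ∀ j ∈ α, p j = q j) :
    wE K p α = wE K q α := by
  unfold wE
  rw [List.map_congr_left fun j hj => by rw [h j hj]]

private theorem PX6c_y (u : ℕ → F) {y z : ℕ} (hyz : y ≠ z) (a b c : F) : ctv u y z a b c y = a := by
  unfold ctv
  rw [Function.update_of_ne hyz, Function.update_self]

private theorem PX6c_z (u : ℕ → F) (y z : ℕ) (a b c : F) : ctv u y z a b c z = b ^ 2 * c ^ 2 := by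
  unfold ctv
  rw [Function.update_self]

private theorem PX6c_o (u : ℕ → F) {y z i : ℕ} (hy : i ≠ y) (hz : i ≠ z) (a b c : F) : ctv u y z a b c i = u i := by
  unfold ctv
  rw [Function.update_of_ne hz, Function.update_of_ne hy]

private theorem PX6c_w (K : PAlg F V Z E) (u : ℕ → F) {y z : ℕ} {α : List ℕ} (hα : y ∉ α ∧ z ∉ α) (a b c : F) :
    wE K (fun i => K.t (ctv u y z a b c i)) α = wE K (fun i => K.t (u i)) α :=
  PX6c_congr K fun j hj => by
    have h1 : j ≠ y := fun h => hα.1 (h ▸ hj)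
    have h2 : j ≠ z := fun h => hα.2 (h ▸ hj)
    rw [PX6c_o u h1 h2]

/-- the sum of the three cyclic evaluations of a word in which `y` and `z` are neighbours (in this order).
PROOF: with `A = K.l (K.t a)` etc. the value at `ctv u y z a b c` is `P * A * K.l (K.b (K.t b) (K.t c)) * Q` where `P`, `Q` are the values of `α`, `β`
(which do not contain `y`, `z`), `t_sqsq`.  The sum is `P * (K.cyc2 …) * Q = 0`. -/
theorem ct_adj (K : PAlg F V Z E) (u : ℕ → F) {y z : ℕ} (hyz : y ≠ z) (α β : List ℕ)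
    (hα : y ∉ α ∧ z ∉ α) (hβ : y ∉ β ∧ z ∉ β) (a b c : F) :
    wE K (fun i => K.t (ctv u y z a b c i)) (α ++ y :: z :: β)
      + wE K (fun i => K.t (ctv u y z b c a i)) (α ++ y :: z :: β)
      + wE K (fun i => K.t (ctv u y z c a b i)) (α ++ y :: z :: β) = 0 := by
  simp only [PX6c_app, PX6c_cons, PX6c_w K u hα, PX6c_w K u hβ, PX6c_y u hyz, PX6c_z, t_sqsq]
  have h := K.cyc2 (K.t a) (K.t b) (K.t c)
  obtain ⟨p, hp⟩ : ∃ p, p = wE K (fun i => K.t (u i)) α := ⟨_, rfl⟩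
  obtain ⟨q, hq⟩ : ∃ q, q = wE K (fun i => K.t (u i)) β := ⟨_, rfl⟩
  rw [← hp, ← hq]
  have h2 : p * (K.l (K.t a) * K.l (K.b (K.t b) (K.t c)) + K.l (K.t b) * K.l (K.b (K.t c) (K.t a)) +
      K.l (K.t c) * K.l (K.b (K.t a) (K.t b))) * q = 0 := by rw [h, mul_zero, zero_mul]
  rw [← h2]
  noncomm_ring

private theorem PX6c_sw (K : PAlg F V Z E) (u : ℕ → F) {y z : ℕ} (hyz : y ≠ z) (α β γ : List ℕ) (hα : y ∉ α ∧ z ∉ α)
    (hβ : y ∉ β ∧ z ∉ β) (hγ : y ∉ γ ∧ z ∉ γ) (a b c : F) :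
    wE K (fun i => K.t (ctv u y z a b c i)) (α ++ y :: (β ++ z :: γ)) +
      wE K (fun i => K.t (ctv u y z b c a i)) (α ++ y :: (β ++ z :: γ)) +
      wE K (fun i => K.t (ctv u y z c a b i)) (α ++ y :: (β ++ z :: γ)) =
    wE K (fun i => K.t (ctv u y z a b c i)) (α ++ z :: (β ++ y :: γ)) +
      wE K (fun i => K.t (ctv u y z b c a i)) (α ++ z :: (β ++ y :: γ)) +
      wE K (fun i => K.t (ctv u y z c a b i)) (α ++ z :: (β ++ y :: γ)) := by
  simp only [PX6c_app, PX6c_cons, PX6c_w K u hα, PX6c_w K u hβ, PX6c_w K u hγ, PX6c_y u hyz, PX6c_z, t_sqsq]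
  have h := K.con_sym (w_Rep (K := K) (fun i => K.t (u i)) β) (K.t a) (K.t b) (K.t c)
  obtain ⟨p, hp⟩ : ∃ p, p = wE K (fun i => K.t (u i)) α := ⟨_, rfl⟩
  obtain ⟨q, hq⟩ : ∃ q, q = wE K (fun i => K.t (u i)) γ := ⟨_, rfl⟩
  obtain ⟨r, hr⟩ : ∃ r, r = wE K (fun i => K.t (u i)) β := ⟨_, rfl⟩
  rw [← hr] at h
  rw [← hp, ← hq, ← hr]
  have h2 := congrArg (fun x => p * x * q) h
  simp only [mul_add, add_mul, mul_assoc] at h2 ⊢
  exact h2

private theorem PX6c_map {y z : ℕ} {α : List ℕ} (hα : y ∉ α ∧ z ∉ α) : α.map (swl y z) = α := by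
  have h : α.map (swl y z) = α.map id := List.map_congr_left fun j hj => by
    have h1 : j ≠ y := fun h => hα.1 (h ▸ hj)
    have h2 : j ≠ z := fun h => hα.2 (h ▸ hj)
    unfold swl
    rw [if_neg h1, if_neg h2]
    rfl
  rw [h, List.map_id]

private theorem PX6c_swy (y z : ℕ) : swl y z y = z := by
  unfold swl
  rw [if_pos rfl]

private theorem PX6c_swz (y z : ℕ) : swl y z z = y := by
  unfold swl
  by_cases h : z = y
  · rw [if_pos h, h]
  · rw [if_neg h, if_pos rfl]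

/-- the word and the word with `y`, `z` exchanged.
PROOF: `L` contains `y` and `z` exactly once, say `L = α ++ y :: β ++ z :: γ` (or with `y`, `z` exchanged); then `L.map (swl y z)` is
`α ++ z :: β ++ y :: γ`.  The sum of the six values is `P * (K.con_sym …) * Q` where `P`, `Q` = values of `α`, `γ` and the inner word `β` is represented by
`w_Rep`; it vanishes by `K.con_sym` and `K.ee`. -/
theorem ct_sw (K : PAlg F V Z E) (u : ℕ → F) {y z : ℕ} (hyz : y ≠ z) (L : List ℕ) (hn : L.Nodup) (hy : y ∈ L) (hz : z ∈ L)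
    (a b c : F) :
    wE K (fun i => K.t (ctv u y z a b c i)) L + wE K (fun i => K.t (ctv u y z b c a i)) L
      + wE K (fun i => K.t (ctv u y z c a b i)) L
      + (wE K (fun i => K.t (ctv u y z a b c i)) (L.map (swl y z))
        + wE K (fun i => K.t (ctv u y z b c a i)) (L.map (swl y z))
        + wE K (fun i => K.t (ctv u y z c a b i)) (L.map (swl y z))) = 0 := by
  obtain ⟨α, δ, rfl⟩ := List.append_of_mem hy
  have hn1 := List.nodup_append.1 hn
  have hn2 := List.nodup_cons.1 hn1.2.1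
  have hyα : y ∉ α := fun h => hn1.2.2 y h y (List.mem_cons_self) rfl
  rcases List.mem_append.1 hz with h | h
  · -- `z` before `y`
    obtain ⟨α, β, rfl⟩ := List.append_of_mem h
    have hn3 := List.nodup_append.1 hn1.1
    have hn4 := List.nodup_cons.1 hn3.2.1
    have hzα : z ∉ α := fun h => hn3.2.2 z h z (List.mem_cons_self) rfl
    have hzδ : z ∉ δ := fun h' => hn1.2.2 z h z (List.mem_cons_of_mem _ h') rfl
    have hyα' : y ∉ α := fun h => hyα (List.mem_append_left _ h)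
    have hyβ : y ∉ β := fun h => hyα (List.mem_append_right _ (List.mem_cons_of_mem _ h))
    have e1 : α ++ z :: β ++ y :: δ = α ++ z :: (β ++ y :: δ) := by rw [List.append_assoc, List.cons_append]
    have e2 : (α ++ z :: β ++ y :: δ).map (swl y z) = α ++ y :: (β ++ z :: δ) := by
      rw [e1, List.map_append, List.map_cons, List.map_append, List.map_cons, PX6c_map ⟨hyα', hzα⟩,
        PX6c_map ⟨hyβ, hn4.1⟩, PX6c_map ⟨hn2.1, hzδ⟩, PX6c_swy, PX6c_swz]
    rw [e2, e1, PX6c_sw K u hyz α β δ ⟨hyα', hzα⟩ ⟨hyβ, hn4.1⟩ ⟨hn2.1, hzδ⟩ a b c]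
    exact K.ee _
  · rcases List.mem_cons.1 h with h | h
    · exact absurd h.symm hyz
    · obtain ⟨β, γ, rfl⟩ := List.append_of_mem h
      have hn3 := List.nodup_append.1 hn2.2
      have hn4 := List.nodup_cons.1 hn3.2.1
      have hzβ : z ∉ β := fun h => hn3.2.2 z h z (List.mem_cons_self) rfl
      have hzα : z ∉ α := fun h' => hn1.2.2 z h' z (List.mem_cons_of_mem _ h) rfl
      have hyβ : y ∉ β := fun h => hn2.1 (List.mem_append_left _ h)
      have hyγ : y ∉ γ := fun h => hn2.1 (List.mem_append_right _ (List.mem_cons_of_mem _ h))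
      have e2 : (α ++ y :: (β ++ z :: γ)).map (swl y z) = α ++ z :: (β ++ y :: γ) := by
        rw [List.map_append, List.map_cons, List.map_append, List.map_cons, PX6c_map ⟨hyα, hzα⟩,
          PX6c_map ⟨hyβ, hzβ⟩, PX6c_map ⟨hyγ, hn4.1⟩, PX6c_swy, PX6c_swz]
      rw [e2, PX6c_sw K u hyz α β γ ⟨hyα, hzα⟩ ⟨hyβ, hzβ⟩ ⟨hyγ, hn4.1⟩ a b c]
      exact K.ee _

/-- the word with `y m z` at the end.
PROOF: the value at `ctv u y z a b c` is `P * (A * K.l (t m) * K.l (K.b (K.t b) (K.t c)))`; sum = `P * (τ • K.l (t m))` by `K.cyc3`. -/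
theorem ct_mid (K : PAlg F V Z E) (u : ℕ → F) {y z m : ℕ} (hyz : y ≠ z) (hmy : m ≠ y) (hmz : m ≠ z) (α : List ℕ)
    (hα : y ∉ α ∧ z ∉ α) (a b c : F) :
    wE K (fun i => K.t (ctv u y z a b c i)) (α ++ [y, m, z])
      + wE K (fun i => K.t (ctv u y z b c a i)) (α ++ [y, m, z])
      + wE K (fun i => K.t (ctv u y z c a b i)) (α ++ [y, m, z])
      = K.tau (K.t a) (K.t b) (K.t c) • wE K (fun i => K.t (u i)) (α ++ [m]) := by
  simp only [PX6c_app, PX6c_cons, PX6c_nil, PX6c_w K u hα, PX6c_y u hyz, PX6c_z, PX6c_o u hmy hmz, t_sqsq, mul_one]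
  have h := K.cyc3 (K.t a) (K.t b) (K.t c) (K.t (u m))
  obtain ⟨p, hp⟩ : ∃ p, p = wE K (fun i => K.t (u i)) α := ⟨_, rfl⟩
  rw [← hp]
  have h2 := congrArg (fun x => p * x) h
  simp only [mul_add, mul_assoc] at h2 ⊢
  rw [h2, mul_smul_comm]

/-- a word without `y`, `z` and the form `k(t_y, t_z)`.
PROOF: the values of the word do not depend on `a`, `b`, `c`; `K.k (K.t a) (K.b (K.t b) (K.t c)) = τ(a,b,c)` (`K.tau_left`), `τ` is cyclic (`K.tau_cyc`), and
`τ + τ + τ = τ` (`K.zz`). -/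
theorem ct_k (K : PAlg F V Z E) (u : ℕ → F) {y z : ℕ} (hyz : y ≠ z) (L : List ℕ) (hy : y ∉ L) (hz : z ∉ L) (a b c : F) :
    K.k (K.t (ctv u y z a b c y)) (K.t (ctv u y z a b c z)) • wE K (fun i => K.t (ctv u y z a b c i)) L
      + K.k (K.t (ctv u y z b c a y)) (K.t (ctv u y z b c a z)) • wE K (fun i => K.t (ctv u y z b c a i)) L
      + K.k (K.t (ctv u y z c a b y)) (K.t (ctv u y z c a b z)) • wE K (fun i => K.t (ctv u y z c a b i)) L
      = K.tau (K.t a) (K.t b) (K.t c) • wE K (fun i => K.t (u i)) L := by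
  simp only [PX6c_w K u ⟨hy, hz⟩, PX6c_y u hyz, PX6c_z, t_sqsq, ← K.tau_left]
  have h1 : K.tau (K.t b) (K.t c) (K.t a) = K.tau (K.t a) (K.t b) (K.t c) := (K.tau_cyc _ _ _).symm
  have h2 : K.tau (K.t c) (K.t a) (K.t b) = K.tau (K.t a) (K.t b) (K.t c) := K.tau_cyc _ _ _
  rw [h1, h2, K.ee, zero_add]

end P

end E4
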