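import Pool.Agent.Lib.MP_8a95e3_al.PX6b
import Pool.Agent.Lib.MP_8a95e3_al.PX6c

/-!
# PX6d : the field `lam`
-/

noncomputable section

namespace E4

namespace P

open E4.X (FB eB o C T Xl rp ret kls sqs sw Pp pr XL XP Full Ew Ex ps idl KP Bil swl)

variable {V Z E : Type} [AddCommGroup V] [CommRing Z] [Module Z V] [Ring E] [Algebra Z E]

private theorem PX6d_sum3 {A : Type} {R : Type} [AddCommMonoid R] (l : List A) (f g h : A → R) :
    (l.map f).sum + (l.map g).sum + (l.map h).sum = (l.map (fun a => f a + g a + h a)).sum := by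
  induction l with
  | nil => simp only [List.map_nil, List.sum_nil, add_zero]
  | cons a l ih =>
    simp only [List.map_cons, List.sum_cons]
    rw [← ih]
    abel

private theorem PX6d_zero {A : Type} {R : Type} [AddCommMonoid R] (l : List A) (f : A → R) (h : ∀ a ∈ l, f a = 0) :
    (l.map f).sum = 0 := by
  rw [List.map_congr_left h]
  exact List.sum_map_zero

private theorem PX6d_k (W : List (List ℕ)) (f1 f2 f3 g : List ℕ → E) (c1 c2 c3 c : Z)
    (h : ∀ L ∈ W, c1 • f1 L + c2 • f2 L + c3 • f3 L = c • g L) :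
    c1 • (W.map f1).sum + c2 • (W.map f2).sum + c3 • (W.map f3).sum = c • (W.map g).sum := by
  induction W with
  | nil => simp only [List.map_nil, List.sum_nil, smul_zero, add_zero]
  | cons a l ih =>
    simp only [List.map_cons, List.sum_cons]
    rw [smul_add, smul_add, smul_add, smul_add, ← ih fun L hL => h L (List.mem_cons_of_mem _ hL),
      ← h a List.mem_cons_self]
    abel

private theorem PX6d_ab {R : Type} [AddCommGroup R] {s1 s2 s3 t1 t2 t3 k1 k2 k3 r1 r2 r3 m1 m2 m3 k m : R}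
    (e1 : s1 + t1 + k1 + r1 + m1 = 0) (e2 : s2 + t2 + k2 + r2 + m2 = 0) (e3 : s3 + t3 + k3 + r3 + m3 = 0)
    (hs : s1 + s2 + s3 + (t1 + t2 + t3) = 0) (hk : k1 + k2 + k3 = k) (hr : r1 + r2 + r3 = 0)
    (hm : m1 + m2 + m3 = m) : k + m = 0 := by
  have h1 : (s1 + s2 + s3 + (t1 + t2 + t3)) + (k1 + k2 + k3) + (r1 + r2 + r3) + (m1 + m2 + m3)
      = (s1 + t1 + k1 + r1 + m1) + (s2 + t2 + k2 + r2 + m2) + (s3 + t3 + k3 + r3 + m3) := by abel
  rw [e1, e2, e3, hs, hk, hr, hm, zero_add, add_zero, add_zero, add_zero] at h1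
  exact h1

private theorem PX6d_val {K : PAlg F V Z E} {e : FB →+* E} {P0 : AddSubgroup FB} (M : Md K e P0)
    {L : Finset ℕ} {m y z : ℕ} {s w k r : FB} (hk : (w, k) ∈ KP y z) {W1 W2 : List (List ℕ)}
    {U : List (List ℕ × List ℕ)} (h1 : Ew W1 s) (h2 : Ew W2 w) (h3 : Ew (U.map (fun p => p.1 ++ (y :: z :: p.2))) r)
    (h : eB (sqs {y, z}) (s + eB (sw y z) s + k + r + XP (L.erase m) * (Xl y * Xl m * Xl z)) ∈ P0) (v : ℕ → F) :
    (W1.map (fun L => wE K (fun i => K.t (v i)) L)).sum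
      + (W1.map (fun L => wE K (fun i => K.t (v i)) (L.map (swl y z)))).sum
      + K.k (K.t (v y)) (K.t (v z)) • (W2.map (fun L => wE K (fun i => K.t (v i)) L)).sum
      + (U.map (fun p => wE K (fun i => K.t (v i)) (p.1 ++ (y :: z :: p.2)))).sum
      + wE K (fun i => K.t (v i)) ((L.erase m).sort (· ≤ ·) ++ [y, m, z]) = 0 := by
  have hv := M.sqv_van h v
  have hX : XP (L.erase m) * (Xl y * Xl m * Xl z) = XL ((L.erase m).sort (· ≤ ·) ++ [y, m, z]) := by
    rw [E4.X.XP_XL, E4.X.XL_append]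
    refine congrArg (fun t => XL ((L.erase m).sort (· ≤ ·)) * t) ?_
    show Xl y * Xl m * Xl z = (List.map Xl [y, m, z]).prod
    rw [List.map_cons, List.map_cons, List.map_cons, List.map_nil, List.prod_cons, List.prod_cons, List.prod_cons,
      List.prod_nil, mul_one, mul_assoc]
  have hsw := M.sqv_Ew (E4.X.Ew_sw h1 y z) v
  rw [List.map_map] at hsw
  have hr' := M.sqv_Ew h3 v
  rw [List.map_map] at hr'
  rw [map_add, map_add, map_add, map_add, M.KP_ev hk, M.sqv_Ew h1, hsw, M.sqv_Ew h2, hr', hX, M.sqv_XL] at hv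
  exact hv

/-- **the field `lam`**.
PROOF: `ε₁ = 0` is `Md.lam1`.  So the element is `s + eB (sw y z) s + k + r + ε₂ • (XP (L.erase m) * (Xl y * Xl m * Xl z))`.  Words as in the proof of
`Md.lam1`: `W1` for `s` (`full_words`; permutations of `y ::ₘ z ::ₘ L.val`), `W1.map (map (swl y z))` for `eB (sw y z) s` (`Ew_sw`), `W2` for `w` (permutations of `L.val`),
`U` for `r` (`full_YZ`).  For all `u` the value under `sqv e u` is `0` (`Md.sqv_van`, `Md.KP_ev`, `Md.sqv_Ew`).  Add the three evaluations at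
`ctv u y z a b c`, `ctv u y z b c a`, `ctv u y z c a b` : by `ct_sw` (sum over `W1`), `ct_adj` (sum over `U`), `ct_k` (sum over `W2`), `ct_mid`:
`K.tau (K.t a) (K.t b) (K.t c) • (∑_{W2} wE t + ε₂ • wE t ((L.erase m).sort ++ [m])) = 0` for all `u a b c`.  `can_tau_t` (with `K.tf_E`) gives
`∑_{W2} wE t + ε₂ • wE t (…) = 0` for all `u`.  If `ε₂ = 1`: `cnt` with `S = L.val`, `Ms = ((L.erase m).sort ++ [m]) :: W2` says `W2.length + 1 = 0` in `ZMod 2`, but
`parT` with `KP_fst hk` says `W2.length = 0`: contradiction. -/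
theorem Md.lam {K : PAlg F V Z E} {e : FB →+* E} {P0 : AddSubgroup FB} (M : Md K e P0) [Nontrivial E] :
    ∀ (L : Finset ℕ) (m y z : ℕ), m ∈ L → y ≠ z → y ∉ L → z ∉ L →
    ∀ s ∈ Bil y z, ∀ w k : FB, (w, k) ∈ KP y z → ∀ r ∈ idl {Xl y * Xl z},
    (∀ j ∈ L, eB (rp j 1) s = 0) → eB (ret (insert y (insert z L))) s = s → Full L w →
    (∀ j ∈ L, eB (rp j 1) r = 0) → eB (ret (insert y (insert z L))) r = r →
    ∀ ε₁ ε₂ : ZMod 2, (L.card ≤ 1 → ε₂ = 0) →
    eB (sqs {y, z}) (s + eB (sw y z) s + k + r + ε₁ • (Xl y * XP L * Xl z) +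
      ε₂ • (XP (L.erase m) * (Xl y * Xl m * Xl z))) ∈ P0 → ε₁ = 0 ∧ ε₂ = 0 := by
  intro L m y z hm hyz hy hz s hs w k hk r hr hs1 hs2 hw hr1 hr2 ε₁ ε₂ hε h
  have h1 : ε₁ = 0 := M.lam1 L m y z hm hyz hy hz hs hk hr hs1 hs2 hw hr1 hr2 ε₁ ε₂ hε h
  refine ⟨h1, ?_⟩
  by_contra hne
  have he : ε₂ = 1 := by
    have h2 : ∀ a : ZMod 2, a ≠ 0 → a = 1 := by decide
    exact h2 ε₂ hne
  rw [h1, he, zero_smul, one_smul, add_zero] at h
  have hsF : Full (insert y (insert z L)) s := by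
    refine ⟨fun j hj => ?_, hs2⟩
    rcases Finset.mem_insert.1 hj with rfl | hj
    · exact E4.X.Bil_kill_y hs
    · rcases Finset.mem_insert.1 hj with rfl | hj
      · exact E4.X.Bil_kill_z hs
      · exact hs1 j hj
  obtain ⟨W1, hW1, hW1e⟩ := E4.X.full_words hsF
  obtain ⟨W2, hW2, hW2e⟩ := E4.X.full_words hw
  obtain ⟨U, hU, hUe⟩ := E4.X.full_YZ hyz hy hz hr hr1 hr2
  have hval := PX6d_val (L := L) (m := m) M hk hW1e hW2e hUe h
  have hmy : m ≠ y := fun h => hy (by rw [← h]; exact hm)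
  have hmz : m ≠ z := fun h => hz (by rw [← h]; exact hm)
  have key : ∀ u : ℕ → F, (W2.map (fun L => wE K (fun i => K.t (u i)) L)).sum
      + wE K (fun i => K.t (u i)) ((L.erase m).sort (· ≤ ·) ++ [m]) = 0 := by
    intro u
    refine can_tau_t K K.tf_E _ fun a b c => ?_
    rw [smul_add]
    refine PX6d_ab (hval (ctv u y z a b c)) (hval (ctv u y z b c a)) (hval (ctv u y z c a b)) ?_ ?_ ?_ ?_
    · rw [PX6d_sum3, PX6d_sum3, ← List.sum_map_add]
      refine PX6d_zero _ _ fun Lw hLw => ?_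
      have hp := hW1 Lw hLw
      have hn : Lw.Nodup := by
        rw [← Multiset.coe_nodup, hp]
        exact Finset.nodup _
      have hyL : y ∈ Lw := by
        rw [← Multiset.mem_coe, hp]
        exact Finset.mem_insert_self y _
      have hzL : z ∈ Lw := by
        rw [← Multiset.mem_coe, hp]
        exact Finset.mem_insert_of_mem (Finset.mem_insert_self z L)
      exact ct_sw K u hyz Lw hn hyL hzL a b c
    · refine PX6d_k W2 _ _ _ _ _ _ _ _ fun Lw hLw => ?_
      have hp := hW2 Lw hLw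
      have hyL : y ∉ Lw := by
        rw [← Multiset.mem_coe, hp]
        exact hy
      have hzL : z ∉ Lw := by
        rw [← Multiset.mem_coe, hp]
        exact hz
      exact ct_k K u hyz Lw hyL hzL a b c
    · rw [PX6d_sum3]
      refine PX6d_zero _ _ fun p hp' => ?_
      have hp := hU p hp'
      have hnot : ∀ i, i ∉ L → i ∉ p.1 ∧ i ∉ p.2 := by
        intro i hi
        have h5 : i ∉ p.1 ++ p.2 := by
          rw [← Multiset.mem_coe, hp]
          exact hi
        rw [List.mem_append, not_or] at h5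
        exact h5
      exact ct_adj K u hyz p.1 p.2 ⟨(hnot y hy).1, (hnot z hz).1⟩ ⟨(hnot y hy).2, (hnot z hz).2⟩ a b c
    · refine ct_mid K u hyz hmy hmz _ ⟨?_, ?_⟩ a b c
      · rw [Finset.mem_sort]
        exact fun h5 => hy (Finset.mem_of_mem_erase h5)
      · rw [Finset.mem_sort]
        exact fun h5 => hz (Finset.mem_of_mem_erase h5)
  have hperm : (((L.erase m).sort (· ≤ ·) ++ [m] : List ℕ) : Multiset ℕ) = L.val := by
    rw [← Multiset.coe_add, Finset.sort_eq, Finset.erase_val, add_comm]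
    exact Multiset.cons_erase hm
  have hc := cnt (K := K) L.val L.nodup (((L.erase m).sort (· ≤ ·) ++ [m]) :: W2) (by
    intro Lw hLw
    rcases List.mem_cons.1 hLw with rfl | hLw
    · exact hperm
    · exact hW2 Lw hLw) (by
    intro u
    rw [List.map_cons, List.sum_cons, add_comm]
    exact key u)
  rw [List.length_cons, Nat.cast_add, Nat.cast_one, E4.X.parT (E4.X.KP_fst hk) hW2 hW2e, zero_add] at hc
  exact absurd hc (by decide)

end P

end E4
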