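import Pool.Agent.Lib.MP_8a95e3_al.PX9a

/-!
# PX9b : the field `o3`
-/

noncomputable section

namespace E4

namespace P

open E4.X (FB eB o C T Xl rp ret kls sqs sw Pp pr XL XP Full Ew Ex ps idl TP crs)

variable {V Z E : Type} [AddCommGroup V] [CommRing Z] [Module Z V] [Ring E] [Algebra Z E]

private theorem PX9b_z2 (a : ZMod 2) : a = 0 ∨ a = 1 := by
  revert a
  decide

private theorem PX9b_coe {H : Finset ℕ} {m : ℕ} (hm : m ∈ H) :
    (((H.erase m).sort (· ≤ ·) ++ [m] : List ℕ) : Multiset ℕ) = H.val := by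
  rw [← Multiset.coe_add, Finset.sort_eq, Finset.erase_val, Multiset.coe_singleton, add_comm,
    Multiset.singleton_add]
  exact Multiset.cons_erase hm

private theorem PX9b_sort (H : Finset ℕ) : ((H.sort (· ≤ ·) : List ℕ) : Multiset ℕ) = H.val :=
  Finset.sort_eq _ _

private theorem PX9b_crs_mem {P : AddSubgroup FB} (hP : E4.X.TI P) (m m' : ℕ) {f : FB} (h : f ∈ P) : crs m m' f ∈ P :=
  P.add_mem (P.add_mem (hP.endo _ f h) h) (hP.endo _ f h)

private theorem PX9b_XL1 (m : ℕ) : XL [m] = Xl m := by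
  unfold XL
  rw [List.map_singleton, List.prod_singleton]

private theorem PX9b_XL2 (m m' : ℕ) : XL [m, m'] = Xl m * Xl m' := by
  unfold XL
  rw [List.map_cons, List.map_singleton, List.prod_cons, List.prod_singleton]

private theorem PX9b_rpX {j m : ℕ} (h : j ≠ m) (g : F) : eB (rp m g) (Xl j) = Xl j := E4.X.eB_Xl_rp_ne g h

private theorem PX9b_rpX2 {j m : ℕ} (h : j ≠ m) (g : F) : eB (rp m g) (Xl j ^ 2) = Xl j ^ 2 := by
  rw [map_pow, PX9b_rpX h]

/-- cross effect of the first main term -/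
private theorem PX9b_c1 {j m m' : ℕ} (h : j ≠ m) {A B : List ℕ} (hA : m ∉ A) (hB : m ∉ B) :
    crs m m' (Xl j * XL (A ++ m :: B) * Xl j ^ 2) = Xl j * XL (A ++ m :: m' :: B) * Xl j ^ 2 :=
  E4.X.crs_mul (Xl j) (Xl j ^ 2) A B (PX9b_rpX h) (PX9b_rpX2 h) hA hB

/-- cross effect of the second main term -/
private theorem PX9b_c2 {H : Finset ℕ} {j m m' : ℕ} (h : j ≠ m) :
    crs m m' (XP (H.erase m) * (Xl j * Xl m * Xl j ^ 2)) = XP (H.erase m) * (Xl j * (Xl m * Xl m') * Xl j ^ 2) := by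
  have e1 : XP (H.erase m) * (Xl j * Xl m * Xl j ^ 2) = (XP (H.erase m) * Xl j) * XL ([] ++ m :: []) * Xl j ^ 2 := by
    rw [List.nil_append, PX9b_XL1]
    simp only [mul_assoc]
  rw [e1, E4.X.crs_mul (XP (H.erase m) * Xl j) (Xl j ^ 2) [] []]
  · rw [List.nil_append, PX9b_XL2]
    simp only [mul_assoc]
  · intro g
    rw [map_mul, PX9b_rpX h]
    congr 1
    apply E4.X.XP_fix
    intro i hi
    rw [E4.X.rp_x, if_neg (Finset.ne_of_mem_erase hi)]
  · exact PX9b_rpX2 h
  · exact List.not_mem_nil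
  · exact List.not_mem_nil

section

variable {K : PAlg F V Z E} {e : FB →+* E} {P0 : AddSubgroup FB} (M : Md K e P0)

include M

/-- all evaluations with the letters of `Q` at squares.  PROOF: `Md.sq_iff` (`j ∉ Q`). -/
theorem Md.trv_van {Q : Finset ℕ} {j : ℕ} (hj : j ∉ Q) {f : FB} (h : eB (sqs Q) f ∈ P0) (u : ℕ → F) (a b c : F) :
    evx e (trv u j a b c) f = 0 := by
  refine (M.sq_iff Q f).1 h _ ?_
  intro i hi
  refine ⟨u i, ?_⟩
  unfold trv
  rw [Function.update_of_ne]
  rintro rfl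
  exact hj hi

/-- **`α₁ = 0`, the number of letters is odd and at least three**.  PROOF: if `α₁ = 1`: `Md.o3L` with `v = H.sort (· ≤ ·)`, `f = α₂ • (XP (H.erase m) * (Xl j * Xl m * Xl j ^ 2))`,
`Ms = [(H.erase m).sort ++ [m]]` if `α₂ = 1` and `[]` if `α₂ = 0` (`Md.trv_m`), `Md.trv_van`. -/
theorem Md.o3_odd [Nontrivial E] {H Q : Finset ℕ} {j m : ℕ} (hj : j ∉ H) (hQ : Q ⊆ H) (hm : m ∈ H)
    {w k : FB} (hk : (w, k) ∈ TP j) (hw : Full H w) (hodd : H.card.bodd = true) (h3 : 3 ≤ H.card) {α₁ α₂ : ZMod 2}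
    (h : eB (sqs Q) (k + α₁ • (Xl j * XP H * Xl j ^ 2) + α₂ • (XP (H.erase m) * (Xl j * Xl m * Xl j ^ 2))) ∈ P0) :
    α₁ = 0 := by
  rcases PX9b_z2 α₁ with h1 | h1
  · exact h1
  exfalso
  subst h1
  have hmj : m ≠ j := by
    rintro rfl
    exact hj hm
  have hjQ : j ∉ Q := fun hq => hj (hQ hq)
  have hn : (j :: H.sort (· ≤ ·)).Nodup := by
    rw [List.nodup_cons]
    exact ⟨fun hh => hj ((Finset.mem_sort _).1 hh), Finset.sort_nodup _ _⟩
  have hlen : (H.sort (· ≤ ·)).length = H.card := Finset.length_sort _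
  have hw' : Full (H.sort (· ≤ ·)).toFinset w := by
    rw [Finset.sort_toFinset]
    exact hw
  have hje : j ∉ (H.erase m).sort (· ≤ ·) := fun hh =>
    hj (Finset.mem_of_mem_erase ((Finset.mem_sort _).1 hh))
  rcases PX9b_z2 α₂ with h2 | h2
  · subst h2
    refine M.o3L (H.sort (· ≤ ·)) j hn (by rw [hlen]; exact hodd) (by rw [hlen]; exact h3) hk hw' []
      (fun L hL => absurd hL List.not_mem_nil) (f := 0) ?_ ?_
    · intro u a b c
      rw [map_zero, List.map_nil, List.sum_nil, smul_zero]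
    · intro u a b c
      have hv := M.trv_van hjQ h u a b c
      rw [one_smul, zero_smul] at hv
      exact hv
  · subst h2
    refine M.o3L (H.sort (· ≤ ·)) j hn (by rw [hlen]; exact hodd) (by rw [hlen]; exact h3) hk hw'
      [(H.erase m).sort (· ≤ ·) ++ [m]] ?_ (f := XP (H.erase m) * (Xl j * Xl m * Xl j ^ 2)) ?_ ?_
    · intro L hL
      rw [List.mem_singleton] at hL
      rw [hL, ← Multiset.coe_eq_coe, PX9b_coe hm, PX9b_sort]
    · intro u a b c
      rw [List.map_singleton, List.sum_singleton, E4.X.XP_XL]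
      exact M.trv_m u a b c hje hmj
    · intro u a b c
      have hv := M.trv_van hjQ h u a b c
      rw [one_smul, one_smul] at hv
      exact hv

/-- **`α₁ = 0`, the number of letters is even (and at least two)**.
PROOF: let `m'` be a letter outside `insert j H`.  `E4.X.crs_P0` (with `M.ti`; `m`, `m' ∉ Q`) and `Md.trv_van`: the evaluations of `crs m m'` of the element vanish.  `crs m m'` of the
element is `crs m m' k + α₁ • (Xl j * XL (A ++ m :: m' :: B) * Xl j ^ 2) + α₂ • (XP (H.erase m) * (Xl j * (Xl m * Xl m') * Xl j ^ 2))`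
(`E4.X.crs_add`, `E4.X.crs_smul`, `E4.X.crs_mul`, `E4.X.sort_split`).  If `α₁ = 1`: `Md.o3L` with `v = A ++ m :: m' :: B` (`v.toFinset = insert m' H`, odd length `H.card + 1 ≥ 3`), `TP_crs`,
`E4.X.crs_full`, and `Md.trv_mm` (word `(H.erase m).sort ++ [m', m]`). -/
theorem Md.o3_even [Nontrivial E] {H Q : Finset ℕ} {j m : ℕ} (hj : j ∉ H) (hQ : Q ⊆ H) (hm : m ∈ H) (hmQ : m ∉ Q)
    {w k : FB} (hk : (w, k) ∈ TP j) (hw : Full H w) (hev : H.card.bodd = false) {α₁ α₂ : ZMod 2}
    (h : eB (sqs Q) (k + α₁ • (Xl j * XP H * Xl j ^ 2) + α₂ • (XP (H.erase m) * (Xl j * Xl m * Xl j ^ 2))) ∈ P0) :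
    α₁ = 0 := by
  rcases PX9b_z2 α₁ with h1 | h1
  · exact h1
  exfalso
  subst h1
  have hmj : m ≠ j := by
    rintro rfl
    exact hj hm
  have hjQ : j ∉ Q := fun hq => hj (hQ hq)
  obtain ⟨m', hm'⟩ := Infinite.exists_notMem_finset (insert j H)
  rw [Finset.mem_insert, not_or] at hm'
  obtain ⟨hm'j, hm'H⟩ := hm'
  obtain ⟨A, B, hAB, hA, hB⟩ := E4.X.sort_split hm
  have hcr := E4.X.crs_P0 M.ti hmQ (fun hq => hm'H (hQ hq)) h
  have hXP : XP H = XL (A ++ m :: B) := by
    rw [E4.X.XP_XL, hAB]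
  rw [E4.X.crs_add, E4.X.crs_add, E4.X.crs_smul, E4.X.crs_smul, hXP, PX9b_c1 hmj.symm hA hB, PX9b_c2 hmj.symm] at hcr
  have hcoe : ((A ++ m :: B : List ℕ) : Multiset ℕ) = H.val := by
    rw [← hAB]
    exact PX9b_sort H
  have hcoe2 : ((A ++ m :: m' :: B : List ℕ) : Multiset ℕ) = m' ::ₘ H.val := by
    rw [← hcoe, Multiset.cons_coe, Multiset.coe_eq_coe]
    have e1 : (A ++ m :: m' :: B).Perm (m :: (A ++ m' :: B)) := List.perm_middle
    have e2 : (A ++ m' :: B).Perm (m' :: (A ++ B)) := List.perm_middle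
    have e3 : (A ++ m :: B).Perm (m :: (A ++ B)) := List.perm_middle
    exact (e1.trans ((e2.cons m).trans (List.Perm.swap _ _ _))).trans (e3.symm.cons m')
  have hval : m' ::ₘ H.val = (insert m' H).val := (Finset.insert_val_of_notMem hm'H).symm
  have hnv : (A ++ m :: m' :: B).Nodup := by
    rw [← Multiset.coe_nodup, hcoe2, hval]
    exact (insert m' H).nodup
  have hfin : (A ++ m :: m' :: B).toFinset = insert m' H := by
    ext i
    rw [List.mem_toFinset, ← Multiset.mem_coe, hcoe2, hval]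
    exact Iff.rfl
  have hn : (j :: (A ++ m :: m' :: B)).Nodup := by
    rw [List.nodup_cons]
    refine ⟨fun hh => ?_, hnv⟩
    rw [← Multiset.mem_coe, hcoe2, Multiset.mem_cons] at hh
    rcases hh with hh | hh
    · exact hm'j hh.symm
    · exact hj hh
  have hlen : (A ++ m :: m' :: B).length = H.card + 1 := by
    rw [← Multiset.coe_card, hcoe2, Multiset.card_cons]
    rfl
  have hpos : 1 ≤ H.card := Finset.card_pos.2 ⟨m, hm⟩
  have h2 : 2 ≤ H.card := by
    rcases Nat.lt_or_ge H.card 2 with hlt | hge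
    · have he : H.card = 1 := by omega
      rw [he] at hev
      exact absurd hev (by decide)
    · exact hge
  have hodd : (A ++ m :: m' :: B).length.bodd = true := by
    rw [hlen, Nat.bodd_succ, hev]
    rfl
  have hw' : Full (A ++ m :: m' :: B).toFinset (crs m m' w) := by
    rw [hfin]
    exact E4.X.crs_full hw hm hm'H
  have hje : j ∉ (H.erase m).sort (· ≤ ·) := fun hh =>
    hj (Finset.mem_of_mem_erase ((Finset.mem_sort _).1 hh))
  rcases PX9b_z2 α₂ with h4 | h4
  · subst h4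
    refine M.o3L (A ++ m :: m' :: B) j hn hodd (by rw [hlen]; omega) (TP_crs hmj hk) hw' []
      (fun L hL => absurd hL List.not_mem_nil) (f := 0) ?_ ?_
    · intro u a b c
      rw [map_zero, List.map_nil, List.sum_nil, smul_zero]
    · intro u a b c
      have hv := M.trv_van hjQ hcr u a b c
      rw [one_smul, zero_smul] at hv
      exact hv
  · subst h4
    refine M.o3L (A ++ m :: m' :: B) j hn hodd (by rw [hlen]; omega) (TP_crs hmj hk) hw'
      [(H.erase m).sort (· ≤ ·) ++ [m', m]] ?_ (f := XP (H.erase m) * (Xl j * (Xl m * Xl m') * Xl j ^ 2)) ?_ ?_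
    · intro L hL
      rw [List.mem_singleton] at hL
      rw [hL, ← Multiset.coe_eq_coe, hcoe2, ← PX9b_coe hm, Multiset.cons_coe, Multiset.coe_eq_coe]
      exact List.perm_middle
    · intro u a b c
      rw [List.map_singleton, List.sum_singleton, E4.X.XP_XL]
      exact M.trv_mm u a b c hje hmj hm'j
    · intro u a b c
      have hv := M.trv_van hjQ hcr u a b c
      rw [one_smul, one_smul] at hv
      exact hv

/-- **`α₁ = 0`, one letter**.  PROOF: `Q = ∅`, `H = {m}`, `eB (sqs ∅) f = f` (`eB_id`).  Let `m'`, `m''` be two new letters.  Apply `crs m m'` and then `crs m' m''` to the element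
`k + α₁ • (Xl j * Xl m * Xl j ^ 2)`: the main term becomes `α₁ • (Xl j * XL [m, m', m''] * Xl j ^ 2)`.  If `α₁ = 1`: `Md.o3L` with `v = [m, m', m'']`, `Ms = []`, `f = 0`. -/
theorem Md.o3_one [Nontrivial E] {j m : ℕ} (hj : m ≠ j) {w k : FB} (hk : (w, k) ∈ TP j) (hw : Full {m} w) {α₁ : ZMod 2}
    (h : k + α₁ • (Xl j * XP {m} * Xl j ^ 2) ∈ P0) : α₁ = 0 := by
  rcases PX9b_z2 α₁ with h1 | h1
  · exact h1
  exfalso
  subst h1
  obtain ⟨m', hm'⟩ := Infinite.exists_notMem_finset ({j, m} : Finset ℕ)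
  obtain ⟨m'', hm''⟩ := Infinite.exists_notMem_finset ({j, m, m'} : Finset ℕ)
  simp only [Finset.mem_insert, Finset.mem_singleton, not_or] at hm' hm''
  obtain ⟨h1, h2⟩ := hm'
  obtain ⟨h3, h4, h5⟩ := hm''
  have hX : XP {m} = XL ([] ++ m :: []) := by
    rw [E4.X.XP_XL, Finset.sort_singleton]
    rfl
  have hcr := PX9b_crs_mem M.ti m' m'' (PX9b_crs_mem M.ti m m' h)
  rw [one_smul, E4.X.crs_add, hX, PX9b_c1 (Ne.symm hj) List.not_mem_nil List.not_mem_nil] at hcr
  have e1 : ([] ++ m :: m' :: [] : List ℕ) = [m] ++ m' :: [] := rfl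
  rw [E4.X.crs_add, e1, PX9b_c1 (Ne.symm h1) (by rw [List.mem_singleton]; exact h2) List.not_mem_nil] at hcr
  have hw1 : Full (insert m' {m}) (crs m m' w) :=
    E4.X.crs_full hw (Finset.mem_singleton_self m) (by rw [Finset.mem_singleton]; exact h2)
  have hw2 : Full (insert m'' (insert m' {m})) (crs m' m'' (crs m m' w)) := by
    refine E4.X.crs_full hw1 (Finset.mem_insert_self _ _) ?_
    simp only [Finset.mem_insert, Finset.mem_singleton, not_or]
    exact ⟨h5, h4⟩
  have hfin : ([m] ++ m' :: m'' :: [] : List ℕ).toFinset = insert m'' (insert m' {m}) := by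
    ext i
    simp only [List.mem_toFinset, List.cons_append, List.nil_append, List.mem_cons, List.not_mem_nil, or_false,
      Finset.mem_insert, Finset.mem_singleton]
    tauto
  have hl : ([m] ++ m' :: m'' :: [] : List ℕ).length = 3 := rfl
  refine M.o3L ([m] ++ m' :: m'' :: []) j ?_ (by rw [hl]; decide) (by rw [hl]) (TP_crs h1 (TP_crs hj hk)) (by rw [hfin]; exact hw2) []
    (fun L hL => absurd hL List.not_mem_nil) (f := 0) ?_ ?_
  · simp only [List.cons_append, List.nil_append, List.nodup_cons, List.mem_cons, List.not_mem_nil, or_false, not_or,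
      not_false_eq_true, List.nodup_nil, and_true]
    exact ⟨⟨Ne.symm hj, Ne.symm h1, Ne.symm h3⟩, ⟨Ne.symm h2, Ne.symm h4⟩, Ne.symm h5⟩
  · intro u a b c
    rw [map_zero, List.map_nil, List.sum_nil, smul_zero]
  · intro u a b c
    rw [add_zero]
    exact (M.mem_iff _).1 hcr _

/-- **`α₂ = 0`**.
PROOF: for all `u a b c`: `0 = evx e (trv u j a b c) (…) = τ(a,b,c) • (∑_{W} wE t + α₂ • wE t ((H.erase m).sort ++ [m]))` (`Md.trv_van`, `Md.TP_ev`, `Md.trv_w` with the words `W` of `w` from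
`E4.X.full_words`, `Md.trv_m`).  `can_tau_t` (`K.tf_E`): `∑_{W} wE t + α₂ • wE t (…) = 0` for all `u`.  If `α₂ = 1`: `cnt` with `S = H.val`, `Ms = ((H.erase m).sort ++ [m]) :: W` says
`W.length + 1 = 0` in `ZMod 2`, `E4.X.parT` with `E4.X.TP_fst hk` says `W.length = 0`. -/
theorem Md.o3_two [Nontrivial E] {H Q : Finset ℕ} {j m : ℕ} (hj : j ∉ H) (hQ : Q ⊆ H) (hm : m ∈ H)
    {w k : FB} (hk : (w, k) ∈ TP j) (hw : Full H w) {α₂ : ZMod 2}
    (h : eB (sqs Q) (k + α₂ • (XP (H.erase m) * (Xl j * Xl m * Xl j ^ 2))) ∈ P0) : α₂ = 0 := by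
  rcases PX9b_z2 α₂ with h1 | h1
  · exact h1
  exfalso
  subst h1
  have hmj : m ≠ j := by
    rintro rfl
    exact hj hm
  have hjQ : j ∉ Q := fun hq => hj (hQ hq)
  have hje : j ∉ (H.erase m).sort (· ≤ ·) := fun hh =>
    hj (Finset.mem_of_mem_erase ((Finset.mem_sort _).1 hh))
  obtain ⟨W, hW1, hW2⟩ := E4.X.full_words hw
  have key : ∀ u : ℕ → F, ((((H.erase m).sort (· ≤ ·) ++ [m]) :: W).map
      (fun L => wE K (fun i => K.t (u i)) L)).sum = 0 := by
    intro u
    apply can_tau_t K K.tf_E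
    intro a b c
    have hv := M.trv_van hjQ h u a b c
    have hT : evx e (trv u j a b c) k
        = K.tau (K.t a) (K.t b) (K.t c) • (W.map (fun L => wE K (fun i => K.t (u i)) L)).sum := by
      have h2 := M.TP_ev (fun i => u i ^ 2) a b c hk
      rw [M.trv_w u hj hw.inn hW2] at h2
      exact h2
    rw [one_smul, map_add, hT, E4.X.XP_XL, M.trv_m u a b c hje hmj, ← smul_add] at hv
    rw [List.map_cons, List.sum_cons, add_comm]
    exact hv
  have h2 := cnt (K := K) H.val H.nodup (((H.erase m).sort (· ≤ ·) ++ [m]) :: W) (by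
    intro L hL
    rw [List.mem_cons] at hL
    rcases hL with hL | hL
    · rw [hL]
      exact PX9b_coe hm
    · exact hW1 L hL) key
  have h3 := E4.X.parT (E4.X.TP_fst hk) hW1 hW2
  rw [List.length_cons, Nat.cast_add, h3, zero_add, Nat.cast_one] at h2
  exact one_ne_zero h2

/-- **last step**.  PROOF: `Md.sq_iff`: let `W : ℕ → F` with `W i` a square for `i ∈ Q`.  For all `a b c` the evaluation `Function.update W j (a² b² c²)` also has squares at
`Q` (`j ∉ Q`), so `0 = evx e (Function.update W j (a² b² c²)) k = τ(a,b,c) • evx e (Function.update W j 1) w = τ(a,b,c) • evx e W w` (`Md.TP_ev`, `evx_congr` as `w` does not contain `j`).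
`can_tau_t` (`K.tf_E`). -/
theorem Md.o3_w [Nontrivial E] {H Q : Finset ℕ} {j : ℕ} (hj : j ∉ H) (hQ : Q ⊆ H)
    {w k : FB} (hk : (w, k) ∈ TP j) (hw : Full H w) (h : eB (sqs Q) k ∈ P0) : eB (sqs Q) w ∈ P0 := by
  have hjQ : j ∉ Q := fun hq => hj (hQ hq)
  refine (M.sq_iff Q w).2 ?_
  intro W hW
  have e1 : evx e W w = evx e (Function.update W j 1) w := by
    refine evx_congr e hw.inn ?_
    intro i hi
    rw [Function.update_of_ne]
    rintro rfl
    exact hj hi
  rw [e1]
  apply can_tau_t K K.tf_E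
  intro a b c
  rw [← M.TP_ev W a b c hk]
  refine (M.sq_iff Q k).1 h _ ?_
  intro i hi
  obtain ⟨v, hv⟩ := hW i hi
  refine ⟨v, ?_⟩
  rw [Function.update_of_ne]
  · exact hv
  · rintro rfl
    exact hjQ hi

/-- **the field `o3`**.  PROOF: `α₁ = 0` by `Md.o3_odd`, `Md.o3_even` or `Md.o3_one` (`H.card = 1`: then `α₂ = 0`, `H = {m}`, `Q = ∅`), then `Md.o3_two`, then `Md.o3_w`. -/
theorem Md.o3 [Nontrivial E] : ∀ (H Q : Finset ℕ) (j m : ℕ), j ∉ H → Q ⊆ H → m ∈ H → m ∉ Q → ∀ w k : FB, (w, k) ∈ TP j → Full H w →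
    ∀ α₁ α₂ : ZMod 2, (H.card ≤ 1 → α₂ = 0) →
    eB (sqs Q) (k + α₁ • (Xl j * XP H * Xl j ^ 2) + α₂ • (XP (H.erase m) * (Xl j * Xl m * Xl j ^ 2))) ∈ P0 →
    α₁ = 0 ∧ α₂ = 0 ∧ eB (sqs Q) w ∈ P0 := by
  intro H Q j m hj hQ hm hmQ w k hk hw α₁ α₂ hc h
  have hmj : m ≠ j := by
    rintro rfl
    exact hj hm
  have h1 : α₁ = 0 := by
    rcases Nat.lt_or_ge H.card 2 with hlt | hge
    · have hpos : 1 ≤ H.card := Finset.card_pos.2 ⟨m, hm⟩
      have hcard : H.card = 1 := by omega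
      have hα : α₂ = 0 := hc (by omega)
      obtain ⟨m0, hm0⟩ := Finset.card_eq_one.1 hcard
      have hmm : m = m0 := by
        rw [hm0, Finset.mem_singleton] at hm
        exact hm
      subst hmm
      have hQe : Q = ∅ := by
        rw [Finset.eq_empty_iff_forall_notMem]
        intro i hi
        have hi2 := hQ hi
        rw [hm0, Finset.mem_singleton] at hi2
        rw [hi2] at hi
        exact hmQ hi
      subst hQe
      subst hm0
      subst hα
      rw [zero_smul, add_zero, E4.X.eB_id (sqs ∅) (fun i => by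
        rw [E4.X.sqs_x, if_neg (Finset.notMem_empty i)])] at h
      exact M.o3_one hmj hk hw h
    · rcases hb : H.card.bodd with _ | _
      · exact M.o3_even hj hQ hm hmQ hk hw hb h
      · refine M.o3_odd hj hQ hm hk hw hb ?_ h
        rcases Nat.lt_or_ge H.card 3 with hlt | hge3
        · have he : H.card = 2 := by omega
          rw [he] at hb
          exact absurd hb (by decide)
        · exact hge3
  subst h1
  rw [zero_smul, add_zero] at h
  have h2 : α₂ = 0 := M.o3_two hj hQ hm hk hw h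
  subst h2
  rw [zero_smul, add_zero] at h
  exact ⟨rfl, rfl, M.o3_w hj hQ hk hw h⟩

end

end P

end E4
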