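import Pool.Agent.Lib.MP_8a95e3_al.T1

/-!
# PI1 : cancellation; the ideal `D` and the ring of operators
-/

namespace E4

namespace TPr

variable {A : Type} [Ring A] (P : TPr A)

private theorem PI1_hx (g : ℕ → F) : hom g ∘ x = g := by
  funext i
  exact hom_x g i

theorem ee_x (i j : ℕ) : ee i (x j) = x (2 * j + i) := by
  unfold ee
  exact FreeGroup.lift_apply_of

/-- Cancellation of a natural function from the left. -/
theorem nat_left_cancel (f : (ℕ → F) → A) (hf : ∀ (φ : F →* F) g, P.E φ (f g) = f (φ ∘ g)) (hne : ∃ g, f g ≠ 0)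
    (z : A) (h : ∀ g, f g * z = 0) : z = 0 := by
  obtain ⟨n, hn⟩ := P.fin_supp z
  obtain ⟨φ, hφ⟩ : ∃ φ : F →* F, φ = hom fun i => if i < n then x (2 * i + 1) else x (2 * (i - n)) := ⟨_, rfl⟩
  have h2 : P.E φ z = P.E (ee 1) z := by
    refine hn φ (ee 1) fun i hi => ?_
    rw [hφ, hom_x, if_pos hi, ee_x]
  have h3 := congrArg (P.E φ) (h fun i => x (i + n))
  have h4 : (φ ∘ fun i => x (i + n)) = ee 0 ∘ x := by
    funext i
    show φ (x (i + n)) = ee 0 (x i)
    rw [hφ, hom_x, if_neg (by omega), ee_x, Nat.add_sub_cancel, add_zero]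
  rw [map_mul, map_zero, hf, h2, h4, ← hf] at h3
  rcases P.prime _ _ h3 with h5 | h5
  · obtain ⟨g, hg⟩ := hne
    refine absurd ?_ hg
    rw [← PI1_hx g, ← hf, h5, map_zero]
  · exact h5

/-- Cancellation of a natural function from the right. -/
theorem nat_right_cancel (f : (ℕ → F) → A) (hf : ∀ (φ : F →* F) g, P.E φ (f g) = f (φ ∘ g)) (hne : ∃ g, f g ≠ 0)
    (z : A) (h : ∀ g, z * f g = 0) : z = 0 := by
  obtain ⟨n, hn⟩ := P.fin_supp z
  obtain ⟨φ, hφ⟩ : ∃ φ : F →* F, φ = hom fun i => if i < n then x (2 * i) else x (2 * (i - n) + 1) := ⟨_, rfl⟩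
  have h2 : P.E φ z = P.E (ee 0) z := by
    refine hn φ (ee 0) fun i hi => ?_
    rw [hφ, hom_x, if_pos hi, ee_x, add_zero]
  have h3 := congrArg (P.E φ) (h fun i => x (i + n))
  have h4 : (φ ∘ fun i => x (i + n)) = ee 1 ∘ x := by
    funext i
    show φ (x (i + n)) = ee 1 (x i)
    rw [hφ, hom_x, if_neg (by omega), ee_x, Nat.add_sub_cancel]
  rw [map_mul, map_zero, hf, h2, h4, ← hf] at h3
  rcases P.prime _ _ h3 with h5 | h5
  · exact h5
  · obtain ⟨g, hg⟩ := hne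
    refine absurd ?_ hg
    rw [← PI1_hx g, ← hf, h5, map_zero]

/-- The right ideal (in fact a two-sided ideal) generated by the products of two squares. -/
def Dd : Submodule Aᵐᵒᵖ A := Submodule.span Aᵐᵒᵖ {y | ∃ u v : F, y = P.t u * P.t v}

theorem tt_mem_Dd (u v : F) (a : A) : P.t u * P.t v * a ∈ P.Dd := by
  have h : P.t u * P.t v ∈ P.Dd := Submodule.subset_span ⟨u, v, rfl⟩
  exact P.Dd.smul_mem (MulOpposite.op a) h

theorem Dd_mul {m : A} (hm : m ∈ P.Dd) (a : A) : m * a ∈ P.Dd := P.Dd.smul_mem (MulOpposite.op a) hm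

/-- Induction over `D`. -/
theorem Dd_ind {p : A → Prop} (h0 : p 0) (hadd : ∀ a b, p a → p b → p (a + b))
    (hw : ∀ (u v : F) (a : A), p (P.t u * P.t v * a)) : ∀ m ∈ P.Dd, p m := by
  intro m hm
  unfold Dd at hm
  have h1 : ∀ y ∈ {y | ∃ u v : F, y = P.t u * P.t v}, ∀ a : A, p (y * a) := by
    rintro y ⟨u, v, rfl⟩ a
    exact hw u v a
  have h2 : ∀ a : A, p (m * a) := by
    induction hm using Submodule.span_induction with
    | mem y hy => exact h1 y hy
    | zero =>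
      intro a
      rw [zero_mul]
      exact h0
    | add y z _ _ hy hz =>
      intro a
      rw [add_mul]
      exact hadd _ _ (hy a) (hz a)
    | smul c y _ hy =>
      intro a
      have e : (c • y) * a = y * (c.unop * a) := by
        show y * c.unop * a = _
        rw [mul_assoc]
      rw [e]
      exact hy _
  have h3 := h2 1
  rwa [mul_one] at h3

/-- Induction over `A`. -/
theorem A_ind {p : A → Prop} (h0 : p 0) (hadd : ∀ a b, p a → p b → p (a + b)) (hneg : ∀ a, p a → p (-a))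
    (hw : ∀ w : F, p (P.ρ w)) (a : A) : p a := by
  have ha : a ∈ AddSubgroup.closure (Set.range P.ρ) := by
    rw [show AddSubgroup.closure (Set.range P.ρ) = ⊤ from P.spn]
    exact AddSubgroup.mem_top a
  refine AddSubgroup.closure_induction (p := fun a _ => p a) ?_ h0 ?_ ?_ ha
  · rintro _ ⟨w, rfl⟩
    exact hw w
  · intro a b _ _ h1 h2
    exact hadd a b h1 h2
  · intro a _ h1
    exact hneg a h1

/-- `ρ w * t u = t (w u w⁻¹) * ρ w` -/
theorem rho_t (w u : F) : P.ρ w * P.t u = P.t (w * u * w⁻¹) * P.ρ w := by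
  have h := sqe_conj (ρ := P.ρ) u w⁻¹
  rw [inv_inv] at h
  show P.ρ w * sqe P.ρ u = sqe P.ρ (w * u * w⁻¹) * P.ρ w
  rw [← h, mul_assoc, ← map_mul, inv_mul_cancel, map_one, mul_one]

theorem t_rho (w u : F) : P.t u * P.ρ w = P.ρ w * P.t (w⁻¹ * u * w) := by
  have h := P.rho_t w (w⁻¹ * u * w)
  have e : w * (w⁻¹ * u * w) * w⁻¹ = u := by group
  rw [e] at h
  exact h.symm

theorem mul_Dd (a : A) {m : A} (hm : m ∈ P.Dd) : a * m ∈ P.Dd := by
  refine P.A_ind (p := fun a => a * m ∈ P.Dd) ?_ ?_ ?_ ?_ a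
  · rw [zero_mul]
    exact P.Dd.zero_mem
  · intro a b ha hb
    rw [add_mul]
    exact P.Dd.add_mem ha hb
  · intro a ha
    rw [neg_mul]
    exact P.Dd.neg_mem ha
  · intro w
    refine P.Dd_ind (p := fun m => P.ρ w * m ∈ P.Dd) ?_ ?_ ?_ m hm
    · rw [mul_zero]
      exact P.Dd.zero_mem
    · intro a b ha hb
      rw [mul_add]
      exact P.Dd.add_mem ha hb
    · intro u v a
      have e : P.ρ w * (P.t u * P.t v * a) = P.t (w * u * w⁻¹) * P.t (w * v * w⁻¹) * (P.ρ w * a) := by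
        calc P.ρ w * (P.t u * P.t v * a) = (P.ρ w * P.t u) * P.t v * a := by simp only [mul_assoc]
          _ = P.t (w * u * w⁻¹) * (P.ρ w * P.t v) * a := by rw [P.rho_t]; simp only [mul_assoc]
          _ = _ := by rw [P.rho_t]; simp only [mul_assoc]
      rw [e]
      exact P.tt_mem_Dd _ _ _

/-- the ring of the operators on `D` which commute with the right multiplications -/
def Ed : Type := Module.End Aᵐᵒᵖ P.Dd

instance instRingEd : Ring P.Ed := inferInstanceAs (Ring (Module.End Aᵐᵒᵖ P.Dd))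

/-- the underlying function -/
def ap (e : P.Ed) : P.Dd → P.Dd := @DFunLike.coe (Module.End Aᵐᵒᵖ P.Dd) P.Dd (fun _ => P.Dd) _ e

instance instCoeEd : CoeFun P.Ed fun _ => P.Dd → P.Dd := ⟨P.ap⟩

theorem ap_add (e : P.Ed) (m m' : P.Dd) : e (m + m') = e m + e m' :=
  @LinearMap.map_add Aᵐᵒᵖ Aᵐᵒᵖ P.Dd P.Dd _ _ _ _ _ _ (RingHom.id _) e m m'

theorem ap_smul (e : P.Ed) (c : Aᵐᵒᵖ) (m : P.Dd) : e (c • m) = c • e m :=
  @LinearMap.map_smul Aᵐᵒᵖ P.Dd P.Dd _ _ _ _ _ e c m

theorem ap_zero (e : P.Ed) : e 0 = 0 := by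
  have h := P.ap_smul e 0 0
  rwa [zero_smul, zero_smul] at h

theorem Ed_funext {e e' : P.Ed} (h : ∀ m : P.Dd, (e m : A) = e' m) : e = e' :=
  @LinearMap.ext Aᵐᵒᵖ Aᵐᵒᵖ P.Dd P.Dd _ _ _ _ _ _ (RingHom.id _) e e' fun m => Subtype.ext (h m)

/-- construct an operator -/
def mkE (f : P.Dd → P.Dd) (h1 : ∀ m m', f (m + m') = f m + f m') (h2 : ∀ (c : Aᵐᵒᵖ) m, f (c • m) = c • f m) : P.Ed :=
  (({ toFun := f, map_add' := h1, map_smul' := h2 } : P.Dd →ₗ[Aᵐᵒᵖ] P.Dd) : Module.End Aᵐᵒᵖ P.Dd)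

theorem mkE_ap (f : P.Dd → P.Dd) (h1 h2) (m : P.Dd) : P.mkE f h1 h2 m = f m := rfl

theorem add_ap (e e' : P.Ed) (m : P.Dd) : (e + e') m = e m + e' m := rfl

theorem mul_ap (e e' : P.Ed) (m : P.Dd) : (e * e') m = e (e' m) := rfl

theorem one_ap (m : P.Dd) : (1 : P.Ed) m = m := rfl

theorem zero_ap (m : P.Dd) : (0 : P.Ed) m = 0 := rfl

/-- left multiplications -/
def lam : A →+* P.Ed where
  toFun a := P.mkE (fun m => ⟨a * m, P.mul_Dd a m.2⟩) (fun m m' => Subtype.ext (mul_add a (m : A) m'))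
    (fun c m => Subtype.ext (by
        show a * ((m : A) * c.unop) = a * (m : A) * c.unop
        rw [mul_assoc]))
  map_one' := P.Ed_funext fun m => one_mul (m : A)
  map_mul' a b := P.Ed_funext fun m => mul_assoc a b (m : A)
  map_zero' := P.Ed_funext fun m => zero_mul (m : A)
  map_add' a b := P.Ed_funext fun m => add_mul a b (m : A)

theorem lam_apply (a : A) (m : P.Dd) : (P.lam a m : A) = a * m := rfl

theorem Ed_mul (e : P.Ed) (m : P.Dd) (a : A) (h : (m : A) * a ∈ P.Dd) : (e ⟨(m : A) * a, h⟩ : A) = (e m : A) * a := by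
  have h1 := P.ap_smul e (MulOpposite.op a) m
  have h2 : (MulOpposite.op a • m : P.Dd) = ⟨(m : A) * a, h⟩ := rfl
  rw [h2] at h1
  rw [h1]
  rfl

/-- the product of two squares as an element of `D` -/
def ttD (u v : F) : P.Dd := ⟨P.t u * P.t v, Submodule.subset_span ⟨u, v, rfl⟩⟩

theorem Ed_ext {e e' : P.Ed} (h : ∀ u v : F, (e (P.ttD u v) : A) = e' (P.ttD u v)) : e = e' := by
  have key : ∀ m ∈ P.Dd, ∃ hm : m ∈ P.Dd, (e ⟨m, hm⟩ : A) = e' ⟨m, hm⟩ := by
    refine P.Dd_ind (p := fun m => ∃ hm : m ∈ P.Dd, (e ⟨m, hm⟩ : A) = e' ⟨m, hm⟩) ?_ ?_ ?_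
    · refine ⟨P.Dd.zero_mem, ?_⟩
      have h1 : (⟨0, P.Dd.zero_mem⟩ : P.Dd) = 0 := rfl
      rw [h1, ap_zero, ap_zero]
    · rintro a b ⟨ha, ha'⟩ ⟨hb, hb'⟩
      refine ⟨P.Dd.add_mem ha hb, ?_⟩
      have h1 : (⟨a + b, P.Dd.add_mem ha hb⟩ : P.Dd) = ⟨a, ha⟩ + ⟨b, hb⟩ := rfl
      rw [h1, ap_add, ap_add, Submodule.coe_add, Submodule.coe_add, ha', hb']
    · intro u v a
      refine ⟨P.tt_mem_Dd u v a, ?_⟩
      have h1 := P.Ed_mul e (P.ttD u v) a (P.tt_mem_Dd u v a)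
      have h2 := P.Ed_mul e' (P.ttD u v) a (P.tt_mem_Dd u v a)
      exact h1.trans ((congrArg (· * a) (h u v)).trans h2.symm)
  refine P.Ed_funext fun m => ?_
  obtain ⟨_, h1⟩ := key m m.2
  exact h1

/-- an operator which is killed by all left multiplications with squares vanishes -/
theorem Ed_left_zero {e : P.Ed} (h : ∀ g : F, P.lam (P.t g) * e = 0) : e = 0 := by
  refine P.Ed_funext fun m => ?_
  refine P.left_zero _ fun g => ?_
  have h1 := congrArg (fun f : P.Ed => ((f m : P.Dd) : A)) (h g)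
  exact h1

/-- an operator which kills all products with a square on the left vanishes -/
theorem Ed_right_zero {e : P.Ed} (h : ∀ g : F, e * P.lam (P.t g) = 0) : e = 0 := by
  refine P.Ed_ext fun u v => ?_
  refine P.right_zero _ fun g => ?_
  have h1 : P.t v * P.t g ∈ P.Dd := Submodule.subset_span ⟨v, g, rfl⟩
  have h2 := congrArg (fun f : P.Ed => ((f ⟨P.t v * P.t g, h1⟩ : P.Dd) : A)) (h u)
  have h3 : (e ⟨P.t u * (P.t v * P.t g), P.mul_Dd _ h1⟩ : A) = 0 := h2
  have h4 := P.Ed_mul e (P.ttD u v) (P.t g) (P.Dd_mul (P.ttD u v).2 _)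
  rw [← h4]
  refine Eq.trans ?_ h3
  congr 2
  exact Subtype.ext (mul_assoc _ _ _)

/-- left multiplications with different elements are different -/
theorem lam_inj {a : A} (h : P.lam a = 0) : a = 0 := by
  refine P.right_zero _ fun v => P.right_zero _ fun g => ?_
  have h1 := congrArg (fun f : P.Ed => ((f (P.ttD v g) : P.Dd) : A)) h
  rw [mul_assoc]
  exact h1

end TPr

end E4
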