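import Pool.Agent.Lib.MP_8a95e3_al.PI1

/-!
# PI2 : scalars commute with the group elements
-/

namespace E4

section

variable {G E : Type*} [Group G] [Ring E] {ρ : G →* E}

private theorem PI2_eq (hc : Cub ρ) {a b : E} (h : a + b = 0) : a = b := by
  have h1 : a + b + b = b := by rw [h, zero_add]
  rw [add_assoc, two_zero hc b, add_zero] at h1
  exact h1

theorem rho_sqe (hc : Cub ρ) (w : G) : ρ w * sqe ρ w = sqe ρ w := by
  have h := hc.cube w
  unfold X at h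
  apply PI2_eq hc
  unfold sqe
  have e : ρ w * (ρ w ^ 2 + 1) + (ρ w ^ 2 + 1) = (ρ w + 1) ^ 3 - (ρ w + ρ w) - (ρ w ^ 2 + ρ w ^ 2) := by noncomm_ring
  rw [e, h, two_zero hc, two_zero hc, sub_zero, sub_zero]

theorem sqe_mid_mul (hc : Cub ρ) (g a b : G) : sqe ρ g * (sqe ρ a * sqe ρ b) * sqe ρ g = 0 := by
  rw [sqe_eq hc a, sqe_eq hc b]
  have e : sqe ρ g * ((ρ a + ρ a⁻¹) * (ρ b + ρ b⁻¹)) * sqe ρ g =
      sqe ρ g * ρ (a * b) * sqe ρ g + sqe ρ g * ρ (a * b⁻¹) * sqe ρ g + sqe ρ g * ρ (a⁻¹ * b) * sqe ρ g +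
        sqe ρ g * ρ (a⁻¹ * b⁻¹) * sqe ρ g := by
    simp only [map_mul]
    noncomm_ring
  rw [e, sqe_mid hc, sqe_mid hc, sqe_mid hc, sqe_mid hc]
  simp

/-- The defect of `z` at `w`. -/
private def dl (ρ : G →* E) (z : E) (w : G) : E := ρ w * z * ρ w⁻¹ + z

private theorem dl_comm_t {z : E} (hz : ∀ g, z * sqe ρ g = sqe ρ g * z) (w g : G) :
    dl ρ z w * sqe ρ g = sqe ρ g * dl ρ z w := by
  have h1 : ρ w⁻¹ * sqe ρ g = sqe ρ (w⁻¹ * g * w) * ρ w⁻¹ := by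
    rw [← sqe_conj, mul_assoc, ← map_mul, mul_inv_cancel, map_one, mul_one]
  have h2 : ρ w * sqe ρ (w⁻¹ * g * w) = sqe ρ g * ρ w := by
    rw [← sqe_conj, ← mul_assoc, ← mul_assoc, ← map_mul, mul_inv_cancel, map_one, one_mul]
  unfold dl
  rw [add_mul, mul_add, hz g]
  congr 1
  calc ρ w * z * ρ w⁻¹ * sqe ρ g = ρ w * (z * sqe ρ (w⁻¹ * g * w)) * ρ w⁻¹ := by
        rw [mul_assoc _ (ρ w⁻¹), h1]; simp only [mul_assoc]
    _ = (ρ w * sqe ρ (w⁻¹ * g * w)) * z * ρ w⁻¹ := by rw [hz]; simp only [mul_assoc]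
    _ = sqe ρ g * (ρ w * z * ρ w⁻¹) := by rw [h2]; simp only [mul_assoc]

private theorem dl_x {z : E} (w : G) : dl ρ z w * ρ w = ρ w * z + z * ρ w := by
  unfold dl
  rw [add_mul, mul_assoc (ρ w * z), ← map_mul, inv_mul_cancel, map_one, mul_one]

private theorem sq_comm {z : E} (hz : ∀ g, z * sqe ρ g = sqe ρ g * z) (w : G) : z * (ρ w * ρ w) = ρ w * ρ w * z := by
  have h := hz w
  unfold sqe at h
  rw [pow_two, mul_add, add_mul, mul_one, one_mul] at h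
  exact add_right_cancel h

/-- the defect commutes with `ρ w` -/
private theorem dl_comm_x (_hc : Cub ρ) {z : E} (hz : ∀ g, z * sqe ρ g = sqe ρ g * z) (w : G) :
    dl ρ z w * ρ w = ρ w * dl ρ z w := by
  rw [dl_x]
  unfold dl
  have h2 : ρ w * (ρ w * z * ρ w⁻¹) = z * ρ w := by
    calc ρ w * (ρ w * z * ρ w⁻¹) = (ρ w * ρ w * z) * ρ w⁻¹ := by simp only [mul_assoc]
      _ = z * ρ w * (ρ w * ρ w⁻¹) := by rw [← sq_comm hz]; simp only [mul_assoc]
      _ = z * ρ w := by rw [← map_mul, mul_inv_cancel, map_one, mul_one]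
  rw [mul_add, h2, add_comm]

private theorem dl_inv (hc : Cub ρ) {z : E} (hz : ∀ g, z * sqe ρ g = sqe ρ g * z) (w : G) :
    dl ρ z w⁻¹ = dl ρ z w := by
  have h1 : dl ρ z w⁻¹ = ρ w⁻¹ * (dl ρ z w * ρ w) := by
    rw [dl_x, mul_add, ← mul_assoc, ← map_mul, inv_mul_cancel, map_one, one_mul]
    unfold dl
    rw [inv_inv, add_comm, mul_assoc]
  rw [h1, dl_comm_x hc hz, ← mul_assoc, ← map_mul, inv_mul_cancel, map_one, one_mul]

/-- the defect kills `sqe w` -/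
private theorem dl_T (hc : Cub ρ) {z : E} (hz : ∀ g, z * sqe ρ g = sqe ρ g * z) (w : G) :
    dl ρ z w * sqe ρ w = 0 := by
  have h1 : dl ρ z w * sqe ρ w = dl ρ z w * ρ w * sqe ρ w := by rw [mul_assoc, rho_sqe hc]
  rw [h1, dl_x, add_mul, mul_assoc, mul_assoc, rho_sqe hc, hz, ← mul_assoc, rho_sqe hc]
  exact two_zero hc _

private theorem rho_sq (hc : Cub ρ) (g : G) : ρ (g ^ 2) = 1 + sqe ρ g := by
  unfold sqe
  rw [map_pow]
  have h := two_zero hc (1 : E)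
  have e : (1 : E) + (ρ g ^ 2 + 1) = ρ g ^ 2 + (1 + 1) := by abel
  rw [e, h, add_zero]

private theorem rho_sq_inv (hc : Cub ρ) (g : G) : ρ (g ^ 2)⁻¹ = 1 + sqe ρ g := by
  have h1 : ρ (g ^ 2) * (1 + sqe ρ g) = 1 := by
    rw [rho_sq hc]
    have e : (1 + sqe ρ g) * (1 + sqe ρ g) = 1 + (sqe ρ g + sqe ρ g) + sqe ρ g * sqe ρ g := by noncomm_ring
    rw [e, two_zero hc, sqe_sq hc, add_zero, add_zero]
  calc ρ (g ^ 2)⁻¹ = ρ (g ^ 2)⁻¹ * (ρ (g ^ 2) * (1 + sqe ρ g)) := by rw [h1, mul_one]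
    _ = 1 + sqe ρ g := by rw [← mul_assoc, ← map_mul, inv_mul_cancel, map_one, one_mul]

private theorem rho_wg (hc : Cub ρ) (w g : G) : ρ (w * g ^ 2) = ρ w * (1 + sqe ρ g) := by
  rw [map_mul, rho_sq hc]

private theorem rho_wg_inv (hc : Cub ρ) (w g : G) : ρ (w * g ^ 2)⁻¹ = (1 + sqe ρ g) * ρ w⁻¹ := by
  rw [mul_inv_rev, map_mul, rho_sq_inv hc]

private theorem dl_wg (hc : Cub ρ) {z : E} (hz : ∀ g, z * sqe ρ g = sqe ρ g * z) (w g : G) :
    dl ρ z (w * g ^ 2) = dl ρ z w := by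
  unfold dl
  rw [rho_wg hc, rho_wg_inv hc]
  congr 1
  have e : ρ w * (1 + sqe ρ g) * z * ((1 + sqe ρ g) * ρ w⁻¹) =
      ρ w * (z * ((1 + sqe ρ g) * (1 + sqe ρ g))) * ρ w⁻¹ := by
    have e1 : (1 + sqe ρ g) * z = z * (1 + sqe ρ g) := by rw [add_mul, mul_add, hz, one_mul, mul_one]
    calc ρ w * (1 + sqe ρ g) * z * ((1 + sqe ρ g) * ρ w⁻¹) = ρ w * ((1 + sqe ρ g) * z) * ((1 + sqe ρ g) * ρ w⁻¹) := by
          simp only [mul_assoc]
      _ = _ := by rw [e1]; simp only [mul_assoc]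
  have e2 : (1 + sqe ρ g) * (1 + sqe ρ g) = 1 := by
    have e : (1 + sqe ρ g) * (1 + sqe ρ g) = 1 + (sqe ρ g + sqe ρ g) + sqe ρ g * sqe ρ g := by noncomm_ring
    rw [e, two_zero hc, sqe_sq hc, add_zero, add_zero]
  rw [e, e2, mul_one]

/-- `δ x c = δ c x⁻¹` -/
private theorem dl_xc (hc : Cub ρ) {z : E} (hz : ∀ g, z * sqe ρ g = sqe ρ g * z) (w g : G) :
    dl ρ z w * (ρ w * sqe ρ g) = dl ρ z w * (sqe ρ g * ρ w⁻¹) := by
  have h1 := dl_T hc hz (w * g ^ 2)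
  rw [dl_wg hc hz, sqe_eq hc, rho_wg hc, rho_wg_inv hc] at h1
  have h2 := dl_T hc hz w
  rw [sqe_eq hc w] at h2
  apply PI2_eq hc
  have e : dl ρ z w * (ρ w * (1 + sqe ρ g) + (1 + sqe ρ g) * ρ w⁻¹) =
      dl ρ z w * (ρ w + ρ w⁻¹) + (dl ρ z w * (ρ w * sqe ρ g) + dl ρ z w * (sqe ρ g * ρ w⁻¹)) := by noncomm_ring
  rw [e, h2, zero_add] at h1
  exact h1

/-- `δ x e = δ e x` for a bracket `e` of two squares -/
private theorem dl_xe (hc : Cub ρ) {z : E} (hz : ∀ g, z * sqe ρ g = sqe ρ g * z) (w a b : G) :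
    dl ρ z w * (ρ w * (sqe ρ a * sqe ρ b)) = dl ρ z w * (sqe ρ a * sqe ρ b * ρ w) := by
  have h1 := dl_xc hc hz w a
  have h2 := dl_xc hc hz w⁻¹ b
  rw [dl_inv hc hz, inv_inv] at h2
  calc dl ρ z w * (ρ w * (sqe ρ a * sqe ρ b)) = dl ρ z w * (ρ w * sqe ρ a) * sqe ρ b := by simp only [mul_assoc]
    _ = dl ρ z w * sqe ρ a * (ρ w⁻¹ * sqe ρ b) := by rw [h1]; simp only [mul_assoc]
    _ = sqe ρ a * (dl ρ z w * (ρ w⁻¹ * sqe ρ b)) := by rw [dl_comm_t hz]; simp only [mul_assoc]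
    _ = sqe ρ a * (dl ρ z w * (sqe ρ b * ρ w)) := by rw [h2]
    _ = (sqe ρ a * dl ρ z w) * (sqe ρ b * ρ w) := by simp only [mul_assoc]
    _ = _ := by rw [← dl_comm_t hz]; simp only [mul_assoc]

private theorem dl_conj (hc : Cub ρ) {z : E} (hz : ∀ g, z * sqe ρ g = sqe ρ g * z) (w a b : G) :
    dl ρ z w * (ρ w * br (sqe ρ a) (sqe ρ b) * ρ w⁻¹) = dl ρ z w * br (sqe ρ a) (sqe ρ b) := by
  have h1 := dl_xe hc hz w a b
  have h2 := dl_xe hc hz w b a
  have h3 : dl ρ z w * (ρ w * br (sqe ρ a) (sqe ρ b)) = dl ρ z w * (br (sqe ρ a) (sqe ρ b) * ρ w) := by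
    unfold br
    rw [mul_add, mul_add, add_mul, mul_add, h1, h2]
  rw [← mul_assoc, h3, ← mul_assoc, mul_assoc _ (ρ w), ← map_mul, mul_inv_cancel, map_one, mul_one]

private theorem dl_br (hc : Cub ρ) {z : E} (hz : ∀ g, z * sqe ρ g = sqe ρ g * z) (w d a b : G) :
    br (sqe ρ d) (br (sqe ρ a) (sqe ρ b)) * dl ρ z w = 0 := by
  obtain ⟨e, he⟩ : ∃ e, e = br (sqe ρ a) (sqe ρ b) := ⟨_, rfl⟩
  have h1 := dl_conj hc hz (w * d ^ 2) a b
  have h2 := dl_conj hc hz w a b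
  rw [dl_wg hc hz, rho_wg hc, rho_wg_inv hc, ← he] at h1
  rw [← he] at h2
  have hm : sqe ρ d * e * sqe ρ d = 0 := by
    rw [he]
    unfold br
    rw [mul_add, add_mul, sqe_mid_mul hc, sqe_mid_mul hc, add_zero]
  have h3 : dl ρ z w * (ρ w * br (sqe ρ d) e * ρ w⁻¹) = 0 := by
    have e1 : dl ρ z w * (ρ w * (1 + sqe ρ d) * e * ((1 + sqe ρ d) * ρ w⁻¹)) =
        dl ρ z w * (ρ w * e * ρ w⁻¹) + dl ρ z w * (ρ w * br (sqe ρ d) e * ρ w⁻¹) +
          dl ρ z w * (ρ w * (sqe ρ d * e * sqe ρ d) * ρ w⁻¹) := by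
      unfold br
      noncomm_ring
    rw [e1, hm, mul_zero, zero_mul, mul_zero, add_zero, h2] at h1
    exact add_eq_left.1 h1
  have h4 : dl ρ z w * br (sqe ρ d) e = 0 := by
    have e2 : dl ρ z w * (ρ w * br (sqe ρ d) e * ρ w⁻¹) = ρ w * (dl ρ z w * br (sqe ρ d) e) * ρ w⁻¹ := by
      calc dl ρ z w * (ρ w * br (sqe ρ d) e * ρ w⁻¹) = (dl ρ z w * ρ w) * br (sqe ρ d) e * ρ w⁻¹ := by
            simp only [mul_assoc]
        _ = _ := by rw [dl_comm_x hc hz]; simp only [mul_assoc]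
    rw [e2] at h3
    calc dl ρ z w * br (sqe ρ d) e = ρ w⁻¹ * (ρ w * (dl ρ z w * br (sqe ρ d) e) * ρ w⁻¹) * ρ w := by
          have e3 : ρ w⁻¹ * (ρ w * (dl ρ z w * br (sqe ρ d) e) * ρ w⁻¹) * ρ w =
              (ρ w⁻¹ * ρ w) * (dl ρ z w * br (sqe ρ d) e) * (ρ w⁻¹ * ρ w) := by simp only [mul_assoc]
          rw [e3, ← map_mul, inv_mul_cancel, map_one, one_mul, mul_one]
      _ = 0 := by rw [h3, mul_zero, zero_mul]
  have hcomm : br (sqe ρ d) e * dl ρ z w = dl ρ z w * br (sqe ρ d) e := by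
    have hd := dl_comm_t hz w d
    have hE : dl ρ z w * e = e * dl ρ z w := by
      rw [he]
      unfold br
      have ha := dl_comm_t hz w a
      have hb := dl_comm_t hz w b
      have e1 : dl ρ z w * (sqe ρ a * sqe ρ b) = sqe ρ a * sqe ρ b * dl ρ z w := by
        rw [← mul_assoc, ha, mul_assoc, hb, mul_assoc]
      have e2 : dl ρ z w * (sqe ρ b * sqe ρ a) = sqe ρ b * sqe ρ a * dl ρ z w := by
        rw [← mul_assoc, hb, mul_assoc, ha, mul_assoc]
      rw [mul_add, add_mul, e1, e2]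
    have e1 : dl ρ z w * (sqe ρ d * e) = sqe ρ d * e * dl ρ z w := by
      rw [← mul_assoc, hd, mul_assoc, hE, mul_assoc]
    have e2 : dl ρ z w * (e * sqe ρ d) = e * sqe ρ d * dl ρ z w := by
      rw [← mul_assoc, hE, mul_assoc, hd, mul_assoc]
    unfold br
    rw [mul_add, add_mul, e1, e2]
  rw [← he, hcomm, h4]

/-- **Scalars commute with the group.** -/
theorem inv_abs (hc : Cub ρ) (z : E) (hz : ∀ g, z * sqe ρ g = sqe ρ g * z)
    (hcan : ∀ δ : E, (∀ d a b, br (sqe ρ d) (br (sqe ρ a) (sqe ρ b)) * δ = 0) → δ = 0) (w : G) :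
    z * ρ w = ρ w * z := by
  have h1 : dl ρ z w = 0 := hcan _ fun d a b => dl_br hc hz w d a b
  have h2 := dl_x (ρ := ρ) (z := z) w
  rw [h1, zero_mul] at h2
  exact (PI2_eq hc h2.symm).symm

end

namespace TPr

variable {A : Type} [Ring A] (P : TPr A)

/-- the representation by operators -/
def rE : F →* P.Ed := (P.lam : A →* P.Ed).comp P.ρ

theorem rE_apply (w : F) : P.rE w = P.lam (P.ρ w) := rfl

theorem rE_sqe (g : F) : sqe P.rE g = P.lam (P.t g) := by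
  unfold sqe t sqe
  rw [rE_apply, map_add, map_pow, map_one]

theorem rE_cub : Cub (H := F) (R := P.Ed) P.rE where
  two := by
    have h := congrArg P.lam P.cub.two
    rwa [map_ofNat, map_zero] at h
  cube := by
    intro h
    have h1 := congrArg P.lam (P.cub.cube h)
    rw [map_zero, map_pow] at h1
    have h2 : P.lam (X P.ρ h) = X P.rE h := by
      unfold X
      rw [map_add, map_one, rE_apply]
    rwa [h2] at h1

theorem br3_ne : ∃ a b c : F, br (P.t a) (br (P.t b) (P.t c)) ≠ 0 := by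
  by_contra hcon
  push Not at hcon
  obtain ⟨a, b, c, d, h⟩ := P.br4_ne
  apply h
  obtain ⟨e, he⟩ : ∃ e, e = br (P.t c) (P.t d) := ⟨_, rfl⟩
  -- all double brackets vanish
  have h1 : P.t a * e = e * P.t a := by
    have h2 := hcon a c d
    rw [← he] at h2
    unfold br at h2
    have h3 := two_zero P.cub (e * P.t a)
    calc P.t a * e = P.t a * e + (e * P.t a + e * P.t a) := by rw [h3, add_zero]
      _ = e * P.t a := by rw [← add_assoc, h2, zero_add]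
  have h1' : P.t b * e = e * P.t b := by
    have h2 := hcon b c d
    rw [← he] at h2
    unfold br at h2
    have h3 := two_zero P.cub (e * P.t b)
    calc P.t b * e = P.t b * e + (e * P.t b + e * P.t b) := by rw [h3, add_zero]
      _ = e * P.t b := by rw [← add_assoc, h2, zero_add]
  rw [← he]
  have h4 : br (P.t a) (P.t b) * e = e * br (P.t a) (P.t b) := by
    unfold br
    have e1 : P.t a * P.t b * e = e * (P.t a * P.t b) := by rw [mul_assoc, h1', ← mul_assoc, h1, mul_assoc]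
    have e2 : P.t b * P.t a * e = e * (P.t b * P.t a) := by rw [mul_assoc, h1, ← mul_assoc, h1', mul_assoc]
    rw [add_mul, mul_add, e1, e2]
  show br (P.t a) (P.t b) * e + e * br (P.t a) (P.t b) = 0
  rw [h4]
  exact two_zero P.cub _

theorem br3_cancel (δ : P.Ed) (h : ∀ d a b, br (sqe P.rE d) (br (sqe P.rE a) (sqe P.rE b)) * δ = 0) : δ = 0 := by
  refine P.Ed_funext fun m => ?_
  refine P.nat_left_cancel (fun g => br (P.t (g 0)) (br (P.t (g 1)) (P.t (g 2)))) ?_ ?_ _ ?_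
  · intro φ g
    unfold br
    simp only [map_add, map_mul, P.E_t]
    rfl
  · obtain ⟨a, b, c, h1⟩ := P.br3_ne
    refine ⟨fun i => if i = 0 then a else if i = 1 then b else c, ?_⟩
    exact h1
  · intro g
    have h1 := h (g 0) (g 1) (g 2)
    rw [rE_sqe, rE_sqe, rE_sqe] at h1
    have h2 : br (P.lam (P.t (g 0))) (br (P.lam (P.t (g 1))) (P.lam (P.t (g 2)))) =
        P.lam (br (P.t (g 0)) (br (P.t (g 1)) (P.t (g 2)))) := by
      unfold br
      simp only [map_add, map_mul]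
    rw [h2] at h1
    exact congrArg (fun f : P.Ed => ((f m : P.Dd) : A)) h1

/-- an operator which commutes with the squares commutes with all left multiplications -/
theorem comm_lam {z : P.Ed} (hz : ∀ g, z * P.lam (P.t g) = P.lam (P.t g) * z) (a : A) : z * P.lam a = P.lam a * z := by
  have h1 : ∀ w, z * P.rE w = P.rE w * z :=
    inv_abs P.rE_cub z (fun g => by rw [rE_sqe]; exact hz g) P.br3_cancel
  refine P.A_ind (p := fun a => z * P.lam a = P.lam a * z) ?_ ?_ ?_ h1 a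
  · rw [map_zero, mul_zero, zero_mul]
  · intro a b ha hb
    rw [map_add, mul_add, add_mul, ha, hb]
  · intro a ha
    rw [map_neg, mul_neg, neg_mul, ha]

/-- an operator which commutes with the squares is central -/
theorem mem_center {z : P.Ed} (hz : ∀ g, z * P.lam (P.t g) = P.lam (P.t g) * z) : z ∈ Subring.center P.Ed := by
  have hc := P.comm_lam hz
  rw [Subring.mem_center_iff]
  intro e
  rw [← sub_eq_zero]
  refine P.Ed_ext fun u v => ?_
  -- multiply from the right with two squares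
  refine P.tt_right_zero _ fun c d => ?_
  have hcd : P.t c * P.t d ∈ P.Dd := (P.ttD c d).2
  obtain ⟨m, hm⟩ : ∃ m : P.Dd, m = P.ttD u v := ⟨_, rfl⟩
  rw [← hm]
  have h1 : ((e * z - z * e) m : A) = (e (z m) : A) - (z (e m) : A) := rfl
  rw [h1, sub_mul]
  have hz' : ∀ (n : P.Dd) (n' : P.Dd), (z n : A) * (n' : A) = (n : A) * (z n' : A) := by
    intro n n'
    have h2 := P.Ed_mul z n (n' : A) (P.Dd_mul n.2 _)
    have h3 := congrArg (fun f : P.Ed => ((f n' : P.Dd) : A)) (hc (n : A))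
    have h4 : (z ⟨(n : A) * (n' : A), P.mul_Dd _ n'.2⟩ : A) = (n : A) * (z n' : A) := h3
    rw [← h2, ← h4]
  obtain ⟨n', hn'⟩ : ∃ n' : P.Dd, n' = P.ttD c d := ⟨_, rfl⟩
  have hn'' : P.t c * P.t d = (n' : A) := by rw [hn']; rfl
  rw [hn'']
  have h2 : (e (z m) : A) * (n' : A) = (e m : A) * (z n' : A) := by
    have h3 := P.Ed_mul e (z m) (n' : A) (P.Dd_mul (z m).2 _)
    have h4 := P.Ed_mul e m (z n' : A) (P.Dd_mul m.2 _)
    rw [← h3, ← h4]
    congr 2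
    exact Subtype.ext (hz' m n')
  have h3 : (z (e m) : A) * (n' : A) = (e m : A) * (z n' : A) := hz' (e m) n'
  rw [h2, h3, sub_self]

end TPr

end E4
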