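import Pool.Agent.Lib.MP_8a95e3_al.PI2

/-!
# PI3 : the central operators `k(a,b)` on `D`
-/

namespace E4

namespace TPr

variable {A : Type} [Ring A] (P : TPr A)

theorem pq_mem_Dd {p q : A} (hp : p ∈ P.Lm) (hq : q ∈ P.Lm) (a : A) : p * q * a ∈ P.Dd := by
  have h1 : ∀ g : F, ∀ q ∈ AddSubgroup.closure (Set.range (sqe P.ρ)), P.t g * q * a ∈ P.Dd := by
    intro g q hq
    induction hq using AddSubgroup.closure_induction with
    | mem y hy =>
      obtain ⟨h, rfl⟩ := hy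
      exact P.tt_mem_Dd g h a
    | zero =>
      rw [mul_zero, zero_mul]
      exact P.Dd.zero_mem
    | add y z _ _ hy hz =>
      rw [mul_add, add_mul]
      exact P.Dd.add_mem hy hz
    | neg y _ hy =>
      rw [mul_neg, neg_mul]
      exact P.Dd.neg_mem hy
  have h3 : ∀ p ∈ AddSubgroup.closure (Set.range (sqe P.ρ)), p * q * a ∈ P.Dd := by
    intro p hp
    induction hp using AddSubgroup.closure_induction with
    | mem y hy =>
      obtain ⟨h, rfl⟩ := hy
      exact h1 h q hq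
    | zero =>
      rw [zero_mul, zero_mul]
      exact P.Dd.zero_mem
    | add y z _ _ hy hz =>
      rw [add_mul, add_mul]
      exact P.Dd.add_mem hy hz
    | neg y _ hy =>
      rw [neg_mul, neg_mul]
      exact P.Dd.neg_mem hy
  exact h3 p hp

theorem q4_mem_Dd {a b w v : A} (ha : a ∈ P.Lm) (hb : b ∈ P.Lm) (hw : w ∈ P.Lm) (hv : v ∈ P.Lm) (y : A) :
    q4 a b w v * y ∈ P.Dd := by
  have h4 : ∀ {c d e f : A}, c ∈ P.Lm → d ∈ P.Lm → c * d * e * f * y ∈ P.Dd := by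
    intro c d e f hc hd
    have h := P.pq_mem_Dd hc hd (e * f * y)
    simpa only [mul_assoc] using h
  unfold q4
  simp only [add_mul]
  exact P.Dd.add_mem (P.Dd.add_mem (P.Dd.add_mem (P.Dd.add_mem (h4 ha hb) (h4 ha hb)) (h4 hw hb)) (h4 hv ha)) (h4 hv hw)

private theorem PI3_t (g : F) : P.t g ∈ P.Lm := sqe_mem g

private theorem PI3_ci {a b p q r s : A} (ha : a ∈ P.Lm) (hb : b ∈ P.Lm) (hp : p ∈ P.Lm) (hq : q ∈ P.Lm)
    (hr : r ∈ P.Lm) (hs : s ∈ P.Lm) (m : A) : p * q * (q4 a b r s * m) = q4 a b p q * (r * s * m) := by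
  have h1 : q * q4 a b r s = q4 a b q r * s := (q4_ci P.cub ha hb hq hr hs).symm
  have h2 : p * q4 a b q r = q4 a b p q * r := (q4_ci P.cub ha hb hp hq hr).symm
  calc p * q * (q4 a b r s * m) = p * (q * q4 a b r s) * m := by simp only [mul_assoc]
    _ = p * (q4 a b q r * s) * m := by rw [h1]
    _ = (p * q4 a b q r) * s * m := by simp only [mul_assoc]
    _ = (q4 a b p q * r) * s * m := by rw [h2]
    _ = q4 a b p q * (r * s * m) := by simp only [mul_assoc]

theorem kD_ex {a b : A} (ha : a ∈ P.Lm) (hb : b ∈ P.Lm) {m : A} (hm : m ∈ P.Dd) :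
    ∃ y : A, y ∈ P.Dd ∧ ∀ c d : F, P.t c * P.t d * y = q4 a b (P.t c) (P.t d) * m := by
  refine P.Dd_ind (p := fun m => ∃ y : A, y ∈ P.Dd ∧ ∀ c d : F, P.t c * P.t d * y = q4 a b (P.t c) (P.t d) * m)
    ?_ ?_ ?_ m hm
  · exact ⟨0, P.Dd.zero_mem, fun c d => by rw [mul_zero, mul_zero]⟩
  · rintro m m' ⟨y, hy, h⟩ ⟨y', hy', h'⟩
    exact ⟨y + y', P.Dd.add_mem hy hy', fun c d => by rw [mul_add, mul_add, h, h']⟩
  · intro u v w
    exact ⟨q4 a b (P.t u) (P.t v) * w, P.q4_mem_Dd ha hb (P.PI3_t u) (P.PI3_t v) w, fun c d =>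
      P.PI3_ci ha hb (P.PI3_t c) (P.PI3_t d) (P.PI3_t u) (P.PI3_t v) _⟩

/-- the function `k(a,b) : D → D` -/
noncomputable def kDf (a b : P.Lm) (m : P.Dd) : P.Dd :=
  ⟨(P.kD_ex a.2 b.2 m.2).choose, (P.kD_ex a.2 b.2 m.2).choose_spec.1⟩

theorem kDf_spec (a b : P.Lm) (m : P.Dd) (c d : F) :
    P.t c * P.t d * (P.kDf a b m : A) = q4 (a : A) b (P.t c) (P.t d) * m := by
  exact (P.kD_ex a.2 b.2 m.2).choose_spec.2 c d

theorem kDf_unique (a b : P.Lm) (m : P.Dd) (y : A)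
    (h : ∀ c d : F, P.t c * P.t d * y = q4 (a : A) b (P.t c) (P.t d) * m) :
    (P.kDf a b m : A) = y := by
  have h2 := P.tt_left_zero ((P.kDf a b m : A) - y) fun c d => by
    rw [mul_sub, P.kDf_spec a b m c d, h, sub_self]
  exact sub_eq_zero.1 h2

/-- the operator `k(a,b)` -/
noncomputable def KD (a b : P.Lm) : P.Ed :=
  P.mkE (fun m => P.kDf a b m)
    (fun m m' => by
      apply Subtype.ext
      refine P.kDf_unique a b (m + m') _ fun c d => ?_
      rw [Submodule.coe_add, Submodule.coe_add, mul_add, mul_add, P.kDf_spec, P.kDf_spec])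
    (fun c m => by
      apply Subtype.ext
      refine P.kDf_unique a b (c • m) _ fun e d => ?_
      show P.t e * P.t d * ((P.kDf a b m : A) * c.unop) = q4 (a : A) b (P.t e) (P.t d) * ((m : A) * c.unop)
      rw [← mul_assoc, P.kDf_spec, mul_assoc])

theorem KD_spec (a b : P.Lm) (m : P.Dd) (c d : F) :
    P.t c * P.t d * (P.KD a b m : A) = q4 (a : A) b (P.t c) (P.t d) * m := P.kDf_spec a b m c d

theorem KD_pq (a b p q : P.Lm) (w : A) (h : (p : A) * q * w ∈ P.Dd) :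
    (P.KD a b ⟨(p : A) * q * w, h⟩ : A) = q4 (a : A) b p q * w :=
  P.kDf_unique a b _ _ fun c d => P.PI3_ci a.2 b.2 (P.PI3_t c) (P.PI3_t d) p.2 q.2 w

/-- the square as an element of `Λ` -/
def tM (g : F) : P.Lm := ⟨P.t g, sqe_mem g⟩

theorem KD_ttD (a b : P.Lm) (u v : F) : (P.KD a b (P.ttD u v) : A) = q4 (a : A) b (P.t u) (P.t v) := by
  have h1 : ((P.tM u : P.Lm) : A) * (P.tM v : P.Lm) * 1 ∈ P.Dd := P.tt_mem_Dd u v 1
  have h2 := P.KD_pq a b (P.tM u) (P.tM v) 1 h1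
  have h3 : P.ttD u v = ⟨((P.tM u : P.Lm) : A) * (P.tM v : P.Lm) * 1, h1⟩ := Subtype.ext (mul_one _).symm
  rw [h3, h2, mul_one]
  rfl

theorem KD_center (a b : P.Lm) : P.KD a b ∈ Subring.center P.Ed := by
  refine P.mem_center fun g => ?_
  refine P.Ed_ext fun u v => ?_
  show (P.KD a b (P.lam (P.t g) (P.ttD u v)) : A) = P.t g * (P.KD a b (P.ttD u v) : A)
  have h1 : ((P.tM g : P.Lm) : A) * (P.tM u : P.Lm) * P.t v ∈ P.Dd := P.tt_mem_Dd g u _
  have h2 := P.KD_pq a b (P.tM g) (P.tM u) (P.t v) h1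
  have h3 : P.lam (P.t g) (P.ttD u v) = ⟨((P.tM g : P.Lm) : A) * (P.tM u : P.Lm) * P.t v, h1⟩ :=
    Subtype.ext (mul_assoc _ _ _).symm
  rw [h3, h2, P.KD_ttD]
  exact q4_ci P.cub a.2 b.2 (P.PI3_t g) (P.PI3_t u) (P.PI3_t v)

/-- the scalars -/
abbrev Zc : Type := Subring.center P.Ed

/-- the vectors -/
def Vv : Submodule P.Zc P.Ed := Submodule.span P.Zc (Set.range fun g => P.lam (P.t g))

/-- the squares as vectors -/
def tv (g : F) : P.Vv := ⟨P.lam (P.t g), Submodule.subset_span ⟨g, rfl⟩⟩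

theorem V_ind {p : P.Vv → Prop} (h0 : p 0) (hadd : ∀ u v, p u → p v → p (u + v))
    (hsmul : ∀ (z : P.Zc) (u : P.Vv), p u → p (z • u)) (ht : ∀ g, p (P.tv g)) (v : P.Vv) : p v := by
  obtain ⟨v, hv⟩ := v
  refine Submodule.span_induction (p := fun v hv => p ⟨v, hv⟩) ?_ h0 ?_ ?_ hv
  · rintro _ ⟨g, rfl⟩
    exact ht g
  · intro x y hx hy h1 h2
    exact hadd ⟨x, hx⟩ ⟨y, hy⟩ h1 h2
  · intro z x hx h1
    exact hsmul z ⟨x, hx⟩ h1

section q4lin

variable {R Z : Type*} [CommRing Z] [Ring R] [Algebra Z R]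

theorem q4_add1 (a a' b w v : R) : q4 (a + a') b w v = q4 a b w v + q4 a' b w v := by
  unfold q4
  noncomm_ring

theorem q4_add2 (a b b' w v : R) : q4 a (b + b') w v = q4 a b w v + q4 a b' w v := by
  unfold q4
  noncomm_ring

theorem q4_add3 (a b w w' v : R) : q4 a b (w + w') v = q4 a b w v + q4 a b w' v := by
  unfold q4
  noncomm_ring

theorem q4_add4 (a b w v v' : R) : q4 a b w (v + v') = q4 a b w v + q4 a b w v' := by
  unfold q4
  noncomm_ring

theorem q4_smul1 (z : Z) (a b w v : R) : q4 (z • a) b w v = z • q4 a b w v := by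
  unfold q4
  simp only [smul_mul_assoc, mul_smul_comm, smul_add]

theorem q4_smul2 (z : Z) (a b w v : R) : q4 a (z • b) w v = z • q4 a b w v := by
  unfold q4
  simp only [smul_mul_assoc, mul_smul_comm, smul_add]

theorem q4_smul3 (z : Z) (a b w v : R) : q4 a b (z • w) v = z • q4 a b w v := by
  unfold q4
  simp only [smul_mul_assoc, mul_smul_comm, smul_add]

theorem q4_smul4 (z : Z) (a b w v : R) : q4 a b w (z • v) = z • q4 a b w v := by
  unfold q4
  simp only [smul_mul_assoc, mul_smul_comm, smul_add]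

theorem q4_map {R S : Type*} [Ring R] [Ring S] (f : R →+* S) (a b w v : R) :
    f (q4 a b w v) = q4 (f a) (f b) (f w) (f v) := by
  unfold q4
  simp only [map_add, map_mul]

end q4lin

end TPr

end E4
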