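import Pool.Agent.Lib.MP_8a95e3_al.PI3

/-!
# PI4 : the bracket and the form on the vectors
-/

namespace E4

namespace TPr

variable {A : Type} [Ring A] (P : TPr A)

theorem Ed_two (e : P.Ed) : e + e = 0 := two_zero P.rE_cub e

theorem Ed_eq {a b : P.Ed} (h : a + b = 0) : a = b := by
  have h1 : a + b + b = b := by rw [h, zero_add]
  rw [add_assoc, P.Ed_two b, add_zero] at h1
  exact h1

/-- cancellation of two vectors on the left -/
theorem Ed_tt_left {e : P.Ed} (h : ∀ c d : F, P.lam (P.t c) * P.lam (P.t d) * e = 0) : e = 0 := by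
  refine P.Ed_left_zero fun d => P.Ed_left_zero fun c => ?_
  rw [← mul_assoc]
  exact h c d

theorem zc_smul (z : P.Zc) (e : P.Ed) : z • e = (z : P.Ed) * e := rfl

theorem zc_comm (z : P.Zc) (e : P.Ed) : e * (z : P.Ed) = (z : P.Ed) * e :=
  Subring.mem_center_iff.1 z.2 e

private theorem PI4_base (g h c d : F) : P.lam (P.t c) * P.lam (P.t d) * P.KD (P.tM g) (P.tM h) =
    q4 (P.lam (P.t g)) (P.lam (P.t h)) (P.lam (P.t c)) (P.lam (P.t d)) := by
  rw [← q4_map]
  refine P.Ed_funext fun m => ?_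
  have h1 := P.KD_spec (P.tM g) (P.tM h) m c d
  refine Eq.trans ?_ h1
  exact (mul_assoc (P.t c) (P.t d) _).symm

private theorem PI4_ex (u v : P.Vv) : ∃ z : P.Zc, ∀ c d : F,
    P.lam (P.t c) * P.lam (P.t d) * (z : P.Ed) = q4 (u : P.Ed) v (P.lam (P.t c)) (P.lam (P.t d)) := by
  refine P.V_ind (p := fun u => ∃ z : P.Zc, ∀ c d : F,
    P.lam (P.t c) * P.lam (P.t d) * (z : P.Ed) = q4 (u : P.Ed) v (P.lam (P.t c)) (P.lam (P.t d))) ?_ ?_ ?_ ?_ u
  · refine ⟨0, fun c d => ?_⟩
    have e : q4 ((0 : P.Vv) : P.Ed) v (P.lam (P.t c)) (P.lam (P.t d)) = 0 := by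
      unfold q4
      simp
    rw [e]
    exact mul_zero _
  · rintro u u' ⟨z, hz⟩ ⟨z', hz'⟩
    refine ⟨z + z', fun c d => ?_⟩
    rw [Submodule.coe_add, q4_add1, ← hz, ← hz']
    exact mul_add _ _ _
  · rintro a u ⟨z, hz⟩
    refine ⟨a * z, fun c d => ?_⟩
    rw [Submodule.coe_smul, q4_smul1, ← hz]
    rw [zc_smul, ← mul_assoc, ← zc_comm, mul_assoc]
    rfl
  · intro g
    refine P.V_ind (p := fun v => ∃ z : P.Zc, ∀ c d : F,
      P.lam (P.t c) * P.lam (P.t d) * (z : P.Ed) = q4 ((P.tv g : P.Vv) : P.Ed) v (P.lam (P.t c)) (P.lam (P.t d)))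
      ?_ ?_ ?_ ?_ v
    · refine ⟨0, fun c d => ?_⟩
      have e : q4 ((P.tv g : P.Vv) : P.Ed) ((0 : P.Vv) : P.Ed) (P.lam (P.t c)) (P.lam (P.t d)) = 0 := by
        unfold q4
        simp
      rw [e]
      exact mul_zero _
    · rintro u u' ⟨z, hz⟩ ⟨z', hz'⟩
      refine ⟨z + z', fun c d => ?_⟩
      rw [Submodule.coe_add, q4_add2, ← hz, ← hz']
      exact mul_add _ _ _
    · rintro a u ⟨z, hz⟩
      refine ⟨a * z, fun c d => ?_⟩
      rw [Submodule.coe_smul, q4_smul2, ← hz]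
      rw [zc_smul, ← mul_assoc, ← zc_comm, mul_assoc]
      rfl
    · intro h
      exact ⟨⟨P.KD (P.tM g) (P.tM h), P.KD_center _ _⟩, fun c d => P.PI4_base g h c d⟩

/-- the form as a function -/
noncomputable def kv (u v : P.Vv) : P.Zc := (P.PI4_ex u v).choose

theorem kv_spec' (u v : P.Vv) (c d : F) : P.lam (P.t c) * P.lam (P.t d) * (P.kv u v : P.Ed) =
    q4 (u : P.Ed) v (P.lam (P.t c)) (P.lam (P.t d)) := (P.PI4_ex u v).choose_spec c d

/-- uniqueness of the value of the form -/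
theorem kv_unique (u v : P.Vv) (z : P.Zc)
    (h : ∀ c d : F, P.lam (P.t c) * P.lam (P.t d) * (z : P.Ed) = q4 (u : P.Ed) v (P.lam (P.t c)) (P.lam (P.t d))) :
    P.kv u v = z := by
  have h1 : (P.kv u v : P.Ed) + z = 0 := P.Ed_tt_left fun c d => by
    rw [mul_add, P.kv_spec', h, P.Ed_two]
  exact Subtype.ext (P.Ed_eq h1)

theorem kv_gen (g h : F) : (P.kv (P.tv g) (P.tv h) : P.Ed) = P.KD (P.tM g) (P.tM h) :=
  congrArg Subtype.val (P.kv_unique (P.tv g) (P.tv h) ⟨P.KD (P.tM g) (P.tM h), P.KD_center _ _⟩ fun c d =>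
    P.PI4_base g h c d)

private theorem kv_add_left (u u' v : P.Vv) : P.kv (u + u') v = P.kv u v + P.kv u' v := by
  refine P.kv_unique _ _ _ fun c d => ?_
  rw [Submodule.coe_add, q4_add1, ← kv_spec', ← kv_spec']
  exact mul_add _ _ _

private theorem kv_add_right (u v v' : P.Vv) : P.kv u (v + v') = P.kv u v + P.kv u v' := by
  refine P.kv_unique _ _ _ fun c d => ?_
  rw [Submodule.coe_add, q4_add2, ← kv_spec', ← kv_spec']
  exact mul_add _ _ _

private theorem kv_smul_left (z : P.Zc) (u v : P.Vv) : P.kv (z • u) v = z * P.kv u v := by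
  refine P.kv_unique _ _ _ fun c d => ?_
  rw [Submodule.coe_smul, q4_smul1, ← kv_spec', zc_smul, ← mul_assoc, ← zc_comm, mul_assoc]
  rfl

private theorem kv_smul_right (z : P.Zc) (u v : P.Vv) : P.kv u (z • v) = z * P.kv u v := by
  refine P.kv_unique _ _ _ fun c d => ?_
  rw [Submodule.coe_smul, q4_smul2, ← kv_spec', zc_smul, ← mul_assoc, ← zc_comm, mul_assoc]
  rfl

/-- the form -/
noncomputable def kV : P.Vv →ₗ[P.Zc] P.Vv →ₗ[P.Zc] P.Zc :=
  LinearMap.mk₂ P.Zc P.kv P.kv_add_left P.kv_smul_left P.kv_add_right fun z u v => P.kv_smul_right z u v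

theorem kV_apply (u v : P.Vv) : P.kV u v = P.kv u v := rfl

theorem lam_mem_Vv {p : A} (hp : p ∈ P.Lm) : P.lam p ∈ P.Vv := by
  have hp' : p ∈ AddSubgroup.closure (Set.range (sqe P.ρ)) := hp
  induction hp' using AddSubgroup.closure_induction with
  | mem y hy =>
    obtain ⟨g, rfl⟩ := hy
    exact (P.tv g).2
  | zero =>
    rw [map_zero]
    exact P.Vv.zero_mem
  | add y z hy hz h1 h2 =>
    rw [map_add]
    exact P.Vv.add_mem (h1 hy) (h2 hz)
  | neg y hy h1 =>
    have e : -y = y := neg_eq_of_add_eq_zero_left (two_zero P.cub y)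
    rw [e]
    exact h1 hy

private theorem PI4_br_t (g h : F) : br (P.lam (P.t g)) (P.lam (P.t h)) ∈ P.Vv := by
  have h1 : br (P.lam (P.t g)) (P.lam (P.t h)) = P.lam (br (P.t g) (P.t h)) := by
    unfold br
    rw [map_add, map_mul, map_mul]
  rw [h1]
  have h2 : br (P.t g) (P.t h) ∈ P.Lm := br_mem P.cub (sqe_mem g) (sqe_mem h)
  exact P.lam_mem_Vv h2

section brlin

variable {R Z : Type*} [CommRing Z] [Ring R] [Algebra Z R]

theorem br_add1 (a a' b : R) : br (a + a') b = br a b + br a' b := by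
  unfold br
  noncomm_ring

theorem br_add2 (a b b' : R) : br a (b + b') = br a b + br a b' := by
  unfold br
  noncomm_ring

theorem br_smul1 (z : Z) (a b : R) : br (z • a) b = z • br a b := by
  unfold br
  simp only [smul_mul_assoc, mul_smul_comm, smul_add]

theorem br_smul2 (z : Z) (a b : R) : br a (z • b) = z • br a b := by
  unfold br
  simp only [smul_mul_assoc, mul_smul_comm, smul_add]

theorem br_zero1 (b : R) : br 0 b = 0 := by
  unfold br
  simp

theorem br_zero2 (b : R) : br b 0 = 0 := by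
  unfold br
  simp

end brlin

theorem br_mem_Vv (u v : P.Vv) : br (u : P.Ed) v ∈ P.Vv := by
  refine P.V_ind (p := fun u => br (u : P.Ed) v ∈ P.Vv) ?_ ?_ ?_ ?_ u
  · rw [Submodule.coe_zero, br_zero1]
    exact P.Vv.zero_mem
  · intro a b ha hb
    rw [Submodule.coe_add, br_add1]
    exact P.Vv.add_mem ha hb
  · intro z a ha
    rw [Submodule.coe_smul, br_smul1]
    exact P.Vv.smul_mem z ha
  · intro g
    refine P.V_ind (p := fun v => br ((P.tv g : P.Vv) : P.Ed) v ∈ P.Vv) ?_ ?_ ?_ ?_ v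
    · rw [Submodule.coe_zero, br_zero2]
      exact P.Vv.zero_mem
    · intro a b ha hb
      rw [Submodule.coe_add, br_add2]
      exact P.Vv.add_mem ha hb
    · intro z a ha
      rw [Submodule.coe_smul, br_smul2]
      exact P.Vv.smul_mem z ha
    · intro h
      exact P.PI4_br_t g h

/-- the bracket -/
def bV : P.Vv →ₗ[P.Zc] P.Vv →ₗ[P.Zc] P.Vv :=
  LinearMap.mk₂ P.Zc (fun u v => ⟨br (u : P.Ed) v, P.br_mem_Vv u v⟩)
    (fun u u' v => Subtype.ext (br_add1 (u : P.Ed) u' v))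
    (fun z u v => Subtype.ext (br_smul1 z (u : P.Ed) v))
    (fun u v v' => Subtype.ext (br_add2 (u : P.Ed) v v'))
    (fun z u v => Subtype.ext (br_smul2 z (u : P.Ed) v))

theorem bV_apply (u v : P.Vv) : ((P.bV u v : P.Vv) : P.Ed) = br (u : P.Ed) v := rfl

theorem kV_symm (u v : P.Vv) : P.kV u v = P.kV v u := by
  refine P.V_ind (p := fun u => P.kV u v = P.kV v u) ?_ ?_ ?_ ?_ u
  · rw [map_zero, map_zero, LinearMap.zero_apply]
  · intro a b ha hb
    rw [map_add, map_add, LinearMap.add_apply, ha, hb]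
  · intro z a ha
    rw [map_smul, map_smul, LinearMap.smul_apply, ha]
  · intro g
    refine P.V_ind (p := fun v => P.kV (P.tv g) v = P.kV v (P.tv g)) ?_ ?_ ?_ ?_ v
    · rw [map_zero, map_zero, LinearMap.zero_apply]
    · intro a b ha hb
      rw [map_add, map_add, LinearMap.add_apply, ha, hb]
    · intro z a ha
      rw [map_smul, map_smul, LinearMap.smul_apply, ha]
    · intro h
      rw [kV_apply, kV_apply]
      refine P.kv_unique _ _ _ fun c d => ?_
      rw [kv_spec']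
      show q4 (P.lam (P.t h)) (P.lam (P.t g)) _ _ = q4 (P.lam (P.t g)) (P.lam (P.t h)) _ _
      rw [← q4_map, ← q4_map]
      exact congrArg P.lam (q4_symm P.cub (sqe_mem h) (sqe_mem g) (sqe_mem c) (sqe_mem d))

/-- the defining equation for vectors -/
theorem kV_spec (u v c d : P.Vv) : P.kV u v • ((c : P.Ed) * d) = q4 (u : P.Ed) v c d := by
  refine P.V_ind (p := fun c => P.kV u v • ((c : P.Ed) * d) = q4 (u : P.Ed) v c d) ?_ ?_ ?_ ?_ c
  · have e : q4 (u : P.Ed) v ((0 : P.Vv) : P.Ed) d = 0 := by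
      unfold q4
      simp
    rw [e, Submodule.coe_zero, zero_mul, smul_zero]
  · intro a b ha hb
    rw [Submodule.coe_add, q4_add3, ← ha, ← hb, add_mul, smul_add]
  · intro z a ha
    rw [Submodule.coe_smul, q4_smul3, ← ha, smul_mul_assoc, smul_comm]
  · intro g
    refine P.V_ind (p := fun d => P.kV u v • (((P.tv g : P.Vv) : P.Ed) * d) = q4 (u : P.Ed) v (P.tv g : P.Vv) d)
      ?_ ?_ ?_ ?_ d
    · have e : q4 (u : P.Ed) v ((P.tv g : P.Vv) : P.Ed) ((0 : P.Vv) : P.Ed) = 0 := by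
        unfold q4
        simp
      rw [e, Submodule.coe_zero, mul_zero, smul_zero]
    · intro a b ha hb
      rw [Submodule.coe_add, q4_add4, ← ha, ← hb, mul_add, smul_add]
    · intro z a ha
      rw [Submodule.coe_smul, q4_smul4, ← ha, mul_smul_comm, smul_comm]
    · intro h
      have h1 := P.kv_spec' u v g h
      rw [zc_comm] at h1
      exact h1

end TPr

end E4
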