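import Pool.Agent.Lib.MP_8a95e3_al.PI4

/-!
# PI5 : the identities on the vectors
-/

namespace E4

private theorem PI5_two {R : Type*} [Ring R] (h2 : ∀ r : R, r + r = 0) (r : R) : (2 : ℤ) • r = 0 := by
  rw [two_zsmul]
  exact h2 r

private theorem PI5_four {R : Type*} [Ring R] (h2 : ∀ r : R, r + r = 0) (r : R) : (4 : ℤ) • r = 0 := by
  have e : (4 : ℤ) • r = (2 : ℤ) • r + (2 : ℤ) • r := by
    rw [← add_smul]
    norm_num
  rw [e, PI5_two h2, add_zero]

private theorem PI5_six {R : Type*} [Ring R] (h2 : ∀ r : R, r + r = 0) (r : R) : (6 : ℤ) • r = 0 := by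
  have e : (6 : ℤ) • r = (2 : ℤ) • r + (4 : ℤ) • r := by
    rw [← add_smul]
    norm_num
  rw [e, PI5_two h2, PI5_four h2, add_zero]

private theorem PI5_eq {R : Type*} [Ring R] (h2 : ∀ r : R, r + r = 0) {x y : R} (h : x + y = 0) : x = y := by
  have h1 : x + y + y = y := by rw [h, zero_add]
  rw [add_assoc, h2 y, add_zero] at h1
  exact h1

private theorem PI5_r1 {R : Type*} [Ring R] (h2 : ∀ r : R, r + r = 0) (a b c u : R) :
    br (br a b) c * u + (q4 b c a u + q4 a c b u) + s3 a b c * u = 0 := by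
  simp only [q4, s3, br, mul_add, add_mul, ← mul_assoc]
  abel_nf
  simp only [PI5_two h2, add_zero]

private theorem PI5_e1 {R : Type*} [Ring R] (h2 : ∀ r : R, r + r = 0) (a c d u v : R) :
    (a * c * d + c * a * d + c * d * a) * (u * v) + a * q4 c d u v + q4 (br a c) d u v +
      (u * v * s3 a c d + d * v * s3 a c u + c * f4 u a v d + s3 a c v * d * u +
      d * s3 a c v * u + d * u * s3 a c v + u * f4 c v d a + s3 a c v * u * d +
      f4 v d u (br a c) + u * s3 a c v * d + s3 a d u * v * c + v * c * s3 a d u +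
      s3 a d v * c * u + s3 c d u * v * a + c * s3 (br a u) d v + s3 (br c d) a v * u +
      u * s3 c d v * a + d * s3 c u v * a + c * a * s3 d u v + d * f4 v c u a +
      f4 (br c v) u a d + s3 (br a c) u v * d + s3 (br (br a u) d) c v + f4 a d u v * c +
      v * s3 (br a c) d u + s3 (br (br c v) u) a d) = 0 := by
  simp only [q4, s3, f4, br, mul_add, add_mul, ← mul_assoc]
  abel_nf
  simp only [PI5_two h2, PI5_four h2, PI5_six h2, add_zero]

namespace TPr

variable {A : Type} [Ring A] (P : TPr A)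

theorem V_zero (f : P.Ed → P.Ed) (hadd : ∀ x y, f (x + y) = f x + f y) (hs : ∀ (z : P.Zc) x, f (z • x) = z • f x)
    (hg : ∀ g, f (P.lam (P.t g)) = 0) {v : P.Ed} (hv : v ∈ P.Vv) : f v = 0 := by
  refine P.V_ind (p := fun v => f (v : P.Ed) = 0) ?_ ?_ ?_ hg ⟨v, hv⟩
  · have h := hs 0 0
    rw [zero_smul, zero_smul] at h
    exact h
  · intro u v hu hv
    rw [Submodule.coe_add, hadd, hu, hv, add_zero]
  · intro z u hu
    rw [Submodule.coe_smul, hs, hu, smul_zero]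

section lin

variable {R Z : Type*} [CommRing Z] [Ring R] [Algebra Z R]

private theorem s3_add1 (a a' b c : R) : s3 (a + a') b c = s3 a b c + s3 a' b c := by
  unfold s3
  noncomm_ring

private theorem s3_add2 (a b b' c : R) : s3 a (b + b') c = s3 a b c + s3 a b' c := by
  unfold s3
  noncomm_ring

private theorem s3_add3 (a b c c' : R) : s3 a b (c + c') = s3 a b c + s3 a b c' := by
  unfold s3
  noncomm_ring

private theorem s3_smul1 (z : Z) (a b c : R) : s3 (z • a) b c = z • s3 a b c := by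
  unfold s3
  simp only [smul_mul_assoc, mul_smul_comm, smul_add]

private theorem s3_smul2 (z : Z) (a b c : R) : s3 a (z • b) c = z • s3 a b c := by
  unfold s3
  simp only [smul_mul_assoc, mul_smul_comm, smul_add]

private theorem s3_smul3 (z : Z) (a b c : R) : s3 a b (z • c) = z • s3 a b c := by
  unfold s3
  simp only [smul_mul_assoc, mul_smul_comm, smul_add]

private theorem f4_add1 (a a' b c d : R) : f4 (a + a') b c d = f4 a b c d + f4 a' b c d := by
  simp only [f4, add_mul, mul_add]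
  abel

private theorem f4_add2 (a b b' c d : R) : f4 a (b + b') c d = f4 a b c d + f4 a b' c d := by
  simp only [f4, add_mul, mul_add]
  abel

private theorem f4_add3 (a b c c' d : R) : f4 a b (c + c') d = f4 a b c d + f4 a b c' d := by
  simp only [f4, add_mul, mul_add]
  abel

private theorem f4_add4 (a b c d d' : R) : f4 a b c (d + d') = f4 a b c d + f4 a b c d' := by
  simp only [f4, add_mul, mul_add]
  abel

private theorem f4_smul1 (z : Z) (a b c d : R) : f4 (z • a) b c d = z • f4 a b c d := by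
  unfold f4
  simp only [smul_mul_assoc, mul_smul_comm, smul_add]

private theorem f4_smul2 (z : Z) (a b c d : R) : f4 a (z • b) c d = z • f4 a b c d := by
  unfold f4
  simp only [smul_mul_assoc, mul_smul_comm, smul_add]

private theorem f4_smul3 (z : Z) (a b c d : R) : f4 a b (z • c) d = z • f4 a b c d := by
  unfold f4
  simp only [smul_mul_assoc, mul_smul_comm, smul_add]

private theorem f4_smul4 (z : Z) (a b c d : R) : f4 a b c (z • d) = z • f4 a b c d := by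
  unfold f4
  simp only [smul_mul_assoc, mul_smul_comm, smul_add]

end lin

theorem s3_V {a b c : P.Ed} (ha : a ∈ P.Vv) (hb : b ∈ P.Vv) (hcc : c ∈ P.Vv) : s3 a b c = 0 := by
  refine P.V_zero (fun a => s3 a b c) (fun x y => s3_add1 x y b c) (fun z x => s3_smul1 z x b c) (fun g₁ => ?_) ha
  refine P.V_zero (fun b => s3 (P.lam (P.t g₁)) b c) (fun x y => s3_add2 _ x y c) (fun z x => s3_smul2 z _ x c)
    (fun g₂ => ?_) hb
  refine P.V_zero (fun c => s3 (P.lam (P.t g₁)) (P.lam (P.t g₂)) c) (fun x y => s3_add3 _ _ x y)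
    (fun z x => s3_smul3 z _ _ x) (fun g₃ => ?_) hcc
  show s3 (P.lam (P.t g₁)) (P.lam (P.t g₂)) (P.lam (P.t g₃)) = 0
  rw [← rE_sqe, ← rE_sqe, ← rE_sqe]
  exact s3_sqe P.rE_cub g₁ g₂ g₃

theorem f4_V {a b c d : P.Ed} (ha : a ∈ P.Vv) (hb : b ∈ P.Vv) (hcc : c ∈ P.Vv) (hd : d ∈ P.Vv) : f4 a b c d = 0 := by
  refine P.V_zero (fun a => f4 a b c d) (fun x y => f4_add1 x y b c d) (fun z x => f4_smul1 z x b c d)
    (fun g₁ => ?_) ha
  refine P.V_zero (fun b => f4 (P.lam (P.t g₁)) b c d) (fun x y => f4_add2 _ x y c d) (fun z x => f4_smul2 z _ x c d)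
    (fun g₂ => ?_) hb
  refine P.V_zero (fun c => f4 (P.lam (P.t g₁)) (P.lam (P.t g₂)) c d) (fun x y => f4_add3 _ _ x y d)
    (fun z x => f4_smul3 z _ _ x d) (fun g₃ => ?_) hcc
  refine P.V_zero (fun d => f4 (P.lam (P.t g₁)) (P.lam (P.t g₂)) (P.lam (P.t g₃)) d) (fun x y => f4_add4 _ _ _ x y)
    (fun z x => f4_smul4 z _ _ _ x) (fun g₄ => ?_) hd
  show f4 (P.lam (P.t g₁)) (P.lam (P.t g₂)) (P.lam (P.t g₃)) (P.lam (P.t g₄)) = 0
  rw [← rE_sqe, ← rE_sqe, ← rE_sqe, ← rE_sqe]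
  exact f4_sqe P.rE_cub g₁ g₂ g₃ g₄

theorem br_memV {a b : P.Ed} (ha : a ∈ P.Vv) (hb : b ∈ P.Vv) : br a b ∈ P.Vv := P.br_mem_Vv ⟨a, ha⟩ ⟨b, hb⟩

/-- cancellation of vectors on the right -/
theorem Ed_tt_right {e : P.Ed} (h : ∀ u v : F, e * (P.lam (P.t u) * P.lam (P.t v)) = 0) : e = 0 := by
  refine P.Ed_right_zero fun u => P.Ed_right_zero fun v => ?_
  rw [mul_assoc]
  exact h u v

/-- **R1** -/
theorem R1_V (a b c : P.Vv) : P.bV (P.bV a b) c = P.kV b c • a + P.kV a c • b := by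
  apply Subtype.ext
  rw [Submodule.coe_add, Submodule.coe_smul, Submodule.coe_smul, bV_apply, bV_apply]
  apply P.Ed_eq
  refine P.Ed_right_zero fun g => ?_
  have h1 := PI5_r1 (R := P.Ed) P.Ed_two (a : P.Ed) b c (P.lam (P.t g))
  rw [P.s3_V a.2 b.2 c.2, zero_mul, add_zero] at h1
  rw [add_mul, add_mul, smul_mul_assoc, smul_mul_assoc]
  have h2 := P.kV_spec b c a (P.tv g)
  have h3 := P.kV_spec a c b (P.tv g)
  have h4 : ((P.tv g : P.Vv) : P.Ed) = P.lam (P.t g) := rfl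
  rw [h4] at h2 h3
  rw [h2, h3]
  exact h1

/-- **E1** -/
theorem E1_V (a c d : P.Vv) : (a : P.Ed) * c * d + (c : P.Ed) * a * d + (c : P.Ed) * d * a + P.kV c d • (a : P.Ed) =
    P.kV (P.bV a c) d • (1 : P.Ed) := by
  apply P.Ed_eq
  refine P.Ed_tt_right fun g h => ?_
  obtain ⟨a, ha⟩ := a
  obtain ⟨c, hcc⟩ := c
  obtain ⟨d, hd⟩ := d
  have hc := hcc
  have hu := (P.tv g).2
  have hv := (P.tv h).2
  have h1 := PI5_e1 (R := P.Ed) P.Ed_two a c d ((P.tv g : P.Vv) : P.Ed) ((P.tv h : P.Vv) : P.Ed)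
  rw [P.s3_V ha hc hd, P.s3_V ha hc hu, P.f4_V hu ha hv hd, P.s3_V ha hc hv,
    P.f4_V hc hv hd ha, P.f4_V hv hd hu (P.br_memV ha hc), P.s3_V ha hd hu, P.s3_V ha hd hv,
    P.s3_V hc hd hu, P.s3_V (P.br_memV ha hu) hd hv, P.s3_V (P.br_memV hc hd) ha hv, P.s3_V hc hd hv,
    P.s3_V hc hu hv, P.s3_V hd hu hv, P.f4_V hv hc hu ha, P.f4_V (P.br_memV hc hv) hu ha hd,
    P.s3_V (P.br_memV ha hc) hu hv, P.s3_V (P.br_memV (P.br_memV ha hu) hd) hc hv, P.f4_V ha hd hu hv, P.s3_V (P.br_memV ha hc) hd hu,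
    P.s3_V (P.br_memV (P.br_memV hc hv) hu) ha hd] at h1
  simp only [mul_zero, zero_mul, add_zero] at h1
  have h2 := P.kV_spec ⟨c, hc⟩ ⟨d, hd⟩ (P.tv g) (P.tv h)
  have h3 := P.kV_spec (P.bV ⟨a, ha⟩ ⟨c, hc⟩) ⟨d, hd⟩ (P.tv g) (P.tv h)
  have h4 : ((P.tv g : P.Vv) : P.Ed) = P.lam (P.t g) := rfl
  have h5 : ((P.tv h : P.Vv) : P.Ed) = P.lam (P.t h) := rfl
  rw [bV_apply] at h3
  rw [h4, h5] at h1 h2 h3
  show (a * c * d + c * a * d + c * d * a + P.kV ⟨c, hc⟩ ⟨d, hd⟩ • a + P.kV (P.bV ⟨a, ha⟩ ⟨c, hc⟩) ⟨d, hd⟩ • (1 : P.Ed)) *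
    (P.lam (P.t g) * P.lam (P.t h)) = 0
  rw [add_mul, add_mul, smul_mul_assoc, smul_mul_assoc, one_mul, h3, ← mul_smul_comm, h2]
  exact h1

end TPr

end E4
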