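import Pool.Agent.Lib.MP_8a95e3_al.PI5

/-!
# PI6 : the action of the group, cancellation of `tau`, the lemma of Schur
-/

namespace E4

namespace TPr

variable {A : Type} [Ring A] (P : TPr A)

theorem rE_inv_mul (g : F) : P.rE g⁻¹ * P.rE g = 1 := by rw [← map_mul, inv_mul_cancel, map_one]

theorem rE_mul_inv (g : F) : P.rE g * P.rE g⁻¹ = 1 := by rw [← map_mul, mul_inv_cancel, map_one]

private theorem conj_lam (g h : F) : P.rE g * P.lam (P.t h) * P.rE g⁻¹ = P.lam (P.t (g * h * g⁻¹)) := by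
  have h1 := P.rho_t g h
  have h2 := congrArg P.lam h1
  rw [map_mul, map_mul] at h2
  show P.lam (P.ρ g) * P.lam (P.t h) * P.lam (P.ρ g⁻¹) = _
  rw [h2, mul_assoc]
  show _ * (P.rE g * P.rE g⁻¹) = _
  rw [rE_mul_inv, mul_one]

private theorem conj_mem (g : F) (v : P.Vv) : P.rE g * (v : P.Ed) * P.rE g⁻¹ ∈ P.Vv := by
  refine P.V_ind (p := fun v => P.rE g * (v : P.Ed) * P.rE g⁻¹ ∈ P.Vv) ?_ ?_ ?_ ?_ v
  · rw [Submodule.coe_zero, mul_zero, zero_mul]
    exact P.Vv.zero_mem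
  · intro u v hu hv
    rw [Submodule.coe_add, mul_add, add_mul]
    exact P.Vv.add_mem hu hv
  · intro z u hu
    rw [Submodule.coe_smul, mul_smul_comm, smul_mul_assoc]
    exact P.Vv.smul_mem z hu
  · intro h
    show P.rE g * P.lam (P.t h) * P.rE g⁻¹ ∈ P.Vv
    rw [conj_lam]
    exact (P.tv _).2

/-- the action of one group element -/
def actf (g : F) : P.Vv →ₗ[P.Zc] P.Vv where
  toFun v := ⟨P.rE g * (v : P.Ed) * P.rE g⁻¹, P.conj_mem g v⟩
  map_add' u v := Subtype.ext (by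
    show P.rE g * ((u : P.Ed) + v) * P.rE g⁻¹ = P.rE g * (u : P.Ed) * P.rE g⁻¹ + P.rE g * (v : P.Ed) * P.rE g⁻¹
    rw [mul_add, add_mul])
  map_smul' z v := Subtype.ext (by
    show P.rE g * (z • (v : P.Ed)) * P.rE g⁻¹ = z • (P.rE g * (v : P.Ed) * P.rE g⁻¹)
    rw [mul_smul_comm, smul_mul_assoc])

theorem actf_apply (g : F) (v : P.Vv) : ((P.actf g v : P.Vv) : P.Ed) = P.rE g * (v : P.Ed) * P.rE g⁻¹ := rfl

/-- the action -/
def actV : F →* (P.Vv →ₗ[P.Zc] P.Vv) where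
  toFun := P.actf
  map_one' := LinearMap.ext fun v => Subtype.ext (by
    show P.rE 1 * (v : P.Ed) * P.rE 1⁻¹ = v
    rw [inv_one, map_one, one_mul, mul_one])
  map_mul' g h := LinearMap.ext fun v => Subtype.ext (by
    show P.rE (g * h) * (v : P.Ed) * P.rE (g * h)⁻¹ = P.rE g * (P.rE h * (v : P.Ed) * P.rE h⁻¹) * P.rE g⁻¹
    rw [mul_inv_rev, map_mul, map_mul]
    simp only [mul_assoc])

theorem actV_apply (g : F) (v : P.Vv) : ((P.actV g v : P.Vv) : P.Ed) = P.rE g * (v : P.Ed) * P.rE g⁻¹ := rfl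

private theorem PI6_c1 {R : Type*} [Ring R] (r s : R) (h : s * r = 1) (x y : R) : r * x * s * (r * y * s) = r * (x * y) * s := by
  calc r * x * s * (r * y * s) = r * x * (s * r) * y * s := by simp only [mul_assoc]
    _ = r * (x * y) * s := by rw [h, mul_one]; simp only [mul_assoc]

private theorem PI6_q4 {R : Type*} [Ring R] (r s : R) (h : s * r = 1) (a b c d : R) :
    q4 (r * a * s) (r * b * s) (r * c * s) (r * d * s) = r * q4 a b c d * s := by
  unfold q4
  simp only [PI6_c1 r s h, mul_add, add_mul]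

theorem k_actV (g : F) (u v : P.Vv) : P.kV (P.actV g u) (P.actV g v) = P.kV u v := by
  rw [kV_apply]
  refine P.kv_unique _ _ _ fun c d => ?_
  rw [actV_apply, actV_apply]
  have hc : P.lam (P.t c) = P.rE g * P.lam (P.t (g⁻¹ * c * g)) * P.rE g⁻¹ := by
    rw [conj_lam]
    congr 2
    group
  have hd : P.lam (P.t d) = P.rE g * P.lam (P.t (g⁻¹ * d * g)) * P.rE g⁻¹ := by
    rw [conj_lam]
    congr 2
    group
  rw [hc, hd, PI6_q4 _ _ (P.rE_inv_mul g), PI6_c1 _ _ (P.rE_inv_mul g), kV_apply, ← kv_spec']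
  rw [mul_assoc _ (P.rE g⁻¹), zc_comm, ← mul_assoc _ _ (P.rE g⁻¹), mul_assoc (P.rE g)]

theorem span_V (v : P.Vv) : v ∈ Submodule.span P.Zc (Set.range P.tv) := by
  refine P.V_ind (p := fun v => v ∈ Submodule.span P.Zc (Set.range P.tv)) ?_ ?_ ?_ ?_ v
  · exact Submodule.zero_mem _
  · intro u v hu hv
    exact Submodule.add_mem _ hu hv
  · intro z u hu
    exact Submodule.smul_mem _ z hu
  · intro g
    exact Submodule.subset_span ⟨g, rfl⟩

/-- cancellation of the values of `tau` -/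
theorem can_V (y : P.Ed) (h : ∀ u v w, P.kV (P.bV u v) w • y = 0) : y = 0 := by
  refine P.Ed_funext fun m => ?_
  refine P.nat_left_cancel (fun g => q4 (br (P.t (g 0)) (P.t (g 1))) (P.t (g 2)) (P.t (g 3)) (P.t (g 4))) ?_ ?_ _ ?_
  · intro φ g
    show P.E φ (q4 (br (P.t (g 0)) (P.t (g 1))) (P.t (g 2)) (P.t (g 3)) (P.t (g 4))) = _
    rw [q4_map]
    have h1 : P.E φ (br (P.t (g 0)) (P.t (g 1))) = br (P.t (φ (g 0))) (P.t (φ (g 1))) := by
      unfold br
      rw [map_add, map_mul, map_mul, P.E_t, P.E_t]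
    rw [h1, P.E_t, P.E_t, P.E_t]
    rfl
  · obtain ⟨g, hg⟩ := P.tau_ne'
    refine ⟨g, ?_⟩
    intro h1
    apply hg
    have hm : P.t (g 3) * P.t (g 4) * 1 ∈ P.M := by
      rw [mul_one]
      exact P.tt_mem _ _
    have h2 := P.kf_tt (P.bL (P.tL (g 0)) (P.tL (g 1))) (P.tL (g 2)) (g 3) (g 4) 1 hm
    have h3 : (⟨P.t (g 3) * P.t (g 4), P.tt_mem _ _⟩ : P.M) = ⟨P.t (g 3) * P.t (g 4) * 1, hm⟩ :=
      Subtype.ext (mul_one _).symm
    rw [h3]
    refine Eq.trans h2 ?_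
    rw [mul_one]
    exact h1
  · intro g
    have h1 := h (P.tv (g 0)) (P.tv (g 1)) (P.tv (g 2))
    have h2 := P.kV_spec (P.bV (P.tv (g 0)) (P.tv (g 1))) (P.tv (g 2)) (P.tv (g 3)) (P.tv (g 4))
    have h3 : q4 (br (P.lam (P.t (g 0))) (P.lam (P.t (g 1)))) (P.lam (P.t (g 2))) (P.lam (P.t (g 3)))
        (P.lam (P.t (g 4))) * y = 0 := by
      have h4 : q4 (br (P.lam (P.t (g 0))) (P.lam (P.t (g 1)))) (P.lam (P.t (g 2))) (P.lam (P.t (g 3)))
        (P.lam (P.t (g 4))) = P.kV (P.bV (P.tv (g 0)) (P.tv (g 1))) (P.tv (g 2)) •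
          (((P.tv (g 3) : P.Vv) : P.Ed) * (P.tv (g 4) : P.Vv)) := h2.symm
      rw [h4, smul_mul_assoc, ← mul_smul_comm, h1, mul_zero]
    have h5 : br (P.lam (P.t (g 0))) (P.lam (P.t (g 1))) = P.lam (br (P.t (g 0)) (P.t (g 1))) := by
      unfold br
      rw [map_add, map_mul, map_mul]
    rw [h5, ← q4_map] at h3
    exact congrArg (fun f : P.Ed => ((f m : P.Dd) : A)) h3

/-- **Schur.** -/
theorem schur_V (T : P.Vv →ₗ[P.Zc] P.Vv) (hT : ∀ g, T (P.tv g) ∈ AddSubgroup.closure (Set.range P.tv))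
    (h : ∀ u v : P.Vv, ((T u : P.Vv) : P.Ed) * v = (u : P.Ed) * (T v : P.Vv)) : ∃ z : P.Zc, ∀ v, T v = z • v := by
  -- the values on the squares
  have h1 : ∀ v ∈ AddSubgroup.closure (Set.range P.tv), ∃ p ∈ P.Lm, ((v : P.Vv) : P.Ed) = P.lam p := by
    intro v hv
    induction hv using AddSubgroup.closure_induction with
    | mem y hy =>
      obtain ⟨g, rfl⟩ := hy
      exact ⟨P.t g, sqe_mem g, rfl⟩
    | zero => exact ⟨0, P.Lm.zero_mem, (map_zero P.lam).symm⟩
    | add y z _ _ hy hz =>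
      obtain ⟨p, hp, h1⟩ := hy
      obtain ⟨q, hq, h2⟩ := hz
      exact ⟨p + q, P.Lm.add_mem hp hq, by rw [Submodule.coe_add, h1, h2, map_add]⟩
    | neg y _ hy =>
      obtain ⟨p, hp, h1⟩ := hy
      have e : -y = y := neg_eq_of_add_eq_zero_left (Subtype.ext (P.Ed_two (y : P.Ed)))
      exact ⟨p, hp, by rw [e, h1]⟩
  have h2 : ∀ g, ∃ p ∈ P.Lm, ((T (P.tv g) : P.Vv) : P.Ed) = P.lam p := fun g => h1 _ (hT g)
  choose p hp hpT using h2
  have h3 : ∀ g g', p g * P.t g' = P.t g * p g' := by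
    intro g g'
    have h4 := h (P.tv g) (P.tv g')
    rw [hpT, hpT] at h4
    have h5 : P.lam (p g * P.t g' + P.t g * p g') = 0 := by
      rw [map_add, map_mul, map_mul]
      show P.lam (p g) * P.lam (P.t g') + P.lam (P.t g) * P.lam (p g') = 0
      have h6 : P.lam (p g) * P.lam (P.t g') = P.lam (P.t g) * P.lam (p g') := h4
      rw [h6]
      exact P.Ed_two _
    have h7 := P.lam_inj h5
    have h8 : p g * P.t g' + P.t g * p g' + P.t g * p g' = P.t g * p g' := by rw [h7, zero_add]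
    rw [add_assoc, two_zero P.cub, add_zero] at h8
    exact h8
  -- existence of the values
  have hex : ∀ m ∈ P.Dd, ∃ y : A, y ∈ P.Dd ∧ ∀ g : F, P.t g * y = p g * m := by
    refine P.Dd_ind (p := fun m => ∃ y : A, y ∈ P.Dd ∧ ∀ g : F, P.t g * y = p g * m) ?_ ?_ ?_
    · exact ⟨0, P.Dd.zero_mem, fun c => by rw [mul_zero, mul_zero]⟩
    · rintro m m' ⟨y, hy, h⟩ ⟨y', hy', h'⟩
      exact ⟨y + y', P.Dd.add_mem hy hy', fun c => by rw [mul_add, mul_add, h, h']⟩
    · intro u v w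
      refine ⟨p u * P.t v * w, P.pq_mem_Dd (hp u) (sqe_mem v) w, fun g => ?_⟩
      rw [← mul_assoc, ← mul_assoc, ← mul_assoc, ← mul_assoc, h3]
  have huniq : ∀ (m y y' : A), (∀ g : F, P.t g * y = p g * m) → (∀ g : F, P.t g * y' = p g * m) → y = y' := by
    intro m y y' h h'
    have h2 := P.left_zero (y - y') fun c => by rw [mul_sub, h, h', sub_self]
    exact sub_eq_zero.1 h2
  obtain ⟨z, hz⟩ : ∃ z : P.Ed, ∀ (m : P.Dd) (g : F), P.t g * (z m : A) = p g * m := by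
    refine ⟨{ toFun := fun m => ⟨(hex m m.2).choose, (hex m m.2).choose_spec.1⟩
              map_add' := fun m m' => ?_
              map_smul' := fun c m => ?_ }, fun m g => (hex m m.2).choose_spec.2 g⟩
    · apply Subtype.ext
      refine huniq ((m + m' : P.Dd) : A) _ _ (hex _ (m + m').2).choose_spec.2 fun g => ?_
      show P.t g * ((hex m m.2).choose + (hex m' m'.2).choose) = p g * ((m : A) + m')
      rw [mul_add, mul_add, (hex m m.2).choose_spec.2 g, (hex m' m'.2).choose_spec.2 g]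
    · apply Subtype.ext
      refine huniq ((c • m : P.Dd) : A) _ _ (hex _ (c • m).2).choose_spec.2 fun g => ?_
      show P.t g * ((hex m m.2).choose * c.unop) = p g * ((m : A) * c.unop)
      rw [← mul_assoc, (hex m m.2).choose_spec.2 g, mul_assoc]
  have hzt : ∀ (u : F) (m : P.Dd), (z (P.lam (P.t u) m) : A) = p u * m := by
    intro u m
    refine huniq (P.t u * m) _ _ (fun g => hz (P.lam (P.t u) m) g) fun g => ?_
    rw [← mul_assoc, ← mul_assoc, h3]
  have hzc : z ∈ Subring.center P.Ed := by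
    refine P.mem_center fun g => ?_
    refine P.Ed_funext fun m => ?_
    show (z (P.lam (P.t g) m) : A) = P.t g * (z m : A)
    rw [hzt, hz]
  refine ⟨⟨z, hzc⟩, fun v => ?_⟩
  refine P.V_ind (p := fun v => T v = (⟨z, hzc⟩ : P.Zc) • v) ?_ ?_ ?_ ?_ v
  · rw [map_zero, smul_zero]
  · intro u v hu hv
    rw [map_add, smul_add, hu, hv]
  · intro a u hu
    rw [map_smul, hu, smul_comm]
  · intro g
    apply Subtype.ext
    rw [hpT, Submodule.coe_smul, zc_smul]
    refine P.Ed_funext fun m => ?_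
    exact (hzt g m).symm

end TPr

end E4
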