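import Pool.Agent.Lib.MP_8a95e3_al.PI6
import Pool.Agent.Lib.MP_8a95e3_al.P.P00

/-!
# PI7 : the instance of `PAlg`
-/

namespace E4

namespace TPr

variable {A : Type} [Ring A] (P : TPr A)

/-- the inclusion of the vectors -/
def lV : P.Vv →ₗ[P.Zc] P.Ed := P.Vv.subtype

/-- **The instance.** -/
noncomputable def pal : _root_.E4.P.PAlg F P.Vv P.Zc P.Ed where
  two := Subtype.ext P.rE_cub.two
  b := P.bV
  k := P.kV
  l := P.lV
  ρ := P.rE
  t := P.tv
  act := P.actV
  inj z h := by
    apply Subtype.ext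
    have h1 : (z : P.Ed) * 1 = 0 := h
    rwa [mul_one] at h1
  l_inj v h := Subtype.ext h
  l_b u v := rfl
  k_symm := P.kV_symm
  R1 := P.R1_V
  E1 := P.E1_V
  l_t g := by
    show P.lam (P.t g) = P.rE g + P.rE g⁻¹
    rw [← rE_sqe, sqe_eq P.rE_cub]
  cube g := P.rE_cub.cube g
  mid g h := by
    show P.lam (P.t g) * P.rE h * P.lam (P.t g) = 0
    rw [← rE_sqe, sqe_mid P.rE_cub]
  l_act g v := P.actV_apply g v
  k_act g u v := P.k_actV g u v
  span v := P.span_V v
  can y h := P.can_V y h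
  canl y h := P.Ed_left_zero fun g => h (P.tv g)
  canr y h := P.Ed_right_zero fun g => h (P.tv g)
  schur T hT h := P.schur_V T hT h

end TPr

end E4
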