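import Pool.Agent.Lib.MP_8a95e3_al.X13b

/-!
# X14 : the induction and the exactness theorem
-/

noncomputable section

namespace E4.X

open E4

theorem all_E {P0 P : AddSubgroup FB} (h0 : A0F P0) (hP : Ids P) (hle : P ≤ P0) (n : ℕ) :
    E0 P0 P n ∧ E1 P0 P n ∧ E2 P0 P n := by
  induction n with
  | zero =>
    have a := e0_zero (P := P) h0
    have b := e1_zero h0 hP hle
    exact ⟨a, b, stepA h0 hP hle a b⟩
  | succ n ih =>
    obtain ⟨a, b, c⟩ := ih
    have a' := stepC0 h0 hP hle a b
    have b' : E1 P0 P (n + 1) := by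
      rcases Nat.eq_zero_or_pos n with hn | hn
      · subst hn
        exact e1_one h0 hP hle c
      · exact stepC1 h0 hP hle hn b c
    exact ⟨a', b', stepA h0 hP hle a' b'⟩

private theorem X14_ind {P0 P : AddSubgroup FB} (h0 : TI P0)
    (hE : ∀ (L : Finset ℕ) (f : FB), Full L f → f ∈ P0 → f ∈ P) (n : ℕ) :
    ∀ (M : Finset ℕ) (f : FB), M.card = n → eB (ret M) f = f → f ∈ P0 → f ∈ P := by
  induction n using Nat.strong_induction_on with
  | _ n ih =>
    intro M f hM hr hf
    have hq : QL M f ∈ P := by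
      refine hE M _ ⟨fun j hj => QL_kill hj f, QL_ret hr⟩ ?_
      exact QL_mem (W := P0) (fun j _ w hw => h0.endo _ w hw) hf
    have hs : ∑ U ∈ M.powerset.erase ∅, eB (kls U) f ∈ P := by
      refine sum_mem fun U hU => ?_
      rw [Finset.mem_erase, Finset.mem_powerset] at hU
      obtain ⟨hU1, hU2⟩ := hU
      have hcard : (M \ U).card < n := by
        rw [← hM]
        refine Finset.card_lt_card ?_
        rw [Finset.ssubset_iff_of_subset Finset.sdiff_subset]
        obtain ⟨i, hi⟩ := Finset.nonempty_iff_ne_empty.2 hU1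
        exact ⟨i, hU2 hi, fun h => (Finset.mem_sdiff.1 h).2 hi⟩
      refine ih _ hcard (M \ U) _ rfl ?_ (h0.endo _ _ hf)
      have e : (ret (M \ U)).comp ((kls U).comp (ret M)) = (kls U).comp (ret M) := by
        refine hom_ext fun i => ?_
        simp only [MonoidHom.comp_apply, ret_x]
        by_cases h1 : i ∈ M
        · rw [if_pos h1, kls_x]
          by_cases h2 : i ∈ U
          · rw [if_pos h2, map_one]
          · rw [if_neg h2, ret_x, if_pos (Finset.mem_sdiff.2 ⟨h1, h2⟩)]
        · rw [if_neg h1, map_one, map_one]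
      have e2 : eB (kls U) f = eB ((kls U).comp (ret M)) f := by
        rw [← eB_comp, hr]
      rw [e2, eB_comp, e]
    have h1 : eB (kls ∅) f = f := by
      refine eB_id _ (fun i => ?_) f
      rw [kls_x, if_neg (Finset.notMem_empty i)]
    have h2 : f = QL M f - ∑ U ∈ M.powerset.erase ∅, eB (kls U) f := by
      rw [QL_apply, ← Finset.add_sum_erase _ _ (Finset.empty_mem_powerset M), h1, add_sub_cancel_right]
    rw [h2]
    exact sub_mem hq hs

/-- PROOF.  `exists_ret`: `f = eB (ret M) f`.  Induction on `M` (or directly): `f = ∑_{L ⊆ M} QL L (eB (ret L) f)` (Moebius: `eB (ret L)` kills the letters of `M \ L`; `∑_{L ⊆ M} ∑_{U ⊆ L} eB (ret (L \ U)) f = eB (ret M) f` in characteristic two), every summand is full on `L` and in `P0`. -/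
theorem full_sum {P0 P : AddSubgroup FB} (h0 : TI P0) (hE : ∀ (L : Finset ℕ) (f : FB), Full L f → f ∈ P0 → f ∈ P) : P0 ≤ P := by
  intro f hf
  obtain ⟨M, hM⟩ := exists_ret f
  exact X14_ind h0 hE M.card M f rfl hM hf

/-- **Exactness.** -/
theorem exact {P0 P : AddSubgroup FB} (h0 : A0F P0) (hP : Ids P) (hle : P ≤ P0) : P0 = P :=
  le_antisymm (full_sum h0.ti fun L f hF hf => (all_E h0 hP hle L.card).1 L rfl f hF hf) hle

end E4.X
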