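import Pool.Agent.Lib.MP_8a95e3_al.XC
import Pool.Agent.Lib.MP_8a95e3_al.X14
import Pool.Agent.Lib.MP_8a95e3_al.TId

/-!
# XG : passage from integral coefficients to `F_2`
-/

noncomputable section

namespace E4.X

open E4

theorem PG_TI (R : Set FB) : TI (PG R) := by
  have hb : Bi (PG R) := idl_bi _
  refine ⟨fun a r hr => hb.mul_left a hr, fun a r hr => hb.mul_right a hr, ?_, ?_⟩
  · intro φ p hp
    refine eB_idl hb φ ?_ hp
    rintro s (⟨h, rfl⟩ | ⟨ψ, s', hs', rfl⟩)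
    · rw [map_pow, eB_C]
      exact sub_idl (Or.inl ⟨_, rfl⟩)
    · rw [eB_comp]
      exact sub_idl (Or.inr ⟨_, s', hs', rfl⟩)
  · intro h
    exact sub_idl (Or.inl ⟨h, rfl⟩)

theorem PG_mem {R : Set FB} {r : FB} (hr : r ∈ R) (φ : F →* F) : eB φ r ∈ PG R :=
  sub_idl (Or.inr ⟨φ, r, hr, rfl⟩)

theorem PG_le {R : Set FB} {Q : AddSubgroup FB} (hQ : TI Q) (h : ∀ r ∈ R, r ∈ Q) : PG R ≤ Q := by
  refine idl_le hQ.bi ?_
  rintro s (⟨h, rfl⟩ | ⟨φ, s', hs', rfl⟩)
  · exact hQ.cube h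
  · exact hQ.endo φ _ (h s' hs')

/-- reduction modulo two -/
def tob : FA →+* FB := MonoidAlgebra.mapRingHom F (Int.castRingHom (ZMod 2))

theorem tob_of (g : F) : tob (ofF g) = o g := by
  show MonoidAlgebra.mapRingHom F (Int.castRingHom (ZMod 2)) (MonoidAlgebra.single g 1) = MonoidAlgebra.single g 1
  rw [MonoidAlgebra.mapRingHom_single, map_one]

theorem tob_surj : Function.Surjective tob := by
  intro f
  induction f using MonoidAlgebra.induction_on with
  | of g => exact ⟨ofF g, tob_of g⟩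
  | add a b ha hb =>
    obtain ⟨a', rfl⟩ := ha
    obtain ⟨b', rfl⟩ := hb
    exact ⟨a' + b', map_add _ _ _⟩
  | smul r a ha =>
    obtain ⟨a', rfl⟩ := ha
    have h01 : ∀ r : ZMod 2, r = 0 ∨ r = 1 := by decide
    rcases h01 r with rfl | rfl
    · exact ⟨0, by rw [map_zero, zero_smul]⟩
    · exact ⟨a', by rw [one_smul]⟩

theorem tob_X (h : F) : tob (E4.X ofF h) = C h := by
  rw [E4.X, map_add, map_one, tob_of]
  rfl

theorem tob_eA (φ : F →* F) (f : FA) : tob (eA φ f) = eB φ (tob f) := by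
  induction f using MonoidAlgebra.induction_on with
  | of g =>
    show tob (eA φ (ofF g)) = eB φ (tob (ofF g))
    rw [eA_of, tob_of, tob_of, eB_o]
  | add a b ha hb => rw [map_add, map_add, map_add, map_add, ha, hb]
  | smul r a ha => rw [map_zsmul, map_zsmul, map_zsmul, map_zsmul, ha]

theorem tob_ker {P : AddSubgroup FA} (hP : TIdl P) {f : FA} (h : tob f = 0) : f ∈ P := by
  have h2 : ∃ f' : FA, f = f' * 2 := by
    refine ⟨MonoidAlgebra.ofCoeff (f.coeff.mapRange (fun c => c / 2) (by simp)), ?_⟩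
    rw [mul_two]
    ext m
    have h1 : (tob f).coeff m = ((f.coeff m : ℤ) : ZMod 2) := by
      unfold tob
      rw [MonoidAlgebra.coeff_mapRingHom]
      rfl
    rw [h] at h1
    have h3 : ((f.coeff m : ℤ) : ZMod 2) = 0 := by
      rw [← h1]; rfl
    rw [ZMod.intCast_zmod_eq_zero_iff_dvd] at h3
    rw [MonoidAlgebra.coeff_add, Finsupp.add_apply]
    show f.coeff m = f.coeff m / 2 + f.coeff m / 2
    obtain ⟨k, hk⟩ := h3
    rw [hk]
    push_cast
    omega
  obtain ⟨f', rfl⟩ := h2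
  exact hP.left f' 2 hP.two

/-- image of a T-ideal of the integral group ring -/
def mB (P : AddSubgroup FA) : AddSubgroup FB := P.map tob.toAddMonoidHom

theorem mem_mB {P : AddSubgroup FA} (hP : TIdl P) {f : FA} : tob f ∈ mB P ↔ f ∈ P := by
  constructor
  · rintro ⟨g, hg, h⟩
    have h1 : tob (f - g) = 0 := by
      rw [map_sub, sub_eq_zero]
      exact h.symm
    have := add_mem (tob_ker hP h1) hg
    rwa [sub_add_cancel] at this
  · intro h
    exact ⟨f, h, rfl⟩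

theorem mB_TI {P : AddSubgroup FA} (hP : TIdl P) : TI (mB P) := by
  refine ⟨?_, ?_, ?_, ?_⟩
  · rintro a _ ⟨p, hp, rfl⟩
    obtain ⟨a', rfl⟩ := tob_surj a
    exact ⟨a' * p, hP.left a' p hp, map_mul tob _ _⟩
  · rintro a _ ⟨p, hp, rfl⟩
    obtain ⟨a', rfl⟩ := tob_surj a
    exact ⟨p * a', hP.right a' p hp, map_mul tob _ _⟩
  · rintro φ _ ⟨p, hp, rfl⟩
    exact ⟨eA φ p, hP.endo φ p hp, tob_eA φ p⟩
  · intro h
    refine ⟨E4.X ofF h ^ 3, hP.cube h, ?_⟩
    show tob (E4.X ofF h ^ 3) = _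
    rw [map_pow, tob_X]

/-- preimage of a T-ideal -/
def cB (Q : AddSubgroup FB) : AddSubgroup FA := Q.comap tob.toAddMonoidHom

theorem mem_cB {Q : AddSubgroup FB} {f : FA} : f ∈ cB Q ↔ tob f ∈ Q := Iff.rfl

theorem cB_TIdl {Q : AddSubgroup FB} (hQ : TI Q) : TIdl (cB Q) := by
  refine ⟨?_, ?_, ?_, ?_, ?_⟩
  · intro a p hp
    rw [mem_cB, map_mul]
    exact hQ.left _ _ hp
  · intro a p hp
    rw [mem_cB, map_mul]
    exact hQ.right _ _ hp
  · intro φ p hp
    rw [mem_cB, tob_eA]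
    exact hQ.endo φ _ hp
  · rw [mem_cB]
    have : tob (2 : FA) = 0 := by
      have h2 : (2 : FA) = 1 + 1 := one_add_one_eq_two.symm
      refine (congrArg tob h2).trans ?_
      rw [map_add]
      exact fb_add_self _
    rw [this]
    exact zero_mem _
  · intro h
    rw [mem_cB, map_pow, tob_X]
    exact hQ.cube h

/-- the kernel of `FA → F_2[F] / (cubes)` is contained in every T-ideal -/
theorem cK0_le {P : AddSubgroup FA} (hP : TIdl P) : cB K0 ≤ P := by
  intro f hf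
  exact (mem_mB hP).1 (K0_le (mB_TI hP) hf)

/-- **The generation statement over the integers.** -/
theorem gen_form {R : Set FB} {s : ℕ} (r : Fin s → FA) (hr : ∀ q ∈ R, ∃ i, tob (r i) = q) {P : AddSubgroup FA}
    (h : mB P ≤ PG R) :
    P ≤ cB K0 ⊔ AddSubgroup.closure {p | ∃ (a b : F) (φ : F →* F) (i : Fin s), p = ofF a * eA φ (r i) * ofF b} := by
  intro p hp
  have key : ∀ q ∈ PG R, ∃ p' ∈ cB K0 ⊔ AddSubgroup.closure {p | ∃ (a b : F) (φ : F →* F) (i : Fin s),
      p = ofF a * eA φ (r i) * ofF b}, tob p' = q := by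
    intro q hq
    refine AddSubgroup.closure_induction (p := fun q _ => ∃ p' ∈ cB K0 ⊔ AddSubgroup.closure {p | ∃ (a b : F) (φ : F →* F)
      (i : Fin s), p = ofF a * eA φ (r i) * ofF b}, tob p' = q) ?_ ?_ ?_ ?_ hq
    · rintro _ ⟨a, b, t, (⟨g, rfl⟩ | ⟨φ, t', ht', rfl⟩), rfl⟩
      · refine ⟨ofF a * E4.X ofF g ^ 3 * ofF b, AddSubgroup.mem_sup_left ?_, ?_⟩
        · rw [mem_cB, map_mul, map_mul, map_pow, tob_X]
          exact K0_TI.right _ _ (K0_TI.left _ _ (K0_TI.cube g))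
        · rw [map_mul, map_mul, map_pow, tob_X, tob_of, tob_of]
      · obtain ⟨i, hi⟩ := hr t' ht'
        refine ⟨ofF a * eA φ (r i) * ofF b, AddSubgroup.mem_sup_right (AddSubgroup.subset_closure ⟨a, b, φ, i, rfl⟩), ?_⟩
        rw [map_mul, map_mul, tob_eA, hi, tob_of, tob_of]
    · exact ⟨0, zero_mem _, map_zero _⟩
    · rintro a b _ _ ⟨a', ha', rfl⟩ ⟨b', hb', rfl⟩
      exact ⟨a' + b', add_mem ha' hb', map_add _ _ _⟩
    · rintro a _ ⟨a', ha', rfl⟩
      exact ⟨-a', neg_mem ha', map_neg _ _⟩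
  obtain ⟨p', hp', hq⟩ := key (tob p) (h ⟨p, hp, rfl⟩)
  have h1 : p - p' ∈ cB K0 := by
    rw [mem_cB, map_sub, hq, sub_self]
    exact zero_mem _
  have := add_mem (AddSubgroup.mem_sup_left (T := AddSubgroup.closure {p | ∃ (a b : F) (φ : F →* F) (i : Fin s),
      p = ofF a * eA φ (r i) * ofF b}) h1) hp'
  rwa [sub_add_cancel] at this

end E4.X
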