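import Pool.Agent.Lib.MP_8a95e3_al.PI7
import Pool.Agent.Lib.MP_8a95e3_al.XG

/-!
# PI8 : the T-prime quotient of a given maximal ideal
-/

noncomputable section

namespace E4

private theorem PI8_ind {q : FA → Prop} (h1 : ∀ g, q (ofF g)) (h0 : q 0) (ha : ∀ a b, q a → q b → q (a + b))
    (hn : ∀ a, q a → q (-a)) (a : FA) : q a := by
  have h2 : a ∈ AddSubgroup.closure (Set.range ofF) := by
    rw [show AddSubgroup.closure (Set.range ofF) = ⊤ from fa_spn]
    trivial
  induction h2 using AddSubgroup.closure_induction with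
  | mem y hy =>
    obtain ⟨g, rfl⟩ := hy
    exact h1 g
  | zero => exact h0
  | add a b _ _ iha ihb => exact ha a b iha ihb
  | neg a _ iha => exact hn a iha

theorem exists_TPr_ker (P : AddSubgroup FA) (hP : TIdl P) (hPw : ∀ m, wA ofF m ∉ P)
    (hmax : ∀ Q : AddSubgroup FA, TIdl Q → P ≤ Q → (∀ m, wA ofF m ∉ Q) → Q ≤ P) :
    ∃ (A : Type) (_ : Ring A) (T : TPr A), ∀ f : FA, ev T.ρ f = 0 ↔ f ∈ P := by
  obtain ⟨A, _, π, hπ, hker⟩ := quo_ideal P hP.left hP.right
  have hXρ : ∀ h, X ((π : FA →* A).comp ofF) h = π (X ofF h) := fun h => X_comp ofF π h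
  have hw : ∀ m, wA ((π : FA →* A).comp ofF) m = π (wA ofF m) := by
    intro m
    have h1 : wA ofF m = ((List.range m).map (fun i => X ofF (cm (x (2 * i)) (x (2 * i + 1))))).prod := rfl
    have h2 : wA ((π : FA →* A).comp ofF) m =
      ((List.range m).map (fun i => X ((π : FA →* A).comp ofF) (cm (x (2 * i)) (x (2 * i + 1))))).prod := rfl
    rw [h1, h2, map_list_prod, List.map_map]
    congr 1
    exact List.map_congr_left fun i _ => hXρ _
  have h2A : (2 : A) = 0 := by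
    have h1 := (hker 2).2 hP.two
    rwa [map_ofNat] at h1
  have hle : ∀ φ : F →* F, RingHom.ker π ≤ RingHom.ker (π.comp (eA φ)) := by
    intro φ p hp
    rw [RingHom.mem_ker] at hp ⊢
    exact (hker _).2 (hP.endo φ p ((hker p).1 hp))
  have hE : ∀ (φ : F →* F) (p : FA), (π.liftOfSurjective hπ ⟨π.comp (eA φ), hle φ⟩) (π p) = π (eA φ p) := fun φ p =>
    RingHom.liftOfRightInverse_comp_apply π _ _ ⟨π.comp (eA φ), hle φ⟩ p
  refine ⟨A, inferInstance, ⟨(π : FA →* A).comp ofF, ⟨h2A, fun h => ?_⟩, ?_,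
    fun φ => π.liftOfSurjective hπ ⟨π.comp (eA φ), hle φ⟩, fun φ g => ?_, fun a b hab => ?_, fun m => ?_⟩, fun f => ?_⟩
  · rw [hXρ, ← map_pow]
    exact (hker _).2 (hP.cube h)
  · unfold Spn
    rw [eq_top_iff]
    intro r _
    obtain ⟨p, rfl⟩ := hπ r
    refine PI8_ind (q := fun p => π p ∈ AddSubgroup.closure (Set.range ((π : FA →* A).comp ofF))) (fun g => ?_) ?_ ?_ ?_ p
    · exact AddSubgroup.subset_closure ⟨g, rfl⟩
    · rw [map_zero]
      exact zero_mem _
    · intro a b ha hb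
      rw [map_add]
      exact add_mem ha hb
    · intro a ha
      rw [map_neg]
      exact neg_mem ha
  · show (π.liftOfSurjective hπ ⟨π.comp (eA φ), hle φ⟩) (π (ofF g)) = π (ofF (φ g))
    rw [hE, eA_of]
  · obtain ⟨f, rfl⟩ := hπ a
    obtain ⟨g, rfl⟩ := hπ b
    rw [hE, hE, ← map_mul] at hab
    exact (tprime P hP hPw hmax f g ((hker _).1 hab)).imp (hker f).2 (hker g).2
  · rw [hw]
    intro h1
    exact hPw m ((hker _).1 h1)
  · have h1 : ∀ f, ev ((π : FA →* A).comp ofF) f = π f := by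
      refine PI8_ind ?_ ?_ ?_ ?_
      · intro g
        rw [ev_of]
        rfl
      · rw [map_zero, map_zero]
      · intro a b ha hb
        rw [map_add, map_add, ha, hb]
      · intro a ha
        rw [map_neg, map_neg, ha]
    show ev ((π : FA →* A).comp ofF) f = 0 ↔ f ∈ P
    rw [h1]
    exact hker f

/-- the structure map of a ring of characteristic two -/
def z2 {E : Type} [Ring E] (h2 : (2 : E) = 0) : ZMod 2 →+* E :=
  ZMod.castHom (m := ringChar E) (ringChar.dvd (by rw [Nat.cast_ofNat]; exact h2)) E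

/-- the lift of a representation to the group ring over `F_2` -/
def evB {E : Type} [Ring E] (h2 : (2 : E) = 0) (ρ : F →* E) : X.FB →+* E :=
  MonoidAlgebra.liftNCRingHom (z2 h2) ρ (by
    intro c g
    have h01 : ∀ r : ZMod 2, r = 0 ∨ r = 1 := by decide
    rcases h01 c with rfl | rfl
    · rw [map_zero]
      exact Commute.zero_left _
    · rw [map_one]
      exact Commute.one_left _)

theorem evB_o {E : Type} [Ring E] (h2 : (2 : E) = 0) (ρ : F →* E) (g : F) : evB h2 ρ (X.o g) = ρ g := by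
  show MonoidAlgebra.liftNCRingHom (z2 h2) ρ _ (MonoidAlgebra.single g 1) = ρ g
  rw [MonoidAlgebra.liftNCRingHom_single, map_one, one_mul]

theorem ev'_tob {E : Type} [Ring E] (ρ : F →* E) (e : X.FB →+* E) (he : ∀ g, e (X.o g) = ρ g) (f : FA) :
    e (X.tob f) = ev ρ f := by
  refine PI8_ind (q := fun f => e (X.tob f) = ev ρ f) ?_ ?_ ?_ ?_ f
  · intro g
    rw [X.tob_of, he, ev_of]
  · rw [map_zero, map_zero, map_zero]
  · intro a b ha hb
    rw [map_add, map_add, map_add, ha, hb]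
  · intro a ha
    rw [map_neg, map_neg, map_neg, ha]

/-- **The algebra of a maximal insoluble T-ideal.** -/
theorem exists_PAlg (P : AddSubgroup FA) (hP : TIdl P) (hPw : ∀ m, wA ofF m ∉ P)
    (hmax : ∀ Q : AddSubgroup FA, TIdl Q → P ≤ Q → (∀ m, wA ofF m ∉ Q) → Q ≤ P) :
    ∃ (V Z E : Type) (_ : AddCommGroup V) (_ : CommRing Z) (_ : Module Z V) (_ : Ring E) (_ : Algebra Z E)
      (K : E4.P.PAlg F V Z E), Nontrivial E ∧ (∀ f : FA, ev K.ρ f = 0 ↔ f ∈ P) ∧
      (∀ e : X.FB →+* E, (∀ g, e (X.o g) = K.ρ g) → ∀ f : X.FB, e f = 0 ↔ f ∈ X.mB P) := by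
  obtain ⟨A, _, T, hT⟩ := exists_TPr_ker P hP hPw hmax
  have h1 : ∀ f, ev T.pal.ρ f = T.lam (ev T.ρ f) := by
    refine PI8_ind ?_ ?_ ?_ ?_
    · intro g
      rw [ev_of, ev_of]
      rfl
    · rw [map_zero, map_zero, map_zero]
    · intro a b ha hb
      rw [map_add, map_add, map_add, ha, hb]
    · intro a ha
      rw [map_neg, map_neg, map_neg, ha]
  have h2 : ∀ f : FA, ev T.pal.ρ f = 0 ↔ f ∈ P := by
    intro f
    rw [h1, ← hT]
    exact ⟨fun h => T.lam_inj h, fun h => by rw [h, map_zero]⟩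
  refine ⟨T.Vv, T.Zc, T.Ed, inferInstance, inferInstance, inferInstance, inferInstance, inferInstance, T.pal, ?_, h2, ?_⟩
  · refine ⟨⟨1, 0, fun h => ?_⟩⟩
    have h3 : ev T.pal.ρ 1 = 0 := by
      rw [map_one]
      exact h
    have h4 : (1 : FA) ∈ P := (h2 1).1 h3
    exact hPw 0 (by simpa using hP.left (wA ofF 0) 1 h4)
  · intro e he f
    obtain ⟨f', rfl⟩ := X.tob_surj f
    rw [ev'_tob _ e he, h2, X.mem_mB hP]

end E4
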