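import Pool.Agent.Lib.MP_8a95e3_al.X04a

/-!
# X04b : ordered products
-/

noncomputable section

namespace E4.X

open E4

@[simp] theorem gP_empty : gP ∅ = 1 := by simp [gP]

@[simp] theorem XP_empty : XP ∅ = 1 := by simp [XP]

/-- PROOF: `Finset.sort_insert`. -/
theorem gP_insert {a : ℕ} {L : Finset ℕ} (h : ∀ b ∈ L, a < b) : gP (insert a L) = x a * gP L := by
  have ha : a ∉ L := fun hm => lt_irrefl _ (h a hm)
  unfold gP
  rw [Finset.sort_insert (· ≤ ·) (fun b hb => (h b hb).le) ha]
  simp

theorem XP_insert {a : ℕ} {L : Finset ℕ} (h : ∀ b ∈ L, a < b) : XP (insert a L) = Xl a * XP L := by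
  have ha : a ∉ L := fun hm => lt_irrefl _ (h a hm)
  unfold XP
  rw [Finset.sort_insert (· ≤ ·) (fun b hb => (h b hb).le) ha]
  simp

/-- PROOF: `Finset.induction_on_min`, `XP_insert`, `gP_insert`, `Finset.sum_powerset_insert`. -/
theorem XP_sum (L : Finset ℕ) : XP L = ∑ U ∈ L.powerset, o (gP U) := by
  induction L using Finset.induction_on_min with
  | empty => simp
  | insert a L h ih =>
    have ha : a ∉ L := fun hm => lt_irrefl _ (h a hm)
    rw [XP_insert h, Finset.sum_powerset_insert ha, ih]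
    have e1 : ∑ t ∈ L.powerset, o (gP (insert a t)) = o (x a) * ∑ t ∈ L.powerset, o (gP t) := by
      rw [Finset.mul_sum]
      refine Finset.sum_congr rfl fun t ht => ?_
      rw [gP_insert (fun b hb => h b (Finset.mem_powerset.1 ht hb)), map_mul]
    rw [e1]
    unfold Xl C
    rw [add_mul, one_mul, add_comm]

private theorem X04b_map (φ : F →* F) (l : List ℕ) :
    eB φ ((l.map Xl).prod) = (l.map fun i => eB φ (Xl i)).prod := by
  rw [map_list_prod, List.map_map]
  rfl

private theorem X04b_mapg (φ : F →* F) (l : List ℕ) :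
    φ ((l.map x).prod) = (l.map fun i => φ (x i)).prod := by
  rw [map_list_prod, List.map_map]
  rfl

private theorem X04b_eBXl (φ : F →* F) (i : ℕ) : eB φ (Xl i) = C (φ (x i)) := by
  unfold Xl
  rw [eB_C]

theorem XP_kill {L : Finset ℕ} {j : ℕ} (hj : j ∈ L) : eB (rp j 1) (XP L) = 0 := by
  unfold XP
  rw [X04b_map]
  apply List.prod_eq_zero
  rw [List.mem_map]
  refine ⟨j, (Finset.mem_sort _).2 hj, ?_⟩
  rw [eB_Xl_rp_self, C_one]

/-- an endomorphism which fixes the letters of `L` fixes `XP L` -/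
private theorem X04b_fix {L : Finset ℕ} (φ : F →* F) (h : ∀ j ∈ L, φ (x j) = x j) : eB φ (XP L) = XP L := by
  unfold XP
  rw [X04b_map]
  congr 1
  apply List.map_congr_left
  intro i hi
  rw [X04b_eBXl, h i ((Finset.mem_sort _).1 hi)]
  rfl

theorem XP_ret {L M : Finset ℕ} (h : L ⊆ M) : eB (ret M) (XP L) = XP L :=
  X04b_fix _ fun j hj => by rw [ret_x, if_pos (h hj)]

/-- an endomorphism which fixes the letters of `L` fixes `XP L` -/
theorem XP_fix {L : Finset ℕ} (φ : F →* F) (h : ∀ j ∈ L, φ (x j) = x j) : eB φ (XP L) = XP L :=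
  X04b_fix φ h

theorem gP_ret {L M : Finset ℕ} (h : L ⊆ M) : ret M (gP L) = gP L := by
  unfold gP
  rw [X04b_mapg]
  congr 1
  apply List.map_congr_left
  intro i hi
  rw [ret_x, if_pos (h ((Finset.mem_sort _).1 hi))]

private theorem X04b_gfix {L : Finset ℕ} {j : ℕ} (h : j ∉ L) : rp j 1 (gP L) = gP L := by
  unfold gP
  rw [X04b_mapg]
  congr 1
  apply List.map_congr_left
  intro i hi
  have hij : i ≠ j := fun e => h (e ▸ (Finset.mem_sort _).1 hi)
  rw [rp_x, if_neg hij]

/-- killing a letter of `gP`.  PROOF: induction on `L` by the minimum, or map the list: `rp j 1` sends the list entry `x j` to `1`. -/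
theorem gP_kill (L : Finset ℕ) (j : ℕ) : rp j 1 (gP L) = gP (L.erase j) := by
  induction L using Finset.induction_on_min with
  | empty => simp
  | insert a L h ih =>
    have ha : a ∉ L := fun hm => lt_irrefl _ (h a hm)
    rw [gP_insert h, map_mul, rp_x, ih]
    by_cases e : a = j
    · subst e
      rw [if_pos rfl, one_mul, Finset.erase_insert ha, Finset.erase_eq_of_notMem ha]
    · rw [if_neg e, Finset.erase_insert_of_ne e,
        gP_insert (fun b hb => h b (Finset.mem_of_mem_erase hb))]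

/-- for `|L| ≥ 2` the product over `L.erase m` is `(product) * Xl j`.  PROOF: the sorted list is not empty; take its last element. -/
theorem XP_last {L : Finset ℕ} (h : L.Nonempty) : ∃ (j : ℕ) (a : FB), j ∈ L ∧ XP L = a * Xl j := by
  have hne : L.sort (· ≤ ·) ≠ [] := by
    intro e
    obtain ⟨a, ha⟩ := h
    have := (Finset.mem_sort (· ≤ ·)).2 ha
    rw [e] at this
    simp at this
  refine ⟨(L.sort (· ≤ ·)).getLast hne, (((L.sort (· ≤ ·)).dropLast).map Xl).prod,
    (Finset.mem_sort (· ≤ ·)).1 (List.getLast_mem hne), ?_⟩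
  unfold XP
  conv_lhs => rw [← List.dropLast_append_getLast hne]
  rw [List.map_append, List.prod_append]
  simp

theorem Dh_XP (y z : ℕ) (L : Finset ℕ) : Dh (fun v => Xl y * o v * Xl z) L = Xl y * XP L * Xl z := by
  rw [XP_sum, Dh, Finset.mul_sum, Finset.sum_mul]

theorem Dh_XP3 (j : ℕ) (L : Finset ℕ) : Dh (D3 j) L = Xl j * XP L * Xl j ^ 2 := by
  unfold D3
  rw [XP_sum, Dh, Finset.mul_sum, Finset.sum_mul]

end E4.X
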