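import Pool.Agent.Lib.MP_8a95e3_al.P.P20
import Pool.Agent.Lib.MP_8a95e3_al.X04b

/-!
# PX1a : expansions into words, basic definitions

`Pp φ`: the ring homomorphism `φ : FB →+* R` makes every letter behave like a square: `φ (Xl j) φ(a) φ (Xl j) = 0`.
`pr φ L` = value of a word `L` (list of letters), `ps φ s0 U` = value of a sum of pairs of words around `s0`,
`Ex s0 U s` : for all such `φ` the value of `s` is the sum of the `(word) s0 (word)`.
-/

noncomputable section

namespace E4.X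

open E4

/-- homomorphisms for which all letters behave like squares -/
structure Pp {R : Type} [Ring R] (φ : FB →+* R) : Prop where
  two : ∀ r : R, r + r = 0
  mid : ∀ (j : ℕ) (a : FB), φ (Xl j) * φ a * φ (Xl j) = 0

/-- the product of the letters of a list -/
def XL (L : List ℕ) : FB := (L.map Xl).prod

/-- value of a word -/
def pr {R : Type} [Ring R] (φ : FB →+* R) (L : List ℕ) : R := (L.map (fun j => φ (Xl j))).prod

/-- value of a sum of pairs of words around `s0` -/
def ps {R : Type} [Ring R] (φ : FB →+* R) (s0 : FB) (U : List (List ℕ × List ℕ)) : R :=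
  (U.map (fun p => pr φ p.1 * φ s0 * pr φ p.2)).sum

/-- `s` is the sum of the `(word) s0 (word)`, uniformly in `φ` -/
def Ex (s0 : FB) (U : List (List ℕ × List ℕ)) (s : FB) : Prop :=
  ∀ (R : Type) [Ring R] (φ : FB →+* R), Pp φ → φ s = ps φ s0 U

/-- `f` is a sum of words, uniformly in `φ` -/
def Ew (W : List (List ℕ)) (f : FB) : Prop :=
  ∀ (R : Type) [Ring R] (φ : FB →+* R), Pp φ → φ f = (W.map (pr φ)).sum

@[simp] theorem pr_nil {R : Type} [Ring R] (φ : FB →+* R) : pr φ [] = 1 := rfl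

theorem pr_cons {R : Type} [Ring R] (φ : FB →+* R) (j : ℕ) (L : List ℕ) : pr φ (j :: L) = φ (Xl j) * pr φ L := by
  unfold pr
  rw [List.map_cons, List.prod_cons]

theorem pr_append {R : Type} [Ring R] (φ : FB →+* R) (L L' : List ℕ) : pr φ (L ++ L') = pr φ L * pr φ L' := by
  unfold pr
  rw [List.map_append, List.prod_append]

/-- PROOF: `map_list_prod`. -/
theorem pr_XL {R : Type} [Ring R] (φ : FB →+* R) (L : List ℕ) : φ (XL L) = pr φ L := by
  unfold XL pr
  rw [map_list_prod, List.map_map]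
  rfl

theorem XP_XL (H : Finset ℕ) : XP H = XL (H.sort (· ≤ ·)) := rfl

theorem XL_append (L L' : List ℕ) : XL (L ++ L') = XL L * XL L' := by
  unfold XL
  rw [List.map_append, List.prod_append]

/-- composition with an endomorphism of `F` which maps each letter to a letter or to `1`.
PROOF: `eB ψ (Xl j) = C (ψ (x j))` is `C 1 = 0` or `Xl i`; then `h.mid i (eB ψ a)`. -/
theorem Pp.comp {R : Type} [Ring R] {φ : FB →+* R} (h : Pp φ) (ψ : F →* F)
    (hψ : ∀ j, ψ (x j) = 1 ∨ ∃ i, ψ (x j) = x i) : Pp (φ.comp (eB ψ)) where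
  two := h.two
  mid j a := by
    show φ (eB ψ (Xl j)) * φ (eB ψ a) * φ (eB ψ (Xl j)) = 0
    have e1 : eB ψ (Xl j) = C (ψ (x j)) := by
      unfold Xl
      rw [eB_C]
    rw [e1]
    rcases hψ j with h1 | ⟨i, hi⟩
    · rw [h1, C_one, map_zero, zero_mul, zero_mul]
    · rw [hi]
      exact h.mid i (eB ψ a)

private theorem PX1a_sum_append {R : Type} [Ring R] (φ : FB →+* R) (u : List ℕ) (A : List (List ℕ)) :
    ((A.map (fun v => u ++ v)).map (pr φ)).sum = pr φ u * (A.map (pr φ)).sum := by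
  induction A with
  | nil => simp
  | cons v A ih =>
    rw [List.map_cons, List.map_cons, List.sum_cons, ih, List.map_cons, List.sum_cons, mul_add, pr_append]

private theorem PX1a_flat {R : Type} [Ring R] (φ : FB →+* R) (A B : List (List ℕ)) :
    ((A.flatMap (fun u => B.map (fun v => u ++ v))).map (pr φ)).sum = (A.map (pr φ)).sum * (B.map (pr φ)).sum := by
  induction A with
  | nil => simp
  | cons u A ih =>
    rw [List.flatMap_cons, List.map_append, List.sum_append, ih, PX1a_sum_append, List.map_cons, List.sum_cons, add_mul]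

private theorem PX1a_neg {R : Type} [Ring R] {φ : FB →+* R} (h : Pp φ) (r : R) : -r = r :=
  neg_eq_of_add_eq_zero_left (h.two r)

private theorem PX1a_ps_cons {R : Type} [Ring R] (φ : FB →+* R) (s0 : FB) (p : List ℕ × List ℕ)
    (U : List (List ℕ × List ℕ)) : ps φ s0 (p :: U) = pr φ p.1 * φ s0 * pr φ p.2 + ps φ s0 U := by
  unfold ps
  rw [List.map_cons, List.sum_cons]

private theorem PX1a_ps_append {R : Type} [Ring R] (φ : FB →+* R) (s0 : FB) (U U' : List (List ℕ × List ℕ)) :
    ps φ s0 (U ++ U') = ps φ s0 U + ps φ s0 U' := by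
  unfold ps
  rw [List.map_append, List.sum_append]

private theorem PX1a_ps_one {R : Type} [Ring R] (φ : FB →+* R) (s0 : FB) (u : List ℕ) (B : List (List ℕ)) :
    ps φ s0 (B.map (fun v => (u, v))) = pr φ u * φ s0 * (B.map (pr φ)).sum := by
  induction B with
  | nil => simp [ps]
  | cons v B ih => rw [List.map_cons, PX1a_ps_cons, ih, List.map_cons, List.sum_cons, mul_add]

private theorem PX1a_ps_flat {R : Type} [Ring R] (φ : FB →+* R) (s0 : FB) (A B : List (List ℕ)) :
    ps φ s0 (A.flatMap (fun u => B.map (fun v => (u, v)))) =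
      (A.map (pr φ)).sum * φ s0 * (B.map (pr φ)).sum := by
  induction A with
  | nil => simp [ps]
  | cons u A ih =>
    rw [List.flatMap_cons, PX1a_ps_append, ih, PX1a_ps_one, List.map_cons, List.sum_cons, add_mul, add_mul]

/-- PROOF: `FreeGroup.induction_on g` (as `E4.P.gword` in P13).  `1`: `A = [[]]`.  `x j`: `o (x j) = Xl j + 1` (characteristic two),
`A = [[j], []]`.  `(x j)⁻¹`: `φ (o (x j)) ^ 2 = (X + 1)^2 = X^2 + (X + X) + 1 = 1` (`h.mid j 1` gives `X X = 0`), hence
`φ (o (x j)⁻¹) = φ (o (x j))`, `A = [[j], []]`.  Product: `A = A1.flatMap (fun u => A2.map (fun v => u ++ v))`, `pr_append`,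
distributivity by induction on the lists. -/
theorem ex_word (g : F) : ∃ A : List (List ℕ), Ew A (o g) := by
  have hx : ∀ (j : ℕ) (R : Type) [Ring R] (φ : FB →+* R), Pp φ → φ (o (x j)) = φ (Xl j) + 1 := by
    intro j R _ φ h
    have e1 : (o (x j) : FB) = Xl j + 1 := by
      show o (x j) = o (x j) + 1 + 1
      rw [add_assoc, fb_add_self, add_zero]
    rw [e1, map_add, map_one]
  refine FreeGroup.induction_on g ?_ ?_ ?_ ?_
  · refine ⟨[[]], fun R _ φ _ => ?_⟩
    rw [map_one, map_one]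
    simp
  · intro j
    refine ⟨[[j], []], fun R _ φ h => ?_⟩
    have e1 : φ (o (FreeGroup.of j : F)) = φ (Xl j) + 1 := hx j R φ h
    rw [e1]
    simp [pr_cons]
  · intro j _
    refine ⟨[[j], []], fun R _ φ h => ?_⟩
    have e1 : φ (o (x j)) = φ (Xl j) + 1 := hx j R φ h
    have e2 : φ (Xl j) * φ (Xl j) = 0 := by
      have := h.mid j 1
      rwa [map_one, mul_one] at this
    have e3 : (φ (Xl j) + 1) * (φ (Xl j) + 1) = 1 := by
      have h4 := h.two (φ (Xl j))
      calc (φ (Xl j) + 1) * (φ (Xl j) + 1) = φ (Xl j) * φ (Xl j) + (φ (Xl j) + φ (Xl j)) + 1 := by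
            noncomm_ring
        _ = 1 := by rw [e2, h4, zero_add, zero_add]
    have e4 : φ (o (x j)⁻¹) * φ (o (x j)) = 1 := by
      rw [← map_mul, ← map_mul, inv_mul_cancel, map_one, map_one]
    have e5 : φ (o (x j)⁻¹) = φ (Xl j) + 1 := by
      calc φ (o (x j)⁻¹) = φ (o (x j)⁻¹) * ((φ (Xl j) + 1) * (φ (Xl j) + 1)) := by rw [e3, mul_one]
        _ = (φ (o (x j)⁻¹) * φ (o (x j))) * (φ (Xl j) + 1) := by rw [e1, mul_assoc]
        _ = φ (Xl j) + 1 := by rw [e4, one_mul]
    have e6 : φ (o ((FreeGroup.of j : F)⁻¹)) = φ (Xl j) + 1 := e5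
    rw [e6]
    simp [pr_cons]
  · rintro a b ⟨A, hA⟩ ⟨B, hB⟩
    refine ⟨A.flatMap (fun u => B.map (fun v => u ++ v)), fun R _ φ h => ?_⟩
    rw [map_mul, map_mul, hA R φ h, hB R φ h, PX1a_flat]

/-- PROOF: `AddSubgroup.closure_induction` on `hs`.  Generator `o a * s0 * o b`: `ex_word` for `a` and `b` (lists `A`, `B`),
`U = A.flatMap (fun u => B.map (fun v => (u, v)))`; sum `U ++ U'`; zero `[]`; negative: the same `U` (`-r = r` in `R` by `Pp.two`). -/
theorem ex_idl {s0 s : FB} (hs : s ∈ idl {s0}) : ∃ U, Ex s0 U s := by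
  unfold idl at hs
  induction hs using AddSubgroup.closure_induction with
  | mem r hr =>
    obtain ⟨a, b, t, ht, rfl⟩ := hr
    rw [Set.mem_singleton_iff] at ht
    subst ht
    obtain ⟨A, hA⟩ := ex_word a
    obtain ⟨B, hB⟩ := ex_word b
    refine ⟨A.flatMap (fun u => B.map (fun v => (u, v))), fun R _ φ h => ?_⟩
    rw [map_mul, map_mul, hA R φ h, hB R φ h, PX1a_ps_flat]
  | zero =>
    refine ⟨[], fun R _ φ _ => ?_⟩
    rw [map_zero]
    rfl
  | add a b _ _ ha hb =>
    obtain ⟨U, hU⟩ := ha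
    obtain ⟨U', hU'⟩ := hb
    refine ⟨U ++ U', fun R _ φ h => ?_⟩
    rw [map_add, hU R φ h, hU' R φ h, PX1a_ps_append]
  | neg a _ ha =>
    obtain ⟨U, hU⟩ := ha
    refine ⟨U, fun R _ φ h => ?_⟩
    rw [map_neg, hU R φ h, PX1a_neg h]

end E4.X
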