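import Pool.Agent.Lib.MP_8a95e3_al.PX1a

/-!
# PX1b : removing terms from an expansion
-/

noncomputable section

namespace E4.X

open E4

private theorem PX1b_nil {R : Type} [Ring R] (φ : FB →+* R) (s0 : FB) : ps φ s0 [] = 0 := rfl

private theorem PX1b_cons {R : Type} [Ring R] (φ : FB →+* R) (s0 : FB) (p : List ℕ × List ℕ) (U : List (List ℕ × List ℕ)) :
    ps φ s0 (p :: U) = pr φ p.1 * φ s0 * pr φ p.2 + ps φ s0 U := by
  unfold ps
  rw [List.map_cons, List.sum_cons]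

private theorem PX1b_split {R : Type} [Ring R] (φ : FB →+* R) (s0 : FB) (c : List ℕ × List ℕ → Prop) [DecidablePred c]
    (U : List (List ℕ × List ℕ)) :
    ps φ s0 U = ps φ s0 (U.filter (fun p => c p)) + ps φ s0 (U.filter (fun p => ¬ c p)) := by
  induction U with
  | nil => rw [List.filter_nil, List.filter_nil, PX1b_nil, add_zero]
  | cons p U ih =>
    by_cases hp : c p
    · rw [List.filter_cons_of_pos (by simpa using hp), List.filter_cons_of_neg (by simpa using hp), PX1b_cons, PX1b_cons,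
        ih, add_assoc]
    · rw [List.filter_cons_of_neg (by simpa using hp), List.filter_cons_of_pos (by simpa using hp), PX1b_cons, PX1b_cons,
        ih, add_left_comm]

/-- comparison of two homomorphisms -/
private theorem PX1b_comp {R : Type} [Ring R] (φ φ' : FB →+* R) (s0 : FB) (c : List ℕ × List ℕ → Prop) [DecidablePred c]
    (h0 : φ' s0 = φ s0) (h1 : ∀ p, c p → pr φ' p.1 = pr φ p.1 ∧ pr φ' p.2 = pr φ p.2)
    (h2 : ∀ p, ¬ c p → pr φ' p.1 = 0 ∨ pr φ' p.2 = 0) (U : List (List ℕ × List ℕ)) :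
    ps φ' s0 U = ps φ s0 (U.filter (fun p => c p)) := by
  induction U with
  | nil => rw [List.filter_nil, PX1b_nil, PX1b_nil]
  | cons p U ih =>
    by_cases hp : c p
    · rw [List.filter_cons_of_pos (by simpa using hp), PX1b_cons, PX1b_cons, ih, (h1 p hp).1, (h1 p hp).2, h0]
    · rw [List.filter_cons_of_neg (by simpa using hp), PX1b_cons, ih]
      rcases h2 p hp with h3 | h3
      · rw [h3, zero_mul, zero_mul, zero_add]
      · rw [h3, mul_zero, zero_add]

private theorem PX1b_zero {R : Type} [Ring R] (φ : FB →+* R) (s0 : FB) (U : List (List ℕ × List ℕ))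
    (h : ∀ p ∈ U, pr φ p.1 * φ s0 * pr φ p.2 = 0) : ps φ s0 U = 0 := by
  unfold ps
  refine List.sum_eq_zero fun r hr => ?_
  obtain ⟨p, hp, rfl⟩ := List.mem_map.1 hr
  exact h p hp

private theorem PX1b_pr0 {R : Type} [Ring R] {φ : FB →+* R} {j : ℕ} (h : φ (Xl j) = 0) {L : List ℕ} (hj : j ∈ L) :
    pr φ L = 0 := by
  unfold pr
  exact List.prod_eq_zero (List.mem_map.2 ⟨j, hj, h⟩)

private theorem PX1b_prc {R : Type} [Ring R] {φ φ' : FB →+* R} {L : List ℕ} (h : ∀ i ∈ L, φ' (Xl i) = φ (Xl i)) :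
    pr φ' L = pr φ L := by
  unfold pr
  rw [List.map_congr_left h]

/-- general principle.  PROOF: the sum over `U` is the sum over the filter `c` plus the sum over the filter `¬ c`
(induction on the list `U`). -/
theorem Ex.filt {s0 s : FB} {U : List (List ℕ × List ℕ)} (h : Ex s0 U s) (c : List ℕ × List ℕ → Prop) [DecidablePred c]
    (hc : ∀ (R : Type) [Ring R] (φ : FB →+* R), Pp φ → ps φ s0 (U.filter (fun p => ¬ c p)) = 0) :
    Ex s0 (U.filter (fun p => c p)) s := by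
  intro R _ φ hφ
  rw [h R φ hφ, PX1b_split φ s0 c U, hc R φ hφ, add_zero]

/-- if `s` is killed by `x_j ↦ 1` only the words which contain `j` remain.
PROOF: `Ex.filt` with `c p := j ∈ p.1 ++ p.2`.  Let `φ' := φ.comp (eB (rp j 1))`, `Pp φ'` by `Pp.comp`.  Then
`0 = φ' s = ps φ' s0 U`; in this sum `φ' s0 = φ s0`, a term with `j ∈ p.1 ++ p.2` vanishes (`φ' (Xl j) = φ (C 1) = 0`), and the other
terms are equal to the terms of `φ` (`φ' (Xl i) = φ (Xl i)` for `i ≠ j`).  So the sum over the filter `¬ c` vanishes. -/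
theorem Ex.kill {s0 s : FB} {U : List (List ℕ × List ℕ)} (h : Ex s0 U s) {j : ℕ} (h0 : eB (rp j 1) s0 = s0)
    (h1 : eB (rp j 1) s = 0) : Ex s0 (U.filter (fun p => j ∈ p.1 ++ p.2)) s := by
  refine h.filt (fun p => j ∈ p.1 ++ p.2) ?_
  intro R _ φ hφ
  have hφ' : Pp (φ.comp (eB (rp j 1))) := hφ.comp (rp j 1) fun i => by
    rw [rp_x]
    by_cases hi : i = j
    · rw [if_pos hi]
      exact Or.inl rfl
    · rw [if_neg hi]
      exact Or.inr ⟨i, rfl⟩
  have h2 := h R _ hφ'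
  have h3 : (φ.comp (eB (rp j 1))) s = 0 := by
    show φ (eB (rp j 1) s) = 0
    rw [h1, map_zero]
  have hj : (φ.comp (eB (rp j 1))) (Xl j) = 0 := by
    show φ (eB (rp j 1) (Xl j)) = 0
    rw [eB_Xl_rp_self, C_one, map_zero]
  have hi : ∀ i, i ≠ j → (φ.comp (eB (rp j 1))) (Xl i) = φ (Xl i) := by
    intro i hi
    show φ (eB (rp j 1) (Xl i)) = φ (Xl i)
    rw [eB_Xl_rp_ne 1 hi]
  have h0' : (φ.comp (eB (rp j 1))) s0 = φ s0 := by
    show φ (eB (rp j 1) s0) = φ s0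
    rw [h0]
  rw [← PX1b_comp φ (φ.comp (eB (rp j 1))) s0 (fun p => ¬ j ∈ p.1 ++ p.2) h0' ?_ ?_ U, ← h2, h3]
  · intro p hp
    have hp' : ¬ j ∈ p.1 ++ p.2 := hp
    rw [List.mem_append, not_or] at hp'
    exact ⟨PX1b_prc fun i hi' => hi i (fun h => hp'.1 (h ▸ hi')), PX1b_prc fun i hi' => hi i (fun h => hp'.2 (h ▸ hi'))⟩
  · intro p hp
    have hp' : j ∈ p.1 ++ p.2 := not_not.1 hp
    rcases List.mem_append.1 hp' with h4 | h4
    · exact Or.inl (PX1b_pr0 hj h4)
    · exact Or.inr (PX1b_pr0 hj h4)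

/-- PROOF: let `φ' := φ.comp (eB (ret M))`; `φ s = φ' s = ps φ' s0 U`, `φ' s0 = φ s0`, a term which contains a letter outside `M`
vanishes for `φ'`, the other terms agree with those of `φ`. -/
theorem Ex.ret {s0 s : FB} {U : List (List ℕ × List ℕ)} (h : Ex s0 U s) {M : Finset ℕ} (h0 : eB (ret M) s0 = s0)
    (h1 : eB (ret M) s = s) : Ex s0 (U.filter (fun p => ∀ i ∈ p.1 ++ p.2, i ∈ M)) s := by
  intro R _ φ hφ
  have hφ' : Pp (φ.comp (eB (X.ret M))) := hφ.comp (X.ret M) fun i => by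
    rw [ret_x]
    by_cases hi : i ∈ M
    · rw [if_pos hi]
      exact Or.inr ⟨i, rfl⟩
    · rw [if_neg hi]
      exact Or.inl rfl
  have h2 := h R _ hφ'
  have h3 : (φ.comp (eB (X.ret M))) s = φ s := by
    show φ (eB (X.ret M) s) = φ s
    rw [h1]
  have h0' : (φ.comp (eB (X.ret M))) s0 = φ s0 := by
    show φ (eB (X.ret M) s0) = φ s0
    rw [h0]
  have hj : ∀ j, j ∉ M → (φ.comp (eB (X.ret M))) (Xl j) = 0 := by
    intro j hj
    show φ (eB (X.ret M) (Xl j)) = 0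
    unfold Xl
    rw [eB_C, ret_x, if_neg hj, C_one, map_zero]
  have hi : ∀ i, i ∈ M → (φ.comp (eB (X.ret M))) (Xl i) = φ (Xl i) := by
    intro i hi
    show φ (eB (X.ret M) (Xl i)) = φ (Xl i)
    unfold Xl
    rw [eB_C, ret_x, if_pos hi]
  rw [← PX1b_comp φ (φ.comp (eB (X.ret M))) s0 (fun p => ∀ i ∈ p.1 ++ p.2, i ∈ M) h0' ?_ ?_ U, ← h2, h3]
  · intro p hp
    exact ⟨PX1b_prc fun i hi' => hi i (hp i (List.mem_append_left _ hi')),
      PX1b_prc fun i hi' => hi i (hp i (List.mem_append_right _ hi'))⟩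
  · intro p hp
    push Not at hp
    obtain ⟨i, hi1, hi2⟩ := hp
    rcases List.mem_append.1 hi1 with h4 | h4
    · exact Or.inl (PX1b_pr0 (hj i hi2) h4)
    · exact Or.inr (PX1b_pr0 (hj i hi2) h4)

/-- a word with a repeated letter vanishes.  PROOF: induction on `L`: `L = i :: L'`; if `i ∈ L'` write `L' = a ++ i :: b`
(`List.append_of_mem`) and use `Pp.mid i (XL a)` and `pr_XL`; otherwise `L'` is not nodup. -/
theorem pr_dup {R : Type} [Ring R] {φ : FB →+* R} (h : Pp φ) {L : List ℕ} (hL : ¬ L.Nodup) : pr φ L = 0 := by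
  induction L with
  | nil => exact absurd List.nodup_nil hL
  | cons i L ih =>
    by_cases hi : i ∈ L
    · obtain ⟨a, b, rfl⟩ := List.append_of_mem hi
      rw [pr_cons, pr_append, pr_cons, ← mul_assoc, ← mul_assoc, ← pr_XL φ a, h.mid i (XL a), zero_mul]
    · rw [pr_cons, ih (fun h1 => hL (List.nodup_cons.2 ⟨hi, h1⟩)), mul_zero]

/-- PROOF: `Ex.filt`; if `p.1 ++ p.2` is not nodup then `p.1` or `p.2` is not nodup (`pr_dup`) or they have a common letter `i`
(`List.nodup_append`): `p.1 = a ++ i :: b`, `p.2 = c ++ i :: d` and the term contains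
`φ (Xl i) * φ (XL b * s0 * XL c) * φ (Xl i) = 0`. -/
theorem Ex.nodup {s0 s : FB} {U : List (List ℕ × List ℕ)} (h : Ex s0 U s) :
    Ex s0 (U.filter (fun p => (p.1 ++ p.2).Nodup)) s := by
  refine h.filt (fun p => (p.1 ++ p.2).Nodup) ?_
  intro R _ φ hφ
  refine PX1b_zero φ s0 _ fun p hp => ?_
  have hp' : ¬ (p.1 ++ p.2).Nodup := by
    have h1 := (List.mem_filter.1 hp).2
    simpa using h1
  by_cases h1 : p.1.Nodup
  · by_cases h2 : p.2.Nodup
    · have h3 : ∃ i, i ∈ p.1 ∧ i ∈ p.2 := by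
        by_contra hn
        push Not at hn
        refine hp' (List.nodup_append.2 ⟨h1, h2, ?_⟩)
        intro a ha b hb hab
        exact hn a ha (hab ▸ hb)
      obtain ⟨i, h4, h5⟩ := h3
      obtain ⟨a, b, h6⟩ := List.append_of_mem h4
      obtain ⟨c, d, h7⟩ := List.append_of_mem h5
      have h8 : φ (Xl i) * φ (XL b * s0 * XL c) * φ (Xl i) = 0 := hφ.mid i _
      rw [map_mul, map_mul, pr_XL, pr_XL] at h8
      have h9 : pr φ p.1 * φ s0 * pr φ p.2 = pr φ a * (φ (Xl i) * (pr φ b * φ s0 * pr φ c) * φ (Xl i)) * pr φ d := by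
        rw [h6, h7, pr_append, pr_append, pr_cons, pr_cons]
        simp only [mul_assoc]
      rw [h9, h8, mul_zero, zero_mul]
    · rw [pr_dup hφ h2, mul_zero]
  · rw [pr_dup hφ h1, zero_mul, zero_mul]

/-- PROOF: `Ex.filt`; a term with `j ∈ p.1` is `pr a * φ (Xl j) * φ (XL b) * φ s0 * … = 0`, a term with `j ∈ p.2` is
`… φ s0 * φ (XL c) * φ (Xl j) … = 0`. -/
theorem Ex.bad {s0 s : FB} {U : List (List ℕ × List ℕ)} (h : Ex s0 U s) {j : ℕ}
    (hb : ∀ (R : Type) [Ring R] (φ : FB →+* R), Pp φ → ∀ a, φ (Xl j) * φ a * φ s0 = 0 ∧ φ s0 * φ a * φ (Xl j) = 0) :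
    Ex s0 (U.filter (fun p => j ∉ p.1 ++ p.2)) s := by
  refine h.filt (fun p => j ∉ p.1 ++ p.2) ?_
  intro R _ φ hφ
  refine PX1b_zero φ s0 _ fun p hp => ?_
  have hp' : j ∈ p.1 ++ p.2 := by
    have h1 := (List.mem_filter.1 hp).2
    simpa using h1
  rcases List.mem_append.1 hp' with h4 | h4
  · obtain ⟨a, b, h6⟩ := List.append_of_mem h4
    have h8 := (hb R φ hφ (XL b)).1
    rw [pr_XL] at h8
    have h9 : pr φ p.1 * φ s0 * pr φ p.2 = pr φ a * (φ (Xl j) * pr φ b * φ s0) * pr φ p.2 := by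
      rw [h6, pr_append, pr_cons]
      simp only [mul_assoc]
    rw [h9, h8, mul_zero, zero_mul]
  · obtain ⟨c, d, h7⟩ := List.append_of_mem h4
    have h8 := (hb R φ hφ (XL c)).2
    rw [pr_XL] at h8
    have h9 : pr φ p.1 * φ s0 * pr φ p.2 = pr φ p.1 * (φ s0 * pr φ c * φ (Xl j)) * pr φ d := by
      rw [h7, pr_append, pr_cons]
      simp only [mul_assoc]
    rw [h9, h8, mul_zero, zero_mul]

end E4.X
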