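import Pool.Agent.Lib.MP_8a95e3_al.PX1b

/-!
# PX2 : expansions of full elements
-/

noncomputable section

namespace E4.X

open E4

/-- step 1: every letter of `H` occurs -/
private theorem PX2_kill (s0 : FB) {s : FB} (H : Finset ℕ) (hfix : ∀ j ∈ H, eB (rp j 1) s0 = s0)
    (kill : ∀ j ∈ H, eB (rp j 1) s = 0) (h0 : ∃ U, Ex s0 U s) (H' : Finset ℕ) (hH : H' ⊆ H) :
    ∃ U : List (List ℕ × List ℕ), (∀ p ∈ U, ∀ j ∈ H', j ∈ p.1 ++ p.2) ∧ Ex s0 U s := by
  induction H' using Finset.induction_on with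
  | empty =>
    obtain ⟨U, hU⟩ := h0
    exact ⟨U, fun p _ j hj => absurd hj (Finset.notMem_empty j), hU⟩
  | insert a H' ha ih =>
    obtain ⟨U, hU, hE⟩ := ih fun j hj => hH (Finset.mem_insert_of_mem hj)
    have haH : a ∈ H := hH (Finset.mem_insert_self a H')
    refine ⟨_, ?_, hE.kill (hfix a haH) (kill a haH)⟩
    intro p hp j hj
    have hp' := List.mem_filter.mp hp
    rcases Finset.mem_insert.mp hj with rfl | hj
    · exact of_decide_eq_true hp'.2
    · exact hU p hp'.1 j hj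

/-- step 2: no letter of `B` occurs -/
private theorem PX2_bad (s0 : FB) {s : FB} (H B : Finset ℕ)
    (hbad : ∀ (R : Type) [Ring R] (φ : FB →+* R), Pp φ → ∀ j ∈ B, ∀ a,
      φ (Xl j) * φ a * φ s0 = 0 ∧ φ s0 * φ a * φ (Xl j) = 0)
    (h0 : ∃ U : List (List ℕ × List ℕ), (∀ p ∈ U, ∀ j ∈ H, j ∈ p.1 ++ p.2) ∧ Ex s0 U s) (B' : Finset ℕ)
    (hB : B' ⊆ B) :
    ∃ U : List (List ℕ × List ℕ), (∀ p ∈ U, ∀ j ∈ H, j ∈ p.1 ++ p.2) ∧ (∀ p ∈ U, ∀ j ∈ B', j ∉ p.1 ++ p.2) ∧
      Ex s0 U s := by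
  induction B' using Finset.induction_on with
  | empty =>
    obtain ⟨U, hU, hE⟩ := h0
    exact ⟨U, hU, fun p _ j hj => absurd hj (Finset.notMem_empty j), hE⟩
  | insert a B' ha ih =>
    obtain ⟨U, hU, hU', hE⟩ := ih fun j hj => hB (Finset.mem_insert_of_mem hj)
    have haB : a ∈ B := hB (Finset.mem_insert_self a B')
    refine ⟨_, ?_, ?_, hE.bad (j := a) fun R _ φ hφ b => hbad R φ hφ a haB b⟩
    · intro p hp j hj
      exact hU p (List.mem_filter.mp hp).1 j hj
    · intro p hp j hj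
      have hp' := List.mem_filter.mp hp
      rcases Finset.mem_insert.mp hj with rfl | hj
      · exact of_decide_eq_true hp'.2
      · exact hU' p hp'.1 j hj

/-- **expansion of a full element of `idl {s0}`**: `B` = letters of `s0`, `H` = the other letters.
PROOF: start with `ex_idl`; apply `Ex.kill` for every `j ∈ H` (`Finset.induction_on` over a subset of `H`: the statement
`∃ U, (∀ p ∈ U, ∀ j ∈ H', j ∈ p.1 ++ p.2) ∧ Ex s0 U s`), then `Ex.bad` for every `j ∈ B` (same kind of induction), then `Ex.ret` with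
`M = B ∪ H`, then `Ex.nodup`.  Filters only make `U` smaller, so the properties which hold already are kept
(`List.mem_filter`).  Finally for `p ∈ U`: `p.1 ++ p.2` is nodup with `(p.1 ++ p.2).toFinset = H`, hence
`((p.1 ++ p.2 : List ℕ) : Multiset ℕ) = H.val` (`Multiset.Nodup.ext` or `List.toFinset_val`, `List.Nodup.dedup`). -/
theorem full_pairs (s0 : FB) (H B : Finset ℕ) {s : FB} (hs : s ∈ idl {s0}) (hfix : ∀ j ∈ H, eB (rp j 1) s0 = s0)
    (hret : eB (ret (B ∪ H)) s0 = s0)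
    (hbad : ∀ (R : Type) [Ring R] (φ : FB →+* R), Pp φ → ∀ j ∈ B, ∀ a,
      φ (Xl j) * φ a * φ s0 = 0 ∧ φ s0 * φ a * φ (Xl j) = 0)
    (kill : ∀ j ∈ H, eB (rp j 1) s = 0) (inn : eB (ret (B ∪ H)) s = s) :
    ∃ U : List (List ℕ × List ℕ), (∀ p ∈ U, ((p.1 ++ p.2 : List ℕ) : Multiset ℕ) = H.val) ∧ Ex s0 U s := by
  obtain ⟨U, hU1, hU2, hE⟩ := PX2_bad s0 H B hbad
    (PX2_kill s0 H hfix kill (ex_idl hs) H (Finset.Subset.refl H)) B (Finset.Subset.refl B)
  refine ⟨_, ?_, (hE.ret hret inn).nodup⟩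
  intro p hp
  have h1 := List.mem_filter.mp hp
  have h2 := List.mem_filter.mp h1.1
  have hnd : (p.1 ++ p.2).Nodup := of_decide_eq_true h1.2
  have hin : ∀ i ∈ p.1 ++ p.2, i ∈ B ∪ H := of_decide_eq_true h2.2
  have hpU : p ∈ U := h2.1
  refine (Multiset.Nodup.ext (Multiset.coe_nodup.mpr hnd) H.nodup).mpr ?_
  intro a
  rw [Multiset.mem_coe, Finset.mem_val]
  constructor
  · intro ha
    rcases Finset.mem_union.mp (hin a ha) with hB | hH
    · exact absurd ha (hU2 p hpU a hB)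
    · exact hH
  · intro ha
    exact hU1 p hpU a ha

/-- **expansion of a full element**.  PROOF: `full_pairs` with `s0 = 1`, `B = ∅` (`f ∈ idl {1}` by `idl_bi` and `sub_idl`:
`f = f * 1`), `W = U.map (fun p => p.1 ++ p.2)`, `pr_append`. -/
theorem full_words {H : Finset ℕ} {f : FB} (hf : Full H f) :
    ∃ W : List (List ℕ), (∀ L ∈ W, (L : Multiset ℕ) = H.val) ∧ Ew W f := by
  have hs : f ∈ idl {(1 : FB)} := by
    have h := (idl_bi {(1 : FB)}).mul_left f (sub_idl (Set.mem_singleton (1 : FB)))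
    rwa [mul_one] at h
  obtain ⟨U, hU, hE⟩ := full_pairs (1 : FB) H ∅ hs (fun j _ => map_one _) (map_one _)
    (fun R _ φ _ j hj => absurd hj (Finset.notMem_empty j)) hf.kill (by rw [Finset.empty_union]; exact hf.inn)
  refine ⟨U.map (fun p => p.1 ++ p.2), ?_, ?_⟩
  · intro L hL
    obtain ⟨p, hp, rfl⟩ := List.mem_map.mp hL
    exact hU p hp
  · intro R _ φ hφ
    rw [hE R φ hφ]
    unfold ps
    rw [List.map_map]
    congr 1
    refine List.map_congr_left fun p _ => ?_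
    rw [map_one, mul_one]
    exact (pr_append φ p.1 p.2).symm

end E4.X
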