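import Pool.Agent.Lib.MP_8a95e3_al.PX2

/-!
# PX3 : evaluation of all letters at squares
-/

noncomputable section

namespace E4

namespace P

open E4.X (FB eB o C T Xl rp ret kls sqs sw Pp pr XL XP Full Ew Ex ps)

variable {V Z E : Type} [AddCommGroup V] [CommRing Z] [Module Z V] [Ring E] [Algebra Z E]

/-- all letters at squares -/
def sqv (e : FB →+* E) (u : ℕ → F) : FB →+* E := evx e (fun i => u i ^ 2)

section

variable {K : PAlg F V Z E} {e : FB →+* E} {P0 : AddSubgroup FB} (M : Md K e P0)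

include M

/-- PROOF: `Md.evx_Xl_sq` -/
theorem Md.sqv_Xl (u : ℕ → F) (j : ℕ) : sqv e u (Xl j) = K.l (K.t (u j)) :=
  M.evx_Xl_sq _ j rfl

/-- sandwiches of `T_g` in the image of `FB` vanish.  PROOF: `E4.X.fb_ind` on `f`; `M.o` and `K.mid`. -/
theorem Md.mid_e (g : F) (f : FB) : K.l (K.t g) * e f * K.l (K.t g) = 0 := by
  refine E4.X.fb_ind (p := fun f => K.l (K.t g) * e f * K.l (K.t g) = 0) ?_ ?_ ?_ f
  · intro h
    rw [M.o]
    exact K.mid g h
  · rw [map_zero, mul_zero, zero_mul]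
  · intro a b ha hb
    rw [map_add, mul_add, add_mul, ha, hb, add_zero]

/-- PROOF: `K.ee`; `Md.sqv_Xl` and `Md.mid_e` (`sqv e u a = e (eB _ a)`). -/
theorem Md.Pp_sqv (u : ℕ → F) : Pp (sqv e u) where
  two r := K.ee r
  mid j a := by
    rw [M.sqv_Xl]
    exact M.mid_e (u j) (eB _ a)

/-- PROOF: induction on `L`, `Md.sqv_Xl`. -/
theorem Md.sqv_pr (u : ℕ → F) (L : List ℕ) : pr (sqv e u) L = wE K (fun i => K.t (u i)) L := by
  unfold pr wE
  congr 1
  apply List.map_congr_left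
  intro j _
  exact M.sqv_Xl u j

/-- PROOF: `E4.X.pr_XL`, `Md.sqv_pr`. -/
theorem Md.sqv_XL (u : ℕ → F) (L : List ℕ) : sqv e u (XL L) = wE K (fun i => K.t (u i)) L := by
  rw [E4.X.pr_XL, M.sqv_pr]

/-- PROOF: `Md.sq_iff` with `w i = u i ^ 2`. -/
theorem Md.sqv_van {Q : Finset ℕ} {f : FB} (h : eB (sqs Q) f ∈ P0) (u : ℕ → F) : sqv e u f = 0 :=
  (M.sq_iff Q f).1 h (fun i => u i ^ 2) (fun i _ => ⟨u i, rfl⟩)

/-- PROOF: `ex` applied to `sqv e u`, `Md.sqv_pr`. -/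
theorem Md.sqv_Ew {W : List (List ℕ)} {f : FB} (h : Ew W f) (u : ℕ → F) :
    sqv e u f = (W.map (fun L => wE K (fun i => K.t (u i)) L)).sum := by
  rw [h E (sqv e u) (M.Pp_sqv u)]
  congr 1
  apply List.map_congr_left
  intro L _
  exact M.sqv_pr u L

end

end P

end E4
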