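import Pool.Agent.Lib.MP_8a95e3_al.PX3
import Pool.Agent.Lib.MP_8a95e3_al.P.P19

/-!
# PX4a : parity, version for lists
-/

noncomputable section

namespace E4

namespace P

open E4.X (FB eB o C T Xl rp ret kls sqs sw Pp pr XL XP Full Ew Ex ps idl)

variable {V Z E : Type} [AddCommGroup V] [CommRing Z] [Module Z V] [Ring E] [Algebra Z E]

private theorem PX4a_wE_append {K : PAlg F V Z E} (p : ℕ → V) (L L' : List ℕ) :
    wE K p (L ++ L') = wE K p L * wE K p L' := by
  unfold wE
  rw [List.map_append, List.prod_append]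

private theorem PX4a_wE_cons {K : PAlg F V Z E} (p : ℕ → V) (j : ℕ) (L : List ℕ) :
    wE K p (j :: L) = K.l (p j) * wE K p L := by
  unfold wE
  rw [List.map_cons, List.prod_cons]

private theorem PX4a_wE_update {K : PAlg F V Z E} (p : ℕ → V) {c : ℕ} (a : V) {L : List ℕ} (h : c ∉ L) :
    wE K (Function.update p c a) L = wE K p L := by
  unfold wE
  congr 1
  apply List.map_congr_left
  intro j hj
  rw [Function.update_of_ne]
  rintro rfl
  exact h hj

private theorem PX4a_bad {y z : ℕ} {R : Type} [Ring R] {φ : FB →+* R} (hφ : Pp φ) {j : ℕ} (hj : j = y ∨ j = z)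
    (a : FB) : φ (Xl j) * φ a * φ (Xl y * Xl z + Xl z * Xl y) = 0 ∧
      φ (Xl y * Xl z + Xl z * Xl y) * φ a * φ (Xl j) = 0 := by
  have m1 := hφ.mid j a
  have m2 := hφ.mid j (a * Xl z)
  have m3 := hφ.mid j (a * Xl y)
  have m4 := hφ.mid j (Xl z * a)
  have m5 := hφ.mid j (Xl y * a)
  rw [map_mul] at m2 m3 m4 m5
  rw [map_add, map_mul, map_mul]
  rcases hj with rfl | rfl
  · constructor
    · have e : φ (Xl j) * φ a * (φ (Xl j) * φ (Xl z) + φ (Xl z) * φ (Xl j))
          = φ (Xl j) * φ a * φ (Xl j) * φ (Xl z) + φ (Xl j) * (φ a * φ (Xl z)) * φ (Xl j) := by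
        noncomm_ring
      rw [e, m1, m2, zero_mul, add_zero]
    · have e : (φ (Xl j) * φ (Xl z) + φ (Xl z) * φ (Xl j)) * φ a * φ (Xl j)
          = φ (Xl j) * (φ (Xl z) * φ a) * φ (Xl j) + φ (Xl z) * (φ (Xl j) * φ a * φ (Xl j)) := by
        noncomm_ring
      rw [e, m1, m4, mul_zero, add_zero]
  · constructor
    · have e : φ (Xl j) * φ a * (φ (Xl y) * φ (Xl j) + φ (Xl j) * φ (Xl y))
          = φ (Xl j) * (φ a * φ (Xl y)) * φ (Xl j) + φ (Xl j) * φ a * φ (Xl j) * φ (Xl y) := by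
        noncomm_ring
      rw [e, m1, m3, zero_mul, add_zero]
    · have e : (φ (Xl y) * φ (Xl j) + φ (Xl j) * φ (Xl y)) * φ a * φ (Xl j)
          = φ (Xl y) * (φ (Xl j) * φ a * φ (Xl j)) + φ (Xl j) * (φ (Xl y) * φ a) * φ (Xl j) := by
        noncomm_ring
      rw [e, m1, m5, mul_zero, add_zero]

/-- **parity, even number of letters**.
PROOF: `E4.X.full_pairs` with `s0 = Xl y * Xl z + Xl z * Xl y`, `H = v.toFinset`, `B = {y, z}` (`insert y (insert z H) = {y, z} ∪ H`).
`hbad`: for `j = y`: `φ Y * φ a * (φ Y φ Z + φ Z φ Y)` is `(Y a Y) Z + Y (a Z) Y = 0` (`Pp.mid`), the same for `z` and on the other side.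
This gives `U`.  Let `t = fun i => K.t (u i)` and let `c` be a natural number larger than `y`, `z` and all letters of `v`.
`sqv e u s0 = l (t y) l (t z) + l (t z) l (t y) = l (b (t y) (t z))` (`K.l_b`), so for `p ∈ U` the term of `p` in `ps (sqv e u) s0 U` is
`wE K (Function.update t c (K.b (t y) (t z))) (p.1 ++ c :: p.2)` (`c ∉ p.1`, `c ∉ p.2` as these are letters of `v`).
Apply `parf` with `Ms = U.map (fun p => p.1 ++ c :: p.2)`, `y1 = y`, `y2 = z`; `(p.1 ++ c :: p.2).Perm (c :: v)` by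
`List.perm_middle` and `(p.1 ++ p.2).Perm v` (`Multiset.coe_eq_coe`, `v.toFinset.val = v` as `v` is nodup).
The hypothesis of `parf` is `h` with `Md.sqv_XL`, `Md.sqv_Xl`. -/
theorem parL {K : PAlg F V Z E} {e : FB →+* E} {P0 : AddSubgroup FB} (M : Md K e P0) [Nontrivial E]
    (v : List ℕ) (y z : ℕ) (hn : (y :: z :: v).Nodup) (hev : v.length.bodd = false) (hlen : 2 ≤ v.length)
    {s : FB} (hs : s ∈ idl {Xl y * Xl z + Xl z * Xl y}) (kill : ∀ j ∈ v, eB (rp j 1) s = 0)
    (inn : eB (ret (insert y (insert z v.toFinset))) s = s)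
    (h : ∀ u : ℕ → F, sqv e u (s + Xl y * XL v * Xl z + Xl z * XL v * Xl y) = 0) : False := by
  have hn2 := hn
  simp only [List.nodup_cons, List.mem_cons, not_or] at hn2
  obtain ⟨⟨hyz, hyv⟩, hzv, hv⟩ := hn2
  have hset : insert y (insert z v.toFinset) = ({y, z} : Finset ℕ) ∪ v.toFinset := by
    ext i
    simp only [Finset.mem_insert, Finset.mem_union, Finset.mem_singleton]
    tauto
  have hXr : ∀ j ∈ ({y, z} : Finset ℕ) ∪ v.toFinset,
      eB (ret (({y, z} : Finset ℕ) ∪ v.toFinset)) (Xl j) = Xl j := by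
    intro j hj
    show eB _ (C (x j)) = C (x j)
    rw [E4.X.eB_C, E4.X.ret_x, if_pos hj]
  have hy1 : y ∈ ({y, z} : Finset ℕ) ∪ v.toFinset := by simp
  have hz1 : z ∈ ({y, z} : Finset ℕ) ∪ v.toFinset := by simp
  obtain ⟨U, hU, hE⟩ := E4.X.full_pairs (Xl y * Xl z + Xl z * Xl y) v.toFinset {y, z} hs
    (by
      intro j hj
      have hjv : j ∈ v := List.mem_toFinset.1 hj
      have h1 : y ≠ j := by rintro rfl; exact hyv hjv
      have h2 : z ≠ j := by rintro rfl; exact hzv hjv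
      rw [map_add, map_mul, map_mul, E4.X.eB_Xl_rp_ne 1 h1, E4.X.eB_Xl_rp_ne 1 h2])
    (by rw [map_add, map_mul, map_mul, hXr y hy1, hXr z hz1])
    (by
      intro R _ φ hφ j hj a
      apply PX4a_bad hφ
      simpa using hj)
    (fun j hj => kill j (List.mem_toFinset.1 hj))
    (by rw [← hset]; exact inn)
  have hperm : ∀ p ∈ U, (p.1 ++ p.2).Perm v := by
    intro p hp
    have h1 := hU p hp
    rw [List.toFinset_val, hv.dedup] at h1
    exact Multiset.coe_eq_coe.1 h1
  obtain ⟨c, hc⟩ := Infinite.exists_notMem_finset (y :: z :: v).toFinset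
  have hc2 : c ∉ y :: z :: v := fun h => hc (List.mem_toFinset.2 h)
  have hcv : c ∉ v := fun h => hc2 (List.mem_cons_of_mem _ (List.mem_cons_of_mem _ h))
  refine parf (K := K) v c y z (List.nodup_cons.2 ⟨hc2, hn⟩) hev hlen (U.map (fun p => p.1 ++ c :: p.2)) ?_ ?_
  · intro L hL
    obtain ⟨p, hp, rfl⟩ := List.mem_map.1 hL
    exact List.perm_middle.trans ((hperm p hp).cons c)
  · intro u
    have h1 := h u
    have h2 := hE E (sqv e u) (M.Pp_sqv u)
    have h3 : E4.X.ps (sqv e u) (Xl y * Xl z + Xl z * Xl y) U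
        = ((U.map (fun p => p.1 ++ c :: p.2)).map (fun L => wE K (Function.update (fun i => K.t (u i)) c
          (K.b (K.t (u y)) (K.t (u z)))) L)).sum := by
      unfold E4.X.ps
      rw [List.map_map]
      congr 1
      apply List.map_congr_left
      intro p hp
      have c1 : c ∉ p.1 := fun h => hcv ((hperm p hp).mem_iff.1 (List.mem_append_left _ h))
      have c2 : c ∉ p.2 := fun h => hcv ((hperm p hp).mem_iff.1 (List.mem_append_right _ h))
      rw [Function.comp_apply, PX4a_wE_append, PX4a_wE_cons, PX4a_wE_update _ _ c1, PX4a_wE_update _ _ c2,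
        Function.update_self, K.l_b, map_add, map_mul, map_mul, M.sqv_Xl, M.sqv_Xl, M.sqv_pr, M.sqv_pr, mul_assoc]
    rw [map_add, map_add, map_mul, map_mul, map_mul, map_mul, M.sqv_Xl, M.sqv_Xl, M.sqv_XL, h2, h3] at h1
    rw [← h1, add_assoc]

end P

end E4
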