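import Pool.Agent.Lib.MP_8a95e3_al.PX2

/-!
# PX5a : a commutative evaluation, parity of the number of words
-/

noncomputable section

namespace E4.X

open E4

/-- **a commutative evaluation** in which the `T g` vanish, the letters have square `0` and products of different letters are not `0`.
PROOF: `I := Ideal.span (Set.range fun j : ℕ => (MvPolynomial.X j : MvPolynomial ℕ (ZMod 2)) ^ 2)`, `R = MvPolynomial ℕ (ZMod 2) ⧸ I`,
`X_j` = class of the variable, `X_j ^ 2 = 0`, so `1 + X_j` is a unit which is its own inverse (characteristic two).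
`FreeGroup.lift` of the units `1 + X_j` gives `ψ : F →* Rˣ`, every `ψ g` satisfies `ψ g * ψ g = 1` (`FreeGroup.induction_on`, `Rˣ` is commutative),
hence `(ψ g)⁻¹ = ψ g`.  `φ := MonoidAlgebra.lift` of `F →* R` (the coercion of `ψ`), a ring homomorphism with `φ (o g) = ψ g`;
`φ (Xl j) = 1 + X_j + 1 = X_j`, `φ (T g) = ψ g + (ψ g)⁻¹ = 0`.
`∏ j ∈ H, X_j ≠ 0`: the product of the variables is `MvPolynomial.monomial (∑ j ∈ H, Finsupp.single j 1) 1`; `I` is the span of the monomials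
`monomial (Finsupp.single j 2) 1` and `MvPolynomial.mem_ideal_span_monomial_image` says that it would be divisible by one of
them, but all exponents are at most `1`. -/
theorem exR : ∃ (R : Type) (_ : CommRing R) (φ : FB →+* R), (∀ r : R, r + r = 0) ∧ (∀ j, φ (Xl j) * φ (Xl j) = 0) ∧
    (∀ g, φ (T g) = 0) ∧ ∀ H : Finset ℕ, ∏ j ∈ H, φ (Xl j) ≠ 0 := by
  obtain ⟨I, hI⟩ : ∃ I : Ideal (MvPolynomial ℕ (ZMod 2)), I = Ideal.span (Set.range fun j : ℕ => (MvPolynomial.X j : MvPolynomial ℕ (ZMod 2)) ^ 2) := ⟨_, rfl⟩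
  have htwo : ∀ r : MvPolynomial ℕ (ZMod 2) ⧸ I, r + r = 0 := by
    intro r
    have h : (1 : ZMod 2) + 1 = 0 := by decide
    calc r + r = ((1 : ZMod 2) + 1) • r := by rw [add_smul, one_smul]
      _ = 0 := by rw [h, zero_smul]
  have hsq : ∀ j, Ideal.Quotient.mk I (MvPolynomial.X j) * Ideal.Quotient.mk I (MvPolynomial.X j) = 0 := by
    intro j
    rw [← map_mul, Ideal.Quotient.eq_zero_iff_mem, ← sq, hI]
    exact Ideal.subset_span ⟨j, rfl⟩
  have hU : ∀ j, (1 + Ideal.Quotient.mk I (MvPolynomial.X j)) * (1 + Ideal.Quotient.mk I (MvPolynomial.X j)) = 1 := by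
    intro j
    have e : (1 + Ideal.Quotient.mk I (MvPolynomial.X j)) * (1 + Ideal.Quotient.mk I (MvPolynomial.X j)) =
        1 + (Ideal.Quotient.mk I (MvPolynomial.X j) + Ideal.Quotient.mk I (MvPolynomial.X j)) +
        Ideal.Quotient.mk I (MvPolynomial.X j) * Ideal.Quotient.mk I (MvPolynomial.X j) := by ring
    rw [e, htwo, hsq, add_zero, add_zero]
  obtain ⟨ψ, hψ⟩ : ∃ ψ : F →* (MvPolynomial ℕ (ZMod 2) ⧸ I)ˣ, ∀ j, ((ψ (x j) : (MvPolynomial ℕ (ZMod 2) ⧸ I)ˣ) :
      MvPolynomial ℕ (ZMod 2) ⧸ I) = 1 + Ideal.Quotient.mk I (MvPolynomial.X j) := by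
    refine ⟨FreeGroup.lift fun j => ⟨1 + Ideal.Quotient.mk I (MvPolynomial.X j), 1 + Ideal.Quotient.mk I (MvPolynomial.X j), hU j, hU j⟩, ?_⟩
    intro j
    have h : FreeGroup.lift (fun j => (⟨1 + Ideal.Quotient.mk I (MvPolynomial.X j), 1 + Ideal.Quotient.mk I (MvPolynomial.X j), hU j, hU j⟩ :
      (MvPolynomial ℕ (ZMod 2) ⧸ I)ˣ)) (x j) = _ := FreeGroup.lift_apply_of
    rw [h]
  have hψ2 : ∀ g, ψ g * ψ g = 1 := by
    intro g
    refine FreeGroup.induction_on (C := fun g => ψ g * ψ g = 1) g ?_ ?_ ?_ ?_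
    · rw [map_one, one_mul]
    · intro j
      apply Units.ext
      have h := hψ j
      rw [Units.val_mul, Units.val_one]
      show (ψ (x j) : MvPolynomial ℕ (ZMod 2) ⧸ I) * (ψ (x j) : MvPolynomial ℕ (ZMod 2) ⧸ I) = 1
      rw [h]
      exact hU j
    · intro j h
      rw [map_inv, ← mul_inv, h, inv_one]
    · intro a b ha hb
      have e : ψ (a * b) * ψ (a * b) = (ψ a * ψ a) * (ψ b * ψ b) := by
        rw [map_mul]
        apply Units.ext
        rw [Units.val_mul, Units.val_mul, Units.val_mul, Units.val_mul, Units.val_mul]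
        ring
      rw [e, ha, hb, one_mul]
  obtain ⟨φ, hφ⟩ : ∃ φ : FB →+* (MvPolynomial ℕ (ZMod 2) ⧸ I), ∀ g, φ (o g) = ((ψ g : (MvPolynomial ℕ (ZMod 2) ⧸ I)ˣ) :
      MvPolynomial ℕ (ZMod 2) ⧸ I) := by
    refine ⟨(MonoidAlgebra.lift (ZMod 2) (MvPolynomial ℕ (ZMod 2) ⧸ I) F ((Units.coeHom _).comp ψ)).toRingHom, ?_⟩
    intro g
    exact MonoidAlgebra.lift_of _ g
  have hX : ∀ j, φ (Xl j) = Ideal.Quotient.mk I (MvPolynomial.X j) := by
    intro j
    show φ (o (x j) + 1) = _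
    rw [map_add, map_one, hφ, hψ, add_comm (1 : MvPolynomial ℕ (ZMod 2) ⧸ I), add_assoc, htwo, add_zero]
  refine ⟨MvPolynomial ℕ (ZMod 2) ⧸ I, inferInstance, φ, htwo, ?_, ?_, ?_⟩
  · intro j
    rw [hX, hsq]
  · intro g
    show φ (o g + o g⁻¹) = 0
    have h : ψ g⁻¹ = ψ g := by
      rw [map_inv]
      exact inv_eq_of_mul_eq_one_right (hψ2 g)
    rw [map_add, hφ, hφ, h, htwo]
  · intro H h0
    have e1 : ∏ j ∈ H, φ (Xl j) = Ideal.Quotient.mk I (∏ j ∈ H, MvPolynomial.X j) := by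
      rw [map_prod]
      exact Finset.prod_congr rfl fun j _ => hX j
    have e2 : (∏ j ∈ H, MvPolynomial.X j : MvPolynomial ℕ (ZMod 2)) = MvPolynomial.monomial (∑ j ∈ H, Finsupp.single j 1) 1 := by
      rw [MvPolynomial.monomial_sum_one]
      rfl
    rw [e1, Ideal.Quotient.eq_zero_iff_mem, e2, hI] at h0
    have e3 : (Set.range fun j : ℕ => (MvPolynomial.X j : MvPolynomial ℕ (ZMod 2)) ^ 2) =
        (fun s => MvPolynomial.monomial s (1 : ZMod 2)) '' (Set.range fun j : ℕ => Finsupp.single j 2) := by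
      rw [← Set.range_comp]
      congr 1
      funext j
      exact MvPolynomial.X_pow_eq_monomial
    rw [e3, MvPolynomial.mem_ideal_span_monomial_image] at h0
    obtain ⟨s, ⟨j, rfl⟩, hs⟩ := h0 (∑ j ∈ H, Finsupp.single j 1) (by
      rw [MvPolynomial.support_monomial, if_neg one_ne_zero]
      exact Finset.mem_singleton_self _)
    have h1 := hs j
    rw [Finsupp.single_eq_same, Finsupp.finsetSum_apply] at h1
    have h2 : ∑ i ∈ H, (Finsupp.single i 1 : ℕ →₀ ℕ) j ≤ 1 := by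
      have h3 : ∀ i ∈ H, (Finsupp.single i 1 : ℕ →₀ ℕ) j = if i = j then 1 else 0 := fun i _ => Finsupp.single_apply
      rw [Finset.sum_congr rfl h3, Finset.sum_ite_eq' H j]
      split <;> omega
    omega

/-- **parity**: if `f` is in the ideal of the `T g` and is a sum of words, all words permutations of `H`, the number of words is even.
PROOF: the `φ` of `exR` satisfies `Pp φ` (commutativity).  `φ f = 0` (closure induction), and `pr φ L = ∏ j ∈ H, φ (Xl j)` for all
`L ∈ W` (`Finset.prod` is the product of the multiset `H.val.map _`, `Multiset.prod_coe`), so `W.length • ∏ = 0`.  If `W.length` were odd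
this would be `∏` (by `two`). -/
theorem parT {f : FB} (hf : f ∈ idl {r | ∃ g : F, r = T g}) {H : Finset ℕ} {W : List (List ℕ)}
    (hW : ∀ L ∈ W, (L : Multiset ℕ) = H.val) (h : Ew W f) : (W.length : ZMod 2) = 0 := by
  obtain ⟨R, _, φ, htwo, hsq, hT, hne⟩ := exR
  have hPp : Pp φ := ⟨htwo, fun j a => by rw [mul_right_comm, hsq, zero_mul]⟩
  have h0 : φ f = 0 := by
    refine AddSubgroup.closure_induction (p := fun f _ => φ f = 0) ?_ ?_ ?_ ?_ hf
    · rintro _ ⟨a, b, _, ⟨g, rfl⟩, rfl⟩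
      rw [map_mul, map_mul, hT, mul_zero, zero_mul]
    · exact map_zero φ
    · intro a b _ _ ha hb
      rw [map_add, ha, hb, add_zero]
    · intro a _ ha
      rw [map_neg, ha, neg_zero]
  have h1 := h R φ hPp
  rw [h0] at h1
  have h2 : ∀ L ∈ W, pr φ L = ∏ j ∈ H, φ (Xl j) := by
    intro L hL
    have e : ∏ j ∈ H, φ (Xl j) = (H.val.map fun j => φ (Xl j)).prod := rfl
    rw [e, ← hW L hL, Multiset.map_coe, Multiset.prod_coe]
    rfl
  have h3 : (W.map (pr φ)).sum = W.length • ∏ j ∈ H, φ (Xl j) := by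
    rw [List.map_congr_left h2, List.map_const', List.sum_replicate]
  rw [h3] at h1
  rcases Nat.even_or_odd W.length with he | ho
  · obtain ⟨k, hk⟩ := he
    rw [hk, Nat.cast_add]
    exact CharTwo.add_self_eq_zero _
  · exfalso
    obtain ⟨k, hk⟩ := ho
    rw [hk, add_smul, one_smul, two_mul, add_smul, ← smul_add, htwo, smul_zero, zero_add] at h1
    exact hne H h1.symm

/-- PROOF: closure induction (`AddSubgroup.closure_induction`, the pair generalized). -/
theorem KP_fst {y z : ℕ} {w k : FB} (h : (w, k) ∈ KP y z) : w ∈ idl {r | ∃ g : F, r = T g} := by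
  refine AddSubgroup.closure_induction (p := fun (q : FB × FB) _ => q.1 ∈ idl {r | ∃ g : F, r = T g}) ?_ ?_ ?_ ?_ h
  · rintro _ ⟨u, g, v, rfl⟩
    exact AddSubgroup.subset_closure ⟨u, v, T g, ⟨g, rfl⟩, rfl⟩
  · exact AddSubgroup.zero_mem _
  · intro a b _ _ ha hb
    exact AddSubgroup.add_mem _ ha hb
  · intro a _ ha
    exact AddSubgroup.neg_mem _ ha

/-- PROOF: the same. -/
theorem TP_fst {j : ℕ} {w k : FB} (h : (w, k) ∈ TP j) : w ∈ idl {r | ∃ g : F, r = T g} := by
  refine AddSubgroup.closure_induction (p := fun (q : FB × FB) _ => q.1 ∈ idl {r | ∃ g : F, r = T g}) ?_ ?_ ?_ ?_ h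
  · rintro _ ⟨u, g, v, rfl⟩
    exact AddSubgroup.subset_closure ⟨u, v, T g, ⟨g, rfl⟩, rfl⟩
  · exact AddSubgroup.zero_mem _
  · intro a b _ _ ha hb
    exact AddSubgroup.add_mem _ ha hb
  · intro a _ ha
    exact AddSubgroup.neg_mem _ ha

end E4.X
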