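import Pool.Agent.Lib.MP_8a95e3_al.PX3
import Pool.Agent.Lib.MP_8a95e3_al.PX5a

/-!
# PX6a : evaluation of `KP` and `Bil`
-/

noncomputable section

namespace E4

namespace P

open E4.X (FB eB o C T Xl rp ret kls sqs sw Pp pr XL XP Full Ew Ex ps idl KP Bil)

variable {V Z E : Type} [AddCommGroup V] [CommRing Z] [Module Z V] [Ring E] [Algebra Z E]

/-- **evaluation of `K(y,z)`**.
PROOF: `AddSubgroup.closure_induction` (generalize the pair).  Generator: with `φ = sqv e u`, `a = K.t (u y)`, `b = K.t (u z)`,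
`g' = FreeGroup.lift (fun i => u i ^ 2) g`: `φ (E4.X.tau y z g) = K.k a b • K.l (K.t g')` by `K.Kg a b g'` (`Md.evx_o`, `Md.sqv_Xl`; unfold `E4.X.tau`),
`φ (T g) = K.l (K.t g')` by `Md.evx_T`; the factors `o u`, `o v` are the same on both sides. -/
theorem Md.KP_ev {K : PAlg F V Z E} {e : FB →+* E} {P0 : AddSubgroup FB} (M : Md K e P0) {y z : ℕ} {w k : FB}
    (h : (w, k) ∈ KP y z) (u : ℕ → F) : sqv e u k = K.k (K.t (u y)) (K.t (u z)) • sqv e u w := by
  have key : ∀ p : FB × FB, p ∈ KP y z → sqv e u p.2 = K.k (K.t (u y)) (K.t (u z)) • sqv e u p.1 := by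
    intro p hp
    unfold KP at hp
    induction hp using AddSubgroup.closure_induction with
    | mem r hr =>
      obtain ⟨a, g, b, rfl⟩ := hr
      show sqv e u (E4.X.o a * E4.X.tau y z g * E4.X.o b)
        = K.k (K.t (u y)) (K.t (u z)) • sqv e u (E4.X.o a * T g * E4.X.o b)
      have hg : ∀ g : F, sqv e u (E4.X.o g) = K.ρ (FreeGroup.lift (fun i => u i ^ 2) g) := fun g => M.evx_o _ g
      have hT : sqv e u (T g) = K.l (K.t (FreeGroup.lift (fun i => u i ^ 2) g)) := M.evx_T _ g
      have h1 : sqv e u (E4.X.tau y z g) = K.k (K.t (u y)) (K.t (u z)) • sqv e u (T g) := by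
        unfold E4.X.tau
        rw [map_add, map_add, map_add, map_mul, map_mul, map_mul, map_mul, map_mul, map_mul, map_mul,
          map_mul, map_mul, map_mul, M.sqv_Xl, M.sqv_Xl, hg, hg, hT, map_inv]
        exact K.Kg _ _ _
      rw [map_mul, map_mul, map_mul (sqv e u) (E4.X.o a * T g), map_mul (sqv e u) (E4.X.o a), h1, mul_smul_comm,
        smul_mul_assoc]
    | zero => rw [Prod.snd_zero, Prod.fst_zero, map_zero, smul_zero]
    | add a b ha hb iha ihb => rw [Prod.snd_add, Prod.fst_add, map_add, map_add, iha, ihb, smul_add]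
    | neg a ha iha => rw [Prod.snd_neg, Prod.fst_neg, map_neg, map_neg, iha, smul_neg]
  exact key (w, k) h

end P

end E4

namespace E4.X

open E4

/-- PROOF: closure induction; each generator contains the factor `Xl y`, and `eB (rp y 1) (Xl y) = C 1 = 0`. -/
theorem Bil_kill_y {y z : ℕ} {s : FB} (h : s ∈ Bil y z) : eB (rp y 1) s = 0 := by
  have hz : eB (rp y 1) (Xl y) = 0 := by rw [eB_Xl_rp_self, C_one]
  unfold Bil at h
  induction h using AddSubgroup.closure_induction with
  | mem r hr =>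
    obtain ⟨a, b, c, _, _, _, h1 | h1⟩ := hr
    · rw [h1]
      simp only [map_mul, hz, mul_zero, zero_mul]
    · rw [h1]
      simp only [map_mul, hz, mul_zero, zero_mul]
  | zero => exact map_zero _
  | add a b _ _ iha ihb => rw [map_add, iha, ihb, add_zero]
  | neg a _ iha => rw [map_neg, iha, neg_zero]

theorem Bil_kill_z {y z : ℕ} {s : FB} (h : s ∈ Bil y z) : eB (rp z 1) s = 0 := by
  have hz : eB (rp z 1) (Xl z) = 0 := by rw [eB_Xl_rp_self, C_one]
  unfold Bil at h
  induction h using AddSubgroup.closure_induction with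
  | mem r hr =>
    obtain ⟨a, b, c, _, _, _, h1 | h1⟩ := hr
    · rw [h1]
      simp only [map_mul, hz, mul_zero, zero_mul]
    · rw [h1]
      simp only [map_mul, hz, mul_zero, zero_mul]
  | zero => exact map_zero _
  | add a b _ _ iha ihb => rw [map_add, iha, ihb, add_zero]
  | neg a _ iha => rw [map_neg, iha, neg_zero]

/-- exchange of `y` and `z` on letters -/
def swl (y z : ℕ) (i : ℕ) : ℕ := if i = y then z else if i = z then y else i

/-- PROOF: for a `φ` with `Pp φ` use `φ.comp (eB (sw y z))`, which satisfies `Pp` by `Pp.comp`, and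
`eB (sw y z) (Xl i) = Xl (swl y z i)`. -/
theorem Ew_sw {W : List (List ℕ)} {f : FB} (h : Ew W f) (y z : ℕ) :
    Ew (W.map (fun L => L.map (swl y z))) (eB (sw y z) f) := by
  intro R _ φ hφ
  have hx : ∀ j, sw y z (x j) = x (swl y z j) := by
    intro j
    rw [sw_x]
    unfold swl
    split_ifs <;> rfl
  have h1 := h R (φ.comp (eB (sw y z))) (hφ.comp _ fun j => Or.inr ⟨swl y z j, hx j⟩)
  have h2 : ∀ L : List ℕ, pr (φ.comp (eB (sw y z))) L = pr φ (L.map (swl y z)) := by
    intro L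
    unfold pr
    rw [List.map_map]
    refine congrArg List.prod (List.map_congr_left fun j _ => ?_)
    show φ (eB (sw y z) (Xl j)) = φ (Xl (swl y z j))
    unfold Xl
    rw [eB_C, hx]
  have h3 : φ (eB (sw y z) f) = (W.map (pr (φ.comp (eB (sw y z))))).sum := h1
  rw [h3, List.map_map]
  exact congrArg List.sum (List.map_congr_left fun L _ => h2 L)

theorem Ew_add {W W' : List (List ℕ)} {f f' : FB} (h : Ew W f) (h' : Ew W' f') : Ew (W ++ W') (f + f') := by
  intro R _ φ hφ
  rw [map_add, h R φ hφ, h' R φ hφ, List.map_append, List.sum_append]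

/-- the word of `XL`.  PROOF: `pr_XL`. -/
theorem Ew_XL (L : List ℕ) : Ew [L] (XL L) := by
  intro R _ φ hφ
  rw [pr_XL, List.map_singleton, List.sum_singleton]

/-- **expansion of a full element of `idl {Y Z}`**: words in which `y z` are neighbours.
PROOF: `full_pairs` with `s0 = Xl y * Xl z`, `B = {y, z}` (`hbad` : `φ Y * φ a * (φ Y * φ Z) = 0`, `φ Z * φ a * (φ Y * φ Z) = φ Z φ (a Y) φ Z = 0`,
similarly on the other side). -/
theorem full_YZ {L : Finset ℕ} {y z : ℕ} (hyz : y ≠ z) (hy : y ∉ L) (hz : z ∉ L) {r : FB} (hr : r ∈ idl {Xl y * Xl z})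
    (kill : ∀ j ∈ L, eB (rp j 1) r = 0) (inn : eB (ret (insert y (insert z L))) r = r) :
    ∃ U : List (List ℕ × List ℕ), (∀ p ∈ U, ((p.1 ++ p.2 : List ℕ) : Multiset ℕ) = L.val) ∧
      Ew (U.map (fun p => p.1 ++ (y :: z :: p.2))) r := by
  have hset : ({y, z} : Finset ℕ) ∪ L = insert y (insert z L) := by
    rw [Finset.insert_union, Finset.singleton_union]
  have hfix : ∀ j ∈ L, eB (rp j 1) (Xl y * Xl z) = Xl y * Xl z := by
    intro j hj
    have h1 : y ≠ j := fun h => hy (by rw [h]; exact hj)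
    have h2 : z ≠ j := fun h => hz (by rw [h]; exact hj)
    rw [map_mul, eB_Xl_rp_ne 1 h1, eB_Xl_rp_ne 1 h2]
  have hret : eB (ret ({y, z} ∪ L)) (Xl y * Xl z) = Xl y * Xl z := by
    have h1 : ∀ i ∈ ({y, z} : Finset ℕ) ∪ L, eB (ret ({y, z} ∪ L)) (Xl i) = Xl i := by
      intro i hi
      unfold Xl
      rw [eB_C, ret_x, if_pos hi]
    rw [map_mul, h1 y (by rw [hset]; exact Finset.mem_insert_self y _),
      h1 z (by rw [hset]; exact Finset.mem_insert_of_mem (Finset.mem_insert_self z L))]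
  have hbad : ∀ (R : Type) [Ring R] (φ : FB →+* R), Pp φ → ∀ j ∈ ({y, z} : Finset ℕ), ∀ a,
      φ (Xl j) * φ a * φ (Xl y * Xl z) = 0 ∧ φ (Xl y * Xl z) * φ a * φ (Xl j) = 0 := by
    intro R _ φ hφ j hj a
    rw [map_mul]
    rcases Finset.mem_insert.1 hj with rfl | hj
    · constructor
      · rw [← mul_assoc, hφ.mid j a, zero_mul]
      · rw [mul_assoc (φ (Xl j)), ← map_mul φ, hφ.mid j]
    · rw [Finset.mem_singleton.1 hj]
      constructor
      · rw [← mul_assoc, mul_assoc (φ (Xl z)), ← map_mul φ, hφ.mid z]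
      · rw [mul_assoc (φ (Xl y)), mul_assoc (φ (Xl y)), hφ.mid z, mul_zero]
  obtain ⟨U, hU1, hU2⟩ := full_pairs (Xl y * Xl z) L {y, z} hr hfix hret hbad kill (by rw [hset]; exact inn)
  refine ⟨U, hU1, ?_⟩
  intro R _ φ hφ
  rw [hU2 R φ hφ, List.map_map]
  unfold ps
  refine congrArg List.sum (List.map_congr_left fun p _ => ?_)
  show pr φ p.1 * φ (Xl y * Xl z) * pr φ p.2 = pr φ (p.1 ++ (y :: z :: p.2))
  rw [pr_append, pr_cons, pr_cons, map_mul]
  simp only [mul_assoc]

end E4.X
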