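import Pool.Agent.Lib.MP_8a95e3_al.PX6a

/-!
# PX6b : the field `lam`, first part (`ε₁ = 0`)
-/

noncomputable section

namespace E4

namespace P

open E4.X (FB eB o C T Xl rp ret kls sqs sw Pp pr XL XP Full Ew Ex ps idl KP Bil swl)

variable {V Z E : Type} [AddCommGroup V] [CommRing Z] [Module Z V] [Ring E] [Algebra Z E]

private theorem PX6b_head {L : Finset ℕ} {y z a : ℕ} {t : List ℕ} (ha : a ∈ L) (hy : y ∉ L) (hz : z ∉ L) :
    ¬ Ends y z (a :: t) := by
  rintro (⟨h, -⟩ | ⟨h, -⟩)
  · rw [List.head?_cons] at h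
    exact hy (Option.some.inj h ▸ ha)
  · rw [List.head?_cons] at h
    exact hz (Option.some.inj h ▸ ha)

private theorem PX6b_gl (t : List ℕ) (a : ℕ) : (t ++ [a]).getLast? = some a := by simp

private theorem PX6b_last {L : Finset ℕ} {y z a : ℕ} {t : List ℕ} (ha : a ∈ L) (hy : y ∉ L) (hz : z ∉ L) :
    ¬ Ends y z (t ++ [a]) := by
  have e := PX6b_gl t a
  rintro (⟨-, h⟩ | ⟨-, h⟩)
  · rw [e] at h
    exact hz (Option.some.inj h ▸ ha)
  · rw [e] at h
    exact hy (Option.some.inj h ▸ ha)

private theorem PX6b_swl_y {y z : ℕ} (hyz : y ≠ z) (i : ℕ) : swl y z i = y ↔ i = z := by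
  unfold swl
  by_cases h1 : i = y
  · rw [if_pos h1]
    constructor
    · intro h
      exact absurd h.symm hyz
    · intro h
      exact absurd (h1.symm.trans h) hyz
  · rw [if_neg h1]
    by_cases h2 : i = z
    · rw [if_pos h2]
      exact ⟨fun _ => h2, fun _ => rfl⟩
    · rw [if_neg h2]
      exact ⟨fun h => absurd h h1, fun h => absurd h h2⟩

private theorem PX6b_swl_z {y z : ℕ} (hyz : y ≠ z) (i : ℕ) : swl y z i = z ↔ i = y := by
  unfold swl
  by_cases h1 : i = y
  · rw [if_pos h1]
    exact ⟨fun _ => h1, fun _ => rfl⟩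
  · rw [if_neg h1]
    by_cases h2 : i = z
    · rw [if_pos h2]
      exact ⟨fun h => absurd h hyz, fun h => absurd h h1⟩
    · rw [if_neg h2]
      exact ⟨fun h => absurd h h2, fun h => absurd h h1⟩

private theorem PX6b_opt {y z : ℕ} (hyz : y ≠ z) (o : Option ℕ) :
    (o.map (swl y z) = some y ↔ o = some z) ∧ (o.map (swl y z) = some z ↔ o = some y) := by
  cases o with
  | none =>
    refine ⟨⟨fun h => ?_, fun h => ?_⟩, ⟨fun h => ?_, fun h => ?_⟩⟩ <;> cases h
  | some i =>
    rw [Option.map_some, Option.some_inj, Option.some_inj, Option.some_inj, Option.some_inj]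
    exact ⟨PX6b_swl_y hyz i, PX6b_swl_z hyz i⟩

private theorem PX6b_ends {y z : ℕ} (hyz : y ≠ z) (L : List ℕ) : Ends y z (L.map (swl y z)) ↔ Ends y z L := by
  unfold Ends
  rw [List.head?_map, List.getLast?_map, (PX6b_opt hyz _).1, (PX6b_opt hyz _).2, (PX6b_opt hyz _).1, (PX6b_opt hyz _).2]
  exact or_comm

private theorem PX6b_zero (y z : ℕ) (Ms : List (List ℕ)) (h : ∀ L ∈ Ms, ¬ Ends y z L) :
    (Ms.map (fun L => if Ends y z L then (1 : ZMod 2) else 0)).sum = 0 := by
  induction Ms with
  | nil => rfl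
  | cons L Ms ih =>
    rw [List.map_cons, List.sum_cons, if_neg (h L List.mem_cons_self), ih fun L' hL' => h L' (List.mem_cons_of_mem _ hL'),
      add_zero]

private theorem PX6b_smul {W : List ℕ} {f : FB} (h : Ew [W] f) (c : ZMod 2) :
    Ew (if c = 0 then [] else [W]) (c • f) := by
  by_cases hc : c = 0
  · rw [if_pos hc, hc, zero_smul]
    intro R _ φ _
    rw [map_zero]
    rfl
  · have h1 : c = 1 := by
      revert hc
      revert c
      decide
    rw [if_neg hc, h1, one_smul]
    exact h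

/-- **`ε₁ = 0`**.
PROOF: put `t = fun i => K.t (u i)`, `S = L.val`, `n = insert y (insert z L)`.
`s` is `Full (insert y (insert z L))` (`Bil_kill_y`, `Bil_kill_z`, hypotheses), so `full_words` gives `W1` (words which are permutations of
`y ::ₘ z ::ₘ S`); `eB (sw y z) s` has the words `W1.map (map (swl y z))` (`Ew_sw`), again permutations of `y ::ₘ z ::ₘ S`.
`w` has words `W2`, permutations of `S` (`full_words hw`).  `r` has the words `U.map (p.1 ++ y :: z :: p.2)` (`full_YZ`).
The element `Xl y * XP L * Xl z` is `XL (y :: (L.sort ++ [z]))`, and `XP (L.erase m) * (Xl y * Xl m * Xl z)` is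
`XL ((L.erase m).sort ++ [y, m, z])`.
By `Md.sqv_van` (applied to the hypothesis `h`), `Md.KP_ev` and `Md.sqv_Ew`: for all `u` the sum of the values of all these words
(the last two only if `ε₁ = 1`, `ε₂ = 1`) plus `K.k (t y) (t z) • (sum of the values of W2)` is `0`.  Apply `lamf` with `S = L.val ≠ 0`, `y1 = y`, `y2 = z`,
`Ws = W2`.  It says that the number of the words with `Ends y z` is `0` in `ZMod 2`.  `Ends y z` is invariant under `map (swl y z)`, so `s` and
`eB (sw y z) s` cancel.  A word `p.1 ++ y :: z :: p.2` of `r` is not `Ends`: it is nodup, and if `p.1 = []` then `p.2 ≠ []` (`L ≠ ∅`) and its last letter is in `L`;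
if `p.1 ≠ []` its first letter is in `L`.  The word of `ε₁` is `Ends`.  The word of `ε₂`: if `ε₂ ≠ 0` then `L.card ≥ 2`, `L.erase m ≠ ∅` and the first letter of the word
is in `L`, so it is not `Ends`. -/
theorem Md.lam1 {K : PAlg F V Z E} {e : FB →+* E} {P0 : AddSubgroup FB} (M : Md K e P0) [Nontrivial E]
    (L : Finset ℕ) (m y z : ℕ) (hm : m ∈ L) (hyz : y ≠ z) (hy : y ∉ L) (hz : z ∉ L)
    {s : FB} (hs : s ∈ Bil y z) {w k : FB} (hk : (w, k) ∈ KP y z) {r : FB} (hr : r ∈ idl {Xl y * Xl z})
    (hs1 : ∀ j ∈ L, eB (rp j 1) s = 0) (hs2 : eB (ret (insert y (insert z L))) s = s) (hw : Full L w)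
    (hr1 : ∀ j ∈ L, eB (rp j 1) r = 0) (hr2 : eB (ret (insert y (insert z L))) r = r)
    (ε₁ ε₂ : ZMod 2) (hε : L.card ≤ 1 → ε₂ = 0)
    (h : eB (sqs {y, z}) (s + eB (sw y z) s + k + r + ε₁ • (Xl y * XP L * Xl z) +
      ε₂ • (XP (L.erase m) * (Xl y * Xl m * Xl z))) ∈ P0) : ε₁ = 0 := by
  have hval : (insert y (insert z L)).val = y ::ₘ z ::ₘ L.val := by
    have h1 : y ∉ insert z L := by
      rw [Finset.mem_insert, not_or]
      exact ⟨hyz, hy⟩
    rw [Finset.insert_val_of_notMem h1, Finset.insert_val_of_notMem hz]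
  have hfull : Full (insert y (insert z L)) s := by
    refine ⟨fun j hj => ?_, hs2⟩
    rcases Finset.mem_insert.1 hj with h1 | h1
    · rw [h1]
      exact E4.X.Bil_kill_y hs
    · rcases Finset.mem_insert.1 h1 with h2 | h2
      · rw [h2]
        exact E4.X.Bil_kill_z hs
      · exact hs1 j h2
  obtain ⟨W1, hW1, hE1⟩ := E4.X.full_words hfull
  obtain ⟨W2, hW2, hE2⟩ := E4.X.full_words hw
  obtain ⟨U, hU, hEU⟩ := E4.X.full_YZ hyz hy hz hr hr1 hr2
  have hE1' := E4.X.Ew_sw hE1 y z
  have e3 : Xl y * XP L * Xl z = XL (y :: (L.sort (· ≤ ·) ++ [z])) := by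
    rw [E4.X.XP_XL]
    unfold E4.X.XL
    rw [List.map_cons, List.prod_cons, List.map_append, List.prod_append, List.map_singleton, List.prod_singleton, mul_assoc]
  have e4 : XP (L.erase m) * (Xl y * Xl m * Xl z) = XL ((L.erase m).sort (· ≤ ·) ++ [y, m, z]) := by
    rw [E4.X.XP_XL]
    unfold E4.X.XL
    rw [List.map_append, List.prod_append, List.map_cons, List.map_cons, List.map_cons, List.map_nil, List.prod_cons,
      List.prod_cons, List.prod_cons, List.prod_nil, mul_one, mul_assoc (Xl y)]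
  have hE3 := PX6b_smul (E4.X.Ew_XL (y :: (L.sort (· ≤ ·) ++ [z]))) ε₁
  have hE4 := PX6b_smul (E4.X.Ew_XL ((L.erase m).sort (· ≤ ·) ++ [y, m, z])) ε₂
  rw [← e3] at hE3
  rw [← e4] at hE4
  obtain ⟨W3, hW3⟩ : ∃ W3, W3 = (if ε₁ = 0 then [] else [y :: (L.sort (· ≤ ·) ++ [z])] : List (List ℕ)) := ⟨_, rfl⟩
  obtain ⟨W4, hW4⟩ : ∃ W4, W4 = (if ε₂ = 0 then [] else [(L.erase m).sort (· ≤ ·) ++ [y, m, z]] : List (List ℕ)) := ⟨_, rfl⟩
  rw [← hW3] at hE3
  rw [← hW4] at hE4
  have hsort : ∀ N : Finset ℕ, ((N.sort (· ≤ ·) : List ℕ) : Multiset ℕ) = N.val := fun N => Finset.sort_eq _ _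
  have hM : ∀ L' ∈ W1 ++ W1.map (fun L => L.map (swl y z)) ++ U.map (fun p => p.1 ++ (y :: z :: p.2)) ++ W3 ++ W4,
      (L' : Multiset ℕ) = y ::ₘ z ::ₘ L.val := by
    intro L' hL'
    rw [List.mem_append, List.mem_append, List.mem_append, List.mem_append] at hL'
    rcases hL' with (((h1 | h1) | h1) | h1) | h1
    · rw [hW1 L' h1, hval]
    · obtain ⟨L0, hL0, rfl⟩ := List.mem_map.1 h1
      have h2 := hW1 L0 hL0
      rw [hval] at h2
      rw [← Multiset.map_coe, h2, Multiset.map_cons, Multiset.map_cons]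
      have h3 : swl y z y = z := (PX6b_swl_z hyz y).2 rfl
      have h4 : swl y z z = y := (PX6b_swl_y hyz z).2 rfl
      have h5 : Multiset.map (swl y z) L.val = L.val := by
        refine (Multiset.map_congr rfl fun i hi => ?_).trans (Multiset.map_id _)
        have hi' : i ∈ L := hi
        have n1 : i ≠ y := fun e => hy (e ▸ hi')
        have n2 : i ≠ z := fun e => hz (e ▸ hi')
        unfold swl
        rw [if_neg n1, if_neg n2]
        rfl
      rw [h3, h4, h5, Multiset.cons_swap]
    · obtain ⟨p, hp, rfl⟩ := List.mem_map.1 h1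
      have h2 := hU p hp
      have h3 : (p.1 ++ (y :: z :: p.2)).Perm (y :: z :: (p.1 ++ p.2)) :=
        List.perm_middle.trans (List.Perm.cons y List.perm_middle)
      rw [Multiset.coe_eq_coe.2 h3, ← Multiset.cons_coe, ← Multiset.cons_coe, h2]
    · rw [hW3] at h1
      by_cases hc : ε₁ = 0
      · rw [if_pos hc] at h1
        cases h1
      · rw [if_neg hc, List.mem_singleton] at h1
        have h3 : (y :: (L.sort (· ≤ ·) ++ [z])).Perm (y :: z :: L.sort (· ≤ ·)) :=
          List.Perm.cons y List.perm_append_comm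
        rw [h1, Multiset.coe_eq_coe.2 h3, ← Multiset.cons_coe, ← Multiset.cons_coe, hsort]
    · rw [hW4] at h1
      by_cases hc : ε₂ = 0
      · rw [if_pos hc] at h1
        cases h1
      · rw [if_neg hc, List.mem_singleton] at h1
        have h3 : ((L.erase m).sort (· ≤ ·) ++ [y, m, z]).Perm (y :: z :: m :: (L.erase m).sort (· ≤ ·)) := by
          refine List.perm_append_comm.trans ?_
          show (y :: m :: z :: (L.erase m).sort (· ≤ ·)).Perm _
          exact List.Perm.cons y (List.Perm.swap z m _)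
        rw [h1, Multiset.coe_eq_coe.2 h3, ← Multiset.cons_coe, ← Multiset.cons_coe, ← Multiset.cons_coe, hsort,
          Finset.erase_val, Multiset.cons_erase hm]
  have hS : (y ::ₘ z ::ₘ L.val).Nodup := by
    rw [← hval]
    exact Finset.nodup _
  have hne : L.val ≠ 0 := by
    intro h0
    rw [Finset.val_eq_zero] at h0
    rw [h0] at hm
    exact absurd hm (Finset.notMem_empty m)
  have hsum : ∀ u : ℕ → F, ((W1 ++ W1.map (fun L => L.map (swl y z)) ++ U.map (fun p => p.1 ++ (y :: z :: p.2)) ++ W3 ++ W4).map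
      (fun L => wE K (fun i => K.t (u i)) L)).sum
      + K.k (K.t (u y)) (K.t (u z)) • (W2.map (fun L => wE K (fun i => K.t (u i)) L)).sum = 0 := by
    intro u
    have h1 := M.sqv_van h u
    rw [map_add, map_add, map_add, map_add, map_add, M.KP_ev hk u, M.sqv_Ew hE1 u, M.sqv_Ew hE1' u, M.sqv_Ew hE2 u,
      M.sqv_Ew hEU u, M.sqv_Ew hE3 u, M.sqv_Ew hE4 u] at h1
    rw [List.map_append, List.map_append, List.map_append, List.map_append, List.sum_append, List.sum_append, List.sum_append,
      List.sum_append, ← h1]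
    abel
  have key := lamf (K := K) L.val y z hS hne _ W2 hM hW2 hsum
  rw [List.map_append, List.map_append, List.map_append, List.map_append, List.sum_append, List.sum_append, List.sum_append,
    List.sum_append] at key
  have k2 : ((W1.map (fun L => L.map (swl y z))).map (fun L => if Ends y z L then (1 : ZMod 2) else 0)).sum =
      (W1.map (fun L => if Ends y z L then (1 : ZMod 2) else 0)).sum := by
    rw [List.map_map]
    congr 1
    refine List.map_congr_left fun L0 _ => ?_
    show (if Ends y z (L0.map (swl y z)) then (1 : ZMod 2) else 0) = _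
    by_cases hE : Ends y z L0
    · rw [if_pos hE, if_pos ((PX6b_ends hyz L0).2 hE)]
    · rw [if_neg hE, if_neg fun h' => hE ((PX6b_ends hyz L0).1 h')]
  have k3 : ((U.map (fun p => p.1 ++ (y :: z :: p.2))).map (fun L => if Ends y z L then (1 : ZMod 2) else 0)).sum = 0 := by
    refine PX6b_zero y z _ fun L' hL' => ?_
    obtain ⟨p, hp, rfl⟩ := List.mem_map.1 hL'
    have h2 := hU p hp
    have hmem : ∀ j, j ∈ p.1 ++ p.2 → j ∈ L := by
      intro j hj
      have h3 : j ∈ ((p.1 ++ p.2 : List ℕ) : Multiset ℕ) := hj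
      rw [h2] at h3
      exact h3
    rcases hp1 : p.1 with _ | ⟨a, t⟩
    · rcases List.eq_nil_or_concat p.2 with h4 | ⟨t, a, h4⟩
      · exfalso
        have h5 : m ∈ ((p.1 ++ p.2 : List ℕ) : Multiset ℕ) := by
          rw [h2]
          exact hm
        rw [hp1, h4] at h5
        exact absurd h5 (Multiset.notMem_zero m)
      · rw [List.concat_eq_append] at h4
        have ha : a ∈ L := hmem a (by rw [h4]; simp)
        have h6 : ([] : List ℕ) ++ (y :: z :: p.2) = (y :: z :: t) ++ [a] := by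
          rw [h4]
          rfl
        rw [h6]
        exact PX6b_last ha hy hz
    · have ha : a ∈ L := hmem a (by rw [hp1]; simp)
      exact PX6b_head ha hy hz
  have k5 : (W4.map (fun L => if Ends y z L then (1 : ZMod 2) else 0)).sum = 0 := by
    refine PX6b_zero y z _ fun L' hL' => ?_
    rw [hW4] at hL'
    by_cases hc : ε₂ = 0
    · rw [if_pos hc] at hL'
      cases hL'
    · rw [if_neg hc, List.mem_singleton] at hL'
      rcases hso : (L.erase m).sort (· ≤ ·) with _ | ⟨a, t⟩
      · exfalso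
        have h7 : (L.erase m).card = 0 := by
          rw [← Finset.length_sort (· ≤ ·), hso]
          rfl
        have h8 := Finset.card_erase_of_mem hm
        exact hc (hε (by omega))
      · have ha : a ∈ L.erase m := by
          rw [← Finset.mem_sort (· ≤ ·), hso]
          exact List.mem_cons_self
        rw [hL', hso]
        exact PX6b_head (Finset.mem_of_mem_erase ha) hy hz
  by_contra hc
  have k4 : (W3.map (fun L => if Ends y z L then (1 : ZMod 2) else 0)).sum = 1 := by
    rw [hW3, if_neg hc, List.map_singleton, List.sum_singleton, if_pos]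
    refine Or.inl ⟨rfl, ?_⟩
    have h9 : y :: (L.sort (· ≤ ·) ++ [z]) = (y :: L.sort (· ≤ ·)) ++ [z] := rfl
    rw [h9]
    exact PX6b_gl _ _
  rw [k2, k3, k4, k5, CharTwo.add_self_eq_zero, zero_add, zero_add, add_zero] at key
  exact one_ne_zero key

end P

end E4
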