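import Mathlib

/-!
# PX7 : ring identities with three sandwich elements (helper70)

`E` a ring of characteristic two, `S` a subring, `A`, `B`, `C` in `S` with `A s A = 0`, `B s B = 0`, `C s C = 0` for all `s` in `S`.
`X = (1 + A)(1 + B)(1 + C) + 1`.
-/

namespace E4

namespace P

variable {E : Type} [Ring E]

/-- hypotheses -/
structure Sw3 (S : Subring E) (A B C : E) : Prop where
  two : ∀ r : E, r + r = 0
  mA : A ∈ S
  mB : B ∈ S
  mC : C ∈ S
  zA : ∀ s ∈ S, A * s * A = 0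
  zB : ∀ s ∈ S, B * s * B = 0
  zC : ∀ s ∈ S, C * s * C = 0

/-- two letters: `Y = B + C + B C`.  PROOF: expand; `B s B = 0`, `B s (B C) = 0`, `C s C = 0`, `C s (B C) = C (s B) C = 0`,
`B C s B = B (C s) B = 0`, `B C s C = 0`, `B C s B C = 0`. -/
theorem Sw3.Y2 {S : Subring E} {A B C : E} (h : Sw3 S A B C) {s : E} (hs : s ∈ S) :
    (B + C + B * C) * s * (B + C + B * C) = B * s * C + C * s * B := by
  have e1 : B * s * B = 0 := h.zB s hs
  have e2 : C * s * C = 0 := h.zC s hs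
  have e3 : C * (s * B) * C = 0 := h.zC _ (S.mul_mem hs h.mB)
  have e4 : B * (C * s) * B = 0 := h.zB _ (S.mul_mem h.mC hs)
  have e5 : (B + C + B * C) * s * (B + C + B * C) = B * s * B + B * s * C + (B * s * B) * C + C * s * B + C * s * C +
      C * (s * B) * C + B * (C * s) * B + B * (C * s * C) + (B * (C * s) * B) * C := by
    noncomm_ring
  rw [e5, e1, e2, e3, e4]
  simp

/-- PROOF: `Y s Y t Y = (B s C + C s B) t (B + C + B C)`, each term contains `B … B` or `C … C`. -/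
theorem Sw3.Y3 {S : Subring E} {A B C : E} (h : Sw3 S A B C) {s t : E} (hs : s ∈ S) (ht : t ∈ S) :
    (B + C + B * C) * s * (B + C + B * C) * t * (B + C + B * C) = 0 := by
  have e1 : C * t * C = 0 := h.zC t ht
  have e2 : B * t * B = 0 := h.zB t ht
  have e3 : B * (s * C * t) * B = 0 := h.zB _ (S.mul_mem (S.mul_mem hs h.mC) ht)
  have e4 : C * (s * B * t) * C = 0 := h.zC _ (S.mul_mem (S.mul_mem hs h.mB) ht)
  rw [h.Y2 hs]
  have e5 : (B * s * C + C * s * B) * t * (B + C + B * C) = B * (s * C * t) * B + B * s * (C * t * C) +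
      B * (s * C * t) * B * C + C * s * (B * t * B) + C * (s * B * t) * C + C * s * (B * t * B) * C := by
    noncomm_ring
  rw [e5, e1, e2, e3, e4]
  simp

/-- the element `X` -/
def X3 (A B C : E) : E := (1 + A) * (1 + B) * (1 + C) + 1

/-- PROOF: expand, `1 + 1 = 0`. -/
theorem Sw3.X_eq {S : Subring E} {A B C : E} (h : Sw3 S A B C) : X3 A B C = A + (1 + A) * (B + C + B * C) := by
  have e1 : X3 A B C = A + (1 + A) * (B + C + B * C) + (1 + 1) := by
    unfold X3
    simp only [mul_add, add_mul, mul_one, one_mul, mul_assoc]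
    abel
  rw [e1, h.two, add_zero]

theorem Sw3.X_mem {S : Subring E} {A B C : E} (h : Sw3 S A B C) : X3 A B C ∈ S := by
  unfold X3
  exact S.add_mem (S.mul_mem (S.mul_mem (S.add_mem S.one_mem h.mA) (S.add_mem S.one_mem h.mB))
    (S.add_mem S.one_mem h.mC)) S.one_mem

private theorem PX7_Ymem {S : Subring E} {A B C : E} (h : Sw3 S A B C) : B + C + B * C ∈ S :=
  S.add_mem (S.add_mem h.mB h.mC) (S.mul_mem h.mB h.mC)

private theorem PX7_Q3 {S : Subring E} {A B C : E} (h : Sw3 S A B C) {s t : E} (hs : s ∈ S) (ht : t ∈ S) :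
    ((1 + A) * (B + C + B * C)) * s * ((1 + A) * (B + C + B * C)) * t * ((1 + A) * (B + C + B * C)) = 0 := by
  have h1 : (1 + A) ∈ S := S.add_mem S.one_mem h.mA
  have e1 := h.Y3 (S.mul_mem hs h1) (S.mul_mem ht h1)
  obtain ⟨Y, hY⟩ : ∃ Y, Y = B + C + B * C := ⟨_, rfl⟩
  obtain ⟨a, ha⟩ : ∃ a, a = 1 + A := ⟨_, rfl⟩
  rw [← hY, ← ha] at e1 ⊢
  have e2 : (a * Y) * s * (a * Y) * t * (a * Y) = a * (Y * (s * a) * Y * (t * a) * Y) := by
    simp only [mul_assoc]
  rw [e2, e1, mul_zero]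

/-- **four factors**.  PROOF: `X = A + Q`, `Q = (1 + A) * Y`, `Q s Q t Q = 0` for `s`, `t` in `S` (by `Sw3.Y3`, as `s (1 + A)`, `t (1 + A)` are in `S`), `Q ∈ S`.
Expand into 16 terms: a term with at least two `A` vanishes by `zA`, a term with at least three `Q` vanishes. -/
theorem Sw3.four {S : Subring E} {A B C : E} (h : Sw3 S A B C) {s t r : E} (hs : s ∈ S) (ht : t ∈ S) (hr : r ∈ S) :
    X3 A B C * s * X3 A B C * t * X3 A B C * r * X3 A B C = 0 := by
  rw [h.X_eq]
  have hQ : (1 + A) * (B + C + B * C) ∈ S := S.mul_mem (S.add_mem S.one_mem h.mA) (PX7_Ymem h)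
  have q3 : ∀ s t : E, s ∈ S → t ∈ S →
      ((1 + A) * (B + C + B * C)) * s * ((1 + A) * (B + C + B * C)) * t * ((1 + A) * (B + C + B * C)) = 0 :=
    fun s t hs ht => PX7_Q3 h hs ht
  obtain ⟨Q, hQe⟩ : ∃ Q, Q = (1 + A) * (B + C + B * C) := ⟨_, rfl⟩
  rw [← hQe] at hQ q3 ⊢
  have z1 : A * s * A = 0 := h.zA s hs
  have z2 : A * t * A = 0 := h.zA t ht
  have z3 : A * r * A = 0 := h.zA r hr
  have z4 : A * (s * Q * t) * A = 0 := h.zA _ (S.mul_mem (S.mul_mem hs hQ) ht)
  have z5 : A * (t * Q * r) * A = 0 := h.zA _ (S.mul_mem (S.mul_mem ht hQ) hr)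
  have z6 : A * (s * Q * t * Q * r) * A = 0 :=
    h.zA _ (S.mul_mem (S.mul_mem (S.mul_mem (S.mul_mem hs hQ) ht) hQ) hr)
  have w1 : Q * t * Q * r * Q = 0 := q3 t r ht hr
  have w2 : Q * s * Q * t * Q = 0 := q3 s t hs ht
  have w3 : Q * (s * A * t) * Q * r * Q = 0 := q3 _ r (S.mul_mem (S.mul_mem hs h.mA) ht) hr
  have w4 : Q * s * Q * (t * A * r) * Q = 0 := q3 s _ hs (S.mul_mem (S.mul_mem ht h.mA) hr)
  have e1 : (A + Q) * s * (A + Q) * t * (A + Q) * r * (A + Q) =
      (A * s * A) * (t * A * r * A) + (A * s * A) * (t * A * r * Q) + (A * s * A) * (t * Q * r * A) +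
      (A * s * A) * (t * Q * r * Q) + (A * (s * Q * t) * A) * (r * A) + (A * (s * Q * t) * A) * (r * Q) +
      A * (s * Q * t * Q * r) * A + A * s * (Q * t * Q * r * Q) + Q * s * (A * t * A) * (r * A) +
      Q * s * (A * t * A) * (r * Q) + Q * s * (A * (t * Q * r) * A) + Q * (s * A * t) * Q * r * Q +
      Q * s * Q * t * (A * r * A) + Q * s * Q * (t * A * r) * Q + (Q * s * Q * t * Q) * (r * A) +
      (Q * s * Q * t * Q) * (r * Q) := by
    simp only [mul_add, add_mul, mul_assoc]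
    abel
  rw [e1, z1, z2, z3, z4, z5, z6, w1, w2, w3, w4]
  simp

/-- **three factors**.  PROOF: `X = A + Q`, `Q = Y + A Y`.  In `X r X X` the terms with two `A` or three `Q` vanish; there remain
`A r Q Q + Q r A Q + Q r Q A`, and in these the `A` inside of `Q` may be dropped (it would be a second `A`; note that `Q` begins with `Y` or `A`):
`A r Y Y + Y r A Y + Y r Y A`.  By `Sw3.Y2` (for `s = 1`, `s = r A`, `s = r`) this is the right side. -/
theorem Sw3.cyc {S : Subring E} {A B C : E} (h : Sw3 S A B C) {r : E} (hr : r ∈ S) :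
    X3 A B C * r * (X3 A B C * X3 A B C)
      = A * r * (B * C + C * B) + B * r * (C * A + A * C) + C * r * (A * B + B * A) := by
  rw [h.X_eq]
  have hYm := PX7_Ymem h
  have y1 := h.Y2 S.one_mem
  have y2 := h.Y2 (S.mul_mem hr h.mA)
  have y3 := h.Y2 hr
  have q3 := PX7_Q3 h hr S.one_mem
  obtain ⟨Y, hY⟩ : ∃ Y, Y = B + C + B * C := ⟨_, rfl⟩
  rw [← hY] at hYm y1 y2 y3 q3 ⊢
  have hQ : (1 + A) * Y ∈ S := S.mul_mem (S.add_mem S.one_mem h.mA) hYm
  have y1' : Y * Y = B * C + C * B := by rwa [mul_one, mul_one, mul_one] at y1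
  have z0 : A * A = 0 := by
    have := h.zA 1 S.one_mem
    rwa [mul_one] at this
  have z1 : A * r * A = 0 := h.zA r hr
  have z2 : A * (r * Y) * A = 0 := h.zA _ (S.mul_mem hr hYm)
  have z3 : A * (Y * r) * A = 0 := h.zA _ (S.mul_mem hYm hr)
  have z4 : A * Y * A = 0 := h.zA _ hYm
  have z5 : A * (Y * r * Y) * A = 0 := h.zA _ (S.mul_mem (S.mul_mem hYm hr) hYm)
  have z6 : A * (r * ((1 + A) * Y)) * A = 0 := h.zA _ (S.mul_mem hr hQ)
  rw [mul_one] at q3
  obtain ⟨Q, hQe⟩ : ∃ Q, Q = (1 + A) * Y := ⟨_, rfl⟩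
  rw [← hQe] at q3 z6 ⊢
  have e1 : (A + Q) * r * ((A + Q) * (A + Q)) = (A * r * A) * A + (A * r * A) * Q + A * (r * Q) * A + A * r * Q * Q +
      Q * r * (A * A) + Q * r * A * Q + Q * r * Q * A + Q * r * Q * Q := by
    simp only [mul_add, add_mul, mul_assoc]
    abel
  have e2 : A * r * Q * Q = A * r * (Y * Y) := by
    rw [hQe]
    have : A * r * ((1 + A) * Y) * ((1 + A) * Y) = A * r * (Y * Y) + (A * (r * Y) * A) * Y + (A * r * A) * (Y * Y) +
        (A * r * A) * (Y * A * Y) := by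
      simp only [mul_add, add_mul, mul_assoc, one_mul]
      abel
    rw [this, z1, z2]
    simp
  have e3 : Q * r * A * Q = Y * (r * A) * Y := by
    rw [hQe]
    have : (1 + A) * Y * r * A * ((1 + A) * Y) = Y * (r * A) * Y + Y * r * (A * A) * Y + (A * (Y * r) * A) * Y +
        (A * (Y * r) * A) * (A * Y) := by
      simp only [mul_add, add_mul, mul_assoc, one_mul]
      abel
    rw [this, z0, z3]
    simp
  have e4 : Q * r * Q * A = Y * r * Y * A := by
    rw [hQe]
    have : (1 + A) * Y * r * ((1 + A) * Y) * A = Y * r * Y * A + Y * r * (A * Y * A) + A * (Y * r * Y) * A +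
        A * Y * r * (A * Y * A) := by
      simp only [mul_add, add_mul, mul_assoc, one_mul]
      abel
    rw [this, z4, z5]
    simp
  rw [e1, z1, z6, z0, q3, e2, e3, e4, y1', y2, y3]
  simp only [mul_add, add_mul, mul_assoc, zero_mul, mul_zero, add_zero, zero_add]
  abel

end P

end E4
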