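import Pool.Agent.Lib.MP_8a95e3_al.PX7
import Pool.Agent.Lib.MP_8a95e3_al.PX3

/-!
# PX8 : evaluation of the letter `j` at `a² b² c²`
-/

noncomputable section

namespace E4

namespace P

open E4.X (FB eB o C T Xl rp ret kls sqs sw Pp pr XL XP Full Ew Ex ps idl TP)

variable {V Z E : Type} [AddCommGroup V] [CommRing Z] [Module Z V] [Ring E] [Algebra Z E]

private theorem PX8_abs {S : Subring E} {A B C : E} (h : Sw3 S A B C) {α β R : E} (hα : α ∈ S) (hβ : β ∈ S)
    (hR : R ∈ S) :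
    α * X3 A B C * β * X3 A B C * R * (X3 A B C * X3 A B C) = 0 ∧
      X3 A B C * R * (X3 A B C * X3 A B C) * (α * X3 A B C * β) = 0 ∧
      X3 A B C * (α * X3 A B C * β) * (X3 A B C * X3 A B C) = 0 := by
  have h1 := h.four hβ hR S.one_mem
  have h2 := h.four hR S.one_mem hα
  have h3 := h.four hα hβ S.one_mem
  obtain ⟨X, hX⟩ : ∃ X, X = X3 A B C := ⟨_, rfl⟩
  rw [← hX] at h1 h2 h3 ⊢
  rw [mul_one] at h1 h2 h3
  refine ⟨?_, ?_, ?_⟩
  · calc α * X * β * X * R * (X * X) = α * (X * β * X * R * X * X) := by simp only [mul_assoc]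
      _ = 0 := by rw [h1, mul_zero]
  · calc X * R * (X * X) * (α * X * β) = (X * R * X * X * α * X) * β := by simp only [mul_assoc]
      _ = 0 := by rw [h2, zero_mul]
  · calc X * (α * X * β) * (X * X) = X * α * X * β * X * X := by simp only [mul_assoc]
      _ = 0 := h3

private theorem PX8_sum (X U P T Q W R : E) (h1 : P * X * T * (X * X) = 0) (h2 : X * T * (X * X) * R = 0)
    (h3 : X * Q * (X * X) = 0) :
    (U + P) * (X * (T + Q) * (X * X)) * (W + R) = U * (X * T * (X * X)) * W := by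
  have h4 : X * (T + Q) * (X * X) = X * T * (X * X) := by
    rw [mul_add, add_mul, h3, add_zero]
  have h5 : P * (X * T * (X * X)) = 0 := by
    rw [← h1]
    simp only [mul_assoc]
  rw [h4, add_mul, h5, add_zero, mul_add, mul_assoc U (X * T * (X * X)) R, h2, mul_zero, add_zero]

section

variable {K : PAlg F V Z E} {e : FB →+* E} {P0 : AddSubgroup FB} (M : Md K e P0)

include M

/-- PROOF: `K.l (K.t a) = e (C (a ^ 2))` (`Md.X_sq`, `M.o`), `Md.mid_e`, `K.ee`. -/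
theorem Md.sw3 (a b c : F) : Sw3 e.range (K.l (K.t a)) (K.l (K.t b)) (K.l (K.t c)) := by
  have hm : ∀ g : F, K.l (K.t g) ∈ e.range := by
    intro g
    refine ⟨E4.X.C (g ^ 2), ?_⟩
    have h1 : e (E4.X.C (g ^ 2)) = K.X (g ^ 2) := by
      unfold E4.X.C PAlg.X
      rw [map_add, M.o, map_one]
    rw [h1, Md.X_sq]
  have hz : ∀ g : F, ∀ s ∈ e.range, K.l (K.t g) * s * K.l (K.t g) = 0 := by
    rintro g s ⟨f, rfl⟩
    exact M.mid_e g f
  exact ⟨K.ee, hm a, hm b, hm c, hz a, hz b, hz c⟩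

/-- PROOF: `K.X g = K.ρ g + 1`, `K.ρ (a ^ 2) = 1 + K.l (K.t a)` (`K.sq`, `pow_two`, `map_mul`). -/
theorem Md.X_abc (a b c : F) : K.X (a ^ 2 * b ^ 2 * c ^ 2) = X3 (K.l (K.t a)) (K.l (K.t b)) (K.l (K.t c)) := by
  have h1 : ∀ g : F, K.ρ (g ^ 2) = 1 + K.l (K.t g) := by
    intro g
    rw [pow_two, map_mul, K.sq]
  unfold PAlg.X X3
  rw [map_mul, map_mul, h1, h1, h1]

/-- **evaluation of `X_j r X_j²`** for `r` free of `j`.
PROOF: `Md.evx_Xl`, `Md.X_abc`, `Sw3.cyc`; `K.l_b`; `evx e (update …) r = evx e W r`: here `hr` says that the value is the element `ρ` of `e.range`. -/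
theorem Md.cyc_ev (W : ℕ → F) (j : ℕ) (a b c : F) (r : FB) :
    evx e (Function.update W j (a ^ 2 * b ^ 2 * c ^ 2)) (Xl j * r * Xl j ^ 2)
      = K.l (K.t a) * evx e (Function.update W j (a ^ 2 * b ^ 2 * c ^ 2)) r * K.l (K.b (K.t b) (K.t c))
        + K.l (K.t b) * evx e (Function.update W j (a ^ 2 * b ^ 2 * c ^ 2)) r * K.l (K.b (K.t c) (K.t a))
        + K.l (K.t c) * evx e (Function.update W j (a ^ 2 * b ^ 2 * c ^ 2)) r * K.l (K.b (K.t a) (K.t b)) := by
  have hr : evx e (Function.update W j (a ^ 2 * b ^ 2 * c ^ 2)) r ∈ e.range := ⟨_, rfl⟩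
  rw [map_mul, map_mul, map_pow, M.evx_Xl, Function.update_self, M.X_abc,
    pow_two (X3 (K.l (K.t a)) (K.l (K.t b)) (K.l (K.t c))), (M.sw3 a b c).cyc hr,
    K.l_b, K.l_b, K.l_b]

/-- **evaluation of `Θ_j`**.
PROOF: let `φ = evx e (Function.update W j h)`, `h = a² b² c²`, `φ₁ = evx e (Function.update W j 1)`; `φ₁ f = φ (eB (rp j 1) f)` (`evx_rp1`,
`Function.update_idem`).  `AddSubgroup.closure_induction` on the pair; generator `(o u * T g * o v, o u * (Xl j * T g * Xl j ^ 2) * o v)`.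
Put `u₁ = rp j 1 u` etc.  `o u + o u₁ ∈ I1 j`, `o v + o v₁ ∈ I1 j` by `E4.X.fox`, and `T g + T g₁ ∈ I1 j` (`E4.X.mem_I1_iff`: it is killed by `rp j 1`).
(1) For `p ∈ I1 j` and `R` in `e.range`: `φ p * X * R * X * X = 0`, `X * R * X * X * φ p = 0`, `X * φ p * X * X = 0`, where `X = φ (Xl j) = X3 A B C`: closure induction on `p`
(`p = o a' * Xl j * o b'`), each product is of the form `… X s X t X r X …` with `s`, `t`, `r` in `e.range` (the value of `φ` at anything is in `e.range`), `Sw3.four`.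
(2) Hence `φ (o u * (Xl j * T g * Xl j ^ 2) * o v) = φ (o u₁) * (X * φ (T g₁) * (X * X)) * φ (o v₁)`, and `φ (T g₁) = K.l (K.t g')` is a vector, so by `Md.cyc_ev`
and `K.cyc3` this is `τ(a,b,c) • (φ (o u₁) * φ (T g₁) * φ (o v₁)) = τ(a,b,c) • φ₁ (o u * T g * o v)`. -/
theorem Md.TP_ev (W : ℕ → F) {j : ℕ} (a b c : F) {w k : FB} (h : (w, k) ∈ TP j) :
    evx e (Function.update W j (a ^ 2 * b ^ 2 * c ^ 2)) k
      = K.tau (K.t a) (K.t b) (K.t c) • evx e (Function.update W j 1) w := by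
  have h3 := M.sw3 a b c
  have hX : evx e (Function.update W j (a ^ 2 * b ^ 2 * c ^ 2)) (Xl j)
      = X3 (K.l (K.t a)) (K.l (K.t b)) (K.l (K.t c)) := by
    rw [M.evx_Xl, Function.update_self, M.X_abc]
  have h1 : ∀ f : FB, evx e (Function.update W j 1) f
      = evx e (Function.update W j (a ^ 2 * b ^ 2 * c ^ 2)) (eB (rp j 1) f) := by
    intro f
    rw [evx_rp1, Function.update_idem]
  have hcyc := M.cyc_ev W j a b c
  have hT : ∀ g : F, ∃ v : V, evx e (Function.update W j (a ^ 2 * b ^ 2 * c ^ 2)) (T g) = K.l v :=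
    fun g => ⟨_, M.evx_T _ g⟩
  have hran : ∀ f : FB, evx e (Function.update W j (a ^ 2 * b ^ 2 * c ^ 2)) f ∈ e.range := fun f => ⟨_, rfl⟩
  obtain ⟨φ, hφ⟩ : ∃ φ, φ = evx e (Function.update W j (a ^ 2 * b ^ 2 * c ^ 2)) := ⟨_, rfl⟩
  rw [← hφ] at hX h1 hcyc hT hran ⊢
  obtain ⟨A, hA⟩ : ∃ A, A = K.l (K.t a) := ⟨_, rfl⟩
  obtain ⟨B, hB⟩ : ∃ B, B = K.l (K.t b) := ⟨_, rfl⟩
  obtain ⟨C', hC⟩ : ∃ C', C' = K.l (K.t c) := ⟨_, rfl⟩
  rw [← hA, ← hB, ← hC] at h3 hX
  have hp : ∀ p ∈ E4.X.I1 j, (∀ R ∈ e.range, φ p * X3 A B C' * R * (X3 A B C' * X3 A B C') = 0) ∧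
      (∀ R ∈ e.range, X3 A B C' * R * (X3 A B C' * X3 A B C') * φ p = 0) ∧
      X3 A B C' * φ p * (X3 A B C' * X3 A B C') = 0 := by
    intro p hp
    unfold E4.X.I1 E4.X.idl at hp
    induction hp using AddSubgroup.closure_induction with
    | mem r hr =>
      obtain ⟨a', b', s, hs, rfl⟩ := hr
      rw [Set.mem_singleton_iff] at hs
      rw [hs, map_mul, map_mul, hX]
      refine ⟨fun R hR => ?_, fun R hR => ?_, ?_⟩
      · exact (PX8_abs h3 (hran _) (hran _) hR).1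
      · exact (PX8_abs h3 (hran _) (hran _) hR).2.1
      · exact (PX8_abs h3 (hran _) (hran _) (hran 0)).2.2
    | zero =>
      rw [map_zero]
      refine ⟨fun R _ => ?_, fun R _ => ?_, ?_⟩
      · rw [zero_mul, zero_mul, zero_mul]
      · rw [mul_zero]
      · rw [mul_zero, zero_mul]
    | add x y _ _ ihx ihy =>
      rw [map_add]
      refine ⟨fun R hR => ?_, fun R hR => ?_, ?_⟩
      · rw [add_mul, add_mul, add_mul, ihx.1 R hR, ihy.1 R hR, add_zero]
      · rw [mul_add, ihx.2.1 R hR, ihy.2.1 R hR, add_zero]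
      · rw [mul_add, add_mul, ihx.2.2, ihy.2.2, add_zero]
    | neg x _ ihx =>
      rw [map_neg]
      refine ⟨fun R hR => ?_, fun R hR => ?_, ?_⟩
      · rw [neg_mul, neg_mul, neg_mul, ihx.1 R hR, neg_zero]
      · rw [mul_neg, ihx.2.1 R hR, neg_zero]
      · rw [mul_neg, neg_mul, ihx.2.2, neg_zero]
  have key : ∀ q : FB × FB, q ∈ TP j →
      φ q.2 = K.tau (K.t a) (K.t b) (K.t c) • φ (eB (rp j 1) q.1) := by
    intro q hq
    unfold TP at hq
    induction hq using AddSubgroup.closure_induction with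
    | mem r hr =>
      obtain ⟨u, g, v, rfl⟩ := hr
      have hc1 : ∀ y y' : FB, y = y' + (y + y') := by
        intro y y'
        rw [add_comm y y', ← add_assoc, E4.X.fb_add_self, zero_add]
      have hu : φ (E4.X.o u) = φ (E4.X.o (rp j 1 u)) + φ (E4.X.o u + E4.X.o (rp j 1 u)) := by
        rw [← map_add, ← hc1]
      have hv : φ (E4.X.o v) = φ (E4.X.o (rp j 1 v)) + φ (E4.X.o v + E4.X.o (rp j 1 v)) := by
        rw [← map_add, ← hc1]
      have hg : φ (T g) = φ (T (rp j 1 g)) + φ (T g + T (rp j 1 g)) := by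
        rw [← map_add, ← hc1]
      have hgm : T g + T (rp j 1 g) ∈ E4.X.I1 j := by
        have h4 := AddSubgroup.add_mem _ (E4.X.fox j g) (E4.X.fox j g⁻¹)
        have h5 : T g + T (rp j 1 g) = E4.X.o g + E4.X.o (rp j 1 g) + (E4.X.o g⁻¹ + E4.X.o (rp j 1 g⁻¹)) := by
          unfold E4.X.T
          rw [map_inv (rp j 1) g]
          exact add_add_add_comm _ _ _ _
        rw [h5]
        exact h4
      have hm := hcyc (T (rp j 1 g))
      obtain ⟨w', hw'⟩ := hT (rp j 1 g)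
      rw [hw', K.cyc3, ← hw', map_mul φ, map_mul φ, map_pow φ, hX, pow_two (X3 A B C')] at hm
      show φ (E4.X.o u * (Xl j * T g * Xl j ^ 2) * E4.X.o v)
        = K.tau (K.t a) (K.t b) (K.t c) • φ (eB (rp j 1) (E4.X.o u * T g * E4.X.o v))
      rw [map_mul φ, map_mul φ, map_mul φ, map_mul φ, map_pow φ, hX, pow_two (X3 A B C'), hu, hv, hg,
        PX8_sum _ _ _ _ _ _ _ ((hp _ (E4.X.fox j u)).1 _ (hran _)) ((hp _ (E4.X.fox j v)).2.1 _ (hran _))
          (hp _ hgm).2.2, hm, map_mul (eB (rp j 1)), map_mul (eB (rp j 1)), E4.X.eB_o, E4.X.eB_o, E4.X.eB_T,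
        map_mul φ, map_mul φ, mul_smul_comm, smul_mul_assoc]
    | zero => rw [Prod.snd_zero, Prod.fst_zero, map_zero, map_zero, map_zero, smul_zero]
    | add x y _ _ ihx ihy => rw [Prod.snd_add, Prod.fst_add, map_add, map_add, map_add, ihx, ihy, smul_add]
    | neg x _ ihx => rw [Prod.snd_neg, Prod.fst_neg, map_neg, map_neg, map_neg, ihx, smul_neg]
  rw [h1]
  exact key (w, k) h

end

end P

end E4
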