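import Pool.Agent.Lib.MP_8a95e3_al.PX8
import Pool.Agent.Lib.MP_8a95e3_al.PX5a
import Pool.Agent.Lib.MP_8a95e3_al.PX4b
import Pool.Agent.Lib.MP_8a95e3_al.P.P17

/-!
# PX9a : third layer, version for lists
-/

noncomputable section

namespace E4

namespace P

open E4.X (FB eB o C T Xl rp ret kls sqs sw Pp pr XL XP Full Ew Ex ps idl TP crs)

variable {V Z E : Type} [AddCommGroup V] [CommRing Z] [Module Z V] [Ring E] [Algebra Z E]

/-- PROOF: `AddSubgroup.closure_induction` on the pair, `eB φ` of a generator is a generator (`φ (x j) = x j`). -/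
theorem TP_eB {j : ℕ} (φ : F →* F) (hφ : φ (x j) = x j) {w k : FB} (h : (w, k) ∈ TP j) : (eB φ w, eB φ k) ∈ TP j := by
  have key : ∀ r ∈ TP j, (eB φ r.1, eB φ r.2) ∈ TP j := by
    intro r hr
    unfold TP at hr
    induction hr using AddSubgroup.closure_induction with
    | mem r hr =>
      obtain ⟨u, g, v, rfl⟩ := hr
      have hX : eB φ (Xl j) = Xl j := by
        show eB φ (C (x j)) = C (x j)
        rw [E4.X.eB_C, hφ]
      refine AddSubgroup.subset_closure ⟨φ u, φ g, φ v, ?_⟩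
      simp only [map_mul, map_pow, E4.X.eB_o, E4.X.eB_T, hX]
    | zero =>
      rw [Prod.fst_zero, Prod.snd_zero, map_zero]
      exact (TP j).zero_mem
    | add c d _ _ hc hd =>
      rw [Prod.fst_add, Prod.snd_add, map_add, map_add, ← Prod.mk_add_mk]
      exact (TP j).add_mem hc hd
    | neg c _ hc =>
      rw [Prod.fst_neg, Prod.snd_neg, map_neg, map_neg, ← Prod.neg_mk]
      exact (TP j).neg_mem hc
  exact key _ h

/-- PROOF: `TP_eB` for the three summands, `AddSubgroup.add_mem`. -/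
theorem TP_crs {j m m' : ℕ} (hm : m ≠ j) {w k : FB} (h : (w, k) ∈ TP j) : (crs m m' w, crs m m' k) ∈ TP j := by
  have hf : ∀ g : F, rp m g (x j) = x j := fun g => by
    rw [E4.X.rp_x, if_neg hm.symm]
  unfold crs
  rw [← Prod.mk_add_mk, ← Prod.mk_add_mk]
  exact (TP j).add_mem ((TP j).add_mem (TP_eB _ (hf _) h) h) (TP_eB _ (hf _) h)

/-- all letters at squares, the letter `j` at `a² b² c²` -/
def trv (u : ℕ → F) (j : ℕ) (a b c : F) : ℕ → F := Function.update (fun i => u i ^ 2) j (a ^ 2 * b ^ 2 * c ^ 2)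

section

variable {K : PAlg F V Z E} {e : FB →+* E} {P0 : AddSubgroup FB} (M : Md K e P0)

include M

/-- PROOF: `evx_congr` with `M = insert`-free set: `w = eB (ret H) w`, `j ∉ H`, `Md.sqv_Ew`.  Here `evx e (Function.update (fun i => u i ^ 2) j 1) w = sqv e u w`. -/
theorem Md.trv_w (u : ℕ → F) {j : ℕ} {H : Finset ℕ} (hj : j ∉ H) {w : FB} (hw : eB (ret H) w = w) {W : List (List ℕ)} (hW : Ew W w) :
    evx e (Function.update (fun i => u i ^ 2) j 1) w = (W.map (fun L => wE K (fun i => K.t (u i)) L)).sum := by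
  rw [← M.sqv_Ew hW u]
  unfold sqv
  refine evx_congr e hw fun i hi => ?_
  have hij : i ≠ j := by rintro rfl; exact hj hi
  rw [Function.update_of_ne hij]

theorem Md.PX9a_let (u : ℕ → F) {j i : ℕ} (a b c : F) (hi : i ≠ j) :
    evx e (trv u j a b c) (Xl i) = K.l (K.t (u i)) := by
  refine M.evx_Xl_sq _ _ ?_
  unfold trv
  rw [Function.update_of_ne hi]

/-- value of `XL L` at `trv` if `j ∉ L`.  PROOF: `XL L` is fixed by `ret L.toFinset`, `evx_congr`, `Md.sqv_XL`. -/
theorem Md.trv_XL (u : ℕ → F) {j : ℕ} (a b c : F) {L : List ℕ} (hj : j ∉ L) :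
    evx e (trv u j a b c) (XL L) = wE K (fun i => K.t (u i)) L := by
  rw [E4.X.pr_XL]
  unfold pr wE
  congr 1
  refine List.map_congr_left fun i hi => ?_
  have hij : i ≠ j := by rintro rfl; exact hj hi
  exact M.PX9a_let u a b c hij

omit M in
theorem PX9a_wE_append (p : ℕ → V) (L L' : List ℕ) : wE K p (L ++ L') = wE K p L * wE K p L' := by
  unfold wE
  rw [List.map_append, List.prod_append]

/-- the value of `XL L * (Xl j * Xl m * Xl j ^ 2)`.  PROOF: `Md.trv_XL`, `Md.cyc_ev` with `r = Xl m = XL [m]`, `K.cyc3`, `wE` of a concatenation. -/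
theorem Md.trv_m (u : ℕ → F) {j m : ℕ} (a b c : F) {L : List ℕ} (hj : j ∉ L) (hm : m ≠ j) :
    evx e (trv u j a b c) (XL L * (Xl j * Xl m * Xl j ^ 2))
      = K.tau (K.t a) (K.t b) (K.t c) • wE K (fun i => K.t (u i)) (L ++ [m]) := by
  have h1 := M.PX9a_let u a b c hm
  have h2 := M.trv_XL u a b c hj
  have h3 := M.cyc_ev (fun i => u i ^ 2) j a b c (Xl m)
  unfold trv at h1 h2 ⊢
  rw [map_mul, h2, h3, h1, K.cyc3, mul_smul_comm, PX9a_wE_append]
  congr 2
  unfold wE
  simp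

/-- the value of `XL L * (Xl j * (Xl m * Xl m') * Xl j ^ 2)`.
PROOF: the same with `r = Xl m * Xl m'`: with `p = K.t (u m)`, `q = K.t (u m')`: `l p * l q = K.Ee p q + K.k p q • 1`; the cyclic sum of
`A * K.Ee p q * [B,C]` is `τ • (l q * l p)` (`K.con_Ee`), the cyclic sum of `A * [B,C]` is `0` (`K.cyc2`). -/
theorem Md.trv_mm (u : ℕ → F) {j m m' : ℕ} (a b c : F) {L : List ℕ} (hj : j ∉ L) (hm : m ≠ j) (hm' : m' ≠ j) :
    evx e (trv u j a b c) (XL L * (Xl j * (Xl m * Xl m') * Xl j ^ 2))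
      = K.tau (K.t a) (K.t b) (K.t c) • wE K (fun i => K.t (u i)) (L ++ [m', m]) := by
  have h1 := M.PX9a_let u a b c hm
  have h1' := M.PX9a_let u a b c hm'
  have h2 := M.trv_XL u a b c hj
  have h3 := M.cyc_ev (fun i => u i ^ 2) j a b c (Xl m * Xl m')
  have h4 := K.con_Ee (K.t a) (K.t b) (K.t c) (K.t (u m)) (K.t (u m'))
  have h5 := K.cyc2 (K.t a) (K.t b) (K.t c)
  have h6 : K.l (K.t (u m)) * K.l (K.t (u m')) =
      K.Ee (K.t (u m)) (K.t (u m')) + K.k (K.t (u m)) (K.t (u m')) • (1 : E) := by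
    unfold PAlg.Ee
    rw [add_assoc, K.ee, add_zero]
  have h7 : ∀ A B : V, K.l A * (K.Ee (K.t (u m)) (K.t (u m')) + K.k (K.t (u m)) (K.t (u m')) • (1 : E)) * K.l B
      = K.l A * K.Ee (K.t (u m)) (K.t (u m')) * K.l B + K.k (K.t (u m)) (K.t (u m')) • (K.l A * K.l B) := by
    intro A B
    rw [mul_add, add_mul, mul_smul_comm, smul_mul_assoc, mul_one]
  unfold trv at h1 h1' h2 ⊢
  rw [map_mul, h2, h3, map_mul, h1, h1', h6, h7, h7, h7]
  have h8 : K.l (K.t a) * K.Ee (K.t (u m)) (K.t (u m')) * K.l (K.b (K.t b) (K.t c)) +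
        K.k (K.t (u m)) (K.t (u m')) • (K.l (K.t a) * K.l (K.b (K.t b) (K.t c))) +
      (K.l (K.t b) * K.Ee (K.t (u m)) (K.t (u m')) * K.l (K.b (K.t c) (K.t a)) +
        K.k (K.t (u m)) (K.t (u m')) • (K.l (K.t b) * K.l (K.b (K.t c) (K.t a)))) +
      (K.l (K.t c) * K.Ee (K.t (u m)) (K.t (u m')) * K.l (K.b (K.t a) (K.t b)) +
        K.k (K.t (u m)) (K.t (u m')) • (K.l (K.t c) * K.l (K.b (K.t a) (K.t b)))) =
      (K.l (K.t a) * K.Ee (K.t (u m)) (K.t (u m')) * K.l (K.b (K.t b) (K.t c)) +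
      K.l (K.t b) * K.Ee (K.t (u m)) (K.t (u m')) * K.l (K.b (K.t c) (K.t a)) +
      K.l (K.t c) * K.Ee (K.t (u m)) (K.t (u m')) * K.l (K.b (K.t a) (K.t b))) +
      K.k (K.t (u m)) (K.t (u m')) • (K.l (K.t a) * K.l (K.b (K.t b) (K.t c)) +
        K.l (K.t b) * K.l (K.b (K.t c) (K.t a)) + K.l (K.t c) * K.l (K.b (K.t a) (K.t b))) := by
    rw [smul_add, smul_add]
    abel
  rw [h8, h4, h5, smul_zero, add_zero, mul_smul_comm, PX9a_wE_append]
  congr 2
  unfold wE
  simp

/-- **third layer, odd number of letters**.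
PROOF: `E4.X.full_words hw` gives words `W` of `w` (permutations of `v`).  By `Md.TP_ev`, `Md.trv_w`, `Md.cyc_ev` with `r = XL v`, `Md.trv_XL` and `hf` the hypothesis `h` is the
hypothesis of `odf` with the list `W ++ Ms` (up to the order of the summands). -/
theorem Md.o3L [Nontrivial E] (v : List ℕ) (j : ℕ) (hn : (j :: v).Nodup) (hodd : v.length.bodd = true) (hlen : 3 ≤ v.length)
    {w k : FB} (hk : (w, k) ∈ TP j) (hw : Full v.toFinset w) (Ms : List (List ℕ)) (hM : ∀ L ∈ Ms, L.Perm v) {f : FB}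
    (hf : ∀ (u : ℕ → F) (a b c : F), evx e (trv u j a b c) f
      = K.tau (K.t a) (K.t b) (K.t c) • (Ms.map (fun L => wE K (fun i => K.t (u i)) L)).sum)
    (h : ∀ (u : ℕ → F) (a b c : F), evx e (trv u j a b c) (k + Xl j * XL v * Xl j ^ 2 + f) = 0) : False := by
  obtain ⟨W, hW, hEw⟩ := E4.X.full_words hw
  rw [List.nodup_cons] at hn
  obtain ⟨hjv, hv⟩ := hn
  have hval : (v.toFinset).val = (v : Multiset ℕ) := by
    rw [List.toFinset_val, hv.dedup]
  refine odf (K := K) v hv hodd hlen (W ++ Ms) (fun L hL => ?_) (fun u a b c => ?_)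
  · rcases List.mem_append.1 hL with hL | hL
    · have := hW L hL
      rw [hval] at this
      exact Multiset.coe_eq_coe.1 this
    · exact hM L hL
  · have h0 := h u a b c
    rw [map_add, map_add, hf] at h0
    have h1 := M.TP_ev (fun i => u i ^ 2) a b c hk
    have h2 := M.trv_w u (j := j) (H := v.toFinset) (by rwa [List.mem_toFinset]) hw.inn hEw
    have h3 := M.cyc_ev (fun i => u i ^ 2) j a b c (XL v)
    have h4 := M.trv_XL u a b c hjv
    unfold trv at h0 h4
    rw [h1, h2, h3, h4] at h0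
    rw [List.map_append, List.sum_append, smul_add, ← h0]
    abel

end

end P

end E4
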