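import Pool.Agent.Lib.MP_8a95e3_al.F4

/-!
# QCI : the polynomial `q` and the identity (CI)

All letters are in `Λ = Lam ρ`, which is closed under `br`.  Only `s_3 = 0` and `f_4 = 0` on `Λ` are used.
-/

namespace E4

section

variable {H R : Type*} [Group H] [Ring R] {ρ : H →* R}

private theorem QCI_two (hc : Cub ρ) (r : R) : (2 : ℤ) • r = 0 := by
  rw [two_zsmul]
  exact two_zero hc r

private theorem QCI_four (hc : Cub ρ) (r : R) : (4 : ℤ) • r = 0 := by
  have e : (4 : ℤ) • r = (2 : ℤ) • r + (2 : ℤ) • r := by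
    rw [← add_smul]
    norm_num
  rw [e, QCI_two hc, add_zero]

private theorem QCI_eq (hc : Cub ρ) {x y : R} (h : x + y = 0) : x = y := by
  have h1 : x + y + y = y := by rw [h, zero_add]
  rw [add_assoc, two_zero hc y, add_zero] at h1
  exact h1

/-- `q(a,b;w,v)` is symmetric in `a,b`. -/
theorem q4_symm (hc : Cub ρ) {a b w v : R} (ha : a ∈ Lam ρ) (hb : b ∈ Lam ρ) (hw : w ∈ Lam ρ)
    (hv : v ∈ Lam ρ) : q4 a b w v = q4 b a w v := by
  have z1 : s3 (br a b) w v = 0 := s3_lam hc (br_mem hc ha hb) hw hv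
  have z2 : s3 a b v = 0 := s3_lam hc ha hb hv
  apply QCI_eq hc
  have key : q4 a b w v + q4 b a w v + s3 (br a b) w v + w * s3 a b v = 0 := by
    simp only [q4, s3, br, mul_add, add_mul, ← mul_assoc]
    abel_nf
    simp only [QCI_two hc, add_zero]
  rw [z1, z2, mul_zero, add_zero, add_zero] at key
  exact key

/-- `[[a,b],c]u = q(b,c;a,u) + q(a,c;b,u)`. -/
theorem br3_mul (hc : Cub ρ) {a b c u : R} (ha : a ∈ Lam ρ) (hb : b ∈ Lam ρ) (hcc : c ∈ Lam ρ)
    (hu : u ∈ Lam ρ) : br (br a b) c * u = q4 b c a u + q4 a c b u := by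
  have z1 : s3 a b c = 0 := s3_lam hc ha hb hcc
  apply QCI_eq hc
  have key : br (br a b) c * u + (q4 b c a u + q4 a c b u) + s3 a b c * u = 0 := by
    simp only [q4, s3, br, mul_add, add_mul, ← mul_assoc]
    abel_nf
    simp only [QCI_two hc, add_zero]
  rw [z1, zero_mul, add_zero] at key
  exact key

private theorem QCI_id (hc : Cub ρ) (a b w v u : R) :
    q4 a b w v * u + w * q4 a b v u + (f4 a b w v * u + f4 a w u (br b v) + f4 b w u (br a v) +
      f4 w v u (br a b) + w * s3 a (br b u) v + s3 a (br w v) u * b + b * u * s3 a w v +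
      w * b * s3 a v u + w * a * s3 b v u + u * w * s3 a b v + s3 a v u * b * w +
      s3 (br a w) v u * b + s3 (br a b) w v * u + s3 a b u * w * v + s3 b (br w u) v * a +
      s3 b v u * a * w + s3 b v u * w * a + v * u * s3 a b w + w * v * s3 a b u +
      s3 a b (br w u) * v + s3 (br a b) (br w v) u + a * u * s3 b w v + s3 a b u * v * w) = 0 := by
  simp only [q4, s3, f4, br, mul_add, add_mul, ← mul_assoc]
  abel_nf
  simp only [QCI_two hc, QCI_four hc, add_zero]

/-- **(CI)** `q(a,b;w,v) u = w q(a,b;v,u)`. -/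
theorem q4_ci (hc : Cub ρ) {a b w v u : R} (ha : a ∈ Lam ρ) (hb : b ∈ Lam ρ) (hw : w ∈ Lam ρ)
    (hv : v ∈ Lam ρ) (hu : u ∈ Lam ρ) : q4 a b w v * u = w * q4 a b v u := by
  apply QCI_eq hc
  have key := QCI_id hc a b w v u
  rw [f4_lam hc ha hb hw hv, f4_lam hc ha hw hu (br_mem hc hb hv), f4_lam hc hb hw hu (br_mem hc ha hv),
    f4_lam hc hw hv hu (br_mem hc ha hb), s3_lam hc ha (br_mem hc hb hu) hv,
    s3_lam hc ha (br_mem hc hw hv) hu, s3_lam hc ha hw hv, s3_lam hc ha hv hu, s3_lam hc hb hv hu,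
    s3_lam hc ha hb hv, s3_lam hc (br_mem hc ha hw) hv hu, s3_lam hc (br_mem hc ha hb) hw hv,
    s3_lam hc ha hb hu, s3_lam hc hb (br_mem hc hw hu) hv, s3_lam hc ha hb hw,
    s3_lam hc ha hb (br_mem hc hw hu), s3_lam hc (br_mem hc ha hb) (br_mem hc hw hv) hu,
    s3_lam hc hb hw hv] at key
  simp only [mul_zero, zero_mul, add_zero] at key
  exact key

end

end E4
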