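import Pool.Agent.Lib.MP_8a95e3_al.PI8
import Pool.Agent.Lib.MP_8a95e3_al.NF4

/-!
# XF : finite forms of the inputs of Theorem D
-/

noncomputable section

namespace E4.X

open E4

/-- the first two generators -/
def RG2 : Set FB := {t2 (x 0) (x 1), c3 (x 0) (x 1) (x 2)}

/-- The finite identities of the three generators which are needed for Theorem D: they are killed by the squares
(minus one) on both sides and they do not change if a letter is multiplied by a square; for `c_4` the latter is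
needed only modulo the first two generators. -/
structure GenF : Prop where
  t2l : ∀ a b c : F, C (c ^ 2) * t2 a b ∈ K0
  t2r : ∀ a b c : F, t2 a b * C (c ^ 2) ∈ K0
  t2a : ∀ a b c : F, t2 (a * c ^ 2) b + t2 a b ∈ K0
  t2b : ∀ a b c : F, t2 a (b * c ^ 2) + t2 a b ∈ K0
  c3l : ∀ a g h c : F, C (c ^ 2) * c3 a g h ∈ K0
  c3r : ∀ a g h c : F, c3 a g h * C (c ^ 2) ∈ K0
  c3a : ∀ a g h c : F, c3 (a * c ^ 2) g h + c3 a g h ∈ K0
  c3b : ∀ a g h c : F, c3 a (g * c ^ 2) h + c3 a g h ∈ K0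
  c3c : ∀ a g h c : F, c3 a g (h * c ^ 2) + c3 a g h ∈ K0
  c4l : ∀ g w h y c : F, C (c ^ 2) * c4 g w h y ∈ K0
  c4r : ∀ g w h y c : F, c4 g w h y * C (c ^ 2) ∈ K0
  c4a : ∀ g w h y c : F, c4 (g * c ^ 2) w h y + c4 g w h y ∈ PG RG2
  c4b : ∀ g w h y c : F, c4 g (w * c ^ 2) h y + c4 g w h y ∈ PG RG2
  c4c : ∀ g w h y c : F, c4 g w (h * c ^ 2) y + c4 g w h y ∈ PG RG2
  c4d : ∀ g w h y c : F, c4 g w h (y * c ^ 2) + c4 g w h y ∈ PG RG2

private theorem XF_cancel (a b c : FB) : a + b + (b + c) = a + c := by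
  have h := fb_add_self b
  calc a + b + (b + c) = a + (b + b) + c := by abel
    _ = a + c := by rw [h, add_zero]

/-- products of squares -/
theorem XF_sq {f : F → FB} {Q : AddSubgroup FB} (h : ∀ a c, f (a * c ^ 2) + f a ∈ Q) {s : F} (hs : s ∈ N.N2) :
    ∀ a, f (a * s) + f a ∈ Q := by
  unfold N.N2 at hs
  induction hs using Subgroup.closure_induction with
  | mem y hy =>
    obtain ⟨c, rfl⟩ := hy
    exact fun a => h a c
  | one =>
    intro a
    rw [mul_one, fb_add_self]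
    exact zero_mem _
  | mul u v _ _ hu hv =>
    intro a
    have h1 := add_mem (hv (a * u)) (hu a)
    rwa [XF_cancel, mul_assoc] at h1
  | inv u _ hu =>
    intro a
    have h1 := hu (a * u⁻¹)
    rw [inv_mul_cancel_right] at h1
    rwa [add_comm]

theorem XF_cl {f : F → FB} {Q : AddSubgroup FB} (h : ∀ a c, f (a * c ^ 2) + f a ∈ Q) {u v : F}
    (huv : N.cl u = N.cl v) : f u + f v ∈ Q := by
  have h1 : v⁻¹ * u ∈ N.N2 := by
    apply N.mem_N2_of_cl
    rw [N.cl_mul, N.cl_inv, huv, neg_add_cancel]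
  have h2 := XF_sq h h1 v
  rwa [mul_inv_cancel_left] at h2

theorem eB_t2 (φ : F →* F) (a b : F) : eB φ (t2 a b) = t2 (φ a) (φ b) := by
  unfold t2
  simp only [map_mul, eB_T, eB_C]

theorem eB_kap (φ : F →* F) (a h : F) : eB φ (kap a h) = kap (φ a) (φ h) := by
  unfold kap
  simp only [map_add, map_mul, eB_T, eB_C, map_inv]

theorem eB_nuT (φ : F →* F) (a h g : F) : eB φ (nuT a h g) = nuT (φ a) (φ h) (φ g) := by
  unfold nuT
  simp only [map_add, map_mul, eB_T, eB_C, eB_o, map_inv]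

theorem eB_c3 (φ : F →* F) (a g h : F) : eB φ (c3 a g h) = c3 (φ a) (φ g) (φ h) := by
  unfold c3
  rw [map_add, map_mul, eB_C, eB_kap, eB_nuT]

theorem eB_u2 (φ : F →* F) (g h : F) : eB φ (u2 g h) = u2 (φ g) (φ h) := by
  unfold u2
  simp only [map_add, map_mul, eB_T, eB_C, map_inv]

theorem eB_tt (φ : F →* F) (g h y : F) : eB φ (tt g h y) = tt (φ g) (φ h) (φ y) := by
  unfold tt
  simp only [map_add, map_mul, eB_T, eB_C, eB_u2, map_inv]

theorem eB_c4 (φ : F →* F) (g w h y : F) : eB φ (c4 g w h y) = c4 (φ g) (φ w) (φ h) (φ y) := by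
  unfold c4
  simp only [map_add, map_mul, eB_C, eB_tt]

theorem RG2_sub {r : FB} (hr : r ∈ RG2) : r ∈ RG := by
  rcases hr with h | h
  · exact Or.inl h
  · exact Or.inr (Or.inl h)

theorem K0_le_RG2 : K0 ≤ PG RG2 := K0_le (PG_TI _)

theorem RG2_le : PG RG2 ≤ PG RG := by
  refine PG_le (PG_TI _) fun r hr => ?_
  have h1 := PG_mem (RG2_sub hr) (MonoidHom.id F)
  rwa [eB_id _ (fun i => rfl)] at h1

/-- insensitivity of the first two generators -/
theorem GenF.ins2 (H : GenF) {r : FB} (hr : r ∈ RG2) (φ ψ : F →* F) (h : ∀ j, N.cl (φ (x j)) = N.cl (ψ (x j))) :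
    eB φ r + eB ψ r ∈ K0 := by
  rcases hr with rfl | rfl
  · rw [eB_t2, eB_t2]
    have h1 := XF_cl (f := fun a => t2 a (φ (x 1))) (fun a c => H.t2a a _ c) (h 0)
    have h2 := XF_cl (f := fun b => t2 (ψ (x 0)) b) (fun b c => H.t2b _ b c) (h 1)
    have h3 := add_mem h1 h2
    rwa [XF_cancel] at h3
  · rw [eB_c3, eB_c3]
    have h1 := XF_cl (f := fun a => c3 a (φ (x 1)) (φ (x 2))) (fun a c => H.c3a a _ _ c) (h 0)
    have h2 := XF_cl (f := fun b => c3 (ψ (x 0)) b (φ (x 2))) (fun b c => H.c3b _ b _ c) (h 1)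
    have h3 := XF_cl (f := fun b => c3 (ψ (x 0)) (ψ (x 1)) b) (fun b c => H.c3c _ _ b c) (h 2)
    have h4 := add_mem (add_mem h1 h2) h3
    rwa [XF_cancel, XF_cancel] at h4

/-- insensitivity of the generators -/
theorem GenF.ins (H : GenF) {r : FB} (hr : r ∈ RG) (φ ψ : F →* F) (h : ∀ j, N.cl (φ (x j)) = N.cl (ψ (x j))) :
    eB φ r + eB ψ r ∈ PG RG2 := by
  rcases hr with hr | hr | rfl
  · exact K0_le_RG2 (H.ins2 (Or.inl hr) φ ψ h)
  · exact K0_le_RG2 (H.ins2 (Or.inr hr) φ ψ h)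
  · rw [eB_c4, eB_c4]
    have h1 := XF_cl (f := fun a => c4 a (φ (x 1)) (φ (x 2)) (φ (x 3))) (fun a c => H.c4a a _ _ _ c) (h 0)
    have h2 := XF_cl (f := fun b => c4 (ψ (x 0)) b (φ (x 2)) (φ (x 3))) (fun b c => H.c4b _ b _ _ c) (h 1)
    have h3 := XF_cl (f := fun b => c4 (ψ (x 0)) (ψ (x 1)) b (φ (x 3))) (fun b c => H.c4c _ _ b _ c) (h 2)
    have h4 := XF_cl (f := fun b => c4 (ψ (x 0)) (ψ (x 1)) (ψ (x 2)) b) (fun b c => H.c4d _ _ _ b c) (h 3)
    have h5 := add_mem (add_mem (add_mem h1 h2) h3) h4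
    rwa [XF_cancel, XF_cancel, XF_cancel] at h5

private theorem XF_move (g a : F) : C (g ^ 2) * o a = o a * C ((a⁻¹ * g * a) ^ 2) := by
  have e : a * (a⁻¹ * g * a) ^ 2 = g ^ 2 * a := by
    simp only [pow_two, mul_assoc, mul_inv_cancel_left]
  unfold C
  rw [add_mul, mul_add, ← map_mul, ← map_mul, e, one_mul, mul_one]

private theorem XF_move' (g a : F) : o a * C (g ^ 2) = C ((a * g * a⁻¹) ^ 2) * o a := by
  have e : (a * g * a⁻¹) ^ 2 * a = a * g ^ 2 := by
    simp only [pow_two, mul_assoc, inv_mul_cancel, inv_mul_cancel_left, mul_one]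
  unfold C
  rw [add_mul, mul_add, ← map_mul, ← map_mul, e, one_mul, mul_one]

theorem GenF.gl (H : GenF) {r : FB} (hr : r ∈ RG) (φ : F →* F) (g : F) : C (g ^ 2) * eB φ r ∈ K0 := by
  rcases hr with rfl | rfl | rfl
  · rw [eB_t2]
    exact H.t2l _ _ _
  · rw [eB_c3]
    exact H.c3l _ _ _ _
  · rw [eB_c4]
    exact H.c4l _ _ _ _ _

theorem GenF.gr (H : GenF) {r : FB} (hr : r ∈ RG) (φ : F →* F) (g : F) : eB φ r * C (g ^ 2) ∈ K0 := by
  rcases hr with rfl | rfl | rfl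
  · rw [eB_t2]
    exact H.t2r _ _ _
  · rw [eB_c3]
    exact H.c3r _ _ _ _
  · rw [eB_c4]
    exact H.c4r _ _ _ _ _

/-- the squares kill the T-ideal of the generators from the left -/
theorem GenF.jl (H : GenF) (g : F) {q : FB} (hq : q ∈ PG RG) : C (g ^ 2) * q ∈ K0 := by
  have hK := K0_TI
  unfold PG idl at hq
  induction hq using AddSubgroup.closure_induction with
  | mem y hy =>
    obtain ⟨a, b, s, hs, rfl⟩ := hy
    have e : C (g ^ 2) * (o a * s * o b) = o a * (C ((a⁻¹ * g * a) ^ 2) * s) * o b := by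
      rw [← mul_assoc, ← mul_assoc, XF_move]
      simp only [mul_assoc]
    rw [e]
    refine hK.right _ _ (hK.left _ _ ?_)
    rcases hs with ⟨h, rfl⟩ | ⟨φ, r, hr, rfl⟩
    · exact hK.left _ _ (hK.cube h)
    · exact H.gl hr φ _
  | zero =>
    rw [mul_zero]
    exact zero_mem _
  | add a b _ _ ha hb =>
    rw [mul_add]
    exact add_mem ha hb
  | neg a _ ha =>
    rw [mul_neg]
    exact neg_mem ha

theorem GenF.jr (H : GenF) (g : F) {q : FB} (hq : q ∈ PG RG) : q * C (g ^ 2) ∈ K0 := by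
  have hK := K0_TI
  unfold PG idl at hq
  induction hq using AddSubgroup.closure_induction with
  | mem y hy =>
    obtain ⟨a, b, s, hs, rfl⟩ := hy
    have e : o a * s * o b * C (g ^ 2) = o a * (s * C ((b * g * b⁻¹) ^ 2)) * o b := by
      rw [mul_assoc, XF_move']
      simp only [mul_assoc]
    rw [e]
    refine hK.right _ _ (hK.left _ _ ?_)
    rcases hs with ⟨h, rfl⟩ | ⟨φ, r, hr, rfl⟩
    · exact hK.right _ _ (hK.cube h)
    · exact H.gr hr φ _
  | zero =>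
    rw [zero_mul]
    exact zero_mem _
  | add a b _ _ ha hb =>
    rw [add_mul]
    exact add_mem ha hb
  | neg a _ ha =>
    rw [neg_mul]
    exact neg_mem ha

theorem tob_sqe (g : F) : tob (sqe ofF g) = C (g ^ 2) := by
  unfold sqe C
  rw [map_add, map_one, map_pow, tob_of, map_pow]

/-- cancellation of the squares modulo a maximal insoluble T-ideal -/
theorem sq_cancel (P : AddSubgroup FA) (hP : TIdl P) (hPw : ∀ m, wA ofF m ∉ P)
    (hmax : ∀ Q : AddSubgroup FA, TIdl Q → P ≤ Q → (∀ m, wA ofF m ∉ Q) → Q ≤ P) {q : FB}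
    (h : ∀ g : F, C (g ^ 2) * q ∈ mB P) : q ∈ mB P := by
  obtain ⟨A, _, T, hT⟩ := exists_TPr_ker P hP hPw hmax
  obtain ⟨f, rfl⟩ := tob_surj q
  rw [mem_mB hP, ← hT]
  refine T.left_zero _ fun g => ?_
  have h1 := h g
  rw [← tob_sqe, ← map_mul, mem_mB hP, ← hT, map_mul] at h1
  have h2 : ev T.ρ (sqe ofF g) = T.t g := by
    unfold sqe TPr.t sqe
    rw [map_add, map_one, map_pow, ev_of]
  rw [h2] at h1
  exact h1

/-- the generators vanish in the model -/
theorem GenF.le (H : GenF) (P : AddSubgroup FA) (hP : TIdl P) (hPw : ∀ m, wA ofF m ∉ P)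
    (hmax : ∀ Q : AddSubgroup FA, TIdl Q → P ≤ Q → (∀ m, wA ofF m ∉ Q) → Q ≤ P) : PG RG ≤ mB P := by
  refine PG_le (mB_TI hP) fun r hr => sq_cancel P hP hPw hmax fun g => ?_
  have h1 := H.jl g (PG_mem hr (MonoidHom.id F))
  rw [eB_id _ (fun i => rfl)] at h1
  exact K0_le (mB_TI hP) h1

/-- **Chains between `Ω K0` and `Ω P`.** -/
theorem GenF.oacc (H : GenF) (P : AddSubgroup FA) (hP : TIdl P) (hex : mB P = PG RG) : N.OAcc (cB K0) P := by
  obtain ⟨r0, hr0⟩ := tob_surj (t2 (x 0) (x 1))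
  obtain ⟨r1, hr1⟩ := tob_surj (c3 (x 0) (x 1) (x 2))
  obtain ⟨r2, hr2⟩ := tob_surj (c4 (x 0) (x 1) (x 2) (x 3))
  have h0 : t2 (x 0) (x 1) ∈ RG2 := Or.inl rfl
  have h1 : c3 (x 0) (x 1) (x 2) ∈ RG2 := Or.inr rfl
  have h2 : c4 (x 0) (x 1) (x 2) (x 3) ∈ RG := Or.inr (Or.inr rfl)
  have hid : ∀ {R : Set FB} {r : FB}, r ∈ R → r ∈ PG R := by
    intro R r hr
    have := PG_mem hr (MonoidHom.id F)
    rwa [eB_id _ (fun i => rfl)] at this
  have hQT : TIdl (cB (PG RG2)) := cB_TIdl (PG_TI _)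
  have hKQ : cB K0 ≤ cB (PG RG2) := fun f hf => K0_le_RG2 hf
  have hQP : cB (PG RG2) ≤ P := fun f hf => (mem_mB hP).1 (by
    rw [hex]
    exact RG2_le hf)
  have hPG : ∀ p ∈ P, tob p ∈ PG RG := fun p hp => by
    rw [← hex]
    exact ⟨p, hp, rfl⟩
  have hl : ∀ g : F, ∀ p ∈ P, sqe ofF g * p ∈ cB K0 := by
    intro g p hp
    rw [mem_cB, map_mul, tob_sqe]
    exact H.jl g (hPG p hp)
  have hr : ∀ g : F, ∀ p ∈ P, p * sqe ofF g ∈ cB K0 := by
    intro g p hp
    rw [mem_cB, map_mul, tob_sqe]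
    exact H.jr g (hPG p hp)
  refine N.OAcc.trans hQT hKQ hQP ?_ ?_
  · -- the first step
    obtain ⟨r, hr'⟩ : ∃ r : Fin 2 → FA, r = ![r0, r1] := ⟨_, rfl⟩
    have e0 : tob (r 0) = t2 (x 0) (x 1) := by rw [hr']; exact hr0
    have e1 : tob (r 1) = c3 (x 0) (x 1) (x 2) := by rw [hr']; exact hr1
    have hrG : ∀ i, tob (r i) ∈ RG2 := by
      intro i
      fin_cases i
      · exact e0.symm ▸ h0
      · exact e1.symm ▸ h1
    refine N.omega_acc (cB_TIdl K0_TI) hQT r (fun i => hid (hrG i)) ?_ ?_ ?_ ?_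
    · refine gen_form (R := RG2) r ?_ ?_
      · rintro q (rfl | rfl)
        · exact ⟨0, e0⟩
        · exact ⟨1, e1⟩
      · rintro _ ⟨p, hp, rfl⟩
        exact hp
    · intro i φ ψ h
      rw [mem_cB, map_sub, tob_eA, tob_eA, sub_eq_add_neg, fb_neg]
      exact H.ins2 (hrG i) φ ψ h
    · exact fun g p hp => hl g p (hQP hp)
    · exact fun g p hp => hr g p (hQP hp)
  · -- the second step
    obtain ⟨r, hr'⟩ : ∃ r : Fin 3 → FA, r = ![r0, r1, r2] := ⟨_, rfl⟩
    have e0 : tob (r 0) = t2 (x 0) (x 1) := by rw [hr']; exact hr0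
    have e1 : tob (r 1) = c3 (x 0) (x 1) (x 2) := by rw [hr']; exact hr1
    have e2 : tob (r 2) = c4 (x 0) (x 1) (x 2) (x 3) := by rw [hr']; exact hr2
    have hrG : ∀ i, tob (r i) ∈ RG := by
      intro i
      fin_cases i
      · exact e0.symm ▸ RG2_sub h0
      · exact e1.symm ▸ RG2_sub h1
      · exact e2.symm ▸ h2
    refine N.omega_acc hQT hP r (fun i => (mem_mB hP).1 (by
      rw [hex]
      exact hid (hrG i))) ?_ ?_ ?_ ?_
    · refine le_trans (gen_form (R := RG) r ?_ (le_of_eq hex)) (sup_le_sup_right hKQ _)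
      rintro q (rfl | rfl | rfl)
      · exact ⟨0, e0⟩
      · exact ⟨1, e1⟩
      · exact ⟨2, e2⟩
    · intro i φ ψ h
      rw [mem_cB, map_sub, tob_eA, tob_eA, sub_eq_add_neg, fb_neg]
      exact H.ins (hrG i) φ ψ h
    · exact fun g p hp => hKQ (hl g p hp)
    · exact fun g p hp => hKQ (hr g p hp)

end E4.X
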