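import Pool.Agent.Lib.MP_8a95e3_al.NY4
import Pool.Agent.Lib.MP_8a95e3_al.XF

/-!
# RA1 : chains of subgroups of the group ring, stable under the letters `2, 3, …` (the letters `0`, `1` are fixed)

`sh2` = shift of the letters by two, `pl2 φ` = the endomorphism which fixes `x 0`, `x 1` and acts as `φ` on the group of
the letters `x 2, x 3, …`.  `RAcc R W` : chains of stable subgroups between `W` and `R ⊔ W` stabilise.
-/

noncomputable section

namespace E4.RA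

open E4 E4.X E4.N

/-- shift by two -/
def sh2 : F →* F := FreeGroup.lift fun j => x (j + 2)

/-- fixes `x 0`, `x 1`, acts as `φ` on the other letters -/
def pl2 (φ : F →* F) : F →* F := FreeGroup.lift fun j => if j = 0 then x 0 else if j = 1 then x 1 else sh2 (φ (x (j - 2)))

/-- kills `x 0`, `x 1` and shifts back -/
def un2 : F →* F := FreeGroup.lift fun j => if j = 0 then 1 else if j = 1 then 1 else x (j - 2)

theorem sh2_x (j : ℕ) : sh2 (x j) = x (j + 2) := by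
  unfold sh2
  exact FreeGroup.lift_apply_of

theorem pl2_zero (φ : F →* F) : pl2 φ (x 0) = x 0 := by
  unfold pl2
  exact FreeGroup.lift_apply_of

theorem pl2_one (φ : F →* F) : pl2 φ (x 1) = x 1 := by
  unfold pl2
  exact FreeGroup.lift_apply_of

theorem pl2_succ (φ : F →* F) (j : ℕ) : pl2 φ (x (j + 2)) = sh2 (φ (x j)) := by
  unfold pl2
  exact FreeGroup.lift_apply_of

theorem un2_zero : un2 (x 0) = 1 := by
  unfold un2
  exact FreeGroup.lift_apply_of

theorem un2_one : un2 (x 1) = 1 := by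
  unfold un2
  exact FreeGroup.lift_apply_of

theorem un2_succ (j : ℕ) : un2 (x (j + 2)) = x j := by
  unfold un2
  exact FreeGroup.lift_apply_of

/-- PROOF: both sides are homomorphisms in `w`; `FreeGroup.ext_hom` / `E4.X.hom_ext` for `(pl2 φ).comp sh2` and `sh2.comp φ`. -/
theorem pl2_sh2 (φ : F →* F) (w : F) : pl2 φ (sh2 w) = sh2 (φ w) := by
  refine hom_ext' (φ := (pl2 φ).comp sh2) (ψ := sh2.comp φ) (fun j => ?_) w
  rw [MonoidHom.comp_apply, MonoidHom.comp_apply, sh2_x, pl2_succ]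

theorem un2_sh2 (w : F) : un2 (sh2 w) = w := by
  refine hom_ext' (φ := un2.comp sh2) (ψ := MonoidHom.id F) (fun j => ?_) w
  rw [MonoidHom.comp_apply, sh2_x, un2_succ, MonoidHom.id_apply]

theorem un2_pl2 (φ : F →* F) (w : F) : un2 (pl2 φ w) = φ (un2 w) := by
  refine hom_ext' (φ := un2.comp (pl2 φ)) (ψ := φ.comp un2) (fun j => ?_) w
  rw [MonoidHom.comp_apply, MonoidHom.comp_apply]
  match j with
  | 0 => rw [pl2_zero, un2_zero, map_one]
  | 1 => rw [pl2_one, un2_one, map_one]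
  | j + 2 => rw [pl2_succ, un2_succ, un2_sh2]

/-- PROOF: compare on the letters `0`, `1`, `j + 2` (`E4.X.rp_x`). -/
theorem sh2_un2 (g : F) : sh2 (un2 g) = rp 0 1 (rp 1 1 g) := by
  refine hom_ext' (φ := sh2.comp un2) (ψ := (rp 0 1).comp (rp 1 1)) (fun j => ?_) g
  rw [MonoidHom.comp_apply, MonoidHom.comp_apply]
  match j with
  | 0 =>
    rw [un2_zero, map_one, rp_x, if_neg (by decide), rp_x, if_pos rfl]
  | 1 =>
    rw [un2_one, map_one, rp_x, if_pos rfl, map_one]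
  | j + 2 =>
    rw [un2_succ, sh2_x, rp_x, if_neg (by omega), rp_x, if_neg (by omega)]

theorem fr_sh2 (w : F) : Fr 0 1 (sh2 w) := by
  refine ⟨?_, ?_⟩
  · refine hom_ext' (φ := (rp 0 1).comp sh2) (ψ := sh2) (fun j => ?_) w
    rw [MonoidHom.comp_apply, sh2_x, rp_x, if_neg (by omega)]
  · refine hom_ext' (φ := (rp 1 1).comp sh2) (ψ := sh2) (fun j => ?_) w
    rw [MonoidHom.comp_apply, sh2_x, rp_x, if_neg (by omega)]

/-- PROOF: `sh2_un2`. -/
theorem sh2_of_fr {g : F} (h : Fr 0 1 g) : sh2 (un2 g) = g := by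
  rw [sh2_un2, h.2, h.1]

/-- PROOF: `pl2 φ (sh2 (un2 g)) = sh2 (φ (un2 g))`. -/
theorem fr_pl2 (φ : F →* F) {g : F} (h : Fr 0 1 g) : Fr 0 1 (pl2 φ g) := by
  have h1 : pl2 φ g = sh2 (φ (un2 g)) := by
    rw [← pl2_sh2, sh2_of_fr h]
  rw [h1]
  exact fr_sh2 _

/-- stable under all `pl2 φ` -/
def St2 (Q : AddSubgroup FB) : Prop := ∀ φ : F →* F, ∀ r ∈ Q, eB (pl2 φ) r ∈ Q

theorem St2.sup {A B : AddSubgroup FB} (hA : St2 A) (hB : St2 B) : St2 (A ⊔ B) := by
  intro φ r hr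
  obtain ⟨a, ha, b, hb, rfl⟩ := AddSubgroup.mem_sup.1 hr
  rw [map_add]
  exact add_mem (AddSubgroup.mem_sup_left (hA φ a ha)) (AddSubgroup.mem_sup_right (hB φ b hb))

theorem St2.inf {A B : AddSubgroup FB} (hA : St2 A) (hB : St2 B) : St2 (A ⊓ B) :=
  fun φ r hr => ⟨hA φ r hr.1, hB φ r hr.2⟩

/-- chains of stable subgroups between `W` and `R ⊔ W` stabilise -/
def RAcc (R W : AddSubgroup FB) : Prop :=
  ∀ Q : ℕ → AddSubgroup FB, Monotone Q → (∀ n, W ≤ Q n) → (∀ n, Q n ≤ R ⊔ W) → (∀ n, St2 (Q n)) →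
    ∃ n, ∀ m ≥ n, Q m = Q n

theorem racc_mono {R R' W : AddSubgroup FB} (h : R' ≤ R ⊔ W) (hR : RAcc R W) : RAcc R' W :=
  fun Q hQ hW hg hs => hR Q hQ hW (fun n => le_trans (hg n) (sup_le h le_sup_right)) hs

/-- PROOF: the chains `Q n ⊔ B` (between `B` and `A ⊔ B`) and `Q n ⊓ B` (between `W` and `((A ⊔ W) ⊓ B) ⊔ W`) are stable and stabilise; if
`Q n ≤ Q m`, `Q n ⊔ B = Q m ⊔ B` and `Q n ⊓ B = Q m ⊓ B` then `Q n = Q m`: for `q ∈ Q m` write `q = q' + b`, `q' ∈ Q n`, `b ∈ B`, then `b ∈ Q m ⊓ B`. -/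
theorem racc_step {A B W : AddSubgroup FB} (hW : W ≤ B) (hB : St2 B) (h1 : RAcc A B) (h2 : RAcc ((A ⊔ W) ⊓ B) W) : RAcc A W := by
  intro Q hQ hWQ hQA hst
  obtain ⟨n1, hn1⟩ := h1 (fun n => Q n ⊔ B) (fun a b hab => sup_le_sup_right (hQ hab) B)
    (fun n => le_sup_right)
    (fun n => sup_le (le_trans (hQA n) (sup_le le_sup_left (le_trans hW le_sup_right))) le_sup_right)
    (fun n => (hst n).sup hB)
  obtain ⟨n2, hn2⟩ := h2 (fun n => Q n ⊓ B) (fun a b hab => inf_le_inf_right B (hQ hab))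
    (fun n => le_inf (hWQ n) hW)
    (fun n => le_trans (inf_le_inf_right B (hQA n)) le_sup_left)
    (fun n => (hst n).inf hB)
  refine ⟨max n1 n2, fun m hm => ?_⟩
  have hm1 : Q m ⊔ B = Q (max n1 n2) ⊔ B := by
    have e1 := hn1 m (le_trans (le_max_left _ _) hm)
    have e2 := hn1 (max n1 n2) (le_max_left _ _)
    exact e1.trans e2.symm
  have hm2 : Q m ⊓ B = Q (max n1 n2) ⊓ B := by
    have e1 := hn2 m (le_trans (le_max_right _ _) hm)
    have e2 := hn2 (max n1 n2) (le_max_right _ _)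
    exact e1.trans e2.symm
  refine le_antisymm ?_ (hQ hm)
  intro q hq
  have hq1 : q ∈ Q (max n1 n2) ⊔ B := by
    rw [← hm1]
    exact AddSubgroup.mem_sup_left hq
  obtain ⟨q', hq', b, hb, hqb⟩ := AddSubgroup.mem_sup.1 hq1
  have hb2 : b ∈ Q m := by
    have e : b = q - q' := by rw [← hqb]; abel
    rw [e]
    exact sub_mem hq (hQ hm hq')
  have hb3 : b ∈ Q (max n1 n2) ⊓ B := by
    rw [← hm2]
    exact ⟨hb2, hb⟩
  rw [← hqb]
  exact add_mem hq' hb3.1

/-- PROOF: for a chain `Q n` between `W'` and `R ⊔ W'` take `Q n ⊓ (R ⊔ W)`, a chain of stable subgroups between `W` and `R ⊔ W`.  And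
`Q n = W' ⊔ (Q n ⊓ (R ⊔ W))`: `q = r + w'` gives `r = q - w' ∈ Q n`. -/
theorem racc_up {R W W' : AddSubgroup FB} (hW : W ≤ W') (hR : St2 R) (hWs : St2 W) (h : RAcc R W) : RAcc R W' := by
  intro Q hQ hWQ hQR hst
  obtain ⟨n1, hn1⟩ := h (fun n => Q n ⊓ (R ⊔ W)) (fun a b hab => inf_le_inf_right _ (hQ hab))
    (fun n => le_inf (le_trans hW (hWQ n)) le_sup_right)
    (fun n => inf_le_right)
    (fun n => (hst n).inf (hR.sup hWs))
  refine ⟨n1, fun m hm => ?_⟩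
  refine le_antisymm ?_ (hQ hm)
  intro q hq
  obtain ⟨r, hr, w, hw, hrw⟩ := AddSubgroup.mem_sup.1 (hQR m hq)
  have hr2 : r ∈ Q m := by
    have e : r = q - w := by rw [← hrw]; abel
    rw [e]
    exact sub_mem hq (hWQ m hw)
  have hr3 : r ∈ Q m ⊓ (R ⊔ W) := ⟨hr2, AddSubgroup.mem_sup_left hr⟩
  have e1 := hn1 m hm
  have hr4 : r ∈ Q n1 ⊓ (R ⊔ W) := by
    have e2 : Q m ⊓ (R ⊔ W) = Q n1 ⊓ (R ⊔ W) := e1
    rw [← e2]
    exact hr3
  rw [← hrw]
  exact add_mem hr4.1 (hWQ n1 hw)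

/-- PROOF: `racc_step` with `B ⊔ W` in the place of `B` and `A ⊔ B` in the place of `A`: the first hypothesis is `racc_up` (and `racc_mono`), the second is
`racc_mono` of `h2`. -/
theorem racc_sup {A B W : AddSubgroup FB} (hA : St2 A) (hB : St2 B) (hW : St2 W) (h1 : RAcc A W) (h2 : RAcc B W) : RAcc (A ⊔ B) W := by
  refine racc_step (A := A ⊔ B) (B := B ⊔ W) le_sup_right (hB.sup hW) ?_ ?_
  · refine racc_mono (R := A) ?_ (racc_up le_sup_right hA hW h1)
    exact sup_le le_sup_left (le_trans le_sup_left le_sup_right)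
  · refine racc_mono (R := B) ?_ h2
    exact inf_le_right

end E4.RA
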