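import Pool.Agent.Lib.MP_8a95e3_al.RA2a

/-!
# RA2 : chains for functions of group elements which do not change if an argument is multiplied by a square
-/

noncomputable section

namespace E4.RA

open E4 E4.X E4.N

private theorem RA2_four (a : FB) : (4 : ℕ) • a = 0 := by
  have e : (4 : ℕ) • a = (a + a) + (a + a) := by abel
  rw [e, fb_add_self]

private theorem RA2_mk {W : AddSubgroup FB} {a b : FB} (h : a + b ∈ W) :
    QuotientAddGroup.mk' W a = QuotientAddGroup.mk' W b := by
  rw [QuotientAddGroup.mk'_apply, QuotientAddGroup.mk'_apply, QuotientAddGroup.eq, fb_neg]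
  exact h

private theorem RA2_mk0 {W : AddSubgroup FB} {a : FB} (h : a ∈ W) : QuotientAddGroup.mk' W a = 0 := by
  rw [QuotientAddGroup.mk'_apply]
  exact (QuotientAddGroup.eq_zero_iff a).2 h

/-- the operator on the quotient -/
private def RA2_op {W : AddSubgroup FB} (hW : St2 W) (φ : F →* F) : FB ⧸ W →+ FB ⧸ W :=
  QuotientAddGroup.map W W (eB (pl2 φ)).toAddMonoidHom (fun r hr => hW φ r hr)

private theorem RA2_op_mk {W : AddSubgroup FB} (hW : St2 W) (φ : F →* F) (a : FB) :
    RA2_op hW φ (QuotientAddGroup.mk' W a) = QuotientAddGroup.mk' W (eB (pl2 φ) a) := rfl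

private theorem RA2_can (x y : FB) : x + y + y = x := by
  rw [add_assoc, fb_add_self, add_zero]

/-- **Chains for insensitive functions.**
PROOF.  `ι := Fin s × (Fin n → ZMod 2 × ZMod 2)` is finite: `e : ι ≃ Fin s'` (`Fintype.equivFin`).  Work in `M := FB ⧸ W` (quotient of additive groups) and put
`v (b : BU s' n) := mk (f i (fun k => can2 (ε k) (b.2 k)))` with `(i, ε) = e.symm b.1`.  Apply `E4.N.acc_unm` with the operators induced by `eB (pl2 (zE p))`, `eB (pl2 (cE k p))`
(`QuotientAddGroup.map`, `hW`); `h4`: `4 • v = 0` as `2 = 0` in `FB` (`fb_add_self`); `hz`, `hc`: `nat`, `ins`, `cl_pl2_can2` with `cl_zE`, `cl_cE` (`zU`, `cU` act by `zV`, `cV` on the vectors);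
the chain is the image of `Q n` in `M`; `hs`: an element of `Q n` is in `R ⊔ W`, and `f i g` is `v` of the classes modulo `W` (`ins`, `cl_can2`).  The chain of images stabilises, hence
`Q n` (`W ≤ Q n`). -/
theorem racc_ins {s n : ℕ} (f : Fin s → (Fin n → F) → FB) {R W : AddSubgroup FB} (hW : St2 W)
    (nat : ∀ (φ : F →* F) (i : Fin s) (g : Fin n → F), eB (pl2 φ) (f i g) = f i (fun k => pl2 φ (g k)))
    (ins : ∀ (i : Fin s) (g g' : Fin n → F), (∀ k, cl (g k) = cl (g' k)) → f i g + f i g' ∈ W)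
    (hR : R ≤ AddSubgroup.closure {r | ∃ i g, r = f i g} ⊔ W) : RAcc R W := by
  classical
  intro Q hQ hWQ hQR hQs
  obtain ⟨e, he⟩ : ∃ e : (Fin s × (Fin n → ZMod 2 × ZMod 2)) ≃ Fin (Fintype.card (Fin s × (Fin n → ZMod 2 × ZMod 2))),
      e = Fintype.equivFin _ := ⟨_, rfl⟩
  obtain ⟨v, hv⟩ : ∃ v : BU (Fintype.card (Fin s × (Fin n → ZMod 2 × ZMod 2))) n → FB ⧸ W, ∀ b, v b =
      QuotientAddGroup.mk' W (f (e.symm b.1).1 (fun k => can2 ((e.symm b.1).2 k) (b.2 k))) := ⟨_, fun b => rfl⟩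
  have hcl : ∀ (i : Fin s) (g : Fin n → F), ∃ b, v b = QuotientAddGroup.mk' W (f i g) := by
    intro i g
    refine ⟨(e (i, fun k => c01 (cl (g k))), fun k => cl (un2 (g k))), ?_⟩
    rw [hv]
    simp only [Equiv.symm_apply_apply]
    apply RA2_mk
    apply ins
    intro k
    exact cl_can2 (g k)
  have hop : ∀ (φ : F →* F) (fV : A2 → A2), (∀ w, cl (φ w) = fV (cl w)) →
      ∀ b : BU (Fintype.card (Fin s × (Fin n → ZMod 2 × ZMod 2))) n,
      RA2_op hW φ (v b) = v (b.1, fun k => fV (b.2 k)) := by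
    intro φ fV hφ b
    rw [hv, hv, RA2_op_mk, nat]
    apply RA2_mk
    apply ins
    intro k
    exact cl_pl2_can2 φ fV hφ _ _
  obtain ⟨n0, hn0⟩ := acc_unm v (by
      intro b
      rw [hv, ← map_nsmul, RA2_four, map_zero])
    (fun p => RA2_op hW (zE p)) (fun k p => RA2_op hW (cE k p))
    (fun p b => hop (zE p) (zV p) (cl_zE p) b) (fun k p b _ => hop (cE k p) (cV k p) (cl_cE k p) b)
    (fun m => (Q m).map (QuotientAddGroup.mk' W)) (fun a b hab => AddSubgroup.map_mono (hQ hab))
    (by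
      intro m y hy
      obtain ⟨q, hq, rfl⟩ := hy
      have h1 : q ∈ AddSubgroup.closure {r | ∃ i g, r = f i g} ⊔ W :=
        (sup_le hR le_sup_right : R ⊔ W ≤ _) (hQR m hq)
      obtain ⟨a, ha, b, hb, rfl⟩ := AddSubgroup.mem_sup.1 h1
      rw [map_add, RA2_mk0 hb, add_zero]
      clear h1 hq
      induction ha using AddSubgroup.closure_induction with
      | mem r hr =>
        obtain ⟨i, g, rfl⟩ := hr
        obtain ⟨c, hc⟩ := hcl i g
        rw [← hc]
        exact AddSubgroup.subset_closure ⟨c, rfl⟩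
      | zero =>
        rw [map_zero]
        exact AddSubgroup.zero_mem _
      | add r r' _ _ hr hr' =>
        rw [map_add]
        exact AddSubgroup.add_mem _ hr hr'
      | neg r _ hr =>
        rw [map_neg]
        exact AddSubgroup.neg_mem _ hr)
    (by
      intro m p y hy
      obtain ⟨q, hq, rfl⟩ := hy
      exact ⟨eB (pl2 (zE p)) q, hQs m _ q hq, rfl⟩)
    (by
      intro m k p _ y hy
      obtain ⟨q, hq, rfl⟩ := hy
      exact ⟨eB (pl2 (cE k p)) q, hQs m _ q hq, rfl⟩)
  refine ⟨n0, fun m hm => le_antisymm ?_ (hQ hm)⟩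
  intro q hq
  have h1 : QuotientAddGroup.mk' W q ∈ (Q n0).map (QuotientAddGroup.mk' W) := by
    have h2 : (Q m).map (QuotientAddGroup.mk' W) = (Q n0).map (QuotientAddGroup.mk' W) := hn0 m hm
    rw [← h2]
    exact ⟨q, hq, rfl⟩
  obtain ⟨q', hq', hqq⟩ := h1
  rw [QuotientAddGroup.mk'_apply, QuotientAddGroup.mk'_apply, QuotientAddGroup.eq] at hqq
  have h3 := (Q n0).add_mem hq' (hWQ n0 hqq)
  rwa [add_neg_cancel_left] at h3

/-- **Chains for a function `D` with the hypotheses of step 5 of block X.**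
PROOF: `o a * D v * o b + o (a * b) * D v ∈ W` (`h.com`, `h.bi`).  `racc_ins` with `s = 1`, `n = 2`, `f 0 g = o (g 0) * D (g 1)`.  `ins`: by `XF_cl` in each of the two arguments
(`E4.X.XF_cl`): `o (a * c ^ 2) * D v + o a * D v = o a * (C (c ^ 2) * D v)` (`h.sql`), `o a * D (v * c ^ 2) + o a * D v` (`h.sqi`). -/
theorem racc_D {W : AddSubgroup FB} {D : F → FB} (h : DHyp W D ∅) (hW : St2 W)
    (hD : ∀ (φ : F →* F) (v : F), eB (pl2 φ) (D v) = D (pl2 φ v)) :
    RAcc (AddSubgroup.closure {r | ∃ a v b : F, r = o a * D v * o b}) W := by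
  refine racc_ins (s := 1) (n := 2) (fun _ g => o (g 0) * D (g 1)) hW ?_ ?_ ?_
  · intro φ i g
    rw [map_mul, eB_o, hD]
  · intro i g g' hg
    have h1 := XF_cl (f := fun a => o a * D (g 1)) (Q := W) (fun a c => by
      have e : o (a * c ^ 2) * D (g 1) + o a * D (g 1) = o a * (C (c ^ 2) * D (g 1)) := by
        unfold C
        rw [map_mul, add_mul, one_mul, mul_add, mul_assoc]
      rw [e]
      exact h.bi.mul_left _ (h.sql c (g 1))) (hg 0)
    have h2 := XF_cl (f := fun b => o (g' 0) * D b) (Q := W) (fun v c => by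
      rw [← mul_add]
      exact h.bi.mul_left _ (h.sqi c v)) (hg 1)
    have h3 := W.add_mem h1 h2
    have e : o (g 0) * D (g 1) + o (g' 0) * D (g 1) + (o (g' 0) * D (g 1) + o (g' 0) * D (g' 1))
        = o (g 0) * D (g 1) + o (g' 0) * D (g' 1) := by
      rw [← add_assoc, RA2_can]
    rw [e] at h3
    exact h3
  · rw [AddSubgroup.closure_le]
    rintro r ⟨a, v, b, rfl⟩
    have e : o a * D v * o b = o (a * b) * D v + o a * (o b * D v + D v * o b) := by
      have e2 : o a * (o b * D v) = o (a * b) * D v := by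
        rw [map_mul, mul_assoc]
      rw [mul_add, e2, ← add_assoc, fb_add_self, zero_add, mul_assoc]
    rw [e]
    refine (AddSubgroup.closure _ ⊔ W).add_mem (AddSubgroup.mem_sup_left (AddSubgroup.subset_closure ?_))
      (AddSubgroup.mem_sup_right (h.bi.mul_left _ (h.com b v)))
    refine ⟨0, ![a * b, v], ?_⟩
    rfl

end E4.RA
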