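import Pool.Agent.Lib.MP_8a95e3_al.RA1

/-!
# RA2a : canonical representatives
-/

noncomputable section

namespace E4.RA

open E4 E4.X E4.N

/-- the value at the letters `0` and `1` of a class, and the class of the other letters -/
def c01 (a : A2) : ZMod 2 × ZMod 2 := (a 0, a 1)

/-- **canonical representative**: `x_0^ε x_1^δ (shift of sec α)` -/
def can2 (e : ZMod 2 × ZMod 2) (α : A2) : F :=
  (if e.1 = 0 then 1 else x 0) * (if e.2 = 0 then 1 else x 1) * sh2 (sec α)

private theorem RA2a_clm (w : F) : clm w = Multiplicative.ofAdd (cl w) := rfl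

private theorem RA2a_sh (w : F) : cl (sh2 w) = (cl w).mapDomain (· + 2) := by
  have h1 : clm.comp sh2 = (AddMonoidHom.toMultiplicative (Finsupp.mapDomain.addMonoidHom (· + 2) : A2 →+ A2)).comp clm := by
    refine FreeGroup.ext_hom _ _ fun j => ?_
    show Multiplicative.ofAdd (cl (sh2 (x j))) = Multiplicative.ofAdd ((cl (x j)).mapDomain (· + 2))
    rw [sh2_x, cl_x, cl_x, Finsupp.mapDomain_single]
  have h2 := DFunLike.congr_fun h1 w
  exact congrArg Multiplicative.toAdd h2

private theorem RA2a_if (j : ℕ) (a : ZMod 2) : cl (if a = 0 then 1 else x j) = Finsupp.single j a := by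
  by_cases h : a = 0
  · rw [if_pos h, h, cl_one, Finsupp.single_zero]
  · have h1 : a = 1 := by
      revert h
      revert a
      decide
    rw [if_neg h, h1, cl_x]

private theorem RA2a_can (e : ZMod 2 × ZMod 2) (α : A2) :
    cl (can2 e α) = Finsupp.single 0 e.1 + Finsupp.single 1 e.2 + α.mapDomain (· + 2) := by
  unfold can2
  rw [cl_mul, cl_mul, RA2a_if, RA2a_if, RA2a_sh, cl_sec]

/-- PROOF: `cl_mul`, `cl_x`; `cl (sh2 w) = (cl w).mapDomain (· + 2)` (induction on `w` or `FreeGroup.ext_hom`); for `a = cl g` take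
`α = cl (un2 g)`: `g` and `x_0^{a 0} x_1^{a 1} sh2 (un2 g)` have the same class (check on the letters, both sides are homomorphisms to `A2`). -/
theorem cl_can2 (g : F) : cl (can2 (c01 (cl g)) (cl (un2 g))) = cl g := by
  rw [RA2a_can]
  have h1 : (AddMonoidHom.toMultiplicative ((Finsupp.singleAddHom 0).comp (Finsupp.applyAddHom 0) +
      (Finsupp.singleAddHom 1).comp (Finsupp.applyAddHom 1) : A2 →+ A2)).comp clm *
      (AddMonoidHom.toMultiplicative (Finsupp.mapDomain.addMonoidHom (· + 2) : A2 →+ A2)).comp (clm.comp un2) = clm := by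
    refine FreeGroup.ext_hom _ _ fun j => ?_
    show Multiplicative.ofAdd (Finsupp.single 0 (cl (x j) 0) + Finsupp.single 1 (cl (x j) 1) +
      (cl (un2 (x j))).mapDomain (· + 2)) = Multiplicative.ofAdd (cl (x j))
    congr 1
    rcases j with _ | _ | j
    · rw [un2_zero, cl_one, cl_x, Finsupp.mapDomain_zero]
      simp
    · show Finsupp.single 0 (cl (x 1) 0) + Finsupp.single 1 (cl (x 1) 1) + (cl (un2 (x 1))).mapDomain (· + 2) = cl (x 1)
      rw [un2_one, cl_one, cl_x, Finsupp.mapDomain_zero]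
      simp
    · rw [un2_succ, cl_x, cl_x, Finsupp.mapDomain_single]
      simp
  have h2 := DFunLike.congr_fun h1 g
  exact congrArg Multiplicative.toAdd h2

/-- PROOF: `pl2 φ` fixes `x 0`, `x 1`; `pl2_sh2`; `cl (sh2 (φ (sec α)))` depends only on `cl (φ (sec α))` (`cl (sh2 w) = (cl w).mapDomain (· + 2)`), `cl_sec`. -/
theorem cl_pl2_can2 (φ : F →* F) (f : A2 → A2) (hφ : ∀ w, cl (φ w) = f (cl w)) (e : ZMod 2 × ZMod 2) (α : A2) :
    cl (pl2 φ (can2 e α)) = cl (can2 e (f α)) := by
  have h1 : pl2 φ (can2 e α) = (if e.1 = 0 then 1 else x 0) * (if e.2 = 0 then 1 else x 1) * sh2 (φ (sec α)) := by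
    unfold can2
    rw [map_mul, map_mul, pl2_sh2, apply_ite (pl2 φ), apply_ite (pl2 φ), map_one, pl2_zero, pl2_one]
  rw [h1, cl_mul, cl_mul, RA2a_if, RA2a_if, RA2a_sh, hφ, cl_sec, RA2a_can]

end E4.RA
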