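import Pool.Agent.Lib.MP_8a95e3_al.RA1

/-!
# RA3 : from the group ring to a layer of the group
-/

noncomputable section

namespace E4.RA

open E4 E4.X E4.N

/-- **Transfer to the group.**
PROOF.  `Λ 0 = 1` (`hadd 0 0`), `Λ (-r) = (Λ r)⁻¹`.  Given the chain `U n` of `LAcc`, let `Q n := {r ∈ R ⊔ W | ∃ u ∈ U n, Λ r = mk u}` (an additive subgroup).  It is monotone, contains `W`
(`hW0`), is contained in `R ⊔ W`, and is stable (`hnat`, `StP (U n)`, `R ⊔ W` is stable).  So it stabilises at some `n`.  For `m ≥ n` and `u ∈ U m`: `u ∈ C' ⊔ D`, `D` the closure, so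
`u = c * d` (`Subgroup.mem_sup_of_normal_left`, `c ∈ C'`), and `∃ r ∈ R, mk d = Λ r` (`Subgroup.closure_induction`).  Then `d = c⁻¹ * u ∈ U m`, `r ∈ Q m = Q n`, so `Λ r = mk u'` with `u' ∈ U n`, and
`d = u' * c''` with `c'' ∈ C' ≤ U n`. -/
theorem lacc_ring {C' : Subgroup F} [hn : C'.Normal] (Λ : FB → F ⧸ C')
    (hadd : ∀ f g, Λ (f + g) = Λ f * Λ g)
    (hnat : ∀ (φ : F →* F) (f : FB) (w : F), Λ f = QuotientGroup.mk w → Λ (eB (pl2 φ) f) = QuotientGroup.mk (pls φ w))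
    {R W : AddSubgroup FB} (hR : St2 R) (hW : St2 W) (hW0 : ∀ r ∈ W, Λ r = 1) (hacc : RAcc R W) :
    LAcc (Subgroup.closure {w | ∃ r ∈ R, Λ r = QuotientGroup.mk w}) C' := by
  intro U hU hC hUg hUs
  have h0 : Λ 0 = 1 := by
    have h := hadd 0 0
    rw [add_zero] at h
    exact (left_eq_mul.1 h)
  have h2 : ∀ r, Λ r * Λ r = 1 := fun r => by rw [← hadd, fb_add_self, h0]
  have hinv : ∀ r, (Λ r)⁻¹ = Λ r := fun r => inv_eq_of_mul_eq_one_left (h2 r)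
  let Q : ℕ → AddSubgroup FB := fun n =>
    { carrier := {r | r ∈ R ⊔ W ∧ ∃ u ∈ U n, Λ r = QuotientGroup.mk u}
      zero_mem' := ⟨zero_mem _, 1, one_mem _, by rw [h0]; rfl⟩
      add_mem' := by
        rintro a b ⟨ha, u, hu, hua⟩ ⟨hb, w, hw, hwb⟩
        exact ⟨add_mem ha hb, u * w, mul_mem hu hw, by rw [hadd, hua, hwb]; rfl⟩
      neg_mem' := by
        rintro a ⟨ha, u, hu, hua⟩
        rw [fb_neg]
        exact ⟨ha, u, hu, hua⟩ }
  have hQ : ∀ n r, r ∈ Q n ↔ r ∈ R ⊔ W ∧ ∃ u ∈ U n, Λ r = QuotientGroup.mk u := fun n r => Iff.rfl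
  obtain ⟨n, hn'⟩ := hacc Q
    (fun a b hab r hr => by
      obtain ⟨h3, u, hu, h4⟩ := (hQ a r).1 hr
      exact (hQ b r).2 ⟨h3, u, hU hab hu, h4⟩)
    (fun n r hr => (hQ n r).2 ⟨AddSubgroup.mem_sup_right hr, 1, one_mem _, by rw [hW0 r hr]; rfl⟩)
    (fun n r hr => ((hQ n r).1 hr).1)
    (fun n φ r hr => by
      obtain ⟨h3, u, hu, h4⟩ := (hQ n r).1 hr
      exact (hQ n _).2 ⟨(hR.sup hW) φ r h3, pls φ u, hUs n φ u hu, hnat φ r u h4⟩)
  have hD : ∀ d ∈ Subgroup.closure {w | ∃ r ∈ R, Λ r = QuotientGroup.mk w},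
      ∃ r ∈ R, Λ r = (QuotientGroup.mk d : F ⧸ C') := by
    intro d hd
    induction hd using Subgroup.closure_induction with
    | mem d hd => exact hd
    | one => exact ⟨0, zero_mem _, by rw [h0]; rfl⟩
    | mul a b _ _ ha hb =>
      obtain ⟨r, hr, h3⟩ := ha
      obtain ⟨t, ht, h4⟩ := hb
      exact ⟨r + t, add_mem hr ht, by rw [hadd, h3, h4]; rfl⟩
    | inv a _ ha =>
      obtain ⟨r, hr, h3⟩ := ha
      exact ⟨r, hr, by rw [← hinv, h3]; rfl⟩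
  refine ⟨n, fun m hm => le_antisymm (fun u hu => ?_) (hU hm)⟩
  obtain ⟨c, hc, d, hd, rfl⟩ := Subgroup.mem_sup_of_normal_left.1 (hUg m hu)
  obtain ⟨r, hr, h3⟩ := hD d hd
  have hdm : d ∈ U m := by
    have h4 := mul_mem (inv_mem (hC m hc)) hu
    rwa [inv_mul_cancel_left] at h4
  have hrm : r ∈ Q m := (hQ m r).2 ⟨AddSubgroup.mem_sup_left hr, d, hdm, h3⟩
  rw [hn' m hm] at hrm
  obtain ⟨_, u', hu', h4⟩ := (hQ n r).1 hrm
  have h5 : (QuotientGroup.mk u' : F ⧸ C') = QuotientGroup.mk d := by rw [← h4, h3]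
  have h6 : u'⁻¹ * d ∈ C' := QuotientGroup.eq.1 h5
  have h7 := mul_mem hu' (hC n h6)
  rw [mul_inv_cancel_left] at h7
  exact mul_mem (hC n hc) h7

end E4.RA
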