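import Pool.Agent.Lib.MP_8a95e3_al.X13a

/-!
# X13b : step A, second half
-/

noncomputable section

namespace E4.X

open E4

private theorem X13b_NN_le {P : AddSubgroup FB} (y z : ℕ) :
    P ≤ NN P y z ∧ I2 y ≤ NN P y z ∧ I2 z ≤ NN P y z ∧ EI y z ≤ NN P y z := by
  unfold NN
  exact ⟨le_sup_of_le_left (le_sup_of_le_left le_sup_left), le_sup_of_le_left (le_sup_of_le_left le_sup_right),
    le_sup_of_le_left le_sup_right, le_sup_right⟩

private theorem X13b_sw_Xy (y z : ℕ) : eB (sw y z) (Xl y) = Xl z := by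
  simp [Xl]

private theorem X13b_sw_Xz (y z : ℕ) : eB (sw y z) (Xl z) = Xl y := by
  by_cases h : z = y
  · subst h
    simp [Xl]
  · simp [Xl, h]

/-- `NN` is stable under the exchange of `y` and `z` -/
private theorem X13b_NN_sw {P : AddSubgroup FB} (hP : Ids P) {y z : ℕ} (hyz : y ≠ z) {f : FB} (hf : f ∈ NN P y z) :
    eB (sw y z) f ∈ NN P y z := by
  obtain ⟨hPl, hyl, hzl, hel⟩ := X13b_NN_le (P := P) y z
  have hb := NN_bi hP.ti y z
  have hy := X13b_sw_Xy y z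
  have hz := X13b_sw_Xz y z
  have h1 : ∀ p ∈ P, eB (sw y z) p ∈ NN P y z := fun p hp => hPl (hP.ti.endo _ p hp)
  have h2 : ∀ p ∈ I2 y, eB (sw y z) p ∈ NN P y z := by
    intro p hp
    refine eB_idl hb (sw y z) ?_ hp
    rintro s ⟨a, rfl⟩
    rw [map_mul, map_mul, hy, eB_o]
    exact hzl (sub_idl ⟨sw y z a, rfl⟩)
  have h3 : ∀ p ∈ I2 z, eB (sw y z) p ∈ NN P y z := by
    intro p hp
    refine eB_idl hb (sw y z) ?_ hp
    rintro s ⟨a, rfl⟩
    rw [map_mul, map_mul, hz, eB_o]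
    exact hyl (sub_idl ⟨sw y z a, rfl⟩)
  have h4 : ∀ p ∈ EI y z, eB (sw y z) p ∈ NN P y z := by
    intro p hp
    refine eB_idl hb (sw y z) ?_ hp
    rintro s ⟨g, rfl⟩
    have h5 : eB (sw y z) (ee g y z) = ee (sw y z g) z y := by
      unfold ee
      rw [map_add, map_mul, map_mul, map_mul, map_mul, map_mul, map_mul, hy, hz, eB_T, eB_C]
    have h6 := hP.esym y z hyz (sw y z g)
    have h7 : P ⊔ I2 y ⊔ I2 z ≤ NN P y z := sup_le (sup_le hPl hyl) hzl
    have h8 : ee (sw y z g) y z ∈ NN P y z := hel (sub_idl ⟨sw y z g, rfl⟩)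
    rw [h5]
    exact (AddSubgroup.add_mem_cancel_left _ h8).1 (h7 h6)
  have key : NN P y z ≤ (NN P y z).comap (eB (sw y z)).toAddMonoidHom := by
    have h5 : P ⊔ I2 y ⊔ I2 z ⊔ EI y z ≤ (NN P y z).comap (eB (sw y z)).toAddMonoidHom :=
      sup_le (sup_le (sup_le (fun p hp => h1 p hp) (fun p hp => h2 p hp)) (fun p hp => h3 p hp)) (fun p hp => h4 p hp)
    exact h5
  exact key hf

/-- the second component of `BP` is in the ideal of `[Y, Z]` -/
private theorem X13b_bp_idl {y z : ℕ} {t s : FB} (h : (t, s) ∈ BP y z) : s ∈ idl {Xl y * Xl z + Xl z * Xl y} := by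
  have key : BP y z ≤ (idl {Xl y * Xl z + Xl z * Xl y}).comap (AddMonoidHom.snd FB FB) := by
    unfold BP
    rw [AddSubgroup.closure_le]
    rintro r ⟨u, v, _, _, rfl⟩
    exact AddSubgroup.subset_closure ⟨u, v, _, Set.mem_singleton _, rfl⟩
  exact key h

/-- the exchange of `y` and `z` commutes with an endomorphism which fixes them and sends the other letters to letters
or to `1` -/
private theorem X13b_sw_kill {y z j : ℕ} (hy : j ≠ y) (hz : j ≠ z) (f : FB) :
    eB (rp j 1) (eB (sw y z) f) = eB (sw y z) (eB (rp j 1) f) := by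
  rw [eB_comp, eB_comp]
  congr 1
  refine congrArg eB (hom_ext fun i => ?_)
  rw [MonoidHom.comp_apply, MonoidHom.comp_apply, sw_x, rp_x]
  by_cases h1 : i = y
  · subst h1
    rw [if_pos rfl, rp_x, if_neg (Ne.symm hz), if_neg (Ne.symm hy), sw_x, if_pos rfl]
  · by_cases h2 : i = z
    · subst h2
      rw [if_neg h1, if_pos rfl, rp_x, if_neg (Ne.symm hy), if_neg (Ne.symm hz), sw_x, if_neg h1, if_pos rfl]
    · rw [if_neg h1, if_neg h2, rp_x]
      by_cases h3 : i = j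
      · rw [if_pos h3, map_one]
      · rw [if_neg h3, sw_x, if_neg h1, if_neg h2]

private theorem X13b_sw_ret {y z : ℕ} {M : Finset ℕ} (hy : y ∈ M) (hz : z ∈ M) (f : FB) :
    eB (ret M) (eB (sw y z) f) = eB (sw y z) (eB (ret M) f) := by
  rw [eB_comp, eB_comp]
  congr 1
  refine congrArg eB (hom_ext fun i => ?_)
  rw [MonoidHom.comp_apply, MonoidHom.comp_apply, sw_x, ret_x]
  by_cases h1 : i = y
  · subst h1
    rw [if_pos rfl, ret_x, if_pos hz, if_pos hy, sw_x, if_pos rfl]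
  · by_cases h2 : i = z
    · subst h2
      rw [if_neg h1, if_pos rfl, ret_x, if_pos hy, if_pos hz, sw_x, if_neg h1, if_pos rfl]
    · rw [if_neg h1, if_neg h2, ret_x]
      by_cases h3 : i ∈ M
      · rw [if_pos h3, sw_x, if_neg h1, if_neg h2]
      · rw [if_neg h3, map_one]

/-- **Second half of step A.**  PROOF.  `spB'`, `decA` for `s`: `s ≡ (s₁ + σ s₁) + k + r + ε₁ e1 + ε₂ e2` mod `NN`; add the `σ`-image (`NN` is stable under `sw`: `esym` for the generators of `EI`): `s + σ s ≡ (k + σ k) + (r + σ r) + ε₁ (e1 + σ e1) + ε₂ (e2 + σ e2)`, `k_sw`, `r_sw`, `e2_sw`: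
`s + σ s ∈ idl {[Y,Z]} + ε₁ (Y XP Z + Z XP Y)` mod `NN` (`BP`-elements are in `idl {[Y,Z]}`).  `br_dec`: `(t, s₂) ∈ BP`.  Evaluation at `sqs {y,z}` (`sq_NN`): `f` is zero in the model, so is `s₂ + ε₁ (…)`: `par` (`H = L`, `Q = ∅`) if `L ≠ ∅`: `ε₁ = 0`.  `bp_E1`: `t ∈ P ⊔ I2 y`; `bp_mem`: `s₂ ∈ NN`.  So `s + σ s ∈ NN`. -/
theorem stepA2 {P0 P : AddSubgroup FB} (h0 : A0F P0) (hP : Ids P) (hle : P ≤ P0) {n : ℕ} (e1 : E1 P0 P n)
    {L : Finset ℕ} (hL : L.card = n) {y z : ℕ} (hyz : y ≠ z) (hy : y ∉ L) (hz : z ∉ L) {s : FB} (hs : s ∈ Bil y z)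
    (hk : ∀ j ∈ L, eB (rp j 1) s = 0) (hr : eB (ret (insert y (insert z L))) s = s)
    (h : eB (sqs {y, z}) (s + eB (sw y z) s) ∈ P0) : s + eB (sw y z) s ∈ NN P y z := by
  classical
  obtain ⟨hPl, hyl, hzl, hel⟩ := X13b_NN_le (P := P) y z
  -- a letter of `L`
  obtain ⟨m, hm⟩ : ∃ m : ℕ, L.Nonempty → m ∈ L := by
    rcases L.eq_empty_or_nonempty with h1 | ⟨m, hm⟩
    · exact ⟨0, fun h2 => absurd h1 h2.ne_empty⟩
    · exact ⟨m, fun _ => hm⟩
  obtain ⟨s₁, w, k, t, r, ε₁, ε₂, _, _, _, hwk, _, htr, _, _, _, hc2, hc1, hN⟩ :=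
    decA hP hyz hy hz hm (spB' hy hz hyz hs hr) hk hr
  have hσy := X13b_sw_Xy y z
  have hσz := X13b_sw_Xz y z
  have hjy : ∀ j ∈ L, j ≠ y := fun j hj h1 => hy (h1 ▸ hj)
  have hjz : ∀ j ∈ L, j ≠ z := fun j hj h1 => hz (h1 ▸ hj)
  have hyM : y ∈ insert y (insert z L) := Finset.mem_insert_self _ _
  have hzM : z ∈ insert y (insert z L) := Finset.mem_insert_of_mem (Finset.mem_insert_self _ _)
  -- the exchange of the letters in the two special elements
  have hσ1 : eB (sw y z) (Xl y * XP L * Xl z) = Xl z * XP L * Xl y := by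
    rw [map_mul, map_mul, hσy, hσz, XP_fix (sw y z) fun j hj => by rw [sw_x, if_neg (hjy j hj), if_neg (hjz j hj)]]
  -- names for the terms
  obtain ⟨A, hA⟩ : ∃ A : FB, A = Xl y * XP L * Xl z := ⟨_, rfl⟩
  obtain ⟨B, hB⟩ : ∃ B : FB, B = XP (L.erase m) * (Xl y * Xl m * Xl z) := ⟨_, rfl⟩
  obtain ⟨A', hA'⟩ : ∃ A' : FB, A' = Xl z * XP L * Xl y := ⟨_, rfl⟩
  rw [← hA, ← hA'] at hσ1
  rw [← hA, ← hB] at hN
  -- the exchange applied to the decomposition
  have hN' := X13b_NN_sw hP hyz hN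
  have hsm : ∀ (ε : ZMod 2) (a : FB), eB (sw y z) (ε • a) = ε • eB (sw y z) a := by
    intro ε a
    rcases (by revert ε; decide : ε = 0 ∨ ε = 1) with rfl | rfl
    · rw [zero_smul, zero_smul, map_zero]
    · rw [one_smul, one_smul]
  rw [map_add, map_add, map_add, map_add, map_add, map_add, sw_sw, hsm, hsm, hσ1] at hN'
  have hk2 := k_sw hP hyz hwk
  have hr2 := X13b_bp_idl (r_sw hyz htr)
  obtain ⟨J, hJ⟩ : ∃ J : AddSubgroup FB, J = idl {Xl y * Xl z + Xl z * Xl y} := ⟨_, rfl⟩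
  have he2 : ε₂ • (B + eB (sw y z) B) ∈ J ⊔ NN P y z := by
    by_cases h1 : L.card ≤ 1
    · rw [hc2 h1, zero_smul]
      exact zero_mem _
    · have h2 : L.Nonempty := Finset.card_pos.1 (by omega)
      have h3 := e2_sw hP hyz hy hz (hm h2) (by omega)
      rw [← hB, ← hJ] at h3
      rcases (by decide : ∀ ε : ZMod 2, ε = 0 ∨ ε = 1) ε₂ with h4 | h4
      · rw [h4, zero_smul]
        exact zero_mem _
      · rw [h4, one_smul]
        exact h3
  rw [← hJ] at hr2
  have hmem : s + eB (sw y z) s + ε₁ • (A + A') ∈ J ⊔ NN P y z := by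
    have h1 := add_mem hN hN'
    have h2 : s + (s₁ + eB (sw y z) s₁) + k + r + ε₁ • A + ε₂ • B +
        (eB (sw y z) s + (eB (sw y z) s₁ + s₁) + eB (sw y z) k + eB (sw y z) r + ε₁ • A' + ε₂ • eB (sw y z) B) =
        (s + eB (sw y z) s + ε₁ • (A + A')) + ((k + eB (sw y z) k) + ((r + eB (sw y z) r) +
          ε₂ • (B + eB (sw y z) B))) + ((s₁ + s₁) + (eB (sw y z) s₁ + eB (sw y z) s₁)) := by
      rw [smul_add, smul_add]
      abel
    rw [h2, fb_add_self, fb_add_self, add_zero, add_zero] at h1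
    have h3 : (k + eB (sw y z) k) + ((r + eB (sw y z) r) + ε₂ • (B + eB (sw y z) B)) ∈ J ⊔ NN P y z :=
      add_mem (AddSubgroup.mem_sup_right hk2) (add_mem (AddSubgroup.mem_sup_left hr2) he2)
    exact (AddSubgroup.add_mem_cancel_right _ h3).1 (AddSubgroup.mem_sup_right h1)
  -- the element is full in `L`
  have hkA : ∀ j ∈ L, eB (rp j 1) A = 0 ∧ eB (rp j 1) A' = 0 := by
    intro j hj
    rw [hA, hA', map_mul, map_mul, map_mul, map_mul, XP_kill hj]
    simp
  have hrA : eB (ret (insert y (insert z L))) A = A ∧ eB (ret (insert y (insert z L))) A' = A' := by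
    have h1 : eB (ret (insert y (insert z L))) (XP L) = XP L :=
      XP_ret fun j hj => Finset.mem_insert_of_mem (Finset.mem_insert_of_mem hj)
    have h2 : eB (ret (insert y (insert z L))) (Xl y) = Xl y := by
      unfold Xl
      rw [eB_C, ret_x, if_pos hyM]
    have h3 : eB (ret (insert y (insert z L))) (Xl z) = Xl z := by
      unfold Xl
      rw [eB_C, ret_x, if_pos hzM]
    rw [hA, hA', map_mul, map_mul, map_mul, map_mul, h1, h2, h3]
    exact ⟨rfl, rfl⟩
  have hsm' : ∀ (φ : F →* F) (ε : ZMod 2) (a : FB), eB φ (ε • a) = ε • eB φ a := by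
    intro φ ε a
    rcases (by revert ε; decide : ε = 0 ∨ ε = 1) with rfl | rfl
    · rw [zero_smul, zero_smul, map_zero]
    · rw [one_smul, one_smul]
  have hfk : ∀ j ∈ L, eB (rp j 1) (s + eB (sw y z) s + ε₁ • (A + A')) = 0 := by
    intro j hj
    rw [map_add, map_add, X13b_sw_kill (hjy j hj) (hjz j hj), hk j hj, map_zero, hsm', map_add, (hkA j hj).1,
      (hkA j hj).2, add_zero, smul_zero, add_zero]
  have hfr : eB (ret (insert y (insert z L))) (s + eB (sw y z) s + ε₁ • (A + A')) =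
      s + eB (sw y z) s + ε₁ • (A + A') := by
    rw [map_add, map_add, X13b_sw_ret hyM hzM, hr, hsm', map_add, hrA.1, hrA.2]
  rw [hJ] at hmem
  obtain ⟨t', s₂, hBP, hFt, hk2', hr2', hN2⟩ := br_dec hP hyz hy hz hmem hfk hfr
  -- evaluation
  have h4 := hP.four
  have hNNle : NN P y z ≤ NN P0 y z := by
    unfold NN
    exact sup_le_sup (sup_le_sup (sup_le_sup hle le_rfl) le_rfl) le_rfl
  have hev := sq_NN h0 (fun g a b c => hle (h4 g a b c)) hyz (hNNle hN2)
  have hev2 : eB (sqs {y, z}) (s₂ + ε₁ • (A + A')) ∈ P0 := by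
    have h5 : s + eB (sw y z) s + ε₁ • (A + A') + s₂ = (s + eB (sw y z) s) + (s₂ + ε₁ • (A + A')) := by
      abel
    rw [h5, map_add] at hev
    exact (AddSubgroup.add_mem_cancel_left P0 h).1 hev
  have hs2J := X13b_bp_idl hBP
  have hε : ε₁ = 0 := by
    rcases L.eq_empty_or_nonempty with h5 | h5
    · exact hc1 h5
    · rcases (by decide : ∀ ε : ZMod 2, ε = 0 ∨ ε = 1) ε₁ with h6 | h6
      · exact h6
      · exfalso
        have h7 := h0.par L ∅ y z hyz hy hz (Finset.empty_subset _) h5.ne_empty.symm s₂ hs2J hk2' hr2'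
        refine h7 ?_
        rw [h6, one_smul] at hev2
        have h8 : s₂ + Xl y * XP L * Xl z + Xl z * XP L * Xl y = s₂ + (A + A') := by
          rw [hA, hA']
          exact add_assoc _ _ _
        have h9 : (insert y (insert z (∅ : Finset ℕ))) = {y, z} := rfl
        rw [h8, h9]
        exact hev2
  rw [hε, zero_smul, add_zero] at hev2 hN2
  have ht2 := bp_E1 h0 hP hle e1 hL hyz hy hz hBP hFt hev2
  have hs2 := bp_mem hP hyz hBP ht2
  have hs2' : s₂ ∈ NN P y z := (sup_le (sup_le hPl hyl) hzl) hs2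
  exact (AddSubgroup.add_mem_cancel_right _ hs2').1 hN2

/-- **Step A.** -/
theorem stepA {P0 P : AddSubgroup FB} (h0 : A0F P0) (hP : Ids P) (hle : P ≤ P0) {n : ℕ} (e0 : E0 P0 P n) (e1 : E1 P0 P n) :
    E2 P0 P n := by
  intro L y z hL hy hz hyz f hF hf0
  obtain ⟨s, hs, hk, hr, h⟩ := stepA1 h0 hP hle e0 e1 hL hyz hy hz hF hf0
  have h4 := hP.four
  have h1 : eB (sqs {y, z}) (f + (s + eB (sw y z) s)) ∈ P0 :=
    sq_NN h0 (fun g a b c => hle (h4 g a b c)) hyz (by
      have : NN P y z ≤ NN P0 y z := by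
        unfold NN
        exact sup_le_sup (sup_le_sup (sup_le_sup hle le_rfl) le_rfl) le_rfl
      exact this h)
  have h2 : eB (sqs {y, z}) (s + eB (sw y z) s) ∈ P0 := by
    rw [map_add] at h1
    exact (AddSubgroup.add_mem_cancel_left P0 hf0).1 h1
  have h3 := stepA2 h0 hP hle e1 hL hyz hy hz hs hk hr h2
  exact (AddSubgroup.add_mem_cancel_right (NN P y z) h3).1 h

end E4.X
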