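import Pool.Agent.Lib.MP_8a95e3_al.RA1
import Pool.Agent.Lib.MP_8a95e3_al.X13b

/-!
# RA4 : the subgroups of layer `γ_3`
-/

noncomputable section

namespace E4.RA

open E4 E4.X E4.N

/-- the twisted squares of the elements `tau` -/
def Wt : AddSubgroup FB :=
  AddSubgroup.closure {r | ∃ c u g : F, r = C (sh2 c ^ 2) * (o (sh2 u) * tau 0 1 (sh2 g))}

/-- the subgroup on which `Lam` is trivial -/
def W3 : AddSubgroup FB := Sw 0 1 ⊔ Wt ⊔ (K0 ⊔ I2 0 ⊔ I2 1)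

/-- the elements which come from words -/
def R3 : AddSubgroup FB where
  carrier := {r | r ∈ Bil 0 1 ∧ r + eB (sw 0 1) r ∈ K0 ⊔ I2 0 ⊔ I2 1}
  zero_mem' := ⟨zero_mem _, by rw [map_zero, add_zero]; exact zero_mem _⟩
  add_mem' := by
    rintro a b ⟨ha, ha'⟩ ⟨hb, hb'⟩
    refine ⟨add_mem ha hb, ?_⟩
    have h := add_mem ha' hb'
    have e : a + eB (sw 0 1) a + (b + eB (sw 0 1) b) = a + b + eB (sw 0 1) (a + b) := by
      rw [map_add]; abel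
    rwa [e] at h
  neg_mem' := by
    rintro a ⟨ha, ha'⟩
    rw [Set.mem_setOf_eq, fb_neg]
    exact ⟨ha, ha'⟩

theorem mem_R3 {r : FB} : r ∈ R3 ↔ r ∈ Bil 0 1 ∧ r + eB (sw 0 1) r ∈ K0 ⊔ I2 0 ⊔ I2 1 := Iff.rfl

/-- PROOF: `TI.endo`. -/
theorem St2_TI {P : AddSubgroup FB} (h : TI P) : St2 P := fun φ r hr => h.endo (pl2 φ) r hr

theorem St2_I2_0 : St2 (I2 0) := fun φ _ hr => eB_I2 (pl2 φ) (pl2_zero φ) hr

theorem St2_I2_1 : St2 (I2 1) := fun φ _ hr => eB_I2 (pl2 φ) (pl2_one φ) hr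

theorem St2_EI : St2 (EI 0 1) := fun φ _ hr => eB_EI (pl2 φ) (pl2_zero φ) (pl2_one φ) hr

private theorem RA4_X0 (φ : F →* F) : eB (pl2 φ) (Xl 0) = Xl 0 := by
  unfold Xl
  rw [eB_C, pl2_zero]

private theorem RA4_X1 (φ : F →* F) : eB (pl2 φ) (Xl 1) = Xl 1 := by
  unfold Xl
  rw [eB_C, pl2_one]

private theorem RA4_tau (φ : F →* F) (g : F) : eB (pl2 φ) (tau 0 1 g) = tau 0 1 (pl2 φ g) := by
  unfold tau
  simp only [map_add, map_mul, eB_o, RA4_X0, RA4_X1, map_inv]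

private theorem RA4_cl {S : Set FB} (h : ∀ φ : F →* F, ∀ s ∈ S, eB (pl2 φ) s ∈ AddSubgroup.closure S) :
    St2 (AddSubgroup.closure S) := by
  intro φ r hr
  induction hr using AddSubgroup.closure_induction with
  | mem s hs => exact h φ s hs
  | zero => rw [map_zero]; exact zero_mem _
  | add a b _ _ ha hb => rw [map_add]; exact add_mem ha hb
  | neg a _ ha => rw [map_neg]; exact neg_mem ha

/-- PROOF: on the letters (`E4.X.hom_ext`): `pl2 φ` fixes `x 0`, `x 1` and maps `x (j + 2)` to `sh2 (φ (x j))`, which is fixed by `sw 0 1` (`sw_free`, `fr_sh2`). -/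
theorem sw_pl2 (φ : F →* F) (f : FB) : eB (sw 0 1) (eB (pl2 φ) f) = eB (pl2 φ) (eB (sw 0 1) f) := by
  have e : (sw 0 1).comp (pl2 φ) = (pl2 φ).comp (sw 0 1) := by
    refine E4.X.hom_ext fun i => ?_
    rw [MonoidHom.comp_apply, MonoidHom.comp_apply]
    rcases i with _ | _ | j
    · rw [pl2_zero, sw_x, if_pos rfl, pl2_one]
    · show sw 0 1 (pl2 φ (x 1)) = pl2 φ (sw 0 1 (x 1))
      rw [pl2_one, sw_x, if_neg (by norm_num), if_pos rfl, pl2_zero]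
    · rw [pl2_succ, sw_free (fr_sh2 _), sw_x, if_neg (by omega), if_neg (by omega), pl2_succ]
  rw [eB_comp, eB_comp, e]

/-- PROOF: generators go to generators (`fr_pl2`, `pl2_zero`, `pl2_one`). -/
theorem St2_Bil : St2 (Bil 0 1) := by
  unfold Bil
  refine RA4_cl fun φ s hs => AddSubgroup.subset_closure ?_
  obtain ⟨a, b, c, ha, hb, hc, h | h⟩ := hs
  · refine ⟨pl2 φ a, pl2 φ b, pl2 φ c, fr_pl2 φ ha, fr_pl2 φ hb, fr_pl2 φ hc, Or.inl ?_⟩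
    rw [h]
    simp only [map_mul, eB_o, RA4_X0, RA4_X1]
  · refine ⟨pl2 φ a, pl2 φ b, pl2 φ c, fr_pl2 φ ha, fr_pl2 φ hb, fr_pl2 φ hc, Or.inr ?_⟩
    rw [h]
    simp only [map_mul, eB_o, RA4_X0, RA4_X1]

/-- PROOF: `St2_Bil`, `sw_pl2`. -/
theorem St2_Sw : St2 (Sw 0 1) := by
  unfold Sw
  refine RA4_cl fun φ s hs => AddSubgroup.subset_closure ?_
  obtain ⟨t, ht, h⟩ := hs
  refine ⟨eB (pl2 φ) t, St2_Bil φ t ht, ?_⟩
  rw [h, map_add, sw_pl2]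

/-- PROOF: `eB_idl` or closure induction; `eB (pl2 φ) (tau 0 1 g) = tau 0 1 (pl2 φ g)`. -/
theorem St2_tau : St2 (idl {r | ∃ g : F, r = tau 0 1 g}) := by
  intro φ r hr
  refine eB_idl (idl_bi _) (pl2 φ) ?_ hr
  rintro s ⟨g, rfl⟩
  exact sub_idl ⟨pl2 φ g, RA4_tau φ g⟩

theorem St2_YZ : St2 (idl {Xl 0 * Xl 1}) := by
  intro φ r hr
  refine eB_idl (idl_bi _) (pl2 φ) ?_ hr
  rintro s hs
  rw [Set.mem_singleton_iff] at hs
  rw [hs, map_mul, RA4_X0, RA4_X1]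
  exact sub_idl rfl

theorem St2_NN {P : AddSubgroup FB} (h : TI P) : St2 (NN P 0 1) :=
  (((St2_TI h).sup St2_I2_0).sup St2_I2_1).sup St2_EI

theorem St2_VA {P : AddSubgroup FB} (h : TI P) : St2 (VA P 0 1) :=
  ((St2_Sw.sup St2_tau).sup St2_YZ).sup (St2_NN h)

/-- PROOF: `eB (pl2 φ) (C (sh2 c ^ 2) * (o (sh2 u) * tau 0 1 (sh2 g))) = C (sh2 (φ c) ^ 2) * (o (sh2 (φ u)) * tau 0 1 (sh2 (φ g)))` (`pl2_sh2`). -/
theorem St2_Wt : St2 Wt := by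
  unfold Wt
  refine RA4_cl fun φ s hs => AddSubgroup.subset_closure ?_
  obtain ⟨c, u, g, h⟩ := hs
  refine ⟨φ c, φ u, φ g, ?_⟩
  rw [h, map_mul, map_mul, eB_C, eB_o, RA4_tau, map_pow, pl2_sh2, pl2_sh2, pl2_sh2]

theorem St2_W3 : St2 W3 :=
  (St2_Sw.sup St2_Wt).sup (((St2_TI K0_TI).sup St2_I2_0).sup St2_I2_1)

theorem St2_R3 : St2 R3 := by
  intro φ r hr
  obtain ⟨h1, h2⟩ := mem_R3.1 hr
  refine mem_R3.2 ⟨St2_Bil φ r h1, ?_⟩
  rw [sw_pl2, ← map_add]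
  exact (((St2_TI K0_TI).sup St2_I2_0).sup St2_I2_1) φ _ h2

/-- PROOF: closure induction; `C (c ^ 2) * (o u * tau 0 1 g)` with `u`, `g` arbitrary is in the ideal generated by the `tau`. -/
theorem Wt_le : Wt ≤ idl {r | ∃ g : F, r = tau 0 1 g} := by
  unfold Wt
  rw [AddSubgroup.closure_le]
  rintro r ⟨c, u, g, rfl⟩
  exact (idl_bi _).mul_left _ ((idl_bi _).left (sh2 u) _ (sub_idl ⟨sh2 g, rfl⟩))

/-- PROOF: `W3 ≤ VA P 0 1` (`K0_le`), the parts of `VA` are `Sw`, `idl tau`, `idl {Xl 0 * Xl 1}`, `NN P 0 1`. -/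
theorem W3_le {P : AddSubgroup FB} (h : TI P) : W3 ≤ VA P 0 1 := by
  have e1 : Sw 0 1 ≤ VA P 0 1 := le_sup_left.trans (le_sup_left.trans le_sup_left)
  have e2 : idl {r | ∃ g : F, r = tau 0 1 g} ≤ VA P 0 1 := le_sup_right.trans (le_sup_left.trans le_sup_left)
  have e3 : NN P 0 1 ≤ VA P 0 1 := le_sup_right
  have e4 : P ≤ NN P 0 1 := le_sup_left.trans (le_sup_left.trans le_sup_left)
  have e5 : I2 0 ≤ NN P 0 1 := le_sup_right.trans (le_sup_left.trans le_sup_left)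
  have e6 : I2 1 ≤ NN P 0 1 := le_sup_right.trans le_sup_left
  exact sup_le (sup_le e1 (Wt_le.trans e2)) (sup_le (sup_le (((K0_le h).trans e4).trans e3) (e5.trans e3)) (e6.trans e3))

end E4.RA
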