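import Pool.Agent.Lib.MP_8a95e3_al.RA2
import Pool.Agent.Lib.MP_8a95e3_al.RA4

/-!
# RA5a : the layers `Bil / VA` and `EI`
-/

noncomputable section

namespace E4.RA

open E4 E4.X E4.N

private theorem RA5a_Xl0 (φ : F →* F) : eB (pl2 φ) (Xl 0) = Xl 0 := by
  unfold Xl
  rw [eB_C, pl2_zero]

private theorem RA5a_Xl1 (φ : F →* F) : eB (pl2 φ) (Xl 1) = Xl 1 := by
  unfold Xl
  rw [eB_C, pl2_one]

/-- **`Bil / VA`.**
PROOF: `racc_D` with `D v = Xl 0 * o v * Xl 1`, `W = VA P 0 1`, `dhypA hP (L := ∅)`, `St2_VA`, and `racc_mono`: a generator `o a * Xl 0 * o b * Xl 1 * o c` of `Bil 0 1` is `o a * D b * o c`; a generator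
`o a * Xl 1 * o b * Xl 0 * o c` is congruent to it modulo `Sw 0 1 ≤ VA P 0 1` (`s + eB (sw 0 1) s` with `s = o a * Xl 0 * o b * Xl 1 * o c ∈ Bil 0 1`; `sw_free` for `a`, `b`, `c`). -/
theorem racc_Bil {P : AddSubgroup FB} (hP : Ids P) : RAcc (Bil 0 1) (VA P 0 1) := by
  have hD : ∀ (φ : F →* F) (v : F), eB (pl2 φ) ((fun v => Xl 0 * o v * Xl 1) v) = (fun v => Xl 0 * o v * Xl 1) (pl2 φ v) := by
    intro φ v
    show eB (pl2 φ) (Xl 0 * o v * Xl 1) = Xl 0 * o (pl2 φ v) * Xl 1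
    rw [map_mul, map_mul, RA5a_Xl0, RA5a_Xl1, eB_o]
  have h := racc_D (dhypA hP (L := ∅) (y := 0) (z := 1) (by norm_num) (Finset.notMem_empty _) (Finset.notMem_empty _))
    (St2_VA hP.ti) hD
  refine racc_mono ?_ h
  have key : ∀ a b c : F, o a * Xl 0 * o b * Xl 1 * o c ∈
      AddSubgroup.closure {r | ∃ a v b : F, r = o a * (fun v => Xl 0 * o v * Xl 1) v * o b} ⊔ VA P 0 1 := by
    intro a b c
    refine AddSubgroup.mem_sup_left (AddSubgroup.subset_closure ⟨a, b, c, ?_⟩)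
    show o a * Xl 0 * o b * Xl 1 * o c = o a * (Xl 0 * o b * Xl 1) * o c
    simp only [mul_assoc]
  have hle : Bil 0 1 ≤ AddSubgroup.closure {r | ∃ a v b : F, r = o a * (fun v => Xl 0 * o v * Xl 1) v * o b} ⊔ VA P 0 1 := by
    unfold Bil
    rw [AddSubgroup.closure_le]
    rintro r ⟨a, b, c, ha, hb, hc, h1 | h1⟩
    · rw [h1]
      exact key a b c
    · rw [h1]
      have hs : o a * Xl 0 * o b * Xl 1 * o c ∈ Bil 0 1 := AddSubgroup.subset_closure ⟨a, b, c, ha, hb, hc, Or.inl rfl⟩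
      have hX0 : eB (sw 0 1) (Xl 0) = Xl 1 := by
        unfold Xl
        rw [eB_C, sw_x, if_pos rfl]
      have hX1 : eB (sw 0 1) (Xl 1) = Xl 0 := by
        unfold Xl
        rw [eB_C, sw_x, if_neg (by norm_num), if_pos rfl]
      have e : eB (sw 0 1) (o a * Xl 0 * o b * Xl 1 * o c) = o a * Xl 1 * o b * Xl 0 * o c := by
        rw [map_mul, map_mul, map_mul, map_mul, eB_o, eB_o, eB_o, hX0, hX1, sw_free ha, sw_free hb, sw_free hc]
      have h2 : o a * Xl 0 * o b * Xl 1 * o c + eB (sw 0 1) (o a * Xl 0 * o b * Xl 1 * o c) ∈ VA P 0 1 := by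
        have h3 : o a * Xl 0 * o b * Xl 1 * o c + eB (sw 0 1) (o a * Xl 0 * o b * Xl 1 * o c) ∈ Sw 0 1 :=
          AddSubgroup.subset_closure ⟨_, hs, rfl⟩
        unfold VA
        exact AddSubgroup.mem_sup_left (AddSubgroup.mem_sup_left (AddSubgroup.mem_sup_left h3))
      have h4 := add_mem (key a b c) (AddSubgroup.mem_sup_right (S := AddSubgroup.closure {r | ∃ a v b : F, r = o a * (fun v => Xl 0 * o v * Xl 1) v * o b}) h2)
      rwa [← add_assoc, fb_add_self, zero_add, e] at h4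
  exact hle

/-- **`EI`.**
PROOF: `racc_D` with `D v = ee v 0 1`, `W = P ⊔ I2 0 ⊔ I2 1`, `dhypE hP (L := ∅)`, and `racc_mono` (`EI 0 1 = idl {ee g 0 1}` is the closure of the `o a * ee g 0 1 * o b`);
`eB (pl2 φ) (ee v 0 1) = ee (pl2 φ v) 0 1`. -/
theorem racc_EI {P : AddSubgroup FB} (hP : Ids P) : RAcc (EI 0 1) (P ⊔ I2 0 ⊔ I2 1) := by
  have hD : ∀ (φ : F →* F) (v : F), eB (pl2 φ) ((fun v => E4.X.ee v 0 1) v) = (fun v => E4.X.ee v 0 1) (pl2 φ v) := by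
    intro φ v
    show eB (pl2 φ) (E4.X.ee v 0 1) = E4.X.ee (pl2 φ v) 0 1
    unfold E4.X.ee
    rw [map_add, map_mul, map_mul, map_mul, map_mul, map_mul, map_mul, RA5a_Xl0, RA5a_Xl1, eB_T, eB_C]
  have h := racc_D (dhypE hP (L := ∅) (y := 0) (z := 1) (by norm_num) (Finset.notMem_empty _) (Finset.notMem_empty _))
    (((St2_TI hP.ti).sup St2_I2_0).sup St2_I2_1) hD
  refine racc_mono ?_ h
  have hle : EI 0 1 ≤ AddSubgroup.closure {r | ∃ a v b : F, r = o a * (fun v => E4.X.ee v 0 1) v * o b} ⊔ (P ⊔ I2 0 ⊔ I2 1) := by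
    unfold EI idl
    rw [AddSubgroup.closure_le]
    rintro r ⟨a, b, s, ⟨g, hs⟩, hr⟩
    rw [hr, hs]
    exact AddSubgroup.mem_sup_left (AddSubgroup.subset_closure ⟨a, g, b, rfl⟩)
  exact hle

end E4.RA
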