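import Pool.Agent.Lib.MP_8a95e3_al.RA2
import Pool.Agent.Lib.MP_8a95e3_al.RA4

/-!
# RA5b : the layer `P / K0`
-/

noncomputable section

namespace E4.RA

open E4 E4.X E4.N

/-- the substitution -/
private def RA5b_as (g : Fin 6 → F) : F →* F :=
  FreeGroup.lift fun j => if j = 0 then g 1 else if j = 1 then g 2 else if j = 2 then g 3 else if j = 3 then g 4 else 1

private theorem RA5b_x (g : Fin 6 → F) (j : ℕ) :
    RA5b_as g (x j) = if j = 0 then g 1 else if j = 1 then g 2 else if j = 2 then g 3 else if j = 3 then g 4 else 1 := by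
  unfold RA5b_as
  exact FreeGroup.lift_apply_of

private theorem RA5b_coef (hG : GenF) {r : FB} (hr : r ∈ RG) (φ : F →* F) (b : F) {u v : F} (h : cl u = cl v) :
    o u * eB φ r * o b + o v * eB φ r * o b ∈ K0 := by
  refine XF_cl (f := fun a => o a * eB φ r * o b) (fun a c => ?_) h
  have h1 := hG.gl (hr) φ c
  have h2 := K0_TI.right (o b) _ (K0_TI.left (o a) _ h1)
  have e : o (a * c ^ 2) * eB φ r * o b + o a * eB φ r * o b =
      o a * (C (c ^ 2) * eB φ r) * o b := by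
    unfold C
    rw [add_mul, one_mul, mul_add, add_mul, map_mul, mul_assoc (o a) (o (c ^ 2))]
  show o (a * c ^ 2) * eB φ r * o b + o a * eB φ r * o b ∈ K0
  rw [e]
  exact h2

private theorem RA5b_coef' (hG : GenF) {r : FB} (hr : r ∈ RG) (φ : F →* F) (a : F) {u v : F} (h : cl u = cl v) :
    o a * eB φ r * o u + o a * eB φ r * o v ∈ K0 := by
  refine XF_cl (f := fun b => o a * eB φ r * o b) (fun b c => ?_) h
  have h1 := hG.gr (hr) φ (b * c * b⁻¹)
  have h2 := K0_TI.right (o b) _ (K0_TI.left (o a) _ h1)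
  have e0 : b * c ^ 2 = (b * c * b⁻¹) ^ 2 * b := by
    simp only [pow_two, mul_assoc, inv_mul_cancel, inv_mul_cancel_left, mul_one]
  have e : o a * eB φ r * o (b * c ^ 2) + o a * eB φ r * o b =
      o a * (eB φ r * C ((b * c * b⁻¹) ^ 2)) * o b := by
    rw [e0, map_mul]
    unfold C
    rw [mul_add, mul_one, mul_add, add_mul]
    simp only [mul_assoc]
  show o a * eB φ r * o (b * c ^ 2) + o a * eB φ r * o b ∈ K0
  rw [e]
  exact h2

private theorem RA5b_cancel (a b c : FB) : a + b + (b + c) = a + c := by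
  have h := fb_add_self b
  calc a + b + (b + c) = a + (b + b) + c := by abel
    _ = a + c := by rw [h, add_zero]

/-- one step -/
private theorem RA5b_step (hG : GenF) {R : Set FB} {Q : AddSubgroup FB} {s : ℕ} (r : Fin s → FB) (hQ : TI Q)
    (hKQ : K0 ≤ Q) (hr : ∀ i, r i ∈ RG) (hR : ∀ q ∈ R, ∃ i, q = r i)
    (hi : ∀ i, ∀ φ ψ : F →* F, (∀ j, cl (φ (x j)) = cl (ψ (x j))) → eB φ (r i) + eB ψ (r i) ∈ Q) :
    RAcc (PG R) Q := by
  refine racc_ins (s := s) (n := 6) (fun i g => o (g 0) * eB (RA5b_as g) (r i) * o (g 5)) (St2_TI hQ) ?_ ?_ ?_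
  · intro φ i g
    show eB (pl2 φ) (o (g 0) * eB (RA5b_as g) (r i) * o (g 5)) =
      o (pl2 φ (g 0)) * eB (RA5b_as fun k => pl2 φ (g k)) (r i) * o (pl2 φ (g 5))
    rw [map_mul, map_mul, eB_o, eB_o, eB_comp]
    have e : (pl2 φ).comp (RA5b_as g) = RA5b_as fun k => pl2 φ (g k) := by
      refine hom_ext fun j => ?_
      show pl2 φ (RA5b_as g (x j)) = _
      rw [RA5b_x, RA5b_x]
      split_ifs
      · rfl
      · rfl
      · rfl
      · rfl
      · exact map_one _
    rw [e]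
  · intro i g g' h
    show o (g 0) * eB (RA5b_as g) (r i) * o (g 5) + o (g' 0) * eB (RA5b_as g') (r i) * o (g' 5) ∈ Q
    have h1 := hKQ (RA5b_coef hG (hr i) (RA5b_as g) (g 5) (h 0))
    have h2 := hKQ (RA5b_coef' hG (hr i) (RA5b_as g) (g' 0) (h 5))
    have h3 : eB (RA5b_as g) (r i) + eB (RA5b_as g') (r i) ∈ Q := by
      refine hi i _ _ fun j => ?_
      rw [RA5b_x, RA5b_x]
      split_ifs
      · exact h 1
      · exact h 2
      · exact h 3
      · exact h 4
      · rfl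
    have h4 := hQ.right (o (g' 5)) _ (hQ.left (o (g' 0)) _ h3)
    rw [mul_add, add_mul] at h4
    have h5 := add_mem (add_mem h1 h2) h4
    rwa [RA5b_cancel, RA5b_cancel] at h5
  · unfold PG idl
    rw [AddSubgroup.closure_le]
    rintro q ⟨a, b, t, hs | hs, rfl⟩
    · obtain ⟨h, rfl⟩ := hs
      exact AddSubgroup.mem_sup_right (hQ.right _ _ (hQ.left _ _ (hQ.cube h)))
    · obtain ⟨φ, t, ht, rfl⟩ := hs
      refine AddSubgroup.mem_sup_left (AddSubgroup.subset_closure ?_)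
      have e0 : RA5b_as ![a, φ (x 0), φ (x 1), φ (x 2), φ (x 3), b] (x 0) = φ (x 0) := by rw [RA5b_x]; rfl
      have e1 : RA5b_as ![a, φ (x 0), φ (x 1), φ (x 2), φ (x 3), b] (x 1) = φ (x 1) := by rw [RA5b_x]; rfl
      have e2 : RA5b_as ![a, φ (x 0), φ (x 1), φ (x 2), φ (x 3), b] (x 2) = φ (x 2) := by rw [RA5b_x]; rfl
      have e3 : RA5b_as ![a, φ (x 0), φ (x 1), φ (x 2), φ (x 3), b] (x 3) = φ (x 3) := by rw [RA5b_x]; rfl
      have key : ∀ t ∈ RG, eB (RA5b_as ![a, φ (x 0), φ (x 1), φ (x 2), φ (x 3), b]) t = eB φ t := by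
        rintro t (rfl | rfl | rfl)
        · rw [eB_t2, eB_t2, e0, e1]
        · rw [eB_c3, eB_c3, e0, e1, e2]
        · rw [eB_c4, eB_c4, e0, e1, e2, e3]
      obtain ⟨i, rfl⟩ := hR t ht
      refine ⟨i, ![a, φ (x 0), φ (x 1), φ (x 2), φ (x 3), b], ?_⟩
      show o a * eB φ (r i) * o b = o a * eB (RA5b_as ![a, φ (x 0), φ (x 1), φ (x 2), φ (x 3), b]) (r i) * o b
      rw [key _ (hr i)]

/-- **`PG RG / K0`**, in two steps. -/
theorem racc_PG (hG : GenF) : RAcc (PG RG) K0 := by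
  have hQ : TI (PG RG2) := PG_TI _
  have h1 : RAcc (PG RG) (PG RG2) := by
    refine RA5b_step hG ![t2 (x 0) (x 1), c3 (x 0) (x 1) (x 2), c4 (x 0) (x 1) (x 2) (x 3)] hQ K0_le_RG2 ?_ ?_ ?_
    · intro i
      fin_cases i
      · exact Or.inl rfl
      · exact Or.inr (Or.inl rfl)
      · exact Or.inr (Or.inr rfl)
    · rintro q (h | h | h)
      · exact ⟨0, h⟩
      · exact ⟨1, h⟩
      · exact ⟨2, h⟩
    · intro i φ ψ h
      refine hG.ins ?_ φ ψ h
      fin_cases i
      · exact Or.inl rfl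
      · exact Or.inr (Or.inl rfl)
      · exact Or.inr (Or.inr rfl)
  have h2 : RAcc (PG RG2) K0 := by
    refine RA5b_step hG ![t2 (x 0) (x 1), c3 (x 0) (x 1) (x 2)] K0_TI le_rfl ?_ ?_ ?_
    · intro i
      fin_cases i
      · exact Or.inl rfl
      · exact Or.inr (Or.inl rfl)
    · rintro q (h | h)
      · exact ⟨0, h⟩
      · exact ⟨1, h⟩
    · intro i φ ψ h
      refine hG.ins2 ?_ φ ψ h
      fin_cases i
      · exact Or.inl rfl
      · exact Or.inr rfl
  exact racc_step K0_le_RG2 (St2_TI hQ) h1 (racc_mono (R := PG RG2) (inf_le_right.trans le_sup_left) h2)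

end E4.RA
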