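import Pool.Agent.Lib.MP_8a95e3_al.X12b

/-!
# X12c : step A, ring part: exchange of the letters
-/

noncomputable section

namespace E4.X

open E4

private theorem X12c_e (a b c : FB) : a + c = (b + c) + (a + b) := by
  have h : (b + c) + (a + b) = a + c + (b + b) := by abel
  rw [h, fb_add_self, add_zero]

/-- the letters `y`, `z` are killed -/
private def X12c_f (y z : ℕ) : F →* F := (rp y 1).comp (rp z 1)

private theorem X12c_fx (y z i : ℕ) : X12c_f y z (x i) = if i = z then 1 else if i = y then 1 else x i := by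
  unfold X12c_f
  rw [MonoidHom.comp_apply, rp_x]
  by_cases h1 : i = z
  · rw [if_pos h1, if_pos h1, map_one]
  · rw [if_neg h1, if_neg h1, rp_x]

private theorem X12c_ap {φ ψ : F →* F} (e : φ = ψ) (a : F) : φ a = ψ a := by rw [e]

private theorem X12c_fr (y z : ℕ) (g : F) : Fr y z (X12c_f y z g) := by
  have e1 : (rp y 1).comp (X12c_f y z) = X12c_f y z := by
    refine hom_ext fun i => ?_
    rw [MonoidHom.comp_apply, X12c_fx]
    by_cases h1 : i = z
    · rw [if_pos h1, map_one]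
    · rw [if_neg h1]
      by_cases h2 : i = y
      · rw [if_pos h2, map_one]
      · rw [if_neg h2, rp_x, if_neg h2]
  have e2 : (rp z 1).comp (X12c_f y z) = X12c_f y z := by
    refine hom_ext fun i => ?_
    rw [MonoidHom.comp_apply, X12c_fx]
    by_cases h1 : i = z
    · rw [if_pos h1, map_one]
    · rw [if_neg h1]
      by_cases h2 : i = y
      · rw [if_pos h2, map_one]
      · rw [if_neg h2, rp_x, if_neg h1]
  exact ⟨X12c_ap e1 g, X12c_ap e2 g⟩

private theorem X12c_fox (y z : ℕ) (g : F) : o g + o (X12c_f y z g) ∈ I1 y ⊔ I1 z := by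
  have h1 := fox z g
  have h2 := fox y (rp z 1 g)
  have h3 : o g + o (X12c_f y z g) = (o (rp z 1 g) + o (rp y 1 (rp z 1 g))) + (o g + o (rp z 1 g)) :=
    X12c_e _ _ _
  rw [h3]
  exact AddSubgroup.mem_sup.2 ⟨_, h2, _, h1, rfl⟩

private theorem X12c_X1 (j : ℕ) : Xl j ∈ I1 j := sub_idl rfl

/-- `Y … Y` -/
private theorem X12c_X2 (j : ℕ) (a : FB) : Xl j * a * Xl j ∈ I2 j :=
  mul_I1_I1 ((I1_bi j).mul_right _ (X12c_X1 j)) (X12c_X1 j)

/-- three coefficients may be changed -/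
private theorem X12c_tri {y z : ℕ} {a b c a' b' c' : FB} (ha : a + a' ∈ I1 y ⊔ I1 z) (hb : b + b' ∈ I1 y ⊔ I1 z)
    (hc : c + c' ∈ I1 y ⊔ I1 z) : a * Xl y * b * Xl z * c + a' * Xl y * b' * Xl z * c' ∈ I2 y ⊔ I2 z := by
  have h1 : (a + a') * Xl y * b * Xl z * c ∈ I2 y ⊔ I2 z := by
    obtain ⟨p, hp, q, hq, h⟩ := AddSubgroup.mem_sup.1 ha
    rw [← h, add_mul, add_mul, add_mul, add_mul]
    refine AddSubgroup.mem_sup.2 ⟨_, (I2_bi y).mul_right _ ((I2_bi y).mul_right _ ((I2_bi y).mul_right _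
      (mul_I1_I1 hp (X12c_X1 y)))), _, (I2_bi z).mul_right _ (mul_I1_I1 ((I1_bi z).mul_right _ ((I1_bi z).mul_right _ hq))
      (X12c_X1 z)), rfl⟩
  have h2 : a' * Xl y * (b + b') * Xl z * c ∈ I2 y ⊔ I2 z := by
    obtain ⟨p, hp, q, hq, h⟩ := AddSubgroup.mem_sup.1 hb
    rw [← h, mul_add, add_mul, add_mul]
    refine AddSubgroup.mem_sup.2 ⟨_, (I2_bi y).mul_right _ ((I2_bi y).mul_right _ (mul_I1_I1 ((I1_bi y).mul_left _
      (X12c_X1 y)) hp)), _, (I2_bi z).mul_right _ (mul_I1_I1 ((I1_bi z).mul_left _ hq) (X12c_X1 z)), rfl⟩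
  have h3 : a' * Xl y * b' * Xl z * (c + c') ∈ I2 y ⊔ I2 z := by
    obtain ⟨p, hp, q, hq, h⟩ := AddSubgroup.mem_sup.1 hc
    rw [← h, mul_add]
    refine AddSubgroup.mem_sup.2 ⟨_, mul_I1_I1 ((I1_bi y).mul_right _ ((I1_bi y).mul_right _ ((I1_bi y).mul_left _
      (X12c_X1 y)))) hp, _, mul_I1_I1 ((I1_bi z).mul_left _ (X12c_X1 z)) hq, rfl⟩
  have h4 : a * Xl y * b * Xl z * c + a' * Xl y * b' * Xl z * c' =
      (a + a') * Xl y * b * Xl z * c + a' * Xl y * (b + b') * Xl z * c + a' * Xl y * b' * Xl z * (c + c') := by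
    have h5 := fb_add_self (a' * Xl y * b * Xl z * c)
    have h6 := fb_add_self (a' * Xl y * b' * Xl z * c)
    have h7 : (a + a') * Xl y * b * Xl z * c + a' * Xl y * (b + b') * Xl z * c + a' * Xl y * b' * Xl z * (c + c') =
        a * Xl y * b * Xl z * c + a' * Xl y * b' * Xl z * c' + (a' * Xl y * b * Xl z * c + a' * Xl y * b * Xl z * c) +
        (a' * Xl y * b' * Xl z * c + a' * Xl y * b' * Xl z * c) := by
      simp only [add_mul, mul_add]
      abel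
    rw [h7, h5, h6, add_zero, add_zero]
  rw [h4]
  exact AddSubgroup.add_mem _ (AddSubgroup.add_mem _ h1 h2) h3

private theorem X12c_p1 (y z : ℕ) (a b c : F) : o a * Xl y * o b * Xl z * o c +
    o (X12c_f y z a) * Xl y * o (X12c_f y z b) * Xl z * o (X12c_f y z c) ∈ I2 y ⊔ I2 z :=
  X12c_tri (X12c_fox y z a) (X12c_fox y z b) (X12c_fox y z c)

private theorem X12c_p2 (y z : ℕ) (a b c : F) : o a * Xl z * o b * Xl y * o c +
    o (X12c_f y z a) * Xl z * o (X12c_f y z b) * Xl y * o (X12c_f y z c) ∈ I2 y ⊔ I2 z := by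
  have h : ∀ g : F, o g + o (X12c_f y z g) ∈ I1 z ⊔ I1 y := fun g => by
    rw [sup_comm]
    exact X12c_fox y z g
  rw [sup_comm]
  exact X12c_tri (h a) (h b) (h c)

private theorem X12c_t4 (y z : ℕ) (u g v : F) : o u * tau y z g * o v =
    o u * Xl y * o 1 * Xl z * o (g * v) + o (u * g⁻¹) * Xl z * o 1 * Xl y * o v +
    o (u * g⁻¹) * Xl y * o g * Xl z * o v + o u * Xl z * o g⁻¹ * Xl y * o (g * v) := by
  unfold tau
  rw [map_one, map_mul, map_mul]
  simp only [mul_one, mul_add, add_mul, mul_assoc]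

private theorem X12c_pt (y z : ℕ) (u g v : F) : o u * tau y z g * o v +
    o (X12c_f y z u) * tau y z (X12c_f y z g) * o (X12c_f y z v) ∈ I2 y ⊔ I2 z := by
  have h1 := X12c_p1 y z u 1 (g * v)
  have h2 := X12c_p2 y z (u * g⁻¹) 1 v
  have h3 := X12c_p1 y z (u * g⁻¹) g v
  have h4 := X12c_p2 y z u g⁻¹ (g * v)
  rw [X12c_t4, X12c_t4]
  simp only [map_mul (X12c_f y z), map_inv (X12c_f y z), map_one (X12c_f y z)] at h1 h2 h3 h4 ⊢
  have h5 := AddSubgroup.add_mem _ (AddSubgroup.add_mem _ (AddSubgroup.add_mem _ h1 h2) h3) h4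
  refine (congrArg (fun r => r ∈ I2 y ⊔ I2 z) ?_).mp h5
  abel

private theorem X12c_swy (y z : ℕ) : eB (sw y z) (Xl y) = Xl z := by
  unfold Xl
  rw [eB_C, sw_x, if_pos rfl]

private theorem X12c_swz (y z : ℕ) : eB (sw y z) (Xl z) = Xl y := by
  unfold Xl
  rw [eB_C, sw_x]
  by_cases h : z = y
  · rw [if_pos h, h]
  · rw [if_neg h, if_pos rfl]

private theorem X12c_swN {y z : ℕ} {w : FB} (hw : w ∈ I2 y ⊔ I2 z) : eB (sw y z) w ∈ I2 y ⊔ I2 z := by
  obtain ⟨a, ha, b, hb, rfl⟩ := AddSubgroup.mem_sup.1 hw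
  rw [map_add]
  refine AddSubgroup.add_mem _ ?_ ?_
  · refine AddSubgroup.mem_sup_right (eB_idl (I2_bi z) (sw y z) (fun s hs => ?_) ha)
    obtain ⟨c, rfl⟩ := hs
    rw [map_mul, map_mul, eB_o, X12c_swy]
    exact X12c_X2 z _
  · refine AddSubgroup.mem_sup_left (eB_idl (I2_bi y) (sw y z) (fun s hs => ?_) hb)
    obtain ⟨c, rfl⟩ := hs
    rw [map_mul, map_mul, eB_o, X12c_swz]
    exact X12c_X2 y _

private theorem X12c_le {P : AddSubgroup FB} {y z : ℕ} : I2 y ⊔ I2 z ≤ NN P y z := by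
  unfold NN
  exact sup_le ((le_sup_right.trans le_sup_left).trans le_sup_left) (le_sup_right.trans le_sup_left)

private theorem X12c_ks {P : AddSubgroup FB} (hP : Ids P) {y z : ℕ} (hyz : y ≠ z) (q : FB × FB) (h : q ∈ KP y z) :
    q.2 + eB (sw y z) q.2 ∈ NN P y z := by
  induction h using AddSubgroup.closure_induction with
  | mem r hr =>
    obtain ⟨u, g, v, rfl⟩ := hr
    have h1 := X12c_pt y z u g v
    have h2 := X12c_swN h1
    have h3 : eB (sw y z) (o (X12c_f y z u) * tau y z (X12c_f y z g) * o (X12c_f y z v)) =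
        o (X12c_f y z u) * tau z y (X12c_f y z g) * o (X12c_f y z v) := by
      unfold tau
      simp only [map_mul, map_add, eB_o, X12c_swy, X12c_swz, map_inv, sw_free (X12c_fr y z u),
        sw_free (X12c_fr y z g), sw_free (X12c_fr y z v)]
    rw [map_add, h3] at h2
    have h4 := (NN_bi hP.ti y z).right (X12c_f y z v) _ ((NN_bi hP.ti y z).left (X12c_f y z u) _
      (hP.ksym y z hyz (X12c_f y z g)))
    have h5 := AddSubgroup.add_mem _ (AddSubgroup.add_mem _ (X12c_le h1) (X12c_le h2)) h4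
    refine (congrArg (fun r => r ∈ NN P y z) ?_).mp h5
    show _ = o u * tau y z g * o v + eB (sw y z) (o u * tau y z g * o v)
    obtain ⟨A, hA⟩ : ∃ A, A = o (X12c_f y z u) * tau y z (X12c_f y z g) * o (X12c_f y z v) := ⟨_, rfl⟩
    obtain ⟨B, hB⟩ : ∃ B, B = o (X12c_f y z u) * tau z y (X12c_f y z g) * o (X12c_f y z v) := ⟨_, rfl⟩
    have h6 : o (X12c_f y z u) * (tau y z (X12c_f y z g) + tau z y (X12c_f y z g)) * o (X12c_f y z v) = A + B := by
      rw [hA, hB, mul_add, add_mul]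
    rw [h6, ← hA, ← hB]
    have h7 : o u * tau y z g * o v + A + (eB (sw y z) (o u * tau y z g * o v) + B) + (A + B) =
        o u * tau y z g * o v + eB (sw y z) (o u * tau y z g * o v) + (A + A) + (B + B) := by abel
    rw [h7, fb_add_self, fb_add_self, add_zero, add_zero]
  | zero =>
    show (0 : FB) + eB (sw y z) 0 ∈ _
    rw [map_zero, add_zero]
    exact AddSubgroup.zero_mem _
  | add a b _ _ ha hb =>
    have h1 : (a + b).2 + eB (sw y z) (a + b).2 = (a.2 + eB (sw y z) a.2) + (b.2 + eB (sw y z) b.2) := by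
      show (a.2 + b.2) + eB (sw y z) (a.2 + b.2) = _
      rw [map_add]
      abel
    rw [h1]
    exact AddSubgroup.add_mem _ ha hb
  | neg a _ ha =>
    have h1 : (-a).2 = a.2 := fb_neg _
    rw [h1]
    exact ha

/-- PROOF: closure induction: `tau y z g + tau z y g ∈ NN` (`ksym`), `eB (sw y z) (o u * tau y z g * o v) ≡ o u * tau z y g * o v` mod `I2 y ⊔ I2 z` (for `u, g, v` free of `y`, `z`; in general kill `y`, `z` first: mod `I2 y ⊔ I2 z`, `fox`). -/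
theorem k_sw {P : AddSubgroup FB} (hP : Ids P) {y z : ℕ} (hyz : y ≠ z) {w k : FB} (h : (w, k) ∈ KP y z) : k + eB (sw y z) k ∈ NN P y z :=
  X12c_ks hP hyz (w, k) h

private theorem X12c_rs {y z : ℕ} (q : FB × FB) (h : q ∈ RP y z) :
    ((q.1, q.2 + eB (sw y z) q.2) : FB × FB) ∈ BP y z := by
  induction h using AddSubgroup.closure_induction with
  | mem r hr =>
    obtain ⟨u, v, hu, hv, rfl⟩ := hr
    refine AddSubgroup.subset_closure ⟨u, v, hu, hv, Prod.ext rfl ?_⟩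
    show o u * (Xl y * Xl z) * o v + eB (sw y z) (o u * (Xl y * Xl z) * o v) = o u * (Xl y * Xl z + Xl z * Xl y) * o v
    rw [map_mul, map_mul, map_mul, eB_o, eB_o, sw_free hu, sw_free hv, X12c_swy, X12c_swz, mul_add, add_mul]
  | zero =>
    have h1 : (((0 : FB × FB).1, (0 : FB × FB).2 + eB (sw y z) (0 : FB × FB).2) : FB × FB) = 0 :=
      Prod.ext rfl (by show (0 : FB) + eB (sw y z) 0 = 0; rw [map_zero, add_zero])
    rw [h1]
    exact AddSubgroup.zero_mem _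
  | add a b _ _ ha hb =>
    have h1 : (((a + b).1, (a + b).2 + eB (sw y z) (a + b).2) : FB × FB) =
        (a.1, a.2 + eB (sw y z) a.2) + (b.1, b.2 + eB (sw y z) b.2) :=
      Prod.ext rfl (by
        show (a.2 + b.2) + eB (sw y z) (a.2 + b.2) = (a.2 + eB (sw y z) a.2) + (b.2 + eB (sw y z) b.2)
        rw [map_add]
        abel)
    rw [h1]
    exact AddSubgroup.add_mem _ ha hb
  | neg a _ ha =>
    have h1 : (-a).1 = a.1 := fb_neg _
    have h2 : (-a).2 = a.2 := fb_neg _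
    rw [h1, h2]
    exact ha

/-- PROOF: `eB (sw y z) (Xl y * Xl z) = Xl z * Xl y`; closure induction, the coefficients are free. -/
theorem r_sw {y z : ℕ} (hyz : y ≠ z) {t r : FB} (h : (t, r) ∈ RP y z) : (t, r + eB (sw y z) r) ∈ BP y z :=
  X12c_rs (t, r) h

/-- a word free of `y` is fixed by `x_y ↦ g` -/
private theorem X12c_fix {y : ℕ} (g : F) {u : F} (h : rp y 1 u = u) : rp y g u = u := by
  have e : (rp y g).comp (rp y 1) = rp y 1 := by
    refine hom_ext fun i => ?_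
    rw [MonoidHom.comp_apply, rp_x]
    by_cases h1 : i = y
    · rw [if_pos h1, map_one]
    · rw [if_neg h1, rp_x, if_neg h1]
  have h1 := X12c_ap e u
  rw [MonoidHom.comp_apply, h] at h1
  exact h1

private theorem X12c_E (y z : ℕ) : C (x y * x z) = Xl y + Xl z + Xl y * Xl z := C_mul _ _

private theorem X12c_EE (y z : ℕ) : C ((x y * x z) ^ 2) + (Xl y * Xl z + Xl z * Xl y) ∈ I2 y ⊔ I2 z := by
  rw [C_sq, X12c_E]
  obtain ⟨Y, hY⟩ : ∃ Y, Y = Xl y := ⟨_, rfl⟩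
  obtain ⟨Z, hZ⟩ : ∃ Z, Z = Xl z := ⟨_, rfl⟩
  have e : (Y + Z + Y * Z) ^ 2 + (Y * Z + Z * Y) = Y * 1 * Y + Y * 1 * Y * Z + Y * Z * Y + Y * Z * Y * Z +
      (Z * 1 * Z + Z * Y * Z + Y * (Z * 1 * Z)) + ((Y * Z + Y * Z) + (Z * Y + Z * Y)) := by
    simp only [pow_two, mul_one, mul_add, add_mul, mul_assoc]
    abel
  rw [hY, hZ] at e
  rw [e, fb_add_self, fb_add_self, add_zero, add_zero]
  refine AddSubgroup.mem_sup.2 ⟨_, ?_, _, ?_, rfl⟩
  · exact AddSubgroup.add_mem _ (AddSubgroup.add_mem _ (AddSubgroup.add_mem _ (X12c_X2 y _)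
      ((I2_bi y).mul_right _ (X12c_X2 y _))) (X12c_X2 y _)) ((I2_bi y).mul_right _ (X12c_X2 y _))
  · exact AddSubgroup.add_mem _ (AddSubgroup.add_mem _ (X12c_X2 z _) (X12c_X2 z _))
      ((I2_bi z).mul_left _ (X12c_X2 z _))

private theorem X12c_bb {y z : ℕ} (q : FB × FB) (h : q ∈ BP y z) :
    eB (rp y ((x y * x z) ^ 2)) q.1 + q.2 ∈ I2 y ⊔ I2 z := by
  induction h using AddSubgroup.closure_induction with
  | mem r hr =>
    obtain ⟨u, v, hu, hv, rfl⟩ := hr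
    have h1 : eB (rp y ((x y * x z) ^ 2)) (o u * Xl y * o v) + o u * (Xl y * Xl z + Xl z * Xl y) * o v =
        o u * (C ((x y * x z) ^ 2) + (Xl y * Xl z + Xl z * Xl y)) * o v := by
      rw [map_mul, map_mul, eB_o, eB_o, X12c_fix _ hu.1, X12c_fix _ hv.1, eB_Xl_rp_self, mul_add (o u)
        (C ((x y * x z) ^ 2)), add_mul]
    show eB (rp y ((x y * x z) ^ 2)) (o u * Xl y * o v) + o u * (Xl y * Xl z + Xl z * Xl y) * o v ∈ _
    rw [h1]
    exact ((I2_bi y).sup (I2_bi z)).right _ _ (((I2_bi y).sup (I2_bi z)).left _ _ (X12c_EE y z))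
  | zero =>
    show eB (rp y ((x y * x z) ^ 2)) 0 + 0 ∈ _
    rw [map_zero, add_zero]
    exact AddSubgroup.zero_mem _
  | add a b _ _ ha hb =>
    have h1 : eB (rp y ((x y * x z) ^ 2)) (a + b).1 + (a + b).2 =
        (eB (rp y ((x y * x z) ^ 2)) a.1 + a.2) + (eB (rp y ((x y * x z) ^ 2)) b.1 + b.2) := by
      show eB (rp y ((x y * x z) ^ 2)) (a.1 + b.1) + (a.2 + b.2) = _
      rw [map_add]
      abel
    rw [h1]
    exact AddSubgroup.add_mem _ ha hb
  | neg a _ ha =>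
    have h1 : (-a).1 = a.1 := fb_neg _
    have h2 : (-a).2 = a.2 := fb_neg _
    rw [h1, h2]
    exact ha

/-- PROOF: closure induction; `C ((x y x z)^2) = (Y + Z + Y Z)^2 ≡ Y Z + Z Y` mod `I2 y ⊔ I2 z`. -/
theorem bp_br {y z : ℕ} (hyz : y ≠ z) {t s : FB} (h : (t, s) ∈ BP y z) : eB (rp y ((x y * x z) ^ 2)) t + s ∈ I2 y ⊔ I2 z :=
  X12c_bb (t, s) h

private theorem X12c_rr {y z : ℕ} (q : FB × FB) (h : q ∈ RP y z) :
    eB (rp y (x y * x z)) q.1 = q.1 + eB (rp y (x z)) q.1 + q.2 := by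
  induction h using AddSubgroup.closure_induction with
  | mem r hr =>
    obtain ⟨u, v, hu, hv, rfl⟩ := hr
    show eB (rp y (x y * x z)) (o u * Xl y * o v) = o u * Xl y * o v + eB (rp y (x z)) (o u * Xl y * o v) +
      o u * (Xl y * Xl z) * o v
    rw [map_mul, map_mul, eB_o, eB_o, X12c_fix _ hu.1, X12c_fix _ hv.1, eB_Xl_rp_self, map_mul, map_mul, eB_o, eB_o,
      X12c_fix _ hu.1, X12c_fix _ hv.1, eB_Xl_rp_self, X12c_E]
    show o u * (Xl y + Xl z + Xl y * Xl z) * o v = o u * Xl y * o v + o u * Xl z * o v + o u * (Xl y * Xl z) * o v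
    rw [mul_add, mul_add, add_mul, add_mul]
  | zero =>
    show eB (rp y (x y * x z)) 0 = 0 + eB (rp y (x z)) 0 + 0
    rw [map_zero, map_zero, add_zero, add_zero]
  | add a b _ _ ha hb =>
    show eB (rp y (x y * x z)) (a.1 + b.1) = (a.1 + b.1) + eB (rp y (x z)) (a.1 + b.1) + (a.2 + b.2)
    rw [map_add, map_add, ha, hb]
    abel
  | neg a _ ha =>
    have h1 : (-a).1 = a.1 := fb_neg _
    have h2 : (-a).2 = a.2 := fb_neg _
    rw [h1, h2]
    exact ha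

/-- products of three elements of degree at least one -/
private theorem X12c_3 {y z : ℕ} {a b c : FB} (ha : a ∈ I1 y ⊔ I1 z) (hb : b ∈ I1 y ⊔ I1 z) (hc : c ∈ I1 y ⊔ I1 z) :
    a * b * c ∈ I2 y ⊔ I2 z := by
  obtain ⟨a1, ha1, a2, ha2, rfl⟩ := AddSubgroup.mem_sup.1 ha
  obtain ⟨b1, hb1, b2, hb2, rfl⟩ := AddSubgroup.mem_sup.1 hb
  obtain ⟨c1, hc1, c2, hc2, rfl⟩ := AddSubgroup.mem_sup.1 hc
  have e : (a1 + a2) * (b1 + b2) * (c1 + c2) = (a1 * b1 * c1 + a1 * b1 * c2 + a1 * b2 * c1 + a2 * (b1 * c1)) +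
      (a1 * (b2 * c2) + a2 * b1 * c2 + a2 * b2 * c1 + a2 * b2 * c2) := by
    simp only [mul_add, add_mul, mul_assoc]
    abel
  rw [e]
  refine AddSubgroup.mem_sup.2 ⟨_, ?_, _, ?_, rfl⟩
  · exact AddSubgroup.add_mem _ (AddSubgroup.add_mem _ (AddSubgroup.add_mem _
      ((I2_bi y).mul_right _ (mul_I1_I1 ha1 hb1)) ((I2_bi y).mul_right _ (mul_I1_I1 ha1 hb1)))
      (mul_I1_I1 ((I1_bi y).mul_right _ ha1) hc1)) ((I2_bi y).mul_left _ (mul_I1_I1 hb1 hc1))
  · exact AddSubgroup.add_mem _ (AddSubgroup.add_mem _ (AddSubgroup.add_mem _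
      ((I2_bi z).mul_left _ (mul_I1_I1 hb2 hc2)) (mul_I1_I1 ((I1_bi z).mul_right _ ha2) hc2))
      ((I2_bi z).mul_right _ (mul_I1_I1 ha2 hb2))) ((I2_bi z).mul_right _ (mul_I1_I1 ha2 hb2))

private theorem X12c_J (y z : ℕ) : Bi (I1 y ⊔ I1 z) := (I1_bi y).sup (I1_bi z)

private theorem X12c_EJ (y z : ℕ) : C (x y * x z) ∈ I1 y ⊔ I1 z := by
  rw [X12c_E]
  exact AddSubgroup.add_mem _ (AddSubgroup.add_mem _ (AddSubgroup.mem_sup_left (X12c_X1 y))
    (AddSubgroup.mem_sup_right (X12c_X1 z))) (AddSubgroup.mem_sup_left ((I1_bi y).mul_right _ (X12c_X1 y)))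

/-- the polarisation of `a Y b Y c` -/
private theorem X12c_pol (y z : ℕ) (a b c : F) : o a * (C (x y * x z) * o b * C (x y * x z)) * o c ∈
    Sw y z ⊔ (I2 y ⊔ I2 z) := by
  obtain ⟨E, hE⟩ : ∃ E, E = C (x y * x z) := ⟨_, rfl⟩
  have hEJ : E ∈ I1 y ⊔ I1 z := by rw [hE]; exact X12c_EJ y z
  have fa := X12c_fox y z a
  have fb := X12c_fox y z b
  have fc := X12c_fox y z c
  obtain ⟨a', ha'⟩ : ∃ a', a' = X12c_f y z a := ⟨_, rfl⟩
  obtain ⟨b', hb'⟩ : ∃ b', b' = X12c_f y z b := ⟨_, rfl⟩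
  obtain ⟨c', hc'⟩ : ∃ c', c' = X12c_f y z c := ⟨_, rfl⟩
  have Fa : Fr y z a' := by rw [ha']; exact X12c_fr y z a
  have Fb : Fr y z b' := by rw [hb']; exact X12c_fr y z b
  have Fc : Fr y z c' := by rw [hc']; exact X12c_fr y z c
  rw [← ha'] at fa
  rw [← hb'] at fb
  rw [← hc'] at fc
  rw [← hE]
  have h1 : (o a + o a') * (E * o b) * (E * o c) ∈ I2 y ⊔ I2 z :=
    X12c_3 fa ((X12c_J y z).mul_right _ hEJ) ((X12c_J y z).mul_right _ hEJ)
  have h2 : (o a' * E) * (o b + o b') * (E * o c) ∈ I2 y ⊔ I2 z :=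
    X12c_3 ((X12c_J y z).mul_left _ hEJ) fb ((X12c_J y z).mul_right _ hEJ)
  have h3 : (o a' * E) * (o b' * E) * (o c + o c') ∈ I2 y ⊔ I2 z :=
    X12c_3 ((X12c_J y z).mul_left _ hEJ) ((X12c_J y z).mul_left _ hEJ) fc
  have e1 : o a * (E * o b * E) * o c = (o a + o a') * (E * o b) * (E * o c) + (o a' * E) * (o b + o b') * (E * o c) +
      (o a' * E) * (o b' * E) * (o c + o c') + o a' * (E * o b' * E) * o c' := by
    have h5 := fb_add_self (o a' * (E * o b * E) * o c)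
    have h6 := fb_add_self (o a' * (E * o b' * E) * o c)
    have h7 := fb_add_self (o a' * (E * o b' * E) * o c')
    have h8 : (o a + o a') * (E * o b) * (E * o c) + (o a' * E) * (o b + o b') * (E * o c) +
        (o a' * E) * (o b' * E) * (o c + o c') + o a' * (E * o b' * E) * o c' =
        o a * (E * o b * E) * o c + (o a' * (E * o b * E) * o c + o a' * (E * o b * E) * o c) +
        (o a' * (E * o b' * E) * o c + o a' * (E * o b' * E) * o c) +
        (o a' * (E * o b' * E) * o c' + o a' * (E * o b' * E) * o c') := by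
      simp only [mul_add, add_mul, mul_assoc]
      abel
    rw [h8, h5, h6, h7, add_zero, add_zero, add_zero]
  rw [e1]
  refine AddSubgroup.add_mem _ (AddSubgroup.mem_sup_right (AddSubgroup.add_mem _ (AddSubgroup.add_mem _ h1 h2) h3)) ?_
  rw [hE, X12c_E]
  obtain ⟨Y, hY⟩ : ∃ Y, Y = Xl y := ⟨_, rfl⟩
  obtain ⟨Z, hZ⟩ : ∃ Z, Z = Xl z := ⟨_, rfl⟩
  have e2 : o a' * ((Y + Z + Y * Z) * o b' * (Y + Z + Y * Z)) * o c' =
      (o a' * Y * o b' * Z * o c' + o a' * Z * o b' * Y * o c') +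
      ((o a' * (Y * o b' * Y) * o c' + o a' * (Y * o b' * Y) * (Z * o c') + o a' * (Y * (Z * o b') * Y) * o c' +
        o a' * (Y * (Z * o b') * Y) * (Z * o c')) +
       (o a' * (Z * o b' * Z) * o c' + o a' * (Z * (o b' * Y) * Z) * o c' + (o a' * Y) * (Z * o b' * Z) * o c')) := by
    simp only [mul_add, add_mul, mul_assoc]
    abel
  rw [hY, hZ] at e2
  rw [e2]
  refine AddSubgroup.add_mem _ (AddSubgroup.mem_sup_left (AddSubgroup.subset_closure
    ⟨o a' * Xl y * o b' * Xl z * o c', AddSubgroup.subset_closure ⟨a', b', c', Fa, Fb, Fc, Or.inl rfl⟩, ?_⟩))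
    (AddSubgroup.mem_sup_right (AddSubgroup.mem_sup.2 ⟨_, ?_, _, ?_, rfl⟩))
  · simp only [map_mul, eB_o, X12c_swy, X12c_swz, sw_free Fa, sw_free Fb, sw_free Fc]
  · have hb := I2_bi y
    exact AddSubgroup.add_mem _ (AddSubgroup.add_mem _ (AddSubgroup.add_mem _
      (hb.mul_right _ (hb.mul_left _ (X12c_X2 y _))) (hb.mul_right _ (hb.mul_left _ (X12c_X2 y _))))
      (hb.mul_right _ (hb.mul_left _ (X12c_X2 y _)))) (hb.mul_right _ (hb.mul_left _ (X12c_X2 y _)))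
  · have hb := I2_bi z
    exact AddSubgroup.add_mem _ (AddSubgroup.add_mem _
      (hb.mul_right _ (hb.mul_left _ (X12c_X2 z _))) (hb.mul_right _ (hb.mul_left _ (X12c_X2 z _))))
      (hb.mul_right _ (hb.mul_left _ (X12c_X2 z _)))

private theorem X12c_polI {y z : ℕ} {i : FB} (hi : i ∈ I2 y) : eB (rp y (x y * x z)) i ∈ Sw y z ⊔ (I2 y ⊔ I2 z) := by
  induction hi using AddSubgroup.closure_induction with
  | mem r hr =>
    obtain ⟨a, b, s, ⟨c, rfl⟩, rfl⟩ := hr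
    rw [map_mul, map_mul, map_mul, map_mul, eB_o, eB_o, eB_o, eB_Xl_rp_self]
    exact X12c_pol y z _ _ _
  | zero => rw [map_zero]; exact AddSubgroup.zero_mem _
  | add a b _ _ ha hb => rw [map_add]; exact AddSubgroup.add_mem _ ha hb
  | neg a _ ha => rw [map_neg]; exact AddSubgroup.neg_mem _ ha

/-- PROOF.  `φ = rp y (x y * x z)`: `eB φ t = t + eB (rp y (x z)) t + r` mod `I2 y ⊔ I2 z` (closure induction on `RP`: `C (x y x z) = Y + Z + YZ`).  Let `t = p + i`, `p ∈ P`, `i ∈ I2 y`: `eB φ p, p, eB (rp y (x z)) p ∈ P`; `i ∈ I2 y`, `eB (rp y (x z)) i ∈ I2 z` (if `i` contains `z`: first kill `z`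
in `t`: `eB (rp z 1) t = t`); `eB φ i`: a generator `o a * (Y b Y) * o c ↦ o a' (Y + Z + YZ) b' (Y + Z + YZ) c' ≡ o a₀ (Y b₀ Z + Z b₀ Y) o c₀ ∈ Sw y z` mod `I2 y ⊔ I2 z`. -/
theorem rp_mem {P : AddSubgroup FB} (hP : Ids P) {y z : ℕ} (hyz : y ≠ z) {t r : FB} (h : (t, r) ∈ RP y z) (ht : t ∈ P ⊔ I2 y) :
    r ∈ Sw y z ⊔ (P ⊔ I2 y ⊔ I2 z) := by
  have h1 : eB (rp y (x y * x z)) t = t + eB (rp y (x z)) t + r := X12c_rr (t, r) h
  have h2 : r = eB (rp y (x y * x z)) t + t + eB (rp y (x z)) t := by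
    have h3 : t + eB (rp y (x z)) t + r + t + eB (rp y (x z)) t =
        r + (t + t) + (eB (rp y (x z)) t + eB (rp y (x z)) t) := by abel
    rw [h1, h3, fb_add_self, fb_add_self, add_zero, add_zero]
  obtain ⟨p, hp, i, hi, rfl⟩ := AddSubgroup.mem_sup.1 ht
  have h3 : r = (eB (rp y (x y * x z)) p + p + eB (rp y (x z)) p) + eB (rp y (x y * x z)) i + i + eB (rp y (x z)) i := by
    rw [h2, map_add, map_add]
    abel
  rw [h3]
  have k1 : eB (rp y (x y * x z)) p + p + eB (rp y (x z)) p ∈ P :=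
    AddSubgroup.add_mem _ (AddSubgroup.add_mem _ (hP.ti.endo _ p hp) hp) (hP.ti.endo _ p hp)
  have k2 : eB (rp y (x z)) i ∈ I2 z := by
    refine eB_idl (I2_bi z) _ (fun s hs => ?_) hi
    obtain ⟨c, rfl⟩ := hs
    rw [map_mul, map_mul, eB_o, eB_Xl_rp_self]
    exact X12c_X2 z _
  have le1 : I2 y ⊔ I2 z ≤ P ⊔ I2 y ⊔ I2 z := sup_le (le_sup_right.trans le_sup_left) le_sup_right
  have k3 : eB (rp y (x y * x z)) i ∈ Sw y z ⊔ (P ⊔ I2 y ⊔ I2 z) := sup_le_sup le_rfl le1 (X12c_polI hi)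
  exact AddSubgroup.add_mem _ (AddSubgroup.add_mem _ (AddSubgroup.add_mem _
    (AddSubgroup.mem_sup_right (AddSubgroup.mem_sup_left (AddSubgroup.mem_sup_left k1))) k3)
    (AddSubgroup.mem_sup_right (AddSubgroup.mem_sup_left (AddSubgroup.mem_sup_right hi))))
    (AddSubgroup.mem_sup_right (AddSubgroup.mem_sup_right k2))

/-- PROOF: `bp_br` and `br_I2`. -/
theorem bp_mem {P : AddSubgroup FB} (hP : Ids P) {y z : ℕ} (hyz : y ≠ z) {t s : FB} (h : (t, s) ∈ BP y z) (ht : t ∈ P ⊔ I2 y) :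
    s ∈ P ⊔ I2 y ⊔ I2 z := by
  have h1 := bp_br hyz h
  obtain ⟨p, hp, i, hi, rfl⟩ := AddSubgroup.mem_sup.1 ht
  have h2 := br_I2 hyz hi
  rw [map_add] at h1
  have le1 : I2 y ⊔ I2 z ≤ P ⊔ I2 y ⊔ I2 z := sup_le (le_sup_right.trans le_sup_left) le_sup_right
  have h3 : eB (rp y ((x y * x z) ^ 2)) p ∈ P ⊔ I2 y ⊔ I2 z :=
    AddSubgroup.mem_sup_left (AddSubgroup.mem_sup_left (hP.ti.endo _ p hp))
  have h4 := AddSubgroup.add_mem _ (AddSubgroup.add_mem _ (le1 h1) (le1 h2)) h3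
  refine (congrArg (fun r => r ∈ P ⊔ I2 y ⊔ I2 z) ?_).mp h4
  obtain ⟨A, hA⟩ : ∃ A, A = eB (rp y ((x y * x z) ^ 2)) p := ⟨_, rfl⟩
  obtain ⟨B, hB⟩ : ∃ B, B = eB (rp y ((x y * x z) ^ 2)) i := ⟨_, rfl⟩
  rw [← hA, ← hB]
  have h5 : A + B + s + B + A = s + (A + A) + (B + B) := by abel
  rw [h5, fb_add_self, fb_add_self, add_zero, add_zero]

end E4.X
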