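import Pool.Agent.Lib.MP_8a95e3_al.RA4
import Pool.Agent.Lib.MP_8a95e3_al.X12c

/-!
# RA6 : the map `K` on the ideal of the `T_g`, modulo `J²`
-/

noncomputable section

namespace E4.RA

open E4 E4.X E4.N

/-- `K0 ⊔ I2 0 ⊔ I2 1` -/
def NK01 : AddSubgroup FB := K0 ⊔ I2 0 ⊔ I2 1

/-- uniqueness of `K` (from the tau laws) -/
def KUn : Prop := ∀ k : FB, (0, k) ∈ KP 0 1 → k ∈ NK01

theorem NK01_bi : Bi NK01 := by
  unfold NK01 K0
  exact ((idl_bi _).sup (I2_bi 0)).sup (I2_bi 1)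

private theorem RA6_ind {p : FB → FB → Prop} (hg : ∀ u g v : F, p (o u * T g * o v) (o u * tau 0 1 g * o v)) (h0 : p 0 0)
    (ha : ∀ w k w' k', p w k → p w' k' → p (w + w') (k + k')) {w k : FB} (h : (w, k) ∈ KP 0 1) : p w k := by
  have H : ∀ q : FB × FB, q ∈ KP 0 1 → p q.1 q.2 := by
    intro q hq
    unfold KP at hq
    induction hq using AddSubgroup.closure_induction with
    | mem r hr => obtain ⟨u, g, v, rfl⟩ := hr; exact hg u g v
    | zero => exact h0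
    | add a b _ _ h1 h2 => exact ha _ _ _ _ h1 h2
    | neg a _ h => rw [Prod.fst_neg, Prod.snd_neg, fb_neg, fb_neg]; exact h
  exact H (w, k) h

private theorem RA6_add {a b a' b' : FB} (h1 : (a, b) ∈ KP 0 1) (h2 : (a', b') ∈ KP 0 1) : (a + a', b + b') ∈ KP 0 1 := by
  rw [← Prod.mk_add_mk]
  exact AddSubgroup.add_mem _ h1 h2

private theorem RA6_zero : ((0 : FB), (0 : FB)) ∈ KP 0 1 := AddSubgroup.zero_mem _

private theorem RA6_gen (u g v : F) : (o u * T g * o v, o u * tau 0 1 g * o v) ∈ KP 0 1 :=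
  AddSubgroup.subset_closure ⟨u, g, v, rfl⟩

/-- `(w, k), (w, k') ∈ KP` implies `k + k' ∈ NK01`.  PROOF: `KP` is an additive subgroup; `w - w = 0`; `fb_neg`. -/
theorem KUn.eq (h : KUn) {w k k' : FB} (h1 : (w, k) ∈ KP 0 1) (h2 : (w, k') ∈ KP 0 1) : k + k' ∈ NK01 := by
  have h3 : (w, k) - (w, k') ∈ KP 0 1 := AddSubgroup.sub_mem _ h1 h2
  have h4 : (w, k) - (w, k') = (0, k + k') := by
    rw [Prod.mk_sub_mk, sub_self, sub_eq_add_neg, fb_neg]
  rw [h4] at h3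
  exact h _ h3

/-- PROOF: closure induction on the pair. -/
theorem KP_mul (a b : F) {w k : FB} (h : (w, k) ∈ KP 0 1) : (o a * w * o b, o a * k * o b) ∈ KP 0 1 := by
  refine RA6_ind (p := fun w k => (o a * w * o b, o a * k * o b) ∈ KP 0 1) ?_ ?_ ?_ h
  · intro u g v
    have h1 := RA6_gen (a * u) g (v * b)
    have e : ∀ t : FB, o a * (o u * t * o v) * o b = o (a * u) * t * o (v * b) := fun t => by
      rw [map_mul, map_mul]
      simp only [mul_assoc]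
    show (o a * (o u * T g * o v) * o b, o a * (o u * tau 0 1 g * o v) * o b) ∈ KP 0 1
    rw [e, e]
    exact h1
  · show (o a * 0 * o b, o a * 0 * o b) ∈ KP 0 1
    rw [mul_zero, zero_mul]
    exact RA6_zero
  · intro w k w' k' h1 h2
    have e : ∀ r r' : FB, o a * (r + r') * o b = o a * r * o b + o a * r' * o b := fun r r' => by rw [mul_add, add_mul]
    show (o a * (w + w') * o b, o a * (k + k') * o b) ∈ KP 0 1
    rw [e, e]
    exact RA6_add h1 h2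

/-- PROOF: `KP_mul` and `fb_ind` on `f` (additive in `f`). -/
theorem KP_mulL (f : FB) {w k : FB} (h : (w, k) ∈ KP 0 1) : (f * w, f * k) ∈ KP 0 1 := by
  refine fb_ind (p := fun f => (f * w, f * k) ∈ KP 0 1) ?_ ?_ ?_ f
  · intro g
    have h1 := KP_mul g 1 h
    rw [map_one, mul_one, mul_one] at h1
    exact h1
  · rw [zero_mul, zero_mul]
    exact RA6_zero
  · intro a b ha hb
    rw [add_mul, add_mul]
    exact RA6_add ha hb

/-- PROOF: closure induction; `eB (pl2 φ) (tau 0 1 g) = tau 0 1 (pl2 φ g)`. -/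
theorem KP_pl2 (φ : F →* F) {w k : FB} (h : (w, k) ∈ KP 0 1) : (eB (pl2 φ) w, eB (pl2 φ) k) ∈ KP 0 1 := by
  refine RA6_ind (p := fun w k => (eB (pl2 φ) w, eB (pl2 φ) k) ∈ KP 0 1) ?_ ?_ ?_ h
  · intro u g v
    have h0 : eB (pl2 φ) (Xl 0) = Xl 0 := by rw [Xl, eB_C, pl2_zero]
    have h1 : eB (pl2 φ) (Xl 1) = Xl 1 := by rw [Xl, eB_C, pl2_one]
    have h2 : eB (pl2 φ) (o u * T g * o v) = o (pl2 φ u) * T (pl2 φ g) * o (pl2 φ v) := by
      rw [map_mul, map_mul, eB_o, eB_o, eB_T]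
    have h3 : eB (pl2 φ) (o u * tau 0 1 g * o v) = o (pl2 φ u) * tau 0 1 (pl2 φ g) * o (pl2 φ v) := by
      unfold tau
      simp only [map_mul, map_add, eB_o, h0, h1, map_inv]
    show (eB (pl2 φ) (o u * T g * o v), eB (pl2 φ) (o u * tau 0 1 g * o v)) ∈ KP 0 1
    rw [h2, h3]
    exact RA6_gen _ _ _
  · show (eB (pl2 φ) 0, eB (pl2 φ) 0) ∈ KP 0 1
    rw [map_zero]
    exact RA6_zero
  · intro w k w' k' h1 h2
    show (eB (pl2 φ) (w + w'), eB (pl2 φ) (k + k')) ∈ KP 0 1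
    rw [map_add, map_add]
    exact RA6_add h1 h2

theorem KP_snd {w k : FB} (h : (w, k) ∈ KP 0 1) : k ∈ idl {r | ∃ g : F, r = tau 0 1 g} := by
  refine RA6_ind (p := fun _ k => k ∈ idl {r | ∃ g : F, r = tau 0 1 g}) ?_ ?_ ?_ h
  · intro u g v
    exact AddSubgroup.subset_closure ⟨u, v, tau 0 1 g, ⟨g, rfl⟩, rfl⟩
  · exact AddSubgroup.zero_mem _
  · intro w k w' k' h1 h2
    exact AddSubgroup.add_mem _ h1 h2

theorem KP_of_snd {k : FB} (h : k ∈ idl {r | ∃ g : F, r = tau 0 1 g}) : ∃ w, (w, k) ∈ KP 0 1 := by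
  unfold idl at h
  induction h using AddSubgroup.closure_induction with
  | mem r hr =>
    obtain ⟨a, b, s, ⟨g, rfl⟩, rfl⟩ := hr
    exact ⟨_, RA6_gen a g b⟩
  | zero => exact ⟨0, RA6_zero⟩
  | add a b _ _ ha hb =>
    obtain ⟨w, hw⟩ := ha
    obtain ⟨w', hw'⟩ := hb
    exact ⟨w + w', RA6_add hw hw'⟩
  | neg a _ ha =>
    obtain ⟨w, hw⟩ := ha
    rw [fb_neg]
    exact ⟨w, hw⟩

private theorem RA6_fox (g : F) : o g + o (sh2 (un2 g)) ∈ I1 0 ⊔ I1 1 := by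
  have h1 := fox 1 g
  have h2 := fox 0 (rp 1 1 g)
  have h3 : o g + o (sh2 (un2 g)) = (o (rp 1 1 g) + o (rp 0 1 (rp 1 1 g))) + (o g + o (rp 1 1 g)) := by
    rw [sh2_un2]
    have h : (o (rp 1 1 g) + o (rp 0 1 (rp 1 1 g))) + (o g + o (rp 1 1 g)) =
        o g + o (rp 0 1 (rp 1 1 g)) + (o (rp 1 1 g) + o (rp 1 1 g)) := by abel
    rw [h, fb_add_self, add_zero]
  rw [h3]
  exact AddSubgroup.mem_sup.2 ⟨_, h2, _, h1, rfl⟩

private theorem RA6_X1 (j : ℕ) : Xl j ∈ I1 j := sub_idl rfl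

/-- three coefficients may be changed -/
private theorem RA6_tri {y z : ℕ} {a b c a' b' c' : FB} (ha : a + a' ∈ I1 y ⊔ I1 z) (hb : b + b' ∈ I1 y ⊔ I1 z)
    (hc : c + c' ∈ I1 y ⊔ I1 z) : a * Xl y * b * Xl z * c + a' * Xl y * b' * Xl z * c' ∈ I2 y ⊔ I2 z := by
  have h1 : (a + a') * Xl y * b * Xl z * c ∈ I2 y ⊔ I2 z := by
    obtain ⟨p, hp, q, hq, h⟩ := AddSubgroup.mem_sup.1 ha
    rw [← h, add_mul, add_mul, add_mul, add_mul]
    refine AddSubgroup.mem_sup.2 ⟨_, (I2_bi y).mul_right _ ((I2_bi y).mul_right _ ((I2_bi y).mul_right _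
      (mul_I1_I1 hp (RA6_X1 y)))), _, (I2_bi z).mul_right _ (mul_I1_I1 ((I1_bi z).mul_right _ ((I1_bi z).mul_right _ hq))
      (RA6_X1 z)), rfl⟩
  have h2 : a' * Xl y * (b + b') * Xl z * c ∈ I2 y ⊔ I2 z := by
    obtain ⟨p, hp, q, hq, h⟩ := AddSubgroup.mem_sup.1 hb
    rw [← h, mul_add, add_mul, add_mul]
    refine AddSubgroup.mem_sup.2 ⟨_, (I2_bi y).mul_right _ ((I2_bi y).mul_right _ (mul_I1_I1 ((I1_bi y).mul_left _
      (RA6_X1 y)) hp)), _, (I2_bi z).mul_right _ (mul_I1_I1 ((I1_bi z).mul_left _ hq) (RA6_X1 z)), rfl⟩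
  have h3 : a' * Xl y * b' * Xl z * (c + c') ∈ I2 y ⊔ I2 z := by
    obtain ⟨p, hp, q, hq, h⟩ := AddSubgroup.mem_sup.1 hc
    rw [← h, mul_add]
    refine AddSubgroup.mem_sup.2 ⟨_, mul_I1_I1 ((I1_bi y).mul_right _ ((I1_bi y).mul_right _ ((I1_bi y).mul_left _
      (RA6_X1 y)))) hp, _, mul_I1_I1 ((I1_bi z).mul_left _ (RA6_X1 z)) hq, rfl⟩
  have h4 : a * Xl y * b * Xl z * c + a' * Xl y * b' * Xl z * c' =
      (a + a') * Xl y * b * Xl z * c + a' * Xl y * (b + b') * Xl z * c + a' * Xl y * b' * Xl z * (c + c') := by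
    have h5 := fb_add_self (a' * Xl y * b * Xl z * c)
    have h6 := fb_add_self (a' * Xl y * b' * Xl z * c)
    have h7 : (a + a') * Xl y * b * Xl z * c + a' * Xl y * (b + b') * Xl z * c + a' * Xl y * b' * Xl z * (c + c') =
        a * Xl y * b * Xl z * c + a' * Xl y * b' * Xl z * c' + (a' * Xl y * b * Xl z * c + a' * Xl y * b * Xl z * c) +
        (a' * Xl y * b' * Xl z * c + a' * Xl y * b' * Xl z * c) := by
      simp only [add_mul, mul_add]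
      abel
    rw [h7, h5, h6, add_zero, add_zero]
  rw [h4]
  exact AddSubgroup.add_mem _ (AddSubgroup.add_mem _ h1 h2) h3

private theorem RA6_t4 (u g v : F) : o u * tau 0 1 g * o v =
    o u * Xl 0 * o 1 * Xl 1 * o (g * v) + o (u * g⁻¹) * Xl 1 * o 1 * Xl 0 * o v +
    o (u * g⁻¹) * Xl 0 * o g * Xl 1 * o v + o u * Xl 1 * o g⁻¹ * Xl 0 * o (g * v) := by
  unfold tau
  rw [map_one, map_mul, map_mul]
  simp only [mul_one, mul_add, add_mul, mul_assoc]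

private theorem RA6_p1 (a b c : F) : o a * Xl 0 * o b * Xl 1 * o c +
    o (sh2 (un2 a)) * Xl 0 * o (sh2 (un2 b)) * Xl 1 * o (sh2 (un2 c)) ∈ I2 0 ⊔ I2 1 :=
  RA6_tri (RA6_fox a) (RA6_fox b) (RA6_fox c)

private theorem RA6_p2 (a b c : F) : o a * Xl 1 * o b * Xl 0 * o c +
    o (sh2 (un2 a)) * Xl 1 * o (sh2 (un2 b)) * Xl 0 * o (sh2 (un2 c)) ∈ I2 0 ⊔ I2 1 := by
  have h : ∀ g : F, o g + o (sh2 (un2 g)) ∈ I1 1 ⊔ I1 0 := fun g => by
    rw [sup_comm]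
    exact RA6_fox g
  rw [sup_comm]
  exact RA6_tri (h a) (h b) (h c)

/-- the letters `x 0`, `x 1` in the coefficients may be killed.
PROOF: `o u + o (sh2 (un2 u)) ∈ I1 0 ⊔ I1 1` (`fox` for the letters `0` and `1`, `sh2_un2`), the same for `v`, and `tau 0 1 g + tau 0 1 (sh2 (un2 g))`: each of the four summands contains `Xl 0` and `Xl 1`
once and group elements; every summand of the difference contains a second factor in `I1 0` or `I1 1`, so it is in `I2 0 ⊔ I2 1` (`mul_I1_I1`, `I2_bi`; note that `I1` is an ideal, so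
`p * q ∈ I2 j` as soon as `p, q ∈ I1 j`). -/
theorem tau_red (u g v : F) :
    o u * tau 0 1 g * o v + o (sh2 (un2 u)) * tau 0 1 (sh2 (un2 g)) * o (sh2 (un2 v)) ∈ I2 0 ⊔ I2 1 := by
  have h1 := RA6_p1 u 1 (g * v)
  have h2 := RA6_p2 (u * g⁻¹) 1 v
  have h3 := RA6_p1 (u * g⁻¹) g v
  have h4 := RA6_p2 u g⁻¹ (g * v)
  rw [RA6_t4, RA6_t4]
  simp only [map_mul un2, map_inv un2, map_one un2, map_mul sh2, map_inv sh2, map_one sh2] at h1 h2 h3 h4 ⊢
  have h5 := AddSubgroup.add_mem _ (AddSubgroup.add_mem _ (AddSubgroup.add_mem _ h1 h2) h3) h4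
  refine (congrArg (fun r => r ∈ I2 0 ⊔ I2 1) ?_).mp h5
  abel

/-- PROOF: closure induction. -/
theorem Wt_mul (a : F) {r : FB} (h : r ∈ Wt) : o (sh2 a) * r ∈ Wt := by
  unfold Wt at h ⊢
  induction h using AddSubgroup.closure_induction with
  | mem r hr =>
    obtain ⟨c, u, g, rfl⟩ := hr
    refine AddSubgroup.subset_closure ⟨a * c * a⁻¹, a * u, g, ?_⟩
    have h1 : o (sh2 a) * C (sh2 c ^ 2) = C (sh2 (a * c * a⁻¹) ^ 2) * o (sh2 a) := by
      have h2 : sh2 (a * c * a⁻¹) ^ 2 = sh2 a * sh2 c ^ 2 * (sh2 a)⁻¹ := by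
        rw [map_mul, map_mul, map_inv, conj_pow]
      have h3 : sh2 a * sh2 c ^ 2 * (sh2 a)⁻¹ * sh2 a = sh2 a * sh2 c ^ 2 := by group
      rw [h2]
      unfold C
      rw [mul_add, add_mul, mul_one, one_mul, ← map_mul, ← map_mul, h3]
    rw [← mul_assoc, h1, mul_assoc, ← mul_assoc (o (sh2 a)), ← map_mul o, ← map_mul sh2]
  | zero => rw [mul_zero]; exact zero_mem _
  | add a b _ _ ha hb => rw [mul_add]; exact add_mem ha hb
  | neg a _ ha => rw [mul_neg]; exact neg_mem ha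

private theorem RA6_swap (g v : F) : T g * o v = o v * T (v⁻¹ * g * v) := by
  unfold T
  rw [add_mul, mul_add, ← map_mul, ← map_mul, ← map_mul, ← map_mul]
  have h1 : v * (v⁻¹ * g * v) = g * v := by group
  have h2 : v * (v⁻¹ * g * v)⁻¹ = g⁻¹ * v := by group
  rw [h1, h2]

/-- `(1 + c²) k ∈ Wt ⊔ NK01` for all `k` in the ideal of the `tau`.
PROOF: closure induction on `k`; for `k = o u * tau 0 1 g * o v` first replace `u`, `g`, `v` by elements without `x 0`, `x 1` (`tau_red`; `NK01` is an ideal, `I2 0 ⊔ I2 1 ≤ NK01`).  Then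
`(T g * o v, tau 0 1 g * o v)` and `(o v * T (v⁻¹ * g * v), o v * tau 0 1 (v⁻¹ * g * v))` are in `KP 0 1` with the same first component, so by `KUn.eq`
`tau 0 1 g * o v + o v * tau 0 1 (v⁻¹ * g * v) ∈ NK01`, and `C (sh2 c ^ 2) * (o (u * v) * tau 0 1 (v⁻¹ * g * v)) ∈ Wt`. -/
theorem sq_tau (hK : KUn) (c : F) {k : FB} (hk : k ∈ idl {r | ∃ g : F, r = tau 0 1 g}) :
    C (sh2 c ^ 2) * k ∈ Wt ⊔ NK01 := by
  unfold idl at hk
  induction hk using AddSubgroup.closure_induction with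
  | mem r hr =>
    obtain ⟨u, v, s, ⟨g, rfl⟩, rfl⟩ := hr
    have hle : I2 0 ⊔ I2 1 ≤ NK01 := sup_le (le_trans le_sup_right le_sup_left) le_sup_right
    have h1 := NK01_bi.mul_left (C (sh2 c ^ 2)) (hle (tau_red u g v))
    obtain ⟨a, ha⟩ : ∃ a, a = un2 u := ⟨_, rfl⟩
    obtain ⟨b, hb⟩ : ∃ b, b = un2 g := ⟨_, rfl⟩
    obtain ⟨d, hd⟩ : ∃ d, d = un2 v := ⟨_, rfl⟩
    rw [← ha, ← hb, ← hd] at h1
    have k1 : (T (sh2 b) * o (sh2 d), tau 0 1 (sh2 b) * o (sh2 d)) ∈ KP 0 1 := by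
      have h := RA6_gen 1 (sh2 b) (sh2 d)
      rw [map_one, one_mul, one_mul] at h
      exact h
    have k2 : (T (sh2 b) * o (sh2 d), o (sh2 d) * tau 0 1 (sh2 (d⁻¹ * b * d))) ∈ KP 0 1 := by
      have h := RA6_gen (sh2 d) (sh2 (d⁻¹ * b * d)) 1
      rw [map_one, mul_one, mul_one] at h
      rw [RA6_swap, ← map_inv, ← map_mul, ← map_mul]
      exact h
    have h2 := NK01_bi.mul_left (C (sh2 c ^ 2)) (NK01_bi.left (sh2 a) _ (hK.eq k1 k2))
    have h3 : C (sh2 c ^ 2) * (o (sh2 (a * d)) * tau 0 1 (sh2 (d⁻¹ * b * d))) ∈ Wt :=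
      AddSubgroup.subset_closure ⟨c, a * d, d⁻¹ * b * d, rfl⟩
    have h4 : C (sh2 c ^ 2) * (o u * tau 0 1 g * o v) =
        C (sh2 c ^ 2) * (o (sh2 (a * d)) * tau 0 1 (sh2 (d⁻¹ * b * d))) +
        (C (sh2 c ^ 2) * (o u * tau 0 1 g * o v + o (sh2 a) * tau 0 1 (sh2 b) * o (sh2 d)) +
          C (sh2 c ^ 2) * (o (sh2 a) * (tau 0 1 (sh2 b) * o (sh2 d) + o (sh2 d) * tau 0 1 (sh2 (d⁻¹ * b * d))))) := by
      rw [map_mul sh2, map_mul o]
      have e1 := fb_add_self (C (sh2 c ^ 2) * (o (sh2 a) * (tau 0 1 (sh2 b) * o (sh2 d))))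
      have e2 := fb_add_self (C (sh2 c ^ 2) * (o (sh2 a) * (o (sh2 d) * tau 0 1 (sh2 (d⁻¹ * b * d)))))
      have e3 : C (sh2 c ^ 2) * (o (sh2 a) * o (sh2 d) * tau 0 1 (sh2 (d⁻¹ * b * d))) +
        (C (sh2 c ^ 2) * (o u * tau 0 1 g * o v + o (sh2 a) * tau 0 1 (sh2 b) * o (sh2 d)) +
          C (sh2 c ^ 2) * (o (sh2 a) * (tau 0 1 (sh2 b) * o (sh2 d) + o (sh2 d) * tau 0 1 (sh2 (d⁻¹ * b * d))))) =
        C (sh2 c ^ 2) * (o u * tau 0 1 g * o v) +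
        (C (sh2 c ^ 2) * (o (sh2 a) * (tau 0 1 (sh2 b) * o (sh2 d))) + C (sh2 c ^ 2) * (o (sh2 a) * (tau 0 1 (sh2 b) * o (sh2 d)))) +
        (C (sh2 c ^ 2) * (o (sh2 a) * (o (sh2 d) * tau 0 1 (sh2 (d⁻¹ * b * d)))) +
          C (sh2 c ^ 2) * (o (sh2 a) * (o (sh2 d) * tau 0 1 (sh2 (d⁻¹ * b * d))))) := by
        simp only [mul_add, mul_assoc]
        abel
      rw [e3, e1, e2, add_zero, add_zero]
    rw [h4]
    exact AddSubgroup.mem_sup.2 ⟨_, h3, _, add_mem h1 h2, rfl⟩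
  | zero => rw [mul_zero]; exact zero_mem _
  | add a b _ _ ha hb => rw [mul_add]; exact add_mem ha hb
  | neg a _ ha => rw [mul_neg]; exact neg_mem ha

private theorem RA6_WN (a : F) {r : FB} (h : r ∈ Wt ⊔ NK01) : o (sh2 a) * r ∈ Wt ⊔ NK01 := by
  obtain ⟨p, hp, q, hq, rfl⟩ := AddSubgroup.mem_sup.1 h
  rw [mul_add]
  exact AddSubgroup.mem_sup.2 ⟨_, Wt_mul a hp, _, NK01_bi.left _ _ hq, rfl⟩

private theorem RA6_Cm (a b : F) : C (a * b) = o a * C b + C a := by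
  unfold C
  have h : o a * (o b + 1) + (o a + 1) = o a * o b + 1 + (o a + o a) := by
    rw [mul_add, mul_one]
    abel
  rw [h, fb_add_self, add_zero, map_mul]

private theorem RA6_Ci (a : F) : C a⁻¹ = o a⁻¹ * C a := by
  unfold C
  rw [mul_add, mul_one, ← map_mul, inv_mul_cancel, map_one, add_comm]

/-- PROOF: `n ∈ N2` (`mem_N2_of_cl`), closure induction on `n`: `C (sh2 (m * m')) * k = o (sh2 m) * (C (sh2 m') * k) + C (sh2 m) * k`, `Wt_mul`, `NK01_bi`; inverse: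
`C (m⁻¹) = o m⁻¹ * C m`. -/
theorem n2_tau (hK : KUn) {n : F} (hn : cl n = 0) {k : FB} (hk : k ∈ idl {r | ∃ g : F, r = tau 0 1 g}) :
    C (sh2 n) * k ∈ Wt ⊔ NK01 := by
  have h := mem_N2_of_cl hn
  unfold N2 at h
  clear hn
  induction h using Subgroup.closure_induction with
  | mem m hm =>
    obtain ⟨g, rfl⟩ := hm
    rw [map_pow]
    exact sq_tau hK g hk
  | one =>
    rw [map_one, C_one, zero_mul]
    exact zero_mem _
  | mul a b _ _ ha hb =>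
    rw [map_mul, RA6_Cm, add_mul, mul_assoc]
    exact add_mem (RA6_WN a hb) ha
  | inv a _ ha =>
    rw [map_inv, RA6_Ci, mul_assoc, ← map_inv]
    exact RA6_WN _ ha

/-- PROOF: `n ∈ N2`, closure induction: `C (c ^ 2) = o c * T c` (characteristic two), `(o c * T c * o 1, o c * tau 0 1 c * o 1) ∈ KP 0 1`; `C (m * m') = o m * C m' + C m`; `C (m⁻¹) = o m⁻¹ * C m`. -/
theorem exists_kap {n : F} (hn : cl n = 0) : ∃ k, (C (sh2 n), k) ∈ KP 0 1 := by
  have h := mem_N2_of_cl hn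
  unfold N2 at h
  clear hn
  induction h using Subgroup.closure_induction with
  | mem m hm =>
    obtain ⟨g, rfl⟩ := hm
    refine ⟨o (sh2 g) * tau 0 1 (sh2 g) * o 1, ?_⟩
    have h1 : C (sh2 (g ^ 2)) = o (sh2 g) * T (sh2 g) * o 1 := by
      unfold C T
      rw [map_one, mul_one, mul_add, ← map_mul o, ← map_mul o, mul_inv_cancel, map_one, map_pow sh2, pow_two]
    rw [h1]
    exact RA6_gen _ _ _
  | one =>
    refine ⟨0, ?_⟩
    rw [map_one, C_one]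
    exact RA6_zero
  | mul a b _ _ ha hb =>
    obtain ⟨k, hk⟩ := ha
    obtain ⟨k', hk'⟩ := hb
    refine ⟨o (sh2 a) * k' + k, ?_⟩
    rw [map_mul, RA6_Cm]
    exact RA6_add (KP_mulL _ hk') hk
  | inv a _ ha =>
    obtain ⟨k, hk⟩ := ha
    refine ⟨o (sh2 a)⁻¹ * k, ?_⟩
    rw [map_inv, RA6_Ci]
    exact KP_mulL _ hk

end E4.RA
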