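import Pool.Agent.Lib.MP_8a95e3_al.RA6
import Pool.Agent.Lib.MP_8a95e3_al.NYa

/-!
# RA7 : the layer of the elements `tau`
-/

noncomputable section

namespace E4.RA

open E4 E4.X E4.N

private theorem RA7_mk {W : AddSubgroup FB} {a b : FB} (h : a + b ∈ W) :
    (QuotientAddGroup.mk a : FB ⧸ W) = QuotientAddGroup.mk b := by
  rw [QuotientAddGroup.eq, fb_neg]
  exact h

private theorem RA7_cancel (a b c : FB) : a + b + (b + c) = a + c := by
  have h := fb_add_self b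
  calc a + b + (b + c) = a + (b + b) + c := by abel
    _ = a + c := by rw [h, add_zero]

private theorem RA7_o (g : F) : o g = C g + 1 := by
  unfold C
  rw [add_assoc, fb_add_self, add_zero]

private theorem RA7_mul (a : F) {r : FB} (h : r ∈ Wt ⊔ NK01) : o (sh2 a) * r ∈ Wt ⊔ NK01 := by
  obtain ⟨p, hp, q, hq, rfl⟩ := AddSubgroup.mem_sup.1 h
  rw [mul_add]
  exact add_mem (AddSubgroup.mem_sup_left (Wt_mul a hp)) (AddSubgroup.mem_sup_right (NK01_bi.mul_left _ hq))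

private theorem RA7_ins (hK : KUn) {a b : F} (h : cl a = cl b) {k : FB} (hk : k ∈ idl {r | ∃ g : F, r = tau 0 1 g}) :
    o (sh2 a) * k + o (sh2 b) * k ∈ Wt ⊔ NK01 := by
  have hn : cl (b⁻¹ * a) = 0 := by
    rw [cl_mul, cl_inv, h, neg_add_cancel]
  have h1 := RA7_mul b (n2_tau hK hn hk)
  have e : o (sh2 a) * k + o (sh2 b) * k = o (sh2 b) * (C (sh2 (b⁻¹ * a)) * k) := by
    have e1 : o (sh2 a) = o (sh2 b) * o (sh2 (b⁻¹ * a)) := by
      rw [← map_mul, ← map_mul, mul_inv_cancel_left]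
    rw [e1, RA7_o (sh2 (b⁻¹ * a)), mul_add, mul_one, add_mul, add_assoc, fb_add_self, add_zero, mul_assoc]
  rw [e]
  exact h1

private theorem RA7_kapex : ∃ κ : F → FB, ∀ n, cl n = 0 → (C (sh2 n), κ n) ∈ KP 0 1 := by
  classical
  refine ⟨fun n => if h : cl n = 0 then (exists_kap h).choose else 0, fun n h => ?_⟩
  show (C (sh2 n), if h : cl n = 0 then (exists_kap h).choose else 0) ∈ KP 0 1
  rw [dif_pos h]
  exact (exists_kap h).choose_spec

private theorem RA7_nat (hK : KUn) {κ : F → FB} (hκ : ∀ n, cl n = 0 → (C (sh2 n), κ n) ∈ KP 0 1) (φ : F →* F)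
    (f : A2 → A2) (hφ : ∀ w, cl (φ w) = f (cl w)) (f0 : f 0 = 0) (α : A2) {n : F} (hn : cl n = 0) :
    eB (pl2 φ) (o (sh2 (sec α)) * κ n) + o (sh2 (sec (f α))) * κ (φ n) ∈ Wt ⊔ NK01 := by
  have hn' : cl (φ n) = 0 := by rw [hφ, hn, f0]
  have h1 := KP_pl2 φ (hκ n hn)
  rw [eB_C, pl2_sh2] at h1
  have h2 := hK.eq h1 (hκ (φ n) hn')
  have h3 : o (sh2 (φ (sec α))) * (eB (pl2 φ) (κ n) + κ (φ n)) ∈ Wt ⊔ NK01 :=
    AddSubgroup.mem_sup_right (NK01_bi.mul_left _ h2)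
  have h4 : cl (φ (sec α)) = cl (sec (f α)) := by rw [hφ, cl_sec, cl_sec]
  have h5 := RA7_ins hK h4 (KP_snd (hκ (φ n) hn'))
  have h6 := add_mem h3 h5
  rw [mul_add, RA7_cancel] at h6
  rw [map_mul, eB_o, pl2_sh2]
  exact h6

private theorem RA7_add (hK : KUn) {κ : F → FB} (hκ : ∀ n, cl n = 0 → (C (sh2 n), κ n) ∈ KP 0 1) {n m : F}
    (hn : cl n = 0) (hm : cl m = 0) : κ (n * m) + (κ n + κ m) ∈ Wt ⊔ NK01 := by
  have hnm : cl (n * m) = 0 := by rw [cl_mul, hn, hm, add_zero]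
  have e1 : C (sh2 (n * m)) = o (sh2 n) * C (sh2 m) + C (sh2 n) := by
    unfold C
    rw [map_mul, map_mul, mul_add, mul_one]
    have : o (sh2 n) * o (sh2 m) + o (sh2 n) + (o (sh2 n) + 1) = o (sh2 n) * o (sh2 m) + 1 := RA7_cancel _ _ _
    rw [this]
  have h1 : (C (sh2 (n * m)), o (sh2 n) * κ m + κ n) ∈ KP 0 1 := by
    have h2 := add_mem (KP_mulL (o (sh2 n)) (hκ m hm)) (hκ n hn)
    rw [e1]
    exact h2
  have h3 : κ (n * m) + (o (sh2 n) * κ m + κ n) ∈ Wt ⊔ NK01 := AddSubgroup.mem_sup_right (hK.eq (hκ _ hnm) h1)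
  have h4 : C (sh2 n) * κ m ∈ Wt ⊔ NK01 := n2_tau hK hn (KP_snd (hκ m hm))
  have h5 := add_mem h3 h4
  have e2 : κ (n * m) + (o (sh2 n) * κ m + κ n) + C (sh2 n) * κ m = κ (n * m) + (κ n + κ m) := by
    unfold C
    rw [add_mul, one_mul]
    have h6 := fb_add_self (o (sh2 n) * κ m)
    calc κ (n * m) + (o (sh2 n) * κ m + κ n) + (o (sh2 n) * κ m + κ m)
        = κ (n * m) + (κ n + κ m) + (o (sh2 n) * κ m + o (sh2 n) * κ m) := by abel
      _ = _ := by rw [h6, add_zero]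
  rwa [e2] at h5

private theorem RA7_I2 {r : FB} (h : r ∈ I2 0 ⊔ I2 1) : r ∈ Wt ⊔ NK01 := by
  refine AddSubgroup.mem_sup_right ?_
  exact (sup_le (le_sup_right.trans le_sup_left) le_sup_right : I2 0 ⊔ I2 1 ≤ K0 ⊔ I2 0 ⊔ I2 1) h

private theorem RA7_gen (hK : KUn) {κ : F → FB} (hκ : ∀ n, cl n = 0 → (C (sh2 n), κ n) ∈ KP 0 1) (u g v : F) :
    ∃ (α : A2) (n : F), cl n = 0 ∧ o u * tau 0 1 g * o v + o (sh2 (sec α)) * κ n ∈ Wt ⊔ NK01 := by
  obtain ⟨u', hu⟩ : ∃ u', u' = un2 u := ⟨_, rfl⟩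
  obtain ⟨g', hg⟩ : ∃ g', g' = un2 g := ⟨_, rfl⟩
  obtain ⟨v', hv⟩ : ∃ v', v' = un2 v := ⟨_, rfl⟩
  obtain ⟨h, hh⟩ : ∃ h, h = v'⁻¹ * g' * v' := ⟨_, rfl⟩
  have h0 := RA7_I2 (tau_red u g v)
  rw [← hu, ← hg, ← hv] at h0
  have hgen : ∀ a g b : F, (o a * T g * o b, o a * tau 0 1 g * o b) ∈ KP 0 1 := fun a g b =>
    AddSubgroup.subset_closure ⟨a, g, b, rfl⟩
  -- the conjugation
  have k1 := hgen 1 (sh2 g') (sh2 v')
  have k2 := hgen (sh2 v') (sh2 h) 1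
  rw [map_one, one_mul, one_mul] at k1
  rw [map_one, mul_one, mul_one] at k2
  have e1 : T (sh2 g') * o (sh2 v') = o (sh2 v') * T (sh2 h) := by
    have a1 : sh2 g' * sh2 v' = sh2 v' * sh2 h := by
      rw [hh, map_mul, map_mul, map_inv, mul_assoc, mul_inv_cancel_left]
    have a2 : (sh2 g')⁻¹ * sh2 v' = sh2 v' * (sh2 h)⁻¹ := by
      rw [hh, map_mul, map_mul, map_inv]
      group
    have b1 : o (sh2 g') * o (sh2 v') = o (sh2 v') * o (sh2 h) := by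
      rw [← map_mul o (sh2 g') (sh2 v'), ← map_mul o (sh2 v') (sh2 h), a1]
    have b2 : o (sh2 g')⁻¹ * o (sh2 v') = o (sh2 v') * o (sh2 h)⁻¹ := by
      rw [← map_mul o (sh2 g')⁻¹ (sh2 v'), ← map_mul o (sh2 v') (sh2 h)⁻¹, a2]
    unfold T
    rw [add_mul, mul_add, b1, b2]
  rw [e1] at k1
  have h1 := hK.eq k1 k2
  -- the square
  have k3 := KP_mulL (o (sh2 h⁻¹)) (hκ (h ^ 2) (cl_sq h))
  have k4 := hgen 1 (sh2 h) 1
  rw [map_one, one_mul, one_mul, mul_one, mul_one] at k4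
  have e2 : T (sh2 h) = o (sh2 h⁻¹) * C (sh2 (h ^ 2)) := by
    have a3 : h⁻¹ * h ^ 2 = h := by
      rw [pow_two, inv_mul_cancel_left]
    unfold T C
    rw [mul_add, mul_one, ← map_mul o (sh2 h⁻¹) (sh2 (h ^ 2)), ← map_mul sh2 h⁻¹ (h ^ 2), a3, map_inv sh2 h]
  rw [e2] at k4
  have h2 := hK.eq k4 k3
  have hc : cl (u' * v' * h⁻¹) = cl (sec (cl (u' * v' * h⁻¹))) := by rw [cl_sec]
  refine ⟨cl (u' * v' * h⁻¹), h ^ 2, cl_sq h, ?_⟩
  have h3 := RA7_ins hK hc (KP_snd (hκ (h ^ 2) (cl_sq h)))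
  have h4 : o (sh2 u') * (tau 0 1 (sh2 g') * o (sh2 v') + o (sh2 v') * tau 0 1 (sh2 h)) ∈ Wt ⊔ NK01 :=
    RA7_mul u' (AddSubgroup.mem_sup_right h1)
  have h5 : o (sh2 u') * (o (sh2 v') * (tau 0 1 (sh2 h) + o (sh2 h⁻¹) * κ (h ^ 2))) ∈ Wt ⊔ NK01 :=
    RA7_mul u' (RA7_mul v' (AddSubgroup.mem_sup_right h2))
  rw [mul_add, ← mul_assoc] at h4
  rw [mul_add, mul_add] at h5
  have e3 : o (sh2 u') * (o (sh2 v') * (o (sh2 h⁻¹) * κ (h ^ 2))) = o (sh2 (u' * v' * h⁻¹)) * κ (h ^ 2) := by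
    rw [map_mul, map_mul, map_mul, map_mul]
    simp only [mul_assoc]
  rw [e3] at h5
  have h6 := add_mem (add_mem (add_mem h0 h4) h5) h3
  rwa [RA7_cancel, RA7_cancel, RA7_cancel] at h6

/-- **The layer of the elements `tau`.**
PROOF.  `J = idl {tau 0 1 g}`, `W = Wt ⊔ NK01`, `M = FB ⧸ W` (additive groups).  For `n` with `cl n = 0` choose `κ n` with `(C (sh2 n), κ n) ∈ KP 0 1` (`exists_kap`), `κ n = 0` otherwise; `κ n ∈ J` (`KP_snd`).
`val (i : Fin 1) (v : Fin 1 → A2) n := mk (o (sh2 (sec (v 0))) * κ n)`.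
* `h4`: `2 = 0` in `FB`.
* `hadd`: `C (sh2 (n * m)) = o (sh2 n) * C (sh2 m) + C (sh2 n)`, so `(C (sh2 (n * m)), o (sh2 n) * κ m + κ n) ∈ KP 0 1` and `κ (n * m) + (o (sh2 n) * κ m + κ n) ∈ NK01` (`KUn.eq`); and
  `o (sh2 n) * κ m + κ m = C (sh2 n) * κ m ∈ W` (`n2_tau`).  Multiply by `o (sh2 (sec (v 0)))` from the left (`Wt_mul`, `NK01_bi`).
* insensitivity in the coefficient: if `cl a = cl b` then `o (sh2 a) * k + o (sh2 b) * k ∈ W` for `k ∈ J`: `a = b * n`, `cl n = 0`, `o (sh2 b) * (C (sh2 n) * k)` (`n2_tau`, `Wt_mul`, `NK01_bi`).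
* operators `zM p`, `cM k p` induced by `eB (pl2 (zE p))`, `eB (pl2 (cE k p))` (`QuotientAddGroup.map`; `W` is stable: `St2_Wt`, `St2_TI K0_TI`, `St2_I2_0`, `St2_I2_1`).
  `hz`: `eB (pl2 φ) (o (sh2 a) * κ n) = o (sh2 (φ a)) * eB (pl2 φ) (κ n)`, `(C (sh2 (φ n)), eB (pl2 φ) (κ n)) ∈ KP 0 1` (`KP_pl2`), so `eB (pl2 φ) (κ n) + κ (φ n) ∈ NK01` (`cl (φ n) = 0` by `cl_zE`, `zV_zero`),
  and the coefficient `sh2 (φ (sec a))` may be replaced by `sh2 (sec (zV p a))` (`cl_zE`, `cl_sec`).  The same for `cE` (`cl_cE`, `cV_zero`).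
* generation: every element of `J` is a sum of elements of the form `o (sh2 (sec α)) * κ n` modulo `W`: for a generator `o u * tau 0 1 g * o v`: `tau_red`, then (as in `sq_tau`) it is congruent to
  `o (sh2 a) * tau 0 1 (sh2 g')` with `a = un2 (u * v)`, `g' = un2 (v⁻¹ * g * v)`; `T g' = o g'⁻¹ * C (g' ^ 2)`, so `tau 0 1 (sh2 g') + o (sh2 g'⁻¹) * κ (g' ^ 2) ∈ NK01` (`KUn.eq`, `KP_mulL`).
Then `acc_sq` for the chain of the images of `Q n` in `M`, and `W ≤ Q n`. -/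
theorem racc_tau (hK : KUn) : RAcc (idl {r | ∃ g : F, r = tau 0 1 g}) (Wt ⊔ NK01) := by
  intro Q hQ hWQ hQJ hSt
  obtain ⟨κ, hκ⟩ := RA7_kapex
  have hSW : St2 (Wt ⊔ NK01) := St2_Wt.sup (((St2_TI K0_TI).sup St2_I2_0).sup St2_I2_1)
  obtain ⟨W, hW⟩ : ∃ W, W = Wt ⊔ NK01 := ⟨_, rfl⟩
  rw [← hW] at hSW hWQ hQJ
  obtain ⟨op, hop⟩ : ∃ op : (F →* F) → (FB ⧸ W →+ FB ⧸ W), ∀ φ (r : FB), op φ (QuotientAddGroup.mk r) =
      QuotientAddGroup.mk (eB (pl2 φ) r) :=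
    ⟨fun φ => QuotientAddGroup.map W W (eB (pl2 φ)).toAddMonoidHom fun r hr => hSW φ r hr, fun φ r => rfl⟩
  obtain ⟨val, hval⟩ : ∃ val : Fin 1 → (Fin 1 → A2) → F → FB ⧸ W, ∀ i v n, val i v n =
      QuotientAddGroup.mk (o (sh2 (sec (v 0))) * κ n) := ⟨_, fun i v n => rfl⟩
  have hopU : ∀ (φ : F →* F) (n : ℕ), ∀ m ∈ (Q n).map (QuotientAddGroup.mk' W),
      op φ m ∈ (Q n).map (QuotientAddGroup.mk' W) := by
    rintro φ n _ ⟨q, hq, rfl⟩
    exact ⟨eB (pl2 φ) q, hSt n φ q hq, (hop φ q).symm⟩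
  have H : ∃ n, ∀ m ≥ n, (Q m).map (QuotientAddGroup.mk' W) = (Q n).map (QuotientAddGroup.mk' W) := by
    refine acc_sq (s := 1) (t := 1) val ?_ ?_ (fun p => op (zE p)) (fun k p => op (cE k p)) ?_ ?_
      (fun n => (Q n).map (QuotientAddGroup.mk' W)) (fun a b hab => AddSubgroup.map_mono (hQ hab)) ?_
      (fun n p m hm => hopU (zE p) n m hm) (fun n k p _ m hm => hopU (cE k p) n m hm)
    · intro i v n
      rw [hval]
      have e : ∀ r : FB, (4 : ℕ) • r = 0 := by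
        intro r
        have h1 : (4 : ℕ) • r = (r + r) + (r + r) := by
          rw [show (4 : ℕ) = 2 + 2 from rfl, add_nsmul, two_nsmul]
        rw [h1, fb_add_self]
      show QuotientAddGroup.mk ((4 : ℕ) • (o (sh2 (sec (v 0))) * κ n)) = (0 : FB ⧸ W)
      rw [e]
      rfl
    · intro i v n m hn hm
      rw [hval, hval, hval, ← QuotientAddGroup.mk_add]
      refine RA7_mk ?_
      rw [← mul_add, ← mul_add, hW]
      exact RA7_mul _ (RA7_add hK hκ hn hm)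
    · intro p i v n hn
      show op (zE p) (val i v n) = _
      rw [hval, hval, hop]
      refine RA7_mk ?_
      rw [hW]
      exact RA7_nat hK hκ (zE p) (zV p) (cl_zE p) (zV_zero p) (v 0) hn
    · intro k p i v n _ hn
      show op (cE k p) (val i v n) = _
      rw [hval, hval, hop]
      refine RA7_mk ?_
      rw [hW]
      exact RA7_nat hK hκ (cE k p) (cV k p) (cl_cE k p) (cV_zero k p) (v 0) hn
    · rintro n _ ⟨q, hq, rfl⟩
      obtain ⟨j, hj, w, hw, rfl⟩ := AddSubgroup.mem_sup.1 (hQJ n hq)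
      have h1 : QuotientAddGroup.mk' W (j + w) = QuotientAddGroup.mk' W j := by
        rw [map_add]
        have h2 : QuotientAddGroup.mk' W w = 0 := (QuotientAddGroup.eq_zero_iff w).2 hw
        rw [h2, add_zero]
      rw [h1]
      unfold idl at hj
      clear hq h1 hw
      induction hj using AddSubgroup.closure_induction with
      | mem r hr =>
        obtain ⟨u, v, s, ⟨g, rfl⟩, rfl⟩ := hr
        obtain ⟨α, n', hn', h3⟩ := RA7_gen hK hκ u g v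
        refine AddSubgroup.subset_closure ⟨0, fun _ => α, n', hn', ?_⟩
        rw [hval]
        rw [← hW] at h3
        exact RA7_mk h3
      | zero =>
        rw [map_zero]
        exact AddSubgroup.zero_mem _
      | add a b _ _ ha hb =>
        rw [map_add]
        exact AddSubgroup.add_mem _ ha hb
      | neg a _ ha =>
        rw [map_neg]
        exact AddSubgroup.neg_mem _ ha
  obtain ⟨n, hn⟩ := H
  refine ⟨n, fun m hm => le_antisymm ?_ (hQ hm)⟩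
  intro q hq
  have h1 : QuotientAddGroup.mk' W q ∈ (Q m).map (QuotientAddGroup.mk' W) := ⟨q, hq, rfl⟩
  have h2 : (Q m).map (QuotientAddGroup.mk' W) = (Q n).map (QuotientAddGroup.mk' W) := hn m hm
  rw [h2] at h1
  obtain ⟨q', hq', h3⟩ := h1
  have h4 : -q' + q ∈ W := QuotientAddGroup.eq.1 h3
  have h5 := (Q n).add_mem hq' (hWQ n h4)
  rwa [add_neg_cancel_left] at h5

end E4.RA
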