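import Pool.Agent.Lib.MP_8a95e3_al.X14

/-!
# ZR : ring theorem for the layer `γ₃` of the group part
-/

noncomputable section

namespace E4.X

open E4

private theorem ZR_c1 {y : ℕ} {U : Finset ℕ} (hy : y ∉ U) :
    (rp y 1).comp (kls U) = (kls U).comp (rp y 1) := by
  refine hom_ext fun i => ?_
  rw [MonoidHom.comp_apply, MonoidHom.comp_apply, kls_x, rp_x]
  by_cases h1 : i = y
  · rw [if_pos h1, if_neg (by rw [h1]; exact hy), rp_x, if_pos h1, map_one]
  · rw [if_neg h1, kls_x]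
    by_cases h2 : i ∈ U
    · rw [if_pos h2, map_one]
    · rw [if_neg h2, rp_x, if_neg h1]

private theorem ZR_c2 {y : ℕ} {U : Finset ℕ} (hy : y ∉ U) :
    (sqs {y}).comp (kls U) = (kls U).comp (sqs {y}) := by
  refine hom_ext fun i => ?_
  rw [MonoidHom.comp_apply, MonoidHom.comp_apply, kls_x, sqs_x]
  by_cases h1 : i = y
  · have h2 : i ∉ U := by rw [h1]; exact hy
    have h3 : i ∈ ({y} : Finset ℕ) := Finset.mem_singleton.2 h1
    rw [if_neg h2, if_pos h3, sqs_x, if_pos h3, map_pow, kls_x, if_neg h2]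
  · have h3 : i ∉ ({y} : Finset ℕ) := fun h => h1 (Finset.mem_singleton.1 h)
    rw [if_neg h3, kls_x]
    by_cases h2 : i ∈ U
    · rw [if_pos h2, map_one]
    · rw [if_neg h2, sqs_x, if_neg h3]

private theorem ZR_c3 {y j : ℕ} (hj : j ≠ y) : (rp j 1).comp (rp y 1) = (rp y 1).comp (rp j 1) := by
  refine hom_ext fun i => ?_
  rw [MonoidHom.comp_apply, MonoidHom.comp_apply, rp_x, rp_x]
  by_cases h1 : i = y
  · subst h1
    rw [if_pos rfl, map_one, if_neg (Ne.symm hj), rp_x, if_pos rfl]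
  · rw [if_neg h1, rp_x]
    by_cases h2 : i = j
    · rw [if_pos h2, map_one]
    · rw [if_neg h2, rp_x, if_neg h1]

private theorem ZR_c4 {y j : ℕ} (hj : j ≠ y) : (rp j 1).comp (sqs {y}) = (sqs {y}).comp (rp j 1) := by
  refine hom_ext fun i => ?_
  rw [MonoidHom.comp_apply, MonoidHom.comp_apply, sqs_x, rp_x]
  by_cases h1 : i = y
  · have h3 : i ∈ ({y} : Finset ℕ) := Finset.mem_singleton.2 h1
    have h4 : ¬ i = j := by rw [h1]; exact Ne.symm hj
    rw [if_pos h3, map_pow, rp_x, if_neg h4, sqs_x, if_pos h3]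
  · have h3 : i ∉ ({y} : Finset ℕ) := fun h => h1 (Finset.mem_singleton.1 h)
    rw [if_neg h3, rp_x]
    by_cases h2 : i = j
    · rw [if_pos h2, map_one]
    · rw [if_neg h2, sqs_x, if_neg h3]

private theorem ZR_ind {P : AddSubgroup FB} (hP : TI P) (hE : ∀ n, E1 P P n) {y : ℕ} (n : ℕ) :
    ∀ (L : Finset ℕ) (t : FB), L.card = n → y ∉ L → eB (ret (insert y L)) t = t → eB (rp y 1) t = 0 →
      eB (sqs {y}) t ∈ P → t ∈ P ⊔ I2 y := by
  induction n using Nat.strong_induction_on with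
  | _ n ih =>
    intro L t hL hy hr hk hs
    have hne : ∀ j ∈ L, j ≠ y := fun j hj h => hy (h ▸ hj)
    have hq : QL L t ∈ P ⊔ I2 y := by
      refine hE n L y hL hy _ ⟨?_, QL_ret hr⟩ ?_
      · intro j hj
        rcases Finset.mem_insert.1 hj with h1 | hj
        · rw [h1, QL_comm (rp y 1) (fun j hj => ZR_c3 (hne j hj)), hk, map_zero]
        · exact QL_kill hj _
      · rw [QL_comm (sqs {y}) (fun j hj => ZR_c4 (hne j hj))]
        exact QL_mem (fun j _ w hw => hP.endo _ w hw) hs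
    have hsum : ∑ U ∈ L.powerset.erase ∅, eB (kls U) t ∈ P ⊔ I2 y := by
      refine sum_mem fun U hU => ?_
      rw [Finset.mem_erase, Finset.mem_powerset] at hU
      obtain ⟨hU1, hU2⟩ := hU
      have hyU : y ∉ U := fun h => hy (hU2 h)
      have hcard : (L \ U).card < n := by
        rw [← hL]
        refine Finset.card_lt_card ?_
        rw [Finset.ssubset_iff_of_subset Finset.sdiff_subset]
        obtain ⟨i, hi⟩ := Finset.nonempty_iff_ne_empty.2 hU1
        exact ⟨i, hU2 hi, fun h => (Finset.mem_sdiff.1 h).2 hi⟩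
      have hy' : y ∉ L \ U := fun h => hy (Finset.mem_sdiff.1 h).1
      refine ih _ hcard (L \ U) _ rfl hy' ?_ ?_ ?_
      · have e : (ret (insert y (L \ U))).comp ((kls U).comp (ret (insert y L))) =
            (kls U).comp (ret (insert y L)) := by
          refine hom_ext fun i => ?_
          simp only [MonoidHom.comp_apply, ret_x]
          by_cases h1 : i ∈ insert y L
          · rw [if_pos h1, kls_x]
            by_cases h2 : i ∈ U
            · rw [if_pos h2, map_one]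
            · rw [if_neg h2, ret_x, if_pos]
              rcases Finset.mem_insert.1 h1 with h3 | h3
              · rw [h3]
                exact Finset.mem_insert_self _ _
              · exact Finset.mem_insert_of_mem (Finset.mem_sdiff.2 ⟨h3, h2⟩)
          · rw [if_neg h1, map_one, map_one]
        have e2 : eB (kls U) t = eB ((kls U).comp (ret (insert y L))) t := by
          rw [← eB_comp, hr]
        rw [e2, eB_comp, e]
      · rw [eB_comp, ZR_c1 hyU, ← eB_comp, hk, map_zero]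
      · rw [eB_comp, ZR_c2 hyU, ← eB_comp]
        exact hP.endo _ _ hs
    have h1 : eB (kls ∅) t = t := by
      refine eB_id _ (fun i => ?_) t
      rw [kls_x, if_neg (Finset.notMem_empty i)]
    have h2 : t = QL L t - ∑ U ∈ L.powerset.erase ∅, eB (kls U) t := by
      rw [QL_apply, ← Finset.add_sum_erase _ _ (Finset.empty_mem_powerset L), h1, add_sub_cancel_right]
    rw [h2]
    exact sub_mem hq hsum

/-- one additional P-letter, without fullness -/
theorem E1_all {P : AddSubgroup FB} (h0 : A0F P) (hP : Ids P) {y : ℕ} {t : FB} (hk : eB (rp y 1) t = 0)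
    (hs : eB (sqs {y}) t ∈ P) : t ∈ P ⊔ I2 y := by
  obtain ⟨M, hM⟩ := exists_ret t
  have h1 : M ⊆ insert y (M.erase y) := by
    intro i hi
    by_cases h : i = y
    · rw [h]
      exact Finset.mem_insert_self _ _
    · exact Finset.mem_insert_of_mem (Finset.mem_erase.2 ⟨h, hi⟩)
  exact ZR_ind hP.ti (fun n => (all_E h0 hP le_rfl n).2.1) (M.erase y).card (M.erase y) t rfl
    (Finset.notMem_erase y M) (ret_mono h1 hM) hk hs

private theorem ZR_X2 (y : ℕ) (a : FB) : Xl y * a * Xl y ∈ I2 y :=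
  mul_I1_I1 ((I1_bi y).mul_right a (sub_idl rfl)) (sub_idl rfl)

private theorem ZR_swy (y z : ℕ) : eB (sw y z) (Xl y) = Xl z := by
  rw [Xl, eB_C, sw_x, if_pos rfl]
  rfl

private theorem ZR_swz (y z : ℕ) : eB (sw y z) (Xl z) = Xl y := by
  rw [Xl, eB_C, sw_x]
  by_cases h : z = y
  · rw [if_pos h, h]
    rfl
  · rw [if_neg h, if_pos rfl]
    rfl

/-- `σ` maps `I2 y ⊔ I2 z` to itself -/
theorem I22_sw {y z : ℕ} {f : FB} (hf : f ∈ I2 y ⊔ I2 z) : eB (sw y z) f ∈ I2 y ⊔ I2 z := by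
  have h : I2 y ⊔ I2 z ≤ (I2 y ⊔ I2 z).comap (eB (sw y z)).toAddMonoidHom := by
    refine sup_le ?_ ?_
    · intro r hr
      refine eB_idl ((I2_bi y).sup (I2_bi z)) (sw y z) ?_ hr
      rintro s ⟨a, rfl⟩
      rw [map_mul, map_mul, eB_o, ZR_swy]
      exact AddSubgroup.mem_sup_right (ZR_X2 z _)
    · intro r hr
      refine eB_idl ((I2_bi y).sup (I2_bi z)) (sw y z) ?_ hr
      rintro s ⟨a, rfl⟩
      rw [map_mul, map_mul, eB_o, ZR_swz]
      exact AddSubgroup.mem_sup_left (ZR_X2 y _)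
  exact h hf

/-- `σ` maps `NN P y z` to itself -/
theorem NN_sw {P : AddSubgroup FB} (hP : Ids P) {y z : ℕ} (hyz : y ≠ z) {f : FB} (hf : f ∈ NN P y z) :
    eB (sw y z) f ∈ NN P y z := by
  have hle : P ⊔ I2 y ⊔ I2 z ≤ NN P y z := le_sup_left
  have hle2 : I2 y ⊔ I2 z ≤ NN P y z :=
    (sup_le (le_sup_right.trans le_sup_left) le_sup_right : I2 y ⊔ I2 z ≤ P ⊔ I2 y ⊔ I2 z).trans hle
  have hleP : P ≤ NN P y z := (le_sup_left.trans le_sup_left : P ≤ P ⊔ I2 y ⊔ I2 z).trans hle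
  have h : NN P y z ≤ (NN P y z).comap (eB (sw y z)).toAddMonoidHom := by
    refine sup_le (sup_le (sup_le ?_ ?_) ?_) ?_
    · intro r hr
      exact hleP (hP.ti.endo _ _ hr)
    · intro r hr
      exact hle2 (I22_sw (AddSubgroup.mem_sup_left hr))
    · intro r hr
      exact hle2 (I22_sw (AddSubgroup.mem_sup_right hr))
    · intro r hr
      refine eB_idl (NN_bi hP.ti y z) (sw y z) ?_ hr
      rintro s ⟨g, rfl⟩
      have e : eB (sw y z) (ee g y z) = ee (sw y z g) z y := by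
        rw [ee, ee, map_add, map_mul, map_mul, map_mul, map_mul, map_mul, map_mul, eB_T, eB_C, ZR_swy, ZR_swz]
      rw [e]
      have h1 := hP.esym y z hyz (sw y z g)
      have h2 : ee (sw y z g) y z ∈ NN P y z := AddSubgroup.mem_sup_right (sub_idl ⟨_, rfl⟩)
      exact (AddSubgroup.add_mem_cancel_left _ h2).1 (hle h1)
  exact h hf

/-- the word without the letters `y`, `z` -/
private def ZR_f (y z : ℕ) : F →* F := (rp z 1).comp (rp y 1)

private theorem ZR_fx (y z i : ℕ) : ZR_f y z (x i) = if i = y then 1 else if i = z then 1 else x i := by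
  unfold ZR_f
  rw [MonoidHom.comp_apply, rp_x]
  by_cases h1 : i = y
  · rw [if_pos h1, if_pos h1, map_one]
  · rw [if_neg h1, if_neg h1, rp_x]

private theorem ZR_fr (y z : ℕ) (a : F) : Fr y z (ZR_f y z a) := by
  have e1 : (rp y 1).comp (ZR_f y z) = ZR_f y z := by
    refine hom_ext fun i => ?_
    rw [MonoidHom.comp_apply, ZR_fx]
    by_cases h1 : i = y
    · rw [if_pos h1, map_one]
    · rw [if_neg h1]
      by_cases h2 : i = z
      · rw [if_pos h2, map_one]
      · rw [if_neg h2, rp_x, if_neg h1]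
  have e2 : (rp z 1).comp (ZR_f y z) = ZR_f y z := by
    refine hom_ext fun i => ?_
    rw [MonoidHom.comp_apply, ZR_fx]
    by_cases h1 : i = y
    · rw [if_pos h1, map_one]
    · rw [if_neg h1]
      by_cases h2 : i = z
      · rw [if_pos h2, map_one]
      · rw [if_neg h2, rp_x, if_neg h2]
  exact ⟨DFunLike.congr_fun e1 a, DFunLike.congr_fun e2 a⟩

private theorem ZR_fox (y z : ℕ) (a : F) : ∃ i ∈ I1 y, ∃ j ∈ I1 z, o a = o (ZR_f y z a) + i + j := by
  refine ⟨_, fox y a, _, fox z (rp y 1 a), ?_⟩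
  show o a = o (rp z 1 (rp y 1 a)) + (o a + o (rp y 1 a)) + (o (rp y 1 a) + o (rp z 1 (rp y 1 a)))
  have e : o (rp z 1 (rp y 1 a)) + (o a + o (rp y 1 a)) + (o (rp y 1 a) + o (rp z 1 (rp y 1 a))) =
      o a + (o (rp y 1 a) + o (rp y 1 a)) + (o (rp z 1 (rp y 1 a)) + o (rp z 1 (rp y 1 a))) := by abel
  rw [e, fb_add_self, fb_add_self, add_zero, add_zero]

/-- modulo `I2 y ⊔ I2 z` every element of `idl {Y Z}` is a second component of `RP` -/
theorem idl_RP {y z : ℕ} {r : FB} (hr : r ∈ idl {Xl y * Xl z}) :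
    ∃ t ρ, (t, ρ) ∈ RP y z ∧ r + ρ ∈ I2 y ⊔ I2 z := by
  unfold idl at hr
  induction hr using AddSubgroup.closure_induction with
  | mem r hr =>
    obtain ⟨a, b, s, hs, rfl⟩ := hr
    rw [Set.mem_singleton_iff] at hs
    subst hs
    obtain ⟨i, hi, j, hj, ha⟩ := ZR_fox y z a
    obtain ⟨i', hi', j', hj', hb⟩ := ZR_fox y z b
    have hYy : Xl y * Xl z ∈ I1 y := (I1_bi y).mul_right _ (sub_idl rfl)
    have hYz : Xl y * Xl z ∈ I1 z := (I1_bi z).mul_left _ (sub_idl rfl)
    refine ⟨o (ZR_f y z a) * Xl y * o (ZR_f y z b), o (ZR_f y z a) * (Xl y * Xl z) * o (ZR_f y z b),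
      AddSubgroup.subset_closure ⟨_, _, ZR_fr y z a, ZR_fr y z b, rfl⟩, ?_⟩
    have e : o a * (Xl y * Xl z) * o b + o (ZR_f y z a) * (Xl y * Xl z) * o (ZR_f y z b) =
        (i * (Xl y * Xl z) * o b + o (ZR_f y z a) * (Xl y * Xl z * i')) +
        (j * (Xl y * Xl z) * o b + o (ZR_f y z a) * (Xl y * Xl z * j')) := by
      have e1 : o a * (Xl y * Xl z) * o b = o (ZR_f y z a) * (Xl y * Xl z) * o b + i * (Xl y * Xl z) * o b +
          j * (Xl y * Xl z) * o b := by
        rw [ha, add_mul, add_mul, add_mul, add_mul]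
      have e2 : o (ZR_f y z a) * (Xl y * Xl z) * o b = o (ZR_f y z a) * (Xl y * Xl z) * o (ZR_f y z b) +
          o (ZR_f y z a) * (Xl y * Xl z * i') + o (ZR_f y z a) * (Xl y * Xl z * j') := by
        rw [hb, mul_add, mul_add, mul_assoc _ _ i', mul_assoc _ _ j']
      rw [e1, e2]
      have e3 : ∀ A B D E G : FB, A + B + D + E + G + A = (E + B) + (G + D) + (A + A) := by
        intro A B D E G
        abel
      rw [e3, fb_add_self, add_zero]
    rw [e]
    refine add_mem (AddSubgroup.mem_sup_left ?_) (AddSubgroup.mem_sup_right ?_)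
    · exact add_mem ((I2_bi y).mul_right _ (mul_I1_I1 hi hYy)) ((I2_bi y).mul_left _ (mul_I1_I1 hYy hi'))
    · exact add_mem ((I2_bi z).mul_right _ (mul_I1_I1 hj hYz)) ((I2_bi z).mul_left _ (mul_I1_I1 hYz hj'))
  | zero => exact ⟨0, 0, AddSubgroup.zero_mem _, by rw [add_zero]; exact AddSubgroup.zero_mem _⟩
  | add a b _ _ ha hb =>
    obtain ⟨t, ρ, h1, h2⟩ := ha
    obtain ⟨t', ρ', h1', h2'⟩ := hb
    refine ⟨t + t', ρ + ρ', AddSubgroup.add_mem _ h1 h1', ?_⟩
    have e : a + b + (ρ + ρ') = (a + ρ) + (b + ρ') := by abel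
    rw [e]
    exact AddSubgroup.add_mem _ h2 h2'
  | neg a _ ha =>
    rw [fb_neg]
    exact ha

/-- every element of the ideal of the `τ` is a second component of `KP` -/
theorem idl_KP {y z : ℕ} {k : FB} (hk : k ∈ idl {r | ∃ g : F, r = tau y z g}) : ∃ w, (w, k) ∈ KP y z := by
  unfold idl at hk
  induction hk using AddSubgroup.closure_induction with
  | mem r hr =>
    obtain ⟨a, b, s, ⟨g, rfl⟩, rfl⟩ := hr
    exact ⟨o a * T g * o b, AddSubgroup.subset_closure ⟨a, g, b, rfl⟩⟩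
  | zero => exact ⟨0, AddSubgroup.zero_mem _⟩
  | add a b _ _ ha hb =>
    obtain ⟨w, h⟩ := ha
    obtain ⟨w', h'⟩ := hb
    exact ⟨w + w', AddSubgroup.add_mem _ h h'⟩
  | neg a _ ha =>
    rw [fb_neg]
    exact ha

/-- the first components of `RP` are of degree one in `y` and do not contain `z` -/
theorem RP_fst {y z : ℕ} (hyz : y ≠ z) (q : FB × FB) (h : q ∈ RP y z) :
    eB (rp y 1) q.1 = 0 ∧ eB (rp z 1) q.1 = q.1 := by
  unfold RP at h
  induction h using AddSubgroup.closure_induction with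
  | mem r hr =>
    obtain ⟨u, v, hu, hv, rfl⟩ := hr
    constructor
    · show eB (rp y 1) (o u * Xl y * o v) = 0
      rw [map_mul, map_mul, eB_Xl_rp_self, C_one, mul_zero, zero_mul]
    · show eB (rp z 1) (o u * Xl y * o v) = o u * Xl y * o v
      rw [map_mul, map_mul, eB_o, eB_o, hu.2, hv.2, eB_Xl_rp_ne 1 hyz]
  | zero => exact ⟨map_zero _, map_zero _⟩
  | add a b _ _ ha hb =>
    refine ⟨?_, ?_⟩
    · show eB (rp y 1) (a.1 + b.1) = 0
      rw [map_add, ha.1, hb.1, add_zero]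
    · show eB (rp z 1) (a.1 + b.1) = a.1 + b.1
      rw [map_add, ha.2, hb.2]
  | neg a _ ha =>
    have h1 : (-a).1 = a.1 := fb_neg _
    rw [h1]
    exact ha

/-- the elements of `Sw` are fixed by the exchange -/
theorem Sw_fix {y z : ℕ} {s : FB} (hs : s ∈ Sw y z) : eB (sw y z) s = s := by
  unfold Sw at hs
  induction hs using AddSubgroup.closure_induction with
  | mem r hr =>
    obtain ⟨s, _, rfl⟩ := hr
    rw [map_add, sw_sw, add_comm]
  | zero => exact map_zero _
  | add a b _ _ ha hb => rw [map_add, ha, hb]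
  | neg a _ ha => rw [map_neg, ha]

/-- **Ring theorem for the layer `γ₃`.** -/
theorem ring_g3 {P : AddSubgroup FB} (h0 : A0F P) (hP : Ids P) {y z : ℕ} (hyz : y ≠ z) {r : FB} (hr : r ∈ VA P y z)
    (hs : r + eB (sw y z) r ∈ P ⊔ I2 y ⊔ I2 z) :
    r ∈ Sw y z ⊔ idl {r | ∃ g : F, r = tau y z g} ⊔ NN P y z := by
  have hle : P ⊔ I2 y ⊔ I2 z ≤ NN P y z := le_sup_left
  have hle2 : I2 y ⊔ I2 z ≤ NN P y z :=
    (sup_le (le_sup_right.trans le_sup_left) le_sup_right : I2 y ⊔ I2 z ≤ P ⊔ I2 y ⊔ I2 z).trans hle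
  unfold VA at hr
  obtain ⟨a, ha, n, hn, rfl⟩ := AddSubgroup.mem_sup.1 hr
  obtain ⟨b, hb, q, hq, rfl⟩ := AddSubgroup.mem_sup.1 ha
  obtain ⟨s, hs', k, hk, rfl⟩ := AddSubgroup.mem_sup.1 hb
  obtain ⟨w, hwk⟩ := idl_KP hk
  obtain ⟨t, ρ, htρ, hqρ⟩ := idl_RP hq
  have h1 : k + eB (sw y z) k ∈ NN P y z := k_sw hP hyz hwk
  have h2 : n + eB (sw y z) n ∈ NN P y z := add_mem hn (NN_sw hP hyz hn)
  have h3 : (q + ρ) + eB (sw y z) (q + ρ) ∈ NN P y z := hle2 (add_mem hqρ (I22_sw hqρ))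
  have h4 : ρ + eB (sw y z) ρ ∈ NN P y z := by
    have e : ρ + eB (sw y z) ρ = ((s + k + q + n) + eB (sw y z) (s + k + q + n)) + (k + eB (sw y z) k) +
        (n + eB (sw y z) n) + ((q + ρ) + eB (sw y z) (q + ρ)) + ((s + s) + (k + k) + (q + q) + (n + n) +
        (eB (sw y z) k + eB (sw y z) k) + (eB (sw y z) q + eB (sw y z) q) + (eB (sw y z) n + eB (sw y z) n)) +
        (((s + s) + (k + k) + (q + q) + (n + n) +
        (eB (sw y z) k + eB (sw y z) k) + (eB (sw y z) q + eB (sw y z) q) + (eB (sw y z) n + eB (sw y z) n)) +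
        (s + eB (sw y z) s)) := by
      simp only [fb_add_self, map_add, add_zero, zero_add]
      rw [Sw_fix hs', fb_add_self, add_zero]
      have e2 : ∀ A B D E A' B' D' E' G G' : FB, A + B + D + E + (A' + B' + D' + E') + (B + B') + (E + E') +
          (D + G + (D' + G')) = G + G' + (A + A') + (B + B) + (B' + B') + (D + D) + (D' + D') + (E + E) + (E' + E') := by
        intro A B D E A' B' D' E' G G'
        abel
      rw [e2]
      simp only [fb_add_self, add_zero]
    rw [e]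
    simp only [fb_add_self, add_zero, zero_add]
    rw [Sw_fix hs', fb_add_self, add_zero]
    exact add_mem (add_mem (add_mem (hle hs) h1) h2) h3
  have hbp := bp_br hyz (r_sw hyz htρ)
  have h5 : eB (rp y ((x y * x z) ^ 2)) t ∈ NN P y z := (AddSubgroup.add_mem_cancel_right _ h4).1 (hle2 hbp)
  obtain ⟨ht1, ht2⟩ := RP_fst hyz (t, ρ) htρ
  have h6 : eB (sqs {y}) t ∈ P := h0.t1 y z t hyz ht1 ht2 (sq_NN h0 hP.four hyz h5)
  have h7 : t ∈ P ⊔ I2 y := E1_all h0 hP ht1 h6
  have h8 := rp_mem hP hyz htρ h7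
  have h9 : Sw y z ⊔ (P ⊔ I2 y ⊔ I2 z) ≤ Sw y z ⊔ idl {r | ∃ g : F, r = tau y z g} ⊔ NN P y z :=
    sup_le (le_sup_left.trans le_sup_left) (hle.trans le_sup_right)
  have h10 : q = ρ + (q + ρ) := by
    rw [add_comm q ρ, ← add_assoc, fb_add_self, zero_add]
  have h11 : q ∈ Sw y z ⊔ idl {r | ∃ g : F, r = tau y z g} ⊔ NN P y z := by
    rw [h10]
    exact add_mem (h9 h8) (AddSubgroup.mem_sup_right (hle2 hqρ))
  exact add_mem (add_mem (AddSubgroup.mem_sup_left hb) h11) (AddSubgroup.mem_sup_right hn)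

end E4.X
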