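import Pool.Agent.Lib.MP_8a95e3_al.RA5a
import Pool.Agent.Lib.MP_8a95e3_al.RA5b
import Pool.Agent.Lib.MP_8a95e3_al.RA7
import Pool.Agent.Lib.MP_8a95e3_al.ZR

/-!
# RA8 : THEOREM 1
-/

noncomputable section

namespace E4.RA

open E4 E4.X E4.N

/-- **THEOREM 1.**  Below `hZ` is the ring theorem `ring_g3 h0 hP` (file ZR, helper64; `y = 0`, `z = 1`), `hT` is `racc_tau hK` (RA7).
PROOF.  Let `P = PG RG`, `J = idl {tau 0 1 g}`.
(a) `RAcc R3 (VA P 0 1)` by `racc_Bil` and `racc_mono` (`R3 ≤ Bil 0 1`).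
(b) `racc_step` with `A = R3`, `W = W3`, `B = VA P 0 1` (`W3_le`, `St2_VA`): it remains `RAcc ((R3 ⊔ W3) ⊓ VA P 0 1) W3`.  By the modular law (`W3 ≤ VA P 0 1`) an element of
`(R3 ⊔ W3) ⊓ VA P 0 1` is `r + w` with `w ∈ W3`, `r ∈ R3 ⊓ VA P 0 1`, and `r + eB (sw 0 1) r ∈ K0 ⊔ I2 0 ⊔ I2 1 ≤ P ⊔ I2 0 ⊔ I2 1`, so by `hZ` it is in
`(J ⊔ EI 0 1 ⊔ P) ⊔ W3` (`Sw 0 1`, `I2 0`, `I2 1 ≤ W3`; `NN P 0 1 = P ⊔ I2 0 ⊔ I2 1 ⊔ EI 0 1`).  By `racc_mono` it is enough to show `RAcc (J ⊔ EI 0 1 ⊔ P) W3`.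
(c) Let `B = P ⊔ W3` (stable).  `RAcc J B` by `racc_up` from `hT` (`Wt ⊔ NK01 ≤ W3 ≤ B`), `RAcc (EI 0 1) B` by `racc_up` from `racc_EI`, `RAcc P B` trivially (`racc_mono` of the `RAcc` of `⊥`, or `racc_up` from `racc_PG`), hence
`RAcc (J ⊔ EI 0 1 ⊔ P) B` by `racc_sup`.  `racc_step` with `A = J ⊔ EI 0 1 ⊔ P`, `W = W3`, `B`: it remains `RAcc ((A ⊔ W3) ⊓ B) W3`, which follows by `racc_mono` from `RAcc P W3` (`B = P ⊔ W3`), `racc_up` of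
`racc_PG` (`K0 ≤ W3`).
Stability: `St2_TI (PG_TI RG)`, `St2_EI`, `St2_tau`, `St2_W3`, `St2_VA`, `St2_R3`, `St2.sup`. -/
theorem racc_R3 (hG : GenF) (h0 : A0F (PG RG)) (hP : Ids (PG RG)) (hK : KUn) : RAcc R3 W3 := by
  have hTI : TI (PG RG) := PG_TI RG
  have hSP : St2 (PG RG) := St2_TI hTI
  have hSK : St2 K0 := St2_TI K0_TI
  have hKP : K0 ≤ PG RG := K0_le hTI
  have i1 : Sw 0 1 ≤ W3 := le_sup_left.trans le_sup_left
  have i2 : Wt ≤ W3 := le_sup_right.trans le_sup_left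
  have i3 : K0 ⊔ I2 0 ⊔ I2 1 ≤ W3 := le_sup_right
  have i4 : K0 ≤ W3 := (le_sup_left.trans le_sup_left).trans i3
  have i5 : I2 0 ≤ W3 := (le_sup_right.trans le_sup_left).trans i3
  have i6 : I2 1 ≤ W3 := le_sup_right.trans i3
  have hV : W3 ≤ VA (PG RG) 0 1 := W3_le hTI
  refine racc_step (B := VA (PG RG) 0 1) hV (St2_VA hTI) ?_ ?_
  · exact racc_mono (R := Bil 0 1) (fun r hr => AddSubgroup.mem_sup_left (mem_R3.1 hr).1) (racc_Bil hP)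
  · refine racc_mono (R := idl {r | ∃ g : F, r = tau 0 1 g} ⊔ EI 0 1 ⊔ PG RG) ?_ ?_
    · rintro q ⟨hq1, hq2⟩
      obtain ⟨r, hr, w, hw, rfl⟩ := AddSubgroup.mem_sup.1 hq1
      have hrV : r ∈ VA (PG RG) 0 1 := (AddSubgroup.add_mem_cancel_right _ (hV hw)).1 hq2
      have hle : K0 ⊔ I2 0 ⊔ I2 1 ≤ PG RG ⊔ I2 0 ⊔ I2 1 := sup_le_sup (sup_le_sup hKP le_rfl) le_rfl
      have h1 := ring_g3 h0 hP (y := 0) (z := 1) (by decide) hrV (hle (mem_R3.1 hr).2)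
      have h2 : Sw 0 1 ⊔ idl {r | ∃ g : F, r = tau 0 1 g} ⊔ NN (PG RG) 0 1 ≤
          idl {r | ∃ g : F, r = tau 0 1 g} ⊔ EI 0 1 ⊔ PG RG ⊔ W3 := by
        refine sup_le (sup_le (i1.trans le_sup_right) ((le_sup_left.trans le_sup_left).trans le_sup_left)) ?_
        unfold NN
        refine sup_le (sup_le (sup_le (le_sup_right.trans le_sup_left) (i5.trans le_sup_right)) (i6.trans le_sup_right)) ?_
        exact (le_sup_right.trans le_sup_left).trans le_sup_left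
      exact add_mem (h2 h1) (AddSubgroup.mem_sup_right hw)
    · have hSB : St2 (PG RG ⊔ W3) := hSP.sup St2_W3
      have hSN : St2 (Wt ⊔ NK01) := St2_Wt.sup ((hSK.sup St2_I2_0).sup St2_I2_1)
      refine racc_step (B := PG RG ⊔ W3) le_sup_right hSB ?_ ?_
      · refine racc_sup (St2_tau.sup St2_EI) hSP hSB (racc_sup St2_tau St2_EI hSB ?_ ?_) ?_
        · exact racc_up (W := Wt ⊔ NK01) ((sup_le i2 i3).trans le_sup_right) St2_tau hSN (racc_tau hK)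
        · refine racc_up (W := PG RG ⊔ I2 0 ⊔ I2 1) ?_ St2_EI ((hSP.sup St2_I2_0).sup St2_I2_1) (racc_EI hP)
          exact sup_le (sup_le le_sup_left (i5.trans le_sup_right)) (i6.trans le_sup_right)
        · exact racc_up (W := K0) (hKP.trans le_sup_left) hSP hSK (racc_PG hG)
      · exact racc_mono (R := PG RG) inf_le_right (racc_up (W := K0) i4 hSP hSK (racc_PG hG))

end E4.RA
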