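import Pool.Agent.Lib.MP_8a95e3_al.RC

/-!
# RC2 : a leaner version of the checker of RC (helper69)

Word codes as in RC (base 16 with leading digit 1).  Words are concatenated by arithmetic on the codes; the instances
are records of 208 bits (tag, a, b : 4 bits each, 4 bits unused, P, v, w, Q : 48 bits each), 40 records in one number.
Everything is written with recursors, which is cheap in the kernel.
-/

namespace E4.RC

noncomputable section

/-- plain concatenation -/
def catP (a b : ℕ) : ℕ := Nat.add (Nat.mul a (Nat.pow 2 (Nat.log2 b))) (Nat.sub b (Nat.pow 2 (Nat.log2 b)))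

def catT (ih : ℕ → ℕ → ℕ) (a m r n : ℕ) : ℕ :=
  Bool.rec (motive := fun _ => ℕ) (Nat.add (Nat.mul a m) r)
    (Bool.rec (motive := fun _ => ℕ) (Nat.add (Nat.mul a m) r)
      (Bool.rec (motive := fun _ => ℕ) (Nat.add (Nat.mul a m) r)
        (ih (Nat.div a 16) (Nat.add n (Nat.mod r n))) (Nat.ble (Nat.mod a 16) 7)) (Nat.ble 2 (Nat.mod a 16)))
    (Nat.beq (Nat.div r n) (Nat.xor (Nat.mod a 16) 1))

def catS (ih : ℕ → ℕ → ℕ) (a b m : ℕ) : ℕ := catT ih a m (Nat.sub b m) (Nat.div m 16)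

/-- concatenation with free reduction at the junction -/
def catr (f : ℕ) : ℕ → ℕ → ℕ :=
  Nat.rec (motive := fun _ => ℕ → ℕ → ℕ) catP (fun _ ih a b => catS ih a b (Nat.pow 2 (Nat.log2 b))) f

def cat (a b : ℕ) : ℕ := catr 12 a b

def invS (ih : ℕ → ℕ → ℕ) (v acc d : ℕ) : ℕ :=
  Bool.rec (motive := fun _ => ℕ) 0 (Bool.rec (motive := fun _ => ℕ) 0
    (ih (Nat.div v 16) (Nat.add (Nat.mul acc 16) (Nat.xor d 1))) (Nat.ble d 7)) (Nat.ble 2 d)

/-- inverse of a group word, `0` if this is not a group word -/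
def invr (f : ℕ) : ℕ → ℕ → ℕ :=
  Nat.rec (motive := fun _ => ℕ → ℕ → ℕ) (fun _ _ => 0)
    (fun _ ih v acc => Bool.rec (motive := fun _ => ℕ) (invS ih v acc (Nat.mod v 16)) acc (Nat.ble v 15)) f

def inw (v : ℕ) : ℕ := invr 16 v 1

/-- a code is well-formed if its leading hexadecimal digit is 1 -/
def wfb (x : ℕ) : Bool :=
  Bool.rec (motive := fun _ => Bool) false (Nat.ble 1 x) (Nat.beq (Nat.mod (Nat.log2 x) 4) 0)

/-- append a letter -/
def ap (w c : ℕ) : ℕ := Nat.add (Nat.mul w 16) c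

def isP (a : ℕ) : Bool := Nat.ble 8 a

def jG (P v Q vi : ℕ) (Pv : ℕ) : List ℕ :=
  [cat (cat Pv v) Q, cat P Q, cat Pv Q, cat (cat P vi) Q]

def jL (a P v Q vi : ℕ) : List ℕ :=
  [cat (ap P a) (cat v Q), cat (ap (cat P v) a) Q, cat (ap P a) Q, cat (ap (cat P vi) a) (cat vi Q)]

def jB (a b P v w Q vi wi : ℕ) : List ℕ :=
  [cat (ap (cat (ap P a) v) b) (cat w Q), cat (ap (cat (ap (cat P v) b) w) a) Q,
    cat (ap (cat (ap (cat P wi) b) vi) a) (cat wi (cat vi Q)),
    cat (ap (cat (ap (cat (cat P wi) vi) a) wi) b) (cat vi Q)]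

/-- `l` if the boolean is true -/
def gd (b : Bool) (l : List ℕ) : List ℕ := Bool.rec (motive := fun _ => List ℕ) [] l b

def jT (tag a b P v w Q vi wi : ℕ) : List ℕ :=
  Bool.rec (motive := fun _ => List ℕ)
    (Bool.rec (motive := fun _ => List ℕ)
      (gd (Nat.beq tag 4) (gd (isP a) (gd (isP b) (gd (wfb w) (gd (Nat.ble 1 wi) (jB a b P v w Q vi wi))))))
      (gd (isP a) (jL a P v Q vi)) (Nat.beq tag 3))
    (jG P v Q vi (cat P v)) (Nat.beq tag 2)

def jR (tag a b P v w Q : ℕ) : List ℕ :=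
  gd (wfb P) (gd (wfb v) (gd (wfb Q) (gd (Nat.ble 1 (inw v)) (jT tag a b P v w Q (inw v) (inw w)))))

/-- the words of a record -/
def recW (y : ℕ) : List ℕ :=
  jR (Nat.mod y 16) (Nat.mod (Nat.shiftRight y 4) 16) (Nat.mod (Nat.shiftRight y 8) 16)
    (Nat.mod (Nat.shiftRight y 16) 281474976710656) (Nat.mod (Nat.shiftRight y 64) 281474976710656)
    (Nat.mod (Nat.shiftRight y 112) 281474976710656) (Nat.shiftRight y 160)

/-- split a list into singletons in front of `acc` -/
def sgl (l : List ℕ) (acc : List (List ℕ)) : List (List ℕ) :=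
  List.rec (motive := fun _ => List (List ℕ)) acc (fun c _ ih => [c] :: ih) l

def unp (k : ℕ) : ℕ → List (List ℕ) → List (List ℕ) :=
  Nat.rec (motive := fun _ => ℕ → List (List ℕ) → List (List ℕ)) (fun _ acc => acc)
    (fun _ ih N acc => Bool.rec (motive := fun _ => List (List ℕ))
      (sgl (recW (Nat.mod N 411376139330301510538742295639337626245683966408394965837152256))
        (ih (Nat.shiftRight N 208) acc)) acc (Nat.beq N 0)) k

def allY (acc : List (List ℕ)) (cert : List ℕ) : List (List ℕ) :=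
  List.rec (motive := fun _ => List (List ℕ)) acc (fun N _ ih => unp 40 N ih) cert

def mrB (x : ℕ) (ih : List ℕ → List ℕ) (y : ℕ) (b' ih2 : List ℕ) : List ℕ :=
  Bool.rec (motive := fun _ => List ℕ)
    (Bool.rec (motive := fun _ => List ℕ) (y :: ih2) (x :: ih (y :: b')) (Nat.ble x y)) (ih b') (Nat.beq x y)

/-- merge with cancellation -/
def mrR (a : List ℕ) : List ℕ → List ℕ :=
  List.rec (motive := fun _ => List ℕ → List ℕ) (fun b => b)
    (fun x a ih b => List.rec (motive := fun _ => List ℕ) (x :: a) (mrB x ih) b) a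

/-- merge in pairs -/
def prR (l : List (List ℕ)) : Option (List ℕ) → List (List ℕ) :=
  List.rec (motive := fun _ => Option (List ℕ) → List (List ℕ))
    (fun o => Option.rec (motive := fun _ => List (List ℕ)) [] (fun a => [a]) o)
    (fun b _ ih o => Option.rec (motive := fun _ => List (List ℕ)) (ih (some b)) (fun a => mrR a b :: ih none) o) l

def trR (n : ℕ) : List (List ℕ) → List (List ℕ) :=
  Nat.rec (motive := fun _ => List (List ℕ) → List (List ℕ)) (fun l => l) (fun _ ih l => ih (prR l none)) n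

/-- the checker -/
def chy (tgt : List (List ℕ)) (cert : List ℕ) : Bool :=
  lt16 tgt && isE (trR 20 (allY (sing (encR tgt)) cert))

end

/-! ## soundness -/

section
variable {R : Type*} [Ring R] {ρ : ℕ → R} {G : Subgroup Rˣ}

/-- the leading hexadecimal digit is 1 -/
def WF (n : ℕ) : Prop := ∃ k, 16 ^ k ≤ n ∧ n < 2 * 16 ^ k

theorem WF.pos {n : ℕ} (h : WF n) : 1 ≤ n := by
  obtain ⟨k, h1, _⟩ := h
  exact le_trans (Nat.one_le_pow _ _ (by norm_num)) h1

theorem WF.log {n k : ℕ} (h1 : 16 ^ k ≤ n) (h2 : n < 2 * 16 ^ k) : Nat.pow 2 (Nat.log2 n) = 16 ^ k := by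
  have h0 : n ≠ 0 := by
    have := Nat.one_le_pow k 16 (by norm_num)
    omega
  have e : (16 : ℕ) ^ k = 2 ^ (4 * k) := by rw [pow_mul]; norm_num
  have e1 : Nat.log2 n = 4 * k := by
    apply le_antisymm
    · rw [← Nat.lt_succ_iff]
      rw [Nat.log2_lt h0, Nat.pow_succ, ← e]
      omega
    · rw [Nat.le_log2 h0, ← e]
      exact h1
  rw [e1, e]
  rfl

theorem wfb_WF {x : ℕ} (h : wfb x = true) : WF x := by
  unfold wfb at h
  cases hb : Nat.beq (Nat.mod (Nat.log2 x) 4) 0
  · rw [hb] at h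
    exact absurd h (by simp)
  · rw [hb] at h
    have h1 : 1 ≤ x := Nat.le_of_ble_eq_true h
    have h0 : x ≠ 0 := by omega
    have h2 : (Nat.log2 x) % 4 = 0 := Nat.eq_of_beq_eq_true hb
    obtain ⟨k, hk⟩ := Nat.dvd_of_mod_eq_zero h2
    have e : (16 : ℕ) ^ k = 2 ^ (Nat.log2 x) := by rw [hk, pow_mul]; norm_num
    refine ⟨k, ?_, ?_⟩
    · rw [e]
      exact Nat.log2_self_le h0
    · rw [e]
      have h3 : x < 2 ^ (Nat.log2 x + 1) := (Nat.log2_lt h0).1 (Nat.lt_succ_self _)
      rw [Nat.pow_succ] at h3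
      omega

theorem evC_cat (a : ℕ) (ha : 1 ≤ a) (k : ℕ) : ∀ r, r < 16 ^ k →
    evC ρ (a * 16 ^ k + r) = evC ρ a * evC ρ (16 ^ k + r) := by
  induction k with
  | zero =>
    intro r hr
    have : r = 0 := by simpa using hr
    subst this
    simp only [pow_zero, mul_one, add_zero]
    rw [evC_one, mul_one]
  | succ k ih =>
    intro r hr
    have hr2 : r / 16 < 16 ^ k := by
      rw [Nat.pow_succ] at hr
      omega
    have e1 : a * 16 ^ (k + 1) + r = (a * 16 ^ k + r / 16) * 16 + r % 16 := by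
      have := Nat.div_add_mod r 16
      rw [Nat.pow_succ]
      nlinarith
    have e2 : 16 ^ (k + 1) + r = (16 ^ k + r / 16) * 16 + r % 16 := by
      have := Nat.div_add_mod r 16
      rw [Nat.pow_succ]
      omega
    have hp : 1 ≤ 16 ^ k := Nat.one_le_pow _ _ (by norm_num)
    have hq : 1 ≤ a * 16 ^ k + r / 16 := le_trans (by simpa using Nat.mul_le_mul ha hp) (Nat.le_add_right _ _)
    rw [e1, e2, evC_app _ _ hq (Nat.mod_lt _ (by norm_num)), ih _ hr2,
      evC_app _ _ (by omega) (Nat.mod_lt _ (by norm_num)), mul_assoc]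

theorem evC_first (k r : ℕ) (hr : r < 16 ^ (k + 1)) :
    evC ρ (16 ^ (k + 1) + r) = ρ (r / 16 ^ k) * evC ρ (16 ^ k + r % 16 ^ k) := by
  have hp : 0 < 16 ^ k := Nat.pow_pos (by norm_num)
  have hd : r / 16 ^ k < 16 := by
    rw [Nat.div_lt_iff_lt_mul hp]
    rw [Nat.pow_succ, mul_comm] at hr
    exact hr
  have e1 : 16 ^ (k + 1) + r = (1 * 16 + r / 16 ^ k) * 16 ^ k + r % 16 ^ k := by
    have := Nat.div_add_mod r (16 ^ k)
    rw [Nat.pow_succ]
    nlinarith
  have hq : 1 ≤ 1 * 16 + r / 16 ^ k := le_trans (by norm_num) (Nat.le_add_right _ _)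
  rw [e1, evC_cat _ hq k _ (Nat.mod_lt _ hp), evC_app _ _ le_rfl hd, evC_one, one_mul]

theorem catP_spec {a b : ℕ} (ha : WF a) (hb : WF b) : WF (catP a b) ∧ evC ρ (catP a b) = evC ρ a * evC ρ b := by
  obtain ⟨j, a1, a2⟩ := ha
  obtain ⟨k, b1, b2⟩ := hb
  have e := WF.log b1 b2
  have ha1 : 1 ≤ a := le_trans (Nat.one_le_pow _ _ (by norm_num)) a1
  obtain ⟨r, rfl⟩ := Nat.exists_eq_add_of_le b1
  have hr : r < 16 ^ k := by omega
  have e2 : catP a (16 ^ k + r) = a * 16 ^ k + r := by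
    show a * (Nat.pow 2 (Nat.log2 (16 ^ k + r))) + (16 ^ k + r - Nat.pow 2 (Nat.log2 (16 ^ k + r))) = _
    rw [e, Nat.add_sub_cancel_left]
  rw [e2]
  refine ⟨⟨j + k, ?_, ?_⟩, evC_cat a ha1 k r hr⟩
  · rw [pow_add]
    nlinarith [Nat.zero_le r]
  · rw [pow_add]
    have : (a + 1) * 16 ^ k ≤ (2 * 16 ^ j) * 16 ^ k := Nat.mul_le_mul_right _ a2
    nlinarith

theorem catr_spec (H : Ok ρ G) (f : ℕ) : ∀ {a b : ℕ}, WF a → WF b →
    WF (catr f a b) ∧ evC ρ (catr f a b) = evC ρ a * evC ρ b := by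
  induction f with
  | zero => intro a b ha hb; exact catP_spec ha hb
  | succ f ih =>
    intro a b ha hb
    have hs : catr (f + 1) a b = catS (catr f) a b (Nat.pow 2 (Nat.log2 b)) := rfl
    have hpl : a * (Nat.pow 2 (Nat.log2 b)) + (b - Nat.pow 2 (Nat.log2 b)) = catP a b := rfl
    rw [hs]
    unfold catS catT
    cases h1 : Nat.beq (Nat.div (Nat.sub b (Nat.pow 2 (Nat.log2 b))) (Nat.div (Nat.pow 2 (Nat.log2 b)) 16))
      (Nat.xor (Nat.mod a 16) 1)
    · exact catP_spec ha hb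
    · cases h2 : Nat.ble 2 (Nat.mod a 16)
      · exact catP_spec ha hb
      · cases h3 : Nat.ble (Nat.mod a 16) 7
        · exact catP_spec ha hb
        · have h1' := Nat.eq_of_beq_eq_true h1
          have h2' : 2 ≤ a % 16 := Nat.le_of_ble_eq_true h2
          have h3' : a % 16 ≤ 7 := Nat.le_of_ble_eq_true h3
          obtain ⟨j, a1, a2⟩ := ha
          obtain ⟨k, b1, b2⟩ := hb
          have e := WF.log b1 b2
          obtain ⟨r, rfl⟩ := Nat.exists_eq_add_of_le b1
          have hr : r < 16 ^ k := by omega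
          obtain ⟨u, -, hu1, hu2⟩ := H.grp (a % 16) h2' h3'
          have hx : 2 ≤ Nat.xor (a % 16) 1 := by
            generalize a % 16 = c at h2' h3'
            interval_cases c <;> decide
          rw [e] at h1'
          have h4 : (16 ^ k + r - 16 ^ k) / (16 ^ k / 16) = Nat.xor (a % 16) 1 := h1'
          rw [Nat.add_sub_cancel_left] at h4
          cases k with
          | zero =>
            exfalso
            have : r / (16 ^ 0 / 16) = 0 := by simp
            omega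
          | succ k =>
            cases j with
            | zero =>
              exfalso
              have : a = 1 := by
                rw [pow_zero] at a1 a2
                omega
              subst this
              omega
            | succ j =>
              have e5 : (16 : ℕ) ^ (k + 1) / 16 = 16 ^ k := by
                rw [Nat.pow_succ, Nat.mul_div_cancel _ (by norm_num)]
              rw [e5] at h4
              have wa : WF (a / 16) := by
                refine ⟨j, ?_, ?_⟩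
                · rw [Nat.pow_succ] at a1
                  omega
                · rw [Nat.pow_succ] at a2
                  omega
              have wb : WF (16 ^ k + r % 16 ^ k) := by
                refine ⟨k, Nat.le_add_right _ _, ?_⟩
                have := Nat.mod_lt r (Nat.pow_pos (n := k) (show 0 < 16 by norm_num))
                omega
              have hh := ih wa wb
              have e6 : Nat.add (Nat.div (Nat.pow 2 (Nat.log2 (16 ^ (k + 1) + r))) 16)
                  (Nat.mod (Nat.sub (16 ^ (k + 1) + r) (Nat.pow 2 (Nat.log2 (16 ^ (k + 1) + r))))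
                  (Nat.div (Nat.pow 2 (Nat.log2 (16 ^ (k + 1) + r))) 16)) = 16 ^ k + r % 16 ^ k := by
                rw [e]
                show 16 ^ (k + 1) / 16 + (16 ^ (k + 1) + r - 16 ^ (k + 1)) % (16 ^ (k + 1) / 16) = _
                rw [e5, Nat.add_sub_cancel_left]
              show WF (catr f (a / 16) (Nat.add (Nat.div (Nat.pow 2 (Nat.log2 (16 ^ (k + 1) + r))) 16)
                  (Nat.mod (Nat.sub (16 ^ (k + 1) + r) (Nat.pow 2 (Nat.log2 (16 ^ (k + 1) + r))))
                  (Nat.div (Nat.pow 2 (Nat.log2 (16 ^ (k + 1) + r))) 16)))) ∧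
                evC ρ (catr f (a / 16) (Nat.add (Nat.div (Nat.pow 2 (Nat.log2 (16 ^ (k + 1) + r))) 16)
                  (Nat.mod (Nat.sub (16 ^ (k + 1) + r) (Nat.pow 2 (Nat.log2 (16 ^ (k + 1) + r))))
                  (Nat.div (Nat.pow 2 (Nat.log2 (16 ^ (k + 1) + r))) 16)))) = _
              rw [e6]
              refine ⟨hh.1, ?_⟩
              rw [hh.2, evC_first k r hr, h4]
              have e7 : evC ρ a = evC ρ (a / 16) * ρ (a % 16) := by
                rw [← evC_app _ _ wa.pos (Nat.mod_lt _ (by norm_num))]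
                congr 1
                omega
              rw [e7, ← hu1, ← hu2]
              calc evC ρ (a / 16) * evC ρ (16 ^ k + r % 16 ^ k)
                  = evC ρ (a / 16) * ((u : R) * ((u⁻¹ : Rˣ) : R)) * evC ρ (16 ^ k + r % 16 ^ k) := by
                    rw [Units.mul_inv, mul_one]
                _ = _ := by simp only [mul_assoc]

theorem cat_wf (H : Ok ρ G) {a b : ℕ} (ha : WF a) (hb : WF b) : WF (cat a b) := (catr_spec H 12 ha hb).1

theorem cat_ev (H : Ok ρ G) {a b : ℕ} (ha : WF a) (hb : WF b) : evC ρ (cat a b) = evC ρ a * evC ρ b :=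
  (catr_spec H 12 ha hb).2

theorem ap_wf {a c : ℕ} (ha : WF a) (hc : c < 16) : WF (ap a c) := by
  obtain ⟨j, a1, a2⟩ := ha
  refine ⟨j + 1, ?_, ?_⟩
  · show 16 ^ (j + 1) ≤ a * 16 + c
    rw [Nat.pow_succ]
    omega
  · show a * 16 + c < 2 * 16 ^ (j + 1)
    rw [Nat.pow_succ]
    omega

theorem ap_ev {a c : ℕ} (ha : WF a) (hc : c < 16) : evC ρ (ap a c) = evC ρ a * ρ c := evC_app a c ha.pos hc

theorem invr_spec (H : Ok ρ G) (f : ℕ) : ∀ {v acc : ℕ}, WF v → WF acc → 1 ≤ invr f v acc →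
    WF (invr f v acc) ∧ ∃ u : Rˣ, u ∈ G ∧ (u : R) = evC ρ v ∧
      evC ρ (invr f v acc) = evC ρ acc * ((u⁻¹ : Rˣ) : R) := by
  induction f with
  | zero =>
    intro v acc _ _ h
    exact absurd h (by show ¬ 1 ≤ 0; omega)
  | succ f ih =>
    intro v acc hv ha h
    have hs : invr (f + 1) v acc = Bool.rec (motive := fun _ => ℕ) (invS (invr f) v acc (Nat.mod v 16)) acc
      (Nat.ble v 15) := rfl
    rw [hs] at h ⊢
    cases h1 : Nat.ble v 15
    · rw [h1] at h
      have h1' : ¬ v ≤ 15 := fun h' => by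
        rw [Nat.ble_eq_true_of_le h'] at h1
        exact absurd h1 (by simp)
      unfold invS at h
      unfold invS
      cases h2 : Nat.ble 2 (Nat.mod v 16)
      · rw [h2] at h
        exact absurd h (by show ¬ 1 ≤ 0; omega)
      · rw [h2] at h
        cases h3 : Nat.ble (Nat.mod v 16) 7
        · rw [h3] at h
          exact absurd h (by show ¬ 1 ≤ 0; omega)
        · rw [h3] at h
          have h2' : 2 ≤ v % 16 := Nat.le_of_ble_eq_true h2
          have h3' : v % 16 ≤ 7 := Nat.le_of_ble_eq_true h3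
          obtain ⟨t, ht, ht1, ht2⟩ := H.grp (v % 16) h2' h3'
          have hx : Nat.xor (v % 16) 1 < 16 := by
            generalize v % 16 = c at h2' h3'
            interval_cases c <;> decide
          have wv : WF (v / 16) := by
            obtain ⟨j, a1, a2⟩ := hv
            cases j with
            | zero =>
              exfalso
              rw [pow_zero] at a2
              omega
            | succ j =>
              refine ⟨j, ?_, ?_⟩
              · rw [Nat.pow_succ] at a1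
                omega
              · rw [Nat.pow_succ] at a2
                omega
          have wacc : WF (acc * 16 + Nat.xor (v % 16) 1) := ap_wf ha hx
          obtain ⟨w1, u, hu, hu1, hu2⟩ := ih wv wacc h
          refine ⟨w1, u * t, G.mul_mem hu ht, ?_, ?_⟩
          · rw [Units.val_mul, hu1, ht1, ← evC_app _ _ wv.pos (Nat.mod_lt _ (by norm_num))]
            congr 1
            omega
          · show evC ρ (invr f (v / 16) (acc * 16 + Nat.xor (v % 16) 1)) = _
            rw [hu2, evC_app _ _ ha.pos hx, mul_inv_rev, Units.val_mul, ← ht2, mul_assoc]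
    · have h1' : v ≤ 15 := Nat.le_of_ble_eq_true h1
      refine ⟨ha, 1, G.one_mem, ?_, ?_⟩
      · have : v < 16 := by omega
        rw [evC, dif_pos this, Units.val_one]
      · show evC ρ acc = _
        rw [inv_one, Units.val_one, mul_one]

theorem wf_one : WF 1 := ⟨0, by norm_num, by norm_num⟩

theorem inw_spec (H : Ok ρ G) {v : ℕ} (hv : WF v) (h : Nat.ble 1 (inw v) = true) :
    WF (inw v) ∧ ∃ u : Rˣ, u ∈ G ∧ (u : R) = evC ρ v ∧ evC ρ (inw v) = ((u⁻¹ : Rˣ) : R) := by
  obtain ⟨h1, u, hu, hu1, hu2⟩ := invr_spec H 16 hv wf_one (Nat.le_of_ble_eq_true h)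
  refine ⟨h1, u, hu, hu1, ?_⟩
  rw [inw, hu2, evC_one, one_mul]

theorem jG_ev (H : Ok ρ G) {P v Q vi : ℕ} (hP : WF P) (hv : WF v) (hQ : WF Q) (hvi : WF vi)
    (hu : ∃ u : Rˣ, u ∈ G ∧ (u : R) = evC ρ v ∧ evC ρ vi = ((u⁻¹ : Rˣ) : R)) :
    evs ρ (jG P v Q vi (cat P v)) = 0 := by
  obtain ⟨u, hu, hu1, hu2⟩ := hu
  unfold jG
  simp only [evs]
  rw [cat_ev H (cat_wf H (cat_wf H hP hv) hv) hQ, cat_ev H (cat_wf H hP hv) hv, cat_ev H hP hv,
    cat_ev H hP hQ, cat_ev H (cat_wf H hP hv) hQ, cat_ev H hP hv, cat_ev H (cat_wf H hP hvi) hQ, cat_ev H hP hvi,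
    hu2, ← hu1]
  have := H.cub u hu
  calc _ = evC ρ P * ((u : R) * u + 1 + u + ((u⁻¹ : Rˣ) : R)) * evC ρ Q := by noncomm_ring
    _ = 0 := by rw [this]; simp

theorem jL_ev (H : Ok ρ G) {a P v Q vi : ℕ} (ha : 8 ≤ a) (ha2 : a < 16) (hP : WF P) (hv : WF v) (hQ : WF Q)
    (hvi : WF vi) (hu : ∃ u : Rˣ, u ∈ G ∧ (u : R) = evC ρ v ∧ evC ρ vi = ((u⁻¹ : Rˣ) : R)) :
    evs ρ (jL a P v Q vi) = 0 := by
  obtain ⟨u, hu, hu1, hu2⟩ := hu
  unfold jL
  simp only [evs]
  rw [cat_ev H (ap_wf hP ha2) (cat_wf H hv hQ), ap_ev hP ha2, cat_ev H hv hQ,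
    cat_ev H (ap_wf (cat_wf H hP hv) ha2) hQ, ap_ev (cat_wf H hP hv) ha2, cat_ev H hP hv,
    cat_ev H (ap_wf hP ha2) hQ, ap_ev hP ha2,
    cat_ev H (ap_wf (cat_wf H hP hvi) ha2) (cat_wf H hvi hQ), ap_ev (cat_wf H hP hvi) ha2, cat_ev H hP hvi,
    cat_ev H hvi hQ, hu2, ← hu1]
  have := H.lin a ha (by omega) u hu
  calc _ = evC ρ P * (ρ a * u + u * ρ a + ρ a + ((u⁻¹ : Rˣ) : R) * ρ a * ((u⁻¹ : Rˣ) : R)) * evC ρ Q := by
        noncomm_ring
    _ = 0 := by rw [this]; simp

theorem jB_ev (H : Ok ρ G) {a b P v w Q vi wi : ℕ} (ha : 8 ≤ a) (ha2 : a < 16) (hb : 8 ≤ b) (hb2 : b < 16)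
    (hP : WF P) (hv : WF v) (hw : WF w) (hQ : WF Q) (hvi : WF vi) (hwi : WF wi)
    (hu : ∃ u : Rˣ, u ∈ G ∧ (u : R) = evC ρ v ∧ evC ρ vi = ((u⁻¹ : Rˣ) : R))
    (ht : ∃ u : Rˣ, u ∈ G ∧ (u : R) = evC ρ w ∧ evC ρ wi = ((u⁻¹ : Rˣ) : R)) :
    evs ρ (jB a b P v w Q vi wi) = 0 := by
  obtain ⟨u, hu, hu1, hu2⟩ := hu
  obtain ⟨t, ht, ht1, ht2⟩ := ht
  have e1 : evC ρ (cat (ap (cat (ap P a) v) b) (cat w Q)) = evC ρ P * ρ a * u * ρ b * (t * evC ρ Q) := by
    rw [cat_ev H (ap_wf (cat_wf H (ap_wf hP ha2) hv) hb2) (cat_wf H hw hQ), ap_ev (cat_wf H (ap_wf hP ha2) hv) hb2,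
      cat_ev H (ap_wf hP ha2) hv, ap_ev hP ha2, cat_ev H hw hQ, hu1, ht1]
  have e2 : evC ρ (cat (ap (cat (ap (cat P v) b) w) a) Q) = evC ρ P * u * ρ b * t * ρ a * evC ρ Q := by
    have w1 := cat_wf H hP hv
    have w2 := ap_wf w1 hb2
    have w3 := cat_wf H w2 hw
    rw [cat_ev H (ap_wf w3 ha2) hQ, ap_ev w3 ha2, cat_ev H w2 hw, ap_ev w1 hb2, cat_ev H hP hv, hu1, ht1]
  have e3 : evC ρ (cat (ap (cat (ap (cat P wi) b) vi) a) (cat wi (cat vi Q))) =
      evC ρ P * ((t⁻¹ : Rˣ) : R) * ρ b * ((u⁻¹ : Rˣ) : R) * ρ a * (((t⁻¹ : Rˣ) : R) * (((u⁻¹ : Rˣ) : R) * evC ρ Q)) := by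
    have w1 := cat_wf H hP hwi
    have w2 := ap_wf w1 hb2
    have w3 := cat_wf H w2 hvi
    have w5 := cat_wf H hvi hQ
    rw [cat_ev H (ap_wf w3 ha2) (cat_wf H hwi w5), ap_ev w3 ha2, cat_ev H w2 hvi, ap_ev w1 hb2, cat_ev H hP hwi,
      cat_ev H hwi w5, cat_ev H hvi hQ, hu2, ht2]
  have e4 : evC ρ (cat (ap (cat (ap (cat (cat P wi) vi) a) wi) b) (cat vi Q)) =
      evC ρ P * ((t⁻¹ : Rˣ) : R) * ((u⁻¹ : Rˣ) : R) * ρ a * ((t⁻¹ : Rˣ) : R) * ρ b * (((u⁻¹ : Rˣ) : R) * evC ρ Q) := by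
    have w0 := cat_wf H hP hwi
    have w1 := cat_wf H w0 hvi
    have w2 := ap_wf w1 ha2
    have w3 := cat_wf H w2 hwi
    rw [cat_ev H (ap_wf w3 hb2) (cat_wf H hvi hQ), ap_ev w3 hb2, cat_ev H w2 hwi, ap_ev w1 ha2, cat_ev H w0 hvi,
      cat_ev H hP hwi, cat_ev H hvi hQ, hu2, ht2]
  unfold jB
  simp only [evs]
  rw [e1, e2, e3, e4]
  have := H.bil a b ha (by omega) hb (by omega) u t hu ht
  calc _ = evC ρ P * (ρ a * u * ρ b * t + u * ρ b * t * ρ a
      + ((t⁻¹ : Rˣ) : R) * ρ b * ((u⁻¹ : Rˣ) : R) * ρ a * ((t⁻¹ : Rˣ) : R) * ((u⁻¹ : Rˣ) : R)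
      + ((t⁻¹ : Rˣ) : R) * ((u⁻¹ : Rˣ) : R) * ρ a * ((t⁻¹ : Rˣ) : R) * ρ b * ((u⁻¹ : Rˣ) : R)) * evC ρ Q := by
        noncomm_ring
    _ = 0 := by rw [this]; simp

theorem gd_ev (b : Bool) (l : List ℕ) (h : b = true → evs ρ l = 0) : evs ρ (gd b l) = 0 := by
  cases b
  · rfl
  · exact h rfl

theorem jR_ev (H : Ok ρ G) (tag a b P v w Q : ℕ) (ha : a < 16) (hb : b < 16) : evs ρ (jR tag a b P v w Q) = 0 := by
  unfold jR
  refine gd_ev _ _ fun hP => gd_ev _ _ fun hv => gd_ev _ _ fun hQ => gd_ev _ _ fun hi => ?_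
  have hP := wfb_WF hP
  have hv := wfb_WF hv
  have hQ := wfb_WF hQ
  obtain ⟨wi, hu⟩ := inw_spec H hv hi
  unfold jT
  cases Nat.beq tag 2
  · cases Nat.beq tag 3
    · refine gd_ev _ _ fun _ => gd_ev _ _ fun h8 => gd_ev _ _ fun h8' => gd_ev _ _ fun hw => gd_ev _ _ fun hwi => ?_
      have hw := wfb_WF hw
      obtain ⟨wwi, ht⟩ := inw_spec H hw hwi
      exact jB_ev H (Nat.le_of_ble_eq_true h8) ha (Nat.le_of_ble_eq_true h8') hb hP hv hw hQ wi wwi hu ht
    · exact gd_ev _ _ fun h8 => jL_ev H (Nat.le_of_ble_eq_true h8) ha hP hv hQ wi hu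
  · exact jG_ev H hP hv hQ wi hu

theorem recW_ev (H : Ok ρ G) (y : ℕ) : evs ρ (recW y) = 0 :=
  jR_ev H _ _ _ _ _ _ _ (Nat.mod_lt _ (by norm_num)) (Nat.mod_lt _ (by norm_num))

theorem sgl_ev (l : List ℕ) (acc : List (List ℕ)) : evss ρ (sgl l acc) = evs ρ l + evss ρ acc := by
  induction l with
  | nil => show evss ρ acc = 0 + evss ρ acc; rw [zero_add]
  | cons c l ih =>
    show evs ρ [c] + evss ρ (sgl l acc) = _
    rw [ih, evs, evs, evs, add_zero, add_assoc]

theorem unp_ev (H : Ok ρ G) (k : ℕ) : ∀ (N : ℕ) (acc : List (List ℕ)), evss ρ (unp k N acc) = evss ρ acc := by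
  induction k with
  | zero => intro N acc; rfl
  | succ k ih =>
    intro N acc
    have hs : unp (k + 1) N acc = Bool.rec (motive := fun _ => List (List ℕ))
      (sgl (recW (Nat.mod N 411376139330301510538742295639337626245683966408394965837152256))
        (unp k (Nat.shiftRight N 208) acc)) acc (Nat.beq N 0) := rfl
    rw [hs]
    cases Nat.beq N 0
    · show evss ρ (sgl (recW _) (unp k (Nat.shiftRight N 208) acc)) = _
      rw [sgl_ev, recW_ev H, ih, zero_add]
    · rfl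

theorem allY_ev (H : Ok ρ G) (acc : List (List ℕ)) (cert : List ℕ) : evss ρ (allY acc cert) = evss ρ acc := by
  induction cert with
  | nil => rfl
  | cons N l ih =>
    show evss ρ (unp 40 N (allY acc l)) = _
    rw [unp_ev H, ih]

theorem mrR_ev (h2 : ∀ r : R, r + r = 0) (a : List ℕ) : ∀ b : List ℕ, evs ρ (mrR a b) = evs ρ a + evs ρ b := by
  induction a with
  | nil => intro b; show evs ρ b = 0 + evs ρ b; rw [zero_add]
  | cons x a ih =>
    intro b
    induction b with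
    | nil => show evs ρ (x :: a) = evs ρ (x :: a) + 0; rw [add_zero]
    | cons y b ih2 =>
      show evs ρ (mrB x (mrR a) y b (mrR (x :: a) b)) = _
      unfold mrB
      cases hb : Nat.beq x y
      · cases hc : Nat.ble x y
        · show evC ρ y + evs ρ (mrR (x :: a) b) = _
          rw [ih2]
          simp only [evs]
          abel
        · show evC ρ x + evs ρ (mrR a (y :: b)) = _
          rw [ih]
          simp only [evs]
          abel
      · have hxy : x = y := Nat.eq_of_beq_eq_true hb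
        subst hxy
        show evs ρ (mrR a b) = _
        rw [ih]
        simp only [evs]
        have := h2 (evC ρ x)
        calc evs ρ a + evs ρ b = (evC ρ x + evC ρ x) + (evs ρ a + evs ρ b) := by rw [this, zero_add]
          _ = _ := by abel

theorem prR_ev (h2 : ∀ r : R, r + r = 0) (l : List (List ℕ)) :
    evss ρ (prR l none) = evss ρ l ∧ ∀ a, evss ρ (prR l (some a)) = evs ρ a + evss ρ l := by
  induction l with
  | nil =>
    refine ⟨rfl, fun a => ?_⟩
    show evss ρ [a] = _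
    rw [evss, evss]
    rfl
  | cons b l ih =>
    refine ⟨?_, fun a => ?_⟩
    · show evss ρ (prR l (some b)) = _
      rw [ih.2, evss]
    · show evs ρ (mrR a b) + evss ρ (prR l none) = _
      rw [ih.1, mrR_ev h2, evss, add_assoc]

theorem trR_ev (h2 : ∀ r : R, r + r = 0) (n : ℕ) : ∀ l : List (List ℕ), evss ρ (trR n l) = evss ρ l := by
  induction n with
  | zero => intro l; rfl
  | succ n ih =>
    intro l
    show evss ρ (trR n (prR l none)) = _
    rw [ih, (prR_ev h2 l).1]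

/-- SOUNDNESS -/
theorem chy_sound (H : Ok ρ G) (t : List (List ℕ)) (c : List ℕ) (hc : chy t c = true) : evT ρ t = 0 := by
  unfold chy at hc
  rw [Bool.and_eq_true] at hc
  have h1 := isE_ev (ρ := ρ) _ hc.2
  rw [trR_ev H.two, allY_ev H, sing_ev, encR_ev H t hc.1] at h1
  exact h1

/-- SOUNDNESS for equations -/
theorem chy_eq (H : Ok ρ G) (t s : List (List ℕ)) (c : List ℕ) (hc : chy (addP t s) c = true) :
    evT ρ t = evT ρ s := by
  have h := chy_sound H _ c hc
  rw [ev_add] at h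
  exact eq_of_two H.two h

end

end E4.RC
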