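import Pool.Agent.Lib.MP_8a95e3_al.SqT
import Pool.Agent.Lib.MP_8a95e3_al.Sec

/-!
# SqN1 : the normal closure `S` of a square acts with `[B,S,S] ≤ B'B²`
-/

open scoped commutatorElement

namespace E4

universe u

private theorem SqN1_X {G R : Type u} [Group G] [Ring R] {ρ : G →* R} (hc : Cub ρ) (g : G)
    {s : G} (h : s ∈ Subgroup.normalClosure {g ^ 2}) :
    X ρ s ∈ AddSubgroup.closure {y : R | ∃ a b : R, y = a * sqe ρ g * b} := by
  have hleft : ∀ r : R, ∀ y ∈ AddSubgroup.closure {y : R | ∃ a b : R, y = a * sqe ρ g * b},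
      r * y ∈ AddSubgroup.closure {y : R | ∃ a b : R, y = a * sqe ρ g * b} := by
    intro r y hy
    induction hy using AddSubgroup.closure_induction with
    | mem y hy =>
      obtain ⟨a, b, rfl⟩ := hy
      exact AddSubgroup.subset_closure ⟨r * a, b, by simp only [mul_assoc]⟩
    | zero => rw [mul_zero]; exact AddSubgroup.zero_mem _
    | add y z _ _ hy hz => rw [mul_add]; exact AddSubgroup.add_mem _ hy hz
    | neg y _ hy => rw [mul_neg]; exact AddSubgroup.neg_mem _ hy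
  have h2 : ∀ r : R, r + r = 0 := by
    intro r
    have : (2 : R) * r = r + r := two_mul r
    rw [← this, hc.two, zero_mul]
  unfold Subgroup.normalClosure at h
  induction h using Subgroup.closure_induction with
  | mem s hs =>
    rw [Group.mem_conjugatesOfSet_iff] at hs
    obtain ⟨a, ha, hconj⟩ := hs
    rw [Set.mem_singleton_iff] at ha
    subst ha
    obtain ⟨k, rfl⟩ := isConj_iff.1 hconj
    have e : X ρ (k * g ^ 2 * k⁻¹) = ρ k * sqe ρ g * ρ k⁻¹ := by
      unfold X sqe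
      rw [mul_add, add_mul, mul_one, ← map_mul ρ k k⁻¹, mul_inv_cancel, map_one, map_mul, map_mul, map_pow]
    rw [e]
    exact AddSubgroup.subset_closure ⟨_, _, rfl⟩
  | one =>
    have e : X ρ (1 : G) = 0 := by
      unfold X
      rw [map_one]
      exact h2 1
    rw [e]
    exact AddSubgroup.zero_mem _
  | mul a b _ _ ha hb =>
    have e : X ρ (a * b) = ρ a * X ρ b + X ρ a := by
      unfold X
      rw [map_mul, mul_add, mul_one]
      have e1 : ρ a * ρ b + ρ a + (ρ a + 1) = ρ a * ρ b + (ρ a + ρ a) + 1 := by abel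
      rw [e1, h2, add_zero]
    rw [e]
    exact AddSubgroup.add_mem _ (hleft _ _ hb) ha
  | inv a _ ha =>
    have e : X ρ a⁻¹ = ρ a⁻¹ * X ρ a := by
      unfold X
      rw [mul_add, mul_one, ← map_mul, inv_mul_cancel, map_one]
      exact add_comm _ _
    rw [e]
    exact hleft _ _ ha

/-- In a cubic representation, `X ρ s₁ * X ρ s₂ = 0` for `s₁, s₂` in the normal closure of `g²`. -/
theorem nc_sq {G R : Type u} [Group G] [Ring R] {ρ : G →* R} (hc : Cub ρ) (g : G)
    {s₁ s₂ : G} (h₁ : s₁ ∈ Subgroup.normalClosure {g ^ 2})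
    (h₂ : s₂ ∈ Subgroup.normalClosure {g ^ 2}) : X ρ s₁ * X ρ s₂ = 0 := by
  obtain ⟨R₁, _, ι, ρ₁, hi, hρ, hs⟩ := spn_red ρ
  have hc₁ : Cub ρ₁ := cub_of_inj ι hi hρ hc
  have hX : ∀ s, X ρ s = ι (X ρ₁ s) := by
    intro s
    unfold X
    rw [map_add, map_one, hρ]
  rw [hX, hX, ← map_mul]
  have key : ∀ y ∈ AddSubgroup.closure {y : R₁ | ∃ a b : R₁, y = a * sqe ρ₁ g * b},
      ∀ z ∈ AddSubgroup.closure {y : R₁ | ∃ a b : R₁, y = a * sqe ρ₁ g * b}, y * z = 0 := by
    intro y hy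
    induction hy using AddSubgroup.closure_induction with
    | mem y hy =>
      obtain ⟨a, b, rfl⟩ := hy
      intro z hz
      induction hz using AddSubgroup.closure_induction with
      | mem z hz =>
        obtain ⟨c, d, rfl⟩ := hz
        have h := sqe_mid_spn hc₁ hs g (b * c)
        have e : a * sqe ρ₁ g * b * (c * sqe ρ₁ g * d) = a * (sqe ρ₁ g * (b * c) * sqe ρ₁ g) * d := by
          simp only [mul_assoc]
        rw [e, h, mul_zero, zero_mul]
      | zero => rw [mul_zero]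
      | add z z' _ _ hz hz' => rw [mul_add, hz, hz', add_zero]
      | neg z _ hz => rw [mul_neg, hz, neg_zero]
    | zero => intro z _; rw [zero_mul]
    | add y y' _ _ hy hy' => intro z hz; rw [add_mul, hy z hz, hy' z hz, add_zero]
    | neg y _ hy => intro z hz; rw [neg_mul, hy z hz, neg_zero]
  rw [key _ (SqN1_X hc₁ g h₁) _ (SqN1_X hc₁ g h₂), map_zero]

/-- `[B,S,S] ≤ C`. -/
theorem sec_ss {G : Type u} [Group G] (h4 : Exp4 G) (B C : Subgroup G) [B.Normal] [C.Normal]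
    (hBB : ⁅B, B⁆ ≤ C) (hB2 : ∀ b ∈ B, b ^ 2 ∈ C) (g : G) :
    itc B (Subgroup.normalClosure {g ^ 2}) 2 ≤ C := by
  obtain ⟨R, _, ρ, hc, _, hl⟩ := sec_exists h4 B C hBB hB2
  apply itc_le_of_lists B C _ hBB 2
  intro l hlen hmem b hb
  apply hl l _ b hb
  obtain ⟨s₁, s₂, rfl⟩ := List.length_eq_two.1 hlen
  have h1 : s₁ ∈ Subgroup.normalClosure {g ^ 2} := hmem s₁ (by simp)
  have h2 : s₂ ∈ Subgroup.normalClosure {g ^ 2} := hmem s₂ (by simp)
  have h3 := nc_sq hc g h1 h2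
  simp only [List.map_cons, List.map_nil, List.prod_cons, List.prod_nil, mul_one]
  exact h3

/-- For an abelian normal subgroup `B`: `[B,S,S,S,S] = 1`. -/
theorem ab_ssss {G : Type u} [Group G] (h4 : Exp4 G) (B : Subgroup G) [B.Normal]
    (hBB : ⁅B, B⁆ = ⊥) (g : G) :
    itc B (Subgroup.normalClosure {g ^ 2}) 4 = ⊥ := by
  have hcomm : ∀ a ∈ B, ∀ b ∈ B, a * b = b * a := by
    intro a ha b hb
    have h1 : ⁅a, b⁆ ∈ ⁅B, B⁆ := Subgroup.commutator_mem_commutator ha hb
    rw [hBB, Subgroup.mem_bot] at h1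
    exact commutatorElement_eq_one_iff_mul_comm.1 h1
  let B₂ : Subgroup G :=
    { carrier := {y | ∃ c ∈ B, y = c ^ 2}
      mul_mem' := by
        rintro _ _ ⟨c, hc, rfl⟩ ⟨d, hd, rfl⟩
        refine ⟨c * d, B.mul_mem hc hd, ?_⟩
        have h1 : Commute c d := hcomm c hc d hd
        exact (h1.mul_pow 2).symm
      one_mem' := ⟨1, B.one_mem, (one_pow 2).symm⟩
      inv_mem' := by
        rintro _ ⟨c, hc, rfl⟩
        exact ⟨c⁻¹, B.inv_mem hc, (inv_pow c 2).symm⟩ }
  have hB₂ : B₂ ≤ B := by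
    rintro _ ⟨c, hc, rfl⟩
    exact B.pow_mem hc 2
  have : B₂.Normal := by
    constructor
    rintro _ ⟨c, hc, rfl⟩ k
    refine ⟨k * c * k⁻¹, Subgroup.Normal.conj_mem inferInstance c hc k, ?_⟩
    exact (conj_pow).symm
  have h1 : itc B (Subgroup.normalClosure {g ^ 2}) 2 ≤ B₂ :=
    sec_ss h4 B B₂ (by rw [hBB]; exact bot_le) (fun b hb => ⟨b, hb, rfl⟩) g
  have h2 : itc B₂ (Subgroup.normalClosure {g ^ 2}) 2 ≤ ⊥ := by
    apply sec_ss h4 B₂ ⊥
    · have := Subgroup.commutator_mono hB₂ hB₂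
      rwa [hBB] at this
    · rintro _ ⟨c, hc, rfl⟩
      rw [Subgroup.mem_bot, ← pow_mul]
      exact h4 c
  have h3 := itc_add B (Subgroup.normalClosure {g ^ 2}) 2 2
  rw [eq_bot_iff]
  calc itc B (Subgroup.normalClosure {g ^ 2}) 4
      = itc (itc B (Subgroup.normalClosure {g ^ 2}) 2) (Subgroup.normalClosure {g ^ 2}) 2 := h3
    _ ≤ itc B₂ (Subgroup.normalClosure {g ^ 2}) 2 := itc_mono h1 2
    _ ≤ ⊥ := h2

end E4
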