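import Pool.Agent.Lib.MP_8a95e3_al.Quo

/-!
# SqT : squares in cubic representations

`T_g = sqe ρ g = ρ g ^ 2 + 1`.
-/

namespace E4

section

variable {H R : Type*} [Group H] [Ring R] {ρ : H →* R}

private theorem SqT_self (h2 : (2 : R) = 0) (a : R) : a + a = 0 := by
  rw [← two_mul, h2, zero_mul]

private theorem SqT_canc (h2 : (2 : R) = 0) (a b : R) : a + (a + b) = b := by
  rw [← add_assoc, SqT_self h2, zero_add]

private theorem SqT_sub (h2 : (2 : R) = 0) (a b : R) : a - b = a + b := by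
  rw [sub_eq_iff_eq_add, add_assoc, SqT_self h2, add_zero]

private theorem SqT_eq (h2 : (2 : R) = 0) {a b : R} (h : a + b = 0) : a = b := by
  rw [← sub_eq_zero, SqT_sub h2, h]

private theorem SqT_X2 (h2 : (2 : R) = 0) (g : H) : sqe ρ g = X ρ g ^ 2 := by
  unfold sqe X
  rw [pow_two, pow_two, mul_add, add_mul, mul_one, one_mul]
  simp only [add_comm, add_left_comm, add_assoc, SqT_self h2, SqT_canc h2, add_zero, zero_add]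

/-- `w² + w + w⁻¹ + 1 = 0`. -/
private theorem SqT_I (hc : Cub ρ) (w : H) : ρ (w * w) + ρ w + ρ w⁻¹ + 1 = 0 := by
  have h2 := hc.two
  have h1 : (ρ w + 1) ^ 3 = 0 := hc.cube w
  have h3 : ρ w * (ρ w * ρ w) + (ρ w * ρ w + (ρ w + 1)) = 0 := by
    rw [← h1, pow_succ, pow_two]
    simp only [mul_add, add_mul, mul_one, one_mul, mul_assoc]
    simp only [add_comm, add_left_comm, add_assoc, SqT_self h2, SqT_canc h2, add_zero, zero_add]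
  have h4 := congrArg (fun r => ρ w⁻¹ * r) h3
  have e1 : ρ w⁻¹ * ρ w = 1 := by rw [← map_mul, inv_mul_cancel, map_one]
  have h5 : ρ w⁻¹ * (ρ w * (ρ w * ρ w) + (ρ w * ρ w + (ρ w + 1))) =
      ρ w⁻¹ * ρ w * (ρ w * ρ w) + (ρ w⁻¹ * ρ w * ρ w + (ρ w⁻¹ * ρ w + ρ w⁻¹)) := by
    simp only [mul_add, mul_one, mul_assoc]
  rw [mul_zero] at h4
  rw [h5, e1, one_mul, one_mul] at h4
  rw [← h4, map_mul]
  simp only [add_comm, add_left_comm, add_assoc, SqT_self h2, SqT_canc h2, add_zero, zero_add]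

/-- `T_g = ρ g + ρ g⁻¹`.  PROOF: `(g+1)^3 = g^3+g^2+g+1 = 0` (char 2) times `g⁻¹`: `g^2 + g + 1 + g⁻¹ = 0`. -/
theorem sqe_eq (hc : Cub ρ) (g : H) : sqe ρ g = ρ g + ρ g⁻¹ := by
  have h2 := hc.two
  have h1 := SqT_I hc g
  unfold sqe
  refine SqT_eq h2 ?_
  rw [← h1, map_mul, pow_two]
  simp only [add_comm, add_left_comm, add_assoc, SqT_self h2, SqT_canc h2, add_zero, zero_add]

/-- `T_g^2 = g^4 + 1 = 0`. -/
theorem sqe_sq (hc : Cub ρ) (g : H) : sqe ρ g * sqe ρ g = 0 := by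
  rw [SqT_X2 hc.two, ← pow_add, show 2 + 2 = 3 + 1 from rfl, pow_succ, hc.cube, zero_mul]

/-- `T_g T_h`-conjugation: `ρ h⁻¹ * T_g * ρ h = T_{h⁻¹ g h}`. -/
theorem sqe_conj (g h : H) : ρ h⁻¹ * sqe ρ g * ρ h = sqe ρ (h⁻¹ * g * h) := by
  unfold sqe
  rw [mul_add, add_mul, mul_one, ← map_mul ρ h⁻¹ h, inv_mul_cancel, map_one, ← map_pow, ← map_pow, ← map_mul, ← map_mul]
  congr 2
  rw [pow_two, pow_two]
  group

/-- **`T_g h T_g = 0`.**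

PROOF (certificate).  For every word `w`, `I(w) := ρ(w)² + ρ(w) + ρ(w⁻¹) + 1 = 0` (see `sqe_eq`).  Write `G = g⁻¹`, `H = h⁻¹` (capital = inverse), words for products.  Then, in the group algebra over `F₂` of the FREE group on `g,h`,
`(g + G) h (g + G) = ghg + ghG + Ghg + GhG = Σ u·(w² + w + w⁻¹ + 1)` over the following 22 pairs `(u ; w)`:
`(H;g) (HG;g) (GhG;g) (GGhG;G) (H;h) (gH;h) (Hg;h) (H;gh) (1;gH) (Hgg;Gh) (g;GH) (HG;ggh) (G;ggH) (GG;ggH) (HG;ghG) (G;gHg) (HH;hgH) (gHgH;hgH) (Gh;Hgh) (Hghh;Hgh) (GG;gggH) (HGG;gghG)`.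
(Checked by machine: after free reduction, the 88 words `u w², u w, u w⁻¹, u` cancel in pairs except the four words `ghg, ghG, Ghg, GhG`.)
Suggestion: introduce for each pair `have := congrArg (ρ u * ·) (I w)`, rewrite every product of `ρ`'s as `ρ` of a normalized word (`← map_mul`, `group`), and add up; in characteristic two
use `a + a = 0`.  E.g. name the finitely many reduced words as atoms (`generalize`) and finish with `linear_combination (exp := 1)` over the commutative additive group, or write each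
`I` relation as `ρ w₁ = ρ w₂ + ρ w₃ + ρ w₄` ... and `abel`-type reasoning (`linear_combination` works for additive identities in noncommutative rings? if not, map to `AddCommGroup` module over `ZMod 2` / use `simp only`, `abel_nf`). -/
theorem sqe_mid (hc : Cub ρ) (g h : H) : sqe ρ g * ρ h * sqe ρ g = 0 := by
  have h2 := hc.two
  have I : ∀ u w : H, ρ (u * (w * w)) + ρ (u * w) + ρ (u * w⁻¹) + ρ u = 0 := by
    intro u w
    have h1 := congrArg (fun r => ρ u * r) (SqT_I hc w)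
    have h3 : ρ u * (ρ (w * w) + ρ w + ρ w⁻¹ + 1) = ρ (u * (w * w)) + ρ (u * w) + ρ (u * w⁻¹) + ρ u := by
      simp only [mul_add, mul_one, ← map_mul]
    rw [← h3]
    exact h1.trans (mul_zero _)
  rw [sqe_eq hc]
  have J0 : ρ (h⁻¹ * (g * g)) + ρ (h⁻¹ * g) + ρ (h⁻¹ * g⁻¹) + ρ h⁻¹ = 0 := by
    have h0 := I (h⁻¹) (g)
    try simp only [mul_assoc, mul_inv_rev, inv_inv, mul_inv_cancel_left, inv_mul_cancel_left, mul_inv_cancel,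
      inv_mul_cancel, mul_one, one_mul] at h0
    exact h0
  have J1 : ρ (h⁻¹ * g) + ρ h⁻¹ + ρ (h⁻¹ * (g⁻¹ * g⁻¹)) + ρ (h⁻¹ * g⁻¹) = 0 := by
    have h0 := I (h⁻¹ * g⁻¹) (g)
    try simp only [mul_assoc, mul_inv_rev, inv_inv, mul_inv_cancel_left, inv_mul_cancel_left, mul_inv_cancel,
      inv_mul_cancel, mul_one, one_mul] at h0
    exact h0
  have J2 : ρ (g⁻¹ * (h * g)) + ρ (g⁻¹ * h) + ρ (g⁻¹ * (h * (g⁻¹ * g⁻¹))) + ρ (g⁻¹ * (h * g⁻¹)) = 0 := by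
    have h0 := I (g⁻¹ * h * g⁻¹) (g)
    try simp only [mul_assoc, mul_inv_rev, inv_inv, mul_inv_cancel_left, inv_mul_cancel_left, mul_inv_cancel,
      inv_mul_cancel, mul_one, one_mul] at h0
    exact h0
  have J3 : ρ (g⁻¹ * (g⁻¹ * (h * (g⁻¹ * (g⁻¹ * g⁻¹))))) + ρ (g⁻¹ * (g⁻¹ * (h * (g⁻¹ * g⁻¹)))) + ρ (g⁻¹ * (g⁻¹ * h)) + ρ (g⁻¹ * (g⁻¹ * (h * g⁻¹))) = 0 := by
    have h0 := I (g⁻¹ * g⁻¹ * h * g⁻¹) (g⁻¹)
    try simp only [mul_assoc, mul_inv_rev, inv_inv, mul_inv_cancel_left, inv_mul_cancel_left, mul_inv_cancel,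
      inv_mul_cancel, mul_one, one_mul] at h0
    exact h0
  have J4 : ρ h + ρ 1 + ρ (h⁻¹ * h⁻¹) + ρ h⁻¹ = 0 := by
    have h0 := I (h⁻¹) (h)
    try simp only [mul_assoc, mul_inv_rev, inv_inv, mul_inv_cancel_left, inv_mul_cancel_left, mul_inv_cancel,
      inv_mul_cancel, mul_one, one_mul] at h0
    exact h0
  have J5 : ρ (g * h) + ρ g + ρ (g * (h⁻¹ * h⁻¹)) + ρ (g * h⁻¹) = 0 := by
    have h0 := I (g * h⁻¹) (h)
    try simp only [mul_assoc, mul_inv_rev, inv_inv, mul_inv_cancel_left, inv_mul_cancel_left, mul_inv_cancel,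
      inv_mul_cancel, mul_one, one_mul] at h0
    exact h0
  have J6 : ρ (h⁻¹ * (g * (h * h))) + ρ (h⁻¹ * (g * h)) + ρ (h⁻¹ * (g * h⁻¹)) + ρ (h⁻¹ * g) = 0 := by
    have h0 := I (h⁻¹ * g) (h)
    try simp only [mul_assoc, mul_inv_rev, inv_inv, mul_inv_cancel_left, inv_mul_cancel_left, mul_inv_cancel,
      inv_mul_cancel, mul_one, one_mul] at h0
    exact h0
  have J7 : ρ (h⁻¹ * (g * (h * (g * h)))) + ρ (h⁻¹ * (g * h)) + ρ (h⁻¹ * (h⁻¹ * g⁻¹)) + ρ h⁻¹ = 0 := by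
    have h0 := I (h⁻¹) (g * h)
    try simp only [mul_assoc, mul_inv_rev, inv_inv, mul_inv_cancel_left, inv_mul_cancel_left, mul_inv_cancel,
      inv_mul_cancel, mul_one, one_mul] at h0
    exact h0
  have J8 : ρ (g * (h⁻¹ * (g * h⁻¹))) + ρ (g * h⁻¹) + ρ (h * g⁻¹) + ρ 1 = 0 := by
    have h0 := I (1) (g * h⁻¹)
    try simp only [mul_assoc, mul_inv_rev, inv_inv, mul_inv_cancel_left, inv_mul_cancel_left, mul_inv_cancel,
      inv_mul_cancel, mul_one, one_mul] at h0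
    exact h0
  have J9 : ρ (h⁻¹ * (g * (h * (g⁻¹ * h)))) + ρ (h⁻¹ * (g * h)) + ρ (h⁻¹ * (g * (g * (h⁻¹ * g)))) + ρ (h⁻¹ * (g * g)) = 0 := by
    have h0 := I (h⁻¹ * g * g) (g⁻¹ * h)
    try simp only [mul_assoc, mul_inv_rev, inv_inv, mul_inv_cancel_left, inv_mul_cancel_left, mul_inv_cancel,
      inv_mul_cancel, mul_one, one_mul] at h0
    exact h0
  have J10 : ρ (h⁻¹ * (g⁻¹ * h⁻¹)) + ρ h⁻¹ + ρ (g * (h * g)) + ρ g = 0 := by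
    have h0 := I (g) (g⁻¹ * h⁻¹)
    try simp only [mul_assoc, mul_inv_rev, inv_inv, mul_inv_cancel_left, inv_mul_cancel_left, mul_inv_cancel,
      inv_mul_cancel, mul_one, one_mul] at h0
    exact h0
  have J11 : ρ (h⁻¹ * (g * (h * (g * (g * h))))) + ρ (h⁻¹ * (g * h)) + ρ (h⁻¹ * (g⁻¹ * (h⁻¹ * (g⁻¹ * g⁻¹)))) + ρ (h⁻¹ * g⁻¹) = 0 := by
    have h0 := I (h⁻¹ * g⁻¹) (g * g * h)
    try simp only [mul_assoc, mul_inv_rev, inv_inv, mul_inv_cancel_left, inv_mul_cancel_left, mul_inv_cancel,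
      inv_mul_cancel, mul_one, one_mul] at h0
    exact h0
  have J12 : ρ (g * (h⁻¹ * (g * (g * h⁻¹)))) + ρ (g * h⁻¹) + ρ (g⁻¹ * (h * (g⁻¹ * g⁻¹))) + ρ g⁻¹ = 0 := by
    have h0 := I (g⁻¹) (g * g * h⁻¹)
    try simp only [mul_assoc, mul_inv_rev, inv_inv, mul_inv_cancel_left, inv_mul_cancel_left, mul_inv_cancel,
      inv_mul_cancel, mul_one, one_mul] at h0
    exact h0
  have J13 : ρ (h⁻¹ * (g * (g * h⁻¹))) + ρ h⁻¹ + ρ (g⁻¹ * (g⁻¹ * (h * (g⁻¹ * g⁻¹)))) + ρ (g⁻¹ * g⁻¹) = 0 := by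
    have h0 := I (g⁻¹ * g⁻¹) (g * g * h⁻¹)
    try simp only [mul_assoc, mul_inv_rev, inv_inv, mul_inv_cancel_left, inv_mul_cancel_left, mul_inv_cancel,
      inv_mul_cancel, mul_one, one_mul] at h0
    exact h0
  have J14 : ρ (h * g⁻¹) + ρ g⁻¹ + ρ (h⁻¹ * (h⁻¹ * g⁻¹)) + ρ (h⁻¹ * g⁻¹) = 0 := by
    have h0 := I (h⁻¹ * g⁻¹) (g * h * g⁻¹)
    try simp only [mul_assoc, mul_inv_rev, inv_inv, mul_inv_cancel_left, inv_mul_cancel_left, mul_inv_cancel,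
      inv_mul_cancel, mul_one, one_mul] at h0
    exact h0
  have J15 : ρ (h⁻¹ * (g * (g * (h⁻¹ * g)))) + ρ (h⁻¹ * g) + ρ (g⁻¹ * (g⁻¹ * (h * g⁻¹))) + ρ g⁻¹ = 0 := by
    have h0 := I (g⁻¹) (g * h⁻¹ * g)
    try simp only [mul_assoc, mul_inv_rev, inv_inv, mul_inv_cancel_left, inv_mul_cancel_left, mul_inv_cancel,
      inv_mul_cancel, mul_one, one_mul] at h0
    exact h0
  have J16 : ρ (h⁻¹ * (g * (g * h⁻¹))) + ρ (h⁻¹ * (g * h⁻¹)) + ρ (h⁻¹ * (g⁻¹ * h⁻¹)) + ρ (h⁻¹ * h⁻¹) = 0 := by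
    have h0 := I (h⁻¹ * h⁻¹) (h * g * h⁻¹)
    try simp only [mul_assoc, mul_inv_rev, inv_inv, mul_inv_cancel_left, inv_mul_cancel_left, mul_inv_cancel,
      inv_mul_cancel, mul_one, one_mul] at h0
    exact h0
  have J17 : ρ (g * (h⁻¹ * (g * (g * (g * h⁻¹))))) + ρ (g * (h⁻¹ * (g * (g * h⁻¹)))) + ρ (g * (h⁻¹ * h⁻¹)) + ρ (g * (h⁻¹ * (g * h⁻¹))) = 0 := by
    have h0 := I (g * h⁻¹ * g * h⁻¹) (h * g * h⁻¹)
    try simp only [mul_assoc, mul_inv_rev, inv_inv, mul_inv_cancel_left, inv_mul_cancel_left, mul_inv_cancel,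
      inv_mul_cancel, mul_one, one_mul] at h0
    exact h0
  have J18 : ρ (g * h) + ρ h + ρ (g⁻¹ * (g⁻¹ * h)) + ρ (g⁻¹ * h) = 0 := by
    have h0 := I (g⁻¹ * h) (h⁻¹ * g * h)
    try simp only [mul_assoc, mul_inv_rev, inv_inv, mul_inv_cancel_left, inv_mul_cancel_left, mul_inv_cancel,
      inv_mul_cancel, mul_one, one_mul] at h0
    exact h0
  have J19 : ρ (h⁻¹ * (g * (h * (g * (g * h))))) + ρ (h⁻¹ * (g * (h * (g * h)))) + ρ (h⁻¹ * (g * (h * (g⁻¹ * h)))) + ρ (h⁻¹ * (g * (h * h))) = 0 := by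
    have h0 := I (h⁻¹ * g * h * h) (h⁻¹ * g * h)
    try simp only [mul_assoc, mul_inv_rev, inv_inv, mul_inv_cancel_left, inv_mul_cancel_left, mul_inv_cancel,
      inv_mul_cancel, mul_one, one_mul] at h0
    exact h0
  have J20 : ρ (g * (h⁻¹ * (g * (g * (g * h⁻¹))))) + ρ (g * h⁻¹) + ρ (g⁻¹ * (g⁻¹ * (h * (g⁻¹ * (g⁻¹ * g⁻¹))))) + ρ (g⁻¹ * g⁻¹) = 0 := by
    have h0 := I (g⁻¹ * g⁻¹) (g * g * g * h⁻¹)
    try simp only [mul_assoc, mul_inv_rev, inv_inv, mul_inv_cancel_left, inv_mul_cancel_left, mul_inv_cancel,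
      inv_mul_cancel, mul_one, one_mul] at h0
    exact h0
  have J21 : ρ (g * (h * g⁻¹)) + ρ g⁻¹ + ρ (h⁻¹ * (g⁻¹ * (h⁻¹ * (g⁻¹ * g⁻¹)))) + ρ (h⁻¹ * (g⁻¹ * g⁻¹)) = 0 := by
    have h0 := I (h⁻¹ * g⁻¹ * g⁻¹) (g * g * h * g⁻¹)
    try simp only [mul_assoc, mul_inv_rev, inv_inv, mul_inv_cancel_left, inv_mul_cancel_left, mul_inv_cancel,
      inv_mul_cancel, mul_one, one_mul] at h0
    exact h0
  have e : (ρ g + ρ g⁻¹) * ρ h * (ρ g + ρ g⁻¹) = ρ (g * (h * g)) + ρ (g * (h * g⁻¹)) + ρ (g⁻¹ * (h * g)) + ρ (g⁻¹ * (h * g⁻¹)) := by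
    simp only [add_mul, mul_add, ← map_mul, mul_assoc]
    simp only [add_comm, add_left_comm, add_assoc]
  rw [e]
  linear_combination (norm := abel) J0 + J1 + J2 + J3 + J4 + J5 + J6 + J7 + J8 + J9 + J10 + J11 + J12 + J13 + J14 + J15 + J16 + J17 + J18 + J19 + J20 + J21
    - SqT_self h2 (ρ (h⁻¹ * (g * g))) - SqT_self h2 (ρ (h⁻¹ * g)) - SqT_self h2 (ρ (h⁻¹ * g)) - SqT_self h2 (ρ (h⁻¹ * g⁻¹)) - SqT_self h2 (ρ (h⁻¹ * g⁻¹)) - SqT_self h2 (ρ h⁻¹) - SqT_self h2 (ρ h⁻¹) - SqT_self h2 (ρ h⁻¹) - SqT_self h2 (ρ (h⁻¹ * (g⁻¹ * g⁻¹))) - SqT_self h2 (ρ (g⁻¹ * h)) - SqT_self h2 (ρ (g⁻¹ * (h * (g⁻¹ * g⁻¹)))) - SqT_self h2 (ρ (g⁻¹ * (g⁻¹ * (h * (g⁻¹ * (g⁻¹ * g⁻¹)))))) - SqT_self h2 (ρ (g⁻¹ * (g⁻¹ * (h * (g⁻¹ * g⁻¹))))) - SqT_self h2 (ρ (g⁻¹ * (g⁻¹ * h))) - SqT_self h2 (ρ (g⁻¹ * (g⁻¹ * (h * g⁻¹)))) - SqT_self h2 (ρ h) - SqT_self h2 (ρ 1) - SqT_self h2 (ρ (h⁻¹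 * h⁻¹)) - SqT_self h2 (ρ (g * h)) - SqT_self h2 (ρ g) - SqT_self h2 (ρ (g * (h⁻¹ * h⁻¹))) - SqT_self h2 (ρ (g * h⁻¹)) - SqT_self h2 (ρ (g * h⁻¹)) - SqT_self h2 (ρ (h⁻¹ * (g * (h * h)))) - SqT_self h2 (ρ (h⁻¹ * (g * h))) - SqT_self h2 (ρ (h⁻¹ * (g * h))) - SqT_self h2 (ρ (h⁻¹ * (g * h⁻¹))) - SqT_self h2 (ρ (h⁻¹ * (g * (h * (g * h))))) - SqT_self h2 (ρ (h⁻¹ * (h⁻¹ * g⁻¹))) - SqT_self h2 (ρ (g * (h⁻¹ * (g * h⁻¹)))) - SqT_self h2 (ρ (h * g⁻¹)) - SqT_self h2 (ρ (h⁻¹ * (g * (h * (g⁻¹ * h))))) - SqT_self h2 (ρ (h⁻¹ * (g * (g * (h⁻¹ * g))))) - SqT_self h2 (ρ (h⁻¹ * (g⁻¹ * h⁻¹))) - SqT_self h2 (ρ (h⁻¹ * (g * (h * (g * (g * h)))))) - SqT_self h2 (ρ (h⁻¹ * (g⁻¹ * (h⁻¹ * (g⁻¹ * g⁻¹))))) - SqT_self h2 (ρ (g * (h⁻¹ * (g * (g * h⁻¹))))) - SqT_self h2 (ρ g⁻¹) - SqT_self h2 (ρ g⁻¹) - SqT_self h2 (ρ (h⁻¹ * (g * (g * h⁻¹)))) - SqT_self h2 (ρ (g⁻¹ * g⁻¹)) - SqT_self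 h2 (ρ (g * (h⁻¹ * (g * (g * (g * h⁻¹))))))


/-- `T_{h⁻² g h²} = T_g + [T_g, T_h]`. PROOF: `ρ h ^ 2 = 1 + T_h`, `ρ h⁻² = ρ h^2` (`ρ h ^ 4 = 1`), so the left side is `(1+T_h) T_g (1+T_h) = T_g + T_hT_g + T_gT_h + T_hT_gT_h`
and the last term is zero: `T_h * T_g * T_h = T_h * (ρ g ^2) * T_h + T_h * T_h = 0` by `sqe_mid` and `sqe_sq`. -/
theorem sqe_conj_sq (hc : Cub ρ) (g h : H) :
    sqe ρ ((h ^ 2)⁻¹ * g * h ^ 2) = sqe ρ g + br (sqe ρ g) (sqe ρ h) := by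
  have h2 := hc.two
  have e1 : ρ (h ^ 2) = sqe ρ h + 1 := by
    unfold sqe
    rw [map_pow, add_assoc, SqT_self h2, add_zero]
  have e2 : ρ (h ^ 2) * ρ (h ^ 2) = 1 := by
    rw [e1, mul_add, add_mul, mul_one, one_mul, sqe_sq hc, zero_add, ← add_assoc, SqT_self h2, zero_add]
  have e3 : ρ (h ^ 2)⁻¹ = sqe ρ h + 1 := by
    calc ρ (h ^ 2)⁻¹ = ρ (h ^ 2)⁻¹ * (ρ (h ^ 2) * ρ (h ^ 2)) := by rw [e2, mul_one]
      _ = sqe ρ h + 1 := by rw [← mul_assoc, ← map_mul, inv_mul_cancel, map_one, one_mul, e1]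
  have e4 : sqe ρ h * sqe ρ g * sqe ρ h = 0 := by
    have e5 : sqe ρ g = ρ (g ^ 2) + 1 := by
      unfold sqe
      rw [map_pow]
    rw [e5, mul_add, add_mul, mul_one, sqe_mid hc, sqe_sq hc, add_zero]
  rw [← sqe_conj, e1, e3]
  unfold br
  have e6 : (sqe ρ h + 1) * sqe ρ g * (sqe ρ h + 1) = sqe ρ h * sqe ρ g * sqe ρ h + sqe ρ h * sqe ρ g + sqe ρ g * sqe ρ h +
      sqe ρ g := by
    simp only [mul_add, add_mul, mul_one, one_mul]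
    simp only [add_comm, add_left_comm, add_assoc]
  rw [e6, e4, zero_add]
  simp only [add_comm, add_left_comm]

/-- If `R` is spanned by `ρ(H)`, then `T_g r T_g = 0` for every `r : R`. PROOF: closure induction on `r`. -/
theorem sqe_mid_spn (hc : Cub ρ) (hs : Spn ρ) (g : H) (r : R) : sqe ρ g * r * sqe ρ g = 0 := by
  have hr : r ∈ AddSubgroup.closure (Set.range ρ) := by
    have h1 : AddSubgroup.closure (Set.range ρ) = ⊤ := hs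
    rw [h1]
    exact AddSubgroup.mem_top r
  induction hr using AddSubgroup.closure_induction with
  | mem x hx =>
    obtain ⟨h, rfl⟩ := hx
    exact sqe_mid hc g h
  | zero => rw [mul_zero, zero_mul]
  | add x y _ _ hx hy => rw [mul_add, add_mul, hx, hy, add_zero]
  | neg x _ hx => rw [mul_neg, neg_mul, hx, neg_zero]

end

end E4
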