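import Pool.Agent.Lib.MP_8a95e3_al.KDer

/-!
# SymV : basic properties of values of symbols and expressions
-/

namespace E4

/-- renaming of letters -/
def Tl.ren (f : ℕ → ℕ) : Tl → Tl
  | Tl.one i => Tl.one (f i)
  | Tl.two i j => Tl.two (f i) (f j)

/-- renaming of letters -/
def Sm.ren (f : ℕ → ℕ) (z : Sm) : Sm := ⟨z.ps.map (fun ij => (f ij.1, f ij.2)), z.tl.ren f⟩

private theorem SymV_pl_nil : pletters [] = 0 := rfl

private theorem SymV_pl_cons (ij : ℕ × ℕ) (ps : List (ℕ × ℕ)) :
    pletters (ij :: ps) = {ij.1, ij.2} + pletters ps := by
  unfold pletters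
  rw [List.map_cons, List.sum_cons]

private theorem SymV_pl_map (f : ℕ → ℕ) (ps : List (ℕ × ℕ)) :
    pletters (ps.map (fun ij => (f ij.1, f ij.2))) = (pletters ps).map f := by
  induction ps with
  | nil => simp [SymV_pl_nil]
  | cons ij ps ih =>
    rw [List.map_cons, SymV_pl_cons, SymV_pl_cons, Multiset.map_add, ih]
    rfl

theorem ren_lets (f : ℕ → ℕ) (z : Sm) : (z.ren f).lets = z.lets.map f := by
  rcases z with ⟨ps, tl⟩
  unfold Sm.ren Sm.lets
  rw [Multiset.map_add, SymV_pl_map]
  congr 1
  cases tl with
  | one i => rfl
  | two i j => rfl

section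

variable {L Z E : Type} [AddCommGroup L] [CommRing Z] [AddCommGroup E] [Module Z E]
variable (K : KAlg L Z E)

theorem ren_val (f : ℕ → ℕ) (z : Sm) (p : ℕ → L) :
    (z.ren f).val K p = z.val K (p ∘ f) := by
  rcases z with ⟨ps, tl⟩
  have h1 : pval K p (ps.map (fun ij => (f ij.1, f ij.2))) = pval K (p ∘ f) ps := by
    unfold pval
    rw [List.map_map]
    rfl
  have h2 : (tl.ren f).val K p = tl.val K (p ∘ f) := by
    cases tl with
    | one i => rfl
    | two i j => rfl
  show pval K p (ps.map (fun ij => (f ij.1, f ij.2))) • K.l ((tl.ren f).val K p) =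
    pval K (p ∘ f) ps • K.l (tl.val K (p ∘ f))
  rw [h1, h2]

theorem evx_ren (f : ℕ → ℕ) (s : List Sm) (p : ℕ → L) :
    evx K p (s.map (Sm.ren f)) = evx K (p ∘ f) s := by
  unfold evx
  rw [List.map_map]
  congr 1
  refine List.map_congr_left fun z _ => ?_
  exact ren_val K f z p

theorem evx_append (s s' : List Sm) (p : ℕ → L) : evx K p (s ++ s') = evx K p s + evx K p s' := by
  unfold evx
  rw [List.map_append, List.sum_append]

/-- the value depends only on the letters -/
theorem val_congr (z : Sm) (p p' : ℕ → L) (h : ∀ i ∈ z.lets, p i = p' i) :
    z.val K p = z.val K p' := by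
  rcases z with ⟨ps, tl⟩
  have h1 : pval K p ps = pval K p' ps := by
    have h2 : ∀ i ∈ pletters ps, p i = p' i := fun i hi => h i (Multiset.mem_add.2 (Or.inl hi))
    clear h
    induction ps with
    | nil => rfl
    | cons ij ps ih =>
      have h3 : ∀ i ∈ pletters ps, p i = p' i := fun i hi => h2 i (by
        rw [SymV_pl_cons]
        exact Multiset.mem_add.2 (Or.inr hi))
      have h4 : p ij.1 = p' ij.1 := h2 _ (by
        rw [SymV_pl_cons]
        exact Multiset.mem_add.2 (Or.inl (by simp)))
      have h5 : p ij.2 = p' ij.2 := h2 _ (by
        rw [SymV_pl_cons]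
        exact Multiset.mem_add.2 (Or.inl (by simp)))
      have h6 := ih h3
      unfold pval at h6 ⊢
      rw [List.map_cons, List.prod_cons, List.map_cons, List.prod_cons, h4, h5, h6]
  have h2 : tl.val K p = tl.val K p' := by
    have h3 : ∀ i ∈ tl.lets, p i = p' i := fun i hi => h i (Multiset.mem_add.2 (Or.inr hi))
    cases tl with
    | one i => exact h3 i (by simp [Tl.lets])
    | two i j =>
      show K.b (p i) (p j) = K.b (p' i) (p' j)
      rw [h3 i (by simp [Tl.lets]), h3 j (by simp [Tl.lets])]
  show pval K p ps • K.l (tl.val K p) = pval K p' ps • K.l (tl.val K p')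
  rw [h1, h2]

private theorem SymV_upd (z : Sm) (i : ℕ) (hi : z.lets.count i = 0) (p : ℕ → L) (u : L) :
    z.val K (Function.update p i u) = z.val K p := by
  refine val_congr K z _ _ fun j hj => ?_
  refine Function.update_of_ne ?_ _ _
  intro e
  rw [e] at hj
  exact Multiset.count_eq_zero.1 hi hj

theorem evx_congr {n : ℕ} (s : List Sm) (hs : Good n s) (p p' : ℕ → L) (h : ∀ i < n, p i = p' i) :
    evx K p s = evx K p' s := by
  unfold evx
  congr 1
  refine List.map_congr_left fun z hz => ?_
  refine val_congr K z p p' fun i hi => h i ?_
  rw [hs z hz] at hi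
  exact Multiset.mem_range.1 hi

/-- cons of a pair: value and letters -/
theorem val_cons (ij : ℕ × ℕ) (ps : List (ℕ × ℕ)) (tl : Tl) (p : ℕ → L) :
    Sm.val K p ⟨ij :: ps, tl⟩ = K.k (p ij.1) (p ij.2) • Sm.val K p ⟨ps, tl⟩ := by
  unfold Sm.val pval
  rw [List.map_cons, List.prod_cons, mul_smul]

theorem lets_cons (ij : ℕ × ℕ) (ps : List (ℕ × ℕ)) (tl : Tl) :
    Sm.lets ⟨ij :: ps, tl⟩ = ij.1 ::ₘ ij.2 ::ₘ Sm.lets ⟨ps, tl⟩ := by
  show pletters (ij :: ps) + tl.lets = ij.1 ::ₘ ij.2 ::ₘ (pletters ps + tl.lets)
  rw [SymV_pl_cons, ← Multiset.singleton_add, ← Multiset.singleton_add,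
    show ({ij.1, ij.2} : Multiset ℕ) = {ij.1} + {ij.2} from rfl]
  abel

/-- Additivity in a letter `i` which occurs exactly once.
PROOF.  Induction on the list of pairs; in a pair `(i,j)` containing `i` use additivity of `k` and that `i` does not occur in the rest (`val_congr`); in the tail use additivity of `b`, `l`. -/
theorem val_add (z : Sm) (i : ℕ) (hi : z.lets.count i = 1) (p : ℕ → L) (u v : L) :
    z.val K (Function.update p i (u + v))
      = z.val K (Function.update p i u) + z.val K (Function.update p i v) := by
  rcases z with ⟨ps, tl⟩
  induction ps with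
  | nil =>
    have h0 : Sm.lets ⟨[], tl⟩ = tl.lets := by
      show pletters [] + tl.lets = tl.lets
      rw [SymV_pl_nil, zero_add]
    have hv : ∀ q : ℕ → L, Sm.val K q ⟨[], tl⟩ = K.l (tl.val K q) := fun q => one_smul _ _
    rw [h0] at hi
    rw [hv, hv, hv]
    cases tl with
    | one a =>
      have h1 : i = a := by
        by_contra hne
        have h2 : Multiset.count i ({a} : Multiset ℕ) = 1 := hi
        rw [Multiset.count_singleton, if_neg hne] at h2
        omega
      subst h1
      show K.l (Function.update p i (u + v) i) =
        K.l (Function.update p i u i) + K.l (Function.update p i v i)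
      rw [Function.update_self, Function.update_self, Function.update_self, K.l_add]
    | two a b =>
      have h2 : Multiset.count i (a ::ₘ {b} : Multiset ℕ) = 1 := hi
      rw [Multiset.count_cons, Multiset.count_singleton] at h2
      show K.l (K.b (Function.update p i (u + v) a) (Function.update p i (u + v) b)) =
        K.l (K.b (Function.update p i u a) (Function.update p i u b)) +
        K.l (K.b (Function.update p i v a) (Function.update p i v b))
      by_cases h3 : i = a
      · have h4 : b ≠ i := by
          intro h5
          rw [if_pos h5.symm, if_pos h3] at h2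
          omega
        subst h3
        rw [Function.update_self, Function.update_self, Function.update_self,
          Function.update_of_ne h4, Function.update_of_ne h4, Function.update_of_ne h4,
          K.b_add_left, K.l_add]
      · have h4 : i = b := by
          by_contra h5
          rw [if_neg h5, if_neg h3] at h2
          omega
        subst h4
        have h5 : a ≠ i := fun e => h3 e.symm
        rw [Function.update_self, Function.update_self, Function.update_self,
          Function.update_of_ne h5, Function.update_of_ne h5, Function.update_of_ne h5,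
          K.b_add_right, K.l_add]
  | cons ij ps ih =>
    rw [lets_cons, Multiset.count_cons, Multiset.count_cons] at hi
    rw [val_cons, val_cons, val_cons]
    by_cases h3 : i = ij.1
    · have h4 : ij.2 ≠ i := by
        intro h5
        rw [if_pos h5.symm, if_pos h3] at hi
        omega
      have h5 : Multiset.count i (Sm.lets ⟨ps, tl⟩) = 0 := by
        rw [if_pos h3] at hi
        omega
      rw [SymV_upd K _ i h5, SymV_upd K _ i h5, SymV_upd K _ i h5,
        Function.update_of_ne h4, Function.update_of_ne h4, Function.update_of_ne h4, ← h3,
        Function.update_self, Function.update_self, Function.update_self, K.k_add_left, add_smul]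
    · by_cases h4 : i = ij.2
      · have h5 : Multiset.count i (Sm.lets ⟨ps, tl⟩) = 0 := by
          rw [if_pos h4] at hi
          omega
        have h6 : ij.1 ≠ i := fun e => h3 e.symm
        rw [SymV_upd K _ i h5, SymV_upd K _ i h5, SymV_upd K _ i h5,
          Function.update_of_ne h6, Function.update_of_ne h6, Function.update_of_ne h6, ← h4,
          Function.update_self, Function.update_self, Function.update_self, K.k_add_right,
          add_smul]
      · have h5 : Multiset.count i (Sm.lets ⟨ps, tl⟩) = 1 := by
          rw [if_neg h3, if_neg h4] at hi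
          omega
        have h6 : ij.1 ≠ i := fun e => h3 e.symm
        have h7 : ij.2 ≠ i := fun e => h4 e.symm
        rw [ih h5, Function.update_of_ne h6, Function.update_of_ne h6, Function.update_of_ne h6,
          Function.update_of_ne h7, Function.update_of_ne h7, Function.update_of_ne h7, smul_add]

/-- `k`-linearity in a letter `i` which occurs exactly once.
PROOF.  Same induction; pair: (K3) (and `k_comm`); tail `one`: (R1); tail `two`: `D j` applied to (R1), i.e. `l([[[u,v],w],j]) = k(v,w) l([u,j]) + k(u,w) l([v,j])`. -/
theorem val_klin (z : Sm) (i : ℕ) (hi : z.lets.count i = 1) (p : ℕ → L) (u v w : L) :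
    z.val K (Function.update p i (K.b (K.b u v) w))
      = K.k v w • z.val K (Function.update p i u) + K.k u w • z.val K (Function.update p i v) := by
  have hR2 : ∀ j : L, K.l (K.b (K.b (K.b u v) w) j) =
      K.k v w • K.l (K.b u j) + K.k u w • K.l (K.b v j) := by
    intro j
    rw [← K.D_l, K.R1, map_add, map_smul, map_smul, K.D_l, K.D_l]
  rcases z with ⟨ps, tl⟩
  induction ps with
  | nil =>
    have h0 : Sm.lets ⟨[], tl⟩ = tl.lets := by
      show pletters [] + tl.lets = tl.lets
      rw [SymV_pl_nil, zero_add]
    have hv : ∀ q : ℕ → L, Sm.val K q ⟨[], tl⟩ = K.l (tl.val K q) := fun q => one_smul _ _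
    rw [h0] at hi
    rw [hv, hv, hv]
    cases tl with
    | one a =>
      have h1 : i = a := by
        by_contra hne
        have h2 : Multiset.count i ({a} : Multiset ℕ) = 1 := hi
        rw [Multiset.count_singleton, if_neg hne] at h2
        omega
      subst h1
      show K.l (Function.update p i (K.b (K.b u v) w) i) =
        K.k v w • K.l (Function.update p i u i) + K.k u w • K.l (Function.update p i v i)
      rw [Function.update_self, Function.update_self, Function.update_self, K.R1]
    | two a b =>
      have h2 : Multiset.count i (a ::ₘ {b} : Multiset ℕ) = 1 := hi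
      rw [Multiset.count_cons, Multiset.count_singleton] at h2
      show K.l (K.b (Function.update p i (K.b (K.b u v) w) a)
          (Function.update p i (K.b (K.b u v) w) b)) =
        K.k v w • K.l (K.b (Function.update p i u a) (Function.update p i u b)) +
        K.k u w • K.l (K.b (Function.update p i v a) (Function.update p i v b))
      by_cases h3 : i = a
      · have h4 : b ≠ i := by
          intro h5
          rw [if_pos h5.symm, if_pos h3] at h2
          omega
        subst h3
        rw [Function.update_self, Function.update_self, Function.update_self,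
          Function.update_of_ne h4, Function.update_of_ne h4, Function.update_of_ne h4, hR2]
      · have h4 : i = b := by
          by_contra h5
          rw [if_neg h5, if_neg h3] at h2
          omega
        subst h4
        have h5 : a ≠ i := fun e => h3 e.symm
        rw [Function.update_self, Function.update_self, Function.update_self,
          Function.update_of_ne h5, Function.update_of_ne h5, Function.update_of_ne h5,
          K.b_comm (p a), K.b_comm (p a), K.b_comm (p a), hR2]
  | cons ij ps ih =>
    rw [lets_cons, Multiset.count_cons, Multiset.count_cons] at hi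
    rw [val_cons, val_cons, val_cons]
    by_cases h3 : i = ij.1
    · have h4 : ij.2 ≠ i := by
        intro h5
        rw [if_pos h5.symm, if_pos h3] at hi
        omega
      have h5 : Multiset.count i (Sm.lets ⟨ps, tl⟩) = 0 := by
        rw [if_pos h3] at hi
        omega
      rw [SymV_upd K _ i h5, SymV_upd K _ i h5, SymV_upd K _ i h5,
        Function.update_of_ne h4, Function.update_of_ne h4, Function.update_of_ne h4, ← h3,
        Function.update_self, Function.update_self, Function.update_self, K.K3, add_smul,
        mul_smul, mul_smul]
    · by_cases h4 : i = ij.2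
      · have h5 : Multiset.count i (Sm.lets ⟨ps, tl⟩) = 0 := by
          rw [if_pos h4] at hi
          omega
        have h6 : ij.1 ≠ i := fun e => h3 e.symm
        rw [SymV_upd K _ i h5, SymV_upd K _ i h5, SymV_upd K _ i h5,
          Function.update_of_ne h6, Function.update_of_ne h6, Function.update_of_ne h6, ← h4,
          Function.update_self, Function.update_self, Function.update_self,
          K.k_comm (p ij.1), K.k_comm (p ij.1), K.k_comm (p ij.1), K.K3, add_smul,
          mul_smul, mul_smul]
      · have h5 : Multiset.count i (Sm.lets ⟨ps, tl⟩) = 1 := by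
          rw [if_neg h3, if_neg h4] at hi
          omega
        have h6 : ij.1 ≠ i := fun e => h3 e.symm
        have h7 : ij.2 ≠ i := fun e => h4 e.symm
        rw [ih h5, Function.update_of_ne h6, Function.update_of_ne h6, Function.update_of_ne h6,
          Function.update_of_ne h7, Function.update_of_ne h7, Function.update_of_ne h7, smul_add,
          smul_comm (K.k v w), smul_comm (K.k u w)]

private theorem SymV_count {n i : ℕ} (hi : i < n) : (Multiset.range n).count i = 1 :=
  Multiset.count_eq_one_of_mem (Multiset.nodup_range n) (Multiset.mem_range.2 hi)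

theorem evx_add {n : ℕ} (s : List Sm) (hs : Good n s) (i : ℕ) (hi : i < n) (p : ℕ → L) (u v : L) :
    evx K (Function.update p i (u + v)) s
      = evx K (Function.update p i u) s + evx K (Function.update p i v) s := by
  unfold evx
  induction s with
  | nil => simp
  | cons z s ih =>
    rw [List.map_cons, List.sum_cons, List.map_cons, List.sum_cons, List.map_cons, List.sum_cons,
      ih fun z' hz' => hs z' (List.mem_cons_of_mem _ hz'),
      val_add K z i (by rw [hs z List.mem_cons_self, SymV_count hi]) p u v]
    abel

theorem evx_klin {n : ℕ} (s : List Sm) (hs : Good n s) (i : ℕ) (hi : i < n) (p : ℕ → L)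
    (u v w : L) :
    evx K (Function.update p i (K.b (K.b u v) w)) s
      = K.k v w • evx K (Function.update p i u) s + K.k u w • evx K (Function.update p i v) s := by
  unfold evx
  induction s with
  | nil => simp
  | cons z s ih =>
    rw [List.map_cons, List.sum_cons, List.map_cons, List.sum_cons, List.map_cons, List.sum_cons,
      ih fun z' hz' => hs z' (List.mem_cons_of_mem _ hz'),
      val_klin K z i (by rw [hs z List.mem_cons_self, SymV_count hi]) p u v w, smul_add, smul_add]
    abel

end

end E4
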