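import Pool.Agent.Lib.MP_8a95e3_al.TNat

/-!
# T1 : `τ ≠ 0` and the property (T1)
-/

namespace E4

namespace TPr

variable {A : Type} [Ring A] (P : TPr A)

private theorem T1_Lm_ind {motive : P.Lm → Prop} (h0 : motive 0)
    (hadd : ∀ p q, motive p → motive q → motive (p + q)) (ht : ∀ g, motive (P.tL g)) :
    ∀ p, motive p := by
  have hneg : ∀ p : P.Lm, motive p → motive (-p) := by
    intro p hp
    have h1 : -p = p := neg_eq_of_add_eq_zero_left (P.K.two_L p)
    rwa [h1]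
  rintro ⟨p, hp⟩
  refine AddSubgroup.closure_induction (p := fun y hy => motive ⟨y, hy⟩) ?_ h0 ?_ ?_ hp
  · rintro _ ⟨g, rfl⟩
    exact ht g
  · intro y z hy hz h1 h2
    exact hadd ⟨y, hy⟩ ⟨z, hz⟩ h1 h2
  · intro y hy h1
    exact hneg ⟨y, hy⟩ h1

/-- `k([t_a,t_b],t_c)` is not identically zero.
PROOF.  Suppose `k([t_a,t_b],t_c) = 0` for all `a b c : F`.  By additivity `k([p,q],r) = 0` for all `p q r ∈ Λ` (closure induction three times).  Then by (R1) `l([[p,q],[r,s]]) = k(q,[r,s]) l(p) + k(p,[r,s]) l(q) = 0` (`k_comm`), so `[[p,q],[r,s]] = 0` by `lm_inj`: contradiction to `br4_ne`. -/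
theorem tau_ne : ∃ a b c : F, P.K.k (P.K.b (P.tL a) (P.tL b)) (P.tL c) ≠ 0 := by
  by_contra hcon
  push Not at hcon
  have h1 : ∀ p q r : P.Lm, P.K.k (P.K.b p q) r = 0 := by
    intro p q r
    refine P.T1_Lm_ind (motive := fun p => P.K.k (P.K.b p q) r = 0) ?_ ?_ ?_ p
    · rw [P.K.b_zero_left, P.K.k_zero_left]
    · intro p p' h h'
      rw [P.K.b_add_left, P.K.k_add_left, h, h', add_zero]
    · intro a
      refine P.T1_Lm_ind (motive := fun q => P.K.k (P.K.b (P.tL a) q) r = 0) ?_ ?_ ?_ q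
      · rw [P.K.b_zero_right, P.K.k_zero_left]
      · intro p p' h h'
        rw [P.K.b_add_right, P.K.k_add_left, h, h', add_zero]
      · intro b
        refine P.T1_Lm_ind (motive := fun r => P.K.k (P.K.b (P.tL a) (P.tL b)) r = 0) ?_ ?_ ?_ r
        · rw [P.K.k_comm, P.K.k_zero_left]
        · intro p p' h h'
          rw [P.K.k_add_right, h, h', add_zero]
        · intro c
          exact hcon a b c
  obtain ⟨a, b, c, d, h2⟩ := P.br4_ne
  apply h2
  have h3 : P.K.l (P.K.b (P.K.b (P.tL a) (P.tL b)) (P.K.b (P.tL c) (P.tL d))) = 0 := by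
    rw [P.K.R1, P.K.k_comm (P.tL b), P.K.k_comm (P.tL a), h1, h1, zero_smul, zero_smul, add_zero]
  have h4 := P.lm_inj h3
  exact congrArg Subtype.val h4

/-- the natural function `g ↦ k([t g0, t g1], t g2)(t g3 · t g4)`; it is not identically zero.
PROOF: by `tau_ne` some `z = k([t_a,t_b],t_c) ≠ 0` (an operator commuting with all `rm`), by `op_zero` there are `u, v` with `z(t u t v) ≠ 0`. -/
theorem tau_ne' : ∃ g : ℕ → F,
    ((P.K.k (P.K.b (P.tL (g 0)) (P.tL (g 1))) (P.tL (g 2)) : P.E0)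
      ⟨P.t (g 3) * P.t (g 4), P.tt_mem _ _⟩ : A) ≠ 0 := by
  obtain ⟨a, b, c, h⟩ := P.tau_ne
  by_contra hcon
  push Not at hcon
  apply h
  apply Subtype.ext
  refine P.op_zero _ (fun g => ?_) (fun u v => ?_)
  · have h1 := (P.K.k (P.K.b (P.tL a) (P.tL b)) (P.tL c)).2
    exact ((Subring.mem_centralizer_iff).1 h1 _ (Or.inr ⟨g, rfl⟩)).symm
  · exact hcon (fun i => match i with
      | 0 => a
      | 1 => b
      | 2 => c
      | 3 => u
      | _ => v)

/-- **(T1).**
PROOF.  Let `s` be `Good (n+1)` with `evx (update p n [u,v]) s = 0` for all `p, u, v`.  By `evx_ext` it is enough that `evx (tL ∘ g) s = 0` for all `g : ℕ → F`.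
(1) For `p : ℕ → Λ`, `u v w x ∈ Λ` : by `evx_klin` (letter `n`) for `[[[v,w],u],x]` (i.e. the `u, v, w` of `evx_klin` are `[v,w], u, x`): `evx (update p n [[[v,w],u],x]) s = k(u,x) • evx (update p n [v,w]) s + k([v,w],x) • evx (update p n u) s`; the left side and the first
term vanish by hypothesis, so `k([v,w],x) • evx (update p n u) s = 0`; so `k([v,w],x) • evx p s = 0` for all `p` (`u = p n`, `Function.update_eq_self`).
(2) Put `f(g) = k([t g0,t g1],t g2)(t g3 · t g4) ∈ A` and `f'(g) = evx (fun i => tL (g (i+2))) s (t g0 · t g1) ∈ A`.  Both are natural: `E φ (f g) = f (φ ∘ g)` (`E_kop`, `E_t`; `E_evx`, `EL_tL`).  And `f(g) * f'(g') = 0`: with `z = k(..)`, `m = t g3 · t g4`, `m' = f'(g') ∈ M`: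
`z(m) * m' = z(m * m') = m * z(m')` (`Zs_mul_right`, `Zs_mul_left`) and `z(m') = (z * evx ..) (t · t) = 0` by (1).
(3) `nat_prime`: `f = 0` is impossible by `tau_ne'`; so `f' = 0`: for every `g` and `u, v`: `evx (tL ∘ g) s (t u t v) = 0` (take `g' 0 = u, g' 1 = v, g' (i+2) = g i`), so `evx (tL ∘ g) s = 0` by `op_zero` and `evx_rm`. -/
theorem t1p : T1P P.K := by
  intro n s hs h
  -- (1)
  have h1 : ∀ (p : ℕ → P.Lm) (v w y : P.Lm), P.K.k (P.K.b v w) y • evx P.K p s = 0 := by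
    intro p v w y
    have h2 := evx_klin P.K s hs n (Nat.lt_succ_self n) p (P.K.b v w) (p n) y
    rw [h, h p v w, smul_zero, zero_add, Function.update_eq_self] at h2
    exact h2.symm
  have hEM : ∀ (φ : F →* F) (u v : F), P.EM φ ⟨P.t u * P.t v, P.tt_mem u v⟩ =
      ⟨P.t (φ u) * P.t (φ v), P.tt_mem _ _⟩ := by
    intro φ u v
    apply Subtype.ext
    show P.E φ (P.t u * P.t v) = _
    rw [map_mul, P.E_t, P.E_t]
  -- (2)
  have h3 := P.nat_prime
    (fun g => ((P.K.k (P.K.b (P.tL (g 0)) (P.tL (g 1))) (P.tL (g 2)) : P.E0)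
      ⟨P.t (g 3) * P.t (g 4), P.tt_mem _ _⟩ : A))
    (fun g => ((evx P.K (fun i => P.tL (g (i + 2))) s : P.E0)
      ⟨P.t (g 0) * P.t (g 1), P.tt_mem _ _⟩ : A)) (by
      intro φ g
      have h4 := congrArg Subtype.val (P.E_kop φ (P.bL (P.tL (g 0)) (P.tL (g 1))) (P.tL (g 2))
        ⟨P.t (g 3) * P.t (g 4), P.tt_mem _ _⟩)
      rw [P.EL_bL, P.EL_tL, P.EL_tL, P.EL_tL, hEM] at h4
      exact h4) (by
      intro φ g
      have h4 := congrArg Subtype.val (P.E_evx φ s (fun i => P.tL (g (i + 2)))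
        ⟨P.t (g 0) * P.t (g 1), P.tt_mem _ _⟩)
      rw [hEM] at h4
      simp only [P.EL_tL] at h4
      exact h4) (by
      intro g g'
      set z := P.K.k (P.K.b (P.tL (g 0)) (P.tL (g 1))) (P.tL (g 2)) with hz
      set m : P.M := ⟨P.t (g 3) * P.t (g 4), P.tt_mem _ _⟩ with hm
      set m' : P.M := (evx P.K (fun i => P.tL (g' (i + 2))) s : P.E0)
        ⟨P.t (g' 0) * P.t (g' 1), P.tt_mem _ _⟩ with hm'
      have h5 := P.Zs_mul_right z z.2 m m'
      have h6 := P.Zs_mul_left z z.2 m m'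
      have h7 : (z : P.E0) m' = 0 := by
        have h8 := h1 (fun i => P.tL (g' (i + 2))) (P.tL (g 0)) (P.tL (g 1)) (P.tL (g 2))
        rw [← hz, P.smul_def] at h8
        have h9 := congrArg (fun e : P.E0 => e ⟨P.t (g' 0) * P.t (g' 1), P.tt_mem _ _⟩) h8
        exact h9
      rw [h7, h5] at h6
      refine h6.trans ?_
      show (m : A) * ((0 : P.M) : A) = 0
      rw [ZeroMemClass.coe_zero, mul_zero])
  intro p
  refine P.evx_ext s hs (fun g => ?_) p
  rcases h3 with h3 | h3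
  · obtain ⟨g, hg⟩ := P.tau_ne'
    exact absurd (h3 g) hg
  · refine P.op_zero _ (fun g' => P.evx_rm s _ g') (fun u v => ?_)
    exact h3 (fun i => match i with
      | 0 => u
      | 1 => v
      | (i + 2) => g i)

end TPr

end E4
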