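import Pool.Agent.Lib.MP_8a95e3_al.TPrime
import Pool.Agent.Lib.MP_8a95e3_al.SolNil
import Pool.Agent.Lib.MP_8a95e3_al.QCI

/-!
# TCons : first consequences of T-primeness
-/

open scoped commutatorElement

namespace E4

/-- If the images of the elements of `T` commute, then `f` is trivial on the commutators of `closure T`. -/
private theorem TCons_comm {G G' : Type*} [Group G] [Group G'] (f : G →* G') (T : Set G)
    (h : ∀ a ∈ T, ∀ b ∈ T, f a * f b = f b * f a) :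
    ⁅Subgroup.closure T, Subgroup.closure T⁆ ≤ f.ker := by
  have h1 : ∀ a ∈ T, ∀ b ∈ Subgroup.closure T, f a * f b = f b * f a := by
    intro a ha b hb
    refine Subgroup.closure_induction (p := fun b _ => f a * f b = f b * f a) ?_ ?_ ?_ ?_ hb
    · intro b hb
      exact h a ha b hb
    · rw [map_one, mul_one, one_mul]
    · intro b c _ _ hb hc
      rw [map_mul, ← mul_assoc, hb, mul_assoc, hc, mul_assoc]
    · intro b _ hb
      rw [map_inv]
      exact (Commute.inv_right (show Commute (f a) (f b) from hb)).eq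
  have h2 : ∀ a ∈ Subgroup.closure T, ∀ b ∈ Subgroup.closure T, f a * f b = f b * f a := by
    intro a ha b hb
    refine Subgroup.closure_induction (p := fun a _ => f a * f b = f b * f a) ?_ ?_ ?_ ?_ ha
    · intro a ha
      exact h1 a ha b hb
    · rw [map_one, mul_one, one_mul]
    · intro a c _ _ ha hc
      rw [map_mul, mul_assoc, hc, ← mul_assoc, ha, mul_assoc]
    · intro a _ ha
      rw [map_inv]
      exact (Commute.inv_left (show Commute (f a) (f b) from ha)).eq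
  rw [Subgroup.commutator_le]
  intro a ha b hb
  rw [MonoidHom.mem_ker, map_commutatorElement, commutatorElement_eq_one_iff_mul_comm]
  exact h2 a ha b hb

/-- The squares generate a subgroup which contains all commutators. -/
private theorem TCons_sq {G : Type*} [Group G] :
    commutator G ≤ Subgroup.closure {a : G | ∃ g, a = g ^ 2} := by
  rw [commutator_def, Subgroup.commutator_le]
  intro a _ b _
  have h1 : ⁅a, b⁆ = a ^ 2 * (a⁻¹ * b) ^ 2 * (b⁻¹) ^ 2 := by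
    rw [commutatorElement_def]
    simp only [pow_two]
    group
  rw [h1]
  refine mul_mem (mul_mem ?_ ?_) ?_
  · exact Subgroup.subset_closure ⟨a, rfl⟩
  · exact Subgroup.subset_closure ⟨_, rfl⟩
  · exact Subgroup.subset_closure ⟨_, rfl⟩

namespace TPr

variable {A : Type} [Ring A] (P : TPr A)

/-- `t(g) = T_g` -/
def t (g : F) : A := sqe P.ρ g

/-- the endomorphism of `F` with `x_i ↦ g i` -/
noncomputable def hom (g : ℕ → F) : F →* F := FreeGroup.lift g

theorem hom_x (g : ℕ → F) (i : ℕ) : hom g (x i) = g i := by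
  unfold hom x
  exact FreeGroup.lift_apply_of

private theorem TCons_ext (f g : A →+* A) (h : ∀ w : F, f (P.ρ w) = g (P.ρ w)) (a : A) : f a = g a := by
  have ha : a ∈ AddSubgroup.closure (Set.range P.ρ) := by
    rw [show AddSubgroup.closure (Set.range P.ρ) = ⊤ from P.spn]
    exact AddSubgroup.mem_top a
  refine AddSubgroup.closure_induction (p := fun a _ => f a = g a) ?_ ?_ ?_ ?_ ha
  · rintro _ ⟨w, rfl⟩
    exact h w
  · rw [map_zero, map_zero]
  · intro a b _ _ h1 h2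
    rw [map_add, map_add, h1, h2]
  · intro a _ h1
    rw [map_neg, map_neg, h1]

/-- PROOF: both sides are additive in `a`, and `A` is spanned by `ρ(F)`. -/
theorem E_comp (φ ψ : F →* F) (a : A) : P.E (φ.comp ψ) a = P.E φ (P.E ψ a) := by
  refine P.TCons_ext (P.E (φ.comp ψ)) ((P.E φ).comp (P.E ψ)) (fun w => ?_) a
  rw [RingHom.comp_apply, P.E_ap, P.E_ap, P.E_ap]
  rfl

theorem E_id (a : A) : P.E (MonoidHom.id F) a = a := by
  refine P.TCons_ext (P.E (MonoidHom.id F)) (RingHom.id A) (fun w => ?_) a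
  rw [P.E_ap]
  rfl

theorem E_t (φ : F →* F) (g : F) : P.E φ (P.t g) = P.t (φ g) := by
  unfold t sqe
  rw [map_add, map_pow, map_one, P.E_ap]

private theorem TCons_fin (w : F) : ∃ n : ℕ, ∀ φ ψ : F →* F, (∀ i < n, φ (x i) = ψ (x i)) → φ w = ψ w := by
  induction w using FreeGroup.induction_on with
  | C1 => exact ⟨0, fun φ ψ _ => by rw [map_one, map_one]⟩
  | of i => exact ⟨i + 1, fun φ ψ h => h i (Nat.lt_succ_self i)⟩
  | inv_of i _ =>
    refine ⟨i + 1, fun φ ψ h => ?_⟩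
    rw [map_inv, map_inv]
    exact congrArg _ (h i (Nat.lt_succ_self i))
  | mul a b ha hb =>
    obtain ⟨n, hn⟩ := ha
    obtain ⟨m, hm⟩ := hb
    refine ⟨max n m, fun φ ψ h => ?_⟩
    rw [map_mul, map_mul, hn φ ψ fun i hi => h i (lt_of_lt_of_le hi (le_max_left _ _)),
      hm φ ψ fun i hi => h i (lt_of_lt_of_le hi (le_max_right _ _))]

/-- `E φ a` depends only on the images of finitely many letters.
PROOF: closure induction on `a` (`spn`); for `a = ρ w` use the finitely many letters of `w` (`FreeGroup` induction on `w`); take the maximum of the bounds for sums. -/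
theorem fin_supp (a : A) : ∃ n : ℕ, ∀ φ ψ : F →* F, (∀ i < n, φ (x i) = ψ (x i)) →
    P.E φ a = P.E ψ a := by
  have ha : a ∈ AddSubgroup.closure (Set.range P.ρ) := by
    rw [show AddSubgroup.closure (Set.range P.ρ) = ⊤ from P.spn]
    exact AddSubgroup.mem_top a
  refine AddSubgroup.closure_induction (p := fun a _ => ∃ n : ℕ, ∀ φ ψ : F →* F,
    (∀ i < n, φ (x i) = ψ (x i)) → P.E φ a = P.E ψ a) ?_ ?_ ?_ ?_ ha
  · rintro _ ⟨w, rfl⟩
    obtain ⟨n, hn⟩ := TCons_fin w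
    exact ⟨n, fun φ ψ h => by rw [P.E_ap, P.E_ap, hn φ ψ h]⟩
  · exact ⟨0, fun φ ψ _ => by rw [map_zero, map_zero]⟩
  · rintro a b _ _ ⟨n, hn⟩ ⟨m, hm⟩
    refine ⟨max n m, fun φ ψ h => ?_⟩
    rw [map_add, map_add, hn φ ψ fun i hi => h i (lt_of_lt_of_le hi (le_max_left _ _)),
      hm φ ψ fun i hi => h i (lt_of_lt_of_le hi (le_max_right _ _))]
  · rintro a _ ⟨n, hn⟩
    exact ⟨n, fun φ ψ h => by rw [map_neg, map_neg, hn φ ψ h]⟩

/-- The image of `F` is not soluble.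
PROOF: otherwise `rep_sol` gives `N` with all products of `≥ N` elements `X ρ k`, `k ∈ commutator F`, equal to `0`; `wA ρ N` is such a product (`cm_mem_all`), contradiction to `insol`. -/
theorem not_sol (d : ℕ) : ¬ ∀ g ∈ derivedSeries F d, P.ρ g = 1 := by
  intro h
  obtain ⟨N, hN⟩ := rep_sol P.cub d h
  apply P.insol N
  have h1 := hN ((List.range N).map fun i => cm (x (2 * i)) (x (2 * i + 1))) (by
    intro k hk
    rw [List.mem_map] at hk
    obtain ⟨i, _, rfl⟩ := hk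
    exact cm_mem_all _ _) (by rw [List.length_map, List.length_range])
  rw [List.map_map] at h1
  exact h1

include P in
private theorem TCons_two (r : A) : r + r = 0 := by
  rw [← two_mul, P.cub.two, zero_mul]

include P in
private theorem TCons_neg (r : A) : -r = r := neg_eq_of_add_eq_zero_left (P.TCons_two r)

include P in
private theorem TCons_eq {a b : A} (h : a + b = 0) : a = b := by
  rw [eq_neg_of_add_eq_zero_left h, P.TCons_neg]

/-- `t` is not identically zero.  PROOF: otherwise `ρ(g)² = 1` for all `g`, so `ρ(F)` is commutative (`ρ a ρ b ρ a ρ b = 1`), `X ρ (cm (x 0) (x 1)) = 0 = wA ρ 1`. -/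
theorem t_ne : ∃ g : F, P.t g ≠ 0 := by
  by_contra hc
  push Not at hc
  have h1 : ∀ g : F, P.ρ (g ^ 2) = 1 := by
    intro g
    rw [map_pow]
    exact P.TCons_eq (hc g)
  have h2 : P.ρ (cm (x 0) (x 1)) = 1 := by
    have h3 : cm (x 0) (x 1) = ((x 0)⁻¹) ^ 2 * (x 0 * (x 1)⁻¹) ^ 2 * (x 1) ^ 2 := by
      unfold cm
      simp only [pow_two]
      group
    rw [h3, map_mul, map_mul, h1, h1, h1, one_mul, one_mul]
  apply P.insol 1
  have h4 : wA P.ρ 1 = X P.ρ (cm (x 0) (x 1)) := by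
    simp [wA]
  rw [h4]
  unfold X
  rw [h2]
  exact P.TCons_two 1

/-- `t (x 0) ≠ 0`. PROOF: `t g = E (hom (fun _ => g)) (t (x 0))`. -/
theorem t_x0_ne : P.t (x 0) ≠ 0 := by
  intro h
  obtain ⟨g, hg⟩ := P.t_ne
  apply hg
  have h1 := P.E_t (hom fun _ => g) (x 0)
  rw [hom_x, h, map_zero] at h1
  exact h1.symm

/-- natural functions: (4.3).
PROOF.  Apply `prime` to `a = f x`, `b = f' x` (`x : ℕ → F` the generators): `E (ee 0) (f x) = f (ee 0 ∘ x)`, `E (ee 1) (f' x) = f' (ee 1 ∘ x)`, product zero.  If `f x = 0` then `f g = f (hom g ∘ x) = E (hom g) (f x) = 0`. -/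
theorem nat_prime (f f' : (ℕ → F) → A) (hf : ∀ (φ : F →* F) g, P.E φ (f g) = f (φ ∘ g))
    (hf' : ∀ (φ : F →* F) g, P.E φ (f' g) = f' (φ ∘ g)) (h : ∀ g g', f g * f' g' = 0) :
    (∀ g, f g = 0) ∨ (∀ g, f' g = 0) := by
  have hx : ∀ g : ℕ → F, hom g ∘ x = g := by
    intro g
    funext i
    exact hom_x g i
  rcases P.prime (f x) (f' x) (by rw [hf, hf']; exact h _ _) with h1 | h1
  · left
    intro g
    rw [← hx g, ← hf, h1, map_zero]
  · right
    intro g
    rw [← hx g, ← hf', h1, map_zero]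

private theorem TCons_ee (i j : ℕ) : ee i (x j) = x (2 * j + i) := by
  unfold ee
  exact FreeGroup.lift_apply_of

/-- (4.4) left.
PROOF.  Let `n` be as in `fin_supp` for `z`.  `t (x n) * z = 0`; apply `E φ` with `φ (x i) = x (2i+1)` for `i < n`, `φ (x n) = x 0`: `t (x 0) * E φ z = 0` and `E φ z = E (ee 1) z`.  Also `t (x 0) = E (ee 0) (t (x 0))`.
So `prime` gives `t (x 0) = 0` (impossible, `t_x0_ne`) or `z = 0`. -/
theorem left_zero (z : A) (h : ∀ g, P.t g * z = 0) : z = 0 := by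
  obtain ⟨n, hn⟩ := P.fin_supp z
  obtain ⟨φ, hφ⟩ : ∃ φ : F →* F, φ = hom fun i => if i = n then x 0 else x (2 * i + 1) := ⟨_, rfl⟩
  have h1 : φ (x n) = x 0 := by
    rw [hφ, hom_x, if_pos rfl]
  have h2 : P.E φ z = P.E (ee 1) z := by
    refine hn φ (ee 1) fun i hi => ?_
    rw [hφ, hom_x, if_neg hi.ne, TCons_ee]
  have h3 := congrArg (P.E φ) (h (x n))
  rw [map_mul, map_zero, P.E_t, h1, h2] at h3
  have h4 : P.t (x 0) = P.E (ee 0) (P.t (x 0)) := by
    rw [P.E_t, TCons_ee]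
  rw [h4] at h3
  rcases P.prime _ _ h3 with h5 | h5
  · exact absurd h5 P.t_x0_ne
  · exact h5

/-- (4.4) right.  PROOF: as `left_zero` with `φ (x i) = x (2i)` for `i < n`, `φ (x n) = x 1`: `E (ee 0) z * t (x 1) = 0` and `t (x 1) = E (ee 1) (t (x 0))`. -/
theorem right_zero (z : A) (h : ∀ g, z * P.t g = 0) : z = 0 := by
  obtain ⟨n, hn⟩ := P.fin_supp z
  obtain ⟨φ, hφ⟩ : ∃ φ : F →* F, φ = hom fun i => if i = n then x 1 else x (2 * i) := ⟨_, rfl⟩
  have h1 : φ (x n) = x 1 := by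
    rw [hφ, hom_x, if_pos rfl]
  have h2 : P.E φ z = P.E (ee 0) z := by
    refine hn φ (ee 0) fun i hi => ?_
    rw [hφ, hom_x, if_neg hi.ne, TCons_ee]
    rfl
  have h3 := congrArg (P.E φ) (h (x n))
  rw [map_mul, map_zero, P.E_t, h1, h2] at h3
  have h4 : P.t (x 1) = P.E (ee 1) (P.t (x 0)) := by
    rw [P.E_t, TCons_ee]
  rw [h4] at h3
  rcases P.prime _ _ h3 with h5 | h5
  · exact h5
  · exact absurd h5 P.t_x0_ne

private theorem TCons_br (a b : F) : br (P.t a) (P.t b) = P.ρ (a ^ 2) * P.ρ (b ^ 2) + P.ρ (b ^ 2) * P.ρ (a ^ 2) := by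
  unfold br t sqe
  rw [map_pow, map_pow]
  have h1 : (P.ρ a ^ 2 + 1) * (P.ρ b ^ 2 + 1) + (P.ρ b ^ 2 + 1) * (P.ρ a ^ 2 + 1) =
      P.ρ a ^ 2 * P.ρ b ^ 2 + P.ρ b ^ 2 * P.ρ a ^ 2 + ((P.ρ a ^ 2 + P.ρ b ^ 2 + 1) + (P.ρ a ^ 2 + P.ρ b ^ 2 + 1)) := by
    generalize P.ρ a ^ 2 = u
    generalize P.ρ b ^ 2 = v
    noncomm_ring
  rw [h1, P.TCons_two, add_zero]

private theorem TCons_ker {g : F} : g ∈ (MonoidHom.toHomUnits P.ρ).ker ↔ P.ρ g = 1 := by
  rw [MonoidHom.mem_ker, Units.ext_iff]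
  rfl

/-- The squares do not all commute.
PROOF.  Suppose `br (t g) (t h) = 0` for all `g, h`: `ρ(g²) ρ(h²) = ρ(h²) ρ(g²)`.  In every group `a⁻¹b⁻¹ab = a⁻²(ab⁻¹)²b²`, so every commutator, hence every element of `commutator F`, has image in the commutative multiplicative submonoid
(subgroup of units) generated by the squares.  So `ρ` is trivial on `derivedSeries F 2 = ⁅commutator F, commutator F⁆`, contradiction to `not_sol`. -/
theorem br_ne : ∃ g h : F, br (P.t g) (P.t h) ≠ 0 := by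
  by_contra hc
  push Not at hc
  have h1 := TCons_comm (MonoidHom.toHomUnits P.ρ) {a : F | ∃ g, a = g ^ 2} (by
    rintro _ ⟨a, rfl⟩ _ ⟨b, rfl⟩
    apply Units.ext
    have h2 := hc a b
    rw [P.TCons_br] at h2
    exact P.TCons_eq h2)
  apply P.not_sol 2
  intro g hg
  rw [← P.TCons_ker]
  apply h1
  have h3 : derivedSeries F 2 = ⁅commutator F, commutator F⁆ := by
    rw [derivedSeries_succ, derivedSeries_one]
  rw [h3] at hg
  exact Subgroup.commutator_mono TCons_sq TCons_sq hg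

private theorem TCons_one (g : F) : P.ρ (g ^ 2) * P.ρ (g ^ 2) = 1 := by
  rw [← map_mul, ← pow_add, map_pow]
  exact cub_pow_four P.cub g

private theorem TCons_aba (g h : F) : P.ρ (g ^ 2) * P.ρ (h ^ 2) * P.ρ (g ^ 2) =
    P.ρ (g ^ 2) * P.ρ (h ^ 2) + P.ρ (h ^ 2) * P.ρ (g ^ 2) + P.ρ (h ^ 2) := by
  have h1 := sqe_mid_spn P.cub P.spn g (sqe P.ρ h)
  have h2 := P.TCons_one g
  unfold sqe at h1
  rw [← map_pow, ← map_pow] at h1
  apply P.TCons_eq
  have h3 := P.TCons_two (1 : A)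
  have h4 := P.TCons_two (P.ρ (g ^ 2))
  have h5 : P.ρ (g ^ 2) * P.ρ (h ^ 2) * P.ρ (g ^ 2) +
      (P.ρ (g ^ 2) * P.ρ (h ^ 2) + P.ρ (h ^ 2) * P.ρ (g ^ 2) + P.ρ (h ^ 2)) =
      (P.ρ (g ^ 2) + 1) * (P.ρ (h ^ 2) + 1) * (P.ρ (g ^ 2) + 1) - (P.ρ (g ^ 2) * P.ρ (g ^ 2) - 1) - (1 + 1) -
        (P.ρ (g ^ 2) + P.ρ (g ^ 2)) := by
    generalize P.ρ (g ^ 2) = u
    generalize P.ρ (h ^ 2) = v
    noncomm_ring
  rw [h5, h1, h2, h3, h4]
  simp

private theorem TCons_cm (g h : F) : P.ρ ⁅g ^ 2, h ^ 2⁆ = 1 + br (P.t g) (P.t h) := by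
  have hinv : ∀ g : F, P.ρ ((g ^ 2)⁻¹) = P.ρ (g ^ 2) := by
    intro g
    calc P.ρ ((g ^ 2)⁻¹) = P.ρ ((g ^ 2)⁻¹) * (P.ρ (g ^ 2) * P.ρ (g ^ 2)) := by rw [P.TCons_one, mul_one]
      _ = P.ρ (g ^ 2) := by rw [← mul_assoc, ← map_mul, inv_mul_cancel, map_one, one_mul]
  rw [commutatorElement_def, map_mul, map_mul, map_mul, hinv, hinv, P.TCons_aba, P.TCons_br]
  have h1 := P.TCons_aba h g
  have h2 := P.TCons_one h
  have h3 := P.TCons_two (P.ρ (g ^ 2))
  have h4 : (P.ρ (g ^ 2) * P.ρ (h ^ 2) + P.ρ (h ^ 2) * P.ρ (g ^ 2) + P.ρ (h ^ 2)) * P.ρ (h ^ 2) =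
      P.ρ (g ^ 2) * (P.ρ (h ^ 2) * P.ρ (h ^ 2)) + P.ρ (h ^ 2) * P.ρ (g ^ 2) * P.ρ (h ^ 2) +
        P.ρ (h ^ 2) * P.ρ (h ^ 2) := by
    generalize P.ρ (g ^ 2) = u
    generalize P.ρ (h ^ 2) = v
    noncomm_ring
  rw [h4, h1, h2, mul_one]
  have h5 : P.ρ (g ^ 2) + (P.ρ (h ^ 2) * P.ρ (g ^ 2) + P.ρ (g ^ 2) * P.ρ (h ^ 2) + P.ρ (g ^ 2)) + 1 =
      1 + (P.ρ (g ^ 2) * P.ρ (h ^ 2) + P.ρ (h ^ 2) * P.ρ (g ^ 2)) + (P.ρ (g ^ 2) + P.ρ (g ^ 2)) := by
    abel
  rw [h5, h3, add_zero]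

/-- Not all `[[T_a,T_b],[T_c,T_d]]` vanish.
PROOF.  Suppose they vanish.  For `a = ρ(g²) = 1 + T_g`, `b = 1 + T_h` (involutions): `ρ ⁅g²,h²⁆ = (ab)² = 1 + [T_g,T_h]` (`ab + 1 = T_g + T_h + T_gT_h`, its square is `T_gT_h + T_hT_g`).  Let `S ≤ F` be the subgroup generated by the squares
(normal); `commutator F ≤ S` (see `br_ne`).  `⁅S,S⁆` is generated by the commutators `⁅g²,h²⁆` of squares (the set of squares is closed under conjugation and inversion: `⁅S,S⁆ = closure {⁅a,b⁆}` over generators up to conjugation), whose images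
`1 + [T_g,T_h]` commute pairwise; so `ρ` is trivial on `⁅⁅S,S⁆,⁅S,S⁆⁆ ⊇ derivedSeries F 3`, contradiction to `not_sol 3`.
(The argument for generators: let `N` = subgroup of `F` generated by all `⁅g²,h²⁆`; it is normal; modulo `N` the squares commute so `S/N` is abelian and `⁅S,S⁆ ≤ N`.) -/
theorem br4_ne : ∃ a b c d : F, br (br (P.t a) (P.t b)) (br (P.t c) (P.t d)) ≠ 0 := by
  by_contra hc
  push Not at hc
  obtain ⟨T, hT⟩ : ∃ T : Set F, T = {w | ∃ g h : F, w = ⁅g ^ 2, h ^ 2⁆} := ⟨_, rfl⟩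
  have hN : (Subgroup.closure T).Normal := by
    constructor
    intro n hn g
    refine Subgroup.closure_induction (p := fun n _ => g * n * g⁻¹ ∈ Subgroup.closure T) ?_ ?_ ?_ ?_ hn
    · intro w hw
      apply Subgroup.subset_closure
      rw [hT] at hw ⊢
      obtain ⟨a, b, rfl⟩ := hw
      refine ⟨g * a * g⁻¹, g * b * g⁻¹, ?_⟩
      have h5 := map_commutatorElement (MulAut.conj g).toMonoidHom (a ^ 2) (b ^ 2)
      rw [map_pow, map_pow] at h5
      exact h5
    · rw [mul_one, mul_inv_cancel]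
      exact one_mem _
    · intro a b _ _ ha hb
      have h5 : g * (a * b) * g⁻¹ = (g * a * g⁻¹) * (g * b * g⁻¹) := by group
      rw [h5]
      exact mul_mem ha hb
    · intro a _ ha
      have h5 : g * a⁻¹ * g⁻¹ = (g * a * g⁻¹)⁻¹ := by group
      rw [h5]
      exact inv_mem ha
  have h1 := TCons_comm (MonoidHom.toHomUnits P.ρ) T (by
    rw [hT]
    rintro _ ⟨a, b, rfl⟩ _ ⟨c, d, rfl⟩
    apply Units.ext
    show P.ρ ⁅a ^ 2, b ^ 2⁆ * P.ρ ⁅c ^ 2, d ^ 2⁆ = P.ρ ⁅c ^ 2, d ^ 2⁆ * P.ρ ⁅a ^ 2, b ^ 2⁆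
    rw [P.TCons_cm, P.TCons_cm]
    have h2 := P.TCons_eq (hc a b c d)
    rw [add_mul, mul_add, mul_add, add_mul, mul_add, mul_add, h2]
    simp only [one_mul, mul_one]
    abel)
  have h2 := TCons_comm (QuotientGroup.mk' (Subgroup.closure T)) {a : F | ∃ g, a = g ^ 2} (by
    rintro _ ⟨a, rfl⟩ _ ⟨b, rfl⟩
    rw [← commutatorElement_eq_one_iff_mul_comm, ← map_commutatorElement]
    have h3 : ⁅a ^ 2, b ^ 2⁆ ∈ (QuotientGroup.mk' (Subgroup.closure T)).ker := by
      rw [QuotientGroup.ker_mk']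
      apply Subgroup.subset_closure
      rw [hT]
      exact ⟨a, b, rfl⟩
    exact h3)
  rw [QuotientGroup.ker_mk'] at h2
  apply P.not_sol 3
  intro g hg
  rw [← P.TCons_ker]
  apply h1
  have h3 : derivedSeries F 3 = ⁅⁅commutator F, commutator F⁆, ⁅commutator F, commutator F⁆⁆ := by
    rw [derivedSeries_succ, derivedSeries_succ, derivedSeries_one]
  rw [h3] at hg
  have h4 : ⁅commutator F, commutator F⁆ ≤ Subgroup.closure T :=
    (Subgroup.commutator_mono TCons_sq TCons_sq).trans h2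
  exact Subgroup.commutator_mono h4 h4 hg

end TPr

end E4
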