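import Pool.Agent.Lib.MP_8a95e3_al.KInst
import Pool.Agent.Lib.MP_8a95e3_al.SymV

/-!
# TNat : naturality
-/

namespace E4

namespace TPr

variable {A : Type} [Ring A] (P : TPr A)

/-- `E φ` preserves `Λ`. PROOF: closure induction, `E_t`. -/
theorem E_lam (φ : F →* F) {p : A} (hp : p ∈ P.Lm) : P.E φ p ∈ P.Lm := by
  refine AddSubgroup.closure_induction (p := fun y _ => P.E φ y ∈ P.Lm) ?_ ?_ ?_ ?_ hp
  · rintro _ ⟨g, rfl⟩
    have h1 : P.E φ (sqe P.ρ g) = P.t (φ g) := P.E_t φ g
    rw [h1]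
    exact sqe_mem _
  · rw [map_zero]
    exact zero_mem _
  · intro y z _ _ h1 h2
    rw [map_add]
    exact add_mem h1 h2
  · intro y _ h1
    rw [map_neg]
    exact neg_mem h1

theorem E_M (φ : F →* F) {m : A} (hm : m ∈ P.M) : P.E φ m ∈ P.M := by
  refine AddSubgroup.closure_induction (p := fun y _ => P.E φ y ∈ P.M) ?_ ?_ ?_ ?_ hm
  · rintro _ ⟨l, hl, rfl⟩
    refine AddSubgroup.subset_closure ⟨l.map φ, by rwa [List.length_map], ?_⟩
    rw [map_list_prod, List.map_map, List.map_map]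
    congr 1
    refine List.map_congr_left fun g _ => ?_
    exact P.E_t φ g
  · rw [map_zero]
    exact zero_mem _
  · intro y z _ _ h1 h2
    rw [map_add]
    exact add_mem h1 h2
  · intro y _ h1
    rw [map_neg]
    exact neg_mem h1

/-- action on `Λ` -/
def EL (φ : F →* F) (p : P.Lm) : P.Lm := ⟨P.E φ p, P.E_lam φ p.2⟩

/-- action on `M` -/
def EM (φ : F →* F) (m : P.M) : P.M := ⟨P.E φ m, P.E_M φ m.2⟩

/-- `t(g)` as an element of `Λ` -/
def tL (g : F) : P.Lm := ⟨P.t g, sqe_mem g⟩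

theorem EL_tL (φ : F →* F) (g : F) : P.EL φ (P.tL g) = P.tL (φ g) := by
  exact Subtype.ext (P.E_t φ g)

theorem EL_bL (φ : F →* F) (p q : P.Lm) : P.EL φ (P.bL p q) = P.bL (P.EL φ p) (P.EL φ q) := by
  apply Subtype.ext
  show P.E φ (br (p : A) q) = br (P.E φ p) (P.E φ q)
  unfold br
  rw [map_add, map_mul, map_mul]

/-- `k` is natural.
PROOF.  By additivity in `m` (`M_ind`) let `m = t u * t v * w`; `kf_tt`: `k(a,b) m = q4 a b (t u) (t v) * w`, apply `E φ` (a ring homomorphism, `E_t`): `q4 (E a) (E b) (t (φ u)) (t (φ v)) * E w`, and again `kf_tt` (`E φ w` is a word; use `kf_tt` for arbitrary `w`). -/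
theorem E_kop (φ : F →* F) (a b : P.Lm) (m : P.M) :
    P.EM φ (P.kop a b m) = P.kop (P.EL φ a) (P.EL φ b) (P.EM φ m) := by
  have key : ∀ y ∈ P.M, ∃ hy : y ∈ P.M,
      P.EM φ (P.kop a b ⟨y, hy⟩) = P.kop (P.EL φ a) (P.EL φ b) (P.EM φ ⟨y, hy⟩) := by
    refine P.M_ind (p := fun y => ∃ hy : y ∈ P.M,
      P.EM φ (P.kop a b ⟨y, hy⟩) = P.kop (P.EL φ a) (P.EL φ b) (P.EM φ ⟨y, hy⟩)) ?_ ?_ ?_ ?_
    · refine ⟨zero_mem _, ?_⟩
      have h1 : (⟨0, zero_mem _⟩ : P.M) = 0 := rfl
      have h2 : P.EM φ 0 = 0 := Subtype.ext (map_zero _)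
      rw [h1, map_zero, h2, map_zero]
    · rintro y z ⟨hy, h1⟩ ⟨hz, h2⟩
      refine ⟨add_mem hy hz, ?_⟩
      have h3 : (⟨y + z, add_mem hy hz⟩ : P.M) = ⟨y, hy⟩ + ⟨z, hz⟩ := rfl
      have h4 : ∀ m m' : P.M, P.EM φ (m + m') = P.EM φ m + P.EM φ m' := fun m m' =>
        Subtype.ext (map_add _ _ _)
      rw [h3, map_add, h4, h4, map_add, h1, h2]
    · rintro y ⟨hy, h1⟩
      refine ⟨neg_mem hy, ?_⟩
      have h3 : (⟨-y, neg_mem hy⟩ : P.M) = -⟨y, hy⟩ := rfl
      have h4 : ∀ m : P.M, P.EM φ (-m) = -P.EM φ m := fun m => Subtype.ext (map_neg _ _)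
      rw [h3, map_neg, h4, h4, map_neg, h1]
    · intro u v l
      have hmem : ∀ (u v : F) (l : List F), P.t u * P.t v * (l.map P.t).prod ∈ P.M := by
        intro u v l
        refine AddSubgroup.subset_closure ⟨u :: v :: l, by simp, ?_⟩
        rw [List.map_cons, List.map_cons, List.prod_cons, List.prod_cons, mul_assoc]
      refine ⟨hmem u v l, ?_⟩
      apply Subtype.ext
      have h5 : P.E φ (P.t u * P.t v * (l.map P.t).prod) =
          P.t (φ u) * P.t (φ v) * P.E φ (l.map P.t).prod := by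
        rw [map_mul, map_mul, P.E_t, P.E_t]
      have h5' : P.t (φ u) * P.t (φ v) * P.E φ (l.map P.t).prod ∈ P.M := by
        rw [← h5]
        exact P.E_M φ (hmem u v l)
      have h6 : P.EM φ ⟨P.t u * P.t v * (l.map P.t).prod, hmem u v l⟩ =
          ⟨P.t (φ u) * P.t (φ v) * P.E φ (l.map P.t).prod, h5'⟩ := Subtype.ext h5
      rw [h6]
      show P.E φ (P.kf a b ⟨P.t u * P.t v * (l.map P.t).prod, hmem u v l⟩ : A) =
        (P.kf (P.EL φ a) (P.EL φ b) ⟨P.t (φ u) * P.t (φ v) * P.E φ (l.map P.t).prod, h5'⟩ : A)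
      rw [P.kf_tt, P.kf_tt, map_mul]
      congr 1
      unfold q4
      simp only [map_add, map_mul, P.E_t]
      rfl
  obtain ⟨hy, h⟩ := key m m.2
  exact h

/-- values of expressions are natural.
PROOF.  The value of a symbol is `(kop · · ) ∘ ... ∘ lm(tail)` applied to `m`; induction on the list of pairs (`val_cons`), `E_kop`, `E φ (p * m) = E φ p * E φ m`, `EL_bL`. -/
theorem E_evx (φ : F →* F) (s : List Sm) (p : ℕ → P.Lm) (m : P.M) :
    P.EM φ (evx P.K p s m) = evx P.K (fun i => P.EL φ (p i)) s (P.EM φ m) := by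
  have hadd : ∀ m m' : P.M, P.EM φ (m + m') = P.EM φ m + P.EM φ m' := fun m m' =>
    Subtype.ext (map_add _ _ _)
  have hzero : P.EM φ 0 = 0 := Subtype.ext (map_zero _)
  have htl : ∀ tl : Tl, P.EL φ (tl.val P.K p) = tl.val P.K (fun i => P.EL φ (p i)) := by
    intro tl
    cases tl with
    | one i => rfl
    | two i j => exact P.EL_bL φ (p i) (p j)
  have hsm : ∀ (ps : List (ℕ × ℕ)) (tl : Tl) (m : P.M),
      P.EM φ ((Sm.val P.K p ⟨ps, tl⟩ : P.E0) m) =
        (Sm.val P.K (fun i => P.EL φ (p i)) ⟨ps, tl⟩ : P.E0) (P.EM φ m) := by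
    intro ps tl
    induction ps with
    | nil =>
      intro m
      have h1 : ∀ p : ℕ → P.Lm, Sm.val P.K p ⟨[], tl⟩ = P.lm (tl.val P.K p) := by
        intro p
        show pval P.K p [] • P.K.l (tl.val P.K p) = P.lm (tl.val P.K p)
        have h2 : pval P.K p [] = 1 := rfl
        rw [h2, one_smul]
        rfl
      rw [h1, h1, ← htl]
      apply Subtype.ext
      exact map_mul _ _ _
    | cons ij ps ih =>
      intro m
      rw [val_cons, val_cons]
      show P.EM φ (P.kop (p ij.1) (p ij.2) ((Sm.val P.K p ⟨ps, tl⟩ : P.E0) m)) =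
        P.kop (P.EL φ (p ij.1)) (P.EL φ (p ij.2))
          ((Sm.val P.K (fun i => P.EL φ (p i)) ⟨ps, tl⟩ : P.E0) (P.EM φ m))
      rw [P.E_kop, ih]
  induction s with
  | nil =>
    show P.EM φ ((0 : P.E0) m) = (0 : P.E0) (P.EM φ m)
    exact hzero
  | cons z s ih =>
    have h1 : ∀ p : ℕ → P.Lm, evx P.K p (z :: s) = Sm.val P.K p z + evx P.K p s := by
      intro p
      unfold evx
      rw [List.map_cons, List.sum_cons]
    rw [h1, h1]
    show P.EM φ ((Sm.val P.K p z : P.E0) m + (evx P.K p s : P.E0) m) =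
      (Sm.val P.K (fun i => P.EL φ (p i)) z : P.E0) (P.EM φ m) +
        (evx P.K (fun i => P.EL φ (p i)) s : P.E0) (P.EM φ m)
    rw [hadd, ih]
    congr 1
    exact hsm z.ps z.tl m

/-- values of expressions commute with right multiplications. PROOF: `Zs` commutes with `rm g`; `lm p * rm g = rm g * lm p` (associativity). -/
theorem evx_rm (s : List Sm) (p : ℕ → P.Lm) (g : F) :
    evx P.K p s * P.rm g = P.rm g * evx P.K p s := by
  have hz : ∀ z : P.Zs, (z : P.E0) * P.rm g = P.rm g * z := fun z =>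
    ((Subring.mem_centralizer_iff).1 z.2 _ (Or.inr ⟨g, rfl⟩)).symm
  have hlm : ∀ q : P.Lm, P.lm q * P.rm g = P.rm g * P.lm q := by
    intro q
    ext m
    show (q : A) * ((m : A) * P.t g) = ((q : A) * m) * P.t g
    rw [mul_assoc]
  have hsm : ∀ (ps : List (ℕ × ℕ)) (tl : Tl),
      (Sm.val P.K p ⟨ps, tl⟩ : P.E0) * P.rm g = P.rm g * Sm.val P.K p ⟨ps, tl⟩ := by
    intro ps tl
    induction ps with
    | nil =>
      have h1 : Sm.val P.K p ⟨[], tl⟩ = P.lm (tl.val P.K p) := by
        show pval P.K p [] • P.K.l (tl.val P.K p) = P.lm (tl.val P.K p)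
        have h2 : pval P.K p [] = 1 := rfl
        rw [h2, one_smul]
        rfl
      rw [h1, hlm]
    | cons ij ps ih =>
      rw [val_cons]
      show P.kop (p ij.1) (p ij.2) * Sm.val P.K p ⟨ps, tl⟩ * P.rm g =
        P.rm g * (P.kop (p ij.1) (p ij.2) * Sm.val P.K p ⟨ps, tl⟩)
      have h2 : P.kop (p ij.1) (p ij.2) * P.rm g = P.rm g * P.kop (p ij.1) (p ij.2) :=
        hz ⟨P.kop (p ij.1) (p ij.2), P.kop_mem _ _⟩
      rw [mul_assoc, ih, ← mul_assoc, h2, mul_assoc]
  induction s with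
  | nil =>
    show (0 : P.E0) * P.rm g = P.rm g * (0 : P.E0)
    rw [zero_mul, mul_zero]
  | cons z s ih =>
    have h1 : evx P.K p (z :: s) = Sm.val P.K p z + evx P.K p s := by
      unfold evx
      rw [List.map_cons, List.sum_cons]
    rw [h1, add_mul, mul_add, ih]
    congr 1
    exact hsm z.ps z.tl

/-- If an operator commutes with all `rm g` and kills all `t(u) t(v)`, it is zero.  PROOF: `M_ind`, words `t u * t v * (l.map t).prod`: induction on `l` from the right. -/
theorem op_zero (e : P.E0) (hr : ∀ g, e * P.rm g = P.rm g * e)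
    (h : ∀ u v : F, (e ⟨P.t u * P.t v, P.tt_mem u v⟩ : A) = 0) : e = 0 := by
  have hmem : ∀ (u v : F) (l : List F), P.t u * P.t v * (l.map P.t).prod ∈ P.M := by
    intro u v l
    refine AddSubgroup.subset_closure ⟨u :: v :: l, by simp, ?_⟩
    rw [List.map_cons, List.map_cons, List.prod_cons, List.prod_cons, mul_assoc]
  have key : ∀ y ∈ P.M, ∃ hy : y ∈ P.M, e ⟨y, hy⟩ = 0 := by
    refine P.M_ind (p := fun y => ∃ hy : y ∈ P.M, e ⟨y, hy⟩ = 0) ?_ ?_ ?_ ?_
    · exact ⟨zero_mem _, map_zero e⟩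
    · rintro y z ⟨hy, h1⟩ ⟨hz, h2⟩
      refine ⟨add_mem hy hz, ?_⟩
      have h3 : (⟨y + z, add_mem hy hz⟩ : P.M) = ⟨y, hy⟩ + ⟨z, hz⟩ := rfl
      rw [h3, map_add, h1, h2, add_zero]
    · rintro y ⟨hy, h1⟩
      refine ⟨neg_mem hy, ?_⟩
      have h3 : (⟨-y, neg_mem hy⟩ : P.M) = -⟨y, hy⟩ := rfl
      rw [h3, map_neg, h1, neg_zero]
    · intro u v l
      refine ⟨hmem u v l, ?_⟩
      induction l using List.reverseRecOn with
      | nil =>
        have h1 : (⟨P.t u * P.t v * (([] : List F).map P.t).prod, hmem u v []⟩ : P.M) =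
            ⟨P.t u * P.t v, P.tt_mem u v⟩ := by
          apply Subtype.ext
          simp
        rw [h1]
        exact Subtype.ext (h u v)
      | append_singleton l g ih =>
        have h1 : (⟨P.t u * P.t v * ((l ++ [g]).map P.t).prod, hmem u v (l ++ [g])⟩ : P.M) =
            P.rm g ⟨P.t u * P.t v * (l.map P.t).prod, hmem u v l⟩ := by
          apply Subtype.ext
          show P.t u * P.t v * ((l ++ [g]).map P.t).prod = P.t u * P.t v * (l.map P.t).prod * P.t g
          rw [List.map_append, List.prod_append]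
          simp [mul_assoc]
        rw [h1]
        have h2 := congrArg (fun e' : P.E0 => e' ⟨P.t u * P.t v * (l.map P.t).prod, hmem u v l⟩)
          (hr g)
        have h3 : e (P.rm g ⟨P.t u * P.t v * (l.map P.t).prod, hmem u v l⟩) =
            P.rm g (e ⟨P.t u * P.t v * (l.map P.t).prod, hmem u v l⟩) := h2
        rw [h3, ih, map_zero]
  ext m
  obtain ⟨hy, h1⟩ := key m m.2
  have h2 : (⟨(m : A), hy⟩ : P.M) = m := rfl
  rw [h2] at h1
  rw [h1]
  rfl

/-- A `Good` expression which vanishes on all tuples `t ∘ g` vanishes on all tuples.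
PROOF.  Only the letters `< n` matter.  Replace the letters one after the other: by induction on `j ≤ n`: for all `p : ℕ → Λ` such that `p i` is of the form `tL (g i)` for `i ≥ j` the value is zero; step: additivity in the letter `j` (`evx_add`) and closure induction for `p j ∈ Λ`
(value of `Function.update p j u` is zero for `u = tL g`; additive in `u`, so zero for all `u`). -/
theorem evx_ext {n : ℕ} (s : List Sm) (hs : Good n s)
    (h : ∀ g : ℕ → F, evx P.K (fun i => P.tL (g i)) s = 0) (p : ℕ → P.Lm) : evx P.K p s = 0 := by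
  have hadd : ∀ (j : ℕ), j < n → ∀ q : ℕ → P.Lm,
      (∀ g, evx P.K (Function.update q j (P.tL g)) s = 0) → evx P.K q s = 0 := by
    intro j hj q hq
    have h0 : evx P.K (Function.update q j 0) s = 0 := by
      have h1 := evx_add P.K s hs j hj q 0 0
      rw [add_zero] at h1
      exact left_eq_add.1 h1
    have h2 : ∀ u : P.Lm, evx P.K (Function.update q j u) s = 0 := by
      rintro ⟨u, hu⟩
      refine AddSubgroup.closure_induction
        (p := fun y hy => evx P.K (Function.update q j (⟨y, hy⟩ : P.Lm)) s = 0) ?_ h0 ?_ ?_ hu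
      · rintro _ ⟨g, rfl⟩
        exact hq g
      · intro y z hy hz h1 h2
        have h3 := evx_add P.K s hs j hj q (⟨y, hy⟩ : P.Lm) ⟨z, hz⟩
        rw [h1, h2, add_zero] at h3
        exact h3
      · intro y hy h1
        have h3 : (⟨-y, neg_mem hy⟩ : P.Lm) = ⟨y, hy⟩ :=
          neg_eq_of_add_eq_zero_left (P.K.two_L ⟨y, hy⟩)
        rw [h3]
        exact h1
    have h3 := h2 (q j)
    rwa [Function.update_eq_self] at h3
  have key : ∀ j ≤ n, ∀ q : ℕ → P.Lm, (∀ i, j ≤ i → ∃ g, q i = P.tL g) → evx P.K q s = 0 := by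
    intro j
    induction j with
    | zero =>
      intro _ q hq
      choose g hg using fun i => hq i (Nat.zero_le i)
      have h1 : q = fun i => P.tL (g i) := funext hg
      rw [h1]
      exact h g
    | succ j ih =>
      intro hj q hq
      refine hadd j (by omega) q fun g => ih (by omega) _ fun i hi => ?_
      by_cases hij : i = j
      · subst hij
        exact ⟨g, Function.update_self _ _ _⟩
      · rw [Function.update_of_ne hij]
        exact hq i (by omega)
  have h1 : evx P.K p s = evx P.K (fun i => if i < n then p i else P.tL 1) s := by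
    refine evx_congr P.K s hs _ _ fun i hi => ?_
    rw [if_pos hi]
  rw [h1]
  refine key n le_rfl _ fun i hi => ⟨1, ?_⟩
  rw [if_neg (by omega)]

/-- `l(p) = 0` only for `p = 0`.  PROOF: `p * m = 0` for all `m ∈ M`, `tt_right_zero`. -/
theorem lm_inj {p : P.Lm} (h : P.lm p = 0) : p = 0 := by
  apply Subtype.ext
  refine P.tt_right_zero (p : A) fun c d => ?_
  have h1 := congrArg (fun e : P.E0 => (e ⟨P.t c * P.t d, P.tt_mem c d⟩ : A)) h
  exact h1

/-- PROOF: `br_ne` and `lm_inj`. -/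
theorem K_br_ne : ∃ p q, P.K.l (P.K.b p q) ≠ 0 := by
  obtain ⟨g, h, hgh⟩ := P.br_ne
  refine ⟨P.tL g, P.tL h, fun h1 => hgh ?_⟩
  exact congrArg Subtype.val (P.lm_inj h1)

end TPr

end E4
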