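import Pool.Agent.Lib.MP_8a95e3_al.TId

/-!
# TPrime : a maximal insoluble T-ideal is T-prime
-/

namespace E4

private theorem TPrime_X (φ : F →* F) (h : F) : eA φ (X ofF h) = X ofF (φ h) := by
  unfold X
  rw [map_add, eA_of, map_one]

private theorem TPrime_ind {q : FA → Prop} (h1 : ∀ g, q (ofF g)) (h0 : q 0) (ha : ∀ a b, q a → q b → q (a + b))
    (hn : ∀ a, q a → q (-a)) (a : FA) : q a := by
  have h2 : a ∈ AddSubgroup.closure (Set.range ofF) := by
    rw [show AddSubgroup.closure (Set.range ofF) = ⊤ from fa_spn]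
    trivial
  induction h2 using AddSubgroup.closure_induction with
  | mem y hy =>
    obtain ⟨g, rfl⟩ := hy
    exact h1 g
  | zero => exact h0
  | add a b _ _ iha ihb => exact ha a b iha ihb
  | neg a _ iha => exact hn a iha

private theorem TPrime_comp (θ φ : F →* F) (f : FA) : eA θ (eA φ f) = eA (θ.comp φ) f := by
  refine TPrime_ind (q := fun f => eA θ (eA φ f) = eA (θ.comp φ) f) (fun g => ?_) ?_ ?_ ?_ f
  · rw [eA_of, eA_of, eA_of]
    rfl
  · rw [map_zero, map_zero, map_zero]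
  · intro a b ha hb
    rw [map_add, map_add, map_add, ha, hb]
  · intro a ha
    rw [map_neg, map_neg, map_neg, ha]

private theorem TPrime_id (f : FA) : eA (MonoidHom.id F) f = f := by
  refine TPrime_ind (q := fun f => eA (MonoidHom.id F) f = f) (fun g => ?_) ?_ ?_ ?_ f
  · rw [eA_of]
    rfl
  · exact map_zero _
  · intro a b ha hb
    rw [map_add, ha, hb]
  · intro a ha
    rw [map_neg, ha]

private theorem TPrime_conj (φ : F →* F) (h : F) (f : FA) :
    eA φ f * ofF h = ofF h * eA ((MulAut.conj h⁻¹).toMonoidHom.comp φ) f := by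
  refine TPrime_ind (q := fun f => eA φ f * ofF h = ofF h * eA ((MulAut.conj h⁻¹).toMonoidHom.comp φ) f)
    (fun g => ?_) ?_ ?_ ?_ f
  · rw [eA_of, eA_of, ← map_mul, ← map_mul]
    congr 1
    show φ g * h = h * (h⁻¹ * φ g * h⁻¹⁻¹)
    group
  · rw [map_zero, map_zero, zero_mul, mul_zero]
  · intro a b ha hb
    rw [map_add, map_add, add_mul, mul_add, ha, hb]
  · intro a ha
    rw [map_neg, map_neg, neg_mul, mul_neg, ha]

/-- the generators of the second part -/
private def TPrime_G (f : FA) : Set FA := {y | ∃ a b : FA, ∃ φ : F →* F, y = a * eA φ f * b}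

private theorem TPrime_G_left (f a p : FA) (hp : p ∈ AddSubgroup.closure (TPrime_G f)) :
    a * p ∈ AddSubgroup.closure (TPrime_G f) := by
  induction hp using AddSubgroup.closure_induction with
  | mem y hy =>
    obtain ⟨u, v, φ, rfl⟩ := hy
    exact AddSubgroup.subset_closure ⟨a * u, v, φ, by rw [← mul_assoc, ← mul_assoc]⟩
  | zero =>
    rw [mul_zero]
    exact zero_mem _
  | add y z _ _ ihy ihz =>
    rw [mul_add]
    exact add_mem ihy ihz
  | neg y _ ihy =>
    rw [mul_neg]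
    exact neg_mem ihy

private theorem TPrime_G_right (f a p : FA) (hp : p ∈ AddSubgroup.closure (TPrime_G f)) :
    p * a ∈ AddSubgroup.closure (TPrime_G f) := by
  induction hp using AddSubgroup.closure_induction with
  | mem y hy =>
    obtain ⟨u, v, φ, rfl⟩ := hy
    exact AddSubgroup.subset_closure ⟨u, v * a, φ, by rw [mul_assoc]⟩
  | zero =>
    rw [zero_mul]
    exact zero_mem _
  | add y z _ _ ihy ihz =>
    rw [add_mul]
    exact add_mem ihy ihz
  | neg y _ ihy =>
    rw [neg_mul]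
    exact neg_mem ihy

private theorem TPrime_G_endo (f p : FA) (ψ : F →* F) (hp : p ∈ AddSubgroup.closure (TPrime_G f)) :
    eA ψ p ∈ AddSubgroup.closure (TPrime_G f) := by
  induction hp using AddSubgroup.closure_induction with
  | mem y hy =>
    obtain ⟨u, v, φ, rfl⟩ := hy
    exact AddSubgroup.subset_closure ⟨eA ψ u, eA ψ v, ψ.comp φ, by rw [map_mul, map_mul, TPrime_comp]⟩
  | zero =>
    rw [map_zero]
    exact zero_mem _
  | add y z _ _ ihy ihz =>
    rw [map_add]
    exact add_mem ihy ihz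
  | neg y _ ihy =>
    rw [map_neg]
    exact neg_mem ihy

/-- `wA` is multiplicative: `w_{a+b} = w_a * (shift of w_b)`.  PROOF: `List.range_add`, `map_list_prod`; `sh` is the endomorphism `x_j ↦ x_{j+2a}`. -/
theorem wA_add (a b : ℕ) :
    wA ofF (a + b) = wA ofF a * eA (FreeGroup.lift (fun j => x (j + 2 * a))) (wA ofF b) := by
  have h1 : ∀ m, wA ofF m = ((List.range m).map (fun i => X ofF (cm (x (2 * i)) (x (2 * i + 1))))).prod := fun _ => rfl
  rw [h1 (a + b), h1 a, h1 b, List.range_add, List.map_append, List.prod_append, map_list_prod, List.map_map, List.map_map]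
  congr 2
  refine List.map_congr_left fun i _ => ?_
  show X ofF (cm (x (2 * (a + i))) (x (2 * (a + i) + 1))) =
    eA (FreeGroup.lift fun j => x (j + 2 * a)) (X ofF (cm (x (2 * i)) (x (2 * i + 1))))
  rw [TPrime_X]
  have h2 : ∀ j, (FreeGroup.lift fun j => x (j + 2 * a)) (x j) = x (j + 2 * a) := fun j => FreeGroup.lift_apply_of
  unfold cm
  rw [map_mul, map_mul, map_mul, map_inv, map_inv, h2, h2]
  have h3 : 2 * (a + i) = 2 * i + 2 * a := by ring
  have h4 : 2 * (a + i) + 1 = 2 * i + 1 + 2 * a := by ring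
  rw [h4, h3]

/-- The T-ideal generated by `P` and `f`: `P ⊔ closure {a * eA φ f * b}` is a T-ideal containing `f`.  PROOF: each generator type is preserved: `eA ψ (a * eA φ f * b) = eA ψ a * eA (ψ.comp φ) f * eA ψ b`. -/
theorem gen_tidl (P : AddSubgroup FA) (hP : TIdl P) (f : FA) :
    TIdl (P ⊔ AddSubgroup.closure {y | ∃ a b : FA, ∃ φ : F →* F, y = a * eA φ f * b}) ∧
      f ∈ P ⊔ AddSubgroup.closure {y | ∃ a b : FA, ∃ φ : F →* F, y = a * eA φ f * b} := by
  show TIdl (P ⊔ AddSubgroup.closure (TPrime_G f)) ∧ f ∈ P ⊔ AddSubgroup.closure (TPrime_G f)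
  refine ⟨⟨?_, ?_, ?_, ?_, ?_⟩, ?_⟩
  · intro a p hp
    obtain ⟨p1, h1, p2, h2, rfl⟩ := AddSubgroup.mem_sup.1 hp
    rw [mul_add]
    exact AddSubgroup.mem_sup.2 ⟨_, hP.left a p1 h1, _, TPrime_G_left f a p2 h2, rfl⟩
  · intro a p hp
    obtain ⟨p1, h1, p2, h2, rfl⟩ := AddSubgroup.mem_sup.1 hp
    rw [add_mul]
    exact AddSubgroup.mem_sup.2 ⟨_, hP.right a p1 h1, _, TPrime_G_right f a p2 h2, rfl⟩
  · intro φ p hp
    obtain ⟨p1, h1, p2, h2, rfl⟩ := AddSubgroup.mem_sup.1 hp
    rw [map_add]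
    exact AddSubgroup.mem_sup.2 ⟨_, hP.endo φ p1 h1, _, TPrime_G_endo f p2 φ h2, rfl⟩
  · exact AddSubgroup.mem_sup_left hP.two
  · exact fun h => AddSubgroup.mem_sup_left (hP.cube h)
  · refine AddSubgroup.mem_sup_right (AddSubgroup.subset_closure ⟨1, 1, MonoidHom.id F, ?_⟩)
    rw [TPrime_id, one_mul, mul_one]

/-- If `eA (ee 0) f * eA (ee 1) g ∈ P`, then `eA φ f * u * eA ψ g ∈ P` for all endomorphisms `φ, ψ` and `u : FA`.
PROOF. By additivity (`fa_spn`) `u = ofF h`.  `eA φ f * ofF h = ofF h * eA (conj ∘ φ) f` where `conj w = h⁻¹ w h`.  The endomorphism `θ` with `θ x_{2i} = conj (φ x_i)`, `θ x_{2i+1} = ψ x_i` satisfies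
`θ ∘ ee 0 = conj ∘ φ`, `θ ∘ ee 1 = ψ`, so `eA (conj∘φ) f * eA ψ g = eA θ (eA (ee 0) f * eA (ee 1) g) ∈ P`. -/
theorem prod_mem (P : AddSubgroup FA) (hP : TIdl P) (f g : FA)
    (h : eA (ee 0) f * eA (ee 1) g ∈ P) (φ ψ : F →* F) (u : FA) :
    eA φ f * u * eA ψ g ∈ P := by
  refine TPrime_ind (q := fun u => eA φ f * u * eA ψ g ∈ P) (fun k => ?_) ?_ ?_ ?_ u
  · rw [TPrime_conj, mul_assoc]
    refine hP.left _ _ ?_
    obtain ⟨θ, hθ⟩ : ∃ θ : F →* F, θ = FreeGroup.lift (fun j => if j % 2 = 0 then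
      ((MulAut.conj k⁻¹).toMonoidHom.comp φ) (x (j / 2)) else ψ (x (j / 2))) := ⟨_, rfl⟩
    have hlift : ∀ (c : ℕ → F) (j : ℕ), (FreeGroup.lift c) (x j) = c j := fun c j => FreeGroup.lift_apply_of
    have h1 : θ.comp (ee 0) = (MulAut.conj k⁻¹).toMonoidHom.comp φ := by
      refine FreeGroup.ext_hom _ _ fun j => ?_
      show θ (ee 0 (x j)) = ((MulAut.conj k⁻¹).toMonoidHom.comp φ) (x j)
      unfold ee
      rw [hlift, hθ, hlift, if_pos (by omega)]
      congr 2
      omega
    have h2 : θ.comp (ee 1) = ψ := by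
      refine FreeGroup.ext_hom _ _ fun j => ?_
      show θ (ee 1 (x j)) = ψ (x j)
      unfold ee
      rw [hlift, hθ, hlift, if_neg (by omega)]
      congr 2
      omega
    have h3 := hP.endo θ _ h
    rw [map_mul, TPrime_comp, TPrime_comp, h1, h2] at h3
    exact h3
  · rw [mul_zero, zero_mul]
    exact zero_mem _
  · intro a b ha hb
    rw [mul_add, add_mul]
    exact add_mem ha hb
  · intro a ha
    rw [mul_neg, neg_mul]
    exact neg_mem ha

/-- **T-primeness.**
PROOF.  Suppose `f ∉ P`, `g ∉ P`.  By maximality and `gen_tidl` there are `a, b` with `wA ofF a ∈ P ⊔ (f)`, `wA ofF b ∈ P ⊔ (g)` where `(f) = closure {u * eA φ f * u'}`.  Write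
`wA ofF a = p + s`, `wA ofF b = p' + s'`.  Then `wA ofF (a+b) = (p + s) * eA sh (p' + s') ∈ P + s * eA sh s'`, and `eA sh s' ∈ (g)`.  The product of an element of `(f)` and an element of `(g)` is in `P`: by
additivity it is `u * eA φ f * u' * (v * eA ψ g * v')`, in `P` by `prod_mem`.  So `wA ofF (a+b) ∈ P`, contradiction. -/
theorem tprime (P : AddSubgroup FA) (hP : TIdl P) (hw : ∀ m, wA ofF m ∉ P)
    (hmax : ∀ Q : AddSubgroup FA, TIdl Q → P ≤ Q → (∀ m, wA ofF m ∉ Q) → Q ≤ P)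
    (f g : FA) (h : eA (ee 0) f * eA (ee 1) g ∈ P) : f ∈ P ∨ g ∈ P := by
  by_contra hcon
  rw [not_or] at hcon
  have key : ∀ f, f ∉ P → ∃ a, wA ofF a ∈ P ⊔ AddSubgroup.closure (TPrime_G f) := by
    intro f hf
    by_contra h1
    push Not at h1
    obtain ⟨h2, h3⟩ := gen_tidl P hP f
    exact hf (hmax _ h2 le_sup_left h1 h3)
  obtain ⟨a, ha⟩ := key f hcon.1
  obtain ⟨b, hb⟩ := key g hcon.2
  obtain ⟨p, hp, s, hs, hps⟩ := AddSubgroup.mem_sup.1 ha
  obtain ⟨p', hp', s', hs', hps'⟩ := AddSubgroup.mem_sup.1 hb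
  apply hw (a + b)
  rw [wA_add, ← hps, ← hps', map_add, add_mul, mul_add s]
  have h1 : ∀ u ∈ AddSubgroup.closure (TPrime_G f), ∀ v ∈ AddSubgroup.closure (TPrime_G g), u * v ∈ P := by
    intro u hu v hv
    induction hu using AddSubgroup.closure_induction with
    | mem y hy =>
      obtain ⟨u1, u2, φ, rfl⟩ := hy
      induction hv using AddSubgroup.closure_induction with
      | mem z hz =>
        obtain ⟨v1, v2, ψ, rfl⟩ := hz
        have h2 : u1 * eA φ f * u2 * (v1 * eA ψ g * v2) = u1 * (eA φ f * (u2 * v1) * eA ψ g) * v2 := by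
          simp only [mul_assoc]
        rw [h2]
        exact hP.right _ _ (hP.left _ _ (prod_mem P hP f g h φ ψ _))
      | zero =>
        rw [mul_zero]
        exact zero_mem _
      | add y z _ _ ihy ihz =>
        rw [mul_add]
        exact add_mem ihy ihz
      | neg y _ ihy =>
        rw [mul_neg]
        exact neg_mem ihy
    | zero =>
      rw [zero_mul]
      exact zero_mem _
    | add y z _ _ ihy ihz =>
      rw [add_mul]
      exact add_mem ihy ihz
    | neg y _ ihy =>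
      rw [neg_mul]
      exact neg_mem ihy
  exact add_mem (hP.right _ _ hp) (add_mem (hP.left _ _ (hP.endo _ _ hp')) (h1 s hs _ (TPrime_G_endo g s' _ hs')))

/-- A T-prime quotient of the group ring -/
structure TPr (A : Type) [Ring A] where
  ρ : F →* A
  cub : Cub ρ
  spn : Spn ρ
  E : (F →* F) → (A →+* A)
  E_ap : ∀ (φ : F →* F) (g : F), E φ (ρ g) = ρ (φ g)
  prime : ∀ a b : A, E (ee 0) a * E (ee 1) b = 0 → a = 0 ∨ b = 0
  insol : ∀ m, wA ρ m ≠ 0

/-- **Existence.**
PROOF.  Let `P` be as in `exists_max`, `π : FA → A` the quotient (`quo_ideal`), `ρ = π ∘ ofF`.  `two`: `π 2 = 0`; `cube`.  `spn`: image of `fa_spn`.  `E φ`: the ring endomorphism of `A` induced by `eA φ` (well defined as `eA φ (P) ≤ P`; e.g. choose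
preimages, or `RingHom.liftOfSurjective`).  `prime`: `a = π f`, `b = π g`, `E (ee 0) a * E (ee 1) b = π (eA (ee 0) f * eA (ee 1) g)`, use `tprime`.  `insol`: `wA ρ m = π (wA ofF m)`. -/
theorem exists_TPr (V : Subgroup F) (hV : Verb4 V) (hns : ¬ Sol V) :
    ∃ (A : Type) (_ : Ring A) (P : TPr A), ∀ v ∈ V, P.ρ v = 1 := by
  obtain ⟨P, hP, hPV, hPw, hmax⟩ := exists_max V hV hns
  obtain ⟨A, _, π, hπ, hker⟩ := quo_ideal P hP.left hP.right
  have hXρ : ∀ h, X ((π : FA →* A).comp ofF) h = π (X ofF h) := fun h => X_comp ofF π h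
  have hw : ∀ m, wA ((π : FA →* A).comp ofF) m = π (wA ofF m) := by
    intro m
    have h1 : wA ofF m = ((List.range m).map (fun i => X ofF (cm (x (2 * i)) (x (2 * i + 1))))).prod := rfl
    have h2 : wA ((π : FA →* A).comp ofF) m =
      ((List.range m).map (fun i => X ((π : FA →* A).comp ofF) (cm (x (2 * i)) (x (2 * i + 1))))).prod := rfl
    rw [h1, h2, map_list_prod, List.map_map]
    congr 1
    exact List.map_congr_left fun i _ => hXρ _
  have h2A : (2 : A) = 0 := by
    have h1 := (hker 2).2 hP.two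
    rwa [map_ofNat] at h1
  have hle : ∀ φ : F →* F, RingHom.ker π ≤ RingHom.ker (π.comp (eA φ)) := by
    intro φ p hp
    rw [RingHom.mem_ker] at hp ⊢
    exact (hker _).2 (hP.endo φ p ((hker p).1 hp))
  have hE : ∀ (φ : F →* F) (p : FA), (π.liftOfSurjective hπ ⟨π.comp (eA φ), hle φ⟩) (π p) = π (eA φ p) := fun φ p =>
    RingHom.liftOfRightInverse_comp_apply π _ _ ⟨π.comp (eA φ), hle φ⟩ p
  refine ⟨A, inferInstance, ⟨(π : FA →* A).comp ofF, ⟨h2A, fun h => ?_⟩, ?_,
    fun φ => π.liftOfSurjective hπ ⟨π.comp (eA φ), hle φ⟩, fun φ g => ?_, fun a b hab => ?_, fun m => ?_⟩, fun v hv => ?_⟩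
  · rw [hXρ, ← map_pow]
    exact (hker _).2 (hP.cube h)
  · unfold Spn
    rw [eq_top_iff]
    intro r _
    obtain ⟨p, rfl⟩ := hπ r
    refine TPrime_ind (q := fun p => π p ∈ AddSubgroup.closure (Set.range ((π : FA →* A).comp ofF))) (fun g => ?_) ?_ ?_ ?_ p
    · exact AddSubgroup.subset_closure ⟨g, rfl⟩
    · rw [map_zero]
      exact zero_mem _
    · intro a b ha hb
      rw [map_add]
      exact add_mem ha hb
    · intro a ha
      rw [map_neg]
      exact neg_mem ha
  · show (π.liftOfSurjective hπ ⟨π.comp (eA φ), hle φ⟩) (π (ofF g)) = π (ofF (φ g))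
    rw [hE, eA_of]
  · obtain ⟨f, rfl⟩ := hπ a
    obtain ⟨g, rfl⟩ := hπ b
    rw [hE, hE, ← map_mul] at hab
    exact (tprime P hP hPw hmax f g ((hker _).1 hab)).imp (hker f).2 (hker g).2
  · rw [hw]
    intro h1
    exact hPw m ((hker _).1 h1)
  · have h1 := (hker _).2 (hPV v hv)
    unfold X at h1
    rw [map_add, map_one] at h1
    have h3 : (1 : A) + 1 = 0 := by
      rw [one_add_one_eq_two]
      exact h2A
    show π (ofF v) = 1
    exact add_right_cancel (h1.trans h3.symm)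

end E4
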