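import Pool.Agent.Lib.MP_8a95e3_al.T1
import Pool.Agent.Lib.MP_8a95e3_al.Chain
import Pool.Agent.Lib.MP_8a95e3_al.GInEx

/-!
# Thm2 : the product of two insoluble verbal subgroups is insoluble
-/

open scoped commutatorElement

namespace E4

/-- PROOF: `sqe_mid_spn` (`P.spn`). -/
theorem TPr.ht {A : Type} [Ring A] (P : TPr A) : HT P.ρ :=
  ⟨P.cub, fun j r => sqe_mid_spn P.cub P.spn (x j) r⟩

private theorem Thm2_fold {A : Type} [Ring A] (P : TPr A) (g : ℕ → F) (js : List ℕ) :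
    ∀ (y : A) (y' : P.Lm), P.E (TPr.hom g) y = (y' : A) →
      P.E (TPr.hom g) (js.foldl (fun y j => br y (sqe P.ρ (x j))) y)
        = ((js.foldl (fun y j => P.K.b y (P.tL (g j))) y' : P.Lm) : A) := by
  induction js with
  | nil => intro y y' h; exact h
  | cons j js ih =>
    intro y y' h
    rw [List.foldl_cons, List.foldl_cons]
    apply ih
    have h1 : P.E (TPr.hom g) (sqe P.ρ (x j)) = P.t (g j) := by
      have h2 := P.E_t (TPr.hom g) (x j)
      rw [TPr.hom_x] at h2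
      exact h2
    show P.E (TPr.hom g) (y * sqe P.ρ (x j) + sqe P.ρ (x j) * y)
      = (y' : A) * P.t (g j) + P.t (g j) * (y' : A)
    rw [map_add, map_mul, map_mul, h1, h]

private theorem Thm2_rlie {A : Type} [Ring A] (P : TPr A) (g : ℕ → F) (js : List ℕ) :
    P.E (TPr.hom g) (rlie (fun j => sqe P.ρ (x j)) js)
      = ((lie P.K (fun i => P.tL (g i)) js : P.Lm) : A) := by
  refine Thm2_fold P g js _ _ ?_
  have h2 := P.E_t (TPr.hom g) (x 0)
  rw [TPr.hom_x] at h2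
  exact h2

/-- evaluation at arbitrary tuples: if `Σ_{λ∈M} rlie T λ = 0` in `A` (`T_j = t(x_j)`), then `Σ_{λ∈M} lie K (tL ∘ g) λ = 0` for all `g`.
PROOF.  Apply the ring homomorphism `E (hom g)`: `E (hom g) (sqe ρ (x j)) = t (g j)`, it maps `rlie T λ` to `rlie (t ∘ g) λ`, which is the coercion of `lie K (tL ∘ g) λ` (`K.b = bL`, coercion of `bL` is `br`). -/
theorem TPr.lie_eval {A : Type} [Ring A] (P : TPr A) (Ms : List (List ℕ)) (g : ℕ → F) :
    P.E (TPr.hom g) ((Ms.map (rlie (fun j => sqe P.ρ (x j)))).sum)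
      = (((Ms.map (lie P.K (fun i => P.tL (g i)))).sum : P.Lm) : A) := by
  induction Ms with
  | nil =>
    rw [List.map_nil, List.map_nil, List.sum_nil, List.sum_nil, map_zero]
    rfl
  | cons js Ms ih =>
    rw [List.map_cons, List.map_cons, List.sum_cons, List.sum_cons, map_add, ih, Thm2_rlie P g js]
    rfl

private theorem Thm2_rX {A : Type} [Ring A] (P : TPr A) (m : ℕ) (g : ℕ → F) :
    P.E (TPr.hom g) (rX (fun j => sqe P.ρ (x j)) m)
      = ((XX P.K (fun i => P.tL (g i)) m : P.Lm) : A) := by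
  have ht : ∀ j, P.E (TPr.hom g) (sqe P.ρ (x j)) = P.t (g j) := by
    intro j
    have h2 := P.E_t (TPr.hom g) (x j)
    rw [TPr.hom_x] at h2
    exact h2
  induction m with
  | zero => exact ht 0
  | succ m ih =>
    show P.E (TPr.hom g) (br (rX (fun j => sqe P.ρ (x j)) m)
        (br (sqe P.ρ (x (2 * m + 1))) (sqe P.ρ (x (2 * m + 2)))))
      = br ((XX P.K (fun i => P.tL (g i)) m : P.Lm) : A) (br (P.t (g (2 * m + 1))) (P.t (g (2 * m + 2))))
    unfold br
    rw [map_add, map_mul, map_mul, map_add, map_mul, map_mul, ih, ht, ht]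

theorem TPr.AA_eval {A : Type} [Ring A] (P : TPr A) (m : ℕ) (g : ℕ → F) :
    P.E (TPr.hom g) (rA (fun j => sqe P.ρ (x j)) m)
      = ((AA P.K (fun i => P.tL (g i)) m : P.Lm) : A) := by
  have ht : ∀ j, P.E (TPr.hom g) (sqe P.ρ (x j)) = P.t (g j) := by
    intro j
    have h2 := P.E_t (TPr.hom g) (x j)
    rw [TPr.hom_x] at h2
    exact h2
  show P.E (TPr.hom g) (br (rX (fun j => sqe P.ρ (x j)) m) (sqe P.ρ (x (2 * m + 1))))
    = br ((XX P.K (fun i => P.tL (g i)) m : P.Lm) : A) (P.t (g (2 * m + 1)))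
  unfold br
  rw [map_add, map_mul, map_mul, Thm2_rX P m g, ht]

/-- an expression for a sum of full Lie monomials.  PROOF: `lie_ex` for each list (`0 ::ₘ range' 1 (2m+1) = range (2m+2)`), append; `K.l` is additive. -/
theorem full_ex (m : ℕ) (Ms : List (List ℕ))
    (hM : ∀ js ∈ Ms, (js : Multiset ℕ) = ((List.range' 1 (2 * m + 1) : List ℕ) : Multiset ℕ)) :
    ∃ s : List Sm, Good (2 * m + 2) s ∧
      ∀ {L Z E : Type} [AddCommGroup L] [CommRing Z] [AddCommGroup E] [Module Z E]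
        (K : KAlg L Z E) (p : ℕ → L), K.l ((Ms.map (lie K p)).sum) = evx K p s := by
  induction Ms with
  | nil =>
    refine ⟨[], fun z hz => ?_, ?_⟩
    · exact absurd hz List.not_mem_nil
    · intro L Z E _ _ _ _ K p
      exact K.l_zero
  | cons js Ms ih =>
    obtain ⟨s, hs, hev⟩ := ih (fun js' hj => hM js' (List.mem_cons_of_mem _ hj))
    obtain ⟨s', hs', hev'⟩ := lie_ex js
    refine ⟨s' ++ s, ?_, ?_⟩
    · intro z hz
      rcases List.mem_append.1 hz with h | h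
      · rw [hs' z h, hM js List.mem_cons_self]
        show ((0 :: List.range' 1 (2 * m + 1) : List ℕ) : Multiset ℕ) = ((List.range (2 * m + 2) : List ℕ) : Multiset ℕ)
        have h1 : (0 :: List.range' 1 (2 * m + 1) : List ℕ) = List.range (2 * m + 2) := by
          rw [List.range_eq_range']
          rfl
        rw [h1]
      · exact hs z h
    · intro L Z E _ _ _ _ K p
      rw [List.map_cons, List.sum_cons, K.l_add, hev K p, hev' K p, evx_append]

/-- **Theorem 2.**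
PROOF.  Suppose `Sol (V₁ ⊔ V₂)`.  By `sol_lcs` (`verb_sup`) `lcs (commutator F) k ≤ V₁ ⊔ V₂`, so `om (k+1) ∈ V₁ ⊔ V₂` (`om_mem`); put `m = k+1`.  `split`, `kl_om`: `om m = n₁ n₂`.  `eval_ker` for `n₁`: list `N`; `Ms = full m N`.
`exists_TPr` for `V₁`: `(A₁,P₁)`, for `V₂`: `(A₂,P₂)`.  `full_zero` (`P₁.ht`, `V₁ ∋ n₁`): the sum over `Ms` vanishes in `A₁`; `full_om` (`V₂ ∋ n₂`): in `A₂` it is `rA m`.
Let `s` be the expression of `full_ex`.  In `K₁ = P₁.K`: `evx K₁ (tL ∘ g) s = K.l (Σ lie) = 0` for all `g` by `lie_eval`, so `evx K₁ p s = 0` for all `p` (`evx_ext`).  In `K₂`: let `e` be the expression of `AA_ex m`: `evx K₂ (tL ∘ g) (s ++ e) = l(Σ lie) + l(AA m) = 0` (characteristic two), so it is zero for all `p` (`evx_ext`),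
i.e. `evx K₂ p s = l(AA m)`.  `chain` with `t1p`, `K_br_ne` gives `False`. -/
theorem thm2 {V₁ V₂ : Subgroup F} (h₁ : Verb4 V₁) (h₂ : Verb4 V₂) (i₁ : ¬ Sol V₁)
    (i₂ : ¬ Sol V₂) : ¬ Sol (V₁ ⊔ V₂) := by
  intro hsol
  obtain ⟨k, hk⟩ := sol_lcs (verb_sup h₁ h₂) hsol
  have hmem : om (k + 1) ∈ V₁ ⊔ V₂ := hk (om_mem k)
  obtain ⟨n₁, hn₁, n₂, hn₂, hk₁, -, hom⟩ := split h₁ h₂ hmem (kl_om (k + 1))
  obtain ⟨N, hN⟩ := eval_ker n₁ hk₁
  obtain ⟨A₁, _, P₁, hv₁⟩ := exists_TPr V₁ h₁ i₁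
  obtain ⟨A₂, _, P₂, hv₂⟩ := exists_TPr V₂ h₂ i₂
  have hz := full_zero P₁.ht h₁ hv₁ hn₁ (k + 1) N hN
  have ho := full_om P₂.ht h₂ hv₂ hn₂ hom N hN
  have hM : ∀ js ∈ full (k + 1) N,
      (js : Multiset ℕ) = ((List.range' 1 (2 * (k + 1) + 1) : List ℕ) : Multiset ℕ) := by
    intro js hjs
    unfold full at hjs
    have h3 := (List.mem_filter.1 hjs).2
    exact of_decide_eq_true h3
  obtain ⟨s, hs, hev⟩ := full_ex (k + 1) (full (k + 1) N) hM
  obtain ⟨e, he, heve⟩ := AA_ex (k + 1)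
  have z₁ : ∀ p, evx P₁.K p s = 0 := by
    refine P₁.evx_ext s hs fun g => ?_
    rw [← hev P₁.K]
    have h4 := P₁.lie_eval (full (k + 1) N) g
    rw [hz, map_zero] at h4
    have h5 : ((full (k + 1) N).map (lie P₁.K (fun i => P₁.tL (g i)))).sum = 0 := Subtype.ext h4.symm
    rw [h5]
    exact P₁.K.l_zero
  have z₂' : ∀ p, evx P₂.K p (s ++ e) = 0 := by
    refine P₂.evx_ext (n := 2 * (k + 1) + 2) (s ++ e) ?_ fun g => ?_
    · intro z hz'
      rcases List.mem_append.1 hz' with h | h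
      · exact hs z h
      · exact he z h
    · rw [evx_append, ← hev P₂.K, ← heve P₂.K]
      have h4 := P₂.lie_eval (full (k + 1) N) g
      rw [ho, P₂.AA_eval (k + 1) g] at h4
      have h5 : ((full (k + 1) N).map (lie P₂.K (fun i => P₂.tL (g i)))).sum
          = AA P₂.K (fun i => P₂.tL (g i)) (k + 1) := Subtype.ext h4.symm
      rw [h5]
      exact P₂.K.two_E _
  have z₂ : ∀ p, evx P₂.K p s = P₂.K.l (AA P₂.K p (k + 1)) := by
    intro p
    have h6 := z₂' p
    rw [evx_append] at h6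
    rw [heve P₂.K p]
    have h7 := P₂.K.two_E (evx P₂.K p e)
    calc evx P₂.K p s = evx P₂.K p s + (evx P₂.K p e + evx P₂.K p e) := by rw [h7, add_zero]
      _ = (evx P₂.K p s + evx P₂.K p e) + evx P₂.K p e := by rw [add_assoc]
      _ = evx P₂.K p e := by rw [h6, zero_add]
  exact chain P₁.K P₂.K P₁.t1p P₂.t1p P₁.K_br_ne P₂.K_br_ne (k + 1) s hs z₁ z₂

end E4
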