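import Pool.Agent.Lib.MP_8a95e3_al.Thm2
import Pool.Agent.Lib.MP_8a95e3_al.DWord

/-!
# WW : the union of all insoluble verbal subgroups
-/

open scoped commutatorElement

namespace E4

/-- the verbal closure is verbal. PROOF: closed under endomorphisms by construction (image of a generator is a generator); contains fourth powers: `w^4 = φ (x 0 ^ 4)`. -/
theorem vcl_verb {S : Set F} (h : x 0 ^ 4 ∈ S) : Verb4 (vcl S) := by
  constructor
  · intro φ w hw
    rw [vcl] at hw
    induction hw using Subgroup.closure_induction with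
    | mem y hy =>
      obtain ⟨s, hs, ψ, rfl⟩ := hy
      exact Subgroup.subset_closure ⟨s, hs, φ.comp ψ, rfl⟩
    | one => rw [map_one]; exact Subgroup.one_mem _
    | mul a b _ _ iha ihb => rw [map_mul]; exact Subgroup.mul_mem _ iha ihb
    | inv a _ iha => rw [map_inv]; exact Subgroup.inv_mem _ iha
  · intro w
    refine Subgroup.subset_closure ⟨x 0 ^ 4, h, FreeGroup.lift (fun _ => w), ?_⟩
    rw [map_pow, x, FreeGroup.lift_apply_of]

/-- PROOF: `φ = id`. -/
theorem subset_vcl (S : Set F) : S ⊆ vcl S := by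
  intro s hs
  exact Subgroup.subset_closure ⟨s, hs, MonoidHom.id F, rfl⟩

theorem vcl_le {S : Set F} {V : Subgroup F} (hV : Verb4 V) (h : S ⊆ V) : vcl S ≤ V := by
  rw [vcl, Subgroup.closure_le]
  rintro w ⟨s, hs, φ, rfl⟩
  exact hV.endo φ s (h hs)

/-- the subgroup `W` -/
def WW : Subgroup F := sSup ({V : Subgroup F | Verb4 V ∧ ¬ Sol V} ∪ {vcl {x 0 ^ 4}})

/-- If there is an insoluble verbal subgroup then every element of `WW` is in an insoluble verbal subgroup.
PROOF.  The set of insoluble verbal subgroups is nonempty and directed (`thm2`, `verb_sup`), and each contains `vcl {x 0 ^ 4}` (`vcl_le`); so `WW = sSup` of a directed nonempty set (`Subgroup.mem_sSup_of_directedOn`). -/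
theorem mem_WW (hne : ∃ V : Subgroup F, Verb4 V ∧ ¬ Sol V) {w : F} (hw : w ∈ WW) :
    ∃ V : Subgroup F, Verb4 V ∧ ¬ Sol V ∧ w ∈ V := by
  have hle : WW ≤ sSup {V : Subgroup F | Verb4 V ∧ ¬ Sol V} := by
    rw [WW]
    apply sSup_le
    rintro V (hV | hV)
    · exact le_sSup hV
    · rw [Set.mem_singleton_iff] at hV
      subst hV
      obtain ⟨V, hV, hs⟩ := hne
      refine (vcl_le hV ?_).trans (le_sSup (show V ∈ {V : Subgroup F | Verb4 V ∧ ¬ Sol V} from ⟨hV, hs⟩))
      intro w hw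
      rw [Set.mem_singleton_iff] at hw
      subst hw
      exact hV.four _
  have hw' := hle hw
  have hne' : {V : Subgroup F | Verb4 V ∧ ¬ Sol V}.Nonempty := hne
  have hdir : DirectedOn (· ≤ ·) {V : Subgroup F | Verb4 V ∧ ¬ Sol V} := by
    rintro V₁ ⟨h₁, i₁⟩ V₂ ⟨h₂, i₂⟩
    exact ⟨V₁ ⊔ V₂, ⟨verb_sup h₁ h₂, thm2 h₁ h₂ i₁ i₂⟩, le_sup_left, le_sup_right⟩
  rw [Subgroup.mem_sSup_of_directedOn hne' hdir] at hw'
  obtain ⟨V, ⟨hV, hs⟩, hwV⟩ := hw'
  exact ⟨V, hV, hs, hwV⟩

/-- PROOF.  Endomorphisms: if there is an insoluble verbal subgroup use `mem_WW`; otherwise `WW = vcl {x 0 ^ 4}`.  (Or: a supremum of fully invariant subgroups is fully invariant: `Subgroup.map_iSup`.)  Fourth powers are in `vcl {x 0 ^ 4} ≤ WW`. -/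
theorem WW_verb : Verb4 WW := by
  constructor
  · intro φ w hw
    by_cases hne : ∃ V : Subgroup F, Verb4 V ∧ ¬ Sol V
    · obtain ⟨V, hV, hs, hwV⟩ := mem_WW hne hw
      have hle : V ≤ WW := le_sSup (Or.inl ⟨hV, hs⟩)
      exact hle (hV.endo φ w hwV)
    · have hle : WW ≤ vcl {x 0 ^ 4} := by
        apply sSup_le
        rintro V (hV | hV)
        · exact absurd ⟨V, hV⟩ hne
        · rw [Set.mem_singleton_iff] at hV
          exact hV.le
      have hle' : vcl {x 0 ^ 4} ≤ WW := le_sSup (Or.inr rfl)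
      exact hle' ((vcl_verb (Set.mem_singleton _)).endo φ w (hle hw))
  · intro w
    have hle' : vcl {x 0 ^ 4} ≤ WW := le_sSup (Or.inr rfl)
    exact hle' ((vcl_verb (Set.mem_singleton _)).four w)

/-- PROOF: an insoluble verbal subgroup is contained in `WW`. -/
theorem sol_of_not_le {V : Subgroup F} (hV : Verb4 V) (h : ¬ V ≤ WW) : Sol V := by
  by_contra hs
  exact h (le_sSup (Or.inl ⟨hV, hs⟩))

/-- PROOF.  Suppose `derivedSeries F d ≤ WW`.  `dl d ∈ WW`, so `dl d ∈ V` with `V` insoluble verbal (`mem_WW`); `dser_le_verb` gives `derivedSeries F d ≤ V`, so `Sol V`. -/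
theorem WW_insol (hne : ∃ V : Subgroup F, Verb4 V ∧ ¬ Sol V) : ¬ Sol WW := by
  rintro ⟨d, hd⟩
  obtain ⟨V, hV, hs, hdV⟩ := mem_WW hne (hd (dl_mem d))
  exact hs ⟨d, dser_le_verb hV d hdV⟩

/-- the laws of a group of exponent 4 -/
def lawG (G : Type) [Group G] : Subgroup F where
  carrier := {w | ∀ f : F →* G, f w = 1}
  one_mem' := by
    intro f
    exact map_one f
  mul_mem' := by
    intro a b ha hb f
    rw [map_mul, ha f, hb f, one_mul]
  inv_mem' := by
    intro a ha f
    rw [map_inv, ha f, inv_one]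

theorem lawG_verb {G : Type} [Group G] (h4 : Exp4 G) : Verb4 (lawG G) := by
  constructor
  · intro φ w hw f
    exact hw (f.comp φ)
  · intro w f
    rw [map_pow]
    exact h4 _

/-- PROOF.  If `derivedSeries F d ≤ lawG G` then `f (dl d) = 1` for all `f : F →* G`, so `derivedSeries G d = ⊥` by `dser_le`. -/
theorem lawG_sol {G : Type} [Group G] (h : Sol (lawG G)) : IsSolvable G := by
  obtain ⟨d, hd⟩ := h
  refine ⟨⟨d, ?_⟩⟩
  rw [eq_bot_iff]
  refine (dser_le d).trans ?_
  rw [Subgroup.closure_le]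
  rintro g ⟨f, rfl⟩
  have h1 : f (dl d) = 1 := hd (dl_mem d) f
  rw [h1]
  exact Subgroup.one_mem _

end E4
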