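import Pool.Agent.Lib.MP_8a95e3_al.XD

/-!
# X01 : values of the endomorphisms, functoriality of `eB`
-/

noncomputable section

namespace E4.X

open E4

@[simp] theorem eB_o (φ : F →* F) (g : F) : eB φ (o g) = o (φ g) := by
  simp [eB, o, MonoidAlgebra.of_apply, MonoidAlgebra.mapDomainRingHom_apply,
    MonoidAlgebra.mapDomain_single]

@[simp] theorem eB_C (φ : F →* F) (g : F) : eB φ (C g) = C (φ g) := by
  simp [C]

@[simp] theorem eB_T (φ : F →* F) (g : F) : eB φ (T g) = T (φ g) := by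
  simp [T]

private theorem X01_ind {p : FB → Prop} (h1 : ∀ g, p (o g)) (h0 : p 0)
    (h2 : ∀ a b, p a → p b → p (a + b)) (f : FB) : p f := by
  induction f using MonoidAlgebra.induction_on with
  | of g => exact h1 g
  | add a b ha hb => exact h2 a b ha hb
  | smul c a ha =>
      have hc : c = 0 ∨ c = 1 := by
        revert c
        decide
      rcases hc with rfl | rfl
      · rw [zero_smul]
        exact h0
      · rw [one_smul]
        exact ha

/-- PROOF: both sides are ring homomorphisms which agree on `o g`; induction as in `E4.ev_eA` (TId.lean). -/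
theorem eB_comp (φ ψ : F →* F) (f : FB) : eB φ (eB ψ f) = eB (φ.comp ψ) f := by
  refine X01_ind (p := fun f => eB φ (eB ψ f) = eB (φ.comp ψ) f) ?_ ?_ ?_ f
  · intro g
    rw [eB_o, eB_o, eB_o]
    rfl
  · rw [map_zero, map_zero, map_zero]
  · intro a b ha hb
    rw [map_add, map_add, map_add, ha, hb]

/-- PROOF: `eB (MonoidHom.id F) f = f` by induction on `f`, and `hφ` gives `φ = MonoidHom.id F` (`FreeGroup.ext_hom`). -/
theorem eB_id (φ : F →* F) (hφ : ∀ i, φ (x i) = x i) (f : FB) : eB φ f = f := by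
  have h1 : φ = MonoidHom.id F := FreeGroup.ext_hom _ _ (fun i => hφ i)
  rw [h1]
  refine X01_ind (p := fun f => eB (MonoidHom.id F) f = f) ?_ ?_ ?_ f
  · intro g
    rw [eB_o]
    rfl
  · rw [map_zero]
  · intro a b ha hb
    rw [map_add, ha, hb]

/-- equality of endomorphisms on the letters.  PROOF: `FreeGroup.ext_hom`. -/
theorem hom_ext {φ ψ : F →* F} (h : ∀ i, φ (x i) = ψ (x i)) : φ = ψ :=
  FreeGroup.ext_hom _ _ (fun i => h i)

@[simp] theorem rp_x (j : ℕ) (g : F) (i : ℕ) : rp j g (x i) = if i = j then g else x i := by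
  simp [rp, x]

@[simp] theorem kls_x (U : Finset ℕ) (i : ℕ) : kls U (x i) = if i ∈ U then 1 else x i := by
  simp [kls, x]

@[simp] theorem ret_x (M : Finset ℕ) (i : ℕ) : ret M (x i) = if i ∈ M then x i else 1 := by
  simp [ret, x]

@[simp] theorem sqs_x (Q : Finset ℕ) (i : ℕ) : sqs Q (x i) = if i ∈ Q then x i ^ 2 else x i := by
  simp [sqs, x]

@[simp] theorem sw_x (y z i : ℕ) : sw y z (x i) = if i = y then x z else if i = z then x y else x i := by
  simp [sw, x]

theorem eB_Xl_rp_self (j : ℕ) (g : F) : eB (rp j g) (Xl j) = C g := by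
  simp [Xl]

theorem eB_Xl_rp_ne {i j : ℕ} (g : F) (h : i ≠ j) : eB (rp j g) (Xl i) = Xl i := by
  simp [Xl, h]

/-- `2 = 0` in `FB` -/
theorem fb_add_self (a : FB) : a + a = 0 := by
  rw [← two_nsmul, ← Nat.cast_smul_eq_nsmul (ZMod 2)]
  have h : ((2 : ℕ) : ZMod 2) = 0 := by decide
  rw [h, zero_smul]

theorem fb_neg (a : FB) : -a = a :=
  neg_eq_of_add_eq_zero_left (fb_add_self a)

theorem C_one : C 1 = 0 := by
  rw [C, map_one]
  exact fb_add_self 1

/-- `C (g ^ 2) = C g ^ 2` (exactly, characteristic two) -/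
theorem C_sq (g : F) : C (g ^ 2) = C g ^ 2 := by
  have h : C g ^ 2 = o g ^ 2 + 1 + (o g + o g) := by
    rw [C]
    noncomm_ring
  rw [h, fb_add_self, add_zero, C, map_pow]

/-- `C (g * h) = C g + C h + C g * C h` -/
theorem C_mul (g h : F) : C (g * h) = C g + C h + C g * C h := by
  have e : C g + C h + C g * C h = o g * o h + 1 + ((o g + o g) + (o h + o h) + (1 + 1)) := by
    rw [C, C]
    noncomm_ring
  have e1 : (1 : FB) + 1 = 0 := fb_add_self 1
  rw [e, fb_add_self (o g), fb_add_self (o h), e1, add_zero, add_zero, add_zero, C, map_mul]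

/-- `FB` is spanned by the group elements -/
theorem fb_spn : AddSubgroup.closure (Set.range o) = (⊤ : AddSubgroup FB) := by
  rw [AddSubgroup.eq_top_iff']
  intro f
  refine X01_ind (p := fun f => f ∈ AddSubgroup.closure (Set.range o)) ?_ ?_ ?_ f
  · intro g
    exact AddSubgroup.subset_closure ⟨g, rfl⟩
  · exact AddSubgroup.zero_mem _
  · intro a b ha hb
    exact AddSubgroup.add_mem _ ha hb

/-- PROOF: induction on the closure `fb_spn`. -/
theorem fb_ind {p : FB → Prop} (h1 : ∀ g, p (o g)) (h0 : p 0) (h2 : ∀ a b, p a → p b → p (a + b)) (f : FB) : p f :=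
  X01_ind h1 h0 h2 f

private theorem X01_ret_ret (M N : Finset ℕ) : (ret M).comp (ret N) = ret (M ∩ N) := by
  refine hom_ext fun i => ?_
  rw [MonoidHom.comp_apply, ret_x, ret_x]
  by_cases h1 : i ∈ N
  · rw [if_pos h1, ret_x]
    by_cases h2 : i ∈ M
    · rw [if_pos h2, if_pos (Finset.mem_inter.mpr ⟨h2, h1⟩)]
    · rw [if_neg h2, if_neg (fun h => h2 (Finset.mem_inter.mp h).1)]
  · rw [if_neg h1, map_one, if_neg (fun h => h1 (Finset.mem_inter.mp h).2)]

private theorem X01_ret_mono_F {M N : Finset ℕ} (hMN : M ⊆ N) {g : F} (h : ret M g = g) :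
    ret N g = g := by
  have h1 : (ret N).comp (ret M) = ret M := by
    rw [X01_ret_ret, Finset.inter_eq_right.mpr hMN]
  have h2 := DFunLike.congr_fun h1 g
  rw [MonoidHom.comp_apply, h] at h2
  exact h2

private theorem X01_ret_mono {M N : Finset ℕ} (hMN : M ⊆ N) {f : FB} (h : eB (ret M) f = f) :
    eB (ret N) f = f := by
  have h1 : (ret N).comp (ret M) = ret M := by
    rw [X01_ret_ret, Finset.inter_eq_right.mpr hMN]
  have h2 : eB (ret N) (eB (ret M) f) = eB (ret M) f := by
    rw [eB_comp, h1]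
  rw [h] at h2
  exact h2

private theorem X01_exists_F (g : F) : ∃ M : Finset ℕ, ret M g = g := by
  refine FreeGroup.induction_on (C := fun g => ∃ M : Finset ℕ, ret M g = g) g ?_ ?_ ?_ ?_
  · exact ⟨∅, map_one _⟩
  · intro i
    refine ⟨{i}, ?_⟩
    show ret {i} (x i) = x i
    rw [ret_x, if_pos (Finset.mem_singleton_self i)]
  · rintro i ⟨M, hM⟩
    exact ⟨M, by rw [map_inv, hM]⟩
  · rintro a b ⟨M, hM⟩ ⟨N, hN⟩
    refine ⟨M ∪ N, ?_⟩
    rw [map_mul, X01_ret_mono_F Finset.subset_union_left hM,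
      X01_ret_mono_F Finset.subset_union_right hN]

/-- every element is a function of finitely many letters.  PROOF: `fb_ind`; for `g : F` induction on the free group
(`FreeGroup.induction_on`), and `ret M' g = g` if `ret M g = g` and `M ⊆ M'`. -/
theorem exists_ret (f : FB) : ∃ M : Finset ℕ, eB (ret M) f = f := by
  refine fb_ind (p := fun f => ∃ M : Finset ℕ, eB (ret M) f = f) ?_ ?_ ?_ f
  · intro g
    obtain ⟨M, hM⟩ := X01_exists_F g
    exact ⟨M, by rw [eB_o, hM]⟩
  · exact ⟨∅, map_zero _⟩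
  · rintro a b ⟨M, hM⟩ ⟨N, hN⟩
    refine ⟨M ∪ N, ?_⟩
    rw [map_add, X01_ret_mono Finset.subset_union_left hM,
      X01_ret_mono Finset.subset_union_right hN]

/-- PROOF: `hom_ext`. -/
theorem ret_ret (M N : Finset ℕ) : (ret M).comp (ret N) = ret (M ∩ N) :=
  X01_ret_ret M N

private theorem X01_rp_ret {M : Finset ℕ} {j : ℕ} (hj : j ∉ M) (g : F) :
    (rp j g).comp (ret M) = ret M := by
  refine hom_ext fun i => ?_
  rw [MonoidHom.comp_apply, ret_x]
  by_cases h1 : i ∈ M
  · rw [if_pos h1, rp_x, if_neg (by rintro rfl; exact hj h1)]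
  · rw [if_neg h1, map_one]

/-- a letter outside `M` may be killed.  PROOF: `eB_comp`, `hom_ext`. -/
theorem kill_of_ret {M : Finset ℕ} {f : FB} (h : eB (ret M) f = f) {j : ℕ} (hj : j ∉ M) : eB (rp j 1) f = f := by
  have h2 : eB (rp j 1) (eB (ret M) f) = eB (ret M) f := by
    rw [eB_comp, X01_rp_ret hj]
  rw [h] at h2
  exact h2

/-- a letter outside `M` may be replaced by anything.  PROOF: `eB_comp`, `hom_ext`: `(rp j g).comp (ret M) = ret M`. -/
theorem rp_of_ret {M : Finset ℕ} {f : FB} (h : eB (ret M) f = f) {j : ℕ} (hj : j ∉ M) (g : F) : eB (rp j g) f = f := by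
  have h2 : eB (rp j g) (eB (ret M) f) = eB (ret M) f := by
    rw [eB_comp, X01_rp_ret hj]
  rw [h] at h2
  exact h2

/-- PROOF: `(ret N).comp (ret M) = ret M` for `M ⊆ N`. -/
theorem ret_mono {M N : Finset ℕ} (hMN : M ⊆ N) {f : FB} (h : eB (ret M) f = f) : eB (ret N) f = f :=
  X01_ret_mono hMN h

/-- the same for group elements -/
theorem ret_mono_F {M N : Finset ℕ} (hMN : M ⊆ N) {g : F} (h : ret M g = g) : ret N g = g :=
  X01_ret_mono_F hMN h

/-- PROOF: `(rp j g).comp (ret M) = ret M`. -/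
theorem rp_of_ret_F {M : Finset ℕ} {a : F} (h : ret M a = a) {j : ℕ} (hj : j ∉ M) (g : F) : rp j g a = a := by
  have h2 := DFunLike.congr_fun (X01_rp_ret hj g) a
  rw [MonoidHom.comp_apply, h] at h2
  exact h2

end E4.X
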