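import Pool.Agent.Lib.MP_8a95e3_al.X01

/-!
# X02a : ideals, T-ideals
-/

noncomputable section

namespace E4.X

open E4

/-- closed under multiplication by group elements on both sides -/
structure Bi (W : AddSubgroup FB) : Prop where
  left : ∀ (g : F), ∀ r ∈ W, o g * r ∈ W
  right : ∀ (g : F), ∀ r ∈ W, r * o g ∈ W

/-- PROOF: `fb_ind` on `a` (`W` is additive). -/
theorem Bi.mul_left {W : AddSubgroup FB} (h : Bi W) (a : FB) {r : FB} (hr : r ∈ W) : a * r ∈ W := by
  refine fb_ind (p := fun a => a * r ∈ W) ?_ ?_ ?_ a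
  · intro g
    exact h.left g r hr
  · rw [zero_mul]
    exact W.zero_mem
  · intro a b ha hb
    rw [add_mul]
    exact W.add_mem ha hb

theorem Bi.mul_right {W : AddSubgroup FB} (h : Bi W) (a : FB) {r : FB} (hr : r ∈ W) : r * a ∈ W := by
  refine fb_ind (p := fun a => r * a ∈ W) ?_ ?_ ?_ a
  · intro g
    exact h.right g r hr
  · rw [mul_zero]
    exact W.zero_mem
  · intro a b ha hb
    rw [mul_add]
    exact W.add_mem ha hb

theorem TI.bi {P : AddSubgroup FB} (h : TI P) : Bi P :=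
  ⟨fun g r hr => h.left _ r hr, fun g r hr => h.right _ r hr⟩

/-- PROOF: `AddSubgroup.closure_induction`; `o g * (o a * s * o b) = o (g * a) * s * o b` (`map_mul`). -/
theorem idl_bi (S : Set FB) : Bi (idl S) := by
  constructor
  · intro g r hr
    unfold idl at hr ⊢
    induction hr using AddSubgroup.closure_induction with
    | mem r hr =>
      obtain ⟨a, b, s, hs, rfl⟩ := hr
      refine AddSubgroup.subset_closure ⟨g * a, b, s, hs, ?_⟩
      rw [map_mul, mul_assoc (o g), mul_assoc (o g)]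
    | zero => rw [mul_zero]; exact AddSubgroup.zero_mem _
    | add a b _ _ ha hb => rw [mul_add]; exact AddSubgroup.add_mem _ ha hb
    | neg a _ ha => rw [mul_neg]; exact AddSubgroup.neg_mem _ ha
  · intro g r hr
    unfold idl at hr ⊢
    induction hr using AddSubgroup.closure_induction with
    | mem r hr =>
      obtain ⟨a, b, s, hs, rfl⟩ := hr
      refine AddSubgroup.subset_closure ⟨a, b * g, s, hs, ?_⟩
      rw [map_mul, mul_assoc (o a * s)]
    | zero => rw [zero_mul]; exact AddSubgroup.zero_mem _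
    | add a b _ _ ha hb => rw [add_mul]; exact AddSubgroup.add_mem _ ha hb
    | neg a _ ha => rw [neg_mul]; exact AddSubgroup.neg_mem _ ha

theorem Bi.sup {W W' : AddSubgroup FB} (h : Bi W) (h' : Bi W') : Bi (W ⊔ W') := by
  constructor
  · intro g r hr
    obtain ⟨a, ha, b, hb, rfl⟩ := AddSubgroup.mem_sup.mp hr
    rw [mul_add]
    exact AddSubgroup.mem_sup.mpr ⟨_, h.left g a ha, _, h'.left g b hb, rfl⟩
  · intro g r hr
    obtain ⟨a, ha, b, hb, rfl⟩ := AddSubgroup.mem_sup.mp hr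
    rw [add_mul]
    exact AddSubgroup.mem_sup.mpr ⟨_, h.right g a ha, _, h'.right g b hb, rfl⟩

/-- PROOF: `s = o 1 * s * o 1`. -/
theorem sub_idl {S : Set FB} {s : FB} (hs : s ∈ S) : s ∈ idl S :=
  AddSubgroup.subset_closure ⟨1, 1, s, hs, by rw [map_one, one_mul, mul_one]⟩

theorem idl_le {S : Set FB} {W : AddSubgroup FB} (hW : Bi W) (h : ∀ s ∈ S, s ∈ W) : idl S ≤ W := by
  unfold idl
  rw [AddSubgroup.closure_le]
  rintro r ⟨a, b, s, hs, rfl⟩
  exact hW.right b _ (hW.left a _ (h s hs))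

/-- PROOF: `AddSubgroup.closure_induction`, `eB_o`. -/
theorem eB_idl {S : Set FB} {W : AddSubgroup FB} (hW : Bi W) (φ : F →* F) (h : ∀ s ∈ S, eB φ s ∈ W) {r : FB}
    (hr : r ∈ idl S) : eB φ r ∈ W := by
  have hle : idl S ≤ W.comap (eB φ).toAddMonoidHom := by
    unfold idl
    rw [AddSubgroup.closure_le]
    rintro r ⟨a, b, s, hs, rfl⟩
    show eB φ (o a * s * o b) ∈ W
    rw [map_mul, map_mul, eB_o, eB_o]
    exact hW.right _ _ (hW.left _ _ (h s hs))
  exact hle hr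

/-- PROOF: `idl_bi`, `Bi.mul_left/right`; `eB φ (C h ^ 3) = C (φ h) ^ 3`. -/
theorem K0_TI : TI K0 where
  left := fun a _ hp => (idl_bi _).mul_left a hp
  right := fun a _ hp => (idl_bi _).mul_right a hp
  endo := by
    intro φ p hp
    refine eB_idl (idl_bi _) φ ?_ hp
    rintro s ⟨h, rfl⟩
    refine sub_idl ⟨φ h, ?_⟩
    rw [map_pow, eB_C]
  cube := fun h => sub_idl ⟨h, rfl⟩

theorem K0_le {P : AddSubgroup FB} (h : TI P) : K0 ≤ P := by
  refine idl_le h.bi ?_
  rintro s ⟨g, rfl⟩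
  exact h.cube g

theorem I1_bi (j : ℕ) : Bi (I1 j) := idl_bi _
theorem I2_bi (j : ℕ) : Bi (I2 j) := idl_bi _
theorem I3_bi (j : ℕ) : Bi (I3 j) := idl_bi _
theorem EI_bi (y z : ℕ) : Bi (EI y z) := idl_bi _

theorem NN_bi {P : AddSubgroup FB} (h : TI P) (y z : ℕ) : Bi (NN P y z) :=
  ((h.bi.sup (I2_bi y)).sup (I2_bi z)).sup (EI_bi y z)

theorem W2_bi {P : AddSubgroup FB} (h : TI P) (j : ℕ) : Bi (W2 P j) := ((idl_bi _).sup (I3_bi j)).sup h.bi

theorem W3_bi {P : AddSubgroup FB} (h : TI P) (j : ℕ) : Bi (W3 P j) := (idl_bi _).sup h.bi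

private theorem X02a_iSup_bi (Q : Finset ℕ) : Bi (⨆ q ∈ Q, I2 q) := by
  constructor
  · intro g r hr
    have hle : (⨆ q ∈ Q, I2 q) ≤ (⨆ q ∈ Q, I2 q).comap (AddMonoidHom.mulLeft (o g)) := by
      refine iSup_le fun q => iSup_le fun hq => ?_
      intro t ht
      show o g * t ∈ (⨆ q ∈ Q, I2 q)
      have h1 : I2 q ≤ ⨆ q ∈ Q, I2 q := le_iSup₂_of_le q hq le_rfl
      exact h1 ((I2_bi q).left g t ht)
    exact hle hr
  · intro g r hr
    have hle : (⨆ q ∈ Q, I2 q) ≤ (⨆ q ∈ Q, I2 q).comap (AddMonoidHom.mulRight (o g)) := by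
      refine iSup_le fun q => iSup_le fun hq => ?_
      intro t ht
      show t * o g ∈ (⨆ q ∈ Q, I2 q)
      have h1 : I2 q ≤ ⨆ q ∈ Q, I2 q := le_iSup₂_of_le q hq le_rfl
      exact h1 ((I2_bi q).right g t ht)
    exact hle hr

/-- PROOF: `Bi` passes to `⨆` (`Finset.sup`/`AddSubgroup.iSup_induction`), or induction on `Q`. -/
theorem NP_bi {P : AddSubgroup FB} (h : TI P) (Q : Finset ℕ) : Bi (NP P Q) :=
  h.bi.sup (X02a_iSup_bi Q)

theorem NP_empty (P : AddSubgroup FB) : NP P ∅ = P := by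
  simp [NP]

theorem NP_singleton (P : AddSubgroup FB) (q : ℕ) : NP P {q} = P ⊔ I2 q := by
  simp [NP]

end E4.X
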