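import Pool.Agent.Lib.MP_8a95e3_al.X02a

/-!
# X02b : degree in a letter
-/

noncomputable section

namespace E4.X

open E4

private theorem X02b_mul {S S' : Set FB} {W : AddSubgroup FB} (hW : Bi W)
    (h : ∀ s ∈ S, ∀ s' ∈ S', ∀ g : F, s * o g * s' ∈ W) {a b : FB} (ha : a ∈ idl S) (hb : b ∈ idl S') : a * b ∈ W := by
  unfold idl at ha hb
  induction ha using AddSubgroup.closure_induction with
  | mem a ha =>
    obtain ⟨u, v, s, hs, rfl⟩ := ha
    induction hb using AddSubgroup.closure_induction with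
    | mem b hb =>
      obtain ⟨u', v', s', hs', rfl⟩ := hb
      have e : o u * s * o v * (o u' * s' * o v') = o u * (s * o (v * u') * s') * o v' := by
        simp only [map_mul, mul_assoc]
      rw [e]
      exact hW.right _ _ (hW.left _ _ (h s hs s' hs' _))
    | zero => rw [mul_zero]; exact W.zero_mem
    | add b c _ _ hb hc => rw [mul_add]; exact W.add_mem hb hc
    | neg b _ hb => rw [mul_neg]; exact W.neg_mem hb
  | zero => rw [zero_mul]; exact W.zero_mem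
  | add a c _ _ ha hc => rw [add_mul]; exact W.add_mem ha hc
  | neg a _ ha => rw [neg_mul]; exact W.neg_mem ha

private theorem X02b_kill {S : Set FB} (φ : F →* F) (h : ∀ s ∈ S, eB φ s = 0) {r : FB} (hr : r ∈ idl S) :
    eB φ r = 0 := by
  have hb : Bi (⊥ : AddSubgroup FB) := by
    constructor
    · intro g r hr
      rw [AddSubgroup.mem_bot] at hr ⊢
      rw [hr, mul_zero]
    · intro g r hr
      rw [AddSubgroup.mem_bot] at hr ⊢
      rw [hr, zero_mul]
  have h1 := eB_idl hb φ (fun s hs => by rw [AddSubgroup.mem_bot]; exact h s hs) hr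
  rwa [AddSubgroup.mem_bot] at h1

private theorem X02b_Xl {φ : F →* F} {j : ℕ} (h : φ (x j) = x j) : eB φ (Xl j) = Xl j := by
  unfold Xl
  rw [eB_C, h]

theorem I2_le_I1 (j : ℕ) : I2 j ≤ I1 j := by
  refine idl_le (I1_bi j) ?_
  rintro s ⟨a, rfl⟩
  exact (I1_bi j).mul_left _ (sub_idl rfl)

theorem I3_le_I2 (j : ℕ) : I3 j ≤ I2 j := by
  refine idl_le (I2_bi j) ?_
  rintro s ⟨a, b, rfl⟩
  rw [mul_assoc _ (o b) (Xl j)]
  exact (I2_bi j).mul_right _ (sub_idl ⟨a, rfl⟩)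

/-- PROOF: closure induction in both arguments. -/
theorem mul_I1_I1 {j : ℕ} {a b : FB} (ha : a ∈ I1 j) (hb : b ∈ I1 j) : a * b ∈ I2 j := by
  refine X02b_mul (I2_bi j) ?_ ha hb
  rintro s hs s' hs' g
  rw [Set.mem_singleton_iff] at hs hs'
  rw [hs, hs']
  exact sub_idl ⟨g, rfl⟩

theorem mul_I1_I2 {j : ℕ} {a b : FB} (ha : a ∈ I1 j) (hb : b ∈ I2 j) : a * b ∈ I3 j := by
  refine X02b_mul (I3_bi j) ?_ ha hb
  rintro s hs s' ⟨u, rfl⟩ g
  rw [Set.mem_singleton_iff] at hs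
  rw [hs]
  refine sub_idl ⟨g, u, ?_⟩
  simp only [mul_assoc]

theorem mul_I2_I1 {j : ℕ} {a b : FB} (ha : a ∈ I2 j) (hb : b ∈ I1 j) : a * b ∈ I3 j := by
  refine X02b_mul (I3_bi j) ?_ ha hb
  rintro s ⟨u, rfl⟩ s' hs' g
  rw [Set.mem_singleton_iff] at hs'
  rw [hs']
  exact sub_idl ⟨u, g, rfl⟩

private theorem X02b_fox (j : ℕ) (g : F) : o g + o (rp j 1 g) ∈ I1 j := by
  induction g using FreeGroup.induction_on with
  | C1 =>
    rw [map_one (rp j 1), fb_add_self]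
    exact (I1 j).zero_mem
  | of i =>
    show o (x i) + o (rp j 1 (x i)) ∈ I1 j
    rw [rp_x]
    by_cases h : i = j
    · rw [if_pos h, map_one, h]
      exact sub_idl rfl
    · rw [if_neg h, fb_add_self]
      exact (I1 j).zero_mem
  | inv_of i ih =>
    have e : ∀ g h : F, o g⁻¹ + o h⁻¹ = o g⁻¹ * (o g + o h) * o h⁻¹ := by
      intro g h
      rw [mul_add, ← map_mul, inv_mul_cancel, map_one, add_mul, one_mul, mul_assoc, ← map_mul o h, mul_inv_cancel,
        map_one, mul_one, add_comm]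
    rw [map_inv (rp j 1), e]
    exact (I1_bi j).right _ _ ((I1_bi j).left _ _ ih)
  | mul a b ha hb =>
    have e : ∀ g h g' h' : F, o (g * h) + o (g' * h') = (o g + o g') * o h + o g' * (o h + o h') := by
      intro g h g' h'
      have h1 : (o g + o g') * o h + o g' * (o h + o h') = o g * o h + o g' * o h' + (o g' * o h + o g' * o h) := by
        noncomm_ring
      rw [h1, fb_add_self, add_zero, map_mul, map_mul]
    rw [map_mul (rp j 1), e]
    exact (I1 j).add_mem ((I1_bi j).right _ _ ha) ((I1_bi j).left _ _ hb)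

/-- `I1 j` is the kernel of `x_j ↦ 1`.  PROOF.  (→) closure induction, `eB (rp j 1) (Xl j) = C 1 = 0`.  (←) `fox` below and `f = f + eB (rp j 1) f`. -/
theorem mem_I1_iff (j : ℕ) (f : FB) : f ∈ I1 j ↔ eB (rp j 1) f = 0 := by
  constructor
  · intro h
    refine X02b_kill _ ?_ h
    intro s hs
    rw [Set.mem_singleton_iff] at hs
    rw [hs, eB_Xl_rp_self, C_one]
  · intro h
    have h1 : ∀ f : FB, f + eB (rp j 1) f ∈ I1 j := by
      intro f
      refine fb_ind (p := fun f => f + eB (rp j 1) f ∈ I1 j) ?_ ?_ ?_ f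
      · intro g
        rw [eB_o]
        exact X02b_fox j g
      · rw [map_zero, add_zero]
        exact (I1 j).zero_mem
      · intro a b ha hb
        rw [map_add, add_add_add_comm]
        exact (I1 j).add_mem ha hb
    have h2 := h1 f
    rwa [h, add_zero] at h2

/-- PROOF.  For `g = x j`: `o (x j) + 1 = Xl j`; for another letter: `0`.  Products: `o (g h) + o (g' h') = (o g + o g') * o h + o g' * (o h + o h')`
with `g' = rp j 1 g`; inverses: `o g⁻¹ + o g'⁻¹ = o g⁻¹ * (o g + o g') * o g'⁻¹`.  `FreeGroup.induction_on`. -/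
theorem fox (j : ℕ) (g : F) : o g + o (rp j 1 g) ∈ I1 j :=
  X02b_fox j g

/-- an endomorphism `φ` which commutes with the killing of `j` and fixes `x_j` preserves the degree in `j`.  PROOF: `eB_idl`. -/
theorem eB_I2 {j : ℕ} (φ : F →* F) (h : φ (x j) = x j) {f : FB} (hf : f ∈ I2 j) : eB φ f ∈ I2 j := by
  refine eB_idl (I2_bi j) φ ?_ hf
  rintro s ⟨a, rfl⟩
  rw [map_mul, map_mul, X02b_Xl h, eB_o]
  exact sub_idl ⟨φ a, rfl⟩

theorem eB_I3 {j : ℕ} (φ : F →* F) (h : φ (x j) = x j) {f : FB} (hf : f ∈ I3 j) : eB φ f ∈ I3 j := by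
  refine eB_idl (I3_bi j) φ ?_ hf
  rintro s ⟨a, b, rfl⟩
  rw [map_mul, map_mul, map_mul, map_mul, X02b_Xl h, eB_o, eB_o]
  exact sub_idl ⟨φ a, φ b, rfl⟩

theorem eB_EI {y z : ℕ} (φ : F →* F) (hy : φ (x y) = x y) (hz : φ (x z) = x z) {f : FB} (hf : f ∈ EI y z) :
    eB φ f ∈ EI y z := by
  refine eB_idl (EI_bi y z) φ ?_ hf
  rintro s ⟨g, rfl⟩
  refine sub_idl ⟨φ g, ?_⟩
  unfold ee
  simp only [map_add, map_mul, X02b_Xl hy, X02b_Xl hz, eB_T, eB_C]

/-- killing `j` kills `I2 j`. -/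
theorem eB_kill_I2 {j : ℕ} {f : FB} (hf : f ∈ I2 j) : eB (rp j 1) f = 0 := by
  refine X02b_kill _ ?_ hf
  rintro s ⟨a, rfl⟩
  rw [map_mul, map_mul, eB_Xl_rp_self, C_one, mul_zero]

/-- an endomorphism which fixes `x_y`, `x_z` preserves `NN` -/
theorem eB_NN {P : AddSubgroup FB} (h : TI P) {y z : ℕ} (φ : F →* F) (hy : φ (x y) = x y) (hz : φ (x z) = x z) {f : FB}
    (hf : f ∈ NN P y z) : eB φ f ∈ NN P y z := by
  unfold NN at hf ⊢
  obtain ⟨f1, hf1, d, hd, rfl⟩ := AddSubgroup.mem_sup.1 hf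
  obtain ⟨f2, hf2, c, hc, rfl⟩ := AddSubgroup.mem_sup.1 hf1
  obtain ⟨a, ha, b, hb, rfl⟩ := AddSubgroup.mem_sup.1 hf2
  rw [map_add, map_add, map_add]
  refine AddSubgroup.add_mem _ (AddSubgroup.mem_sup_left (AddSubgroup.add_mem _ (AddSubgroup.mem_sup_left
    (AddSubgroup.add_mem _ (AddSubgroup.mem_sup_left (h.endo φ a ha)) (AddSubgroup.mem_sup_right (eB_I2 φ hy hb))))
    (AddSubgroup.mem_sup_right (eB_I2 φ hz hc)))) (AddSubgroup.mem_sup_right (eB_EI φ hy hz hd))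

/-- killing `y` maps `NN P y z` to `P ⊔ I2 z`.  PROOF: generators: `P` stays in `P`, `I2 y ↦ 0`, `I2 z ↦ I2 z`, `ee g y z ↦ 0` (it contains `Xl y`). -/
theorem eB_NN_kill {P : AddSubgroup FB} (h : TI P) {y z : ℕ} (hyz : y ≠ z) {f : FB} (hf : f ∈ NN P y z) :
    eB (rp y 1) f ∈ P ⊔ I2 z := by
  unfold NN at hf
  obtain ⟨f1, hf1, d, hd, rfl⟩ := AddSubgroup.mem_sup.1 hf
  obtain ⟨f2, hf2, c, hc, rfl⟩ := AddSubgroup.mem_sup.1 hf1
  obtain ⟨a, ha, b, hb, rfl⟩ := AddSubgroup.mem_sup.1 hf2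
  have hz : rp y 1 (x z) = x z := by
    rw [rp_x, if_neg (Ne.symm hyz)]
  have h4 : eB (rp y 1) d = 0 := by
    refine X02b_kill _ ?_ hd
    rintro s ⟨g, rfl⟩
    unfold ee
    simp only [map_add, map_mul, eB_Xl_rp_self, C_one, mul_zero, zero_mul, add_zero]
  rw [map_add, map_add, map_add, h4, eB_kill_I2 hb, add_zero, add_zero]
  exact AddSubgroup.add_mem _ (AddSubgroup.mem_sup_left (h.endo _ a ha)) (AddSubgroup.mem_sup_right (eB_I2 _ hz hc))

end E4.X
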