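import Pool.Agent.Lib.MP_8a95e3_al.X02b

/-!
# X03a : spanning lemmas: leading terms of degree 2 and 3 in a letter
-/

noncomputable section

namespace E4.X

open E4

/-- additive span of `a X_j b X_j c`, the coefficients are functions of the letters in `H` -/
def S2 (H : Finset ℕ) (j : ℕ) : AddSubgroup FB :=
  AddSubgroup.closure {r | ∃ a b c : F, ret H a = a ∧ ret H b = b ∧ ret H c = c ∧ r = o a * (Xl j * o b * Xl j) * o c}

/-- additive span of `a X_j b X_j c X_j d` -/
def S3 (H : Finset ℕ) (j : ℕ) : AddSubgroup FB :=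
  AddSubgroup.closure {r | ∃ a b c d : F, ret H a = a ∧ ret H b = b ∧ ret H c = c ∧ ret H d = d ∧
    r = o a * (Xl j * o b * Xl j * o c * Xl j) * o d}

/-- additive span of `a (Y b Z) c` -/
def SA (L : Finset ℕ) (y z : ℕ) : AddSubgroup FB :=
  AddSubgroup.closure {r | ∃ a b c : F, ret L a = a ∧ ret L b = b ∧ ret L c = c ∧ r = o a * (Xl y * o b * Xl z) * o c}

private theorem X03a_Xl (j : ℕ) : Xl j ∈ I1 j := sub_idl rfl

private theorem X03a_X2 (j : ℕ) (a : F) : Xl j * o a * Xl j ∈ I2 j := sub_idl ⟨a, rfl⟩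

private theorem X03a_X3 (j : ℕ) (a b : F) : Xl j * o a * Xl j * o b * Xl j ∈ I3 j :=
  sub_idl ⟨a, b, rfl⟩

private theorem X03a_ret {H : Finset ℕ} {j : ℕ} (_hj : j ∉ H) (g : F) :
    ret H (rp j 1 (ret (insert j H) g)) = rp j 1 (ret (insert j H) g) := by
  have h : (ret H).comp ((rp j 1).comp (ret (insert j H))) = (rp j 1).comp (ret (insert j H)) := by
    refine hom_ext fun i => ?_
    simp only [MonoidHom.comp_apply, ret_x]
    by_cases h1 : i ∈ insert j H
    · rw [if_pos h1, rp_x]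
      by_cases h2 : i = j
      · rw [if_pos h2, map_one]
      · rw [if_neg h2, ret_x, if_pos (Finset.mem_of_mem_insert_of_ne h1 h2)]
    · rw [if_neg h1, map_one, map_one]
  exact DFunLike.congr_fun h g

private theorem X03a_eBX (H : Finset ℕ) (j : ℕ) : eB (ret (insert j H)) (Xl j) = Xl j := by
  simp [Xl]

/-- change of the three coefficients -/
private theorem X03a_ch2 {j : ℕ} {A B D A0 B0 D0 : FB} (hA : A + A0 ∈ I1 j) (hB : B + B0 ∈ I1 j)
    (hD : D + D0 ∈ I1 j) (h0 : Xl j * B0 * Xl j ∈ I2 j) (h1 : Xl j * B * Xl j ∈ I2 j) :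
    A * (Xl j * B * Xl j) * D + A0 * (Xl j * B0 * Xl j) * D0 ∈ I3 j := by
  have e : A * (Xl j * B * Xl j) * D + A0 * (Xl j * B0 * Xl j) * D0 =
      (A + A0) * (Xl j * B * Xl j) * D + A0 * (Xl j * ((B + B0) * Xl j)) * D +
        A0 * (Xl j * B0 * Xl j) * (D + D0) := by
    have e1 : (A + A0) * (Xl j * B * Xl j) * D + A0 * (Xl j * ((B + B0) * Xl j)) * D +
        A0 * (Xl j * B0 * Xl j) * (D + D0) =
        A * (Xl j * B * Xl j) * D + A0 * (Xl j * B0 * Xl j) * D0 +
          (A0 * (Xl j * B * Xl j) * D + A0 * (Xl j * B * Xl j) * D) +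
          (A0 * (Xl j * B0 * Xl j) * D + A0 * (Xl j * B0 * Xl j) * D) := by
      noncomm_ring
    rw [e1, fb_add_self, fb_add_self, add_zero, add_zero]
  rw [e]
  refine AddSubgroup.add_mem _ (AddSubgroup.add_mem _ ?_ ?_) ?_
  · exact (I3_bi j).mul_right _ (mul_I1_I2 hA h1)
  · refine (I3_bi j).mul_right _ ((I3_bi j).mul_left _ ?_)
    exact mul_I1_I2 (X03a_Xl j) (mul_I1_I1 hB (X03a_Xl j))
  · exact mul_I2_I1 ((I2_bi j).mul_left _ h0) hD

/-- PROOF.  Apply `eB (ret (insert j H))` to the closure description of `I2 j` (closure induction for the statement `eB (ret M) f ∈ S2 H j ⊔ I3 j`):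
a generator `o a' * (Xl j * o a * Xl j) * o b'` goes to `o a₁ * (Xl j * o b₁ * Xl j) * o c₁` with `a₁ = ret M a'` etc., functions of `insert j H`.
Now `o a₁ = o (rp j 1 a₁) + (o a₁ + o (rp j 1 a₁))`, the bracket is in `I1 j` (`fox`), `rp j 1 a₁` is fixed by `ret H`.  Expanding the three factors
all terms but the first contain a factor in `I1 j` beside the two `Xl j`, so they are in `I3 j` (closure induction on `I1 j`, or `mul_I1_I2`, `mul_I2_I1`, and
`Xl j * (element of I1 j) * Xl j ∈ I3 j`). -/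
theorem sp2 {H : Finset ℕ} {j : ℕ} (hj : j ∉ H) {f : FB} (hf : f ∈ I2 j) (hr : eB (ret (insert j H)) f = f) :
    f ∈ S2 H j ⊔ I3 j := by
  have key : ∀ f ∈ I2 j, eB (ret (insert j H)) f ∈ S2 H j ⊔ I3 j := by
    intro f hf
    unfold I2 idl at hf
    induction hf using AddSubgroup.closure_induction with
    | mem r hr =>
      obtain ⟨a, b, s, ⟨c, rfl⟩, rfl⟩ := hr
      simp only [map_mul, eB_o, X03a_eBX]
      set a' := ret (insert j H) a with ha'
      set b' := ret (insert j H) b with hb'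
      set c' := ret (insert j H) c with hc'
      have h1 := X03a_ch2 (fox j a') (fox j c') (fox j b') (X03a_X2 j (rp j 1 c')) (X03a_X2 j c')
      have h2 : o (rp j 1 a') * (Xl j * o (rp j 1 c') * Xl j) * o (rp j 1 b') ∈ S2 H j :=
        AddSubgroup.subset_closure ⟨_, _, _, X03a_ret hj a, X03a_ret hj c, X03a_ret hj b, rfl⟩
      have h3 := AddSubgroup.add_mem_sup h2 h1
      rw [add_comm, add_assoc, fb_add_self, add_zero] at h3
      exact h3
    | zero =>
      rw [map_zero]
      exact AddSubgroup.zero_mem _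
    | add a b _ _ h1 h2 =>
      rw [map_add]
      exact AddSubgroup.add_mem _ h1 h2
    | neg a _ h1 =>
      rw [map_neg]
      exact AddSubgroup.neg_mem _ h1
  rw [← hr]
  exact key f hf

/-- products with four factors `Xl j` are in `P` -/
private theorem X03a_gen {P : AddSubgroup FB} (hP : TI P)
    (h4 : ∀ g a b c : F, C g * o a * C g * o b * C g * o c * C g ∈ P) (j : ℕ) (u v p a b q : F) :
    o u * Xl j * o v * (o p * (Xl j * o a * Xl j * o b * Xl j) * o q) ∈ P := by
  have h1 := h4 (x j) (v * p) a b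
  have h2 := hP.bi.mul_right (o q) (hP.bi.mul_left (o u) h1)
  rw [map_mul] at h2
  have e : o u * Xl j * o v * (o p * (Xl j * o a * Xl j * o b * Xl j) * o q) =
      o u * (C (x j) * (o v * o p) * C (x j) * o a * C (x j) * o b * C (x j)) * o q := by
    simp only [Xl, mul_assoc]
  rw [e]
  exact h2

private theorem X03a_gen' {P : AddSubgroup FB} (hP : TI P)
    (h4 : ∀ g a b c : F, C g * o a * C g * o b * C g * o c * C g ∈ P) (j : ℕ) (u v p a b q : F) :
    o p * (Xl j * o a * Xl j * o b * Xl j) * o q * (o u * Xl j * o v) ∈ P := by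
  have h1 := h4 (x j) a b (q * u)
  have h2 := hP.bi.mul_right (o v) (hP.bi.mul_left (o p) h1)
  rw [map_mul] at h2
  have e : o p * (Xl j * o a * Xl j * o b * Xl j) * o q * (o u * Xl j * o v) =
      o p * (C (x j) * o a * C (x j) * o b * C (x j) * (o q * o u) * C (x j)) * o v := by
    simp only [Xl, mul_assoc]
  rw [e]
  exact h2

private theorem X03a_13 {P : AddSubgroup FB} (hP : TI P)
    (h4 : ∀ g a b c : F, C g * o a * C g * o b * C g * o c * C g ∈ P) {j : ℕ} {a b : FB}
    (ha : a ∈ I1 j) (hb : b ∈ I3 j) : a * b ∈ P := by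
  unfold I1 idl at ha
  induction ha using AddSubgroup.closure_induction with
  | mem r hr =>
    obtain ⟨u, v, s, hs, rfl⟩ := hr
    have hs' : s = Xl j := hs
    subst hs'
    unfold I3 idl at hb
    induction hb using AddSubgroup.closure_induction with
    | mem r hr =>
      obtain ⟨p, q, t, ⟨c, d, rfl⟩, rfl⟩ := hr
      exact X03a_gen hP h4 j u v p c d q
    | zero =>
      rw [mul_zero]
      exact AddSubgroup.zero_mem _
    | add a b _ _ h1 h2 =>
      rw [mul_add]
      exact AddSubgroup.add_mem _ h1 h2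
    | neg a _ h1 =>
      rw [mul_neg]
      exact AddSubgroup.neg_mem _ h1
  | zero =>
    rw [zero_mul]
    exact AddSubgroup.zero_mem _
  | add a b _ _ h1 h2 =>
    rw [add_mul]
    exact AddSubgroup.add_mem _ h1 h2
  | neg a _ h1 =>
    rw [neg_mul]
    exact AddSubgroup.neg_mem _ h1

private theorem X03a_31 {P : AddSubgroup FB} (hP : TI P)
    (h4 : ∀ g a b c : F, C g * o a * C g * o b * C g * o c * C g ∈ P) {j : ℕ} {a b : FB}
    (ha : a ∈ I1 j) (hb : b ∈ I3 j) : b * a ∈ P := by
  unfold I1 idl at ha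
  induction ha using AddSubgroup.closure_induction with
  | mem r hr =>
    obtain ⟨u, v, s, hs, rfl⟩ := hr
    have hs' : s = Xl j := hs
    subst hs'
    unfold I3 idl at hb
    induction hb using AddSubgroup.closure_induction with
    | mem r hr =>
      obtain ⟨p, q, t, ⟨c, d, rfl⟩, rfl⟩ := hr
      exact X03a_gen' hP h4 j u v p c d q
    | zero =>
      rw [zero_mul]
      exact AddSubgroup.zero_mem _
    | add a b _ _ h1 h2 =>
      rw [add_mul]
      exact AddSubgroup.add_mem _ h1 h2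
    | neg a _ h1 =>
      rw [neg_mul]
      exact AddSubgroup.neg_mem _ h1
  | zero =>
    rw [mul_zero]
    exact AddSubgroup.zero_mem _
  | add a b _ _ h1 h2 =>
    rw [mul_add]
    exact AddSubgroup.add_mem _ h1 h2
  | neg a _ h1 =>
    rw [mul_neg]
    exact AddSubgroup.neg_mem _ h1

/-- change of the four coefficients -/
private theorem X03a_ch3 {P : AddSubgroup FB} (hP : TI P)
    (h4 : ∀ g a b c : F, C g * o a * C g * o b * C g * o c * C g ∈ P) {j : ℕ}
    {A B E D A0 B0 E0 D0 : FB} (hA : A + A0 ∈ I1 j) (hB : B + B0 ∈ I1 j) (hE : E + E0 ∈ I1 j)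
    (hD : D + D0 ∈ I1 j) (h1 : Xl j * B * Xl j * E * Xl j ∈ I3 j) (h2 : Xl j * E * Xl j ∈ I2 j)
    (h3 : Xl j * B0 * Xl j * E0 * Xl j ∈ I3 j) :
    A * (Xl j * B * Xl j * E * Xl j) * D + A0 * (Xl j * B0 * Xl j * E0 * Xl j) * D0 ∈ P := by
  have e : A * (Xl j * B * Xl j * E * Xl j) * D + A0 * (Xl j * B0 * Xl j * E0 * Xl j) * D0 =
      (A + A0) * (Xl j * B * Xl j * E * Xl j) * D +
        A0 * (Xl j * ((B + B0) * (Xl j * E * Xl j))) * D +
        A0 * (Xl j * (B0 * (Xl j * ((E + E0) * Xl j)))) * D +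
        A0 * ((Xl j * B0 * Xl j * E0 * Xl j) * (D + D0)) := by
    have e1 : (A + A0) * (Xl j * B * Xl j * E * Xl j) * D +
        A0 * (Xl j * ((B + B0) * (Xl j * E * Xl j))) * D +
        A0 * (Xl j * (B0 * (Xl j * ((E + E0) * Xl j)))) * D +
        A0 * ((Xl j * B0 * Xl j * E0 * Xl j) * (D + D0)) =
        A * (Xl j * B * Xl j * E * Xl j) * D + A0 * (Xl j * B0 * Xl j * E0 * Xl j) * D0 +
          (A0 * (Xl j * B * Xl j * E * Xl j) * D + A0 * (Xl j * B * Xl j * E * Xl j) * D) +
          (A0 * (Xl j * B0 * Xl j * E * Xl j) * D + A0 * (Xl j * B0 * Xl j * E * Xl j) * D) +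
          (A0 * (Xl j * B0 * Xl j * E0 * Xl j) * D + A0 * (Xl j * B0 * Xl j * E0 * Xl j) * D) := by
      simp only [mul_add, add_mul, mul_assoc]
      abel
    rw [e1, fb_add_self, fb_add_self, fb_add_self, add_zero, add_zero, add_zero]
  rw [e]
  have hb := hP.bi
  refine AddSubgroup.add_mem _ (AddSubgroup.add_mem _ (AddSubgroup.add_mem _ ?_ ?_) ?_) ?_
  · exact hb.mul_right _ (X03a_13 hP h4 hA h1)
  · exact hb.mul_right _ (hb.mul_left _ (X03a_13 hP h4 (X03a_Xl j) (mul_I1_I2 hB h2)))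
  · refine hb.mul_right _ (hb.mul_left _ (X03a_13 hP h4 (X03a_Xl j) ((I3_bi j).mul_left _ ?_)))
    exact mul_I1_I2 (X03a_Xl j) (mul_I1_I1 hE (X03a_Xl j))
  · exact hb.mul_left _ (X03a_31 hP h4 hD h3)

/-- PROOF: the same as `sp2`; the error terms contain at least four factors `Xl j`, so they are in `P` by `four` (with `g = x j`; closure induction). -/
theorem sp3 {P : AddSubgroup FB} (hP : TI P) (h4 : ∀ g a b c : F, C g * o a * C g * o b * C g * o c * C g ∈ P)
    {H : Finset ℕ} {j : ℕ} (hj : j ∉ H)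
    {f : FB} (hf : f ∈ I3 j) (hr : eB (ret (insert j H)) f = f) :
    f ∈ S3 H j ⊔ P := by
  have key : ∀ f ∈ I3 j, eB (ret (insert j H)) f ∈ S3 H j ⊔ P := by
    intro f hf
    unfold I3 idl at hf
    induction hf using AddSubgroup.closure_induction with
    | mem r hr =>
      obtain ⟨a, b, s, ⟨c, d, rfl⟩, rfl⟩ := hr
      simp only [map_mul, eB_o, X03a_eBX]
      set a' := ret (insert j H) a with ha'
      set b' := ret (insert j H) b with hb'
      set c' := ret (insert j H) c with hc'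
      set d' := ret (insert j H) d with hd'
      have h1 := X03a_ch3 hP h4 (fox j a') (fox j c') (fox j d') (fox j b') (X03a_X3 j c' d')
        (X03a_X2 j d') (X03a_X3 j (rp j 1 c') (rp j 1 d'))
      have h2 : o (rp j 1 a') * (Xl j * o (rp j 1 c') * Xl j * o (rp j 1 d') * Xl j) *
          o (rp j 1 b') ∈ S3 H j :=
        AddSubgroup.subset_closure ⟨_, _, _, _, X03a_ret hj a, X03a_ret hj c, X03a_ret hj d,
          X03a_ret hj b, rfl⟩
      have h3 := AddSubgroup.add_mem_sup h2 h1
      rw [add_comm, add_assoc, fb_add_self, add_zero] at h3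
      exact h3
    | zero =>
      rw [map_zero]
      exact AddSubgroup.zero_mem _
    | add a b _ _ h1 h2 =>
      rw [map_add]
      exact AddSubgroup.add_mem _ h1 h2
    | neg a _ h1 =>
      rw [map_neg]
      exact AddSubgroup.neg_mem _ h1
  rw [← hr]
  exact key f hf

end E4.X
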