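import Pool.Agent.Lib.MP_8a95e3_al.X03a

/-!
# X03b : spanning lemmas: bilinear leading terms
-/

noncomputable section

namespace E4.X

open E4

/-- additive span of the group elements which are functions of `L` -/
private def X03b_R0 (L : Finset ℕ) : AddSubgroup FB :=
  AddSubgroup.closure {r | ∃ a : F, ret L a = a ∧ r = o a}

/-- additive span of `a Y b` -/
private def X03b_A1 (L : Finset ℕ) (y : ℕ) : AddSubgroup FB :=
  AddSubgroup.closure {r | ∃ a b : F, ret L a = a ∧ ret L b = b ∧ r = o a * Xl y * o b}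

/-- additive span of `a Y b Z c` -/
private def X03b_A2 (L : Finset ℕ) (y z : ℕ) : AddSubgroup FB :=
  AddSubgroup.closure {r | ∃ a b c : F, ret L a = a ∧ ret L b = b ∧ ret L c = c ∧
    r = o a * Xl y * o b * Xl z * o c}

private def X03b_D (L : Finset ℕ) (y z : ℕ) : AddSubgroup FB :=
  X03b_R0 L ⊔ (X03b_A1 L y ⊔ X03b_A1 L z) ⊔ (X03b_A2 L y z ⊔ X03b_A2 L z y) ⊔ (I2 y ⊔ I2 z)

/-- induction principle for `D` -/
private theorem X03b_Dind {L : Finset ℕ} {y z : ℕ} {p : FB → Prop}
    (h0 : p 0) (hadd : ∀ a b, p a → p b → p (a + b))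
    (hR : ∀ a : F, ret L a = a → p (o a))
    (hY : ∀ a b : F, ret L a = a → ret L b = b → p (o a * Xl y * o b))
    (hZ : ∀ a b : F, ret L a = a → ret L b = b → p (o a * Xl z * o b))
    (hYZ : ∀ a b c : F, ret L a = a → ret L b = b → ret L c = c → p (o a * Xl y * o b * Xl z * o c))
    (hZY : ∀ a b c : F, ret L a = a → ret L b = b → ret L c = c → p (o a * Xl z * o b * Xl y * o c))
    (hI : ∀ r ∈ I2 y ⊔ I2 z, p r) {d : FB} (hd : d ∈ X03b_D L y z) : p d := by
  let P : AddSubgroup FB :=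
    { carrier := {r | p r}
      zero_mem' := h0
      add_mem' := fun {a b} ha hb => hadd a b ha hb
      neg_mem' := fun {a} ha => by
        change p (-a)
        rw [fb_neg]
        exact ha }
  have hle : X03b_D L y z ≤ P := by
    unfold X03b_D
    refine sup_le (sup_le (sup_le ?_ (sup_le ?_ ?_)) (sup_le ?_ ?_)) ?_
    · refine (AddSubgroup.closure_le P).2 ?_
      rintro r ⟨a, ha, rfl⟩
      exact hR a ha
    · refine (AddSubgroup.closure_le P).2 ?_
      rintro r ⟨a, b, ha, hb, rfl⟩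
      exact hY a b ha hb
    · refine (AddSubgroup.closure_le P).2 ?_
      rintro r ⟨a, b, ha, hb, rfl⟩
      exact hZ a b ha hb
    · refine (AddSubgroup.closure_le P).2 ?_
      rintro r ⟨a, b, c, ha, hb, hc, rfl⟩
      exact hYZ a b c ha hb hc
    · refine (AddSubgroup.closure_le P).2 ?_
      rintro r ⟨a, b, c, ha, hb, hc, rfl⟩
      exact hZY a b c ha hb hc
    · intro r hr
      exact hI r hr
  exact hle hd

private theorem X03b_R0_mem {L : Finset ℕ} {y z : ℕ} {a : F} (ha : ret L a = a) :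
    o a ∈ X03b_D L y z := by
  unfold X03b_D
  exact AddSubgroup.mem_sup_left (AddSubgroup.mem_sup_left (AddSubgroup.mem_sup_left
    (AddSubgroup.subset_closure ⟨a, ha, rfl⟩)))

private theorem X03b_AY_mem {L : Finset ℕ} {y z : ℕ} {a b : F} (ha : ret L a = a) (hb : ret L b = b) :
    o a * Xl y * o b ∈ X03b_D L y z := by
  unfold X03b_D
  exact AddSubgroup.mem_sup_left (AddSubgroup.mem_sup_left (AddSubgroup.mem_sup_right
    (AddSubgroup.mem_sup_left (AddSubgroup.subset_closure ⟨a, b, ha, hb, rfl⟩))))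

private theorem X03b_AZ_mem {L : Finset ℕ} {y z : ℕ} {a b : F} (ha : ret L a = a) (hb : ret L b = b) :
    o a * Xl z * o b ∈ X03b_D L y z := by
  unfold X03b_D
  exact AddSubgroup.mem_sup_left (AddSubgroup.mem_sup_left (AddSubgroup.mem_sup_right
    (AddSubgroup.mem_sup_right (AddSubgroup.subset_closure ⟨a, b, ha, hb, rfl⟩))))

private theorem X03b_AYZ_mem {L : Finset ℕ} {y z : ℕ} {a b c : F} (ha : ret L a = a) (hb : ret L b = b)
    (hc : ret L c = c) : o a * Xl y * o b * Xl z * o c ∈ X03b_D L y z := by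
  unfold X03b_D
  exact AddSubgroup.mem_sup_left (AddSubgroup.mem_sup_right
    (AddSubgroup.mem_sup_left (AddSubgroup.subset_closure ⟨a, b, c, ha, hb, hc, rfl⟩)))

private theorem X03b_AZY_mem {L : Finset ℕ} {y z : ℕ} {a b c : F} (ha : ret L a = a) (hb : ret L b = b)
    (hc : ret L c = c) : o a * Xl z * o b * Xl y * o c ∈ X03b_D L y z := by
  unfold X03b_D
  exact AddSubgroup.mem_sup_left (AddSubgroup.mem_sup_right
    (AddSubgroup.mem_sup_right (AddSubgroup.subset_closure ⟨a, b, c, ha, hb, hc, rfl⟩)))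

private theorem X03b_I_mem {L : Finset ℕ} {y z : ℕ} {r : FB} (hr : r ∈ I2 y ⊔ I2 z) :
    r ∈ X03b_D L y z := by
  unfold X03b_D
  exact AddSubgroup.mem_sup_right hr

private theorem X03b_D_comm (L : Finset ℕ) (y z : ℕ) : X03b_D L y z = X03b_D L z y := by
  unfold X03b_D
  rw [sup_comm (X03b_A1 L y), sup_comm (X03b_A2 L y z), sup_comm (I2 y)]

private theorem X03b_mul_L {L : Finset ℕ} {a b : F} (ha : ret L a = a) (hb : ret L b = b) :
    ret L (a * b) = a * b := by
  rw [map_mul, ha, hb]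

private theorem X03b_Xl_I1 (y : ℕ) (a b : FB) : a * Xl y * b ∈ I1 y := by
  have h1 : Xl y ∈ I1 y := sub_idl (Set.mem_singleton _)
  exact (I1_bi y).mul_right b ((I1_bi y).mul_left a h1)

private theorem X03b_sup_bi (y z : ℕ) : Bi (I2 y ⊔ I2 z) := (I2_bi y).sup (I2_bi z)

/-- right multiplication by `Y` -/
private theorem X03b_mulY {L : Finset ℕ} {y z : ℕ} {d : FB} (hd : d ∈ X03b_D L y z) :
    d * Xl y ∈ X03b_D L y z := by
  have h1 : Xl y ∈ I1 y := sub_idl (Set.mem_singleton _)
  have hone : ret L (1 : F) = 1 := map_one _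
  refine X03b_Dind (p := fun d => d * Xl y ∈ X03b_D L y z) ?_ ?_ ?_ ?_ ?_ ?_ ?_ ?_ hd
  · simp only [zero_mul]
    exact zero_mem _
  · intro a b ha hb
    simp only [add_mul]
    exact add_mem ha hb
  · intro a ha
    have := X03b_AY_mem (y := y) (z := z) ha hone
    rwa [map_one, mul_one] at this
  · intro a b ha hb
    exact X03b_I_mem (AddSubgroup.mem_sup_left (mul_I1_I1 (X03b_Xl_I1 y _ _) h1))
  · intro a b ha hb
    have := X03b_AZY_mem (y := y) (z := z) ha hb hone
    rwa [map_one, mul_one] at this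
  · intro a b c ha hb hc
    have h2 : o a * Xl y * o b * Xl z * o c = o a * Xl y * (o b * Xl z * o c) := by
      simp only [mul_assoc]
    rw [h2]
    exact X03b_I_mem (AddSubgroup.mem_sup_left (mul_I1_I1 (X03b_Xl_I1 y _ _) h1))
  · intro a b c ha hb hc
    exact X03b_I_mem (AddSubgroup.mem_sup_left (mul_I1_I1 (X03b_Xl_I1 y _ _) h1))
  · intro r hr
    exact X03b_I_mem ((X03b_sup_bi y z).mul_right _ hr)

/-- right multiplication by a function of `L` -/
private theorem X03b_mulL {L : Finset ℕ} {y z : ℕ} {d : FB} (hd : d ∈ X03b_D L y z) {g : F}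
    (hg : ret L g = g) : d * o g ∈ X03b_D L y z := by
  refine X03b_Dind (p := fun d => d * o g ∈ X03b_D L y z) ?_ ?_ ?_ ?_ ?_ ?_ ?_ ?_ hd
  · simp only [zero_mul]
    exact zero_mem _
  · intro a b ha hb
    simp only [add_mul]
    exact add_mem ha hb
  · intro a ha
    show o a * o g ∈ X03b_D L y z
    rw [← map_mul]
    exact X03b_R0_mem (X03b_mul_L ha hg)
  · intro a b ha hb
    show o a * Xl y * o b * o g ∈ X03b_D L y z
    rw [mul_assoc _ (o b), ← map_mul]
    exact X03b_AY_mem ha (X03b_mul_L hb hg)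
  · intro a b ha hb
    show o a * Xl z * o b * o g ∈ X03b_D L y z
    rw [mul_assoc _ (o b), ← map_mul]
    exact X03b_AZ_mem ha (X03b_mul_L hb hg)
  · intro a b c ha hb hc
    show o a * Xl y * o b * Xl z * o c * o g ∈ X03b_D L y z
    rw [mul_assoc _ (o c), ← map_mul]
    exact X03b_AYZ_mem ha hb (X03b_mul_L hc hg)
  · intro a b c ha hb hc
    show o a * Xl z * o b * Xl y * o c * o g ∈ X03b_D L y z
    rw [mul_assoc _ (o c), ← map_mul]
    exact X03b_AZY_mem ha hb (X03b_mul_L hc hg)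
  · intro r hr
    exact X03b_I_mem ((X03b_sup_bi y z).mul_right _ hr)

private theorem X03b_oX (y : ℕ) : o (x y) = 1 + Xl y := by
  unfold Xl C
  rw [add_comm (o (x y)) 1, ← add_assoc, fb_add_self, zero_add]

private theorem X03b_oXinv (y : ℕ) : o (x y)⁻¹ = 1 + Xl y + Xl y * o 1 * Xl y * o (x y)⁻¹ := by
  have h1 : o (x y) * o (x y)⁻¹ = 1 := by rw [← map_mul, mul_inv_cancel, map_one]
  have h2 : Xl y * o (x y)⁻¹ = 1 + o (x y)⁻¹ := by
    unfold Xl C
    rw [add_mul, h1, one_mul]
  rw [map_one, mul_one, mul_assoc, h2, mul_add, mul_one, h2]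
  have e : (1 : FB) + Xl y + (Xl y + (1 + o (x y)⁻¹)) = (1 + 1) + (Xl y + Xl y) + o (x y)⁻¹ := by abel
  rw [e, fb_add_self, fb_add_self, zero_add, zero_add]

/-- right multiplication by `x_y^{±1}` -/
private theorem X03b_muly {L : Finset ℕ} {y z : ℕ} {d : FB} (hd : d ∈ X03b_D L y z) :
    d * o (x y) ∈ X03b_D L y z ∧ d * o (x y)⁻¹ ∈ X03b_D L y z := by
  constructor
  · rw [X03b_oX, mul_add, mul_one]
    exact add_mem hd (X03b_mulY hd)
  · rw [X03b_oXinv, mul_add, mul_add, mul_one]
    refine add_mem (add_mem hd (X03b_mulY hd)) ?_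
    refine X03b_I_mem (AddSubgroup.mem_sup_left ((I2_bi y).mul_left d ((I2_bi y).right _ _ ?_)))
    exact sub_idl ⟨1, rfl⟩

private theorem X03b_mem_D {L : Finset ℕ} {y z : ℕ} (g : F) :
    ∀ d ∈ X03b_D L y z, d * o (ret (insert y (insert z L)) g) ∈ X03b_D L y z := by
  have key : ∀ i : ℕ, ∀ d ∈ X03b_D L y z, d * o (ret (insert y (insert z L)) (x i)) ∈ X03b_D L y z ∧
      d * o (ret (insert y (insert z L)) (x i)⁻¹) ∈ X03b_D L y z := by
    intro i d hd
    rw [map_inv, ret_x]
    by_cases h : i ∈ insert y (insert z L)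
    · rw [if_pos h]
      rcases Finset.mem_insert.1 h with rfl | h'
      · exact X03b_muly hd
      · rcases Finset.mem_insert.1 h' with rfl | h''
        · rw [X03b_D_comm] at hd ⊢
          exact X03b_muly hd
        · have h3 : ret L (x i) = x i := by rw [ret_x, if_pos h'']
          have h4 : ret L (x i)⁻¹ = (x i)⁻¹ := by rw [map_inv, h3]
          exact ⟨X03b_mulL hd h3, X03b_mulL hd h4⟩
    · rw [if_neg h, inv_one, map_one, mul_one]
      exact ⟨hd, hd⟩
  refine FreeGroup.induction_on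
    (C := fun g => ∀ d ∈ X03b_D L y z, d * o (ret (insert y (insert z L)) g) ∈ X03b_D L y z) g ?_ ?_ ?_ ?_
  · intro d hd
    rw [map_one, map_one, mul_one]
    exact hd
  · intro i d hd
    exact (key i d hd).1
  · intro i _ d hd
    exact (key i d hd).2
  · intro g h hg hh d hd
    rw [map_mul, map_mul, ← mul_assoc]
    exact hh _ (hg d hd)

private theorem X03b_ret_mem {L : Finset ℕ} {y z : ℕ} (f : FB) :
    eB (ret (insert y (insert z L))) f ∈ X03b_D L y z := by
  refine fb_ind (p := fun f => eB (ret (insert y (insert z L))) f ∈ X03b_D L y z) ?_ ?_ ?_ f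
  · intro g
    show eB _ (o g) ∈ _
    rw [eB_o]
    have h := X03b_mem_D (L := L) (y := y) (z := z) g 1 (by
      have := X03b_R0_mem (L := L) (y := y) (z := z) (map_one (ret L))
      rwa [map_one] at this)
    rwa [one_mul] at h
  · show eB _ 0 ∈ _
    rw [map_zero]
    exact zero_mem _
  · intro a b ha hb
    show eB _ (a + b) ∈ _
    rw [map_add]
    exact add_mem ha hb

private theorem X03b_SA {L : Finset ℕ} {y z : ℕ} {a b c : F} (ha : ret L a = a) (hb : ret L b = b)
    (hc : ret L c = c) : o a * Xl y * o b * Xl z * o c ∈ SA L y z ⊔ Sw y z ⊔ (I2 y ⊔ I2 z) := by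
  refine AddSubgroup.mem_sup_left (AddSubgroup.mem_sup_left (AddSubgroup.subset_closure ⟨a, b, c, ha, hb, hc, ?_⟩))
  simp only [mul_assoc]

private theorem X03b_SA' {L : Finset ℕ} {y z : ℕ} (hy : y ∉ L) (hz : z ∉ L) (hyz : y ≠ z) {a b c : F}
    (ha : ret L a = a) (hb : ret L b = b)
    (hc : ret L c = c) : o a * Xl z * o b * Xl y * o c ∈ SA L y z ⊔ Sw y z ⊔ (I2 y ⊔ I2 z) := by
  have hfr : ∀ g : F, ret L g = g → Fr y z g := fun g hg => ⟨rp_of_ret_F hg hy 1, rp_of_ret_F hg hz 1⟩
  have hsw : ∀ g : F, ret L g = g → sw y z g = g := by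
    intro g hg
    have e : (sw y z).comp (ret L) = ret L := by
      refine hom_ext fun i => ?_
      rw [MonoidHom.comp_apply, ret_x]
      by_cases hi : i ∈ L
      · have h1 : i ≠ y := fun h => hy (h ▸ hi)
        have h2 : i ≠ z := fun h => hz (h ▸ hi)
        rw [if_pos hi, sw_x, if_neg h1, if_neg h2]
      · rw [if_neg hi, map_one]
    have := DFunLike.congr_fun e g
    rw [MonoidHom.comp_apply, hg] at this
    exact this
  have hX1 : eB (sw y z) (Xl z) = Xl y := by
    unfold Xl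
    rw [eB_C, sw_x, if_neg (Ne.symm hyz), if_pos rfl]
  have hX2 : eB (sw y z) (Xl y) = Xl z := by
    unfold Xl
    rw [eB_C, sw_x, if_pos rfl]
  have hs : o a * Xl z * o b * Xl y * o c ∈ Bil y z :=
    AddSubgroup.subset_closure ⟨a, b, c, hfr a ha, hfr b hb, hfr c hc, Or.inr rfl⟩
  have e1 : o a * Xl z * o b * Xl y * o c =
      o a * Xl y * o b * Xl z * o c + (o a * Xl z * o b * Xl y * o c +
        eB (sw y z) (o a * Xl z * o b * Xl y * o c)) := by
    rw [map_mul, map_mul, map_mul, map_mul, hX1, hX2, eB_o, eB_o, eB_o, hsw a ha, hsw b hb, hsw c hc,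
      add_comm (o a * Xl z * o b * Xl y * o c), ← add_assoc, fb_add_self, zero_add]
  rw [e1]
  refine add_mem (X03b_SA ha hb hc) ?_
  exact AddSubgroup.mem_sup_left (AddSubgroup.mem_sup_right (AddSubgroup.subset_closure ⟨_, hs, rfl⟩))

private theorem X03b_kill_self (y : ℕ) : eB (rp y 1) (Xl y) = 0 := by
  rw [eB_Xl_rp_self, C_one]

private theorem X03b_kill_I {y z : ℕ} (hyz : y ≠ z) {r : FB} (hr : r ∈ I2 y ⊔ I2 z) :
    eB (rp y 1) r ∈ I2 y ⊔ I2 z := by
  obtain ⟨a, ha, b, hb, rfl⟩ := AddSubgroup.mem_sup.1 hr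
  rw [map_add, eB_kill_I2 ha, zero_add]
  refine AddSubgroup.mem_sup_right (eB_I2 _ ?_ hb)
  rw [rp_x, if_neg (Ne.symm hyz)]

/-- PROOF.  `f = eB (ret M) f`, `M = insert y (insert z L)`, and `f = f + eB (rp y 1) f + eB (rp z 1) f + eB ((rp y 1).comp (rp z 1)) f` (the added terms are `0` by `Full.kill`).
By additivity it is enough: for `g : F` with `ret M g = g` the element
`o g + o (rp y 1 g) + o (rp z 1 g) + o (rp y 1 (rp z 1 g))` is in `SA L y z ⊔ Sw y z ⊔ I2 y ⊔ I2 z`.  It is in `I1 y ∩ I1 z`; more precisely show by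
`FreeGroup.induction_on`-like induction (or: write `g` as a product of letters and use `o (g h) = o g * o h`): with `g = g₀ + g_y + g_z + g_yz`,
`g₀ = o (rp y 1 (rp z 1 g))`, `g_y ∈ {Σ o a Y o b}`, `g_z ∈ {Σ o a Z o b}`, `g_yz ∈ {Σ a Y b Z c + Σ a Z b Y c}`, all coefficients functions of `L`, modulo
`I2 y ⊔ I2 z`.  A word `a Z b Y c` is `a Y b Z c` plus `s + σ s`, `s = a Z b Y c` (`eB (sw y z)` fixes `o a`, `o b`, `o c`). -/
theorem spB {L : Finset ℕ} {y z : ℕ} (hy : y ∉ L) (hz : z ∉ L) (hyz : y ≠ z) {f : FB}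
    (hf : Full (insert y (insert z L)) f) : f ∈ SA L y z ⊔ Sw y z ⊔ (I2 y ⊔ I2 z) := by
  have hfD : f ∈ X03b_D L y z := by
    have := X03b_ret_mem (L := L) (y := y) (z := z) f
    rwa [hf.inn] at this
  have hky : eB (rp y 1) f = 0 := hf.kill y (Finset.mem_insert_self _ _)
  have hkz : eB (rp z 1) f = 0 := hf.kill z (Finset.mem_insert_of_mem (Finset.mem_insert_self _ _))
  have hfy : ∀ g : F, ret L g = g → rp y 1 g = g := fun g hg => rp_of_ret_F hg hy 1
  have hfz : ∀ g : F, ret L g = g → rp z 1 g = g := fun g hg => rp_of_ret_F hg hz 1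
  have hYy := X03b_kill_self y
  have hZz := X03b_kill_self z
  have hYz : eB (rp z 1) (Xl y) = Xl y := eB_Xl_rp_ne 1 hyz
  have hZy : eB (rp y 1) (Xl z) = Xl z := eB_Xl_rp_ne 1 (Ne.symm hyz)
  have main : ∀ d ∈ X03b_D L y z, d + eB (rp y 1) d + eB (rp z 1) d + eB (rp y 1) (eB (rp z 1) d) ∈
      SA L y z ⊔ Sw y z ⊔ (I2 y ⊔ I2 z) := by
    intro d hd
    refine X03b_Dind (p := fun d => d + eB (rp y 1) d + eB (rp z 1) d + eB (rp y 1) (eB (rp z 1) d) ∈
      SA L y z ⊔ Sw y z ⊔ (I2 y ⊔ I2 z)) ?_ ?_ ?_ ?_ ?_ ?_ ?_ ?_ hd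
    · simp only [map_zero, add_zero]
      exact zero_mem _
    · intro a b ha hb
      have e : (a + b) + eB (rp y 1) (a + b) + eB (rp z 1) (a + b) + eB (rp y 1) (eB (rp z 1) (a + b)) =
          (a + eB (rp y 1) a + eB (rp z 1) a + eB (rp y 1) (eB (rp z 1) a)) +
          (b + eB (rp y 1) b + eB (rp z 1) b + eB (rp y 1) (eB (rp z 1) b)) := by
        simp only [map_add]
        abel
      show (a + b) + eB (rp y 1) (a + b) + eB (rp z 1) (a + b) + eB (rp y 1) (eB (rp z 1) (a + b)) ∈ _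
      rw [e]
      exact add_mem ha hb
    · intro a ha
      show o a + eB (rp y 1) (o a) + eB (rp z 1) (o a) + eB (rp y 1) (eB (rp z 1) (o a)) ∈ _
      rw [eB_o, eB_o, eB_o, hfz a ha, hfy a ha, fb_add_self, zero_add, fb_add_self]
      exact zero_mem _
    · intro a b ha hb
      show o a * Xl y * o b + eB (rp y 1) (o a * Xl y * o b) + eB (rp z 1) (o a * Xl y * o b) +
        eB (rp y 1) (eB (rp z 1) (o a * Xl y * o b)) ∈ _
      simp only [map_mul, hYy, hYz, eB_o, hfz a ha, hfz b hb, mul_zero, zero_mul, add_zero, fb_add_self]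
      exact zero_mem _
    · intro a b ha hb
      show o a * Xl z * o b + eB (rp y 1) (o a * Xl z * o b) + eB (rp z 1) (o a * Xl z * o b) +
        eB (rp y 1) (eB (rp z 1) (o a * Xl z * o b)) ∈ _
      simp only [map_mul, hZz, hZy, eB_o, hfy a ha, hfy b hb, map_zero, mul_zero, zero_mul, add_zero, fb_add_self]
      exact zero_mem _
    · intro a b c ha hb hc
      show o a * Xl y * o b * Xl z * o c + eB (rp y 1) (o a * Xl y * o b * Xl z * o c) +
        eB (rp z 1) (o a * Xl y * o b * Xl z * o c) +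
        eB (rp y 1) (eB (rp z 1) (o a * Xl y * o b * Xl z * o c)) ∈ _
      simp only [map_mul, hYy, hZz, map_zero, mul_zero, zero_mul, add_zero]
      exact X03b_SA ha hb hc
    · intro a b c ha hb hc
      show o a * Xl z * o b * Xl y * o c + eB (rp y 1) (o a * Xl z * o b * Xl y * o c) +
        eB (rp z 1) (o a * Xl z * o b * Xl y * o c) +
        eB (rp y 1) (eB (rp z 1) (o a * Xl z * o b * Xl y * o c)) ∈ _
      simp only [map_mul, hYy, hZz, map_zero, mul_zero, zero_mul, add_zero]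
      exact X03b_SA' hy hz hyz ha hb hc
    · intro r hr
      have h1 : eB (rp y 1) r ∈ I2 y ⊔ I2 z := X03b_kill_I hyz hr
      have h2 : eB (rp z 1) r ∈ I2 y ⊔ I2 z := by
        rw [sup_comm] at hr ⊢
        exact X03b_kill_I (Ne.symm hyz) hr
      have h3 : eB (rp y 1) (eB (rp z 1) r) ∈ I2 y ⊔ I2 z := X03b_kill_I hyz h2
      exact AddSubgroup.mem_sup_right (add_mem (add_mem (add_mem hr h1) h2) h3)
  have := main f hfD
  rw [hky, hkz, map_zero, add_zero, add_zero, add_zero] at this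
  exact this

/-- the same for a bilinear element.  PROOF: closure induction on `Bil` after applying `eB (ret (insert y (insert z L)))`. -/
theorem spB' {L : Finset ℕ} {y z : ℕ} (hy : y ∉ L) (hz : z ∉ L) (hyz : y ≠ z) {s : FB} (hs : s ∈ Bil y z)
    (hr : eB (ret (insert y (insert z L))) s = s) : s ∈ SA L y z ⊔ Sw y z ⊔ (I2 y ⊔ I2 z) := by
  have hret : ∀ a : F, Fr y z a → ret L (ret (insert y (insert z L)) a) = ret (insert y (insert z L)) a := by
    intro a ha
    have e : ((ret (insert y (insert z L))).comp (rp y 1)).comp (rp z 1) = ret L := by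
      refine hom_ext fun i => ?_
      rw [MonoidHom.comp_apply, MonoidHom.comp_apply, rp_x]
      by_cases h1 : i = z
      · rw [if_pos h1, map_one, map_one, ret_x, if_neg (h1 ▸ hz)]
      · rw [if_neg h1, rp_x]
        by_cases h2 : i = y
        · rw [if_pos h2, map_one, ret_x, if_neg (h2 ▸ hy)]
        · rw [if_neg h2, ret_x, ret_x]
          simp only [Finset.mem_insert, h1, h2, false_or]
    have e1 : ret (insert y (insert z L)) a = ret L a := by
      have := DFunLike.congr_fun e a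
      rw [MonoidHom.comp_apply, MonoidHom.comp_apply, ha.2, ha.1] at this
      exact this
    rw [e1]
    have e2 := DFunLike.congr_fun (ret_ret L L) a
    rw [MonoidHom.comp_apply, Finset.inter_self] at e2
    exact e2
  have hy' : y ∈ insert y (insert z L) := Finset.mem_insert_self _ _
  have hz' : z ∈ insert y (insert z L) := Finset.mem_insert_of_mem (Finset.mem_insert_self _ _)
  have hY : eB (ret (insert y (insert z L))) (Xl y) = Xl y := by
    unfold Xl
    rw [eB_C, ret_x, if_pos hy']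
  have hZ : eB (ret (insert y (insert z L))) (Xl z) = Xl z := by
    unfold Xl
    rw [eB_C, ret_x, if_pos hz']
  rw [← hr]
  clear hr
  unfold Bil at hs
  induction hs using AddSubgroup.closure_induction with
  | mem r hr =>
    obtain ⟨a, b, c, ha, hb, hc, h⟩ := hr
    rcases h with rfl | rfl
    · simp only [map_mul, hY, hZ, eB_o]
      exact X03b_SA (hret a ha) (hret b hb) (hret c hc)
    · simp only [map_mul, hY, hZ, eB_o]
      exact X03b_SA' hy hz hyz (hret a ha) (hret b hb) (hret c hc)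
  | zero =>
    rw [map_zero]
    exact zero_mem _
  | add a b _ _ iha ihb =>
    rw [map_add]
    exact add_mem iha ihb
  | neg a _ iha =>
    rw [map_neg]
    exact neg_mem iha

/-- a full function of `insert j H` which is in `I1 j` modulo nothing: `Full` gives `f ∈ I1 j`. PROOF: `mem_I1_iff`. -/
theorem full_I1 {H : Finset ℕ} {j : ℕ} {f : FB} (hf : Full (insert j H) f) : f ∈ I1 j := by
  rw [mem_I1_iff]
  exact hf.kill j (Finset.mem_insert_self _ _)

end E4.X
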