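import Pool.Agent.Lib.MP_8a95e3_al.X04b

/-!
# X05a : the abstract D-lemma: reduction
-/

noncomputable section

namespace E4.X

open E4

/-- the hypotheses of the D-lemma -/
structure DHyp (W : AddSubgroup FB) (D : F → FB) (L : Finset ℕ) : Prop where
  bi : Bi W
  kill : ∀ j ∈ L, ∀ w ∈ W, eB (rp j 1) w ∈ W
  nat : ∀ j ∈ L, ∀ v, eB (rp j 1) (D v) = D (rp j 1 v)
  one : D 1 ∈ W
  sql : ∀ c v : F, C (c ^ 2) * D v ∈ W
  sqr : ∀ c v : F, D v * C (c ^ 2) ∈ W
  sqi : ∀ c v : F, D (v * c ^ 2) + D v ∈ W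
  com : ∀ g v : F, o g * D v + D v * o g ∈ W
  sym : ∀ g v : F, C g * D v + C v * D g ∈ W
  self : ∀ g : F, C g * D g ∈ W

private theorem X05a_normal : (Subgroup.closure {r : F | ∃ c : F, r = c ^ 2}).Normal := by
  constructor
  intro n hn g
  induction hn using Subgroup.closure_induction with
  | mem a ha =>
    obtain ⟨c, rfl⟩ := ha
    exact Subgroup.subset_closure ⟨g * c * g⁻¹, by rw [conj_pow]⟩
  | one => rw [mul_one, mul_inv_cancel]; exact Subgroup.one_mem _
  | mul a b _ _ ha hb =>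
    have e : g * (a * b) * g⁻¹ = (g * a * g⁻¹) * (g * b * g⁻¹) := by group
    rw [e]
    exact Subgroup.mul_mem _ ha hb
  | inv a _ ha =>
    have e : g * a⁻¹ * g⁻¹ = (g * a * g⁻¹)⁻¹ := by group
    rw [e]
    exact Subgroup.inv_mem _ ha

private theorem X05a_comm {Q : Type} [Group Q] {π : F →* Q} (h : ∀ c, π c * π c = 1) (a b : F) :
    π a * π b = π b * π a := by
  have h1 : π (a * b) * π (a * b) = 1 := h _
  rw [map_mul] at h1
  have h2 : π a * π b = (π a * π b)⁻¹ := eq_inv_of_mul_eq_one_left h1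
  have h3 : (π a)⁻¹ = π a := inv_eq_of_mul_eq_one_left (h a)
  have h4 : (π b)⁻¹ = π b := inv_eq_of_mul_eq_one_left (h b)
  rw [h2, mul_inv_rev, h3, h4]

private theorem X05a_gPsingle (i : ℕ) : gP {i} = x i := by
  simp [gP]

private theorem X05a_step {Q : Type} [Group Q] {π : F →* Q} (h : ∀ c, π c * π c = 1) (T : Finset ℕ) :
    ∀ i, ∃ S : Finset ℕ, S ⊆ insert i T ∧ π (x i) * π (gP T) = π (gP S) := by
  induction T using Finset.induction_on_min with
  | empty =>
    intro i
    refine ⟨{i}, by simp, ?_⟩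
    rw [gP_empty, map_one, mul_one, X05a_gPsingle]
  | insert a T ha ih =>
    intro i
    rcases lt_trichotomy i a with h1 | h1 | h1
    · refine ⟨insert i (insert a T), subset_rfl, ?_⟩
      rw [gP_insert (a := i) (L := insert a T), map_mul]
      intro b hb
      rcases Finset.mem_insert.1 hb with h2 | h2
      · rw [h2]; exact h1
      · exact lt_trans h1 (ha b h2)
    · refine ⟨T, fun b hb => Finset.mem_insert_of_mem (Finset.mem_insert_of_mem hb), ?_⟩
      rw [gP_insert ha, map_mul, h1, ← mul_assoc, h, one_mul]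
    · obtain ⟨S, hS, h2⟩ := ih i
      refine ⟨insert a S, ?_, ?_⟩
      · intro b hb
        rcases Finset.mem_insert.1 hb with h3 | h3
        · rw [h3]
          exact Finset.mem_insert_of_mem (Finset.mem_insert_self _ _)
        · rcases Finset.mem_insert.1 (hS h3) with h4 | h4
          · rw [h4]; exact Finset.mem_insert_self _ _
          · exact Finset.mem_insert_of_mem (Finset.mem_insert_of_mem h4)
      · have h5 : ∀ b ∈ S, a < b := by
          intro b hb
          rcases Finset.mem_insert.1 (hS hb) with h4 | h4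
          · rw [h4]; exact h1
          · exact ha b h4
        rw [gP_insert ha, gP_insert h5, map_mul, map_mul, ← h2, ← mul_assoc, ← mul_assoc, X05a_comm h (x i) (x a)]

private theorem X05a_mul {Q : Type} [Group Q] {π : F →* Q} (h : ∀ c, π c * π c = 1) (S : Finset ℕ) :
    ∀ T, ∃ U : Finset ℕ, U ⊆ S ∪ T ∧ π (gP S) * π (gP T) = π (gP U) := by
  induction S using Finset.induction_on_min with
  | empty =>
    intro T
    exact ⟨T, by simp, by rw [gP_empty, map_one, one_mul]⟩
  | insert a S ha ih =>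
    intro T
    obtain ⟨U, hU, h1⟩ := ih T
    obtain ⟨V, hV, h2⟩ := X05a_step h U a
    refine ⟨V, ?_, ?_⟩
    · intro b hb
      rw [Finset.insert_union]
      rcases Finset.mem_insert.1 (hV hb) with h3 | h3
      · rw [h3]; exact Finset.mem_insert_self _ _
      · exact Finset.mem_insert_of_mem (hU h3)
    · rw [gP_insert ha, map_mul, mul_assoc, h1, h2]

private theorem X05a_word {Q : Type} [Group Q] {π : F →* Q} (h : ∀ c, π c * π c = 1) (L : Finset ℕ) (g : F) :
    ∃ S : Finset ℕ, S ⊆ L ∧ π (ret L g) = π (gP S) := by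
  have hx : ∀ i, ∃ S : Finset ℕ, S ⊆ L ∧ π (ret L (x i)) = π (gP S) := by
    intro i
    rw [ret_x]
    by_cases hi : i ∈ L
    · refine ⟨{i}, Finset.singleton_subset_iff.2 hi, ?_⟩
      rw [if_pos hi, X05a_gPsingle]
    · refine ⟨∅, Finset.empty_subset _, ?_⟩
      rw [if_neg hi, gP_empty]
  induction g using FreeGroup.induction_on with
  | C1 => exact ⟨∅, Finset.empty_subset _, by rw [map_one, gP_empty]⟩
  | of i => exact hx i
  | inv_of i ih =>
    obtain ⟨S, hS, h1⟩ := hx i
    refine ⟨S, hS, ?_⟩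
    rw [← h1]
    have h2 : (ret L) (FreeGroup.of i)⁻¹ = (ret L (x i))⁻¹ := map_inv _ _
    rw [h2, map_inv]
    exact inv_eq_of_mul_eq_one_left (h _)
  | mul a b ha hb =>
    obtain ⟨S, hS, h1⟩ := ha
    obtain ⟨T, hT, h2⟩ := hb
    obtain ⟨U, hU, h3⟩ := X05a_mul h S T
    refine ⟨U, fun b hb => (Finset.mem_union.1 (hU hb)).elim (fun h => hS h) (fun h => hT h), ?_⟩
    rw [map_mul, map_mul, h1, h2, h3]

/-- elements of `F` modulo squares: every `g` with `ret L g = g` is `gP S * (product of squares)`, `S ⊆ L`.  Here `SqS` = the subgroup generated by all squares.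
PROOF: `FreeGroup.induction_on`; `SqS` is normal and `F ⧸ SqS` is commutative of exponent 2 (`a b = b a (a⁻¹ b⁻¹ a b)`, and a commutator is a product of squares
`a⁻¹ b⁻¹ a b = (a⁻¹)^2 (a b⁻¹)^2 b^2`), so the class of `g` is the class of `gP S`, `S` = the letters with odd exponent sum. -/
theorem mod_sq {L : Finset ℕ} {g : F} (h : ret L g = g) :
    ∃ S : Finset ℕ, S ⊆ L ∧ ∃ s ∈ Subgroup.closure {r : F | ∃ c : F, r = c ^ 2}, g = gP S * s := by
  have := X05a_normal
  have h1 : ∀ c : F, QuotientGroup.mk' (Subgroup.closure {r : F | ∃ c : F, r = c ^ 2}) c *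
      QuotientGroup.mk' (Subgroup.closure {r : F | ∃ c : F, r = c ^ 2}) c = 1 := by
    intro c
    rw [← map_mul]
    exact (QuotientGroup.eq_one_iff _).2 (Subgroup.subset_closure ⟨c, by rw [pow_two]⟩)
  obtain ⟨S, hS, h2⟩ := X05a_word h1 L g
  refine ⟨S, hS, (gP S)⁻¹ * g, ?_, ?_⟩
  · rw [h] at h2
    exact QuotientGroup.eq.1 h2.symm
  · rw [mul_inv_cancel_left]

/-- PROOF: closure induction on `s`, from `sql`: `o (s t) D = o s (o t D)`, `o (c^2) D v = D v` mod `W`; inverses: `c^(-2) = (c⁻¹)^2`. -/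
theorem DHyp.sql' {W : AddSubgroup FB} {D : F → FB} {L : Finset ℕ} (h : DHyp W D L) {s : F}
    (hs : s ∈ Subgroup.closure {r : F | ∃ c : F, r = c ^ 2}) (v : F) : o s * D v + D v ∈ W := by
  induction hs using Subgroup.closure_induction with
  | mem a ha =>
    obtain ⟨c, rfl⟩ := ha
    have h1 := h.sql c v
    unfold C at h1
    rwa [add_mul, one_mul] at h1
  | one =>
    rw [map_one, one_mul, fb_add_self]
    exact W.zero_mem
  | mul a b _ _ ha hb =>
    have e : o (a * b) * D v + D v = o a * (o b * D v + D v) + (o a * D v + D v) := by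
      rw [mul_add, map_mul, mul_assoc, add_assoc, ← add_assoc (o a * D v), fb_add_self, zero_add]
    rw [e]
    exact W.add_mem (h.bi.left _ _ hb) ha
  | inv a _ ha =>
    have e : o a⁻¹ * D v + D v = o a⁻¹ * (o a * D v + D v) := by
      rw [mul_add, ← mul_assoc, ← map_mul, inv_mul_cancel, map_one, one_mul, add_comm]
    rw [e]
    exact h.bi.left _ _ ha

theorem DHyp.sqi' {W : AddSubgroup FB} {D : F → FB} {L : Finset ℕ} (h : DHyp W D L) {s : F}
    (hs : s ∈ Subgroup.closure {r : F | ∃ c : F, r = c ^ 2}) (v : F) : D (v * s) + D v ∈ W := by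
  induction hs using Subgroup.closure_induction generalizing v with
  | mem a ha =>
    obtain ⟨c, rfl⟩ := ha
    exact h.sqi c v
  | one =>
    rw [mul_one, fb_add_self]
    exact W.zero_mem
  | mul a b _ _ ha hb =>
    have e : D (v * (a * b)) + D v = (D (v * a * b) + D (v * a)) + (D (v * a) + D v) := by
      rw [add_assoc, ← add_assoc (D (v * a)), fb_add_self, zero_add, mul_assoc]
    rw [e]
    exact W.add_mem (hb _) (ha _)
  | inv a _ ha =>
    have h1 := ha (v * a⁻¹)
    rwa [inv_mul_cancel_right, add_comm] at h1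

/-- **Reduction.**  PROOF.  A generator `o a * D v * o b` is `o a * o b * D v = o (a b) * D v` mod `W` (`com`), `a b = gP S * s`, `v = gP T * t` (`mod_sq`; `ret L (a * b) = a * b`), and
`o (gP S * s) * D v = o (gP S) * (o s * D v) = o (gP S) * D v` (`sql'`), `D (gP T * t) = D (gP T)` (`sqi'`).  Closure induction; sums over the finite set
`L.powerset ×ˢ L.powerset` of multiples. -/
theorem DHyp.red {W : AddSubgroup FB} {D : F → FB} {L : Finset ℕ} (h : DHyp W D L) {f : FB}
    (hf : f ∈ AddSubgroup.closure {r : FB | ∃ a v b : F, ret L a = a ∧ ret L v = v ∧ ret L b = b ∧ r = o a * D v * o b} ⊔ W) :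
    f ∈ AddSubgroup.closure {r : FB | ∃ S T : Finset ℕ, S ⊆ L ∧ T ⊆ L ∧ r = o (gP S) * D (gP T)} ⊔ W := by
  obtain ⟨f1, hf1, w, hw, rfl⟩ := AddSubgroup.mem_sup.1 hf
  refine AddSubgroup.add_mem _ ?_ (AddSubgroup.mem_sup_right hw)
  have cong : ∀ (Z : AddSubgroup FB) (a b : FB), W ≤ Z → a + b ∈ W → b ∈ Z → a ∈ Z := by
    intro Z a b hZ hab hb
    have e : a = (a + b) + b := by rw [add_assoc, fb_add_self, add_zero]
    rw [e]
    exact Z.add_mem (hZ hab) hb
  clear hf
  induction hf1 using AddSubgroup.closure_induction with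
  | mem r hr =>
    obtain ⟨a, v, b, ha, hv, hb, rfl⟩ := hr
    obtain ⟨S, hS, s, hs, h1⟩ := mod_sq (L := L) (g := a * b) (by rw [map_mul, ha, hb])
    obtain ⟨T, hT, t, ht, h2⟩ := mod_sq hv
    have e1 : o a * D v * o b + o (a * b) * D v ∈ W := by
      have e : o a * D v * o b + o (a * b) * D v = o a * (o b * D v + D v * o b) := by
        rw [mul_add, map_mul, mul_assoc, mul_assoc, add_comm]
      rw [e]
      exact h.bi.left _ _ (h.com _ _)
    have e2 : o (a * b) * D v + o (gP S) * D v ∈ W := by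
      have e : o (a * b) * D v + o (gP S) * D v = o (gP S) * (o s * D v + D v) := by
        rw [mul_add, h1, map_mul, mul_assoc]
      rw [e]
      exact h.bi.left _ _ (h.sql' hs v)
    have e3 : o (gP S) * D v + o (gP S) * D (gP T) ∈ W := by
      rw [← mul_add, h2]
      exact h.bi.left _ _ (h.sqi' ht _)
    refine cong _ _ _ le_sup_right e1 (cong _ _ _ le_sup_right e2 (cong _ _ _ le_sup_right e3 ?_))
    exact AddSubgroup.mem_sup_left (AddSubgroup.subset_closure ⟨S, T, hS, hT, rfl⟩)
  | zero => exact AddSubgroup.zero_mem _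
  | add a b _ _ ha hb => exact AddSubgroup.add_mem _ ha hb
  | neg a _ ha => exact AddSubgroup.neg_mem _ ha

end E4.X
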