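import Pool.Agent.Lib.MP_8a95e3_al.X05a

/-!
# X05b : the abstract D-lemma: inversion and projection
-/

noncomputable section

namespace E4.X

open E4

/-- inversion in characteristic two -/
private theorem X05b_inv (T : Finset ℕ) : ∀ g : Finset ℕ → FB,
    ∑ T' ∈ T.powerset, ∑ U ∈ T'.powerset, g U = g T := by
  induction T using Finset.induction_on with
  | empty =>
    intro g
    simp
  | insert a T ha ih =>
    intro g
    rw [Finset.sum_powerset_insert ha, ← Finset.sum_add_distrib]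
    have h1 : ∀ T' ∈ T.powerset, (∑ U ∈ T'.powerset, g U + ∑ U ∈ (insert a T').powerset, g U) =
        ∑ U ∈ T'.powerset, g (insert a U) := by
      intro T' hT'
      have h2 : a ∉ T' := fun h => ha (Finset.mem_powerset.1 hT' h)
      rw [Finset.sum_powerset_insert h2, ← add_assoc, fb_add_self, zero_add]
    rw [Finset.sum_congr rfl h1]
    exact ih fun U => g (insert a U)

/-- Moebius inversion.  PROOF: `o (gP S) = ∑_{S' ⊆ S} XP S'` and `D (gP T) = ∑_{T' ⊆ T} Dh D T'` (characteristic two: `∑_{T' ⊆ T} ∑_{U ⊆ T'} D (gP U)` counts `D (gP U)` exactly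
`2^(|T|-|U|)` times). -/
theorem moebius {W : AddSubgroup FB} {D : F → FB} {L : Finset ℕ} {f : FB}
    (hf : f ∈ AddSubgroup.closure {r : FB | ∃ S T : Finset ℕ, S ⊆ L ∧ T ⊆ L ∧ r = o (gP S) * D (gP T)} ⊔ W) :
    f ∈ AddSubgroup.closure {r : FB | ∃ S T : Finset ℕ, S ⊆ L ∧ T ⊆ L ∧ r = XP S * Dh D T} ⊔ W := by
  refine (sup_le_sup_right ?_ W : (_ : AddSubgroup FB) ≤ _) hf
  rw [AddSubgroup.closure_le]
  rintro r ⟨S, T, hS, hT, rfl⟩
  have h1 : o (gP S) = ∑ S' ∈ S.powerset, XP S' := by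
    rw [← X05b_inv S fun U => o (gP U)]
    exact (Finset.sum_congr rfl fun S' _ => XP_sum S').symm
  have h2 : D (gP T) = ∑ T' ∈ T.powerset, Dh D T' := (X05b_inv T fun U => D (gP U)).symm
  rw [h1, h2, Finset.sum_mul]
  refine AddSubgroup.sum_mem _ fun S' hS' => ?_
  rw [Finset.mul_sum]
  refine AddSubgroup.sum_mem _ fun T' hT' => ?_
  exact AddSubgroup.subset_closure ⟨S', T', (Finset.mem_powerset.1 hS').trans hS, (Finset.mem_powerset.1 hT').trans hT, rfl⟩

/-- killing a letter of `Dh`.  PROOF: `eB (rp j 1) (D (gP U)) = D (gP (U.erase j))` (`nat`, `gP_kill`); for `j ∈ T` the terms `U`, `U ∆ {j}` cancel; for `j ∉ T` nothing changes. -/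
theorem DHyp.Dh_kill {W : AddSubgroup FB} {D : F → FB} {L : Finset ℕ} (h : DHyp W D L) {j : ℕ} (hj : j ∈ L) (T : Finset ℕ) :
    eB (rp j 1) (Dh D T) = if j ∈ T then 0 else Dh D T := by
  have h1 : eB (rp j 1) (Dh D T) = ∑ U ∈ T.powerset, D (gP (U.erase j)) := by
    rw [Dh, map_sum]
    exact Finset.sum_congr rfl fun U _ => by rw [h.nat j hj, gP_kill]
  rw [h1]
  by_cases hT : j ∈ T
  · rw [if_pos hT]
    obtain ⟨T0, hT0⟩ : ∃ T0 : Finset ℕ, T0 = T.erase j := ⟨_, rfl⟩
    have hjT0 : j ∉ T0 := by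
      rw [hT0]
      exact Finset.notMem_erase j T
    have hT1 : T = insert j T0 := by
      rw [hT0, Finset.insert_erase hT]
    rw [hT1, Finset.sum_powerset_insert hjT0, ← Finset.sum_add_distrib]
    refine Finset.sum_eq_zero fun U hU => ?_
    have h2 : j ∉ U := fun h' => hjT0 (Finset.mem_powerset.1 hU h')
    rw [Finset.erase_eq_of_notMem h2, Finset.erase_insert h2, fb_add_self]
  · rw [if_neg hT, Dh]
    refine Finset.sum_congr rfl fun U hU => ?_
    have h2 : j ∉ U := fun h' => hT (Finset.mem_powerset.1 hU h')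
    rw [Finset.erase_eq_of_notMem h2]

private theorem X05b_kls {U : Finset ℕ} {j : ℕ} (hj : j ∈ U) (f : FB) :
    eB (kls U) f = eB (kls (U.erase j)) (eB (rp j 1) f) := by
  rw [eB_comp]
  have h : kls U = (kls (U.erase j)).comp (rp j 1) := by
    refine hom_ext fun i => ?_
    rw [MonoidHom.comp_apply, rp_x, kls_x]
    by_cases hi : i = j
    · rw [if_pos hi, map_one, hi, if_pos hj]
    · rw [if_neg hi, kls_x]
      by_cases hU : i ∈ U
      · rw [if_pos hU, if_pos (Finset.mem_erase.2 ⟨hi, hU⟩)]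
      · rw [if_neg hU, if_neg fun h' => hU (Finset.mem_of_mem_erase h')]
  rw [h]

private theorem X05b_comm (i j : ℕ) : (rp i 1).comp (rp j 1) = (rp j 1).comp (rp i 1) := by
  refine hom_ext fun k => ?_
  rw [MonoidHom.comp_apply, MonoidHom.comp_apply, rp_x, rp_x]
  by_cases hi : k = i
  · by_cases hj : k = j
    · rw [if_pos hi, if_pos hj, map_one, map_one]
    · rw [if_pos hi, if_neg hj, map_one, rp_x, if_pos hi]
  · by_cases hj : k = j
    · rw [if_neg hi, if_pos hj, map_one, rp_x, if_pos hj]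
    · rw [if_neg hi, if_neg hj, rp_x, rp_x, if_neg hi, if_neg hj]

/-- **Projection.**  PROOF.  `QL L f + f ∈ W` because `eB (kls U) f ∈ W` for `U ≠ ∅` (`hk`, `kls_mem`); apply `QL L` to the closure: `QL L (XP S * Dh D T)` is `XP S * Dh D T` if
`S ∪ T = L` (`QL_eq`: it is killed by every `rp j 1`, `j ∈ L`) and `0` otherwise (a letter `j ∈ L`, `j ∉ S ∪ T`: the terms `U`, `U ∆ {j}` of `QL` agree). -/
theorem DHyp.proj {W : AddSubgroup FB} {D : F → FB} {L : Finset ℕ} (h : DHyp W D L) {f : FB}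
    (hf : f ∈ AddSubgroup.closure {r : FB | ∃ S T : Finset ℕ, S ⊆ L ∧ T ⊆ L ∧ r = XP S * Dh D T} ⊔ W)
    (hk : ∀ j ∈ L, eB (rp j 1) f ∈ W) :
    f ∈ AddSubgroup.closure {r : FB | ∃ S T : Finset ℕ, S ⊆ L ∧ T ⊆ L ∧ S ∪ T = L ∧ r = XP S * Dh D T} ⊔ W := by
  obtain ⟨V, hV⟩ : ∃ V : AddSubgroup FB, V =
    AddSubgroup.closure {r : FB | ∃ S T : Finset ℕ, S ⊆ L ∧ T ⊆ L ∧ S ∪ T = L ∧ r = XP S * Dh D T} := ⟨_, rfl⟩
  rw [← hV]
  have h1 : QL L f + f ∈ W := by
    have h0 : eB (kls ∅) f = f := eB_id _ (fun i => by rw [kls_x, if_neg (Finset.notMem_empty i)]) f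
    have h2 : QL L f = f + ∑ U ∈ L.powerset.erase ∅, eB (kls U) f := by
      rw [QL_apply, ← Finset.add_sum_erase L.powerset (fun U => eB (kls U) f) (Finset.empty_mem_powerset L), h0]
    rw [h2, add_right_comm, fb_add_self, zero_add]
    refine AddSubgroup.sum_mem _ fun U hU => ?_
    obtain ⟨hU1, hU2⟩ := Finset.mem_erase.1 hU
    obtain ⟨j, hj⟩ := Finset.nonempty_iff_ne_empty.2 hU1
    have hUL := Finset.mem_powerset.1 hU2
    rw [X05b_kls hj]
    exact kls_mem h.kill ((Finset.erase_subset j U).trans hUL) (hk j (hUL hj))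
  have h2 : QL L f ∈ V ⊔ W := by
    have h3 : AddSubgroup.closure {r : FB | ∃ S T : Finset ℕ, S ⊆ L ∧ T ⊆ L ∧ r = XP S * Dh D T} ⊔ W ≤
        (V ⊔ W).comap (QL L) := by
      refine sup_le ?_ ?_
      · rw [AddSubgroup.closure_le]
        rintro r ⟨S, T, hS, hT, rfl⟩
        show QL L (XP S * Dh D T) ∈ V ⊔ W
        by_cases hST : S ∪ T = L
        · rw [QL_eq]
          · refine (le_sup_left : V ≤ V ⊔ W) ?_
            rw [hV]
            exact AddSubgroup.subset_closure ⟨S, T, hS, hT, hST, rfl⟩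
          · intro j hj
            rw [map_mul]
            rw [← hST] at hj
            rcases Finset.mem_union.1 hj with hj | hj
            · rw [XP_kill hj, zero_mul]
            · rw [h.Dh_kill (hT hj), if_pos hj, mul_zero]
        · have h4 : ∃ j ∈ L, j ∉ S ∪ T := by
            by_contra hcon
            exact hST (Finset.Subset.antisymm (Finset.union_subset hS hT) fun i hi =>
              by_contra fun hi2 => hcon ⟨i, hi, hi2⟩)
          obtain ⟨j, hj, hj2⟩ := h4
          have hjS : j ∉ S := fun h' => hj2 (Finset.mem_union_left T h')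
          have hjT : j ∉ T := fun h' => hj2 (Finset.mem_union_right S h')
          have h5 : eB (rp j 1) (XP S * Dh D T) = XP S * Dh D T := by
            rw [map_mul, h.Dh_kill hj, if_neg hjT, XP_fix (rp j 1)]
            intro i hi
            rw [rp_x, if_neg]
            rintro rfl
            exact hjS hi
          have h6 := QL_comm (L := L) (rp j 1) (fun i _ => X05b_comm i j) (XP S * Dh D T)
          rw [QL_kill hj, h5] at h6
          rw [← h6]
          exact AddSubgroup.zero_mem _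
      · intro w hw
        exact (le_sup_right : W ≤ V ⊔ W) (QL_mem h.kill hw)
    exact h3 hf
  have h3 : f = QL L f + (QL L f + f) := by
    rw [← add_assoc, fb_add_self, zero_add]
  rw [h3]
  exact AddSubgroup.add_mem _ h2 ((le_sup_right : W ≤ V ⊔ W) h1)

end E4.X
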