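import Pool.Agent.Lib.MP_8a95e3_al.X05b

/-!
# X05c : the abstract D-lemma: moving letters
-/

noncomputable section

namespace E4.X

open E4

private theorem X05c_tr {W : AddSubgroup FB} {a b c : FB} (h1 : a + b ∈ W) (h2 : b + c ∈ W) : a + c ∈ W := by
  have h3 : a + c = a + b + (b + c) := by
    have h4 : a + b + (b + c) = a + c + (b + b) := by abel
    rw [h4, fb_add_self, add_zero]
  rw [h3]
  exact W.add_mem h1 h2

private theorem X05c_two {T : Finset ℕ} (hT : T.Nonempty) : ((T.powerset.card : ℕ) : FB) = 0 := by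
  obtain ⟨n, hn⟩ : ∃ n, T.card = n + 1 := ⟨T.card - 1, by have := hT.card_pos; omega⟩
  rw [Finset.card_powerset, hn, pow_succ]
  push_cast
  have h2 : (2 : FB) = 0 := by
    have := fb_add_self (1 : FB)
    rwa [one_add_one_eq_two] at this
  rw [h2, mul_zero]

/-- PROOF.  `Dh D T = ∑_U D (gP U)`; `C g * D (gP U) ≡ C (gP U) * D g` (`sym`), so `C g * Dh D T ≡ (∑_U C (gP U)) * D g = XP T * D g` for `T ≠ ∅`
(`∑_{U ⊆ T} C (gP U) = ∑ o (gP U) + 2^|T| = XP T`).  For `T = ∅`: `Dh D ∅ = D 1 ∈ W`. -/
theorem DHyp.move {W : AddSubgroup FB} {D : F → FB} {L : Finset ℕ} (h : DHyp W D L) (g : F) {T : Finset ℕ} (hT : T.Nonempty) :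
    C g * Dh D T + XP T * D g ∈ W := by
  have h1 : XP T = ∑ U ∈ T.powerset, C (gP U) := by
    unfold C
    rw [Finset.sum_add_distrib, Finset.sum_const, nsmul_eq_mul, mul_one, X05c_two hT, add_zero, XP_sum]
  have h2 : C g * Dh D T + XP T * D g = ∑ U ∈ T.powerset, (C g * D (gP U) + C (gP U) * D g) := by
    rw [Finset.sum_add_distrib, h1, Dh, Finset.mul_sum, Finset.sum_mul]
  rw [h2]
  exact W.sum_mem fun U _ => h.sym g (gP U)

private theorem X05c_comm (g h : F) : h⁻¹ * g⁻¹ * h * g ∈ Subgroup.closure {r : F | ∃ c : F, r = c ^ 2} := by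
  have h1 : h⁻¹ * g⁻¹ * h * g = (h⁻¹) ^ 2 * (h * g⁻¹) ^ 2 * g ^ 2 := by
    simp only [pow_two]
    group
  rw [h1]
  have h2 : ∀ c : F, c ^ 2 ∈ Subgroup.closure {r : F | ∃ c : F, r = c ^ 2} := fun c =>
    Subgroup.subset_closure ⟨c, rfl⟩
  exact Subgroup.mul_mem _ (Subgroup.mul_mem _ (h2 _) (h2 _)) (h2 _)

/-- factors of `XP` may be permuted in front of a `D`.  PROOF: mod `W` the action of the group elements on `D v` is commutative: `o g o h D v ≡ o g D v o h ≡ D v o g o h`, and
`o h o g D v ≡ …`; precisely `o g * o h * D v = o (h g) * o ((h g)⁻¹ g h) * D v` and the commutator is a product of squares (`sql'`). -/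
theorem DHyp.swap {W : AddSubgroup FB} {D : F → FB} {L : Finset ℕ} (h : DHyp W D L) (a b : FB) (v : F) :
    a * b * D v + b * a * D v ∈ W := by
  have hgh : ∀ g k : F, o g * o k * D v + o k * o g * D v ∈ W := by
    intro g k
    have h1 : o g * o k * D v + o k * o g * D v = o (g * k) * (o (k⁻¹ * g⁻¹ * k * g) * D v + D v) := by
      rw [mul_add, ← mul_assoc, ← map_mul, ← map_mul, ← map_mul]
      have h2 : g * k * (k⁻¹ * g⁻¹ * k * g) = k * g := by group
      rw [h2, add_comm]
    rw [h1]
    exact h.bi.left _ _ (h.sql' (X05c_comm g k) v)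
  refine fb_ind (p := fun a => a * b * D v + b * a * D v ∈ W) (fun g => ?_) ?_ ?_ a
  · refine fb_ind (p := fun b => o g * b * D v + b * o g * D v ∈ W) (fun k => hgh g k) ?_ ?_ b
    · simp
    · intro a b ha hb
      have h1 : o g * (a + b) * D v + (a + b) * o g * D v =
          (o g * a * D v + a * o g * D v) + (o g * b * D v + b * o g * D v) := by
        simp only [mul_add, add_mul]
        abel
      rw [h1]
      exact W.add_mem ha hb
  · simp
  · intro a a' ha ha'
    have h1 : (a + a') * b * D v + b * (a + a') * D v =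
        (a * b * D v + b * a * D v) + (a' * b * D v + b * a' * D v) := by
      simp only [mul_add, add_mul]
      abel
    rw [h1]
    exact W.add_mem ha ha'

/-- PROOF: `C g * C g = C (g^2)` and `sql`. -/
theorem DHyp.sq0 {W : AddSubgroup FB} {D : F → FB} {L : Finset ℕ} (h : DHyp W D L) (g v : F) : C g * C g * D v ∈ W := by
  rw [← pow_two, ← C_sq]
  exact h.sql g v

/-- the elements which annihilate all `D v` modulo `W` -/
private def X05c_A (W : AddSubgroup FB) (D : F → FB) (p : FB) : Prop := ∀ v, p * D v ∈ W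

private theorem X05c_A_add {W : AddSubgroup FB} {D : F → FB} {p q : FB} (hp : X05c_A W D p) (hq : X05c_A W D q) :
    X05c_A W D (p + q) := fun v => by
  rw [add_mul]
  exact W.add_mem (hp v) (hq v)

private theorem X05c_A_tr {W : AddSubgroup FB} {D : F → FB} {p q r : FB} (hp : X05c_A W D (p + q))
    (hq : X05c_A W D (q + r)) : X05c_A W D (p + r) := fun v => by
  have h1 := hp v
  have h2 := hq v
  rw [add_mul] at h1 h2 ⊢
  exact X05c_tr h1 h2

private theorem X05c_A_left {W : AddSubgroup FB} {D : F → FB} {L : Finset ℕ} (h : DHyp W D L) (c : FB) {p : FB}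
    (hp : X05c_A W D p) : X05c_A W D (c * p) := fun v => by
  rw [mul_assoc]
  exact h.bi.mul_left c (hp v)

private theorem X05c_A_right {W : AddSubgroup FB} {D : F → FB} {L : Finset ℕ} (h : DHyp W D L) (c : FB) {p : FB}
    (hp : X05c_A W D p) : X05c_A W D (p * c) := fun v => by
  have h1 := h.swap p c v
  have h2 := X05c_A_left h c hp v
  have h3 := W.add_mem h1 h2
  rw [add_assoc, fb_add_self, add_zero] at h3
  exact h3

private theorem X05c_A_comm {W : AddSubgroup FB} {D : F → FB} {L : Finset ℕ} (h : DHyp W D L) (a b : FB) :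
    X05c_A W D (a * b + b * a) := fun v => by
  rw [add_mul]
  exact h.swap a b v

private theorem X05c_perm {W : AddSubgroup FB} {D : F → FB} {L : Finset ℕ} (h : DHyp W D L) {l l' : List ℕ}
    (hl : l.Perm l') : X05c_A W D ((l.map Xl).prod + (l'.map Xl).prod) := by
  induction hl with
  | nil =>
    intro v
    rw [fb_add_self, zero_mul]
    exact W.zero_mem
  | cons a _ ih =>
    rw [List.map_cons, List.map_cons, List.prod_cons, List.prod_cons, ← mul_add]
    exact X05c_A_left h _ ih
  | swap a b l =>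
    simp only [List.map_cons, List.prod_cons]
    rw [← mul_assoc, ← mul_assoc, ← add_mul]
    exact X05c_A_right h _ (X05c_A_comm h _ _)
  | trans _ _ ih1 ih2 => exact X05c_A_tr ih1 ih2

private theorem X05c_union {W : AddSubgroup FB} {D : F → FB} {L : Finset ℕ} (h : DHyp W D L) {S T U : Finset ℕ}
    (hd : Disjoint S T) (hU : S ∪ T = U) : X05c_A W D (XP U + XP S * XP T) := by
  have h1 : (U.sort (· ≤ ·)).Perm (S.sort (· ≤ ·) ++ T.sort (· ≤ ·)) := by
    rw [List.perm_ext_iff_of_nodup (Finset.sort_nodup _ _)]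
    · intro a
      rw [List.mem_append, Finset.mem_sort, Finset.mem_sort, Finset.mem_sort, ← hU, Finset.mem_union]
    · refine List.Nodup.append (Finset.sort_nodup _ _) (Finset.sort_nodup _ _) ?_
      intro a ha hb
      rw [Finset.mem_sort] at ha hb
      exact (Finset.disjoint_left.1 hd) ha hb
  have h2 := X05c_perm h h1
  rw [List.map_append, List.prod_append] at h2
  exact h2

private theorem X05c_one (j : ℕ) : XP {j} = Xl j := by
  unfold XP
  rw [Finset.sort_singleton, List.map_singleton, List.prod_singleton]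

private theorem X05c_erase {W : AddSubgroup FB} {D : F → FB} {L : Finset ℕ} (h : DHyp W D L) {S : Finset ℕ} {j : ℕ}
    (hj : j ∈ S) : X05c_A W D (XP S + XP (S.erase j) * Xl j) := by
  rw [← X05c_one]
  refine X05c_union h ?_ ?_
  · rw [Finset.disjoint_singleton_right]
    exact Finset.notMem_erase j S
  · rw [Finset.union_comm, ← Finset.insert_eq, Finset.insert_erase hj]

private theorem X05c_Dh {W : AddSubgroup FB} {D : F → FB} {p : FB} (hp : X05c_A W D p) (T : Finset ℕ) :
    p * Dh D T ∈ W := by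
  rw [Dh, Finset.mul_sum]
  exact W.sum_mem fun U _ => hp _

/-- the last letter of the first factor is moved -/
private theorem X05c_step {W : AddSubgroup FB} {D : F → FB} {L : Finset ℕ} (h : DHyp W D L) {S T : Finset ℕ} {j : ℕ}
    (hj : j ∈ S) (hT : T.Nonempty) : XP S * Dh D T + XP (S.erase j) * XP T * D (x j) ∈ W := by
  have h1 := X05c_Dh (X05c_erase h hj) T
  rw [add_mul] at h1
  refine X05c_tr h1 ?_
  have h2 := h.bi.mul_left (XP (S.erase j)) (h.move (x j) hT)
  rw [mul_add, ← mul_assoc, ← mul_assoc] at h2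
  exact h2

/-- **Final step.**  PROOF.  Let `S ∪ T = L`.  `S = ∅`: `XP S * Dh D T = Dh D L`.  `T = ∅`: in `W`.  Otherwise take `j ∈ S`, if possible `j ∈ S ∩ T`; by `swap` (for every term of `Dh`) bring `Xl j` next to
`Dh D T`, `move`: `XP S * Dh D T ≡ XP (S.erase j) * XP T * D (x j)`.  If `S ∩ T ≠ ∅`: `j ∈ T`: bring `Xl j` of `XP T` to the right: `self`: in `W`.  If `S ∩ T = ∅`: `XP (S.erase j) * XP T` is, up to the
order, `XP (L.erase j)`, so `≡ XP (L.erase j) * D (x j)`; finally `XP (L.erase j) * D (x j) ≡ XP (L.erase m) * D (x m)`: for `j ≠ m` bring `Xl m` to the right and use `sym`.  If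
`|L| ≤ 1` the second element is `Dh D L` mod `W` and we may take `ε₂ = 0`. -/
theorem DHyp.fin {W : AddSubgroup FB} {D : F → FB} {L : Finset ℕ} (h : DHyp W D L) {m : ℕ} (hm : m ∈ L) {S T : Finset ℕ} (hST : S ∪ T = L) :
    ∃ ε₁ ε₂ : ZMod 2, (L.card ≤ 1 → ε₂ = 0) ∧
      XP S * Dh D T + ε₁ • Dh D L + ε₂ • (XP (L.erase m) * D (x m)) ∈ W := by
  rcases S.eq_empty_or_nonempty with hS | hS
  · refine ⟨1, 0, fun _ => rfl, ?_⟩
    rw [hS, Finset.empty_union] at hST
    rw [hS, hST, XP_empty, one_mul, one_smul, zero_smul, add_zero, fb_add_self]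
    exact W.zero_mem
  rcases T.eq_empty_or_nonempty with hT | hT
  · refine ⟨0, 0, fun _ => rfl, ?_⟩
    have h1 : Dh D T = D 1 := by
      rw [hT, Dh, Finset.powerset_empty, Finset.sum_singleton, gP_empty]
    rw [zero_smul, zero_smul, add_zero, add_zero, h1]
    exact h.bi.mul_left _ h.one
  by_cases hd : Disjoint S T
  · refine ⟨0, 1, fun hc => ?_, ?_⟩
    · exfalso
      have h1 : L.card = S.card + T.card := by rw [← hST, Finset.card_union_of_disjoint hd]
      have h2 := hS.card_pos
      have h3 := hT.card_pos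
      omega
    · rw [zero_smul, add_zero, one_smul]
      obtain ⟨j, hj⟩ := hS
      have hjT : j ∉ T := Finset.disjoint_left.1 hd hj
      have hjL : j ∈ L := by
        rw [← hST]
        exact Finset.mem_union_left _ hj
      refine X05c_tr (X05c_step h hj hT) ?_
      have h1 : S.erase j ∪ T = L.erase j := by
        rw [← hST, Finset.erase_union_distrib, Finset.erase_eq_of_notMem hjT]
      have h2 : Disjoint (S.erase j) T := Finset.disjoint_of_subset_left (Finset.erase_subset _ _) hd
      have h3 := X05c_union h h2 h1 (x j)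
      rw [add_mul, add_comm] at h3
      refine X05c_tr h3 ?_
      by_cases hjm : j = m
      · rw [hjm, fb_add_self]
        exact W.zero_mem
      · have h4 := X05c_erase h (Finset.mem_erase.2 ⟨Ne.symm hjm, hm⟩ : m ∈ L.erase j) (x j)
        rw [add_mul] at h4
        refine X05c_tr h4 ?_
        have h5 := h.bi.mul_left (XP ((L.erase j).erase m)) (h.sym (x m) (x j))
        rw [mul_add, ← mul_assoc, ← mul_assoc] at h5
        refine X05c_tr h5 ?_
        have h6 := X05c_erase h (Finset.mem_erase.2 ⟨hjm, hjL⟩ : j ∈ L.erase m) (x m)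
        rw [add_mul, add_comm, Finset.erase_right_comm] at h6
        exact h6
  · refine ⟨0, 0, fun _ => rfl, ?_⟩
    rw [zero_smul, zero_smul, add_zero, add_zero]
    obtain ⟨j, hj, hjT⟩ := Finset.not_disjoint_iff.1 hd
    have h1 := X05c_step h hj hT
    have h2 := X05c_A_left h (XP (S.erase j)) (X05c_erase h hjT) (x j)
    rw [mul_add, add_mul] at h2
    have h3 := X05c_tr h1 h2
    have h4 := h.bi.mul_left (XP (S.erase j) * XP (T.erase j)) (h.self (x j))
    have h5 : XP (S.erase j) * (XP (T.erase j) * Xl j) * D (x j) =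
        XP (S.erase j) * XP (T.erase j) * (C (x j) * D (x j)) := by
      show XP (S.erase j) * (XP (T.erase j) * C (x j)) * D (x j) = _
      simp only [mul_assoc]
    rw [h5] at h3
    have h6 := W.add_mem h3 h4
    rw [add_assoc, fb_add_self, add_zero] at h6
    exact h6

end E4.X
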