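import Pool.Agent.Lib.MP_8a95e3_al.X05c

/-!
# X05d : the abstract D-lemma: conclusion
-/

noncomputable section

namespace E4.X

open E4

private theorem X05d_even {T : Finset ℕ} (hT : T.Nonempty) (b : FB) : ∑ _U ∈ T.powerset, b = 0 := by
  rw [Finset.sum_const, Finset.card_powerset]
  obtain ⟨k, hk⟩ : ∃ k, T.card = k + 1 := ⟨T.card - 1, by have := hT.card_pos; omega⟩
  rw [hk, pow_succ, mul_nsmul', two_nsmul, fb_add_self, nsmul_zero]

private theorem X05d_pull {W : AddSubgroup FB} {D : F → FB} {L : Finset ℕ} (h : DHyp W D L) (v : F)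
    (m : ℕ) (T : Finset ℕ) (hm : m ∈ T) : XP T * D v + XP (T.erase m) * Xl m * D v ∈ W := by
  induction T using Finset.induction_on_min with
  | empty => exact absurd hm (Finset.notMem_empty m)
  | insert b T hb ih =>
    have hbT : b ∉ T := fun h1 => lt_irrefl b (hb b h1)
    by_cases hmb : m = b
    · subst hmb
      rw [Finset.erase_insert hbT, XP_insert hb]
      exact h.swap _ _ v
    · have hmT : m ∈ T := Finset.mem_of_mem_insert_of_ne hm hmb
      have h1 := h.bi.mul_left (Xl b) (ih hmT)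
      rw [Finset.erase_insert_of_ne (fun h2 => hmb h2.symm), XP_insert hb,
        XP_insert (fun c hc => hb c (Finset.mem_of_mem_erase hc))]
      rw [mul_add] at h1
      simp only [mul_assoc] at h1 ⊢
      exact h1

private theorem X05d_min {W : AddSubgroup FB} {D : F → FB}
    (coc : ∀ g v : F, D (g * v) + D g + D v + C v * D g ∈ W) {a : ℕ} {T : Finset ℕ}
    (hT : T.Nonempty) (ha : ∀ b ∈ T, a < b) : Dh D (insert a T) + XP T * D (x a) ∈ W := by
  have haT : a ∉ T := fun h1 => lt_irrefl a (ha a h1)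
  have h1 : ∑ U ∈ T.powerset, (D (x a * gP U) + D (x a) + D (gP U) + C (gP U) * D (x a)) ∈ W :=
    AddSubgroup.sum_mem _ fun U _ => coc (x a) (gP U)
  have h2 : ∑ U ∈ T.powerset, C (gP U) = XP T := by
    unfold C
    rw [Finset.sum_add_distrib, X05d_even hT, add_zero, XP_sum]
  have h3 : Dh D (insert a T) = ∑ U ∈ T.powerset, D (gP U) + ∑ U ∈ T.powerset, D (x a * gP U) := by
    unfold Dh
    rw [Finset.sum_powerset_insert haT]
    congr 1
    refine Finset.sum_congr rfl fun U hU => ?_
    rw [gP_insert fun b hb => ha b (Finset.mem_powerset.mp hU hb)]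
  rw [Finset.sum_add_distrib, Finset.sum_add_distrib, Finset.sum_add_distrib, X05d_even hT,
    add_zero, ← Finset.sum_mul, h2] at h1
  rw [h3, add_comm (∑ U ∈ T.powerset, D (gP U))]
  exact h1

private theorem X05d_ret (v : F) : ret ∅ v = 1 := by
  have h : ret ∅ = (1 : F →* F) := hom_ext fun i => by simp
  rw [h]
  rfl

/-- **The D-lemma**, nonempty case.  PROOF: `red`, `moebius`, `proj`, closure induction with `fin`. -/
theorem DHyp.main {W : AddSubgroup FB} {D : F → FB} {L : Finset ℕ} (h : DHyp W D L) {m : ℕ} (hm : m ∈ L) {f : FB}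
    (hf : f ∈ AddSubgroup.closure {r : FB | ∃ a v b : F, ret L a = a ∧ ret L v = v ∧ ret L b = b ∧ r = o a * D v * o b} ⊔ W)
    (hk : ∀ j ∈ L, eB (rp j 1) f ∈ W) :
    ∃ ε₁ ε₂ : ZMod 2, (L.card ≤ 1 → ε₂ = 0) ∧ f + ε₁ • Dh D L + ε₂ • (XP (L.erase m) * D (x m)) ∈ W := by
  have h1 := h.proj (moebius (h.red hf)) hk
  obtain ⟨a, ha, w, hw, rfl⟩ := AddSubgroup.mem_sup.mp h1
  have key : ∀ a ∈ AddSubgroup.closure {r : FB | ∃ S T : Finset ℕ, S ⊆ L ∧ T ⊆ L ∧ S ∪ T = L ∧
      r = XP S * Dh D T}, ∃ ε₁ ε₂ : ZMod 2, (L.card ≤ 1 → ε₂ = 0) ∧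
        a + ε₁ • Dh D L + ε₂ • (XP (L.erase m) * D (x m)) ∈ W := by
    intro a ha
    induction ha using AddSubgroup.closure_induction with
    | mem r hr =>
      obtain ⟨S, T, -, -, hST, rfl⟩ := hr
      exact h.fin hm hST
    | zero =>
      refine ⟨0, 0, fun _ => rfl, ?_⟩
      rw [zero_smul, zero_smul, add_zero, add_zero]
      exact W.zero_mem
    | add a b _ _ iha ihb =>
      obtain ⟨e1, e2, he, h2⟩ := iha
      obtain ⟨d1, d2, hd, h3⟩ := ihb
      refine ⟨e1 + d1, e2 + d2, fun hc => by rw [he hc, hd hc, add_zero], ?_⟩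
      have h4 := W.add_mem h2 h3
      rw [add_smul, add_smul]
      have e : a + b + (e1 • Dh D L + d1 • Dh D L) +
          (e2 • (XP (L.erase m) * D (x m)) + d2 • (XP (L.erase m) * D (x m))) =
          a + e1 • Dh D L + e2 • (XP (L.erase m) * D (x m)) +
            (b + d1 • Dh D L + d2 • (XP (L.erase m) * D (x m))) := by
        abel
      rw [e]
      exact h4
    | neg a _ iha =>
      obtain ⟨e1, e2, he, h2⟩ := iha
      refine ⟨e1, e2, he, ?_⟩
      rw [fb_neg]
      exact h2
  obtain ⟨e1, e2, he, h2⟩ := key a ha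
  refine ⟨e1, e2, he, ?_⟩
  have e : a + w + e1 • Dh D L + e2 • (XP (L.erase m) * D (x m)) =
      a + e1 • Dh D L + e2 • (XP (L.erase m) * D (x m)) + w := by
    abel
  rw [e]
  exact W.add_mem h2 hw

/-- **The D-lemma**, `L = ∅`.  PROOF: `ret ∅ v = 1` for all `v`, so the generators are multiples of `D 1 ∈ W`. -/
theorem DHyp.main0 {W : AddSubgroup FB} {D : F → FB} (h : DHyp W D ∅) {f : FB}
    (hf : f ∈ AddSubgroup.closure {r : FB | ∃ a v b : F, ret ∅ a = a ∧ ret ∅ v = v ∧ ret ∅ b = b ∧ r = o a * D v * o b} ⊔ W) :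
    f ∈ W := by
  obtain ⟨a, ha, w, hw, rfl⟩ := AddSubgroup.mem_sup.mp hf
  refine W.add_mem ?_ hw
  refine (AddSubgroup.closure_le W).mpr ?_ ha
  rintro r ⟨a, v, b, -, hv, -, rfl⟩
  rw [X05d_ret] at hv
  subst hv
  exact h.bi.mul_right _ (h.bi.mul_left _ h.one)

/-- if `D` is a cocycle modulo `W` the two elements agree.  PROOF.  By `coc` and `com`-type moves: `D (gP (insert a U)) = D (x a * gP U) ≡ D (x a) + D (gP U) + C (gP U) * D (x a)` (`a <` all of `U`); sum over `U ⊆ T`,
`T ≠ ∅`: `Dh D (insert a T) = ∑_U (D (gP U) + D (x a * gP U)) ≡ ∑_U (D (x a) + C (gP U) * D (x a)) ≡ XP T * D (x a)`.  So `Dh D L ≡ XP (L.erase a) * D (x a)` with `a = min L`, and then as in `fin`. -/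
theorem DHyp.cocycle {W : AddSubgroup FB} {D : F → FB} {L : Finset ℕ} (h : DHyp W D L)
    (coc : ∀ g v : F, D (g * v) + D g + D v + C v * D g ∈ W) {m : ℕ} (hm : m ∈ L) :
    Dh D L + XP (L.erase m) * D (x m) ∈ W := by
  have hL : L.Nonempty := ⟨m, hm⟩
  have haL := Finset.min'_mem L hL
  set a := L.min' hL with ha
  have hmin : ∀ b ∈ L.erase a, a < b := fun b hb =>
    lt_of_le_of_ne (Finset.min'_le L b (Finset.mem_of_mem_erase hb)) (Finset.ne_of_mem_erase hb).symm
  have hins : insert a (L.erase a) = L := Finset.insert_erase haL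
  by_cases hT : (L.erase a).Nonempty
  · have h1 := X05d_min coc hT hmin
    rw [hins] at h1
    by_cases hma : m = a
    · rw [hma]
      exact h1
    · have hmT : m ∈ L.erase a := Finset.mem_erase.mpr ⟨hma, hm⟩
      have h2 := X05d_pull h (x a) m (L.erase a) hmT
      have h3 := h.bi.mul_left (XP ((L.erase a).erase m)) (h.sym (x m) (x a))
      have h4 := h.swap (XP ((L.erase a).erase m)) (Xl a) (x m)
      have h5 : XP (L.erase m) = Xl a * XP ((L.erase a).erase m) := by
        rw [← XP_insert (fun c hc => hmin c (Finset.mem_of_mem_erase hc))]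
        congr 1
        rw [← Finset.erase_insert_of_ne (fun h6 => hma h6.symm), hins]
      rw [h5]
      have h7 := W.add_mem (W.add_mem h1 h2) (W.add_mem h3 h4)
      have e : Dh D L + XP (L.erase a) * D (x a) +
          (XP (L.erase a) * D (x a) + XP ((L.erase a).erase m) * Xl m * D (x a)) +
          (XP ((L.erase a).erase m) * (C (x m) * D (x a) + C (x a) * D (x m)) +
            (XP ((L.erase a).erase m) * Xl a * D (x m) + Xl a * XP ((L.erase a).erase m) * D (x m))) =
          Dh D L + Xl a * XP ((L.erase a).erase m) * D (x m) +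
            (XP (L.erase a) * D (x a) + XP (L.erase a) * D (x a)) +
            (XP ((L.erase a).erase m) * Xl m * D (x a) + XP ((L.erase a).erase m) * Xl m * D (x a)) +
            (XP ((L.erase a).erase m) * Xl a * D (x m) +
              XP ((L.erase a).erase m) * Xl a * D (x m)) := by
        simp only [Xl, mul_add, mul_assoc]
        abel
      rw [e, fb_add_self, fb_add_self, fb_add_self, add_zero, add_zero, add_zero] at h7
      exact h7
  · rw [Finset.not_nonempty_iff_eq_empty] at hT
    have hma : m = a := by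
      by_contra h1
      have h2 : m ∈ L.erase a := Finset.mem_erase.mpr ⟨h1, hm⟩
      rw [hT] at h2
      exact absurd h2 (Finset.notMem_empty m)
    have hLa : L = {a} := by
      rw [← hins, hT]
      rfl
    rw [hma, hT, XP_empty, one_mul, hLa]
    have e : Dh D {a} = D 1 + D (x a) := by
      have h1 : ({a} : Finset ℕ) = insert a ∅ := rfl
      unfold Dh
      rw [h1, Finset.sum_powerset_insert (Finset.notMem_empty a), Finset.powerset_empty,
        Finset.sum_singleton, Finset.sum_singleton, gP_empty,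
        gP_insert (fun b hb => absurd hb (Finset.notMem_empty b)), gP_empty, mul_one]
    rw [e, add_assoc, fb_add_self, add_zero]
    exact h.one

end E4.X
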