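import Pool.Agent.Lib.MP_8a95e3_al.X05d

/-!
# X06a : evaluation at squares and polarisation, I
-/

noncomputable section

namespace E4.X

open E4

/-- PROOF: `eB_idl`: `eB (sqs Q) (Xl q * o a * Xl q) = C (x q ^ 2) * o a' * C (x q ^ 2) = Xl q * Xl q * o a' * Xl q * Xl q` (`C_sq`), which is `four` with the middle factors `o 1`, `o a'`, `o 1`. -/
theorem sq_I2 {P : AddSubgroup FB} (hP : TI P) (h4 : ∀ g a b c : F, C g * o a * C g * o b * C g * o c * C g ∈ P)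
    {Q : Finset ℕ} {q : ℕ} (hq : q ∈ Q) {f : FB} (hf : f ∈ I2 q) : eB (sqs Q) f ∈ P := by
  refine eB_idl hP.bi (sqs Q) ?_ hf
  rintro s ⟨a, rfl⟩
  have h1 : eB (sqs Q) (Xl q) = C (x q) ^ 2 := by
    rw [Xl, eB_C, sqs_x, if_pos hq, C_sq]
  rw [map_mul, map_mul, h1, eB_o]
  have h2 := h4 (x q) 1 (sqs Q a) 1
  have h3 : C (x q) ^ 2 * o (sqs Q a) * C (x q) ^ 2 =
      C (x q) * o 1 * C (x q) * o (sqs Q a) * C (x q) * o 1 * C (x q) := by
    rw [map_one, mul_one, mul_one, pow_two]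
    simp only [mul_assoc]
  rw [h3]
  exact h2

/-- PROOF: `P` is stable, `sq_I2`. -/
theorem sq_NP {P : AddSubgroup FB} (hP : TI P) (h4 : ∀ g a b c : F, C g * o a * C g * o b * C g * o c * C g ∈ P)
    {Q Q' : Finset ℕ} (hQ : Q ⊆ Q') {f : FB} (hf : f ∈ NP P Q) : eB (sqs Q') f ∈ P := by
  have h : NP P Q ≤ P.comap (eB (sqs Q')).toAddMonoidHom := by
    refine sup_le (fun p hp => hP.endo _ p hp) ?_
    refine iSup₂_le fun q hq => ?_
    intro r hr
    exact sq_I2 hP h4 (hQ hq) hr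
  exact h hf

/-- PROOF: `sq_I2` and `e0` (with `eB_comp`: `(sqs Q).comp …`; for the generators `eB (sqs {y,z}) (o a * ee g y z * o b)`; for a larger `Q` apply `eB (sqs (Q \ {y,z}))`). -/
theorem sq_NN {P : AddSubgroup FB} (hP : A0F P) (h4 : ∀ g a b c : F, C g * o a * C g * o b * C g * o c * C g ∈ P)
    {y z : ℕ} (hyz : y ≠ z) {f : FB} (hf : f ∈ NN P y z) : eB (sqs {y, z}) f ∈ P := by
  have h : NN P y z ≤ P.comap (eB (sqs {y, z})).toAddMonoidHom := by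
    refine sup_le (sup_le (sup_le (fun p hp => hP.ti.endo _ p hp) ?_) ?_) ?_
    · intro r hr
      exact sq_I2 hP.ti h4 (by simp) hr
    · intro r hr
      exact sq_I2 hP.ti h4 (by simp) hr
    · intro r hr
      refine eB_idl hP.ti.bi (sqs {y, z}) ?_ hr
      rintro s ⟨g, rfl⟩
      exact hP.e0 y z hyz g
  exact h hf

private theorem X06a_Xl (k : ℕ) : Xl k ∈ I1 k := sub_idl rfl

private theorem X06a_12 {k : ℕ} {p q : FB} (hp : p ∈ I1 k) (hq : q ∈ I1 k) (a b r : FB) :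
    p * a * q * b * r ∈ I2 k := by
  have h := mul_I1_I1 ((I1_bi k).mul_right a hp) ((I1_bi k).mul_right (b * r) hq)
  simp only [mul_assoc] at h ⊢
  exact h

private theorem X06a_13 {k : ℕ} {p r : FB} (hp : p ∈ I1 k) (hr : r ∈ I1 k) (a b q : FB) :
    p * a * q * b * r ∈ I2 k := by
  have h := mul_I1_I1 ((I1_bi k).mul_right (a * q * b) hp) hr
  simp only [mul_assoc] at h ⊢
  exact h

private theorem X06a_23 {k : ℕ} {q r : FB} (hq : q ∈ I1 k) (hr : r ∈ I1 k) (a b p : FB) :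
    p * a * q * b * r ∈ I2 k := by
  have h := mul_I1_I1 ((I1_bi k).mul_right b ((I1_bi k).mul_left (p * a) hq)) hr
  simp only [mul_assoc] at h ⊢
  exact h

/-- the degree 3 part dies under `x_j ↦ x_j x_z`.  PROOF.  `eB_idl`: `C (x j * x z) = Xl j + Xl z + Xl j * Xl z` (`C_mul`); in the product of three such factors (with group elements
between them) every monomial contains `Xl j` twice or `Xl z` twice (each factor contributes `Xl j` or `Xl z`): so it is in `I2 j ⊔ I2 z`.  (Use `mul_I1_I1` and `Bi`: a product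
`A * o a * B * o b * D` with `A, B, D ∈ I1 j` or `I1 z`.) -/
theorem pol3 {j z : ℕ} (hjz : j ≠ z) {f : FB} (hf : f ∈ I3 j) : eB (rp j (x j * x z)) f ∈ I2 j ⊔ I2 z := by
  refine eB_idl ((I2_bi j).sup (I2_bi z)) _ ?_ hf
  rintro s ⟨a, b, rfl⟩
  obtain ⟨U, hU⟩ : ∃ U : FB, U = Xl j := ⟨_, rfl⟩
  obtain ⟨V, hV⟩ : ∃ V : FB, V = Xl z + Xl j * Xl z := ⟨_, rfl⟩
  have hU1 : U ∈ I1 j := by
    rw [hU]
    exact X06a_Xl j
  have hV1 : V ∈ I1 z := by
    rw [hV]
    exact (I1 z).add_mem (X06a_Xl z) ((I1_bi z).mul_left _ (X06a_Xl z))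
  have hA : eB (rp j (x j * x z)) (Xl j) = U + V := by
    rw [eB_Xl_rp_self, C_mul, hU, hV, ← add_assoc]
    rfl
  rw [map_mul, map_mul, map_mul, map_mul, hA, eB_o, eB_o]
  obtain ⟨c, hc⟩ : ∃ c : FB, c = o (rp j (x j * x z) a) := ⟨_, rfl⟩
  obtain ⟨d, hd⟩ : ∃ d : FB, d = o (rp j (x j * x z) b) := ⟨_, rfl⟩
  rw [← hc, ← hd]
  have e : (U + V) * c * (U + V) * d * (U + V) =
      (U * c * U * d * U + U * c * U * d * V + (U * c * V * d * U + V * c * U * d * U)) +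
        (U * c * V * d * V + V * c * U * d * V + (V * c * V * d * U + V * c * V * d * V)) := by
    simp only [add_mul, mul_add]
    abel
  rw [e]
  refine AddSubgroup.add_mem _ ((le_sup_left : I2 j ≤ I2 j ⊔ I2 z) ?_) ((le_sup_right : I2 z ≤ I2 j ⊔ I2 z) ?_)
  · exact (I2 j).add_mem ((I2 j).add_mem (X06a_12 hU1 hU1 _ _ _) (X06a_12 hU1 hU1 _ _ _))
      ((I2 j).add_mem (X06a_13 hU1 hU1 _ _ _) (X06a_23 hU1 hU1 _ _ _))
  · exact (I2 z).add_mem ((I2 z).add_mem (X06a_23 hV1 hV1 _ _ _) (X06a_13 hV1 hV1 _ _ _))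
      ((I2 z).add_mem (X06a_12 hV1 hV1 _ _ _) (X06a_12 hV1 hV1 _ _ _))

private theorem X06a_2 {k : ℕ} {p q : FB} (hp : p ∈ I1 k) (hq : q ∈ I1 k) (b : FB) :
    p * b * q ∈ I2 k := mul_I1_I1 ((I1_bi k).mul_right b hp) hq

/-- PROOF: `C (x j * x z) = Xl j + Xl z + Xl j * Xl z`; expand `(J + Z + J Z) b (J + Z + J Z)`: all terms but `J b Z + Z b J` contain `J … J` or `Z … Z`. -/
theorem pol2 {j z : ℕ} (hjz : j ≠ z) (b : FB) (hb : eB (rp j (x j * x z)) b = b) :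
    eB (rp j (x j * x z)) (Xl j * b * Xl j) + (Xl j * b * Xl z + Xl z * b * Xl j) ∈ I2 j ⊔ I2 z := by
  have hA : eB (rp j (x j * x z)) (Xl j) = Xl j + Xl z + Xl j * Xl z := by
    rw [eB_Xl_rp_self, C_mul]
    rfl
  rw [map_mul, map_mul, hA, hb]
  obtain ⟨U, hU⟩ : ∃ U : FB, U = Xl j := ⟨_, rfl⟩
  obtain ⟨V, hV⟩ : ∃ V : FB, V = Xl z := ⟨_, rfl⟩
  have hU1 : U ∈ I1 j := by
    rw [hU]
    exact X06a_Xl j
  have hV1 : V ∈ I1 z := by
    rw [hV]
    exact X06a_Xl z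
  have hUV : U * V ∈ I1 j := (I1_bi j).mul_right V hU1
  have hUV2 : U * V ∈ I1 z := (I1_bi z).mul_left U hV1
  rw [← hU, ← hV]
  have e0 : (U + V + U * V) * b * (U + V + U * V) + (U * b * V + V * b * U) =
      ((U * b * U + U * b * (U * V) + (U * V * b * U + U * V * b * (U * V))) +
        (V * b * V + V * b * (U * V) + U * V * b * V)) +
      ((U * b * V + U * b * V) + (V * b * U + V * b * U)) := by
    simp only [add_mul, mul_add]
    abel
  rw [e0, fb_add_self, fb_add_self, add_zero, add_zero]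
  refine AddSubgroup.add_mem _ ((le_sup_left : I2 j ≤ I2 j ⊔ I2 z) ?_) ((le_sup_right : I2 z ≤ I2 j ⊔ I2 z) ?_)
  · exact (I2 j).add_mem ((I2 j).add_mem (X06a_2 hU1 hU1 b) (X06a_2 hU1 hUV b))
      ((I2 j).add_mem (X06a_2 hUV hU1 b) (X06a_2 hUV hUV b))
  · exact (I2 z).add_mem ((I2 z).add_mem (X06a_2 hV1 hV1 b) (X06a_2 hV1 hUV2 b)) (X06a_2 hUV2 hV1 b)

/-- polarisation of `t(X_j²)`: for `t ∈ I1 j` which does not contain `z`, with coefficients free of `j` up to degree 2: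
`eB (rp j (x j * x z)) (eB (sqs {j}) t)` is in `idl {[J,Z]} ⊔ I2 j ⊔ I2 z`, more precisely congruent to `eB (rp j ((x j * x z)^2)) t`.
PROOF: it is EQUAL: `(rp j (x j * x z)).comp (sqs {j}) = rp j ((x j * x z) ^ 2)` on the letters (`sqs {j} (x j) = x j ^ 2 ↦ (x j x z)^2`; other letters fixed). -/
theorem pol_sq (j z : ℕ) (t : FB) :
    eB (rp j (x j * x z)) (eB (sqs {j}) t) = eB (rp j ((x j * x z) ^ 2)) t := by
  rw [eB_comp]
  have h : (rp j (x j * x z)).comp (sqs {j}) = rp j ((x j * x z) ^ 2) := by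
    refine hom_ext fun i => ?_
    rw [MonoidHom.comp_apply, sqs_x, rp_x]
    by_cases hi : i = j
    · rw [if_pos hi, if_pos (Finset.mem_singleton.2 hi), map_pow, rp_x, if_pos hi]
    · rw [if_neg hi, if_neg fun h' => hi (Finset.mem_singleton.1 h'), rp_x, if_neg hi]
  rw [h]

/-- PROOF: `eB_idl` and `four`: `eB (sqs {j})` of `I2 j` is in `P`. -/
theorem sq_t {P : AddSubgroup FB} (hP : Ids P) {j : ℕ} {t : FB} (ht : t ∈ P ⊔ I2 j) : eB (sqs {j}) t ∈ P := by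
  have h : P ⊔ I2 j ≤ P.comap (eB (sqs {j})).toAddMonoidHom := by
    refine sup_le (fun p hp => hP.ti.endo _ p hp) ?_
    intro r hr
    exact sq_I2 hP.ti hP.four (Finset.mem_singleton_self j) hr
  exact h ht

end E4.X
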