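import Pool.Agent.Lib.MP_8a95e3_al.X06a

/-!
# X06b : evaluation at squares and polarisation, II
-/

noncomputable section

namespace E4.X

open E4

private theorem X06b_sand (j : ℕ) (b : FB) : Xl j * b * Xl j ∈ I2 j := by
  refine fb_ind (p := fun b => Xl j * b * Xl j ∈ I2 j) (fun g => sub_idl ⟨g, rfl⟩) ?_ ?_ b
  · rw [mul_zero, zero_mul]
    exact (I2 j).zero_mem
  · intro a b ha hb
    rw [mul_add, add_mul]
    exact (I2 j).add_mem ha hb

private theorem X06b_sand1 (j : ℕ) : Xl j * Xl j ∈ I2 j := by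
  have h := X06b_sand j 1
  rwa [mul_one] at h

private theorem X06b_sq {j z : ℕ} : C ((x j * x z) ^ 2) + (Xl j * Xl z + Xl z * Xl j) ∈ I2 j ⊔ I2 z := by
  have h1 : C ((x j * x z) ^ 2) + (Xl j * Xl z + Xl z * Xl j) =
      (Xl j * Xl j + Xl j * Xl j * Xl z + Xl j * Xl z * Xl j + Xl j * Xl z * Xl j * Xl z) +
        (Xl z * Xl z + Xl z * Xl j * Xl z + Xl j * (Xl z * Xl z)) +
        ((Xl j * Xl z + Xl j * Xl z) + (Xl z * Xl j + Xl z * Xl j)) := by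
    rw [C_sq, C_mul]
    unfold Xl
    noncomm_ring
  rw [h1, fb_add_self, fb_add_self, add_zero, add_zero]
  refine AddSubgroup.add_mem _ (AddSubgroup.mem_sup_left ?_) (AddSubgroup.mem_sup_right ?_)
  · exact (I2 j).add_mem ((I2 j).add_mem ((I2 j).add_mem (X06b_sand1 j) ((I2_bi j).mul_right _ (X06b_sand1 j)))
      (X06b_sand j _)) ((I2_bi j).mul_right _ (X06b_sand j _))
  · exact (I2 z).add_mem ((I2 z).add_mem (X06b_sand1 z) (X06b_sand z _)) ((I2_bi z).mul_left _ (X06b_sand1 z))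

private theorem X06b_add {W : AddSubgroup FB} {a b : FB} (h : a + b ∈ W) (hb : b ∈ W) : a ∈ W := by
  have h1 := W.add_mem h hb
  rwa [add_assoc, fb_add_self, add_zero] at h1

/-- `t([J,Z])` is in the ideal of `[J,Z]` up to degree 2.  PROOF: closure induction on `I1 j`: `C ((x j x z)^2) = C (x j x z)^2 = (J + Z + JZ)^2 ≡ JZ + ZJ` mod `I2 j ⊔ I2 z`; the group elements
`a`, `b` become `eB (rp …) (o a)`. -/
theorem br_mem {j z : ℕ} (hjz : j ≠ z) {t : FB} (ht : t ∈ I1 j) :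
    eB (rp j ((x j * x z) ^ 2)) t ∈ idl {Xl j * Xl z + Xl z * Xl j} ⊔ (I2 j ⊔ I2 z) := by
  refine eB_idl ((idl_bi _).sup ((I2_bi j).sup (I2_bi z))) _ ?_ ht
  intro s hs
  rw [Set.mem_singleton_iff.1 hs, eB_Xl_rp_self]
  exact X06b_add (AddSubgroup.mem_sup_right X06b_sq) (AddSubgroup.mem_sup_left (sub_idl (Set.mem_singleton _)))

/-- PROOF.  `eB_idl`: `C ((x j x z)^2) * b * C ((x j x z)^2)`, each factor is in `idl {JZ + ZJ} ⊔ I2 j ⊔ I2 z ⊆ I1 j`, so the product is in `I2 j`. -/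
theorem br_I2 {j z : ℕ} (hjz : j ≠ z) {t : FB} (ht : t ∈ I2 j) :
    eB (rp j ((x j * x z) ^ 2)) t ∈ I2 j ⊔ I2 z := by
  have hB : Bi (I2 j ⊔ I2 z) := (I2_bi j).sup (I2_bi z)
  refine eB_idl hB _ ?_ ht
  rintro s ⟨a, rfl⟩
  rw [map_mul, map_mul, eB_Xl_rp_self]
  obtain ⟨b, hb⟩ : ∃ b, b = eB (rp j ((x j * x z) ^ 2)) (o a) := ⟨_, rfl⟩
  obtain ⟨A, hA⟩ : ∃ A, A = Xl j * Xl z + Xl z * Xl j := ⟨_, rfl⟩
  obtain ⟨c, hc⟩ : ∃ c, c = C ((x j * x z) ^ 2) := ⟨_, rfl⟩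
  have hn : c + A ∈ I2 j ⊔ I2 z := by
    rw [hc, hA]
    exact X06b_sq
  have hAI : A ∈ I1 j := by
    rw [hA]
    exact (I1 j).add_mem ((I1_bi j).mul_right _ (sub_idl (Set.mem_singleton _)))
      ((I1_bi j).mul_left _ (sub_idl (Set.mem_singleton _)))
  rw [← hb, ← hc]
  have h1 : c * b * c + c * b * A ∈ I2 j ⊔ I2 z := by
    rw [← mul_add]
    exact hB.mul_left _ hn
  have h2 : c * b * A + A * b * A ∈ I2 j ⊔ I2 z := by
    rw [← add_mul, ← add_mul]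
    exact hB.mul_right _ (hB.mul_right _ hn)
  have h3 : A * b * A ∈ I2 j ⊔ I2 z :=
    AddSubgroup.mem_sup_left (mul_I1_I1 ((I1_bi j).mul_right b hAI) hAI)
  exact X06b_add h1 (X06b_add h2 h3)

/-- splitting of `s ∈ idl {[J,Z]} ⊔ (I2 j ⊔ I2 z)` which vanishes if a letter of `H` is killed and contains only the letters of `M`: PROOF: write `s = s' + n`, apply `eB (ret M)` (which fixes
`x_j`, `x_z`) and `QL H`. -/
theorem split_br {H M : Finset ℕ} {j z : ℕ} (hj : j ∉ H) (hz : z ∉ H) (hjM : j ∈ M) (hzM : z ∈ M) {s : FB}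
    {W : AddSubgroup FB} (hW : ∀ φ : F →* F, φ (x j) = x j → φ (x z) = x z → ∀ w ∈ W, eB φ w ∈ W)
    (hs : s ∈ idl {Xl j * Xl z + Xl z * Xl j} ⊔ W)
    (hk : ∀ i ∈ H, eB (rp i 1) s = 0) (hr : eB (ret M) s = s) :
    ∃ s' ∈ idl {Xl j * Xl z + Xl z * Xl j}, ∃ n ∈ W, s = s' + n ∧ (∀ i ∈ H, eB (rp i 1) s' = 0) ∧
      eB (ret M) s' = s' := by
  have hI : ∀ φ : F →* F, φ (x j) = x j → φ (x z) = x z → ∀ w ∈ idl {Xl j * Xl z + Xl z * Xl j},
      eB φ w ∈ idl {Xl j * Xl z + Xl z * Xl j} := by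
    intro φ h1 h2 w hw
    refine eB_idl (idl_bi _) φ ?_ hw
    intro s hs
    have h3 : eB φ (Xl j) = Xl j := by
      unfold Xl
      rw [eB_C, h1]
    have h4 : eB φ (Xl z) = Xl z := by
      unfold Xl
      rw [eB_C, h2]
    rw [Set.mem_singleton_iff.1 hs, map_add, map_mul, map_mul, h3, h4]
    exact sub_idl (Set.mem_singleton _)
  have hrp : ∀ i ∈ H, rp i 1 (x j) = x j ∧ rp i 1 (x z) = x z := by
    intro i hi
    rw [rp_x, rp_x, if_neg, if_neg]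
    · exact ⟨rfl, rfl⟩
    · rintro rfl
      exact hz hi
    · rintro rfl
      exact hj hi
  have hrj : ret M (x j) = x j := by rw [ret_x, if_pos hjM]
  have hrz : ret M (x z) = x z := by rw [ret_x, if_pos hzM]
  obtain ⟨s₀, hs₀, n₀, hn₀, hsn⟩ := AddSubgroup.mem_sup.1 hs
  refine ⟨QL H (eB (ret M) s₀), ?_, QL H (eB (ret M) n₀), ?_, ?_, fun i hi => QL_kill hi _, ?_⟩
  · exact QL_mem (fun i hi w hw => hI _ (hrp i hi).1 (hrp i hi).2 w hw) (hI _ hrj hrz _ hs₀)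
  · exact QL_mem (fun i hi w hw => hW _ (hrp i hi).1 (hrp i hi).2 w hw) (hW _ hrj hrz _ hn₀)
  · rw [← map_add, ← map_add, hsn, hr, QL_eq hk]
  · refine QL_ret ?_
    rw [eB_comp, ret_ret, Finset.inter_self]

end E4.X
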