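import Pool.Agent.Lib.MP_8a95e3_al.X06b

/-!
# X07a : step C, second layer: the hypotheses of the D-lemma
-/

noncomputable section

namespace E4.X

open E4

private theorem X07a_fix {j : ℕ} {φ : F →* F} (h : φ (x j) = x j) : eB φ (Xl j) = Xl j := by
  unfold Xl
  rw [eB_C, h]

private theorem X07a_eBW2 {P : AddSubgroup FB} (hP : TI P) {j : ℕ} {φ : F →* F} (h : φ (x j) = x j) {w : FB}
    (hw : w ∈ W2 P j) : eB φ w ∈ W2 P j := by
  unfold W2 at hw
  obtain ⟨w1, h1, p, hp, rfl⟩ := AddSubgroup.mem_sup.1 hw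
  obtain ⟨u, hu, i, hi, rfl⟩ := AddSubgroup.mem_sup.1 h1
  rw [map_add, map_add]
  refine add_mem (add_mem ?_ ?_) ?_
  · refine eB_idl (W2_bi hP j) φ ?_ hu
    intro s hs
    rw [Set.mem_singleton_iff.1 hs, map_pow, X07a_fix h]
    exact AddSubgroup.mem_sup_left (AddSubgroup.mem_sup_left (sub_idl rfl))
  · exact AddSubgroup.mem_sup_left (AddSubgroup.mem_sup_right (eB_I3 φ h hi))
  · exact AddSubgroup.mem_sup_right (hP.endo φ p hp)

private theorem X07a_eBW {P : AddSubgroup FB} (hP : TI P) {j : ℕ} {φ : F →* F} (h : φ (x j) = x j) {w : FB}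
    (hw : w ∈ I3 j ⊔ P) : eB φ w ∈ I3 j ⊔ P := by
  obtain ⟨i, hi, p, hp, rfl⟩ := AddSubgroup.mem_sup.1 hw
  rw [map_add]
  exact add_mem (AddSubgroup.mem_sup_left (eB_I3 φ h hi)) (AddSubgroup.mem_sup_right (hP.endo φ p hp))

/-- PROOF.  `D v = Xl j * o v * Xl j`, `W = W2 P j`.  `bi`: `W2_bi`; `kill`: `eB_idl`, `eB_I3`, `TI.endo` (`i ≠ j` since `j ∉ H`); `nat`: `eB_o`, `eB_Xl_rp_ne`; `one`: `Xl j ^ 2`; `sql`: `s2a` with `g = c^2`;
`sqr`: `s2b`; `sqi`: `D (v c²) + D v = Xl j * o v * C (c^2) * Xl j` (`s2c`); `com`: `o g D + D o g = (C g D + D) + (D C g + D)`; `sym`: both terms in `W` by `s2a`; `self`: `s2a`. -/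
theorem dhyp2 {P : AddSubgroup FB} (hP : Ids P) {H : Finset ℕ} {j : ℕ} (hj : j ∉ H) :
    DHyp (W2 P j) (fun v => Xl j * o v * Xl j) H := by
  have hne : ∀ i ∈ H, j ≠ i := fun i hi e => hj (e ▸ hi)
  refine ⟨W2_bi hP.ti j, ?_, ?_, ?_, ?_, ?_, ?_, ?_, ?_, ?_⟩
  · intro i hi w hw
    refine X07a_eBW2 hP.ti ?_ hw
    rw [rp_x, if_neg (hne i hi)]
  · intro i hi v
    rw [map_mul, map_mul, eB_o, eB_Xl_rp_ne 1 (hne i hi)]
  · have e : Xl j * o 1 * Xl j = Xl j ^ 2 := by rw [map_one, mul_one, pow_two]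
    show Xl j * o 1 * Xl j ∈ W2 P j
    rw [e]
    exact AddSubgroup.mem_sup_left (AddSubgroup.mem_sup_left (sub_idl rfl))
  · intro c v
    exact hP.s2a j (c ^ 2) v
  · intro c v
    exact hP.s2b j (c ^ 2) v
  · intro c v
    have e : Xl j * o (v * c ^ 2) * Xl j + Xl j * o v * Xl j = Xl j * o v * C (c ^ 2) * Xl j := by
      unfold C
      rw [map_mul]
      noncomm_ring
    show Xl j * o (v * c ^ 2) * Xl j + Xl j * o v * Xl j ∈ W2 P j
    rw [e]
    exact hP.s2c j c v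
  · intro g v
    have e : o g * (Xl j * o v * Xl j) + Xl j * o v * Xl j * o g =
        C g * (Xl j * o v * Xl j) + Xl j * o v * Xl j * C g := by
      have h2 := fb_add_self (Xl j * o v * Xl j)
      have e1 : C g * (Xl j * o v * Xl j) + Xl j * o v * Xl j * C g =
        (o g * (Xl j * o v * Xl j) + Xl j * o v * Xl j * o g) + (Xl j * o v * Xl j + Xl j * o v * Xl j) := by
        unfold C
        noncomm_ring
      rw [e1, h2, add_zero]
    show o g * (Xl j * o v * Xl j) + Xl j * o v * Xl j * o g ∈ W2 P j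
    rw [e]
    exact add_mem (hP.s2a j g v) (hP.s2b j g v)
  · intro g v
    exact add_mem (hP.s2a j g v) (hP.s2a j v g)
  · intro g
    exact hP.s2a j g g

private theorem X07a_gen {j : ℕ} (a b : F) :
    ∃ t ∈ I1 j, o a * Xl j ^ 2 * o b + eB (sqs {j}) t ∈ I3 j := by
  have hsq : ∀ c : F, sqs {j} (rp j 1 c) = rp j 1 c := by
    intro c
    have : (sqs {j}).comp (rp j 1) = rp j 1 := by
      apply hom_ext
      intro i
      rw [MonoidHom.comp_apply, rp_x]
      by_cases e : i = j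
      · rw [if_pos e, map_one]
      · rw [if_neg e, sqs_x, if_neg (by rwa [Finset.mem_singleton])]
    exact DFunLike.congr_fun this c
  have hX : Xl j ∈ I1 j := sub_idl rfl
  have hX2 : Xl j ^ 2 ∈ I2 j := by
    rw [pow_two]
    exact mul_I1_I1 hX hX
  refine ⟨o (rp j 1 a) * Xl j * o (rp j 1 b), (I1_bi j).right _ _ ((I1_bi j).left _ _ hX), ?_⟩
  have e0 : eB (sqs {j}) (Xl j) = Xl j ^ 2 := by
    unfold Xl
    rw [eB_C, sqs_x, if_pos (Finset.mem_singleton_self j), C_sq]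
  rw [map_mul, map_mul, eB_o, eB_o, hsq, hsq, e0]
  have h2 := fb_add_self (o (rp j 1 a) * Xl j ^ 2 * o b)
  have e1 : o a * Xl j ^ 2 * o b + o (rp j 1 a) * Xl j ^ 2 * o (rp j 1 b) =
      (o a + o (rp j 1 a)) * Xl j ^ 2 * o b + o (rp j 1 a) * (Xl j ^ 2 * (o b + o (rp j 1 b))) := by
    have e2 : (o a + o (rp j 1 a)) * Xl j ^ 2 * o b + o (rp j 1 a) * (Xl j ^ 2 * (o b + o (rp j 1 b))) =
      (o a * Xl j ^ 2 * o b + o (rp j 1 a) * Xl j ^ 2 * o (rp j 1 b)) +
        (o (rp j 1 a) * Xl j ^ 2 * o b + o (rp j 1 a) * Xl j ^ 2 * o b) := by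
      noncomm_ring
    rw [e2, h2, add_zero]
  rw [e1]
  exact add_mem ((I3_bi j).right _ _ (mul_I1_I2 (fox j a) hX2))
    ((I3_bi j).left _ _ (mul_I2_I1 hX2 (fox j b)))

private theorem X07a_idl {j : ℕ} {u : FB} (hu : u ∈ idl {Xl j ^ 2}) :
    ∃ t ∈ I1 j, u + eB (sqs {j}) t ∈ I3 j := by
  unfold idl at hu
  induction hu using AddSubgroup.closure_induction with
  | mem r hr =>
    obtain ⟨a, b, s, hs, rfl⟩ := hr
    rw [Set.mem_singleton_iff.1 hs]
    exact X07a_gen a b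
  | zero => exact ⟨0, zero_mem _, by rw [map_zero, add_zero]; exact zero_mem _⟩
  | add u v _ _ hu hv =>
    obtain ⟨t, ht, h⟩ := hu
    obtain ⟨t', ht', h'⟩ := hv
    refine ⟨t + t', add_mem ht ht', ?_⟩
    rw [map_add, add_add_add_comm]
    exact add_mem h h'
  | neg u _ hu =>
    rw [fb_neg]
    exact hu

/-- an element of `W2 P j`, decomposed.  PROOF.  `g = u + i` with `u ∈ idl {Xl j ^ 2}`, `i ∈ I3 j ⊔ P`.  The set of all `u` of the form `eB (sqs {j}) t + n`, `t ∈ I1 j`, `n ∈ I3 j` contains the generators: `o a * Xl j ^ 2 * o b`: put `a₀ = rp j 1 a`,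
`o a = o a₀ + (element of I1 j)` (`fox`), so mod `I3 j` it is `o a₀ * Xl j ^ 2 * o b₀ = eB (sqs {j}) (o a₀ * Xl j * o b₀)` (`C_sq`; `sqs {j} a₀ = a₀`: prove `sqs {j} (rp j 1 a) = rp j 1 a` by `hom_ext` for `(sqs {j}).comp (rp j 1) = rp j 1`).
Then apply `eB (ret (insert j H))` and `QL H` to the whole equation (`g` is fixed by both). -/
theorem w2_dec {P : AddSubgroup FB} (hP : Ids P) {H : Finset ℕ} {j : ℕ} (hj : j ∉ H) {g : FB}
    (hg : g ∈ W2 P j) (hk : ∀ i ∈ H, eB (rp i 1) g = 0) (hr : eB (ret (insert j H)) g = g) :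
    ∃ t, Full (insert j H) t ∧ g + eB (sqs {j}) t ∈ I3 j ⊔ P := by
  have hne : ∀ i ∈ H, j ≠ i := fun i hi e => hj (e ▸ hi)
  obtain ⟨t0, ht0, h0⟩ : ∃ t ∈ I1 j, g + eB (sqs {j}) t ∈ I3 j ⊔ P := by
    unfold W2 at hg
    obtain ⟨w1, h1, p, hp, rfl⟩ := AddSubgroup.mem_sup.1 hg
    obtain ⟨u, hu, i, hi, rfl⟩ := AddSubgroup.mem_sup.1 h1
    obtain ⟨t, ht, h⟩ := X07a_idl hu
    refine ⟨t, ht, ?_⟩
    have e : u + i + p + eB (sqs {j}) t = (u + eB (sqs {j}) t) + i + p := by abel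
    rw [e]
    exact add_mem (AddSubgroup.mem_sup_left (add_mem h hi)) (AddSubgroup.mem_sup_right hp)
  have hretj : ret (insert j H) (x j) = x j := by rw [ret_x, if_pos (Finset.mem_insert_self j H)]
  have hc1 : (ret (insert j H)).comp (sqs {j}) = (sqs {j}).comp (ret (insert j H)) := by
    apply hom_ext
    intro i
    rw [MonoidHom.comp_apply, MonoidHom.comp_apply, sqs_x, ret_x]
    by_cases e : i = j
    · subst e
      rw [if_pos (Finset.mem_singleton_self i), if_pos (Finset.mem_insert_self i H), map_pow, hretj, sqs_x,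
        if_pos (Finset.mem_singleton_self i)]
    · rw [if_neg (by rwa [Finset.mem_singleton]), ret_x]
      by_cases e' : i ∈ insert j H
      · rw [if_pos e', sqs_x, if_neg (by rwa [Finset.mem_singleton])]
      · rw [if_neg e', map_one]
  have hc2 : ∀ i ∈ H, (rp i 1).comp (sqs {j}) = (sqs {j}).comp (rp i 1) := by
    intro i hi
    apply hom_ext
    intro k
    rw [MonoidHom.comp_apply, MonoidHom.comp_apply, sqs_x, rp_x]
    by_cases e : k = j
    · subst e
      rw [if_pos (Finset.mem_singleton_self k), if_neg (hne i hi), map_pow, rp_x, if_neg (hne i hi), sqs_x,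
        if_pos (Finset.mem_singleton_self k)]
    · rw [if_neg (by rwa [Finset.mem_singleton]), rp_x]
      by_cases e' : k = i
      · rw [if_pos e', map_one]
      · rw [if_neg e', sqs_x, if_neg (by rwa [Finset.mem_singleton])]
  have hc3 : ∀ i ∈ H, (rp i 1).comp (rp j 1) = (rp j 1).comp (rp i 1) := by
    intro i hi
    apply hom_ext
    intro k
    rw [MonoidHom.comp_apply, MonoidHom.comp_apply, rp_x, rp_x]
    by_cases e : k = j
    · subst e
      rw [if_pos rfl, map_one, if_neg (hne i hi), rp_x, if_pos rfl]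
    · rw [if_neg e, rp_x]
      by_cases e' : k = i
      · rw [if_pos e', map_one]
      · rw [if_neg e', rp_x, if_neg e]
  have hc4 : (rp j 1).comp (ret (insert j H)) = (ret (insert j H)).comp (rp j 1) := by
    apply hom_ext
    intro k
    rw [MonoidHom.comp_apply, MonoidHom.comp_apply, ret_x, rp_x]
    by_cases e : k = j
    · subst e
      rw [if_pos (Finset.mem_insert_self k H), if_pos rfl, rp_x, if_pos rfl, map_one]
    · rw [if_neg e, ret_x]
      by_cases e' : k ∈ insert j H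
      · rw [if_pos e', rp_x, if_neg e]
      · rw [if_neg e', map_one]
  have hrr : eB (ret (insert j H)) (eB (ret (insert j H)) t0) = eB (ret (insert j H)) t0 := by
    rw [eB_comp, ret_ret, Finset.inter_self]
  refine ⟨QL H (eB (ret (insert j H)) t0), ⟨?_, QL_ret hrr⟩, ?_⟩
  · intro i hi
    rcases Finset.mem_insert.1 hi with e | hi
    · subst e
      rw [QL_comm (rp i 1) hc3, eB_comp, hc4, ← eB_comp, (mem_I1_iff i t0).1 ht0, map_zero, map_zero]
    · exact QL_kill hi _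
  · have h1 : eB (ret (insert j H)) (g + eB (sqs {j}) t0) ∈ I3 j ⊔ P := X07a_eBW hP.ti hretj h0
    rw [map_add, hr, eB_comp, hc1, ← eB_comp] at h1
    have h2 : QL H (g + eB (sqs {j}) (eB (ret (insert j H)) t0)) ∈ I3 j ⊔ P := by
      refine QL_mem (W := I3 j ⊔ P) ?_ h1
      intro i hi w hw
      refine X07a_eBW hP.ti ?_ hw
      rw [rp_x, if_neg (hne i hi)]
    rw [map_add, QL_eq hk, ← QL_comm (sqs {j}) hc2] at h2
    exact h2

end E4.X
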