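import Pool.Agent.Lib.MP_8a95e3_al.X07a

/-!
# X07b : step C, second layer
-/

noncomputable section

namespace E4.X

open E4

private theorem X07b_zmod (ε : ZMod 2) : ε = 0 ∨ ε = 1 := by
  revert ε
  decide

/-- **Second layer.**  PROOF.  `sp2`: `g ∈ S2 H j ⊔ I3 j ⊆ closure ⊔ W2`; `DHyp.main` (`main0` for `H = ∅`): `g + ε₁ • Dh D H + ε₂ • (XP (H.erase m) * D (x m)) ∈ W2 P j`, `Dh D H = Xl j * XP H * Xl j` (`Dh_XP`).  The element with
`ε₂` is in `W2 P j`: for `|H| ≤ 1` `ε₂ = 0`, otherwise `XP (H.erase m) = a * Xl i` (`XP_last`) and `s2a`.  Then `w2_dec` for `g + ε₁ • (Xl j * XP H * Xl j)`. -/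
theorem layer2 {P : AddSubgroup FB} (hP : Ids P) {H : Finset ℕ} {j : ℕ} (hj : j ∉ H) {g : FB}
    (hg : g ∈ I2 j) (hf : Full (insert j H) g) :
    ∃ (t : FB) (ε : ZMod 2), Full (insert j H) t ∧ (H = ∅ → ε = 0) ∧
      g + eB (sqs {j}) t + ε • (Xl j * XP H * Xl j) ∈ I3 j ⊔ P := by
  have hW := dhyp2 hP hj
  have h1 : g ∈ AddSubgroup.closure {r : FB | ∃ a v b : F, ret H a = a ∧ ret H v = v ∧ ret H b = b ∧
      r = o a * (fun v => Xl j * o v * Xl j) v * o b} ⊔ W2 P j := by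
    have h2 := sp2 hj hg hf.inn
    have h3 : I3 j ≤ W2 P j := le_trans le_sup_right le_sup_left
    exact (sup_le_sup (le_refl (S2 H j)) h3) h2
  have hk : ∀ i ∈ H, eB (rp i 1) g = 0 := fun i hi => hf.kill i (Finset.mem_insert_of_mem hi)
  rcases H.eq_empty_or_nonempty with hH | ⟨m, hm⟩
  · subst hH
    have h2 := hW.main0 h1
    obtain ⟨t, ht, h3⟩ := w2_dec hP hj h2 hk hf.inn
    refine ⟨t, 0, ht, fun _ => rfl, ?_⟩
    rw [zero_smul, add_zero]
    exact h3
  · obtain ⟨ε, ε₂, hε, h2⟩ := hW.main hm h1 (fun i hi => by rw [hk i hi]; exact (W2 P j).zero_mem)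
    have h3 : ε₂ • (XP (H.erase m) * (Xl j * o (x m) * Xl j)) ∈ W2 P j := by
      rcases X07b_zmod ε₂ with h0 | h0
      · rw [h0, zero_smul]
        exact (W2 P j).zero_mem
      · have hc : 1 < H.card := by
          by_contra hcon
          have := hε (not_lt.1 hcon)
          rw [h0] at this
          exact absurd this (by decide)
        have hne : (H.erase m).Nonempty := by
          rw [← Finset.card_pos, Finset.card_erase_of_mem hm]
          omega
        obtain ⟨i, a, -, hXP⟩ := XP_last hne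
        rw [h0, one_smul, hXP, mul_assoc]
        exact (W2_bi hP.ti j).mul_left a (hP.s2a j (x i) (x m))
    have h4 : Dh (fun v => Xl j * o v * Xl j) H = Xl j * XP H * Xl j := Dh_XP j j H
    rw [h4] at h2
    have h5 : g + ε • (Xl j * XP H * Xl j) ∈ W2 P j := by
      have h6 := (W2 P j).sub_mem h2 h3
      simpa using h6
    have hfix : eB (ret (insert j H)) (Xl j * XP H * Xl j) = Xl j * XP H * Xl j := by
      have hx : eB (ret (insert j H)) (Xl j) = Xl j := by
        unfold Xl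
        rw [eB_C, ret_x, if_pos (Finset.mem_insert_self _ _)]
      rw [map_mul, map_mul, hx, XP_ret (Finset.subset_insert _ _)]
    have hkill : ∀ i ∈ H, eB (rp i 1) (Xl j * XP H * Xl j) = 0 := by
      intro i hi
      rw [map_mul, map_mul, XP_kill hi, mul_zero, zero_mul]
    have hk' : ∀ i ∈ H, eB (rp i 1) (g + ε • (Xl j * XP H * Xl j)) = 0 := by
      intro i hi
      rcases X07b_zmod ε with h0 | h0
      · rw [h0, zero_smul, add_zero, hk i hi]
      · rw [h0, one_smul, map_add, hk i hi, hkill i hi, add_zero]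
    have hr' : eB (ret (insert j H)) (g + ε • (Xl j * XP H * Xl j)) = g + ε • (Xl j * XP H * Xl j) := by
      rcases X07b_zmod ε with h0 | h0
      · rw [h0, zero_smul, add_zero, hf.inn]
      · rw [h0, one_smul, map_add, hf.inn, hfix]
    obtain ⟨t, ht, h6⟩ := w2_dec hP hj h5 hk' hr'
    refine ⟨t, ε, ht, fun hH => ?_, ?_⟩
    · rw [hH] at hm
      exact absurd hm (Finset.notMem_empty m)
    · have h7 : g + eB (sqs {j}) t + ε • (Xl j * XP H * Xl j) =
          g + ε • (Xl j * XP H * Xl j) + eB (sqs {j}) t := by abel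
      rw [h7]
      exact h6

/-- polarisation of the second layer.  PROOF.  Apply `φ = eB (rp j (x j * x z))` to `layer2`: `φ (I3 j ⊔ P) ⊆ P ⊔ (I2 j ⊔ I2 z)` (`pol3`, `TI.endo`), `φ (eB (sqs {j}) t) = eB (rp j ((x j x z)^2)) t ∈ idl {[J,Z]} ⊔ (I2 j ⊔ I2 z)` (`pol_sq`, `br_mem`,
`full_I1`), `φ (Xl j * XP H * Xl j) ≡ Xl j * XP H * Xl z + Xl z * XP H * Xl j` (`pol2`, `XP_fix`). -/
theorem layer2_pol {P : AddSubgroup FB} (hP : Ids P) {H : Finset ℕ} {j z : ℕ} (hj : j ∉ H) (hz : z ∉ H) (hjz : j ≠ z) {g t : FB}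
    {ε : ZMod 2} (ht : Full (insert j H) t)
    (h : g + eB (sqs {j}) t + ε • (Xl j * XP H * Xl j) ∈ I3 j ⊔ P) :
    eB (rp j (x j * x z)) g + eB (rp j ((x j * x z) ^ 2)) t +
      ε • (Xl j * XP H * Xl z + Xl z * XP H * Xl j) ∈ P ⊔ (I2 j ⊔ I2 z) := by
  have h1 : eB (rp j (x j * x z)) (g + eB (sqs {j}) t + ε • (Xl j * XP H * Xl j)) ∈ P ⊔ (I2 j ⊔ I2 z) := by
    obtain ⟨a, ha, b, hb, hab⟩ := AddSubgroup.mem_sup.1 h
    rw [← hab, map_add]
    exact AddSubgroup.add_mem _ (AddSubgroup.mem_sup_right (pol3 hjz ha))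
      (AddSubgroup.mem_sup_left (hP.ti.endo _ _ hb))
  have h2 : eB (rp j (x j * x z)) (Xl j * XP H * Xl j) + (Xl j * XP H * Xl z + Xl z * XP H * Xl j) ∈
      P ⊔ (I2 j ⊔ I2 z) := by
    refine AddSubgroup.mem_sup_right (pol2 hjz (XP H) (XP_fix _ fun i hi => ?_))
    rw [rp_x, if_neg]
    rintro rfl
    exact hj hi
  rw [map_add, map_add, pol_sq] at h1
  rcases X07b_zmod ε with h0 | h0
  · rw [h0, zero_smul, map_zero, add_zero] at h1
    rw [h0, zero_smul, add_zero]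
    exact h1
  · rw [h0, one_smul] at h1
    rw [h0, one_smul]
    have h3 := AddSubgroup.add_mem _ h1 h2
    have h4 : eB (rp j (x j * x z)) g + eB (rp j ((x j * x z) ^ 2)) t + eB (rp j (x j * x z)) (Xl j * XP H * Xl j) +
        (eB (rp j (x j * x z)) (Xl j * XP H * Xl j) + (Xl j * XP H * Xl z + Xl z * XP H * Xl j)) =
        eB (rp j (x j * x z)) g + eB (rp j ((x j * x z) ^ 2)) t + (Xl j * XP H * Xl z + Xl z * XP H * Xl j) +
        (eB (rp j (x j * x z)) (Xl j * XP H * Xl j) + eB (rp j (x j * x z)) (Xl j * XP H * Xl j)) := by abel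
    rw [h4, fb_add_self, add_zero] at h3
    exact h3

end E4.X
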