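import Pool.Agent.Lib.MP_8a95e3_al.X07b

/-!
# X08a : step C, third layer: the hypotheses of the D-lemma
-/

noncomputable section

namespace E4.X

open E4

private theorem X08a_mul {S S' : Set FB} {W : AddSubgroup FB} (hW : Bi W)
    (h : ∀ s ∈ S, ∀ t ∈ S', ∀ g : F, s * o g * t ∈ W) {a b : FB} (ha : a ∈ idl S) (hb : b ∈ idl S') :
    a * b ∈ W := by
  induction ha using AddSubgroup.closure_induction with
  | mem a ha =>
    obtain ⟨a1, b1, s, hs, rfl⟩ := ha
    induction hb using AddSubgroup.closure_induction with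
    | mem b hb =>
      obtain ⟨a2, b2, t, ht, rfl⟩ := hb
      have e : o a1 * s * o b1 * (o a2 * t * o b2) = o a1 * (s * o (b1 * a2) * t) * o b2 := by
        rw [map_mul]; noncomm_ring
      rw [e]
      exact hW.right _ _ (hW.left _ _ (h s hs t ht _))
    | zero => rw [mul_zero]; exact W.zero_mem
    | add b c _ _ hb hc => rw [mul_add]; exact W.add_mem hb hc
    | neg b _ hb => rw [mul_neg]; exact W.neg_mem hb
  | zero => rw [zero_mul]; exact W.zero_mem
  | add a c _ _ ha hc => rw [add_mul]; exact W.add_mem ha hc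
  | neg a _ ha => rw [neg_mul]; exact W.neg_mem ha

private theorem X08a_13 {P : AddSubgroup FB} (hP : Ids P) {j : ℕ} {a b : FB} (ha : a ∈ I1 j) (hb : b ∈ I3 j) :
    a * b ∈ P := by
  refine X08a_mul hP.ti.bi ?_ ha hb
  rintro s hs t ⟨u, v, rfl⟩ g
  rw [Set.mem_singleton_iff] at hs
  subst hs
  have h := hP.four (x j) g u v
  have e : Xl j * o g * (Xl j * o u * Xl j * o v * Xl j) =
      C (x j) * o g * C (x j) * o u * C (x j) * o v * C (x j) := by
    unfold Xl; noncomm_ring
  rw [e]; exact h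

private theorem X08a_22 {P : AddSubgroup FB} (hP : Ids P) {j : ℕ} {a b : FB} (ha : a ∈ I2 j) (hb : b ∈ I2 j) :
    a * b ∈ P := by
  refine X08a_mul hP.ti.bi ?_ ha hb
  rintro s ⟨u, rfl⟩ t ⟨v, rfl⟩ g
  have h := hP.four (x j) u g v
  have e : Xl j * o u * Xl j * o g * (Xl j * o v * Xl j) =
      C (x j) * o u * C (x j) * o g * C (x j) * o v * C (x j) := by
    unfold Xl; noncomm_ring
  rw [e]; exact h

private theorem X08a_31 {P : AddSubgroup FB} (hP : Ids P) {j : ℕ} {a b : FB} (ha : a ∈ I3 j) (hb : b ∈ I1 j) :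
    a * b ∈ P := by
  refine X08a_mul hP.ti.bi ?_ ha hb
  rintro s ⟨u, v, rfl⟩ t ht g
  rw [Set.mem_singleton_iff] at ht
  subst ht
  have h := hP.four (x j) u v g
  have e : Xl j * o u * Xl j * o v * Xl j * o g * Xl j =
      C (x j) * o u * C (x j) * o v * C (x j) * o g * C (x j) := by
    unfold Xl; noncomm_ring
  rw [e]; exact h

private theorem X08a_Xl (j : ℕ) : Xl j ∈ I1 j := sub_idl rfl

private theorem X08a_sq (j : ℕ) : Xl j ^ 2 ∈ I2 j := by
  rw [sq]; exact mul_I1_I1 (X08a_Xl j) (X08a_Xl j)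

private theorem X08a_I3 (j : ℕ) (m : FB) : Xl j * m * Xl j ^ 2 ∈ I3 j := by
  rw [mul_assoc]
  exact mul_I1_I2 (X08a_Xl j) ((I2_bi j).mul_left m (X08a_sq j))

/-- changing the coefficients of `a X m X² b` by elements of `I1 j` -/
private theorem X08a_chg {P : AddSubgroup FB} (hP : Ids P) {j : ℕ} {a a' m m' b b' : FB}
    (ha : a + a' ∈ I1 j) (hm : m + m' ∈ I1 j) (hb : b + b' ∈ I1 j) :
    a * (Xl j * m * Xl j ^ 2) * b + a' * (Xl j * m' * Xl j ^ 2) * b' ∈ P := by
  have h1 : (a + a') * (Xl j * m * Xl j ^ 2) * b ∈ P :=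
    hP.ti.right _ _ (X08a_13 hP ha (X08a_I3 j m))
  have h2 : a' * ((Xl j * (m + m')) * Xl j ^ 2) * b ∈ P :=
    hP.ti.right _ _ (hP.ti.left _ _ (X08a_22 hP (mul_I1_I1 (X08a_Xl j) hm) (X08a_sq j)))
  have h3 : a' * ((Xl j * m' * Xl j ^ 2) * (b + b')) ∈ P :=
    hP.ti.left _ _ (X08a_31 hP (X08a_I3 j m') hb)
  have e : a * (Xl j * m * Xl j ^ 2) * b + a' * (Xl j * m' * Xl j ^ 2) * b' =
      (a + a') * (Xl j * m * Xl j ^ 2) * b + a' * ((Xl j * (m + m')) * Xl j ^ 2) * b +
      a' * ((Xl j * m' * Xl j ^ 2) * (b + b')) := by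
    have e1 : (a + a') * (Xl j * m * Xl j ^ 2) * b + a' * ((Xl j * (m + m')) * Xl j ^ 2) * b +
      a' * ((Xl j * m' * Xl j ^ 2) * (b + b')) = a * (Xl j * m * Xl j ^ 2) * b + a' * (Xl j * m' * Xl j ^ 2) * b' +
      (a' * (Xl j * m * Xl j ^ 2) * b + a' * (Xl j * m * Xl j ^ 2) * b) +
      (a' * (Xl j * m' * Xl j ^ 2) * b + a' * (Xl j * m' * Xl j ^ 2) * b) := by
      simp only [mul_add, add_mul, mul_assoc]
      abel
    rw [e1, fb_add_self, fb_add_self, add_zero, add_zero]
  rw [e]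
  exact P.add_mem (P.add_mem h1 h2) h3

private theorem X08a_foxT (j : ℕ) (g : F) : T g + T (rp j 1 g) ∈ I1 j := by
  have hi : rp j 1 g⁻¹ = (rp j 1 g)⁻¹ := map_inv (rp j 1) g
  have e : T g + T (rp j 1 g) = (o g + o (rp j 1 g)) + (o g⁻¹ + o (rp j 1 g⁻¹)) := by
    rw [hi]
    show (o g + o g⁻¹) + (o (rp j 1 g) + o (rp j 1 g)⁻¹) = _
    exact add_add_add_comm _ _ _ _
  rw [e]
  exact (I1 j).add_mem (fox j g) (fox j g⁻¹)

private theorem X08a_rk {H : Finset ℕ} {j : ℕ} (hj : j ∉ H) (a : F) :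
    ret H (rp j 1 (ret (insert j H) a)) = rp j 1 (ret (insert j H) a) := by
  have h : (ret H).comp ((rp j 1).comp (ret (insert j H))) = (rp j 1).comp (ret (insert j H)) := by
    refine hom_ext fun i => ?_
    simp only [MonoidHom.comp_apply, ret_x]
    by_cases hij : i = j
    · subst hij
      rw [if_pos (Finset.mem_insert_self i H)]
      simp
    · by_cases hi : i ∈ H
      · rw [if_pos (Finset.mem_insert_of_mem hi), rp_x, if_neg hij, ret_x, if_pos hi]
      · rw [if_neg (by simp [hij, hi])]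
        simp
  exact DFunLike.congr_fun h a

private theorem X08a_kill {P : AddSubgroup FB} (hP : Ids P) {j : ℕ} (φ : F →* F) (h : φ (x j) = x j) :
    ∀ w ∈ W3 P j, eB φ w ∈ W3 P j := by
  intro w hw
  obtain ⟨a, ha, p, hp, rfl⟩ := AddSubgroup.mem_sup.1 hw
  rw [map_add]
  refine (W3 P j).add_mem ?_ ((le_sup_right : P ≤ W3 P j) (hP.ti.endo _ _ hp))
  refine eB_idl (W3_bi hP.ti j) _ ?_ ha
  rintro s ⟨g, rfl⟩
  have hx : eB φ (Xl j) = Xl j := by
    unfold Xl; rw [eB_C, h]
  rw [map_mul, map_mul, map_pow, hx, eB_T]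
  exact (le_sup_left : idl {r | ∃ g : F, r = Xl j * T g * Xl j ^ 2} ≤ W3 P j) (sub_idl ⟨_, rfl⟩)

/-- PROOF.  `bi`: `W3_bi`; `kill`: `eB_idl` (`eB (rp i 1) (Xl j * T g * Xl j ^ 2) = Xl j * T (rp i 1 g) * Xl j ^ 2`); `nat`: computation; `one`: `Xl j * 1 * Xl j ^ 2 = C (x j) ^ 3 ∈ P`; `sql`: `s3b`; `sqr`: `s3b'`; `sqi`: `s3b''`
(`D3 j (v c²) + D3 j v = Xl j * o v * C (c^2) * Xl j ^ 2`); `com`: `s3c`; `sym`: `s3d`; `self`: `s3e`. -/
theorem dhyp3 {P : AddSubgroup FB} (hP : Ids P) {H : Finset ℕ} {j : ℕ} (hj : j ∉ H) : DHyp (W3 P j) (D3 j) H := by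
  have hij : ∀ i ∈ H, j ≠ i := fun i hi h => hj (h ▸ hi)
  refine ⟨W3_bi hP.ti j, ?_, ?_, ?_, fun c v => hP.s3b j c v, fun c v => hP.s3b' j c v, ?_,
    fun g v => hP.s3c j g v, fun g v => hP.s3d j g v, fun g => hP.s3e j g⟩
  · intro i hi w hw
    exact X08a_kill hP _ (by rw [rp_x, if_neg (hij i hi)]) w hw
  · intro i hi v
    unfold D3
    rw [map_mul, map_mul, map_pow, eB_Xl_rp_ne 1 (hij i hi), eB_o]
  · have e : D3 j 1 = C (x j) ^ 3 := by
      unfold D3 Xl; rw [map_one, mul_one]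
      rw [← pow_succ']
    rw [e]
    exact (le_sup_right : P ≤ W3 P j) (hP.ti.cube _)
  · intro c v
    have e : D3 j (v * c ^ 2) + D3 j v = Xl j * o v * C (c ^ 2) * Xl j ^ 2 := by
      unfold D3 C
      rw [map_mul]
      simp only [mul_add, add_mul, mul_assoc, mul_one]
    rw [e]
    exact hP.s3b'' j c v

/-- PROOF.  Closure induction on `S3 H j`: a generator `o a * (X b X c X) * o d`; by `s3a` the bracket is `∑ o a' * D3 j u * o b' + (element of W3 P j)`; apply `eB (ret (insert j H))`, `u` then only contains letters of `insert j H`, and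
`D3 j u ≡ D3 j (rp j 1 u)` mod `P` (`fox`: the difference is `X (element of I1 j) X²`, four factors `X`: `four`); also `o a' ≡ o (rp j 1 a')`. -/
theorem s3_span {P : AddSubgroup FB} (hP : Ids P) {H : Finset ℕ} {j : ℕ} (hj : j ∉ H) {f : FB} (hf : f ∈ S3 H j) :
    f ∈ AddSubgroup.closure {r : FB | ∃ a v b : F, ret H a = a ∧ ret H v = v ∧ ret H b = b ∧ r = o a * D3 j v * o b} ⊔ W3 P j := by
  set V : AddSubgroup FB :=
    AddSubgroup.closure {r : FB | ∃ a v b : F, ret H a = a ∧ ret H v = v ∧ ret H b = b ∧ r = o a * D3 j v * o b} ⊔ W3 P j with hV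
  have hcl : ∀ r ∈ idl {r | ∃ u : F, r = D3 j u}, eB (ret (insert j H)) r ∈ V := by
    intro r hr
    induction hr using AddSubgroup.closure_induction with
    | mem r hr =>
      obtain ⟨a, b, s, ⟨u, rfl⟩, rfl⟩ := hr
      have hx : eB (ret (insert j H)) (Xl j) = Xl j := by
        unfold Xl; rw [eB_C, ret_x, if_pos (Finset.mem_insert_self j H)]
      have e : eB (ret (insert j H)) (o a * D3 j u * o b) =
          o (ret (insert j H) a) * (Xl j * o (ret (insert j H) u) * Xl j ^ 2) * o (ret (insert j H) b) := by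
        unfold D3
        rw [map_mul, map_mul, map_mul, map_mul, map_pow, hx, eB_o, eB_o, eB_o]
      rw [e]
      have h1 := X08a_chg hP (fox j (ret (insert j H) a)) (fox j (ret (insert j H) u)) (fox j (ret (insert j H) b))
      have h2 : o (rp j 1 (ret (insert j H) a)) * (Xl j * o (rp j 1 (ret (insert j H) u)) * Xl j ^ 2) *
          o (rp j 1 (ret (insert j H) b)) ∈ V := by
        refine (le_sup_left : _ ≤ V) (AddSubgroup.subset_closure ?_)
        exact ⟨_, _, _, X08a_rk hj a, X08a_rk hj u, X08a_rk hj b, rfl⟩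
      have h3 := V.add_mem ((le_sup_right : W3 P j ≤ V) ((le_sup_right : P ≤ W3 P j) h1)) h2
      rw [add_assoc, fb_add_self, add_zero] at h3
      exact h3
    | zero => rw [map_zero]; exact V.zero_mem
    | add a b _ _ ha hb => rw [map_add]; exact V.add_mem ha hb
    | neg a _ ha => rw [map_neg]; exact V.neg_mem ha
  induction hf using AddSubgroup.closure_induction with
  | mem f hf =>
    obtain ⟨a, b, c, d, ha, hb, hc, hd, rfl⟩ := hf
    have h0 : Xl j * o b * Xl j * o c * Xl j ∈ idl {r | ∃ u : F, r = D3 j u} ⊔ W3 P j := hP.s3a j b c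
    have hbi : Bi (idl {r | ∃ u : F, r = D3 j u} ⊔ W3 P j) := (idl_bi _).sup (W3_bi hP.ti j)
    have h1 := hbi.right d _ (hbi.left a _ h0)
    obtain ⟨r, hr, w, hw, hrw⟩ := AddSubgroup.mem_sup.1 h1
    have hfix : eB (ret (insert j H)) (o a * (Xl j * o b * Xl j * o c * Xl j) * o d) =
        o a * (Xl j * o b * Xl j * o c * Xl j) * o d := by
      have hx : eB (ret (insert j H)) (Xl j) = Xl j := by
        unfold Xl; rw [eB_C, ret_x, if_pos (Finset.mem_insert_self j H)]
      have hs : H ⊆ insert j H := Finset.subset_insert j H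
      simp only [map_mul, hx, eB_o, ret_mono_F hs ha, ret_mono_F hs hb, ret_mono_F hs hc, ret_mono_F hs hd]
    rw [← hfix, ← hrw, map_add]
    refine V.add_mem (hcl r hr) ((le_sup_right : W3 P j ≤ V) ?_)
    exact X08a_kill hP _ (by rw [ret_x, if_pos (Finset.mem_insert_self j H)]) w hw
  | zero => exact V.zero_mem
  | add a b _ _ ha hb => exact V.add_mem ha hb
  | neg a _ ha => exact V.neg_mem ha

/-- an element of `W3 P j`, decomposed.  PROOF.  The subgroup `idl {X T_g X²}` is the set of second components of `TP j`; take `(w, k) ∈ TP j` with `g + k ∈ P`; apply `ret (insert j H)`, then kill `j` in the coefficients: for a generator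
`(o u * T g * o v, o u * (X T_g X²) * o v)` replace `u, g, v` by `rp j 1 u, …`: the second component changes by an element of `P` (`fox`, `four`); then `w` is a function of `H`.  Finally apply `QL H` to both components
(a generator of `TP j` goes to a generator under `eB (kls U) × eB (kls U)`, `U ⊆ H`, `j ∉ U`). -/
theorem w3_dec {P : AddSubgroup FB} (hP : Ids P) {H : Finset ℕ} {j : ℕ} (hj : j ∉ H) {g : FB}
    (hg : g ∈ W3 P j) (hk : ∀ i ∈ H, eB (rp i 1) g = 0) (hr : eB (ret (insert j H)) g = g) :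
    ∃ w k, (w, k) ∈ TP j ∧ Full H w ∧ g + k ∈ P := by
  have hcl : ∀ r ∈ idl {r | ∃ u : F, r = Xl j * T u * Xl j ^ 2},
      ∃ w k, (w, k) ∈ TP j ∧ eB (ret H) w = w ∧ eB (ret (insert j H)) r + k ∈ P := by
    intro r hr
    induction hr using AddSubgroup.closure_induction with
    | mem r hr =>
      obtain ⟨a, b, s, ⟨u, rfl⟩, rfl⟩ := hr
      have hx : eB (ret (insert j H)) (Xl j) = Xl j := by
        unfold Xl; rw [eB_C, ret_x, if_pos (Finset.mem_insert_self j H)]
      have e : eB (ret (insert j H)) (o a * (Xl j * T u * Xl j ^ 2) * o b) =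
          o (ret (insert j H) a) * (Xl j * T (ret (insert j H) u) * Xl j ^ 2) * o (ret (insert j H) b) := by
        rw [map_mul, map_mul, map_mul, map_mul, map_pow, hx, eB_o, eB_o, eB_T]
      refine ⟨o (rp j 1 (ret (insert j H) a)) * T (rp j 1 (ret (insert j H) u)) * o (rp j 1 (ret (insert j H) b)),
        o (rp j 1 (ret (insert j H) a)) * (Xl j * T (rp j 1 (ret (insert j H) u)) * Xl j ^ 2) *
          o (rp j 1 (ret (insert j H) b)), ?_, ?_, ?_⟩
      · exact AddSubgroup.subset_closure ⟨_, _, _, rfl⟩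
      · rw [map_mul, map_mul, eB_o, eB_o, eB_T, X08a_rk hj a, X08a_rk hj b, X08a_rk hj u]
      · rw [e]
        exact X08a_chg hP (fox j _) (X08a_foxT j _) (fox j _)
    | zero =>
      refine ⟨0, 0, (TP j).zero_mem, map_zero _, ?_⟩
      rw [map_zero, add_zero]; exact P.zero_mem
    | add a b _ _ ha hb =>
      obtain ⟨w, k, h1, h2, h3⟩ := ha
      obtain ⟨w', k', h1', h2', h3'⟩ := hb
      refine ⟨w + w', k + k', (TP j).add_mem h1 h1', by rw [map_add, h2, h2'], ?_⟩
      rw [map_add, add_add_add_comm]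
      exact P.add_mem h3 h3'
    | neg a _ ha =>
      rw [fb_neg]
      exact ha
  obtain ⟨r, hr0, p, hp, hrp⟩ := AddSubgroup.mem_sup.1 hg
  obtain ⟨w, k, hwk, hw, hk0⟩ := hcl r hr0
  have hgk : g + k ∈ P := by
    rw [← hr, ← hrp, map_add, add_assoc, add_comm (eB (ret (insert j H)) p) k, ← add_assoc]
    exact P.add_mem hk0 (hP.ti.endo _ _ hp)
  have hPk : ∀ i ∈ H, ∀ w ∈ P, eB (rp i 1) w ∈ P := fun i _ w hw => hP.ti.endo _ _ hw
  have hkl : ∀ U ∈ H.powerset, (eB (kls U) w, eB (kls U) k) ∈ TP j := by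
    intro U hU
    have hjU : j ∉ U := fun h => hj (Finset.mem_powerset.1 hU h)
    have hx : eB (kls U) (Xl j) = Xl j := by
      unfold Xl; rw [eB_C, kls_x, if_neg hjU]
    have key : ∀ q : FB × FB, q ∈ TP j → (eB (kls U) q.1, eB (kls U) q.2) ∈ TP j := by
      intro q hq
      induction hq using AddSubgroup.closure_induction with
      | mem q hq =>
        obtain ⟨u, h, v, rfl⟩ := hq
        refine AddSubgroup.subset_closure ⟨kls U u, kls U h, kls U v, ?_⟩
        simp only [map_mul, map_pow, hx, eB_o, eB_T]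
      | zero => simp only [Prod.fst_zero, Prod.snd_zero, map_zero]; exact (TP j).zero_mem
      | add a b _ _ ha hb =>
        have := (TP j).add_mem ha hb
        simpa only [Prod.mk_add_mk, Prod.fst_add, Prod.snd_add, map_add] using this
      | neg a _ ha =>
        have := (TP j).neg_mem ha
        simpa only [Prod.neg_mk, Prod.fst_neg, Prod.snd_neg, map_neg] using this
    exact key (w, k) hwk
  refine ⟨QL H w, QL H k, ?_, ⟨fun i hi => QL_kill hi w, QL_ret hw⟩, ?_⟩
  · have e : (QL H w, QL H k) = ∑ U ∈ H.powerset, ((eB (kls U) w, eB (kls U) k) : FB × FB) := by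
      refine Prod.ext ?_ ?_
      · rw [Prod.fst_sum]; exact QL_apply H w
      · rw [Prod.snd_sum]; exact QL_apply H k
    rw [e]
    exact (TP j).sum_mem hkl
  · have h1 : QL H (g + k) ∈ P := QL_mem hPk hgk
    rw [map_add, QL_eq hk] at h1
    exact h1

end E4.X
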