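import Pool.Agent.Lib.MP_8a95e3_al.X08a

/-!
# X08b : step C, third layer
-/

noncomputable section

namespace E4.X

open E4

private theorem X08b_P_le_W3 {P : AddSubgroup FB} (j : ℕ) : P ≤ W3 P j := le_sup_right

private theorem X08b_Xl_kill_ne {i j : ℕ} (h : j ≠ i) : eB (rp i 1) (Xl j) = Xl j :=
  eB_Xl_rp_ne 1 h

/-- the element with `α₁` is killed by every letter of `H` and is a function of `insert j H` -/
private theorem X08b_a1 {H : Finset ℕ} {j : ℕ} :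
    (∀ i ∈ H, eB (rp i 1) (Xl j * XP H * Xl j ^ 2) = 0) ∧
      eB (ret (insert j H)) (Xl j * XP H * Xl j ^ 2) = Xl j * XP H * Xl j ^ 2 := by
  refine ⟨fun i hi => ?_, ?_⟩
  · rw [map_mul, map_mul, XP_kill hi, mul_zero, zero_mul]
  · have h1 : eB (ret (insert j H)) (Xl j) = Xl j := by simp [Xl]
    rw [map_mul, map_mul, map_pow, h1, XP_ret (Finset.subset_insert j H)]

private theorem X08b_a2 {H : Finset ℕ} {j m : ℕ} (hm : m ∈ H) :
    (∀ i ∈ H, eB (rp i 1) (XP (H.erase m) * (Xl j * Xl m * Xl j ^ 2)) = 0) ∧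
      eB (ret (insert j H)) (XP (H.erase m) * (Xl j * Xl m * Xl j ^ 2)) =
        XP (H.erase m) * (Xl j * Xl m * Xl j ^ 2) := by
  refine ⟨fun i hi => ?_, ?_⟩
  · by_cases him : i = m
    · have h1 : eB (rp i 1) (Xl m) = 0 := by
        rw [him, eB_Xl_rp_self, C_one]
      rw [map_mul, map_mul, map_mul, h1, mul_zero, zero_mul, mul_zero]
    · rw [map_mul, XP_kill (Finset.mem_erase.2 ⟨him, hi⟩), zero_mul]
  · have h1 : eB (ret (insert j H)) (Xl j) = Xl j := by simp [Xl]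
    have h2 : eB (ret (insert j H)) (Xl m) = Xl m := by
      simp [Xl, hm]
    rw [map_mul, map_mul, map_mul, map_pow, h1, h2,
      XP_ret ((Finset.erase_subset m H).trans (Finset.subset_insert j H))]

private theorem X08b_smul {W : AddSubgroup FB} {r : FB} (hr : r ∈ W) (ε : ZMod 2) : ε • r ∈ W := by
  have h : ε = 0 ∨ ε = 1 := by
    revert ε; decide
  rcases h with rfl | rfl
  · rw [zero_smul]; exact W.zero_mem
  · rw [one_smul]; exact hr

private theorem X08b_eB_smul (φ : F →* F) (ε : ZMod 2) (r : FB) : eB φ (ε • r) = ε • eB φ r := by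
  have h : ε = 0 ∨ ε = 1 := by
    revert ε; decide
  rcases h with rfl | rfl
  · rw [zero_smul, zero_smul, map_zero]
  · rw [one_smul, one_smul]

/-- **Third layer.**  PROOF.  `sp3`, `s3_span`, `DHyp.main` (`main0` for `H = ∅`), `w3_dec`, `Dh_XP3`; `XP (H.erase m) * D3 j (x m)` and `XP (H.erase m) * (Xl j * Xl m * Xl j ^ 2)` differ by `XP (H.erase m) * C (x j) ^ 3 ∈ P`. -/
theorem layer3 {P : AddSubgroup FB} (hP : Ids P) {H : Finset ℕ} {j m : ℕ} (hj : j ∉ H) (hm : H.Nonempty → m ∈ H) {f : FB}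
    (hf : f ∈ I3 j) (hF : Full (insert j H) f) :
    ∃ w k, ∃ α₁ α₂ : ZMod 2, (w, k) ∈ TP j ∧ Full H w ∧ (H.card ≤ 1 → α₂ = 0) ∧ (H = ∅ → α₁ = 0) ∧
      f + k + α₁ • (Xl j * XP H * Xl j ^ 2) + α₂ • (XP (H.erase m) * (Xl j * Xl m * Xl j ^ 2)) ∈ P := by
  have hkill : ∀ i ∈ H, eB (rp i 1) f = 0 := fun i hi => hF.kill i (Finset.mem_insert_of_mem hi)
  have hs : f ∈ AddSubgroup.closure {r : FB | ∃ a v b : F, ret H a = a ∧ ret H v = v ∧ ret H b = b ∧
      r = o a * D3 j v * o b} ⊔ W3 P j := by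
    have h1 := sp3 hP.ti hP.four hj hf hF.inn
    obtain ⟨s, hs, p, hp, hsp⟩ := AddSubgroup.mem_sup.1 h1
    rw [← hsp]
    exact AddSubgroup.add_mem _ (s3_span hP hj hs)
      (AddSubgroup.mem_sup_right (X08b_P_le_W3 j hp))
  rcases H.eq_empty_or_nonempty with rfl | hne
  · have h2 : f ∈ W3 P j := (dhyp3 hP hj).main0 hs
    obtain ⟨w, k, hwk, hw, hfk⟩ := w3_dec hP hj h2 hkill hF.inn
    refine ⟨w, k, 0, 0, hwk, hw, fun _ => rfl, fun _ => rfl, ?_⟩
    rw [zero_smul, zero_smul, add_zero, add_zero]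
    exact hfk
  · have hmH := hm hne
    obtain ⟨ε₁, ε₂, hε, hmem⟩ := (dhyp3 hP hj).main hmH hs
      (fun i hi => by rw [hkill i hi]; exact AddSubgroup.zero_mem _)
    rw [Dh_XP3] at hmem
    have hdiff : XP (H.erase m) * D3 j (x m) =
        XP (H.erase m) * (Xl j * Xl m * Xl j ^ 2) + XP (H.erase m) * C (x j) ^ 3 := by
      have h3 : D3 j (x m) = Xl j * Xl m * Xl j ^ 2 + C (x j) ^ 3 := by
        have h4 : (o (x m) : FB) = Xl m + 1 := by
          rw [Xl, C, add_assoc, fb_add_self, add_zero]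
        rw [D3, h4, Xl]
        noncomm_ring
      rw [h3, mul_add]
    have hg : f + ε₁ • (Xl j * XP H * Xl j ^ 2) + ε₂ • (XP (H.erase m) * (Xl j * Xl m * Xl j ^ 2)) ∈
        W3 P j := by
      have h5 : ε₂ • (XP (H.erase m) * C (x j) ^ 3) ∈ W3 P j :=
        X08b_smul (X08b_P_le_W3 j (hP.ti.left _ _ (hP.ti.cube (x j)))) ε₂
      have h6 := AddSubgroup.sub_mem _ hmem h5
      rw [hdiff, smul_add] at h6
      have h7 : f + ε₁ • (Xl j * XP H * Xl j ^ 2) +
          (ε₂ • (XP (H.erase m) * (Xl j * Xl m * Xl j ^ 2)) + ε₂ • (XP (H.erase m) * C (x j) ^ 3)) -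
          ε₂ • (XP (H.erase m) * C (x j) ^ 3) =
          f + ε₁ • (Xl j * XP H * Xl j ^ 2) + ε₂ • (XP (H.erase m) * (Xl j * Xl m * Xl j ^ 2)) := by
        abel
      rw [h7] at h6
      exact h6
    obtain ⟨a1, a1'⟩ := X08b_a1 (H := H) (j := j)
    obtain ⟨a2, a2'⟩ := X08b_a2 (j := j) hmH
    obtain ⟨w, k, hwk, hw, hfk⟩ := w3_dec hP hj hg
      (fun i hi => by
        rw [map_add, map_add, hkill i hi, X08b_eB_smul, X08b_eB_smul, a1 i hi, a2 i hi, smul_zero,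
          smul_zero, add_zero, add_zero])
      (by rw [map_add, map_add, hF.inn, X08b_eB_smul, X08b_eB_smul, a1', a2'])
    refine ⟨w, k, ε₁, ε₂, hwk, hw, hε, fun h => absurd h hne.ne_empty, ?_⟩
    have h8 : f + k + ε₁ • (Xl j * XP H * Xl j ^ 2) +
        ε₂ • (XP (H.erase m) * (Xl j * Xl m * Xl j ^ 2)) =
        f + ε₁ • (Xl j * XP H * Xl j ^ 2) + ε₂ • (XP (H.erase m) * (Xl j * Xl m * Xl j ^ 2)) + k := by
      abel
    rw [h8]
    exact hfk

private theorem X08b_ret_empty (g : F) : ret ∅ g = 1 := by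
  have h : ret ∅ = (1 : F →* F) := hom_ext (fun i => by simp)
  rw [h, MonoidHom.one_apply]

/-- a function of no letters is a constant; if `(w, k) ∈ TP j` and `w` is a function of no letters then `w = 0`.  PROOF: `w = eB (ret ∅) w`, and `eB (ret ∅)` sends `o u * T g * o v` to `o 1 + o 1 = 0`. -/
theorem tp_zero {j : ℕ} {w k : FB} (h : (w, k) ∈ TP j) (hw : eB (ret ∅) w = w) : w = 0 := by
  have key : ∀ p ∈ TP j, eB (ret ∅) p.1 = 0 := by
    intro p hp
    refine AddSubgroup.closure_induction (p := fun p _ => eB (ret ∅) p.1 = 0) ?_ ?_ ?_ ?_ hp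
    · rintro _ ⟨u, g, v, rfl⟩
      have h1 : T (ret ∅ g) = 0 := by
        rw [X08b_ret_empty, T, inv_one, fb_add_self]
      show eB (ret ∅) (o u * T g * o v) = 0
      rw [map_mul, map_mul, eB_T, h1, mul_zero, zero_mul]
    · show eB (ret ∅) 0 = 0
      rw [map_zero]
    · intro a b _ _ ha hb
      show eB (ret ∅) (a.1 + b.1) = 0
      rw [map_add, ha, hb, add_zero]
    · intro a _ ha
      show eB (ret ∅) (-a.1) = 0
      rw [map_neg, ha, neg_zero]
  rw [← hw]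
  exact key (w, k) h

/-- `r ↦ a r b` -/
private def X08b_m (a b : F) : FB →+ FB :=
  (AddMonoidHom.mulRight (o b)).comp (AddMonoidHom.mulLeft (o a))

private theorem X08b_m_apply (a b : F) (r : FB) : X08b_m a b r = o a * r * o b := rfl

private theorem X08b_m2 (a b : F) (w k : FB) :
    ((X08b_m a b).prodMap (X08b_m a b)) (w, k) = (o a * w * o b, o a * k * o b) := rfl

/-- `TP j` is closed under multiplication by group elements -/
private theorem X08b_TP_mul {j : ℕ} (a b : F) {w k : FB} (h : (w, k) ∈ TP j) :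
    (o a * w * o b, o a * k * o b) ∈ TP j := by
  have key : TP j ≤ (TP j).comap ((X08b_m a b).prodMap (X08b_m a b)) := by
    rw [TP, AddSubgroup.closure_le]
    rintro _ ⟨u, g, v, rfl⟩
    rw [SetLike.mem_coe, AddSubgroup.mem_comap, X08b_m2]
    refine AddSubgroup.subset_closure ⟨a * u, g, v * b, ?_⟩
    simp only [map_mul, mul_assoc]
  have h2 := key h
  rw [AddSubgroup.mem_comap, X08b_m2] at h2
  exact h2

private theorem X08b_TP_left {j : ℕ} (a : F) {w k : FB} (h : (w, k) ∈ TP j) :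
    (o a * w, o a * k) ∈ TP j := by
  have h1 := X08b_TP_mul a 1 h
  simp only [map_one, mul_one] at h1
  exact h1

private theorem X08b_TP_right {j : ℕ} (b : F) {w k : FB} (h : (w, k) ∈ TP j) :
    (w * o b, k * o b) ∈ TP j := by
  have h1 := X08b_TP_mul 1 b h
  simp only [map_one, one_mul] at h1
  exact h1

private theorem X08b_TP_add {j : ℕ} {w k w' k' : FB} (h : (w, k) ∈ TP j) (h' : (w', k') ∈ TP j) :
    (w + w', k + k') ∈ TP j := by
  have h1 := AddSubgroup.add_mem _ h h'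
  rw [Prod.mk_add_mk] at h1
  exact h1

private theorem X08b_TP_gen (j : ℕ) (g : F) : (T g, Xl j * T g * Xl j ^ 2) ∈ TP j := by
  refine AddSubgroup.subset_closure ⟨1, g, 1, ?_⟩
  simp only [map_one, one_mul, mul_one]

/-- the identity behind the claim -/
private theorem X08b_ident (q : ℕ) (b : F) :
    Xl q * o b * Xl q = Xl q * (T (b * x q) + o (x q)⁻¹ * T b + T (x q) * o b) +
      o (x q) * T (x q) * o b := by
  have h2 : ∀ a : FB, a + a = 0 := fb_add_self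
  have e1 : o (x q) * o (x q)⁻¹ = 1 := by rw [← map_mul, mul_inv_cancel, map_one]
  have e2 : o (x q)⁻¹ * o (x q) = 1 := by rw [← map_mul, inv_mul_cancel, map_one]
  have e3 : T (b * x q) + o (x q)⁻¹ * T b + T (x q) * o b = o b * o (x q) + o (x q) * o b := by
    rw [T, T, T, mul_inv_rev, map_mul, map_mul]
    have : o b * o (x q) + o (x q)⁻¹ * o b⁻¹ + o (x q)⁻¹ * (o b + o b⁻¹) +
        (o (x q) + o (x q)⁻¹) * o b = o b * o (x q) + o (x q) * o b +
        (o (x q)⁻¹ * o b⁻¹ + o (x q)⁻¹ * o b⁻¹) + (o (x q)⁻¹ * o b + o (x q)⁻¹ * o b) := by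
      rw [mul_add, add_mul]; abel
    rw [this, h2, h2, add_zero, add_zero]
  have e4 : o (x q) * T (x q) = o (x q) * o (x q) + 1 := by
    rw [T, mul_add, e1]
  rw [e3, e4, Xl, C]
  have : (o (x q) + 1) * (o b * o (x q) + o (x q) * o b) + (o (x q) * o (x q) + 1) * o b =
      (o (x q) + 1) * o b * (o (x q) + 1) + (o (x q) * o (x q) * o b + o (x q) * o (x q) * o b) := by
    noncomm_ring
  rw [this, h2, add_zero]

private theorem X08b_claim {j q : ℕ} (hjq : j ≠ q) {i : FB} (hi : i ∈ I2 q) :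
    ∃ k', (i, k') ∈ TP j ∧ k' ∈ I2 q := by
  have hXq : Xl q ∈ I1 q := sub_idl rfl
  have hXj : eB (rp q 1) (Xl j) = Xl j := eB_Xl_rp_ne 1 hjq
  -- `T (x q) ∈ I2 q`
  have hT : T (x q) ∈ I2 q := by
    have e2 : o (x q)⁻¹ * o (x q) = 1 := by rw [← map_mul, inv_mul_cancel, map_one]
    have h1 : T (x q) = o (x q)⁻¹ * (Xl q * o 1 * Xl q) := by
      rw [T, Xl, C, map_one, mul_one]
      have h3 : o (x q)⁻¹ * ((o (x q) + 1) * (o (x q) + 1)) =
          o (x q)⁻¹ * o (x q) * o (x q) + (o (x q)⁻¹ * o (x q) + o (x q)⁻¹ * o (x q)) +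
            o (x q)⁻¹ := by
        noncomm_ring
      rw [h3, e2, fb_add_self, add_zero, one_mul]
    rw [h1]
    exact (I2_bi q).left _ _ (sub_idl ⟨1, rfl⟩)
  have hTh : Xl j * T (x q) * Xl j ^ 2 ∈ I2 q :=
    (I2_bi q).mul_right _ ((I2_bi q).mul_left _ hT)
  refine AddSubgroup.closure_induction (p := fun i _ => ∃ k', (i, k') ∈ TP j ∧ k' ∈ I2 q)
    ?_ ?_ ?_ ?_ hi
  · rintro _ ⟨a, c, _, ⟨b, rfl⟩, rfl⟩
    have hB : (T (b * x q) + o (x q)⁻¹ * T b + T (x q) * o b,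
        Xl j * T (b * x q) * Xl j ^ 2 + o (x q)⁻¹ * (Xl j * T b * Xl j ^ 2) +
          Xl j * T (x q) * Xl j ^ 2 * o b) ∈ TP j :=
      X08b_TP_add (X08b_TP_add (X08b_TP_gen j _) (X08b_TP_left _ (X08b_TP_gen j b)))
        (X08b_TP_right b (X08b_TP_gen j _))
    have hXB : (Xl q * (T (b * x q) + o (x q)⁻¹ * T b + T (x q) * o b),
        Xl q * (Xl j * T (b * x q) * Xl j ^ 2 + o (x q)⁻¹ * (Xl j * T b * Xl j ^ 2) +
          Xl j * T (x q) * Xl j ^ 2 * o b)) ∈ TP j := by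
      have h3 := X08b_TP_add (X08b_TP_left (x q) hB) hB
      have h4 : ∀ r : FB, o (x q) * r + r = Xl q * r := by
        intro r
        rw [Xl, C, add_mul, one_mul]
      rw [h4, h4] at h3
      exact h3
    have hA : (Xl q * (T (b * x q) + o (x q)⁻¹ * T b + T (x q) * o b) + o (x q) * T (x q) * o b,
        Xl q * (Xl j * T (b * x q) * Xl j ^ 2 + o (x q)⁻¹ * (Xl j * T b * Xl j ^ 2) +
          Xl j * T (x q) * Xl j ^ 2 * o b) + o (x q) * (Xl j * T (x q) * Xl j ^ 2) * o b) ∈ TP j :=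
      X08b_TP_add hXB (X08b_TP_mul (x q) b (X08b_TP_gen j (x q)))
    rw [← X08b_ident] at hA
    refine ⟨_, X08b_TP_mul a c hA, ?_⟩
    refine (I2_bi q).right _ _ ((I2_bi q).left _ _ ?_)
    refine AddSubgroup.add_mem _ ?_ ((I2_bi q).right _ _ ((I2_bi q).left _ _ hTh))
    rw [mul_add]
    refine AddSubgroup.add_mem _ ?_ ((I2_bi q).mul_left _ ((I2_bi q).right _ _ hTh))
    refine mul_I1_I1 hXq ?_
    rw [mem_I1_iff]
    have hxq : rp q 1 (x q) = 1 := by rw [rp_x, if_pos rfl]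
    rw [map_add, map_mul, map_mul, map_mul, map_mul, map_mul, map_pow, hXj, eB_T, eB_T, eB_o,
      map_mul, map_inv, hxq, inv_one, mul_one, map_one, one_mul, fb_add_self]
  · exact ⟨0, AddSubgroup.zero_mem (TP j), AddSubgroup.zero_mem _⟩
  · rintro p r _ _ ⟨k1, h1, h1'⟩ ⟨k2, h2, h2'⟩
    exact ⟨k1 + k2, X08b_TP_add h1 h2, AddSubgroup.add_mem _ h1' h2'⟩
  · rintro p _ ⟨k1, h1, h1'⟩
    refine ⟨-k1, ?_, AddSubgroup.neg_mem _ h1'⟩
    have h3 := AddSubgroup.neg_mem _ h1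
    rw [Prod.neg_mk] at h3
    exact h3

/-- `Θ_j` preserves `NP P Q`, `|Q| ≤ 1`.  PROOF.  `Q = ∅`: `twd`.  `Q = {q}` (`NP_singleton`), `q ≠ j`.  CLAIM: for every `i ∈ I2 q` there is `k'` with `(i, k') ∈ TP j` and `k' ∈ I2 q`.
Closure induction; for a generator `o a * (Xl q * o b * Xl q) * o c` put `g = x q`, `Θ h = Xl j * T h * Xl j ^ 2`; EXACTLY (characteristic two)
`Xl q * o b * Xl q = Xl q * (T (b * g) + o g⁻¹ * T b + T g * o b) + o g * T g * o b`  (use `Xl q ^ 2 = o g * T g` and `b g + g b = T (b g) + g⁻¹ T b + T g b`), so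
`k' = o a * (Xl q * (Θ (b * g) + o g⁻¹ * Θ b + Θ g * o b) + o g * Θ g * o b) * o c`.  `Θ g ∈ I2 q` because `T g = o g⁻¹ * Xl q * o 1 * Xl q`; `Θ (b * g) + o g⁻¹ * Θ b ∈ I1 q` by `mem_I1_iff` (`x_q ↦ 1` maps it to
`Θ b' + Θ b' = 0`; `j ≠ q`), and `Xl q ∈ I1 q`, `mul_I1_I1`.
Now `w = p + i`, `p ∈ P`, `i ∈ I2 q`: `(p, k + k') ∈ TP j` (subtract, characteristic two: `fb_neg`), so `k + k' ∈ P` by `twd`. -/
theorem twdQ {P : AddSubgroup FB} (hP : Ids P) {Q : Finset ℕ} (hQ : Q.card ≤ 1) {j : ℕ} (hj : j ∉ Q) {w k : FB}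
    (h : (w, k) ∈ TP j) (hw : w ∈ NP P Q) : k ∈ NP P Q := by
  rcases Q.eq_empty_or_nonempty with rfl | hne
  · rw [NP_empty] at hw ⊢
    exact hP.twd j w k h hw
  · obtain ⟨q, rfl⟩ := Finset.card_eq_one.1 (le_antisymm hQ (Finset.card_pos.2 hne))
    have hjq : j ≠ q := fun h' => hj (Finset.mem_singleton.2 h')
    rw [NP_singleton] at hw ⊢
    obtain ⟨p, hp, i, hi, hpi⟩ := AddSubgroup.mem_sup.1 hw
    obtain ⟨k', hk', hk2⟩ := X08b_claim hjq hi
    have h1 : (p, k - k') ∈ TP j := by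
      have h2 := AddSubgroup.sub_mem _ h hk'
      rw [Prod.mk_sub_mk, ← hpi, add_sub_cancel_right] at h2
      exact h2
    have h3 : k - k' ∈ P := hP.twd j p _ h1 hp
    have h4 := AddSubgroup.add_mem (P ⊔ I2 q) (AddSubgroup.mem_sup_left h3)
      (AddSubgroup.mem_sup_right hk2)
    rw [sub_add_cancel] at h4
    exact h4

private theorem X08b_NP_stable {P : AddSubgroup FB} (hP : TI P) {Q : Finset ℕ} (hQ : Q.card ≤ 1)
    (φ : F →* F) (hφ : ∀ q ∈ Q, φ (x q) = x q ∨ φ = rp q 1) {n : FB} (hn : n ∈ NP P Q) :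
    eB φ n ∈ NP P Q := by
  rcases Q.eq_empty_or_nonempty with rfl | hne
  · rw [NP_empty] at hn ⊢
    exact hP.endo φ n hn
  · obtain ⟨q, rfl⟩ := Finset.card_eq_one.1 (le_antisymm hQ (Finset.card_pos.2 hne))
    rw [NP_singleton] at hn ⊢
    obtain ⟨p, hp, i, hi, hpi⟩ := AddSubgroup.mem_sup.1 hn
    rw [← hpi, map_add]
    refine AddSubgroup.add_mem _ (AddSubgroup.mem_sup_left (hP.endo φ p hp)) ?_
    rcases hφ q (Finset.mem_singleton_self q) with h | h
    · exact AddSubgroup.mem_sup_right (eB_I2 φ h hi)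
    · rw [h, eB_kill_I2 hi]
      exact AddSubgroup.zero_mem _

/-- **Step C3.**  PROOF.  `layer3` for `f + n` where `f = (f + n) + n`: first project: `f ∈ I3 j ⊔ NP P Q` and `f` full: write `f = i + n`, apply `eB (ret (insert j H))` and `QL (insert j H)`: may assume `i ∈ I3 j` full, `n ∈ NP P Q`.
`layer3` for `i`: `i + k + α₁ … + α₂ … ∈ P`.  Apply `eB (sqs Q)`: `eB (sqs Q) f ∈ P0`, `eB (sqs Q) n ∈ P0` (`sq_NP` for `P ≤ P0`), so `eB (sqs Q) (k + α₁ … + α₂ …) ∈ P0`; if `H = ∅`: `w = 0` (`tp_zero`), `k ∈ P` (`twd` / `twdQ`).  Otherwise `o3`: `α₁ = α₂ = 0`,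
`eB (sqs Q) w ∈ P0`, `w ∈ NP P Q` (`IH`), `k ∈ NP P Q` (`twdQ`), so `i ∈ NP P Q`. -/
theorem stepC3 {P0 P : AddSubgroup FB} (h0 : A0F P0) (hP : Ids P) (hle : P ≤ P0) {H Q : Finset ℕ} {j : ℕ} (hj : j ∉ H) (hQ : Q ⊆ H)
    (hc : Q.card ≤ 1) (hm : H = ∅ ∨ ∃ m ∈ H, m ∉ Q)
    (IH : ∀ w, Full H w → eB (sqs Q) w ∈ P0 → w ∈ NP P Q)
    {f : FB} (hf : f ∈ I3 j ⊔ NP P Q) (hF : Full (insert j H) f) (hf0 : eB (sqs Q) f ∈ P0) : f ∈ NP P Q := by
  have hPN : P ≤ NP P Q := le_sup_left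
  have hjQ : j ∉ Q := fun h => hj (hQ h)
  obtain ⟨i, hi, n, hn, hfin, hiF, hnF⟩ := full_dec (A := I3 j) (B := NP P Q) hF hf
    (fun a ha => eB_I3 _ (by rw [ret_x, if_pos (Finset.mem_insert_self j H)]) ha)
    (fun l hl a ha => by
      by_cases hlj : l = j
      · rw [hlj, eB_kill_I2 (I3_le_I2 j ha)]
        exact AddSubgroup.zero_mem _
      · exact eB_I3 _ (by rw [rp_x, if_neg (fun h => hlj h.symm)]) ha)
    (fun a ha => X08b_NP_stable hP.ti hc _
      (fun q hq => Or.inl (by rw [ret_x, if_pos (Finset.mem_insert_of_mem (hQ hq))])) ha)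
    (fun l hl a ha => X08b_NP_stable hP.ti hc _
      (fun q hq => by
        by_cases hlq : q = l
        · exact Or.inr (by rw [hlq])
        · exact Or.inl (by rw [rp_x, if_neg hlq])) ha)
  suffices hiN : i ∈ NP P Q by
    rw [hfin]
    exact AddSubgroup.add_mem _ hiN hn
  rcases hm with rfl | ⟨m, hmH, hmQ⟩
  · obtain ⟨w, k, α₁, α₂, hwk, hw, hα₂, hα₁, hmem⟩ :=
      layer3 (m := 0) hP hj (fun h => absurd h Finset.not_nonempty_empty) hi hiF
    have hw0 : w = 0 := tp_zero hwk hw.inn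
    have hkP : k ∈ P := hP.twd j w k hwk (by rw [hw0]; exact P.zero_mem)
    rw [hα₁ rfl, hα₂ (by simp), zero_smul, zero_smul, add_zero, add_zero] at hmem
    have h1 := P.sub_mem hmem hkP
    rw [add_sub_cancel_right] at h1
    exact hPN h1
  · obtain ⟨w, k, α₁, α₂, hwk, hw, hα₂, -, hmem⟩ := layer3 (m := m) hP hj (fun _ => hmH) hi hiF
    have hn0 : eB (sqs Q) n ∈ P0 := hle (sq_NP hP.ti hP.four (Finset.Subset.refl Q) hn)
    have hi0 : eB (sqs Q) i ∈ P0 := by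
      have h1 := P0.sub_mem hf0 hn0
      rw [hfin, map_add, add_sub_cancel_right] at h1
      exact h1
    have hk0 : eB (sqs Q) (k + α₁ • (Xl j * XP H * Xl j ^ 2) +
        α₂ • (XP (H.erase m) * (Xl j * Xl m * Xl j ^ 2))) ∈ P0 := by
      have h1 := P0.sub_mem (hle (hP.ti.endo (sqs Q) _ hmem)) hi0
      have h2 : eB (sqs Q) (i + k + α₁ • (Xl j * XP H * Xl j ^ 2) +
          α₂ • (XP (H.erase m) * (Xl j * Xl m * Xl j ^ 2))) - eB (sqs Q) i =
          eB (sqs Q) (k + α₁ • (Xl j * XP H * Xl j ^ 2) +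
            α₂ • (XP (H.erase m) * (Xl j * Xl m * Xl j ^ 2))) := by
        rw [← map_sub]
        congr 1
        abel
      rw [h2] at h1
      exact h1
    obtain ⟨hα1, hα2, hw0⟩ := h0.o3 H Q j m hj hQ hmH hmQ w k hwk hw α₁ α₂ hα₂ hk0
    have hkN : k ∈ NP P Q := twdQ hP hc hjQ hwk (IH w hw hw0)
    rw [hα1, hα2, zero_smul, zero_smul, add_zero, add_zero] at hmem
    have h1 := (NP P Q).sub_mem (hPN hmem) hkN
    rw [add_sub_cancel_right] at h1
    exact h1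

end E4.X
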