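import Pool.Agent.Lib.MP_8a95e3_al.X08b

/-!
# X09a : the second layer in the model
-/

noncomputable section

namespace E4.X

open E4

/-- **the second layer is killed**, general form (`Q` = P-letters).  `g ∈ I2 j` full, `t`, `ε` as in `layer2`; if the polarisation (a relation in `P0`) is satisfied then `ε = 0` and `eB (sqs {j} ∪ Q) t ∈ P0`.
PROOF.  Let `z` be a letter outside `insert j H`.  `g' := eB (sqs Q) g ∈ P0`.  By `layer2_pol` and `sq_I2`, `sq_NP` (evaluation `eB (sqs (insert j (insert z Q)))` of the relation):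
`eB (sqs (insert j (insert z Q))) (s + ε • (…)) ∈ P0` where `s ∈ idl {[J,Z]}`, `s + eB (rp j ((x j x z)^2)) t ∈ I2 j ⊔ I2 z` (`br_mem`, `split_br`).  The term with `g`: `eB (sqs …) (eB (rp j (x j x z)) g) = eB φ (eB (sqs Q) g)`
with `φ = (sqs {j, z}).comp (rp j (x j * x z))` (`eB_comp`, `hom_ext`), in `P0`.  If `H ≠ ∅`: `par` gives `ε = 0` (`ε = 1` is impossible); if `H = ∅` `ε = 0` by hypothesis.  Then
`eB (sqs {j, z}) (eB (rp j ((x j x z)^2)) (eB (sqs Q) t)) ∈ P0` and `t1` gives the claim (`sqs_union`). -/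
theorem layer2_P0 {P0 P : AddSubgroup FB} (h0 : A0F P0) (hP : Ids P) (hle : P ≤ P0) {H Q : Finset ℕ} {j : ℕ} (hj : j ∉ H) (hQ : Q ⊆ H)
    (hm : H = ∅ ∨ Q ≠ H) {g t : FB} {ε : ZMod 2} (hε : H = ∅ → ε = 0) (hg : Full (insert j H) g) (ht : Full (insert j H) t)
    (h : g + eB (sqs {j}) t + ε • (Xl j * XP H * Xl j) ∈ I3 j ⊔ P)
    (hg0 : eB (sqs Q) g ∈ P0) : ε = 0 ∧ eB (sqs (insert j Q)) t ∈ P0 := by
  classical
  obtain ⟨z, hz⟩ := Infinite.exists_notMem_finset (insert j H)
  have hzj : z ≠ j := fun h1 => hz (by rw [h1]; exact Finset.mem_insert_self _ _)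
  have hjz : j ≠ z := hzj.symm
  have hzH : z ∉ H := fun h1 => hz (Finset.mem_insert_of_mem h1)
  have hjQ : j ∉ Q := fun h1 => hj (hQ h1)
  have hzQ : z ∉ Q := fun h1 => hzH (hQ h1)
  have h4 : ∀ g a b c : F, C g * o a * C g * o b * C g * o c * C g ∈ P0 := fun g a b c => hle (hP.four g a b c)
  have r := layer2_pol hP hj hzH hjz ht h
  -- evaluation at squares
  have ev : ∀ f ∈ P ⊔ (I2 j ⊔ I2 z), eB (sqs (insert j (insert z Q))) f ∈ P0 := by
    intro f hf
    obtain ⟨a, ha, b, hb, rfl⟩ := AddSubgroup.mem_sup.1 hf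
    obtain ⟨c, hc, d, hd, rfl⟩ := AddSubgroup.mem_sup.1 hb
    rw [map_add, map_add]
    refine add_mem (h0.ti.endo _ _ (hle ha)) (add_mem (sq_I2 h0.ti h4 (Finset.mem_insert_self _ _) hc)
      (sq_I2 h0.ti h4 (Finset.mem_insert_of_mem (Finset.mem_insert_self _ _)) hd))
  have r1 := ev _ r
  have e1 : (sqs (insert j (insert z Q))).comp (rp j (x j * x z)) =
      ((sqs {j, z}).comp (rp j (x j * x z))).comp (sqs Q) := by
    refine hom_ext fun i => ?_
    by_cases hij : i = j
    · subst hij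
      simp [hjQ, hjz]
    · by_cases hiz : i = z
      · subst hiz
        simp [hzQ, hij]
      · by_cases hiQ : i ∈ Q
        · simp [hiQ, hij, hiz]
        · simp [hiQ, hij, hiz]
  have r2 : eB (sqs (insert j (insert z Q))) (eB (rp j (x j * x z)) g) ∈ P0 := by
    rw [eB_comp, e1, ← eB_comp]
    exact h0.ti.endo _ _ hg0
  have r3 : eB (sqs (insert j (insert z Q))) (eB (rp j ((x j * x z) ^ 2)) t +
      ε • (Xl j * XP H * Xl z + Xl z * XP H * Xl j)) ∈ P0 := by
    rw [add_assoc, map_add] at r1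
    exact (AddSubgroup.add_mem_cancel_left _ r2).1 r1
  -- the bracket
  have k1 : ∀ i ∈ H, eB (rp i 1) (eB (rp j ((x j * x z) ^ 2)) t) = 0 := by
    intro i hi
    have hij : i ≠ j := fun h1 => hj (h1 ▸ hi)
    have hiz : i ≠ z := fun h1 => hzH (h1 ▸ hi)
    have e2 : (rp i 1).comp (rp j ((x j * x z) ^ 2)) = (rp j ((x j * x z) ^ 2)).comp (rp i 1) := by
      refine hom_ext fun l => ?_
      by_cases hlj : l = j
      · subst hlj
        simp [hij.symm, hiz.symm]
      · by_cases hli : l = i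
        · subst hli
          simp [hlj]
        · simp [hlj, hli]
    rw [eB_comp, e2, ← eB_comp, ht.kill i (Finset.mem_insert_of_mem hi), map_zero]
  have k2 : eB (ret (insert j (insert z H))) (eB (rp j ((x j * x z) ^ 2)) t) = eB (rp j ((x j * x z) ^ 2)) t := by
    have e2 : ((ret (insert j (insert z H))).comp (rp j ((x j * x z) ^ 2))).comp (ret (insert j H)) =
        (rp j ((x j * x z) ^ 2)).comp (ret (insert j H)) := by
      refine hom_ext fun l => ?_
      by_cases hlj : l = j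
      · subst hlj
        simp
      · by_cases hlH : l ∈ H
        · simp [hlj, hlH]
        · simp [hlj, hlH]
    conv_lhs => rw [← ht.inn]
    conv_rhs => rw [← ht.inn]
    rw [eB_comp, eB_comp, eB_comp, e2]
  obtain ⟨s', hs', n, hn, hsn, k3, k4⟩ := split_br (H := H) (M := insert j (insert z H)) (W := I2 j ⊔ I2 z) hj hzH
    (Finset.mem_insert_self _ _) (Finset.mem_insert_of_mem (Finset.mem_insert_self _ _))
    (fun φ hφ1 hφ2 w hw => by
      obtain ⟨a, ha, b, hb, rfl⟩ := AddSubgroup.mem_sup.1 hw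
      rw [map_add]
      exact add_mem (AddSubgroup.mem_sup_left (eB_I2 φ hφ1 ha)) (AddSubgroup.mem_sup_right (eB_I2 φ hφ2 hb)))
    (br_mem hjz (full_I1 ht)) k1 k2
  have hε0 : ε = 0 := by
    rcases hm with hH | hQH
    · exact hε hH
    · have hz2 : ∀ d : ZMod 2, d = 0 ∨ d = 1 := by decide
      rcases hz2 ε with h1 | h1
      · exact h1
      · exfalso
        refine h0.par H Q j z hjz hj hzH hQ hQH s' hs' k3 k4 ?_
        rw [h1, one_smul, hsn] at r3
        have e3 : s' + n + (Xl j * XP H * Xl z + Xl z * XP H * Xl j) =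
            n + (s' + Xl j * XP H * Xl z + Xl z * XP H * Xl j) := by abel
        rw [e3, map_add] at r3
        exact (AddSubgroup.add_mem_cancel_left _ (ev n (AddSubgroup.mem_sup_right hn))).1 r3
  refine ⟨hε0, ?_⟩
  rw [hε0, zero_smul, add_zero] at r3
  have hd : Disjoint ({j, z} : Finset ℕ) Q := by
    rw [Finset.disjoint_left]
    intro a ha haQ
    rcases Finset.mem_insert.1 ha with h1 | h1
    · exact hjQ (h1 ▸ haQ)
    · exact hzQ ((Finset.mem_singleton.1 h1) ▸ haQ)
  have hset : insert j (insert z Q) = ({j, z} : Finset ℕ) ∪ Q := by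
    ext a
    simp
  have e4 : (sqs Q).comp (rp j ((x j * x z) ^ 2)) = (rp j ((x j * x z) ^ 2)).comp (sqs Q) := by
    refine hom_ext fun l => ?_
    by_cases hlj : l = j
    · subst hlj
      simp [hjQ, hzQ]
    · by_cases hlQ : l ∈ Q
      · simp [hlj, hlQ]
      · simp [hlj, hlQ]
  have r4 : eB (sqs {j, z}) (eB (rp j ((x j * x z) ^ 2)) (eB (sqs Q) t)) ∈ P0 := by
    rw [eB_comp (rp j ((x j * x z) ^ 2)), ← e4, ← eB_comp, sqs_union _ _ hd, ← hset]
    exact r3
  have e5 : ∀ l, l ∉ Q → (rp l 1).comp (sqs Q) = (sqs Q).comp (rp l 1) := by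
    intro l hl
    refine hom_ext fun i => ?_
    by_cases hil : i = l
    · subst hil
      simp [hl]
    · by_cases hiQ : i ∈ Q
      · simp [hil, hiQ]
      · simp [hil, hiQ]
  have r5 := h0.t1 j z (eB (sqs Q) t) hjz
    (by rw [eB_comp, e5 j hjQ, ← eB_comp, ht.kill j (Finset.mem_insert_self _ _), map_zero])
    (by rw [eB_comp, e5 z hzQ, ← eB_comp, kill_of_ret ht.inn hz]) r4
  rw [sqs_union _ _ (Finset.disjoint_singleton_left.2 hjQ)] at r5
  exact r5

end E4.X
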