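import Pool.Agent.Lib.MP_8a95e3_al.X09a

/-!
# X09b : step C0 : `E0 (n+1)` from `E0 n` and `E1 n`
-/

noncomputable section

namespace E4.X

open E4

/-- **Step C0.**  PROOF.  `L` with `n + 1` elements, `j ∈ L`, `H = L.erase j`, `f` full (letters `insert j H = L`), `f ∈ P0`.
1. `eB (sqs {j}) f ∈ P0` (`TI.endo`), so `f ∈ P ⊔ I2 j` by `E1 n` for `H`, `j`.  `full_dec`: `f = q + g`, `q ∈ P`, `g ∈ I2 j`, full; `g ∈ P0` as `P ≤ P0`.
2. `layer2`: `t`, `ε`; `layer2_P0` with `Q = ∅` (`sqs ∅ = id`): `ε = 0`, `eB (sqs {j}) t ∈ P0`; `E1 n`: `t ∈ P ⊔ I2 j`; `sq_t`: `eB (sqs {j}) t ∈ P`.  So `g ∈ I3 j ⊔ P`.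
3. `stepC3` with `Q = ∅` (`NP_empty`; `IH` = `E0 n`): `g ∈ P`. -/
theorem stepC0 {P0 P : AddSubgroup FB} (h0 : A0F P0) (hP : Ids P) (hle : P ≤ P0) {n : ℕ} (e0 : E0 P0 P n) (e1 : E1 P0 P n) :
    E0 P0 P (n + 1) := by
  have hsq0 : ∀ u : FB, eB (sqs ∅) u = u := fun u => eB_id _ (fun i => by simp) u
  intro L hL f hf hf0
  obtain ⟨j, hjL⟩ : L.Nonempty := by
    rw [← Finset.card_pos]; omega
  have hj : j ∉ L.erase j := Finset.notMem_erase j L
  have hin : insert j (L.erase j) = L := Finset.insert_erase hjL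
  have hc : (L.erase j).card = n := by
    have := Finset.card_erase_of_mem hjL
    omega
  generalize L.erase j = H at hj hin hc
  rw [← hin] at hf
  have hE1 : ∀ u, Full (insert j H) u → eB (sqs {j}) u ∈ P0 → u ∈ P ⊔ I2 j :=
    fun u hu hu0 => e1 H j hc hj u hu hu0
  have h1 : f ∈ P ⊔ I2 j := hE1 f hf (h0.ti.endo _ _ hf0)
  have hB' : ∀ i ∈ insert j H, ∀ a ∈ I2 j, eB (rp i 1) a ∈ I2 j := by
    intro i _ a ha
    by_cases hij : i = j
    · subst hij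
      rw [eB_kill_I2 ha]
      exact (I2 i).zero_mem
    · refine eB_I2 _ ?_ ha
      rw [rp_x, if_neg (fun h => hij h.symm)]
  have hB : ∀ a ∈ I2 j, eB (ret (insert j H)) a ∈ I2 j := by
    intro a ha
    refine eB_I2 _ ?_ ha
    rw [ret_x, if_pos (Finset.mem_insert_self j H)]
  obtain ⟨q, hq, g, hg, hfg, _, hgF⟩ := full_dec hf h1 (fun a ha => hP.ti.endo _ _ ha)
    (fun i _ a ha => hP.ti.endo _ _ ha) hB hB'
  have hgf : g = f + q := by
    rw [hfg, add_comm q g, add_assoc, fb_add_self, add_zero]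
  have hg0 : g ∈ P0 := by
    rw [hgf]; exact P0.add_mem hf0 (hle hq)
  have hm1 : H = ∅ ∨ (∅ : Finset ℕ) ≠ H := by
    by_cases h : H = ∅
    · exact Or.inl h
    · exact Or.inr (fun h' => h h'.symm)
  have hm2 : H = ∅ ∨ ∃ m ∈ H, m ∉ (∅ : Finset ℕ) := by
    rcases Finset.eq_empty_or_nonempty H with h | ⟨m, hm⟩
    · exact Or.inl h
    · exact Or.inr ⟨m, hm, Finset.notMem_empty m⟩
  obtain ⟨t, ε, ht, hε, hl⟩ := layer2 hP hj hg hgF
  obtain ⟨he, ht0⟩ := layer2_P0 h0 hP hle hj (Finset.empty_subset H) hm1 hε hgF ht hl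
    (by rw [hsq0]; exact hg0)
  have ht0' : eB (sqs {j}) t ∈ P0 := by
    have h : (insert j (∅ : Finset ℕ)) = {j} := rfl
    rw [h] at ht0
    exact ht0
  have ht1 : t ∈ P ⊔ I2 j := hE1 t ht ht0'
  have ht2 : eB (sqs {j}) t ∈ P := sq_t hP ht1
  have hg3 : g ∈ I3 j ⊔ P := by
    rw [he, zero_smul, add_zero] at hl
    have h2 : g = (g + eB (sqs {j}) t) + eB (sqs {j}) t := by
      rw [add_assoc, fb_add_self, add_zero]
    rw [h2]
    exact (I3 j ⊔ P).add_mem hl ((le_sup_right : P ≤ I3 j ⊔ P) ht2)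
  have hgP : g ∈ NP P ∅ := by
    refine stepC3 h0 hP hle hj (Finset.empty_subset H) (by simp) hm2 ?_ ?_ hgF ?_
    · intro w hw hw0
      rw [hsq0] at hw0
      rw [NP_empty]
      exact e0 H hc w hw hw0
    · rw [NP_empty]; exact hg3
    · rw [hsq0]; exact hg0
  rw [NP_empty] at hgP
  rw [hfg]
  exact P.add_mem hq hgP

end E4.X
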