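import Pool.Agent.Lib.MP_8a95e3_al.X09b

/-!
# X10a : step C1: the elements `e`
-/

noncomputable section

namespace E4.X

open E4

private theorem X10a_W {P : AddSubgroup FB} (hP : TI P) (y z : ℕ) (φ : F →* F) (hy : φ (x y) = x y) (hz : φ (x z) = x z)
    {w : FB} (hw : w ∈ P ⊔ I2 y ⊔ I2 z) : eB φ w ∈ P ⊔ I2 y ⊔ I2 z := by
  obtain ⟨w1, hw1, c, hc, rfl⟩ := AddSubgroup.mem_sup.1 hw
  obtain ⟨a, ha, b, hb, rfl⟩ := AddSubgroup.mem_sup.1 hw1
  rw [map_add, map_add]
  exact AddSubgroup.add_mem _ (AddSubgroup.mem_sup_left (AddSubgroup.add_mem _ (AddSubgroup.mem_sup_left (hP.endo φ a ha))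
    (AddSubgroup.mem_sup_right (eB_I2 φ hy hb)))) (AddSubgroup.mem_sup_right (eB_I2 φ hz hc))

private theorem X10a_bi {P : AddSubgroup FB} (hP : TI P) (y z : ℕ) : Bi (P ⊔ I2 y ⊔ I2 z) :=
  (hP.bi.sup (I2_bi y)).sup (I2_bi z)

private theorem X10a_one (y z : ℕ) : ee 1 y z = 0 := by
  have h1 : T 1 = 0 := by
    unfold T
    rw [inv_one, fb_add_self]
  unfold ee
  rw [h1, zero_mul, zero_mul, zero_mul, zero_mul, add_zero]

/-- replacing modulo a subgroup -/
private theorem X10a_tr (W : AddSubgroup FB) {a b c : FB} (h1 : a + b ∈ W) (h2 : b + c ∈ W) : a + c ∈ W := by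
  have e : a + c = (a + b) + (b + c) := by
    rw [add_assoc, ← add_assoc b b c, fb_add_self, zero_add]
  rw [e]
  exact W.add_mem h1 h2

/-- PROOF.  `D v = ee v y z`, `W = P ⊔ I2 y ⊔ I2 z`.  `one`: `T 1 = 0`.  `sql`, `sqr`, `sqi`, `com`: `e1a`, `e1b`, `e1c`, `e2`.  `sym`: from `e3` for `(g, v)` and `(v, g)` and
`ee (g v) + ee (v g) ∈ W`: `g v = v g * [g, v]` and `[g,v] = g⁻¹ v⁻¹ g v = (g⁻¹)^2 (g v⁻¹)^2 v^2`, three times `e1c`.  `self`: `e3` with `g = v`: `ee (g²) + 2 ee g + C g * ee g`, and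
`ee (1 * g²) ≡ ee 1 = 0`. -/
theorem dhypE {P : AddSubgroup FB} (hP : Ids P) {L : Finset ℕ} {y z : ℕ} (hyz : y ≠ z) (hy : y ∉ L) (hz : z ∉ L) :
    DHyp (P ⊔ I2 y ⊔ I2 z) (fun v => ee v y z) L := by
  have hjy : ∀ j ∈ L, y ≠ j := fun j hj h => hy (h ▸ hj)
  have hjz : ∀ j ∈ L, z ≠ j := fun j hj h => hz (h ▸ hj)
  refine ⟨X10a_bi hP.ti y z, ?_, ?_, ?_, ?_, ?_, ?_, ?_, ?_, ?_⟩
  · intro j hj w hw
    refine X10a_W hP.ti y z _ ?_ ?_ hw
    · rw [rp_x, if_neg (hjy j hj)]
    · rw [rp_x, if_neg (hjz j hj)]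
  · intro j hj v
    show eB (rp j 1) (ee v y z) = ee (rp j 1 v) y z
    unfold ee
    simp only [map_add, map_mul, eB_T, eB_C, eB_Xl_rp_ne _ (hjy j hj), eB_Xl_rp_ne _ (hjz j hj)]
  · show ee 1 y z ∈ _
    rw [X10a_one]
    exact AddSubgroup.zero_mem _
  · intro c v
    exact hP.e1a y z hyz c v
  · intro c v
    exact hP.e1b y z hyz c v
  · intro c v
    exact hP.e1c y z hyz c v
  · intro g v
    exact hP.e2 y z hyz g v
  · intro g v
    show C g * ee v y z + C v * ee g y z ∈ _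
    have h1 := hP.e3 y z hyz g v
    have h2 := hP.e3 y z hyz v g
    have h3 : ee (g * v) y z + ee (v * g) y z ∈ P ⊔ I2 y ⊔ I2 z := by
      have e : g * v = v * g * g⁻¹ ^ 2 * (g * v⁻¹) ^ 2 * v ^ 2 := by
        simp only [pow_two]
        group
      rw [e]
      exact X10a_tr _ (hP.e1c y z hyz _ _) (X10a_tr _ (hP.e1c y z hyz _ _) (hP.e1c y z hyz _ _))
    have e : C g * ee v y z + C v * ee g y z = (ee (g * v) y z + ee g y z + ee v y z + C v * ee g y z) +
        (ee (v * g) y z + ee v y z + ee g y z + C g * ee v y z) + (ee (g * v) y z + ee (v * g) y z) := by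
      have e1 : (ee (g * v) y z + ee g y z + ee v y z + C v * ee g y z) +
          (ee (v * g) y z + ee v y z + ee g y z + C g * ee v y z) + (ee (g * v) y z + ee (v * g) y z) =
          (C g * ee v y z + C v * ee g y z) + (ee (g * v) y z + ee (g * v) y z) + (ee (v * g) y z + ee (v * g) y z) +
          (ee g y z + ee g y z) + (ee v y z + ee v y z) := by abel
      rw [e1, fb_add_self, fb_add_self, fb_add_self, fb_add_self, add_zero, add_zero, add_zero, add_zero]
    rw [e]
    exact AddSubgroup.add_mem _ (AddSubgroup.add_mem _ h1 h2) h3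
  · intro g
    show C g * ee g y z ∈ _
    have h1 := hP.e3 y z hyz g g
    have h2 := hP.e1c y z hyz g 1
    rw [X10a_one, add_zero, one_mul, pow_two] at h2
    have e : C g * ee g y z = (ee (g * g) y z + ee g y z + ee g y z + C g * ee g y z) + ee (g * g) y z := by
      have e1 : (ee (g * g) y z + ee g y z + ee g y z + C g * ee g y z) + ee (g * g) y z =
        C g * ee g y z + (ee (g * g) y z + ee (g * g) y z) + (ee g y z + ee g y z) := by abel
      rw [e1, fb_add_self, fb_add_self, add_zero, add_zero]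
    rw [e]
    exact AddSubgroup.add_mem _ h1 h2

private theorem X10a_Tf (j : ℕ) (g : F) : T g + T (rp j 1 g) ∈ I1 j := by
  have e : T g + T (rp j 1 g) = (o g + o (rp j 1 g)) + (o g⁻¹ + o (rp j 1 g⁻¹)) := by
    unfold T
    rw [map_inv (rp j 1)]
    abel
  rw [e]
  exact (I1 j).add_mem (fox j g) (fox j g⁻¹)

private theorem X10a_Cf (j : ℕ) (g : F) : C g + C (rp j 1 g) ∈ I1 j := by
  have e : C g + C (rp j 1 g) = (o g + o (rp j 1 g)) := by
    unfold C
    rw [add_add_add_comm, fb_add_self, add_zero]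
  rw [e]
  exact fox j g

private theorem X10a_Xl (j : ℕ) : Xl j ∈ I1 j := sub_idl rfl

/-- `ee g y z` is linear in `y` and `z` -/
private theorem X10a_deg (y z : ℕ) (g : F) : ee g y z ∈ I1 y ∧ ee g y z ∈ I1 z := by
  unfold ee
  refine ⟨(I1 y).add_mem ?_ ?_, (I1 z).add_mem ?_ ?_⟩
  · exact (I1_bi y).mul_right _ ((I1_bi y).mul_right _ ((I1_bi y).mul_left _ (X10a_Xl y)))
  · exact (I1_bi y).mul_left _ (X10a_Xl y)
  · exact (I1_bi z).mul_right _ ((I1_bi z).mul_left _ (X10a_Xl z))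
  · exact (I1_bi z).mul_right _ ((I1_bi z).mul_right _ ((I1_bi z).mul_left _ (X10a_Xl z)))

private theorem X10a_id (t t' Y Z c c' : FB) : (t * Y * Z * c + t * Z * c * Y) + (t' * Y * Z * c' + t' * Z * c' * Y) =
    (t + t') * (Y * Z * c) + (t + t') * (Z * c * Y) + (t' * (Y * Z) * (c + c') + t' * Z * ((c + c') * Y)) := by
  have e1 : (t + t') * (Y * Z * c) + (t + t') * (Z * c * Y) + (t' * (Y * Z) * (c + c') + t' * Z * ((c + c') * Y)) =
      (t * Y * Z * c + t * Z * c * Y) + (t' * Y * Z * c' + t' * Z * c' * Y) +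
      (t' * Y * Z * c + t' * Y * Z * c) + (t' * Z * c * Y + t' * Z * c * Y) := by noncomm_ring
  rw [e1, fb_add_self, fb_add_self, add_zero, add_zero]

private theorem X10a_eey (y z : ℕ) (g : F) : ee g y z + ee (rp y 1 g) y z ∈ I2 y := by
  unfold ee
  rw [X10a_id]
  refine (I2 y).add_mem ((I2 y).add_mem ?_ ?_) ((I2 y).add_mem ?_ ?_)
  · exact mul_I1_I1 (X10a_Tf y g) ((I1_bi y).mul_right _ ((I1_bi y).mul_right _ (X10a_Xl y)))
  · exact mul_I1_I1 (X10a_Tf y g) ((I1_bi y).mul_left _ (X10a_Xl y))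
  · exact mul_I1_I1 ((I1_bi y).mul_left _ ((I1_bi y).mul_right _ (X10a_Xl y))) (X10a_Cf y g)
  · exact (I2_bi y).mul_left _ (mul_I1_I1 (X10a_Cf y g) (X10a_Xl y))

private theorem X10a_eez (y z : ℕ) (g : F) : ee g y z + ee (rp z 1 g) y z ∈ I2 z := by
  unfold ee
  rw [X10a_id]
  refine (I2 z).add_mem ((I2 z).add_mem ?_ ?_) ((I2 z).add_mem ?_ ?_)
  · exact mul_I1_I1 (X10a_Tf z g) ((I1_bi z).mul_right _ ((I1_bi z).mul_left _ (X10a_Xl z)))
  · exact mul_I1_I1 (X10a_Tf z g) ((I1_bi z).mul_right _ ((I1_bi z).mul_right _ (X10a_Xl z)))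
  · exact mul_I1_I1 ((I1_bi z).mul_left _ ((I1_bi z).mul_left _ (X10a_Xl z))) (X10a_Cf z g)
  · rw [← mul_assoc]
    exact (I2_bi z).mul_right _ (mul_I1_I1 ((I1_bi z).mul_left _ (X10a_Xl z)) (X10a_Cf z g))

/-- killing of `y`, `z` in the coefficients -/
private theorem X10a_gen {W : AddSubgroup FB} (hW : Bi W) {y z : ℕ} (hy : I2 y ≤ W) (hz : I2 z ≤ W) (a g b : F) :
    o a * ee g y z * o b + o (rp y 1 (rp z 1 a)) * ee (rp y 1 (rp z 1 g)) y z * o (rp y 1 (rp z 1 b)) ∈ W := by
  have hd := fun h : F => X10a_deg y z h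
  have h1 : ∀ j, (∀ h : F, ee h y z ∈ I1 j) → (∀ h : F, ee h y z + ee (rp j 1 h) y z ∈ I2 j) → I2 j ≤ W → ∀ a g b : F,
      o a * ee g y z * o b + o (rp j 1 a) * ee (rp j 1 g) y z * o (rp j 1 b) ∈ W := by
    intro j hj1 hj2 hj3 a g b
    have e1 : o a * ee g y z * o b + o (rp j 1 a) * ee g y z * o b ∈ W := by
      rw [← add_mul, ← add_mul]
      exact hW.right _ _ (hj3 (mul_I1_I1 (fox j a) (hj1 g)))
    have e2 : o (rp j 1 a) * ee g y z * o b + o (rp j 1 a) * ee (rp j 1 g) y z * o b ∈ W := by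
      rw [← add_mul, ← mul_add]
      exact hW.right _ _ (hW.left _ _ (hj3 (hj2 g)))
    have e3 : o (rp j 1 a) * ee (rp j 1 g) y z * o b + o (rp j 1 a) * ee (rp j 1 g) y z * o (rp j 1 b) ∈ W := by
      rw [← mul_add, mul_assoc]
      exact hW.left _ _ (hj3 (mul_I1_I1 (hj1 _) (fox j b)))
    exact X10a_tr _ e1 (X10a_tr _ e2 e3)
  have h2 := h1 z (fun h => (hd h).2) (X10a_eez y z) hz a g b
  have h3 := h1 y (fun h => (hd h).1) (X10a_eey y z) hy (rp z 1 a) (rp z 1 g) (rp z 1 b)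
  exact X10a_tr _ h2 h3

private theorem X10a_ret {L : Finset ℕ} {y z : ℕ} (hy : y ∉ L) (hz : z ∉ L) (a : F) :
    rp y 1 (rp z 1 (ret (insert y (insert z L)) a)) = ret L a := by
  have e : (rp y 1).comp ((rp z 1).comp (ret (insert y (insert z L)))) = ret L := by
    refine hom_ext fun i => ?_
    show rp y 1 (rp z 1 (ret (insert y (insert z L)) (x i))) = ret L (x i)
    rw [ret_x, ret_x]
    by_cases h1 : i ∈ L
    · have h2 : i ≠ z := fun h => hz (h ▸ h1)
      have h3 : i ≠ y := fun h => hy (h ▸ h1)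
      rw [if_pos (Finset.mem_insert_of_mem (Finset.mem_insert_of_mem h1)), if_pos h1, rp_x, if_neg h2, rp_x, if_neg h3]
    · rw [if_neg h1]
      by_cases h2 : i = y
      · rw [if_pos (by rw [h2]; exact Finset.mem_insert_self _ _), rp_x]
        by_cases h3 : i = z
        · rw [if_pos h3, map_one]
        · rw [if_neg h3, rp_x, if_pos h2]
      · by_cases h3 : i = z
        · rw [if_pos (by rw [h3]; exact Finset.mem_insert_of_mem (Finset.mem_insert_self _ _)), rp_x, if_pos h3, map_one]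
        · rw [if_neg, map_one, map_one]
          rw [Finset.mem_insert, Finset.mem_insert]
          rintro (h4 | h4 | h4)
          · exact h2 h4
          · exact h3 h4
          · exact h1 h4
  exact DFunLike.congr_fun e a

private theorem X10a_smul {W : AddSubgroup FB} (ε : ZMod 2) {a : FB} (ha : a ∈ W) : ε • a ∈ W := by
  have h : ∀ ε : ZMod 2, ε = 0 ∨ ε = 1 := by decide
  rcases h ε with h | h
  · rw [h, zero_smul]; exact W.zero_mem
  · rw [h, one_smul]; exact ha

/-- PROOF.  `f = w + r`, `w ∈ P ⊔ I2 y ⊔ I2 z`, `r ∈ EI y z`; apply `eB (ret (insert y (insert z L)))`; in a generator `o a * ee g y z * o b` the letters `y`, `z` may be killed in `a`, `g`, `b` modulo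
`I2 y ⊔ I2 z` (`fox`: each error term contains `Y` or `Z` twice).  Then `DHyp.main`, `DHyp.cocycle` (`e3`).  For `L = ∅`: `main0`, `β = 0`. -/
theorem ei_full {P : AddSubgroup FB} (hP : Ids P) {L : Finset ℕ} {y z m : ℕ} (hyz : y ≠ z) (hy : y ∉ L) (hz : z ∉ L)
    (hm : L.Nonempty → m ∈ L) {f : FB} (hF : Full (insert y (insert z L)) f) (hf : f ∈ NN P y z) :
    ∃ β : ZMod 2, (L = ∅ → β = 0) ∧ f + β • (XP (L.erase m) * ee (x m) y z) ∈ P ⊔ I2 y ⊔ I2 z := by
  have hD := dhypE hP hyz hy hz (L := L)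
  have hyM : ret (insert y (insert z L)) (x y) = x y := by
    rw [ret_x, if_pos (Finset.mem_insert_self _ _)]
  have hzM : ret (insert y (insert z L)) (x z) = x z := by
    rw [ret_x, if_pos (Finset.mem_insert_of_mem (Finset.mem_insert_self _ _))]
  have hspan : f ∈ AddSubgroup.closure {r : FB | ∃ a v b : F, ret L a = a ∧ ret L v = v ∧ ret L b = b ∧
      r = o a * (fun v => ee v y z) v * o b} ⊔ (P ⊔ I2 y ⊔ I2 z) := by
    have hf' : f ∈ P ⊔ I2 y ⊔ I2 z ⊔ EI y z := hf
    obtain ⟨w, hw, r, hr, h1⟩ := AddSubgroup.mem_sup.1 hf'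
    rw [← hF.inn, ← h1, map_add]
    refine AddSubgroup.add_mem _ (AddSubgroup.mem_sup_right (X10a_W hP.ti y z _ hyM hzM hw)) ?_
    unfold EI idl at hr
    clear h1
    induction hr using AddSubgroup.closure_induction with
    | mem r hr =>
      obtain ⟨a, b, s, ⟨g, rfl⟩, rfl⟩ := hr
      have e : eB (ret (insert y (insert z L))) (o a * ee g y z * o b) =
          o (ret (insert y (insert z L)) a) * ee (ret (insert y (insert z L)) g) y z * o (ret (insert y (insert z L)) b) := by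
        have e1 : eB (ret (insert y (insert z L))) (Xl y) = Xl y := by
          unfold Xl
          rw [eB_C, hyM]
        have e2 : eB (ret (insert y (insert z L))) (Xl z) = Xl z := by
          unfold Xl
          rw [eB_C, hzM]
        unfold ee
        simp only [map_add, map_mul, eB_T, eB_C, eB_o, e1, e2]
      rw [e]
      have h2 := X10a_gen (X10a_bi hP.ti y z) (y := y) (z := z) (le_trans le_sup_right le_sup_left) le_sup_right
        (ret (insert y (insert z L)) a) (ret (insert y (insert z L)) g) (ret (insert y (insert z L)) b)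
      rw [X10a_ret hy hz, X10a_ret hy hz, X10a_ret hy hz] at h2
      have hret : ∀ a : F, ret L (ret L a) = ret L a := by
        intro a
        have e3 : (ret L).comp (ret L) = ret L := by
          rw [ret_ret, Finset.inter_self]
        exact DFunLike.congr_fun e3 a
      have h3 : o (ret L a) * ee (ret L g) y z * o (ret L b) ∈ AddSubgroup.closure {r : FB | ∃ a v b : F,
          ret L a = a ∧ ret L v = v ∧ ret L b = b ∧ r = o a * (fun v => ee v y z) v * o b} :=
        AddSubgroup.subset_closure ⟨ret L a, ret L g, ret L b, hret _, hret _, hret _, rfl⟩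
      have e4 : ∀ p q : FB, p = q + (p + q) := by
        intro p q
        rw [add_comm p q, ← add_assoc, fb_add_self, zero_add]
      rw [e4 (o (ret (insert y (insert z L)) a) * ee (ret (insert y (insert z L)) g) y z * o (ret (insert y (insert z L)) b))
        (o (ret L a) * ee (ret L g) y z * o (ret L b))]
      exact AddSubgroup.add_mem _ (AddSubgroup.mem_sup_left h3) (AddSubgroup.mem_sup_right h2)
    | zero => rw [map_zero]; exact AddSubgroup.zero_mem _
    | add a b _ _ ha hb => rw [map_add]; exact AddSubgroup.add_mem _ ha hb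
    | neg a _ ha => rw [map_neg]; exact AddSubgroup.neg_mem _ ha
  rcases L.eq_empty_or_nonempty with hL | hL
  · refine ⟨0, fun _ => rfl, ?_⟩
    rw [zero_smul, add_zero]
    subst hL
    exact hD.main0 hspan
  · have hmL := hm hL
    obtain ⟨ε₁, ε₂, -, h1⟩ := hD.main hmL hspan (fun j hj => by
      rw [hF.kill j (Finset.mem_insert_of_mem (Finset.mem_insert_of_mem hj))]
      exact AddSubgroup.zero_mem _)
    have h2 := hD.cocycle (fun g v => hP.e3 y z hyz g v) hmL
    refine ⟨ε₁ + ε₂, fun h => absurd h hL.ne_empty, ?_⟩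
    have h3 := AddSubgroup.add_mem _ h1 (X10a_smul ε₁ h2)
    have e : f + (ε₁ + ε₂) • (XP (L.erase m) * ee (x m) y z) =
        f + ε₁ • Dh (fun v => ee v y z) L + ε₂ • (XP (L.erase m) * ee (x m) y z) +
        ε₁ • (Dh (fun v => ee v y z) L + XP (L.erase m) * ee (x m) y z) := by
      have e1 : f + ε₁ • Dh (fun v => ee v y z) L + ε₂ • (XP (L.erase m) * ee (x m) y z) +
          ε₁ • (Dh (fun v => ee v y z) L + XP (L.erase m) * ee (x m) y z) =
          f + (ε₁ + ε₂) • (XP (L.erase m) * ee (x m) y z) + (ε₁ • Dh (fun v => ee v y z) L + ε₁ • Dh (fun v => ee v y z) L) := by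
        rw [smul_add, add_smul]
        abel
      rw [e1, fb_add_self, add_zero]
    rw [e]
    exact h3

end E4.X
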