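import Pool.Agent.Lib.MP_8a95e3_al.X10a

/-!
# X10b : step C1: the lift of `e`
-/

noncomputable section

namespace E4.X

open E4

/-- the lift of `e(x_m; X_j, q)` : `T_m x_j X_q X_m + T_m X_q X_m x_j⁻¹` -/
def EL (m j q : ℕ) : FB := T (x m) * o (x j) * Xl q * C (x m) + T (x m) * Xl q * C (x m) * o (x j)⁻¹

private theorem X10b_o (j : ℕ) : o (x j) = Xl j + 1 := by
  unfold Xl C
  rw [add_assoc, fb_add_self, add_zero]

private theorem X10b_cancel (A S : FB) : A + (S + S) = A := by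
  rw [fb_add_self, add_zero]

/-- the inverse of a letter -/
private theorem X10b_inv (j : ℕ) : o (x j)⁻¹ + 1 + Xl j ∈ I2 j := by
  have h1 : o (x j)⁻¹ * o (x j) = 1 := by
    rw [← map_mul, inv_mul_cancel, map_one]
  have h2 : o (x j)⁻¹ + 1 + Xl j = o (x j)⁻¹ * (Xl j * o 1 * Xl j) := by
    have h3 : o (x j)⁻¹ * (Xl j * o 1 * Xl j) =
        o (x j)⁻¹ * o (x j) * o (x j) + o (x j)⁻¹ + (o (x j)⁻¹ * o (x j) + o (x j)⁻¹ * o (x j)) := by
      unfold Xl C
      rw [map_one]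
      noncomm_ring
    rw [h3, fb_add_self, add_zero, h1, one_mul]
    unfold Xl C
    have h4 : o (x j)⁻¹ + 1 + (o (x j) + 1) = o (x j) + o (x j)⁻¹ + (1 + 1) := by abel
    rw [h4, fb_add_self, add_zero]
  rw [h2]
  exact (I2_bi j).left _ _ (sub_idl ⟨1, rfl⟩)

private theorem X10b_e1 (t J Q c u v : FB) (hu : u = J + 1) :
    t * u * Q * c + t * Q * c * v + (t * J * Q * c + t * Q * c * J) = t * Q * c * (v + 1 + J) := by
  have h : t * u * Q * c + t * Q * c * v + (t * J * Q * c + t * Q * c * J) =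
      t * Q * c * (v + 1 + J) + (t * J * Q * c + t * J * Q * c) := by
    rw [hu]
    noncomm_ring
  rw [h, X10b_cancel]

private theorem X10b_e2 (t J Z Q c u w : FB) (hu : u = 1 + J + Z + J * Z) :
    t * u * Q * c + t * Q * c * w + (t * J * Q * c + t * Q * c * J) + (t * Z * Q * c + t * Q * c * Z) +
      (t * J * Z * Q * c + t * Q * c * Z * J) = t * Q * c * (w + (1 + J + Z + Z * J)) := by
  have h : t * u * Q * c + t * Q * c * w + (t * J * Q * c + t * Q * c * J) + (t * Z * Q * c + t * Q * c * Z) +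
      (t * J * Z * Q * c + t * Q * c * Z * J) = t * Q * c * (w + (1 + J + Z + Z * J)) +
      ((t * J * Q * c + t * Z * Q * c + t * J * Z * Q * c) + (t * J * Q * c + t * Z * Q * c + t * J * Z * Q * c)) := by
    rw [hu]
    noncomm_ring
  rw [h, X10b_cancel]

/-- the inverse of a product of two letters -/
private theorem X10b_inv2 (j z : ℕ) :
    o (x j * x z)⁻¹ + (1 + Xl j + Xl z + Xl z * Xl j) ∈ I2 j ⊔ I2 z := by
  have hJ : Bi (I2 j ⊔ I2 z) := (I2_bi j).sup (I2_bi z)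
  have h1 : o (x j * x z)⁻¹ = o (x z)⁻¹ * o (x j)⁻¹ := by rw [mul_inv_rev, map_mul]
  have h2 : o (x j * x z)⁻¹ + (1 + Xl j + Xl z + Xl z * Xl j) =
      (o (x z)⁻¹ + 1 + Xl z) * o (x j)⁻¹ + (1 + Xl z) * (o (x j)⁻¹ + 1 + Xl j) := by
    have h3 : (o (x z)⁻¹ + 1 + Xl z) * o (x j)⁻¹ + (1 + Xl z) * (o (x j)⁻¹ + 1 + Xl j) =
        o (x z)⁻¹ * o (x j)⁻¹ + (1 + Xl j + Xl z + Xl z * Xl j) +
          (((1 + Xl z) * o (x j)⁻¹) + ((1 + Xl z) * o (x j)⁻¹)) := by
      noncomm_ring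
    rw [h3, X10b_cancel, h1]
  rw [h2]
  exact add_mem (hJ.mul_right _ (AddSubgroup.mem_sup_right (X10b_inv z)))
    (hJ.mul_left _ (AddSubgroup.mem_sup_left (X10b_inv j)))

private theorem X10b_T1 : T 1 = 0 := by
  unfold T
  rw [inv_one, fb_add_self]

/-- PROOF.  `o (x j) = 1 + Xl j`, `o (x j)⁻¹ = 1 + Xl j + (element of I2 j)`: `o x⁻¹ + 1 + Xl j = o x⁻¹ * (1 + x + x²) = o x⁻¹ * Xl j + …`: exactly `x⁻¹ + 1 + (x + 1) = x⁻¹ (x+1)²`. -/
theorem EL_ee (m j q : ℕ) (h1 : m ≠ j) (h2 : m ≠ q) (h3 : j ≠ q) : EL m j q + ee (x m) j q ∈ I2 j := by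
  unfold EL ee
  rw [X10b_e1 _ _ _ _ _ _ (X10b_o j)]
  exact (I2_bi j).mul_left _ (X10b_inv j)

/-- PROOF.  `rp j (x j * x z)`: `o (x j) ↦ (1 + J)(1 + Z)`, `o (x j)⁻¹ ↦ (x z)⁻¹ (x j)⁻¹ ≡ (1 + Z)(1 + J)`; expand: constant terms cancel, the terms with `J` alone are `ee (x m) j q`, with `Z` alone `ee (x m) z q`,
the rest is `BB m j z q`. -/
theorem EL_pol (m j z q : ℕ) (hmj : m ≠ j) (hmz : m ≠ z) (hjz : j ≠ z) (hqj : q ≠ j) (hqz : q ≠ z) :
    eB (rp j (x j * x z)) (EL m j q) + ee (x m) j q + ee (x m) z q + BB m j z q ∈ I2 j ⊔ I2 z := by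
  have hJ : Bi (I2 j ⊔ I2 z) := (I2_bi j).sup (I2_bi z)
  have e1 : eB (rp j (x j * x z)) (EL m j q) = T (x m) * o (x j * x z) * Xl q * C (x m) +
      T (x m) * Xl q * C (x m) * o (x j * x z)⁻¹ := by
    unfold EL Xl
    simp only [map_add, map_mul, map_inv, eB_o, eB_C, eB_T, rp_x, if_neg hmj, if_neg hqj, if_true]
  have e2 : o (x j * x z) = 1 + Xl j + Xl z + Xl j * Xl z := by
    rw [map_mul, X10b_o, X10b_o]
    noncomm_ring
  rw [e1]
  unfold ee BB
  rw [X10b_e2 _ _ _ _ _ _ _ e2]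
  exact hJ.mul_left _ (X10b_inv2 j z)

theorem EL_full (m j q : ℕ) (h1 : m ≠ j) (h2 : m ≠ q) (h3 : j ≠ q) {L : Finset ℕ} (hm : m ∈ L) (hj : j ∉ L) (hq : q ∉ L) :
    Full (insert j (insert q L)) (XP (L.erase m) * EL m j q) := by
  refine ⟨fun i hi => ?_, ?_⟩
  · rw [map_mul]
    by_cases hij : i = j
    · have e : eB (rp i 1) (EL m j q) = 0 := by
        rw [hij]
        unfold EL Xl
        simp only [map_add, map_mul, map_inv, eB_o, eB_C, eB_T, rp_x, if_neg h1, if_neg (Ne.symm h3), if_true]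
        rw [inv_one, map_one, mul_one, mul_one, fb_add_self]
      rw [e, mul_zero]
    by_cases hiq : i = q
    · have e : eB (rp i 1) (EL m j q) = 0 := by
        rw [hiq]
        unfold EL Xl
        simp only [map_add, map_mul, map_inv, eB_o, eB_C, eB_T, rp_x, if_neg h2, if_neg h3, if_true]
        rw [C_one]
        simp only [mul_zero, zero_mul, add_zero]
      rw [e, mul_zero]
    rw [Finset.mem_insert, Finset.mem_insert] at hi
    have hiL : i ∈ L := (hi.resolve_left hij).resolve_left hiq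
    by_cases him : i = m
    · have e : eB (rp i 1) (EL m j q) = 0 := by
        rw [him]
        unfold EL Xl
        simp only [map_add, map_mul, map_inv, eB_o, eB_C, eB_T, rp_x, if_true]
        rw [X10b_T1]
        simp only [zero_mul, add_zero]
      rw [e, mul_zero]
    · rw [XP_kill (Finset.mem_erase.2 ⟨him, hiL⟩), zero_mul]
  · have m1 : j ∈ insert j (insert q L) := Finset.mem_insert_self _ _
    have m2 : q ∈ insert j (insert q L) := Finset.mem_insert_of_mem (Finset.mem_insert_self _ _)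
    have m3 : m ∈ insert j (insert q L) := Finset.mem_insert_of_mem (Finset.mem_insert_of_mem hm)
    have m4 : L.erase m ⊆ insert j (insert q L) := fun i hi =>
      Finset.mem_insert_of_mem (Finset.mem_insert_of_mem (Finset.mem_of_mem_erase hi))
    rw [map_mul, XP_ret m4]
    unfold EL Xl
    simp only [map_add, map_mul, map_inv, eB_o, eB_C, eB_T, ret_x, if_pos m1, if_pos m2, if_pos m3]

/-- PROOF: `eB (sqs {j})` maps `P ⊔ I2 j ⊔ I2 q ⊔ EI j q` to `P ⊔ I2 q`: `TI.endo`, `sq_t`, `eB_I2`, and `e4` (with `Bi`) for the generators of `EI j q`. -/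
theorem sq_t2 {P : AddSubgroup FB} (hP : Ids P) {j q : ℕ} (hjq : j ≠ q) {t : FB} (ht : t ∈ NN P j q) : eB (sqs {j}) t ∈ P ⊔ I2 q := by
  have hW : Bi (P ⊔ I2 q) := hP.ti.bi.sup (I2_bi q)
  unfold NN at ht
  obtain ⟨a, ha, e, he, hae⟩ := AddSubgroup.mem_sup.1 ht
  obtain ⟨b, hb, i, hi, hbi⟩ := AddSubgroup.mem_sup.1 ha
  rw [← hae, ← hbi, map_add, map_add]
  refine add_mem (add_mem ?_ ?_) ?_
  · exact AddSubgroup.mem_sup_left (sq_t hP hb)
  · refine AddSubgroup.mem_sup_right (eB_I2 _ ?_ hi)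
    rw [sqs_x, if_neg]
    rw [Finset.mem_singleton]
    exact Ne.symm hjq
  · refine eB_idl hW _ ?_ he
    rintro s ⟨g, rfl⟩
    exact hP.e4 j q hjq g

end E4.X
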