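import Pool.Agent.Lib.MP_8a95e3_al.X10b

/-!
# X10c : step C1 : `E1 (n+1)` from `E1 n` and `E2 n`, `n ≥ 1`
-/

noncomputable section

namespace E4.X

open E4

private theorem X10c_zmod (ε : ZMod 2) : ε = 0 ∨ ε = 1 := by
  revert ε
  decide

private theorem X10c_add {W : AddSubgroup FB} {a b : FB} (h : a + b ∈ W) (hb : b ∈ W) : a ∈ W := by
  have h1 := W.add_mem h hb
  rwa [add_assoc, fb_add_self, add_zero] at h1

private theorem X10c_addl {W : AddSubgroup FB} {a b : FB} (h : a + b ∈ W) (ha : a ∈ W) : b ∈ W := by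
  rw [add_comm] at h
  exact X10c_add h ha

private theorem X10c_tr {W : AddSubgroup FB} {a b c : FB} (h1 : a + b ∈ W) (h2 : b + c ∈ W) : a + c ∈ W := by
  have h3 : a + c = a + b + (b + c) := by
    have h4 : a + b + (b + c) = a + c + (b + b) := by abel
    rw [h4, fb_add_self, add_zero]
  rw [h3]
  exact W.add_mem h1 h2

/-- evaluation at squares of `P ⊔ (I2 y ⊔ I2 z)` -/
private theorem X10c_ev {P0 P : AddSubgroup FB} (hP : Ids P) (hle : P ≤ P0) {Q : Finset ℕ} {y z : ℕ} (hy : y ∈ Q)
    (hz : z ∈ Q) {f : FB} (hf : f ∈ P ⊔ (I2 y ⊔ I2 z)) : eB (sqs Q) f ∈ P0 := by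
  obtain ⟨a, ha, b, hb, rfl⟩ := AddSubgroup.mem_sup.1 hf
  obtain ⟨c, hc, d, hd, rfl⟩ := AddSubgroup.mem_sup.1 hb
  rw [map_add, map_add]
  exact P0.add_mem (hle (hP.ti.endo _ _ ha)) (P0.add_mem (hle (sq_I2 hP.ti hP.four hy hc))
    (hle (sq_I2 hP.ti hP.four hz hd)))

/-- **Second layer for C1.**  `f` full on `insert j (insert q L)`, `eB (sqs {q}) f ∈ P0`, `f = β E2 + g + n`, `g ∈ I2 j`, `n ∈ P ⊔ I2 q`.
PROOF.  As `layer2_P0` with `H = insert q L`, `Q = {q}`: by `layer2` for `g`, evaluation at `φ = (sqs {j,z,q}).comp (rp j (x j x z))`: `EL_pol` and `e0` give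
`eB (sqs {j, z, q}) (s + ε • (J XP H Z + Z XP H J) + β • (XP (L.erase m) * BB m j z q)) ∈ P0` with `s` as in `layer2_P0` (`split_br`); `parB`: `ε = 0`, `β = 0`; then `t1`. -/
theorem layer2_C1 {P0 P : AddSubgroup FB} (h0 : A0F P0) (hP : Ids P) (hle : P ≤ P0) {L : Finset ℕ} {j q m : ℕ} (hj : j ∉ L) (hq : q ∉ L)
    (hjq : j ≠ q) (hm : m ∈ L) {f g t : FB} {ε β : ZMod 2} (hf0 : eB (sqs {q}) f ∈ P0)
    (hf : f + β • (XP (L.erase m) * EL m j q) + g ∈ P ⊔ I2 q)
    (hg : Full (insert j (insert q L)) g) (ht : Full (insert j (insert q L)) t)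
    (h : g + eB (sqs {j}) t + ε • (Xl j * XP (insert q L) * Xl j) ∈ I3 j ⊔ P) :
    ε = 0 ∧ β = 0 ∧ eB (sqs {j, q}) t ∈ P0 := by
  have hjH : j ∉ insert q L := by
    rw [Finset.mem_insert, not_or]
    exact ⟨hjq, hj⟩
  obtain ⟨z, hzM⟩ := Infinite.exists_notMem_finset (insert j (insert q L))
  have hzj : z ≠ j := fun h => hzM (by rw [h]; exact Finset.mem_insert_self _ _)
  have hzH : z ∉ insert q L := fun h => hzM (Finset.mem_insert_of_mem h)
  have hzq : z ≠ q := fun h => hzH (by rw [h]; exact Finset.mem_insert_self _ _)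
  have hzL : z ∉ L := fun h => hzH (Finset.mem_insert_of_mem h)
  have hjz : j ≠ z := hzj.symm
  have hmj : m ≠ j := fun h => hj (h ▸ hm)
  have hmz : m ≠ z := fun h => hzL (h ▸ hm)
  have hpol := layer2_pol hP hjH hzH hjz ht h
  -- the three evaluations
  have hjQ : j ∈ ({j, z, q} : Finset ℕ) := by simp
  have hzQ : z ∈ ({j, z, q} : Finset ℕ) := by simp
  have hqQ : q ∈ ({j, z, q} : Finset ℕ) := by simp
  have h1 := X10c_ev hP hle hjQ hzQ hpol
  rw [map_add, map_add] at h1
  -- `f`
  have hff : eB (sqs {j, z, q}) (eB (rp j (x j * x z)) f) ∈ P0 := by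
    have hc : (sqs {j, z, q}).comp (rp j (x j * x z)) =
        ((sqs {j, z}).comp (rp j (x j * x z))).comp (sqs {q}) := by
      refine hom_ext fun i => ?_
      simp only [MonoidHom.comp_apply, rp_x, sqs_x, Finset.mem_singleton]
      by_cases hi : i = q
      · subst hi
        simp [hjq.symm, hzq.symm]
      · by_cases hij : i = j
        · subst hij
          simp [hi]
        · simp [hi, hij]
    rw [eB_comp, hc, ← eB_comp]
    exact h0.ti.endo _ _ hf0
  have hee1 : eB (sqs {j, z, q}) (ee (x m) j q) ∈ P0 := by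
    have hd : Disjoint ({z} : Finset ℕ) {j, q} := by
      rw [Finset.disjoint_singleton_left]
      simp [hzj, hzq]
    have hu : ({z} : Finset ℕ) ∪ {j, q} = {j, z, q} := by
      ext i
      simp only [Finset.mem_union, Finset.mem_insert, Finset.mem_singleton]
      tauto
    rw [← hu, ← sqs_union _ _ hd]
    exact h0.ti.endo _ _ (h0.e0 j q hjq (x m))
  have hee2 : eB (sqs {j, z, q}) (ee (x m) z q) ∈ P0 := by
    have hd : Disjoint ({j} : Finset ℕ) {z, q} := by
      rw [Finset.disjoint_singleton_left]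
      simp [hjz, hjq]
    have hu : ({j} : Finset ℕ) ∪ {z, q} = {j, z, q} := by
      ext i
      simp only [Finset.mem_union, Finset.mem_insert, Finset.mem_singleton]
    rw [← hu, ← sqs_union _ _ hd]
    exact h0.ti.endo _ _ (h0.e0 z q hzq (x m))
  have hEL : eB (sqs {j, z, q}) (eB (rp j (x j * x z)) (XP (L.erase m) * EL m j q)) +
      eB (sqs {j, z, q}) (XP (L.erase m) * BB m j z q) ∈ P0 := by
    have hX : eB (rp j (x j * x z)) (XP (L.erase m)) = XP (L.erase m) := by
      refine XP_fix _ fun i hi => ?_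
      rw [rp_x, if_neg]
      rintro rfl
      exact hj (Finset.mem_of_mem_erase hi)
    rw [map_mul (eB (rp j (x j * x z))), hX, ← map_add, ← mul_add, map_mul]
    refine h0.ti.left _ _ ?_
    have hE := X10c_ev hP hle hjQ hzQ
      (AddSubgroup.mem_sup_right (S := P) (EL_pol m j z q hmj hmz hjz hjq.symm hzq.symm))
    have hr : eB (rp j (x j * x z)) (EL m j q) + ee (x m) j q + ee (x m) z q + BB m j z q =
        (eB (rp j (x j * x z)) (EL m j q) + BB m j z q) + (ee (x m) j q + ee (x m) z q) := by abel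
    rw [hr, map_add (eB (sqs {j, z, q})) (_ + BB m j z q)] at hE
    refine X10c_add hE ?_
    rw [map_add]
    exact P0.add_mem hee1 hee2
  have h2 : eB (sqs {j, z, q}) (eB (rp j (x j * x z)) g) +
      eB (sqs {j, z, q}) (β • (XP (L.erase m) * BB m j z q)) ∈ P0 := by
    have hf1 : eB (rp j (x j * x z)) (f + β • (XP (L.erase m) * EL m j q) + g) ∈ P ⊔ (I2 q ⊔ I2 q) := by
      obtain ⟨a, ha, b, hb, hab⟩ := AddSubgroup.mem_sup.1 hf
      rw [← hab, map_add]
      refine AddSubgroup.add_mem _ (AddSubgroup.mem_sup_left (hP.ti.endo _ _ ha))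
        (AddSubgroup.mem_sup_right (AddSubgroup.mem_sup_left (eB_I2 _ ?_ hb)))
      rw [rp_x, if_neg hjq.symm]
    have hf2 := X10c_ev hP hle hqQ hqQ hf1
    rw [map_add, map_add, map_add, map_add] at hf2
    rw [add_assoc] at hf2
    have hf3 := X10c_addl hf2 hff
    rw [add_comm] at hf3
    rcases X10c_zmod β with hβ | hβ
    · rw [hβ, zero_smul, map_zero, map_zero, add_zero] at hf3
      rw [hβ, zero_smul, map_zero, add_zero]
      exact hf3
    · rw [hβ, one_smul] at hf3
      rw [hβ, one_smul]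
      exact X10c_tr hf3 hEL
  -- the splitting
  obtain ⟨s, hs, n, hn, hsn, hsk, hsr⟩ := split_br (H := insert q L) (M := insert j (insert z (insert q L)))
    (j := j) (z := z) (W := I2 j ⊔ I2 z) (s := eB (rp j ((x j * x z) ^ 2)) t) hjH hzH (Finset.mem_insert_self _ _)
    (Finset.mem_insert_of_mem (Finset.mem_insert_self _ _))
    (by
      intro φ h1 h2 w hw
      obtain ⟨a, ha, b, hb, rfl⟩ := AddSubgroup.mem_sup.1 hw
      rw [map_add]
      exact AddSubgroup.add_mem _ (AddSubgroup.mem_sup_left (eB_I2 _ h1 ha))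
        (AddSubgroup.mem_sup_right (eB_I2 _ h2 hb)))
    (br_mem hjz (full_I1 ht))
    (by
      intro i hi
      have hij : i ≠ j := fun h => hjH (h ▸ hi)
      have hiz : i ≠ z := fun h => hzH (h ▸ hi)
      have hc : (rp i 1).comp (rp j ((x j * x z) ^ 2)) = (rp j ((x j * x z) ^ 2)).comp (rp i 1) := by
        refine hom_ext fun k => ?_
        simp only [MonoidHom.comp_apply, rp_x]
        by_cases hk : k = j
        · subst hk
          rw [if_pos rfl, if_neg hij.symm, map_pow, map_mul, rp_x, rp_x, if_neg hij.symm, if_neg hiz.symm,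
            rp_x, if_pos rfl]
        · rw [if_neg hk, rp_x]
          by_cases hki : k = i
          · rw [if_pos hki, map_one]
          · rw [if_neg hki, rp_x, if_neg hk]
      rw [eB_comp, hc, ← eB_comp, ht.kill i (Finset.mem_insert_of_mem hi), map_zero])
    (by
      have hc : (ret (insert j (insert z (insert q L)))).comp ((rp j ((x j * x z) ^ 2)).comp
          (ret (insert j (insert q L)))) = (rp j ((x j * x z) ^ 2)).comp (ret (insert j (insert q L))) := by
        refine hom_ext fun k => ?_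
        simp only [MonoidHom.comp_apply, ret_x]
        by_cases hk : k ∈ insert j (insert q L)
        · rw [if_pos hk, rp_x]
          by_cases hkj : k = j
          · rw [if_pos hkj, map_pow, map_mul, ret_x, ret_x, if_pos (Finset.mem_insert_self _ _),
              if_pos (Finset.mem_insert_of_mem (Finset.mem_insert_self _ _))]
          · rw [if_neg hkj, ret_x, if_pos]
            rcases Finset.mem_insert.1 hk with h | h
            · exact absurd h hkj
            · exact Finset.mem_insert_of_mem (Finset.mem_insert_of_mem h)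
        · rw [if_neg hk, map_one, map_one]
      have h3 : eB (rp j ((x j * x z) ^ 2)) t = eB ((rp j ((x j * x z) ^ 2)).comp (ret (insert j (insert q L)))) t := by
        rw [← eB_comp, ht.inn]
      rw [h3, eB_comp, hc])
  have hn0 : eB (sqs {j, z, q}) n ∈ P0 := X10c_ev hP hle hjQ hzQ (AddSubgroup.mem_sup_right hn)
  have hpar : eB (sqs {j, z, q}) (s + ε • (Xl j * XP (insert q L) * Xl z + Xl z * XP (insert q L) * Xl j) +
      β • (XP (L.erase m) * BB m j z q)) ∈ P0 := by
    rw [map_add, map_add]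
    rw [hsn, map_add] at h1
    have h3 := P0.add_mem (P0.add_mem h1 h2) hn0
    have h4 : ∀ a b c d e : FB, a + (b + c) + d + (a + e) + c = b + d + e := by
      intro a b c d e
      have : a + (b + c) + d + (a + e) + c = b + d + e + ((a + a) + (c + c)) := by abel
      rw [this, fb_add_self, fb_add_self, add_zero, add_zero]
    rw [h4] at h3
    exact h3
  obtain ⟨hε, hβ⟩ := h0.parB L m j z q hm hjz hjq hzq hj hzL hq s hs hsk hsr ε β hpar
  refine ⟨hε, hβ, ?_⟩
  rw [hβ, zero_smul, map_zero, add_zero] at h2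
  rw [hε, zero_smul, map_zero, add_zero] at h1
  have h3 := X10c_addl h1 h2
  have hc : (sqs {j, z, q}).comp (rp j ((x j * x z) ^ 2)) =
      ((sqs {j, z}).comp (rp j ((x j * x z) ^ 2))).comp (sqs {q}) := by
    refine hom_ext fun i => ?_
    simp only [MonoidHom.comp_apply, rp_x, sqs_x, Finset.mem_singleton]
    by_cases hi : i = q
    · subst hi
      simp [hjq.symm, hzq.symm]
    · by_cases hij : i = j
      · subst hij
        simp [hi]
      · simp [hi, hij]
  rw [eB_comp, hc, ← eB_comp, ← eB_comp] at h3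
  have h4 := h0.t1 j z (eB (sqs {q}) t) hjz
    (by
      have hc' : (rp j 1).comp (sqs {q}) = (sqs {q}).comp (rp j 1) := by
        refine hom_ext fun i => ?_
        simp only [MonoidHom.comp_apply, rp_x, sqs_x, Finset.mem_singleton]
        by_cases hi : i = q
        · subst hi
          simp [hjq.symm]
        · by_cases hij : i = j
          · subst hij
            simp [hi]
          · simp [hi, hij]
      rw [eB_comp, hc', ← eB_comp, ht.kill j (Finset.mem_insert_self _ _), map_zero])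
    (by
      refine kill_of_ret (M := insert j (insert q L)) ?_ hzM
      have hc' : (ret (insert j (insert q L))).comp (sqs {q}) = (sqs {q}).comp (ret (insert j (insert q L))) := by
        refine hom_ext fun i => ?_
        simp only [MonoidHom.comp_apply, ret_x, sqs_x, Finset.mem_singleton]
        by_cases hi : i = q
        · subst hi
          simp
        · by_cases hij : i ∈ insert j (insert q L)
          · rw [if_neg hi, ret_x, if_pos hij, sqs_x, if_neg (by rw [Finset.mem_singleton]; exact hi)]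
          · rw [if_neg hi, ret_x, if_neg hij, map_one]
      rw [eB_comp, hc', ← eB_comp, ht.inn])
    h3
  have hd : Disjoint ({j} : Finset ℕ) {q} := by
    rw [Finset.disjoint_singleton_left]
    simp [hjq]
  rw [sqs_union _ _ hd] at h4
  have hu : ({j} : Finset ℕ) ∪ {q} = {j, q} := rfl
  rw [hu] at h4
  exact h4

/-- **Step C1.**  PROOF.  `|L'| = n + 1 ≥ 2`, P-letter `q ∉ L'`, `f` full on `insert q L'`, `eB (sqs {q}) f ∈ P0`.  Take `j ∈ L'`, `L = L'.erase j` (`|L| = n ≥ 1`), `m ∈ L`, `H = insert q L`.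
1. `eB (sqs {j, q}) f ∈ P0`; `E2 n` (`L`; `j`, `q`): `f ∈ NN P j q`; `ei_full`: `f + β • (XP (L.erase m) * ee (x m) j q) ∈ P ⊔ I2 j ⊔ I2 q`; `EL_ee`: the same with `EL m j q`.  `full_dec` (the element `f + β • …EL…` is full, `EL_full`): `= g + n'`,
`g ∈ I2 j`, `n' ∈ P ⊔ I2 q`, full.
2. `layer2` for `g` (letters `insert j H`), `layer2_C1`: `ε = 0`, `β = 0`, `eB (sqs {j, q}) t ∈ P0`; `E2 n`: `t ∈ NN P j q`; `sq_t2`: `eB (sqs {j}) t ∈ P ⊔ I2 q`.  So `f ∈ I3 j ⊔ (P ⊔ I2 q) = I3 j ⊔ NP P {q}`.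
3. `stepC3` with `Q = {q}`, `H = insert q L` (`m ∈ H`, `m ∉ Q`), `IH` = `E1 n` for `L`, `q`. -/
theorem stepC1 {P0 P : AddSubgroup FB} (h0 : A0F P0) (hP : Ids P) (hle : P ≤ P0) {n : ℕ} (hn : 1 ≤ n) (e1 : E1 P0 P n) (e2 : E2 P0 P n) :
    E1 P0 P (n + 1) := by
  intro L' q hL' hq f hF hf0
  have hne : L'.Nonempty := by
    rw [← Finset.card_pos, hL']
    omega
  obtain ⟨j, hj⟩ := hne
  obtain ⟨L, hL⟩ : ∃ L, L = L'.erase j := ⟨_, rfl⟩
  have hLc : L.card = n := by
    rw [hL, Finset.card_erase_of_mem hj, hL']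
    omega
  have hjL : j ∉ L := by
    rw [hL]
    exact Finset.notMem_erase _ _
  have hqL : q ∉ L := by
    rw [hL]
    exact fun h => hq (Finset.mem_of_mem_erase h)
  have hjq : j ≠ q := fun h => hq (h ▸ hj)
  have hLne : L.Nonempty := by
    rw [← Finset.card_pos, hLc]
    omega
  obtain ⟨m, hm⟩ := hLne
  have hmj : m ≠ j := fun h => hjL (h ▸ hm)
  have hmq : m ≠ q := fun h => hqL (h ▸ hm)
  have hjH : j ∉ insert q L := by
    rw [Finset.mem_insert, not_or]
    exact ⟨hjq, hjL⟩
  have hset : insert q L' = insert j (insert q L) := by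
    rw [← Finset.insert_erase hj, ← hL, Finset.insert_comm]
  rw [hset] at hF
  have hd : Disjoint ({j} : Finset ℕ) {q} := by
    rw [Finset.disjoint_singleton_left]
    simp [hjq]
  have hu : ({j} : Finset ℕ) ∪ {q} = {j, q} := rfl
  have hNN : f ∈ NN P j q := by
    refine e2 L j q hLc hjL hqL hjq f hF ?_
    rw [← hu, ← sqs_union _ _ hd]
    exact h0.ti.endo _ _ hf0
  obtain ⟨β, -, h1⟩ := ei_full hP hjq hjL hqL (fun _ => hm) hF hNN
  have hB : Bi (P ⊔ I2 j ⊔ I2 q) := (hP.ti.bi.sup (I2_bi j)).sup (I2_bi q)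
  have hfull := EL_full m j q hmj hmq hjq hm hjL hqL
  have h2 : f + β • (XP (L.erase m) * EL m j q) ∈ I2 j ⊔ (P ⊔ I2 q) := by
    have h3 : f + β • (XP (L.erase m) * EL m j q) ∈ P ⊔ I2 j ⊔ I2 q := by
      rcases X10c_zmod β with hβ | hβ
      · rw [hβ, zero_smul, add_zero] at h1 ⊢
        exact h1
      · rw [hβ, one_smul] at h1 ⊢
        refine X10c_tr h1 ?_
        rw [← mul_add, add_comm]
        exact AddSubgroup.mem_sup_left (AddSubgroup.mem_sup_right
          ((I2_bi j).mul_left _ (EL_ee m j q hmj hmq hjq)))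
    have h4 : P ⊔ I2 j ⊔ I2 q ≤ I2 j ⊔ (P ⊔ I2 q) :=
      sup_le (sup_le (le_trans le_sup_left le_sup_right) le_sup_left) (le_trans le_sup_right le_sup_right)
    exact h4 h3
  have hF1 : Full (insert j (insert q L)) (f + β • (XP (L.erase m) * EL m j q)) := by
    rcases X10c_zmod β with hβ | hβ
    · rw [hβ, zero_smul, add_zero]
      exact hF
    · rw [hβ, one_smul]
      refine ⟨fun i hi => ?_, ?_⟩
      · rw [map_add, hF.kill i hi, hfull.kill i hi, add_zero]
      · rw [map_add, hF.inn, hfull.inn]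
  obtain ⟨g, hg, n', hn', hgn, hgF, -⟩ := full_dec hF1 h2
    (fun a ha => eB_I2 _ (by rw [ret_x, if_pos (Finset.mem_insert_self _ _)]) ha)
    (fun i _ a ha => by
      by_cases hi : i = j
      · rw [hi, eB_kill_I2 ha]
        exact (I2 j).zero_mem
      · exact eB_I2 _ (by rw [rp_x, if_neg (fun h => hi h.symm)]) ha)
    (fun a ha => by
      obtain ⟨b, hb, c, hc, rfl⟩ := AddSubgroup.mem_sup.1 ha
      rw [map_add]
      exact AddSubgroup.add_mem _ (AddSubgroup.mem_sup_left (hP.ti.endo _ _ hb))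
        (AddSubgroup.mem_sup_right (eB_I2 _ (by
          rw [ret_x, if_pos (Finset.mem_insert_of_mem (Finset.mem_insert_self _ _))]) hc)))
    (fun i _ a ha => by
      obtain ⟨b, hb, c, hc, rfl⟩ := AddSubgroup.mem_sup.1 ha
      rw [map_add]
      refine AddSubgroup.add_mem _ (AddSubgroup.mem_sup_left (hP.ti.endo _ _ hb))
        (AddSubgroup.mem_sup_right ?_)
      by_cases hi : i = q
      · rw [hi, eB_kill_I2 hc]
        exact (I2 q).zero_mem
      · exact eB_I2 _ (by rw [rp_x, if_neg (fun h => hi h.symm)]) hc)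
  obtain ⟨t, ε, htF, -, h5⟩ := layer2 hP hjH hg hgF
  have h6 : f + β • (XP (L.erase m) * EL m j q) + g ∈ P ⊔ I2 q := by
    rw [hgn]
    have h7 : g + n' + g = n' + (g + g) := by abel
    rw [h7, fb_add_self, add_zero]
    exact hn'
  obtain ⟨hε, hβ, ht0⟩ := layer2_C1 h0 hP hle hjL hqL hjq hm hf0 h6 hgF htF h5
  have h8 : eB (sqs {j}) t ∈ P ⊔ I2 q := sq_t2 hP hjq (e2 L j q hLc hjL hqL hjq t htF ht0)
  rw [hε, zero_smul, add_zero] at h5
  rw [hβ, zero_smul, add_zero] at hgn
  have h9 : g ∈ I3 j ⊔ (P ⊔ I2 q) := by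
    refine X10c_add ((sup_le_sup (le_refl (I3 j)) le_sup_left) h5) ?_
    exact AddSubgroup.mem_sup_right h8
  have h10 : f ∈ I3 j ⊔ NP P {q} := by
    rw [NP_singleton, hgn]
    exact AddSubgroup.add_mem _ h9 (AddSubgroup.mem_sup_right hn')
  have h11 := stepC3 h0 hP hle (H := insert q L) (Q := {q}) (j := j) hjH
    (Finset.singleton_subset_iff.2 (Finset.mem_insert_self _ _)) (by rw [Finset.card_singleton])
    (Or.inr ⟨m, Finset.mem_insert_of_mem hm, by rw [Finset.mem_singleton]; exact hmq⟩)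
    (fun w hw hw0 => by
      rw [NP_singleton]
      exact e1 L q hLc hqL w hw hw0) h10 hF hf0
  rw [NP_singleton] at h11
  exact h11

end E4.X
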