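import Pool.Agent.Lib.MP_8a95e3_al.X10c

/-!
# X11a : base cases `E0 0`, `E1 0`
-/

noncomputable section

namespace E4.X

open E4

/-- PROOF.  `f` is a function of no letters: `f = 0` or `f = 1` (`eB (ret ∅)` maps every group element to `o 1`).  If `f = 1 ∈ P0` then `Xl 0 ^ 2 ∈ P0`, against `b1`. -/
theorem e0_zero {P0 P : AddSubgroup FB} (h0 : A0F P0) : E0 P0 P 0 := by
  intro L hL f hf hf0
  obtain rfl : L = ∅ := Finset.card_eq_zero.1 hL
  have h1 : ∀ g : FB, eB (ret ∅) g = 0 ∨ eB (ret ∅) g = 1 := by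
    intro g
    refine fb_ind (p := fun g => eB (ret ∅) g = 0 ∨ eB (ret ∅) g = 1) (fun a => ?_) (Or.inl (map_zero _)) ?_ g
    · right
      have h2 : ret ∅ = 1 := hom_ext fun i => by
        rw [ret_x, if_neg (Finset.notMem_empty i)]
        rfl
      rw [eB_o, h2, MonoidHom.one_apply, map_one]
    · intro a b ha hb
      rw [map_add]
      rcases ha with ha | ha <;> rcases hb with hb | hb <;> rw [ha, hb]
      · exact Or.inl (add_zero 0)
      · exact Or.inr (zero_add 1)
      · exact Or.inr (add_zero 1)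
      · exact Or.inl (fb_add_self 1)
  have h2 := h1 f
  rw [hf.inn] at h2
  rcases h2 with h2 | h2
  · rw [h2]
    exact zero_mem _
  · exfalso
    refine h0.b1 0 ?_
    have h3 := h0.ti.left (Xl 0 ^ 2) f hf0
    rw [h2, mul_one] at h3
    exact h3

/-- a full function of one letter is `c • Xl j` modulo `I2 j`.  PROOF: `f ∈ I1 j` (`full_I1`), apply `eB (ret {j})` to the closure; `o a * Xl j * o b` with `ret {j} a = a`: `o a = 1 + (element of I1 j)` (`fox`, `rp j 1 a = 1`). -/
theorem one_letter {j : ℕ} {f : FB} (hf : Full {j} f) : ∃ c : ZMod 2, f + c • Xl j ∈ I2 j := by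
  have hf1 : f ∈ I1 j := (mem_I1_iff j f).2 (hf.kill j (Finset.mem_singleton_self j))
  have key : ∀ r ∈ I1 j, ∃ c : ZMod 2, eB (ret {j}) r + c • Xl j ∈ I2 j := by
    intro r hr
    have hx : Xl j ∈ I1 j := sub_idl rfl
    refine AddSubgroup.closure_induction (p := fun r _ => ∃ c : ZMod 2, eB (ret {j}) r + c • Xl j ∈ I2 j)
      ?_ ?_ ?_ ?_ hr
    · rintro r ⟨a, b, s, hs, rfl⟩
      rw [Set.mem_singleton_iff] at hs
      subst hs
      refine ⟨1, ?_⟩
      have h1 : ∀ g : F, o (ret {j} g) + 1 ∈ I1 j := fun g => by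
        have h2 : (rp j 1).comp (ret {j}) = 1 := hom_ext fun i => by
          rw [MonoidHom.comp_apply, ret_x, MonoidHom.one_apply]
          split_ifs with h
          · rw [rp_x, if_pos (Finset.mem_singleton.1 h)]
          · rw [map_one]
        have h3 := fox j (ret {j} g)
        have h4 : rp j 1 (ret {j} g) = 1 := DFunLike.congr_fun h2 g
        rw [h4, map_one] at h3
        exact h3
      have h2 : eB (ret {j}) (Xl j) = Xl j := by
        rw [Xl, eB_C, ret_x, if_pos (Finset.mem_singleton_self j)]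
      rw [map_mul, map_mul, eB_o, eB_o, h2, one_smul]
      have h3 : o (ret {j} a) * Xl j * o (ret {j} b) + Xl j =
          (o (ret {j} a) + 1) * (Xl j * o (ret {j} b)) + Xl j * (o (ret {j} b) + 1) := by
        have h4 := fb_add_self (Xl j * o (ret {j} b))
        have h5 : (o (ret {j} a) + 1) * (Xl j * o (ret {j} b)) + Xl j * (o (ret {j} b) + 1) =
            o (ret {j} a) * Xl j * o (ret {j} b) + Xl j + (Xl j * o (ret {j} b) + Xl j * o (ret {j} b)) := by
          noncomm_ring
        rw [h5, h4, add_zero]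
      rw [h3]
      exact add_mem (mul_I1_I1 (h1 a) ((I1_bi j).right _ _ hx)) (mul_I1_I1 hx (h1 b))
    · exact ⟨0, by rw [map_zero, zero_smul, add_zero]; exact zero_mem _⟩
    · rintro a b _ _ ⟨c, hc⟩ ⟨d, hd⟩
      refine ⟨c + d, ?_⟩
      have h1 : eB (ret {j}) (a + b) + (c + d) • Xl j =
          (eB (ret {j}) a + c • Xl j) + (eB (ret {j}) b + d • Xl j) := by
        rw [map_add, add_smul]
        abel
      rw [h1]
      exact add_mem hc hd
    · rintro a _ ⟨c, hc⟩
      exact ⟨c, by rw [fb_neg]; exact hc⟩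
  obtain ⟨c, hc⟩ := key f hf1
  rw [hf.inn] at hc
  exact ⟨c, hc⟩

/-- PROOF.  `one_letter`: `f = c • Xl y + i`; `eB (sqs {y}) f = c • Xl y ^ 2 + (element of P0)` (`sq_I2`), so `c = 0` by `b1`. -/
theorem e1_zero {P0 P : AddSubgroup FB} (h0 : A0F P0) (hP : Ids P) (hle : P ≤ P0) : E1 P0 P 0 := by
  intro L y hL hy f hf hs
  obtain rfl : L = ∅ := Finset.card_eq_zero.1 hL
  rw [insert_empty_eq] at hf
  obtain ⟨c, hc⟩ := one_letter hf
  have h1 := sq_I2 h0.ti (fun g a b c => hle (hP.four g a b c)) (Finset.mem_singleton_self y) hc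
  have hz : ∀ d : ZMod 2, d = 0 ∨ d = 1 := by decide
  rcases hz c with h2 | h2
  · have h3 : c = 0 := h2
    rw [h3, zero_smul, add_zero] at hc
    exact AddSubgroup.mem_sup_right hc
  · exfalso
    have h3 : c = 1 := h2
    rw [h3, one_smul, map_add] at h1
    refine h0.b1 y ?_
    have h4 : eB (sqs {y}) (Xl y) = Xl y ^ 2 := by
      rw [Xl, eB_C, sqs_x, if_pos (Finset.mem_singleton_self y), C_sq]
    rw [h4] at h1
    exact (AddSubgroup.add_mem_cancel_left _ hs).1 h1

end E4.X
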