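import Pool.Agent.Lib.MP_8a95e3_al.X11a

/-!
# X11b : base case `E1 1`
-/

noncomputable section

namespace E4.X

open E4

private theorem X11b_XP (q : ℕ) : XP {q} = Xl q := by
  have h := XP_insert (a := q) (L := ∅) (by simp)
  rw [XP_empty, mul_one] at h
  exact h

private theorem X11b_zmod (a : ZMod 2) : a = 0 ∨ a = 1 := by
  revert a
  decide

/-- the degree two part is stable -/
private theorem X11b_I2 (j : ℕ) (φ : F →* F) (h : φ (x j) = x j ∨ φ (x j) = 1) {f : FB} (hf : f ∈ I2 j) :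
    eB φ f ∈ I2 j := by
  rcases h with h | h
  · exact eB_I2 φ h hf
  · refine eB_idl (I2_bi j) φ ?_ hf
    rintro s ⟨a, rfl⟩
    have : eB φ (Xl j) = 0 := by
      rw [Xl, eB_C, h, C_one]
    rw [map_mul, map_mul, this, mul_zero]
    exact zero_mem _

private theorem X11b_I3 (j : ℕ) (φ : F →* F) (h : φ (x j) = x j ∨ φ (x j) = 1) {f : FB} (hf : f ∈ I3 j) :
    eB φ f ∈ I3 j := by
  rcases h with h | h
  · exact eB_I3 φ h hf
  · refine eB_idl (I3_bi j) φ ?_ hf
    rintro s ⟨a, b, rfl⟩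
    have : eB φ (Xl j) = 0 := by
      rw [Xl, eB_C, h, C_one]
    rw [map_mul, this, mul_zero]
    exact zero_mem _

private theorem X11b_sq (j : ℕ) (φ : F →* F) (h : φ (x j) = x j ∨ φ (x j) = 1) {f : FB} (hf : f ∈ idl {Xl j ^ 2}) :
    eB φ f ∈ idl {Xl j ^ 2} := by
  refine eB_idl (idl_bi _) φ ?_ hf
  rintro s hs
  rw [Set.mem_singleton_iff] at hs
  subst hs
  rcases h with h | h
  · have : eB φ (Xl j) = Xl j := by
      rw [Xl, eB_C, h]
    rw [map_pow, this]
    exact sub_idl rfl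
  · have : eB φ (Xl j) = 0 := by
      rw [Xl, eB_C, h, C_one]
    rw [map_pow, this]
    simp

/-- stability of a supremum -/
private theorem X11b_sup {A B : AddSubgroup FB} (φ : F →* F) (hA : ∀ a ∈ A, eB φ a ∈ A) (hB : ∀ b ∈ B, eB φ b ∈ B) :
    ∀ c ∈ A ⊔ B, eB φ c ∈ A ⊔ B := by
  intro c hc
  obtain ⟨a, ha, b, hb, rfl⟩ := AddSubgroup.mem_sup.1 hc
  rw [map_add]
  exact add_mem (AddSubgroup.mem_sup_left (hA a ha)) (AddSubgroup.mem_sup_right (hB b hb))

private theorem X11b_ret (j : ℕ) (M : Finset ℕ) : ret M (x j) = x j ∨ ret M (x j) = 1 := by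
  rw [ret_x]
  split_ifs
  · exact Or.inl rfl
  · exact Or.inr rfl

private theorem X11b_rp (j i : ℕ) : rp i 1 (x j) = x j ∨ rp i 1 (x j) = 1 := by
  rw [rp_x]
  split_ifs
  · exact Or.inr rfl
  · exact Or.inl rfl

private theorem X11b_W2 {P : AddSubgroup FB} (hP : TI P) (j : ℕ) (φ : F →* F) (h : φ (x j) = x j ∨ φ (x j) = 1) :
    ∀ f ∈ W2 P j, eB φ f ∈ W2 P j :=
  X11b_sup φ (X11b_sup φ (fun _ ha => X11b_sq j φ h ha) (fun _ hb => X11b_I3 j φ h hb)) (fun p hp => hP.endo φ p hp)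

private theorem X11b_Pq {P : AddSubgroup FB} (hP : TI P) (q : ℕ) (φ : F →* F) (h : φ (x q) = x q ∨ φ (x q) = 1) :
    ∀ f ∈ P ⊔ I2 q, eB φ f ∈ P ⊔ I2 q :=
  X11b_sup φ (fun p hp => hP.endo φ p hp) (fun _ hb => X11b_I2 q φ h hb)

private theorem X11b_full_add {L : Finset ℕ} {f g : FB} (hf : Full L f) (hg : Full L g) : Full L (f + g) :=
  ⟨fun j hj => by rw [map_add, hf.kill j hj, hg.kill j hj, add_zero], by rw [map_add, hf.inn, hg.inn]⟩

private theorem X11b_JQJ_full {j q : ℕ} (hjq : j ≠ q) : Full {j, q} (Xl j * Xl q * Xl j) := by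
  constructor
  · intro i hi
    rw [Finset.mem_insert, Finset.mem_singleton] at hi
    rcases hi with rfl | rfl
    · rw [map_mul, eB_Xl_rp_self, C_one, mul_zero]
    · rw [map_mul, map_mul, eB_Xl_rp_self, C_one, mul_zero, zero_mul]
  · rw [map_mul, map_mul]
    simp [Xl]

/-- `H = {q}`, second layer: PROOF as `layer2` for `H = {q}` and `s2d` (`Xl j * XP {q} * Xl j = Xl j * Xl q * Xl j ∈ W2 P j ⊔ I2 q`); decompose modulo `I2 q` in addition (as in `w2_dec`). -/
theorem layer2_q {P : AddSubgroup FB} (hP : Ids P) {j q : ℕ} (hjq : j ≠ q) {g : FB} (hg : g ∈ I2 j) (hf : Full {j, q} g) :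
    ∃ t : FB, Full {j, q} t ∧ g + eB (sqs {j}) t ∈ I3 j ⊔ (P ⊔ I2 q) := by
  have hjq' : j ∉ ({q} : Finset ℕ) := by simpa using hjq
  obtain ⟨t, ε, ht, -, h1⟩ := layer2 hP hjq' hg hf
  rw [X11b_XP] at h1
  -- decomposition of `J Q J`
  obtain ⟨w, hw, r, hr, hwr, hwF, hrF⟩ := full_dec (X11b_JQJ_full hjq) (hP.s2d j q hjq)
    (fun a ha => X11b_W2 hP.ti j _ (X11b_ret j _) a ha)
    (fun i _ a ha => X11b_W2 hP.ti j _ (X11b_rp j i) a ha)
    (fun a ha => X11b_I2 q _ (X11b_ret q _) ha)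
    (fun i _ a ha => X11b_I2 q _ (X11b_rp q i) ha)
  obtain ⟨t', ht', h2⟩ := w2_dec hP hjq' hw (fun i hi => hwF.kill i (Finset.mem_insert_of_mem hi)) hwF.inn
  have hle : I3 j ⊔ P ≤ I3 j ⊔ (P ⊔ I2 q) := sup_le_sup_left le_sup_left _
  have h3 : Xl j * Xl q * Xl j + eB (sqs {j}) t' ∈ I3 j ⊔ (P ⊔ I2 q) := by
    have e : Xl j * Xl q * Xl j + eB (sqs {j}) t' = (w + eB (sqs {j}) t') + r := by
      rw [hwr]; abel
    rw [e]
    exact add_mem (hle h2) (AddSubgroup.mem_sup_right (AddSubgroup.mem_sup_right hr))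
  rcases X11b_zmod ε with rfl | rfl
  · refine ⟨t, ht, ?_⟩
    rw [zero_smul, add_zero] at h1
    exact hle h1
  · refine ⟨t + t', X11b_full_add ht ht', ?_⟩
    rw [one_smul] at h1
    have e : g + eB (sqs {j}) (t + t') =
        (g + eB (sqs {j}) t + Xl j * Xl q * Xl j) + (Xl j * Xl q * Xl j + eB (sqs {j}) t') := by
      rw [map_add]
      calc g + (eB (sqs {j}) t + eB (sqs {j}) t')
          = g + (eB (sqs {j}) t + eB (sqs {j}) t') + 0 := by rw [add_zero]
        _ = g + (eB (sqs {j}) t + eB (sqs {j}) t') + (Xl j * Xl q * Xl j + Xl j * Xl q * Xl j) := by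
            rw [fb_add_self]
        _ = _ := by abel
    rw [e]
    exact add_mem (hle h1) h3

private theorem X11b_T (h : F) : T h = o h⁻¹ * (C h * C h) := by
  have h1 : C h * C h = o (h ^ 2) + 1 := by
    rw [← pow_two, ← C_sq, C]
  rw [h1, mul_add, mul_one, ← map_mul, T]
  have : h⁻¹ * h ^ 2 = h := by group
  rw [this]

/-- PROOF.  `w` is a sum of `o u * T g * o v`; apply `eB (ret {q})`: `u, g, v` are powers of `x q` (`ret {q} g = g` implies `g` is a power of `x q`), they commute, and `T (x q ^ n) = o (x q ^ (-n)) * C (x q ^ n) ^ 2`, `C (x q ^ n) = Xl q * c` with `c`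
commuting with everything in sight, so `w ∈ I2 q`. -/
theorem tp_q {j q : ℕ} {w k : FB} (h : (w, k) ∈ TP j) (hw : eB (ret {q}) w = w) : w ∈ I2 q := by
  have key : ∀ p : FB × FB, p ∈ TP j → eB (ret {q}) p.1 ∈ I2 q := by
    intro p hp
    refine AddSubgroup.closure_induction (p := fun p _ => eB (ret {q}) p.1 ∈ I2 q) ?_ ?_ ?_ ?_ hp
    · rintro _ ⟨u, g, v, rfl⟩
      have h1 : eB (ret {q}) (o u * T g * o v) = o (ret {q} u) * T (ret {q} g) * o (ret {q} v) := by
        rw [map_mul, map_mul, eB_o, eB_o, eB_T]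
      show eB (ret {q}) (o u * T g * o v) ∈ I2 q
      rw [h1]
      refine (I2_bi q).right _ _ ((I2_bi q).left _ _ ?_)
      have hC : C (ret {q} g) ∈ I1 q := by
        rw [mem_I1_iff, eB_C]
        have : (rp q 1).comp (ret {q}) = 1 := by
          refine hom_ext fun i => ?_
          rw [MonoidHom.comp_apply, ret_x, MonoidHom.one_apply]
          by_cases hi : i = q
          · subst hi
            simp
          · simp [hi]
        have h2 : rp q 1 (ret {q} g) = 1 := by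
          have := DFunLike.congr_fun this g
          simpa using this
        rw [h2, C_one]
      rw [X11b_T]
      exact (I2_bi q).left _ _ (mul_I1_I1 hC hC)
    · show eB (ret {q}) (0 : FB) ∈ I2 q
      rw [map_zero]
      exact zero_mem _
    · intro a b _ _ ha hb
      show eB (ret {q}) (a.1 + b.1) ∈ I2 q
      rw [map_add]
      exact add_mem ha hb
    · intro a _ ha
      show eB (ret {q}) (-a.1) ∈ I2 q
      rw [map_neg]
      exact neg_mem ha
  have := key _ h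
  rw [← hw]
  exact this

private theorem X11b_f0 {P0 : AddSubgroup FB} (h0 : TI P0) {j z q : ℕ} (hjq : j ≠ q) (hjz : j ≠ z) (hqz : q ≠ z)
    {f : FB} (hf : eB (sqs {q}) f ∈ P0) : eB (sqs {j, z, q}) (eB (rp j (x j * x z)) f) ∈ P0 := by
  have e : (sqs {j, z, q}).comp (rp j (x j * x z)) = ((sqs {j, z}).comp (rp j (x j * x z))).comp (sqs {q}) := by
    refine hom_ext fun i => ?_
    rw [MonoidHom.comp_apply, MonoidHom.comp_apply, MonoidHom.comp_apply, rp_x, sqs_x]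
    by_cases hi : i = j
    · subst hi
      simp [hjq, hjz]
    · by_cases hq : i = q
      · subst hq
        simp [hi, hqz]
      · simp [hi, hq]
  rw [eB_comp, e, ← eB_comp]
  exact h0.endo _ _ hf

private theorem X11b_t0 {j z q : ℕ} (hjq : j ≠ q) (hjz : j ≠ z) (hqz : q ≠ z) (t : FB) :
    eB (sqs {j, z}) (eB (rp j ((x j * x z) ^ 2)) (eB (sqs {q}) t)) =
      eB (sqs {j, z, q}) (eB (rp j ((x j * x z) ^ 2)) t) := by
  rw [eB_comp, eB_comp, eB_comp]
  congr 1
  congr 1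
  refine hom_ext fun i => ?_
  rw [MonoidHom.comp_apply, MonoidHom.comp_apply, MonoidHom.comp_apply, rp_x, sqs_x]
  by_cases hi : i = j
  · subst hi
    simp [hjq, hjz]
  · by_cases hq : i = q
    · subst hq
      simp [hi, hqz]
    · simp [hi, hq]

/-- **Base `E1 1`.**  PROOF.  `L' = {j}`, P-letter `q`, `f` full on `{j, q}`.  1. `E2 0` (`L = ∅`; `j`, `q`): `f ∈ NN P j q`, `ei_full` with `L = ∅`: `f ∈ P ⊔ I2 j ⊔ I2 q`; `full_dec`: `f = g + n`, `g ∈ I2 j` full, `n ∈ P ⊔ I2 q`.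
2. `layer2_q`: `t`.  Polarisation (`pol3`, `pol_sq`, `br_mem`) and evaluation at `sqs {j, z, q}`: `eB (sqs {j,z}) (eB (rp j ((x j x z)^2)) (eB (sqs {q}) t)) ∈ P0`; `t1`: `eB (sqs {j, q}) t ∈ P0`; `E2 0`: `t ∈ NN P j q`; `sq_t2`.  So `f ∈ I3 j ⊔ (P ⊔ I2 q)`.
3. `full_dec`: `f = i + n`, `i ∈ I3 j` full; `layer3` with `H = {q}`, `m = q`: `i + k + α₁ • (Xl j * Xl q * Xl j ^ 2) ∈ P` (`α₂ = 0`); `w ∈ I2 q` (`tp_q`), so `k ∈ NP P {q}` (`twdQ`), `eB (sqs {q}) k ∈ P0`; so `α₁ = 0` by `b2`. -/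
theorem e1_one {P0 P : AddSubgroup FB} (h0 : A0F P0) (hP : Ids P) (hle : P ≤ P0) (e2 : E2 P0 P 0) : E1 P0 P 1 := by
  intro L q hL hq f hF hf0
  obtain ⟨j, rfl⟩ := Finset.card_eq_one.1 hL
  have hjq : j ≠ q := by
    rintro rfl
    exact hq (Finset.mem_singleton_self _)
  have hq' : j ∉ ({q} : Finset ℕ) := by simpa using hjq
  have hset : insert q ({j} : Finset ℕ) = {j, q} := Finset.pair_comm q j
  rw [hset] at hF
  have hun : ({j} : Finset ℕ) ∪ {q} = {j, q} := by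
    ext a; simp
  have hdis : Disjoint ({j} : Finset ℕ) {q} := by
    rw [Finset.disjoint_singleton]; exact hjq
  have hins : insert j (insert q (∅ : Finset ℕ)) = {j, q} := by
    ext a; simp
  have h4 := hP.four
  -- the use of `E2 0`
  have useE2 : ∀ t : FB, Full {j, q} t → eB (sqs {j, q}) t ∈ P0 → t ∈ NN P j q := by
    intro t ht ht0
    refine e2 ∅ j q Finset.card_empty (by simp) (by simp) hjq t ?_ ht0
    rw [hins]
    exact ht
  have hfNN : f ∈ NN P j q := by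
    refine useE2 f hF ?_
    rw [← hun, ← sqs_union _ _ hdis]
    exact h0.ti.endo _ _ hf0
  obtain ⟨β, hβ, hf1⟩ := ei_full hP (L := ∅) (m := j) hjq (by simp) (by simp) (by simp) (by rw [hins]; exact hF) hfNN
  rw [hβ rfl, zero_smul, add_zero] at hf1
  have hf2 : f ∈ I2 j ⊔ (P ⊔ I2 q) := by
    have : P ⊔ I2 j ⊔ I2 q ≤ I2 j ⊔ (P ⊔ I2 q) := by
      refine sup_le (sup_le ?_ ?_) ?_
      · exact le_sup_of_le_right le_sup_left
      · exact le_sup_left
      · exact le_sup_of_le_right le_sup_right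
    exact this hf1
  obtain ⟨g, hg, n, hn, hfgn, hgF, hnF⟩ := full_dec hF hf2
    (fun a ha => X11b_I2 j _ (X11b_ret j _) ha)
    (fun i _ a ha => X11b_I2 j _ (X11b_rp j i) ha)
    (fun a ha => X11b_Pq hP.ti q _ (X11b_ret q _) a ha)
    (fun i _ a ha => X11b_Pq hP.ti q _ (X11b_rp q i) a ha)
  obtain ⟨t, htF, ht⟩ := layer2_q hP hjq hg hgF
  -- polarisation
  obtain ⟨z, hz⟩ := Infinite.exists_notMem_finset ({j, q} : Finset ℕ)
  have hjz : j ≠ z := by
    rintro rfl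
    exact hz (by simp)
  have hqz : q ≠ z := by
    rintro rfl
    exact hz (by simp)
  have ht2 : f + eB (sqs {j}) t ∈ I3 j ⊔ (P ⊔ I2 q) := by
    have e : f + eB (sqs {j}) t = (g + eB (sqs {j}) t) + n := by
      rw [hfgn]; abel
    rw [e]
    exact add_mem ht (AddSubgroup.mem_sup_right hn)
  have h5 : ∀ r ∈ I3 j ⊔ (P ⊔ I2 q), eB (sqs {j, z, q}) (eB (rp j (x j * x z)) r) ∈ P := by
    intro r hr
    obtain ⟨a, ha, b, hb, rfl⟩ := AddSubgroup.mem_sup.1 hr
    obtain ⟨c, hc, d, hd, rfl⟩ := AddSubgroup.mem_sup.1 hb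
    rw [map_add, map_add, map_add, map_add]
    refine add_mem ?_ (add_mem ?_ ?_)
    · obtain ⟨a1, ha1, a2, ha2, h⟩ := AddSubgroup.mem_sup.1 (pol3 hjz ha)
      rw [← h, map_add]
      exact add_mem (sq_I2 hP.ti h4 (by simp) ha1) (sq_I2 hP.ti h4 (by simp) ha2)
    · exact hP.ti.endo _ _ (hP.ti.endo _ _ hc)
    · refine sq_I2 hP.ti h4 (q := q) (by simp) (eB_I2 _ ?_ hd)
      rw [rp_x, if_neg (Ne.symm hjq)]
  have h6 : eB (sqs {j, z, q}) (eB (rp j ((x j * x z) ^ 2)) t) ∈ P0 := by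
    have h7 := hle (h5 _ ht2)
    rw [map_add, map_add, pol_sq] at h7
    have h8 := X11b_f0 h0.ti hjq hjz hqz hf0
    exact (add_mem_cancel_left h8).1 h7
  have htq : ∀ i : ℕ, i = j → eB (rp i 1) (eB (sqs {q}) t) = 0 := by
    rintro i rfl
    have e : (rp i 1).comp (sqs {q}) = (sqs {q}).comp (rp i 1) := by
      refine hom_ext fun a => ?_
      rw [MonoidHom.comp_apply, MonoidHom.comp_apply, rp_x, sqs_x]
      by_cases ha : a = i
      · subst ha
        simp [hjq]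
      · by_cases haq : a = q
        · subst haq
          simp [ha]
        · simp [ha, haq]
    rw [eB_comp, e, ← eB_comp, htF.kill i (by simp), map_zero]
  have hrt : eB (ret {j, q}) (eB (sqs {q}) t) = eB (sqs {q}) t := by
    have e : (ret {j, q}).comp (sqs {q}) = (sqs {q}).comp (ret {j, q}) := by
      refine hom_ext fun a => ?_
      rw [MonoidHom.comp_apply, MonoidHom.comp_apply, ret_x, sqs_x]
      by_cases haq : a = q
      · subst haq
        simp
      · by_cases ha : a = j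
        · subst ha
          simp [haq]
        · simp [ha, haq]
    rw [eB_comp, e, ← eB_comp, htF.inn]
  have h9 : eB (sqs {j}) (eB (sqs {q}) t) ∈ P0 := by
    refine h0.t1 j z _ hjz (htq j rfl) ?_ ?_
    · exact kill_of_ret hrt hz
    · rw [X11b_t0 hjq hjz hqz]
      exact h6
  rw [sqs_union _ _ hdis, hun] at h9
  have h10 : eB (sqs {j}) t ∈ P ⊔ I2 q := sq_t2 hP hjq (useE2 t htF h9)
  have hf3 : f ∈ I3 j ⊔ (P ⊔ I2 q) :=
    (add_mem_cancel_right (AddSubgroup.mem_sup_right h10)).1 ht2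
  -- the third layer
  obtain ⟨i, hi, n', hn', hfin, hiF, hnF'⟩ := full_dec hF hf3
    (fun a ha => X11b_I3 j _ (X11b_ret j _) ha)
    (fun i _ a ha => X11b_I3 j _ (X11b_rp j i) ha)
    (fun a ha => X11b_Pq hP.ti q _ (X11b_ret q _) a ha)
    (fun i _ a ha => X11b_Pq hP.ti q _ (X11b_rp q i) a ha)
  obtain ⟨w, k, α₁, α₂, hwk, hwF, hα₂, -, h11⟩ := layer3 hP (H := {q}) (m := q) hq' (fun _ => Finset.mem_singleton_self q) hi hiF
  rw [hα₂ (by simp), zero_smul, add_zero, X11b_XP] at h11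
  have hw2 : w ∈ I2 q := tp_q hwk hwF.inn
  have hk : k ∈ P ⊔ I2 q := by
    have := twdQ hP (Q := {q}) (by simp) hq' hwk (by rw [NP_singleton]; exact AddSubgroup.mem_sup_right hw2)
    rwa [NP_singleton] at this
  have h12 : i + α₁ • (Xl j * Xl q * Xl j ^ 2) ∈ P ⊔ I2 q := by
    have e : i + α₁ • (Xl j * Xl q * Xl j ^ 2) = (i + k + α₁ • (Xl j * Xl q * Xl j ^ 2)) + k := by
      calc i + α₁ • (Xl j * Xl q * Xl j ^ 2) = i + α₁ • (Xl j * Xl q * Xl j ^ 2) + 0 := by rw [add_zero]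
        _ = i + α₁ • (Xl j * Xl q * Xl j ^ 2) + (k + k) := by rw [fb_add_self]
        _ = _ := by abel
    rw [e]
    exact add_mem (AddSubgroup.mem_sup_left h11) hk
  have h13 : ∀ r ∈ P ⊔ I2 q, eB (sqs {q}) r ∈ P0 := by
    intro r hr
    obtain ⟨c, hc, d, hd, rfl⟩ := AddSubgroup.mem_sup.1 hr
    rw [map_add]
    exact add_mem (hle (hP.ti.endo _ _ hc)) (hle (sq_I2 hP.ti h4 (by simp) hd))
  have h14 : f + α₁ • (Xl j * Xl q * Xl j ^ 2) ∈ P ⊔ I2 q := by
    have e : f + α₁ • (Xl j * Xl q * Xl j ^ 2) = (i + α₁ • (Xl j * Xl q * Xl j ^ 2)) + n' := by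
      rw [hfin]; abel
    rw [e]
    exact add_mem h12 hn'
  rcases X11b_zmod α₁ with rfl | rfl
  · rw [zero_smul, add_zero] at h14
    exact h14
  · exfalso
    rw [one_smul] at h14
    have h15 := h13 _ h14
    rw [map_add] at h15
    exact h0.b2 j q hjq ((add_mem_cancel_left hf0).1 h15)

end E4.X
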