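import Pool.Agent.Lib.MP_8a95e3_al.X11b

/-!
# X12a : step A, ring part: bilinear elements
-/

noncomputable section

namespace E4.X

open E4

/-- PROOF: `(sw y z).comp (sw y z) = id` (`hom_ext`). -/
theorem sw_sw (y z : ℕ) (f : FB) : eB (sw y z) (eB (sw y z) f) = f := by
  rw [eB_comp]
  refine eB_id _ (fun i => ?_) f
  rw [MonoidHom.comp_apply, sw_x]
  by_cases h1 : i = y
  · rw [if_pos h1, sw_x]
    by_cases h2 : z = y
    · rw [if_pos h2, h1, h2]
    · rw [if_neg h2, if_pos rfl, h1]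
  · rw [if_neg h1]
    by_cases h2 : i = z
    · rw [if_pos h2, sw_x, if_pos rfl, h2]
    · rw [if_neg h2, sw_x, if_neg h1, if_neg h2]

/-- an element free of `y`, `z` is fixed -/
theorem sw_free {y z : ℕ} {a : F} (h : Fr y z a) : sw y z a = a := by
  have e : (sw y z).comp ((rp y 1).comp (rp z 1)) = (rp y 1).comp (rp z 1) := by
    refine hom_ext fun i => ?_
    rw [MonoidHom.comp_apply, MonoidHom.comp_apply, rp_x]
    by_cases h1 : i = z
    · rw [if_pos h1, map_one, map_one]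
    · rw [if_neg h1, rp_x]
      by_cases h2 : i = y
      · rw [if_pos h2, map_one]
      · rw [if_neg h2, sw_x, if_neg h2, if_neg h1]
  have h2 : (rp y 1) (rp z 1 a) = a := by rw [h.2, h.1]
  have h3 := congrArg (fun φ : F →* F => φ a) e
  simp only [MonoidHom.comp_apply] at h3
  rw [h2] at h3
  exact h3

private theorem X12a_swy (y z : ℕ) : eB (sw y z) (Xl y) = Xl z := by
  unfold Xl
  rw [eB_C, sw_x, if_pos rfl]

private theorem X12a_swz (y z : ℕ) : eB (sw y z) (Xl z) = Xl y := by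
  unfold Xl
  rw [eB_C, sw_x]
  by_cases h : z = y
  · rw [if_pos h, h]
  · rw [if_neg h, if_pos rfl]

theorem Bil_sw {y z : ℕ} (hyz : y ≠ z) {s : FB} (hs : s ∈ Bil y z) : eB (sw y z) s ∈ Bil y z := by
  induction hs using AddSubgroup.closure_induction with
  | mem r hr =>
    obtain ⟨a, b, c, ha, hb, hc, h | h⟩ := hr
    · refine AddSubgroup.subset_closure ⟨a, b, c, ha, hb, hc, Or.inr ?_⟩
      rw [h]
      simp only [map_mul, eB_o, X12a_swy, X12a_swz, sw_free ha, sw_free hb, sw_free hc]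
    · refine AddSubgroup.subset_closure ⟨a, b, c, ha, hb, hc, Or.inl ?_⟩
      rw [h]
      simp only [map_mul, eB_o, X12a_swy, X12a_swz, sw_free ha, sw_free hb, sw_free hc]
  | zero => rw [map_zero]; exact AddSubgroup.zero_mem _
  | add a b _ _ ha hb => rw [map_add]; exact AddSubgroup.add_mem _ ha hb
  | neg a _ ha => rw [map_neg]; exact AddSubgroup.neg_mem _ ha

private theorem X12a_cm {y j : ℕ} (hj : j ≠ y) (a : F) (h : rp y 1 a = a) : rp y 1 (rp j 1 a) = rp j 1 a := by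
  have e : (rp y 1).comp (rp j 1) = (rp j 1).comp (rp y 1) := by
    refine hom_ext fun i => ?_
    rw [MonoidHom.comp_apply, MonoidHom.comp_apply, rp_x, rp_x]
    by_cases h1 : i = j
    · rw [if_pos h1, map_one, if_neg (by rw [h1]; exact hj), rp_x, if_pos h1]
    · rw [if_neg h1, rp_x]
      by_cases h2 : i = y
      · rw [if_pos h2, map_one]
      · rw [if_neg h2, rp_x, if_neg h1]
  have h3 := congrArg (fun φ : F →* F => φ a) e
  simp only [MonoidHom.comp_apply] at h3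
  rw [h3, h]

private theorem X12a_cr {y : ℕ} {M : Finset ℕ} (hy : y ∈ M) (a : F) (h : rp y 1 a = a) : rp y 1 (ret M a) = ret M a := by
  have e : (rp y 1).comp (ret M) = (ret M).comp (rp y 1) := by
    refine hom_ext fun i => ?_
    rw [MonoidHom.comp_apply, MonoidHom.comp_apply, ret_x, rp_x]
    by_cases h1 : i = y
    · rw [if_pos h1, map_one, if_pos (by rw [h1]; exact hy), rp_x, if_pos h1]
    · rw [if_neg h1, ret_x]
      by_cases h2 : i ∈ M
      · rw [if_pos h2, rp_x, if_neg h1]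
      · rw [if_neg h2, map_one]
  have h3 := congrArg (fun φ : F →* F => φ a) e
  simp only [MonoidHom.comp_apply] at h3
  rw [h3, h]

/-- `Bil` is stable under endomorphisms which fix `x_y`, `x_z` and do not create them: here the killing of another letter and the retractions. -/
theorem Bil_kill {y z j : ℕ} (hj : j ≠ y) (hj' : j ≠ z) {s : FB} (hs : s ∈ Bil y z) : eB (rp j 1) s ∈ Bil y z := by
  have hF : ∀ {a : F}, Fr y z a → Fr y z (rp j 1 a) := fun h => ⟨X12a_cm hj _ h.1, X12a_cm hj' _ h.2⟩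
  have h1 : eB (rp j 1) (Xl y) = Xl y := eB_Xl_rp_ne 1 hj.symm
  have h2 : eB (rp j 1) (Xl z) = Xl z := eB_Xl_rp_ne 1 hj'.symm
  induction hs using AddSubgroup.closure_induction with
  | mem r hr =>
    obtain ⟨a, b, c, ha, hb, hc, h⟩ := hr
    refine AddSubgroup.subset_closure ⟨rp j 1 a, rp j 1 b, rp j 1 c, hF ha, hF hb, hF hc, ?_⟩
    rcases h with h | h
    · left
      rw [h]
      simp only [map_mul, eB_o, h1, h2]
    · right
      rw [h]
      simp only [map_mul, eB_o, h1, h2]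
  | zero => rw [map_zero]; exact AddSubgroup.zero_mem _
  | add a b _ _ ha hb => rw [map_add]; exact AddSubgroup.add_mem _ ha hb
  | neg a _ ha => rw [map_neg]; exact AddSubgroup.neg_mem _ ha

theorem Bil_ret {y z : ℕ} {M : Finset ℕ} (hy : y ∈ M) (hz : z ∈ M) {s : FB} (hs : s ∈ Bil y z) : eB (ret M) s ∈ Bil y z := by
  have hF : ∀ {a : F}, Fr y z a → Fr y z (ret M a) := fun h => ⟨X12a_cr hy _ h.1, X12a_cr hz _ h.2⟩
  have h1 : eB (ret M) (Xl y) = Xl y := by
    unfold Xl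
    rw [eB_C, ret_x, if_pos hy]
  have h2 : eB (ret M) (Xl z) = Xl z := by
    unfold Xl
    rw [eB_C, ret_x, if_pos hz]
  induction hs using AddSubgroup.closure_induction with
  | mem r hr =>
    obtain ⟨a, b, c, ha, hb, hc, h⟩ := hr
    refine AddSubgroup.subset_closure ⟨ret M a, ret M b, ret M c, hF ha, hF hb, hF hc, ?_⟩
    rcases h with h | h
    · left
      rw [h]
      simp only [map_mul, eB_o, h1, h2]
    · right
      rw [h]
      simp only [map_mul, eB_o, h1, h2]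
  | zero => rw [map_zero]; exact AddSubgroup.zero_mem _
  | add a b _ _ ha hb => rw [map_add]; exact AddSubgroup.add_mem _ ha hb
  | neg a _ ha => rw [map_neg]; exact AddSubgroup.neg_mem _ ha

private theorem X12a_e (a b c : FB) : a + c = (b + c) + (a + b) := by
  have h : (b + c) + (a + b) = a + c + (b + b) := by abel
  rw [h, fb_add_self, add_zero]

/-- the letters `y`, `z` are killed -/
private def X12a_f (y z : ℕ) (g : F) : F := rp y 1 (rp z 1 g)

private theorem X12a_rr (y : ℕ) (a : F) : rp y 1 (rp y 1 a) = rp y 1 a := by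
  have e : (rp y 1).comp (rp y 1) = rp y 1 := by
    refine hom_ext fun i => ?_
    rw [MonoidHom.comp_apply, rp_x]
    by_cases h1 : i = y
    · rw [if_pos h1, map_one]
    · rw [if_neg h1, rp_x, if_neg h1]
  have h3 := congrArg (fun φ : F →* F => φ a) e
  simp only [MonoidHom.comp_apply] at h3
  exact h3

private theorem X12a_fr {y z : ℕ} (hyz : y ≠ z) (g : F) : Fr y z (X12a_f y z g) :=
  ⟨X12a_rr y _, X12a_cm hyz (rp z 1 g) (X12a_rr z g)⟩

private theorem X12a_fox (y z : ℕ) (g : F) : o g + o (X12a_f y z g) ∈ I1 y ⊔ I1 z := by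
  have h1 := fox z g
  have h2 := fox y (rp z 1 g)
  have h3 : o g + o (X12a_f y z g) = (o (rp z 1 g) + o (rp y 1 (rp z 1 g))) + (o g + o (rp z 1 g)) :=
    X12a_e _ _ _
  rw [h3]
  exact AddSubgroup.mem_sup.2 ⟨_, h2, _, h1, rfl⟩

private theorem X12a_ml {y z : ℕ} {u r : FB} (hu : u ∈ I1 y ⊔ I1 z) (h1 : r ∈ I1 y) (h2 : r ∈ I1 z) :
    u * r ∈ I2 y ⊔ I2 z := by
  obtain ⟨a, ha, b, hb, rfl⟩ := AddSubgroup.mem_sup.1 hu
  rw [add_mul]
  exact AddSubgroup.mem_sup.2 ⟨_, mul_I1_I1 ha h1, _, mul_I1_I1 hb h2, rfl⟩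

private theorem X12a_mr {y z : ℕ} {u r : FB} (hu : u ∈ I1 y ⊔ I1 z) (h1 : r ∈ I1 y) (h2 : r ∈ I1 z) :
    r * u ∈ I2 y ⊔ I2 z := by
  obtain ⟨a, ha, b, hb, rfl⟩ := AddSubgroup.mem_sup.1 hu
  rw [mul_add]
  exact AddSubgroup.mem_sup.2 ⟨_, mul_I1_I1 h1 ha, _, mul_I1_I1 h2 hb, rfl⟩

private theorem X12a_X1 (j : ℕ) : Xl j ∈ I1 j := sub_idl rfl

private theorem X12a_Bil1 {y z : ℕ} {s : FB} (hs : s ∈ Bil y z) : s ∈ I1 y := by
  induction hs using AddSubgroup.closure_induction with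
  | mem r hr =>
    obtain ⟨a, b, c, ha, hb, hc, h | h⟩ := hr
    · rw [h]
      exact (I1_bi y).mul_right _ ((I1_bi y).mul_right _ ((I1_bi y).mul_right _ ((I1_bi y).mul_left _ (X12a_X1 y))))
    · rw [h]
      exact (I1_bi y).mul_right _ ((I1_bi y).mul_left _ (X12a_X1 y))
  | zero => exact AddSubgroup.zero_mem _
  | add a b _ _ ha hb => exact AddSubgroup.add_mem _ ha hb
  | neg a _ ha => exact AddSubgroup.neg_mem _ ha

private theorem X12a_Bil2 {y z : ℕ} {s : FB} (hs : s ∈ Bil y z) : s ∈ I1 z := by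
  induction hs using AddSubgroup.closure_induction with
  | mem r hr =>
    obtain ⟨a, b, c, ha, hb, hc, h | h⟩ := hr
    · rw [h]
      exact (I1_bi z).mul_right _ ((I1_bi z).mul_left _ (X12a_X1 z))
    · rw [h]
      exact (I1_bi z).mul_right _ ((I1_bi z).mul_right _ ((I1_bi z).mul_right _ ((I1_bi z).mul_left _ (X12a_X1 z))))
  | zero => exact AddSubgroup.zero_mem _
  | add a b _ _ ha hb => exact AddSubgroup.add_mem _ ha hb
  | neg a _ ha => exact AddSubgroup.neg_mem _ ha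

private theorem X12a_Frm {y z : ℕ} {a b : F} (ha : Fr y z a) (hb : Fr y z b) : Fr y z (a * b) :=
  ⟨by rw [map_mul, ha.1, hb.1], by rw [map_mul, ha.2, hb.2]⟩

private theorem X12a_Bl {y z : ℕ} {g : F} (hg : Fr y z g) {s : FB} (hs : s ∈ Bil y z) : o g * s ∈ Bil y z := by
  induction hs using AddSubgroup.closure_induction with
  | mem r hr =>
    obtain ⟨a, b, c, ha, hb, hc, h⟩ := hr
    refine AddSubgroup.subset_closure ⟨g * a, b, c, X12a_Frm hg ha, hb, hc, ?_⟩
    rcases h with h | h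
    · left
      rw [h, map_mul]
      simp only [mul_assoc]
    · right
      rw [h, map_mul]
      simp only [mul_assoc]
  | zero => rw [mul_zero]; exact AddSubgroup.zero_mem _
  | add a b _ _ ha hb => rw [mul_add]; exact AddSubgroup.add_mem _ ha hb
  | neg a _ ha => rw [mul_neg]; exact AddSubgroup.neg_mem _ ha

private theorem X12a_Br {y z : ℕ} {g : F} (hg : Fr y z g) {s : FB} (hs : s ∈ Bil y z) : s * o g ∈ Bil y z := by
  induction hs using AddSubgroup.closure_induction with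
  | mem r hr =>
    obtain ⟨a, b, c, ha, hb, hc, h⟩ := hr
    refine AddSubgroup.subset_closure ⟨a, b, c * g, ha, hb, X12a_Frm hc hg, ?_⟩
    rcases h with h | h
    · left
      rw [h, map_mul]
      simp only [mul_assoc]
    · right
      rw [h, map_mul]
      simp only [mul_assoc]
  | zero => rw [zero_mul]; exact AddSubgroup.zero_mem _
  | add a b _ _ ha hb => rw [add_mul]; exact AddSubgroup.add_mem _ ha hb
  | neg a _ ha => rw [neg_mul]; exact AddSubgroup.neg_mem _ ha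

/-- PROOF: `Xl y * o a * Xl z` with `a` general: mod `I2 y ⊔ I2 z` the letters `y`, `z` of the coefficients may be killed (`fox`). -/
theorem idl_Bil {y z : ℕ} (hyz : y ≠ z) {r : FB} (hr : r ∈ idl {Xl y * Xl z}) : r ∈ Bil y z ⊔ (I2 y ⊔ I2 z) := by
  induction hr using AddSubgroup.closure_induction with
  | mem r hr =>
    obtain ⟨a, b, s, hs, h⟩ := hr
    have hs' : s = Xl y * Xl z := hs
    rw [h, hs']
    have e1 : Xl y * Xl z ∈ I1 y := (I1_bi y).mul_right _ (X12a_X1 y)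
    have e2 : Xl y * Xl z ∈ I1 z := (I1_bi z).mul_left _ (X12a_X1 z)
    have h1 := X12a_ml (X12a_fox y z a) ((I1_bi y).mul_right (o b) e1) ((I1_bi z).mul_right (o b) e2)
    have h2 := X12a_mr (X12a_fox y z b) ((I1_bi y).mul_left (o (X12a_f y z a)) e1)
      ((I1_bi z).mul_left (o (X12a_f y z a)) e2)
    refine AddSubgroup.mem_sup.2 ⟨o (X12a_f y z a) * Xl y * o 1 * Xl z * o (X12a_f y z b),
      AddSubgroup.subset_closure ⟨_, _, _, X12a_fr hyz a, ⟨map_one _, map_one _⟩, X12a_fr hyz b, Or.inl rfl⟩, _,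
      AddSubgroup.add_mem _ h1 h2, ?_⟩
    have h4 := fb_add_self (o (X12a_f y z a) * (Xl y * Xl z) * o b)
    have h5 := fb_add_self (o (X12a_f y z a) * (Xl y * Xl z) * o (X12a_f y z b))
    rw [map_one, mul_one]
    rw [add_mul, mul_add]
    simp only [mul_assoc] at h4 h5 ⊢
    obtain ⟨p, hp⟩ : ∃ p, p = o (X12a_f y z a) * (Xl y * (Xl z * o b)) := ⟨_, rfl⟩
    obtain ⟨q, hq⟩ : ∃ q, q = o (X12a_f y z a) * (Xl y * (Xl z * o (X12a_f y z b))) := ⟨_, rfl⟩
    rw [← hp, ← hq]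
    rw [← hp] at h4
    rw [← hq] at h5
    obtain ⟨t, ht⟩ : ∃ t, t = o a * (Xl y * (Xl z * o b)) := ⟨_, rfl⟩
    rw [← ht]
    have h6 : q + (t + p + (p + q)) = t + (p + p) + (q + q) := by abel
    rw [h6, h4, h5, add_zero, add_zero]
  | zero => exact AddSubgroup.zero_mem _
  | add a b _ _ ha hb => exact AddSubgroup.add_mem _ ha hb
  | neg a _ ha => exact AddSubgroup.neg_mem _ ha

private theorem X12a_gen {y z j : ℕ} (hj : j ≠ y) (hj' : j ≠ z) {s : FB} : eB (rp j 1) (eB (sw y z) s) =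
    eB (sw y z) (eB (rp j 1) s) := by
  have e : (rp j 1).comp (sw y z) = (sw y z).comp (rp j 1) := ?_
  · rw [eB_comp, eB_comp, e]
  refine hom_ext fun i => ?_
  rw [MonoidHom.comp_apply, MonoidHom.comp_apply, rp_x, sw_x]
  by_cases h1 : i = y
  · rw [if_pos h1, rp_x, if_neg hj'.symm, if_neg (by rw [h1]; exact hj.symm), sw_x, if_pos h1]
  · rw [if_neg h1]
    by_cases h2 : i = z
    · rw [if_pos h2, rp_x, if_neg hj.symm, if_neg (by rw [h2]; exact hj'.symm), sw_x, if_neg h1, if_pos h2]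
    · rw [if_neg h2, rp_x]
      by_cases h3 : i = j
      · rw [if_pos h3, map_one]
      · rw [if_neg h3, sw_x, if_neg h1, if_neg h2]

private theorem X12a_le {P : AddSubgroup FB} {y z : ℕ} : I2 y ⊔ I2 z ≤ NN P y z := by
  unfold NN
  exact sup_le ((le_sup_right.trans le_sup_left).trans le_sup_left) (le_sup_right.trans le_sup_left)

private theorem X12a_Sw {y z : ℕ} {r : FB} (hr : r ∈ Sw y z) : ∃ s ∈ Bil y z, r = s + eB (sw y z) s := by
  induction hr using AddSubgroup.closure_induction with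
  | mem r hr => exact hr
  | zero => exact ⟨0, AddSubgroup.zero_mem _, by rw [map_zero, add_zero]⟩
  | add a b _ _ ha hb =>
    obtain ⟨s, hs, h1⟩ := ha
    obtain ⟨t, ht, h2⟩ := hb
    refine ⟨s + t, AddSubgroup.add_mem _ hs ht, ?_⟩
    rw [h1, h2, map_add]
    abel
  | neg a _ ha =>
    obtain ⟨s, hs, h1⟩ := ha
    exact ⟨s, hs, by rw [fb_neg]; exact h1⟩

/-- the other three parts of `VA` -/
private def X12a_R (P : AddSubgroup FB) (y z : ℕ) : AddSubgroup FB :=
  idl {r | ∃ g : F, r = tau y z g} ⊔ idl {Xl y * Xl z} ⊔ NN P y z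

private theorem X12a_R_bi {P : AddSubgroup FB} (hP : TI P) (y z : ℕ) : Bi (X12a_R P y z) :=
  ((idl_bi _).sup (idl_bi _)).sup (NN_bi hP y z)

private theorem X12a_R_le (P : AddSubgroup FB) (y z : ℕ) : X12a_R P y z ≤ VA P y z := by
  unfold X12a_R VA
  exact sup_le_sup (sup_le_sup le_sup_right le_rfl) le_rfl

private theorem X12a_VA {P : AddSubgroup FB} {y z : ℕ} {r : FB} (hr : r ∈ VA P y z) :
    ∃ s ∈ Bil y z, ∃ t ∈ X12a_R P y z, r = (s + eB (sw y z) s) + t := by
  unfold VA at hr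
  obtain ⟨r1, hr1, n, hn, h1⟩ := AddSubgroup.mem_sup.1 hr
  obtain ⟨r2, hr2, c, hc, h2⟩ := AddSubgroup.mem_sup.1 hr1
  obtain ⟨u, hu, t, ht, h3⟩ := AddSubgroup.mem_sup.1 hr2
  obtain ⟨s, hs, h4⟩ := X12a_Sw hu
  refine ⟨s, hs, t + c + n, ?_, ?_⟩
  · unfold X12a_R
    exact AddSubgroup.add_mem _ (AddSubgroup.mem_sup_left (AddSubgroup.add_mem _ (AddSubgroup.mem_sup_left ht)
      (AddSubgroup.mem_sup_right hc))) (AddSubgroup.mem_sup_right hn)
  · rw [← h1, ← h2, ← h3, h4]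
    abel

private theorem X12a_Sw_le (P : AddSubgroup FB) (y z : ℕ) : Sw y z ≤ VA P y z := by
  unfold VA
  exact (le_sup_left.trans le_sup_left).trans le_sup_left

private theorem X12a_I2_le (P : AddSubgroup FB) (y z : ℕ) : I2 y ⊔ I2 z ≤ VA P y z := by
  unfold VA
  exact X12a_le.trans le_sup_right

private theorem X12a_VA_bi {P : AddSubgroup FB} (hP : TI P) {y z : ℕ} (hyz : y ≠ z) : Bi (VA P y z) := by
  refine ⟨fun g r hr => ?_, fun g r hr => ?_⟩
  · obtain ⟨s, hs, t, ht, rfl⟩ := X12a_VA hr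
    rw [mul_add]
    refine AddSubgroup.add_mem _ ?_ (X12a_R_le P y z ((X12a_R_bi hP y z).left g t ht))
    have h1 : o g * (s + eB (sw y z) s) = (o g + o (X12a_f y z g)) * (s + eB (sw y z) s) +
        (o (X12a_f y z g) * s + eB (sw y z) (o (X12a_f y z g) * s)) := by
      rw [map_mul, eB_o, sw_free (X12a_fr hyz g), ← mul_add, add_mul, add_assoc, fb_add_self, add_zero]
    rw [h1]
    refine AddSubgroup.add_mem _ (X12a_I2_le P y z (X12a_ml (X12a_fox y z g)
      (AddSubgroup.add_mem _ (X12a_Bil1 hs) (X12a_Bil1 (Bil_sw hyz hs)))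
      (AddSubgroup.add_mem _ (X12a_Bil2 hs) (X12a_Bil2 (Bil_sw hyz hs))))) ?_
    exact X12a_Sw_le P y z (AddSubgroup.subset_closure ⟨_, X12a_Bl (X12a_fr hyz g) hs, rfl⟩)
  · obtain ⟨s, hs, t, ht, rfl⟩ := X12a_VA hr
    rw [add_mul]
    refine AddSubgroup.add_mem _ ?_ (X12a_R_le P y z ((X12a_R_bi hP y z).right g t ht))
    have h1 : (s + eB (sw y z) s) * o g = (s + eB (sw y z) s) * (o g + o (X12a_f y z g)) +
        (s * o (X12a_f y z g) + eB (sw y z) (s * o (X12a_f y z g))) := by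
      rw [map_mul, eB_o, sw_free (X12a_fr hyz g), ← add_mul, mul_add, add_assoc, fb_add_self, add_zero]
    rw [h1]
    refine AddSubgroup.add_mem _ (X12a_I2_le P y z (X12a_mr (X12a_fox y z g)
      (AddSubgroup.add_mem _ (X12a_Bil1 hs) (X12a_Bil1 (Bil_sw hyz hs)))
      (AddSubgroup.add_mem _ (X12a_Bil2 hs) (X12a_Bil2 (Bil_sw hyz hs))))) ?_
    exact X12a_Sw_le P y z (AddSubgroup.subset_closure ⟨_, X12a_Br (X12a_fr hyz g) hs, rfl⟩)

private theorem X12a_R_kill {P : AddSubgroup FB} (hP : TI P) {y z j : ℕ} (hj : j ≠ y) (hj' : j ≠ z) {r : FB}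
    (hr : r ∈ X12a_R P y z) : eB (rp j 1) r ∈ X12a_R P y z := by
  have hy : rp j 1 (x y) = x y := by rw [rp_x, if_neg hj.symm]
  have hz : rp j 1 (x z) = x z := by rw [rp_x, if_neg hj'.symm]
  have hY : eB (rp j 1) (Xl y) = Xl y := eB_Xl_rp_ne 1 hj.symm
  have hZ : eB (rp j 1) (Xl z) = Xl z := eB_Xl_rp_ne 1 hj'.symm
  unfold X12a_R at hr ⊢
  obtain ⟨r1, hr1, n, hn, rfl⟩ := AddSubgroup.mem_sup.1 hr
  obtain ⟨r2, hr2, c, hc, rfl⟩ := AddSubgroup.mem_sup.1 hr1
  rw [map_add, map_add]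
  refine AddSubgroup.add_mem _ (AddSubgroup.mem_sup_left (AddSubgroup.add_mem _ (AddSubgroup.mem_sup_left ?_)
      (AddSubgroup.mem_sup_right ?_))) (AddSubgroup.mem_sup_right ?_)
  · refine eB_idl (idl_bi _) _ (fun s hs => ?_) hr2
    obtain ⟨g, rfl⟩ := hs
    refine sub_idl ⟨rp j 1 g, ?_⟩
    unfold tau
    simp only [map_add, map_mul, eB_o, hY, hZ, map_inv]
  · refine eB_idl (idl_bi _) _ (fun s hs => ?_) hc
    have hs' : s = Xl y * Xl z := hs
    rw [hs', map_mul, hY, hZ]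
    exact sub_idl rfl
  · exact eB_NN hP (rp j 1) hy hz hn

/-- PROOF.  `bi`: all four parts of `VA` are closed under multiplication by `o g` MODULO `I2 y ⊔ I2 z ≤ NN`: for `Sw y z`: `o g * (s + σ s)`, `g` general: `o g ≡ o g₀` (`fox`) with `g₀` free of `y`, `z`, `o g₀ * s ∈ Bil`, `σ (o g₀ * s) = o g₀ * σ s`; the error
`(element of I1 y) * (element of Bil)` is in `I2 y`.  `kill`: `Bil_kill`, `eB_idl`, `eB_NN`.  `nat`: computation.  `one`: `Xl y * 1 * Xl z`.  `sql`, `sqr`, `sqi`, `com`, `sym`, `self`: `g1a`, `g1b`, `g1c`, `g2`, `g3`, `g3'`. -/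
theorem dhypA {P : AddSubgroup FB} (hP : Ids P) {L : Finset ℕ} {y z : ℕ} (hyz : y ≠ z) (hy : y ∉ L) (hz : z ∉ L) :
    DHyp (VA P y z) (fun v => Xl y * o v * Xl z) L := by
  have hV := X12a_VA_bi hP.ti (y := y) (z := z) hyz
  refine ⟨hV, fun j hj w hw => ?_, fun j hj v => ?_, ?_, ?_, ?_, ?_, ?_, ?_, ?_⟩
  · have hjy : j ≠ y := fun h => hy (h ▸ hj)
    have hjz : j ≠ z := fun h => hz (h ▸ hj)
    obtain ⟨s, hs, t, ht, rfl⟩ := X12a_VA hw
    rw [map_add, map_add, X12a_gen hjy hjz]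
    exact AddSubgroup.add_mem _ (X12a_Sw_le P y z (AddSubgroup.subset_closure ⟨_, Bil_kill hjy hjz hs, rfl⟩))
      (X12a_R_le P y z (X12a_R_kill hP.ti hjy hjz ht))
  · have hjy : j ≠ y := fun h => hy (h ▸ hj)
    have hjz : j ≠ z := fun h => hz (h ▸ hj)
    rw [map_mul, map_mul, eB_o, eB_Xl_rp_ne 1 hjy.symm, eB_Xl_rp_ne 1 hjz.symm]
  · rw [map_one, mul_one]
    unfold VA
    exact AddSubgroup.mem_sup_left (AddSubgroup.mem_sup_right (sub_idl rfl))
  · exact fun c v => hP.g1a y z hyz c v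
  · exact fun c v => hP.g1b y z hyz c v
  · intro c v
    have h1 := hP.g1c y z hyz c v
    have h2 : Xl y * o (v * c ^ 2) * Xl z + Xl y * o v * Xl z = Xl y * o v * C (c ^ 2) * Xl z := by
      unfold C
      rw [map_mul, mul_add, mul_one, add_mul]
      simp only [mul_assoc]
    exact h2 ▸ h1
  · exact fun g v => hP.g2 y z hyz g v
  · exact fun g v => hP.g3 y z hyz g v
  · exact fun g => hP.g3' y z hyz g

end E4.X
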