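import Pool.Agent.Lib.MP_8a95e3_al.X12a

/-!
# X12b : step A, ring part: decomposition
-/

noncomputable section

namespace E4.X

open E4

private theorem X12b_e (a b c : FB) : a + c = (b + c) + (a + b) := by
  have h : (b + c) + (a + b) = a + c + (b + b) := by abel
  rw [h, fb_add_self, add_zero]

private theorem X12b_z2 (ε : ZMod 2) : ε = 0 ∨ ε = 1 := by
  revert ε
  decide

private theorem X12b_sm {W : AddSubgroup FB} (ε : ZMod 2) {a : FB} (h : a ∈ W) : ε • a ∈ W := by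
  rcases X12b_z2 ε with h1 | h1
  · rw [h1, zero_smul]
    exact AddSubgroup.zero_mem _
  · rw [h1, one_smul]
    exact h

private theorem X12b_smap (φ : F →* F) (ε : ZMod 2) (a : FB) : eB φ (ε • a) = ε • eB φ a := by
  rcases X12b_z2 ε with h1 | h1
  · rw [h1, zero_smul, zero_smul, map_zero]
  · rw [h1, one_smul, one_smul]

/-- the letters `y`, `z` are killed -/
private def X12b_f (y z : ℕ) : F →* F := (rp y 1).comp (rp z 1)

private theorem X12b_fx (y z i : ℕ) : X12b_f y z (x i) = if i = z then 1 else if i = y then 1 else x i := by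
  unfold X12b_f
  rw [MonoidHom.comp_apply, rp_x]
  by_cases h1 : i = z
  · rw [if_pos h1, if_pos h1, map_one]
  · rw [if_neg h1, if_neg h1, rp_x]

private theorem X12b_ap {φ ψ : F →* F} (e : φ = ψ) (a : F) : φ a = ψ a := by rw [e]

private theorem X12b_fr {y z : ℕ} (g : F) : Fr y z (X12b_f y z g) := by
  have e1 : (rp y 1).comp (X12b_f y z) = X12b_f y z := by
    refine hom_ext fun i => ?_
    rw [MonoidHom.comp_apply, X12b_fx]
    by_cases h1 : i = z
    · rw [if_pos h1, map_one]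
    · rw [if_neg h1]
      by_cases h2 : i = y
      · rw [if_pos h2, map_one]
      · rw [if_neg h2, rp_x, if_neg h2]
  have e2 : (rp z 1).comp (X12b_f y z) = X12b_f y z := by
    refine hom_ext fun i => ?_
    rw [MonoidHom.comp_apply, X12b_fx]
    by_cases h1 : i = z
    · rw [if_pos h1, map_one]
    · rw [if_neg h1]
      by_cases h2 : i = y
      · rw [if_pos h2, map_one]
      · rw [if_neg h2, rp_x, if_neg h1]
  exact ⟨X12b_ap e1 g, X12b_ap e2 g⟩

private theorem X12b_fox (y z : ℕ) (g : F) : o g + o (X12b_f y z g) ∈ I1 y ⊔ I1 z := by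
  have h1 := fox z g
  have h2 := fox y (rp z 1 g)
  have h3 : o g + o (X12b_f y z g) = (o (rp z 1 g) + o (rp y 1 (rp z 1 g))) + (o g + o (rp z 1 g)) :=
    X12b_e _ _ _
  rw [h3]
  exact AddSubgroup.mem_sup.2 ⟨_, h2, _, h1, rfl⟩

private theorem X12b_X1 (j : ℕ) : Xl j ∈ I1 j := sub_idl rfl

/-- three coefficients may be changed -/
private theorem X12b_tri {y z : ℕ} {a b c a' b' c' : FB} (ha : a + a' ∈ I1 y ⊔ I1 z) (hb : b + b' ∈ I1 y ⊔ I1 z)
    (hc : c + c' ∈ I1 y ⊔ I1 z) : a * Xl y * b * Xl z * c + a' * Xl y * b' * Xl z * c' ∈ I2 y ⊔ I2 z := by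
  have h1 : (a + a') * Xl y * b * Xl z * c ∈ I2 y ⊔ I2 z := by
    obtain ⟨p, hp, q, hq, h⟩ := AddSubgroup.mem_sup.1 ha
    rw [← h, add_mul, add_mul, add_mul, add_mul]
    refine AddSubgroup.mem_sup.2 ⟨_, (I2_bi y).mul_right _ ((I2_bi y).mul_right _ ((I2_bi y).mul_right _
      (mul_I1_I1 hp (X12b_X1 y)))), _, (I2_bi z).mul_right _ (mul_I1_I1 ((I1_bi z).mul_right _ ((I1_bi z).mul_right _ hq))
      (X12b_X1 z)), rfl⟩
  have h2 : a' * Xl y * (b + b') * Xl z * c ∈ I2 y ⊔ I2 z := by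
    obtain ⟨p, hp, q, hq, h⟩ := AddSubgroup.mem_sup.1 hb
    rw [← h, mul_add, add_mul, add_mul]
    refine AddSubgroup.mem_sup.2 ⟨_, (I2_bi y).mul_right _ ((I2_bi y).mul_right _ (mul_I1_I1 ((I1_bi y).mul_left _
      (X12b_X1 y)) hp)), _, (I2_bi z).mul_right _ (mul_I1_I1 ((I1_bi z).mul_left _ hq) (X12b_X1 z)), rfl⟩
  have h3 : a' * Xl y * b' * Xl z * (c + c') ∈ I2 y ⊔ I2 z := by
    obtain ⟨p, hp, q, hq, h⟩ := AddSubgroup.mem_sup.1 hc
    rw [← h, mul_add]
    refine AddSubgroup.mem_sup.2 ⟨_, mul_I1_I1 ((I1_bi y).mul_right _ ((I1_bi y).mul_right _ ((I1_bi y).mul_left _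
      (X12b_X1 y)))) hp, _, mul_I1_I1 ((I1_bi z).mul_left _ (X12b_X1 z)) hq, rfl⟩
  have h4 : a * Xl y * b * Xl z * c + a' * Xl y * b' * Xl z * c' =
      (a + a') * Xl y * b * Xl z * c + a' * Xl y * (b + b') * Xl z * c + a' * Xl y * b' * Xl z * (c + c') := by
    have h5 := fb_add_self (a' * Xl y * b * Xl z * c)
    have h6 := fb_add_self (a' * Xl y * b' * Xl z * c)
    have h7 : (a + a') * Xl y * b * Xl z * c + a' * Xl y * (b + b') * Xl z * c + a' * Xl y * b' * Xl z * (c + c') =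
        a * Xl y * b * Xl z * c + a' * Xl y * b' * Xl z * c' + (a' * Xl y * b * Xl z * c + a' * Xl y * b * Xl z * c) +
        (a' * Xl y * b' * Xl z * c + a' * Xl y * b' * Xl z * c) := by
      simp only [add_mul, mul_add]
      abel
    rw [h7, h5, h6, add_zero, add_zero]
  rw [h4]
  exact AddSubgroup.add_mem _ (AddSubgroup.add_mem _ h1 h2) h3

private theorem X12b_p1 (y z : ℕ) (a b c : F) : o a * Xl y * o b * Xl z * o c +
    o (X12b_f y z a) * Xl y * o (X12b_f y z b) * Xl z * o (X12b_f y z c) ∈ I2 y ⊔ I2 z :=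
  X12b_tri (X12b_fox y z a) (X12b_fox y z b) (X12b_fox y z c)

private theorem X12b_p2 (y z : ℕ) (a b c : F) : o a * Xl z * o b * Xl y * o c +
    o (X12b_f y z a) * Xl z * o (X12b_f y z b) * Xl y * o (X12b_f y z c) ∈ I2 y ⊔ I2 z := by
  have h : ∀ g : F, o g + o (X12b_f y z g) ∈ I1 z ⊔ I1 y := fun g => by
    rw [sup_comm]
    exact X12b_fox y z g
  rw [sup_comm]
  exact X12b_tri (h a) (h b) (h c)

private theorem X12b_t4 (y z : ℕ) (u g v : F) : o u * tau y z g * o v =
    o u * Xl y * o 1 * Xl z * o (g * v) + o (u * g⁻¹) * Xl z * o 1 * Xl y * o v +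
    o (u * g⁻¹) * Xl y * o g * Xl z * o v + o u * Xl z * o g⁻¹ * Xl y * o (g * v) := by
  unfold tau
  rw [map_one, map_mul, map_mul]
  simp only [mul_one, mul_add, add_mul, mul_assoc]

private theorem X12b_pt (y z : ℕ) (u g v : F) : o u * tau y z g * o v +
    o (X12b_f y z u) * tau y z (X12b_f y z g) * o (X12b_f y z v) ∈ I2 y ⊔ I2 z := by
  have h1 := X12b_p1 y z u 1 (g * v)
  have h2 := X12b_p2 y z (u * g⁻¹) 1 v
  have h3 := X12b_p1 y z (u * g⁻¹) g v
  have h4 := X12b_p2 y z u g⁻¹ (g * v)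
  rw [X12b_t4, X12b_t4]
  simp only [map_mul (X12b_f y z), map_inv (X12b_f y z), map_one (X12b_f y z)] at h1 h2 h3 h4 ⊢
  have h5 := AddSubgroup.add_mem _ (AddSubgroup.add_mem _ (AddSubgroup.add_mem _ h1 h2) h3) h4
  refine (congrArg (fun r => r ∈ I2 y ⊔ I2 z) ?_).mp h5
  abel

private theorem X12b_py (y z : ℕ) (a b : F) : o a * (Xl y * Xl z) * o b +
    o (X12b_f y z a) * (Xl y * Xl z) * o (X12b_f y z b) ∈ I2 y ⊔ I2 z := by
  have h1 := X12b_p1 y z a 1 b
  simp only [map_one, mul_one, mul_assoc] at h1 ⊢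
  exact h1

/-- `QL` for subgroups of pairs -/
private theorem X12b_QP {G : AddSubgroup (FB × FB)} {L : Finset ℕ}
    (hG : ∀ U ⊆ L, ∀ q ∈ G, (eB (kls U) q.1, eB (kls U) q.2) ∈ G) {w k : FB} (h : (w, k) ∈ G) :
    (QL L w, QL L k) ∈ G := by
  have h1 : (QL L w, QL L k) = ∑ U ∈ L.powerset, ((eB (kls U) w, eB (kls U) k) : FB × FB) := by
    rw [QL_apply, QL_apply]
    refine Prod.ext ?_ ?_
    · rw [Prod.fst_sum]
    · rw [Prod.snd_sum]
  rw [h1]
  exact AddSubgroup.sum_mem _ fun U hU => hG U (Finset.mem_powerset.1 hU) (w, k) h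

private theorem X12b_klsx {y : ℕ} {U : Finset ℕ} (h : y ∉ U) : eB (kls U) (Xl y) = Xl y := by
  unfold Xl
  rw [eB_C, kls_x, if_neg h]

private theorem X12b_KPk {y z : ℕ} {U : Finset ℕ} (hy : y ∉ U) (hz : z ∉ U) (q : FB × FB) (h : q ∈ KP y z) :
    (eB (kls U) q.1, eB (kls U) q.2) ∈ KP y z := by
  induction h using AddSubgroup.closure_induction with
  | mem r hr =>
    obtain ⟨u, g, v, rfl⟩ := hr
    refine AddSubgroup.subset_closure ⟨kls U u, kls U g, kls U v, Prod.ext ?_ ?_⟩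
    · simp only [map_mul, eB_o, eB_T]
    · unfold tau
      simp only [map_mul, map_add, eB_o, X12b_klsx hy, X12b_klsx hz, map_inv]
  | zero =>
    have h1 : ((eB (kls U) (0 : FB × FB).1, eB (kls U) (0 : FB × FB).2) : FB × FB) = 0 := Prod.ext (map_zero _) (map_zero _)
    rw [h1]
    exact AddSubgroup.zero_mem _
  | add a b _ _ ha hb =>
    have h1 : ((eB (kls U) (a + b).1, eB (kls U) (a + b).2) : FB × FB) =
      (eB (kls U) a.1, eB (kls U) a.2) + (eB (kls U) b.1, eB (kls U) b.2) := Prod.ext (map_add _ _ _) (map_add _ _ _)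
    rw [h1]
    exact AddSubgroup.add_mem _ ha hb
  | neg a _ ha =>
    have h1 : ((eB (kls U) (-a).1, eB (kls U) (-a).2) : FB × FB) = -(eB (kls U) a.1, eB (kls U) a.2) :=
      Prod.ext (map_neg _ _) (map_neg _ _)
    rw [h1]
    exact AddSubgroup.neg_mem _ ha

private theorem X12b_cmk {y : ℕ} {U : Finset ℕ} (hy : y ∉ U) {a : F} (h : rp y 1 a = a) :
    rp y 1 (kls U a) = kls U a := by
  have e : (rp y 1).comp (kls U) = (kls U).comp (rp y 1) := by
    refine hom_ext fun i => ?_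
    rw [MonoidHom.comp_apply, MonoidHom.comp_apply, kls_x, rp_x]
    by_cases h1 : i = y
    · rw [if_pos h1, map_one, if_neg (by rw [h1]; exact hy), rp_x, if_pos h1]
    · rw [if_neg h1, kls_x]
      by_cases h2 : i ∈ U
      · rw [if_pos h2, map_one]
      · rw [if_neg h2, rp_x, if_neg h1]
  have h3 := X12b_ap e a
  rw [MonoidHom.comp_apply, MonoidHom.comp_apply, h] at h3
  exact h3

private theorem X12b_RPk {y z : ℕ} {U : Finset ℕ} (hy : y ∉ U) (hz : z ∉ U) (q : FB × FB) (h : q ∈ RP y z) :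
    (eB (kls U) q.1, eB (kls U) q.2) ∈ RP y z := by
  induction h using AddSubgroup.closure_induction with
  | mem r hr =>
    obtain ⟨u, v, hu, hv, rfl⟩ := hr
    refine AddSubgroup.subset_closure ⟨kls U u, kls U v, ⟨X12b_cmk hy hu.1, X12b_cmk hz hu.2⟩,
      ⟨X12b_cmk hy hv.1, X12b_cmk hz hv.2⟩, Prod.ext ?_ ?_⟩
    · simp only [map_mul, eB_o, X12b_klsx hy]
    · simp only [map_mul, eB_o, X12b_klsx hy, X12b_klsx hz]
  | zero =>
    have h1 : ((eB (kls U) (0 : FB × FB).1, eB (kls U) (0 : FB × FB).2) : FB × FB) = 0 := Prod.ext (map_zero _) (map_zero _)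
    rw [h1]
    exact AddSubgroup.zero_mem _
  | add a b _ _ ha hb =>
    have h1 : ((eB (kls U) (a + b).1, eB (kls U) (a + b).2) : FB × FB) =
      (eB (kls U) a.1, eB (kls U) a.2) + (eB (kls U) b.1, eB (kls U) b.2) := Prod.ext (map_add _ _ _) (map_add _ _ _)
    rw [h1]
    exact AddSubgroup.add_mem _ ha hb
  | neg a _ ha =>
    have h1 : ((eB (kls U) (-a).1, eB (kls U) (-a).2) : FB × FB) = -(eB (kls U) a.1, eB (kls U) a.2) :=
      Prod.ext (map_neg _ _) (map_neg _ _)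
    rw [h1]
    exact AddSubgroup.neg_mem _ ha

/-- for `k` in the ideal of the `tau` there is `w` -/
private theorem X12b_exw {y z : ℕ} {k : FB} (hk : k ∈ idl {r | ∃ g : F, r = tau y z g}) : ∃ w, (w, k) ∈ KP y z := by
  induction hk using AddSubgroup.closure_induction with
  | mem r hr =>
    obtain ⟨a, b, s, ⟨g, rfl⟩, rfl⟩ := hr
    exact ⟨o a * T g * o b, AddSubgroup.subset_closure ⟨a, g, b, rfl⟩⟩
  | zero => exact ⟨0, AddSubgroup.zero_mem _⟩
  | add a b _ _ ha hb =>
    obtain ⟨u, hu⟩ := ha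
    obtain ⟨v, hv⟩ := hb
    exact ⟨u + v, AddSubgroup.add_mem _ hu hv⟩
  | neg a _ ha =>
    obtain ⟨u, hu⟩ := ha
    exact ⟨-u, AddSubgroup.neg_mem _ hu⟩

private theorem X12b_K {y z : ℕ} {M : Finset ℕ} (hy : y ∈ M) (hz : z ∈ M) (q : FB × FB) (h : q ∈ KP y z) :
    ∃ k₁, (eB (X12b_f y z) (eB (ret M) q.1), k₁) ∈ KP y z ∧ eB (ret M) q.2 + k₁ ∈ I2 y ⊔ I2 z := by
  have hY : eB (ret M) (Xl y) = Xl y := by
    unfold Xl
    rw [eB_C, ret_x, if_pos hy]
  have hZ : eB (ret M) (Xl z) = Xl z := by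
    unfold Xl
    rw [eB_C, ret_x, if_pos hz]
  induction h using AddSubgroup.closure_induction with
  | mem r hr =>
    obtain ⟨u, g, v, rfl⟩ := hr
    refine ⟨o (X12b_f y z (ret M u)) * tau y z (X12b_f y z (ret M g)) * o (X12b_f y z (ret M v)),
      AddSubgroup.subset_closure ⟨_, _, _, Prod.ext ?_ rfl⟩, ?_⟩
    · simp only [map_mul, eB_o, eB_T]
    · have h1 := X12b_pt y z (ret M u) (ret M g) (ret M v)
      have h2 : eB (ret M) (o u * tau y z g * o v) = o (ret M u) * tau y z (ret M g) * o (ret M v) := by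
        unfold tau
        simp only [map_mul, map_add, eB_o, hY, hZ, map_inv]
      rw [← h2] at h1
      exact h1
  | zero =>
    refine ⟨0, ?_, ?_⟩
    · have h1 : ((eB (X12b_f y z) (eB (ret M) (0 : FB × FB).1), (0 : FB)) : FB × FB) = 0 :=
        Prod.ext (by show eB (X12b_f y z) (eB (ret M) 0) = 0; rw [map_zero, map_zero]) rfl
      rw [h1]
      exact AddSubgroup.zero_mem _
    · show eB (ret M) 0 + 0 ∈ _
      rw [map_zero, add_zero]
      exact AddSubgroup.zero_mem _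
  | add a b _ _ ha hb =>
    obtain ⟨k, hk, hk'⟩ := ha
    obtain ⟨l, hl, hl'⟩ := hb
    refine ⟨k + l, ?_, ?_⟩
    · have h1 : ((eB (X12b_f y z) (eB (ret M) (a + b).1), k + l) : FB × FB) =
          (eB (X12b_f y z) (eB (ret M) a.1), k) + (eB (X12b_f y z) (eB (ret M) b.1), l) :=
        Prod.ext (by show eB (X12b_f y z) (eB (ret M) (a.1 + b.1)) = _; rw [map_add, map_add]; rfl) rfl
      rw [h1]
      exact AddSubgroup.add_mem _ hk hl
    · have h1 : eB (ret M) (a + b).2 + (k + l) = (eB (ret M) a.2 + k) + (eB (ret M) b.2 + l) := by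
        show eB (ret M) (a.2 + b.2) + (k + l) = _
        rw [map_add]
        abel
      rw [h1]
      exact AddSubgroup.add_mem _ hk' hl'
  | neg a _ ha =>
    obtain ⟨k, hk, hk'⟩ := ha
    refine ⟨k, ?_, ?_⟩
    · have h1 : (-a).1 = a.1 := fb_neg _
      rw [h1]
      exact hk
    · have h1 : (-a).2 = a.2 := fb_neg _
      rw [h1]
      exact hk'

private theorem X12b_fret {y z : ℕ} {L N : Finset ℕ} (hN : L ⊆ N) (g : F) :
    ret N (X12b_f y z (ret (insert y (insert z L)) g)) = X12b_f y z (ret (insert y (insert z L)) g) := by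
  have e : (ret N).comp ((X12b_f y z).comp (ret (insert y (insert z L)))) =
      (X12b_f y z).comp (ret (insert y (insert z L))) := by
    refine hom_ext fun i => ?_
    rw [MonoidHom.comp_apply, MonoidHom.comp_apply, ret_x]
    by_cases h1 : i ∈ insert y (insert z L)
    · rw [if_pos h1, X12b_fx]
      by_cases h2 : i = z
      · rw [if_pos h2, map_one]
      · rw [if_neg h2]
        by_cases h3 : i = y
        · rw [if_pos h3, map_one]
        · rw [if_neg h3, ret_x, if_pos]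
          rcases Finset.mem_insert.1 h1 with h4 | h4
          · exact absurd h4 h3
          · rcases Finset.mem_insert.1 h4 with h5 | h5
            · exact absurd h5 h2
            · exact hN h5
    · rw [if_neg h1, map_one, map_one]
  exact X12b_ap e g

private theorem X12b_R {y z : ℕ} {L : Finset ℕ} {c : FB} (hc : c ∈ idl {Xl y * Xl z}) :
    ∃ t r, (t, r) ∈ RP y z ∧ eB (ret (insert y (insert z L))) c + r ∈ I2 y ⊔ I2 z ∧
      eB (ret (insert y L)) t = t ∧ eB (ret (insert y (insert z L))) r = r := by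
  have hy : y ∈ insert y (insert z L) := Finset.mem_insert_self _ _
  have hz : z ∈ insert y (insert z L) := Finset.mem_insert_of_mem (Finset.mem_insert_self _ _)
  have hY : ∀ {M : Finset ℕ} {i : ℕ}, i ∈ M → eB (ret M) (Xl i) = Xl i := fun h => by
    unfold Xl
    rw [eB_C, ret_x, if_pos h]
  induction hc using AddSubgroup.closure_induction with
  | mem r hr =>
    obtain ⟨a, b, s, hs, rfl⟩ := hr
    have hs' : s = Xl y * Xl z := hs
    refine ⟨o (X12b_f y z (ret (insert y (insert z L)) a)) * Xl y * o (X12b_f y z (ret (insert y (insert z L)) b)),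
      o (X12b_f y z (ret (insert y (insert z L)) a)) * (Xl y * Xl z) * o (X12b_f y z (ret (insert y (insert z L)) b)),
      AddSubgroup.subset_closure ⟨_, _, X12b_fr _, X12b_fr _, rfl⟩, ?_, ?_, ?_⟩
    · have h1 := X12b_py y z (ret (insert y (insert z L)) a) (ret (insert y (insert z L)) b)
      rw [hs']
      have h2 : eB (ret (insert y (insert z L))) (o a * (Xl y * Xl z) * o b) =
          o (ret (insert y (insert z L)) a) * (Xl y * Xl z) * o (ret (insert y (insert z L)) b) := by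
        simp only [map_mul, eB_o, hY hy, hY hz]
      rw [h2]
      exact h1
    · rw [map_mul, map_mul, eB_o, eB_o, hY (Finset.mem_insert_self _ _), X12b_fret (Finset.subset_insert _ _),
        X12b_fret (Finset.subset_insert _ _)]
    · have h3 : L ⊆ insert y (insert z L) := (Finset.subset_insert _ _).trans (Finset.subset_insert _ _)
      rw [map_mul, map_mul, map_mul, eB_o, eB_o, hY hy, hY hz, X12b_fret h3, X12b_fret h3]
  | zero =>
    refine ⟨0, 0, AddSubgroup.zero_mem _, ?_, map_zero _, map_zero _⟩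
    rw [map_zero, add_zero]
    exact AddSubgroup.zero_mem _
  | add a b _ _ ha hb =>
    obtain ⟨t, r, h1, h2, h3, h4⟩ := ha
    obtain ⟨t', r', h1', h2', h3', h4'⟩ := hb
    refine ⟨t + t', r + r', AddSubgroup.add_mem _ h1 h1', ?_, by rw [map_add, h3, h3'], by rw [map_add, h4, h4']⟩
    have h5 : eB (ret (insert y (insert z L))) (a + b) + (r + r') =
        (eB (ret (insert y (insert z L))) a + r) + (eB (ret (insert y (insert z L))) b + r') := by
      rw [map_add]
      abel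
    rw [h5]
    exact AddSubgroup.add_mem _ h2 h2'
  | neg a _ ha =>
    rw [fb_neg]
    exact ha

private theorem X12b_RP1 {y z : ℕ} (q : FB × FB) (h : q ∈ RP y z) : q.1 ∈ I1 y := by
  induction h using AddSubgroup.closure_induction with
  | mem r hr =>
    obtain ⟨u, v, hu, hv, rfl⟩ := hr
    exact (I1_bi y).mul_right _ ((I1_bi y).mul_left _ (X12b_X1 y))
  | zero => exact AddSubgroup.zero_mem _
  | add a b _ _ ha hb => exact AddSubgroup.add_mem _ ha hb
  | neg a _ ha => exact AddSubgroup.neg_mem _ ha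

private theorem X12b_Sw {y z : ℕ} {r : FB} (hr : r ∈ Sw y z) : ∃ s ∈ Bil y z, r = s + eB (sw y z) s := by
  induction hr using AddSubgroup.closure_induction with
  | mem r hr => exact hr
  | zero => exact ⟨0, AddSubgroup.zero_mem _, by rw [map_zero, add_zero]⟩
  | add a b _ _ ha hb =>
    obtain ⟨s, hs, h1⟩ := ha
    obtain ⟨t, ht, h2⟩ := hb
    refine ⟨s + t, AddSubgroup.add_mem _ hs ht, ?_⟩
    rw [h1, h2, map_add]
    abel
  | neg a _ ha =>
    obtain ⟨s, hs, h1⟩ := ha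
    exact ⟨s, hs, by rw [fb_neg]; exact h1⟩

private theorem X12b_swret {y z : ℕ} {M : Finset ℕ} (hy : y ∈ M) (hz : z ∈ M) (s : FB) :
    eB (ret M) (eB (sw y z) s) = eB (sw y z) (eB (ret M) s) := by
  have e : (ret M).comp (sw y z) = (sw y z).comp (ret M) := by
    refine hom_ext fun i => ?_
    rw [MonoidHom.comp_apply, MonoidHom.comp_apply, ret_x, sw_x]
    by_cases h1 : i = y
    · rw [if_pos h1, ret_x, if_pos hz, if_pos (by rw [h1]; exact hy), sw_x, if_pos h1]
    · rw [if_neg h1]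
      by_cases h2 : i = z
      · rw [if_pos h2, ret_x, if_pos hy, if_pos (by rw [h2]; exact hz), sw_x, if_neg h1, if_pos h2]
      · rw [if_neg h2, ret_x]
        by_cases h3 : i ∈ M
        · rw [if_pos h3, sw_x, if_neg h1, if_neg h2]
        · rw [if_neg h3, map_one]
  rw [eB_comp, eB_comp, e]

private theorem X12b_swrp {y z j : ℕ} (hj : j ≠ y) (hj' : j ≠ z) : (rp j 1).comp (sw y z) = (sw y z).comp (rp j 1) := by
  refine hom_ext fun i => ?_
  rw [MonoidHom.comp_apply, MonoidHom.comp_apply, rp_x, sw_x]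
  by_cases h1 : i = y
  · rw [if_pos h1, rp_x, if_neg hj'.symm, if_neg (by rw [h1]; exact hj.symm), sw_x, if_pos h1]
  · rw [if_neg h1]
    by_cases h2 : i = z
    · rw [if_pos h2, rp_x, if_neg hj.symm, if_neg (by rw [h2]; exact hj'.symm), sw_x, if_neg h1, if_pos h2]
    · rw [if_neg h2, rp_x]
      by_cases h3 : i = j
      · rw [if_pos h3, map_one]
      · rw [if_neg h3, sw_x, if_neg h1, if_neg h2]

private theorem X12b_rpI2 {y j : ℕ} (hj : j ≠ y) {w : FB} (hw : w ∈ I2 y) : eB (rp j 1) w ∈ I2 y :=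
  eB_I2 _ (by rw [rp_x, if_neg hj.symm]) hw

/-- decomposition of an element of `VA` with full parts.  PROOF.  `f = (s + σ s) + k + r + n` with `s ∈ Bil` (`Sw` is `{s + σ s}`: closure of a subgroup), `k ∈ idl {tau}`: there is `w` with `(w, k) ∈ KP y z` (second components), `r ∈ idl {Xl y * Xl z}`,
`n ∈ NN`.  Apply `eB (ret (insert y (insert z L)))` and `QL L` to everything.  `r` is then `≡` the second component of `(t, r') ∈ RP y z` mod `I2 y ⊔ I2 z` (kill `y`, `z` in the coefficients); `t` full on `insert y L` after `ret`, `QL L`.  For `w`: kill `y` and `z` in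
`u, g, v` (`k` changes by an element of `I2 y ⊔ I2 z`: `fox`, every term of `tau y z g` contains `Y` and `Z`), then `w` is a function of `L`, and `QL L`. -/
theorem va_dec {P : AddSubgroup FB} (hP : Ids P) {L : Finset ℕ} {y z : ℕ} (hyz : y ≠ z) (hy : y ∉ L) (hz : z ∉ L) {f : FB}
    (hf : f ∈ VA P y z) (hk : ∀ j ∈ L, eB (rp j 1) f = 0) (hr : eB (ret (insert y (insert z L))) f = f) :
    ∃ s w k t r : FB, s ∈ Bil y z ∧ (∀ j ∈ L, eB (rp j 1) s = 0) ∧ eB (ret (insert y (insert z L))) s = s ∧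
      (w, k) ∈ KP y z ∧ Full L w ∧ (t, r) ∈ RP y z ∧ Full (insert y L) t ∧ (∀ j ∈ L, eB (rp j 1) r = 0) ∧
      eB (ret (insert y (insert z L))) r = r ∧ f + (s + eB (sw y z) s) + k + r ∈ NN P y z := by
  obtain ⟨M, hM⟩ : ∃ M, M = insert y (insert z L) := ⟨_, rfl⟩
  have hyM : y ∈ M := by rw [hM]; exact Finset.mem_insert_self _ _
  have hzM : z ∈ M := by rw [hM]; exact Finset.mem_insert_of_mem (Finset.mem_insert_self _ _)
  have hjy : ∀ j ∈ L, j ≠ y := fun j hj h => hy (h ▸ hj)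
  have hjz : ∀ j ∈ L, j ≠ z := fun j hj h => hz (h ▸ hj)
  have hretM : ∀ a : FB, eB (ret M) (eB (ret M) a) = eB (ret M) a := fun a => by
    rw [eB_comp, ret_ret, Finset.inter_self]
  unfold VA at hf
  obtain ⟨r1, hr1, n, hn, e1⟩ := AddSubgroup.mem_sup.1 hf
  obtain ⟨r2, hr2, c, hc, e2⟩ := AddSubgroup.mem_sup.1 hr1
  obtain ⟨u, hu, k0, hk0, e3⟩ := AddSubgroup.mem_sup.1 hr2
  obtain ⟨s0, hs0, e4⟩ := X12b_Sw hu
  obtain ⟨w0, hw0⟩ := X12b_exw hk0
  obtain ⟨k1, hk1, hk1'⟩ := X12b_K hyM hzM (w0, k0) hw0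
  obtain ⟨t1, c1, htc, hc1, ht1, hc1'⟩ := X12b_R (L := L) hc
  rw [← hM] at hc1 hc1'
  have hU : ∀ U ⊆ L, y ∉ U ∧ z ∉ U := fun U hU => ⟨fun h => hy (hU h), fun h => hz (hU h)⟩
  have hN2 : ∀ w ∈ I2 y ⊔ I2 z, QL L w ∈ I2 y ⊔ I2 z := fun w hw => by
    refine QL_mem (fun j hj w hw => ?_) hw
    obtain ⟨a, ha, b, hb, rfl⟩ := AddSubgroup.mem_sup.1 hw
    rw [map_add]
    exact AddSubgroup.mem_sup.2 ⟨_, X12b_rpI2 (hjy j hj) ha, _, X12b_rpI2 (hjz j hj) hb, rfl⟩
  have hle : I2 y ⊔ I2 z ≤ NN P y z := by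
    unfold NN
    exact sup_le ((le_sup_right.trans le_sup_left).trans le_sup_left) (le_sup_right.trans le_sup_left)
  have hRP : (QL L t1, QL L c1) ∈ RP y z := X12b_QP (fun U hU' q hq => X12b_RPk (hU U hU').1 (hU U hU').2 q hq) htc
  refine ⟨QL L (eB (ret M) s0), QL L (eB (X12b_f y z) (eB (ret M) w0)), QL L k1, QL L t1, QL L c1,
    QL_mem (fun j hj w hw => Bil_kill (hjy j hj) (hjz j hj) hw) (Bil_ret hyM hzM hs0),
    fun j hj => QL_kill hj _, ?_,
    X12b_QP (fun U hU' q hq => X12b_KPk (hU U hU').1 (hU U hU').2 q hq) hk1,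
    ⟨fun j hj => QL_kill hj _, ?_⟩, hRP, ⟨fun j hj => ?_, QL_ret ht1⟩, fun j hj => QL_kill hj _, ?_, ?_⟩
  · rw [← hM]
    exact QL_ret (hretM s0)
  · refine QL_ret ?_
    have e : (ret L).comp ((X12b_f y z).comp (ret M)) = (X12b_f y z).comp (ret M) := by
      refine MonoidHom.ext fun g => ?_
      rw [hM]
      exact X12b_fret (Finset.Subset.refl L) g
    rw [eB_comp (X12b_f y z) (ret M), eB_comp (ret L), e]
  · rcases Finset.mem_insert.1 hj with h | h
    · rw [h]
      exact (mem_I1_iff y _).1 (X12b_RP1 _ hRP)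
    · exact QL_kill h _
  · rw [← hM]
    exact QL_ret hc1'
  · have hQ : QL L (eB (ret M) f) = f := by
      rw [hM, hr]
      exact QL_eq hk
    have h1 : QL L (eB (ret M) (eB (sw y z) s0)) = eB (sw y z) (QL L (eB (ret M) s0)) := by
      rw [X12b_swret hyM hzM, QL_comm (sw y z) (fun j hj => X12b_swrp (hjy j hj) (hjz j hj))]
    have h2 : f = QL L (eB (ret M) s0) + eB (sw y z) (QL L (eB (ret M) s0)) + QL L (eB (ret M) k0) +
        QL L (eB (ret M) c) + QL L (eB (ret M) n) := by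
      conv_lhs => rw [← hQ, ← e1, ← e2, ← e3, e4]
      simp only [map_add]
      rw [h1]
    have h3 : QL L (eB (ret M) n) ∈ NN P y z := by
      refine QL_mem (fun j hj w hw => ?_) (eB_NN hP.ti (ret M) ?_ ?_ hn)
      · exact eB_NN hP.ti (rp j 1) (by rw [rp_x, if_neg (hjy j hj).symm]) (by rw [rp_x, if_neg (hjz j hj).symm]) hw
      · rw [ret_x, if_pos hyM]
      · rw [ret_x, if_pos hzM]
    have h4 : QL L (eB (ret M) k0 + k1) ∈ NN P y z := hle (hN2 _ hk1')
    have h5 : QL L (eB (ret M) c + c1) ∈ NN P y z := hle (hN2 _ hc1)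
    rw [map_add] at h4 h5
    have h6 := AddSubgroup.add_mem _ (AddSubgroup.add_mem _ h3 h4) h5
    obtain ⟨S, hS⟩ : ∃ S, S = QL L (eB (ret M) s0) + eB (sw y z) (QL L (eB (ret M) s0)) := ⟨_, rfl⟩
    have h7 : f + S + QL L k1 + QL L c1 = QL L (eB (ret M) n) + (QL L (eB (ret M) k0) + QL L k1) +
        (QL L (eB (ret M) c) + QL L c1) + (S + S) := by
      conv_lhs => rw [h2, ← hS]
      abel
    rw [← hS, h7, fb_add_self, add_zero]
    exact h6

/-- **Decomposition of a bilinear function.**  PROOF.  `spB` / `spB'` (hypothesis `h`), `DHyp.main` (`main0`), `Dh_XP`, `XP (L.erase m) * (Xl y * o (x m) * Xl z)` and `XP (L.erase m) * (Xl y * Xl m * Xl z)` differ by `XP (L.erase m) * (Xl y * Xl z) ∈ idl {Xl y * Xl z} ≤ VA P y z`; `va_dec` for `f + ε₁ … + ε₂ …` (with `Xl m`). -/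
theorem decA {P : AddSubgroup FB} (hP : Ids P) {L : Finset ℕ} {y z m : ℕ} (hyz : y ≠ z) (hy : y ∉ L) (hz : z ∉ L)
    (hm : L.Nonempty → m ∈ L) {f : FB} (h : f ∈ SA L y z ⊔ Sw y z ⊔ (I2 y ⊔ I2 z))
    (hk : ∀ j ∈ L, eB (rp j 1) f = 0) (hr : eB (ret (insert y (insert z L))) f = f) :
    ∃ s w k t r : FB, ∃ ε₁ ε₂ : ZMod 2, s ∈ Bil y z ∧ (∀ j ∈ L, eB (rp j 1) s = 0) ∧ eB (ret (insert y (insert z L))) s = s ∧
      (w, k) ∈ KP y z ∧ Full L w ∧ (t, r) ∈ RP y z ∧ Full (insert y L) t ∧ (∀ j ∈ L, eB (rp j 1) r = 0) ∧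
      eB (ret (insert y (insert z L))) r = r ∧ (L.card ≤ 1 → ε₂ = 0) ∧ (L = ∅ → ε₁ = 0) ∧
      f + (s + eB (sw y z) s) + k + r + ε₁ • (Xl y * XP L * Xl z) + ε₂ • (XP (L.erase m) * (Xl y * Xl m * Xl z)) ∈ NN P y z := by
  have hD := dhypA hP hyz hy hz
  have hjy : ∀ j ∈ L, j ≠ y := fun j hj h => hy (h ▸ hj)
  have hjz : ∀ j ∈ L, j ≠ z := fun j hj h => hz (h ▸ hj)
  have hle1 : Sw y z ≤ VA P y z := by
    unfold VA
    exact (le_sup_left.trans le_sup_left).trans le_sup_left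
  have hle2 : I2 y ⊔ I2 z ≤ VA P y z := by
    unfold VA NN
    exact (sup_le ((le_sup_right.trans le_sup_left).trans le_sup_left) (le_sup_right.trans le_sup_left)).trans le_sup_right
  have hle3 : SA L y z ⊔ Sw y z ⊔ (I2 y ⊔ I2 z) ≤ SA L y z ⊔ VA P y z :=
    sup_le (sup_le le_sup_left (hle1.trans le_sup_right)) (hle2.trans le_sup_right)
  have hf := hle3 h
  rcases L.eq_empty_or_nonempty with hL | hL
  · have h1 : f ∈ VA P y z := by
      subst hL
      exact hD.main0 hf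
    obtain ⟨s, w, k, t, r, a1, a2, a3, a4, a5, a6, a7, a8, a9, a10⟩ := va_dec hP hyz hy hz h1 hk hr
    refine ⟨s, w, k, t, r, 0, 0, a1, a2, a3, a4, a5, a6, a7, a8, a9, fun _ => rfl, fun _ => rfl, ?_⟩
    rw [zero_smul, zero_smul, add_zero, add_zero]
    exact a10
  · have hm' := hm hL
    obtain ⟨ε₁, ε₂, hε, h1⟩ := hD.main hm' hf (fun j hj => by rw [hk j hj]; exact AddSubgroup.zero_mem _)
    rw [Dh_XP] at h1
    have h2 : XP (L.erase m) * (Xl y * o (x m) * Xl z) =
        XP (L.erase m) * (Xl y * Xl m * Xl z) + XP (L.erase m) * (Xl y * Xl z) := by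
      have h3 : Xl m = o (x m) + 1 := rfl
      have h4 : XP (L.erase m) * (Xl y * (o (x m) + 1) * Xl z) + XP (L.erase m) * (Xl y * Xl z) =
          XP (L.erase m) * (Xl y * o (x m) * Xl z) + (XP (L.erase m) * (Xl y * Xl z) + XP (L.erase m) * (Xl y * Xl z)) := by
        simp only [mul_add, add_mul, mul_one]
        abel
      rw [h3, h4, fb_add_self, add_zero]
    obtain ⟨f', hf'⟩ : ∃ f', f' = f + ε₁ • (Xl y * XP L * Xl z) + ε₂ • (XP (L.erase m) * (Xl y * Xl m * Xl z)) := ⟨_, rfl⟩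
    have hVA : f' ∈ VA P y z := by
      have h3 : ε₂ • (XP (L.erase m) * (Xl y * Xl z)) ∈ VA P y z := by
        refine X12b_sm ε₂ ?_
        unfold VA
        exact AddSubgroup.mem_sup_left (AddSubgroup.mem_sup_right ((idl_bi _).mul_left _ (sub_idl rfl)))
      have h4 : f' = (f + ε₁ • (Xl y * XP L * Xl z) + ε₂ • (XP (L.erase m) * (Xl y * o (x m) * Xl z))) +
          ε₂ • (XP (L.erase m) * (Xl y * Xl z)) := by
        rw [hf', h2, smul_add]
        have h5 := fb_add_self (ε₂ • (XP (L.erase m) * (Xl y * Xl z)))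
        have h6 : f + ε₁ • (Xl y * XP L * Xl z) +
            (ε₂ • (XP (L.erase m) * (Xl y * Xl m * Xl z)) + ε₂ • (XP (L.erase m) * (Xl y * Xl z))) +
            ε₂ • (XP (L.erase m) * (Xl y * Xl z)) = f + ε₁ • (Xl y * XP L * Xl z) +
            ε₂ • (XP (L.erase m) * (Xl y * Xl m * Xl z)) +
            (ε₂ • (XP (L.erase m) * (Xl y * Xl z)) + ε₂ • (XP (L.erase m) * (Xl y * Xl z))) := by abel
        rw [h6, h5, add_zero]
      rw [h4]
      exact AddSubgroup.add_mem _ h1 h3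
    have hk' : ∀ j ∈ L, eB (rp j 1) f' = 0 := by
      intro j hj
      rw [hf', map_add, map_add, hk j hj, X12b_smap, X12b_smap, map_mul, map_mul, XP_kill hj, mul_zero, zero_mul,
        smul_zero, add_zero, zero_add]
      by_cases h3 : j = m
      · have h4 : eB (rp j 1) (Xl m) = 0 := by
          rw [h3, eB_Xl_rp_self, C_one]
        rw [map_mul, map_mul, map_mul, h4, mul_zero, zero_mul, mul_zero, smul_zero]
      · rw [map_mul, XP_kill (Finset.mem_erase.2 ⟨h3, hj⟩), zero_mul, smul_zero]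
    have hX : ∀ {M : Finset ℕ} {i : ℕ}, i ∈ M → eB (ret M) (Xl i) = Xl i := fun h => by
      unfold Xl
      rw [eB_C, ret_x, if_pos h]
    have hr' : eB (ret (insert y (insert z L))) f' = f' := by
      have h3 : L ⊆ insert y (insert z L) := (Finset.subset_insert _ _).trans (Finset.subset_insert _ _)
      have h4 : L.erase m ⊆ insert y (insert z L) := (Finset.erase_subset _ _).trans h3
      rw [hf', map_add, map_add, hr, X12b_smap, X12b_smap, map_mul, map_mul, map_mul, map_mul, map_mul, XP_ret h3,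
        XP_ret h4, hX (Finset.mem_insert_self _ _), hX (Finset.mem_insert_of_mem (Finset.mem_insert_self _ _)),
        hX (h3 hm')]
    obtain ⟨s, w, k, t, r, a1, a2, a3, a4, a5, a6, a7, a8, a9, a10⟩ := va_dec hP hyz hy hz hVA hk' hr'
    refine ⟨s, w, k, t, r, ε₁, ε₂, a1, a2, a3, a4, a5, a6, a7, a8, a9, hε, fun h3 => absurd h3 hL.ne_empty, ?_⟩
    have h3 : f + (s + eB (sw y z) s) + k + r + ε₁ • (Xl y * XP L * Xl z) +
        ε₂ • (XP (L.erase m) * (Xl y * Xl m * Xl z)) = f' + (s + eB (sw y z) s) + k + r := by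
      rw [hf']
      abel
    rw [h3]
    exact a10

end E4.X
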