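import Pool.Agent.Lib.MP_8a95e3_al.X12c

/-!
# X12d : step A, ring part: the bracket
-/

noncomputable section

namespace E4.X

open E4

private theorem X12d_ins (A B X : FB) : A + B = (A + X) + (X + B) := by
  rw [add_assoc, ← add_assoc X X B, fb_add_self, zero_add]

private theorem X12d_sw_Xl (y z i : ℕ) : eB (sw y z) (Xl i) = if i = y then Xl z else if i = z then Xl y else Xl i := by
  unfold Xl
  rw [eB_C, sw_x]
  by_cases h : i = y
  · rw [if_pos h, if_pos h]
  · rw [if_neg h, if_neg h]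
    by_cases h' : i = z
    · rw [if_pos h', if_pos h']
    · rw [if_neg h', if_neg h']

/-- the symmetrised element `ε₂`.  PROOF.  `|L| ≥ 2`: `XP (L.erase m) = a * Xl i` (`XP_last`), `Xl y * Xl m * Xl z + Xl z * Xl m * Xl y` with `Xl m = C (x m)`, `g4`, `Bi`. -/
theorem e2_sw {P : AddSubgroup FB} (hP : Ids P) {L : Finset ℕ} {y z m : ℕ} (hyz : y ≠ z) (hy : y ∉ L) (hz : z ∉ L) (hm : m ∈ L) (hc : 2 ≤ L.card) :
    XP (L.erase m) * (Xl y * Xl m * Xl z) + eB (sw y z) (XP (L.erase m) * (Xl y * Xl m * Xl z)) ∈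
      idl {Xl y * Xl z + Xl z * Xl y} ⊔ NN P y z := by
  have hW : Bi (idl {Xl y * Xl z + Xl z * Xl y} ⊔ NN P y z) := (idl_bi _).sup (NN_bi hP.ti y z)
  have hm1 : m ≠ y := fun h => hy (h ▸ hm)
  have hm2 : m ≠ z := fun h => hz (h ▸ hm)
  have e1 : eB (sw y z) (Xl y) = Xl z := by rw [X12d_sw_Xl, if_pos rfl]
  have e2 : eB (sw y z) (Xl z) = Xl y := by rw [X12d_sw_Xl, if_neg (Ne.symm hyz), if_pos rfl]
  have e3 : eB (sw y z) (Xl m) = Xl m := by rw [X12d_sw_Xl, if_neg hm1, if_neg hm2]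
  have e4 : eB (sw y z) (XP (L.erase m)) = XP (L.erase m) := by
    refine XP_fix _ fun j hj => ?_
    have hjL : j ∈ L := Finset.mem_of_mem_erase hj
    rw [sw_x, if_neg (fun h : j = y => hy (h ▸ hjL)), if_neg (fun h : j = z => hz (h ▸ hjL))]
  have hne : (L.erase m).Nonempty := by
    rw [← Finset.card_pos, Finset.card_erase_of_mem hm]
    omega
  obtain ⟨i, a, hi, ha⟩ := XP_last hne
  have e5 : XP (L.erase m) * (Xl y * Xl m * Xl z) + eB (sw y z) (XP (L.erase m) * (Xl y * Xl m * Xl z)) =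
      a * (C (x i) * (Xl y * C (x m) * Xl z + Xl z * C (x m) * Xl y)) := by
    rw [map_mul, map_mul, map_mul, e1, e2, e3, e4, ← mul_add, ha, mul_assoc]
    rfl
  rw [e5]
  exact hW.mul_left a (hP.g4 y z hyz (x i) (x m))

/-- the coefficient with the letters `y`, `z` killed -/
private def X12d_k (y z : ℕ) (a : F) : F := rp y 1 (rp z 1 a)

private theorem X12d_Fr {y z : ℕ} (a : F) : Fr y z (X12d_k y z a) := by
  have h1 : (rp y 1).comp ((rp y 1).comp (rp z 1)) = (rp y 1).comp (rp z 1) := by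
    refine hom_ext fun i => ?_
    simp only [MonoidHom.comp_apply, rp_x]
    by_cases h : i = z
    · simp [h]
    · by_cases h' : i = y
      · have h3 : y ≠ z := fun e => h (h'.trans e)
        simp [h', h3]
      · simp [h, h']
  have h2 : (rp z 1).comp ((rp y 1).comp (rp z 1)) = (rp y 1).comp (rp z 1) := by
    refine hom_ext fun i => ?_
    simp only [MonoidHom.comp_apply, rp_x]
    by_cases h : i = z
    · simp [h]
    · by_cases h' : i = y
      · have h3 : y ≠ z := fun e => h (h'.trans e)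
        simp [h', h3]
      · simp [h, h']
  exact ⟨DFunLike.congr_fun h1 a, DFunLike.congr_fun h2 a⟩

private theorem X12d_cl {y z : ℕ} (a : F) {K : FB} (hy : K ∈ I1 y) (hz : K ∈ I1 z) :
    o a * K + o (X12d_k y z a) * K ∈ I2 y ⊔ I2 z := by
  rw [X12d_ins _ _ (o (rp z 1 a) * K), ← add_mul, ← add_mul]
  exact add_mem (AddSubgroup.mem_sup_right (mul_I1_I1 (fox z a) hz))
    (AddSubgroup.mem_sup_left (mul_I1_I1 (fox y (rp z 1 a)) hy))

private theorem X12d_cr {y z : ℕ} (a : F) {K : FB} (hy : K ∈ I1 y) (hz : K ∈ I1 z) :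
    K * o a + K * o (X12d_k y z a) ∈ I2 y ⊔ I2 z := by
  rw [X12d_ins _ _ (K * o (rp z 1 a)), ← mul_add, ← mul_add]
  exact add_mem (AddSubgroup.mem_sup_right (mul_I1_I1 hz (fox z a)))
    (AddSubgroup.mem_sup_left (mul_I1_I1 hy (fox y (rp z 1 a))))

private theorem X12d_c {y z : ℕ} (a b : F) {K : FB} (hy : K ∈ I1 y) (hz : K ∈ I1 z) :
    o a * K * o b + o (X12d_k y z a) * K * o (X12d_k y z b) ∈ I2 y ⊔ I2 z := by
  have hJ : Bi (I2 y ⊔ I2 z) := (I2_bi y).sup (I2_bi z)
  have e : o a * K * o b + o (X12d_k y z a) * K * o (X12d_k y z b) =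
      (o a * K + o (X12d_k y z a) * K) * o b + o (X12d_k y z a) * (K * o b + K * o (X12d_k y z b)) := by
    rw [X12d_ins _ _ (o (X12d_k y z a) * K * o b), add_mul, mul_add, mul_assoc (o (X12d_k y z a)) K (o b),
      mul_assoc (o (X12d_k y z a)) K]
  rw [e]
  exact add_mem (hJ.right _ _ (X12d_cl a hy hz)) (hJ.left _ _ (X12d_cr b hy hz))

private theorem X12d_K1 (y z : ℕ) : Xl y * Xl z + Xl z * Xl y ∈ I1 y := by
  have h : Xl y ∈ I1 y := sub_idl rfl
  exact add_mem ((I1_bi y).mul_right _ h) ((I1_bi y).mul_left _ h)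

private theorem X12d_K2 (y z : ℕ) : Xl y * Xl z + Xl z * Xl y ∈ I1 z := by
  have h : Xl z ∈ I1 z := sub_idl rfl
  exact add_mem ((I1_bi z).mul_left _ h) ((I1_bi z).mul_right _ h)

/-- every element of the ideal is congruent to a second component of `BP` -/
private theorem X12d_dec {y z : ℕ} {r : FB} (hr : r ∈ idl {Xl y * Xl z + Xl z * Xl y}) :
    ∃ t s, (t, s) ∈ BP y z ∧ r + s ∈ I2 y ⊔ I2 z := by
  refine AddSubgroup.closure_induction (p := fun r _ => ∃ t s, (t, s) ∈ BP y z ∧ r + s ∈ I2 y ⊔ I2 z) ?_ ?_ ?_ ?_ hr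
  · rintro r ⟨a, b, s', hs', rfl⟩
    have hs : s' = Xl y * Xl z + Xl z * Xl y := hs'
    rw [hs]
    exact ⟨_, _, AddSubgroup.subset_closure ⟨X12d_k y z a, X12d_k y z b, X12d_Fr a, X12d_Fr b, rfl⟩,
      X12d_c a b (X12d_K1 y z) (X12d_K2 y z)⟩
  · refine ⟨0, 0, (BP y z).zero_mem, ?_⟩
    rw [add_zero]
    exact AddSubgroup.zero_mem _
  · rintro r r' _ _ ⟨t, s, h1, h2⟩ ⟨t', s', h1', h2'⟩
    refine ⟨t + t', s + s', (BP y z).add_mem h1 h1', ?_⟩
    rw [add_add_add_comm]
    exact add_mem h2 h2'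
  · rintro r _ ⟨t, s, h1, h2⟩
    refine ⟨-t, -s, (BP y z).neg_mem h1, ?_⟩
    rw [← neg_add]
    exact neg_mem h2

/-- `BP` is stable under endomorphisms which commute with the killing of `y`, `z` -/
private theorem X12d_st {y z : ℕ} (φ : F →* F) (hy : φ (x y) = x y) (hz : φ (x z) = x z)
    (cy : (rp y 1).comp φ = φ.comp (rp y 1)) (cz : (rp z 1).comp φ = φ.comp (rp z 1)) {t s : FB}
    (h : (t, s) ∈ BP y z) : (eB φ t, eB φ s) ∈ BP y z := by
  have hF : ∀ u : F, Fr y z u → Fr y z (φ u) := fun u hu => by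
    have h1 : rp y 1 (φ u) = φ (rp y 1 u) := DFunLike.congr_fun cy u
    have h2 : rp z 1 (φ u) = φ (rp z 1 u) := DFunLike.congr_fun cz u
    exact ⟨by rw [h1, hu.1], by rw [h2, hu.2]⟩
  have eY : eB φ (Xl y) = Xl y := by
    unfold Xl
    rw [eB_C, hy]
  have eZ : eB φ (Xl z) = Xl z := by
    unfold Xl
    rw [eB_C, hz]
  refine AddSubgroup.closure_induction (p := fun (r : FB × FB) _ => (eB φ r.1, eB φ r.2) ∈ BP y z) ?_ ?_ ?_ ?_ h
  · rintro r ⟨u, v, hu, hv, rfl⟩
    refine AddSubgroup.subset_closure ⟨φ u, φ v, hF u hu, hF v hv, ?_⟩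
    refine Prod.ext ?_ ?_
    · show eB φ (o u * Xl y * o v) = _
      rw [map_mul, map_mul, eB_o, eB_o, eY]
    · show eB φ (o u * (Xl y * Xl z + Xl z * Xl y) * o v) = _
      rw [map_mul, map_mul, map_add, map_mul, map_mul, eB_o, eB_o, eY, eZ]
  · show (eB φ 0, eB φ 0) ∈ BP y z
    rw [map_zero]
    exact (BP y z).zero_mem
  · intro r r' _ _ h1 h2
    have e : (eB φ (r + r').1, eB φ (r + r').2) = (eB φ r.1, eB φ r.2) + (eB φ r'.1, eB φ r'.2) :=
      Prod.ext (map_add _ _ _) (map_add _ _ _)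
    rw [e]
    exact (BP y z).add_mem h1 h2
  · intro r _ h1
    have e : (eB φ (-r).1, eB φ (-r).2) = -(eB φ r.1, eB φ r.2) := Prod.ext (map_neg _ _) (map_neg _ _)
    rw [e]
    exact (BP y z).neg_mem h1

private theorem X12d_ret {y z : ℕ} {M : Finset ℕ} (hy : y ∈ M) (hz : z ∈ M) {t s : FB} (h : (t, s) ∈ BP y z) :
    (eB (ret M) t, eB (ret M) s) ∈ BP y z := by
  refine X12d_st (ret M) ?_ ?_ ?_ ?_ h
  · rw [ret_x, if_pos hy]
  · rw [ret_x, if_pos hz]
  · refine hom_ext fun i => ?_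
    simp only [MonoidHom.comp_apply, ret_x, rp_x]
    by_cases h1 : i ∈ M
    · by_cases h2 : i = y
      · simp [h2, hy]
      · simp [h1, h2]
    · by_cases h2 : i = y
      · exact absurd (h2 ▸ hy) h1
      · simp [h1, h2]
  · refine hom_ext fun i => ?_
    simp only [MonoidHom.comp_apply, ret_x, rp_x]
    by_cases h1 : i ∈ M
    · by_cases h2 : i = z
      · simp [h2, hz]
      · simp [h1, h2]
    · by_cases h2 : i = z
      · exact absurd (h2 ▸ hz) h1
      · simp [h1, h2]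

private theorem X12d_kls {y z : ℕ} {U : Finset ℕ} (hy : y ∉ U) (hz : z ∉ U) {t s : FB} (h : (t, s) ∈ BP y z) :
    (eB (kls U) t, eB (kls U) s) ∈ BP y z := by
  refine X12d_st (kls U) ?_ ?_ ?_ ?_ h
  · rw [kls_x, if_neg hy]
  · rw [kls_x, if_neg hz]
  · refine hom_ext fun i => ?_
    simp only [MonoidHom.comp_apply, kls_x, rp_x]
    by_cases h1 : i ∈ U
    · by_cases h2 : i = y
      · exact absurd (h2 ▸ h1) hy
      · simp [h1, h2]
    · by_cases h2 : i = y
      · simp [h2, hy]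
      · simp [h1, h2]
  · refine hom_ext fun i => ?_
    simp only [MonoidHom.comp_apply, kls_x, rp_x]
    by_cases h1 : i ∈ U
    · by_cases h2 : i = z
      · exact absurd (h2 ▸ h1) hz
      · simp [h1, h2]
    · by_cases h2 : i = z
      · simp [h2, hz]
      · simp [h1, h2]

private theorem X12d_QL {y z : ℕ} {L : Finset ℕ} (hy : y ∉ L) (hz : z ∉ L) {t s : FB} (h : (t, s) ∈ BP y z) :
    (QL L t, QL L s) ∈ BP y z := by
  have e : (QL L t, QL L s) = ∑ U ∈ L.powerset, (eB (kls U) t, eB (kls U) s) := by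
    refine Prod.ext ?_ ?_
    · rw [Prod.fst_sum]
      exact QL_apply L t
    · rw [Prod.snd_sum]
      exact QL_apply L s
  rw [e]
  refine sum_mem fun U hU => ?_
  rw [Finset.mem_powerset] at hU
  exact X12d_kls (fun h' => hy (hU h')) (fun h' => hz (hU h')) h

private theorem X12d_y {y z : ℕ} {t s : FB} (h : (t, s) ∈ BP y z) : eB (rp y 1) t = 0 := by
  refine AddSubgroup.closure_induction (p := fun (r : FB × FB) _ => eB (rp y 1) r.1 = 0) ?_ ?_ ?_ ?_ h
  · rintro r ⟨u, v, hu, hv, rfl⟩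
    show eB (rp y 1) (o u * Xl y * o v) = 0
    rw [map_mul, map_mul, eB_Xl_rp_self, C_one, mul_zero, zero_mul]
  · exact map_zero _
  · intro r r' _ _ h1 h2
    show eB (rp y 1) (r.1 + r'.1) = 0
    rw [map_add, h1, h2, add_zero]
  · intro r _ h1
    show eB (rp y 1) (-r.1) = 0
    rw [map_neg, h1, neg_zero]

private theorem X12d_z {y z : ℕ} (hyz : y ≠ z) {t s : FB} (h : (t, s) ∈ BP y z) : eB (rp z 1) t = t := by
  refine AddSubgroup.closure_induction (p := fun (r : FB × FB) _ => eB (rp z 1) r.1 = r.1) ?_ ?_ ?_ ?_ h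
  · rintro r ⟨u, v, hu, hv, rfl⟩
    show eB (rp z 1) (o u * Xl y * o v) = o u * Xl y * o v
    rw [map_mul, map_mul, eB_Xl_rp_ne _ hyz, eB_o, eB_o, hu.2, hv.2]
  · exact map_zero _
  · intro r r' _ _ h1 h2
    show eB (rp z 1) (r.1 + r'.1) = r.1 + r'.1
    rw [map_add, h1, h2]
  · intro r _ h1
    show eB (rp z 1) (-r.1) = -r.1
    rw [map_neg, h1]

/-- an element of `idl {[Y,Z]}` modulo `NN` with the vanishing properties is the second component of `BP` with full first component.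
PROOF: as in `va_dec`: kill `y`, `z` in the coefficients, `ret`, `QL L`. -/
theorem br_dec {P : AddSubgroup FB} (hP : Ids P) {L : Finset ℕ} {y z : ℕ} (hyz : y ≠ z) (hy : y ∉ L) (hz : z ∉ L) {f : FB}
    (hf : f ∈ idl {Xl y * Xl z + Xl z * Xl y} ⊔ NN P y z) (hk : ∀ j ∈ L, eB (rp j 1) f = 0)
    (hr : eB (ret (insert y (insert z L))) f = f) :
    ∃ t s, (t, s) ∈ BP y z ∧ Full (insert y L) t ∧ (∀ j ∈ L, eB (rp j 1) s = 0) ∧ eB (ret (insert y (insert z L))) s = s ∧
      f + s ∈ NN P y z := by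
  have hM1 : y ∈ insert y (insert z L) := Finset.mem_insert_self _ _
  have hM2 : z ∈ insert y (insert z L) := Finset.mem_insert_of_mem (Finset.mem_insert_self _ _)
  obtain ⟨r, hr', n, hn, hrn⟩ := AddSubgroup.mem_sup.1 hf
  obtain ⟨t0, s0, hts, hJ⟩ := X12d_dec hr'
  have hJN : I2 y ⊔ I2 z ≤ NN P y z := by
    unfold NN
    exact sup_le ((le_sup_right.trans le_sup_left).trans le_sup_left) (le_sup_right.trans le_sup_left)
  obtain ⟨t, ht⟩ : ∃ t, t = QL L (eB (ret (insert y (insert z L))) t0) := ⟨_, rfl⟩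
  obtain ⟨s, hs⟩ : ∃ s, s = QL L (eB (ret (insert y (insert z L))) s0) := ⟨_, rfl⟩
  have hb : (t, s) ∈ BP y z := by
    rw [ht, hs]
    exact X12d_QL hy hz (X12d_ret hM1 hM2 hts)
  have hrr : ∀ g : FB, eB (ret (insert y (insert z L))) (eB (ret (insert y (insert z L))) g) =
      eB (ret (insert y (insert z L))) g := fun g => by
    rw [eB_comp, ret_ret, Finset.inter_self]
  have htr : eB (ret (insert y (insert z L))) t = t := by
    rw [ht]
    exact QL_ret (hrr t0)
  have hsr : eB (ret (insert y (insert z L))) s = s := by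
    rw [hs]
    exact QL_ret (hrr s0)
  refine ⟨t, s, hb, ⟨fun j hj => ?_, ?_⟩, fun j hj => ?_, hsr, ?_⟩
  · rw [Finset.mem_insert] at hj
    rcases hj with rfl | hj
    · exact X12d_y hb
    · rw [ht]
      exact QL_kill hj _
  · have e : ret (insert y L) = (rp z 1).comp (ret (insert y (insert z L))) := by
      refine hom_ext fun i => ?_
      simp only [MonoidHom.comp_apply, ret_x]
      by_cases h1 : i ∈ insert y L
      · have h2 : i ∈ insert y (insert z L) := by
          rw [Finset.mem_insert] at h1 ⊢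
          exact h1.imp_right fun h => Finset.mem_insert_of_mem h
        have h3 : i ≠ z := by
          rintro rfl
          rw [Finset.mem_insert] at h1
          rcases h1 with h1 | h1
          · exact hyz h1.symm
          · exact hz h1
        rw [if_pos h1, if_pos h2, rp_x, if_neg h3]
      · rw [if_neg h1]
        by_cases h3 : i = z
        · rw [h3, if_pos hM2, rp_x, if_pos rfl]
        · have h2 : i ∉ insert y (insert z L) := by
            intro h2
            rw [Finset.mem_insert, Finset.mem_insert] at h2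
            rcases h2 with h2 | h2 | h2
            · exact h1 (Finset.mem_insert.2 (Or.inl h2))
            · exact h3 h2
            · exact h1 (Finset.mem_insert_of_mem h2)
          rw [if_neg h2, map_one]
    rw [e, ← eB_comp, htr, X12d_z hyz hb]
  · rw [hs]
    exact QL_kill hj _
  · have hfe : QL L (eB (ret (insert y (insert z L))) f) = f := by
      rw [hr]
      exact QL_eq hk
    have e : f + s = QL L (eB (ret (insert y (insert z L))) ((r + s0) + n)) := by
      rw [show r + s0 + n = f + s0 by rw [← hrn]; abel, map_add, map_add, hfe, hs]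
    have hmem : (r + s0) + n ∈ NN P y z := add_mem (hJN hJ) hn
    rw [e]
    refine QL_mem (W := NN P y z) (fun j hj w hw => ?_) ?_
    · refine eB_NN hP.ti _ ?_ ?_ hw
      · rw [rp_x, if_neg fun h : y = j => hy (h ▸ hj)]
      · rw [rp_x, if_neg fun h : z = j => hz (h ▸ hj)]
    · refine eB_NN hP.ti _ ?_ ?_ hmem
      · rw [ret_x, if_pos hM1]
      · rw [ret_x, if_pos hM2]

end E4.X
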