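import Pool.Agent.Lib.MP_8a95e3_al.X12d

/-!
# X13a : step A, first half
-/

noncomputable section

namespace E4.X

open E4

private theorem X13a_comm_kill {y z j : ℕ} (hy : j ≠ y) (hz : j ≠ z) :
    (rp j 1).comp (sw y z) = (sw y z).comp (rp j 1) := by
  refine hom_ext fun i => ?_
  rw [MonoidHom.comp_apply, MonoidHom.comp_apply, sw_x, rp_x]
  by_cases h1 : i = y
  · subst h1
    rw [if_pos rfl, rp_x, if_neg (Ne.symm hz), if_neg (Ne.symm hy), sw_x, if_pos rfl]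
  · by_cases h2 : i = z
    · subst h2
      rw [if_neg h1, if_pos rfl, rp_x, if_neg (Ne.symm hy), if_neg (Ne.symm hz), sw_x, if_neg h1, if_pos rfl]
    · rw [if_neg h1, if_neg h2, rp_x]
      by_cases h3 : i = j
      · rw [if_pos h3, map_one]
      · rw [if_neg h3, sw_x, if_neg h1, if_neg h2]

private theorem X13a_comm_ret {y z : ℕ} {M : Finset ℕ} (hy : y ∈ M) (hz : z ∈ M) :
    (ret M).comp (sw y z) = (sw y z).comp (ret M) := by
  refine hom_ext fun i => ?_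
  rw [MonoidHom.comp_apply, MonoidHom.comp_apply, sw_x, ret_x]
  by_cases h1 : i = y
  · subst h1
    rw [if_pos rfl, ret_x, if_pos hz, if_pos hy, sw_x, if_pos rfl]
  · by_cases h2 : i = z
    · subst h2
      rw [if_neg h1, if_pos rfl, ret_x, if_pos hy, if_pos hz, sw_x, if_neg h1, if_pos rfl]
    · rw [if_neg h1, if_neg h2, ret_x]
      by_cases h3 : i ∈ M
      · rw [if_pos h3, sw_x, if_neg h1, if_neg h2]
      · rw [if_neg h3, map_one]

private theorem X13a_comm_sqs {y z : ℕ} (hyz : y ≠ z) :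
    (sqs {y, z}).comp (sw y z) = (sw y z).comp (sqs {y, z}) := by
  have hyM : y ∈ ({y, z} : Finset ℕ) := Finset.mem_insert_self _ _
  have hzM : z ∈ ({y, z} : Finset ℕ) := Finset.mem_insert_of_mem (Finset.mem_singleton_self _)
  refine hom_ext fun i => ?_
  rw [MonoidHom.comp_apply, MonoidHom.comp_apply, sw_x, sqs_x]
  by_cases h1 : i = y
  · subst h1
    rw [if_pos rfl, sqs_x, if_pos hzM, if_pos hyM, map_pow, sw_x, if_pos rfl]
  · by_cases h2 : i = z
    · subst h2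
      rw [if_neg h1, if_pos rfl, sqs_x, if_pos hyM, if_pos hzM, map_pow, sw_x, if_neg h1, if_pos rfl]
    · have h3 : i ∉ ({y, z} : Finset ℕ) := by
        rw [Finset.mem_insert, Finset.mem_singleton]
        rintro (h4 | h4)
        · exact h1 h4
        · exact h2 h4
      rw [if_neg h1, if_neg h2, sqs_x, if_neg h3, sw_x, if_neg h1, if_neg h2]

/-- the first component of `RP` -/
private theorem X13a_rp_idl {y z : ℕ} {t r : FB} (h : (t, r) ∈ RP y z) : r ∈ idl {Xl y * Xl z} := by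
  have key : RP y z ≤ (idl {Xl y * Xl z}).comap (AddMonoidHom.snd FB FB) := by
    unfold RP
    rw [AddSubgroup.closure_le]
    rintro r ⟨u, v, _, _, rfl⟩
    exact AddSubgroup.subset_closure ⟨u, v, _, Set.mem_singleton _, rfl⟩
  exact key h

/-- `Sw` consists of the elements `s + σ s` -/
private theorem X13a_sw_ex {y z : ℕ} {r : FB} (h : r ∈ Sw y z) : ∃ s ∈ Bil y z, r = s + eB (sw y z) s := by
  unfold Sw at h
  refine AddSubgroup.closure_induction (p := fun r _ => ∃ s ∈ Bil y z, r = s + eB (sw y z) s) ?_ ?_ ?_ ?_ h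
  · rintro r ⟨s, hs, rfl⟩
    exact ⟨s, hs, rfl⟩
  · exact ⟨0, zero_mem _, by rw [map_zero, add_zero]⟩
  · rintro a b _ _ ⟨s, hs, rfl⟩ ⟨s', hs', rfl⟩
    refine ⟨s + s', add_mem hs hs', ?_⟩
    rw [map_add]
    abel
  · rintro a _ ⟨s, hs, rfl⟩
    exact ⟨s, hs, by rw [fb_neg]⟩

/-- `t([p,q]) = 0` in the model implies `t ∈ P ⊔ I2 y`.  PROOF.  `bp_br`, `sq_I2`: `eB (sqs {y, z}) (eB (rp y ((x y x z)^2)) t) ∈ P0`; `t1` (`eB (rp z 1) t = t` because `z ∉ insert y L`: `kill_of_ret`): `eB (sqs {y}) t ∈ P0`; `E1 n`. -/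
theorem bp_E1 {P0 P : AddSubgroup FB} (h0 : A0F P0) (hP : Ids P) (hle : P ≤ P0) {n : ℕ} (e1 : E1 P0 P n) {L : Finset ℕ} (hL : L.card = n)
    {y z : ℕ} (hyz : y ≠ z) (hy : y ∉ L) (hz : z ∉ L) {t s : FB} (h : (t, s) ∈ BP y z) (ht : Full (insert y L) t)
    (hs : eB (sqs {y, z}) s ∈ P0) : t ∈ P ⊔ I2 y := by
  have h4 := hP.four
  have h4' : ∀ g a b c : F, C g * o a * C g * o b * C g * o c * C g ∈ P0 := fun g a b c => hle (h4 g a b c)
  have h1 := bp_br hyz h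
  have hev : ∀ u ∈ I2 y ⊔ I2 z, eB (sqs {y, z}) u ∈ P0 := by
    intro u hu
    obtain ⟨a, ha, b, hb, rfl⟩ := AddSubgroup.mem_sup.1 hu
    rw [map_add]
    exact add_mem (sq_I2 h0.ti h4' (Finset.mem_insert_self _ _) ha)
      (sq_I2 h0.ti h4' (Finset.mem_insert_of_mem (Finset.mem_singleton_self _)) hb)
  have h2 := hev _ h1
  rw [map_add] at h2
  have h3 := (AddSubgroup.add_mem_cancel_right P0 hs).1 h2
  have hz' : z ∉ insert y L := by
    rw [Finset.mem_insert]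
    rintro (h5 | h5)
    · exact hyz h5.symm
    · exact hz h5
  exact e1 L y hL hy t ht (h0.t1 y z t hyz (ht.kill y (Finset.mem_insert_self _ _)) (kill_of_ret ht.inn hz') h3)

/-- **First half of step A.**  PROOF.  `f` full on `insert y (insert z L)`, zero in the model.  `spB`, `decA`: `s, w, k, t, r, ε₁, ε₂`.  Evaluate (`sq_NN`, `hf0`): `eB (sqs {y,z}) (s + σ s + k + r + ε₁ … + ε₂ …) ∈ P0`; if `L ≠ ∅`: `lam` (`r ∈ idl {Xl y * Xl z}`): `ε₁ = ε₂ = 0`
(if `L = ∅` by hypothesis).  So `eB (sqs {y,z}) (s + σ s + k + r) ∈ P0`; apply `eB (sw y z)` (`(sw y z).comp (sqs {y,z}) = (sqs {y,z}).comp (sw y z)`, `sw_sw`), add: `eB (sqs {y,z}) (k + σ k + r + σ r) ∈ P0`; `k_sw`, `sq_NN`: `eB (sqs {y,z}) (r + σ r) ∈ P0`; `r_sw`, `bp_E1`: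
`t ∈ P ⊔ I2 y`; `rp_mem`: `r = (s' + σ s') + n`, `s' ∈ Bil` (`Sw` = `{s + σ s}`).  Replace `s` by `s + s'`.  Then `eB (sqs {y,z}) (s + σ s + k) ∈ P0`; `tr`: `w ∈ P0`; `E0 n`: `w ∈ P`; `kwd`: `k ∈ NN`.
The new `s` may be made full in `L` (apply `eB (ret …)`, `QL L`, `Bil_ret`, `Bil_kill`). -/
theorem stepA1 {P0 P : AddSubgroup FB} (h0 : A0F P0) (hP : Ids P) (hle : P ≤ P0) {n : ℕ} (e0 : E0 P0 P n) (e1 : E1 P0 P n)
    {L : Finset ℕ} (hL : L.card = n) {y z : ℕ} (hyz : y ≠ z) (hy : y ∉ L) (hz : z ∉ L) {f : FB}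
    (hF : Full (insert y (insert z L)) f) (hf0 : eB (sqs {y, z}) f ∈ P0) :
    ∃ s ∈ Bil y z, (∀ j ∈ L, eB (rp j 1) s = 0) ∧ eB (ret (insert y (insert z L))) s = s ∧
      f + (s + eB (sw y z) s) ∈ NN P y z := by
  classical
  have h4 := hP.four
  have h4' : ∀ g a b c : F, C g * o a * C g * o b * C g * o c * C g ∈ P0 := fun g a b c => hle (h4 g a b c)
  have hNNle : NN P y z ≤ NN P0 y z := by
    unfold NN
    exact sup_le_sup (sup_le_sup (sup_le_sup hle le_rfl) le_rfl) le_rfl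
  have hNl : P ⊔ I2 y ⊔ I2 z ≤ NN P y z := by
    unfold NN
    exact le_sup_left
  have hev : ∀ u ∈ NN P y z, eB (sqs {y, z}) u ∈ P0 := fun u hu => sq_NN h0 h4' hyz (hNNle hu)
  have hjy : ∀ j ∈ L, j ≠ y := fun j hj h1 => hy (h1 ▸ hj)
  have hjz : ∀ j ∈ L, j ≠ z := fun j hj h1 => hz (h1 ▸ hj)
  have hyM : y ∈ insert y (insert z L) := Finset.mem_insert_self _ _
  have hzM : z ∈ insert y (insert z L) := Finset.mem_insert_of_mem (Finset.mem_insert_self _ _)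
  obtain ⟨m, hm⟩ : ∃ m : ℕ, L.Nonempty → m ∈ L := by
    rcases L.eq_empty_or_nonempty with h1 | ⟨m, hm⟩
    · exact ⟨0, fun h2 => absurd h1 h2.ne_empty⟩
    · exact ⟨m, fun _ => hm⟩
  obtain ⟨s, w, k, t, r, ε₁, ε₂, hs, hsk, hsr, hwk, hFw, htr, hFt, hrk, hrr, hc2, hc1, hN⟩ :=
    decA hP hyz hy hz hm (spB hy hz hyz hF)
      (fun j hj => hF.kill j (Finset.mem_insert_of_mem (Finset.mem_insert_of_mem hj))) hF.inn
  -- evaluation
  have hv := hev _ hN
  have hv1 : eB (sqs {y, z}) (s + eB (sw y z) s + k + r + ε₁ • (Xl y * XP L * Xl z) +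
      ε₂ • (XP (L.erase m) * (Xl y * Xl m * Xl z))) ∈ P0 := by
    have h5 : f + (s + eB (sw y z) s) + k + r + ε₁ • (Xl y * XP L * Xl z) +
        ε₂ • (XP (L.erase m) * (Xl y * Xl m * Xl z)) = f + (s + eB (sw y z) s + k + r + ε₁ • (Xl y * XP L * Xl z) +
        ε₂ • (XP (L.erase m) * (Xl y * Xl m * Xl z))) := by
      abel
    rw [h5, map_add] at hv
    exact (AddSubgroup.add_mem_cancel_left P0 hf0).1 hv
  have hε : ε₁ = 0 ∧ ε₂ = 0 := by
    rcases L.eq_empty_or_nonempty with h5 | h5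
    · exact ⟨hc1 h5, hc2 (by rw [h5, Finset.card_empty]; omega)⟩
    · exact h0.lam L m y z (hm h5) hyz hy hz s hs w k hwk r (X13a_rp_idl htr) hsk hsr hFw hrk hrr ε₁ ε₂ hc2 hv1
  rw [hε.1, hε.2, zero_smul, zero_smul, add_zero, add_zero] at hv1 hN
  -- the exchange of the letters
  have hcs : ∀ u : FB, eB (sqs {y, z}) (eB (sw y z) u) = eB (sw y z) (eB (sqs {y, z}) u) := by
    intro u
    rw [eB_comp, eB_comp, X13a_comm_sqs hyz]
  have hv2 : eB (sqs {y, z}) (eB (sw y z) (s + eB (sw y z) s + k + r)) ∈ P0 := by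
    rw [hcs]
    exact h0.ti.endo _ _ hv1
  have hv3 : eB (sqs {y, z}) (r + eB (sw y z) r) ∈ P0 := by
    have h5 := add_mem hv1 hv2
    rw [← map_add] at h5
    have h6 : s + eB (sw y z) s + k + r + eB (sw y z) (s + eB (sw y z) s + k + r) =
        (k + eB (sw y z) k) + (r + eB (sw y z) r) + ((s + s) + (eB (sw y z) s + eB (sw y z) s)) := by
      rw [map_add, map_add, map_add, sw_sw]
      abel
    rw [h6, fb_add_self, fb_add_self, add_zero, add_zero, map_add] at h5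
    exact (AddSubgroup.add_mem_cancel_left P0 (hev _ (k_sw hP hyz hwk))).1 h5
  have ht := bp_E1 h0 hP hle e1 hL hyz hy hz (r_sw hyz htr) hFt hv3
  -- the element `r`
  obtain ⟨r₁, hr₁, n₁, hn₁, hrn⟩ := AddSubgroup.mem_sup.1 (rp_mem hP hyz htr ht)
  obtain ⟨s', hs', hrs'⟩ := X13a_sw_ex hr₁
  obtain ⟨s₃, hs₃d⟩ : ∃ s₃ : FB, s₃ = QL L (eB (ret (insert y (insert z L))) s') := ⟨_, rfl⟩
  have hs₃ : s₃ ∈ Bil y z := by
    rw [hs₃d]
    exact QL_mem (fun j hj u hu => Bil_kill (hjy j hj) (hjz j hj) hu) (Bil_ret hyM hzM hs')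
  have hs₃k : ∀ j ∈ L, eB (rp j 1) s₃ = 0 := by
    intro j hj
    rw [hs₃d]
    exact QL_kill hj _
  have hs₃r : eB (ret (insert y (insert z L))) s₃ = s₃ := by
    rw [hs₃d]
    refine QL_ret ?_
    rw [eB_comp, ret_ret, Finset.inter_self]
  -- stability of the ideal
  obtain ⟨U, hU⟩ : ∃ U : AddSubgroup FB, U = P ⊔ I2 y ⊔ I2 z := ⟨_, rfl⟩
  have hUst : ∀ φ : F →* F, φ (x y) = x y → φ (x z) = x z → ∀ u ∈ U, eB φ u ∈ U := by
    intro φ hφy hφz u hu
    rw [hU] at hu ⊢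
    obtain ⟨d, hd, c, hc, rfl⟩ := AddSubgroup.mem_sup.1 hu
    obtain ⟨a, ha, b, hb, rfl⟩ := AddSubgroup.mem_sup.1 hd
    rw [map_add, map_add]
    exact add_mem (AddSubgroup.mem_sup_left (add_mem (AddSubgroup.mem_sup_left (hP.ti.endo _ _ ha))
      (AddSubgroup.mem_sup_right (eB_I2 φ hφy hb)))) (AddSubgroup.mem_sup_right (eB_I2 φ hφz hc))
  have hrU : r + (s₃ + eB (sw y z) s₃) ∈ U := by
    have h5 : eB (ret (insert y (insert z L))) n₁ ∈ U := by
      rw [← hU] at hn₁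
      exact hUst _ (by rw [ret_x, if_pos hyM]) (by rw [ret_x, if_pos hzM]) _ hn₁
    have h6 : QL L (eB (ret (insert y (insert z L))) n₁) ∈ U := by
      refine QL_mem (fun j hj u hu => hUst _ ?_ ?_ u hu) h5
      · rw [rp_x, if_neg (hjy j hj).symm]
      · rw [rp_x, if_neg (hjz j hj).symm]
    have h7 : r = (s₃ + eB (sw y z) s₃) + QL L (eB (ret (insert y (insert z L))) n₁) := by
      have h8 : QL L (eB (ret (insert y (insert z L))) r) = r := by
        rw [hrr]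
        exact QL_eq hrk
      rw [← h8]
      rw [← hrn, hrs', map_add, map_add, map_add, map_add, ← hs₃d]
      congr 2
      rw [eB_comp, X13a_comm_ret hyM hzM, ← eB_comp, hs₃d]
      exact (QL_comm (sw y z) (fun j hj => X13a_comm_kill (hjy j hj) (hjz j hj)) _).symm
    have h8 : r + (s₃ + eB (sw y z) s₃) = ((s₃ + eB (sw y z) s₃) + (s₃ + eB (sw y z) s₃)) +
        QL L (eB (ret (insert y (insert z L))) n₁) := by
      nth_rewrite 1 [h7]
      abel
    rw [h8, fb_add_self, zero_add]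
    exact h6
  have hrN : r + (s₃ + eB (sw y z) s₃) ∈ NN P y z := hNl (hU ▸ hrU)
  -- the trace
  have hv4 : eB (sqs {y, z}) ((s + s₃) + eB (sw y z) (s + s₃) + k) ∈ P0 := by
    have h5 : s + eB (sw y z) s + k + r = ((s + s₃) + eB (sw y z) (s + s₃) + k) + (r + (s₃ + eB (sw y z) s₃)) +
        ((s₃ + s₃) + (eB (sw y z) s₃ + eB (sw y z) s₃)) := by
      rw [map_add]
      have h6 : (s₃ + s₃) + (eB (sw y z) s₃ + eB (sw y z) s₃) = 0 := by
        rw [fb_add_self, fb_add_self, add_zero]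
      have h7 : ((s + s₃) + (eB (sw y z) s + eB (sw y z) s₃) + k) + (r + (s₃ + eB (sw y z) s₃)) =
          s + eB (sw y z) s + k + r + ((s₃ + s₃) + (eB (sw y z) s₃ + eB (sw y z) s₃)) := by
        abel
      rw [h7, h6, add_zero, add_zero]
    rw [h5, fb_add_self, fb_add_self, add_zero, add_zero, map_add] at hv1
    exact (AddSubgroup.add_mem_cancel_right P0 (hev _ hrN)).1 hv1
  have hw0 := h0.tr L y z hyz hy hz (s + s₃) (add_mem hs hs₃) w k hwk hFw.inn hv4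
  have hkN := hP.kwd y z hyz w k hwk (e0 L hL w hFw hw0)
  refine ⟨s + s₃, add_mem hs hs₃, fun j hj => ?_, ?_, ?_⟩
  · rw [map_add, hsk j hj, hs₃k j hj, add_zero]
  · rw [map_add, hsr, hs₃r]
  · have h5 : f + ((s + s₃) + eB (sw y z) (s + s₃)) + (k + (r + (s₃ + eB (sw y z) s₃))) =
        (f + (s + eB (sw y z) s) + k + r) + ((s₃ + s₃) + (eB (sw y z) s₃ + eB (sw y z) s₃)) := by
      rw [map_add]
      abel
    have h6 := hN
    rw [show f + (s + eB (sw y z) s) + k + r =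
      f + (s + eB (sw y z) s) + k + r + ((s₃ + s₃) + (eB (sw y z) s₃ + eB (sw y z) s₃)) by
        rw [fb_add_self, fb_add_self, add_zero, add_zero], ← h5] at h6
    exact (AddSubgroup.add_mem_cancel_right _ (add_mem hkN hrN)).1 h6

end E4.X
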