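import Pool.Agent.Lib.MP_8a95e3_al.Defs

/-!
# XD : definitions for block X (exactness: the maximal insoluble T-ideal is generated by `t_2, c_3, c_4`)

Everything lives in the group ring `FB = F_2[F]`, `F` free on `x_0, x_1, …`.  Letters are natural numbers.  `o g` = the
group element, `C g = o g + 1`, `Xl j = C (x j)`, `T g = o g + o g⁻¹`.  `eB φ` = action of an endomorphism of `F`,
`rp j g` = the endomorphism `x_j ↦ g` (other letters fixed).  A letter `y` is used as a P-letter by working modulo the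
ideal `I2 y` of all `Y a Y` (`Y = Xl y`); its evaluation is the endomorphism `x_y ↦ x_y²` (`sqs {y}`).
-/

noncomputable section

namespace E4.X

open E4

/-- the group ring over `F_2` -/
abbrev FB : Type := MonoidAlgebra (ZMod 2) F

/-- inclusion of `F` -/
def o : F →* FB := MonoidAlgebra.of (ZMod 2) F

/-- action of an endomorphism of `F` on the group ring -/
def eB (φ : F →* F) : FB →+* FB := MonoidAlgebra.mapDomainRingHom (ZMod 2) φ

/-- `C g = g + 1` -/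
def C (g : F) : FB := o g + 1

/-- `T g = g + g⁻¹` -/
def T (g : F) : FB := o g + o g⁻¹

/-- `Xl j = x_j + 1` -/
def Xl (j : ℕ) : FB := C (x j)

/-- the endomorphism `x_j ↦ g`, all other letters fixed -/
def rp (j : ℕ) (g : F) : F →* F := FreeGroup.lift fun i => if i = j then g else x i

/-- kills the letters in `U` -/
def kls (U : Finset ℕ) : F →* F := FreeGroup.lift fun i => if i ∈ U then 1 else x i

/-- kills the letters outside `M` -/
def ret (M : Finset ℕ) : F →* F := FreeGroup.lift fun i => if i ∈ M then x i else 1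

/-- squares the letters in `Q` -/
def sqs (Q : Finset ℕ) : F →* F := FreeGroup.lift fun i => if i ∈ Q then x i ^ 2 else x i

/-- exchanges the letters `y` and `z` -/
def sw (y z : ℕ) : F →* F :=
  FreeGroup.lift fun i => if i = y then x z else if i = z then x y else x i

/-- the two-sided ideal (additive subgroup closed under multiplication by group elements) generated by `S` -/
def idl (S : Set FB) : AddSubgroup FB :=
  AddSubgroup.closure {r | ∃ a b : F, ∃ s ∈ S, r = o a * s * o b}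

/-- T-ideals of `FB` which contain all cubes -/
structure TI (P : AddSubgroup FB) : Prop where
  left : ∀ a : FB, ∀ p ∈ P, a * p ∈ P
  right : ∀ a : FB, ∀ p ∈ P, p * a ∈ P
  endo : ∀ φ : F →* F, ∀ p ∈ P, eB φ p ∈ P
  cube : ∀ h : F, C h ^ 3 ∈ P

/-- the smallest T-ideal (see `K0_TI`) -/
def K0 : AddSubgroup FB := idl {r | ∃ h : F, r = C h ^ 3}

/-- degree `≥ 1` in the letter `j` -/
def I1 (j : ℕ) : AddSubgroup FB := idl {Xl j}

/-- degree `≥ 2` in the letter `j` -/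
def I2 (j : ℕ) : AddSubgroup FB := idl {r | ∃ a : F, r = Xl j * o a * Xl j}

/-- degree `≥ 3` in the letter `j` -/
def I3 (j : ℕ) : AddSubgroup FB := idl {r | ∃ a b : F, r = Xl j * o a * Xl j * o b * Xl j}

/-- `f` is a full function of the letters in `L`: only these letters occur, and `f` vanishes if one of them is killed -/
structure Full (L : Finset ℕ) (f : FB) : Prop where
  kill : ∀ j ∈ L, eB (rp j 1) f = 0
  inn : eB (ret L) f = f

/-- the projection to the functions which vanish if a letter of `L` is killed -/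
def QL (L : Finset ℕ) : FB →+ FB := ∑ U ∈ L.powerset, (eB (kls U)).toAddMonoidHom

/-- ordered product of the `x_j`, `j ∈ L` -/
def gP (L : Finset ℕ) : F := ((L.sort (· ≤ ·)).map x).prod

/-- ordered product of the `Xl j`, `j ∈ L` -/
def XP (L : Finset ℕ) : FB := ((L.sort (· ≤ ·)).map Xl).prod

/-- linear extension of `D` at `XP L` -/
def Dh (D : F → FB) (L : Finset ℕ) : FB := ∑ U ∈ L.powerset, D (gP U)

/-- `P` together with the ideals `I2 q`, `q ∈ Q` -/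
def NP (P : AddSubgroup FB) (Q : Finset ℕ) : AddSubgroup FB := P ⊔ ⨆ q ∈ Q, I2 q

/-- `e(g; y, z) = T_g Y Z G + T_g Z G Y` (value `k(y,z)(g+1)^3`) -/
def ee (g : F) (y z : ℕ) : FB := T g * Xl y * Xl z * C g + T g * Xl z * C g * Xl y

/-- the ideal of all `e(g; y, z)` -/
def EI (y z : ℕ) : AddSubgroup FB := idl {r | ∃ g : F, r = ee g y z}

/-- `P ⊔ I2 y ⊔ I2 z ⊔ EI y z` -/
def NN (P : AddSubgroup FB) (y z : ℕ) : AddSubgroup FB := P ⊔ I2 y ⊔ I2 z ⊔ EI y z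

/-- `tau y z g = Y Z g + g⁻¹ Z Y + g⁻¹ Y g Z + Z g⁻¹ Y g` (value `k(y,z) T_g`) -/
def tau (y z : ℕ) (g : F) : FB :=
  Xl y * Xl z * o g + o g⁻¹ * Xl z * Xl y + o g⁻¹ * Xl y * o g * Xl z + Xl z * o g⁻¹ * Xl y * o g

/-- graph of the map `K(y,z)` : `T_g ↦ tau y z g` -/
def KP (y z : ℕ) : AddSubgroup (FB × FB) :=
  AddSubgroup.closure {r | ∃ u g v : F, r = (o u * T g * o v, o u * tau y z g * o v)}

/-- graph of the map `Θ_j` : `T_g ↦ X_j T_g X_j²` -/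
def TP (j : ℕ) : AddSubgroup (FB × FB) :=
  AddSubgroup.closure {r | ∃ u g v : F, r = (o u * T g * o v, o u * (Xl j * T g * Xl j ^ 2) * o v)}

/-- `g` does not contain the letters `y`, `z` -/
def Fr (y z : ℕ) (g : F) : Prop := rp y 1 g = g ∧ rp z 1 g = g

/-- bilinear elements `a Y b Z c`, `a Z b Y c` -/
def Bil (y z : ℕ) : AddSubgroup FB :=
  AddSubgroup.closure {r | ∃ a b c : F, Fr y z a ∧ Fr y z b ∧ Fr y z c ∧
    (r = o a * Xl y * o b * Xl z * o c ∨ r = o a * Xl z * o b * Xl y * o c)}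

/-- the elements `s + σ s`, `s` bilinear, `σ` the exchange of `y` and `z` -/
def Sw (y z : ℕ) : AddSubgroup FB :=
  AddSubgroup.closure {r | ∃ s ∈ Bil y z, r = s + eB (sw y z) s}

/-- graph of `t(Y) ↦ t(YZ)` -/
def RP (y z : ℕ) : AddSubgroup (FB × FB) :=
  AddSubgroup.closure {r | ∃ u v : F, Fr y z u ∧ Fr y z v ∧
    r = (o u * Xl y * o v, o u * (Xl y * Xl z) * o v)}

/-- graph of `t(Y) ↦ t([Y,Z])` -/
def BP (y z : ℕ) : AddSubgroup (FB × FB) :=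
  AddSubgroup.closure {r | ∃ u v : F, Fr y z u ∧ Fr y z v ∧
    r = (o u * Xl y * o v, o u * (Xl y * Xl z + Xl z * Xl y) * o v)}

/-- the subgroup `V` of step A -/
def VA (P : AddSubgroup FB) (y z : ℕ) : AddSubgroup FB :=
  Sw y z ⊔ idl {r | ∃ g : F, r = tau y z g} ⊔ idl {Xl y * Xl z} ⊔ NN P y z

/-- `X_j R X_j` modulo this subgroup: step C, second layer -/
def W2 (P : AddSubgroup FB) (j : ℕ) : AddSubgroup FB := idl {Xl j ^ 2} ⊔ I3 j ⊔ P

/-- third layer -/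
def W3 (P : AddSubgroup FB) (j : ℕ) : AddSubgroup FB :=
  idl {r | ∃ g : F, r = Xl j * T g * Xl j ^ 2} ⊔ P

/-- the generators of the third layer modulo `W3` -/
def D3 (j : ℕ) (v : F) : FB := Xl j * o v * Xl j ^ 2

/-- bilinear part of the lift of `e(x_m; ·, q)` -/
def BB (m y z q : ℕ) : FB :=
  T (x m) * Xl y * Xl z * Xl q * C (x m) + T (x m) * Xl q * C (x m) * Xl z * Xl y

/-- **The identities of `PP`** which are used in block X (all are identities in at most 5 letters). -/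
structure Ids (P : AddSubgroup FB) : Prop where
  ti : TI P
  /-- every element has degree at most 3 in each group element -/
  four : ∀ g a b c : F, C g * o a * C g * o b * C g * o c * C g ∈ P
  -- second layer
  s2a : ∀ (j : ℕ) (g v : F), C g * (Xl j * o v * Xl j) ∈ W2 P j
  s2b : ∀ (j : ℕ) (g v : F), Xl j * o v * Xl j * C g ∈ W2 P j
  s2c : ∀ (j : ℕ) (c v : F), Xl j * o v * C (c ^ 2) * Xl j ∈ W2 P j
  s2d : ∀ (j q : ℕ), j ≠ q → Xl j * Xl q * Xl j ∈ W2 P j ⊔ I2 q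
  -- third layer
  s3a : ∀ (j : ℕ) (v w : F), Xl j * o v * Xl j * o w * Xl j ∈ idl {r | ∃ u : F, r = D3 j u} ⊔ W3 P j
  s3b : ∀ (j : ℕ) (c v : F), C (c ^ 2) * D3 j v ∈ W3 P j
  s3b' : ∀ (j : ℕ) (c v : F), D3 j v * C (c ^ 2) ∈ W3 P j
  s3b'' : ∀ (j : ℕ) (c v : F), Xl j * o v * C (c ^ 2) * Xl j ^ 2 ∈ W3 P j
  s3c : ∀ (j : ℕ) (g v : F), o g * D3 j v + D3 j v * o g ∈ W3 P j
  s3d : ∀ (j : ℕ) (g v : F), C g * D3 j v + C v * D3 j g ∈ W3 P j
  s3e : ∀ (j : ℕ) (g : F), C g * D3 j g ∈ W3 P j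
  -- step A
  g1a : ∀ (y z : ℕ), y ≠ z → ∀ c v : F, C (c ^ 2) * (Xl y * o v * Xl z) ∈ VA P y z
  g1b : ∀ (y z : ℕ), y ≠ z → ∀ c v : F, Xl y * o v * Xl z * C (c ^ 2) ∈ VA P y z
  g1c : ∀ (y z : ℕ), y ≠ z → ∀ c v : F, Xl y * o v * C (c ^ 2) * Xl z ∈ VA P y z
  g2 : ∀ (y z : ℕ), y ≠ z → ∀ g v : F, o g * (Xl y * o v * Xl z) + Xl y * o v * Xl z * o g ∈ VA P y z
  g3 : ∀ (y z : ℕ), y ≠ z → ∀ g v : F, C g * (Xl y * o v * Xl z) + C v * (Xl y * o g * Xl z) ∈ VA P y z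
  g3' : ∀ (y z : ℕ), y ≠ z → ∀ g : F, C g * (Xl y * o g * Xl z) ∈ VA P y z
  g4 : ∀ (y z : ℕ), y ≠ z → ∀ g h : F, C g * (Xl y * C h * Xl z + Xl z * C h * Xl y) ∈
    idl {Xl y * Xl z + Xl z * Xl y} ⊔ NN P y z
  ksym : ∀ (y z : ℕ), y ≠ z → ∀ g : F, tau y z g + tau z y g ∈ NN P y z
  -- the elements e
  esym : ∀ (y z : ℕ), y ≠ z → ∀ g : F, ee g y z + ee g z y ∈ P ⊔ I2 y ⊔ I2 z
  e1a : ∀ (y z : ℕ), y ≠ z → ∀ c g : F, C (c ^ 2) * ee g y z ∈ P ⊔ I2 y ⊔ I2 z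
  e1b : ∀ (y z : ℕ), y ≠ z → ∀ c g : F, ee g y z * C (c ^ 2) ∈ P ⊔ I2 y ⊔ I2 z
  e1c : ∀ (y z : ℕ), y ≠ z → ∀ c g : F, ee (g * c ^ 2) y z + ee g y z ∈ P ⊔ I2 y ⊔ I2 z
  e2 : ∀ (y z : ℕ), y ≠ z → ∀ g h : F, o g * ee h y z + ee h y z * o g ∈ P ⊔ I2 y ⊔ I2 z
  e3 : ∀ (y z : ℕ), y ≠ z → ∀ g h : F, ee (g * h) y z + ee g y z + ee h y z + C h * ee g y z ∈ P ⊔ I2 y ⊔ I2 z
  e4 : ∀ (y z : ℕ), y ≠ z → ∀ g : F, eB (sqs {y}) (ee g y z) ∈ P ⊔ I2 z
  -- the maps K and Θ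
  kwd : ∀ (y z : ℕ), y ≠ z → ∀ w k : FB, (w, k) ∈ KP y z → w ∈ P → k ∈ NN P y z
  twd : ∀ (j : ℕ) (w k : FB), (w, k) ∈ TP j → w ∈ P → k ∈ P

/-- **The facts about `P0`** (the kernel of the model) which are used in block X. -/
structure A0F (P : AddSubgroup FB) : Prop where
  ti : TI P
  /-- `t([p,q]) = 0` implies `t(p) = 0` -/
  t1 : ∀ (y z : ℕ) (t : FB), y ≠ z → eB (rp y 1) t = 0 → eB (rp z 1) t = t →
    eB (sqs {y, z}) (eB (rp y ((x y * x z) ^ 2)) t) ∈ P → eB (sqs {y}) t ∈ P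
  /-- parity -/
  par : ∀ (H Q : Finset ℕ) (y z : ℕ), y ≠ z → y ∉ H → z ∉ H → Q ⊆ H → Q ≠ H →
    ∀ s ∈ idl {Xl y * Xl z + Xl z * Xl y}, (∀ j ∈ H, eB (rp j 1) s = 0) → eB (ret (insert y (insert z H))) s = s →
    eB (sqs (insert y (insert z Q))) (s + Xl y * XP H * Xl z + Xl z * XP H * Xl y) ∉ P
  /-- parity and independence in step C1 -/
  parB : ∀ (L : Finset ℕ) (m y z q : ℕ), m ∈ L → y ≠ z → y ≠ q → z ≠ q → y ∉ L → z ∉ L → q ∉ L →
    ∀ s ∈ idl {Xl y * Xl z + Xl z * Xl y}, (∀ j ∈ insert q L, eB (rp j 1) s = 0) →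
    eB (ret (insert y (insert z (insert q L)))) s = s → ∀ ε β : ZMod 2,
    eB (sqs {y, z, q}) (s + ε • (Xl y * XP (insert q L) * Xl z + Xl z * XP (insert q L) * Xl y) +
      β • (XP (L.erase m) * BB m y z q)) ∈ P → ε = 0 ∧ β = 0
  /-- the functional `λ` and the contraction in step A -/
  lam : ∀ (L : Finset ℕ) (m y z : ℕ), m ∈ L → y ≠ z → y ∉ L → z ∉ L →
    ∀ s ∈ Bil y z, ∀ w k : FB, (w, k) ∈ KP y z → ∀ r ∈ idl {Xl y * Xl z},
    (∀ j ∈ L, eB (rp j 1) s = 0) → eB (ret (insert y (insert z L))) s = s → Full L w →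
    (∀ j ∈ L, eB (rp j 1) r = 0) → eB (ret (insert y (insert z L))) r = r →
    ∀ ε₁ ε₂ : ZMod 2, (L.card ≤ 1 → ε₂ = 0) →
    eB (sqs {y, z}) (s + eB (sw y z) s + k + r + ε₁ • (Xl y * XP L * Xl z) +
      ε₂ • (XP (L.erase m) * (Xl y * Xl m * Xl z))) ∈ P → ε₁ = 0 ∧ ε₂ = 0
  /-- trace -/
  tr : ∀ (L : Finset ℕ) (y z : ℕ), y ≠ z → y ∉ L → z ∉ L → ∀ s ∈ Bil y z, ∀ w k : FB, (w, k) ∈ KP y z →
    eB (ret L) w = w → eB (sqs {y, z}) (s + eB (sw y z) s + k) ∈ P → w ∈ P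
  /-- third layer -/
  o3 : ∀ (H Q : Finset ℕ) (j m : ℕ), j ∉ H → Q ⊆ H → m ∈ H → m ∉ Q → ∀ w k : FB, (w, k) ∈ TP j → Full H w →
    ∀ α₁ α₂ : ZMod 2, (H.card ≤ 1 → α₂ = 0) →
    eB (sqs Q) (k + α₁ • (Xl j * XP H * Xl j ^ 2) + α₂ • (XP (H.erase m) * (Xl j * Xl m * Xl j ^ 2))) ∈ P →
    α₁ = 0 ∧ α₂ = 0 ∧ eB (sqs Q) w ∈ P
  /-- the elements `e` vanish -/
  e0 : ∀ (y z : ℕ), y ≠ z → ∀ g : F, eB (sqs {y, z}) (ee g y z) ∈ P
  /-- base -/
  b1 : ∀ j : ℕ, Xl j ^ 2 ∉ P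
  b2 : ∀ j q : ℕ, j ≠ q → eB (sqs {q}) (Xl j * Xl q * Xl j ^ 2) ∉ P

/-- `E0 n` : full functions of `n` letters in `P0` are in `P` -/
def E0 (P0 P : AddSubgroup FB) (n : ℕ) : Prop :=
  ∀ L : Finset ℕ, L.card = n → ∀ f, Full L f → f ∈ P0 → f ∈ P

/-- `E1 n` : the same with one additional P-letter -/
def E1 (P0 P : AddSubgroup FB) (n : ℕ) : Prop :=
  ∀ (L : Finset ℕ) (y : ℕ), L.card = n → y ∉ L → ∀ f, Full (insert y L) f → eB (sqs {y}) f ∈ P0 → f ∈ P ⊔ I2 y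

/-- `E2 n` : the same with two additional P-letters -/
def E2 (P0 P : AddSubgroup FB) (n : ℕ) : Prop :=
  ∀ (L : Finset ℕ) (y z : ℕ), L.card = n → y ∉ L → z ∉ L → y ≠ z → ∀ f, Full (insert y (insert z L)) f →
    eB (sqs {y, z}) f ∈ P0 → f ∈ NN P y z

end E4.X
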