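import Mathlib

/-!
# XH2 : the value of `K` on `c_4` vanishes (formal part of the closure, helper69)

`f` = the group elements, `t g = K(T_g)`, `n v = v a b + a v b v⁻¹`, `M x g` = the bilinear part of
`T^(g; x a, b)`.  Everything in a ring with `2 = 0`.
-/

set_option linter.unusedSimpArgs false

namespace E4.H

section
variable {S : Type*} [Ring S]

theorem eqc (h2 : ∀ r : S, r + r = 0) {a b : S} (h : a + b = 0) : a = b := by
  calc a = a + (b + b) := by rw [h2, add_zero]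
    _ = b := by rw [← add_assoc, h, zero_add]

theorem z2 (h2 : ∀ r : S, r + r = 0) (r : S) : (2 : ℤ) • r = 0 := by rw [two_zsmul, h2]

theorem z3 (h2 : ∀ r : S, r + r = 0) (r : S) : (3 : ℤ) • r = r := by
  rw [show (3 : ℤ) = 2 + 1 from rfl, add_smul, z2 h2, zero_add, one_smul]

theorem z4 (h2 : ∀ r : S, r + r = 0) (r : S) : (4 : ℤ) • r = 0 := by
  rw [show (4 : ℤ) = 2 + 2 from rfl, add_smul, z2 h2, zero_add]

theorem z5 (h2 : ∀ r : S, r + r = 0) (r : S) : (5 : ℤ) • r = r := by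
  rw [show (5 : ℤ) = 4 + 1 from rfl, add_smul, z4 h2, zero_add, one_smul]

theorem z6 (h2 : ∀ r : S, r + r = 0) (r : S) : (6 : ℤ) • r = 0 := by
  rw [show (6 : ℤ) = 4 + 2 from rfl, add_smul, z4 h2, z2 h2, zero_add]

theorem eqd (h2 : ∀ r : S, r + r = 0) {a b : S} (h : a = b) : a + b = 0 := by rw [h, h2]

variable {Γ : Type*} [Group Γ]

/-- value of `K` on the commutator `[w, v]` -/
def Kc (f : Γ →* S) (t : Γ → S) (w v : Γ) : S := t (w * v) + (t v * f w + f v⁻¹ * t w)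

/-- value of `K` on `u_2` -/
def uq (f : Γ →* S) (t : Γ → S) (g h : Γ) : S :=
  (f g + 1) * ((f h⁻¹ + 1) * t g) + (f h + 1) * ((f g⁻¹ + 1) * t h)

/-- value of `K` on `T^` -/
def tq (f : Γ →* S) (t : Γ → S) (g h y : Γ) : S :=
  uq f t (h * y) g + uq f t h g + uq f t y g + uq f t h g * (f y + 1)
    + (f g + 1) * ((f h + 1) * ((f y⁻¹ + 1) * t h))

/-- value of `K` on `c_4` -/
def cq (f : Γ →* S) (t : Γ → S) (g w h y : Γ) : S :=
  tq f t (g * w) h y + tq f t g h y + tq f t w h y + tq f t g h y * (f w + 1)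

/-- `Z` -/
def Zq (f : Γ →* S) (t n : Γ → S) (h c : Γ) : S :=
  (f h + 1) * (t c * (f h + f h⁻¹)) + ((f h + 1) * t c + n h * (f c + f c⁻¹))

/-- `R` -/
def Rq (f : Γ →* S) (t n : Γ → S) (h y : Γ) : S :=
  n (h * y) + n h + n y + n h * (f y + 1) + (f h + 1) * ((f y⁻¹ + 1) * t h)

/-- the laws -/
structure CL (f : Γ →* S) (t n : Γ → S) (M : Γ → Γ → S) : Prop where
  two : ∀ r : S, r + r = 0
  F1 : ∀ x g w, M x (g * w) = M x g * f w + M x w
  K1 : ∀ g h, uq f t g h + (M g h + (M h g + (n g * (f h + 1) + (f g + 1) * n h))) = 0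
  K5 : ∀ h g, M h g + M h g⁻¹ = Zq f t n h g
  F4 : ∀ w v, f w * n v + n v * f w = Kc f t w v
  U0 : ∀ g y, Kc f t y g = Kc f t g y
  Ua : ∀ g h y, Kc f t g (h * y) = Kc f t g h * f y + f h * Kc f t g y
  Uc : ∀ g c, t (g * c * g⁻¹) * f g = f g * t c
  Ud : ∀ u v c, (f u * f v + f v * f u) * t c = Kc f t u v * (f c + f c⁻¹)
  Ue : ∀ h g c, (f h + 1) * (t (g * c * g⁻¹) * ((f h + f h⁻¹) * f g)) = f g * ((f h + 1) * (t c * (f h + f h⁻¹)))
  Ub : ∀ h y w, f w * ((f h + 1) * ((f y⁻¹ + 1) * t h)) + (f h + 1) * ((f y⁻¹ + 1) * (t h * f w)) =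
    (f h + 1) * (t (w * y) * (f h + f h⁻¹)) + ((f h + 1) * (t y * ((f h + f h⁻¹) * f w)) +
      f y⁻¹ * ((f h + 1) * (t w * (f h + f h⁻¹))))

variable {f : Γ →* S} {t n : Γ → S} {M : Γ → Γ → S}

theorem uq_eq (H : CL f t n M) (g h : Γ) : uq f t g h = M g h + (M h g + (n g * (f h + 1) + (f g + 1) * n h)) :=
  eqc H.two (H.K1 g h)

/-- the value of `K` on `T^` -/
theorem tq_eq (H : CL f t n M) (g h y : Γ) :
    tq f t g h y = M (h * y) g + (M h g + (M y g + (M h g * (f y + 1) + (f g + 1) * Rq f t n h y))) := by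
  have e1 := eqd H.two (H.F4 g (h * y))
  have e2 := eqd H.two (H.F4 g y)
  have e3 := eqd H.two (H.F4 g h)
  have e4 := eqd H.two (H.F4 y g)
  have e5 := eqd H.two (H.Ua g h y)
  have e6 := eqd H.two (H.U0 g y)
  have key : tq f t g h y + (M (h * y) g + (M h g + (M y g + (M h g * (f y + 1) + (f g + 1) * Rq f t n h y)))) =
      (f g * n (h * y) + n (h * y) * f g + Kc f t g (h * y)) + (f g * n y + n y * f g + Kc f t g y)
        + (f g * n h + n h * f g + Kc f t g h) * f y + (f h + 1) * (f y * n g + n g * f y + Kc f t y g)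
        + (Kc f t g (h * y) + (Kc f t g h * f y + f h * Kc f t g y)) + (f h + 1) * (Kc f t y g + Kc f t g y) := by
    apply eqc H.two
    rw [tq, uq_eq H, uq_eq H, uq_eq H, H.F1, Rq]
    simp only [map_mul, mul_add, add_mul, mul_one, one_mul, mul_assoc]
    abel_nf
    simp only [z2 H.two, z4 H.two, add_zero, zero_add]
  rw [e1, e2, e3, e4, e5, e6] at key
  apply eqc H.two
  rw [key]
  simp only [zero_mul, mul_zero, add_zero]

theorem gc_eq (H : CL f t n M) (g c h : Γ) : Zq f t n h (g * c * g⁻¹) * f g = f g * Zq f t n h c := by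
  have e1 := eqd H.two (H.Ue h g c)
  have e2 := eqd H.two (H.Uc g c)
  have e3 := eqd H.two (H.Ud h g c)
  have e4 := eqd H.two (H.F4 g h)
  have e5 := eqd H.two (H.U0 g h)
  have e6 : f (g * c * g⁻¹) * f g = f g * f c := by rw [← map_mul, ← map_mul, inv_mul_cancel_right]
  have e7 : f (g * c * g⁻¹)⁻¹ * f g = f g * f c⁻¹ := by
    rw [← map_mul, ← map_mul]
    congr 1
    group
  have key : Zq f t n h (g * c * g⁻¹) * f g + f g * Zq f t n h c =
      ((f h + 1) * (t (g * c * g⁻¹) * ((f h + f h⁻¹) * f g)) + f g * ((f h + 1) * (t c * (f h + f h⁻¹))))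
      + (f h + 1) * (t (g * c * g⁻¹) * f g + f g * t c)
      + ((f h * f g + f g * f h) * t c + Kc f t h g * (f c + f c⁻¹))
      + (f g * n h + n h * f g + Kc f t g h) * (f c + f c⁻¹)
      + (Kc f t h g + Kc f t g h) * (f c + f c⁻¹)
      + n h * ((f (g * c * g⁻¹) * f g + f g * f c) + (f (g * c * g⁻¹)⁻¹ * f g + f g * f c⁻¹)) := by
    apply eqc H.two
    rw [Zq, Zq]
    simp only [mul_add, add_mul, mul_one, one_mul, mul_assoc]
    abel_nf
    simp only [z2 H.two, z4 H.two, add_zero, zero_add]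
  rw [e1, e2, e3, e4, e5, eqd H.two e6, eqd H.two e7] at key
  apply eqc H.two
  rw [key]
  simp only [zero_mul, mul_zero, add_zero]

/-- Step B -/
theorem MT_eq (H : CL f t n M) (h g c : Γ) : M h g * (f c + f c⁻¹) = (f g + 1) * Zq f t n h c := by
  have a1 := H.F1 h g c
  have a2 := H.F1 h g c⁻¹
  have b1 := H.F1 h (g * c * g⁻¹) g
  have b2 := H.F1 h (g * c * g⁻¹)⁻¹ g
  have c1 : g * c * g⁻¹ * g = g * c := by group
  have c2 : (g * c * g⁻¹)⁻¹ * g = g * c⁻¹ := by group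
  rw [c1] at b1
  rw [c2] at b2
  have d1 := eqd H.two (H.K5 h c)
  have d2 := eqd H.two (H.K5 h (g * c * g⁻¹))
  have d3 := eqd H.two (gc_eq H g c h)
  have key : M h g * (f c + f c⁻¹) + (f g + 1) * Zq f t n h c =
      (M h (g * c) + (M h g * f c + M h c)) + (M h (g * c⁻¹) + (M h g * f c⁻¹ + M h c⁻¹)) +
      (M h (g * c) + (M h (g * c * g⁻¹) * f g + M h g)) + (M h (g * c⁻¹) + (M h (g * c * g⁻¹)⁻¹ * f g + M h g)) +
      (M h c + M h c⁻¹ + Zq f t n h c) +
      (M h (g * c * g⁻¹) + M h (g * c * g⁻¹)⁻¹ + Zq f t n h (g * c * g⁻¹)) * f g +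
      (Zq f t n h (g * c * g⁻¹) * f g + f g * Zq f t n h c) := by
    apply eqc H.two
    simp only [mul_add, add_mul, mul_one, one_mul, mul_assoc]
    abel_nf
    simp only [z2 H.two, z4 H.two, add_zero, zero_add]
  rw [eqd H.two a1, eqd H.two a2, eqd H.two b1, eqd H.two b2, d1, d2, d3] at key
  apply eqc H.two
  rw [key]
  simp only [zero_mul, mul_zero, add_zero]

/-- Step C -/
theorem MyT_eq (H : CL f t n M) (h g y w : Γ) :
    M h g * (f y⁻¹ * (f w + f w⁻¹)) = (f g + 1) * (f y⁻¹ * Zq f t n h w) := by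
  have a1 := eqd H.two (H.F1 h g y⁻¹)
  have a2 := eqd H.two (MT_eq H h (g * y⁻¹) w)
  have a3 := eqd H.two (MT_eq H h y⁻¹ w)
  rw [map_mul] at a2
  have key : M h g * (f y⁻¹ * (f w + f w⁻¹)) + (f g + 1) * (f y⁻¹ * Zq f t n h w) =
      (M h (g * y⁻¹) + (M h g * f y⁻¹ + M h y⁻¹)) * (f w + f w⁻¹) +
      (M h (g * y⁻¹) * (f w + f w⁻¹) + (f g * f y⁻¹ + 1) * Zq f t n h w) +
      (M h y⁻¹ * (f w + f w⁻¹) + (f y⁻¹ + 1) * Zq f t n h w) := by
    apply eqc H.two
    simp only [mul_add, add_mul, mul_one, one_mul, mul_assoc]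
    abel_nf
    simp only [z2 H.two, z4 H.two, add_zero, zero_add]
  rw [a1, a2, a3] at key
  apply eqc H.two
  rw [key]
  simp only [zero_mul, mul_zero, add_zero]

/-- the commutator as a combination of `T`s -/
theorem com_eq (h2 : ∀ r : S, r + r = 0) (f : Γ →* S) (w y : Γ) :
    f w * f y + f y * f w = (f (w * y) + f (w * y)⁻¹) + ((f y + f y⁻¹) * f w + f y⁻¹ * (f w + f w⁻¹)) := by
  apply eqc h2
  rw [mul_inv_rev]
  simp only [map_mul, mul_add, add_mul, mul_one, one_mul, mul_assoc]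
  abel_nf
  simp only [z2 h2, z4 h2, add_zero, zero_add]

/-- Step D -/
theorem MC_eq (H : CL f t n M) (h g w y : Γ) :
    M h g * (f w * f y + f y * f w) =
      (f g + 1) * (Zq f t n h (w * y) + (Zq f t n h y * f w + f y⁻¹ * Zq f t n h w)) := by
  have a1 := MT_eq H h g (w * y)
  have a2 := MT_eq H h g y
  have a3 := MyT_eq H h g y w
  rw [com_eq H.two, mul_add, a1, mul_add, ← mul_assoc (M h g), a2, a3, mul_assoc, ← mul_add, ← mul_add]

/-- Step E -/
theorem RC_eq (H : CL f t n M) (h w y : Γ) :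
    f w * Rq f t n h y + Rq f t n h y * f w =
      Zq f t n h (w * y) + (Zq f t n h y * f w + f y⁻¹ * Zq f t n h w) := by
  have a1 := eqd H.two (H.F4 w (h * y))
  have a2 := eqd H.two (H.F4 w h)
  have a3 := eqd H.two (H.F4 w y)
  have a4 := eqd H.two (H.Ua w h y)
  have a5 := eqd H.two (H.Ub h y w)
  have a6 := eqd H.two (H.Ud h y⁻¹ w)
  have a7 := eqd H.two (H.F4 y⁻¹ h)
  have a8 := eqd H.two (H.U0 y⁻¹ h)
  have a9 := eqd H.two (com_eq H.two f w y)
  have key : f w * Rq f t n h y + Rq f t n h y * f w +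
      (Zq f t n h (w * y) + (Zq f t n h y * f w + f y⁻¹ * Zq f t n h w)) =
      (f w * n (h * y) + n (h * y) * f w + Kc f t w (h * y)) +
      (f w * n h + n h * f w + Kc f t w h) +
      (f w * n y + n y * f w + Kc f t w y) +
      (f w * n h + n h * f w + Kc f t w h) * (f y + 1) +
      (Kc f t w (h * y) + (Kc f t w h * f y + f h * Kc f t w y)) +
      (f w * ((f h + 1) * ((f y⁻¹ + 1) * t h)) + (f h + 1) * ((f y⁻¹ + 1) * (t h * f w)) +
        ((f h + 1) * (t (w * y) * (f h + f h⁻¹)) + ((f h + 1) * (t y * ((f h + f h⁻¹) * f w)) +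
      f y⁻¹ * ((f h + 1) * (t w * (f h + f h⁻¹)))))) +
      n h * (f w * f y + f y * f w + ((f (w * y) + f (w * y)⁻¹) + ((f y + f y⁻¹) * f w + f y⁻¹ * (f w + f w⁻¹)))) +
      ((f h * f y⁻¹ + f y⁻¹ * f h) * t w + Kc f t h y⁻¹ * (f w + f w⁻¹)) +
      (f y⁻¹ * n h + n h * f y⁻¹ + Kc f t y⁻¹ h) * (f w + f w⁻¹) +
      (Kc f t h y⁻¹ + Kc f t y⁻¹ h) * (f w + f w⁻¹) +
      (f h + 1) * (Kc f t w y + (t (w * y) + (t y * f w + f y⁻¹ * t w))) := by
    apply eqc H.two
    rw [Zq, Zq, Zq, Rq]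
    simp only [mul_add, add_mul, mul_one, one_mul, mul_assoc]
    abel_nf
    simp only [z2 H.two, z4 H.two, z6 H.two, add_zero, zero_add]
  have a10 : Kc f t w y + (t (w * y) + (t y * f w + f y⁻¹ * t w)) = 0 := H.two _
  rw [a1, a2, a3, a4, a5, a6, a7, a8, a9, a10] at key
  apply eqc H.two
  rw [key]
  simp only [zero_mul, mul_zero, add_zero]

/-- **the value of `K` on `c_4` vanishes** -/
theorem cq_eq (H : CL f t n M) (g w h y : Γ) : cq f t g w h y = 0 := by
  have a1 := eqd H.two (H.F1 (h * y) g w)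
  have a2 := eqd H.two (H.F1 h g w)
  have a3 := eqd H.two (H.F1 y g w)
  have a4 := eqd H.two (MC_eq H h g w y)
  have a5 := eqd H.two (RC_eq H h w y)
  have key : cq f t g w h y =
      (M (h * y) (g * w) + (M (h * y) g * f w + M (h * y) w)) +
      (M h (g * w) + (M h g * f w + M h w)) +
      (M y (g * w) + (M y g * f w + M y w)) +
      (M h (g * w) + (M h g * f w + M h w)) * (f y + 1) +
      (M h g * (f w * f y + f y * f w) +
        (f g + 1) * (Zq f t n h (w * y) + (Zq f t n h y * f w + f y⁻¹ * Zq f t n h w))) +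
      (f g + 1) * (f w * Rq f t n h y + Rq f t n h y * f w +
        (Zq f t n h (w * y) + (Zq f t n h y * f w + f y⁻¹ * Zq f t n h w))) := by
    apply eqc H.two
    rw [cq, tq_eq H, tq_eq H, tq_eq H]
    generalize Rq f t n h y = r
    generalize (Zq f t n h (w * y) + (Zq f t n h y * f w + f y⁻¹ * Zq f t n h w)) = s
    simp only [map_mul, mul_add, add_mul, mul_one, one_mul, mul_assoc]
    abel_nf
    simp only [z2 H.two, z4 H.two, z6 H.two, add_zero, zero_add]
  rw [a1, a2, a3, a4, a5] at key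
  rw [key]
  simp only [zero_mul, mul_zero, add_zero]

end

end E4.H
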