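import Pool.Agent.Lib.MP_8a95e3_al.XK1
import Pool.Agent.Lib.MP_8a95e3_al.XC

/-!
# XK2 : `K(y,z)` maps `P` into `NN P y z`
-/

noncomputable section

namespace E4.X

open E4

theorem XK2_PG_TI (R : Set FB) : TI (PG R) where
  left a p hp := (idl_bi _).mul_left a hp
  right a p hp := (idl_bi _).mul_right a hp
  endo φ p hp := by
    refine eB_idl (idl_bi _) φ ?_ hp
    rintro s (⟨h, rfl⟩ | ⟨ψ, s, hs, rfl⟩)
    · rw [map_pow, eB_C]
      exact sub_idl (Or.inl ⟨φ h, rfl⟩)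
    · rw [eB_comp]
      exact sub_idl (Or.inr ⟨φ.comp ψ, s, hs, rfl⟩)
  cube h := sub_idl (Or.inl ⟨h, rfl⟩)

theorem kp_add {y z : ℕ} {w w' k k' : FB} (h : (w, k) ∈ KP y z) (h' : (w', k') ∈ KP y z) :
    (w + w', k + k') ∈ KP y z := by
  have e := (KP y z).add_mem h h'
  rw [Prod.mk_add_mk] at e
  exact e

theorem kp_mem {y z : ℕ} (u g v : F) : (o u * T g * o v, o u * tau y z g * o v) ∈ KP y z :=
  AddSubgroup.subset_closure ⟨u, g, v, rfl⟩

theorem kp_neg {y z : ℕ} {w k : FB} (h : (w, k) ∈ KP y z) : (-w, -k) ∈ KP y z := by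
  have e := (KP y z).neg_mem h
  rw [Prod.neg_mk] at e
  exact e

theorem kp_zero (y z : ℕ) : ((0 : FB), (0 : FB)) ∈ KP y z := (KP y z).zero_mem

theorem kp_mul {y z : ℕ} (a b : F) {w k : FB} (h : (w, k) ∈ KP y z) : (o a * w * o b, o a * k * o b) ∈ KP y z := by
  have key : ∀ r ∈ KP y z, (o a * r.1 * o b, o a * r.2 * o b) ∈ KP y z := by
    intro r hr
    unfold KP at hr
    induction hr using AddSubgroup.closure_induction with
    | mem r hr =>
      obtain ⟨u, g, v, rfl⟩ := hr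
      have e := kp_mem (y := y) (z := z) (a * u) g (v * b)
      rw [map_mul, map_mul] at e
      dsimp only
      simp only [mul_assoc] at e ⊢
      exact e
    | zero =>
      rw [Prod.fst_zero, Prod.snd_zero, mul_zero, zero_mul]
      exact kp_zero y z
    | add c d _ _ hc hd =>
      rw [Prod.fst_add, Prod.snd_add, mul_add, mul_add, add_mul, add_mul]
      exact kp_add hc hd
    | neg c _ hc =>
      rw [Prod.fst_neg, Prod.snd_neg, mul_neg, mul_neg, neg_mul, neg_mul]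
      exact kp_neg hc
  exact key (w, k) h

theorem eB_tau (ψ : F →* F) {p q y z : ℕ} (hp : ψ (x p) = x y) (hq : ψ (x q) = x z) (g : F) :
    eB ψ (tau p q g) = tau y z (ψ g) := by
  unfold tau Xl
  simp only [map_add, map_mul, eB_o, eB_C, hp, hq, map_inv ψ]

theorem eB_KP (ψ : F →* F) {p q y z : ℕ} (hp : ψ (x p) = x y) (hq : ψ (x q) = x z) {w k : FB} (h : (w, k) ∈ KP p q) :
    (eB ψ w, eB ψ k) ∈ KP y z := by
  have key : ∀ r ∈ KP p q, (eB ψ r.1, eB ψ r.2) ∈ KP y z := by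
    intro r hr
    unfold KP at hr
    induction hr using AddSubgroup.closure_induction with
    | mem r hr =>
      obtain ⟨u, g, v, rfl⟩ := hr
      show (eB ψ (o u * T g * o v), eB ψ (o u * tau p q g * o v)) ∈ KP y z
      rw [map_mul, map_mul, map_mul, map_mul, eB_T, eB_o, eB_o, eB_tau ψ hp hq]
      exact kp_mem _ _ _
    | zero =>
      rw [Prod.fst_zero, Prod.snd_zero, map_zero]
      exact kp_zero y z
    | add c d _ _ hc hd =>
      rw [Prod.fst_add, Prod.snd_add, map_add, map_add]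
      exact kp_add hc hd
    | neg c _ hc =>
      rw [Prod.fst_neg, Prod.snd_neg, map_neg, map_neg]
      exact kp_neg hc
  exact key (w, k) h

/-- change of the P-letters -/
theorem eB_NN' {P : AddSubgroup FB} (h : TI P) {p q y z : ℕ} (ψ : F →* F) (hp : ψ (x p) = x y) (hq : ψ (x q) = x z)
    {f : FB} (hf : f ∈ NN P p q) : eB ψ f ∈ NN P y z := by
  have h1 : P ⊔ I2 p ⊔ I2 q ⊔ EI p q ≤ (NN P y z).comap (eB ψ).toAddMonoidHom := by
    refine sup_le (sup_le (sup_le ?_ ?_) ?_) ?_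
    · intro r hr
      exact (le_sup_left.trans (le_sup_left.trans le_sup_left) : P ≤ P ⊔ I2 y ⊔ I2 z ⊔ EI y z) (h.endo ψ r hr)
    · intro r hr
      refine eB_idl (NN_bi h y z) ψ ?_ hr
      rintro s ⟨a, rfl⟩
      refine (le_sup_right.trans (le_sup_left.trans le_sup_left) : I2 y ≤ P ⊔ I2 y ⊔ I2 z ⊔ EI y z) ?_
      refine sub_idl ⟨ψ a, ?_⟩
      unfold Xl
      rw [map_mul, map_mul, eB_C, eB_o, hp]
    · intro r hr
      refine eB_idl (NN_bi h y z) ψ ?_ hr
      rintro s ⟨a, rfl⟩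
      refine (le_sup_right.trans le_sup_left : I2 z ≤ P ⊔ I2 y ⊔ I2 z ⊔ EI y z) ?_
      refine sub_idl ⟨ψ a, ?_⟩
      unfold Xl
      rw [map_mul, map_mul, eB_C, eB_o, hq]
    · intro r hr
      refine eB_idl (NN_bi h y z) ψ ?_ hr
      rintro s ⟨g, rfl⟩
      refine (le_sup_right : EI y z ≤ P ⊔ I2 y ⊔ I2 z ⊔ EI y z) ?_
      refine sub_idl ⟨ψ g, ?_⟩
      unfold ee Xl
      simp only [map_add, map_mul, eB_C, eB_T, hp, hq]
  exact h1 hf

theorem NK_le {P : AddSubgroup FB} (h : TI P) (y z : ℕ) : NK y z ≤ NN P y z := by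
  unfold NK NN
  exact (sup_le_sup (sup_le_sup (K0_le h) le_rfl) le_rfl).trans le_sup_left

/-- the cubes -/
theorem kp_cube (y z : ℕ) (h : F) : (C h ^ 3, C h * o h * tau y z h) ∈ KP y z := by
  have e := kp_add (kp_mem (y := y) (z := z) (h * h) h 1) (kp_mem (y := y) (z := z) h h 1)
  have e1 : o (h * h) * T h * o 1 + o h * T h * o 1 = C h ^ 3 := by
    have hh : o h * o h⁻¹ = 1 := by rw [← map_mul, mul_inv_cancel, map_one]
    have e2 : o (h * h) * T h * o 1 + o h * T h * o 1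
        = o h ^ 3 + o h * (o h * o h⁻¹) + o h ^ 2 + o h * o h⁻¹ := by
      unfold T
      rw [map_mul, map_one]
      noncomm_ring
    have e3 : C h ^ 3 = o h ^ 3 + o h + o h ^ 2 + 1 + ((o h ^ 2 + o h ^ 2) + (o h + o h)) := by
      unfold C
      noncomm_ring
    rw [e2, e3, hh, fb_add_self, fb_add_self, mul_one, add_zero, add_zero]
  have e2 : o (h * h) * tau y z h * o 1 + o h * tau y z h * o 1 = C h * o h * tau y z h := by
    unfold C
    rw [map_mul, map_one]
    noncomm_ring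
  rw [e1, e2] at e
  exact e

/-- **kwd** -/
theorem kwd_PG {R : Set FB} (hR : ∀ r ∈ R, eB (ret (Finset.range 4)) r = r)
    (hT : ∀ y z : ℕ, y ≠ z → TauLaws y z)
    (hcube : ∀ y z : ℕ, y ≠ z → ∀ h : F, C h * o h * tau y z h ∈ NN (PG R) y z)
    (hcl : ∀ r ∈ R, ∃ k, (r, k) ∈ KP 4 5 ∧ k ∈ NN (PG R) 4 5)
    {y z : ℕ} (hyz : y ≠ z) {w k : FB} (hk : (w, k) ∈ KP y z) (hw : w ∈ PG R) : k ∈ NN (PG R) y z := by
  have hex : ∀ w ∈ PG R, ∃ k', (w, k') ∈ KP y z ∧ k' ∈ NN (PG R) y z := by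
    clear hw hk
    intro w hw
    unfold PG idl at hw
    induction hw using AddSubgroup.closure_induction with
    | mem w hw =>
      obtain ⟨a, b, s, hs, rfl⟩ := hw
      have h1 : ∃ k', (s, k') ∈ KP y z ∧ k' ∈ NN (PG R) y z := by
        rcases hs with ⟨h, rfl⟩ | ⟨φ, s, hs, rfl⟩
        · exact ⟨_, kp_cube y z h, hcube y z hyz h⟩
        · obtain ⟨k', h1, h2⟩ := hcl s hs
          obtain ⟨ψ, hψ⟩ : ∃ ψ : F →* F, ∀ i, ψ (x i) = if i = 4 then x y else if i = 5 then x z else φ (x i) :=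
            ⟨FreeGroup.lift fun i => if i = 4 then x y else if i = 5 then x z else φ (x i), fun i => by simp [x]⟩
          have h4 : ψ (x 4) = x y := by rw [hψ, if_pos rfl]
          have h5 : ψ (x 5) = x z := by rw [hψ, if_neg (by norm_num), if_pos rfl]
          have e : eB ψ s = eB φ s := by
            have e1 : ψ.comp (ret (Finset.range 4)) = φ.comp (ret (Finset.range 4)) := by
              refine hom_ext fun i => ?_
              rw [MonoidHom.comp_apply, MonoidHom.comp_apply, ret_x]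
              by_cases hi : i ∈ Finset.range 4
              · rw [if_pos hi, hψ, if_neg, if_neg]
                · rintro rfl
                  simp at hi
                · rintro rfl
                  simp at hi
              · rw [if_neg hi, map_one, map_one]
            rw [← hR s hs, eB_comp, eB_comp, e1]
          refine ⟨eB ψ k', ?_, eB_NN' (XK2_PG_TI R) ψ h4 h5 h2⟩
          rw [← e]
          exact eB_KP ψ h4 h5 h1
      obtain ⟨k', h2, h3⟩ := h1
      exact ⟨o a * k' * o b, kp_mul a b h2, (NN_bi (XK2_PG_TI R) y z).right _ _ ((NN_bi (XK2_PG_TI R) y z).left _ _ h3)⟩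
    | zero => exact ⟨0, kp_zero y z, AddSubgroup.zero_mem _⟩
    | add a b _ _ ha hb =>
      obtain ⟨k1, h1, h2⟩ := ha
      obtain ⟨k2, h3, h4⟩ := hb
      exact ⟨k1 + k2, kp_add h1 h3, AddSubgroup.add_mem _ h2 h4⟩
    | neg a _ ha =>
      obtain ⟨k1, h1, h2⟩ := ha
      exact ⟨-k1, kp_neg h1, AddSubgroup.neg_mem _ h2⟩
  obtain ⟨k', h1, h2⟩ := hex w hw
  have e := kp_add hk h1
  rw [fb_add_self] at e
  have e2 := NK_le (XK2_PG_TI R) y z (kp_unique (hT y z hyz) e)
  have e3 := AddSubgroup.add_mem _ e2 h2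
  rwa [add_assoc, fb_add_self, add_zero] at e3

theorem ret_RG : ∀ r ∈ RG, eB (ret (Finset.range 4)) r = r := by
  have h0 : ret (Finset.range 4) (x 0) = x 0 := by simp
  have h1 : ret (Finset.range 4) (x 1) = x 1 := by simp
  have h2 : ret (Finset.range 4) (x 2) = x 2 := by simp
  have h3 : ret (Finset.range 4) (x 3) = x 3 := by simp
  rintro r (rfl | rfl | rfl)
  · simp only [t2, map_mul, eB_C, eB_T, h0, h1]
  · simp only [c3, kap, nuT, map_add, map_mul, eB_C, eB_T, eB_o, h0, h1, h2, map_inv]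
  · simp only [c4, tt, u2, map_add, map_mul, eB_C, eB_T, h0, h1, h2, h3, map_inv]

/-- **kwd** for `PG RG` -/
theorem kwd_RG (hT : ∀ y z : ℕ, y ≠ z → TauLaws y z)
    (hcube : ∀ y z : ℕ, y ≠ z → ∀ h : F, C h * o h * tau y z h ∈ NN (PG RG) y z)
    (hcl : ∀ r ∈ RG, ∃ k, (r, k) ∈ KP 4 5 ∧ k ∈ NN (PG RG) 4 5) :
    ∀ y z : ℕ, y ≠ z → ∀ w k : FB, (w, k) ∈ KP y z → w ∈ PG RG → k ∈ NN (PG RG) y z :=
  fun _ _ hyz _ _ hk hw => kwd_PG ret_RG hT hcube hcl hyz hk hw

end E4.X
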