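import Pool.Agent.Lib.MP_8a95e3_al.I06
import Pool.Agent.Lib.MP_8a95e3_al.XK2
import Pool.Agent.Lib.MP_8a95e3_al.XH2

/-!
# XH1 : the graph `KP` and the quotient ring (helper69)
-/

noncomputable section

namespace E4.X

open E4

/-- multiplication by arbitrary elements -/
theorem kp_gen {y z : ℕ} {w k : FB} (h : (w, k) ∈ KP y z) (A B : FB) : (A * w * B, A * k * B) ∈ KP y z := by
  induction A using fb_ind with
  | h1 a =>
    induction B using fb_ind with
    | h1 b => exact kp_mul a b h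
    | h0 => rw [mul_zero, mul_zero]; exact kp_zero y z
    | h2 u v hu hv => rw [mul_add, mul_add]; exact kp_add hu hv
  | h0 => rw [zero_mul, zero_mul, zero_mul, zero_mul]; exact kp_zero y z
  | h2 u v hu hv =>
    rw [add_mul, add_mul, add_mul, add_mul]
    exact kp_add hu hv

theorem kp_l {y z : ℕ} {w k : FB} (h : (w, k) ∈ KP y z) (A : FB) : (A * w, A * k) ∈ KP y z := by
  have e := kp_gen h A 1
  rwa [mul_one, mul_one] at e

theorem kp_r {y z : ℕ} {w k : FB} (h : (w, k) ∈ KP y z) (B : FB) : (w * B, k * B) ∈ KP y z := by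
  have e := kp_gen h 1 B
  rwa [one_mul, one_mul] at e

theorem kp_T (y z : ℕ) (g : F) : (T g, tau y z g) ∈ KP y z := by
  have e := kp_mem (y := y) (z := z) 1 g 1
  rwa [map_one, one_mul, mul_one, one_mul, mul_one] at e

theorem PG_empty : PG ∅ = K0 := by
  unfold PG K0
  congr 1
  ext r
  simp

/-- well-definedness of `K` modulo the cubes -/
theorem kwd0 {y z : ℕ} (hyz : y ≠ z) {w k : FB} (hk : (w, k) ∈ KP y z) (hw : w ∈ K0) : k ∈ NN K0 y z := by
  have e := kwd_PG (R := ∅) (by simp) (fun y z _ => tauLaws y z)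
    (fun y z _ h => hcube_of (XK2_PG_TI ∅) y z h) (by simp) hyz hk (by rw [PG_empty]; exact hw)
  rwa [PG_empty] at e

section
variable {P : AddSubgroup FB} (h : TI P) (y z : ℕ)

/-- the projection modulo `NN P y z` -/
abbrev pn (h : TI P) (y z : ℕ) : FB →+* QR (NN P y z) (NN_bi h y z) := qm (NN P y z) (NN_bi h y z)

theorem pn_P {r : FB} (hr : r ∈ P) : pn h y z r = 0 :=
  (qm_zero _ _).2 (AddSubgroup.mem_sup_left (AddSubgroup.mem_sup_left (AddSubgroup.mem_sup_left hr)))

theorem pn_two (r : QR (NN P y z) (NN_bi h y z)) : r + r = 0 := q_two _ r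

theorem pn_cube (u : (QR (NN P y z) (NN_bi h y z))ˣ) (hu : u ∈ qG _ (NN_bi h y z)) : ((u : QR (NN P y z) (NN_bi h y z)) + 1) ^ 3 = 0 :=
  q_cube _ (fun g => AddSubgroup.mem_sup_left (AddSubgroup.mem_sup_left (AddSubgroup.mem_sup_left (h.cube g)))) u hu

theorem pn_PLy : E4.RC.PL (qG _ (NN_bi h y z)) (pn h y z (Xl y)) :=
  q_PL _ _ fun v => AddSubgroup.mem_sup_left (AddSubgroup.mem_sup_left (AddSubgroup.mem_sup_right (I2_mem y v)))

theorem pn_PLz : E4.RC.PL (qG _ (NN_bi h y z)) (pn h y z (Xl z)) :=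
  q_PL _ _ fun v => AddSubgroup.mem_sup_left (AddSubgroup.mem_sup_right (I2_mem z v))

theorem pn_ee (g : F) : pn h y z (ee g y z) = 0 :=
  (qm_zero _ _).2 (AddSubgroup.mem_sup_right (sub_idl ⟨g, rfl⟩))

end

section
variable {P : AddSubgroup FB} (h : TI P) {y z : ℕ} (hyz : y ≠ z)

include hyz in
/-- two lifts of the same element modulo the cubes have the same value -/
theorem kp_eq {w k w' k' : FB} (hk : (w, k) ∈ KP y z) (hk' : (w', k') ∈ KP y z) (e : w + w' ∈ K0) :
    pn h y z k = pn h y z k' := by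
  have e1 := kwd0 hyz (kp_add hk hk') e
  have e2 : pn h y z (k + k') = 0 := by
    refine (qm_zero _ _).2 ?_
    have hle : NN K0 y z ≤ NN P y z := by
      unfold NN
      exact sup_le_sup (sup_le_sup (sup_le_sup (K0_le h) le_rfl) le_rfl) le_rfl
    exact hle e1
  rw [map_add] at e2
  exact E4.H.eqc (pn_two h y z) e2

include hyz in
theorem kp_eq' {w k w' k' : FB} (hk : (w, k) ∈ KP y z) (hk' : (w', k') ∈ KP y z) (e : w = w') :
    pn h y z k = pn h y z k' := by
  refine kp_eq h hyz hk hk' ?_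
  rw [e, fb_add_self]
  exact zero_mem _

end

/-- value of `K` on a commutator -/
def KcF (y z : ℕ) (w v : F) : FB := tau y z (w * v) + (tau y z v * o w + o v⁻¹ * tau y z w)

theorem kp_com (y z : ℕ) (w v : F) : (o w * o v + o v * o w, KcF y z w v) ∈ KP y z := by
  have e := kp_add (kp_T y z (w * v)) (kp_add (kp_r (kp_T y z v) (o w)) (kp_l (kp_T y z w) (o v⁻¹)))
  have e1 := E4.H.com_eq fb_add_self o w v
  have e2 : T (w * v) + (T v * o w + o v⁻¹ * T w) = o w * o v + o v * o w := e1.symm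
  rw [e2] at e
  exact e

end E4.X
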