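import Pool.Agent.Lib.MP_8a95e3_al.XH1
import Pool.Agent.Lib.MP_8a95e3_al.RK.H_F1e
import Pool.Agent.Lib.MP_8a95e3_al.RK.H_K1h
import Pool.Agent.Lib.MP_8a95e3_al.RK.H_K5h
import Pool.Agent.Lib.MP_8a95e3_al.RK.H_F4
import Pool.Agent.Lib.MP_8a95e3_al.RK.H_b1
import Pool.Agent.Lib.MP_8a95e3_al.RK.H_Th2

/-!
# XH3 : `K` maps `c_4` to zero (helper69)
-/

noncomputable section

namespace E4.X

open E4

/-- evaluation of `tt` in a quotient -/
theorem qm_ttR {W : AddSubgroup FB} (hb : Bi W) (g u v : F) :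
    qm W hb (tt g u v) = E4.RC.ttR (qm W hb (o g)) (qm W hb (o g⁻¹)) (qm W hb (o u)) (qm W hb (o u⁻¹))
      (qm W hb (o v)) (qm W hb (o v⁻¹)) := by
  have m : ∀ u v : FB, qm W hb (u * v) = qm W hb u * qm W hb v := map_mul _
  have mo : ∀ u v : F, o (u * v) = o u * o v := map_mul o
  simp only [tt, u2, E4.RC.ttR, E4.RC.u2R, map_add, m, qm_T, qm_C, mul_inv_rev, mo, mul_assoc]

section
variable {P : AddSubgroup FB} (h : TI P) (y z : ℕ)

/-- the P-letter as a group element -/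
theorem pn_y : pn h y z (o (x y)) = 1 + pn h y z (Xl y) ∧ pn h y z (o (x y)⁻¹) = 1 + pn h y z (Xl y) :=
  ⟨qm_let _ _, qm_let' _ _ (pn_PLy h y z).sq⟩

theorem pn_z : pn h y z (o (x z)) = 1 + pn h y z (Xl z) ∧ pn h y z (o (x z)⁻¹) = 1 + pn h y z (Xl z) :=
  ⟨qm_let _ _, qm_let' _ _ (pn_PLz h y z).sq⟩

/-- the homomorphism to the units of the quotient -/
abbrev pu (h : TI P) (y z : ℕ) : F →* (QR (NN P y z) (NN_bi h y z))ˣ := qu (NN P y z) (NN_bi h y z)

theorem pu_mem (g : F) : pu h y z g ∈ qG _ (NN_bi h y z) := qu_mem _ g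

/-- `M x g` -/
def Mx (h : TI P) (y z : ℕ) (a g : F) : QR (NN P y z) (NN_bi h y z) :=
  E4.RC.Nh (pn h y z (Xl y)) (pn h y z (Xl z)) (pu h y z a) (pu h y z g)

theorem Mx_eq (a g : F) : Mx h y z a g = pn h y z (tt g (a * x y) (x z)) + pn h y z (tt g a (x z)) := by
  have e := E4.RC.H_F1e (pn_two h y z) (pn_cube h y z) (pu_mem h y z a) (pu_mem h y z g) (pn_PLy h y z) (pn_PLz h y z)
  rw [Mx, ← e, qm_ttR, qm_ttR, mul_inv_rev, map_mul, map_mul, map_mul, map_mul]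
  rw [(pn_y h y z).1, (pn_y h y z).2, (pn_z h y z).1, (pn_z h y z).2]
  rfl

/-- the law (F1) -/
theorem Mx_F1 (hc4 : ∀ g w u v : F, c4 g w u v ∈ P) (a g w : F) :
    Mx h y z a (g * w) = Mx h y z a g * pn h y z (o w) + Mx h y z a w := by
  have e1 := pn_P h y z (hc4 g w (a * x y) (x z))
  have e2 := pn_P h y z (hc4 g w a (x z))
  have e3 : pn h y z (c4 g w (a * x y) (x z) + c4 g w a (x z)) = 0 := by rw [map_add, e1, e2, add_zero]
  rw [c4, c4] at e3
  simp only [map_add, map_mul (pn h y z), C, map_one] at e3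
  rw [Mx_eq, Mx_eq, Mx_eq]
  apply E4.H.eqc (pn_two h y z)
  rw [← e3]
  simp only [mul_add, add_mul, mul_one]
  apply E4.H.eqc (pn_two h y z)
  abel_nf
  simp only [E4.H.z2 (pn_two h y z), add_zero]

theorem pn_tau (g : F) : pn h y z (tau y z g) =
    E4.RC.tau (pn h y z (Xl y)) (pn h y z (Xl z)) (pu h y z g) := qm_tau _ y z g

theorem pn_eo (g : F) : E4.RC.eo (pn h y z (Xl y)) (pn h y z (Xl z)) (pu h y z g) = 0 := by
  rw [← pn_ee h y z g, E4.RC.eo, qu_inv, qu_val]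
  simp only [ee, T, C, map_add, map_mul, map_one, mul_assoc]

end

end E4.X
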