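import Pool.Agent.Lib.MP_8a95e3_al.XH3

/-!
# XH4 : `K` maps `c_4` to zero (helper69), second part
-/

set_option linter.unusedSimpArgs false

noncomputable section

namespace E4.X

open E4

/-- the ring `FB / K0` -/
theorem k0_Th2 (a g c : F) :
    C a * (T (g * c * g⁻¹) * (T a * o g)) + o g * (C a * (T c * T a)) ∈ K0 := by
  have hb := K0_TI.bi
  have e := E4.RC.H_Th2 (q_two hb) (q_cube hb K0_TI.cube) (qu_mem hb a) (qu_mem hb g) (qu_mem hb c)
  refine mem_of_eq hb ?_
  have mo : ∀ u v : F, o (u * v) = o u * o v := map_mul o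
  have m : ∀ u v : FB, qm K0 hb (u * v) = qm K0 hb u * qm K0 hb v := map_mul _
  simp only [qu_inv, qu_val, mul_assoc] at e
  simp only [T, C, m, map_add, map_one, mo, mul_inv_rev, inv_inv, mul_assoc]
  exact e

theorem k0_b1 (a b w : F) :
    (o w * (C a * (C b⁻¹ * T a)) + C a * (C b⁻¹ * (T a * o w))) +
    (C a * (T (w * b) * T a) + (C a * (T b * (T a * o w)) + o b⁻¹ * (C a * (T w * T a)))) ∈ K0 := by
  have hb := K0_TI.bi
  have e := E4.RC.H_b1 (q_two hb) (q_cube hb K0_TI.cube) (qu_mem hb a) (qu_mem hb b) (qu_mem hb w)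
  refine mem_of_eq hb ?_
  have mo : ∀ u v : F, o (u * v) = o u * o v := map_mul o
  have m : ∀ u v : FB, qm K0 hb (u * v) = qm K0 hb u * qm K0 hb v := map_mul _
  simp only [qu_inv, qu_val, mul_assoc] at e
  simp only [T, C, m, map_add, map_one, mo, mul_inv_rev, inv_inv, mul_assoc]
  exact e

section
variable {P : AddSubgroup FB} (h : TI P) {y z : ℕ} (hyz : y ≠ z)

/-- the homomorphism `g ↦` image of `g` -/
def pf (h : TI P) (y z : ℕ) : F →* QR (NN P y z) (NN_bi h y z) := ((pn h y z : FB →+* _) : FB →* _).comp o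

theorem pf_o (g : F) : pf h y z g = pn h y z (o g) := rfl

include hyz in
theorem CLq (hc4 : ∀ g w u v : F, c4 g w u v ∈ P) :
    E4.H.CL (pf h y z) (fun g => pn h y z (tau y z g))
      (fun v => E4.RC.nn (pn h y z (Xl y)) (pn h y z (Xl z)) (pu h y z v)) (Mx h y z) where
  two := pn_two h y z
  F1 := Mx_F1 h y z hc4
  K1 a b := by
    have e := E4.RC.H_K1h (pn_two h y z) (pn_cube h y z) (pu_mem h y z a) (pu_mem h y z b) (pn_PLy h y z)
      (pn_PLz h y z)
    rw [pn_eo, pn_eo, add_zero] at e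
    rw [E4.RC.uK, ← pn_tau, ← pn_tau, qu_inv, qu_inv, qu_val, qu_val] at e
    exact e
  K5 a b := by
    have e := E4.RC.H_K5h (pn_two h y z) (pn_cube h y z) (pu_mem h y z b) (pu_mem h y z a) (pn_PLy h y z)
      (pn_PLz h y z)
    rw [← pn_tau, qu_inv, qu_inv, qu_val, qu_val, ← map_inv] at e
    exact e
  F4 a b := by
    have e := E4.RC.H_F4 (pn_two h y z) (pn_cube h y z) (pu_mem h y z a) (pu_mem h y z b) (pn_PLy h y z)
      (pn_PLz h y z)
    rw [← map_mul, ← pn_tau, ← pn_tau, ← pn_tau, qu_inv, qu_val] at e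
    exact e
  U0 a b := by
    have e := kp_eq' h hyz (kp_com y z b a) (kp_com y z a b) (add_comm _ _)
    simp only [KcF, map_add, map_mul (pn h y z)] at e
    exact e
  Ua a b c := by
    have e := kp_eq' h hyz (kp_com y z a (b * c)) (kp_add (kp_r (kp_com y z a b) (o c)) (kp_l (kp_com y z a c) (o b)))
      (by
        apply E4.H.eqc fb_add_self
        rw [map_mul]
        simp only [mul_add, add_mul, mul_assoc]
        abel_nf
        simp only [E4.H.z2 fb_add_self, add_zero])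
    simp only [KcF, map_add, map_mul (pn h y z)] at e
    exact e
  Uc a b := by
    have e := kp_eq' h hyz (kp_r (kp_T y z (a * b * a⁻¹)) (o a)) (kp_l (kp_T y z b) (o a)) (by
        rw [T, T, add_mul, mul_add, ← map_mul, ← map_mul, ← map_mul, ← map_mul]
        congr 2
        · group
        · group)
    rw [map_mul, map_mul] at e
    exact e
  Ud a b c := by
    have e := kp_eq' h hyz (kp_l (kp_T y z c) (o a * o b + o b * o a)) (kp_r (kp_com y z a b) (T c)) rfl
    rw [map_mul, map_mul, map_add, map_mul, map_mul, qm_T] at e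
    simp only [KcF, map_add, map_mul (pn h y z)] at e
    exact e
  Ue a b c := by
    have e := kp_eq h hyz (kp_l (kp_r (kp_T y z (b * c * b⁻¹)) (T a * o b)) (C a))
      (kp_l (kp_l (kp_r (kp_T y z c) (T a)) (C a)) (o b)) (k0_Th2 a b c)
    simp only [map_mul (pn h y z), qm_C, qm_T] at e
    exact e
  Ub a b c := by
    have e := kp_eq h hyz
      (kp_add (kp_l (kp_l (kp_l (kp_T y z a) (C b⁻¹)) (C a)) (o c)) (kp_l (kp_l (kp_r (kp_T y z a) (o c)) (C b⁻¹)) (C a)))
      (kp_add (kp_l (kp_r (kp_T y z (c * b)) (T a)) (C a))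
        (kp_add (kp_l (kp_r (kp_T y z b) (T a * o c)) (C a)) (kp_l (kp_l (kp_r (kp_T y z c) (T a)) (C a)) (o b⁻¹))))
      (k0_b1 a b c)
    simp only [map_add, map_mul (pn h y z), qm_C, qm_T] at e
    exact e

/-- lift of `u_2` -/
def u2F (y z : ℕ) (g h : F) : FB := C g * (C h⁻¹ * tau y z g) + C h * (C g⁻¹ * tau y z h)

theorem kp_u2 (y z : ℕ) (g h : F) : (u2 g h, u2F y z g h) ∈ KP y z := by
  have e := kp_add (kp_l (kp_l (kp_T y z g) (C h⁻¹)) (C g)) (kp_l (kp_l (kp_T y z h) (C g⁻¹)) (C h))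
  rw [u2, mul_assoc, mul_assoc]
  exact e

/-- lift of `T^` -/
def ttF (y z : ℕ) (g h v : F) : FB :=
  u2F y z (h * v) g + u2F y z h g + u2F y z v g + u2F y z h g * C v + C g * (C h * (C v⁻¹ * tau y z h))

theorem kp_tt (y z : ℕ) (g h v : F) : (tt g h v, ttF y z g h v) ∈ KP y z := by
  have e := kp_add (kp_add (kp_add (kp_add (kp_u2 y z (h * v) g) (kp_u2 y z h g)) (kp_u2 y z v g))
    (kp_r (kp_u2 y z h g) (C v))) (kp_l (kp_l (kp_l (kp_T y z h) (C v⁻¹)) (C h)) (C g))
  rw [tt, mul_assoc, mul_assoc]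
  exact e

/-- lift of `c_4` -/
def c4F (y z : ℕ) (g w h v : F) : FB := ttF y z (g * w) h v + ttF y z g h v + ttF y z w h v + ttF y z g h v * C w

theorem kp_c4 (y z : ℕ) (g w h v : F) : (c4 g w h v, c4F y z g w h v) ∈ KP y z :=
  kp_add (kp_add (kp_add (kp_tt y z (g * w) h v) (kp_tt y z g h v)) (kp_tt y z w h v)) (kp_r (kp_tt y z g h v) (C w))

include h hyz in
/-- **`K` maps `c_4` to zero** -/
theorem hcl4 (hc4 : ∀ g w u v : F, c4 g w u v ∈ P) (g w u v : F) : c4F y z g w u v ∈ NN P y z := by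
  have e := E4.H.cq_eq (CLq h hyz hc4) g w u v
  refine (qm_zero (NN_bi h y z) _).1 ?_
  rw [← e]
  simp only [c4F, ttF, u2F, E4.H.cq, E4.H.tq, E4.H.uq, pf_o, map_add, map_mul (qm _ (NN_bi h y z)), qm_C]

end

end E4.X
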