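import Pool.Agent.Lib.MP_8a95e3_al.XH4
import Pool.Agent.Lib.MP_8a95e3_al.RK.H_K4
import Pool.Agent.Lib.MP_8a95e3_al.RK.E_kt2

/-!
# XH5 : `K` maps `c_3` and `t_2` to zero; the closure (helper69)
-/

set_option linter.unusedSimpArgs false

noncomputable section

namespace E4.X

open E4

/-- `ν(r, h; g)` -/
def nuG (r : FB) (h g : F) : FB :=
  o h * r * C g⁻¹ * T h + C h * C g⁻¹ * (o h * r + r * o h⁻¹) + T g * r * o h * C g + o h⁻¹ * C g * r * T g

theorem nuT_eq (a h g : F) : nuT a h g = nuG (T a) h g := rfl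

theorem kp_nu {y z : ℕ} {w k : FB} (hk : (w, k) ∈ KP y z) (h g : F) : (nuG w h g, nuG k h g) ∈ KP y z := by
  have e1 := kp_gen hk (o h) (C g⁻¹ * T h)
  have e2 := kp_l (kp_add (kp_l hk (o h)) (kp_r hk (o h⁻¹))) (C h * C g⁻¹)
  have e3 := kp_gen hk (T g) (o h * C g)
  have e4 := kp_gen hk (o h⁻¹ * C g) (T g)
  have e := kp_add (kp_add (kp_add e1 e2) e3) e4
  simp only [nuG]
  simp only [← mul_assoc] at e ⊢
  exact e

/-- lift of `κ` -/
def kapF (y z : ℕ) (a h : F) : FB :=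
  C a * (tau y z (h * a) + (tau y z a * o h + o a⁻¹ * tau y z h)) + o a * tau y z a * C h +
    C a * tau y z h * T a + tau y z a * C h⁻¹ + C h⁻¹ * tau y z a + C h * tau y z a * T h

theorem kap_sq (a h : F) : C a * (T (h * a) + (T a * o h + o a⁻¹ * T h)) + o a * T a * C h = C a * C h * C a := by
  have e1 : T (h * a) + (T a * o h + o a⁻¹ * T h) = o h * o a + o a * o h := (E4.H.com_eq fb_add_self o h a).symm
  have e2 : o a * T a = o a * o a + 1 := by rw [T, mul_add, ← map_mul o a a⁻¹, mul_inv_cancel, map_one]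
  rw [e1, e2]
  apply E4.H.eqc fb_add_self
  simp only [C, mul_add, add_mul, mul_one, one_mul, mul_assoc]
  abel_nf
  simp only [E4.H.z2 fb_add_self, E4.H.z4 fb_add_self, add_zero]

theorem kp_kap (y z : ℕ) (a h : F) : (kap a h, kapF y z a h) ∈ KP y z := by
  have e := kp_add (kp_add (kp_add (kp_add (kp_add (kp_l (kp_add (kp_T y z (h * a)) (kp_add (kp_r (kp_T y z a) (o h))
    (kp_l (kp_T y z h) (o a⁻¹)))) (C a)) (kp_gen (kp_T y z a) (o a) (C h))) (kp_gen (kp_T y z h) (C a) (T a)))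
    (kp_r (kp_T y z a) (C h⁻¹))) (kp_l (kp_T y z a) (C h⁻¹))) (kp_gen (kp_T y z a) (C h) (T h))
  rw [kap_sq] at e
  exact e

/-- lift of `c_3` -/
def c3F (y z : ℕ) (a g h : F) : FB := C g * kapF y z a h + nuG (tau y z a) h g

theorem kp_c3 (y z : ℕ) (a g h : F) : (c3 a g h, c3F y z a g h) ∈ KP y z :=
  kp_add (kp_l (kp_kap y z a h) (C g)) (kp_nu (kp_T y z a) h g)

section
variable {S : Type*} [Ring S]

/-- `ν` in a ring -/
def nuR (H H' G G' r : S) : S :=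
  H * (r * ((G' + 1) * (H + H'))) + (H + 1) * ((G' + 1) * (H * r + r * H')) + (G + G') * (r * (H * (G + 1)))
    + H' * ((G + 1) * (r * (G + G')))

theorem nuR_add (H H' G G' r s : S) : nuR H H' G G' (r + s) = nuR H H' G G' r + nuR H H' G G' s := by
  unfold nuR
  noncomm_ring

theorem sum8 (N : S → S) (hN : ∀ r s, N (r + s) = N r + N s) {G k1 k2 k3 k4 k5 k6 k7 k8 r1 r2 r3 r4 r5 r6 r7 r8 : S}
    (f1 : G * k1 + N r1 = 0) (f2 : G * k2 + N r2 = 0) (f3 : G * k3 + N r3 = 0) (f4 : G * k4 + N r4 = 0)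
    (f5 : G * k5 + N r5 = 0) (f6 : G * k6 + N r6 = 0) (f7 : G * k7 + N r7 = 0) (f8 : G * k8 + N r8 = 0) :
    G * (k1 + k2 + k3 + k4 + k5 + k6 + k7 + k8) + N (r1 + r2 + r3 + r4 + r5 + r6 + r7 + r8) = 0 := by
  simp only [hN, mul_add]
  calc _ = (G * k1 + N r1) + (G * k2 + N r2) + (G * k3 + N r3) + (G * k4 + N r4) + (G * k5 + N r5) +
        (G * k6 + N r6) + (G * k7 + N r7) + (G * k8 + N r8) := by abel
    _ = 0 := by rw [f1, f2, f3, f4, f5, f6, f7, f8]; simp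

/-- `τ` as a sum of values of `T` -/
theorem tau_sum (h2 : ∀ r : S, r + r = 0) (p q : S) (x : Sˣ) :
    E4.RC.tau p q x =
      ((1 + p) * ((1 + q) * (x : S)) + ((x⁻¹ : Sˣ) : S) * ((1 + q) * (1 + p))) +
      ((1 + p) * (x : S) + ((x⁻¹ : Sˣ) : S) * (1 + p)) +
      ((1 + q) * (x : S) + ((x⁻¹ : Sˣ) : S) * (1 + q)) +
      ((x : S) + ((x⁻¹ : Sˣ) : S)) +
      ((1 + ((x⁻¹ : Sˣ) : S) * (p * (x : S))) * (1 + q) + (1 + q) * (1 + ((x⁻¹ : Sˣ) : S) * (p * (x : S)))) +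
      ((1 + ((x⁻¹ : Sˣ) : S) * (p * (x : S))) + (1 + ((x⁻¹ : Sˣ) : S) * (p * (x : S)))) +
      ((1 + q) + (1 + q)) + (1 + 1) := by
  apply E4.H.eqc h2
  rw [E4.RC.tau, E4.RC.tau4]
  simp only [mul_add, add_mul, mul_one, one_mul, mul_assoc]
  abel_nf
  simp only [E4.H.z2 h2, E4.H.z4 h2, E4.H.z6 h2, add_zero, zero_add]
  rw [show (8 : ℤ) = 4 + 4 from rfl, add_smul, E4.H.z4 h2, zero_add]

end

theorem qm_kapR {W : AddSubgroup FB} (hb : Bi W) (a u : F) :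
    qm W hb (kap a u) = E4.RC.kapR (qm W hb (o a)) (qm W hb (o a⁻¹)) (qm W hb (o u)) (qm W hb (o u⁻¹)) := by
  have m : ∀ u v : FB, qm W hb (u * v) = qm W hb u * qm W hb v := map_mul _
  simp only [kap, E4.RC.kapR, map_add, m, qm_T, qm_C, mul_assoc]

theorem qm_nuR {W : AddSubgroup FB} (hb : Bi W) (r : FB) (u g : F) :
    qm W hb (nuG r u g) = nuR (qm W hb (o u)) (qm W hb (o u⁻¹)) (qm W hb (o g)) (qm W hb (o g⁻¹)) (qm W hb r) := by
  have m : ∀ u v : FB, qm W hb (u * v) = qm W hb u * qm W hb v := map_mul _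
  simp only [nuG, nuR, map_add, m, qm_T, qm_C, mul_assoc]

section
variable {P : AddSubgroup FB} (h : TI P) (y z : ℕ)

theorem pn_c3 (hc3 : ∀ a g u : F, c3 a g u ∈ P) (a g u : F) :
    (pn h y z (o g) + 1) * E4.RC.kapR (pn h y z (o a)) (pn h y z (o a⁻¹)) (pn h y z (o u)) (pn h y z (o u⁻¹))
      + nuR (pn h y z (o u)) (pn h y z (o u⁻¹)) (pn h y z (o g)) (pn h y z (o g⁻¹))
        (pn h y z (o a) + pn h y z (o a⁻¹)) = 0 := by
  rw [← pn_P h y z (hc3 a g u), c3, nuT_eq, map_add, map_mul (pn h y z), qm_kapR, qm_nuR, qm_C, qm_T]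

theorem pn_Ct (a : F) : pn h y z (C a) * pn h y z (tau y z a) = 0 := by
  have e : pn h y z (C a * o a * tau y z a) = 0 := (qm_zero _ _).2 (hcube_of h y z a)
  have e1 : C a * tau y z a = o a⁻¹ * (C a * o a * tau y z a) := by
    have e2 : o a⁻¹ * o a = 1 := by rw [← map_mul, inv_mul_cancel, map_one]
    have e3 : o a⁻¹ * (C a * o a) = C a := by
      rw [C, add_mul, one_mul, mul_add, ← mul_assoc, e2, one_mul]
    rw [← mul_assoc, e3]
  rw [← map_mul, e1, map_mul, e, mul_zero]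

theorem pn_kapF (a u : F) : pn h y z (kapF y z a u) =
    E4.RC.kaK (pn h y z (Xl y)) (pn h y z (Xl z)) (pu h y z a) (pu h y z u) := by
  have e0 := pn_Ct h y z a
  have e : pn h y z (kapF y z a u) =
      E4.RC.kaK (pn h y z (Xl y)) (pn h y z (Xl z)) (pu h y z a) (pu h y z u) +
        pn h y z (C a) * pn h y z (tau y z a) * pn h y z (C u) := by
    rw [E4.RC.kaK, ← map_mul, ← pn_tau, ← pn_tau, ← pn_tau, qu_inv, qu_inv, qu_val, qu_val]
    apply E4.H.eqc (pn_two h y z)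
    simp only [kapF, map_add, map_mul (pn h y z), qm_C, qm_T, mul_add, add_mul, mul_one, one_mul, mul_assoc]
    abel_nf
    simp only [E4.H.z2 (pn_two h y z), E4.H.z4 (pn_two h y z), E4.H.z6 (pn_two h y z), add_zero]
  rw [e, e0, zero_mul, add_zero]

include h in
/-- **`K` maps `c_3` to zero** -/
theorem hcl3 (hc3 : ∀ a g u : F, c3 a g u ∈ P) (a g u : F) : c3F y z a g u ∈ NN P y z := by
  refine (qm_zero (NN_bi h y z) _).1 ?_
  show pn h y z (c3F y z a g u) = 0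
  have k4 := E4.RC.H_K4 (pn_two h y z) (pn_cube h y z) (pu_mem h y z a) (pu_mem h y z u) (pn_PLy h y z)
      (pn_PLz h y z)
  rw [← map_mul, pn_eo, pn_eo, pn_eo] at k4
  simp only [mul_zero, add_zero] at k4
  have f1 := pn_c3 h y z hc3 (x y * (x z * a)) g u
  have f2 := pn_c3 h y z hc3 (x y * a) g u
  have f3 := pn_c3 h y z hc3 (x z * a) g u
  have f4 := pn_c3 h y z hc3 a g u
  have f5 := pn_c3 h y z hc3 (a⁻¹ * (x y * a) * x z) g u
  have f6 := pn_c3 h y z hc3 (a⁻¹ * (x y * a)) g u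
  have f7 := pn_c3 h y z hc3 (x z) g u
  have f8 := pn_c3 h y z hc3 1 g u
  obtain ⟨y1, y2⟩ := pn_y h y z
  obtain ⟨z1, z2⟩ := pn_z h y z
  have ai : pn h y z (o a⁻¹) * pn h y z (o a) = 1 := by
    rw [← map_mul, ← map_mul, inv_mul_cancel, map_one, map_one]
  have u1 : pn h y z (o a⁻¹) * ((1 + pn h y z (Xl y)) * pn h y z (o a)) =
      1 + pn h y z (o a⁻¹) * (pn h y z (Xl y) * pn h y z (o a)) := by
    rw [add_mul, one_mul, mul_add, ai]
  have u2 : ∀ s, pn h y z (o a⁻¹) * ((1 + pn h y z (Xl y)) * (pn h y z (o a) * s)) =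
      (1 + pn h y z (o a⁻¹) * (pn h y z (Xl y) * pn h y z (o a))) * s := by
    intro s
    rw [← u1, mul_assoc, mul_assoc]
  simp only [mul_inv_rev, inv_inv, map_mul (pn h y z), map_mul o, map_one, inv_one, y1, y2, z1, z2, mul_assoc,
    u1, u2] at f1 f2 f3 f4 f5 f6 f7 f8
  rw [c3F, map_add, map_mul (pn h y z), pn_kapF h y z, qm_nuR, pn_tau h y z, tau_sum (pn_two h y z), k4, qm_C]
  simp only [qu_inv, qu_val]
  exact sum8 (nuR (pn h y z (o u)) (pn h y z (o u⁻¹)) (pn h y z (o g)) (pn h y z (o g⁻¹))) (nuR_add _ _ _ _)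
    f1 f2 f3 f4 f5 f6 f7 f8

/-- lift of `t_2` -/
def t2F (y z : ℕ) (a b : F) : FB := tau y z a * C b * C a * T b

theorem kp_t2 (y z : ℕ) (a b : F) : (t2 a b, t2F y z a b) ∈ KP y z := by
  have e := kp_r (kp_r (kp_r (kp_T y z a) (C b)) (C a)) (T b)
  exact e

include h in
/-- **`K` maps `t_2` to zero** -/
theorem hcl2 (a b : F) : t2F y z a b ∈ NN P y z := by
  refine (qm_zero (NN_bi h y z) _).1 ?_
  show pn h y z (t2F y z a b) = 0
  have e := E4.RC.kt2 (pn_two h y z) (pn_cube h y z) (pu_mem h y z a) (pu_mem h y z b) (pn_PLy h y z)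
      (pn_PLz h y z)
  have e2 := pn_eo h y z b
  rw [E4.RC.eo] at e2
  rw [e2, mul_zero, ← pn_tau h y z, qu_inv, qu_val, qu_val] at e
  rw [t2F, map_mul (pn h y z), map_mul (pn h y z), map_mul (pn h y z), mul_assoc, mul_assoc, qm_C, qm_C, qm_T]
  exact e

end

section

theorem PG_sub {r : FB} (hr : r ∈ RG) (φ : F →* F) : eB φ r ∈ PG RG := sub_idl (Or.inr ⟨φ, r, hr, rfl⟩)

theorem c3_PG (a g u : F) : c3 a g u ∈ PG RG := by
  obtain ⟨φ, h0, h1, h2⟩ : ∃ φ : F →* F, φ (x 0) = a ∧ φ (x 1) = g ∧ φ (x 2) = u :=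
    ⟨FreeGroup.lift fun i => if i = 0 then a else if i = 1 then g else u, by simp [x], by simp [x], by simp [x]⟩
  have e : eB φ (c3 (x 0) (x 1) (x 2)) = c3 a g u := by
    simp only [c3, kap, nuT, map_add, map_mul, eB_C, eB_T, eB_o, map_inv, h0, h1, h2]
  rw [← e]
  exact PG_sub (Or.inr (Or.inl rfl)) φ

theorem c4_PG (a g u v : F) : c4 a g u v ∈ PG RG := by
  obtain ⟨φ, h0, h1, h2, h3⟩ : ∃ φ : F →* F, φ (x 0) = a ∧ φ (x 1) = g ∧ φ (x 2) = u ∧ φ (x 3) = v :=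
    ⟨FreeGroup.lift fun i => if i = 0 then a else if i = 1 then g else if i = 2 then u else v, by simp [x],
      by simp [x], by simp [x], by simp [x]⟩
  have e : eB φ (c4 (x 0) (x 1) (x 2) (x 3)) = c4 a g u v := by
    simp only [c4, tt, u2, map_add, map_mul, eB_C, eB_T, map_inv, h0, h1, h2, h3]
  rw [← e]
  exact PG_sub (Or.inr (Or.inr rfl)) φ

/-- **the closure under `K`** -/
theorem hcl : ∀ r ∈ RG, ∃ k, (r, k) ∈ KP 4 5 ∧ k ∈ NN (PG RG) 4 5 := by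
  rintro r (rfl | rfl | rfl)
  · exact ⟨_, kp_t2 4 5 _ _, hcl2 (XK2_PG_TI RG) 4 5 _ _⟩
  · exact ⟨_, kp_c3 4 5 _ _ _, hcl3 (XK2_PG_TI RG) 4 5 c3_PG _ _ _⟩
  · exact ⟨_, kp_c4 4 5 _ _ _ _, hcl4 (XK2_PG_TI RG) (by norm_num) c4_PG _ _ _ _⟩

end

end E4.X
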