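import Pool.Agent.Lib.MP_8a95e3_al.X02b
import Pool.Agent.Lib.MP_8a95e3_al.LP5

/-!
# XK1 : the map `K(y,z)` is well defined
-/

noncomputable section

namespace E4.X

open E4

/-- quotient ring by an ideal given as an additive subgroup -/
theorem quot_ring {N : AddSubgroup FB} (hN : Bi N) :
    ∃ (S : Type) (_ : Ring S) (π : FB →+* S), ∀ r, π r = 0 ↔ r ∈ N := by
  let I : Ideal FB :=
    { carrier := N
      add_mem' := N.add_mem
      zero_mem' := N.zero_mem
      smul_mem' := fun a r hr => hN.mul_left a hr }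
  have hI : I.IsTwoSided := ⟨fun b ha => hN.mul_right b ha⟩
  exact ⟨FB ⧸ I, inferInstance, Ideal.Quotient.mk I, fun r => Ideal.Quotient.eq_zero_iff_mem⟩

/-- Lemma P over `F_2` -/
theorem lemmaPB {S : Type*} [Ring S] {ρ : F →* S} {t : F → S} (h : LP.LPD ρ t) :
    ∃ κ : FB →+ S, ∀ u g v : F, κ (o u * T g * o v) = ρ u * t g * ρ v := by
  obtain ⟨κ, hκ⟩ : ∃ κ : FB →+ S, ∀ g, κ (o g) = LP.kk ρ t g := by
    have h2 : (Int.castAddHom S) ((2 : ℕ) : ℤ) = 0 := by
      rw [Int.coe_castAddHom]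
      push_cast
      exact h.two
    have h1 : ZMod.lift 2 ⟨Int.castAddHom S, h2⟩ 1 = 1 := by
      have e : (1 : ZMod 2) = ((1 : ℤ) : ZMod 2) := by norm_num
      rw [e, ZMod.lift_coe]
      simp
    refine ⟨MonoidAlgebra.liftNC (ZMod.lift 2 ⟨Int.castAddHom S, h2⟩) (LP.kk ρ t), fun g => ?_⟩
    show MonoidAlgebra.liftNC (ZMod.lift 2 ⟨Int.castAddHom S, h2⟩) (LP.kk ρ t) (MonoidAlgebra.single g 1) = LP.kk ρ t g
    rw [MonoidAlgebra.liftNC_single, h1, one_mul]
  refine ⟨κ, fun u g v => ?_⟩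
  have e : o u * T g * o v = o (u * g * v) + o (u * g⁻¹ * v) := by
    unfold T
    rw [map_mul, map_mul, map_mul, map_mul]
    noncomm_ring
  have hc : LP.cs ρ t g = LP.cs ρ t g⁻¹ := (LP.cs_inv ρ t g).symm
  have e1 := LP.kk_left ρ t u g g⁻¹ hc
  have e2 := LP.kk_right h v (u * g) (u * g⁻¹) (by rw [LP.cs_mul, LP.cs_mul ρ t u g⁻¹, hc])
  rw [e, map_add, hκ, hκ, ← h.hsub, e2, e1, LP.kk_T h]

/-- `sigma` -/
def sg (y z : ℕ) (g : F) : FB := Xl y * Xl z * o g + o g⁻¹ * Xl y * o g * Xl z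

/-- the ideal in which the laws of `tau` hold -/
def NK (y z : ℕ) : AddSubgroup FB := K0 ⊔ I2 y ⊔ I2 z

theorem NK_bi (y z : ℕ) : Bi (NK y z) := (K0_TI.bi.sup (I2_bi y)).sup (I2_bi z)

/-- the laws of `tau` -/
structure TauLaws (y z : ℕ) : Prop where
  a1 : ∀ g, tau y z g⁻¹ + tau y z g ∈ NK y z
  a2 : ∀ g, o g * tau y z g + tau y z g * o g ∈ NK y z
  a3 : ∀ g h, tau y z (g * h) + tau y z (g * h⁻¹) + o g * tau y z h + tau y z h * o g⁻¹ ∈ NK y z
  a4 : ∀ g h, T g * tau y z h + tau y z g * T h ∈ NK y z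
  a5 : ∀ g h, tau y z (g * h) + o h * tau y z g + tau y z h * o g⁻¹ + (o h * sg y z g + sg y z g * o h) ∈ NK y z

/-- laws in a quotient give the hypotheses of Lemma P -/
theorem lpd_of {N : AddSubgroup FB} {S : Type} [Ring S] {π : FB →+* S} (hπ : ∀ r, π r = 0 ↔ r ∈ N) (t σ : F → FB)
    (h1 : t 1 ∈ N)
    (a1 : ∀ g, t g⁻¹ + t g ∈ N) (a2 : ∀ g, o g * t g + t g * o g ∈ N)
    (a3 : ∀ g h, t (g * h) + t (g * h⁻¹) + o g * t h + t h * o g⁻¹ ∈ N)
    (a4 : ∀ g h, T g * t h + t g * T h ∈ N)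
    (a5 : ∀ g h, t (g * h) + o h * t g + t h * o g⁻¹ + (o h * σ g + σ g * o h) ∈ N) :
    LP.LPD ((π : FB →* S).comp o) (fun g => π (t g)) := by
  have h2 : (2 : S) = 0 := by
    have e : (2 : FB) = 0 := by
      rw [← one_add_one_eq_two]
      exact fb_add_self 1
    have e2 : π 2 = 0 := by rw [e, map_zero]
    rwa [map_ofNat] at e2
  have hs : ∀ a : S, a + a = 0 := fun a => by rw [← two_mul, h2, zero_mul]
  have hneg : ∀ a : S, -a = a := fun a => neg_eq_of_add_eq_zero_left (hs a)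
  have heq : ∀ a b : FB, a + b ∈ N → π a = π b := by
    intro a b hab
    have e := (hπ _).2 hab
    rw [map_add] at e
    rw [eq_neg_of_add_eq_zero_left e, hneg]
  refine ⟨h2, (hπ _).2 h1, fun g => heq _ _ (a1 g), fun g => ?_, fun g k => ?_, fun g k => ?_, ?_⟩
  · have e := heq _ _ (a2 g)
    rw [map_mul, map_mul] at e
    exact e
  · have e := heq (t (g * k) + t (g * k⁻¹)) (o g * t k + t k * o g⁻¹) (by
      have e := a3 g k
      rwa [add_assoc (t (g * k) + t (g * k⁻¹))] at e)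
    rw [map_add, map_add, map_mul, map_mul] at e
    exact e
  · have e := heq _ _ (a4 g k)
    unfold T at e
    rw [map_mul, map_mul, map_add, map_add] at e
    exact e
  · refine LP.a5_of_sigma _ _ (fun g => π (σ g)) h2 fun g k => ?_
    have e := heq _ _ (a5 g k)
    rw [map_add, map_add, map_add, map_mul, map_mul, map_mul, map_mul] at e
    exact e

theorem tau_one (y z : ℕ) : tau y z 1 = 0 := by
  have e : tau y z 1 = (Xl y * Xl z + Xl y * Xl z) + (Xl z * Xl y + Xl z * Xl y) := by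
    unfold tau
    rw [inv_one, map_one, mul_one, one_mul, one_mul, mul_one, mul_one, mul_one]
    abel
  rw [e, fb_add_self, fb_add_self, add_zero]

/-- **uniqueness** -/
theorem kp_unique {y z : ℕ} (hT : TauLaws y z) {k : FB} (hk : (0, k) ∈ KP y z) : k ∈ NK y z := by
  obtain ⟨S, _, π, hπ⟩ := quot_ring (NK_bi y z)
  have hL := lpd_of hπ (tau y z) (sg y z) (by
    rw [tau_one]
    exact AddSubgroup.zero_mem _) hT.a1 hT.a2 hT.a3 hT.a4 hT.a5
  obtain ⟨κ, hκ⟩ := lemmaPB hL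
  have key : ∀ r ∈ KP y z, κ r.1 = π r.2 := by
    intro r hr
    unfold KP at hr
    induction hr using AddSubgroup.closure_induction with
    | mem r hr =>
      obtain ⟨u, g, v, rfl⟩ := hr
      show κ (o u * T g * o v) = π (o u * tau y z g * o v)
      rw [hκ, map_mul, map_mul]
      rfl
    | zero => rw [Prod.fst_zero, Prod.snd_zero, map_zero, map_zero]
    | add a b _ _ ha hb => rw [Prod.fst_add, Prod.snd_add, map_add, map_add, ha, hb]
    | neg a _ ha => rw [Prod.fst_neg, Prod.snd_neg, map_neg, map_neg, ha]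
  have e := key _ hk
  rw [← hπ]
  have e2 : κ 0 = π k := e
  rw [← e2, map_zero]

end E4.X
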