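import Pool.Agent.Lib.MP_8a95e3_al.RC

/-!
# XM0 : the elements `kap`, `nu`, `c3`, `u2`, `tt`, `c4` in a ring with the cubic law: definitions
-/

namespace E4.XM

open E4.RC

section
variable {R : Type*} [Ring R]

def Cu (u : Rˣ) : R := (u : R) + 1

def Tu (u : Rˣ) : R := (u : R) + ((u⁻¹ : Rˣ) : R)

/-- `Z V T_z` -/
def bu (z : Rˣ) (V : R) : R := Cu z * (V * Tu z)

def kapu (a h : Rˣ) : R := Cu a * (Cu h * Cu a) + Cu a * (Tu h * Tu a) + Tu a * Cu h⁻¹ + Cu h⁻¹ * Tu a +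
  Cu h * (Tu a * Tu h)

def nupu (p : R) (h g : Rˣ) : R := (h : R) * (p * (Cu g⁻¹ * Tu h)) +
  Cu h * (Cu g⁻¹ * ((h : R) * p + p * ((h⁻¹ : Rˣ) : R))) + Tu g * (p * ((h : R) * Cu g)) +
  ((h⁻¹ : Rˣ) : R) * (Cu g * (p * Tu g))

def c3u (a g h : Rˣ) : R := Cu g * kapu a h + nupu (Tu a) h g

def nu1u (q : R) (h : Rˣ) (p : R) : R := (h : R) * (q * (p * Tu h)) +
  Cu h * (p * ((h : R) * q + q * ((h⁻¹ : Rˣ) : R)))

def eu (z : Rˣ) (p q : R) : R := Tu z * (p * (q * Cu z)) + Tu z * (q * (Cu z * p))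

def u2u (g h : Rˣ) : R := bu g (Cu h⁻¹) + bu h (Cu g⁻¹)

def ttu (g h y : Rˣ) : R := u2u (h * y) g + u2u h g + u2u y g + u2u h g * Cu y + Cu g * bu h (Cu y⁻¹)

def c4u (g w h y : Rˣ) : R := ttu (g * w) h y + ttu g h y + ttu w h y + ttu g h y * Cu w

def dnu (p q : R) (h g : Rˣ) : R := (h : R) * (q * (p * (((g⁻¹ : Rˣ) : R) * Tu h))) +
  Cu h * (p * (((g⁻¹ : Rˣ) : R) * ((h : R) * q + q * ((h⁻¹ : Rˣ) : R)))) +
  ((g : R) * p + p * ((g⁻¹ : Rˣ) : R)) * (q * ((h : R) * Cu g)) + Tu g * (q * ((h : R) * ((g : R) * p))) +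
  ((h⁻¹ : Rˣ) : R) * ((g : R) * (p * (q * Tu g))) +
  ((h⁻¹ : Rˣ) : R) * (Cu g * (q * ((g : R) * p + p * ((g⁻¹ : Rˣ) : R))))

/-- characteristic two and the cubic law for the units of `G` -/
structure LW (G : Subgroup Rˣ) : Prop where
  two : ∀ r : R, r + r = 0
  cube : ∀ u : Rˣ, u ∈ G → ((u : R) + 1) ^ 3 = 0

/-- the certified identities -/
structure FX (G : Subgroup Rˣ) : Prop where
  law : LW G
  kap : ∀ {x y z : Rˣ}, x ∈ G → y ∈ G → z ∈ G → Cu x * kapu z y = kapu z y * Cu x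
  B1 : ∀ {x y : Rˣ} {p : R}, x ∈ G → y ∈ G → PL G p → kapu x y * p = p * kapu x y
  B2 : ∀ {x y : Rˣ} {p : R}, x ∈ G → y ∈ G → PL G p → p * kapu x y = nu1u (Tu x) y p
  eT : ∀ {x y : Rˣ} {p : R}, x ∈ G → y ∈ G → PL G p → eu x (Tu y) p = 0
  TBc : ∀ {x y : Rˣ} {p : R}, x ∈ G → y ∈ G → PL G p →
    bu x (((y⁻¹ : Rˣ) : R) * (p * y)) = ((y⁻¹ : Rˣ) : R) * (bu x p * y)
  TC : ∀ {x y : Rˣ} {p : R}, x ∈ G → y ∈ G → PL G p → bu x (bu y p) = bu y (bu x p)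
  T3 : ∀ {x y : Rˣ} {p : R}, x ∈ G → y ∈ G → PL G p → bu x (Cu y⁻¹) * p = Cu y * bu x p + bu x (bu y p)
  T3r : ∀ {x y : Rˣ} {p : R}, x ∈ G → y ∈ G → PL G p → p * bu x (Cu y⁻¹) = bu x p * Cu y + bu x (bu y p)
  NL : ∀ {x y : Rˣ} {p : R}, x ∈ G → y ∈ G → PL G p →
    Cu x * (p * (((y⁻¹ : Rˣ) : R) * Tu x)) + (y : R) * bu x p =
      Tu x * (p * ((y : R) * Cu x)) + ((y⁻¹ : Rˣ) : R) * bu x p
  NLL : ∀ {x y : Rˣ} {p q : R}, x ∈ G → y ∈ G → PL G p → PL G q → p * nupu q y x = nu1u q y p * Cu x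
  NRR : ∀ {x y : Rˣ} {p q : R}, x ∈ G → y ∈ G → PL G p → PL G q → nupu q y x * p = Cu x * nu1u q y p
  NI : ∀ {x y : Rˣ} {p q : R}, x ∈ G → y ∈ G → PL G p → PL G q →
    dnu p q y x = (x : R) * nu1u q y p + eu (x * y) q p + eu x q p + eu y q p + Cu x * eu y q p
  Y0 : ∀ {x y : Rˣ}, x ∈ G → y ∈ G → kapu x y = kapu y x
  Y1 : ∀ {x y z : Rˣ}, x ∈ G → y ∈ G → z ∈ G → c3u x z y = c3u z x y
  Y2 : ∀ {x y z : Rˣ}, x ∈ G → y ∈ G → z ∈ G → nupu (Tu x) y z = nupu (Tu y) x z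
  T2 : ∀ {x y z : Rˣ}, x ∈ G → y ∈ G → z ∈ G → Cu z * bu x (Cu y⁻¹) + bu x (Cu y⁻¹) * Cu z =
      bu x (Tu (z * y)) + bu x (Tu y) * (z : R) + ((y⁻¹ : Rˣ) : R) * bu x (Tu z)
  T2b : ∀ {x y z : Rˣ}, x ∈ G → y ∈ G → z ∈ G → Cu z * bu x (Cu y⁻¹) + bu x (Cu y⁻¹) * Cu z =
      bu x (Tu (y * z)) + bu x (Tu z) * (y : R) + ((z⁻¹ : Rˣ) : R) * bu x (Tu y)
  TF : ∀ {x : Rˣ} {p : R}, x ∈ G → PL G p →
    bu x p = (x : R) * p + p * ((x⁻¹ : Rˣ) : R) + ((x⁻¹ : Rˣ) : R) * (p * (x : R)) + p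
  PT : ∀ {x : Rˣ}, x ∈ G → PL G (Tu x)

variable {G : Subgroup Rˣ}

namespace LW

theorem hs' (L : LW G) (a b : R) : a + (a + b) = b := by rw [← add_assoc, L.two, zero_add]

theorem hneg (L : LW G) (a : R) : -a = a := neg_eq_of_add_eq_zero_left (L.two a)

theorem hsub (L : LW G) (a b : R) : a - b = a + b := by rw [sub_eq_add_neg, L.hneg]

theorem eq_of (L : LW G) {a b : R} (e : a + b = 0) : a = b := by
  rw [← L.hneg b]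
  exact eq_neg_of_add_eq_zero_left e

theorem z2 (L : LW G) (a : R) : (2 : ℤ) • a = 0 := by rw [two_zsmul, L.two]

theorem z4 (L : LW G) (a : R) : (4 : ℤ) • a = 0 := by
  have e : (4 : ℤ) • a = (2 : ℤ) • ((2 : ℤ) • a) := by rw [smul_smul]; norm_num
  rw [e, L.z2]

theorem z6 (L : LW G) (a : R) : (6 : ℤ) • a = 0 := by
  have e : (6 : ℤ) • a = (2 : ℤ) • ((3 : ℤ) • a) := by rw [smul_smul]; norm_num
  rw [e, L.z2]

theorem z8 (L : LW G) (a : R) : (8 : ℤ) • a = 0 := by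
  have e : (8 : ℤ) • a = (2 : ℤ) • ((4 : ℤ) • a) := by rw [smul_smul]; norm_num
  rw [e, L.z2]

theorem z3 (L : LW G) (a : R) : (3 : ℤ) • a = a := by
  have e : (3 : ℤ) • a = (2 : ℤ) • a + a := by
    rw [show (3 : ℤ) = 2 + 1 by norm_num, add_smul, one_smul]
  rw [e, L.z2, zero_add]

theorem z5 (L : LW G) (a : R) : (5 : ℤ) • a = a := by
  have e : (5 : ℤ) • a = (4 : ℤ) • a + a := by
    rw [show (5 : ℤ) = 4 + 1 by norm_num, add_smul, one_smul]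
  rw [e, L.z4, zero_add]

end LW

end

end E4.XM
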