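import Pool.Agent.Lib.MP_8a95e3_al.XM0
import Pool.Agent.Lib.MP_8a95e3_al.RK.M_TF
import Pool.Agent.Lib.MP_8a95e3_al.RK.M_B1
import Pool.Agent.Lib.MP_8a95e3_al.RK.M_B2
import Pool.Agent.Lib.MP_8a95e3_al.RK.M_eT
import Pool.Agent.Lib.MP_8a95e3_al.RK.M_TBc
import Pool.Agent.Lib.MP_8a95e3_al.RK.M_TC
import Pool.Agent.Lib.MP_8a95e3_al.RK.M_T3
import Pool.Agent.Lib.MP_8a95e3_al.RK.M_T3r
import Pool.Agent.Lib.MP_8a95e3_al.RK.M_NL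
import Pool.Agent.Lib.MP_8a95e3_al.RK.M_NLL
import Pool.Agent.Lib.MP_8a95e3_al.RK.M_NRR
import Pool.Agent.Lib.MP_8a95e3_al.RK.M_NI
import Pool.Agent.Lib.MP_8a95e3_al.RK.M_Y0
import Pool.Agent.Lib.MP_8a95e3_al.RK.M_Y1
import Pool.Agent.Lib.MP_8a95e3_al.RK.M_Y2
import Pool.Agent.Lib.MP_8a95e3_al.RK.M_T2
import Pool.Agent.Lib.MP_8a95e3_al.RK.M_T2b
import Pool.Agent.Lib.MP_8a95e3_al.RK.E_kapc

/-!
# XM1 : the certified identities for the elements of XM0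
-/

namespace E4.XM

open E4.RC

section
variable {R : Type*} [Ring R] {G : Subgroup Rˣ}

namespace LW

theorem Z_kap (L : LW G) {x y z : Rˣ} (hx : x ∈ G) (hy : y ∈ G) (hz : z ∈ G) :
    Cu x * kapu z y = kapu z y * Cu x := by
  have e := RC.kapc L.two L.cube hx hy hz
  simpa only [kapu, Cu, Tu, mul_assoc, add_assoc] using e

theorem Z_B1 (L : LW G) {x y : Rˣ} {p : R} (hx : x ∈ G) (hy : y ∈ G) (hp : PL G p) :
    kapu x y * p = p * kapu x y := RC.M_B1 L.two L.cube hx hy hp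

theorem Z_B2 (L : LW G) {x y : Rˣ} {p : R} (hx : x ∈ G) (hy : y ∈ G) (hp : PL G p) :
    p * kapu x y = nu1u (Tu x) y p := RC.M_B2 L.two L.cube hx hy hp

theorem Z_eT (L : LW G) {x y : Rˣ} {p : R} (hx : x ∈ G) (hy : y ∈ G) (hp : PL G p) :
    eu x (Tu y) p = 0 := RC.M_eT L.two L.cube hx hy hp

theorem Z_TBc (L : LW G) {x y : Rˣ} {p : R} (hx : x ∈ G) (hy : y ∈ G) (hp : PL G p) :
    bu x (((y⁻¹ : Rˣ) : R) * (p * y)) = ((y⁻¹ : Rˣ) : R) * (bu x p * y) := RC.M_TBc L.two L.cube hx hy hp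

theorem Z_TC (L : LW G) {x y : Rˣ} {p : R} (hx : x ∈ G) (hy : y ∈ G) (hp : PL G p) :
    bu x (bu y p) = bu y (bu x p) := RC.M_TC L.two L.cube hx hy hp

theorem Z_T3 (L : LW G) {x y : Rˣ} {p : R} (hx : x ∈ G) (hy : y ∈ G) (hp : PL G p) :
    bu x (Cu y⁻¹) * p = Cu y * bu x p + bu x (bu y p) := RC.M_T3 L.two L.cube hx hy hp

theorem Z_T3r (L : LW G) {x y : Rˣ} {p : R} (hx : x ∈ G) (hy : y ∈ G) (hp : PL G p) :
    p * bu x (Cu y⁻¹) = bu x p * Cu y + bu x (bu y p) := RC.M_T3r L.two L.cube hx hy hp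

theorem Z_NL (L : LW G) {x y : Rˣ} {p : R} (hx : x ∈ G) (hy : y ∈ G) (hp : PL G p) :
    Cu x * (p * (((y⁻¹ : Rˣ) : R) * Tu x)) + (y : R) * bu x p =
      Tu x * (p * ((y : R) * Cu x)) + ((y⁻¹ : Rˣ) : R) * bu x p := RC.M_NL L.two L.cube hx hy hp

theorem Z_NLL (L : LW G) {x y : Rˣ} {p q : R} (hx : x ∈ G) (hy : y ∈ G) (hp : PL G p) (hq : PL G q) :
    p * nupu q y x = nu1u q y p * Cu x := RC.M_NLL L.two L.cube hx hy hp hq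

theorem Z_NRR (L : LW G) {x y : Rˣ} {p q : R} (hx : x ∈ G) (hy : y ∈ G) (hp : PL G p) (hq : PL G q) :
    nupu q y x * p = Cu x * nu1u q y p := RC.M_NRR L.two L.cube hx hy hp hq

theorem Z_NI (L : LW G) {x y : Rˣ} {p q : R} (hx : x ∈ G) (hy : y ∈ G) (hp : PL G p) (hq : PL G q) :
    dnu p q y x = (x : R) * nu1u q y p + eu (x * y) q p + eu x q p + eu y q p + Cu x * eu y q p := by
  have e := RC.M_NI L.two L.cube hx hy hp hq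
  simpa only [eu, Cu, Tu, dnu, nu1u, Units.val_mul, mul_inv_rev, mul_assoc] using e

theorem Z_Y0 (L : LW G) {x y : Rˣ} (hx : x ∈ G) (hy : y ∈ G) : kapu x y = kapu y x :=
  RC.M_Y0 L.two L.cube hx hy

theorem Z_Y1 (L : LW G) {x y z : Rˣ} (hx : x ∈ G) (hy : y ∈ G) (hz : z ∈ G) : c3u x z y = c3u z x y :=
  RC.M_Y1 L.two L.cube hx hy hz

theorem Z_Y2 (L : LW G) {x y z : Rˣ} (hx : x ∈ G) (hy : y ∈ G) (hz : z ∈ G) :
    nupu (Tu x) y z = nupu (Tu y) x z := RC.M_Y2 L.two L.cube hx hy hz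

theorem Z_T2 (L : LW G) {x y z : Rˣ} (hx : x ∈ G) (hy : y ∈ G) (hz : z ∈ G) :
    Cu z * bu x (Cu y⁻¹) + bu x (Cu y⁻¹) * Cu z =
      bu x (Tu (z * y)) + bu x (Tu y) * (z : R) + ((y⁻¹ : Rˣ) : R) * bu x (Tu z) := by
  have e := RC.M_T2 L.two L.cube hx hy hz
  simpa only [bu, Cu, Tu, Units.val_mul, mul_inv_rev, mul_assoc] using e

theorem Z_T2b (L : LW G) {x y z : Rˣ} (hx : x ∈ G) (hy : y ∈ G) (hz : z ∈ G) :
    Cu z * bu x (Cu y⁻¹) + bu x (Cu y⁻¹) * Cu z =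
      bu x (Tu (y * z)) + bu x (Tu z) * (y : R) + ((z⁻¹ : Rˣ) : R) * bu x (Tu y) := by
  have e := RC.M_T2b L.two L.cube hx hy hz
  simpa only [bu, Cu, Tu, Units.val_mul, mul_inv_rev, mul_assoc] using e

theorem Z_TF (L : LW G) {x : Rˣ} {p : R} (hx : x ∈ G) (hp : PL G p) :
    bu x p = (x : R) * p + p * ((x⁻¹ : Rˣ) : R) + ((x⁻¹ : Rˣ) : R) * (p * (x : R)) + p :=
  RC.M_TF L.two L.cube hx hp

/-- all certified identities -/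
theorem fx (L : LW G) (hPT : ∀ {x : Rˣ}, x ∈ G → PL G (Tu x)) : FX G where
  law := L
  kap := L.Z_kap
  B1 := L.Z_B1
  B2 := L.Z_B2
  eT := L.Z_eT
  TBc := L.Z_TBc
  TC := L.Z_TC
  T3 := L.Z_T3
  T3r := L.Z_T3r
  NL := L.Z_NL
  NLL := L.Z_NLL
  NRR := L.Z_NRR
  NI := L.Z_NI
  Y0 := L.Z_Y0
  Y1 := L.Z_Y1
  Y2 := L.Z_Y2
  T2 := L.Z_T2
  T2b := L.Z_T2b
  TF := L.Z_TF
  PT := hPT

end LW

end

end E4.XM
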