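import Pool.Agent.Lib.MP_8a95e3_al.XM0

/-!
# XM2 : consequences for `u2`, `tt` (ring level)
-/

namespace E4.XM

open E4.RC

section
variable {R : Type*} [Ring R] {G : Subgroup Rˣ}

theorem bu_add (z : Rˣ) (V W : R) : bu z (V + W) = bu z V + bu z W := by
  simp only [bu, add_mul, mul_add]

theorem bu_neg (z : Rˣ) (V : R) : bu z (-V) = -bu z V := by
  simp only [bu, neg_mul, mul_neg]

theorem bu_zero (z : Rˣ) : bu z (0 : R) = 0 := by
  simp only [bu, zero_mul, mul_zero]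

theorem u2_symm (g h : Rˣ) : (u2u g h : R) = u2u h g := add_comm _ _

theorem PL_conj {p : R} (hp : PL G p) {u : Rˣ} (hu : u ∈ G) : PL G (((u⁻¹ : Rˣ) : R) * (p * (u : R))) := by
  constructor
  · intro r
    have e : ((u⁻¹ : Rˣ) : R) * (p * (u : R)) * r * (((u⁻¹ : Rˣ) : R) * (p * (u : R))) =
        ((u⁻¹ : Rˣ) : R) * ((p * ((u : R) * r * ((u⁻¹ : Rˣ) : R)) * p) * (u : R)) := by
      simp only [mul_assoc]
    rw [e, hp.sq, zero_mul, mul_zero]
  · obtain ⟨v, hv, e⟩ := hp.mem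
    refine ⟨u⁻¹ * v * u, G.mul_mem (G.mul_mem (G.inv_mem hu) hv) hu, ?_⟩
    rw [Units.val_mul, Units.val_mul, e, mul_add, add_mul, mul_one, Units.inv_mul, mul_assoc]

/-- the units `1 + p` -/
structure SU (G : Subgroup Rˣ) (s : Rˣ) (p : R) : Prop where
  pl : PL G p
  mem : s ∈ G
  val : (s : R) = 1 + p
  inv : ((s⁻¹ : Rˣ) : R) = 1 + p

theorem SU_of (L : LW G) {p : R} (hp : PL G p) {s : Rˣ} (hs : s ∈ G) (e : (s : R) = 1 + p) : SU G s p := by
  refine ⟨hp, hs, e, ?_⟩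
  have h1 : (s : R) * (1 + p) = 1 := by
    have h2 : p * 1 * p = 0 := hp.sq 1
    rw [e, mul_add, mul_one, add_mul, one_mul]
    rw [mul_one] at h2
    rw [h2, add_zero, add_assoc, L.two, add_zero]
  calc ((s⁻¹ : Rˣ) : R) = ((s⁻¹ : Rˣ) : R) * ((s : R) * (1 + p)) := by rw [h1, mul_one]
    _ = 1 + p := by rw [Units.inv_mul_cancel_left]

theorem SU.exists (L : LW G) {p : R} (hp : PL G p) : ∃ s, SU G s p := by
  obtain ⟨s, hs, e⟩ := hp.mem
  exact ⟨s, SU_of L hp hs e⟩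

namespace FX

variable (F : FX G)
include F

theorem SU_sq {a : Rˣ} (ha : a ∈ G) : SU G (a * a) (Tu a) := by
  refine SU_of F.law (F.PT ha) (G.mul_mem ha ha) ?_
  have h := cub_of F.law.two (F.law.cube a ha)
  rw [Units.val_mul, Tu]
  refine F.law.eq_of ?_
  rw [← h]
  abel

/-- additive combinations of P-letters -/
theorem TBc' {x y : Rˣ} {r : R} (hx : x ∈ G) (hy : y ∈ G) (hr : r ∈ AddSubgroup.closure {p : R | PL G p}) :
    bu x (((y⁻¹ : Rˣ) : R) * (r * y)) = ((y⁻¹ : Rˣ) : R) * (bu x r * y) := by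
  induction hr using AddSubgroup.closure_induction with
  | mem p hp => exact F.TBc hx hy hp
  | zero => simp only [zero_mul, mul_zero, bu_zero]
  | add a b _ _ ha hb => rw [add_mul, mul_add, bu_add, ha, hb, bu_add, add_mul, mul_add]
  | neg a _ ha => rw [neg_mul, mul_neg, bu_neg, ha, bu_neg, neg_mul, mul_neg]

theorem bu_LP {y : Rˣ} {p : R} (hy : y ∈ G) (hp : PL G p) :
    bu y p ∈ AddSubgroup.closure {p : R | PL G p} := by
  obtain ⟨s, hs⟩ := SU.exists F.law hp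
  have e1 : Tu (y * s) = Tu y + ((y : R) * p + p * ((y⁻¹ : Rˣ) : R)) := by
    rw [Tu, Tu, mul_inv_rev, Units.val_mul, Units.val_mul, hs.val, hs.inv, mul_add, add_mul, mul_one, one_mul]
    abel
  have e2 : bu y p = Tu (y * s) - Tu y + ((y⁻¹ : Rˣ) : R) * (p * (y : R)) + p := by
    rw [F.TF hy hp, e1]
    abel
  rw [e2]
  have m := fun {q : R} (hq : PL G q) => AddSubgroup.subset_closure (G := R) (k := {p : R | PL G p}) hq
  exact add_mem (add_mem (sub_mem (m (F.PT (G.mul_mem hy hs.mem))) (m (F.PT hy))) (m (PL_conj hp hy))) (m hp)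

end FX

/-- the value of `T^(g; h, y)` is `M * G` -/
def Mu (h y : Rˣ) (p : R) : R := bu (h * y) p + bu h p + bu y p + bu h (bu y p)

namespace FX

variable (F : FX G)
include F

theorem Mconj {h y u : Rˣ} {p : R} (hh : h ∈ G) (hy : y ∈ G) (hu : u ∈ G) (hp : PL G p) :
    Mu h y (((u⁻¹ : Rˣ) : R) * (p * (u : R))) = ((u⁻¹ : Rˣ) : R) * (Mu h y p * (u : R)) := by
  unfold Mu
  rw [F.TBc (G.mul_mem hh hy) hu hp, F.TBc hh hu hp, F.TBc hy hu hp, F.TBc' hh hu (F.bu_LP hy hp)]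
  simp only [add_mul, mul_add]

theorem Ul {g h : Rˣ} {p : R} (hg : g ∈ G) (hh : h ∈ G) (hp : PL G p) :
    p * u2u g h = bu g p * Cu h + bu h p * Cu g := by
  rw [u2u, mul_add, F.T3r hg hh hp, F.T3r hh hg hp, F.TC hg hh hp]
  have e := F.law.two (bu h (bu g p))
  calc _ = bu g p * Cu h + bu h p * Cu g + (bu h (bu g p) + bu h (bu g p)) := by abel
    _ = _ := by rw [e, add_zero]

theorem Ur {g h : Rˣ} {p : R} (hg : g ∈ G) (hh : h ∈ G) (hp : PL G p) :
    u2u g h * p = Cu h * bu g p + Cu g * bu h p := by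
  rw [u2u, add_mul, F.T3 hg hh hp, F.T3 hh hg hp, F.TC hg hh hp]
  have e := F.law.two (bu h (bu g p))
  calc _ = Cu h * bu g p + Cu g * bu h p + (bu h (bu g p) + bu h (bu g p)) := by abel
    _ = _ := by rw [e, add_zero]

theorem bconj {x v : Rˣ} {p : R} (hx : x ∈ G) (hv : v ∈ G) (hp : PL G p) :
    bu x ((v : R) * (p * ((v⁻¹ : Rˣ) : R))) = (v : R) * (bu x p * ((v⁻¹ : Rˣ) : R)) := by
  have e := F.TBc hx (G.inv_mem hv) hp
  rwa [inv_inv] at e

theorem PLc {v : Rˣ} {p : R} (hv : v ∈ G) (hp : PL G p) : PL G ((v : R) * (p * ((v⁻¹ : Rˣ) : R))) := by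
  have e := PL_conj hp (G.inv_mem hv)
  rwa [inv_inv] at e

theorem Ur' {g h v : Rˣ} {p : R} (hg : g ∈ G) (hh : h ∈ G) (hv : v ∈ G) (hp : PL G p) :
    u2u g h * ((v : R) * p) = Cu h * ((v : R) * bu g p) + Cu g * ((v : R) * bu h p) := by
  have e := F.Ur hg hh (F.PLc hv hp)
  rw [F.bconj hg hv hp, F.bconj hh hv hp] at e
  have e2 := congrArg (fun r : R => r * (v : R)) e
  simp only [add_mul, mul_assoc, Units.inv_mul, mul_one] at e2
  exact e2

theorem bl {h y v : Rˣ} {p : R} (hh : h ∈ G) (hy : y ∈ G) (hv : v ∈ G) (hp : PL G p) :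
    p * ((v : R) * bu h (Cu y⁻¹)) = bu h p * ((v : R) * Cu y) + bu h (bu y p) * (v : R) := by
  have e := F.T3r hh hy (PL_conj hp hv)
  rw [F.TBc hh hv hp, F.TBc hy hv hp, F.TBc' hh hv (F.bu_LP hy hp)] at e
  have e2 := congrArg (fun r : R => (v : R) * r) e
  simp only [mul_add, mul_assoc, Units.mul_inv_cancel_left] at e2
  exact e2

theorem Tl {g h y : Rˣ} {p : R} (hg : g ∈ G) (hh : h ∈ G) (hy : y ∈ G) (hp : PL G p) :
    p * ttu g h y = Mu h y p * Cu g := by
  have L := F.law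
  have e1 := F.Ul (G.mul_mem hh hy) hg hp
  have e2 := F.Ul hh hg hp
  have e3 := F.Ul hy hg hp
  have e4 := F.bl hh hy hg hp
  have e5 := F.T3r hh hy hp
  unfold ttu Mu
  linear_combination (norm := skip) e1 + e2 + e3 + e2 * Cu y + e4 + e5
  simp only [Cu, Units.val_mul]
  try rw [← sub_eq_zero]
  simp only [L.hsub, L.hneg, mul_add, add_mul, mul_assoc, mul_one, one_mul, mul_zero, zero_mul,
    add_zero, zero_add, sub_zero, neg_zero]
  try abel_nf
  try simp only [L.z2, L.z4, L.z6, L.z8, L.z3, L.z5, add_zero, zero_add]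

theorem Tr {g h y : Rˣ} {p : R} (hg : g ∈ G) (hh : h ∈ G) (hy : y ∈ G) (hp : PL G p) :
    ttu g h y * p = Cu g * Mu h y p := by
  have L := F.law
  have e1 := F.Ur (G.mul_mem hh hy) hg hp
  have e2 := F.Ur hh hg hp
  have e3 := F.Ur hy hg hp
  have e4 := F.Ur' hh hg hy hp
  have e5 := F.T3 hh hy hp
  unfold ttu Mu
  linear_combination (norm := skip) e1 + e2 + e3 + e4 + e2 + Cu g * e5
  simp only [Cu, Units.val_mul]
  try rw [← sub_eq_zero]
  simp only [L.hsub, L.hneg, mul_add, add_mul, mul_assoc, mul_one, one_mul, mul_zero, zero_mul,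
    add_zero, zero_add, sub_zero, neg_zero]
  try abel_nf
  try simp only [L.z2, L.z4, L.z6, L.z8, L.z3, L.z5, add_zero, zero_add]

/-- `c4` is killed by the P-letters from the left -/
theorem c4l {g w h y : Rˣ} {p : R} (hg : g ∈ G) (hw : w ∈ G) (hh : h ∈ G) (hy : y ∈ G) (hp : PL G p) :
    p * c4u g w h y = 0 := by
  have L := F.law
  have e1 := F.Tl (G.mul_mem hg hw) hh hy hp
  have e2 := F.Tl hg hh hy hp
  have e3 := F.Tl hw hh hy hp
  unfold c4u
  linear_combination (norm := skip) e1 + e2 + e3 + e2 * Cu w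
  simp only [Cu, Units.val_mul]
  try rw [← sub_eq_zero]
  simp only [L.hsub, L.hneg, mul_add, add_mul, mul_assoc, mul_one, one_mul, mul_zero, zero_mul,
    add_zero, zero_add, sub_zero, neg_zero]
  try abel_nf
  try simp only [L.z2, L.z4, L.z6, L.z8, L.z3, L.z5, add_zero, zero_add]

theorem Tr' {g h y v : Rˣ} {p : R} (hg : g ∈ G) (hh : h ∈ G) (hy : y ∈ G) (hv : v ∈ G) (hp : PL G p) :
    ttu g h y * ((v : R) * p) = Cu g * ((v : R) * Mu h y p) := by
  have e := F.Tr hg hh hy (F.PLc hv hp)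
  have e1 := F.Mconj hh hy (G.inv_mem hv) hp
  rw [inv_inv] at e1
  rw [e1] at e
  have e2 := congrArg (fun r : R => r * (v : R)) e
  simp only [mul_assoc, Units.inv_mul, mul_one] at e2
  exact e2

/-- `c4` is killed by the P-letters from the right -/
theorem c4r {g w h y : Rˣ} {p : R} (hg : g ∈ G) (hw : w ∈ G) (hh : h ∈ G) (hy : y ∈ G) (hp : PL G p) :
    c4u g w h y * p = 0 := by
  have L := F.law
  have e1 := F.Tr (G.mul_mem hg hw) hh hy hp
  have e2 := F.Tr hg hh hy hp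
  have e3 := F.Tr hw hh hy hp
  have e4 := F.Tr' hg hh hy hw hp
  unfold c4u
  linear_combination (norm := skip) e1 + e2 + e3 + e4 + e2
  simp only [Cu, Units.val_mul]
  try rw [← sub_eq_zero]
  simp only [L.hsub, L.hneg, mul_add, add_mul, mul_assoc, mul_one, one_mul, mul_zero, zero_mul,
    add_zero, zero_add, sub_zero, neg_zero]
  try abel_nf
  try simp only [L.z2, L.z4, L.z6, L.z8, L.z3, L.z5, add_zero, zero_add]

end FX

end

end E4.XM
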