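import Pool.Agent.Lib.MP_8a95e3_al.XM2

/-!
# XM3 : the values of `tt`, the pair swap, insensitivity of `c4` (ring level)
-/

namespace E4.XM

open E4.RC

section
variable {R : Type*} [Ring R] {G : Subgroup Rˣ}

namespace FX

variable (F : FX G)
include F

theorem SU_bu {s : Rˣ} {p : R} (hs : SU G s p) (V : R) : bu s V = 0 := by
  have e : Tu s = (0 : R) := by rw [Tu, hs.val, hs.inv, F.law.two]
  rw [bu, e, mul_zero, mul_zero]

theorem SU_Cu {s : Rˣ} {p : R} (hs : SU G s p) : Cu s = p := by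
  have e : (1 + p + 1 : R) = p + (1 + 1) := by abel
  rw [Cu, hs.val, e, F.law.two, add_zero]

theorem SU_Cu' {s : Rˣ} {p : R} (hs : SU G s p) : Cu s⁻¹ = p := by
  have e : (1 + p + 1 : R) = p + (1 + 1) := by abel
  rw [Cu, hs.inv, e, F.law.two, add_zero]

theorem SU_u2 {s z : Rˣ} {p : R} (hs : SU G s p) : u2u z s = bu z p := by
  rw [u2u, F.SU_bu hs, F.SU_Cu' hs, add_zero]

/-- value of `tt` at `g = 1 + p` -/
theorem T1 {s h y : Rˣ} {p : R} (hs : SU G s p) (hh : h ∈ G) (hy : y ∈ G) : ttu s h y = Mu h y p := by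
  have L := F.law
  have e1 := F.T3r hh hy hs.pl
  unfold ttu Mu
  rw [F.SU_u2 hs, F.SU_u2 hs, F.SU_u2 hs, F.SU_Cu hs, e1]
  have e2 := L.two (bu h p * Cu y)
  calc _ = bu (h * y) p + bu h p + bu y p + bu h (bu y p) + (bu h p * Cu y + bu h p * Cu y) := by abel
    _ = _ := by rw [e2, add_zero]

/-- value of `tt` at `y = 1 + p` -/
theorem Ts {s g h : Rˣ} {p : R} (hs : SU G s p) (hg : g ∈ G) (hh : h ∈ G) : ttu g h s = nupu p h g := by
  have L := F.law
  have q0 : p * p = 0 := by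
    have := hs.pl.sq 1
    rwa [mul_one] at this
  have q1 : ∀ a : R, p * (p * a) = 0 := fun a => by rw [← mul_assoc, q0, zero_mul]
  have q2 : ∀ a : R, p * (a * p) = 0 := fun a => by rw [← mul_assoc, hs.pl.sq]
  have q3 : ∀ a b : R, p * (a * (p * b)) = 0 := fun a b => by rw [← mul_assoc, ← mul_assoc, hs.pl.sq, zero_mul]
  have q4 : ∀ a b : R, p * (a * (b * p)) = 0 := fun a b => by rw [← mul_assoc a, q2]
  have q5 : ∀ a b c : R, p * (a * (b * (p * c))) = 0 := fun a b c => by rw [← mul_assoc a, q3]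
  have e1 := F.Ur hh hg hs.pl
  have e2 := F.NL hg hh hs.pl
  have e3 : bu g p = Cu g * (p * Tu g) := rfl
  have e4 : bu (h * s) (Cu g⁻¹) = bu h (Cu g⁻¹) + (h : R) * (p * (Cu g⁻¹ * Tu h)) +
      Cu h * (Cu g⁻¹ * ((h : R) * p + p * ((h⁻¹ : Rˣ) : R))) := by
    unfold bu
    rw [← sub_eq_zero]
    simp only [Cu, Tu, Units.val_mul, mul_inv_rev, hs.val, hs.inv, L.hsub, L.hneg, mul_add, add_mul, mul_assoc, mul_one,
      one_mul, mul_zero, zero_mul, add_zero, zero_add, sub_zero, neg_zero, q0, q1, q2, q3, q4, q5]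
    try abel_nf
    try simp only [L.z2, L.z4, L.z6, L.z8, L.z3, L.z5, add_zero, zero_add]
  have e5 : bu g (Cu (h * s)⁻¹) = bu g (Cu h⁻¹) + Cu g * (p * (((h⁻¹ : Rˣ) : R) * Tu g)) := by
    unfold bu
    rw [← sub_eq_zero]
    simp only [Cu, Tu, Units.val_mul, mul_inv_rev, hs.val, hs.inv, L.hsub, L.hneg, mul_add, add_mul, mul_assoc, mul_one,
      one_mul, mul_zero, zero_mul, add_zero, zero_add, sub_zero, neg_zero]
    try abel_nf
    try simp only [L.z2, L.z4, L.z6, L.z8, L.z3, L.z5, add_zero, zero_add]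
  have e6 : u2u s g = bu g p := by rw [u2_symm, F.SU_u2 hs]
  have e7 : (((h⁻¹ : Rˣ) : R)) * (Cu g * (p * Tu g)) = ((h⁻¹ : Rˣ) : R) * bu g p := rfl
  unfold ttu nupu
  rw [e6, F.SU_Cu hs, F.SU_Cu' hs, e1, e7, u2u, e4, e5, u2u]
  linear_combination (norm := skip) e2
  simp only [Cu]
  try rw [← sub_eq_zero]
  simp only [L.hsub, L.hneg, mul_add, add_mul, mul_assoc, mul_one, one_mul, mul_zero, zero_mul,
    add_zero, zero_add, sub_zero, neg_zero]
  try abel_nf
  try simp only [L.z2, L.z4, L.z6, L.z8, L.z3, L.z5, add_zero, zero_add]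

/-- `c4 g w h (1 + p) = D_g nu(p, h; g)` -/
theorem c4_s {s g w h : Rˣ} {p : R} (hs : SU G s p) (hg : g ∈ G) (hw : w ∈ G) (hh : h ∈ G) :
    c4u g w h s = nupu p h (g * w) + nupu p h g + nupu p h w + nupu p h g * Cu w := by
  rw [c4u, F.Ts hs (G.mul_mem hg hw) hh, F.Ts hs hg hh, F.Ts hs hw hh]

/-- the pair swap -/
theorem PS {g w h y : Rˣ} (hg : g ∈ G) (hw : w ∈ G) (hh : h ∈ G) (hy : y ∈ G) : c4u g w h y = c4u h y g w := by
  have L := F.law
  have a1 := F.Ur hg hh (F.PT (G.mul_mem hw hy))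
  have a2 := F.Ur hg hh (F.PT hy)
  have a3 := F.Ur' hg hh (G.inv_mem hy) (F.PT hw)
  have b1 := F.T2 hh hy hw
  have b2 := F.T2b hg hw hy
  have a4 : u2u g h * ((w : R) * (y : R) + (y : R) * (w : R)) =
      u2u g h * Tu (w * y) + u2u g h * Tu y * (w : R) + u2u g h * (((y⁻¹ : Rˣ) : R) * Tu w) := by
    rw [← sub_eq_zero]
    simp only [Tu, Units.val_mul, mul_inv_rev, L.hsub, L.hneg, mul_add, add_mul, mul_assoc, mul_one,
      one_mul, mul_zero, zero_mul, add_zero, zero_add, sub_zero, neg_zero]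
    try abel_nf
    try simp only [L.z2, L.z4, L.z6, L.z8, L.z3, L.z5, add_zero, zero_add]
  rw [a1, a2, a3] at a4
  have s1 := u2_symm (R := R) (g * w) (h * y)
  have s2 := u2_symm (R := R) (g * w) h
  have s3 := u2_symm (R := R) (g * w) y
  have s4 := u2_symm (R := R) g (h * y)
  have s5 := u2_symm (R := R) w (h * y)
  have s6 := u2_symm (R := R) h g
  have s7 := u2_symm (R := R) w h
  have s8 := u2_symm (R := R) y g
  have s9 := u2_symm (R := R) w y
  unfold c4u ttu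
  rw [s1, s2, s3, s4, s5, s6, s7, s8, s9]
  linear_combination (norm := skip) a4 + Cu g * b1 + Cu h * b2
  generalize u2u (h * y) (g * w) = t1
  generalize u2u h (g * w) = t2
  generalize u2u y (g * w) = t3
  generalize u2u (h * y) g = t4
  generalize u2u (h * y) w = t5
  generalize u2u g h = t6
  generalize u2u h w = t7
  generalize u2u g y = t8
  generalize u2u y w = t9
  generalize bu h (Cu y⁻¹) = t10
  generalize bu g (Cu w⁻¹) = t11
  generalize bu h (Tu (w * y)) = t12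
  generalize bu g (Tu (w * y)) = t13
  generalize bu h (Tu y) = t14
  generalize bu g (Tu y) = t15
  generalize bu h (Tu w) = t16
  generalize bu g (Tu w) = t17
  simp only [Cu, Units.val_mul]
  try rw [← sub_eq_zero]
  simp only [L.hsub, L.hneg, mul_add, add_mul, mul_assoc, mul_one, one_mul, mul_zero, zero_mul,
    add_zero, zero_add, sub_zero, neg_zero]
  try abel_nf
  try simp only [L.z2, L.z4, L.z6, L.z8, L.z3, L.z5, add_zero, zero_add]

end FX

/-- 2-cocycle law of `D_g` -/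
theorem coc (L : LW G) (g w s h y : Rˣ) :
    c4u g (w * s) h y + c4u (g * w) s h y + c4u w s h y + c4u g w h y * (s : R) = 0 := by
  unfold c4u
  rw [← mul_assoc g w s]
  generalize (ttu (g * w * s) h y : R) = t1
  generalize (ttu (w * s) h y : R) = t2
  generalize (ttu (g * w) h y : R) = t3
  generalize (ttu g h y : R) = t4
  generalize (ttu w h y : R) = t5
  generalize (ttu s h y : R) = t6
  simp only [Cu, Units.val_mul]
  simp only [L.hsub, L.hneg, mul_add, add_mul, mul_assoc, mul_one, one_mul, mul_zero, zero_mul,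
    add_zero, zero_add, sub_zero, neg_zero]
  try abel_nf
  try simp only [L.z2, L.z4, L.z6, L.z8, L.z3, L.z5, add_zero, zero_add]

namespace FX

variable (F : FX G) (H3 : ∀ {a g h : Rˣ}, a ∈ G → g ∈ G → h ∈ G → c3u a g h = 0)
include F H3

theorem nu_kap {a g h : Rˣ} (ha : a ∈ G) (hg : g ∈ G) (hh : h ∈ G) : nupu (Tu a) h g = Cu g * kapu a h :=
  (F.law.eq_of (H3 ha hg hh)).symm

theorem Z1 {a g w h : Rˣ} (ha : a ∈ G) (hg : g ∈ G) (hw : w ∈ G) (hh : h ∈ G) : c4u g w h (a * a) = 0 := by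
  have L := F.law
  rw [F.c4_s (F.SU_sq ha) hg hw hh, F.nu_kap H3 ha (G.mul_mem hg hw) hh, F.nu_kap H3 ha hg hh, F.nu_kap H3 ha hw hh,
    mul_assoc (Cu g), ← F.kap hw hh ha]
  generalize (kapu a h : R) = k
  simp only [Cu, Units.val_mul]
  simp only [L.hsub, L.hneg, mul_add, add_mul, mul_assoc, mul_one, one_mul, mul_zero, zero_mul,
    add_zero, zero_add, sub_zero, neg_zero]
  try abel_nf
  try simp only [L.z2, L.z4, L.z6, L.z8, L.z3, L.z5, add_zero, zero_add]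

theorem Z2 {a g h y : Rˣ} (ha : a ∈ G) (hg : g ∈ G) (hh : h ∈ G) (hy : y ∈ G) : c4u g (a * a) h y = 0 := by
  rw [F.PS hg (G.mul_mem ha ha) hh hy, F.Z1 H3 ha hh hy hg]

theorem Ib {a g w h y : Rˣ} (ha : a ∈ G) (hg : g ∈ G) (hw : w ∈ G) (hh : h ∈ G) (hy : y ∈ G) :
    c4u g (w * (a * a)) h y = c4u g w h y := by
  have e := coc F.law g w (a * a) h y
  have hs := F.SU_sq ha
  rw [F.Z2 H3 ha (G.mul_mem hg hw) hh hy, F.Z2 H3 ha hw hh hy, hs.val, mul_add, mul_one, F.c4r hg hw hh hy hs.pl,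
    add_zero, add_zero, add_zero] at e
  exact F.law.eq_of e

theorem tt_mul {a w h y : Rˣ} (ha : a ∈ G) (hw : w ∈ G) (hh : h ∈ G) (hy : y ∈ G) :
    ttu (a * a * w) h y = ttu w h y + Mu h y (Tu a) * (w : R) := by
  have L := F.law
  have hs := F.SU_sq ha
  have hb : w⁻¹ * a * w ∈ G := G.mul_mem (G.mul_mem (G.inv_mem hw) ha) hw
  have hb' := F.SU_sq hb
  have e0 : a * a * w = w * ((w⁻¹ * a * w) * (w⁻¹ * a * w)) := by group
  have e1 := F.Z2 H3 hb hw hh hy
  have e2 := F.T1 hb' hh hy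
  have e3 := F.Tr hw hh hy hb'.pl
  have e4 : Tu (w⁻¹ * a * w) = ((w⁻¹ : Rˣ) : R) * (Tu a * (w : R)) := by
    simp only [Tu, mul_inv_rev, inv_inv, Units.val_mul, mul_add, add_mul, mul_assoc]
  have e5 := F.Mconj hh hy hw hs.pl
  unfold c4u at e1
  rw [F.SU_Cu hb', e2, e3, e4, e5, ← e0] at e1
  refine L.eq_of ?_
  rw [← e1]
  rw [← sub_eq_zero]
  simp only [Cu]
  simp only [L.hsub, L.hneg, mul_add, add_mul, mul_assoc, mul_one, one_mul, mul_zero, zero_mul,
    add_zero, zero_add, sub_zero, neg_zero, Units.mul_inv_cancel_left]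
  try abel_nf
  try simp only [L.z2, L.z4, L.z6, L.z8, L.z3, L.z5, add_zero, zero_add]

theorem Zs {a w h y : Rˣ} (ha : a ∈ G) (hw : w ∈ G) (hh : h ∈ G) (hy : y ∈ G) : c4u (a * a) w h y = 0 := by
  have L := F.law
  have hs := F.SU_sq ha
  rw [c4u, F.tt_mul H3 ha hw hh hy, F.T1 hs hh hy]
  simp only [Cu]
  simp only [L.hsub, L.hneg, mul_add, add_mul, mul_assoc, mul_one, one_mul, mul_zero, zero_mul,
    add_zero, zero_add, sub_zero, neg_zero]
  try abel_nf
  try simp only [L.z2, L.z4, L.z6, L.z8, L.z3, L.z5, add_zero, zero_add]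

theorem Ia {a g w h y : Rˣ} (ha : a ∈ G) (hg : g ∈ G) (hw : w ∈ G) (hh : h ∈ G) (hy : y ∈ G) :
    c4u (g * (a * a)) w h y = c4u g w h y := by
  have L := F.law
  have e := coc L g (a * a) w h y
  have hb : w⁻¹ * a * w ∈ G := G.mul_mem (G.mul_mem (G.inv_mem hw) ha) hw
  have e0 : a * a * w = w * ((w⁻¹ * a * w) * (w⁻¹ * a * w)) := by group
  rw [F.Zs H3 ha hw hh hy, F.Z2 H3 ha hg hh hy, zero_mul, add_zero, add_zero, e0, F.Ib H3 hb hg hw hh hy] at e
  exact (L.eq_of e).symm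

theorem Ic {a g w h y : Rˣ} (ha : a ∈ G) (hg : g ∈ G) (hw : w ∈ G) (hh : h ∈ G) (hy : y ∈ G) :
    c4u g w (h * (a * a)) y = c4u g w h y := by
  rw [F.PS hg hw (G.mul_mem hh (G.mul_mem ha ha)) hy, F.Ia H3 ha hh hy hg hw, F.PS hh hy hg hw]

theorem Id {a g w h y : Rˣ} (ha : a ∈ G) (hg : g ∈ G) (hw : w ∈ G) (hh : h ∈ G) (hy : y ∈ G) :
    c4u g w h (y * (a * a)) = c4u g w h y := by
  rw [F.PS hg hw hh (G.mul_mem hy (G.mul_mem ha ha)), F.Ib H3 ha hh hy hg hw, F.PS hh hy hg hw]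

end FX

end

end E4.XM
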