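import Pool.Agent.Lib.MP_8a95e3_al.XM2

/-!
# XM4 : insensitivity of `c3` (ring level)
-/

namespace E4.XM

open E4.RC

section
variable {R : Type*} [Ring R] {G : Subgroup Rˣ}

namespace FX

variable (F : FX G)
include F

/-- `c3` is killed by the P-letters from the left -/
theorem c3l {a g h : Rˣ} {p : R} (ha : a ∈ G) (hg : g ∈ G) (hh : h ∈ G) (hp : PL G p) : p * c3u a g h = 0 := by
  rw [c3u, F.kap hg hh ha, mul_add, ← mul_assoc, F.B2 ha hh hp, F.NLL hg hh hp (F.PT ha), F.law.two]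

/-- `c3` is killed by the P-letters from the right -/
theorem c3r {a g h : Rˣ} {p : R} (ha : a ∈ G) (hg : g ∈ G) (hh : h ∈ G) (hp : PL G p) : c3u a g h * p = 0 := by
  rw [c3u, add_mul, mul_assoc, F.B1 ha hh hp, F.B2 ha hh hp, F.NRR hg hh hp (F.PT ha), F.law.two]

theorem nu_exp {s g h : Rˣ} {p q : R} (hs : SU G s p) :
    nupu q h (g * s) = nupu q h g + dnu p q h g := by
  have L := F.law
  have q0 : p * p = 0 := by
    have := hs.pl.sq 1
    rwa [mul_one] at this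
  have q1 : ∀ a : R, p * (p * a) = 0 := fun a => by rw [← mul_assoc, q0, zero_mul]
  have q2 : ∀ a : R, p * (a * p) = 0 := fun a => by rw [← mul_assoc, hs.pl.sq]
  have q3 : ∀ a b : R, p * (a * (p * b)) = 0 := fun a b => by rw [← mul_assoc, ← mul_assoc, hs.pl.sq, zero_mul]
  have q4 : ∀ a b : R, p * (a * (b * p)) = 0 := fun a b => by rw [← mul_assoc a, q2]
  have q5 : ∀ a b c : R, p * (a * (b * (p * c))) = 0 := fun a b c => by rw [← mul_assoc a, q3]
  have q6 : ∀ a b c : R, p * (a * (b * (c * p))) = 0 := fun a b c => by rw [← mul_assoc b, q4]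
  have q7 : ∀ a b c d : R, p * (a * (b * (c * (p * d)))) = 0 := fun a b c d => by rw [← mul_assoc b, q5]
  have q8 : ∀ a b c d : R, p * (a * (b * (c * (d * p)))) = 0 := fun a b c d => by rw [← mul_assoc c, q6]
  unfold nupu dnu
  rw [← sub_eq_zero]
  generalize (Tu h : R) = t
  generalize (Cu h : R) = c
  simp only [Cu, Tu, Units.val_mul, mul_inv_rev, hs.val, hs.inv, L.hsub, L.hneg, mul_add, add_mul, mul_assoc, mul_one,
    one_mul, mul_zero, zero_mul, add_zero, zero_add, sub_zero, neg_zero, q0, q1, q2, q3, q4, q5, q6, q7, q8]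
  try abel_nf
  try simp only [L.z2, L.z4, L.z6, L.z8, L.z3, L.z5, add_zero, zero_add]

theorem c3b {s a g h : Rˣ} {p : R} (hs : SU G s p) (ha : a ∈ G) (hg : g ∈ G) (hh : h ∈ G) :
    c3u a (g * s) h = c3u a g h := by
  have L := F.law
  have e1 := F.NI hg hh hs.pl (F.PT ha)
  have f1 : eu (g * h) (Tu a) p = 0 := F.eT (G.mul_mem hg hh) ha hs.pl
  have f2 : eu g (Tu a) p = 0 := F.eT hg ha hs.pl
  have f3 : eu h (Tu a) p = 0 := F.eT hh ha hs.pl
  rw [f1, f2, f3, add_zero, add_zero, mul_zero, add_zero] at e1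
  have e2 := F.B2 ha hh hs.pl
  rw [c3u, c3u, F.nu_exp hs, e1, ← e2]
  generalize (kapu a h : R) = k
  generalize nupu (Tu a) h g = n
  rw [← sub_eq_zero]
  simp only [Cu, Units.val_mul, hs.val]
  simp only [L.hsub, L.hneg, mul_add, add_mul, mul_assoc, mul_one, one_mul, mul_zero, zero_mul,
    add_zero, zero_add, sub_zero, neg_zero]
  try abel_nf
  try simp only [L.z2, L.z4, L.z6, L.z8, L.z3, L.z5, add_zero, zero_add]

theorem c3a {s a g h : Rˣ} {p : R} (hs : SU G s p) (ha : a ∈ G) (hg : g ∈ G) (hh : h ∈ G) :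
    c3u (a * s) g h = c3u a g h := by
  rw [F.Y1 (G.mul_mem ha hs.mem) hh hg, F.c3b hs hg ha hh, ← F.Y1 ha hh hg]

theorem c3s {a g h : Rˣ} (ha : a ∈ G) (hg : g ∈ G) (hh : h ∈ G) : c3u a g h = c3u h g a := by
  rw [c3u, c3u, F.Y0 ha hh, F.Y2 ha hh hg]

theorem c3c {s a g h : Rˣ} {p : R} (hs : SU G s p) (ha : a ∈ G) (hg : g ∈ G) (hh : h ∈ G) :
    c3u a g (h * s) = c3u a g h := by
  rw [F.c3s ha hg (G.mul_mem hh hs.mem), F.c3a hs hh hg ha, ← F.c3s ha hg hh]

end FX

end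

end E4.XM
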