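import Pool.Agent.Lib.MP_8a95e3_al.I00
import Pool.Agent.Lib.MP_8a95e3_al.XC
import Pool.Agent.Lib.MP_8a95e3_al.XM1
import Pool.Agent.Lib.MP_8a95e3_al.XM3
import Pool.Agent.Lib.MP_8a95e3_al.XM4
import Pool.Agent.Lib.MP_8a95e3_al.RK.E_C3

/-!
# XM5 : the generators `c3`, `c4`: killed by squares, insensitive (for every T-ideal)
-/

noncomputable section

namespace E4.X

open E4 E4.XM

theorem M5_law {P : AddSubgroup FB} (h : TI P) : LW (qG P h.bi) := ⟨q_two h.bi, q_cube h.bi h.cube⟩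

theorem M5_C {P : AddSubgroup FB} (h : Bi P) (g : F) : qm P h (C g) = Cu (qu P h g) := by
  rw [C, map_add, map_one, Cu, qu_val]

theorem M5_T {P : AddSubgroup FB} (h : Bi P) (g : F) : qm P h (T g) = Tu (qu P h g) := by
  rw [T, map_add, Tu, qu_inv, qu_val]

theorem M5_o {P : AddSubgroup FB} (h : Bi P) (g : F) : qm P h (o g) = (qu P h g : QR P h) := by
  rw [qu_val]

theorem M5_o' {P : AddSubgroup FB} (h : Bi P) (g : F) :
    qm P h (o g⁻¹) = (((qu P h g)⁻¹ : (QR P h)ˣ) : QR P h) := by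
  rw [qu_inv]

/-- `C (c ^ 2)` and `T c` agree modulo `P` -/
theorem M5_sq {P : AddSubgroup FB} (h : TI P) (c : F) : qm P h.bi (C (c ^ 2)) = qm P h.bi (T c) := by
  have e := E4.RC.cub_of (q_two h.bi) (q_cube h.bi h.cube _ (qu_mem h.bi c))
  rw [M5_C, M5_T, map_pow, Cu, Tu, pow_two, Units.val_mul]
  refine E4.RC.eq_of_two (q_two h.bi) ?_
  rw [← e]
  abel

theorem M5_PL {P : AddSubgroup FB} (h : TI P) (c : F) : E4.RC.PL (qG P h.bi) (qm P h.bi (C (c ^ 2))) := by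
  refine q_PL h.bi _ fun v => ?_
  rw [← qm_zero h.bi, map_mul, map_mul, M5_sq h]
  have e := E4.RC.C3 (q_two h.bi) (q_cube h.bi h.cube) (qu_mem h.bi c) (qu_mem h.bi v)
  rw [M5_T, M5_o, Tu, mul_assoc]
  exact e

theorem M5_fx {P : AddSubgroup FB} (h : TI P) : FX (qG P h.bi) :=
  (M5_law h).fx fun {x} hx => by
    obtain ⟨g, rfl⟩ := hx
    rw [← M5_T h.bi, ← M5_sq h]
    exact M5_PL h g

theorem M5_kap {P : AddSubgroup FB} (h : Bi P) (a k : F) :
    qm P h (kap a k) = kapu (qu P h a) (qu P h k) := by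
  simp only [kap, kapu, map_add, map_mul, M5_C, M5_T, map_inv, mul_assoc]

theorem M5_nuT {P : AddSubgroup FB} (h : Bi P) (a k g : F) :
    qm P h (nuT a k g) = nupu (Tu (qu P h a)) (qu P h k) (qu P h g) := by
  simp only [nuT, nupu, map_add, map_mul, M5_C, M5_T, M5_o, map_inv, mul_assoc]

theorem M5_c3 {P : AddSubgroup FB} (h : Bi P) (a g k : F) :
    qm P h (c3 a g k) = c3u (qu P h a) (qu P h g) (qu P h k) := by
  rw [c3, map_add, map_mul, M5_kap, M5_C, M5_nuT, c3u]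

theorem M5_u2 {P : AddSubgroup FB} (h : Bi P) (g k : F) :
    qm P h (u2 g k) = u2u (qu P h g) (qu P h k) := by
  simp only [u2, u2u, bu, map_add, map_mul, M5_C, M5_T, map_inv, mul_assoc]

theorem M5_tt {P : AddSubgroup FB} (h : Bi P) (g k y : F) :
    qm P h (tt g k y) = ttu (qu P h g) (qu P h k) (qu P h y) := by
  simp only [tt, ttu, bu, map_add, map_mul, M5_C, M5_T, M5_u2, map_inv, mul_assoc]

theorem M5_c4 {P : AddSubgroup FB} (h : Bi P) (g w k y : F) :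
    qm P h (c4 g w k y) = c4u (qu P h g) (qu P h w) (qu P h k) (qu P h y) := by
  simp only [c4, c4u, map_add, map_mul, M5_C, M5_tt]

theorem M5_SU {P : AddSubgroup FB} (h : TI P) (c : F) :
    SU (qG P h.bi) (qu P h.bi (c ^ 2)) (qm P h.bi (C (c ^ 2))) := by
  refine SU_of (M5_law h) (M5_PL h c) (qu_mem h.bi _) ?_
  rw [C, map_add, map_one, ← qu_val, add_left_comm, q_two, add_zero]

theorem gf_c3l {P : AddSubgroup FB} (h : TI P) (a g k c : F) : C (c ^ 2) * c3 a g k ∈ P := by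
  rw [← qm_zero h.bi, map_mul, M5_c3]
  exact (M5_fx h).c3l (qu_mem _ _) (qu_mem _ _) (qu_mem _ _) (M5_PL h c)

theorem gf_c3r {P : AddSubgroup FB} (h : TI P) (a g k c : F) : c3 a g k * C (c ^ 2) ∈ P := by
  rw [← qm_zero h.bi, map_mul, M5_c3]
  exact (M5_fx h).c3r (qu_mem _ _) (qu_mem _ _) (qu_mem _ _) (M5_PL h c)

theorem gf_c3a {P : AddSubgroup FB} (h : TI P) (a g k c : F) : c3 (a * c ^ 2) g k + c3 a g k ∈ P := by
  rw [← qm_zero h.bi, map_add, M5_c3, M5_c3, map_mul,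
    (M5_fx h).c3a (M5_SU h c) (qu_mem _ _) (qu_mem _ _) (qu_mem _ _)]
  exact q_two h.bi _

theorem gf_c3b {P : AddSubgroup FB} (h : TI P) (a g k c : F) : c3 a (g * c ^ 2) k + c3 a g k ∈ P := by
  rw [← qm_zero h.bi, map_add, M5_c3, M5_c3, map_mul,
    (M5_fx h).c3b (M5_SU h c) (qu_mem _ _) (qu_mem _ _) (qu_mem _ _)]
  exact q_two h.bi _

theorem gf_c3c {P : AddSubgroup FB} (h : TI P) (a g k c : F) : c3 a g (k * c ^ 2) + c3 a g k ∈ P := by
  rw [← qm_zero h.bi, map_add, M5_c3, M5_c3, map_mul,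
    (M5_fx h).c3c (M5_SU h c) (qu_mem _ _) (qu_mem _ _) (qu_mem _ _)]
  exact q_two h.bi _

theorem gf_c4l {P : AddSubgroup FB} (h : TI P) (g w k y c : F) : C (c ^ 2) * c4 g w k y ∈ P := by
  rw [← qm_zero h.bi, map_mul, M5_c4]
  exact (M5_fx h).c4l (qu_mem _ _) (qu_mem _ _) (qu_mem _ _) (qu_mem _ _) (M5_PL h c)

theorem gf_c4r {P : AddSubgroup FB} (h : TI P) (g w k y c : F) : c4 g w k y * C (c ^ 2) ∈ P := by
  rw [← qm_zero h.bi, map_mul, M5_c4]
  exact (M5_fx h).c4r (qu_mem _ _) (qu_mem _ _) (qu_mem _ _) (qu_mem _ _) (M5_PL h c)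

section
variable {P : AddSubgroup FB} (h : TI P) (hc3 : ∀ a g k : F, c3 a g k ∈ P)
include h hc3

theorem M5_H3 {a g k : (QR P h.bi)ˣ} (ha : a ∈ qG P h.bi) (hg : g ∈ qG P h.bi) (hk : k ∈ qG P h.bi) :
    c3u a g k = 0 := by
  obtain ⟨a, rfl⟩ := ha
  obtain ⟨g, rfl⟩ := hg
  obtain ⟨k, rfl⟩ := hk
  rw [← M5_c3, qm_zero]
  exact hc3 a g k

/-- if `c3 a g k ∈ P` for all `a g k`, then `c4` is insensitive modulo `P` -/
theorem gf_c4a (g w k y c : F) : c4 (g * c ^ 2) w k y + c4 g w k y ∈ P := by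
  rw [← qm_zero h.bi, map_add, M5_c4, M5_c4, map_mul, pow_two, map_mul,
    (M5_fx h).Ia (M5_H3 h hc3) (qu_mem _ _) (qu_mem _ _) (qu_mem _ _) (qu_mem _ _) (qu_mem _ _)]
  exact q_two h.bi _

theorem gf_c4b (g w k y c : F) : c4 g (w * c ^ 2) k y + c4 g w k y ∈ P := by
  rw [← qm_zero h.bi, map_add, M5_c4, M5_c4, map_mul, pow_two, map_mul,
    (M5_fx h).Ib (M5_H3 h hc3) (qu_mem _ _) (qu_mem _ _) (qu_mem _ _) (qu_mem _ _) (qu_mem _ _)]
  exact q_two h.bi _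

theorem gf_c4c (g w k y c : F) : c4 g w (k * c ^ 2) y + c4 g w k y ∈ P := by
  rw [← qm_zero h.bi, map_add, M5_c4, M5_c4, map_mul, pow_two, map_mul,
    (M5_fx h).Ic (M5_H3 h hc3) (qu_mem _ _) (qu_mem _ _) (qu_mem _ _) (qu_mem _ _) (qu_mem _ _)]
  exact q_two h.bi _

theorem gf_c4d (g w k y c : F) : c4 g w k (y * c ^ 2) + c4 g w k y ∈ P := by
  rw [← qm_zero h.bi, map_add, M5_c4, M5_c4, map_mul, pow_two, map_mul,
    (M5_fx h).Id (M5_H3 h hc3) (qu_mem _ _) (qu_mem _ _) (qu_mem _ _) (qu_mem _ _) (qu_mem _ _)]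
  exact q_two h.bi _

end

/-- `c4` is symmetric under the pair swap, modulo every T-ideal -/
theorem gf_swap {P : AddSubgroup FB} (h : TI P) (g w k y : F) : c4 g w k y + c4 k y g w ∈ P := by
  rw [← qm_zero h.bi, map_add, M5_c4, M5_c4, (M5_fx h).PS (qu_mem _ _) (qu_mem _ _) (qu_mem _ _) (qu_mem _ _)]
  exact q_two h.bi _

end E4.X
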