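import Pool.Agent.Lib.MP_8a95e3_al.XF
import Pool.Agent.Lib.MP_8a95e3_al.I03
import Pool.Agent.Lib.MP_8a95e3_al.XM5

/-!
# XM6 : the structure `GenF`
-/

noncomputable section

namespace E4.X

open E4

/-- values of `c3` are in the T-ideal generated by the first two generators -/
theorem c3_RG2 (a g k : F) : c3 a g k ∈ PG RG2 := by
  have h := PG_mem (R := RG2) (r := c3 (x 0) (x 1) (x 2)) (Or.inr rfl)
    (FreeGroup.lift fun i : ℕ => if i = 0 then a else if i = 1 then g else k)
  rw [eB_c3] at h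
  have e0 : (FreeGroup.lift fun i : ℕ => if i = 0 then a else if i = 1 then g else k) (x 0) = a := by
    rw [x, FreeGroup.lift_apply_of, if_pos rfl]
  have e1 : (FreeGroup.lift fun i : ℕ => if i = 0 then a else if i = 1 then g else k) (x 1) = g := by
    rw [x, FreeGroup.lift_apply_of, if_neg one_ne_zero, if_pos rfl]
  have e2 : (FreeGroup.lift fun i : ℕ => if i = 0 then a else if i = 1 then g else k) (x 2) = k := by
    rw [x, FreeGroup.lift_apply_of, if_neg two_ne_zero, if_neg (by norm_num)]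
  rwa [e0, e1, e2] at h

/-- **all finite inputs of Theorem D** -/
theorem genF : GenF where
  t2l := gf_t2l K0_TI
  t2r := gf_t2r K0_TI
  t2a := gf_t2a K0_TI
  t2b := gf_t2b K0_TI
  c3l := gf_c3l K0_TI
  c3r := gf_c3r K0_TI
  c3a := gf_c3a K0_TI
  c3b := gf_c3b K0_TI
  c3c := gf_c3c K0_TI
  c4l := gf_c4l K0_TI
  c4r := gf_c4r K0_TI
  c4a := gf_c4a (PG_TI _) c3_RG2
  c4b := gf_c4b (PG_TI _) c3_RG2
  c4c := gf_c4c (PG_TI _) c3_RG2
  c4d := gf_c4d (PG_TI _) c3_RG2

end E4.X
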