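import Pool.Agent.Lib.MP_8a95e3_al.XF
import Pool.Agent.Lib.MP_8a95e3_al.NF6

/-!
# XZ : assembly: from the exactness theorem and the finiteness statements to finite bases
-/

noncomputable section

namespace E4.X

open E4

/-- **Assembly.**  `hG`, `hI`: finite identities; `hA`: facts about the model; `hF4`: the group level. -/
theorem assembly (hG : GenF) (hI : Ids (PG RG))
    (hA : ∀ P : AddSubgroup FA, TIdl P → (∀ m, wA ofF m ∉ P) →
      (∀ Q : AddSubgroup FA, TIdl Q → P ≤ Q → (∀ m, wA ofF m ∉ Q) → Q ≤ P) → A0F (mB P))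
    (hF4 : ∀ U : ℕ → Subgroup F, Monotone U → (∀ n, Verb4 (U n)) → (∀ n, U n ≤ N.YK (cB K0) (cB_TIdl K0_TI)) →
      ∃ n, ∀ m ≥ n, U m = U n)
    {W : Subgroup F} (hW : Verb4 W) (hWs : ¬ Sol W) (hmax : ∀ V : Subgroup F, Verb4 V → ¬ V ≤ W → Sol V)
    (V : Subgroup F) (hV : Verb4 V) : ∃ T : Finset F, V = vcl (T : Set F) := by
  obtain ⟨P, hP, hPw, hPm, hF3⟩ := N.thmF3 hW hWs
  have hle : PG RG ≤ mB P := hG.le P hP hPw hPm
  have hex : mB P = PG RG := exact (hA P hP hPw hPm) hI hle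
  exact N.thmD hW hWs hmax (cB_TIdl K0_TI) (cK0_le hP) (hG.oacc P hP hex) (fun g p hp => by
    rw [mem_cB, map_mul, tob_sqe]
    refine hG.jl g ?_
    rw [← hex]
    exact ⟨p, hp, rfl⟩) hF3 hF4 V hV

end E4.X
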