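import Pool.Agent.Lib.MP_8a95e3_al.Defs

/-!
# YA1 : the linear algebra of the class two theorem (helper11)

`G` has exponent four, `M` is an abelian group with `2 M = 0` on which `G` acts by `ρ`.
-/

universe u

namespace E4.YA

private theorem sec_cub {G : Type*} {A : Type*} [Group G] [AddCommGroup A] (ρ : G →* AddMonoid.End A)
    (h2 : ∀ a : A, a + a = 0)
    (h4 : ∀ (g : G) (a : A), a + ρ g a + ρ g (ρ g a) + ρ g (ρ g (ρ g a)) = 0) : Cub ρ := by
  have htwo : (2 : AddMonoid.End A) = 0 := by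
    rw [← one_add_one_eq_two]
    ext a
    exact h2 a
  refine ⟨htwo, fun g => ?_⟩
  have h3 : (ρ g + 1) ^ 3 = (1 + ρ g + ρ g * ρ g + ρ g * (ρ g * ρ g)) + 2 * (ρ g + ρ g * ρ g) := by
    noncomm_ring
  unfold X
  rw [h3, htwo, zero_mul, add_zero]
  ext a
  exact h4 g a

private theorem sec_id {G : Type*} [Group G] (a g : G) :
    a * (g * a * g⁻¹) * (g * (g * a * g⁻¹) * g⁻¹) * (g * (g * (g * a * g⁻¹) * g⁻¹) * g⁻¹) = (a * g) ^ 4 * (g ^ 4)⁻¹ := by
  simp only [pow_succ, pow_zero, one_mul, mul_inv_rev, mul_assoc, inv_mul_cancel_left, mul_inv_cancel_left]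

/-- the module of an elementary abelian normal subgroup: `c` is the class of an element, `ρ` the conjugation -/
structure EM {G : Type*} [Group G] (B : Subgroup G) (M : Type*) [AddCommGroup M] (ρ : G →* AddMonoid.End M)
    (c : G → M) : Prop where
  cub : Cub ρ
  two : ∀ m : M, m + m = 0
  add : ∀ a ∈ B, ∀ b ∈ B, c (a * b) = c a + c b
  ker : ∀ b ∈ B, c b = 0 ↔ b = 1
  conj : ∀ g : G, ∀ b ∈ B, c (g * b * g⁻¹) = ρ g (c b)
  surj : ∀ m : M, ∃ b ∈ B, c b = m

/-- elementary abelian normal subgroup of a group of exponent four -/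
theorem exists_EM {G : Type u} [Group G] (h4 : Exp4 G) (B : Subgroup G) [B.Normal]
    (hBB : ∀ a ∈ B, ∀ b ∈ B, a * b = b * a) (hB2 : ∀ b ∈ B, b ^ 2 = 1) :
    ∃ (M : Type u) (_ : AddCommGroup M) (ρ : G →* AddMonoid.End M) (c : G → M), EM B M ρ c := by
  classical
  let _ : CommGroup B := { (inferInstance : Group B) with
    mul_comm := fun a b => Subtype.ext (hBB a.1 a.2 b.1 b.2) }
  obtain ⟨ρ, hρ⟩ : ∃ ρ : G →* AddMonoid.End (Additive B), ∀ (g : G) (b : Additive B),
      ((ρ g b).toMul : G) = g * (b.toMul : G) * g⁻¹ := by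
    refine ⟨{ toFun := fun g => MonoidHom.toAdditive (MulAut.conjNormal g : MulAut B).toMonoidHom
              map_one' := ?_
              map_mul' := ?_ }, ?_⟩
    · ext b
      show ((MulAut.conjNormal (1 : G) b.toMul : B) : G) = (b.toMul : G)
      rw [map_one]
      rfl
    · intro g h
      ext b
      show ((MulAut.conjNormal (g * h) b.toMul : B) : G) =
        ((MulAut.conjNormal g (MulAut.conjNormal h b.toMul) : B) : G)
      rw [map_mul]
      rfl
    · intro g b
      exact MulAut.conjNormal_apply g b.toMul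
  have hsq : ∀ b : G, b ∈ B → b * b = 1 := fun b hb => by
    rw [← sq]
    exact hB2 b hb
  have hext : ∀ a b : Additive B, (a.toMul : G) = (b.toMul : G) → a = b := fun a b h =>
    Subtype.ext h
  have hadd : ∀ a b : Additive B, ((a + b).toMul : G) = (a.toMul : G) * (b.toMul : G) := fun a b => rfl
  have htwo : ∀ a : Additive B, a + a = 0 := fun a => by
    apply hext
    rw [hadd]
    exact hsq a.toMul.1 a.toMul.2
  obtain ⟨c, hc⟩ : ∃ c : G → Additive B, ∀ g (h : g ∈ B), c g = Additive.ofMul ⟨g, h⟩ :=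
    ⟨fun g => if h : g ∈ B then Additive.ofMul ⟨g, h⟩ else 0, fun g h => dif_pos h⟩
  refine ⟨Additive B, inferInstance, ρ, c, ?_, htwo, ?_, ?_, ?_, ?_⟩
  · refine sec_cub ρ htwo fun g a => ?_
    apply hext
    rw [hadd, hadd, hadd, hρ, hρ, hρ, hρ, hρ, hρ, sec_id, h4, h4, inv_one, mul_one]
    rfl
  · intro a ha b hb
    rw [hc a ha, hc b hb, hc (a * b) (B.mul_mem ha hb)]
    rfl
  · intro b hb
    rw [hc b hb]
    constructor
    · intro h
      have h1 : ((Additive.ofMul (⟨b, hb⟩ : B)).toMul : G) = ((0 : Additive B).toMul : G) := by rw [h]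
      exact h1
    · intro h
      apply hext
      exact h
  · intro g b hb
    apply hext
    rw [hρ, hc b hb, hc _ ((inferInstance : B.Normal).conj_mem b hb g)]
    rfl
  · intro m
    exact ⟨m.toMul.1, m.toMul.2, hc _ m.toMul.2⟩

/-- The linear core.  Left action.  `a g k = [e_k,[x,e_g]]`, `b g k = [x,[e_g,e_k]]`. -/
theorem core {G : Type*} [Group G] (h4 : Exp4 G) {M : Type*} [AddCommGroup M] (h2 : ∀ m : M, m + m = 0)
    (ρ : G →* AddMonoid.End M) (a b : G → G → M)
    (hsym : ∀ g k, b g k = b k g)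
    (hjac : ∀ g k, a g k + b g k + a k g = 0)
    (ha : ∀ g k, a g k = b g k + ρ g (b g k))
    (hinv : ∀ h k, b h⁻¹ k = b h k)
    (htr : ∀ g k, a k g = ρ g (b (g⁻¹ * k) g⁻¹)) (g k : G) : b g k = 0 := by
  have hneg : ∀ m : M, -m = m := fun m => by
    rw [neg_eq_iff_add_eq_zero]
    exact h2 m
  have hadd : ∀ m n : M, m + n = 0 → m = n := fun m n h => by
    rw [eq_neg_of_add_eq_zero_left h, hneg]
  -- b + g b + k b = 0
  have h3 : ∀ g k, b g k + ρ g (b g k) + ρ k (b g k) = 0 := by
    intro g k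
    have h := hjac g k
    rw [ha g k, ha k g, hsym k g] at h
    have e : b g k + ρ g (b g k) + b g k + (b g k + ρ k (b g k)) =
        (b g k + ρ g (b g k) + ρ k (b g k)) + (b g k + b g k) := by abel
    rw [e, h2, add_zero] at h
    exact h
  -- a g k = k b
  have h5 : ∀ g k, a g k = ρ k (b g k) := by
    intro g k
    rw [ha]
    exact hadd _ _ (h3 g k)
  -- translation
  have h6 : ∀ g k, b g k = b g (g⁻¹ * k) := by
    intro g k
    have h := htr g k
    rw [h5 k g, hsym k g] at h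
    have h' : ρ g⁻¹ (ρ g (b g k)) = ρ g⁻¹ (ρ g (b (g⁻¹ * k) g⁻¹)) := by rw [h]
    have e : ∀ m : M, ρ g⁻¹ (ρ g m) = m := by
      intro m
      have : (ρ g⁻¹ * ρ g) m = (1 : AddMonoid.End M) m := by
        rw [← map_mul, inv_mul_cancel, map_one]
      exact this
    rw [e, e] at h'
    rw [h', hsym, hinv]
  have h7 : ∀ g k, b g (g * k) = b g k := by
    intro g k
    rw [h6 g (g * k), inv_mul_cancel_left]
  have hmul : ∀ (g h : G) (m : M), ρ (g * h) m = ρ g (ρ h m) := by
    intro g h m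
    rw [map_mul]
    rfl
  -- g k b = k b
  have h8 : ∀ g k, ρ g (ρ k (b g k)) = ρ k (b g k) := by
    intro g k
    have h := h3 g (g * k)
    rw [h7, hmul] at h
    have h' := h3 g k
    have e1 := hadd _ _ h
    have e2 := hadd _ _ h'
    rw [← e1, ← e2]
  have h9 : ∀ g k, ρ k (ρ g (b g k)) = ρ g (b g k) := by
    intro g k
    have h := h8 k g
    rwa [hsym k g] at h
  -- g^2 b = b
  have h10 : ∀ g k, ρ g (ρ g (b g k)) = b g k := by
    intro g k
    have h := h3 g⁻¹ k
    rw [hinv] at h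
    have h' := h3 g k
    have e3 : ρ g (b g k) = ρ g⁻¹ (b g k) := by
      have e1 : ρ g⁻¹ (b g k) + (b g k + ρ k (b g k)) = 0 := by
        rw [← h]
        abel
      have e2 : ρ g (b g k) + (b g k + ρ k (b g k)) = 0 := by
        rw [← h']
        abel
      rw [hadd _ _ e1, hadd _ _ e2]
    rw [e3, ← hmul, mul_inv_cancel, map_one]
    rfl
  have h11 : ∀ g k, ρ k (ρ k (b g k)) = b g k := by
    intro g k
    have h := h10 k g
    rwa [hsym k g] at h
  -- w = k g : w b = g b, w (g b) = k b, w (k b) = b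
  have w1 : ρ (k * g) (b g k) = ρ g (b g k) := by rw [hmul, h9]
  have w2 : ρ (k * g) (ρ g (b g k)) = ρ k (b g k) := by rw [hmul, h10]
  have w3 : ρ (k * g) (ρ k (b g k)) = b g k := by rw [hmul, h8, h11]
  have w4 : ρ ((k * g) ^ 4) (b g k) = ρ g (b g k) := by
    have e : (k * g) ^ 4 = (k * g) * ((k * g) * ((k * g) * (k * g))) := by
      rw [pow_succ, pow_succ, pow_succ, pow_one]
      simp only [mul_assoc]
    rw [e, hmul, hmul (k * g) (k * g * (k * g)), hmul (k * g) (k * g), w1, w2, w3, w1]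
  have hg : ρ g (b g k) = b g k := by
    rw [h4, map_one] at w4
    exact w4.symm
  have hk : ρ k (b g k) = b g k := by
    have h := w3
    have h' := w2
    rw [hg, w1, hg] at h'
    exact h'.symm
  have h := h3 g k
  rw [hg, hk, h2, zero_add] at h
  exact h

end E4.YA
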