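import Pool.Agent.Lib.MP_8a95e3_al.YA1
import Pool.Agent.Lib.MP_8a95e3_al.SqN2

/-!
# YA2 : normal closures have class two when `x ^ 2` is centralised (helper11)

`G` of exponent four, `ex x u = u x u⁻¹`.  If every `(ex x u) ^ 2` commutes with every `ex x v` then
`[ex x w, [ex x u, ex x v]] = 1`.
-/

universe u

open scoped commutatorElement

namespace E4.YA

/-- the conjugate -/
def ex {G : Type*} [Group G] (x u : G) : G := u * x * u⁻¹

theorem ex_conj {G : Type*} [Group G] (x g u : G) : g * ex x u * g⁻¹ = ex x (g * u) := by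
  unfold ex
  group

theorem ex_one {G : Type*} [Group G] (x : G) : ex x 1 = x := by
  unfold ex
  group

/-- the commutator of two conjugates -/
def kp {G : Type*} [Group G] (x u v : G) : G := ⁅ex x u, ex x v⁆

theorem kp_conj {G : Type*} [Group G] (x g u v : G) : g * kp x u v * g⁻¹ = kp x (g * u) (g * v) := by
  unfold kp
  rw [← ex_conj x g u, ← ex_conj x g v]
  simp only [commutatorElement_def]
  group

theorem kp_inv {G : Type*} [Group G] (x u v : G) : (kp x u v)⁻¹ = kp x v u := by
  unfold kp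
  exact commutatorElement_inv _ _

theorem four_eq {G : Type*} [Group G] {g : G} (h : g ^ 4 = 1) : g * g * (g * g) = 1 := by
  rw [← h]
  simp only [pow_succ, pow_zero, one_mul, mul_assoc]

/-- if `a²`, `b²` commute with `a`, `b` then `[a,b]² = 1` and `a [a,b] a⁻¹ = [a,b]` -/
theorem comm_sq {G : Type*} [Group G] (h4 : Exp4 G) {a b : G} (ha : Commute (a ^ 2) b) (hb : Commute (b ^ 2) a) :
    ⁅a, b⁆ * ⁅a, b⁆ = 1 ∧ a * ⁅a, b⁆ * a⁻¹ = ⁅a, b⁆ := by
  have ha' : a * a * b = b * (a * a) := by
    rw [← sq]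
    exact ha.eq
  have hb' : b * b * a = a * (b * b) := by
    rw [← sq]
    exact hb.eq
  obtain ⟨k, hk⟩ : ∃ k, k = ⁅a, b⁆ := ⟨_, rfl⟩
  have hab : a * b = k * (b * a) := by
    rw [hk, commutatorElement_def]
    group
  -- a k a⁻¹ = k⁻¹
  have h1 : a * k * a⁻¹ = k⁻¹ := by
    have h2 : a * k * (b * a) = b * a * a := by
      calc a * k * (b * a) = a * (k * (b * a)) := by group
        _ = a * (a * b) := by rw [← hab]
        _ = a * a * b := by group
        _ = b * (a * a) := ha'
        _ = b * a * a := by group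
    have h3 : b * a = k⁻¹ * (a * b) := by
      rw [hab]
      group
    have h4 : a * k * (b * a) = k⁻¹ * (a * b) * a := by rw [h2, h3]
    have h5 : k⁻¹ * (a * b) * a = k⁻¹ * a * (b * a) := by group
    rw [h5] at h4
    have h6 := mul_right_cancel h4
    rw [h6]
    group
  have h4' := four_eq (h4 (a * b))
  have h7 : a * b * (a * b) = k * (a * a * (b * b)) := by
    calc a * b * (a * b) = a * (b * a) * b := by group
      _ = a * (k⁻¹ * (a * b)) * b := by
        have h3 : b * a = k⁻¹ * (a * b) := by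
          rw [hab]
          group
        rw [h3]
      _ = (a * k * a⁻¹)⁻¹ * (a * a * (b * b)) := by group
      _ = k * (a * a * (b * b)) := by rw [h1, inv_inv]
  have hca : Commute k (a * a) := by
    have h8 : a * a * k * (a * a)⁻¹ = k := by
      calc a * a * k * (a * a)⁻¹ = a * (a * k * a⁻¹) * a⁻¹ := by group
        _ = a * k⁻¹ * a⁻¹ := by rw [h1]
        _ = (a * k * a⁻¹)⁻¹ := by group
        _ = k := by rw [h1, inv_inv]
    show k * (a * a) = a * a * k
    calc k * (a * a) = (a * a * k * (a * a)⁻¹) * (a * a) := by rw [h8]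
      _ = a * a * k := by group
  have hcb : Commute k (b * b) := by
    show k * (b * b) = b * b * k
    rw [hk, commutatorElement_def]
    have e1 : b * b * a = a * (b * b) := hb'
    have e2 : a⁻¹ * (b * b) = b * b * a⁻¹ := by
      calc a⁻¹ * (b * b) = a⁻¹ * (b * b * a) * a⁻¹ := by group
        _ = a⁻¹ * (a * (b * b)) * a⁻¹ := by rw [e1]
        _ = b * b * a⁻¹ := by group
    calc a * b * a⁻¹ * b⁻¹ * (b * b) = a * b * a⁻¹ * (b * b) * b⁻¹ := by group
      _ = a * b * (a⁻¹ * (b * b)) * b⁻¹ := by group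
      _ = a * b * (b * b * a⁻¹) * b⁻¹ := by rw [e2]
      _ = a * (b * b) * b * a⁻¹ * b⁻¹ := by group
      _ = b * b * a * b * a⁻¹ * b⁻¹ := by rw [← e1]
      _ = b * b * (a * b * a⁻¹ * b⁻¹) := by group
  have hcc : Commute k (a * a * (b * b)) := hca.mul_right hcb
  have haabb : Commute (a * a) (b * b) := by
    show a * a * (b * b) = b * b * (a * a)
    calc a * a * (b * b) = (a * a * b) * b := by group
      _ = b * (a * a) * b := by rw [ha']
      _ = b * (a * a * b) := by group
      _ = b * (b * (a * a)) := by rw [ha']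
      _ = b * b * (a * a) := by group
  have ha4 : a * a * (a * a) = 1 := four_eq (h4 a)
  have hb4 : b * b * (b * b) = 1 := four_eq (h4 b)
  have h9 : k * k = 1 := by
    have e : k * (a * a * (b * b)) * (k * (a * a * (b * b))) = k * k * ((a * a * (b * b)) * (a * a * (b * b))) := by
      calc k * (a * a * (b * b)) * (k * (a * a * (b * b))) =
          k * ((a * a * (b * b)) * k) * (a * a * (b * b)) := by group
        _ = k * (k * (a * a * (b * b))) * (a * a * (b * b)) := by rw [hcc.eq]
        _ = _ := by group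
    rw [h7, e] at h4'
    have e2 : (a * a * (b * b)) * (a * a * (b * b)) = 1 := by
      calc (a * a * (b * b)) * (a * a * (b * b)) = a * a * ((b * b) * (a * a)) * (b * b) := by group
        _ = a * a * ((a * a) * (b * b)) * (b * b) := by rw [haabb.eq]
        _ = (a * a * (a * a)) * ((b * b) * (b * b)) := by group
        _ = 1 := by rw [ha4, hb4, one_mul]
    rw [e2, mul_one] at h4'
    exact h4'
  rw [← hk]
  refine ⟨h9, ?_⟩
  rw [h1]
  exact inv_eq_of_mul_eq_one_right h9

/-- the relation `x x₁ x₂ x₃ = 1` -/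
theorem rel4 {G : Type*} [Group G] (h4 : Exp4 G) (x h : G) :
    x * ex x h * ex x (h ^ 2) * ex x (h ^ 3) = 1 := by
  have e : x * ex x h * ex x (h ^ 2) * ex x (h ^ 3) = (x * h) ^ 4 * (h ^ 4)⁻¹ := by
    unfold ex
    simp only [pow_succ, pow_zero, one_mul, mul_inv_rev]
    group
  rw [e, h4, h4, inv_one, mul_one]

theorem rel4' {G : Type*} [Group G] (h4 : Exp4 G) (x h : G) :
    x * ex x (h ^ 3) * ex x (h ^ 2) * ex x h = 1 := by
  have h1 := rel4 h4 x (h ^ 3)
  have e1 : (h ^ 3) ^ 2 = h ^ 2 := by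
    have : (h ^ 3) ^ 2 = h ^ 4 * h ^ 2 := by
      rw [← pow_mul, ← pow_add]
    rw [this, h4, one_mul]
  have e2 : (h ^ 3) ^ 3 = h := by
    have : (h ^ 3) ^ 3 = h ^ 4 * h ^ 4 * h := by
      rw [← pow_mul, ← pow_add, ← pow_succ]
    rw [this, h4, one_mul, one_mul]
  rw [e1, e2] at h1
  exact h1

/-- `[x, x^(h²)] = x² (x^(h²))²` if `x²` commutes with the conjugates of `x` -/
theorem kp_sq {G : Type*} [Group G] (h4 : Exp4 G) (x h : G) (hS : ∀ u v, Commute (ex x u ^ 2) (ex x v)) :
    kp x 1 (h ^ 2) = ex x 1 ^ 2 * ex x (h ^ 2) ^ 2 := by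
  obtain ⟨p, hp⟩ : ∃ p, p = h ^ 2 := ⟨_, rfl⟩
  have hpp : p * p = 1 := by
    have := four_eq (h4 h)
    rw [hp, sq]
    exact this
  have hpi : p⁻¹ = p := inv_eq_of_mul_eq_one_right hpp
  have h1 : x * ex x p * (x * ex x p) = 1 := by
    have h2 := four_eq (h4 (x * p))
    have e : x * p * (x * p) * (x * p * (x * p)) = x * ex x p * (x * ex x p) := by
      unfold ex
      rw [hpi]
      simp only [mul_assoc]
    rw [← e]
    exact h2
  obtain ⟨y, hy⟩ : ∃ y, y = ex x p := ⟨_, rfl⟩
  rw [← hp]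
  unfold kp
  rw [← hy] at h1 ⊢
  rw [ex_one]
  have h3 := hS 1 p
  have h4' := hS p 1
  rw [← hy, ex_one] at h3 h4'
  have hx4 := four_eq (h4 x)
  have hy4 := four_eq (h4 y)
  rw [commutatorElement_def]
  have ex1 : x⁻¹ = x * (x * x) := by
    rw [inv_eq_iff_mul_eq_one]
    rw [← hx4]
    group
  have ey1 : y⁻¹ = y * (y * y) := by
    rw [inv_eq_iff_mul_eq_one]
    rw [← hy4]
    group
  have c1 : x * x * y = y * (x * x) := by
    rw [← sq]
    exact h3.eq
  rw [ex1, ey1, sq, sq]
  calc x * y * (x * (x * x)) * (y * (y * y)) = x * y * x * (x * x * y) * (y * y) := by group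
    _ = x * y * x * (y * (x * x)) * (y * y) := by rw [c1]
    _ = (x * y * (x * y)) * (x * x * (y * y)) := by group
    _ = x * x * (y * y) := by rw [h1, one_mul]

end E4.YA
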