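import Pool.Agent.Lib.MP_8a95e3_al.YA2

/-!
# YA3 : the class two theorem (helper11)

Module part: `lcs (normalClosure {x}) 3 = ⊥` implies that the triple commutators of conjugates of `x` are trivial.
-/

universe u

open scoped commutatorElement

namespace E4.YA

theorem ex_mem {G : Type*} [Group G] (x u : G) : ex x u ∈ Subgroup.normalClosure {x} :=
  Subgroup.normalClosure_normal.conj_mem _ (Subgroup.subset_normalClosure (Set.mem_singleton _)) u

/-- the generators of `D` -/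
def genD {G : Type*} [Group G] (x : G) : Set G := {y | (∃ u v, y = kp x u v) ∨ ∃ u, y = ex x u ^ 2}

theorem kp_comm_ex2 {G : Type*} [Group G] {x : G} (hS : ∀ u v, Commute (ex x u ^ 2) (ex x v)) (u v w : G) :
    Commute (ex x w ^ 2) (kp x u v) := by
  unfold kp
  rw [commutatorElement_def]
  exact (((hS w u).mul_right (hS w v)).mul_right (hS w u).inv_right).mul_right (hS w v).inv_right

theorem genD_comm {G : Type u} [Group G] {x : G} (hS : ∀ u v, Commute (ex x u ^ 2) (ex x v))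
    (hN : lcs (Subgroup.normalClosure {x}) 3 = ⊥) : ∀ a ∈ genD x, ∀ b ∈ genD x, a * b = b * a := by
  rintro a (⟨u, v, rfl⟩ | ⟨u, rfl⟩) b (⟨s, t, rfl⟩ | ⟨s, rfl⟩)
  · have h1 : ∀ u v, kp x u v ∈ lcs (Subgroup.normalClosure {x}) 1 := fun u v =>
      Subgroup.commutator_mem_commutator (ex_mem x u) (ex_mem x v)
    have h2 := lcs_comm (Subgroup.normalClosure {x}) 1 1
    rw [hN, le_bot_iff, Subgroup.commutator_eq_bot_iff_le_centralizer] at h2
    have h3 := h2 (h1 u v)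
    rw [Subgroup.mem_centralizer_iff] at h3
    exact (h3 _ (h1 s t)).symm
  · exact (kp_comm_ex2 hS u v s).symm.eq
  · exact (kp_comm_ex2 hS s t u).eq
  · exact ((hS u s).pow_right 2).eq

theorem closure_comm {G : Type*} [Group G] {S : Set G} (h : ∀ a ∈ S, ∀ b ∈ S, a * b = b * a) :
    ∀ a ∈ Subgroup.closure S, ∀ b ∈ Subgroup.closure S, a * b = b * a := by
  have h1 : ∀ a ∈ S, ∀ b ∈ Subgroup.closure S, a * b = b * a := by
    intro a ha b hb
    have h2 : Subgroup.closure S ≤ Subgroup.centralizer {a} := by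
      rw [Subgroup.closure_le]
      intro b hb
      rw [SetLike.mem_coe, Subgroup.mem_centralizer_iff]
      intro c hc
      rw [Set.mem_singleton_iff.1 hc]
      exact h a ha b hb
    exact Subgroup.mem_centralizer_iff.1 (h2 hb) a rfl
  intro a ha b hb
  have h2 : Subgroup.closure S ≤ Subgroup.centralizer {b} := by
    rw [Subgroup.closure_le]
    intro a ha
    rw [SetLike.mem_coe, Subgroup.mem_centralizer_iff]
    intro c hc
    rw [Set.mem_singleton_iff.1 hc]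
    exact (h1 a ha b hb).symm
  exact (Subgroup.mem_centralizer_iff.1 (h2 ha) b rfl).symm

theorem closure_sq {G : Type*} [Group G] {S : Set G} (h : ∀ a ∈ S, ∀ b ∈ S, a * b = b * a)
    (h2 : ∀ a ∈ S, a ^ 2 = 1) : ∀ a ∈ Subgroup.closure S, a ^ 2 = 1 := by
  intro a ha
  refine Subgroup.closure_induction (p := fun a _ => a ^ 2 = 1) h2 (one_pow 2) ?_ ?_ ha
  · intro a b ha' hb' ha hb
    have hc : Commute a b := closure_comm h a ha' b hb'
    rw [hc.mul_pow, ha, hb, one_mul]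
  · intro a _ ha
    rw [inv_pow, ha, inv_one]

theorem closure_normal {G : Type*} [Group G] {S : Set G} (h : ∀ a ∈ S, ∀ g : G, g * a * g⁻¹ ∈ S) :
    (Subgroup.closure S).Normal := by
  refine ⟨fun a ha g => ?_⟩
  refine Subgroup.closure_induction (p := fun a _ => g * a * g⁻¹ ∈ Subgroup.closure S) ?_ ?_ ?_ ?_ ha
  · intro a ha
    exact Subgroup.subset_closure (h a ha g)
  · rw [mul_one, mul_inv_cancel]
    exact Subgroup.one_mem _
  · intro a b _ _ ha hb
    have e : g * (a * b) * g⁻¹ = (g * a * g⁻¹) * (g * b * g⁻¹) := by group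
    rw [e]
    exact Subgroup.mul_mem _ ha hb
  · intro a _ ha
    have e : g * a⁻¹ * g⁻¹ = (g * a * g⁻¹)⁻¹ := by group
    rw [e]
    exact Subgroup.inv_mem _ ha

theorem genD_normal {G : Type*} [Group G] (x : G) : (Subgroup.closure (genD x)).Normal := by
  refine closure_normal ?_
  rintro a (⟨u, v, rfl⟩ | ⟨u, rfl⟩) g
  · exact Or.inl ⟨g * u, g * v, kp_conj x g u v⟩
  · refine Or.inr ⟨g * u, ?_⟩
    rw [← ex_conj, ← conj_pow]

theorem jac_id {G : Type*} [Group G] (a b c : G) :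
    ⁅a, b⁆ * (b * ⁅a, c⁆ * b⁻¹) * ⁅b, c⁆ = (a * ⁅b, c⁆ * a⁻¹) * ⁅a, c⁆ * (c * ⁅a, b⁆ * c⁻¹) := by
  simp only [commutatorElement_def]
  group

theorem three_id {G : Type*} [Group G] (a b c : G) :
    ⁅a, b⁆ * (b * ⁅a, c⁆ * b⁻¹) * ⁅b, c⁆ = a * b * c * (c * b * a)⁻¹ := by
  simp only [commutatorElement_def]
  group

/-- **the module part** -/
theorem cl2_core {G : Type u} [Group G] (h4 : Exp4 G) {x : G} (hS : ∀ u v, Commute (ex x u ^ 2) (ex x v))
    (hN : lcs (Subgroup.normalClosure {x}) 3 = ⊥) (u v w : G) : ⁅ex x w, ⁅ex x u, ex x v⁆⁆ = 1 := by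
  have hDD := closure_comm (genD_comm hS hN)
  have hD2 : ∀ a ∈ Subgroup.closure (genD x), a ^ 2 = 1 := by
    refine closure_sq (genD_comm hS hN) ?_
    rintro a (⟨u, v, rfl⟩ | ⟨u, rfl⟩)
    · rw [sq]
      exact (comm_sq h4 (hS u v) (hS v u)).1
    · rw [← pow_mul]
      exact h4 _
  have hDn : (Subgroup.closure (genD x)).Normal := genD_normal x
  obtain ⟨D, hDdef⟩ : ∃ D, D = Subgroup.closure (genD x) := ⟨_, rfl⟩
  rw [← hDdef] at hDD hD2 hDn
  have hkD : ∀ u v, kp x u v ∈ D := fun u v => by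
    rw [hDdef]
    exact Subgroup.subset_closure (Or.inl ⟨u, v, rfl⟩)
  have heD : ∀ u, ex x u ^ 2 ∈ D := fun u => by
    rw [hDdef]
    exact Subgroup.subset_closure (Or.inr ⟨u, rfl⟩)
  obtain ⟨M, _, ρ, c, hE⟩ := exists_EM h4 D hDD hD2
  have h2 := hE.two
  have hneg : ∀ m : M, -m = m := fun m => by
    rw [neg_eq_iff_add_eq_zero]
    exact h2 m
  have heq : ∀ m n : M, m + n = 0 → m = n := fun m n h => by
    rw [eq_neg_of_add_eq_zero_left h, hneg]
  have hmul : ∀ (g h : G) (m : M), ρ (g * h) m = ρ g (ρ h m) := by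
    intro g h m
    rw [map_mul]
    rfl
  have hone : ∀ m : M, ρ 1 m = m := fun m => by
    rw [map_one]
    rfl
  have hc1 : c 1 = 0 := (hE.ker 1 D.one_mem).2 rfl
  have hcinv : ∀ b ∈ D, c b⁻¹ = c b := by
    intro b hb
    apply heq
    rw [← hE.add _ (D.inv_mem hb) _ hb, inv_mul_cancel, hc1]
  -- elements of D act trivially
  have hDact : ∀ d ∈ D, ∀ m : M, ρ d m = m := by
    intro d hd m
    obtain ⟨b, hb, rfl⟩ := hE.surj m
    rw [← hE.conj d b hb, hDD d hd b hb]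
    congr 1
    group
  obtain ⟨K, hK⟩ : ∃ K : G → G → M, ∀ u v, K u v = c (kp x u v) := ⟨fun u v => c (kp x u v), fun _ _ => rfl⟩
  have F1 : ∀ g u v, ρ g (K u v) = K (g * u) (g * v) := by
    intro g u v
    rw [hK, hK, ← hE.conj g _ (hkD u v), kp_conj]
  have F2 : ∀ u v, K u v = K v u := by
    intro u v
    rw [hK, hK, ← kp_inv x v u, hcinv _ (hkD v u)]
  obtain ⟨Z, hZ⟩ : ∃ Z : G → M → M, ∀ t m, Z t m = ρ (ex x t) m + m := ⟨fun t m => ρ (ex x t) m + m, fun _ _ => rfl⟩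
  have Zadd : ∀ t m n, Z t (m + n) = Z t m + Z t n := by
    intro t m n
    rw [hZ, hZ, hZ, map_add]
    abel
  have Zzero : ∀ t, Z t 0 = 0 := by
    intro t
    rw [hZ, map_zero, add_zero]
  have Zconj : ∀ g t m, ρ g (Z t m) = Z (g * t) (ρ g m) := by
    intro g t m
    rw [hZ, hZ, map_add, ← hmul, ← hmul, ← ex_conj]
    congr 2
    group
  have Zc : ∀ t, ∀ d ∈ D, Z t (c d) = c (⁅ex x t, d⁆) := by
    intro t d hd
    have e : ⁅ex x t, d⁆ = (ex x t * d * (ex x t)⁻¹) * d⁻¹ := rfl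
    rw [hZ, e, hE.add _ (hDn.conj_mem d hd _) _ (D.inv_mem hd), hE.conj _ _ hd, hcinv _ hd]
  have F3 : ∀ u v, Z u (K u v) = 0 := by
    intro u v
    have h := (comm_sq h4 (hS u v) (hS v u)).2
    have h' : ex x u * kp x u v * (ex x u)⁻¹ = kp x u v := h
    rw [hZ, hK, ← hE.conj _ _ (hkD u v), h', h2]
  have F3' : ∀ u v, Z v (K u v) = 0 := by
    intro u v
    rw [F2]
    exact F3 v u
  -- Z Z = 0
  have F5 : ∀ s t u v, Z s (Z t (K u v)) = 0 := by
    intro s t u v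
    have hk1 : kp x u v ∈ lcs (Subgroup.normalClosure {x}) 1 :=
      Subgroup.commutator_mem_commutator (ex_mem x u) (ex_mem x v)
    have hk2 : ⁅ex x t, kp x u v⁆ ∈ lcs (Subgroup.normalClosure {x}) 2 := by
      have h : ⁅kp x u v, ex x t⁆ ∈ lcs (Subgroup.normalClosure {x}) 2 :=
        Subgroup.commutator_mem_commutator hk1 (ex_mem x t)
      rw [← commutatorElement_inv]
      exact Subgroup.inv_mem _ h
    have hk3 : ⁅ex x s, ⁅ex x t, kp x u v⁆⁆ ∈ lcs (Subgroup.normalClosure {x}) 3 := by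
      have h : ⁅⁅ex x t, kp x u v⁆, ex x s⁆ ∈ lcs (Subgroup.normalClosure {x}) 3 :=
        Subgroup.commutator_mem_commutator hk2 (ex_mem x s)
      rw [← commutatorElement_inv]
      exact Subgroup.inv_mem _ h
    rw [hN, Subgroup.mem_bot] at hk3
    have hd : ⁅ex x t, kp x u v⁆ ∈ D := by
      have e : ⁅ex x t, kp x u v⁆ = (ex x t * kp x u v * (ex x t)⁻¹) * (kp x u v)⁻¹ := rfl
      rw [e]
      exact D.mul_mem (hDn.conj_mem _ (hkD u v) _) (D.inv_mem (hkD u v))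
    rw [hK, Zc t _ (hkD u v), Zc s _ hd, hk3, hc1]
  -- Jacobi
  have F6 : ∀ u v w, Z v (K u w) = Z u (K v w) + Z w (K u v) := by
    intro u v w
    have h := jac_id (ex x u) (ex x v) (ex x w)
    have h' : kp x u v * (ex x v * kp x u w * (ex x v)⁻¹) * kp x v w =
      (ex x u * kp x v w * (ex x u)⁻¹) * kp x u w * (ex x w * kp x u v * (ex x w)⁻¹) := h
    have h1 := congrArg c h'
    rw [hE.add _ (D.mul_mem (hkD u v) (hDn.conj_mem _ (hkD u w) _)) _ (hkD v w),
      hE.add _ (hkD u v) _ (hDn.conj_mem _ (hkD u w) _), hE.conj _ _ (hkD u w),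
      hE.add _ (D.mul_mem (hDn.conj_mem _ (hkD v w) _) (hkD u w)) _ (hDn.conj_mem _ (hkD u v) _),
      hE.add _ (hDn.conj_mem _ (hkD v w) _) _ (hkD u w), hE.conj _ _ (hkD v w), hE.conj _ _ (hkD u v),
      ← hK, ← hK, ← hK] at h1
    apply heq
    rw [hZ, hZ, hZ]
    have e : ρ (ex x v) (K u w) + K u w + (ρ (ex x u) (K v w) + K v w + (ρ (ex x w) (K u v) + K u v)) =
        (K u v + ρ (ex x v) (K u w) + K v w) + (ρ (ex x u) (K v w) + K u w + ρ (ex x w) (K u v)) := by abel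
    rw [e, h1, h2]
  -- squares
  have F7 : ∀ t u, Z t (c (ex x u ^ 2)) = 0 := by
    intro t u
    rw [Zc t _ (heD u)]
    have : ⁅ex x t, ex x u ^ 2⁆ = 1 := by
      rw [commutatorElement_eq_one_iff_commute]
      exact (hS u t).symm
    rw [this, hc1]
  have F8 : ∀ h, K 1 (h ^ 2) = c (ex x 1 ^ 2) + c (ex x (h ^ 2) ^ 2) := by
    intro h
    rw [hK, kp_sq h4 x h hS, hE.add _ (heD 1) _ (heD _)]
  have F9 : ∀ t h, Z t (K 1 (h ^ 2)) = 0 := by
    intro t h
    rw [F8, Zadd, F7, F7, add_zero]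
  have S1 : ∀ h, K 1 h + ρ h (K 1 h) = K 1 (h ^ 2) := by
    intro h
    have r1 := rel4 h4 x h
    have r2 := rel4' h4 x h
    have r3 : ex x h * ex x (h ^ 2) * ex x (h ^ 3) * (ex x (h ^ 3) * ex x (h ^ 2) * ex x h)⁻¹ = 1 := by
      have e1 : x * (ex x h * ex x (h ^ 2) * ex x (h ^ 3)) = 1 := by
        rw [← r1]
        group
      have e2 : x * (ex x (h ^ 3) * ex x (h ^ 2) * ex x h) = 1 := by
        rw [← r2]
        group
      have e3 := mul_left_cancel (e1.trans e2.symm)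
      rw [e3, mul_inv_cancel]
    have r4 := three_id (ex x h) (ex x (h ^ 2)) (ex x (h ^ 3))
    rw [r3] at r4
    have r5 : kp x h (h ^ 2) * (ex x (h ^ 2) * kp x h (h ^ 3) * (ex x (h ^ 2))⁻¹) * kp x (h ^ 2) (h ^ 3) = 1 := r4
    have r6 := congrArg c r5
    rw [hE.add _ (D.mul_mem (hkD _ _) (hDn.conj_mem _ (hkD _ _) _)) _ (hkD _ _),
      hE.add _ (hkD _ _) _ (hDn.conj_mem _ (hkD _ _) _), hE.conj _ _ (hkD _ _), hc1, ← hK, ← hK, ← hK] at r6
    have e4 : K h (h ^ 3) = ρ h (K 1 (h ^ 2)) := by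
      rw [F1, mul_one]
      congr 1
      exact pow_succ' h 2
    have e5 : ρ (ex x (h ^ 2)) (K h (h ^ 3)) = K h (h ^ 3) := by
      apply heq
      rw [← hZ, e4]
      have e6 : h ^ 2 = h * h := sq h
      rw [e6, ← Zconj, ← e6, F9, map_zero]
    rw [e5] at r6
    have e7 : K h (h ^ 2) = ρ h (K 1 h) := by
      rw [F1, mul_one, sq]
    have e8 : K (h ^ 2) (h ^ 3) = ρ h (ρ h (K 1 h)) := by
      rw [F1, F1, mul_one]
      congr 1 <;> simp only [pow_succ, pow_zero, one_mul, mul_assoc]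
    rw [e4, e7, e8, ← map_add, ← map_add] at r6
    have r7 := congrArg (ρ h⁻¹) r6
    rw [← hmul, inv_mul_cancel, hone, map_zero] at r7
    apply heq
    rw [← r7]
    abel
  have S2 : ∀ g k, Z k (K 1 g) = Z 1 (K g k) + ρ g (Z 1 (K g k)) := by
    intro g k
    have T := S1 (ex x k * g)
    have hexk : ex x (ex x k * g) = kp x k g * ex x g := by
      rw [← ex_conj, kp, commutatorElement_def]
      group
    -- K(1, e_k g) = Z 1 K(g,k) + K(1,g)
    have T1 : K 1 (ex x k * g) = Z 1 (K g k) + K 1 g := by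
      have e1 : kp x 1 (ex x k * g) = ⁅ex x 1, kp x k g⁆ * (kp x k g * kp x 1 g * (kp x k g)⁻¹) := by
        unfold kp at hexk ⊢
        rw [hexk]
        simp only [commutatorElement_def]
        group
      have hd : ⁅ex x 1, kp x k g⁆ ∈ D := by
        have e : ⁅ex x 1, kp x k g⁆ = (ex x 1 * kp x k g * (ex x 1)⁻¹) * (kp x k g)⁻¹ := rfl
        rw [e]
        exact D.mul_mem (hDn.conj_mem _ (hkD _ _) _) (D.inv_mem (hkD _ _))
      rw [hK 1 (ex x k * g), e1, hE.add _ hd _ (hDn.conj_mem _ (hkD _ _) _), hE.conj _ _ (hkD _ _),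
        hDact _ (hkD _ _), ← Zc _ _ (hkD _ _), ← hK, ← hK, F2 k g]
    have T2 : K 1 ((ex x k * g) ^ 2) = K 1 (g ^ 2) := by
      rw [F8, F8]
      congr 1
      have e1 : (ex x k * g) ^ 2 = ex x k * ex x (g * k) * g ^ 2 := by
        rw [← ex_conj x g k, sq, sq]
        group
      rw [e1]
      have e2 : ex x (ex x k * ex x (g * k) * g ^ 2) ^ 2 = ex x (g ^ 2) ^ 2 := by
        rw [← ex_conj, conj_pow]
        have hc : Commute (ex x (g ^ 2) ^ 2) (ex x k * ex x (g * k)) := (hS _ _).mul_right (hS _ _)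
        rw [← hc.eq]
        group
      rw [e2]
    rw [T1, T2] at T
    obtain ⟨b, hb⟩ : ∃ b, b = Z 1 (K g k) := ⟨_, rfl⟩
    rw [← hb] at T ⊢
    have T3 : ρ (ex x k * g) (b + K 1 g) = ρ g b + ρ g (K 1 g) + Z k (K 1 g) := by
      have T4 : Z k (ρ g b) = 0 := by
        rw [hb, Zconj, F1, mul_one]
        exact F5 k g _ _
      have T5 : Z k (ρ g (K 1 g)) = Z k (K 1 g) := by
        have h := S1 g
        have h' := F9 k g
        rw [← h, Zadd] at h'
        exact (heq _ _ h').symm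
      rw [hmul, map_add, map_add]
      have T6 : ∀ m, ρ (ex x k) m = Z k m + m := by
        intro m
        rw [hZ, add_assoc, h2, add_zero]
      rw [T6, T6, T4, T5]
      abel
    rw [T3] at T
    have T7 := S1 g
    rw [← T7] at T
    apply heq
    have e : Z k (K 1 g) + (b + ρ g b) = (b + K 1 g + (ρ g b + ρ g (K 1 g) + Z k (K 1 g))) + (K 1 g + ρ g (K 1 g)) := by
      have e1 : (b + K 1 g + (ρ g b + ρ g (K 1 g) + Z k (K 1 g))) + (K 1 g + ρ g (K 1 g)) =
        Z k (K 1 g) + (b + ρ g b) + ((K 1 g + K 1 g) + (ρ g (K 1 g) + ρ g (K 1 g))) := by abel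
      rw [e1, h2, h2, add_zero, add_zero]
    rw [e, T, h2]
  -- the data of core
  have hjac : ∀ g k, Z k (K 1 g) + Z 1 (K g k) + Z g (K 1 k) = 0 := by
    intro g k
    rw [F6 1 g k]
    have e : Z k (K 1 g) + Z 1 (K g k) + (Z 1 (K g k) + Z k (K 1 g)) =
      (Z k (K 1 g) + Z 1 (K g k)) + (Z k (K 1 g) + Z 1 (K g k)) := by abel
    rw [e, h2]
  have hb2 : ∀ h k, Z 1 (K (h ^ 2) k) = 0 := by
    intro h k
    have e1 := hjac (h ^ 2) k
    rw [F9, zero_add, S2 k (h ^ 2), F2 k (h ^ 2)] at e1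
    have e2 : Z 1 (K (h ^ 2) k) + (Z 1 (K (h ^ 2) k) + ρ k (Z 1 (K (h ^ 2) k))) = ρ k (Z 1 (K (h ^ 2) k)) := by
      rw [← add_assoc, h2, zero_add]
    rw [e2] at e1
    have e3 := congrArg (ρ k⁻¹) e1
    rw [← hmul, inv_mul_cancel, hone, map_zero] at e3
    exact e3
  have hinv : ∀ h k, Z 1 (K h⁻¹ k) = Z 1 (K h k) := by
    intro h k
    have r1 := rel4 h4 x h
    have e0 : ⁅ex x k, x * ex x h * ex x (h ^ 2) * ex x (h ^ 3)⁆ = 1 := by
      rw [r1]
      exact commutatorElement_one_right _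
    have e1 : kp x k 1 * (x * kp x k h * x⁻¹) * ((x * ex x h) * kp x k (h ^ 2) * (x * ex x h)⁻¹) *
        ((x * ex x h * ex x (h ^ 2)) * kp x k (h ^ 3) * (x * ex x h * ex x (h ^ 2))⁻¹) = 1 := by
      refine Eq.trans ?_ e0
      unfold kp
      rw [ex_one]
      simp only [commutatorElement_def]
      group
    have e2 := congrArg c e1
    rw [hE.add _ (D.mul_mem (D.mul_mem (hkD _ _) (hDn.conj_mem _ (hkD _ _) _)) (hDn.conj_mem _ (hkD _ _) _)) _
      (hDn.conj_mem _ (hkD _ _) _),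
      hE.add _ (D.mul_mem (hkD _ _) (hDn.conj_mem _ (hkD _ _) _)) _ (hDn.conj_mem _ (hkD _ _) _),
      hE.add _ (hkD _ _) _ (hDn.conj_mem _ (hkD _ _) _), hE.conj _ _ (hkD _ _), hE.conj _ _ (hkD _ _),
      hE.conj _ _ (hkD _ _), hc1, ← hK, ← hK, ← hK, ← hK] at e2
    have e3 := congrArg (Z 1) e2
    have T6 : ∀ t m, ρ (ex x t) m = Z t m + m := by
      intro t m
      rw [hZ, add_assoc, h2, add_zero]
    have T6' : ∀ m, ρ x m = Z 1 m + m := by
      intro m
      have := T6 1 m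
      rwa [ex_one] at this
    rw [Zzero, hmul, hmul, hmul] at e3
    rw [T6', T6', T6', T6, T6, T6] at e3
    simp only [Zadd, F5, zero_add, F3'] at e3
    rw [F2 k h, F2 k (h ^ 2), F2 k (h ^ 3), hb2, add_zero] at e3
    have e4 : h⁻¹ = h ^ 3 := by
      rw [inv_eq_iff_mul_eq_one, ← pow_succ']
      exact h4 h
    rw [e4]
    exact (heq _ _ e3).symm
  have htr : ∀ g k, Z g (K 1 k) = ρ g (Z 1 (K (g⁻¹ * k) g⁻¹)) := by
    intro g k
    rw [Zconj, F1, mul_one, mul_inv_cancel_left, mul_inv_cancel, F2 k 1]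
  have hcore := core h4 h2 ρ (fun g k => Z k (K 1 g)) (fun g k => Z 1 (K g k))
    (fun g k => by show Z 1 (K g k) = Z 1 (K k g); rw [F2]) hjac S2 hinv htr
  -- conclusion
  have hfin : ∀ u v, Z 1 (K u v) = 0 := hcore
  have hd : ⁅ex x w, kp x u v⁆ ∈ D := by
    have e : ⁅ex x w, kp x u v⁆ = (ex x w * kp x u v * (ex x w)⁻¹) * (kp x u v)⁻¹ := rfl
    rw [e]
    exact D.mul_mem (hDn.conj_mem _ (hkD _ _) _) (D.inv_mem (hkD _ _))
  refine (hE.ker _ hd).1 ?_
  rw [← Zc _ _ (hkD _ _), ← hK]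
  have e1 : Z w (K u v) = ρ w (Z 1 (K (w⁻¹ * u) (w⁻¹ * v))) := by
    rw [Zconj, F1, mul_one, mul_inv_cancel_left, mul_inv_cancel_left]
  rw [e1, hfin, map_zero]

end E4.YA
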