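import Pool.Agent.Lib.MP_8a95e3_al.X01

/-!
# YC1 : the cube trick, part 1: the group of cubes and its difference homomorphism
-/

namespace E4.YC

open E4 E4.X

variable {G : Type*} [Group G]

/-- a normal subgroup `N` of a group of exponent four, with `D2 ≥ [N,N]`, `D3 ≥ [N,D2]`, `D2` abelian, `D3` central in `N`
and of exponent two -/
structure Trip (N D2 D3 : Subgroup G) : Prop where
  four : ∀ g : G, g ^ 4 = 1
  nN : N.Normal
  n2 : D2.Normal
  n3 : D3.Normal
  h21 : D2 ≤ N
  h32 : D3 ≤ D2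
  c2 : ∀ a ∈ N, ∀ b ∈ N, a * b * a⁻¹ * b⁻¹ ∈ D2
  c3 : ∀ a ∈ N, ∀ b ∈ D2, a * b * a⁻¹ * b⁻¹ ∈ D3
  ab : ∀ a ∈ D2, ∀ b ∈ D2, a * b = b * a
  ce : ∀ a ∈ N, ∀ b ∈ D3, a * b = b * a
  sq : ∀ b ∈ D3, b * b = 1

/-- the second difference of a cube -/
def Dl (a : Bool → Bool → G) : G := a true true * (a true false)⁻¹ * a false false * (a false true)⁻¹

/-- membership in the group of cubes -/
structure InC (N D2 D3 : Subgroup G) (a : Bool → Bool → G) : Prop where
  m0 : a false false ∈ N
  m1 : a true false * (a false false)⁻¹ ∈ D2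
  m2 : a false true * (a false false)⁻¹ ∈ D2
  m3 : Dl a ∈ D3

variable {N D2 D3 : Subgroup G}

theorem inC_form {a : Bool → Bool → G} (h : InC N D2 D3 a) : ∃ n ∈ N, ∃ u ∈ D2, ∃ v ∈ D2, ∃ w ∈ D3,
    a false false = n ∧ a true false = u * n ∧ a false true = v * n ∧ a true true = w * v * u * n ∧ Dl a = w := by
  refine ⟨a false false, h.m0, _, h.m1, _, h.m2, _, h.m3, rfl, by group, by group, ?_, rfl⟩
  unfold Dl
  group

theorem inC_of {a : Bool → Bool → G} (T : Trip N D2 D3) {n u v w : G} (hn : n ∈ N) (hu : u ∈ D2) (hv : v ∈ D2) (hw : w ∈ D3)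
    (h0 : a false false = n) (h1 : a true false = u * n) (h2 : a false true = v * n)
    (h3 : a true true = w * v * u * n) : InC N D2 D3 a ∧ Dl a = w := by
  have e : Dl a = w := by
    unfold Dl
    rw [h0, h1, h2, h3]
    group
  refine ⟨⟨by rw [h0]; exact hn, ?_, ?_, by rw [e]; exact hw⟩, e⟩
  · rw [h0, h1]
    have : u * n * n⁻¹ = u := by group
    rw [this]; exact hu
  · rw [h0, h2]
    have : v * n * n⁻¹ = v := by group
    rw [this]; exact hv

theorem inC_mul (T : Trip N D2 D3) {a b : Bool → Bool → G} (ha : InC N D2 D3 a) (hb : InC N D2 D3 b) :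
    InC N D2 D3 (a * b) ∧ Dl (a * b) = Dl a * Dl b := by
  obtain ⟨n, hn, u, hu, v, hv, w, hw, a0, a1, a2, a3, ea⟩ := inC_form ha
  obtain ⟨n', hn', u', hu', v', hv', w', hw', b0, b1, b2, b3, eb⟩ := inC_form hb
  have hU : n * u' * n⁻¹ ∈ D2 := T.n2.conj_mem _ hu' _
  have hV : n * v' * n⁻¹ ∈ D2 := T.n2.conj_mem _ hv' _
  have k := inC_of (a := a * b) T (n := n * n') (u := u * (n * u' * n⁻¹)) (v := v * (n * v' * n⁻¹)) (w := w * w')
    (N.mul_mem hn hn') (D2.mul_mem hu hU) (D2.mul_mem hv hV) (D3.mul_mem hw hw') (by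
      show a false false * b false false = _
      rw [a0, b0]) (by
      show a true false * b true false = _
      rw [a1, b1]; group) (by
      show a false true * b false true = _
      rw [a2, b2]; group) (by
      show a true true * b true true = _
      rw [a3, b3]
      have e1 : n * w' = w' * n := T.ce n hn w' hw'
      have e2 : u * w' = w' * u := T.ce u (T.h21 hu) w' hw'
      have e3 : v * w' = w' * v := T.ce v (T.h21 hv) w' hw'
      have e4 : u * (n * v' * n⁻¹) = (n * v' * n⁻¹) * u := T.ab _ hu _ hV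
      calc w * v * u * n * (w' * v' * u' * n') = w * v * u * (n * w') * v' * u' * n' := by group
        _ = w * v * (u * w') * n * v' * u' * n' := by rw [e1]; group
        _ = w * (v * w') * u * n * v' * u' * n' := by rw [e2]; group
        _ = w * w' * v * (u * (n * v' * n⁻¹)) * n * u' * n' := by rw [e3]; group
        _ = w * w' * v * ((n * v' * n⁻¹) * u) * n * u' * n' := by rw [e4]
        _ = w * w' * (v * (n * v' * n⁻¹)) * (u * (n * u' * n⁻¹)) * (n * n') := by group)
  exact ⟨k.1, by rw [k.2, ea, eb]⟩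

theorem inC_one (T : Trip N D2 D3) : InC N D2 D3 (1 : Bool → Bool → G) ∧ Dl (1 : Bool → Bool → G) = 1 := by
  refine inC_of T (n := 1) (u := 1) (v := 1) (w := 1) N.one_mem D2.one_mem D2.one_mem D3.one_mem ?_ ?_ ?_ ?_ <;> simp

theorem inC_pow (T : Trip N D2 D3) {a : Bool → Bool → G} (ha : InC N D2 D3 a) (k : ℕ) :
    InC N D2 D3 (a ^ k) ∧ Dl (a ^ k) = Dl a ^ k := by
  induction k with
  | zero =>
    rw [pow_zero, pow_zero]
    exact inC_one T
  | succ k ih =>
    rw [pow_succ, pow_succ]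
    obtain ⟨h1, h2⟩ := inC_mul T ih.1 ha
    exact ⟨h1, by rw [h2, ih.2]⟩

theorem pi_four (T : Trip N D2 D3) (a : Bool → Bool → G) : a ^ 4 = 1 := by
  funext s t
  exact T.four (a s t)

theorem inv_eq (T : Trip N D2 D3) (a : Bool → Bool → G) : a⁻¹ = a ^ 3 := by
  have h := pi_four T a
  rw [inv_eq_iff_mul_eq_one, ← pow_succ', h]

theorem inC_inv (T : Trip N D2 D3) {a : Bool → Bool → G} (ha : InC N D2 D3 a) :
    InC N D2 D3 a⁻¹ ∧ Dl a⁻¹ = (Dl a)⁻¹ := by
  have h := inC_pow T ha 3
  rw [← inv_eq T] at h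
  refine ⟨h.1, ?_⟩
  have h2 := (inC_mul T h.1 ha).2
  rw [inv_mul_cancel, (inC_one T).2] at h2
  exact (eq_inv_of_mul_eq_one_left h2.symm)

/-- conjugation by a cube `p` preserves the group of cubes -/
def Stab (N D2 D3 : Subgroup G) (p : Bool → Bool → G) : Prop := ∀ a, InC N D2 D3 a → InC N D2 D3 (p * a * p⁻¹)

theorem stab_mul {p q : Bool → Bool → G} (hp : Stab N D2 D3 p) (hq : Stab N D2 D3 q) : Stab N D2 D3 (p * q) := by
  intro a ha
  have h := hp _ (hq a ha)
  have e : p * q * a * (p * q)⁻¹ = p * (q * a * q⁻¹) * p⁻¹ := by group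
  rw [e]
  exact h

theorem stab_one : Stab N D2 D3 (1 : Bool → Bool → G) := by
  intro a ha
  have e : (1 : Bool → Bool → G) * a * 1⁻¹ = a := by group
  rw [e]
  exact ha

theorem stab_pow {p : Bool → Bool → G} (hp : Stab N D2 D3 p) (k : ℕ) : Stab N D2 D3 (p ^ k) := by
  induction k with
  | zero => rw [pow_zero]; exact stab_one
  | succ k ih => rw [pow_succ]; exact stab_mul ih hp

theorem stab_inv (T : Trip N D2 D3) {p : Bool → Bool → G} (hp : Stab N D2 D3 p) : Stab N D2 D3 p⁻¹ := by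
  rw [inv_eq T]
  exact stab_pow hp 3

/-- constant cubes: also the difference is equivariant -/
theorem conj_const (T : Trip N D2 D3) (g : G) {a : Bool → Bool → G} (ha : InC N D2 D3 a) :
    InC N D2 D3 ((fun _ _ => g) * a * (fun _ _ => g)⁻¹) ∧ Dl ((fun _ _ => g) * a * (fun _ _ => g)⁻¹) = g * Dl a * g⁻¹ := by
  obtain ⟨n, hn, u, hu, v, hv, w, hw, a0, a1, a2, a3, ea⟩ := inC_form ha
  rw [ea]
  refine inC_of T (n := g * n * g⁻¹) (u := g * u * g⁻¹) (v := g * v * g⁻¹) (w := g * w * g⁻¹)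
    (T.nN.conj_mem _ hn _) (T.n2.conj_mem _ hu _) (T.n2.conj_mem _ hv _) (T.n3.conj_mem _ hw _) ?_ ?_ ?_ ?_
  · show g * a false false * g⁻¹ = _
    rw [a0]
  · show g * a true false * g⁻¹ = _
    rw [a1]; group
  · show g * a false true * g⁻¹ = _
    rw [a2]; group
  · show g * a true true * g⁻¹ = _
    rw [a3]; group

theorem stab_const (T : Trip N D2 D3) (g : G) : Stab N D2 D3 (fun _ _ => g) := fun _ ha => (conj_const T g ha).1

/-- the cube with `x` at the places with first coordinate `true` -/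
def c1 (x : G) : Bool → Bool → G := fun s _ => if s then x else 1

/-- the cube with `x` at the places with second coordinate `true` -/
def c2 (x : G) : Bool → Bool → G := fun _ t => if t then x else 1

theorem stab_c1 (T : Trip N D2 D3) {x : G} (hx : x ∈ N) : Stab N D2 D3 (c1 x) := by
  intro a ha
  obtain ⟨n, hn, u, hu, v, hv, w, hw, a0, a1, a2, a3, ea⟩ := inC_form ha
  have h1 : x * u * x⁻¹ ∈ D2 := T.n2.conj_mem _ hu _
  have h2 : x * n * x⁻¹ * n⁻¹ ∈ D2 := T.c2 _ hx _ hn
  have h3 : x * v * x⁻¹ * v⁻¹ ∈ D3 := T.c3 _ hx _ hv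
  refine (inC_of T (n := n) (u := x * u * x⁻¹ * (x * n * x⁻¹ * n⁻¹)) (v := v) (w := w * (x * v * x⁻¹ * v⁻¹))
    hn (D2.mul_mem h1 h2) hv (D3.mul_mem hw h3) ?_ ?_ ?_ ?_).1
  · show 1 * a false false * (1 : G)⁻¹ = _
    rw [a0]; group
  · show x * a true false * x⁻¹ = _
    rw [a1]; group
  · show 1 * a false true * (1 : G)⁻¹ = _
    rw [a2]; group
  · show x * a true true * x⁻¹ = _
    rw [a3]
    have e1 : x * w = w * x := T.ce x hx w hw
    calc x * (w * v * u * n) * x⁻¹ = (x * w) * v * u * n * x⁻¹ := by group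
      _ = w * x * v * u * n * x⁻¹ := by rw [e1]
      _ = w * (x * v * x⁻¹ * v⁻¹) * v * (x * u * x⁻¹ * (x * n * x⁻¹ * n⁻¹)) * n := by group

/-- exchange of the two coordinates -/
def sw2 (a : Bool → Bool → G) : Bool → Bool → G := fun s t => a t s

theorem inC_sw (T : Trip N D2 D3) {a : Bool → Bool → G} (ha : InC N D2 D3 a) : InC N D2 D3 (sw2 a) ∧ Dl (sw2 a) = Dl a := by
  obtain ⟨n, hn, u, hu, v, hv, w, hw, a0, a1, a2, a3, ea⟩ := inC_form ha
  rw [ea]
  refine inC_of T (n := n) (u := v) (v := u) (w := w) hn hv hu hw a0 a2 a1 ?_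
  show a true true = _
  rw [a3]
  have e : v * u = u * v := T.ab _ hv _ hu
  calc w * v * u * n = w * (v * u) * n := by group
    _ = w * (u * v) * n := by rw [e]
    _ = w * u * v * n := by group

theorem stab_c2 (T : Trip N D2 D3) {x : G} (hx : x ∈ N) : Stab N D2 D3 (c2 x) := by
  intro a ha
  have h := (inC_sw T (stab_c1 T hx _ (inC_sw T ha).1)).1
  exact h

/-- cubes which differ by cubes in `N`: the difference is not changed by conjugation with `c1 x` etc. if the cube is constant in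
this direction -/
theorem dl_of_eq1 {a : Bool → Bool → G} (h0 : a true false = a false false) (h1 : a true true = a false true) : Dl a = 1 := by
  unfold Dl
  rw [h0, h1]
  group

theorem dl_of_eq2 {a : Bool → Bool → G} (h0 : a false true = a false false) (h1 : a true true = a true false) : Dl a = 1 := by
  unfold Dl
  rw [h0, h1]
  group

end E4.YC
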