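import Pool.Agent.Lib.MP_8a95e3_al.YC1

/-!
# YC2 : the cube trick, part 2: the map `L` on the group ring
-/

namespace E4.YC

open E4 E4.X

variable {G : Type*} [Group G] {N D2 D3 : Subgroup G}

/-- the homomorphism `F → G^4`: `y ↦ (x if s, 1 otherwise)`, `z ↦ (x if t, 1 otherwise)`, other letters `i ↦ g i` -/
def ltr (x : G) (y z : ℕ) (g : ℕ → G) : F →* (Bool → Bool → G) :=
  FreeGroup.lift fun i => if i = y then c1 x else if i = z then c2 x else fun _ _ => g i

/-- the value of a word without the letters `y`, `z` -/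
def ev0 (y z : ℕ) (g : ℕ → G) : F →* G := FreeGroup.lift fun i => if i = y ∨ i = z then 1 else g i

theorem ltr_x (x : G) (y z : ℕ) (g : ℕ → G) (i : ℕ) :
    ltr x y z g (E4.x i) = if i = y then c1 x else if i = z then c2 x else fun _ _ => g i := by
  unfold ltr E4.x
  rw [FreeGroup.lift_apply_of]

theorem ev0_x (y z : ℕ) (g : ℕ → G) (i : ℕ) : ev0 y z g (E4.x i) = if i = y ∨ i = z then 1 else g i := by
  unfold ev0 E4.x
  rw [FreeGroup.lift_apply_of]

theorem stab_ltr (T : Trip N D2 D3) {x : G} (hx : x ∈ N) (y z : ℕ) (g : ℕ → G) (f : F) :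
    Stab N D2 D3 (ltr x y z g f) := by
  have hl : ∀ i, Stab N D2 D3 (ltr x y z g (E4.x i)) := by
    intro i
    rw [ltr_x]
    split_ifs
    · exact stab_c1 T hx
    · exact stab_c2 T hx
    · exact stab_const T _
  induction f using FreeGroup.induction_on with
  | C1 => rw [map_one]; exact stab_one
  | of i => exact hl i
  | inv_of i _ => rw [map_inv]; exact stab_inv T (hl i)
  | mul a b ha hb => rw [map_mul]; exact stab_mul ha hb

/-- a function with values in a central elementary abelian group extends to the group ring -/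
theorem exists_ext {D : Subgroup G} (hc : ∀ a ∈ D, ∀ b ∈ D, a * b = b * a) (hs : ∀ b ∈ D, b * b = 1)
    (m : F → G) (hm : ∀ f, m f ∈ D) :
    ∃ L : FB → G, (∀ r s, L (r + s) = L r * L s) ∧ (∀ f, L (o f) = m f) ∧ ∀ r, L r ∈ D := by
  let _ : CommGroup D := { (inferInstance : Group D) with mul_comm := fun a b => Subtype.ext (hc a a.2 b b.2) }
  have h2 : ∀ a : Additive D, (2 : ℕ) • a = 0 := by
    intro a
    rw [two_nsmul]
    apply Additive.toMul.injective
    exact Subtype.ext (hs _ (Additive.toMul a).2)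
  obtain ⟨L0, hL0⟩ : ∃ L0 : FB →+ Additive D, ∀ f, L0 (o f) = Additive.ofMul ⟨m f, hm f⟩ := by
    refine ⟨(Finsupp.liftAddHom fun f => ZMod.lift 2 ⟨zmultiplesHom (Additive D) (Additive.ofMul ⟨m f, hm f⟩), ?_⟩).comp
      (MonoidAlgebra.coeffAddEquiv (R := ZMod 2) (M := F)).toAddMonoidHom, ?_⟩
    · show (((2 : ℕ) : ℤ)) • (Additive.ofMul ⟨m f, hm f⟩ : Additive D) = 0
      rw [natCast_zsmul]
      exact h2 _
    · intro f
      show Finsupp.liftAddHom _ (MonoidAlgebra.coeff (o f)) = _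
      have e : MonoidAlgebra.coeff (o f) = Finsupp.single f (1 : ZMod 2) := rfl
      rw [e, Finsupp.liftAddHom_apply_single]
      have h := ZMod.lift_coe 2 (⟨zmultiplesHom (Additive D) (Additive.ofMul ⟨m f, hm f⟩), by
        show (((2 : ℕ) : ℤ)) • (Additive.ofMul ⟨m f, hm f⟩ : Additive D) = 0
        rw [natCast_zsmul]
        exact h2 _⟩ : {f : ℤ →+ Additive D // f (2 : ℕ) = 0}) 1
      rw [Int.cast_one] at h
      rw [h]
      show (1 : ℤ) • (Additive.ofMul ⟨m f, hm f⟩ : Additive D) = _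
      rw [one_zsmul]
  refine ⟨fun r => ((Additive.toMul (L0 r) : D) : G), ?_, ?_, fun r => (Additive.toMul (L0 r) : D).2⟩
  · intro r s
    show ((Additive.toMul (L0 (r + s)) : D) : G) = _
    rw [map_add]
    rfl
  · intro f
    show ((Additive.toMul (L0 (o f)) : D) : G) = _
    rw [hL0]
    rfl

/-- **The map `L`** with base cube `n`: `L (o f) = Dl (f • n)`. -/
structure IsL (D3 : Subgroup G) (x : G) (y z : ℕ) (g : ℕ → G) (n : Bool → Bool → G) (L : FB → G) : Prop where
  add : ∀ r s, L (r + s) = L r * L s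
  val : ∀ f, L (o f) = Dl (ltr x y z g f * n * (ltr x y z g f)⁻¹)
  mem : ∀ r, L r ∈ D3

variable {x : G} {y z : ℕ} {g : ℕ → G} {n m : Bool → Bool → G} {L L' : FB → G}

theorem exists_isL (T : Trip N D2 D3) (hx : x ∈ N) (y z : ℕ) (g : ℕ → G) (hn : InC N D2 D3 n) :
    ∃ L : FB → G, IsL D3 x y z g n L := by
  obtain ⟨L, h1, h2, h3⟩ := exists_ext (D := D3) (fun a ha b hb => T.ce a (T.h21 (T.h32 ha)) b hb) T.sq
    (fun f => Dl (ltr x y z g f * n * (ltr x y z g f)⁻¹)) (fun f => (stab_ltr T hx y z g f n hn).m3)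
  exact ⟨L, h1, h2, h3⟩

theorem IsL.zero (h : IsL D3 x y z g n L) : L 0 = 1 := by
  have e := h.add 0 0
  rw [add_zero] at e
  exact (mul_eq_left.1 e.symm)

theorem IsL.uniq (h : IsL D3 x y z g n L) (h' : IsL D3 x y z g n L') (r : FB) : L r = L' r := by
  refine fb_ind (p := fun r => L r = L' r) (fun f => by rw [h.val, h'.val]) (by rw [h.zero, h'.zero])
    (fun a b ha hb => by rw [h.add, h'.add, ha, hb]) r

theorem IsL.comm (T : Trip N D2 D3) (h : IsL D3 x y z g n L) (r : FB) {d : G} (hd : d ∈ N) : d * L r = L r * d :=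
  T.ce d hd _ (h.mem r)

/-- additivity in the base cube -/
theorem IsL.base_mul (T : Trip N D2 D3) (hx : x ∈ N) (hn : InC N D2 D3 n) (hm : InC N D2 D3 m) (h : IsL D3 x y z g n L)
    (h' : IsL D3 x y z g m L') : IsL D3 x y z g (n * m) (fun r => L r * L' r) := by
  refine ⟨fun r s => ?_, fun f => ?_, fun r => D3.mul_mem (h.mem r) (h'.mem r)⟩
  · show L (r + s) * L' (r + s) = L r * L' r * (L s * L' s)
    rw [h.add, h'.add]
    have e := h.comm T s (d := L' r) (T.h21 (T.h32 (h'.mem r)))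
    calc L r * L s * (L' r * L' s) = L r * (L s * L' r) * L' s := by group
      _ = L r * (L' r * L s) * L' s := by rw [e]
      _ = L r * L' r * (L s * L' s) := by group
  · show L (o f) * L' (o f) = _
    rw [h.val, h'.val, ← (inC_mul T (stab_ltr T hx y z g f n hn) (stab_ltr T hx y z g f m hm)).2]
    congr 1
    group

/-- change of the base cube -/
theorem IsL.base_o (h : IsL D3 x y z g n L) (u : F) (h' : IsL D3 x y z g (ltr x y z g u * n * (ltr x y z g u)⁻¹) L')
    (r : FB) : L (r * o u) = L' r := by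
  refine fb_ind (p := fun r => L (r * o u) = L' r) (fun f => ?_) ?_ (fun a b ha hb => ?_) r
  · rw [← map_mul, h.val, h'.val, map_mul]
    congr 1
    group
  · rw [zero_mul, h.zero, h'.zero]
  · rw [add_mul, h.add, h'.add, ha, hb]

theorem IsL.one_base (T : Trip N D2 D3) (h : IsL D3 x y z g 1 L) (r : FB) : L r = 1 := by
  refine fb_ind (p := fun r => L r = 1) (fun f => ?_) h.zero (fun a b ha hb => by rw [h.add, ha, hb, one_mul]) r
  rw [h.val]
  have e : ltr x y z g f * 1 * (ltr x y z g f)⁻¹ = 1 := by group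
  rw [e, (inC_one T).2]

/-- the base cube `[u, n]` -/
def bc (x : G) (y z : ℕ) (g : ℕ → G) (u : F) (n : Bool → Bool → G) : Bool → Bool → G :=
  ltr x y z g u * n * (ltr x y z g u)⁻¹ * n⁻¹

theorem bc_inC (T : Trip N D2 D3) (hx : x ∈ N) (u : F) (hn : InC N D2 D3 n) : InC N D2 D3 (bc x y z g u n) :=
  (inC_mul T (stab_ltr T hx y z g u n hn) (inC_inv T hn).1).1

theorem IsL.base_C (T : Trip N D2 D3) (hx : x ∈ N) (hn : InC N D2 D3 n) (h : IsL D3 x y z g n L) (u : F)
    (h' : IsL D3 x y z g (bc x y z g u n) L') (r : FB) : L (r * C u) = L' r := by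
  obtain ⟨L1, h1⟩ := exists_isL T hx y z g (stab_ltr T hx y z g u n hn)
  have k := h'.base_mul T hx (bc_inC T hx u hn) hn h
  have e : bc x y z g u n * n = ltr x y z g u * n * (ltr x y z g u)⁻¹ := by
    unfold bc
    group
  rw [e] at k
  have e2 := k.uniq h1 r
  have e3 : L (r * C u) = L1 r * L r := by
    unfold C
    rw [mul_add, mul_one, h.add, h.base_o u h1 r]
  rw [e3, ← e2]
  show L' r * L r * L r = L' r
  rw [mul_assoc, T.sq _ (h.mem r), mul_one]

end E4.YC
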