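import Pool.Agent.Lib.MP_8a95e3_al.YC2

/-!
# YC3 : the cube trick, part 3: `L` kills `K0`, `I2 y`, `I2 z`
-/

namespace E4.YC

open E4 E4.X

variable {G : Type*} [Group G] {N D2 D3 : Subgroup G} {x : G} {y z : ℕ} {g : ℕ → G} {n m : Bool → Bool → G} {L L' : FB → G}

theorem IsL.neg (T : Trip N D2 D3) (h : IsL D3 x y z g n L) (r : FB) : L r * L r = 1 := T.sq _ (h.mem r)

/-- `L` of an element of a closure -/
theorem IsL.closure (h : IsL D3 x y z g n L) {S : Set FB} (hS : ∀ r ∈ S, L r = 1) {r : FB}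
    (hr : r ∈ AddSubgroup.closure S) : L r = 1 := by
  induction hr using AddSubgroup.closure_induction with
  | mem a ha => exact hS a ha
  | zero => exact h.zero
  | add a b _ _ ha hb => rw [h.add, ha, hb, one_mul]
  | neg a _ ha => rw [fb_neg, ha]

theorem C_cube (u : F) : C u ^ 3 = o (u ^ 3) + o (u ^ 2) + o u + 1 := by
  have h3 : ∀ a : FB, a + a + a = a := by
    intro a
    rw [fb_add_self, zero_add]
  have e : C u ^ 3 = o u ^ 3 + (o u ^ 2 + o u ^ 2 + o u ^ 2) + (o u + o u + o u) + 1 := by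
    unfold C
    noncomm_ring
  rw [e, h3, h3, ← map_pow, ← map_pow]

/-- **`L` kills the cubic law.** -/
theorem IsL.K0 (T : Trip N D2 D3) (hx : x ∈ N) (hn : InC N D2 D3 n) (h : IsL D3 x y z g n L) {r : FB} (hr : r ∈ E4.X.K0) :
    L r = 1 := by
  refine h.closure ?_ hr
  rintro _ ⟨a, b, _, ⟨u, rfl⟩, rfl⟩
  have hm : InC N D2 D3 (ltr x y z g b * n * (ltr x y z g b)⁻¹) := stab_ltr T hx y z g b n hn
  obtain ⟨m, hme⟩ : ∃ m, m = ltr x y z g b * n * (ltr x y z g b)⁻¹ := ⟨_, rfl⟩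
  rw [← hme] at hm
  obtain ⟨L1, h1⟩ := exists_isL T hx y z g hm
  have h1' := h1
  rw [hme] at h1'
  rw [h.base_o b h1']
  rw [C_cube]
  have e : o a * (o (u ^ 3) + o (u ^ 2) + o u + 1) = o (a * u ^ 3) + o (a * u ^ 2) + o (a * u) + o a := by
    rw [mul_add, mul_add, mul_add, mul_one, ← map_mul, ← map_mul, ← map_mul]
  rw [e, h1.add, h1.add, h1.add, h1.val, h1.val, h1.val, h1.val]
  obtain ⟨p, hp⟩ : ∃ p, p = ltr x y z g a := ⟨_, rfl⟩
  obtain ⟨q, hq⟩ : ∃ q, q = ltr x y z g u := ⟨_, rfl⟩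
  have s0 : InC N D2 D3 (p * m * p⁻¹) := by rw [hp]; exact stab_ltr T hx y z g a m hm
  have s1 : InC N D2 D3 (p * q * m * (p * q)⁻¹) := by
    rw [hp, hq, ← map_mul]; exact stab_ltr T hx y z g (a * u) m hm
  have s2 : InC N D2 D3 (p * q ^ 2 * m * (p * q ^ 2)⁻¹) := by
    rw [hp, hq, ← map_pow, ← map_mul]; exact stab_ltr T hx y z g (a * u ^ 2) m hm
  have s3 : InC N D2 D3 (p * q ^ 3 * m * (p * q ^ 3)⁻¹) := by
    rw [hp, hq, ← map_pow, ← map_mul]; exact stab_ltr T hx y z g (a * u ^ 3) m hm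
  rw [map_mul, map_mul, map_mul, map_pow, map_pow, ← hp, ← hq, ← (inC_mul T s3 s2).2,
    ← (inC_mul T (inC_mul T s3 s2).1 s1).2, ← (inC_mul T (inC_mul T (inC_mul T s3 s2).1 s1).1 s0).2]
  have e1 : p * q ^ 3 * m * (p * q ^ 3)⁻¹ * (p * q ^ 2 * m * (p * q ^ 2)⁻¹) * (p * q * m * (p * q)⁻¹) * (p * m * p⁻¹) =
      p * (q ^ 4 * (q⁻¹ * m) ^ 4) * p⁻¹ := by
    rw [pow_succ' (q⁻¹ * m) 3, pow_succ' (q⁻¹ * m) 2, pow_two (q⁻¹ * m)]
    group
  rw [e1, pi_four T q, pi_four T (q⁻¹ * m)]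
  have e2 : p * (1 * 1) * p⁻¹ = 1 := by group
  rw [e2, (inC_one T).2]

theorem bc_Xl_y (x : G) (y z : ℕ) (g : ℕ → G) (n : Bool → Bool → G) (s t : Bool) :
    bc x y z g (E4.x y) n s t = if s then x * n s t * x⁻¹ * (n s t)⁻¹ else 1 := by
  unfold bc
  rw [ltr_x, if_pos rfl]
  cases s
  · show (1 : G) * n false t * (1 : G)⁻¹ * (n false t)⁻¹ = _
    rw [if_neg Bool.false_ne_true]
    group
  · show x * n true t * x⁻¹ * (n true t)⁻¹ = _
    rw [if_pos rfl]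

theorem bc_Xl_z (x : G) {y z : ℕ} (hyz : y ≠ z) (g : ℕ → G) (n : Bool → Bool → G) (s t : Bool) :
    bc x y z g (E4.x z) n s t = if t then x * n s t * x⁻¹ * (n s t)⁻¹ else 1 := by
  unfold bc
  rw [ltr_x, if_neg (Ne.symm hyz), if_pos rfl]
  cases t
  · show (1 : G) * n s false * (1 : G)⁻¹ * (n s false)⁻¹ = _
    rw [if_neg Bool.false_ne_true]
    group
  · show x * n s true * x⁻¹ * (n s true)⁻¹ = _
    rw [if_pos rfl]

/-- the letters of `F` differ by elements of `N` at the vertices of the cube -/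
theorem ltr_diff (T : Trip N D2 D3) (hx : x ∈ N) (y z : ℕ) (g : ℕ → G) (f : F) (s t s' t' : Bool) :
    ltr x y z g f s t * (ltr x y z g f s' t')⁻¹ ∈ N := by
  have hnor := T.nN
  have key : ∀ s t, (QuotientGroup.mk (ltr x y z g f s t) : G ⧸ N) = QuotientGroup.mk (ltr x y z g f s' t') := by
    intro s t
    obtain ⟨A, hA⟩ : ∃ A : F →* G ⧸ N, ∀ f, A f = QuotientGroup.mk (ltr x y z g f s t) :=
      ⟨(QuotientGroup.mk' N).comp ((Pi.evalMonoidHom (fun _ : Bool => G) t).comp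
        ((Pi.evalMonoidHom (fun _ : Bool => Bool → G) s).comp (ltr x y z g))), fun f => rfl⟩
    obtain ⟨B, hB⟩ : ∃ B : F →* G ⧸ N, ∀ f, B f = QuotientGroup.mk (ltr x y z g f s' t') :=
      ⟨(QuotientGroup.mk' N).comp ((Pi.evalMonoidHom (fun _ : Bool => G) t').comp
        ((Pi.evalMonoidHom (fun _ : Bool => Bool → G) s').comp (ltr x y z g))), fun f => rfl⟩
    have hx1 : (QuotientGroup.mk x : G ⧸ N) = 1 := (QuotientGroup.eq_one_iff x).2 hx
    have e : A = B := by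
      refine FreeGroup.ext_hom _ _ fun i => ?_
      have h1 := hA (E4.x i)
      have h2 := hB (E4.x i)
      have h3 : A (FreeGroup.of i) = A (E4.x i) := rfl
      have h4 : B (FreeGroup.of i) = B (E4.x i) := rfl
      rw [h3, h4, h1, h2, ltr_x]
      split_ifs
      · cases s <;> cases s' <;> simp [c1, hx1]
      · cases t <;> cases t' <;> simp [c2, hx1]
      · rfl
    rw [← hA, ← hB, e]
  have h := key s t
  rw [QuotientGroup.eq] at h
  have h2 := N.inv_mem h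
  have h3 := hnor.conj_mem _ h2 (ltr x y z g f s t)
  have e : ltr x y z g f s t * ((ltr x y z g f s t)⁻¹ * ltr x y z g f s' t')⁻¹ * (ltr x y z g f s t)⁻¹ =
      ltr x y z g f s t * (ltr x y z g f s' t')⁻¹ := by group
  rw [e] at h3
  exact h3

/-- a central element is not moved by elements which agree modulo `N` -/
theorem conj_D3 (T : Trip N D2 D3) {a b d : G} (hab : a * b⁻¹ ∈ N) (hd : d ∈ D3) : a * d * a⁻¹ = b * d * b⁻¹ := by
  have h1 : b * d * b⁻¹ ∈ D3 := T.n3.conj_mem _ hd _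
  have h2 := T.ce _ hab _ h1
  calc a * d * a⁻¹ = (a * b⁻¹) * (b * d * b⁻¹) * (a * b⁻¹)⁻¹ := by group
    _ = b * d * b⁻¹ := by rw [h2]; group

/-- the commutator with `x ∈ N` only depends on the class modulo `D3` -/
theorem comm_D3 (T : Trip N D2 D3) (hx : x ∈ N) {a b : G} (hb : b ∈ N) (hab : a * b⁻¹ ∈ D3) :
    x * a * x⁻¹ * a⁻¹ = x * b * x⁻¹ * b⁻¹ := by
  have h := T.ce x hx _ hab
  have hk : x * b * x⁻¹ * b⁻¹ ∈ N := T.h21 (T.c2 x hx b hb)
  have h3 := T.ce _ hk _ hab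
  calc x * a * x⁻¹ * a⁻¹ = (x * (a * b⁻¹)) * b * x⁻¹ * a⁻¹ := by group
    _ = ((a * b⁻¹) * x) * b * x⁻¹ * a⁻¹ := by rw [h]
    _ = (a * b⁻¹) * (x * b * x⁻¹ * b⁻¹) * (a * b⁻¹)⁻¹ := by group
    _ = (x * b * x⁻¹ * b⁻¹) := by rw [← h3]; group

/-- commutators with `x` of elements which are congruent modulo `D2` are congruent modulo `D3` -/
theorem comm_D2 (T : Trip N D2 D3) (hx : x ∈ N) {a b : G} (hb : b ∈ N) (hab : a * b⁻¹ ∈ D2) :
    (x * a * x⁻¹ * a⁻¹) * (x * b * x⁻¹ * b⁻¹)⁻¹ ∈ D3 := by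
  have hk : x * b * x⁻¹ * b⁻¹ ∈ D2 := T.c2 x hx b hb
  have h3 := T.ab _ hab _ hk
  have h4 : x * (a * b⁻¹) * x⁻¹ * (a * b⁻¹)⁻¹ ∈ D3 := T.c3 x hx _ hab
  have e : (x * a * x⁻¹ * a⁻¹) * (x * b * x⁻¹ * b⁻¹)⁻¹ = x * (a * b⁻¹) * x⁻¹ * (a * b⁻¹)⁻¹ := by
    calc (x * a * x⁻¹ * a⁻¹) * (x * b * x⁻¹ * b⁻¹)⁻¹ =
        x * (a * b⁻¹) * x⁻¹ * (a * b⁻¹)⁻¹ * ((a * b⁻¹) * (x * b * x⁻¹ * b⁻¹)) * (a * b⁻¹)⁻¹ *
          (x * b * x⁻¹ * b⁻¹)⁻¹ := by group
      _ = x * (a * b⁻¹) * x⁻¹ * (a * b⁻¹)⁻¹ := by rw [h3]; group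
  rw [e]
  exact h4

/-- conjugates by elements which agree modulo `N` of elements which are congruent modulo `D3` -/
theorem conj_D2 (T : Trip N D2 D3) {a b c d : G} (hab : a * b⁻¹ ∈ N) (hd : d ∈ D2) (hcd : c * d⁻¹ ∈ D3) :
    (a * c * a⁻¹) * (b * d * b⁻¹)⁻¹ ∈ D3 := by
  have h1 : a * (c * d⁻¹) * a⁻¹ ∈ D3 := T.n3.conj_mem _ hcd _
  have h2 : b * d * b⁻¹ ∈ D2 := T.n2.conj_mem _ hd _
  have h3 := T.c3 _ hab _ h2
  have e : (a * c * a⁻¹) * (b * d * b⁻¹)⁻¹ = (a * (c * d⁻¹) * a⁻¹) * ((a * b⁻¹) * (b * d * b⁻¹) * (a * b⁻¹)⁻¹ *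
      (b * d * b⁻¹)⁻¹) := by group
  rw [e]
  exact D3.mul_mem h1 h3

/-- **`L` kills `I2 y`.** -/
theorem IsL.I2y (T : Trip N D2 D3) (hx : x ∈ N) (hn : InC N D2 D3 n) (h : IsL D3 x y z g n L) {r : FB} (hr : r ∈ I2 y) :
    L r = 1 := by
  refine h.closure ?_ hr
  rintro _ ⟨a, b, _, ⟨c, rfl⟩, rfl⟩
  obtain ⟨m, hme⟩ : ∃ m, m = ltr x y z g b * n * (ltr x y z g b)⁻¹ := ⟨_, rfl⟩
  have hm : InC N D2 D3 m := by rw [hme]; exact stab_ltr T hx y z g b n hn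
  obtain ⟨m1, hm1e⟩ : ∃ m1, m1 = bc x y z g (E4.x y) m := ⟨_, rfl⟩
  have hm1 : InC N D2 D3 m1 := by rw [hm1e]; exact bc_inC T hx _ hm
  obtain ⟨m2, hm2e⟩ : ∃ m2, m2 = ltr x y z g c * m1 * (ltr x y z g c)⁻¹ := ⟨_, rfl⟩
  have hm2 : InC N D2 D3 m2 := by rw [hm2e]; exact stab_ltr T hx y z g c m1 hm1
  obtain ⟨m3, hm3e⟩ : ∃ m3, m3 = bc x y z g (E4.x y) m2 := ⟨_, rfl⟩
  have hm3 : InC N D2 D3 m3 := by rw [hm3e]; exact bc_inC T hx _ hm2
  obtain ⟨L0, h0⟩ := exists_isL T hx y z g hm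
  obtain ⟨L1, h1⟩ := exists_isL T hx y z g hm1
  obtain ⟨L2, h2⟩ := exists_isL T hx y z g hm2
  obtain ⟨L3, h3⟩ := exists_isL T hx y z g hm3
  have e1 : L (o a * (Xl y * o c * Xl y) * o b) = L3 (o a) := by
    rw [h.base_o b (by rw [hme] at h0; exact h0)]
    have e2 : o a * (Xl y * o c * Xl y) = (o a * C (E4.x y) * o c) * C (E4.x y) := by
      unfold Xl
      noncomm_ring
    rw [e2, h0.base_C T hx hm (E4.x y) (by rw [hm1e] at h1; exact h1), h1.base_o c (by rw [hm2e] at h2; exact h2),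
      h2.base_C T hx hm2 (E4.x y) (by rw [hm3e] at h3; exact h3)]
  rw [e1, h3.val]
  have hv1 : ∀ t, m1 true t = x * m true t * x⁻¹ * (m true t)⁻¹ := by
    intro t
    rw [hm1e, bc_Xl_y, if_pos rfl]
  have hv3 : ∀ t, m3 true t = x * m2 true t * x⁻¹ * (m2 true t)⁻¹ := by
    intro t
    rw [hm3e, bc_Xl_y, if_pos rfl]
  have hv3' : ∀ t, m3 false t = 1 := by
    intro t
    rw [hm3e, bc_Xl_y, if_neg Bool.false_ne_true]
  have hmN : ∀ t, m true t ∈ N := by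
    intro t
    obtain ⟨k, hk, u, hu, v, hv, w, hw, a0, a1, a2, a3, _⟩ := inC_form hm
    cases t
    · rw [a1]; exact N.mul_mem (T.h21 hu) hk
    · rw [a3]
      exact N.mul_mem (N.mul_mem (N.mul_mem (T.h21 (T.h32 hw)) (T.h21 hv)) (T.h21 hu)) hk
  have hmd : m true true * (m true false)⁻¹ ∈ D2 := by
    obtain ⟨k, hk, u, hu, v, hv, w, hw, a0, a1, a2, a3, _⟩ := inC_form hm
    rw [a1, a3]
    have e : w * v * u * k * (u * k)⁻¹ = w * v := by group
    rw [e]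
    exact D2.mul_mem (T.h32 hw) hv
  have hd1 : ∀ t, m1 true t ∈ D2 := by
    intro t
    rw [hv1]
    exact T.c2 _ hx _ (hmN t)
  have hd2 : ∀ t, m2 true t ∈ D2 := by
    intro t
    rw [hm2e]
    exact T.n2.conj_mem _ (hd1 t) _
  have k1 : m1 true true * (m1 true false)⁻¹ ∈ D3 := by
    rw [hv1, hv1]
    exact comm_D2 T hx (hmN false) hmd
  have k2 : m2 true true * (m2 true false)⁻¹ ∈ D3 := by
    rw [hm2e]
    exact conj_D2 T (ltr_diff T hx y z g c true true true false) (hd1 false) k1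
  have k3 : m3 true true = m3 true false := by
    rw [hv3, hv3]
    exact comm_D3 T hx (T.h21 (hd2 false)) k2
  have k4 : m3 true false ∈ D3 := by
    rw [hv3]
    exact T.c3 _ hx _ (hd2 false)
  refine dl_of_eq2 ?_ ?_
  · show ltr x y z g a false true * m3 false true * (ltr x y z g a false true)⁻¹ =
      ltr x y z g a false false * m3 false false * (ltr x y z g a false false)⁻¹
    rw [hv3', hv3']
    group
  · show ltr x y z g a true true * m3 true true * (ltr x y z g a true true)⁻¹ =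
      ltr x y z g a true false * m3 true false * (ltr x y z g a true false)⁻¹
    rw [k3]
    exact conj_D3 T (ltr_diff T hx y z g a true true true false) k4

theorem ltr_swap (x : G) {y z : ℕ} (hyz : y ≠ z) (g : ℕ → G) (f : F) : ltr x z y g f = sw2 (ltr x y z g f) := by
  have h : ∀ s t, ltr x z y g f s t = ltr x y z g f t s := by
    intro s t
    obtain ⟨A, hA⟩ : ∃ A : F →* G, ∀ f, A f = ltr x z y g f s t :=
      ⟨(Pi.evalMonoidHom (fun _ : Bool => G) t).comp ((Pi.evalMonoidHom (fun _ : Bool => Bool → G) s).comp (ltr x z y g)),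
        fun f => rfl⟩
    obtain ⟨B, hB⟩ : ∃ B : F →* G, ∀ f, B f = ltr x y z g f t s :=
      ⟨(Pi.evalMonoidHom (fun _ : Bool => G) s).comp ((Pi.evalMonoidHom (fun _ : Bool => Bool → G) t).comp (ltr x y z g)),
        fun f => rfl⟩
    have e : A = B := by
      refine FreeGroup.ext_hom _ _ fun i => ?_
      have h3 : A (FreeGroup.of i) = A (E4.x i) := rfl
      have h4 : B (FreeGroup.of i) = B (E4.x i) := rfl
      rw [h3, h4, hA, hB, ltr_x, ltr_x]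
      by_cases h1 : i = y
      · rw [if_pos h1, if_pos h1, if_neg (by rw [h1]; exact hyz)]
        rfl
      · by_cases h2 : i = z
        · rw [if_pos h2, if_neg h1, if_pos h2]
          rfl
        · rw [if_neg h2, if_neg h1, if_neg h1, if_neg h2]
    rw [← hA, ← hB, e]
  funext s t
  exact h s t

/-- exchange of the letters -/
theorem IsL.swap (T : Trip N D2 D3) (hx : x ∈ N) (hyz : y ≠ z) (hn : InC N D2 D3 n) (h : IsL D3 x y z g n L) :
    IsL D3 x z y g (sw2 n) L := by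
  refine ⟨h.add, fun f => ?_, h.mem⟩
  rw [h.val, ltr_swap x hyz g f]
  have e : sw2 (ltr x y z g f) * sw2 n * (sw2 (ltr x y z g f))⁻¹ = sw2 (ltr x y z g f * n * (ltr x y z g f)⁻¹) := rfl
  rw [e, (inC_sw T (stab_ltr T hx y z g f n hn)).2]

/-- **`L` kills `I2 z`.** -/
theorem IsL.I2z (T : Trip N D2 D3) (hx : x ∈ N) (hyz : y ≠ z) (hn : InC N D2 D3 n) (h : IsL D3 x y z g n L) {r : FB}
    (hr : r ∈ I2 z) : L r = 1 :=
  (h.swap T hx hyz hn).I2y T hx (inC_sw T hn).1 hr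

theorem ltr_sw (x : G) {y z : ℕ} (hyz : y ≠ z) (g : ℕ → G) (f : F) : ltr x y z g (sw y z f) = sw2 (ltr x y z g f) := by
  rw [← ltr_swap x hyz g f]
  have e : (ltr x y z g).comp (sw y z) = ltr x z y g := by
    refine FreeGroup.ext_hom _ _ fun i => ?_
    show ltr x y z g (sw y z (E4.x i)) = ltr x z y g (E4.x i)
    rw [sw_x, ltr_x x z y g i]
    by_cases h1 : i = y
    · rw [if_pos h1, ltr_x, if_neg (Ne.symm hyz), if_pos rfl, if_neg (by rw [h1]; exact hyz), if_pos h1]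
    · by_cases h2 : i = z
      · rw [if_neg h1, if_pos h2, ltr_x, if_pos rfl, if_pos h2]
      · rw [if_neg h1, if_neg h2, ltr_x, if_neg h1, if_neg h2, if_neg h2, if_neg h1]
  exact congrArg (fun φ : F →* (Bool → Bool → G) => φ f) e

/-- **symmetry** -/
theorem IsL.sym (T : Trip N D2 D3) (hx : x ∈ N) (hyz : y ≠ z) (hn : InC N D2 D3 n) (hs : sw2 n = n)
    (h : IsL D3 x y z g n L) (r : FB) : L (eB (sw y z) r) = L r := by
  refine fb_ind (p := fun r => L (eB (sw y z) r) = L r) (fun f => ?_) (by rw [map_zero]) (fun a b ha hb => ?_) r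
  · rw [eB_o, h.val, h.val, ltr_sw x hyz g f]
    have e : sw2 (ltr x y z g f) * n * (sw2 (ltr x y z g f))⁻¹ = sw2 (ltr x y z g f * n * (ltr x y z g f)⁻¹) := by
      have e2 : sw2 (ltr x y z g f * n * (ltr x y z g f)⁻¹) = sw2 (ltr x y z g f) * sw2 n * (sw2 (ltr x y z g f))⁻¹ := rfl
      rw [e2, hs]
    rw [e, (inC_sw T (stab_ltr T hx y z g f n hn)).2]
  · rw [map_add, h.add, h.add, ha, hb]

end E4.YC
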