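import Pool.Agent.Lib.MP_8a95e3_al.YC3

/-!
# YC4 : the cube trick, part 4: values of `L` on bilinear elements
-/

namespace E4.YC

open E4 E4.X

variable {G : Type*} [Group G] {N D2 D3 : Subgroup G} {x : G} {y z : ℕ} {g : ℕ → G} {n m : Bool → Bool → G} {L L' : FB → G}

/-- constant cube -/
def cst (a : G) : Bool → Bool → G := fun _ _ => a

theorem ltr_free (x : G) {y z : ℕ} (g : ℕ → G) {f : F} (hf : Fr y z f) : ltr x y z g f = cst (ev0 y z g f) := by
  have h : ∀ s t, ltr x y z g f s t = ev0 y z g f := by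
    intro s t
    obtain ⟨A, hA⟩ : ∃ A : F →* G, ∀ f, A f = ltr x y z g f s t :=
      ⟨(Pi.evalMonoidHom (fun _ : Bool => G) t).comp ((Pi.evalMonoidHom (fun _ : Bool => Bool → G) s).comp (ltr x y z g)),
        fun f => rfl⟩
    have e : (A.comp (rp y 1)).comp (rp z 1) = ((ev0 y z g).comp (rp y 1)).comp (rp z 1) := by
      refine FreeGroup.ext_hom _ _ fun i => ?_
      show A (rp y 1 (rp z 1 (E4.x i))) = ev0 y z g (rp y 1 (rp z 1 (E4.x i)))
      rw [rp_x]
      by_cases h2 : i = z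
      · rw [if_pos h2, map_one, map_one, map_one]
      · rw [if_neg h2, rp_x]
        by_cases h1 : i = y
        · rw [if_pos h1, map_one, map_one]
        · rw [if_neg h1, hA, ltr_x, ev0_x, if_neg h1, if_neg h2, if_neg (fun h => h.elim h1 h2)]
    have e2 := congrArg (fun φ : F →* G => φ f) e
    have e3 : A (rp y 1 (rp z 1 f)) = ev0 y z g (rp y 1 (rp z 1 f)) := e2
    rw [hf.2, hf.1, hA] at e3
    exact e3
  funext s t
  exact h s t

theorem cst_inC (T : Trip N D2 D3) {a : G} (ha : a ∈ N) : InC N D2 D3 (cst a) ∧ Dl (cst a) = 1 := by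
  refine inC_of T (n := a) (u := 1) (v := 1) (w := 1) ha D2.one_mem D2.one_mem D3.one_mem rfl ?_ ?_ ?_
  · show a = _
    group
  · show a = _
    group
  · show a = _
    group

/-- a function which contains the letter `y` in the last place is killed (constant base cube `x`) -/
theorem IsL.right_y (T : Trip N D2 D3) (hx : x ∈ N) (h : IsL D3 x y z g (cst x) L) (r : FB) : L (r * Xl y) = 1 := by
  have hc := (cst_inC T hx).1
  obtain ⟨L1, h1⟩ := exists_isL T hx y z g (bc_inC T hx (y := y) (z := z) (g := g) (E4.x y) hc)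
  have e := h.base_C T hx hc (E4.x y) h1 r
  have e1 : bc x y z g (E4.x y) (cst x) = 1 := by
    funext s t
    rw [bc_Xl_y]
    show (if s then x * x * x⁻¹ * x⁻¹ else 1) = 1
    split_ifs
    · group
    · rfl
  rw [e1] at h1
  unfold Xl
  rw [e]
  exact h1.one_base T r

theorem IsL.right_z (T : Trip N D2 D3) (hx : x ∈ N) (hyz : y ≠ z) (h : IsL D3 x y z g (cst x) L) (r : FB) :
    L (r * Xl z) = 1 := by
  have h' := h.swap T hx hyz (cst_inC T hx).1
  have e : sw2 (cst x) = cst x := rfl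
  rw [e] at h'
  exact h'.right_y T hx r

/-- left equivariance -/
theorem IsL.left_o (T : Trip N D2 D3) (hx : x ∈ N) (hn : InC N D2 D3 n) (h : IsL D3 x y z g n L) {u : F} (hu : Fr y z u)
    (r : FB) : L (o u * r) = ev0 y z g u * L r * (ev0 y z g u)⁻¹ := by
  refine fb_ind (p := fun r => L (o u * r) = ev0 y z g u * L r * (ev0 y z g u)⁻¹) (fun f => ?_) ?_ (fun a b ha hb => ?_) r
  · rw [← map_mul, h.val, h.val, map_mul, ltr_free x g hu]
    have k := (conj_const T (ev0 y z g u) (stab_ltr T hx y z g f n hn)).2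
    have e : cst (ev0 y z g u) * ltr x y z g f * n * (cst (ev0 y z g u) * ltr x y z g f)⁻¹ =
        (fun _ _ => ev0 y z g u) * (ltr x y z g f * n * (ltr x y z g f)⁻¹) * (fun _ _ => ev0 y z g u)⁻¹ := by
      have e1 : (cst (ev0 y z g u) : Bool → Bool → G) = fun _ _ => ev0 y z g u := rfl
      rw [e1]
      group
    rw [e, k]
  · rw [mul_zero, h.zero]
    group
  · rw [mul_add, h.add, h.add, ha, hb]
    group

/-- commutator `[a,b] = a b a⁻¹ b⁻¹` -/
def cc (a b : G) : G := a * b * a⁻¹ * b⁻¹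

/-- conjugate -/
def cj (u a : G) : G := u * a * u⁻¹

/-- **Values on bilinear elements**: base cube constant `a`. -/
theorem IsL.val_yz (T : Trip N D2 D3) (hx : x ∈ N) {a : G} (ha : a ∈ N) (hyz : y ≠ z) (h : IsL D3 x y z g (cst a) L)
    {u v w : F} (hu : Fr y z u) (hv : Fr y z v) (hw : Fr y z w) :
    L (o u * Xl y * o v * Xl z * o w) =
      cj (ev0 y z g u) (cc x (cj (ev0 y z g v) (cc x (cj (ev0 y z g w) a)))) := by
  have hc := (cst_inC T ha).1
  obtain ⟨L0, h0⟩ := exists_isL T hx y z g (stab_ltr T hx y z g w _ hc)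
  have e0 : L (o u * Xl y * o v * Xl z * o w) = L0 (o u * Xl y * o v * Xl z) := h.base_o w h0 _
  have b0 : ltr x y z g w * cst a * (ltr x y z g w)⁻¹ = cst (cj (ev0 y z g w) a) := by
    rw [ltr_free x g hw]
    rfl
  rw [b0] at h0
  have ha' : cj (ev0 y z g w) a ∈ N := T.nN.conj_mem _ ha _
  have hc' := (cst_inC T ha').1
  obtain ⟨L1, h1⟩ := exists_isL T hx y z g (bc_inC T hx (y := y) (z := z) (g := g) (E4.x z) hc')
  have e1 : L0 (o u * Xl y * o v * Xl z) = L1 (o u * Xl y * o v) := h0.base_C T hx hc' (E4.x z) h1 _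
  obtain ⟨b, hb⟩ : ∃ b, b = bc x y z g (E4.x z) (cst (cj (ev0 y z g w) a)) := ⟨_, rfl⟩
  have hbI : InC N D2 D3 b := by rw [hb]; exact bc_inC T hx _ hc'
  rw [← hb] at h1
  have hbv : ∀ s t, b s t = if t then cc x (cj (ev0 y z g w) a) else 1 := by
    intro s t
    rw [hb, bc_Xl_z x hyz]
    rfl
  obtain ⟨L2, h2⟩ := exists_isL T hx y z g (stab_ltr T hx y z g v _ hbI)
  have e2 : L1 (o u * Xl y * o v) = L2 (o u * Xl y) := h1.base_o v h2 _
  obtain ⟨c, hcc⟩ : ∃ c, c = ltr x y z g v * b * (ltr x y z g v)⁻¹ := ⟨_, rfl⟩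
  have hcI : InC N D2 D3 c := by rw [hcc]; exact stab_ltr T hx y z g v _ hbI
  rw [← hcc] at h2
  have hcv : ∀ s t, c s t = if t then cj (ev0 y z g v) (cc x (cj (ev0 y z g w) a)) else 1 := by
    intro s t
    rw [hcc, ltr_free x g hv]
    show ev0 y z g v * b s t * (ev0 y z g v)⁻¹ = _
    rw [hbv]
    split_ifs
    · rfl
    · group
  obtain ⟨L3, h3⟩ := exists_isL T hx y z g (bc_inC T hx (y := y) (z := z) (g := g) (E4.x y) hcI)
  have e3 : L2 (o u * Xl y) = L3 (o u) := h2.base_C T hx hcI (E4.x y) h3 _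
  obtain ⟨d, hd⟩ : ∃ d, d = bc x y z g (E4.x y) c := ⟨_, rfl⟩
  rw [← hd] at h3
  have hdv : ∀ s t, d s t = if s then (if t then cc x (cj (ev0 y z g v) (cc x (cj (ev0 y z g w) a))) else 1) else 1 := by
    intro s t
    rw [hd, bc_Xl_y, hcv]
    split_ifs
    · rfl
    · group
    · rfl
  rw [e0, e1, e2, e3, h3.val, ltr_free x g hu]
  have hp : ∀ s t, (cst (ev0 y z g u) * d * (cst (ev0 y z g u))⁻¹) s t = cj (ev0 y z g u) (d s t) := fun s t => rfl
  unfold Dl
  rw [hp, hp, hp, hp, hdv, hdv, hdv, hdv]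
  show cj (ev0 y z g u) (cc x (cj (ev0 y z g v) (cc x (cj (ev0 y z g w) a)))) * (cj (ev0 y z g u) 1)⁻¹ *
    cj (ev0 y z g u) 1 * (cj (ev0 y z g u) 1)⁻¹ = _
  have e4 : cj (ev0 y z g u) (1 : G) = 1 := by
    unfold cj
    group
  rw [e4]
  group

theorem IsL.val_zy (T : Trip N D2 D3) (hx : x ∈ N) {a : G} (ha : a ∈ N) (hyz : y ≠ z) (h : IsL D3 x y z g (cst a) L)
    {u v w : F} (hu : Fr y z u) (hv : Fr y z v) (hw : Fr y z w) :
    L (o u * Xl z * o v * Xl y * o w) =
      cj (ev0 y z g u) (cc x (cj (ev0 y z g v) (cc x (cj (ev0 y z g w) a)))) := by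
  have hs : ∀ {f : F}, Fr y z f → sw y z f = f := by
    intro f hf
    have e : ((sw y z).comp (rp y 1)).comp (rp z 1) = (rp y 1).comp (rp z 1) := by
      refine FreeGroup.ext_hom _ _ fun i => ?_
      show sw y z (rp y 1 (rp z 1 (E4.x i))) = rp y 1 (rp z 1 (E4.x i))
      rw [rp_x]
      by_cases h2 : i = z
      · rw [if_pos h2, map_one, map_one]
      · rw [if_neg h2, rp_x]
        by_cases h1 : i = y
        · rw [if_pos h1, map_one]
        · rw [if_neg h1, sw_x, if_neg h1, if_neg h2]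
    have e2 := congrArg (fun φ : F →* F => φ f) e
    have e3 : sw y z (rp y 1 (rp z 1 f)) = rp y 1 (rp z 1 f) := e2
    rw [hf.2, hf.1] at e3
    exact e3
  have e := h.sym T hx hyz (cst_inC T ha).1 rfl (o u * Xl y * o v * Xl z * o w)
  rw [h.val_yz T hx ha hyz hu hv hw] at e
  rw [← e, map_mul, map_mul, map_mul, map_mul, eB_o, eB_o, eB_o, hs hu, hs hv, hs hw]
  unfold Xl
  rw [eB_C, eB_C, sw_x, if_pos rfl, sw_x, if_neg (Ne.symm hyz), if_pos rfl]

end E4.YC
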