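import Pool.Agent.Lib.MP_8a95e3_al.YC4
import Pool.Agent.Lib.MP_8a95e3_al.SqN2

/-!
# YC5 : the triple `N, γ₂, γ₃` and the kappa law
-/

namespace E4.YC

open E4 E4.X
open scoped commutatorElement

universe u

variable {G : Type u} [Group G]

theorem sq_of_class2 (h4 : ∀ g : G, g ^ 4 = 1) {a b d : G} (hab : a * b = d * (b * a)) (hda : Commute d a)
    (hdb : Commute d b) : d * d = 1 := by
  have hdaa : Commute d (a * a) := hda.mul_right hda
  have hdbb : Commute d (b * b) := hdb.mul_right hdb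
  have e1 : a * a * b = d * d * b * (a * a) := by
    calc a * a * b = a * (a * b) := by rw [mul_assoc]
      _ = a * (d * (b * a)) := by rw [hab]
      _ = (a * d) * (b * a) := by rw [mul_assoc]
      _ = (d * a) * (b * a) := by rw [hda.eq]
      _ = d * (a * b) * a := by group
      _ = d * (d * (b * a)) * a := by rw [hab]
      _ = d * d * b * (a * a) := by group
  have e2 : (b * a) ^ 2 = d * (b * b * (a * a)) := by
    calc (b * a) ^ 2 = b * (a * b) * a := by rw [pow_two]; group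
      _ = b * (d * (b * a)) * a := by rw [hab]
      _ = (b * d) * (b * a) * a := by group
      _ = (d * b) * (b * a) * a := by rw [hdb.eq]
      _ = d * (b * b * (a * a)) := by group
  have e3 : Commute (a * a) (b * b) := by
    show a * a * (b * b) = b * b * (a * a)
    have hddb : Commute (d * d) b := hdb.mul_left hdb
    calc a * a * (b * b) = (a * a * b) * b := by group
      _ = d * d * b * (a * a) * b := by rw [e1]
      _ = d * d * b * (a * a * b) := by group
      _ = d * d * b * (d * d * b * (a * a)) := by rw [e1]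
      _ = d * d * (b * (d * d)) * b * (a * a) := by group
      _ = d * d * ((d * d) * b) * b * (a * a) := by rw [hddb.eq]
      _ = d ^ 4 * (b * b * (a * a)) := by
        rw [pow_succ, pow_succ, pow_two]; group
      _ = b * b * (a * a) := by rw [h4, one_mul]
  have e5 : (b * a) ^ 4 = d * d := by
    have hk : Commute d (b * b * (a * a)) := hdbb.mul_right hdaa
    calc (b * a) ^ 4 = (b * a) ^ 2 * (b * a) ^ 2 := by rw [← pow_add]
      _ = d * (b * b * (a * a)) * (d * (b * b * (a * a))) := by rw [e2]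
      _ = d * ((b * b * (a * a)) * d) * (b * b * (a * a)) := by group
      _ = d * (d * (b * b * (a * a))) * (b * b * (a * a)) := by rw [hk.eq]
      _ = d * d * (b * b) * ((a * a) * (b * b)) * (a * a) := by group
      _ = d * d * (b * b) * ((b * b) * (a * a)) * (a * a) := by rw [e3.eq]
      _ = d * d * (b ^ 4) * (a ^ 4) := by
        rw [pow_succ b 3, pow_succ b 2, pow_two b, pow_succ a 3, pow_succ a 2, pow_two a]; group
      _ = d * d := by rw [h4, h4]; group
  rw [← e5, h4]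

theorem lcs_nrm (N : Subgroup G) [hN : N.Normal] (n : ℕ) : (lcs N n).Normal := by
  induction n with
  | zero => exact hN
  | succ n ih =>
    have h : (itc N N n).Normal := ih
    show (⁅itc N N n, N⁆ : Subgroup G).Normal
    infer_instance

/-- The triple `N, γ₂(N), γ₃(N)` if `γ₄(N) = 1`. -/
theorem trip_of (h4 : ∀ g : G, g ^ 4 = 1) (N : Subgroup G) [N.Normal] (h3 : lcs N 3 = ⊥) :
    Trip N (lcs N 1) (lcs N 2) := by
  have hn := lcs_nrm N
  have e1 : lcs N 1 = ⁅N, N⁆ := rfl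
  have e2 : lcs N 2 = ⁅lcs N 1, N⁆ := rfl
  have e3 : lcs N 3 = ⁅lcs N 2, N⁆ := rfl
  have hle1 : lcs N 1 ≤ N := by
    rw [e1]
    exact Subgroup.commutator_le_left N N
  have hle2 : lcs N 2 ≤ lcs N 1 := by
    have h := hn 1
    rw [e2]
    exact Subgroup.commutator_le_left _ _
  have hab : ∀ a ∈ lcs N 1, ∀ b ∈ lcs N 1, a * b = b * a := by
    intro a ha b hb
    have h : ⁅a, b⁆ ∈ lcs N 3 := lcs_comm N 1 1 (Subgroup.commutator_mem_commutator ha hb)
    rw [h3, Subgroup.mem_bot] at h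
    exact (commutatorElement_eq_one_iff_mul_comm).1 h
  have hce : ∀ a ∈ N, ∀ b ∈ lcs N 2, a * b = b * a := by
    intro a ha b hb
    have h : ⁅b, a⁆ ∈ lcs N 3 := Subgroup.commutator_mem_commutator hb ha
    rw [h3, Subgroup.mem_bot] at h
    exact ((commutatorElement_eq_one_iff_mul_comm).1 h).symm
  have hsq : ∀ b ∈ lcs N 2, b * b = 1 := by
    intro b hb
    have hb' : b ∈ Subgroup.closure {g : G | ∃ g₁ ∈ lcs N 1, ∃ g₂ ∈ N, ⁅g₁, g₂⁆ = g} := by
      rw [← Subgroup.commutator_def]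
      exact hb
    have key : b ∈ lcs N 2 ∧ b * b = 1 := by
      induction hb' using Subgroup.closure_induction with
      | mem c hc =>
        obtain ⟨p, hp, q, hq, rfl⟩ := hc
        have hm : ⁅p, q⁆ ∈ lcs N 2 := Subgroup.commutator_mem_commutator hp hq
        refine ⟨hm, sq_of_class2 h4 (a := p) (b := q) ?_ ?_ ?_⟩
        · rw [commutatorElement_def]
          group
        · exact (hce _ (hle1 hp) _ hm).symm
        · exact (hce _ hq _ hm).symm
      | one => exact ⟨Subgroup.one_mem _, one_mul 1⟩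
      | mul c d hc0 hd0 hc hd =>
        have hcm : c ∈ lcs N 2 := by
          rw [e2, Subgroup.commutator_def]
          exact hc0
        have hdm : d ∈ lcs N 2 := by
          rw [e2, Subgroup.commutator_def]
          exact hd0
        have hc' := hc hcm
        have hd' := hd hdm
        refine ⟨Subgroup.mul_mem _ hcm hdm, ?_⟩
        have k := hab c (hle2 hcm) d (hle2 hdm)
        calc c * d * (c * d) = c * (d * c) * d := by group
          _ = c * (c * d) * d := by rw [k]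
          _ = (c * c) * (d * d) := by group
          _ = 1 := by rw [hc'.2, hd'.2, one_mul]
      | inv c hc0 hc =>
        have hcm : c ∈ lcs N 2 := by
          rw [e2, Subgroup.commutator_def]
          exact hc0
        have hc' := hc hcm
        refine ⟨Subgroup.inv_mem _ hcm, ?_⟩
        rw [← mul_inv_rev, hc'.2, inv_one]
    exact key.2
  exact
    { four := h4
      nN := inferInstance
      n2 := hn 1
      n3 := hn 2
      h21 := hle1
      h32 := hle2
      c2 := fun a ha b hb => Subgroup.commutator_mem_commutator ha hb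
      c3 := fun a ha b hb => by
        have h : ⁅b, a⁆ ∈ lcs N 2 := Subgroup.commutator_mem_commutator hb ha
        have h2 := (lcs N 2).inv_mem h
        rw [commutatorElement_inv] at h2
        exact h2
      ab := hab
      ce := hce
      sq := hsq }

section kappa

variable {N D2 D3 : Subgroup G} {x : G} {y z : ℕ} {g : ℕ → G} {L : FB → G}

theorem cc_mul_D2 (T : Trip N D2 D3) (hx : x ∈ N) {c d : G} (hc : c ∈ D2) (hd : d ∈ D2) :
    cc x (c * d) = cc x c * cc x d := by
  have h1 : cc x d ∈ D3 := T.c3 x hx d hd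
  have h2 := T.ce c (T.h21 hc) _ h1
  calc cc x (c * d) = cc x c * (c * cc x d) * c⁻¹ := by unfold cc; group
    _ = cc x c * (cc x d * c) * c⁻¹ := by rw [h2]
    _ = cc x c * cc x d := by group

/-- `phi a = [x,[x,a]]` -/
def ph (x a : G) : G := cc x (cc x a)

theorem ph_mem (T : Trip N D2 D3) (hx : x ∈ N) {a : G} (ha : a ∈ N) : ph x a ∈ D3 := T.c3 x hx _ (T.c2 x hx a ha)

theorem ph_mul (T : Trip N D2 D3) (hx : x ∈ N) {a b : G} (ha : a ∈ N) (hb : b ∈ N) :
    ph x (a * b) = ph x a * ph x b := by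
  have h1 : cc x a ∈ D2 := T.c2 x hx a ha
  have h2 : cc x b ∈ D2 := T.c2 x hx b hb
  unfold ph
  rw [← cc_mul_D2 T hx h1 h2]
  refine comm_D3 T hx (D2.mul_mem h1 h2 |> T.h21) ?_
  have h3 : a * cc x b * a⁻¹ * (cc x b)⁻¹ ∈ D3 := T.c3 a ha _ h2
  have h4 := T.n3.conj_mem _ h3 (cc x a)
  have e : cc x (a * b) * (cc x a * cc x b)⁻¹ = cc x a * (a * cc x b * a⁻¹ * (cc x b)⁻¹) * (cc x a)⁻¹ := by
    unfold cc
    group
  rw [e]
  exact h4

theorem ph_self (x : G) : ph x x = 1 := by
  unfold ph cc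
  group

theorem ph_inv (T : Trip N D2 D3) (hx : x ∈ N) {a : G} (ha : a ∈ N) : cc x ((cc x a)⁻¹) = ph x a := by
  have h1 : cc x a ∈ D2 := T.c2 x hx a ha
  have h2 := cc_mul_D2 T hx h1 (D2.inv_mem h1)
  have e : cc x (cc x a * (cc x a)⁻¹) = 1 := by
    unfold cc
    group
  rw [e] at h2
  have h3 := T.sq _ (ph_mem T hx ha)
  have h4 : cc x ((cc x a)⁻¹) = (ph x a)⁻¹ := eq_inv_of_mul_eq_one_right h2.symm
  rw [h4]
  exact inv_eq_of_mul_eq_one_left h3

/-- the square of a product with a conjugate by an involution -/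
theorem xb_sq (h4 : ∀ g : G, g ^ 4 = 1) (x : G) {f : G} (hf : f * f = 1) : x * (f * x * f⁻¹) * (x * (f * x * f⁻¹)) = 1 := by
  have hfi : f⁻¹ = f := inv_eq_of_mul_eq_one_left hf
  have e : (x * f) ^ 4 = x * (f * x * f) * (x * (f * x * f)) := by
    rw [pow_succ, pow_succ, pow_two]
    group
  rw [hfi, ← e, h4]

/-- **the kappa law**, group form -/
theorem kappa_grp (T : Trip N D2 D3) (hx : x ∈ N) (U : G) :
    ph x (U * x * U⁻¹) * ph x (U⁻¹ * x * U) =
      U ^ 2 * (x * U ^ 2 * x⁻¹) * (U ^ 2)⁻¹ * (x * U ^ 2 * x⁻¹)⁻¹ := by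
  obtain ⟨f, hfe⟩ : ∃ f, f = U ^ 2 := ⟨_, rfl⟩
  rw [← hfe]
  have hff : f * f = 1 := by
    rw [hfe, ← pow_add]
    exact T.four U
  have hfi : f⁻¹ = f := inv_eq_of_mul_eq_one_left hff
  obtain ⟨b, hb⟩ : ∃ b, b = f * x * f⁻¹ := ⟨_, rfl⟩
  have hbN : b ∈ N := by rw [hb]; exact T.nN.conj_mem _ hx _
  have h1N : U * x * U⁻¹ ∈ N := T.nN.conj_mem _ hx _
  have h3N : U⁻¹ * x * U ∈ N := by
    have h := T.nN.conj_mem _ hx U⁻¹
    rw [inv_inv] at h
    exact h
  -- the product is `ph x b`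
  have e1 : ph x (U * x * U⁻¹) * ph x (U⁻¹ * x * U) = ph x b := by
    have hprod : x * (U * x * U⁻¹) * b * (U⁻¹ * x * U) = 1 := by
      have hU : U⁻¹ = U ^ 3 := by
        rw [inv_eq_iff_mul_eq_one, ← pow_succ']
        exact T.four U
      have e : (x * U) ^ 4 * (U ^ 4)⁻¹ = x * (U * x * U⁻¹) * (U ^ 2 * x * (U ^ 2)⁻¹) * (U ^ 3 * x * (U ^ 3)⁻¹) := by
        rw [pow_succ (x * U) 3, pow_succ (x * U) 2, pow_two (x * U)]
        group
      rw [T.four, T.four] at e
      have e' : U⁻¹ * x * U = U ^ 3 * x * (U ^ 3)⁻¹ := by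
        rw [← hU, inv_inv]
      rw [e', hb, hfe, ← e]
      group
    have h := ph_mul T hx (N.mul_mem (N.mul_mem hx h1N) hbN) h3N
    rw [hprod, ph_mul T hx (N.mul_mem hx h1N) hbN, ph_mul T hx hx h1N, ph_self, one_mul] at h
    have e2 : ph x (1 : G) = 1 := by
      unfold ph cc
      group
    rw [e2] at h
    have hcm := T.ce _ (T.h21 (T.h32 (ph_mem T hx hbN))) _ (ph_mem T hx h3N)
    have h5 := T.sq _ (ph_mem T hx hbN)
    calc ph x (U * x * U⁻¹) * ph x (U⁻¹ * x * U) =
        ph x (U * x * U⁻¹) * (ph x (U⁻¹ * x * U) * ph x b) * (ph x b)⁻¹ := by group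
      _ = ph x (U * x * U⁻¹) * (ph x b * ph x (U⁻¹ * x * U)) * (ph x b)⁻¹ := by rw [hcm]
      _ = (ph x (U * x * U⁻¹) * ph x b * ph x (U⁻¹ * x * U)) * (ph x b)⁻¹ := by group
      _ = (ph x b)⁻¹ := by rw [← h, one_mul]
      _ = ph x b := inv_eq_of_mul_eq_one_left h5
  rw [e1]
  have hxb : x * b * (x * b) = 1 := by rw [hb]; exact xb_sq T.four x hff
  have hb4 : b * b * (b * b) = 1 := by
    have h := T.four b
    rw [pow_succ, pow_succ, pow_two] at h
    rw [← h]
    group
  have hbxb : b * x * b = x⁻¹ := by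
    have : b * x * b = x⁻¹ * (x * b * (x * b)) := by group
    rw [this, hxb, mul_one]
  have hbinv : b⁻¹ = x * b * x := by
    have : x * b * x = (x * b * (x * b)) * b⁻¹ := by group
    rw [this, hxb, one_mul]
  -- right hand side
  have e3 : f * (x * f * x⁻¹) * f⁻¹ * (x * f * x⁻¹)⁻¹ = b * b * (x * (b * b) * x⁻¹) := by
    have h1 : f * (x * f * x⁻¹) * f⁻¹ * (x * f * x⁻¹)⁻¹ = (b * x⁻¹) * (b * x⁻¹) := by
      have h2 : f * (x * f * x⁻¹) * f⁻¹ * (x * f * x⁻¹)⁻¹ = f * x * f * x⁻¹ * f⁻¹ * x * f⁻¹ * x⁻¹ := by group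
      rw [h2, hb, hfi]
      group
    rw [h1]
    calc b * x⁻¹ * (b * x⁻¹) = b * (b * x * b) * (b * x⁻¹) := by rw [hbxb]
      _ = b * b * (x * (b * b) * x⁻¹) := by group
  rw [e3]
  -- left hand side
  obtain ⟨d, hd⟩ : ∃ d, d = ph x b := ⟨_, rfl⟩
  have hd3 : d ∈ D3 := by rw [hd]; exact ph_mem T hx hbN
  have hc : cc x b = x * (b * b) * x := by
    unfold cc
    calc x * b * x⁻¹ * b⁻¹ = x * b * (b * x * b) * (x * b * x) := by rw [hbxb, hbinv]
      _ = x * (b * b) * x * (b * x * b) * x := by group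
      _ = x * (b * b) * x * x⁻¹ * x := by rw [hbxb]
      _ = x * (b * b) * x := by group
  have hbbi : (b * b)⁻¹ = b * b := inv_eq_of_mul_eq_one_left hb4
  have e4 : d = x * x * (b * b * x⁻¹ * (b * b) * x) * (x * x)⁻¹ := by
    rw [hd]
    unfold ph
    rw [hc]
    unfold cc
    have : x * (x * (b * b) * x) * x⁻¹ * (x * (b * b) * x)⁻¹ = x * x * (b * b * x⁻¹ * (b * b)⁻¹ * x) * (x * x)⁻¹ := by group
    rw [this, hbbi]
  have hdx : x * x * d = d * (x * x) := T.ce _ (N.mul_mem hx hx) _ hd3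
  have e5 : b * b * x⁻¹ * (b * b) * x = d := by
    have h1 : (x * x)⁻¹ * d * (x * x) = b * b * x⁻¹ * (b * b) * x := by
      rw [e4]
      group
    rw [← h1, mul_assoc, ← hdx]
    group
  have hdd : d * d = 1 := T.sq _ hd3
  have hxd : x * d = d * x := T.ce _ hx _ hd3
  have e6 : x * (b * b) * x⁻¹ = b * b * d := by
    have h1 : x⁻¹ * (b * b) * x = b * b * d := by
      calc x⁻¹ * (b * b) * x = (b * b)⁻¹ * (b * b * x⁻¹ * (b * b) * x) := by group
        _ = b * b * d := by rw [e5, hbbi]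
    calc x * (b * b) * x⁻¹ = x * (b * b * d) * x⁻¹ * (x * d⁻¹ * x⁻¹) := by group
      _ = x * (x⁻¹ * (b * b) * x) * x⁻¹ * (x * d⁻¹ * x⁻¹) := by rw [h1]
      _ = b * b * (x * d⁻¹ * x⁻¹) := by group
      _ = b * b * d := by
        have hdi : d⁻¹ = d := inv_eq_of_mul_eq_one_left hdd
        rw [hdi, hxd]
        group
  rw [← hd, e6]
  calc d = 1 * d := (one_mul d).symm
    _ = b * b * (b * b) * d := by rw [hb4]
    _ = b * b * (b * b * d) := by group

/-- **the kappa law** -/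
theorem IsL.tau_val (T : Trip N D2 D3) (hx : x ∈ N) (hyz : y ≠ z) (h : IsL D3 x y z g (cst x) L) {u : F}
    (hu : Fr y z u) :
    L (tau y z u) = (ev0 y z g u) ^ 2 * (x * (ev0 y z g u) ^ 2 * x⁻¹) * ((ev0 y z g u) ^ 2)⁻¹ *
      (x * (ev0 y z g u) ^ 2 * x⁻¹)⁻¹ := by
  have h1 : Fr y z (1 : F) := ⟨map_one _, map_one _⟩
  have hi : Fr y z u⁻¹ := ⟨by rw [map_inv, hu.1], by rw [map_inv, hu.2]⟩
  rw [← kappa_grp T hx (ev0 y z g u)]
  unfold tau
  rw [h.add, h.add, h.add]
  have t1 : L (Xl y * Xl z * o u) = ph x (ev0 y z g u * x * (ev0 y z g u)⁻¹) := by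
    have e := h.val_yz T hx hx hyz h1 h1 hu
    have e2 : o (1 : F) * Xl y * o (1 : F) * Xl z * o u = Xl y * Xl z * o u := by
      rw [map_one, one_mul, mul_one]
    rw [e2] at e
    rw [e, map_one]
    unfold ph cj
    rw [one_mul, inv_one, mul_one, one_mul, mul_one]
  have t2 : L (o u⁻¹ * Xl z * Xl y) = 1 := h.right_y T hx _
  have t3 : L (o u⁻¹ * Xl y * o u * Xl z) = 1 := h.right_z T hx hyz _
  have t4 : L (Xl z * o u⁻¹ * Xl y * o u) = ph x ((ev0 y z g u)⁻¹ * x * ev0 y z g u) := by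
    have e := h.val_zy T hx hx hyz h1 hi hu
    have e2 : o (1 : F) * Xl z * o u⁻¹ * Xl y * o u = Xl z * o u⁻¹ * Xl y * o u := by
      rw [map_one, one_mul]
    rw [e2] at e
    rw [e, map_one, map_inv]
    have hN : (ev0 y z g u)⁻¹ * x * ev0 y z g u ∈ N := by
      have h := T.nN.conj_mem _ hx (ev0 y z g u)⁻¹
      rw [inv_inv] at h
      exact h
    rw [← ph_inv T hx hN]
    unfold cj
    rw [one_mul, inv_one, mul_one]
    congr 1
    unfold cc
    group
  rw [t1, t2, t3, t4, mul_one, mul_one]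

end kappa

end E4.YC
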