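import Pool.Agent.Lib.MP_8a95e3_al.YC5
import Pool.Agent.Lib.MP_8a95e3_al.X02b

/-!
# YC6 : `L` kills `C (c²) * k`, `k` in the ideal generated by the `tau y z g`
-/

noncomputable section

namespace E4.YC

open E4 E4.X
open scoped commutatorElement

/-- squares act trivially on the commutators of conjugates of an involution -/
def JTS (G : Type*) [Group G] : Prop :=
  ∀ e : G, e ^ 2 = 1 → ∀ u v g : G, Commute (g ^ 2) ⁅u * e * u⁻¹, v * e * v⁻¹⁆

/-- the letters `y`, `z` are killed -/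
def fr2 (y z : ℕ) : F →* F := (rp y 1).comp (rp z 1)

theorem fr2_x (y z i : ℕ) : fr2 y z (E4.x i) = if i = z then 1 else if i = y then 1 else E4.x i := by
  unfold fr2
  rw [MonoidHom.comp_apply, rp_x]
  by_cases h1 : i = z
  · rw [if_pos h1, if_pos h1, map_one]
  · rw [if_neg h1, if_neg h1, rp_x]

theorem fr2_ap {φ ψ : F →* F} (e : φ = ψ) (a : F) : φ a = ψ a := by rw [e]

theorem fr2_fr {y z : ℕ} (g : F) : Fr y z (fr2 y z g) := by
  have e1 : (rp y 1).comp (fr2 y z) = fr2 y z := by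
    refine hom_ext fun i => ?_
    rw [MonoidHom.comp_apply, fr2_x]
    by_cases h1 : i = z
    · rw [if_pos h1, map_one]
    · rw [if_neg h1]
      by_cases h2 : i = y
      · rw [if_pos h2, map_one]
      · rw [if_neg h2, rp_x, if_neg h2]
  have e2 : (rp z 1).comp (fr2 y z) = fr2 y z := by
    refine hom_ext fun i => ?_
    rw [MonoidHom.comp_apply, fr2_x]
    by_cases h1 : i = z
    · rw [if_pos h1, map_one]
    · rw [if_neg h1]
      by_cases h2 : i = y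
      · rw [if_pos h2, map_one]
      · rw [if_neg h2, rp_x, if_neg h1]
  exact ⟨fr2_ap e1 g, fr2_ap e2 g⟩

theorem fr2_fox (y z : ℕ) (g : F) : o g + o (fr2 y z g) ∈ I1 y ⊔ I1 z := by
  have h1 := fox z g
  have h2 := fox y (rp z 1 g)
  have h3 : o g + o (fr2 y z g) = (o (rp z 1 g) + o (rp y 1 (rp z 1 g))) + (o g + o (rp z 1 g)) := by
    have h : (o (rp z 1 g) + o (rp y 1 (rp z 1 g))) + (o g + o (rp z 1 g)) = o g + o (rp y 1 (rp z 1 g)) +
      (o (rp z 1 g) + o (rp z 1 g)) := by abel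
    rw [h, fb_add_self, add_zero]
    rfl
  rw [h3]
  exact AddSubgroup.mem_sup.2 ⟨_, h2, _, h1, rfl⟩

theorem Xl_I1 (j : ℕ) : Xl j ∈ I1 j := sub_idl rfl

/-- three coefficients may be changed -/
theorem tri2 {y z : ℕ} {a b c a' b' c' : FB} (ha : a + a' ∈ I1 y ⊔ I1 z) (hb : b + b' ∈ I1 y ⊔ I1 z)
    (hc : c + c' ∈ I1 y ⊔ I1 z) : a * Xl y * b * Xl z * c + a' * Xl y * b' * Xl z * c' ∈ I2 y ⊔ I2 z := by
  have h1 : (a + a') * Xl y * b * Xl z * c ∈ I2 y ⊔ I2 z := by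
    obtain ⟨p, hp, q, hq, h⟩ := AddSubgroup.mem_sup.1 ha
    rw [← h, add_mul, add_mul, add_mul, add_mul]
    refine AddSubgroup.mem_sup.2 ⟨_, (I2_bi y).mul_right _ ((I2_bi y).mul_right _ ((I2_bi y).mul_right _
      (mul_I1_I1 hp (Xl_I1 y)))), _, (I2_bi z).mul_right _ (mul_I1_I1 ((I1_bi z).mul_right _ ((I1_bi z).mul_right _ hq))
      (Xl_I1 z)), rfl⟩
  have h2 : a' * Xl y * (b + b') * Xl z * c ∈ I2 y ⊔ I2 z := by
    obtain ⟨p, hp, q, hq, h⟩ := AddSubgroup.mem_sup.1 hb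
    rw [← h, mul_add, add_mul, add_mul]
    refine AddSubgroup.mem_sup.2 ⟨_, (I2_bi y).mul_right _ ((I2_bi y).mul_right _ (mul_I1_I1 ((I1_bi y).mul_left _
      (Xl_I1 y)) hp)), _, (I2_bi z).mul_right _ (mul_I1_I1 ((I1_bi z).mul_left _ hq) (Xl_I1 z)), rfl⟩
  have h3 : a' * Xl y * b' * Xl z * (c + c') ∈ I2 y ⊔ I2 z := by
    obtain ⟨p, hp, q, hq, h⟩ := AddSubgroup.mem_sup.1 hc
    rw [← h, mul_add]
    refine AddSubgroup.mem_sup.2 ⟨_, mul_I1_I1 ((I1_bi y).mul_right _ ((I1_bi y).mul_right _ ((I1_bi y).mul_left _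
      (Xl_I1 y)))) hp, _, mul_I1_I1 ((I1_bi z).mul_left _ (Xl_I1 z)) hq, rfl⟩
  have h4 : a * Xl y * b * Xl z * c + a' * Xl y * b' * Xl z * c' =
      (a + a') * Xl y * b * Xl z * c + a' * Xl y * (b + b') * Xl z * c + a' * Xl y * b' * Xl z * (c + c') := by
    have h5 := fb_add_self (a' * Xl y * b * Xl z * c)
    have h6 := fb_add_self (a' * Xl y * b' * Xl z * c)
    have h7 : (a + a') * Xl y * b * Xl z * c + a' * Xl y * (b + b') * Xl z * c + a' * Xl y * b' * Xl z * (c + c') =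
        a * Xl y * b * Xl z * c + a' * Xl y * b' * Xl z * c' + (a' * Xl y * b * Xl z * c + a' * Xl y * b * Xl z * c) +
        (a' * Xl y * b' * Xl z * c + a' * Xl y * b' * Xl z * c) := by
      simp only [add_mul, mul_add]
      abel
    rw [h7, h5, h6, add_zero, add_zero]
  rw [h4]
  exact AddSubgroup.add_mem _ (AddSubgroup.add_mem _ h1 h2) h3

theorem tri_p1 (y z : ℕ) (a b c : F) : o a * Xl y * o b * Xl z * o c +
    o (fr2 y z a) * Xl y * o (fr2 y z b) * Xl z * o (fr2 y z c) ∈ I2 y ⊔ I2 z :=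
  tri2 (fr2_fox y z a) (fr2_fox y z b) (fr2_fox y z c)

theorem tri_p2 (y z : ℕ) (a b c : F) : o a * Xl z * o b * Xl y * o c +
    o (fr2 y z a) * Xl z * o (fr2 y z b) * Xl y * o (fr2 y z c) ∈ I2 y ⊔ I2 z := by
  have h : ∀ g : F, o g + o (fr2 y z g) ∈ I1 z ⊔ I1 y := fun g => by
    rw [sup_comm]
    exact fr2_fox y z g
  rw [sup_comm]
  exact tri2 (h a) (h b) (h c)

theorem tau_t4 (y z : ℕ) (u g v : F) : o u * tau y z g * o v =
    o u * Xl y * o 1 * Xl z * o (g * v) + o (u * g⁻¹) * Xl z * o 1 * Xl y * o v +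
    o (u * g⁻¹) * Xl y * o g * Xl z * o v + o u * Xl z * o g⁻¹ * Xl y * o (g * v) := by
  unfold tau
  rw [map_one, map_mul, map_mul]
  simp only [mul_one, mul_add, add_mul, mul_assoc]

/-- the coefficients of `u tau_g v` may be made free of `y`, `z` -/
theorem tau_fr (y z : ℕ) (u g v : F) : o u * tau y z g * o v +
    o (fr2 y z u) * tau y z (fr2 y z g) * o (fr2 y z v) ∈ I2 y ⊔ I2 z := by
  have h1 := tri_p1 y z u 1 (g * v)
  have h2 := tri_p2 y z (u * g⁻¹) 1 v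
  have h3 := tri_p1 y z (u * g⁻¹) g v
  have h4 := tri_p2 y z u g⁻¹ (g * v)
  rw [tau_t4, tau_t4]
  simp only [map_mul (fr2 y z), map_inv (fr2 y z), map_one (fr2 y z)] at h1 h2 h3 h4 ⊢
  have h5 := AddSubgroup.add_mem _ (AddSubgroup.add_mem _ (AddSubgroup.add_mem _ h1 h2) h3) h4
  refine (congrArg (fun r => r ∈ I2 y ⊔ I2 z) ?_).mp h5
  abel

variable {G : Type*} [Group G] {N D2 D3 : Subgroup G} {x : G} {y z : ℕ} {g : ℕ → G} {n : Bool → Bool → G} {L : FB → G}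

/-- `L` kills `K0 ⊔ I2 y ⊔ I2 z` -/
theorem IsL.kill (T : Trip N D2 D3) (hx : x ∈ N) (hyz : y ≠ z) (hn : InC N D2 D3 n) (h : IsL D3 x y z g n L) {r : FB}
    (hr : r ∈ E4.X.K0 ⊔ I2 y ⊔ I2 z) : L r = 1 := by
  obtain ⟨d, hd, c, hc, rfl⟩ := AddSubgroup.mem_sup.1 hr
  obtain ⟨a, ha, b, hb, rfl⟩ := AddSubgroup.mem_sup.1 hd
  rw [h.add, h.add, h.K0 T hx hn ha, h.I2y T hx hn hb, h.I2z T hx hyz hn hc, one_mul, one_mul]

/-- elements which are congruent modulo `K0 ⊔ I2 y ⊔ I2 z` have the same value -/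
theorem IsL.congr (T : Trip N D2 D3) (hx : x ∈ N) (hyz : y ≠ z) (hn : InC N D2 D3 n) (h : IsL D3 x y z g n L) {r s : FB}
    (hr : r + s ∈ E4.X.K0 ⊔ I2 y ⊔ I2 z) : L r = L s := by
  have e := h.kill T hx hyz hn hr
  rw [h.add] at e
  calc L r = L r * L s * (L s)⁻¹ := by group
    _ = (L s)⁻¹ := by rw [e, one_mul]
    _ = L s := inv_eq_of_mul_eq_one_left (h.neg T s)

theorem NK_bi' (y z : ℕ) : Bi (E4.X.K0 ⊔ I2 y ⊔ I2 z) := (K0_TI.bi.sup (I2_bi y)).sup (I2_bi z)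

/-- **`L` kills `C (c²) u tau_g`** (`c`, `u`, `g` free of `y`, `z`). -/
theorem IsL.C_tau (T : Trip N D2 D3) (hJ : JTS G) (hx : x ∈ N) (hyz : y ≠ z) (h : IsL D3 x y z g (cst x) L) {c u v : F}
    (hc : Fr y z c) (hu : Fr y z u) (hv : Fr y z v) : L (C (c ^ 2) * (o u * tau y z v)) = 1 := by
  have hcst := (cst_inC T hx).1
  obtain ⟨c', hc'⟩ : ∃ c', c' = u⁻¹ * c * u := ⟨_, rfl⟩
  have hfc : Fr y z c' := by
    rw [hc']
    refine ⟨?_, ?_⟩
    · rw [map_mul, map_mul, map_inv, hu.1, hc.1]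
    · rw [map_mul, map_mul, map_inv, hu.2, hc.2]
  have hfc2 : Fr y z (c' ^ 2) := ⟨by rw [map_pow, hfc.1], by rw [map_pow, hfc.2]⟩
  have e1 : C (c ^ 2) * (o u * tau y z v) = o u * (o (c' ^ 2) * tau y z v + tau y z v) := by
    have e2 : o (c ^ 2) * o u = o u * o (c' ^ 2) := by
      rw [← map_mul, ← map_mul, hc']
      congr 1
      rw [pow_two, pow_two]
      group
    unfold C
    rw [add_mul, one_mul, ← mul_assoc, e2, mul_add, mul_assoc]
  rw [e1, h.left_o T hx hcst hu, h.add, h.left_o T hx hcst hfc2]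
  have e3 : ev0 y z g (c' ^ 2) * L (tau y z v) * (ev0 y z g (c' ^ 2))⁻¹ = L (tau y z v) := by
    have h2 : ((ev0 y z g v) ^ 2) ^ 2 = 1 := by
      rw [← pow_mul]
      exact T.four _
    have k := hJ ((ev0 y z g v) ^ 2) h2 1 x (ev0 y z g c')
    have e4 : L (tau y z v) = ⁅1 * (ev0 y z g v) ^ 2 * 1⁻¹, x * (ev0 y z g v) ^ 2 * x⁻¹⁆ := by
      rw [h.tau_val T hx hyz hv, commutatorElement_def]
      group
    rw [e4, map_pow, k.eq]
    group
  rw [e3, h.neg T]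
  group

/-- **`L` kills `C (c²) k`**, `k` in the ideal generated by the `tau_g`, `c` free of `y`, `z`. -/
theorem IsL.C_idl (T : Trip N D2 D3) (hJ : JTS G) (hx : x ∈ N) (hyz : y ≠ z) (h : IsL D3 x y z g (cst x) L)
    (hKP : ∀ k, (0, k) ∈ KP y z → k ∈ E4.X.K0 ⊔ I2 y ⊔ I2 z) {c : F} (hc : Fr y z c) {k : FB}
    (hk : k ∈ idl {r | ∃ g : F, r = tau y z g}) : L (C (c ^ 2) * k) = 1 := by
  have hcst := (cst_inC T hx).1
  have hcl : ∀ r ∈ {r : FB | ∃ a b : F, ∃ s ∈ {r | ∃ g : F, r = tau y z g}, r = o a * s * o b},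
      L (C (c ^ 2) * r) = 1 := by
    rintro _ ⟨a, b, _, ⟨w, rfl⟩, rfl⟩
    have hk1 : (o a * E4.X.T w * o b, o a * tau y z w * o b) ∈ KP y z := AddSubgroup.subset_closure ⟨a, w, b, rfl⟩
    have hk2 : (o (a * b) * E4.X.T (b⁻¹ * w * b) * o 1, o (a * b) * tau y z (b⁻¹ * w * b) * o 1) ∈ KP y z :=
      AddSubgroup.subset_closure ⟨a * b, b⁻¹ * w * b, 1, rfl⟩
    have e0 : o (a * b) * E4.X.T (b⁻¹ * w * b) * o 1 = o a * E4.X.T w * o b := by
      have h1 : a * b * (b⁻¹ * w * b) = a * w * b := by group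
      have h2 : a * b * (b⁻¹ * w * b)⁻¹ = a * w⁻¹ * b := by group
      unfold E4.X.T
      rw [map_one, mul_one, mul_add, mul_add, add_mul, ← map_mul, ← map_mul, ← map_mul, ← map_mul, ← map_mul, ← map_mul,
        h1, h2]
    have hk3 := AddSubgroup.add_mem _ hk1 hk2
    have e1 : ((o a * E4.X.T w * o b, o a * tau y z w * o b) +
        (o (a * b) * E4.X.T (b⁻¹ * w * b) * o 1, o (a * b) * tau y z (b⁻¹ * w * b) * o 1) : FB × FB) =
        (0, o a * tau y z w * o b + o (a * b) * tau y z (b⁻¹ * w * b)) := by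
      refine Prod.ext ?_ ?_
      · show o a * E4.X.T w * o b + o (a * b) * E4.X.T (b⁻¹ * w * b) * o 1 = 0
        rw [e0, fb_add_self]
      · show o a * tau y z w * o b + o (a * b) * tau y z (b⁻¹ * w * b) * o 1 = _
        rw [map_one, mul_one]
    rw [e1] at hk3
    have hk4 := (NK_bi' y z).mul_left (C (c ^ 2)) (hKP _ hk3)
    rw [mul_add] at hk4
    rw [h.congr T hx hyz hcst hk4]
    have hk5 := tau_fr y z (a * b) (b⁻¹ * w * b) 1
    rw [map_one, map_one, map_one, mul_one, mul_one] at hk5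
    have hk6 : C (c ^ 2) * (o (a * b) * tau y z (b⁻¹ * w * b)) +
        C (c ^ 2) * (o (fr2 y z (a * b)) * tau y z (fr2 y z (b⁻¹ * w * b))) ∈ E4.X.K0 ⊔ I2 y ⊔ I2 z := by
      rw [← mul_add]
      refine (NK_bi' y z).mul_left _ ?_
      rw [sup_assoc]
      exact AddSubgroup.mem_sup_right hk5
    rw [h.congr T hx hyz hcst hk6]
    exact h.C_tau T hJ hx hyz hc (fr2_fr _) (fr2_fr _)
  unfold idl at hk
  induction hk using AddSubgroup.closure_induction with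
  | mem r hr => exact hcl r hr
  | zero => rw [mul_zero, h.zero]
  | add p q _ _ hp hq => rw [mul_add, h.add, hp, hq, one_mul]
  | neg p _ hp => rw [fb_neg, hp]

end E4.YC
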