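import Pool.Agent.Lib.MP_8a95e3_al.YC6
import Pool.Agent.Lib.MP_8a95e3_al.RA4

/-!
# YC7 : the map `Lam`
-/

noncomputable section

namespace E4.YC

open E4 E4.X E4.N E4.RA
open scoped commutatorElement

theorem Dl_map {G H : Type*} [Group G] [Group H] {Φ : G →* H} {a : Bool → Bool → H} {b : Bool → Bool → G}
    (h : ∀ s t, a s t = Φ (b s t)) : Dl a = Φ (Dl b) := by
  unfold Dl
  rw [h, h, h, h, map_mul, map_mul, map_mul, map_inv, map_inv]

section
variable (C' : Subgroup F) [C'.Normal]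

/-- values of the letters -/
def gq : ℕ → F ⧸ C' := fun i => QuotientGroup.mk (E4.x (i - 1))

theorem ev0_sh2 (c : F) : ev0 0 1 (gq C') (sh2 c) = QuotientGroup.mk (sh c) := by
  have e : (ev0 0 1 (gq C')).comp sh2 = (QuotientGroup.mk' C').comp sh := by
    refine FreeGroup.ext_hom _ _ fun i => ?_
    show ev0 0 1 (gq C') (sh2 (E4.x i)) = QuotientGroup.mk (sh (E4.x i))
    rw [sh2_x, sh_x, ev0_x, if_neg (by omega)]
    rfl
  exact congrArg (fun φ : F →* F ⧸ C' => φ c) e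

/-- the endomorphism of the quotient -/
theorem exists_pq (hst : StP C') (φ : F →* F) : ∃ Φ : F ⧸ C' →* F ⧸ C', ∀ w : F,
    Φ (QuotientGroup.mk w) = QuotientGroup.mk (pls φ w) :=
  ⟨QuotientGroup.map C' C' (pls φ) (fun w hw => hst φ w hw), fun _ => rfl⟩

variable {C'}

theorem ltr_pl2 {φ : F →* F} {Φ : F ⧸ C' →* F ⧸ C'} (hΦ : ∀ w : F, Φ (QuotientGroup.mk w) = QuotientGroup.mk (pls φ w))
    (f : F) (s t : Bool) : ltr (QuotientGroup.mk (E4.x 0)) 0 1 (gq C') (pl2 φ f) s t =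
      Φ (ltr (QuotientGroup.mk (E4.x 0)) 0 1 (gq C') f s t) := by
  have hx : Φ (QuotientGroup.mk (E4.x 0)) = QuotientGroup.mk (E4.x 0) := by rw [hΦ, pls_zero]
  obtain ⟨A, hA⟩ : ∃ A : F →* F ⧸ C', ∀ f, A f = ltr (QuotientGroup.mk (E4.x 0)) 0 1 (gq C') f s t :=
    ⟨(Pi.evalMonoidHom (fun _ : Bool => F ⧸ C') t).comp
      ((Pi.evalMonoidHom (fun _ : Bool => Bool → F ⧸ C') s).comp (ltr (QuotientGroup.mk (E4.x 0)) 0 1 (gq C'))), fun f => rfl⟩
  rw [← hA, ← hA]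
  have e : A.comp (pl2 φ) = Φ.comp A := by
    refine FreeGroup.ext_hom _ _ fun i => ?_
    show A (pl2 φ (E4.x i)) = Φ (A (E4.x i))
    rcases Nat.lt_or_ge i 2 with h | h
    · have h2 : i = 0 ∨ i = 1 := by omega
      rcases h2 with h2 | h2
      · subst h2
        rw [pl2_zero, hA, ltr_x, if_pos rfl]
        show c1 _ s t = Φ (c1 _ s t)
        unfold c1
        cases s
        · exact (map_one Φ).symm
        · exact hx.symm
      · subst h2
        rw [pl2_one, hA, ltr_x, if_neg (by omega), if_pos rfl]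
        show c2 _ s t = Φ (c2 _ s t)
        unfold c2
        cases t
        · exact (map_one Φ).symm
        · exact hx.symm
    · obtain ⟨j, rfl⟩ : ∃ j, i = j + 2 := ⟨i - 2, by omega⟩
      rw [pl2_succ, hA, hA, ltr_free _ _ (fr_sh2 _), ltr_x, if_neg (by omega), if_neg (by omega)]
      show ev0 0 1 (gq C') (sh2 (φ (E4.x j))) = Φ (gq C' (j + 2))
      rw [ev0_sh2]
      show _ = Φ (QuotientGroup.mk (E4.x (j + 1)))
      rw [hΦ, pls_succ]
  exact congrArg (fun φ : F →* F ⧸ C' => φ f) e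

variable {D3 : Subgroup (F ⧸ C')} {L : FB → F ⧸ C'}

/-- **naturality** -/
theorem IsL.nat {φ : F →* F} {Φ : F ⧸ C' →* F ⧸ C'} (hΦ : ∀ w : F, Φ (QuotientGroup.mk w) = QuotientGroup.mk (pls φ w))
    (h : IsL D3 (QuotientGroup.mk (E4.x 0)) 0 1 (gq C') (cst (QuotientGroup.mk (E4.x 0))) L) (r : FB) :
    L (eB (pl2 φ) r) = Φ (L r) := by
  have hx : Φ (QuotientGroup.mk (E4.x 0)) = QuotientGroup.mk (E4.x 0) := by rw [hΦ, pls_zero]
  refine fb_ind (p := fun r => L (eB (pl2 φ) r) = Φ (L r)) (fun f => ?_) (by rw [map_zero, h.zero, map_one])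
    (fun a b ha hb => by rw [map_add, h.add, h.add, map_mul, ha, hb]) r
  rw [eB_o, h.val, h.val]
  refine Dl_map fun s t => ?_
  show ltr (QuotientGroup.mk (E4.x 0)) 0 1 (gq C') (pl2 φ f) s t * QuotientGroup.mk (E4.x 0) *
    (ltr (QuotientGroup.mk (E4.x 0)) 0 1 (gq C') (pl2 φ f) s t)⁻¹ =
    Φ (ltr (QuotientGroup.mk (E4.x 0)) 0 1 (gq C') f s t * QuotientGroup.mk (E4.x 0) *
      (ltr (QuotientGroup.mk (E4.x 0)) 0 1 (gq C') f s t)⁻¹)
  rw [ltr_pl2 hΦ, map_mul, map_mul, map_inv, hx]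

end

end E4.YC
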