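import Pool.Agent.Lib.MP_8a95e3_al.YC7

/-!
# YC8 : existence of `Lam`
-/

noncomputable section

namespace E4.YC

open E4 E4.X E4.N E4.RA
open scoped commutatorElement

section
universe u
variable {G : Type u} [Group G] {N D2 D3 : Subgroup G}

/-- commutators of elements of `N` have square one -/
theorem cc_sq (T : Trip N D2 D3) {a b : G} (ha : a ∈ N) (hb : b ∈ N) : cc a b * cc a b = 1 := by
  obtain ⟨c, hc⟩ : ∃ c, c = cc a b := ⟨_, rfl⟩
  have hcD : c ∈ D2 := by rw [hc]; exact T.c2 a ha b hb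
  obtain ⟨d, hd⟩ : ∃ d, d = b * c * b⁻¹ * c⁻¹ := ⟨_, rfl⟩
  obtain ⟨p, hp⟩ : ∃ p, p = a * c * a⁻¹ * c⁻¹ := ⟨_, rfl⟩
  have hd3 : d ∈ D3 := by rw [hd]; exact T.c3 b hb c hcD
  have hp3 : p ∈ D3 := by rw [hp]; exact T.c3 a ha c hcD
  have hdd : d * d = 1 := T.sq d hd3
  have hpp : p * p = 1 := T.sq p hp3
  have hda : a * d = d * a := T.ce a ha d hd3
  have hdb : b * d = d * b := T.ce b hb d hd3
  have hpa : a * p = p * a := T.ce a ha p hp3
  have hpb : b * p = p * b := T.ce b hb p hp3
  have hdc : c * d = d * c := T.ce c (T.h21 hcD) d hd3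
  have hpc : c * p = p * c := T.ce c (T.h21 hcD) p hp3
  have hbc : b * c = d * c * b := by rw [hd]; group
  have hac : a * c = p * c * a := by rw [hp]; group
  have hab : a * b = c * b * a := by rw [hc]; unfold cc; group
  have hc4 : c * c * (c * c) = 1 := by
    have h := T.four c
    rw [pow_succ, pow_succ, pow_two] at h
    rw [← h]
    group
  have ha4 : a * a * (a * a) = 1 := by
    have h := T.four a
    rw [pow_succ, pow_succ, pow_two] at h
    rw [← h]
    group
  have hb4 : b * b * (b * b) = 1 := by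
    have h := T.four b
    rw [pow_succ, pow_succ, pow_two] at h
    rw [← h]
    group
  have hbbc : b * b * c = c * (b * b) := by
    calc b * b * c = b * (b * c) := by group
      _ = b * (d * c * b) := by rw [hbc]
      _ = (b * d) * c * b := by group
      _ = d * (b * c) * b := by rw [hdb]; group
      _ = d * (d * c * b) * b := by rw [hbc]
      _ = d * d * c * (b * b) := by group
      _ = c * (b * b) := by rw [hdd, one_mul]
  have haac : a * a * c = c * (a * a) := by
    calc a * a * c = a * (a * c) := by group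
      _ = a * (p * c * a) := by rw [hac]
      _ = (a * p) * c * a := by group
      _ = p * (a * c) * a := by rw [hpa]; group
      _ = p * (p * c * a) * a := by rw [hac]
      _ = p * p * c * (a * a) := by group
      _ = c * (a * a) := by rw [hpp, one_mul]
  have haab : a * a * b = p * (c * c) * b * (a * a) := by
    calc a * a * b = a * (a * b) := by group
      _ = a * (c * b * a) := by rw [hab]
      _ = (a * c) * (b * a) := by group
      _ = p * c * a * (b * a) := by rw [hac]
      _ = p * c * (a * b) * a := by group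
      _ = p * c * (c * b * a) * a := by rw [hab]
      _ = p * (c * c) * b * (a * a) := by group
  have hbcc : b * (c * c) = c * c * b := by
    calc b * (c * c) = (b * c) * c := by group
      _ = d * c * b * c := by rw [hbc]
      _ = d * c * (b * c) := by group
      _ = d * c * (d * c * b) := by rw [hbc]
      _ = d * (c * d) * c * b := by group
      _ = d * (d * c) * c * b := by rw [hdc]
      _ = d * d * (c * c) * b := by group
      _ = c * c * b := by rw [hdd, one_mul]
  have haabb : a * a * (b * b) = b * b * (a * a) := by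
    calc a * a * (b * b) = (a * a * b) * b := by group
      _ = p * (c * c) * b * (a * a) * b := by rw [haab]
      _ = p * (c * c) * b * (a * a * b) := by group
      _ = p * (c * c) * b * (p * (c * c) * b * (a * a)) := by rw [haab]
      _ = p * (c * c) * (b * p) * (c * c) * b * (a * a) := by group
      _ = p * (c * c) * (p * b) * (c * c) * b * (a * a) := by rw [hpb]
      _ = p * c * (c * p) * (b * (c * c)) * b * (a * a) := by group
      _ = p * c * (p * c) * (c * c * b) * b * (a * a) := by rw [hpc, hbcc]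
      _ = p * (c * p) * (c * (c * c)) * (b * b) * (a * a) := by group
      _ = p * (p * c) * (c * (c * c)) * (b * b) * (a * a) := by rw [hpc]
      _ = p * p * (c * c * (c * c)) * (b * b) * (a * a) := by group
      _ = b * b * (a * a) := by rw [hpp, hc4]; group
  have hba2 : b * a * (b * a) = d * c * (b * b * (a * a)) := by
    calc b * a * (b * a) = b * (a * b) * a := by group
      _ = b * (c * b * a) * a := by rw [hab]
      _ = (b * c) * (b * a * a) := by group
      _ = d * c * b * (b * a * a) := by rw [hbc]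
      _ = d * c * (b * b * (a * a)) := by group
  have hq4 : b * b * (a * a) * (b * b * (a * a)) = 1 := by
    calc b * b * (a * a) * (b * b * (a * a)) = b * b * (a * a * (b * b)) * (a * a) := by group
      _ = b * b * (b * b * (a * a)) * (a * a) := by rw [haabb]
      _ = (b * b * (b * b)) * (a * a * (a * a)) := by group
      _ = 1 := by rw [ha4, hb4, one_mul]
  have hqc : b * b * (a * a) * (d * c) = d * c * (b * b * (a * a)) := by
    have h1 : a * a * d = d * (a * a) := by
      calc a * a * d = a * (a * d) := by group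
        _ = a * (d * a) := by rw [hda]
        _ = (a * d) * a := by group
        _ = (d * a) * a := by rw [hda]
        _ = d * (a * a) := by group
    have h2 : b * b * d = d * (b * b) := by
      calc b * b * d = b * (b * d) := by group
        _ = b * (d * b) := by rw [hdb]
        _ = (b * d) * b := by group
        _ = (d * b) * b := by rw [hdb]
        _ = d * (b * b) := by group
    calc b * b * (a * a) * (d * c) = b * b * (a * a * d) * c := by group
      _ = b * b * (d * (a * a)) * c := by rw [h1]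
      _ = (b * b * d) * (a * a * c) := by group
      _ = d * (b * b) * (c * (a * a)) := by rw [h2, haac]
      _ = d * (b * b * c) * (a * a) := by group
      _ = d * (c * (b * b)) * (a * a) := by rw [hbbc]
      _ = d * c * (b * b * (a * a)) := by group
  have h4 : (b * a) ^ 4 = b * a * (b * a) * (b * a * (b * a)) := by
    rw [pow_succ, pow_succ, pow_two]
    group
  rw [T.four, hba2] at h4
  have h5 : d * c * (b * b * (a * a)) * (d * c * (b * b * (a * a))) = c * c := by
    calc d * c * (b * b * (a * a)) * (d * c * (b * b * (a * a))) =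
        d * c * (b * b * (a * a) * (d * c)) * (b * b * (a * a)) := by group
      _ = d * c * (d * c * (b * b * (a * a))) * (b * b * (a * a)) := by rw [hqc]
      _ = d * (c * d) * c * (b * b * (a * a) * (b * b * (a * a))) := by group
      _ = d * (d * c) * c * 1 := by rw [hdc, hq4]
      _ = d * d * (c * c) := by group
      _ = c * c := by rw [hdd, one_mul]
  rw [h5] at h4
  rw [← hc]
  exact h4.symm

/-- `[a,[a,x]] = [x,a²]` -/
theorem ph_sq (T : Trip N D2 D3) {a x : G} (ha : a ∈ N) (hx : x ∈ N) : ph a x = ⁅x, a ^ 2⁆ := by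
  have h1 := cc_sq T ha hx
  have h2 := T.sq _ (ph_mem T ha hx)
  have h3 : ⁅a ^ 2, x⁆ = ph a x := by
    have e : ⁅a ^ 2, x⁆ = ph a x * (cc a x * cc a x) := by
      rw [commutatorElement_def, pow_two]
      unfold ph cc
      group
    rw [e, h1, mul_one]
  rw [← commutatorElement_inv, h3]
  exact (inv_eq_of_mul_eq_one_left h2).symm

theorem lcs_map {H : Type*} [Group H] (f : G →* H) (K : Subgroup G) (n : ℕ) : (lcs K n).map f = lcs (K.map f) n := by
  induction n with
  | zero => rfl
  | succ n ih =>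
    show (⁅lcs K n, K⁆ : Subgroup G).map f = ⁅lcs (K.map f) n, K.map f⁆
    rw [Subgroup.map_commutator, ih]

end

section
variable {C' : Subgroup F}

/-- **The map `Lam`.** -/
theorem exists_Lam (hn : C'.Normal) (hst : StP C') (h4 : ∀ w : F, w ^ 4 ∈ C')
    (h3 : lcs (Subgroup.normalClosure {E4.x 0}) 3 ≤ C') (hJ : JTS (F ⧸ C')) :
    ∃ Lam : FB → F ⧸ C', (∀ f g, Lam (f + g) = Lam f * Lam g) ∧
      (∀ (φ : F →* F) (f : FB) (w : F), Lam f = QuotientGroup.mk w → Lam (eB (pl2 φ) f) = QuotientGroup.mk (pls φ w)) ∧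
      (∀ r ∈ E4.RA.W3, Lam r = 1) ∧
      (∀ u v w : F, Lam (o (sh2 u) * Xl 0 * o (sh2 v) * Xl 1 * o (sh2 w)) =
        QuotientGroup.mk (sh u * ⁅E4.x 0, sh v * ⁅E4.x 0, sh w * E4.x 0 * (sh w)⁻¹⁆ * (sh v)⁻¹⁆ * (sh u)⁻¹)) ∧
      (∀ u v : F, Lam (o (sh2 u) * Xl 0 * o (sh2 v) * Xl 1) = 1) ∧
      (∀ u v : F, Lam (o (sh2 u) * o (sh2 v) * Xl 0 * Xl 1 * o (sh2 v)⁻¹) =
        QuotientGroup.mk (sh u * ⁅E4.x 0, sh v * E4.x 0 ^ 2 * (sh v)⁻¹⁆ * (sh u)⁻¹)) := by
  obtain ⟨π, hπ⟩ : ∃ π : F →* F ⧸ C', π = QuotientGroup.mk' C' := ⟨_, rfl⟩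
  have hmk : ∀ w : F, (QuotientGroup.mk w : F ⧸ C') = π w := fun w => by rw [hπ]; rfl
  have hq4 : ∀ g : F ⧸ C', g ^ 4 = 1 := by
    intro g
    obtain ⟨w, rfl⟩ := QuotientGroup.mk_surjective g
    rw [← QuotientGroup.mk_pow, QuotientGroup.eq_one_iff]
    exact h4 w
  have hsur : Function.Surjective π := by
    rw [hπ]
    exact QuotientGroup.mk'_surjective C'
  obtain ⟨N, hN⟩ : ∃ N : Subgroup (F ⧸ C'), N = (Subgroup.normalClosure {E4.x 0}).map π := ⟨_, rfl⟩
  have hNn : N.Normal := by
    rw [hN]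
    exact Subgroup.Normal.map Subgroup.normalClosure_normal π hsur
  have hN3 : lcs N 3 = ⊥ := by
    rw [hN, ← lcs_map, Subgroup.map_eq_bot_iff, hπ, QuotientGroup.ker_mk']
    exact h3
  have T := trip_of hq4 N hN3
  have hx : (QuotientGroup.mk (E4.x 0) : F ⧸ C') ∈ N := by
    rw [hN, hmk]
    exact Subgroup.mem_map_of_mem π (Subgroup.subset_normalClosure (Set.mem_singleton _))
  have h01 : (0 : ℕ) ≠ 1 := by omega
  have hcst := (cst_inC T hx).1
  obtain ⟨L, hL⟩ := exists_isL T hx 0 1 (gq C') hcst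
  refine ⟨L, hL.add, ?_, ?_, ?_, ?_, ?_⟩
  · intro φ f w hw
    obtain ⟨Φ, hΦ⟩ := exists_pq C' hst φ
    rw [hL.nat hΦ, hw, hΦ]
  · intro r hr
    obtain ⟨a, ha, k, hk, rfl⟩ := AddSubgroup.mem_sup.1 hr
    obtain ⟨s, hs, t, ht, rfl⟩ := AddSubgroup.mem_sup.1 ha
    rw [hL.add, hL.add, hL.kill T hx h01 hcst hk, mul_one]
    have e1 : L s = 1 := by
      refine hL.closure ?_ hs
      rintro _ ⟨b, _, rfl⟩
      rw [hL.add, hL.sym T hx h01 hcst rfl, hL.neg T]
    have e2 : L t = 1 := by
      refine hL.closure ?_ ht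
      rintro _ ⟨c, u, g, rfl⟩
      exact hL.C_tau T hJ hx h01 (fr_sh2 _) (fr_sh2 _) (fr_sh2 _)
    rw [e1, e2, one_mul]
  · intro u v w
    rw [hL.val_yz T hx hx h01 (fr_sh2 _) (fr_sh2 _) (fr_sh2 _), ev0_sh2, ev0_sh2, ev0_sh2]
    simp only [hmk, commutatorElement_def, map_mul, map_inv]
    rfl
  · intro u v
    exact hL.right_z T hx h01 _
  · intro u v
    have e1 : o (sh2 u) * o (sh2 v) * Xl 0 * Xl 1 * o (sh2 v)⁻¹ =
        o (sh2 (u * v)) * Xl 0 * o (sh2 1) * Xl 1 * o (sh2 v⁻¹) := by
      rw [map_mul sh2, map_mul o, map_one sh2, map_one o, mul_one, map_inv sh2]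
    have hfr : Fr 0 1 (1 : F) := ⟨map_one _, map_one _⟩
    rw [e1, hL.val_yz T hx hx h01 (fr_sh2 _) (fr_sh2 _) (fr_sh2 _), ev0_sh2, ev0_sh2, ev0_sh2]
    obtain ⟨X, hX⟩ : ∃ X : F ⧸ C', X = QuotientGroup.mk (E4.x 0) := ⟨_, rfl⟩
    obtain ⟨U, hU⟩ : ∃ U : F ⧸ C', U = QuotientGroup.mk (sh u) := ⟨_, rfl⟩
    obtain ⟨V, hV⟩ : ∃ V : F ⧸ C', V = QuotientGroup.mk (sh v) := ⟨_, rfl⟩
    have e2 : (QuotientGroup.mk (sh (u * v)) : F ⧸ C') = U * V := by rw [hmk, map_mul, map_mul, hU, hV, hmk, hmk]
    have e3 : (QuotientGroup.mk (sh 1) : F ⧸ C') = 1 := by rw [hmk, map_one, map_one]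
    have e4 : (QuotientGroup.mk (sh v⁻¹) : F ⧸ C') = V⁻¹ := by rw [hmk, map_inv, map_inv, hV, hmk]
    have e5 : (QuotientGroup.mk (sh u * ⁅E4.x 0, sh v * E4.x 0 ^ 2 * (sh v)⁻¹⁆ * (sh u)⁻¹) : F ⧸ C') =
        U * ⁅X, V * X ^ 2 * V⁻¹⁆ * U⁻¹ := by
      simp only [hmk, commutatorElement_def, map_mul, map_inv, map_pow, hU, hV, hX]
    rw [e2, e3, e4, e5, ← hX]
    have hXN : X ∈ N := by rw [hX]; exact hx
    have hVN : V * X * V⁻¹ ∈ N := hNn.conj_mem _ hXN _
    have e6 : cj (U * V) (cc X (cj 1 (cc X (cj V⁻¹ X)))) = U * ph (V * X * V⁻¹) X * U⁻¹ := by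
      unfold ph cj cc
      group
    rw [e6, ph_sq T hVN hXN]
    congr 3
    rw [pow_two, pow_two]
    group

end

end E4.YC
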