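import Mathlib

/-!
# YE1 : the bilinear calculus of Lemma E (left form)
-/

namespace E4.YE

variable {G R M : Type*} [Group G] [Ring R] [AddCommGroup M] [Module (ZMod 2) M]

/-- the data of Lemma E : a bilinear form on the group ring with values in an elementary abelian group -/
structure EDat (ι : G →* R) (act : G → M →+ M) (c : R →+ R →+ M) : Prop where
  span : ∀ r : R, r ∈ AddSubgroup.closure (Set.range ι)
  two : ∀ r : R, r + r = 0
  exp4 : ∀ g : G, g * g * (g * g) = 1
  act_mul : ∀ g h m, act (g * h) m = act g (act h m)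
  sq : ∀ g m, act (g * g) m = m
  eqv : ∀ g a b, c (ι g * a) (ι g * b) = act g (c a b)
  symm : ∀ a b, c a b = c b a
  alt : ∀ a, c a a = 0
  jt : ∀ g a b, c ((1 + ι g) * a) ((1 + ι g) * b) = 0
  cub : ∀ g r a b, c (r * ((1 + ι g) * ((1 + ι g) * ((1 + ι g) * a)))) b = 0
  e3 : ∀ g, c (ι (g * g)) 1 = 0

/-- the augmentation ideal -/
def Dl (ι : G →* R) : AddSubgroup R := AddSubgroup.closure (Set.range fun g => 1 + ι g)

variable {ι : G →* R} {act : G → M →+ M} {c : R →+ R →+ M}

theorem dl_gen (ι : G →* R) (g : G) : 1 + ι g ∈ Dl ι := AddSubgroup.subset_closure ⟨g, rfl⟩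

/-- the decomposition of the difference of a product -/
theorem zdec (h2 : ∀ r : R, r + r = 0) (g h : G) :
    1 + ι (g * h) = (1 + ι g) + (1 + ι h) + (1 + ι g) * (1 + ι h) := by
  have e : (1 + ι g) + (1 + ι h) + (1 + ι g) * (1 + ι h) = (1 + ι (g * h)) + ((1 + ι g + ι h) + (1 + ι g + ι h)) := by
    rw [map_mul]
    noncomm_ring
  rw [e, h2, add_zero]

theorem sqdec (h2 : ∀ r : R, r + r = 0) (g : G) : 1 + ι (g * g) = (1 + ι g) * (1 + ι g) := by
  have e : (1 + ι g) * (1 + ι g) = (1 + ι (g * g)) + (ι g + ι g) := by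
    rw [map_mul]
    noncomm_ring
  rw [e, h2, add_zero]

namespace EDat

variable (E : EDat ι act c)
include E

theorem dl_mul (r : R) {p : R} (hp : p ∈ Dl ι) : r * p ∈ Dl ι := by
  unfold Dl at hp
  induction hp using AddSubgroup.closure_induction with
  | mem y hy =>
    obtain ⟨g, rfl⟩ := hy
    have hr := E.span r
    induction hr using AddSubgroup.closure_induction with
    | mem y hy =>
      obtain ⟨h, rfl⟩ := hy
      have e : ι h * (1 + ι g) = (1 + ι h) + (1 + ι (h * g)) + ((-1) + (-1)) := by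
        rw [map_mul]
        noncomm_ring
      show ι h * (1 + ι g) ∈ Dl ι
      rw [e, E.two, add_zero]
      exact (Dl ι).add_mem (dl_gen ι h) (dl_gen ι (h * g))
    | zero =>
      show 0 * (1 + ι g) ∈ Dl ι
      rw [zero_mul]
      exact (Dl ι).zero_mem
    | add a b _ _ ha hb =>
      show (a + b) * (1 + ι g) ∈ Dl ι
      rw [add_mul]
      exact (Dl ι).add_mem ha hb
    | neg a _ ha =>
      show (-a) * (1 + ι g) ∈ Dl ι
      rw [neg_mul]
      exact (Dl ι).neg_mem ha
  | zero =>
    rw [mul_zero]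
    exact (Dl ι).zero_mem
  | add a b _ _ ha hb =>
    rw [mul_add]
    exact (Dl ι).add_mem ha hb
  | neg a _ ha =>
    rw [mul_neg]
    exact (Dl ι).neg_mem ha

theorem dl_mul' (r : R) {p : R} (hp : p ∈ Dl ι) : p * r ∈ Dl ι := by
  unfold Dl at hp
  induction hp using AddSubgroup.closure_induction with
  | mem y hy =>
    obtain ⟨g, rfl⟩ := hy
    have hr := E.span r
    induction hr using AddSubgroup.closure_induction with
    | mem y hy =>
      obtain ⟨h, rfl⟩ := hy
      have e : (1 + ι g) * ι h = (1 + ι h) + (1 + ι (g * h)) + ((-1) + (-1)) := by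
        rw [map_mul]
        noncomm_ring
      show (1 + ι g) * ι h ∈ Dl ι
      rw [e, E.two, add_zero]
      exact (Dl ι).add_mem (dl_gen ι h) (dl_gen ι (g * h))
    | zero =>
      show (1 + ι g) * 0 ∈ Dl ι
      rw [mul_zero]
      exact (Dl ι).zero_mem
    | add a b _ _ ha hb =>
      show (1 + ι g) * (a + b) ∈ Dl ι
      rw [mul_add]
      exact (Dl ι).add_mem ha hb
    | neg a _ ha =>
      show (1 + ι g) * (-a) ∈ Dl ι
      rw [mul_neg]
      exact (Dl ι).neg_mem ha
  | zero =>
    rw [zero_mul]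
    exact (Dl ι).zero_mem
  | add a b _ _ ha hb =>
    rw [add_mul]
    exact (Dl ι).add_mem ha hb
  | neg a _ ha =>
    rw [neg_mul]
    exact (Dl ι).neg_mem ha

/-- the action of a group element is a derivation up to the identity -/
theorem der (g : G) (a b : R) : act g (c a b) + c a b = c ((1 + ι g) * a) b + c a ((1 + ι g) * b) := by
  have h := E.jt g a b
  simp only [add_mul, one_mul, map_add, AddMonoidHom.add_apply, E.eqv] at h ⊢
  linear_combination (norm := (match_scalars <;> decide)) (1:ZMod 2) • h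

/-- (MIX) for the generators -/
theorem mix_gen (g h : G) (a b : R) : c ((1 + ι g) * a) ((1 + ι h) * b) = c ((1 + ι h) * a) ((1 + ι g) * b) := by
  have e1 := E.der (g * h) a b
  have e2 := E.der g a b
  have e3 := E.der h a b
  have e4 := congrArg (act g) e3
  have e5 := E.der g ((1 + ι h) * a) b
  have e6 := E.der g a ((1 + ι h) * b)
  rw [zdec E.two, E.act_mul] at e1
  simp only [add_mul, mul_assoc, one_mul, mul_add, map_add, AddMonoidHom.add_apply] at e1 e2 e3 e4 e5 e6 ⊢
  linear_combination (norm := (match_scalars <;> decide)) (1:ZMod 2) • (e1 + e2 + e4 + e5 + e6)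

/-- **(MIX)** -/
theorem mix {p q : R} (hp : p ∈ Dl ι) (hq : q ∈ Dl ι) (a b : R) : c (p * a) (q * b) = c (q * a) (p * b) := by
  unfold Dl at hp hq
  induction hp using AddSubgroup.closure_induction with
  | mem y hy =>
    obtain ⟨g, rfl⟩ := hy
    induction hq using AddSubgroup.closure_induction with
    | mem y hy =>
      obtain ⟨h, rfl⟩ := hy
      exact E.mix_gen g h a b
    | zero => rw [zero_mul, zero_mul, map_zero, map_zero]; rfl
    | add u v _ _ hu hv =>
      rw [add_mul u v b, add_mul u v a, map_add, map_add, AddMonoidHom.add_apply, hu, hv]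
    | neg u _ hu =>
      rw [neg_mul, neg_mul, map_neg, map_neg, AddMonoidHom.neg_apply, hu]
  | zero => rw [zero_mul, zero_mul, map_zero, map_zero]; rfl
  | add u v _ _ hu hv =>
    rw [add_mul, add_mul, map_add, map_add, AddMonoidHom.add_apply, hu, hv]
  | neg u _ hu =>
    rw [neg_mul, neg_mul, map_neg, map_neg, AddMonoidHom.neg_apply, hu]

/-- **(SYM)** : the inner factors commute -/
theorem sym {z w : R} (hz : z ∈ Dl ι) (hw : w ∈ Dl ι) (x y a b : R) :
    c (z * (x * (y * a))) (w * b) = c (z * (y * (x * a))) (w * b) := by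
  have e1 : c (z * (x * (y * a))) (w * b) = c (w * (y * a)) (z * x * b) := by
    have h := E.mix (E.dl_mul' x hz) hw (y * a) b
    rwa [mul_assoc] at h
  have e2 : c (w * (y * a)) (z * x * b) = c (z * x * a) (w * y * b) := by
    have h := E.mix (E.dl_mul' y hw) (E.dl_mul' x hz) a b
    rwa [mul_assoc] at h
  have e3 : c (z * x * a) (w * y * b) = c (w * y * (x * a)) (z * b) := by
    have h := E.mix hz (E.dl_mul' y hw) (x * a) b
    rwa [← mul_assoc z x a] at h
  have e4 : c (w * y * (x * a)) (z * b) = c (z * (y * (x * a))) (w * b) := by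
    have h := E.mix hw hz (y * (x * a)) b
    rwa [← mul_assoc w y] at h
  rw [e1, e2, e3, e4]

theorem sym1 {z w : R} (hz : z ∈ Dl ι) (hw : w ∈ Dl ι) (p x y a b : R) :
    c (z * (p * (x * (y * a)))) (w * b) = c (z * (p * (y * (x * a)))) (w * b) := by
  have h := E.sym (E.dl_mul' p hz) hw x y a b
  rwa [mul_assoc, mul_assoc] at h

theorem sym2 {z w : R} (hz : z ∈ Dl ι) (hw : w ∈ Dl ι) (p q x y a b : R) :
    c (z * (p * (q * (x * (y * a))))) (w * b) = c (z * (p * (q * (y * (x * a))))) (w * b) := by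
  have h := E.sym1 (E.dl_mul' p hz) hw q x y a b
  rwa [mul_assoc, mul_assoc] at h

theorem sym3 {z w : R} (hz : z ∈ Dl ι) (hw : w ∈ Dl ι) (p q r x y a b : R) :
    c (z * (p * (q * (r * (x * (y * a)))))) (w * b) = c (z * (p * (q * (r * (y * (x * a)))))) (w * b) := by
  have h := E.sym2 (E.dl_mul' p hz) hw q r x y a b
  rwa [mul_assoc, mul_assoc] at h

end EDat

/-- the elements of the form `1 + g` -/
def Sp (ι : G →* R) (x : R) : Prop := ∃ g, x = 1 + ι g

namespace EDat

variable (E : EDat ι act c)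
include E

omit E in
theorem sp_dl {x : R} (h : Sp ι x) : x ∈ Dl ι := by
  obtain ⟨g, rfl⟩ := h
  exact dl_gen ι g

theorem sp_add {x y : R} (hx : Sp ι x) (hy : Sp ι y) : Sp ι (x + y + x * y) := by
  obtain ⟨g, rfl⟩ := hx
  obtain ⟨h, rfl⟩ := hy
  exact ⟨g * h, (zdec E.two g h).symm⟩

theorem sp_sq {x : R} (hx : Sp ι x) : Sp ι (x * x) := by
  obtain ⟨g, rfl⟩ := hx
  exact ⟨g * g, (sqdec E.two g).symm⟩

theorem k0 {x : R} (hx : Sp ι x) (a b : R) : c (x * (x * (x * a))) b = 0 := by
  obtain ⟨g, rfl⟩ := hx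
  have h := E.cub g 1 a b
  rwa [one_mul] at h

theorem k1 {x : R} (hx : Sp ι x) (p a b : R) : c (p * (x * (x * (x * a)))) b = 0 := by
  obtain ⟨g, rfl⟩ := hx
  exact E.cub g p a b

theorem k2 {x : R} (hx : Sp ι x) (p q a b : R) : c (p * (q * (x * (x * (x * a))))) b = 0 := by
  rw [← mul_assoc]
  exact E.k1 hx (p * q) a b

theorem k3 {x : R} (hx : Sp ι x) (p q r a b : R) : c (p * (q * (r * (x * (x * (x * a)))))) b = 0 := by
  rw [← mul_assoc]
  exact E.k2 hx (p * q) r a b

theorem kk {x y w : R} (hy : Sp ι y) (hw : w ∈ Dl ι) (a b : R) : c (y * (x * (y * (y * a)))) (w * b) = 0 := by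
  rw [E.sym (sp_dl hy) hw, E.sym1 (sp_dl hy) hw, E.k0 hy]

theorem kk2 {x y w : R} (hy : Sp ι y) (hw : w ∈ Dl ι) (a b : R) :
    c (y * (x * (x * (y * (y * a))))) (w * b) = 0 := by
  rw [E.sym1 (sp_dl hy) hw, E.sym (sp_dl hy) hw, E.sym2 (sp_dl hy) hw, E.sym1 (sp_dl hy) hw, E.k0 hy]

/-- **(CUB)** -/
theorem cubl {x y w : R} (hx : Sp ι x) (hy : Sp ι y) (hw : w ∈ Dl ι) (a b : R) :
    c (y * (x * (x * a))) (w * b) = c (x * (y * (y * a))) (w * b) := by
  have e := E.k0 (E.sp_add hx hy) a (w * b)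
  have sx := E.sym (sp_dl hx) hw y x
  have sy := E.sym (sp_dl hy) hw y x
  have sx1 := fun p => E.sym1 (sp_dl hx) hw p y x
  have sy1 := fun p => E.sym1 (sp_dl hy) hw p y x
  have sx2 := fun p q => E.sym2 (sp_dl hx) hw p q y x
  have sy2 := fun p q => E.sym2 (sp_dl hy) hw p q y x
  have sx3 := fun p q r => E.sym3 (sp_dl hx) hw p q r y x
  have sy3 := fun p q r => E.sym3 (sp_dl hy) hw p q r y x
  simp only [add_mul, mul_assoc, mul_add, map_add, AddMonoidHom.add_apply, sx, sy, sx1, sy1, sx2, sy2, sx3, sy3,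
    E.k0 hx, E.k1 hx, E.k2 hx, E.k3 hx, E.k0 hy, E.k1 hy, E.k2 hy, E.k3 hy, E.kk hy hw, E.kk2 hy hw] at e
  linear_combination (norm := (match_scalars <;> decide)) (1:ZMod 2) • e

theorem pol {x x' y w : R} (hx : Sp ι x) (hx' : Sp ι x') (hy : Sp ι y) (hw : w ∈ Dl ι) (a b : R) :
    c (y * (x * (x * (x' * (x' * a))))) (w * b) = c (x * (x' * (y * (y * a)))) (w * b) := by
  have e := E.cubl (E.sp_add hx hx') hy hw a b
  have e1 := E.cubl hx hy hw a b
  have e2 := E.cubl hx' hy hw a b
  have sy := E.sym (sp_dl hy) hw x' x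
  have sy1 := fun p => E.sym1 (sp_dl hy) hw p x' x
  simp only [add_mul, mul_assoc, mul_add, map_add, AddMonoidHom.add_apply, sy, sy1] at e
  linear_combination (norm := (match_scalars <;> decide)) (1:ZMod 2) • (e + e1 + e2)

/-- **(ZZ)** -/
theorem zz {x y w : R} (hx : Sp ι x) (hy : Sp ι y) (hw : w ∈ Dl ι) (a b : R) :
    c (x * (x * (y * (y * a)))) (w * b) = 0 := by
  rw [← E.pol hx hx hy hw, E.k1 hx]

/-! the operators `1 + g` on the values -/

omit E in
/-- the operator `1 + g` -/
theorem ad_def (g : G) (m : M) : (act g + AddMonoidHom.id M) m = act g m + m := rfl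

theorem act_comm (g h : G) (m : M) : act g (act h m) = act h (act g m) := by
  have e1 := E.sq (g * h) m
  rw [E.act_mul, E.act_mul, E.act_mul] at e1
  have e2 := congrArg (act g) e1
  rw [← E.act_mul g g, E.sq] at e2
  have e3 := congrArg (act h) e2
  rwa [← E.act_mul h h, E.sq] at e3

theorem ad_sq (g : G) (m : M) : act g (act g m + m) + (act g m + m) = 0 := by
  rw [map_add, ← E.act_mul, E.sq]
  linear_combination (norm := (match_scalars <;> decide)) (0:ZMod 2) • (rfl : m = m)

theorem ad_comm (g h : G) (m : M) : act g (act h m + m) + (act h m + m) = act h (act g m + m) + (act g m + m) := by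
  rw [map_add, map_add, E.act_comm g h]
  abel

/-- (E3) : `1 + g` kills `c (1 + g) 1` -/
theorem e3a (g : G) : act g (c (1 + ι g) 1) + c (1 + ι g) 1 = 0 := by
  have h := E.der g (1 + ι g) 1
  have h3 := E.e3 g
  have h4 := E.alt 1
  have h5 : c (1 + ι (g * g)) 1 = 0 := by
    rw [map_add, AddMonoidHom.add_apply, h3, h4, add_zero]
  rw [mul_one, E.alt, add_zero, ← sqdec E.two, h5] at h
  exact h

/-- the first step of the transport -/
theorem tr0 (g : G) (x1 : R) : c ((1 + ι g) * x1) 1 = c (1 + ι g) x1 + (act g (c x1 1) + c x1 1) := by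
  have h := E.der g x1 1
  rw [mul_one] at h
  have h2 := E.symm x1 (1 + ι g)
  rw [h2] at h
  linear_combination (norm := (match_scalars <;> decide)) (1:ZMod 2) • h

/-- the inductive step of the transport -/
theorem tr1 (g : G) {p : R} (hp : p ∈ Dl ι) (x1 : R) (T : M) (h : c (p * x1) 1 = c p x1 + T) :
    c ((1 + ι g) * (p * x1)) 1 = c ((1 + ι g) * p) x1 + (act g T + T) := by
  have e1 := E.der g (p * x1) 1
  have e2 := E.der g p x1
  have e3 : c (p * x1) ((1 + ι g) * 1) = c ((1 + ι g) * x1) (p * 1) := E.mix hp (dl_gen ι g) x1 1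
  have e4 := E.symm ((1 + ι g) * x1) p
  rw [mul_one] at e1
  rw [mul_one, mul_one] at e3
  have e5 := congrArg (act g) h
  rw [map_add] at e5
  linear_combination (norm := (match_scalars <;> decide)) (1:ZMod 2) • (e1 + e2 + e3 + e4 + e5 + h)

/-- words whose transport is without correction -/
def Good (c : R →+ R →+ M) (m : R) : Prop := ∀ x1, c (m * x1) 1 = c m x1

theorem good_step (g : G) {p : R} (hp : p ∈ Dl ι) (h : Good c p) : Good c ((1 + ι g) * p) := by
  intro x1
  have h1 := E.tr1 g hp x1 0 (by rw [h x1, add_zero])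
  rw [map_zero, add_zero, add_zero, ← mul_assoc] at h1
  exact h1

/-- two letters -/
theorem tr2 (g h : G) (x1 : R) : c ((1 + ι g) * ((1 + ι h) * x1)) 1 = c ((1 + ι g) * (1 + ι h)) x1 +
    (act g (act h (c x1 1) + c x1 1) + (act h (c x1 1) + c x1 1)) :=
  E.tr1 g (dl_gen ι h) x1 _ (E.tr0 h x1)

theorem good_xx (g : G) : Good c ((1 + ι g) * (1 + ι g)) := by
  intro x1
  rw [mul_assoc, E.tr2, E.ad_sq, add_zero]

theorem good_xyx (g h : G) : Good c ((1 + ι g) * ((1 + ι h) * (1 + ι g))) := by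
  intro x1
  rw [mul_assoc, E.tr1 g (E.dl_mul' _ (dl_gen ι h)) x1 _ (by
    rw [mul_assoc]
    exact E.tr2 h g x1), E.ad_comm h g, E.ad_sq, add_zero]

theorem good_xxy (g h : G) : Good c ((1 + ι g) * ((1 + ι g) * (1 + ι h))) := by
  intro x1
  rw [mul_assoc, E.tr1 g (E.dl_mul' _ (dl_gen ι g)) x1 _ (by
    rw [mul_assoc]
    exact E.tr2 g h x1), E.ad_sq, add_zero]

/-! values of long words -/

theorem v_xxyx {x w : R} (hx : Sp ι x) (hw : w ∈ Dl ι) (y : R) : c (x * (x * (y * x))) w = 0 := by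
  have h := E.sym1 (sp_dl hx) hw x y x 1 1
  rw [E.k0 hx] at h
  simpa only [mul_one] using h

theorem v_yxyx {x y w : R} (hx : Sp ι x) (hy : Sp ι y) (hw : w ∈ Dl ι) : c (y * (x * (y * x))) w = 0 := by
  have h := E.sym (sp_dl hy) hw x y (x * 1) 1
  rw [E.zz hy hx hw] at h
  simpa only [mul_one] using h

theorem v_xyxx {x y w : R} (hx : Sp ι x) (hw : w ∈ Dl ι) : c (x * (y * (x * x))) w = 0 := by
  have h1 := E.sym (sp_dl hx) hw y x (x * 1) 1
  have h2 := E.sym1 (sp_dl hx) hw x y x 1 1
  rw [h2, E.k0 hx] at h1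
  simpa only [mul_one] using h1

theorem v_xyyx {x y w : R} (hx : Sp ι x) (hy : Sp ι y) (hw : w ∈ Dl ι) : c (x * (y * (y * x))) w = 0 := by
  have h1 := E.sym1 (sp_dl hx) hw y y x 1 1
  have h2 := E.sym (sp_dl hx) hw y x (y * 1) 1
  rw [h2, E.zz hx hy hw] at h1
  simpa only [mul_one] using h1

theorem v_xyxyx {x y w : R} (hx : Sp ι x) (hw : w ∈ Dl ι) : c (x * (y * (x * (y * x)))) w = 0 := by
  have h1 := E.sym (sp_dl hx) hw y x (y * (x * 1)) 1
  have h2 := E.sym2 (sp_dl hx) hw x y y x 1 1
  have h3 := E.sym1 (sp_dl hx) hw x y x (y * 1) 1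
  rw [h2, h3, E.k0 hx] at h1
  simpa only [mul_one] using h1

/-- **(K3)** -/
theorem kthree (g h : G) : c ((1 + ι g) * (1 + ι h)) (1 + ι g) = c ((1 + ι h) * (1 + ι g)) (1 + ι h) := by
  obtain ⟨x, hx⟩ : ∃ x, x = 1 + ι g := ⟨_, rfl⟩
  obtain ⟨y, hy⟩ : ∃ y, y = 1 + ι h := ⟨_, rfl⟩
  have sx : Sp ι x := ⟨g, hx⟩
  have sy : Sp ι y := ⟨h, hy⟩
  have dx := sp_dl sx
  have dy := sp_dl sy
  -- good words
  have stx : ∀ {p : R}, p ∈ Dl ι → Good c p → Good c (x * p) := fun hp hg => by rw [hx]; exact E.good_step g hp hg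
  have sty : ∀ {p : R}, p ∈ Dl ι → Good c p → Good c (y * p) := fun hp hg => by rw [hy]; exact E.good_step h hp hg
  have gxx : Good c (x * x) := by rw [hx]; exact E.good_xx g
  have gyy : Good c (y * y) := by rw [hy]; exact E.good_xx h
  have gxyx : Good c (x * (y * x)) := by rw [hx, hy]; exact E.good_xyx g h
  have gyxy : Good c (y * (x * y)) := by rw [hx, hy]; exact E.good_xyx h g
  have dxx := E.dl_mul x dx
  have dyy := E.dl_mul y dy
  have dxyx := E.dl_mul x (E.dl_mul y dx)
  have dyxy := E.dl_mul y (E.dl_mul x dy)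
  rw [← hx, ← hy]
  -- degree three
  have f1 : c (x * (x * y)) 1 = c (x * x) y := by rw [← mul_assoc]; exact gxx y
  have f2 : c (y * (y * x)) 1 = c (y * y) x := by rw [← mul_assoc]; exact gyy x
  have ax : act g (c x 1) + c x 1 = 0 := by rw [hx]; exact E.e3a g
  have ay : act h (c y 1) + c y 1 = 0 := by rw [hy]; exact E.e3a h
  have t2xy : ∀ x1, c (x * (y * x1)) 1 = c (x * y) x1 +
      (act g (act h (c x1 1) + c x1 1) + (act h (c x1 1) + c x1 1)) := fun x1 => by rw [hx, hy]; exact E.tr2 g h x1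
  have t2yx : ∀ x1, c (y * (x * x1)) 1 = c (y * x) x1 +
      (act h (act g (c x1 1) + c x1 1) + (act g (c x1 1) + c x1 1)) := fun x1 => by rw [hx, hy]; exact E.tr2 h g x1
  have f3 : c (x * (y * x)) 1 = c (x * y) x := by
    rw [t2xy, ← E.ad_comm h g, ax, map_zero, add_zero, add_zero]
  have f4 : c (y * (x * x)) 1 = c (y * x) x := by
    rw [t2yx, ax, map_zero, add_zero, add_zero]
  have f5 : c (x * (y * y)) 1 = c (x * y) y := by
    rw [t2xy, ay, map_zero, add_zero, add_zero]
  have f6 : c (y * (x * y)) 1 = c (y * x) y := by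
    rw [t2yx, ← E.ad_comm g h, ay, map_zero, add_zero, add_zero]
  -- degree four
  have gxxy : Good c (x * (x * y)) := by rw [hx, hy]; exact E.good_xxy g h
  have gyyx : Good c (y * (y * x)) := by rw [hx, hy]; exact E.good_xxy h g
  have gyxx : Good c (y * (x * x)) := sty dxx gxx
  have gxyy : Good c (x * (y * y)) := stx dyy gyy
  have w1 : c (y * (x * (x * y))) 1 = c (y * (x * x)) y := by have := gyxx y; simpa only [mul_assoc] using this
  have w2 : c (y * (y * (x * y))) 1 = c (y * (y * x)) y := by have := gyyx y; simpa only [mul_assoc] using this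
  have w3 : c (x * (x * (y * x))) 1 = c (x * (x * y)) x := by have := gxxy x; simpa only [mul_assoc] using this
  have w4 : c (x * (x * (y * y))) 1 = c (x * (x * y)) y := by have := gxxy y; simpa only [mul_assoc] using this
  have w5 : c (y * (x * (y * x))) 1 = c (y * (x * y)) x := by have := gyxy x; simpa only [mul_assoc] using this
  have w6 : c (y * (x * (y * y))) 1 = c (y * (x * y)) y := by have := gyxy y; simpa only [mul_assoc] using this
  have w7 : c (x * (y * (x * x))) 1 = c (x * (y * x)) x := by have := gxyx x; simpa only [mul_assoc] using this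
  have w8 : c (x * (y * (y * x))) 1 = c (x * (y * y)) x := by have := gxyy x; simpa only [mul_assoc] using this
  -- degree five and six
  have u1 : c (x * (x * (y * (x * y)))) 1 = 0 := by
    have := stx dxyx gxyx y
    rw [E.v_xxyx sx dy] at this
    simpa only [mul_assoc] using this
  have u2 : c (y * (x * (y * (x * y)))) 1 = 0 := by
    have := sty dxyx gxyx y
    rw [E.v_yxyx sx sy dy] at this
    simpa only [mul_assoc] using this
  have u3 : c (x * (y * (x * (x * y)))) 1 = 0 := by
    have := stx (E.dl_mul y dxx) gyxx y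
    rw [E.v_xyxx sx dy] at this
    simpa only [mul_assoc] using this
  have u4 : c (x * (y * (y * (x * y)))) 1 = 0 := by
    have := stx (E.dl_mul y (E.dl_mul y dx)) gyyx y
    rw [E.v_xyyx sx sy dy] at this
    simpa only [mul_assoc] using this
  have u5 : c (x * (y * (x * (y * x)))) 1 = 0 := by
    have := stx dyxy gyxy x
    rw [E.v_yxyx sy sx dx] at this
    simpa only [mul_assoc] using this
  have u6 : c (x * (y * (x * (y * y)))) 1 = 0 := by
    have := stx dyxy gyxy y
    rw [E.v_yxyx sy sx dy] at this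
    simpa only [mul_assoc] using this
  have u7 : c (x * (y * (x * (y * (x * y))))) 1 = 0 := by
    have := stx (E.dl_mul y dxyx) (sty dxyx gxyx) y
    rw [E.v_xyxyx sx dy] at this
    simpa only [mul_assoc] using this
  have k1 : c (x * (x * x)) 1 = 0 := by have := E.k0 sx 1 1; simpa only [mul_one] using this
  have k2 : c (y * (y * y)) 1 = 0 := by have := E.k0 sy 1 1; simpa only [mul_one] using this
  have k3 : c (x * (x * (x * y))) 1 = 0 := E.k0 sx y 1
  have k4 : c (x * (y * (y * y))) 1 = 0 := by have := E.k1 sy x 1 1; simpa only [mul_one] using this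
  -- relations
  have r1 : c (x * x) y = c (y * x) x := by have := E.mix dx dy x 1; simpa only [mul_one] using this
  have r2 : c (y * y) x = c (x * y) y := by have := E.mix dy dx y 1; simpa only [mul_one] using this
  have r3 : c (y * (x * y)) y = c (y * (y * x)) y := by have := E.sym dy dy x y 1 1; simpa only [mul_one] using this
  have r4 : c (x * (y * x)) x = c (x * (x * y)) x := by have := E.sym dx dx y x 1 1; simpa only [mul_one] using this
  have r5 : c (x * (x * y)) y = c (y * (x * y)) x := by have := E.mix dx dy (x * y) 1; simpa only [mul_one] using this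
  have r6 : c (y * (x * x)) y = 0 := by
    have := E.mix dy (E.dl_mul y dx) x 1
    simp only [mul_one, mul_assoc] at this
    rw [← this, E.alt]
  have r7 : c (x * (y * y)) x = 0 := by
    have := E.mix dx (E.dl_mul x dy) y 1
    simp only [mul_one, mul_assoc] at this
    rw [← this, E.alt]
  have e := E.k0 (E.sp_add sx sy) 1 1
  simp only [mul_one, add_mul, mul_assoc, mul_add, map_add, AddMonoidHom.add_apply, k1, k2, k3, k4, f1, f2, f3, f4, f5, f6,
    w1, w2, w3, w4, w5, w6, w7, w8, u1, u2, u3, u4, u5, u6, u7, r1, r2, r3, r4, r5, r6, r7] at e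
  linear_combination (norm := (match_scalars <;> decide)) (1:ZMod 2) • e

/-- total symmetry -/
theorem tot {x x' y w : R} (hx : Sp ι x) (hx' : Sp ι x') (hy : Sp ι y) (hw : w ∈ Dl ι) (a b : R) :
    c (x * (x' * (y * (y * a)))) (w * b) = c (x' * (x * (y * (y * a)))) (w * b) := by
  have h1 := E.pol hx hx' hy hw a b
  have h2 := E.pol hx' hx hy hw a b
  have h3 := E.sym1 (sp_dl hy) hw x x x' (x' * a) b
  have h4 := E.sym2 (sp_dl hy) hw x x' x x' a b
  have h5 := E.sym (sp_dl hy) hw x x' (x' * (x * a)) b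
  have h6 := E.sym1 (sp_dl hy) hw x' x x' (x * a) b
  rw [← h1, ← h2, h3, h4, h5, h6]

theorem kk3 {x y y' : R} (hx : Sp ι x) (hy : Sp ι y) (hy' : Sp ι y') : c (x * (y * y')) x = 0 := by
  have dx := sp_dl hx
  have dy := sp_dl hy
  have dy' := sp_dl hy'
  have key : ∀ {x y : R}, Sp ι x → Sp ι y → c (x * y) x = c (y * x) y := by
    rintro x y ⟨g, rfl⟩ ⟨h, rfl⟩
    exact E.kthree g h
  have e1 := key hx hy
  have e2 := key hx hy'
  have e3 := key hx (E.sp_add hy hy')
  have r1 : c (y' * x) y = c (y * x) y' := by have := E.mix dy' dy x 1; simpa only [mul_one] using this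
  have r2 : c (y * x) (y * y') = c (y * (y' * x)) y := by
    have := E.mix dy (E.dl_mul' y' dy) x 1
    simpa only [mul_one, mul_assoc] using this
  have r3 : c (y' * x) (y * y') = c (y * (y' * x)) y' := by
    have := E.mix dy' (E.dl_mul' y' dy) x 1
    simpa only [mul_one, mul_assoc] using this
  have r4 : c (y * (y' * x)) (y * y') = 0 := by
    have h1 := E.mix dy (E.dl_mul' y' dy) (y' * x) 1
    have h2 := E.sym1 dy dy y' y' x 1 1
    have h3 := E.sym dy dy y' x (y' * 1) 1
    have h4 := E.tot hy hx hy' dy 1 1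
    have h5 := E.mix dx dy (y * (y' * (y' * 1))) 1
    have h6 := E.zz hy hy' dx 1 1
    simp only [mul_one, mul_assoc] at h1 h2 h3 h4 h5 h6
    rw [h1, h2, h3, h4, h5, h6]
  simp only [add_mul, mul_assoc, mul_add, map_add, AddMonoidHom.add_apply, r1, r2, r3, r4] at e1 e2 e3
  linear_combination (norm := (match_scalars <;> decide)) (1:ZMod 2) • (e1 + e2 + e3)

/-- **(lambda = 0)** -/
theorem lam (g h : G) : c ((1 + ι g) * (1 + ι g)) ((1 + ι h) * (1 + ι h)) = 0 := by
  obtain ⟨x, hx⟩ : ∃ x, x = 1 + ι g := ⟨_, rfl⟩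
  obtain ⟨y, hy⟩ : ∃ y, y = 1 + ι h := ⟨_, rfl⟩
  have sx : Sp ι x := ⟨g, hx⟩
  have sy : Sp ι y := ⟨h, hy⟩
  have dx := sp_dl sx
  have dy := sp_dl sy
  have K3 : c (x * y) x = c (y * x) y := by rw [hx, hy]; exact E.kthree g h
  have hsq : ∀ {z : R}, Sp ι z → c (z * z) 1 = 0 := by
    rintro z ⟨k, rfl⟩
    rw [← sqdec E.two, map_add, AddMonoidHom.add_apply, E.e3, E.alt, add_zero]
  have gxx : Good c (x * x) := by rw [hx]; exact E.good_xx g
  have gyy : Good c (y * y) := by rw [hy]; exact E.good_xx h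
  have gxyx : Good c (x * (y * x)) := by rw [hx, hy]; exact E.good_xyx g h
  have ax : act g (c x 1) + c x 1 = 0 := by rw [hx]; exact E.e3a g
  have ay : act h (c y 1) + c y 1 = 0 := by rw [hy]; exact E.e3a h
  have t1x : ∀ x1, c (x * x1) 1 = c x x1 + (act g (c x1 1) + c x1 1) := fun x1 => by rw [hx]; exact E.tr0 g x1
  have t1y : ∀ x1, c (y * x1) 1 = c y x1 + (act h (c x1 1) + c x1 1) := fun x1 => by rw [hy]; exact E.tr0 h x1
  have t2xy : ∀ x1, c (x * (y * x1)) 1 = c (x * y) x1 +
      (act g (act h (c x1 1) + c x1 1) + (act h (c x1 1) + c x1 1)) := fun x1 => by rw [hx, hy]; exact E.tr2 g h x1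
  have t2yx : ∀ x1, c (y * (x * x1)) 1 = c (y * x) x1 +
      (act h (act g (c x1 1) + c x1 1) + (act g (c x1 1) + c x1 1)) := fun x1 => by rw [hx, hy]; exact E.tr2 h g x1
  have f1 : c (x * (x * y)) 1 = c (x * x) y := by rw [← mul_assoc]; exact gxx y
  have f3 : c (x * (y * x)) 1 = c (x * y) x := by
    rw [t2xy, ← E.ad_comm h g, ax, map_zero, add_zero, add_zero]
  have f5 : c (x * (y * y)) 1 = c (x * y) y := by
    rw [t2xy, ay, map_zero, add_zero, add_zero]
  have f6 : c (y * (x * y)) 1 = c (y * x) y := by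
    rw [t2yx, ← E.ad_comm g h, ay, map_zero, add_zero, add_zero]
  have f7 : c (x * (y * (x * y))) 1 = c (x * (y * x)) y := by have := gxyx y; simpa only [mul_assoc] using this
  have s1 : c y x = c x y := E.symm _ _
  rw [← hx, ← hy]
  have l1 : c (x * x) (y * y) = c (x * (y * x)) y := by
    have h1 := E.symm (x * x) (y * y)
    have h2 := E.mix dy (E.dl_mul x dx) y 1
    have h3 := E.sym dx dy x y 1 1
    simp only [mul_one, mul_assoc] at h1 h2 h3
    rw [h1, h2, h3]
  have e := hsq (E.sp_add sx sy)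
  simp only [mul_one, add_mul, mul_assoc, mul_add, map_add, AddMonoidHom.add_apply, hsq sx, hsq sy, f1, f3, f5, f6, f7,
    K3, s1, ← l1] at e
  rw [t1x y, t1y x, s1] at e
  -- apply `1 + g`
  have e1 := congrArg (fun m => act g m + m) e
  simp only [map_add, map_zero, add_zero] at e1
  have a1 := E.der g (x * x) y
  have a2 := E.der g (y * y) x
  have a3 := E.der g (x * x) (y * y)
  have a4 := E.ad_sq g (c y 1)
  have a5 := E.ad_comm g h (c x 1)
  rw [ax, map_zero, add_zero] at a5
  rw [← hx] at a1 a2 a3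
  have b1 : c (x * (x * x)) y = 0 := by have := E.k0 sx 1 y; simpa only [mul_one] using this
  have b2 : c (x * (x * x)) (y * y) = 0 := by have := E.k0 sx 1 (y * y); simpa only [mul_one] using this
  have b3 : c (x * x) (x * y) = 0 := by
    have h1 := E.mix dx (E.dl_mul' y dx) x 1
    simp only [mul_one, mul_assoc] at h1
    rw [h1]
    exact E.kk3 sx sy sx
  have b4 : c (x * (y * y)) x = 0 := E.kk3 sx sy sy
  have b5 : c (x * x) (x * (y * y)) = 0 := by
    have h1 := E.mix dx (E.dl_mul' (y * y) dx) x 1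
    simp only [mul_one, mul_assoc] at h1
    rw [h1]
    exact E.v_xyyx sx sy dx
  have b6 : c (y * y) x = c (x * y) y := by have := E.mix dy dx y 1; simpa only [mul_one] using this
  have b7 : c (y * y) (x * x) = c (x * x) (y * y) := E.symm _ _
  rw [b1, b3] at a1
  rw [b4, b6, b7] at a2
  rw [b2, b5] at a3
  simp only [map_add] at a4 a5
  linear_combination (norm := (match_scalars <;> decide)) (1:ZMod 2) • (e1 + a1 + a2 + a3 + a4 + a5)

/-- squares act trivially, so they can be moved to the other side -/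
theorem move {y : R} (hy : Sp ι y) (r s : R) : c r (y * (y * s)) = c (y * (y * r)) s := by
  obtain ⟨h, rfl⟩ := hy
  have e : ∀ s, (1 + ι h) * ((1 + ι h) * s) = s + ι (h * h) * s := by
    intro s
    rw [← mul_assoc, ← sqdec E.two, add_mul, one_mul]
  have e1 : ι (h * h) * (ι (h * h) * r) = r := by
    rw [← mul_assoc, ← map_mul, E.exp4, map_one, one_mul]
  have e2 : c r (ι (h * h) * s) = c (ι (h * h) * r) s := by
    have h1 := E.eqv (h * h) (ι (h * h) * r) s
    rwa [e1, E.sq] at h1
  rw [e, e, map_add, map_add, AddMonoidHom.add_apply, e2]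

/-- the values on `J^2` vanish -/
theorem j2 {x y : R} (hx : Sp ι x) (hy : Sp ι y) (a b : R) : c (y * (y * (x * (x * a)))) b = 0 := by
  have hb := E.span b
  induction hb using AddSubgroup.closure_induction with
  | mem b hb =>
    obtain ⟨v, rfl⟩ := hb
    have ha := E.span a
    induction ha using AddSubgroup.closure_induction with
    | mem a ha =>
      obtain ⟨u, rfl⟩ := ha
      have h1 := E.zz hy hx (dl_gen ι (v * u⁻¹)) (ι u) (ι u)
      have e1 : (1 + ι (v * u⁻¹)) * ι u = ι u + ι v := by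
        rw [add_mul, one_mul, ← map_mul, inv_mul_cancel_right]
      rw [e1, map_add] at h1
      have h2 : c (y * (y * (x * (x * ι u)))) (ι u) = 0 := by
        rw [← E.move hy]
        obtain ⟨g, rfl⟩ := hx
        obtain ⟨h, rfl⟩ := hy
        have e2 : ∀ g, (1 + ι g) * ((1 + ι g) * ι u) = ι u * ((1 + ι (u⁻¹ * g * u)) * (1 + ι (u⁻¹ * g * u))) := by
          intro g
          rw [← mul_assoc, ← sqdec E.two, ← sqdec E.two, add_mul, mul_add, one_mul, mul_one, ← map_mul, ← map_mul]
          congr 2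
          group
        rw [e2, e2, E.eqv, E.lam, map_zero]
      rw [h2, zero_add] at h1
      exact h1
    | zero =>
      rw [mul_zero, mul_zero, mul_zero, mul_zero, map_zero]
      rfl
    | add a a' _ _ ha ha' =>
      rw [mul_add, mul_add, mul_add, mul_add, map_add, AddMonoidHom.add_apply, ha, ha', add_zero]
    | neg a _ ha =>
      rw [mul_neg, mul_neg, mul_neg, mul_neg, map_neg, AddMonoidHom.neg_apply, ha, neg_zero]
  | zero => exact map_zero _
  | add b b' _ _ hb hb' => rw [map_add, hb, hb', add_zero]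
  | neg b _ hb => rw [map_neg, hb, neg_zero]

/-- **`c (J, J) = 0`** -/
theorem jj {x y : R} (hx : Sp ι x) (hy : Sp ι y) (a b : R) : c (x * (x * a)) (y * (y * b)) = 0 := by
  rw [E.move hy, E.j2 hx hy]

/-- squares commute with the letters -/
theorem xy2 {y : R} (hy : Sp ι y) (g : G) : c (ι g * (y * y)) 1 = c (y * (y * ι g)) 1 := by
  obtain ⟨h, rfl⟩ := hy
  have f5 : c ((1 + ι g) * ((1 + ι h) * (1 + ι h))) 1 = c ((1 + ι g) * (1 + ι h)) (1 + ι h) := by
    rw [E.tr2, E.e3a h, map_zero, add_zero, add_zero]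
  have f2 : c ((1 + ι h) * ((1 + ι h) * (1 + ι g))) 1 = c ((1 + ι h) * (1 + ι h)) (1 + ι g) := by
    rw [← mul_assoc]
    exact E.good_xx h (1 + ι g)
  have b6 : c ((1 + ι h) * (1 + ι h)) (1 + ι g) = c ((1 + ι g) * (1 + ι h)) (1 + ι h) := by
    have := E.mix (dl_gen ι h) (dl_gen ι g) (1 + ι h) 1
    simpa only [mul_one] using this
  have e := (f5.trans b6.symm).trans f2.symm
  generalize 1 + ι h = y at e
  rw [add_mul, one_mul, mul_add, mul_add, mul_one, map_add, map_add, AddMonoidHom.add_apply, AddMonoidHom.add_apply] at e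
  exact add_left_cancel e

end EDat

end E4.YE
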