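import Pool.Agent.Lib.MP_8a95e3_al.YE1

/-!
# YE2 : the group ring and the commutators of the conjugates of an involution
-/

namespace E4.YE

open scoped commutatorElement

variable {G : Type*} [Group G]

/-! ## maps out of the group ring -/

section ring

variable {N : Type*} [AddCommGroup N] [Module (ZMod 2) N]

/-- extension of a function to the group ring -/
noncomputable def ex (f : G → N) : MonoidAlgebra (ZMod 2) G →+ N :=
  (Finsupp.linearCombination (ZMod 2) f).toAddMonoidHom.comp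
    (MonoidAlgebra.coeffAddEquiv (R := ZMod 2) (M := G)).toAddMonoidHom

theorem ex_of (f : G → N) (g : G) : ex f (MonoidAlgebra.of (ZMod 2) G g) = f g := by
  show Finsupp.linearCombination (ZMod 2) f (MonoidAlgebra.of (ZMod 2) G g).coeff = f g
  rw [MonoidAlgebra.of_apply, MonoidAlgebra.coeff_single, Finsupp.linearCombination_single, one_smul]

theorem span_of (r : MonoidAlgebra (ZMod 2) G) :
    r ∈ AddSubgroup.closure (Set.range (MonoidAlgebra.of (ZMod 2) G)) := by
  induction r using MonoidAlgebra.induction_linear with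
  | zero => exact AddSubgroup.zero_mem _
  | add a b ha hb => exact AddSubgroup.add_mem _ ha hb
  | single g r =>
    have h : r = 0 ∨ r = 1 := by
      revert r
      decide
    rcases h with h | h
    · rw [h, MonoidAlgebra.single_zero]
      exact AddSubgroup.zero_mem _
    · rw [h]
      exact AddSubgroup.subset_closure ⟨g, rfl⟩

theorem two_of (r : MonoidAlgebra (ZMod 2) G) : r + r = 0 := by
  have h : (2 : ZMod 2) • r = 0 := by
    rw [show (2 : ZMod 2) = 0 by decide, zero_smul]
  rwa [two_smul] at h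

theorem biadd_zero {R M : Type*} [Ring R] [AddCommGroup M] {ι : G →* R}
    (hs : ∀ r : R, r ∈ AddSubgroup.closure (Set.range ι)) (F : R →+ R →+ M)
    (h : ∀ u v, F (ι u) (ι v) = 0) (a b : R) : F a b = 0 := by
  have ha := hs a
  induction ha using AddSubgroup.closure_induction with
  | mem a ha =>
    obtain ⟨u, rfl⟩ := ha
    have hb := hs b
    induction hb using AddSubgroup.closure_induction with
    | mem b hb =>
      obtain ⟨v, rfl⟩ := hb
      exact h u v
    | zero => exact map_zero _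
    | add b b' _ _ hb hb' => rw [map_add, hb, hb', add_zero]
    | neg b _ hb => rw [map_neg, hb, neg_zero]
  | zero => rw [map_zero]; rfl
  | add a a' _ _ ha ha' => rw [map_add, AddMonoidHom.add_apply, ha, ha', add_zero]
  | neg a _ ha => rw [map_neg, AddMonoidHom.neg_apply, ha, neg_zero]

end ring

/-! ## the commutators of the conjugates of an involution -/

/-- the conjugates -/
def cj (e u : G) : G := u * e * u⁻¹

theorem cj_mul (e g u : G) : cj e (g * u) = g * cj e u * g⁻¹ := by
  unfold cj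
  group

/-- the normal closure -/
def Ne (e : G) : Subgroup G := Subgroup.closure (Set.range (cj e))

theorem cj_mem (e u : G) : cj e u ∈ Ne e := Subgroup.subset_closure ⟨u, rfl⟩

theorem ne_conj (e g : G) {n : G} (hn : n ∈ Ne e) : g * n * g⁻¹ ∈ Ne e := by
  unfold Ne at hn
  induction hn using Subgroup.closure_induction with
  | mem y hy =>
    obtain ⟨u, rfl⟩ := hy
    rw [← cj_mul]
    exact cj_mem e _
  | one =>
    rw [mul_one, mul_inv_cancel]
    exact (Ne e).one_mem
  | mul a b _ _ ha hb =>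
    have e1 : g * (a * b) * g⁻¹ = (g * a * g⁻¹) * (g * b * g⁻¹) := by group
    rw [e1]
    exact (Ne e).mul_mem ha hb
  | inv a _ ha =>
    have e1 : g * a⁻¹ * g⁻¹ = (g * a * g⁻¹)⁻¹ := by group
    rw [e1]
    exact (Ne e).inv_mem ha

/-- the hypotheses of Lemma E -/
structure EHyp (e : G) : Prop where
  exp : ∀ g : G, g ^ 4 = 1
  inv : e * e = 1
  cl : ∀ u v w, ⁅cj e u, cj e v⁆ * cj e w = cj e w * ⁅cj e u, cj e v⁆
  jt : ∀ u v h : G, ⁅cj e u, cj e v⁆ * (h * h) = (h * h) * ⁅cj e u, cj e v⁆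

variable {e : G}

theorem cj_sq (he : e * e = 1) (u : G) : cj e u * cj e u = 1 := by
  have h : cj e u * cj e u = u * (e * e) * u⁻¹ := by
    unfold cj
    group
  rw [h, he, mul_one, mul_inv_cancel]

theorem cent_of_gen {z : G} (h : ∀ w, z * cj e w = cj e w * z) {n : G} (hn : n ∈ Ne e) : z * n = n * z := by
  unfold Ne at hn
  induction hn using Subgroup.closure_induction with
  | mem y hy =>
    obtain ⟨u, rfl⟩ := hy
    exact h u
  | one => rw [mul_one, one_mul]
  | mul a b _ _ ha hb => rw [← mul_assoc, ha, mul_assoc, hb, mul_assoc]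
  | inv a _ ha => exact (Commute.inv_right (show Commute z a from ha)).eq

namespace EHyp

variable (H : EHyp e)
include H

/-- class two -/
theorem cl2 {a b c : G} (ha : a ∈ Ne e) (hb : b ∈ Ne e) (hc : c ∈ Ne e) : ⁅a, b⁆ * c = c * ⁅a, b⁆ := by
  -- the centralizer of the normal closure
  obtain ⟨Z, hZ⟩ : ∃ Z : Subgroup G, ∀ z, z ∈ Z ↔ ∀ n ∈ Ne e, z * n = n * z := by
    refine ⟨{ carrier := {z | ∀ n ∈ Ne e, z * n = n * z}
              one_mem' := fun n _ => by rw [one_mul, mul_one]
              mul_mem' := fun {x y} hx hy n hn => by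
                rw [mul_assoc, hy n hn, ← mul_assoc, hx n hn, mul_assoc]
              inv_mem' := fun {x} hx n hn => (Commute.inv_left (show Commute x n from hx n hn)).eq }, fun z => Iff.rfl⟩
  have hZn : Z.Normal := by
    refine ⟨fun z hz g => ?_⟩
    rw [hZ] at hz ⊢
    intro n hn
    have h1 := hz _ (ne_conj e g⁻¹ hn)
    have h2 : g * z * g⁻¹ * n = g * (z * (g⁻¹ * n * g⁻¹⁻¹)) * g⁻¹ := by group
    rw [h2, h1]
    group
  have key : ∀ a ∈ Ne e, ∀ b ∈ Ne e, (QuotientGroup.mk a * QuotientGroup.mk b : G ⧸ Z) =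
      QuotientGroup.mk b * QuotientGroup.mk a := by
    intro a ha b hb
    refine Subgroup.closure_induction₂ (p := fun a b _ _ => (QuotientGroup.mk a * QuotientGroup.mk b : G ⧸ Z) =
      QuotientGroup.mk b * QuotientGroup.mk a) ?_ ?_ ?_ ?_ ?_ ?_ ?_ ha hb
    · rintro _ _ ⟨u, rfl⟩ ⟨v, rfl⟩
      rw [← QuotientGroup.mk_mul, ← QuotientGroup.mk_mul, QuotientGroup.eq, hZ]
      have h1 : (cj e u * cj e v)⁻¹ * (cj e v * cj e u) = ⁅(cj e v)⁻¹, (cj e u)⁻¹⁆ := by
        rw [commutatorElement_def]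
        group
      have h2 : ∀ u, (cj e u)⁻¹ = cj e u := fun u => inv_eq_of_mul_eq_one_left (cj_sq H.inv u)
      rw [h1, h2, h2]
      exact fun n hn => cent_of_gen (H.cl v u) hn
    · intro a _
      rw [QuotientGroup.mk_one, one_mul, mul_one]
    · intro a _
      rw [QuotientGroup.mk_one, one_mul, mul_one]
    · intro a b c _ _ _ h1 h2
      rw [QuotientGroup.mk_mul, mul_assoc, h2, ← mul_assoc, h1, mul_assoc]
    · intro a b c _ _ _ h1 h2
      rw [QuotientGroup.mk_mul, ← mul_assoc, h1, mul_assoc, h2, mul_assoc]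
    · intro a b _ _ h1
      rw [QuotientGroup.mk_inv]
      exact (Commute.inv_left (show Commute (QuotientGroup.mk a : G ⧸ Z) (QuotientGroup.mk b) from h1)).eq
    · intro a b _ _ h1
      rw [QuotientGroup.mk_inv]
      exact (Commute.inv_right (show Commute (QuotientGroup.mk a : G ⧸ Z) (QuotientGroup.mk b) from h1)).eq
  have h1 := key a ha b hb
  have h2 : ⁅a, b⁆ ∈ Z := by
    rw [← QuotientGroup.eq_one_iff, commutatorElement_def, QuotientGroup.mk_mul, QuotientGroup.mk_mul,
      QuotientGroup.mk_mul, h1, QuotientGroup.mk_inv, QuotientGroup.mk_inv, mul_inv_cancel_right, mul_inv_cancel]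
  exact (hZ _).1 h2 c hc

theorem comm_mul {a b c : G} (ha : a ∈ Ne e) (hb : b ∈ Ne e) (hc : c ∈ Ne e) : ⁅a * b, c⁆ = ⁅a, c⁆ * ⁅b, c⁆ := by
  have h1 : ⁅a * b, c⁆ = a * ⁅b, c⁆ * a⁻¹ * ⁅a, c⁆ := by
    rw [commutatorElement_def, commutatorElement_def, commutatorElement_def]
    group
  rw [h1, ← H.cl2 hb hc ha, mul_inv_cancel_right]
  exact (H.cl2 hb hc ((Ne e).mul_mem ((Ne e).mul_mem ((Ne e).mul_mem ha hc) ((Ne e).inv_mem ha)) ((Ne e).inv_mem hc)))

theorem comm_mul' {a b c : G} (ha : a ∈ Ne e) (hb : b ∈ Ne e) (hc : c ∈ Ne e) : ⁅a, b * c⁆ = ⁅a, b⁆ * ⁅a, c⁆ := by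
  have h1 : ⁅a, b * c⁆ = ⁅a, b⁆ * (b * ⁅a, c⁆ * b⁻¹) := by
    rw [commutatorElement_def, commutatorElement_def, commutatorElement_def]
    group
  rw [h1, ← H.cl2 ha hc hb, mul_inv_cancel_right]

/-- the values of the form -/
theorem val_sq (u v : G) : ⁅cj e u, cj e v⁆ * ⁅cj e u, cj e v⁆ = 1 := by
  have h2 : ∀ u, (cj e u)⁻¹ = cj e u := fun u => inv_eq_of_mul_eq_one_left (cj_sq H.inv u)
  have h3 : ⁅cj e u, cj e v⁆ * ⁅cj e u, cj e v⁆ = (cj e u * cj e v) ^ 4 := by
    rw [commutatorElement_def, h2, h2]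
    simp only [pow_succ, pow_zero, one_mul, mul_assoc]
  rw [h3, H.exp]

theorem val_symm (u v : G) : ⁅cj e u, cj e v⁆ = ⁅cj e v, cj e u⁆ := by
  rw [← commutatorElement_inv]
  exact (inv_eq_of_mul_eq_one_left (H.val_sq v u)).symm ▸ rfl

end EHyp

end E4.YE
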