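import Pool.Agent.Lib.MP_8a95e3_al.YE2

/-!
# YE3 : Lemma E for an involution of a group of exponent four
-/

namespace E4.YE

open scoped commutatorElement

universe u₁

variable {G : Type u₁} [Group G]

/-- the group of the values -/
def C0 (e : G) : Subgroup G := Subgroup.closure {x | ∃ u v, x = ⁅cj e u, cj e v⁆}

variable {e : G}

theorem c0_mem (e u v : G) : ⁅cj e u, cj e v⁆ ∈ C0 e := Subgroup.subset_closure ⟨u, v, rfl⟩

theorem c0_le (e : G) : C0 e ≤ Ne e := by
  unfold C0
  rw [Subgroup.closure_le]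
  rintro _ ⟨u, v, rfl⟩
  rw [commutatorElement_def]
  exact (Ne e).mul_mem ((Ne e).mul_mem ((Ne e).mul_mem (cj_mem e u) (cj_mem e v)) ((Ne e).inv_mem (cj_mem e u)))
    ((Ne e).inv_mem (cj_mem e v))

theorem conj_comm (g u v : G) : g * ⁅cj e u, cj e v⁆ * g⁻¹ = ⁅cj e (g * u), cj e (g * v)⁆ := by
  rw [cj_mul, cj_mul, commutatorElement_def, commutatorElement_def]
  group

theorem c0_conj (g : G) {x : G} (hx : x ∈ C0 e) : g * x * g⁻¹ ∈ C0 e := by
  unfold C0 at hx
  induction hx using Subgroup.closure_induction with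
  | mem y hy =>
    obtain ⟨u, v, rfl⟩ := hy
    rw [conj_comm]
    exact c0_mem e _ _
  | one =>
    rw [mul_one, mul_inv_cancel]
    exact (C0 e).one_mem
  | mul a b _ _ ha hb =>
    have e1 : g * (a * b) * g⁻¹ = (g * a * g⁻¹) * (g * b * g⁻¹) := by group
    rw [e1]
    exact (C0 e).mul_mem ha hb
  | inv a _ ha =>
    have e1 : g * a⁻¹ * g⁻¹ = (g * a * g⁻¹)⁻¹ := by group
    rw [e1]
    exact (C0 e).inv_mem ha

namespace EHyp

variable (H : EHyp e)
include H

theorem c0_cent {x n : G} (hx : x ∈ C0 e) (hn : n ∈ Ne e) : x * n = n * x := by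
  unfold C0 at hx
  induction hx using Subgroup.closure_induction with
  | mem y hy =>
    obtain ⟨u, v, rfl⟩ := hy
    exact cent_of_gen (H.cl u v) hn
  | one => rw [mul_one, one_mul]
  | mul a b _ _ ha hb => rw [mul_assoc, hb, ← mul_assoc, ha, mul_assoc]
  | inv a _ ha => exact (Commute.inv_left (show Commute a n from ha)).eq

theorem c0_sq {x : G} (hx : x ∈ C0 e) : x * x = 1 := by
  have hx' := hx
  unfold C0 at hx
  induction hx using Subgroup.closure_induction with
  | mem y hy =>
    obtain ⟨u, v, rfl⟩ := hy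
    exact H.val_sq u v
  | one => rw [mul_one]
  | mul a b ha' hb' ha hb =>
    have h1 : b * a = a * b := H.c0_cent hb' (c0_le e ha')
    rw [mul_assoc, ← mul_assoc b a b, h1, mul_assoc a b b, hb hb', mul_one, ha ha']
  | inv a ha' ha =>
    rw [← mul_inv_rev, ha ha', inv_one]

theorem c0_jt {x : G} (hx : x ∈ C0 e) (h : G) : x * (h * h) = (h * h) * x := by
  unfold C0 at hx
  induction hx using Subgroup.closure_induction with
  | mem y hy =>
    obtain ⟨u, v, rfl⟩ := hy
    exact H.jt u v h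
  | one => rw [mul_one, one_mul]
  | mul a b _ _ ha hb => rw [mul_assoc, hb, ← mul_assoc, ha, mul_assoc]
  | inv a _ ha => exact (Commute.inv_left (show Commute a (h * h) from ha)).eq

/-! ## relations between the conjugates -/

/-- the cubic law -/
theorem four (h u : G) : cj e u * cj e (h * u) * cj e (h * (h * u)) * cj e (h * (h * (h * u))) = 1 := by
  have h4 : h * h * h * h = 1 := by
    have := H.exp h
    rwa [pow_succ, pow_succ, pow_succ, pow_one] at this
  have h1 : cj e u * cj e (h * u) * cj e (h * (h * u)) * cj e (h * (h * (h * u))) =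
      (cj e u * h) ^ 4 * (h * h * h * h)⁻¹ := by
    rw [cj_mul e h (h * (h * u)), cj_mul e h (h * u), cj_mul e h u]
    simp only [pow_succ, pow_zero, one_mul]
    group
  rw [h1, H.exp, h4, inv_one, mul_one]

omit H in
theorem cj_sqv (h : G) : cj e (h * h) = (h * h) * e * (h * h)⁻¹ := rfl

theorem e3v (h : G) : ⁅cj e (h * h), cj e 1⁆ = 1 := by
  have h4 : h * h * (h * h) = 1 := by
    have := H.exp h
    rwa [pow_succ, pow_succ, pow_succ, pow_one, mul_assoc (h * h)] at this
  have hi : (h * h)⁻¹ = h * h := inv_eq_of_mul_eq_one_left h4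
  have h2 : ∀ u, (cj e u)⁻¹ = cj e u := fun u => inv_eq_of_mul_eq_one_left (cj_sq H.inv u)
  have h1 : ⁅cj e (h * h), cj e 1⁆ = (h * h * e) ^ 4 := by
    rw [commutatorElement_def, h2, h2]
    unfold cj
    rw [hi]
    simp only [pow_succ, pow_zero, one_mul, inv_one, mul_one, mul_assoc]
  rw [h1, H.exp]

omit H in
theorem swap_one (p a b q : G) (hc : ∀ n, n = p → ⁅a, b⁆ * n = n * ⁅a, b⁆) :
    p * a * b * q = ⁅a, b⁆ * (p * b * a * q) := by
  have h1 : a * b = ⁅a, b⁆ * (b * a) := by
    rw [commutatorElement_def]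
    group
  rw [mul_assoc p a b, h1, ← mul_assoc p, ← hc p rfl]
  simp only [mul_assoc]

/-- the bilinear law, for the conjugates -/
theorem bil_law (h u v : G) :
    ⁅cj e u, cj e (h * v)⁆ * (⁅cj e u, cj e (h * (h * v))⁆ * ⁅cj e (h * u), cj e (h * (h * v))⁆) *
      (⁅cj e u, cj e (h * (h * (h * v)))⁆ * ⁅cj e (h * u), cj e (h * (h * (h * v)))⁆ *
        ⁅cj e (h * (h * u)), cj e (h * (h * (h * v)))⁆) = 1 := by
  have h4 : h * h * h * h = 1 := by
    have := H.exp h
    rwa [pow_succ, pow_succ, pow_succ, pow_one] at this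
  have hP := H.four h u
  have hQ := H.four h v
  have hPQ : cj e v * cj e u * cj e (h * v) * cj e (h * u) * cj e (h * (h * v)) * cj e (h * (h * u)) *
      cj e (h * (h * (h * v))) * cj e (h * (h * (h * u))) = 1 := by
    have h1 : cj e v * cj e u * cj e (h * v) * cj e (h * u) * cj e (h * (h * v)) * cj e (h * (h * u)) *
        cj e (h * (h * (h * v))) * cj e (h * (h * (h * u))) = (cj e v * cj e u * h) ^ 4 * (h * h * h * h)⁻¹ := by
      rw [cj_mul e h u, cj_mul e h v, cj_mul e h (h * u), cj_mul e h (h * v), cj_mul e h (h * (h * u)),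
        cj_mul e h (h * (h * v)), cj_mul e h u, cj_mul e h v, cj_mul e h (h * u), cj_mul e h (h * v),
        cj_mul e h u, cj_mul e h v]
      simp only [pow_succ, pow_zero, one_mul]
      group
    rw [h1, H.exp, h4, inv_one, mul_one]
  have m0 := cj_mem e u
  have m1 := cj_mem e (h * u)
  have m2 := cj_mem e (h * (h * u))
  have n0 := cj_mem e v
  have n1 := cj_mem e (h * v)
  have n2 := cj_mem e (h * (h * v))
  have n3 := cj_mem e (h * (h * (h * v)))
  generalize cj e u = a0 at *
  generalize cj e (h * u) = a1 at *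
  generalize cj e (h * (h * u)) = a2 at *
  generalize cj e (h * (h * (h * u))) = a3 at *
  generalize cj e v = b0 at *
  generalize cj e (h * v) = b1 at *
  generalize cj e (h * (h * v)) = b2 at *
  generalize cj e (h * (h * (h * v))) = b3 at *
  have s1 : b0 * a0 * b1 * (a1 * b2 * a2 * b3 * a3) = ⁅a0, b1⁆ * (b0 * b1 * a0 * (a1 * b2 * a2 * b3 * a3)) :=
    swap_one b0 a0 b1 _ fun n hn => by rw [hn]; exact H.cl2 m0 n1 n0
  have s2 : (b0 * b1) * (a0 * a1) * b2 * (a2 * b3 * a3) = ⁅a0 * a1, b2⁆ * ((b0 * b1) * b2 * (a0 * a1) * (a2 * b3 * a3)) :=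
    swap_one _ _ _ _ fun n hn => by
      rw [hn]
      exact H.cl2 ((Ne e).mul_mem m0 m1) n2 ((Ne e).mul_mem n0 n1)
  have s3 : (b0 * b1 * b2) * (a0 * a1 * a2) * b3 * a3 = ⁅a0 * a1 * a2, b3⁆ * ((b0 * b1 * b2) * b3 * (a0 * a1 * a2) * a3) :=
    swap_one _ _ _ _ fun n hn => by
      rw [hn]
      exact H.cl2 ((Ne e).mul_mem ((Ne e).mul_mem m0 m1) m2) n3 ((Ne e).mul_mem ((Ne e).mul_mem n0 n1) n2)
  have e1 : b0 * a0 * b1 * a1 * b2 * a2 * b3 * a3 = ⁅a0, b1⁆ * ⁅a0 * a1, b2⁆ * ⁅a0 * a1 * a2, b3⁆ *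
      ((b0 * b1 * b2 * b3) * (a0 * a1 * a2 * a3)) := by
    have t1 : b0 * a0 * b1 * a1 * b2 * a2 * b3 * a3 = b0 * a0 * b1 * (a1 * b2 * a2 * b3 * a3) := by
      simp only [mul_assoc]
    have t2 : b0 * b1 * a0 * (a1 * b2 * a2 * b3 * a3) = (b0 * b1) * (a0 * a1) * b2 * (a2 * b3 * a3) := by
      simp only [mul_assoc]
    have t3 : (b0 * b1) * b2 * (a0 * a1) * (a2 * b3 * a3) = (b0 * b1 * b2) * (a0 * a1 * a2) * b3 * a3 := by
      simp only [mul_assoc]
    rw [t1, s1, t2, s2, t3, s3]
    simp only [mul_assoc]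
  rw [hPQ, hP, hQ, mul_one, mul_one, H.comm_mul m0 m1 n2, H.comm_mul ((Ne e).mul_mem m0 m1) m2 n3,
    H.comm_mul m0 m1 n3] at e1
  exact e1.symm

/-- **The form.** -/
theorem exists_form : ∃ (M : Type u₁) (_ : AddCommGroup M) (_ : Module (ZMod 2) M) (act : G → M →+ M)
    (c : MonoidAlgebra (ZMod 2) G →+ MonoidAlgebra (ZMod 2) G →+ M) (val : M → G),
    EDat (MonoidAlgebra.of (ZMod 2) G) act c ∧ (∀ m n, val m = val n → m = n) ∧ val 0 = 1 ∧
      (∀ m n, val (m + n) = val m * val n) ∧
      (∀ u v, val (c (MonoidAlgebra.of (ZMod 2) G u) (MonoidAlgebra.of (ZMod 2) G v)) = ⁅cj e u, cj e v⁆) ∧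
      (∀ g m, val (act g m) = g * val m * g⁻¹) ∧ (∀ x, x ∈ C0 e ↔ ∃ m, val m = x) := by
  let _ : CommGroup (C0 e) := { (inferInstance : Group (C0 e)) with
    mul_comm := fun a b => Subtype.ext (H.c0_cent a.2 (c0_le e b.2)) }
  have h2 : ∀ m : Additive (C0 e), 2 • m = 0 := by
    intro m
    rw [two_nsmul]
    apply Additive.toMul.injective
    apply Subtype.ext
    exact H.c0_sq (Additive.toMul m : C0 e).2
  let _ : Module (ZMod 2) (Additive (C0 e)) := AddCommGroup.zmodModule h2
  obtain ⟨k, hk⟩ : ∃ k : G → G → Additive (C0 e), ∀ u v, ((Additive.toMul (k u v) : C0 e) : G) =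
      ⁅cj e u, cj e v⁆ := ⟨fun u v => Additive.ofMul ⟨⁅cj e u, cj e v⁆, c0_mem e u v⟩, fun u v => rfl⟩
  obtain ⟨act, hact⟩ : ∃ act : G → Additive (C0 e) →+ Additive (C0 e), ∀ g m,
      ((Additive.toMul (act g m) : C0 e) : G) = g * ((Additive.toMul m : C0 e) : G) * g⁻¹ := by
    refine ⟨fun g => { toFun := fun m => Additive.ofMul ⟨g * ((Additive.toMul m : C0 e) : G) * g⁻¹,
                          c0_conj g (Additive.toMul m : C0 e).2⟩
                       map_zero' := ?_
                       map_add' := ?_ }, fun g m => rfl⟩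
    · apply Additive.toMul.injective
      apply Subtype.ext
      show g * 1 * g⁻¹ = 1
      rw [mul_one, mul_inv_cancel]
    · intro a b
      apply Additive.toMul.injective
      apply Subtype.ext
      show g * (((Additive.toMul a : C0 e) : G) * ((Additive.toMul b : C0 e) : G)) * g⁻¹ =
        g * ((Additive.toMul a : C0 e) : G) * g⁻¹ * (g * ((Additive.toMul b : C0 e) : G) * g⁻¹)
      group
  have inj : ∀ m n : Additive (C0 e), ((Additive.toMul m : C0 e) : G) = ((Additive.toMul n : C0 e) : G) → m = n := by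
    intro m n h
    exact Additive.toMul.injective (Subtype.ext h)
  have vz : ((Additive.toMul (0 : Additive (C0 e)) : C0 e) : G) = 1 := rfl
  have va : ∀ m n : Additive (C0 e), ((Additive.toMul (m + n) : C0 e) : G) =
      ((Additive.toMul m : C0 e) : G) * ((Additive.toMul n : C0 e) : G) := fun m n => rfl
  obtain ⟨c, hc⟩ : ∃ c : MonoidAlgebra (ZMod 2) G →+ MonoidAlgebra (ZMod 2) G →+ Additive (C0 e), ∀ u v,
      c (MonoidAlgebra.of (ZMod 2) G u) (MonoidAlgebra.of (ZMod 2) G v) = k u v := by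
    refine ⟨ex fun u => ex fun v => k u v, fun u v => ?_⟩
    rw [ex_of, ex_of]
  obtain ⟨ι, hι⟩ : ∃ ι : G →* MonoidAlgebra (ZMod 2) G, ι = MonoidAlgebra.of (ZMod 2) G := ⟨_, rfl⟩
  rw [← hι] at hc ⊢
  have hspan : ∀ r : MonoidAlgebra (ZMod 2) G, r ∈ AddSubgroup.closure (Set.range ι) := by
    rw [hι]
    exact span_of
  have htwo : ∀ r : MonoidAlgebra (ZMod 2) G, r + r = 0 := two_of
  have hzero := fun F h => biadd_zero (ι := ι) hspan (M := Additive (C0 e)) F h
  have mm : ∀ m : Additive (C0 e), m + m = 0 := fun m => by rw [← two_nsmul]; exact h2 m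
  have hsymm : ∀ a b, c a b = c b a := by
    intro a b
    have h := hzero (c - c.flip) (fun u v => by
      show c (ι u) (ι v) - c (ι v) (ι u) = 0
      rw [sub_eq_zero, hc, hc]
      apply inj
      rw [hk, hk]
      exact H.val_symm u v) a b
    exact sub_eq_zero.1 h
  have halt : ∀ a, c a a = 0 := by
    intro a
    have ha := hspan a
    induction ha using AddSubgroup.closure_induction with
    | mem a ha =>
      obtain ⟨u, rfl⟩ := ha
      rw [hc]
      apply inj
      rw [hk, vz, commutatorElement_self]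
    | zero => exact map_zero _
    | add a b _ _ ha hb =>
      rw [map_add, map_add, AddMonoidHom.add_apply, AddMonoidHom.add_apply, ha, hb, hsymm b a, zero_add, add_zero, mm]
    | neg a _ ha => rw [map_neg, map_neg, AddMonoidHom.neg_apply, ha, neg_zero, neg_zero]
  have heqv : ∀ g a b, c (ι g * a) (ι g * b) = act g (c a b) := by
    intro g a b
    have h := hzero ((c.comp (AddMonoidHom.mulLeft (ι g))).compl₂ (AddMonoidHom.mulLeft (ι g)) -
      c.compr₂ (act g)) (fun u v => by
        show c (ι g * ι u) (ι g * ι v) - act g (c (ι u) (ι v)) = 0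
        rw [sub_eq_zero, ← map_mul, ← map_mul, hc, hc]
        apply inj
        rw [hact, hk, hk, conj_comm]) a b
    exact sub_eq_zero.1 h
  have hsq : ∀ g m, act (g * g) m = m := by
    intro g m
    apply inj
    rw [hact]
    have h := H.c0_jt (Additive.toMul m : C0 e).2 g
    rw [← h, mul_inv_cancel_right]
  -- the cubic law
  have hcub : ∀ g u v, k u v + k (g * u) v + k (g * (g * u)) v + k (g * (g * (g * u))) v = 0 := by
    intro g u v
    apply inj
    rw [va, va, va, hk, hk, hk, hk, vz]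
    have m0 := cj_mem e u
    have m1 := cj_mem e (g * u)
    have m2 := cj_mem e (g * (g * u))
    have m3 := cj_mem e (g * (g * (g * u)))
    have n0 := cj_mem e v
    rw [← H.comm_mul m0 m1 n0, ← H.comm_mul ((Ne e).mul_mem m0 m1) m2 n0,
      ← H.comm_mul ((Ne e).mul_mem ((Ne e).mul_mem m0 m1) m2) m3 n0, H.four, commutatorElement_one_left]
  have hlaw : ∀ g u v, k u (g * v) + (k u (g * (g * v)) + k (g * u) (g * (g * v))) + (k u (g * (g * (g * v))) +
      k (g * u) (g * (g * (g * v))) + k (g * (g * u)) (g * (g * (g * v)))) = 0 := by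
    intro g u v
    apply inj
    rw [va, va, va, va, va, hk, hk, hk, hk, hk, hk, vz]
    exact H.bil_law g u v
  have hk_eqv : ∀ g u v, k (g * u) (g * v) = act g (k u v) := by
    intro g u v
    apply inj
    rw [hact, hk, hk, conj_comm]
  have hk_symm : ∀ u v, k u v = k v u := by
    intro u v
    apply inj
    rw [hk, hk]
    exact H.val_symm u v
  have hexp : ∀ g : G, g * g * (g * g) = 1 := by
    intro g
    have := H.exp g
    rwa [pow_succ, pow_succ, pow_succ, pow_one, mul_assoc (g * g)] at this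
  have hact_mul : ∀ g h m, act (g * h) m = act g (act h m) := by
    intro g h m
    apply inj
    rw [hact, hact, hact]
    group
  -- the transport law
  have hjt : ∀ g u v, k u v + k u (g * v) + (k (g * u) v + k (g * u) (g * v)) = 0 := by
    intro g u v
    have l1 := hlaw g u v
    have l2 := hcub g v u
    have e1 : k (g * u) (g * (g * v)) = act g (k u (g * v)) := hk_eqv _ _ _
    have e2 : k (g * u) (g * (g * (g * v))) = act g (k u (g * (g * v))) := hk_eqv _ _ _
    have e3 : k (g * (g * u)) (g * (g * (g * v))) = k u (g * v) := by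
      rw [← mul_assoc g g, ← mul_assoc g g, hk_eqv, hsq]
    have e4 : k (g * u) v = act g (k u (g * (g * (g * v)))) := by
      rw [← hk_eqv]
      congr 1
      have h4 := hexp g
      rw [← mul_assoc, ← mul_assoc, ← mul_assoc, mul_assoc (g * g), h4, one_mul]
    have e5 : k (g * u) (g * v) = act g (k u v) := hk_eqv _ _ _
    rw [hk_symm v u, hk_symm (g * v) u, hk_symm (g * (g * v)) u, hk_symm (g * (g * (g * v))) u] at l2
    have l3 := congrArg (act g) l2
    rw [map_add, map_add, map_add, map_zero] at l3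
    rw [e1, e2, e3] at l1
    rw [e4, e5]
    linear_combination (norm := (match_scalars <;> decide)) (1:ZMod 2) • (l1 + l2 + l3)
  have hE : EDat ι act c := by
    refine ⟨hspan, htwo, hexp, hact_mul, hsq, heqv, hsymm, halt, ?_, ?_, ?_⟩
    · intro g a b
      refine hzero ((c.comp (AddMonoidHom.mulLeft (1 + ι g))).compl₂ (AddMonoidHom.mulLeft (1 + ι g))) (fun u v => ?_) a b
      show c ((1 + ι g) * ι u) ((1 + ι g) * ι v) = 0
      rw [add_mul, add_mul, one_mul, one_mul, ← map_mul, ← map_mul]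
      simp only [map_add, AddMonoidHom.add_apply, hc]
      have h1 := hjt g u v
      linear_combination (norm := (match_scalars <;> decide)) (1:ZMod 2) • h1
    · intro g r a b
      have hr := hspan r
      induction hr using AddSubgroup.closure_induction with
      | mem r hr =>
        obtain ⟨w, rfl⟩ := hr
        have h0 : c (ι w * ((1 + ι g) * ((1 + ι g) * (1 + ι g))) * a) b = 0 := by
          refine hzero (c.comp (AddMonoidHom.mulLeft (ι w * ((1 + ι g) * ((1 + ι g) * (1 + ι g)))))) (fun u v => ?_) a b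
          show c (ι w * ((1 + ι g) * ((1 + ι g) * (1 + ι g))) * ι u) (ι v) = 0
          have e1 : ι w * ((1 + ι g) * ((1 + ι g) * (1 + ι g))) * ι u = ι (w * u) + ι (w * g * w⁻¹ * (w * u)) +
              ι (w * g * w⁻¹ * (w * g * w⁻¹ * (w * u))) + ι (w * g * w⁻¹ * (w * g * w⁻¹ * (w * g * w⁻¹ * (w * u)))) +
              ((ι (w * g * u) + ι (w * g * g * u)) + (ι (w * g * u) + ι (w * g * g * u))) := by
            have a1 : w * g * w⁻¹ * (w * u) = w * g * u := by group
            have a2 : w * g * w⁻¹ * (w * g * u) = w * g * g * u := by group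
            have a3 : w * g * w⁻¹ * (w * g * g * u) = w * g * g * g * u := by group
            rw [a1, a2, a3]
            simp only [map_mul]
            noncomm_ring
          rw [e1, htwo, add_zero, map_add, map_add, map_add, AddMonoidHom.add_apply, AddMonoidHom.add_apply,
            AddMonoidHom.add_apply, hc, hc, hc, hc]
          exact hcub _ _ _
        simp only [mul_assoc] at h0
        exact h0
      | zero =>
        rw [zero_mul, map_zero]
        rfl
      | add r r' _ _ hr hr' => rw [add_mul, map_add, AddMonoidHom.add_apply, hr, hr', add_zero]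
      | neg r _ hr => rw [neg_mul, map_neg, AddMonoidHom.neg_apply, hr, neg_zero]
    · intro g
      have h1 := hc (g * g) 1
      rw [map_one] at h1
      rw [h1]
      apply inj
      rw [hk, vz]
      exact H.e3v g
  refine ⟨Additive (C0 e), inferInstance, inferInstance, act, c, fun m => ((Additive.toMul m : C0 e) : G), hE, inj, vz, va,
    fun u v => ?_, hact, fun x => ⟨fun hx => ⟨Additive.ofMul ⟨x, hx⟩, rfl⟩, ?_⟩⟩
  · rw [hc]
    exact hk u v
  · rintro ⟨m, rfl⟩
    exact (Additive.toMul m : C0 e).2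

/-! ## the consequences -/

/-- **`c (J, J) = 0`** -/
theorem jj_mul (h k a b : G) : ⁅cj e a, cj e b⁆ * ⁅cj e (h * h * a), cj e b⁆ * ⁅cj e a, cj e (k * k * b)⁆ *
    ⁅cj e (h * h * a), cj e (k * k * b)⁆ = 1 := by
  obtain ⟨M, _, _, act, c, val, E, inj, vz, va, vc, vact, _⟩ := H.exists_form
  have h1 := E.jj ⟨h, rfl⟩ ⟨k, rfl⟩ (MonoidAlgebra.of (ZMod 2) G a) (MonoidAlgebra.of (ZMod 2) G b)
  rw [← mul_assoc, ← mul_assoc, ← sqdec E.two, ← sqdec E.two, add_mul, add_mul, one_mul, one_mul, ← map_mul,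
    ← map_mul] at h1
  simp only [map_add, AddMonoidHom.add_apply] at h1
  have h2 := congrArg val h1
  rw [va, va, va, vz, vc, vc, vc, vc] at h2
  rw [← h2]
  simp only [mul_assoc]

/-- **`c (J ^ 2, G) = 0`** -/
theorem j2_mul (h k a b : G) : ⁅cj e a, cj e b⁆ * ⁅cj e (h * h * a), cj e b⁆ * ⁅cj e (k * k * a), cj e b⁆ *
    ⁅cj e (k * k * (h * h * a)), cj e b⁆ = 1 := by
  obtain ⟨M, _, _, act, c, val, E, inj, vz, va, vc, vact, _⟩ := H.exists_form
  have h1 := E.j2 ⟨h, rfl⟩ ⟨k, rfl⟩ (MonoidAlgebra.of (ZMod 2) G a) (MonoidAlgebra.of (ZMod 2) G b)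
  rw [← mul_assoc (1 + (MonoidAlgebra.of (ZMod 2) G) h), ← sqdec E.two, ← mul_assoc (1 + (MonoidAlgebra.of (ZMod 2) G) k),
    ← sqdec E.two, add_mul _ _ ((MonoidAlgebra.of (ZMod 2) G) a), one_mul, ← map_mul, add_mul, one_mul, mul_add,
    ← map_mul, ← map_mul] at h1
  simp only [map_add, AddMonoidHom.add_apply, add_assoc] at h1
  have h2 := congrArg val h1
  rw [va, va, va, vz, vc, vc, vc, vc] at h2
  rw [← h2]
  simp only [mul_assoc]

/-- **squares commute with the letters** -/
theorem xy2_mul (g k : G) : ⁅cj e (g * (k * k)), e⁆ = ⁅cj e (k * k * g), e⁆ := by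
  obtain ⟨M, _, _, act, c, val, E, inj, vz, va, vc, vact, _⟩ := H.exists_form
  have h1 := E.xy2 ⟨k, rfl⟩ g
  rw [← sqdec E.two, ← mul_assoc, ← sqdec E.two, mul_add, add_mul, one_mul, mul_one, ← map_mul, ← map_mul, map_add,
    map_add, AddMonoidHom.add_apply, AddMonoidHom.add_apply] at h1
  have h2 := congrArg val (add_left_cancel h1)
  have h3 := vc (g * (k * k)) 1
  have h4 := vc (k * k * g) 1
  rw [map_one] at h3 h4
  rw [h3, h4] at h2
  have e1 : cj e 1 = e := by
    unfold cj
    rw [one_mul, inv_one, mul_one]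
  rwa [e1] at h2

end EHyp

end E4.YE
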