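import Pool.Agent.Lib.MP_8a95e3_al.Defs

/-!
# YQ1 (helper90) : the linear core of `[S_x, N, N] ≤ [S_x, S_x]`

`ρ : G →* AddMonoid.End M`, `M` of exponent 2, `Dn a m = a m + m`, `U m a b = Dn b (Dn a m)`, the values of `U` are
`G`-invariant for `a, b` in the normal subgroup `N` generated by a class `C` with `U m n n = 0` for `n` in `C`.
-/

namespace E4.YQ

variable {G M : Type*} [Group G] [AddCommGroup M]

/-- `Dn a m = a m + m` -/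
def Dn (ρ : G →* AddMonoid.End M) (a : G) (m : M) : M := ρ a m + m

/-- `U m a b = (b + 1) (a + 1) m` -/
def U (ρ : G →* AddMonoid.End M) (m : M) (a b : G) : M := Dn ρ b (Dn ρ a m)

/-- the hypotheses -/
structure Hyp (ρ : G →* AddMonoid.End M) (N : Subgroup G) : Prop where
  h4 : ∀ g : G, g ^ 4 = 1
  tw : ∀ m : M, m + m = 0
  cub : ∀ (h : G) (m : M), m + ρ h m + ρ h (ρ h m) + ρ h (ρ h (ρ h m)) = 0
  nor : ∀ g : G, ∀ a ∈ N, g * a * g⁻¹ ∈ N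
  inv : ∀ g : G, ∀ a ∈ N, ∀ b ∈ N, ∀ m : M, ρ g (U ρ m a b) = U ρ m a b

variable {ρ : G →* AddMonoid.End M} {N : Subgroup G}

theorem rmul (a b : G) (m : M) : ρ (a * b) m = ρ a (ρ b m) := by
  rw [map_mul]
  rfl

theorem Dn_add (a : G) (m m' : M) : Dn ρ a (m + m') = Dn ρ a m + Dn ρ a m' := by
  unfold Dn
  rw [map_add]
  abel

theorem Dn_zero (a : G) : Dn ρ a (0 : M) = 0 := by
  unfold Dn
  rw [map_zero, add_zero]

theorem U_add (m m' : M) (a b : G) : U ρ (m + m') a b = U ρ m a b + U ρ m' a b := by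
  unfold U
  rw [Dn_add, Dn_add]

theorem U_zero (a b : G) : U ρ (0 : M) a b = 0 := by
  unfold U
  rw [Dn_zero, Dn_zero]

theorem Hyp.Dn_mul (H : Hyp ρ N) (a b : G) (m : M) :
    Dn ρ (a * b) m = Dn ρ a m + Dn ρ b m + U ρ m b a := by
  unfold U Dn
  rw [rmul, map_add]
  have := H.tw m
  have h2 := H.tw (ρ a m)
  have h3 := H.tw (ρ b m)
  linear_combination (norm := abel) - this - h2 - h3

theorem Hyp.kill (H : Hyp ρ N) {a b : G} (g : G) (ha : a ∈ N) (hb : b ∈ N) (m : M) :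
    Dn ρ g (U ρ m a b) = 0 := by
  unfold Dn
  rw [H.inv g a ha b hb]
  exact H.tw _

theorem Hyp.U_right (H : Hyp ρ N) {a b' : G} (b : G) (ha : a ∈ N) (hb' : b' ∈ N) (m : M) :
    U ρ m a (b * b') = U ρ m a b + U ρ m a b' := by
  have h1 : U ρ m a (b * b') = Dn ρ (b * b') (Dn ρ a m) := rfl
  have h2 : U ρ (Dn ρ a m) b' b = Dn ρ b (U ρ m a b') := rfl
  rw [h1, H.Dn_mul, h2, H.kill b ha hb', add_zero]
  rfl

theorem Hyp.U_mid (H : Hyp ρ N) {a a' b : G} (ha : a ∈ N) (ha' : a' ∈ N) (m : M) :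
    U ρ m (a * a') b = U ρ m a b + U ρ m a' b := by
  have h1 : U ρ m (a * a') b = Dn ρ b (Dn ρ (a * a') m) := rfl
  rw [h1, H.Dn_mul, Dn_add, Dn_add, H.kill b ha' ha, add_zero]
  rfl

theorem U_one_mid (H : Hyp ρ N) (m : M) (b : G) : U ρ m 1 b = 0 := by
  have h1 : U ρ m 1 b = Dn ρ b (Dn ρ 1 m) := rfl
  have h2 : Dn ρ 1 m = 0 := by
    unfold Dn
    rw [map_one]
    exact H.tw m
  rw [h1, h2, Dn_zero]

theorem U_one_right (H : Hyp ρ N) (m : M) (a : G) : U ρ m a 1 = 0 := by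
  have h1 : U ρ m a 1 = Dn ρ 1 (Dn ρ a m) := rfl
  rw [h1]
  unfold Dn
  rw [map_one]
  exact H.tw _

/-- invariance -/
theorem Hyp.U_inv (H : Hyp ρ N) {a b : G} (ha : a ∈ N) (hb : b ∈ N) (g : G) (m : M) :
    U ρ (ρ g m) (g * a * g⁻¹) (g * b * g⁻¹) = U ρ m a b := by
  have key : ∀ (c : G) (m' : M), Dn ρ (g * c * g⁻¹) (ρ g m') = ρ g (Dn ρ c m') := by
    intro c m'
    unfold Dn
    rw [map_add, ← rmul, inv_mul_cancel_right, rmul]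
  have h1 : U ρ (ρ g m) (g * a * g⁻¹) (g * b * g⁻¹) = Dn ρ (g * b * g⁻¹) (Dn ρ (g * a * g⁻¹) (ρ g m)) := rfl
  rw [h1, key, key]
  exact H.inv g a ha b hb m

/-- the cubic law of `n h` minus the cubic law of `h` -/
theorem Hyp.E1 (H : Hyp ρ N) (n h : G) (m : M) :
    Dn ρ n (ρ h m) + Dn ρ (n * (h * n * h⁻¹)) (ρ h (ρ h m)) +
      Dn ρ (n * (h * n * h⁻¹) * (h * (h * n * h⁻¹) * h⁻¹)) (ρ h (ρ h (ρ h m))) = 0 := by
  have h1 := H.cub (n * h) m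
  have h0 := H.cub h m
  have e1 : ρ (n * h) m = ρ n (ρ h m) := by rw [map_mul]; rfl
  have e2 : ρ (n * h) (ρ (n * h) m) = ρ (n * (h * n * h⁻¹)) (ρ h (ρ h m)) := by
    simp only [← rmul]
    congr 2
    group
  have e3 : ρ (n * h) (ρ (n * h) (ρ (n * h) m)) =
      ρ (n * (h * n * h⁻¹) * (h * (h * n * h⁻¹) * h⁻¹)) (ρ h (ρ h (ρ h m))) := by
    simp only [← rmul]
    congr 2
    group
  rw [e3, e2, e1] at h1
  unfold Dn
  have t := H.tw m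
  linear_combination (norm := abel) h1 + h0 - t

/-- law (L0): the cubic law of `n h` multiplied by `m + 1` -/
theorem Hyp.L0 (H : Hyp ρ N) {n m : G} (hn : n ∈ N) (h : G) (s : M) :
    U ρ (ρ h s) n m + (U ρ (ρ h (ρ h s)) n m + U ρ (ρ h (ρ h s)) (h * n * h⁻¹) m) +
      (U ρ (ρ h (ρ h (ρ h s))) n m + U ρ (ρ h (ρ h (ρ h s))) (h * n * h⁻¹) m +
        U ρ (ρ h (ρ h (ρ h s))) (h * (h * n * h⁻¹) * h⁻¹) m) = 0 := by
  have hn1 := H.nor h n hn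
  have hn2 := H.nor h _ hn1
  have e := congrArg (Dn ρ m) (H.E1 n h s)
  rw [Dn_add, Dn_add, Dn_zero] at e
  have u1 : Dn ρ m (Dn ρ (n * (h * n * h⁻¹)) (ρ h (ρ h s))) = U ρ (ρ h (ρ h s)) (n * (h * n * h⁻¹)) m := rfl
  have u2 : Dn ρ m (Dn ρ (n * (h * n * h⁻¹) * (h * (h * n * h⁻¹) * h⁻¹)) (ρ h (ρ h (ρ h s)))) =
    U ρ (ρ h (ρ h (ρ h s))) (n * (h * n * h⁻¹) * (h * (h * n * h⁻¹) * h⁻¹)) m := rfl
  rw [u1, u2, H.U_mid hn hn1, H.U_mid (N.mul_mem hn hn1) hn2, H.U_mid hn hn1] at e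
  exact e

theorem Hyp.hh4 (H : Hyp ρ N) (h : G) : h * h * h * h = 1 := by
  rw [← H.h4 h, pow_succ, pow_succ, pow_succ, pow_one]

/-- cubic law in the middle slot -/
theorem Hyp.cubM (H : Hyp ρ N) {n m : G} (hn : n ∈ N) (h : G) (s : M) :
    U ρ s n m + U ρ s (h * n * h⁻¹) m + U ρ s (h * (h * n * h⁻¹) * h⁻¹) m +
      U ρ s (h * (h * (h * n * h⁻¹) * h⁻¹) * h⁻¹) m = 0 := by
  have hn1 := H.nor h n hn
  have hn2 := H.nor h _ hn1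
  have hn3 := H.nor h _ hn2
  have e : n * (h * n * h⁻¹) * (h * (h * n * h⁻¹) * h⁻¹) * (h * (h * (h * n * h⁻¹) * h⁻¹) * h⁻¹) = 1 := by
    have h1 := H.hh4 (n * h)
    have h2 := H.hh4 h
    calc _ = n * h * (n * h) * (n * h) * (n * h) * (h * h * h * h)⁻¹ := by group
      _ = 1 := by rw [h1, h2]; simp
  rw [← H.U_mid hn hn1, ← H.U_mid (N.mul_mem hn hn1) hn2,
    ← H.U_mid (N.mul_mem (N.mul_mem hn hn1) hn2) hn3, e, U_one_mid H]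

/-- law (L) -/
theorem Hyp.L (H : Hyp ρ N) {n m : G} (hn : n ∈ N) (hm : m ∈ N) (h : G) (s : M) :
    U ρ s n (h * m * h⁻¹) + U ρ (ρ h s) n m + U ρ (ρ h (ρ h s)) n m +
      U ρ (ρ h (ρ h s)) (h * n * h⁻¹) m = 0 := by
  have e0 := H.L0 (m := m) hn h s
  have e1 := H.cubM (m := m) hn h (ρ h (ρ h (ρ h s)))
  have hm1 := H.nor h m hm
  have e2 := H.U_inv hn hm1 (h * h * h) s
  have e3 : h * h * h * (h * m * h⁻¹) * (h * h * h)⁻¹ = m := by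
    have h2 := H.hh4 h
    calc _ = h * h * h * h * m * (h * h * h * h)⁻¹ := by group
      _ = m := by rw [h2]; simp
  have e4 : h * h * h * n * (h * h * h)⁻¹ = h * (h * (h * n * h⁻¹) * h⁻¹) * h⁻¹ := by group
  rw [e3, e4, rmul, rmul] at e2
  have t := H.tw (U ρ s n (h * m * h⁻¹))
  have t2 := H.tw (U ρ (ρ h (ρ h (ρ h s))) n m + U ρ (ρ h (ρ h (ρ h s))) (h * n * h⁻¹) m +
        U ρ (ρ h (ρ h (ρ h s))) (h * (h * n * h⁻¹) * h⁻¹) m)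
  linear_combination (norm := abel) e0 + e1 - e2 - t2

theorem Hyp.P_aux (H : Hyp ρ N) {a b a1 b1 a2 b2 : G} (ha : a ∈ N) (hb : b ∈ N) (ha1 : a1 ∈ N) (hb1 : b1 ∈ N)
    (ha2 : a2 ∈ N) (hb2 : b2 ∈ N) (t1 t2 s : M)
    (eab : Dn ρ (a * b) t1 + Dn ρ (a * b * (a1 * b1)) t2 + Dn ρ (a * b * (a1 * b1) * (a2 * b2)) s = 0)
    (ea : Dn ρ a t1 + Dn ρ (a * a1) t2 + Dn ρ (a * a1 * a2) s = 0)
    (eb : Dn ρ b t1 + Dn ρ (b * b1) t2 + Dn ρ (b * b1 * b2) s = 0)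
    (i1 : U ρ t2 b1 a1 = U ρ t1 b a) (i2 : U ρ s b1 a1 = U ρ t2 b a) (i3 : U ρ s b2 a2 = U ρ t2 b1 a1)
    (i4 : U ρ s b2 a1 = U ρ t2 b1 a) (i5 : U ρ s a2 b1 = U ρ t2 a1 b) :
    U ρ t1 b a + U ρ s b a + U ρ s a2 b + U ρ s a1 b + U ρ s b2 a + U ρ s b1 a = 0 := by
  have hab := N.mul_mem ha hb
  have hab1 := N.mul_mem ha1 hb1
  rw [H.Dn_mul a b t1, H.Dn_mul (a * b) (a1 * b1) t2, H.Dn_mul a b t2, H.Dn_mul a1 b1 t2,
    H.U_mid ha1 hb1, H.U_right a ha1 hb, H.U_right a hb1 hb,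
    H.Dn_mul (a * b * (a1 * b1)) (a2 * b2) s, H.Dn_mul (a * b) (a1 * b1) s, H.Dn_mul a b s, H.Dn_mul a1 b1 s,
    H.Dn_mul a2 b2 s, H.U_mid ha1 hb1, H.U_right a ha1 hb, H.U_right a hb1 hb,
    H.U_mid ha2 hb2, H.U_right (a * b) ha2 hab1, H.U_right (a * b) hb2 hab1,
    H.U_right a ha2 hb, H.U_right a hb2 hb, H.U_right a1 ha2 hb1, H.U_right a1 hb2 hb1] at eab
  rw [H.Dn_mul a a1 t2, H.Dn_mul (a * a1) a2 s, H.Dn_mul a a1 s, H.U_right a ha2 ha1] at ea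
  rw [H.Dn_mul b b1 t2, H.Dn_mul (b * b1) b2 s, H.Dn_mul b b1 s, H.U_right b hb2 hb1] at eb
  rw [i1, i2, i3, i4, i5, i1] at eab
  have w1 := H.tw (Dn ρ a t1)
  have w2 := H.tw (Dn ρ b t1)
  have w3 := H.tw (Dn ρ a t2)
  have w4 := H.tw (Dn ρ b t2)
  have w5 := H.tw (Dn ρ a1 t2)
  have w6 := H.tw (Dn ρ b1 t2)
  have w7 := H.tw (Dn ρ a s)
  have w8 := H.tw (Dn ρ b s)
  have w9 := H.tw (Dn ρ a1 s)
  have w10 := H.tw (Dn ρ b1 s)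
  have w11 := H.tw (Dn ρ a2 s)
  have w12 := H.tw (Dn ρ b2 s)
  have v1 := H.tw (U ρ t1 b a)
  have v2 := H.tw (U ρ t2 b a)
  have v3 := H.tw (U ρ t2 b1 a)
  have v4 := H.tw (U ρ t2 a1 b)
  have v5 := H.tw (U ρ t2 a1 a)
  have v6 := H.tw (U ρ s a1 a)
  have v7 := H.tw (U ρ s a2 a)
  have v8 := H.tw (U ρ s a2 a1)
  have v9 := H.tw (U ρ t2 b1 b)
  have v10 := H.tw (U ρ s b1 b)
  have v11 := H.tw (U ρ s b2 b)
  have v12 := H.tw (U ρ s b2 b1)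
  linear_combination (norm := abel) eab + ea + eb - w1 - w2 - w3 - w4 - w5 - w6 - w7 - w8 - w9 - w10 - w11 - w12 -
    v1 - v2 - v3 - v4 - v5 - v6 - v7 - v8 - v9 - v10 - v11 - v12

/-- law (P): polarisation of the cubic law -/
theorem Hyp.P (H : Hyp ρ N) {a b : G} (ha : a ∈ N) (hb : b ∈ N) (h : G) (s : M) :
    U ρ (ρ h (ρ h s)) b a + U ρ s b a + U ρ s (h * (h * a * h⁻¹) * h⁻¹) b + U ρ s (h * a * h⁻¹) b +
      U ρ s (h * (h * b * h⁻¹) * h⁻¹) a + U ρ s (h * b * h⁻¹) a = 0 := by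
  have ha1 := H.nor h a ha
  have ha2 := H.nor h _ ha1
  have hb1 := H.nor h b hb
  have hb2 := H.nor h _ hb1
  have eab := H.E1 (a * b) h (ρ h s)
  have ea := H.E1 a h (ρ h s)
  have eb := H.E1 b h (ρ h s)
  have c1 : h * (a * b) * h⁻¹ = (h * a * h⁻¹) * (h * b * h⁻¹) := by group
  have c2 : h * ((h * a * h⁻¹) * (h * b * h⁻¹)) * h⁻¹ =
    (h * (h * a * h⁻¹) * h⁻¹) * (h * (h * b * h⁻¹) * h⁻¹) := by group
  have s4 : ρ h (ρ h (ρ h (ρ h s))) = s := by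
    rw [← rmul, ← rmul, ← rmul, H.hh4 h, map_one]
    rfl
  rw [c1, c2, s4] at eab
  rw [s4] at ea eb
  have i1 := H.U_inv hb ha h (ρ h (ρ h s))
  have i2 := H.U_inv hb ha h (ρ h (ρ h (ρ h s)))
  have i3 := H.U_inv hb1 ha1 h (ρ h (ρ h (ρ h s)))
  have i4 := H.U_inv hb1 ha h (ρ h (ρ h (ρ h s)))
  have i5 := H.U_inv ha1 hb h (ρ h (ρ h (ρ h s)))
  rw [s4] at i2 i3 i4 i5
  exact H.P_aux ha hb ha1 hb1 ha2 hb2 _ _ _ eab ea eb i1 i2 i3 i4 i5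

end E4.YQ
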