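import Pool.Agent.Lib.MP_8a95e3_al.YQ1

/-!
# YQ2 (helper90) : the linear core of `[S_x, N, N] ≤ [S_x, S_x]`: `U = 0`
-/

namespace E4.YQ

variable {G M : Type*} [Group G] [AddCommGroup M] {ρ : G →* AddMonoid.End M} {N : Subgroup G}

theorem Hyp.s4 (H : Hyp ρ N) (h : G) (s : M) : ρ h (ρ h (ρ h (ρ h s))) = s := by
  rw [← rmul, ← rmul, ← rmul, H.hh4 h, map_one]
  rfl

/-- law (P') : (P) plus (P) for `h^2` -/
theorem Hyp.P' (H : Hyp ρ N) {a b : G} (ha : a ∈ N) (hb : b ∈ N) (h : G) (s : M) :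
    U ρ (ρ h (ρ h s)) a b + U ρ s a b + (U ρ s (h * a * h⁻¹) b + U ρ s a b) +
      (U ρ s (h * b * h⁻¹) a + U ρ s b a) = 0 := by
  have e1 := H.P hb ha h s
  have e2 := H.P hb ha (h * h) s
  have c1 : h * h * (h * h * a * (h * h)⁻¹) * (h * h)⁻¹ = a := by
    have := H.hh4 h
    calc _ = h * h * h * h * a * (h * h * h * h)⁻¹ := by group
      _ = a := by rw [this]; simp
  have c2 : h * h * (h * h * b * (h * h)⁻¹) * (h * h)⁻¹ = b := by
    have := H.hh4 h
    calc _ = h * h * h * h * b * (h * h * h * h)⁻¹ := by group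
      _ = b := by rw [this]; simp
  have c3 : h * h * a * (h * h)⁻¹ = h * (h * a * h⁻¹) * h⁻¹ := by group
  have c4 : h * h * b * (h * h)⁻¹ = h * (h * b * h⁻¹) * h⁻¹ := by group
  rw [rmul, rmul, H.s4, c1, c2, c3, c4] at e2
  have v1 := H.tw (U ρ s a b)
  have v2 := H.tw (U ρ s (h * (h * a * h⁻¹) * h⁻¹) b)
  have v3 := H.tw (U ρ s (h * (h * b * h⁻¹) * h⁻¹) a)
  linear_combination (norm := abel) e1 + e2 - v1 - v2 - v3

/-- the generating class -/
structure Cls (ρ : G →* AddMonoid.End M) (N : Subgroup G) (C : Set G) (e : G → M) : Prop where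
  sub : C ⊆ N
  conj : ∀ g : G, ∀ n ∈ C, g * n * g⁻¹ ∈ C
  tra : ∀ y ∈ C, ∀ z ∈ C, ∃ h : G, z = h * y * h⁻¹
  gen : N ≤ Subgroup.closure C
  nn : ∀ n ∈ C, ∀ m : M, U ρ m n n = 0
  ey : ∀ n ∈ C, Dn ρ n (e n) = 0
  eg : ∀ g : G, ∀ n ∈ C, ρ g (e n) = e (g * n * g⁻¹)
  span : AddSubgroup.closure (e '' C) = ⊤

variable {C : Set G} {e : G → M}

/-- symmetry on the class -/
theorem Hyp.sym_class (H : Hyp ρ N) (K : Cls ρ N C e) {n : G} (hn : n ∈ C) (h : G) (s : M) :
    U ρ s (h * n * h⁻¹) n = U ρ s n (h * n * h⁻¹) := by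
  have hN := K.sub hn
  have hC1 := K.conj h n hn
  have hN1 := K.sub hC1
  have hC2 := K.conj h _ hC1
  have hN2 := K.sub hC2
  have hC3 := K.conj h _ hC2
  have hN3 := K.sub hC3
  -- (b)
  have b : ∀ s : M, U ρ s n (h * n * h⁻¹) = U ρ (ρ h (ρ h s)) (h * n * h⁻¹) n := by
    intro s
    have l := H.L hN hN h s
    rw [K.nn n hn, K.nn n hn] at l
    have t := H.tw (U ρ (ρ h (ρ h s)) (h * n * h⁻¹) n)
    linear_combination (norm := abel) l - t
  -- (c)
  have c : ∀ s : M, U ρ s (h * (h * n * h⁻¹) * h⁻¹) n = 0 := by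
    intro s
    have p := H.P' hN1 hN h s
    rw [K.nn _ hC1, b s] at p
    have t := H.tw (U ρ (ρ h (ρ h s)) (h * n * h⁻¹) n)
    have t2 := H.tw (U ρ s (h * n * h⁻¹) n)
    linear_combination (norm := abel) p - t - t2
  -- (d)
  have d : ∀ s : M, U ρ s (h * n * h⁻¹) n = U ρ (ρ h (ρ h (ρ h s))) (h * n * h⁻¹) n := by
    intro s
    have q := H.cubM (m := n) hN h s
    rw [K.nn n hn, c s] at q
    have i := H.U_inv hN3 hN h s
    have e4 : h * (h * (h * (h * n * h⁻¹) * h⁻¹) * h⁻¹) * h⁻¹ = n := by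
      have := H.hh4 h
      calc _ = h * h * h * h * n * (h * h * h * h)⁻¹ := by group
        _ = n := by rw [this]; simp
    rw [e4, b] at i
    have t := H.tw (U ρ s (h * (h * (h * n * h⁻¹) * h⁻¹) * h⁻¹) n)
    linear_combination (norm := abel) q - i - t
  -- conclusion
  have d1 : ∀ s : M, U ρ (ρ h s) (h * n * h⁻¹) n = U ρ s (h * n * h⁻¹) n := by
    intro s
    rw [d (ρ h s), H.s4]
  rw [b s, d1, d1]

/-- symmetry -/
theorem Hyp.sym (H : Hyp ρ N) (K : Cls ρ N C e) {a b : G} (ha : a ∈ N) (hb : b ∈ N) (s : M) :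
    U ρ s a b = U ρ s b a := by
  have h1 : ∀ y ∈ C, ∀ z ∈ C, U ρ s y z = U ρ s z y := by
    intro y hy z hz
    obtain ⟨h, rfl⟩ := K.tra y hy z hz
    exact (H.sym_class K hy h s).symm
  have h2 : ∀ a ∈ Subgroup.closure C, ∀ z ∈ C, U ρ s a z = U ρ s z a := by
    intro a ha z hz
    induction ha using Subgroup.closure_induction with
    | mem y hy => exact h1 y hy z hz
    | one => rw [U_one_mid H, U_one_right H]
    | mul u v hu hv ihu ihv =>
      have hu' : u ∈ N := (Subgroup.closure_le N).2 K.sub hu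
      have hv' : v ∈ N := (Subgroup.closure_le N).2 K.sub hv
      rw [H.U_mid hu' hv', H.U_right u (K.sub hz) hv', ihu, ihv]
    | inv u hu ih =>
      have hu' : u ∈ N := (Subgroup.closure_le N).2 K.sub hu
      have e1 := H.U_mid (b := z) hu' (N.inv_mem hu') s
      have e2 := H.U_right (a := z) u (K.sub hz) (N.inv_mem hu') s
      rw [mul_inv_cancel, U_one_mid H, ih] at e1
      rw [mul_inv_cancel, U_one_right H] at e2
      exact add_left_cancel (e1.symm.trans e2)
  have h3 : ∀ b ∈ Subgroup.closure C, U ρ s a b = U ρ s b a := by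
    intro b hb
    induction hb using Subgroup.closure_induction with
    | mem y hy => exact h2 a (K.gen ha) y hy
    | one => rw [U_one_mid H, U_one_right H]
    | mul u v hu hv ihu ihv =>
      have hu' : u ∈ N := (Subgroup.closure_le N).2 K.sub hu
      have hv' : v ∈ N := (Subgroup.closure_le N).2 K.sub hv
      rw [H.U_mid hu' hv', H.U_right u ha hv', ihu, ihv]
    | inv u hu ih =>
      have hu' : u ∈ N := (Subgroup.closure_le N).2 K.sub hu
      have e1 := H.U_mid (b := a) hu' (N.inv_mem hu') s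
      have e2 := H.U_right (a := a) u ha (N.inv_mem hu') s
      rw [mul_inv_cancel, U_one_mid H, ← ih] at e1
      rw [mul_inv_cancel, U_one_right H] at e2
      exact (add_left_cancel (e1.symm.trans e2)).symm
  exact h3 b (K.gen hb)

/-- **the linear core**: `U = 0` -/
theorem Hyp.core (H : Hyp ρ N) (K : Cls ρ N C e) {a b : G} (ha : a ∈ N) (hb : b ∈ N) (s : M) :
    U ρ s a b = 0 := by
  -- (L5)
  have L5 : ∀ (h : G) (s : M), ∀ a ∈ N, ∀ b ∈ N,
      U ρ s a b + U ρ (ρ h s) a b = U ρ s (h * a * h⁻¹) b + U ρ (ρ h (ρ h s)) (h * a * h⁻¹) b := by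
    intro h s a ha b hb
    have ha1 := H.nor h a ha
    have hb1 := H.nor h b hb
    have l := H.L ha hb h s
    have p := H.P' ha hb h s
    rw [H.sym K hb1 ha, H.sym K hb ha] at p
    have v1 := H.tw (U ρ s a b)
    have v2 := H.tw (U ρ s a (h * b * h⁻¹))
    have v3 := H.tw (U ρ (ρ h (ρ h s)) a b)
    have v4 := H.tw (U ρ s (h * a * h⁻¹) b)
    have v5 := H.tw (U ρ (ρ h (ρ h s)) (h * a * h⁻¹) b)
    linear_combination (norm := abel) l + p - v1 - v2 - v3 - v4 - v5
  -- U(sT, a, b) = 0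
  have T0 : ∀ (h : G) (s : M), ∀ a ∈ N, ∀ b ∈ N, U ρ s a b + U ρ (ρ h (ρ h s)) a b = 0 := by
    intro h s a ha b hb
    have l := L5 h (s + ρ h s) a ha b hb
    have e1 : U ρ (s + ρ h s + ρ h (ρ h (s + ρ h s))) (h * a * h⁻¹) b = 0 := by
      have := H.cub h s
      have e2 : s + ρ h s + ρ h (ρ h (s + ρ h s)) = 0 := by
        rw [map_add, map_add]
        linear_combination (norm := abel) this
      rw [e2, U_zero]
    rw [← U_add, ← U_add, e1, map_add] at l
    have e3 : s + ρ h s + (ρ h s + ρ h (ρ h s)) = s + ρ h (ρ h s) := by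
      have t := H.tw (ρ h s)
      linear_combination (norm := abel) t
    rw [e3, U_add] at l
    exact l
  have T1 : ∀ (h : G) (s : M), ∀ a ∈ N, ∀ b ∈ N, U ρ (ρ h s) a b = U ρ s a b := by
    intro h s a ha b hb
    have l := L5 h s a ha b hb
    rw [T0 h s _ (H.nor h a ha) b hb] at l
    have t := H.tw (U ρ s a b)
    linear_combination (norm := abel) l - t
  -- on generators
  have g1 : ∀ y ∈ C, ∀ z ∈ C, ∀ b : G, b ∈ N → U ρ (e y) z b = 0 := by
    intro y hy z hz b hb
    obtain ⟨h, rfl⟩ := K.tra y hy z hz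
    rw [← T1 h _ _ (K.sub hz) b hb, K.eg h y hy]
    unfold U
    rw [K.ey _ hz, Dn_zero]
  have g2 : ∀ z ∈ C, ∀ b : G, b ∈ N → ∀ s : M, U ρ s z b = 0 := by
    intro z hz b hb s
    have hs : s ∈ AddSubgroup.closure (e '' C) := by
      rw [K.span]
      exact AddSubgroup.mem_top s
    induction hs using AddSubgroup.closure_induction with
    | mem y hy =>
      obtain ⟨y, hy, rfl⟩ := hy
      exact g1 y hy z hz b hb
    | zero => exact U_zero _ _
    | add u v _ _ ihu ihv => rw [U_add, ihu, ihv, add_zero]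
    | neg u _ ih =>
      have e1 := U_add (ρ := ρ) u (-u) z b
      rw [add_neg_cancel, U_zero, ih, zero_add] at e1
      exact e1.symm
  have g3 : ∀ a ∈ Subgroup.closure C, ∀ b : G, b ∈ N → ∀ s : M, U ρ s a b = 0 := by
    intro a ha b hb s
    induction ha using Subgroup.closure_induction with
    | mem y hy => exact g2 y hy b hb s
    | one => exact U_one_mid H _ _
    | mul u v hu hv ihu ihv =>
      have hu' : u ∈ N := (Subgroup.closure_le N).2 K.sub hu
      have hv' : v ∈ N := (Subgroup.closure_le N).2 K.sub hv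
      rw [H.U_mid hu' hv', ihu, ihv, add_zero]
    | inv u hu ih =>
      have hu' : u ∈ N := (Subgroup.closure_le N).2 K.sub hu
      have e1 := H.U_mid (b := b) hu' (N.inv_mem hu') s
      rw [mul_inv_cancel, U_one_mid H, ih, zero_add] at e1
      exact e1.symm
  exact g3 a (K.gen ha) b hb s

end E4.YQ
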