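import Pool.Agent.Lib.MP_8a95e3_al.YQ2
import Pool.Agent.Lib.MP_8a95e3_al.San

/-!
# YQ3 (helper90) : `[S, N, N] = 1` if `S = normalClosure {x^2}` is abelian and `[S, N, N]` is central
-/

open scoped commutatorElement

namespace E4.YQ

universe u

variable {G : Type u} [Group G]

/-- the conjugation action on an abelian normal subgroup -/
theorem exists_act {G : Type u} [Group G] (S : Subgroup G) [S.Normal] (hS : ∀ a ∈ S, ∀ b ∈ S, a * b = b * a) :
    ∃ (M : Type u) (_ : AddCommGroup M) (ρ : G →* AddMonoid.End M) (v : M → G),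
      (∀ a b : M, v (a + b) = v a * v b) ∧ (v 0 = 1) ∧ (∀ (g : G) (b : M), v (ρ g b) = g * v b * g⁻¹) ∧
      (∀ a b : M, v a = v b → a = b) ∧ (∀ a : M, v a ∈ S) ∧ ∀ b ∈ S, ∃ m : M, v m = b := by
  let _ : CommGroup S := { (inferInstance : Group S) with
    mul_comm := fun a b => Subtype.ext (hS a.1 a.2 b.1 b.2) }
  refine ⟨Additive S, inferInstance,
    { toFun := fun g => MonoidHom.toAdditive (MulAut.conjNormal g : MulAut S).toMonoidHom
      map_one' := ?_
      map_mul' := ?_ }, fun b => (b.toMul : G), fun _ _ => rfl, rfl, ?_, ?_, ?_, ?_⟩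
  · ext b
    show ((MulAut.conjNormal (1 : G) b.toMul : S) : G) = (b.toMul : G)
    rw [map_one]
    rfl
  · intro g h
    ext b
    show ((MulAut.conjNormal (g * h) b.toMul : S) : G) =
      ((MulAut.conjNormal g (MulAut.conjNormal h b.toMul) : S) : G)
    rw [map_mul]
    rfl
  · intro g b
    exact MulAut.conjNormal_apply g b.toMul
  · intro a b h
    exact Subtype.ext h
  · intro a
    exact a.toMul.2
  · intro b hb
    exact ⟨Additive.ofMul ⟨b, hb⟩, rfl⟩

theorem sq_closure (C : Set G) (h2 : ∀ c ∈ C, c * c = 1)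
    (hc : ∀ a ∈ Subgroup.closure C, ∀ b ∈ Subgroup.closure C, a * b = b * a) :
    ∀ a ∈ Subgroup.closure C, a * a = 1 := by
  intro a ha
  induction ha using Subgroup.closure_induction with
  | mem y hy => exact h2 y hy
  | one => exact mul_one 1
  | mul u v hu hv ihu ihv =>
    calc u * v * (u * v) = u * (v * u) * v := by group
      _ = u * (u * v) * v := by rw [hc v hv u hu]
      _ = (u * u) * (v * v) := by group
      _ = 1 := by rw [ihu, ihv, mul_one]
  | inv u hu ih =>
    rw [← mul_inv_rev, ih, inv_one]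

/-- the group form of the linear core -/
theorem core_group (h4 : Exp4 G) (x : G)
    (hS : ∀ a ∈ Subgroup.normalClosure {x ^ 2}, ∀ b ∈ Subgroup.normalClosure {x ^ 2}, a * b = b * a)
    (hK : ∀ g : G, ∀ k ∈ ⁅⁅Subgroup.normalClosure {x ^ 2}, Subgroup.normalClosure {x}⁆,
      Subgroup.normalClosure {x}⁆, g * k * g⁻¹ = k) :
    ∀ m ∈ Subgroup.normalClosure {x ^ 2}, ∀ a ∈ Subgroup.normalClosure {x}, ∀ b ∈ Subgroup.normalClosure {x},
      ⁅b, ⁅a, m⁆⁆ = 1 := by
  classical
  obtain ⟨S, eS⟩ : ∃ S, S = Subgroup.normalClosure {x ^ 2} := ⟨_, rfl⟩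
  obtain ⟨N, eN⟩ : ∃ N, N = Subgroup.normalClosure {x} := ⟨_, rfl⟩
  rw [← eS, ← eN] at hK
  rw [← eS] at hS
  rw [← eS, ← eN]
  have nS : S.Normal := by rw [eS]; infer_instance
  have nN : N.Normal := by rw [eN]; infer_instance
  have hcl : S = Subgroup.closure (Group.conjugatesOfSet {x ^ 2}) := eS
  have hcN : N = Subgroup.closure (Group.conjugatesOfSet {x}) := eN
  have hsq : ∀ a ∈ S, a * a = 1 := by
    intro a ha
    have hS' := hS
    rw [hcl] at ha hS'
    refine sq_closure _ ?_ hS' a ha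
    intro c hc
    rw [Group.mem_conjugatesOfSet_iff] at hc
    obtain ⟨y, hy, hyc⟩ := hc
    rw [Set.mem_singleton_iff] at hy
    subst hy
    obtain ⟨g, rfl⟩ := isConj_iff.1 hyc
    calc g * x ^ 2 * g⁻¹ * (g * x ^ 2 * g⁻¹) = g * x ^ 4 * g⁻¹ := by group
      _ = 1 := by rw [h4 x]; group
  obtain ⟨M, inst, ρ, v, hadd, hzero, hρ, hext, hvS, hex⟩ := exists_act S hS
  have hD : ∀ (a : G) (m : M), v (Dn ρ a m) = ⁅a, v m⁆ := by
    intro a m
    unfold Dn
    rw [hadd, hρ, commutatorElement_def]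
    congr 1
    exact (eq_inv_of_mul_eq_one_left (hsq _ (hvS m)))
  have hU : ∀ (m : M) (a b : G), v (U ρ m a b) = ⁅b, ⁅a, v m⁆⁆ := by
    intro m a b
    unfold U
    rw [hD, hD]
  have H : Hyp ρ N := by
    refine ⟨h4, ?_, ?_, ?_, ?_⟩
    · intro m
      apply hext
      rw [hadd, hzero]
      exact hsq _ (hvS m)
    · intro h m
      apply hext
      rw [hadd, hadd, hadd, hzero]
      simp only [hρ]
      obtain ⟨b, eb⟩ : ∃ b : G, b = v m := ⟨_, rfl⟩
      rw [← eb]
      calc b * (h * b * h⁻¹) * (h * (h * b * h⁻¹) * h⁻¹) * (h * (h * (h * b * h⁻¹) * h⁻¹) * h⁻¹) =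
          (b * h) ^ 4 * (h ^ 4)⁻¹ := by
            simp only [pow_succ, pow_zero, one_mul, mul_inv_rev, mul_assoc, inv_mul_cancel_left, mul_inv_cancel_left]
        _ = 1 := by rw [h4, h4, inv_one, mul_one]
    · intro g a ha
      exact nN.conj_mem a ha g
    · intro g a ha b hb m
      apply hext
      rw [hρ, hU]
      apply hK
      rw [Subgroup.commutator_comm ⁅S, N⁆ N]
      refine Subgroup.commutator_mem_commutator hb ?_
      rw [Subgroup.commutator_comm S N]
      exact Subgroup.commutator_mem_commutator ha (hvS m)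
  obtain ⟨C, eC⟩ : ∃ C : Set G, C = {y | ∃ g : G, y = g * x * g⁻¹} := ⟨_, rfl⟩
  have hCcl : N = Subgroup.closure C := by
    rw [hcN]
    congr 1
    ext y
    rw [Group.mem_conjugatesOfSet_iff, eC]
    constructor
    · rintro ⟨z, hz, hzy⟩
      rw [Set.mem_singleton_iff] at hz
      subst hz
      obtain ⟨g, hg⟩ := isConj_iff.1 hzy
      exact ⟨g, hg.symm⟩
    · rintro ⟨g, hg⟩
      exact ⟨x, rfl, isConj_iff.2 ⟨g, hg.symm⟩⟩
  have hyS : ∀ y ∈ C, y ^ 2 ∈ S := by
    intro y hy
    rw [eC] at hy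
    obtain ⟨g, rfl⟩ := hy
    have h1 : x ^ 2 ∈ S := by
      rw [eS]
      exact Subgroup.subset_normalClosure rfl
    have h2 := nS.conj_mem _ h1 g
    rw [conj_pow]
    exact h2
  obtain ⟨e, he⟩ : ∃ e : G → M, ∀ y ∈ C, v (e y) = y ^ 2 := by
    have : ∀ y : G, ∃ m : M, y ∈ C → v m = y ^ 2 := by
      intro y
      by_cases hy : y ∈ C
      · obtain ⟨m, hm⟩ := hex _ (hyS y hy)
        exact ⟨m, fun _ => hm⟩
      · exact ⟨0, fun h => absurd h hy⟩
    choose e he using this
    exact ⟨e, he⟩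
  have K : Cls ρ N C e := by
    have hconj : ∀ g : G, ∀ n ∈ C, g * n * g⁻¹ ∈ C := by
      intro g n hn
      rw [eC] at hn ⊢
      obtain ⟨k, rfl⟩ := hn
      exact ⟨g * k, by group⟩
    refine ⟨?_, hconj, ?_, hCcl.le, ?_, ?_, ?_, ?_⟩
    · rw [hCcl]
      exact Subgroup.subset_closure
    · intro y hy z hz
      rw [eC] at hy hz
      obtain ⟨g, rfl⟩ := hy
      obtain ⟨k, rfl⟩ := hz
      exact ⟨k * g⁻¹, by group⟩
    · intro n hn m
      apply hext
      rw [hU, hzero]
      have h1 : n ^ 2 * v m = v m * n ^ 2 := hS _ (hyS n hn) _ (hvS m)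
      have h2 := hsq _ (hvS m)
      have h3 : (v m)⁻¹ = v m := (eq_inv_of_mul_eq_one_left h2).symm
      obtain ⟨b, eb⟩ : ∃ b : G, b = v m := ⟨_, rfl⟩
      rw [← eb] at h1 h2 h3 ⊢
      rw [commutatorElement_def, commutatorElement_def]
      rw [pow_two] at h1
      calc n * (n * b * n⁻¹ * b⁻¹) * n⁻¹ * (n * b * n⁻¹ * b⁻¹)⁻¹ =
          (n * n * b) * n⁻¹ * b⁻¹ * n⁻¹ * b * n * b⁻¹ * n⁻¹ := by group
        _ = (b * (n * n)) * n⁻¹ * b * n⁻¹ * b * n * b * n⁻¹ := by rw [h1, h3]
        _ = b * (n * b * n⁻¹) * (b * (n * b * n⁻¹)) := by group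
        _ = b * b * ((n * b * n⁻¹) * (n * b * n⁻¹)) := by
            have hb : b ∈ S := by rw [eb]; exact (hvS m)
            have hb2 : n * b * n⁻¹ ∈ S := nS.conj_mem _ hb n
            calc _ = b * ((n * b * n⁻¹) * b) * (n * b * n⁻¹) := by group
              _ = b * (b * (n * b * n⁻¹)) * (n * b * n⁻¹) := by rw [hS _ hb2 _ hb]
              _ = _ := by group
        _ = 1 := by
            have : (n * b * n⁻¹) * (n * b * n⁻¹) = n * (b * b) * n⁻¹ := by group
            rw [this, h2, mul_one, mul_inv_cancel, mul_one]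
    · intro n hn
      apply hext
      rw [hD, he n hn, hzero, commutatorElement_def]
      group
    · intro g n hn
      apply hext
      rw [hρ, he n hn, he _ (hconj g n hn), conj_pow]
    · rw [eq_top_iff]
      rintro m -
      have key : ∀ b : G, b ∈ Subgroup.closure (Group.conjugatesOfSet {x ^ 2}) →
          ∀ m : M, v m = b → m ∈ AddSubgroup.closure (e '' C) := by
        intro b hb
        induction hb using Subgroup.closure_induction with
        | mem y hy =>
          intro m hm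
          rw [Group.mem_conjugatesOfSet_iff] at hy
          obtain ⟨z, hz, hzy⟩ := hy
          rw [Set.mem_singleton_iff] at hz
          subst hz
          obtain ⟨g, hg⟩ := isConj_iff.1 hzy
          have hC : g * x * g⁻¹ ∈ C := by
            rw [eC]
            exact ⟨g, rfl⟩
          refine AddSubgroup.subset_closure ⟨g * x * g⁻¹, hC, ?_⟩
          apply hext
          rw [he _ hC, hm, ← hg, conj_pow]
        | one =>
          intro m hm
          have : m = 0 := hext _ _ (by rw [hzero]; exact hm)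
          rw [this]
          exact AddSubgroup.zero_mem _
        | mul u w hu hw ihu ihw =>
          intro m hm
          have hu' : u ∈ S := by rw [hcl]; exact hu
          have hw' : w ∈ S := by rw [hcl]; exact hw
          obtain ⟨mu, emu⟩ := hex u hu'
          obtain ⟨mw, emw⟩ := hex w hw'
          have : m = mu + mw := hext _ _ (by rw [hadd, emu, emw, hm])
          rw [this]
          exact AddSubgroup.add_mem _ (ihu mu emu) (ihw mw emw)
        | inv u hu ih =>
          intro m hm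
          have hu' : u ∈ S := by rw [hcl]; exact hu
          apply ih
          rw [hm]
          exact (eq_inv_of_mul_eq_one_left (hsq u hu')).symm
      have hm : v m ∈ Subgroup.closure (Group.conjugatesOfSet {x ^ 2}) := by
        rw [← hcl]
        exact hvS m
      exact key _ hm m rfl
  intro m hm a ha b hb
  obtain ⟨m, rfl⟩ := hex m hm
  rw [← hU, H.core K ha hb m, hzero]

end E4.YQ
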