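import Pool.Agent.Lib.MP_8a95e3_al.YQ3

/-!
# YQ4 (helper90) : `[S_x, N_x, N_x] ≤ [S_x, S_x]` for every element `x` of a group of exponent 4
-/

open scoped commutatorElement

namespace E4.YQ

universe u

variable {G : Type u} [Group G]

theorem map_nc {H : Type u} [Group H] (f : G →* H) (hf : Function.Surjective f) (y : G) :
    (Subgroup.normalClosure {y}).map f = Subgroup.normalClosure {f y} := by
  rw [Subgroup.map_normalClosure _ _ hf, Set.image_singleton]

/-- one step -/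
theorem step (h4 : Exp4 G) (x : G) :
    ⁅⁅Subgroup.normalClosure {x ^ 2}, Subgroup.normalClosure {x}⁆, Subgroup.normalClosure {x}⁆ ≤
      ⁅Subgroup.normalClosure {x ^ 2}, Subgroup.normalClosure {x ^ 2}⁆ ⊔
        ⁅⁅⁅Subgroup.normalClosure {x ^ 2}, Subgroup.normalClosure {x}⁆, Subgroup.normalClosure {x}⁆, ⊤⁆ := by
  obtain ⟨D, eD⟩ : ∃ D, D = ⁅Subgroup.normalClosure {x ^ 2}, Subgroup.normalClosure {x ^ 2}⁆ ⊔
        ⁅⁅⁅Subgroup.normalClosure {x ^ 2}, Subgroup.normalClosure {x}⁆, Subgroup.normalClosure {x}⁆, ⊤⁆ :=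
    ⟨_, rfl⟩
  have nD : D.Normal := by rw [eD]; infer_instance
  have hsurj : Function.Surjective (QuotientGroup.mk' D) := QuotientGroup.mk'_surjective D
  have h4' : Exp4 (G ⧸ D) := by
    intro q
    obtain ⟨g, rfl⟩ := hsurj q
    rw [← map_pow, h4 g, map_one]
  have hker : (QuotientGroup.mk' D).ker = D := QuotientGroup.ker_mk' D
  have eS : (Subgroup.normalClosure {x ^ 2}).map (QuotientGroup.mk' D) =
      Subgroup.normalClosure {(QuotientGroup.mk' D x) ^ 2} := by
    rw [map_nc _ hsurj, map_pow]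
  have eN : (Subgroup.normalClosure {x}).map (QuotientGroup.mk' D) =
      Subgroup.normalClosure {QuotientGroup.mk' D x} := map_nc _ hsurj x
  have hSS : ⁅Subgroup.normalClosure {(QuotientGroup.mk' D x) ^ 2},
      Subgroup.normalClosure {(QuotientGroup.mk' D x) ^ 2}⁆ = ⊥ := by
    rw [← eS, ← Subgroup.map_commutator, Subgroup.map_eq_bot_iff, hker, eD]
    exact le_sup_left
  have hKT : ⁅⁅⁅Subgroup.normalClosure {(QuotientGroup.mk' D x) ^ 2}, Subgroup.normalClosure {QuotientGroup.mk' D x}⁆,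
      Subgroup.normalClosure {QuotientGroup.mk' D x}⁆, (⊤ : Subgroup (G ⧸ D))⁆ = ⊥ := by
    rw [← eS, ← eN, ← Subgroup.map_commutator, ← Subgroup.map_commutator,
      ← Subgroup.map_top_of_surjective _ hsurj, ← Subgroup.map_commutator, Subgroup.map_eq_bot_iff, hker, eD]
    exact le_sup_right
  have main := core_group h4' (QuotientGroup.mk' D x) (by
    intro a ha b hb
    have h1 : ⁅a, b⁆ ∈ (⊥ : Subgroup (G ⧸ D)) := by
      rw [← hSS]
      exact Subgroup.commutator_mem_commutator ha hb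
    rw [Subgroup.mem_bot, commutatorElement_eq_one_iff_mul_comm] at h1
    exact h1) (by
    intro g k hk
    have h1 : ⁅k, g⁆ ∈ (⊥ : Subgroup (G ⧸ D)) := by
      rw [← hKT]
      exact Subgroup.commutator_mem_commutator hk (Subgroup.mem_top g)
    rw [Subgroup.mem_bot, commutatorElement_eq_one_iff_mul_comm] at h1
    rw [← h1, mul_inv_cancel_right])
  rw [← eD, ← hker, ← Subgroup.map_eq_bot_iff, Subgroup.map_commutator, Subgroup.map_commutator, eS, eN,
    Subgroup.commutator_eq_bot_iff_le_centralizer, Subgroup.commutator_le]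
  intro m hm a ha
  rw [Subgroup.mem_centralizer_iff]
  intro b hb
  have h1 := main m hm a ha b hb
  rw [commutatorElement_eq_one_iff_mul_comm] at h1
  have h2 : ⁅m, a⁆ = ⁅a, m⁆⁻¹ := (commutatorElement_inv a m).symm
  rw [h2]
  calc b * ⁅a, m⁆⁻¹ = ⁅a, m⁆⁻¹ * (⁅a, m⁆ * b) * ⁅a, m⁆⁻¹ := by group
    _ = ⁅a, m⁆⁻¹ * (b * ⁅a, m⁆) * ⁅a, m⁆⁻¹ := by rw [h1]
    _ = ⁅a, m⁆⁻¹ * b := by group

/-- in a nilpotent group a normal subgroup `K ≤ D ⊔ ⁅K, ⊤⁆` is contained in `D` -/
theorem nil_le {P : Type u} [Group P] [Group.IsNilpotent P] (K D : Subgroup P) [hD : D.Normal]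
    (h : K ≤ D ⊔ ⁅K, ⊤⁆) : K ≤ D := by
  have key : ∀ n : ℕ, K ≤ D ⊔ (⊤ : Subgroup P).lowerCentralSeries n := by
    intro n
    induction n with
    | zero =>
      rw [Subgroup.lowerCentralSeries_zero]
      exact le_sup_of_le_right le_top
    | succ n ih =>
      refine h.trans (sup_le le_sup_left ?_)
      rw [Subgroup.commutator_le]
      intro k hk g _
      obtain ⟨d, hd, l, hl, rfl⟩ := Subgroup.mem_sup_of_normal_left.1 (ih hk)
      have e1 : ⁅d * l, g⁆ = (d * (⁅l, g⁆ * d⁻¹ * ⁅l, g⁆⁻¹)) * ⁅l, g⁆ * (d * (g * d⁻¹ * g⁻¹)) := by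
        rw [commutatorElement_def, commutatorElement_def]
        group
      rw [e1]
      refine mul_mem (mul_mem ?_ ?_) ?_
      · exact Subgroup.mem_sup_left (mul_mem hd (hD.conj_mem _ (inv_mem hd) _))
      · exact Subgroup.mem_sup_right (by
          rw [Subgroup.lowerCentralSeries_succ]
          exact Subgroup.commutator_mem_commutator hl (Subgroup.mem_top g))
      · exact Subgroup.mem_sup_left (mul_mem hd (hD.conj_mem _ (inv_mem hd) _))
  obtain ⟨n, hn⟩ := Subgroup.nilpotent_iff_lowerCentralSeries.1 (inferInstance : Group.IsNilpotent P)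
  have := key n
  rw [hn, sup_bot_eq] at this
  exact this

theorem isPGroup_of_exp4 {P : Type u} [Group P] (h4 : Exp4 P) : IsPGroup 2 P := by
  intro g
  exact ⟨2, h4 g⟩

/-- `[S_x, N_x, N_x] ≤ [S_x, S_x]` in a finite group of exponent 4 -/
theorem fact2_finite {P : Type u} [Group P] [Finite P] (h4 : Exp4 P) (x : P) :
    ⁅⁅Subgroup.normalClosure {x ^ 2}, Subgroup.normalClosure {x}⁆, Subgroup.normalClosure {x}⁆ ≤
      ⁅Subgroup.normalClosure {x ^ 2}, Subgroup.normalClosure {x ^ 2}⁆ := by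
  have : Group.IsNilpotent P := (isPGroup_of_exp4 h4).isNilpotent
  exact nil_le _ _ (step h4 x)

/-- an element of a normal closure lies in the normal closure inside a finitely generated subgroup -/
theorem mem_local {x y : G} (hy : y ∈ Subgroup.normalClosure {x}) :
    ∃ s : Finset G, ∀ P : Subgroup G, (s : Set G) ⊆ P → ∀ hx : x ∈ P,
      ∃ y' ∈ Subgroup.normalClosure {(⟨x, hx⟩ : P)}, (y' : G) = y := by
  classical
  have hy' : y ∈ Subgroup.closure (Group.conjugatesOfSet {x}) := hy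
  clear hy
  induction hy' using Subgroup.closure_induction with
  | mem y hy =>
    rw [Group.mem_conjugatesOfSet_iff] at hy
    obtain ⟨z, hz, hzy⟩ := hy
    rw [Set.mem_singleton_iff] at hz
    subst hz
    obtain ⟨g, rfl⟩ := isConj_iff.1 hzy
    refine ⟨{g}, fun P hP hx => ?_⟩
    have hg : g ∈ P := hP (by simp)
    have hn : (⟨z, hx⟩ : P) ∈ Subgroup.normalClosure {(⟨z, hx⟩ : P)} :=
      Subgroup.subset_normalClosure (Set.mem_singleton _)
    have hc := (Subgroup.normalClosure_normal (s := {(⟨z, hx⟩ : P)})).conj_mem _ hn ⟨g, hg⟩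
    exact ⟨_, hc, rfl⟩
  | one => exact ⟨∅, fun P _ hx => ⟨1, one_mem _, rfl⟩⟩
  | mul u v _ _ ihu ihv =>
    obtain ⟨s, hs⟩ := ihu
    obtain ⟨t, ht⟩ := ihv
    refine ⟨s ∪ t, fun P hP hx => ?_⟩
    rw [Finset.coe_union] at hP
    obtain ⟨u', hu', rfl⟩ := hs P (Set.subset_union_left.trans hP) hx
    obtain ⟨v', hv', rfl⟩ := ht P (Set.subset_union_right.trans hP) hx
    exact ⟨u' * v', mul_mem hu' hv', rfl⟩
  | inv u _ ihu =>
    obtain ⟨s, hs⟩ := ihu
    refine ⟨s, fun P hP hx => ?_⟩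
    obtain ⟨u', hu', rfl⟩ := hs P hP hx
    exact ⟨u'⁻¹, inv_mem hu', rfl⟩

theorem fact2_elem (h4 : Exp4 G) (x : G) {m a b : G} (hm : m ∈ Subgroup.normalClosure {x ^ 2})
    (ha : a ∈ Subgroup.normalClosure {x}) (hb : b ∈ Subgroup.normalClosure {x}) :
    ⁅⁅m, a⁆, b⁆ ∈ ⁅Subgroup.normalClosure {x ^ 2}, Subgroup.normalClosure {x ^ 2}⁆ := by
  classical
  obtain ⟨s1, h1⟩ := mem_local hm
  obtain ⟨s2, h2⟩ := mem_local ha
  obtain ⟨s3, h3⟩ := mem_local hb
  obtain ⟨P, eP⟩ : ∃ P, P = Subgroup.closure ((s1 ∪ s2 ∪ s3 ∪ {x} : Finset G) : Set G) := ⟨_, rfl⟩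
  have hfin : Finite P := by
    rw [eP]
    exact sanov h4 _
  have hsub : ((s1 ∪ s2 ∪ s3 ∪ {x} : Finset G) : Set G) ⊆ P := by
    rw [eP]
    exact Subgroup.subset_closure
  have hx : x ∈ P := hsub (by simp)
  have hx2 : x ^ 2 ∈ P := P.pow_mem hx 2
  obtain ⟨m', hm', rfl⟩ := h1 P (fun y hy => hsub (by
    have : y ∈ s1 := hy
    simp [this])) hx2
  obtain ⟨a', ha', rfl⟩ := h2 P (fun y hy => hsub (by
    have : y ∈ s2 := hy
    simp [this])) hx
  obtain ⟨b', hb', rfl⟩ := h3 P (fun y hy => hsub (by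
    have : y ∈ s3 := hy
    simp [this])) hx
  have h4P : Exp4 P := fun g => Subtype.ext (h4 g)
  have e2 : (⟨x ^ 2, hx2⟩ : P) = (⟨x, hx⟩ : P) ^ 2 := rfl
  rw [e2] at hm'
  have main := fact2_finite h4P ⟨x, hx⟩ (Subgroup.commutator_mem_commutator
    (Subgroup.commutator_mem_commutator hm' ha') hb')
  have hmap : (Subgroup.normalClosure {(⟨x, hx⟩ : P) ^ 2}).map P.subtype ≤ Subgroup.normalClosure {x ^ 2} := by
    rw [Subgroup.map_le_iff_le_comap]
    refine Subgroup.normalClosure_le_normal ?_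
    rintro y hy
    rw [Set.mem_singleton_iff] at hy
    subst hy
    exact Subgroup.subset_normalClosure (Set.mem_singleton _)
  have h5 := Subgroup.mem_map_of_mem P.subtype main
  rw [Subgroup.map_commutator] at h5
  have h6 := Subgroup.commutator_mono hmap hmap h5
  rw [map_commutatorElement, map_commutatorElement] at h6
  exact h6

/-- **FACT 2**: `[S_x, N_x, N_x] ≤ [S_x, S_x]` for every element `x` of a group of exponent 4,
`S_x = normalClosure {x^2}`, `N_x = normalClosure {x}` -/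
theorem fact2 (h4 : Exp4 G) (x : G) :
    ⁅⁅Subgroup.normalClosure {x ^ 2}, Subgroup.normalClosure {x}⁆, Subgroup.normalClosure {x}⁆ ≤
      ⁅Subgroup.normalClosure {x ^ 2}, Subgroup.normalClosure {x ^ 2}⁆ := by
  obtain ⟨D, eD⟩ : ∃ D, D = ⁅Subgroup.normalClosure {x ^ 2}, Subgroup.normalClosure {x ^ 2}⁆ := ⟨_, rfl⟩
  have nD : D.Normal := by rw [eD]; infer_instance
  rw [← eD]
  have hker : (QuotientGroup.mk' D).ker = D := QuotientGroup.ker_mk' D
  rw [← hker, ← Subgroup.map_eq_bot_iff, Subgroup.map_commutator,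
    Subgroup.commutator_eq_bot_iff_le_centralizer, Subgroup.map_le_iff_le_comap, Subgroup.commutator_le]
  intro m hm a ha
  rw [Subgroup.mem_comap, Subgroup.mem_centralizer_iff]
  rintro _ ⟨b, hb, rfl⟩
  have h1 := fact2_elem h4 x hm ha hb
  rw [← eD, ← hker, MonoidHom.mem_ker, map_commutatorElement, commutatorElement_eq_one_iff_mul_comm] at h1
  exact h1.symm

end E4.YQ
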