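import Pool.Agent.Lib.MP_8a95e3_al.NY6
import Pool.Agent.Lib.MP_8a95e3_al.YA4
import Pool.Agent.Lib.MP_8a95e3_al.NF6

/-!
# ZA0 : the subgroups of the layers (helper97)

`D2 ≥ S0 ≥ G3 ≥ S1 ≥ F4` : subgroups of the free group which contain the fourth powers.
`NX` = normal closure of the letter `x_0`, `SX` = normal closure of its square.
-/

open scoped commutatorElement

namespace E4.Z

open E4 E4.N

/-- the fourth powers -/
def F4 : Subgroup F := vcl {x 0 ^ 4}

/-- the normal closure of `x_0` -/
def NX : Subgroup F := Subgroup.normalClosure {x 0}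

/-- the normal closure of `x_0 ^ 2` -/
def SX : Subgroup F := Subgroup.normalClosure {x 0 ^ 2}

/-- `S F⁴` -/
def S0 : Subgroup F := SX ⊔ F4

/-- `[S, S] F⁴` -/
def S1 : Subgroup F := ⁅SX, SX⁆ ⊔ F4

/-- `[S, N] F⁴` -/
def G3 : Subgroup F := ⁅SX, NX⁆ ⊔ F4

/-- `[N, N] S F⁴` -/
def D2 : Subgroup F := ⁅NX, NX⁆ ⊔ S0

theorem F4_verb : Verb4 F4 := vcl_verb (Set.mem_singleton _)

theorem F4_le {V : Subgroup F} (hV : Verb4 V) : F4 ≤ V := by
  refine vcl_le hV ?_
  rintro w hw
  rw [Set.mem_singleton_iff.1 hw]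
  exact hV.four _

instance F4_normal : F4.Normal := E4.N.verb_normal F4_verb

instance NX_normal : NX.Normal := Subgroup.normalClosure_normal

instance SX_normal : SX.Normal := Subgroup.normalClosure_normal

instance S0_normal : S0.Normal := by unfold S0; infer_instance

instance S1_normal : S1.Normal := by unfold S1; infer_instance

instance G3_normal : G3.Normal := by unfold G3; infer_instance

instance D2_normal : D2.Normal := by unfold D2; infer_instance

theorem x0_NX : x 0 ∈ NX := Subgroup.subset_normalClosure (Set.mem_singleton _)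

theorem x0_SX : x 0 ^ 2 ∈ SX := Subgroup.subset_normalClosure (Set.mem_singleton _)

theorem SX_le_NX : SX ≤ NX := by
  refine Subgroup.normalClosure_le_normal ?_
  rintro w hw
  rw [Set.mem_singleton_iff.1 hw]
  exact NX.pow_mem x0_NX 2

theorem F4_le_S1 : F4 ≤ S1 := le_sup_right

theorem S1_le_G3 : S1 ≤ G3 := sup_le_sup_right (Subgroup.commutator_mono le_rfl SX_le_NX) _

theorem G3_le_S0 : G3 ≤ S0 := sup_le_sup_right (Subgroup.commutator_le_left _ _) _

theorem S1_le_S0 : S1 ≤ S0 := S1_le_G3.trans G3_le_S0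

theorem S0_le_D2 : S0 ≤ D2 := le_sup_right

theorem SX_le_S0 : SX ≤ S0 := le_sup_left

theorem F4_le_G3 : F4 ≤ G3 := F4_le_S1.trans S1_le_G3

theorem F4_le_S0 : F4 ≤ S0 := le_sup_right

theorem F4_le_D2 : F4 ≤ D2 := F4_le_S0.trans S0_le_D2

theorem pow4 {C : Subgroup F} (h : F4 ≤ C) (w : F) : w ^ 4 ∈ C := h (F4_verb.four w)

/-! ### stability -/

theorem StP_sup {A B : Subgroup F} (hA : StP A) (hB : StP B) : StP (A ⊔ B) := by
  intro φ w hw
  have h : A ⊔ B ≤ (A ⊔ B).comap (pls φ) := sup_le (fun a ha => Subgroup.mem_sup_left (hA φ a ha))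
    (fun b hb => Subgroup.mem_sup_right (hB φ b hb))
  exact h hw

theorem StP_comm {A B : Subgroup F} (hA : StP A) (hB : StP B) : StP ⁅A, B⁆ := by
  intro φ w hw
  have h1 : pls φ w ∈ (⁅A, B⁆ : Subgroup F).map (pls φ) := Subgroup.mem_map_of_mem _ hw
  rw [Subgroup.map_commutator] at h1
  have hA' : A.map (pls φ) ≤ A := by
    rintro _ ⟨a, ha, rfl⟩
    exact hA φ a ha
  have hB' : B.map (pls φ) ≤ B := by
    rintro _ ⟨b, hb, rfl⟩
    exact hB φ b hb
  exact Subgroup.commutator_mono hA' hB' h1

theorem StP_nc {e : F} (he : ∀ φ, pls φ e = e) : StP (Subgroup.normalClosure {e}) := by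
  intro φ w hw
  have h : Subgroup.normalClosure {e} ≤ (Subgroup.normalClosure {e}).comap (pls φ) := by
    refine Subgroup.normalClosure_le_normal ?_
    rintro w hw
    rw [Set.mem_singleton_iff.1 hw]
    show pls φ e ∈ Subgroup.normalClosure {e}
    rw [he]
    exact Subgroup.subset_normalClosure (Set.mem_singleton _)
  exact h hw

theorem StP_verb {V : Subgroup F} (hV : Verb4 V) : StP V := fun _ w hw => hV.endo _ w hw

theorem StP_F4 : StP F4 := StP_verb F4_verb

theorem StP_NX : StP NX := StP_nc pls_zero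

theorem StP_SX : StP SX := StP_nc (fun φ => by rw [map_pow, pls_zero])

theorem StP_S0 : StP S0 := StP_sup StP_SX StP_F4

theorem StP_S1 : StP S1 := StP_sup (StP_comm StP_SX StP_SX) StP_F4

theorem StP_G3 : StP G3 := StP_sup (StP_comm StP_SX StP_NX) StP_F4

theorem StP_D2 : StP D2 := StP_sup (StP_comm StP_NX StP_NX) StP_S0

/-! ### the quotients have exponent four -/

theorem exp4_q {C : Subgroup F} [C.Normal] (h : F4 ≤ C) : Exp4 (F ⧸ C) := by
  intro y
  obtain ⟨w, rfl⟩ := QuotientGroup.mk_surjective y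
  rw [← QuotientGroup.mk_pow, QuotientGroup.eq_one_iff]
  exact pow4 h w

/-- the kernel of `kx` is `NX` -/
theorem mem_NX {w : F} : w ∈ NX ↔ kx w = 1 := by
  constructor
  · intro hw
    have h : NX ≤ kx.ker := by
      refine Subgroup.normalClosure_le_normal ?_
      rintro w hw
      rw [Set.mem_singleton_iff.1 hw]
      show kx (x 0) = 1
      rw [kx_x, if_pos rfl]
    exact h hw
  · intro hw
    have h : ∀ v : F, (QuotientGroup.mk (kx v) : F ⧸ NX) = QuotientGroup.mk v := by
      intro v
      have e : (QuotientGroup.mk' NX).comp kx = QuotientGroup.mk' NX := by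
        refine FreeGroup.ext_hom _ _ fun j => ?_
        show (QuotientGroup.mk (kx (x j)) : F ⧸ NX) = QuotientGroup.mk (x j)
        rw [kx_x]
        split_ifs with h
        · rw [h, QuotientGroup.eq, inv_one, one_mul]
          exact x0_NX
        · rfl
      exact DFunLike.congr_fun e v
    have h1 := h w
    rw [hw, QuotientGroup.eq, inv_one, one_mul] at h1
    exact h1

end E4.Z
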