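import Pool.Agent.Lib.MP_8a95e3_al.ZA0
import Pool.Agent.Lib.MP_8a95e3_al.NY8
import Pool.Agent.Lib.MP_8a95e3_al.YQ4

/-!
# ZA1 : FACT 1, FACT 2 and stability for the subgroups of the layers (helper90)
-/

open scoped commutatorElement

namespace E4.Z

open E4 E4.N

/-! ### stability under all substitutions which fix `x_0` -/

theorem StX_sup {A B : Subgroup F} (hA : StX A) (hB : StX B) : StX (A ⊔ B) := by
  intro θ h0 w hw
  have h : A ⊔ B ≤ (A ⊔ B).comap θ := sup_le (fun a ha => Subgroup.mem_sup_left (hA θ h0 a ha))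
    (fun b hb => Subgroup.mem_sup_right (hB θ h0 b hb))
  exact h hw

theorem StX_comm {A B : Subgroup F} (hA : StX A) (hB : StX B) : StX ⁅A, B⁆ := by
  intro θ h0 w hw
  have h1 : θ w ∈ (⁅A, B⁆ : Subgroup F).map θ := Subgroup.mem_map_of_mem _ hw
  rw [Subgroup.map_commutator] at h1
  have hA' : A.map θ ≤ A := by
    rintro _ ⟨a, ha, rfl⟩
    exact hA θ h0 a ha
  have hB' : B.map θ ≤ B := by
    rintro _ ⟨b, hb, rfl⟩
    exact hB θ h0 b hb
  exact Subgroup.commutator_mono hA' hB' h1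

theorem StX_nc {e : F} (he : ∀ θ : F →* F, θ (x 0) = x 0 → θ e = e) : StX (Subgroup.normalClosure {e}) := by
  intro θ h0 w hw
  have h : Subgroup.normalClosure {e} ≤ (Subgroup.normalClosure {e}).comap θ := by
    refine Subgroup.normalClosure_le_normal ?_
    rintro w hw
    rw [Set.mem_singleton_iff.1 hw]
    show θ e ∈ Subgroup.normalClosure {e}
    rw [he θ h0]
    exact Subgroup.subset_normalClosure (Set.mem_singleton _)
  exact h hw

theorem StX_verb {V : Subgroup F} (hV : Verb4 V) : StX V := fun _ _ w hw => hV.endo _ w hw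

theorem StX_F4 : StX F4 := StX_verb F4_verb

theorem StX_NX : StX NX := StX_nc fun _ h => h

theorem StX_SX : StX SX := StX_nc (fun θ h => by rw [map_pow, h])

theorem StX_S0 : StX S0 := StX_sup StX_SX StX_F4

theorem StX_S1 : StX S1 := StX_sup (StX_comm StX_SX StX_SX) StX_F4

theorem StX_G3 : StX G3 := StX_sup (StX_comm StX_SX StX_NX) StX_F4

theorem StX_D2 : StX D2 := StX_sup (StX_comm StX_NX StX_NX) StX_S0

/-! ### the facts in a quotient -/

/-- everything about `D = [N, N] S` if `S` is abelian -/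
theorem sq_comm {G : Type} [Group G] (h4 : Exp4 G) (y : G)
    (hS : ∀ a ∈ Subgroup.normalClosure {y ^ 2}, ∀ b ∈ Subgroup.normalClosure {y ^ 2}, a * b = b * a) :
    (∀ a ∈ Subgroup.normalClosure {y ^ 2}, a * a = 1) ∧
    lcs (Subgroup.normalClosure {y}) 3 = ⊥ ∧
    (∀ a ∈ ⁅Subgroup.normalClosure {y}, Subgroup.normalClosure {y}⁆,
      ∀ b ∈ ⁅Subgroup.normalClosure {y}, Subgroup.normalClosure {y}⁆, a * b = b * a) ∧
    (∀ a ∈ ⁅Subgroup.normalClosure {y}, Subgroup.normalClosure {y}⁆,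
      ∀ b ∈ Subgroup.normalClosure {y ^ 2}, a * b = b * a) ∧
    (∀ a ∈ ⁅Subgroup.normalClosure {y}, Subgroup.normalClosure {y}⁆, a * a = 1) := by
  obtain ⟨N, eN⟩ : ∃ N, N = Subgroup.normalClosure {y} := ⟨_, rfl⟩
  obtain ⟨S, eS⟩ : ∃ S, S = Subgroup.normalClosure {y ^ 2} := ⟨_, rfl⟩
  have nN : N.Normal := by rw [eN]; infer_instance
  have nS : S.Normal := by rw [eS]; infer_instance
  rw [← eS] at hS ⊢
  rw [← eN]
  have hSS : ⁅S, S⁆ = ⊥ := by
    rw [eq_bot_iff, Subgroup.commutator_le]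
    intro a ha b hb
    rw [Subgroup.mem_bot, commutatorElement_eq_one_iff_mul_comm]
    exact hS a ha b hb
  have hSNN : ⁅⁅S, N⁆, N⁆ = ⊥ := by
    rw [eq_bot_iff, ← hSS, eS, eN]
    exact YQ.fact2 h4 y
  have hl2 : ⁅⁅N, N⁆, N⁆ ≤ ⁅S, N⁆ := by
    rw [eS, eN]
    exact YA.cl2_gen h4 y
  have hl3 : ⁅⁅⁅N, N⁆, N⁆, N⁆ = ⊥ := by
    rw [eq_bot_iff, ← hSNN]
    exact Subgroup.commutator_mono hl2 le_rfl
  have hSsq : ∀ a ∈ S, a * a = 1 := by
    have hcl : S = Subgroup.closure (Set.range (YA.ex (y ^ 2))) := by rw [eS, YA.nc_eq]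
    intro a ha
    have hS' := hS
    rw [hcl] at ha hS'
    refine YQ.sq_closure _ ?_ hS' a ha
    rintro _ ⟨g, rfl⟩
    have : (g * y ^ 2 * g⁻¹) * (g * y ^ 2 * g⁻¹) = g * y ^ 4 * g⁻¹ := by group
    unfold YA.ex
    rw [this, h4 y]
    group
  -- `[N, N]` is abelian
  have hNN : ⁅⁅N, N⁆, ⁅N, N⁆⁆ = ⊥ := by
    refine Subgroup.commutator_commutator_eq_bot_of_rotate ?_ hl3
    rw [Subgroup.commutator_comm N]
    exact hl3
  have hab : ∀ a ∈ ⁅N, N⁆, ∀ b ∈ ⁅N, N⁆, a * b = b * a := by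
    intro a ha b hb
    have h1 : ⁅a, b⁆ ∈ ⁅⁅N, N⁆, ⁅N, N⁆⁆ := Subgroup.commutator_mem_commutator ha hb
    rwa [hNN, Subgroup.mem_bot, commutatorElement_eq_one_iff_mul_comm] at h1
  -- `[N, N]` commutes with `S`
  have hNS : ⁅⁅N, N⁆, S⁆ = ⊥ := by
    refine Subgroup.commutator_commutator_eq_bot_of_rotate ?_ hSNN
    rw [Subgroup.commutator_comm N S]
    exact hSNN
  have hns : ∀ a ∈ ⁅N, N⁆, ∀ b ∈ S, a * b = b * a := by
    intro a ha b hb
    have h1 : ⁅a, b⁆ ∈ ⁅⁅N, N⁆, S⁆ := Subgroup.commutator_mem_commutator ha hb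
    rwa [hNS, Subgroup.mem_bot, commutatorElement_eq_one_iff_mul_comm] at h1
  refine ⟨hSsq, hl3, hab, hns, ?_⟩
  -- the elements of order two of `[N, N]`
  obtain ⟨T, hT⟩ : ∃ T : Subgroup G, ∀ a, a ∈ T ↔ a ∈ ⁅N, N⁆ ∧ a * a = 1 := by
    refine ⟨{ carrier := {a | a ∈ ⁅N, N⁆ ∧ a * a = 1}, mul_mem' := ?_, one_mem' := ⟨one_mem _, mul_one 1⟩, inv_mem' := ?_ },
      fun a => Iff.rfl⟩
    · rintro a b ⟨ha, ha2⟩ ⟨hb, hb2⟩
      refine ⟨mul_mem ha hb, ?_⟩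
      calc a * b * (a * b) = a * (b * a) * b := by group
        _ = a * (a * b) * b := by rw [hab b hb a ha]
        _ = (a * a) * (b * b) := by group
        _ = 1 := by rw [ha2, hb2, mul_one]
    · rintro a ⟨ha, ha2⟩
      refine ⟨inv_mem ha, ?_⟩
      rw [← mul_inv_rev, ha2, inv_one]
  have nT : T.Normal := by
    refine ⟨fun a ha g => ?_⟩
    rw [hT] at ha ⊢
    refine ⟨(inferInstance : (⁅N, N⁆ : Subgroup G).Normal).conj_mem _ ha.1 g, ?_⟩
    calc g * a * g⁻¹ * (g * a * g⁻¹) = g * (a * a) * g⁻¹ := by group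
      _ = 1 := by rw [ha.2]; group
  have hgen : ∀ u v : G, ⁅YA.ex y u, YA.ex y v⁆ ∈ T := by
    intro u v
    have hu : YA.ex y u ∈ N := by rw [eN]; exact YA.ex_mem y u
    have hv : YA.ex y v ∈ N := by rw [eN]; exact YA.ex_mem y v
    have hus : YA.ex y u ^ 2 ∈ S := by
      have e : YA.ex y u ^ 2 = YA.ex (y ^ 2) u := conj_pow
      rw [e, eS]
      exact YA.ex_mem _ u
    have hvs : YA.ex y v ^ 2 ∈ S := by
      have e : YA.ex y v ^ 2 = YA.ex (y ^ 2) v := conj_pow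
      rw [e, eS]
      exact YA.ex_mem _ v
    obtain ⟨p, hp⟩ : ∃ p, p = YA.ex y u := ⟨_, rfl⟩
    obtain ⟨q, hq⟩ : ∃ q, q = YA.ex y v := ⟨_, rfl⟩
    rw [← hp] at hu hus ⊢
    rw [← hq] at hv hvs ⊢
    have hc : ⁅p, q⁆ ∈ ⁅N, N⁆ := Subgroup.commutator_mem_commutator hu hv
    rw [hT]
    refine ⟨hc, ?_⟩
    have hs : q * p ^ 2 * q⁻¹ * q ^ 2 ∈ S := mul_mem (nS.conj_mem _ hus q) hvs
    have e1 : (p * q) * (p * q) = ⁅p, q⁆ * (q * p ^ 2 * q⁻¹ * q ^ 2) := by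
      rw [commutatorElement_def]
      group
    have e2 : (p * q) * (p * q) * ((p * q) * (p * q)) = 1 := by
      rw [← h4 (p * q), pow_succ, pow_succ, pow_succ, pow_one]
      group
    have e3 := hns _ hc _ hs
    have e4 := hSsq _ hs
    obtain ⟨c, ec⟩ : ∃ c, c = ⁅p, q⁆ := ⟨_, rfl⟩
    obtain ⟨s, es⟩ : ∃ s, s = q * p ^ 2 * q⁻¹ * q ^ 2 := ⟨_, rfl⟩
    rw [e1] at e2
    rw [← ec] at e2 e3 ⊢
    rw [← es] at e2 e3 e4
    calc c * c = c * c * (s * s) := by rw [e4, mul_one]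
      _ = c * (c * s) * s := by group
      _ = c * (s * c) * s := by rw [e3]
      _ = c * s * (c * s) := by group
      _ = 1 := e2
  have hNT : ⁅N, N⁆ ≤ T := by
    obtain ⟨π, hπ⟩ : ∃ π : G →* G ⧸ T, π = QuotientGroup.mk' T := ⟨_, rfl⟩
    have hker : ∀ g, π g = 1 ↔ g ∈ T := by
      intro g
      rw [hπ]
      exact QuotientGroup.eq_one_iff g
    have hSc : ∀ a ∈ Set.range (fun u => π (YA.ex y u)), ∀ b ∈ Set.range (fun u => π (YA.ex y u)), a * b = b * a := by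
      rintro _ ⟨u, rfl⟩ _ ⟨v, rfl⟩
      show π (YA.ex y u) * π (YA.ex y v) = π (YA.ex y v) * π (YA.ex y u)
      rw [← commutatorElement_eq_one_iff_mul_comm, ← map_commutatorElement, hker]
      exact hgen u v
    have hmem : ∀ n ∈ N, π n ∈ Subgroup.closure (Set.range (fun u => π (YA.ex y u))) := by
      intro n hn
      have h1 : Subgroup.closure (Set.range (YA.ex y)) ≤ (Subgroup.closure (Set.range (fun u => π (YA.ex y u)))).comap π := by
        rw [Subgroup.closure_le]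
        rintro _ ⟨w, rfl⟩
        exact Subgroup.subset_closure ⟨w, rfl⟩
      have h2 : n ∈ Subgroup.closure (Set.range (YA.ex y)) := by
        rw [← YA.nc_eq, ← eN]
        exact hn
      exact h1 h2
    rw [Subgroup.commutator_le]
    intro a ha b hb
    rw [← hker, map_commutatorElement, commutatorElement_eq_one_iff_mul_comm]
    exact YA.closure_comm hSc _ (hmem a ha) _ (hmem b hb)
  intro a ha
  exact ((hT a).1 (hNT ha)).2

/-! ### transfer to the free group -/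

theorem map_NX {C : Subgroup F} [C.Normal] :
    NX.map (QuotientGroup.mk' C) = Subgroup.normalClosure {QuotientGroup.mk' C (x 0)} :=
  YA.nc_map _ (QuotientGroup.mk'_surjective C) _

theorem map_SX {C : Subgroup F} [C.Normal] :
    SX.map (QuotientGroup.mk' C) = Subgroup.normalClosure {QuotientGroup.mk' C (x 0) ^ 2} := by
  rw [← map_pow]
  exact YA.nc_map _ (QuotientGroup.mk'_surjective C) _

/-- FACT 1 -/
theorem fact1F : ⁅⁅NX, NX⁆, NX⁆ ≤ G3 := by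
  have h := YA.cl2_gen (exp4_q (le_refl F4)) (QuotientGroup.mk' F4 (x 0))
  rw [← map_NX, ← map_SX, ← YA.lcs_map, ← Subgroup.map_commutator, Subgroup.map_le_map_iff,
    QuotientGroup.ker_mk'] at h
  exact h

/-- FACT 2, first form -/
theorem fact2F0 : ⁅⁅SX, NX⁆, NX⁆ ≤ S1 := by
  have h := YQ.fact2 (exp4_q (le_refl F4)) (QuotientGroup.mk' F4 (x 0))
  rw [← map_NX, ← map_SX, ← Subgroup.map_commutator, ← Subgroup.map_commutator, ← Subgroup.map_commutator,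
    Subgroup.map_le_map_iff, QuotientGroup.ker_mk'] at h
  exact h

theorem le_S1 {A : Subgroup F} : A ≤ S1 ↔ A.map (QuotientGroup.mk' S1) = ⊥ := by
  rw [Subgroup.map_eq_bot_iff, QuotientGroup.ker_mk']

theorem mem_S1 {a : F} : a ∈ S1 ↔ QuotientGroup.mk' S1 a = 1 := (QuotientGroup.eq_one_iff a).symm

/-- the quotient `F / S1` : `S` is abelian -/
theorem hS_S1 : ∀ a ∈ Subgroup.normalClosure {QuotientGroup.mk' S1 (x 0) ^ 2},
    ∀ b ∈ Subgroup.normalClosure {QuotientGroup.mk' S1 (x 0) ^ 2}, a * b = b * a := by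
  rw [← map_SX]
  rintro _ ⟨a, ha, rfl⟩ _ ⟨b, hb, rfl⟩
  rw [← commutatorElement_eq_one_iff_mul_comm, ← map_commutatorElement, ← mem_S1]
  exact Subgroup.mem_sup_left (Subgroup.commutator_mem_commutator ha hb)

theorem mk_S0 {s : F} (hs : s ∈ S0) :
    QuotientGroup.mk' S1 s ∈ Subgroup.normalClosure {QuotientGroup.mk' S1 (x 0) ^ 2} := by
  obtain ⟨a, ha, b, hb, rfl⟩ := Subgroup.mem_sup_of_normal_left.1 hs
  rw [map_mul, mem_S1.1 (F4_le_S1 hb), mul_one, ← map_SX]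
  exact ⟨a, ha, rfl⟩

theorem mk_NN {s : F} (hs : s ∈ ⁅NX, NX⁆) :
    QuotientGroup.mk' S1 s ∈ ⁅Subgroup.normalClosure {QuotientGroup.mk' S1 (x 0)},
      Subgroup.normalClosure {QuotientGroup.mk' S1 (x 0)}⁆ := by
  rw [← map_NX, ← Subgroup.map_commutator]
  exact ⟨s, hs, rfl⟩

/-- `γ₄(N) ≤ S1` -/
theorem lcs3F : lcs NX 3 ≤ S1 := by
  have h := (sq_comm (exp4_q F4_le_S1) _ hS_S1).2.1
  rw [← map_NX, ← YA.lcs_map] at h
  exact le_S1.2 h

theorem NN_comm {a b : F} (ha : a ∈ ⁅NX, NX⁆) (hb : b ∈ ⁅NX, NX⁆) : ⁅a, b⁆ ∈ S1 := by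
  rw [mem_S1, map_commutatorElement, commutatorElement_eq_one_iff_mul_comm]
  exact (sq_comm (exp4_q F4_le_S1) _ hS_S1).2.2.1 _ (mk_NN ha) _ (mk_NN hb)

theorem NN_NN : ⁅⁅NX, NX⁆, ⁅NX, NX⁆⁆ ≤ S1 := by
  rw [Subgroup.commutator_le]
  exact fun a ha b hb => NN_comm ha hb

theorem NN_sq {a : F} (ha : a ∈ ⁅NX, NX⁆) : a ^ 2 ∈ S1 := by
  rw [mem_S1, map_pow, sq]
  exact (sq_comm (exp4_q F4_le_S1) _ hS_S1).2.2.2.2 _ (mk_NN ha)

theorem S0_comm {a b : F} (ha : a ∈ S0) (hb : b ∈ S0) : ⁅a, b⁆ ∈ S1 := by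
  rw [mem_S1, map_commutatorElement, commutatorElement_eq_one_iff_mul_comm]
  exact hS_S1 _ (mk_S0 ha) _ (mk_S0 hb)

theorem S0_S0 : ⁅S0, S0⁆ ≤ S1 := by
  rw [Subgroup.commutator_le]
  exact fun a ha b hb => S0_comm ha hb

theorem S0_sq {a : F} (ha : a ∈ S0) : a ^ 2 ∈ S1 := by
  rw [mem_S1, map_pow, sq]
  exact (sq_comm (exp4_q F4_le_S1) _ hS_S1).1 _ (mk_S0 ha)

theorem NN_S0_comm {a b : F} (ha : a ∈ ⁅NX, NX⁆) (hb : b ∈ S0) : ⁅a, b⁆ ∈ S1 := by
  rw [mem_S1, map_commutatorElement, commutatorElement_eq_one_iff_mul_comm]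
  exact (sq_comm (exp4_q F4_le_S1) _ hS_S1).2.2.2.1 _ (mk_NN ha) _ (mk_S0 hb)

/-- FACT 2 -/
theorem fact2F : ⁅G3, NX⁆ ≤ S1 := by
  rw [Subgroup.commutator_le]
  intro g hg n hn
  obtain ⟨a, ha, b, hb, rfl⟩ := Subgroup.mem_sup_of_normal_left.1 hg
  rw [mem_S1, map_commutatorElement, map_mul, mem_S1.1 (F4_le_S1 hb), mul_one, ← map_commutatorElement, ← mem_S1]
  exact fact2F0 (Subgroup.commutator_mem_commutator ha hn)

/-- `D2 / S1` is abelian -/
theorem D2_comm {a b : F} (ha : a ∈ D2) (hb : b ∈ D2) : ⁅a, b⁆ ∈ S1 := by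
  obtain ⟨a1, ha1, a2, ha2, rfl⟩ := Subgroup.mem_sup_of_normal_left.1 ha
  obtain ⟨b1, hb1, b2, hb2, rfl⟩ := Subgroup.mem_sup_of_normal_left.1 hb
  have c1 := NN_comm ha1 hb1
  have c2 := NN_S0_comm ha1 hb2
  have c3 := NN_S0_comm hb1 ha2
  have c4 := S0_comm ha2 hb2
  rw [mem_S1, map_commutatorElement, commutatorElement_eq_one_iff_mul_comm] at c1 c2 c3 c4 ⊢
  rw [map_mul, map_mul]
  have d1 : Commute (QuotientGroup.mk' S1 a1) (QuotientGroup.mk' S1 b1) := c1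
  have d2 : Commute (QuotientGroup.mk' S1 a1) (QuotientGroup.mk' S1 b2) := c2
  have d3 : Commute (QuotientGroup.mk' S1 a2) (QuotientGroup.mk' S1 b1) := (show Commute _ _ from c3).symm
  have d4 : Commute (QuotientGroup.mk' S1 a2) (QuotientGroup.mk' S1 b2) := c4
  exact (Commute.mul_left (d1.mul_right d2) (d3.mul_right d4)).eq

theorem D2_D2 : ⁅D2, D2⁆ ≤ S1 := by
  rw [Subgroup.commutator_le]
  exact fun a ha b hb => D2_comm ha hb

theorem D2_sq {a : F} (ha : a ∈ D2) : a ^ 2 ∈ S1 := by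
  obtain ⟨a1, ha1, a2, ha2, rfl⟩ := Subgroup.mem_sup_of_normal_left.1 ha
  have c1 := NN_sq ha1
  have c2 := S0_sq ha2
  have c3 := NN_S0_comm ha1 ha2
  rw [mem_S1, map_pow] at c1 c2
  rw [mem_S1, map_commutatorElement, commutatorElement_eq_one_iff_mul_comm] at c3
  have d3 : Commute (QuotientGroup.mk' S1 a1) (QuotientGroup.mk' S1 a2) := c3
  rw [mem_S1, map_pow, map_mul, d3.mul_pow, c1, c2, mul_one]

end E4.Z
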