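import Pool.Agent.Lib.MP_8a95e3_al.ZF1
import Pool.Agent.Lib.MP_8a95e3_al.PI8

/-!
# ZF2 : the module of an elementary abelian section of the free group (helper97)
-/

open scoped commutatorElement

noncomputable section

namespace E4.Z

open E4 E4.N E4.X

/-- The section `B/D` as a module over the group ring: `c` is the class, `ev (o g)` the conjugation by `g`. -/
structure FM (B D : Subgroup F) (M : Type) [AddCommGroup M] (e : FB →+* AddMonoid.End M) (c : F → M) : Prop where
  two : ∀ m : M, m + m = 0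
  add : ∀ a ∈ B, ∀ b ∈ B, c (a * b) = c a + c b
  ker : ∀ b ∈ B, c b = 0 ↔ b ∈ D
  conj : ∀ g : F, ∀ b ∈ B, c (g * b * g⁻¹) = e (o g) (c b)
  surj : ∀ m : M, ∃ b ∈ B, c b = m
  k0 : ∀ r ∈ K0, e r = 0

theorem exists_FM (B D : Subgroup F) [B.Normal] [D.Normal] (h4 : F4 ≤ D)
    (hab : ⁅B, B⁆ ≤ D) (h2 : ∀ b ∈ B, b ^ 2 ∈ D) :
    ∃ (M : Type) (_ : AddCommGroup M) (e : FB →+* AddMonoid.End M) (c : F → M), FM B D M e c := by
  obtain ⟨B', hB'⟩ : ∃ B' : Subgroup (F ⧸ D), B' = B.map (QuotientGroup.mk' D) := ⟨_, rfl⟩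
  have hn : B'.Normal := by
    rw [hB']
    exact Subgroup.Normal.map inferInstance _ (QuotientGroup.mk'_surjective D)
  have hmk : ∀ w : F, (QuotientGroup.mk w : F ⧸ D) = 1 ↔ w ∈ D := fun w => QuotientGroup.eq_one_iff w
  have hab' : ∀ a ∈ B', ∀ b ∈ B', a * b = b * a := by
    rw [hB']
    rintro _ ⟨a, ha, rfl⟩ _ ⟨b, hb, rfl⟩
    rw [← commutatorElement_eq_one_iff_mul_comm, ← map_commutatorElement]
    exact (hmk _).2 (hab (Subgroup.commutator_mem_commutator ha hb))
  have h2' : ∀ b ∈ B', b ^ 2 = 1 := by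
    rw [hB']
    rintro _ ⟨b, hb, rfl⟩
    rw [← map_pow]
    exact (hmk _).2 (h2 b hb)
  obtain ⟨M, _, ρ, c, hE⟩ := YA.exists_EM (exp4_q h4) B' hab' h2'
  have hmem : ∀ b ∈ B, (QuotientGroup.mk b : F ⧸ D) ∈ B' := by
    intro b hb
    rw [hB']
    exact ⟨b, hb, rfl⟩
  obtain ⟨ρ', hρ'⟩ : ∃ ρ' : F →* AddMonoid.End M, ∀ g, ρ' g = ρ (QuotientGroup.mk g) :=
    ⟨ρ.comp (QuotientGroup.mk' D), fun g => rfl⟩
  refine ⟨M, inferInstance, evB hE.cub.two ρ', fun w => c (QuotientGroup.mk w), ?_, ?_, ?_, ?_, ?_, ?_⟩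
  · exact hE.two
  · intro a ha b hb
    show c (QuotientGroup.mk (a * b)) = _
    rw [QuotientGroup.mk_mul]
    exact hE.add _ (hmem a ha) _ (hmem b hb)
  · intro b hb
    show c (QuotientGroup.mk b) = 0 ↔ _
    rw [hE.ker _ (hmem b hb), hmk]
  · intro g b hb
    show c (QuotientGroup.mk (g * b * g⁻¹)) = evB hE.cub.two ρ' (o g) (c (QuotientGroup.mk b))
    rw [evB_o, hρ', ← hE.conj _ _ (hmem b hb), QuotientGroup.mk_mul, QuotientGroup.mk_mul, QuotientGroup.mk_inv]
  · intro m
    obtain ⟨b, hb, rfl⟩ := hE.surj m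
    rw [hB'] at hb
    obtain ⟨b, hb, rfl⟩ := hb
    exact ⟨b, hb, rfl⟩
  · intro r hr
    unfold K0 idl at hr
    induction hr using AddSubgroup.closure_induction with
    | mem y hy =>
      obtain ⟨a, b, s, ⟨h, rfl⟩, rfl⟩ := hy
      rw [map_mul, map_mul]
      have e1 : evB hE.cub.two ρ' (C h ^ 3) = 0 := by
        rw [map_pow]
        have e2 : evB hE.cub.two ρ' (C h) = E4.X ρ (QuotientGroup.mk h) := by
          unfold C E4.X
          rw [map_add, map_one, evB_o, hρ']
        rw [e2]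
        exact hE.cub.cube _
      rw [e1, mul_zero, zero_mul]
    | zero => exact map_zero _
    | add a b _ _ ha hb => rw [map_add, ha, hb, add_zero]
    | neg a _ ha => rw [map_neg, ha, neg_zero]

namespace FM

variable {B D : Subgroup F} {M : Type} [AddCommGroup M] {e : FB →+* AddMonoid.End M} {c : F → M}

theorem one (h : FM B D M e c) : c 1 = 0 := (h.ker 1 B.one_mem).2 D.one_mem

theorem neg (h : FM B D M e c) (m : M) : -m = m := neg_eq_of_add_eq_zero_left (h.two m)

theorem inv (h : FM B D M e c) {b : F} (hb : b ∈ B) : c b⁻¹ = c b := by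
  have h1 := h.add b⁻¹ (B.inv_mem hb) b hb
  rw [inv_mul_cancel, h.one] at h1
  rw [← h.neg (c b⁻¹)]
  exact neg_eq_of_add_eq_zero_right h1.symm

theorem eq_iff (h : FM B D M e c) {a b : F} (ha : a ∈ B) (hb : b ∈ B) : c a = c b ↔ a * b⁻¹ ∈ D := by
  rw [← h.ker _ (B.mul_mem ha (B.inv_mem hb)), h.add a ha _ (B.inv_mem hb), h.inv hb]
  constructor
  · intro h1
    rw [h1, h.two]
  · intro h1
    rw [← h.neg (c b)]
    exact eq_neg_of_add_eq_zero_left h1

theorem prod (h : FM B D M e c) (L : List F) (hL : ∀ w ∈ L, w ∈ B) : L.prod ∈ B ∧ c L.prod = (L.map c).sum := by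
  induction L with
  | nil => exact ⟨B.one_mem, h.one⟩
  | cons a L ih =>
    obtain ⟨h1, h2⟩ := ih fun w hw => hL w (List.mem_cons_of_mem _ hw)
    have h3 := hL a List.mem_cons_self
    rw [List.prod_cons, List.map_cons, List.sum_cons]
    exact ⟨B.mul_mem h3 h1, by rw [h.add a h3 _ h1, h2]⟩

/-- class of a product of conjugates of `a` -/
theorem conj_prod (h : FM B D M e c) {a : F} (ha : a ∈ B) [B.Normal] (L : List F) :
    (L.map fun g => g * a * g⁻¹).prod ∈ B ∧
      c (L.map fun g => g * a * g⁻¹).prod = e ((L.map o).sum) (c a) := by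
  induction L with
  | nil =>
    refine ⟨B.one_mem, ?_⟩
    rw [List.map_nil, List.prod_nil, List.map_nil, List.sum_nil, map_zero, h.one]
    rfl
  | cons g L ih =>
    have h3 : g * a * g⁻¹ ∈ B := (inferInstance : B.Normal).conj_mem _ ha g
    rw [List.map_cons, List.prod_cons, List.map_cons, List.sum_cons, map_add]
    refine ⟨B.mul_mem h3 ih.1, ?_⟩
    rw [h.add _ h3 _ ih.1, ih.2, h.conj g a ha]
    rfl

end FM

/-- every element of the normal closure of `a` is a product of conjugates of `a`, modulo `D` if `a² ∈ D` -/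
theorem nc_list {D : Subgroup F} [D.Normal] {a : F} (ha : a ^ 2 ∈ D) {w : F} (hw : w ∈ Subgroup.normalClosure {a}) :
    ∃ L : List F, w * (L.map fun g => g * a * g⁻¹).prod⁻¹ ∈ D := by
  rw [YA.nc_eq] at hw
  obtain ⟨q, hq⟩ : ∃ q : F →* F ⧸ D, q = QuotientGroup.mk' D := ⟨_, rfl⟩
  have hker : ∀ v, q v = 1 ↔ v ∈ D := by
    intro v
    rw [hq]
    exact QuotientGroup.eq_one_iff v
  have key : ∃ L : List F, q w = q (L.map fun g => g * a * g⁻¹).prod := by
    induction hw using Subgroup.closure_induction with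
    | mem y hy =>
      obtain ⟨g, rfl⟩ := hy
      refine ⟨[g], ?_⟩
      rw [List.map_cons, List.map_nil, List.prod_cons, List.prod_nil, mul_one]
      rfl
    | one => exact ⟨[], rfl⟩
    | mul u v _ _ hu hv =>
      obtain ⟨L, hL⟩ := hu
      obtain ⟨L', hL'⟩ := hv
      refine ⟨L ++ L', ?_⟩
      rw [List.map_append, List.prod_append, map_mul, map_mul, hL, hL']
    | inv u _ hu =>
      obtain ⟨L, hL⟩ := hu
      refine ⟨L.reverse, ?_⟩
      rw [map_inv, hL, ← map_inv, List.prod_inv_reverse, List.map_map, List.map_reverse]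
      have h1 : ∀ g, q (g * a * g⁻¹)⁻¹ = q (g * a * g⁻¹) := by
        intro g
        have h2 : q ((g * a * g⁻¹) ^ 2) = 1 := by
          rw [hker, conj_pow]
          exact (inferInstance : D.Normal).conj_mem _ ha g
        rw [map_inv]
        rw [map_pow, sq] at h2
        exact inv_eq_of_mul_eq_one_left h2
      rw [map_list_prod, map_list_prod, List.map_reverse, List.map_reverse, List.map_map, List.map_map]
      congr 2
      exact List.map_congr_left fun g _ => h1 g
  obtain ⟨L, hL⟩ := key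
  refine ⟨L, ?_⟩
  rw [← hker, map_mul, map_inv, hL, mul_inv_cancel]

end E4.Z
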