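import Pool.Agent.Lib.MP_8a95e3_al.ZA1
import Pool.Agent.Lib.MP_8a95e3_al.ZF2
import Pool.Agent.Lib.MP_8a95e3_al.XF
import Pool.Agent.Lib.MP_8a95e3_al.NY8

/-!
# ZC2 : the layer `S0 / G3`: words `(x_0 ^ 2) ^ q`, `q` in the T-ideal generated by `t_2, c_3, c_4` (helper90)
-/

open scoped commutatorElement

noncomputable section

namespace E4.Z

open E4 E4.N E4.X

theorem exists_list (f : FB) : ∃ L : List F, (L.map o).sum = f := by
  refine fb_ind (p := fun f => ∃ L : List F, (L.map o).sum = f) ?_ ?_ ?_ f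
  · intro g
    exact ⟨[g], by simp⟩
  · exact ⟨[], rfl⟩
  · rintro a b ⟨L, rfl⟩ ⟨L', rfl⟩
    exact ⟨L ++ L', by rw [List.map_append, List.sum_append]⟩

theorem sum_map (L : List F) (a b : F) (θ : F →* F) :
    ((L.map fun g => a * θ g * b).map o).sum = o a * eB θ (L.map o).sum * o b := by
  induction L with
  | nil => simp
  | cons g L ih =>
    rw [List.map_cons, List.map_cons, List.sum_cons, ih, List.map_cons, List.sum_cons, map_add, eB_o, mul_add,
      add_mul, map_mul, map_mul]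

/-- the generators -/
def rho (i : Fin 3) : FB :=
  if i = 0 then t2 (x 0) (x 1) else if i = 1 then c3 (x 0) (x 1) (x 2) else c4 (x 0) (x 1) (x 2) (x 3)

theorem rho_RG (i : Fin 3) : rho i ∈ RG := by
  unfold rho RG
  split_ifs
  · exact Or.inl rfl
  · exact Or.inr (Or.inl rfl)
  · exact Or.inr (Or.inr rfl)

theorem RG_rho {r : FB} (hr : r ∈ RG) : ∃ i, rho i = r := by
  rcases hr with rfl | rfl | rfl
  · exact ⟨0, rfl⟩
  · exact ⟨1, rfl⟩
  · exact ⟨2, rfl⟩

/-- a list of group elements with sum `rho i` -/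
def Ls (i : Fin 3) : List F := (exists_list (rho i)).choose

theorem Ls_sum (i : Fin 3) : ((Ls i).map o).sum = rho i := (exists_list (rho i)).choose_spec

/-- the words of the layer -/
def rw3 (i : Fin 3) : F :=
  ((Ls i).map fun g => (x 1 * sh (sh (sh g)) * x 2) * x 0 ^ 2 * (x 1 * sh (sh (sh g)) * x 2)⁻¹).prod

theorem th_rw3 (θ : F →* F) (hθ : θ (x 0) = x 0) (i : Fin 3) :
    θ (rw3 i) = (((Ls i).map fun g => θ (x 1) * (θ.comp (sh.comp (sh.comp sh))) g * θ (x 2)).map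
      fun g => g * x 0 ^ 2 * g⁻¹).prod := by
  unfold rw3
  rw [map_list_prod, List.map_map, List.map_map]
  congr 1
  refine List.map_congr_left fun g _ => ?_
  show θ ((x 1 * sh (sh (sh g)) * x 2) * x 0 ^ 2 * (x 1 * sh (sh (sh g)) * x 2)⁻¹) = _
  rw [map_mul, map_inv, map_mul, map_pow, hθ, map_mul, map_mul]
  rfl

section

variable {M : Type} [AddCommGroup M] {e : FB →+* AddMonoid.End M} {c : F → M}

theorem x0_S0 : x 0 ^ 2 ∈ S0 := SX_le_S0 x0_SX

theorem class_th (h : FM S0 G3 M e c) (θ : F →* F) (hθ : θ (x 0) = x 0) (i : Fin 3) :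
    θ (rw3 i) ∈ S0 ∧ c (θ (rw3 i)) =
      e (o (θ (x 1)) * eB (θ.comp (sh.comp (sh.comp sh))) (rho i) * o (θ (x 2))) (c (x 0 ^ 2)) := by
  rw [th_rw3 θ hθ]
  have h1 := h.conj_prod x0_S0
    ((Ls i).map fun g => θ (x 1) * (θ.comp (sh.comp (sh.comp sh))) g * θ (x 2))
  rw [sum_map, Ls_sum] at h1
  exact h1

end

/-- elements of `N2` act trivially on the T-ideal modulo `K0` -/
theorem jl2 (hG : GenF) {n : F} (hn : n ∈ N2) : ∀ q ∈ PG RG, C n * q ∈ K0 := by
  have hbi : TI K0 := K0_TI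
  unfold N2 at hn
  induction hn using Subgroup.closure_induction with
  | mem y hy =>
    obtain ⟨g, rfl⟩ := hy
    exact fun q hq => hG.jl g hq
  | one =>
    intro q _
    rw [C_one, zero_mul]
    exact zero_mem _
  | mul u v _ _ hu hv =>
    intro q hq
    have e1 : C (u * v) * q = C u * (o v * q) + C v * q := by
      unfold C
      rw [map_mul]
      have := fb_add_self (o v * q)
      linear_combination (norm := noncomm_ring) -this
    rw [e1]
    exact add_mem (hu _ ((PG_TI RG).left (o v) q hq)) (hv q hq)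
  | inv u _ hu =>
    intro q hq
    have e1 : C u⁻¹ * q = o u⁻¹ * (C u * q) := by
      unfold C
      rw [add_mul, add_mul, mul_add, ← mul_assoc, ← map_mul, inv_mul_cancel, map_one, one_mul, add_comm]
    rw [e1]
    exact hbi.left _ _ (hu q hq)

theorem jr2 (hG : GenF) {n : F} (hn : n ∈ N2) : ∀ q ∈ PG RG, q * C n ∈ K0 := by
  have hbi : TI K0 := K0_TI
  unfold N2 at hn
  induction hn using Subgroup.closure_induction with
  | mem y hy =>
    obtain ⟨g, rfl⟩ := hy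
    exact fun q hq => hG.jr g hq
  | one =>
    intro q _
    rw [C_one, mul_zero]
    exact zero_mem _
  | mul u v _ _ hu hv =>
    intro q hq
    have e1 : q * C (u * v) = (q * o u) * C v + q * C u := by
      unfold C
      rw [map_mul]
      have := fb_add_self (q * o u)
      linear_combination (norm := noncomm_ring) -this
    rw [e1]
    exact add_mem (hv _ ((PG_TI RG).right (o u) q hq)) (hu q hq)
  | inv u _ hu =>
    intro q hq
    have e1 : q * C u⁻¹ = (q * C u) * o u⁻¹ := by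
      unfold C
      rw [mul_add, mul_add, add_mul, mul_assoc, ← map_mul, mul_inv_cancel, map_one, mul_one, add_comm]
    rw [e1]
    exact hbi.right _ _ (hu q hq)

/-- change of the multipliers by elements of `N2` -/
theorem mult_diff (hG : GenF) {Q : AddSubgroup FB} (hQ : TI Q) (hKQ : K0 ≤ Q) {a a' b b' : F} (ha : cl a = cl a')
    (hb : cl b = cl b') {q q' : FB} (hq : q + q' ∈ Q) (hq' : q' ∈ PG RG) :
    o a * q * o b + o a' * q' * o b' ∈ Q := by
  have h1 : o a * (q + q') * o b ∈ Q := hQ.right _ _ (hQ.left _ _ hq)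
  have ha2 : a⁻¹ * a' ∈ N2 := mem_N2_of_cl (by rw [cl_mul, cl_inv, ha, neg_add_cancel])
  have hb2 : b' * b⁻¹ ∈ N2 := mem_N2_of_cl (by rw [cl_mul, cl_inv, hb, add_neg_cancel])
  have h2 : o a * (C (a⁻¹ * a') * q') * o b ∈ Q := hQ.right _ _ (hQ.left _ _ (hKQ (jl2 hG ha2 q' hq')))
  have h3 : o a' * (q' * C (b' * b⁻¹)) * o b ∈ Q := hQ.right _ _ (hQ.left _ _ (hKQ (jr2 hG hb2 q' hq')))
  have e2 : o a * (C (a⁻¹ * a') * q') * o b = o a' * q' * o b + o a * q' * o b := by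
    unfold C
    rw [add_mul, mul_add, add_mul, one_mul, ← mul_assoc, ← map_mul, mul_inv_cancel_left]
  have e3 : o a' * (q' * C (b' * b⁻¹)) * o b = o a' * q' * o b' + o a' * q' * o b := by
    unfold C
    rw [mul_add, mul_one, mul_add, add_mul, mul_assoc (o a') (q' * o (b' * b⁻¹)) (o b), mul_assoc q', ← map_mul,
      inv_mul_cancel_right, mul_assoc (o a') q' (o b')]
  rw [e2] at h2
  rw [e3] at h3
  have h4 := add_mem (add_mem h1 h2) h3
  have e4 : o a * (q + q') * o b + (o a' * q' * o b + o a * q' * o b) + (o a' * q' * o b' + o a' * q' * o b) =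
      o a * q * o b + o a' * q' * o b' := by
    have t1 := fb_add_self (o a * q' * o b)
    have t2 := fb_add_self (o a' * q' * o b)
    rw [mul_add, add_mul]
    linear_combination (norm := abel) t1 + t2
  rwa [e4] at h4

/-- products of conjugates of `x_0 ^ 2` -/
def wL (L : List F) : F := (L.map fun g => g * x 0 ^ 2 * g⁻¹).prod

theorem th_wL (θ : F →* F) (hθ : θ (x 0) = x 0) (L : List F) : θ (wL L) = wL (L.map θ) := by
  unfold wL
  rw [map_list_prod, List.map_map, List.map_map]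
  congr 1
  refine List.map_congr_left fun g _ => ?_
  show θ (g * x 0 ^ 2 * g⁻¹) = θ g * x 0 ^ 2 * (θ g)⁻¹
  rw [map_mul, map_mul, map_inv, map_pow, hθ]

theorem sum_th (θ : F →* F) (L : List F) : ((L.map θ).map o).sum = eB θ (L.map o).sum := by
  induction L with
  | nil => simp
  | cons g L ih => rw [List.map_cons, List.map_cons, List.sum_cons, ih, List.map_cons, List.sum_cons, map_add, eB_o]

theorem conj_wL (g : F) (L : List F) : g * wL L * g⁻¹ = wL (L.map fun h => g * h) := by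
  induction L with
  | nil =>
    unfold wL
    simp
  | cons h L ih =>
    have e1 : wL (h :: L) = h * x 0 ^ 2 * h⁻¹ * wL L := by
      unfold wL
      rw [List.map_cons, List.prod_cons]
    have e2 : wL ((h :: L).map fun h => g * h) = g * h * x 0 ^ 2 * (g * h)⁻¹ * wL (L.map fun h => g * h) := by
      unfold wL
      rw [List.map_cons, List.map_cons, List.prod_cons]
    rw [e1, e2, ← ih]
    group

theorem sum_mulL (g : F) (L : List F) : ((L.map fun h => g * h).map o).sum = o g * (L.map o).sum := by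
  induction L with
  | nil => simp
  | cons h L ih =>
    rw [List.map_cons, List.map_cons, List.sum_cons, ih, List.map_cons, List.sum_cons, map_mul, mul_add]

/-- the words `(x_0 ^ 2) ^ q`, `q ∈ Q` -/
def DQ (Q : AddSubgroup FB) : Subgroup F := Subgroup.closure {w | ∃ L : List F, (L.map o).sum ∈ Q ∧ w = wL L}

theorem DQ_conj {Q : AddSubgroup FB} (hQ : TI Q) (g : F) {w : F} (hw : w ∈ DQ Q) : g * w * g⁻¹ ∈ DQ Q := by
  have h : DQ Q ≤ (DQ Q).comap (MulAut.conj g).toMonoidHom := by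
    unfold DQ
    rw [Subgroup.closure_le]
    rintro _ ⟨L, hL, rfl⟩
    show g * wL L * g⁻¹ ∈ Subgroup.closure {w | ∃ L : List F, (L.map o).sum ∈ Q ∧ w = wL L}
    rw [conj_wL]
    refine Subgroup.subset_closure ⟨_, ?_, rfl⟩
    rw [sum_mulL]
    exact hQ.left _ _ hL
  exact h hw

theorem DQ_th {Q : AddSubgroup FB} (hQ : TI Q) (θ : F →* F) (hθ : θ (x 0) = x 0) {w : F} (hw : w ∈ DQ Q) :
    θ w ∈ DQ Q := by
  have h : DQ Q ≤ (DQ Q).comap θ := by
    unfold DQ
    rw [Subgroup.closure_le]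
    rintro _ ⟨L, hL, rfl⟩
    show θ (wL L) ∈ Subgroup.closure {w | ∃ L : List F, (L.map o).sum ∈ Q ∧ w = wL L}
    rw [th_wL θ hθ]
    refine Subgroup.subset_closure ⟨_, ?_, rfl⟩
    rw [sum_th]
    exact hQ.endo _ _ hL
  exact h hw

theorem GD_normal {Q : AddSubgroup FB} (hQ : TI Q) : (G3 ⊔ DQ Q).Normal := by
  refine ⟨fun w hw g => ?_⟩
  have h : G3 ⊔ DQ Q ≤ (G3 ⊔ DQ Q).comap (MulAut.conj g).toMonoidHom := by
    refine sup_le ?_ ?_
    · intro w hw
      exact Subgroup.mem_sup_left (G3_normal.conj_mem w hw g)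
    · intro w hw
      exact Subgroup.mem_sup_right (DQ_conj hQ g hw)
  exact h hw

theorem GD_StP {Q : AddSubgroup FB} (hQ : TI Q) : StP (G3 ⊔ DQ Q) := by
  refine StP_sup StP_G3 ?_
  exact fun φ w hw => DQ_th hQ (pls φ) (pls_zero φ) hw

section

variable {M : Type} [AddCommGroup M] {e : FB →+* AddMonoid.End M} {c : F → M}

/-- elements of `S0` with class in `Q` -/
theorem mem_GD (h : FM S0 G3 M e c) {Q : AddSubgroup FB} {w : F} (hw : w ∈ S0) {q : FB} (hq : q ∈ Q)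
    (hc : c w = e q (c (x 0 ^ 2))) : w ∈ G3 ⊔ DQ Q := by
  obtain ⟨L, hL⟩ := exists_list q
  obtain ⟨h1, h2⟩ := h.conj_prod x0_S0 L
  rw [hL, ← hc] at h2
  have h3 := (h.eq_iff hw h1).1 h2.symm
  have e1 : w = (w * (wL L)⁻¹) * wL L := by rw [inv_mul_cancel_right]
  rw [e1]
  refine mul_mem (Subgroup.mem_sup_left h3) (Subgroup.mem_sup_right (Subgroup.subset_closure ⟨L, ?_, rfl⟩))
  rw [hL]
  exact hq

/-- the difference of two values of a word of the layer -/
theorem diff_th (h : FM S0 G3 M e c) (hG : GenF) {Q : AddSubgroup FB} (hQ : TI Q) (hKQ : K0 ≤ Q) (θ θ' : F →* F)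
    (hθ : θ (x 0) = x 0) (hθ' : θ' (x 0) = x 0) (i : Fin 3) (hcl : ∀ j, cl (θ (x (j + 1))) = cl (θ' (x (j + 1))))
    (hi : ∀ φ ψ : F →* F, (∀ j, cl (φ (x j)) = cl (ψ (x j))) → eB φ (rho i) + eB ψ (rho i) ∈ Q) :
    (θ (rw3 i))⁻¹ * θ' (rw3 i) ∈ G3 ⊔ DQ Q := by
  obtain ⟨h1, h2⟩ := class_th h θ hθ i
  obtain ⟨h3, h4⟩ := class_th h θ' hθ' i
  have h5 : eB (θ.comp (sh.comp (sh.comp sh))) (rho i) + eB (θ'.comp (sh.comp (sh.comp sh))) (rho i) ∈ Q := by
    refine hi _ _ fun j => ?_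
    have e1 : ∀ χ : F →* F, (χ.comp (sh.comp (sh.comp sh))) (x j) = χ (x (j + 2 + 1)) := by
      intro χ
      show χ (sh (sh (sh (x j)))) = _
      rw [sh_x, sh_x, sh_x]
    rw [e1, e1]
    exact hcl (j + 2)
  have h6 := mult_diff hG hQ hKQ (a := θ (x 1)) (a' := θ' (x 1)) (b := θ (x 2)) (b' := θ' (x 2))
    (hcl 0) (hcl 1) h5 (PG_mem (rho_RG i) _)
  refine mem_GD h (mul_mem (inv_mem h1) h3) h6 ?_
  rw [h.add _ (inv_mem h1) _ h3, h.inv h1, h2, h4, map_add]
  rfl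

end

theorem comm_th (θ θ' : F →* F) (i j : Fin 3) (hθ : θ (x 0) = x 0) (hθ' : θ' (x 0) = x 0) :
    θ (rw3 i) * θ' (rw3 j) * (θ (rw3 i))⁻¹ * (θ' (rw3 j))⁻¹ ∈ G3 := by
  obtain ⟨M, _, e, c, h⟩ := exists_FM S0 G3 F4_le_G3 (S0_S0.trans S1_le_G3) (fun b hb => S1_le_G3 (S0_sq hb))
  have h1 := S1_le_G3 (S0_comm (class_th h θ hθ i).1 (class_th h θ' hθ' j).1)
  rwa [commutatorElement_def] at h1

theorem rho01 {i : Fin 3} (hi : i ≠ 2) : rho i ∈ RG2 := by
  fin_cases i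
  · exact Or.inl rfl
  · exact Or.inr rfl
  · exact absurd rfl hi

/-- the group of the words with coefficients in a T-ideal, from its generators -/
theorem DQ_gen {R : Set FB} {D : Subgroup F}
    (hD : ∀ (θ : F →* F) (s : FB), θ (x 0) = x 0 → s ∈ R → ∃ i : Fin 3, rho i = s ∧ θ (rw3 i) ∈ D)
    (L : List F) (hL : (L.map o).sum ∈ PG R) : wL L ∈ G3 ⊔ D := by
  obtain ⟨M, _, e, c, h⟩ := exists_FM S0 G3 F4_le_G3 (S0_S0.trans S1_le_G3) (fun b hb => S1_le_G3 (S0_sq hb))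
  have key : ∀ q ∈ PG R, ∃ d ∈ D, d ∈ S0 ∧ c d = e q (c (x 0 ^ 2)) := by
    intro q hq
    unfold PG idl at hq
    induction hq using AddSubgroup.closure_induction with
    | mem y hy =>
      obtain ⟨a, b, s, hs, rfl⟩ := hy
      rcases hs with ⟨k, rfl⟩ | ⟨φ, s, hs, rfl⟩
      · refine ⟨1, D.one_mem, S0.one_mem, ?_⟩
        rw [h.one]
        have h1 : o a * C k ^ 3 * o b ∈ K0 := K0_TI.right _ _ (K0_TI.left _ _ (K0_TI.cube k))
        rw [h.k0 _ h1]
        rfl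
      · obtain ⟨θ, hθ⟩ : ∃ θ : F →* F, θ (x 0) = x 0 ∧ θ (x 1) = a ∧ θ (x 2) = b ∧ ∀ j, θ (x (j + 3)) = φ (x j) := by
          refine ⟨FreeGroup.lift fun j => if j = 0 then x 0 else if j = 1 then a else if j = 2 then b else φ (x (j - 3)),
            ?_, ?_, ?_, ?_⟩
          · exact FreeGroup.lift_apply_of
          · exact FreeGroup.lift_apply_of
          · exact FreeGroup.lift_apply_of
          · intro j
            exact FreeGroup.lift_apply_of
        obtain ⟨i, rfl, hi⟩ := hD θ s hθ.1 hs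
        obtain ⟨h1, h2⟩ := class_th h θ hθ.1 i
        refine ⟨θ (rw3 i), hi, h1, ?_⟩
        have e1 : θ.comp (sh.comp (sh.comp sh)) = φ := by
          refine FreeGroup.ext_hom _ _ fun j => ?_
          show θ (sh (sh (sh (x j)))) = φ (x j)
          rw [sh_x, sh_x, sh_x, hθ.2.2.2]
        rw [h2, hθ.2.1, hθ.2.2.1, e1]
    | zero =>
      refine ⟨1, D.one_mem, S0.one_mem, ?_⟩
      rw [h.one, map_zero]
      rfl
    | add a b _ _ ha hb =>
      obtain ⟨d, hd, hd0, hdc⟩ := ha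
      obtain ⟨d', hd', hd0', hdc'⟩ := hb
      refine ⟨d * d', mul_mem hd hd', mul_mem hd0 hd0', ?_⟩
      rw [h.add d hd0 d' hd0', hdc, hdc', map_add]
      rfl
    | neg a _ ha =>
      rw [fb_neg]
      exact ha
  obtain ⟨d, hd, hd0, hdc⟩ := key _ hL
  obtain ⟨h1, h2⟩ := h.conj_prod x0_S0 L
  rw [← hdc, h.eq_iff h1 hd0] at h2
  have e1 : wL L = (wL L * d⁻¹) * d := by rw [inv_mul_cancel_right]
  rw [e1]
  exact mul_mem (Subgroup.mem_sup_left h2) (Subgroup.mem_sup_right hd)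

/-- the first half of the layer: `t_2` and `c_3` -/
theorem lacc_c1 (hG : GenF) : LAcc (DQ (PG RG2)) G3 := by
  obtain ⟨M, _, e, c, h⟩ := exists_FM S0 G3 F4_le_G3 (S0_S0.trans S1_le_G3) (fun b hb => S1_le_G3 (S0_sq hb))
  obtain ⟨f, hf⟩ : ∃ f : Fin 2 → Fin 3, f = ![0, 1] := ⟨_, rfl⟩
  have hf2 : ∀ i, f i ≠ 2 := by
    intro i
    rw [hf]
    fin_cases i
    · decide
    · decide
  have h0 := lacc_layerX G3_normal StP_G3 (pow4 F4_le_G3) (fun i => rw3 (f i))
    (fun θ θ' i j hθ hθ' => comm_th θ θ' _ _ hθ hθ') (by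
      intro θ θ' i hθ hθ' hcl
      obtain ⟨h1, h2⟩ := class_th h θ hθ (f i)
      obtain ⟨h3, h4⟩ := class_th h θ' hθ' (f i)
      rw [← h.ker _ (mul_mem (inv_mem h1) h3), h.add _ (inv_mem h1) _ h3, h.inv h1, h2, h4]
      have h5 : eB (θ.comp (sh.comp (sh.comp sh))) (rho (f i)) + eB (θ'.comp (sh.comp (sh.comp sh))) (rho (f i)) ∈
          K0 := by
        refine hG.ins2 (rho01 (hf2 i)) _ _ fun j => ?_
        have e1 : ∀ χ : F →* F, (χ.comp (sh.comp (sh.comp sh))) (x j) = χ (x (j + 2 + 1)) := by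
          intro χ
          show χ (sh (sh (sh (x j)))) = _
          rw [sh_x, sh_x, sh_x]
        rw [e1, e1]
        exact hcl (j + 2)
      have h6 := mult_diff hG K0_TI le_rfl (a := θ (x 1)) (a' := θ' (x 1)) (b := θ (x 2)) (b' := θ' (x 2))
        (hcl 0) (hcl 1) h5 (PG_mem (rho_RG (f i)) _)
      have h7 := h.k0 _ h6
      rw [map_add] at h7
      exact DFunLike.congr_fun h7 (c (x 0 ^ 2)))
  refine lacc_mono ?_ h0
  have h1 : ∀ w, w ∈ {w | ∃ L : List F, (L.map o).sum ∈ PG RG2 ∧ w = wL L} → w ∈ G3 ⊔ Subgroup.closure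
      {w | ∃ (θ : F →* F) (i : Fin 2), θ (x 0) = x 0 ∧ w = θ (rw3 (f i))} := by
    rintro _ ⟨L, hL, rfl⟩
    refine DQ_gen (R := RG2) ?_ L hL
    rintro θ s hθ (rfl | rfl)
    · refine ⟨0, rfl, Subgroup.subset_closure ⟨θ, 0, hθ, ?_⟩⟩
      rw [hf]
      rfl
    · refine ⟨1, rfl, Subgroup.subset_closure ⟨θ, 1, hθ, ?_⟩⟩
      rw [hf]
      rfl
  exact (Subgroup.closure_le _).2 h1

/-- LAYER (c), second half -/
theorem lacc_c (hG : GenF) : ∃ D : Subgroup F, LAcc D G3 ∧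
    ∀ L : List F, (∀ g ∈ L, kx g = g) → (L.map o).sum ∈ PG RG →
      (L.map fun g => g * x 0 ^ 2 * g⁻¹).prod ∈ G3 ⊔ D := by
  obtain ⟨M, _, e, c, h⟩ := exists_FM S0 G3 F4_le_G3 (S0_S0.trans S1_le_G3) (fun b hb => S1_le_G3 (S0_sq hb))
  have hQ : TI (PG RG2) := PG_TI _
  obtain ⟨D, hD⟩ : ∃ D : Subgroup F, D = Subgroup.closure {w | ∃ (θ : F →* F) (i : Fin 1), θ (x 0) = x 0 ∧
    w = θ (rw3 2)} := ⟨_, rfl⟩
  have h2 : LAcc D (G3 ⊔ DQ (PG RG2)) := by
    rw [hD]
    refine lacc_layerX (GD_normal hQ) (GD_StP hQ) (pow4 (F4_le_G3.trans le_sup_left)) (fun _ : Fin 1 => rw3 2)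
      (fun θ θ' i j hθ hθ' => Subgroup.mem_sup_left (comm_th θ θ' _ _ hθ hθ')) ?_
    intro θ θ' i hθ hθ' hcl
    exact diff_th h hG hQ K0_le_RG2 θ θ' hθ hθ' 2 hcl fun φ ψ hφ => hG.ins (rho_RG 2) φ ψ hφ
  refine ⟨(G3 ⊔ DQ (PG RG2)) ⊔ D, ?_, ?_⟩
  · refine lacc_trans (GD_normal hQ) (GD_StP hQ) le_sup_left (lacc_mono (sup_le le_sup_left le_sup_right) h2)
      (lacc_mono (sup_le le_sup_left le_sup_right) (lacc_c1 hG))
  · intro L _ hq
    refine DQ_gen (R := RG) ?_ L hq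
    rintro θ s hθ (rfl | rfl | rfl)
    · refine ⟨0, rfl, Subgroup.mem_sup_left (mem_GD h (class_th h θ hθ 0).1 ?_ (class_th h θ hθ 0).2)⟩
      exact hQ.right _ _ (hQ.left _ _ (PG_mem (rho01 (by decide)) _))
    · refine ⟨1, rfl, Subgroup.mem_sup_left (mem_GD h (class_th h θ hθ 1).1 ?_ (class_th h θ hθ 1).2)⟩
      exact hQ.right _ _ (hQ.left _ _ (PG_mem (rho01 (by decide)) _))
    · refine ⟨2, rfl, Subgroup.mem_sup_right ?_⟩
      rw [hD]
      exact Subgroup.subset_closure ⟨θ, 0, hθ, rfl⟩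

end E4.Z
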