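import Pool.Agent.Lib.MP_8a95e3_al.P.P32
import Pool.Agent.Lib.MP_8a95e3_al.PI8
import Pool.Agent.Lib.MP_8a95e3_al.XG

/-!
# ZE1 : the facts about the model for a maximal T-ideal (helper97)
-/

noncomputable section

namespace E4.Z

open E4 E4.X

theorem A0F_all (P : AddSubgroup FA) (hP : TIdl P) (hPw : ∀ m, wA ofF m ∉ P)
    (hmax : ∀ Q : AddSubgroup FA, TIdl Q → P ≤ Q → (∀ m, wA ofF m ∉ Q) → Q ≤ P) : A0F (mB P) := by
  obtain ⟨V, Z, E, _, _, _, _, _, K, hne, _, hK⟩ := exists_PAlg P hP hPw hmax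
  have h2 : (2 : E) = 0 := by
    have h := congrArg (algebraMap Z E) K.two
    rwa [map_ofNat, map_zero] at h
  have M : E4.P.Md K (evB h2 K.ρ) (mB P) :=
    { o := fun g => evB_o h2 K.ρ g
      ker := fun f => hK (evB h2 K.ρ) (fun g => evB_o h2 K.ρ g) f
      endo := fun φ f hf => (mB_TI hP).endo φ f hf }
  exact E4.P.A0F_of M

end E4.Z
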