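import Pool.Agent.Lib.MP_8a95e3_al.ZA0
import Pool.Agent.Lib.MP_8a95e3_al.X02b
import Pool.Agent.Lib.MP_8a95e3_al.XG

/-!
# ZF1 : the derivative with respect to `x_0` modulo two (helper97)
-/

open scoped commutatorElement

noncomputable section

namespace E4.Z

open E4 E4.N E4.X

/-- the derivative with respect to `x_0`, modulo two -/
def dx (w : F) : FB := tob (fox w 0)

theorem dx_one : dx 1 = 0 := by
  unfold dx
  rw [fox_one, Finsupp.zero_apply, map_zero]

theorem dx_mul (u v : F) : dx (u * v) = dx u + o u * dx v := by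
  unfold dx
  rw [fox_mul, Finsupp.add_apply, map_add]
  have e : (ofF u • fox v) 0 = ofF u * fox v 0 := rfl
  rw [e, map_mul, tob_of]

theorem dx_inv (u : F) : dx u⁻¹ = o u⁻¹ * dx u := by
  have h := dx_mul u⁻¹ u
  rw [inv_mul_cancel, dx_one] at h
  exact (fb_neg (dx u⁻¹)) ▸ (eq_neg_of_add_eq_zero_right h.symm ▸ rfl)

theorem dx_x (j : ℕ) : dx (x j) = if j = 0 then 1 else 0 := by
  unfold dx
  rw [fox_x, Finsupp.single_apply]
  split_ifs
  · exact map_one _
  · exact map_zero _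

theorem dx_x0 : dx (x 0) = 1 := by
  rw [dx_x, if_pos rfl]

theorem dx_sh (w : F) : dx (sh w) = 0 := by
  induction w using FreeGroup.induction_on with
  | C1 => rw [map_one, dx_one]
  | of j =>
    show dx (sh (x j)) = 0
    rw [sh_x, dx_x, if_neg (Nat.succ_ne_zero j)]
  | inv_of j h =>
    rw [map_inv, dx_inv, h, mul_zero]
  | mul a b ha hb => rw [map_mul, dx_mul, ha, hb, mul_zero, add_zero]

theorem o_inv_mul (g : F) : o g⁻¹ * o g = 1 := by
  rw [← map_mul, inv_mul_cancel, map_one]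

theorem o_mul_inv (g : F) : o g * o g⁻¹ = 1 := by
  rw [← map_mul, mul_inv_cancel, map_one]

/-- derivative of a conjugate -/
theorem dx_conj (g a : F) : dx (g * a * g⁻¹) = (1 + o (g * a * g⁻¹)) * dx g + o g * dx a := by
  rw [dx_mul, dx_mul, dx_inv, add_mul, one_mul, map_mul o (g * a) g⁻¹, mul_assoc (o (g * a))]
  abel

/-- derivative of a commutator -/
theorem dx_comm (a b : F) : dx ⁅a, b⁆ = (1 + o (a * b * a⁻¹)) * dx a + (o a + o ⁅a, b⁆) * dx b := by
  rw [commutatorElement_def, dx_mul, dx_inv, dx_mul, dx_mul, dx_inv, add_mul, add_mul, one_mul,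
    map_mul o (a * b) a⁻¹, map_mul o (a * b * a⁻¹) b⁻¹, map_mul o (a * b) a⁻¹]
  simp only [mul_assoc]
  abel

theorem dx_Y {w : F} (hw : w ∈ YK (cB K0) (cB_TIdl K0_TI)) : dx w ∈ K0 := hw 0

/-- the words which are congruent to one modulo `W` -/
def CW (W : AddSubgroup FB) (hW : Bi W) : Subgroup F where
  carrier := {w | o w + 1 ∈ W}
  one_mem' := by
    show o 1 + 1 ∈ W
    rw [map_one, fb_add_self]
    exact W.zero_mem
  mul_mem' := by
    intro a b ha hb
    show o (a * b) + 1 ∈ W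
    have e : o (a * b) + 1 = (o a + 1) * o b + (o b + 1) := by
      have h : (o a + 1) * o b + (o b + 1) = o a * o b + 1 + (o b + o b) := by noncomm_ring
      rw [h, fb_add_self, add_zero, map_mul]
    rw [e]
    exact W.add_mem (hW.mul_right _ ha) hb
  inv_mem' := by
    intro a ha
    show o a⁻¹ + 1 ∈ W
    have e : o a⁻¹ + 1 = o a⁻¹ * (o a + 1) := by
      rw [mul_add, mul_one, o_inv_mul, add_comm]
    rw [e]
    exact hW.mul_left _ ha

theorem mem_CW {W : AddSubgroup FB} {hW : Bi W} {w : F} : w ∈ CW W hW ↔ o w + 1 ∈ W := Iff.rfl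

instance CW_normal (W : AddSubgroup FB) (hW : Bi W) : (CW W hW).Normal := by
  constructor
  intro a ha g
  rw [mem_CW] at ha ⊢
  have e : o (g * a * g⁻¹) + 1 = o g * (o a + 1) * o g⁻¹ := by
    rw [mul_add, mul_one, add_mul, o_mul_inv, map_mul, map_mul]
  rw [e]
  exact hW.mul_right _ (hW.mul_left _ ha)

/-- the words with derivative in `W` -/
def DW (W : AddSubgroup FB) (hW : Bi W) : Subgroup F where
  carrier := {w | dx w ∈ W}
  one_mem' := by
    show dx 1 ∈ W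
    rw [dx_one]
    exact W.zero_mem
  mul_mem' := by
    intro a b ha hb
    show dx (a * b) ∈ W
    rw [dx_mul]
    exact W.add_mem ha (hW.mul_left _ hb)
  inv_mem' := by
    intro a ha
    show dx a⁻¹ ∈ W
    rw [dx_inv]
    exact hW.mul_left _ ha

theorem mem_DW {W : AddSubgroup FB} {hW : Bi W} {w : F} : w ∈ DW W hW ↔ dx w ∈ W := Iff.rfl

theorem K0_bi : Bi K0 := K0_TI.bi

theorem F4_DW {W : AddSubgroup FB} {hW : Bi W} (h : K0 ≤ W) : F4 ≤ DW W hW := fun _ hw =>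
  h (dx_Y (F4_le (YK_verb (cB_TIdl K0_TI)) hw))

theorem F4_CW {W : AddSubgroup FB} {hW : Bi W} (h : K0 ≤ W) : F4 ≤ CW W hW := by
  have h4 : ∀ w : F, w ^ 4 ∈ CW W hW := by
    intro w
    rw [mem_CW]
    have e : o (w ^ 4) + 1 = C w ^ 3 * C w := by
      have h1 : C (w ^ 4) = C w ^ 4 := by
        have h2 : w ^ 4 = (w ^ 2) ^ 2 := by rw [← pow_mul]
        rw [h2, C_sq, C_sq, ← pow_mul]
      have h3 : C w ^ 3 * C w = C w ^ 4 := (pow_succ _ _).symm
      rw [h3, ← h1]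
      rfl
    rw [e]
    exact h (K0_bi.mul_right _ (K0_TI.cube w))
  unfold F4 vcl
  rw [Subgroup.closure_le]
  rintro w ⟨s, hs, φ, rfl⟩
  rw [Set.mem_singleton_iff.1 hs, map_pow]
  exact h4 _

theorem NX_CW : NX ≤ CW (I1 0) (I1_bi 0) := by
  refine Subgroup.normalClosure_le_normal ?_
  rintro w hw
  rw [Set.mem_singleton_iff.1 hw]
  exact sub_idl rfl

theorem SX_CW : SX ≤ CW (I2 0) (I2_bi 0) := by
  refine Subgroup.normalClosure_le_normal ?_
  rintro w hw
  rw [Set.mem_singleton_iff.1 hw]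
  have e : o (x 0 ^ 2) + 1 = Xl 0 * o 1 * Xl 0 := by
    have h1 : C (x 0 ^ 2) = C (x 0) ^ 2 := C_sq _
    have h2 : o (x 0 ^ 2) + 1 = C (x 0 ^ 2) := rfl
    rw [h2, h1, map_one, mul_one, sq]
    rfl
  show o (x 0 ^ 2) + 1 ∈ I2 0
  rw [e]
  exact sub_idl ⟨1, rfl⟩

/-- the class of a commutator -/
theorem o_comm (a b : F) : o ⁅a, b⁆ + 1 = ((o a + 1) * (o b + 1) + (o b + 1) * (o a + 1)) * o (a⁻¹ * b⁻¹) := by
  have e : (o a + 1) * (o b + 1) + (o b + 1) * (o a + 1) = o a * o b + o b * o a + ((o a + o a) + (o b + o b) + (1 + 1)) := by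
    noncomm_ring
  have e1 : (1 : FB) + 1 = 0 := fb_add_self 1
  rw [e, fb_add_self (o a), fb_add_self (o b), e1, add_zero, add_zero, add_zero, add_mul, commutatorElement_def,
    ← map_mul, ← map_mul, ← map_mul, ← map_mul]
  have h1 : a * b * (a⁻¹ * b⁻¹) = a * b * a⁻¹ * b⁻¹ := by group
  have h2 : b * a * (a⁻¹ * b⁻¹) = 1 := by group
  rw [h1, h2, map_one]

theorem G3_CW : G3 ≤ CW (K0 ⊔ I3 0) (K0_bi.sup (I3_bi 0)) := by
  refine sup_le ?_ (F4_CW le_sup_left)
  rw [Subgroup.commutator_le]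
  intro a ha b hb
  rw [mem_CW, o_comm]
  refine AddSubgroup.mem_sup_right ((I3_bi 0).mul_right _ ((I3 0).add_mem ?_ ?_))
  · exact mul_I2_I1 (SX_CW ha) (NX_CW hb)
  · exact mul_I1_I2 (NX_CW hb) (SX_CW ha)

/-- derivative of a conjugate of the square of `x_0` -/
theorem dx_sq (g : F) : dx (g * x 0 ^ 2 * g⁻¹) = o g * Xl 0 + o g * (Xl 0 * o 1 * Xl 0) * o g⁻¹ * dx g := by
  rw [dx_conj]
  have e1 : dx (x 0 ^ 2) = Xl 0 := by
    rw [sq, dx_mul, dx_x0, mul_one, add_comm]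
    rfl
  have e2 : 1 + o (g * x 0 ^ 2 * g⁻¹) = o g * (Xl 0 * o 1 * Xl 0) * o g⁻¹ := by
    have h1 : C (x 0 ^ 2) = Xl 0 * o 1 * Xl 0 := by
      rw [C_sq, map_one, mul_one, sq]
      rfl
    have h2 : o g * C (x 0 ^ 2) * o g⁻¹ = o g * o (x 0 ^ 2) * o g⁻¹ + 1 := by
      unfold C
      rw [mul_add, mul_one, add_mul, o_mul_inv]
    rw [← h1, h2, map_mul, map_mul, add_comm]
  rw [e1, e2, add_comm]

theorem SX_dx (g : F) : dx (g * x 0 ^ 2 * g⁻¹) + o g * Xl 0 ∈ I2 0 := by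
  rw [dx_sq, add_comm (o g * Xl 0), add_assoc, fb_add_self, add_zero]
  exact (I2_bi 0).mul_right _ ((I2_bi 0).mul_right _ ((I2_bi 0).mul_left _ (sub_idl ⟨1, rfl⟩)))

theorem SX_DW : SX ≤ DW (I1 0) (I1_bi 0) := by
  have h1 := YA.nc_eq (x 0 ^ 2)
  unfold SX
  rw [h1, Subgroup.closure_le]
  rintro _ ⟨g, rfl⟩
  show dx (g * x 0 ^ 2 * g⁻¹) ∈ I1 0
  have h2 := I2_le_I1 0 (SX_dx g)
  have h3 : o g * Xl 0 ∈ I1 0 := (I1_bi 0).mul_left _ (sub_idl rfl)
  have h4 := (I1 0).add_mem h2 h3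
  rwa [add_assoc, fb_add_self, add_zero] at h4

theorem NX_dx (g : F) : dx (g * x 0 * g⁻¹) + o g ∈ I1 0 := by
  rw [dx_conj, dx_x0, mul_one, add_assoc, fb_add_self, add_zero, add_comm 1]
  exact (I1_bi 0).mul_right _ (NX_CW (NX_normal.conj_mem _ x0_NX g))

theorem D2_DW : D2 ≤ DW (K0 ⊔ I1 0) (K0_bi.sup (I1_bi 0)) := by
  refine sup_le ?_ (sup_le ?_ (F4_DW le_sup_left))
  · rw [Subgroup.commutator_le]
    intro a ha b hb
    rw [mem_DW, dx_comm]
    refine AddSubgroup.mem_sup_right ((I1 0).add_mem ?_ ?_)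
    · rw [add_comm 1]
      exact (I1_bi 0).mul_right _ (NX_CW (NX_normal.conj_mem _ hb a))
    · refine (I1_bi 0).mul_right _ ?_
      have h1 : o a + 1 ∈ I1 0 := NX_CW ha
      have h2 : o ⁅a, b⁆ + 1 ∈ I1 0 := NX_CW (Subgroup.commutator_le_left NX NX
        (Subgroup.commutator_mem_commutator ha hb))
      have h3 := (I1 0).add_mem h1 h2
      have e : o a + 1 + (o ⁅a, b⁆ + 1) = o a + o ⁅a, b⁆ + (1 + 1) := by abel
      rwa [e, fb_add_self, add_zero] at h3
  · intro w hw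
    exact AddSubgroup.mem_sup_right (SX_DW hw)

theorem G3_DW : G3 ≤ DW (K0 ⊔ I2 0) (K0_bi.sup (I2_bi 0)) := by
  refine sup_le ?_ (F4_DW le_sup_left)
  rw [Subgroup.commutator_le]
  intro a ha b hb
  rw [mem_DW, dx_comm]
  refine AddSubgroup.mem_sup_right ((I2 0).add_mem ?_ ?_)
  · rw [add_comm 1]
    exact mul_I1_I1 (NX_CW (NX_normal.conj_mem _ hb a)) (SX_DW ha)
  · refine (I2_bi 0).mul_right _ ?_
    have h1 : o a + 1 ∈ I2 0 := SX_CW ha
    have h2 : o ⁅a, b⁆ + 1 ∈ I2 0 := SX_CW (Subgroup.commutator_le_left SX NX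
      (Subgroup.commutator_mem_commutator ha hb))
    have h3 := (I2 0).add_mem h1 h2
    have e : o a + 1 + (o ⁅a, b⁆ + 1) = o a + o ⁅a, b⁆ + (1 + 1) := by abel
    rwa [e, fb_add_self, add_zero] at h3

theorem S1_DW : S1 ≤ DW (K0 ⊔ I3 0) (K0_bi.sup (I3_bi 0)) := by
  refine sup_le ?_ (F4_DW le_sup_left)
  rw [Subgroup.commutator_le]
  intro a ha b hb
  rw [mem_DW, dx_comm]
  refine AddSubgroup.mem_sup_right ((I3 0).add_mem ?_ ?_)
  · rw [add_comm 1]
    exact mul_I2_I1 (SX_CW (SX_normal.conj_mem _ hb a)) (SX_DW ha)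
  · refine mul_I2_I1 ?_ (SX_DW hb)
    have h1 : o a + 1 ∈ I2 0 := SX_CW ha
    have h2 : o ⁅a, b⁆ + 1 ∈ I2 0 := SX_CW (Subgroup.commutator_le_left SX SX
      (Subgroup.commutator_mem_commutator ha hb))
    have h3 := (I2 0).add_mem h1 h2
    have e : o a + 1 + (o ⁅a, b⁆ + 1) = o a + o ⁅a, b⁆ + (1 + 1) := by abel
    rwa [e, fb_add_self, add_zero] at h3

/-- derivative of a product of words which are congruent to one -/
theorem dx_prod {W : AddSubgroup FB} {hW : Bi W} (L : List F) (h : ∀ w ∈ L, w ∈ CW W hW) :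
    dx L.prod + (L.map dx).sum ∈ W := by
  induction L with
  | nil =>
    rw [List.prod_nil, dx_one, List.map_nil, List.sum_nil, add_zero]
    exact W.zero_mem
  | cons a L ih =>
    rw [List.prod_cons, dx_mul, List.map_cons, List.sum_cons]
    have h1 := ih fun w hw => h w (List.mem_cons_of_mem _ hw)
    have h2 : o a + 1 ∈ W := h a List.mem_cons_self
    have e : dx a + o a * dx L.prod + (dx a + (L.map dx).sum) =
        (o a + 1) * dx L.prod + (dx L.prod + (L.map dx).sum) + (dx a + dx a) - (dx L.prod + dx L.prod) := by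
      noncomm_ring
    rw [e, fb_add_self, fb_add_self, add_zero, sub_zero]
    exact W.add_mem (hW.mul_right _ h2) h1

end E4.Z
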