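import Pool.Agent.Lib.MP_8a95e3_al.ZF2
import Pool.Agent.Lib.MP_8a95e3_al.X01

/-!
# ZF3 : layer (a) (helper97)
-/

open scoped commutatorElement

noncomputable section

namespace E4.Z

open E4 E4.N E4.X

theorem kx_eq (w : F) : rp 0 1 w = kx w := by
  refine hom_ext' (φ := rp 0 1) (ψ := kx) (fun j => ?_) w
  rw [rp_x, kx_x]

/-- `kx w` is congruent to `w` modulo `NX` -/
theorem kx_NX (w : F) : w * (kx w)⁻¹ ∈ NX := by
  rw [mem_NX, map_mul, map_inv, kx_kx, mul_inv_cancel]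

theorem sq_mem_of {B D : Subgroup F} [D.Normal] {S : Set F} (hB : B = Subgroup.closure S) (hab : ⁅B, B⁆ ≤ D)
    (h2 : ∀ s ∈ S, s ^ 2 ∈ D) : ∀ b ∈ B, b ^ 2 ∈ D := by
  obtain ⟨q, hq⟩ : ∃ q : F →* F ⧸ D, q = QuotientGroup.mk' D := ⟨_, rfl⟩
  have hker : ∀ v, q v = 1 ↔ v ∈ D := by
    intro v
    rw [hq]
    exact QuotientGroup.eq_one_iff v
  intro b hb
  have hb' : b ∈ Subgroup.closure S := hB ▸ hb
  rw [← hker]
  induction hb' using Subgroup.closure_induction with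
  | mem y hy => exact (hker _).2 (h2 y hy)
  | one => rw [one_pow, map_one]
  | mul u v hu hv h1 h3 =>
    have hu' : u ∈ B := hB ▸ hu
    have hv' : v ∈ B := hB ▸ hv
    have h5 := h1 hu'
    have h6 := h3 hv'
    have hc : q u * q v = q v * q u := by
      rw [← commutatorElement_eq_one_iff_mul_comm, ← map_commutatorElement, hker]
      exact hab (Subgroup.commutator_mem_commutator hu' hv')
    rw [map_pow] at h5 h6 ⊢
    rw [map_mul, (show Commute (q u) (q v) from hc).mul_pow, h5, h6, one_mul]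
  | inv u hu h1 =>
    have hu' : u ∈ B := hB ▸ hu
    have h5 := h1 hu'
    rw [inv_pow, map_inv, h5, inv_one]

theorem NX_sq : ∀ b ∈ NX, b ^ 2 ∈ D2 := by
  refine sq_mem_of (YA.nc_eq (x 0)) le_sup_left ?_
  rintro _ ⟨g, rfl⟩
  have e : (YA.ex (x 0) g) ^ 2 = g * x 0 ^ 2 * g⁻¹ := conj_pow
  rw [e]
  exact D2_normal.conj_mem _ (S0_le_D2 (SX_le_S0 x0_SX)) g

/-- `NX` acts trivially if `[NX, B] ≤ D` -/
theorem FM.triv {B D : Subgroup F} [B.Normal] {M : Type} [AddCommGroup M] {e : FB →+* AddMonoid.End M} {c : F → M}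
    (h : FM B D M e c) (hB : ⁅NX, B⁆ ≤ D) {n : F} (hn : n ∈ NX) (m : M) : e (o n) m = m := by
  obtain ⟨b, hb, rfl⟩ := h.surj m
  have h2 : ⁅n, b⁆ ∈ D := hB (Subgroup.commutator_mem_commutator hn hb)
  have h3 : n * b * n⁻¹ ∈ B := (inferInstance : B.Normal).conj_mem _ hb n
  rw [← h.conj n b hb]
  exact (h.eq_iff h3 hb).2 h2

/-- a function of the letters may be replaced by the function where `x_0` is killed if `NX` acts trivially -/
theorem FM.kill {B D : Subgroup F} [B.Normal] {M : Type} [AddCommGroup M] {e : FB →+* AddMonoid.End M} {c : F → M}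
    (h : FM B D M e c) (hB : ⁅NX, B⁆ ≤ D) (r : FB) (m : M) : e (eB (rp 0 1) r) m = e r m := by
  refine fb_ind (p := fun r => e (eB (rp 0 1) r) m = e r m) ?_ ?_ ?_ r
  · intro g
    rw [eB_o, kx_eq]
    have e1 : g = (g * (kx g)⁻¹) * kx g := by rw [inv_mul_cancel_right]
    have e2 : o g = o (g * (kx g)⁻¹) * o (kx g) := by
      rw [← map_mul, ← e1]
    rw [e2, map_mul]
    exact (h.triv hB (kx_NX g) _).symm
  · rw [map_zero]
  · intro a b ha hb
    rw [map_add, map_add, map_add]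
    show e (eB (rp 0 1) a) m + e (eB (rp 0 1) b) m = e a m + e b m
    rw [ha, hb]

/-- **Layer (a).** -/
theorem layer_a {w : F} (hw : w ∈ YK (cB K0) (cB_TIdl K0_TI)) (hk : kx w = 1) : w ∈ D2 := by
  have hw' : w ∈ NX := mem_NX.2 hk
  obtain ⟨M, _, e, c, h⟩ := exists_FM NX D2 F4_le_D2 le_sup_left NX_sq
  have hx2 : x 0 ^ 2 ∈ D2 := S0_le_D2 (SX_le_S0 x0_SX)
  obtain ⟨L, hL⟩ := nc_list hx2 hw'
  obtain ⟨h1, h2⟩ := h.conj_prod x0_NX L
  obtain ⟨v, hv⟩ : ∃ v, v = (L.map fun g => g * x 0 * g⁻¹).prod := ⟨_, rfl⟩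
  rw [← hv] at hL h1 h2
  have h3 : c w = e ((L.map o).sum) (c (x 0)) := by
    rw [← h2]
    exact (h.eq_iff hw' h1).2 hL
  -- the derivative
  have h4 : dx v + (L.map o).sum ∈ I1 0 := by
    have h5 := dx_prod (W := I1 0) (hW := I1_bi 0) (L.map fun g => g * x 0 * g⁻¹) (by
      intro u hu
      obtain ⟨g, _, rfl⟩ := List.mem_map.1 hu
      exact NX_CW (NX_normal.conj_mem _ x0_NX g))
    rw [← hv, List.map_map] at h5
    have h6 : (L.map (dx ∘ fun g => g * x 0 * g⁻¹)).sum + (L.map o).sum ∈ I1 0 := by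
      clear h5 hv hL h1 h2 h3
      induction L with
      | nil =>
        simp only [List.map_nil, List.sum_nil, add_zero]
        exact (I1 0).zero_mem
      | cons g L ih =>
        simp only [List.map_cons, List.sum_cons]
        have e1 : (dx ∘ fun g => g * x 0 * g⁻¹) g + (L.map (dx ∘ fun g => g * x 0 * g⁻¹)).sum + (o g + (L.map o).sum) =
            (dx (g * x 0 * g⁻¹) + o g) + ((L.map (dx ∘ fun g => g * x 0 * g⁻¹)).sum + (L.map o).sum) := by
          show dx (g * x 0 * g⁻¹) + (L.map (dx ∘ fun g => g * x 0 * g⁻¹)).sum + (o g + (L.map o).sum) = _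
          abel
        rw [e1]
        exact (I1 0).add_mem (NX_dx g) ih
    have h7 := (I1 0).add_mem h5 h6
    have e2 : ∀ a b d : FB, a + b + (b + d) = a + d := by
      intro a b d
      have e3 : a + b + (b + d) = a + d + (b + b) := by abel
      rw [e3, fb_add_self, add_zero]
    rwa [e2] at h7
  have h5 : dx v ∈ K0 ⊔ I1 0 := by
    have h6 : dx (w * v⁻¹) ∈ K0 ⊔ I1 0 := D2_DW hL
    have h7 : dx w ∈ K0 := dx_Y hw
    have h8 : dx v⁻¹ ∈ K0 ⊔ I1 0 := by
      have h9 : dx v⁻¹ = o w⁻¹ * (dx (w * v⁻¹) - dx w) := by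
        rw [dx_mul, add_sub_cancel_left, ← mul_assoc, o_inv_mul, one_mul]
      rw [h9]
      exact (K0_bi.sup (I1_bi 0)).mul_left _ (AddSubgroup.sub_mem _ h6 (AddSubgroup.mem_sup_left h7))
    have h9 : dx v = o v * dx v⁻¹ := by
      rw [dx_inv, ← mul_assoc, o_mul_inv, one_mul]
    rw [h9]
    exact (K0_bi.sup (I1_bi 0)).mul_left _ h8
  have h6 : (L.map o).sum ∈ K0 ⊔ I1 0 := by
    have h7 := (K0 ⊔ I1 0).sub_mem (AddSubgroup.mem_sup_right h4) h5
    rwa [add_sub_cancel_left] at h7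
  obtain ⟨a, ha, b, hb, hab⟩ := AddSubgroup.mem_sup.1 h6
  have h7 : eB (rp 0 1) ((L.map o).sum) ∈ K0 := by
    rw [← hab, map_add, (mem_I1_iff 0 b).1 hb, add_zero]
    exact K0_TI.endo _ _ ha
  have h8 : c w = 0 := by
    rw [h3, ← h.kill le_sup_left, h.k0 _ h7]
    rfl
  exact (h.ker w hw').1 h8

end E4.Z
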