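import Pool.Agent.Lib.MP_8a95e3_al.ZF3
import Pool.Agent.Lib.MP_8a95e3_al.XF
import Pool.Agent.Lib.MP_8a95e3_al.I00
import Pool.Agent.Lib.MP_8a95e3_al.SqT

/-!
# ZF4 : layer (c), membership (helper97)
-/

open scoped commutatorElement

noncomputable section

namespace E4.Z

open E4 E4.N E4.X

theorem sq_mid (g a : F) : C (g ^ 2) * o a * C (g ^ 2) ∈ K0 := by
  obtain ⟨ρ, hρ⟩ : ∃ ρ : F →* QR K0 K0_bi, ρ = ((qm K0 K0_bi : FB →+* QR K0 K0_bi) : FB →* QR K0 K0_bi).comp o :=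
    ⟨_, rfl⟩
  have hv : ∀ g, ρ g = qm K0 K0_bi (o g) := fun g => by rw [hρ]; rfl
  have hc : Cub ρ := by
    refine ⟨?_, fun h => ?_⟩
    · rw [← one_add_one_eq_two]
      exact q_two K0_bi 1
    · have e1 : E4.X ρ h = qm K0 K0_bi (C h) := by
        unfold E4.X C
        rw [hv, map_add, map_one]
      rw [e1, ← map_pow, qm_zero]
      exact K0_TI.cube h
  have h1 := sqe_mid hc g a
  have e2 : sqe ρ g = qm K0 K0_bi (C (g ^ 2)) := by
    unfold sqe C
    rw [hv, map_add, map_one, map_pow, map_pow]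
  rw [e2, hv, ← map_mul, ← map_mul, qm_zero] at h1
  exact h1

/-- substitution of a square for `x_0` -/
theorem I2_sub (g : F) {f : FB} (hf : f ∈ I2 0) : eB (rp 0 (g ^ 2)) f ∈ K0 := by
  refine eB_idl K0_bi (rp 0 (g ^ 2)) ?_ hf
  rintro s ⟨a, rfl⟩
  rw [map_mul, map_mul, eB_Xl_rp_self, eB_o]
  exact sq_mid g _

section

variable (P : AddSubgroup FA) (hP : TIdl P) (hPw : ∀ m, wA ofF m ∉ P)
  (hmax : ∀ Q : AddSubgroup FA, TIdl Q → P ≤ Q → (∀ m, wA ofF m ∉ Q) → Q ≤ P)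
include hP hPw hmax

/-- cancellation of the squares on the right -/
theorem sq_cancel_right {q : FB} (h : ∀ g : F, q * C (g ^ 2) ∈ mB P) : q ∈ mB P := by
  obtain ⟨A, _, T, hT⟩ := exists_TPr_ker P hP hPw hmax
  obtain ⟨f, rfl⟩ := tob_surj q
  rw [mem_mB hP, ← hT]
  refine T.right_zero _ fun g => ?_
  have h1 := h g
  rw [← tob_sqe, ← map_mul, mem_mB hP, ← hT, map_mul] at h1
  have h2 : ev T.ρ (sqe ofF g) = T.t g := by
    unfold sqe TPr.t sqe
    rw [map_add, map_one, map_pow, ev_of]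
  rw [h2] at h1
  exact h1

/-- a function of the other letters which kills `X_0` (from the left, in degree one) is in the T-ideal -/
theorem cancel_X {r : FB} (hr : eB (rp 0 1) r = r) (h : r * Xl 0 ∈ K0 ⊔ I2 0) : r ∈ mB P := by
  refine sq_cancel_right P hP hPw hmax fun g => ?_
  obtain ⟨a, ha, b, hb, hab⟩ := AddSubgroup.mem_sup.1 h
  have h1 : eB (rp 0 (g ^ 2)) (r * Xl 0) ∈ K0 := by
    rw [← hab, map_add]
    exact K0.add_mem (K0_TI.endo _ _ ha) (I2_sub g hb)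
  have h2 : eB (rp 0 (g ^ 2)) r = r := by
    have e : (rp 0 (g ^ 2)).comp (rp 0 1) = rp 0 1 := by
      refine hom_ext fun i => ?_
      rw [MonoidHom.comp_apply, rp_x]
      split_ifs with hi
      · rw [map_one]
      · rw [rp_x, if_neg hi]
    calc eB (rp 0 (g ^ 2)) r = eB (rp 0 (g ^ 2)) (eB (rp 0 1) r) := by rw [hr]
      _ = r := by rw [eB_comp, e, hr]
  rw [map_mul, h2, eB_Xl_rp_self] at h1
  exact K0_le (mB_TI hP) h1

/-- **Layer (c), membership.** -/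
theorem mem_c {w : F} (hw : w ∈ YK (cB K0) (cB_TIdl K0_TI)) (h0 : w ∈ S0) :
    ∃ L : List F, (∀ g ∈ L, kx g = g) ∧ (L.map o).sum ∈ mB P ∧
      w * (L.map fun g => g * x 0 ^ 2 * g⁻¹).prod⁻¹ ∈ G3 := by
  have hab : ⁅S0, S0⁆ ≤ G3 := by
    have h1 : ⁅SX ⊔ F4, SX ⊔ F4⁆ ≤ G3 := by
      rw [Subgroup.commutator_le]
      intro a ha b hb
      obtain ⟨s, hs, f, hf, rfl⟩ := Subgroup.mem_sup_of_normal_right.1 ha
      obtain ⟨s', hs', f', hf', rfl⟩ := Subgroup.mem_sup_of_normal_right.1 hb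
      obtain ⟨q, hq⟩ : ∃ q : F →* F ⧸ G3, q = QuotientGroup.mk' G3 := ⟨_, rfl⟩
      have hker : ∀ v, q v = 1 ↔ v ∈ G3 := by
        intro v
        rw [hq]
        exact QuotientGroup.eq_one_iff v
      rw [← hker, map_commutatorElement, map_mul, map_mul, (hker f).2 (F4_le_G3 hf), (hker f').2 (F4_le_G3 hf'),
        mul_one, mul_one, ← map_commutatorElement, hker]
      exact S1_le_G3 (Subgroup.mem_sup_left (Subgroup.commutator_mem_commutator hs hs'))
    exact h1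
  have h2 : ∀ b ∈ S0, b ^ 2 ∈ G3 := by
    have e : S0 = Subgroup.closure (Set.range (YA.ex (x 0 ^ 2)) ∪ (F4 : Set F)) := by
      rw [Subgroup.closure_union, ← YA.nc_eq, Subgroup.closure_eq]
      rfl
    refine sq_mem_of e hab ?_
    rintro s (⟨g, rfl⟩ | hs)
    · have e1 : (YA.ex (x 0 ^ 2) g) ^ 2 = g * x 0 ^ 4 * g⁻¹ := by
        have e2 : (YA.ex (x 0 ^ 2) g) ^ 2 = g * (x 0 ^ 2) ^ 2 * g⁻¹ := conj_pow
        rw [e2, ← pow_mul]
      rw [e1]
      exact G3_normal.conj_mem _ (pow4 F4_le_G3 _) g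
    · exact F4_le_G3 (F4.pow_mem hs 2)
  have hNB : ⁅NX, S0⁆ ≤ G3 := by
    rw [Subgroup.commutator_comm, Subgroup.commutator_le]
    intro a ha b hb
    obtain ⟨s, hs, f, hf, rfl⟩ := Subgroup.mem_sup_of_normal_right.1 (show a ∈ SX ⊔ F4 from ha)
    obtain ⟨q, hq⟩ : ∃ q : F →* F ⧸ G3, q = QuotientGroup.mk' G3 := ⟨_, rfl⟩
    have hker : ∀ v, q v = 1 ↔ v ∈ G3 := by
      intro v
      rw [hq]
      exact QuotientGroup.eq_one_iff v
    rw [← hker, map_commutatorElement, map_mul, (hker f).2 (F4_le_G3 hf), mul_one, ← map_commutatorElement, hker]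
    exact Subgroup.mem_sup_left (Subgroup.commutator_mem_commutator hs hb)
  obtain ⟨M, _, e, c, h⟩ := exists_FM S0 G3 F4_le_G3 hab h2
  have hx2 : x 0 ^ 2 ∈ S0 := SX_le_S0 x0_SX
  obtain ⟨s, hs, f, hf, hsf⟩ := Subgroup.mem_sup_of_normal_right.1 (show w ∈ SX ⊔ F4 from h0)
  have hx4 : (x 0 ^ 2) ^ 2 ∈ G3 := by
    rw [← pow_mul]
    exact pow4 F4_le_G3 _
  obtain ⟨L, hL⟩ := nc_list hx4 hs
  -- replace the letters
  obtain ⟨L', hL'⟩ : ∃ L', L' = L.map kx := ⟨_, rfl⟩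
  have hr : (L'.map o).sum = eB (rp 0 1) ((L.map o).sum) := by
    rw [hL', map_list_sum, List.map_map, List.map_map]
    congr 1
    refine List.map_congr_left fun g _ => ?_
    show o (kx g) = eB (rp 0 1) (o g)
    rw [eB_o, kx_eq]
  obtain ⟨h1, h3⟩ := h.conj_prod hx2 L
  obtain ⟨h1', h3'⟩ := h.conj_prod hx2 L'
  obtain ⟨v, hv⟩ : ∃ v, v = (L'.map fun g => g * x 0 ^ 2 * g⁻¹).prod := ⟨_, rfl⟩
  rw [← hv] at h1' h3'
  have hwv : w * v⁻¹ ∈ G3 := by
    rw [← h.eq_iff h0 h1', h3', hr, h.kill hNB, ← h3]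
    rw [← hsf, h.add s (SX_le_S0 hs) f (F4_le_S0 hf), (h.ker f (F4_le_S0 hf)).2 (F4_le_G3 hf), add_zero]
    exact (h.eq_iff (SX_le_S0 hs) h1).2 hL
  refine ⟨L', ?_, ?_, ?_⟩
  · rw [hL']
    intro g hg
    obtain ⟨g', _, rfl⟩ := List.mem_map.1 hg
    exact kx_kx g'
  · have hfix : eB (rp 0 1) ((L'.map o).sum) = (L'.map o).sum := by
      rw [hr, eB_comp]
      congr 1
      have e2 : (rp 0 1).comp (rp 0 1) = rp 0 1 := by
        refine hom_ext fun i => ?_
        rw [MonoidHom.comp_apply, rp_x]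
        split_ifs with hi
        · rw [map_one]
        · rw [rp_x, if_neg hi]
      rw [e2]
    refine cancel_X P hP hPw hmax hfix ?_
    -- the derivative
    have h4 : dx v + (L'.map o).sum * Xl 0 ∈ I2 0 := by
      have h5 := dx_prod (W := I2 0) (hW := I2_bi 0) (L'.map fun g => g * x 0 ^ 2 * g⁻¹) (by
        intro u hu
        obtain ⟨g, _, rfl⟩ := List.mem_map.1 hu
        exact SX_CW (SX_normal.conj_mem _ x0_SX g))
      rw [← hv, List.map_map] at h5
      have h6 : (L'.map (dx ∘ fun g => g * x 0 ^ 2 * g⁻¹)).sum + (L'.map o).sum * Xl 0 ∈ I2 0 := by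
        clear h5 hv hL' hr h1' h3' hwv hfix
        induction L' with
        | nil =>
          simp only [List.map_nil, List.sum_nil, zero_mul, add_zero]
          exact (I2 0).zero_mem
        | cons g L ih =>
          simp only [List.map_cons, List.sum_cons]
          have e1 : (dx ∘ fun g => g * x 0 ^ 2 * g⁻¹) g + (L.map (dx ∘ fun g => g * x 0 ^ 2 * g⁻¹)).sum +
              (o g + (L.map o).sum) * Xl 0 = (dx (g * x 0 ^ 2 * g⁻¹) + o g * Xl 0) +
              ((L.map (dx ∘ fun g => g * x 0 ^ 2 * g⁻¹)).sum + (L.map o).sum * Xl 0) := by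
            show dx (g * x 0 ^ 2 * g⁻¹) + (L.map (dx ∘ fun g => g * x 0 ^ 2 * g⁻¹)).sum +
              (o g + (L.map o).sum) * Xl 0 = _
            rw [add_mul]
            abel
          rw [e1]
          exact (I2 0).add_mem (SX_dx g) ih
      have h7 := (I2 0).add_mem h5 h6
      have e2 : ∀ a b d : FB, a + b + (b + d) = a + d := by
        intro a b d
        have e3 : a + b + (b + d) = a + d + (b + b) := by abel
        rw [e3, fb_add_self, add_zero]
      rwa [e2] at h7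
    have h5 : dx v ∈ K0 ⊔ I2 0 := by
      have h6 : dx (w * v⁻¹) ∈ K0 ⊔ I2 0 := G3_DW hwv
      have h7 : dx w ∈ K0 := dx_Y hw
      have h8 : dx v⁻¹ ∈ K0 ⊔ I2 0 := by
        have h9 : dx v⁻¹ = o w⁻¹ * (dx (w * v⁻¹) - dx w) := by
          rw [dx_mul, add_sub_cancel_left, ← mul_assoc, o_inv_mul, one_mul]
        rw [h9]
        exact (K0_bi.sup (I2_bi 0)).mul_left _ (AddSubgroup.sub_mem _ h6 (AddSubgroup.mem_sup_left h7))
      have h9 : dx v = o v * dx v⁻¹ := by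
        rw [dx_inv, ← mul_assoc, o_mul_inv, one_mul]
      rw [h9]
      exact (K0_bi.sup (I2_bi 0)).mul_left _ h8
    have h6 := (K0 ⊔ I2 0).sub_mem (AddSubgroup.mem_sup_right h4) h5
    rwa [add_sub_cancel_left] at h6
  · rw [← hv]
    exact hwv

end

end E4.Z
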