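import Pool.Agent.Lib.MP_8a95e3_al.ZF3
import Pool.Agent.Lib.MP_8a95e3_al.RA4

/-!
# ZF5 : polarisation in the letter `0` (helper97)
-/

noncomputable section

namespace E4.Z

open E4 E4.N E4.X E4.RA

/-- the substitution `x_0 ↦ g`, `x_j ↦ x_{j+1}` for `j ≥ 1` -/
def pt (g : F) : F →* F := FreeGroup.lift fun j => if j = 0 then g else x (j + 1)

theorem pt_x (g : F) (j : ℕ) : pt g (x j) = if j = 0 then g else x (j + 1) := by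
  unfold pt
  exact FreeGroup.lift_apply_of

theorem pt_sh (g w : F) : pt g (sh w) = sh2 w := by
  have e : (pt g).comp sh = sh2 := by
    refine hom_ext fun i => ?_
    rw [MonoidHom.comp_apply, sh_x, pt_x, if_neg (Nat.succ_ne_zero i), sh2_x]
  rw [← e]
  rfl

theorem eB_Xl_pt (g : F) : eB (pt g) (Xl 0) = C g := by
  unfold Xl
  rw [eB_C, pt_x, if_pos rfl]

/-- polarisation -/
def pol (f : FB) : FB := eB (pt (x 0 * x 1)) f + eB (pt (x 0)) f + eB (pt (x 1)) f + eB (pt 1) f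

theorem pol_zero : pol 0 = 0 := by
  unfold pol
  simp only [map_zero, add_zero]

theorem pol_add (f g : FB) : pol (f + g) = pol f + pol g := by
  unfold pol
  simp only [map_add]
  abel

theorem pol_K0 {f : FB} (hf : f ∈ K0) : pol f ∈ K0 :=
  K0.add_mem (K0.add_mem (K0.add_mem (K0_TI.endo _ _ hf) (K0_TI.endo _ _ hf)) (K0_TI.endo _ _ hf)) (K0_TI.endo _ _ hf)

/-- the error terms -/
def JJ : AddSubgroup FB := I2 0 ⊔ I2 1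

theorem JJ_bi : Bi JJ := (I2_bi 0).sup (I2_bi 1)

theorem Xl_I1 (j : ℕ) : Xl j ∈ I1 j := sub_idl rfl

/-- three factors -/
theorem three {p q r : FB} (hp : p ∈ I1 0 ⊔ I1 1) (hq : q ∈ I1 0 ⊔ I1 1) (hr : r ∈ I1 0 ⊔ I1 1) : p * q * r ∈ JJ := by
  obtain ⟨p0, hp0, p1, hp1, rfl⟩ := AddSubgroup.mem_sup.1 hp
  obtain ⟨q0, hq0, q1, hq1, rfl⟩ := AddSubgroup.mem_sup.1 hq
  obtain ⟨r0, hr0, r1, hr1, rfl⟩ := AddSubgroup.mem_sup.1 hr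
  have k00 : ∀ a ∈ I1 0, ∀ b ∈ I1 0, a * b ∈ JJ := fun a ha b hb => AddSubgroup.mem_sup_left (mul_I1_I1 ha hb)
  have k11 : ∀ a ∈ I1 1, ∀ b ∈ I1 1, a * b ∈ JJ := fun a ha b hb => AddSubgroup.mem_sup_right (mul_I1_I1 ha hb)
  have e : (p0 + p1) * (q0 + q1) * (r0 + r1) = p0 * q0 * r0 + p0 * q0 * r1 + p0 * (q1 * r0) + p0 * (q1 * r1) +
      p1 * q0 * r0 + p1 * q0 * r1 + p1 * q1 * r0 + p1 * q1 * r1 := by noncomm_ring
  have h1 : p0 * q0 * r0 ∈ JJ := JJ_bi.mul_right _ (k00 _ hp0 _ hq0)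
  have h2 : p0 * q0 * r1 ∈ JJ := JJ_bi.mul_right _ (k00 _ hp0 _ hq0)
  have h3 : p0 * (q1 * r0) ∈ JJ := k00 _ hp0 _ ((I1_bi 0).mul_left _ hr0)
  have h4 : p0 * (q1 * r1) ∈ JJ := JJ_bi.mul_left _ (k11 _ hq1 _ hr1)
  have h5 : p1 * q0 * r0 ∈ JJ := by
    rw [mul_assoc]
    exact JJ_bi.mul_left _ (k00 _ hq0 _ hr0)
  have h6 : p1 * q0 * r1 ∈ JJ := k11 _ ((I1_bi 1).mul_right _ hp1) _ hr1
  have h7 : p1 * q1 * r0 ∈ JJ := JJ_bi.mul_right _ (k11 _ hp1 _ hq1)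
  have h8 : p1 * q1 * r1 ∈ JJ := JJ_bi.mul_right _ (k11 _ hp1 _ hq1)
  rw [e]
  exact add_mem (add_mem (add_mem (add_mem (add_mem (add_mem (add_mem h1 h2) h3) h4) h5) h6) h7) h8

theorem pt_I3 {g : F} (hg : C g ∈ I1 0 ⊔ I1 1) {f : FB} (hf : f ∈ I3 0) : eB (pt g) f ∈ JJ := by
  refine eB_idl JJ_bi (pt g) ?_ hf
  rintro s ⟨a, b, rfl⟩
  rw [map_mul, map_mul, map_mul, map_mul, eB_Xl_pt, eB_o, eB_o]
  have h := three (((I1_bi 0).sup (I1_bi 1)).mul_right (o (pt g a)) hg)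
    (((I1_bi 0).sup (I1_bi 1)).mul_right (o (pt g b)) hg) hg
  have e : C g * o (pt g a) * (C g * o (pt g b)) * C g = C g * o (pt g a) * C g * o (pt g b) * C g := by
    noncomm_ring
  rwa [e] at h

theorem C_x0x1 : C (x 0 * x 1) = Xl 0 + Xl 1 + Xl 0 * Xl 1 := C_mul _ _

theorem C0_mem : C (x 0) ∈ I1 0 ⊔ I1 1 := AddSubgroup.mem_sup_left (Xl_I1 0)

theorem C1_mem : C (x 1) ∈ I1 0 ⊔ I1 1 := AddSubgroup.mem_sup_right (Xl_I1 1)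

theorem C01_mem : C (x 0 * x 1) ∈ I1 0 ⊔ I1 1 := by
  rw [C_x0x1]
  exact add_mem (add_mem C0_mem C1_mem) (AddSubgroup.mem_sup_left ((I1_bi 0).mul_right _ (Xl_I1 0)))

theorem pol_I3 {f : FB} (hf : f ∈ I3 0) : pol f ∈ JJ := by
  have h1 : C (1 : F) ∈ I1 0 ⊔ I1 1 := by
    rw [C_one]
    exact zero_mem _
  exact add_mem (add_mem (add_mem (pt_I3 C01_mem hf) (pt_I3 C0_mem hf)) (pt_I3 C1_mem hf)) (pt_I3 h1 hf)

theorem pol_mem {f : FB} (hf : f ∈ K0 ⊔ I3 0) : pol f ∈ K0 ⊔ I2 0 ⊔ I2 1 := by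
  obtain ⟨a, ha, b, hb, rfl⟩ := AddSubgroup.mem_sup.1 hf
  rw [pol_add, sup_assoc]
  exact add_mem (AddSubgroup.mem_sup_left (pol_K0 ha)) (AddSubgroup.mem_sup_right (pol_I3 hb))

/-- polarisation of a term of degree two -/
theorem pol_w (u v w : F) : pol (o (sh u) * (Xl 0 * o (sh v) * Xl 0) * o (sh w)) +
    (o (sh2 u) * (Xl 0 * o (sh2 v) * Xl 1) * o (sh2 w) + o (sh2 u) * (Xl 1 * o (sh2 v) * Xl 0) * o (sh2 w)) ∈ JJ := by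
  have e : ∀ g, eB (pt g) (o (sh u) * (Xl 0 * o (sh v) * Xl 0) * o (sh w)) =
      o (sh2 u) * (C g * o (sh2 v) * C g) * o (sh2 w) := by
    intro g
    simp only [map_mul, eB_Xl_pt, eB_o, pt_sh]
  unfold pol
  rw [e, e, e, e, C_one, C_x0x1]
  obtain ⟨Y, hY⟩ : ∃ Y, Y = Xl 0 := ⟨_, rfl⟩
  obtain ⟨Z, hZ⟩ : ∃ Z, Z = Xl 1 := ⟨_, rfl⟩
  have hY' : C (x 0) = Y := hY.symm
  have hZ' : C (x 1) = Z := hZ.symm
  rw [hY', hZ', ← hY, ← hZ]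
  obtain ⟨p, hp⟩ : ∃ p, p = o (sh2 u) := ⟨_, rfl⟩
  obtain ⟨q, hq⟩ : ∃ q, q = o (sh2 v) := ⟨_, rfl⟩
  obtain ⟨r, hr⟩ : ∃ r, r = o (sh2 w) := ⟨_, rfl⟩
  rw [← hp, ← hq, ← hr]
  have e1 : p * ((Y + Z + Y * Z) * q * (Y + Z + Y * Z)) * r + p * (Y * q * Y) * r + p * (Z * q * Z) * r +
      p * (0 * q * 0) * r + (p * (Y * q * Z) * r + p * (Z * q * Y) * r) =
      p * (Y * q * Y * Z + Z * (q * Y) * Z + Y * (Z * q) * Y + Y * (Z * q * Z) + Y * (Z * q) * Y * Z) * r +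
      ((p * (Y * q * Y) * r + p * (Y * q * Y) * r) + (p * (Z * q * Z) * r + p * (Z * q * Z) * r) +
      (p * (Y * q * Z) * r + p * (Y * q * Z) * r) + (p * (Z * q * Y) * r + p * (Z * q * Y) * r)) := by
    noncomm_ring
  rw [e1]
  simp only [fb_add_self, add_zero]
  have hYY : ∀ a, Y * a * Y ∈ JJ := by
    intro a
    rw [hY]
    exact AddSubgroup.mem_sup_left (mul_I1_I1 ((I1_bi 0).mul_right _ (Xl_I1 0)) (Xl_I1 0))
  have hZZ : ∀ a, Z * a * Z ∈ JJ := by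
    intro a
    rw [hZ]
    exact AddSubgroup.mem_sup_right (mul_I1_I1 ((I1_bi 1).mul_right _ (Xl_I1 1)) (Xl_I1 1))
  refine JJ_bi.mul_right _ (JJ_bi.mul_left _ ?_)
  exact add_mem (add_mem (add_mem (add_mem (JJ_bi.mul_right _ (hYY _)) (hZZ _)) (hYY _)) (JJ_bi.mul_left _ (hZZ _)))
    (JJ_bi.mul_right _ (hYY _))

end E4.Z
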