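import Pool.Agent.Lib.MP_8a95e3_al.ZF3

/-!
# ZF6 : the section `S0 / S1` (helper97)
-/

open scoped commutatorElement

noncomputable section

namespace E4.Z

open E4 E4.N E4.X

/-- shift back, `x_0 ↦ 1` -/
def us : F →* F := FreeGroup.lift fun j => if j = 0 then 1 else x (j - 1)

theorem us_x (j : ℕ) : us (x j) = if j = 0 then 1 else x (j - 1) := by
  unfold us
  exact FreeGroup.lift_apply_of

theorem sh_us (w : F) : sh (us w) = kx w := by
  refine hom_ext' (φ := sh.comp us) (ψ := kx) (fun j => ?_) w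
  show sh (us (x j)) = kx (x j)
  rw [us_x, kx_x]
  split_ifs with h
  · exact map_one _
  · rw [sh_x, Nat.sub_add_cancel (Nat.pos_of_ne_zero h)]

theorem S0_comm6 : ⁅S0, S0⁆ ≤ S1 := by
  have h1 : ⁅SX ⊔ F4, SX ⊔ F4⁆ ≤ S1 := by
    rw [Subgroup.commutator_le]
    intro a ha b hb
    obtain ⟨s, hs, f, hf, rfl⟩ := Subgroup.mem_sup_of_normal_right.1 ha
    obtain ⟨s', hs', f', hf', rfl⟩ := Subgroup.mem_sup_of_normal_right.1 hb
    obtain ⟨q, hq⟩ : ∃ q : F →* F ⧸ S1, q = QuotientGroup.mk' S1 := ⟨_, rfl⟩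
    have hker : ∀ v, q v = 1 ↔ v ∈ S1 := by
      intro v
      rw [hq]
      exact QuotientGroup.eq_one_iff v
    rw [← hker, map_commutatorElement, map_mul, map_mul, (hker f).2 (F4_le_S1 hf), (hker f').2 (F4_le_S1 hf'),
      mul_one, mul_one, ← map_commutatorElement, hker]
    exact Subgroup.mem_sup_left (Subgroup.commutator_mem_commutator hs hs')
  exact h1

theorem S0_sq6 : ∀ b ∈ S0, b ^ 2 ∈ S1 := by
  have e : S0 = Subgroup.closure (Set.range (YA.ex (x 0 ^ 2)) ∪ (F4 : Set F)) := by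
    rw [Subgroup.closure_union, ← YA.nc_eq, Subgroup.closure_eq]
    rfl
  refine sq_mem_of e S0_comm6 ?_
  rintro s (⟨g, rfl⟩ | hs)
  · have e1 : (YA.ex (x 0 ^ 2) g) ^ 2 = g * x 0 ^ 4 * g⁻¹ := by
      have e2 : (YA.ex (x 0 ^ 2) g) ^ 2 = g * (x 0 ^ 2) ^ 2 * g⁻¹ := conj_pow
      rw [e2, ← pow_mul]
    rw [e1]
    exact S1_normal.conj_mem _ (pow4 F4_le_S1 _) g
  · exact F4_le_S1 (F4.pow_mem hs 2)

/-- the words of layer `γ_3` -/
def mm (u v : F) : F := (sh u * x 0 * sh v) * x 0 ^ 2 * (sh u * x 0 * sh v)⁻¹ *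
  ((sh u * sh v) * x 0 ^ 2 * (sh u * sh v)⁻¹)⁻¹

theorem mm_eq (u v : F) : mm u v = sh u * ⁅x 0, sh v * x 0 ^ 2 * (sh v)⁻¹⁆ * (sh u)⁻¹ := by
  unfold mm
  rw [commutatorElement_def]
  group

theorem mm_G3 (u v : F) : mm u v ∈ G3 := by
  rw [mm_eq]
  refine G3_normal.conj_mem _ (Subgroup.mem_sup_left ?_) _
  rw [Subgroup.commutator_comm]
  exact Subgroup.commutator_mem_commutator x0_NX (SX_normal.conj_mem _ x0_SX _)

section

variable {M : Type} [AddCommGroup M] {e : FB →+* AddMonoid.End M} {c : F → M} (h : FM S0 S1 M e c)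
include h

theorem c_sx {b : F} (hb : b ∈ SX) : ∃ f : FB, c b = e f (c (x 0 ^ 2)) := by
  unfold SX at hb
  rw [YA.nc_eq] at hb
  have key : b ∈ S0 ∧ ∃ f : FB, c b = e f (c (x 0 ^ 2)) := by
    induction hb using Subgroup.closure_induction with
    | mem y hy =>
      obtain ⟨g, rfl⟩ := hy
      refine ⟨S0_normal.conj_mem _ (SX_le_S0 x0_SX) _, o g, ?_⟩
      exact h.conj g _ (SX_le_S0 x0_SX)
    | one => exact ⟨S0.one_mem, 0, by rw [h.one, map_zero]; rfl⟩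
    | mul u v _ _ hu hv =>
      obtain ⟨h1, f, hf⟩ := hu
      obtain ⟨h2, g, hg⟩ := hv
      refine ⟨S0.mul_mem h1 h2, f + g, ?_⟩
      rw [h.add u h1 v h2, hf, hg, map_add]
      rfl
    | inv u _ hu =>
      obtain ⟨h1, f, hf⟩ := hu
      exact ⟨S0.inv_mem h1, f, by rw [h.inv h1, hf]⟩
  exact key.2

theorem c_comm {b : F} (hb : b ∈ S0) (n : F) : c (n * b * n⁻¹ * b⁻¹) = e (C n) (c b) := by
  rw [h.add _ (S0_normal.conj_mem _ hb n) _ (S0.inv_mem hb), h.inv hb, h.conj n b hb]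
  unfold C
  rw [map_add, map_one]
  rfl

theorem c_G3 {w : F} (hw : w ∈ G3) : ∃ f ∈ I1 0, c w = e f (c (x 0 ^ 2)) := by
  obtain ⟨a, ha, f, hf, rfl⟩ := Subgroup.mem_sup_of_normal_right.1 (show w ∈ ⁅SX, NX⁆ ⊔ F4 from hw)
  have key : a ∈ S0 ∧ ∃ f ∈ I1 0, c a = e f (c (x 0 ^ 2)) := by
    rw [Subgroup.commutator_comm, Subgroup.commutator_def] at ha
    clear hw
    induction ha using Subgroup.closure_induction with
    | mem y hy =>
      obtain ⟨n, hn, s, hs, rfl⟩ := hy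
      have hs' : s ∈ S0 := SX_le_S0 hs
      obtain ⟨f1, hf1⟩ := c_sx h hs
      rw [commutatorElement_def]
      refine ⟨S0.mul_mem (S0_normal.conj_mem _ hs' n) (S0.inv_mem hs'), C n * f1, ?_, ?_⟩
      · exact (I1_bi 0).mul_right _ (NX_CW hn)
      · rw [c_comm h hs' n, hf1, map_mul]
        rfl
    | one => exact ⟨S0.one_mem, 0, zero_mem _, by rw [h.one, map_zero]; rfl⟩
    | mul u v _ _ hu hv =>
      obtain ⟨h1, f, hf, hf'⟩ := hu
      obtain ⟨h2, g, hg, hg'⟩ := hv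
      refine ⟨S0.mul_mem h1 h2, f + g, add_mem hf hg, ?_⟩
      rw [h.add u h1 v h2, hf', hg', map_add]
      rfl
    | inv u _ hu =>
      obtain ⟨h1, f, hf, hf'⟩ := hu
      exact ⟨S0.inv_mem h1, f, hf, by rw [h.inv h1, hf']⟩
  obtain ⟨h1, g, hg, hg'⟩ := key
  refine ⟨g, hg, ?_⟩
  rw [h.add a h1 f (F4_le_S0 hf), (h.ker f (F4_le_S0 hf)).2 (F4_le_S1 hf), add_zero, hg']

variable (h2 : ⁅G3, NX⁆ ≤ S1)
include h2

theorem X_G3 {a : F} (ha : a ∈ G3) : e (Xl 0) (c a) = 0 := by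
  have ha' : a ∈ S0 := G3_le_S0 ha
  have h3 : x 0 * a * (x 0)⁻¹ * a⁻¹ ∈ S1 := by
    rw [Subgroup.commutator_comm] at h2
    exact h2 (Subgroup.commutator_mem_commutator x0_NX ha)
  have h4 := c_comm h ha' (x 0)
  rw [(h.ker _ (S0.mul_mem (S0_normal.conj_mem _ ha' _) (S0.inv_mem ha'))).2 h3] at h4
  exact h4.symm

theorem I2_kill {f : FB} (hf : f ∈ I2 0) : e f (c (x 0 ^ 2)) = 0 := by
  unfold I2 idl at hf
  induction hf using AddSubgroup.closure_induction with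
  | mem y hy =>
    obtain ⟨p, q, s, ⟨a, rfl⟩, rfl⟩ := hy
    have hs : q * x 0 ^ 2 * q⁻¹ ∈ SX := SX_normal.conj_mem _ x0_SX q
    have hs' := SX_le_S0 hs
    have e1 : e (o q) (c (x 0 ^ 2)) = c (q * x 0 ^ 2 * q⁻¹) := (h.conj q _ (SX_le_S0 x0_SX)).symm
    have h3 : x 0 * (q * x 0 ^ 2 * q⁻¹) * (x 0)⁻¹ * (q * x 0 ^ 2 * q⁻¹)⁻¹ ∈ G3 := by
      refine Subgroup.mem_sup_left ?_
      rw [Subgroup.commutator_comm]
      exact Subgroup.commutator_mem_commutator x0_NX hs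
    have e2 : e (Xl 0) (c (q * x 0 ^ 2 * q⁻¹)) =
        c (x 0 * (q * x 0 ^ 2 * q⁻¹) * (x 0)⁻¹ * (q * x 0 ^ 2 * q⁻¹)⁻¹) := (c_comm h hs' (x 0)).symm
    have h4 := X_G3 h h2 (G3_normal.conj_mem _ h3 a)
    have e3 := h.conj a _ (G3_le_S0 h3)
    rw [e3, ← e2, ← e1] at h4
    have e4 : e (o p * (Xl 0 * o a * Xl 0) * o q) (c (x 0 ^ 2)) =
        e (o p) (e (Xl 0) (e (o a) (e (Xl 0) (e (o q) (c (x 0 ^ 2)))))) := by
      simp only [map_mul]
      rfl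
    rw [e4, h4, map_zero]
  | zero => rw [map_zero]; rfl
  | add a b _ _ ha hb =>
    rw [map_add]
    show e a _ + e b _ = 0
    rw [ha, hb, add_zero]
  | neg a _ ha =>
    rw [map_neg]
    show -(e a _) = 0
    rw [ha, neg_zero]

/-- in the degree one part the letter `x_0` may be removed from the coefficients -/
theorem c_kill (a b : F) : e (o a * Xl 0 * o b) (c (x 0 ^ 2)) = c (mm (us a) (us b)) := by
  have h3 : o a * Xl 0 * o b + o (kx a) * Xl 0 * o (kx b) ∈ I2 0 := by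
    have e1 : o a * Xl 0 * o b + o (kx a) * Xl 0 * o (kx b) = (o a + o (kx a)) * Xl 0 * o b +
        o (kx a) * (Xl 0 * (o b + o (kx b))) - (o (kx a) * Xl 0 * o b + o (kx a) * Xl 0 * o b) := by
      noncomm_ring
    have e2 : ∀ g, o g + o (kx g) ∈ I1 0 := by
      intro g
      rw [← kx_eq]
      exact fox 0 g
    rw [e1, fb_add_self, sub_zero]
    exact add_mem ((I2_bi 0).mul_right _ (mul_I1_I1 (e2 a) (sub_idl rfl)))
      ((I2_bi 0).mul_left _ (mul_I1_I1 (sub_idl rfl) (e2 b)))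
  have h4 := I2_kill h h2 h3
  rw [map_add] at h4
  have h5 : e (o a * Xl 0 * o b) (c (x 0 ^ 2)) = e (o (kx a) * Xl 0 * o (kx b)) (c (x 0 ^ 2)) := by
    have h6 : e (o a * Xl 0 * o b) (c (x 0 ^ 2)) + e (o (kx a) * Xl 0 * o (kx b)) (c (x 0 ^ 2)) = 0 := h4
    rw [← h.neg (e (o (kx a) * Xl 0 * o (kx b)) (c (x 0 ^ 2)))]
    exact eq_neg_of_add_eq_zero_left h6
  rw [h5, ← sh_us, ← sh_us]
  have e1 : o (sh (us a)) * Xl 0 * o (sh (us b)) = o (sh (us a) * x 0 * sh (us b)) + o (sh (us a) * sh (us b)) := by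
    unfold Xl C
    rw [mul_add, add_mul, mul_one, ← map_mul, ← map_mul, ← map_mul]
  rw [e1, map_add]
  show e _ _ + e _ _ = _
  have hx := SX_le_S0 x0_SX
  rw [← h.conj _ _ hx, ← h.conj _ _ hx]
  unfold mm
  rw [h.add _ (S0_normal.conj_mem _ hx _) _ (S0.inv_mem (S0_normal.conj_mem _ hx _)),
    h.inv (S0_normal.conj_mem _ hx _)]

theorem c_I1 {f : FB} (hf : f ∈ I1 0) : ∃ L : List (F × F), e f (c (x 0 ^ 2)) = (L.map fun p => c (mm p.1 p.2)).sum := by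
  unfold I1 idl at hf
  induction hf using AddSubgroup.closure_induction with
  | mem y hy =>
    obtain ⟨p, q, s, hs, rfl⟩ := hy
    rw [Set.mem_singleton_iff.1 hs]
    refine ⟨[(us p, us q)], ?_⟩
    rw [c_kill h h2, List.map_cons, List.map_nil, List.sum_cons, List.sum_nil, add_zero]
  | zero => exact ⟨[], by rw [map_zero]; rfl⟩
  | add a b _ _ ha hb =>
    obtain ⟨L, hL⟩ := ha
    obtain ⟨L', hL'⟩ := hb
    refine ⟨L ++ L', ?_⟩
    rw [List.map_append, List.sum_append, ← hL, ← hL', map_add]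
    rfl
  | neg a _ ha =>
    obtain ⟨L, hL⟩ := ha
    refine ⟨L, ?_⟩
    rw [← hL, map_neg]
    exact h.neg _

end

/-- the elements of `G3` modulo `S1` -/
theorem G3_list (h2 : ⁅G3, NX⁆ ≤ S1) {w : F} (hw : w ∈ G3) :
    ∃ L : List (F × F), w * (L.map fun p => mm p.1 p.2).prod⁻¹ ∈ S1 := by
  obtain ⟨M, _, e, c, h⟩ := exists_FM S0 S1 F4_le_S1 S0_comm6 S0_sq6
  obtain ⟨f, hf, h3⟩ := c_G3 h hw
  obtain ⟨L, hL⟩ := c_I1 h h2 hf
  refine ⟨L, ?_⟩
  obtain ⟨h4, h5⟩ := h.prod (L.map fun p => mm p.1 p.2) (by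
    intro v hv
    obtain ⟨p, _, rfl⟩ := List.mem_map.1 hv
    exact G3_le_S0 (mm_G3 _ _))
  rw [← h.eq_iff (G3_le_S0 hw) h4, h3, hL, h5, List.map_map]
  rfl

end E4.Z
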