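import Pool.Agent.Lib.MP_8a95e3_al.ZF5
import Pool.Agent.Lib.MP_8a95e3_al.ZF6

/-!
# ZF7 : layer `γ_3`, the words and the group ring (helper97)
-/

open scoped commutatorElement

noncomputable section

namespace E4.Z

open E4 E4.N E4.X E4.RA

/-- the element of the group ring which belongs to the word `mm u v` -/
def rr (u v : F) : FB := o (sh2 u) * Xl 0 * o (sh2 v) * Xl 1 + o (sh2 (u * v)) * Xl 0 * Xl 1 * o (sh2 v⁻¹)

/-- the derivative of the word `mm u v` -/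
def dm (u v : F) : FB := o (sh u) * (Xl 0 * o (sh v) * Xl 0) * o (sh 1) + o (sh (u * v)) * (Xl 0 * o (sh 1) * Xl 0) * o (sh v⁻¹)

/-- the error ideal -/
def WW : AddSubgroup FB := K0 ⊔ I3 0

theorem WW_bi : Bi WW := K0_bi.sup (I3_bi 0)

theorem dx_mm (u v : F) : dx (mm u v) + dm u v ∈ WW := by
  obtain ⟨g, hg⟩ : ∃ g, g = sh u * x 0 * sh v := ⟨_, rfl⟩
  obtain ⟨k, hk⟩ : ∃ k, k = sh u * sh v := ⟨_, rfl⟩
  have hm : mm u v = (g * x 0 ^ 2 * g⁻¹) * (k * x 0 ^ 2 * k⁻¹)⁻¹ := by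
    unfold mm
    rw [hg, hk]
  have h1 : dx k = 0 := by
    rw [hk, ← map_mul, dx_sh]
  have h2 : dx g = o (sh u) := by
    rw [hg, dx_mul, dx_mul, dx_sh, dx_sh, dx_x0, mul_one, mul_zero, add_zero, zero_add]
  have h3 : dx (k * x 0 ^ 2 * k⁻¹) = o k * Xl 0 := by
    rw [dx_sq, h1, mul_zero, add_zero]
  have h4 : dx (mm u v) = dx (g * x 0 ^ 2 * g⁻¹) + o (mm u v) * (o k * Xl 0) := by
    rw [hm, dx_mul, dx_inv, h3, ← mul_assoc, ← map_mul]
  have h5 : dx (g * x 0 ^ 2 * g⁻¹) = o g * Xl 0 + o g * (Xl 0 * o 1 * Xl 0) * o (sh v⁻¹) * o (x 0)⁻¹ := by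
    rw [dx_sq, h2]
    congr 1
    rw [mul_assoc (o g * (Xl 0 * o 1 * Xl 0)) (o g⁻¹), mul_assoc (o g * (Xl 0 * o 1 * Xl 0)) (o (sh v⁻¹)), ← map_mul,
      ← map_mul]
    congr 2
    rw [hg, map_inv]
    group
  -- error terms
  have hmw : o (mm u v) + 1 ∈ WW := G3_CW (mm_G3 u v)
  have e1 : (o (mm u v) + 1) * (o k * Xl 0) ∈ WW := WW_bi.mul_right _ hmw
  have hog : o g = o (sh u) * o (x 0) * o (sh v) := by rw [hg, map_mul, map_mul]
  have hok : o k = o (sh u) * o (sh v) := by rw [hk, map_mul]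
  obtain ⟨X, hX⟩ : ∃ X, X = Xl 0 := ⟨_, rfl⟩
  have hox : o (x 0) = X + 1 := by
    rw [hX]
    unfold Xl C
    rw [add_assoc]
    have e : (1 : FB) + 1 = 0 := fb_add_self 1
    rw [e, add_zero]
  obtain ⟨X', hX'⟩ : ∃ X', X' = C (x 0)⁻¹ := ⟨_, rfl⟩
  have hox' : o (x 0)⁻¹ = X' + 1 := by
    rw [hX']
    unfold C
    rw [add_assoc]
    have e : (1 : FB) + 1 = 0 := fb_add_self 1
    rw [e, add_zero]
  have hX1 : X ∈ I1 0 := by rw [hX]; exact sub_idl rfl
  have hX1' : X' ∈ I1 0 := by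
    rw [hX']
    exact NX_CW (NX.inv_mem x0_NX)
  obtain ⟨p, hp⟩ : ∃ p, p = o (sh u) := ⟨_, rfl⟩
  obtain ⟨q, hq⟩ : ∃ q, q = o (sh v) := ⟨_, rfl⟩
  obtain ⟨q', hq'⟩ : ∃ q', q' = o (sh v⁻¹) := ⟨_, rfl⟩
  obtain ⟨n, hn⟩ : ∃ n, n = o (mm u v) := ⟨_, rfl⟩
  have hX2 : X * X ∈ I2 0 := mul_I1_I1 hX1 hX1
  have e2 : p * X * q * (X * X) * q' * (X' + 1) ∈ WW := by
    refine AddSubgroup.mem_sup_right ?_
    refine (I3_bi 0).mul_right _ ((I3_bi 0).mul_right _ ?_)
    have e : p * X * q * (X * X) = p * (X * q * (X * X)) := by noncomm_ring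
    rw [e]
    refine (I3_bi 0).mul_left _ ?_
    exact mul_I1_I2 ((I1_bi 0).mul_right _ hX1) hX2
  have e3 : p * q * (X * X) * q' * X' ∈ WW := by
    refine AddSubgroup.mem_sup_right ?_
    have e : p * q * (X * X) * q' * X' = (p * q) * ((X * X * q') * X') := by noncomm_ring
    rw [e]
    exact (I3_bi 0).mul_left _ (mul_I2_I1 ((I2_bi 0).mul_right _ hX2) hX1')
  have hdm : dm u v = p * (X * q * X) + p * q * (X * X) * q' := by
    unfold dm
    rw [map_one sh, map_one o, mul_one, mul_one, map_mul sh, map_mul o, ← hX, ← hp, ← hq, ← hq']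
  rw [h4, h5, hdm, hog, hok, hox, hox', map_one o, mul_one, ← hX, ← hp, ← hq, ← hq', ← hn]
  rw [hok, ← hX, ← hp, ← hq, ← hn] at e1
  have e4 : p * (X + 1) * q * X + p * (X + 1) * q * (X * X) * q' * (X' + 1) + n * (p * q * X) +
      (p * (X * q * X) + p * q * (X * X) * q') =
      (n + 1) * (p * q * X) + p * X * q * (X * X) * q' * (X' + 1) + p * q * (X * X) * q' * X' +
      ((p * X * q * X + p * X * q * X) + (p * q * (X * X) * q' + p * q * (X * X) * q')) := by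
    noncomm_ring
  rw [e4]
  simp only [fb_add_self, add_zero]
  exact add_mem (add_mem e1 e2) e3

theorem rr_Bil (u v : F) : rr u v ∈ Bil 0 1 := by
  have h1 : Fr 0 1 (1 : F) := ⟨map_one _, map_one _⟩
  refine add_mem (AddSubgroup.subset_closure ⟨sh2 u, sh2 v, 1, fr_sh2 u, fr_sh2 v, h1, Or.inl ?_⟩)
    (AddSubgroup.subset_closure ⟨sh2 (u * v), 1, sh2 v⁻¹, fr_sh2 _, h1, fr_sh2 _, Or.inl ?_⟩)
  · rw [map_one, mul_one]
  · rw [map_one, mul_one]

theorem sw_sh2 (w : F) : sw 0 1 (sh2 w) = sh2 w := by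
  have e : (sw 0 1).comp sh2 = sh2 := by
    refine hom_ext fun i => ?_
    rw [MonoidHom.comp_apply, sh2_x, sw_x, if_neg (Nat.succ_ne_zero _), if_neg]
    intro h
    exact Nat.succ_ne_zero i (Nat.succ_injective h)
  exact congrArg (fun φ : F →* F => φ w) e

theorem sw_Xl0 : eB (sw 0 1) (Xl 0) = Xl 1 := by
  unfold Xl
  rw [eB_C, sw_x, if_pos rfl]

theorem sw_Xl1 : eB (sw 0 1) (Xl 1) = Xl 0 := by
  unfold Xl
  rw [eB_C, sw_x, if_neg one_ne_zero, if_pos rfl]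

theorem pol_dm (u v : F) : pol (dm u v) + (rr u v + eB (sw 0 1) (rr u v)) ∈ JJ := by
  have h1 := pol_w u v 1
  have h2 := pol_w (u * v) 1 v⁻¹
  have h3 : pol (dm u v) + (rr u v + eB (sw 0 1) (rr u v)) =
      (pol (o (sh u) * (Xl 0 * o (sh v) * Xl 0) * o (sh 1)) +
      (o (sh2 u) * (Xl 0 * o (sh2 v) * Xl 1) * o (sh2 1) + o (sh2 u) * (Xl 1 * o (sh2 v) * Xl 0) * o (sh2 1))) +
      (pol (o (sh (u * v)) * (Xl 0 * o (sh 1) * Xl 0) * o (sh v⁻¹)) +
      (o (sh2 (u * v)) * (Xl 0 * o (sh2 1) * Xl 1) * o (sh2 v⁻¹) +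
        o (sh2 (u * v)) * (Xl 1 * o (sh2 1) * Xl 0) * o (sh2 v⁻¹))) := by
    unfold dm
    rw [pol_add]
    have e1 : rr u v = o (sh2 u) * (Xl 0 * o (sh2 v) * Xl 1) * o (sh2 1) +
        o (sh2 (u * v)) * (Xl 0 * o (sh2 1) * Xl 1) * o (sh2 v⁻¹) := by
      unfold rr
      rw [map_one sh2, map_one o, mul_one, mul_one]
      noncomm_ring
    have e2 : eB (sw 0 1) (rr u v) = o (sh2 u) * (Xl 1 * o (sh2 v) * Xl 0) * o (sh2 1) +
        o (sh2 (u * v)) * (Xl 1 * o (sh2 1) * Xl 0) * o (sh2 v⁻¹) := by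
      rw [e1]
      simp only [map_add, map_mul, eB_o, sw_Xl0, sw_Xl1, sw_sh2]
    rw [e2, e1]
    abel
  rw [h3]
  exact add_mem h1 h2

/-- the word of a list -/
def wl (L : List (F × F)) : F := (L.map fun p => mm p.1 p.2).prod

/-- the element of the group ring of a list -/
def rl (L : List (F × F)) : FB := (L.map fun p => rr p.1 p.2).sum

theorem wl_G3 (L : List (F × F)) : wl L ∈ G3 := by
  unfold wl
  refine Subgroup.list_prod_mem _ ?_
  intro v hv
  obtain ⟨p, _, rfl⟩ := List.mem_map.1 hv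
  exact mm_G3 _ _

theorem rl_Bil (L : List (F × F)) : rl L ∈ Bil 0 1 := by
  unfold rl
  refine AddSubgroup.list_sum_mem _ ?_
  intro v hv
  obtain ⟨p, _, rfl⟩ := List.mem_map.1 hv
  exact rr_Bil _ _

theorem rl_R3 {L : List (F × F)} (h : dx (wl L) ∈ WW) : rl L ∈ R3 := by
  refine ⟨rl_Bil L, ?_⟩
  -- the sum of the derivatives
  have h1 : (L.map fun p => dm p.1 p.2).sum ∈ WW := by
    have h2 := dx_prod (W := WW) (hW := WW_bi) (L.map fun p => mm p.1 p.2) (by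
      intro v hv
      obtain ⟨p, _, rfl⟩ := List.mem_map.1 hv
      exact G3_CW (mm_G3 _ _))
    have h3 : ((L.map fun p => mm p.1 p.2).map dx).sum + (L.map fun p => dm p.1 p.2).sum ∈ WW := by
      clear h h2
      induction L with
      | nil =>
        simp only [List.map_nil, List.sum_nil, add_zero]
        exact zero_mem _
      | cons p L ih =>
        simp only [List.map_cons, List.sum_cons]
        have e : dx (mm p.1 p.2) + ((L.map fun p => mm p.1 p.2).map dx).sum +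
            (dm p.1 p.2 + (L.map fun p => dm p.1 p.2).sum) = (dx (mm p.1 p.2) + dm p.1 p.2) +
            (((L.map fun p => mm p.1 p.2).map dx).sum + (L.map fun p => dm p.1 p.2).sum) := by abel
        rw [e]
        exact add_mem (dx_mm _ _) ih
    have h4 := add_mem (add_mem h2 h3) h
    have e : dx (L.map fun p => mm p.1 p.2).prod + ((L.map fun p => mm p.1 p.2).map dx).sum +
        (((L.map fun p => mm p.1 p.2).map dx).sum + (L.map fun p => dm p.1 p.2).sum) + dx (wl L) =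
        (L.map fun p => dm p.1 p.2).sum + (dx (wl L) + dx (wl L)) +
        (((L.map fun p => mm p.1 p.2).map dx).sum + ((L.map fun p => mm p.1 p.2).map dx).sum) := by
      unfold wl
      abel
    rw [e, fb_add_self, fb_add_self, add_zero, add_zero] at h4
    exact h4
  have h2 := pol_mem h1
  have h3 : pol ((L.map fun p => dm p.1 p.2).sum) + (rl L + eB (sw 0 1) (rl L)) ∈ JJ := by
    clear h h1 h2
    induction L with
    | nil =>
      unfold rl
      simp only [List.map_nil, List.sum_nil, add_zero, pol_zero, map_zero]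
      exact zero_mem _
    | cons p L ih =>
      unfold rl at ih ⊢
      simp only [List.map_cons, List.sum_cons, pol_add, map_add]
      have h4 := add_mem (pol_dm p.1 p.2) ih
      have e : ∀ a b c d f g : FB, a + (b + c) + (d + (f + g)) = a + d + (b + f + (c + g)) := by
        intro a b c d f g
        abel
      rw [e] at h4
      exact h4
  have h4 : rl L + eB (sw 0 1) (rl L) = pol ((L.map fun p => dm p.1 p.2).sum) + (pol ((L.map fun p => dm p.1 p.2).sum) +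
      (rl L + eB (sw 0 1) (rl L))) := by
    rw [← add_assoc, fb_add_self, zero_add]
  rw [h4]
  refine add_mem h2 ?_
  have h5 : JJ ≤ K0 ⊔ I2 0 ⊔ I2 1 := by
    rw [sup_assoc]
    exact le_sup_right
  exact h5 h3

/-- **Layer `γ_3`.** -/
theorem psi' (h2 : ⁅G3, NX⁆ ≤ S1) {w : F} (hw : w ∈ YK (cB K0) (cB_TIdl K0_TI)) (h3 : w ∈ G3) :
    ∃ L : List (F × F), w * (wl L)⁻¹ ∈ S1 ∧ rl L ∈ R3 := by
  obtain ⟨L, hL⟩ := G3_list h2 h3
  refine ⟨L, hL, rl_R3 ?_⟩
  have h4 : dx (w * (wl L)⁻¹) ∈ WW := S1_DW hL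
  have h5 : dx w ∈ WW := AddSubgroup.mem_sup_left (dx_Y hw)
  have h6 : dx (wl L)⁻¹ ∈ WW := by
    have h9 : dx (wl L)⁻¹ = o w⁻¹ * (dx (w * (wl L)⁻¹) - dx w) := by
      rw [dx_mul, add_sub_cancel_left, ← mul_assoc, o_inv_mul, one_mul]
    rw [h9]
    exact WW_bi.mul_left _ (AddSubgroup.sub_mem _ h4 h5)
  have h7 : dx (wl L) = o (wl L) * dx (wl L)⁻¹ := by
    rw [dx_inv, ← mul_assoc, o_mul_inv, one_mul]
  rw [h7]
  exact WW_bi.mul_left _ h6

end E4.Z
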