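import Pool.Agent.Lib.MP_8a95e3_al.ZF7
import Pool.Agent.Lib.MP_8a95e3_al.RA3
import Pool.Agent.Lib.MP_8a95e3_al.YC8

/-!
# ZF8 : layer `γ_3` (helper97)
-/

open scoped commutatorElement

noncomputable section

namespace E4.Z

open E4 E4.N E4.X E4.RA

/-- the value of the map `Lam` on the element of a list -/
theorem lam_rl {Lam : FB → F ⧸ S1} (hadd : ∀ f g, Lam (f + g) = Lam f * Lam g)
    (h1 : ∀ u v : F, Lam (o (sh2 u) * Xl 0 * o (sh2 v) * Xl 1) = 1)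
    (h2 : ∀ u v : F, Lam (o (sh2 u) * o (sh2 v) * Xl 0 * Xl 1 * o (sh2 v)⁻¹) =
        QuotientGroup.mk (sh u * ⁅x 0, sh v * x 0 ^ 2 * (sh v)⁻¹⁆ * (sh u)⁻¹)) (L : List (F × F)) :
    Lam (rl L) = QuotientGroup.mk (wl L) := by
  have h0 : Lam 0 = 1 := by
    have h := hadd 0 0
    rw [add_zero] at h
    exact (left_eq_mul.1 h)
  have h3 : ∀ u v : F, Lam (rr u v) = QuotientGroup.mk (mm u v) := by
    intro u v
    unfold rr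
    rw [hadd, h1, one_mul, mm_eq, ← h2, map_mul sh2, map_mul o, map_inv sh2]
  induction L with
  | nil =>
    unfold rl wl
    rw [List.map_nil, List.sum_nil, List.map_nil, List.prod_nil, h0]
    rfl
  | cons p L ih =>
    unfold rl wl at ih ⊢
    rw [List.map_cons, List.sum_cons, List.map_cons, List.prod_cons, hadd, h3, ih]
    rfl

/-- **Layer `γ_3`**, membership -/
theorem psi (h2 : ⁅G3, NX⁆ ≤ S1) {Lam : FB → F ⧸ S1} (hadd : ∀ f g, Lam (f + g) = Lam f * Lam g)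
    (h3 : ∀ u v : F, Lam (o (sh2 u) * Xl 0 * o (sh2 v) * Xl 1) = 1)
    (h4 : ∀ u v : F, Lam (o (sh2 u) * o (sh2 v) * Xl 0 * Xl 1 * o (sh2 v)⁻¹) =
        QuotientGroup.mk (sh u * ⁅x 0, sh v * x 0 ^ 2 * (sh v)⁻¹⁆ * (sh u)⁻¹))
    {w : F} (hw : w ∈ YK (cB K0) (cB_TIdl K0_TI)) (hg : w ∈ G3) : ∃ r ∈ R3, Lam r = QuotientGroup.mk w := by
  obtain ⟨L, hL, hr⟩ := psi' h2 hw hg
  refine ⟨rl L, hr, ?_⟩
  rw [lam_rl hadd h3 h4, QuotientGroup.eq]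
  have e : (wl L)⁻¹ * w = w⁻¹ * (w * (wl L)⁻¹) * w := by group
  rw [e]
  have h5 := S1_normal.conj_mem _ hL w⁻¹
  rwa [inv_inv] at h5

/-- **Layer `γ_3`.**  `h2`, `h3` are `fact2F` and `lcs3F` (ZA1), `hJ` is `JTS (F ⧸ S1)`, `hR` is `racc_R3`. -/
theorem layer_d (h2 : ⁅G3, NX⁆ ≤ S1) (h3 : lcs NX 3 ≤ S1) (hJ : YC.JTS (F ⧸ S1)) (hR : RAcc R3 W3) :
    ∃ D : Subgroup F, LAcc D S1 ∧ ∀ w ∈ YK (cB K0) (cB_TIdl K0_TI), w ∈ G3 → w ∈ D := by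
  obtain ⟨Lam, hadd, hnat, hW, _, h5, h6⟩ := YC.exists_Lam S1_normal StP_S1 (pow4 F4_le_S1) h3 hJ
  refine ⟨_, lacc_ring Lam hadd hnat St2_R3 St2_W3 hW hR, ?_⟩
  intro w hw hg
  obtain ⟨r, hr, h7⟩ := psi h2 hadd h5 h6 hw hg
  exact Subgroup.subset_closure ⟨r, hr, h7⟩

end E4.Z
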