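import Pool.Agent.Lib.MP_8a95e3_al.ZA1
import Pool.Agent.Lib.MP_8a95e3_al.NJ3

/-!
# ZH : chains of verbal subgroups from the layers
-/

namespace E4.Z

open E4 E4.N
open scoped commutatorElement

/-- layer (b) -/
theorem lacc_b : LAcc ⁅NX, NX⁆ S0 :=
  layer_b lemE S0_normal StX_S0 (pow4 F4_le_S0) (SX_le_S0 x0_SX)

/-- layer (e) -/
theorem lacc_e : LAcc ⁅SX, SX⁆ F4 := layer_e lemE F4_normal StX_F4 (pow4 le_rfl)

/-- **Chains of verbal subgroups, from the layers (a), (c), (d).** -/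
theorem hF4_of (Y : Subgroup F) (ha : ∀ w ∈ Y, kx w = 1 → w ∈ D2)
    (hc : ∃ D : Subgroup F, LAcc D G3 ∧ ∀ w ∈ Y, kx w = 1 → w ∈ S0 → w ∈ G3 ⊔ D)
    (hd : ∃ D : Subgroup F, LAcc D S1 ∧ ∀ w ∈ Y, kx w = 1 → w ∈ G3 → w ∈ S1 ⊔ D)
    (U : ℕ → Subgroup F) (hU : Monotone U) (hUv : ∀ n, Verb4 (U n)) (hUY : ∀ n, U n ≤ Y) :
    ∃ n, ∀ m ≥ n, U m = U n := by
  obtain ⟨C, hC⟩ : ∃ C : ℕ → Subgroup F, ∀ k, C k =
      if k = 0 then D2 else if k = 1 then S0 else if k = 2 then G3 else if k = 3 then S1 else F4 := ⟨_, fun k => rfl⟩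
  have c0 : C 0 = D2 := hC 0
  have c1 : C 1 = S0 := hC 1
  have c2 : C 2 = G3 := hC 2
  have c3 : C 3 = S1 := hC 3
  have c4 : C 4 = F4 := hC 4
  refine acc_frame' Y 4 C ?_ ?_ ?_ ?_ ?_ U hU hUv hUY
  · intro k
    rw [hC]
    split_ifs
    · exact D2_normal
    · exact S0_normal
    · exact G3_normal
    · exact S1_normal
    · exact F4_normal
  · intro k
    rw [hC]
    split_ifs
    · exact StP_D2
    · exact StP_S0
    · exact StP_G3
    · exact StP_S1
    · exact StP_F4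
  · intro w hw hk
    rw [c0]
    exact ha w hw hk
  · intro w _ _ hw V hV
    rw [c4] at hw
    exact F4_le hV hw
  · intro k hk
    have h4 : k = 0 ∨ k = 1 ∨ k = 2 ∨ k = 3 := by omega
    rcases h4 with h | h | h | h
    · subst h
      refine ⟨⁅NX, NX⁆, ?_, ?_⟩
      · show LAcc _ (C 1)
        rw [c1]
        exact lacc_b
      · intro w _ _ hw
        show w ∈ C 1 ⊔ _
        rw [c0] at hw
        rw [c1, sup_comm]
        exact hw
    · subst h
      obtain ⟨D, h1, h2⟩ := hc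
      refine ⟨D, ?_, ?_⟩
      · show LAcc _ (C 2)
        rw [c2]
        exact h1
      · intro w hw hkw hwC
        show w ∈ C 2 ⊔ _
        rw [c1] at hwC
        rw [c2]
        exact h2 w hw hkw hwC
    · subst h
      obtain ⟨D, h1, h2⟩ := hd
      refine ⟨D, ?_, ?_⟩
      · show LAcc _ (C 3)
        rw [c3]
        exact h1
      · intro w hw hkw hwC
        show w ∈ C 3 ⊔ _
        rw [c2] at hwC
        rw [c3]
        exact h2 w hw hkw hwC
    · subst h
      refine ⟨⁅SX, SX⁆, ?_, ?_⟩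
      · show LAcc _ (C 4)
        rw [c4]
        exact lacc_e
      · intro w _ _ hw
        show w ∈ C 4 ⊔ _
        rw [c3] at hw
        rw [c4, sup_comm]
        exact hw

end E4.Z
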