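import Pool.Agent.Lib.MP_8a95e3_al.ZH
import Pool.Agent.Lib.MP_8a95e3_al.ZF8
import Pool.Agent.Lib.MP_8a95e3_al.RA8
import Pool.Agent.Lib.MP_8a95e3_al.XZ
import Pool.Agent.Lib.MP_8a95e3_al.ZC2
import Pool.Agent.Lib.MP_8a95e3_al.ZF4

/-!
# ZH3 : the frozen statement from the remaining inputs
-/

noncomputable section

namespace E4.Z

open E4 E4.X

/-- layer (c) -/
theorem layer_c' (hG : GenF) {P : AddSubgroup FA} (hP : TIdl P) (hPw : ∀ m, wA ofF m ∉ P)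
    (hPm : ∀ Q : AddSubgroup FA, TIdl Q → P ≤ Q → (∀ m, wA ofF m ∉ Q) → Q ≤ P) (hex : mB P = PG RG) :
    ∃ D : Subgroup F, N.LAcc D G3 ∧
      ∀ w ∈ N.YK (cB K0) (cB_TIdl K0_TI), N.kx w = 1 → w ∈ S0 → w ∈ G3 ⊔ D := by
  obtain ⟨D, h1, h2⟩ := lacc_c hG
  refine ⟨D, h1, fun w hw _ hw0 => ?_⟩
  obtain ⟨L, hL, h3, h4⟩ := mem_c P hP hPw hPm hw hw0
  rw [hex] at h3
  have h5 := Subgroup.mul_mem _ (Subgroup.mem_sup_left h4 : _ ∈ G3 ⊔ D) (h2 L hL h3)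
  rwa [inv_mul_cancel_right] at h5

/-- squares act trivially on the commutators of the conjugates of an involution -/
theorem jts_S1 : E4.YC.JTS (F ⧸ S1) := by
  intro e he u v g
  exact N.E1_all (exp4_q F4_le_S1) he u v g

/-- layer (d) -/
theorem layer_d' (hG : GenF) (hI : Ids (PG RG)) (h0 : A0F (PG RG)) (hK : E4.RA.KUn) :
    ∃ D : Subgroup F, N.LAcc D S1 ∧
      ∀ w ∈ N.YK (cB K0) (cB_TIdl K0_TI), N.kx w = 1 → w ∈ G3 → w ∈ S1 ⊔ D := by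
  obtain ⟨D, h1, h2⟩ := layer_d fact2F lcs3F jts_S1 (E4.RA.racc_R3 hG h0 hI hK)
  exact ⟨D, h1, fun w hw _ hg => Subgroup.mem_sup_right (h2 w hw hg)⟩

/-- **hF4** -/
theorem hF4_main (hG : GenF) (hI : Ids (PG RG)) {P : AddSubgroup FA} (hP : TIdl P) (hPw : ∀ m, wA ofF m ∉ P)
    (hPm : ∀ Q : AddSubgroup FA, TIdl Q → P ≤ Q → (∀ m, wA ofF m ∉ Q) → Q ≤ P) (hex : mB P = PG RG)
    (h0 : A0F (PG RG)) (hK : E4.RA.KUn)
    (U : ℕ → Subgroup F) (hU : Monotone U) (hUv : ∀ n, Verb4 (U n))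
    (hUY : ∀ n, U n ≤ N.YK (cB K0) (cB_TIdl K0_TI)) : ∃ n, ∀ m ≥ n, U m = U n :=
  hF4_of _ (fun _ hw hk => layer_a hw hk) (layer_c' hG hP hPw hPm hex) (layer_d' hG hI h0 hK) U hU hUv hUY

/-- **Every verbal subgroup is finitely generated as a verbal subgroup.** -/
theorem fb_all' (hG : GenF) (hI : Ids (PG RG)) (hK : E4.RA.KUn)
    (hA : ∀ P : AddSubgroup FA, TIdl P → (∀ m, wA ofF m ∉ P) →
      (∀ Q : AddSubgroup FA, TIdl Q → P ≤ Q → (∀ m, wA ofF m ∉ Q) → Q ≤ P) → A0F (mB P))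
    (V : Subgroup F) (hV : Verb4 V) : ∃ T : Finset F, V = vcl (T : Set F) := by
  by_cases h : Sol V
  · exact sol_fb hV h
  · have hW : ¬ Sol E4.WW := E4.WW_insol ⟨V, hV, h⟩
    obtain ⟨P, hP, hPw, hPm, _⟩ := N.thmF3 E4.WW_verb hW
    have hle : PG RG ≤ mB P := hG.le P hP hPw hPm
    have hex : mB P = PG RG := exact (hA P hP hPw hPm) hI hle
    have h0 : A0F (PG RG) := hex ▸ hA P hP hPw hPm
    exact assembly hG hI hA (hF4_main hG hI hP hPw hPm hex h0 hK) E4.WW_verb hW (fun U hU hn => sol_of_not_le hU hn) V hV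

/-- **The frozen statement.** -/
theorem finite_basis' (hG : GenF) (hI : Ids (PG RG)) (hK : E4.RA.KUn)
    (hA : ∀ P : AddSubgroup FA, TIdl P → (∀ m, wA ofF m ∉ P) →
      (∀ Q : AddSubgroup FA, TIdl Q → P ≤ Q → (∀ m, wA ofF m ∉ Q) → Q ≤ P) → A0F (mB P))
    (S : Set (FreeGroup ℕ)) (hS : (FreeGroup.of 0) ^ 4 ∈ S) :
    ∃ T : Finset (FreeGroup ℕ), ∀ (G : Type) [Group G],
      ((∀ w ∈ S, ∀ f : ℕ → G, FreeGroup.lift f w = 1) ↔ (∀ w ∈ T, ∀ f : ℕ → G, FreeGroup.lift f w = 1)) := by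
  obtain ⟨T, hT⟩ := fb_all' hG hI hK hA (vcl S) (vcl_verb hS)
  refine ⟨T, fun G _ => ?_⟩
  have h1 := sat_iff G S
  have h2 := sat_iff G (T : Set F)
  rw [hT, ← h2] at h1
  exact h1

end E4.Z
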