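import Pool.Agent.Lib.MP_8a95e3_al.I64t
import Pool.Agent.Lib.MP_8a95e3_al.I06
import Pool.Agent.Lib.MP_8a95e3_al.XF
import Pool.Agent.Lib.MP_8a95e3_al.RA6

/-!
# ZI0 : `Ids (PG RG)` and `KUn`, from `hcl`
-/

noncomputable section

namespace E4.Z

open E4 E4.X

/-- an endomorphism with prescribed values on the first four letters -/
theorem exists_end (a b c d : F) : ∃ φ : F →* F, φ (x 0) = a ∧ φ (x 1) = b ∧ φ (x 2) = c ∧ φ (x 3) = d := by
  refine ⟨FreeGroup.lift fun i => if i = 0 then a else if i = 1 then b else if i = 2 then c else d, ?_, ?_, ?_, ?_⟩ <;>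
  · unfold x
    rw [FreeGroup.lift_apply_of]
    simp

theorem t2_mem (a b : F) : t2 a b ∈ PG RG := by
  obtain ⟨φ, h0, h1, _, _⟩ := exists_end a b 1 1
  have h : eB φ (t2 (x 0) (x 1)) ∈ PG RG := sub_idl (Or.inr ⟨φ, _, Or.inl rfl, rfl⟩)
  rwa [eB_t2, h0, h1] at h

theorem c3_mem (a g u : F) : c3 a g u ∈ PG RG := by
  obtain ⟨φ, h0, h1, h2, _⟩ := exists_end a g u 1
  have h : eB φ (c3 (x 0) (x 1) (x 2)) ∈ PG RG := sub_idl (Or.inr ⟨φ, _, Or.inr (Or.inl rfl), rfl⟩)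
  rwa [eB_c3, h0, h1, h2] at h

theorem c4_mem (a b c d : F) : c4 a b c d ∈ PG RG := by
  obtain ⟨φ, h0, h1, h2, h3⟩ := exists_end a b c d
  have h : eB φ (c4 (x 0) (x 1) (x 2) (x 3)) ∈ PG RG := sub_idl (Or.inr ⟨φ, _, Or.inr (Or.inr rfl), rfl⟩)
  rwa [eB_c4, h0, h1, h2, h3] at h

/-- **`K` is well defined** -/
theorem kUn : E4.RA.KUn := fun _ hk => kp_unique (tauLaws 0 1) hk

/-- **The laws of `PG RG`** -/
theorem ids_of (hcl : ∀ r ∈ RG, ∃ k, (r, k) ∈ KP 4 5 ∧ k ∈ NN (PG RG) 4 5) : Ids (PG RG) := by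
  have h : TI (PG RG) := XK2_PG_TI RG
  obtain ⟨four, s2c, s2d, s3a, s3b, s3b', s3b'', s3c, s3d, s3e, g1a, g1b, g1c, g2, g3, g3', g4⟩ := ids64 h
  have kwd : ∀ y z : ℕ, y ≠ z → ∀ w k : FB, (w, k) ∈ KP y z → w ∈ PG RG → k ∈ NN (PG RG) y z :=
    kwd_RG (fun y z _ => tauLaws y z) (fun y z _ g => hcube_of h y z g) hcl
  exact
    { ti := h
      four := four
      s2a := f_s2a h c3_mem
      s2b := f_s2b h c3_mem s2c
      s2c := s2c
      s2d := s2d
      s3a := s3a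
      s3b := s3b
      s3b' := s3b'
      s3b'' := s3b''
      s3c := s3c
      s3d := s3d
      s3e := s3e
      g1a := g1a
      g1b := g1b
      g1c := g1c
      g2 := g2
      g3 := g3
      g3' := g3'
      g4 := g4
      ksym := f_ksym h
      esym := f_esym h
      e1a := f_e1a h
      e1b := f_e1b h
      e1c := f_e1c h (f_e3 h c4_mem)
      e2 := f_e2 h
      e3 := f_e3 h c4_mem
      e4 := f_e4 h
      kwd := kwd
      twd := twd_of h (thLaws h four t2_mem) kwd }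

end E4.Z
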