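import Pool.Agent.Lib.MP_8a95e3_al.ZI0
import Pool.Agent.Lib.MP_8a95e3_al.ZH3
import Pool.Agent.Lib.MP_8a95e3_al.ZE1

/-!
# ZZ0 : the frozen statement from `GenF` and `hcl`
-/

noncomputable section

namespace E4.Z

open E4 E4.X

theorem final_of (hG : GenF) (hcl : ∀ r ∈ RG, ∃ k, (r, k) ∈ KP 4 5 ∧ k ∈ NN (PG RG) 4 5)
    (S : Set (FreeGroup ℕ)) (hS : (FreeGroup.of 0) ^ 4 ∈ S) :
    ∃ T : Finset (FreeGroup ℕ), ∀ (G : Type) [Group G],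
      ((∀ w ∈ S, ∀ f : ℕ → G, FreeGroup.lift f w = 1) ↔ (∀ w ∈ T, ∀ f : ℕ → G, FreeGroup.lift f w = 1)) :=
  finite_basis' hG (ids_of hcl) kUn A0F_all S hS

end E4.Z
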