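import Pool.Agent.Lib.MP_8a95e3_al.ZZ0
import Pool.Agent.Lib.MP_8a95e3_al.XH5
import Pool.Agent.Lib.MP_8a95e3_al.XM6

/-!
# ZZ1 : every variety of groups of exponent 4 is finitely based
-/

noncomputable section

namespace E4.Z

open E4 E4.X

/-- **Every variety of groups of exponent 4 is finitely based.** -/
theorem final (S : Set (FreeGroup ℕ)) (hS : (FreeGroup.of 0) ^ 4 ∈ S) :
    ∃ T : Finset (FreeGroup ℕ), ∀ (G : Type) [Group G],
      ((∀ w ∈ S, ∀ f : ℕ → G, FreeGroup.lift f w = 1) ↔ (∀ w ∈ T, ∀ f : ℕ → G, FreeGroup.lift f w = 1)) :=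
  final_of genF hcl S hS

end E4.Z
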